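import Pool.Agent.P.MP_ad7a55_nt.Defs

/-! Upper bounds for Dirichlet L-functions. -/

set_option autoImplicit false

noncomputable section

open MeasureTheory Topology Filter UpperHalfPlane
open scoped MatrixGroups ENNReal BoundedContinuousFunction

namespace Pool.Agent.EQ

/-- The summatory function of a Dirichlet character. -/
def sgbA {q : ℕ} (χ : DirichletCharacter ℂ q) (n : ℕ) : ℂ := ∑ k ∈ Finset.Icc 1 n, χ (k : ZMod q)

theorem sgb_succ {q : ℕ} (χ : DirichletCharacter ℂ q) (n : ℕ) :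
    sgbA χ (n + 1) = sgbA χ n + χ ((n + 1 : ℕ) : ZMod q) := by
  unfold sgbA
  rw [Finset.sum_Icc_succ_top (by omega)]

theorem sgb_le_self {q : ℕ} (χ : DirichletCharacter ℂ q) (n : ℕ) : ‖sgbA χ n‖ ≤ n := by
  induction n with
  | zero => simp [sgbA]
  | succ n ih =>
    rw [sgb_succ, Nat.cast_succ n (R := ℝ)]
    exact (norm_add_le _ _).trans (add_le_add ih (χ.norm_le_one _))

theorem sgb_period {q : ℕ} [NeZero q] {χ : DirichletCharacter ℂ q} (hχ : χ ≠ 1) :
    sgbA χ q = 0 := by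
  have h1 : ∑ k ∈ Finset.range q, χ (k : ZMod q) = ∑ x : ZMod q, χ x := by
    refine Finset.sum_bij' (fun k _ => (k : ZMod q)) (fun x _ => x.val) (fun _ _ => Finset.mem_univ _)
      (fun x _ => Finset.mem_range.2 (ZMod.val_lt x)) (fun k hk => ?_) (fun x _ => ?_)
      fun _ _ => rfl
    · exact ZMod.val_cast_of_lt (Finset.mem_range.1 hk)
    · exact ZMod.natCast_zmod_val x
  have h2 : ∀ n : ℕ, sgbA χ n + χ ((0 : ℕ) : ZMod q) =
      ∑ k ∈ Finset.range n, χ (k : ZMod q) + χ (n : ZMod q) := by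
    intro n
    induction n with
    | zero => simp [sgbA]
    | succ n ih =>
      rw [sgb_succ, Finset.sum_range_succ, ← ih]
      ring
  have h3 := h2 q
  rw [h1, MulChar.sum_eq_zero_of_ne_one hχ, ZMod.natCast_self, Nat.cast_zero] at h3
  exact add_right_cancel h3

theorem sgb_add {q : ℕ} [NeZero q] {χ : DirichletCharacter ℂ q} (hχ : χ ≠ 1) (n : ℕ) :
    sgbA χ (n + q) = sgbA χ n := by
  induction n with
  | zero =>
    rw [zero_add, sgb_period hχ]
    simp [sgbA]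
  | succ n ih =>
    rw [Nat.add_right_comm, sgb_succ, sgb_succ, ih]
    congr 2
    push_cast
    rw [ZMod.natCast_self, add_zero]

theorem sgb_le_q {q : ℕ} [NeZero q] {χ : DirichletCharacter ℂ q} (hχ : χ ≠ 1) (n : ℕ) :
    ‖sgbA χ n‖ ≤ q := by
  induction n using Nat.strong_induction_on with
  | _ n ih =>
    by_cases h : n ≤ q
    · exact (sgb_le_self χ n).trans (Nat.cast_le.2 h)
    · have hq := NeZero.pos q
      have h1 : n = n - q + q := by omega
      rw [h1, sgb_add hχ]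
      exact ih _ (by omega)

theorem sgb_interp {x a b θ : ℝ} (hx : 0 ≤ x) (ha : x ≤ a) (hb : x ≤ b) (h0 : 0 ≤ θ)
    (h1 : θ ≤ 1) : x ≤ a ^ θ * b ^ (1 - θ) := by
  have h2 : 0 ≤ 1 - θ := by linarith
  calc x = x ^ (θ + (1 - θ)) := by rw [add_sub_cancel, Real.rpow_one]
    _ = x ^ θ * x ^ (1 - θ) := Real.rpow_add_of_nonneg hx h0 h2
    _ ≤ _ := mul_le_mul (Real.rpow_le_rpow hx ha h0) (Real.rpow_le_rpow hx hb h2)
        (Real.rpow_nonneg hx _) (Real.rpow_nonneg (hx.trans ha) _)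

theorem sgb_small {q : ℕ} (χ : DirichletCharacter ℂ q) {t : ℝ} (ht : t < 1) :
    sgbA χ ⌊t⌋₊ = 0 := by
  rw [Nat.floor_eq_zero.2 ht]
  simp [sgbA]

theorem sgb_mellin {q : ℕ} (χ : DirichletCharacter ℂ q) (s : ℂ) :
    mellin (fun t : ℝ => sgbA χ ⌊t⌋₊) (-s) =
      ∫ t in Set.Ioi (1 : ℝ), sgbA χ ⌊t⌋₊ * (t : ℂ) ^ (-(s + 1)) := by
  rw [← integral_Ici_eq_integral_Ioi]
  unfold mellin
  rw [setIntegral_eq_of_subset_of_forall_sdiff_eq_zero (s := Set.Ici (1 : ℝ)) measurableSet_Ioi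
    (Set.Ici_subset_Ioi.2 zero_lt_one)]
  · refine setIntegral_congr_fun measurableSet_Ici fun t _ => ?_
    simp only [smul_eq_mul]
    rw [mul_comm, neg_add', sub_eq_add_neg]
  · intro x hx
    simp only [sgb_small χ (not_le.1 hx.2), smul_zero]

theorem sgb_diff {q : ℕ} [NeZero q] {χ : DirichletCharacter ℂ q} (hχ : χ ≠ 1) {w : ℂ}
    (hw : w.re < 0) : DifferentiableAt ℂ (mellin fun t : ℝ => sgbA χ ⌊t⌋₊) w := by
  have hm : Measurable fun t : ℝ => sgbA χ ⌊t⌋₊ :=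
    (measurable_of_countable (sgbA χ)).comp Nat.measurable_floor
  refine mellin_differentiableAt_of_isBigO_rpow (a := 0) (b := w.re - 1) ?_ ?_ hw ?_ (by linarith)
  · refine LocallyIntegrable.locallyIntegrableOn ?_ _
    refine (locallyIntegrable_const (q : ℝ)).mono hm.aestronglyMeasurable
      (Eventually.of_forall fun t => ?_)
    exact (sgb_le_q hχ _).trans (le_abs_self _)
  · refine Asymptotics.IsBigO.of_bound q (Eventually.of_forall fun t => ?_)
    simpa using sgb_le_q hχ ⌊t⌋₊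
  · refine Asymptotics.IsBigO.of_bound 0 ?_
    filter_upwards [mem_nhdsWithin_of_mem_nhds (Iio_mem_nhds zero_lt_one)] with t ht
    rw [sgb_small χ ht]
    simp

theorem sgb_repr {q : ℕ} [NeZero q] {χ : DirichletCharacter ℂ q} (hχ : χ ≠ 1) {s : ℂ}
    (hs : 0 < s.re) :
    χ.LFunction s = s * ∫ t in Set.Ioi (1 : ℝ), sgbA χ ⌊t⌋₊ * (t : ℂ) ^ (-(s + 1)) := by
  rw [← sgb_mellin]
  have hU : IsOpen {z : ℂ | 0 < z.re} := isOpen_lt continuous_const Complex.continuous_re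
  have h1 : AnalyticOnNhd ℂ χ.LFunction {z : ℂ | 0 < z.re} :=
    (χ.differentiable_LFunction hχ).differentiableOn.analyticOnNhd hU
  have h2 : AnalyticOnNhd ℂ (fun z : ℂ => z * mellin (fun t : ℝ => sgbA χ ⌊t⌋₊) (-z))
      {z : ℂ | 0 < z.re} := by
    refine DifferentiableOn.analyticOnNhd (fun z hz => ?_) hU
    have h3 : (-z).re < 0 := by
      rw [Complex.neg_re]
      exact neg_neg_of_pos hz
    exact (differentiableAt_id.mul
      ((sgb_diff hχ h3).comp z differentiableAt_id.neg)).differentiableWithinAt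
  have h4 : (2 : ℂ) ∈ {z : ℂ | 0 < z.re} := by simp
  refine h1.eqOn_of_preconnected_of_eventuallyEq h2 (convex_halfSpace_re_gt 0).isPreconnected h4
    ?_ hs
  have h5 : {z : ℂ | 1 < z.re} ∈ 𝓝 (2 : ℂ) :=
    (isOpen_lt continuous_const Complex.continuous_re).mem_nhds (by simp)
  filter_upwards [h5] with z hz
  rw [χ.LFunction_eq_LSeries hz, sgb_mellin]
  refine LSeries_eq_mul_integral _ le_rfl (zero_lt_one.trans hz)
    (χ.LSeriesSummable_of_one_lt_re hz) ?_
  refine Asymptotics.IsBigO.of_bound q (Eventually.of_forall fun n => ?_)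
  simpa [sgbA] using sgb_le_q hχ n

theorem L_le {q : ℕ} [NeZero q] {χ : DirichletCharacter ℂ q} (hχ : χ ≠ 1) {θ : ℝ} (h0 : 0 < θ)
    (h1 : θ ≤ 1) {s : ℂ} (hs : 1 - θ < s.re) :
    ‖χ.LFunction s‖ ≤ ‖s‖ * (q : ℝ) ^ θ / (s.re - (1 - θ)) := by
  have hs0 : 0 < s.re := by linarith
  have ha : -θ - s.re < -1 := by linarith
  rw [sgb_repr hχ hs0, norm_mul, mul_div_assoc]
  refine mul_le_mul_of_nonneg_left ?_ (norm_nonneg _)
  have h2 : ∫ t in Set.Ioi (1 : ℝ), (q : ℝ) ^ θ * t ^ (-θ - s.re) =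
      (q : ℝ) ^ θ / (s.re - (1 - θ)) := by
    rw [integral_const_mul, integral_Ioi_rpow_of_lt ha zero_lt_one, Real.one_rpow]
    have h3 : s.re - (1 - θ) ≠ 0 := by linarith
    have h4 : -θ - s.re + 1 = -(s.re - (1 - θ)) := by ring
    rw [h4, neg_div_neg_eq, mul_one_div]
  rw [← h2]
  refine norm_integral_le_of_norm_le
    ((integrableOn_Ioi_rpow_of_lt ha zero_lt_one).const_mul _) ?_
  filter_upwards [ae_restrict_mem measurableSet_Ioi] with t ht
  have ht0 : 0 < t := zero_lt_one.trans ht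
  rw [norm_mul, Complex.norm_cpow_eq_rpow_re_of_pos ht0]
  have h5 : ‖sgbA χ ⌊t⌋₊‖ ≤ (q : ℝ) ^ θ * t ^ (1 - θ) :=
    sgb_interp (norm_nonneg _) (sgb_le_q hχ _)
      ((sgb_le_self χ _).trans (Nat.floor_le ht0.le)) h0.le h1
  refine (mul_le_mul_of_nonneg_right h5 (Real.rpow_nonneg ht0.le _)).trans (le_of_eq ?_)
  rw [mul_assoc, ← Real.rpow_add ht0]
  congr 2
  simp only [Complex.neg_re, Complex.add_re, Complex.one_re]
  ring

theorem L_ball {q : ℕ} [NeZero q] {χ : DirichletCharacter ℂ q} (hχ : χ ≠ 1) {s : ℂ}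
    (hs : s ∈ Metric.closedBall (2 : ℂ) (4 / 3)) : ‖χ.LFunction s‖ ≤ 5 * q := by
  rw [mem_closedBall_iff_norm] at hs
  have h1 : 2 / 3 ≤ s.re := by
    have h2 := abs_le.1 ((Complex.abs_re_le_norm (s - 2)).trans hs)
    have h3 : (s - 2).re = s.re - 2 := by simp
    linarith [h2.1]
  have h4 : ‖s‖ ≤ 10 / 3 := by
    have h5 := norm_add_le (s - 2) 2
    rw [sub_add_cancel, Complex.norm_two] at h5
    linarith
  have h6 := L_le hχ zero_lt_one le_rfl (s := s) (by linarith)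
  rw [Real.rpow_one, sub_self, sub_zero] at h6
  refine h6.trans ?_
  rw [div_le_iff₀ (by linarith)]
  have hq : (0 : ℝ) ≤ q := Nat.cast_nonneg q
  nlinarith

theorem L_one {q : ℕ} [NeZero q] {χ : DirichletCharacter ℂ q} (hχ : χ ≠ 1) {ε : ℝ} (h0 : 0 < ε)
    (h1 : ε ≤ 1) : ‖χ.LFunction 1‖ ≤ (q : ℝ) ^ ε / ε := by
  have h := L_le hχ h0 h1 (s := 1) (by simpa using h0)
  simpa using h

end Pool.Agent.EQ
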