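import Pool.Agent.P.MP_ad7a55_nt.Defs

/-! Elementary bounds for divisors and roots. -/

set_option autoImplicit false

noncomputable section

open MeasureTheory Topology Filter UpperHalfPlane
open scoped MatrixGroups ENNReal BoundedContinuousFunction

namespace Pool.Agent.EQ

theorem CtA_pp {ε : ℝ} (hε : 0 < ε) : ∃ K : ℝ, 1 ≤ K ∧ ∃ P : ℕ, ∀ l k : ℕ, 2 ≤ l →
    (k + 1 : ℝ) ≤ (if l < P then K else 1) * ((l : ℝ) ^ k) ^ ε := by
  have hl2 : 0 < Real.log 2 := Real.log_pos (by norm_num)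
  have he : 0 < ε * Real.log 2 := mul_pos hε hl2
  refine ⟨1 + 1 / (ε * Real.log 2), by
    have : 0 < 1 / (ε * Real.log 2) := by positivity
    linarith, ⌈Real.exp (1 / ε)⌉₊, fun l k hl => ?_⟩
  have hl0 : (0 : ℝ) < l := by exact_mod_cast (by omega : 0 < l)
  have hk0 : (0 : ℝ) ≤ k := Nat.cast_nonneg k
  have hx : ((l : ℝ) ^ k) ^ ε = Real.exp (k * (ε * Real.log l)) := by
    rw [Real.rpow_def_of_pos (pow_pos hl0 k), Real.log_pow]
    congr 1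
    ring
  have hb : k * (ε * Real.log l) + 1 ≤ ((l : ℝ) ^ k) ^ ε := by
    rw [hx]
    exact Real.add_one_le_exp _
  split_ifs with h
  · have h2 : Real.log 2 ≤ Real.log l := Real.log_le_log (by norm_num) (by exact_mod_cast hl)
    have h3 : k * (ε * Real.log 2) + 1 ≤ ((l : ℝ) ^ k) ^ ε := by
      refine le_trans ?_ hb
      have : ε * Real.log 2 ≤ ε * Real.log l := mul_le_mul_of_nonneg_left h2 hε.le
      nlinarith
    set e := ε * Real.log 2 with hedef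
    have h4 : (k + 1 : ℝ) ≤ (1 + 1 / e) * (k * e + 1) := by
      have : (1 + 1 / e) * (k * e + 1) = k * e + 1 + k + 1 / e := by
        field_simp
        ring
      rw [this]
      have h5 : 0 ≤ k * e := mul_nonneg hk0 he.le
      have h6 : 0 < 1 / e := by positivity
      linarith
    exact h4.trans (mul_le_mul_of_nonneg_left h3 (by positivity))
  · have h1 : Real.exp (1 / ε) ≤ l := Nat.ceil_le.1 (not_lt.1 h)
    have h2 : 1 / ε ≤ Real.log l := (Real.le_log_iff_exp_le hl0).2 h1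
    have h3 : 1 ≤ ε * Real.log l := by
      rw [div_le_iff₀ hε] at h2
      linarith
    rw [one_mul]
    refine le_trans ?_ hb
    nlinarith

theorem div_bound {ε : ℝ} (hε : 0 < ε) :
    ∃ C : ℝ, 0 < C ∧ ∀ n : ℕ, 0 < n → (n.divisors.card : ℝ) ≤ C * (n : ℝ) ^ ε := by
  obtain ⟨K, hK, P, hP⟩ := CtA_pp hε
  refine ⟨K ^ P, by positivity, fun n hn => ?_⟩
  have h1 : (n : ℝ) ^ ε = ∏ l ∈ n.primeFactors, ((l : ℝ) ^ n.factorization l) ^ ε := by
    rw [Real.finsetProd_rpow _ _ (fun i _ => by positivity)]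
    congr 1
    exact_mod_cast Nat.prod_primeFactors_pow_factorization hn.ne'
  have h2 : ∏ l ∈ n.primeFactors, (if l < P then K else 1) ≤ K ^ P := by
    rw [Finset.prod_ite, Finset.prod_const, Finset.prod_const_one, mul_one]
    refine pow_le_pow_right₀ hK ?_
    calc (n.primeFactors.filter fun l => l < P).card ≤ (Finset.range P).card :=
          Finset.card_le_card fun l hl => Finset.mem_range.2 (Finset.mem_filter.1 hl).2
      _ = P := Finset.card_range P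
  calc (n.divisors.card : ℝ) = ∏ l ∈ n.primeFactors, ((n.factorization l : ℝ) + 1) := by
        rw [Nat.card_divisors hn.ne']
        push_cast
        rfl
    _ ≤ ∏ l ∈ n.primeFactors, ((if l < P then K else 1) * ((l : ℝ) ^ n.factorization l) ^ ε) :=
        Finset.prod_le_prod (fun l _ => by positivity) fun l hl =>
          hP l _ (Nat.prime_of_mem_primeFactors hl).two_le
    _ = (∏ l ∈ n.primeFactors, (if l < P then K else 1)) * (n : ℝ) ^ ε := by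
        rw [Finset.prod_mul_distrib, h1]
    _ ≤ K ^ P * (n : ℝ) ^ ε := mul_le_mul_of_nonneg_right h2 (by positivity)

theorem two_pow_omega_le {n : ℕ} (hn : 0 < n) : 2 ^ n.primeFactors.card ≤ n.divisors.card := by
  rw [Nat.card_divisors hn.ne', ← Finset.prod_const]
  refine Finset.prod_le_prod' fun l hl => ?_
  have := (Nat.prime_of_mem_primeFactors hl).factorization_pos_of_dvd hn.ne'
    (Nat.dvd_of_mem_primeFactors hl)
  omega

theorem CtA_norm_term {l : ℕ} (hl : 2 ≤ l) {z : ℂ} (hz : ‖z‖ ≤ 1) :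
    ‖z * (l : ℂ) ^ (-1 : ℂ)‖ ≤ 1 / 2 := by
  rw [Complex.cpow_neg_one, norm_mul, norm_inv, Complex.norm_natCast]
  have h2 : (2 : ℝ) ≤ l := by exact_mod_cast hl
  have h3 : (l : ℝ)⁻¹ ≤ 1 / 2 := by
    rw [one_div]
    exact inv_anti₀ (by norm_num) h2
  calc ‖z‖ * (l : ℝ)⁻¹ ≤ 1 * (1 / 2) := mul_le_mul hz h3 (by positivity) zero_le_one
    _ = 1 / 2 := one_mul _

/-- Euler factors at `s = 1` are not small. -/
theorem euler_lower {n : ℕ} (hn : 0 < n) (c : ℕ → ℂ) (hc : ∀ l, ‖c l‖ ≤ 1) :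
    1 ≤ (n.divisors.card : ℝ) * ‖∏ l ∈ n.primeFactors, (1 - c l * (l : ℂ) ^ (-1 : ℂ))‖ := by
  have h1 : ((2 : ℝ)) ^ n.primeFactors.card ≤ n.divisors.card := by
    exact_mod_cast two_pow_omega_le hn
  have h2 : ((1 / 2 : ℝ)) ^ n.primeFactors.card ≤
      ‖∏ l ∈ n.primeFactors, (1 - c l * (l : ℂ) ^ (-1 : ℂ))‖ := by
    rw [norm_prod, ← Finset.prod_const]
    refine Finset.prod_le_prod (fun _ _ => by norm_num) fun l hl => ?_
    have h3 := CtA_norm_term (Nat.prime_of_mem_primeFactors hl).two_le (hc l)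
    have h4 := norm_sub_norm_le (1 : ℂ) (c l * (l : ℂ) ^ (-1 : ℂ))
    rw [norm_one] at h4
    linarith
  calc (1 : ℝ) = 2 ^ n.primeFactors.card * (1 / 2) ^ n.primeFactors.card := by
        rw [← mul_pow]
        norm_num
    _ ≤ _ := mul_le_mul h1 h2 (by positivity) (by positivity)

/-- Euler factors at `s = 1` are not large. -/
theorem euler_upper {n : ℕ} (hn : 0 < n) (c : ℕ → ℂ) (hc : ∀ l, ‖c l‖ ≤ 1) :
    ‖∏ l ∈ n.primeFactors, (1 - c l * (l : ℂ) ^ (-1 : ℂ))‖ ≤ n.divisors.card := by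
  have h1 : ((2 : ℝ)) ^ n.primeFactors.card ≤ n.divisors.card := by
    exact_mod_cast two_pow_omega_le hn
  refine le_trans ?_ h1
  rw [norm_prod, ← Finset.prod_const]
  refine Finset.prod_le_prod (fun _ _ => norm_nonneg _) fun l hl => ?_
  have h3 := CtA_norm_term (Nat.prime_of_mem_primeFactors hl).two_le (hc l)
  have h4 := norm_sub_le (1 : ℂ) (c l * (l : ℂ) ^ (-1 : ℂ))
  rw [norm_one] at h4
  linarith

/-- Numbers below `h L` that are pairwise congruent modulo `L`. -/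
theorem CtA_card_cong (S : Finset ℕ) {h L : ℕ} (hL : 0 < L) (hS : ∀ b ∈ S, b < h * L)
    (hc : ∀ b ∈ S, ∀ b' ∈ S, b ≡ b' [MOD L]) : S.card ≤ h := by
  calc S.card ≤ (Finset.range h).card := by
        refine Finset.card_le_card_of_injOn (fun b => b / L) (fun b hb => ?_) ?_
        · exact Finset.mem_coe.2 (Finset.mem_range.2 ((Nat.div_lt_iff_lt_mul hL).2 (hS b hb)))
        · intro b hb b' hb' e
          have e1 : b / L = b' / L := e
          have e2 : b % L = b' % L := hc b hb b' hb'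
          rw [← Nat.div_add_mod b L, ← Nat.div_add_mod b' L, e1, e2]
    _ = h := Finset.card_range h

theorem CtA_fibre {a a1 a2 : ℕ} (ha : 0 < a) (e : a = a1 * a2) (D : ℤ) {H : ℕ}
    (hH : ∀ h : ℕ, h ^ 2 ∣ a → (h : ℤ) ^ 2 ∣ 4 * D → h ≤ H) {b0 : ℤ} (h0 : (a : ℤ) ∣ b0 ^ 2 - D) :
    ((Finset.range a).filter fun b : ℕ =>
      (a1 : ℤ) ∣ (b : ℤ) - b0 ∧ (a2 : ℤ) ∣ (b : ℤ) + b0).card ≤ H := by
  set S := (Finset.range a).filter fun b : ℕ =>
      (a1 : ℤ) ∣ (b : ℤ) - b0 ∧ (a2 : ℤ) ∣ (b : ℤ) + b0 with hS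
  rcases S.eq_empty_or_nonempty with h | ⟨b1, hb1⟩
  · rw [h]
    exact Nat.zero_le _
  have hgl : Nat.gcd a1 a2 * Nat.lcm a1 a2 = a := by rw [Nat.gcd_mul_lcm, e]
  have hL : 0 < Nat.lcm a1 a2 := by
    rcases Nat.eq_zero_or_pos (Nat.lcm a1 a2) with h | h
    · rw [h, mul_zero] at hgl
      omega
    · exact h
  have hle : S.card ≤ Nat.gcd a1 a2 := by
    refine CtA_card_cong S hL (fun b hb => ?_) fun b hb b' hb' => ?_
    · rw [hgl]
      exact Finset.mem_range.1 (Finset.mem_filter.1 hb).1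
    · obtain ⟨-, p1, p2⟩ := Finset.mem_filter.1 hb
      obtain ⟨-, q1, q2⟩ := Finset.mem_filter.1 hb'
      rw [Nat.modEq_iff_dvd]
      have r1 : (a1 : ℤ) ∣ (b' : ℤ) - b := by
        have := dvd_sub q1 p1
        rwa [sub_sub_sub_cancel_right] at this
      have r2 : (a2 : ℤ) ∣ (b' : ℤ) - b := by
        have := dvd_sub q2 p2
        rwa [add_sub_add_right_eq_sub] at this
      rw [Int.natCast_dvd] at r1 r2 ⊢
      exact Nat.lcm_dvd r1 r2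
  refine hle.trans (hH _ ?_ ?_)
  · rw [e, sq]
    exact mul_dvd_mul (Nat.gcd_dvd_left _ _) (Nat.gcd_dvd_right _ _)
  · obtain ⟨-, p1, p2⟩ := Finset.mem_filter.1 hb1
    have g1 : ((Nat.gcd a1 a2 : ℕ) : ℤ) ∣ a1 := Int.natCast_dvd_natCast.2 (Nat.gcd_dvd_left _ _)
    have g2 : ((Nat.gcd a1 a2 : ℕ) : ℤ) ∣ a2 := Int.natCast_dvd_natCast.2 (Nat.gcd_dvd_right _ _)
    have g3 : ((Nat.gcd a1 a2 : ℕ) : ℤ) ∣ 2 * b0 := by
      have := dvd_sub (g2.trans p2) (g1.trans p1)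
      have e2 : (b1 : ℤ) + b0 - (b1 - b0) = 2 * b0 := by ring
      rwa [e2] at this
    have g4 : ((Nat.gcd a1 a2 : ℕ) : ℤ) ^ 2 ∣ (a : ℤ) := by
      rw [e, sq, Nat.cast_mul]
      exact mul_dvd_mul g1 g2
    have g5 := dvd_sub (pow_dvd_pow_of_dvd g3 2) ((g4.trans h0).mul_left 4)
    have e3 : (2 * b0) ^ 2 - 4 * (b0 ^ 2 - D) = 4 * D := by ring
    rwa [e3] at g5

/-- The number of square roots of `D` modulo `a`. -/
theorem roots_le {a : ℕ} (ha : 0 < a) (D : ℤ) {H : ℕ}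
    (hH : ∀ h : ℕ, h ^ 2 ∣ a → (h : ℤ) ^ 2 ∣ 4 * D → h ≤ H) :
    ((Finset.range a).filter fun b : ℕ => (a : ℤ) ∣ (b : ℤ) ^ 2 - D).card ≤
      a.divisors.card * H := by
  set S := (Finset.range a).filter fun b : ℕ => (a : ℤ) ∣ (b : ℤ) ^ 2 - D with hS
  rcases S.eq_empty_or_nonempty with h | ⟨b0, hb0⟩
  · rw [h]
    exact Nat.zero_le _
  have h0 : (a : ℤ) ∣ (b0 : ℤ) ^ 2 - D := (Finset.mem_filter.1 hb0).2
  have hsub : S ⊆ a.divisors.biUnion fun a1 => (Finset.range a).filter fun b : ℕ =>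
      (a1 : ℤ) ∣ (b : ℤ) - b0 ∧ ((a / a1 : ℕ) : ℤ) ∣ (b : ℤ) + b0 := by
    intro b hb
    obtain ⟨hr, hd⟩ := Finset.mem_filter.1 hb
    have h1 : (a : ℤ) ∣ ((b : ℤ) - b0) * ((b : ℤ) + b0) := by
      have := dvd_sub hd h0
      have e2 : (b : ℤ) ^ 2 - D - ((b0 : ℤ) ^ 2 - D) = ((b : ℤ) - b0) * ((b : ℤ) + b0) := by ring
      rwa [e2] at this
    rw [Int.natCast_dvd, Int.natAbs_mul] at h1
    obtain ⟨a1, a2, p1, p2, e⟩ := exists_dvd_and_dvd_of_dvd_mul h1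
    have ha1 : 0 < a1 := by
      rcases Nat.eq_zero_or_pos a1 with h | h
      · rw [h, zero_mul] at e
        omega
      · exact h
    refine Finset.mem_biUnion.2 ⟨a1, Nat.mem_divisors.2 ⟨⟨a2, e⟩, ha.ne'⟩,
      Finset.mem_filter.2 ⟨hr, Int.natCast_dvd.2 p1, ?_⟩⟩
    have e2 : a / a1 = a2 := by rw [e, Nat.mul_div_cancel_left _ ha1]
    rw [e2]
    exact Int.natCast_dvd.2 p2
  refine (Finset.card_le_card hsub).trans (Finset.card_biUnion_le.trans ?_)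
  rw [← smul_eq_mul]
  refine Finset.sum_le_card_nsmul _ _ _ fun a1 h1 => ?_
  exact CtA_fibre ha (Nat.mul_div_cancel' (Nat.dvd_of_mem_divisors h1)).symm D hH h0

/-- Abel's inequality. -/
theorem CtA_abel (d w : ℕ → ℝ) (hw : ∀ n, 1 ≤ n → w (n + 1) ≤ w n)
    (hd : ∀ N, ∑ n ∈ Finset.Icc 1 N, d n ≤ 0) (N : ℕ) :
    ∑ n ∈ Finset.Icc 1 N, d n * w n ≤ w N * ∑ n ∈ Finset.Icc 1 N, d n := by
  induction N with
  | zero => simp
  | succ N ih =>
    rw [Finset.sum_Icc_succ_top (by omega), Finset.sum_Icc_succ_top (by omega)]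
    have h1 : w N * ∑ n ∈ Finset.Icc 1 N, d n ≤ w (N + 1) * ∑ n ∈ Finset.Icc 1 N, d n := by
      rcases Nat.eq_zero_or_pos N with h | h
      · subst h
        simp
      · exact mul_le_mul_of_nonpos_right (hw N h) (hd N)
    nlinarith

theorem CtA_step {t : ℝ} (ht : 0 < t) {x : ℝ} (hx : 0 < x) :
    t * (x + 1) ^ (-(t + 1)) ≤ x ^ (-t) - (x + 1) ^ (-t) := by
  have hx1 : 0 < x + 1 := by linarith
  have h1 : x ^ (-t) = (x + 1) ^ (-t) * Real.exp (t * Real.log ((x + 1) / x)) := by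
    rw [Real.rpow_def_of_pos hx, Real.rpow_def_of_pos hx1, ← Real.exp_add,
      Real.log_div hx1.ne' hx.ne']
    congr 1
    ring
  have h2 : 1 / (x + 1) ≤ Real.log ((x + 1) / x) := by
    have h3 := Real.one_sub_inv_le_log_of_pos (div_pos hx1 hx)
    have h4 : 1 - ((x + 1) / x)⁻¹ = 1 / (x + 1) := by
      field_simp
      ring
    rwa [h4] at h3
  have h5 : t * (1 / (x + 1)) + 1 ≤ Real.exp (t * Real.log ((x + 1) / x)) := by
    refine le_trans ?_ (Real.add_one_le_exp _)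
    have := mul_le_mul_of_nonneg_left h2 ht.le
    linarith
  have h6 : (x + 1) ^ (-(t + 1)) = (x + 1) ^ (-t) * (1 / (x + 1)) := by
    rw [neg_add, Real.rpow_add hx1, Real.rpow_neg_one, one_div]
  have h7 : 0 < (x + 1) ^ (-t) := Real.rpow_pos_of_pos hx1 _
  have h8 := mul_le_mul_of_nonneg_left h5 h7.le
  rw [h1, h6]
  nlinarith

theorem CtA_zeta {t : ℝ} (ht : 0 < t) (N : ℕ) :
    ∑ n ∈ Finset.Icc 1 N, (n : ℝ) ^ (-(t + 1)) ≤ 1 + 1 / t := by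
  have key : ∀ M : ℕ, ∑ n ∈ Finset.Icc 1 (M + 1), (n : ℝ) ^ (-(t + 1)) ≤
      1 + (1 - ((M + 1 : ℕ) : ℝ) ^ (-t)) / t := by
    intro M
    induction M with
    | zero => simp
    | succ M ih =>
      rw [Finset.sum_Icc_succ_top (by omega)]
      have h1 := CtA_step ht (x := ((M + 1 : ℕ) : ℝ)) (by positivity)
      have e : ((M + 1 + 1 : ℕ) : ℝ) = ((M + 1 : ℕ) : ℝ) + 1 := by push_cast; ring
      rw [e]
      have h2 : (((M + 1 : ℕ) : ℝ) + 1) ^ (-(t + 1)) ≤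
          (((M + 1 : ℕ) : ℝ) ^ (-t) - (((M + 1 : ℕ) : ℝ) + 1) ^ (-t)) / t := by
        rw [le_div_iff₀ ht]
        linarith
      have h3 : (1 - (((M + 1 : ℕ) : ℝ) + 1) ^ (-t)) / t = (1 - ((M + 1 : ℕ) : ℝ) ^ (-t)) / t +
          (((M + 1 : ℕ) : ℝ) ^ (-t) - (((M + 1 : ℕ) : ℝ) + 1) ^ (-t)) / t := by ring
      linarith
  rcases N with _ | M
  · have : 0 < 1 / t := by positivity
    simp only [Nat.lt_one_iff, pos_of_gt, Finset.Icc_eq_empty_of_lt, Finset.sum_empty]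
    linarith
  · refine (key M).trans ?_
    have h1 : 0 ≤ ((M + 1 : ℕ) : ℝ) ^ (-t) := by positivity
    have h2 : (1 - ((M + 1 : ℕ) : ℝ) ^ (-t)) / t ≤ 1 / t :=
      div_le_div_of_nonneg_right (by linarith) ht.le
    linarith

/-- Partial summation, upper bound. -/
theorem tsum_le_of_partial (a : ℕ → ℝ) (ha : ∀ n, 0 ≤ a n) {α β : ℝ} (hα : 0 ≤ α) (hβ : 0 ≤ β)
    (h : ∀ N : ℕ, ∑ n ∈ Finset.Icc 1 N, a n ≤ α * N + β * Real.sqrt N) {s : ℝ} (hs : 1 < s)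
    (hs2 : s ≤ 2) (N : ℕ) :
    ∑ n ∈ Finset.Icc 1 N, a n * (n : ℝ) ^ (-s) ≤ 6 * α / (s - 1) + 8 * β := by
  set r : ℕ → ℝ := fun n => Real.sqrt n - Real.sqrt ((n : ℝ) - 1) with hr
  have hsum : ∀ M : ℕ, ∑ n ∈ Finset.Icc 1 M, (α + β * r n) = α * M + β * Real.sqrt M := by
    intro M
    induction M with
    | zero => simp
    | succ M ih =>
      rw [Finset.sum_Icc_succ_top (by omega), ih, hr]
      push_cast
      rw [add_sub_cancel_right]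
      ring
  have hd : ∀ M : ℕ, ∑ n ∈ Finset.Icc 1 M, (a n - (α + β * r n)) ≤ 0 := by
    intro M
    rw [Finset.sum_sub_distrib, hsum]
    linarith [h M]
  have h1 := CtA_abel (fun n => a n - (α + β * r n)) (fun n => (n : ℝ) ^ (-s))
    (fun n hn => by
      have hn0 : (0 : ℝ) < n := by exact_mod_cast hn
      exact Real.rpow_le_rpow_of_nonpos hn0 (by push_cast; linarith) (by linarith)) hd N
  have h2 : (N : ℝ) ^ (-s) * ∑ n ∈ Finset.Icc 1 N, (a n - (α + β * r n)) ≤ 0 :=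
    mul_nonpos_of_nonneg_of_nonpos (by positivity) (hd N)
  have h3 : ∑ n ∈ Finset.Icc 1 N, (a n - (α + β * r n)) * (n : ℝ) ^ (-s) =
      ∑ n ∈ Finset.Icc 1 N, a n * (n : ℝ) ^ (-s) - (α * ∑ n ∈ Finset.Icc 1 N, (n : ℝ) ^ (-s) +
        β * ∑ n ∈ Finset.Icc 1 N, r n * (n : ℝ) ^ (-s)) := by
    rw [Finset.mul_sum, Finset.mul_sum, ← Finset.sum_add_distrib, ← Finset.sum_sub_distrib]
    exact Finset.sum_congr rfl fun n _ => by ring
  have h4 : ∑ n ∈ Finset.Icc 1 N, (n : ℝ) ^ (-s) ≤ 1 + 1 / (s - 1) := by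
    have := CtA_zeta (t := s - 1) (by linarith) N
    rwa [sub_add_cancel] at this
  have h5 : ∑ n ∈ Finset.Icc 1 N, r n * (n : ℝ) ^ (-s) ≤ 3 := by
    have h6 := CtA_zeta (t := 1 / 2) (by norm_num) N
    have h7 : (1 : ℝ) + 1 / (1 / 2) = 3 := by norm_num
    rw [h7] at h6
    refine le_trans (Finset.sum_le_sum fun n hn => ?_) h6
    have hn1 : (1 : ℝ) ≤ n := by exact_mod_cast (Finset.mem_Icc.1 hn).1
    have hn0 : (0 : ℝ) < n := by linarith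
    have q1 : r n ≤ (n : ℝ) ^ (-(1 / 2 : ℝ)) := by
      rw [Real.rpow_neg hn0.le, ← Real.sqrt_eq_rpow, hr]
      have u0 : 0 < Real.sqrt n := Real.sqrt_pos.2 hn0
      have u1 : Real.sqrt n ^ 2 = n := Real.sq_sqrt hn0.le
      have v0 : 0 ≤ Real.sqrt ((n : ℝ) - 1) := Real.sqrt_nonneg _
      have v1 : Real.sqrt ((n : ℝ) - 1) ^ 2 = n - 1 := Real.sq_sqrt (by linarith)
      have uv : Real.sqrt ((n : ℝ) - 1) ≤ Real.sqrt n := Real.sqrt_le_sqrt (by linarith)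
      rw [← one_div, le_div_iff₀ u0]
      show (Real.sqrt n - Real.sqrt ((n : ℝ) - 1)) * Real.sqrt n ≤ 1
      nlinarith
    have q2 : (n : ℝ) ^ (-s) ≤ (n : ℝ) ^ (-1 : ℝ) :=
      Real.rpow_le_rpow_of_exponent_le hn1 (by linarith)
    calc r n * (n : ℝ) ^ (-s) ≤ (n : ℝ) ^ (-(1 / 2 : ℝ)) * (n : ℝ) ^ (-s) :=
          mul_le_mul_of_nonneg_right q1 (by positivity)
      _ ≤ (n : ℝ) ^ (-(1 / 2 : ℝ)) * (n : ℝ) ^ (-1 : ℝ) :=
          mul_le_mul_of_nonneg_left q2 (by positivity)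
      _ = (n : ℝ) ^ (-(1 / 2 + 1 : ℝ)) := by rw [← Real.rpow_add hn0, neg_add]
  have h8 : 1 ≤ 1 / (s - 1) := by
    rw [le_div_iff₀ (by linarith)]
    linarith
  have h9 := mul_le_mul_of_nonneg_left h4 hα
  have h10 := mul_le_mul_of_nonneg_left h5 hβ
  have h11 := mul_le_mul_of_nonneg_left h8 hα
  have h12 : 6 * α / (s - 1) = 6 * (α * (1 / (s - 1))) := by ring
  rw [h3] at h1
  rw [h12]
  nlinarith

variable (p : ℕ) [Fact p.Prime]

/-- The numbers `h` prime to `p` with `h² ∣ 4 D`. -/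
def Hs (D : ℤ) : Finset ℕ :=
  (4 * D.natAbs).divisors.filter fun h => ¬ p ∣ h ∧ (h : ℤ) ^ 2 ∣ 4 * D

theorem CtA_norm_two : (1 / 2 : ℝ) ≤ ‖(2 : ℚ_[p])‖ := by
  have hp : p.Prime := Fact.out
  by_cases h : p = 2
  · have h1 : ‖((p : ℕ) : ℚ_[p])‖ = (p : ℝ)⁻¹ := Padic.norm_p
    have h2 : ((p : ℕ) : ℚ_[p]) = 2 := by
      rw [show (2 : ℚ_[p]) = ((2 : ℕ) : ℚ_[p]) by norm_num, ← h]
    have h3 : (p : ℝ) = 2 := by exact_mod_cast h
    rw [h2, h3] at h1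
    rw [h1]
    norm_num
  · have h1 : ‖((2 : ℕ) : ℚ_[p])‖ = 1 :=
      Padic.norm_natCast_eq_one_iff.2 ((Nat.coprime_primes hp Nat.prime_two).2 h)
    rw [Nat.cast_ofNat] at h1
    rw [h1]
    norm_num

/-- Splitting off the power of `p`. -/
theorem exists_Hs {D : ℤ} (hD : D ≠ 0) {h n : ℕ} (h1 : h ^ 2 ∣ n) (h2 : (h : ℤ) ^ 2 ∣ 4 * D) :
    ∃ h' ∈ Hs p D, h' ^ 2 ∣ n ∧ (h : ℝ) * Real.sqrt ‖(D : ℚ_[p])‖ ≤ 2 * h' := by
  have hp : p.Prime := Fact.out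
  have hh : h ≠ 0 := by
    rintro rfl
    have h3 : 4 * D = 0 := by simpa using h2
    omega
  obtain ⟨t, h', hn, e⟩ := Nat.exists_eq_pow_mul_and_not_dvd hh p hp.ne_one
  have d1 : h' ∣ h := ⟨p ^ t, by rw [e, mul_comm]⟩
  have d2 : (h' : ℤ) ^ 2 ∣ 4 * D := (pow_dvd_pow_of_dvd (Int.natCast_dvd_natCast.2 d1) 2).trans h2
  refine ⟨h', Finset.mem_filter.2 ⟨Nat.mem_divisors.2 ⟨?_, ?_⟩, hn, d2⟩,
    (pow_dvd_pow_of_dvd d1 2).trans h1, ?_⟩
  · have d3 : (h' : ℤ) ∣ 4 * D := (dvd_pow_self _ two_ne_zero).trans d2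
    rw [Int.natCast_dvd, Int.natAbs_mul] at d3
    exact d3
  · have := Int.natAbs_ne_zero.2 hD
    omega
  · have d4 : ((p : ℤ) ^ (t * 2)) ∣ 4 * D := by
      refine dvd_trans ?_ h2
      rw [pow_mul]
      refine pow_dvd_pow_of_dvd ?_ 2
      rw [e]
      push_cast
      exact dvd_mul_right _ _
    have d5 := (Padic.norm_int_le_pow_iff_dvd (p := p) (4 * D) (t * 2)).2 d4
    have e4 : ((4 * D : ℤ) : ℚ_[p]) = (2 : ℚ_[p]) ^ 2 * D := by
      push_cast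
      ring
    rw [e4, norm_mul, norm_pow, zpow_neg, zpow_natCast, pow_mul] at d5
    have hp0 : (0 : ℝ) < (p : ℝ) ^ t := pow_pos (by exact_mod_cast hp.pos) t
    have d6 : (1 / 2 : ℝ) ^ 2 ≤ ‖(2 : ℚ_[p])‖ ^ 2 :=
      pow_le_pow_left₀ (by norm_num) (CtA_norm_two p) 2
    have d7 : (1 / 2 : ℝ) ^ 2 * ‖(D : ℚ_[p])‖ ≤ (((p : ℝ) ^ t) ^ 2)⁻¹ :=
      (mul_le_mul_of_nonneg_right d6 (norm_nonneg _)).trans d5
    have d8 : Real.sqrt ‖(D : ℚ_[p])‖ ≤ 2 / (p : ℝ) ^ t := by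
      rw [Real.sqrt_le_left (by positivity), div_pow, div_eq_mul_inv]
      linarith
    rw [le_div_iff₀ hp0] at d8
    have e5 : (h : ℝ) = (p : ℝ) ^ t * h' := by
      rw [e]
      push_cast
      rfl
    rw [e5]
    have h0 : (0 : ℝ) ≤ h' := Nat.cast_nonneg _
    nlinarith

/-- Multiples of a square and of a power of `p`. -/
theorem card_mult {h : ℕ} (h0 : 0 < h) (hp : ¬ p ∣ h) {X t : ℝ} (hX : 0 ≤ X) (ht : 0 ≤ t) :
    {n : ℕ | 0 < n ∧ (n : ℝ) ≤ X ∧ h ^ 2 ∣ 4 * n ∧ ‖(n : ℚ_[p])‖ ≤ t}.Finite ∧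
      (h : ℝ) ^ 2 * {n : ℕ | 0 < n ∧ (n : ℝ) ≤ X ∧ h ^ 2 ∣ 4 * n ∧ ‖(n : ℚ_[p])‖ ≤ t}.ncard ≤
        4 * X * t := by
  classical
  have hpp : p.Prime := Fact.out
  have hp1 : (1 : ℝ) < p := by exact_mod_cast hpp.one_lt
  set S := {n : ℕ | 0 < n ∧ (n : ℝ) ≤ X ∧ h ^ 2 ∣ 4 * n ∧ ‖(n : ℚ_[p])‖ ≤ t} with hS
  have hfin : S.Finite := (Set.finite_Iic ⌊X⌋₊).subset fun n hn => Nat.le_floor hn.2.1
  refine ⟨hfin, ?_⟩
  rcases S.eq_empty_or_nonempty with he | ⟨n0, hn0⟩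
  · rw [he, Set.ncard_empty, Nat.cast_zero, mul_zero]
    positivity
  have hval : ∀ n ∈ S, ∃ v : ℕ, ((p : ℝ) ^ v)⁻¹ ≤ t ∧ p ^ v ∣ n := by
    intro n hn
    obtain ⟨v, m, hm, e⟩ := Nat.exists_eq_pow_mul_and_not_dvd hn.1.ne' p hpp.ne_one
    refine ⟨v, ?_, ⟨m, e⟩⟩
    have h1 : ‖(m : ℚ_[p])‖ = 1 :=
      Padic.norm_natCast_eq_one_iff.2 ((Nat.Prime.coprime_iff_not_dvd hpp).2 hm)
    have h2 : ‖(n : ℚ_[p])‖ = ((p : ℝ) ^ v)⁻¹ := by
      rw [e, Nat.cast_mul, Nat.cast_pow, norm_mul, h1, mul_one, Padic.norm_p_pow, zpow_neg,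
        zpow_natCast]
    rw [← h2]
    exact hn.2.2.2
  have hex : ∃ v : ℕ, ((p : ℝ) ^ v)⁻¹ ≤ t := (hval n0 hn0).imp fun _ hv => hv.1
  set u := Nat.find hex with hu
  have hut : ((p : ℝ) ^ u)⁻¹ ≤ t := Nat.find_spec hex
  have hdvd : ∀ n ∈ S, h ^ 2 * p ^ u ∣ 4 * n := by
    intro n hn
    obtain ⟨v, hv, hd⟩ := hval n hn
    have h1 : p ^ u ∣ n := (pow_dvd_pow p (Nat.find_min' hex hv)).trans hd
    have h2 : Nat.Coprime (h ^ 2) (p ^ u) :=
      Nat.Coprime.pow _ _ ((Nat.Prime.coprime_iff_not_dvd hpp).2 hp).symm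
    exact h2.mul_dvd_of_dvd_of_dvd hn.2.2.1 (h1.mul_left 4)
  have hcard : S.ncard ≤ ⌊4 * X⌋₊ / (h ^ 2 * p ^ u) := by
    rw [← Nat.Ioc_filter_dvd_card_eq_div, ← Set.ncard_coe_finset]
    refine Set.ncard_le_ncard_of_injOn (fun n => 4 * n) (fun n hn => ?_) ?_ (Finset.finite_toSet _)
    · refine Finset.mem_coe.2 (Finset.mem_filter.2 ⟨Finset.mem_Ioc.2 ⟨?_, ?_⟩, hdvd n hn⟩)
      · have := hn.1
        omega
      · refine Nat.le_floor ?_
        push_cast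
        linarith [hn.2.1]
    · intro a _ b _ e
      have e1 : 4 * a = 4 * b := e
      omega
  have h3 : S.ncard * (h ^ 2 * p ^ u) ≤ ⌊4 * X⌋₊ :=
    (Nat.mul_le_mul_right _ hcard).trans (Nat.div_mul_le_self _ _)
  have h4 : (S.ncard : ℝ) * ((h : ℝ) ^ 2 * (p : ℝ) ^ u) ≤ 4 * X := by
    refine le_trans ?_ (Nat.floor_le (by positivity : 0 ≤ 4 * X))
    exact_mod_cast h3
  have hp0 : (0 : ℝ) < (p : ℝ) ^ u := pow_pos (by linarith) u
  calc (h : ℝ) ^ 2 * S.ncard = (S.ncard : ℝ) * ((h : ℝ) ^ 2 * (p : ℝ) ^ u) * ((p : ℝ) ^ u)⁻¹ := by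
        field_simp
    _ ≤ 4 * X * t := mul_le_mul h4 hut (by positivity) (by positivity)

end Pool.Agent.EQ
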