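import Pool.Agent.P.MP_ad7a55_nt.SgA

/-! Dirichlet series with nonnegative coefficients. -/

set_option autoImplicit false

noncomputable section

open MeasureTheory Topology Filter UpperHalfPlane
open scoped MatrixGroups ENNReal BoundedContinuousFunction

namespace Pool.Agent.EQ

namespace SgCX

open ArithmeticFunction
open scoped ComplexOrder

lemma mul_pp (f g : ArithmeticFunction ℂ) {p : ℕ} (hp : p.Prime) (k : ℕ) :
    (f * g) (p ^ k) = ∑ i ∈ Finset.range (k + 1), f (p ^ i) * g (p ^ (k - i)) := by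
  rw [mul_apply, Nat.sum_divisorsAntidiagonal (fun a b => f a * g b),
    Nat.sum_divisors_prime_pow hp]
  refine Finset.sum_congr rfl fun i hi => ?_
  rw [Nat.pow_div (Nat.lt_succ_iff.1 (Finset.mem_range.1 hi)) hp.pos]

lemma mul_nn {f g : ArithmeticFunction ℂ} {p : ℕ} (hp : p.Prime) (hf : ∀ k, 0 ≤ f (p ^ k))
    (hg : ∀ k, 0 ≤ g (p ^ k)) (k : ℕ) : 0 ≤ (f * g) (p ^ k) := by
  rw [mul_pp f g hp]
  exact Finset.sum_nonneg fun i _ => mul_nonneg (hf _) (hg _)

lemma pair_nn {f g : ArithmeticFunction ℂ} {p : ℕ} (hp : p.Prime) {u : ℂ}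
    (hf : ∀ k, f (p ^ k) = u ^ k) (hg : ∀ k, g (p ^ k) = 1 ^ k) (hu : u = 0 ∨ u = 1 ∨ u = -1)
    (k : ℕ) : 0 ≤ (f * g) (p ^ k) := by
  rw [mul_pp f g hp]
  simp only [hf, hg, one_pow, mul_one]
  rcases hu with h | h | h
  · exact Finset.sum_nonneg fun i _ => by simp only [h, le_refl, pow_nonneg]
  · exact Finset.sum_nonneg fun i _ => by simp only [h, one_pow, zero_le_one]
  · simp only [h, neg_one_geom_sum]
    split_ifs
    exacts [le_rfl, zero_le_one]

lemma four_nn {z f g h : ArithmeticFunction ℂ} {p : ℕ} (hp : p.Prime) {a b : ℂ}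
    (hz : ∀ k, z (p ^ k) = 1 ^ k) (hf : ∀ k, f (p ^ k) = a ^ k) (hg : ∀ k, g (p ^ k) = b ^ k)
    (hh : ∀ k, h (p ^ k) = (a * b) ^ k) (ha : a = 0 ∨ a = 1 ∨ a = -1)
    (hb : b = 0 ∨ b = 1 ∨ b = -1) (k : ℕ) : 0 ≤ (z * (f * g * h)) (p ^ k) := by
  have h0 : ∀ k : ℕ, (0 : ℂ) ≤ 0 ^ k := fun k => pow_nonneg le_rfl k
  have e1 : z * (f * g * h) = f * z * (h * g) := by ring
  have e2 : z * (f * g * h) = g * z * (h * f) := by ring
  rcases hb with rfl | rfl | rfl
  · rw [e1]
    refine mul_nn hp (pair_nn hp hf hz ha) (mul_nn hp (fun k => ?_) fun k => ?_) k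
    · rw [hh, mul_zero]; exact h0 k
    · rw [hg]; exact h0 k
  · rw [e1]
    exact mul_nn hp (pair_nn hp hf hz ha) (pair_nn hp hh hg (by rwa [mul_one])) k
  · rcases ha with rfl | rfl | rfl
    · rw [e2]
      refine mul_nn hp (pair_nn hp hg hz (by simp)) (mul_nn hp (fun k => ?_) fun k => ?_) k
      · rw [hh, zero_mul]; exact h0 k
      · rw [hf]; exact h0 k
    · rw [e2]
      exact mul_nn hp (pair_nn hp hg hz (by simp)) (pair_nn hp hh hf (by simp)) k
    · rw [e1, mul_comm h g]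
      refine mul_nn hp (pair_nn hp hf hz (by simp)) (pair_nn hp hg (fun k => ?_) (by simp)) k
      rw [hh]; simp

lemma char_pp {q : ℕ} (χ : DirichletCharacter ℂ q) {p : ℕ} (hp : p.Prime) (k : ℕ) :
    toArithmeticFunction (χ ·) (p ^ k) = χ p ^ k := by
  rw [← χ.apply_eq_toArithmeticFunction_apply (pow_ne_zero k hp.ne_zero), Nat.cast_pow, map_pow]

lemma char_sum {q : ℕ} [NeZero q] (χ : DirichletCharacter ℂ q) {s : ℂ} (hs : 1 < s.re) :
    LSeriesHasSum (fun n => toArithmeticFunction (χ ·) n) s (χ.LFunction s) := by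
  rw [χ.LFunction_eq_LSeries hs]
  exact (LSeriesHasSum_congr s _ fun hn => (χ.apply_eq_toArithmeticFunction_apply hn).symm).2
    (χ.LSeriesSummable_of_one_lt_re hs).LSeriesHasSum

lemma posSer_of {F : ArithmeticFunction ℂ} (hF : F.IsMultiplicative)
    (h : ∀ p, p.Prime → ∀ k, 0 ≤ F (p ^ k)) {f : ℂ → ℂ}
    (hs : ∀ s : ℂ, 1 < s.re → LSeriesHasSum (fun n => F n) s (riemannZeta s * f s)) : PosSer f := by
  have h0 : ∀ n, 0 ≤ F n := by
    intro n
    rcases eq_or_ne n 0 with rfl | hn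
    · simp only [ArithmeticFunction.map_zero, le_refl]
    · rw [hF.multiplicative_factorization _ hn]
      exact Finset.prod_nonneg fun p hp => h p (Nat.prime_of_mem_primeFactors hp) _
  refine ⟨fun n => (F n).re, fun n => (Complex.le_def.1 (h0 n)).1, by simp [hF.map_one],
    fun s h1 => ?_⟩
  have : (fun n => (((F n).re : ℝ) : ℂ)) = fun n => F n :=
    funext fun n => (Complex.eq_re_of_ofReal_le (h0 n)).symm
  rw [this]
  exact hs s h1

end SgCX

theorem posSer_one {q : ℕ} [NeZero q] {χ : DirichletCharacter ℂ q} (hχ : χ ^ 2 = 1) :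
    PosSer χ.LFunction :=
  SgCX.posSer_of χ.isMultiplicative_zetaMul (fun _ _ _ => χ.zetaMul_nonneg hχ _) fun _ hs =>
    ArithmeticFunction.LSeriesHasSum_mul (ArithmeticFunction.LSeriesHasSum_zeta hs)
      (SgCX.char_sum χ hs)

theorem posSer_three {q : ℕ} [NeZero q] {χ ψ : DirichletCharacter ℂ q} (hχ : χ ^ 2 = 1)
    (hψ : ψ ^ 2 = 1) :
    PosSer fun s => χ.LFunction s * ψ.LFunction s * (χ * ψ).LFunction s := by
  refine SgCX.posSer_of (F := (ArithmeticFunction.zeta : ArithmeticFunction ℂ) *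
    (toArithmeticFunction (χ ·) * toArithmeticFunction (ψ ·) * toArithmeticFunction ((χ * ψ) ·)))
    (ArithmeticFunction.isMultiplicative_zeta.natCast.mul
      ((χ.isMultiplicative_toArithmeticFunction.mul ψ.isMultiplicative_toArithmeticFunction).mul
        (χ * ψ).isMultiplicative_toArithmeticFunction)) (fun p hp => ?_) fun s hs => ?_
  · refine SgCX.four_nn hp (fun k => ?_) (SgCX.char_pp χ hp) (SgCX.char_pp ψ hp) (fun k => ?_)
      (MulChar.isQuadratic_iff_sq_eq_one.mpr hχ p) (MulChar.isQuadratic_iff_sq_eq_one.mpr hψ p)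
    · simp [hp.ne_zero]
    · rw [SgCX.char_pp (χ * ψ) hp, MulChar.mul_apply]
  · exact ArithmeticFunction.LSeriesHasSum_mul (ArithmeticFunction.LSeriesHasSum_zeta hs)
      (ArithmeticFunction.LSeriesHasSum_mul
        (ArithmeticFunction.LSeriesHasSum_mul (SgCX.char_sum χ hs) (SgCX.char_sum ψ hs))
        (SgCX.char_sum (χ * ψ) hs))

end Pool.Agent.EQ
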