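import Pool.Agent.P.MP_ad7a55_nt.SgB
import Pool.Agent.P.MP_ad7a55_nt.SgC
import Pool.Agent.P.MP_ad7a55_nt.CtA

/-! The theorem of Siegel. -/

set_option autoImplicit false

noncomputable section

open MeasureTheory Topology Filter UpperHalfPlane
open scoped MatrixGroups ENNReal BoundedContinuousFunction

namespace Pool.Agent.EQ

theorem sd_est {k M y a b : ℝ} (hk : 0 < k) (hM : 1 ≤ M) (hab : a ≤ b) (h : k * M ^ (-a) ≤ y) :
    k ≤ M ^ b * y := by
  have hM0 : 0 < M := by linarith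
  have h1 : 0 < M ^ a := Real.rpow_pos_of_pos hM0 _
  have hy : 0 ≤ y := le_trans (by positivity) h
  rw [Real.rpow_neg hM0.le, ← div_eq_mul_inv, div_le_iff₀ h1] at h
  have h2 := mul_le_mul_of_nonneg_right (Real.rpow_le_rpow_of_exponent_le hM hab) hy
  linarith

theorem sd_five {x e : ℝ} (hx : 0 ≤ x) (he : e ≤ 1) : (5 * x) ^ e ≤ 5 * x ^ e := by
  rw [Real.mul_rpow (by norm_num) hx]
  refine mul_le_mul_of_nonneg_right ?_ (Real.rpow_nonneg hx _)
  simpa using Real.rpow_le_rpow_of_exponent_le (show (1 : ℝ) ≤ 5 by norm_num) he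

theorem sd_up {q N : ℕ} [NeZero q] [NeZero N] (h : q ∣ N) {χ : DirichletCharacter ℂ q}
    (hχ : χ ≠ 1) : ‖(DirichletCharacter.changeLevel h χ).LFunction 1‖ ≤
      N.divisors.card * ‖χ.LFunction 1‖ := by
  rw [DirichletCharacter.LFunction_changeLevel h χ (Or.inl hχ), norm_mul, mul_comm]
  exact mul_le_mul_of_nonneg_right
    (euler_upper (NeZero.pos N) (fun l => χ l) fun l => χ.norm_le_one _) (norm_nonneg _)

theorem sd_low {q N : ℕ} [NeZero q] [NeZero N] (h : q ∣ N) {χ : DirichletCharacter ℂ q}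
    (hχ : χ ≠ 1) : ‖χ.LFunction 1‖ ≤
      N.divisors.card * ‖(DirichletCharacter.changeLevel h χ).LFunction 1‖ := by
  rw [DirichletCharacter.LFunction_changeLevel h χ (Or.inl hχ), norm_mul, mul_left_comm]
  exact le_mul_of_one_le_right (norm_nonneg _)
    (euler_lower (NeZero.pos N) (fun l => χ l) fun l => χ.norm_le_one _)

/-- The bound with the power of the level on the right. -/
theorem sd_main {e : ℝ} (he : 0 < e) (he1 : e ≤ 1) : ∃ c : ℝ, 0 < c ∧ ∀ (q : ℕ) [NeZero q]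
    (χ : DirichletCharacter ℂ q), χ ≠ 1 → χ ^ 2 = 1 →
      c ≤ ((q : ℝ) ^ e) ^ 4 * ‖χ.LFunction 1‖ := by
  obtain ⟨c, A, δ, hc, hA, hδ, hE⟩ := estermann
  obtain ⟨δ', hδ', hZ⟩ := zeta_neg
  obtain ⟨C, hC, hd⟩ := div_bound he
  obtain ⟨η, hη, h1, h2, h3⟩ : ∃ η : ℝ, 0 < η ∧ η ≤ δ ∧ η ≤ δ' ∧ A * η ≤ e / 3 := by
    refine ⟨min (min δ δ') (e / 3 / A), lt_min (lt_min hδ hδ') (by positivity),
      (min_le_left _ _).trans (min_le_left _ _), (min_le_left _ _).trans (min_le_right _ _), ?_⟩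
    rw [mul_comm, ← le_div_iff₀ hA]
    exact min_le_right _ _
  have hone : ∀ (q : ℕ) [NeZero q], (1 : ℝ) ≤ q := fun q _ => by exact_mod_cast NeZero.pos q
  have hP : ∀ (q : ℕ) [NeZero q], (1 : ℝ) ≤ (q : ℝ) ^ e := fun q _ =>
    Real.one_le_rpow (hone q) he.le
  by_cases hz : ∃ (q : ℕ) (_ : NeZero q) (ψ : DirichletCharacter ℂ q) (β : ℝ), ψ ≠ 1 ∧
      ψ ^ 2 = 1 ∧ 1 - η ≤ β ∧ β < 1 ∧ ψ.LFunction β = 0
  · obtain ⟨r, _, ψ, β, hψ, hψ2, hβ1, hβ2, hβ⟩ := hz
    have hL : 0 < ‖ψ.LFunction 1‖ :=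
      norm_pos_iff.2 (DirichletCharacter.LFunction_apply_one_ne_zero hψ)
    have hb : 0 < 1 - β := by linarith
    have hr := hP r
    refine ⟨min (‖ψ.LFunction 1‖ / C ^ 2) (c * (1 - β) * e ^ 2 / (5 * C)) / ((r : ℝ) ^ e) ^ 4,
      div_pos (lt_min (by positivity) (by positivity)) (by positivity), fun q _ χ hχ hχ2 => ?_⟩
    have hN : (((q * r : ℕ) : ℝ) ^ e) ^ 4 = ((q : ℝ) ^ e) ^ 4 * ((r : ℝ) ^ e) ^ 4 := by
      rw [Nat.cast_mul, Real.mul_rpow (Nat.cast_nonneg _) (Nat.cast_nonneg _), mul_pow]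
    rw [div_le_iff₀ (by positivity), mul_right_comm (((q : ℝ) ^ e) ^ 4), ← hN]
    have hq : q ∣ q * r := dvd_mul_right _ _
    have hr' : r ∣ q * r := dvd_mul_left _ _
    have hne : NeZero (q * r) := inferInstance
    clear hN
    generalize q * r = N at *
    have hu := sd_up hq hχ
    have hl := sd_low hr' hψ
    have hχ' : DirichletCharacter.changeLevel hq χ ≠ 1 :=
      hχ ∘ (DirichletCharacter.changeLevel_eq_one_iff hq).1
    have hψ' : DirichletCharacter.changeLevel hr' ψ ≠ 1 :=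
      hψ ∘ (DirichletCharacter.changeLevel_eq_one_iff hr').1
    have hχ2' : DirichletCharacter.changeLevel hq χ ^ 2 = 1 := by rw [← map_pow, hχ2, map_one]
    have hψ2' : DirichletCharacter.changeLevel hr' ψ ^ 2 = 1 := by rw [← map_pow, hψ2, map_one]
    have hβ' : (DirichletCharacter.changeLevel hr' ψ).LFunction β = 0 := by
      rw [DirichletCharacter.LFunction_changeLevel hr' ψ (Or.inl hψ), hβ, zero_mul]
    generalize DirichletCharacter.changeLevel hq χ = χ' at *
    generalize DirichletCharacter.changeLevel hr' ψ = ψ' at *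
    have hdN := hd N (NeZero.pos N)
    have hPN := hP N
    have hN1 := hone N
    have hu' : ‖χ'.LFunction 1‖ ≤ C * (N : ℝ) ^ e * ‖χ.LFunction 1‖ :=
      hu.trans (mul_le_mul_of_nonneg_right hdN (norm_nonneg _))
    by_cases hm : χ' * ψ' = 1
    · refine (min_le_left _ _).trans ?_
      have heq : χ' = ψ' := by
        rw [← mul_one χ', ← hψ2', sq, ← mul_assoc, hm, one_mul]
      rw [← heq] at hl
      rw [div_le_iff₀ (by positivity)]
      calc ‖ψ.LFunction 1‖ ≤ C * (N : ℝ) ^ e * ‖χ'.LFunction 1‖ :=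
            hl.trans (mul_le_mul_of_nonneg_right hdN (norm_nonneg _))
        _ ≤ C * (N : ℝ) ^ e * (C * (N : ℝ) ^ e * ‖χ.LFunction 1‖) := by gcongr
        _ = ((N : ℝ) ^ e) ^ 2 * ‖χ.LFunction 1‖ * C ^ 2 := by ring
        _ ≤ ((N : ℝ) ^ e) ^ 4 * ‖χ.LFunction 1‖ * C ^ 2 := by
            gcongr
            norm_num
    · refine (min_le_right _ _).trans ?_
      have hM : (1 : ℝ) ≤ (5 * N) ^ 3 := one_le_pow₀ (by linarith)
      have h4 := hE (fun s => χ'.LFunction s * ψ'.LFunction s * (χ' * ψ').LFunction s)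
        ((5 * N) ^ 3) hM
        (((DirichletCharacter.differentiable_LFunction hχ').mul
          (DirichletCharacter.differentiable_LFunction hψ')).mul
          (DirichletCharacter.differentiable_LFunction hm))
        (fun s hs => by
          have b1 := L_ball hχ' hs
          have b2 := L_ball hψ' hs
          have b3 := L_ball hm hs
          rw [norm_mul, norm_mul]
          calc ‖χ'.LFunction s‖ * ‖ψ'.LFunction s‖ * ‖(χ' * ψ').LFunction s‖
              ≤ 5 * N * (5 * N) * (5 * N) := by gcongr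
            _ = _ := by ring)
        (posSer_three hχ2' hψ2') β (by linarith) hβ2 (by simp [hβ'])
      have h5 := sd_est (b := e / 3) (by positivity) hM (by nlinarith)
        (h4.trans (Complex.re_le_norm _))
      have h6 : (((5 : ℝ) * N) ^ 3) ^ (e / 3) ≤ 5 * (N : ℝ) ^ e := by
        rw [← Real.rpow_natCast, ← Real.rpow_mul (by positivity)]
        rw [show ((3 : ℕ) : ℝ) * (e / 3) = e by push_cast; ring]
        exact sd_five (by positivity) he1
      have b2 := L_one hψ' he he1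
      have b3 := L_one hm he he1
      rw [norm_mul, norm_mul] at h5
      rw [div_le_iff₀ (by positivity), ← le_div_iff₀ (by positivity)]
      calc c * (1 - β) ≤ 5 * (N : ℝ) ^ e * (C * (N : ℝ) ^ e * ‖χ.LFunction 1‖ *
            ((N : ℝ) ^ e / e) * ((N : ℝ) ^ e / e)) := h5.trans (by gcongr)
        _ = _ := by field_simp
  · refine ⟨c * η / 5, by positivity, fun q _ χ hχ hχ2 => ?_⟩
    have hf := DirichletCharacter.differentiable_LFunction hχ
    have hp := posSer_one hχ2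
    have h4 : 0 < (χ.LFunction (1 - η : ℝ)).re := hp.re_pos hf (fun x hx hx1 => by
      rcases hx1.eq_or_lt with rfl | hx1
      · exact DirichletCharacter.LFunction_apply_one_ne_zero hχ
      · exact fun h0 => hz ⟨q, inferInstance, χ, x, hχ, hχ2, hx, hx1, h0⟩) (by linarith)
    obtain ⟨h5, h6⟩ := hZ (1 - η) (by linarith) (by linarith)
    have hq := hone q
    have hM : (1 : ℝ) ≤ 5 * q := by linarith
    have h7 := hE χ.LFunction (5 * q) hM hf (fun s hs => L_ball hχ hs) hp (1 - η) (by linarith)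
      (by linarith) (by rw [Complex.mul_re, h6, zero_mul, sub_zero]; nlinarith)
    rw [sub_sub_cancel] at h7
    have h8 := sd_est (b := e) (by positivity) hM (by linarith) (h7.trans (Complex.re_le_norm _))
    have h9 := sd_five (x := q) (by positivity) he1
    have h10 : (q : ℝ) ^ e ≤ ((q : ℝ) ^ e) ^ 4 := le_self_pow₀ (hP q) (by norm_num)
    rw [div_le_iff₀ (by norm_num)]
    calc c * η ≤ 5 * ((q : ℝ) ^ e) ^ 4 * ‖χ.LFunction 1‖ :=
          h8.trans (mul_le_mul_of_nonneg_right (by linarith) (norm_nonneg _))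
      _ = _ := by ring

theorem siegel {ε : ℝ} (hε : 0 < ε) : ∃ c : ℝ, 0 < c ∧ ∀ (q : ℕ) [NeZero q]
    (χ : DirichletCharacter ℂ q), χ ≠ 1 → χ ^ 2 = 1 → c * (q : ℝ) ^ (-ε) ≤ ‖χ.LFunction 1‖ := by
  obtain ⟨c, hc, h⟩ := sd_main (e := min (ε / 4) 1) (lt_min (by positivity) one_pos)
    (min_le_right _ _)
  refine ⟨c, hc, fun q _ χ hχ hχ2 => ?_⟩
  have hq : (1 : ℝ) ≤ q := by exact_mod_cast NeZero.pos q
  have hq0 : (0 : ℝ) < q := by linarith
  have h1 : ((q : ℝ) ^ min (ε / 4) 1) ^ 4 ≤ (q : ℝ) ^ ε := by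
    rw [← Real.rpow_natCast, ← Real.rpow_mul hq0.le]
    refine Real.rpow_le_rpow_of_exponent_le hq ?_
    push_cast
    linarith [min_le_left (ε / 4) 1]
  rw [Real.rpow_neg hq0.le, ← div_eq_mul_inv, div_le_iff₀ (Real.rpow_pos_of_pos hq0 _), mul_comm]
  exact (h q χ hχ hχ2).trans (mul_le_mul_of_nonneg_right h1 (norm_nonneg _))

end Pool.Agent.EQ
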