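import Pool.Agent.P.MP_ad7a55_nt.Defs

/-! The lemma of Estermann. -/

set_option autoImplicit false

noncomputable section

open MeasureTheory Topology Filter UpperHalfPlane
open scoped MatrixGroups ENNReal BoundedContinuousFunction

namespace Pool.Agent.EQ

/-- `ζ f` is a Dirichlet series with nonnegative coefficients, the first being at least one. -/
def PosSer (f : ℂ → ℂ) : Prop :=
  ∃ a : ℕ → ℝ, (∀ n, 0 ≤ a n) ∧ 1 ≤ a 1 ∧
    ∀ s : ℂ, 1 < s.re → LSeriesHasSum (fun n => (a n : ℂ)) s (riemannZeta s * f s)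

open scoped ComplexOrder in
theorem PosSer.one_le {f : ℂ → ℂ} (h : PosSer f) : 1 ≤ riemannZeta (2 : ℝ) * f (2 : ℝ) := by
  obtain ⟨a, ha, h1, hs⟩ := h
  have h2 := le_hasSum (hs (2 : ℝ) (by simp)) 1 fun j _ =>
    LSeries.term_nonneg (a := fun n => (a n : ℂ)) (Complex.zero_le_real.2 (ha j)) 2
  rw [LSeries.term_of_ne_zero one_ne_zero] at h2
  simp only [Nat.cast_one, Complex.one_cpow, div_one] at h2
  exact le_trans (by exact_mod_cast h1) h2

open scoped ComplexOrder in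
theorem PosSer.pos {f : ℂ → ℂ} (h : PosSer f) {x : ℝ} (hx : 1 < x) : 0 < f x := by
  obtain ⟨a, ha, h1, hs⟩ := h
  have h2 := le_hasSum (hs x (by simpa using hx)) 1 fun j _ =>
    LSeries.term_nonneg (a := fun n => (a n : ℂ)) (Complex.zero_le_real.2 (ha j)) x
  rw [LSeries.term_of_ne_zero one_ne_zero] at h2
  simp only [Nat.cast_one, Complex.one_cpow, div_one] at h2
  have h3 : (0 : ℂ) < riemannZeta x * f x :=
    lt_of_lt_of_le (Complex.zero_lt_real.2 (by linarith)) h2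
  have h4 := riemannZeta_re_pos_of_one_lt hx
  have h5 := riemannZeta_im_eq_zero_of_one_lt hx
  rw [Complex.pos_iff] at h3 ⊢
  simp only [Complex.mul_re, Complex.mul_im, h5, zero_mul, sub_zero, add_zero] at h3
  exact ⟨(mul_pos_iff_of_pos_left h4).1 h3.1,
    ((mul_eq_zero.1 h3.2.symm).resolve_left h4.ne').symm⟩

open scoped ComplexOrder ComplexConjugate in
theorem PosSer.im_eq_zero {f : ℂ → ℂ} (h : PosSer f) (hf : Differentiable ℂ f) (x : ℝ) :
    (f x).im = 0 := by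
  have hg : Differentiable ℂ fun z => conj (f (conj z)) := fun z =>
    differentiableAt_conj_conj_iff.2 (hf _)
  have ht : Tendsto (fun y : ℝ => (y : ℂ)) (𝓝[≠] 2) (𝓝[≠] 2) := by
    refine tendsto_nhdsWithin_iff.2 ⟨?_, ?_⟩
    · have := (Complex.continuous_ofReal.tendsto 2).mono_left (nhdsWithin_le_nhds (s := {2}ᶜ))
      simpa using this
    · filter_upwards [self_mem_nhdsWithin] with y hy
      simp only [Set.mem_compl_iff, Set.mem_singleton_iff] at hy ⊢
      exact_mod_cast hy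
  have hfr : ∃ᶠ z in 𝓝[≠] (2 : ℂ), conj (f (conj z)) = f z := by
    refine ht.frequently (Eventually.frequently ?_)
    filter_upwards [mem_nhdsWithin_of_mem_nhds (Ioi_mem_nhds (show (1 : ℝ) < 2 by norm_num))]
      with y hy
    rw [Complex.conj_ofReal, Complex.conj_eq_iff_im]
    exact (Complex.pos_iff.1 (h.pos hy)).2.symm
  have he := AnalyticOnNhd.eq_of_frequently_eq (fun z _ => hg.analyticAt z)
    (fun z _ => hf.analyticAt z) hfr
  have := congrFun he x
  simp only [Complex.conj_ofReal] at this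
  exact Complex.conj_eq_iff_im.1 this

open scoped ComplexOrder in
/-- Without real zeros the function is positive. -/
theorem PosSer.re_pos {f : ℂ → ℂ} (h : PosSer f) (hf : Differentiable ℂ f) {σ : ℝ}
    (h0 : ∀ x : ℝ, σ ≤ x → x ≤ 1 → f x ≠ 0) (hσ : σ ≤ 1) : 0 < (f σ).re := by
  by_contra hc
  rw [not_lt] at hc
  have hcont : Continuous fun x : ℝ => (f x).re :=
    Complex.continuous_re.comp (hf.continuous.comp Complex.continuous_ofReal)
  have h2 : 0 < (f (2 : ℝ)).re := (Complex.pos_iff.1 (h.pos (by norm_num))).1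
  obtain ⟨x, hx, hx0⟩ := intermediate_value_Icc (show σ ≤ 2 by linarith) hcont.continuousOn
    (show (0 : ℝ) ∈ Set.Icc _ _ from ⟨hc, h2.le⟩)
  have hz : f x = 0 := Complex.ext hx0 (h.im_eq_zero hf x)
  rcases le_or_gt x 1 with h1 | h1
  · exact h0 x hx.1 h1 hz
  · exact (h.pos h1).ne' hz

theorem sg_bound : ∃ C : ℝ, 1 ≤ C ∧ ∀ s ∈ Metric.closedBall (2 : ℂ) (4 / 3),
    ‖riemannZeta₀ s‖ ≤ C := by
  obtain ⟨C, hC⟩ := (isCompact_closedBall (2 : ℂ) (4 / 3)).exists_bound_of_continuousOn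
    differentiable_riemannZeta₀.continuous.continuousOn
  exact ⟨max 1 C, le_max_left _ _, fun s hs => (hC s hs).trans (le_max_right _ _)⟩

theorem sg_re_inv (σ : ℝ) : ((σ : ℂ) - 1)⁻¹ = (((σ - 1)⁻¹ : ℝ) : ℂ) := by
  push_cast
  rfl

open scoped ComplexConjugate in
theorem zeta_neg : ∃ δ : ℝ, 0 < δ ∧ ∀ σ : ℝ, 1 - δ ≤ σ → σ < 1 →
    (riemannZeta σ).re < 0 ∧ (riemannZeta σ).im = 0 := by
  obtain ⟨C, hC1, hC⟩ := sg_bound
  refine ⟨1 / (3 * C), by positivity, fun σ h1 h2 => ⟨?_, ?_⟩⟩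
  · have h3 : 1 / (3 * C) ≤ 1 / 3 := one_div_le_one_div_of_le (by norm_num) (by linarith)
    have hσ : (σ : ℂ) ∈ Metric.closedBall (2 : ℂ) (4 / 3) := by
      rw [mem_closedBall_iff_norm]
      have : (σ : ℂ) - 2 = ((σ - 2 : ℝ) : ℂ) := by push_cast; rfl
      rw [this, Complex.norm_real, Real.norm_eq_abs, abs_le]
      constructor <;> linarith
    have h4 : (riemannZeta₀ σ).re ≤ C := (Complex.re_le_norm _).trans (hC _ hσ)
    rw [riemannZeta_eq_inv_sub_add (by exact_mod_cast h2.ne), Complex.add_re, sg_re_inv,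
      Complex.ofReal_re]
    have h5 : 3 * C ≤ (1 - σ)⁻¹ := by
      rw [le_inv_comm₀ (by positivity) (by linarith), ← one_div]
      linarith
    have h6 : (σ - 1)⁻¹ = -(1 - σ)⁻¹ := by rw [← neg_sub, inv_neg]
    linarith
  · have := riemannZeta_conj σ
    rw [Complex.conj_ofReal] at this
    exact Complex.conj_eq_iff_im.1 this.symm

/-- The truncation of the Taylor series. -/
theorem sg_real {u : ℕ → ℝ} {lam B t S : ℝ} (ht1 : 1 < t) (ht2 : t ≤ 16 / 15)
    (hS : HasSum (fun n => u n * t ^ n) S) (hB : ∀ n, |u n| ≤ B * (3 / 4) ^ n)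
    (hu : ∀ n, -lam ≤ u n) (h0 : 1 - lam ≤ u 0) (hle : S ≤ lam / (t - 1)) (K : ℕ) :
    1 - 5 * B * (4 / 5) ^ (K + 1) ≤ lam * t ^ (K + 1) / (t - 1) := by
  have hB0 : 0 ≤ B := by simpa using (abs_nonneg _).trans (hB 0)
  have ht0 : 0 < t := by linarith
  have h1 := (hasSum_nat_add_iff' (K + 1)).2 hS
  have h2 := (hasSum_geometric_of_lt_one (r := 4 / 5) (by norm_num) (by norm_num)).mul_left
    (-(B * (4 / 5) ^ (K + 1)))
  have h3 := hasSum_le (fun n => ?_) h2 h1
  swap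
  · have h4 : (3 / 4 : ℝ) ^ (n + (K + 1)) * t ^ (n + (K + 1)) ≤ (4 / 5) ^ (n + (K + 1)) := by
      rw [← mul_pow]
      exact pow_le_pow_left₀ (by positivity) (by linarith) _
    have h5 := mul_le_mul_of_nonneg_right (abs_le.1 (hB (n + (K + 1)))).1
      (pow_pos ht0 (n + (K + 1))).le
    have h6 := mul_le_mul_of_nonneg_left h4 hB0
    calc -(B * (4 / 5) ^ (K + 1)) * (4 / 5) ^ n = -(B * (4 / 5) ^ (n + (K + 1))) := by ring
      _ ≤ -(B * ((3 / 4 : ℝ) ^ (n + (K + 1)) * t ^ (n + (K + 1)))) := by linarith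
      _ = -(B * (3 / 4) ^ (n + (K + 1))) * t ^ (n + (K + 1)) := by ring
      _ ≤ _ := h5
  have h4 : 1 - lam * ∑ i ∈ Finset.range (K + 1), t ^ i ≤
      ∑ i ∈ Finset.range (K + 1), u i * t ^ i := by
    rw [Finset.mul_sum, Finset.sum_range_succ', Finset.sum_range_succ']
    have : ∑ i ∈ Finset.range K, -(lam * t ^ (i + 1)) ≤
        ∑ i ∈ Finset.range K, u (i + 1) * t ^ (i + 1) :=
      Finset.sum_le_sum fun i _ => by
        have := mul_le_mul_of_nonneg_right (hu (i + 1)) (pow_pos ht0 (i + 1)).le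
        linarith
    rw [Finset.sum_neg_distrib] at this
    simp only [pow_zero, mul_one]
    linarith
  rw [geom_sum_eq ht1.ne'] at h4
  have h5 : lam * t ^ (K + 1) / (t - 1) =
      lam * ((t ^ (K + 1) - 1) / (t - 1)) + lam / (t - 1) := by ring
  norm_num at h3
  linarith

/-- The choice of the truncation point. -/
theorem sg_trunc {C : ℝ} (hC : 1 ≤ C) : ∃ E : ℝ, 0 < E ∧ ∀ M y : ℝ, 1 ≤ M → 0 < y → y ≤ 1 →
    ∃ K : ℕ, 5 * (C * M) * (4 / 5) ^ (K + 1) ≤ 1 / 2 ∧ (1 + y) ^ (K + 1) ≤ E * M ^ (5 * y) := by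
  refine ⟨Real.exp (5 * Real.log (10 * C) + 1), Real.exp_pos _, fun M y hM hy0 hy1 => ?_⟩
  have hM0 : 0 < M := by linarith
  have hl1 : 0 ≤ Real.log (10 * C) := Real.log_nonneg (by linarith)
  have hl2 : 0 ≤ Real.log M := Real.log_nonneg hM
  have hL : Real.log (10 * C * M) = Real.log (10 * C) + Real.log M :=
    Real.log_mul (by positivity) hM0.ne'
  have hL0 : 0 ≤ 5 * Real.log (10 * C * M) := by rw [hL]; positivity
  refine ⟨⌊5 * Real.log (10 * C * M)⌋₊, ?_, ?_⟩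
  · have h1 := Nat.lt_floor_add_one (5 * Real.log (10 * C * M))
    have h2 : (4 / 5 : ℝ) ≤ Real.exp (-(1 / 5)) := by
      have := Real.add_one_le_exp (-(1 / 5))
      linarith
    have h3 : (4 / 5 : ℝ) ^ (⌊5 * Real.log (10 * C * M)⌋₊ + 1) ≤ (10 * C * M)⁻¹ := by
      calc (4 / 5 : ℝ) ^ (⌊5 * Real.log (10 * C * M)⌋₊ + 1)
          ≤ Real.exp (-(1 / 5)) ^ (⌊5 * Real.log (10 * C * M)⌋₊ + 1) :=
            pow_le_pow_left₀ (by norm_num) h2 _
        _ ≤ Real.exp (-Real.log (10 * C * M)) := by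
            rw [← Real.exp_nat_mul]
            refine Real.exp_le_exp.2 ?_
            push_cast
            linarith
        _ = _ := by rw [Real.exp_neg, Real.exp_log (by positivity)]
    calc 5 * (C * M) * (4 / 5) ^ (⌊5 * Real.log (10 * C * M)⌋₊ + 1)
        ≤ 5 * (C * M) * (10 * C * M)⁻¹ := by gcongr
      _ = 1 / 2 := by field_simp; norm_num
  · have h1 := Nat.floor_le hL0
    have h2 : 1 + y ≤ Real.exp y := by linarith [Real.add_one_le_exp y]
    calc (1 + y) ^ (⌊5 * Real.log (10 * C * M)⌋₊ + 1)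
        ≤ Real.exp y ^ (⌊5 * Real.log (10 * C * M)⌋₊ + 1) :=
          pow_le_pow_left₀ (by linarith) h2 _
      _ ≤ Real.exp (5 * Real.log (10 * C) + 1 + Real.log M * (5 * y)) := by
          rw [← Real.exp_nat_mul]
          refine Real.exp_le_exp.2 ?_
          push_cast
          have h3 : ((⌊5 * Real.log (10 * C * M)⌋₊ : ℝ) + 1) * y ≤
              (5 * (Real.log (10 * C) + Real.log M) + 1) * y := by
            rw [← hL]
            gcongr
          nlinarith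
      _ = _ := by rw [Real.exp_add, Real.rpow_def_of_pos hM0]

/-- The product of the zeta function with `f`, with the pole removed. -/
def sgG (f : ℂ → ℂ) (s : ℂ) : ℂ := riemannZeta₀ s * f s + dslope f 1 s

theorem sgG_diff {f : ℂ → ℂ} (hf : Differentiable ℂ f) : Differentiable ℂ (sgG f) := by
  have h : Differentiable ℂ (dslope f 1) := by
    rw [← differentiableOn_univ, Complex.differentiableOn_dslope univ_mem]
    exact hf.differentiableOn
  exact (differentiable_riemannZeta₀.mul hf).add h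

theorem sgG_eq (f : ℂ → ℂ) {s : ℂ} (hs : s ≠ 1) :
    riemannZeta s * f s = sgG f s + f 1 * (s - 1)⁻¹ := by
  rw [sgG, dslope_of_ne _ hs, slope_def_field, riemannZeta_eq_inv_sub_add hs, div_eq_mul_inv]
  ring

theorem sgG_le {f : ℂ → ℂ} {M C : ℝ}
    (hC : ∀ s ∈ Metric.closedBall (2 : ℂ) (4 / 3), ‖riemannZeta₀ s‖ ≤ C)
    (hM : ∀ s ∈ Metric.closedBall (2 : ℂ) (4 / 3), ‖f s‖ ≤ M) {s : ℂ}
    (hs : s ∈ Metric.sphere (2 : ℂ) (4 / 3)) : ‖sgG f s‖ ≤ (C + 6) * M := by
  have hs' := Metric.sphere_subset_closedBall hs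
  rw [mem_sphere_iff_norm] at hs
  have h1 : 1 / 3 ≤ ‖s - 1‖ := by
    have := norm_sub_le (s - 1) 1
    rw [norm_one, show s - 1 - 1 = s - 2 by ring, hs] at this
    linarith
  have hne : s ≠ 1 := by
    rintro rfl
    norm_num at h1
  have h2 : ‖f 1‖ ≤ M := hM 1 (by
    rw [mem_closedBall_iff_norm]
    norm_num)
  have h3 := hM s hs'
  have hM0 : 0 ≤ M := (norm_nonneg _).trans h2
  have h4 : ‖dslope f 1 s‖ ≤ 6 * M := by
    rw [dslope_of_ne _ hne, slope_def_field, norm_div, div_le_iff₀ (by linarith)]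
    have := norm_sub_le (f s) (f 1)
    nlinarith
  have h5 : ‖riemannZeta₀ s * f s‖ ≤ C * M := by
    rw [norm_mul]
    exact mul_le_mul (hC s hs') h3 (norm_nonneg _) ((norm_nonneg _).trans (hC s hs'))
  have := norm_add_le (riemannZeta₀ s * f s) (dslope f 1 s)
  rw [sgG]
  linarith

open scoped ComplexOrder in
theorem sgG_coeff {f : ℂ → ℂ} (h : PosSer f) (hf : Differentiable ℂ f) (n : ℕ) :
    -(f 1).re ≤ ((n.factorial : ℂ)⁻¹ * ((-1) ^ n * iteratedDeriv n (sgG f) 2)).re := by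
  obtain ⟨a, ha, -, hs⟩ := h
  have hab : LSeries.abscissaOfAbsConv (fun n => (a n : ℂ)) ≤ (1 : ℝ) :=
    LSeries.abscissaOfAbsConv_le_of_forall_lt_LSeriesSummable fun y hy =>
      (hs y (by simpa using hy)).LSeriesSummable
  have h1 := LSeries.iteratedDeriv_alternating (a := fun n => (a n : ℂ))
    (fun j => Complex.zero_le_real.2 (ha j)) (x := 2)
    (hab.trans_lt (by exact_mod_cast one_lt_two)) n
  have hev : LSeries (fun n => (a n : ℂ)) =ᶠ[𝓝 2] sgG f + fun s => f 1 * (s - 1)⁻¹ := by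
    filter_upwards [(isOpen_lt continuous_const Complex.continuous_re).mem_nhds
      (show (2 : ℂ) ∈ {s : ℂ | 1 < s.re} by norm_num)] with s hs'
    rw [(hs s hs').LSeries_eq, sgG_eq f (by rintro rfl; simp at hs')]
    rfl
  have hinv : iteratedDeriv n (fun s : ℂ => (s - 1)⁻¹) 2 = (-1) ^ n * n.factorial := by
    have := congrFun (iter_deriv_inv_linear_sub n (1 : ℂ) 1) 2
    simp only [one_mul] at this
    rw [iteratedDeriv_eq_iterate, this]
    norm_num
  have hc : ContDiffAt ℂ n (fun s : ℂ => f 1 * (s - 1)⁻¹) 2 :=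
    contDiffAt_const.mul ((contDiffAt_id.sub contDiffAt_const).inv (by norm_num))
  rw [Complex.ofReal_ofNat, hev.iteratedDeriv_eq,
    iteratedDeriv_add (sgG_diff hf).contDiff.contDiffAt hc, iteratedDeriv_const_mul_field,
    hinv] at h1
  have hn : (n.factorial : ℂ) ≠ 0 := by exact_mod_cast n.factorial_ne_zero
  have h2 : (0 : ℂ) ≤ (((n.factorial : ℝ)⁻¹ : ℝ) : ℂ) := Complex.zero_le_real.2 (by positivity)
  have h3 := mul_nonneg h2 h1
  have h4 : (((n.factorial : ℝ)⁻¹ : ℝ) : ℂ) * ((-1) ^ n *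
      (iteratedDeriv n (sgG f) 2 + f 1 * ((-1) ^ n * n.factorial))) =
      (n.factorial : ℂ)⁻¹ * ((-1) ^ n * iteratedDeriv n (sgG f) 2) + f 1 := by
    have h5 : ((-1 : ℂ) ^ n) ^ 2 = 1 := by rw [← pow_mul, mul_comm, pow_mul]; norm_num
    push_cast
    field_simp
    linear_combination (f 1 * n.factorial) * h5
  rw [h4] at h3
  have h6 := (Complex.le_def.1 h3).1
  rw [Complex.add_re, Complex.zero_re] at h6
  linarith

open scoped ComplexOrder in
theorem estermann : ∃ c A δ : ℝ, 0 < c ∧ 0 < A ∧ 0 < δ ∧ ∀ (f : ℂ → ℂ) (M : ℝ), 1 ≤ M →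
    Differentiable ℂ f → (∀ s ∈ Metric.closedBall (2 : ℂ) (4 / 3), ‖f s‖ ≤ M) → PosSer f →
    ∀ σ : ℝ, 1 - δ ≤ σ → σ < 1 → (riemannZeta σ * f σ).re ≤ 0 →
      c * (1 - σ) * M ^ (-(A * (1 - σ))) ≤ (f 1).re := by
  obtain ⟨C, hC1, hC⟩ := sg_bound
  obtain ⟨E, hE0, hE⟩ := sg_trunc (C := C + 6) (by linarith)
  refine ⟨1 / (2 * E), 5, 1 / 15, by positivity, by norm_num, by norm_num, ?_⟩
  intro f M hM hf hb hP σ h1 h2 h3
  have hM0 : 0 < M := by linarith
  obtain ⟨K, hK1, hK2⟩ := hE M (1 - σ) hM (by linarith) (by linarith)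
  have hS : HasSum (fun n : ℕ =>
      ((n.factorial : ℂ)⁻¹ * ((-1) ^ n * iteratedDeriv n (sgG f) 2)).re * (2 - σ) ^ n)
      (sgG f σ).re := by
    have := Complex.hasSum_re (Complex.hasSum_taylorSeries_of_entire (sgG_diff hf) 2 σ)
    convert this using 2 with n
    rw [← Complex.re_mul_ofReal]
    congr 1
    push_cast
    rw [smul_eq_mul, smul_eq_mul, ← neg_sub (2 : ℂ) σ, neg_pow (2 - (σ : ℂ))]
    ring
  have hB : ∀ n : ℕ, |((n.factorial : ℂ)⁻¹ * ((-1) ^ n * iteratedDeriv n (sgG f) 2)).re| ≤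
      (C + 6) * M * (3 / 4) ^ n := fun n => by
    refine (Complex.abs_re_le_norm _).trans ?_
    have h4 := Complex.norm_iteratedDeriv_le_of_forall_mem_sphere_norm_le n
      (show (0 : ℝ) < 4 / 3 by norm_num) (sgG_diff hf).diffContOnCl fun z hz => sgG_le hC hb hz
    have hn : (0 : ℝ) < n.factorial := by exact_mod_cast n.factorial_pos
    rw [norm_mul, norm_mul, norm_pow, norm_neg, norm_one, one_pow, one_mul, norm_inv,
      Complex.norm_natCast, inv_mul_le_iff₀ hn]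
    refine h4.trans_eq ?_
    rw [div_eq_mul_inv, ← inv_pow]
    norm_num
    ring
  have h0 : 1 - (f 1).re ≤
      (((0 : ℕ).factorial : ℂ)⁻¹ * ((-1) ^ 0 * iteratedDeriv 0 (sgG f) 2)).re := by
    have h4 := (Complex.le_def.1 hP.one_le).1
    rw [sgG_eq f (by norm_num)] at h4
    norm_num at h4 ⊢
    linarith
  have hle : (sgG f σ).re ≤ (f 1).re / (2 - σ - 1) := by
    rw [sgG_eq f (by exact_mod_cast h2.ne), Complex.add_re, sg_re_inv,
      Complex.re_mul_ofReal] at h3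
    have h4 : (σ - 1)⁻¹ = -(2 - σ - 1)⁻¹ := by rw [← inv_neg]; congr 1; ring
    rw [h4] at h3
    rw [div_eq_mul_inv]
    linarith
  have h4 := sg_real (by linarith) (by linarith) hS hB (sgG_coeff hP hf) h0 hle K
  rw [show 2 - σ - 1 = 1 - σ by ring, show 2 - σ = 1 + (1 - σ) by ring,
    le_div_iff₀ (by linarith)] at h4
  have h5 : (1 - σ) / 2 ≤ (f 1).re * (1 + (1 - σ)) ^ (K + 1) := by nlinarith
  have hp : 0 < (1 + (1 - σ)) ^ (K + 1) := pow_pos (by linarith) _
  have h6 : 0 < (f 1).re := (mul_pos_iff_of_pos_right hp).1 (by linarith)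
  have h7 := mul_le_mul_of_nonneg_left hK2 h6.le
  have h8 : 0 < M ^ (5 * (1 - σ)) := Real.rpow_pos_of_pos hM0 _
  rw [Real.rpow_neg hM0.le, ← div_eq_mul_inv, div_le_iff₀ h8, div_mul_eq_mul_div,
    div_le_iff₀ (by positivity)]
  linarith

end Pool.Agent.EQ
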