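import Pool.Agent.P.MP_ad7a55_nt.Defs

/-! Modular curves of congruence level: functions, orbits, measure. -/

set_option autoImplicit false

noncomputable section

open UpperHalfPlane MeasureTheory
open scoped MatrixGroups ENNReal

namespace Pool.Agent.EQ

/-- `f` is a modular function for `Γ`, holomorphic on the upper half plane, whose expansions in
`exp (2 π i τ / N)` at all cusps have coefficients in `L`. -/
def IsMF (Γ : Subgroup SL(2, ℤ)) (N : ℕ) (L : IntermediateField ℚ ℂ) (f : ℍ → ℂ) : Prop :=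
  (∀ γ ∈ Γ, ∀ τ : ℍ, f (γ • τ) = f τ) ∧ ∃ m : ℕ, ∀ γ : SL(2, ℤ), ∃ c : ℕ → ℂ, (∀ n, c n ∈ L) ∧
    ∀ τ : ℍ, HasSum (fun n => c n * Complex.exp (2 * Real.pi * Complex.I * τ / N) ^ n)
      (ModularForm.discriminant τ ^ m * f (γ • τ))

/-- The modular curve of level `Γ`. -/
abbrev YG (Γ : Subgroup SL(2, ℤ)) : Type := Quotient (MulAction.orbitRel Γ ℍ)

/-- The Galois orbit over `F` of the point with coordinates `τ k`, for the model whose
coordinate functions on the `k`-th curve are the members of `B k`. -/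
def orbG {n : ℕ} (F : IntermediateField ℚ ℂ) (Γ : Fin n → Subgroup SL(2, ℤ))
    (B : Fin n → Set (ℍ → ℂ)) (τ : Fin n → ℍ) : Set (∀ k, YG (Γ k)) :=
  {y | ∃ (σ : ℂ ≃+* ℂ) (w : Fin n → ℍ), (∀ a ∈ F, σ a = a) ∧ (∀ k, y k = Quotient.mk _ (w k)) ∧
    ∀ k, ∀ f ∈ B k, f (w k) = σ (f (τ k))}

/-- Normalised hyperbolic area on the union of the translates of the standard fundamental domain
by coset representatives of `Γ`. -/
def mH (Γ : Subgroup SL(2, ℤ)) : Measure ℍ :=
  (Γ.index : ℝ≥0∞)⁻¹ • Measure.sum fun c : SL(2, ℤ) ⧸ Γ =>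
    (ProbabilityTheory.cond (volume : Measure ℍ) ModularGroup.fd).map fun τ => c.out⁻¹ • τ

end Pool.Agent.EQ
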