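import Pool.Agent.P.MP_ad7a55_nt.Grp

/-! The near-diagonal inequality on Y₀ × Y₀. -/

set_option autoImplicit false

noncomputable section

open MeasureTheory Topology Filter UpperHalfPlane
open scoped MatrixGroups ENNReal BoundedContinuousFunction

namespace Pool.Agent.EQ

/-- The positive part of the largest initial sum of `2 · 1_B - 1` of length at most `K`. -/
def ata_M {W : Type} (T : W → W) (B : Set W) [DecidablePred (· ∈ B)] : ℕ → W → ℕ
  | 0, _ => 0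
  | K + 1, w => (if w ∈ B then 2 else 0) + ata_M T B K (T w) - 1

theorem ata_M_mono {W : Type} (T : W → W) (B : Set W) [DecidablePred (· ∈ B)] (K : ℕ) :
    ∀ w, ata_M T B K w ≤ ata_M T B (K + 1) w := by
  induction K with
  | zero => intro w; simp [ata_M]
  | succ K ih =>
    intro w
    have := ih (T w)
    simp only [ata_M] at this ⊢
    omega

theorem ata_M_le {W : Type} (T : W → W) (B : Set W) [DecidablePred (· ∈ B)] (K : ℕ) :
    ∀ w, ata_M T B K w ≤ K := by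
  induction K with
  | zero => intro w; simp [ata_M]
  | succ K ih =>
    intro w
    have := ih (T w)
    simp only [ata_M]
    split_ifs <;> omega

theorem ata_M_card {W : Type} (T : W → W) (B : Set W) [DecidablePred (· ∈ B)] (N : ℕ) :
    ∀ w, 2 * ((Finset.range N).filter fun n => T^[n] w ∈ B).card ≤ N + ata_M T B N w := by
  induction N with
  | zero => intro w; simp
  | succ N ih =>
    intro w
    have h1 := ih (T w)
    rw [Finset.card_filter] at h1 ⊢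
    rw [Finset.sum_range_succ']
    change 2 * (∑ i ∈ Finset.range N, (if T^[i] (T w) ∈ B then 1 else 0) +
      (if w ∈ B then 1 else 0)) ≤ N + 1 + ((if w ∈ B then 2 else 0) + ata_M T B N (T w) - 1)
    split_ifs <;> omega

theorem ata_M_meas {W : Type} [MeasurableSpace W] {T : W → W} (hT : Measurable T) {B : Set W}
    [DecidablePred (· ∈ B)] (hB : MeasurableSet B) (K : ℕ) : Measurable (ata_M T B K) := by
  induction K with
  | zero => exact measurable_const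
  | succ K ih =>
    have h1 : Measurable fun w => (if w ∈ B then 2 else 0 : ℕ) :=
      Measurable.ite hB measurable_const measurable_const
    have h2 : Measurable fun w => ((if w ∈ B then 2 else 0 : ℕ), ata_M T B K (T w)) :=
      h1.prodMk (ih.comp hT)
    exact (measurable_of_countable fun z : ℕ × ℕ => z.1 + z.2 - 1).comp h2

/-- The maximal ergodic inequality for one transformation. -/
theorem maxZ {W : Type} [MeasurableSpace W] (σ : Measure W) [IsFiniteMeasure σ] {T : W → W}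
    (hT : MeasurePreserving T σ σ) {B : Set W} [DecidablePred (· ∈ B)] (hB : MeasurableSet B) :
    σ {w | ∃ N : ℕ, N < 2 * ((Finset.range N).filter fun n => T^[n] w ∈ B).card} ≤
      2 * σ B := by
  have hm := ata_M_meas hT.measurable hB
  have hm' : ∀ K, Measurable fun w => (ata_M T B K w : ℝ≥0∞) := fun K =>
    (measurable_of_countable fun z : ℕ => (z : ℝ≥0∞)).comp (hm K)
  have hE : ∀ K, MeasurableSet {w | 0 < ata_M T B K w} := fun K =>
    hm K (MeasurableSet.of_discrete (s := {z : ℕ | 0 < z}))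
  have key : ∀ K, σ {w | 0 < ata_M T B (K + 1) w} ≤ 2 * σ B := by
    intro K
    have h1 : ∀ w, (ata_M T B K w : ℝ≥0∞) +
        {w | 0 < ata_M T B (K + 1) w}.indicator (fun _ => (1 : ℝ≥0∞)) w ≤
        B.indicator (fun _ => (2 : ℝ≥0∞)) w + ata_M T B K (T w) := by
      intro w
      have h2 := ata_M_mono T B K w
      have h3 : ata_M T B K w + (if 0 < ata_M T B (K + 1) w then 1 else 0) ≤
          (if w ∈ B then 2 else 0) + ata_M T B K (T w) := by
        simp only [ata_M] at h2 ⊢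
        split_ifs at h2 ⊢ <;> omega
      have h4 : ((ata_M T B K w + (if 0 < ata_M T B (K + 1) w then 1 else 0) : ℕ) : ℝ≥0∞) ≤
          (((if w ∈ B then 2 else 0) + ata_M T B K (T w) : ℕ) : ℝ≥0∞) := by exact_mod_cast h3
      simp only [Set.indicator_apply, Set.mem_ofPred_eq]
      push_cast at h4
      exact h4
    have h5 := lintegral_mono (μ := σ) h1
    rw [lintegral_add_left (hm' K), lintegral_add_left (measurable_const.indicator hB),
      lintegral_indicator_const (hE _), lintegral_indicator_const hB,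
      hT.lintegral_comp (hm' K), one_mul, add_comm] at h5
    have h6 : ∫⁻ w, (ata_M T B K w : ℝ≥0∞) ∂σ ≠ ∞ := by
      refine ne_top_of_le_ne_top ?_ (lintegral_mono (g := fun _ => (K : ℝ≥0∞)) fun w => ?_)
      · rw [lintegral_const]
        exact ENNReal.mul_ne_top (by simp) (measure_ne_top _ _)
      · exact Nat.cast_le.2 (ata_M_le T B K w)
    exact ENNReal.le_of_add_le_add_right h6 h5
  have hsub : {w | ∃ N : ℕ, N < 2 * ((Finset.range N).filter fun n => T^[n] w ∈ B).card} ⊆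
      ⋃ K, {w | 0 < ata_M T B (K + 1) w} := by
    rintro w ⟨N, hN⟩
    have h1 := ata_M_card T B N w
    have h2 := ata_M_mono T B N w
    exact Set.mem_iUnion.2 ⟨N, show 0 < _ by omega⟩
  refine (measure_mono hsub).trans ?_
  have hmono : Monotone fun K => {w | 0 < ata_M T B (K + 1) w} :=
    monotone_nat_of_le_succ fun K w hw => lt_of_lt_of_le hw (ata_M_mono T B (K + 1) w)
  rw [hmono.measure_iUnion]
  exact iSup_le key

/-- Distance to the identity. -/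
def dev (δ : SL(2, ℝ)) : ℝ := ‖(fun i j => δ i j - (1 : SL(2, ℝ)) i j : Fin 2 → Fin 2 → ℝ)‖

theorem ata_cont_val : Continuous fun g : SL(2, ℝ) => (fun i j => g i j : Fin 2 → Fin 2 → ℝ) :=
  continuous_pi fun i => continuous_pi fun j =>
    (continuous_apply j).comp ((continuous_apply i).comp continuous_subtype_val)

theorem continuous_dev : Continuous dev :=
  (ata_cont_val.sub (continuous_const (y := fun i j => (1 : SL(2, ℝ)) i j))).norm

theorem dev_eq_zero {δ : SL(2, ℝ)} : dev δ = 0 ↔ δ = 1 := by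
  unfold dev
  rw [norm_eq_zero]
  constructor
  · intro h
    ext i j
    exact sub_eq_zero.1 (congrFun (congrFun h i) j)
  · rintro rfl
    ext i j
    simp

theorem isCompact_dev (R : ℝ) : IsCompact {δ | dev δ ≤ R} := by
  have h : IsClosedEmbedding fun g : SL(2, ℝ) => (fun i j => g i j : Fin 2 → Fin 2 → ℝ) :=
    Matrix.SpecialLinearGroup.isClosedEmbedding_val
  have h2 := h.isCompact_preimage
    (isCompact_closedBall (fun i j => (1 : SL(2, ℝ)) i j : Fin 2 → Fin 2 → ℝ) R)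
  convert h2 using 1
  ext δ
  simp only [Set.mem_ofPred_eq, Set.mem_preimage, mem_closedBall_iff_norm]
  rfl

theorem ata_dev_nonneg (δ : SL(2, ℝ)) : 0 ≤ dev δ := norm_nonneg _

/-- `v` is unipotent. -/
def Unip (v : SL(2, ℝ)) : Prop :=
  ((v : Matrix (Fin 2) (Fin 2) ℝ) - 1) * ((v : Matrix (Fin 2) (Fin 2) ℝ) - 1) = 0

/-- An annulus around the diagonal. -/
def Ann (Ω : Set YY) (r R : ℝ) : Set (YY × YY) :=
  {w | w.1 ∈ Ω ∧ ∃ δ, r ≤ dev δ ∧ dev δ ≤ R ∧ w.2 = δ • w.1}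

theorem isCompact_Ann {Ω : Set YY} (hΩ : IsCompact Ω) (r R : ℝ) : IsCompact (Ann Ω r R) := by
  have h1 : IsCompact ({δ | dev δ ≤ R} ∩ {δ | r ≤ dev δ}) :=
    (isCompact_dev R).inter_right (isClosed_le continuous_const continuous_dev)
  have hc : Continuous fun z : YY × SL(2, ℝ) => (z.1, z.2 • z.1) :=
    continuous_fst.prodMk (continuous_snd.smul continuous_fst)
  convert (hΩ.prod h1).image hc using 1
  ext w
  constructor
  · rintro ⟨hw, δ, h2, h3, h4⟩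
    exact ⟨(w.1, δ), ⟨hw, h3, h2⟩, Prod.ext rfl h4.symm⟩
  · rintro ⟨z, ⟨hz, h3, h2⟩, rfl⟩
    exact ⟨hz, z.2, h2, h3, rfl⟩

theorem isOpen_near (r : ℝ) : IsOpen {w : YY × YY | ∃ δ, dev δ < r ∧ w.2 = δ • w.1} := by
  have h1 : IsOpen {z : SL(2, ℝ) × SL(2, ℝ) | dev (z.2 * z.1⁻¹) < r} :=
    isOpen_lt (continuous_dev.comp (continuous_snd.mul continuous_fst.inv)) continuous_const
  have h2 : IsOpenMap (Prod.map (QuotientGroup.mk : SL(2, ℝ) → YY)
      (QuotientGroup.mk : SL(2, ℝ) → YY)) :=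
    QuotientGroup.isOpenMap_coe.prodMap QuotientGroup.isOpenMap_coe
  convert h2 _ h1 using 1
  ext ⟨y, y'⟩
  constructor
  · rintro ⟨δ, h3, h4⟩
    obtain ⟨g, rfl⟩ := QuotientGroup.mk_surjective y
    refine ⟨(g, δ * g), by simpa using h3, Prod.ext rfl ?_⟩
    exact h4.symm
  · rintro ⟨⟨g, h⟩, h3, h4⟩
    obtain ⟨rfl, rfl⟩ := Prod.mk.inj h4
    refine ⟨h * g⁻¹, h3, ?_⟩
    change (h : YY) = ((h * g⁻¹ * g : SL(2, ℝ)) : YY)
    rw [inv_mul_cancel_right]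

theorem ata_lift {Ω : Set YY} (hΩ : IsCompact Ω) :
    ∃ K : Set SL(2, ℝ), IsCompact K ∧ Ω ⊆ (QuotientGroup.mk : SL(2, ℝ) → YY) '' K := by
  refine hΩ.induction_on (p := fun s => ∃ K : Set SL(2, ℝ), IsCompact K ∧
    s ⊆ (QuotientGroup.mk : SL(2, ℝ) → YY) '' K) ⟨∅, isCompact_empty, by simp⟩ ?_ ?_ ?_
  · rintro s t hst ⟨K, hK, h⟩
    exact ⟨K, hK, hst.trans h⟩
  · rintro s t ⟨K, hK, h⟩ ⟨K', hK', h'⟩
    exact ⟨K ∪ K', hK.union hK', by rw [Set.image_union]; exact Set.union_subset_union h h'⟩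
  · intro y _
    obtain ⟨g, rfl⟩ := QuotientGroup.mk_surjective y
    obtain ⟨K, hK, hg⟩ := exists_compact_mem_nhds g
    exact ⟨_, mem_nhdsWithin_of_mem_nhds (QuotientGroup.isOpenMap_coe.image_mem_nhds hg),
      K, hK, subset_rfl⟩

/-- Injectivity radius on a compact set. -/
theorem exists_inj {Ω : Set YY} (hΩ : IsCompact Ω) : ∃ r : ℝ, 0 < r ∧ ∀ y ∈ Ω, ∀ δ δ' : SL(2, ℝ),
    dev δ ≤ r → dev δ' ≤ r → δ • y = δ' • y → δ = δ' := by
  obtain ⟨K, hK, hΩK⟩ := ata_lift hΩ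
  let P : Set (SL(2, ℝ) × SL(2, ℝ) × SL(2, ℝ)) := K ×ˢ {δ | dev δ ≤ 1} ×ˢ {δ | dev δ ≤ 1}
  have hP : IsCompact P := hK.prod ((isCompact_dev 1).prod (isCompact_dev 1))
  let f : SL(2, ℝ) × SL(2, ℝ) × SL(2, ℝ) → SL(2, ℝ) := fun z => (z.2.1 * z.1)⁻¹ * (z.2.2 * z.1)
  have hf : Continuous f :=
    (continuous_snd.fst.mul continuous_fst).inv.mul (continuous_snd.snd.mul continuous_fst)
  have hfin : ((f '' P ∩ Gam0) \ {1}).Finite := (Gam0_finite (hP.image hf)).sdiff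
  have hS : IsCompact (P ∩ f ⁻¹' ((f '' P ∩ Gam0) \ {1})) :=
    hP.inter_right (hfin.isClosed.preimage hf)
  have hg : Continuous fun z : SL(2, ℝ) × SL(2, ℝ) × SL(2, ℝ) => dev z.2.1 + dev z.2.2 :=
    (continuous_dev.comp continuous_snd.fst).add (continuous_dev.comp continuous_snd.snd)
  obtain ⟨m, hm, hm'⟩ := hS.exists_forall_le' hg.continuousOn (a := 0) (by
    rintro z ⟨-, -, hz⟩
    have h1 := ata_dev_nonneg z.2.1
    have h2 := ata_dev_nonneg z.2.2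
    by_contra h
    have h3 : z.2.1 = 1 := dev_eq_zero.1 (by linarith)
    have h4 : z.2.2 = 1 := dev_eq_zero.1 (by linarith)
    exact hz (by simp [f, h3, h4]))
  refine ⟨min 1 (m / 3), lt_min one_pos (by linarith), fun y hy δ δ' h1 h2 h3 => ?_⟩
  obtain ⟨g, hg, rfl⟩ := hΩK hy
  rw [le_min_iff] at h1 h2
  have h4 : f (g, δ, δ') ∈ Gam0 := QuotientGroup.eq.1 h3
  have h5 : (g, δ, δ') ∈ P := ⟨hg, h1.1, h2.1⟩
  by_contra hne
  have h6 := hm' (g, δ, δ') ⟨h5, ⟨⟨_, h5, rfl⟩, h4⟩, fun h => hne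
    (mul_right_cancel (inv_mul_eq_one.1 h))⟩
  simp only at h6
  linarith [h1.2, h2.2]

section quad

variable {E : Type} [NormedAddCommGroup E] [NormedSpace ℝ E]

theorem ata_coef {x y z w T : ℝ} (hT : 0 < T) (h1 : |x| ≤ 5 * T) (h2 : |y| ≤ 5 * T)
    (h3 : T ≤ |z|) (h4 : T ≤ |w|) : |x * y / (z * w)| ≤ 25 := by
  rw [abs_div, abs_mul, abs_mul, div_le_iff₀ (mul_pos (hT.trans_le h3) (hT.trans_le h4))]
  have h5 := mul_le_mul h1 h2 (abs_nonneg _) (by positivity)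
  have h6 := mul_le_mul h3 h4 hT.le (abs_nonneg _)
  nlinarith

theorem ata_lagr (A B D : E) {a b c x T r : ℝ} (hT : 0 < T) (hab : T ≤ |a - b|)
    (hac : T ≤ |a - c|) (hbc : T ≤ |b - c|) (hxa : |x - a| ≤ 5 * T) (hxb : |x - b| ≤ 5 * T)
    (hxc : |x - c| ≤ 5 * T) (ha : ‖A + a • B + a ^ 2 • D‖ ≤ r) (hb : ‖A + b • B + b ^ 2 • D‖ ≤ r)
    (hc : ‖A + c • B + c ^ 2 • D‖ ≤ r) : ‖A + x • B + x ^ 2 • D‖ ≤ 75 * r := by
  have h1 : a - b ≠ 0 := abs_pos.1 (hT.trans_le hab)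
  have h2 : a - c ≠ 0 := abs_pos.1 (hT.trans_le hac)
  have h3 : b - c ≠ 0 := abs_pos.1 (hT.trans_le hbc)
  have h4 : A + x • B + x ^ 2 • D =
      ((x - b) * (x - c) / ((a - b) * (a - c))) • (A + a • B + a ^ 2 • D) -
      ((x - a) * (x - c) / ((a - b) * (b - c))) • (A + b • B + b ^ 2 • D) +
      ((x - a) * (x - b) / ((a - c) * (b - c))) • (A + c • B + c ^ 2 • D) := by
    match_scalars <;> field_simp <;> ring
  have hr : 0 ≤ r := (norm_nonneg _).trans ha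
  have k : ∀ (t : ℝ) (e : E), |t| ≤ 25 → ‖e‖ ≤ r → ‖t • e‖ ≤ 25 * r := fun t e ht he => by
    rw [norm_smul, Real.norm_eq_abs]
    exact mul_le_mul ht he (norm_nonneg _) (by norm_num)
  have k1 := k _ _ (ata_coef hT hxb hxc hab hac) ha
  have k2 := k _ _ (ata_coef hT hxa hxc hab hbc) hb
  have k3 := k _ _ (ata_coef hT hxa hxb hac hbc) hc
  rw [h4]
  refine (norm_add_le _ _).trans ?_
  have := norm_sub_le (((x - b) * (x - c) / ((a - b) * (a - c))) • (A + a • B + a ^ 2 • D))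
    (((x - a) * (x - c) / ((a - b) * (b - c))) • (A + b • B + b ^ 2 • D))
  linarith

theorem ata_unb (A D : E) {B : E} (hB : B ≠ 0) (R : ℝ) :
    ∃ n : ℕ, R ≤ ‖A + (n : ℝ) • B + (n : ℝ) ^ 2 • D‖ := by
  by_contra! h
  have hB' : 0 < ‖B‖ := norm_pos_iff.2 hB
  obtain ⟨n, hn⟩ := exists_nat_gt (4 * R / ‖B‖)
  rw [div_lt_iff₀ hB'] at hn
  have h0 := h 0
  have h1 := h n
  have h2 := h (2 * n)
  have h4 : (2 * n : ℝ) • B = (4 : ℝ) • (A + (n : ℝ) • B + (n : ℝ) ^ 2 • D) -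
      (A + ((2 * n : ℕ) : ℝ) • B + ((2 * n : ℕ) : ℝ) ^ 2 • D) -
      (3 : ℝ) • (A + ((0 : ℕ) : ℝ) • B + ((0 : ℕ) : ℝ) ^ 2 • D) := by
    push_cast
    module
  have h5 := congrArg norm h4
  have h6 := norm_sub_le ((4 : ℝ) • (A + (n : ℝ) • B + (n : ℝ) ^ 2 • D) -
      (A + ((2 * n : ℕ) : ℝ) • B + ((2 * n : ℕ) : ℝ) ^ 2 • D))
      ((3 : ℝ) • (A + ((0 : ℕ) : ℝ) • B + ((0 : ℕ) : ℝ) ^ 2 • D))
  have h7 := norm_sub_le ((4 : ℝ) • (A + (n : ℝ) • B + (n : ℝ) ^ 2 • D))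
      (A + ((2 * n : ℕ) : ℝ) • B + ((2 * n : ℕ) : ℝ) ^ 2 • D)
  rw [norm_smul, Real.norm_of_nonneg (by positivity)] at h5
  rw [norm_smul, Real.norm_of_nonneg (by norm_num : (0 : ℝ) ≤ 3)] at h6
  rw [norm_smul, Real.norm_of_nonneg (by norm_num : (0 : ℝ) ≤ 4)] at h7
  linarith

theorem ata_gap {a b T : ℕ} (h : a % T = b % T) (hne : a ≠ b) : (T : ℝ) ≤ |(a : ℝ) - b| := by
  have h1 : (T : ℤ) ∣ (a : ℤ) - b := (Nat.modEq_iff_dvd.1 h.symm)
  have h2 : (a : ℤ) - b ≠ 0 := by omega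
  have h3 : (T : ℤ) ≤ |(a : ℤ) - b| := Int.le_of_dvd (abs_pos.2 h2) ((dvd_abs _ _).2 h1)
  exact_mod_cast h3

open Classical in
theorem ata_count (A D : E) {B : E} (hB : B ≠ 0) {c r : ℝ} (hc : 1 ≤ c) (q : ℕ → E)
    (hq : ∀ n : ℕ, q n = A + (n : ℝ) • B + (n : ℝ) ^ 2 • D) (h0 : ‖q 0‖ < r)
    (hs : ∀ n, ‖q (n + 1)‖ ≤ c * ‖q n‖) :
    ∃ N : ℕ, N < 2 * ((Finset.range N).filter
      fun n => r ≤ ‖q n‖ ∧ ‖q n‖ ≤ 100 * c ^ 5 * r).card := by
  have hr : 0 < r := (norm_nonneg _).trans_lt h0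
  have hex : ∃ T : ℕ, ∃ n ≤ 5 * T, 100 * r ≤ ‖q n‖ := by
    obtain ⟨n, hn⟩ := ata_unb A D hB (100 * r)
    exact ⟨n, n, by omega, by rwa [hq]⟩
  obtain ⟨x, hx, hx'⟩ := Nat.find_spec hex
  have hmin := fun m => Nat.find_min hex (m := m)
  generalize Nat.find hex = T at hx hx' hmin
  have hT : 0 < T := by
    rcases Nat.eq_zero_or_pos T with rfl | h
    · obtain rfl : x = 0 := by omega
      linarith
    · exact h
  have hpow : ∀ n k, ‖q (n + k)‖ ≤ c ^ k * ‖q n‖ := by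
    intro n k
    induction k with
    | zero => simp
    | succ k ih =>
      refine (hs (n + k)).trans ?_
      rw [pow_succ', mul_assoc]
      exact mul_le_mul_of_nonneg_left ih (by linarith)
  have hup : ∀ n < 5 * T, ‖q n‖ ≤ 100 * c ^ 5 * r := by
    intro n hn
    obtain ⟨m, k, hm, hk, rfl⟩ : ∃ m k, m ≤ 5 * (T - 1) ∧ k ≤ 5 ∧ n = m + k := by
      rcases le_total n (5 * (T - 1)) with h | h
      · exact ⟨n, 0, h, by omega, rfl⟩
      · exact ⟨5 * (T - 1), n - 5 * (T - 1), le_rfl, by omega, by omega⟩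
    have h1 : ‖q m‖ ≤ 100 * r := by
      by_contra! h
      exact hmin (T - 1) (by omega) ⟨m, hm, h.le⟩
    refine (hpow m k).trans ?_
    have h2 : c ^ k ≤ c ^ 5 := pow_le_pow_right₀ hc hk
    calc c ^ k * ‖q m‖ ≤ c ^ 5 * (100 * r) :=
          mul_le_mul h2 h1 (norm_nonneg _) (by positivity)
      _ = _ := by ring
  have hbad : ((Finset.range (5 * T)).filter fun n => ¬ r ≤ ‖q n‖).card ≤ T * 2 := by
    by_contra h
    rw [not_le] at h
    obtain ⟨y, -, hy⟩ := Finset.exists_lt_card_fiber_of_mul_lt_card_of_maps_to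
      (s := (Finset.range (5 * T)).filter fun n => ¬ r ≤ ‖q n‖) (t := Finset.range T)
      (f := fun n => n % T) (n := 2) (fun a _ => Finset.mem_range.2 (Nat.mod_lt _ hT))
      (by rwa [Finset.card_range])
    obtain ⟨a, ha, b, hb, d, hd, hab, had, hbd⟩ := Finset.two_lt_card.1 hy
    simp only [Finset.mem_filter, Finset.mem_range, not_le] at ha hb hd
    have hd5 : ∀ a : ℕ, a < 5 * T → |(x : ℝ) - a| ≤ 5 * T := fun a ha => by
      have e1 : (a : ℝ) ≤ 5 * T := by exact_mod_cast ha.le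
      have e2 : (x : ℝ) ≤ 5 * T := by exact_mod_cast hx
      have e3 : (0 : ℝ) ≤ a := Nat.cast_nonneg _
      have e4 : (0 : ℝ) ≤ x := Nat.cast_nonneg _
      rw [abs_le]
      constructor <;> linarith
    have := ata_lagr A B D (T := T) (x := x) (r := r) (by exact_mod_cast hT)
      (ata_gap (ha.2.trans hb.2.symm) hab) (ata_gap (ha.2.trans hd.2.symm) had)
      (ata_gap (hb.2.trans hd.2.symm) hbd) (hd5 a ha.1.1) (hd5 b hb.1.1) (hd5 d hd.1.1)
      (hq a ▸ ha.1.2.le) (hq b ▸ hb.1.2.le) (hq d ▸ hd.1.2.le)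
    rw [← hq] at this
    linarith
  have htot := Finset.card_filter_add_card_filter_not (s := Finset.range (5 * T))
    (fun n => r ≤ ‖q n‖)
  rw [Finset.card_range] at htot
  have hle : ((Finset.range (5 * T)).filter fun n => r ≤ ‖q n‖).card ≤
      ((Finset.range (5 * T)).filter fun n => r ≤ ‖q n‖ ∧ ‖q n‖ ≤ 100 * c ^ 5 * r).card := by
    refine Finset.card_le_card fun n hn => ?_
    rw [Finset.mem_filter] at hn ⊢
    exact ⟨hn.1, hn.2, hup n (Finset.mem_range.1 hn.1)⟩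
  exact ⟨5 * T, by omega⟩

end quad

/-- Matrices as functions. -/
def ata_φ : Matrix (Fin 2) (Fin 2) ℝ ≃ₗ[ℝ] (Fin 2 → Fin 2 → ℝ) := (Matrix.ofLinearEquiv ℝ).symm

theorem ata_dev (δ : SL(2, ℝ)) : dev δ = ‖ata_φ ((δ : Matrix (Fin 2) (Fin 2) ℝ) - 1)‖ := rfl

theorem ata_pow {v : SL(2, ℝ)} (hv : Unip v) (n : ℕ) :
    ((v ^ n : SL(2, ℝ)) : Matrix (Fin 2) (Fin 2) ℝ) =
      1 + (n : ℝ) • ((v : Matrix (Fin 2) (Fin 2) ℝ) - 1) := by
  unfold Unip at hv
  induction n with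
  | zero => simp
  | succ n ih =>
    rw [pow_succ, Matrix.SpecialLinearGroup.coe_mul, ih]
    generalize hM : (v : Matrix (Fin 2) (Fin 2) ℝ) - 1 = M at hv
    have : (v : Matrix (Fin 2) (Fin 2) ℝ) = 1 + M := by rw [← hM]; abel
    rw [this, add_mul, one_mul, smul_mul_assoc, mul_add, mul_one, hv]
    push_cast
    module

theorem ata_inv {v : SL(2, ℝ)} (hv : Unip v) (n : ℕ) :
    (((v ^ n)⁻¹ : SL(2, ℝ)) : Matrix (Fin 2) (Fin 2) ℝ) =
      1 - (n : ℝ) • ((v : Matrix (Fin 2) (Fin 2) ℝ) - 1) := by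
  have h1 : ((v ^ n : SL(2, ℝ)) : Matrix (Fin 2) (Fin 2) ℝ) *
      (1 - (n : ℝ) • ((v : Matrix (Fin 2) (Fin 2) ℝ) - 1)) = 1 := by
    rw [ata_pow hv]
    unfold Unip at hv
    generalize (v : Matrix (Fin 2) (Fin 2) ℝ) - 1 = M at hv
    rw [add_mul, one_mul, smul_mul_assoc, mul_sub, mul_one, mul_smul_comm, hv]
    module
  calc (((v ^ n)⁻¹ : SL(2, ℝ)) : Matrix (Fin 2) (Fin 2) ℝ)
      = (((v ^ n)⁻¹ : SL(2, ℝ)) : Matrix (Fin 2) (Fin 2) ℝ) *
        (((v ^ n : SL(2, ℝ)) : Matrix (Fin 2) (Fin 2) ℝ) *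
          (1 - (n : ℝ) • ((v : Matrix (Fin 2) (Fin 2) ℝ) - 1))) := by rw [h1, mul_one]
    _ = _ := by
      rw [← mul_assoc, ← Matrix.SpecialLinearGroup.coe_mul, inv_mul_cancel,
        Matrix.SpecialLinearGroup.coe_one, one_mul]

theorem ata_conj_val (g δ : SL(2, ℝ)) :
    ((g * δ * g⁻¹ : SL(2, ℝ)) : Matrix (Fin 2) (Fin 2) ℝ) - 1 =
      (g : Matrix (Fin 2) (Fin 2) ℝ) * ((δ : Matrix (Fin 2) (Fin 2) ℝ) - 1) *
        ((g⁻¹ : SL(2, ℝ)) : Matrix (Fin 2) (Fin 2) ℝ) := by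
  rw [mul_sub, sub_mul, mul_one, ← Matrix.SpecialLinearGroup.coe_mul g g⁻¹, mul_inv_cancel,
    Matrix.SpecialLinearGroup.coe_one, Matrix.SpecialLinearGroup.coe_mul,
    Matrix.SpecialLinearGroup.coe_mul]

theorem ata_step (v : SL(2, ℝ)) :
    ∃ c : ℝ, 1 ≤ c ∧ ∀ δ : SL(2, ℝ), dev (v * δ * v⁻¹) ≤ c * dev δ := by
  let L : (Fin 2 → Fin 2 → ℝ) →ₗ[ℝ] (Fin 2 → Fin 2 → ℝ) := ata_φ.toLinearMap ∘ₗ
    (LinearMap.mulRight ℝ ((v⁻¹ : SL(2, ℝ)) : Matrix (Fin 2) (Fin 2) ℝ)) ∘ₗ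
    (LinearMap.mulLeft ℝ (v : Matrix (Fin 2) (Fin 2) ℝ)) ∘ₗ ata_φ.symm.toLinearMap
  refine ⟨max 1 ‖LinearMap.toContinuousLinearMap L‖, le_max_left _ _, fun δ => ?_⟩
  have h1 := (LinearMap.toContinuousLinearMap L).le_opNorm
    (ata_φ ((δ : Matrix (Fin 2) (Fin 2) ℝ) - 1))
  rw [ata_dev, ata_dev, ata_conj_val]
  refine le_trans (le_of_eq ?_) (h1.trans
    (mul_le_mul_of_nonneg_right (le_max_right _ _) (norm_nonneg _)))
  rfl

theorem near_diag {v : SL(2, ℝ)} (hv : Unip v) : ∃ C : ℝ, 1 ≤ C ∧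
    ∀ (σ : Measure (YY × YY)) [IsFiniteMeasure σ], σ.map (fun w => (v • w.1, v • w.2)) = σ →
      ∀ Ω : Set YY, IsCompact Ω → ∀ r : ℝ, 0 < r → r ≤ 1 →
        σ {w | ∃ δ, dev δ < r ∧ δ * v ≠ v * δ ∧ w.2 = δ • w.1} ≤
          2 * (σ (Ann Ω r (C * r)) + σ (Ωᶜ ×ˢ Set.univ)) := by
  classical
  obtain ⟨c, hc, hstep⟩ := ata_step v
  refine ⟨100 * c ^ 5, by nlinarith [one_le_pow₀ (n := 5) hc], fun σ _ hσ Ω hΩ r _ _ => ?_⟩
  let T : YY × YY → YY × YY := fun w => (v • w.1, v • w.2)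
  have hTc : Continuous T :=
    (continuous_fst.const_smul v).prodMk (continuous_snd.const_smul v)
  have hT : MeasurePreserving T σ σ := ⟨hTc.measurable, hσ⟩
  have hit : ∀ (n : ℕ) (w : YY × YY), T^[n] w = (v ^ n • w.1, v ^ n • w.2) := by
    intro n w
    induction n with
    | zero => simp
    | succ n ih => rw [Function.iterate_succ_apply', ih, pow_succ', mul_smul, mul_smul]
  have hB : MeasurableSet (Ann Ω r (100 * c ^ 5 * r) ∪ Ωᶜ ×ˢ Set.univ) :=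
    (isCompact_Ann hΩ _ _).isClosed.measurableSet.union
      (hΩ.isClosed.measurableSet.compl.prod MeasurableSet.univ)
  refine le_trans (measure_mono ?_) ((maxZ σ hT hB).trans
    (mul_le_mul_right (measure_union_le _ _) 2))
  rintro w ⟨δ, h1, h2, h3⟩
  set M : Matrix (Fin 2) (Fin 2) ℝ := (v : Matrix (Fin 2) (Fin 2) ℝ) - 1 with hM
  set A : Matrix (Fin 2) (Fin 2) ℝ := (δ : Matrix (Fin 2) (Fin 2) ℝ) - 1 with hA
  have hne : ata_φ (M * A - A * M) ≠ 0 := by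
    rw [LinearEquiv.map_ne_zero_iff]
    intro h
    apply h2
    apply Subtype.ext
    have e : M * A - A * M = (v : Matrix (Fin 2) (Fin 2) ℝ) * δ -
        (δ : Matrix (Fin 2) (Fin 2) ℝ) * v := by
      rw [hM, hA]; noncomm_ring
    rw [e, sub_eq_zero] at h
    exact h.symm
  obtain ⟨N, hN⟩ := ata_count (ata_φ A) (ata_φ (-(M * A * M))) hne hc (r := r)
    (fun n => ata_φ (((v ^ n * δ * (v ^ n)⁻¹ : SL(2, ℝ)) : Matrix (Fin 2) (Fin 2) ℝ) - 1))
    (fun n => by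
      rw [← map_smul, ← map_smul, ← map_add, ← map_add, ata_conj_val, ata_pow hv, ata_inv hv,
        ← hM, ← hA]
      congr 1
      simp only [add_mul, mul_sub, one_mul, mul_one, smul_mul_assoc, mul_smul_comm]
      module)
    (by rw [← ata_dev]; simpa using h1)
    (fun n => by
      rw [← ata_dev, ← ata_dev]
      convert hstep (v ^ n * δ * (v ^ n)⁻¹) using 2
      rw [pow_succ']
      group)
  refine ⟨N, hN.trans_le (Nat.mul_le_mul_left 2 (Finset.card_le_card fun n hn => ?_))⟩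
  rw [Finset.mem_filter] at hn ⊢
  refine ⟨hn.1, ?_⟩
  rw [hit]
  by_cases hw : v ^ n • w.1 ∈ Ω
  · refine Or.inl ⟨hw, v ^ n * δ * (v ^ n)⁻¹, hn.2.1, hn.2.2, ?_⟩
    change v ^ n • w.2 = (v ^ n * δ * (v ^ n)⁻¹) • v ^ n • w.1
    rw [h3, mul_smul, mul_smul, inv_smul_smul]
  · exact Or.inr ⟨hw, trivial⟩

end Pool.Agent.EQ
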