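import Pool.Agent.P.MP_ad7a55_nt.Weak

/-! Weak convergence along a filter. -/

set_option autoImplicit false

noncomputable section

open MeasureTheory Topology Filter UpperHalfPlane
open scoped MatrixGroups ENNReal BoundedContinuousFunction NNReal

namespace Pool.Agent.EQ

variable {W : Type} [TopologicalSpace W] [PolishSpace W] [MeasurableSpace W] [BorelSpace W]
  {L : Filter ℕ} {μ : ℕ → Measure W} {ν : Measure W}

omit [PolishSpace W] in
/-- Restricting to a set of almost full mass changes integrals only a little. -/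
theorem weak2_restrict (ρ : Measure W) [IsFiniteMeasure ρ] {K : Set W} (hK : MeasurableSet K)
    (f : W →ᵇ ℝ) : ‖∫ x, f x ∂ρ - ∫ x in K, f x ∂ρ‖ ≤ ‖f‖ * ρ.real Kᶜ := by
  rw [← integral_add_compl hK (f.integrable ρ), add_sub_cancel_left]
  exact norm_setIntegral_le_of_norm_le_const (measure_lt_top _ _) fun x _ => f.norm_coe_le_norm x

/-- Asymptotically tight probability measures have a limit along an ultrafilter. -/
theorem exists_WT (𝒰 : Ultrafilter ℕ) (h𝒰 : (𝒰 : Filter ℕ) ≤ atTop) (μ : ℕ → Measure W)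
    [∀ i, IsProbabilityMeasure (μ i)]
    (ht : ∀ ε : ℝ≥0∞, 0 < ε → ∃ K : Set W, IsCompact K ∧ ∀ᶠ i in 𝒰, μ i Kᶜ ≤ ε) :
    ∃ ν : Measure W, IsProbabilityMeasure ν ∧ WT 𝒰 μ ν := by
  classical
  let u : ℕ → ℝ≥0 := fun n => ((n : ℝ≥0) + 1)⁻¹
  have hu : Tendsto u atTop (𝓝 0) := by
    rw [← NNReal.tendsto_coe]
    simpa [u] using tendsto_one_div_add_atTop_nhds_zero_nat (𝕜 := ℝ)
  have hu0 : ∀ n, (0 : ℝ≥0∞) < u n := fun n => by
    have : 0 < u n := by positivity
    exact_mod_cast this
  choose K hK hK' using fun n => ht (u n) (hu0 n)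
  let K' : ℕ → Set W := fun n => ⋃ i ∈ Set.Iic n, K i
  have hKc : ∀ n, IsCompact (K' n) := fun n => (Set.finite_Iic n).isCompact_biUnion fun i _ => hK i
  have hKm : Monotone K' := fun a b hab => Set.biUnion_subset_biUnion_left (Set.Iic_subset_Iic.2 hab)
  have hKK : ∀ n, K n ⊆ K' n := fun n => Set.subset_biUnion_of_mem (u := K) (Set.mem_Iic.2 le_rfl)
  let Pr : ℕ → ℕ → Prop := fun i n => ∀ m ≤ n, μ i (K m)ᶜ ≤ u m
  let N : ℕ → ℕ := fun i => Nat.findGreatest (Pr i) i
  have hP0 : ∀ i, Pr i 0 := fun i m hm => by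
    obtain rfl : m = 0 := Nat.le_zero.1 hm
    simpa [u] using prob_le_one
  have hPN : ∀ i, Pr i (N i) := fun i => Nat.findGreatest_spec (Nat.zero_le i) (hP0 i)
  have hN : Tendsto N 𝒰 atTop := by
    refine tendsto_atTop.2 fun n => ?_
    have h1 : ∀ᶠ i in (𝒰 : Filter ℕ), ∀ m ∈ Set.Iic n, μ i (K m)ᶜ ≤ u m :=
      (eventually_all_finite (Set.finite_Iic n)).2 fun m _ => hK' m
    filter_upwards [h1, h𝒰 (eventually_ge_atTop n)] with i hi hn
    exact Nat.le_findGreatest hn hi
  let ρ : ℕ → FiniteMeasure W := fun i => ⟨(μ i).restrict (K' (N i)), inferInstance⟩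
  have hcomp := isCompact_setOfPred_finiteMeasure_mass_le_compl_isCompact_le (u := u) (K := K') 1
    hu hKc (Or.inr hKm)
  have hmem : ∀ i, ρ i ∈ {μ : FiniteMeasure W | μ.mass ≤ 1 ∧ ∀ n, μ (K' n)ᶜ ≤ u n} := by
    intro i
    constructor
    · rw [← ENNReal.coe_le_coe, FiniteMeasure.ennreal_mass]
      exact (Measure.restrict_le_self _).trans prob_le_one
    · intro n
      rw [← ENNReal.coe_le_coe, FiniteMeasure.ennreal_coeFn_eq_coeFn_toMeasure]
      change (μ i).restrict (K' (N i)) (K' n)ᶜ ≤ _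
      rcases le_total n (N i) with h | h
      · exact (Measure.restrict_le_self _).trans
          ((measure_mono (Set.compl_subset_compl.2 (hKK n))).trans (hPN i n h))
      · rw [Measure.restrict_apply (hKc n).measurableSet.compl]
        have : (K' n)ᶜ ∩ K' (N i) = ∅ :=
          Set.eq_empty_of_forall_notMem fun x hx => hx.1 (hKm h hx.2)
        rw [this, measure_empty]
        exact zero_le
  obtain ⟨ν, -, hν⟩ := hcomp.ultrafilter_le_nhds (𝒰.map ρ) (by
    rw [Ultrafilter.coe_map, le_principal_iff, mem_map]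
    exact Eventually.of_forall hmem)
  have hν' : Tendsto ρ 𝒰 (𝓝 ν) := hν
  have hW : WT 𝒰 μ (ν : Measure W) := by
    intro f
    have h1 := FiniteMeasure.tendsto_iff_forall_integral_tendsto.1 hν' f
    have h2 : Tendsto (fun i => ∫ x, f x ∂μ i - ∫ x in K' (N i), f x ∂μ i) 𝒰 (𝓝 0) := by
      have h3 : Tendsto (fun i => ‖f‖ * (u (N i) : ℝ)) 𝒰 (𝓝 0) := by
        have := ((NNReal.tendsto_coe.2 hu).comp hN).const_mul ‖f‖
        simpa using this
      refine squeeze_zero_norm (fun i => ?_) h3
      refine (weak2_restrict (μ i) (hKc _).measurableSet f).trans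
        (mul_le_mul_of_nonneg_left ?_ (norm_nonneg _))
      have h4 : μ i (K' (N i))ᶜ ≤ u (N i) :=
        (measure_mono (Set.compl_subset_compl.2 (hKK _))).trans (hPN i _ le_rfl)
      exact ENNReal.toReal_le_coe_of_le_coe h4
    have h5 := h2.add h1
    rw [zero_add] at h5
    refine h5.congr fun i => ?_
    exact sub_add_cancel _ _
  refine ⟨ν, ⟨?_⟩, hW⟩
  have h1 := hW 1
  simp only [BoundedContinuousFunction.coe_one, Pi.one_apply, integral_const, probReal_univ,
    smul_eq_mul, mul_one] at h1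
  have h2 : (ν : Measure W).real Set.univ = 1 := tendsto_nhds_unique h1 tendsto_const_nhds
  exact (ENNReal.toReal_eq_one_iff _).1 h2

/-- A weakly convergent sequence of probability measures is tight. -/
theorem weak2_tight (μ : ℕ → Measure W) [∀ i, IsProbabilityMeasure (μ i)] (m : Measure W)
    [IsProbabilityMeasure m] (h : WT atTop μ m) {ε : ℝ≥0∞} (hε : 0 < ε) :
    ∃ K : Set W, IsCompact K ∧ ∀ i, μ i Kᶜ ≤ ε := by
  let _ := TopologicalSpace.upgradeIsCompletelyMetrizable W
  let P : ℕ → ProbabilityMeasure W := fun i => ⟨μ i, inferInstance⟩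
  let M : ProbabilityMeasure W := ⟨m, inferInstance⟩
  have hP : Tendsto P atTop (𝓝 M) :=
    ProbabilityMeasure.tendsto_iff_forall_integral_tendsto.2 h
  have hc := hP.isCompact_insert_range
  have ht := isTightMeasureSet_of_isCompact_closure (S := insert M (Set.range P))
    (by rwa [hc.isClosed.closure_eq])
  obtain ⟨K, hK, hK'⟩ := isTightMeasureSet_iff_exists_isCompact_measure_compl_le.1 ht ε hε
  exact ⟨K, hK, fun i => hK' _ ⟨P i, Or.inr ⟨i, rfl⟩, rfl⟩⟩

/-- Finite measures on a finite power are determined by the integrals of products. -/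
theorem weak2_ext {ι : Type} [Fintype ι] {ν ν' : Measure (ι → W)} [IsFiniteMeasure ν]
    [IsFiniteMeasure ν']
    (h : ∀ f : ι → (W →ᵇ ℝ), ∫ x, ∏ k, f k (x k) ∂ν = ∫ x, ∏ k, f k (x k) ∂ν') : ν = ν' := by
  have key : ν.prod (Measure.dirac ()) = ν'.prod (Measure.dirac ()) := by
    refine Measure.ext_of_integral_prod_mul_boundedContinuousFunction fun f g => ?_
    rw [integral_prod_mul (fun x : ι → W => ∏ k, f k (x k)) g,
      integral_prod_mul (fun x : ι → W => ∏ k, f k (x k)) g, h f]
  rw [← Measure.fst_prod (μ := ν) (ν := Measure.dirac ()), key, Measure.fst_prod]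

/-- Convergence against products of functions of one coordinate gives weak convergence. -/
theorem WT_of_prod {ι : Type} [Fintype ι] (m : Measure W) [IsProbabilityMeasure m]
    (μ : ℕ → Measure (ι → W)) [∀ i, IsProbabilityMeasure (μ i)]
    (h : ∀ f : ι → (W →ᵇ ℝ), Tendsto (fun i => ∫ x, ∏ k, f k (x k) ∂μ i) atTop
      (𝓝 (∏ k, ∫ x, f k x ∂m))) : WT atTop μ (Measure.pi fun _ => m) := by
  classical
  have hmarg : ∀ k : ι, WT atTop (fun i => (μ i).map fun x => x k) m := by
    intro k f
    have h1 := h (Function.update (fun _ => 1) k f)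
    have e1 : ∀ x : ι → W,
        ∏ j, (Function.update (fun _ => (1 : W →ᵇ ℝ)) k f) j (x j) = f (x k) := by
      intro x
      rw [Finset.prod_eq_single k]
      · rw [Function.update_self]
      · intro j _ hj
        rw [Function.update_of_ne hj]; rfl
      · intro hk
        exact (hk (Finset.mem_univ _)).elim
    have e2 : ∏ j, ∫ x, (Function.update (fun _ => (1 : W →ᵇ ℝ)) k f) j x ∂m = ∫ x, f x ∂m := by
      rw [Finset.prod_eq_single k]
      · rw [Function.update_self]
      · intro j _ hj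
        rw [Function.update_of_ne hj]; simp
      · intro hk
        exact (hk (Finset.mem_univ _)).elim
    rw [e2] at h1
    refine h1.congr fun i => ?_
    rw [integral_map (measurable_pi_apply k).aemeasurable f.continuous.aestronglyMeasurable]
    simp only [e1]
  have htight : ∀ ε : ℝ≥0∞, 0 < ε → ∃ K : Set (ι → W), IsCompact K ∧ ∀ i, μ i Kᶜ ≤ ε := by
    intro ε hε
    have hprob : ∀ k i, IsProbabilityMeasure ((μ i).map fun x => x k) := fun k i =>
      Measure.isProbabilityMeasure_map (measurable_pi_apply k).aemeasurable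
    have hε' : 0 < ε / (Fintype.card ι : ℝ≥0∞) :=
      ENNReal.div_pos hε.ne' (ENNReal.natCast_ne_top _)
    choose K hK hK' using fun k => weak2_tight _ m (hmarg k) hε'
    refine ⟨Set.pi Set.univ K, isCompact_univ_pi hK, fun i => ?_⟩
    have hsub : (Set.pi Set.univ K)ᶜ ⊆ ⋃ k, (fun x : ι → W => x k) ⁻¹' (K k)ᶜ := by
      intro x hx
      by_contra hcon
      refine hx fun k _ => ?_
      by_contra hk
      exact hcon (Set.mem_iUnion.2 ⟨k, hk⟩)
    refine (measure_mono hsub).trans ((measure_iUnion_fintype_le _ _).trans ?_)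
    have h1 : ∀ k, μ i ((fun x : ι → W => x k) ⁻¹' (K k)ᶜ) ≤ ε / (Fintype.card ι : ℝ≥0∞) := by
      intro k
      rw [← Measure.map_apply (measurable_pi_apply k) (hK k).measurableSet.compl]
      exact hK' k i
    refine (Finset.sum_le_sum fun k _ => h1 k).trans ?_
    rw [Finset.sum_const, Finset.card_univ, nsmul_eq_mul]
    exact ENNReal.mul_div_le
  intro f
  rw [tendsto_iff_ultrafilter]
  intro 𝒰 h𝒰
  obtain ⟨ν, hν, hW⟩ := exists_WT 𝒰 h𝒰 μ fun ε hε => by
    obtain ⟨K, hK, hK'⟩ := htight ε hε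
    exact ⟨K, hK, Eventually.of_forall hK'⟩
  have e : ν = Measure.pi fun _ => m := by
    refine weak2_ext fun g => ?_
    rw [integral_fintype_prod_eq_prod (fun k x => g k x)]
    refine tendsto_nhds_unique ?_ ((h g).mono_left h𝒰)
    have h1 := hW (∏ k, (g k).compContinuous ⟨fun x : ι → W => x k, continuous_apply k⟩)
    simpa using h1
  rw [← e]
  exact hW f

end Pool.Agent.EQ
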