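import Pool.Agent.P.MP_ad7a55_nt.AtA
import Pool.Agent.P.MP_ad7a55_nt.Weak2

/-! Atoms of the transverse measure. -/

set_option autoImplicit false

noncomputable section

open MeasureTheory Topology Filter UpperHalfPlane
open scoped MatrixGroups ENNReal BoundedContinuousFunction

namespace Pool.Agent.EQ

theorem atb_meas (g : SL(2, ℝ)) : Measurable fun y : YY => g • y :=
  (continuous_const_smul g).measurable

/-- An atom of a finite invariant measure is periodic. -/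
theorem atb_per (μ : Measure YY) [IsFiniteMeasure μ] {g : SL(2, ℝ)}
    (hg : μ.map (fun y => g • y) = μ) {y : YY} (hy : μ {y} ≠ 0) :
    ∃ M : ℕ, 0 < M ∧ g ^ M • y = y := by
  have h1 : ∀ n : ℕ, μ {g ^ n • y} = μ {y} := fun n => by
    induction n with
    | zero => simp
    | succ n ih =>
      rw [← ih]
      conv_lhs => rw [← hg]
      rw [Measure.map_apply (atb_meas g) (measurableSet_singleton _)]
      congr 1
      ext z
      simp [pow_succ', mul_smul]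
  by_contra hn
  have h2 : ∀ m n : ℕ, m < n → g ^ m • y ≠ g ^ n • y := fun m n h e => by
    obtain ⟨k, rfl⟩ := Nat.exists_eq_add_of_lt h
    refine hn ⟨k + 1, k.succ_pos, ?_⟩
    rw [add_assoc, pow_add, mul_smul] at e
    exact (smul_left_cancel _ e).symm
  have h3 := Measure.finite_const_le_meas_of_disjoint_iUnion μ (pos_iff_ne_zero.2 hy)
    (As := fun n : ℕ => {g ^ n • y}) (fun n => measurableSet_singleton _)
    (fun m n h => Set.disjoint_singleton.2 fun e => h (Function.Injective.of_lt_imp_ne h2 e))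
    (measure_ne_top _ _)
  exact Set.infinite_univ (h3.subset fun n _ => (h1 n).ge)

/-- Thin annuli around the diagonal have small measure. -/
theorem atb_ann (ν : Measure (YY × YY)) [IsFiniteMeasure ν] {Ω : Set YY} (hΩ : IsCompact Ω)
    {ε : ℝ≥0∞} (hε : 0 < ε) : ∃ R : ℝ, 0 < R ∧ ∀ r R', 0 < r → R' ≤ R → ν (Ann Ω r R') < ε := by
  obtain ⟨r₀, hr₀, hinj⟩ := exists_inj hΩ
  let E : ℕ → Set (YY × YY) := fun m => ⋃ n : ℕ, Ann Ω (1 / ((n : ℝ) + 1)) (1 / ((m : ℝ) + 1))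
  have hanti : Antitone E := fun m m' h => Set.iUnion_mono fun n w ⟨h1, δ, h2, h3, h4⟩ =>
    ⟨h1, δ, h2, h3.trans (Nat.one_div_le_one_div h), h4⟩
  have hE : ⋂ m, E m = ∅ := by
    refine Set.eq_empty_of_forall_notMem fun w hw => ?_
    obtain ⟨m, hm⟩ := exists_nat_one_div_lt hr₀
    obtain ⟨n, h1, δ, h2, h3, h4⟩ := Set.mem_iUnion.1 (Set.mem_iInter.1 hw m)
    obtain ⟨m', hm'⟩ := exists_nat_one_div_lt (Nat.one_div_pos_of_nat.trans_le h2)
    obtain ⟨n', -, δ', -, h5, h6⟩ := Set.mem_iUnion.1 (Set.mem_iInter.1 hw m')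
    have h7 := h5.trans_lt hm'
    have := hinj _ h1 δ δ' (h3.trans hm.le) (h7.le.trans (h3.trans hm.le)) (h4.symm.trans h6)
    rw [this] at h7
    exact lt_irrefl _ h7
  have ht := tendsto_measure_iInter_atTop (μ := ν) (s := E) (fun m => (MeasurableSet.iUnion
    fun n => (isCompact_Ann hΩ _ _).measurableSet).nullMeasurableSet) hanti
    ⟨0, measure_ne_top _ _⟩
  rw [hE, measure_empty] at ht
  obtain ⟨m, hm⟩ := (ht.eventually (gt_mem_nhds hε)).exists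
  refine ⟨_, Nat.one_div_pos_of_nat (n := m), fun r R' hr hR => lt_of_le_of_lt (measure_mono ?_) hm⟩
  obtain ⟨n, hn⟩ := exists_nat_one_div_lt hr
  rintro w ⟨h1, δ, h2, h3, h4⟩
  exact Set.mem_iUnion.2 ⟨n, h1, δ, hn.le.trans h2, h3.trans hR, h4⟩

section level

variable {𝒦 : Type} [Group 𝒦] [TopologicalSpace 𝒦] [IsTopologicalGroup 𝒦]
  [MeasurableSpace 𝒦] [BorelSpace 𝒦] (τ : Measure (𝒦 × YY)) {N : Subgroup 𝒦}

/-- The part of the measure over one coset. -/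
def atbT (N : Subgroup 𝒦) (q : 𝒦 ⧸ N) : Measure YY :=
  (τ.restrict ((fun w => (w.1 : 𝒦 ⧸ N)) ⁻¹' {q})).map Prod.snd

instance atbFin [IsFiniteMeasure τ] (q : 𝒦 ⧸ N) : IsFiniteMeasure (atbT τ N q) := by
  unfold atbT
  infer_instance

theorem atb_coset (hN : IsOpen (N : Set 𝒦)) (q : 𝒦 ⧸ N) :
    MeasurableSet ((fun k : 𝒦 => (k : 𝒦 ⧸ N)) ⁻¹' {q}) := by
  have := QuotientGroup.discreteTopology_iff.2 hN
  exact ((isOpen_discrete {q}).preimage QuotientGroup.continuous_mk).measurableSet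

omit [TopologicalSpace 𝒦] [IsTopologicalGroup 𝒦] [BorelSpace 𝒦] in
theorem atb_apply (q : 𝒦 ⧸ N) {A : Set YY} (hA : MeasurableSet A) :
    atbT τ N q A = τ (Prod.snd ⁻¹' A ∩ (fun w => (w.1 : 𝒦 ⧸ N)) ⁻¹' {q}) := by
  rw [atbT, Measure.map_apply measurable_snd hA, Measure.restrict_apply (measurable_snd hA)]

theorem atb_sum [Fintype (𝒦 ⧸ N)] (hN : IsOpen (N : Set 𝒦)) (S : Set (𝒦 × YY)) :
    ∑ q : 𝒦 ⧸ N, τ.restrict S ((fun w => (w.1 : 𝒦 ⧸ N)) ⁻¹' {q}) = τ S := by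
  rw [sum_measure_preimage_singleton (f := fun w : 𝒦 × YY => (w.1 : 𝒦 ⧸ N)) _
    fun q _ => measurable_fst (atb_coset hN q)]
  simp

theorem atb_sum' [Fintype (𝒦 ⧸ N)] (hN : IsOpen (N : Set 𝒦)) {A : Set YY} (hA : MeasurableSet A) :
    ∑ q : 𝒦 ⧸ N, atbT τ N q A = τ.snd A := by
  rw [Measure.snd_apply hA, ← atb_sum τ hN]
  refine Finset.sum_congr rfl fun q _ => ?_
  rw [atb_apply τ q hA, Measure.restrict_apply' (measurable_snd hA), Set.inter_comm]

theorem atb_mass [Fintype (𝒦 ⧸ N)] [IsProbabilityMeasure τ] (hN : IsOpen (N : Set 𝒦))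
    (hl : τ.fst.IsMulLeftInvariant) (q : 𝒦 ⧸ N) :
    (Fintype.card (𝒦 ⧸ N) : ℝ≥0∞) * atbT τ N q Set.univ = 1 := by
  have h1 : ∀ q : 𝒦 ⧸ N, atbT τ N q Set.univ = atbT τ N ((1 : 𝒦) : 𝒦 ⧸ N) Set.univ := fun q => by
    obtain ⟨g, rfl⟩ := QuotientGroup.mk_surjective q
    have e : ∀ q : 𝒦 ⧸ N, atbT τ N q Set.univ = τ.fst ((fun k : 𝒦 => (k : 𝒦 ⧸ N)) ⁻¹' {q}) :=
      fun q => by
        rw [atb_apply τ q MeasurableSet.univ, Measure.fst_apply (atb_coset hN q)]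
        simp only [Set.preimage_univ, Set.univ_inter]
        rfl
    rw [e, e, ← measure_preimage_mul τ.fst g]
    congr 1
    ext k
    simp [QuotientGroup.eq]
  have h2 := atb_sum' τ hN MeasurableSet.univ
  rw [Finset.sum_congr rfl fun q' _ => (h1 q').trans (h1 q).symm] at h2
  simpa using h2

theorem atb_map [N.Normal] (hN : IsOpen (N : Set 𝒦)) {a : 𝒦} {v : SL(2, ℝ)}
    (ha : τ.map (fun w => (w.1 * a, v • w.2)) = τ) (q : 𝒦 ⧸ N) :
    (atbT τ N q).map (fun y => v • y) = atbT τ N (q * a) := by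
  ext A hA
  rw [Measure.map_apply (atb_meas v) hA, atb_apply τ q (atb_meas v hA), atb_apply τ _ hA]
  conv_rhs => rw [← ha]
  have hm : Measurable fun w : 𝒦 × YY => (w.1 * a, v • w.2) :=
    (measurable_fst.mul_const a).prodMk ((atb_meas v).comp measurable_snd)
  have hs : MeasurableSet (Prod.snd ⁻¹' A ∩ (fun w : 𝒦 × YY => (w.1 : 𝒦 ⧸ N)) ⁻¹' {q * a}) :=
    (measurable_snd hA).inter (measurable_fst (atb_coset hN _))
  rw [Measure.map_apply hm hs]
  congr 1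
  ext w
  simp

theorem atb_pow [N.Normal] (hN : IsOpen (N : Set 𝒦)) {a : 𝒦} {v : SL(2, ℝ)}
    (ha : τ.map (fun w => (w.1 * a, v • w.2)) = τ) (q : 𝒦 ⧸ N) (n : ℕ) :
    (atbT τ N q).map (fun y => v ^ n • y) = atbT τ N (q * (a : 𝒦 ⧸ N) ^ n) := by
  induction n with
  | zero => simp
  | succ n ih =>
    rw [pow_succ (a : 𝒦 ⧸ N), ← mul_assoc, ← atb_map τ hN ha, ← ih,
      Measure.map_map (atb_meas _) (atb_meas _)]
    congr 1
    ext y
    simp [pow_succ', mul_smul]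

/-- The self-joining of the measure over a finite quotient. -/
theorem atb_level [PolishSpace 𝒦] [CompactSpace 𝒦] [IsProbabilityMeasure τ]
    (hl : τ.fst.IsMulLeftInvariant)
    (N : Subgroup 𝒦) [N.Normal] (hN : IsOpen (N : Set 𝒦)) : ∃ σ : Measure (YY × YY),
    (∀ A, MeasurableSet A → σ (A ×ˢ Set.univ) = τ.snd A ∧ σ (Set.univ ×ˢ A) = τ.snd A) ∧
    (∀ (a : 𝒦) (v : SL(2, ℝ)), τ.map (fun w => (w.1 * a, v • w.2)) = τ →
      σ.map (fun w => (v • w.1, v • w.2)) = σ) ∧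
    (∀ (S : Set (𝒦 × YY)) (W : Set (YY × YY)), IsCompact S →
      (∀ w ∈ S, ∀ w' ∈ S, w.1⁻¹ * w'.1 ∈ N → (w.2, w'.2) ∈ W) → τ S ^ 2 ≤ σ W) ∧
    (σ (Set.diagonal YY) ≠ 0 → ∃ y, τ.snd {y} ≠ 0 ∧ ∀ (a : 𝒦) (v : SL(2, ℝ)),
      τ.map (fun w => (w.1 * a, v • w.2)) = τ → ∃ M : ℕ, 0 < M ∧ v ^ M • y = y) := by
  have := N.quotient_finite_of_isOpen hN
  have := Fintype.ofFinite (𝒦 ⧸ N)
  refine ⟨(Fintype.card (𝒦 ⧸ N) : ℝ≥0∞) • ∑ q, (atbT τ N q).prod (atbT τ N q), fun A hA => ?_,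
    fun a v ha => ?_, fun S W hS hW => ?_, fun h => ?_⟩
  · simp only [Measure.smul_apply, Measure.finsetSum_apply, Measure.prod_prod, smul_eq_mul,
      Finset.mul_sum, ← atb_sum' τ hN hA]
    refine ⟨Finset.sum_congr rfl fun q _ => ?_, Finset.sum_congr rfl fun q _ => ?_⟩
    · rw [mul_left_comm, atb_mass τ hN hl, mul_one]
    · rw [← mul_assoc, atb_mass τ hN hl, one_mul]
  · have hm : Measurable (Prod.map (fun y : YY => v • y) fun y : YY => v • y) :=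
      (atb_meas v).prodMap (atb_meas v)
    change Measure.map (Prod.map (fun y : YY => v • y) fun y : YY => v • y) _ = _
    rw [Measure.map_smul, Measure.map_finset_sum hm.aemeasurable]
    congr 1
    refine Fintype.sum_equiv (Equiv.mulRight (a : 𝒦 ⧸ N)) _ _ fun q => ?_
    rw [← Measure.map_prod_map _ _ (atb_meas v) (atb_meas v), atb_map τ hN ha]
    rfl
  · let c : 𝒦 ⧸ N → ℝ≥0∞ := fun q => τ.restrict S ((fun w => (w.1 : 𝒦 ⧸ N)) ⁻¹' {q})
    have hc : ∀ q, c q ≠ ∞ := fun q => measure_ne_top _ _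
    have h1 := ENNReal.coe_le_coe.2 (sq_sum_le_card_mul_sum_sq (s := Finset.univ)
      (f := fun q => (c q).toNNReal))
    push_cast at h1
    simp only [ENNReal.coe_toNNReal (hc _)] at h1
    rw [← atb_sum τ hN S, Measure.smul_apply, Measure.finsetSum_apply, smul_eq_mul]
    refine h1.trans (mul_le_mul_right (Finset.sum_le_sum fun q _ => ?_) _)
    have := QuotientGroup.discreteTopology_iff.2 hN
    let B : Set YY := Prod.snd '' (S ∩ (fun w => (w.1 : 𝒦 ⧸ N)) ⁻¹' {q})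
    have hB : MeasurableSet B := ((hS.inter_right ((isClosed_discrete {q}).preimage
      (QuotientGroup.continuous_mk.comp continuous_fst))).image continuous_snd).measurableSet
    have h2 : c q ≤ atbT τ N q B := by
      simp only [c]
      rw [atb_apply τ q hB, Measure.restrict_apply' hS.measurableSet]
      exact measure_mono fun w hw => ⟨⟨w, ⟨hw.2, hw.1⟩, rfl⟩, hw.1⟩
    rw [sq]
    refine (mul_le_mul' h2 h2).trans ((Measure.prod_prod _ _).ge.trans (measure_mono ?_))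
    rintro ⟨_, _⟩ ⟨⟨w, ⟨w1, w2⟩, rfl⟩, ⟨w', ⟨w3, w4⟩, rfl⟩⟩
    exact hW w w1 w' w3 (QuotientGroup.eq.1 (w2.trans w4.symm))
  · rw [Measure.smul_apply, Measure.finsetSum_apply] at h
    obtain ⟨q, -, hq⟩ := Finset.exists_ne_zero_of_sum_ne_zero (right_ne_zero_of_smul h)
    rw [Measure.prod_apply isClosed_diagonal.measurableSet] at hq
    have hy : ∃ y, atbT τ N q {y} ≠ 0 := by
      by_contra h1
      push Not at h1
      refine hq (lintegral_eq_zero_of_ae_eq_zero (Eventually.of_forall fun y => ?_))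
      refine Eq.trans (congrArg _ ?_) (h1 y)
      ext z
      simp [eq_comm]
    obtain ⟨y, hy⟩ := hy
    refine ⟨y, fun h1 => hy ?_, fun a v ha => ?_⟩
    · rw [← atb_sum' τ hN (measurableSet_singleton y), Finset.sum_eq_zero_iff] at h1
      exact h1 q (Finset.mem_univ _)
    · have h2 := atb_pow τ hN ha q (Fintype.card (𝒦 ⧸ N))
      rw [pow_card_eq_one, mul_one] at h2
      obtain ⟨M, h3, h4⟩ := atb_per _ h2 hy
      exact ⟨_, Nat.mul_pos Fintype.card_pos h3, by rwa [pow_mul]⟩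

end level

theorem atb_mul {g : SL(2, ℝ)} {y : YY} (h : g • y = y) (n : ℕ) : g ^ n • y = y := by
  induction n with
  | zero => simp
  | succ n ih => rw [pow_succ, mul_smul, h, ih]

theorem atom {𝒦 : Type} [Group 𝒦] [TopologicalSpace 𝒦] [IsTopologicalGroup 𝒦] [CompactSpace 𝒦]
    [TotallyDisconnectedSpace 𝒦] [PolishSpace 𝒦] [MeasurableSpace 𝒦] [BorelSpace 𝒦]
    (τ : Measure (𝒦 × YY)) [IsProbabilityMeasure τ] (hl : τ.fst.IsMulLeftInvariant) (a b : 𝒦)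
    {v v' : SL(2, ℝ)} (hv : Unip v) (hv' : Unip v')
    (hc : ∀ δ : SL(2, ℝ), δ * v = v * δ → δ * v' = v' * δ → δ = 1 ∨ δ = -1)
    (ha : τ.map (fun w => (w.1 * a, v • w.2)) = τ) (hb : τ.map (fun w => (w.1 * b, v' • w.2)) = τ)
    {C : Set (𝒦 × YY)} (hC : MeasurableSet C) (h0 : τ C ≠ 0)
    (h1 : ∀ k y y', (k, y) ∈ C → (k, y') ∈ C → y = y') :
    ∃ y : YY, τ (Set.univ ×ˢ {y}) ≠ 0 ∧ ∃ N : ℕ, 0 < N ∧ v ^ N • y = y ∧ v' ^ N • y = y := by
  obtain ⟨S, hSC, hS, hS0⟩ := hC.exists_lt_isCompact (pos_iff_ne_zero.2 h0)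
  obtain ⟨ε, hε, hε'⟩ := ENNReal.exists_nnreal_pos_mul_lt (a := 8) (by simp)
    (pow_ne_zero 2 hS0.ne')
  replace hε : (0 : ℝ≥0∞) < ε := by exact_mod_cast hε
  obtain ⟨V, hV⟩ := (𝓝 (1 : 𝒦)).exists_antitone_basis
  choose N hN using fun i => ProfiniteGrp.exist_openNormalSubgroup_sub_open_nhds_of_one
    (isOpen_interior (s := V i)) (mem_interior_iff_mem_nhds.2 (hV.mem i))
  choose σ s1 s2 s3 s4 using fun i => atb_level τ hl (N i).toSubgroup (N i).isOpen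
  have hp : ∀ i, IsProbabilityMeasure (σ i) := fun i => ⟨by
    rw [← Set.univ_prod_univ, (s1 i _ MeasurableSet.univ).1, measure_univ]⟩
  have hex : ∃ i, σ i (Set.diagonal YY) ≠ 0 := by
    by_contra hd
    push Not at hd
    have ht : ∀ η : ℝ≥0∞, η ≠ 0 → ∃ Ω, IsCompact Ω ∧ τ.snd Ωᶜ ≤ η := fun η hη => by
      obtain ⟨Ω, -, o1, o2⟩ := MeasurableSet.univ.exists_isCompact_sdiff_lt
        (measure_ne_top τ.snd _) hη
      exact ⟨Ω, o1, by rw [Set.compl_eq_univ_sdiff]; exact o2.le⟩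
    obtain ⟨ν, hν, hW⟩ := exists_WT (hyperfilter ℕ) Nat.hyperfilter_le_atTop σ fun η hη => by
      obtain ⟨Ω, o1, o2⟩ := ht (η / 2) (ENNReal.half_pos hη.ne').ne'
      refine ⟨Ω ×ˢ Ω, o1.prod o1, Eventually.of_forall fun i => ?_⟩
      rw [Set.compl_prod_eq_union, ← ENNReal.add_halves η]
      refine (measure_union_le _ _).trans ?_
      rw [(s1 i _ o1.measurableSet.compl).1, (s1 i _ o1.measurableSet.compl).2]
      exact add_le_add o2 o2
    obtain ⟨Ω, o1, o2⟩ := ht ε hε.ne'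
    obtain ⟨R, hR, hA⟩ := atb_ann ν o1 hε
    obtain ⟨C₁, c1, n1⟩ := near_diag hv
    obtain ⟨C₂, c2, n2⟩ := near_diag hv'
    obtain ⟨r, r0, r1, r2, r3⟩ : ∃ r : ℝ, 0 < r ∧ r ≤ 1 ∧ C₁ * r ≤ R ∧ C₂ * r ≤ R := by
      have h2 : 0 < C₁ + C₂ := by linarith
      have h3 : (C₁ + C₂) * min 1 (R / (C₁ + C₂)) ≤ R :=
        (le_div_iff₀' h2).1 (min_le_right _ _)
      have h4 : 0 < min 1 (R / (C₁ + C₂)) := by positivity
      exact ⟨_, h4, min_le_left _ _, by nlinarith, by nlinarith⟩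
    let W : Set (YY × YY) := {w | ∃ δ, dev δ < r ∧ w.2 = δ • w.1}
    have hK : IsCompact ((fun x : (𝒦 × YY) × 𝒦 × YY => x.1.1⁻¹ * x.2.1) ''
        (S ×ˢ S ∩ (fun x => (x.1.2, x.2.2)) ⁻¹' Wᶜ)) :=
      ((hS.prod hS).inter_right ((isOpen_near r).isClosed_compl.preimage (by fun_prop))).image
        (by fun_prop)
    have hn := hK.isClosed.isOpen_compl.mem_nhds (x := 1) (by
      rintro ⟨⟨⟨k, y⟩, k', y'⟩, ⟨⟨x1, x2⟩, x3⟩, x4⟩
      obtain rfl : k = k' := inv_mul_eq_one.1 x4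
      obtain rfl := h1 k y y' (hSC x1) (hSC x2)
      exact x3 ⟨1, by rwa [dev_eq_zero.2 rfl], (one_smul _ _).symm⟩)
    obtain ⟨i, i1, i2, i3⟩ := (((hV.eventually_subset hn).filter_mono
      Nat.hyperfilter_le_atTop).and
      ((hW.closed_lt (isCompact_Ann o1 _ _).isClosed (hA r _ r0 r2)).and
        (hW.closed_lt (isCompact_Ann o1 _ _).isClosed (hA r _ r0 r3)))).exists
    have e1 := s3 i S W hS fun w w1 w' w2 w3 => by
      by_contra w4
      exact i1 (interior_subset (hN i w3)) ⟨(w, w'), ⟨⟨w1, w2⟩, w4⟩, rfl⟩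
    have e2 := n1 (σ i) (s2 i a v ha) Ω o1 r r0 r1
    have e3 := n2 (σ i) (s2 i b v' hb) Ω o1 r r0 r1
    rw [(s1 i _ o1.measurableSet.compl).1] at e2 e3
    have e4 : W ⊆ ({w | ∃ δ, dev δ < r ∧ δ * v ≠ v * δ ∧ w.2 = δ • w.1} ∪
        {w | ∃ δ, dev δ < r ∧ δ * v' ≠ v' * δ ∧ w.2 = δ • w.1}) ∪ Set.diagonal YY := by
      rintro w ⟨δ, d1, d2⟩
      by_cases d3 : δ * v = v * δ
      · by_cases d4 : δ * v' = v' * δ
        · refine Or.inr ?_
          rcases hc δ d3 d4 with rfl | rfl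
          · exact (d2.trans (one_smul _ _)).symm
          · exact (d2.trans (neg_one_smul_YY _)).symm
        · exact Or.inl (Or.inr ⟨δ, d1, d4, d2⟩)
      · exact Or.inl (Or.inl ⟨δ, d1, d3, d2⟩)
    have e5 := (measure_mono (μ := σ i) e4).trans ((measure_union_le _ _).trans
      (add_le_add_left (measure_union_le _ _) _))
    rw [hd i, add_zero] at e5
    refine hε'.not_ge (e1.trans (e5.trans ((add_le_add e2 e3).trans ?_)))
    calc _ ≤ 2 * ((ε : ℝ≥0∞) + ε) + 2 * (ε + ε) := by gcongr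
      _ = _ := by ring
  obtain ⟨i, hi⟩ := hex
  obtain ⟨y, y1, y2⟩ := s4 i hi
  obtain ⟨M, m1, m2⟩ := y2 a v ha
  obtain ⟨M', m3, m4⟩ := y2 b v' hb
  refine ⟨y, ?_, M * M', Nat.mul_pos m1 m3, ?_, ?_⟩
  · rwa [Measure.snd_apply (measurableSet_singleton y), ← Set.univ_prod] at y1
  · rw [pow_mul]
    exact atb_mul m2 _
  · rw [mul_comm, pow_mul]
    exact atb_mul m4 _

end Pool.Agent.EQ
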