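import Pool.Agent.P.MP_ad7a55_nt.Ord2

/-! Automorphisms of ℂ. -/

set_option autoImplicit false

noncomputable section

open MeasureTheory Topology Filter UpperHalfPlane
open scoped MatrixGroups ENNReal BoundedContinuousFunction

namespace Pool.Agent.EQ

theorem aut_aux {R K L : Type} [CommRing R] [Nontrivial R] [Field K] [Field L] [Algebra R K]
    [Algebra R L] [IsAlgClosed K] [IsAlgClosed L] (iK : Function.Injective (algebraMap R K))
    (iL : Function.Injective (algebraMap R L)) (hR : Cardinal.mk R ≤ Cardinal.aleph0)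
    (hK : Cardinal.aleph0 < Cardinal.mk K) (hKL : Cardinal.mk K = Cardinal.mk L) :
    ∃ σ : K ≃+* L, ∀ a, σ (algebraMap R K a) = algebraMap R L a := by
  haveI : FaithfulSMul R K := (faithfulSMul_iff_algebraMap_injective R K).2 iK
  haveI : FaithfulSMul R L := (faithfulSMul_iff_algebraMap_injective R L).2 iL
  obtain ⟨s, hs⟩ := exists_isTranscendenceBasis R K
  obtain ⟨t, ht⟩ := exists_isTranscendenceBasis R L
  have h1 := IsAlgClosed.cardinal_eq_cardinal_transcendence_basis_of_aleph0_lt' _ hs hR hK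
  have h2 := IsAlgClosed.cardinal_eq_cardinal_transcendence_basis_of_aleph0_lt' _ ht hR (hKL ▸ hK)
  obtain ⟨e⟩ : Nonempty (s ≃ t) := Cardinal.eq.1 (h1.symm.trans (hKL.trans h2))
  letI := IsAlgClosed.isAlgClosure_of_transcendence_basis _ hs
  letI := IsAlgClosed.isAlgClosure_of_transcendence_basis _ ht
  let e' : Algebra.adjoin R (Set.range ((↑) : s → K)) ≃ₐ[R]
      Algebra.adjoin R (Set.range ((↑) : t → L)) :=
    hs.1.aevalEquiv.symm.trans ((MvPolynomial.renameEquiv R e).trans ht.1.aevalEquiv)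
  refine ⟨IsAlgClosure.equivOfEquiv K L e'.toRingEquiv, fun a => ?_⟩
  rw [IsScalarTower.algebraMap_apply R (Algebra.adjoin R (Set.range ((↑) : s → K))) K a,
    IsAlgClosure.equivOfEquiv_algebraMap]
  have : e'.toRingEquiv (algebraMap R _ a) = algebraMap R _ a := e'.commutes a
  rw [this, ← IsScalarTower.algebraMap_apply]

theorem aut_ring {A : Type} [CommRing A] [Nontrivial A] (hA : Cardinal.mk A ≤ Cardinal.aleph0)
    (φ ψ : A →+* ℂ) (hφ : Function.Injective φ) (hψ : Function.Injective ψ) :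
    ∃ σ : ℂ ≃+* ℂ, ∀ a, σ (φ a) = ψ a := by
  have hC : Cardinal.aleph0 < Cardinal.mk ℂ := by
    rw [Cardinal.mk_complex]; exact Cardinal.aleph0_lt_continuum
  exact @aut_aux A ℂ ℂ _ _ _ _ φ.toAlgebra ψ.toAlgebra _ _ hφ hψ hA hC rfl

/-- Two embeddings of a countable field differ by an automorphism of `ℂ`. -/
theorem exists_aut {A : Type} [Field A] [Countable A] (φ ψ : A →+* ℂ) :
    ∃ σ : ℂ ≃+* ℂ, ∀ a, σ (φ a) = ψ a :=
  aut_ring Cardinal.mk_le_aleph0 φ ψ φ.injective ψ.injective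

theorem exists_aut_transc {x y : ℂ} (hx : Transcendental ℚ x) (hy : Transcendental ℚ y) :
    ∃ σ : ℂ ≃+* ℂ, σ x = y := by
  have hA : Cardinal.mk (Polynomial ℚ) ≤ Cardinal.aleph0 := by
    refine Polynomial.cardinalMk_le_max.trans ?_
    simp
  obtain ⟨σ, hσ⟩ := aut_ring hA (Polynomial.aeval x : Polynomial ℚ →ₐ[ℚ] ℂ).toRingHom
    (Polynomial.aeval y : Polynomial ℚ →ₐ[ℚ] ℂ).toRingHom
    (transcendental_iff_injective.1 hx) (transcendental_iff_injective.1 hy)
  refine ⟨σ, ?_⟩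
  simpa using hσ Polynomial.X

theorem algebraic_of_finite_orbit {x : ℂ} (h : {y | ∃ σ : ℂ ≃+* ℂ, σ x = y}.Finite) :
    IsAlgebraic ℚ x := by
  by_contra hx
  have hx' : Transcendental ℚ x := hx
  refine h.not_infinite (Set.infinite_of_injective_forall_mem (f := fun n : ℕ => x + n) ?_ ?_)
  · intro a b hab
    simpa using hab
  · intro n
    refine exists_aut_transc hx' fun hn => hx ?_
    have h2 : IsAlgebraic ℚ ((n : ℕ) : ℂ) := isAlgebraic_natCast n
    simpa using hn.sub h2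

/-- `σ` fixes all algebraic numbers of degree at most `d`. -/
def FixD (d : ℕ) (σ : ℂ ≃+* ℂ) : Prop :=
  ∀ (x : ℂ) (P : Polynomial ℚ), P ≠ 0 → P.natDegree ≤ d → Polynomial.aeval x P = 0 → σ x = x

theorem aut_root (σ : ℂ ≃+* ℂ) {x : ℂ} {P : Polynomial ℚ} (h : Polynomial.aeval x P = 0) :
    Polynomial.aeval (σ x) P = 0 := by
  have := Polynomial.aeval_algHom_apply (σ.toRingHom.toRatAlgHom) x P
  rw [h, map_zero] at this
  exact this

theorem aut_pow_fix (σ : ℂ ≃+* ℂ) {x : ℂ} {k : ℕ} (h : (σ ^ k) x = x) (m : ℕ) :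
    (σ ^ (k * m)) x = x := by
  induction m with
  | zero => simp only [mul_zero, pow_zero]; rfl
  | succ m ih =>
    rw [mul_add, mul_one, pow_add]
    change (σ ^ (k * m)) ((σ ^ k) x) = x
    rw [h, ih]

theorem fixD_pow (d : ℕ) (σ : ℂ ≃+* ℂ) : FixD d (σ ^ d.factorial) := by
  classical
  intro x P hP hd hx
  have hmaps : ∀ k ∈ Finset.range (d + 1), (σ ^ k) x ∈ (P.aroots ℂ).toFinset := by
    intro k _
    rw [Multiset.mem_toFinset, Polynomial.mem_aroots]
    exact ⟨hP, aut_root _ hx⟩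
  have hcard : (P.aroots ℂ).toFinset.card < (Finset.range (d + 1)).card := by
    rw [Finset.card_range]
    have h1 := Multiset.toFinset_card_le (P.aroots ℂ)
    have h2 := Polynomial.card_roots' (P.map (algebraMap ℚ ℂ))
    have h3 := Polynomial.natDegree_map_le (f := algebraMap ℚ ℂ) (p := P)
    have h4 : Multiset.card (P.aroots ℂ) = Multiset.card (P.map (algebraMap ℚ ℂ)).roots := rfl
    omega
  obtain ⟨i, hi, j, hj, hij, he⟩ := Finset.exists_ne_map_eq_of_card_lt_of_maps_to hcard hmaps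
  have key : ∀ i j : ℕ, i < j → j < d + 1 → (σ ^ i) x = (σ ^ j) x → (σ ^ d.factorial) x = x := by
    intro i j hlt hj he
    obtain ⟨k, rfl⟩ := Nat.exists_eq_add_of_lt hlt
    have h1 : (σ ^ (k + 1)) x = x := by
      apply (σ ^ i).injective
      rw [he, add_assoc, pow_add σ i]
      rfl
    obtain ⟨m, hm⟩ : k + 1 ∣ d.factorial := Nat.dvd_factorial (Nat.succ_pos k) (by omega)
    rw [hm]
    exact aut_pow_fix σ h1 m
  rw [Finset.mem_range] at hi hj
  rcases lt_or_gt_of_ne hij with h | h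
  · exact key i j h hj he
  · exact key j i h hi he.symm

theorem FixD.mul {d : ℕ} {σ τ : ℂ ≃+* ℂ} (h : FixD d σ) (h' : FixD d τ) : FixD d (σ * τ) := by
  intro x P hP hd hx
  change σ (τ x) = x
  rw [h' x P hP hd hx, h x P hP hd hx]

theorem FixD.conj {d : ℕ} {σ : ℂ ≃+* ℂ} (h : FixD d σ) (τ : ℂ ≃+* ℂ) : FixD d (τ * σ * τ⁻¹) := by
  intro x P hP hd hx
  change τ (σ (τ.symm x)) = x
  rw [h (τ.symm x) P hP hd (aut_root _ hx), RingEquiv.apply_symm_apply]

theorem FixD.th {d : ℕ} (hd : 2 ≤ d) {σ : ℂ ≃+* ℂ} (h : FixD d σ) {D : ℤ} (hD : D ≤ 0) :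
    σ (th D) = th D := by
  refine h _ (Polynomial.X ^ 2 - Polynomial.C (D : ℚ)) (Polynomial.X_pow_sub_C_ne_zero (by norm_num) _)
    ?_ ?_
  · rw [Polynomial.natDegree_X_pow_sub_C]; exact hd
  · simp [th_sq hD]

theorem FixD.field {d : ℕ} {σ : ℂ ≃+* ℂ} (h : FixD d σ) (F : IntermediateField ℚ ℂ)
    [FiniteDimensional ℚ F] (hd : Module.finrank ℚ F ≤ d) : ∀ a ∈ F, σ a = a := by
  intro a ha
  have hi : IsIntegral ℚ (⟨a, ha⟩ : F) := IsIntegral.of_finite ℚ _
  refine h a (minpoly ℚ (⟨a, ha⟩ : F)) (minpoly.ne_zero hi)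
    ((minpoly.natDegree_le _).trans hd) ?_
  have := Polynomial.aeval_algebraMap_apply ℂ (⟨a, ha⟩ : F) (minpoly ℚ (⟨a, ha⟩ : F))
  rw [minpoly.aeval, map_zero] at this
  exact this

theorem aut_th (σ : ℂ ≃+* ℂ) {D : ℤ} (hD : D ≤ 0) : σ (th D) = th D ∨ σ (th D) = -th D := by
  apply sq_eq_sq_iff_eq_or_eq_neg.1
  rw [← map_pow, th_sq hD, map_intCast]

theorem aut_th_ne {D : ℤ} (hD : D < 0) : th D ≠ 0 := by
  intro h
  have := th_sq hD.le
  rw [h] at this
  have h2 : (D : ℂ) = 0 := by rw [← this]; norm_num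
  exact hD.ne (by exact_mod_cast h2)

theorem exists_tau {D D' : ℤ} (hD : D < 0) (hD' : D' < 0) (h : ¬ IsSquare (D' * D)) :
    ∃ τ : ℂ ≃+* ℂ, τ (th D) = th D ∧ τ (th D') = -th D' := by
  have hs : (th D' * th D) * (th D' * th D) = ((D' * D : ℤ) : ℂ) := by
    have h1 := th_sq hD.le
    have h2 := th_sq hD'.le
    push_cast
    rw [← h1, ← h2]; ring
  have hs' : (-(th D' * th D)) * (-(th D' * th D)) = ((D' * D : ℤ) : ℂ) := by
    rw [neg_mul_neg, hs]
  have hn : ∀ n : ℤ, D' * D ≠ n * n := fun n hn => h ⟨n, hn⟩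
  haveI : Countable (Zsqrtd (D' * D)) :=
    Function.Injective.countable (f := fun a : Zsqrtd (D' * D) => (a.re, a.im))
      fun a b hab => Zsqrtd.ext (congrArg Prod.fst hab) (congrArg Prod.snd hab)
  obtain ⟨σ, hσ⟩ := aut_ring (A := Zsqrtd (D' * D)) Cardinal.mk_le_aleph0
    (Zsqrtd.lift ⟨_, hs⟩) (Zsqrtd.lift ⟨_, hs'⟩) (Zsqrtd.lift_injective _ hn)
    (Zsqrtd.lift_injective _ hn)
  have h0 : σ (th D') * σ (th D) = -(th D' * th D) := by
    have := hσ Zsqrtd.sqrtd
    simpa using this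
  have n1 := aut_th_ne hD
  have n2 := aut_th_ne hD'
  have n3 : th D' * th D ≠ 0 := mul_ne_zero n2 n1
  rcases aut_th σ hD.le with a | a <;> rcases aut_th σ hD'.le with b | b
  · rw [a, b] at h0
    exact absurd (by linear_combination h0 / 2) n3
  · exact ⟨σ, a, b⟩
  · refine ⟨σ.trans (starRingAut : RingAut ℂ), ?_, ?_⟩
    · change starRingEnd ℂ (σ (th D)) = th D
      rw [a, map_neg, conj_th, neg_neg]
    · change starRingEnd ℂ (σ (th D')) = -th D'
      rw [b, conj_th]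
  · rw [a, b] at h0
    exact absurd (by linear_combination h0 / 2) n3

end Pool.Agent.EQ
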