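import Pool.Agent.P.MP_ad7a55_nt.Aut

/-! Automorphisms of ℂ. -/

set_option autoImplicit false

noncomputable section

open MeasureTheory Topology Filter UpperHalfPlane
open scoped MatrixGroups ENNReal BoundedContinuousFunction

namespace Pool.Agent.EQ

open NumberField in
/-- Frobenius element of a Galois number field at a prime over `q`. -/
theorem frob_nf (L : Type) [Field L] [NumberField L] [IsGalois ℚ L] {q : ℕ} (hq : q.Prime)
    (Q : Ideal (𝓞 L)) [Q.IsPrime] (hQ : Q.under ℤ = Ideal.span {(q : ℤ)}) :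
    ∃ g : L ≃ₐ[ℚ] L, ∀ x y : 𝓞 L, (y : L) = g (x : L) → y - x ^ q ∈ Q := by
  have hG : IsGaloisGroup (L ≃ₐ[ℚ] L) ℤ (𝓞 L) :=
    IsGaloisGroup.of_isFractionRing (L ≃ₐ[ℚ] L) ℤ (𝓞 L) ℚ L
  have hne : Q ≠ ⊥ := by
    intro h
    have h1 : (q : ℤ) ∈ Q.under ℤ := by rw [hQ]; exact Ideal.mem_span_singleton_self _
    rw [h, Ideal.under, Ideal.mem_comap, Ideal.mem_bot] at h1
    have h2 : ((q : ℤ) : 𝓞 L) = 0 := by simpa using h1
    have h3 : (q : ℤ) = 0 := by exact_mod_cast h2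
    exact hq.ne_zero (by exact_mod_cast h3)
  have : Finite (𝓞 L ⧸ Q) := Ideal.finiteQuotientOfFreeOfNeBot Q hne
  obtain ⟨g, hg⟩ := IsArithFrobAt.exists_of_isInvariant ℤ (L ≃ₐ[ℚ] L) Q
  refine ⟨g, fun x y hy => ?_⟩
  have h := hg x
  have hc : Nat.card (ℤ ⧸ Q.under ℤ) = q := by
    rw [hQ, Nat.card_congr (Int.quotientSpanNatEquivZMod q).toEquiv, Nat.card_zmod]
  rw [hc] at h
  have : y = g • x := by
    apply RingOfIntegers.ext
    rw [hy]; rfl
  rw [this]
  exact h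

/-- A finite Galois subfield of `ℂ` containing finitely many algebraic integers. -/
theorem exists_galois (T : Finset (integralClosure ℤ ℂ)) :
    ∃ L : IntermediateField ℚ ℂ, FiniteDimensional ℚ L ∧ IsGalois ℚ L ∧
      ∀ a ∈ T, (a : ℂ) ∈ L := by
  classical
  have hint : ∀ a : integralClosure ℤ ℂ, IsIntegral ℚ (a : ℂ) := fun a =>
    IsIntegral.tower_top (R := ℤ) a.2
  set P : Polynomial ℚ := ∏ a ∈ T, minpoly ℚ (a : ℂ) with hP
  have hP0 : P ≠ 0 := Finset.prod_ne_zero_iff.mpr fun a _ => minpoly.ne_zero (hint a)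
  have hs : (P.map (algebraMap ℚ ℂ)).Splits := IsAlgClosed.splits _
  have hsf : Polynomial.IsSplittingField ℚ (IntermediateField.adjoin ℚ (P.rootSet ℂ)) P := by
    have h := IntermediateField.adjoin_rootSet_isSplittingField hs
    convert h
    exact Subsingleton.elim _ _
  refine ⟨IntermediateField.adjoin ℚ (P.rootSet ℂ), ?_, ?_, ?_⟩
  · exact Polynomial.IsSplittingField.finiteDimensional _ P
  · have := Polynomial.IsSplittingField.finiteDimensional
      (IntermediateField.adjoin ℚ (P.rootSet ℂ)) P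
    have : Normal ℚ (IntermediateField.adjoin ℚ (P.rootSet ℂ)) := Normal.of_isSplittingField P
    exact IsGalois.mk
  · intro a ha
    apply IntermediateField.subset_adjoin
    rw [Polynomial.mem_rootSet]
    refine ⟨hP0, ?_⟩
    rw [hP, map_prod]
    exact Finset.prod_eq_zero ha (minpoly.aeval ℚ _)

open NumberField in
/-- A Frobenius element for finitely many algebraic integers. -/
theorem exists_frob {q : ℕ} (hq : q.Prime) (T : Finset (integralClosure ℤ ℂ)) :
    ∃ (𝔔 : Ideal (integralClosure ℤ ℂ)) (σ : ℂ ≃+* ℂ), 𝔔.IsPrime ∧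
      (∀ n : ℤ, (n : integralClosure ℤ ℂ) ∈ 𝔔 ↔ (q : ℤ) ∣ n) ∧
      ∀ a ∈ T, ∀ b : integralClosure ℤ ℂ, (b : ℂ) = σ a → b - a ^ q ∈ 𝔔 := by
  obtain ⟨L, hfd, hgal, hT⟩ := exists_galois T
  have hnf : NumberField L := NumberField.mk
  have hqp : (Ideal.span {(q : ℤ)}).IsPrime :=
    (Ideal.span_singleton_prime (by exact_mod_cast hq.ne_zero)).mpr (Nat.prime_iff_prime_int.mp hq)
  obtain ⟨𝔔, -, h𝔔, hc⟩ := Ideal.exists_ideal_over_prime_of_isIntegral
    (S := integralClosure ℤ ℂ) (Ideal.span {(q : ℤ)}) ⊥ (by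
      intro n hn
      rw [Ideal.mem_comap, Ideal.mem_bot] at hn
      have h2 : ((n : ℤ) : integralClosure ℤ ℂ) = 0 := by simpa using hn
      have h3 : n = 0 := by exact_mod_cast h2
      rw [h3]; exact Ideal.zero_mem _)
  have hmem : ∀ n : ℤ, (n : integralClosure ℤ ℂ) ∈ 𝔔 ↔ (q : ℤ) ∣ n := by
    intro n
    rw [← Ideal.mem_span_singleton, ← hc, Ideal.mem_comap]
    simp
  -- the inclusion of the ring of integers of `L`
  let f : 𝓞 L →+* integralClosure ℤ ℂ :=
    ((L.val.toRingHom).comp (algebraMap (𝓞 L) L)).codRestrict (integralClosure ℤ ℂ) (fun x => by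
      have hx : IsIntegral ℤ (algebraMap (𝓞 L) L x) := x.2
      exact hx.map (L.val.toRingHom.toIntAlgHom))
  have hf : ∀ x : 𝓞 L, (f x : ℂ) = ((x : L) : ℂ) := fun x => rfl
  have hQp : (𝔔.comap f).IsPrime := Ideal.comap_isPrime f 𝔔
  have hQ : (𝔔.comap f).under ℤ = Ideal.span {(q : ℤ)} := by
    ext n
    rw [Ideal.under, Ideal.mem_comap, Ideal.mem_comap, Ideal.mem_span_singleton, ← hmem]
    simp
  obtain ⟨g, hg⟩ := frob_nf L hq (𝔔.comap f) hQ
  have : Countable L := Countable.of_equiv _ (Module.finBasis ℚ L).equivFun.toEquiv.symm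
  obtain ⟨σ, hσ⟩ := exists_aut (A := L) L.val.toRingHom
    (L.val.toRingHom.comp g.toRingEquiv.toRingHom)
  refine ⟨𝔔, σ, h𝔔, hmem, fun a ha b hb => ?_⟩
  have hai : IsIntegral ℤ (⟨(a : ℂ), hT a ha⟩ : L) := by
    rw [← isIntegral_algHom_iff (L.val.toRingHom.toIntAlgHom) L.val.toRingHom.injective]
    exact a.2
  let x : 𝓞 L := ⟨⟨(a : ℂ), hT a ha⟩, hai⟩
  let y : 𝓞 L := ⟨g (x : L), hai.map (g.toRingEquiv.toRingHom.toIntAlgHom)⟩
  have h1 := hg x y rfl
  rw [Ideal.mem_comap, map_sub, map_pow] at h1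
  have hx : f x = a := Subtype.ext rfl
  have hy : f y = b := by
    apply Subtype.ext
    rw [hb, hf]
    exact (hσ (x : L)).symm
  rwa [hx, hy] at h1

end Pool.Agent.EQ
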