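import Pool.Agent.P.MP_ad7a55_nt.Beta2

/-! Ball averages of a flow of ℚ_p. -/

set_option autoImplicit false

noncomputable section

open MeasureTheory Topology Filter UpperHalfPlane
open scoped MatrixGroups ENNReal BoundedContinuousFunction

namespace Pool.Agent.EQ

variable {p : ℕ} [Fact p.Prime] {W : Type} [TopologicalSpace W] [PolishSpace W] [MeasurableSpace W]
  [BorelSpace W] (φ : Flow ℚ_[p] W)

/-- The uniform measure on the piece of orbit over the ball of radius `p^k`. -/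
def orb (k : ℤ) (w : W) : Measure W := (bm p k).map fun s => φ s w

/-- Invariance under the flow. -/
def Inv (μ : Measure W) : Prop := ∀ s, μ.map (φ s) = μ

theorem measurable_flow (w : W) : Measurable fun s => φ s w :=
  (φ.continuous continuous_id continuous_const).measurable

instance instProborb (k : ℤ) (w : W) : IsProbabilityMeasure (orb φ k w) :=
  Measure.isProbabilityMeasure_map (measurable_flow φ w).aemeasurable

theorem orb_apply (k : ℤ) (w : W) {B : Set W} (hB : MeasurableSet B) :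
    orb φ k w B = bm p k {s | φ s w ∈ B} :=
  Measure.map_apply (measurable_flow φ w) hB

theorem integral_orb (k : ℤ) (w : W) {f : W → ℝ} (hf : Continuous f) :
    ∫ x, f x ∂orb φ k w = ∫ s, f (φ s w) ∂bm p k :=
  integral_map (measurable_flow φ w).aemeasurable hf.aestronglyMeasurable

theorem avgA_cont2 : Continuous fun z : ℚ_[p] × W => φ z.1 z.2 :=
  φ.continuous continuous_fst continuous_snd

theorem avgA_meas2 : Measurable fun z : ℚ_[p] × W => φ z.1 z.2 := (avgA_cont2 φ).measurable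

theorem avgA_meas3 : Measurable fun z : W × ℚ_[p] => φ z.2 z.1 :=
  (φ.continuous continuous_snd continuous_fst).measurable

theorem avgA_meas1 (s : ℚ_[p]) : Measurable (φ s) := (φ.continuous_toFun s).measurable

theorem measurable_orb (k : ℤ) : Measurable (orb φ k) := by
  refine Measure.measurable_of_measurable_coe _ fun B hB => ?_
  have h := measurable_measure_prodMk_right (μ := bm p k) (avgA_meas2 φ hB)
  have he : (fun w => orb φ k w B) =
      fun w => bm p k ((fun s => (s, w)) ⁻¹' ((fun z : ℚ_[p] × W => φ z.1 z.2) ⁻¹' B)) := by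
    funext w
    rw [orb_apply φ k w hB]; rfl
  rw [he]; exact h

theorem continuous_integral_orb (k : ℤ) (f : W →ᵇ ℝ) :
    Continuous fun w => ∫ x, f x ∂orb φ k w := by
  simp only [integral_orb φ k _ f.continuous]
  refine continuous_of_dominated (bound := fun _ => ‖f‖) (fun w => ?_) (fun w => ?_)
    (integrable_const _) (ae_of_all _ fun s => ?_)
  · exact (f.continuous.comp (φ.continuous continuous_id continuous_const)).aestronglyMeasurable
  · exact ae_of_all _ fun s => f.norm_coe_le_norm _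
  · exact f.continuous.comp (φ.continuous_toFun s)

theorem orb_flow {k : ℤ} {s : ℚ_[p]} (hs : ‖s‖ ≤ (p : ℝ) ^ k) (w : W) :
    orb φ k (φ s w) = orb φ k w := by
  have h : (fun t => φ t (φ s w)) = (fun t => φ t w) ∘ fun t => t + s := by
    funext t; simp only [Function.comp, φ.map_add]
  unfold orb
  rw [h, ← Measure.map_map (measurable_flow φ w) (measurable_add_const s), bm_add p hs]

theorem map_orb {k : ℤ} {s : ℚ_[p]} (hs : ‖s‖ ≤ (p : ℝ) ^ k) (w : W) :
    (orb φ k w).map (φ s) = orb φ k w := by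
  have h : (φ s ∘ fun t => φ t w) = fun t => φ t (φ s w) := by
    funext t; simp only [Function.comp, ← φ.map_add, add_comm]
  conv_rhs => rw [← orb_flow φ hs w]
  unfold orb
  rw [Measure.map_map (avgA_meas1 φ s) (measurable_flow φ w), h]

theorem avgA_lorb (k : ℤ) (w : W) {f : W → ℝ≥0∞} (hf : Measurable f) :
    ∫⁻ x, f x ∂orb φ k w = ∫⁻ s, f (φ s w) ∂bm p k :=
  lintegral_map hf (measurable_flow φ w)

theorem Inv.avgA_lint {μ : Measure W} [IsFiniteMeasure μ] (hμ : Inv φ μ) (k : ℤ)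
    {f : W → ℝ≥0∞} (hf : Measurable f) :
    ∫⁻ w, ∫⁻ x, f x ∂orb φ k w ∂μ = ∫⁻ x, f x ∂μ := by
  simp only [avgA_lorb φ k _ hf]
  rw [lintegral_lintegral_swap (f := fun w s => f (φ s w)) (hf.comp (avgA_meas3 φ)).aemeasurable]
  have h : ∀ s, ∫⁻ w, f (φ s w) ∂μ = ∫⁻ x, f x ∂μ := fun s => by
    rw [← lintegral_map hf (avgA_meas1 φ s), hμ s]
  simp only [h, lintegral_const, measure_univ, mul_one]

theorem Inv.bind_orb {μ : Measure W} [IsFiniteMeasure μ] (hμ : Inv φ μ) (k : ℤ) :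
    μ.bind (orb φ k) = μ := by
  ext B hB
  rw [Measure.bind_apply hB (measurable_orb φ k).aemeasurable]
  have h := hμ.avgA_lint φ k (f := B.indicator 1) (measurable_one.indicator hB)
  simpa only [lintegral_indicator_one hB] using h

theorem Inv.integral_orb {μ : Measure W} [IsFiniteMeasure μ] (hμ : Inv φ μ) (k : ℤ)
    (f : W →ᵇ ℝ) : ∫ w, ∫ x, f x ∂orb φ k w ∂μ = ∫ x, f x ∂μ := by
  simp only [EQ.integral_orb φ k _ f.continuous]
  have hi : Integrable (Function.uncurry fun (w : W) (s : ℚ_[p]) => f (φ s w))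
      (μ.prod (bm p k)) := by
    refine Integrable.of_bound (C := ‖f‖) ?_ (ae_of_all _ fun z => f.norm_coe_le_norm _)
    exact (f.continuous.comp (φ.continuous continuous_snd continuous_fst)).aestronglyMeasurable
  rw [integral_integral_swap hi]
  have h : ∀ s, ∫ w, f (φ s w) ∂μ = ∫ x, f x ∂μ := fun s => by
    rw [← integral_map (avgA_meas1 φ s).aemeasurable f.continuous.aestronglyMeasurable, hμ s]
  simp only [h, integral_const, probReal_univ, one_smul]

/-- Averaging does not change the integral over a set invariant under the ball. -/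
theorem Inv.avgA_setL {μ : Measure W} [IsFiniteMeasure μ] (hμ : Inv φ μ) (k : ℤ)
    {f : W → ℝ≥0∞} (hf : Measurable f) {E : Set W} (hE : MeasurableSet E)
    (hinv : ∀ s, ‖s‖ ≤ (p : ℝ) ^ k → ∀ w, φ s w ∈ E ↔ w ∈ E) :
    ∫⁻ w in E, ∫⁻ x, f x ∂orb φ k w ∂μ = ∫⁻ x in E, f x ∂μ := by
  rw [← lintegral_indicator hE, ← lintegral_indicator hE,
    ← hμ.avgA_lint φ k (hf.indicator hE)]
  refine lintegral_congr fun w => ?_
  rw [avgA_lorb φ k w (hf.indicator hE)]
  by_cases hw : w ∈ E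
  · rw [Set.indicator_of_mem hw, avgA_lorb φ k w hf]
    refine lintegral_congr_ae ((bm_ae p k).mono fun s hs => ?_)
    simp only [Set.indicator_of_mem ((hinv s hs w).2 hw)]
  · rw [Set.indicator_of_notMem hw]
    symm
    refine (lintegral_congr_ae ((bm_ae p k).mono fun s hs => ?_)).trans lintegral_zero
    simp only [Set.indicator_of_notMem (fun h => hw ((hinv s hs w).1 h))]

theorem avgA_mlo (k : ℤ) {f : W → ℝ≥0∞} (hf : Measurable f) :
    Measurable fun w => ∫⁻ x, f x ∂orb φ k w :=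
  (Measure.measurable_lintegral hf).comp (measurable_orb φ k)

theorem Inv.avgA_maxfin {μ : Measure W} [IsFiniteMeasure μ] (hμ : Inv φ μ) {f : W → ℝ≥0∞}
    (hf : Measurable f) (c : ℝ≥0∞) (K : ℕ) :
    ∀ E : Set W, MeasurableSet E → (∀ s, ‖s‖ ≤ (p : ℝ) ^ (K : ℤ) → ∀ w, φ s w ∈ E ↔ w ∈ E) →
      c * μ (E ∩ {w | ∃ k : ℕ, k < K ∧ c < ∫⁻ x, f x ∂orb φ k w}) ≤ ∫⁻ x in E, f x ∂μ := by
  have hp : (1 : ℝ) ≤ p := by exact_mod_cast (Fact.out : p.Prime).one_lt.le
  induction K with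
  | zero => intro E _ _; simp
  | succ K ih =>
    intro E hE hinv
    have hinv' : ∀ s, ‖s‖ ≤ (p : ℝ) ^ (K : ℤ) → ∀ w, φ s w ∈ E ↔ w ∈ E := fun s hs =>
      hinv s (hs.trans (zpow_le_zpow_right₀ hp (by push_cast; omega)))
    set T : Set W := {w | c < ∫⁻ x, f x ∂orb φ K w} with hT
    have hTm : MeasurableSet T :=
      measurableSet_lt measurable_const (avgA_mlo φ K hf)
    have hTi : ∀ s, ‖s‖ ≤ (p : ℝ) ^ (K : ℤ) → ∀ w, φ s w ∈ T ↔ w ∈ T := fun s hs w => by
      simp only [hT, Set.mem_ofPred_eq, orb_flow φ hs w]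
    have h1 : c * μ (E ∩ T) ≤ ∫⁻ x in E ∩ T, f x ∂μ := by
      rw [← hμ.avgA_setL φ K hf (hE.inter hTm) (fun s hs w => by
        simp only [Set.mem_inter_iff, hinv' s hs w, hTi s hs w]), ← setLIntegral_const]
      exact setLIntegral_mono' (hE.inter hTm) fun w hw => le_of_lt hw.2
    have h2 := ih (E \ T) (hE.diff hTm) (fun s hs w => by
      simp only [Set.mem_sdiff, hinv' s hs w, hTi s hs w])
    have hsub : E ∩ {w | ∃ k : ℕ, k < K + 1 ∧ c < ∫⁻ x, f x ∂orb φ k w} ⊆
        (E ∩ T) ∪ ((E \ T) ∩ {w | ∃ k : ℕ, k < K ∧ c < ∫⁻ x, f x ∂orb φ k w}) := by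
      rintro w ⟨hw, k, hk, hc⟩
      by_cases hwT : w ∈ T
      · exact Or.inl ⟨hw, hwT⟩
      · refine Or.inr ⟨⟨hw, hwT⟩, k, ?_, hc⟩
        rcases Nat.lt_succ_iff_lt_or_eq.1 hk with h | h
        · exact h
        · subst h; exact absurd hc hwT
    calc c * μ (E ∩ {w | ∃ k : ℕ, k < K + 1 ∧ c < ∫⁻ x, f x ∂orb φ k w})
        ≤ c * (μ (E ∩ T) + μ ((E \ T) ∩ {w | ∃ k : ℕ, k < K ∧ c < ∫⁻ x, f x ∂orb φ k w})) := by
          gcongr
          exact (measure_mono hsub).trans (measure_union_le _ _)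
      _ ≤ ∫⁻ x in E ∩ T, f x ∂μ + ∫⁻ x in E \ T, f x ∂μ := by
          rw [mul_add]; exact add_le_add h1 h2
      _ = ∫⁻ x in E, f x ∂μ := lintegral_inter_add_sdiff _ _ hTm

/-- The maximal inequality. -/
theorem Inv.maximal {μ : Measure W} [IsFiniteMeasure μ] (hμ : Inv φ μ) {f : W → ℝ≥0∞}
    (hf : Measurable f) (c : ℝ≥0∞) :
    c * μ {w | ∃ k : ℕ, c < ∫⁻ x, f x ∂orb φ k w} ≤ ∫⁻ x, f x ∂μ := by
  have hU : {w | ∃ k : ℕ, c < ∫⁻ x, f x ∂orb φ k w} =
      ⋃ K : ℕ, {w | ∃ k : ℕ, k < K ∧ c < ∫⁻ x, f x ∂orb φ k w} := by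
    ext w
    simp only [Set.mem_ofPred_eq, Set.mem_iUnion]
    exact ⟨fun ⟨k, hk⟩ => ⟨k + 1, k, Nat.lt_succ_self k, hk⟩, fun ⟨_, k, _, hk⟩ => ⟨k, hk⟩⟩
  have hm : Monotone fun K : ℕ => {w | ∃ k : ℕ, k < K ∧ c < ∫⁻ x, f x ∂orb φ k w} :=
    fun K L hKL w ⟨k, hk, hc⟩ => ⟨k, hk.trans_le hKL, hc⟩
  rw [hU, hm.measure_iUnion, ENNReal.mul_iSup]
  refine iSup_le fun K => ?_
  have h := hμ.avgA_maxfin φ hf c K Set.univ MeasurableSet.univ (fun _ _ _ => by simp)
  simpa only [Set.univ_inter, Measure.restrict_univ] using h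

end Pool.Agent.EQ
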