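import Pool.Agent.P.MP_ad7a55_nt.Avg

/-! Ball averages of a flow of ℚ_p. -/

set_option autoImplicit false

noncomputable section

open MeasureTheory Topology Filter UpperHalfPlane
open scoped MatrixGroups ENNReal BoundedContinuousFunction

namespace Pool.Agent.EQ

variable {p : ℕ} [Fact p.Prime] {W : Type} [TopologicalSpace W] [PolishSpace W] [MeasurableSpace W]
  [BorelSpace W] (φ : Flow ℚ_[p] W)

theorem avg2_meas (s : ℚ_[p]) : Measurable (φ s) :=
  (φ.continuous continuous_const continuous_id).measurable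

theorem avg2_F (k : ℤ) {B : Set W} (hB : MeasurableSet B) : Measurable fun w => orb φ k w B :=
  (Measure.measurable_coe hB).comp (measurable_orb φ k)

theorem avg2_le {k l : ℕ} (h : k ≤ l) {s : ℚ_[p]} (hs : ‖s‖ ≤ (p : ℝ) ^ (k : ℤ)) :
    ‖s‖ ≤ (p : ℝ) ^ (l : ℤ) :=
  hs.trans (zpow_le_zpow_right₀ (by exact_mod_cast (Fact.out : p.Prime).one_le) (by exact_mod_cast h))

/-- Ball averages are conditional expectations. -/
theorem avg2_key {k : ℤ} {ν : Measure W} [SFinite ν]
    (hν : ∀ s : ℚ_[p], ‖s‖ ≤ (p : ℝ) ^ k → ν.map (φ s) = ν) {h : W → ℝ≥0∞} (hh : Measurable h)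
    (hi : ∀ s : ℚ_[p], ‖s‖ ≤ (p : ℝ) ^ k → ∀ w, h (φ s w) = h w) {B : Set W}
    (hB : MeasurableSet B) :
    ∫⁻ w, h w * orb φ k w B ∂ν = ∫⁻ w, h w * B.indicator 1 w ∂ν := by
  have hm : Measurable fun x : W × ℚ_[p] => φ x.2 x.1 :=
    (φ.continuous continuous_snd continuous_fst).measurable
  have h1 : Measurable (B.indicator (1 : W → ℝ≥0∞)) := measurable_one.indicator hB
  have e : ∀ w, h w * orb φ k w B = ∫⁻ s, h w * B.indicator 1 (φ s w) ∂bm p k := fun w => by
    rw [lintegral_const_mul (f := fun s => B.indicator 1 (φ s w)) _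
      (h1.comp (measurable_flow φ w)), ← lintegral_indicator_one hB, orb,
      lintegral_map h1 (measurable_flow φ w)]
  simp only [e]
  rw [lintegral_lintegral_swap ((hh.comp measurable_fst).mul (h1.comp hm)).aemeasurable,
    lintegral_congr_ae (g := fun _ => ∫⁻ w, h w * B.indicator 1 w ∂ν), lintegral_const,
    measure_univ, mul_one]
  filter_upwards [bm_ae p k] with s hs
  conv_rhs => rw [← hν s hs, lintegral_map (f := fun w => h w * B.indicator 1 w) (hh.mul h1)
    (avg2_meas φ s)]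
  simp only [hi s hs]

theorem avg2_sq {ν : Measure W} [IsFiniteMeasure ν] {f g : W → ℝ} (hf : MemLp f 2 ν)
    (hg : MemLp g 2 ν) :
    ∫ w, (f w - g w) ^ 2 ∂ν = ∫ w, f w * f w ∂ν - 2 * ∫ w, g w * f w ∂ν + ∫ w, g w * g w ∂ν := by
  have h1 : Integrable (fun w => f w * f w) ν := hf.integrable_mul hf
  have h2 : Integrable (fun w => 2 * (g w * f w)) ν := (hg.integrable_mul hf).const_mul 2
  have h3 : Integrable (fun w => g w * g w) ν := hg.integrable_mul hg
  have h4 : Integrable (fun w => f w * f w - 2 * (g w * f w)) ν := h1.sub h2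
  rw [← integral_const_mul, ← integral_sub h1 h2, ← integral_add h4 h3]
  exact integral_congr_ae (Eventually.of_forall fun w => by ring)

/-- Almost everywhere convergence of the ball averages. -/
theorem Inv.ae_conv {μ : Measure W} [IsFiniteMeasure μ] (hμ : Inv φ μ) {B : Set W}
    (hB : MeasurableSet B) :
    ∀ᵐ w ∂μ, ∃ c : ℝ, Tendsto (fun k : ℕ => (orb φ k w).real B) atTop (𝓝 c) := by
  let f : ℕ → W → ℝ := fun k w => (orb φ k w B).toReal
  have hf : ∀ (k) (ν : Measure W) [IsFiniteMeasure ν], MemLp (f k) 2 ν := fun k ν _ =>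
    memLp_of_bounded (a := 0) (b := 1) (Eventually.of_forall fun w =>
      ⟨ENNReal.toReal_nonneg, measureReal_le_one⟩)
      (avg2_F φ k hB).ennreal_toReal.aestronglyMeasurable 2
  have hm : ∀ k l, Measurable fun w => ENNReal.ofReal ((f k w - f l w) ^ 2) := fun k l =>
    (((avg2_F φ k hB).ennreal_toReal.sub (avg2_F φ l hB).ennreal_toReal).pow_const 2).ennreal_ofReal
  let a : ℕ → ℝ := fun k => ∫ w, f k w * f k w ∂μ
  have h1 : ∀ k l, k ≤ l → ∫ w, (f k w - f l w) ^ 2 ∂μ = a k - a l := fun k l h => by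
    have e : ∀ j : ℕ, ∫ w, f l w * f j w ∂μ =
        (∫⁻ w, orb φ l w B * orb φ j w B ∂μ).toReal := fun j => by
      rw [← integral_toReal (f := fun w => orb φ l w B * orb φ j w B)
        ((avg2_F φ l hB).mul (avg2_F φ j hB)).aemeasurable
        (Eventually.of_forall fun w => ENNReal.mul_lt_top (measure_lt_top _ _) (measure_lt_top _ _))]
      simp only [ENNReal.toReal_mul, f]
    have e2 : ∫ w, f l w * f k w ∂μ = a l := by
      rw [e k, avg2_key φ (fun s _ => hμ s) (avg2_F φ l hB)
        (fun s hs w => by rw [orb_flow φ (avg2_le h hs)]) hB, ← avg2_key φ (k := l)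
        (fun s _ => hμ s) (avg2_F φ l hB) (fun s hs w => by rw [orb_flow φ hs]) hB, ← e l]
    rw [avg2_sq (hf k μ) (hf l μ), e2]
    ring
  have h2 : Antitone a := fun k l h =>
    sub_nonneg.1 ((integral_nonneg fun w => sq_nonneg _).trans_eq (h1 k l h))
  have hb : BddBelow (Set.range a) := ⟨0, by
    rintro _ ⟨k, rfl⟩
    exact integral_nonneg fun w => mul_self_nonneg _⟩
  have h3 : ∀ k l L, k ≤ l → l ≤ L → ∀ w, ENNReal.ofReal ((f l w - f L w) ^ 2) ≤
      ∫⁻ x, ENNReal.ofReal ((f k x - f L x) ^ 2) ∂orb φ l w := fun k l L hk hL w => by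
    have e1 : ∫ x, f k x ∂orb φ l w = f l w := by
      have := avg2_key φ (ν := orb φ l w) (fun s hs => map_orb φ (avg2_le hk hs) w)
        (h := fun _ => 1) measurable_const (fun _ _ _ => rfl) hB
      simp only [one_mul, lintegral_indicator_one hB] at this
      rw [integral_toReal (avg2_F φ k hB).aemeasurable
        (Eventually.of_forall fun w => measure_lt_top _ _), this]
    have e2 : ∫ x, f L x ∂orb φ l w = f L w := by
      rw [orb, integral_map (measurable_flow φ w).aemeasurable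
        (avg2_F φ L hB).ennreal_toReal.aestronglyMeasurable,
        integral_congr_ae (g := fun _ => f L w)]
      · simp
      · filter_upwards [bm_ae p l] with s hs
        simp only [f, orb_flow φ (avg2_le hL hs)]
    have hg := (hf k (orb φ l w)).sub (hf L _)
    have e3 := ProbabilityTheory.variance_nonneg (f k - f L) (orb φ l w)
    rw [ProbabilityTheory.variance_eq_sub hg, sub_nonneg] at e3
    simp only [Pi.sub_apply, Pi.pow_apply] at e3
    rw [integral_sub ((hf k _).integrable one_le_two) ((hf L _).integrable one_le_two), e1,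
      e2] at e3
    exact (ENNReal.ofReal_le_ofReal e3).trans_eq (ofReal_integral_eq_lintegral_ofReal
      hg.integrable_sq (Eventually.of_forall fun x => sq_nonneg _))
  have h4 : ∀ ε : ℝ, 0 < ε → ∀ᵐ w ∂μ, ∃ k, ∀ l ≥ k, ∀ l' ≥ k, |f l w - f l' w| ≤ 2 * ε := by
    intro ε hε
    rw [ae_iff]
    refine (mul_eq_zero.1 (nonpos_iff_eq_zero.1 ?_)).resolve_left
      (ENNReal.ofReal_pos.2 (pow_pos hε 2)).ne'
    have ht : Tendsto (fun k => ENNReal.ofReal (a k - ⨅ i, a i)) atTop (𝓝 0) := by
      simpa using ENNReal.tendsto_ofReal ((tendsto_atTop_ciInf h2 hb).sub_const (⨅ i, a i))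
    refine ge_of_tendsto' ht fun k => ?_
    let U : ℕ → Set W := fun j => {w | ∃ l l', k ≤ l ∧ l ≤ k + j ∧ k ≤ l' ∧ l' ≤ k + j ∧
      2 * ε < |f l w - f l' w|}
    have hU : Monotone U := fun j j' h w ⟨l, l', b1, b2, b3, b4, b5⟩ =>
      ⟨l, l', b1, by omega, b3, by omega, b5⟩
    refine le_trans (mul_le_mul_right (measure_mono (t := ⋃ j, U j) fun w hw => ?_) _) ?_
    · simp only [Set.mem_ofPred_eq, not_exists, not_forall, not_le] at hw
      obtain ⟨l, b1, l', b2, b3⟩ := hw k
      exact Set.mem_iUnion.2 ⟨l + l', l, l', b1, by omega, b2, by omega, b3⟩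
    rw [hU.measure_iUnion, ENNReal.mul_iSup]
    refine iSup_le fun j => le_trans (mul_le_mul_right (measure_mono ?_) _)
      ((hμ.maximal φ (hm k (k + j)) _).trans ?_)
    · rintro w ⟨l, l', b1, b2, b3, b4, b5⟩
      by_contra hc
      simp only [Set.mem_ofPred_eq, not_exists, not_lt] at hc
      have e : ∀ i, k ≤ i → i ≤ k + j → |f i w - f (k + j) w| ≤ ε := fun i c1 c2 =>
        abs_le_of_sq_le_sq ((ENNReal.ofReal_le_ofReal_iff (sq_nonneg _)).1
          ((h3 k i _ c1 c2 w).trans (hc i))) hε.le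
      have e1 := abs_le.1 (e l b1 b2)
      have e2 := abs_le.1 (e l' b3 b4)
      exact b5.not_ge (abs_le.2 ⟨by linarith, by linarith⟩)
    · refine (ofReal_integral_eq_lintegral_ofReal ((hf k μ).sub (hf _ μ)).integrable_sq
        (Eventually.of_forall fun x => sq_nonneg _)).ge.trans ?_
      refine ENNReal.ofReal_le_ofReal ((h1 k _ (Nat.le_add_right _ _)).trans_le ?_)
      exact sub_le_sub_left (ciInf_le hb _) _
  filter_upwards [ae_all_iff.2 fun n : ℕ => h4 _ (Nat.one_div_pos_of_nat (n := n))] with w hw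
  refine cauchySeq_tendsto_of_complete (Metric.cauchySeq_iff.2 fun ε hε => ?_)
  obtain ⟨n, hn⟩ := exists_nat_one_div_lt (half_pos hε)
  obtain ⟨k, hk⟩ := hw n
  exact ⟨k, fun l hl l' hl' => (hk l hl l' hl').trans_lt (by linarith)⟩

/-- Recurrence with positive frequency. -/
theorem Inv.recur {μ : Measure W} [IsProbabilityMeasure μ] (hμ : Inv φ μ) {E : Set W}
    (hE : MeasurableSet E) (h0 : μ E ≠ 0) :
    ∃ c : ℝ≥0∞, 0 < c ∧ μ {w | w ∈ E ∧ ∃ᶠ k : ℕ in atTop, c ≤ orb φ k w E} ≠ 0 := by
  have hc := ENNReal.half_pos h0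
  refine ⟨μ E / 2, hc, ?_⟩
  let D : ℕ → Set W := fun k => {w | orb φ k w E < μ E / 2}
  have hD : ∀ k, MeasurableSet (D k) := fun k => measurableSet_lt (avg2_F φ k hE) measurable_const
  have h1 : ∀ k, μ E / 2 ≤ μ (E \ D k) := fun k => by
    have e := avg2_key φ (k := k) (ν := μ) (fun s _ => hμ s) (measurable_one.indicator (hD k))
      (fun s hs w => by
        have : φ s w ∈ D k ↔ w ∈ D k := by simp only [D, Set.mem_ofPred_eq, orb_flow φ hs]
        by_cases hw : w ∈ D k <;> simp [hw, this]) hE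
    have e1 : μ (E ∩ D k) ≤ μ E / 2 := by
      rw [← lintegral_indicator_one (hE.inter (hD k)), Set.inter_comm, Set.inter_indicator_one]
      refine e.ge.trans ((lintegral_mono (g := fun _ => μ E / 2) fun w => ?_).trans (by simp))
      by_cases hw : w ∈ D k
      · simpa [hw] using hw.le
      · simp [hw]
    have e2 := measure_inter_add_sdiff (μ := μ) E (hD k)
    refine ENNReal.le_of_add_le_add_left (a := μ E / 2)
      (ENNReal.half_le_self.trans_lt (measure_lt_top _ _)).ne ?_
    rw [ENNReal.add_halves]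
    exact e2.ge.trans (add_le_add_left e1 _)
  let U : ℕ → Set W := fun n => ⋃ k ≥ n, E \ D k
  have hU : Antitone U := fun n m h => Set.biUnion_subset_biUnion_left fun k hk => h.trans hk
  have h2 : μ E / 2 ≤ μ (⋂ n, U n) := by
    rw [hU.measure_iInter (fun n => (MeasurableSet.biUnion (Set.to_countable _)
      fun k _ => hE.diff (hD k)).nullMeasurableSet) ⟨0, measure_ne_top _ _⟩]
    exact le_iInf fun n => (h1 n).trans (measure_mono (Set.subset_biUnion_of_mem (u := fun k =>
      E \ D k) (le_refl n)))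
  refine (hc.trans_le (h2.trans (measure_mono fun w hw => ?_))).ne'
  simp only [U, Set.mem_iInter, Set.mem_iUnion] at hw
  obtain ⟨_, -, h3, -⟩ := hw 0
  refine ⟨h3, frequently_atTop.2 fun n => ?_⟩
  obtain ⟨k, h4, -, h5⟩ := hw n
  exact ⟨k, h4, not_lt.1 h5⟩

end Pool.Agent.EQ
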