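import Pool.Agent.P.MP_ad7a55_nt.Defs

/-! The groups and spaces of the dynamical part. -/

set_option autoImplicit false

noncomputable section

open MeasureTheory Topology Filter
open scoped MatrixGroups

namespace Pool.Agent.EQ

/-- Upper unipotent. -/
def uu {R : Type} [CommRing R] (x : R) : SL(2, R) := ⟨!![1, x; 0, 1], by simp [Matrix.det_fin_two]⟩

/-- Lower unipotent. -/
def ul {R : Type} [CommRing R] (x : R) : SL(2, R) := ⟨!![1, 0; x, 1], by simp [Matrix.det_fin_two]⟩

/-- Diagonal element. -/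
def dg {F : Type} [Field F] (a : F) (ha : a ≠ 0) : SL(2, F) :=
  ⟨!![a, 0; 0, a⁻¹], by simp [Matrix.det_fin_two, ha]⟩

@[simp] theorem uu_val {R : Type} [CommRing R] (x : R) :
    (uu x : Matrix (Fin 2) (Fin 2) R) = !![1, x; 0, 1] := rfl

@[simp] theorem ul_val {R : Type} [CommRing R] (x : R) :
    (ul x : Matrix (Fin 2) (Fin 2) R) = !![1, 0; x, 1] := rfl

@[simp] theorem dg_val {F : Type} [Field F] (a : F) (ha : a ≠ 0) :
    (dg a ha : Matrix (Fin 2) (Fin 2) F) = !![a, 0; 0, a⁻¹] := rfl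

theorem uu_add {R : Type} [CommRing R] (x y : R) : uu (x + y) = uu x * uu y := by
  ext i j; fin_cases i <;> fin_cases j <;> simp [Matrix.mul_apply, Fin.sum_univ_two, add_comm]

theorem ul_add {R : Type} [CommRing R] (x y : R) : ul (x + y) = ul x * ul y := by
  ext i j; fin_cases i <;> fin_cases j <;> simp [Matrix.mul_apply, Fin.sum_univ_two]

@[simp] theorem uu_zero {R : Type} [CommRing R] : uu (0 : R) = 1 := by
  ext i j; fin_cases i <;> fin_cases j <;> simp

@[simp] theorem ul_zero {R : Type} [CommRing R] : ul (0 : R) = 1 := by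
  ext i j; fin_cases i <;> fin_cases j <;> simp

theorem uu_inv {R : Type} [CommRing R] (x : R) : (uu x)⁻¹ = uu (-x) :=
  inv_eq_of_mul_eq_one_right (by rw [← uu_add]; simp)

theorem ul_inv {R : Type} [CommRing R] (x : R) : (ul x)⁻¹ = ul (-x) :=
  inv_eq_of_mul_eq_one_right (by rw [← ul_add]; simp)

theorem continuous_SL {α R : Type} [CommRing R] [TopologicalSpace R] [TopologicalSpace α]
    {f : α → SL(2, R)} (h : ∀ i j, Continuous fun a => f a i j) : Continuous f :=
  Continuous.subtype_mk (continuous_matrix h) _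

theorem continuous_uu {R : Type} [CommRing R] [TopologicalSpace R] :
    Continuous (uu : R → SL(2, R)) :=
  continuous_SL fun i j => by fin_cases i <;> fin_cases j <;> simp [uu] <;> fun_prop

theorem continuous_ul {R : Type} [CommRing R] [TopologicalSpace R] :
    Continuous (ul : R → SL(2, R)) :=
  continuous_SL fun i j => by fin_cases i <;> fin_cases j <;> simp [ul] <;> fun_prop

section inst

variable {F : Type} [NormedField F]

instance instLCSL [LocallyCompactSpace F] : LocallyCompactSpace SL(2, F) :=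
  haveI : LocallyCompactSpace (Matrix (Fin 2) (Fin 2) F) :=
    inferInstanceAs (LocallyCompactSpace (Fin 2 → Fin 2 → F))
  Matrix.SpecialLinearGroup.isClosedEmbedding_val.locallyCompactSpace

instance instSCSL [SecondCountableTopology F] : SecondCountableTopology SL(2, F) :=
  haveI : SecondCountableTopology (Matrix (Fin 2) (Fin 2) F) :=
    inferInstanceAs (SecondCountableTopology (Fin 2 → Fin 2 → F))
  Matrix.SpecialLinearGroup.isClosedEmbedding_val.isEmbedding.secondCountableTopology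

instance instT2SL : T2Space SL(2, F) :=
  Matrix.SpecialLinearGroup.isClosedEmbedding_val.isEmbedding.t2Space

instance instPolishSL [SecondCountableTopology F] [CompleteSpace F] : PolishSpace SL(2, F) :=
  haveI : PolishSpace (Matrix (Fin 2) (Fin 2) F) :=
    inferInstanceAs (PolishSpace (Fin 2 → Fin 2 → F))
  Matrix.SpecialLinearGroup.isClosedEmbedding_val.polishSpace

instance instMSSL : MeasurableSpace SL(2, F) := borel _

instance instBSSL : BorelSpace SL(2, F) := ⟨rfl⟩

end inst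

/-- A locally compact second countable Hausdorff space is Polish. -/
theorem polish_of_lc (Z : Type) [TopologicalSpace Z] [T2Space Z] [LocallyCompactSpace Z]
    [SecondCountableTopology Z] : PolishSpace Z := by
  have hsc : SecondCountableTopology (OnePoint Z) := by
    obtain ⟨K⟩ : Nonempty (CompactExhaustion Z) := inferInstance
    obtain ⟨b, hbc, -, hb⟩ := TopologicalSpace.exists_countable_basis Z
    have hB : TopologicalSpace.IsTopologicalBasis
        (((fun U : Set Z => ((↑) : Z → OnePoint Z) '' U) '' b) ∪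
          Set.range fun n : ℕ => (((↑) : Z → OnePoint Z) '' K n)ᶜ) := by
      refine TopologicalSpace.isTopologicalBasis_of_isOpen_of_nhds ?_ ?_
      · rintro _ (⟨U, hU, rfl⟩ | ⟨n, rfl⟩)
        · exact OnePoint.isOpenEmbedding_coe.isOpenMap _ (hb.isOpen hU)
        · exact ((K.isCompact n).image OnePoint.continuous_coe).isClosed.isOpen_compl
      · intro a u hau hu
        induction a using OnePoint.rec with
        | infty =>
          obtain ⟨n, hn⟩ := K.exists_superset_of_isCompact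
            ((OnePoint.isOpen_iff_of_mem hau).1 hu).2
          refine ⟨_, Or.inr ⟨n, rfl⟩, by simp, ?_⟩
          intro z hz
          induction z using OnePoint.rec with
          | infty => exact hau
          | coe z =>
            by_contra h
            exact hz ⟨z, hn h, rfl⟩
        | coe a =>
          obtain ⟨U, hU, haU, hUu⟩ := hb.exists_subset_of_mem_open
            (show a ∈ ((↑) : Z → OnePoint Z) ⁻¹' u from hau) (hu.preimage OnePoint.continuous_coe)
          exact ⟨_, Or.inl ⟨U, hU, rfl⟩, ⟨a, haU, rfl⟩, Set.image_subset_iff.2 hUu⟩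
    exact hB.secondCountableTopology ((hbc.image _).union (Set.countable_range _))
  let _ := TopologicalSpace.metrizableSpaceMetric (OnePoint Z)
  have : PolishSpace (OnePoint Z) := inferInstance
  have : PolishSpace (Set.range ((↑) : Z → OnePoint Z)) :=
    OnePoint.isOpenEmbedding_coe.isOpen_range.polishSpace
  exact OnePoint.isOpenEmbedding_coe.isEmbedding.toHomeomorph.isClosedEmbedding.polishSpace

variable (p : ℕ) [Fact p.Prime]

instance instMSQp : MeasurableSpace ℚ_[p] := borel _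

instance instBSQp : BorelSpace ℚ_[p] := ⟨rfl⟩

/-- `G = SL₂(ℝ) × SL₂(ℚ_p)`. -/
abbrev GG : Type := SL(2, ℝ) × SL(2, ℚ_[p])

/-- `x ∈ ℤ[1/p]`. -/
def InZp (p : ℕ) (x : ℚ) : Prop := ∃ (a : ℕ) (m : ℤ), (p : ℚ) ^ a * x = m

theorem InZp.add {p : ℕ} {x y : ℚ} (hx : InZp p x) (hy : InZp p y) : InZp p (x + y) := by
  obtain ⟨a, m, h⟩ := hx
  obtain ⟨b, n, h'⟩ := hy
  refine ⟨a + b, p ^ b * m + p ^ a * n, ?_⟩
  push_cast
  rw [← h, ← h']; ring

theorem InZp.mul {p : ℕ} {x y : ℚ} (hx : InZp p x) (hy : InZp p y) : InZp p (x * y) := by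
  obtain ⟨a, m, h⟩ := hx
  obtain ⟨b, n, h'⟩ := hy
  refine ⟨a + b, m * n, ?_⟩
  push_cast
  rw [← h, ← h']; ring

theorem InZp.neg {p : ℕ} {x : ℚ} (hx : InZp p x) : InZp p (-x) := by
  obtain ⟨a, m, h⟩ := hx
  refine ⟨a, -m, ?_⟩
  push_cast
  rw [← h]; ring

theorem inZp_int (p : ℕ) (m : ℤ) : InZp p m := ⟨0, m, by simp⟩

/-- `SL₂(ℤ[1/p])` inside `SL₂(ℚ)`. -/
def GamQ (p : ℕ) : Subgroup SL(2, ℚ) where
  carrier := {γ | ∀ i j, InZp p (γ i j)}
  one_mem' := fun i j => by
    fin_cases i <;> fin_cases j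
    · simpa using inZp_int p 1
    · simpa using inZp_int p 0
    · simpa using inZp_int p 0
    · simpa using inZp_int p 1
  mul_mem' := fun {a b} ha hb i j => by
    simp only [Matrix.SpecialLinearGroup.coe_mul, Matrix.mul_apply, Fin.sum_univ_two]
    exact ((ha _ _).mul (hb _ _)).add ((ha _ _).mul (hb _ _))
  inv_mem' := fun {a} ha i j => by
    rw [Matrix.SpecialLinearGroup.SL2_inv_expl]
    fin_cases i <;> fin_cases j
    · simpa using ha 1 1
    · simpa using (ha 0 1).neg
    · simpa using (ha 1 0).neg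
    · simpa using ha 0 0

/-- The diagonal embedding of `SL₂(ℚ)`. -/
def emb : SL(2, ℚ) →* GG p :=
  (Matrix.SpecialLinearGroup.map (Rat.castHom ℝ)).prod
    (Matrix.SpecialLinearGroup.map (Rat.castHom ℚ_[p]))

/-- The lattice `Γ`. -/
def Gam : Subgroup (GG p) := (GamQ p).map (emb p)

/-- `SL₂(ℤ)` inside `SL₂(ℝ)`. -/
def Gam0 : Subgroup SL(2, ℝ) := (Matrix.SpecialLinearGroup.map (Int.castRingHom ℝ)).range

/-- `K = SL₂(ℤ_p)`. -/
def Kp : Subgroup SL(2, ℚ_[p]) where
  carrier := {k | ∀ i j, ‖k i j‖ ≤ 1}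
  one_mem' := fun i j => by fin_cases i <;> fin_cases j <;> simp
  mul_mem' := fun {a b} ha hb i j => by
    simp only [Matrix.SpecialLinearGroup.coe_mul, Matrix.mul_apply, Fin.sum_univ_two]
    refine (Padic.nonarchimedean _ _).trans (max_le ?_ ?_) <;> rw [norm_mul] <;>
      exact mul_le_one₀ (ha _ _) (norm_nonneg _) (hb _ _)
  inv_mem' := fun {a} ha i j => by
    rw [Matrix.SpecialLinearGroup.SL2_inv_expl]
    fin_cases i <;> fin_cases j
    · simpa using ha 1 1
    · simpa using ha 0 1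
    · simpa using ha 1 0
    · simpa using ha 0 0

/-- Elements of `(1/q) ℤ[1/p]` bounded at both places form a finite set. -/
theorem finite_bounded (q : ℕ) (hq : 0 < q) (R : ℝ) :
    {x : ℚ | InZp p (q * x) ∧ |(x : ℝ)| ≤ R ∧ ‖(x : ℚ_[p])‖ ≤ R}.Finite := by
  have hp : (1 : ℝ) < p := by exact_mod_cast (Fact.out : p.Prime).one_lt
  obtain ⟨c, hc⟩ := pow_unbounded_of_one_lt R hp
  have hq' : (q : ℚ) ≠ 0 := by positivity
  have hp' : (p : ℚ) ≠ 0 := by exact_mod_cast (Fact.out : p.Prime).ne_zero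
  have hpP : (p : ℚ_[p]) ≠ 0 := by exact_mod_cast (Fact.out : p.Prime).ne_zero
  refine ((Set.finite_Icc (-⌈(p : ℝ) ^ c * q * R⌉) ⌈(p : ℝ) ^ c * q * R⌉).image
    fun m : ℤ => (m : ℚ) / (p ^ c * q)).subset ?_
  rintro x ⟨⟨a, m, hm⟩, h1, h2⟩
  have hn : ‖(((p : ℚ) ^ c * (q * x) : ℚ) : ℚ_[p])‖ ≤ 1 := by
    push_cast
    rw [norm_mul, norm_mul, norm_pow, Padic.norm_p, inv_pow]
    have h3 : ‖(q : ℚ_[p])‖ ≤ 1 := by simpa using Padic.norm_int_le_one (p := p) (q : ℤ)
    have h4 : ‖(q : ℚ_[p])‖ * ‖(x : ℚ_[p])‖ ≤ p ^ c :=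
      (mul_le_of_le_one_left (norm_nonneg _) h3).trans (h2.trans hc.le)
    rw [inv_mul_le_iff₀ (by positivity)]
    simpa using h4
  have hint : ∃ n : ℤ, (p : ℚ) ^ c * (q * x) = n := by
    rcases le_total a c with h | h
    · obtain ⟨e, rfl⟩ := Nat.exists_eq_add_of_le h
      exact ⟨p ^ e * m, by push_cast; rw [← hm]; ring⟩
    · obtain ⟨e, rfl⟩ := Nat.exists_eq_add_of_le h
      have h5 : (p : ℚ) ^ e * ((p : ℚ) ^ c * (q * x)) = m := by rw [← hm]; ring
      have h6 : ‖((m : ℤ) : ℚ_[p])‖ ≤ (p : ℝ) ^ (-(e : ℤ)) := by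
        have : ((m : ℤ) : ℚ_[p]) = (p : ℚ_[p]) ^ e * (((p : ℚ) ^ c * (q * x) : ℚ) : ℚ_[p]) := by
          have := congrArg (fun z : ℚ => (z : ℚ_[p])) h5
          simpa using this.symm
        rw [this, norm_mul, norm_pow, Padic.norm_p, zpow_neg, zpow_natCast, inv_pow]
        exact mul_le_of_le_one_right (by positivity) hn
      obtain ⟨n, hn'⟩ := (Padic.norm_int_le_pow_iff_dvd m e).1 h6
      refine ⟨n, mul_left_cancel₀ (pow_ne_zero e hp') ?_⟩
      rw [h5, hn']; push_cast; ring
  obtain ⟨n, hn'⟩ := hint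
  refine ⟨n, ?_, ?_⟩
  · have h7 : |(n : ℝ)| ≤ (p : ℝ) ^ c * q * R := by
      have : (n : ℝ) = (p : ℝ) ^ c * q * x := by
        have := congrArg (fun z : ℚ => (z : ℝ)) hn'
        simp only [Rat.cast_mul, Rat.cast_pow, Rat.cast_natCast, Rat.cast_intCast] at this
        rw [← this]; ring
      rw [this, abs_mul, abs_of_nonneg (by positivity : (0 : ℝ) ≤ (p : ℝ) ^ c * q)]
      exact mul_le_mul_of_nonneg_left h1 (by positivity)
    have h8 : |n| ≤ ⌈(p : ℝ) ^ c * q * R⌉ := by
      have : ((|n| : ℤ) : ℝ) ≤ (⌈(p : ℝ) ^ c * q * R⌉ : ℤ) := by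
        rw [Int.cast_abs]; exact h7.trans (Int.le_ceil _)
      exact_mod_cast this
    exact abs_le.1 h8
  · change (n : ℚ) / (p ^ c * q) = x
    rw [← hn']; field_simp

theorem norm_entry_le {F : Type} [NormedField F] (f : Fin 2 → Fin 2 → F) (i j : Fin 2) :
    ‖f i j‖ ≤ ‖f‖ := (norm_le_pi_norm (f i) j).trans (norm_le_pi_norm f i)

/-- `Γ` meets every compact set in a finite set. -/
theorem Gam_finite {C : Set (GG p)} (hC : IsCompact C) : (C ∩ Gam p).Finite := by
  have hb : ∃ R : ℝ, ∀ g ∈ C, ∀ i j, |g.1 i j| ≤ R ∧ ‖g.2 i j‖ ≤ R := by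
    have hc : Continuous fun g : GG p =>
        ((fun i j => g.1 i j : Fin 2 → Fin 2 → ℝ), (fun i j => g.2 i j : Fin 2 → Fin 2 → ℚ_[p])) :=
      (continuous_pi fun i => continuous_pi fun j =>
        (continuous_apply j).comp ((continuous_apply i).comp
          (continuous_subtype_val.comp continuous_fst))).prodMk
      (continuous_pi fun i => continuous_pi fun j =>
        (continuous_apply j).comp ((continuous_apply i).comp
          (continuous_subtype_val.comp continuous_snd)))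
    obtain ⟨R, hR⟩ := (hC.image hc).isBounded.exists_norm_le
    refine ⟨R, fun g hg i j => ?_⟩
    have := hR _ ⟨g, hg, rfl⟩
    rw [Prod.norm_def, max_le_iff] at this
    exact ⟨(norm_entry_le (fun i j => g.1 i j) i j).trans this.1,
      (norm_entry_le (fun i j => g.2 i j) i j).trans this.2⟩
  obtain ⟨R, hR⟩ := hb
  have hf := finite_bounded p 1 one_pos R
  have hfin : {γ : SL(2, ℚ) | ∀ i j, γ i j ∈
      {x : ℚ | InZp p ((1 : ℕ) * x) ∧ |(x : ℝ)| ≤ R ∧ ‖(x : ℚ_[p])‖ ≤ R}}.Finite := by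
    have := Set.Finite.pi' fun _ : Fin 2 => Set.Finite.pi' fun _ : Fin 2 => hf
    refine Set.Finite.of_finite_image (f := fun γ : SL(2, ℚ) => (fun i j => γ i j)) (this.subset ?_)
      fun a _ b _ h => Subtype.ext h
    rintro _ ⟨γ, hγ, rfl⟩ i j
    exact hγ i j
  refine (hfin.image (emb p)).subset ?_
  rintro _ ⟨hg, γ, hγ, rfl⟩
  refine ⟨γ, fun i j => ⟨by simpa using hγ i j, ?_, ?_⟩, rfl⟩
  · exact (hR _ hg i j).1
  · exact (hR _ hg i j).2

theorem Gam0_finite {C : Set SL(2, ℝ)} (hC : IsCompact C) : (C ∩ Gam0).Finite := by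
  have hc : Continuous fun g : SL(2, ℝ) => (fun i j => g i j : Fin 2 → Fin 2 → ℝ) :=
    continuous_pi fun i => continuous_pi fun j =>
      (continuous_apply j).comp ((continuous_apply i).comp continuous_subtype_val)
  obtain ⟨R, hR⟩ := (hC.image hc).isBounded.exists_norm_le
  have hfin : {γ : SL(2, ℤ) | ∀ i j, γ i j ∈ Set.Icc (-⌈R⌉) ⌈R⌉}.Finite := by
    have := Set.Finite.pi' fun _ : Fin 2 => Set.Finite.pi' fun _ : Fin 2 =>
      Set.finite_Icc (-⌈R⌉) ⌈R⌉
    refine Set.Finite.of_finite_image (f := fun γ : SL(2, ℤ) => (fun i j => γ i j)) (this.subset ?_)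
      fun a _ b _ h => Subtype.ext h
    rintro _ ⟨γ, hγ, rfl⟩ i j
    exact hγ i j
  refine (hfin.image (Matrix.SpecialLinearGroup.map (Int.castRingHom ℝ))).subset ?_
  rintro _ ⟨hg, γ, rfl⟩
  refine ⟨γ, fun i j => abs_le.1 ?_, rfl⟩
  have h1 := (norm_entry_le _ i j).trans (hR _ ⟨_, hg, rfl⟩)
  have h2 : ((|γ i j| : ℤ) : ℝ) ≤ (⌈R⌉ : ℤ) := by
    rw [Int.cast_abs]; exact le_trans h1 (Int.le_ceil _)
  exact_mod_cast h2

/-- A subgroup that meets compact sets in finite sets is closed. -/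
theorem isClosed_of_finite {H : Type} [Group H] [TopologicalSpace H] [T2Space H]
    [LocallyCompactSpace H] {Γ : Subgroup H}
    (h : ∀ C : Set H, IsCompact C → (C ∩ Γ).Finite) : IsClosed (Γ : Set H) := by
  refine isClosed_of_closure_subset fun x hx => ?_
  obtain ⟨C, hC, hxC⟩ := exists_compact_mem_nhds x
  have h2 : x ∈ closure (C ∩ Γ) := by
    rw [mem_closure_iff_nhds] at hx ⊢
    intro t ht
    obtain ⟨y, hy⟩ := hx (t ∩ C) (inter_mem ht hxC)
    exact ⟨y, hy.1.1, hy.1.2, hy.2⟩
  rw [(h C hC).isClosed.closure_eq] at h2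
  exact h2.2

instance Gam_closed : IsClosed (Gam p : Set (GG p)) := isClosed_of_finite fun _ => Gam_finite p

instance Gam0_closed : IsClosed (Gam0 : Set SL(2, ℝ)) := isClosed_of_finite fun _ => Gam0_finite

/-- `X = G / Γ`. -/
abbrev XX : Type := GG p ⧸ Gam p

/-- `Y₀ = SL₂(ℝ) / SL₂(ℤ)`. -/
abbrev YY : Type := SL(2, ℝ) ⧸ Gam0

instance instPolishXX : PolishSpace (XX p) := polish_of_lc _

instance instPolishYY : PolishSpace YY := polish_of_lc _

instance instBSXX : BorelSpace (XX p) := inferInstance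

instance instBSYY : BorelSpace YY := inferInstance

/-- The image of an integral matrix in `SL₂(ℝ)`. -/
def toR : SL(2, ℤ) →* SL(2, ℝ) := Matrix.SpecialLinearGroup.map (Int.castRingHom ℝ)

/-- The image of an integral matrix in `SL₂(ℚ_p)`. -/
def toP : SL(2, ℤ) →* SL(2, ℚ_[p]) := Matrix.SpecialLinearGroup.map (Int.castRingHom ℚ_[p])

/-- The `p`-adic unipotent `u(s)` as an element of `G`. -/
def uP (s : ℚ_[p]) : GG p := (1, uu s)

/-- The `p`-adic diagonal element `diag(p^j, p^{-j})` as an element of `G`. -/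
def aP (j : ℕ) : GG p :=
  (1, dg ((p : ℚ_[p]) ^ j) (pow_ne_zero _ (Nat.cast_ne_zero.2 (Fact.out : p.Prime).ne_zero)))

theorem uP_add (s t : ℚ_[p]) : uP p (s + t) = uP p s * uP p t := by simp [uP, uu_add]

@[simp] theorem uP_zero : uP p 0 = 1 := by simp [uP]

theorem continuous_uP : Continuous (uP p) := continuous_const.prodMk continuous_uu

/-- The unipotent flow on `X`. -/
def ufl1 : Flow ℚ_[p] (XX p) where
  toFun s x := uP p s • x
  cont' := ((continuous_uP p).comp continuous_fst).smul continuous_snd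
  map_add' s t x := by rw [uP_add, mul_smul]
  map_zero' x := by simp

/-- The unipotent flow on `X × X` with speeds `d₁, d₂`. -/
def ufl2 (d₁ d₂ : ℚ_[p]) : Flow ℚ_[p] (XX p × XX p) where
  toFun s w := (uP p (d₁ * s) • w.1, uP p (d₂ * s) • w.2)
  cont' := (((continuous_uP p).comp (continuous_const.mul continuous_fst)).smul
      continuous_snd.fst).prodMk
    (((continuous_uP p).comp (continuous_const.mul continuous_fst)).smul continuous_snd.snd)
  map_add' s t x := by simp only [mul_add, uP_add, mul_smul]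
  map_zero' x := by simp

/-- The unipotent flow on `X^κ` with speeds `d`. -/
def ufl {κ : Type} (d : κ → ℚ_[p]) : Flow ℚ_[p] (κ → XX p) where
  toFun s w := fun k => uP p (d k * s) • w k
  cont' := continuous_pi fun k =>
    ((continuous_uP p).comp (continuous_const.mul continuous_fst)).smul
      ((continuous_apply k).comp continuous_snd)
  map_add' s t x := by simp only [mul_add, uP_add, mul_smul]
  map_zero' x := by simp

theorem ufl1_apply (s : ℚ_[p]) (x : XX p) : ufl1 p s x = uP p s • x := rfl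

theorem ufl2_apply (d₁ d₂ s : ℚ_[p]) (w : XX p × XX p) :
    ufl2 p d₁ d₂ s w = (uP p (d₁ * s) • w.1, uP p (d₂ * s) • w.2) := rfl

theorem ufl_apply {κ : Type} (d : κ → ℚ_[p]) (s : ℚ_[p]) (w : κ → XX p) :
    ufl p d s w = fun k => uP p (d k * s) • w k := rfl

/-- The stabiliser of a measure. -/
def Stab (H : Type) {W : Type} [Group H] [MulAction H W] [MeasurableSpace W]
    [MeasurableConstSMul H W] (ρ : Measure W) : Subgroup H where
  carrier := {g | ρ.map (fun w => g • w) = ρ}
  one_mem' := by simp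
  mul_mem' := fun {a b} ha hb => by
    have ha' : ρ.map (fun w => a • w) = ρ := ha
    have hb' : ρ.map (fun w => b • w) = ρ := hb
    change ρ.map (fun w => (a * b) • w) = ρ
    have : (fun w : W => (a * b) • w) = (fun w => a • w) ∘ (fun w => b • w) := by
      ext w; simp [mul_smul]
    rw [this, ← Measure.map_map (measurable_const_smul a) (measurable_const_smul b), hb', ha']
  inv_mem' := fun {a} ha => by
    have ha' : ρ.map (fun w => a • w) = ρ := ha
    change ρ.map (fun w => a⁻¹ • w) = ρ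
    conv_lhs => rw [← ha']
    rw [Measure.map_map (measurable_const_smul a⁻¹) (measurable_const_smul a)]
    have : ((fun w : W => a⁻¹ • w) ∘ fun w => a • w) = id := by ext w; simp
    rw [this, Measure.map_id]

theorem mem_Stab {H W : Type} [Group H] [MulAction H W] [MeasurableSpace W]
    [MeasurableConstSMul H W] {ρ : Measure W} {g : H} :
    g ∈ Stab H ρ ↔ ρ.map (fun w => g • w) = ρ := Iff.rfl

/-- All entries have norm at most `R`. -/
def Bd {F : Type} [NormedField F] (R : ℝ) (P : Matrix (Fin 2) (Fin 2) F) : Prop :=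
  ∀ i j, ‖P i j‖ ≤ R

/-- `θ` is conjugation by an invertible real matrix. -/
def IsConjHom (θ : SL(2, ℝ) →* SL(2, ℝ)) : Prop :=
  ∃ η : Matrix (Fin 2) (Fin 2) ℝ, η.det ≠ 0 ∧
    ∀ h : SL(2, ℝ), (θ h : Matrix (Fin 2) (Fin 2) ℝ) * η = η * (h : Matrix (Fin 2) (Fin 2) ℝ)


end Pool.Agent.EQ
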