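import Pool.Agent.P.MP_ad7a55_nt.Base

/-! Normalised Haar measure on p-adic balls. -/

set_option autoImplicit false

noncomputable section

open MeasureTheory Topology Filter UpperHalfPlane
open scoped MatrixGroups ENNReal BoundedContinuousFunction

namespace Pool.Agent.EQ

variable (p : ℕ) [Fact p.Prime]

/-- The closed ball of radius `p^k`. -/
def pb (c : ℚ_[p]) (k : ℤ) : Set ℚ_[p] := Metric.closedBall c ((p : ℝ) ^ k)

/-- Normalised Haar measure of the ball of radius `p^k` around `0`. -/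
def bm (k : ℤ) : Measure ℚ_[p] := ProbabilityTheory.cond Measure.addHaar (pb p 0 k)

theorem mem_pb {c s : ℚ_[p]} {k : ℤ} : s ∈ pb p c k ↔ ‖s - c‖ ≤ (p : ℝ) ^ k := by
  rw [pb, Metric.mem_closedBall, dist_eq_norm]

theorem measurableSet_pb (c : ℚ_[p]) (k : ℤ) : MeasurableSet (pb p c k) :=
  Metric.isClosed_closedBall.measurableSet

theorem beta_pos (k : ℤ) : (0 : ℝ) < (p : ℝ) ^ k :=
  zpow_pos (Nat.cast_pos.2 (Fact.out : p.Prime).pos) k

theorem beta_one_lt : (1 : ℝ) < (p : ℝ) := by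
  exact_mod_cast (Fact.out : p.Prime).one_lt

theorem beta_mono {k l : ℤ} (h : l ≤ k) : (p : ℝ) ^ l ≤ (p : ℝ) ^ k :=
  zpow_le_zpow_right₀ (beta_one_lt p).le h

theorem beta_open (c : ℚ_[p]) (k : ℤ) : IsOpen (pb p c k) :=
  IsUltrametricDist.isOpen_closedBall c (beta_pos p k).ne'

theorem beta_self (c : ℚ_[p]) (k : ℤ) : c ∈ pb p c k :=
  Metric.mem_closedBall_self (beta_pos p k).le

theorem beta_eq {c s : ℚ_[p]} {k : ℤ} (h : s ∈ pb p c k) : pb p c k = pb p s k :=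
  IsUltrametricDist.closedBall_eq_of_mem h

theorem beta_sub (c : ℚ_[p]) {k l : ℤ} (h : l ≤ k) : pb p c l ⊆ pb p c k :=
  Metric.closedBall_subset_closedBall (beta_mono p h)

theorem beta_mem0 {s : ℚ_[p]} {k : ℤ} : s ∈ pb p 0 k ↔ ‖s‖ ≤ (p : ℝ) ^ k := by
  rw [mem_pb, sub_zero]

theorem beta_sub' {c : ℚ_[p]} {k l : ℤ} (h : l ≤ k) (hc : ‖c‖ ≤ (p : ℝ) ^ k) :
    pb p c l ⊆ pb p 0 k := by
  rw [beta_eq p ((beta_mem0 p).2 hc)]
  exact beta_sub p c h

/-- Haar measure of a ball of radius `p^k`. -/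
def betaH (k : ℤ) : ℝ≥0∞ := (Measure.addHaar : Measure ℚ_[p]) (pb p 0 k)

theorem betaH_ne_zero (k : ℤ) : betaH p k ≠ 0 :=
  ((beta_open p 0 k).measure_pos _ ⟨0, beta_self p 0 k⟩).ne'

theorem betaH_ne_top (k : ℤ) : betaH p k ≠ ∞ :=
  (isCompact_closedBall (0 : ℚ_[p]) _).measure_lt_top.ne

theorem beta_haar (c : ℚ_[p]) (k : ℤ) :
    (Measure.addHaar : Measure ℚ_[p]) (pb p c k) = betaH p k := by
  have : pb p 0 k = (fun s => s + c) ⁻¹' pb p c k := by
    ext s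
    simp [mem_pb]
  rw [betaH, this, measure_preimage_add_right]

theorem beta_digit {x : ℚ_[p]} (hx : ‖x‖ ≤ 1) :
    ∃ n : ℕ, n < p ∧ ‖x - n‖ ≤ (p : ℝ) ^ (-1 : ℤ) := by
  obtain ⟨n, hn, h⟩ := PadicInt.exists_mem_range (x := (⟨x, hx⟩ : ℤ_[p]))
  refine ⟨n, hn, ?_⟩
  rw [IsLocalRing.mem_maximalIdeal, PadicInt.mem_nonunits] at h
  rw [Padic.norm_le_pow_iff_norm_lt_pow_add_one]
  simpa [PadicInt.norm_def] using h

theorem betaH_succ (k : ℤ) : betaH p (k + 1) = p * betaH p k := by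
  have hp0 : (p : ℚ_[p]) ≠ 0 := Nat.cast_ne_zero.2 (Fact.out : p.Prime).ne_zero
  have hp0' : (p : ℝ) ≠ 0 := Nat.cast_ne_zero.2 (Fact.out : p.Prime).ne_zero
  set e : ℚ_[p] := (p : ℚ_[p]) ^ (-(k + 1)) with he
  have hen : ‖e‖ = (p : ℝ) ^ (k + 1) := by rw [he, Padic.norm_p_zpow, neg_neg]
  have he0 : e ≠ 0 := zpow_ne_zero _ hp0
  have h1 : pb p 0 (k + 1) = ⋃ n ∈ Finset.range p, pb p (n * e) k := by
    ext s
    simp only [Set.mem_iUnion, Finset.mem_range, exists_prop]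
    constructor
    · intro hs
      rw [beta_mem0] at hs
      have hx : ‖s / e‖ ≤ 1 := by
        rw [norm_div, hen]
        exact (div_le_one (beta_pos p _)).2 hs
      obtain ⟨n, hn, h⟩ := beta_digit p hx
      refine ⟨n, hn, (mem_pb p).2 ?_⟩
      have : s - n * e = (s / e - n) * e := by field_simp
      rw [this, norm_mul, hen]
      calc _ ≤ (p : ℝ) ^ (-1 : ℤ) * (p : ℝ) ^ (k + 1) :=
            mul_le_mul_of_nonneg_right h (beta_pos p _).le
        _ = (p : ℝ) ^ k := by rw [← zpow_add₀ hp0']; congr 1; ring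
    · rintro ⟨n, _, h⟩
      refine beta_sub' p (by omega) ?_ h
      rw [norm_mul, hen]
      exact mul_le_of_le_one_left (beta_pos p _).le (IsUltrametricDist.norm_natCast_le_one _ n)
  have h2 : Set.PairwiseDisjoint (↑(Finset.range p) : Set ℕ) fun n : ℕ => pb p (n * e) k := by
    intro n hn m hm hnm
    refine (IsUltrametricDist.closedBall_eq_or_disjoint _ _ _).resolve_left fun h => hnm ?_
    have h3 : (n : ℚ_[p]) * e ∈ pb p (m * e) k := by
      have := beta_self p ((n : ℚ_[p]) * e) k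
      rwa [pb, h] at this
    rw [mem_pb, ← sub_mul, norm_mul, hen, zpow_add_one₀ hp0', mul_comm ((p : ℝ) ^ k), ← mul_assoc]
      at h3
    have h4 : ‖(n : ℚ_[p]) - m‖ * p ≤ 1 := by
      have := beta_pos p k
      nlinarith
    have h5 : ‖(((n : ℤ) - m : ℤ) : ℚ_[p])‖ < 1 := by
      push_cast
      have h6 := beta_one_lt p
      have h7 := norm_nonneg ((n : ℚ_[p]) - m)
      nlinarith
    rw [Padic.norm_intCast_lt_one_iff] at h5
    have hn' : n < p := Finset.mem_range.1 hn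
    have hm' : m < p := Finset.mem_range.1 hm
    have := Int.eq_zero_of_abs_lt_dvd h5 (by rw [abs_lt]; constructor <;> omega)
    omega
  rw [betaH, h1, measure_biUnion_finset h2 fun n _ => measurableSet_pb p _ _]
  simp [beta_haar]

theorem betaH_eq (k : ℤ) : betaH p k = ENNReal.ofReal ((p : ℝ) ^ k) * betaH p 0 := by
  have hp0' : (p : ℝ) ≠ 0 := Nat.cast_ne_zero.2 (Fact.out : p.Prime).ne_zero
  have hp1 : (p : ℝ≥0∞) ≠ 0 := Nat.cast_ne_zero.2 (Fact.out : p.Prime).ne_zero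
  have hs : ∀ j : ℤ, ENNReal.ofReal ((p : ℝ) ^ (j + 1)) = p * ENNReal.ofReal ((p : ℝ) ^ j) :=
    fun j => by
      rw [zpow_add_one₀ hp0', mul_comm, ENNReal.ofReal_mul (Nat.cast_nonneg _),
        ENNReal.ofReal_natCast]
  induction k using Int.induction_on with
  | zero => simp
  | succ j ih => rw [betaH_succ, ih, hs, mul_assoc]
  | pred j ih =>
    have e : (-(j : ℤ)) = (-(j : ℤ) - 1) + 1 := by ring
    rw [e, betaH_succ, hs, mul_assoc] at ih
    exact (ENNReal.mul_right_inj hp1 (ENNReal.natCast_ne_top p)).1 ih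

theorem betaH_rel (k l : ℤ) : betaH p l = ENNReal.ofReal ((p : ℝ) ^ (l - k)) * betaH p k := by
  have hp0' : (p : ℝ) ≠ 0 := Nat.cast_ne_zero.2 (Fact.out : p.Prime).ne_zero
  rw [betaH_eq p l, betaH_eq p k, ← mul_assoc, ← ENNReal.ofReal_mul (beta_pos p _).le,
    ← zpow_add₀ hp0', sub_add_cancel]

theorem betaH_div (k l : ℤ) :
    (betaH p k)⁻¹ * betaH p l = ENNReal.ofReal ((p : ℝ) ^ (l - k)) := by
  rw [betaH_rel p k l, mul_left_comm,
    ENNReal.inv_mul_cancel (betaH_ne_zero p k) (betaH_ne_top p k), mul_one]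

theorem beta_apply (k : ℤ) (E : Set ℚ_[p]) :
    bm p k E = (betaH p k)⁻¹ * (Measure.addHaar : Measure ℚ_[p]) (pb p 0 k ∩ E) :=
  ProbabilityTheory.cond_apply (measurableSet_pb p 0 k) _ E

theorem beta_congr (k : ℤ) {E F : Set ℚ_[p]} (h : pb p 0 k ∩ E = pb p 0 k ∩ F) :
    bm p k E = bm p k F := by
  rw [beta_apply, beta_apply, h]

/-- Probability measures that agree on all balls are equal. -/
theorem beta_ext {μ ν : Measure ℚ_[p]} [IsProbabilityMeasure μ] [IsProbabilityMeasure ν]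
    (h : ∀ c l, μ (pb p c l) = ν (pb p c l)) : μ = ν := by
  have hb : TopologicalSpace.IsTopologicalBasis {E : Set ℚ_[p] | ∃ c l, E = pb p c l} := by
    refine TopologicalSpace.isTopologicalBasis_of_isOpen_of_nhds ?_ ?_
    · rintro _ ⟨c, l, rfl⟩
      exact beta_open p c l
    · intro a u ha hu
      obtain ⟨ε, hε, hsub⟩ := Metric.isOpen_iff.1 hu a ha
      obtain ⟨n, hn⟩ := PadicInt.exists_pow_neg_lt p hε
      exact ⟨_, ⟨a, _, rfl⟩, beta_self p a _, (Metric.closedBall_subset_ball hn).trans hsub⟩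
  refine ext_of_generate_finite _ hb.borel_eq_generateFrom ?_ ?_ (by simp)
  · rintro _ ⟨c, l, rfl⟩ _ ⟨c', l', rfl⟩ ⟨s, hs, hs'⟩
    rw [beta_eq p hs, beta_eq p hs']
    rcases le_total l l' with hl | hl
    · exact ⟨s, l, Set.inter_eq_left.2 (beta_sub p s hl)⟩
    · exact ⟨s, l', Set.inter_eq_right.2 (beta_sub p s hl)⟩
  · rintro _ ⟨c, l, rfl⟩
    exact h c l

instance instProbbm (k : ℤ) : IsProbabilityMeasure (bm p k) :=
  ProbabilityTheory.cond_isProbabilityMeasure_of_finite (betaH_ne_zero p k) (betaH_ne_top p k)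

theorem bm_ae (k : ℤ) : ∀ᵐ s ∂bm p k, ‖s‖ ≤ (p : ℝ) ^ k :=
  (ProbabilityTheory.ae_cond_mem (measurableSet_pb p 0 k)).mono fun _ hs => (beta_mem0 p).1 hs

theorem bm_add {k : ℤ} {t : ℚ_[p]} (ht : ‖t‖ ≤ (p : ℝ) ^ k) :
    (bm p k).map (fun s => s + t) = bm p k := by
  ext E hE
  rw [Measure.map_apply (measurable_add_const t) hE, beta_apply, beta_apply,
    ← measure_preimage_add_right Measure.addHaar t (pb p 0 k ∩ E)]
  congr 2
  ext s
  simp only [Set.mem_inter_iff, Set.mem_preimage]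
  refine and_congr_left fun _ => ?_
  conv_rhs => rw [beta_eq p ((beta_mem0 p).2 ht)]
  simp [mem_pb]

theorem bm_ball {k l : ℤ} (hl : l ≤ k) {c : ℚ_[p]} (hc : ‖c‖ ≤ (p : ℝ) ^ k) :
    bm p k (pb p c l) = ENNReal.ofReal ((p : ℝ) ^ (l - k)) := by
  rw [beta_apply, Set.inter_eq_right.2 (beta_sub' p hl hc), beta_haar, betaH_div]

theorem beta_full {k l : ℤ} (hl : k ≤ l) {c : ℚ_[p]} (hc : c ∈ pb p 0 k) :
    bm p k (pb p c l) = 1 := by
  rw [← measure_univ (μ := bm p k)]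
  refine beta_congr p k ?_
  rw [Set.inter_univ, Set.inter_eq_left, beta_eq p hc]
  exact beta_sub p c hl

theorem bm_ball_le (k l : ℤ) (c : ℚ_[p]) :
    bm p k (pb p c l) ≤ ENNReal.ofReal ((p : ℝ) ^ (l - k)) := by
  rw [beta_apply, ← betaH_div, ← beta_haar p c l]
  exact mul_le_mul_right (measure_mono Set.inter_subset_right) _

theorem bm_le {k l : ℤ} (hl : l ≤ k) (E : Set ℚ_[p]) :
    bm p l E ≤ ENNReal.ofReal ((p : ℝ) ^ (k - l)) * bm p k E := by
  rw [beta_apply, beta_apply, ← betaH_div, ← mul_assoc, mul_assoc _ (betaH p k),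
    ENNReal.mul_inv_cancel (betaH_ne_zero p k) (betaH_ne_top p k), mul_one]
  exact mul_le_mul_right (measure_mono (Set.inter_subset_inter_left _ (beta_sub p 0 hl))) _

theorem bm_countable (k : ℤ) {E : Set ℚ_[p]} (hE : E.Countable) : bm p k E = 0 :=
  ProbabilityTheory.cond_absolutelyContinuous (hE.measure_zero _)

theorem bm_mul (k v : ℤ) {d : ℚ_[p]} (hd : ‖d‖ = (p : ℝ) ^ v) :
    (bm p k).map (fun s => d * s) = bm p (k + v) := by
  have hp0' : (p : ℝ) ≠ 0 := Nat.cast_ne_zero.2 (Fact.out : p.Prime).ne_zero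
  have hm : Measurable fun s : ℚ_[p] => d * s := measurable_const_mul d
  have hd0 : d ≠ 0 := norm_pos_iff.1 (hd ▸ beta_pos p v)
  have := Measure.isProbabilityMeasure_map (μ := bm p k) hm.aemeasurable
  have hpre : ∀ (c : ℚ_[p]) (l : ℤ), (fun s => d * s) ⁻¹' pb p (d * c) (l + v) = pb p c l := by
    intro c l
    ext s
    rw [Set.mem_preimage, mem_pb, mem_pb, ← mul_sub, norm_mul, hd, zpow_add₀ hp0', mul_comm]
    exact mul_le_mul_iff_left₀ (beta_pos p v)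
  refine beta_ext p fun c l => ?_
  obtain ⟨c, rfl⟩ : ∃ c', c = d * c' := ⟨c / d, by field_simp⟩
  obtain ⟨l, rfl⟩ : ∃ l', l = l' + v := ⟨l - v, by ring⟩
  rw [Measure.map_apply hm (measurableSet_pb p _ _), hpre]
  have h0 := hpre 0 k
  rw [mul_zero] at h0
  rcases Set.eq_empty_or_nonempty (pb p 0 k ∩ pb p c l) with h | ⟨s, hs, hs'⟩
  · have h' : pb p 0 (k + v) ∩ pb p (d * c) (l + v) = ∅ := by
      rw [Set.eq_empty_iff_forall_notMem] at h ⊢
      intro s hs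
      obtain ⟨s, rfl⟩ : ∃ s', s = d * s' := ⟨s / d, by field_simp⟩
      exact h s ⟨h0 ▸ hs.1, hpre c l ▸ hs.2⟩
    rw [beta_apply, beta_apply, h, h', measure_empty, mul_zero, mul_zero]
  · have ht : d * s ∈ pb p 0 (k + v) := by rw [← h0] at hs; exact hs
    have ht' : d * s ∈ pb p (d * c) (l + v) := by rw [← hpre c l] at hs'; exact hs'
    rw [beta_eq p hs', beta_eq p ht']
    rcases le_total l k with hl | hl
    · rw [bm_ball p hl ((beta_mem0 p).1 hs), bm_ball p (by omega) ((beta_mem0 p).1 ht)]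
      congr 2
      ring
    · rw [beta_full p hl hs, beta_full p (by omega) ht]

theorem beta_dense {ψ : ℚ_[p] → ℚ_[p]} (h1 : ∀ s, ‖s‖ ≤ 1 → ‖ψ s‖ ≤ 1)
    (h2 : ∀ s t, ‖s‖ ≤ 1 → ‖t‖ ≤ 1 → ‖ψ s - ψ t‖ = ‖s - t‖) (n : ℕ) {c : ℚ_[p]}
    (hc : ‖c‖ ≤ 1) : ∃ a, ‖a‖ ≤ 1 ∧ ‖ψ a - c‖ ≤ (p : ℝ) ^ (-n : ℤ) := by
  have : NeZero (p ^ n) := ⟨pow_ne_zero _ (Fact.out : p.Prime).ne_zero⟩
  have hk : ∀ x y : ℤ_[p], PadicInt.toZModPow n x = PadicInt.toZModPow n y ↔
      ‖(x : ℚ_[p]) - y‖ ≤ (p : ℝ) ^ (-n : ℤ) := fun x y => by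
    rw [← RingHom.sub_mem_ker_iff, PadicInt.ker_toZModPow,
      ← PadicInt.norm_le_pow_iff_mem_span_pow, PadicInt.norm_def, PadicInt.coe_sub]
  have hn : ∀ m : ℕ, ‖(m : ℚ_[p])‖ ≤ 1 := fun m => IsUltrametricDist.norm_natCast_le_one _ m
  let f : ZMod (p ^ n) → ZMod (p ^ n) := fun a =>
    PadicInt.toZModPow n ⟨ψ (a.val : ℚ_[p]), h1 _ (hn _)⟩
  have hf : Function.Injective f := by
    intro a b hab
    have h3 := (hk _ _).1 hab
    rw [h2 _ _ (hn _) (hn _)] at h3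
    have h4 := (hk (a.val : ℤ_[p]) (b.val : ℤ_[p])).2 (by simpa only [PadicInt.coe_natCast] using h3)
    simpa using h4
  obtain ⟨a, ha⟩ := Finite.surjective_of_injective hf (PadicInt.toZModPow n ⟨c, hc⟩)
  exact ⟨_, hn _, (hk _ _).1 ha⟩

/-- A distance-preserving self-map of the unit ball preserves its measure. -/
theorem bm_iso {ψ : ℚ_[p] → ℚ_[p]} (hψ : Measurable ψ) (h1 : ∀ s, ‖s‖ ≤ 1 → ‖ψ s‖ ≤ 1)
    (h2 : ∀ s t, ‖s‖ ≤ 1 → ‖t‖ ≤ 1 → ‖ψ s - ψ t‖ = ‖s - t‖) : (bm p 0).map ψ = bm p 0 := by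
  have := Measure.isProbabilityMeasure_map (μ := bm p 0) hψ.aemeasurable
  have hu : ∀ {s : ℚ_[p]}, s ∈ pb p 0 0 ↔ ‖s‖ ≤ 1 := by
    intro s
    rw [beta_mem0, zpow_zero]
  refine beta_ext p fun c l => ?_
  rw [Measure.map_apply hψ (measurableSet_pb p _ _)]
  rcases Set.eq_empty_or_nonempty (pb p 0 0 ∩ pb p c l) with h | ⟨s, hs, hs'⟩
  · have h' : pb p 0 0 ∩ ψ ⁻¹' pb p c l = ∅ := by
      rw [Set.eq_empty_iff_forall_notMem] at h ⊢
      exact fun s hs => h (ψ s) ⟨hu.2 (h1 s (hu.1 hs.1)), hs.2⟩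
    rw [beta_apply, beta_apply, h, h']
  · rw [beta_eq p hs']
    rcases le_total l 0 with hl | hl
    · obtain ⟨n, rfl⟩ : ∃ n : ℕ, l = -n := ⟨(-l).toNat, by omega⟩
      obtain ⟨a, ha, hb⟩ := beta_dense p h1 h2 n (hu.1 hs)
      have h3 : pb p 0 0 ∩ ψ ⁻¹' pb p s (-n) = pb p 0 0 ∩ pb p a (-n) := by
        rw [beta_eq p ((mem_pb p).2 hb)]
        ext t
        simp only [Set.mem_inter_iff, Set.mem_preimage]
        refine and_congr_right fun ht => ?_
        rw [mem_pb, mem_pb, h2 t a (hu.1 ht) ha]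
      rw [beta_congr p 0 h3, bm_ball p hl ((beta_mem0 p).1 (hu.2 ha)),
        bm_ball p hl ((beta_mem0 p).1 hs)]
    · rw [beta_full p hl hs, ← measure_univ (μ := bm p 0)]
      refine beta_congr p 0 ?_
      rw [Set.inter_univ, Set.inter_eq_left]
      intro t ht
      have h4 : ψ t ∈ pb p 0 0 := hu.2 (h1 t (hu.1 ht))
      rw [beta_eq p hs] at h4
      exact beta_sub p s hl h4

end Pool.Agent.EQ
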