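import Pool.Agent.P.MP_ad7a55_nt.Beta

/-! Normalised Haar measure on p-adic balls. -/

set_option autoImplicit false

noncomputable section

open MeasureTheory Topology Filter UpperHalfPlane
open scoped MatrixGroups ENNReal BoundedContinuousFunction

namespace Pool.Agent.EQ

variable (p : ℕ) [Fact p.Prime]

theorem beta2_one_lt : (1 : ℝ) < p := by exact_mod_cast (Fact.out : p.Prime).one_lt

theorem beta2_pb_eq {c s : ℚ_[p]} {k : ℤ} (h : s ∈ pb p c k) : pb p c k = pb p s k :=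
  IsUltrametricDist.closedBall_eq_of_mem h

theorem beta2_pb_mono (c : ℚ_[p]) {k l : ℤ} (h : k ≤ l) : pb p c k ⊆ pb p c l :=
  Metric.closedBall_subset_closedBall (zpow_le_zpow_right₀ (beta2_one_lt p).le h)

theorem beta2_self (c : ℚ_[p]) (k : ℤ) : c ∈ pb p c k :=
  Metric.mem_closedBall_self (by positivity)

/-- Ultrametric covering lemma. -/
theorem bm_cover {l₀ r : ℤ} (E : Set ℚ_[p]) (c : ℝ≥0∞)
    (h : ∀ s ∈ E, ‖s‖ ≤ (p : ℝ) ^ r → ∃ l, l₀ ≤ l ∧ l ≤ r ∧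
      bm p r (E ∩ pb p s l) ≤ c * bm p r (pb p s l)) : bm p r E ≤ c := by
  have hp := beta2_one_lt p
  let S : Set (Set ℚ_[p]) := {B | ∃ s l, B = pb p s l ∧
    (l ≤ r ∧ bm p r (E ∩ pb p s l) ≤ c * bm p r (pb p s l)) ∧
    ∀ k, (k ≤ r ∧ bm p r (E ∩ pb p s k) ≤ c * bm p r (pb p s k)) → k ≤ l}
  have key : ∀ s l s' l', l ≤ l' →
      (∀ k, (k ≤ r ∧ bm p r (E ∩ pb p s k) ≤ c * bm p r (pb p s k)) → k ≤ l) →
      (l' ≤ r ∧ bm p r (E ∩ pb p s' l') ≤ c * bm p r (pb p s' l')) →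
      ∀ z, z ∈ pb p s l → z ∈ pb p s' l' → pb p s l = pb p s' l' := by
    intro s l s' l' hl h1 h2 z hz hz'
    have e : pb p s l' = pb p s' l' :=
      (beta2_pb_eq p (beta2_pb_mono p s hl hz)).trans (beta2_pb_eq p hz').symm
    obtain rfl : l = l' := le_antisymm hl (h1 l' (e ▸ h2))
    exact e
  have hd : S.Pairwise Disjoint := by
    rintro _ ⟨s, l, rfl, h1, h2⟩ _ ⟨s', l', rfl, h1', h2'⟩ hne
    refine Set.disjoint_left.2 fun z hz hz' => hne ?_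
    rcases le_total l l' with hl | hl
    · exact key s l s' l' hl h2 h1' z hz hz'
    · exact (key s' l' s l hl h2' h1 z hz' hz).symm
  have hc : S.Countable := by
    refine Set.PairwiseDisjoint.countable_of_isOpen (s := id) hd ?_ ?_
    · rintro _ ⟨s, l, rfl, -⟩
      exact IsUltrametricDist.isOpen_closedBall _ (by positivity)
    · rintro _ ⟨s, l, rfl, -⟩
      exact ⟨s, beta2_self p s l⟩
  calc bm p r E ≤ bm p r (⋃ B ∈ S, E ∩ B) := by
        refine measure_mono_ae ((bm_ae p r).mono fun s hs hE => ?_)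
        obtain ⟨l, -, hl⟩ := h s hE hs
        obtain ⟨L, hL, hL'⟩ := Int.exists_greatest_of_bdd
          (P := fun k => k ≤ r ∧ bm p r (E ∩ pb p s k) ≤ c * bm p r (pb p s k))
          ⟨r, fun z hz => hz.1⟩ ⟨l, hl⟩
        exact Set.mem_biUnion (show pb p s L ∈ S from ⟨s, L, rfl, hL, hL'⟩)
          ⟨hE, beta2_self p s L⟩
    _ ≤ ∑' B : S, bm p r (E ∩ B) := measure_biUnion_le _ hc _
    _ ≤ ∑' B : S, c * bm p r B := ENNReal.tsum_le_tsum (by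
        rintro ⟨_, s, l, rfl, h1, -⟩
        exact h1.2)
    _ = c * bm p r (⋃₀ S) := by
        rw [ENNReal.tsum_mul_left, measure_sUnion hc hd]
        rintro _ ⟨s, l, rfl, -⟩
        exact measurableSet_pb p s l
    _ ≤ c := mul_le_of_le_one_right' prob_le_one

theorem beta2_term {q u v d d' : ℚ_[p]} {R A B : ℝ} (hB : 0 < B) (hq : ‖q‖ ≤ R) (hu : ‖u‖ ≤ A)
    (hv : ‖v‖ ≤ A) (hd : B < ‖d‖) (hd' : B < ‖d'‖) :
    ‖q * (u * v) / (d * d')‖ ≤ R * (A * A / (B * B)) := by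
  have hA := (norm_nonneg u).trans hu
  have hR := (norm_nonneg q).trans hq
  rw [norm_div, norm_mul, norm_mul, norm_mul, mul_div_assoc]
  gcongr

/-- Quadratic polynomials small at three separated points are bounded on the parent ball. -/
theorem three_point {ι : Type} (a b c : ι → ℚ_[p]) (s₀ : ℚ_[p]) (l : ℤ) (e : ℕ) {R : ℝ}
    (hR : 0 ≤ R) :
    (∀ s ∈ pb p s₀ (l + 1), ∀ i, ‖a i + b i * s + c i * s ^ 2‖ ≤ R * (p : ℝ) ^ (2 * e + 2)) ∨
      ∃ s₁ s₂, ∀ s ∈ pb p s₀ l, (∀ i, ‖a i + b i * s + c i * s ^ 2‖ ≤ R) →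
        s ∈ pb p s₁ (l - e) ∪ pb p s₂ (l - e) := by
  have hp := beta2_one_lt p
  have hp0 : (0 : ℝ) < p := by linarith
  refine or_iff_not_imp_right.2 fun hn s hs i => ?_
  push Not at hn
  obtain ⟨x, hx, hx', -⟩ := hn 0 0
  obtain ⟨y, hy, hy', hyx⟩ := hn x x
  obtain ⟨z, hz, hz', hzx⟩ := hn x y
  simp only [Set.mem_union, mem_pb, not_or, not_le] at hyx hzx
  have hB : (0 : ℝ) < (p : ℝ) ^ (l - e) := by positivity
  have hA : ∀ w ∈ pb p s₀ l, ‖s - w‖ ≤ (p : ℝ) ^ (l + 1) := fun w hw =>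
    (mem_pb p).1 (beta2_pb_eq p (beta2_pb_mono p s₀ (show l ≤ l + 1 by omega) hw) ▸ hs)
  have h1 : y - x ≠ 0 := norm_pos_iff.1 (hB.trans hyx.1)
  have h2 : z - x ≠ 0 := norm_pos_iff.1 (hB.trans hzx.1)
  have h3 : z - y ≠ 0 := norm_pos_iff.1 (hB.trans hzx.2)
  have e1 : a i + b i * s + c i * s ^ 2 =
      (a i + b i * x + c i * x ^ 2) * ((s - y) * (s - z)) / ((y - x) * (z - x)) +
      (-((a i + b i * y + c i * y ^ 2) * ((s - x) * (s - z)) / ((y - x) * (z - y))) +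
      (a i + b i * z + c i * z ^ 2) * ((s - x) * (s - y)) / ((z - x) * (z - y))) := by
    field_simp
    ring
  have e2 : (p : ℝ) ^ (2 * e + 2) =
      (p : ℝ) ^ (l + 1) * (p : ℝ) ^ (l + 1) / ((p : ℝ) ^ (l - e) * (p : ℝ) ^ (l - e)) := by
    rw [← zpow_add₀ hp0.ne', ← zpow_add₀ hp0.ne', ← zpow_sub₀ hp0.ne', ← zpow_natCast]
    congr 1
    push_cast
    ring
  rw [e1, e2]
  refine (Padic.nonarchimedean _ _).trans (max_le ?_ ((Padic.nonarchimedean _ _).trans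
    (max_le ?_ ?_)))
  · exact beta2_term p hB (hx' i) (hA y hy) (hA z hz) hyx.1 hzx.1
  · rw [norm_neg]
    exact beta2_term p hB (hy' i) (hA x hx) (hA z hz) hyx.1 hzx.2
  · exact beta2_term p hB (hz' i) (hA x hx) (hA y hy) hzx.1 hzx.2

theorem coef_bound {a b c : ℚ_[p]} {l : ℤ} {R : ℝ}
    (h : ∀ s : ℚ_[p], ‖s‖ ≤ (p : ℝ) ^ (l + 1) → ‖a + b * s + c * s ^ 2‖ ≤ R) :
    ‖b‖ * (p : ℝ) ^ l ≤ R ∧ ‖c‖ * (p : ℝ) ^ (2 * l) ≤ R := by
  have hp := beta2_one_lt p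
  have hp0 : (0 : ℝ) < p := by linarith
  have sub : ∀ {u v : ℚ_[p]}, ‖u‖ ≤ R → ‖v‖ ≤ R → ‖u - v‖ ≤ R := fun {u v} hu hv => by
    rw [sub_eq_add_neg]
    exact (Padic.nonarchimedean _ _).trans (max_le hu (by rwa [norm_neg]))
  have hpn : ‖(p : ℚ_[p])‖ = (p : ℝ)⁻¹ := Padic.norm_p
  have hp1 : ‖(p : ℚ_[p])‖ ≤ 1 := Padic.norm_p_lt_one.le
  have hu : ‖(1 : ℚ_[p]) - p‖ = 1 := by
    rw [sub_eq_add_neg, Padic.add_eq_max_of_ne (by
      rw [norm_neg, norm_one]; exact Padic.norm_p_lt_one.ne'), norm_neg, norm_one]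
    exact max_eq_left hp1
  have small : ∀ {u : ℚ_[p]}, ‖u‖ ≤ R → ‖p * u‖ ≤ R := fun {u} hu => by
    rw [norm_mul]
    exact (mul_le_of_le_one_left (norm_nonneg _) hp1).trans hu
  obtain ⟨x, hx⟩ : ∃ x : ℚ_[p], ‖x‖ = (p : ℝ) ^ (l + 1) :=
    ⟨(p : ℚ_[p]) ^ (-(l + 1)), by rw [Padic.norm_p_zpow, neg_neg]⟩
  have h0 := h 0 (by rw [norm_zero]; positivity)
  have h1 := sub (h x hx.le) h0
  have h2 := sub (h (p * x) (by
    rw [norm_mul, ← hx]; exact mul_le_of_le_one_left (norm_nonneg _) hp1)) h0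
  have h3 := sub h2 (small (small h1))
  have h4 := sub (small h1) h2
  constructor
  · rw [show _ - _ = b * (x * (p * ((1 : ℚ_[p]) - p))) by ring, norm_mul, norm_mul, norm_mul, hu,
      hx, hpn, zpow_add_one₀ hp0.ne'] at h3
    convert h3 using 2
    field_simp
  · rw [show _ - _ = c * (x * x * (p * ((1 : ℚ_[p]) - p))) by ring, norm_mul, norm_mul, norm_mul,
      norm_mul, hu, hx, hpn, zpow_add_one₀ hp0.ne'] at h4
    refine le_trans ?_ h4
    gcongr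
    rw [two_mul, zpow_add₀ hp0.ne']
    have : (0 : ℝ) < (p : ℝ) ^ l := by positivity
    field_simp
    exact hp.le

theorem exists_norm_eq {d : ℚ_[p]} (hd : d ≠ 0) : ∃ v : ℤ, ‖d‖ = (p : ℝ) ^ v :=
  ⟨_, Padic.norm_eq_zpow_neg_valuation hd⟩

end Pool.Agent.EQ
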