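import Pool.Agent.P.MP_ad7a55_nt.Sing
import Pool.Agent.P.MP_ad7a55_nt.Avg2
import Pool.Agent.P.MP_ad7a55_nt.Weak2

/-! Linearisation: limits of ball orbits do not charge the singular set. -/

set_option autoImplicit false

noncomputable section

open MeasureTheory Topology Filter UpperHalfPlane
open scoped MatrixGroups ENNReal BoundedContinuousFunction

namespace Pool.Agent.EQ

variable (p : ℕ) [Fact p.Prime]

/-- No bounded rational map stays bounded along the whole ball. -/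
def NoExc (L : Filter ℕ) (x y : ℕ → XX p) (d₁ d₂ : ℕ → ℚ_[p]) (r : ℕ → ℤ) : Prop :=
  ∀ q : ℕ, 0 < q → ∀ δ : ℚ, δ ≠ 0 → ∀ R : ℝ, ∀ᶠ i in L, ∀ P ∈ HomS p q δ (x i) (y i), Bd R P.1 →
    ∃ s : ℚ_[p], ‖s‖ ≤ (p : ℝ) ^ r i ∧ ¬ Bd R (Pfl p (d₁ i) (d₂ i) s P.2)

theorem lin_bd_mono {F : Type} [NormedField F] {R R' : ℝ} {A : Matrix (Fin 2) (Fin 2) F}
    (h : Bd R A) (hR : R ≤ R') : Bd R' A := fun i j => (h i j).trans hR

theorem lin_bd_quot {F : Type} [NormedField F] {R : ℝ} {A B : Matrix (Fin 2) (Fin 2) F}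
    (hA : Bd R A) (hB : Bd R B) (c : F) : Bd (‖c‖ * (2 * R ^ 2)) (c • (A.adjugate * B)) := by
  have hR : 0 ≤ R := (norm_nonneg _).trans (hA 0 0)
  have h1 : Bd R A.adjugate := fun i j => by
    rw [Matrix.adjugate_fin_two]
    fin_cases i <;> fin_cases j <;> simpa using hA _ _
  intro i j
  rw [Matrix.smul_apply, smul_eq_mul, norm_mul, Matrix.mul_apply, Fin.sum_univ_two]
  refine mul_le_mul_of_nonneg_left ((norm_add_le _ _).trans ?_) (norm_nonneg _)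
  rw [norm_mul, norm_mul]
  linarith [mul_le_mul (h1 i 0) (hB 0 j) (norm_nonneg _) hR,
    mul_le_mul (h1 i 1) (hB 1 j) (norm_nonneg _) hR]

variable {p} in
theorem lin_Pfl_quot (d₁ d₂ s c : ℚ_[p]) (A B : Matrix (Fin 2) (Fin 2) ℚ_[p]) :
    Pfl p d₁ d₁ s (c • (A.adjugate * B)) =
      c • ((Pfl p d₁ d₂ s A).adjugate * Pfl p d₁ d₂ s B) := by
  simp only [Pfl_eq, Matrix.adjugate_fin_two]
  ext i j
  fin_cases i <;> fin_cases j <;>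
    simp [Matrix.vecMul, dotProduct, Fin.sum_univ_two,
      -mul_eq_mul_left_iff] <;> ring

variable {p} in
theorem lin_Pfl_poly (d₁ d₂ : ℚ_[p]) (A : Matrix (Fin 2) (Fin 2) ℚ_[p]) :
    ∃ a b c : Fin 2 × Fin 2 → ℚ_[p], ∀ s R, Bd R (Pfl p d₁ d₂ s A) ↔
      ∀ i, ‖a i + b i * s + c i * s ^ 2‖ ≤ R := by
  refine ⟨fun i => A i.1 i.2, fun i => !![d₂ * A 1 0, d₂ * A 1 1 - d₁ * A 0 0; 0, -(d₁ * A 1 0)]
    i.1 i.2, fun i => !![0, -(d₁ * d₂ * A 1 0); 0, 0] i.1 i.2, fun s R => ?_⟩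
  rw [Pfl_eq, Bd, Prod.forall]
  refine forall_congr' fun i => forall_congr' fun j => ?_
  fin_cases i <;> fin_cases j <;> rfl

variable {p} in
theorem lin_pb_sub {t t' s : ℚ_[p]} {l n : ℤ} (hl : l ≤ n) (ht : t' ∈ pb p t n)
    (hs : ‖s‖ ≤ (p : ℝ) ^ l) : s + t' ∈ pb p t n := by
  have hp : (1 : ℝ) ≤ p := by exact_mod_cast (Fact.out : p.Prime).one_le
  rw [mem_pb] at ht ⊢
  rw [add_sub_assoc]
  exact (Padic.nonarchimedean _ _).trans (max_le (hs.trans (zpow_le_zpow_right₀ hp hl)) ht)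

theorem lin_step {Q : ℤ → Prop} {l r : ℤ} (h : l ≤ r) (hl : Q l) (hr : ¬Q r) :
    ∃ n, l ≤ n ∧ n ≤ r ∧ Q n ∧ ¬Q (n + 1) := by
  induction r, h using Int.leInduction with
  | base => exact absurd hl hr
  | succ r h ih =>
    by_cases h1 : Q r
    · exact ⟨r, h, by omega, h1, hr⟩
    · obtain ⟨n, h2, h3, h4⟩ := ih h1
      exact ⟨n, h2, by omega, h4⟩

/-- The inequality for one ball orbit. -/
theorem lin_one {q : ℕ} (hq : 0 < q) {δ : ℚ} (hδ : δ ≠ 0) {R : ℝ} (hR : 0 < R) (e : ℕ) :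
    ∃ R' R'' : ℝ, ∀ (x y : XX p) (d₁ d₂ : ℚ_[p]) (l r : ℤ), l ≤ r →
      (∀ P ∈ HomS p q δ x y, Bd R' P.1 →
        ∃ s : ℚ_[p], ‖s‖ ≤ (p : ℝ) ^ r ∧ ¬ Bd R' (Pfl p d₁ d₂ s P.2)) →
      bm p r {t | ∃ P ∈ HomS p q δ (uP p (d₁ * t) • x) (uP p (d₂ * t) • y), Bd R P.1 ∧
          ∀ s : ℚ_[p], ‖s‖ ≤ (p : ℝ) ^ l → Bd R (Pfl p d₁ d₂ s P.2)} ≤
        2 * ENNReal.ofReal ((p : ℝ) ^ (-(e : ℤ))) +
          bm p r {t | uP p (d₁ * t) • x ∈ Sg p (q * q * δ.num.natAbs) R'' d₁ l} := by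
  have hp : (1 : ℝ) ≤ p := by exact_mod_cast (Fact.out : p.Prime).one_le
  obtain ⟨R', hR'⟩ : ∃ R', R' = R * (p : ℝ) ^ (2 * e + 2) := ⟨_, rfl⟩
  have hRR : R ≤ R' := hR' ▸ le_mul_of_one_le_right hR.le (one_le_pow₀ hp)
  refine ⟨R', (‖(δ : ℝ)⁻¹‖ + ‖(δ : ℚ_[p])⁻¹‖) * (2 * R' ^ 2), fun x y d₁ d₂ l r hlr H => ?_⟩
  set S := {t | uP p (d₁ * t) • x ∈ Sg p (q * q * δ.num.natAbs)
    ((‖(δ : ℝ)⁻¹‖ + ‖(δ : ℚ_[p])⁻¹‖) * (2 * R' ^ 2)) d₁ l} with hS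
  let A := {t | ∃ P ∈ HomS p q δ x y, Bd R P.1 ∧
    ∀ s : ℚ_[p], ‖s‖ ≤ (p : ℝ) ^ l → Bd R (Pfl p d₁ d₂ (s + t) P.2)}
  refine le_trans (measure_mono (t := A \ S ∪ S) ?_)
    ((measure_union_le _ _).trans (add_le_add_left ?_ _))
  · rintro t ⟨P, h1, h2, h3⟩
    rw [Set.sdiff_union_self]
    refine Or.inl ⟨(P.1, Pfl p d₁ d₂ (-t) P.2), ?_, h2, fun s hs => ?_⟩
    · simpa [← mul_smul, ← uP_add] using HomS.flow h1 d₁ d₂ (-t)
    · simpa [← Pfl_add] using h3 s hs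
  refine bm_cover p (l₀ := l) _ _ fun t ht htr => ?_
  obtain ⟨n, h1, h2, ⟨P, hP, hP1, hP2⟩, h4⟩ := lin_step (Q := fun n => ∃ P ∈ HomS p q δ x y,
    Bd R P.1 ∧ ∀ s ∈ pb p t n, Bd R' (Pfl p d₁ d₂ s P.2)) hlr (by
      obtain ⟨P, h1, h2, h3⟩ := ht.1
      exact ⟨P, h1, h2, fun s hs => by
        simpa using lin_bd_mono (h3 _ ((mem_pb p).1 hs)) hRR⟩) (by
      rintro ⟨P, h1, h2, h3⟩
      obtain ⟨s, h4, h5⟩ := H P h1 (lin_bd_mono h2 hRR)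
      refine h5 (h3 s ((mem_pb p).2 ?_))
      rw [sub_eq_add_neg]
      exact (Padic.nonarchimedean _ _).trans (max_le h4 (by rwa [norm_neg])))
  refine ⟨n, h1, h2, ?_⟩
  obtain ⟨a, b, c, habc⟩ := lin_Pfl_poly d₁ d₂ P.2
  obtain h5 | ⟨s₁, s₂, h5⟩ := three_point p a b c t n e hR.le
  · exact absurd ⟨P, hP, hP1, fun s hs => (habc _ _).2 (hR' ▸ h5 s hs)⟩ h4
  refine le_trans (measure_mono (t := pb p s₁ (n - e) ∪ pb p s₂ (n - e)) ?_)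
    ((measure_union_le _ _).trans ?_)
  · rintro t' ⟨⟨⟨P', g1, g2, g3⟩, g4⟩, g5⟩
    refine h5 t' g5 ((habc _ _).1 ?_)
    have g6 : Bd R (Pfl p d₁ d₂ t' P'.2) := by simpa using g3 0 (by simp; positivity)
    have g7 := (HomS.det (HomS.flow g1 d₁ d₂ t')).2
    have hδ' : (δ : ℚ_[p]) ≠ 0 := Rat.cast_ne_zero.2 hδ
    have key : ∀ Z, (δ : ℚ_[p])⁻¹ • ((Pfl p d₁ d₂ t' P'.2).adjugate * Pfl p d₁ d₂ t' P.2) = Z →
        Pfl p d₁ d₂ t' P.2 = Pfl p d₁ d₂ t' P'.2 * Z := by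
      rintro Z rfl
      rw [Matrix.mul_smul, ← mul_assoc, Matrix.mul_adjugate, g7, Matrix.smul_mul, smul_smul,
        inv_mul_cancel₀ hδ', one_smul, one_mul]
    by_contra g8
    refine g4 ⟨_, HomS.quot hδ (HomS.flow hP d₁ d₂ t') (HomS.flow g1 d₁ d₂ t'),
      fun h => g8 ?_, fun h => g8 ?_,
      lin_bd_mono (lin_bd_quot (lin_bd_mono g2 hRR) (lin_bd_mono hP1 hRR) _)
        (by gcongr; exact le_add_of_nonneg_right (norm_nonneg _)),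
      fun s hs => ?_⟩
    · rwa [key _ (Prod.ext_iff.1 h).2, mul_one]
    · rw [key _ (Prod.ext_iff.1 h).2, mul_neg, mul_one]
      exact fun i j => by simpa using g6 i j
    · rw [lin_Pfl_quot d₁ d₂, ← Pfl_add, ← Pfl_add]
      exact lin_bd_mono (lin_bd_quot (lin_bd_mono (g3 s hs) hRR) (hP2 _ (lin_pb_sub h1 g5 hs)) _)
        (by gcongr; exact le_add_of_nonneg_left (norm_nonneg _))
  · refine (add_le_add (bm_ball_le p _ _ _) (bm_ball_le p _ _ _)).trans (le_of_eq ?_)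
    rw [bm_ball p h2 htr, mul_assoc, ← ENNReal.ofReal_mul (by positivity),
      ← zpow_add₀ (by positivity), two_mul, show -(e : ℤ) + (n - r) = n - e - r by ring]

theorem lin (L : Filter ℕ) [L.NeBot] (x y : ℕ → XX p) (d₁ d₂ : ℕ → ℚ_[p]) (r : ℕ → ℤ)
    {e₁ e₂ : ℚ_[p]} (he : e₁ ≠ 0) (h₁ : Tendsto d₁ L (𝓝 e₁)) (h₂ : Tendsto d₂ L (𝓝 e₂))
    (hr : Tendsto r L atTop) (hE : NoExc p L x y d₁ d₂ r) (ν : Measure (XX p × XX p))
    [IsProbabilityMeasure ν]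
    (hν : WT L (fun i => orb (ufl2 p (d₁ i) (d₂ i)) (r i) (x i, y i)) ν)
    (hm : ν.map Prod.fst = mX p) : ν (NN p e₁ e₂) = 0 := by
  have hp : (1 : ℝ) < p := by exact_mod_cast (Fact.out : p.Prime).one_lt
  refine measure_mono_null (t := ⋃ k : ℕ × ℚ × ℕ, {w | 0 < k.1 ∧ k.2.1 ≠ 0 ∧ 0 < (k.2.2 : ℝ) ∧
    ∃ P ∈ HomS p k.1 k.2.1 w.1 w.2, (∀ i j, |P.1 i j| < k.2.2) ∧
      ∀ s : ℚ_[p], Bd k.2.2 (Pfl p e₁ e₂ s P.2)}) ?_ (measure_iUnion_null ?_)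
  · rintro w ⟨q, hq, δ, hδ, P, hP, a1, a2⟩
    obtain ⟨R, hR⟩ := exists_nat_gt (‖(fun i j => P.1 i j : Fin 2 → Fin 2 → ℝ)‖ +
      ‖(fun i j => P.2 i j : Fin 2 → Fin 2 → ℚ_[p])‖)
    refine Set.mem_iUnion.2 ⟨(q, δ, R), hq, hδ, lt_of_le_of_lt (by positivity) hR, P, hP,
      fun i j => lt_of_le_of_lt ((norm_entry_le (fun i j => P.1 i j) i j).trans (by simp)) hR,
      fun s => ?_⟩
    have : Pfl p e₁ e₂ s P.2 = P.2 := by
      rw [Pfl_eq]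
      ext i j
      fin_cases i <;> fin_cases j <;> simp [a1, a2]
    rw [this]
    exact fun i j => ((norm_entry_le (fun i j => P.2 i j) i j).trans (by simp)).trans hR.le
  rintro ⟨q, δ, R⟩
  by_cases hk : 0 < q ∧ δ ≠ 0 ∧ 0 < (R : ℝ)
  swap
  · exact measure_mono_null (fun w hw => (hk ⟨hw.1, hw.2.1, hw.2.2.1⟩).elim) measure_empty
  obtain ⟨hq, hδ, hR⟩ := hk
  refine le_antisymm (ENNReal.le_of_forall_pos_le_add fun ε hε _ => ?_) zero_le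
  obtain ⟨e, hε'⟩ := exists_pow_lt_of_lt_one (show (0 : ℝ) < ε / 4 by positivity)
    (inv_lt_one_of_one_lt₀ hp)
  obtain ⟨R', R'', hl⟩ := lin_one p hq hδ hR e
  have hq' : 0 < q * q * δ.num.natAbs :=
    mul_pos (mul_pos hq hq) (Int.natAbs_pos.2 (Rat.num_ne_zero.2 hδ))
  obtain ⟨l, hS⟩ := Sg_small p hq' R'' he (ε := ENNReal.ofReal (ε / 2))
    (ENNReal.ofReal_pos.2 (by positivity))
  have hc := isClosed_Sg p hq' R'' e₁ l
  rw [← hm, Measure.map_apply measurable_fst hc.measurableSet] at hS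
  have hU := isOpen_hom q δ hR e₁ e₂ l
  have : ∀ i, IsProbabilityMeasure (orb (ufl2 p (d₁ i) (d₂ i)) (r i) (x i, y i)) :=
    fun i => instProborb _ _ _
  refine le_trans (measure_mono fun w hw => ?_) (hν.open_le hU ?_)
  · obtain ⟨-, -, -, P, a1, a2, a3⟩ := hw
    exact ⟨P, a1, a2, fun s _ => a3 s⟩
  have hd : ∀ {d : ℕ → ℚ_[p]} {e' : ℚ_[p]}, Tendsto d L (𝓝 e') → ∀ᶠ i in L, ∀ s : ℚ_[p],
      ‖s‖ ≤ (p : ℝ) ^ (l : ℤ) → ‖(d i - e') * s‖ ≤ 1 := fun h => by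
    filter_upwards [Metric.tendsto_nhds.1 h ((p : ℝ) ^ (l : ℤ))⁻¹ (by positivity)] with i hi s hs
    rw [dist_eq_norm] at hi
    rw [norm_mul]
    exact (mul_le_mul hi.le hs (norm_nonneg _) (by positivity)).trans
      (inv_mul_cancel₀ (by positivity)).le
  filter_upwards [hd h₁, hd h₂, hr.eventually_ge_atTop l, hE q hq δ hδ R',
    hν.closed_lt (hc.preimage continuous_fst) hS] with i b1 b2 b3 b4 b5
  rw [orb_apply _ _ _ (hc.preimage continuous_fst).measurableSet] at b5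
  rw [orb_apply _ _ _ hU.measurableSet]
  refine le_trans (measure_mono ?_) ((hl _ _ _ _ l _ b3 b4).trans ?_)
  · rintro t ⟨P, a1, a2, a3⟩
    exact ⟨P, a1, fun i j => (a2 i j).le, fun s hs => (a3 s hs).speed (b1 s hs) (b2 s hs)⟩
  have b6 : ∀ s : ℚ_[p], ‖s‖ ≤ (p : ℝ) ^ (l : ℤ) → ‖(e₁ - d₁ i) * s‖ ≤ 1 := fun s hs => by
    rw [← neg_sub, neg_mul, norm_neg]; exact b1 s hs
  refine (add_le_add le_rfl (le_trans (measure_mono ?_) b5.le)).trans ?_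
  · rintro t ⟨P, a1, a2, a3, a4, a5⟩
    exact ⟨P, a1, a2, a3, a4, fun s hs => (a5 s hs).speed (b6 s hs) (b6 s hs)⟩
  · rw [zero_add, ← ENNReal.ofReal_ofNat, ← ENNReal.ofReal_mul (by positivity),
      ← ENNReal.ofReal_add (by positivity) (by positivity), ← ENNReal.ofReal_coe_nnreal]
    refine ENNReal.ofReal_le_ofReal ?_
    rw [zpow_neg, zpow_natCast, ← inv_pow]
    linarith

end Pool.Agent.EQ
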