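import Pool.Agent.P.MP_ad7a55_nt.Free

/-! Unipotent invariant measures on X that do not escape. -/

set_option autoImplicit false

noncomputable section

open MeasureTheory Topology Filter UpperHalfPlane
open scoped MatrixGroups ENNReal BoundedContinuousFunction

namespace Pool.Agent.EQ

variable (p : ℕ) [Fact p.Prime]

theorem marg_cont_entry (i j : Fin 2) : Continuous fun g : SL(2, ℚ_[p]) => g i j :=
  (continuous_apply j).comp ((continuous_apply i).comp continuous_subtype_val)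

theorem marg_nhds {V : Set SL(2, ℚ_[p])} (hV : V ∈ 𝓝 (1 : SL(2, ℚ_[p]))) :
    ∃ δ : ℝ, 0 < δ ∧ ∀ g : SL(2, ℚ_[p]), ‖g 0 0 - 1‖ < δ → ‖g 0 1‖ < δ → ‖g 1 0‖ < δ →
      ‖g 1 1 - 1‖ < δ → g ∈ V := by
  have hi : IsInducing fun g : SL(2, ℚ_[p]) => (fun i j => g i j : Fin 2 → Fin 2 → ℚ_[p]) :=
    Matrix.SpecialLinearGroup.isClosedEmbedding_val.isEmbedding.isInducing
  rw [hi.nhds_eq_comap, mem_comap] at hV
  obtain ⟨T, hT, hTV⟩ := hV
  obtain ⟨δ, hδ, hb⟩ := Metric.mem_nhds_iff.1 hT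
  refine ⟨δ, hδ, fun g h00 h01 h10 h11 => hTV (hb ?_)⟩
  rw [Metric.mem_ball, dist_pi_lt_iff hδ]
  intro i
  rw [dist_pi_lt_iff hδ]
  intro j
  rw [dist_eq_norm]
  fin_cases i <;> fin_cases j
  · simpa using h00
  · simpa using h01
  · simpa using h10
  · simpa using h11

theorem marg_one {x : ℚ_[p]} (hx : ‖x - 1‖ < 1) : ‖x‖ = 1 := by
  have h : ‖(x - 1) + 1‖ = max ‖x - 1‖ ‖(1 : ℚ_[p])‖ :=
    Padic.add_eq_max_of_ne (by rw [norm_one]; exact hx.ne)
  rw [sub_add_cancel, norm_one, max_eq_right hx.le] at h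
  exact h

/-- The lower triangular factor. -/
def margL (e y : ℚ_[p]) (he : e ≠ 0) : SL(2, ℚ_[p]) :=
  ⟨!![e, 0; y, e⁻¹], by simp [Matrix.det_fin_two, he]⟩

theorem marg_det (g : SL(2, ℚ_[p])) : g 0 0 * g 1 1 - g 0 1 * g 1 0 = 1 := by
  have := g.det_coe
  rwa [Matrix.det_fin_two] at this

theorem marg_dec (g : SL(2, ℚ_[p])) (s t : ℚ_[p]) (ht : t ≠ 0) (he : g 0 0 + s * g 1 0 ≠ 0) :
    uu s * g = dg t ht * (margL p (g 0 0 + s * g 1 0) (t ^ 2 * g 1 0) he * ((dg t ht)⁻¹ *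
      uu ((g 0 1 + s * g 1 1) / (g 0 0 + s * g 1 0)))) := by
  have hd := marg_det p g
  have hi : (dg t ht)⁻¹ = dg t⁻¹ (inv_ne_zero ht) := by
    refine inv_eq_of_mul_eq_one_right ?_
    ext i j
    fin_cases i <;> fin_cases j <;> simp [Matrix.mul_apply, Fin.sum_univ_two, ht]
  rw [hi]
  obtain ⟨e, hedef⟩ : ∃ e, e = g 0 0 + s * g 1 0 := ⟨_, rfl⟩
  have he' : e ≠ 0 := hedef ▸ he
  ext i j
  fin_cases i <;> fin_cases j <;> simp [Matrix.mul_apply, Fin.sum_univ_two, margL, ← hedef]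
  · field_simp
  · field_simp
  · field_simp
  · field_simp
    rw [hedef]
    linear_combination hd

theorem marg_int {f : XX p → ℝ} (hf : Continuous f) (hc : HasCompactSupport f)
    {F : ℚ_[p] → XX p} (hF : Measurable F) : Integrable (fun s => f (F s)) (bm p 0) := by
  obtain ⟨C, hC⟩ := hf.bounded_above_of_compact_support hc
  exact Integrable.of_bound (hf.measurable.comp hF).aestronglyMeasurable C
    (Eventually.of_forall fun s => hC _)

theorem marg_cont (g : GG p) (x : XX p) : Continuous fun s : ℚ_[p] => g • uP p s • x :=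
  ((continuous_uP p).smul continuous_const).const_smul g

/-- Equicontinuity of the translated ball averages. -/
theorem marg_equi {f : XX p → ℝ} (hf : Continuous f) (hc : HasCompactSupport f) {ε : ℝ}
    (hε : 0 < ε) : ∀ᶠ g : GG p in 𝓝 1, ∀ (j : ℕ) (x : XX p),
      |∫ s, f ((aP p j)⁻¹ • uP p s • g • x) ∂bm p 0 -
        ∫ s, f ((aP p j)⁻¹ • uP p s • x) ∂bm p 0| ≤ ε := by
  have hV := unif_smul p hf hc hε
  obtain ⟨V₁, hV₁, V₂, hV₂, hsub⟩ := mem_nhds_prod_iff.1 hV
  obtain ⟨δ, hδ, hδV⟩ := marg_nhds p hV₂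
  have hη : 0 < min δ 1 := lt_min hδ one_pos
  have key : ∀ (i j : Fin 2) (c : ℚ_[p]), (1 : SL(2, ℚ_[p])) i j = c →
      ∀ᶠ g : GG p in 𝓝 1, ‖g.2 i j - c‖ < min δ 1 := by
    intro i j c hc'
    have h1 : Continuous fun g : GG p => ‖g.2 i j - c‖ :=
      (((marg_cont_entry p i j).comp continuous_snd).sub continuous_const).norm
    refine h1.continuousAt.eventually_lt continuousAt_const ?_
    simpa [hc'] using hη
  have e1 : ∀ᶠ g : GG p in 𝓝 1, g.1 ∈ V₁ := continuous_fst.continuousAt.eventually_mem hV₁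
  filter_upwards [e1, key 0 0 1 (by simp), key 0 1 0 (by simp), key 1 0 0 (by simp),
    key 1 1 1 (by simp)] with g hg ha hb hcc hd j x
  rw [sub_zero] at hb hcc
  have hnd : ‖g.2 1 1‖ = 1 := marg_one p (hd.trans_le (min_le_right _ _))
  have he1 : ∀ s : ℚ_[p], ‖s‖ ≤ 1 → ‖g.2 0 0 + s * g.2 1 0 - 1‖ < min δ 1 := by
    intro s hs
    have : g.2 0 0 + s * g.2 1 0 - 1 = (g.2 0 0 - 1) + s * g.2 1 0 := by ring
    rw [this]
    refine (Padic.nonarchimedean _ _).trans_lt (max_lt ha ?_)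
    rw [norm_mul]
    exact (mul_le_of_le_one_left (norm_nonneg _) hs).trans_lt hcc
  have hen : ∀ s : ℚ_[p], ‖s‖ ≤ 1 → ‖g.2 0 0 + s * g.2 1 0‖ = 1 := fun s hs =>
    marg_one p ((he1 s hs).trans_le (min_le_right _ _))
  have he0 : ∀ s : ℚ_[p], ‖s‖ ≤ 1 → g.2 0 0 + s * g.2 1 0 ≠ 0 := fun s hs h => by
    have := hen s hs
    rw [h, norm_zero] at this
    exact zero_ne_one this
  set ψ : ℚ_[p] → ℚ_[p] := fun s => (g.2 0 1 + s * g.2 1 1) / (g.2 0 0 + s * g.2 1 0) with hψ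
  have hψm : Measurable ψ :=
    (measurable_const.add (measurable_id.mul_const _)).div
      (measurable_const.add (measurable_id.mul_const _))
  have hiso : (bm p 0).map ψ = bm p 0 := by
    refine bm_iso p hψm (fun s hs => ?_) (fun s t hs ht => ?_)
    · simp only [hψ]
      rw [norm_div, hen s hs, div_one]
      refine (Padic.nonarchimedean _ _).trans (max_le (hb.le.trans (min_le_right _ _)) ?_)
      rw [norm_mul, hnd, mul_one]
      exact hs
    · have h1 : ψ s - ψ t = (s - t) / ((g.2 0 0 + s * g.2 1 0) * (g.2 0 0 + t * g.2 1 0)) := by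
        have hd' := marg_det p g.2
        have h2 := he0 s hs
        have h3 := he0 t ht
        simp only [hψ]
        rw [div_sub_div _ _ h2 h3]
        congr 1
        linear_combination (s - t) * hd'
      rw [h1, norm_div, norm_mul, hen s hs, hen t ht, mul_one, div_one]
  have hF := marg_cont p (aP p j)⁻¹ x
  have h2 : ∫ s, f ((aP p j)⁻¹ • uP p s • x) ∂bm p 0 =
      ∫ s, f ((aP p j)⁻¹ • uP p (ψ s) • x) ∂bm p 0 := by
    conv_lhs => rw [← hiso]
    exact integral_map hψm.aemeasurable (hf.comp hF).aestronglyMeasurable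
  have hi2 : Integrable (fun s => f ((aP p j)⁻¹ • uP p (ψ s) • x)) (bm p 0) :=
    marg_int p hf hc (hF.measurable.comp hψm)
  rw [h2, ← integral_sub (marg_int p hf hc (marg_cont p (aP p j)⁻¹ (g • x)).measurable) hi2,
    ← Real.norm_eq_abs]
  refine (norm_integral_le_of_norm_le_const (C := ε) ?_).trans (by simp)
  filter_upwards [bm_ae p 0] with s hs
  rw [zpow_zero] at hs
  have ht : ((p : ℚ_[p]) ^ j) ≠ 0 :=
    pow_ne_zero _ (Nat.cast_ne_zero.2 (Fact.out : p.Prime).ne_zero)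
  have htn : ‖((p : ℚ_[p]) ^ j) ^ 2‖ ≤ 1 := by
    rw [norm_pow, norm_pow]
    exact pow_le_one₀ (by positivity) (pow_le_one₀ (norm_nonneg _) Padic.norm_p_lt_one.le)
  set b : GG p := (g.1, margL p _ (((p : ℚ_[p]) ^ j) ^ 2 * g.2 1 0) (he0 s hs)) with hbdef
  have hb' : b ∈ V₁ ×ˢ V₂ := by
    refine ⟨hg, hδV _ ?_ ?_ ?_ ?_⟩
    · simpa [hbdef, margL] using (he1 s hs).trans_le (min_le_left _ _)
    · simpa [hbdef, margL] using hδ
    · have : ‖((p : ℚ_[p]) ^ j) ^ 2 * g.2 1 0‖ < δ := by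
        rw [norm_mul]
        exact ((mul_le_of_le_one_left (norm_nonneg _) htn).trans_lt hcc).trans_le
          (min_le_left _ _)
      exact this
    · have h3 : (g.2 0 0 + s * g.2 1 0)⁻¹ - 1 =
          -(g.2 0 0 + s * g.2 1 0 - 1) / (g.2 0 0 + s * g.2 1 0) := by
        have := he0 s hs
        field_simp
        ring
      have : ‖(g.2 0 0 + s * g.2 1 0)⁻¹ - 1‖ < δ := by
        rw [h3, norm_div, norm_neg, hen s hs, div_one]
        exact (he1 s hs).trans_le (min_le_left _ _)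
      exact this
  have heq : (aP p j)⁻¹ • uP p s • g • x = b • (aP p j)⁻¹ • uP p (ψ s) • x := by
    simp only [← mul_smul]
    congr 1
    rw [inv_mul_eq_iff_eq_mul]
    refine Prod.ext (by simp [aP, uP, hbdef]) ?_
    exact marg_dec p g.2 s _ ht (he0 s hs)
  rw [heq, Real.norm_eq_abs]
  exact hsub hb' _

theorem marg_conj (j : ℕ) (s : ℚ_[p]) (x : XX p) :
    (aP p j)⁻¹ • uP p s • aP p j • x = uP p ((((p : ℚ_[p]) ^ j) ^ 2)⁻¹ * s) • x := by
  have ht : ((p : ℚ_[p]) ^ j) ≠ 0 :=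
    pow_ne_zero _ (Nat.cast_ne_zero.2 (Fact.out : p.Prime).ne_zero)
  simp only [← mul_smul]
  congr 1
  rw [inv_mul_eq_iff_eq_mul]
  refine Prod.ext (by simp [aP, uP]) ?_
  ext i k
  fin_cases i <;> fin_cases k <;> simp [aP, uP, Matrix.mul_apply, Fin.sum_univ_two]
  field_simp

theorem marg_scale {f : XX p → ℝ} (hf : Continuous f) (j : ℕ) (x : XX p) :
    ∫ z, f z ∂orb (ufl1 p) (2 * j : ℕ) x =
      ∫ s, f ((aP p j)⁻¹ • uP p s • aP p j • x) ∂bm p 0 := by
  have hd : ‖(((p : ℚ_[p]) ^ j) ^ 2)⁻¹‖ = (p : ℝ) ^ ((2 * j : ℕ) : ℤ) := by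
    rw [norm_inv, norm_pow, norm_pow, Padic.norm_p, zpow_natCast, inv_pow, inv_pow, inv_inv,
      ← pow_mul, mul_comm]
  have h := bm_mul p 0 _ hd
  rw [zero_add] at h
  have hm : Measurable fun s : ℚ_[p] => (((p : ℚ_[p]) ^ j) ^ 2)⁻¹ * s := measurable_id.const_mul _
  have hF : Continuous fun s : ℚ_[p] => f (ufl1 p s x) :=
    hf.comp ((continuous_uP p).smul continuous_const)
  rw [integral_orb _ _ _ hf, ← h, integral_map hm.aemeasurable hF.aestronglyMeasurable]
  simp only [marg_conj, ufl1_apply]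

/-- The translated ball averages. -/
def margF (f : XX p →ᵇ ℝ) (j : ℕ) (x : XX p) : ℝ :=
  ∫ s, f ((aP p j)⁻¹ • uP p s • x) ∂bm p 0

theorem margF_eq (f : XX p →ᵇ ℝ) (j : ℕ) (x : XX p) :
    margF p f j x = ∫ z, f z ∂orb (ufl1 p) (2 * j : ℕ) ((aP p j)⁻¹ • x) := by
  rw [marg_scale p f.continuous, smul_inv_smul, margF]

theorem margF_cont (f : XX p →ᵇ ℝ) (j : ℕ) : Continuous (margF p f j) := by
  have : margF p f j = fun x => ∫ z, f z ∂orb (ufl1 p) (2 * j : ℕ) ((aP p j)⁻¹ • x) :=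
    funext (margF_eq p f j)
  rw [this]
  exact (continuous_integral_orb (ufl1 p) _ f).comp (continuous_const_smul _)

theorem marg_bd (f : XX p →ᵇ ℝ) (ν ν' : Measure (XX p)) [IsProbabilityMeasure ν]
    [IsProbabilityMeasure ν'] : |∫ z, f z ∂ν - ∫ z, f z ∂ν'| ≤ 2 * ‖f‖ := by
  have h1 := f.norm_integral_le_norm ν
  have h2 := f.norm_integral_le_norm ν'
  rw [Real.norm_eq_abs] at h1 h2
  have := abs_sub (∫ z, f z ∂ν) (∫ z, f z ∂ν')
  linarith

theorem margF_l1 (f : XX p →ᵇ ℝ) :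
    Tendsto (fun j : ℕ => ∫ x, |margF p f j x - ∫ z, f z ∂mX p| ∂mX p) atTop (𝓝 0) := by
  have h2 : Tendsto (fun j : ℕ => 2 * j) atTop atTop :=
    tendsto_atTop_mono (fun j => by simp only [id]; omega) tendsto_id
  refine (((erg_mX p).l1 f).comp h2).congr fun j => ?_
  simp only [Function.comp, margF_eq]
  exact (integral_smul_eq_self (μ := mX p) (g := (aP p j)⁻¹)
    fun w => |∫ z, f z ∂orb (ufl1 p) (2 * j : ℕ) w - ∫ z, f z ∂mX p|).symm

theorem margF_unif (f : XX p →ᵇ ℝ) (hc : HasCompactSupport f) {ε : ℝ} (hε : 0 < ε)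
    {Ω : Set (XX p)} (hΩ : IsCompact Ω) :
    ∀ᶠ j : ℕ in atTop, ∀ x ∈ Ω, |margF p f j x - ∫ z, f z ∂mX p| ≤ 3 * ε := by
  set c := ∫ z, f z ∂mX p with hcdef
  refine hΩ.induction_on (p := fun S => ∀ᶠ j : ℕ in atTop, ∀ x ∈ S, |margF p f j x - c| ≤ 3 * ε)
    (by simp) (fun S T hST hT => hT.mono fun j hj x hx => hj x (hST hx))
    (fun S T hS hT => (hS.and hT).mono fun j hj x hx => hx.elim (hj.1 x) (hj.2 x))
    fun x₀ _ => ?_
  have hN := exists_nhds_smul p x₀ (marg_equi p f.continuous hc hε)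
  obtain ⟨U, hUN, hU, hx₀⟩ := mem_nhds_iff.1 hN
  have hnear : ∀ j, ∀ y ∈ U, |margF p f j y - margF p f j x₀| ≤ ε := by
    intro j y hy
    obtain ⟨g, hg, rfl⟩ := hUN hy
    exact hg j x₀
  have hpos : 0 < (mX p).real U :=
    ENNReal.toReal_pos (mX_pos p hU ⟨x₀, hx₀⟩) (measure_ne_top _ _)
  refine ⟨U, mem_nhdsWithin_of_mem_nhds (hU.mem_nhds hx₀), ?_⟩
  filter_upwards [(margF_l1 p f).eventually_lt_const (mul_pos hε hpos)] with j hj y hy
  have hint : Integrable (fun x => |margF p f j x - c|) (mX p) := by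
    refine Integrable.of_bound
      ((margF_cont p f j).sub continuous_const).abs.aestronglyMeasurable (2 * ‖f‖)
      (Eventually.of_forall fun x => ?_)
    rw [Real.norm_eq_abs, abs_abs, margF_eq]
    exact marg_bd p f _ _
  have h0 : |margF p f j x₀ - c| ≤ 2 * ε := by
    by_contra hlt
    have hlt' := not_le.1 hlt
    have h1 : ε * (mX p).real U ≤ ∫ x in U, |margF p f j x - c| ∂mX p := by
      refine setIntegral_ge_of_const_le_real hU.measurableSet (measure_ne_top _ _)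
        (fun z hz => ?_) hint.integrableOn
      have h3 := hnear j z hz
      have h4 := abs_sub_le (margF p f j x₀) (margF p f j z) c
      rw [abs_sub_comm] at h3
      linarith
    have h2 : ∫ x in U, |margF p f j x - c| ∂mX p ≤ ∫ x, |margF p f j x - c| ∂mX p :=
      setIntegral_le_integral hint (Eventually.of_forall fun x => abs_nonneg _)
    linarith
  have h3 := hnear j y hy
  have h4 := abs_sub_le (margF p f j y) (margF p f j x₀) c
  linarith

theorem marg (μ : Measure (XX p)) [IsProbabilityMeasure μ] (hμ : Inv (ufl1 p) μ)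
    (h : ∀ ε : ℝ≥0∞, 0 < ε → ∃ Ω : Set (XX p), IsCompact Ω ∧
      ∀ j : ℕ, μ {x | aP p j • x ∉ Ω} ≤ ε) : μ = mX p := by
  refine ext_cc fun f hc => ?_
  set c := ∫ z, f z ∂mX p with hcdef
  have main : ∀ ε : ℝ, 0 < ε → |∫ z, f z ∂μ - c| ≤ (3 + 2 * ‖f‖) * ε := by
    intro ε hε
    obtain ⟨Ω, hΩ, hμΩ⟩ := h (ENNReal.ofReal ε) (ENNReal.ofReal_pos.2 hε)
    obtain ⟨j, hj⟩ := (margF_unif p f hc hε hΩ).exists
    set E : Set (XX p) := {x | aP p j • x ∉ Ω} with hE
    have hEm : MeasurableSet E :=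
      (hΩ.isClosed.isOpen_compl.preimage (continuous_const_smul (aP p j))).measurableSet
    have hEr : μ.real E ≤ ε := ENNReal.toReal_le_of_le_ofReal hε.le (hμΩ j)
    set A : XX p → ℝ := fun w => ∫ z, f z ∂orb (ufl1 p) (2 * j : ℕ) w with hA
    have hAc : Continuous A := continuous_integral_orb (ufl1 p) _ f
    have hAb : ∀ w, |A w - c| ≤ 2 * ‖f‖ := fun w => marg_bd p f _ _
    have hAi : Integrable A μ :=
      Integrable.of_bound hAc.aestronglyMeasurable ‖f‖
        (Eventually.of_forall fun w => f.norm_integral_le_norm _)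
    have h1 : ∫ z, f z ∂μ - c = ∫ w, (A w - c) ∂μ := by
      rw [integral_sub hAi (integrable_const _), hμ.integral_orb _ _ f]
      simp
    have hGi : Integrable (fun w => 3 * ε + E.indicator (fun _ => 2 * ‖f‖) w) μ :=
      (integrable_const _).add ((integrable_const _).indicator hEm)
    have h2 : ‖∫ w, (A w - c) ∂μ‖ ≤ ∫ w, (3 * ε + E.indicator (fun _ => 2 * ‖f‖) w) ∂μ := by
      refine norm_integral_le_of_norm_le hGi (Eventually.of_forall fun w => ?_)
      rw [Real.norm_eq_abs]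
      by_cases hw : w ∈ E
      · rw [Set.indicator_of_mem hw]
        have := hAb w
        linarith
      · rw [Set.indicator_of_notMem hw, add_zero]
        have h3 := hj (aP p j • w) (not_not.1 hw)
        rwa [margF_eq, inv_smul_smul] at h3
    rw [integral_add (integrable_const _) ((integrable_const _).indicator hEm),
      integral_indicator_const _ hEm] at h2
    rw [h1, ← Real.norm_eq_abs]
    refine h2.trans ?_
    have h4 : μ.real E * (2 * ‖f‖) ≤ ε * (2 * ‖f‖) :=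
      mul_le_mul_of_nonneg_right hEr (by positivity)
    simp only [integral_const, probReal_univ, smul_eq_mul, one_mul]
    linarith
  have hK : 0 < 3 + 2 * ‖f‖ := by positivity
  have h0 : |∫ z, f z ∂μ - c| ≤ 0 := by
    refine le_of_forall_pos_le_add fun η hη => ?_
    have := main (η / (3 + 2 * ‖f‖)) (by positivity)
    rw [mul_div_cancel₀ _ hK.ne'] at this
    linarith
  exact sub_eq_zero.1 (abs_nonpos_iff.1 h0)

end Pool.Agent.EQ
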