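import Pool.Agent.P.MP_ad7a55_nt.Join
import Pool.Agent.P.MP_ad7a55_nt.Lin
import Pool.Agent.P.MP_ad7a55_nt.Marg

/-! Equidistribution of ball orbits. -/

set_option autoImplicit false

noncomputable section

open MeasureTheory Topology Filter UpperHalfPlane
open scoped MatrixGroups ENNReal BoundedContinuousFunction

namespace Pool.Agent.EQ

variable (p : ℕ) [Fact p.Prime]

/-- The ball orbits and their diagonal translates do not escape. -/
def Tt (L : Filter ℕ) (x : ℕ → XX p) (d : ℕ → ℚ_[p]) (r : ℕ → ℤ) : Prop :=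
  ∀ ε : ℝ≥0∞, 0 < ε → ∃ Ω : Set (XX p), IsCompact Ω ∧ ∀ j : ℕ, ∀ᶠ i in L,
    bm p (r i) {s | aP p j • uP p (d i * s) • x i ∉ Ω} ≤ ε

instance block_prob {κ : Type} [Fintype κ] (d : κ → ℚ_[p]) (r : ℤ) (x : κ → XX p) :
    IsProbabilityMeasure (orb (ufl p d) r x) := instProborb _ _ _

theorem block_aP_zero : aP p 0 = 1 := by
  refine Prod.ext rfl ?_
  ext i j
  fin_cases i <;> fin_cases j <;> simp [aP]

theorem block_cont {κ : Type} (s : ℚ_[p]) :
    Continuous fun z : (κ → ℚ_[p]) × (κ → XX p) => ufl p z.1 s z.2 :=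
  continuous_pi fun k =>
    ((continuous_uP p).comp (((continuous_apply k).comp continuous_fst).mul continuous_const)).smul
      ((continuous_apply k).comp continuous_snd)

theorem block_large {L : Filter ℕ} {r : ℕ → ℤ} (hr : Tendsto r L atTop) (s : ℚ_[p]) :
    ∀ᶠ i in L, ‖s‖ ≤ (p : ℝ) ^ r i := by
  have hp : (1 : ℝ) < p := by exact_mod_cast (Fact.out : p.Prime).one_lt
  obtain ⟨c, hc⟩ := pow_unbounded_of_one_lt ‖s‖ hp
  filter_upwards [hr.eventually_ge_atTop (c : ℤ)] with i hi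
  calc ‖s‖ ≤ (p : ℝ) ^ (c : ℤ) := by rw [zpow_natCast]; exact hc.le
    _ ≤ _ := zpow_le_zpow_right₀ hp.le hi

theorem block_inv {κ : Type} [Fintype κ] {L : Filter ℕ} [L.NeBot] (x : ℕ → κ → XX p)
    (d : ℕ → κ → ℚ_[p]) (e : κ → ℚ_[p]) (hd : Tendsto d L (𝓝 e)) (r : ℕ → ℤ)
    (hr : Tendsto r L atTop) (ν : Measure (κ → XX p)) [IsProbabilityMeasure ν]
    (hν : WT L (fun i => orb (ufl p (d i)) (r i) (x i)) ν) : Inv (ufl p e) ν := by
  intro s
  have hc : Continuous (ufl p e s) := (ufl p e).continuous continuous_const continuous_id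
  refine WT.unique (μ := fun i => orb (ufl p (d i)) (r i) (x i)) (L := L) ?_ hν
  intro g
  rw [integral_map hc.measurable.aemeasurable g.continuous.aestronglyMeasurable]
  have h1 := hν.param hd (g.compContinuous ⟨_, block_cont p s⟩)
  refine h1.congr' ?_
  filter_upwards [block_large p hr s] with i hi
  have hci : Continuous (ufl p (d i) s) :=
    (ufl p (d i)).continuous continuous_const continuous_id
  conv_rhs => rw [← map_orb (ufl p (d i)) hi (x i)]
  rw [integral_map hci.measurable.aemeasurable g.continuous.aestronglyMeasurable]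
  rfl

theorem block_marg {κ : Type} [Fintype κ] {L : Filter ℕ} [L.NeBot] (x : ℕ → κ → XX p)
    (d : ℕ → κ → ℚ_[p]) (e : κ → ℚ_[p]) (r : ℕ → ℤ) (ν : Measure (κ → XX p))
    [IsProbabilityMeasure ν] (hν : WT L (fun i => orb (ufl p (d i)) (r i) (x i)) ν)
    (hI : Inv (ufl p e) ν) (k : κ) (he : e k ≠ 0)
    (hT : Tt p L (fun i => x i k) (fun i => d i k) r) : ν.map (fun w => w k) = mX p := by
  have hk : Measurable fun w : κ → XX p => w k := measurable_pi_apply k
  have : IsProbabilityMeasure (ν.map fun w => w k) :=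
    Measure.isProbabilityMeasure_map hk.aemeasurable
  refine marg p _ ?_ ?_
  · intro s
    have hc : Continuous (ufl p e (s / e k)) := (ufl p e).continuous continuous_const continuous_id
    have hc1 : Continuous (ufl1 p s) := (ufl1 p).continuous continuous_const continuous_id
    conv_rhs => rw [← hI (s / e k)]
    rw [Measure.map_map hc1.measurable hk, Measure.map_map hk hc.measurable]
    congr 1
    funext w
    simp only [Function.comp, ufl1_apply, ufl_apply]
    rw [mul_div_cancel₀ _ he]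
  · intro ε hε
    obtain ⟨Ω, hΩ, h⟩ := hT ε hε
    refine ⟨Ω, hΩ, fun j => ?_⟩
    have hU : IsOpen {y : XX p | aP p j • y ∉ Ω} :=
      hΩ.isClosed.isOpen_compl.preimage (continuous_const_smul (aP p j))
    rw [Measure.map_apply hk hU.measurableSet]
    have hU' : IsOpen ((fun w : κ → XX p => w k) ⁻¹' {y : XX p | aP p j • y ∉ Ω}) :=
      hU.preimage (continuous_apply k)
    refine hν.open_le hU' ?_
    filter_upwards [h j] with i hi
    rw [orb_apply _ _ _ hU'.measurableSet]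
    exact hi

theorem block_tight {κ : Type} [Fintype κ] {L : Filter ℕ} (x : ℕ → κ → XX p)
    (d : ℕ → κ → ℚ_[p]) (r : ℕ → ℤ)
    (hT : ∀ k, Tt p L (fun i => x i k) (fun i => d i k) r) (ε : ℝ≥0∞) (hε : 0 < ε) :
    ∃ K : Set (κ → XX p), IsCompact K ∧ ∀ᶠ i in L, orb (ufl p (d i)) (r i) (x i) Kᶜ ≤ ε := by
  have hn : ((Fintype.card κ : ℝ≥0∞) + 1) ≠ ∞ := by simp
  have hn0 : ((Fintype.card κ : ℝ≥0∞) + 1) ≠ 0 := by simp
  have hε' : 0 < ε / (Fintype.card κ + 1) := ENNReal.div_pos hε.ne' hn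
  choose Ω hΩ h using fun k => hT k _ hε'
  have hK : IsCompact (Set.pi Set.univ Ω) := isCompact_univ_pi hΩ
  refine ⟨_, hK, ?_⟩
  filter_upwards [eventually_all.2 fun k => h k 0] with i hi
  rw [orb_apply _ _ _ hK.isClosed.isOpen_compl.measurableSet]
  have hsub : {s | ufl p (d i) s (x i) ∈ (Set.pi Set.univ Ω)ᶜ} ⊆
      ⋃ k, {s | aP p 0 • uP p (d i k * s) • x i k ∉ Ω k} := by
    intro s hs
    simp only [Set.mem_ofPred_eq, Set.mem_compl_iff, Set.mem_pi, Set.mem_univ, true_imp_iff,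
      not_forall] at hs
    obtain ⟨k, hk⟩ := hs
    refine Set.mem_iUnion.2 ⟨k, ?_⟩
    rw [Set.mem_ofPred_eq, block_aP_zero, one_smul]
    exact hk
  calc _ ≤ bm p (r i) (⋃ k, {s | aP p 0 • uP p (d i k * s) • x i k ∉ Ω k}) := measure_mono hsub
    _ ≤ ∑ k, bm p (r i) {s | aP p 0 • uP p (d i k * s) • x i k ∉ Ω k} :=
      measure_iUnion_fintype_le _ _
    _ ≤ ∑ _k : κ, ε / (Fintype.card κ + 1) := Finset.sum_le_sum fun k _ => hi k
    _ = Fintype.card κ * (ε / (Fintype.card κ + 1)) := by simp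
    _ ≤ (Fintype.card κ + 1) * (ε / (Fintype.card κ + 1)) := by gcongr; exact le_self_add
    _ = ε := ENNReal.mul_div_cancel hn0 hn

theorem block {κ : Type} [Fintype κ] [DecidableEq κ] (𝒰 : Ultrafilter ℕ)
    (h𝒰 : (𝒰 : Filter ℕ) ≤ atTop) (x : ℕ → κ → XX p) (d : ℕ → κ → ℚ_[p]) (e : κ → ℚ_[p])
    (he : ∀ k, e k ≠ 0) (hd : ∀ k, Tendsto (fun i => d i k) 𝒰 (𝓝 (e k))) (r : ℕ → ℤ)
    (hr : Tendsto r 𝒰 atTop) (hT : ∀ k, Tt p 𝒰 (fun i => x i k) (fun i => d i k) r)
    (hE : ∀ k l, k ≠ l →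
      NoExc p 𝒰 (fun i => x i k) (fun i => x i l) (fun i => d i k) (fun i => d i l) r) :
    WT 𝒰 (fun i => orb (ufl p (d i)) (r i) (x i)) (mP p κ) := by
  obtain ⟨ν, hν1, hν⟩ := exists_WT 𝒰 h𝒰 (fun i => orb (ufl p (d i)) (r i) (x i))
    (block_tight p x d r hT)
  have hI := block_inv p x d e (tendsto_pi_nhds.2 hd) r hr ν hν
  have hm := fun k => block_marg p x d e r ν hν hI k (he k) (hT k)
  rw [← join p κ e he ν hI hm ?_]
  · exact hν
  intro k l hkl
  have hF : Continuous fun w : κ → XX p => (w k, w l) :=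
    (continuous_apply k).prodMk (continuous_apply l)
  have : IsProbabilityMeasure (ν.map fun w => (w k, w l)) :=
    Measure.isProbabilityMeasure_map hF.measurable.aemeasurable
  have h0 := lin p 𝒰 (fun i => x i k) (fun i => x i l) (fun i => d i k) (fun i => d i l) r (he k)
    (hd k) (hd l) hr (hE k l hkl) (ν.map fun w => (w k, w l)) ?_ ?_
  · exact le_antisymm ((Measure.le_map_apply hF.measurable.aemeasurable _).trans h0.le) zero_le
  · have h1 := hν.map hF
    have h2 : (fun i => (orb (ufl p (d i)) (r i) (x i)).map fun w => (w k, w l)) =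
        fun i => orb (ufl2 p (d i k) (d i l)) (r i) (x i k, x i l) := by
      funext i
      rw [orb, Measure.map_map hF.measurable (measurable_flow _ _)]
      rfl
    rwa [h2] at h1
  · rw [Measure.map_map measurable_fst hF.measurable]
    exact hm k

theorem block_avg {a r : ℤ} (har : a ≤ r) {H G : ℚ_[p] → ℝ} (hH : Continuous H)
    (hG : Continuous G) {A C : ℝ} (hA : ∀ s, |H s| ≤ A) (hC : ∀ s, |G s| ≤ C)
    (hinv : ∀ t s, ‖t‖ ≤ (p : ℝ) ^ a → G (t + s) = G s) :
    ∫ s, H s * G s ∂bm p r = ∫ s, (∫ t, H (t + s) ∂bm p a) * G s ∂bm p r := by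
  have hp : (1 : ℝ) ≤ p := by exact_mod_cast (Fact.out : p.Prime).one_lt.le
  have h1 : ∀ᵐ t ∂bm p a, ∫ s, H s * G s ∂bm p r = ∫ s, H (t + s) * G s ∂bm p r := by
    filter_upwards [bm_ae p a] with t ht
    conv_lhs => rw [← bm_add p (ht.trans (zpow_le_zpow_right₀ hp har))]
    rw [integral_map (f := fun s => H s * G s) (measurable_add_const t).aemeasurable
      (hH.mul hG).aestronglyMeasurable]
    congr 1
    funext s
    rw [add_comm s t, hinv t s ht]
  have hc : Continuous (Function.uncurry fun t s : ℚ_[p] => H (t + s) * G s) :=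
    (hH.comp continuous_add).mul (hG.comp continuous_snd)
  have hint : Integrable (Function.uncurry fun t s : ℚ_[p] => H (t + s) * G s)
      ((bm p a).prod (bm p r)) := by
    refine Integrable.of_bound hc.aestronglyMeasurable (A * C) (ae_of_all _ fun z => ?_)
    change ‖H (z.1 + z.2) * G z.2‖ ≤ _
    rw [Real.norm_eq_abs, abs_mul]
    exact mul_le_mul (hA _) (hC _) (abs_nonneg _) ((abs_nonneg _).trans (hA 0))
  calc ∫ s, H s * G s ∂bm p r = ∫ _t, ∫ s, H s * G s ∂bm p r ∂bm p a := by simp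
    _ = ∫ t, ∫ s, H (t + s) * G s ∂bm p r ∂bm p a := integral_congr_ae h1
    _ = ∫ s, ∫ t, H (t + s) * G s ∂bm p a ∂bm p r := integral_integral_swap hint
    _ = _ := by simp only [integral_mul_const]

theorem block_cont_avg {κ : Type} [Fintype κ] (F : (κ → XX p) →ᵇ ℝ) (a : ℤ) :
    Continuous fun z : (κ → ℚ_[p]) × (κ → XX p) => ∫ w, F w ∂orb (ufl p z.1) a z.2 := by
  simp only [integral_orb _ _ _ F.continuous]
  refine continuous_of_dominated (bound := fun _ => ‖F‖) (fun z => ?_)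
    (fun z => ae_of_all _ fun s => F.norm_coe_le_norm _) (integrable_const _)
    (ae_of_all _ fun s => F.continuous.comp (block_cont p s))
  exact (F.continuous.comp
    ((ufl p z.1).continuous continuous_id continuous_const)).aestronglyMeasurable

theorem block_abs_le {W : Type} [TopologicalSpace W] [MeasurableSpace W] (F : W →ᵇ ℝ)
    (μ : Measure W) [IsProbabilityMeasure μ] : |∫ w, F w ∂μ| ≤ ‖F‖ := by
  have := norm_integral_le_of_norm_le_const (μ := μ) (f := fun w => F w) (C := ‖F‖)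
    (ae_of_all _ fun w => F.norm_coe_le_norm w)
  simpa using this

/-- The deviation of the ball average from a constant. -/
def blockDev {κ : Type} [Fintype κ] (F : (κ → XX p) →ᵇ ℝ) (a : ℤ) (c : ℝ) :
    ((κ → ℚ_[p]) × (κ → XX p)) →ᵇ ℝ :=
  BoundedContinuousFunction.ofNormedAddCommGroup
    (fun z => |∫ w, F w ∂orb (ufl p z.1) a z.2 - c|)
    ((block_cont_avg p F a).sub continuous_const).abs (‖F‖ + |c|) fun z => by
      rw [Real.norm_eq_abs, abs_abs]
      exact (abs_sub _ _).trans (add_le_add (block_abs_le F _) le_rfl)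

theorem blockDev_apply {κ : Type} [Fintype κ] (F : (κ → XX p) →ᵇ ℝ) (a : ℤ) (c : ℝ)
    (t : κ → ℚ_[p]) (w : κ → XX p) :
    blockDev p F a c (t, w) = |∫ w, F w ∂orb (ufl p t) a w - c| := rfl

theorem block_bound {κ : Type} [Fintype κ] (F : (κ → XX p) →ᵇ ℝ) {a r : ℤ} (har : a ≤ r) (c : ℝ)
    (t : κ → ℚ_[p]) (x : κ → XX p) {G : ℚ_[p] → ℝ} (hG : Continuous G) {C : ℝ}
    (hC : ∀ s, |G s| ≤ C) (hinv : ∀ t s, ‖t‖ ≤ (p : ℝ) ^ a → G (t + s) = G s) :
    |∫ s, F (ufl p t s x) * G s ∂bm p r - c * ∫ s, G s ∂bm p r| ≤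
      C * ∫ w, blockDev p F a c (t, w) ∂orb (ufl p t) r x := by
  have hfl : Continuous fun s => ufl p t s x := (ufl p t).continuous continuous_id continuous_const
  have hH : Continuous fun s => F (ufl p t s x) := F.continuous.comp hfl
  have hD : Continuous fun w => blockDev p F a c (t, w) :=
    (blockDev p F a c).continuous.comp (continuous_const.prodMk continuous_id)
  have hAc : Continuous fun w => ∫ w, F w ∂orb (ufl p t) a w := continuous_integral_orb _ a F
  have hGi : Integrable G (bm p r) :=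
    Integrable.of_bound hG.aestronglyMeasurable C (ae_of_all _ hC)
  have hC0 : 0 ≤ C := (abs_nonneg _).trans (hC 0)
  rw [block_avg p har hH hG (fun s => F.norm_coe_le_norm _) hC hinv, integral_orb _ _ _ hD]
  have h1 : ∀ s, ∫ t', F (ufl p t (t' + s) x) ∂bm p a =
      ∫ w, F w ∂orb (ufl p t) a (ufl p t s x) := by
    intro s
    rw [integral_orb _ _ _ F.continuous]
    simp only [Flow.map_add]
  simp only [h1]
  have hi1 : Integrable (fun s => (∫ w, F w ∂orb (ufl p t) a (ufl p t s x)) * G s) (bm p r) := by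
    refine Integrable.of_bound ((hAc.comp hfl).mul hG).aestronglyMeasurable (‖F‖ * C)
      (ae_of_all _ fun s => ?_)
    rw [Real.norm_eq_abs, abs_mul]
    exact mul_le_mul (block_abs_le F _) (hC _) (abs_nonneg _) (norm_nonneg _)
  rw [← integral_const_mul, ← integral_sub hi1 (hGi.const_mul c), ← integral_const_mul,
    ← Real.norm_eq_abs]
  refine norm_integral_le_of_norm_le ?_ (ae_of_all _ fun s => ?_)
  · refine Integrable.const_mul ?_ C
    exact Integrable.of_bound (hD.comp hfl).aestronglyMeasurable ‖blockDev p F a c‖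
      (ae_of_all _ fun s => (blockDev p F a c).norm_coe_le_norm _)
  · rw [← sub_mul, Real.norm_eq_abs, abs_mul, blockDev_apply, mul_comm]
    exact mul_le_mul_of_nonneg_right (hC _) (abs_nonneg _)

theorem block_step {κ : Type} [Fintype κ] [DecidableEq κ] {L : Filter ℕ} (x : ℕ → κ → XX p)
    (d : ℕ → κ → ℚ_[p]) (e : κ → ℚ_[p]) (he : ∀ k, e k ≠ 0) (hd : Tendsto d L (𝓝 e)) (r : ℕ → ℤ)
    (hr : Tendsto r L atTop) (hν : WT L (fun i => orb (ufl p (d i)) (r i) (x i)) (mP p κ))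
    (F : (κ → XX p) →ᵇ ℝ) (G : ℕ → ℚ_[p] → ℝ) (hG : ∀ i, Continuous (G i)) {C : ℝ}
    (hC : ∀ i s, |G i s| ≤ C)
    (hinv : ∀ a : ℕ, ∀ᶠ i in L, ∀ t s, ‖t‖ ≤ (p : ℝ) ^ (a : ℤ) → G i (t + s) = G i s) :
    Tendsto (fun i => ∫ s, F (ufl p (d i) s (x i)) * G i s ∂bm p (r i) -
      (∫ w, F w ∂mP p κ) * ∫ s, G i s ∂bm p (r i)) L (𝓝 0) := by
  have hC0 : 0 ≤ C := (abs_nonneg _).trans (hC 0 0)
  rw [Metric.tendsto_nhds]
  intro ε hε
  have hl := ((erg_mP p e he).l1 F).const_mul C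
  rw [mul_zero] at hl
  obtain ⟨a, ha⟩ := (hl.eventually (gt_mem_nhds hε)).exists
  have h1 := (hν.param hd (blockDev p F a (∫ w, F w ∂mP p κ))).const_mul C
  filter_upwards [h1.eventually (gt_mem_nhds ha), hinv a, hr.eventually_ge_atTop (a : ℤ)]
    with i h2 h3 h4
  rw [Real.dist_eq, sub_zero]
  exact (block_bound p F h4 _ (d i) (x i) (hG i) (hC i) h3).trans_lt h2

theorem step {ι : Type} [Fintype ι] [DecidableEq ι] (𝒰 : Ultrafilter ℕ)
    (h𝒰 : (𝒰 : Filter ℕ) ≤ atTop) (x : ℕ → ι → XX p) (d : ℕ → ι → ℚ_[p]) (e : ι → ℚ_[p])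
    (I J : Finset ι) (hJ : J ⊆ I) (he : ∀ k ∈ J, e k ≠ 0) (he' : ∀ k ∈ I, k ∉ J → e k = 0)
    (hd : ∀ k ∈ I, Tendsto (fun i => d i k) 𝒰 (𝓝 (e k))) (r : ℕ → ℤ) (hr : Tendsto r 𝒰 atTop)
    (hT : ∀ k ∈ J, Tt p 𝒰 (fun i => x i k) (fun i => d i k) r)
    (hE : ∀ k ∈ J, ∀ l ∈ J, k ≠ l →
      NoExc p 𝒰 (fun i => x i k) (fun i => x i l) (fun i => d i k) (fun i => d i l) r)
    (f : ι → (ℂ →ᵇ ℝ)) :
    Tendsto (fun i => ∫ s, ∏ k ∈ I, f k (piX p (uP p (d i k * s) • x i k)) ∂bm p (r i) -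
      (∏ k ∈ J, ∫ z, f k z ∂mY) *
        ∫ s, ∏ k ∈ I \ J, f k (piX p (uP p (d i k * s) • x i k)) ∂bm p (r i)) 𝒰 (𝓝 0) := by
  have hp : (0 : ℝ) < p := by exact_mod_cast (Fact.out : p.Prime).pos
  have hν := block p (κ := J) 𝒰 h𝒰 (fun i k => x i k) (fun i k => d i k) (fun k => e k)
    (fun k => he k k.2) (fun k => hd k (hJ k.2)) r hr (fun k => hT k k.2)
    (fun k l hkl => hE k k.2 l l.2 fun h => hkl (Subtype.ext h))
  let F : (J → XX p) →ᵇ ℝ := ∏ k : J, (f k).compContinuous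
    ⟨fun w => piX p (w k), (continuous_piX p).comp (continuous_apply k)⟩
  have hF : ∀ w, F w = ∏ k : J, f k (piX p (w k)) := by
    intro w
    simp [F]
  have hm : ∫ w, F w ∂mP p J = ∏ k ∈ J, ∫ z, f k z ∂mY := by
    simp only [hF]
    rw [mP, integral_fintype_prod_eq_prod (fun (k : J) (y : XX p) => f k (piX p y)),
      ← Finset.prod_coe_sort J]
    refine Finset.prod_congr rfl fun k _ => ?_
    rw [← map_piX p, integral_map (continuous_piX p).measurable.aemeasurable
      (f k).continuous.aestronglyMeasurable]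
  have h := block_step p (κ := J) (fun i k => x i k) (fun i k => d i k) (fun k => e k)
    (fun k => he k k.2) (tendsto_pi_nhds.2 fun k => hd k (hJ k.2)) r hr hν F
    (fun i s => ∏ k ∈ I \ J, f k (piX p (uP p (d i k * s) • x i k))) ?_
    (C := ∏ k ∈ I \ J, ‖f k‖) ?_ ?_
  · rw [hm] at h
    refine h.congr fun i => ?_
    congr 2
    funext s
    rw [hF, ← Finset.prod_sdiff hJ, mul_comm, ← Finset.prod_coe_sort J]
    rfl
  · intro i
    refine continuous_finsetProd _ fun k _ => (f k).continuous.comp ((continuous_piX p).comp ?_)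
    exact ((continuous_uP p).comp (continuous_const.mul continuous_id)).smul continuous_const
  · intro i s
    rw [Finset.abs_prod]
    exact Finset.prod_le_prod (fun k _ => abs_nonneg _) fun k _ => (f k).norm_coe_le_norm _
  · intro a
    have h1 : ∀ k ∈ I \ J, ∀ᶠ i in (𝒰 : Filter ℕ), ‖d i k‖ < ((p : ℝ) ^ (a : ℤ))⁻¹ := by
      intro k hk
      obtain ⟨hkI, hkJ⟩ := Finset.mem_sdiff.1 hk
      have h2 := (hd k hkI).norm
      rw [he' k hkI hkJ, norm_zero] at h2
      exact h2.eventually (gt_mem_nhds (by positivity))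
    filter_upwards [(Filter.eventually_all_finset _).2 h1] with i hi t s ht
    refine Finset.prod_congr rfl fun k hk => ?_
    have h3 : ‖d i k * t‖ ≤ 1 := by
      rw [norm_mul]
      calc ‖d i k‖ * ‖t‖ ≤ ((p : ℝ) ^ (a : ℤ))⁻¹ * (p : ℝ) ^ (a : ℤ) :=
            mul_le_mul (hi k hk).le ht (norm_nonneg _) (by positivity)
        _ = 1 := inv_mul_cancel₀ (by positivity)
    rw [mul_add, uP_add, mul_smul]
    exact congrArg (f k) (piX_K p (uu_mem_Kp p h3) _)

end Pool.Agent.EQ
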