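import Pool.Agent.P.MP_ad7a55_nt.BrMain

/-! Conjugation of expansions at infinity. -/

noncomputable section

open UpperHalfPlane
open scoped MatrixGroups Nat

namespace Pool.Agent.EQ.Br

variable {N : ℕ} {L : IntermediateField ℚ ℂ} {σ : ℂ ≃+* ℂ} {F F' G G' f f' g g' : ℍ → ℂ} {d : ℤ}

/-- The expansion of `G` is the conjugate of the expansion of `F`. -/
def QC (N : ℕ) (σ : ℂ ≃+* ℂ) (F G : ℍ → ℂ) : Prop :=
  ∃ c : ℕ → ℂ, (∀ τ : ℍ, HasSum (fun n => c n * qN N τ ^ n) (F τ)) ∧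
    ∀ τ : ℍ, HasSum (fun n => σ (c n) * qN N τ ^ n) (G τ)

theorem QC.congr (h : QC N σ F G) (e : ∀ τ, F' τ = F τ) (e' : ∀ τ, G' τ = G τ) :
    QC N σ F' G' := by
  rw [(funext e : F' = F), (funext e' : G' = G)]
  exact h

theorem QC.add (h : QC N σ F G) (h' : QC N σ F' G') :
    QC N σ (fun τ => F τ + F' τ) fun τ => G τ + G' τ := by
  obtain ⟨a, h1, h2⟩ := h
  obtain ⟨b, h3, h4⟩ := h'
  refine ⟨fun n => a n + b n, fun τ => ?_, fun τ => ?_⟩
  · simpa only [add_mul] using (h1 τ).add (h3 τ)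
  · simpa only [map_add, add_mul] using (h2 τ).add (h4 τ)

theorem QC.mul (h : QC N σ F G) (h' : QC N σ F' G') :
    QC N σ (fun τ => F τ * F' τ) fun τ => G τ * G' τ := by
  obtain ⟨a, h1, h2⟩ := h
  obtain ⟨b, h3, h4⟩ := h'
  refine ⟨_, fun τ => vqs_cauchy (h1 τ) (h3 τ), fun τ => ?_⟩
  simpa only [map_sum, map_mul] using vqs_cauchy (h2 τ) (h4 τ)

theorem qc_const (N : ℕ) (σ : ℂ ≃+* ℂ) (c : ℂ) : QC N σ (fun _ => c) fun _ => σ c := by
  refine ⟨fun n => if n = 0 then c else 0, fun τ => ?_, fun τ => ?_⟩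
  · simpa only [pow_zero, mul_one] using vqs_single 0 c (qN N τ)
  · simpa only [pow_zero, mul_one, apply_ite σ, map_zero] using vqs_single 0 (σ c) (qN N τ)

theorem qc_fix (hσ : ∀ a ∈ L, σ a = a) (h : QS N L F) : QC N σ F F := by
  obtain ⟨c, h1, h2⟩ := h
  exact ⟨c, h2, fun τ => by simpa only [hσ _ (h1 _)] using h2 τ⟩

theorem qc_disc (hN : 0 < N) (σ : ℂ ≃+* ℂ) (k : ℕ) :
    QC N σ (fun τ => ModularForm.discriminant τ ^ k) fun τ => ModularForm.discriminant τ ^ k := by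
  refine qc_fix (L := ⊥) (fun a ha => ?_) (vmf_disc hN k)
  obtain ⟨q, rfl⟩ := IntermediateField.mem_bot.1 ha
  simp

theorem QC.of_sum (hN : 0 < N) (h : QC N σ F G) {c : ℕ → ℂ}
    (hc : ∀ τ : ℍ, HasSum (fun n => c n * qN N τ ^ n) (F τ)) (τ : ℍ) :
    HasSum (fun n => σ (c n) * qN N τ ^ n) (G τ) := by
  obtain ⟨a, h1, h2⟩ := h
  rw [vqs_unique hN hc h1]
  exact h2 τ

theorem QC.up (hN : 0 < N) {m M : ℕ} (hm : m ≤ M)
    (h : QC N σ (fun τ => ModularForm.discriminant τ ^ m * f τ)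
      fun τ => ModularForm.discriminant τ ^ m * g τ) :
    QC N σ (fun τ => ModularForm.discriminant τ ^ M * f τ)
      fun τ => ModularForm.discriminant τ ^ M * g τ := by
  obtain ⟨k, rfl⟩ := Nat.exists_eq_add_of_le' hm
  exact ((qc_disc hN σ k).mul h).congr (fun τ => by ring) fun τ => by ring

/-- Conjugation after clearing the pole. -/
def CJ (N : ℕ) (σ : ℂ ≃+* ℂ) (f g : ℍ → ℂ) : Prop :=
  ∃ m : ℕ, QC N σ (fun τ => ModularForm.discriminant τ ^ m * f τ)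
    fun τ => ModularForm.discriminant τ ^ m * g τ

theorem CJ.add (hN : 0 < N) (h : CJ N σ f g) (h' : CJ N σ f' g') :
    CJ N σ (fun τ => f τ + f' τ) fun τ => g τ + g' τ := by
  obtain ⟨m, h1⟩ := h
  obtain ⟨k, h2⟩ := h'
  exact ⟨m + k, ((h1.up hN (Nat.le_add_right m k)).add (h2.up hN (Nat.le_add_left k m))).congr
    (fun τ => mul_add _ _ _) fun τ => mul_add _ _ _⟩

theorem CJ.mul (h : CJ N σ f g) (h' : CJ N σ f' g') :
    CJ N σ (fun τ => f τ * f' τ) fun τ => g τ * g' τ := by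
  obtain ⟨m, h1⟩ := h
  obtain ⟨k, h2⟩ := h'
  exact ⟨m + k, (h1.mul h2).congr (fun τ => by ring) fun τ => by ring⟩

theorem cj_rat (N : ℕ) (σ : ℂ ≃+* ℂ) (q : ℚ) : CJ N σ (fun _ => (q : ℂ)) fun _ => (q : ℂ) :=
  ⟨0, (qc_const N σ q).congr (fun τ => by simp) fun τ => by simp⟩

theorem CJ.unique (hN : 0 < N) (h : CJ N σ f g) (h' : CJ N σ f g') (τ : ℍ) : g τ = g' τ := by
  obtain ⟨m, h1⟩ := h
  obtain ⟨k, h2⟩ := h'
  obtain ⟨c, h3, h4⟩ := h1.up hN (Nat.le_add_right m k)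
  exact mul_left_cancel₀ (pow_ne_zero _ (ModularForm.discriminant_ne_zero τ))
    ((h4 τ).unique ((h2.up hN (Nat.le_add_left k m)).of_sum hN h3 τ))

theorem cs_fix (hN : 0 < N) (σ : ℂ ≃+* ℂ) (t : ℤ) : σ (cs N t) = cs N t := by
  have e : cs N t = ∑ r ∈ Finset.range N, (zt N ^ t) ^ r := by
    rw [cs, Finset.sum_range]
    exact Finset.sum_congr rfl fun r _ => by rw [zpow_mul, zpow_natCast]
  by_cases h : zt N ^ t = 1
  · simp [e, h]
  · have h1 : (zt N ^ t) ^ N = 1 := by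
      rw [← zpow_natCast, ← zpow_mul, mul_comm, zpow_mul, zpow_natCast, (zt_prim hN).pow_eq_one,
        one_zpow]
    rw [e, geom_sum_eq h, h1, sub_self, zero_div, map_zero]

theorem half_qc (hN : 0 < N) (hd : σ (zt N) = zt N ^ d) {j : ℕ} (hj : 1 ≤ j) (a b : ℤ) :
    QC N σ (fun τ => half N (j + 1) a b τ / (2 * Real.pi * Complex.I) ^ (j + 1))
      fun τ => half N (j + 1) (d * a) b τ / (2 * Real.pi * Complex.I) ^ (j + 1) := by
  have h : ∀ p, σ (hw N j a b p) = hw N j (d * a) b p := fun p => by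
    simp only [hw, map_mul, map_div₀, map_pow, map_neg, map_one, map_natCast, map_zpow₀, hd,
      cs_fix hN, ← zpow_mul, mul_assoc]
  exact ⟨_, half_sum hN hj a b, fun τ => by
    simpa only [rg_map σ h] using half_sum hN hj (d * a) b τ⟩

/-- The action of a unit on the characters. -/
def dl (d : ℤ) (a : Fin 2 → ℤ) : Fin 2 → ℤ := ![d * a 0, a 1]

theorem GE_qc (hN : 0 < N) (hd : σ (zt N) = zt N ^ d) {k : ℕ} (hk : 3 ≤ k) (a : Fin 2 → ℤ) :
    QC N σ (GE N k a) (GE N k (dl d a)) := by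
  obtain ⟨r, hr⟩ := GE_eq hN hk (a 1)
  obtain ⟨j, rfl⟩ : ∃ j, k = j + 1 := ⟨k - 1, by omega⟩
  rw [hr a rfl, hr (dl d a) rfl]
  refine (((qc_const N σ r).add (half_qc hN hd (j := j) (by omega) (a 0) (a 1))).add
    ((qc_const N σ ((-1) ^ (j + 1))).mul
      (half_qc hN hd (j := j) (by omega) (-a 0) (-a 1)))).congr (fun _ => rfl) fun τ => ?_
  simp only [dl, Matrix.cons_val_zero, map_ratCast, map_pow, map_neg, map_one, mul_neg]

/-- `δ` is congruent to the conjugate of `γ` by the diagonal matrix with entries `1` and `d`. -/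
def Rel (N : ℕ) (d : ℤ) (γ δ : SL(2, ℤ)) : Prop :=
  (N : ℤ) ∣ δ 0 0 - γ 0 0 ∧ (N : ℤ) ∣ δ 0 1 - d * γ 0 1 ∧ (N : ℤ) ∣ d * δ 1 0 - γ 1 0 ∧
    (N : ℤ) ∣ δ 1 1 - γ 1 1

theorem rel_iff {γ δ : SL(2, ℤ)} : Rel N d γ δ ↔
    ((δ 0 0 : ℤ) : ZMod N) = γ 0 0 ∧ ((δ 0 1 : ℤ) : ZMod N) = d * γ 0 1 ∧
      (d : ZMod N) * δ 1 0 = γ 1 0 ∧ ((δ 1 1 : ℤ) : ZMod N) = γ 1 1 := by
  simp only [Rel, ← ZMod.intCast_zmod_eq_zero_iff_dvd, Int.cast_sub, Int.cast_mul, sub_eq_zero]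

theorem rel_one (N : ℕ) (d : ℤ) : Rel N d 1 1 := by
  simp [Rel]

theorem Rel.mul {γ δ γ' δ' : SL(2, ℤ)} (h : Rel N d γ δ) (h' : Rel N d γ' δ') :
    Rel N d (γ * γ') (δ * δ') := by
  obtain ⟨a1, a2, a3, a4⟩ := rel_iff.1 h
  obtain ⟨b1, b2, b3, b4⟩ := rel_iff.1 h'
  rw [rel_iff]
  simp only [Matrix.SpecialLinearGroup.coe_mul, Matrix.mul_apply, Fin.sum_univ_two, Int.cast_add,
    Int.cast_mul]
  rw [a1, a2, a4, b1, b2, b4, ← a3, ← b3]
  exact ⟨by ring, by ring, by ring, by ring⟩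

theorem Rel.inv {γ δ : SL(2, ℤ)} (h : Rel N d γ δ) : Rel N d γ⁻¹ δ⁻¹ := by
  obtain ⟨a1, a2, a3, a4⟩ := rel_iff.1 h
  rw [rel_iff, Matrix.SpecialLinearGroup.SL2_inv_expl, Matrix.SpecialLinearGroup.SL2_inv_expl]
  simp only [Matrix.cons_val', Matrix.cons_val_zero, Matrix.cons_val_one, Matrix.cons_val_fin_one,
    Int.cast_neg]
  rw [a1, a2, a4, ← a3]
  exact ⟨rfl, by ring, by ring, rfl⟩

theorem Rel.symm {d' : ℤ} (hd : (N : ℤ) ∣ d * d' - 1) {γ δ : SL(2, ℤ)} (h : Rel N d γ δ) :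
    Rel N d' δ γ := by
  obtain ⟨a1, a2, a3, a4⟩ := rel_iff.1 h
  have e := (ZMod.intCast_zmod_eq_zero_iff_dvd _ _).2 hd
  push_cast at e
  rw [rel_iff]
  exact ⟨a1.symm, by linear_combination (-(d' : ZMod N)) * a2 - (γ 0 1 : ZMod N) * e,
    by linear_combination (-(d' : ZMod N)) * a3 + (δ 1 0 : ZMod N) * e, a4.symm⟩

theorem exists_rel {d' : ℤ} (hd : (N : ℤ) ∣ d * d' - 1) (γ : SL(2, ℤ)) : ∃ δ, Rel N d γ δ := by
  have hγ : γ ∈ Subgroup.closure {ModularGroup.S, ModularGroup.T} := by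
    simp [SpecialLinearGroup.SL2Z_generators]
  have e := (ZMod.intCast_zmod_eq_zero_iff_dvd _ _).2 hd
  push_cast at e
  induction hγ using Subgroup.closure_induction with
  | one => exact ⟨1, rel_one N d⟩
  | mul _ _ _ _ h1 h2 =>
    obtain ⟨_, h1⟩ := h1
    obtain ⟨_, h2⟩ := h2
    exact ⟨_, h1.mul h2⟩
  | inv _ _ h1 =>
    obtain ⟨_, h1⟩ := h1
    exact ⟨_, h1.inv⟩
  | mem g hg =>
    rcases hg with rfl | rfl
    · refine ⟨⟨!![1 - d * d', -d * (1 - d * d') - d; d', 1 - d * d'], by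
        rw [Matrix.det_fin_two_of]
        ring⟩, rel_iff.2 ?_⟩
      simp only [ModularGroup.coe_S, Matrix.of_apply, Matrix.cons_val', Matrix.cons_val_zero,
        Matrix.cons_val_one, Matrix.cons_val_fin_one]
      push_cast
      exact ⟨by linear_combination -e, by linear_combination (d : ZMod N) * e,
        by linear_combination e, by linear_combination -e⟩
    · refine ⟨⟨!![1, d; 0, 1], by
        rw [Matrix.det_fin_two_of]
        ring⟩, rel_iff.2 ?_⟩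
      simp [ModularGroup.coe_T]

theorem exists_pow (hN : 0 < N) (σ : ℂ ≃+* ℂ) : ∃ d : ℤ, σ (zt N) = zt N ^ d := by
  have : NeZero N := ⟨hN.ne'⟩
  obtain ⟨i, -, h⟩ := (zt_prim hN).eq_pow_of_pow_eq_one (ξ := σ (zt N)) (by
    rw [← map_pow, (zt_prim hN).pow_eq_one, map_one])
  exact ⟨i, by rw [zpow_natCast, h]⟩

theorem exists_inv (hN : 0 < N) (hd : σ (zt N) = zt N ^ d) :
    ∃ d' : ℤ, σ.symm (zt N) = zt N ^ d' ∧ (N : ℤ) ∣ d * d' - 1 := by
  obtain ⟨d', h⟩ := exists_pow hN σ.symm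
  refine ⟨d', h, zt_inj hN ?_⟩
  rw [zpow_mul, ← hd, ← map_zpow₀, ← h, RingEquiv.apply_symm_apply, zpow_one]

theorem GE_rel (hN : 0 < N) {γ δ : SL(2, ℤ)} (h : Rel N d γ δ) (k : ℕ) (a : Fin 2 → ℤ) (τ : ℍ) :
    GE N k (tw δ (dl d a)) τ = GE N k (dl d (tw γ a)) τ := by
  obtain ⟨a1, a2, a3, a4⟩ := rel_iff.1 h
  refine GE_congr hN k ?_ ?_ τ
  · rw [← ZMod.intCast_zmod_eq_zero_iff_dvd]
    simp only [tw, dl, Matrix.cons_val_zero, Matrix.cons_val_one]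
    push_cast
    rw [a2, a4]
    ring
  · rw [← ZMod.intCast_zmod_eq_zero_iff_dvd]
    simp only [tw, dl, Matrix.cons_val_zero, Matrix.cons_val_one]
    push_cast
    rw [a1, ← a3]
    ring

theorem mon_cj (hN : 0 < N) (hd : σ (zt N) = zt N ^ d) (l : List Ix) {m : ℕ}
    (h : (l.map fun i => i.1 + 3).sum = 12 * m) {γ δ : SL(2, ℤ)} (hr : Rel N d γ δ) :
    ((l.map fun i : Ix => ((i.1, dl d i.2) : Ix)).map fun i => i.1 + 3).sum = 12 * m ∧
    CJ N σ (fun τ => mon N l m (γ • τ))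
      fun τ => mon N (l.map fun i : Ix => ((i.1, dl d i.2) : Ix)) m (δ • τ) := by
  have h1 : ((l.map fun i : Ix => ((i.1, dl d i.2) : Ix)).map fun i => i.1 + 3).sum = 12 * m := by
    rw [List.map_map]
    exact h
  have h2 : QC N σ (fun τ => (l.map fun i => GE N (i.1 + 3) (tw γ i.2) τ).prod)
      fun τ => ((l.map fun i : Ix => ((i.1, dl d i.2) : Ix)).map
        fun i => GE N (i.1 + 3) (tw δ i.2) τ).prod := by
    clear h h1
    induction l with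
    | nil => simpa using qc_const N σ 1
    | cons i l ih =>
      simp only [List.map_cons, List.prod_cons, GE_rel hN hr]
      exact (GE_qc hN hd (by omega) _).mul ih
  refine ⟨h1, m, h2.congr (fun τ => ?_) fun τ => ?_⟩
  · beta_reduce
    rw [mon_key N l h, mul_div_cancel₀ _ (pow_ne_zero _ (ModularForm.discriminant_ne_zero τ))]
  · beta_reduce
    rw [mon_key N _ h1, mul_div_cancel₀ _ (pow_ne_zero _ (ModularForm.discriminant_ne_zero τ))]

end Pool.Agent.EQ.Br
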