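import Pool.Agent.K.MP_ad7a55_nt.C33

/-! Eisenstein series twisted by characters of level `N` and their expansions. -/

noncomputable section

open UpperHalfPlane Filter Topology EisensteinSeries
open scoped MatrixGroups Nat

namespace Pool.Agent.EQ.Br

variable {N : ℕ} {L : IntermediateField ℚ ℂ}

theorem zt_prim (hN : 0 < N) : IsPrimitiveRoot (zt N) N := Complex.isPrimitiveRoot_exp N hN.ne'

theorem zt_ne (N : ℕ) : zt N ≠ 0 := Complex.exp_ne_zero _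

theorem zt_zpow (N : ℕ) (n : ℤ) :
    zt N ^ n = Complex.exp (2 * Real.pi * Complex.I * n / N) := by
  rw [zt, ← Complex.exp_int_mul]
  congr 1
  ring

theorem zt_norm (N : ℕ) (n : ℤ) : ‖zt N ^ n‖ = 1 := by
  have e : 2 * Real.pi * Complex.I * n / N = ((2 * Real.pi * n / N : ℝ) : ℂ) * Complex.I := by
    push_cast
    ring
  rw [zt_zpow, e, Complex.norm_exp_ofReal_mul_I]

theorem zt_congr (hN : 0 < N) {m n : ℤ} (h : (N : ℤ) ∣ m - n) : zt N ^ m = zt N ^ n := by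
  obtain ⟨c, hc⟩ := h
  have e : m = n + N * c := by omega
  rw [e, zpow_add₀ (zt_ne N), zpow_mul, zpow_natCast, (zt_prim hN).pow_eq_one, one_zpow, mul_one]

theorem zt_inj (hN : 0 < N) {m n : ℤ} (h : zt N ^ m = zt N ^ n) : (N : ℤ) ∣ m - n := by
  rw [← (zt_prim hN).zpow_eq_one_iff_dvd, zpow_sub₀ (zt_ne N), h,
    div_self (zpow_ne_zero _ (zt_ne N))]

/-- One row of the twisted series. -/
def row (N k : ℕ) (b : ℤ) (z : ℂ) : ℂ := ∑' n : ℤ, zt N ^ (b * n) * ((z + n) ^ k)⁻¹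

theorem row_summable (N : ℕ) {k : ℕ} (hk : 2 ≤ k) (b : ℤ) (z : ℂ) :
    Summable fun n : ℤ => zt N ^ (b * n) * ((z + n) ^ k)⁻¹ := by
  have h := (linear_right_summable z 1 (k := k) (by exact_mod_cast hk)).norm
  refine Summable.of_norm (h.congr fun n => ?_)
  rw [norm_mul, zt_norm]
  simp

theorem row_neg (N k : ℕ) (b : ℤ) (z : ℂ) : row N k b (-z) = (-1) ^ k * row N k (-b) z := by
  rw [row, row, ← tsum_mul_left, ← (Equiv.neg ℤ).tsum_eq]
  refine tsum_congr fun n => ?_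
  have e : -z + ((Equiv.neg ℤ n : ℤ) : ℂ) = (-1) * (z + n) := by
    simp only [Equiv.neg_apply, Int.cast_neg]
    ring
  have e2 : ((-1 : ℂ) ^ k)⁻¹ = (-1) ^ k := by rw [← inv_pow, inv_neg, inv_one]
  rw [e, mul_pow, mul_inv, e2, Equiv.neg_apply, mul_neg, neg_mul b]
  ring

theorem row_zero (hN : 0 < N) {k : ℕ} (hk : 2 ≤ k) (b : ℤ) :
    ∃ r : ℚ, row N k b 0 = (2 * Real.pi * Complex.I) ^ k * r := by
  have hN' : (0 : ℝ) < N := by exact_mod_cast hN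
  have hz : (0 : ℤ) < N := by exact_mod_cast hN
  have h0 : (0 : ℝ) ≤ ((b % N : ℤ) : ℝ) := by exact_mod_cast Int.emod_nonneg b hz.ne'
  have h1 : ((b % N : ℤ) : ℝ) ≤ N := by exact_mod_cast (Int.emod_lt_of_pos b hz).le
  have h := hasSum_one_div_pow_mul_fourier_mul_bernoulliFun hk
    (x := ((b % N : ℤ) : ℝ) / N) ⟨div_nonneg h0 hN'.le, (div_le_one hN').2 h1⟩
  refine ⟨-(1 / k !) * (Polynomial.bernoulli k).eval (((b % N : ℤ) : ℚ) / N), ?_⟩
  have e1 : bernoulliFun k (((b % N : ℤ) : ℝ) / N) =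
      (((Polynomial.bernoulli k).eval (((b % N : ℤ) : ℚ) / N) : ℚ) : ℝ) := by
    have e : (((b % N : ℤ) : ℝ) / N) = algebraMap ℚ ℝ (((b % N : ℤ) : ℚ) / N) := by
      simp
    rw [bernoulliFun, e, Polynomial.eval_map, Polynomial.eval₂_hom]
    simp
  have e2 : row N k b 0 = ∑' n : ℤ, 1 / (n : ℂ) ^ k *
      fourier n ((((b % N : ℤ) : ℝ) / N : ℝ) : UnitAddCircle) := by
    refine tsum_congr fun n => ?_
    have e3 : zt N ^ (b * n) = zt N ^ (b % N * n) := zt_congr hN (by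
      rw [← sub_mul]
      exact Dvd.dvd.mul_right (Int.dvd_self_sub_emod) _)
    rw [fourier_coe_apply, e3, zt_zpow, zero_add, one_div, mul_comm]
    congr 2
    push_cast
    ring
  rw [e2, h.tsum_eq, e1]
  push_cast
  ring

/-- The finite sum of roots of unity in the expansion of a row. -/
def cs (N : ℕ) (t : ℤ) : ℂ := ∑ r : Fin N, zt N ^ (t * (r : ℕ))

theorem cs_mem (hz : zt N ∈ L) (t : ℤ) : cs N t ∈ L := sum_mem fun _ _ => zpow_mem hz _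

theorem cs_norm (N : ℕ) (t : ℤ) : ‖cs N t‖ ≤ N := by
  refine (norm_sum_le _ _).trans ?_
  simp only [zt_norm]
  simp

theorem row_pos (hN : 0 < N) {j : ℕ} (hj : 1 ≤ j) (b : ℤ) (z : ℍ) :
    row N (j + 1) b z = (-2 * Real.pi * Complex.I) ^ (j + 1) / j ! / N ^ (j + 1) *
      ∑' d : ℕ+, ((d : ℕ) : ℂ) ^ j * cs N (b + (d : ℕ)) * qN N z ^ (d : ℕ) := by
  have : NeZero N := ⟨hN.ne'⟩
  have hN0 : (N : ℂ) ≠ 0 := Nat.cast_ne_zero.2 hN.ne'
  have hs := (Int.divModEquiv N).symm.summable_iff.2 (row_summable N (k := j + 1) (by omega) b z)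
  have him : ∀ r : Fin N, 0 < (((z : ℂ) + (r : ℕ)) / N).im := fun r => by
    rw [Complex.div_natCast_im]
    exact div_pos (by simpa using z.im_pos) (by exact_mod_cast hN)
  have hq : ∀ (r : Fin N) (d : ℕ),
      Complex.exp (2 * Real.pi * Complex.I * (((z : ℂ) + (r : ℕ)) / N)) ^ d =
        zt N ^ ((d : ℤ) * (r : ℕ)) * qN N z ^ d := fun r d => by
    rw [zt_zpow, qN, ← Complex.exp_nat_mul, ← Complex.exp_nat_mul, ← Complex.exp_add]
    congr 1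
    push_cast
    ring
  have hsum : Summable fun d : ℕ+ => ((d : ℕ) : ℂ) ^ j * qN N z ^ (d : ℕ) := by
    have h1 := summable_pow_mul_geometric_of_norm_lt_one j (vqs_lt hN z)
    exact h1.comp_injective PNat.coe_injective
  have hs2 : ∀ r : Fin N, Summable fun d : ℕ+ =>
      ((d : ℕ) : ℂ) ^ j * zt N ^ ((b + (d : ℕ)) * (r : ℕ)) * qN N z ^ (d : ℕ) := fun r => by
    refine Summable.of_norm (hsum.norm.congr fun d => ?_)
    simp only [norm_mul, zt_norm, mul_one]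
  have h1 : ∀ r : Fin N, ∑' m : ℤ, zt N ^ (b * (m * N + (r : ℕ))) *
      (((z : ℂ) + ((m * N + (r : ℕ) : ℤ) : ℂ)) ^ (j + 1))⁻¹ =
      (-2 * Real.pi * Complex.I) ^ (j + 1) / j ! / N ^ (j + 1) * ∑' d : ℕ+,
        ((d : ℕ) : ℂ) ^ j * zt N ^ ((b + (d : ℕ)) * (r : ℕ)) * qN N z ^ (d : ℕ) := fun r => by
    have h2 := EisensteinSeries.qExpansion_identity_pnat hj ⟨_, him r⟩
    have h3 : ∀ m : ℤ, zt N ^ (b * (m * N + (r : ℕ))) *
        (((z : ℂ) + ((m * N + (r : ℕ) : ℤ) : ℂ)) ^ (j + 1))⁻¹ =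
        zt N ^ (b * (r : ℕ)) / N ^ (j + 1) *
          (1 / (((z : ℂ) + (r : ℕ)) / N + m) ^ (j + 1)) := fun m => by
      have e : (z : ℂ) + ((m * N + (r : ℕ) : ℤ) : ℂ) = N * (((z : ℂ) + (r : ℕ)) / N + m) := by
        push_cast
        field_simp
        ring
      rw [e, mul_pow, mul_inv, zt_congr hN (m := b * (m * N + (r : ℕ))) (n := b * (r : ℕ))
        ⟨b * m, by ring⟩]
      ring
    simp only at h2
    rw [tsum_congr h3, tsum_mul_left, h2]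
    have h4 : ∑' d : ℕ+, ((d : ℕ) : ℂ) ^ j * zt N ^ ((b + (d : ℕ)) * (r : ℕ)) * qN N z ^ (d : ℕ) =
        zt N ^ (b * (r : ℕ)) * ∑' d : ℕ+, ((d : ℕ) : ℂ) ^ j *
          Complex.exp (2 * Real.pi * Complex.I * (((z : ℂ) + (r : ℕ)) / N)) ^ (d : ℕ) := by
      rw [← tsum_mul_left]
      refine tsum_congr fun d => ?_
      rw [hq, add_mul, zpow_add₀ (zt_ne N)]
      ring
    rw [h4]
    ring
  have h5 := Summable.tsum_prod ((Equiv.prodComm (Fin N) ℤ).summable_iff.2 hs)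
  rw [row, ← (Int.divModEquiv N).symm.tsum_eq, ← (Equiv.prodComm (Fin N) ℤ).tsum_eq]
  refine (h5.trans (tsum_congr h1)).trans ?_
  rw [tsum_fintype, ← Finset.mul_sum, ← Summable.tsum_finsetSum fun r _ => hs2 r]
  congr 1
  refine tsum_congr fun d => ?_
  rw [cs, Finset.mul_sum, Finset.sum_mul]

/-- Regrouping of a double series as a power series. -/
def rg (w : ℕ+ × ℕ+ → ℂ) (n : ℕ) : ℂ :=
  ∑' p : (fun p : ℕ+ × ℕ+ => (p.1 : ℕ) * p.2) ⁻¹' {n}, w p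

theorem rg_fin (n : ℕ) : ((fun p : ℕ+ × ℕ+ => (p.1 : ℕ) * p.2) ⁻¹' {n}).Finite := by
  refine Set.Finite.of_finite_image (f := fun p : ℕ+ × ℕ+ => ((p.1 : ℕ), (p.2 : ℕ)))
    (((Set.finite_Iic n).prod (Set.finite_Iic n)).subset ?_) fun p _ q _ e => ?_
  · rintro _ ⟨p, hp, rfl⟩
    have e : (p.1 : ℕ) * p.2 = n := hp
    exact ⟨e ▸ Nat.le_mul_of_pos_right _ p.2.pos, e ▸ Nat.le_mul_of_pos_left _ p.1.pos⟩
  · exact Prod.ext (PNat.coe_injective (congrArg Prod.fst e))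
      (PNat.coe_injective (congrArg Prod.snd e))

theorem rg_mem {w : ℕ+ × ℕ+ → ℂ} (hw : ∀ p, w p ∈ L) (n : ℕ) : rg w n ∈ L := by
  have := (rg_fin n).fintype
  rw [rg, tsum_fintype]
  exact sum_mem fun p _ => hw _

theorem rg_map (σ : ℂ ≃+* ℂ) {w w' : ℕ+ × ℕ+ → ℂ} (hw : ∀ p, σ (w p) = w' p) (n : ℕ) :
    σ (rg w n) = rg w' n := by
  have := (rg_fin n).fintype
  rw [rg, rg, tsum_fintype, tsum_fintype, map_sum]
  exact Finset.sum_congr rfl fun p _ => hw _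

theorem rg_sum {w : ℕ+ × ℕ+ → ℂ} {x y : ℂ}
    (h : HasSum (fun p : ℕ+ × ℕ+ => w p * x ^ ((p.1 : ℕ) * p.2)) y) :
    HasSum (fun n => rg w n * x ^ n) y := by
  let g : ℕ+ × ℕ+ → ℕ := fun p => (p.1 : ℕ) * p.2
  have h1 := h.tsum_fiberwise g
  have e : (fun n => rg w n * x ^ n) =
      fun n => ∑' p : g ⁻¹' {n}, w p * x ^ (((p : ℕ+ × ℕ+).1 : ℕ) * (p : ℕ+ × ℕ+).2) := by
    funext n
    rw [rg, ← tsum_mul_right]
    refine tsum_congr fun p => ?_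
    have e : ((p : ℕ+ × ℕ+).1 : ℕ) * (p : ℕ+ × ℕ+).2 = n := p.2
    rw [e]
  rw [e]
  exact h1

/-- The rows of positive index. -/
def half (N k : ℕ) (a b : ℤ) (τ : ℍ) : ℂ :=
  ∑' m : ℕ+, zt N ^ (a * (m : ℕ)) * row N k b ((m : ℕ) * (τ : ℂ))

/-- The coefficients of the double series. -/
def hw (N j : ℕ) (a b : ℤ) (p : ℕ+ × ℕ+) : ℂ :=
  (-1) ^ (j + 1) / j ! / N ^ (j + 1) *
    (zt N ^ (a * (p.1 : ℕ)) * (((p.2 : ℕ) : ℂ) ^ j * cs N (b + (p.2 : ℕ))))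

theorem half_sum (hN : 0 < N) {j : ℕ} (hj : 1 ≤ j) (a b : ℤ) (τ : ℍ) :
    HasSum (fun n => rg (hw N j a b) n * qN N τ ^ n)
      (half N (j + 1) a b τ / (2 * Real.pi * Complex.I) ^ (j + 1)) := by
  let u : ℂ := (-1) ^ (j + 1) / j ! / N ^ (j + 1)
  let w : ℕ+ × ℕ+ → ℂ := fun p =>
    u * (zt N ^ (a * (p.1 : ℕ)) * (((p.2 : ℕ) : ℂ) ^ j * cs N (b + (p.2 : ℕ))))
  refine rg_sum (w := w) ?_
  have hs : Summable fun p : ℕ+ × ℕ+ => w p * qN N τ ^ ((p.1 : ℕ) * p.2) := by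
    refine Summable.of_norm_bounded
      ((summable_prod_mul_pow j (vqs_lt hN τ)).norm.mul_left (‖u‖ * N)) fun p => ?_
    simp only [w, norm_mul, zt_norm, one_mul]
    have := cs_norm N (b + (p.2 : ℕ))
    calc _ ≤ ‖u‖ * (‖((p.2 : ℕ) : ℂ) ^ j‖ * N) * ‖qN N τ ^ ((p.1 : ℕ) * p.2)‖ := by gcongr
      _ = _ := by ring
  have hπ : (2 * Real.pi * Complex.I : ℂ) ^ (j + 1) ≠ 0 :=
    pow_ne_zero _ Complex.two_pi_I_ne_zero
  have e : half N (j + 1) a b τ / (2 * Real.pi * Complex.I) ^ (j + 1) =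
      ∑' p : ℕ+ × ℕ+, w p * qN N τ ^ ((p.1 : ℕ) * p.2) := by
    rw [hs.tsum_prod, half, ← tsum_div_const]
    refine tsum_congr fun m => ?_
    have him : 0 < (((m : ℕ) : ℂ) * (τ : ℂ)).im := by
      simpa using τ.im_pos
    have h1 := row_pos hN hj b ⟨_, him⟩
    have h2 : qN N ⟨_, him⟩ = qN N τ ^ (m : ℕ) := by
      rw [qN, qN, ← Complex.exp_nat_mul, coe_mk]
      congr 1
      ring
    rw [coe_mk, h2] at h1
    have h3 : ∑' d : ℕ+, w (m, d) * qN N τ ^ ((m : ℕ) * d) = u * zt N ^ (a * (m : ℕ)) *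
        ∑' d : ℕ+, ((d : ℕ) : ℂ) ^ j * cs N (b + (d : ℕ)) * (qN N τ ^ (m : ℕ)) ^ (d : ℕ) := by
      rw [← tsum_mul_left]
      refine tsum_congr fun d => ?_
      simp only [w, pow_mul]
      ring
    have h4 : (-2 * Real.pi * Complex.I : ℂ) ^ (j + 1) =
        (-1) ^ (j + 1) * (2 * Real.pi * Complex.I) ^ (j + 1) := by
      rw [← mul_pow]
      congr 1
      ring
    rw [h3, h1, h4, div_eq_iff hπ]
    simp only [u]
    ring
  rw [e]
  exact hs.hasSum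

theorem half_qs (hN : 0 < N) (hz : zt N ∈ L) {j : ℕ} (hj : 1 ≤ j) (a b : ℤ) :
    QS N L fun τ => half N (j + 1) a b τ / (2 * Real.pi * Complex.I) ^ (j + 1) :=
  ⟨_, rg_mem fun _ => mul_mem (div_mem (div_mem (pow_mem (neg_mem (one_mem L)) _)
    (natCast_mem L _)) (pow_mem (natCast_mem L _) _)) (mul_mem (zpow_mem hz _)
    (mul_mem (pow_mem (natCast_mem L _) _) (cs_mem hz _))), half_sum hN hj a b⟩

/-- The twisted Eisenstein series, divided by the power of `2 π i`. -/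
def GE (N k : ℕ) (a : Fin 2 → ℤ) (τ : ℍ) : ℂ :=
  (∑' v : Fin 2 → ℤ, zt N ^ (a 0 * v 0 + a 1 * v 1) * eisSummand k v τ) /
    (2 * Real.pi * Complex.I) ^ k

theorem GE_summable (N : ℕ) {k : ℕ} (hk : 3 ≤ k) (a : Fin 2 → ℤ) (τ : ℍ) :
    Summable fun v : Fin 2 → ℤ => zt N ^ (a 0 * v 0 + a 1 * v 1) * eisSummand k v τ := by
  refine Summable.of_norm ((summable_eisSummand hk τ).norm.congr fun v => ?_)
  rw [norm_mul, zt_norm, one_mul]

theorem GE_split (N : ℕ) {k : ℕ} (hk : 3 ≤ k) (a : Fin 2 → ℤ) (τ : ℍ) :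
    ∑' v : Fin 2 → ℤ, zt N ^ (a 0 * v 0 + a 1 * v 1) * eisSummand k v τ =
      row N k (a 1) 0 + half N k (a 0) (a 1) τ + (-1) ^ k * half N k (-a 0) (-a 1) τ := by
  have hs := (finTwoArrowEquiv ℤ).symm.summable_iff.2 (GE_summable N hk a τ)
  have h1 : ∀ m : ℤ, ∑' n : ℤ, zt N ^ (a 0 * (finTwoArrowEquiv ℤ).symm (m, n) 0 +
      a 1 * (finTwoArrowEquiv ℤ).symm (m, n) 1) *
        eisSummand k ((finTwoArrowEquiv ℤ).symm (m, n)) τ =
      zt N ^ (a 0 * m) * row N k (a 1) (m * (τ : ℂ)) := fun m => by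
    rw [row, ← tsum_mul_left]
    refine tsum_congr fun n => ?_
    simp only [finTwoArrowEquiv_symm_apply, Matrix.cons_val_zero, Matrix.cons_val_one, eisSummand,
      zpow_neg, zpow_natCast, zpow_add₀ (zt_ne N), mul_assoc]
  have h2 : Summable fun m : ℤ => zt N ^ (a 0 * m) * row N k (a 1) (m * (τ : ℂ)) :=
    hs.prod.congr h1
  rw [← (finTwoArrowEquiv ℤ).symm.tsum_eq]
  refine ((Summable.tsum_prod hs).trans (tsum_congr h1)).trans ?_
  rw [tsum_int_eq_zero_add_tsum_pnat h2, half, half, ← tsum_mul_left]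
  congr 1
  · simp
  · refine tsum_congr fun m => ?_
    have e : ((-((m : ℕ) : ℤ) : ℤ) : ℂ) * (τ : ℂ) = -(((m : ℕ) : ℂ) * τ) := by
      push_cast
      ring
    rw [e, row_neg, mul_neg, neg_mul (a 0)]
    ring

theorem GE_eq (hN : 0 < N) {k : ℕ} (hk : 3 ≤ k) (b : ℤ) : ∃ r : ℚ, ∀ a : Fin 2 → ℤ, a 1 = b →
    GE N k a = fun τ => (r : ℂ) +
      half N k (a 0) b τ / (2 * Real.pi * Complex.I) ^ k + (-1) ^ k *
      (half N k (-a 0) (-b) τ / (2 * Real.pi * Complex.I) ^ k) := by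
  obtain ⟨r, hr⟩ := row_zero hN (k := k) (by omega) b
  have hπ : (2 * Real.pi * Complex.I : ℂ) ^ k ≠ 0 := pow_ne_zero _ Complex.two_pi_I_ne_zero
  refine ⟨r, fun a ha => funext fun τ => ?_⟩
  rw [GE, GE_split N hk, ha, hr]
  field_simp

theorem GE_qs (hN : 0 < N) (hz : zt N ∈ L) {k : ℕ} (hk : 3 ≤ k) (a : Fin 2 → ℤ) :
    QS N L (GE N k a) := by
  obtain ⟨r, hr⟩ := GE_eq hN hk (a 1)
  obtain ⟨j, rfl⟩ : ∃ j, k = j + 1 := ⟨k - 1, by omega⟩
  rw [hr a rfl]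
  exact ((qs_const (N := N) (SubfieldClass.ratCast_mem L r)).add
    (half_qs hN hz (j := j) (by omega) (a 0) (a 1))).add
    ((qs_const (pow_mem (neg_mem (one_mem L)) (j + 1))).mul hN
      (half_qs hN hz (j := j) (by omega) (-a 0) (-a 1)))

end Pool.Agent.EQ.Br
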