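import Pool.Agent.P.MP_ad7a55_nt.BrMain

/-! The ring of modular functions is a finite module over the polynomials in `j`. -/

noncomputable section

open UpperHalfPlane Polynomial
open scoped MatrixGroups

namespace Pool.Agent.EQ.Br

variable {N : ℕ} {L : IntermediateField ℚ ℂ} {Γ : Subgroup SL(2, ℤ)}

theorem inv_poly (hN : 0 < N) {f : ℍ → ℂ} (hf : f ∈ MF N L)
    (h : ∀ (γ : SL(2, ℤ)) (τ : ℍ), f (γ • τ) = f τ) :
    ∃ Q : L[X], ∀ τ, f τ = Q.eval₂ (algebraMap L ℂ) (jInv τ) := by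
  obtain ⟨P, hP, e⟩ := MF.poly hN hf h
  obtain ⟨Q, rfl⟩ := (mem_lifts (f := algebraMap L ℂ) P).1
    ((lifts_iff_coeff_lifts P).2 fun n => ⟨⟨_, hP n⟩, rfl⟩)
  exact ⟨Q, fun τ => by rw [e, eval_map]⟩

theorem pf_mf (hN : 0 < N) (hΓ : CongruenceSubgroup.Gamma N ≤ Γ) (Q : L[X]) :
    IsMF Γ N L fun τ => Q.eval₂ (algebraMap L ℂ) (jInv τ) := by
  have h : (∑ i ∈ Finset.range (Q.natDegree + 1), (fun _ => (Q.coeff i : ℂ)) * jInv ^ i) ∈
      AG hN hΓ L := sum_mem fun i _ => mul_mem (const_mf (Q.coeff i).2) (pow_mem (j_mf hN) i)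
  have e : (fun τ => Q.eval₂ (algebraMap L ℂ) (jInv τ)) =
      ∑ i ∈ Finset.range (Q.natDegree + 1), (fun _ => (Q.coeff i : ℂ)) * jInv ^ i :=
    funext fun τ => by
      rw [eval₂_eq_sum_range, Finset.sum_apply]
      rfl
  rw [e]
  exact h

theorem zero_of_trans (hN : 0 < N) {t : ℍ} (ht : Transcendental L (jInv t)) {f : ℍ → ℂ}
    (hf : f ∈ MF N L) (h0 : f t = 0) (τ : ℍ) : f τ = 0 := by
  have := vcj_fin hN
  have := Fintype.ofFinite (vcjQ N)
  by_contra h1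
  obtain ⟨Q, e⟩ := inv_poly hN (MF.prod hN Finset.univ
    (f := fun (c : vcjQ N) τ => f (c.out⁻¹ • τ)) fun c _ => MF.smul hf _) fun γ t => by
      simp only [vcj_shift hf γ]
      exact Equiv.prod_comp (MulAction.toPerm γ⁻¹) fun c : vcjQ N => f (c.out⁻¹ • t)
  obtain ⟨τ₂, h2⟩ := vcj_prod_ne hN Finset.univ (F := fun (c : vcjQ N) τ => f (c.out⁻¹ • τ))
    (fun c => MF.smul hf _) fun c => ⟨c.out • τ, by simpa using h1⟩
  refine ht ⟨Q, fun h3 => h2 (by rw [e τ₂, h3, eval₂_zero]), ?_⟩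
  rw [aeval_def, ← e t]
  exact Finset.prod_eq_zero (Finset.mem_univ (QuotientGroup.mk 1)) (by rw [vcj_one hf, h0])

theorem exists_trans (L : IntermediateField ℚ ℂ) [FiniteDimensional ℚ L] :
    ∃ t : ℍ, Transcendental L (jInv t) := by
  have : Countable L := Countable.of_equiv _ (Module.finBasis ℚ L).equivFun.toEquiv.symm
  by_contra h
  refine not_countable_complex ((Algebraic.countable L ℂ).mono fun z _ => ?_)
  obtain ⟨t, rfl⟩ := jInv_surj z
  exact by_contra fun h1 => h ⟨t, h1⟩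

theorem finite_mod (hN : 0 < N) (hΓ : CongruenceSubgroup.Gamma N ≤ Γ) [FiniteDimensional ℚ L] :
    ∃ (r : ℕ) (g : Fin r → ℍ → ℂ), (∀ a, IsMF Γ N L (g a)) ∧ ∀ f, IsMF Γ N L f →
      ∃ (d : ℕ) (x : Fin r → Fin d → ℂ), (∀ a i, x a i ∈ L) ∧
        ∀ τ, f τ = ∑ a, (∑ i, x a i * jInv τ ^ (i : ℕ)) * g a τ := by
  classical
  have := vcj_fin hN
  have := Fintype.ofFinite (vcjQ N)
  obtain ⟨t, ht⟩ := exists_trans L
  let v : (ℍ → ℂ) → vcjQ N → ℂ := fun f c => f (c.out⁻¹ • t)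
  obtain ⟨s, hs, hsp⟩ := (Submodule.fg_span_iff_fg_span_finset_subset (R := ℂ) (v '' MF N L)).1
    (IsNoetherian.noetherian _)
  let A := (eval₂RingHom (algebraMap L ℂ) (jInv t)).range
  let T : (vcjQ N → ℂ) →ₗ[A] s → ℂ :=
    { toFun := fun u b => ∑ c, u c * b.1 c
      map_add' := fun u u' => funext fun b => by
        simp only [Pi.add_apply, add_mul, Finset.sum_add_distrib]
      map_smul' := fun a u => funext fun b => by
        show ∑ c, (a : ℂ) * u c * b.1 c = (a : ℂ) * ∑ c, u c * b.1 c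
        simp only [Finset.mul_sum, mul_assoc] }
  let V : Submodule A (vcjQ N → ℂ) :=
    { carrier := v '' {f | IsMF Γ N L f}
      add_mem' := by
        rintro _ _ ⟨f, hf, rfl⟩ ⟨g, hg, rfl⟩
        exact ⟨f + g, (AG hN hΓ L).add_mem hf hg, rfl⟩
      zero_mem' := ⟨0, (AG hN hΓ L).zero_mem, rfl⟩
      smul_mem' := by
        rintro ⟨_, Q, rfl⟩ _ ⟨f, hf, rfl⟩
        refine ⟨(fun τ => Q.eval₂ (algebraMap L ℂ) (jInv τ)) * f,
          (AG hN hΓ L).mul_mem (pf_mf hN hΓ Q) hf, funext fun c => ?_⟩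
        show Q.eval₂ _ (jInv (_ • t)) * _ = Q.eval₂ _ (jInv t) * _
        rw [jInv_smul] }
  have h1 : V.map T ≤ LinearMap.range ((Algebra.linearMap A ℂ).compLeft s) := by
    rintro _ ⟨_, ⟨f, hf, rfl⟩, rfl⟩
    have h : ∀ b : s, T (v f) b ∈ A := fun b => by
      obtain ⟨g, hg, e⟩ := hs b.2
      have hfg := MF.mul hN (IsMF.mf hΓ le_rfl hf) hg
      obtain ⟨Q, e'⟩ := inv_poly hN (MF.sum hN Finset.univ
        (f := fun (c : vcjQ N) τ => f (c.out⁻¹ • τ) * g (c.out⁻¹ • τ))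
        fun c _ => MF.smul hfg _) fun γ τ => by
          simp only [vcj_shift (IsMF.mf hΓ le_rfl hf) γ, vcj_shift hg γ]
          exact Equiv.sum_comp (MulAction.toPerm γ⁻¹)
            fun c : vcjQ N => f (c.out⁻¹ • τ) * g (c.out⁻¹ • τ)
      refine ⟨Q, ?_⟩
      show Q.eval₂ _ _ = ∑ c, v f c * b.1 c
      rw [← e' t, ← e]
    exact ⟨fun b => ⟨_, h b⟩, rfl⟩
  have h2 : V ⊓ LinearMap.ker T = ⊥ := by
    rw [eq_bot_iff]
    rintro _ ⟨⟨f, hf, rfl⟩, h0⟩
    have hf' : f ∈ MF N L := IsMF.mf hΓ le_rfl hf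
    have h3 : ∀ u ∈ Submodule.span ℂ (s : Set (vcjQ N → ℂ)), ∑ c, v f c * u c = 0 := fun u hu => by
      induction hu using Submodule.span_induction with
      | mem u hu => exact congrFun (LinearMap.mem_ker.1 h0) ⟨u, hu⟩
      | zero => simp
      | add u u' _ _ i1 i2 => simp only [Pi.add_apply, mul_add, Finset.sum_add_distrib, i1, i2,
          add_zero]
      | smul a u _ i1 =>
        simp only [Pi.smul_apply, smul_eq_mul, mul_left_comm _ a, ← Finset.mul_sum, i1, mul_zero]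
    refine funext fun c => ?_
    obtain ⟨_, h4, -⟩ := mem_of_power_sums (v f) (fun _ => 1) (fun _ : vcjQ N => 0) (fun _ => 1)
      (fun a b => by
        rcases a with _ | a
        · simp
        · have h5 := h3 (v fun τ => f τ ^ a) (by
            rw [← hsp]
            exact Submodule.subset_span ⟨_, MF.pow hN hf' a, rfl⟩)
          simp only [one_pow, mul_one, pow_succ', zero_mul, Finset.sum_const_zero]
          exact h5) c
    exact h4.symm
  have h3 : V.FG := Submodule.fg_of_fg_map_of_fg_inf_ker T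
    (Submodule.FG.of_le (Submodule.fg_range _) h1) (h2 ▸ Submodule.fg_bot)
  obtain ⟨r, u, hu⟩ := Submodule.fg_iff_exists_fin_generating_family.1 h3
  have h4 : ∀ a, u a ∈ V := fun a => hu ▸ Submodule.subset_span ⟨a, rfl⟩
  choose g hg e using h4
  refine ⟨r, g, hg, fun f hf => ?_⟩
  have h5 : v f ∈ Submodule.span A (Set.range u) := hu ▸ ⟨f, hf, rfl⟩
  obtain ⟨x, hx⟩ := (Submodule.mem_span_range_iff_exists_fun _).1 h5
  choose Q hQ using fun a => (x a).2
  have h6 : (f - ∑ a, (fun τ => (Q a).eval₂ (algebraMap L ℂ) (jInv τ)) * g a) ∈ AG hN hΓ L :=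
    sub_mem hf (sum_mem fun a _ => mul_mem (pf_mf hN hΓ (Q a)) (hg a))
  have h7 := zero_of_trans hN ht (IsMF.mf hΓ le_rfl h6) (by
    have h8 := congrFun hx (QuotientGroup.mk 1)
    rw [Finset.sum_apply] at h8
    rw [Pi.sub_apply, Finset.sum_apply, sub_eq_zero, ← vcj_one (IsMF.mf hΓ le_rfl hf) t]
    refine h8.symm.trans (Finset.sum_congr rfl fun a _ => ?_)
    rw [← e a, Pi.mul_apply, ← vcj_one (IsMF.mf hΓ le_rfl (hg a)) t]
    exact congrArg (· * _) (hQ a).symm)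
  refine ⟨(Finset.univ.sup fun a => (Q a).natDegree) + 1, fun a i => (Q a).coeff i,
    fun a i => ((Q a).coeff i).2, fun τ => ?_⟩
  have h8 := h7 τ
  rw [Pi.sub_apply, Finset.sum_apply, sub_eq_zero] at h8
  refine h8.trans (Finset.sum_congr rfl fun a _ => ?_)
  rw [Pi.mul_apply, eval₂_eq_sum_range' _ (Nat.lt_succ_of_le
    (Finset.le_sup (f := fun a => (Q a).natDegree) (Finset.mem_univ a))), Finset.sum_range]
  rfl

end Pool.Agent.EQ.Br
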