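import Pool.Agent.P.MP_ad7a55_nt.BrSep

/-! The points of a modular curve are the algebra maps from its modular functions. -/

noncomputable section

open UpperHalfPlane Polynomial
open scoped MatrixGroups

namespace Pool.Agent.EQ.Br

variable {N : ℕ} {L : IntermediateField ℚ ℂ} {Γ : Subgroup SL(2, ℤ)}

theorem one_of_each {ι : Type} [Finite ι] (S : Submodule ℚ (ℍ → ℂ)) (φ : (ℍ → ℂ) → ℂ)
    (ha : ∀ f ∈ S, ∀ g ∈ S, φ (f + g) = φ f + φ g)
    (hs : ∀ q : ℚ, ∀ f ∈ S, φ (q • f) = q * φ f) (x : ι → ℍ)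
    (h : ∀ f ∈ S, ∃ i, f (x i) = φ f) : ∃ i, ∀ f ∈ S, f (x i) = φ f := by
  let V : ι → Subspace ℚ S := fun i =>
    { carrier := {f | f.1 (x i) = φ f.1}
      add_mem' := fun {f g} hf hg => by
        show f.1 _ + g.1 _ = φ (f.1 + g.1)
        rw [ha _ f.2 _ g.2, ← hf, ← hg]
      zero_mem' := by
        have h0 := hs 0 0 S.zero_mem
        rw [zero_smul, Rat.cast_zero, zero_mul] at h0
        exact h0.symm
      smul_mem' := fun q f hf => by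
        show q • f.1 _ = φ (q • f.1)
        rw [hs q _ f.2, Rat.smul_def, ← hf] }
  obtain ⟨c, hc⟩ := Subspace.exists_eq_top_of_iUnion_eq_univ (p := V)
    (Set.eq_univ_of_forall fun f => Set.mem_iUnion.2 (h f.1 f.2))
  refine ⟨c, fun f hf => ?_⟩
  have : (⟨f, hf⟩ : S) ∈ V c := hc ▸ Submodule.mem_top
  exact this

theorem out_mem (hΓ : CongruenceSubgroup.Gamma N ≤ Γ) (g : SL(2, ℤ)) :
    (QuotientGroup.mk g : vcjQ N).out ∈ Γ ↔ g ∈ Γ := by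
  obtain ⟨h, e⟩ := QuotientGroup.mk_out_eq_mul (CongruenceSubgroup.Gamma N) g
  rw [e]
  exact Γ.mul_mem_cancel_right (hΓ h.2)

theorem psum_mf (hN : 0 < N) (hΓ : CongruenceSubgroup.Gamma N ≤ Γ)
    [Fintype {c : vcjQ N // c.out ∈ Γ}] {f : ℍ → ℂ} (hf : f ∈ MF N L) (a : ℕ) :
    IsMF Γ N L fun τ => ∑ c : {c : vcjQ N // c.out ∈ Γ}, f (c.1.out⁻¹ • τ) ^ a := by
  refine ⟨fun γ hγ τ => ?_, (MF.sum hN Finset.univ
    (f := fun (c : {c : vcjQ N // c.out ∈ Γ}) τ => f (c.1.out⁻¹ • τ) ^ a)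
    fun c _ => MF.pow hN (MF.smul hf _) a).2⟩
  have h : ∀ c : vcjQ N, c.out ∈ Γ ↔ (MulAction.toPerm γ⁻¹ c : vcjQ N).out ∈ Γ := fun c => by
    have e : MulAction.toPerm γ⁻¹ c = (QuotientGroup.mk (γ⁻¹ * c.out) : vcjQ N) :=
      (MulAction.Quotient.mk_smul_out (CongruenceSubgroup.Gamma N) γ⁻¹ c).symm
    rw [e, out_mem hΓ, Γ.mul_mem_cancel_left (inv_mem hγ)]
  simp only [vcj_shift hf γ]
  exact Equiv.sum_comp ((MulAction.toPerm γ⁻¹ : Equiv.Perm (vcjQ N)).subtypeEquiv h)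
    fun c : {c : vcjQ N // c.out ∈ Γ} => f (c.1.out⁻¹ • τ) ^ a

/-- Separation of points at any level, from the power sums of a space of functions. -/
theorem sepS (hN : 0 < N) (hΓ : CongruenceSubgroup.Gamma N ≤ Γ)
    [Fintype {c : vcjQ N // c.out ∈ Γ}] (S : Submodule ℚ (ℍ → ℂ)) (hS : ∀ f ∈ S, f ∈ MF N L)
    (hm : ∀ (l : List Ix) (m : ℕ), (l.map fun i => i.1 + 3).sum = 12 * m → mon N l m ∈ S)
    {w w' : ℍ} (h : ∀ f ∈ S, ∀ a : ℕ,
      ∑ c : {c : vcjQ N // c.out ∈ Γ}, f (c.1.out⁻¹ • w) ^ a =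
        ∑ c : {c : vcjQ N // c.out ∈ Γ}, f (c.1.out⁻¹ • w') ^ a) : ∃ γ ∈ Γ, w' = γ • w := by
  obtain ⟨c, hc⟩ := one_of_each S (fun f => f w') (fun _ _ _ _ => rfl)
    (fun q f _ => Rat.smul_def q (f w'))
    (fun c : {c : vcjQ N // c.out ∈ Γ} => c.1.out⁻¹ • w) fun f hf => by
      obtain ⟨c, hc, -⟩ := mem_of_power_sums
        (fun c : {c : vcjQ N // c.out ∈ Γ} => f (c.1.out⁻¹ • w')) (fun _ => 1)
        (fun c : {c : vcjQ N // c.out ∈ Γ} => f (c.1.out⁻¹ • w)) (fun _ => 1) (fun a b => by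
          simp only [one_pow, mul_one]
          exact (h f hf a).symm)
        ⟨QuotientGroup.mk 1, (out_mem hΓ 1).2 Γ.one_mem⟩
      exact ⟨c, by rw [hc, vcj_one (hS f hf)]⟩
  obtain ⟨γ, hγ, e⟩ := sepN hN fun l m hl => hc _ (hm l m hl)
  exact ⟨γ * c.1.out⁻¹, Γ.mul_mem (hΓ hγ) (inv_mem c.2), by rw [e, mul_smul]⟩

theorem sepG (hN : 0 < N) (hΓ : CongruenceSubgroup.Gamma N ≤ Γ) (hz : zt N ∈ L) {w w' : ℍ}
    (h : ∀ f, IsMF Γ N L f → f w = f w') : ∃ γ ∈ Γ, w' = γ • w := by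
  have := vcj_fin hN
  have := Fintype.ofFinite {c : vcjQ N // c.out ∈ Γ}
  exact sepS hN hΓ (vcjS hN L) (fun _ hf => hf) (fun l _ hl => mon_mf hN hz l hl)
    fun f hf a => h _ (psum_mf hN hΓ hf a)

theorem mk_eq (hN : 0 < N) (hΓ : CongruenceSubgroup.Gamma N ≤ Γ) (hz : zt N ∈ L) {w w' : ℍ} :
    (Quotient.mk _ w : YG Γ) = Quotient.mk _ w' ↔ ∀ f, IsMF Γ N L f → f w = f w' := by
  constructor
  · intro h f hf
    obtain ⟨γ, e⟩ := MulAction.orbitRel_apply.1 (Quotient.exact h)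
    rw [← e]
    exact hf.1 γ.1 γ.2 w'
  · intro h
    obtain ⟨γ, hγ, e⟩ := sepG hN hΓ hz h
    exact (Quotient.sound (MulAction.orbitRel_apply.2 ⟨⟨γ, hγ⟩, e.symm⟩)).symm

/-- The ring of modular functions. -/
def AG (hN : 0 < N) (hΓ : CongruenceSubgroup.Gamma N ≤ Γ) (L : IntermediateField ℚ ℂ) :
    Subring (ℍ → ℂ) where
  carrier := {f | IsMF Γ N L f}
  mul_mem' := fun {f g} hf hg => ⟨fun γ hγ τ => by
    rw [Pi.mul_apply, Pi.mul_apply, hf.1 γ hγ, hg.1 γ hγ],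
    (MF.mul hN (hf.mf hΓ le_rfl) (hg.mf hΓ le_rfl)).2⟩
  one_mem' := ⟨fun _ _ _ => rfl, (MF.const (N := N) (one_mem L)).2⟩
  add_mem' := fun {f g} hf hg => ⟨fun γ hγ τ => by
    rw [Pi.add_apply, Pi.add_apply, hf.1 γ hγ, hg.1 γ hγ],
    (MF.add hN (hf.mf hΓ le_rfl) (hg.mf hΓ le_rfl)).2⟩
  zero_mem' := ⟨fun _ _ _ => rfl, (MF.const (N := N) (zero_mem L)).2⟩
  neg_mem' := fun {f} hf => ⟨fun γ hγ τ => by rw [Pi.neg_apply, Pi.neg_apply, hf.1 γ hγ], by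
    have h := (MF.sub hN (MF.const (N := N) (zero_mem L)) (hf.mf hΓ le_rfl)).2
    simpa only [zero_sub, Pi.neg_apply] using h⟩

theorem const_mf {c : ℂ} (hc : c ∈ L) : IsMF Γ N L fun _ => c :=
  ⟨fun _ _ _ => rfl, (MF.const (N := N) hc).2⟩

theorem j_mf (hN : 0 < N) : IsMF Γ N L jInv := ⟨fun γ _ τ => jInv_smul γ τ, (MF.j hN).2⟩

/-- A ring of modular functions that contains the constants and `j`. -/
structure Good (N : ℕ) (L : IntermediateField ℚ ℂ) (S : Subring (ℍ → ℂ)) : Prop where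
  mf : ∀ f ∈ S, f ∈ MF N L
  const : ∀ c ∈ L, (fun _ => c) ∈ S
  j : jInv ∈ S

theorem good_AG (hN : 0 < N) (hΓ : CongruenceSubgroup.Gamma N ≤ Γ) : Good N L (AG hN hΓ L) :=
  ⟨fun _ hf => IsMF.mf hΓ le_rfl hf, fun _ => const_mf, j_mf hN⟩

variable {S : Subring (ℍ → ℂ)}

theorem hom_poly (hS : Good N L S) (ψ : S →+* ℂ)
    (hψ : ∀ (c : ℂ) (hc : c ∈ L), ψ ⟨fun _ => c, hS.const c hc⟩ = c) {P : ℂ[X]}
    (hP : ∀ n, P.coeff n ∈ L) :
    ∃ g : S, (∀ τ, g.1 τ = P.eval (jInv τ)) ∧ ψ g = P.eval (ψ ⟨jInv, hS.j⟩) := by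
  refine ⟨∑ k ∈ Finset.range (P.natDegree + 1),
    (⟨fun _ => P.coeff k, hS.const _ (hP k)⟩ : S) * ⟨jInv, hS.j⟩ ^ k, fun τ => ?_, ?_⟩
  · rw [eval_eq_sum_range, AddSubmonoidClass.coe_finsetSum, Finset.sum_apply]
    rfl
  · rw [map_sum, eval_eq_sum_range]
    exact Finset.sum_congr rfl fun k _ => by rw [map_mul, map_pow, hψ _ (hP k)]

theorem hom_single (hN : 0 < N) (hS : Good N L S) (ψ : S →+* ℂ)
    (hψ : ∀ (c : ℂ) (hc : c ∈ L), ψ ⟨fun _ => c, hS.const c hc⟩ = c) {t : ℍ}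
    (ht : jInv t = ψ ⟨jInv, hS.j⟩) (f : S) : ∃ c : vcjQ N, f.1 (c.out⁻¹ • t) = ψ f := by
  have := vcj_fin hN
  have := Fintype.ofFinite (vcjQ N)
  have hf : f.1 ∈ MF N L := hS.mf _ f.2
  let R := AG (Γ := CongruenceSubgroup.Gamma N) hN le_rfl L
  let ev : ℍ → R →+* ℂ := fun τ => (Pi.evalRingHom (fun _ : ℍ => ℂ) τ).comp R.subtype
  let Q : R[X] := ∏ c : vcjQ N, (X - C ⟨fun τ => f.1 (c.out⁻¹ • τ), MF.smul hf _⟩)
  have hQ : ∀ τ, Q.map (ev τ) = ∏ c : vcjQ N, (X - C (f.1 (c.out⁻¹ • τ))) := fun τ => by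
    rw [Polynomial.map_prod]
    refine Finset.prod_congr rfl fun c _ => ?_
    rw [Polynomial.map_sub, map_X, map_C]
    rfl
  have hc : ∀ i τ, (Q.coeff i).1 τ = (Q.map (ev τ)).coeff i := fun i τ => by
    rw [coeff_map]
    rfl
  have hi : ∀ i (γ : SL(2, ℤ)) τ, (Q.coeff i).1 (γ • τ) = (Q.coeff i).1 τ := fun i γ τ => by
    rw [hc, hc, hQ, hQ]
    simp only [vcj_shift hf γ]
    rw [Equiv.prod_comp (MulAction.toPerm γ⁻¹) fun c : vcjQ N => X - C (f.1 (c.out⁻¹ • τ))]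
  have hE : ∀ i, ∃ E : S, (∀ τ, E.1 τ = (Q.map (ev τ)).coeff i) ∧
      ψ E = (Q.map (ev t)).coeff i := fun i => by
    obtain ⟨P, hP, e⟩ := MF.poly hN (Q.coeff i).2 (hi i)
    obtain ⟨E, h1, h2⟩ := hom_poly hS ψ hψ hP
    exact ⟨E, fun τ => by rw [h1, ← e, hc], by rw [h2, ← ht, ← e, hc]⟩
  choose E hE hE' using hE
  have hs : ∀ τ z, ∑ i ∈ Finset.range (Q.natDegree + 1), (Q.map (ev τ)).coeff i * z ^ i =
      ∏ c : vcjQ N, (z - f.1 (c.out⁻¹ • τ)) := fun τ z => by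
    rw [← eval_eq_sum_range' (Nat.lt_succ_of_le natDegree_map_le), hQ, eval_prod]
    simp only [eval_sub, eval_X, eval_C]
  have h0 : ∑ i ∈ Finset.range (Q.natDegree + 1), E i * f ^ i = 0 := by
    refine Subtype.ext (funext fun τ => ?_)
    rw [AddSubmonoidClass.coe_finsetSum, Finset.sum_apply]
    refine ((Finset.sum_congr rfl fun i _ => ?_).trans (hs τ (f.1 τ))).trans ?_
    · rw [← hE]
      rfl
    · exact Finset.prod_eq_zero (Finset.mem_univ (QuotientGroup.mk 1))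
        (by rw [vcj_one hf, sub_self])
  have h1 := congrArg ψ h0
  simp only [map_sum, map_mul, map_pow, map_zero, hE', hs] at h1
  obtain ⟨c, -, h2⟩ := Finset.prod_eq_zero_iff.1 h1
  exact ⟨c, (sub_eq_zero.1 h2).symm⟩

theorem rat_smul_eq (q : ℚ) (f : ℍ → ℂ) : q • f = (fun _ => (q : ℂ)) * f :=
  funext fun τ => Rat.smul_def q (f τ)

/-- Every algebra map is the evaluation at a point. -/
theorem hom_point (hN : 0 < N) (hS : Good N L S) (φ : (ℍ → ℂ) → ℂ)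
    (ha : ∀ f ∈ S, ∀ g ∈ S, φ (f + g) = φ f + φ g)
    (hm : ∀ f ∈ S, ∀ g ∈ S, φ (f * g) = φ f * φ g)
    (hc : ∀ c ∈ L, φ (fun _ => c) = c) : ∃ w : ℍ, ∀ f ∈ S, f w = φ f := by
  have := vcj_fin hN
  let ψ : S →+* ℂ :=
    { toFun := fun f => φ f.1
      map_one' := hc 1 (one_mem L)
      map_mul' := fun f g => hm _ f.2 _ g.2
      map_zero' := hc 0 (zero_mem L)
      map_add' := fun f g => ha _ f.2 _ g.2 }
  let V : Submodule ℚ (ℍ → ℂ) :=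
    { carrier := S
      add_mem' := S.add_mem
      zero_mem' := S.zero_mem
      smul_mem' := fun q f hf => by
        rw [rat_smul_eq]
        exact S.mul_mem (hS.const _ (SubfieldClass.ratCast_mem L q)) hf }
  obtain ⟨t, ht⟩ := jInv_surj (φ jInv)
  obtain ⟨c, h⟩ := one_of_each V φ ha (fun q f hf => by
      rw [rat_smul_eq, hm _ (hS.const _ (SubfieldClass.ratCast_mem L q)) _ hf,
        hc _ (SubfieldClass.ratCast_mem L q)])
    (fun c : vcjQ N => c.out⁻¹ • t) fun f hf =>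
      hom_single hN hS ψ (fun c h => hc c h) ht ⟨f, hf⟩
  exact ⟨_, h⟩

theorem form_alg {r : ℕ} {e : Fin r → ℂ} {x : Fin r × Fin r → Fin r → ℂ}
    (hx : ∀ p, e p.1 * e p.2 = ∑ c, x p c * e c) (u v : Fin r → ℂ) :
    (∑ a, e a * u a) * ∑ a, e a * v a =
      ∑ c, e c * ∑ p : Fin r × Fin r, x p c * (u p.1 * v p.2) := by
  simp only [Finset.mul_sum]
  rw [Finset.sum_comm (s := Finset.univ) (t := (Finset.univ : Finset (Fin r × Fin r))),
    Fintype.sum_prod_type_right]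
  refine Finset.sum_congr rfl fun b _ => ?_
  rw [Finset.sum_mul]
  refine Finset.sum_congr rfl fun a _ => ?_
  calc e a * u a * (e b * v b) = (e a * e b) * (u a * v b) := by ring
    _ = (∑ c, x (a, b) c * e c) * (u a * v b) := by rw [← hx (a, b)]
    _ = _ := by
      rw [Finset.sum_mul]
      exact Finset.sum_congr rfl fun c _ => by ring

theorem form_one {r : ℕ} {e x : Fin r → ℂ} {c : ℂ} (hx : c = ∑ a, x a * e a) (z : ℂ) :
    c * z = ∑ a, e a * (x a * z) := by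
  rw [hx, Finset.sum_mul]
  exact Finset.sum_congr rfl fun a _ => by ring

/-- For a form of the ring over a subfield, every algebra map of the form is the evaluation at a
point. -/
theorem form_point (hN : 0 < N) (hS : Good N L S)
    {K : IntermediateField ℚ ℂ} {r : ℕ} {e : Fin r → ℂ} (he : ∀ a, e a ∈ L)
    (hL : ∀ c ∈ L, ∃ x : Fin r → ℂ, (∀ a, x a ∈ K) ∧ c = ∑ a, x a * e a)
    {B : Set (ℍ → ℂ)} (hB : ∀ f ∈ B, f ∈ S) (hc : ∀ c ∈ K, (fun _ => c) ∈ B)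
    (hr : ∀ f ∈ B, ∀ g ∈ B, f + g ∈ B ∧ f * g ∈ B)
    (hu : ∀ f ∈ S, ∃! g : Fin r → ℍ → ℂ, (∀ a, g a ∈ B) ∧ ∀ t, f t = ∑ a, e a * g a t)
    (χ : (ℍ → ℂ) → ℂ)
    (hχ : ∀ f ∈ B, ∀ g ∈ B, χ (f + g) = χ f + χ g ∧ χ (f * g) = χ f * χ g)
    (hk : ∀ c ∈ K, χ (fun _ => c) = c) : ∃ w : ℍ, ∀ f ∈ B, f w = χ f := by
  classical
  let φ : (ℍ → ℂ) → ℂ := fun f =>
    if h : f ∈ S then ∑ a, e a * χ ((hu f h).exists.choose a) else 0
  have key : ∀ f ∈ S, ∀ g : Fin r → ℍ → ℂ, (∀ a, g a ∈ B) →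
      (∀ t, f t = ∑ a, e a * g a t) → φ f = ∑ a, e a * χ (g a) := fun f h g h1 h2 => by
    rw [← (hu f h).unique (hu f h).exists.choose_spec ⟨h1, h2⟩]
    exact dif_pos h
  have hsum : ∀ {ι : Type} (s : Finset ι) (g : ι → ℍ → ℂ), (∀ i, g i ∈ B) →
      ∑ i ∈ s, g i ∈ B ∧ χ (∑ i ∈ s, g i) = ∑ i ∈ s, χ (g i) := fun s g hg => by
    induction s using Finset.induction_on with
    | empty => exact ⟨hc 0 (zero_mem K), hk 0 (zero_mem K)⟩
    | insert i s hi ih =>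
      simp only [Finset.sum_insert hi]
      exact ⟨(hr _ (hg i) _ ih.1).1, by rw [(hχ _ (hg i) _ ih.1).1, ih.2]⟩
  have hcm : ∀ c ∈ K, ∀ f ∈ B, (fun _ => c) * f ∈ B ∧ χ ((fun _ => c) * f) = c * χ f :=
    fun c h f hf => ⟨(hr _ (hc c h) _ hf).2, by rw [(hχ _ (hc c h) _ hf).2, hk c h]⟩
  choose! x hx hx' using hL
  obtain ⟨w, h⟩ := hom_point hN hS φ (fun f hf f' hf' => by
      obtain ⟨g, h1, h2⟩ := (hu f hf).exists
      obtain ⟨g', h1', h2'⟩ := (hu f' hf').exists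
      rw [key f hf g h1 h2, key f' hf' g' h1' h2', key _ (S.add_mem hf hf')
        (fun a => g a + g' a) (fun a => (hr _ (h1 a) _ (h1' a)).1) (fun t => by
          simp only [Pi.add_apply, h2, h2', mul_add, Finset.sum_add_distrib]),
        ← Finset.sum_add_distrib]
      exact Finset.sum_congr rfl fun a _ => by rw [(hχ _ (h1 a) _ (h1' a)).1, mul_add])
    (fun f hf f' hf' => by
      obtain ⟨g, h1, h2⟩ := (hu f hf).exists
      obtain ⟨g', h1', h2'⟩ := (hu f' hf').exists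
      have alg := form_alg (e := e) (x := fun p => x (e p.1 * e p.2))
        fun p => hx' _ (mul_mem (he p.1) (he p.2))
      have h3 := fun (c : Fin r) (p : Fin r × Fin r) =>
        hcm _ (hx _ (mul_mem (he p.1) (he p.2)) c) _ (hr _ (h1 p.1) _ (h1' p.2)).2
      have h4 := fun c : Fin r => hsum Finset.univ _ fun p => (h3 c p).1
      rw [key f hf g h1 h2, key f' hf' g' h1' h2', key _ (S.mul_mem hf hf') _
        (fun c => (h4 c).1) (fun t => by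
          rw [Pi.mul_apply, h2, h2', alg]
          simp only [Finset.sum_apply, Pi.mul_apply]), alg]
      refine Finset.sum_congr rfl fun c _ => ?_
      rw [(h4 c).2]
      congr 1
      exact Finset.sum_congr rfl fun p _ => by rw [(h3 c p).2, (hχ _ (h1 p.1) _ (h1' p.2)).2])
    fun c hc' => by
      rw [key _ (hS.const c hc') (fun a _ => x c a) (fun a => hc _ (hx c hc' a)) (fun t =>
        (hx' c hc').trans (Finset.sum_congr rfl fun a _ => mul_comm _ _))]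
      exact ((hx' c hc').trans (Finset.sum_congr rfl fun a _ => by
        rw [hk _ (hx c hc' a), mul_comm])).symm
  have h1 : ∀ z : ℂ, z = ∑ a, e a * (x 1 a * z) := fun z =>
    (one_mul z).symm.trans (form_one (hx' 1 (one_mem L)) z)
  refine ⟨w, fun f hf => ?_⟩
  rw [h f (hB f hf), key f (hB f hf) (fun a => (fun _ => x 1 a) * f)
    (fun a => (hcm _ (hx 1 (one_mem L) a) f hf).1) (fun t => h1 _), h1 (χ f)]
  exact Finset.sum_congr rfl fun a _ => by rw [(hcm _ (hx 1 (one_mem L) a) f hf).2]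

/-- The action on the points and its orbits. -/
theorem act_of {n : ℕ} {Γ : Fin n → Subgroup SL(2, ℤ)} {F : IntermediateField ℚ ℂ}
    {B : Fin n → Set (ℍ → ℂ)}
    (hs : ∀ k (w w' : ℍ), (Quotient.mk _ w : YG (Γ k)) = Quotient.mk _ w' ↔
      ∀ f ∈ B k, f w = f w')
    (hx : ∀ σ : ℂ ≃+* ℂ, (∀ a ∈ F, σ a = a) → ∀ k (w : ℍ), ∃ w' : ℍ,
      ∀ f ∈ B k, f w' = σ (f w)) :
    ∃ act : (ℂ ≃+* ℂ) → (∀ k, YG (Γ k)) → ∀ k, YG (Γ k),
      (∀ σ, (∀ a ∈ F, σ a = a) → ∀ w w' : Fin n → ℍ,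
        (act σ fun k => Quotient.mk _ (w k)) = (fun k => Quotient.mk _ (w' k)) ↔
          ∀ k, ∀ f ∈ B k, f (w' k) = σ (f (w k))) ∧
      (∀ y, act 1 y = y) ∧
      (∀ σ ρ, (∀ a ∈ F, σ a = a) → (∀ a ∈ F, ρ a = a) →
        ∀ y, act (σ * ρ) y = act σ (act ρ y)) ∧
      ∀ τ : Fin n → ℍ, orbG F Γ B τ =
        {y | ∃ σ, (∀ a ∈ F, σ a = a) ∧ y = act σ fun k => Quotient.mk _ (τ k)} := by
  choose! T hT using hx
  let act : (ℂ ≃+* ℂ) → (∀ k, YG (Γ k)) → ∀ k, YG (Γ k) := fun σ y k =>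
    Quotient.mk _ (T σ k (y k).out)
  have h : ∀ σ, (∀ a ∈ F, σ a = a) → ∀ w w' : Fin n → ℍ,
      (act σ fun k => Quotient.mk _ (w k)) = (fun k => Quotient.mk _ (w' k)) ↔
        ∀ k, ∀ f ∈ B k, f (w' k) = σ (f (w k)) := fun σ hσ w w' => by
    rw [funext_iff]
    refine forall_congr' fun k => (hs k _ _).trans (forall₂_congr fun f hf => ?_)
    rw [hT σ hσ k _ f hf, (hs k _ _).1 (Quotient.out_eq _) f hf, eq_comm]
  have sj : ∀ y : ∀ k, YG (Γ k), ∃ w : Fin n → ℍ, y = fun k => Quotient.mk _ (w k) := fun y =>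
    ⟨fun k => (y k).out, funext fun k => (Quotient.out_eq _).symm⟩
  refine ⟨act, h, fun y => ?_, fun σ ρ hσ hρ y => ?_, fun τ => Set.ext fun y => ⟨?_, ?_⟩⟩
  · obtain ⟨w, rfl⟩ := sj y
    exact (h 1 (fun _ _ => rfl) w w).2 fun _ _ _ => rfl
  · obtain ⟨w, rfl⟩ := sj y
    obtain ⟨u, hu⟩ := sj (act ρ fun k => Quotient.mk _ (w k))
    obtain ⟨v, hv⟩ := sj (act σ fun k => Quotient.mk _ (u k))
    rw [hu, hv]
    refine (h (σ * ρ) (fun a ha => ?_) w v).2 fun k f hf => ?_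
    · show σ (ρ a) = a
      rw [hρ a ha, hσ a ha]
    · rw [(h σ hσ u v).1 hv k f hf, (h ρ hρ w u).1 hu k f hf]
      rfl
  · rintro ⟨σ, w, hσ, h1, h2⟩
    exact ⟨σ, hσ, (funext h1).trans ((h σ hσ τ w).2 h2).symm⟩
  · rintro ⟨σ, hσ, e⟩
    obtain ⟨w, hw⟩ := sj y
    exact ⟨σ, w, hσ, fun k => congrFun hw k, (h σ hσ τ w).1 (e.symm.trans hw)⟩

end Pool.Agent.EQ.Br
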