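import Mathlib

/-! Two elementary lemmas: weighted power sums, and a common scaling factor. -/

noncomputable section

open Filter Topology

namespace Pool.Agent.EQ.Br

theorem ps_poly {ι : Type} {x ε : ι → ℂ} {S : ℕ → ℂ}
    (h : ∀ k, HasSum (fun i => ε i * x i ^ (k + 3)) (S k)) (P : Polynomial ℂ) :
    HasSum (fun i => ε i * x i ^ 3 * P.eval (x i))
      (∑ k ∈ Finset.range (P.natDegree + 1), P.coeff k * S k) := by
  have h1 := hasSum_sum (s := Finset.range (P.natDegree + 1))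
    fun k _ => (h k).mul_left (P.coeff k)
  have e : (fun i => ε i * x i ^ 3 * P.eval (x i)) =
      fun i => ∑ k ∈ Finset.range (P.natDegree + 1), P.coeff k * (ε i * x i ^ (k + 3)) := by
    funext i
    rw [Polynomial.eval_eq_sum_range, Finset.mul_sum]
    exact Finset.sum_congr rfl fun k _ => by ring
  rw [e]
  exact h1

theorem ps_lim {ι : Type} {x ε : ι → ℂ} {S : ℕ → ℂ}
    (h : ∀ k, HasSum (fun i => ε i * x i ^ (k + 3)) (S k)) {z : ℂ} (hz : z ≠ 0)
    (Q : Polynomial ℂ) (hQ : ∀ i, ‖z‖ ≤ ‖x i‖ → x i ≠ z → Q.eval (x i) = 0) :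
    Tendsto (fun m : ℕ => ∑' i, ε i * x i ^ 3 *
      (Q * (Polynomial.C z⁻¹ * Polynomial.X) ^ m).eval (x i)) atTop
      (𝓝 (z ^ 3 * Q.eval z * ∑' i, if x i = z then ε i else 0)) := by
  classical
  rw [← tsum_mul_left]
  have hz' : 0 < ‖z‖ := norm_pos_iff.2 hz
  refine tendsto_tsum_of_dominated_convergence (bound := fun i => ‖ε i * x i ^ 3 * Q.eval (x i)‖)
    (ps_poly h Q).summable.norm (fun i => ?_) (Eventually.of_forall fun m i => ?_)
  · simp only [Polynomial.eval_mul, Polynomial.eval_pow, Polynomial.eval_C, Polynomial.eval_X]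
    by_cases h1 : x i = z
    · simp only [h1, if_true, inv_mul_cancel₀ hz, one_pow, mul_one]
      have e : z ^ 3 * Q.eval z * ε i = ε i * z ^ 3 * Q.eval z := by ring
      rw [e]
      exact tendsto_const_nhds
    · rw [if_neg h1, mul_zero]
      by_cases h2 : ‖z‖ ≤ ‖x i‖
      · simp only [hQ i h2 h1, zero_mul, mul_zero]
        exact tendsto_const_nhds
      · have h3 : ‖z⁻¹ * x i‖ < 1 := by
          rw [norm_mul, norm_inv, inv_mul_lt_iff₀ hz', mul_one]
          exact not_le.1 h2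
        have h4 := ((tendsto_pow_atTop_nhds_zero_of_norm_lt_one h3).const_mul
          (Q.eval (x i))).const_mul (ε i * x i ^ 3)
        simpa only [mul_zero] using h4
  · simp only [Polynomial.eval_mul, Polynomial.eval_pow, Polynomial.eval_C, Polynomial.eval_X]
    by_cases h2 : ‖x i‖ ≤ ‖z‖
    · have h3 : ‖z⁻¹ * x i‖ ≤ 1 := by
        rw [norm_mul, norm_inv, inv_mul_le_iff₀ hz', mul_one]
        exact h2
      rw [← mul_assoc, norm_mul _ (_ ^ m), norm_pow]
      exact mul_le_of_le_one_right (norm_nonneg _) (pow_le_one₀ (norm_nonneg _) h3)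
    · have h3 : x i ≠ z := fun e => h2 (e ▸ le_rfl)
      simp [hQ i (not_le.1 h2).le h3]

/-- Weighted power sums determine the weight carried by each non-zero value. -/
theorem ps_eq {ι : Type} {x x' ε ε' : ι → ℂ} {S : ℕ → ℂ}
    (h : ∀ k, HasSum (fun i => ε i * x i ^ (k + 3)) (S k))
    (h' : ∀ k, HasSum (fun i => ε' i * x' i ^ (k + 3)) (S k)) {z : ℂ} (hz : z ≠ 0)
    (hf : {i | ‖z‖ ≤ ‖x i‖}.Finite) (hf' : {i | ‖z‖ ≤ ‖x' i‖}.Finite) :
    (∑' i, if x i = z then ε i else 0) = ∑' i, if x' i = z then ε' i else 0 := by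
  classical
  let T : Finset ℂ := (hf.toFinset.image x ∪ hf'.toFinset.image x').erase z
  let Q : Polynomial ℂ := ∏ a ∈ T, (Polynomial.X - Polynomial.C a)
  have hQ : ∀ a ∈ T, Q.eval a = 0 := fun a ha => by
    rw [Polynomial.eval_prod]
    exact Finset.prod_eq_zero ha (by simp)
  have hQz : Q.eval z ≠ 0 := by
    rw [Polynomial.eval_prod]
    refine Finset.prod_ne_zero_iff.2 fun a ha => ?_
    simpa [sub_eq_zero] using (Finset.ne_of_mem_erase ha).symm
  have l1 := ps_lim h hz Q fun i h1 h2 => hQ _ (Finset.mem_erase.2 ⟨h2,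
    Finset.mem_union_left _ (Finset.mem_image_of_mem _ (hf.mem_toFinset.2 h1))⟩)
  have l2 := ps_lim h' hz Q fun i h1 h2 => hQ _ (Finset.mem_erase.2 ⟨h2,
    Finset.mem_union_right _ (Finset.mem_image_of_mem _ (hf'.mem_toFinset.2 h1))⟩)
  have e := tendsto_nhds_unique (l1.congr fun m =>
    (ps_poly h _).tsum_eq.trans (ps_poly h' _).tsum_eq.symm) l2
  exact mul_left_cancel₀ (mul_ne_zero (pow_ne_zero 3 hz) hQz) e

/-- Weight and the two values of a monomial. -/
def Mon {I : Type} (k : I → ℕ) (x y : I → ℂ) (n : ℕ) (a b : ℂ) : Prop :=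
  ∃ l : List I, (l.map k).sum = n ∧ (l.map x).prod = a ∧ (l.map y).prod = b

theorem Mon.mul {I : Type} {k : I → ℕ} {x y : I → ℂ} {n n' : ℕ} {a b a' b' : ℂ}
    (h : Mon k x y n a b) (h' : Mon k x y n' a' b') : Mon k x y (n + n') (a * a') (b * b') := by
  obtain ⟨l, rfl, rfl, rfl⟩ := h
  obtain ⟨l', rfl, rfl, rfl⟩ := h'
  exact ⟨l ++ l', by simp, by simp, by simp⟩

theorem Mon.pow {I : Type} {k : I → ℕ} {x y : I → ℂ} {n : ℕ} {a b : ℂ}
    (h : Mon k x y n a b) (m : ℕ) : Mon k x y (m * n) (a ^ m) (b ^ m) := by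
  induction m with
  | zero => exact ⟨[], by simp, by simp, by simp⟩
  | succ m ih =>
    rw [Nat.succ_mul, pow_succ, pow_succ]
    exact ih.mul h

theorem root_factor {I : Type} (k : I → ℕ) (x y : I → ℂ)
    (H : ∀ n a b, Mon k x y n a b → 12 ∣ n → a = b) :
    ∃ w : ℂ, w ≠ 0 ∧ ∀ i, x i = w ^ k i * y i := by
  classical
  have h12 : ∀ {n a b}, Mon k x y n a b → a ^ 12 = b ^ 12 := fun h =>
    H _ _ _ (h.pow 12) (Dvd.intro _ rfl)
  have hA : ∀ {n a b n' a' b'}, Mon k x y n a b → Mon k x y n' a' b' → b' ≠ 0 →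
      n % 12 = n' % 12 → a * b' = b * a' := by
    intro n a b n' a' b' h h' hb e
    have h1 := H _ _ _ (h.mul (h'.pow 11)) (by omega)
    have h2 := h12 h'
    apply mul_left_cancel₀ (pow_ne_zero 11 hb)
    linear_combination a' * h1 - a * h2
  have hex : ∃ d : ℕ, 0 < d ∧ ∃ n a b, Mon k x y n a b ∧ b ≠ 0 ∧ n % 12 = d % 12 :=
    ⟨12, by norm_num, 0, 1, 1, ⟨[], by simp, by simp, by simp⟩, one_ne_zero, by norm_num⟩
  obtain ⟨hg, n₀, a₀, b₀, h₀, hb₀, e₀⟩ := Nat.find_spec hex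
  have hmin := fun d => Nat.find_min hex (m := d)
  generalize Nat.find hex = g at hg e₀ hmin
  have ha₀ : a₀ ≠ 0 := fun e => by
    have := h12 h₀
    rw [e] at this
    exact pow_ne_zero 12 hb₀ (by rw [← this]; norm_num)
  obtain ⟨w, hw⟩ := IsAlgClosed.exists_pow_nat_eq (a₀ / b₀) hg
  refine ⟨w, fun e => ?_, fun i => ?_⟩
  · rw [e, zero_pow hg.ne'] at hw
    exact div_ne_zero ha₀ hb₀ hw.symm
  have hi : Mon k x y (k i) (x i) (y i) := ⟨[i], by simp, by simp, by simp⟩
  by_cases hy : y i = 0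
  · have := h12 hi
    rw [hy, zero_pow (by norm_num)] at this
    rw [hy, mul_zero]
    exact pow_eq_zero_iff (by norm_num) |>.1 this
  have hq : ∀ q : ℕ, (q * n₀) % 12 = (q * g) % 12 := fun q => by
    rw [Nat.mul_mod, e₀, ← Nat.mul_mod]
  have hd := Nat.div_add_mod (k i) g
  have hr : k i % g = 0 := by
    by_contra hne
    refine hmin (k i % g) (Nat.mod_lt _ hg) ⟨Nat.pos_of_ne_zero hne, _, _, _,
      hi.mul ((h₀.pow (k i / g)).pow 11), mul_ne_zero hy (pow_ne_zero _ (pow_ne_zero _ hb₀)), ?_⟩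
    have := hq (k i / g)
    rw [mul_comm _ g] at this
    omega
  have h3 := hA hi (h₀.pow (k i / g)) (pow_ne_zero _ hb₀) (by
    rw [hq, mul_comm _ g]
    omega)
  have h4 : w ^ k i = (a₀ / b₀) ^ (k i / g) := by
    rw [← hw, ← pow_mul]
    congr 1
    omega
  rw [h4, div_pow]
  field_simp
  linear_combination h3

/-- If all monomials of weight zero agree, the two families differ by one scaling. -/
theorem scale_factor {I : Type} (k : I → ℕ) (x x' : I → ℂ) {d d' : ℂ} (hd : d ≠ 0) (hd' : d' ≠ 0)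
    (H : ∀ (l : List I) (m : ℕ), (l.map k).sum = 12 * m →
      (l.map x').prod / d' ^ m = (l.map x).prod / d ^ m) :
    ∃ c : ℂ, c ≠ 0 ∧ ∀ i, x' i = c ^ k i * x i := by
  obtain ⟨c, hc⟩ := IsAlgClosed.exists_pow_nat_eq (d' / d) (n := 12) (by norm_num)
  have hc0 : c ≠ 0 := fun e => by
    rw [e, zero_pow (by norm_num)] at hc
    exact div_ne_zero hd' hd hc.symm
  have hp : ∀ l : List I, (l.map fun i => c ^ k i * x i).prod =
      c ^ (l.map k).sum * (l.map x).prod := fun l => by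
    induction l with
    | nil => simp
    | cons i l ih =>
      simp only [List.map_cons, List.prod_cons, List.sum_cons, ih, pow_add]
      ring
  obtain ⟨w, hw, h⟩ := root_factor k x' (fun i => c ^ k i * x i) (by
    rintro n a b ⟨l, rfl, rfl, rfl⟩ ⟨m, hm⟩
    have h1 := H l m hm
    rw [hp, hm, pow_mul, hc, div_pow]
    field_simp at h1 ⊢
    linear_combination h1)
  exact ⟨w * c, mul_ne_zero hw hc0, fun i => by rw [h i, mul_pow, mul_assoc]⟩

end Pool.Agent.EQ.Br
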