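import Pool.Agent.K.MP_ad7a55_nt.C10
import Pool.Agent.P.MP_ad7a55_nt.VDef

/-! The hypothesis on proper special subvarieties gives the two recurrence clauses. -/

open UpperHalfPlane
open scoped MatrixGroups

namespace Pool.Agent.EQ.BrQ

theorem disc_of_quad {t : ℍ} (h : ∃ p q : ℚ, (t : ℂ) ^ 2 + p * t + q = 0) :
    ∃ D, HasDisc t D := by
  obtain ⟨p, q, h⟩ := h
  set a : ℤ := p.den * q.den with ha
  set b : ℤ := p.num * q.den with hb
  set c : ℤ := q.num * p.den with hc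
  have a0 : 0 < a := mul_pos (by exact_mod_cast p.pos) (by exact_mod_cast q.pos)
  have hp : (p : ℂ) * p.den = p.num := by exact_mod_cast p.mul_den_eq_num
  have hq : (q : ℂ) * q.den = q.num := by exact_mod_cast q.mul_den_eq_num
  have e : (a : ℂ) * (t : ℂ) ^ 2 + b * t + c = 0 := by
    rw [ha, hb, hc]
    push_cast
    rw [← hp, ← hq]
    linear_combination ((p.den : ℂ) * q.den) * h
  set g : ℕ := Int.gcd (Int.gcd a b) c with hg
  have d1 : (g : ℤ) ∣ Int.gcd a b := Int.gcd_dvd_left _ _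
  obtain ⟨a', ea⟩ : (g : ℤ) ∣ a := d1.trans (Int.gcd_dvd_left _ _)
  obtain ⟨b', eb⟩ : (g : ℤ) ∣ b := d1.trans (Int.gcd_dvd_right _ _)
  obtain ⟨c', ec⟩ : (g : ℤ) ∣ c := Int.gcd_dvd_right _ _
  have g0 : g ≠ 0 := by
    intro h0
    rw [h0] at ea
    simp at ea
    omega
  have g1 : (0 : ℤ) < g := by exact_mod_cast Nat.pos_of_ne_zero g0
  refine ⟨_, a', b', c', ?_, ?_, ?_, rfl⟩
  · rw [ea] at a0
    exact (mul_pos_iff_of_pos_left g1).1 a0
  · have h1 : g = g * Int.gcd (Int.gcd a' b') c' := by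
      conv_lhs => rw [hg, ea, eb, ec, Int.gcd_mul_left]
      push_cast
      rw [abs_of_pos g1, Int.gcd_mul_left]
      simp
    exact (Nat.eq_of_mul_eq_mul_left (Nat.pos_of_ne_zero g0) (by rw [← h1, mul_one])).symm
  · have h2 : (g : ℂ) ≠ 0 := by exact_mod_cast g0
    refine mul_left_cancel₀ h2 ?_
    rw [ea, eb, ec] at e
    push_cast at e
    linear_combination e

theorem quad_of_disc {t : ℍ} {D : ℤ} (h : HasDisc t D) :
    ∃ p q : ℚ, (t : ℂ) ^ 2 + p * t + q = 0 := by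
  obtain ⟨a, b, c, ha, -, e, -⟩ := h
  have h0 : (a : ℂ) ≠ 0 := by exact_mod_cast ha.ne'
  refine ⟨b / a, c / a, ?_⟩
  push_cast
  field_simp
  linear_combination e

theorem den_ne {a b c d : ℚ} (h : 0 < a * d - b * c) (z : ℍ) : (c : ℂ) * z + d ≠ 0 := by
  intro e
  have h1 := congrArg Complex.im e
  have h2 := congrArg Complex.re e
  simp only [Complex.add_im, Complex.mul_im, Complex.ratCast_re, Complex.ratCast_im, zero_mul,
    add_zero, Complex.zero_im, mul_eq_zero, coe_im] at h1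
  have h3 : c = 0 := by exact_mod_cast h1.resolve_right z.im_ne_zero
  rw [h3] at e
  have h4 : d = 0 := by simpa using e
  simp [h3, h4] at h

theorem mob_inj {a b c d : ℚ} (h : 0 < a * d - b * c) {z w : ℍ}
    (e : ((a : ℂ) * z + b) / (c * z + d) = (a * w + b) / (c * w + d)) : z = w := by
  rw [div_eq_div_iff (den_ne h z) (den_ne h w)] at e
  have h0 : (a : ℂ) * d - b * c ≠ 0 := by exact_mod_cast h.ne'
  refine UpperHalfPlane.ext (mul_left_cancel₀ h0 ?_)
  linear_combination e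

theorem coe_sl (γ : SL(2, ℤ)) (z : ℍ) :
    ((γ • z : ℍ) : ℂ) = (((γ 0 0 : ℚ) : ℂ) * z + ((γ 0 1 : ℚ) : ℂ)) /
      (((γ 1 0 : ℚ) : ℂ) * z + ((γ 1 1 : ℚ) : ℂ)) := by
  rw [coe_specialLinearGroup_apply]
  simp

theorem det_sl (γ : SL(2, ℤ)) : (γ 0 0 : ℚ) * (γ 1 1 : ℚ) - (γ 0 1 : ℚ) * (γ 1 0 : ℚ) = 1 := by
  have h := γ.det_coe
  rw [Matrix.det_fin_two] at h
  exact_mod_cast h

theorem mk_rel {Γ : Subgroup SL(2, ℤ)} {u v : ℍ}
    (h : (Quotient.mk _ u : YG Γ) = Quotient.mk _ v) : ∃ γ : SL(2, ℤ), u = γ • v := by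
  obtain ⟨g, hg⟩ := MulAction.orbitRel_apply.1 (Quotient.exact h)
  exact ⟨g, hg.symm⟩

theorem mk_out (Γ : Subgroup SL(2, ℤ)) (γ : SL(2, ℤ)) :
    ∃ x : SL(2, ℤ) ⧸ Γ, ∀ z : ℍ,
      (Quotient.mk _ (γ • z) : YG Γ) = Quotient.mk _ (x.out⁻¹ • z) := by
  obtain ⟨h, e⟩ := QuotientGroup.mk_out_eq_mul Γ γ⁻¹
  refine ⟨QuotientGroup.mk γ⁻¹, fun z => Quotient.sound (MulAction.orbitRel_apply.2 ⟨h, ?_⟩)⟩
  rw [e]
  simp [Subgroup.smul_def, mul_smul]

theorem not_countable_H : ¬ (Set.univ : Set ℍ).Countable := by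
  intro h
  refine not_countable_complex ((h.image jInv).mono fun z _ => ?_)
  obtain ⟨t, e⟩ := jInv_surj z
  exact ⟨t, trivial, e⟩

theorem ex_notMem {S : Set ℍ} (h : S.Countable) : ∃ s, s ∉ S := by
  by_contra hc
  exact not_countable_H (h.mono fun s _ => by_contra fun h' => hc ⟨s, h'⟩)

theorem rec_of_special {n N : ℕ} (hN : 0 < N) (Γ : Fin n → Subgroup SL(2, ℤ))
    (hΓ : ∀ k, CongruenceSubgroup.Gamma N ≤ Γ k) (τ : ℕ → Fin n → ℍ)
    (hcm : ∀ i k, ∃ p q : ℚ, (τ i k : ℂ) ^ 2 + p * τ i k + q = 0)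
    (H : ∀ (s : Fin n → ℕ) (t : Fin n → ℍ) (a b c d : Fin n → ℚ) (Z : Set (∀ k, YG (Γ k))),
      (∀ k, s k = 0 → ∃ p q : ℚ, (t k : ℂ) ^ 2 + p * t k + q = 0) →
      (∀ k, s k ≠ 0 → 0 < a k * d k - b k * c k) →
      Z = {y | ∃ (z : ℕ → ℍ) (w : Fin n → ℍ), ∀ k, y k = Quotient.mk _ (w k) ∧
        (s k = 0 → w k = t k) ∧
        (s k ≠ 0 → (w k : ℂ) = (a k * z (s k) + b k) / (c k * z (s k) + d k))} →
      (∃ y, y ∉ Z) → {i | (fun k => Quotient.mk _ (τ i k)) ∈ Z}.Finite) :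
    (∀ k, ∀ z : ℂ, {i | jInv (τ i k) = z}.Finite) ∧
      ∀ k l, k ≠ l → ∀ a b c d : ℤ, 0 < a * d - b * c →
        {i | ∃ z w : ℍ, (w : ℂ) = (a * z + b) / (c * z + d) ∧ jInv (τ i k) = jInv z ∧
          jInv (τ i l) = jInv w}.Finite := by
  classical
  have : NeZero N := ⟨hN.ne'⟩
  have : ∀ k, (Γ k).FiniteIndex := fun k => Subgroup.finiteIndex_of_le (hΓ k)
  have : Countable SL(2, ℤ) :=
    inferInstanceAs (Countable {A : Fin 2 → Fin 2 → ℤ // Matrix.det (Matrix.of A) = 1})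
  constructor
  · intro k z
    have h1 : ∀ y : YG (Γ k), {i | (Quotient.mk _ (τ i k) : YG (Γ k)) = y}.Finite := by
      intro y
      rcases Set.eq_empty_or_nonempty {i | (Quotient.mk _ (τ i k) : YG (Γ k)) = y} with
        h | ⟨i0, h0⟩
      · rw [h]
        exact Set.finite_empty
      refine (H (fun j => if j = k then 0 else j + 1) (τ i0) 1 0 0 1 _ (fun j _ => hcm i0 j)
        (fun j _ => by simp) rfl ?_).subset fun i hi => ?_
      · obtain ⟨u, hu⟩ := jInv_surj (jInv (τ i0 k) + 1)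
        refine ⟨fun _ => Quotient.mk _ u, ?_⟩
        rintro ⟨z, w, hw⟩
        obtain ⟨e1, e2, -⟩ := hw k
        obtain ⟨γ, e⟩ := mk_rel e1
        rw [e, jInv_smul, e2 (by simp)] at hu
        simp at hu
      · refine ⟨fun m => if h : m - 1 < n then τ i ⟨m - 1, h⟩ else I,
          fun j => if j = k then τ i0 k else τ i j, fun j => ?_⟩
        by_cases e : j = k
        · subst e
          refine ⟨?_, fun _ => by simp, fun h => absurd (by simp) h⟩
          simp only [if_true]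
          exact Eq.trans hi (Eq.symm h0)
        · simp [e]
    obtain ⟨u, rfl⟩ := jInv_surj z
    refine (Set.finite_iUnion fun x : SL(2, ℤ) ⧸ Γ k =>
      h1 (Quotient.mk _ (x.out⁻¹ • u))).subset fun i hi => ?_
    obtain ⟨γ, e⟩ := jInv_inj (Eq.symm hi)
    obtain ⟨x, hx⟩ := mk_out (Γ k) γ
    exact Set.mem_iUnion.2 ⟨x, by
      change Quotient.mk _ (τ i k) = _
      rw [e, hx]⟩
  · intro k l hkl a b c d hd
    have hq : 0 < (a : ℚ) * d - b * c := by exact_mod_cast hd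
    have h1 : ∀ (A B C D A' B' C' D' : ℚ), 0 < A * D - B * C → 0 < A' * D' - B' * C' →
        {i | ∃ z u v : ℍ, (u : ℂ) = (A * z + B) / (C * z + D) ∧
          (v : ℂ) = (A' * z + B') / (C' * z + D') ∧
          (Quotient.mk _ (τ i k) : YG (Γ k)) = Quotient.mk _ u ∧
          (Quotient.mk _ (τ i l) : YG (Γ l)) = Quotient.mk _ v}.Finite := by
      intro A B C D A' B' C' D' hD hD'
      refine (H (fun j => (if j = l then k else j : Fin n) + 1) (τ 0)
        (fun j => if j = l then A' else if j = k then A else 1)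
        (fun j => if j = l then B' else if j = k then B else 0)
        (fun j => if j = l then C' else if j = k then C else 0)
        (fun j => if j = l then D' else if j = k then D else 1) _ (fun j _ => hcm 0 j)
        (fun j _ => ?_) rfl ?_).subset fun i hi => ?_
      · by_cases e : j = l
        · simpa [e] using hD'
        · by_cases e' : j = k
          · subst e'
            simpa [e] using hD
          · simp [e, e']
      · have hc : (⋃ γ : SL(2, ℤ), ⋃ δ : SL(2, ℤ), {s : ℍ | ∃ z u v : ℍ,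
            (u : ℂ) = (A * z + B) / (C * z + D) ∧ (v : ℂ) = (A' * z + B') / (C' * z + D') ∧
            I = γ • u ∧ s = δ • v}).Countable := by
          refine Set.countable_iUnion fun γ => Set.countable_iUnion fun δ =>
            Set.Subsingleton.countable ?_
          rintro s ⟨z, u, v, e1, e2, e3, rfl⟩ s' ⟨z', u', v', f1, f2, f3, rfl⟩
          have e4 : u = u' := smul_left_cancel γ (e3.symm.trans f3)
          have e5 : z = z' := mob_inj hD (by rw [← e1, ← f1, e4])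
          rw [UpperHalfPlane.ext (e2.trans (e5 ▸ f2.symm))]
        obtain ⟨s, hs⟩ := ex_notMem hc
        refine ⟨fun j => Quotient.mk _ (if j = l then s else I), ?_⟩
        rintro ⟨z, w, hw⟩
        obtain ⟨e1, -, e2⟩ := hw k
        obtain ⟨f1, -, f2⟩ := hw l
        obtain ⟨γ, e⟩ := mk_rel e1
        obtain ⟨δ, f⟩ := mk_rel f1
        refine hs (Set.mem_iUnion.2 ⟨γ, Set.mem_iUnion.2 ⟨δ, z (k + 1), w k, w l, ?_, ?_, ?_, ?_⟩⟩)
        · simpa [hkl] using e2
        · simpa using f2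
        · simpa [hkl] using e
        · simpa using f
      · obtain ⟨z, u, v, e1, e2, e3, e4⟩ := hi
        refine ⟨fun m => if m = k + 1 then z else if h : m - 1 < n then τ i ⟨m - 1, h⟩ else I,
          fun j => if j = l then v else if j = k then u else τ i j, fun j => ?_⟩
        by_cases e : j = l
        · subst e
          refine ⟨by simpa using e4, fun h => absurd h (by simp), fun _ => by simpa using e2⟩
        · by_cases e' : j = k
          · subst e'
            refine ⟨by simpa [e] using e3, fun h => absurd h (by simp),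
              fun _ => by simpa [e] using e1⟩
          · have e'' : (j : ℕ) ≠ k := fun h => e' (Fin.ext h)
            simp [e, e', e'']
    refine (Set.finite_iUnion fun x : SL(2, ℤ) ⧸ Γ k => Set.finite_iUnion
      fun y : SL(2, ℤ) ⧸ Γ l => h1 (x.out⁻¹ 0 0) (x.out⁻¹ 0 1) (x.out⁻¹ 1 0) (x.out⁻¹ 1 1)
        (y.out⁻¹ 0 0 * a + y.out⁻¹ 0 1 * c) (y.out⁻¹ 0 0 * b + y.out⁻¹ 0 1 * d)
        (y.out⁻¹ 1 0 * a + y.out⁻¹ 1 1 * c) (y.out⁻¹ 1 0 * b + y.out⁻¹ 1 1 * d)
        (by rw [det_sl]; exact one_pos) ?_).subset ?_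
    · have h2 := det_sl y.out⁻¹
      refine lt_of_lt_of_eq hq ?_
      linear_combination (-((a : ℚ) * d - b * c)) * h2
    · rintro i ⟨z, w, e1, e2, e3⟩
      obtain ⟨γ, e⟩ := jInv_inj e2.symm
      obtain ⟨δ, f⟩ := jInv_inj e3.symm
      obtain ⟨x, hx⟩ := mk_out (Γ k) γ
      obtain ⟨y, hy⟩ := mk_out (Γ l) δ
      refine Set.mem_iUnion.2 ⟨x, Set.mem_iUnion.2 ⟨y, z, x.out⁻¹ • z, y.out⁻¹ • w,
        coe_sl _ _, ?_, by rw [e, hx], by rw [f, hy]⟩⟩
      have h3 : (c : ℂ) * z + d ≠ 0 := by exact_mod_cast den_ne hq z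
      have h4 : (w : ℂ) * (c * z + d) = a * z + b := by rw [e1, div_mul_cancel₀ _ h3]
      rw [coe_sl, ← mul_div_mul_right _ _ h3]
      push_cast
      refine congrArg₂ (· / ·) ?_ ?_
      · linear_combination ((y.out⁻¹ 0 0 : ℤ) : ℂ) * h4
      · linear_combination ((y.out⁻¹ 1 0 : ℤ) : ℂ) * h4

end Pool.Agent.EQ.BrQ
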