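import Pool.Agent.P.MP_ad7a55_nt.BrFin

/-! Finiteness over the polynomials in `j` for rings of modular functions over a subfield. -/

noncomputable section

open UpperHalfPlane Polynomial
open scoped MatrixGroups

namespace Pool.Agent.EQ.Br

variable {N : ℕ} {K L : IntermediateField ℚ ℂ}

theorem finite_form (hN : 0 < N) [FiniteDimensional ℚ L] (hK : K ≤ L) (B : Subring (ℍ → ℂ))
    (hB : ∀ f ∈ B, f ∈ MF N L) (hc : ∀ c ∈ K, (fun _ => c) ∈ B) (hj : jInv ∈ B) :
    ∃ (r : ℕ) (g : Fin r → ℍ → ℂ), (∀ a, g a ∈ B) ∧ ∀ f ∈ B,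
      ∃ (d : ℕ) (x : Fin r → Fin d → ℂ), (∀ a i, x a i ∈ K) ∧
        ∀ τ, f τ = ∑ a, (∑ i, x a i * jInv τ ^ (i : ℕ)) * g a τ := by
  classical
  have := vcj_fin hN
  have := Fintype.ofFinite (vcjQ N)
  let E := IntermediateField.extendScalars hK
  have : FiniteDimensional ℚ E := inferInstanceAs (FiniteDimensional ℚ L)
  have : FiniteDimensional K E := Module.Finite.of_restrictScalars_finite ℚ K E
  let b := Module.finBasis K E
  obtain ⟨t, ht⟩ := exists_trans L
  have hp : ∀ Q : K[X], (fun τ => Q.eval₂ (algebraMap K ℂ) (jInv τ)) ∈ B := fun Q => by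
    have e : (fun τ => Q.eval₂ (algebraMap K ℂ) (jInv τ)) =
        ∑ i ∈ Finset.range (Q.natDegree + 1), (fun _ => (Q.coeff i : ℂ)) * jInv ^ i :=
      funext fun τ => by
        rw [eval₂_eq_sum_range, Finset.sum_apply]
        rfl
    rw [e]
    exact sum_mem fun i _ => mul_mem (hc _ (Q.coeff i).2) (pow_mem hj i)
  let v : (ℍ → ℂ) → vcjQ N → ℂ := fun f c => f (c.out⁻¹ • t)
  obtain ⟨s, hs, hsp⟩ := (Submodule.fg_span_iff_fg_span_finset_subset (R := ℂ) (v '' MF N L)).1
    (IsNoetherian.noetherian _)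
  let A := (eval₂RingHom (algebraMap K ℂ) (jInv t)).range
  let P : Submodule A ℂ := Submodule.span A (Set.range fun a => (b a : ℂ))
  have hP : ∀ Q : L[X], Q.eval₂ (algebraMap L ℂ) (jInv t) ∈ P := fun Q => by
    rw [eval₂_eq_sum_range]
    refine sum_mem fun i _ => ?_
    have h := congrArg (E.val) (b.sum_repr ⟨Q.coeff i, (Q.coeff i).2⟩)
    rw [map_sum] at h
    have h1 : algebraMap L ℂ (Q.coeff i) =
        ∑ a, (b.repr ⟨Q.coeff i, (Q.coeff i).2⟩ a : ℂ) * (b a : ℂ) := h.symm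
    rw [h1, Finset.sum_mul]
    refine sum_mem fun a _ => ?_
    rw [mul_right_comm]
    exact P.smul_mem ⟨_, C (b.repr ⟨Q.coeff i, (Q.coeff i).2⟩ a) * X ^ i, by simp⟩
      (Submodule.subset_span ⟨a, rfl⟩)
  let T : (vcjQ N → ℂ) →ₗ[A] s → ℂ :=
    { toFun := fun u b => ∑ c, u c * b.1 c
      map_add' := fun u u' => funext fun b => by
        simp only [Pi.add_apply, add_mul, Finset.sum_add_distrib]
      map_smul' := fun a u => funext fun b => by
        show ∑ c, (a : ℂ) * u c * b.1 c = (a : ℂ) * ∑ c, u c * b.1 c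
        simp only [Finset.mul_sum, mul_assoc] }
  let V : Submodule A (vcjQ N → ℂ) :=
    { carrier := v '' B
      add_mem' := by
        rintro _ _ ⟨f, hf, rfl⟩ ⟨g, hg, rfl⟩
        exact ⟨f + g, B.add_mem hf hg, rfl⟩
      zero_mem' := ⟨0, B.zero_mem, rfl⟩
      smul_mem' := by
        rintro ⟨_, Q, rfl⟩ _ ⟨f, hf, rfl⟩
        refine ⟨(fun τ => Q.eval₂ (algebraMap K ℂ) (jInv τ)) * f, B.mul_mem (hp Q) hf,
          funext fun c => ?_⟩
        show Q.eval₂ _ (jInv (_ • t)) * _ = Q.eval₂ _ (jInv t) * _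
        rw [jInv_smul] }
  have h1 : V.map T ≤ Submodule.pi Set.univ fun _ : s => P := by
    rintro _ ⟨_, ⟨f, hf, rfl⟩, rfl⟩ u -
    obtain ⟨g, hg, e⟩ := hs u.2
    have hfg := MF.mul hN (hB f hf) hg
    obtain ⟨Q, e'⟩ := inv_poly hN (MF.sum hN Finset.univ
      (f := fun (c : vcjQ N) τ => f (c.out⁻¹ • τ) * g (c.out⁻¹ • τ))
      fun c _ => MF.smul hfg _) fun γ τ => by
        simp only [vcj_shift (hB f hf) γ, vcj_shift hg γ]
        exact Equiv.sum_comp (MulAction.toPerm γ⁻¹)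
          fun c : vcjQ N => f (c.out⁻¹ • τ) * g (c.out⁻¹ • τ)
    show ∑ c, v f c * u.1 c ∈ P
    rw [← e, e' t]
    exact hP Q
  have h2 : V ⊓ LinearMap.ker T = ⊥ := by
    rw [eq_bot_iff]
    rintro _ ⟨⟨f, hf, rfl⟩, h0⟩
    have h3 : ∀ u ∈ Submodule.span ℂ (s : Set (vcjQ N → ℂ)), ∑ c, v f c * u c = 0 := fun u hu => by
      induction hu using Submodule.span_induction with
      | mem u hu => exact congrFun (LinearMap.mem_ker.1 h0) ⟨u, hu⟩
      | zero => simp
      | add u u' _ _ i1 i2 => simp only [Pi.add_apply, mul_add, Finset.sum_add_distrib, i1, i2,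
          add_zero]
      | smul a u _ i1 =>
        simp only [Pi.smul_apply, smul_eq_mul, mul_left_comm _ a, ← Finset.mul_sum, i1, mul_zero]
    refine funext fun c => ?_
    obtain ⟨_, h4, -⟩ := mem_of_power_sums (v f) (fun _ => 1) (fun _ : vcjQ N => 0) (fun _ => 1)
      (fun a b => by
        rcases a with _ | a
        · simp
        · have h5 := h3 (v fun τ => f τ ^ a) (by
            rw [← hsp]
            exact Submodule.subset_span ⟨_, MF.pow hN (hB f hf) a, rfl⟩)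
          simp only [one_pow, mul_one, pow_succ', zero_mul, Finset.sum_const_zero]
          exact h5) c
    exact h4.symm
  have h3 : V.FG := Submodule.fg_of_fg_map_of_fg_inf_ker T
    (Submodule.FG.of_le (Submodule.fg_pi fun _ => Submodule.fg_span (Set.finite_range _)) h1)
    (h2 ▸ Submodule.fg_bot)
  obtain ⟨r, u, hu⟩ := Submodule.fg_iff_exists_fin_generating_family.1 h3
  have h4 : ∀ a, u a ∈ V := fun a => hu ▸ Submodule.subset_span ⟨a, rfl⟩
  choose g hg e using h4
  refine ⟨r, g, hg, fun f hf => ?_⟩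
  have h5 : v f ∈ Submodule.span A (Set.range u) := hu ▸ ⟨f, hf, rfl⟩
  obtain ⟨x, hx⟩ := (Submodule.mem_span_range_iff_exists_fun _).1 h5
  choose Q hQ using fun a => (x a).2
  have h6 : (f - ∑ a, (fun τ => (Q a).eval₂ (algebraMap K ℂ) (jInv τ)) * g a) ∈ B :=
    sub_mem hf (sum_mem fun a _ => mul_mem (hp (Q a)) (hg a))
  have h7 := zero_of_trans hN ht (hB _ h6) (by
    have h8 := congrFun hx (QuotientGroup.mk 1)
    rw [Finset.sum_apply] at h8
    rw [Pi.sub_apply, Finset.sum_apply, sub_eq_zero, ← vcj_one (hB f hf) t]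
    refine h8.symm.trans (Finset.sum_congr rfl fun a _ => ?_)
    rw [← e a, Pi.mul_apply, ← vcj_one (hB _ (hg a)) t]
    exact congrArg (· * _) (hQ a).symm)
  refine ⟨(Finset.univ.sup fun a => (Q a).natDegree) + 1, fun a i => (Q a).coeff i,
    fun a i => ((Q a).coeff i).2, fun τ => ?_⟩
  have h8 := h7 τ
  rw [Pi.sub_apply, Finset.sum_apply, sub_eq_zero] at h8
  refine h8.trans (Finset.sum_congr rfl fun a _ => ?_)
  rw [Pi.mul_apply, eval₂_eq_sum_range' _ (Nat.lt_succ_of_le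
    (Finset.le_sup (f := fun a => (Q a).natDegree) (Finset.mem_univ a))), Finset.sum_range]
  rfl

end Pool.Agent.EQ.Br
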