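import Pool.Agent.P.MP_ad7a55_nt.BrCj
import Pool.Agent.P.MP_ad7a55_nt.BrRf

/-! The model given by the functions with rational expansion at infinity. -/

noncomputable section

open UpperHalfPlane
open scoped MatrixGroups

namespace Pool.Agent.EQ.Br

variable {N : ℕ} {K L : IntermediateField ℚ ℂ} {Γ : Subgroup SL(2, ℤ)} {f g : ℍ → ℂ}

/-- Modular functions all of whose conjugates are modular functions, compatibly with the action
of the modular group. -/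
def R0 (N : ℕ) (L : IntermediateField ℚ ℂ) (f : ℍ → ℂ) : Prop :=
  f ∈ MF N L ∧ ∀ (σ : ℂ ≃+* ℂ) (d : ℤ), σ (zt N) = zt N ^ d → ∃ g ∈ MF N L,
    ∀ γ δ : SL(2, ℤ), Rel N d γ δ → CJ N σ (fun τ => f (γ • τ)) fun τ => g (δ • τ)

theorem R0.add (hN : 0 < N) (hf : R0 N L f) (hg : R0 N L g) : R0 N L fun τ => f τ + g τ := by
  refine ⟨MF.add hN hf.1 hg.1, fun σ d hd => ?_⟩
  obtain ⟨u, h1, h2⟩ := hf.2 σ d hd
  obtain ⟨v, h3, h4⟩ := hg.2 σ d hd
  exact ⟨_, MF.add hN h1 h3, fun γ δ h => (h2 γ δ h).add hN (h4 γ δ h)⟩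

theorem R0.mul (hN : 0 < N) (hf : R0 N L f) (hg : R0 N L g) : R0 N L fun τ => f τ * g τ := by
  refine ⟨MF.mul hN hf.1 hg.1, fun σ d hd => ?_⟩
  obtain ⟨u, h1, h2⟩ := hf.2 σ d hd
  obtain ⟨v, h3, h4⟩ := hg.2 σ d hd
  exact ⟨_, MF.mul hN h1 h3, fun γ δ h => (h2 γ δ h).mul (h4 γ δ h)⟩

theorem r0_rat (N : ℕ) (L : IntermediateField ℚ ℂ) (q : ℚ) : R0 N L fun _ => (q : ℂ) :=
  ⟨MF.const (SubfieldClass.ratCast_mem L q), fun σ _ _ =>
    ⟨_, MF.const (SubfieldClass.ratCast_mem L q), fun _ _ _ => cj_rat N σ q⟩⟩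

theorem R0.pow (hN : 0 < N) (hf : R0 N L f) (a : ℕ) : R0 N L fun τ => f τ ^ a := by
  induction a with
  | zero => simpa using r0_rat N L 1
  | succ a ih => simpa only [pow_succ] using ih.mul hN hf

theorem r0_sum (hN : 0 < N) {ι : Type} (s : Finset ι) {u : ι → ℍ → ℂ} (h : ∀ i, R0 N L (u i)) :
    R0 N L fun τ => ∑ i ∈ s, u i τ := by
  induction s using Finset.cons_induction with
  | empty => simpa using r0_rat N L 0
  | cons i s hi ih => simpa only [Finset.sum_cons] using (h i).add hN ih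

theorem R0.smul (hN : 0 < N) (hf : R0 N L f) (γ₀ : SL(2, ℤ)) : R0 N L fun τ => f (γ₀ • τ) := by
  refine ⟨MF.smul hf.1 γ₀, fun σ d hd => ?_⟩
  obtain ⟨u, h1, h2⟩ := hf.2 σ d hd
  obtain ⟨d', -, h3⟩ := exists_inv hN hd
  obtain ⟨δ₀, h4⟩ := exists_rel h3 γ₀
  exact ⟨_, MF.smul h1 δ₀, fun γ δ h => by simpa only [mul_smul] using h2 _ _ (h4.mul h)⟩

theorem r0_mon (hN : 0 < N) (hz : zt N ∈ L) (l : List Ix) {m : ℕ}
    (h : (l.map fun i => i.1 + 3).sum = 12 * m) : R0 N L (mon N l m) :=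
  ⟨mon_mf hN hz l h, fun _ d hd => ⟨_, mon_mf hN hz _ (mon_cj hN hd l h (rel_one N d)).1,
    fun _ _ hr => (mon_cj hN hd l h hr).2⟩⟩

/-- The group is stable under the conjugations that come from automorphisms fixing `K`. -/
def St (N : ℕ) (K : IntermediateField ℚ ℂ) (Γ : Subgroup SL(2, ℤ)) : Prop :=
  ∀ σ : ℂ ≃+* ℂ, (∀ a ∈ K, σ a = a) → ∀ d : ℤ, σ (zt N) = zt N ^ d →
    ∀ γ ∈ Γ, ∀ δ, Rel N d γ δ → δ ∈ Γ

theorem R0.conj (hN : 0 < N) (hst : St N K Γ) (hf : R0 N L f) (hi : IsMF Γ N L f) {σ : ℂ ≃+* ℂ}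
    (hσ : ∀ a ∈ K, σ a = a) : ∃ g, IsMF Γ N L g ∧ CJ N σ f g := by
  obtain ⟨d, hd⟩ := exists_pow hN σ
  obtain ⟨d', hd', h3⟩ := exists_inv hN hd
  obtain ⟨u, h1, h2⟩ := hf.2 σ d hd
  have h4 : CJ N σ f u := by simpa only [one_smul] using h2 1 1 (rel_one N d)
  refine ⟨u, ⟨fun δ hδ => ?_, h1.2⟩, h4⟩
  obtain ⟨γ, h5⟩ := exists_rel (d := d') (d' := d) (by rwa [mul_comm]) δ
  have h6 : γ ∈ Γ := hst σ.symm (fun a ha => by rw [RingEquiv.symm_apply_eq, hσ a ha]) d' hd' δ hδ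
    γ h5
  have h7 := h2 γ δ (h5.symm (by rwa [mul_comm]))
  simp only [hi.1 γ h6] at h7
  exact h7.unique hN h4

/-- The modular functions whose expansion at infinity has coefficients in `K`. -/
def BK (Γ : Subgroup SL(2, ℤ)) (N : ℕ) (L K : IntermediateField ℚ ℂ) : Set (ℍ → ℂ) :=
  {f | IsMF Γ N L f ∧ ∃ m : ℕ, QS N K fun τ => ModularForm.discriminant τ ^ m * f τ}

theorem qs_up (hN : 0 < N) {m M : ℕ} (hm : m ≤ M)
    (h : QS N K fun τ => ModularForm.discriminant τ ^ m * f τ) :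
    QS N K fun τ => ModularForm.discriminant τ ^ M * f τ := by
  obtain ⟨k, rfl⟩ := Nat.exists_eq_add_of_le' hm
  exact vmf_congr ((vmf_disc hN k).mul hN h) fun τ => by ring

theorem mf_qs (hf : IsMF Γ N L f) :
    ∃ m : ℕ, QS N L fun τ => ModularForm.discriminant τ ^ m * f τ := by
  obtain ⟨m, h⟩ := (isMF_iff.1 hf).2
  exact ⟨m, vmf_congr (h 1) fun τ => by rw [one_smul]⟩

theorem bk_ring (hN : 0 < N) (hΓ : CongruenceSubgroup.Gamma N ≤ Γ) (hf : f ∈ BK Γ N L K)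
    (hg : g ∈ BK Γ N L K) : f + g ∈ BK Γ N L K ∧ f * g ∈ BK Γ N L K := by
  obtain ⟨h1, m, h2⟩ := hf
  obtain ⟨h3, k, h4⟩ := hg
  exact ⟨⟨(AG hN hΓ L).add_mem h1 h3, m + k, vmf_congr ((qs_up hN (Nat.le_add_right m k) h2).add
    (qs_up hN (Nat.le_add_left k m) h4)) fun τ => mul_add _ _ _⟩,
    (AG hN hΓ L).mul_mem h1 h3, m + k, vmf_congr (h2.mul hN h4) fun τ => by
      rw [Pi.mul_apply]
      ring⟩

theorem bk_const (hK : K ≤ L) {c : ℂ} (hc : c ∈ K) : (fun _ => c) ∈ BK Γ N L K :=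
  ⟨const_mf (hK hc), 0, vmf_congr (qs_const hc) fun τ => by simp⟩

theorem bk_j (hN : 0 < N) : jInv ∈ BK Γ N L K := ⟨j_mf hN, mf_qs (j_mf (Γ := Γ) hN)⟩

theorem bk_trace (hN : 0 < N) (hΓ : CongruenceSubgroup.Gamma N ≤ Γ) {ι : Type} [Fintype ι]
    {σ : ι → ℂ ≃+* ℂ} (h1 : ∀ i, ∀ c ∈ L, σ i c ∈ L) (h2 : ∀ c ∈ L, ∑ i, σ i c ∈ K)
    (hf : IsMF Γ N L f) {G : ι → ℍ → ℂ} (hG : ∀ i, IsMF Γ N L (G i))
    (hc : ∀ i, CJ N (σ i) f (G i)) {y : ℂ} (hy : y ∈ L) :
    (∑ i, (fun _ => σ i y) * G i) ∈ BK Γ N L K := by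
  refine ⟨(AG hN hΓ L).sum_mem fun i _ =>
    (AG hN hΓ L).mul_mem (const_mf (h1 i y hy)) (hG i), ?_⟩
  obtain ⟨m₀, h3⟩ := mf_qs hf
  choose m hm using hc
  obtain ⟨c, h4, h5⟩ := qs_up hN (Nat.le_add_right m₀ (∑ i, m i)) h3
  refine ⟨m₀ + ∑ i, m i, fun n => ∑ i, σ i (y * c n), fun n => h2 _ (mul_mem hy (h4 n)),
    fun τ => ?_⟩
  have h6 := hasSum_sum (s := Finset.univ) fun i _ => (((hm i).up hN
    ((Finset.single_le_sum (fun _ _ => Nat.zero_le _) (Finset.mem_univ i)).trans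
      (Nat.le_add_left _ m₀))).of_sum hN h5 τ).mul_left (σ i y)
  simp only [Finset.sum_apply, Pi.mul_apply, Finset.mul_sum, Finset.sum_mul, map_mul, mul_assoc,
    mul_left_comm _ (σ _ y)]
  exact h6

theorem bk_r0 (hN : 0 < N) (hΓ : CongruenceSubgroup.Gamma N ≤ Γ) [FiniteDimensional ℚ L]
    (hK : K ≤ L) (hL : ∀ σ : ℂ ≃+* ℂ, (∀ a ∈ K, σ a = a) → ∀ c ∈ L, σ c ∈ L) (hst : St N K Γ)
    {w w' : ℍ} (h : ∀ f ∈ BK Γ N L K, f w = f w') (hf : R0 N L f) (hi : IsMF Γ N L f) :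
    f w = f w' := by
  let E := IntermediateField.extendScalars hK
  have : FiniteDimensional ℚ E := inferInstanceAs (FiniteDimensional ℚ L)
  have : FiniteDimensional K E := Module.Finite.of_restrictScalars_finite ℚ K E
  have : Countable E := Countable.of_equiv _ (Module.finBasis ℚ E).equivFun.toEquiv.symm
  have h1 : ∀ ρ : E →ₐ[K] ℂ, ∃ σ : ℂ ≃+* ℂ, ∀ a : E, σ a = ρ a := fun ρ =>
    exists_aut (algebraMap E ℂ) ρ.toRingHom
  choose σ hσ using h1
  have h2 : ∀ ρ, ∀ a ∈ K, σ ρ a = a := fun ρ a ha =>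
    (hσ ρ (algebraMap K E ⟨a, ha⟩)).trans (ρ.commutes ⟨a, ha⟩)
  choose G hG hc using fun ρ => hf.conj hN hst hi (h2 ρ)
  have h3 : ∀ c ∈ L, ∑ ρ, σ ρ c ∈ K := fun c hc => by
    have e := trace_eq_sum_embeddings (K := K) (L := E) ℂ (x := ⟨c, hc⟩)
    simp only [← hσ] at e
    rw [← e]
    exact (Algebra.trace K E ⟨c, hc⟩).2
  have h4 := Fintype.linearIndependent_iff.1 (linearIndependent_algHom_toLinearMap K E ℂ)
    (fun ρ => G ρ w - G ρ w') (by
      ext y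
      have h5 := h _ (bk_trace hN hΓ (fun ρ => hL _ (h2 ρ)) h3 hi hG hc y.2)
      simp only [Finset.sum_apply, Pi.mul_apply, hσ] at h5
      simp only [LinearMap.sum_apply, LinearMap.smul_apply, AlgHom.toLinearMap_apply, smul_eq_mul,
        LinearMap.zero_apply, sub_mul, Finset.sum_sub_distrib, mul_comm (G _ _), h5, sub_self])
    E.val
  obtain ⟨m, h5⟩ := mf_qs hi
  have h6 := (hc E.val).unique hN ⟨m, qc_fix (fun a ha => hσ E.val ⟨a, ha⟩) h5⟩
  rwa [h6, h6, sub_eq_zero] at h4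

theorem bk_sep (hN : 0 < N) (hΓ : CongruenceSubgroup.Gamma N ≤ Γ) [FiniteDimensional ℚ L]
    (hK : K ≤ L) (hz : zt N ∈ L) (hL : ∀ σ : ℂ ≃+* ℂ, (∀ a ∈ K, σ a = a) → ∀ c ∈ L, σ c ∈ L)
    (hst : St N K Γ) (w w' : ℍ) :
    (Quotient.mk _ w : YG Γ) = Quotient.mk _ w' ↔ ∀ f ∈ BK Γ N L K, f w = f w' := by
  refine ⟨fun h f hf => (mk_eq hN hΓ hz).1 h f hf.1, fun h => ?_⟩
  have := vcj_fin hN
  have := Fintype.ofFinite {c : vcjQ N // c.out ∈ Γ}
  let S : Submodule ℚ (ℍ → ℂ) :=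
    { carrier := {f | R0 N L f}
      add_mem' := fun hf hg => R0.add hN hf hg
      zero_mem' := by
        have h0 := r0_rat N L 0
        rw [Rat.cast_zero] at h0
        exact h0
      smul_mem' := fun q f hf => by
        rw [rat_smul_eq]
        exact (r0_rat N L q).mul hN hf }
  obtain ⟨γ, hγ, e⟩ := sepS hN hΓ S (fun _ hf => hf.1) (fun l _ hl => r0_mon hN hz l hl)
    fun f hf a => bk_r0 hN hΓ hK hL hst h
      (r0_sum hN Finset.univ fun c : {c : vcjQ N // c.out ∈ Γ} =>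
        (R0.smul hN hf c.1.out⁻¹).pow hN a) (psum_mf hN hΓ hf.1 a)
  exact (Quotient.sound (MulAction.orbitRel_apply.2 ⟨⟨γ, hγ⟩, e.symm⟩)).symm

theorem bk_point (hN : 0 < N) (hΓ : CongruenceSubgroup.Gamma N ≤ Γ) [FiniteDimensional ℚ L]
    (hK : K ≤ L) (χ : (ℍ → ℂ) → ℂ) (hχ : ∀ f ∈ BK Γ N L K, ∀ g ∈ BK Γ N L K,
      χ (f + g) = χ f + χ g ∧ χ (f * g) = χ f * χ g) (hk : ∀ c ∈ K, χ (fun _ => c) = c) :
    ∃ w : ℍ, ∀ f ∈ BK Γ N L K, f w = χ f := by
  let E := IntermediateField.extendScalars hK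
  have : FiniteDimensional ℚ E := inferInstanceAs (FiniteDimensional ℚ L)
  have : FiniteDimensional K E := Module.Finite.of_restrictScalars_finite ℚ K E
  let b := Module.finBasis K E
  let e : Fin (Module.finrank K E) → ℂ := fun a => b a
  have he : ∀ a, e a ∈ L := fun a => (b a).2
  have hL : ∀ c ∈ L, ∃ x : Fin (Module.finrank K E) → ℂ, (∀ a, x a ∈ K) ∧ c = ∑ a, x a * e a :=
    fun c hc => ⟨fun a => b.repr ⟨c, hc⟩ a, fun a => (b.repr ⟨c, hc⟩ a).2, by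
      have h := congrArg (E.val) (b.sum_repr ⟨c, hc⟩)
      rw [map_sum] at h
      exact h.symm⟩
  have hI : ∀ x : Fin (Module.finrank K E) → ℂ, (∀ a, x a ∈ K) → ∑ a, x a * e a = 0 →
      ∀ a, x a = 0 := fun x hx h a => by
    have h1 := Fintype.linearIndependent_iff.1 b.linearIndependent (fun a => ⟨x a, hx a⟩)
      (Subtype.ext (by
        rw [AddSubmonoidClass.coe_finsetSum]
        exact h)) a
    exact congrArg Subtype.val h1
  have hr := fun f hf g hg => bk_ring (L := L) (K := K) (f := f) (g := g) hN hΓ hf hg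
  have hcm : ∀ c ∈ K, ∀ f ∈ BK Γ N L K, (fun t => c * f t) ∈ BK Γ N L K :=
    fun c h f hf => (hr _ (bk_const hK h) f hf).2
  have hsum : ∀ {ι : Type} (s : Finset ι) (g : ι → ℍ → ℂ), (∀ i, g i ∈ BK Γ N L K) →
      (fun t => ∑ i ∈ s, g i t) ∈ BK Γ N L K := fun s g hg => by
    induction s using Finset.cons_induction with
    | empty => simpa using bk_const hK (zero_mem K)
    | cons i s hi ih =>
      simp only [Finset.sum_cons]
      exact (hr _ (hg i) _ ih).1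
  choose! x hx hx' using id hL
  have hb : ∀ c ∈ L, ∀ f ∈ BK Γ N L K, ∃ g : Fin (Module.finrank K E) → ℍ → ℂ,
      (∀ a, g a ∈ BK Γ N L K) ∧ ∀ t, c * f t = ∑ a, e a * g a t := fun c hc f hf =>
    ⟨fun a t => x c a * f t, fun a => hcm _ (hx c hc a) f hf, fun t => form_one (hx' c hc) _⟩
  have h1 : (fun _ => 1) ∈ BK Γ N L K := bk_const hK (one_mem K)
  let S : Subring (ℍ → ℂ) :=
    { carrier := {f | ∃ g : Fin (Module.finrank K E) → ℍ → ℂ,
        (∀ a, g a ∈ BK Γ N L K) ∧ ∀ t, f t = ∑ a, e a * g a t}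
      mul_mem' := by
        rintro f f' ⟨g, h2, h3⟩ ⟨g', h2', h3'⟩
        refine ⟨fun c t => ∑ p : Fin _ × Fin _, x (e p.1 * e p.2) c * (g p.1 t * g' p.2 t),
          fun c => hsum _ _ fun p => hcm _ (hx _ (mul_mem (he _) (he _)) c) _
            (hr _ (h2 p.1) _ (h2' p.2)).2, fun t => ?_⟩
        rw [Pi.mul_apply, h3, h3', form_alg (x := fun p => x (e p.1 * e p.2))
          fun p => hx' _ (mul_mem (he p.1) (he p.2))]
      one_mem' := by simpa using hb 1 (one_mem L) _ h1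
      add_mem' := by
        rintro f f' ⟨g, h2, h3⟩ ⟨g', h2', h3'⟩
        exact ⟨fun a => g a + g' a, fun a => (hr _ (h2 a) _ (h2' a)).1, fun t => by
          simp only [Pi.add_apply, h3, h3', mul_add, Finset.sum_add_distrib]⟩
      zero_mem' := by simpa using hb 0 (zero_mem L) _ h1
      neg_mem' := by
        rintro f ⟨g, h2, h3⟩
        exact ⟨fun a t => -1 * g a t, fun a => hcm _ (neg_mem (one_mem K)) _ (h2 a), fun t => by
          simp only [Pi.neg_apply, h3, neg_mul, one_mul, mul_neg, Finset.sum_neg_distrib]⟩ }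
  have hB : ∀ f ∈ BK Γ N L K, f ∈ S := fun f hf => by
    have h2 := hb 1 (one_mem L) f hf
    simp only [one_mul] at h2
    exact h2
  have hS : Good N L S := ⟨by
    rintro f ⟨g, h2, h3⟩
    rw [(funext h3 : f = _)]
    exact MF.sum hN _ fun a _ => MF.mul hN (MF.const (he a)) (IsMF.mf hΓ le_rfl (h2 a).1),
    fun c hc => by
      have h2 := hb c hc _ h1
      simp only [mul_one] at h2
      exact h2, hB _ (bk_j hN)⟩
  refine form_point hN hS he hL hB (fun c => bk_const hK) hr (fun f hf => ?_) χ hχ hk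
  obtain ⟨g, hg⟩ := hf
  refine ⟨g, hg, fun g' hg' => funext fun a => funext fun t => ?_⟩
  choose m hm using fun a => (hr _ (hg'.1 a) _ (hcm _ (neg_mem (one_mem K)) _ (hg.1 a))).1.2
  choose c hc hc' using fun a => qs_up hN
    (Finset.single_le_sum (fun _ _ => Nat.zero_le _) (Finset.mem_univ a)) (hm a)
  have h2 := vqs_unique hN (f := fun _ => 0) (a := fun n => ∑ a, c a n * e a) (b := fun _ => 0)
    (fun τ => by
      have h3 := hasSum_sum (s := Finset.univ) fun a _ => (hc' a τ).mul_left (e a)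
      have h4 : ∑ a, e a * (ModularForm.discriminant τ ^ (∑ a, m a) *
          (g' a + fun t => -1 * g a t) τ) = 0 := by
        simp only [Pi.add_apply, mul_left_comm (e _), ← Finset.mul_sum, mul_add, neg_mul, one_mul,
          mul_neg, Finset.sum_add_distrib, Finset.sum_neg_distrib, ← hg.2, ← hg'.2,
          add_neg_cancel]
      rw [h4] at h3
      simpa only [Finset.sum_mul, mul_assoc, mul_left_comm (e _)] using h3)
    fun τ => by simp
  have h3 : ∀ n, c a n = 0 := fun n => hI (fun a => c a n) (fun a => hc a n) (congrFun h2 n) a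
  have h4 := (hc' a t).unique (a₂ := 0) (by simp [h3])
  have h5 := (mul_eq_zero.1 h4).resolve_left
    (pow_ne_zero _ (ModularForm.discriminant_ne_zero t))
  simp only [Pi.add_apply] at h5
  linear_combination h5

theorem bk_finite (hN : 0 < N) (hΓ : CongruenceSubgroup.Gamma N ≤ Γ) [FiniteDimensional ℚ L]
    (hK : K ≤ L) : ∃ (r : ℕ) (g : Fin r → ℍ → ℂ), (∀ a, g a ∈ BK Γ N L K) ∧ ∀ f ∈ BK Γ N L K,
      ∃ (d : ℕ) (x : Fin r → Fin d → ℂ), (∀ a i, x a i ∈ K) ∧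
        ∀ τ, f τ = ∑ a, (∑ i, x a i * jInv τ ^ (i : ℕ)) * g a τ :=
  finite_form hN hK
    { carrier := BK Γ N L K
      mul_mem' := fun hf hg => (bk_ring hN hΓ hf hg).2
      one_mem' := bk_const hK (one_mem K)
      add_mem' := fun hf hg => (bk_ring hN hΓ hf hg).1
      zero_mem' := bk_const hK (zero_mem K)
      neg_mem' := fun {f} hf => by
        rw [← neg_one_mul]
        exact (bk_ring hN hΓ (bk_const hK (neg_mem (one_mem K))) hf).2 }
    (fun _ hf => IsMF.mf hΓ le_rfl hf.1) (fun _ => bk_const hK) (bk_j hN)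

/-- The conjugation preserves the congruence conditions modulo a divisor of the level. -/
theorem rel_dvd (hN : 0 < N) {σ : ℂ ≃+* ℂ} {d : ℤ} (hd : σ (zt N) = zt N ^ d) {M : ℤ}
    (hM : M ∣ N) {γ δ : SL(2, ℤ)} (h : Rel N d γ δ) (h1 : M ∣ γ 1 0) : M ∣ δ 1 0 := by
  obtain ⟨d', -, h2⟩ := exists_inv hN hd
  have e : δ 1 0 = d' * (d * δ 1 0 - γ 1 0) + d' * γ 1 0 - (d * d' - 1) * δ 1 0 := by ring
  rw [e]
  exact (((hM.trans h.2.2.1).mul_left _).add (h1.mul_left _)).sub ((hM.trans h2).mul_right _)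

theorem exists_cyc (hN : 0 < N) : ∃ L : IntermediateField ℚ ℂ, FiniteDimensional ℚ L ∧ zt N ∈ L ∧
    ∀ σ : ℂ ≃+* ℂ, ∀ c ∈ L, σ c ∈ L := by
  have hz : zt N ∈ IntermediateField.adjoin ℚ {zt N} :=
    IntermediateField.mem_adjoin_simple_self ℚ _
  refine ⟨IntermediateField.adjoin ℚ {zt N}, IntermediateField.adjoin.finiteDimensional
    ((zt_prim hN).isIntegral hN).tower_top, hz, fun σ c hc => ?_⟩
  induction hc using IntermediateField.adjoin_induction with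
  | mem x hx =>
    obtain ⟨d, hd⟩ := exists_pow hN σ
    rw [Set.mem_singleton_iff.1 hx, hd]
    exact zpow_mem hz d
  | algebraMap q =>
    rw [eq_ratCast, map_ratCast]
    exact SubfieldClass.ratCast_mem _ q
  | add x y _ _ h1 h2 =>
    rw [map_add]
    exact add_mem h1 h2
  | inv x _ h1 =>
    rw [map_inv₀]
    exact inv_mem h1
  | mul x y _ _ h1 h2 =>
    rw [map_mul]
    exact mul_mem h1 h2

end Pool.Agent.EQ.Br
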