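import Pool.Agent.K.MP_ad7a55_nt.C42
import Pool.Agent.P.MP_ad7a55_nt.BrPS
import Pool.Agent.P.MP_ad7a55_nt.BrEis

/-! Modular functions of level `N` separate the points of the principal modular curve. -/

noncomputable section

open UpperHalfPlane Filter Topology EisensteinSeries
open scoped MatrixGroups Nat Matrix

namespace Pool.Agent.EQ.Br

variable {N : ℕ} {L : IntermediateField ℚ ℂ}

/-- The action on the characters. -/
def tw (γ : SL(2, ℤ)) (a : Fin 2 → ℤ) : Fin 2 → ℤ :=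
  ![γ 1 1 * a 0 - γ 0 1 * a 1, -γ 1 0 * a 0 + γ 0 0 * a 1]

/-- Right multiplication of row vectors. -/
def rmul (γ : SL(2, ℤ)) : (Fin 2 → ℤ) ≃ (Fin 2 → ℤ) where
  toFun v := v ᵥ* (γ : Matrix (Fin 2) (Fin 2) ℤ)
  invFun v := v ᵥ* ((γ⁻¹ : SL(2, ℤ)) : Matrix (Fin 2) (Fin 2) ℤ)
  left_inv v := by
    simp only [Matrix.vecMul_vecMul, ← Matrix.SpecialLinearGroup.coe_mul, mul_inv_cancel,
      Matrix.SpecialLinearGroup.coe_one, Matrix.vecMul_one]
  right_inv v := by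
    simp only [Matrix.vecMul_vecMul, ← Matrix.SpecialLinearGroup.coe_mul, inv_mul_cancel,
      Matrix.SpecialLinearGroup.coe_one, Matrix.vecMul_one]

theorem GE_smul (N k : ℕ) (a : Fin 2 → ℤ) (γ : SL(2, ℤ)) (τ : ℍ) :
    GE N k a (γ • τ) = ((γ 1 0 : ℂ) * τ + γ 1 1) ^ k * GE N k (tw γ a) τ := by
  have hd := γ.det_coe
  rw [Matrix.det_fin_two] at hd
  rw [GE, GE, ← mul_div_assoc, ← tsum_mul_left, ← (rmul γ).tsum_eq]
  congr 1
  rw [(rmul γ).tsum_eq fun v => zt N ^ (a 0 * v 0 + a 1 * v 1) * eisSummand k v (γ • τ),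
    ← (rmul γ).tsum_eq fun v => ((γ 1 0 : ℂ) * τ + γ 1 1) ^ k *
      (zt N ^ (tw γ a 0 * v 0 + tw γ a 1 * v 1) * eisSummand k v τ)]
  refine tsum_congr fun v => ?_
  have e0 : rmul γ v 0 = v 0 * γ 0 0 + v 1 * γ 1 0 := by
    simp [rmul, Matrix.vecMul, dotProduct, Fin.sum_univ_two]
  have e1 : rmul γ v 1 = v 0 * γ 0 1 + v 1 * γ 1 1 := by
    simp [rmul, Matrix.vecMul, dotProduct, Fin.sum_univ_two]
  have e : tw γ a 0 * rmul γ v 0 + tw γ a 1 * rmul γ v 1 = a 0 * v 0 + a 1 * v 1 := by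
    rw [e0, e1]
    simp only [tw, Matrix.cons_val_zero, Matrix.cons_val_one]
    linear_combination (a 0 * v 0 + a 1 * v 1) * hd
  have e2 : denom γ τ = (γ 1 0 : ℂ) * τ + γ 1 1 := by simp [denom]
  rw [e, eisSummand_SL2_apply, e2, zpow_natCast]
  exact mul_left_comm _ _ _

theorem GE_congr (hN : 0 < N) (k : ℕ) {a a' : Fin 2 → ℤ} (h0 : (N : ℤ) ∣ a 0 - a' 0)
    (h1 : (N : ℤ) ∣ a 1 - a' 1) (τ : ℍ) : GE N k a τ = GE N k a' τ := by
  rw [GE, GE]
  congr 1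
  refine tsum_congr fun v => ?_
  have e : a 0 * v 0 + a 1 * v 1 - (a' 0 * v 0 + a' 1 * v 1) =
      (a 0 - a' 0) * v 0 + (a 1 - a' 1) * v 1 := by ring
  rw [zt_congr hN (e ▸ (h0.mul_right _).add (h1.mul_right _))]

theorem GE_gamma (hN : 0 < N) (k : ℕ) (a : Fin 2 → ℤ) {γ : SL(2, ℤ)}
    (hγ : γ ∈ CongruenceSubgroup.Gamma N) (τ : ℍ) : GE N k (tw γ a) τ = GE N k a τ := by
  rw [CongruenceSubgroup.Gamma_mem] at hγ
  obtain ⟨h1, h2, h3, h4⟩ := hγ
  refine GE_congr hN k ?_ ?_ τ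
  · rw [← ZMod.intCast_zmod_eq_zero_iff_dvd]
    simp only [tw, Matrix.cons_val_zero]
    push_cast
    rw [h4, h2]
    ring
  · rw [← ZMod.intCast_zmod_eq_zero_iff_dvd]
    simp only [tw, Matrix.cons_val_zero, Matrix.cons_val_one]
    push_cast
    rw [h1, h3]
    ring

/-- Index of the generators: weight minus three, and a character. -/
abbrev Ix : Type := ℕ × (Fin 2 → ℤ)

/-- The generators. -/
def gen (N : ℕ) (τ : ℍ) (i : Ix) : ℂ := GE N (i.1 + 3) i.2 τ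

theorem mon_smul (N : ℕ) (γ : SL(2, ℤ)) (τ : ℍ) (l : List Ix) :
    (l.map (gen N (γ • τ))).prod = ((γ 1 0 : ℂ) * τ + γ 1 1) ^ (l.map fun i => i.1 + 3).sum *
      (l.map fun i => GE N (i.1 + 3) (tw γ i.2) τ).prod := by
  induction l with
  | nil => simp
  | cons i l ih =>
    simp only [List.map_cons, List.prod_cons, List.sum_cons, ih, gen, GE_smul, pow_add]
    ring

theorem mon_qs (hN : 0 < N) (hz : zt N ∈ L) (γ : SL(2, ℤ)) (l : List Ix) :
    QS N L fun τ => (l.map fun i => GE N (i.1 + 3) (tw γ i.2) τ).prod := by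
  induction l with
  | nil => simpa using qs_const (N := N) (one_mem L)
  | cons i l ih =>
    simp only [List.map_cons, List.prod_cons]
    exact (GE_qs hN hz (by omega) _).mul hN ih

/-- A monomial in the generators divided by a power of the discriminant. -/
def mon (N : ℕ) (l : List Ix) (m : ℕ) (τ : ℍ) : ℂ :=
  (l.map (gen N τ)).prod / ModularForm.discriminant τ ^ m

theorem mon_key (N : ℕ) (l : List Ix) {m : ℕ} (h : (l.map fun i => i.1 + 3).sum = 12 * m)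
    (γ : SL(2, ℤ)) (τ : ℍ) : mon N l m (γ • τ) =
      (l.map fun i => GE N (i.1 + 3) (tw γ i.2) τ).prod / ModularForm.discriminant τ ^ m := by
  rw [mon, mon_smul, h, disc_smul, mul_pow, pow_mul,
    mul_div_mul_left _ _ (pow_ne_zero _ (pow_ne_zero _ (sl_den_ne_lat γ τ)))]

theorem mon_mf (hN : 0 < N) (hz : zt N ∈ L) (l : List Ix) {m : ℕ}
    (h : (l.map fun i => i.1 + 3).sum = 12 * m) : mon N l m ∈ MF N L := by
  refine vmf_mk (fun γ hγ τ => ?_) m fun γ => vmf_congr (mon_qs hN hz γ l) fun τ => ?_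
  · rw [mon_key N l h]
    simp only [GE_gamma hN _ _ hγ]
    rfl
  · rw [mon_key N l h, mul_div_cancel₀ _ (pow_ne_zero _ (ModularForm.discriminant_ne_zero τ))]

/-- The lattice point with coordinates `v`. -/
def lp (τ : ℍ) (v : Fin 2 → ℤ) : ℂ := v 0 * (τ : ℂ) + v 1

theorem lp_inj (τ : ℍ) {v v' : Fin 2 → ℤ} (h : lp τ v = lp τ v') : v = v' := by
  have h1 := int_indep_lat τ (p := v 0 - v' 0) (q := v 1 - v' 1) (by
    simp only [lp] at h
    push_cast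
    linear_combination h)
  funext i
  fin_cases i
  · exact sub_eq_zero.1 h1.1
  · exact sub_eq_zero.1 h1.2

theorem lp_hasSum (N k : ℕ) (a : Fin 2 → ℤ) (τ : ℍ) (c : ℂ) :
    HasSum (fun v : Fin 2 → ℤ => zt N ^ (a 0 * v 0 + a 1 * v 1) * (c * (lp τ v)⁻¹) ^ (k + 3))
      ((2 * Real.pi * Complex.I) ^ (k + 3) * (c ^ (k + 3) * gen N τ (k, a))) := by
  have h := (GE_summable N (k := k + 3) (by omega) a τ).hasSum.mul_left (c ^ (k + 3))
  have hπ : (2 * Real.pi * Complex.I : ℂ) ^ (k + 3) ≠ 0 :=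
    pow_ne_zero _ Complex.two_pi_I_ne_zero
  have e : (fun v : Fin 2 → ℤ => zt N ^ (a 0 * v 0 + a 1 * v 1) * (c * (lp τ v)⁻¹) ^ (k + 3)) =
      fun v => c ^ (k + 3) *
        (zt N ^ (a 0 * v 0 + a 1 * v 1) * eisSummand (k + 3 : ℕ) v τ) := by
    funext v
    rw [eisSummand, zpow_neg, zpow_natCast, mul_pow, inv_pow, lp]
    ring
  rw [e, gen, GE, mul_left_comm, mul_div_cancel₀ _ hπ]
  exact h

theorem lp_finite (τ : ℍ) (c : ℂ) {z : ℂ} (hz : z ≠ 0) :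
    {v : Fin 2 → ℤ | ‖z‖ ≤ ‖c * (lp τ v)⁻¹‖}.Finite := by
  have h := (lp_hasSum 1 0 0 τ c).summable.norm.tendsto_cofinite_zero
  have h1 := h.eventually (gt_mem_nhds (pow_pos (norm_pos_iff.2 hz) 3))
  refine (eventually_cofinite.1 h1).subset fun v hv => ?_
  have hv' : ‖z‖ ≤ ‖c * (lp τ v)⁻¹‖ := hv
  show ¬ (‖_ * _‖ < _)
  rw [norm_mul, zt_norm, one_mul, norm_pow, not_lt]
  exact pow_le_pow_left₀ (norm_nonneg _) hv' 3

theorem lp_match (hN : 0 < N) {τ τ' : ℍ} {c : ℂ} (hc : c ≠ 0)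
    (h : ∀ i : Ix, gen N τ' i = c ^ (i.1 + 3) * gen N τ i) {v' : Fin 2 → ℤ} (hv : v' ≠ 0) :
    ∃ v : Fin 2 → ℤ, lp τ v = c * lp τ' v' ∧ (N : ℤ) ∣ v 0 - v' 0 ∧ (N : ℤ) ∣ v 1 - v' 1 := by
  classical
  have h0 : lp τ' v' ≠ 0 := fun e => hv (lp_inj τ' (e.trans (by simp [lp])))
  have hz : (lp τ' v')⁻¹ ≠ 0 := inv_ne_zero h0
  have key : ∀ a : Fin 2 → ℤ, (∑' v : Fin 2 → ℤ, if c * (lp τ v)⁻¹ = (lp τ' v')⁻¹ then
      zt N ^ (a 0 * v 0 + a 1 * v 1) else 0) = zt N ^ (a 0 * v' 0 + a 1 * v' 1) := fun a => by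
    have h1 := ps_eq (lp_hasSum N · a τ c) (x' := fun v => 1 * (lp τ' v)⁻¹)
      (fun k => by simpa only [one_pow, one_mul, h (k, a)] using lp_hasSum N k a τ' 1) hz
      (lp_finite τ c hz) (lp_finite τ' 1 hz)
    rw [h1, tsum_eq_single v' fun v hne => if_neg fun e => hne
      (lp_inj τ' (inv_injective (by simpa using e))), if_pos (one_mul _)]
  have hex : ∃ v, c * (lp τ v)⁻¹ = (lp τ' v')⁻¹ := by
    by_contra hn
    have h1 := key 0
    simp only [not_exists.1 hn, if_false, tsum_zero] at h1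
    exact zpow_ne_zero _ (zt_ne N) h1.symm
  obtain ⟨v, e⟩ := hex
  have h2 : ∀ a : Fin 2 → ℤ,
      zt N ^ (a 0 * v 0 + a 1 * v 1) = zt N ^ (a 0 * v' 0 + a 1 * v' 1) := fun a => by
    rw [← key a, tsum_eq_single v fun u hne => if_neg fun e' => hne
      (lp_inj τ (inv_injective (mul_left_cancel₀ hc (e'.trans e.symm)))), if_pos e]
  have h3 : lp τ v ≠ 0 := fun e' => by
    rw [e', inv_zero, mul_zero] at e
    exact hz e.symm
  refine ⟨v, ?_, ?_, ?_⟩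
  · field_simp at e
    linear_combination -e
  · simpa using zt_inj hN (h2 ![1, 0])
  · simpa using zt_inj hN (h2 ![0, 1])

/-- Separation of points at principal level. -/
theorem sepN (hN : 0 < N) {τ τ' : ℍ} (h : ∀ (l : List Ix) (m : ℕ),
    (l.map fun i => i.1 + 3).sum = 12 * m → mon N l m τ = mon N l m τ') :
    ∃ γ ∈ CongruenceSubgroup.Gamma N, τ' = γ • τ := by
  obtain ⟨c, hc, H⟩ := scale_factor (fun i : Ix => i.1 + 3) (gen N τ) (gen N τ')
    (ModularForm.discriminant_ne_zero τ) (ModularForm.discriminant_ne_zero τ')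
    fun l m hm => (h l m hm).symm
  have H' : ∀ i : Ix, gen N τ i = c⁻¹ ^ (i.1 + 3) * gen N τ' i := fun i => by
    rw [H i, ← mul_assoc, ← mul_pow, inv_mul_cancel₀ hc, one_pow, one_mul]
  have n0 : (![1, 0] : Fin 2 → ℤ) ≠ 0 := fun e => by simpa using congrFun e 0
  have n1 : (![0, 1] : Fin 2 → ℤ) ≠ 0 := fun e => by simpa using congrFun e 1
  obtain ⟨u, hu, u0, u1⟩ := lp_match hN hc H n0
  obtain ⟨v, hv, v0, v1⟩ := lp_match hN hc H n1
  obtain ⟨u', hu', -, -⟩ := lp_match hN (inv_ne_zero hc) H' n0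
  obtain ⟨v', hv', -, -⟩ := lp_match hN (inv_ne_zero hc) H' n1
  simp only [lp, Matrix.cons_val_zero, Matrix.cons_val_one, Int.cast_one, Int.cast_zero, one_mul,
    zero_mul, add_zero, zero_add, mul_one, sub_zero] at hu hv hu' hv' u0 u1 v0 v1
  have hi : c * c⁻¹ = 1 := mul_inv_cancel₀ hc
  have a1 := int_indep_lat τ (p := u' 0 * u 0 + u' 1 * v 0 - 1) (q := u' 0 * u 1 + u' 1 * v 1) (by
    push_cast
    linear_combination (u' 0 : ℂ) * hu + (u' 1 : ℂ) * hv + c * hu' + (τ : ℂ) * hi)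
  have a2 := int_indep_lat τ (p := v' 0 * u 0 + v' 1 * v 0) (q := v' 0 * u 1 + v' 1 * v 1 - 1) (by
    push_cast
    linear_combination (v' 0 : ℂ) * hu + (v' 1 : ℂ) * hv + c * hv' + hi)
  have hd : (u 0 * v 1 - u 1 * v 0) * (u' 0 * v' 1 - u' 1 * v' 0) = 1 := by
    have b1 : u' 0 * u 0 + u' 1 * v 0 = 1 := by linarith [a1.1]
    have b2 : v' 0 * u 1 + v' 1 * v 1 = 1 := by linarith [a2.2]
    linear_combination (v' 0 * u 1 + v' 1 * v 1) * b1 + b2 -
      (v' 0 * u 0 + v' 1 * v 0) * a1.2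
  have hrel : ((v 0 : ℂ) * τ + v 1) * τ' = u 0 * τ + u 1 := by rw [hu, hv]
  have hpos : 0 < u 0 * v 1 - u 1 * v 0 := by
    have e : ((Complex.normSq c : ℝ) : ℂ) * τ' =
        ((u 0 : ℂ) * τ + u 1) * (starRingEnd ℂ) ((v 0 : ℂ) * τ + v 1) := by
      rw [hu, hv, ← Complex.mul_conj]
      ring
    have e1 := congrArg Complex.im e
    simp only [Complex.mul_im, Complex.ofReal_re, Complex.ofReal_im, zero_mul, add_zero,
      Complex.add_re, Complex.add_im, Complex.mul_re, Complex.intCast_re, Complex.intCast_im,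
      Complex.conj_re, Complex.conj_im, sub_zero, coe_im, coe_re] at e1
    have e2 : ((u 0 * v 1 - u 1 * v 0 : ℤ) : ℝ) * τ.im = Complex.normSq c * τ'.im := by
      push_cast
      linear_combination -e1
    have e3 : 0 < ((u 0 * v 1 - u 1 * v 0 : ℤ) : ℝ) * τ.im := by
      rw [e2]
      exact mul_pos (Complex.normSq_pos.2 hc) τ'.im_pos
    exact_mod_cast (mul_pos_iff_of_pos_right τ.im_pos).1 e3
  have hdet : u 0 * v 1 - u 1 * v 0 = 1 := Int.eq_one_of_mul_eq_one_right hpos.le hd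
  let γ : SL(2, ℤ) := ⟨!![u 0, u 1; v 0, v 1], by rw [Matrix.det_fin_two_of]; exact hdet⟩
  refine ⟨γ, ?_, ?_⟩
  · rw [CongruenceSubgroup.Gamma_mem]
    have z0 := (ZMod.intCast_zmod_eq_zero_iff_dvd _ _).2 u0
    have z1 := (ZMod.intCast_zmod_eq_zero_iff_dvd _ _).2 u1
    have z2 := (ZMod.intCast_zmod_eq_zero_iff_dvd _ _).2 v0
    have z3 := (ZMod.intCast_zmod_eq_zero_iff_dvd _ _).2 v1
    push_cast at z0 z3
    exact ⟨sub_eq_zero.1 z0, z1, z2, sub_eq_zero.1 z3⟩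
  · apply UpperHalfPlane.ext
    apply mul_left_cancel₀ (sl_den_ne_lat γ τ)
    rw [sl_den_mul_lat]
    exact hrel

end Pool.Agent.EQ.Br
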