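import Pool.Agent.P.MP_ad7a55_nt.Ord2

/-! The action of the p-adic points of the torus on lattices. -/

set_option autoImplicit false

noncomputable section

open MeasureTheory Topology Filter UpperHalfPlane
open scoped MatrixGroups ENNReal BoundedContinuousFunction

namespace Pool.Agent.EQ

variable (p : ℕ) [Fact p.Prime]

/-- The lattice equal to `Λ` away from `p` and to `t Λ` at `p`. -/
def star (t : ℂ) (Λ : Lt) : Lt where
  carrier := {v | (∃ a : ℕ, (p : ℂ) ^ a * v ∈ Λ) ∧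
    ∃ m : ℤ, ¬ (p : ℤ) ∣ m ∧ ∃ w ∈ Λ, (m : ℂ) * v = t * w}
  zero_mem' := ⟨⟨0, by simp⟩, 1, (Nat.prime_iff_prime_int.1 Fact.out).not_dvd_one, 0, Λ.zero_mem,
    by simp⟩
  add_mem' := by
    rintro v v' ⟨⟨a, ha⟩, m, hm, w, hw, e⟩ ⟨⟨a', ha'⟩, m', hm', w', hw', e'⟩
    refine ⟨⟨a + a', ?_⟩, m * m', ?_, m' • w + m • w', Λ.add_mem (Λ.smul_mem _ hw)
      (Λ.smul_mem _ hw'), ?_⟩
    · have := Λ.add_mem (Λ.smul_mem ((p : ℤ) ^ a') ha) (Λ.smul_mem ((p : ℤ) ^ a) ha')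
      convert this using 1
      simp only [zsmul_eq_mul]; push_cast; ring
    · exact (Nat.prime_iff_prime_int.1 Fact.out).not_dvd_mul hm hm'
    · simp only [zsmul_eq_mul]; push_cast
      linear_combination (m' : ℂ) * e + (m : ℂ) * e'
  smul_mem' := by
    rintro n v ⟨⟨a, ha⟩, m, hm, w, hw, e⟩
    refine ⟨⟨a, ?_⟩, m, hm, n • w, Λ.smul_mem _ hw, ?_⟩
    · convert Λ.smul_mem n ha using 1
      simp only [zsmul_eq_mul]; ring
    · simp only [zsmul_eq_mul]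
      linear_combination (n : ℂ) * e

theorem mem_star {t v : ℂ} {Λ : Lt} : v ∈ star p t Λ ↔ (∃ a : ℕ, (p : ℂ) ^ a * v ∈ Λ) ∧
    ∃ m : ℤ, ¬ (p : ℤ) ∣ m ∧ ∃ w ∈ Λ, (m : ℂ) * v = t * w := Iff.rfl

/-- `t` is a nonzero element of the field `ℚ(√D)`. -/
def InK (D : ℤ) (t : ℂ) : Prop := t ≠ 0 ∧ ∃ a b : ℚ, t = a + b * th D

theorem InK.mul {D : ℤ} (hD : D < 0) {t t' : ℂ} (h : InK D t) (h' : InK D t') :
    InK D (t * t') := by
  obtain ⟨h0, a, b, rfl⟩ := h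
  obtain ⟨h0', a', b', rfl⟩ := h'
  refine ⟨mul_ne_zero h0 h0', a * a' + b * b' * D, a * b' + b * a', ?_⟩
  have := th_sq hD.le
  push_cast
  linear_combination (b : ℂ) * b' * this

theorem norm_ne_zero_star {D : ℤ} (hD : D < 0) {a b : ℚ} (h : a ≠ 0 ∨ b ≠ 0) :
    a ^ 2 - b ^ 2 * D ≠ 0 := by
  have hD' : (0 : ℚ) < -(D : ℚ) := by exact_mod_cast neg_pos.2 hD
  have : 0 < a ^ 2 + b ^ 2 * (-(D : ℚ)) := by
    rcases h with h | h
    · have := pow_pos (abs_pos.2 h) 2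
      rw [sq_abs] at this
      positivity
    · have := pow_pos (abs_pos.2 h) 2
      rw [sq_abs] at this
      positivity
  intro e
  linarith

theorem InK.inv {D : ℤ} (hD : D < 0) {t : ℂ} (h : InK D t) : InK D t⁻¹ := by
  obtain ⟨h0, a, b, rfl⟩ := h
  have hab : a ≠ 0 ∨ b ≠ 0 := by
    by_contra hc
    push Not at hc
    apply h0
    simp [hc.1, hc.2]
  have hN := norm_ne_zero_star hD hab
  have hN' : (a : ℂ) ^ 2 - (b : ℂ) ^ 2 * D ≠ 0 := by exact_mod_cast hN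
  refine ⟨inv_ne_zero h0, a / (a ^ 2 - b ^ 2 * D), -b / (a ^ 2 - b ^ 2 * D), ?_⟩
  have := th_sq hD.le
  apply inv_eq_of_mul_eq_one_right
  push_cast
  field_simp
  linear_combination -(b : ℂ) ^ 2 * this

theorem inK_one_add {D : ℤ} (hD : D < 0) (y : ℚ) : InK D (1 + y * th D) := by
  refine ⟨?_, 1, y, by simp⟩
  intro h
  have := congrArg Complex.re h
  simp [th] at this

theorem inK_rat_star (D : ℤ) {a : ℚ} (ha : a ≠ 0) : InK D (a : ℂ) :=
  ⟨by exact_mod_cast ha, a, 0, by simp⟩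

theorem InK.pow_star {D : ℤ} (hD : D < 0) {t : ℂ} (h : InK D t) (n : ℕ) : InK D (t ^ n) := by
  induction n with
  | zero => simpa using inK_rat_star D (a := 1) one_ne_zero
  | succ n ih => rw [pow_succ]; exact ih.mul hD h

theorem int_mul_mem_star {Λ : Lt} {v : ℂ} (n : ℤ) (h : v ∈ Λ) : (n : ℂ) * v ∈ Λ := by
  simpa [zsmul_eq_mul] using Λ.smul_mem n h

theorem pow_mul_mem_star {Λ : Lt} {v : ℂ} (a : ℕ) (h : v ∈ Λ) : (p : ℂ) ^ a * v ∈ Λ := by
  simpa using int_mul_mem_star ((p : ℤ) ^ a) h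

theorem prime_star : Prime (p : ℤ) := Nat.prime_iff_prime_int.1 Fact.out

/-- Bezout. -/
theorem bez_star {Λ : Lt} {v : ℂ} {a : ℕ} {m : ℤ} (hm : ¬ (p : ℤ) ∣ m)
    (h1 : (p : ℂ) ^ a * v ∈ Λ) (h2 : (m : ℂ) * v ∈ Λ) : v ∈ Λ := by
  have hc : IsCoprime ((p : ℤ) ^ a) m :=
    ((prime_star p).irreducible.coprime_iff_not_dvd.2 hm).pow_left
  obtain ⟨x, y, hxy⟩ := hc
  have hxy' : (x : ℂ) * (p : ℂ) ^ a + y * m = 1 := by exact_mod_cast hxy
  have := Λ.add_mem (int_mul_mem_star x h1) (int_mul_mem_star y h2)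
  convert this using 1
  linear_combination -v * hxy'

theorem split_star {N : ℤ} (hN : N ≠ 0) : ∃ (e : ℕ) (n : ℤ), ¬ (p : ℤ) ∣ n ∧ N = p ^ e * n := by
  obtain ⟨e, n, h1, h2⟩ := WfDvdMonoid.max_power_factor hN (prime_star p).irreducible
  exact ⟨e, n, h1, h2⟩

theorem lin_mem_OD_star (D a b : ℤ) : (a : ℂ) + b * th D ∈ OD D := by
  have := (OD D).add_mem (int_mul_mem_star a (one_mem_OD D)) (int_mul_mem_star b (th_mem_OD D))
  simpa using this

/-- Clearing denominators. -/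
theorem InK.clear {D : ℤ} {t : ℂ} (h : InK D t) :
    ∃ (e : ℕ) (n : ℤ), ¬ (p : ℤ) ∣ n ∧ (p : ℂ) ^ e * n * t ∈ OD D := by
  obtain ⟨-, a, b, rfl⟩ := h
  have hN : (a.den : ℤ) * b.den ≠ 0 := by
    have := a.den_nz
    have := b.den_nz
    positivity
  obtain ⟨e, n, hn, hE⟩ := split_star p hN
  refine ⟨e, n, hn, ?_⟩
  have hE' : (a.den : ℂ) * b.den = p ^ e * n := by exact_mod_cast hE
  have ha : (a : ℂ) * a.den = a.num := by exact_mod_cast a.mul_den_eq_num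
  have hb : (b : ℂ) * b.den = b.num := by exact_mod_cast b.mul_den_eq_num
  convert lin_mem_OD_star D (a.num * b.den) (b.num * a.den) using 1
  push_cast
  linear_combination -((a : ℂ) + b * th D) * hE' + (b.den : ℂ) * ha + (a.den : ℂ) * th D * hb

/-- `Λ` is a module over the order of discriminant `D`. -/
def ModS (D : ℤ) (Λ : Lt) : Prop := ∀ x ∈ OD D, ∀ w ∈ Λ, x * w ∈ Λ

theorem DiscL.modS {D : ℤ} {Λ : Lt} (h : DiscL Λ D) : ModS D Λ :=
  fun x hx => pr_mul_le.1 ((h.end_iff x).2 hx)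

theorem ModS.star {D : ℤ} {Λ : Lt} (h : ModS D Λ) (t : ℂ) : ModS D (star p t Λ) := by
  rintro x hx v ⟨⟨a, ha⟩, m, hm, w, hw, e⟩
  refine ⟨⟨a, ?_⟩, m, hm, x * w, h x hx w hw, ?_⟩
  · convert h x hx _ ha using 1
    ring
  · linear_combination x * e

theorem star_pr_mul (t : ℂ) {c : ℂ} (hc : c ≠ 0) (Λ : Lt) :
    star p t (pr c * Λ) = pr c * star p t Λ := by
  ext v
  constructor
  · rintro ⟨⟨a, ha⟩, m, hm, w, hw, e⟩
    obtain ⟨u, hu, eu⟩ := mem_pr_mul.1 ha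
    obtain ⟨w', hw', rfl⟩ := mem_pr_mul.1 hw
    refine mem_pr_mul.2 ⟨v / c, ⟨⟨a, ?_⟩, m, hm, w', hw', ?_⟩, by field_simp⟩
    · convert hu using 1
      field_simp
      linear_combination -eu
    · field_simp
      linear_combination e
  · intro hv
    obtain ⟨u, ⟨⟨a, ha⟩, m, hm, w, hw, e⟩, rfl⟩ := mem_pr_mul.1 hv
    refine ⟨⟨a, mem_pr_mul.2 ⟨_, ha, by ring⟩⟩, m, hm, c * w, mem_pr_mul.2 ⟨w, hw, rfl⟩, ?_⟩
    linear_combination c * e

theorem star_mul' {D : ℤ} (hD : D < 0) {Λ : Lt} (h : ModS D Λ) {t t' : ℂ} (ht : InK D t)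
    (ht' : InK D t') : star p t (star p t' Λ) = star p (t * t') Λ := by
  ext v
  constructor
  · rintro ⟨⟨a, ⟨b, hb⟩, -⟩, m, hm, w, ⟨-, m', hm', u, hu, e'⟩, e⟩
    refine ⟨⟨a + b, ?_⟩, m * m', (prime_star p).not_dvd_mul hm hm', u, hu, ?_⟩
    · convert hb using 1
      ring
    · push_cast
      linear_combination (m' : ℂ) * e + t * e'
  · rintro ⟨⟨a, ha⟩, m, hm, u, hu, e⟩
    obtain ⟨e1, n1, hn1, h1⟩ := (ht.inv hD).clear p
    obtain ⟨e2, n2, hn2, h2⟩ := (ht'.inv hD).clear p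
    have t0 := ht.1
    have t0' := ht'.1
    refine ⟨⟨a + e2, ⟨0, ?_⟩, n2, hn2, _, h _ h2 _ ha, ?_⟩, m * n1,
      (prime_star p).not_dvd_mul hm hn1, n1 * t' * u, ⟨⟨a + e1, ?_⟩, 1,
      (prime_star p).not_dvd_one, n1 * u, int_mul_mem_star _ hu, ?_⟩, ?_⟩
    · convert pow_mul_mem_star p e2 ha using 1
      ring
    · field_simp
      ring
    · convert int_mul_mem_star m (h _ h1 _ ha) using 1
      field_simp
      linear_combination -(p : ℂ) ^ (a + e1) * n1 * e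
    · push_cast
      ring
    · push_cast
      linear_combination (n1 : ℂ) * e

theorem star_mul {D : ℤ} {Λ : Lt} (h : DiscL Λ D) {t t' : ℂ} (ht : InK D t) (ht' : InK D t') :
    star p t (star p t' Λ) = star p (t * t') Λ :=
  star_mul' p h.isD.1 h.modS ht ht'

theorem pow_mem_star {D : ℤ} (hD : D < 0) {t : ℂ} (ht : InK D t) :
    ∃ e : ℕ, (p : ℂ) ^ e ∈ star p t (OD D) := by
  obtain ⟨e, n, hn, h⟩ := (ht.inv hD).clear p
  have t0 := ht.1
  refine ⟨e, ⟨0, ?_⟩, n, hn, _, h, ?_⟩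
  · simpa using pow_mul_mem_star p e (one_mem_OD D)
  · field_simp

theorem star_OD_mul' {D : ℤ} (hD : D < 0) {Λ : Lt} (h : ModS D Λ) {t : ℂ}
    (ht : InK D t) : star p t (OD D) * Λ = star p t Λ := by
  apply le_antisymm
  · rw [Submodule.mul_le]
    rintro x ⟨⟨a, ha⟩, m, hm, y, hy, e⟩ w hw
    refine ⟨⟨a, ?_⟩, m, hm, y * w, h y hy w hw, ?_⟩
    · convert h _ ha w hw using 1
      ring
    · linear_combination w * e
  · rintro v ⟨⟨a, ha⟩, m, hm, w, hw, e⟩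
    obtain ⟨e1, n1, hn1, h1⟩ := ht.clear p
    obtain ⟨e2, h2⟩ := pow_mem_star p hD ht
    have h3 : (n1 : ℂ) * t ∈ star p t (OD D) := by
      refine ⟨⟨e1, by rw [← mul_assoc]; exact h1⟩, 1, (prime_star p).not_dvd_one, n1, ?_, ?_⟩
      · simpa using int_mul_mem_star n1 (one_mem_OD D)
      · push_cast
        ring
    refine bez_star p (a := e2 + a) ((prime_star p).not_dvd_mul hn1 hm) ?_ ?_
    · convert Submodule.mul_mem_mul h2 ha using 1
      ring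
    · convert Submodule.mul_mem_mul h3 hw using 1
      push_cast
      linear_combination (n1 : ℂ) * e

theorem star_OD_mul {D D' : ℤ} (hD : IsD D) {Λ : Lt} (h : DiscL Λ D') (hle : OD D ≤ OD D') {t : ℂ}
    (ht : InK D t) : star p t (OD D) * Λ = star p t Λ :=
  star_OD_mul' p hD.1 (fun x hx => h.modS x (hle hx)) ht

theorem star_one_star (Λ : Lt) : star p 1 Λ = Λ := by
  ext v
  constructor
  · rintro ⟨⟨a, ha⟩, m, hm, w, hw, e⟩
    exact bez_star p hm ha (by rw [e, one_mul]; exact hw)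
  · intro hv
    exact ⟨⟨0, by simpa using hv⟩, 1, (prime_star p).not_dvd_one, v, hv, by simp⟩

theorem discL_star_OD {D : ℤ} (hD : IsD D) {t : ℂ} (ht : InK D t) :
    DiscL (star p t (OD D)) D := by
  have hO := (discL_OD hD).modS
  have hp : 0 < p := (Fact.out : p.Prime).pos
  refine discL_of_inv (𝔟 := star p t⁻¹ (OD D)) hD ?_ ?_ ?_
  · obtain ⟨e1, n1, hn1, h1⟩ := ht.clear p
    obtain ⟨e2, h2⟩ := pow_mem_star p hD.1 ht
    refine (discL_OD hD).isLat.of_between (N := p ^ (e1 + e2)) (pow_pos hp _) ?_ ?_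
    · rw [pr_mul_le]
      intro w hw
      convert pow_mul_mem_star p e1 (hO.star p t w hw _ h2) using 1
      push_cast
      ring
    · rw [pr_mul_le]
      rintro v ⟨⟨a, ha⟩, m, hm, w, hw, e⟩
      refine bez_star p (a := a) ((prime_star p).not_dvd_mul hn1 hm) ?_ ?_
      · convert pow_mul_mem_star p (e1 + e2) ha using 1
        push_cast
        ring
      · convert pow_mul_mem_star p e2 (hO _ h1 _ hw) using 1
        push_cast
        linear_combination (p : ℂ) ^ (e1 + e2) * n1 * e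
  · rw [Submodule.mul_le]
    exact hO.star p t
  · rw [star_OD_mul' p hD.1 (hO.star p _) ht, star_mul' p hD.1 hO ht (ht.inv hD.1),
      mul_inv_cancel₀ ht.1, star_one_star]

theorem discL_star {D : ℤ} {Λ : Lt} (h : DiscL Λ D) {t : ℂ} (ht : InK D t) :
    DiscL (star p t Λ) D := by
  rw [← star_OD_mul p h.isD h le_rfl ht]
  exact (discL_star_OD p h.isD ht).mul h le_rfl

theorem star_pow {D : ℤ} (hD : IsD D) {t : ℂ} (ht : InK D t) (n : ℕ) :
    star p t (OD D) ^ (n + 1) = star p (t ^ (n + 1)) (OD D) := by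
  have hO := (discL_OD hD).modS
  induction n with
  | zero => simp
  | succ n ih =>
    rw [pow_succ', ih, star_OD_mul' p hD.1 (hO.star p _) ht,
      star_mul' p hD.1 hO ht (ht.pow_star hD.1 _), ← pow_succ']

theorem star_rat {a : ℚ} (ha : a ≠ 0) (Λ : Lt) : ∃ c : ℂ, c ≠ 0 ∧ star p a Λ = pr c * Λ := by
  obtain ⟨i, n, hn, e1⟩ := split_star p (Rat.num_ne_zero.2 ha)
  obtain ⟨j, n', hn', e2⟩ := split_star p (N := a.den) (by exact_mod_cast a.den_nz)
  have hp : (p : ℂ) ≠ 0 := by exact_mod_cast (Fact.out : p.Prime).ne_zero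
  have ha' : (a : ℂ) * a.den = a.num := by exact_mod_cast a.mul_den_eq_num
  have e1' : (a.num : ℂ) = p ^ i * n := by exact_mod_cast e1
  have e2' : (a.den : ℂ) = p ^ j * n' := by exact_mod_cast e2
  rw [e1', e2'] at ha'
  refine ⟨p ^ i / p ^ j, by positivity, ?_⟩
  ext v
  constructor
  · rintro ⟨⟨b, hb⟩, m, hm, w, hw, e⟩
    refine mem_pr_mul.2 ⟨p ^ j * v / p ^ i, ?_, by field_simp⟩
    refine bez_star p (a := b + i) ((prime_star p).not_dvd_mul hm hn') ?_ ?_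
    · convert pow_mul_mem_star p j hb using 1
      field_simp
      ring
    · convert int_mul_mem_star n hw using 1
      push_cast
      field_simp
      linear_combination (n' : ℂ) * p ^ j * e + w * ha'
  · intro hv
    obtain ⟨x, hx, rfl⟩ := mem_pr_mul.1 hv
    refine ⟨⟨j, ?_⟩, n, hn, n' * x, int_mul_mem_star _ hx, ?_⟩
    · convert pow_mul_mem_star p i hx using 1
      field_simp
    · field_simp
      linear_combination -x * ha'

theorem star_triv {D : ℤ} {Λ : Lt} (h : DiscL Λ D) {y : ℚ} (hy : ‖(y : ℚ_[p])‖ ≤ 1)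
    (hy' : ‖(y : ℚ_[p]) ^ 2 * D‖ < 1) : star p (1 + y * th D) Λ = Λ := by
  have hyq : (y : ℚ_[p]) * (y.den : ℤ) = y.num := by exact_mod_cast y.mul_den_eq_num
  have hden : ¬ (p : ℤ) ∣ (y.den : ℤ) := by
    intro hd
    have h1 : ‖((y.den : ℤ) : ℚ_[p])‖ < 1 := Padic.norm_intCast_lt_one_iff.2 hd
    have h2 : ‖((y.num : ℤ) : ℚ_[p])‖ < 1 := by
      rw [← hyq, norm_mul]
      exact mul_lt_one_of_nonneg_of_lt_one_right hy (norm_nonneg _) h1
    have h3 := Padic.norm_intCast_lt_one_iff.1 h2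
    have hc : IsCoprime y.num (y.den : ℤ) := Int.isCoprime_iff_gcd_eq_one.2 y.reduced
    exact (prime_star p).not_isUnit (hc.isUnit_of_dvd' h3 hd)
  have hud : (p : ℤ) ∣ y.num ^ 2 * D := by
    apply Padic.norm_intCast_lt_one_iff.1
    have : (((y.num ^ 2 * D : ℤ)) : ℚ_[p]) =
        (y : ℚ_[p]) ^ 2 * D * (((y.den : ℤ) ^ 2 : ℤ) : ℚ_[p]) := by
      push_cast
      rw [← hyq]
      push_cast
      ring
    rw [this, norm_mul]
    exact mul_lt_one_of_nonneg_of_lt_one_left (norm_nonneg _) hy' (Padic.norm_int_le_one _)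
  have hN : ¬ (p : ℤ) ∣ (y.den : ℤ) ^ 2 - y.num ^ 2 * D := by
    intro hd
    have := dvd_add hd hud
    rw [sub_add_cancel] at this
    exact hden ((prime_star p).dvd_of_dvd_pow this)
  have hyc : (y : ℂ) * y.den = y.num := by exact_mod_cast y.mul_den_eq_num
  have hth := th_sq h.isD.1.le
  ext v
  constructor
  · rintro ⟨⟨a, ha⟩, m, hm, w, hw, e⟩
    refine bez_star p ((prime_star p).not_dvd_mul hm hden) ha ?_
    convert h.modS _ (lin_mem_OD_star D y.den y.num) w hw using 1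
    push_cast
    linear_combination (y.den : ℂ) * e + th D * w * hyc
  · intro hv
    refine ⟨⟨0, by simpa using hv⟩, _, hN, _, int_mul_mem_star y.den
      (h.modS _ (lin_mem_OD_star D y.den (-y.num)) v hv), ?_⟩
    push_cast
    rw [← hyc]
    linear_combination ((y : ℂ) * y.den) ^ 2 * v * hth

theorem pow_est_star {D : ℤ} (hD : D < 0) {z : ℚ} (hz : ‖(z : ℚ_[p]) ^ 2 * D‖ ≤ 1) (k : ℕ) :
    ∃ A B : ℚ, (1 + z * th D) ^ k = A + B * th D ∧
      ‖(A : ℚ_[p]) - 1‖ ≤ ‖(z : ℚ_[p]) ^ 2 * D‖ ∧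
      ‖(B : ℚ_[p]) - k * z‖ ≤ ‖(z : ℚ_[p])‖ * ‖(z : ℚ_[p]) ^ 2 * D‖ ∧
      ‖(B : ℚ_[p])‖ ≤ ‖(z : ℚ_[p])‖ := by
  have hth := th_sq hD.le
  induction k with
  | zero =>
    refine ⟨1, 0, by simp, ?_, ?_, ?_⟩
    · rw [Rat.cast_one, sub_self, norm_zero]
      positivity
    · rw [Rat.cast_zero, Nat.cast_zero, zero_mul, sub_self, norm_zero]
      positivity
    · rw [Rat.cast_zero, norm_zero]
      positivity
  | succ k ih =>
    obtain ⟨A, B, e, hA, hB, hB'⟩ := ih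
    have hA1 : ‖(A : ℚ_[p])‖ ≤ 1 := by
      have := Padic.nonarchimedean ((A : ℚ_[p]) - 1) 1
      rw [sub_add_cancel, norm_one] at this
      exact this.trans (max_le (hA.trans hz) le_rfl)
    refine ⟨A + B * z * D, B + A * z, ?_, ?_, ?_, ?_⟩
    · rw [pow_succ, e]
      push_cast
      linear_combination (B : ℂ) * z * hth
    · have := Padic.nonarchimedean ((A : ℚ_[p]) - 1) (B * z * D)
      have e2 : ((A + B * z * D : ℚ) : ℚ_[p]) - 1 = (A : ℚ_[p]) - 1 + B * z * D := by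
        push_cast
        ring
      rw [e2]
      refine this.trans (max_le hA ?_)
      simp only [norm_mul, sq]
      gcongr
    · have := Padic.nonarchimedean ((B : ℚ_[p]) - (k : ℚ_[p]) * (z : ℚ_[p]))
        ((z : ℚ_[p]) * ((A : ℚ_[p]) - 1))
      have e2 : ((B + A * z : ℚ) : ℚ_[p]) - ((k + 1 : ℕ) : ℚ_[p]) * z =
          (B : ℚ_[p]) - k * z + z * (A - 1) := by
        push_cast
        ring
      rw [e2]
      refine this.trans (max_le hB ?_)
      rw [norm_mul]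
      gcongr
    · have := Padic.nonarchimedean (B : ℚ_[p]) ((A : ℚ_[p]) * z)
      push_cast
      refine this.trans (max_le hB' ?_)
      rw [norm_mul]
      exact mul_le_of_le_one_left (norm_nonneg _) hA1

theorem norm_eq_one_star {x : ℚ_[p]} (h : ‖x - 1‖ < 1) : ‖x‖ = 1 := by
  have := Padic.add_eq_max_of_ne (q := x - 1) (r := 1) (by rw [norm_one]; exact h.ne)
  rw [sub_add_cancel, norm_one] at this
  rw [this]
  exact max_eq_right h.le

/-- One step of the approximation by `M`-th powers. -/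
theorem ball_step {M : ℕ} (hM : 0 < M) {D : ℤ} (hD : D < 0) {y : ℚ}
    (hy : ‖(y : ℚ_[p]) ^ 2 * D‖ ≤ ‖(M : ℚ_[p])‖ ^ 3 / p) :
    ∃ (t : ℂ) (l y' : ℚ), InK D t ∧ l ≠ 0 ∧ ‖(y' : ℚ_[p])‖ ≤ ‖(y : ℚ_[p])‖ / p ∧
      1 + y * th D = t ^ M * (l * (1 + y' * th D)) := by
  have hp : (1 : ℝ) < p := by exact_mod_cast (Fact.out : p.Prime).one_lt
  have hM0 : (M : ℚ_[p]) ≠ 0 := by exact_mod_cast hM.ne'
  have hμ : 0 < ‖(M : ℚ_[p])‖ := norm_pos_iff.2 hM0
  have hμ1 : ‖(M : ℚ_[p])‖ ≤ 1 := by simpa using Padic.norm_int_le_one (p := p) M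
  have hz : ((y / M : ℚ) : ℚ_[p]) = y / M := by push_cast; rfl
  have hzn : ‖((y / M : ℚ) : ℚ_[p])‖ = ‖(y : ℚ_[p])‖ / ‖(M : ℚ_[p])‖ := by rw [hz, norm_div]
  have hε : ‖((y / M : ℚ) : ℚ_[p]) ^ 2 * D‖ ≤ ‖(M : ℚ_[p])‖ / p := by
    have : ‖((y / M : ℚ) : ℚ_[p]) ^ 2 * D‖ = ‖(y : ℚ_[p]) ^ 2 * D‖ / ‖(M : ℚ_[p])‖ ^ 2 := by
      rw [hz, ← norm_pow, ← norm_div]
      congr 1
      field_simp
    rw [this, div_le_iff₀ (by positivity)]
    refine hy.trans (le_of_eq ?_)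
    ring
  have hε1 : ‖((y / M : ℚ) : ℚ_[p]) ^ 2 * D‖ < 1 := by
    refine hε.trans_lt ?_
    rw [div_lt_one (by linarith)]
    linarith
  obtain ⟨A, B, e, hA, hB, hB'⟩ := pow_est_star p hD hε1.le M
  have hMz : (M : ℚ_[p]) * ((y / M : ℚ) : ℚ_[p]) = y := by rw [hz]; field_simp
  rw [hMz] at hB
  have hyz : ‖(y : ℚ_[p])‖ ≤ ‖((y / M : ℚ) : ℚ_[p])‖ := by
    rw [hzn, le_div_iff₀ hμ]
    exact mul_le_of_le_one_right (norm_nonneg _) hμ1
  have hA0 : A ≠ 0 := by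
    rintro rfl
    have := hA.trans_lt hε1
    simp at this
  have hN := norm_ne_zero_star hD (b := B) (Or.inl hA0)
  have hE : ‖((A - y * B * D : ℚ) : ℚ_[p])‖ = 1 := by
    apply norm_eq_one_star
    have := Padic.nonarchimedean ((A : ℚ_[p]) - 1) (-(y * B * D))
    have e2 : ((A - y * B * D : ℚ) : ℚ_[p]) - 1 = (A : ℚ_[p]) - 1 + -(y * B * D) := by
      push_cast
      ring
    rw [e2]
    refine (this.trans (max_le hA ?_)).trans_lt hε1
    simp only [norm_neg, norm_mul, sq]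
    gcongr
  have hE0 : A - y * B * D ≠ 0 := by
    intro h0
    rw [h0] at hE
    simp at hE
  refine ⟨1 + ((y / M : ℚ) : ℂ) * th D, (A - y * B * D) / (A ^ 2 - B ^ 2 * D),
    (y * A - B) / (A - y * B * D), inK_one_add hD _, div_ne_zero hE0 hN, ?_, ?_⟩
  · rw [Rat.cast_div, norm_div, hE, div_one]
    have := Padic.nonarchimedean ((y : ℚ_[p]) * ((A : ℚ_[p]) - 1))
      (-((B : ℚ_[p]) - (y : ℚ_[p])))
    have e2 : ((y * A - B : ℚ) : ℚ_[p]) = (y : ℚ_[p]) * (A - 1) + -(B - y) := by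
      push_cast
      ring
    rw [e2]
    have h3 : ‖((y / M : ℚ) : ℚ_[p])‖ * ‖((y / M : ℚ) : ℚ_[p]) ^ 2 * D‖ ≤ ‖(y : ℚ_[p])‖ / p := by
      calc _ ≤ ‖(y : ℚ_[p])‖ / ‖(M : ℚ_[p])‖ * (‖(M : ℚ_[p])‖ / p) := by
            rw [hzn]
            gcongr
        _ = _ := by field_simp
    refine (this.trans (max_le ?_ ?_)).trans h3
    · rw [norm_mul]
      gcongr
    · rwa [norm_neg]
  · rw [e]
    have hth := th_sq hD.le
    have hN' : (A : ℂ) ^ 2 - (B : ℂ) ^ 2 * D ≠ 0 := by exact_mod_cast hN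
    have hE' : (A : ℂ) - y * B * D ≠ 0 := by exact_mod_cast hE0
    push_cast
    field_simp
    linear_combination -(B : ℂ) * (y * A - B) * hth

/-- A multiplicatively closed set that contains the rationals, a small ball and all `M`-th powers
contains a large ball. -/
theorem ball_gen {M : ℕ} (hM : 0 < M) : ∃ c : ℕ, ∀ (D : ℤ), D < 0 → ∀ (H : ℂ → Prop) (f : ℕ), 0 < f →
    (∀ t t', InK D t → InK D t' → H t → H t' → H (t * t')) → (∀ a : ℚ, a ≠ 0 → H a) →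
    (∀ y : ℚ, ‖(y : ℚ_[p])‖ ≤ ‖(f : ℚ_[p])‖ → ‖(y : ℚ_[p]) ^ 2 * D‖ < 1 → H (1 + y * th D)) →
    (∀ t, InK D t → H (t ^ M)) →
    ∀ y : ℚ, ‖(y : ℚ_[p]) ^ 2 * D‖ ≤ (p : ℝ) ^ (-(c : ℤ)) → H (1 + y * th D) := by
  have hp : (1 : ℝ) < p := by exact_mod_cast (Fact.out : p.Prime).one_lt
  have hM0 : (M : ℚ_[p]) ≠ 0 := by exact_mod_cast hM.ne'
  have hμ : 0 < ‖(M : ℚ_[p])‖ := norm_pos_iff.2 hM0
  have hμ1 : ‖(M : ℚ_[p])‖ ≤ 1 := by simpa using Padic.norm_int_le_one (p := p) M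
  obtain ⟨c, hc⟩ := exists_pow_lt_of_lt_one (x := ‖(M : ℚ_[p])‖ ^ 3 / p) (y := (p : ℝ)⁻¹)
    (by positivity) (inv_lt_one_of_one_lt₀ hp)
  rw [inv_pow, ← zpow_natCast, ← zpow_neg] at hc
  have h1 : ‖(M : ℚ_[p])‖ ^ 3 / p < 1 := by
    rw [div_lt_one (by linarith)]
    exact (pow_le_one₀ hμ.le hμ1).trans_lt hp
  refine ⟨c, fun D hD H f hf hmul hrat hball hpow => ?_⟩
  have key : ∀ (l : ℕ) (y : ℚ), ‖(y : ℚ_[p])‖ ≤ ‖(f : ℚ_[p])‖ * p ^ l →
      ‖(y : ℚ_[p]) ^ 2 * D‖ ≤ (p : ℝ) ^ (-(c : ℤ)) → H (1 + y * th D) := by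
    intro l
    induction l with
    | zero => exact fun y h h' => hball y (by simpa using h) (h'.trans_lt (hc.trans h1))
    | succ l ih =>
      intro y h h'
      obtain ⟨t, a, y', ht, ha, hy', e⟩ := ball_step p hM hD (h'.trans hc.le)
      have h2 : ‖(y' : ℚ_[p])‖ ≤ ‖(y : ℚ_[p])‖ :=
        hy'.trans (div_le_self (norm_nonneg _) hp.le)
      have h3 : H (1 + y' * th D) := by
        refine ih y' (hy'.trans ?_) (le_trans ?_ h')
        · rw [div_le_iff₀ (by linarith), mul_assoc, ← pow_succ]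
          exact h
        · simp only [norm_mul, norm_pow]
          gcongr
      rw [e]
      exact hmul _ _ (ht.pow_star hD M) ((inK_rat_star D ha).mul hD (inK_one_add hD _))
        (hpow t ht) (hmul _ _ (inK_rat_star D ha) (inK_one_add hD _) (hrat a ha) h3)
  intro y hy
  have hf0 : 0 < ‖(f : ℚ_[p])‖ := norm_pos_iff.2 (by exact_mod_cast hf.ne')
  obtain ⟨l, hl⟩ := pow_unbounded_of_one_lt (‖(y : ℚ_[p])‖ / ‖(f : ℚ_[p])‖) hp
  refine key l y ?_ hy
  rw [div_lt_iff₀ hf0, mul_comm] at hl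
  exact hl.le

end Pool.Agent.EQ
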