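import Pool.Agent.P.MP_ad7a55_nt.GalB
import Pool.Agent.P.MP_ad7a55_nt.Star

/-! The Galois group moves CM points along p-adic balls. -/

set_option autoImplicit false

noncomputable section

open MeasureTheory Topology Filter UpperHalfPlane
open scoped MatrixGroups ENNReal BoundedContinuousFunction

namespace Pool.Agent.EQ

variable (p : ℕ) [Fact p.Prime]

/-- Two discriminants of the same field. -/
theorem exists_ratio {D D₀ : ℤ} (hD : D < 0) (hD₀ : D₀ < 0) (h : IsSquare (D * D₀)) :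
    ∃ ρ : ℚ, 0 < ρ ∧ ρ ^ 2 * D = D₀ ∧ th D₀ = ρ * th D := by
  obtain ⟨s, hs⟩ := h
  have hs0 : s ≠ 0 := by
    rintro rfl
    have := mul_pos_of_neg_of_neg hD hD₀
    omega
  have hDq : (D : ℚ) < 0 := by exact_mod_cast hD
  have hsq : (D : ℚ) * D₀ = (s : ℚ) * s := by exact_mod_cast hs
  have hsq0 : (s : ℚ) ≠ 0 := by exact_mod_cast hs0
  have hpos : 0 < |(s : ℚ)| / (-D) := div_pos (abs_pos.2 hsq0) (by linarith)
  have hrho : (|(s : ℚ)| / (-D)) ^ 2 * D = D₀ := by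
    rw [div_pow, sq_abs]
    have : (D : ℚ) ≠ 0 := hDq.ne
    field_simp
    linear_combination -hsq
  refine ⟨|(s : ℚ)| / (-D), hpos, hrho, ?_⟩
  generalize |(s : ℚ)| / (-D) = ρ at hpos hrho
  have h1 : (-(D₀ : ℝ)) = (ρ : ℝ) ^ 2 * (-(D : ℝ)) := by
    have : ((ρ ^ 2 * D : ℚ) : ℝ) = ((D₀ : ℚ) : ℝ) := by rw [hrho]
    push_cast at this
    linarith
  have h2 : (0 : ℝ) ≤ ρ := by exact_mod_cast hpos.le
  unfold th
  rw [h1, Real.sqrt_mul (sq_nonneg _), Real.sqrt_sq h2]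
  push_cast
  ring

/-- The ratio times a multiple of `D` is a natural number. -/
theorem cm_ratio_nat {D D₀ : ℤ} {ρ : ℚ} (hρ : 0 < ρ) (h : ρ ^ 2 * D = D₀) {f : ℕ}
    (hf : 0 < f) (hDf : D ∣ f) : ∃ g : ℕ, 0 < g ∧ (g : ℚ) = f * ρ := by
  obtain ⟨k, hk⟩ := hDf
  have h1 : (ρ * D) ^ 2 = ((D * D₀ : ℤ) : ℚ) := by push_cast; rw [← h]; ring
  have h2 : (ρ * D).den = 1 := by
    have := congrArg Rat.den h1
    rw [Rat.den_pow, Rat.den_intCast] at this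
    exact (pow_eq_one_iff.1 this).resolve_right (by norm_num)
  obtain ⟨s, hs⟩ : ∃ s : ℤ, (s : ℚ) = ρ * D := ⟨(ρ * D).num, by
    conv_rhs => rw [← Rat.num_div_den (ρ * D), h2]
    simp⟩
  have hkq : (f : ℚ) = D * k := by exact_mod_cast hk
  have h3 : ((s * k : ℤ) : ℚ) = f * ρ := by push_cast; rw [hs, hkq]; ring
  have h4 : 0 < s * k := by
    have : (0 : ℚ) < ((s * k : ℤ) : ℚ) := by
      rw [h3]; exact mul_pos (by exact_mod_cast hf) hρ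
    exact_mod_cast this
  refine ⟨(s * k).toNat, by omega, ?_⟩
  rw [← h3]
  have : (((s * k).toNat : ℕ) : ℤ) = s * k := Int.toNat_of_nonneg h4.le
  exact_mod_cast this

theorem cm_inK_ratio {D D₀ : ℤ} {ρ : ℚ} (h : th D₀ = ρ * th D) {t : ℂ} (ht : InK D₀ t) :
    InK D t := by
  obtain ⟨h0, a, b, e⟩ := ht
  refine ⟨h0, a, b * ρ, ?_⟩
  rw [e, h]; push_cast; ring

theorem cm_inK_sq {D : ℤ} {f : ℕ} (hf : 0 < f) {t : ℂ} (ht : InK D t) : InK (f ^ 2 * D) t := by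
  refine cm_inK_ratio (ρ := 1 / f) ?_ ht
  have : (f : ℂ) ≠ 0 := by exact_mod_cast hf.ne'
  rw [th_mul_sq]; push_cast; field_simp

theorem cm_inK_pow {D : ℤ} (hD : D < 0) {t : ℂ} (ht : InK D t) (n : ℕ) : InK D (t ^ n) := by
  induction n with
  | zero => exact ⟨by simp, 1, 0, by simp⟩
  | succ n ih => rw [pow_succ]; exact ih.mul hD ht

theorem cm_isD_sq {D : ℤ} (hD : IsD D) {f : ℕ} (hf : 0 < f) : IsD (f ^ 2 * D) := by
  refine ⟨mul_neg_of_pos_of_neg (by positivity) hD.1, ?_⟩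
  have h1 : (f : ℤ) ^ 2 % 4 = 0 ∨ (f : ℤ) ^ 2 % 4 = 1 := by
    rcases Int.emod_two_eq_zero_or_one f with h | h
    · obtain ⟨k, hk⟩ := Int.dvd_of_emod_eq_zero h
      left
      rw [hk, show (2 * k) ^ 2 = 4 * k ^ 2 by ring]
      exact Int.mul_emod_right _ _
    · exact Or.inr (Int.sq_mod_four_eq_one_of_odd (Int.odd_iff.2 h))
  rcases h1 with h1 | h1 <;> rcases hD.2 with h2 | h2 <;> simp [Int.mul_emod, h1, h2]

theorem cm_not_sq {D D₀ : ℤ} {f : ℕ} (hf : 0 < f) (h : ¬ IsSquare (D * D₀)) :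
    ¬ IsSquare (D * (f ^ 2 * D₀)) := by
  rintro ⟨s, hs⟩
  have h1 : (f : ℤ) ^ 2 ∣ s ^ 2 := ⟨D * D₀, by rw [sq s, ← hs]; ring⟩
  obtain ⟨k, rfl⟩ := (Int.pow_dvd_pow_iff (by norm_num)).1 h1
  refine h ⟨k, mul_left_cancel₀ (show (f : ℤ) ^ 2 ≠ 0 by positivity) ?_⟩
  linear_combination hs

theorem cm_main (F : IntermediateField ℚ ℂ) [FiniteDimensional ℚ F] (n : ℕ) : ∃ c : ℕ,
    ∀ 𝒟 : Finset ℤ, 𝒟.card ≤ n → (∀ D ∈ 𝒟, D < -576 ∧ IsD D) → ∀ D₀ ∈ 𝒟, ∀ y : ℚ,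
      ‖(y : ℚ_[p]) ^ 2 * D₀‖ ≤ (p : ℝ) ^ (-(c : ℤ)) → ∃ σ : ℂ ≃+* ℂ, (∀ a ∈ F, σ a = a) ∧
        ∀ D ∈ 𝒟, ∀ Λ, DiscL Λ D → (IsSquare (D * D₀) → σ (jL Λ) = jL (star p (1 + y * th D₀) Λ)) ∧
          (¬ IsSquare (D * D₀) → σ (jL Λ) = jL Λ) := by
  classical
  set d : ℕ := max 2 (Module.finrank ℚ F) with hd
  have hd2 : 2 ≤ d := le_max_left _ _
  have hdF : Module.finrank ℚ F ≤ d := le_max_right _ _
  have hM : 0 < d.factorial * 2 ^ n := Nat.mul_pos d.factorial_pos (by positivity)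
  obtain ⟨c, hc⟩ := ball_gen p hM
  refine ⟨c, fun 𝒟 hcard h𝒟 D₀ hD₀ y hy => ?_⟩
  have hneg : ∀ D ∈ 𝒟, D < 0 := fun D hD => (h𝒟 D hD).2.1
  have h0 : D₀ < 0 := hneg D₀ hD₀
  set f : ℕ := (∏ D ∈ 𝒟, D).natAbs with hf
  have hf0 : 0 < f := Int.natAbs_pos.2 (Finset.prod_ne_zero_iff.2 fun D hD => (hneg D hD).ne)
  have hdvd : ∀ D ∈ 𝒟, D ∣ (f : ℤ) := fun D hD =>
    Int.dvd_natAbs.2 (Finset.dvd_prod_of_mem (fun D : ℤ => D) hD)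
  refine hc D₀ h0 (fun t => ∃ σ : ℂ ≃+* ℂ, (∀ a ∈ F, σ a = a) ∧
    ∀ D ∈ 𝒟, ∀ Λ, DiscL Λ D → (IsSquare (D * D₀) → σ (jL Λ) = jL (star p t Λ)) ∧
      (¬ IsSquare (D * D₀) → σ (jL Λ) = jL Λ)) f hf0 ?_ ?_ ?_ ?_ y hy
  · rintro t t' ht ht' ⟨σ, hσF, hσ⟩ ⟨σ', hσF', hσ'⟩
    refine ⟨σ'.trans σ, fun a ha => by simp [hσF a ha, hσF' a ha], fun D hD Λ hΛ => ⟨fun hsq => ?_,
      fun hsq => ?_⟩⟩
    · obtain ⟨ρ, -, -, hρ⟩ := exists_ratio (hneg D hD) h0 hsq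
      have h1 := cm_inK_ratio hρ ht
      have h2 := cm_inK_ratio hρ ht'
      rw [RingEquiv.trans_apply, (hσ' D hD Λ hΛ).1 hsq,
        (hσ D hD _ (discL_star p hΛ h2)).1 hsq, star_mul p hΛ h1 h2]
    · rw [RingEquiv.trans_apply, (hσ' D hD Λ hΛ).2 hsq, (hσ D hD Λ hΛ).2 hsq]
  · intro a ha
    refine ⟨RingEquiv.refl ℂ, fun _ _ => rfl, fun D _ Λ hΛ => ⟨fun _ => ?_, fun _ => rfl⟩⟩
    obtain ⟨b, hb, e⟩ := star_rat p ha Λ
    rw [e, jL_pr_mul hΛ.isLat hb]; rfl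
  · intro z hz hz'
    refine ⟨RingEquiv.refl ℂ, fun _ _ => rfl, fun D hD Λ hΛ => ⟨fun hsq => ?_, fun _ => rfl⟩⟩
    obtain ⟨ρ, hρ0, hρ1, hρ⟩ := exists_ratio (hneg D hD) h0 hsq
    obtain ⟨g, -, hg⟩ := cm_ratio_nat hρ0 hρ1 hf0 (hdvd D hD)
    have e : 1 + (z : ℂ) * th D₀ = 1 + ((z * ρ : ℚ) : ℂ) * th D := by
      rw [hρ]; push_cast; ring
    rw [e, star_triv p hΛ]
    · rfl
    · have h1 : (g : ℚ_[p]) = f * ρ := by exact_mod_cast congrArg (fun x : ℚ => (x : ℚ_[p])) hg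
      have h2 : ‖(g : ℚ_[p])‖ ≤ 1 := by simpa using Padic.norm_int_le_one (p := p) (g : ℤ)
      push_cast
      rw [h1, norm_mul] at h2
      rw [norm_mul]
      exact (mul_le_mul_of_nonneg_right hz (norm_nonneg _)).trans h2
    · have h1 : (ρ : ℚ_[p]) ^ 2 * D = D₀ := by
        exact_mod_cast congrArg (fun x : ℚ => (x : ℚ_[p])) hρ1
      push_cast
      rwa [mul_pow, mul_assoc, h1]
  · intro t ht
    set T : Finset ℤ := 𝒟.filter fun D => ¬ IsSquare (D * D₀) with hT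
    have hTn : T.card ≤ n := (Finset.card_filter_le _ _).trans hcard
    have hDs : IsD (f ^ 2 * D₀) := cm_isD_sq (h𝒟 D₀ hD₀).2 hf0
    have hDs' : (f : ℤ) ^ 2 * D₀ < -576 := by
      have h1 : (1 : ℤ) ≤ (f : ℤ) ^ 2 := one_le_pow₀ (by exact_mod_cast hf0)
      have h2 := (h𝒟 D₀ hD₀).1
      nlinarith
    have ht' : InK (f ^ 2 * D₀) (t ^ 2 ^ (n - T.card)) := cm_inK_sq hf0 (cm_inK_pow h0 ht _)
    have htM : InK (f ^ 2 * D₀) (t ^ (d.factorial * 2 ^ n)) := cm_inK_sq hf0 (cm_inK_pow h0 ht _)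
    obtain ⟨σ, hσ, hact, hfix⟩ := realize hd2 hDs' T (fun D' hD' => by
      obtain ⟨h1, h2⟩ := Finset.mem_filter.1 hD'
      exact ⟨(h𝒟 D' h1).1, (h𝒟 D' h1).2, cm_not_sq hf0 h2⟩) (discL_star p (discL_OD hDs) ht')
    obtain ⟨k, hk⟩ : ∃ k, d.factorial * 2 ^ T.card = k + 1 :=
      Nat.exists_eq_succ_of_ne_zero (Nat.mul_pos d.factorial_pos (by positivity)).ne'
    have hexp : 2 ^ (n - T.card) * (k + 1) = d.factorial * 2 ^ n := by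
      rw [← hk, mul_left_comm, ← pow_add, Nat.sub_add_cancel hTn]
    rw [hk, star_pow p hDs ht', ← pow_mul, hexp] at hact
    refine ⟨σ, hσ.field F hdF, fun D hD Λ hΛ => ⟨fun hsq => ?_,
      fun hsq => hfix D (Finset.mem_filter.2 ⟨hD, hsq⟩) Λ hΛ⟩⟩
    obtain ⟨ρ, hρ0, hρ1, hρ⟩ := exists_ratio (hneg D hD) h0 hsq
    obtain ⟨g, hg0, hg⟩ := cm_ratio_nat hρ0 hρ1 hf0 (hdvd D hD)
    have e : (f : ℤ) ^ 2 * D₀ = (g : ℤ) ^ 2 * D := by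
      have : ((f : ℚ)) ^ 2 * D₀ = (g : ℚ) ^ 2 * D := by rw [hg, ← hρ1]; ring
      exact_mod_cast this
    have h𝔨 := discL_star p (discL_OD hDs) htM
    have hle : OD (f ^ 2 * D₀) ≤ OD D := by rw [e]; exact OD_sq_le (h𝒟 D hD).2 g
    have hup : Acts σ D (star p (t ^ (d.factorial * 2 ^ n)) (OD (f ^ 2 * D₀))) :=
      Acts.up (h𝒟 D hD).1 (h𝒟 D hD).2 (hσ.th hd2 (hneg D hD).le) hg0 (e ▸ h𝔨) (e ▸ hact)
    rw [hup Λ hΛ, star_OD_mul p hDs hΛ hle htM]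

end Pool.Agent.EQ
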