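import Pool.Agent.P.MP_ad7a55_nt.Vol2
import Pool.Agent.P.MP_ad7a55_nt.CtA

/-! Counting integral ideals. -/

set_option autoImplicit false

noncomputable section

open MeasureTheory Topology Filter UpperHalfPlane
open scoped MatrixGroups ENNReal BoundedContinuousFunction

namespace Pool.Agent.EQ

theorem ctB_sqrt_pos {D : ℤ} (hD : D < 0) : 0 < Real.sqrt (-(D : ℝ)) := by
  have : (D : ℝ) < 0 := by exact_mod_cast hD
  exact Real.sqrt_pos.2 (by linarith)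

theorem ctB_nm {D : ℤ} (hD : D < 0) {m a : ℕ} (hm : 0 < m) (ha : 0 < a) (b : ℕ) :
    nm D (pr m * sp a ((b + th D) / 2)) = (m : ℝ) ^ 2 * a := by
  have hs := ctB_sqrt_pos hD
  have ha' : (0 : ℝ) < a := by exact_mod_cast ha
  have hm' : (m : ℂ) ≠ 0 := by exact_mod_cast hm.ne'
  have e : (starRingEnd ℂ (a : ℂ) * ((b + th D) / 2)).im = a * (Real.sqrt (-(D : ℝ)) / 2) := by
    simp [ord2_th_im]
  obtain ⟨h1, h2⟩ := vol_sp' (a := a) (b := (b + th D) / 2) (by rw [e]; positivity)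
  rw [nm_pr_mul h1 D hm', nm, h2, e, abs_of_pos (by positivity), Complex.normSq_natCast]
  field_simp

theorem ctB_pre {D : ℤ} {𝔞 : Lt} (h : DiscL 𝔞 D) (hle : 𝔞 ≤ OD D) : ∃ (m a : ℕ) (B : ℤ), 0 < m ∧
    0 < a ∧ (4 * a : ℤ) ∣ B ^ 2 - D ∧ 𝔞 = pr m * sp a ((B + th D) / 2) := by
  have hD := h.isD
  have hs := ctB_sqrt_pos hD.1
  let τ : ℍ := ⟨(D + th D) / 2, by simpa [ord2_th_im] using hs⟩
  have hτ : (τ : ℂ) = (D + th D) / 2 := rfl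
  have hO : OD D = sp 1 (1 * τ) := by rw [one_mul]; rfl
  obtain ⟨N, hN, -, hN'⟩ := exists_index (discL_OD hD).isLat h.isLat hle
  obtain ⟨A, d, b, hA, hd, -, -, -, -, e⟩ := hnf one_ne_zero τ hN (hO ▸ hN') (hO ▸ hle)
  rw [mul_one, one_mul] at e
  obtain ⟨k, hk⟩ : ∃ k : ℤ, D ^ 2 - D = 4 * k := by
    rcases hD.2 with h4 | h4
    · obtain ⟨l, rfl⟩ : ∃ l, D = 4 * l := ⟨D / 4, by omega⟩
      exact ⟨4 * l ^ 2 - l, by ring⟩
    · obtain ⟨l, rfl⟩ : ∃ l, D = 4 * l + 1 := ⟨D / 4, by omega⟩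
      exact ⟨4 * l ^ 2 + l, by ring⟩
  have hk' : (D : ℂ) ^ 2 - D = 4 * k := by exact_mod_cast hk
  have hsq : (τ : ℂ) ^ 2 = D * τ - k := by
    rw [hτ]
    linear_combination (1 / 4 : ℂ) * th_sq hD.1.le - (1 / 4 : ℂ) * hk'
  have hend := pr_mul_le.1 ((h.end_iff τ).2 (ord_right _ _))
  rw [e] at hend
  obtain ⟨m₁, n₁, h1⟩ := mem_sp.1 (hend _ (ord_left _ _))
  obtain ⟨m₂, n₂, h2⟩ := mem_sp.1 (hend _ (ord_right _ _))
  obtain ⟨-, h3⟩ := ord_indep τ (m := m₁ * A + n₁ * b) (n := n₁ * d - A) (by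
    push_cast
    linear_combination -h1)
  obtain ⟨h4, h5⟩ := ord_indep τ (m := m₂ * A + n₂ * b + d * k) (n := n₂ * d - d * D - b) (by
    push_cast
    linear_combination -h2 + d * hsq)
  have hd' : (0 : ℤ) < d := by exact_mod_cast hd
  have hA' : (0 : ℤ) < A := by exact_mod_cast hA
  have hn : 0 < n₁ := by
    by_contra hn
    have := mul_nonpos_of_nonpos_of_nonneg (not_lt.1 hn) hd'.le
    linarith
  obtain ⟨a, rfl⟩ := Int.eq_ofNat_of_zero_le hn.le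
  have h6 : m₂ * a + n₂ * (n₂ - D) + k = 0 := by
    apply mul_left_cancel₀ hd'.ne'
    linear_combination h4 + m₂ * h3 + n₂ * h5
  refine ⟨d, a, 2 * n₂ - D, hd, by exact_mod_cast hn, ⟨-m₂, by linear_combination 4 * h6 + hk⟩, ?_⟩
  have h3' : (a : ℂ) * d - A = 0 := by exact_mod_cast h3
  have h5' : (n₂ : ℂ) * d - d * D - b = 0 := by exact_mod_cast h5
  have e1 : (A : ℂ) = d * a := by linear_combination -h3'
  have e2 : (d : ℂ) * τ + b = d * (((2 * n₂ - D : ℤ) + th D) / 2) := by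
    rw [hτ]
    push_cast
    linear_combination -h5'
  rw [e, pr_mul_sp, e1, e2]

/-- The shape of an integral ideal. -/
theorem Idl.shape {D : ℤ} {n : ℕ} {𝔞 : Lt} (h : 𝔞 ∈ Idl D n) : ∃ (m a b : ℕ), 0 < m ∧ 0 < a ∧
    n = m ^ 2 * a ∧ b < 4 * a ∧ ((4 * a : ℕ) : ℤ) ∣ (b : ℤ) ^ 2 - D ∧
      𝔞 = pr m * sp a ((b + th D) / 2) := by
  obtain ⟨h1, h2, h3⟩ := h
  obtain ⟨m, a, B, hm, ha, ⟨c, hc⟩, e⟩ := ctB_pre h1 h2
  have ha' : (0 : ℤ) < 2 * a := by positivity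
  obtain ⟨b, hb⟩ := Int.eq_ofNat_of_zero_le (Int.emod_nonneg B ha'.ne')
  have hlt := Int.emod_lt_of_pos B ha'
  have hB := Int.emod_add_mul_ediv B (2 * a)
  rw [hb] at hlt hB
  generalize B / (2 * a) = q at hB
  subst hB
  have e' : 𝔞 = pr m * sp a ((b + th D) / 2) := by
    have e1 : (((b + 2 * a * q : ℤ) : ℂ) + th D) / 2 = (b + th D) / 2 + q * (a : ℂ) := by
      push_cast
      ring
    rw [e, e1, ord_sp_add]
  refine ⟨m, a, b, hm, ha, ?_, by omega, ⟨c - q * (b + a * q), ?_⟩, e'⟩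
  · rw [e', ctB_nm h1.isD.1 hm ha] at h3
    exact_mod_cast h3.symm
  · push_cast
    linear_combination hc

/-- The parameters of integral ideals. -/
def ctBS (D : ℤ) (n : ℕ) : Finset (Σ _ : ℕ, ℕ) :=
  n.divisors.sigma fun a =>
    (Finset.range (4 * a)).filter fun b : ℕ => ((4 * a : ℕ) : ℤ) ∣ (b : ℤ) ^ 2 - D

theorem ctB_sub (D : ℤ) (n : ℕ) : Idl D n ⊆ (fun x : Σ _ : ℕ, ℕ =>
    pr (Nat.sqrt (n / x.1) : ℕ) * sp x.1 ((x.2 + th D) / 2)) '' (ctBS D n) := by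
  intro 𝔞 h
  obtain ⟨m, a, b, hm, ha, rfl, hb, hd, rfl⟩ := Idl.shape h
  refine ⟨⟨a, b⟩, ?_, ?_⟩
  · rw [Finset.mem_coe, ctBS, Finset.mem_sigma, Nat.mem_divisors, Finset.mem_filter,
      Finset.mem_range]
    exact ⟨⟨Dvd.intro_left _ rfl, by positivity⟩, hb, hd⟩
  · simp only [Nat.mul_div_cancel _ ha, Nat.sqrt_eq']

theorem Idl_finite (D : ℤ) (n : ℕ) : (Idl D n).Finite :=
  ((ctBS D n).finite_toSet.image _).subset (ctB_sub D n)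

theorem card_Idl_le {D : ℤ} {n : ℕ} (hn : 0 < n) {H : ℕ}
    (hH : ∀ h : ℕ, h ^ 2 ∣ 4 * n → (h : ℤ) ^ 2 ∣ 4 * D → h ≤ H) :
    (Idl D n).ncard ≤ (4 * n).divisors.card ^ 2 * H := by
  have h4 : 4 * n ≠ 0 := by omega
  have h1 : (Idl D n).ncard ≤ (ctBS D n).card := by
    refine (Set.ncard_le_ncard (ctB_sub D n) ((ctBS D n).finite_toSet.image _)).trans ?_
    refine (Set.ncard_image_le (ctBS D n).finite_toSet).trans ?_
    rw [Set.ncard_coe_finset]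
  refine h1.trans ?_
  rw [ctBS, Finset.card_sigma]
  have h2 := Finset.sum_le_card_nsmul n.divisors (fun a => ((Finset.range (4 * a)).filter
    fun b : ℕ => ((4 * a : ℕ) : ℤ) ∣ (b : ℤ) ^ 2 - D).card) ((4 * n).divisors.card * H)
    fun a ha => by
      have hd : 4 * a ∣ 4 * n := Nat.mul_dvd_mul_left 4 (Nat.dvd_of_mem_divisors ha)
      have ha0 : 0 < 4 * a := Nat.pos_of_dvd_of_pos hd (by omega)
      refine (roots_le ha0 D fun h hh => hH h (hh.trans hd)).trans ?_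
      exact Nat.mul_le_mul_right _ (Finset.card_le_card (Nat.divisors_subset_of_dvd h4 hd))
  refine h2.trans ?_
  rw [smul_eq_mul, sq, mul_assoc]
  exact Nat.mul_le_mul_right _
    (Finset.card_le_card (Nat.divisors_subset_of_dvd h4 (Dvd.intro_left 4 rfl)))

theorem card_Idl_sum (p : ℕ) [Fact p.Prime] {D : ℤ} (hD : D < 0) {n : ℕ} (hn : 0 < n) :
    ((Idl D n).ncard : ℝ) * Real.sqrt ‖(D : ℚ_[p])‖ ≤ 2 * ((4 * n).divisors.card : ℝ) ^ 2 *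
      ∑ h ∈ (Hs p D).filter (fun h => h ^ 2 ∣ 4 * n), (h : ℝ) := by
  have h4 : 4 * n ≠ 0 := by omega
  obtain ⟨H, hH, hmax⟩ := Finset.exists_max_image
    ((4 * n).divisors.filter fun h : ℕ => h ^ 2 ∣ 4 * n ∧ (h : ℤ) ^ 2 ∣ 4 * D) id
    ⟨1, by simp [hn.ne']⟩
  obtain ⟨-, hH1, hH2⟩ := Finset.mem_filter.1 hH
  have h1 : (Idl D n).ncard ≤ (4 * n).divisors.card ^ 2 * H := card_Idl_le hn fun h h1 h2 =>
    hmax h (Finset.mem_filter.2 ⟨Nat.mem_divisors.2 ⟨(dvd_pow_self h two_ne_zero).trans h1, h4⟩,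
      h1, h2⟩)
  have h2 : ((Idl D n).ncard : ℝ) ≤ ((4 * n).divisors.card : ℝ) ^ 2 * H := by exact_mod_cast h1
  obtain ⟨h', hh, hh1, hh2⟩ := exists_Hs p hD.ne hH1 hH2
  have h3 : (h' : ℝ) ≤ ∑ h ∈ (Hs p D).filter (fun h => h ^ 2 ∣ 4 * n), (h : ℝ) :=
    Finset.single_le_sum (f := fun h : ℕ => (h : ℝ)) (fun i _ => Nat.cast_nonneg i)
      (Finset.mem_filter.2 ⟨hh, hh1⟩)
  calc _ ≤ ((4 * n).divisors.card : ℝ) ^ 2 * H * Real.sqrt ‖(D : ℚ_[p])‖ :=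
        mul_le_mul_of_nonneg_right h2 (Real.sqrt_nonneg _)
    _ = ((4 * n).divisors.card : ℝ) ^ 2 * (H * Real.sqrt ‖(D : ℚ_[p])‖) := by ring
    _ ≤ ((4 * n).divisors.card : ℝ) ^ 2 *
        (2 * ∑ h ∈ (Hs p D).filter (fun h => h ^ 2 ∣ 4 * n), (h : ℝ)) :=
        mul_le_mul_of_nonneg_left (by linarith) (sq_nonneg _)
    _ = _ := by ring

/-- Short vectors with a `p`-adic divisibility. -/
def Bad1 (p : ℕ) [Fact p.Prime] (C : ℝ) (D : ℤ) (z : ℂ) : Prop :=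
  ∃ n : ℕ, 0 < n ∧ (n : ℝ) ≤ C * Real.sqrt (-(D : ℝ)) ∧ ‖(n : ℚ_[p])‖ ≤ C * ‖(D : ℚ_[p])‖ ∧
    ∃ 𝔞 ∈ Idl D n, jL 𝔞 = z

theorem ctB_ncard_biUnion {α : Type*} (T : Finset ℕ) (f : ℕ → Set α) :
    (⋃ n ∈ T, f n).ncard ≤ ∑ n ∈ T, (f n).ncard := by
  classical
  induction T using Finset.induction_on with
  | empty => simp
  | insert a T ha ih =>
    rw [Finset.set_biUnion_insert, Finset.sum_insert ha]
    exact (Set.ncard_union_le _ _).trans (Nat.add_le_add_left ih _)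

theorem ctB_sum (p : ℕ) [Fact p.Prime] {D : ℤ} (hD : D < 0) {X t K : ℝ} (hX : 0 ≤ X) (ht : 0 ≤ t)
    (T : Finset ℕ) (hT : ∀ n ∈ T, 0 < n ∧ (n : ℝ) ≤ X ∧ ‖(n : ℚ_[p])‖ ≤ t)
    (hK : ∀ n ∈ T, ((4 * n).divisors.card : ℝ) ≤ K) :
    (∑ n ∈ T, ((Idl D n).ncard : ℝ)) * Real.sqrt ‖(D : ℚ_[p])‖ ≤
      2 * K ^ 2 * ((4 * D.natAbs).divisors.card * (4 * X * t)) := by
  have h1 : ∀ h ∈ Hs p D, ∑ n ∈ T, (if h ^ 2 ∣ 4 * n then (h : ℝ) else 0) ≤ 4 * X * t := by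
    intro h hh
    obtain ⟨hh1, hh2, -⟩ := Finset.mem_filter.1 hh
    have h0 : 0 < h := Nat.pos_of_mem_divisors hh1
    obtain ⟨hf, hc⟩ := card_mult p h0 hh2 hX ht
    have h2 : (T.filter fun n => h ^ 2 ∣ 4 * n).card ≤
        {n : ℕ | 0 < n ∧ (n : ℝ) ≤ X ∧ h ^ 2 ∣ 4 * n ∧ ‖(n : ℚ_[p])‖ ≤ t}.ncard := by
      rw [← Set.ncard_coe_finset]
      refine Set.ncard_le_ncard (fun n hn => ?_) hf
      obtain ⟨hn1, hn2⟩ := Finset.mem_filter.1 (Finset.mem_coe.1 hn)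
      exact ⟨(hT n hn1).1, (hT n hn1).2.1, hn2, (hT n hn1).2.2⟩
    have h3 : ((T.filter fun n => h ^ 2 ∣ 4 * n).card : ℝ) ≤
        {n : ℕ | 0 < n ∧ (n : ℝ) ≤ X ∧ h ^ 2 ∣ 4 * n ∧ ‖(n : ℚ_[p])‖ ≤ t}.ncard := by
      exact_mod_cast h2
    have h4 : (1 : ℝ) ≤ h := by exact_mod_cast h0
    rw [← Finset.sum_filter, Finset.sum_const, nsmul_eq_mul, mul_comm]
    refine le_trans ?_ hc
    exact mul_le_mul (by nlinarith) h3 (Nat.cast_nonneg _) (sq_nonneg _)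
  have h2 : ((Hs p D).card : ℝ) ≤ (4 * D.natAbs).divisors.card := by
    exact_mod_cast Finset.card_filter_le _ _
  calc _ = ∑ n ∈ T, ((Idl D n).ncard : ℝ) * Real.sqrt ‖(D : ℚ_[p])‖ := Finset.sum_mul _ _ _
    _ ≤ ∑ n ∈ T, 2 * K ^ 2 * ∑ h ∈ Hs p D, (if h ^ 2 ∣ 4 * n then (h : ℝ) else 0) := by
      refine Finset.sum_le_sum fun n hn => (card_Idl_sum p hD (hT n hn).1).trans ?_
      rw [← Finset.sum_filter]
      refine mul_le_mul_of_nonneg_right ?_ (Finset.sum_nonneg fun i _ => Nat.cast_nonneg i)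
      exact mul_le_mul_of_nonneg_left (pow_le_pow_left₀ (Nat.cast_nonneg _) (hK n hn) 2) two_pos.le
    _ = 2 * K ^ 2 * ∑ h ∈ Hs p D, ∑ n ∈ T, (if h ^ 2 ∣ 4 * n then (h : ℝ) else 0) := by
      rw [← Finset.mul_sum, Finset.sum_comm]
    _ ≤ 2 * K ^ 2 * ((Hs p D).card * (4 * X * t)) := by
      refine mul_le_mul_of_nonneg_left ?_ (by positivity)
      rw [← nsmul_eq_mul]
      exact Finset.sum_le_card_nsmul _ _ _ h1
    _ ≤ _ := by gcongr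

theorem ctB_bad (p : ℕ) [Fact p.Prime] {C : ℝ} (hC : 0 < C) {ε : ℝ} (hε : 0 < ε) :
    ∃ C' : ℝ, 0 < C' ∧
    ∀ D : ℤ, D < 0 → {z | Bad1 p C D z}.Finite ∧ ({z | Bad1 p C D z}.ncard : ℝ) ≤
      C' * (-(D : ℝ)) ^ (1 / 2 + ε) * Real.sqrt ‖(D : ℚ_[p])‖ := by
  classical
  obtain ⟨C₁, hC₁, hdiv⟩ := div_bound (ε := ε / 3) (by positivity)
  refine ⟨2 * (C₁ * (4 * C) ^ (ε / 3)) ^ 2 * (C₁ * 4 ^ (ε / 3) * (4 * C * C)), by positivity,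
    fun D hD => ?_⟩
  have hY : (1 : ℝ) ≤ -(D : ℝ) := by
    have : (1 : ℤ) ≤ -D := by omega
    exact_mod_cast this
  have hYa : (D.natAbs : ℝ) = -(D : ℝ) := by
    rw [Nat.cast_natAbs, abs_of_neg hD, Int.cast_neg]
  have hs : 0 < Real.sqrt ‖(D : ℚ_[p])‖ :=
    Real.sqrt_pos.2 (norm_pos_iff.2 (by exact_mod_cast hD.ne))
  have hs2 := Real.sq_sqrt (norm_nonneg (D : ℚ_[p]))
  have hq : Real.sqrt (-(D : ℝ)) ≤ -(D : ℝ) := Real.sqrt_le_iff.2 ⟨by linarith, by nlinarith⟩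
  have hq0 := Real.sqrt_nonneg (-(D : ℝ))
  let T : Finset ℕ := (Finset.range (⌊C * Real.sqrt (-(D : ℝ))⌋₊ + 1)).filter fun n =>
    0 < n ∧ (n : ℝ) ≤ C * Real.sqrt (-(D : ℝ)) ∧ ‖(n : ℚ_[p])‖ ≤ C * ‖(D : ℚ_[p])‖
  have hT : ∀ n ∈ T, 0 < n ∧ (n : ℝ) ≤ C * Real.sqrt (-(D : ℝ)) ∧
      ‖(n : ℚ_[p])‖ ≤ C * ‖(D : ℚ_[p])‖ := fun n hn => (Finset.mem_filter.1 hn).2
  have hsub : {z | Bad1 p C D z} ⊆ ⋃ n ∈ T, jL '' Idl D n := by
    rintro z ⟨n, h1, h2, h3, 𝔞, h4, h5⟩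
    refine Set.mem_biUnion (x := n) (Finset.mem_coe.2 ?_) ⟨𝔞, h4, h5⟩
    exact Finset.mem_filter.2 ⟨Finset.mem_range.2 (Nat.lt_succ_of_le (Nat.le_floor h2)), h1, h2, h3⟩
  have hfin : (⋃ n ∈ T, jL '' Idl D n).Finite :=
    T.finite_toSet.biUnion fun n _ => (Idl_finite D n).image _
  refine ⟨hfin.subset hsub, ?_⟩
  have h1 : {z | Bad1 p C D z}.ncard ≤ ∑ n ∈ T, (Idl D n).ncard :=
    (Set.ncard_le_ncard hsub hfin).trans ((ctB_ncard_biUnion T _).trans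
      (Finset.sum_le_sum fun n _ => Set.ncard_image_le (Idl_finite D n)))
  have h2 : ({z | Bad1 p C D z}.ncard : ℝ) ≤ ∑ n ∈ T, ((Idl D n).ncard : ℝ) := by
    exact_mod_cast h1
  have hK : ∀ n ∈ T, ((4 * n).divisors.card : ℝ) ≤
      C₁ * (4 * C) ^ (ε / 3) * (-(D : ℝ)) ^ (ε / 3) := fun n hn => by
    obtain ⟨h3, h4, -⟩ := hT n hn
    refine (hdiv (4 * n) (by omega)).trans ?_
    rw [mul_assoc, ← Real.mul_rpow (by positivity) (by linarith)]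
    refine mul_le_mul_of_nonneg_left (Real.rpow_le_rpow (Nat.cast_nonneg _) ?_ (by positivity))
      hC₁.le
    push_cast
    nlinarith
  have h3 := ctB_sum p hD (mul_nonneg hC.le hq0) (mul_nonneg hC.le (norm_nonneg _)) T hT hK
  have h4 : ((4 * D.natAbs).divisors.card : ℝ) ≤ C₁ * 4 ^ (ε / 3) * (-(D : ℝ)) ^ (ε / 3) := by
    refine (hdiv (4 * D.natAbs) (by omega)).trans ?_
    rw [mul_assoc, ← Real.mul_rpow (by positivity) (by linarith), Nat.cast_mul, hYa]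
    norm_num
  have h5 : (-(D : ℝ)) ^ (1 / 2 + ε) = Real.sqrt (-(D : ℝ)) * ((-(D : ℝ)) ^ (ε / 3)) ^ 3 := by
    rw [Real.rpow_add (by linarith), Real.sqrt_eq_rpow, ← Real.rpow_natCast,
      ← Real.rpow_mul (by linarith)]
    norm_num
  have h6 : 0 ≤ (-(D : ℝ)) ^ (ε / 3) := Real.rpow_nonneg (by linarith) _
  refine h2.trans (le_of_mul_le_mul_right (h3.trans ?_) hs)
  rw [h5, mul_assoc _ (Real.sqrt ‖(D : ℚ_[p])‖), ← sq (Real.sqrt ‖(D : ℚ_[p])‖), hs2]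
  calc _ ≤ 2 * (C₁ * (4 * C) ^ (ε / 3) * (-(D : ℝ)) ^ (ε / 3)) ^ 2 *
        (C₁ * 4 ^ (ε / 3) * (-(D : ℝ)) ^ (ε / 3) *
          (4 * (C * Real.sqrt (-(D : ℝ))) * (C * ‖(D : ℚ_[p])‖))) := by gcongr
    _ = _ := by ring

theorem card_bad1 (p : ℕ) [Fact p.Prime] (C : ℝ) {ε : ℝ} (hε : 0 < ε) : ∃ C' : ℝ, 0 < C' ∧
    ∀ D : ℤ, D < 0 → {z | Bad1 p C D z}.Finite ∧ ({z | Bad1 p C D z}.ncard : ℝ) ≤
      C' * (-(D : ℝ)) ^ (1 / 2 + ε) * Real.sqrt ‖(D : ℚ_[p])‖ := by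
  obtain ⟨C', h0, h⟩ := ctB_bad p (C := max C 1) (lt_max_of_lt_right one_pos) hε
  refine ⟨C', h0, fun D hD => ?_⟩
  obtain ⟨h1, h2⟩ := h D hD
  have hsub : {z | Bad1 p C D z} ⊆ {z | Bad1 p (max C 1) D z} := by
    rintro z ⟨n, h3, h4, h5, h6⟩
    exact ⟨n, h3, h4.trans (mul_le_mul_of_nonneg_right (le_max_left _ _) (Real.sqrt_nonneg _)),
      h5.trans (mul_le_mul_of_nonneg_right (le_max_left _ _) (norm_nonneg _)), h6⟩
  refine ⟨h1.subset hsub, le_trans ?_ h2⟩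
  exact_mod_cast Set.ncard_le_ncard hsub h1

end Pool.Agent.EQ
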