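import Pool.Agent.P.MP_ad7a55_nt.Vol2

/-! Lattice points, units, intermediate lattices, ambiguous classes. -/

set_option autoImplicit false

noncomputable section

open MeasureTheory Topology Filter UpperHalfPlane
open scoped MatrixGroups ENNReal BoundedContinuousFunction

namespace Pool.Agent.EQ

theorem ctc_Icc (a : ℝ) {w : ℝ} (hw : 0 ≤ w) :
    ((Finset.Icc ⌈a - w⌉ ⌊a + w⌋).card : ℝ) ≤ 2 * w + 1 := by
  rw [Int.card_Icc]
  have h1 := Int.le_ceil (a - w)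
  have h2 := Int.floor_le (a + w)
  rcases le_or_gt 0 (⌊a + w⌋ + 1 - ⌈a - w⌉) with h | h
  · have h3 : (((⌊a + w⌋ + 1 - ⌈a - w⌉).toNat : ℤ) : ℝ) = ((⌊a + w⌋ + 1 - ⌈a - w⌉ : ℤ) : ℝ) := by
      rw [Int.toNat_of_nonneg h]
    rw [Int.cast_natCast] at h3
    rw [h3]
    push_cast
    linarith
  · rw [Int.toNat_of_nonpos h.le]
    push_cast
    linarith

theorem ctc_mem_Icc {a w : ℝ} {m : ℤ} (h : |(m : ℝ) - a| ≤ w) :
    m ∈ Finset.Icc ⌈a - w⌉ ⌊a + w⌋ := by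
  rw [Finset.mem_Icc, Int.ceil_le, Int.le_floor]
  constructor <;> linarith [(abs_le.1 h).1, (abs_le.1 h).2]

theorem ctc_fd {Λ : Lt} (h : IsLat Λ) :
    ∃ (c : ℂ) (τ : ℍ), c ≠ 0 ∧ Λ = sp c (c * τ) ∧ τ ∈ ModularGroup.fd := by
  obtain ⟨c, τ, hc, rfl⟩ := h
  obtain ⟨γ, hγ⟩ := ModularGroup.exists_smul_mem_fd τ
  exact ⟨_, γ • τ, mul_ne_zero hc (sl_den_ne_lat γ τ), (sp_smul c γ τ).symm, hγ⟩

theorem card_pts {Λ : Lt} (h : IsLat Λ) {l : ℝ} (hl : 0 < l)
    (hΛ : ∀ z ∈ Λ, z ≠ 0 → l ≤ Complex.normSq z) {Y : ℝ} (hY : 0 ≤ Y) :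
    {z | z ∈ Λ ∧ Complex.normSq z ≤ Y}.Finite ∧
      ({z | z ∈ Λ ∧ Complex.normSq z ≤ Y}.ncard : ℝ) ≤
        9 * (1 + Real.sqrt (Y / l) + Y / vol Λ) := by
  classical
  obtain ⟨c, τ, hc, rfl, hτ⟩ := ctc_fd h
  have hN : 0 < Complex.normSq c := Complex.normSq_pos.2 hc
  have hlc : l ≤ Complex.normSq c := hΛ c (left_mem_sp_lat _ _) hc
  have hy := τ.im_pos
  have hy3 := ModularGroup.three_le_four_mul_im_sq_of_mem_fd hτ
  set w : ℝ := Real.sqrt (Y / Complex.normSq c) with hw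
  have hw0 : 0 ≤ w := Real.sqrt_nonneg _
  have hw2 : w ^ 2 = Y / Complex.normSq c := Real.sq_sqrt (div_nonneg hY hN.le)
  have hwl : w ≤ Real.sqrt (Y / l) :=
    Real.sqrt_le_sqrt (div_le_div_of_nonneg_left hY hl hlc)
  set u : ℝ := w / τ.im with hu
  have hu0 : 0 ≤ u := div_nonneg hw0 hy.le
  have hy5 : 5 / 6 ≤ τ.im := by nlinarith
  have hu1 : u ≤ 6 / 5 * w := by
    rw [hu, div_le_iff₀ hy]
    nlinarith
  have huw : u * w = Y / vol (sp c (c * τ)) := by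
    rw [vol_sp hc, ← div_div, ← hw2, hu]
    ring
  let S : Finset ℂ := (Finset.Icc ⌈(0 : ℝ) - u⌉ ⌊(0 : ℝ) + u⌋).biUnion fun n : ℤ =>
    (Finset.Icc ⌈-(n * τ.re) - w⌉ ⌊-(n * τ.re) + w⌋).image fun m : ℤ => m * c + n * (c * τ)
  have hsub : {z | z ∈ sp c (c * τ) ∧ Complex.normSq z ≤ Y} ⊆ S := by
    rintro z ⟨hz, hzY⟩
    obtain ⟨m, n, rfl⟩ := mem_sp.1 hz
    have e : (m : ℂ) * c + n * (c * τ) = c * (m + n * τ) := by ring
    have e2 : Complex.normSq ((m : ℂ) + n * τ) = (m + n * τ.re) ^ 2 + (n * τ.im) ^ 2 := by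
      rw [Complex.normSq_apply]
      simp only [Complex.add_re, Complex.intCast_re, Complex.mul_re, Complex.intCast_im, zero_mul,
        sub_zero, Complex.add_im, Complex.mul_im, add_zero, zero_add, coe_re, coe_im]
      ring
    rw [e, map_mul, e2] at hzY
    have h1 : (m + n * τ.re) ^ 2 + (n * τ.im) ^ 2 ≤ w ^ 2 := by
      rw [hw2, le_div_iff₀ hN]
      linarith
    have h2 : |(m : ℝ) - -(n * τ.re)| ≤ w := by
      rw [sub_neg_eq_add]
      exact abs_le_of_sq_le_sq' (by nlinarith [sq_nonneg (n * τ.im)]) hw0 |> abs_le.2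
    have h3 : |(n : ℝ) - 0| ≤ u := by
      rw [sub_zero, hu, le_div_iff₀ hy, ← abs_of_pos hy, ← abs_mul]
      exact abs_le_of_sq_le_sq' (by nlinarith [sq_nonneg (m + n * τ.re)]) hw0 |> abs_le.2
    simp only [S, Finset.coe_biUnion, Set.mem_iUnion, Finset.mem_coe, Finset.mem_image]
    exact ⟨n, ctc_mem_Icc h3, m, ctc_mem_Icc h2, rfl⟩
  refine ⟨S.finite_toSet.subset hsub, ?_⟩
  have c1 : ({z | z ∈ sp c (c * τ) ∧ Complex.normSq z ≤ Y}.ncard : ℝ) ≤ S.card := by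
    have := Set.ncard_le_ncard hsub S.finite_toSet
    rw [Set.ncard_coe_finset] at this
    exact_mod_cast this
  have c2 : (S.card : ℝ) ≤ (2 * u + 1) * (2 * w + 1) := by
    have d1 : (S.card : ℝ) ≤ ∑ n ∈ Finset.Icc ⌈(0 : ℝ) - u⌉ ⌊(0 : ℝ) + u⌋,
        (((Finset.Icc ⌈-(n * τ.re) - w⌉ ⌊-(n * τ.re) + w⌋).image
          fun m : ℤ => (m : ℂ) * c + n * (c * τ)).card : ℝ) := by
      exact_mod_cast Finset.card_biUnion_le
    refine d1.trans ((Finset.sum_le_card_nsmul _ _ (2 * w + 1) fun n _ => ?_).trans ?_)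
    · refine le_trans ?_ (ctc_Icc (-(n * τ.re)) hw0)
      exact_mod_cast Finset.card_image_le
    · rw [nsmul_eq_mul]
      exact mul_le_mul_of_nonneg_right (ctc_Icc 0 hu0) (by positivity)
  rw [← huw]
  have := mul_nonneg hu0 hw0
  nlinarith

theorem ctc_unit {D : ℤ} (hD : IsD D) {u : ℂ} (hu : u ∈ OD D) (h1 : Complex.normSq u ≤ 1) :
    ∃ x ∈ (Finset.Icc (-1 : ℤ) 1) ×ˢ (Finset.Icc (-2 : ℤ) 2), u = (x.2 + x.1 * th D) / 2 := by
  obtain ⟨m, n, rfl⟩ := mem_sp.1 hu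
  have hD3 : D ≤ -3 := by
    obtain ⟨h0, h4⟩ := hD
    omega
  have hD' : (3 : ℝ) ≤ -(D : ℝ) := by
    have : (D : ℝ) ≤ -3 := by exact_mod_cast hD3
    linarith
  have e : (m : ℂ) * 1 + n * ((D + th D) / 2) = (((2 * m + n * D : ℤ) : ℂ) + n * th D) / 2 := by
    push_cast
    ring
  have e2 : Complex.normSq ((((2 * m + n * D : ℤ) : ℂ) + n * th D) / 2) =
      (((2 * m + n * D : ℤ) : ℝ) ^ 2 + (n : ℝ) ^ 2 * (-(D : ℝ))) / 4 := by
    rw [map_div₀, Complex.normSq_apply]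
    simp only [Complex.add_re, Complex.intCast_re, Complex.mul_re, Complex.intCast_im, zero_mul,
      sub_zero, Complex.add_im, Complex.mul_im, add_zero, zero_add, ord2_th_re, ord2_th_im,
      mul_zero, Complex.normSq_ofNat]
    have := Real.mul_self_sqrt (by linarith : (0 : ℝ) ≤ -(D : ℝ))
    linear_combination ((n : ℝ) ^ 2 / 4) * this
  rw [e, e2] at h1
  rw [e]
  generalize 2 * m + n * D = X at h1 ⊢
  have h2 : (X : ℝ) ^ 2 + 3 * (n : ℝ) ^ 2 ≤ 4 := by nlinarith [sq_nonneg (n : ℝ)]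
  have h3 : X ^ 2 + 3 * n ^ 2 ≤ 4 := by exact_mod_cast h2
  refine ⟨(n, X), ?_, rfl⟩
  simp only [Finset.mem_product, Finset.mem_Icc]
  refine ⟨⟨?_, ?_⟩, ?_, ?_⟩ <;> nlinarith [sq_nonneg X, sq_nonneg n]

/-- The generators of a principal module. -/
theorem card_gen {D : ℤ} {Λ : Lt} (h : DiscL Λ D) (M : Lt) :
    {c : ℂ | c ≠ 0 ∧ pr c * Λ = M}.Finite ∧ {c : ℂ | c ≠ 0 ∧ pr c * Λ = M}.ncard ≤ 15 := by
  classical
  rcases Set.eq_empty_or_nonempty {c : ℂ | c ≠ 0 ∧ pr c * Λ = M} with h0 | ⟨c₀, hc₀, e₀⟩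
  · rw [h0]
    simp
  have key : ∀ a b : ℂ, a ≠ 0 → pr a * Λ = M → pr b * Λ = M → b / a ∈ OD D := by
    intro a b ha e1 e2
    rw [← h.end_iff, ← pr_mul_le_iff ha, ← mul_assoc, pr_mul_pr, mul_div_cancel₀ _ ha, e1, e2]
  let S : Finset ℂ := ((Finset.Icc (-1 : ℤ) 1) ×ˢ (Finset.Icc (-2 : ℤ) 2)).image
    fun x => c₀ * ((x.2 + x.1 * th D) / 2)
  have hsub : {c : ℂ | c ≠ 0 ∧ pr c * Λ = M} ⊆ S := by
    rintro c ⟨hc, e⟩
    obtain ⟨k, hk⟩ := (discL_OD h.isD).normSq_nat (key c c₀ hc e e₀)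
    rw [nm_OD h.isD, mul_one] at hk
    have h1 : 0 < Complex.normSq (c₀ / c) := Complex.normSq_pos.2 (div_ne_zero hc₀ hc)
    have h2 : 1 ≤ Complex.normSq (c₀ / c) := by
      rw [hk] at h1 ⊢
      exact_mod_cast h1
    have h3 : Complex.normSq (c / c₀) ≤ 1 := by
      rw [← inv_div, map_inv₀]
      exact inv_le_one_of_one_le₀ h2
    obtain ⟨x, hx, ex⟩ := ctc_unit h.isD (key c₀ c hc₀ e₀ e) h3
    refine Finset.mem_coe.2 (Finset.mem_image.2 ⟨x, hx, ?_⟩)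
    rw [← ex, mul_div_cancel₀ _ hc₀]
  refine ⟨S.finite_toSet.subset hsub, (Set.ncard_le_ncard hsub S.finite_toSet).trans ?_⟩
  rw [Set.ncard_coe_finset]
  refine Finset.card_image_le.trans ?_
  simp

theorem card_between {N : ℕ} (hN : 0 < N) {Λ : Lt} (h : IsLat Λ) :
    {Λ' | pr N * Λ ≤ Λ' ∧ Λ' ≤ Λ}.Finite ∧ {Λ' | pr N * Λ ≤ Λ' ∧ Λ' ≤ Λ}.ncard ≤ N ^ 3 := by
  classical
  obtain ⟨c, τ, hc, rfl⟩ := h
  let S : Finset Lt := ((Finset.Icc 1 N) ×ˢ (Finset.Icc 1 N) ×ˢ (Finset.range N)).image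
    fun x : ℕ × ℕ × ℕ => sp (x.1 * c) (c * (x.2.1 * τ + x.2.2))
  have hsub : {Λ' | pr N * sp c (c * τ) ≤ Λ' ∧ Λ' ≤ sp c (c * τ)} ⊆ S := by
    rintro Λ' ⟨h1, h2⟩
    obtain ⟨a, d, b, ha, hd, haN, hdN, hb0, hb, e⟩ := hnf hc τ hN h1 h2
    obtain ⟨b', rfl⟩ := Int.eq_ofNat_of_zero_le hb0
    have a1 := Nat.le_of_dvd hN haN
    have d1 := Nat.le_of_dvd hN hdN
    refine Finset.mem_coe.2 (Finset.mem_image.2 ⟨(a, d, b'), ?_, ?_⟩)
    · simp only [Finset.mem_product, Finset.mem_Icc, Finset.mem_range]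
      omega
    · rw [e, Int.cast_natCast]
  refine ⟨S.finite_toSet.subset hsub, (Set.ncard_le_ncard hsub S.finite_toSet).trans ?_⟩
  rw [Set.ncard_coe_finset]
  refine Finset.card_image_le.trans (le_of_eq ?_)
  simp only [Finset.card_product, Nat.card_Icc, Finset.card_range, Nat.add_sub_cancel]
  ring

/-- The invariant of a root of a quadratic form. -/
def ctc_F (D : ℤ) (a b : ℂ) : ℂ := jInv (ofComplex ((th D - b) / (2 * a)))

theorem ctc_cases {τ : ℍ} (hτ : τ ∈ ModularGroup.fd) {c : ℂ} (hc : c ≠ 0)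
    (h : jL (cj (sp c (c * τ))) = jInv τ) :
    τ.re = 0 ∨ τ.re = 1 / 2 ∨ τ.re = -(1 / 2) ∨ Complex.normSq (τ : ℂ) = 1 := by
  let σ : ℍ := ⟨-starRingEnd ℂ τ, by simpa using τ.im_pos⟩
  have e : cj (sp c (c * τ)) = sp (starRingEnd ℂ c) (starRingEnd ℂ c * σ) := by
    rw [cj_sp, map_mul, ← ord_sp_neg]
    congr 1
    change _ = starRingEnd ℂ c * -starRingEnd ℂ τ
    ring
  rw [e, jL_sp (by simpa using hc)] at h
  obtain ⟨γ, hγ⟩ := jInv_inj h.symm
  have hre : σ.re = -τ.re := by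
    change (-starRingEnd ℂ (τ : ℂ)).re = _
    simp
  by_cases ho : τ ∈ ModularGroup.fdo
  · left
    have hσ : γ • τ ∈ ModularGroup.fdo := by
      rw [← hγ]
      refine ⟨?_, ?_⟩
      · change 1 < Complex.normSq (-starRingEnd ℂ (τ : ℂ))
        rw [Complex.normSq_neg, Complex.normSq_conj]
        exact ho.1
      · rw [hre, abs_neg]
        exact ho.2
    have h1 := ModularGroup.eq_smul_self_of_mem_fdo_mem_fdo ho hσ
    rw [← hγ] at h1
    have h2 : τ.re = σ.re := congrArg UpperHalfPlane.re h1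
    linarith
  · right
    by_cases h1 : Complex.normSq (τ : ℂ) = 1
    · exact Or.inr (Or.inr h1)
    have h2 : 1 < Complex.normSq (τ : ℂ) := lt_of_le_of_ne hτ.1 (Ne.symm h1)
    have h3 : |τ.re| = 1 / 2 := le_antisymm hτ.2 (not_lt.1 fun h4 => ho ⟨h2, h4⟩)
    rcases (abs_eq (by norm_num)).1 h3 with h4 | h4
    · exact Or.inl h4
    · exact Or.inr (Or.inl h4)

/-- Ambiguous classes. -/
theorem card_amb {D : ℤ} (hD : D < 0) :
    {z | ∃ T, DiscL T D ∧ jL T = z ∧ jL (cj T) = z}.ncard ≤ 8 * D.natAbs.divisors.card := by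
  classical
  let I := D.natAbs.divisors
  let S : Finset ℂ := ((I.image fun e : ℕ => ctc_F D e 0) ∪ (I.image fun e : ℕ => ctc_F D e e)) ∪
    ((I.image fun e : ℕ => ctc_F D e (-e)) ∪
      (I.image fun e : ℕ => ctc_F D ((e + -D / e) / 4) ((-D / e - e) / 2)))
  have hI : ∀ e : ℤ, 0 < e → e ∣ D → ∃ e' ∈ I, (e' : ℤ) = e := by
    intro e he hd
    refine ⟨e.natAbs, Nat.mem_divisors.2 ⟨Int.natAbs_dvd_natAbs.2 hd, by omega⟩, by omega⟩
  have hsub : {z | ∃ T, DiscL T D ∧ jL T = z ∧ jL (cj T) = z} ⊆ S := by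
    rintro z ⟨T, ⟨c', τ', hc', rfl, hτ'⟩, rfl, hj⟩
    obtain ⟨γ, hγ⟩ := ModularGroup.exists_smul_mem_fd τ'
    have hτ := hτ'.smul γ
    have hc := mul_ne_zero hc' (sl_den_ne_lat γ τ')
    rw [← sp_smul c' γ τ'] at hj ⊢
    generalize c' * ((γ 1 0 : ℂ) * τ' + γ 1 1) = c at hc hj
    generalize γ • τ' = τ at hγ hτ hj
    rw [jL_sp hc] at hj ⊢
    have hcase := ctc_cases hγ hc hj
    obtain ⟨a, b, k, ha, -, he, hd⟩ := hτ
    have hr := HasDisc.root ha he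
    obtain ⟨i2, i1⟩ := ord_parts he
    rw [← hd] at hr
    have ha' : (0 : ℝ) < a := by exact_mod_cast ha
    have ha0 : (a : ℂ) ≠ 0 := by exact_mod_cast ha.ne'
    have hF : jInv τ = ctc_F D a b := by
      have : (th D - b) / (2 * a) = (τ : ℂ) := by
        rw [← hr]
        field_simp
        ring
      simp only [ctc_F, this, ofComplex_apply]
    rw [hF]
    simp only [S, Finset.coe_union, Set.mem_union, Finset.mem_coe, Finset.mem_image]
    rcases hcase with h1 | h1 | h1 | h1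
    · have hb : b = 0 := by
        rw [h1] at i2
        exact_mod_cast (by linarith : (b : ℝ) = 0)
      obtain ⟨e, he1, he2⟩ := hI a ha ⟨-4 * k, by rw [hd, hb]; ring⟩
      refine Or.inl (Or.inl ⟨e, he1, ?_⟩)
      rw [hb, ← he2]
      simp
    · have hb : b = -a := by
        rw [h1] at i2
        exact_mod_cast (by linarith : (b : ℝ) = -a)
      obtain ⟨e, he1, he2⟩ := hI a ha ⟨a - 4 * k, by rw [hd, hb]; ring⟩
      refine Or.inr (Or.inl ⟨e, he1, ?_⟩)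
      rw [hb, ← he2]
      simp
    · have hb : b = a := by
        rw [h1] at i2
        exact_mod_cast (by linarith : (b : ℝ) = a)
      obtain ⟨e, he1, he2⟩ := hI a ha ⟨a - 4 * k, by rw [hd, hb]; ring⟩
      refine Or.inl (Or.inr ⟨e, he1, ?_⟩)
      rw [hb, ← he2]
      simp
    · have h2 : τ.re * τ.re + τ.im * τ.im = 1 := by simpa [Complex.normSq_apply] using h1
      have hk : k = a := by
        have hb : (b : ℝ) = -(2 * a * τ.re) := by linarith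
        push_cast at i1
        rw [hb] at i1
        have h3 : (a : ℝ) * (k - a) = 0 := by linear_combination (1 / 4 : ℝ) * i1 + (a : ℝ) ^ 2 * h2
        have h4 : (k : ℝ) = a := by
          rcases mul_eq_zero.1 h3 with h5 | h5
          · exact absurd h5 ha'.ne'
          · linarith
        exact_mod_cast h4
      have hprod : -D = (2 * a - b) * (2 * a + b) := by
        rw [hd, hk]
        ring
      have hpos : 0 < 2 * a - b := by nlinarith
      obtain ⟨e, he1, he2⟩ := hI (2 * a - b) hpos ⟨-(2 * a + b), by linear_combination -hprod⟩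
      refine Or.inr (Or.inr ⟨e, he1, ?_⟩)
      have e1 : (e : ℂ) = 2 * a - b := by exact_mod_cast he2
      have e0 : (2 * a - b : ℂ) ≠ 0 := by exact_mod_cast hpos.ne'
      have e2 : (-D : ℂ) / e = 2 * a + b := by
        rw [e1, div_eq_iff e0]
        have : (-D : ℂ) = (2 * a - b) * (2 * a + b) := by exact_mod_cast hprod
        rw [this]
        ring
      rw [e2, e1]
      congr 1 <;> ring
  refine (Set.ncard_le_ncard hsub S.finite_toSet).trans ?_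
  rw [Set.ncard_coe_finset]
  refine (Finset.card_union_le _ _).trans ?_
  refine (add_le_add (Finset.card_union_le _ _) (Finset.card_union_le _ _)).trans ?_
  refine (add_le_add (add_le_add Finset.card_image_le Finset.card_image_le)
    (add_le_add Finset.card_image_le Finset.card_image_le)).trans ?_
  show I.card + I.card + (I.card + I.card) ≤ 8 * I.card
  omega

theorem ctc_cancel {D : ℤ} {T Λ : Lt} (hT : DiscL T D) (hΛ : DiscL Λ D) :
    jL (T * cj T * Λ) = jL Λ := by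
  have h : (nm D T : ℂ) ≠ 0 := by exact_mod_cast hT.nm_pos.ne'
  rw [hT.mul_cj_nm, mul_assoc, hΛ.OD_mul, jL_pr_mul hΛ.isLat h]

/-- Classes with a given square. -/
theorem card_sqrt {D : ℤ} (hD : D < 0) (w : ℂ) :
    {z | ∃ T, DiscL T D ∧ jL T = z ∧ jL (T * T) = w}.ncard ≤ 8 * D.natAbs.divisors.card := by
  classical
  rcases Set.eq_empty_or_nonempty {z | ∃ T, DiscL T D ∧ jL T = z ∧ jL (T * T) = w} with
    h0 | ⟨z₀, T₀, h₀, -, w₀⟩
  · rw [h0]
    simp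
  refine le_trans ?_ (card_amb hD)
  let r : ℂ → Lt := fun z =>
    if h : ∃ T, DiscL T D ∧ jL T = z ∧ jL (T * T) = w then h.choose else ⊥
  have hr : ∀ z, (∃ T, DiscL T D ∧ jL T = z ∧ jL (T * T) = w) →
      DiscL (r z) D ∧ jL (r z) = z ∧ jL (r z * r z) = w := by
    intro z hz
    simp only [r, dif_pos hz]
    exact hz.choose_spec
  refine Set.ncard_le_ncard_of_injOn (fun z => jL (r z * cj T₀)) ?_ ?_
    ((Cl_finite D).subset fun z ⟨T, hT, hj, _⟩ => ⟨T, hT, hj⟩)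
  · intro z hz
    obtain ⟨h1, -, h3⟩ := hr z hz
    have hU := h1.mul h₀.cj le_rfl
    refine ⟨_, hU, rfl, ?_⟩
    have hV := h1.cj.mul h₀.cj le_rfl
    have k := jL_mul_congr (h1.mul h1 le_rfl) (h₀.mul h₀ le_rfl) hV hV le_rfl
      (h3.trans w₀.symm) rfl
    have e1 : r z * r z * (cj (r z) * cj T₀) = r z * cj (r z) * (r z * cj T₀) := by ring
    have e2 : T₀ * T₀ * (cj (r z) * cj T₀) = T₀ * cj T₀ * (cj (r z) * T₀) := by ring
    rw [e1, e2, ctc_cancel h1 hU, ctc_cancel h₀ (h1.cj.mul h₀ le_rfl)] at k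
    rw [cj_mul, cj_cj]
    exact k.symm
  · intro z hz z' hz' e
    obtain ⟨h1, h2, -⟩ := hr z hz
    obtain ⟨h1', h2', -⟩ := hr z' hz'
    have k := jL_mul_congr (h1.mul h₀.cj le_rfl) (h1'.mul h₀.cj le_rfl) h₀ h₀ le_rfl e rfl
    have e1 : ∀ T : Lt, T * cj T₀ * T₀ = T₀ * cj T₀ * T := fun T => by ring
    rw [e1, e1, ctc_cancel h₀ h1, ctc_cancel h₀ h1', h2, h2'] at k
    exact k

end Pool.Agent.EQ
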