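import Pool.Agent.P.MP_ad7a55_nt.CtC
import Pool.Agent.P.MP_ad7a55_nt.CtA

/-! Counting the linear parts of exceptional maps. -/

set_option autoImplicit false

noncomputable section

open MeasureTheory Topology Filter UpperHalfPlane
open scoped MatrixGroups ENNReal BoundedContinuousFunction

namespace Pool.Agent.EQ

variable (p : ℕ) [Fact p.Prime]

/-- The conditions on the linear part `a` and on the norm `B` of the antilinear part. -/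
def Lin1 (c : ℕ) (E : ℤ) (𝔩 : Lt) (s : ℤ) (X : ℝ) (a : ℂ) (B : ℕ) : Prop :=
  a ∈ 𝔩 ∧ 0 < B ∧ (B : ℝ) ≤ X ∧ Complex.normSq a = (B + s) * nm E 𝔩 ∧ (B : ℝ) + s ≤ X ∧
    ‖(B : ℚ_[p])‖ ≤ (p : ℝ) ^ c * ‖(E : ℚ_[p])‖ ^ 2 ∧
    ∃ m : ℤ, ¬ (p : ℤ) ∣ m ∧ (m : ℂ) * (p : ℂ) ^ c * a ∈ pr (th E) * 𝔩

theorem ctD_one_lt : (1 : ℝ) < p := by exact_mod_cast (Fact.out : p.Prime).one_lt

theorem ctD_int_mul {Λ : Lt} {x : ℂ} (hx : x ∈ Λ) (n : ℤ) : (n : ℂ) * x ∈ Λ := by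
  simpa using Λ.smul_mem n hx

/-- Removing a factor of bounded valuation. -/
theorem mem_of_mul_mem {Λ : Lt} {x : ℂ} (hx : x ∈ Λ) {m : ℤ} {u w : ℕ}
    (hm : (p : ℝ) ^ (-(u : ℤ)) ≤ ‖(m : ℚ_[p])‖) (h : (m : ℂ) * x ∈ pr ((p : ℂ) ^ (w + u)) * Λ) :
    x ∈ pr ((p : ℂ) ^ w) * Λ := by
  have hp : p.Prime := Fact.out
  obtain ⟨j, -, hj⟩ := (Nat.dvd_prime_pow hp).1
    (show Int.gcd m ((p : ℤ) ^ (w + u)) ∣ p ^ (w + u) by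
      exact_mod_cast Int.gcd_dvd_right m ((p : ℤ) ^ (w + u)))
  have h1 : (p : ℤ) ^ j ∣ m := by
    have := Int.gcd_dvd_left m ((p : ℤ) ^ (w + u))
    rw [hj] at this; exact_mod_cast this
  have h2 : j ≤ u := by
    have := hm.trans ((Padic.norm_int_le_pow_iff_dvd m j).2 h1)
    rw [zpow_le_zpow_iff_right₀ (ctD_one_lt p)] at this
    omega
  obtain ⟨i, rfl⟩ : ∃ i, u = j + i := ⟨u - j, by omega⟩
  have h3 := Int.gcd_eq_gcd_ab m ((p : ℤ) ^ (w + (j + i)))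
  rw [hj] at h3
  generalize Int.gcdA m _ = A at h3
  generalize Int.gcdB m _ = B at h3
  have h4 : (p : ℂ) ^ j = m * A + (p : ℂ) ^ (w + (j + i)) * B := by exact_mod_cast h3
  obtain ⟨v, hv, e⟩ := mem_pr_mul.1 h
  refine mem_pr_mul.2 ⟨((p ^ i : ℤ) : ℂ) * ((A : ℂ) * v + B * x),
    ctD_int_mul (Λ.add_mem (ctD_int_mul hv A) (ctD_int_mul hx B)) _, ?_⟩
  have hp0 : (p : ℂ) ^ j ≠ 0 := pow_ne_zero _ (by exact_mod_cast hp.ne_zero)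
  apply mul_left_cancel₀ hp0
  push_cast
  linear_combination A * e - x * h4

theorem ctD_n {E s B m n π : ℚ_[p]} {Q : ℝ} (hQ : 0 < Q) (hπ : ‖π‖ = Q) (hm : ‖m‖ = 1)
    (hE0 : 0 < ‖E‖) (hB : ‖B‖ * Q ≤ ‖E‖ ^ 2) (hs : ‖E‖ * Q ≤ ‖s‖) (hE : ‖E‖ < Q ^ 2)
    (h : m ^ 2 * π ^ 2 * (B + s) = -E * n) : Q ^ 3 ≤ ‖n‖ := by
  have h1 : ‖B‖ < ‖s‖ := by
    refine lt_of_lt_of_le (lt_of_mul_lt_mul_right ?_ hQ.le) hs
    nlinarith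
  have h2 := congrArg norm h
  rw [norm_mul, norm_mul, norm_mul, norm_pow, norm_pow, hm, hπ, norm_neg,
    Padic.add_eq_max_of_ne h1.ne, max_eq_right h1.le] at h2
  refine le_of_mul_le_mul_left ?_ hE0
  nlinarith [mul_le_mul_of_nonneg_left hs (sq_nonneg Q)]

theorem ctD_sub (x y : ℚ_[p]) : ‖x - y‖ ≤ max ‖x‖ ‖y‖ := by
  simpa [sub_eq_add_neg] using Padic.nonarchimedean x (-y)

theorem ctD_fac {E X Y α α' : ℚ_[p]} {l T : ℝ} (hl : 0 < l) (hY : ‖Y‖ ≤ 1) (hα : ‖4 * α'‖ ≤ 1)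
    (h1 : ‖α - α'‖ ≤ ‖E‖) (h2 : l ≤ ‖4 * α'‖) (h3 : X ^ 2 - Y ^ 2 * E = 4 * α * α')
    (hE : ‖E‖ ≤ T * l) : ‖X - 2 * α'‖ ≤ T ∨ ‖X + 2 * α'‖ ≤ T := by
  have e1 : (X - 2 * α') * (X + 2 * α') = Y ^ 2 * E + 4 * α' * (α - α') := by
    linear_combination h3
  have e2 : ‖X - 2 * α'‖ * ‖X + 2 * α'‖ ≤ T * l := by
    rw [← norm_mul, e1]
    refine (Padic.nonarchimedean _ _).trans ((max_le ?_ ?_).trans hE)
    · rw [norm_mul, norm_pow]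
      exact mul_le_of_le_one_left (norm_nonneg _) (pow_le_one₀ (norm_nonneg _) hY)
    · rw [norm_mul]
      exact (mul_le_of_le_one_left (norm_nonneg _) hα).trans h1
  have e3 := ctD_sub p (X + 2 * α') (X - 2 * α')
  rw [show X + 2 * α' - (X - 2 * α') = 4 * α' by ring] at e3
  rcases le_max_iff.1 (h2.trans e3) with h | h
  · exact Or.inl (le_of_mul_le_mul_right
      ((mul_le_mul_of_nonneg_left h (norm_nonneg _)).trans e2) hl)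
  · refine Or.inr (le_of_mul_le_mul_right (le_trans ?_ e2) hl)
    rw [mul_comm]
    exact mul_le_mul_of_nonneg_right h (norm_nonneg _)

theorem ctD_two : (p : ℝ)⁻¹ ≤ ‖(2 : ℚ_[p])‖ := by
  have hp : p.Prime := Fact.out
  by_cases h : p = 2
  · subst h
    exact (Padic.norm_p (p := 2)).ge
  · have := Padic.norm_natCast_eq_one_iff.2 ((Nat.coprime_primes hp Nat.prime_two).2 h)
    exact (inv_le_one_of_one_le₀ (ctD_one_lt p).le).trans this.ge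

/-- Extraction of the integer data. -/
theorem ctD_data {c : ℕ} {E : ℤ} {𝔩 : Lt} (hl : DiscL 𝔩 E) {s : ℤ} {X : ℝ} {a : ℂ} {B : ℕ}
    (h : Lin1 p c E 𝔩 s X a B) : ∃ (m : ℤ) (g : ℂ) (n : ℕ), ‖(m : ℚ_[p])‖ = 1 ∧ g ∈ 𝔩 ∧
      th E * g = m * (p : ℂ) ^ c * a ∧ Complex.normSq g = n * nm E 𝔩 ∧
      m ^ 2 * ((p : ℤ) ^ c) ^ 2 * (B + s) = -E * n := by
  obtain ⟨-, -, -, h1, -, -, m, h2, h3⟩ := h
  obtain ⟨g, hg, e⟩ := mem_pr_mul.1 h3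
  obtain ⟨n, hn⟩ := hl.normSq_nat hg
  refine ⟨m, g, n, le_antisymm (Padic.norm_int_le_one m)
    (not_lt.1 fun h => h2 (Padic.norm_intCast_lt_one_iff.1 h)), hg, e, hn, ?_⟩
  have h4 : Complex.normSq (th E) = -E := by
    have h5 := Complex.normSq_eq_conj_mul_self (z := th E)
    rw [conj_th, neg_mul, ← sq, th_sq hl.isD.1.le] at h5
    exact_mod_cast h5
  have h5 := congrArg Complex.normSq e
  simp only [map_mul, map_pow, Complex.normSq_intCast, Complex.normSq_natCast, h4, hn, h1] at h5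
  have h6 : ((m ^ 2 * ((p : ℤ) ^ c) ^ 2 * (B + s) : ℤ) : ℝ) = ((-E * n : ℤ) : ℝ) := by
    apply mul_right_cancel₀ hl.nm_pos.ne'
    push_cast
    rw [mul_pow] at h5
    linear_combination -h5
  exact_mod_cast h6

/-- The final lattice computation. -/
theorem ctD_lat {E : ℤ} {𝔩 : Lt} (hl : DiscL 𝔩 E) {g₁ g₂ : ℂ} (hg : g₂ ∈ 𝔩) {n₂ : ℕ}
    (hn : Complex.normSq g₂ = n₂ * nm E 𝔩) {x y m₁ m₂ ε T : ℤ}
    (h : 2 * (g₁ * starRingEnd ℂ g₂) = nm E 𝔩 * (x + y * th E))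
    (h1 : T ∣ m₁ * m₂ * x - 2 * ε * (m₁ ^ 2 * n₂)) (h2 : T ∣ E) :
    2 * (m₁ ^ 2 * n₂) * (th E * (m₂ * g₁ - ε * m₁ * g₂)) ∈ pr T * 𝔩 := by
  obtain ⟨k, hk⟩ := h1
  obtain ⟨E', hE⟩ := h2
  have ht : th E * g₂ ∈ 𝔩 := pr_mul_le.1 ((hl.end_iff _).2 (th_mem_OD E)) _ hg
  refine mem_pr_mul.2 ⟨(m₁ * k : ℤ) * (th E * g₂) + (m₁ * (m₁ * m₂ * y * E') : ℤ) * g₂,
    𝔩.add_mem (ctD_int_mul ht _) (ctD_int_mul hg _), ?_⟩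
  have h3 : g₂ * starRingEnd ℂ g₂ = n₂ * nm E 𝔩 := by
    rw [Complex.mul_conj, hn]; push_cast; rfl
  have h4 : (m₁ : ℂ) * m₂ * x - 2 * ε * (m₁ ^ 2 * n₂) = T * k := by exact_mod_cast hk
  have h5 : th E ^ 2 = T * E' := by rw [th_sq hl.isD.1.le]; exact_mod_cast hE
  have h6 : ((nm E 𝔩 : ℝ) : ℂ) ≠ 0 := by exact_mod_cast hl.nm_pos.ne'
  apply mul_left_cancel₀ h6
  push_cast
  linear_combination (-(nm E 𝔩 : ℂ) * m₁ * th E * g₂) * h4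
    - (nm E 𝔩 : ℂ) * m₁ ^ 2 * m₂ * y * g₂ * h5 - m₁ ^ 2 * m₂ * th E * g₂ * h
    + 2 * m₁ ^ 2 * m₂ * th E * g₁ * h3

/-- Two solutions agree up to sign modulo a large power of `p`. -/
theorem lin1_diff (c : ℕ) : ∃ c' : ℕ, ∀ (E : ℤ) (𝔩 : Lt), DiscL 𝔩 E → ∀ s : ℤ,
    ‖(E : ℚ_[p])‖ ≤ (p : ℝ) ^ c * ‖(s : ℚ_[p])‖ → ∀ (X : ℝ) (a₁ a₂ : ℂ) (B₁ B₂ : ℕ),
      Lin1 p c E 𝔩 s X a₁ B₁ → Lin1 p c E 𝔩 s X a₂ B₂ → ∀ w : ℕ,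
        ‖(E : ℚ_[p])‖ ≤ (p : ℝ) ^ (-((w + c' : ℕ) : ℤ)) →
        a₁ - a₂ ∈ pr ((p : ℂ) ^ w) * 𝔩 ∨ a₁ + a₂ ∈ pr ((p : ℂ) ^ w) * 𝔩 := by
  refine ⟨7 * c + 3, fun E 𝔩 hl s hs X a₁ a₂ B₁ B₂ H₁ H₂ w hw => ?_⟩
  obtain ⟨m₁, g₁, n₁, u₁, k₁, e₁, f₁, z₁⟩ := ctD_data p hl H₁
  obtain ⟨m₂, g₂, n₂, u₂, k₂, e₂, f₂, z₂⟩ := ctD_data p hl H₂
  have hp1 := ctD_one_lt p
  have hz : ∀ n : ℕ, (p : ℝ) ^ (-(n : ℤ)) = (p : ℝ)⁻¹ ^ n := fun n => by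
    rw [zpow_neg, zpow_natCast, inv_pow]
  have hc : (p : ℝ) ^ c * (p : ℝ)⁻¹ ^ c = 1 := by
    rw [← mul_pow, mul_inv_cancel₀ (by linarith), one_pow]
  have h2 := ctD_two p
  have hπ : ‖(p : ℚ_[p]) ^ c‖ = (p : ℝ)⁻¹ ^ c := by rw [Padic.norm_p_pow, hz]
  have q0 : 0 < (p : ℝ)⁻¹ := by positivity
  have q1 : (p : ℝ)⁻¹ < 1 := inv_lt_one_of_one_lt₀ hp1
  rw [hz] at hw
  have hE0 : 0 < ‖(E : ℚ_[p])‖ := norm_pos_iff.2 (by exact_mod_cast hl.isD.1.ne)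
  have hB : ∀ B : ℕ, ‖(B : ℚ_[p])‖ ≤ (p : ℝ) ^ c * ‖(E : ℚ_[p])‖ ^ 2 →
      ‖(B : ℚ_[p])‖ * (p : ℝ)⁻¹ ^ c ≤ ‖(E : ℚ_[p])‖ ^ 2 := fun B h =>
    (mul_le_mul_of_nonneg_right h (by positivity)).trans
      (le_of_eq (by rw [mul_right_comm, hc, one_mul]))
  have b₁ := hB B₁ H₁.2.2.2.2.2.1
  have b₂ := hB B₂ H₂.2.2.2.2.2.1
  have hs' : ‖(E : ℚ_[p])‖ * (p : ℝ)⁻¹ ^ c ≤ ‖(s : ℚ_[p])‖ :=
    (mul_le_mul_of_nonneg_right hs (by positivity)).trans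
      (le_of_eq (by rw [mul_right_comm, hc, one_mul]))
  have y₁ : (m₁ : ℚ_[p]) ^ 2 * ((p : ℚ_[p]) ^ c) ^ 2 * (B₁ + s) = -E * n₁ := by exact_mod_cast z₁
  have y₂ : (m₂ : ℚ_[p]) ^ 2 * ((p : ℚ_[p]) ^ c) ^ 2 * (B₂ + s) = -E * n₂ := by exact_mod_cast z₂
  have hn₂ := ctD_n p (by positivity) hπ u₂ hE0 b₂ hs' (hw.trans_lt (by
    rw [← pow_mul]; exact pow_lt_pow_right_of_lt_one₀ q0 q1 (by omega))) y₂
  have hd : ‖(m₂ : ℚ_[p]) ^ 2 * n₁ - m₁ ^ 2 * n₂‖ ≤ ‖(E : ℚ_[p])‖ := by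
    have e : -(E : ℚ_[p]) * ((m₂ : ℚ_[p]) ^ 2 * n₁ - m₁ ^ 2 * n₂) =
        m₁ ^ 2 * m₂ ^ 2 * (p : ℚ_[p]) ^ c * ((p : ℚ_[p]) ^ c * (B₁ - B₂)) := by
      linear_combination (m₁ : ℚ_[p]) ^ 2 * y₂ - (m₂ : ℚ_[p]) ^ 2 * y₁
    have e' := congrArg norm e
    simp only [norm_mul, norm_neg, norm_pow (m₁ : ℚ_[p]), norm_pow (m₂ : ℚ_[p]), u₁, u₂, hπ,
      one_pow, one_mul] at e'
    have e2 : (p : ℝ)⁻¹ ^ c * ‖(B₁ : ℚ_[p]) - B₂‖ ≤ ‖(E : ℚ_[p])‖ ^ 2 := by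
      rw [mul_comm]
      rcases le_max_iff.1 (ctD_sub p B₁ B₂) with h | h
      · exact (mul_le_mul_of_nonneg_right h (by positivity)).trans b₁
      · exact (mul_le_mul_of_nonneg_right h (by positivity)).trans b₂
    refine le_of_mul_le_mul_left ?_ hE0
    rw [e', ← sq]
    exact (mul_le_of_le_one_left (by positivity) (pow_le_one₀ q0.le q1.le)).trans e2
  obtain ⟨o, ho, eo⟩ := mem_pr_mul.1 (hl.mul_cj_nm ▸ Submodule.mul_mem_mul k₁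
    (mem_cj.2 (by simpa using k₂) : starRingEnd ℂ g₂ ∈ cj 𝔩))
  obtain ⟨u, y, rfl⟩ := mem_sp.1 ho
  have hx : 2 * (g₁ * starRingEnd ℂ g₂) = nm E 𝔩 * ((2 * u + y * E : ℤ) + y * th E) := by
    rw [← eo]; push_cast; ring
  generalize 2 * u + y * E = x at hx
  have hq : x ^ 2 - y ^ 2 * E = 4 * n₁ * n₂ := by
    have h3 := congrArg (starRingEnd ℂ) hx
    simp only [map_mul, map_add, map_intCast, conj_th, Complex.conj_conj, Complex.conj_ofReal,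
      map_ofNat] at h3
    have h4 : g₁ * starRingEnd ℂ g₁ = n₁ * nm E 𝔩 := by
      rw [Complex.mul_conj, f₁]; push_cast; rfl
    have h5 : g₂ * starRingEnd ℂ g₂ = n₂ * nm E 𝔩 := by
      rw [Complex.mul_conj, f₂]; push_cast; rfl
    have h6 : ((nm E 𝔩 : ℝ) : ℂ) ≠ 0 := by exact_mod_cast hl.nm_pos.ne'
    have h7 : ((x ^ 2 - y ^ 2 * E : ℤ) : ℂ) = ((4 * n₁ * n₂ : ℤ) : ℂ) := by
      apply mul_left_cancel₀ (pow_ne_zero 2 h6)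
      push_cast
      linear_combination (nm E 𝔩 : ℂ) ^ 2 * y ^ 2 * th_sq hl.isD.1.le
        - (nm E 𝔩 : ℂ) * (x + y * -th E) * hx - 2 * (g₁ * starRingEnd ℂ g₂) * h3
        + 4 * (g₂ * starRingEnd ℂ g₂) * h4 + 4 * n₁ * (nm E 𝔩 : ℂ) * h5
    exact_mod_cast h7
  have hq' : (x : ℚ_[p]) ^ 2 - y ^ 2 * E = 4 * n₁ * n₂ := by exact_mod_cast hq
  have hα : ‖(m₁ : ℚ_[p]) ^ 2 * n₂‖ = ‖(n₂ : ℚ_[p])‖ := by rw [norm_mul, norm_pow, u₁]; simp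
  have i₁ := Padic.norm_int_le_one (p := p) (m₁ * m₂ * y)
  have i₂ := Padic.norm_int_le_one (p := p) (4 * (m₁ ^ 2 * n₂))
  push_cast at i₁ i₂
  have hfac := ctD_fac p (E := E) (X := m₁ * m₂ * x) (Y := m₁ * m₂ * y) (α := m₂ ^ 2 * n₁)
    (α' := m₁ ^ 2 * n₂) (l := (p : ℝ)⁻¹ ^ (3 * c + 2)) (T := (p : ℝ)⁻¹ ^ (w + (4 * c + 1)))
    (by positivity) i₁ i₂ hd
    (by
      rw [norm_mul, hα, show (4 : ℚ_[p]) = 2 ^ 2 by norm_num, norm_pow, pow_add, mul_comm 3 c,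
        pow_mul, mul_comm]
      exact mul_le_mul (pow_le_pow_left₀ q0.le h2 2) hn₂ (by positivity) (by positivity))
    (by linear_combination (m₁ : ℚ_[p]) ^ 2 * m₂ ^ 2 * hq')
    (hw.trans (le_of_eq (by rw [← pow_add]; congr 1; omega)))
  have hE : (p : ℤ) ^ (w + (4 * c + 1)) ∣ E := (Padic.norm_int_le_pow_iff_dvd E _).1 (by
    rw [hz]; exact hw.trans (pow_le_pow_of_le_one q0.le q1.le (by omega)))
  have fin : ∀ ε : ℤ, ‖(m₁ : ℚ_[p]) * m₂ * x - 2 * ε * (m₁ ^ 2 * n₂)‖ ≤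
      (p : ℝ)⁻¹ ^ (w + (4 * c + 1)) → a₁ - ε * a₂ ∈ pr ((p : ℂ) ^ w) * 𝔩 := fun ε h => by
    have h1 := ctD_lat hl k₂ f₂ hx ((Padic.norm_int_le_pow_iff_dvd
      (m₁ * m₂ * x - 2 * ε * (m₁ ^ 2 * n₂)) _).1 (by rw [hz]; push_cast; exact h)) hE
    refine mem_of_mul_mem p (𝔩.sub_mem H₁.1 (ctD_int_mul H₂.1 ε))
      (m := 2 * (m₁ ^ 2 * n₂) * (m₁ * m₂ * p ^ c)) (u := 4 * c + 1) ?_ ?_
    · rw [hz]
      push_cast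
      rw [norm_mul, norm_mul, hα, norm_mul, norm_mul, u₁, u₂, hπ, one_mul, one_mul,
        show 4 * c + 1 = 1 + c * 3 + c by ring, pow_add, pow_add, pow_mul, pow_one]
      exact mul_le_mul_of_nonneg_right (mul_le_mul h2 hn₂ (by positivity) (by positivity))
        (by positivity)
    · push_cast at h1 ⊢
      have : (2 : ℂ) * (m₁ ^ 2 * n₂) * (m₁ * m₂ * (p : ℂ) ^ c) * (a₁ - ε * a₂) =
          2 * (m₁ ^ 2 * n₂) * (th E * (m₂ * g₁ - ε * m₁ * g₂)) := by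
        linear_combination 2 * (m₁ ^ 2 * n₂) * (ε * m₁ * e₂ - m₂ * e₁)
      rwa [this]
  rcases hfac with h | h
  · exact Or.inl (by simpa using fin 1 (by simpa using h))
  · exact Or.inr (by simpa using fin (-1) (by simpa using h))

end Pool.Agent.EQ
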