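import Pool.Agent.P.MP_ad7a55_nt.CtD

/-! Counting the linear parts of exceptional maps, second part. -/

set_option autoImplicit false

noncomputable section

open MeasureTheory Topology Filter UpperHalfPlane
open scoped MatrixGroups ENNReal BoundedContinuousFunction

namespace Pool.Agent.EQ

/-- The vectors `a` with `2 √E a ∈ h 𝔩`. -/
def Lh (E : ℤ) (h : ℕ) (𝔩 : Lt) : Lt :=
  𝔩 ⊓ (pr h * 𝔩).comap (LinearMap.mulLeft ℤ (2 * th E))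

theorem mem_Lh {E : ℤ} {h : ℕ} {𝔩 : Lt} {a : ℂ} :
    a ∈ Lh E h 𝔩 ↔ a ∈ 𝔩 ∧ 2 * th E * a ∈ pr h * 𝔩 := Iff.rfl

theorem ctd2_indep {E : ℤ} (hE : E < 0) {r s : ℝ} (h : (r : ℂ) + s * th E = 0) :
    r = 0 ∧ s = 0 := by
  have h1 := congrArg Complex.re h
  have h2 := congrArg Complex.im h
  simp only [Complex.add_re, Complex.ofReal_re, Complex.mul_re, ord2_th_re, mul_zero,
    Complex.ofReal_im, zero_mul, sub_zero, add_zero, Complex.zero_re, Complex.add_im,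
    Complex.mul_im, zero_add, Complex.zero_im] at h1 h2
  exact ⟨h1, (mul_eq_zero.1 h2).resolve_right (ord2_th_im_ne hE)⟩

theorem ctd2_indep' {E : ℤ} (hE : E < 0) {r s : ℤ} (h : (r : ℂ) + s * th E = 0) :
    r = 0 ∧ s = 0 := by
  have := ctd2_indep hE (r := r) (s := s) (by simpa using h)
  exact_mod_cast this

theorem ctd2_OD_mul {E : ℤ} {𝔩 : Lt} (h𝔩 : DiscL 𝔩 E) {o w : ℂ} (ho : o ∈ OD E) (hw : w ∈ 𝔩) :
    o * w ∈ 𝔩 := pr_mul_le.1 ((h𝔩.end_iff o).2 ho) w hw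

theorem ctd2_two_th {E : ℤ} {𝔩 : Lt} (h𝔩 : DiscL 𝔩 E) {w : ℂ} (hw : w ∈ 𝔩) :
    2 * th E * w ∈ 𝔩 := by
  have := ctd2_OD_mul h𝔩 (th_mem_OD E) hw
  rw [mul_assoc, two_mul]
  exact add_mem this this

theorem ctd2_prod {E : ℤ} {𝔩 : Lt} (h𝔩 : DiscL 𝔩 E) {a l : ℂ} (ha : a ∈ 𝔩) (hl : l ∈ cj 𝔩) :
    ∃ u v : ℤ, 2 * (a * l) = nm E 𝔩 * (2 * u + v * E + v * th E) := by
  have := Submodule.mul_mem_mul ha hl
  rw [h𝔩.mul_cj_nm] at this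
  obtain ⟨o, ho, e⟩ := mem_pr_mul.1 this
  obtain ⟨u, v, rfl⟩ := mem_sp.1 ho
  exact ⟨u, v, by linear_combination (-2 : ℂ) * e⟩

theorem ctd2_nm_mem {E : ℤ} {𝔩 : Lt} (h𝔩 : DiscL 𝔩 E) : ((nm E 𝔩 : ℝ) : ℂ) ∈ 𝔩 * cj 𝔩 := by
  rw [h𝔩.mul_cj_nm]
  exact mem_pr_mul.2 ⟨1, one_mem_OD E, mul_one _⟩

theorem ctd2_prod' {E : ℤ} {𝔩 : Lt} (h𝔩 : DiscL 𝔩 E) {h : ℕ} {a l : ℂ} (ha : a ∈ Lh E h 𝔩)
    (hl : l ∈ cj 𝔩) : ∃ k y : ℤ, 4 * (a * l) = nm E 𝔩 * (h * k + 2 * y * th E) := by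
  obtain ⟨u, v, e⟩ := ctd2_prod h𝔩 ha.1 hl
  obtain ⟨a', ha', e'⟩ := mem_pr_mul.1 (mem_Lh.1 ha).2
  obtain ⟨u', v', e''⟩ := ctd2_prod h𝔩 ha' hl
  have hν : ((nm E 𝔩 : ℝ) : ℂ) ≠ 0 := by exact_mod_cast h𝔩.nm_pos.ne'
  have ht := th_sq h𝔩.isD.1.le
  have h1 : ((2 * v * E - h * (2 * u' + v' * E) : ℤ) : ℂ) +
      ((2 * (2 * u + v * E) - h * v' : ℤ) : ℂ) * th E = 0 := by
    apply mul_left_cancel₀ hν
    push_cast
    linear_combination (-2 * th E) * e + (h : ℂ) * e'' - 2 * l * e' - 2 * v * (nm E 𝔩 : ℂ) * ht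
  have h2 : ((2 * (2 * u + v * E) - h * v' : ℤ) : ℂ) = 0 := by
    exact_mod_cast (ctd2_indep' h𝔩.isD.1 h1).2
  push_cast at h2
  exact ⟨v', v, by linear_combination 2 * e + (nm E 𝔩 : ℂ) * h2⟩

theorem Lh_spec {E : ℤ} {𝔩 : Lt} (h𝔩 : DiscL 𝔩 E) {h : ℕ} (h0 : 0 < h) (hE : (h : ℤ) ^ 2 ∣ 4 * E) :
    IsLat (Lh E h 𝔩) ∧ (h : ℝ) * vol 𝔩 ≤ 4 * vol (Lh E h 𝔩) ∧
      ∀ a ∈ Lh E h 𝔩, a ≠ 0 → (h : ℝ) ^ 2 / 16 * nm E 𝔩 ≤ Complex.normSq a := by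
  have hD := h𝔩.isD.1
  have hh : (h : ℂ) ≠ 0 := by exact_mod_cast h0.ne'
  have hint : ∀ Λ : Lt, pr h * Λ ≤ Λ := fun Λ => by simpa using pr_int_le (h : ℤ) Λ
  have hL : IsLat (Lh E h 𝔩) := by
    refine h𝔩.isLat.of_between h0 (pr_mul_le.2 fun w hw => mem_Lh.2 ⟨pr_mul_le.1 (hint 𝔩) w hw,
      mem_pr_mul.2 ⟨_, ctd2_two_th h𝔩 hw, by ring⟩⟩) ((hint _).trans inf_le_left)
  refine ⟨hL, ?_, fun a ha ha0 => ?_⟩
  · obtain ⟨n, hn, e, hle⟩ := exists_index h𝔩.isLat hL inf_le_left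
    have h1 : 2 * n * th E / h ∈ OD E := by
      refine (h𝔩.end_iff _).1 (pr_mul_le.2 fun w hw => ?_)
      obtain ⟨w', hw', e'⟩ := mem_pr_mul.1 (mem_Lh.1 (pr_mul_le.1 hle w hw)).2
      have : 2 * n * th E / h * w = w' := by
        field_simp
        linear_combination -e'
      rwa [this]
    obtain ⟨u, v, e'⟩ := mem_sp.1 h1
    rw [div_eq_iff hh] at e'
    have h2 : ((h * (2 * u + v * E) : ℤ) : ℂ) + ((h * v - 4 * n : ℤ) : ℂ) * th E = 0 := by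
      push_cast
      linear_combination (-2 : ℂ) * e'
    have h3 : (h : ℤ) ≤ 4 * n :=
      Int.le_of_dvd (by omega) ⟨v, by linear_combination -(ctd2_indep' hD h2).2⟩
    have h4 : (h : ℝ) ≤ 4 * n := by exact_mod_cast h3
    rw [e, ← mul_assoc]
    exact mul_le_mul_of_nonneg_right h4 (vol_pos h𝔩.isLat).le
  · obtain ⟨e, he⟩ := hE
    have he' : 4 * (E : ℂ) = h ^ 2 * e := by exact_mod_cast he
    have ht := th_sq hD.le
    have key : ∀ w ∈ 𝔩 * cj 𝔩, ∃ r s : ℤ, 16 * (Complex.normSq a : ℂ) * w =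
        (nm E 𝔩 : ℂ) ^ 2 * (h ^ 2 * r + s * th E) := by
      intro w hw
      refine Submodule.mul_induction_on hw (fun m hm l hl => ?_) ?_
      · obtain ⟨k, y, e1⟩ := ctd2_prod' h𝔩 ha hl
        obtain ⟨k', y', e2⟩ := ctd2_prod' h𝔩 ha (l := starRingEnd ℂ m)
          (mem_cj.2 (by simpa using hm))
        have e3 := congrArg (starRingEnd ℂ) e2
        simp only [map_mul, map_add, map_ofNat, Complex.conj_conj, Complex.conj_ofReal,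
          map_natCast, map_intCast, conj_th] at e3
        refine ⟨k * k' - y * y' * e, 2 * h * (y * k' - k * y'), ?_⟩
        rw [← Complex.mul_conj]
        push_cast
        linear_combination (4 * (starRingEnd ℂ a * m)) * e1 +
          (nm E 𝔩 : ℂ) * (h * k + 2 * y * th E) * e3 - 4 * y * y' * (nm E 𝔩 : ℂ) ^ 2 * ht -
          y * y' * (nm E 𝔩 : ℂ) ^ 2 * he'
      · rintro x y ⟨r, s, e1⟩ ⟨r', s', e2⟩
        exact ⟨r + r', s + s', by push_cast; linear_combination e1 + e2⟩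
    obtain ⟨r, s, e1⟩ := key _ (ctd2_nm_mem h𝔩)
    have hν := h𝔩.nm_pos
    have hν' : ((nm E 𝔩 : ℝ) : ℂ) ≠ 0 := by exact_mod_cast hν.ne'
    have e2 : ((nm E 𝔩 * h ^ 2 * r - 16 * Complex.normSq a : ℝ) : ℂ) +
        ((nm E 𝔩 * s : ℝ) : ℂ) * th E = 0 := by
      apply mul_left_cancel₀ hν'
      push_cast
      linear_combination -e1
    have e3 := (ctd2_indep hD e2).1
    have e4 := Complex.normSq_pos.2 ha0
    have e5 : (0 : ℝ) < nm E 𝔩 * h ^ 2 := by positivity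
    have e6 : (0 : ℝ) < r := pos_of_mul_pos_left (b := nm E 𝔩 * h ^ 2) (by linarith) e5.le
    have e7 : (1 : ℝ) ≤ r := by
      have : 0 < r := by exact_mod_cast e6
      exact_mod_cast this
    nlinarith

theorem mem_Lh_of_dvd {E : ℤ} {𝔩 : Lt} (h𝔩 : DiscL 𝔩 E) {h : ℕ} (hE : (h : ℤ) ^ 2 ∣ 4 * E)
    {a : ℂ} (ha : a ∈ 𝔩) {A : ℤ} (hA : Complex.normSq a = A * nm E 𝔩)
    (hh : (h : ℤ) ^ 2 ∣ 4 * A) : a ∈ Lh E h 𝔩 := by
  have hD := h𝔩.isD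
  have hν := h𝔩.nm_pos
  have hν' : ((nm E 𝔩 : ℝ) : ℂ) ≠ 0 := by exact_mod_cast hν.ne'
  have ht := th_sq hD.1.le
  have key : ∀ w ∈ 𝔩 * cj 𝔩, ∃ z ∈ 𝔩, 2 * th E * a * w = nm E 𝔩 * (h * z) := by
    intro w hw
    refine Submodule.mul_induction_on hw (fun m hm l hl => ?_) ?_
    · obtain ⟨u, v, e1⟩ := ctd2_prod h𝔩 ha hl
      obtain ⟨n, hn⟩ := h𝔩.normSq_nat (mem_cj.1 hl)
      have e2 := congrArg (starRingEnd ℂ) e1
      simp only [map_mul, map_add, map_ofNat, Complex.conj_ofReal, map_intCast, conj_th] at e2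
      have e3 : a * starRingEnd ℂ a = A * nm E 𝔩 := by
        rw [Complex.mul_conj, hA]; push_cast; ring
      have e4 : l * starRingEnd ℂ l = n * nm E 𝔩 := by
        rw [Complex.mul_conj, ← Complex.normSq_conj, hn]; push_cast; ring
      have e5 : (((2 * u + v * E) ^ 2 : ℤ) : ℂ) = ((4 * A * n + v ^ 2 * E : ℤ) : ℂ) := by
        apply mul_left_cancel₀ (pow_ne_zero 2 hν')
        push_cast
        linear_combination (-2 * (starRingEnd ℂ a * starRingEnd ℂ l)) * e1 -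
          (nm E 𝔩 : ℂ) * (2 * u + v * E + v * th E) * e2 + 4 * (l * starRingEnd ℂ l) * e3 +
          4 * A * (nm E 𝔩 : ℂ) * e4 + v ^ 2 * (nm E 𝔩 : ℂ) ^ 2 * ht
      have e6 : (2 * u + v * E) ^ 2 = 4 * A * n + v ^ 2 * E := by exact_mod_cast e5
      obtain ⟨v', hv'⟩ : (h : ℤ) ∣ 2 * (2 * u + v * E) := by
        refine (Int.pow_dvd_pow_iff two_ne_zero).1 ?_
        have : (2 * (2 * u + v * E)) ^ 2 = 4 * A * (4 * n) + 4 * E * v ^ 2 := by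
          linear_combination 4 * e6
        rw [this]
        exact dvd_add (hh.mul_right _) (hE.mul_right _)
      obtain ⟨u', hu'⟩ : (h : ℤ) ∣ E * (v - (2 * u + v * E)) := by
        refine (Int.pow_dvd_pow_iff two_ne_zero).1 ?_
        rcases hD.2 with h4 | h4
        · obtain ⟨k, hk⟩ : ∃ k, E = 4 * k := ⟨E / 4, by omega⟩
          have : (E * (v - (2 * u + v * E))) ^ 2 = 4 * E * (k * (v - (2 * u + v * E)) ^ 2) := by
            linear_combination E * (v - (2 * u + v * E)) ^ 2 * hk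
          rw [this]
          exact hE.mul_right _
        · obtain ⟨k, hk⟩ : ∃ k, E = 4 * k + 1 := ⟨E / 4, by omega⟩
          have e7 : v - (2 * u + v * E) = -2 * (u + 2 * k * v) := by
            linear_combination (-v) * hk
          have : (E * (v - (2 * u + v * E))) ^ 2 = 4 * E * (E * (u + 2 * k * v) ^ 2) := by
            rw [e7]; ring
          rw [this]
          exact hE.mul_right _
      have hv'' : 2 * (2 * (u : ℂ) + v * E) = h * v' := by exact_mod_cast hv'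
      have hu'' : (E : ℂ) * (v - (2 * u + v * E)) = h * u' := by exact_mod_cast hu'
      refine ⟨_, ctd2_OD_mul h𝔩 (mem_sp.2 ⟨u', v', rfl⟩) hm, ?_⟩
      linear_combination th E * m * e1 + (nm E 𝔩 : ℂ) * m * hu'' +
        (nm E 𝔩 : ℂ) * m * ((E + th E) / 2) * hv'' + v * (nm E 𝔩 : ℂ) * m * ht
    · rintro x y ⟨z, hz, e1⟩ ⟨z', hz', e2⟩
      exact ⟨z + z', add_mem hz hz', by linear_combination e1 + e2⟩
  obtain ⟨z, hz, e⟩ := key _ (ctd2_nm_mem h𝔩)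
  exact mem_Lh.2 ⟨ha, mem_pr_mul.2 ⟨z, hz, mul_left_cancel₀ hν' (by linear_combination -e)⟩⟩

/-- Division by a number prime to `h`. -/
theorem ctd2_div {E : ℤ} {𝔩 : Lt} (h𝔩 : DiscL 𝔩 E) {h q : ℕ} (hq : Nat.Coprime q h) {g : ℂ}
    (hg : g ∈ 𝔩) (h1 : (q : ℂ) * g ∈ Lh E h 𝔩) : g ∈ Lh E h 𝔩 := by
  obtain ⟨α, β, e⟩ := Nat.isCoprime_iff_coprime.2 hq
  have e' : (α : ℂ) * q + β * h = 1 := by exact_mod_cast e
  obtain ⟨z, hz, ez⟩ := mem_pr_mul.1 (mem_Lh.1 h1).2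
  refine mem_Lh.2 ⟨hg, mem_pr_mul.2 ⟨α • z + β • (2 * th E * g),
    add_mem (𝔩.smul_mem α hz) (𝔩.smul_mem β (ctd2_two_th h𝔩 hg)), ?_⟩⟩
  simp only [zsmul_eq_mul]
  linear_combination (α : ℂ) * ez + 2 * th E * g * e'

variable (p : ℕ) [Fact p.Prime]

theorem ctd2_val {E : ℤ} (hE : E ≠ 0) (c' : ℕ) : ∃ w : ℕ,
    ((p : ℝ) ^ w)⁻¹ ≤ (p : ℝ) ^ c' * ‖(E : ℚ_[p])‖ ∧
      (w = 0 ∨ ‖(E : ℚ_[p])‖ ≤ (p : ℝ) ^ (-((w + c' : ℕ) : ℤ))) := by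
  have hp : (1 : ℝ) ≤ p := by exact_mod_cast (Fact.out : p.Prime).one_le
  have hp0 : (p : ℝ) ≠ 0 := by positivity
  have h1 : ‖(E : ℚ_[p])‖ = (p : ℝ) ^ (-(E : ℚ_[p]).valuation) :=
    Padic.norm_eq_zpow_neg_valuation (by exact_mod_cast hE)
  generalize (E : ℚ_[p]).valuation = v at h1
  rw [h1, ← zpow_natCast (p : ℝ) c', ← zpow_add₀ hp0]
  rcases le_total v c' with h | h
  · exact ⟨0, by simpa using one_le_zpow₀ hp (by omega), Or.inl rfl⟩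
  · refine ⟨(v - c').toNat, ?_, Or.inr (zpow_le_zpow_right₀ hp (by push_cast; omega))⟩
    rw [← zpow_natCast, ← zpow_neg]
    exact zpow_le_zpow_right₀ hp (by omega)

theorem card_lin1 (c : ℕ) : ∃ C : ℝ, 0 < C ∧ ∀ (E : ℤ) (𝔩 : Lt), DiscL 𝔩 E → ∀ s : ℤ, E ∣ s →
    ‖(E : ℚ_[p])‖ ≤ (p : ℝ) ^ c * ‖(s : ℚ_[p])‖ → ∀ X : ℝ, 0 ≤ X → ∀ h ∈ Hs p E,
      {a | ∃ B, Lin1 p c E 𝔩 s X a B ∧ h ^ 2 ∣ 4 * B}.Finite ∧
        (h : ℝ) * {a | ∃ B, Lin1 p c E 𝔩 s X a B ∧ h ^ 2 ∣ 4 * B}.ncard ≤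
          C * (Real.sqrt X * ‖(E : ℚ_[p])‖ + X / Real.sqrt (-(E : ℝ)) * ‖(E : ℚ_[p])‖ ^ 2) := by
  have hpp : p.Prime := Fact.out
  have hp : (1 : ℝ) ≤ p := by exact_mod_cast hpp.one_le
  obtain ⟨c', hc'⟩ := lin1_diff p c
  refine ⟨18 * (2 * (p : ℝ) ^ c + 8 * (p : ℝ) ^ c' + 32 * ((p : ℝ) ^ c') ^ 2), by positivity,
    fun E 𝔩 h𝔩 s hs hEs X hX h hh => ?_⟩
  have hD := h𝔩.isD.1
  obtain ⟨hh1, hh2, hh3⟩ := Finset.mem_filter.1 hh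
  have h0 : 0 < h := Nat.pos_of_mem_divisors hh1
  have h0' : (0 : ℝ) < h := by exact_mod_cast h0
  set S := {a | ∃ B, Lin1 p c E 𝔩 s X a B ∧ h ^ 2 ∣ 4 * B} with hS
  set e := ‖(E : ℚ_[p])‖ with he
  have e0 : 0 ≤ e := norm_nonneg _
  rcases S.eq_empty_or_nonempty with h1 | ⟨a₀, B₀, l0, d0⟩
  · rw [h1, Set.ncard_empty, Nat.cast_zero, mul_zero]
    exact ⟨Set.finite_empty, by positivity⟩
  have hν := h𝔩.nm_pos
  have hV := vol_pos h𝔩.isLat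
  obtain ⟨L1, L2, L3⟩ := Lh_spec h𝔩 h0 hh3
  have hV' := vol_pos L1
  have b1 : (h : ℝ) ≤ 2 * (p : ℝ) ^ c * (Real.sqrt X * e) := by
    obtain ⟨f1, f2⟩ := card_mult p h0 hh2 hX (t := (p : ℝ) ^ c * e ^ 2) (by positivity)
    have f3 : (1 : ℝ) ≤ {n : ℕ | 0 < n ∧ (n : ℝ) ≤ X ∧ h ^ 2 ∣ 4 * n ∧
        ‖(n : ℚ_[p])‖ ≤ (p : ℝ) ^ c * e ^ 2}.ncard := by
      exact_mod_cast (Set.ncard_pos f1).2 ⟨B₀, l0.2.1, l0.2.2.1, d0, l0.2.2.2.2.2.1⟩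
    have f4 := (le_mul_of_one_le_right (by positivity) f3).trans f2
    have f5 : (p : ℝ) ^ c ≤ ((p : ℝ) ^ c) ^ 2 := le_self_pow₀ (one_le_pow₀ hp) two_ne_zero
    refine (pow_le_pow_iff_left₀ h0'.le (by positivity) two_ne_zero).1 (f4.trans ?_)
    rw [mul_pow, mul_pow, mul_pow, Real.sq_sqrt hX]
    have := mul_le_mul_of_nonneg_right f5 (show 0 ≤ X * e ^ 2 by positivity)
    linarith
  have mem : ∀ a B, Lin1 p c E 𝔩 s X a B → h ^ 2 ∣ 4 * B →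
      a ∈ Lh E h 𝔩 ∧ Complex.normSq a ≤ X * nm E 𝔩 := by
    intro a B l d
    refine ⟨mem_Lh_of_dvd h𝔩 hh3 l.1 (A := B + s) (by rw [l.2.2.2.1]; push_cast; ring) ?_, ?_⟩
    · rw [mul_add]
      exact dvd_add (by exact_mod_cast d) (hh3.trans (mul_dvd_mul_left 4 hs))
    · rw [l.2.2.2.1]
      exact mul_le_mul_of_nonneg_right l.2.2.2.2.1 hν.le
  obtain ⟨w, w1, w2⟩ := ctd2_val p hD.ne c'
  rw [← he] at w1 w2
  have pw : (0 : ℝ) < (p : ℝ) ^ w := by positivity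
  set q := ((p : ℝ) ^ w)⁻¹ with hq
  have q0 : 0 < q := inv_pos.2 pw
  obtain ⟨T1, T2⟩ := card_pts L1 (l := (h : ℝ) ^ 2 / 16 * nm E 𝔩) (by positivity) L3
    (Y := 4 * X * nm E 𝔩 * q ^ 2) (by positivity)
  set T := {z | z ∈ Lh E h 𝔩 ∧ Complex.normSq z ≤ 4 * X * nm E 𝔩 * q ^ 2} with hT
  have dv : ∀ x : ℂ, x ∈ Lh E h 𝔩 → Complex.normSq x ≤ 4 * X * nm E 𝔩 →
      x ∈ pr ((p : ℂ) ^ w) * 𝔩 → ∃ g ∈ T, (p : ℂ) ^ w * g = x := by
    intro x x1 x2 x3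
    obtain ⟨g, hg, rfl⟩ := mem_pr_mul.1 x3
    refine ⟨g, ⟨ctd2_div h𝔩 (q := p ^ w)
      (Nat.Coprime.pow_left w ((Nat.Prime.coprime_iff_not_dvd hpp).2 hh2)) hg
      (by push_cast; exact x1), ?_⟩, rfl⟩
    rw [map_mul, map_pow, Complex.normSq_natCast, mul_pow] at x2
    rw [hq, inv_pow, ← div_eq_mul_inv, le_div_iff₀ (by positivity)]
    linarith
  have sub : S ⊆ (fun g => a₀ + (p : ℂ) ^ w * g) '' T ∪ (fun g => -a₀ + (p : ℂ) ^ w * g) '' T := by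
    rintro a ⟨B, l, d⟩
    obtain ⟨m1, m2⟩ := mem a B l d
    obtain ⟨m3, m4⟩ := mem a₀ B₀ l0 d0
    have n1 := Complex.normSq_sub a a₀
    have n2 := Complex.normSq_add a a₀
    have n3 := Complex.normSq_nonneg (a - a₀)
    have n4 := Complex.normSq_nonneg (a + a₀)
    have alt : a - a₀ ∈ pr ((p : ℂ) ^ w) * 𝔩 ∨ a + a₀ ∈ pr ((p : ℂ) ^ w) * 𝔩 := by
      rcases w2 with rfl | w2
      · exact Or.inl (mem_pr_mul.2 ⟨_, sub_mem l.1 l0.1, by simp⟩)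
      · exact hc' E 𝔩 h𝔩 s hEs X a a₀ B B₀ l l0 w w2
    rcases alt with h2 | h2
    · obtain ⟨g, hg, eg⟩ := dv _ (sub_mem m1 m3) (by linarith) h2
      exact Or.inl ⟨g, hg, by simp only [eg]; ring⟩
    · obtain ⟨g, hg, eg⟩ := dv _ (add_mem m1 m3) (by linarith) h2
      exact Or.inr ⟨g, hg, by simp only [eg]; ring⟩
  have fin := (T1.image fun g => a₀ + (p : ℂ) ^ w * g).union
    (T1.image fun g => -a₀ + (p : ℂ) ^ w * g)
  refine ⟨fin.subset sub, ?_⟩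
  have c1 : (S.ncard : ℝ) ≤ 2 * T.ncard := by
    have := (Set.ncard_le_ncard sub fin).trans ((Set.ncard_union_le _ _).trans
      (add_le_add (Set.ncard_image_le T1) (Set.ncard_image_le T1)))
    rw [two_mul]
    exact_mod_cast this
  have b2 : (h : ℝ) * Real.sqrt (4 * X * nm E 𝔩 * q ^ 2 / ((h : ℝ) ^ 2 / 16 * nm E 𝔩)) ≤
      8 * (p : ℝ) ^ c' * (Real.sqrt X * e) := by
    have : 4 * X * nm E 𝔩 * q ^ 2 / ((h : ℝ) ^ 2 / 16 * nm E 𝔩) = (8 * q / h) ^ 2 * X := by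
      field_simp
      ring
    rw [this, Real.sqrt_mul (sq_nonneg _), Real.sqrt_sq (by positivity)]
    have e1 : (h : ℝ) * (8 * q / h * Real.sqrt X) = 8 * Real.sqrt X * q := by field_simp
    have e2 := mul_le_mul_of_nonneg_left w1 (show 0 ≤ 8 * Real.sqrt X by positivity)
    linarith
  have hE' : 0 < Real.sqrt (-(E : ℝ)) := Real.sqrt_pos.2 (by
    have : (E : ℝ) < 0 := by exact_mod_cast hD
    linarith)
  have b3 : (h : ℝ) * (4 * X * nm E 𝔩 * q ^ 2 / vol (Lh E h 𝔩)) ≤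
      32 * ((p : ℝ) ^ c') ^ 2 * (X / Real.sqrt (-(E : ℝ)) * e ^ 2) := by
    have e1 : (h : ℝ) / vol (Lh E h 𝔩) ≤ 4 / vol 𝔩 := by
      rw [div_le_div_iff₀ hV' hV]; exact L2
    have e2 : q ^ 2 ≤ ((p : ℝ) ^ c' * e) ^ 2 := pow_le_pow_left₀ q0.le w1 2
    calc (h : ℝ) * (4 * X * nm E 𝔩 * q ^ 2 / vol (Lh E h 𝔩))
        = (h : ℝ) / vol (Lh E h 𝔩) * (4 * X * nm E 𝔩 * q ^ 2) := by ring
      _ ≤ 4 / vol 𝔩 * (4 * X * nm E 𝔩 * ((p : ℝ) ^ c' * e) ^ 2) := by gcongr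
      _ = _ := by
        rw [nm]
        field_simp
        ring
  have p1 : 0 ≤ Real.sqrt X * e := by positivity
  have p2 : 0 ≤ X / Real.sqrt (-(E : ℝ)) * e ^ 2 := by positivity
  have p3 : 0 ≤ (p : ℝ) ^ c := by positivity
  have p4 : 0 ≤ (p : ℝ) ^ c' := by positivity
  have c2 := mul_le_mul_of_nonneg_left (c1.trans (mul_le_mul_of_nonneg_left T2 zero_le_two)) h0'.le
  have m1 := mul_nonneg p3 p2
  have m2 := mul_nonneg p4 p2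
  have m3 := mul_nonneg (sq_nonneg ((p : ℝ) ^ c')) p1
  linarith

end Pool.Agent.EQ
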