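import Pool.Agent.P.MP_ad7a55_nt.CtC

/-! Exceptional pairs of lattices. -/

set_option autoImplicit false

noncomputable section

open MeasureTheory Topology Filter UpperHalfPlane
open scoped MatrixGroups ENNReal BoundedContinuousFunction

namespace Pool.Agent.EQ

/-- The real linear map `z ↦ α z + β z̄`. -/
def rl (α β z : ℂ) : ℂ := α * z + β * starRingEnd ℂ z

/-- An exceptional map of degree `n` from `M₁` to `M₂`. -/
def Bad2 (p : ℕ) [Fact p.Prime] (n : ℤ) (c : ℕ) (D₁ D₂ : ℤ) (M₁ M₂ : Lt) : Prop :=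
  ∃ (α β : ℂ) (B : ℕ), 0 < B ∧ (∀ z ∈ M₁, rl α β z ∈ M₂) ∧
    Real.sqrt (D₁ * D₂) * Complex.normSq β * vol M₁ = B * vol M₂ ∧
    (Complex.normSq α - Complex.normSq β) * vol M₁ = n * vol M₂ ∧
    Complex.normSq α * vol M₁ ≤ (p : ℝ) ^ c * vol M₂ ∧
    Complex.normSq β * vol M₁ ≤ (p : ℝ) ^ c * vol M₂ ∧
    ‖(B : ℚ_[p])‖ ≤ (p : ℝ) ^ c * ‖(D₁ : ℚ_[p])‖ * ‖(D₂ : ℚ_[p])‖ ∧
    ∃ m : ℤ, ¬ (p : ℤ) ∣ m ∧ ∀ z ∈ M₁, (m : ℂ) * (p : ℂ) ^ c * α * z ∈ M₂

theorem Bad2.scale {p : ℕ} [Fact p.Prime] {n : ℤ} {c : ℕ} {D₁ D₂ : ℤ} {M₁ M₂ : Lt}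
    (h : Bad2 p n c D₁ D₂ M₁ M₂) (h₁ : IsLat M₁) (h₂ : IsLat M₂) {a b : ℂ} (ha : a ≠ 0)
    (hb : b ≠ 0) : Bad2 p n c D₁ D₂ (pr a * M₁) (pr b * M₂) := by
  obtain ⟨α, β, B, hB, h1, h2, h3, h4, h5, h6, m, hm, h7⟩ := h
  have ha' : starRingEnd ℂ a ≠ 0 := (map_ne_zero _).2 ha
  have na : Complex.normSq a ≠ 0 := fun e => ha (Complex.normSq_eq_zero.1 e)
  have nb : 0 < Complex.normSq b := Complex.normSq_pos.2 hb
  have eα : Complex.normSq (b * α / a) * (Complex.normSq a * vol M₁) =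
      Complex.normSq b * (Complex.normSq α * vol M₁) := by
    rw [map_div₀, map_mul]
    field_simp
  have eβ : Complex.normSq (b * β / starRingEnd ℂ a) * (Complex.normSq a * vol M₁) =
      Complex.normSq b * (Complex.normSq β * vol M₁) := by
    rw [map_div₀, map_mul, Complex.normSq_conj]
    field_simp
  refine ⟨b * α / a, b * β / starRingEnd ℂ a, B, hB, fun z hz => ?_, ?_, ?_, ?_, ?_, h6, m, hm,
    fun z hz => ?_⟩
  · obtain ⟨w, hw, rfl⟩ := mem_pr_mul.1 hz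
    refine mem_pr_mul.2 ⟨_, h1 w hw, ?_⟩
    simp only [rl, map_mul]
    field_simp
  · rw [vol_pr_mul h₁ ha, vol_pr_mul h₂ hb, mul_assoc, eβ]
    linear_combination Complex.normSq b * h2
  · rw [vol_pr_mul h₁ ha, vol_pr_mul h₂ hb, sub_mul, eα, eβ]
    linear_combination Complex.normSq b * h3
  · rw [vol_pr_mul h₁ ha, vol_pr_mul h₂ hb, eα]
    nlinarith [mul_le_mul_of_nonneg_left h4 nb.le]
  · rw [vol_pr_mul h₁ ha, vol_pr_mul h₂ hb, eβ]
    nlinarith [mul_le_mul_of_nonneg_left h5 nb.le]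
  · obtain ⟨w, hw, rfl⟩ := mem_pr_mul.1 hz
    refine mem_pr_mul.2 ⟨_, h7 w hw, ?_⟩
    field_simp

theorem rl_inj {α β : ℂ} (h : Complex.normSq α ≠ Complex.normSq β) :
    Function.Injective (rl α β) := by
  intro z z' e
  have e1 : α * (z - z') = -(β * starRingEnd ℂ (z - z')) := by
    simp only [rl] at e
    rw [map_sub]
    linear_combination e
  have e2 := congrArg Complex.normSq e1
  rw [Complex.normSq_neg, map_mul, map_mul, Complex.normSq_conj] at e2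
  by_contra hne
  have h0 : Complex.normSq (z - z') ≠ 0 := fun e0 =>
    hne (sub_eq_zero.1 (Complex.normSq_eq_zero.1 e0))
  exact h (mul_right_cancel₀ h0 e2)

theorem cte_lin (α β w₁ w₂ : ℂ) (u v : ℤ) :
    rl α β (u * w₁ + v * w₂) = u * rl α β w₁ + v * rl α β w₂ := by
  simp only [rl, map_add, map_mul, map_intCast]
  ring

theorem cte_im (α β w₁ w₂ : ℂ) : (starRingEnd ℂ (rl α β w₁) * rl α β w₂).im =
    (Complex.normSq α - Complex.normSq β) * (starRingEnd ℂ w₁ * w₂).im := by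
  simp only [rl, Complex.normSq_apply, Complex.mul_im, Complex.mul_re, Complex.add_im,
    Complex.add_re, Complex.conj_re, Complex.conj_im]
  ring

theorem cte_im_int (w₁ w₂ : ℂ) (a b c d : ℤ) :
    (starRingEnd ℂ (a * w₁ + b * w₂) * (c * w₁ + d * w₂)).im =
      ((a * d - b * c : ℤ) : ℝ) * (starRingEnd ℂ w₁ * w₂).im := by
  simp only [Complex.mul_im, Complex.mul_re, Complex.add_im, Complex.add_re, Complex.conj_re,
    Complex.conj_im, Complex.intCast_re, Complex.intCast_im]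
  push_cast
  ring

theorem cte_im_vol {c : ℂ} (hc : c ≠ 0) (τ : ℍ) :
    (starRingEnd ℂ c * (c * τ)).im = vol (sp c (c * τ)) := by
  rw [vol_sp hc]
  simp only [Complex.normSq_apply, Complex.mul_im, Complex.mul_re, Complex.conj_re,
    Complex.conj_im, coe_im, coe_re]
  ring

/-- The map `rl` as an additive map. -/
def cteL (α β : ℂ) : ℂ →ₗ[ℤ] ℂ where
  toFun := rl α β
  map_add' z w := by
    simp only [rl, map_add]
    ring
  map_smul' m z := by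
    simp only [rl, zsmul_eq_mul, map_mul, map_intCast, eq_intCast, Int.cast_id]
    ring

theorem cte_card {X Y : Type*} {s : Set X} {t : Set Y} {f : X → Y} (ht : t.Finite) {k : ℕ}
    (h1 : ∀ x ∈ s, f x ∈ t)
    (h2 : ∀ x ∈ s, {x' ∈ s | f x' = f x}.Finite ∧ {x' ∈ s | f x' = f x}.ncard ≤ k) :
    s.Finite ∧ s.ncard ≤ k * t.ncard := by
  classical
  have hs : s.Finite := by
    refine Set.Finite.of_finite_fibers f (ht.subset ?_) ?_
    · rintro _ ⟨x, hx, rfl⟩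
      exact h1 x hx
    · rintro _ ⟨x, hx, rfl⟩
      exact (h2 x hx).1
  refine ⟨hs, ?_⟩
  rw [Set.ncard_eq_toFinset_card s hs, Set.ncard_eq_toFinset_card t ht]
  refine Finset.card_le_mul_card_image_of_maps_to (f := f)
    (fun x hx => ht.mem_toFinset.2 (h1 x (hs.mem_toFinset.1 hx))) k fun y _ => ?_
  rcases (hs.toFinset.filter fun x => f x = y).eq_empty_or_nonempty with e | ⟨x, hx⟩
  · rw [e]
    simp
  · rw [Finset.mem_filter, hs.mem_toFinset] at hx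
    obtain ⟨hx, rfl⟩ := hx
    refine le_trans (le_of_eq ?_) (h2 x hx).2
    rw [← Set.ncard_coe_finset]
    refine congrArg Set.ncard (Set.ext fun x' => ?_)
    simp

/-- The image has index `|n|`. -/
theorem rl_index {M₁ M₂ : Lt} (h₁ : IsLat M₁) (h₂ : IsLat M₂) {α β : ℂ} {n : ℤ}
    (h : ∀ z ∈ M₁, rl α β z ∈ M₂)
    (hn : (Complex.normSq α - Complex.normSq β) * vol M₁ = n * vol M₂) :
    ∀ w ∈ M₂, ∃ z ∈ M₁, rl α β z = n * w := by
  obtain ⟨c, τ, hc, rfl⟩ := h₁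
  obtain ⟨c', τ', hc', rfl⟩ := h₂
  obtain ⟨m11, m12, e1⟩ := mem_sp.1 (h _ (ord_left _ _))
  obtain ⟨m21, m22, e2⟩ := mem_sp.1 (h _ (ord_right _ _))
  have hv := vol_pos (isLat_sp hc' τ')
  have hd : m11 * m22 - m12 * m21 = n := by
    have e3 := cte_im α β c (c * τ)
    rw [e1, e2, cte_im_int, cte_im_vol hc, cte_im_vol hc', hn] at e3
    exact_mod_cast mul_right_cancel₀ hv.ne' e3
  have hd' : (m11 : ℂ) * m22 - m12 * m21 = n := by exact_mod_cast hd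
  intro w hw
  obtain ⟨x, y, rfl⟩ := mem_sp.1 hw
  refine ⟨_, mem_sp.2 ⟨x * m22 - y * m21, y * m11 - x * m12, rfl⟩, ?_⟩
  rw [cte_lin, e1, e2, ← hd']
  push_cast
  ring

theorem rl_mem {M₁ M₂ : Lt} (h₁ : IsLat M₁) {α β : ℂ} (h : ∀ z ∈ M₁, rl α β z ∈ M₂) :
    2 * Complex.I * vol M₁ * α ∈ M₂ * cj M₁ ∧ 2 * Complex.I * vol M₁ * β ∈ M₁ * M₂ := by
  obtain ⟨c, τ, hc, rfl⟩ := h₁
  have a1 : c ∈ sp c (c * τ) := ord_left _ _
  have a2 : c * τ ∈ sp c (c * τ) := ord_right _ _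
  have b1 : starRingEnd ℂ c ∈ cj (sp c (c * τ)) := mem_cj.2 (by rwa [Complex.conj_conj])
  have b2 : starRingEnd ℂ (c * τ) ∈ cj (sp c (c * τ)) := mem_cj.2 (by rwa [Complex.conj_conj])
  have e : 2 * Complex.I * (vol (sp c (c * τ)) : ℂ) =
      starRingEnd ℂ c * (c * τ) - c * starRingEnd ℂ (c * τ) := by
    have := Complex.sub_conj (starRingEnd ℂ c * (c * τ))
    rw [cte_im_vol hc, map_mul, Complex.conj_conj] at this
    rw [this]
    push_cast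
    ring
  rw [e]
  constructor
  · have := sub_mem (Submodule.mul_mem_mul (h _ a2) b1) (Submodule.mul_mem_mul (h _ a1) b2)
    refine (congrArg (· ∈ M₂ * cj (sp c (c * τ))) ?_).mp this
    simp only [rl]
    ring
  · have := sub_mem (Submodule.mul_mem_mul a2 (h _ a1)) (Submodule.mul_mem_mul a1 (h _ a2))
    refine (congrArg (· ∈ sp c (c * τ) * M₂) ?_).mp this
    simp only [rl]
    ring

/-- The pair is determined, up to boundedly many choices, by the map and the two overlattices. -/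
theorem card_rec {n : ℤ} (hn : n ≠ 0) {g₁ g₂ : ℕ} (hg : Nat.Coprime g₁ g₂) (T₁ T₂ : Lt)
    (α β : ℂ) :
    {M : Lt × Lt | IsLat M.1 ∧ IsLat M.2 ∧ M.1 ≤ T₁ ∧ pr g₁ * T₁ ≤ M.1 ∧ M.2 ≤ T₂ ∧
        pr g₂ * T₂ ≤ M.2 ∧ (∀ z ∈ M.1, rl α β z ∈ M.2) ∧
        (Complex.normSq α - Complex.normSq β) * vol M.1 = n * vol M.2}.Finite ∧
      {M : Lt × Lt | IsLat M.1 ∧ IsLat M.2 ∧ M.1 ≤ T₁ ∧ pr g₁ * T₁ ≤ M.1 ∧ M.2 ≤ T₂ ∧
        pr g₂ * T₂ ≤ M.2 ∧ (∀ z ∈ M.1, rl α β z ∈ M.2) ∧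
        (Complex.normSq α - Complex.normSq β) * vol M.1 = n * vol M.2}.ncard ≤
        n.natAbs ^ 9 := by
  set S : Set (Lt × Lt) := {M : Lt × Lt | IsLat M.1 ∧ IsLat M.2 ∧ M.1 ≤ T₁ ∧ pr g₁ * T₁ ≤ M.1 ∧
    M.2 ≤ T₂ ∧ pr g₂ * T₂ ≤ M.2 ∧ (∀ z ∈ M.1, rl α β z ∈ M.2) ∧
      (Complex.normSq α - Complex.normSq β) * vol M.1 = n * vol M.2} with hS
  rcases S.eq_empty_or_nonempty with h0 | ⟨M₀, hM₀⟩
  · rw [h0]
    simp
  have hN : 0 < n.natAbs := Int.natAbs_pos.2 hn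
  have hN' : ((n.natAbs : ℕ) : ℂ) ≠ 0 := by exact_mod_cast hN.ne'
  have habs : ∀ (Λ : Lt) (w : ℂ), (n : ℂ) * w ∈ Λ → ((n.natAbs : ℕ) : ℂ) * w ∈ Λ := by
    intro Λ w hw
    rcases Int.natAbs_eq n with e | e
    · rw [e] at hw
      simpa using hw
    · rw [e] at hw
      have := neg_mem hw
      simpa using this
  have hne : Complex.normSq α ≠ Complex.normSq β := by
    intro e
    have h1 := hM₀.2.2.2.2.2.2.2
    rw [e, sub_self, zero_mul] at h1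
    have h2 : (n : ℝ) ≠ 0 := by exact_mod_cast hn
    exact mul_ne_zero h2 (vol_pos hM₀.2.1).ne' h1.symm
  have hinj : Function.Injective (cteL α β) := rl_inj hne
  obtain ⟨u, v, huv⟩ := Nat.isCoprime_iff_coprime.2 hg
  have huv' : (u : ℂ) * g₁ + v * g₂ = 1 := by exact_mod_cast huv
  have step : ∀ M ∈ S, ∀ M' ∈ S, pr (n.natAbs : ℕ) * M.2 ≤ M'.2 := by
    rintro M ⟨l1, l2, t1, -, t2, -, r1, r2⟩ M' ⟨-, -, -, s1, -, s2, r1', -⟩
    refine pr_mul_le.2 fun w hw => habs _ _ ?_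
    obtain ⟨z, hz, e⟩ := rl_index l1 l2 r1 r2 w hw
    have a1 : rl α β ((g₁ : ℂ) * z) ∈ M'.2 := r1' _ (pr_mul_le.1 s1 z (t1 hz))
    have a2 : (g₂ : ℂ) * w ∈ M'.2 := pr_mul_le.1 s2 w (t2 hw)
    have a3 : rl α β ((g₁ : ℂ) * z) = g₁ * (n * w) := by
      rw [← e]
      simp only [rl, map_mul, map_natCast]
      ring
    rw [a3] at a1
    have a4 := add_mem (M'.2.smul_mem u a1) (M'.2.smul_mem (v * n) a2)
    refine (congrArg (· ∈ M'.2) ?_).mp a4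
    simp only [zsmul_eq_mul]
    push_cast
    linear_combination (n * w) * huv'
  obtain ⟨f1, f2⟩ := card_between (N := n.natAbs ^ 2) (by positivity) hM₀.2.1
  have key := cte_card (s := S) (f := fun M => pr (n.natAbs : ℕ) * M.2) f1 (k := n.natAbs ^ 3)
    (fun M hM => ⟨?_, step M hM M₀ hM₀⟩) (fun M hM => ?_)
  · refine ⟨key.1, key.2.trans ?_⟩
    calc n.natAbs ^ 3 * _ ≤ n.natAbs ^ 3 * (n.natAbs ^ 2) ^ 3 := Nat.mul_le_mul_left _ f2
      _ = n.natAbs ^ 9 := by ring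
  · have := (pr_mul_le_iff hN').2 (step M₀ hM₀ M hM)
    rw [← mul_assoc, pr_mul_pr] at this
    simpa [sq] using this
  · obtain ⟨k1, k2⟩ := card_between hN hM.2.1
    have hmap : ∀ M' ∈ {M' ∈ S | pr (n.natAbs : ℕ) * M'.2 = pr (n.natAbs : ℕ) * M.2},
        M'.2 = M.2 := fun M' hM' =>
      le_antisymm ((pr_mul_le_iff hN').1 hM'.2.le) ((pr_mul_le_iff hN').1 hM'.2.ge)
    have hto : ∀ M' ∈ {M' ∈ S | pr (n.natAbs : ℕ) * M'.2 = pr (n.natAbs : ℕ) * M.2},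
        M'.1.map (cteL α β) ∈ {Λ' | pr (n.natAbs : ℕ) * M.2 ≤ Λ' ∧ Λ' ≤ M.2} := by
      intro M' hM'
      rw [← hmap M' hM']
      obtain ⟨l1, l2, -, -, -, -, r1, r2⟩ := hM'.1
      refine ⟨pr_mul_le.2 fun w hw => habs _ _ ?_, ?_⟩
      · obtain ⟨z, hz, e⟩ := rl_index l1 l2 r1 r2 w hw
        exact ⟨z, hz, e⟩
      · rintro _ ⟨z, hz, rfl⟩
        exact r1 z hz
    have hio : Set.InjOn (fun M' : Lt × Lt => M'.1.map (cteL α β))
        {M' ∈ S | pr (n.natAbs : ℕ) * M'.2 = pr (n.natAbs : ℕ) * M.2} := by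
      intro M₁ h₁ M₂ h₂ e
      exact Prod.ext (Submodule.map_injective_of_injective hinj e)
        ((hmap M₁ h₁).trans (hmap M₂ h₂).symm)
    exact ⟨Set.Finite.of_injOn hto hio k1, (Set.ncard_le_ncard_of_injOn _ hto hio k1).trans k2⟩

end Pool.Agent.EQ
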