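import Pool.Agent.P.MP_ad7a55_nt.CtE
import Pool.Agent.P.MP_ad7a55_nt.CtD2
import Pool.Agent.P.MP_ad7a55_nt.CtB

/-! Counting exceptional pairs. -/

set_option autoImplicit false

noncomputable section

open MeasureTheory Topology Filter UpperHalfPlane
open scoped MatrixGroups ENNReal BoundedContinuousFunction

namespace Pool.Agent.EQ

variable (p : ℕ) [Fact p.Prime]

/-- The exceptional pairs with a fixed class of the quotient. -/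
def Ex2 (n : ℤ) (c : ℕ) (D₁ D₂ : ℤ) (w : ℂ) : Set (ℂ × ℂ) :=
  {z | ∃ M₁ M₂, DiscL M₁ D₁ ∧ DiscL M₂ D₂ ∧ jL M₁ = z.1 ∧ jL M₂ = z.2 ∧ jL (M₂ * cj M₁) = w ∧
    Bad2 p n c D₁ D₂ M₁ M₂}

/-- The pairs with given linear part `a` and given norm `B` of the antilinear part. -/
def Ex3 (n : ℤ) (E : ℤ) (g₁ g₂ : ℕ) (𝔩 : Lt) (a : ℂ) (B : ℕ) : Set (ℂ × ℂ) :=
  {z | ∃ M₁ M₂, DiscL M₁ (g₁ ^ 2 * E) ∧ DiscL M₂ (g₂ ^ 2 * E) ∧ jL M₁ = z.1 ∧ jL M₂ = z.2 ∧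
    M₂ * cj M₁ = 𝔩 ∧ ∃ α β : ℂ, (∀ z ∈ M₁, rl α β z ∈ M₂) ∧
      (Complex.normSq α - Complex.normSq β) * vol M₁ = n * vol M₂ ∧
      a = 2 * Complex.I * vol M₁ * α ∧
      Complex.normSq (2 * Complex.I * vol M₁ * β) = B * nm E 𝔩}

theorem cte2_biUnion {α β : Type*} {A : Set α} (hA : A.Finite) (F : α → Set β) {k : ℕ}
    (hF : ∀ x ∈ A, (F x).Finite ∧ (F x).ncard ≤ k) :
    (⋃ x ∈ A, F x).Finite ∧ (⋃ x ∈ A, F x).ncard ≤ A.ncard * k := by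
  refine ⟨hA.biUnion fun x hx => (hF x hx).1, ?_⟩
  induction A, hA using Set.Finite.induction_on with
  | empty => simp
  | @insert a s ha hs ih =>
    rw [Set.biUnion_insert, Set.ncard_insert_of_notMem ha hs, add_mul, one_mul]
    have h1 := ih fun x hx => hF x (Set.mem_insert_of_mem _ hx)
    have h2 := (hF a (Set.mem_insert _ _)).2
    have h3 := Set.ncard_union_le (F a) (⋃ x ∈ s, F x)
    omega

/-- A chosen lattice with given invariant. -/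
def cte2_rep (t : ℂ) : Lt := (jL_surj t).choose

theorem cte2_rep_spec (t : ℂ) : IsLat (cte2_rep t) ∧ jL (cte2_rep t) = t :=
  (jL_surj t).choose_spec

theorem cte2_pos {E : ℤ} {g : ℕ} {M : Lt} (h : DiscL M (g ^ 2 * E)) : 0 < g := by
  rcases Nat.eq_zero_or_pos g with h0 | h0
  · have := h.isD.1
    rw [h0] at this
    simp at this
  · exact h0

theorem cte2_nm {E : ℤ} {g : ℕ} (M : Lt) :
    nm (g ^ 2 * E) M = 2 * vol M / (g * Real.sqrt (-(E : ℝ))) := by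
  unfold nm
  have h : -(((g : ℤ) ^ 2 * E : ℤ) : ℝ) = (g : ℝ) ^ 2 * (-(E : ℝ)) := by
    push_cast
    ring
  rw [h, Real.sqrt_mul (sq_nonneg _), Real.sqrt_sq (Nat.cast_nonneg g)]

theorem cte2_quot {E : ℤ} (hE : IsD E) {g₁ g₂ : ℕ} (hg : Nat.Coprime g₁ g₂) {M₁ M₂ : Lt}
    (h₁ : DiscL M₁ (g₁ ^ 2 * E)) (h₂ : DiscL M₂ (g₂ ^ 2 * E)) :
    DiscL (M₂ * cj M₁) E ∧ nm E (M₂ * cj M₁) = nm E (M₁ * M₂) ∧
      nm E (M₂ * cj M₁) = 4 * vol M₁ * vol M₂ / (g₁ * g₂ * (-(E : ℝ))) ∧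
      M₂ * cj M₁ = (M₂ * OD E) * cj (M₁ * OD E) := by
  obtain ⟨a1, a2, a3⟩ := discL_mul_cop hE hg h₁.cj h₂
  obtain ⟨-, b2, -⟩ := discL_mul_cop hE hg h₁ h₂
  rw [nm_cj h₁.isLat] at a2
  rw [mul_comm M₂]
  refine ⟨a1, a2.trans b2.symm, ?_, ?_⟩
  · have hE' : (0 : ℝ) ≤ -(E : ℝ) := by
      have : (E : ℝ) < 0 := by exact_mod_cast hE.1
      linarith
    rw [a2, cte2_nm, cte2_nm, div_mul_div_comm]
    congr 1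
    · ring
    · have := Real.mul_self_sqrt hE'
      linear_combination (g₁ * g₂ : ℝ) * this
  · rw [a3, cj_mul, cj_OD, mul_comm]

/-- The conditions in `Ex3`. -/
def cte2_W (n : ℤ) (E : ℤ) (g₁ g₂ : ℕ) (𝔩 : Lt) (a : ℂ) (B : ℕ) (M₁ M₂ : Lt) : Prop :=
  DiscL M₁ (g₁ ^ 2 * E) ∧ DiscL M₂ (g₂ ^ 2 * E) ∧
    M₂ * cj M₁ = 𝔩 ∧ ∃ α β : ℂ, (∀ z ∈ M₁, rl α β z ∈ M₂) ∧
      (Complex.normSq α - Complex.normSq β) * vol M₁ = n * vol M₂ ∧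
      a = 2 * Complex.I * vol M₁ * α ∧
      Complex.normSq (2 * Complex.I * vol M₁ * β) = B * nm E 𝔩

theorem cte2_scale {n E : ℤ} {g₁ g₂ : ℕ} {𝔩 : Lt} {a : ℂ} {B : ℕ} {M₁ M₂ : Lt}
    (h : cte2_W n E g₁ g₂ 𝔩 a B M₁ M₂) {c : ℂ} (hc : c ≠ 0) :
    cte2_W n E g₁ g₂ 𝔩 a B (pr c * M₁) (pr (starRingEnd ℂ c)⁻¹ * M₂) := by
  obtain ⟨h₁, h₂, hl, α, β, hm, hn, ha, hb⟩ := h
  have hc' : starRingEnd ℂ c ≠ 0 := by simpa using hc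
  have hN : Complex.normSq c ≠ 0 := by simpa using hc
  have hv1 := vol_pr_mul h₁.isLat hc
  have hv2 := vol_pr_mul h₂.isLat (inv_ne_zero hc')
  rw [map_inv₀, Complex.normSq_conj] at hv2
  refine ⟨h₁.pr_mul hc, h₂.pr_mul (inv_ne_zero hc'), ?_, (starRingEnd ℂ c)⁻¹ * α / c,
    (starRingEnd ℂ c)⁻¹ * β / starRingEnd ℂ c, ?_, ?_, ?_, ?_⟩
  · rw [cj_mul, cj_pr, mul_mul_mul_comm, pr_mul_pr, inv_mul_cancel₀ hc', pr_one_mul, hl]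
  · intro z hz
    obtain ⟨w, hw, rfl⟩ := mem_pr_mul.1 hz
    refine mem_pr_mul.2 ⟨_, hm w hw, ?_⟩
    unfold rl
    rw [map_mul]
    field_simp
  · rw [hv1, hv2]
    simp only [map_div₀, map_mul, map_inv₀, Complex.normSq_conj]
    field_simp
    linear_combination hn
  · rw [hv1, ha, Complex.ofReal_mul, Complex.normSq_eq_conj_mul_self]
    field_simp
  · rw [← hb, hv1]
    simp only [map_div₀, map_mul, map_inv₀, Complex.normSq_conj, Complex.normSq_ofReal]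
    field_simp

/-- The second overlattice. -/
def cte2_T (E : ℤ) (𝔩 : Lt) (t : ℂ) : Lt :=
  pr ((nm E (cte2_rep t) : ℂ))⁻¹ * (𝔩 * cte2_rep t)

/-- The pairs attached to the data. -/
def cte2_R (n : ℤ) (g₁ g₂ : ℕ) (T₁ T₂ : Lt) (α β : ℂ) : Set (Lt × Lt) :=
  {M : Lt × Lt | IsLat M.1 ∧ IsLat M.2 ∧ M.1 ≤ T₁ ∧ pr g₁ * T₁ ≤ M.1 ∧ M.2 ≤ T₂ ∧
    pr g₂ * T₂ ≤ M.2 ∧ (∀ z ∈ M.1, rl α β z ∈ M.2) ∧
    (Complex.normSq α - Complex.normSq β) * vol M.1 = n * vol M.2}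

theorem cte2_data {n E : ℤ} (hE : IsD E) {g₁ g₂ : ℕ} (hg : Nat.Coprime g₁ g₂) {𝔩 : Lt} {a : ℂ}
    {B : ℕ} (hB : 0 < B) {M₁ M₂ : Lt} (h : cte2_W n E g₁ g₂ 𝔩 a B M₁ M₂) {t : ℂ}
    (ht : M₁ * OD E = cte2_rep t) :
    ∃ 𝔟 ∈ Idl E B, (∃ T, DiscL T E ∧ jL T = t ∧ jL (T * T) = jL (𝔟 * cj 𝔩)) ∧
      ∃ c : ℂ, (c ≠ 0 ∧ pr c * (cte2_rep t * cte2_T E 𝔩 t) = 𝔟) ∧
        (M₁, M₂) ∈ cte2_R n g₁ g₂ (cte2_rep t) (cte2_T E 𝔩 t)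
          (a / (2 * Complex.I * (g₁ * vol (cte2_rep t) : ℝ)))
          (starRingEnd ℂ (c * nm E 𝔩) / (2 * Complex.I * (g₁ * vol (cte2_rep t) : ℝ))) := by
  obtain ⟨h₁, h₂, hl, α, β, hm, hn, ha, hb⟩ := h
  obtain ⟨q1, q2, -, q4⟩ := cte2_quot hE hg h₁ h₂
  obtain ⟨p1, -, p3⟩ := discL_mul_cop hE hg h₁ h₂
  obtain ⟨u1, u2, u3, u4⟩ := discL_up hE h₁
  obtain ⟨v1, -, v3, v4⟩ := discL_up hE h₂
  rw [hl] at q1 q2 q4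
  rw [ht] at q4 p3 u1 u2 u3 u4
  have hν1 : (nm E (cte2_rep t) : ℂ) ≠ 0 := by exact_mod_cast u1.nm_pos.ne'
  have hν2 : (nm E (M₂ * OD E) : ℂ) ≠ 0 := by exact_mod_cast v1.nm_pos.ne'
  have hν : (nm E 𝔩 : ℂ) ≠ 0 := by exact_mod_cast q1.nm_pos.ne'
  have hT : cte2_T E 𝔩 t = M₂ * OD E := by
    unfold cte2_T
    have e : 𝔩 * cte2_rep t = pr (nm E (cte2_rep t)) * (M₂ * OD E) := by
      rw [q4, mul_assoc, mul_comm (cj _), u1.mul_cj_nm, mul_left_comm,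
        mul_comm (M₂ * OD E) (OD E), v1.OD_mul]
    rw [e, ← mul_assoc, pr_mul_pr, inv_mul_cancel₀ hν1, pr_one_mul]
  have hbm := (rl_mem h₁.isLat hm).2
  have hb0 : 2 * Complex.I * vol M₁ * β ≠ 0 := by
    intro h0
    rw [h0, map_zero] at hb
    have : (0 : ℝ) < B * nm E 𝔩 := mul_pos (by exact_mod_cast hB) q1.nm_pos
    linarith
  have hI := p1.mem_Idl hbm hb0 (n := B) (by rw [hb, q2])
  rw [← q2] at hI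
  have hc0 : starRingEnd ℂ (2 * Complex.I * vol M₁ * β) / nm E 𝔩 ≠ 0 :=
    div_ne_zero ((map_ne_zero _).2 hb0) hν
  have hV : (2 * Complex.I * (vol M₁ : ℝ) : ℂ) ≠ 0 :=
    mul_ne_zero (mul_ne_zero two_ne_zero Complex.I_ne_zero)
      (by exact_mod_cast (vol_pos h₁.isLat).ne')
  refine ⟨_, hI, ⟨cte2_rep t, u1, (cte2_rep_spec t).2, ?_⟩, _, ⟨hc0, ?_⟩, ?_⟩
  · have e : pr (starRingEnd ℂ (2 * Complex.I * vol M₁ * β) / nm E 𝔩) * (M₁ * M₂) * cj 𝔩 =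
        pr (starRingEnd ℂ (2 * Complex.I * vol M₁ * β) / nm E 𝔩 * nm E (M₂ * OD E)) *
          (cte2_rep t * cte2_rep t) := by
      have e1 : cj 𝔩 = cj (M₂ * OD E) * cte2_rep t := by
        conv_lhs => rw [q4, cj_mul, cj_cj]
      have e2 : M₁ * M₂ * cj 𝔩 = pr (nm E (M₂ * OD E)) * (cte2_rep t * cte2_rep t) := by
        have e3 : cte2_rep t * (M₂ * OD E) * (cj (M₂ * OD E) * cte2_rep t) =
            (M₂ * OD E) * cj (M₂ * OD E) * cte2_rep t * cte2_rep t := by ring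
        rw [p3, e1, e3, v1.mul_cj_nm, mul_assoc (pr _), u1.OD_mul, mul_assoc]
      rw [mul_assoc, e2, ← mul_assoc, pr_mul_pr]
    rw [e, jL_pr_mul (u1.mul u1 le_rfl).isLat (mul_ne_zero hc0 hν2)]
  · rw [hT, ← p3]
  · rw [hT, ← u2, div_mul_cancel₀ _ hν, Complex.conj_conj, ha, mul_div_cancel_left₀ _ hV,
      mul_div_cancel_left₀ _ hV]
    exact ⟨h₁.isLat, h₂.isLat, u3, u4, v3, v4, hm, hn⟩

theorem Ex2_finite (n : ℤ) (c : ℕ) (D₁ D₂ : ℤ) (w : ℂ) : (Ex2 p n c D₁ D₂ w).Finite := by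
  refine ((Cl_finite D₁).prod (Cl_finite D₂)).subset ?_
  rintro z ⟨M₁, M₂, h₁, h₂, e₁, e₂, -⟩
  exact ⟨⟨M₁, h₁, e₁⟩, ⟨M₂, h₂, e₂⟩⟩

theorem card_Ex3 {n : ℤ} (hn : n ≠ 0) {E : ℤ} (hE : IsD E) {g₁ g₂ : ℕ} (hg : Nat.Coprime g₁ g₂)
    (𝔩 : Lt) (a : ℂ) {B : ℕ} (hB : 0 < B) :
    (Ex3 n E g₁ g₂ 𝔩 a B).ncard ≤
      (Idl E B).ncard * (8 * E.natAbs.divisors.card) * 15 * n.natAbs ^ 9 := by
  by_cases h𝔩 : DiscL 𝔩 E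
  swap
  · have e : Ex3 n E g₁ g₂ 𝔩 a B = ∅ := by
      refine Set.eq_empty_of_forall_notMem ?_
      rintro z ⟨M₁, M₂, h₁, h₂, -, -, hl, -⟩
      exact h𝔩 (hl ▸ (cte2_quot hE hg h₁ h₂).1)
    rw [e, Set.ncard_empty]
    exact Nat.zero_le _
  let F3 : ℂ → ℂ → Set (ℂ × ℂ) := fun t c => (fun M : Lt × Lt => (jL M.1, jL M.2)) ''
    cte2_R n g₁ g₂ (cte2_rep t) (cte2_T E 𝔩 t)
      (a / (2 * Complex.I * (g₁ * vol (cte2_rep t) : ℝ)))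
      (starRingEnd ℂ (c * nm E 𝔩) / (2 * Complex.I * (g₁ * vol (cte2_rep t) : ℝ)))
  have h3 : ∀ t c, (F3 t c).Finite ∧ (F3 t c).ncard ≤ n.natAbs ^ 9 := by
    intro t c
    have h := card_rec hn hg (cte2_rep t) (cte2_T E 𝔩 t)
      (a / (2 * Complex.I * (g₁ * vol (cte2_rep t) : ℝ)))
      (starRingEnd ℂ (c * nm E 𝔩) / (2 * Complex.I * (g₁ * vol (cte2_rep t) : ℝ)))
    exact ⟨h.1.image _, (Set.ncard_image_le h.1).trans h.2⟩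
  let G : Lt → ℂ → Set ℂ := fun 𝔟 t => {c : ℂ | c ≠ 0 ∧ pr c * (cte2_rep t * cte2_T E 𝔩 t) = 𝔟}
  let S : Lt → Set ℂ := fun 𝔟 => {z | ∃ T, DiscL T E ∧ jL T = z ∧ jL (T * T) = jL (𝔟 * cj 𝔩)}
  have h2 : ∀ 𝔟, ∀ t ∈ S 𝔟, (⋃ c ∈ G 𝔟 t, F3 t c).Finite ∧
      (⋃ c ∈ G 𝔟 t, F3 t c).ncard ≤ 15 * n.natAbs ^ 9 := by
    rintro 𝔟 t ⟨T, hT, hj, -⟩
    obtain ⟨c, hc, e⟩ := jL_inj hT.isLat (cte2_rep_spec t).1 (hj.trans (cte2_rep_spec t).2.symm)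
    have u1 : DiscL (cte2_rep t) E := e ▸ hT.pr_mul hc
    have hν1 : (nm E (cte2_rep t) : ℂ) ≠ 0 := by exact_mod_cast u1.nm_pos.ne'
    have u2 : DiscL (cte2_T E 𝔩 t) E := (h𝔩.mul u1 le_rfl).pr_mul (inv_ne_zero hν1)
    have hG := card_gen (u1.mul u2 le_rfl) 𝔟
    have h := cte2_biUnion hG.1 (F3 t) (fun c _ => h3 t c)
    exact ⟨h.1, h.2.trans (Nat.mul_le_mul_right _ hG.2)⟩
  have h1 : ∀ 𝔟, (⋃ t ∈ S 𝔟, ⋃ c ∈ G 𝔟 t, F3 t c).Finite ∧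
      (⋃ t ∈ S 𝔟, ⋃ c ∈ G 𝔟 t, F3 t c).ncard ≤
        (8 * E.natAbs.divisors.card) * (15 * n.natAbs ^ 9) := by
    intro 𝔟
    have hS : (S 𝔟).Finite := (Cl_finite E).subset fun z ⟨T, hT, hj, _⟩ => ⟨T, hT, hj⟩
    have h := cte2_biUnion hS (fun t => ⋃ c ∈ G 𝔟 t, F3 t c) (h2 𝔟)
    exact ⟨h.1, h.2.trans (Nat.mul_le_mul_right _ (card_sqrt hE.1 _))⟩
  have h0 := cte2_biUnion (Idl_finite E B) (fun 𝔟 => ⋃ t ∈ S 𝔟, ⋃ c ∈ G 𝔟 t, F3 t c)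
    (fun 𝔟 _ => h1 𝔟)
  have hsub : Ex3 n E g₁ g₂ 𝔩 a B ⊆ ⋃ 𝔟 ∈ Idl E B, ⋃ t ∈ S 𝔟, ⋃ c ∈ G 𝔟 t, F3 t c := by
    rintro z ⟨M₁, M₂, h₁, h₂, e₁, e₂, hl, hr⟩
    have hW : cte2_W n E g₁ g₂ 𝔩 a B M₁ M₂ := ⟨h₁, h₂, hl, hr⟩
    have u1 := (discL_up hE h₁).1
    obtain ⟨c, hc, e⟩ := jL_inj u1.isLat (cte2_rep_spec (jL (M₁ * OD E))).1
      (cte2_rep_spec _).2.symm
    have hc' : starRingEnd ℂ c ≠ 0 := by simpa using hc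
    obtain ⟨𝔟, hb, hS, c', hG, hR⟩ := cte2_data hE hg hB (cte2_scale hW hc)
      (t := jL (M₁ * OD E)) (by rw [e, mul_assoc])
    simp only [Set.mem_iUnion]
    refine ⟨𝔟, hb, _, hS, c', hG, _, hR, ?_⟩
    show (jL (pr c * M₁), jL (pr (starRingEnd ℂ c)⁻¹ * M₂)) = z
    rw [jL_pr_mul h₁.isLat hc, jL_pr_mul h₂.isLat (inv_ne_zero hc'), e₁, e₂]
  refine (Set.ncard_le_ncard hsub h0.1).trans (h0.2.trans (le_of_eq ?_))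
  ring

theorem Ex2_subset (n : ℤ) (c : ℕ) {E : ℤ} (hE : IsD E) {g₁ g₂ : ℕ} (hg : Nat.Coprime g₁ g₂)
    {𝔩 : Lt} (h𝔩 : DiscL 𝔩 E) {z : ℂ × ℂ}
    (hz : z ∈ Ex2 p n c (g₁ ^ 2 * E) (g₂ ^ 2 * E) (jL 𝔩)) :
    ∃ a B, Lin1 p c E 𝔩 (-(n * g₁ * g₂ * E)) ((p : ℝ) ^ c * g₁ * g₂ * (-(E : ℝ))) a B ∧
      z ∈ Ex3 n E g₁ g₂ 𝔩 a B := by
  obtain ⟨M₁, M₀, h₁, h₀, e₁, e₀, hj, hbad⟩ := hz
  obtain ⟨k, hk, hl⟩ := jL_inj (cte2_quot hE hg h₁ h₀).1.isLat h𝔩.isLat hj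
  have hbad' := hbad.scale h₁.isLat h₀.isLat one_ne_zero hk
  rw [pr_one_mul] at hbad'
  have h₂ := h₀.pr_mul hk
  have e₂ : jL (pr k * M₀) = z.2 := (jL_pr_mul h₀.isLat hk).trans e₀
  rw [← mul_assoc] at hl
  generalize pr k * M₀ = M₂ at hbad' h₂ e₂ hl
  obtain ⟨α, β, B, hB, hm, hBe, hn, hα, hβ, hp, m, hm1, hm2⟩ := hbad'
  obtain ⟨-, -, q3, -⟩ := cte2_quot hE hg h₁ h₂
  rw [← hl] at q3
  have hE' : (0 : ℝ) < -(E : ℝ) := by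
    have : (E : ℝ) < 0 := by exact_mod_cast hE.1
    linarith
  have hg1 : (0 : ℝ) < g₁ := by exact_mod_cast cte2_pos h₁
  have hg2 : (0 : ℝ) < g₂ := by exact_mod_cast cte2_pos h₂
  have hV1 := vol_pos h₁.isLat
  have hV2 := vol_pos h₂.isLat
  have hG : (0 : ℝ) < g₁ * g₂ * (-(E : ℝ)) := by positivity
  have hsq : Real.sqrt ((((g₁ : ℤ) ^ 2 * E : ℤ) : ℝ) * (((g₂ : ℤ) ^ 2 * E : ℤ) : ℝ)) =
      g₁ * g₂ * (-(E : ℝ)) := by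
    rw [← Real.sqrt_sq hG.le]
    congr 1
    push_cast
    ring
  rw [hsq] at hBe
  have hns : ∀ x : ℂ, Complex.normSq (2 * Complex.I * vol M₁ * x) =
      4 * vol M₁ ^ 2 * Complex.normSq x := by
    intro x
    simp only [map_mul, Complex.normSq_I, Complex.normSq_ofReal, Complex.normSq_ofNat]
    ring
  have hs : ((B : ℝ) + ((-(n * g₁ * g₂ * E) : ℤ) : ℝ)) * vol M₂ =
      g₁ * g₂ * (-(E : ℝ)) * (Complex.normSq α * vol M₁) := by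
    push_cast
    linear_combination -hBe - (g₁ * g₂ * (-(E : ℝ))) * hn
  refine ⟨2 * Complex.I * vol M₁ * α, B, ⟨hl ▸ (rl_mem h₁.isLat hm).1, hB, ?_, ?_, ?_, ?_, m, hm1,
    ?_⟩, M₁, M₂, h₁, h₂, e₁, e₂, hl.symm, α, β, hm, hn, rfl, ?_⟩
  · refine le_of_mul_le_mul_right ?_ hV2
    have := mul_le_mul_of_nonneg_left hβ hG.le
    nlinarith
  · rw [hns, q3, ← mul_div_assoc, eq_div_iff hG.ne']
    linear_combination (-4 * vol M₁) * hs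
  · refine le_of_mul_le_mul_right ?_ hV2
    have := mul_le_mul_of_nonneg_left hα hG.le
    rw [hs]
    nlinarith
  · have hn1 : ∀ g : ℕ, ‖(((g : ℤ) ^ 2 * E : ℤ) : ℚ_[p])‖ ≤ ‖(E : ℚ_[p])‖ := by
      intro g
      rw [Int.cast_mul, norm_mul]
      exact mul_le_of_le_one_left (norm_nonneg _) (Padic.norm_int_le_one _)
    refine hp.trans ?_
    rw [mul_assoc, sq ‖(E : ℚ_[p])‖]
    exact mul_le_mul_of_nonneg_left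
      (mul_le_mul (hn1 g₁) (hn1 g₂) (norm_nonneg _) (norm_nonneg _)) (by positivity)
  · have k1 : pr ((m : ℂ) * (p : ℂ) ^ c * α) * M₁ ≤ M₂ := pr_mul_le.2 hm2
    have k2 : pr ((m : ℂ) * (p : ℂ) ^ c * α) * (M₁ * cj M₁) ≤ 𝔩 := by
      rw [hl, ← mul_assoc]
      exact mul_le_mul_left k1 _
    have k3 : (nm (g₁ ^ 2 * E) M₁ : ℂ) ∈ M₁ * cj M₁ := by
      rw [h₁.mul_cj_nm]
      exact mem_pr_mul.2 ⟨1, one_mem_OD _, mul_one _⟩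
    have k4 := 𝔩.smul_mem (g₁ : ℤ) (pr_mul_le.1 k2 _ k3)
    refine mem_pr_mul.2 ⟨_, k4, ?_⟩
    have k5 : (Real.sqrt (-(E : ℝ)) : ℂ) ≠ 0 := by
      exact_mod_cast (Real.sqrt_pos.2 hE').ne'
    have k6 : (g₁ : ℂ) ≠ 0 := by exact_mod_cast (cte2_pos h₁).ne'
    rw [cte2_nm, th, zsmul_eq_mul]
    push_cast
    field_simp
  · rw [hns, q3, ← mul_div_assoc, eq_div_iff hG.ne']
    linear_combination (4 * vol M₁) * hBe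

end Pool.Agent.EQ
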