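import Pool.Agent.P.MP_ad7a55_nt.CtE2

/-! The bound for exceptional pairs. -/

set_option autoImplicit false

noncomputable section

open MeasureTheory Topology Filter UpperHalfPlane
open scoped MatrixGroups ENNReal BoundedContinuousFunction

namespace Pool.Agent.EQ

variable (p : ℕ) [Fact p.Prime]

theorem Bad2.mono {n : ℤ} {c c' : ℕ} (hc : c ≤ c') {D₁ D₂ : ℤ} {M₁ M₂ : Lt}
    (h : Bad2 p n c D₁ D₂ M₁ M₂) : Bad2 p n c' D₁ D₂ M₁ M₂ := by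
  obtain ⟨α, β, B, h1, h2, h3, h4, h5, h6, h7, m, h8, h9⟩ := h
  have hp : (1 : ℝ) ≤ p := by exact_mod_cast (Fact.out : p.Prime).one_le
  have hpc : (p : ℝ) ^ c ≤ (p : ℝ) ^ c' := pow_le_pow_right₀ hp hc
  have hv : ∀ M, 0 ≤ vol M := fun M => by
    by_cases hM : IsLat M
    · exact (vol_pos hM).le
    · simp [vol, hM]
  have hv2 := mul_le_mul_of_nonneg_right hpc (hv M₂)
  refine ⟨α, β, B, h1, h2, h3, h4, h5.trans hv2, h6.trans hv2, h7.trans (by gcongr), m, h8,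
    fun z hz => ?_⟩
  obtain ⟨k, rfl⟩ := Nat.exists_eq_add_of_le hc
  have e : (m : ℂ) * (p : ℂ) ^ (c + k) * α * z = (p ^ k : ℕ) • ((m : ℂ) * (p : ℂ) ^ c * α * z) := by
    rw [nsmul_eq_mul]; push_cast; ring
  rw [e]
  exact nsmul_mem (h9 z hz) _

theorem ctE3_finite (n E : ℤ) (g₁ g₂ : ℕ) (𝔩 : Lt) (a : ℂ) (B : ℕ) :
    (Ex3 n E g₁ g₂ 𝔩 a B).Finite := by
  refine ((Cl_finite (g₁ ^ 2 * E)).prod (Cl_finite (g₂ ^ 2 * E))).subset ?_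
  rintro z ⟨M₁, M₂, h1, h2, h3, h4, -⟩
  exact ⟨⟨M₁, h1, h3⟩, ⟨M₂, h2, h4⟩⟩

theorem ctE3_cover {α β : Type*} {S : Set α} (A : Finset β) (T : β → Set α)
    (hT : ∀ a, (T a).Finite) (h : ∀ z ∈ S, ∃ a ∈ A, z ∈ T a) :
    S.ncard ≤ ∑ a ∈ A, (T a).ncard := by
  classical
  have h1 : S ⊆ ↑(A.biUnion fun a => (hT a).toFinset) := fun z hz => by
    obtain ⟨a, ha, hz'⟩ := h z hz
    exact Finset.mem_coe.2 (Finset.mem_biUnion.2 ⟨a, ha, (hT a).mem_toFinset.2 hz'⟩)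
  refine (Set.ncard_le_ncard h1 (Finset.finite_toSet _)).trans ?_
  rw [Set.ncard_coe_finset]
  exact Finset.card_biUnion_le.trans
    (le_of_eq (Finset.sum_congr rfl fun a _ => (Set.ncard_eq_toFinset_card _ (hT a)).symm))

theorem ctE3_swap {β : Type*} (A : Finset β) (H : Finset ℕ) (f : β → ℕ) {W : ℝ}
    (h : ∀ k ∈ H, (k : ℝ) * (A.filter fun a => k ^ 2 ∣ 4 * f a).card ≤ W) :
    ∑ a ∈ A, ∑ k ∈ H.filter (fun k => k ^ 2 ∣ 4 * f a), (k : ℝ) ≤ H.card * W := by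
  simp only [Finset.sum_filter]
  rw [Finset.sum_comm, ← nsmul_eq_mul]
  refine Finset.sum_le_card_nsmul _ _ _ fun k hk => le_trans (le_of_eq ?_) (h k hk)
  rw [← Finset.sum_filter, Finset.sum_const, nsmul_eq_mul, mul_comm]

theorem ctE3_unique {c : ℕ} {E : ℤ} {𝔩 : Lt} (h𝔩 : DiscL 𝔩 E) {s : ℤ} {X : ℝ} {a : ℂ}
    {B B' : ℕ} (h : Lin1 p c E 𝔩 s X a B) (h' : Lin1 p c E 𝔩 s X a B') : B = B' := by
  have h1 := h.2.2.2.1.symm.trans h'.2.2.2.1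
  have h2 := add_right_cancel (mul_right_cancel₀ h𝔩.nm_pos.ne' h1)
  exact_mod_cast h2

theorem ctE3_real {P G e q : ℝ} (hP : 1 ≤ P) (hG : 1 ≤ G) (he : 1 ≤ e) (h0 : 0 ≤ q)
    (h1 : q ≤ 1) : Real.sqrt (P * G * e) * q + P * G * e / Real.sqrt e * q ^ 2 ≤
      2 * P * Real.sqrt (G ^ 2 * e) * q := by
  have a0 : Real.sqrt (G ^ 2 * e) = G * Real.sqrt e := by
    rw [Real.sqrt_mul (by positivity), Real.sqrt_sq (by linarith)]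
  have a1 : Real.sqrt (P * G * e) ≤ P * G * Real.sqrt e := by
    rw [Real.sqrt_mul (by positivity)]
    gcongr
    exact Real.sqrt_le_iff.2 ⟨by positivity, le_self_pow₀ (by nlinarith) two_ne_zero⟩
  have a2 : P * G * e / Real.sqrt e = P * G * Real.sqrt e := by
    rw [mul_div_assoc, Real.div_sqrt]
  have a3 : q ^ 2 ≤ q := by nlinarith
  have a4 : 0 ≤ P * G * Real.sqrt e := by positivity
  rw [a0, a2]
  nlinarith [mul_le_mul_of_nonneg_right a1 h0, mul_le_mul_of_nonneg_left a3 a4]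

theorem card_Ex2 {n : ℤ} (hn : n ≠ 0) (c : ℕ) {ε : ℝ} (hε : 0 < ε) : ∃ C : ℝ, 0 < C ∧
    ∀ (E : ℤ) (g₁ g₂ : ℕ), IsD E → Nat.Coprime g₁ g₂ →
      (p : ℝ) ^ (-(c : ℤ)) ≤ ‖(g₁ : ℚ_[p])‖ → (p : ℝ) ^ (-(c : ℤ)) ≤ ‖(g₂ : ℚ_[p])‖ → ∀ w : ℂ,
      ((Ex2 p n c (g₁ ^ 2 * E) (g₂ ^ 2 * E) w).ncard : ℝ) ≤
        C * (((g₁ : ℝ) * g₂) ^ 2 * (-(E : ℝ))) ^ (1 / 2 + ε) * Real.sqrt ‖(E : ℚ_[p])‖ := by
  classical
  have hpp : p.Prime := Fact.out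
  have hp : (1 : ℝ) < p := by exact_mod_cast hpp.one_lt
  have hn0 : 0 < ‖(n : ℚ_[p])‖ := norm_pos_iff.2 (by exact_mod_cast hn)
  obtain ⟨c0, hc0⟩ := pow_unbounded_of_one_lt ‖(n : ℚ_[p])‖⁻¹ hp
  rw [inv_lt_iff_one_lt_mul₀ hn0] at hc0
  obtain ⟨k, hk⟩ : ∃ k, k = c0 + c + c := ⟨_, rfl⟩
  obtain ⟨C1, hC1, hlin⟩ := card_lin1 p k
  obtain ⟨C0, hC0, hdiv⟩ := div_bound (ε := ε / 4) (by positivity)
  obtain ⟨P, hP⟩ : ∃ P : ℝ, P = (p : ℝ) ^ k := ⟨_, rfl⟩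
  have hP1 : 1 ≤ P := hP ▸ one_le_pow₀ hp.le
  have hN : (0 : ℝ) < n.natAbs := by exact_mod_cast Int.natAbs_pos.2 hn
  refine ⟨480 * (n.natAbs : ℝ) ^ 9 * C1 * P * C0 ^ 4 * (4 * P) ^ ε, by positivity,
    fun E g₁ g₂ hE hg h1 h2 w => ?_⟩
  have hpc : (0 : ℝ) < (p : ℝ) ^ (-(c : ℤ)) := by positivity
  have hg1 : g₁ ≠ 0 := by
    rintro rfl
    rw [Nat.cast_zero, norm_zero] at h1
    exact absurd h1 (not_le.2 hpc)
  have hg2 : g₂ ≠ 0 := by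
    rintro rfl
    rw [Nat.cast_zero, norm_zero] at h2
    exact absurd h2 (not_le.2 hpc)
  obtain ⟨G, hG⟩ : ∃ G : ℝ, G = (g₁ : ℝ) * g₂ := ⟨_, rfl⟩
  have hG1 : 1 ≤ G := by
    rw [hG]
    exact_mod_cast Nat.one_le_iff_ne_zero.2 (mul_ne_zero hg1 hg2)
  obtain ⟨e, he⟩ : ∃ e : ℝ, e = -(E : ℝ) := ⟨_, rfl⟩
  have hE0 : E < 0 := hE.1
  have he1 : 1 ≤ e := by
    rw [he]
    exact_mod_cast (by omega : 1 ≤ -E)
  have heE : (E.natAbs : ℝ) = e := by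
    rw [he, Nat.cast_natAbs, abs_of_neg hE0, Int.cast_neg]
  obtain ⟨q, hq⟩ : ∃ q : ℝ, q = ‖(E : ℚ_[p])‖ := ⟨_, rfl⟩
  have hq0 : 0 < q := hq ▸ norm_pos_iff.2 (by exact_mod_cast hE0.ne)
  have hq1 : q ≤ 1 := hq ▸ Padic.norm_int_le_one E
  rw [← hG, ← he, ← hq]
  rcases (Ex2 p n c (g₁ ^ 2 * E) (g₂ ^ 2 * E) w).eq_empty_or_nonempty with h0 | ⟨z0, hz0⟩
  · rw [h0, Set.ncard_empty, Nat.cast_zero]
    positivity
  obtain ⟨M₁, M₂, m1, m2, -, -, rfl, -⟩ := hz0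
  have h𝔩 : DiscL (M₂ * cj M₁) E := (discL_mul_cop hE hg.symm m2 m1.cj).1
  obtain ⟨𝔩, e𝔩⟩ : ∃ 𝔩, 𝔩 = M₂ * cj M₁ := ⟨_, rfl⟩
  rw [← e𝔩] at h𝔩 ⊢
  obtain ⟨s, hs⟩ : ∃ s : ℤ, s = -(n * g₁ * g₂ * E) := ⟨_, rfl⟩
  have hs1 : ‖(E : ℚ_[p])‖ ≤ (p : ℝ) ^ k * ‖(s : ℚ_[p])‖ := by
    have a1 : 1 ≤ (p : ℝ) ^ c * ‖(g₁ : ℚ_[p])‖ := by
      rwa [zpow_neg, zpow_natCast, inv_le_iff_one_le_mul₀' (by positivity)] at h1
    have a2 : 1 ≤ (p : ℝ) ^ c * ‖(g₂ : ℚ_[p])‖ := by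
      rwa [zpow_neg, zpow_natCast, inv_le_iff_one_le_mul₀' (by positivity)] at h2
    rw [hs]
    push_cast
    rw [norm_neg, norm_mul, norm_mul, norm_mul, ← hq, hk]
    calc q = 1 * 1 * 1 * q := by ring
      _ ≤ ((p : ℝ) ^ c0 * ‖(n : ℚ_[p])‖) * ((p : ℝ) ^ c * ‖(g₁ : ℚ_[p])‖) *
          ((p : ℝ) ^ c * ‖(g₂ : ℚ_[p])‖) * q := by gcongr
      _ = _ := by ring
  have hX : (p : ℝ) ^ k * g₁ * g₂ * (-(E : ℝ)) = P * G * e := by rw [hP, hG, he]; ring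
  have hl := hlin E 𝔩 h𝔩 s ⟨-(n * g₁ * g₂), by rw [hs]; ring⟩ hs1 (P * G * e) (by positivity)
  rw [← he, ← hq] at hl
  have h1H : 1 ∈ Hs p E := Finset.mem_filter.2 ⟨Nat.one_mem_divisors.2 (by omega),
    fun h => hpp.one_lt.ne' (Nat.dvd_one.1 h), by simp⟩
  obtain ⟨A, hA⟩ : ∃ A : Finset ℂ, ∀ a, a ∈ A ↔ ∃ B, Lin1 p k E 𝔩 s (P * G * e) a B :=
    ⟨(hl 1 h1H).1.toFinset, fun a => by simp⟩
  have hf : ∀ a, ∃ B : ℕ, a ∈ A → Lin1 p k E 𝔩 s (P * G * e) a B := fun a => by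
    by_cases ha : a ∈ A
    · exact ((hA a).1 ha).imp fun B hB _ => hB
    · exact ⟨0, fun h => (ha h).elim⟩
  choose f hf using hf
  have c1 := ctE3_cover (S := Ex2 p n c (g₁ ^ 2 * E) (g₂ ^ 2 * E) (jL 𝔩)) A
    (fun a => Ex3 n E g₁ g₂ 𝔩 a (f a)) (fun a => ctE3_finite _ _ _ _ _ _ _) (by
      rintro z ⟨N₁, N₂, a1, a2, a3, a4, a5, a6⟩
      obtain ⟨a, B, b1, b2⟩ := Ex2_subset p n k hE hg h𝔩 (z := z)
        ⟨N₁, N₂, a1, a2, a3, a4, a5, a6.mono p (by omega)⟩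
      rw [← hs, hX] at b1
      have ha := (hA a).2 ⟨B, b1⟩
      exact ⟨a, ha, ctE3_unique p h𝔩 b1 (hf a ha) ▸ b2⟩)
  obtain ⟨T, hT⟩ : ∃ T : ℝ, T = C0 * (4 * P * (G ^ 2 * e)) ^ (ε / 4) := ⟨_, rfl⟩
  have hT0 : 0 ≤ T := by rw [hT]; positivity
  have hGG : G ≤ G ^ 2 := le_self_pow₀ hG1 two_ne_zero
  have hd : ∀ m : ℕ, 0 < m → (m : ℝ) ≤ 4 * (P * G * e) → (m.divisors.card : ℝ) ≤ T := by
    intro m a1 a2
    refine (hdiv m a1).trans ?_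
    rw [hT]
    gcongr
    calc (m : ℝ) ≤ 4 * (P * G * e) := a2
      _ ≤ 4 * (P * G ^ 2 * e) := by gcongr
      _ = _ := by ring
  have hPG : e ≤ P * G * e := le_mul_of_one_le_left (by linarith) (by nlinarith)
  have d1 : (E.natAbs.divisors.card : ℝ) ≤ T := hd _ (by omega) (by rw [heE]; linarith)
  have d2 : ((Hs p E).card : ℝ) ≤ T := by
    refine le_trans ?_ (hd (4 * E.natAbs) (by omega) (by push_cast; rw [heE]; linarith))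
    exact_mod_cast Finset.card_filter_le _ _
  have c2 : ∀ a ∈ A, ((Ex3 n E g₁ g₂ 𝔩 a (f a)).ncard : ℝ) * Real.sqrt q ≤
      240 * (n.natAbs : ℝ) ^ 9 * T ^ 3 *
        ∑ h ∈ (Hs p E).filter (fun h => h ^ 2 ∣ 4 * f a), (h : ℝ) := by
    intro a ha
    obtain ⟨-, a1, a2, -⟩ := hf a ha
    have b1 : ((Ex3 n E g₁ g₂ 𝔩 a (f a)).ncard : ℝ) ≤ (Idl E (f a)).ncard *
        (8 * (E.natAbs.divisors.card : ℝ)) * 15 * (n.natAbs : ℝ) ^ 9 := by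
      exact_mod_cast card_Ex3 hn hE hg 𝔩 a a1
    have b2 := card_Idl_sum p hE0 a1
    rw [← hq] at b2
    have b3 := hd (4 * f a) (by omega) (by push_cast; linarith)
    obtain ⟨S, hS⟩ : ∃ S : ℝ, S = ∑ h ∈ (Hs p E).filter (fun h => h ^ 2 ∣ 4 * f a), (h : ℝ) :=
      ⟨_, rfl⟩
    have hS0 : 0 ≤ S := hS ▸ Finset.sum_nonneg fun _ _ => Nat.cast_nonneg _
    rw [← hS] at b2 ⊢
    calc _ ≤ (Idl E (f a)).ncard * (8 * T) * 15 * (n.natAbs : ℝ) ^ 9 * Real.sqrt q := by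
          gcongr
          exact b1.trans (by gcongr)
      _ = 120 * (n.natAbs : ℝ) ^ 9 * T * ((Idl E (f a)).ncard * Real.sqrt q) := by ring
      _ ≤ 120 * (n.natAbs : ℝ) ^ 9 * T * (2 * T ^ 2 * S) :=
          mul_le_mul_of_nonneg_left (b2.trans (by gcongr)) (by positivity)
      _ = _ := by ring
  have c3 := ctE3_swap A (Hs p E) f (W := C1 * (2 * P * Real.sqrt (G ^ 2 * e) * q)) (by
    intro h hh
    refine le_trans ?_ ((hl h hh).2.trans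
      (mul_le_mul_of_nonneg_left (ctE3_real hP1 hG1 he1 hq0.le hq1) hC1.le))
    rw [← Set.ncard_coe_finset]
    refine mul_le_mul_of_nonneg_left (Nat.cast_le.2
      (Set.ncard_le_ncard (fun a ha => ?_) (hl h hh).1)) (Nat.cast_nonneg _)
    obtain ⟨a1, a2⟩ := Finset.mem_filter.1 (Finset.mem_coe.1 ha)
    exact ⟨f a, hf a a1, a2⟩)
  have hsq : 0 < Real.sqrt q := Real.sqrt_pos.2 hq0
  have hT4 : T ^ 4 = C0 ^ 4 * ((4 * P) ^ ε * (G ^ 2 * e) ^ ε) := by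
    rw [hT, mul_pow, ← Real.rpow_natCast _ 4, ← Real.rpow_natCast (_ ^ (ε / 4)) 4,
      ← Real.rpow_mul (by positivity), ← Real.mul_rpow (by positivity) (by positivity)]
    norm_num
  refine le_of_mul_le_mul_right ?_ hsq
  calc ((Ex2 p n c (g₁ ^ 2 * E) (g₂ ^ 2 * E) (jL 𝔩)).ncard : ℝ) * Real.sqrt q
      ≤ (∑ a ∈ A, ((Ex3 n E g₁ g₂ 𝔩 a (f a)).ncard : ℝ)) * Real.sqrt q := by
        gcongr
        exact_mod_cast c1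
    _ ≤ 240 * (n.natAbs : ℝ) ^ 9 * T ^ 3 * ∑ a ∈ A,
          ∑ h ∈ (Hs p E).filter (fun h => h ^ 2 ∣ 4 * f a), (h : ℝ) := by
        rw [Finset.sum_mul, Finset.mul_sum]
        exact Finset.sum_le_sum c2
    _ ≤ 240 * (n.natAbs : ℝ) ^ 9 * T ^ 3 *
          (T * (C1 * (2 * P * Real.sqrt (G ^ 2 * e) * q))) := by
        gcongr
        exact c3.trans (by gcongr)
    _ = 480 * (n.natAbs : ℝ) ^ 9 * C1 * P * T ^ 4 * Real.sqrt (G ^ 2 * e) * q := by ring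
    _ = _ := by
        rw [hT4, Real.rpow_add (by positivity), ← Real.sqrt_eq_rpow, mul_assoc _ (Real.sqrt q),
          Real.mul_self_sqrt hq0.le]
        ring

end Pool.Agent.EQ
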