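import Pool.Agent.P.MP_ad7a55_nt.Hecke

/-! The Kronecker congruence. -/

set_option autoImplicit false

noncomputable section

open MeasureTheory Topology Filter UpperHalfPlane
open scoped MatrixGroups ENNReal BoundedContinuousFunction

namespace Pool.Agent.EQ

theorem kron_fg {ι : Type} [Fintype ι] (x : ι → ℂ) (hx : ∀ i, IsAlgebraic ℚ (x i)) :
    ∃ T : Submodule ℤ ℂ, T.FG ∧ ∀ m : ℕ, IsIntegral ℤ (∑ i, x i ^ m) → ∑ i, x i ^ m ∈ T := by
  let K := IntermediateField.adjoin ℚ (Set.range x)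
  have : FiniteDimensional ℚ K := IntermediateField.finiteDimensional_adjoin (by
    rintro _ ⟨i, rfl⟩
    exact (hx i).isIntegral)
  have : NumberField K := ⟨⟩
  let φ : NumberField.RingOfIntegers K →+* ℂ :=
    (algebraMap K ℂ).comp (algebraMap (NumberField.RingOfIntegers K) K)
  refine ⟨LinearMap.range φ.toIntAlgHom.toLinearMap, ?_, fun m hm => ?_⟩
  · rw [LinearMap.range_eq_map]
    exact (Module.Finite.fg_top (R := ℤ) (M := NumberField.RingOfIntegers K)).map _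
  · have hK : ∑ i, x i ^ m ∈ K :=
      sum_mem fun i _ => pow_mem (IntermediateField.subset_adjoin ℚ _ (Set.mem_range_self i)) m
    have hi : IsIntegral ℤ (⟨_, hK⟩ : K) :=
      (isIntegral_algebraMap_iff (algebraMap K ℂ).injective).1 hm
    exact ⟨⟨⟨_, hK⟩, hi⟩, rfl⟩

/-- Algebraic numbers all of whose power sums are integral are integral. -/
theorem integral_of_power_sums {ι : Type} [Fintype ι] (x : ι → ℂ) (hx : ∀ i, IsAlgebraic ℚ (x i))
    (h : ∀ m : ℕ, IsIntegral ℤ (∑ i, x i ^ m)) (i : ι) : IsIntegral ℤ (x i) := by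
  classical
  obtain ⟨T, hT, hTm⟩ := kron_fg x hx
  set l : Polynomial ℂ :=
    ∏ k ∈ Finset.univ.filter (fun k => x k ≠ x i), (Polynomial.X - Polynomial.C (x k)) with hl
  have h0 : ∀ k, x k ≠ x i → l.eval (x k) = 0 := fun k hk => by
    rw [hl, Polynomial.eval_prod]
    exact Finset.prod_eq_zero (i := k) (by simpa using hk) (by simp)
  have h1 : l.eval (x i) ≠ 0 := by
    rw [hl, Polynomial.eval_prod]
    refine Finset.prod_ne_zero_iff.2 fun k hk => ?_
    simpa [sub_eq_zero, eq_comm] using hk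
  set n0 : ℕ := (Finset.univ.filter (fun k => x k = x i)).card with hn0
  have hn : (n0 : ℂ) ≠ 0 := Nat.cast_ne_zero.2 (Finset.card_pos.2 ⟨i, by simp⟩).ne'
  set c : ℂ := (n0 * l.eval (x i))⁻¹ with hc
  have key : ∀ m : ℕ, x i ^ m =
      ∑ k ∈ Finset.range (l.natDegree + 1), (c * l.coeff k) * ∑ j, x j ^ (k + m) := by
    intro m
    have e1 : ∑ j, l.eval (x j) * x j ^ m = n0 * l.eval (x i) * x i ^ m := by
      rw [← Finset.sum_filter_add_sum_filter_not Finset.univ (fun k => x k = x i),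
        Finset.sum_eq_zero (s := Finset.univ.filter fun k => ¬x k = x i) fun k hk => by
          rw [h0 k (by simpa using hk), zero_mul],
        Finset.sum_congr rfl (g := fun _ => l.eval (x i) * x i ^ m) fun k hk => by
          rw [(Finset.mem_filter.1 hk).2]]
      simp [hn0, mul_assoc]
    have e2 : ∑ j, l.eval (x j) * x j ^ m =
        ∑ k ∈ Finset.range (l.natDegree + 1), l.coeff k * ∑ j, x j ^ (k + m) := by
      simp only [Polynomial.eval_eq_sum_range, Finset.sum_mul, Finset.mul_sum, pow_add, mul_assoc]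
      exact Finset.sum_comm
    simp only [mul_assoc c]
    rw [← Finset.mul_sum, ← e2, e1, hc]
    field_simp
  let U : Submodule ℤ ℂ :=
    Submodule.span ℤ ((fun k => c * l.coeff k) '' (Finset.range (l.natDegree + 1) : Set ℕ))
  have hU : U.FG := Submodule.fg_span ((Finset.finite_toSet _).image _)
  let N : Submodule ℤ ℂ := Submodule.span ℤ (Set.range fun m : ℕ => x i ^ m)
  have hN : N ≤ U * T := by
    refine Submodule.span_le.2 ?_
    rintro _ ⟨m, rfl⟩
    show x i ^ m ∈ U * T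
    rw [key m]
    exact Submodule.sum_mem _ fun k hk =>
      Submodule.mul_mem_mul (Submodule.subset_span ⟨k, hk, rfl⟩) (hTm _ (h _))
  have hfg : N.FG := (hU.mul hT).of_le hN
  refine isIntegral_of_smul_mem_submodule N ?_ hfg (x i) fun n hn => ?_
  · refine (Submodule.ne_bot_iff _).2 ⟨1, Submodule.subset_span ⟨0, by simp⟩, one_ne_zero⟩
  · induction hn using Submodule.span_induction with
    | mem y hy =>
      obtain ⟨m, rfl⟩ := hy
      exact Submodule.subset_span ⟨m + 1, by simp [pow_succ']⟩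
    | zero => simp
    | add y z _ _ hy hz => rw [smul_add]; exact add_mem hy hz
    | smul a y _ hy => rw [smul_comm]; exact N.smul_mem a hy

theorem kron_qq_ne (τ : ℍ) : qq τ ≠ 0 := Complex.exp_ne_zero _

theorem kron_congr {f g : ℍ → ℂ} (hf : IntQ f) (h : ∀ τ, f τ = g τ) : IntQ g := by
  rwa [← funext h]

theorem kron_jInv_per {τ τ' : ℍ} {n : ℤ} (h : (τ' : ℂ) = τ + n) : jInv τ' = jInv τ := by
  have a := intQ_j.periodic h
  have b := intQ_qq.periodic h
  simp only [b] at a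
  exact mul_left_cancel₀ (kron_qq_ne τ) a

theorem kron_jL_nbs {q : ℕ} (hq : 0 < q) {c : ℂ} (hc : c ≠ 0) (τ : ℍ) (o : Option (Fin q)) :
    jL (nbs q hq c τ o) = jL (nbs q hq 1 τ o) := by
  have hq' : (q : ℂ) ≠ 0 := Nat.cast_ne_zero.2 hq.ne'
  cases o with
  | none => simp only [nbs]; rw [jL_sp hc, jL_sp one_ne_zero]
  | some i => simp only [nbs]; rw [jL_sp (mul_ne_zero hc hq'), jL_sp (mul_ne_zero one_ne_zero hq')]

theorem kron_none {q : ℕ} (hq : q.Prime) : IntQ fun τ => qq τ ^ (q ^ 2 + q) *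
    ((jInv (mulH q hq.pos τ) - jInv τ ^ q) * (jInv (mulH q hq.pos τ) ^ q - jInv τ) / q) := by
  obtain ⟨r, hr⟩ : ∃ r, q ^ 2 = r + 1 := ⟨q ^ 2 - 1, by have := pow_pos hq.pos 2; omega⟩
  have A := ((intQ_int (-1)).mul (intQ_j.frob hq)).mul
    (((intQ_j.mulH q hq.pos).pow q).sub ((intQ_qq.pow r).mul intQ_j))
  refine kron_congr A fun τ => ?_
  have e : (qq τ ^ q) ^ q = qq τ ^ r * qq τ := by rw [← pow_mul, ← sq, hr, pow_succ]
  simp only [qq_mulH, mul_pow, e]
  rw [pow_add, hr, pow_succ]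
  push_cast
  ring

theorem kron_some {q : ℕ} (hq : q.Prime) : IntQ fun w => qq (mulH q hq.pos w) ^ (q ^ 2 + q) *
    ((jInv w - jInv (mulH q hq.pos w) ^ q) * (jInv w ^ q - jInv (mulH q hq.pos w)) / q) := by
  obtain ⟨r, hr⟩ : ∃ r, q ^ 2 = r + 1 := ⟨q ^ 2 - 1, by have := pow_pos hq.pos 2; omega⟩
  have A := (intQ_qq.pow (q * r)).mul ((intQ_j.frob hq).mul
    (((intQ_qq.pow r).mul intQ_j).sub ((intQ_j.mulH q hq.pos).pow q)))
  refine kron_congr A fun τ => ?_
  have e : (qq τ ^ q) ^ q = qq τ ^ r * qq τ := by rw [← pow_mul, ← sq, hr, pow_succ]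
  have e2 : (qq τ ^ q) ^ (q ^ 2) = qq τ ^ (q * r) * qq τ ^ q := by
    rw [hr, pow_succ, ← pow_mul]
  simp only [qq_mulH, mul_pow]
  rw [pow_add, e2, e]
  ring

theorem kron_poly {q : ℕ} (hq : q.Prime) (m : ℕ) : ∃ P : Polynomial ℤ,
    P.natDegree ≤ (q ^ 2 + q) * m ∧ ∀ τ : ℍ,
      ∑ o, ((jL (nbs q hq.pos 1 τ o) - jInv τ ^ q) * (jL (nbs q hq.pos 1 τ o) ^ q - jInv τ) / q) ^ m =
        Polynomial.aeval (jInv τ) P := by
  have hq' : (q : ℂ) ≠ 0 := Nat.cast_ne_zero.2 hq.pos.ne'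
  set N := (q ^ 2 + q) * m with hN
  set S : ℍ → ℂ := fun τ => ∑ o, ((jL (nbs q hq.pos 1 τ o) - jInv τ ^ q) *
    (jL (nbs q hq.pos 1 τ o) ^ q - jInv τ) / q) ^ m with hS
  have hI : IntQ fun τ => ModularForm.discriminant τ ^ N * S τ := by
    have A := (intQ_disc_div.pow N).mul
      (((kron_none hq).pow m).add (((kron_some hq).pow m).trace q hq.pos))
    refine kron_congr A fun τ => ?_
    have hper : ∀ i : Fin q, (mulH q hq.pos (divH q hq.pos i τ) : ℂ) = τ + ((i : ℕ) : ℤ) := by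
      intro i
      simp only [coe_mulH, coe_divH, Int.cast_natCast]
      field_simp
    have h0 := kron_qq_ne τ
    simp only [hS, Fintype.sum_option, nbs]
    rw [jL_sp one_ne_zero]
    simp only [jL_sp (mul_ne_zero one_ne_zero hq'), fun i => kron_jInv_per (hper i),
      fun i => intQ_qq.periodic (hper i), mul_pow, ← pow_mul, ← hN, ← Finset.mul_sum, div_pow]
    field_simp
  have hw : ∀ (γ : SL(2, ℤ)) (τ : ℍ), ModularForm.discriminant (γ • τ) ^ N * S (γ • τ) =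
      ((γ 1 0 : ℂ) * τ + γ 1 1) ^ (12 * N) * (ModularForm.discriminant τ ^ N * S τ) := by
    intro γ τ
    have hc : ((γ 1 0 : ℂ) * τ + γ 1 1) ≠ 0 := by
      intro h0
      have := disc_smul γ τ
      rw [h0] at this
      exact ModularForm.discriminant_ne_zero _ (by simpa using this)
    have e : S (γ • τ) = S τ := by
      have := sum_nbs_smul hq
        (fun L => ((jL L - jInv τ ^ q) * (jL L ^ q - jInv τ) / q) ^ m) γ τ
      simp only [kron_jL_nbs hq.pos hc] at this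
      simp only [hS, jInv_smul]
      exact this
    rw [e, disc_smul, mul_pow, ← pow_mul, mul_assoc]
  obtain ⟨P, hP, hP'⟩ := IntQ.poly N hI hw
  exact ⟨P, hP, fun τ =>
    mul_left_cancel₀ (pow_ne_zero N (ModularForm.discriminant_ne_zero τ)) (hP' τ)⟩

theorem kron {q : ℕ} (hq : q.Prime) {Λ Λ' : Lt} (hΛ : IsLat Λ) (h : Nb q Λ Λ')
    (halg : ∀ Λ'', Nb q Λ Λ'' → IsAlgebraic ℚ (jL Λ'')) {M : ℕ} (hM0 : 0 < M)
    (hM : IsIntegral ℤ (M * jL Λ)) :
    IsIntegral ℤ ((M : ℂ) ^ (q ^ 2 + q) * ((jL Λ' - jL Λ ^ q) * (jL Λ' ^ q - jL Λ) / q)) := by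
  obtain ⟨c, τ, hc, rfl⟩ := hΛ
  obtain ⟨o, rfl⟩ := (nb_iff hq hc τ Λ').1 h
  rw [jL_sp hc] at hM ⊢
  have hM' : (M : ℂ) ≠ 0 := Nat.cast_ne_zero.2 hM0.ne'
  have hnat : ∀ n : ℕ, IsIntegral ℚ ((n : ℂ)⁻¹) := fun n => by
    have := isIntegral_algebraMap (R := ℚ) (A := ℂ) (x := (n : ℚ)⁻¹)
    simpa using this
  have hj : IsIntegral ℚ (jInv τ) := by
    have := (hnat M).mul (hM.tower_top (A := ℚ))
    rwa [← mul_assoc, inv_mul_cancel₀ hM', one_mul] at this
  have hMi : IsIntegral ℤ (M : ℂ) := by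
    simpa using isIntegral_algebraMap (R := ℤ) (A := ℂ) (x := (M : ℤ))
  rw [kron_jL_nbs hq.pos hc]
  refine integral_of_power_sums (fun o => (M : ℂ) ^ (q ^ 2 + q) *
    ((jL (nbs q hq.pos 1 τ o) - jInv τ ^ q) * (jL (nbs q hq.pos 1 τ o) ^ q - jInv τ) / q))
    (fun o => ?_) (fun m => ?_) o
  · have ho : IsIntegral ℚ (jL (nbs q hq.pos 1 τ o)) := by
      rw [← kron_jL_nbs hq.pos hc]
      exact (halg _ ((nb_iff hq hc τ _).2 ⟨o, rfl⟩)).isIntegral
    refine IsIntegral.isAlgebraic ?_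
    rw [div_eq_mul_inv]
    exact ((hMi.tower_top (A := ℚ)).pow _).mul
      (((ho.sub (hj.pow q)).mul ((ho.pow q).sub hj)).mul (hnat q))
  · obtain ⟨P, hP, hP'⟩ := kron_poly hq m
    simp only [mul_pow (M ^ (q ^ 2 + q) : ℂ), ← Finset.mul_sum, hP', ← pow_mul]
    rw [Polynomial.aeval_eq_sum_range' (Nat.lt_succ_of_le hP), Finset.mul_sum]
    refine IsIntegral.sum _ fun k hk => ?_
    obtain ⟨r, hr⟩ := Nat.exists_eq_add_of_le (Nat.lt_succ_iff.1 (Finset.mem_range.1 hk))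
    have e : (M : ℂ) ^ ((q ^ 2 + q) * m) * P.coeff k • jInv τ ^ k =
        P.coeff k • ((M : ℂ) ^ r * (M * jInv τ) ^ k) := by
      rw [hr]
      simp only [zsmul_eq_mul]
      ring
    rw [e]
    exact ((hMi.pow r).mul (hM.pow k)).zsmul _

end Pool.Agent.EQ
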