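import Pool.Agent.P.MP_ad7a55_nt.GalA2
import Pool.Agent.P.MP_ad7a55_nt.Kron

/-! Frobenius elements and the separation of the fields. -/

set_option autoImplicit false

noncomputable section

open MeasureTheory Topology Filter UpperHalfPlane
open scoped MatrixGroups ENNReal BoundedContinuousFunction

namespace Pool.Agent.EQ

theorem Acts.mul {σ σ' : ℂ ≃+* ℂ} {D : ℤ} {𝔨 𝔨' : Lt} (h : Acts σ D 𝔨) (h' : Acts σ' D 𝔨')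
    (h𝔨' : DiscL 𝔨' D) : Acts (σ * σ') D (𝔨 * 𝔨') := by
  intro Λ hΛ
  rw [RingAut.mul_apply, h' Λ hΛ, h _ (h𝔨'.mul hΛ le_rfl), mul_assoc]

theorem galb_cancel {D : ℤ} {𝔨 Λ : Lt} (h𝔨 : DiscL 𝔨 D) (hΛ : DiscL Λ D) :
    jL (𝔨 * (cj 𝔨 * Λ)) = jL Λ := by
  obtain ⟨c, hc, e⟩ := h𝔨.mul_cj
  rw [← mul_assoc, e, mul_assoc, hΛ.OD_mul, jL_pr_mul hΛ.isLat hc]

theorem galb_inv_apply (σ : ℂ ≃+* ℂ) (x : ℂ) : σ⁻¹ (σ x) = x := σ.symm_apply_apply x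

theorem galb_apply_inv (σ : ℂ ≃+* ℂ) (x : ℂ) : σ (σ⁻¹ x) = x := σ.apply_symm_apply x

theorem Acts.inv {σ : ℂ ≃+* ℂ} {D : ℤ} {𝔨 : Lt} (h : Acts σ D 𝔨) (h𝔨 : DiscL 𝔨 D) :
    Acts σ⁻¹ D (cj 𝔨) := by
  intro Λ hΛ
  have h1 := h _ (h𝔨.cj.mul hΛ le_rfl)
  rw [galb_cancel h𝔨 hΛ] at h1
  rw [← h1, galb_inv_apply]

theorem galb_common {α : Type} {S : Set α} (hS : S.Finite) (P : α → ℕ → Prop)
    (hmul : ∀ x n m, P x n → P x (n * m)) (h : ∀ x ∈ S, ∃ n, 0 < n ∧ P x n) :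
    ∃ n, 0 < n ∧ ∀ x ∈ S, P x n := by
  induction S, hS using Set.Finite.induction_on with
  | empty => exact ⟨1, one_pos, fun x hx => hx.elim⟩
  | @insert a S _ _ ih =>
    obtain ⟨n, hn, h1⟩ := ih fun x hx => h x (Set.mem_insert_of_mem _ hx)
    obtain ⟨m, hm, h2⟩ := h a (Set.mem_insert _ _)
    refine ⟨n * m, Nat.mul_pos hn hm, ?_⟩
    rintro x (rfl | hx)
    · rw [mul_comm]; exact hmul _ _ _ h2
    · exact hmul _ _ _ (h1 x hx)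

theorem galb_abs {n : ℤ} {x : ℂ} (h : IsIntegral ℤ ((n : ℂ) * x)) :
    IsIntegral ℤ ((n.natAbs : ℂ) * x) := by
  rcases Int.natAbs_eq n with e | e
  · have : (n.natAbs : ℂ) = n := by rw [e]; simp
    rwa [this]
  · have : (n.natAbs : ℂ) = -n := by rw [e]; simp
    rw [this, neg_mul]
    exact h.neg

theorem galb_mult {x : ℂ} (hx : IsAlgebraic ℚ x) : ∃ n : ℕ, 0 < n ∧ IsIntegral ℤ ((n : ℂ) * x) := by
  obtain ⟨y, hy, h⟩ := ((IsFractionRing.isAlgebraic_iff ℤ ℚ ℂ).2 hx).exists_integral_multiple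
  refine ⟨y.natAbs, Int.natAbs_pos.2 hy, galb_abs ?_⟩
  rwa [zsmul_eq_mul] at h

theorem galb_mults {S : Set ℂ} (hS : S.Finite) (h : ∀ x ∈ S, IsAlgebraic ℚ x) :
    ∃ n : ℕ, 0 < n ∧ ∀ x ∈ S, IsIntegral ℤ ((n : ℂ) * x) :=
  galb_common hS (fun x n => IsIntegral ℤ ((n : ℂ) * x)) (fun x n m h1 => by
    have : ((n * m : ℕ) : ℂ) * x = (m : ℂ) * ((n : ℂ) * x) := by push_cast; ring
    rw [this]
    exact (isIntegral_natCast m).mul h1) fun x hx => galb_mult (h x hx)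

theorem galb_th_int {D : ℤ} (hD : D ≤ 0) : IsIntegral ℤ (th D) := by
  refine IsIntegral.of_pow two_pos ?_
  rw [th_sq hD]
  exact isIntegral_intCast D

theorem galb_th_im {D : ℤ} (hD : D < 0) : (th D).im ≠ 0 := by
  have h : (0 : ℝ) < -(D : ℝ) := by exact_mod_cast neg_pos.2 hD
  simpa [th] using (Real.sqrt_pos.2 h).ne'

theorem galb_nb_alg {D : ℤ} {q : ℕ} (hq : q.Prime) {Λ Λ' : Lt} (hΛ : DiscL Λ D) (h : Nb q Λ Λ') :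
    IsAlgebraic ℚ (jL Λ') := by
  have hx : ((q : ℂ) * th D).im ≠ 0 := by
    simpa [hq.ne_zero] using galb_th_im hΛ.isD.1
  obtain ⟨D', h'⟩ := exists_discL (h.isLat hq hΛ.isLat) hx (pr_mul_le.2 fun w hw => by
    have h1 := pr_mul_le.1 ((hΛ.end_iff _).2 (th_mem_OD D)) w (h.2.le hw)
    rw [mul_assoc]
    exact pr_mul_le.1 h.1.le _ h1)
  exact h'.algebraic

/-- The Frobenius element fixes the square root of the discriminant. -/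
theorem galb_frob_th {D : ℤ} (hD : D < 0) {q : ℕ} {𝔮 : Lt} (h : PrI D q 𝔮)
    {𝔔 : Ideal (integralClosure ℤ ℂ)} (h𝔔 : 𝔔.IsPrime)
    (hn : ∀ n : ℤ, (n : integralClosure ℤ ℂ) ∈ 𝔔 ↔ (q : ℤ) ∣ n) {σ : ℂ ≃+* ℂ}
    (hσ : ∀ b : integralClosure ℤ ℂ, (b : ℂ) = σ (th D) →
      b - (⟨th D, galb_th_int hD.le⟩ : integralClosure ℤ ℂ) ^ q ∈ 𝔔) : σ (th D) = th D := by
  obtain ⟨hq, hq2, b, hb, -⟩ := h
  refine (aut_th σ hD.le).resolve_right fun hneg => hq2 ?_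
  set t : integralClosure ℤ ℂ := ⟨th D, galb_th_int hD.le⟩ with ht
  have h1 : -t - t ^ q ∈ 𝔔 := hσ (-t) (by rw [hneg]; rfl)
  have hsq : t ^ 2 = (D : integralClosure ℤ ℂ) := Subtype.ext (by simpa [ht] using th_sq hD.le)
  have key : ∀ c : ℤ, t - c ∈ 𝔔 → t ^ q - t ∈ 𝔔 := fun c hc => by
    have h2 : t ^ q - (c : integralClosure ℤ ℂ) ^ q ∈ 𝔔 :=
      Ideal.mem_of_dvd _ (sub_dvd_pow_sub_pow _ _ _) hc
    have h3 := (hn _).2 (Int.prime_dvd_pow_self_sub hq c)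
    push_cast at h3
    have e : t ^ q - t = (t ^ q - (c : integralClosure ℤ ℂ) ^ q) +
      ((c : integralClosure ℤ ℂ) ^ q - c) - (t - c) := by ring
    rw [e]
    exact 𝔔.sub_mem (𝔔.add_mem h2 h3) hc
  have h4 : (t - b) * (t - (-b : ℤ)) ∈ 𝔔 := by
    have h5 := (hn _).2 ((Dvd.intro_left _ rfl).trans hb)
    have e : (t - b) * (t - (-b : ℤ)) = -((b ^ 2 - D : ℤ) : integralClosure ℤ ℂ) := by
      push_cast
      rw [← hsq]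
      ring
    rw [e]
    exact 𝔔.neg_mem h5
  have h6 : t ^ q - t ∈ 𝔔 := (h𝔔.mem_or_mem h4).elim (key _) (key _)
  rw [← hn]
  have e : ((2 * D : ℤ) : integralClosure ℤ ℂ) = -t * ((-t - t ^ q) + (t ^ q - t)) := by
    push_cast
    rw [← hsq]
    ring
  rw [e]
  exact 𝔔.mul_mem_left _ (𝔔.add_mem h1 h6)

theorem frob_acts {D : ℤ} (hD : D < -576) : ∃ N : ℕ, 0 < N ∧ ∀ q 𝔮, PrI D q 𝔮 → ¬ q ∣ N →
    ∃ σ : ℂ ≃+* ℂ, σ (th D) = th D ∧ Acts σ D 𝔮 := by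
  classical
  have hD0 : D < 0 := by omega
  set J : Set ℂ := {z | ∃ Λ, DiscL Λ D ∧ jL Λ = z} with hJ
  have hJf : J.Finite := finite_disc D
  have hJa : ∀ x ∈ J, IsAlgebraic ℚ x := by
    rintro x ⟨Λ, hΛ, rfl⟩
    exact hΛ.algebraic
  obtain ⟨M, hM, hMi⟩ := galb_mults hJf hJa
  obtain ⟨N, hN, hNi⟩ := galb_mults ((hJf.prod hJf).image fun z => (z.1 - z.2)⁻¹) (by
    rintro x ⟨z, hz, rfl⟩
    exact ((hJa _ hz.1).sub (hJa _ hz.2)).inv)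
  refine ⟨M * N, Nat.mul_pos hM hN, fun q 𝔮 h hq => ?_⟩
  have hqp : q.Prime := h.1
  have h𝔮 : DiscL 𝔮 D := h.discL hD0
  have hO : DiscL (OD D) D := discL_OD h𝔮.isD
  have hJm : ∀ Λ, DiscL Λ D → jL Λ ∈ J := fun Λ hΛ => ⟨Λ, hΛ, rfl⟩
  let el : ∀ Λ, DiscL Λ D → integralClosure ℤ ℂ := fun Λ hΛ => ⟨M * jL Λ, hMi _ (hJm Λ hΛ)⟩
  obtain ⟨𝔔, σ, h𝔔, hn, hσ⟩ := exists_frob hqp {⟨th D, galb_th_int hD0.le⟩, el _ hO, el _ h𝔮}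
  have hth : σ (th D) = th D := galb_frob_th hD0 h h𝔔 hn fun b hb => hσ _ (by simp) b hb
  obtain ⟨𝔨, h𝔨, hact⟩ := exists_acts hD h𝔮.isD hth
  have hsep : ∀ Λ (hΛ : DiscL Λ D) Λ' (hΛ' : DiscL Λ' D), el Λ hΛ - el Λ' hΛ' ∈ 𝔔 →
      jL Λ = jL Λ' := by
    intro Λ hΛ Λ' hΛ' hm
    by_contra hne
    have h1 := hNi _ ⟨(jL Λ, jL Λ'), ⟨hJm Λ hΛ, hJm Λ' hΛ'⟩, rfl⟩
    have h2 := 𝔔.mul_mem_left ⟨_, h1⟩ hm
    have e : (⟨_, h1⟩ : integralClosure ℤ ℂ) * (el Λ hΛ - el Λ' hΛ') =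
        (((M * N : ℕ) : ℤ) : integralClosure ℤ ℂ) := by
      apply Subtype.ext
      have h3 : jL Λ - jL Λ' ≠ 0 := sub_ne_zero.2 hne
      show (N : ℂ) * (jL Λ - jL Λ')⁻¹ * (M * jL Λ - M * jL Λ') = _
      push_cast
      field_simp
    rw [e, hn] at h2
    exact hq (Int.natCast_dvd_natCast.1 h2)
  have hfr : ∀ Λ (hΛ : DiscL Λ D), el Λ hΛ ∈ ({⟨th D, galb_th_int hD0.le⟩, el _ hO, el _ h𝔮} :
      Finset (integralClosure ℤ ℂ)) → el _ (h𝔨.mul hΛ le_rfl) - el Λ hΛ ^ q ∈ 𝔔 := by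
    intro Λ hΛ hm
    refine hσ _ hm _ ?_
    show (M : ℂ) * jL (𝔨 * Λ) = σ (M * jL Λ)
    rw [map_mul, map_natCast, hact Λ hΛ]
  have hnb : Nb q (OD D) 𝔮 := by
    have := h.nb hO
    rwa [mul_comm, h𝔮.OD_mul] at this
  have hk := kron hqp hO.isLat hnb (fun Λ'' h'' => galb_nb_alg hqp hO h'') hM (hMi _ (hJm _ hO))
  obtain ⟨r, rfl⟩ : ∃ r, q = r + 1 := ⟨q - 1, by have := hqp.pos; omega⟩
  set a := el _ hO with ha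
  set a' := el _ h𝔮 with ha'
  have hMq : ¬ ((r + 1 : ℕ) : ℤ) ∣ (M : ℤ) := fun h1 =>
    hq ((Int.natCast_dvd_natCast.1 h1).mul_right _)
  have hMQ : ((M : ℤ) : integralClosure ℤ ℂ) ∉ 𝔔 := fun h1 => hMq ((hn _).1 h1)
  have hM1 : ((M : ℤ) : integralClosure ℤ ℂ) ^ r - 1 ∈ 𝔔 := by
    have h1 := (hn _).2 (Int.prime_dvd_pow_self_sub hqp M)
    have e : (((M : ℤ) ^ (r + 1) - M : ℤ) : integralClosure ℤ ℂ) =
        ((M : ℤ) : integralClosure ℤ ℂ) * (((M : ℤ) : integralClosure ℤ ℂ) ^ r - 1) := by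
      push_cast
      ring
    rw [e] at h1
    exact (h𝔔.mem_or_mem h1).resolve_left hMQ
  have hprod : ((M : ℤ) : integralClosure ℤ ℂ) ^ ((r + 1) * r) *
      ((((M : ℤ) : integralClosure ℤ ℂ) ^ r * a' - a ^ (r + 1)) *
        (a' ^ (r + 1) - ((M : ℤ) : integralClosure ℤ ℂ) ^ r * a)) ∈ 𝔔 := by
    have h1 := 𝔔.mul_mem_left ⟨_, hk⟩ ((hn _).2 dvd_rfl)
    convert h1 using 1
    apply Subtype.ext
    have h3 : ((r + 1 : ℕ) : ℂ) ≠ 0 := Nat.cast_ne_zero.2 hqp.ne_zero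
    show (((M : ℤ) : ℂ)) ^ ((r + 1) * r) * ((((M : ℤ) : ℂ) ^ r * (M * jL 𝔮) - (M * jL (OD D)) ^ (r + 1)) *
      ((M * jL 𝔮) ^ (r + 1) - ((M : ℤ) : ℂ) ^ r * (M * jL (OD D)))) =
      (M : ℂ) ^ ((r + 1) ^ 2 + (r + 1)) * ((jL 𝔮 - jL (OD D) ^ (r + 1)) *
        (jL 𝔮 ^ (r + 1) - jL (OD D)) / ((r + 1 : ℕ) : ℂ)) * (((r + 1 : ℕ) : ℤ) : ℂ)
    rw [Int.cast_natCast, Int.cast_natCast, mul_assoc _ (_ / _), div_mul_cancel₀ _ h3]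
    ring
  have h5 := (h𝔔.mem_or_mem hprod).resolve_left fun h1 => hMQ (h𝔔.mem_of_pow_mem _ h1)
  rcases h𝔔.mem_or_mem h5 with h6 | h6
  · have h7 := hfr _ hO (by simp [ha])
    have h8 := hsep _ (h𝔨.mul hO le_rfl) _ h𝔮 (by
      have e : el _ (h𝔨.mul hO le_rfl) - a' = (el _ (h𝔨.mul hO le_rfl) - a ^ (r + 1)) -
        (((M : ℤ) : integralClosure ℤ ℂ) ^ r * a' - a ^ (r + 1)) +
        (((M : ℤ) : integralClosure ℤ ℂ) ^ r - 1) * a' := by ring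
      rw [← ha', e]
      exact 𝔔.add_mem (𝔔.sub_mem h7 h6) (𝔔.mul_mem_right _ hM1))
    exact ⟨σ, hth, acts_of_OD hD hth h𝔮 ((hact _ hO).trans h8)⟩
  · have h7 := hfr _ h𝔮 (by simp [ha'])
    have h8 := hsep _ (h𝔨.mul h𝔮 le_rfl) _ hO (by
      have e : el _ (h𝔨.mul h𝔮 le_rfl) - a = (el _ (h𝔨.mul h𝔮 le_rfl) - a' ^ (r + 1)) +
        (a' ^ (r + 1) - ((M : ℤ) : integralClosure ℤ ℂ) ^ r * a) +
        (((M : ℤ) : integralClosure ℤ ℂ) ^ r - 1) * a := by ring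
      rw [← ha, e]
      exact 𝔔.add_mem (𝔔.add_mem h7 h6) (𝔔.mul_mem_right _ hM1))
    have hth' : σ⁻¹ (th D) = th D := by
      conv_lhs => rw [← hth]
      exact galb_inv_apply _ _
    refine ⟨σ⁻¹, hth', acts_of_OD hD hth' h𝔮 ?_⟩
    rw [← h8, ← hact _ h𝔮, galb_inv_apply]

/-- Every invertible module is realised by an automorphism. -/
theorem acts_surj {D : ℤ} (hD : D < -576) {𝔞 : Lt} (h : DiscL 𝔞 D) :
    ∃ σ : ℂ ≃+* ℂ, σ (th D) = th D ∧ Acts σ D 𝔞 := by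
  obtain ⟨N, hN, hf⟩ := frob_acts hD
  refine fac hN (fun 𝔟 => ∃ σ : ℂ ≃+* ℂ, σ (th D) = th D ∧ Acts σ D 𝔟) ?_ ?_ ?_ h
  · exact ⟨1, rfl, fun Λ hΛ => by rw [hΛ.OD_mul]; rfl⟩
  · rintro 𝔟 c hc h𝔟 ⟨σ, h1, h2⟩
    refine ⟨σ, h1, fun Λ hΛ => ?_⟩
    rw [h2 Λ hΛ, mul_assoc, jL_pr_mul (h𝔟.mul hΛ le_rfl).isLat hc]
  · rintro 𝔟 q 𝔮 h𝔮 hq h𝔟 ⟨σ, h1, h2⟩
    obtain ⟨σ', h3, h4⟩ := hf q 𝔮 h𝔮 hq
    exact ⟨σ' * σ, by rw [RingAut.mul_apply, h1, h3], h4.mul h2 h𝔟⟩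

theorem galb_disc_pow {D : ℤ} {𝔟 : Lt} (h : DiscL 𝔟 D) {n : ℕ} (hn : 0 < n) : DiscL (𝔟 ^ n) D := by
  obtain ⟨n, rfl⟩ : ∃ m, n = m + 1 := ⟨n - 1, by omega⟩
  clear hn
  induction n with
  | zero => rwa [zero_add, pow_one]
  | succ n ih => rw [pow_succ]; exact ih.mul h le_rfl

theorem galb_acts_pow {σ : ℂ ≃+* ℂ} {D : ℤ} {𝔟 : Lt} (h : Acts σ D 𝔟) (h𝔟 : DiscL 𝔟 D) (n : ℕ) :
    Acts (σ ^ n) D (𝔟 ^ n) := by
  induction n with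
  | zero => exact fun Λ _ => by rw [pow_zero, pow_zero, one_mul]; rfl
  | succ n ih => rw [pow_succ, pow_succ]; exact ih.mul h h𝔟

theorem galb_move (σ : ℂ ≃+* ℂ) {D : ℤ} (hD : D < -576) {Λ : Lt} (h : DiscL Λ D) :
    ∃ Λ₁, DiscL Λ₁ D ∧ jL Λ₁ = σ (jL Λ) := by
  obtain ⟨M, hM, hj⟩ := jL_surj (σ (jL Λ))
  exact ⟨M, disc_gal σ hD h hM hj, hj⟩

/-- Killing the action on the other fields. -/
theorem separate {d : ℕ} (hd : 2 ≤ d) {D : ℤ} (hD : D < -576) (T : Finset ℤ)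
    (hT : ∀ D' ∈ T, D' < -576 ∧ IsD D' ∧ ¬ IsSquare (D' * D)) {σ : ℂ ≃+* ℂ} (hσ : FixD d σ)
    {𝔟 : Lt} (h𝔟 : DiscL 𝔟 D) (h : Acts σ D 𝔟) :
    ∃ σ' : ℂ ≃+* ℂ, FixD d σ' ∧ Acts σ' D (𝔟 ^ 2 ^ T.card) ∧
      ∀ D' ∈ T, ∀ Λ, DiscL Λ D' → σ' (jL Λ) = jL Λ := by
  induction T using Finset.induction_on with
  | empty => exact ⟨σ, hσ, by simpa using h, by simp⟩
  | insert D' T hD' ih =>
    obtain ⟨ρ, hρ, h1, h2⟩ := ih fun D'' h'' => hT D'' (Finset.mem_insert_of_mem h'')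
    obtain ⟨h3, h4, h5⟩ := hT D' (Finset.mem_insert_self _ _)
    obtain ⟨τ, hτ, hτ'⟩ := exists_tau (by omega : D < 0) h4.1 h5
    have h𝔠 : DiscL (𝔟 ^ 2 ^ T.card) D := galb_disc_pow h𝔟 (by positivity)
    refine ⟨ρ * (τ * ρ * τ⁻¹), hρ.mul (hρ.conj τ), ?_, ?_⟩
    · obtain ⟨𝔱, h𝔱, ht⟩ := exists_acts hD h𝔟.isD hτ
      rw [Finset.card_insert_of_notMem hD', pow_succ, pow_mul, sq]
      refine h1.mul (fun Λ hΛ => ?_) h𝔠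
      rw [((ht.mul h1 h𝔠).mul (ht.inv h𝔱) h𝔱.cj) Λ hΛ,
        ← galb_cancel h𝔱 (h𝔠.mul hΛ le_rfl)]
      congr 1
      ring
    · intro D'' h'' Λ hΛ
      simp only [RingAut.mul_apply]
      rcases Finset.mem_insert.1 h'' with rfl | h''
      · obtain ⟨Λ₁, h6, h7⟩ := galb_move τ⁻¹ h3 hΛ
        obtain ⟨𝔨, h𝔨, hk⟩ := exists_acts h3 h4 (hρ.th hd h4.1.le)
        obtain ⟨𝔪, h𝔪, hm⟩ := exists_anti h3 h4 hτ'
        have h8 : jL Λ = jL (𝔪 * cj Λ₁) := by rw [← hm _ h6, h7, galb_apply_inv]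
        have h9 := h𝔨.mul h6 le_rfl
        rw [← h7, hk _ h6, hm _ h9, hk _ (h𝔪.mul h9.cj le_rfl), h8, cj_mul,
          ← galb_cancel h𝔨 (h𝔪.mul h6.cj le_rfl)]
        congr 1
        ring
      · obtain ⟨Λ₁, h6, h7⟩ := galb_move τ⁻¹ (hT D'' (Finset.mem_insert_of_mem h'')).1 hΛ
        rw [← h7, h2 D'' h'' _ h6, h7, galb_apply_inv, h2 D'' h'' _ hΛ]

theorem realize {d : ℕ} (hd : 2 ≤ d) {D : ℤ} (hD : D < -576) (T : Finset ℤ)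
    (hT : ∀ D' ∈ T, D' < -576 ∧ IsD D' ∧ ¬ IsSquare (D' * D)) {𝔞 : Lt} (h𝔞 : DiscL 𝔞 D) :
    ∃ σ : ℂ ≃+* ℂ, FixD d σ ∧ Acts σ D (𝔞 ^ (d.factorial * 2 ^ T.card)) ∧
      ∀ D' ∈ T, ∀ Λ, DiscL Λ D' → σ (jL Λ) = jL Λ := by
  obtain ⟨σ, -, h⟩ := acts_surj hD h𝔞
  rw [pow_mul]
  exact separate hd hD T hT (fixD_pow d σ) (galb_disc_pow h𝔞 d.factorial_pos)
    (galb_acts_pow h h𝔞 _)

end Pool.Agent.EQ
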