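import Pool.Agent.P.MP_ad7a55_nt.CtC
import Pool.Agent.P.MP_ad7a55_nt.GalB

/-! Pairs of conjugate CM points. -/

set_option autoImplicit false

noncomputable section

open MeasureTheory Topology Filter UpperHalfPlane
open scoped MatrixGroups ENNReal BoundedContinuousFunction

namespace Pool.Agent.EQ

theorem ctf_odd {g : ℕ} (hg : ¬ 2 ∣ g) {E : ℤ} (h : IsD (g ^ 2 * E)) : IsD E := by
  obtain ⟨k, rfl⟩ : ∃ k, g = 2 * k + 1 := ⟨g / 2, by omega⟩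
  obtain ⟨h1, h2⟩ := h
  have e : (((2 * k + 1 : ℕ) : ℤ)) ^ 2 * E = 4 * (((k : ℤ) ^ 2 + k) * E) + E := by
    push_cast
    ring
  refine ⟨?_, ?_⟩
  · by_contra hE
    exact absurd h1 (not_lt.2 (mul_nonneg (sq_nonneg _) (not_lt.1 hE)))
  · rw [e] at h2
    omega

/-- Two discriminants of the same field. -/
theorem split_disc {D₁ D₂ : ℤ} (h₁ : IsD D₁) (h₂ : IsD D₂) {ρ₁ ρ₂ : ℚ} (hρ₁ : 0 < ρ₁)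
    (hρ₂ : 0 < ρ₂) (h : ρ₁ ^ 2 * D₁ = ρ₂ ^ 2 * D₂) : ∃ (E : ℤ) (g₁ g₂ : ℕ), IsD E ∧ 0 < g₁ ∧
      0 < g₂ ∧ Nat.Coprime g₁ g₂ ∧ D₁ = g₁ ^ 2 * E ∧ D₂ = g₂ ^ 2 * E ∧ ρ₁ * g₁ = ρ₂ * g₂ := by
  have hr : 0 < ρ₂ / ρ₁ := div_pos hρ₂ hρ₁
  obtain ⟨g₁, g₂, hg₁, hg₂, hg, he⟩ : ∃ g₁ g₂ : ℕ, 0 < g₁ ∧ 0 < g₂ ∧ Nat.Coprime g₁ g₂ ∧
      ρ₁ * g₁ = ρ₂ * g₂ := by
    have hn : 0 < (ρ₂ / ρ₁).num := Rat.num_pos.2 hr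
    refine ⟨(ρ₂ / ρ₁).num.natAbs, (ρ₂ / ρ₁).den, Int.natAbs_pos.2 hn.ne', (ρ₂ / ρ₁).den_pos,
      (ρ₂ / ρ₁).reduced, ?_⟩
    have e1 : (((ρ₂ / ρ₁).num.natAbs : ℕ) : ℚ) = ((ρ₂ / ρ₁).num : ℚ) := by
      rw [← Int.cast_natCast, Int.natAbs_of_nonneg hn.le]
    rw [e1, ← Rat.mul_den_eq_num]
    field_simp
  have hq : ((g₂ : ℚ)) ^ 2 * D₁ = (g₁ : ℚ) ^ 2 * D₂ := by
    apply mul_left_cancel₀ (pow_ne_zero 2 (mul_pos hρ₁ hρ₂).ne')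
    have e2 : (ρ₁ * g₁) ^ 2 = (ρ₂ * g₂) ^ 2 := by rw [he]
    linear_combination (ρ₂ * g₂) ^ 2 * h - ρ₂ ^ 2 * D₂ * e2
  have hz : ((g₂ : ℤ)) ^ 2 * D₁ = (g₁ : ℤ) ^ 2 * D₂ := by exact_mod_cast hq
  have hc : IsCoprime ((g₁ : ℤ) ^ 2) ((g₂ : ℤ) ^ 2) := (Nat.isCoprime_iff_coprime.2 hg).pow
  obtain ⟨E, hE⟩ : (g₁ : ℤ) ^ 2 ∣ D₁ := hc.dvd_of_dvd_mul_left ⟨D₂, hz⟩
  have hE2 : D₂ = g₂ ^ 2 * E := by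
    apply mul_left_cancel₀ (pow_ne_zero 2 (Int.natCast_ne_zero.2 hg₁.ne'))
    rw [← hz, hE]
    ring
  refine ⟨E, g₁, g₂, ?_, hg₁, hg₂, hg, hE, hE2, he⟩
  by_cases h2 : 2 ∣ g₁
  · refine ctf_odd (g := g₂) (fun h3 => ?_) (hE2 ▸ h₂)
    have := Nat.dvd_gcd h2 h3
    rw [hg] at this
    omega
  · exact ctf_odd h2 (hE ▸ h₁)

/-- The orbit of a pair. -/
def orb2 (F : IntermediateField ℚ ℂ) (x y : ℂ) : Set (ℂ × ℂ) :=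
  {z | ∃ σ : ℂ ≃+* ℂ, (∀ a ∈ F, σ a = a) ∧ z = (σ x, σ y)}

theorem ctf_pos {E : ℤ} {g : ℕ} (h : g ^ 2 * E < -576) : 0 < g := by
  rcases Nat.eq_zero_or_pos g with rfl | h0
  · simp at h
  · exact h0

theorem ctf_e1 (E : ℤ) (g₁ g₂ : ℕ) :
    ((g₁ * g₂ : ℕ) : ℤ) ^ 2 * E = g₂ ^ 2 * (g₁ ^ 2 * E) := by
  push_cast
  ring

theorem ctf_e2 (E : ℤ) (g₁ g₂ : ℕ) :
    ((g₁ * g₂ : ℕ) : ℤ) ^ 2 * E = g₁ ^ 2 * (g₂ ^ 2 * E) := by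
  push_cast
  ring

theorem ctf_big {D : ℤ} {g : ℕ} (hg : 0 < g) (h : D < -576) : g ^ 2 * D < -576 := by
  have h1 : (1 : ℤ) ≤ (g : ℤ) ^ 2 := one_le_pow₀ (by exact_mod_cast hg)
  nlinarith

theorem ctf_fix {σ : ℂ ≃+* ℂ} {E : ℤ} (hσ : σ (th E) = th E) (g : ℕ) :
    σ (th (g ^ 2 * E)) = th (g ^ 2 * E) := by
  rw [th_mul_sq, map_mul, map_natCast, hσ]

/-- The common module acts on both orders. -/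
theorem ctf_up {σ : ℂ ≃+* ℂ} {E : ℤ} (hE : IsD E) {g₁ g₂ : ℕ} (hb₁ : g₁ ^ 2 * E < -576)
    (hb₂ : g₂ ^ 2 * E < -576) (hσ : σ (th E) = th E) {𝔨 : Lt}
    (h𝔨 : DiscL 𝔨 ((g₁ * g₂ : ℕ) ^ 2 * E)) (h : Acts σ ((g₁ * g₂ : ℕ) ^ 2 * E) 𝔨) :
    Acts σ (g₁ ^ 2 * E) 𝔨 ∧ Acts σ (g₂ ^ 2 * E) 𝔨 := by
  have p₁ := ctf_pos hb₁
  have p₂ := ctf_pos hb₂
  constructor
  · rw [ctf_e1] at h𝔨 h
    exact Acts.up hb₁ (galA2_isD hE p₁) (ctf_fix hσ g₁) p₂ h𝔨 h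
  · rw [ctf_e2] at h𝔨 h
    exact Acts.up hb₂ (galA2_isD hE p₂) (ctf_fix hσ g₂) p₁ h𝔨 h

theorem ctf_le {E : ℤ} (hE : IsD E) {g₁ g₂ : ℕ} (p₁ : 0 < g₁) (p₂ : 0 < g₂) :
    OD ((g₁ * g₂ : ℕ) ^ 2 * E) ≤ OD (g₁ ^ 2 * E) ∧
      OD ((g₁ * g₂ : ℕ) ^ 2 * E) ≤ OD (g₂ ^ 2 * E) := by
  constructor
  · rw [ctf_e1]
    exact OD_sq_le (galA2_isD hE p₁) g₂
  · rw [ctf_e2]
    exact OD_sq_le (galA2_isD hE p₂) g₁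

/-- Automorphisms fixing the quadratic field preserve the class of the quotient. -/
theorem ctf_class {E : ℤ} (hE : IsD E) {g₁ g₂ : ℕ} (hg : Nat.Coprime g₁ g₂) {Λ₁ Λ₂ : Lt}
    (h₁ : DiscL Λ₁ (g₁ ^ 2 * E)) (h₂ : DiscL Λ₂ (g₂ ^ 2 * E)) (hb₁ : g₁ ^ 2 * E < -576)
    (hb₂ : g₂ ^ 2 * E < -576) {σ : ℂ ≃+* ℂ} (hσ : σ (th E) = th E) {M₁ M₂ : Lt} (hM₁ : IsLat M₁)
    (hM₂ : IsLat M₂) (e₁ : jL M₁ = σ (jL Λ₁)) (e₂ : jL M₂ = σ (jL Λ₂)) :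
    jL (M₂ * cj M₁) = jL (Λ₂ * cj Λ₁) := by
  have p₁ := ctf_pos hb₁
  have p₂ := ctf_pos hb₂
  have hb : ((g₁ * g₂ : ℕ) : ℤ) ^ 2 * E < -576 := by
    rw [ctf_e1]
    exact ctf_big p₂ hb₁
  obtain ⟨𝔨, h𝔨, ha⟩ := exists_acts hb (galA2_isD hE (Nat.mul_pos p₁ p₂)) (ctf_fix hσ (g₁ * g₂))
  obtain ⟨a₁, a₂⟩ := ctf_up hE hb₁ hb₂ hσ h𝔨 ha
  obtain ⟨l₁, l₂⟩ := ctf_le hE p₁ p₂
  rw [a₁ Λ₁ h₁] at e₁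
  rw [a₂ Λ₂ h₂] at e₂
  obtain ⟨c₁, hc₁, rfl⟩ := jL_inj (h𝔨.mul h₁ l₁).isLat hM₁ e₁.symm
  obtain ⟨c₂, hc₂, rfl⟩ := jL_inj (h𝔨.mul h₂ l₂).isLat hM₂ e₂.symm
  obtain ⟨ν, hν, hk⟩ := h𝔨.mul_cj
  have e : pr c₂ * (𝔨 * Λ₂) * cj (pr c₁ * (𝔨 * Λ₁)) =
      pr (c₂ * starRingEnd ℂ c₁ * ν) * (Λ₂ * cj Λ₁) := by
    rw [cj_mul, cj_mul, cj_pr, ← pr_mul_pr, ← pr_mul_pr]
    calc pr c₂ * (𝔨 * Λ₂) * (pr (starRingEnd ℂ c₁) * (cj 𝔨 * cj Λ₁))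
        = pr c₂ * pr (starRingEnd ℂ c₁) * ((𝔨 * cj 𝔨) * Λ₂ * cj Λ₁) := by ring
      _ = pr c₂ * pr (starRingEnd ℂ c₁) * pr ν *
          (OD ((g₁ * g₂ : ℕ) ^ 2 * E) * Λ₂ * cj Λ₁) := by rw [hk]; ring
      _ = _ := by rw [ord2_OD_mul h₂ l₂]
  rw [e]
  exact jL_pr_mul (discL_mul_cop hE hg.symm h₂ h₁.cj).1.isLat
    (mul_ne_zero (mul_ne_zero hc₂ ((map_ne_zero _).2 hc₁)) hν)

/-- The class of the quotient takes at most two values on the orbit. -/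
theorem orbit_classes {E : ℤ} (hE : IsD E) {g₁ g₂ : ℕ} (hg : Nat.Coprime g₁ g₂) {Λ₁ Λ₂ : Lt}
    (h₁ : DiscL Λ₁ (g₁ ^ 2 * E)) (h₂ : DiscL Λ₂ (g₂ ^ 2 * E)) (hb₁ : g₁ ^ 2 * E < -576)
    (hb₂ : g₂ ^ 2 * E < -576) : ∃ w w' : ℂ, ∀ (σ : ℂ ≃+* ℂ) (M₁ M₂ : Lt), IsLat M₁ → IsLat M₂ →
      jL M₁ = σ (jL Λ₁) → jL M₂ = σ (jL Λ₂) → jL (M₂ * cj M₁) = w ∨ jL (M₂ * cj M₁) = w' := by
  obtain ⟨σ₀, hσ₀⟩ : ∃ σ₀ : ℂ ≃+* ℂ, σ₀ (th E) = -th E := ⟨starRingAut, conj_th E⟩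
  obtain ⟨N₁, hN₁, n₁⟩ := galb_move σ₀ hb₁ h₁
  obtain ⟨N₂, hN₂, n₂⟩ := galb_move σ₀ hb₂ h₂
  refine ⟨jL (Λ₂ * cj Λ₁), jL (N₂ * cj N₁), fun σ M₁ M₂ hM₁ hM₂ e₁ e₂ => ?_⟩
  rcases aut_th σ hE.1.le with hσ | hσ
  · exact Or.inl (ctf_class hE hg h₁ h₂ hb₁ hb₂ hσ hM₁ hM₂ e₁ e₂)
  · refine Or.inr (ctf_class hE hg hN₁ hN₂ hb₁ hb₂ (σ := σ₀.symm.trans σ) ?_ hM₁ hM₂ ?_ ?_)
    · have : σ₀.symm (th E) = -th E := by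
        rw [RingEquiv.symm_apply_eq, map_neg, hσ₀, neg_neg]
      rw [RingEquiv.trans_apply, this, map_neg, hσ, neg_neg]
    · rw [RingEquiv.trans_apply, n₁, RingEquiv.symm_apply_apply, e₁]
    · rw [RingEquiv.trans_apply, n₂, RingEquiv.symm_apply_apply, e₂]

/-- Counting through a finite cover. -/
theorem ctf_cover {α β : Type} {S : Set α} {T : Set β} (hT : T.Finite) (P : β → Set α) {n : ℕ}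
    (hP : ∀ b ∈ T, (P b).Finite ∧ (P b).ncard ≤ n) (hS : ∀ a ∈ S, ∃ b ∈ T, a ∈ P b) :
    S.Finite ∧ S.ncard ≤ n * T.ncard := by
  have hsub : S ⊆ ⋃ b ∈ hT.toFinset, P b := fun a ha => by
    obtain ⟨b, hb, hab⟩ := hS a ha
    exact Set.mem_biUnion (hT.mem_toFinset.2 hb) hab
  have hfin : (⋃ b ∈ hT.toFinset, P b).Finite :=
    Set.Finite.biUnion hT.toFinset.finite_toSet fun b hb => (hP b (hT.mem_toFinset.1 hb)).1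
  refine ⟨hfin.subset hsub, (Set.ncard_le_ncard hsub hfin).trans ?_⟩
  refine (hT.toFinset.set_ncard_biUnion_le P).trans ?_
  refine (Finset.sum_le_card_nsmul _ _ n fun b hb => (hP b (hT.mem_toFinset.1 hb)).2).trans ?_
  rw [smul_eq_mul, mul_comm, Set.ncard_eq_toFinset_card T hT]

/-- The orbit under all automorphisms is at most `[F : ℚ]` times larger. -/
theorem card_orb2_bot (F : IntermediateField ℚ ℂ) [FiniteDimensional ℚ F] {x y : ℂ}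
    (h : (orb2 F x y).Finite) :
    (orb2 ⊥ x y).Finite ∧ (orb2 ⊥ x y).ncard ≤ Module.finrank ℚ F * (orb2 F x y).ncard := by
  have key := ctf_cover (S := orb2 ⊥ x y) (T := (Set.univ : Set (F →ₐ[ℚ] ℂ))) Set.finite_univ
    (fun φ => {z | ∃ σ : ℂ ≃+* ℂ, (∀ a : F, σ a = φ a) ∧ z = (σ x, σ y)})
    (n := (orb2 F x y).ncard) ?_ ?_
  · refine ⟨key.1, key.2.trans ?_⟩
    rw [mul_comm, Set.ncard_univ]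
    exact Nat.mul_le_mul_right _ (card_algHom_le_finrank ℚ F ℂ)
  · intro φ _
    by_cases he : ∃ σ₀ : ℂ ≃+* ℂ, ∀ a : F, σ₀ a = φ a
    · obtain ⟨σ₀, hσ₀⟩ := he
      have hsub : {z | ∃ σ : ℂ ≃+* ℂ, (∀ a : F, σ a = φ a) ∧ z = (σ x, σ y)} ⊆
          (fun z : ℂ × ℂ => (σ₀ z.1, σ₀ z.2)) '' orb2 F x y := by
        rintro _ ⟨σ, hσ, rfl⟩
        refine ⟨(σ₀.symm (σ x), σ₀.symm (σ y)), ⟨σ.trans σ₀.symm, fun a ha => ?_, rfl⟩, by simp⟩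
        rw [RingEquiv.trans_apply, RingEquiv.symm_apply_eq]
        exact (hσ ⟨a, ha⟩).trans (hσ₀ ⟨a, ha⟩).symm
      exact ⟨(h.image _).subset hsub,
        (Set.ncard_le_ncard hsub (h.image _)).trans (Set.ncard_image_le h)⟩
    · have hemp : {z | ∃ σ : ℂ ≃+* ℂ, (∀ a : F, σ a = φ a) ∧ z = (σ x, σ y)} = ∅ := by
        ext z
        exact ⟨fun ⟨σ, hσ, _⟩ => he ⟨σ, hσ⟩, False.elim⟩
      rw [hemp]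
      simp
  · rintro _ ⟨σ, -, rfl⟩
    exact ⟨(σ.toRingHom.comp (algebraMap F ℂ)).toRatAlgHom, Set.mem_univ _, σ, fun a => rfl, rfl⟩

/-- Cancelling an invertible module. -/
theorem ctf_cancel {D : ℤ} {Λ : Lt} (h : DiscL Λ D) {A B : Lt} (e : A * Λ = B * Λ) :
    A * OD D = B * OD D := by
  obtain ⟨ν, hν, hk⟩ := h.mul_cj
  have e1 : pr ν * (A * OD D) = pr ν * (B * OD D) := by
    calc pr ν * (A * OD D) = A * (pr ν * OD D) := by ring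
      _ = A * Λ * cj Λ := by rw [← hk]; ring
      _ = B * (Λ * cj Λ) := by rw [e]; ring
      _ = pr ν * (B * OD D) := by rw [hk]; ring
  exact le_antisymm ((pr_mul_le_iff hν).1 e1.le) ((pr_mul_le_iff hν).1 e1.ge)

/-- A module is recovered from its extensions to two orders with coprime conductors. -/
theorem ctf_inf {E : ℤ} (hE : IsD E) {g₁ g₂ : ℕ} (hg : Nat.Coprime g₁ g₂) (p₁ : 0 < g₁)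
    (p₂ : 0 < g₂) {T : Lt} (hT : DiscL T ((g₁ * g₂ : ℕ) ^ 2 * E)) :
    T = T * OD (g₁ ^ 2 * E) ⊓ T * OD (g₂ ^ 2 * E) := by
  obtain ⟨-, -, a₁, b₁⟩ := discL_up (galA2_isD hE p₁) (g := g₂) (M := T) (ctf_e1 E g₁ g₂ ▸ hT)
  obtain ⟨-, -, a₂, b₂⟩ := discL_up (galA2_isD hE p₂) (g := g₁) (M := T) (ctf_e2 E g₁ g₂ ▸ hT)
  refine le_antisymm (le_inf a₁ a₂) fun v hv => ?_
  have m₁ := pr_mul_le.1 b₁ v hv.1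
  have m₂ := pr_mul_le.1 b₂ v hv.2
  obtain ⟨a, b, hab⟩ := Nat.isCoprime_iff_coprime.2 hg
  have hc : (a : ℂ) * g₁ + b * g₂ = 1 := by exact_mod_cast hab
  have e : v = a • ((g₁ : ℂ) * v) + b • ((g₂ : ℂ) * v) := by
    rw [zsmul_eq_mul, zsmul_eq_mul]
    linear_combination -v * hc
  rw [e]
  exact T.add_mem (T.smul_mem a m₂) (T.smul_mem b m₁)

theorem ctf_pr_inf {c : ℂ} (hc : c ≠ 0) (A B : Lt) : pr c * (A ⊓ B) = pr c * A ⊓ pr c * B := by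
  ext v
  constructor
  · intro hv
    obtain ⟨w, hw, rfl⟩ := mem_pr_mul.1 hv
    exact ⟨mem_pr_mul.2 ⟨w, hw.1, rfl⟩, mem_pr_mul.2 ⟨w, hw.2, rfl⟩⟩
  · rintro ⟨h1, h2⟩
    obtain ⟨w, hw, rfl⟩ := mem_pr_mul.1 h1
    obtain ⟨w', hw', e⟩ := mem_pr_mul.1 h2
    rw [mul_left_cancel₀ hc e] at hw'
    exact mem_pr_mul.2 ⟨w, ⟨hw, hw'⟩, rfl⟩

/-- The fibres have at most `15` elements. -/
theorem ctf_fibre {E : ℤ} (hE : IsD E) {g₁ g₂ : ℕ} (hg : Nat.Coprime g₁ g₂) {Λ₁ Λ₂ : Lt}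
    (h₁ : DiscL Λ₁ (g₁ ^ 2 * E)) (h₂ : DiscL Λ₂ (g₂ ^ 2 * E)) (p₁ : 0 < g₁) (p₂ : 0 < g₂)
    (b : ℂ × ℂ) :
    {z | ∃ T, DiscL T ((g₁ * g₂ : ℕ) ^ 2 * E) ∧ jL T = z ∧
      b = (jL (T * Λ₁), jL (T * Λ₂))}.ncard ≤ 15 := by
  by_cases he : ∃ T₀, DiscL T₀ ((g₁ * g₂ : ℕ) ^ 2 * E) ∧ b = (jL (T₀ * Λ₁), jL (T₀ * Λ₂))
  · obtain ⟨T₀, hT₀, rfl⟩ := he
    obtain ⟨l₁, l₂⟩ := ctf_le hE p₁ p₂
    obtain ⟨hfin, hcard⟩ := card_gen (discL_up hE hT₀).1 (T₀ * OD E)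
    refine le_trans (Set.ncard_le_ncard ?_ (hfin.image
      fun c => jL (T₀ * OD (g₁ ^ 2 * E) ⊓ pr c * (T₀ * OD (g₂ ^ 2 * E)))))
      ((Set.ncard_image_le hfin).trans hcard)
    rintro _ ⟨T, hT, rfl, hb⟩
    obtain ⟨e₁, e₂⟩ := Prod.mk.inj hb
    obtain ⟨c₁, hc₁, f₁⟩ := jL_inj (hT₀.mul h₁ l₁).isLat (hT.mul h₁ l₁).isLat e₁
    obtain ⟨c₂, hc₂, f₂⟩ := jL_inj (hT₀.mul h₂ l₂).isLat (hT.mul h₂ l₂).isLat e₂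
    rw [← mul_assoc] at f₁ f₂
    have k₁ := ctf_cancel h₁ f₁
    have k₂ := ctf_cancel h₂ f₂
    have o₁ : OD (g₁ ^ 2 * E) * OD E = OD E := ord2_OD_mul (discL_OD hE) (OD_sq_le hE g₁)
    have o₂ : OD (g₂ ^ 2 * E) * OD E = OD E := ord2_OD_mul (discL_OD hE) (OD_sq_le hE g₂)
    have u₁ : T * OD E = pr c₁ * (T₀ * OD E) := by
      have := congrArg (· * OD E) k₁
      simpa only [mul_assoc, o₁] using this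
    have u₂ : T * OD E = pr c₂ * (T₀ * OD E) := by
      have := congrArg (· * OD E) k₂
      simpa only [mul_assoc, o₂] using this
    have hi : c₁⁻¹ ≠ 0 := inv_ne_zero hc₁
    refine ⟨c₁⁻¹ * c₂, ⟨mul_ne_zero hi hc₂, ?_⟩, ?_⟩
    · rw [← pr_mul_pr, mul_assoc, ← u₂, u₁, ← mul_assoc, pr_mul_pr, inv_mul_cancel₀ hc₁,
        pr_one_mul]
    · have e : T₀ * OD (g₁ ^ 2 * E) ⊓ pr (c₁⁻¹ * c₂) * (T₀ * OD (g₂ ^ 2 * E)) = pr c₁⁻¹ * T := by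
        conv_rhs => rw [ctf_inf hE hg p₁ p₂ hT]
        rw [ctf_pr_inf hi, k₁, k₂, mul_assoc (pr c₁), mul_assoc (pr c₂), ← mul_assoc (pr c₁⁻¹),
          ← mul_assoc (pr c₁⁻¹), pr_mul_pr, pr_mul_pr, inv_mul_cancel₀ hc₁, pr_one_mul]
      exact (congrArg jL e).trans (jL_pr_mul hT.isLat hi)
  · have hemp : {z | ∃ T, DiscL T ((g₁ * g₂ : ℕ) ^ 2 * E) ∧ jL T = z ∧
        b = (jL (T * Λ₁), jL (T * Λ₂))} = ∅ := by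
      ext z
      exact ⟨fun ⟨T, hT, _, hb⟩ => he ⟨T, hT, hb⟩, False.elim⟩
    rw [hemp]
    simp

theorem orbit_lower {E : ℤ} (hE : IsD E) {g₁ g₂ : ℕ} (hg : Nat.Coprime g₁ g₂) {Λ₁ Λ₂ : Lt}
    (h₁ : DiscL Λ₁ (g₁ ^ 2 * E)) (h₂ : DiscL Λ₂ (g₂ ^ 2 * E)) (hb₁ : g₁ ^ 2 * E < -576)
    (hb₂ : g₂ ^ 2 * E < -576) :
    (Cl ((g₁ * g₂ : ℕ) ^ 2 * E)).ncard ≤ 15 * (orb2 ⊥ (jL Λ₁) (jL Λ₂)).ncard := by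
  have p₁ := ctf_pos hb₁
  have p₂ := ctf_pos hb₂
  have hb : ((g₁ * g₂ : ℕ) : ℤ) ^ 2 * E < -576 := by
    rw [ctf_e1]
    exact ctf_big p₂ hb₁
  have hfin : (orb2 ⊥ (jL Λ₁) (jL Λ₂)).Finite := by
    refine ((finite_orbit h₁).prod (finite_orbit h₂)).subset ?_
    rintro _ ⟨σ, -, rfl⟩
    exact ⟨⟨σ, rfl⟩, ⟨σ, rfl⟩⟩
  refine (ctf_cover hfin (fun b => {z | ∃ T, DiscL T ((g₁ * g₂ : ℕ) ^ 2 * E) ∧ jL T = z ∧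
    b = (jL (T * Λ₁), jL (T * Λ₂))}) (fun b _ => ⟨?_, ctf_fibre hE hg h₁ h₂ p₁ p₂ b⟩) ?_).2
  · refine (Cl_finite ((g₁ * g₂ : ℕ) ^ 2 * E)).subset ?_
    rintro _ ⟨T, hT, rfl, -⟩
    exact ⟨T, hT, rfl⟩
  · rintro _ ⟨T, hT, rfl⟩
    obtain ⟨σ, hσ, ha⟩ := acts_surj hb hT
    have hσE : σ (th E) = th E := by
      rw [th_mul_sq, map_mul, map_natCast] at hσ
      exact mul_left_cancel₀ (Nat.cast_ne_zero.2 (Nat.mul_pos p₁ p₂).ne') hσ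
    obtain ⟨a₁, a₂⟩ := ctf_up hE hb₁ hb₂ hσE hT ha
    refine ⟨(jL (T * Λ₁), jL (T * Λ₂)), ⟨σ, fun a ha => ?_, ?_⟩, T, hT, rfl, rfl⟩
    · obtain ⟨q, rfl⟩ := IntermediateField.mem_bot.1 ha
      simp
    · rw [a₁ Λ₁ h₁, a₂ Λ₂ h₂]

end Pool.Agent.EQ
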