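import Pool.Agent.P.MP_ad7a55_nt.Frame
import Pool.Agent.P.MP_ad7a55_nt.CM
import Pool.Agent.P.MP_ad7a55_nt.Beta2

/-! Galois orbits are unions of ball orbits. -/

set_option autoImplicit false

noncomputable section

open MeasureTheory Topology Filter UpperHalfPlane
open scoped MatrixGroups ENNReal BoundedContinuousFunction

namespace Pool.Agent.EQ

theorem orbit_finite {n : ℕ} (F : IntermediateField ℚ ℂ) {τ : Fin n → ℍ} {D : Fin n → ℤ}
    (h : ∀ k, HasDisc (τ k) (D k)) : (galOrbit F fun k => jInv (τ k)).Finite := by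
  refine (Set.Finite.pi' fun k => finite_orbit (discL_one (h k))).subset ?_
  rintro _ ⟨σ, -, rfl⟩ k
  exact ⟨σ, by rw [jL_one]⟩

theorem orbit_self {n : ℕ} (F : IntermediateField ℚ ℂ) (x : Fin n → ℂ) : x ∈ galOrbit F x :=
  ⟨RingEquiv.refl _, fun _ _ => rfl, rfl⟩

theorem orbit_map {n : ℕ} {F : IntermediateField ℚ ℂ} {x z : Fin n → ℂ} (hz : z ∈ galOrbit F x)
    {σ : ℂ ≃+* ℂ} (hσ : ∀ a ∈ F, σ a = a) : (fun k => σ (z k)) ∈ galOrbit F x := by
  obtain ⟨σ', h', rfl⟩ := hz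
  exact ⟨σ'.trans σ, fun a ha => by simp [h' a ha, hσ a ha], rfl⟩

theorem sum_orbit {n : ℕ} {F : IntermediateField ℚ ℂ} {x : Fin n → ℂ}
    (hx : (galOrbit F x).Finite) {σ : ℂ ≃+* ℂ} (hσ : ∀ a ∈ F, σ a = a) (G : (Fin n → ℂ) → ℝ) :
    ∑ z ∈ hx.toFinset, G (fun k => σ (z k)) = ∑ z ∈ hx.toFinset, G z := by
  have hσ' : ∀ a ∈ F, σ.symm a = a := fun a ha => by
    rw [RingEquiv.symm_apply_eq, hσ a ha]
  refine Finset.sum_nbij' (fun z k => σ (z k)) (fun z k => σ.symm (z k)) ?_ ?_ ?_ ?_ ?_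
  · intro z hz
    exact hx.mem_toFinset.2 (orbit_map (hx.mem_toFinset.1 hz) hσ)
  · intro z hz
    exact hx.mem_toFinset.2 (orbit_map (hx.mem_toFinset.1 hz) hσ')
  · intro z _; simp
  · intro z _; simp
  · intro z _; rfl

/-- Points of the orbit come from CM points with the same discriminants. -/
theorem orbit_lift {n : ℕ} {F : IntermediateField ℚ ℂ} {τ : Fin n → ℍ} {D : Fin n → ℤ}
    (h : ∀ k, HasDisc (τ k) (D k)) (hD : ∀ k, D k < -576) {z : Fin n → ℂ}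
    (hz : z ∈ galOrbit F fun k => jInv (τ k)) (k : Fin n) :
    ∃ t : ℍ, HasDisc t (D k) ∧ jInv t = z k := by
  obtain ⟨σ, -, rfl⟩ := hz
  obtain ⟨M, hM, hj⟩ := jL_surj (σ (jInv (τ k)))
  obtain ⟨c, t, hc, rfl, ht⟩ := disc_gal σ (hD k) (discL_one (h k)) hM (by rw [hj, jL_one])
  exact ⟨t, ht, (jL_sp hc t).symm.trans hj⟩

variable (p : ℕ) [Fact p.Prime]

/-- A continuous function that is constant on the rational points of a ball. -/
theorem integral_of_rat {Φ : ℚ_[p] → ℝ} (hΦ : Continuous Φ) (r : ℤ) {c : ℝ}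
    (h : ∀ y : ℚ, ‖(y : ℚ_[p])‖ ≤ (p : ℝ) ^ r → Φ y = c) : ∫ s, Φ s ∂bm p r = c := by
  have hp : (0 : ℝ) < p := by exact_mod_cast (Fact.out : p.Prime).pos
  have h1 : ∀ s : ℚ_[p], ‖s‖ ≤ (p : ℝ) ^ r → Φ s = c := by
    intro s hs
    have hcl : IsClosed {s : ℚ_[p] | Φ s = c} := isClosed_eq hΦ continuous_const
    refine hcl.closure_subset (Metric.mem_closure_iff.2 fun ε hε => ?_)
    obtain ⟨y, hy⟩ := Padic.rat_dense p s (lt_min hε (zpow_pos hp r))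
    refine ⟨y, h y ?_, by rw [dist_eq_norm]; exact hy.trans_le (min_le_left _ _)⟩
    have : (y : ℚ_[p]) = s + -(s - y) := by ring
    rw [this]
    refine (Padic.nonarchimedean _ _).trans (max_le hs ?_)
    rw [norm_neg]
    exact (hy.trans_le (min_le_right _ _)).le
  rw [integral_congr_ae ((bm_ae p r).mono h1)]
  simp

/-- The data attached to an orbit. -/
structure Fr {n : ℕ} (O : Finset (Fin n → ℂ)) (D : Fin n → ℤ) (j : Fin n) (c : ℕ)
    (ρ : Fin n → ℚ) (N : Fin n → ℝ) (x : (Fin n → ℂ) → Fin n → XX p)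
    (e : (Fin n → ℂ) → Fin n → ℚ_[p]) : Prop where
  pi : ∀ z ∈ O, ∀ k, piX p (x z k) = z k
  nrm : ∀ z ∈ O, ∀ k, ‖-e z k * ρ k‖ = N k
  fr : ∀ z ∈ O, ∀ k, N k ≠ 0 → Frame p (D k) (x z k) (e z k) ∧ 0 < ρ k ∧ ρ k ^ 2 * D k = D j
  le : ∀ k, ‖(D k : ℚ_[p])‖ * N k ^ 2 ≤ ‖(D j : ℚ_[p])‖
  top : ‖(D j : ℚ_[p])‖ ≤ ‖(4 : ℚ_[p])‖ → N j = ‖(2 : ℚ_[p])‖
  sum : ∀ r : ℤ, ‖(D j : ℚ_[p])‖ * ((p : ℝ) ^ r) ^ 2 ≤ (p : ℝ) ^ (-(c : ℤ)) →
    ∀ G : (Fin n → ℂ) → ℝ, Continuous G → (∃ B, ∀ w, |G w| ≤ B) →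
      ∑ z ∈ O, ∫ s, G (fun k => piX p (uP p (-e z k * ρ k * s) • x z k)) ∂bm p r = ∑ z ∈ O, G z

theorem exists_frames (F : IntermediateField ℚ ℂ) [FiniteDimensional ℚ F] (n : ℕ) : ∃ c : ℕ,
    ∀ (τ : Fin n → ℍ) (D : Fin n → ℤ) (h : ∀ k, HasDisc (τ k) (D k)) (j : Fin n),
      ∃ ρ N x e, (∀ k, D k < -576) → Fr p (orbit_finite F h).toFinset D j c ρ N x e := by
  classical
  obtain ⟨c, hc⟩ := cm_main p F n
  refine ⟨c + 2, fun τ D h j => ?_⟩
  by_cases hD : ∀ k, D k < -576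
  swap
  · exact ⟨fun _ => 0, fun _ => 0, fun _ _ => ((1 : GG p) : XX p), fun _ _ => 0,
      fun h' => absurd h' hD⟩
  have hp : (1 : ℝ) < p := by exact_mod_cast (Fact.out : p.Prime).one_lt
  have hneg : ∀ k, D k < 0 := fun k => by linarith [hD k]
  have h1 : ∀ k, ∃ ρ : ℚ, (IsSquare (D k * D j) → 0 < ρ ∧ ρ ^ 2 * D k = D j ∧
      th (D j) = ρ * th (D k)) ∧ (¬ IsSquare (D k * D j) → ρ = 0) := by
    intro k
    by_cases hk : IsSquare (D k * D j)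
    · obtain ⟨ρ, hρ⟩ := exists_ratio (hneg k) (hneg j) hk
      exact ⟨ρ, fun _ => hρ, fun h' => absurd hk h'⟩
    · exact ⟨0, fun h' => absurd h' hk, fun _ => rfl⟩
  choose ρ hρ hρ' using h1
  have h2 : ∀ (z : Fin n → ℂ) (k : Fin n), ∃ (t : ℍ) (x : XX p) (e : ℚ_[p]),
      z ∈ (galOrbit F fun k => jInv (τ k)) → HasDisc t (D k) ∧ jInv t = z k ∧
      piX p x = jInv t ∧ (‖(D k : ℚ_[p])‖ ≤ ‖(4 : ℚ_[p])‖ → Frame p (D k) x e) ∧
      (¬ ‖(D k : ℚ_[p])‖ ≤ ‖(4 : ℚ_[p])‖ → e = 0) ∧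
      ∀ y : ℚ, ‖(y : ℚ_[p]) ^ 2 * D k‖ ≤ (p : ℝ) ^ (-2 : ℤ) →
        piX p (uP p (-e * y) • x) = jL (star p (1 + y * th (D k)) (sp 1 t)) := by
    intro z k
    by_cases hz : z ∈ (galOrbit F fun k => jInv (τ k))
    · obtain ⟨t, ht, hj⟩ := orbit_lift h hD hz k
      obtain ⟨x, e, hx⟩ := exists_frame p ht
      exact ⟨t, x, e, fun _ => ⟨ht, hj, hx⟩⟩
    · exact ⟨I, ((1 : GG p) : XX p), 0, fun h' => absurd h' hz⟩
  choose t x e hx using h2
  have h2le : ‖(2 : ℚ_[p])‖ ≤ 1 := by simpa using Padic.norm_int_le_one (p := p) 2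
  have hrel : ∀ k, IsSquare (D k * D j) → (ρ k : ℚ_[p]) ^ 2 * D k = D j := fun k hk => by
    exact_mod_cast congrArg (fun q : ℚ => (q : ℚ_[p])) (hρ k hk).2.1
  refine ⟨ρ, fun k => if ‖(D k : ℚ_[p])‖ ≤ ‖(4 : ℚ_[p])‖ then ‖(2 : ℚ_[p])‖ * ‖(ρ k : ℚ_[p])‖
    else 0, x, e, fun _ => ⟨?_, ?_, ?_, ?_, ?_, ?_⟩⟩
  · intro z hz k
    have := hx z k ((orbit_finite F h).mem_toFinset.1 hz)
    rw [this.2.2.1, this.2.1]
  · intro z hz k
    have := hx z k ((orbit_finite F h).mem_toFinset.1 hz)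
    split_ifs with hk
    · obtain ⟨g, Θ, -, -, -, -, he⟩ := this.2.2.2.1 hk
      rw [norm_mul, norm_neg, he]
    · rw [this.2.2.2.2.1 hk]; simp
  · intro z hz k hk
    have := hx z k ((orbit_finite F h).mem_toFinset.1 hz)
    have hk1 : ‖(D k : ℚ_[p])‖ ≤ ‖(4 : ℚ_[p])‖ := by
      by_contra h'
      exact hk (if_neg h')
    have hk2 : IsSquare (D k * D j) := by
      by_contra h'
      exact hk (by simp [hρ' k h'])
    exact ⟨this.2.2.2.1 hk1, (hρ k hk2).1, (hρ k hk2).2.1⟩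
  · intro k
    split_ifs with hk
    · by_cases hk2 : IsSquare (D k * D j)
      · rw [← hrel k hk2, norm_mul, norm_pow, mul_pow]
        have := mul_le_one₀ h2le (norm_nonneg _) h2le
        have h3 : 0 ≤ ‖(ρ k : ℚ_[p])‖ ^ 2 * ‖(D k : ℚ_[p])‖ := by positivity
        nlinarith
      · simp [hρ' k hk2]
    · simp
  · intro hj
    have hsq : IsSquare (D j * D j) := ⟨D j, rfl⟩
    have h3 : ρ j = 1 := by
      have h4 := (hρ j hsq).2.1
      have h5 : (D j : ℚ) ≠ 0 := by exact_mod_cast (hneg j).ne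
      have h6 : ρ j ^ 2 = 1 := mul_right_cancel₀ h5 (by rw [h4, one_mul])
      exact (pow_eq_one_iff_of_nonneg (hρ j hsq).1.le two_ne_zero).1 h6
    simp [hj, h3]
  · rintro r hr G hG ⟨B, hB⟩
    have hcont : ∀ z, Continuous fun s : ℚ_[p] =>
        G (fun k => piX p (uP p (-e z k * ρ k * s) • x z k)) := fun z =>
      hG.comp (continuous_pi fun k => (continuous_piX p).comp
        (((continuous_uP p).comp (continuous_const.mul continuous_id)).smul continuous_const))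
    rw [← integral_finsetSum _ fun z _ => Integrable.of_bound (hcont z).aestronglyMeasurable B
      (Eventually.of_forall fun s => hB _)]
    refine integral_of_rat p (continuous_finsetSum _ fun z _ => hcont z) r fun y hy => ?_
    have hy1 : ‖(y : ℚ_[p]) ^ 2 * D j‖ ≤ (p : ℝ) ^ (-((c + 2 : ℕ) : ℤ)) := by
      refine le_trans ?_ hr
      rw [norm_mul, norm_pow, mul_comm]
      gcongr
    obtain ⟨σ, hσ, hσ'⟩ := hc (Finset.univ.image D)
      (Finset.card_image_le.trans (by simp))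
      (fun D' hD' => by
        obtain ⟨k, -, rfl⟩ := Finset.mem_image.1 hD'
        exact ⟨hD k, (h k).isD⟩) (D j) (Finset.mem_image_of_mem _ (Finset.mem_univ _)) y
      (hy1.trans (zpow_le_zpow_right₀ hp.le (by push_cast; linarith)))
    rw [← sum_orbit (orbit_finite F h) hσ G]
    refine Finset.sum_congr rfl fun z hz => congrArg G (funext fun k => ?_)
    obtain ⟨ht, hj, hπ, -, -, hmv⟩ := hx z k ((orbit_finite F h).mem_toFinset.1 hz)
    have h4 := hσ' (D k) (Finset.mem_image_of_mem _ (Finset.mem_univ _)) _ (discL_one ht)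
    rw [jL_one, hj] at h4
    by_cases hk : IsSquare (D k * D j)
    · have h5 := hmv (ρ k * y) (by
        push_cast
        rw [show ((ρ k : ℚ_[p]) * y) ^ 2 * D k = y ^ 2 * ((ρ k : ℚ_[p]) ^ 2 * D k) by ring,
          hrel k hk]
        exact hy1.trans (zpow_le_zpow_right₀ hp.le (by push_cast; linarith [Int.natCast_nonneg c])))
      rw [h4.1 hk, (hρ k hk).2.2, mul_assoc, ← Rat.cast_mul, h5]
      push_cast
      rw [show (1 : ℂ) + ρ k * y * th (D k) = 1 + y * (ρ k * th (D k)) by ring]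
    · rw [h4.2 hk, hρ' k hk, ← hj, ← hπ]
      simp

end Pool.Agent.EQ
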