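import Pool.Agent.P.MP_ad7a55_nt.Ord2

/-! Prime ideals and factorisation. -/

set_option autoImplicit false

noncomputable section

open MeasureTheory Topology Filter UpperHalfPlane
open scoped MatrixGroups ENNReal BoundedContinuousFunction

namespace Pool.Agent.EQ

/-- A prime ideal of degree one, prime to `2D`. -/
def PrI (D : ℤ) (q : ℕ) (𝔮 : Lt) : Prop :=
  q.Prime ∧ ¬ (q : ℤ) ∣ 2 * D ∧ ∃ b : ℤ, 4 * (q : ℤ) ∣ b ^ 2 - D ∧ 𝔮 = sp q ((-b + th D) / 2)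

theorem th_im_pos_fac {D : ℤ} (hD : D < 0) : 0 < (th D).im := by
  have : (0 : ℝ) < -(D : ℝ) := by
    have : (D : ℝ) < 0 := by exact_mod_cast hD
    linarith
  simpa [th] using Real.sqrt_pos.2 this

theorem left_mem_sp_fac (a b : ℂ) : a ∈ sp a b := mem_sp.2 ⟨1, 0, by simp⟩

theorem right_mem_sp_fac (a b : ℂ) : b ∈ sp a b := mem_sp.2 ⟨0, 1, by simp⟩

theorem sp_le_fac {a b : ℂ} {Λ : Lt} (ha : a ∈ Λ) (hb : b ∈ Λ) : sp a b ≤ Λ := by
  rw [sp, Submodule.span_le]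
  rintro x (rfl | rfl)
  exacts [ha, hb]

theorem int_mul_mem_fac {Λ : Lt} (n : ℤ) {v : ℂ} (h : v ∈ Λ) : (n : ℂ) * v ∈ Λ := by
  simpa using Λ.smul_mem n h

theorem int_mem_OD_fac (D n : ℤ) : (n : ℂ) ∈ OD D := by
  simpa using int_mul_mem_fac n (one_mem_OD D)

theorem sp_mul_le_fac {a b c d : ℂ} {Λ : Lt} (h1 : a * c ∈ Λ) (h2 : a * d ∈ Λ) (h3 : b * c ∈ Λ)
    (h4 : b * d ∈ Λ) : sp a b * sp c d ≤ Λ := by
  rw [Submodule.mul_le]
  intro x hx y hy
  obtain ⟨m, n, rfl⟩ := mem_sp.1 hx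
  obtain ⟨k, l, rfl⟩ := mem_sp.1 hy
  have : (m * a + n * b) * (k * c + l * d) = ((m * k : ℤ) : ℂ) * (a * c) + ((m * l : ℤ) : ℂ) * (a * d)
      + ((n * k : ℤ) : ℂ) * (b * c) + ((n * l : ℤ) : ℂ) * (b * d) := by
    push_cast; ring
  rw [this]
  exact Λ.add_mem (Λ.add_mem (Λ.add_mem (int_mul_mem_fac _ h1) (int_mul_mem_fac _ h2))
    (int_mul_mem_fac _ h3)) (int_mul_mem_fac _ h4)

theorem mem_of_coprime_fac {Λ : Lt} {m n : ℤ} (h : IsCoprime m n) {v : ℂ} (h1 : (m : ℂ) * v ∈ Λ)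
    (h2 : (n : ℂ) * v ∈ Λ) : v ∈ Λ := by
  obtain ⟨x, y, hxy⟩ := h
  have e : (x : ℂ) * m + y * n = 1 := by exact_mod_cast hxy
  have : v = x * (m * v) + y * (n * v) := by linear_combination (-v) * e
  rw [this]
  exact Λ.add_mem (int_mul_mem_fac _ h1) (int_mul_mem_fac _ h2)

/-- The quadratic equation of the second generator. -/
theorem beta_sq_fac {D m b c : ℤ} (hD : D < 0) (h : b ^ 2 - D = 4 * m * c) :
    ((-b + th D) / 2 : ℂ) * ((-b + th D) / 2) = -b * ((-b + th D) / 2) - m * c := by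
  have e : (b : ℂ) ^ 2 - D = 4 * m * c := by exact_mod_cast h
  linear_combination (1 / 4 : ℂ) * th_sq hD.le - (1 / 4 : ℂ) * e

theorem parity_fac {D b k : ℤ} (h : b ^ 2 - D = 4 * k) : ∃ e : ℤ, b + D = 2 * e := by
  have h1 : Even (b * (b + 1)) := Int.even_mul_succ_self b
  obtain ⟨r, hr⟩ := h1
  exact ⟨r - 2 * k, by linear_combination hr - h⟩

theorem beta_mem_fac {D b k : ℤ} (h : b ^ 2 - D = 4 * k) : ((-b + th D) / 2 : ℂ) ∈ OD D := by
  obtain ⟨e, he⟩ := parity_fac h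
  have e1 : (b : ℂ) + D = 2 * e := by exact_mod_cast he
  exact mem_sp.2 ⟨-e, 1, by push_cast; linear_combination (-1 / 2 : ℂ) * e1⟩

theorem coprime_fac {D m b c : ℤ} (h : b ^ 2 - D = 4 * m * c) (hm : IsCoprime m D) :
    IsCoprime m b := by
  obtain ⟨x, y, hxy⟩ := hm
  exact ⟨x - 4 * c * y, y * b, by linear_combination hxy + y * h⟩

theorem discL_fac {D m b c : ℤ} (hD : D < 0) (hm : 0 < m) (h : b ^ 2 - D = 4 * m * c)
    (hc : IsCoprime m D) : DiscL (sp m ((-b + th D) / 2)) D := by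
  have hm0 : (m : ℂ) ≠ 0 := by exact_mod_cast hm.ne'
  have him : 0 < (((-b + th D) / 2 : ℂ) / m).im := by
    have h1 := th_im_pos_fac hD
    have h2 : (0 : ℝ) < m := by exact_mod_cast hm
    rw [Complex.div_intCast_im]
    refine div_pos ?_ h2
    simpa using h1
  refine ⟨m, ⟨_, him⟩, hm0, ?_, m, b, c, hm, ?_, ?_, by linear_combination -h⟩
  · congr 1
    change _ = (m : ℂ) * (((-b + th D) / 2 : ℂ) / m)
    field_simp
  · rw [Int.isCoprime_iff_gcd_eq_one.1 (coprime_fac h hc)]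
    simp
  · change (m : ℂ) * (((-b + th D) / 2 : ℂ) / m) ^ 2 + b * (((-b + th D) / 2 : ℂ) / m) + c = 0
    have := beta_sq_fac hD h
    generalize ((-b + th D) / 2 : ℂ) = β at this ⊢
    field_simp
    linear_combination this

theorem PrI.spec_fac {D : ℤ} {q : ℕ} {𝔮 : Lt} (h : PrI D q 𝔮) : IsCoprime (q : ℤ) D ∧
    ∃ b c : ℤ, b ^ 2 - D = 4 * q * c ∧ 𝔮 = sp (q : ℤ) ((-b + th D) / 2) := by
  obtain ⟨hq, hD, b, ⟨c, hc⟩, rfl⟩ := h
  refine ⟨?_, b, c, hc, by simp⟩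
  exact ((Nat.prime_iff_prime_int.1 hq).irreducible.coprime_iff_not_dvd).2
    fun h => hD (h.mul_left 2)

theorem PrI.discL {D : ℤ} (hD : D < 0) {q : ℕ} {𝔮 : Lt} (h : PrI D q 𝔮) : DiscL 𝔮 D := by
  obtain ⟨h1, b, c, h2, rfl⟩ := h.spec_fac
  exact discL_fac hD (by exact_mod_cast h.1.pos) h2 h1

theorem PrI.cj {D : ℤ} {q : ℕ} {𝔮 : Lt} (h : PrI D q 𝔮) : PrI D q (cj 𝔮) := by
  obtain ⟨hq, hD, b, hb, rfl⟩ := h
  refine ⟨hq, hD, -b, by simpa using hb, ?_⟩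
  have e : starRingEnd ℂ ((-b + th D) / 2 : ℂ) = -((-((-b : ℤ) : ℂ) + th D) / 2) := by
    rw [map_div₀, map_add, conj_th]
    simp only [map_neg, map_intCast, map_ofNat]
    push_cast; ring
  rw [cj_sp, e, map_natCast]
  refine le_antisymm (sp_le_fac (left_mem_sp_fac _ _) (Submodule.neg_mem _ (right_mem_sp_fac _ _)))
    (sp_le_fac (left_mem_sp_fac _ _) ?_)
  simpa using Submodule.neg_mem _ (right_mem_sp_fac (q : ℂ) (-((-((-b : ℤ) : ℂ) + th D) / 2)))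

theorem PrI.le {D : ℤ} {q : ℕ} {𝔮 : Lt} (h : PrI D q 𝔮) : 𝔮 ≤ OD D := by
  obtain ⟨-, b, c, h2, rfl⟩ := h.spec_fac
  exact sp_le_fac (int_mem_OD_fac _ _) (beta_mem_fac (k := q * c) (by linear_combination h2))

theorem PrI.mul_cj {D : ℤ} (hD : D < 0) {q : ℕ} {𝔮 : Lt} (h : PrI D q 𝔮) :
    𝔮 * Pool.Agent.EQ.cj 𝔮 = pr q * OD D := by
  obtain ⟨h1, b, c, h2, rfl⟩ := h.spec_fac
  have hb := beta_mem_fac (D := D) (b := b) (k := q * c) (by linear_combination h2)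
  have hs := beta_sq_fac hD h2
  have e : starRingEnd ℂ ((-b + th D) / 2 : ℂ) = -b - ((-b + th D) / 2) := by
    rw [map_div₀, map_add, conj_th]
    simp only [map_neg, map_intCast, map_ofNat]
    ring
  obtain ⟨k, hk⟩ := parity_fac (k := q * c) (by linear_combination h2 : b ^ 2 - D = 4 * (q * c))
  have hk' : (b : ℂ) + D = 2 * k := by exact_mod_cast hk
  have hω : ((D + th D) / 2 : ℂ) = k + (-b + th D) / 2 := by linear_combination (1 / 2 : ℂ) * hk'
  rw [cj_sp, e, map_intCast]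
  have hco := coprime_fac h2 h1
  generalize ((-b + th D) / 2 : ℂ) = β at hb hs hω ⊢
  push_cast at hs ⊢
  apply le_antisymm
  · refine sp_mul_le_fac (mem_pr_mul.2 ⟨_, int_mem_OD_fac D q, by simp⟩)
      (mem_pr_mul.2 ⟨_, (OD D).sub_mem (int_mem_OD_fac D (-b)) hb, by simp⟩)
      (mem_pr_mul.2 ⟨_, hb, by ring⟩)
      (mem_pr_mul.2 ⟨_, int_mem_OD_fac D c, by linear_combination hs⟩)
  · have m1 := Submodule.mul_mem_mul (left_mem_sp_fac (q : ℂ) β) (left_mem_sp_fac (q : ℂ) (-b - β))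
    have m2 := Submodule.mul_mem_mul (left_mem_sp_fac (q : ℂ) β) (right_mem_sp_fac (q : ℂ) (-b - β))
    have m3 := Submodule.mul_mem_mul (right_mem_sp_fac (q : ℂ) β) (left_mem_sp_fac (q : ℂ) (-b - β))
    have m4 : (q : ℂ) ∈ sp (q : ℂ) β * sp (q : ℂ) (-b - β) := by
      refine mem_of_coprime_fac hco (by simpa using m1) ?_
      convert Submodule.neg_mem _ (Submodule.add_mem _ m2 m3) using 1
      ring
    rw [OD, pr_mul_sp, hω]
    refine sp_le_fac (by simpa using m4) ?_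
    convert Submodule.add_mem _ (int_mul_mem_fac k m4) m3 using 1
    ring

theorem OD_mul_mem_fac {D : ℤ} (hD : IsD D) {x y : ℂ} (hx : x ∈ OD D) (hy : y ∈ OD D) :
    x * y ∈ OD D := by
  have := Submodule.mul_mem_mul hx hy
  rwa [(discL_OD hD).OD_mul] at this

theorem PrI.mul_le_fac {D : ℤ} {q : ℕ} {𝔮 Λ : Lt} (h : PrI D q 𝔮) (hΛ : DiscL Λ D) :
    𝔮 * Λ ≤ Λ := (mul_le_mul_left h.le Λ).trans hΛ.OD_mul.le

theorem PrI.le_mul_fac {D : ℤ} {q : ℕ} {𝔮 Λ : Lt} (h : PrI D q 𝔮) (hΛ : DiscL Λ D) :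
    pr q * Λ ≤ 𝔮 * Λ := by
  calc pr q * Λ = pr q * OD D * Λ := by rw [mul_assoc, hΛ.OD_mul]
    _ = 𝔮 * (Pool.Agent.EQ.cj 𝔮 * Λ) := by rw [← h.mul_cj hΛ.isD.1, mul_assoc]
    _ ≤ 𝔮 * Λ := mul_le_mul_right (h.cj.mul_le_fac hΛ) 𝔮

/-- `𝔮^(h+1) + q O = 𝔮`. -/
theorem PrI.pow_sup {D : ℤ} (hD : D < 0) {q : ℕ} {𝔮 : Lt} (h : PrI D q 𝔮) (n : ℕ) :
    𝔮 ^ (n + 1) ⊔ pr q * OD D = 𝔮 := by
  have hd := h.discL hD
  have hI := hd.isD
  apply le_antisymm
  · refine sup_le ?_ ?_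
    · induction n with
      | zero => simp
      | succ n ih =>
        rw [pow_succ']
        exact (mul_le_mul_right ih 𝔮).trans (h.mul_le_fac hd)
    · have := h.le_mul_fac (discL_OD hI)
      rwa [mul_comm 𝔮, hd.OD_mul] at this
  · obtain ⟨h1, b, c, h2, rfl⟩ := h.spec_fac
    have hb := beta_mem_fac (D := D) (b := b) (k := q * c) (by linear_combination h2)
    have hs := beta_sq_fac hD h2
    have hco := coprime_fac h2 h1
    generalize ((-b + th D) / 2 : ℂ) = β at hb hs ⊢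
    push_cast at hs ⊢
    have key : ∀ n : ℕ, ∃ w ∈ OD D, β ^ (n + 1) = (-b) ^ n * β + q * w := by
      intro n
      induction n with
      | zero => exact ⟨0, (OD D).zero_mem, by simp⟩
      | succ n ih =>
        obtain ⟨w, hw, e⟩ := ih
        refine ⟨w * β - (((-b) ^ n * c : ℤ) : ℂ),
          (OD D).sub_mem (OD_mul_mem_fac hI hw hb) (int_mem_OD_fac _ _), ?_⟩
        rw [pow_succ, e]
        push_cast
        linear_combination (-(b : ℂ)) ^ n * hs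
    obtain ⟨w, hw, e⟩ := key n
    refine sp_le_fac (Submodule.mem_sup_right (mem_pr_mul.2 ⟨1, one_mem_OD D, by simp⟩)) ?_
    refine mem_of_coprime_fac (m := q) (n := (-b) ^ n) hco.neg_right.pow_right
      (Submodule.mem_sup_right (mem_pr_mul.2 ⟨β, hb, by simp⟩)) ?_
    have m1 : β ^ (n + 1) ∈ sp (q : ℂ) β ^ (n + 1) :=
      Submodule.pow_mem_pow _ (right_mem_sp_fac _ _) _
    convert Submodule.sub_mem _ (Submodule.mem_sup_left m1)
      (Submodule.mem_sup_right (mem_pr_mul.2 ⟨w, hw, rfl⟩)) using 1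
    rw [e]; push_cast; ring

/-- Cancellation of an invertible module. -/
theorem cancel_fac {D : ℤ} {Λ A B : Lt} (hΛ : DiscL Λ D) (hA : OD D * A = A) (hB : OD D * B = B)
    (h : A * Λ = B * Λ) : A = B := by
  obtain ⟨c, hc, e⟩ := hΛ.mul_cj
  have h1 : pr c * A = pr c * B := by
    calc pr c * A = A * Λ * cj Λ := by rw [mul_assoc, e, mul_comm A, mul_assoc, hA]
      _ = pr c * B := by rw [h, mul_assoc, e, mul_comm B, mul_assoc, hB]
  exact le_antisymm ((pr_mul_le_iff hc).1 h1.le) ((pr_mul_le_iff hc).1 h1.ge)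

theorem PrI.mul_ne_fac {D : ℤ} {q : ℕ} {𝔮 Λ : Lt} (h : PrI D q 𝔮) (hΛ : DiscL Λ D) :
    𝔮 * Λ ≠ Λ := by
  intro e
  have hD := hΛ.isD
  have h1 : 𝔮 = OD D := cancel_fac hΛ (h.discL hD.1).OD_mul (discL_OD hD).OD_mul
    (by rw [e, hΛ.OD_mul])
  have h2 := one_mem_OD D
  rw [← h1] at h2
  obtain ⟨hq, -, b, -, rfl⟩ := h
  obtain ⟨m, n, e⟩ := mem_sp.1 h2
  have h3 := congrArg Complex.im e
  have h4 := th_im_pos_fac hD.1
  have hn : n = 0 := by
    simp at h3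
    rcases h3 with h3 | h3
    · exact h3
    · exact absurd h3 h4.ne'
  subst hn
  have h5 : (1 : ℤ) = m * q := by
    have : ((1 : ℤ) : ℂ) = ((m * q : ℤ) : ℂ) := by push_cast; simpa using e
    exact_mod_cast this
  exact (Nat.prime_iff_prime_int.1 hq).not_dvd_one ⟨m, by rw [h5, mul_comm]⟩

theorem PrI.nb {D : ℤ} {q : ℕ} {𝔮 Λ : Lt} (h : PrI D q 𝔮) (hΛ : DiscL Λ D) : Nb q Λ (𝔮 * Λ) := by
  refine ⟨lt_of_le_of_ne (h.le_mul_fac hΛ) fun e => ?_,
    lt_of_le_of_ne (h.mul_le_fac hΛ) (h.mul_ne_fac hΛ)⟩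
  have hq : (q : ℂ) ≠ 0 := by exact_mod_cast h.1.pos.ne'
  have h1 : pr q * (Pool.Agent.EQ.cj 𝔮 * Λ) = pr q * Λ := by
    calc pr q * (Pool.Agent.EQ.cj 𝔮 * Λ) = Pool.Agent.EQ.cj 𝔮 * (pr q * Λ) := mul_left_comm _ _ _
      _ = 𝔮 * Pool.Agent.EQ.cj 𝔮 * Λ := by rw [e, ← mul_assoc, mul_comm _ 𝔮]
      _ = pr q * Λ := by rw [h.mul_cj hΛ.isD.1, mul_assoc, hΛ.OD_mul]
  exact h.cj.mul_ne_fac hΛ
    (le_antisymm ((pr_mul_le_iff hq).1 h1.le) ((pr_mul_le_iff hq).1 h1.ge))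

theorem PrI.ch {D : ℤ} {q : ℕ} {𝔮 Λ : Lt} (h : PrI D q 𝔮) (hΛ : DiscL Λ D) (n : ℕ) :
    Ch (q ^ n) Λ (𝔮 ^ n * Λ) ∧ DiscL (𝔮 ^ n * Λ) D := by
  induction n generalizing Λ with
  | zero => simpa using ⟨Ch.refl Λ, hΛ⟩
  | succ n ih =>
    have h1 : DiscL (𝔮 * Λ) D := (h.discL hΛ.isD.1).mul hΛ le_rfl
    obtain ⟨k1, k2⟩ := ih h1
    rw [pow_succ 𝔮, mul_assoc, pow_succ' q]
    exact ⟨Ch.step h.1 (h.nb hΛ) k1, k2⟩

/-- Some power of an invertible module is principal. -/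
theorem DiscL.pow_principal {D : ℤ} {𝔞 : Lt} (h : DiscL 𝔞 D) :
    ∃ (n : ℕ) (α : ℂ), α ≠ 0 ∧ 𝔞 ^ (n + 1) = pr α * OD D := by
  have hp : ∀ n : ℕ, DiscL (𝔞 ^ (n + 1)) D := by
    intro n
    induction n with
    | zero => simpa using h
    | succ n ih => rw [pow_succ']; exact h.mul ih le_rfl
  obtain ⟨m, n, hmn, e⟩ := Set.Finite.exists_lt_map_eq_of_forall_mem
    (f := fun n : ℕ => jL (𝔞 ^ (n + 1))) (t := {z | ∃ Λ, DiscL Λ D ∧ jL Λ = z})
    (fun n => ⟨_, hp n, rfl⟩) (finite_disc D)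
  obtain ⟨c, hc, e'⟩ := jL_inj (hp m).isLat (hp n).isLat e
  obtain ⟨k, rfl⟩ := Nat.exists_eq_add_of_lt hmn
  refine ⟨k, c, hc, cancel_fac (hp m) (hp k).OD_mul
    ((discL_OD h.isD).pr_mul hc).OD_mul ?_⟩
  rw [mul_assoc, (hp m).OD_mul, ← e', ← pow_add]
  congr 1
  ring

theorem mul_split_fac {D q m b c : ℤ} (hD : D < 0) (h : b ^ 2 - D = 4 * (q * m) * c)
    (hco : IsCoprime q b) :
    sp q ((-b + th D) / 2) * sp m ((-b + th D) / 2) = sp ((q * m : ℤ) : ℂ) ((-b + th D) / 2) := by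
  have hs := beta_sq_fac hD h
  generalize ((-b + th D) / 2 : ℂ) = β at hs ⊢
  apply le_antisymm
  · refine sp_mul_le_fac (mem_sp.2 ⟨1, 0, by simp⟩) (mem_sp.2 ⟨0, q, by simp⟩)
      (mem_sp.2 ⟨0, m, by simp [mul_comm]⟩) (mem_sp.2 ⟨-c, -b, ?_⟩)
    rw [hs]; push_cast; ring
  · have m1 := Submodule.mul_mem_mul (left_mem_sp_fac (q : ℂ) β) (left_mem_sp_fac (m : ℂ) β)
    have m2 := Submodule.mul_mem_mul (left_mem_sp_fac (q : ℂ) β) (right_mem_sp_fac (m : ℂ) β)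
    have m3 := Submodule.mul_mem_mul (right_mem_sp_fac (q : ℂ) β) (right_mem_sp_fac (m : ℂ) β)
    refine sp_le_fac (by simpa using m1) (mem_of_coprime_fac hco m2 ?_)
    convert Submodule.neg_mem _ (Submodule.add_mem _ m3 (int_mul_mem_fac c m1)) using 1
    rw [hs]; push_cast; ring

/-- A primitive form represents a number prime to a given one, at a primitive vector. -/
theorem exists_rep_fac {a b c : ℤ} (h : Int.gcd (Int.gcd a b) c = 1) {M : ℤ} (hM : M ≠ 0) :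
    ∃ x y : ℤ, IsCoprime x y ∧ IsCoprime (a * x ^ 2 - b * x * y + c * y ^ 2) M := by
  classical
  let S := M.natAbs.primeFactors
  let x : ℕ := ∏ p ∈ S.filter (fun p : ℕ => (p : ℤ) ∣ a ∧ ¬ (p : ℤ) ∣ c), p
  let y : ℕ := ∏ p ∈ S.filter (fun p : ℕ => ¬ (p : ℤ) ∣ a), p
  have dv : ∀ (R : ℕ → Prop) [DecidablePred R] (p : ℕ), p.Prime →
      (p ∣ ∏ r ∈ S.filter R, r ↔ p ∈ S ∧ R p) := by
    intro R _ p hp
    rw [hp.prime.dvd_finsetProd_iff]
    constructor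
    · rintro ⟨r, hr, hpr⟩
      rw [Finset.mem_filter] at hr
      rw [(Nat.prime_dvd_prime_iff_eq hp (Nat.prime_of_mem_primeFactors hr.1)).1 hpr]
      exact hr
    · intro hh
      exact ⟨p, Finset.mem_filter.2 hh, dvd_rfl⟩
  refine ⟨x, y, ?_, ?_⟩
  · rw [Nat.isCoprime_iff_coprime]
    refine Nat.coprime_of_dvd fun p hp h1 h2 => ?_
    exact ((dv _ p hp).1 h2).2 ((dv _ p hp).1 h1).2.1
  · rw [Int.isCoprime_iff_gcd_eq_one, Int.gcd_eq_natAbs]
    refine Nat.coprime_of_dvd fun p hp h1 h2 => ?_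
    have hS : p ∈ S := Nat.mem_primeFactors.2 ⟨hp, h2, by simpa using hM⟩
    have hP := Nat.prime_iff_prime_int.1 hp
    have h3 : (p : ℤ) ∣ a * x ^ 2 - b * x * y + c * y ^ 2 := Int.natCast_dvd.2 h1
    have hx : (p : ℤ) ∣ x ↔ (p : ℤ) ∣ a ∧ ¬ (p : ℤ) ∣ c := by
      rw [Int.natCast_dvd_natCast, dv _ p hp]; simp [hS]
    have hy : (p : ℤ) ∣ y ↔ ¬ (p : ℤ) ∣ a := by
      rw [Int.natCast_dvd_natCast, dv _ p hp]; simp [hS]
    by_cases ha : (p : ℤ) ∣ a
    · have hy' : ¬ (p : ℤ) ∣ y := fun k => hy.1 k ha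
      by_cases hc : (p : ℤ) ∣ c
      · have hx' : ¬ (p : ℤ) ∣ x := fun k => (hx.1 k).2 hc
        have h4 : (p : ℤ) ∣ b * x * y := by
          have := dvd_sub (dvd_add (ha.mul_right ((x : ℤ) ^ 2)) (hc.mul_right ((y : ℤ) ^ 2))) h3
          rwa [show a * (x : ℤ) ^ 2 + c * (y : ℤ) ^ 2 - (a * x ^ 2 - b * x * y + c * y ^ 2)
            = b * x * y by ring] at this
        have hb : (p : ℤ) ∣ b :=
          (hP.dvd_or_dvd ((hP.dvd_or_dvd h4).resolve_right hy')).resolve_right hx'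
        have : (p : ℤ) ∣ (Int.gcd (Int.gcd a b) c : ℤ) :=
          Int.dvd_coe_gcd (Int.dvd_coe_gcd ha hb) hc
        rw [h] at this
        exact hP.not_dvd_one (by simpa using this)
      · have hx' : (p : ℤ) ∣ x := hx.2 ⟨ha, hc⟩
        have h4 : (p : ℤ) ∣ c * y ^ 2 := by
          have := dvd_sub h3 (hx'.mul_right (a * x - b * y))
          rwa [show a * (x : ℤ) ^ 2 - b * x * y + c * y ^ 2 - x * (a * x - b * y)
            = c * y ^ 2 by ring] at this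
        exact hy' (hP.dvd_of_dvd_pow ((hP.dvd_or_dvd h4).resolve_left hc))
    · have hy' : (p : ℤ) ∣ y := hy.2 ha
      have h4 : (p : ℤ) ∣ a * x ^ 2 := by
        have := dvd_sub h3 (hy'.mul_right (c * y - b * x))
        rwa [show a * (x : ℤ) ^ 2 - b * x * y + c * y ^ 2 - y * (c * y - b * x)
          = a * x ^ 2 by ring] at this
      exact ha (hx.1 (hP.dvd_of_dvd_pow ((hP.dvd_or_dvd h4).resolve_left ha))).1

/-- Every invertible module is a multiple of a product of good primes. -/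
theorem fac {D : ℤ} {N : ℕ} (hN : 0 < N) (P : Lt → Prop) (h0 : P (OD D))
    (h1 : ∀ 𝔞 c, c ≠ 0 → DiscL 𝔞 D → P 𝔞 → P (pr c * 𝔞))
    (h2 : ∀ 𝔞 q 𝔮, PrI D q 𝔮 → ¬ q ∣ N → DiscL 𝔞 D → P 𝔞 → P (𝔮 * 𝔞)) {𝔞 : Lt} (h : DiscL 𝔞 D) :
    P 𝔞 := by
  have hD := h.isD.1
  have main : ∀ m : ℕ, 0 < m → IsCoprime (m : ℤ) (2 * D * N) → ∀ b c : ℤ,
      b ^ 2 - D = 4 * m * c → P (sp (m : ℤ) ((-b + th D) / 2)) := by
    intro m
    induction m using Nat.strong_induction_on with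
    | _ m ih =>
      intro hm hco b c hbc
      by_cases hm1 : m = 1
      · subst hm1
        obtain ⟨k, hk⟩ := parity_fac (k := c) (by simpa using hbc : b ^ 2 - D = 4 * c)
        have hk' : (b : ℂ) + D = 2 * k := by exact_mod_cast hk
        convert h0 using 1
        apply le_antisymm
        · exact sp_le_fac (int_mem_OD_fac _ _) (beta_mem_fac (k := c) (by simpa using hbc))
        · refine sp_le_fac (by simpa using left_mem_sp_fac _ _) (mem_sp.2 ⟨k, 1, ?_⟩)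
          push_cast; linear_combination (1 / 2 : ℂ) * hk'
      · obtain ⟨q, hq, m', rfl⟩ := Nat.exists_prime_and_dvd hm1
        have hm' : 0 < m' := Nat.pos_of_mul_pos_left hm
        push_cast at hco hbc
        have cq := hco.of_mul_left_left
        have cm := hco.of_mul_left_right
        have hP := Nat.prime_iff_prime_int.1 hq
        have e := mul_split_fac hD hbc
          (coprime_fac (c := m' * c) (by linear_combination hbc) cq.of_mul_right_left.of_mul_right_right)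
        rw [Nat.cast_mul, ← e]
        refine h2 _ q _ ⟨hq, ?_, b, ⟨m' * c, by linear_combination hbc⟩, by simp⟩ ?_
          (discL_fac (c := q * c) hD (by exact_mod_cast hm') (by linear_combination hbc)
            cm.of_mul_right_left.of_mul_right_right)
          (ih m' (lt_mul_of_one_lt_left hm' hq.one_lt) hm' cm b (q * c) (by linear_combination hbc))
        · exact hP.irreducible.coprime_iff_not_dvd.1 cq.of_mul_right_left
        · exact fun k => hP.irreducible.coprime_iff_not_dvd.1 cq.of_mul_right_right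
            (Int.natCast_dvd_natCast.2 k)
  obtain ⟨κ, τ, hκ, rfl, a, b, c, ha, hg, hτ, hDe⟩ := h
  have hr := HasDisc.root ha hτ
  rw [← hDe] at hr
  obtain ⟨x, y, ⟨w, z', hxy⟩, hco⟩ := exists_rep_fac hg (M := 2 * D * N)
    (mul_ne_zero (mul_ne_zero two_ne_zero hD.ne) (by exact_mod_cast hN.ne'))
  obtain ⟨m, hm⟩ : ∃ m, m = a * x ^ 2 - b * x * y + c * y ^ 2 := ⟨_, rfl⟩
  rw [← hm] at hco
  have hm0 : m ≠ 0 := by
    rintro rfl
    have := isCoprime_zero_left.1 hco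
    rw [mul_assoc] at this
    have h2 := isUnit_of_mul_isUnit_left this
    rcases Int.isUnit_iff.1 h2 with h3 | h3 <;> omega
  have hmp : 0 < m := by
    have e : 4 * a * m = (2 * a * x - b * y) ^ 2 - D * y ^ 2 := by rw [hm, hDe]; ring
    have : 0 ≤ 4 * a * m := by rw [e]; nlinarith [sq_nonneg (2 * a * x - b * y), sq_nonneg y]
    have h5 : 0 ≤ m := by
      by_contra hh
      push Not at hh
      nlinarith
    omega
  obtain ⟨n, rfl⟩ := Int.eq_ofNat_of_zero_le hmp.le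
  obtain ⟨b', hb'⟩ : ∃ b', b' = b * (w * x - z' * y) + 2 * a * x * z' - 2 * w * y * c := ⟨_, rfl⟩
  have hbc : b' ^ 2 - D = 4 * n * (a * z' ^ 2 + b * z' * w + c * w ^ 2) := by
    rw [hb', hm, hDe]
    linear_combination (b ^ 2 - 4 * a * c) * (w * x + z' * y + 1) * hxy
  have hP := main n (by exact_mod_cast hmp) hco b' _ hbc
  have hd := discL_fac hD hmp hbc hco.of_mul_right_left.of_mul_right_right
  have hn0 : ((n : ℤ) : ℂ) ≠ 0 := by exact_mod_cast hm0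
  have ha0 : (a : ℂ) ≠ 0 := by exact_mod_cast ha.ne'
  have hxy' : (w : ℂ) * x + z' * y = 1 := by exact_mod_cast hxy
  have hm' : ((n : ℤ) : ℂ) = a * x ^ 2 - b * x * y + c * y ^ 2 := by exact_mod_cast hm
  have hb'' : (b' : ℂ) = b * (w * x - z' * y) + 2 * a * x * z' - 2 * w * y * c := by
    exact_mod_cast hb'
  have key : (x + y * (τ : ℂ)) * ((-b' + th D) / 2) = ((n : ℤ) : ℂ) * (-z' + w * τ) := by
    rw [hm', hb'', ← hr]
    linear_combination (exp := 1) (y : ℂ) * hτ +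
      (-(a * x * τ) - b * x / 2 + b * y * τ / 2 + c * y) * hxy'
  have hv : (x + y * (τ : ℂ)) ≠ 0 := by
    intro e
    have e1 : (x : ℂ) = -(y * τ) := by linear_combination e
    apply hn0
    rw [hm', e1]
    linear_combination (y : ℂ) ^ 2 * hτ
  have := h1 _ (κ * (x + y * τ) / ((n : ℤ) : ℂ)) (div_ne_zero (mul_ne_zero hκ hv) hn0) hd hP
  convert this using 1
  have e1 : κ * (x + y * τ) / ((n : ℤ) : ℂ) * ((n : ℤ) : ℂ) = κ * (x + y * τ) := by field_simp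
  have e2 : κ * (x + y * τ) / ((n : ℤ) : ℂ) * ((-b' + th D) / 2) = κ * (-z' + w * τ) := by
    rw [div_mul_eq_mul_div, mul_assoc, key]; field_simp
  rw [pr_mul_sp, e1, e2]
  apply le_antisymm
  · refine sp_le_fac (mem_sp.2 ⟨w, -y, ?_⟩) (mem_sp.2 ⟨z', x, ?_⟩)
    · push_cast; linear_combination (-κ) * hxy'
    · linear_combination (-κ * τ) * hxy'
  · refine sp_le_fac (mem_sp.2 ⟨x, y, by ring⟩) (mem_sp.2 ⟨-z', w, by push_cast; ring⟩)

theorem int_of_integral_fac {x : ℂ} (hx : IsIntegral ℤ x) {n a : ℤ} (hn : n ≠ 0)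
    (h : n * x = a) : ∃ k : ℤ, x = k := by
  have hn' : (n : ℂ) ≠ 0 := by exact_mod_cast hn
  have e : x = algebraMap ℚ ℂ ((a : ℚ) / n) := by
    simp only [eq_ratCast, Rat.cast_div, Rat.cast_intCast]
    field_simp
    linear_combination h
  rw [e] at hx
  obtain ⟨k, hk⟩ := IsIntegrallyClosed.isIntegral_iff.1
    ((isIntegral_algebraMap_iff (algebraMap ℚ ℂ).injective).1 hx)
  exact ⟨k, by rw [e, ← hk]; simp⟩

/-- Roots of unity of the field have bounded denominator in the order. -/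
theorem root_mem {D : ℤ} (hD : D < 0) {ζ : ℂ} (hζ : ζ ^ 12 = 1) {n : ℤ} (hn : n ≠ 0)
    (h : n * ζ ∈ OD D) : 2 * D * ζ ∈ OD D := by
  have i1 : IsIntegral ℤ ζ := IsIntegral.of_pow (n := 12) (by norm_num) (hζ ▸ isIntegral_one)
  have i2 : IsIntegral ℤ (starRingEnd ℂ ζ) :=
    IsIntegral.of_pow (n := 12) (by norm_num) (by rw [← map_pow, hζ, map_one]; exact isIntegral_one)
  have ht := th_sq hD.le
  have i3 : IsIntegral ℤ (th D) :=
    IsIntegral.of_pow (n := 2) (by norm_num) (by rw [ht]; exact isIntegral_algebraMap (x := D))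
  obtain ⟨u, v, e⟩ := mem_sp.1 h
  have e' : (n : ℂ) * starRingEnd ℂ ζ = u * 1 + v * ((D - th D) / 2) := by
    have := congrArg (starRingEnd ℂ) e
    simp only [map_mul, map_add, map_intCast, map_one, map_div₀, conj_th, map_ofNat] at this
    rw [this]; ring
  obtain ⟨k, hk⟩ := int_of_integral_fac (i1.add i2) hn (a := 2 * u + v * D)
    (by push_cast; linear_combination e + e')
  obtain ⟨l, hl⟩ := int_of_integral_fac ((i1.sub i2).mul i3) hn (a := v * D)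
    (by push_cast; linear_combination th D * e - th D * e' + v * ht)
  convert (OD D).add_mem (int_mem_OD_fac D (D * k)) (int_mul_mem_fac l (th_mem_OD D)) using 1
  push_cast
  linear_combination (D : ℂ) * hk + th D * hl - (ζ - starRingEnd ℂ ζ) * ht

end Pool.Agent.EQ
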