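import Pool.Agent.P.MP_ad7a55_nt.CtB
import Pool.Agent.P.MP_ad7a55_nt.Fac

/-! The quadratic character of a discriminant and a lower bound for ideals. -/

set_option autoImplicit false

noncomputable section

open MeasureTheory Topology Filter UpperHalfPlane
open scoped MatrixGroups ENNReal BoundedContinuousFunction

namespace Pool.Agent.EQ

/-- The Jacobi symbol as a function of the lower argument. -/
def sgeF (D : ℤ) (x : ZMod (4 * D.natAbs)) : ℂ :=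
  if Odd x.val then (jacobiSym D x.val : ℂ) else 0

theorem sgeF_nat (D : ℤ) (n : ℕ) :
    sgeF D (n : ZMod (4 * D.natAbs)) = if Odd n then (jacobiSym D n : ℂ) else 0 := by
  have h1 : Odd (n % (4 * D.natAbs)) ↔ Odd n := by
    rw [Nat.odd_iff, Nat.odd_iff, Nat.mod_mod_of_dvd _ ⟨2 * D.natAbs, by ring⟩]
  rw [sgeF, ZMod.val_natCast]
  by_cases h : Odd n
  · rw [if_pos (h1.2 h), if_pos h, ← jacobiSym.mod_right D h]
  · rw [if_neg (mt h1.1 h), if_neg h]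

/-- The quadratic character. -/
def sgeChi (D : ℤ) [NeZero (4 * D.natAbs)] : DirichletCharacter ℂ (4 * D.natAbs) where
  toFun := sgeF D
  map_one' := by
    have := sgeF_nat D 1
    simpa using this
  map_mul' x y := by
    obtain ⟨a, rfl⟩ := ZMod.natCast_zmod_surjective x
    obtain ⟨b, rfl⟩ := ZMod.natCast_zmod_surjective y
    rw [← Nat.cast_mul, sgeF_nat, sgeF_nat, sgeF_nat]
    by_cases ha : Odd a
    · by_cases hb : Odd b
      · rw [if_pos ha, if_pos hb, if_pos (ha.mul hb), jacobiSym.mul_right' D ha.pos.ne' hb.pos.ne',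
          Int.cast_mul]
      · rw [if_neg hb, if_neg fun h => hb (Nat.odd_mul.1 h).2, mul_zero]
    · rw [if_neg ha, if_neg fun h => ha (Nat.odd_mul.1 h).1, zero_mul]
  map_nonunit' x hx := by
    obtain ⟨a, rfl⟩ := ZMod.natCast_zmod_surjective x
    change sgeF D _ = 0
    rw [sgeF_nat]
    split_ifs with ha
    · rw [Int.cast_eq_zero, jacobiSym.eq_zero_iff]
      refine ⟨ha.pos.ne', fun h => hx ((ZMod.isUnit_iff_coprime _ _).2 ?_)⟩
      refine Nat.Coprime.mul_right ?_ (Nat.Coprime.symm h)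
      exact (Nat.Coprime.pow_right 2 (Nat.coprime_two_right.2 ha) :)
    · rfl

theorem sgeChi_nat (D : ℤ) [NeZero (4 * D.natAbs)] (n : ℕ) :
    sgeChi D (n : ZMod (4 * D.natAbs)) = if Odd n then (jacobiSym D n : ℂ) else 0 :=
  sgeF_nat D n

theorem sge_jac {m n : ℕ} (h : n + 1 = 4 * m) : jacobiSym (-(m : ℤ)) n = -1 := by
  have h3 : n % 4 = 3 := by omega
  have ho : Odd n := Nat.odd_iff.2 (by omega)
  have h1 : jacobiSym (2 ^ 2 * (m : ℤ)) n = jacobiSym 1 n := by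
    refine jacobiSym.mod_left' ?_
    have : (2 : ℤ) ^ 2 * m = 1 + n := by omega
    rw [this, Int.add_emod_right]
  have h2 : Int.gcd 2 n = 1 := Nat.coprime_two_left.2 ho
  rw [jacobiSym.mul_left, jacobiSym.sq_one' h2, one_mul, jacobiSym.one_left] at h1
  rw [jacobiSym.neg _ ho, h1, ZMod.χ₄_nat_three_mod_four h3, mul_one]

theorem exists_chi {D : ℤ} (hD : D < 0) : ∃ χ : DirichletCharacter ℂ (4 * D.natAbs),
    χ ≠ 1 ∧ χ ^ 2 = 1 ∧ ∀ l : ℕ, l.Prime → χ l = 1 → ¬ (l : ℤ) ∣ 2 * D ∧ IsSquare (D : ZMod l) := by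
  have h0 : 0 < D.natAbs := Int.natAbs_pos.2 hD.ne
  have : NeZero (4 * D.natAbs) := ⟨by omega⟩
  refine ⟨sgeChi D, fun h => ?_, MulChar.isQuadratic_iff_sq_eq_one.1 fun x => ?_,
    fun l hl h => ?_⟩
  · obtain ⟨n, hn⟩ : ∃ n, n + 1 = 4 * D.natAbs := ⟨4 * D.natAbs - 1, by omega⟩
    have h1 := sgeChi_nat D n
    have h2 := sge_jac hn
    rw [show -(D.natAbs : ℤ) = D by omega] at h2
    rw [if_pos (Nat.odd_iff.2 (by omega)), h2, h] at h1
    by_cases hu : IsUnit (n : ZMod (4 * D.natAbs))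
    · rw [MulChar.one_apply hu] at h1
      norm_num at h1
    · rw [MulChar.map_nonunit _ hu] at h1
      norm_num at h1
  · obtain ⟨a, rfl⟩ := ZMod.natCast_zmod_surjective x
    rw [sgeChi_nat]
    split_ifs
    · rcases jacobiSym.trichotomy D a with h | h | h <;> simp [h]
    · exact Or.inl rfl
  · rw [sgeChi_nat] at h
    split_ifs at h with ho
    · have h1 : jacobiSym D l = 1 := by exact_mod_cast h
      have : Fact l.Prime := ⟨hl⟩
      refine ⟨fun hd => ?_, ZMod.isSquare_of_jacobiSym_eq_one h1⟩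
      rcases (Nat.prime_iff_prime_int.1 hl).dvd_or_dvd hd with h2 | h2
      · have h3 : l ∣ 2 := by exact_mod_cast h2
        rw [(Nat.prime_dvd_prime_iff_eq hl Nat.prime_two).1 h3] at ho
        exact absurd ho (by decide)
      · have h3 : jacobiSym D l = 0 := by
          refine jacobiSym.eq_zero_iff.2 ⟨hl.ne_zero, fun h4 => ?_⟩
          have h5 := Int.dvd_gcd h2 (dvd_refl (l : ℤ))
          rw [h4] at h5
          exact hl.one_lt.ne' (Nat.dvd_one.1 h5)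
        omega
    · exact absurd h zero_ne_one

theorem sge_OD {D : ℤ} (hD : IsD D) : OD D ∈ Idl D 1 :=
  ⟨discL_OD hD, le_rfl, by rw [nm_OD hD, Nat.cast_one]⟩

theorem sge_mul {D : ℤ} {m n : ℕ} {𝔞 𝔟 : Lt} (ha : 𝔞 ∈ Idl D m) (hb : 𝔟 ∈ Idl D n) :
    𝔞 * 𝔟 ∈ Idl D (m * n) :=
  ⟨ha.1.mul hb.1 le_rfl, ((mul_le_mul_left ha.2.1 𝔟).trans hb.1.OD_mul.le).trans hb.2.1, by
    rw [nm_mul ha.1 hb.1 le_rfl, ha.2.2, hb.2.2, Nat.cast_mul]⟩

theorem sge_pow {D : ℤ} {m n : ℕ} {𝔞 𝔟 : Lt} (ha : 𝔞 ∈ Idl D m) (hb : 𝔟 ∈ Idl D n) (i : ℕ) :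
    𝔞 ^ i * 𝔟 ∈ Idl D (m ^ i * n) := by
  induction i with
  | zero => simpa using hb
  | succ i ih =>
    rw [pow_succ', pow_succ', mul_assoc, mul_assoc]
    exact sge_mul ha ih

theorem sge_le {D : ℤ} {m : ℕ} {𝔞 : Lt} (ha : 𝔞 ∈ Idl D m) : pr m * OD D ≤ 𝔞 := by
  have h1 := ha.1.mul_cj_nm
  rw [ha.2.2, Complex.ofReal_natCast] at h1
  have h2 : cj 𝔞 ≤ OD D := by
    rw [← cj_OD]
    exact Submodule.map_mono ha.2.1
  rw [← h1, mul_comm]
  exact (mul_le_mul_left h2 𝔞).trans ha.1.OD_mul.le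

theorem sge_rec {D : ℤ} {m n : ℕ} (h : Nat.Coprime m n) {𝔞 𝔟 : Lt} (ha : 𝔞 ∈ Idl D m)
    (hb : 𝔟 ∈ Idl D n) : 𝔞 = 𝔞 * 𝔟 ⊔ pr m * OD D := by
  refine le_antisymm (fun x hx => ?_) (sup_le ?_ (sge_le ha))
  · refine mem_of_coprime_fac (Nat.isCoprime_iff_coprime.2 h)
      (Submodule.mem_sup_right (mem_pr_mul.2 ⟨x, ha.2.1 hx, by simp⟩)) (Submodule.mem_sup_left ?_)
    have h1 : (n : ℂ) ∈ 𝔟 := sge_le hb (mem_pr_mul.2 ⟨1, one_mem_OD D, mul_one _⟩)
    rw [mul_comm _ x, Int.cast_natCast]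
    exact Submodule.mul_mem_mul hx h1
  · rw [mul_comm]
    exact (mul_le_mul_left hb.2.1 𝔞).trans ha.1.OD_mul.le

theorem sge_pri {D : ℤ} (hD : IsD D) {l : ℕ} {𝔮 : Lt} (h : PrI D l 𝔮) : 𝔮 ∈ Idl D l := by
  have h1 := h.discL hD.1
  refine ⟨h1, h.le, pr_OD_inj hD h1.nm_pos (Nat.cast_pos.2 h.1.pos) ?_⟩
  rw [← h1.mul_cj_nm, h.mul_cj hD.1, Complex.ofReal_natCast]

theorem sge_ne {D : ℤ} (hD : IsD D) {l : ℕ} {𝔮 : Lt} (h : PrI D l 𝔮) : cj 𝔮 ≠ 𝔮 := by
  intro e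
  have h1 := h.pow_sup hD.1 1
  have h2 := h.mul_cj hD.1
  rw [e] at h2
  rw [pow_succ, pow_one, h2, sup_idem] at h1
  have h3 := (sge_pri hD h).2.2
  have h4 : (1 : ℝ) < l := by exact_mod_cast h.1.one_lt
  rw [← h1, nm_pr_mul (discL_OD hD).isLat D (Nat.cast_ne_zero.2 h.1.ne_zero), nm_OD hD,
    Complex.normSq_natCast] at h3
  nlinarith

theorem sge_root {D : ℤ} (hD : IsD D) {l : ℕ} (hl : l.Prime) (h : ¬ (l : ℤ) ∣ 2 * D)
    (hs : IsSquare (D : ZMod l)) : ∃ b : ℤ, 4 * (l : ℤ) ∣ b ^ 2 - D := by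
  obtain ⟨r, hr⟩ := hs
  obtain ⟨r, rfl⟩ := ZMod.intCast_surjective r
  have h1 : (l : ℤ) ∣ r ^ 2 - D := by
    rw [← ZMod.intCast_zmod_eq_zero_iff_dvd]
    push_cast
    rw [hr]
    ring
  have ho : Odd l := hl.odd_of_ne_two fun e => h (by rw [e]; exact dvd_mul_right _ _)
  have hc : IsCoprime (4 : ℤ) l :=
    (Nat.isCoprime_iff_coprime.2 (Nat.Coprime.pow_left 2 (Nat.coprime_two_left.2 ho)) :)
  have key : ∀ b : ℤ, (l : ℤ) ∣ b ^ 2 - D → (b - D) % 2 = 0 → 4 * (l : ℤ) ∣ b ^ 2 - D := by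
    intro b h2 h3
    refine hc.mul_dvd ?_ h2
    rcases hD.2 with h4 | h4
    · obtain ⟨c, rfl⟩ : ∃ c, b = 2 * c := ⟨b / 2, by omega⟩
      exact ⟨c ^ 2 - D / 4, by have := Int.emod_add_mul_ediv D 4; linear_combination this - h4⟩
    · obtain ⟨c, rfl⟩ : ∃ c, b = 2 * c + 1 := ⟨b / 2, by omega⟩
      exact ⟨c ^ 2 + c - D / 4, by have := Int.emod_add_mul_ediv D 4; linear_combination this - h4⟩
  by_cases h2 : (r - D) % 2 = 0
  · exact ⟨r, key r h1 h2⟩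
  · refine ⟨r + l, key _ ?_ ?_⟩
    · have : (r + l) ^ 2 - D = r ^ 2 - D + l * (2 * r + l) := by ring
      rw [this]
      exact h1.add (dvd_mul_right _ _)
    · have := Nat.odd_iff.1 ho
      omega

theorem card_Idl_one {D : ℤ} (hD : IsD D) : 1 ≤ (Idl D 1).ncard :=
  (Set.ncard_pos (Idl_finite D 1)).2 ⟨_, sge_OD hD⟩

theorem card_Idl_mul {D : ℤ} {m n : ℕ} (h : Nat.Coprime m n) :
    (Idl D m).ncard * (Idl D n).ncard ≤ (Idl D (m * n)).ncard := by
  rw [← Set.ncard_prod]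
  refine Set.ncard_le_ncard_of_injOn (fun x => x.1 * x.2) (fun x hx => sge_mul hx.1 hx.2) ?_
    (Idl_finite D _)
  rintro ⟨a, b⟩ ⟨ha, hb⟩ ⟨a', b'⟩ ⟨ha', hb'⟩ e
  have e' : a * b = a' * b' := e
  refine Prod.ext ?_ ?_
  · exact (sge_rec h ha hb).trans (by rw [e']; exact (sge_rec h ha' hb').symm)
  · exact (sge_rec h.symm hb ha).trans
      (by rw [mul_comm, e', mul_comm]; exact (sge_rec h.symm hb' ha').symm)

theorem card_Idl_split {D : ℤ} (hD : IsD D) {l : ℕ} (hl : l.Prime) (h : ¬ (l : ℤ) ∣ 2 * D)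
    (hs : IsSquare (D : ZMod l)) (k : ℕ) : k + 1 ≤ (Idl D (l ^ k)).ncard := by
  obtain ⟨b, hb⟩ := sge_root hD hl h hs
  obtain ⟨𝔮, hq⟩ : ∃ 𝔮, PrI D l 𝔮 := ⟨_, hl, h, b, hb, rfl⟩
  have h1 := sge_pri hD hq
  have h2 := sge_pri hD hq.cj
  have hm : ∀ i j : ℕ, 𝔮 ^ i * (cj 𝔮 ^ j * OD D) ∈ Idl D (l ^ (i + j)) := fun i j => by
    have := sge_pow h1 (sge_pow h2 (sge_OD hD) j) i
    rwa [mul_one, ← pow_add] at this
  have hO : ∀ {𝔞 : Lt}, DiscL 𝔞 D → ∀ e : ℕ, OD D * 𝔞 ^ (e + 1) = 𝔞 ^ (e + 1) := fun ha e => by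
    rw [pow_succ', ← mul_assoc, ha.OD_mul]
  have key : ∀ i i', i < i' → i' ≤ k →
      𝔮 ^ i * (cj 𝔮 ^ (k - i) * OD D) ≠ 𝔮 ^ i' * (cj 𝔮 ^ (k - i') * OD D) := by
    intro i i' hi hk e
    obtain ⟨d, rfl⟩ : ∃ d, i' = i + (d + 1) := ⟨i' - i - 1, by omega⟩
    obtain ⟨j, rfl⟩ : ∃ j, k = i + (d + 1) + j := ⟨k - (i + (d + 1)), by omega⟩
    rw [Nat.add_sub_cancel_left, add_assoc, Nat.add_sub_cancel_left, pow_add _ (d + 1), pow_add _ i,
      mul_assoc, mul_assoc, mul_left_comm, mul_left_comm (𝔮 ^ i) (𝔮 ^ (d + 1))] at e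
    have h3 := cancel_fac (hm i j).1 (hO h2.1 d) (hO h1.1 d) e
    refine sge_ne hD hq ?_
    rw [← hq.cj.pow_sup hD.1 d, h3, hq.pow_sup hD.1 d]
  rw [← Finset.card_range (k + 1), ← Set.ncard_coe_finset]
  refine Set.ncard_le_ncard_of_injOn (fun i => 𝔮 ^ i * (cj 𝔮 ^ (k - i) * OD D)) (fun i hi => ?_)
    (fun i hi i' hi' e => ?_) (Idl_finite D _)
  · have h3 : i < k + 1 := Finset.mem_range.1 hi
    have := hm i (k - i)
    rwa [Nat.add_sub_cancel' (by omega)] at this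
  · have h3 : i < k + 1 := Finset.mem_range.1 hi
    have h4 : i' < k + 1 := Finset.mem_range.1 hi'
    rcases lt_trichotomy i i' with h5 | h5 | h5
    · exact absurd e (key i i' h5 (by omega))
    · exact h5
    · exact absurd e.symm (key i' i h5 (by omega))

theorem card_Idl_even {D : ℤ} (hD : IsD D) {l : ℕ} (hl : 0 < l) (k : ℕ) :
    1 ≤ (Idl D (l ^ (2 * k))).ncard := by
  have h0 : ((l ^ k : ℕ) : ℂ) ≠ 0 := Nat.cast_ne_zero.2 (pow_pos hl k).ne'
  refine (Set.ncard_pos (Idl_finite D _)).2 ⟨pr (l ^ k : ℕ) * OD D, (discL_OD hD).pr_mul h0,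
    by simpa using pr_int_le ((l ^ k : ℕ) : ℤ) (OD D), ?_⟩
  rw [nm_pr_mul (discL_OD hD).isLat D h0, nm_OD hD, Complex.normSq_natCast]
  push_cast
  ring

theorem sge_pp {N : ℕ} (χ : DirichletCharacter ℂ N) {l : ℕ} (hl : l.Prime) (k : ℕ) :
    ∑ x ∈ (l ^ k).divisorsAntidiagonal, (1 : DirichletCharacter ℂ N) x.1 * χ x.2 =
      (1 : DirichletCharacter ℂ N) l ^ k * ∑ i ∈ Finset.range (k + 1), χ l ^ i := by
  rw [Nat.sum_divisorsAntidiagonal' (f := fun a b : ℕ => (1 : DirichletCharacter ℂ N) a * χ b),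
    Nat.sum_divisors_prime_pow hl, Finset.mul_sum]
  refine Finset.sum_congr rfl fun i hi => ?_
  have hi' : i ≤ k := Nat.lt_succ_iff.1 (Finset.mem_range.1 hi)
  obtain ⟨j, rfl⟩ := Nat.exists_eq_add_of_le hi'
  have h1 : χ l = (1 : DirichletCharacter ℂ N) l * χ l := by rw [← MulChar.mul_apply, one_mul]
  rw [pow_add, Nat.mul_div_cancel_left _ (pow_pos hl.pos i), Nat.cast_pow, Nat.cast_pow, map_pow,
    map_pow]
  conv_lhs => rw [h1]
  ring

theorem sge_conv {N : ℕ} (χ : DirichletCharacter ℂ N) (n : ℕ) :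
    ∑ x ∈ n.divisorsAntidiagonal, (1 : DirichletCharacter ℂ N) x.1 * χ x.2 =
      (toArithmeticFunction (fun a : ℕ => (1 : DirichletCharacter ℂ N) a) *
        toArithmeticFunction (fun a : ℕ => χ a)) n := by
  rw [ArithmeticFunction.mul_apply]
  refine Finset.sum_congr rfl fun x hx => ?_
  obtain ⟨h1, h2⟩ := Nat.ne_zero_of_mem_divisorsAntidiagonal hx
  simp [toArithmeticFunction, h1, h2]

/-- The coefficients of `L(s, χ₀) L(s, χ)` are at most the numbers of ideals. -/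
theorem coeff_le_Idl {D : ℤ} (hD : IsD D) (χ : DirichletCharacter ℂ (4 * D.natAbs))
    (h2 : χ ^ 2 = 1)
    (h : ∀ l : ℕ, l.Prime → χ l = 1 → ¬ (l : ℤ) ∣ 2 * D ∧ IsSquare (D : ZMod l)) {n : ℕ}
    (hn : 0 < n) :
    ‖∑ x ∈ n.divisorsAntidiagonal,
      (1 : DirichletCharacter ℂ (4 * D.natAbs)) x.1 * χ x.2‖ ≤ (Idl D n).ncard := by
  induction n using Nat.recOnPosPrimePosCoprime with
  | prime_pow l k hl hk =>
    rw [sge_pp χ hl, norm_mul, norm_pow]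
    have h1 : ‖(1 : DirichletCharacter ℂ (4 * D.natAbs)) l‖ ^ k ≤ 1 :=
      pow_le_one₀ (norm_nonneg _) (DirichletCharacter.norm_le_one _ _)
    rcases MulChar.isQuadratic_iff_sq_eq_one.2 h2 (l : ZMod (4 * D.natAbs)) with h3 | h3 | h3
    · have hu : ¬ IsUnit (l : ZMod (4 * D.natAbs)) := fun hu => (hu.map χ).ne_zero h3
      rw [MulChar.map_nonunit _ hu, norm_zero, zero_pow hk.ne', zero_mul]
      exact Nat.cast_nonneg _
    · refine (mul_le_of_le_one_left (norm_nonneg _) h1).trans ?_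
      have h4 := card_Idl_split hD hl (h l hl h3).1 (h l hl h3).2 k
      rw [h3]
      simp only [one_pow, Finset.sum_const, Finset.card_range, nsmul_eq_mul, mul_one,
        Complex.norm_natCast]
      exact_mod_cast h4
    · refine (mul_le_of_le_one_left (norm_nonneg _) h1).trans ?_
      rw [h3, neg_one_geom_sum]
      split_ifs with h4
      · simp
      · obtain ⟨j, rfl⟩ : ∃ j, k = 2 * j := ⟨k / 2, by rw [Nat.even_iff] at h4; omega⟩
        rw [norm_one]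
        exact_mod_cast card_Idl_even hD hl.pos j
  | zero => exact absurd hn (lt_irrefl 0)
  | one =>
    have := card_Idl_one hD
    simpa using this
  | coprime a b ha hb hab iha ihb =>
    have hm := (DirichletCharacter.isMultiplicative_toArithmeticFunction
      (1 : DirichletCharacter ℂ (4 * D.natAbs))).mul
      (DirichletCharacter.isMultiplicative_toArithmeticFunction χ)
    have h3 := iha (by omega)
    have h4 := ihb (by omega)
    rw [sge_conv] at h3 h4 ⊢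
    rw [hm.map_mul_of_coprime hab, norm_mul]
    refine (mul_le_mul h3 h4 (norm_nonneg _) (Nat.cast_nonneg _)).trans ?_
    exact_mod_cast card_Idl_mul hab

end Pool.Agent.EQ
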