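import Pool.Agent.P.MP_ad7a55_nt.SgD
import Pool.Agent.P.MP_ad7a55_nt.SgE
import Pool.Agent.P.MP_ad7a55_nt.CtC

/-! The lower bound for class numbers. -/

set_option autoImplicit false

noncomputable section

open MeasureTheory Topology Filter UpperHalfPlane
open scoped MatrixGroups ENNReal BoundedContinuousFunction

namespace Pool.Agent.EQ

/-- The integral ideals of bounded norm in one class. -/
theorem sf_class {D : ℤ} {Λ : Lt} (h : DiscL Λ D) {N : ℕ} (hN : 1 ≤ N) (T : Finset Lt)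
    (hT : ∀ 𝔞 ∈ T, jL 𝔞 = jL Λ ∧ ∃ n ≤ N, 𝔞 ∈ Idl D n) :
    (T.card : ℝ) ≤ 18 / Real.sqrt (-(D : ℝ)) * N + 18 * Real.sqrt N := by
  have hν := h.nm_pos
  have hc : nm D (cj Λ) = nm D Λ := nm_cj h.isLat D
  obtain ⟨hfin, hcard⟩ := card_pts h.cj.isLat hν (fun z hz hz0 => by
    obtain ⟨n, hn⟩ := h.cj.normSq_nat hz
    rw [hc] at hn
    have h1 : (1 : ℝ) ≤ n := by
      rcases Nat.eq_zero_or_pos n with rfl | h1
      · exact absurd (Complex.normSq_eq_zero.1 (by simpa using hn)) hz0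
      · exact_mod_cast h1
    nlinarith) (Y := N * nm D Λ) (by positivity)
  have hsub : (T : Set Lt) ⊆ (fun w : ℂ => pr (w / nm D Λ) * Λ) ''
      {z | z ∈ cj Λ ∧ Complex.normSq z ≤ N * nm D Λ} := by
    intro 𝔞 ha
    obtain ⟨hj, n, hn, hd, hle, hnm⟩ := hT 𝔞 ha
    obtain ⟨c, hc0, rfl⟩ := jL_inj h.isLat hd.isLat hj.symm
    have hν' : (nm D Λ : ℂ) ≠ 0 := by exact_mod_cast hν.ne'
    refine ⟨c * nm D Λ, ⟨?_, ?_⟩, by simp only [mul_div_cancel_right₀ _ hν']⟩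
    · have h1 : pr c * (pr (nm D Λ) * OD D) ≤ cj Λ := by
        rw [← h.mul_cj_nm, ← mul_assoc]
        exact (mul_le_mul_left hle _).trans h.cj.OD_mul.le
      exact h1 (mem_pr_mul.2 ⟨nm D Λ, mem_pr_mul.2 ⟨1, one_mem_OD D, mul_one _⟩, rfl⟩)
    · rw [nm_pr_mul h.isLat D hc0] at hnm
      have h1 : (n : ℝ) ≤ N := by exact_mod_cast hn
      rw [map_mul, Complex.normSq_ofReal, ← mul_assoc, hnm]
      exact mul_le_mul_of_nonneg_right h1 hν.le
  have h1 : T.card ≤ {z | z ∈ cj Λ ∧ Complex.normSq z ≤ N * nm D Λ}.ncard := by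
    rw [← Set.ncard_coe_finset]
    exact (Set.ncard_le_ncard hsub (hfin.image _)).trans (Set.ncard_image_le hfin)
  have hv := vol_pos h.isLat
  have h2 : N * nm D Λ / vol (cj Λ) = 2 / Real.sqrt (-(D : ℝ)) * N := by
    rw [h.isLat.cj.2, nm]
    field_simp
  have h3 : (1 : ℝ) ≤ Real.sqrt N := Real.one_le_sqrt.2 (by exact_mod_cast hN)
  rw [mul_div_cancel_right₀ _ hν.ne', h2] at hcard
  have h4 : (T.card : ℝ) ≤ _ := le_trans (by exact_mod_cast h1) hcard
  have h5 : 18 / Real.sqrt (-(D : ℝ)) * N = 9 * (2 / Real.sqrt (-(D : ℝ)) * N) := by ring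
  linarith

theorem sum_Idl_le {D : ℤ} (hD : IsD D) (N : ℕ) :
    ∑ n ∈ Finset.Icc 1 N, ((Idl D n).ncard : ℝ) ≤
      18 * (Cl D).ncard / Real.sqrt (-(D : ℝ)) * N + 18 * (Cl D).ncard * Real.sqrt N := by
  classical
  have _ := hD
  rcases Nat.eq_zero_or_pos N with rfl | hN
  · simp
  have h1 : ((Finset.Icc 1 N).biUnion fun n => (Idl_finite D n).toFinset).card =
      ∑ n ∈ Finset.Icc 1 N, (Idl D n).ncard := by
    rw [Finset.card_biUnion]
    · exact Finset.sum_congr rfl fun n _ => (Set.ncard_eq_toFinset_card _ _).symm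
    · intro m _ n _ hmn
      rw [Function.onFun, Finset.disjoint_left]
      intro 𝔞 hm hn
      rw [Set.Finite.mem_toFinset] at hm hn
      exact hmn (by exact_mod_cast hm.2.2.symm.trans hn.2.2)
  have hm : ∀ 𝔞 ∈ (Finset.Icc 1 N).biUnion fun n => (Idl_finite D n).toFinset,
      ∃ n ≤ N, 𝔞 ∈ Idl D n := fun 𝔞 ha => by
    obtain ⟨n, hn, ha⟩ := Finset.mem_biUnion.1 ha
    exact ⟨n, (Finset.mem_Icc.1 hn).2, (Set.Finite.mem_toFinset _).1 ha⟩
  generalize ((Finset.Icc 1 N).biUnion fun n => (Idl_finite D n).toFinset) = T at h1 hm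
  have h2 := Finset.card_eq_sum_card_fiberwise (f := jL) (s := T) (t := (Cl_finite D).toFinset)
    fun 𝔞 ha => by
      obtain ⟨n, -, hn⟩ := hm 𝔞 ha
      exact (Set.Finite.mem_toFinset _).2 ⟨𝔞, hn.1, rfl⟩
  rw [← Nat.cast_sum, ← h1, h2, Nat.cast_sum]
  calc ∑ z ∈ (Cl_finite D).toFinset, (({𝔞 ∈ T | jL 𝔞 = z} : Finset Lt).card : ℝ)
      ≤ ∑ _z ∈ (Cl_finite D).toFinset, (18 / Real.sqrt (-(D : ℝ)) * N + 18 * Real.sqrt N) := by
        refine Finset.sum_le_sum fun z hz => ?_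
        obtain ⟨Λ, hΛ, rfl⟩ := (Set.Finite.mem_toFinset _).1 hz
        exact sf_class hΛ hN _ fun 𝔞 ha =>
          ⟨(Finset.mem_filter.1 ha).2, hm 𝔞 (Finset.mem_filter.1 ha).1⟩
    _ = _ := by
        rw [Finset.sum_const, nsmul_eq_mul, ← Set.ncard_eq_toFinset_card _ (Cl_finite D)]
        ring

/-- A product of two L-functions is bounded by a series with bigger coefficients. -/
theorem sf_prod {q : ℕ} [NeZero q] (χ ψ : DirichletCharacter ℂ q) (a : ℕ → ℝ)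
    (ha : ∀ n : ℕ, 0 < n → ‖∑ x ∈ n.divisorsAntidiagonal, χ x.1 * ψ x.2‖ ≤ a n) {s B : ℝ}
    (hs : 1 < s) (hB : ∀ N : ℕ, ∑ n ∈ Finset.Icc 1 N, a n * (n : ℝ) ^ (-s) ≤ B) :
    ‖χ.LFunction s * ψ.LFunction s‖ ≤ B := by
  have hs' : 1 < (s : ℂ).re := by simpa using hs
  have h1 := (ZMod.LSeriesSummable_of_one_lt_re χ hs').LSeriesHasSum.convolution
    (ZMod.LSeriesSummable_of_one_lt_re ψ hs').LSeriesHasSum
  rw [χ.LFunction_eq_LSeries hs', ψ.LFunction_eq_LSeries hs']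
  refine le_of_tendsto' (h1.tendsto_sum_nat.comp (tendsto_add_atTop_nat 1)).norm fun N => ?_
  refine (norm_sum_le _ _).trans (le_trans ?_ (hB N))
  rw [Finset.sum_range_succ', LSeries.term_zero, norm_zero, add_zero, Finset.range_eq_Ico,
    Finset.sum_Ico_add' (fun n => ‖LSeries.term _ (s : ℂ) n‖), zero_add]
  refine Finset.sum_le_sum fun n hn => ?_
  have hn' : 0 < n := (Finset.mem_Ico.1 hn).1
  rw [LSeries.norm_term_eq, if_neg hn'.ne', Complex.ofReal_re, LSeries.convolution_def,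
    Real.rpow_neg (Nat.cast_nonneg _), div_eq_mul_inv]
  exact mul_le_mul_of_nonneg_right (ha n hn') (by positivity)

/-- The residue at one. -/
theorem sf_res {q : ℕ} [NeZero q] {ψ : DirichletCharacter ℂ q} (hψ : ψ ≠ 1) {α β : ℝ}
    (h : ∀ s : ℝ, 1 < s → s ≤ 2 → ‖(1 : DirichletCharacter ℂ q).LFunction s * ψ.LFunction s‖ ≤
      α / (s - 1) + β) : ‖ψ.LFunction 1‖ ≤ q.divisors.card * α := by
  have ht0 : Tendsto (fun y : ℝ => (y : ℂ)) (𝓝[>] 1) (𝓝 1) := by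
    have := (Complex.continuous_ofReal.tendsto 1).mono_left
      (nhdsWithin_le_nhds (s := Set.Ioi 1))
    simpa using this
  have ht : Tendsto (fun y : ℝ => (y : ℂ)) (𝓝[>] 1) (𝓝[≠] 1) := by
    refine tendsto_nhdsWithin_iff.2 ⟨ht0, ?_⟩
    filter_upwards [self_mem_nhdsWithin] with y hy
    simp only [Set.mem_compl_iff, Set.mem_singleton_iff]
    exact_mod_cast (ne_of_gt hy)
  have h1 := (((DirichletCharacter.LFunctionTrivChar_residue_one (N := q)).comp ht).mul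
    (((DirichletCharacter.differentiable_LFunction hψ).continuous.tendsto 1).comp ht0)).norm
  have h2 : Tendsto (fun s : ℝ => α + β * (s - 1)) (𝓝[>] 1) (𝓝 α) := by
    have : Continuous fun s : ℝ => α + β * (s - 1) := by fun_prop
    simpa using (this.tendsto 1).mono_left (nhdsWithin_le_nhds (s := Set.Ioi 1))
  have h3 := le_of_tendsto_of_tendsto h1 h2 (by
    filter_upwards [Ioc_mem_nhdsGT (show (1 : ℝ) < 2 by norm_num)] with s hs
    have h4 : 0 < s - 1 := by linarith [hs.1]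
    have h5 : ‖(s : ℂ) - 1‖ = s - 1 := by
      rw [← Complex.ofReal_one, ← Complex.ofReal_sub, Complex.norm_real, Real.norm_of_nonneg h4.le]
    simp only [Function.comp]
    rw [mul_assoc, norm_mul, h5]
    refine (mul_le_mul_of_nonneg_left (h s hs.1 hs.2) h4.le).trans_eq ?_
    field_simp)
  have h4 := euler_lower (NeZero.pos q) (fun _ => 1) fun _ => norm_one.le
  simp only [one_mul, Complex.cpow_neg_one] at h4
  rw [norm_mul] at h3
  calc ‖ψ.LFunction 1‖ ≤ q.divisors.card * ‖∏ l ∈ q.primeFactors, (1 - (l : ℂ)⁻¹)‖ *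
        ‖ψ.LFunction 1‖ := le_mul_of_one_le_left (norm_nonneg _) h4
    _ ≤ _ := by
        rw [mul_assoc]
        exact mul_le_mul_of_nonneg_left h3 (Nat.cast_nonneg _)

theorem class_lower {ε : ℝ} (hε : 0 < ε) : ∃ c : ℝ, 0 < c ∧ ∀ D : ℤ, IsD D →
    c * (-(D : ℝ)) ^ (1 / 2 - ε) ≤ (Cl D).ncard := by
  obtain ⟨c, hc, hS⟩ := siegel (half_pos hε)
  obtain ⟨C, hC, hd⟩ := div_bound (half_pos hε)
  refine ⟨c / (108 * C * 4 ^ ε), by positivity, fun D hD => ?_⟩
  obtain ⟨χ, hχ, hχ2, hl⟩ := exists_chi hD.1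
  have hq : 0 < 4 * D.natAbs := Nat.mul_pos (by norm_num) (Int.natAbs_pos.2 hD.1.ne)
  have : NeZero (4 * D.natAbs) := ⟨hq.ne'⟩
  have hD0 : (0 : ℝ) < -(D : ℝ) := by
    have : (D : ℝ) < 0 := by exact_mod_cast hD.1
    linarith
  have hqD : ((4 * D.natAbs : ℕ) : ℝ) = 4 * -(D : ℝ) := by
    rw [Nat.cast_mul, Nat.cast_natAbs, abs_of_neg hD.1]
    push_cast
    ring
  have hs := Real.sqrt_pos.2 hD0
  have h1 := sf_res hχ (α := 6 * (18 * (Cl D).ncard / Real.sqrt (-(D : ℝ))))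
    (β := 8 * (18 * (Cl D).ncard)) (fun s h1 h2 => sf_prod 1 χ (fun n => (Idl D n).ncard)
      (fun n hn => coeff_le_Idl hD χ hχ2 hl hn) h1
      (tsum_le_of_partial _ (fun _ => Nat.cast_nonneg _) (by positivity) (by positivity)
        (sum_Idl_le hD) h1 h2))
  have h2 := (hS _ χ hχ hχ2).trans
    (h1.trans (mul_le_mul_of_nonneg_right (hd _ hq) (by positivity)))
  rw [hqD] at h2
  generalize -(D : ℝ) = x at *
  have h3 : (4 * x) ^ (ε / 2) * (4 * x) ^ (ε / 2) = 4 ^ ε * x ^ ε := by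
    rw [← Real.rpow_add (by positivity), add_halves, Real.mul_rpow (by norm_num) hD0.le]
  have h4 : 0 < (4 * x) ^ (ε / 2) := by positivity
  rw [Real.rpow_neg (by positivity), ← div_eq_mul_inv, div_le_iff₀ h4] at h2
  rw [Real.rpow_sub hD0, ← Real.sqrt_eq_rpow, div_mul_div_comm, div_le_iff₀ (by positivity),
    ← le_div_iff₀ hs]
  refine h2.trans_eq ?_
  linear_combination (C * 108 * (Cl D).ncard / Real.sqrt x) * h3

end Pool.Agent.EQ
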