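import Pool.Agent.P.MP_ad7a55_nt.CtF
import Pool.Agent.P.MP_ad7a55_nt.CtE3
import Pool.Agent.P.MP_ad7a55_nt.SgF
import Pool.Agent.P.MP_ad7a55_nt.MainA

/-! The exceptional points form a small part of the orbit. -/

set_option autoImplicit false

noncomputable section

open MeasureTheory Topology Filter UpperHalfPlane
open scoped MatrixGroups ENNReal BoundedContinuousFunction

namespace Pool.Agent.EQ

/-- All fibres of the projection to two coordinates have the same size. -/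
theorem frac_le {n : ℕ} {F : IntermediateField ℚ ℂ} {x : Fin n → ℂ} (hx : (galOrbit F x).Finite)
    (k l : Fin n) {S : Set (ℂ × ℂ)} (hS : S.Finite) :
    {z | z ∈ galOrbit F x ∧ (z k, z l) ∈ S}.ncard * (orb2 F (x k) (x l)).ncard ≤
      S.ncard * (galOrbit F x).ncard := by
  classical
  set O := hx.toFinset with hO
  have hmem : ∀ z, z ∈ O ↔ z ∈ galOrbit F x := fun z => hx.mem_toFinset
  set f := (O.filter fun z => (z k, z l) = (x k, x l)).card with hf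
  have himg : orb2 F (x k) (x l) = ↑(O.image fun z => (z k, z l)) := by
    ext w
    simp only [Finset.coe_image, Set.mem_image, Finset.mem_coe, hmem]
    constructor
    · rintro ⟨σ, hσ, rfl⟩
      exact ⟨_, ⟨σ, hσ, rfl⟩, rfl⟩
    · rintro ⟨_, ⟨σ, hσ, rfl⟩, rfl⟩
      exact ⟨σ, hσ, rfl⟩
  have hfib : ∀ y ∈ O, (O.filter fun z => (z k, z l) = (y k, y l)).card = f := by
    intro y hy
    obtain ⟨σ, hσ, rfl⟩ := (hmem y).1 hy
    have h1 := sum_orbit hx hσ fun z => if (z k, z l) = (σ (x k), σ (x l)) then 1 else 0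
    simp only [Prod.mk.injEq, EmbeddingLike.apply_eq_iff_eq, Finset.sum_boole, Nat.cast_inj] at h1
    simp only [hf, Prod.mk.injEq]
    exact h1.symm
  have h1 : f * (O.image fun z => (z k, z l)).card ≤ O.card :=
    Finset.mul_card_image_le_card _ _ fun w hw => by
      obtain ⟨y, hy, rfl⟩ := Finset.mem_image.1 hw
      exact (hfib y hy).ge
  have h2 : (O.filter fun z => (z k, z l) ∈ S).card ≤ f * hS.toFinset.card :=
    Finset.card_le_mul_card_image_of_maps_to (f := fun z : Fin n → ℂ => (z k, z l))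
      (fun z hz => hS.mem_toFinset.2 (Finset.mem_filter.1 hz).2) f fun w _ => by
        rcases ((O.filter fun z => (z k, z l) ∈ S).filter
          fun z => (z k, z l) = w).eq_empty_or_nonempty with h | ⟨y, hy⟩
        · rw [h]; exact Nat.zero_le _
        · obtain ⟨hy1, rfl⟩ := Finset.mem_filter.1 hy
          rw [← hfib y (Finset.mem_filter.1 hy1).1]
          exact Finset.card_le_card (Finset.filter_subset_filter _ (Finset.filter_subset _ _))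
  have e1 : {z | z ∈ galOrbit F x ∧ (z k, z l) ∈ S} = ↑(O.filter fun z => (z k, z l) ∈ S) := by
    ext z
    simp only [Set.mem_ofPred_eq, Finset.coe_filter, hmem]
  rw [e1, himg, Set.ncard_coe_finset, Set.ncard_coe_finset, Set.ncard_eq_toFinset_card _ hS,
    Set.ncard_eq_toFinset_card _ hx]
  calc _ ≤ f * hS.toFinset.card * (O.image fun z => (z k, z l)).card := Nat.mul_le_mul_right _ h2
    _ = hS.toFinset.card * (f * (O.image fun z => (z k, z l)).card) := by ring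
    _ ≤ _ := Nat.mul_le_mul_left _ h1

theorem ctg_num (K : ℝ) {t : ℝ} (ht : 0 < t) : ∃ Y : ℝ, ∀ X, Y ≤ X → K ≤ X ^ t :=
  eventually_atTop.1 ((tendsto_rpow_atTop ht).eventually_ge_atTop K)

/-- A set of pairs that is small against the class number has a small preimage. -/
theorem ctg_core (F : IntermediateField ℚ ℂ) [FiniteDimensional ℚ F] {ε : ℝ} (hε : 0 < ε) :
    ∃ c₀ : ℝ, 0 < c₀ ∧ ∀ (n : ℕ) (τ : Fin n → ℍ) (D : Fin n → ℤ), (∀ k, HasDisc (τ k) (D k)) →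
      ∀ (k l : Fin n) (E : ℤ) (g₁ g₂ : ℕ), IsD E → Nat.Coprime g₁ g₂ → 0 < g₁ → 0 < g₂ →
      D k = g₁ ^ 2 * E → D l = g₂ ^ 2 * E → D k < -576 → D l < -576 → ∀ S : Set (ℂ × ℂ),
      S.Finite → ∀ δ : ℝ, 0 ≤ δ →
      (S.ncard : ℝ) ≤ δ * (c₀ * (((g₁ : ℝ) * g₂) ^ 2 * (-(E : ℝ))) ^ (1 / 2 - ε)) →
      ∀ A : Set (Fin n → ℂ), (∀ z ∈ A, z ∈ (galOrbit F fun k => jInv (τ k)) ∧ (z k, z l) ∈ S) →
      (A.ncard : ℝ) ≤ δ * (galOrbit F fun k => jInv (τ k)).ncard := by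
  obtain ⟨c, hc, hcl⟩ := class_lower hε
  have hd : (0 : ℝ) < Module.finrank ℚ F := by exact_mod_cast Module.finrank_pos
  refine ⟨c / (15 * Module.finrank ℚ F), by positivity, fun n τ D hτ k l E g₁ g₂ hE hg h1 h2 e1 e2
    b1 b2 S hS δ hδ hcard A hA => ?_⟩
  have hO := orbit_finite F hτ
  have hfin : (orb2 F (jInv (τ k)) (jInv (τ l))).Finite := by
    refine (hO.image fun z => (z k, z l)).subset ?_
    rintro _ ⟨σ, hσ, rfl⟩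
    exact ⟨_, ⟨σ, hσ, rfl⟩, rfl⟩
  have hpos : (0 : ℝ) < (orb2 F (jInv (τ k)) (jInv (τ l))).ncard := by
    exact_mod_cast (Set.ncard_pos hfin).2 ⟨_, RingEquiv.refl _, fun _ _ => rfl, rfl⟩
  have a1 := hcl _ (cm_isD_sq hE (Nat.mul_pos h1 h2))
  have a2 := orbit_lower hE hg (e1 ▸ discL_one (hτ k)) (e2 ▸ discL_one (hτ l)) (e1 ▸ b1) (e2 ▸ b2)
  rw [jL_one, jL_one] at a2
  have a3 : ((Cl ((g₁ * g₂ : ℕ) ^ 2 * E)).ncard : ℝ) ≤
      15 * (Module.finrank ℚ F * (orb2 F (jInv (τ k)) (jInv (τ l))).ncard) := by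
    exact_mod_cast a2.trans (Nat.mul_le_mul_left _ (card_orb2_bot F hfin).2)
  have e3 : -((((g₁ * g₂ : ℕ) : ℤ) ^ 2 * E : ℤ) : ℝ) = ((g₁ : ℝ) * g₂) ^ 2 * (-(E : ℝ)) := by
    push_cast; ring
  rw [e3] at a1
  have a4 : c / (15 * Module.finrank ℚ F) * (((g₁ : ℝ) * g₂) ^ 2 * (-(E : ℝ))) ^ (1 / 2 - ε) ≤
      (orb2 F (jInv (τ k)) (jInv (τ l))).ncard := by
    rw [div_mul_eq_mul_div, div_le_iff₀ (by positivity)]
    linarith
  have a5 : (A.ncard : ℝ) * (orb2 F (jInv (τ k)) (jInv (τ l))).ncard ≤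
      S.ncard * (galOrbit F fun k => jInv (τ k)).ncard := by
    exact_mod_cast (Nat.mul_le_mul_right _ (Set.ncard_le_ncard (fun z hz => hA z hz)
      (hO.subset fun z hz => hz.1))).trans (frac_le hO k l hS)
  refine le_of_mul_le_mul_right (a5.trans ?_) hpos
  have a6 := mul_le_mul_of_nonneg_right (hcard.trans (mul_le_mul_of_nonneg_left a4 hδ))
    (Nat.cast_nonneg (α := ℝ) (galOrbit F fun k => jInv (τ k)).ncard)
  linarith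

/-- The comparison of the two powers. -/
theorem ctg_pow {C P c₀ δ X N ε t : ℝ} (hC : 0 ≤ C) (hc : 0 < c₀) (hδ : 0 < δ) (hX : 0 < X)
    (hP : 0 ≤ P) (hN : N ≤ P * X ^ (-(2 * t))) (hK : C * Real.sqrt P / (δ * c₀) ≤ X ^ (t - 2 * ε)) :
    C * X ^ (1 / 2 + ε) * Real.sqrt N ≤ δ * (c₀ * X ^ (1 / 2 - ε)) := by
  have h1 : Real.sqrt N ≤ Real.sqrt P * X ^ (-t) := by
    refine (Real.sqrt_le_sqrt hN).trans (le_of_eq ?_)
    rw [Real.sqrt_mul hP, Real.sqrt_eq_rpow (X ^ _), ← Real.rpow_mul hX.le]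
    congr 2; ring
  rw [div_le_iff₀ (by positivity)] at hK
  have h2 : X ^ (1 / 2 - ε) = X ^ (t - 2 * ε) * (X ^ (1 / 2 + ε) * X ^ (-t)) := by
    rw [← Real.rpow_add hX, ← Real.rpow_add hX]; congr 1; ring
  have h3 := mul_le_mul_of_nonneg_left h1 (show 0 ≤ C * X ^ (1 / 2 + ε) by positivity)
  have h4 := mul_le_mul_of_nonneg_right hK (show 0 ≤ X ^ (1 / 2 + ε) * X ^ (-t) by positivity)
  rw [h2]
  linarith

variable (p : ℕ) [Fact p.Prime]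

theorem frac_bad1 (F : IntermediateField ℚ ℂ) [FiniteDimensional ℚ F] (C : ℝ) (c : ℕ) {η δ : ℝ}
    (hη : 0 < η) (hδ : 0 < δ) : ∃ Y : ℝ, ∀ (n : ℕ) (τ : Fin n → ℍ) (D : Fin n → ℤ),
      (∀ k, HasDisc (τ k) (D k)) → ∀ k, D k < -576 → Y ≤ -(D k : ℝ) →
      ‖(D k : ℚ_[p])‖ ≤ (p : ℝ) ^ c * (-(D k : ℝ)) ^ (-η) →
      ({z | z ∈ (galOrbit F fun k => jInv (τ k)) ∧ Bad1 p C (D k) (z k)}.ncard : ℝ) ≤
        δ * (galOrbit F fun k => jInv (τ k)).ncard := by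
  have hε : 0 < η / 8 := by positivity
  obtain ⟨c₀, hc₀, hcore⟩ := ctg_core F hε
  obtain ⟨C', hC', hbad⟩ := card_bad1 p C hε
  obtain ⟨Y, hY⟩ := ctg_num (C' * Real.sqrt ((p : ℝ) ^ c) / (δ * c₀))
    (show 0 < η / 2 - 2 * (η / 8) by linarith)
  refine ⟨Y, fun n τ D hτ k hk hYk hp => ?_⟩
  have hD : D k < 0 := by omega
  have hX : (0 : ℝ) < -(D k : ℝ) := by exact_mod_cast neg_pos.2 hD
  obtain ⟨hfin, hcard⟩ := hbad _ hD
  refine hcore n τ D hτ k k (D k) 1 1 (hτ k).isD (Nat.coprime_one_left 1) one_pos one_pos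
    (by simp) (by simp) hk hk ((fun z => (z, z)) '' {z | Bad1 p C (D k) z}) (hfin.image _) δ hδ.le
    ?_ _ fun z hz => ⟨hz.1, z k, hz.2, rfl⟩
  have h1 : (((fun z => (z, z)) '' {z | Bad1 p C (D k) z}).ncard : ℝ) ≤
      {z | Bad1 p C (D k) z}.ncard := by exact_mod_cast Set.ncard_image_le hfin
  rw [Nat.cast_one, one_mul, one_pow, one_mul]
  exact h1.trans (hcard.trans (ctg_pow hC'.le hc₀ hδ hX (by positivity)
    (by rwa [show 2 * (η / 2) = η by ring]) (hY _ hYk)))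

/-- Both relative conductors have bounded valuation. -/
theorem ctg_unit {c g₁ g₂ : ℕ} (hg : Nat.Coprime g₁ g₂)
    (h : ‖(g₂ : ℚ_[p])‖ ≤ (p : ℝ) ^ c * ‖(g₁ : ℚ_[p])‖) : (p : ℝ) ^ (-(c : ℤ)) ≤ ‖(g₁ : ℚ_[p])‖ := by
  have hp : p.Prime := Fact.out
  have hp1 : (1 : ℝ) ≤ p := by exact_mod_cast hp.one_lt.le
  have hu : ∀ g : ℕ, ¬ p ∣ g → ‖(g : ℚ_[p])‖ = 1 := fun g h =>
    Padic.norm_natCast_eq_one_iff.2 ((Nat.Prime.coprime_iff_not_dvd hp).2 h)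
  rw [zpow_neg, zpow_natCast]
  by_cases h1 : p ∣ g₁
  · have h2 : ¬ p ∣ g₂ := fun h2 => hp.one_lt.ne' (Nat.eq_one_of_dvd_coprimes hg h1 h2)
    rw [hu g₂ h2] at h
    rwa [inv_le_iff_one_le_mul₀' (by positivity)]
  · rw [hu g₁ h1]
    exact inv_le_one_of_one_le₀ (one_le_pow₀ hp1)

theorem frac_bad2 (F : IntermediateField ℚ ℂ) [FiniteDimensional ℚ F] {m : ℤ} (hm : m ≠ 0)
    (c c' : ℕ) {η δ : ℝ} (hη : 0 < η) (hδ : 0 < δ) : ∃ Y : ℝ, ∀ (n : ℕ) (τ : Fin n → ℍ)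
      (D : Fin n → ℤ), (∀ k, HasDisc (τ k) (D k)) → ∀ (k l : Fin n) (ρ₁ ρ₂ : ℚ), D k < -576 →
      D l < -576 → 0 < ρ₁ → 0 < ρ₂ → ρ₁ ^ 2 * D k = ρ₂ ^ 2 * D l →
      ‖(ρ₁ : ℚ_[p])‖ ≤ (p : ℝ) ^ c * ‖(ρ₂ : ℚ_[p])‖ → ‖(ρ₂ : ℚ_[p])‖ ≤ (p : ℝ) ^ c * ‖(ρ₁ : ℚ_[p])‖ →
      Y ≤ -(D k : ℝ) → ‖(D k : ℚ_[p])‖ ≤ (p : ℝ) ^ c * (-(D k : ℝ)) ^ (-η) →
      ‖(D k : ℚ_[p])‖ ≤ (p : ℝ) ^ c * (-(D l : ℝ)) ^ (-η) →
      ({z | z ∈ (galOrbit F fun k => jInv (τ k)) ∧ ∃ M₁ M₂, DiscL M₁ (D k) ∧ DiscL M₂ (D l) ∧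
        jL M₁ = z k ∧ jL M₂ = z l ∧ Bad2 p m c' (D k) (D l) M₁ M₂}.ncard : ℝ) ≤
        δ * (galOrbit F fun k => jInv (τ k)).ncard := by
  have hε : 0 < η / 16 := by positivity
  have hp1 : (1 : ℝ) ≤ p := by exact_mod_cast (Fact.out : p.Prime).one_lt.le
  obtain ⟨c₀, hc₀, hcore⟩ := ctg_core F hε
  obtain ⟨C, hC, hex⟩ := card_Ex2 p hm (c + c') hε
  obtain ⟨Y, hY⟩ := ctg_num (2 * C * Real.sqrt ((p : ℝ) ^ (3 * c)) / (δ * c₀))
    (show 0 < η / 4 - 2 * (η / 16) by linarith)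
  refine ⟨Y, fun n τ D hτ k l ρ₁ ρ₂ hk hl h₁ h₂ hρ n₁ n₂ hYk hpk hpl => ?_⟩
  obtain ⟨E, g₁, g₂, hE, p₁, p₂, hg, e₁, e₂, hr⟩ := split_disc (hτ k).isD (hτ l).isD h₁ h₂ hρ
  have hn : ‖(ρ₁ : ℚ_[p])‖ * ‖(g₁ : ℚ_[p])‖ = ‖(ρ₂ : ℚ_[p])‖ * ‖(g₂ : ℚ_[p])‖ := by
    rw [← norm_mul, ← norm_mul]
    exact congrArg _ (by exact_mod_cast congrArg (fun q : ℚ => (q : ℚ_[p])) hr)
  have r₁ : 0 < ‖(ρ₁ : ℚ_[p])‖ := norm_pos_iff.2 (by exact_mod_cast h₁.ne')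
  have r₂ : 0 < ‖(ρ₂ : ℚ_[p])‖ := norm_pos_iff.2 (by exact_mod_cast h₂.ne')
  have u₁ : (p : ℝ) ^ (-(c : ℤ)) ≤ ‖(g₁ : ℚ_[p])‖ := ctg_unit p hg (le_of_mul_le_mul_left (by
    have := mul_le_mul_of_nonneg_right n₁ (norm_nonneg (g₁ : ℚ_[p]))
    linarith) r₂)
  have u₂ : (p : ℝ) ^ (-(c : ℤ)) ≤ ‖(g₂ : ℚ_[p])‖ := ctg_unit p hg.symm (le_of_mul_le_mul_left (by
    have := mul_le_mul_of_nonneg_right n₂ (norm_nonneg (g₂ : ℚ_[p]))
    linarith) r₁)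
  have hcc : (p : ℝ) ^ (-((c + c' : ℕ) : ℤ)) ≤ (p : ℝ) ^ (-(c : ℤ)) :=
    zpow_le_zpow_right₀ hp1 (by push_cast; omega)
  have hb := hex E g₁ g₂ hE hg (hcc.trans u₁) (hcc.trans u₂)
  obtain ⟨w, w', hw⟩ := orbit_classes hE hg (e₁ ▸ discL_one (hτ k)) (e₂ ▸ discL_one (hτ l))
    (e₁ ▸ hk) (e₂ ▸ hl)
  rw [← e₁, ← e₂] at hb
  refine hcore n τ D hτ k l E g₁ g₂ hE hg p₁ p₂ e₁ e₂ hk hl
    (Ex2 p m (c + c') (D k) (D l) w ∪ Ex2 p m (c + c') (D k) (D l) w')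
    ((Ex2_finite p _ _ _ _ _).union (Ex2_finite p _ _ _ _ _)) δ hδ.le ?_ _ ?_
  · set X := ((g₁ : ℝ) * g₂) ^ 2 * (-(E : ℝ)) with hX
    have hE1 : (1 : ℝ) ≤ -(E : ℝ) := by exact_mod_cast (by have := hE.1; omega : (1 : ℤ) ≤ -E)
    have q₁ : (1 : ℝ) ≤ (g₁ : ℝ) ^ 2 := one_le_pow₀ (by exact_mod_cast p₁)
    have q₂ : (1 : ℝ) ≤ (g₂ : ℝ) ^ 2 := one_le_pow₀ (by exact_mod_cast p₂)
    have d₁ : -(D k : ℝ) = (g₁ : ℝ) ^ 2 * (-(E : ℝ)) := by rw [e₁]; push_cast; ring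
    have d₂ : -(D l : ℝ) = (g₂ : ℝ) ^ 2 * (-(E : ℝ)) := by rw [e₂]; push_cast; ring
    have k₁ : 0 < -(D k : ℝ) := by rw [d₁]; positivity
    have k₂ : 0 < -(D l : ℝ) := by rw [d₂]; positivity
    have x₁ : -(D k : ℝ) ≤ X := by
      rw [d₁, hX, mul_pow, mul_right_comm]
      exact le_mul_of_one_le_right (by positivity) q₂
    have pX : 0 < X := k₁.trans_le x₁
    have x₂ : X ≤ -(D k : ℝ) * -(D l : ℝ) := by
      rw [d₁, d₂, mul_mul_mul_comm, ← mul_assoc, ← mul_pow, ← hX]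
      exact le_mul_of_one_le_right pX.le hE1
    have y₁ : ‖(D k : ℚ_[p])‖ ≤ (p : ℝ) ^ c * X ^ (-(η / 2)) := by
      refine le_of_sq_le_sq ?_ (by positivity)
      have y₂ : (-(D k : ℝ)) ^ (-η) * (-(D l : ℝ)) ^ (-η) ≤ (X ^ (-(η / 2))) ^ 2 := by
        rw [← Real.mul_rpow k₁.le k₂.le, ← Real.rpow_natCast, ← Real.rpow_mul pX.le,
          show -(η / 2) * ((2 : ℕ) : ℝ) = -η by push_cast; ring]
        exact Real.rpow_le_rpow_of_nonpos pX x₂ (by linarith)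
      have y₃ := mul_le_mul hpk hpl (norm_nonneg _) (by positivity)
      have y₄ := mul_le_mul_of_nonneg_left y₂ (sq_nonneg ((p : ℝ) ^ c))
      rw [mul_pow]
      linarith
    have y₅ : ‖(E : ℚ_[p])‖ ≤ (p : ℝ) ^ (3 * c) * X ^ (-(2 * (η / 4))) := by
      have z₁ : ‖(D k : ℚ_[p])‖ = ‖(g₁ : ℚ_[p])‖ ^ 2 * ‖(E : ℚ_[p])‖ := by
        rw [e₁]; push_cast; rw [norm_mul, norm_pow]
      rw [zpow_neg, zpow_natCast, inv_le_iff_one_le_mul₀' (by positivity)] at u₁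
      have z₂ := mul_le_mul_of_nonneg_right (one_le_pow₀ (n := 2) u₁) (norm_nonneg (E : ℚ_[p]))
      have z₃ := mul_le_mul_of_nonneg_left y₁ (sq_nonneg ((p : ℝ) ^ c))
      rw [show 2 * (η / 4) = η / 2 by ring, show (p : ℝ) ^ (3 * c) = ((p : ℝ) ^ c) ^ 3 by ring]
      rw [z₁] at z₃
      linarith
    have h3 : ((Ex2 p m (c + c') (D k) (D l) w ∪ Ex2 p m (c + c') (D k) (D l) w').ncard : ℝ) ≤
        (Ex2 p m (c + c') (D k) (D l) w).ncard + (Ex2 p m (c + c') (D k) (D l) w').ncard := by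
      exact_mod_cast Set.ncard_union_le _ _
    have h4 := ctg_pow (by positivity) hc₀ hδ pX (by positivity) y₅ (hY _ (hYk.trans x₁))
    linarith [hb w, hb w']
  · rintro z ⟨hz, M₁, M₂, m₁, m₂, j₁, j₂, hbad⟩
    refine ⟨hz, ?_⟩
    obtain ⟨σ, -, rfl⟩ := hz
    exact (hw σ M₁ M₂ m₁.isLat m₂.isLat (by rw [j₁, jL_one]) (by rw [j₂, jL_one])).imp
      (fun h => ⟨M₁, M₂, m₁, m₂, j₁, j₂, h, hbad.mono p (Nat.le_add_left _ _)⟩)
      fun h => ⟨M₁, M₂, m₁, m₂, j₁, j₂, h, hbad.mono p (Nat.le_add_left _ _)⟩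

end Pool.Agent.EQ
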