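import Pool.Agent.P.MP_ad7a55_nt.Avg2
import Pool.Agent.P.MP_ad7a55_nt.Weak2

/-! Generic points and the ergodic decomposition. -/

set_option autoImplicit false

noncomputable section

open MeasureTheory Topology Filter UpperHalfPlane
open scoped MatrixGroups ENNReal BoundedContinuousFunction

namespace Pool.Agent.EQ

variable {p : ℕ} [Fact p.Prime] {W : Type} [TopologicalSpace W] [PolishSpace W] [MeasurableSpace W]
  [BorelSpace W] (φ : Flow ℚ_[p] W)

/-- `w` is generic for `ρ`. -/
def Gen (ρ : Measure W) (w : W) : Prop := WT atTop (fun k : ℕ => orb φ k w) ρ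

/-- Almost every point is generic. -/
def Erg (ρ : Measure W) : Prop := ∀ᵐ w ∂ρ, Gen φ ρ w

variable {φ}

theorem dec_ev (s : ℚ_[p]) : ∀ᶠ k : ℕ in atTop, ‖s‖ ≤ (p : ℝ) ^ (k : ℤ) := by
  have hp : (1 : ℝ) < p := by exact_mod_cast (Fact.out : p.Prime).one_lt
  have := (tendsto_pow_atTop_atTop_of_one_lt hp).eventually_ge_atTop ‖s‖
  simpa using this

/-- A countable basis of open sets that is stable under intersections. -/
def DecB (B : ℕ → Set W) : Prop :=
  IsPiSystem (Set.range B) ∧ (∀ n, IsOpen (B n)) ∧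
    ∀ u, IsOpen u → ∀ x ∈ u, ∃ n, x ∈ B n ∧ B n ⊆ u

omit [MeasurableSpace W] [BorelSpace W] in
theorem dec_basis : ∃ B : ℕ → Set W, DecB B := by
  obtain ⟨b, hbc, -, hb⟩ := TopologicalSpace.exists_countable_basis W
  have hc : (Set.sInter '' {T : Set (Set W) | T.Finite ∧ T ⊆ b}).Countable :=
    (Set.countable_ofPred_finite_subset hbc).image _
  obtain ⟨B, hB⟩ := hc.exists_eq_range ⟨_, ∅, ⟨Set.finite_empty, Set.empty_subset _⟩, rfl⟩
  refine ⟨B, ?_, fun n => ?_, fun u hu x hx => ?_⟩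
  · rw [← hB]
    rintro _ ⟨T, hT, rfl⟩ _ ⟨T', hT', rfl⟩ -
    exact ⟨T ∪ T', ⟨hT.1.union hT'.1, Set.union_subset hT.2 hT'.2⟩, Set.sInter_union _ _⟩
  · obtain ⟨T, hT, h⟩ : B n ∈ Set.sInter '' {T : Set (Set W) | T.Finite ∧ T ⊆ b} :=
      hB ▸ Set.mem_range_self n
    rw [← h]
    exact hT.1.isOpen_sInter fun t ht => hb.isOpen (hT.2 ht)
  · obtain ⟨v, hv, hxv, hvu⟩ := hb.exists_subset_of_mem_open hx hu
    obtain ⟨n, hn⟩ : v ∈ Set.range B :=
      hB ▸ ⟨{v}, ⟨Set.finite_singleton v, Set.singleton_subset_iff.2 hv⟩, Set.sInter_singleton v⟩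
    exact ⟨n, hn ▸ hxv, hn ▸ hvu⟩

theorem dec_WT {B : ℕ → Set W} (hB : DecB B) {μ : ℕ → Measure W}
    [∀ i, IsProbabilityMeasure (μ i)] {ν : Measure W} [IsProbabilityMeasure ν]
    (h : ∀ n, Tendsto (fun k => μ k (B n)) atTop (𝓝 (ν (B n)))) : WT atTop μ ν := by
  let μ' : ℕ → ProbabilityMeasure W := fun k => ⟨μ k, inferInstance⟩
  let ν' : ProbabilityMeasure W := ⟨ν, inferInstance⟩
  have h1 : Tendsto μ' atTop (𝓝 ν') := by
    refine hB.1.tendsto_probabilityMeasure_of_tendsto_of_mem ?_ ?_ ?_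
    · rintro _ ⟨n, rfl⟩
      exact (hB.2.1 n).measurableSet
    · intro u hu x hx
      obtain ⟨n, h1, h2⟩ := hB.2.2 u hu x hx
      exact ⟨B n, ⟨n, rfl⟩, (hB.2.1 n).mem_nhds h1, h2⟩
    · rintro _ ⟨n, rfl⟩
      exact (ENNReal.tendsto_toNNReal (measure_ne_top ν (B n))).comp (h n)
  exact ProbabilityMeasure.tendsto_iff_forall_integral_tendsto.1 h1

theorem dec_ext {B : ℕ → Set W} (hB : DecB B) {μ ν : Measure W} [IsProbabilityMeasure μ]
    [IsProbabilityMeasure ν] (h : ∀ n, μ (B n) = ν (B n)) : μ = ν := by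
  have h1 : WT atTop (fun _ : ℕ => μ) ν := dec_WT hB fun n => by
    rw [h n]; exact tendsto_const_nhds
  have h2 : WT atTop (fun _ : ℕ => μ) μ := fun _ => tendsto_const_nhds
  exact WT.unique h2 h1

omit [PolishSpace W] in
theorem dec_meas_flow (φ : Flow ℚ_[p] W) (s : ℚ_[p]) : Measurable (φ s) :=
  (φ.continuous continuous_const continuous_id).measurable

theorem dec_meas_orb (φ : Flow ℚ_[p] W) (k : ℤ) {U : Set W} (hU : MeasurableSet U) :
    Measurable fun w => orb φ k w U :=
  (Measure.measurable_coe hU).comp (measurable_orb φ k)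

/-- The upper frequencies of visits to the sets of the basis. -/
def decPhi (φ : Flow ℚ_[p] W) (B : ℕ → Set W) (w : W) (n : ℕ) : ℝ≥0∞ :=
  limsup (fun k : ℕ => orb φ k w (B n)) atTop

theorem decPhi_meas {B : ℕ → Set W} (hB : DecB B) : Measurable (decPhi φ B) :=
  measurable_pi_lambda _ fun n =>
    Measurable.limsup fun k => dec_meas_orb φ k (hB.2.1 n).measurableSet

theorem decPhi_flow (B : ℕ → Set W) (s : ℚ_[p]) (w : W) :
    decPhi φ B (φ s w) = decPhi φ B w := by
  funext n
  refine limsup_congr ?_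
  filter_upwards [dec_ev s] with k hk
  rw [orb_flow φ hk]

/-- The points where all the frequencies exist. -/
def decG (φ : Flow ℚ_[p] W) (B : ℕ → Set W) : Set W :=
  {w | ∀ n, liminf (fun k : ℕ => orb φ k w (B n)) atTop = decPhi φ B w n}

theorem decG_meas {B : ℕ → Set W} (hB : DecB B) : MeasurableSet (decG φ B) := by
  have : decG φ B = ⋂ n, {w | liminf (fun k : ℕ => orb φ k w (B n)) atTop = decPhi φ B w n} := by
    ext w; simp [decG]
  rw [this]
  refine MeasurableSet.iInter fun n => measurableSet_eq_fun ?_ ?_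
  · exact Measurable.liminf fun k => dec_meas_orb φ k (hB.2.1 n).measurableSet
  · exact (measurable_pi_apply n).comp (decPhi_meas hB)

omit [PolishSpace W] [BorelSpace W] in
theorem decG_tendsto {B : ℕ → Set W} {w : W} (hw : w ∈ decG φ B) (n : ℕ) :
    Tendsto (fun k : ℕ => orb φ k w (B n)) atTop (𝓝 (decPhi φ B w n)) :=
  tendsto_of_liminf_eq_limsup (hw n) rfl

theorem decG_ae {B : ℕ → Set W} (hB : DecB B) {ν : Measure W} [IsFiniteMeasure ν]
    (hν : Inv φ ν) : ∀ᵐ w ∂ν, w ∈ decG φ B := by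
  refine ae_all_iff.2 fun n => ?_
  filter_upwards [Inv.ae_conv φ hν (hB.2.1 n).measurableSet] with w ⟨c, hc⟩
  have h1 : Tendsto (fun k : ℕ => orb φ k w (B n)) atTop (𝓝 (ENNReal.ofReal c)) := by
    refine (ENNReal.tendsto_ofReal hc).congr fun k => ?_
    exact ofReal_measureReal (measure_ne_top _ _)
  rw [h1.liminf_eq]
  exact h1.limsup_eq.symm

omit [PolishSpace W] in
theorem dec_restrict {ν : Measure W} (hν : Inv φ ν) {E : Set W} (hE : MeasurableSet E)
    (h : ∀ s, φ s ⁻¹' E = E) : Inv φ (ν.restrict E) := by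
  intro s
  have := Measure.restrict_map (μ := ν) (dec_meas_flow φ s) hE
  rw [hν s, h s] at this
  exact this.symm

theorem dec_freq {B : ℕ → Set W} (hB : DecB B) {ν : Measure W} [IsFiniteMeasure ν]
    (hν : Inv φ ν) (n : ℕ) : ∫⁻ w, decPhi φ B w n ∂ν = ν (B n) := by
  have hm := (hB.2.1 n).measurableSet
  have h1 : ∀ k : ℕ, ∫⁻ w, orb φ k w (B n) ∂ν = ν (B n) := fun k => by
    rw [← Measure.bind_apply hm (measurable_orb φ k).aemeasurable, Inv.bind_orb φ hν]
  have h2 := tendsto_lintegral_of_dominated_convergence (μ := ν)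
    (F := fun (k : ℕ) w => orb φ k w (B n)) (f := fun w => decPhi φ B w n) (fun _ => 1)
    (fun k => dec_meas_orb φ k hm) (fun k => Eventually.of_forall fun w => prob_le_one)
    (by simp) ((decG_ae hB hν).mono fun w hw => decG_tendsto hw n)
  simp only [h1] at h2
  exact tendsto_nhds_unique h2 tendsto_const_nhds


theorem Gen.inv {ρ : Measure W} [IsProbabilityMeasure ρ] {w : W} (h : Gen φ ρ w) : Inv φ ρ := by
  intro s
  have h1 := WT.map h (φ.continuous (continuous_const (y := s)) continuous_id)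
  have : IsProbabilityMeasure (ρ.map (φ s)) :=
    Measure.isProbabilityMeasure_map (dec_meas_flow φ s).aemeasurable
  have h2 : WT atTop (fun k : ℕ => orb φ k w) (ρ.map (φ s)) := fun f => by
    refine (h1 f).congr' ?_
    filter_upwards [dec_ev s] with k hk
    exact congrArg (fun μ : Measure W => ∫ x, f x ∂μ) (map_orb φ hk w)
  exact WT.unique h2 h

theorem Erg.inv {ρ : Measure W} [IsProbabilityMeasure ρ] (h : Erg φ ρ) : Inv φ ρ := by
  obtain ⟨w, hw⟩ := Filter.Eventually.exists h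
  exact hw.inv

theorem Gen.map {W' : Type} [TopologicalSpace W'] [PolishSpace W'] [MeasurableSpace W']
    [BorelSpace W'] (ψ : Flow ℚ_[p] W') {F : W → W'} (hF : Continuous F)
    (hc : ∀ s w, F (φ s w) = ψ s (F w)) {ρ : Measure W} {w : W} (h : Gen φ ρ w) :
    Gen ψ (ρ.map F) (F w) := by
  have h1 := WT.map h hF
  have h2 : ∀ k : ℤ, (orb φ k w).map F = orb ψ k (F w) := fun k => by
    unfold orb
    rw [Measure.map_map hF.measurable (measurable_flow φ w)]
    congr 1
    funext s
    exact hc s w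
  simp only [h2] at h1
  exact h1

theorem Gen.unique {ρ ρ' : Measure W} [IsProbabilityMeasure ρ] [IsProbabilityMeasure ρ'] {w : W}
    (h : Gen φ ρ w) (h' : Gen φ ρ' w) : ρ = ρ' := WT.unique h h'

/-- The ergodic decomposition. -/
theorem decomp (ν : Measure W) [IsProbabilityMeasure ν] (hν : Inv φ ν) :
    ∃ ρ : ProbabilityTheory.Kernel W W, ProbabilityTheory.IsMarkovKernel ρ ∧ ν.bind ρ = ν ∧
      ∀ᵐ w ∂ν, Gen φ (ρ w) w ∧ Erg φ (ρ w) := by
  have : Nonempty W := nonempty_of_isProbabilityMeasure ν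
  obtain ⟨B, hB⟩ := dec_basis (W := W)
  have hΦ : Measurable (decPhi φ B) := decPhi_meas hB
  set κ := ProbabilityTheory.condDistrib id (decPhi φ B) ν with hκ
  have h1 : ∀ᵐ y ∂ν.map (decPhi φ B), ∀ n, κ y (B n) = y n := by
    refine ae_all_iff.2 fun n => ?_
    have hm := (hB.2.1 n).measurableSet
    refine ae_eq_of_forall_setLIntegral_eq_of_sigmaFinite (κ.measurable_coe hm)
      (measurable_pi_apply n) fun C hC _ => ?_
    rw [Measure.restrict_map hΦ hC, lintegral_map (κ.measurable_coe hm) hΦ,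
      lintegral_map (measurable_pi_apply n) hΦ, hκ,
      ProbabilityTheory.setLIntegral_preimage_condDistrib hΦ aemeasurable_id hm hC,
      dec_freq hB (dec_restrict hν (hΦ hC) fun s => ?_) n, Measure.restrict_apply hm,
      Set.inter_comm, Set.preimage_id]
    ext w
    simp only [Set.mem_preimage, decPhi_flow]
  have h2 : ∀ᵐ y ∂ν.map (decPhi φ B), ∀ᵐ x ∂κ y, (∀ n, decPhi φ B x n = y n) ∧ x ∈ decG φ B := by
    refine Measure.ae_ae_of_ae_compProd
      (p := fun q : (ℕ → ℝ≥0∞) × W => (∀ n, decPhi φ B q.2 n = q.1 n) ∧ q.2 ∈ decG φ B) ?_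
    rw [hκ, ProbabilityTheory.compProd_map_condDistrib aemeasurable_id]
    refine (ae_map_iff (hΦ.prodMk measurable_id).aemeasurable ?_).2 ?_
    · refine MeasurableSet.inter ?_ (measurable_snd (decG_meas hB))
      have : {q : (ℕ → ℝ≥0∞) × W | ∀ n, decPhi φ B q.2 n = q.1 n} =
          ⋂ n, {q : (ℕ → ℝ≥0∞) × W | decPhi φ B q.2 n = q.1 n} := by
        ext q; simp
      change MeasurableSet {q : (ℕ → ℝ≥0∞) × W | ∀ n, decPhi φ B q.2 n = q.1 n}
      rw [this]
      exact MeasurableSet.iInter fun n => measurableSet_eq_fun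
        ((measurable_pi_apply n).comp (hΦ.comp measurable_snd))
        ((measurable_pi_apply n).comp measurable_fst)
    · filter_upwards [decG_ae hB hν] with w hw
      exact ⟨fun _ => rfl, hw⟩
  have h3 : ∀ y x, (∀ n, κ y (B n) = y n) → (∀ n, decPhi φ B x n = y n) → x ∈ decG φ B →
      Gen φ (κ y) x := fun y x hy hx hG =>
    dec_WT hB fun n => by
      rw [hy n, ← hx n]
      exact decG_tendsto hG n
  refine ⟨κ.comap _ hΦ, inferInstance, ?_, ?_⟩
  · ext U hU
    rw [Measure.bind_apply hU (κ.comap _ hΦ).measurable.aemeasurable]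
    have := ProbabilityTheory.setLIntegral_preimage_condDistrib (μ := ν) hΦ aemeasurable_id hU
      MeasurableSet.univ
    simpa using this
  · filter_upwards [ae_of_ae_map hΦ.aemeasurable h1, ae_of_ae_map hΦ.aemeasurable h2,
      decG_ae hB hν] with w hw1 hw2 hw3
    rw [ProbabilityTheory.Kernel.comap_apply]
    exact ⟨h3 _ _ hw1 (fun _ => rfl) hw3, hw2.mono fun x hx => h3 _ _ hw1 hx.1 hx.2⟩

theorem erg_of_ext (m : Measure W) [IsProbabilityMeasure m] (hm : Inv φ m)
    (h : ∀ μ : Measure W, μ ≤ m → Inv φ μ → μ = μ Set.univ • m) : Erg φ m := by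
  obtain ⟨ρ, hρ, hb, hae⟩ := decomp m hm
  obtain ⟨B, hB⟩ := dec_basis (W := W)
  have h1 : ∀ C, MeasurableSet C → (m.restrict C).bind ρ = m C • m := fun C hC => by
    have h2 : (m.restrict C).bind ρ ≤ m := by
      refine Measure.le_iff.2 fun U hU => ?_
      conv_rhs => rw [← hb]
      rw [Measure.bind_apply hU ρ.measurable.aemeasurable,
        Measure.bind_apply hU ρ.measurable.aemeasurable]
      exact lintegral_mono' Measure.restrict_le_self le_rfl
    have h3 : Inv φ ((m.restrict C).bind ρ) := fun s => by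
      ext U hU
      have hU' := dec_meas_flow φ s hU
      rw [Measure.map_apply (dec_meas_flow φ s) hU,
        Measure.bind_apply hU ρ.measurable.aemeasurable,
        Measure.bind_apply hU' ρ.measurable.aemeasurable]
      refine lintegral_congr_ae (ae_restrict_of_ae ?_)
      filter_upwards [hae] with w hw
      rw [← Measure.map_apply (dec_meas_flow φ s) hU, hw.1.inv s]
    have h4 := h _ h2 h3
    rw [Measure.bind_apply MeasurableSet.univ ρ.measurable.aemeasurable] at h4
    simpa using h4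
  have h5 : ∀ᵐ w ∂m, ∀ n, ρ w (B n) = m (B n) := by
    refine ae_all_iff.2 fun n => ?_
    have hn := (hB.2.1 n).measurableSet
    refine ae_eq_of_forall_setLIntegral_eq_of_sigmaFinite (ρ.measurable_coe hn)
      measurable_const fun C hC _ => ?_
    rw [← Measure.bind_apply hn ρ.measurable.aemeasurable, h1 C hC]
    simp [mul_comm]
  filter_upwards [hae, h5] with w hw hw5
  rw [← dec_ext hB hw5]
  exact hw.1

theorem Erg.l1 {m : Measure W} [IsProbabilityMeasure m] (hm : Erg φ m) (f : W →ᵇ ℝ) :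
    Tendsto (fun k : ℕ => ∫ w, |∫ x, f x ∂orb φ k w - ∫ x, f x ∂m| ∂m) atTop (𝓝 0) := by
  have hb : ∀ (μ : Measure W) [IsProbabilityMeasure μ], |∫ x, f x ∂μ| ≤ ‖f‖ := fun μ _ => by
    simpa using f.norm_integral_le_norm μ
  have := tendsto_integral_of_dominated_convergence (μ := m)
    (F := fun (k : ℕ) w => |∫ x, f x ∂orb φ k w - ∫ x, f x ∂m|) (f := fun _ => (0 : ℝ))
    (fun _ => ‖f‖ + ‖f‖)
    (fun k => ((continuous_integral_orb φ k f).sub continuous_const).abs.aestronglyMeasurable)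
    (integrable_const _) (fun k => Eventually.of_forall fun w => by
      rw [Real.norm_eq_abs, abs_abs]
      exact (abs_sub _ _).trans (add_le_add (hb _) (hb _))) ?_
  · simpa using this
  · filter_upwards [hm] with w hw
    have := ((hw f).sub_const (∫ x, f x ∂m)).abs
    simpa using this

end Pool.Agent.EQ
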