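import Mathlib

/-! Statement layer: the j-function, discriminants of CM points, Galois orbits, the measure. -/

set_option autoImplicit false

noncomputable section

open UpperHalfPlane MeasureTheory

namespace Pool.Agent.EQ

/-- Klein's modular invariant `j = E₄³ / Δ`; it identifies `Y(1) = SL₂(ℤ)\ℍ` with `ℂ`. -/
def jInv (τ : ℍ) : ℂ := ModularForm.E₄ τ ^ 3 / ModularForm.discriminant τ

/-- `τ` is a CM point of discriminant `D`: a root of a primitive integral quadratic
`a τ² + b τ + c` with `D = b² - 4ac`. -/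
def HasDisc (τ : ℍ) (D : ℤ) : Prop :=
  ∃ a b c : ℤ, 0 < a ∧ Int.gcd (Int.gcd a b) c = 1 ∧
    (a : ℂ) * (τ : ℂ) ^ 2 + b * τ + c = 0 ∧ D = b ^ 2 - 4 * a * c

/-- The orbit of a point of `ℂⁿ` under the field automorphisms of `ℂ` that fix `F` pointwise. -/
def galOrbit {n : ℕ} (F : IntermediateField ℚ ℂ) (x : Fin n → ℂ) : Set (Fin n → ℂ) :=
  {y | ∃ σ : ℂ ≃+* ℂ, (∀ a ∈ F, σ a = a) ∧ y = fun k => σ (x k)}

/-- The normalised hyperbolic measure of `Y(1)` in the coordinate `j`: the hyperbolic area
`dx dy / y²` on the standard fundamental domain, normalised to mass one, pushed forward by `j`. -/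
def mY : Measure ℂ := (ProbabilityTheory.cond (volume : Measure ℍ) ModularGroup.fd).map jInv

end Pool.Agent.EQ
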