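import Pool.Agent.P.MP_ad7a55_nt.Grp

/-! Subgroups of SL₂(ℝ) × SL₂(ℝ) with full first projection. -/

set_option autoImplicit false

noncomputable section

open MeasureTheory Topology Filter UpperHalfPlane
open scoped MatrixGroups ENNReal BoundedContinuousFunction

namespace Pool.Agent.EQ

/-- A matrix that commutes with a nonscalar matrix is a polynomial in it. -/
theorem di_par {X Y : Matrix (Fin 2) (Fin 2) ℝ} (hX : X 0 1 ≠ 0 ∨ X 1 0 ≠ 0 ∨ X 0 0 ≠ X 1 1)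
    (h : X * Y = Y * X) : ∃ α χ : ℝ, Y = α • (1 : Matrix (Fin 2) (Fin 2) ℝ) + χ • X := by
  have e00 := congrFun (congrFun h 0) 0
  have e01 := congrFun (congrFun h 0) 1
  have e10 := congrFun (congrFun h 1) 0
  simp only [Matrix.mul_apply, Fin.sum_univ_two] at e00 e01 e10
  have key : ∃ χ : ℝ, Y 0 1 = χ * X 0 1 ∧ Y 1 0 = χ * X 1 0 ∧
      Y 0 0 - Y 1 1 = χ * (X 0 0 - X 1 1) := by
    rcases hX with hX | hX | hX
    · refine ⟨Y 0 1 / X 0 1, ?_, ?_, ?_⟩ <;> field_simp <;> linarith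
    · refine ⟨Y 1 0 / X 1 0, ?_, ?_, ?_⟩ <;> field_simp <;> linarith
    · have hX' := sub_ne_zero.2 hX
      refine ⟨(Y 0 0 - Y 1 1) / (X 0 0 - X 1 1), ?_, ?_, ?_⟩ <;> field_simp <;> linarith
  obtain ⟨χ, h1, h2, h3⟩ := key
  refine ⟨Y 0 0 - χ * X 0 0, χ, ?_⟩
  ext i j
  fin_cases i <;> fin_cases j <;> simp [h1, h2]
  linarith

theorem di_nonscalar {A : SL(2, ℝ)} (h1 : A ≠ 1) (h2 : A ≠ -1) :
    A 0 1 ≠ 0 ∨ A 1 0 ≠ 0 ∨ A 0 0 ≠ A 1 1 := by
  by_contra hc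
  simp only [not_or, not_not] at hc
  obtain ⟨hb, hc, hd⟩ := hc
  have hdet := A.det_coe
  rw [Matrix.det_fin_two] at hdet
  have h3 : (A 1 1 - 1) * (A 1 1 + 1) = 0 := by
    rw [hb, hd] at hdet
    linarith
  rcases mul_eq_zero.1 h3 with h | h
  · refine h1 ?_
    have h4 : A 1 1 = 1 := by linarith
    ext i j
    fin_cases i <;> fin_cases j <;> simp [hb, hc, hd, h4]
  · refine h2 ?_
    have h4 : A 1 1 = -1 := by linarith
    ext i j
    fin_cases i <;> fin_cases j <;> simp [hb, hc, hd, h4]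

/-- The reverse Cauchy–Schwarz inequality with its equality case. -/
theorem di_lorentz {u v a u' v' a' δ : ℝ} (hδ : 0 ≤ δ) (h : u ^ 2 - v ^ 2 - a ^ 2 = δ)
    (h' : u' ^ 2 - v' ^ 2 - a' ^ 2 = δ) (hB : |u * u' - v * v' - a * a'| ≤ δ) :
    v * a' - a * v' = 0 ∧ u * a' - a * u' = 0 ∧ u * v' - v * u' = 0 := by
  have hB2 : (u * u' - v * v' - a * a') ^ 2 ≤ δ ^ 2 := sq_le_sq' (abs_le.1 hB).1 (abs_le.1 hB).2
  have hL : (u * a' - a * u') ^ 2 + (u * v' - v * u') ^ 2 ≤ (v * a' - a * v') ^ 2 := by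
    have : (u * u' - v * v' - a * a') ^ 2 -
        (u ^ 2 - v ^ 2 - a ^ 2) * (u' ^ 2 - v' ^ 2 - a' ^ 2) =
        (u * a' - a * u') ^ 2 + (u * v' - v * u') ^ 2 - (v * a' - a * v') ^ 2 := by ring
    rw [h, h'] at this
    nlinarith
  have hw : v * a' - a * v' = 0 := by
    rcases hδ.eq_or_lt with h0 | h0
    · subst h0
      have h1 : u * u' = v * v' + a * a' := by
        have := abs_nonpos_iff.1 hB
        linarith
      have h2 : (v * a' - a * v') ^ 2 = 0 := by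
        have h3 : (v * a' - a * v') ^ 2 =
            (v ^ 2 + a ^ 2) * (v' ^ 2 + a' ^ 2) - (v * v' + a * a') ^ 2 := by ring
        have h4 : v ^ 2 + a ^ 2 = u ^ 2 := by linarith
        have h5 : v' ^ 2 + a' ^ 2 = u' ^ 2 := by linarith
        rw [h3, h4, h5, ← h1]; ring
      exact pow_eq_zero_iff two_ne_zero |>.1 h2
    · have h1 : u ^ 2 * (v * a' - a * v') ^ 2 ≤
          (v ^ 2 + a ^ 2) * ((u * a' - a * u') ^ 2 + (u * v' - v * u') ^ 2) := by
        have : (v ^ 2 + a ^ 2) * ((u * a' - a * u') ^ 2 + (u * v' - v * u') ^ 2) -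
            u ^ 2 * (v * a' - a * v') ^ 2 =
            (a * (u * a' - a * u') + v * (u * v' - v * u')) ^ 2 := by ring
        nlinarith [sq_nonneg (a * (u * a' - a * u') + v * (u * v' - v * u'))]
      have h2 := mul_le_mul_of_nonneg_left hL (by positivity : 0 ≤ v ^ 2 + a ^ 2)
      have h3 : δ * (v * a' - a * v') ^ 2 ≤ 0 := by rw [← h]; linarith
      have h4 : (v * a' - a * v') ^ 2 ≤ 0 := by
        by_contra hc
        exact absurd h3 (not_le.2 (mul_pos h0 (not_le.1 hc)))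
      exact pow_eq_zero_iff two_ne_zero |>.1 (le_antisymm h4 (sq_nonneg _))
  rw [hw] at hL
  refine ⟨hw, pow_eq_zero_iff two_ne_zero |>.1 ?_, pow_eq_zero_iff two_ne_zero |>.1 ?_⟩ <;>
    nlinarith [sq_nonneg (u * a' - a * u'), sq_nonneg (u * v' - v * u')]

/-- Two elements with the same trace commute if no hyperbolic element appears. -/
theorem di_comm {A C : SL(2, ℝ)} (ht : C 0 0 + C 1 1 = A 0 0 + A 1 1)
    (h1 : |(A * C) 0 0 + (A * C) 1 1| ≤ 2) (h2 : |(A * C⁻¹) 0 0 + (A * C⁻¹) 1 1| ≤ 2) :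
    (A : Matrix (Fin 2) (Fin 2) ℝ) * C = C * A := by
  have hA := A.det_coe
  have hC := C.det_coe
  rw [Matrix.det_fin_two] at hA hC
  rw [Matrix.SpecialLinearGroup.SL2_inv_expl] at h2
  simp only [Matrix.SpecialLinearGroup.coe_mul, Matrix.mul_apply, Fin.sum_univ_two] at h1 h2
  simp only [Matrix.cons_val', Matrix.cons_val_zero, Matrix.cons_val_one,
    Matrix.cons_val_fin_one] at h2
  have h1' := (abs_le.1 h1).2
  have h2' := (abs_le.1 h2).2
  have hd : C 1 1 = A 0 0 + A 1 1 - C 0 0 := by linarith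
  obtain ⟨e1, e2, e3⟩ := di_lorentz (u := (A 0 1 - A 1 0) / 2) (v := (A 0 1 + A 1 0) / 2)
    (a := (A 0 0 - A 1 1) / 2) (u' := (C 0 1 - C 1 0) / 2) (v' := (C 0 1 + C 1 0) / 2)
    (a' := (C 0 0 - C 1 1) / 2) (δ := 1 - (A 0 0 + A 1 1) ^ 2 / 4)
    (by rw [hd] at h1' h2'; nlinarith) (by linarith)
    (by rw [← ht]; linarith)
    (by rw [hd] at h1' h2' ⊢; rw [abs_le]; constructor <;> nlinarith)
  ext i j
  fin_cases i <;> fin_cases j <;> simp [Matrix.mul_apply, Fin.sum_univ_two] <;> linarith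

theorem di_trace (A B : SL(2, ℝ)) :
    (B * A * B⁻¹) 0 0 + (B * A * B⁻¹) 1 1 = A 0 0 + A 1 1 := by
  have h : Matrix.trace ((B * A * B⁻¹ : SL(2, ℝ)) : Matrix (Fin 2) (Fin 2) ℝ) =
      Matrix.trace (A : Matrix (Fin 2) (Fin 2) ℝ) := by
    rw [Matrix.SpecialLinearGroup.coe_mul, Matrix.trace_mul_comm,
      ← Matrix.SpecialLinearGroup.coe_mul, ← mul_assoc, inv_mul_cancel, one_mul]
  simpa only [Matrix.trace_fin_two] using h

theorem di_conj (B : SL(2, ℝ)) (X : Matrix (Fin 2) (Fin 2) ℝ) (α χ : ℝ) :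
    (B : Matrix (Fin 2) (Fin 2) ℝ) * (α • (1 : Matrix (Fin 2) (Fin 2) ℝ) + χ • X) *
      (B⁻¹ : SL(2, ℝ)) = α • (1 : Matrix (Fin 2) (Fin 2) ℝ) +
        χ • ((B : Matrix (Fin 2) (Fin 2) ℝ) * X * (B⁻¹ : SL(2, ℝ))) := by
  have h : (B : Matrix (Fin 2) (Fin 2) ℝ) * (B⁻¹ : SL(2, ℝ)) = 1 := by
    rw [← Matrix.SpecialLinearGroup.coe_mul, mul_inv_cancel, Matrix.SpecialLinearGroup.coe_one]
  rw [mul_add, add_mul, Matrix.mul_smul, Matrix.mul_smul, Matrix.smul_mul, Matrix.smul_mul,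
    mul_one, h]

/-- If the fibre over `1` has a noncentral element but no hyperbolic one, the second projection is
metabelian. -/
theorem di_a (M : Subgroup (SL(2, ℝ) × SL(2, ℝ))) (hfull : ∀ h, ∃ g, (h, g) ∈ M)
    (hnh : ∀ g : SL(2, ℝ), (1, g) ∈ M → |g 0 0 + g 1 1| ≤ 2) {A : SL(2, ℝ)} (hA : (1, A) ∈ M)
    (h1 : A ≠ 1) (h2 : A ≠ -1) (h : SL(2, ℝ)) : (h, 1) ∈ M := by
  have hX := di_nonscalar h1 h2
  have hN : ∀ {x B : SL(2, ℝ)}, (x, B) ∈ M → ∃ χ : ℝ,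
      (B : Matrix (Fin 2) (Fin 2) ℝ) * A * (B⁻¹ : SL(2, ℝ)) =
        ((A 0 0 + A 1 1) * (1 - χ) / 2) • (1 : Matrix (Fin 2) (Fin 2) ℝ) +
          χ • (A : Matrix (Fin 2) (Fin 2) ℝ) := by
    intro x B hB
    have hC : ((1 : SL(2, ℝ)), B * A * B⁻¹) ∈ M := by
      simpa using M.mul_mem (M.mul_mem hB hA) (M.inv_mem hB)
    have hc := di_comm (di_trace A B) (hnh _ (by simpa using M.mul_mem hA hC))
      (hnh _ (by simpa using M.mul_mem hA (M.inv_mem hC)))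
    obtain ⟨α, χ, e⟩ := di_par hX hc
    have ht := di_trace A B
    rw [e] at ht
    simp only [Matrix.add_apply, Matrix.smul_apply, Matrix.one_apply_eq, smul_eq_mul] at ht
    refine ⟨χ, ?_⟩
    rw [show (A 0 0 + A 1 1) * (1 - χ) / 2 = α by linarith, ← e]
    rfl
  have hK : ∀ {x y B C : SL(2, ℝ)}, (x, B) ∈ M → (y, C) ∈ M →
      B * C * A * (B * C)⁻¹ = C * B * A * (C * B)⁻¹ := by
    intro x y B C hB hC
    obtain ⟨χ, e⟩ := hN hB
    obtain ⟨χ', e'⟩ := hN hC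
    have e1 : B * C * A * (B * C)⁻¹ = B * (C * A * C⁻¹) * B⁻¹ := by group
    have e2 : C * B * A * (C * B)⁻¹ = C * (B * A * B⁻¹) * C⁻¹ := by group
    rw [e1, e2]
    apply Subtype.ext
    simp only [Matrix.SpecialLinearGroup.coe_mul]
    rw [e, e', di_conj, di_conj, e, e']
    module
  let M1 : Subgroup SL(2, ℝ) :=
    (M ⊓ (Subgroup.centralizer {A}).comap (MonoidHom.snd _ _)).map (MonoidHom.fst _ _)
  have hM1 : M1 = ⊤ := by
    refine SL2_perfect _ fun a b => ?_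
    obtain ⟨B, hB⟩ := hfull a
    obtain ⟨C, hC⟩ := hfull b
    refine ⟨(a * b * a⁻¹ * b⁻¹, B * C * B⁻¹ * C⁻¹), ⟨?_, ?_⟩, rfl⟩
    · exact M.mul_mem (M.mul_mem (M.mul_mem hB hC) (M.inv_mem hB)) (M.inv_mem hC)
    · have e := hK (M.inv_mem hB) (M.inv_mem hC)
      change B * C * B⁻¹ * C⁻¹ ∈ Subgroup.centralizer {A}
      rw [Subgroup.mem_centralizer_singleton_iff]
      calc B * C * B⁻¹ * C⁻¹ * A
          = B * C * (B⁻¹ * C⁻¹ * A * (B⁻¹ * C⁻¹)⁻¹) * B⁻¹ * C⁻¹ := by group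
        _ = B * C * (C⁻¹ * B⁻¹ * A * (C⁻¹ * B⁻¹)⁻¹) * B⁻¹ * C⁻¹ := by rw [e]
        _ = A * (B * C * B⁻¹ * C⁻¹) := by group
  have hM : ∀ a : SL(2, ℝ), ∃ B : SL(2, ℝ), (a, B) ∈ M ∧ ∃ α χ : ℝ,
      (B : Matrix (Fin 2) (Fin 2) ℝ) = α • (1 : Matrix (Fin 2) (Fin 2) ℝ) +
        χ • (A : Matrix (Fin 2) (Fin 2) ℝ) := by
    intro a
    obtain ⟨⟨a', B⟩, ⟨hB, hc⟩, rfl⟩ : a ∈ M1 := hM1 ▸ Subgroup.mem_top a
    have hc' : B * A = A * B := Subgroup.mem_centralizer_singleton_iff.1 hc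
    refine ⟨B, hB, di_par hX ?_⟩
    rw [← Matrix.SpecialLinearGroup.coe_mul, ← hc', Matrix.SpecialLinearGroup.coe_mul]
  have hM2 : M.comap (MonoidHom.inl _ _) = ⊤ := by
    refine SL2_perfect _ fun a b => ?_
    obtain ⟨B, hB, α, χ, e⟩ := hM a
    obtain ⟨C, hC, α', χ', e'⟩ := hM b
    have hc : B * C = C * B := by
      apply Subtype.ext
      simp only [Matrix.SpecialLinearGroup.coe_mul]
      rw [e, e']
      simp only [mul_add, add_mul, Matrix.mul_smul, Matrix.smul_mul, mul_one, one_mul]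
      module
    have h3 : B * C * B⁻¹ * C⁻¹ = 1 := by rw [hc]; group
    have := M.mul_mem (M.mul_mem (M.mul_mem hB hC) (M.inv_mem hB)) (M.inv_mem hC)
    change (a * b * a⁻¹ * b⁻¹, B * C * B⁻¹ * C⁻¹) ∈ M at this
    rw [h3] at this
    exact this
  have : h ∈ M.comap (MonoidHom.inl _ _) := hM2 ▸ Subgroup.mem_top h
  exact this

theorem IsConjHom.surj {θ : SL(2, ℝ) →* SL(2, ℝ)} (h : IsConjHom θ) : Function.Surjective θ := by
  obtain ⟨η, hη, h⟩ := h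
  have hu : IsUnit η.det := isUnit_iff_ne_zero.2 hη
  intro g
  refine ⟨⟨η⁻¹ * g * η, ?_⟩, Subtype.ext ?_⟩
  · rw [Matrix.det_mul, Matrix.det_mul, g.det_coe, mul_one, Matrix.det_nonsing_inv_mul_det η hu]
  · have := congrArg (· * η⁻¹) (h ⟨η⁻¹ * g * η, by
      rw [Matrix.det_mul, Matrix.det_mul, g.det_coe, mul_one,
        Matrix.det_nonsing_inv_mul_det η hu]⟩)
    simp only [Matrix.mul_assoc, Matrix.mul_nonsing_inv η hu, mul_one,
      Matrix.mul_nonsing_inv_cancel_left η _ hu] at this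
    simpa only [Matrix.mul_assoc] using this

/-- An element all of whose commutators are `±1` is `±1`. -/
theorem eq_pm_of_commutator {g : SL(2, ℝ)}
    (h : ∀ a : SL(2, ℝ), g * a * g⁻¹ * a⁻¹ = 1 ∨ g * a * g⁻¹ * a⁻¹ = -1) : g = 1 ∨ g = -1 := by
  have key : ∀ a : SL(2, ℝ), a 0 0 + a 1 1 = 2 → g * a = a * g := by
    intro a ha
    rcases h a with e | e
    · calc g * a = g * a * g⁻¹ * a⁻¹ * (a * g) := by group
        _ = a * g := by rw [e, one_mul]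
    · exfalso
      have e' : g * a * g⁻¹ = -a := by
        calc g * a * g⁻¹ = g * a * g⁻¹ * a⁻¹ * a := by group
          _ = -a := by rw [e, neg_mul, one_mul]
      have ht := di_trace a g
      rw [e'] at ht
      simp only [Matrix.SpecialLinearGroup.coe_neg, Matrix.neg_apply] at ht
      linarith
  exact eq_pm_of_comm (key _ (by simp; norm_num)) (key _ (by simp; norm_num))

end Pool.Agent.EQ
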