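import Pool.Agent.P.MP_ad7a55_nt.Di

/-! Subgroups of SL₂(ℝ) × SL₂(ℝ) with full first projection. -/

set_option autoImplicit false

noncomputable section

open MeasureTheory Topology Filter UpperHalfPlane
open scoped MatrixGroups ENNReal BoundedContinuousFunction

namespace Pool.Agent.EQ

/-- The subgroup generated by `M` and the pair of `1` and `-1`. -/
def di2_pm (M : Subgroup (SL(2, ℝ) × SL(2, ℝ))) : Subgroup (SL(2, ℝ) × SL(2, ℝ)) where
  carrier := {x | (x.1, x.2) ∈ M ∨ (x.1, -x.2) ∈ M}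
  one_mem' := Or.inl M.one_mem
  mul_mem' := by
    rintro ⟨a, b⟩ ⟨c, d⟩ (h | h) (h' | h')
    · exact Or.inl (M.mul_mem h h')
    · exact Or.inr (by simpa using M.mul_mem h h')
    · exact Or.inr (by simpa using M.mul_mem h h')
    · exact Or.inl (by simpa using M.mul_mem h h')
  inv_mem' := by
    rintro ⟨a, b⟩ (h | h)
    · exact Or.inl (M.inv_mem h)
    · exact Or.inr (by simpa using M.inv_mem h)

theorem di2_mem_pm {M : Subgroup (SL(2, ℝ) × SL(2, ℝ))} {a b : SL(2, ℝ)} :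
    (a, b) ∈ di2_pm M ↔ (a, b) ∈ M ∨ (a, -b) ∈ M := Iff.rfl

theorem di2_comm {M : Subgroup (SL(2, ℝ) × SL(2, ℝ))} {a A b B : SL(2, ℝ)}
    (h : (a, A) ∈ di2_pm M) (h' : (b, B) ∈ di2_pm M) :
    (a * b * a⁻¹ * b⁻¹, A * B * A⁻¹ * B⁻¹) ∈ M := by
  rcases h with h | h <;> rcases h' with h' | h' <;>
    simpa using M.mul_mem (M.mul_mem (M.mul_mem h h') (M.inv_mem h)) (M.inv_mem h')

/-- A homomorphism whose graph lies in `± M` has its graph in `M`. -/
theorem di2_graph {M : Subgroup (SL(2, ℝ) × SL(2, ℝ))} (θ : SL(2, ℝ) →* SL(2, ℝ))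
    (h : ∀ a, (a, θ a) ∈ di2_pm M) (a : SL(2, ℝ)) : (a, θ a) ∈ M := by
  have := SL2_perfect (M.comap ((MonoidHom.id _).prod θ)) (fun a b => by
    simpa [Subgroup.mem_comap] using di2_comm (h a) (h b))
  have ha : a ∈ M.comap ((MonoidHom.id _).prod θ) := this ▸ Subgroup.mem_top a
  simpa [Subgroup.mem_comap] using ha

theorem di2_uniq {M : Subgroup (SL(2, ℝ) × SL(2, ℝ))}
    (hc : ∀ g : SL(2, ℝ), (1, g) ∈ M → g = 1 ∨ g = -1) {h g g' : SL(2, ℝ)} (h1 : (h, g) ∈ M)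
    (h2 : (h, g') ∈ M) : g' = g ∨ g' = -g := by
  rcases hc (g⁻¹ * g') (by simpa using M.mul_mem (M.inv_mem h1) h2) with h | h
  · exact Or.inl (inv_mul_eq_one.1 h).symm
  · right
    have := congrArg (g * ·) h
    simpa using this

theorem di2_det (g : SL(2, ℝ)) : g 0 0 * g 1 1 - g 0 1 * g 1 0 = 1 := by
  have := g.det_coe
  rwa [Matrix.det_fin_two] at this

theorem di2_mul (a b : SL(2, ℝ)) (i j : Fin 2) : (a * b) i j = a i 0 * b 0 j + a i 1 * b 1 j := by
  simp [Matrix.mul_apply, Fin.sum_univ_two]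

theorem di2_neg (a : SL(2, ℝ)) (i j : Fin 2) : (-a) i j = -a i j := rfl

theorem di2_ext {a b : SL(2, ℝ)} (h1 : a 0 0 = b 0 0) (h2 : a 0 1 = b 0 1) (h3 : a 1 0 = b 1 0)
    (h4 : a 1 1 = b 1 1) : a = b := by
  ext i j; fin_cases i <;> fin_cases j <;> assumption

theorem di2_inv (a : SL(2, ℝ)) :
    a⁻¹ 0 0 = a 1 1 ∧ a⁻¹ 0 1 = -a 0 1 ∧ a⁻¹ 1 0 = -a 1 0 ∧ a⁻¹ 1 1 = a 0 0 := by
  rw [Matrix.SpecialLinearGroup.SL2_inv_expl]
  simp

theorem di2_tr_conj (B V : SL(2, ℝ)) :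
    (B * V * B⁻¹) 0 0 + (B * V * B⁻¹) 1 1 = V 0 0 + V 1 1 := by
  obtain ⟨i1, i2, i3, i4⟩ := di2_inv B
  simp only [di2_mul, i1, i2, i3, i4]
  linear_combination (V 0 0 + V 1 1) * di2_det B

/-- The Weyl element. -/
def di2_w : SL(2, ℝ) := uu 1 * ul (-1) * uu 1

theorem di2_w_conj (x : ℝ) : di2_w * uu x * di2_w⁻¹ = ul (-x) := by
  rw [mul_inv_eq_iff_eq_mul]
  apply di2_ext <;> simp [di2_w, Matrix.mul_apply, Fin.sum_univ_two]

theorem di2_w_braid : di2_w = ul (-1) * uu 1 * ul (-1) := by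
  apply di2_ext <;> simp [di2_w, Matrix.mul_apply, Fin.sum_univ_two]

theorem di2_w_four : di2_w * di2_w * (di2_w * di2_w) = 1 := by
  apply di2_ext <;> simp [di2_w, Matrix.mul_apply, Fin.sum_univ_two]

theorem di2_dg_conj (t : ℝ) (ht : t ≠ 0) (x : ℝ) :
    dg t ht * uu x * (dg t ht)⁻¹ = uu (t ^ 2 * x) := by
  rw [mul_inv_eq_iff_eq_mul]
  apply di2_ext <;> simp [Matrix.mul_apply, Fin.sum_univ_two]
  field_simp

/-- If a nontrivial upper unipotent is in the first factor, so is everything. -/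
theorem di2_normal {M : Subgroup (SL(2, ℝ) × SL(2, ℝ))} (hfull : ∀ h, ∃ g, (h, g) ∈ M) {x : ℝ}
    (hx : x ≠ 0) (h : (uu x, 1) ∈ M) (a : SL(2, ℝ)) : (a, 1) ∈ M := by
  have hn : ∀ a b : SL(2, ℝ), (a, 1) ∈ M → (b * a * b⁻¹, 1) ∈ M := fun a b ha => by
    obtain ⟨B, hB⟩ := hfull b
    simpa using M.mul_mem (M.mul_mem hB ha) (M.inv_mem hB)
  have hu : ∀ y : ℝ, (uu y, 1) ∈ M := fun y => by
    have key : ∀ y : ℝ, 0 < y / x → (uu y, 1) ∈ M := fun y hy => by
      have := hn _ (dg √(y / x) (Real.sqrt_pos.2 hy).ne') h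
      rwa [di2_dg_conj, Real.sq_sqrt hy.le, div_mul_cancel₀ _ hx] at this
    rcases lt_trichotomy (y / x) 0 with hy | hy | hy
    · have := M.inv_mem (key (-y) (by rw [neg_div]; linarith))
      simpa [uu_inv] using this
    · rcases div_eq_zero_iff.1 hy with rfl | h0
      · rw [uu_zero]; exact M.one_mem
      · exact absurd h0 hx
    · exact key y hy
  have := SL2_gen (M.comap (MonoidHom.inl SL(2, ℝ) SL(2, ℝ))) (fun y => hu y) (fun y => by
    have := hn _ di2_w (hu (-y))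
    rw [di2_w_conj, neg_neg] at this
    exact this)
  have ha : a ∈ M.comap (MonoidHom.inl SL(2, ℝ) SL(2, ℝ)) := this ▸ Subgroup.mem_top a
  exact ha

theorem di2_add_mono (φ : ℝ →+ ℝ) (h1 : φ 1 = 1) (hpos : ∀ x, 0 < x → 0 ≤ φ x) (x : ℝ) :
    φ x = x := by
  have hq : ∀ q : ℚ, φ q = q := fun q => by
    have := map_ratCast_smul φ ℝ ℝ q 1
    simpa [h1] using this
  rcases lt_trichotomy (φ x) x with h | h | h
  · obtain ⟨q, h2, h3⟩ := exists_rat_btwn h
    have := hpos (x - q) (by linarith)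
    rw [map_sub, hq] at this
    linarith
  · exact h
  · obtain ⟨q, h2, h3⟩ := exists_rat_btwn h
    have := hpos (q - x) (by linarith)
    rw [map_sub, hq] at this
    linarith

/-- The normalised case. -/
theorem di2_norm {M : Subgroup (SL(2, ℝ) × SL(2, ℝ))} (hfull : ∀ h, ∃ g, (h, g) ∈ M)
    (hc : ∀ g : SL(2, ℝ), (1, g) ∈ M → g = 1 ∨ g = -1) (hm : ((1 : SL(2, ℝ)), -1) ∈ M)
    (h1 : (uu 1, uu 1) ∈ M) (h2 : (ul (-1), ul (-1)) ∈ M) (a : SL(2, ℝ)) : (a, a) ∈ M := by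
  have hex : ∀ x : ℝ, ∃ y : ℝ, (uu x, uu y) ∈ M := fun x => by
    obtain ⟨X, hX⟩ := hfull (uu x)
    have h3 : (uu 1, X * uu 1 * X⁻¹) ∈ M := by
      have := M.mul_mem (M.mul_mem hX h1) (M.inv_mem hX)
      simp only [Prod.mk_mul_mk, Prod.inv_mk, uu_inv, ← uu_add] at this
      rwa [show x + 1 + -x = 1 by ring] at this
    have h4 : X * uu 1 * X⁻¹ = uu 1 := by
      rcases di2_uniq hc h1 h3 with h | h
      · exact h
      · have := di2_tr_conj X (uu 1)
        rw [h] at this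
        norm_num [di2_neg] at this
    rw [mul_inv_eq_iff_eq_mul] at h4
    have e1 := congrArg (fun g : SL(2, ℝ) => g 0 0) h4
    have e2 := congrArg (fun g : SL(2, ℝ) => g 0 1) h4
    simp [di2_mul] at e1 e2
    have hd := di2_det X
    have e3 : X 1 1 = X 0 0 := by linarith
    rw [e1, e3] at hd
    have hs : (X 0 0 - 1) * (X 0 0 + 1) = 0 := by linear_combination hd
    rcases mul_eq_zero.1 hs with h | h
    · refine ⟨X 0 1, ?_⟩
      have : X = uu (X 0 1) := by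
        apply di2_ext <;> simp <;> linarith
      rwa [← this]
    · refine ⟨-X 0 1, ?_⟩
      have : X * -1 = uu (-X 0 1) := by
        apply di2_ext <;> simp [di2_neg] <;> linarith
      rw [← this]
      simpa using M.mul_mem hX hm
  choose f hf using hex
  have huniq : ∀ x y : ℝ, (uu x, uu y) ∈ M → f x = y := fun x y h => by
    rcases di2_uniq hc h (hf x) with h' | h'
    · simpa using congrArg (fun g : SL(2, ℝ) => g 0 1) h'
    · have := congrArg (fun g : SL(2, ℝ) => g 0 0) h'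
      norm_num [di2_neg] at this
  let φ : ℝ →+ ℝ := AddMonoidHom.mk' f fun x y => huniq _ _ (by
    rw [uu_add, uu_add]; exact M.mul_mem (hf x) (hf y))
  have hφ : ∀ x, f x = x := di2_add_mono φ (huniq _ _ h1) fun x hx => by
    obtain ⟨B, hB⟩ := hfull (dg √x (Real.sqrt_pos.2 hx).ne')
    have h3 : (uu x, B * uu 1 * B⁻¹) ∈ M := by
      have := M.mul_mem (M.mul_mem hB h1) (M.inv_mem hB)
      simp only [Prod.mk_mul_mk, Prod.inv_mk, di2_dg_conj] at this
      rwa [Real.sq_sqrt hx.le, mul_one] at this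
    rcases di2_uniq hc (hf x) h3 with h | h
    · have := congrArg (fun g : SL(2, ℝ) => g 0 1) h
      obtain ⟨i1, i2, i3, i4⟩ := di2_inv B
      simp only [di2_mul, i2, i4] at this
      simp at this
      change 0 ≤ f x
      nlinarith [sq_nonneg (B 0 0)]
    · have := di2_tr_conj B (uu 1)
      rw [h] at this
      norm_num [di2_neg] at this
  have hu : ∀ x : ℝ, (uu x, uu x) ∈ M := fun x => by simpa [hφ x] using hf x
  have hw : (di2_w, di2_w) ∈ M := M.mul_mem (M.mul_mem h1 h2) h1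
  have := SL2_gen (M.comap ((MonoidHom.id _).prod (MonoidHom.id _))) (fun y => hu y) (fun y => by
    have := M.mul_mem (M.mul_mem hw (hu (-y))) (M.inv_mem hw)
    simp only [Prod.mk_mul_mk, Prod.inv_mk, di2_w_conj, neg_neg] at this
    exact this)
  have ha : a ∈ M.comap ((MonoidHom.id _).prod (MonoidHom.id _)) := this ▸ Subgroup.mem_top a
  exact ha

/-- Conjugation by an invertible matrix. -/
def di2_conj (η : Matrix (Fin 2) (Fin 2) ℝ) (hη : η.det ≠ 0) : SL(2, ℝ) →* SL(2, ℝ) where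
  toFun h := ⟨η * h * η⁻¹, by
    rw [Matrix.det_mul, Matrix.det_mul, h.det_coe, mul_one, ← Matrix.det_mul,
      Matrix.mul_nonsing_inv _ (Ne.isUnit hη), Matrix.det_one]⟩
  map_one' := Subtype.ext (by simp [Matrix.mul_nonsing_inv _ (Ne.isUnit hη)])
  map_mul' a b := Subtype.ext (by
    change η * ((a : Matrix (Fin 2) (Fin 2) ℝ) * b) * η⁻¹ = η * a * η⁻¹ * (η * b * η⁻¹)
    simp only [Matrix.mul_assoc, Matrix.nonsing_inv_mul_cancel_left _ _ (Ne.isUnit hη)])

theorem di2_conj_mul (η : Matrix (Fin 2) (Fin 2) ℝ) (hη : η.det ≠ 0) (h : SL(2, ℝ)) :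
    (di2_conj η hη h : Matrix (Fin 2) (Fin 2) ℝ) * η = η * h := by
  change η * h * η⁻¹ * η = _
  rw [Matrix.nonsing_inv_mul_cancel_right _ _ (Ne.isUnit hη)]

theorem di2_conj_eq {η : Matrix (Fin 2) (Fin 2) ℝ} (hη : η.det ≠ 0) {h V : SL(2, ℝ)}
    (e : (V : Matrix (Fin 2) (Fin 2) ℝ) * η = η * h) : di2_conj η hη h = V := by
  apply Subtype.ext
  change η * h * η⁻¹ = _
  rw [← e, Matrix.mul_nonsing_inv_cancel_right _ _ (Ne.isUnit hη)]

theorem di2_conj_inj {η : Matrix (Fin 2) (Fin 2) ℝ} (hη : η.det ≠ 0) :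
    Function.Injective (di2_conj η hη) := fun a b h => by
  have h1 := di2_conj_mul η hη a
  rw [h, di2_conj_mul] at h1
  apply Subtype.ext
  have := congrArg (η⁻¹ * ·) h1
  simp only [Matrix.nonsing_inv_mul_cancel_left _ _ (Ne.isUnit hη)] at this
  exact this.symm

theorem di2_conj_neg {η : Matrix (Fin 2) (Fin 2) ℝ} (hη : η.det ≠ 0) :
    di2_conj η hη (-1) = -1 := di2_conj_eq hη (by simp)

/-- Two unipotents with `tr (N N') = -1` are simultaneously conjugate to the standard pair. -/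
theorem di2_eta {V V' : SL(2, ℝ)} (h1 : V 0 0 + V 1 1 = 2) (h2 : V' 0 0 + V' 1 1 = 2)
    (hτ : 2 * (V 0 0 - 1) * (V' 0 0 - 1) + V 0 1 * V' 1 0 + V 1 0 * V' 0 1 = -1) :
    ∃ η : Matrix (Fin 2) (Fin 2) ℝ, η.det ≠ 0 ∧
      (V : Matrix (Fin 2) (Fin 2) ℝ) * η = η * (uu (1 : ℝ) : SL(2, ℝ)) ∧
      (V' : Matrix (Fin 2) (Fin 2) ℝ) * η = η * (ul (-1 : ℝ) : SL(2, ℝ)) := by
  obtain ⟨p, hp⟩ : ∃ p, V 0 0 = 1 + p := ⟨V 0 0 - 1, by ring⟩
  obtain ⟨p', hp'⟩ : ∃ p', V' 0 0 = 1 + p' := ⟨V' 0 0 - 1, by ring⟩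
  have hd : V 1 1 = 1 - p := by linarith
  have hd' : V' 1 1 = 1 - p' := by linarith
  have e := di2_det V
  have e' := di2_det V'
  rw [hp, hd] at e
  rw [hp', hd'] at e'
  rw [hp, hp'] at hτ
  set q := V 0 1 with hq
  set r := V 1 0 with hr
  set q' := V' 0 1 with hq'
  set r' := V' 1 0 with hr'
  obtain ⟨A, B, hAB, k1, k2⟩ : ∃ A B : ℝ, ¬ (A = 0 ∧ B = 0) ∧ p * A + q * B = 0 ∧
      r * A - p * B = 0 := by
    by_cases h : q = 0 ∧ -p = 0
    · refine ⟨0, 1, by simp, by simp [h.1], by simpa using h.2⟩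
    · exact ⟨q, -p, h, by ring, by linear_combination -e⟩
  have k3 : p * (-(p' * A + q' * B)) + q * (-(r' * A - p' * B)) = A := by
    linear_combination (-A) * hτ + p' * k1 + q' * k2
  have k4 : r * (-(p' * A + q' * B)) - p * (-(r' * A - p' * B)) = B := by
    linear_combination (-B) * hτ + r' * k1 - p' * k2
  refine ⟨!![A, -(p' * A + q' * B); B, -(r' * A - p' * B)], ?_, ?_, ?_⟩
  · rw [Matrix.det_fin_two_of]
    intro h0
    apply hAB
    constructor
    · have : A * A = 0 := by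
        linear_combination (-A) * k3 + q * h0 + (-(p' * A + q' * B)) * k1
      exact mul_self_eq_zero.1 this
    · have : B * B = 0 := by
        linear_combination (-B) * k4 - r * h0 + (-(r' * A - p' * B)) * k2
      exact mul_self_eq_zero.1 this
  · ext i j
    fin_cases i <;> fin_cases j <;>
      simp [Matrix.mul_apply, Fin.sum_univ_two, hp, hd, ← hq, ← hr]
    · linear_combination k1
    · linear_combination k3
    · linear_combination k2
    · linear_combination k4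
  · ext i j
    fin_cases i <;> fin_cases j <;>
      simp [Matrix.mul_apply, Fin.sum_univ_two, hp', hd', ← hq', ← hr']
    · ring
    · linear_combination A * e'
    · ring
    · linear_combination B * e'

/-- The partner of `u(1)` is unipotent up to sign. -/
theorem di2_unip {M : Subgroup (SL(2, ℝ) × SL(2, ℝ))} (hfull : ∀ h, ∃ g, (h, g) ∈ M)
    (hc : ∀ g : SL(2, ℝ), (1, g) ∈ M → g = 1 ∨ g = -1) (hm : ((1 : SL(2, ℝ)), -1) ∈ M)
    (hno : ∀ x : ℝ, x ≠ 0 → (uu x, 1) ∉ M) : ∃ V, (uu 1, V) ∈ M ∧ V 0 0 + V 1 1 = 2 := by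
  obtain ⟨V, hV⟩ := hfull (uu 1)
  obtain ⟨B, hB⟩ := hfull (dg √2 (Real.sqrt_pos.2 two_pos).ne')
  have h3 : (uu 2, B * V * B⁻¹) ∈ M := by
    have := M.mul_mem (M.mul_mem hB hV) (M.inv_mem hB)
    simp only [Prod.mk_mul_mk, Prod.inv_mk, di2_dg_conj] at this
    rwa [Real.sq_sqrt two_pos.le, mul_one] at this
  have h4 : (uu 2, V * V) ∈ M := by
    have := M.mul_mem hV hV
    simp only [Prod.mk_mul_mk, ← uu_add] at this
    rwa [one_add_one_eq_two] at this
  have h5 : (uu 3, V * V * V) ∈ M := by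
    have := M.mul_mem h4 hV
    simp only [Prod.mk_mul_mk, ← uu_add] at this
    rwa [two_add_one_eq_three] at this
  have hd := di2_det V
  have ht := di2_tr_conj B V
  have hn1 : V 0 0 + V 1 1 ≠ -1 := fun h => by
    have e : V 1 1 = -1 - V 0 0 := by linarith
    have : V * V * V = 1 := by
      rw [e] at hd
      apply di2_ext <;> simp only [di2_mul, e] <;> simp
      · linear_combination (1 - V 0 0) * hd
      · linear_combination (-V 0 1) * hd
      · linear_combination (-V 1 0) * hd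
      · linear_combination (2 + V 0 0) * hd
    exact hno 3 three_ne_zero (this ▸ h5)
  have hn2 : V 0 0 + V 1 1 ≠ 1 := fun h => by
    have e : V 1 1 = 1 - V 0 0 := by linarith
    have : V * V * V * -1 = 1 := by
      rw [e] at hd
      apply di2_ext <;> simp only [mul_neg, mul_one, di2_neg, di2_mul, e] <;> simp
      · linear_combination (1 + V 0 0) * hd
      · linear_combination (V 0 1) * hd
      · linear_combination (V 1 0) * hd
      · linear_combination (2 - V 0 0) * hd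
    have h6 := M.mul_mem h5 hm
    simp only [Prod.mk_mul_mk, mul_one] at h6
    exact hno 3 three_ne_zero (this ▸ h6)
  have htr : (V * V) 0 0 + (V * V) 1 1 = (V 0 0 + V 1 1) ^ 2 - 2 := by
    simp only [di2_mul]
    linear_combination (-2) * hd
  rcases di2_uniq hc h3 h4 with h | h
  · rw [h, ht] at htr
    have : (V 0 0 + V 1 1 - 2) * (V 0 0 + V 1 1 + 1) = 0 := by linear_combination -htr
    rcases mul_eq_zero.1 this with h' | h'
    · exact ⟨V, hV, by linarith⟩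
    · exact absurd (by linarith) hn1
  · rw [h, di2_neg, di2_neg, ← neg_add, ht] at htr
    have : (V 0 0 + V 1 1 + 2) * (V 0 0 + V 1 1 - 1) = 0 := by linear_combination -htr
    rcases mul_eq_zero.1 this with h' | h'
    · refine ⟨-V, by simpa using M.mul_mem hV hm, ?_⟩
      rw [di2_neg, di2_neg]
      linarith
    · exact absurd (by linarith) hn2

/-- The braid relation up to sign for two unipotents. -/
theorem di2_braid {V V' : SL(2, ℝ)} (h1 : V 0 0 + V 1 1 = 2) (h2 : V' 0 0 + V' 1 1 = 2)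
    (hb : V' * V * V' = V * V' * V ∨ V' * V * V' = -(V * V' * V)) :
    2 * (V 0 0 - 1) * (V' 0 0 - 1) + V 0 1 * V' 1 0 + V 1 0 * V' 0 1 = -1 ∨ V' = V := by
  have hd : V 1 1 = 2 - V 0 0 := by linarith
  have hd' : V' 1 1 = 2 - V' 0 0 := by linarith
  have e := di2_det V
  have e' := di2_det V'
  rw [hd] at e
  rw [hd'] at e'
  by_cases hτ : 2 * (V 0 0 - 1) * (V' 0 0 - 1) + V 0 1 * V' 1 0 + V 1 0 * V' 0 1 + 1 = 0
  · left; linarith
  right
  rcases hb with h | h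
  · have e1 := congrArg (fun g : SL(2, ℝ) => g 0 0) h
    have e2 := congrArg (fun g : SL(2, ℝ) => g 0 1) h
    have e3 := congrArg (fun g : SL(2, ℝ) => g 1 0) h
    simp only [di2_mul, hd, hd'] at e1 e2 e3
    have f1 : V' 0 0 = V 0 0 := by
      apply sub_eq_zero.1
      apply (mul_eq_zero.1 _).resolve_left hτ
      linear_combination e1 + (2 - V 0 0) * e' - (2 - V' 0 0) * e
    apply di2_ext f1
    · apply sub_eq_zero.1
      apply (mul_eq_zero.1 _).resolve_left hτ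
      linear_combination e2 - V 0 1 * e' + V' 0 1 * e
    · apply sub_eq_zero.1
      apply (mul_eq_zero.1 _).resolve_left hτ
      linear_combination e3 - V 1 0 * e' + V' 1 0 * e
    · rw [hd, hd', f1]
  · exfalso
    apply hτ
    have e1 := congrArg (fun g : SL(2, ℝ) => g 0 0) h
    have e4 := congrArg (fun g : SL(2, ℝ) => g 1 1) h
    simp only [di2_neg, di2_mul, hd, hd'] at e1 e4
    linear_combination (1 / 4) * e1 + (1 / 4) * e4 + (1 / 2) * e + (1 / 2) * e'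

theorem di2_pow {V : SL(2, ℝ)} (h1 : V 0 0 + V 1 1 = 2) (n : ℕ) :
    (V ^ n) 0 0 = 1 + n * (V 0 0 - 1) ∧ (V ^ n) 0 1 = n * V 0 1 ∧ (V ^ n) 1 0 = n * V 1 0 ∧
      (V ^ n) 1 1 = 1 - n * (V 0 0 - 1) := by
  have hd : V 1 1 = 2 - V 0 0 := by linarith
  have e := di2_det V
  rw [hd] at e
  induction n with
  | zero => simp
  | succ n ih =>
    obtain ⟨i1, i2, i3, i4⟩ := ih
    simp only [pow_succ, di2_mul, i1, i2, i3, i4, hd]
    push_cast
    refine ⟨?_, by ring, by ring, ?_⟩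
    · linear_combination (-(n : ℝ)) * e
    · linear_combination (-(n : ℝ)) * e

/-- If the fibre over `1` is central, `M` contains the first factor or the graph of a
conjugation. -/
theorem di_b (M : Subgroup (SL(2, ℝ) × SL(2, ℝ))) (hfull : ∀ h, ∃ g, (h, g) ∈ M)
    (hc : ∀ g : SL(2, ℝ), (1, g) ∈ M → g = 1 ∨ g = -1) :
    (∀ h, (h, 1) ∈ M) ∨ ∃ θ : SL(2, ℝ) →* SL(2, ℝ), IsConjHom θ ∧ ∀ h, (h, θ h) ∈ M := by
  have hfull' : ∀ h, ∃ g, (h, g) ∈ di2_pm M := fun h => (hfull h).imp fun g hg => Or.inl hg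
  have hc' : ∀ g : SL(2, ℝ), (1, g) ∈ di2_pm M → g = 1 ∨ g = -1 := by
    rintro g (h | h)
    · exact hc g h
    · rcases hc _ h with h' | h'
      · exact Or.inr (neg_eq_iff_eq_neg.1 h')
      · exact Or.inl (neg_injective h')
  have hm : ((1 : SL(2, ℝ)), -1) ∈ di2_pm M := Or.inr (by
    rw [neg_neg]; exact M.one_mem)
  by_cases hno : ∃ x : ℝ, x ≠ 0 ∧ (uu x, 1) ∈ di2_pm M
  · obtain ⟨x, hx, h⟩ := hno
    exact Or.inl (di2_graph 1 (di2_normal hfull' hx h))
  push Not at hno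
  right
  obtain ⟨V, hV, h1⟩ := di2_unip hfull' hc' hm hno
  obtain ⟨W, hW⟩ := hfull' di2_w
  obtain ⟨V', hV', h2⟩ : ∃ V', (ul (-1), V') ∈ di2_pm M ∧ V' 0 0 + V' 1 1 = 2 := by
    refine ⟨W * V * W⁻¹, ?_, by rw [di2_tr_conj, h1]⟩
    have := (di2_pm M).mul_mem ((di2_pm M).mul_mem hW hV) ((di2_pm M).inv_mem hW)
    simpa only [Prod.mk_mul_mk, Prod.inv_mk, di2_w_conj] using this
  have b1 : (di2_w, V * V' * V) ∈ di2_pm M :=
    (di2_pm M).mul_mem ((di2_pm M).mul_mem hV hV') hV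
  have b2 : (di2_w, V' * V * V') ∈ di2_pm M := by
    rw [di2_w_braid]
    exact (di2_pm M).mul_mem ((di2_pm M).mul_mem hV' hV) hV'
  rcases di2_braid h1 h2 (di2_uniq hc' b1 b2) with hτ | rfl
  · obtain ⟨η, hη, e1, e2⟩ := di2_eta h1 h2 hτ
    have hθ : IsConjHom (di2_conj η hη) := ⟨η, hη, di2_conj_mul η hη⟩
    refine ⟨di2_conj η hη, hθ, di2_graph _ fun a => ?_⟩
    refine di2_norm (M := (di2_pm M).comap ((MonoidHom.id _).prodMap (di2_conj η hη)))
      (fun h => ?_) (fun g hg => ?_) ?_ ?_ ?_ a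
    · obtain ⟨g, hg⟩ := hfull' h
      obtain ⟨g', rfl⟩ := hθ.surj g
      exact ⟨g', hg⟩
    · rcases hc' _ hg with h | h
      · exact Or.inl (di2_conj_inj hη (h.trans (map_one _).symm))
      · exact Or.inr (di2_conj_inj hη (h.trans (di2_conj_neg hη).symm))
    · change (1, di2_conj η hη (-1)) ∈ di2_pm M
      rwa [di2_conj_neg]
    · change (uu 1, di2_conj η hη (uu 1)) ∈ di2_pm M
      rwa [di2_conj_eq hη e1]
    · change (ul (-1), di2_conj η hη (ul (-1))) ∈ di2_pm M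
      rwa [di2_conj_eq hη e2]
  · exfalso
    have b3 := (di2_pm M).mul_mem ((di2_pm M).mul_mem b1 b1) ((di2_pm M).mul_mem b1 b1)
    simp only [Prod.mk_mul_mk, di2_w_four] at b3
    have b4 : V' * V' * V' * (V' * V' * V') * (V' * V' * V' * (V' * V' * V')) = V' ^ 12 := by
      simp only [pow_succ, pow_zero, one_mul, mul_assoc]
    rw [b4] at b3
    obtain ⟨i1, i2, i3, i4⟩ := di2_pow h1 12
    rcases hc' _ b3 with h | h
    · rw [h] at i1 i2 i3
      have : V' = 1 := by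
        apply di2_ext <;> simp at i1 i2 i3 ⊢ <;> linarith
      exact hno 1 one_ne_zero (this ▸ hV)
    · rw [h] at i1 i4
      simp [di2_neg] at i1 i4
      linarith

/-- The embedding of two coordinates. -/
def di2_two {κ : Type} [DecidableEq κ] {l m : κ} (h : l ≠ m) :
    SL(2, ℝ) × SL(2, ℝ) →* (κ → SL(2, ℝ)) :=
  MonoidHom.mk' (fun x => Pi.mulSingle (M := fun _ => SL(2, ℝ)) l x.1 *
    Pi.mulSingle (M := fun _ => SL(2, ℝ)) m x.2) fun x y => by
      funext i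
      by_cases h1 : i = l
      · subst h1
        simp [Pi.mulSingle_eq_of_ne h]
      · by_cases h2 : i = m
        · subst h2
          simp [Pi.mulSingle_eq_of_ne h1]
        · simp [Pi.mulSingle_eq_of_ne h1, Pi.mulSingle_eq_of_ne h2]

theorem di2_mem_two {κ : Type} [DecidableEq κ] {l m : κ} (h : l ≠ m)
    {M : Subgroup (κ → SL(2, ℝ))} {a b : SL(2, ℝ)} : (a, b) ∈ M.comap (di2_two h) ↔
      Pi.mulSingle (M := fun _ => SL(2, ℝ)) l a * Pi.mulSingle (M := fun _ => SL(2, ℝ)) m b ∈ M :=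
  Iff.rfl

/-- The trichotomy. -/
theorem tri {κ : Type} [Fintype κ] [DecidableEq κ] (M : Subgroup (κ → SL(2, ℝ))) (m : κ)
    (hfull : ∀ k, k ≠ m → ∀ h : SL(2, ℝ), ∃ g : SL(2, ℝ),
      Pi.mulSingle (M := fun _ => SL(2, ℝ)) k h * Pi.mulSingle (M := fun _ => SL(2, ℝ)) m g ∈ M)
    (k : κ) (hk : k ≠ m) :
    (∃ g : SL(2, ℝ), 2 < |g 0 0 + g 1 1| ∧ Pi.mulSingle (M := fun _ => SL(2, ℝ)) m g ∈ M) ∨
    (∃ l, ∀ h : SL(2, ℝ), Pi.mulSingle (M := fun _ => SL(2, ℝ)) l h ∈ M) ∨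
    ((∀ l, l = k ∨ l = m) ∧
      (∀ g : SL(2, ℝ), Pi.mulSingle (M := fun _ => SL(2, ℝ)) m g ∈ M → g = 1 ∨ g = -1) ∧
      ∃ θ : SL(2, ℝ) →* SL(2, ℝ), IsConjHom θ ∧ ∀ h : SL(2, ℝ),
        Pi.mulSingle (M := fun _ => SL(2, ℝ)) k h *
          Pi.mulSingle (M := fun _ => SL(2, ℝ)) m (θ h) ∈ M) := by
  by_cases H1 : ∃ g : SL(2, ℝ), 2 < |g 0 0 + g 1 1| ∧
    Pi.mulSingle (M := fun _ => SL(2, ℝ)) m g ∈ M
  · exact Or.inl H1
  right
  by_cases H2 : ∃ l, ∀ h : SL(2, ℝ), Pi.mulSingle (M := fun _ => SL(2, ℝ)) l h ∈ M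
  · exact Or.inl H2
  right
  have hc : ∀ g : SL(2, ℝ), Pi.mulSingle (M := fun _ => SL(2, ℝ)) m g ∈ M → g = 1 ∨ g = -1 := by
    intro A hA
    by_contra hne
    push Not at hne
    refine H2 ⟨k, fun h => ?_⟩
    have := di_a (M.comap (di2_two hk)) (hfull k hk) (fun g hg => by
      by_contra hlt
      exact H1 ⟨g, not_le.1 hlt, by simpa using (di2_mem_two hk).1 hg⟩)
      (A := A) ((di2_mem_two hk).2 (by simpa using hA)) hne.1 hne.2 h
    simpa using (di2_mem_two hk).1 this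
  have hθ : ∀ l, l ≠ m → ∃ θ : SL(2, ℝ) →* SL(2, ℝ), IsConjHom θ ∧ ∀ h : SL(2, ℝ),
      Pi.mulSingle (M := fun _ => SL(2, ℝ)) l h *
        Pi.mulSingle (M := fun _ => SL(2, ℝ)) m (θ h) ∈ M := fun l hl => by
    rcases di_b (M.comap (di2_two hl)) (hfull l hl)
      (fun g hg => hc g (by simpa using (di2_mem_two hl).1 hg)) with h | h
    · exact absurd ⟨l, fun a => by simpa using (di2_mem_two hl).1 (h a)⟩ H2
    · exact h
  refine ⟨fun l => ?_, hc, hθ k hk⟩
  by_contra hne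
  push Not at hne
  obtain ⟨θ, t1, t2⟩ := hθ k hk
  obtain ⟨θ', t1', t2'⟩ := hθ l hne.2
  have key : ∀ g a : SL(2, ℝ), g * a * g⁻¹ * a⁻¹ = 1 ∨ g * a * g⁻¹ * a⁻¹ = -1 := fun g a => by
    obtain ⟨x, rfl⟩ := t1.surj g
    obtain ⟨y, rfl⟩ := t1'.surj a
    apply hc
    convert M.mul_mem (M.mul_mem (M.mul_mem (t2 x) (t2' y)) (M.inv_mem (t2 x)))
      (M.inv_mem (t2' y)) using 1
    funext i
    by_cases h1 : i = m
    · subst h1
      simp [Pi.mulSingle_eq_of_ne hk.symm, Pi.mulSingle_eq_of_ne hne.2.symm]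
    · by_cases h2 : i = k
      · subst h2
        simp [Pi.mulSingle_eq_of_ne h1, Pi.mulSingle_eq_of_ne hne.1.symm]
      · by_cases h3 : i = l
        · subst h3
          simp [Pi.mulSingle_eq_of_ne h1, Pi.mulSingle_eq_of_ne h2]
        · simp [Pi.mulSingle_eq_of_ne h1, Pi.mulSingle_eq_of_ne h2, Pi.mulSingle_eq_of_ne h3]
  rcases eq_pm_of_commutator (key (uu 1)) with h | h
  · have := congrArg (fun g : SL(2, ℝ) => g 0 1) h
    simp at this
  · have := congrArg (fun g : SL(2, ℝ) => g 0 1) h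
    simp [di2_neg] at this

end Pool.Agent.EQ
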