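import Pool.Agent.P.MP_ad7a55_nt.Grp
import Pool.Agent.P.MP_ad7a55_nt.Beta2

/-! Rational correspondences between two points of X. -/

set_option autoImplicit false

noncomputable section

open MeasureTheory Topology Filter UpperHalfPlane
open scoped MatrixGroups ENNReal BoundedContinuousFunction

namespace Pool.Agent.EQ

variable (p : ℕ) [Fact p.Prime]

/-- Real and `p`-adic matrices. -/
abbrev MM : Type := Matrix (Fin 2) (Fin 2) ℝ × Matrix (Fin 2) (Fin 2) ℚ_[p]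

/-- `P` is the rational matrix `ξ` read in the frames `g, g'`. -/
def IsHom (g g' : GG p) (ξ : Matrix (Fin 2) (Fin 2) ℚ) (P : MM p) : Prop :=
  P.1 * (g.1 : Matrix (Fin 2) (Fin 2) ℝ) = (g'.1 : Matrix (Fin 2) (Fin 2) ℝ) * ξ.map (↑) ∧
    P.2 * (g.2 : Matrix (Fin 2) (Fin 2) ℚ_[p]) =
      (g'.2 : Matrix (Fin 2) (Fin 2) ℚ_[p]) * ξ.map (↑)

/-- Rational maps from `x` to `y` with denominator `q` away from `p` and determinant `δ`. -/
def HomS (q : ℕ) (δ : ℚ) (x y : XX p) : Set (MM p) :=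
  {P | ∃ g g' : GG p, (g : XX p) = x ∧ (g' : XX p) = y ∧ ∃ ξ : Matrix (Fin 2) (Fin 2) ℚ,
    (∀ i j, InZp p (q * ξ i j)) ∧ ξ.det = δ ∧ IsHom p g g' ξ P}

/-- The `p`-adic matrix along the flow. -/
def Pfl (d₁ d₂ s : ℚ_[p]) (P : Matrix (Fin 2) (Fin 2) ℚ_[p]) : Matrix (Fin 2) (Fin 2) ℚ_[p] :=
  !![1, d₂ * s; 0, 1] * P * !![1, -(d₁ * s); 0, 1]

/-- The singular set: pairs related by a rational map that intertwines the two flows. -/
def NN (d₁ d₂ : ℚ_[p]) : Set (XX p × XX p) :=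
  {w | ∃ q : ℕ, 0 < q ∧ ∃ δ : ℚ, δ ≠ 0 ∧ ∃ P ∈ HomS p q δ w.1 w.2,
    P.2 1 0 = 0 ∧ d₁ * P.2 0 0 = d₂ * P.2 1 1}

variable {p}

theorem Pfl_eq (d₁ d₂ s : ℚ_[p]) (P : Matrix (Fin 2) (Fin 2) ℚ_[p]) :
    Pfl p d₁ d₂ s P =
      !![P 0 0 + d₂ * P 1 0 * s + 0 * s ^ 2,
          P 0 1 + (d₂ * P 1 1 - d₁ * P 0 0) * s + (-(d₁ * d₂ * P 1 0)) * s ^ 2;
        P 1 0 + 0 * s + 0 * s ^ 2, P 1 1 + (-(d₁ * P 1 0)) * s + 0 * s ^ 2] := by
  rw [Pfl]
  conv_lhs => rw [Matrix.eta_fin_two P]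
  simp only [Matrix.mul_fin_two]
  ext i j
  fin_cases i <;> fin_cases j <;> simp <;> ring

theorem Pfl_add (d₁ d₂ s t : ℚ_[p]) (P : Matrix (Fin 2) (Fin 2) ℚ_[p]) :
    Pfl p d₁ d₂ (s + t) P = Pfl p d₁ d₂ s (Pfl p d₁ d₂ t P) := by
  simp only [Pfl_eq]
  ext i j
  fin_cases i <;> fin_cases j <;> simp <;> ring

theorem hom_map_mul {F : Type} [Field F] [CharZero F] (A B : Matrix (Fin 2) (Fin 2) ℚ) :
    (A * B).map ((↑) : ℚ → F) = A.map (↑) * B.map (↑) :=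
  Matrix.map_mul (f := Rat.castHom F)

theorem hom_map_det {F : Type} [Field F] [CharZero F] (A : Matrix (Fin 2) (Fin 2) ℚ) :
    (A.map ((↑) : ℚ → F)).det = A.det := by
  simp [Matrix.det_fin_two]

theorem hom_map_adj {F : Type} [Field F] [CharZero F] (A : Matrix (Fin 2) (Fin 2) ℚ) :
    A.adjugate.map ((↑) : ℚ → F) = (A.map (↑)).adjugate := by
  ext i j
  fin_cases i <;> fin_cases j <;> simp [Matrix.adjugate_fin_two]

theorem hom_map_smul {F : Type} [Field F] [CharZero F] (c : ℚ) (A : Matrix (Fin 2) (Fin 2) ℚ) :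
    (c • A).map ((↑) : ℚ → F) = (c : F) • A.map (↑) := by
  ext i j
  simp

theorem hom_move {F : Type} [Field F] {P ξ : Matrix (Fin 2) (Fin 2) F} {g g' : SL(2, F)}
    (h : P * (g : Matrix (Fin 2) (Fin 2) F) = (g' : Matrix (Fin 2) (Fin 2) F) * ξ)
    (γ γ' : SL(2, F)) :
    P * ((g * γ : SL(2, F)) : Matrix (Fin 2) (Fin 2) F) =
      ((g' * γ' : SL(2, F)) : Matrix (Fin 2) (Fin 2) F) *
        (((γ'⁻¹ : SL(2, F)) : Matrix (Fin 2) (Fin 2) F) * ξ * (γ : Matrix (Fin 2) (Fin 2) F)) := by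
  rw [← Matrix.mul_assoc, ← Matrix.mul_assoc, ← Matrix.SpecialLinearGroup.coe_mul,
    mul_inv_cancel_right, ← h, Matrix.SpecialLinearGroup.coe_mul, Matrix.mul_assoc]

theorem hom_left {F : Type} [Field F] {P ξ : Matrix (Fin 2) (Fin 2) F} {g g' : SL(2, F)}
    (h : P * (g : Matrix (Fin 2) (Fin 2) F) = (g' : Matrix (Fin 2) (Fin 2) F) * ξ)
    (a b : SL(2, F)) :
    (b : Matrix (Fin 2) (Fin 2) F) * P * ((a⁻¹ : SL(2, F)) : Matrix (Fin 2) (Fin 2) F) *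
        ((a * g : SL(2, F)) : Matrix (Fin 2) (Fin 2) F) =
      ((b * g' : SL(2, F)) : Matrix (Fin 2) (Fin 2) F) * ξ := by
  rw [Matrix.mul_assoc, ← Matrix.SpecialLinearGroup.coe_mul, inv_mul_cancel_left,
    Matrix.mul_assoc, h, Matrix.SpecialLinearGroup.coe_mul, Matrix.mul_assoc]

theorem hom_adj {F : Type} [Field F] {P ξ : Matrix (Fin 2) (Fin 2) F} {g g' : SL(2, F)}
    (h : P * (g : Matrix (Fin 2) (Fin 2) F) = (g' : Matrix (Fin 2) (Fin 2) F) * ξ) :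
    P.adjugate * (g' : Matrix (Fin 2) (Fin 2) F) = (g : Matrix (Fin 2) (Fin 2) F) * ξ.adjugate := by
  have h1 := congrArg Matrix.adjugate h
  rw [Matrix.adjugate_mul_distrib, Matrix.adjugate_mul_distrib] at h1
  have h2 : (g : Matrix (Fin 2) (Fin 2) F) * (g : Matrix (Fin 2) (Fin 2) F).adjugate = 1 := by
    rw [Matrix.mul_adjugate, g.det_coe, one_smul]
  have h3 : (g' : Matrix (Fin 2) (Fin 2) F).adjugate * (g' : Matrix (Fin 2) (Fin 2) F) = 1 := by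
    rw [Matrix.adjugate_mul, g'.det_coe, one_smul]
  calc P.adjugate * (g' : Matrix (Fin 2) (Fin 2) F)
      = (g : Matrix (Fin 2) (Fin 2) F) * ((g : Matrix (Fin 2) (Fin 2) F).adjugate * P.adjugate) *
        (g' : Matrix (Fin 2) (Fin 2) F) := by rw [← Matrix.mul_assoc, h2, Matrix.one_mul]
    _ = _ := by rw [h1, Matrix.mul_assoc, Matrix.mul_assoc, h3, Matrix.mul_one]

theorem hom_quot {F : Type} [Field F] {P P' ξ ξ' : Matrix (Fin 2) (Fin 2) F} {g g' : SL(2, F)}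
    (h : P * (g : Matrix (Fin 2) (Fin 2) F) = (g' : Matrix (Fin 2) (Fin 2) F) * ξ)
    (h' : P' * (g : Matrix (Fin 2) (Fin 2) F) = (g' : Matrix (Fin 2) (Fin 2) F) * ξ') (c : F) :
    c • (P'.adjugate * P) * (g : Matrix (Fin 2) (Fin 2) F) =
      (g : Matrix (Fin 2) (Fin 2) F) * c • (ξ'.adjugate * ξ) := by
  rw [Matrix.smul_mul, Matrix.mul_smul, Matrix.mul_assoc, h, ← Matrix.mul_assoc, hom_adj h',
    Matrix.mul_assoc]

theorem hom_det {F : Type} [Field F] {P ξ : Matrix (Fin 2) (Fin 2) F} {g g' : SL(2, F)}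
    (h : P * (g : Matrix (Fin 2) (Fin 2) F) = (g' : Matrix (Fin 2) (Fin 2) F) * ξ) :
    P.det = ξ.det := by
  simpa using congrArg Matrix.det h

theorem hom_bd_mul {F : Type} [NormedField F] {R S : ℝ} {P Q : Matrix (Fin 2) (Fin 2) F}
    (hP : Bd R P) (hQ : Bd S Q) : Bd (2 * (R * S)) (P * Q) := fun i j => by
  have hR : 0 ≤ R := (norm_nonneg _).trans (hP 0 0)
  rw [Matrix.mul_apply, Fin.sum_univ_two, two_mul]
  refine (norm_add_le _ _).trans (add_le_add ?_ ?_) <;> rw [norm_mul] <;>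
    exact mul_le_mul (hP _ _) (hQ _ _) (norm_nonneg _) hR

theorem hom_bd_mulP {R S : ℝ} {P Q : Matrix (Fin 2) (Fin 2) ℚ_[p]}
    (hP : Bd R P) (hQ : Bd S Q) : Bd (R * S) (P * Q) := fun i j => by
  have hR : 0 ≤ R := (norm_nonneg _).trans (hP 0 0)
  rw [Matrix.mul_apply, Fin.sum_univ_two]
  refine (Padic.nonarchimedean _ _).trans (max_le ?_ ?_) <;> rw [norm_mul] <;>
    exact mul_le_mul (hP _ _) (hQ _ _) (norm_nonneg _) hR

theorem hom_bd_inv {F : Type} [NormedField F] {R : ℝ} {g : SL(2, F)}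
    (h : Bd R (g : Matrix (Fin 2) (Fin 2) F)) :
    Bd R ((g⁻¹ : SL(2, F)) : Matrix (Fin 2) (Fin 2) F) := fun i j => by
  rw [Matrix.SpecialLinearGroup.SL2_inv_expl]
  fin_cases i <;> fin_cases j
  · simpa using h 1 1
  · simpa using h 0 1
  · simpa using h 1 0
  · simpa using h 0 0

theorem hom_bd_cpt {F : Type} [NormedField F] {C : Set SL(2, F)} (hC : IsCompact C) :
    ∃ M : ℝ, ∀ g ∈ C, Bd M (g : Matrix (Fin 2) (Fin 2) F) := by
  have hc : Continuous fun g : SL(2, F) => (fun i j => g i j : Fin 2 → Fin 2 → F) :=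
    continuous_pi fun i => continuous_pi fun j =>
      (continuous_apply j).comp ((continuous_apply i).comp continuous_subtype_val)
  obtain ⟨M, hM⟩ := (hC.image hc).isBounded.exists_norm_le
  exact ⟨M, fun g hg i j => (norm_entry_le _ i j).trans (hM _ ⟨_, hg, rfl⟩)⟩

theorem hom_bd_of {F : Type} [NormedField F] {P ξ : Matrix (Fin 2) (Fin 2) F} {g g' : SL(2, F)}
    (h : P * (g : Matrix (Fin 2) (Fin 2) F) = (g' : Matrix (Fin 2) (Fin 2) F) * ξ) {R M : ℝ}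
    (hP : Bd R P) (hg : Bd M (g : Matrix (Fin 2) (Fin 2) F))
    (hg' : Bd M (g' : Matrix (Fin 2) (Fin 2) F)) : Bd (2 * (M * (2 * (R * M)))) ξ := by
  have h1 := hom_bd_mul (hom_bd_inv hg') (hom_bd_mul hP hg)
  rwa [h, ← Matrix.mul_assoc, ← Matrix.SpecialLinearGroup.coe_mul, inv_mul_cancel,
    Matrix.SpecialLinearGroup.coe_one, Matrix.one_mul] at h1

theorem hom_Pfl (d₁ d₂ s : ℚ_[p]) (P : Matrix (Fin 2) (Fin 2) ℚ_[p]) :
    Pfl p d₁ d₂ s P = (uu (d₂ * s) : Matrix (Fin 2) (Fin 2) ℚ_[p]) * P *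
      (uu (-(d₁ * s)) : Matrix (Fin 2) (Fin 2) ℚ_[p]) := rfl

theorem HomS.rep {q : ℕ} {δ : ℚ} {x y : XX p} {P : MM p} (h : P ∈ HomS p q δ x y) {g g' : GG p}
    (hg : (g : XX p) = x) (hg' : (g' : XX p) = y) : ∃ ξ : Matrix (Fin 2) (Fin 2) ℚ,
      (∀ i j, InZp p (q * ξ i j)) ∧ ξ.det = δ ∧ IsHom p g g' ξ P := by
  obtain ⟨g₀, g₀', hg₀, hg₀', ξ, hξ, hδ, h1, h2⟩ := h
  obtain ⟨γ, hγ, hγe⟩ : g₀⁻¹ * g ∈ Gam p := QuotientGroup.eq.1 (hg₀.trans hg.symm)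
  obtain ⟨γ', hγ', hγe'⟩ : g₀'⁻¹ * g' ∈ Gam p := QuotientGroup.eq.1 (hg₀'.trans hg'.symm)
  obtain rfl : g = g₀ * emb p γ := by rw [hγe, mul_inv_cancel_left]
  obtain rfl : g' = g₀' * emb p γ' := by rw [hγe', mul_inv_cancel_left]
  have hi := (GamQ p).inv_mem hγ'
  refine ⟨((γ'⁻¹ : SL(2, ℚ)) : Matrix (Fin 2) (Fin 2) ℚ) * ξ * (γ : Matrix (Fin 2) (Fin 2) ℚ),
    fun i j => ?_, by
      rw [Matrix.det_mul, Matrix.det_mul, γ.det_coe, (γ'⁻¹).det_coe, one_mul, mul_one, hδ], ?_, ?_⟩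
  · have := ((((hi i 0).mul (hξ 0 0)).add ((hi i 1).mul (hξ 1 0))).mul (hγ 0 j)).add
      ((((hi i 0).mul (hξ 0 1)).add ((hi i 1).mul (hξ 1 1))).mul (hγ 1 j))
    convert this using 1
    simp only [Matrix.mul_apply, Fin.sum_univ_two]
    ring
  · rw [hom_map_mul, hom_map_mul]
    have := hom_move h1 (emb p γ).1 (emb p γ').1
    rw [← Prod.fst_inv, ← map_inv] at this
    exact this
  · rw [hom_map_mul, hom_map_mul]
    have := hom_move h2 (emb p γ).2 (emb p γ').2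
    rw [← Prod.snd_inv, ← map_inv] at this
    exact this

theorem HomS.det {q : ℕ} {δ : ℚ} {x y : XX p} {P : MM p} (h : P ∈ HomS p q δ x y) :
    P.1.det = δ ∧ P.2.det = δ := by
  obtain ⟨g, g', -, -, ξ, -, rfl, h1, h2⟩ := h
  exact ⟨by rw [hom_det h1, hom_map_det], by rw [hom_det h2, hom_map_det]⟩

theorem HomS.smul {q : ℕ} {δ : ℚ} {x y : XX p} {P : MM p} (h : P ∈ HomS p q δ x y) (a b : GG p) :
    (((b.1 : Matrix (Fin 2) (Fin 2) ℝ) * P.1 * ((a.1⁻¹ : SL(2, ℝ)) : Matrix (Fin 2) (Fin 2) ℝ),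
      (b.2 : Matrix (Fin 2) (Fin 2) ℚ_[p]) * P.2 *
        ((a.2⁻¹ : SL(2, ℚ_[p])) : Matrix (Fin 2) (Fin 2) ℚ_[p])) : MM p) ∈
      HomS p q δ (a • x) (b • y) := by
  obtain ⟨g, g', rfl, rfl, ξ, hξ, hδ, h1, h2⟩ := h
  exact ⟨a * g, b * g', rfl, rfl, ξ, hξ, hδ, hom_left h1 a.1 b.1, hom_left h2 a.2 b.2⟩

theorem HomS.flow {q : ℕ} {δ : ℚ} {x y : XX p} {P : MM p} (h : P ∈ HomS p q δ x y)
    (d₁ d₂ s : ℚ_[p]) :
    ((P.1, Pfl p d₁ d₂ s P.2) : MM p) ∈ HomS p q δ (uP p (d₁ * s) • x) (uP p (d₂ * s) • y) := by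
  have := HomS.smul h (uP p (d₁ * s)) (uP p (d₂ * s))
  simp only [uP, uu_inv, inv_one, Matrix.SpecialLinearGroup.coe_one, Matrix.one_mul,
    Matrix.mul_one] at this
  exact this

/-- The quotient of two maps with the same determinant. -/
theorem HomS.quot {q : ℕ} {δ : ℚ} (hδ : δ ≠ 0) {x y : XX p} {P P' : MM p}
    (h : P ∈ HomS p q δ x y) (h' : P' ∈ HomS p q δ x y) :
    (((δ : ℝ)⁻¹ • (P'.1.adjugate * P.1), (δ : ℚ_[p])⁻¹ • (P'.2.adjugate * P.2)) : MM p) ∈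
      HomS p (q * q * δ.num.natAbs) 1 x x := by
  obtain ⟨g, g', hg, hg', ξ, hξ, hd, h1, h2⟩ := h
  obtain ⟨ξ', hξ', hd', h1', h2'⟩ := HomS.rep h' hg hg'
  refine ⟨g, g, hg, hg, δ⁻¹ • (ξ'.adjugate * ξ), fun i j => ?_, ?_, ?_, ?_⟩
  · have ha : ∀ i j, InZp p (q * ξ'.adjugate i j) := fun i j => by
      rw [Matrix.adjugate_fin_two]
      fin_cases i <;> fin_cases j
      · simpa using hξ' 1 1
      · simpa using (hξ' 0 1).neg
      · simpa using (hξ' 1 0).neg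
      · simpa using hξ' 0 0
    have hn : InZp p ((δ.num.natAbs : ℚ) * δ⁻¹) := by
      have h3 : (δ.num : ℚ) * δ⁻¹ = (δ.den : ℤ) := by
        rw [mul_inv_eq_iff_eq_mul₀ hδ, Int.cast_natCast, Rat.den_mul_eq_num]
      rw [Nat.cast_natAbs]
      rcases abs_choice δ.num with h4 | h4 <;> rw [h4]
      · rw [h3]; exact inZp_int p _
      · rw [Int.cast_neg, neg_mul, h3]; exact (inZp_int p _).neg
    have := hn.mul (((ha i 0).mul (hξ 0 j)).add ((ha i 1).mul (hξ 1 j)))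
    convert this using 1
    simp only [Matrix.smul_apply, Matrix.mul_apply, Fin.sum_univ_two, smul_eq_mul, Nat.cast_mul]
    ring
  · rw [Matrix.det_smul, Matrix.det_mul, Matrix.det_adjugate, hd, hd']
    simp only [Fintype.card_fin, Nat.add_one_sub_one, pow_one]
    field_simp
  · rw [hom_map_smul, hom_map_mul, hom_map_adj, Rat.cast_inv]
    exact hom_quot h1 h1' _
  · rw [hom_map_smul, hom_map_mul, hom_map_adj, Rat.cast_inv]
    exact hom_quot h2 h2' _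

/-- Over compact sets of frames only finitely many rational matrices give bounded maps. -/
theorem finite_hom {q : ℕ} (hq : 0 < q) (R : ℝ) {C : Set (GG p)} (hC : IsCompact C) :
    {ξ : Matrix (Fin 2) (Fin 2) ℚ | (∀ i j, InZp p (q * ξ i j)) ∧ ∃ g ∈ C, ∃ g' ∈ C, ∃ P : MM p,
      IsHom p g g' ξ P ∧ Bd R P.1 ∧ Bd R P.2}.Finite := by
  obtain ⟨M₁, h₁⟩ := hom_bd_cpt (hC.image continuous_fst)
  obtain ⟨M₂, h₂⟩ := hom_bd_cpt (hC.image continuous_snd)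
  have hf := finite_bounded p q hq (max (2 * (M₁ * (2 * (R * M₁)))) (2 * (M₂ * (2 * (R * M₂)))))
  refine (Set.Finite.pi' fun _ : Fin 2 => Set.Finite.pi' fun _ : Fin 2 => hf).subset ?_
  rintro ξ ⟨hξ, g, hg, g', hg', P, hP, hR, hR'⟩ i j
  exact ⟨hξ i j,
    le_max_of_le_left (hom_bd_of hP.1 hR (h₁ _ ⟨g, hg, rfl⟩) (h₁ _ ⟨g', hg', rfl⟩) i j),
    le_max_of_le_right (hom_bd_of hP.2 hR' (h₂ _ ⟨g, hg, rfl⟩) (h₂ _ ⟨g', hg', rfl⟩) i j)⟩

/-- The norm bound is invariant under `K`. -/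
theorem Bd.K {R : ℝ} {P : Matrix (Fin 2) (Fin 2) ℚ_[p]} (h : Bd R P) {a b : SL(2, ℚ_[p])}
    (ha : a ∈ Kp p) (hb : b ∈ Kp p) :
    Bd R ((a : Matrix (Fin 2) (Fin 2) ℚ_[p]) * P * (b : Matrix (Fin 2) (Fin 2) ℚ_[p])) := by
  have := hom_bd_mulP (hom_bd_mulP (show Bd 1 (a : Matrix (Fin 2) (Fin 2) ℚ_[p]) from ha) h)
    (show Bd 1 (b : Matrix (Fin 2) (Fin 2) ℚ_[p]) from hb)
  rwa [one_mul, mul_one] at this

/-- A small change of the speeds does not change the bound. -/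
theorem Bd.speed {R : ℝ} {P : Matrix (Fin 2) (Fin 2) ℚ_[p]} {d₁ d₂ e₁ e₂ s : ℚ_[p]}
    (h : Bd R (Pfl p d₁ d₂ s P)) (h1 : ‖(e₁ - d₁) * s‖ ≤ 1) (h2 : ‖(e₂ - d₂) * s‖ ≤ 1) :
    Bd R (Pfl p e₁ e₂ s P) := by
  have h3 := h.K (uu_mem_Kp p h2) (uu_mem_Kp p (s := -((e₁ - d₁) * s)) (by rwa [norm_neg]))
  have e2 : e₂ * s = (e₂ - d₂) * s + d₂ * s := by ring
  have e1 : -(e₁ * s) = -(d₁ * s) + -((e₁ - d₁) * s) := by ring
  rw [hom_Pfl, e1, e2, uu_add, uu_add]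
  rw [hom_Pfl] at h3
  simpa only [Matrix.SpecialLinearGroup.coe_mul, Matrix.mul_assoc] using h3

theorem hom_conj (d : ℚ_[p]) (r : ℝ) : ∀ᶠ a : SL(2, ℚ_[p]) in 𝓝 1, ∀ s : ℚ_[p], ‖s‖ ≤ r →
    uu (d * s) * a * uu (-(d * s)) ∈ Kp p := by
  have h := (isCompact_closedBall (0 : ℚ_[p]) r).eventually_forall_of_forall_eventually
    (x₀ := (1 : SL(2, ℚ_[p]))) (P := fun a s => uu (d * s) * a * uu (-(d * s)) ∈ Kp p)
    fun s _ => by
      have hc : Continuous fun z : SL(2, ℚ_[p]) × ℚ_[p] =>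
          uu (d * z.2) * z.1 * uu (-(d * z.2)) :=
        ((continuous_uu.comp (continuous_const.mul continuous_snd)).mul continuous_fst).mul
          (continuous_uu.comp (continuous_const.mul continuous_snd).neg)
      refine ((Kp_open p).preimage hc).mem_nhds ?_
      change uu (d * s) * 1 * uu (-(d * s)) ∈ Kp p
      rw [mul_one, ← uu_add, add_neg_cancel, uu_zero]
      exact (Kp p).one_mem
  exact h.mono fun a ha s hs => ha s (mem_closedBall_zero_iff.2 hs)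

/-- The set where a bounded map stays bounded along the ball of radius `p^l` is open. -/
theorem isOpen_hom (q : ℕ) (δ : ℚ) {R : ℝ} (hR : 0 < R) (d₁ d₂ : ℚ_[p]) (l : ℤ) :
    IsOpen {w : XX p × XX p | ∃ P ∈ HomS p q δ w.1 w.2, (∀ i j, |P.1 i j| < R) ∧
      ∀ s : ℚ_[p], ‖s‖ ≤ (p : ℝ) ^ l → Bd R (Pfl p d₁ d₂ s P.2)} := by
  have _h := hR
  rw [isOpen_iff_mem_nhds]
  rintro ⟨x, y⟩ ⟨P, hP, h1, h2⟩
  have hv : Continuous fun g : SL(2, ℝ) => (g : Matrix (Fin 2) (Fin 2) ℝ) :=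
    continuous_subtype_val
  have hc : Continuous fun z : GG p × GG p => (z.2.1 : Matrix (Fin 2) (Fin 2) ℝ) * P.1 *
      ((z.1.1⁻¹ : SL(2, ℝ)) : Matrix (Fin 2) (Fin 2) ℝ) :=
    ((hv.comp continuous_snd.fst).mul continuous_const).mul (hv.comp continuous_fst.fst.inv)
  have e1 : ∀ᶠ z : GG p × GG p in 𝓝 (1, 1), ∀ i j, |((z.2.1 : Matrix (Fin 2) (Fin 2) ℝ) * P.1 *
      ((z.1.1⁻¹ : SL(2, ℝ)) : Matrix (Fin 2) (Fin 2) ℝ)) i j| < R := by
    refine eventually_all.2 fun i => eventually_all.2 fun j => ?_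
    refine (hc.matrix_elem i j).abs.continuousAt.eventually_lt continuousAt_const ?_
    simpa using h1 i j
  have t2 : Tendsto (fun z : GG p × GG p => z.2.2) (𝓝 (1, 1)) (𝓝 1) :=
    continuous_snd.snd.tendsto' _ _ rfl
  have t1 : Tendsto (fun z : GG p × GG p => z.1.2⁻¹) (𝓝 (1, 1)) (𝓝 1) :=
    continuous_fst.snd.inv.tendsto' _ _ inv_one
  have e := e1.and ((t2.eventually (hom_conj d₂ ((p : ℝ) ^ l))).and
    (t1.eventually (hom_conj d₁ ((p : ℝ) ^ l))))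
  obtain ⟨V, hV, W, hW, hVW⟩ := mem_nhds_prod_iff.1 e
  refine mem_of_superset (prod_mem_nhds (exists_nhds_smul p x hV) (exists_nhds_smul p y hW)) ?_
  rintro ⟨_, _⟩ ⟨⟨a, ha, rfl⟩, ⟨b, hb, rfl⟩⟩
  obtain ⟨k1, k2, k3⟩ := hVW (show (a, b) ∈ V ×ˢ W from ⟨ha, hb⟩)
  refine ⟨_, HomS.smul hP a b, k1, fun s hs => ?_⟩
  have h3 := (h2 s hs).K (k2 s hs) (k3 s hs)
  have h4 : ∀ t : ℚ_[p], uu (-t) * uu t = 1 := fun t => by rw [← uu_add, neg_add_cancel, uu_zero]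
  rw [hom_Pfl, ← Matrix.mul_assoc, ← Matrix.mul_assoc, ← Matrix.SpecialLinearGroup.coe_mul,
    mul_assoc _ (uu _) (uu _), h4, mul_one, Matrix.mul_assoc _ _ (_ : SL(2, ℚ_[p])).1,
    ← Matrix.SpecialLinearGroup.coe_mul, ← mul_assoc, ← mul_assoc, h4, one_mul] at h3
  rw [hom_Pfl]
  simpa only [Matrix.SpecialLinearGroup.coe_mul, Matrix.mul_assoc] using h3

end Pool.Agent.EQ
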