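import Pool.Agent.P.MP_ad7a55_nt.Frame
import Pool.Agent.P.MP_ad7a55_nt.Hom

/-! Exceptional ball orbits come from isogenies. -/

set_option autoImplicit false

noncomputable section

open MeasureTheory Topology Filter UpperHalfPlane
open scoped MatrixGroups ENNReal BoundedContinuousFunction

namespace Pool.Agent.EQ

/-- The trace form `tr (A B C adj B)`. -/
def excW {F : Type} [CommRing F] (A B C : Matrix (Fin 2) (Fin 2) F) : F :=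
  (A * B * C * B.adjugate).trace

theorem excW_eq {F : Type} [CommRing F] (A B C : Matrix (Fin 2) (Fin 2) F) :
    excW A B C =
      ((A 0 0 * B 0 0 + A 0 1 * B 1 0) * C 0 0 + (A 0 0 * B 0 1 + A 0 1 * B 1 1) * C 1 0) * B 1 1 +
      ((A 0 0 * B 0 0 + A 0 1 * B 1 0) * C 0 1 + (A 0 0 * B 0 1 + A 0 1 * B 1 1) * C 1 1) *
        (-B 1 0) +
      (((A 1 0 * B 0 0 + A 1 1 * B 1 0) * C 0 0 + (A 1 0 * B 0 1 + A 1 1 * B 1 1) * C 1 0) *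
        (-B 0 1) +
      ((A 1 0 * B 0 0 + A 1 1 * B 1 0) * C 0 1 + (A 1 0 * B 0 1 + A 1 1 * B 1 1) * C 1 1) *
        B 0 0) := by
  simp [excW, Matrix.trace_fin_two, Matrix.mul_apply, Fin.sum_univ_two, Matrix.adjugate_fin_two]

theorem excW_conj {F : Type} [CommRing F] (g₁ g₂ : SL(2, F))
    {Θ₁ Θ₂ ξ P S₁ S₂ : Matrix (Fin 2) (Fin 2) F}
    (h₁ : (g₁ : Matrix (Fin 2) (Fin 2) F) * Θ₁ = S₁ * (g₁ : Matrix (Fin 2) (Fin 2) F))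
    (h₂ : (g₂ : Matrix (Fin 2) (Fin 2) F) * Θ₂ = S₂ * (g₂ : Matrix (Fin 2) (Fin 2) F))
    (h : P * (g₁ : Matrix (Fin 2) (Fin 2) F) = (g₂ : Matrix (Fin 2) (Fin 2) F) * ξ) :
    excW Θ₂ ξ Θ₁ = excW S₂ P S₁ := by
  obtain ⟨A, hA⟩ := g₁
  obtain ⟨B, hB⟩ := g₂
  change A * Θ₁ = S₁ * A at h₁
  change B * Θ₂ = S₂ * B at h₂
  change P * A = B * ξ at h
  have a1 : A * A.adjugate = 1 := by rw [Matrix.mul_adjugate, hA, one_smul]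
  have b1 : B * B.adjugate = 1 := by rw [Matrix.mul_adjugate, hB, one_smul]
  have b2 : B.adjugate * B = 1 := by rw [Matrix.adjugate_mul, hB, one_smul]
  have h3 : A.adjugate * P.adjugate = ξ.adjugate * B.adjugate := by
    rw [← Matrix.adjugate_mul_distrib, ← Matrix.adjugate_mul_distrib, h]
  have h4 : A * ξ.adjugate = P.adjugate * B := by
    calc A * ξ.adjugate = A * (ξ.adjugate * B.adjugate) * B := by
          rw [Matrix.mul_assoc, Matrix.mul_assoc, b2, Matrix.mul_one]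
      _ = P.adjugate * B := by rw [← h3, ← Matrix.mul_assoc, a1, Matrix.one_mul]
  have h5 : B * (Θ₂ * ξ * Θ₁ * ξ.adjugate) = S₂ * P * S₁ * P.adjugate * B := by
    calc B * (Θ₂ * ξ * Θ₁ * ξ.adjugate) = (B * Θ₂) * ξ * Θ₁ * ξ.adjugate := by
          simp only [Matrix.mul_assoc]
      _ = S₂ * (B * ξ) * Θ₁ * ξ.adjugate := by rw [h₂]; simp only [Matrix.mul_assoc]
      _ = S₂ * P * (A * Θ₁) * ξ.adjugate := by rw [← h]; simp only [Matrix.mul_assoc]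
      _ = S₂ * P * S₁ * (A * ξ.adjugate) := by rw [h₁]; simp only [Matrix.mul_assoc]
      _ = S₂ * P * S₁ * P.adjugate * B := by rw [h4]; simp only [Matrix.mul_assoc]
  unfold excW
  calc (Θ₂ * ξ * Θ₁ * ξ.adjugate).trace
      = (B.adjugate * (B * (Θ₂ * ξ * Θ₁ * ξ.adjugate))).trace := by
        rw [← Matrix.mul_assoc, b2, Matrix.one_mul]
    _ = (S₂ * P * S₁ * P.adjugate * B * B.adjugate).trace := by
        rw [h5, Matrix.trace_mul_comm]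
    _ = (S₂ * P * S₁ * P.adjugate).trace := by rw [Matrix.mul_assoc _ B, b1, Matrix.mul_one]

theorem excW_cast {F : Type} [Field F] [CharZero F] (A C : Matrix (Fin 2) (Fin 2) ℤ)
    (B : Matrix (Fin 2) (Fin 2) ℚ) :
    ((excW (A.map (↑)) B (C.map (↑)) : ℚ) : F) =
      excW (A.map (↑)) (B.map (↑)) (C.map (↑)) := by
  simp only [excW_eq, Matrix.map_apply]
  push_cast
  ring

theorem excW_inZp {p q : ℕ} (A C : Matrix (Fin 2) (Fin 2) ℤ) {B : Matrix (Fin 2) (Fin 2) ℚ}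
    (h : ∀ i j, InZp p (q * B i j)) (n : ℤ) :
    InZp p ((q : ℚ) ^ 2 * (excW (A.map (↑)) B (C.map (↑)) - 2 * n * B.det)) := by
  have e : (q : ℚ) ^ 2 * (excW (A.map (↑)) B (C.map (↑)) - 2 * n * B.det) =
      excW (A.map (↑)) (Matrix.of fun i j => q * B i j) (C.map (↑)) +
        ((-2 * n : ℤ) : ℚ) * ((q * B 0 0) * (q * B 1 1) + -((q * B 0 1) * (q * B 1 0))) := by
    simp only [excW_eq, Matrix.map_apply, Matrix.of_apply, Matrix.det_fin_two]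
    push_cast
    ring
  rw [e, excW_eq]
  simp only [Matrix.map_apply, Matrix.of_apply]
  repeat' first
    | exact h _ _
    | exact inZp_int _ _
    | apply InZp.add
    | apply InZp.neg
    | apply InZp.mul

/-- Two lattices related by an integral matrix. -/
theorem exc_lat {u₀ u₁ w₀ w₁ μ : ℂ} {a b c d k : ℤ} {N : ℕ} (h₀ : μ * u₀ = a * w₀ + c * w₁)
    (h₁ : μ * u₁ = b * w₀ + d * w₁) (hN : (N : ℤ) = k * (a * d - b * c)) :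
    pr μ * sp u₀ u₁ ≤ sp w₀ w₁ ∧ pr N * sp w₀ w₁ ≤ pr μ * sp u₀ u₁ := by
  have hN' : (N : ℂ) = k * (a * d - b * c) := by exact_mod_cast congrArg (fun z : ℤ => (z : ℂ)) hN
  constructor
  · rw [pr_mul_le]
    intro w hw
    obtain ⟨m, n, rfl⟩ := mem_sp.1 hw
    refine mem_sp.2 ⟨m * a + n * b, m * c + n * d, ?_⟩
    push_cast
    linear_combination (m : ℂ) * h₀ + (n : ℂ) * h₁
  · rw [pr_mul_le, pr_mul_sp]
    intro w hw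
    obtain ⟨m, n, rfl⟩ := mem_sp.1 hw
    refine mem_sp.2 ⟨k * (m * d - n * b), k * (n * a - m * c), ?_⟩
    rw [h₀, h₁, hN']
    push_cast
    ring

variable (p : ℕ) [Fact p.Prime]

theorem exc_int_prod {m : ℤ} (hm : m ≠ 0) : 1 ≤ |(m : ℝ)| * ‖(m : ℚ_[p])‖ := by
  have hp : (0 : ℝ) < p := by exact_mod_cast (Fact.out : p.Prime).pos
  have h1 : (m : ℚ_[p]) ≠ 0 := by exact_mod_cast hm
  rw [Padic.norm_eq_zpow_neg_valuation h1, Padic.valuation_intCast, zpow_neg, zpow_natCast,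
    ← div_eq_mul_inv, le_div_iff₀ (by positivity), one_mul]
  have h2 : (p : ℤ) ^ padicValInt p m ≤ |m| :=
    Int.le_of_dvd (abs_pos.2 hm) ((dvd_abs _ _).2 (padicValInt_dvd m))
  exact_mod_cast h2

/-- The product formula for `ℤ[1/p]`. -/
theorem exc_prod {x : ℚ} (hx : InZp p x) (h0 : x ≠ 0) : 1 ≤ |(x : ℝ)| * ‖(x : ℚ_[p])‖ := by
  obtain ⟨a, m, h⟩ := hx
  have hp : (0 : ℝ) < p := by exact_mod_cast (Fact.out : p.Prime).pos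
  have hp' : (p : ℚ) ≠ 0 := by exact_mod_cast (Fact.out : p.Prime).ne_zero
  have hm : m ≠ 0 := by
    rintro rfl
    exact mul_ne_zero (pow_ne_zero a hp') h0 (by simpa using h)
  have e1 : (m : ℝ) = (p : ℝ) ^ a * x := by
    have := congrArg (fun z : ℚ => (z : ℝ)) h
    simpa using this.symm
  have e2 : (m : ℚ_[p]) = (p : ℚ_[p]) ^ a * x := by
    have := congrArg (fun z : ℚ => (z : ℚ_[p])) h
    simpa using this.symm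
  have h1 := exc_int_prod p hm
  rw [e1, e2, abs_mul, norm_mul, norm_pow, Padic.norm_p, abs_of_pos (pow_pos hp a), inv_pow] at h1
  refine h1.trans (le_of_eq ?_)
  field_simp

theorem exc_int {x : ℚ} (hx : InZp p x) (h1 : ‖(x : ℚ_[p])‖ ≤ 1) : ∃ n : ℤ, x = n := by
  obtain ⟨e, m, h⟩ := hx
  have hp' : (p : ℚ) ≠ 0 := by exact_mod_cast (Fact.out : p.Prime).ne_zero
  have h6 : ‖((m : ℤ) : ℚ_[p])‖ ≤ (p : ℝ) ^ (-(e : ℤ)) := by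
    have : ((m : ℤ) : ℚ_[p]) = (p : ℚ_[p]) ^ e * (x : ℚ_[p]) := by
      have := congrArg (fun z : ℚ => (z : ℚ_[p])) h
      simpa using this.symm
    rw [this, norm_mul, norm_pow, Padic.norm_p, zpow_neg, zpow_natCast, inv_pow]
    exact mul_le_of_le_one_right (by positivity) h1
  obtain ⟨n, hn'⟩ := (Padic.norm_int_le_pow_iff_dvd m e).1 h6
  refine ⟨n, mul_left_cancel₀ (pow_ne_zero e hp') ?_⟩
  rw [h, hn']; push_cast; ring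

theorem exc_two : 1 ≤ (p : ℝ) * ‖(2 : ℚ_[p])‖ := by
  have h := exc_int_prod p (m := 2) two_ne_zero
  have h2 : (2 : ℝ) ≤ p := by exact_mod_cast (Fact.out : p.Prime).two_le
  have e : ((2 : ℤ) : ℚ_[p]) = 2 := by norm_num
  rw [e] at h
  refine h.trans (mul_le_mul_of_nonneg_right ?_ (norm_nonneg _))
  simpa using h2

/-- The `p`-adic estimate. -/
theorem exc_padic {D₁ D₂ Pi e₁ e₂ d₁ d₂ a b c d : ℚ_[p]} {R u : ℝ} (hu : 0 < u) (hR : 0 ≤ R)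
    (he₁ : ‖e₁‖ = ‖(2 : ℚ_[p])‖) (he₂ : ‖e₂‖ = ‖(2 : ℚ_[p])‖) (hd₁ : d₁ ≠ 0) (hd₂ : d₂ ≠ 0)
    (hP₁ : Pi * d₂ * e₁ = D₁ * e₂ * d₁) (hP₂ : Pi * d₁ * e₂ = D₂ * e₁ * d₂)
    (hPi : Pi ^ 2 = D₁ * D₂)
    (h₁ : ‖D₁‖ * (‖d₁‖ * u) ^ 2 ≤ 1) (h₂ : ‖D₂‖ * (‖d₂‖ * u) ^ 2 ≤ 1)
    (hb : ‖b‖ ≤ R) (hl : ‖d₂ * d - d₁ * a‖ * u ≤ R * p)
    (hc : ‖d₁ * d₂ * c‖ * u ^ 2 ≤ R * p ^ 2) :
    ‖excW !![0, e₂; D₂ / e₂, 0] !![a, b; c, d] !![0, e₁; D₁ / e₁, 0] - 2 * Pi * (a * d - b * c)‖ *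
      ((‖d₁‖ * u) ^ 2 * (‖d₂‖ * u) ^ 2) ≤ p ^ 4 * R ^ 2 := by
  have hp1 : (1 : ℝ) ≤ p := by exact_mod_cast (Fact.out : p.Prime).one_le
  have h2 := exc_two p
  have h2' : ‖(2 : ℚ_[p])‖ ≤ 1 := by simpa using Padic.norm_int_le_one (p := p) 2
  have h20 : 0 < ‖(2 : ℚ_[p])‖ := norm_pos_iff.2 two_ne_zero
  have e10 : e₁ ≠ 0 := norm_pos_iff.1 (he₁ ▸ h20)
  have e20 : e₂ ≠ 0 := norm_pos_iff.1 (he₂ ▸ h20)
  have hD₁ : D₁ = Pi * d₂ * e₁ / (e₂ * d₁) := by rw [hP₁]; field_simp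
  have hD₂ : D₂ = Pi * d₁ * e₂ / (e₁ * d₂) := by rw [hP₂]; field_simp
  have key : excW !![0, e₂; D₂ / e₂, 0] !![a, b; c, d] !![0, e₁; D₁ / e₁, 0] -
      2 * Pi * (a * d - b * c) =
      (-(e₁ * e₂ * c ^ 2) + Pi * (d₂ * d - d₁ * a) ^ 2 / (d₁ * d₂)) +
        (-(Pi ^ 2 / (e₁ * e₂) * b ^ 2) + 2 * Pi * b * c) := by
    rw [excW_eq]
    simp only [Matrix.of_apply, Matrix.cons_val', Matrix.cons_val_zero, Matrix.cons_val_one,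
      Matrix.cons_val_fin_one]
    rw [hD₁, hD₂]
    field_simp
    ring
  set x₁ := ‖d₁‖ with hx₁
  set x₂ := ‖d₂‖ with hx₂
  have x10 : 0 < x₁ := norm_pos_iff.2 hd₁
  have x20 : 0 < x₂ := norm_pos_iff.2 hd₂
  set T := x₁ * x₂ * u ^ 2 with hT
  have T0 : 0 < T := by positivity
  have eT : (x₁ * u) ^ 2 * (x₂ * u) ^ 2 = T ^ 2 := by rw [hT]; ring
  have hPT : ‖Pi‖ * T ≤ 1 := by
    have : (‖Pi‖ * T) ^ 2 ≤ 1 := by
      rw [mul_pow, ← norm_pow, hPi, norm_mul, ← eT]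
      calc ‖D₁‖ * ‖D₂‖ * ((x₁ * u) ^ 2 * (x₂ * u) ^ 2)
          = (‖D₁‖ * (x₁ * u) ^ 2) * (‖D₂‖ * (x₂ * u) ^ 2) := by ring
        _ ≤ 1 := mul_le_one₀ h₁ (by positivity) h₂
    exact (pow_le_one_iff_of_nonneg (by positivity) two_ne_zero).1 this
  have hcT : ‖c‖ * T ≤ R * p ^ 2 := by
    rw [norm_mul, norm_mul] at hc
    refine le_trans (le_of_eq ?_) hc
    rw [hT]; ring
  have hp24 : (p : ℝ) ^ 2 * R ^ 2 ≤ p ^ 4 * R ^ 2 :=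
    mul_le_mul_of_nonneg_right (pow_le_pow_right₀ hp1 (by norm_num)) (by positivity)
  have t1 : ‖-(e₁ * e₂ * c ^ 2)‖ * T ^ 2 ≤ p ^ 4 * R ^ 2 := by
    rw [norm_neg, norm_mul, norm_mul, norm_pow, he₁, he₂]
    calc ‖(2 : ℚ_[p])‖ * ‖(2 : ℚ_[p])‖ * ‖c‖ ^ 2 * T ^ 2
        = (‖(2 : ℚ_[p])‖ * ‖(2 : ℚ_[p])‖) * (‖c‖ * T) ^ 2 := by ring
      _ ≤ 1 * (R * p ^ 2) ^ 2 :=
          mul_le_mul (mul_le_one₀ h2' h20.le h2') (pow_le_pow_left₀ (by positivity) hcT 2)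
            (by positivity) zero_le_one
      _ = p ^ 4 * R ^ 2 := by ring
  have t2 : ‖Pi * (d₂ * d - d₁ * a) ^ 2 / (d₁ * d₂)‖ * T ^ 2 ≤ p ^ 4 * R ^ 2 := by
    rw [norm_div, norm_mul, norm_mul, norm_pow, ← hx₁, ← hx₂]
    calc ‖Pi‖ * ‖d₂ * d - d₁ * a‖ ^ 2 / (x₁ * x₂) * T ^ 2
        = (‖Pi‖ * T) * (‖d₂ * d - d₁ * a‖ * u) ^ 2 := by rw [hT]; field_simp
      _ ≤ 1 * (R * p) ^ 2 :=
          mul_le_mul hPT (pow_le_pow_left₀ (by positivity) hl 2) (by positivity) zero_le_one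
      _ = p ^ 2 * R ^ 2 := by ring
      _ ≤ p ^ 4 * R ^ 2 := hp24
  have t3 : ‖-(Pi ^ 2 / (e₁ * e₂) * b ^ 2)‖ * T ^ 2 ≤ p ^ 4 * R ^ 2 := by
    rw [norm_neg, norm_mul, norm_div, norm_mul, norm_pow, norm_pow, he₁, he₂]
    have h3 : ‖(2 : ℚ_[p])‖⁻¹ ≤ p := by
      rw [inv_le_iff_one_le_mul₀ h20]; exact h2
    calc ‖Pi‖ ^ 2 / (‖(2 : ℚ_[p])‖ * ‖(2 : ℚ_[p])‖) * ‖b‖ ^ 2 * T ^ 2
        = (‖Pi‖ * T) ^ 2 * (‖(2 : ℚ_[p])‖⁻¹ * ‖b‖) ^ 2 := by field_simp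
      _ ≤ 1 * (p * R) ^ 2 :=
          mul_le_mul (pow_le_one₀ (by positivity) hPT)
            (pow_le_pow_left₀ (by positivity) (mul_le_mul h3 hb (norm_nonneg _) (by positivity)) 2)
            (by positivity) zero_le_one
      _ = p ^ 2 * R ^ 2 := by ring
      _ ≤ p ^ 4 * R ^ 2 := hp24
  have t4 : ‖2 * Pi * b * c‖ * T ^ 2 ≤ p ^ 4 * R ^ 2 := by
    rw [norm_mul, norm_mul, norm_mul]
    calc ‖(2 : ℚ_[p])‖ * ‖Pi‖ * ‖b‖ * ‖c‖ * T ^ 2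
        = (‖(2 : ℚ_[p])‖ * (‖Pi‖ * T)) * (‖b‖ * (‖c‖ * T)) := by ring
      _ ≤ 1 * (R * (R * p ^ 2)) :=
          mul_le_mul (mul_le_one₀ h2' (by positivity) hPT)
            (mul_le_mul hb hcT (by positivity) hR) (by positivity) zero_le_one
      _ = p ^ 2 * R ^ 2 := by ring
      _ ≤ p ^ 4 * R ^ 2 := hp24
  have na : ∀ y z : ℚ_[p], ‖y‖ * T ^ 2 ≤ p ^ 4 * R ^ 2 → ‖z‖ * T ^ 2 ≤ p ^ 4 * R ^ 2 →
      ‖y + z‖ * T ^ 2 ≤ p ^ 4 * R ^ 2 := by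
    intro y z hy hz
    rcases le_max_iff.1 (Padic.nonarchimedean y z) with h | h
    · exact (mul_le_mul_of_nonneg_right h (by positivity)).trans hy
    · exact (mul_le_mul_of_nonneg_right h (by positivity)).trans hz
  rw [key, eT]
  exact na _ _ (na _ _ t1 t2) (na _ _ t3 t4)

/-- The real formula. -/
theorem exc_real (s₁ s₂ : ℝ) (P : Matrix (Fin 2) (Fin 2) ℝ) :
    excW !![0, s₂; -s₂, 0] P !![0, s₁; -s₁, 0] - 2 * (-(s₁ * s₂)) * P.det =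
      -(s₁ * s₂ * ((P 0 0 - P 1 1) ^ 2 + (P 0 1 + P 1 0) ^ 2)) := by
  rw [excW_eq, Matrix.det_fin_two]
  simp only [Matrix.of_apply, Matrix.cons_val', Matrix.cons_val_zero, Matrix.cons_val_one,
    Matrix.cons_val_fin_one]
  ring

/-- The geometric mean of the two discriminants is an integer. -/
theorem exc_Pi {D₁ D₂ : ℤ} {ρ₁ ρ₂ : ℚ} (hD₁ : D₁ < 0) (h₁ : 0 < ρ₁) (h₂ : 0 < ρ₂)
    (h : ρ₁ ^ 2 * D₁ = ρ₂ ^ 2 * D₂) : ∃ n : ℤ, (n : ℚ) * ρ₂ = ρ₁ * D₁ ∧ (n : ℚ) * ρ₁ = ρ₂ * D₂ ∧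
      n ^ 2 = D₁ * D₂ ∧ (n : ℝ) = -(Real.sqrt (-(D₁ : ℝ)) * Real.sqrt (-(D₂ : ℝ))) := by
  have hsq : (ρ₁ * D₁ / ρ₂) * (ρ₁ * D₁ / ρ₂) = ((D₁ * D₂ : ℤ) : ℚ) := by
    push_cast
    field_simp
    linear_combination (D₁ : ℚ) * h
  have hden : (ρ₁ * D₁ / ρ₂).den = 1 := by
    have := congrArg Rat.den hsq
    rw [Rat.mul_self_den, Rat.den_intCast] at this
    exact Nat.eq_one_of_mul_eq_one_right this
  have hn : ((ρ₁ * D₁ / ρ₂).num : ℚ) = ρ₁ * D₁ / ρ₂ := Rat.coe_int_num_of_den_eq_one hden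
  have hn2 : (ρ₁ * D₁ / ρ₂).num ^ 2 = D₁ * D₂ := by
    have : (((ρ₁ * D₁ / ρ₂).num ^ 2 : ℤ) : ℚ) = ((D₁ * D₂ : ℤ) : ℚ) := by
      rw [← hsq, Int.cast_pow, hn, sq]
    exact_mod_cast this
  have hneg : (ρ₁ * D₁ / ρ₂).num < 0 := by
    rw [Rat.num_neg]
    exact div_neg_of_neg_of_pos (mul_neg_of_pos_of_neg h₁ (by exact_mod_cast hD₁)) h₂
  refine ⟨_, ?_, ?_, hn2, ?_⟩
  · rw [hn]; field_simp
  · rw [hn]; field_simp; linear_combination h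
  · have h1 : (0 : ℝ) ≤ -(D₁ : ℝ) := by exact_mod_cast (by omega : (0 : ℤ) ≤ -D₁)
    rw [← Real.sqrt_mul h1, neg_mul_neg]
    have h3 : (D₁ : ℝ) * D₂ = (((ρ₁ * D₁ / ρ₂).num : ℤ) : ℝ) ^ 2 := by exact_mod_cast hn2.symm
    rw [h3, Real.sqrt_sq_eq_abs, abs_of_neg (by exact_mod_cast hneg), neg_neg]

/-- A conformal real component gives an isogeny of bounded degree. -/
theorem exc_isog {q : ℕ} (hq : 0 < q) {δ : ℚ} (hδ : δ ≠ 0) {R : ℝ} {c : ℕ} (hc : R ≤ (p : ℝ) ^ c)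
    {g₁ g₂ : GG p} (k₁ : g₁.2 ∈ Kp p) (k₂ : g₂.2 ∈ Kp p) {ξ : Matrix (Fin 2) (Fin 2) ℚ} {P : MM p}
    (hξ : ∀ i j, InZp p (q * ξ i j)) (hdet : ξ.det = δ) (hH : IsHom p g₁ g₂ ξ P)
    (hd1 : P.1.det = δ) (hB : Bd R P.2) (ha : P.1 1 1 = P.1 0 0) (hb : P.1 1 0 = -P.1 0 1) :
    Isog ((p ^ c * q) ^ 2 * δ.num.natAbs) (piX p (g₁ : XX p)) (piX p (g₂ : XX p)) := by
  have hp0 : (0 : ℝ) < p := by exact_mod_cast (Fact.out : p.Prime).pos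
  have hBξ : Bd R (ξ.map ((↑) : ℚ → ℚ_[p])) := by
    have := hB.K ((Kp p).inv_mem k₂) k₁
    rwa [Matrix.mul_assoc, hH.2, ← Matrix.mul_assoc, ← Matrix.SpecialLinearGroup.coe_mul,
      inv_mul_cancel, Matrix.SpecialLinearGroup.coe_one, Matrix.one_mul] at this
  have hint : ∀ i j, ∃ n : ℤ, (p : ℚ) ^ c * (q * ξ i j) = n := by
    intro i j
    refine exc_int p (InZp.mul (by exact_mod_cast inZp_int p (p ^ c)) (hξ i j)) ?_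
    push_cast
    rw [norm_mul, norm_mul, norm_pow, Padic.norm_p, inv_pow]
    have h3 : ‖(q : ℚ_[p])‖ ≤ 1 := by simpa using Padic.norm_int_le_one (p := p) (q : ℤ)
    have h4 : ‖(q : ℚ_[p])‖ * ‖(ξ i j : ℚ_[p])‖ ≤ p ^ c :=
      (mul_le_of_le_one_left (norm_nonneg _) h3).trans ((hBξ i j).trans hc)
    rw [inv_mul_le_iff₀ (by positivity)]
    simpa using h4
  choose m hm using hint
  have hmC : ∀ i j, (m i j : ℂ) = (p : ℂ) ^ c * (q * (ξ i j : ℂ)) := fun i j => by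
    have := congrArg (fun z : ℚ => (z : ℂ)) (hm i j)
    simpa using this.symm
  have hcol : ∀ j, ((p : ℂ) ^ c * q * ((P.1 0 0 : ℂ) + P.1 0 1 * Complex.I)) *
      ((g₁.1 0 j : ℂ) - g₁.1 1 j * Complex.I) =
      m 0 j * ((g₂.1 0 0 : ℂ) - g₂.1 1 0 * Complex.I) +
        m 1 j * ((g₂.1 0 1 : ℂ) - g₂.1 1 1 * Complex.I) := by
    intro j
    have e0 := congrFun (congrFun hH.1 0) j
    have e1 := congrFun (congrFun hH.1 1) j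
    simp only [Matrix.mul_apply, Fin.sum_univ_two, Matrix.map_apply, ha, hb] at e0 e1
    have e0' := congrArg (fun z : ℝ => (z : ℂ)) e0
    have e1' := congrArg (fun z : ℝ => (z : ℂ)) e1
    simp only [Complex.ofReal_add, Complex.ofReal_mul, Complex.ofReal_neg,
      Complex.ofReal_ratCast] at e0' e1'
    rw [hmC, hmC]
    linear_combination ((p : ℂ) ^ c * q) * e0' - ((p : ℂ) ^ c * q * Complex.I) * e1' -
      ((p : ℂ) ^ c * q * P.1 0 1 * g₁.1 1 j) * Complex.I_mul_I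
  have hμ : (p : ℂ) ^ c * q * ((P.1 0 0 : ℂ) + P.1 0 1 * Complex.I) ≠ 0 := by
    refine mul_ne_zero (mul_ne_zero (pow_ne_zero _ ?_) ?_) ?_
    · exact_mod_cast (Fact.out : p.Prime).ne_zero
    · exact_mod_cast hq.ne'
    · intro h0
      have h1 : P.1 0 0 = 0 := by simpa using congrArg Complex.re h0
      have h2 : P.1 0 1 = 0 := by simpa using congrArg Complex.im h0
      rw [Matrix.det_fin_two, h1, h2] at hd1
      exact hδ (by exact_mod_cast (by simpa using hd1.symm : (δ : ℝ) = 0))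
  have hN : ∃ k : ℤ, (((p ^ c * q) ^ 2 * δ.num.natAbs : ℕ) : ℤ) =
      k * (m 0 0 * m 1 1 - m 0 1 * m 1 0) := by
    have hd : ((m 0 0 * m 1 1 - m 0 1 * m 1 0 : ℤ) : ℚ) = ((p : ℚ) ^ c * q) ^ 2 * δ := by
      push_cast
      rw [← hm, ← hm, ← hm, ← hm, ← hdet, Matrix.det_fin_two]
      ring
    refine ⟨δ.num.sign * δ.den, ?_⟩
    have : ((((p ^ c * q) ^ 2 * δ.num.natAbs : ℕ) : ℤ) : ℚ) =
        ((δ.num.sign * δ.den * (m 0 0 * m 1 1 - m 0 1 * m 1 0) : ℤ) : ℚ) := by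
      rw [Int.cast_mul, hd, Nat.cast_mul, ← Int.sign_mul_self_eq_natAbs]
      push_cast
      rw [← Rat.mul_den_eq_num δ]
      ring
    exact_mod_cast this
  obtain ⟨k, hk⟩ := hN
  obtain ⟨l1, l2⟩ := exc_lat (hcol 0) (hcol 1) hk
  rw [← latG_K p k₁, ← latG_K p k₂] at l1 l2
  obtain ⟨s1, s2⟩ := latG_spec p g₁
  obtain ⟨s3, s4⟩ := latG_spec p g₂
  exact ⟨_, _, s1.pr_mul hμ, s3, (jL_pr_mul s1 hμ).trans s2, s4, l1, l2⟩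

theorem exc_frame {q : ℕ} (hq : 0 < q) {δ : ℚ} (hδ : δ ≠ 0) (R : ℝ) : ∃ (C : ℝ) (N : ℕ), 0 < N ∧
    ∀ (D₁ D₂ : ℤ) (x₁ x₂ : XX p) (e₁ e₂ : ℚ_[p]) (ρ₁ ρ₂ : ℚ) (r : ℤ), D₁ < 0 → D₂ < 0 →
      Frame p D₁ x₁ e₁ → Frame p D₂ x₂ e₂ → 0 < ρ₁ → 0 < ρ₂ → ρ₁ ^ 2 * D₁ = ρ₂ ^ 2 * D₂ →
      ‖(D₁ : ℚ_[p])‖ * (‖-e₁ * ρ₁‖ * (p : ℝ) ^ r) ^ 2 ≤ 1 →
      ‖(D₂ : ℚ_[p])‖ * (‖-e₂ * ρ₂‖ * (p : ℝ) ^ r) ^ 2 ≤ 1 →
      C * Real.sqrt (-(D₁ : ℝ)) ≤ (‖-e₁ * ρ₁‖ * (p : ℝ) ^ r) ^ 2 →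
      C * Real.sqrt (-(D₂ : ℝ)) ≤ (‖-e₂ * ρ₂‖ * (p : ℝ) ^ r) ^ 2 →
      ∀ P ∈ HomS p q δ x₁ x₂, Bd R P.1 →
        (∀ s : ℚ_[p], ‖s‖ ≤ (p : ℝ) ^ r → Bd R (Pfl p (-e₁ * ρ₁) (-e₂ * ρ₂) s P.2)) →
        Isog N (piX p x₁) (piX p x₂) := by
  have hp1 : (1 : ℝ) < p := by exact_mod_cast (Fact.out : p.Prime).one_lt
  have hp0 : (0 : ℝ) < p := one_pos.trans hp1
  obtain ⟨c, hc⟩ := pow_unbounded_of_one_lt R hp1
  refine ⟨3 * q * p ^ 2 * R ^ 2 + 1, (p ^ c * q) ^ 2 * δ.num.natAbs, ?_, ?_⟩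
  · have h1 : 0 < p := (Fact.out : p.Prime).pos
    have h2 : 0 < δ.num.natAbs := Int.natAbs_pos.2 (Rat.num_ne_zero.2 hδ)
    positivity
  rintro D₁ D₂ _ _ e₁ e₂ ρ₁ ρ₂ r hD₁ hD₂ ⟨g₁, Θ₁, rfl, k₁, fr₁, fp₁, he₁⟩
    ⟨g₂, Θ₂, rfl, k₂, fr₂, fp₂, he₂⟩ hρ₁ hρ₂ hρ hs₁ hs₂ hC₁ hC₂ P hP hB₁ hB₂
  obtain ⟨ξ, hξ, hdet, hH⟩ := HomS.rep hP rfl rfl
  obtain ⟨hd1, hd2⟩ := HomS.det hP
  obtain ⟨n, hn₁, hn₂, hn, hnR⟩ := exc_Pi hD₁ hρ₁ hρ₂ hρ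
  have hR : 0 ≤ R := (norm_nonneg _).trans (hB₁ 0 0)
  have hu : (0 : ℝ) < (p : ℝ) ^ r := zpow_pos hp0 r
  have hB0 : Bd R P.2 := by
    have := hB₂ 0 (by simpa using hu.le)
    rwa [Pfl, mul_zero, mul_zero, neg_zero, ← Matrix.one_fin_two, Matrix.one_mul,
      Matrix.mul_one] at this
  set s₁ := Real.sqrt (-(D₁ : ℝ)) with hs₁'
  set s₂ := Real.sqrt (-(D₂ : ℝ)) with hs₂'
  have s10 : 0 < s₁ := Real.sqrt_pos.2 (by exact_mod_cast (by omega : (0 : ℤ) < -D₁))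
  have s20 : 0 < s₂ := Real.sqrt_pos.2 (by exact_mod_cast (by omega : (0 : ℤ) < -D₂))
  set Z : ℚ := excW (Θ₂.map (↑)) ξ (Θ₁.map (↑)) - 2 * n * ξ.det with hZ
  have hZR : (Z : ℝ) = -(s₁ * s₂ * ((P.1 0 0 - P.1 1 1) ^ 2 + (P.1 0 1 + P.1 1 0) ^ 2)) := by
    rw [← exc_real, hZ, Rat.cast_sub, excW_cast, excW_conj g₁.1 g₂.1 fr₁ fr₂ hH.1, hdet, hd1,
      ← hnR]
    push_cast
    ring
  have h20 : (2 : ℚ_[p]) ≠ 0 := two_ne_zero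
  have e10 : e₁ ≠ 0 := norm_pos_iff.1 (he₁ ▸ norm_pos_iff.2 h20)
  have e20 : e₂ ≠ 0 := norm_pos_iff.1 (he₂ ▸ norm_pos_iff.2 h20)
  have hZP : ‖(Z : ℚ_[p])‖ * ((‖-e₁ * ρ₁‖ * (p : ℝ) ^ r) ^ 2 * (‖-e₂ * ρ₂‖ * (p : ℝ) ^ r) ^ 2) ≤
      p ^ 4 * R ^ 2 := by
    have hco := coef_bound p (a := P.2 0 1) (b := -e₂ * ρ₂ * P.2 1 1 - -e₁ * ρ₁ * P.2 0 0)
      (c := -(-e₁ * ρ₁ * (-e₂ * ρ₂) * P.2 1 0)) (l := r - 1) (R := R) (fun s hs => by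
        have := hB₂ s (by simpa using hs) 0 1
        rw [Pfl_eq] at this
        simpa only [Matrix.of_apply, Matrix.cons_val', Matrix.cons_val_zero, Matrix.cons_val_one,
          Matrix.cons_val_fin_one] using this)
    have hn₁' : (n : ℚ_[p]) * ρ₂ = ρ₁ * D₁ := by exact_mod_cast congrArg (fun z : ℚ => (z : ℚ_[p])) hn₁
    have hn₂' : (n : ℚ_[p]) * ρ₁ = ρ₂ * D₂ := by exact_mod_cast congrArg (fun z : ℚ => (z : ℚ_[p])) hn₂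
    have hmain := exc_padic p (D₁ := D₁) (D₂ := D₂) (Pi := n) (e₁ := e₁) (e₂ := e₂)
      (d₁ := -e₁ * ρ₁) (d₂ := -e₂ * ρ₂) (a := P.2 0 0) (b := P.2 0 1) (c := P.2 1 0) (d := P.2 1 1)
      hu hR he₁ he₂ (mul_ne_zero (neg_ne_zero.2 e10) (by exact_mod_cast hρ₁.ne'))
      (mul_ne_zero (neg_ne_zero.2 e20) (by exact_mod_cast hρ₂.ne'))
      (by linear_combination (-(e₁ * e₂)) * hn₁') (by linear_combination (-(e₁ * e₂)) * hn₂')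
      (by exact_mod_cast congrArg (fun z : ℤ => (z : ℚ_[p])) hn) hs₁ hs₂ (hB0 0 1)
      (by
        have h := mul_le_mul_of_nonneg_right hco.1 hp0.le
        rwa [mul_assoc, ← zpow_add_one₀ hp0.ne', sub_add_cancel] at h)
      (by
        have h := mul_le_mul_of_nonneg_right hco.2 (sq_nonneg (p : ℝ))
        rw [norm_neg, mul_assoc] at h
        refine le_trans (le_of_eq ?_) h
        congr 1
        rw [← zpow_natCast, ← zpow_natCast, ← zpow_mul, ← zpow_add₀ hp0.ne']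
        congr 1
        push_cast
        ring)
    rw [← Matrix.eta_fin_two P.2, ← Matrix.det_fin_two, hd2] at hmain
    rw [hZ, Rat.cast_sub, excW_cast, excW_conj g₁.2 g₂.2 fp₁ fp₂ hH.2, hdet]
    push_cast
    exact hmain
  have hZ0 : Z = 0 := by
    by_contra hne
    have hq' : (q : ℚ) ≠ 0 := by positivity
    have h1 := exc_prod p (excW_inZp Θ₂ Θ₁ hξ n) (mul_ne_zero (pow_ne_zero 2 hq') hne)
    rw [← hZ] at h1
    push_cast at h1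
    rw [abs_mul, norm_mul, norm_pow, abs_of_nonneg (sq_nonneg (q : ℝ))] at h1
    have h3 : ‖(q : ℚ_[p])‖ ≤ 1 := by simpa using Padic.norm_int_le_one (p := p) (q : ℤ)
    have h4 : |(Z : ℝ)| ≤ s₁ * s₂ * (8 * R ^ 2) := by
      rw [hZR, abs_neg, abs_of_nonneg (by positivity)]
      refine mul_le_mul_of_nonneg_left ?_ (by positivity)
      have a1 := abs_le.1 (hB₁ 0 0)
      have a2 := abs_le.1 (hB₁ 0 1)
      have a3 := abs_le.1 (hB₁ 1 0)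
      have a4 := abs_le.1 (hB₁ 1 1)
      have b1 : (P.1 0 0 - P.1 1 1) ^ 2 ≤ (2 * R) ^ 2 :=
        sq_le_sq' (by linarith [a1.1, a4.2]) (by linarith [a1.2, a4.1])
      have b2 : (P.1 0 1 + P.1 1 0) ^ 2 ≤ (2 * R) ^ 2 :=
        sq_le_sq' (by linarith [a2.1, a3.1]) (by linarith [a2.2, a3.2])
      nlinarith
    set C : ℝ := 3 * q * p ^ 2 * R ^ 2 + 1 with hC
    have C0 : 0 < C := by positivity
    have h5 : ‖(Z : ℚ_[p])‖ * (C * s₁ * (C * s₂)) ≤ p ^ 4 * R ^ 2 :=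
      (mul_le_mul_of_nonneg_left (mul_le_mul hC₁ hC₂ (by positivity) (by positivity))
        (norm_nonneg _)).trans hZP
    have h6 : 1 ≤ (q : ℝ) ^ 2 * (s₁ * s₂ * (8 * R ^ 2)) * ‖(Z : ℚ_[p])‖ :=
      h1.trans (mul_le_mul (mul_le_mul_of_nonneg_left h4 (by positivity))
        (mul_le_of_le_one_left (norm_nonneg _) (pow_le_one₀ (norm_nonneg _) h3))
        (by positivity) (by positivity))
    have h7 : C ^ 2 ≤ (q : ℝ) ^ 2 * (8 * R ^ 2) * (p ^ 4 * R ^ 2) :=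
      calc C ^ 2 = C ^ 2 * 1 := (mul_one _).symm
        _ ≤ C ^ 2 * ((q : ℝ) ^ 2 * (s₁ * s₂ * (8 * R ^ 2)) * ‖(Z : ℚ_[p])‖) :=
            mul_le_mul_of_nonneg_left h6 (by positivity)
        _ = (q : ℝ) ^ 2 * (8 * R ^ 2) * (‖(Z : ℚ_[p])‖ * (C * s₁ * (C * s₂))) := by ring
        _ ≤ _ := mul_le_mul_of_nonneg_left h5 (by positivity)
    have h8 : 0 ≤ (q : ℝ) * p ^ 2 * R ^ 2 := by positivity
    rw [hC] at h7
    nlinarith [sq_nonneg ((q : ℝ) * p ^ 2 * R ^ 2)]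
  have hsum : (P.1 0 0 - P.1 1 1) ^ 2 + (P.1 0 1 + P.1 1 0) ^ 2 = 0 := by
    rw [hZ0, Rat.cast_zero, eq_comm, neg_eq_zero, mul_eq_zero] at hZR
    exact hZR.resolve_left (by positivity)
  have ha : P.1 1 1 = P.1 0 0 := by
    nlinarith [sq_nonneg (P.1 0 0 - P.1 1 1), sq_nonneg (P.1 0 1 + P.1 1 0)]
  have hb : P.1 1 0 = -P.1 0 1 := by
    nlinarith [sq_nonneg (P.1 0 0 - P.1 1 1), sq_nonneg (P.1 0 1 + P.1 1 0)]
  exact exc_isog p hq hδ hc.le k₁ k₂ hξ hdet hH hd1 hB0 ha hb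

end Pool.Agent.EQ
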