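import Pool.Agent.P.MP_ad7a55_nt.Exc
import Pool.Agent.P.MP_ad7a55_nt.CtE

/-! Exceptional ball orbits come from isogenies or from exceptional pairs. -/

set_option autoImplicit false

noncomputable section

open MeasureTheory Topology Filter UpperHalfPlane
open scoped MatrixGroups ENNReal BoundedContinuousFunction

namespace Pool.Agent.EQ

/-- The linear part of a map, read in the frames. -/
theorem exc2_hom {F : Type} [CommRing F] {A B Θ₁ Θ₂ ξ P S₁ S₂ : Matrix (Fin 2) (Fin 2) F}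
    (h₁ : A * Θ₁ = S₁ * A) (h₂ : B * Θ₂ = S₂ * B) (h : P * A = B * ξ) (t : F) :
    (P + t • (S₂ * P * S₁)) * A = B * (ξ + t • (Θ₂ * ξ * Θ₁)) := by
  have e : S₂ * P * S₁ * A = B * (Θ₂ * ξ * Θ₁) := by
    calc S₂ * P * S₁ * A = S₂ * P * (A * Θ₁) := by rw [h₁]; simp only [Matrix.mul_assoc]
      _ = S₂ * (P * A) * Θ₁ := by simp only [Matrix.mul_assoc]
      _ = (B * Θ₂) * ξ * Θ₁ := by rw [h, h₂]; simp only [Matrix.mul_assoc]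
      _ = B * (Θ₂ * ξ * Θ₁) := by simp only [Matrix.mul_assoc]
  rw [Matrix.add_mul, Matrix.mul_add, Matrix.smul_mul, Matrix.mul_smul, h, e]

theorem exc2_cast {F : Type} [Field F] [CharZero F] (Θ₁ Θ₂ : Matrix (Fin 2) (Fin 2) ℤ)
    (ξ : Matrix (Fin 2) (Fin 2) ℚ) (t : ℚ) :
    (ξ + t • (Θ₂.map (↑) * ξ * Θ₁.map (↑)) : Matrix (Fin 2) (Fin 2) ℚ).map ((↑) : ℚ → F) =
      ξ.map (↑) + (t : F) • (Θ₂.map (↑) * ξ.map (↑) * Θ₁.map (↑)) := by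
  ext i j
  simp only [Matrix.map_apply, Matrix.add_apply, Matrix.smul_apply, Matrix.mul_apply,
    Fin.sum_univ_two, smul_eq_mul]
  push_cast
  ring

/-- The column identity. -/
theorem exc2_col {A B Q : Matrix (Fin 2) (Fin 2) ℝ} {η : Matrix (Fin 2) (Fin 2) ℚ}
    (h : Q * A = B * η.map (↑)) (j : Fin 2) :
    rl (((Q 0 0 + Q 1 1 : ℝ) : ℂ) + ((Q 0 1 - Q 1 0 : ℝ) : ℂ) * Complex.I)
        (((Q 0 0 - Q 1 1 : ℝ) : ℂ) + ((-(Q 0 1 + Q 1 0) : ℝ) : ℂ) * Complex.I)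
        ((A 0 j : ℂ) - A 1 j * Complex.I) =
      2 * ((η 0 j : ℂ) * ((B 0 0 : ℂ) - B 1 0 * Complex.I) +
        (η 1 j : ℂ) * ((B 0 1 : ℂ) - B 1 1 * Complex.I)) := by
  have e0 := congrFun (congrFun h 0) j
  have e1 := congrFun (congrFun h 1) j
  simp only [Matrix.mul_apply, Fin.sum_univ_two, Matrix.map_apply] at e0 e1
  have e0' := congrArg (fun z : ℝ => (z : ℂ)) e0
  have e1' := congrArg (fun z : ℝ => (z : ℂ)) e1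
  simp only [Complex.ofReal_add, Complex.ofReal_mul, Complex.ofReal_ratCast] at e0' e1'
  simp only [rl, map_sub, map_mul, Complex.conj_ofReal, Complex.conj_I]
  push_cast
  linear_combination 2 * e0' - 2 * Complex.I * e1' -
    (2 * (Q 0 1 : ℂ) * A 1 j) * Complex.I_mul_I

theorem exc2_rl_add (α β u w : ℂ) (x y : ℤ) :
    rl α β (x * u + y * w) = x * rl α β u + y * rl α β w := by
  simp only [rl, map_add, map_mul, map_intCast]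
  ring

theorem exc2_vol (g : SL(2, ℝ)) :
    vol (sp ((g 0 0 : ℂ) - g 1 0 * Complex.I) ((g 0 1 : ℂ) - g 1 1 * Complex.I)) = 1 := by
  have hd := frame_det g
  have e : (starRingEnd ℂ ((g 0 0 : ℂ) - g 1 0 * Complex.I) *
      ((g 0 1 : ℂ) - g 1 1 * Complex.I)).im = -1 := by
    simp
    linarith
  rw [(vol_sp' (by rw [e]; norm_num)).2, e]
  norm_num

variable (p : ℕ) [Fact p.Prime]

theorem exc2_disc {g : GG p} {D : ℤ} (h : piX p (g : XX p) ∈ Cl D) : DiscL (latG p g) D := by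
  obtain ⟨Λ, h1, h2⟩ := h
  obtain ⟨s1, s2⟩ := latG_spec p g
  obtain ⟨c, hc, e⟩ := jL_inj h1.isLat s1 (h2.trans s2.symm)
  rw [e]
  exact h1.pr_mul hc

/-- The `p`-adic bound for the linear part. -/
theorem exc2_bd {D₁ D₂ Pi e₁ e₂ ρ₁ ρ₂ : ℚ_[p]} {P : Matrix (Fin 2) (Fin 2) ℚ_[p]}
    {R T₁ T₂ K : ℝ} (hR : 0 ≤ R) (hK : 1 ≤ K) (hT₁ : 0 ≤ T₁) (hT₂ : 0 ≤ T₂)
    (he₁ : ‖e₁‖ = ‖(2 : ℚ_[p])‖) (he₂ : ‖e₂‖ = ‖(2 : ℚ_[p])‖) (r₁ : ρ₁ ≠ 0) (r₂ : ρ₂ ≠ 0)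
    (hP₁ : Pi * ρ₂ = ρ₁ * D₁) (hP₂ : Pi * ρ₁ = ρ₂ * D₂) (hPi : Pi ^ 2 = D₁ * D₂)
    (hPi0 : Pi ≠ 0) (hPi1 : ‖Pi‖ ≤ 1)
    (h₁ : 1 ≤ K * (‖D₁‖ * T₁ ^ 2)) (h₂ : 1 ≤ K * (‖D₂‖ * T₂ ^ 2))
    (hρ₁ : ‖ρ₁‖ ≤ K * ‖ρ₂‖) (hρ₂ : ‖ρ₂‖ ≤ K * ‖ρ₁‖) (hB : Bd R P)
    (hc : ‖P 1 0‖ * (T₁ * T₂) ≤ R * p ^ 2) :
    Bd (K * p ^ 2 * R) (P + Pi⁻¹ • (!![0, e₂; D₂ / e₂, 0] * P * !![0, e₁; D₁ / e₁, 0])) := by
  have hp1 : (1 : ℝ) ≤ p := by exact_mod_cast (Fact.out : p.Prime).one_le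
  have hp2 : (1 : ℝ) ≤ (p : ℝ) ^ 2 := one_le_pow₀ hp1
  have h2 := exc_two p
  have h2' : ‖(2 : ℚ_[p])‖ ≤ 1 := by simpa using Padic.norm_int_le_one (p := p) 2
  have h20 : 0 < ‖(2 : ℚ_[p])‖ := norm_pos_iff.2 two_ne_zero
  have e10 : e₁ ≠ 0 := norm_pos_iff.1 (he₁ ▸ h20)
  have e20 : e₂ ≠ 0 := norm_pos_iff.1 (he₂ ▸ h20)
  have n1 : 0 < ‖ρ₁‖ := norm_pos_iff.2 r₁
  have n2 : 0 < ‖ρ₂‖ := norm_pos_iff.2 r₂
  have nP : 0 < ‖Pi‖ := norm_pos_iff.2 hPi0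
  have hD₁ : D₁ = Pi * ρ₂ / ρ₁ := by rw [hP₁]; field_simp
  have hD₂ : D₂ = Pi * ρ₁ / ρ₂ := by rw [hP₂]; field_simp
  have hKR : K * R ≤ K * p ^ 2 * R := by
    rw [mul_assoc]
    exact mul_le_mul_of_nonneg_left (le_mul_of_one_le_left hR hp2) (by linarith)
  have hRK : R ≤ K * p ^ 2 * R := (le_mul_of_one_le_left hR hK).trans hKR
  have hT : 1 ≤ K * (‖Pi‖ * (T₁ * T₂)) := by
    have : 1 ≤ (K * (‖Pi‖ * (T₁ * T₂))) ^ 2 := by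
      calc (1 : ℝ) = 1 * 1 := by ring
        _ ≤ (K * (‖D₁‖ * T₁ ^ 2)) * (K * (‖D₂‖ * T₂ ^ 2)) :=
            mul_le_mul h₁ h₂ zero_le_one (by positivity)
        _ = K ^ 2 * ((‖D₁‖ * ‖D₂‖) * (T₁ * T₂) ^ 2) := by ring
        _ = (K * (‖Pi‖ * (T₁ * T₂))) ^ 2 := by rw [← norm_mul, ← hPi, norm_pow]; ring
    exact (one_le_sq_iff₀ (by positivity)).1 this
  have na : ∀ y z : ℚ_[p], ‖y‖ ≤ R → ‖z‖ ≤ K * p ^ 2 * R → ‖y + z‖ ≤ K * p ^ 2 * R :=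
    fun y z hy hz => (Padic.nonarchimedean y z).trans (max_le (hy.trans hRK) hz)
  have key : (Pi⁻¹ • (!![0, e₂; D₂ / e₂, 0] * P * !![0, e₁; D₁ / e₁, 0]) :
      Matrix (Fin 2) (Fin 2) ℚ_[p]) =
      !![ρ₂ / ρ₁ * (e₂ / e₁) * P 1 1, e₁ * e₂ * (P 1 0 / Pi);
        Pi * e₁⁻¹ * e₂⁻¹ * P 0 1, ρ₁ / ρ₂ * (e₁ / e₂) * P 0 0] := by
    conv_lhs => rw [Matrix.eta_fin_two P]
    rw [Matrix.mul_fin_two, Matrix.mul_fin_two, hD₁, hD₂]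
    ext i j
    fin_cases i <;> fin_cases j <;> simp <;> field_simp
  have h3 : ‖(2 : ℚ_[p])‖⁻¹ ≤ p := by
    rw [inv_le_iff_one_le_mul₀ h20]; exact h2
  rw [key]
  intro i j
  rw [Matrix.add_apply]
  refine na _ _ (hB i j) ?_
  fin_cases i <;> fin_cases j
  · change ‖ρ₂ / ρ₁ * (e₂ / e₁) * P 1 1‖ ≤ _
    rw [norm_mul, norm_mul, norm_div, norm_div, he₁, he₂, div_self h20.ne', mul_one]
    exact (mul_le_mul ((div_le_iff₀ n1).2 hρ₂) (hB 1 1) (norm_nonneg _) (by linarith)).trans hKR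
  · change ‖e₁ * e₂ * (P 1 0 / Pi)‖ ≤ _
    rw [norm_mul, norm_mul, norm_div, he₁, he₂]
    refine (mul_le_of_le_one_left (by positivity) (mul_le_one₀ h2' h20.le h2')).trans ?_
    rw [div_le_iff₀ nP]
    calc ‖P 1 0‖ = ‖P 1 0‖ * 1 := (mul_one _).symm
      _ ≤ ‖P 1 0‖ * (K * (‖Pi‖ * (T₁ * T₂))) := mul_le_mul_of_nonneg_left hT (norm_nonneg _)
      _ = K * ‖Pi‖ * (‖P 1 0‖ * (T₁ * T₂)) := by ring
      _ ≤ K * ‖Pi‖ * (R * p ^ 2) := mul_le_mul_of_nonneg_left hc (by positivity)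
      _ = K * p ^ 2 * R * ‖Pi‖ := by ring
  · change ‖Pi * e₁⁻¹ * e₂⁻¹ * P 0 1‖ ≤ _
    rw [norm_mul, norm_mul, norm_mul, norm_inv, norm_inv, he₁, he₂]
    calc ‖Pi‖ * ‖(2 : ℚ_[p])‖⁻¹ * ‖(2 : ℚ_[p])‖⁻¹ * ‖P 0 1‖ ≤ K * p * p * R := by
          refine mul_le_mul (mul_le_mul (mul_le_mul (hPi1.trans hK) h3 (by positivity)
            (by linarith)) h3 (by positivity) (by positivity)) (hB 0 1) (norm_nonneg _)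
            (by positivity)
      _ = K * p ^ 2 * R := by ring
  · change ‖ρ₁ / ρ₂ * (e₁ / e₂) * P 0 0‖ ≤ _
    rw [norm_mul, norm_mul, norm_div, norm_div, he₁, he₂, div_self h20.ne', mul_one]
    exact (mul_le_mul ((div_le_iff₀ n2).2 hρ₁) (hB 0 0) (norm_nonneg _) (by linarith)).trans hKR

/-- Clearing denominators prime to `p`. -/
theorem exc2_den (η : Matrix (Fin 2) (Fin 2) ℚ) (h : ∀ i j, ‖(η i j : ℚ_[p])‖ ≤ 1) :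
    ∃ m : ℤ, ¬ (p : ℤ) ∣ m ∧ ∀ i j, ∃ k : ℤ, (m : ℚ) * η i j = k := by
  have hp : Prime (p : ℤ) := Nat.prime_iff_prime_int.1 Fact.out
  refine ⟨∏ ij : Fin 2 × Fin 2, ((η ij.1 ij.2).den : ℤ), fun hd => ?_, fun i j => ?_⟩
  · obtain ⟨ij, -, h1⟩ := (Prime.dvd_finsetProd_iff hp _).1 hd
    exact frame_den p (h _ _) h1
  · obtain ⟨k, hk⟩ : ((η i j).den : ℤ) ∣ ∏ ij : Fin 2 × Fin 2, ((η ij.1 ij.2).den : ℤ) :=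
      Finset.dvd_prod_of_mem (fun ij : Fin 2 × Fin 2 => ((η ij.1 ij.2).den : ℤ))
        (Finset.mem_univ (i, j))
    refine ⟨k * (η i j).num, ?_⟩
    rw [hk]
    push_cast
    rw [← Rat.mul_den_eq_num (η i j)]
    ring

theorem exc2_bd_frame {R : ℝ} {k₁ k₂ : SL(2, ℚ_[p])} (h₁ : k₁ ∈ Kp p) (h₂ : k₂ ∈ Kp p)
    {P η : Matrix (Fin 2) (Fin 2) ℚ_[p]} (hB : Bd R P)
    (h : P * (k₁ : Matrix (Fin 2) (Fin 2) ℚ_[p]) = (k₂ : Matrix (Fin 2) (Fin 2) ℚ_[p]) * η) :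
    Bd R η := by
  have := hB.K ((Kp p).inv_mem h₂) h₁
  rwa [Matrix.mul_assoc, h, ← Matrix.mul_assoc, ← Matrix.SpecialLinearGroup.coe_mul,
    inv_mul_cancel, Matrix.SpecialLinearGroup.coe_one, Matrix.one_mul] at this

theorem exc2_pow {c : ℕ} {x : ℚ_[p]} (h : ‖x‖ ≤ (p : ℝ) ^ c) : ‖(p : ℚ_[p]) ^ c * x‖ ≤ 1 := by
  have hp0 : (0 : ℝ) < p := by exact_mod_cast (Fact.out : p.Prime).pos
  rw [norm_mul, norm_pow, Padic.norm_p, inv_pow, inv_mul_le_iff₀ (by positivity)]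
  simpa using h

theorem exc_frame2 {q : ℕ} (hq : 0 < q) {δ : ℚ} (hδ : δ ≠ 0) (R : ℝ) (c₀ : ℕ) :
    ∃ (N : ℕ) (n : ℤ) (c : ℕ), 0 < N ∧ n ≠ 0 ∧
    ∀ (D₁ D₂ : ℤ) (x₁ x₂ : XX p) (e₁ e₂ : ℚ_[p]) (ρ₁ ρ₂ : ℚ) (r : ℤ),
      Frame p D₁ x₁ e₁ → Frame p D₂ x₂ e₂ → piX p x₁ ∈ Cl D₁ → piX p x₂ ∈ Cl D₂ →
      0 < ρ₁ → 0 < ρ₂ → ρ₁ ^ 2 * D₁ = ρ₂ ^ 2 * D₂ →
      ‖(D₁ : ℚ_[p])‖ * (‖-e₁ * ρ₁‖ * (p : ℝ) ^ r) ^ 2 ≤ 1 →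
      ‖(D₂ : ℚ_[p])‖ * (‖-e₂ * ρ₂‖ * (p : ℝ) ^ r) ^ 2 ≤ 1 →
      1 ≤ (p : ℝ) ^ c₀ * (‖(D₁ : ℚ_[p])‖ * (‖-e₁ * ρ₁‖ * (p : ℝ) ^ r) ^ 2) →
      1 ≤ (p : ℝ) ^ c₀ * (‖(D₂ : ℚ_[p])‖ * (‖-e₂ * ρ₂‖ * (p : ℝ) ^ r) ^ 2) →
      ‖(ρ₁ : ℚ_[p])‖ ≤ (p : ℝ) ^ c₀ * ‖(ρ₂ : ℚ_[p])‖ → ‖(ρ₂ : ℚ_[p])‖ ≤ (p : ℝ) ^ c₀ * ‖(ρ₁ : ℚ_[p])‖ →
      ∀ P ∈ HomS p q δ x₁ x₂, Bd R P.1 →
        (∀ s : ℚ_[p], ‖s‖ ≤ (p : ℝ) ^ r → Bd R (Pfl p (-e₁ * ρ₁) (-e₂ * ρ₂) s P.2)) →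
        Isog N (piX p x₁) (piX p x₂) ∨ ∃ M₁ M₂, DiscL M₁ D₁ ∧ DiscL M₂ D₂ ∧ jL M₁ = piX p x₁ ∧
          jL M₂ = piX p x₂ ∧ Bad2 p n c D₁ D₂ M₁ M₂ := by
  have hp1 : (1 : ℝ) < p := by exact_mod_cast (Fact.out : p.Prime).one_lt
  have hp0 : (0 : ℝ) < p := one_pos.trans hp1
  have hpN : 0 < p := (Fact.out : p.Prime).pos
  obtain ⟨c₁, hc₁⟩ := pow_unbounded_of_one_lt R hp1
  obtain ⟨n₁, hn₁def⟩ : ∃ n₁ : ℕ, n₁ = p ^ c₁ * q * δ.den := ⟨_, rfl⟩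
  have n10 : 0 < n₁ := by
    have := δ.den_pos
    rw [hn₁def]; positivity
  obtain ⟨c, hc⟩ := pow_unbounded_of_one_lt ((n₁ : ℝ) ^ 2 * (8 * R ^ 2) +
    (p : ℝ) ^ c₀ * (p : ℝ) ^ c₀ * (p ^ 4 * R ^ 2) + (p : ℝ) ^ c₀ * p ^ 2 * R) hp1
  have hnum : δ.num ≠ 0 := Rat.num_ne_zero.2 hδ
  refine ⟨(p ^ c₁ * q) ^ 2 * δ.num.natAbs, 4 * ((p ^ c₁ * q) ^ 2 * δ.den * δ.num), c, ?_, ?_, ?_⟩
  · have h2 : 0 < δ.num.natAbs := Int.natAbs_pos.2 hnum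
    positivity
  · have := δ.den_pos
    positivity
  rintro D₁ D₂ _ _ e₁ e₂ ρ₁ ρ₂ r ⟨g₁, Θ₁, rfl, k₁, fr₁, fp₁, he₁⟩
    ⟨g₂, Θ₂, rfl, k₂, fr₂, fp₂, he₂⟩ cl₁ cl₂ hρ₁ hρ₂ hρ hs₁ hs₂ hC₁ hC₂ hr₁ hr₂ P hP hB₁ hB₂
  have dl₁ := exc2_disc p cl₁
  have dl₂ := exc2_disc p cl₂
  have hD₁ : D₁ < 0 := dl₁.isD.1
  have hD₂ : D₂ < 0 := dl₂.isD.1
  obtain ⟨ξ, hξ, hdet, hH⟩ := HomS.rep hP rfl rfl
  obtain ⟨hd1, hd2⟩ := HomS.det hP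
  obtain ⟨n, hn₁, hn₂, hn, hnR⟩ := exc_Pi hD₁ hρ₁ hρ₂ hρ
  have hR : 0 ≤ R := (norm_nonneg _).trans (hB₁ 0 0)
  have hu : (0 : ℝ) < (p : ℝ) ^ r := zpow_pos hp0 r
  have hB0 : Bd R P.2 := by
    have := hB₂ 0 (by simpa using hu.le)
    rwa [Pfl, mul_zero, mul_zero, neg_zero, ← Matrix.one_fin_two, Matrix.one_mul,
      Matrix.mul_one] at this
  set s₁ := Real.sqrt (-(D₁ : ℝ)) with hs₁'
  set s₂ := Real.sqrt (-(D₂ : ℝ)) with hs₂'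
  have s10 : 0 < s₁ := Real.sqrt_pos.2 (by exact_mod_cast (by omega : (0 : ℤ) < -D₁))
  have s20 : 0 < s₂ := Real.sqrt_pos.2 (by exact_mod_cast (by omega : (0 : ℤ) < -D₂))
  have n0 : n ≠ 0 := by
    rintro rfl
    have : 0 < s₁ * s₂ := mul_pos s10 s20
    simp only [Int.cast_zero] at hnR
    linarith
  set Z : ℚ := excW (Θ₂.map (↑)) ξ (Θ₁.map (↑)) - 2 * n * ξ.det with hZ
  have hZR : (Z : ℝ) = -(s₁ * s₂ * ((P.1 0 0 - P.1 1 1) ^ 2 + (P.1 0 1 + P.1 1 0) ^ 2)) := by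
    rw [← exc_real, hZ, Rat.cast_sub, excW_cast, excW_conj g₁.1 g₂.1 fr₁ fr₂ hH.1, hdet, hd1,
      ← hnR]
    push_cast
    ring
  have h20 : (2 : ℚ_[p]) ≠ 0 := two_ne_zero
  have e10 : e₁ ≠ 0 := norm_pos_iff.1 (he₁ ▸ norm_pos_iff.2 h20)
  have e20 : e₂ ≠ 0 := norm_pos_iff.1 (he₂ ▸ norm_pos_iff.2 h20)
  have hco := coef_bound p (a := P.2 0 1) (b := -e₂ * ρ₂ * P.2 1 1 - -e₁ * ρ₁ * P.2 0 0)
    (c := -(-e₁ * ρ₁ * (-e₂ * ρ₂) * P.2 1 0)) (l := r - 1) (R := R) (fun s hs => by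
      have := hB₂ s (by simpa using hs) 0 1
      rw [Pfl_eq] at this
      simpa only [Matrix.of_apply, Matrix.cons_val', Matrix.cons_val_zero, Matrix.cons_val_one,
        Matrix.cons_val_fin_one] using this)
  have hn₁' : (n : ℚ_[p]) * ρ₂ = ρ₁ * D₁ := by
    exact_mod_cast congrArg (fun z : ℚ => (z : ℚ_[p])) hn₁
  have hn₂' : (n : ℚ_[p]) * ρ₁ = ρ₂ * D₂ := by
    exact_mod_cast congrArg (fun z : ℚ => (z : ℚ_[p])) hn₂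
  have hn' : (n : ℚ_[p]) ^ 2 = D₁ * D₂ := by
    exact_mod_cast congrArg (fun z : ℤ => (z : ℚ_[p])) hn
  have r10 : (ρ₁ : ℚ_[p]) ≠ 0 := by exact_mod_cast hρ₁.ne'
  have r20 : (ρ₂ : ℚ_[p]) ≠ 0 := by exact_mod_cast hρ₂.ne'
  have hcc : ‖-e₁ * ρ₁ * (-e₂ * ρ₂) * P.2 1 0‖ * ((p : ℝ) ^ r) ^ 2 ≤ R * p ^ 2 := by
    have h := mul_le_mul_of_nonneg_right hco.2 (sq_nonneg (p : ℝ))
    rw [norm_neg, mul_assoc] at h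
    refine le_trans (le_of_eq ?_) h
    congr 1
    rw [← zpow_natCast, ← zpow_natCast, ← zpow_mul, ← zpow_add₀ hp0.ne']
    congr 1
    push_cast
    ring
  have hZP : ‖(Z : ℚ_[p])‖ * ((‖-e₁ * ρ₁‖ * (p : ℝ) ^ r) ^ 2 * (‖-e₂ * ρ₂‖ * (p : ℝ) ^ r) ^ 2) ≤
      p ^ 4 * R ^ 2 := by
    have hmain := exc_padic p (D₁ := D₁) (D₂ := D₂) (Pi := n) (e₁ := e₁) (e₂ := e₂)
      (d₁ := -e₁ * ρ₁) (d₂ := -e₂ * ρ₂) (a := P.2 0 0) (b := P.2 0 1) (c := P.2 1 0) (d := P.2 1 1)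
      hu hR he₁ he₂ (mul_ne_zero (neg_ne_zero.2 e10) r10) (mul_ne_zero (neg_ne_zero.2 e20) r20)
      (by linear_combination (-(e₁ * e₂)) * hn₁') (by linear_combination (-(e₁ * e₂)) * hn₂')
      hn' hs₁ hs₂ (hB0 0 1)
      (by
        have h := mul_le_mul_of_nonneg_right hco.1 hp0.le
        rwa [mul_assoc, ← zpow_add_one₀ hp0.ne', sub_add_cancel] at h)
      hcc
    rw [← Matrix.eta_fin_two P.2, ← Matrix.det_fin_two, hd2] at hmain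
    rw [hZ, Rat.cast_sub, excW_cast, excW_conj g₁.2 g₂.2 fp₁ fp₂ hH.2, hdet]
    push_cast
    exact hmain
  by_cases hZ0 : Z = 0
  · left
    have hsum : (P.1 0 0 - P.1 1 1) ^ 2 + (P.1 0 1 + P.1 1 0) ^ 2 = 0 := by
      rw [hZ0, Rat.cast_zero, eq_comm, neg_eq_zero, mul_eq_zero] at hZR
      exact hZR.resolve_left (by positivity)
    obtain ⟨ha', hb'⟩ := (add_eq_zero_iff_of_nonneg (sq_nonneg _) (sq_nonneg _)).1 hsum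
    have ha : P.1 1 1 = P.1 0 0 := (sub_eq_zero.1 (pow_eq_zero_iff two_ne_zero |>.1 ha')).symm
    have hb : P.1 1 0 = -P.1 0 1 :=
      eq_neg_of_add_eq_zero_right (pow_eq_zero_iff two_ne_zero |>.1 hb')
    exact exc_isog p hq hδ hc₁.le k₁ k₂ hξ hdet hH hd1 hB0 ha hb
  right
  refine ⟨_, _, dl₁, dl₂, (latG_spec p g₁).2, (latG_spec p g₂).2, ?_⟩
  -- the integral matrix
  have hBξ : Bd R (ξ.map ((↑) : ℚ → ℚ_[p])) := exc2_bd_frame p k₁ k₂ hB0 hH.2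
  have hint : ∀ i j, ∃ k : ℤ, (n₁ : ℚ) * ξ i j = k := by
    intro i j
    obtain ⟨k, hk⟩ : ∃ k : ℤ, (p : ℚ) ^ c₁ * (q * ξ i j) = k := by
      refine exc_int p (InZp.mul (by exact_mod_cast inZp_int p (p ^ c₁)) (hξ i j)) ?_
      push_cast
      refine exc2_pow p ?_
      have h3 : ‖(q : ℚ_[p])‖ ≤ 1 := by simpa using Padic.norm_int_le_one (p := p) (q : ℤ)
      rw [norm_mul]
      exact (mul_le_of_le_one_left (norm_nonneg _) h3).trans ((hBξ i j).trans hc₁.le)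
    refine ⟨δ.den * k, ?_⟩
    rw [hn₁def]
    push_cast
    rw [← hk]
    ring
  choose m hm using hint
  have hmC : ∀ i j, (m i j : ℂ) = (n₁ : ℂ) * (ξ i j : ℂ) := fun i j => by
    have := congrArg (fun z : ℚ => (z : ℂ)) (hm i j)
    simpa using this.symm
  obtain ⟨B, hBZ⟩ : ∃ B : ℕ, (B : ℚ) = -((n₁ : ℚ) ^ 2 * Z) := by
    have h1 : (((excW Θ₂ (Matrix.of m) Θ₁ - 2 * n * (m 0 0 * m 1 1 - m 0 1 * m 1 0) : ℤ)) : ℚ) =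
        (n₁ : ℚ) ^ 2 * Z := by
      rw [hZ, excW_eq, excW_eq, Matrix.det_fin_two]
      simp only [Matrix.map_apply, Matrix.of_apply]
      push_cast
      simp only [← hm]
      ring
    have h2 : (Z : ℝ) ≤ 0 := by rw [hZR, neg_nonpos]; positivity
    have h3 : Z ≤ 0 := by exact_mod_cast h2
    have h4 : (n₁ : ℚ) ^ 2 * Z ≤ 0 := mul_nonpos_of_nonneg_of_nonpos (by positivity) h3
    rw [← h1] at h4
    have h5 : excW Θ₂ (Matrix.of m) Θ₁ - 2 * n * (m 0 0 * m 1 1 - m 0 1 * m 1 0) ≤ 0 := by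
      exact_mod_cast h4
    obtain ⟨B, hB⟩ := Int.eq_ofNat_of_zero_le (neg_nonneg.2 h5)
    refine ⟨B, ?_⟩
    rw [← h1, ← Int.cast_neg, hB, Int.cast_natCast]
  have hBR : (B : ℝ) = -((n₁ : ℝ) ^ 2 * Z) := by
    exact_mod_cast congrArg (fun z : ℚ => (z : ℝ)) hBZ
  have hBP : (B : ℚ_[p]) = -((n₁ : ℚ_[p]) ^ 2 * Z) := by
    exact_mod_cast congrArg (fun z : ℚ => (z : ℚ_[p])) hBZ
  have a1 := abs_le.1 (hB₁ 0 0)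
  have a2 := abs_le.1 (hB₁ 0 1)
  have a3 := abs_le.1 (hB₁ 1 0)
  have a4 := abs_le.1 (hB₁ 1 1)
  have t1 : 0 ≤ (n₁ : ℝ) ^ 2 * (8 * R ^ 2) := by positivity
  have t2 : 0 ≤ (p : ℝ) ^ c₀ * (p : ℝ) ^ c₀ * (p ^ 4 * R ^ 2) := by positivity
  have t3 : 0 ≤ (p : ℝ) ^ c₀ * p ^ 2 * R := by positivity
  set α₀ : ℂ := ((P.1 0 0 + P.1 1 1 : ℝ) : ℂ) + ((P.1 0 1 - P.1 1 0 : ℝ) : ℂ) * Complex.I with hα₀
  set β₀ : ℂ := ((P.1 0 0 - P.1 1 1 : ℝ) : ℂ) + ((-(P.1 0 1 + P.1 1 0) : ℝ) : ℂ) * Complex.I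
    with hβ₀
  have nα : Complex.normSq (n₁ * α₀) =
      (n₁ : ℝ) ^ 2 * ((P.1 0 0 + P.1 1 1) ^ 2 + (P.1 0 1 - P.1 1 0) ^ 2) := by
    rw [map_mul, Complex.normSq_natCast, hα₀, Complex.normSq_add_mul_I]; ring
  have nβ : Complex.normSq (n₁ * β₀) =
      (n₁ : ℝ) ^ 2 * ((P.1 0 0 - P.1 1 1) ^ 2 + (P.1 0 1 + P.1 1 0) ^ 2) := by
    rw [map_mul, Complex.normSq_natCast, hβ₀, Complex.normSq_add_mul_I]; ring
  rw [latG_K p k₁, latG_K p k₂]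
  refine ⟨n₁ * α₀, n₁ * β₀, B, ?_, ?_, ?_, ?_, ?_, ?_, ?_, ?_⟩
  · rw [Nat.pos_iff_ne_zero]
    rintro rfl
    have hn1' : (n₁ : ℚ) ≠ 0 := by positivity
    rw [Nat.cast_zero, eq_comm, neg_eq_zero] at hBZ
    exact mul_ne_zero (pow_ne_zero 2 hn1') hZ0 hBZ
  · intro z hz
    obtain ⟨x, y, rfl⟩ := mem_sp.1 hz
    have hs : ∀ w, rl (n₁ * α₀) (n₁ * β₀) w = n₁ * rl α₀ β₀ w := fun w => by
      simp only [rl]; ring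
    rw [exc2_rl_add, hs, hs, exc2_col hH.1 0, exc2_col hH.1 1]
    refine mem_sp.2 ⟨2 * (x * m 0 0 + y * m 0 1), 2 * (x * m 1 0 + y * m 1 1), ?_⟩
    push_cast
    simp only [hmC]
    ring
  · rw [exc2_vol, exc2_vol, nβ, hBR, hZR]
    have h1 : (0 : ℝ) ≤ -(D₁ : ℝ) := by exact_mod_cast (by omega : (0 : ℤ) ≤ -D₁)
    rw [← neg_mul_neg (D₁ : ℝ) D₂, Real.sqrt_mul h1]
    ring
  · rw [exc2_vol, exc2_vol, nα, nβ]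
    rw [Matrix.det_fin_two] at hd1
    have h1 : (δ.num : ℝ) = δ * δ.den := by
      exact_mod_cast congrArg (fun z : ℚ => (z : ℝ)) (Rat.mul_den_eq_num δ).symm
    rw [hn₁def]
    push_cast
    rw [h1, ← hd1]
    ring
  · rw [exc2_vol, exc2_vol, nα, mul_one, mul_one]
    have b1 : (P.1 0 0 + P.1 1 1) ^ 2 ≤ (2 * R) ^ 2 :=
      sq_le_sq' (by linarith [a1.1, a4.1]) (by linarith [a1.2, a4.2])
    have b2 : (P.1 0 1 - P.1 1 0) ^ 2 ≤ (2 * R) ^ 2 :=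
      sq_le_sq' (by linarith [a2.1, a3.2]) (by linarith [a2.2, a3.1])
    refine le_trans (mul_le_mul_of_nonneg_left (?_ : _ ≤ 8 * R ^ 2) (by positivity)) (by linarith)
    linarith
  · rw [exc2_vol, exc2_vol, nβ, mul_one, mul_one]
    have b1 : (P.1 0 0 - P.1 1 1) ^ 2 ≤ (2 * R) ^ 2 :=
      sq_le_sq' (by linarith [a1.1, a4.2]) (by linarith [a1.2, a4.1])
    have b2 : (P.1 0 1 + P.1 1 0) ^ 2 ≤ (2 * R) ^ 2 :=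
      sq_le_sq' (by linarith [a2.1, a3.1]) (by linarith [a2.2, a3.2])
    refine le_trans (mul_le_mul_of_nonneg_left (?_ : _ ≤ 8 * R ^ 2) (by positivity)) (by linarith)
    linarith
  · have h3 : ‖(n₁ : ℚ_[p])‖ ≤ 1 := by simpa using Padic.norm_int_le_one (p := p) (n₁ : ℤ)
    rw [hBP, norm_neg, norm_mul, norm_pow]
    calc ‖(n₁ : ℚ_[p])‖ ^ 2 * ‖(Z : ℚ_[p])‖ ≤ ‖(Z : ℚ_[p])‖ * (1 * 1) := by
          rw [mul_one, mul_one]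
          exact mul_le_of_le_one_left (norm_nonneg _) (pow_le_one₀ (norm_nonneg _) h3)
      _ ≤ ‖(Z : ℚ_[p])‖ * (((p : ℝ) ^ c₀ * (‖(D₁ : ℚ_[p])‖ * (‖-e₁ * ρ₁‖ * (p : ℝ) ^ r) ^ 2)) *
          ((p : ℝ) ^ c₀ * (‖(D₂ : ℚ_[p])‖ * (‖-e₂ * ρ₂‖ * (p : ℝ) ^ r) ^ 2))) :=
          mul_le_mul_of_nonneg_left (mul_le_mul hC₁ hC₂ zero_le_one (by positivity))
            (norm_nonneg _)
      _ = (p : ℝ) ^ c₀ * (p : ℝ) ^ c₀ * (‖(Z : ℚ_[p])‖ * ((‖-e₁ * ρ₁‖ * (p : ℝ) ^ r) ^ 2 *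
          (‖-e₂ * ρ₂‖ * (p : ℝ) ^ r) ^ 2)) * (‖(D₁ : ℚ_[p])‖ * ‖(D₂ : ℚ_[p])‖) := by ring
      _ ≤ (p : ℝ) ^ c * (‖(D₁ : ℚ_[p])‖ * ‖(D₂ : ℚ_[p])‖) := by
          refine mul_le_mul_of_nonneg_right ?_ (by positivity)
          exact (mul_le_mul_of_nonneg_left hZP (by positivity)).trans (by linarith)
      _ = _ := by ring
  · set η : Matrix (Fin 2) (Fin 2) ℚ := ξ + (n : ℚ)⁻¹ • (Θ₂.map (↑) * ξ * Θ₁.map (↑)) with hη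
    have hP2 := exc2_hom fp₁ fp₂ hH.2 (((n : ℚ)⁻¹ : ℚ) : ℚ_[p])
    have hP1 := exc2_hom fr₁ fr₂ hH.1 (((n : ℚ)⁻¹ : ℚ) : ℝ)
    rw [← exc2_cast, ← hη] at hP1 hP2
    have hbd := exc2_bd p (D₁ := D₁) (D₂ := D₂) (Pi := n) (e₁ := e₁) (e₂ := e₂) (ρ₁ := ρ₁)
      (ρ₂ := ρ₂) (P := P.2) (T₁ := ‖-e₁ * ρ₁‖ * (p : ℝ) ^ r) (T₂ := ‖-e₂ * ρ₂‖ * (p : ℝ) ^ r)
      (K := (p : ℝ) ^ c₀) hR (one_le_pow₀ hp1.le) (by positivity) (by positivity) he₁ he₂ r10 r20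
      hn₁' hn₂' hn' (by exact_mod_cast n0) (Padic.norm_int_le_one n) hC₁ hC₂ hr₁ hr₂ hB0
      (by
        refine le_trans (le_of_eq ?_) hcc
        rw [norm_mul (-e₁ * ρ₁ * (-e₂ * ρ₂)), norm_mul (-e₁ * ρ₁)]
        ring)
    rw [Rat.cast_inv, Rat.cast_intCast] at hP1 hP2
    have hbη := exc2_bd_frame p k₁ k₂ hbd hP2
    obtain ⟨m', hm', hk⟩ := exc2_den p (Matrix.of fun i j => (p : ℚ) ^ c * η i j) fun i j => by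
      rw [Matrix.of_apply]
      push_cast
      exact exc2_pow p ((hbη i j).trans (by linarith))
    choose k hk using hk
    have hkC : ∀ i j, (k i j : ℂ) = (m' : ℂ) * ((p : ℂ) ^ c * (η i j : ℂ)) := fun i j => by
      have := congrArg (fun z : ℚ => (z : ℂ)) (hk i j)
      simpa using this.symm
    have hQ : P.1 + (n : ℝ)⁻¹ • (!![0, s₂; -s₂, 0] * P.1 * !![0, s₁; -s₁, 0]) =
        !![P.1 0 0 + P.1 1 1, P.1 0 1 - P.1 1 0; P.1 1 0 - P.1 0 1, P.1 0 0 + P.1 1 1] := by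
      conv_lhs => rw [Matrix.eta_fin_two P.1]
      rw [Matrix.mul_fin_two, Matrix.mul_fin_two, hnR]
      ext i j
      fin_cases i <;> fin_cases j <;> simp <;> field_simp <;> ring
    rw [hQ] at hP1
    have hcol : ∀ j, α₀ * ((g₁.1 0 j : ℂ) - g₁.1 1 j * Complex.I) =
        (η 0 j : ℂ) * ((g₂.1 0 0 : ℂ) - g₂.1 1 0 * Complex.I) +
          (η 1 j : ℂ) * ((g₂.1 0 1 : ℂ) - g₂.1 1 1 * Complex.I) := by
      intro j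
      have h := exc2_col hP1 j
      simp only [rl, Matrix.of_apply, Matrix.cons_val', Matrix.cons_val_zero, Matrix.cons_val_one,
        Matrix.cons_val_fin_one] at h
      rw [hα₀]
      push_cast at h ⊢
      linear_combination (1 / 2 : ℂ) * h
    refine ⟨m', hm', fun z hz => ?_⟩
    obtain ⟨x, y, rfl⟩ := mem_sp.1 hz
    refine mem_sp.2 ⟨n₁ * (x * k 0 0 + y * k 0 1), n₁ * (x * k 1 0 + y * k 1 1), ?_⟩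
    push_cast
    simp only [hkC]
    linear_combination ((m' : ℂ) * (p : ℂ) ^ c * n₁ * x) * hcol 0 +
      ((m' : ℂ) * (p : ℂ) ^ c * n₁ * y) * hcol 1

end Pool.Agent.EQ
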