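import Pool.Agent.P.MP_ad7a55_nt.Grp
import Pool.Agent.P.MP_ad7a55_nt.JBas2

/-! The projections X → Y₀ → ℂ. -/

set_option autoImplicit false

noncomputable section

open MeasureTheory Topology Filter UpperHalfPlane
open scoped MatrixGroups ENNReal BoundedContinuousFunction

namespace Pool.Agent.EQ

variable (p : ℕ) [Fact p.Prime]

/-- The projection `X → K\X = SL₂(ℝ)/SL₂(ℤ)`. -/
def toY (x : XX p) : YY := ((exists_rep p x).choose.1 : YY)

/-- The `j`-invariant of a point of `Y₀`. -/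
def jY (y : YY) : ℂ := jInv ((Quotient.out y)⁻¹ • UpperHalfPlane.I)

/-- The `j`-invariant of a point of `X`. -/
def piX (x : XX p) : ℂ := jY (toY p x)

theorem toR_mem_proj (δ : SL(2, ℤ)) : toR δ ∈ Gam0 := ⟨δ, rfl⟩

theorem toR_smul_proj (δ : SL(2, ℤ)) (τ : ℍ) : toR δ • τ = δ • τ := by
  ext1
  rw [coe_specialLinearGroup_apply, coe_specialLinearGroup_apply]
  simp [toR]

theorem toY_mk {g : GG p} (hg : g.2 ∈ Kp p) : toY p (g : XX p) = (g.1 : YY) := by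
  obtain ⟨h1, h2⟩ := (exists_rep p (g : XX p)).choose_spec
  set h := (exists_rep p (g : XX p)).choose with hh
  have h3 : h⁻¹ * g ∈ Gam p := QuotientGroup.eq.1 h2
  obtain ⟨δ, hδ⟩ := exists_int_of_Gam p h3 ((Kp p).mul_mem ((Kp p).inv_mem h1) hg)
  have h4 : h.1⁻¹ * g.1 = toR δ := congrArg Prod.fst hδ
  change (h.1 : YY) = (g.1 : YY)
  exact QuotientGroup.eq.2 (h4 ▸ toR_mem_proj δ)

theorem continuous_toY : Continuous (toY p) := by
  have hU : IsOpen {g : GG p | g.2 ∈ Kp p} := (Kp_open p).preimage continuous_snd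
  have hq : IsOpenQuotientMap
      (fun g : {g : GG p | g.2 ∈ Kp p} => ((g : GG p) : XX p)) := by
    refine ⟨fun x => ?_, QuotientGroup.continuous_mk.comp continuous_subtype_val,
      QuotientGroup.isOpenMap_coe.comp hU.isOpenMap_subtype_val⟩
    obtain ⟨g, h1, h2⟩ := exists_rep p x
    exact ⟨⟨g, h1⟩, h2⟩
  rw [hq.isQuotientMap.continuous_iff]
  have : (toY p ∘ fun g : {g : GG p | g.2 ∈ Kp p} => ((g : GG p) : XX p)) =
      fun g : {g : GG p | g.2 ∈ Kp p} => ((g : GG p).1 : YY) :=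
    funext fun g => toY_mk p g.2
  rw [this]
  exact QuotientGroup.continuous_mk.comp (continuous_fst.comp continuous_subtype_val)

theorem toY_smul {g : GG p} (hg : g.2 ∈ Kp p) (x : XX p) : toY p (g • x) = g.1 • toY p x := by
  obtain ⟨h, h1, rfl⟩ := exists_rep p x
  have e1 : g • (h : XX p) = ((g * h : GG p) : XX p) := rfl
  rw [e1, toY_mk p (g := g * h) ((Kp p).mul_mem hg h1), toY_mk p h1]
  rfl

theorem exists_of_toY {x : XX p} {g : SL(2, ℝ)} (h : toY p x = (g : YY)) :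
    ∃ k ∈ Kp p, x = (((g, k) : GG p) : XX p) := by
  obtain ⟨a, h1, rfl⟩ := exists_rep p x
  rw [toY_mk p h1] at h
  obtain ⟨δ, hδ⟩ := QuotientGroup.eq.1 h
  refine ⟨a.2 * toP p δ, (Kp p).mul_mem h1 (toP_mem_Kp p δ), QuotientGroup.eq.2 ?_⟩
  have : a⁻¹ * ((g, a.2 * toP p δ) : GG p) = (toR δ, toP p δ) := by
    refine Prod.ext ?_ ?_
    · exact hδ.symm
    · simp
  rw [this]
  exact int_mem_Gam p δ

theorem jY_mk (g : SL(2, ℝ)) : jY (g : YY) = jInv (g⁻¹ • UpperHalfPlane.I) := by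
  obtain ⟨δ, hδ⟩ : (Quotient.out (g : YY))⁻¹ * g ∈ Gam0 :=
    QuotientGroup.eq.1 (Quotient.out_eq (g : YY))
  have h1 : (Quotient.out (g : YY))⁻¹ = toR δ * g⁻¹ := by
    have : toR δ = (Quotient.out (g : YY))⁻¹ * g := hδ
    rw [this]; simp
  rw [jY, h1, mul_smul, toR_smul_proj, jInv_smul]

theorem continuous_jY : Continuous jY := by
  rw [(QuotientGroup.isQuotientMap_mk Gam0).continuous_iff]
  have : (jY ∘ (QuotientGroup.mk : SL(2, ℝ) → YY)) =
      fun g : SL(2, ℝ) => jInv (g⁻¹ • UpperHalfPlane.I) := funext jY_mk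
  rw [this]
  exact continuous_jInv.comp (continuous_inv.smul continuous_const)

theorem continuous_piX : Continuous (piX p) := continuous_jY.comp (continuous_toY p)

theorem piX_K {k : SL(2, ℚ_[p])} (hk : k ∈ Kp p) (x : XX p) :
    piX p (((1, k) : GG p) • x) = piX p x := by
  rw [piX, toY_smul p (g := (1, k)) hk, one_smul, piX]

/-- Squared length of the vector `g v`. -/
def nsq (g : SL(2, ℝ)) (v : Fin 2 → ℚ) : ℝ :=
  (g 0 0 * v 0 + g 0 1 * v 1) ^ 2 + (g 1 0 * v 0 + g 1 1 * v 1) ^ 2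

/-- The lattice of the point `x` has a nonzero vector shorter than `ε`. -/
def Short (ε : ℝ) (x : XX p) : Prop :=
  ∃ g : GG p, (g : XX p) = x ∧ ∃ v : Fin 2 → ℚ, v ≠ 0 ∧ (∀ i, InZp p (v i)) ∧
    (∀ i, ‖g.2 i 0 * v 0 + g.2 i 1 * v 1‖ ≤ 1) ∧ nsq g.1 v < ε ^ 2

theorem det_proj (g : SL(2, ℝ)) : g 0 0 * g 1 1 - g 0 1 * g 1 0 = 1 := by
  have := g.det_coe
  rwa [Matrix.det_fin_two] at this

theorem pos_proj (g : SL(2, ℝ)) : 0 < g 0 0 ^ 2 + g 1 0 ^ 2 := by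
  have h := det_proj g
  by_contra hn
  have h1 : g 0 0 = 0 := by nlinarith [sq_nonneg (g 0 0), sq_nonneg (g 1 0)]
  have h2 : g 1 0 = 0 := by nlinarith [sq_nonneg (g 0 0), sq_nonneg (g 1 0)]
  rw [h1, h2] at h
  simp at h

theorem coe_inv_smul_proj (g : SL(2, ℝ)) :
    ((g⁻¹ • UpperHalfPlane.I : ℍ) : ℂ) =
      ⟨-(g 0 0 * g 0 1 + g 1 0 * g 1 1) / (g 0 0 ^ 2 + g 1 0 ^ 2),
        1 / (g 0 0 ^ 2 + g 1 0 ^ 2)⟩ := by
  have h := det_proj g
  have hp := (pos_proj g).ne'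
  have hd : ((-(g 1 0) : ℝ) : ℂ) * Complex.I + (g 0 0 : ℝ) ≠ 0 := by
    intro h0
    have h1 := congrArg Complex.re h0
    have h2 := congrArg Complex.im h0
    simp at h1 h2
    simp [h1, h2] at hp
  rw [coe_specialLinearGroup_apply, Matrix.SpecialLinearGroup.SL2_inv_expl]
  simp only [Algebra.algebraMap_self, RingHom.id_apply, Matrix.cons_val', Matrix.cons_val_zero,
    Matrix.cons_val_one, Matrix.cons_val_fin_one, coe_I]
  rw [div_eq_iff hd]
  apply Complex.ext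
  · simp
    field_simp
    linear_combination (g 1 0) * h
  · simp
    field_simp
    linear_combination (g 0 0) * h

/-- Reduction: a lattice has a basis whose point lies in the fundamental domain. -/
theorem reduce_proj (g : SL(2, ℝ)) :
    ∃ δ : SL(2, ℤ), (g * toR δ)⁻¹ • UpperHalfPlane.I ∈ ModularGroup.fd := by
  obtain ⟨δ, hδ⟩ := ModularGroup.exists_smul_mem_fd (g⁻¹ • UpperHalfPlane.I)
  refine ⟨δ⁻¹, ?_⟩
  rwa [map_inv, mul_inv_rev, inv_inv, mul_smul, toR_smul_proj]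

theorem im_proj (g : SL(2, ℝ)) :
    (g⁻¹ • UpperHalfPlane.I : ℍ).im = 1 / (g 0 0 ^ 2 + g 1 0 ^ 2) := by
  rw [← coe_im, coe_inv_smul_proj]

/-- Mahler's criterion. -/
theorem exists_compact_notShort {ε : ℝ} (hε : 0 < ε) :
    ∃ Ω : Set (XX p), IsCompact Ω ∧ ∀ x, ¬ Short p ε x → x ∈ Ω := by
  have hC : IsCompact ((fun g : SL(2, ℝ) => g • UpperHalfPlane.I) ⁻¹'
      ModularGroup.truncatedFundamentalDomain (1 / ε ^ 2))⁻¹ :=
    (isProperMap_smul_I.isCompact_preimage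
      (ModularGroup.isCompact_truncatedFundamentalDomain _)).inv
  refine ⟨_, (hC.prod (Kp_compact p)).image (QuotientGroup.continuous_mk (N := Gam p)),
    fun x hx => ?_⟩
  obtain ⟨a, h1, rfl⟩ := exists_rep p x
  obtain ⟨δ, hδ⟩ := reduce_proj a.1
  have hK : a.2 * toP p δ ∈ Kp p := (Kp p).mul_mem h1 (toP_mem_Kp p δ)
  have he : (((a.1 * toR δ, a.2 * toP p δ) : GG p) : XX p) = (a : XX p) := by
    refine (QuotientGroup.eq.2 ?_).symm
    have : a⁻¹ * ((a.1 * toR δ, a.2 * toP p δ) : GG p) = (toR δ, toP p δ) := by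
      refine Prod.ext ?_ ?_ <;> simp
    rw [this]
    exact int_mem_Gam p δ
  refine ⟨(a.1 * toR δ, a.2 * toP p δ), ⟨⟨hδ, ?_⟩, hK⟩, he⟩
  have h2 : ε ^ 2 ≤ nsq (a.1 * toR δ) ![1, 0] := by
    by_contra h3
    refine hx ⟨_, he, ![1, 0], ?_, ?_, ?_, not_le.1 h3⟩
    · intro h0
      simpa using congrFun h0 0
    · intro i
      fin_cases i
      · simpa using inZp_int p 1
      · simpa using inZp_int p 0
    · intro i
      simpa using hK i 0
  change ((a.1 * toR δ)⁻¹ • UpperHalfPlane.I : ℍ).im ≤ 1 / ε ^ 2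
  rw [im_proj]
  refine one_div_le_one_div_of_le (by positivity) ?_
  simpa [nsq] using h2

theorem card_Icc_proj (u r : ℝ) (hr : 0 ≤ r) :
    ((Finset.Icc ⌈u - r⌉ ⌊u + r⌋).card : ℝ) ≤ 2 * r + 1 := by
  rw [Int.card_Icc]
  rcases le_total (⌊u + r⌋ + 1 - ⌈u - r⌉) 0 with h | h
  · rw [Int.toNat_of_nonpos h]
    simp only [Nat.cast_zero]
    positivity
  · have : (((⌊u + r⌋ + 1 - ⌈u - r⌉).toNat : ℕ) : ℝ) = ((⌊u + r⌋ + 1 - ⌈u - r⌉ : ℤ) : ℝ) := by
      rw [← Int.cast_natCast, Int.toNat_of_nonneg h]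
    rw [this]
    push_cast
    linarith [Int.floor_le (u + r), Int.le_ceil (u - r)]

/-- The count for the form `(s x + t y)² + (y / s)²`. -/
theorem card_form_proj {s t R : ℝ} (hs : 0 < s) (hs2 : s ^ 2 ≤ 3 / 2) (hR : 0 ≤ R) :
    ∃ T : Finset (Fin 2 → ℤ), (T.card : ℝ) ≤ 7 * R ^ 2 + 2 ∧
      ∀ v : Fin 2 → ℤ, IsCoprime (v 0) (v 1) →
        (s * v 0 + t * v 1) ^ 2 + (v 1 / s) ^ 2 < R ^ 2 → v ∈ T := by
  classical
  set N : ℕ := ⌊R * s⌋₊ with hN
  have hNle : (N : ℝ) ≤ R * s := Nat.floor_le (by positivity)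
  let J : Finset ℤ := (Finset.Icc (-(N : ℤ)) N).erase 0
  have hJ : (J.card : ℝ) = 2 * N := by
    have h0 : (0 : ℤ) ∈ Finset.Icc (-(N : ℤ)) N := by simp
    have : J.card = 2 * N := by
      rw [Finset.card_erase_of_mem h0, Int.card_Icc]
      omega
    rw [this]; push_cast; ring
  let B : ℤ → Finset (Fin 2 → ℤ) := fun n =>
    (Finset.Icc ⌈-(t * n / s) - R / s⌉ ⌊-(t * n / s) + R / s⌋).image fun m => ![m, n]
  have hB : ∀ n, ((B n).card : ℝ) ≤ 2 * (R / s) + 1 := fun n =>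
    le_trans (by exact_mod_cast Finset.card_image_le) (card_Icc_proj _ _ (by positivity))
  refine ⟨J.biUnion B ∪ {![1, 0], ![-1, 0]}, ?_, fun v hv hlt => ?_⟩
  · have h1 : ((J.biUnion B).card : ℝ) ≤ 2 * N * (2 * (R / s) + 1) := by
      have h2 : ((J.biUnion B).card : ℝ) ≤ ∑ n ∈ J, ((B n).card : ℝ) := by
        exact_mod_cast Finset.card_biUnion_le
      refine h2.trans ((Finset.sum_le_sum fun n _ => hB n).trans ?_)
      rw [Finset.sum_const, nsmul_eq_mul, hJ]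
    have h3 : ((({![1, 0], ![-1, 0]} : Finset (Fin 2 → ℤ))).card : ℝ) ≤ 2 := by
      exact_mod_cast Finset.card_le_two
    have h4 : (((J.biUnion B ∪ {![1, 0], ![-1, 0]}).card : ℕ) : ℝ) ≤
        (J.biUnion B).card + (({![1, 0], ![-1, 0]} : Finset (Fin 2 → ℤ))).card := by
      exact_mod_cast Finset.card_union_le _ _
    have h5 : (N : ℝ) * (R / s) ≤ R ^ 2 := by
      calc (N : ℝ) * (R / s) ≤ R * s * (R / s) := mul_le_mul_of_nonneg_right hNle (by positivity)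
        _ = R ^ 2 := by field_simp
    have h6 : (N : ℝ) ≤ 3 / 2 * R ^ 2 := by
      have h7 : (N : ℝ) ≤ (N : ℝ) ^ 2 := by exact_mod_cast Nat.le_self_pow two_ne_zero N
      have h8 : (N : ℝ) ^ 2 ≤ (R * s) ^ 2 := pow_le_pow_left₀ (by positivity) hNle 2
      have h9 : (R * s) ^ 2 ≤ R ^ 2 * (3 / 2) := by
        rw [mul_pow]; exact mul_le_mul_of_nonneg_left hs2 (by positivity)
      linarith
    linarith
  · have hv' : v = ![v 0, v 1] := by ext i; fin_cases i <;> rfl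
    by_cases h1 : v 1 = 0
    · rw [h1, isCoprime_zero_right, Int.isUnit_iff] at hv
      rw [hv', h1]
      rcases hv with h | h <;> simp [h]
    · refine Finset.mem_union_left _ (Finset.mem_biUnion.2 ⟨v 1, ?_, ?_⟩)
      · refine Finset.mem_erase.2 ⟨h1, Finset.mem_Icc.2 (abs_le.1 ?_)⟩
        have h2 : |(v 1 : ℝ) / s| ≤ R :=
          abs_le_of_sq_le_sq' (by nlinarith [sq_nonneg (s * v 0 + t * v 1)]) hR |> abs_le.2
        rw [abs_div, abs_of_pos hs, div_le_iff₀ hs] at h2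
        have h3 : (v 1).natAbs ≤ N := Nat.le_floor (by rwa [Nat.cast_natAbs, Int.cast_abs])
        rw [← Int.natCast_natAbs]
        exact_mod_cast h3
      · refine Finset.mem_image.2 ⟨v 0, Finset.mem_Icc.2 ⟨?_, ?_⟩, hv'.symm⟩
        · have h2 := (abs_le_of_sq_le_sq' (a := s * v 0 + t * v 1)
            (by nlinarith [sq_nonneg ((v 1 : ℝ) / s)]) hR).1
          rw [Int.ceil_le, ← neg_div, ← sub_div, div_le_iff₀ hs]
          linarith
        · have h2 := (abs_le_of_sq_le_sq' (a := s * v 0 + t * v 1)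
            (by nlinarith [sq_nonneg ((v 1 : ℝ) / s)]) hR).2
          rw [Int.le_floor, ← neg_div, ← add_div, le_div_iff₀ hs]
          linarith

theorem nsq_mul_proj (g : SL(2, ℝ)) (δ : SL(2, ℤ)) (w : Fin 2 → ℤ) :
    nsq (g * toR δ) (fun i => w i) = nsq g (fun i => (δ.1.mulVec w) i) := by
  simp [nsq, toR, Matrix.mul_apply, Fin.sum_univ_two, Matrix.mulVec, dotProduct]
  ring

/-- Primitive vectors of a unimodular lattice in a disc. -/
theorem card_prim (g : SL(2, ℝ)) {R : ℝ} (hR : 0 ≤ R) :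
    ∃ T : Finset (Fin 2 → ℤ), (T.card : ℝ) ≤ 7 * R ^ 2 + 2 ∧
      ∀ v : Fin 2 → ℤ, IsCoprime (v 0) (v 1) → nsq g (fun i => v i) < R ^ 2 → v ∈ T := by
  classical
  obtain ⟨δ, hδ⟩ := reduce_proj g
  set h := g * toR δ with hh
  have hA := pos_proj h
  have h3 := ModularGroup.three_le_four_mul_im_sq_of_mem_fd hδ
  rw [im_proj] at h3
  set A := h 0 0 ^ 2 + h 1 0 ^ 2 with hAd
  have hA2 : A ≤ 3 / 2 := by
    rw [div_pow, one_pow, mul_one_div, le_div_iff₀ (by positivity)] at h3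
    nlinarith
  have hs : 0 < √A := Real.sqrt_pos.2 hA
  have hs2 : √A ^ 2 = A := Real.sq_sqrt hA.le
  obtain ⟨T, hT, hT2⟩ := card_form_proj (t := (h 0 0 * h 0 1 + h 1 0 * h 1 1) / √A) hs
    (hs2.le.trans hA2) hR
  refine ⟨T.image fun w => δ.1.mulVec w,
    le_trans (by exact_mod_cast Finset.card_image_le) hT, fun v hv hlt => ?_⟩
  have e1 : δ.1.mulVec ((δ⁻¹).1.mulVec v) = v := by
    rw [Matrix.mulVec_mulVec, ← Matrix.SpecialLinearGroup.coe_mul, mul_inv_cancel]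
    simp
  refine Finset.mem_image.2 ⟨(δ⁻¹).1.mulVec v, hT2 _ (hv.mulVecSL δ⁻¹) ?_, e1⟩
  have e2 := nsq_mul_proj g δ ((δ⁻¹).1.mulVec v)
  rw [e1] at e2
  rw [← e2] at hlt
  refine lt_of_eq_of_lt ?_ hlt
  generalize (δ⁻¹).1.mulVec v = w
  have hd := det_proj h
  simp only [nsq, Rat.cast_intCast, ← hh]
  have e3 : (√A * w 0 + (h 0 0 * h 0 1 + h 1 0 * h 1 1) / √A * w 1) ^ 2 + (w 1 / √A) ^ 2 =
      ((√A ^ 2 * w 0 + (h 0 0 * h 0 1 + h 1 0 * h 1 1) * w 1) ^ 2 + (w 1 : ℝ) ^ 2) / √A ^ 2 := by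
    field_simp
  rw [e3, hs2, div_eq_iff hA.ne', hAd]
  linear_combination (-((w 1 : ℝ) ^ 2) * (h 0 0 * h 1 1 - h 0 1 * h 1 0 + 1)) * hd

end Pool.Agent.EQ
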