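import Pool.Agent.P.MP_ad7a55_nt.Star
import Pool.Agent.P.MP_ad7a55_nt.Proj

/-! Frames adapted to a CM point. -/

set_option autoImplicit false

noncomputable section

open MeasureTheory Topology Filter UpperHalfPlane
open scoped MatrixGroups ENNReal BoundedContinuousFunction

namespace Pool.Agent.EQ

variable (p : ℕ) [Fact p.Prime]

/-- The lattice of a point of `G`. -/
def latG (g : GG p) : Lt where
  carrier := {z | ∃ v : Fin 2 → ℚ, (∀ i, InZp p (v i)) ∧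
    (∀ i, ‖g.2 i 0 * v 0 + g.2 i 1 * v 1‖ ≤ 1) ∧
    z = ((g.1 0 0 * v 0 + g.1 0 1 * v 1 : ℝ) : ℂ) -
      ((g.1 1 0 * v 0 + g.1 1 1 * v 1 : ℝ) : ℂ) * Complex.I}
  zero_mem' := ⟨0, fun _ => by simpa using inZp_int p 0, fun _ => by simp, by simp⟩
  add_mem' := by
    rintro _ _ ⟨v, h1, h2, rfl⟩ ⟨v', h1', h2', rfl⟩
    refine ⟨v + v', fun i => (h1 i).add (h1' i), fun i => ?_, ?_⟩
    · refine le_trans (le_of_eq ?_) ((Padic.nonarchimedean _ _).trans (max_le (h2 i) (h2' i)))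
      congr 1; simp only [Pi.add_apply]; push_cast; ring
    · simp only [Pi.add_apply]; push_cast; ring
  smul_mem' := by
    rintro n _ ⟨v, h1, h2, rfl⟩
    refine ⟨fun i => n * v i, fun i => (inZp_int p n).mul (h1 i), fun i => ?_, ?_⟩
    · have : ‖(n : ℚ_[p]) * (g.2 i 0 * v 0 + g.2 i 1 * v 1)‖ ≤ 1 := by
        rw [norm_mul]; exact mul_le_one₀ (Padic.norm_int_le_one n) (norm_nonneg _) (h2 i)
      refine le_trans (le_of_eq ?_) this
      congr 1; push_cast; ring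
    · simp only [zsmul_eq_mul]; push_cast; ring

/-- The complex number attached to the vector `g v`. -/
def frame_ph (g : SL(2, ℝ)) (a b : ℚ) : ℂ :=
  ((g 0 0 * a + g 0 1 * b : ℝ) : ℂ) - ((g 1 0 * a + g 1 1 * b : ℝ) : ℂ) * Complex.I

theorem frame_mem_latG {g : GG p} {z : ℂ} : z ∈ latG p g ↔ ∃ a b : ℚ, InZp p a ∧ InZp p b ∧
    ‖g.2 0 0 * a + g.2 0 1 * b‖ ≤ 1 ∧ ‖g.2 1 0 * a + g.2 1 1 * b‖ ≤ 1 ∧ z = frame_ph g.1 a b := by
  constructor
  · rintro ⟨v, h1, h2, rfl⟩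
    exact ⟨v 0, v 1, h1 0, h1 1, h2 0, h2 1, rfl⟩
  · rintro ⟨a, b, h1, h2, h3, h4, rfl⟩
    refine ⟨![a, b], fun i => ?_, fun i => ?_, rfl⟩
    · fin_cases i
      · exact h1
      · exact h2
    · fin_cases i
      · exact h3
      · exact h4

theorem frame_det {F : Type} [CommRing F] (g : SL(2, F)) : g 0 0 * g 1 1 - g 0 1 * g 1 0 = 1 := by
  have := g.det_coe
  rwa [Matrix.det_fin_two] at this

theorem frame_ph_inj (g : SL(2, ℝ)) {a b a' b' : ℚ} (h : frame_ph g a b = frame_ph g a' b') :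
    a = a' ∧ b = b' := by
  have h1 := congrArg Complex.re h
  have h2 := congrArg Complex.im h
  simp only [frame_ph, Complex.sub_re, Complex.ofReal_re, Complex.mul_re, Complex.I_re, mul_zero,
    Complex.ofReal_im, Complex.I_im, mul_one, sub_self, sub_zero, Complex.sub_im, Complex.mul_im,
    add_zero, zero_sub, neg_inj] at h1 h2
  have hd := frame_det g
  constructor
  · have : (a : ℝ) = a' := by
      linear_combination (g 1 1) * h1 - (g 0 1) * h2 - ((a : ℝ) - a') * hd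
    exact_mod_cast this
  · have : (b : ℝ) = b' := by
      linear_combination (g 0 0) * h2 - (g 1 0) * h1 - ((b : ℝ) - b') * hd
    exact_mod_cast this

theorem frame_ph_mul (g : SL(2, ℝ)) (c a b : ℚ) :
    (c : ℂ) * frame_ph g a b = frame_ph g (c * a) (c * b) := by
  simp only [frame_ph]; push_cast; ring

theorem frame_add_le {x y : ℚ_[p]} (hx : ‖x‖ ≤ 1) (hy : ‖y‖ ≤ 1) : ‖x + y‖ ≤ 1 :=
  (Padic.nonarchimedean _ _).trans (max_le hx hy)

theorem frame_mul_le {x y : ℚ_[p]} (hx : ‖x‖ ≤ 1) (hy : ‖y‖ ≤ 1) : ‖x * y‖ ≤ 1 := by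
  rw [norm_mul]; exact mul_le_one₀ hx (norm_nonneg _) hy

theorem frame_neg_le {x : ℚ_[p]} (hx : ‖x‖ ≤ 1) : ‖-x‖ ≤ 1 := by rwa [norm_neg]

theorem frame_K_le {k : SL(2, ℚ_[p])} (hk : k ∈ Kp p) {a b : ℚ_[p]} (ha : ‖a‖ ≤ 1)
    (hb : ‖b‖ ≤ 1) (i : Fin 2) : ‖k i 0 * a + k i 1 * b‖ ≤ 1 :=
  frame_add_le p (frame_mul_le p (hk i 0) ha) (frame_mul_le p (hk i 1) hb)

theorem frame_K_inv {k : SL(2, ℚ_[p])} (hk : k ∈ Kp p) {a b : ℚ_[p]}
    (ha : ‖k 0 0 * a + k 0 1 * b‖ ≤ 1) (hb : ‖k 1 0 * a + k 1 1 * b‖ ≤ 1) :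
    ‖a‖ ≤ 1 ∧ ‖b‖ ≤ 1 := by
  have hd := frame_det k
  constructor
  · have : a = k 1 1 * (k 0 0 * a + k 0 1 * b) + -(k 0 1 * (k 1 0 * a + k 1 1 * b)) := by
      linear_combination (-a) * hd
    rw [this]
    exact frame_add_le p (frame_mul_le p (hk 1 1) ha) (frame_neg_le p (frame_mul_le p (hk 0 1) hb))
  · have : b = k 0 0 * (k 1 0 * a + k 1 1 * b) + -(k 1 0 * (k 0 0 * a + k 0 1 * b)) := by
      linear_combination (-b) * hd
    rw [this]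
    exact frame_add_le p (frame_mul_le p (hk 0 0) hb) (frame_neg_le p (frame_mul_le p (hk 1 0) ha))

theorem frame_den {x : ℚ} (h : ‖(x : ℚ_[p])‖ ≤ 1) : ¬ (p : ℤ) ∣ (x.den : ℤ) := by
  intro hd
  have h1 : ‖((x.den : ℤ) : ℚ_[p])‖ < 1 := Padic.norm_intCast_lt_one_iff.2 hd
  have h2 : ((x.num : ℤ) : ℚ_[p]) = (x : ℚ_[p]) * ((x.den : ℤ) : ℚ_[p]) := by
    have := congrArg (fun z : ℚ => (z : ℚ_[p])) (Rat.mul_den_eq_num x)
    simp only [Rat.cast_mul, Rat.cast_natCast, Rat.cast_intCast] at this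
    rw [← this, Int.cast_natCast]
  have h3 : ‖((x.num : ℤ) : ℚ_[p])‖ < 1 := by
    rw [h2, norm_mul]
    exact lt_of_le_of_lt (mul_le_of_le_one_left (norm_nonneg _) h) h1
  have h4 : (p : ℤ) ∣ x.num := Padic.norm_intCast_lt_one_iff.1 h3
  have h5 : IsCoprime x.num (x.den : ℤ) := by
    rw [Int.isCoprime_iff_gcd_eq_one]; exact x.reduced
  exact (Nat.prime_iff_prime_int.1 (Fact.out : p.Prime)).not_unit (h5.isUnit_of_dvd' h4 hd)

theorem frame_int {x : ℚ} (h1 : InZp p x) (h2 : ‖(x : ℚ_[p])‖ ≤ 1) : ∃ n : ℤ, x = n := by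
  obtain ⟨a, m, hm⟩ := h1
  have hp' : (p : ℚ) ≠ 0 := by exact_mod_cast (Fact.out : p.Prime).ne_zero
  have h6 : ‖((m : ℤ) : ℚ_[p])‖ ≤ (p : ℝ) ^ (-(a : ℤ)) := by
    have : ((m : ℤ) : ℚ_[p]) = (p : ℚ_[p]) ^ a * (x : ℚ_[p]) := by
      have := congrArg (fun z : ℚ => (z : ℚ_[p])) hm
      simpa using this.symm
    rw [this, norm_mul, norm_pow, Padic.norm_p, zpow_neg, zpow_natCast, inv_pow]
    exact mul_le_of_le_one_right (by positivity) h2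
  obtain ⟨n, hn'⟩ := (Padic.norm_int_le_pow_iff_dvd m a).1 h6
  refine ⟨n, mul_left_cancel₀ (pow_ne_zero a hp') ?_⟩
  rw [hm, hn']; push_cast; ring

theorem frame_latG_le (g : GG p) {γ : GG p} (hγ : γ ∈ Gam p) : latG p (g * γ) ≤ latG p g := by
  obtain ⟨δ, hδ, rfl⟩ := hγ
  intro z hz
  obtain ⟨a, b, ha, hb, h0, h1, rfl⟩ := (frame_mem_latG p).1 hz
  have e2 : ∀ i j, (g * emb p δ).2 i j = g.2 i 0 * (δ 0 j : ℚ_[p]) + g.2 i 1 * (δ 1 j : ℚ_[p]) := by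
    intro i j
    simp [emb, Matrix.mul_apply, Fin.sum_univ_two]
  have e1 : ∀ i j, (g * emb p δ).1 i j = g.1 i 0 * (δ 0 j : ℝ) + g.1 i 1 * (δ 1 j : ℝ) := by
    intro i j
    simp [emb, Matrix.mul_apply, Fin.sum_univ_two]
  refine (frame_mem_latG p).2 ⟨δ 0 0 * a + δ 0 1 * b, δ 1 0 * a + δ 1 1 * b,
    ((hδ 0 0).mul ha).add ((hδ 0 1).mul hb), ((hδ 1 0).mul ha).add ((hδ 1 1).mul hb), ?_, ?_, ?_⟩
  · refine le_trans (le_of_eq ?_) h0
    congr 1; rw [e2, e2]; push_cast; ring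
  · refine le_trans (le_of_eq ?_) h1
    congr 1; rw [e2, e2]; push_cast; ring
  · simp only [frame_ph, e1]; push_cast; ring

theorem latG_mul_Gam (g : GG p) {γ : GG p} (hγ : γ ∈ Gam p) : latG p (g * γ) = latG p g := by
  refine le_antisymm (frame_latG_le p g hγ) ?_
  have := frame_latG_le p (g * γ) ((Gam p).inv_mem hγ)
  rwa [mul_inv_cancel_right] at this

theorem latG_K {g : GG p} (hg : g.2 ∈ Kp p) :
    latG p g = sp ((g.1 0 0 : ℂ) - g.1 1 0 * Complex.I) ((g.1 0 1 : ℂ) - g.1 1 1 * Complex.I) := by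
  ext z
  rw [frame_mem_latG, mem_sp]
  constructor
  · rintro ⟨a, b, ha, hb, h0, h1, rfl⟩
    obtain ⟨ha', hb'⟩ := frame_K_inv p hg h0 h1
    obtain ⟨m, rfl⟩ := frame_int p ha ha'
    obtain ⟨n, rfl⟩ := frame_int p hb hb'
    refine ⟨m, n, ?_⟩
    simp only [frame_ph]; push_cast; ring
  · rintro ⟨m, n, rfl⟩
    have hm : ‖(((m : ℚ)) : ℚ_[p])‖ ≤ 1 := by simpa using Padic.norm_int_le_one (p := p) m
    have hn : ‖(((n : ℚ)) : ℚ_[p])‖ ≤ 1 := by simpa using Padic.norm_int_le_one (p := p) n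
    refine ⟨m, n, inZp_int p m, inZp_int p n, frame_K_le p hg hm hn 0, frame_K_le p hg hm hn 1, ?_⟩
    simp only [frame_ph]; push_cast; ring

theorem frame_sp_neg (a b : ℂ) : sp a (-b) = sp a b := by
  ext z
  rw [mem_sp, mem_sp]
  constructor
  · rintro ⟨m, n, rfl⟩
    exact ⟨m, -n, by push_cast; ring⟩
  · rintro ⟨m, n, rfl⟩
    exact ⟨m, -n, by push_cast; ring⟩

theorem latG_spec (g : GG p) : IsLat (latG p g) ∧ jL (latG p g) = piX p (g : XX p) := by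
  obtain ⟨h, hh, e⟩ := exists_rep p (g : XX p)
  have hγ : h⁻¹ * g ∈ Gam p := QuotientGroup.eq.1 e
  have e1 : latG p g = latG p h := by
    rw [← latG_mul_Gam p h hγ, mul_inv_cancel_left]
  have hd := frame_det h.1
  have hc : ((h.1 0 0 : ℂ) - h.1 1 0 * Complex.I) ≠ 0 := by
    intro h0
    have h1 := congrArg Complex.re h0
    have h2 := congrArg Complex.im h0
    simp at h1 h2
    rw [h1, h2] at hd
    simp at hd
  have e2 : ((h.1 0 0 : ℂ) - h.1 1 0 * Complex.I) * ((h.1⁻¹ • UpperHalfPlane.I : ℍ) : ℂ) =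
      -((h.1 0 1 : ℂ) - h.1 1 1 * Complex.I) := by
    rw [coe_specialLinearGroup_apply, Matrix.SpecialLinearGroup.SL2_inv_expl]
    have hc' : -(h.1 1 0 : ℂ) * Complex.I + h.1 0 0 ≠ 0 := by
      intro h0; apply hc; linear_combination h0
    simp only [Fin.isValue, Matrix.of_apply, Matrix.cons_val', Matrix.cons_val_zero,
      Matrix.cons_val_one, Matrix.cons_val_fin_one, Algebra.algebraMap_self, RingHom.id_apply,
      coe_I, Complex.ofReal_neg]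
    rw [← mul_div_assoc, div_eq_iff hc']
    ring
  have e3 : latG p g = sp ((h.1 0 0 : ℂ) - h.1 1 0 * Complex.I)
      (((h.1 0 0 : ℂ) - h.1 1 0 * Complex.I) * ((h.1⁻¹ • UpperHalfPlane.I : ℍ) : ℂ)) := by
    rw [e1, latG_K p hh, e2, frame_sp_neg]
  refine ⟨e3 ▸ isLat_sp hc _, ?_⟩
  rw [e3, jL_sp hc, ← e, piX, toY_mk p hh, jY_mk]

/-- A frame adapted to a CM point of discriminant `D`: `Θ` is the matrix of `√D`. -/
def Frame (D : ℤ) (x : XX p) (e : ℚ_[p]) : Prop :=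
  ∃ (g : GG p) (Θ : Matrix (Fin 2) (Fin 2) ℤ), (g : XX p) = x ∧ g.2 ∈ Kp p ∧
    (g.1 : Matrix (Fin 2) (Fin 2) ℝ) * Θ.map (↑) =
      !![0, Real.sqrt (-(D : ℝ)); -Real.sqrt (-(D : ℝ)), 0] * (g.1 : Matrix (Fin 2) (Fin 2) ℝ) ∧
    (g.2 : Matrix (Fin 2) (Fin 2) ℚ_[p]) * Θ.map (↑) =
      !![0, e; D / e, 0] * (g.2 : Matrix (Fin 2) (Fin 2) ℚ_[p]) ∧ ‖e‖ = ‖(2 : ℚ_[p])‖

theorem frame_real {τ : ℍ} {a b c : ℤ} (ha : 0 < a)
    (h : (a : ℂ) * (τ : ℂ) ^ 2 + b * τ + c = 0) :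
    ∃ g : SL(2, ℝ), g⁻¹ • UpperHalfPlane.I = τ ∧
      (g : Matrix (Fin 2) (Fin 2) ℝ) * (!![b, 2 * c; -(2 * a), -b] : Matrix (Fin 2) (Fin 2) ℤ).map (↑) =
        !![0, Real.sqrt (-((b ^ 2 - 4 * a * c : ℤ) : ℝ));
          -Real.sqrt (-((b ^ 2 - 4 * a * c : ℤ) : ℝ)), 0] * (g : Matrix (Fin 2) (Fin 2) ℝ) := by
  have hr := HasDisc.root ha h
  set δ : ℝ := Real.sqrt (-((b ^ 2 - 4 * a * c : ℤ) : ℝ)) with hδ
  have h1 : 2 * (a : ℝ) * τ.re + b = 0 := by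
    have := congrArg Complex.re hr
    simpa [th] using this
  have h2 : 2 * (a : ℝ) * τ.im = δ := by
    have := congrArg Complex.im hr
    simpa [th, hδ] using this
  have h3 : (a : ℝ) * (τ.re ^ 2 - τ.im ^ 2) + b * τ.re + c = 0 := by
    have := congrArg Complex.re h
    simpa [pow_two] using this
  have hy := τ.im_pos
  obtain ⟨s, hs, hs2⟩ : ∃ s : ℝ, 0 < s ∧ s * s = τ.im :=
    ⟨Real.sqrt τ.im, Real.sqrt_pos.2 hy, Real.mul_self_sqrt hy.le⟩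
  refine ⟨⟨!![s⁻¹, -τ.re * s⁻¹; 0, s], by
    rw [Matrix.det_fin_two_of]; field_simp; ring⟩, ?_, ?_⟩
  · apply UpperHalfPlane.ext
    rw [coe_specialLinearGroup_apply, Matrix.SpecialLinearGroup.SL2_inv_expl]
    simp only [Fin.isValue, Matrix.of_apply, Matrix.cons_val', Matrix.cons_val_zero,
      Matrix.cons_val_one, Matrix.cons_val_fin_one, Algebra.algebraMap_self, RingHom.id_apply,
      coe_I, Complex.ofReal_neg]
    have hs' : (s : ℂ) ≠ 0 := by exact_mod_cast hs.ne'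
    have hs3 : (s : ℂ) * s = τ.im := by exact_mod_cast hs2
    have hτ : (τ : ℂ) = τ.re + τ.im * Complex.I := (Complex.re_add_im (τ : ℂ)).symm
    rw [hτ, ← hs3]
    push_cast
    field_simp
    ring
  · ext i j
    fin_cases i <;> fin_cases j <;>
      simp only [Matrix.mul_apply, Fin.sum_univ_two, Matrix.map_apply, Matrix.of_apply,
        Matrix.cons_val', Matrix.cons_val_zero, Matrix.cons_val_one, Matrix.cons_val_fin_one,
        Fin.zero_eta, Fin.mk_one, Fin.isValue] <;> push_cast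
    · field_simp
      linear_combination h1
    · field_simp
      linear_combination 2 * h3 - τ.re * h1 + (τ.im) * h2 - δ * hs2
    · field_simp
      linear_combination - h2 - 2 * a * hs2
    · field_simp
      linear_combination τ.re * h2 - (b : ℝ) * hs2 - τ.im * h1

theorem frame_unit {a b c : ℤ} (h : Int.gcd (Int.gcd a b) c = 1) :
    ∃ u v : ℤ, ¬ (p : ℤ) ∣ a * u ^ 2 + b * u * v + c * v ^ 2 := by
  by_contra hcon
  push Not at hcon
  have h1 := hcon 1 0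
  have h2 := hcon 0 1
  have h3 := hcon 1 1
  simp only [one_pow, mul_one, mul_zero, add_zero, ne_eq, OfNat.ofNat_ne_zero, not_false_eq_true,
    zero_pow, zero_add] at h1 h2 h3
  have h4 : (p : ℤ) ∣ b := by
    have := (h3.sub h1).sub h2
    rwa [show a + b + c - a - c = b by ring] at this
  have h5 : (p : ℤ) ∣ (Int.gcd a b : ℤ) := Int.dvd_coe_gcd h1 h4
  have h6 : (p : ℤ) ∣ (Int.gcd (Int.gcd a b) c : ℤ) := Int.dvd_coe_gcd h5 h2
  rw [h] at h6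
  exact (Nat.prime_iff_prime_int.1 (Fact.out : p.Prime)).not_dvd_one h6

theorem frame_two_ne : (2 : ℚ_[p]) ≠ 0 := two_ne_zero

theorem frame_four : ‖(4 : ℚ_[p])‖ = ‖(2 : ℚ_[p])‖ ^ 2 := by
  rw [← norm_pow]; norm_num

theorem frame_padic {a b c : ℤ} (h : Int.gcd (Int.gcd a b) c = 1)
    (hD : ‖((b ^ 2 - 4 * a * c : ℤ) : ℚ_[p])‖ ≤ ‖(4 : ℚ_[p])‖) :
    ∃ (k : SL(2, ℚ_[p])) (e : ℚ_[p]), k ∈ Kp p ∧
      (k : Matrix (Fin 2) (Fin 2) ℚ_[p]) *
          (!![b, 2 * c; -(2 * a), -b] : Matrix (Fin 2) (Fin 2) ℤ).map (↑) =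
        !![0, e; ((b ^ 2 - 4 * a * c : ℤ) : ℚ_[p]) / e, 0] * (k : Matrix (Fin 2) (Fin 2) ℚ_[p]) ∧
      ‖e‖ = ‖(2 : ℚ_[p])‖ := by
  obtain ⟨u, v, huv⟩ := frame_unit p h
  set Q : ℚ_[p] := a * u ^ 2 + b * u * v + c * v ^ 2 with hQ
  have hQ1 : ‖Q‖ = 1 := by
    have h1 : ¬ ‖((a * u ^ 2 + b * u * v + c * v ^ 2 : ℤ) : ℚ_[p])‖ < 1 := fun h' =>
      huv (Padic.norm_intCast_lt_one_iff.1 h')
    have h2 := Padic.norm_int_le_one (p := p) (a * u ^ 2 + b * u * v + c * v ^ 2)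
    have h3 := le_antisymm h2 (not_lt.1 h1)
    rw [← h3, hQ]; push_cast; rfl
  have hQ0 : Q ≠ 0 := by
    intro h0; rw [h0, norm_zero] at hQ1; exact zero_ne_one hQ1
  have h2 := frame_two_ne p
  have h2n : 0 < ‖(2 : ℚ_[p])‖ := norm_pos_iff.2 h2
  have hi : ∀ n : ℤ, ‖(n : ℚ_[p])‖ ≤ 1 := Padic.norm_int_le_one
  have hb : ‖(b : ℚ_[p]) / 2‖ ≤ 1 := by
    have h4 : ‖(b : ℚ_[p]) ^ 2‖ ≤ ‖(4 : ℚ_[p])‖ := by
      have e : (b : ℚ_[p]) ^ 2 = ((b ^ 2 - 4 * a * c : ℤ) : ℚ_[p]) + 4 * ((a * c : ℤ) : ℚ_[p]) := by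
        push_cast; ring
      rw [e]
      refine (Padic.nonarchimedean _ _).trans (max_le hD ?_)
      rw [norm_mul]
      exact mul_le_of_le_one_right (norm_nonneg _) (hi _)
    rw [norm_pow, frame_four] at h4
    rw [norm_div, div_le_one h2n]
    exact (pow_le_pow_iff_left₀ (norm_nonneg _) (norm_nonneg _) two_ne_zero).1 h4
  have hQi : ‖Q⁻¹‖ ≤ 1 := by rw [norm_inv, hQ1, inv_one]
  refine ⟨⟨!![(v : ℚ_[p]), -(u : ℚ_[p]); (a * u + b / 2 * v) * Q⁻¹, (b / 2 * u + c * v) * Q⁻¹], by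
    rw [Matrix.det_fin_two_of]; field_simp; rw [hQ]; ring⟩, 2 * Q, ?_, ?_, ?_⟩
  · intro i j
    fin_cases i <;> fin_cases j
    · exact hi v
    · exact frame_neg_le p (hi u)
    · exact frame_mul_le p (frame_add_le p (frame_mul_le p (hi a) (hi u))
        (frame_mul_le p hb (hi v))) hQi
    · exact frame_mul_le p (frame_add_le p (frame_mul_le p hb (hi u))
        (frame_mul_le p (hi c) (hi v))) hQi
  · ext i j
    fin_cases i <;> fin_cases j <;>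
      simp only [Matrix.mul_apply, Fin.sum_univ_two, Matrix.map_apply, Matrix.of_apply,
        Matrix.cons_val', Matrix.cons_val_zero, Matrix.cons_val_one, Matrix.cons_val_fin_one,
        Fin.zero_eta, Fin.mk_one, Fin.isValue] <;> push_cast <;> field_simp <;> ring
  · rw [norm_mul, hQ1, mul_one]

theorem exists_frame_aux {τ : ℍ} {D : ℤ} (h : HasDisc τ D)
    (hD : ‖(D : ℚ_[p])‖ ≤ ‖(4 : ℚ_[p])‖) :
    ∃ (x : XX p) (e : ℚ_[p]), Frame p D x e ∧ piX p x = jInv τ := by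
  obtain ⟨a, b, c, ha, hg, hr, rfl⟩ := h
  obtain ⟨g, hg1, hg2⟩ := frame_real ha hr
  obtain ⟨k, e, hk1, hk2, hk3⟩ := frame_padic p hg hD
  refine ⟨(((g, k) : GG p) : XX p), e, ⟨(g, k), _, rfl, hk1, hg2, hk2, hk3⟩, ?_⟩
  rw [piX, toY_mk p (g := (g, k)) hk1, jY_mk, hg1]

theorem frame_entries {F : Type} [CommRing F] {g : Matrix (Fin 2) (Fin 2) F}
    {Θ : Matrix (Fin 2) (Fin 2) ℤ} {r s : F} (h : g * Θ.map (↑) = !![0, r; s, 0] * g) :
    g 0 0 * Θ 0 0 + g 0 1 * Θ 1 0 = r * g 1 0 ∧ g 0 0 * Θ 0 1 + g 0 1 * Θ 1 1 = r * g 1 1 ∧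
      g 1 0 * Θ 0 0 + g 1 1 * Θ 1 0 = s * g 0 0 ∧ g 1 0 * Θ 0 1 + g 1 1 * Θ 1 1 = s * g 0 1 := by
  have h00 := congrFun (congrFun h 0) 0
  have h01 := congrFun (congrFun h 0) 1
  have h10 := congrFun (congrFun h 1) 0
  have h11 := congrFun (congrFun h 1) 1
  simp only [Matrix.mul_apply, Fin.sum_univ_two, Matrix.map_apply, Matrix.of_apply,
    Matrix.cons_val', Matrix.cons_val_zero, Matrix.cons_val_one, Matrix.cons_val_fin_one,
    Fin.isValue, zero_mul, zero_add, add_zero] at h00 h01 h10 h11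
  exact ⟨h00, h01, h10, h11⟩

theorem frame_th_ph {D : ℤ} {g : SL(2, ℝ)} {Θ : Matrix (Fin 2) (Fin 2) ℤ}
    (h : (g : Matrix (Fin 2) (Fin 2) ℝ) * Θ.map (↑) =
      !![0, Real.sqrt (-(D : ℝ)); -Real.sqrt (-(D : ℝ)), 0] * (g : Matrix (Fin 2) (Fin 2) ℝ))
    (y a b : ℚ) : (1 + y * th D) * frame_ph g a b =
      frame_ph g (a + y * (Θ 0 0 * a + Θ 0 1 * b)) (b + y * (Θ 1 0 * a + Θ 1 1 * b)) := by
  obtain ⟨h1, h2, h3, h4⟩ := frame_entries h
  have c1 := congrArg (fun x : ℝ => (x : ℂ)) h1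
  have c2 := congrArg (fun x : ℝ => (x : ℂ)) h2
  have c3 := congrArg (fun x : ℝ => (x : ℂ)) h3
  have c4 := congrArg (fun x : ℝ => (x : ℂ)) h4
  simp only [frame_ph, th]
  generalize Real.sqrt (-(D : ℝ)) = δ at c1 c2 c3 c4 ⊢
  push_cast at c1 c2 c3 c4 ⊢
  linear_combination (-(y : ℂ) * a) * c1 - (y : ℂ) * b * c2 + (y : ℂ) * a * Complex.I * c3 +
    (y : ℂ) * b * Complex.I * c4 - (y : ℂ) * δ * ((g 1 0 : ℂ) * a + g 1 1 * b) * Complex.I_mul_I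

theorem frame_inZp_div {x : ℚ} (h : InZp p x) (n : ℕ) : InZp p (((p : ℚ) ^ n)⁻¹ * x) := by
  obtain ⟨a, m, hm⟩ := h
  have hp' : (p : ℚ) ≠ 0 := by exact_mod_cast (Fact.out : p.Prime).ne_zero
  refine ⟨a + n, m, ?_⟩
  rw [← hm]; field_simp; ring

theorem frame_star {D : ℤ} (hD0 : D < 0) (hD : ‖(D : ℚ_[p])‖ ≤ ‖(4 : ℚ_[p])‖) {g : GG p}
    {Θ : Matrix (Fin 2) (Fin 2) ℤ} {e : ℚ_[p]} (hK : g.2 ∈ Kp p)
    (hR : (g.1 : Matrix (Fin 2) (Fin 2) ℝ) * Θ.map (↑) =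
      !![0, Real.sqrt (-(D : ℝ)); -Real.sqrt (-(D : ℝ)), 0] * (g.1 : Matrix (Fin 2) (Fin 2) ℝ))
    (hP : (g.2 : Matrix (Fin 2) (Fin 2) ℚ_[p]) * Θ.map (↑) =
      !![0, e; D / e, 0] * (g.2 : Matrix (Fin 2) (Fin 2) ℚ_[p])) (he : ‖e‖ = ‖(2 : ℚ_[p])‖)
    {y : ℚ} (hy : ‖(y : ℚ_[p]) ^ 2 * D‖ < 1) :
    star p (1 + y * th D) (latG p g) = latG p (uP p (-e * y) * g) := by
  have hpr : Prime (p : ℤ) := Nat.prime_iff_prime_int.1 (Fact.out : p.Prime)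
  have hp' : (p : ℚ) ≠ 0 := by exact_mod_cast (Fact.out : p.Prime).ne_zero
  have h2n : 0 < ‖(2 : ℚ_[p])‖ := norm_pos_iff.2 (frame_two_ne p)
  have he0 : e ≠ 0 := by
    intro h0; rw [h0, norm_zero] at he; exact h2n.ne he
  have hi : ∀ n : ℤ, ‖(((n : ℤ) : ℚ) : ℚ_[p])‖ ≤ 1 := fun n => by
    simpa using Padic.norm_int_le_one (p := p) n
  have hye : ‖(y : ℚ_[p]) * (D / e)‖ ≤ 1 := by
    have h1 : ‖(y : ℚ_[p]) * (D / e)‖ ^ 2 = ‖(y : ℚ_[p]) ^ 2 * D‖ * (‖(D : ℚ_[p])‖ / ‖e‖ ^ 2) := by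
      simp only [norm_mul, norm_div, norm_pow]; ring
    have h2 : ‖(D : ℚ_[p])‖ / ‖e‖ ^ 2 ≤ 1 := by
      rw [he, ← frame_four, div_le_one (by rw [frame_four]; positivity)]; exact hD
    have h3 : ‖(y : ℚ_[p]) * (D / e)‖ ^ 2 ≤ 1 := by
      rw [h1]; exact mul_le_one₀ hy.le (by positivity) h2
    exact (pow_le_one_iff_of_nonneg (norm_nonneg _) two_ne_zero).1 h3
  have hN : ‖1 - (y : ℚ_[p]) ^ 2 * D‖ = 1 := by
    rw [sub_eq_add_neg, Padic.add_eq_max_of_ne (by rw [norm_neg, norm_one]; exact hy.ne'),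
      norm_neg, norm_one, max_eq_left hy.le]
  have hN0 : (1 - y ^ 2 * D : ℚ) ≠ 0 := by
    intro h0
    have := congrArg (fun z : ℚ => (z : ℚ_[p])) h0
    simp only [Rat.cast_sub, Rat.cast_one, Rat.cast_mul, Rat.cast_pow, Rat.cast_intCast,
      Rat.cast_zero] at this
    rw [this, norm_zero] at hN
    exact zero_ne_one hN
  have hN0' : 1 - (y : ℚ_[p]) ^ 2 * D ≠ 0 := by
    intro h0; rw [h0, norm_zero] at hN; exact zero_ne_one hN
  obtain ⟨q1, q2, q3, q4⟩ := frame_entries hP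
  have u1 : (uP p (-e * y) * g).1 = g.1 := by simp [uP]
  have u20 : ∀ j, (uP p (-e * y) * g).2 0 j = g.2 0 j + -e * y * g.2 1 j := by
    intro j; simp [uP, Matrix.mul_apply, Fin.sum_univ_two]
  have u21 : ∀ j, (uP p (-e * y) * g).2 1 j = g.2 1 j := by
    intro j; simp [uP, Matrix.mul_apply, Fin.sum_univ_two]
  ext z
  rw [mem_star, frame_mem_latG p (g := uP p (-e * y) * g), u1, u20, u20, u21, u21]
  constructor
  · rintro ⟨⟨n, hn⟩, m, hm, w, hw, hz⟩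
    obtain ⟨a, b, ha, hb, -, -, hab⟩ := (frame_mem_latG p).1 hn
    obtain ⟨c, d, -, -, hc, hd, rfl⟩ := (frame_mem_latG p).1 hw
    have hz1 : z = frame_ph g.1 (((p : ℚ) ^ n)⁻¹ * a) (((p : ℚ) ^ n)⁻¹ * b) := by
      have hpc : (p : ℂ) ≠ 0 := by exact_mod_cast (Fact.out : p.Prime).ne_zero
      rw [← frame_ph_mul, ← hab]; push_cast; field_simp
    have ha' := frame_inZp_div p ha n
    have hb' := frame_inZp_div p hb n
    generalize ((p : ℚ) ^ n)⁻¹ * a = a' at hz1 ha'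
    generalize ((p : ℚ) ^ n)⁻¹ * b = b' at hz1 hb'
    rw [hz1, frame_th_ph hR, show ((m : ℤ) : ℂ) = ((m : ℚ) : ℂ) by simp, frame_ph_mul] at hz
    obtain ⟨e1, e2⟩ := frame_ph_inj _ hz
    have e1' := congrArg (fun z : ℚ => (z : ℚ_[p])) e1
    have e2' := congrArg (fun z : ℚ => (z : ℚ_[p])) e2
    simp only [Rat.cast_add, Rat.cast_mul, Rat.cast_intCast] at e1' e2'
    have hm1 : ‖(m : ℚ_[p])‖ = 1 :=
      le_antisymm (Padic.norm_int_le_one m) (not_lt.1 fun h' =>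
        hm (Padic.norm_intCast_lt_one_iff.1 h'))
    have hDe : (D : ℚ_[p]) = e * (D / e) := by field_simp
    refine ⟨a', b', ha', hb', ?_, ?_, hz1⟩
    · have : (m : ℚ_[p]) * ((g.2 0 0 + -e * y * g.2 1 0) * a' + (g.2 0 1 + -e * y * g.2 1 1) * b') =
          (1 - (y : ℚ_[p]) ^ 2 * D) * (g.2 0 0 * c + g.2 0 1 * d) := by
        linear_combination (g.2 0 0 + -e * y * g.2 1 0) * e1' + (g.2 0 1 + -e * y * g.2 1 1) * e2' +
          (y : ℚ_[p]) * c * q1 + (y : ℚ_[p]) * d * q2 - e * (y : ℚ_[p]) ^ 2 * c * q3 -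
          e * (y : ℚ_[p]) ^ 2 * d * q4 + (y : ℚ_[p]) ^ 2 * (g.2 0 0 * c + g.2 0 1 * d) * hDe
      have h5 := congrArg norm this
      rw [norm_mul, norm_mul, hm1, hN, one_mul, one_mul] at h5
      rwa [h5]
    · have : (m : ℚ_[p]) * (g.2 1 0 * a' + g.2 1 1 * b') = (g.2 1 0 * c + g.2 1 1 * d) +
          (y : ℚ_[p]) * (D / e) * (g.2 0 0 * c + g.2 0 1 * d) := by
        linear_combination (g.2 1 0) * e1' + (g.2 1 1) * e2' +
          (y : ℚ_[p]) * c * q3 + (y : ℚ_[p]) * d * q4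
      have h5 := congrArg norm this
      rw [norm_mul, hm1, one_mul] at h5
      rw [h5]
      exact frame_add_le p hd (frame_mul_le p hye hc)
  · rintro ⟨a, b, ha, hb, h0, h1, rfl⟩
    constructor
    · obtain ⟨n, m, hm⟩ := ha
      obtain ⟨n', m', hm'⟩ := hb
      refine ⟨n + n', (frame_mem_latG p).2 ⟨((p ^ n' * m : ℤ) : ℚ), ((p ^ n * m' : ℤ) : ℚ),
        inZp_int p _, inZp_int p _, frame_K_le p hK (hi _) (hi _) 0,
        frame_K_le p hK (hi _) (hi _) 1, ?_⟩⟩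
      rw [show (p : ℂ) ^ (n + n') = (((p : ℚ) ^ (n + n') : ℚ) : ℂ) by push_cast; rfl, frame_ph_mul]
      congr 1
      · push_cast; rw [← hm]; ring
      · push_cast; rw [← hm']; ring
    · set c : ℚ := (1 - y ^ 2 * D)⁻¹ * (a + (-y) * (Θ 0 0 * a + Θ 0 1 * b)) with hc
      set d : ℚ := (1 - y ^ 2 * D)⁻¹ * (b + (-y) * (Θ 1 0 * a + Θ 1 1 * b)) with hd
      have hDe : (D : ℚ_[p]) = e * (D / e) := by field_simp
      have k0 : ‖g.2 0 0 * c + g.2 0 1 * d‖ ≤ 1 := by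
        have : (1 - (y : ℚ_[p]) ^ 2 * D) * (g.2 0 0 * c + g.2 0 1 * d) =
            (g.2 0 0 + -e * y * g.2 1 0) * a + (g.2 0 1 + -e * y * g.2 1 1) * b := by
          rw [hc, hd]; push_cast; field_simp
          linear_combination (-(y : ℚ_[p]) * a) * q1 - (y : ℚ_[p]) * b * q2
        have h5 := congrArg norm this
        rw [norm_mul, hN, one_mul] at h5
        rwa [h5]
      have k1 : ‖g.2 1 0 * c + g.2 1 1 * d‖ ≤ 1 := by
        have : (1 - (y : ℚ_[p]) ^ 2 * D) * (g.2 1 0 * c + g.2 1 1 * d) =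
            (1 - (y : ℚ_[p]) ^ 2 * D) * (g.2 1 0 * a + g.2 1 1 * b) + -((y : ℚ_[p]) * (D / e) *
            ((g.2 0 0 + -e * y * g.2 1 0) * a + (g.2 0 1 + -e * y * g.2 1 1) * b)) := by
          rw [hc, hd]; push_cast
          generalize (D : ℚ_[p]) / e = f at hDe q3 q4 ⊢
          field_simp
          linear_combination (-(y : ℚ_[p]) * a) * q3 - (y : ℚ_[p]) * b * q4 +
            (y : ℚ_[p]) ^ 2 * (g.2 1 0 * a + g.2 1 1 * b) * hDe
        have h5 := congrArg norm this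
        rw [norm_mul, hN, one_mul] at h5
        rw [h5]
        exact frame_add_le p (frame_mul_le p hN.le h1) (frame_neg_le p (frame_mul_le p hye h0))
      obtain ⟨hc1, hd1⟩ := frame_K_inv p hK k0 k1
      refine ⟨(c.den : ℤ) * (d.den : ℤ), hpr.not_dvd_mul (frame_den p hc1) (frame_den p hd1),
        frame_ph g.1 ((c.num * d.den : ℤ) : ℚ) ((c.den * d.num : ℤ) : ℚ),
        (frame_mem_latG p).2 ⟨_, _, inZp_int p _, inZp_int p _, frame_K_le p hK (hi _) (hi _) 0,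
          frame_K_le p hK (hi _) (hi _) 1, rfl⟩, ?_⟩
      have e1 : ((c.num * d.den : ℤ) : ℚ) = ((c.den : ℚ) * d.den) * c := by
        push_cast; rw [← Rat.mul_den_eq_num c]; ring
      have e2 : ((c.den * d.num : ℤ) : ℚ) = ((c.den : ℚ) * d.den) * d := by
        push_cast; rw [← Rat.mul_den_eq_num d]; ring
      have e3 : (1 + y * th D) * frame_ph g.1 c d = frame_ph g.1 a b := by
        rw [hc, hd, ← frame_ph_mul, ← frame_th_ph hR]
        have hth := th_sq hD0.le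
        have hNc : (1 - (y : ℂ) ^ 2 * D) ≠ 0 := by exact_mod_cast hN0
        push_cast
        field_simp
        linear_combination (-(y : ℂ) ^ 2 * frame_ph g.1 a b) * hth
      rw [e1, e2, ← frame_ph_mul, ← e3]
      push_cast; ring

theorem Frame.move {D : ℤ} (hD0 : D < 0) (hD : ‖(D : ℚ_[p])‖ ≤ ‖(4 : ℚ_[p])‖) {x : XX p}
    {e : ℚ_[p]} (h : Frame p D x e) {Λ : Lt} (hΛ : IsLat Λ) (hj : jL Λ = piX p x) {y : ℚ}
    (hy : ‖(y : ℚ_[p]) ^ 2 * D‖ < 1) :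
    piX p (uP p (-e * y) • x) = jL (star p (1 + y * th D) Λ) := by
  obtain ⟨g, Θ, rfl, hK, hR, hP, he⟩ := h
  obtain ⟨h1, h2⟩ := latG_spec p g
  obtain ⟨c, hc, rfl⟩ := jL_inj h1 hΛ (h2.trans hj.symm)
  obtain ⟨h3, h4⟩ := latG_spec p (uP p (-e * y) * g)
  rw [star_pr_mul p _ hc, frame_star p hD0 hD hK hR hP he hy, jL_pr_mul h3 hc, h4]
  rfl

theorem frame_two_ge : (p : ℝ) ^ (-2 : ℤ) ≤ ‖(4 : ℚ_[p])‖ := by
  have hp : (1 : ℝ) ≤ p := by exact_mod_cast (Fact.out : p.Prime).one_lt.le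
  have h1 : (p : ℝ)⁻¹ ≤ ‖(2 : ℚ_[p])‖ := by
    by_cases h : p = 2
    · have := Padic.norm_p (p := p)
      have h2 : ((p : ℕ) : ℚ_[p]) = ((2 : ℕ) : ℚ_[p]) := congrArg Nat.cast h
      rw [← this, h2]; simp
    · have h2 : ¬ ‖((2 : ℕ) : ℚ_[p])‖ < 1 := fun h' => h
        ((Nat.prime_dvd_prime_iff_eq Fact.out Nat.prime_two).1 (Padic.norm_natCast_lt_one_iff.1 h'))
      have h3 : (1 : ℝ) ≤ ‖(2 : ℚ_[p])‖ := by simpa using h2
      exact (inv_le_one_of_one_le₀ hp).trans h3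
  rw [frame_four, zpow_neg, zpow_ofNat, ← inv_pow]
  exact pow_le_pow_left₀ (by positivity) h1 2

theorem exists_frame {τ : ℍ} {D : ℤ} (h : HasDisc τ D) : ∃ (x : XX p) (e : ℚ_[p]),
    piX p x = jInv τ ∧ (‖(D : ℚ_[p])‖ ≤ ‖(4 : ℚ_[p])‖ → Frame p D x e) ∧
      (¬ ‖(D : ℚ_[p])‖ ≤ ‖(4 : ℚ_[p])‖ → e = 0) ∧
      ∀ y : ℚ, ‖(y : ℚ_[p]) ^ 2 * D‖ ≤ (p : ℝ) ^ (-2 : ℤ) →
        piX p (uP p (-e * y) • x) = jL (star p (1 + y * th D) (sp 1 τ)) := by
  have hp : (1 : ℝ) < p := by exact_mod_cast (Fact.out : p.Prime).one_lt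
  have hlt : (p : ℝ) ^ (-2 : ℤ) < 1 := zpow_lt_one_of_neg₀ hp (by norm_num)
  by_cases hD : ‖(D : ℚ_[p])‖ ≤ ‖(4 : ℚ_[p])‖
  · obtain ⟨x, e, h1, h2⟩ := exists_frame_aux p h hD
    refine ⟨x, e, h2, fun _ => h1, fun h' => absurd hD h', fun y hy => ?_⟩
    exact h1.move p h.isD.1 hD (isLat_one τ) ((jL_one τ).trans h2.symm) (hy.trans_lt hlt)
  · obtain ⟨a, b, c, ha, -, hr, -⟩ := id h
    obtain ⟨g, hg1, -⟩ := frame_real ha hr
    have hx : piX p (((g, 1) : GG p) : XX p) = jInv τ := by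
      rw [piX, toY_mk p (g := (g, 1)) (Kp p).one_mem, jY_mk, hg1]
    refine ⟨_, 0, hx, fun h' => absurd h' hD, fun _ => rfl, fun y hy => ?_⟩
    have hy1 : ‖(y : ℚ_[p])‖ ≤ 1 := by
      by_contra hcon
      push Not at hcon hD
      have h3 := frame_two_ge p
      rw [norm_mul, norm_pow] at hy
      have h4 : 1 ≤ ‖(y : ℚ_[p])‖ ^ 2 := one_le_pow₀ hcon.le
      have h5 := mul_le_mul_of_nonneg_right h4 (norm_nonneg (D : ℚ_[p]))
      linarith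
    rw [star_triv p (discL_one h) hy1 (hy.trans_lt hlt), jL_one, neg_zero, zero_mul, uP_zero,
      one_smul, hx]

end Pool.Agent.EQ
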