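import Pool.Agent.P.MP_ad7a55_nt.Grp

/-! The Mautner phenomenon. -/

set_option autoImplicit false

noncomputable section

open MeasureTheory Topology Filter UpperHalfPlane
open scoped MatrixGroups ENNReal BoundedContinuousFunction

namespace Pool.Agent.EQ

/-- The Mautner property of a subgroup. -/
def MProp {H : Type} [Group H] [TopologicalSpace H] (S : Subgroup H) : Prop :=
  ∀ (g : H) (gs c c' : ℕ → H), Tendsto gs atTop (𝓝 1) → (∀ n, c n ∈ S) → (∀ n, c' n ∈ S) →
    Tendsto (fun n => c n * gs n * c' n) atTop (𝓝 g) → g ∈ S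

/-- The stabiliser of a measure dominated by an invariant one has the Mautner property. -/
theorem mprop_Stab {H W : Type} [Group H] [TopologicalSpace H] [IsTopologicalGroup H]
    [TopologicalSpace W] [PolishSpace W] [MeasurableSpace W] [BorelSpace W] [MulAction H W]
    [ContinuousSMul H W] (m μ : Measure W) [IsFiniteMeasure m]
    (hm : ∀ g : H, m.map (fun w => g • w) = m) (hμ : μ ≤ m) : MProp (Stab H μ) := by
  borelize H
  have : IsFiniteMeasure μ := isFiniteMeasure_of_le m hμ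
  have hmp : ∀ g : H, MeasurePreserving (fun w : W => g • w) m m := fun g =>
    ⟨measurable_const_smul g, hm g⟩
  have : SMulInvariantMeasure H W m := ⟨fun g s hs => (hmp g).measure_preimage hs.nullMeasurableSet⟩
  have : Fact ((1 : ℝ≥0∞) ≠ ∞) := ⟨ENNReal.one_ne_top⟩
  have hac : μ ≪ m := Measure.absolutelyContinuous_of_le hμ
  have hi : MemLp (fun w => (μ.rnDeriv m w).toReal) 1 m :=
    memLp_one_iff_integrable.2 Measure.integrable_toReal_rnDeriv
  have key : ∀ g : H, g ∈ Stab H μ ↔ DomMulAct.mk g • hi.toLp _ = hi.toLp _ := by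
    intro g
    rw [DomMulAct.mk_smul_toLp, MemLp.toLp_eq_toLp_iff, mem_Stab]
    constructor
    · intro h
      have := (MeasurableEquiv.smul g).measurableEmbedding.rnDeriv_map μ m
      have e : ⇑(MeasurableEquiv.smul (α := W) g) = fun w => g • w := rfl
      rw [e, h, hm g] at this
      filter_upwards [this] with w hw
      rw [hw]
    · intro h
      have h1 := Measure.rnDeriv_lt_top μ m
      have h2 := (hmp g).quasiMeasurePreserving.ae h1
      have h3 : (fun w => μ.rnDeriv m (g • w)) =ᵐ[m] μ.rnDeriv m := by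
        filter_upwards [h, h1, h2] with w a1 a2 a3
        exact (ENNReal.toReal_eq_toReal_iff' a3.ne a2.ne).1 a1
      ext B hB
      rw [Measure.map_apply (measurable_const_smul g) hB, ← Measure.setLIntegral_rnDeriv hac,
        ← Measure.setLIntegral_rnDeriv hac B,
        ← (hmp g).setLIntegral_comp_preimage hB (Measure.measurable_rnDeriv μ m)]
      exact (lintegral_congr_ae (ae_restrict_of_ae h3)).symm
  intro g gs c c' h1 h2 h3 h4
  rw [key]
  generalize hi.toLp _ = f at key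
  have hc : Continuous fun a : H => DomMulAct.mk a • f :=
    DomMulAct.continuous_mk.smul continuous_const
  have a1 := (hc.tendsto g).comp h4
  have a2 := (hc.tendsto 1).comp h1
  rw [DomMulAct.mk_one, one_smul, tendsto_iff_dist_tendsto_zero] at a2
  refine tendsto_nhds_unique a1 (tendsto_iff_dist_tendsto_zero.2 (a2.congr fun n => ?_))
  simp only [Function.comp_apply]
  rw [DomMulAct.mk_mul, DomMulAct.mk_mul, mul_smul, mul_smul, (key _).1 (h2 n)]
  conv_rhs => rw [← (key _).1 (h3 n)]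
  conv_rhs => enter [1, 2, 2]; rw [(key _).1 (h3 n)]
  rw [DomMulAct.dist_smul_Lp]

theorem maut_comap {H H' : Type} [Group H] [TopologicalSpace H] [Group H'] [TopologicalSpace H']
    {S : Subgroup H} (hS : MProp S) (φ : H' →* H) (hφ : Continuous φ) : MProp (S.comap φ) := by
  intro g gs c c' h1 h2 h3 h4
  refine hS (φ g) (fun n => φ (gs n)) (fun n => φ (c n)) (fun n => φ (c' n)) ?_ h2 h3 ?_
  · simpa only [map_one, Function.comp_def] using (hφ.tendsto 1).comp h1
  · simpa only [← map_mul, Function.comp_def] using (hφ.tendsto g).comp h4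

theorem maut_dg_uu {F : Type} [Field F] (t : F) (h0 : t ≠ 0) (x : F) :
    dg t h0 * uu x * (dg t h0)⁻¹ = uu (t ^ 2 * x) := by
  rw [mul_inv_eq_iff_eq_mul]
  ext i j
  fin_cases i <;> fin_cases j <;> simp [Matrix.mul_apply, Fin.sum_univ_two]
  field_simp

theorem maut_dg_ul {F : Type} [Field F] (t : F) (h0 : t ≠ 0) (x : F) :
    dg t h0 * ul (t ^ 2 * x) * (dg t h0)⁻¹ = ul x := by
  rw [mul_inv_eq_iff_eq_mul]
  ext i j
  fin_cases i <;> fin_cases j <;> simp [Matrix.mul_apply, Fin.sum_univ_two]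
  field_simp

/-- An element of `S` that acts on a copy of `SL₂` as a contracting diagonal matrix puts the
whole copy into `S`. -/
theorem maut_contract {F H : Type} [NormedField F] [Group H] [TopologicalSpace H]
    {S : Subgroup H} (hS : MProp S) (φ : SL(2, F) →* H) (hφ : Continuous φ) (t : F) (h0 : t ≠ 0)
    (h1 : ‖t‖ < 1) {A : H} (hA : A ∈ S)
    (hc : ∀ b, A * φ b * A⁻¹ = φ (dg t h0 * b * (dg t h0)⁻¹)) (g : SL(2, F)) : φ g ∈ S := by
  have hz : ∀ x : F, Tendsto (fun n : ℕ => (t ^ 2) ^ n * x) atTop (𝓝 0) := fun x => by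
    have : ‖t ^ 2‖ < 1 := by
      rw [norm_pow]
      exact pow_lt_one₀ (norm_nonneg _) h1 two_ne_zero
    simpa using (tendsto_pow_atTop_nhds_zero_of_norm_lt_one this).mul_const x
  have hu : ∀ (x : F) (n : ℕ), (A ^ n)⁻¹ * φ (uu ((t ^ 2) ^ n * x)) * A ^ n = φ (uu x) := by
    intro x n
    induction n with
    | zero => simp
    | succ n ih =>
      rw [pow_succ' (t ^ 2), mul_assoc (t ^ 2), ← maut_dg_uu t h0, ← hc, ← ih, pow_succ' A]
      group
  have hl : ∀ (x : F) (n : ℕ), A ^ n * φ (ul ((t ^ 2) ^ n * x)) * (A ^ n)⁻¹ = φ (ul x) := by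
    intro x n
    induction n with
    | zero => simp
    | succ n ih =>
      rw [pow_succ' (t ^ 2), mul_assoc (t ^ 2), ← ih, ← maut_dg_ul t h0 ((t ^ 2) ^ n * x), ← hc,
        pow_succ A]
      group
  have : S.comap φ = ⊤ := by
    refine SL2_gen _ (fun x => ?_) fun x => ?_
    · refine hS _ (fun n => φ (uu ((t ^ 2) ^ n * x))) (fun n => (A ^ n)⁻¹) (fun n => A ^ n) ?_
        (fun n => S.inv_mem (S.pow_mem hA n)) (fun n => S.pow_mem hA n) ?_
      · simpa [Function.comp_def] using ((hφ.comp continuous_uu).tendsto 0).comp (hz x)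
      · simpa only [hu] using tendsto_const_nhds
    · refine hS _ (fun n => φ (ul ((t ^ 2) ^ n * x))) (fun n => A ^ n) (fun n => (A ^ n)⁻¹) ?_
        (fun n => S.pow_mem hA n) (fun n => S.inv_mem (S.pow_mem hA n)) ?_
      · simpa [Function.comp_def] using ((hφ.comp continuous_ul).tendsto 0).comp (hz x)
      · simpa only [hl] using tendsto_const_nhds
  exact (Subgroup.eq_top_iff' _).1 this g

theorem maut_prod {F : Type} [Field F] (t : F) (h0 : t ≠ 0) (d e : F) (hd : d ≠ 0) (he : e ≠ 0) :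
    uu (d * ((t - 1) / e)) * ul (e / d) * uu (d * (-((t - 1) / e) / t)) =
      ul (e / d / t) * dg t h0 := by
  ext i j
  fin_cases i <;> fin_cases j <;> simp [Matrix.mul_apply, Fin.sum_univ_two] <;> field_simp <;> ring

/-- A hyperbolic real matrix is diagonalisable. -/
theorem maut_diag {g : SL(2, ℝ)} (hg : 2 < |g 0 0 + g 1 1|) :
    ∃ (P : SL(2, ℝ)) (t : ℝ) (h0 : t ≠ 0), |t| ≠ 1 ∧ g * P = P * dg t h0 := by
  have hdet : g 0 0 * g 1 1 - g 0 1 * g 1 0 = 1 := by
    have := g.det_coe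
    rwa [Matrix.det_fin_two] at this
  have hT : 4 < (g 0 0 + g 1 1) ^ 2 := by
    rw [← sq_abs]; nlinarith
  have hne : ∀ t : ℝ, t ^ 2 - (g 0 0 + g 1 1) * t + 1 = 0 → t ≠ 0 ∧ t ^ 2 ≠ 1 := by
    intro t ht
    constructor
    · rintro rfl
      simp at ht
    · intro h
      have h2 : (g 0 0 + g 1 1) * t = 2 := by linarith
      have h3 : (g 0 0 + g 1 1) ^ 2 * t ^ 2 = 4 := by rw [← mul_pow, h2]; norm_num
      rw [h] at h3
      linarith
  have habs : ∀ t : ℝ, t ^ 2 ≠ 1 → |t| ≠ 1 := fun t ht h => ht (by rw [← sq_abs, h]; norm_num)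
  by_cases hc : g 1 0 = 0
  · rw [hc, mul_zero, sub_zero] at hdet
    obtain ⟨a0, a1⟩ := hne (g 0 0) (by linear_combination -hdet)
    have a2 : g 1 1 = (g 0 0)⁻¹ := eq_inv_of_mul_eq_one_right hdet
    have a3 : 1 - g 0 0 ^ 2 ≠ 0 := sub_ne_zero.2 a1.symm
    refine ⟨uu (g 0 1 * g 0 0 / (1 - g 0 0 ^ 2)), g 0 0, a0, habs _ a1, ?_⟩
    ext i j
    fin_cases i <;> fin_cases j <;> simp [Matrix.mul_apply, Fin.sum_univ_two, hc, a2]
    field_simp
    ring
  · obtain ⟨r, hr⟩ : ∃ r : ℝ, r ^ 2 = (g 0 0 + g 1 1) ^ 2 - 4 :=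
      ⟨_, Real.sq_sqrt (by linarith)⟩
    obtain ⟨t, ht⟩ : ∃ t : ℝ, t ^ 2 - (g 0 0 + g 1 1) * t + 1 = 0 :=
      ⟨(g 0 0 + g 1 1 + r) / 2, by linear_combination hr / 4⟩
    obtain ⟨a0, a1⟩ := hne t ht
    have a3 : t ^ 2 - 1 ≠ 0 := sub_ne_zero.2 a1
    refine ⟨⟨!![t - g 1 1, (1 - t * g 1 1) / (g 1 0 * (t ^ 2 - 1)); g 1 0, t / (t ^ 2 - 1)], ?_⟩,
      t, a0, habs _ a1, ?_⟩
    · rw [Matrix.det_fin_two_of]
      field_simp
      ring
    · ext i j
      fin_cases i <;> fin_cases j <;> simp [Matrix.mul_apply, Fin.sum_univ_two]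
      · linear_combination -ht - hdet
      · field_simp
        linear_combination -ht - t ^ 2 * hdet
      · ring
      · field_simp
        ring

variable (p : ℕ) [Fact p.Prime]

theorem mautner_U {κ : Type} [Fintype κ] [DecidableEq κ] (S : Subgroup (κ → GG p)) (hS : MProp S)
    (d : κ → ℚ_[p]) (hd : ∀ k, d k ≠ 0) (h : ∀ s, (fun k => uP p (d k * s)) ∈ S) (k : κ)
    (g : SL(2, ℚ_[p])) : Pi.mulSingle (M := fun _ => GG p) k (1, g) ∈ S := by
  have h0 : (p : ℚ_[p]) ≠ 0 := Nat.cast_ne_zero.2 (Fact.out : p.Prime).ne_zero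
  have h1 : ‖(p : ℚ_[p])‖ < 1 := Padic.norm_p_lt_one
  have hz := tendsto_pow_atTop_nhds_zero_of_norm_lt_one h1
  have hA : (fun _ => ((1, dg (p : ℚ_[p]) h0) : GG p)) ∈ S := by
    refine hS _ (fun n j => (1, ul ((p : ℚ_[p]) ^ n / d j)))
      (fun n j => uP p (d j * (((p : ℚ_[p]) - 1) / p ^ n)))
      (fun n j => uP p (d j * (-(((p : ℚ_[p]) - 1) / p ^ n) / p))) ?_ (fun n => h _)
      (fun n => h _) ?_
    · refine tendsto_pi_nhds.2 fun j => tendsto_const_nhds.prodMk_nhds ?_
      simpa [Function.comp_def] using (continuous_ul.tendsto _).comp (hz.div_const (d j))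
    · refine tendsto_pi_nhds.2 fun j => ?_
      simp only [Pi.mul_apply, uP, Prod.mk_mul_mk, mul_one,
        maut_prod _ h0 _ _ (hd j) (pow_ne_zero _ h0)]
      refine tendsto_const_nhds.prodMk_nhds ?_
      simpa using ((continuous_ul.tendsto _).comp
        ((hz.div_const (d j)).div_const (p : ℚ_[p]))).mul_const (dg (p : ℚ_[p]) h0)
  refine maut_contract hS
    ((MonoidHom.mulSingle (fun _ : κ => GG p) k).comp (MonoidHom.inr _ _))
    ((continuous_mulSingle (A := fun _ : κ => GG p) k).comp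
      (continuous_const.prodMk continuous_id)) _ h0 h1 hA (fun b => ?_) g
  funext j
  by_cases hj : j = k
  · subst hj
    simp
  · simp [Pi.mulSingle_eq_of_ne hj]

theorem mautner_U1 (S : Subgroup (GG p)) (hS : MProp S) (h : ∀ s, uP p s ∈ S)
    (g : SL(2, ℚ_[p])) : ((1, g) : GG p) ∈ S := by
  have := mautner_U p (S.comap (Pi.evalMonoidHom (fun _ : Unit => GG p) ()))
    (maut_comap hS _ (continuous_apply ())) (fun _ => 1) (fun _ => one_ne_zero)
    (fun s => h _) () g
  simpa using this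

theorem mautner_hyp (S : Subgroup (GG p)) (hS : MProp S) {g : SL(2, ℝ)}
    (hg : 2 < |g 0 0 + g 1 1|) (h : ((g, 1) : GG p) ∈ S) (g' : SL(2, ℝ)) :
    ((g', 1) : GG p) ∈ S := by
  have key : ∀ (a P : SL(2, ℝ)) (t : ℝ) (h0 : t ≠ 0), |t| < 1 → a * P = P * dg t h0 →
      ((a, 1) : GG p) ∈ S → ((g', 1) : GG p) ∈ S := by
    intro a P t h0 h1 h2 h3
    have h4 : a = P * dg t h0 * P⁻¹ := eq_mul_inv_of_mul_eq h2
    have := maut_contract hS
      ((MonoidHom.inl SL(2, ℝ) SL(2, ℚ_[p])).comp (MulAut.conj P).toMonoidHom)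
      (((continuous_const.mul continuous_id).mul continuous_const).prodMk continuous_const)
      t h0 h1 h3 (fun b => by
        rw [h4]
        refine Prod.ext ?_ (by simp)
        simp [mul_assoc]) (P⁻¹ * g' * P)
    simpa [mul_assoc] using this
  obtain ⟨P, t, h0, h1, h2⟩ := maut_diag hg
  rcases lt_or_gt_of_ne h1 with h3 | h3
  · exact key g P t h0 h3 h2 h
  · refine key g⁻¹ P t⁻¹ (inv_ne_zero h0) (by rw [abs_inv]; exact inv_lt_one_of_one_lt₀ h3) ?_
      (by simpa using S.inv_mem h)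
    have : dg t h0 * dg t⁻¹ (inv_ne_zero h0) = 1 := by
      ext i j
      fin_cases i <;> fin_cases j <;> simp [Matrix.mul_apply, Fin.sum_univ_two, h0]
    rw [inv_mul_eq_iff_eq_mul, ← mul_assoc, h2, mul_assoc, this, mul_one]

end Pool.Agent.EQ
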