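import Pool.Agent.P.MP_ad7a55_nt.HaarB2
import Pool.Agent.P.MP_ad7a55_nt.Maut
import Pool.Agent.P.MP_ad7a55_nt.Dec

/-! Free coordinates and ergodicity of the product measure. -/

set_option autoImplicit false

noncomputable section

open MeasureTheory Topology Filter UpperHalfPlane
open scoped MatrixGroups ENNReal BoundedContinuousFunction

namespace Pool.Agent.EQ

variable (p : ℕ) [Fact p.Prime] {κ : Type} [Fintype κ] [DecidableEq κ]

/-- Forget the coordinate `k`. -/
def res (k : κ) (w : κ → XX p) : {j // j ≠ k} → XX p := fun j => w j.1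

omit [Fintype κ] [DecidableEq κ] in
theorem continuous_res (k : κ) : Continuous (res p k) :=
  continuous_pi fun j => continuous_apply j.1

/-- The coordinate `k` has law `mX` and is independent of the others. -/
def Free (ρ : Measure (κ → XX p)) (k : κ) : Prop :=
  ∀ (B : Set (XX p)) (C : Set ({j // j ≠ k} → XX p)), MeasurableSet B → MeasurableSet C →
    ρ ((fun w => w k) ⁻¹' B ∩ res p k ⁻¹' C) = mX p B * ρ (res p k ⁻¹' C)

variable {p}

/-- The law of the coordinate `k` on the event that the other coordinates lie in `C`. -/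
def freeSlice (ρ : Measure (κ → XX p)) (k : κ) (C : Set ({j // j ≠ k} → XX p)) : Measure (XX p) :=
  (ρ.restrict (res p k ⁻¹' C)).map (fun w => w k)

instance freeSlice_fin (ρ : Measure (κ → XX p)) [IsFiniteMeasure ρ] (k : κ)
    (C : Set ({j // j ≠ k} → XX p)) : IsFiniteMeasure (freeSlice ρ k C) := by
  unfold freeSlice; infer_instance

omit [Fintype κ] [DecidableEq κ] in
theorem free_measurable_res (k : κ) : Measurable (res p k) :=
  measurable_pi_lambda _ fun j => measurable_pi_apply j.1

omit [Fintype κ] [DecidableEq κ] in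
theorem freeSlice_apply (ρ : Measure (κ → XX p)) (k : κ) (C : Set ({j // j ≠ k} → XX p))
    {B : Set (XX p)} (hB : MeasurableSet B) :
    freeSlice ρ k C B = ρ ((fun w => w k) ⁻¹' B ∩ res p k ⁻¹' C) := by
  rw [freeSlice, Measure.map_apply (measurable_pi_apply k) hB,
    Measure.restrict_apply (measurable_pi_apply k hB)]

theorem freeSlice_stab {ρ : Measure (κ → XX p)} {k : κ} {C : Set ({j // j ≠ k} → XX p)}
    (hC : MeasurableSet C) {g : GG p}
    (h : Pi.mulSingle (M := fun _ => GG p) k g ∈ Stab (κ → GG p) ρ) :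
    g ∈ Stab (GG p) (freeSlice ρ k C) := by
  rw [mem_Stab] at h ⊢
  ext B hB
  have hm : MeasurableSet ((fun w : κ → XX p => w k) ⁻¹' B ∩ res p k ⁻¹' C) :=
    (measurable_pi_apply k hB).inter (free_measurable_res k hC)
  rw [Measure.map_apply (measurable_const_smul g) hB,
    freeSlice_apply _ _ _ (measurable_const_smul g hB), freeSlice_apply _ _ _ hB]
  conv_rhs => rw [← h]
  rw [Measure.map_apply (measurable_const_smul _) hm]
  congr 1
  ext w
  have e1 : (Pi.mulSingle (M := fun _ => GG p) k g • w) k = g • w k := by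
    simp [Pi.smul_apply']
  have e2 : res p k (Pi.mulSingle (M := fun _ => GG p) k g • w) = res p k w := by
    funext j
    simp [res, Pi.smul_apply', Pi.mulSingle_eq_of_ne j.2]
  simp only [Set.mem_inter_iff, Set.mem_preimage, e1, e2]

omit [Fintype κ] [DecidableEq κ] in
theorem freeSlice_le {ρ : Measure (κ → XX p)} {k : κ} (hm : ρ.map (fun w => w k) = mX p)
    (C : Set ({j // j ≠ k} → XX p)) : freeSlice ρ k C ≤ mX p := by
  rw [← hm]
  exact Measure.map_mono Measure.restrict_le_self (measurable_pi_apply k)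

omit [Fintype κ] [DecidableEq κ] in
theorem free_of_slice {ρ : Measure (κ → XX p)} {k : κ}
    (h : ∀ C, MeasurableSet C → freeSlice ρ k C = freeSlice ρ k C Set.univ • mX p) :
    Free p ρ k := by
  intro B C hB hC
  rw [← freeSlice_apply ρ k C hB, h C hC, Measure.smul_apply, smul_eq_mul,
    freeSlice_apply ρ k C MeasurableSet.univ, Set.preimage_univ, Set.univ_inter, mul_comm]

theorem free_of_R {ρ : Measure (κ → XX p)} [IsFiniteMeasure ρ] {k : κ}
    (h : ∀ g : SL(2, ℝ), Pi.mulSingle (M := fun _ => GG p) k (g, 1) ∈ Stab (κ → GG p) ρ) :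
    Free p ρ k := by
  exact free_of_slice fun C hC => eq_mX_of_R p _ fun g => freeSlice_stab hC (h g)

theorem free_of_P {ρ : Measure (κ → XX p)} [IsFiniteMeasure ρ] {k : κ}
    (h : ∀ g : SL(2, ℚ_[p]), Pi.mulSingle (M := fun _ => GG p) k (1, g) ∈ Stab (κ → GG p) ρ) :
    Free p ρ k := by
  exact free_of_slice fun C hC => eq_mX_of_P p _ fun g => freeSlice_stab hC (h g)

theorem free_of_hyp {ρ : Measure (κ → XX p)} [IsFiniteMeasure ρ] {k : κ}
    (hm : ρ.map (fun w => w k) = mX p) {g : SL(2, ℝ)} (hg : 2 < |g 0 0 + g 1 1|)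
    (h : Pi.mulSingle (M := fun _ => GG p) k (g, 1) ∈ Stab (κ → GG p) ρ) : Free p ρ k := by
  exact free_of_slice fun C hC => eq_mX_of_R p _ fun g' =>
    mautner_hyp p _ (mprop_Stab (mX p) _ (mX_inv p) (freeSlice_le hm C)) hg
      (freeSlice_stab hC h) g'

theorem free_of_U {ρ : Measure (κ → XX p)} [IsFiniteMeasure ρ] {k : κ}
    (hm : ρ.map (fun w => w k) = mX p)
    (h : ∀ s, Pi.mulSingle (M := fun _ => GG p) k (uP p s) ∈ Stab (κ → GG p) ρ) :
    Free p ρ k := by
  exact free_of_slice fun C hC => eq_mX_of_P p _ fun g =>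
    mautner_U1 p _ (mprop_Stab (mX p) _ (mX_inv p) (freeSlice_le hm C))
      (fun s => freeSlice_stab hC (h s)) g

theorem pi_of_free {ρ : Measure (κ → XX p)} [IsProbabilityMeasure ρ] {k : κ} (h : Free p ρ k)
    (hr : ρ.map (res p k) = mP p {j // j ≠ k}) : ρ = mP p κ := by
  refine (Measure.pi_eq fun s hs => ?_).symm
  have hC : MeasurableSet (Set.pi Set.univ fun j : {j // j ≠ k} => s j.1) :=
    MeasurableSet.univ_pi fun j => hs j.1
  have e : Set.pi Set.univ s = (fun w => w k) ⁻¹' s k ∩
      res p k ⁻¹' (Set.pi Set.univ fun j : {j // j ≠ k} => s j.1) := by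
    ext w
    simp only [Set.mem_pi, Set.mem_univ, true_imp_iff, Set.mem_inter_iff, Set.mem_preimage, res]
    refine ⟨fun hw => ⟨hw k, fun j => hw j.1⟩, fun hw j => ?_⟩
    by_cases hj : j = k
    · rw [hj]; exact hw.1
    · exact hw.2 ⟨j, hj⟩
  rw [e, h _ _ (hs k) hC, ← Measure.map_apply (free_measurable_res k) hC, hr, mP,
    Measure.pi_pi, Fintype.prod_eq_mul_prod_subtype_ne (fun j => mX p (s j)) k]

theorem eq_of_all_free {ρ : Measure (κ → XX p)} [IsFiniteMeasure ρ] (h : ∀ k, Free p ρ k) :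
    ρ = ρ Set.univ • mP p κ := by
  have key : ∀ s : κ → Set (XX p), (∀ j, MeasurableSet (s j)) → ∀ T : Finset κ,
      ρ (Set.pi (T : Set κ) s) = (∏ j ∈ T, mX p (s j)) * ρ Set.univ := by
    intro s hs T
    induction T using Finset.induction_on with
    | empty => simp
    | insert k T hk ih =>
      have hC : MeasurableSet
          (Set.pi {j : {j // j ≠ k} | j.1 ∈ T} fun j : {j // j ≠ k} => s j.1) :=
        MeasurableSet.pi (Set.to_countable _) fun j _ => hs j.1
      have e1 : res p k ⁻¹' (Set.pi {j : {j // j ≠ k} | j.1 ∈ T} fun j : {j // j ≠ k} => s j.1) =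
          Set.pi (T : Set κ) s := by
        ext w
        simp only [Set.mem_pi, Set.mem_preimage, res, Set.mem_ofPred_eq, Finset.mem_coe]
        exact ⟨fun hw j hj => hw ⟨j, fun e => hk (e ▸ hj)⟩ hj, fun hw j hj => hw j.1 hj⟩
      have e2 : Set.pi ((insert k T : Finset κ) : Set κ) s =
          (fun w => w k) ⁻¹' s k ∩ Set.pi (T : Set κ) s := by
        rw [Finset.coe_insert, Set.insert_pi]
      have := h k _ _ (hs k) hC
      rw [e1] at this
      rw [e2, this, ih, Finset.prod_insert hk, mul_assoc]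
  refine ext_of_generate_finite _ generateFrom_pi.symm isPiSystem_pi ?_ (by simp)
  rintro _ ⟨s, hs, rfl⟩
  have hs' : ∀ j, MeasurableSet (s j) := fun j => hs j (Set.mem_univ j)
  have := key s hs' Finset.univ
  rw [Finset.coe_univ] at this
  rw [this, Measure.smul_apply, smul_eq_mul, mP, Measure.pi_pi, mul_comm]

variable (p)

omit [DecidableEq κ] in
theorem mP_inv (g : κ → GG p) : (mP p κ).map (fun w => g • w) = mP p κ := by
  exact (measurePreserving_pi (fun _ : κ => mX p) (fun _ : κ => mX p)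
    (f := fun k x => g k • x) fun k => ⟨measurable_const_smul _, mX_inv p (g k)⟩).map_eq

theorem erg_mP (d : κ → ℚ_[p]) (hd : ∀ k, d k ≠ 0) : Erg (ufl p d) (mP p κ) := by
  refine erg_of_ext _ (fun s => mP_inv p fun k => uP p (d k * s)) fun μ hμ hi => ?_
  have : IsFiniteMeasure μ := isFiniteMeasure_of_le _ hμ
  exact eq_of_all_free fun k => free_of_P fun g =>
    mautner_U p _ (mprop_Stab (mP p κ) μ (mP_inv p) hμ) d hd (fun s => hi s) k g

theorem erg_mX : Erg (ufl1 p) (mX p) := by
  refine erg_of_ext _ (fun s => mX_inv p (uP p s)) fun μ hμ hi => ?_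
  have : IsFiniteMeasure μ := isFiniteMeasure_of_le _ hμ
  exact eq_mX_of_P p μ fun g =>
    mautner_U1 p _ (mprop_Stab (mX p) μ (mX_inv p) hμ) (fun s => hi s) g

end Pool.Agent.EQ
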