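import Pool.Agent.P.MP_ad7a55_nt.Hecke
import Pool.Agent.P.MP_ad7a55_nt.Fac
import Pool.Agent.P.MP_ad7a55_nt.Aut2

/-! Galois conjugates of CM lattices. -/

set_option autoImplicit false

noncomputable section

open MeasureTheory Topology Filter UpperHalfPlane
open scoped MatrixGroups ENNReal BoundedContinuousFunction

namespace Pool.Agent.EQ

theorem galA_th_im {D : ℤ} (hD : D < 0) : (th D).im ≠ 0 := by
  have h1 : (0 : ℝ) < -(D : ℝ) := by
    have : (D : ℝ) < 0 := by exact_mod_cast hD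
    linarith
  have h2 := Real.sqrt_pos.2 h1
  simp only [th, Complex.mul_im, Complex.I_re, Complex.I_im, Complex.ofReal_re, Complex.ofReal_im]
  linarith

theorem galA_th_re (D : ℤ) : (th D).re = 0 := by
  simp [th]

theorem galA_th_im_sq {D : ℤ} (hD : D < 0) : (th D).im ^ 2 = -(D : ℝ) := by
  have h1 : (0 : ℝ) ≤ -(D : ℝ) := by
    have : (D : ℝ) < 0 := by exact_mod_cast hD
    linarith
  have h2 := Real.sq_sqrt h1
  simp only [th, Complex.mul_im, Complex.I_re, Complex.I_im, Complex.ofReal_re, Complex.ofReal_im]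
  linarith

theorem galA_om_mem (D : ℤ) : ((D : ℂ) + th D) / 2 ∈ OD D :=
  mem_sp.2 ⟨0, 1, by simp⟩

theorem galA_int_mem (D n : ℤ) : (n : ℂ) ∈ OD D :=
  mem_sp.2 ⟨n, 0, by simp⟩

theorem galA_conj_mem {D : ℤ} {x : ℂ} (hx : x ∈ OD D) : starRingEnd ℂ x ∈ OD D := by
  rw [← cj_OD D] at hx
  exact mem_cj.1 hx

theorem DiscL.galA_unique {Λ : Lt} {D D' : ℤ} (h : DiscL Λ D) (h' : DiscL Λ D') : D = D' := by
  refine OD_inj h.isD.1 h'.isD.1 ?_
  ext x
  rw [← h.end_iff, ← h'.end_iff]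

/-- An element of the order is transported up to a twelfth root of unity. -/
theorem galA_transport (σ : ℂ ≃+* ℂ) {Λ M : Lt} {D : ℤ} (h : DiscL Λ D) (hM : IsLat M)
    (hj : jL M = σ (jL Λ)) {α : ℂ} (hα : α ∈ OD D) (h0 : α ≠ 0) :
    ∃ β : ℂ, β ^ 12 = σ α ^ 12 ∧ pr β * M ≤ M := by
  have hD := h.isD.1
  obtain ⟨m, n, hmn⟩ := mem_sp.1 hα
  have hth := th_sq hD.le
  have hN : ((((2 * m + n * D) ^ 2 - n ^ 2 * D : ℤ)) : ℂ) = α * (4 * starRingEnd ℂ α) := by
    have hc : starRingEnd ℂ α = m * 1 + n * ((D - th D) / 2) := by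
      rw [hmn]
      simp only [map_add, map_mul, map_div₀, map_intCast, map_one, map_ofNat, conj_th]
      ring
    rw [hc, hmn]
    push_cast
    linear_combination (n : ℂ) ^ 2 * hth
  have hN0 : 0 ≤ (2 * m + n * D) ^ 2 - n ^ 2 * D := by
    nlinarith [sq_nonneg (2 * m + n * D), sq_nonneg n]
  obtain ⟨N, hN1⟩ := Int.eq_ofNat_of_zero_le hN0
  rw [hN1] at hN
  have hNc : (N : ℂ) = α * (4 * starRingEnd ℂ α) := by exact_mod_cast hN
  have hNpos : 0 < N := by
    rcases Nat.eq_zero_or_pos N with h1 | h1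
    · exfalso
      rw [h1] at hNc
      have h2 : starRingEnd ℂ α ≠ 0 := by simpa using h0
      exact mul_ne_zero h0 (mul_ne_zero (by norm_num : (4 : ℂ) ≠ 0) h2)
        (by rw [← hNc, Nat.cast_zero])
    · exact h1
  have h4 : (4 * starRingEnd ℂ α) ∈ OD D := by
    have := (OD D).smul_mem (4 : ℤ) (galA_conj_mem hα)
    simpa using this
  have h1 : pr N * Λ ≤ pr α * Λ := by
    rw [hNc, ← pr_mul_pr, mul_assoc, pr_mul_le_iff h0]
    exact (h.end_iff _).2 h4
  obtain ⟨k, -, hk⟩ := exists_ch h.isLat hNpos h1 ((h.end_iff α).2 hα)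
  exact end_gal σ h.isLat hM hj hk h0

theorem galA_card_roots : (Polynomial.nthRootsFinset 12 (1 : ℂ)).card ≤ 12 :=
  (Multiset.toFinset_card_le _).trans (Polynomial.card_nthRoots 12 (1 : ℂ))

theorem galA_sub {a b : ℂ} {M : Lt} (ha : pr a * M ≤ M) (hb : pr b * M ≤ M) :
    pr (a - b) * M ≤ M := by
  rw [pr_mul_le] at ha hb ⊢
  intro w hw
  rw [sub_mul]
  exact M.sub_mem (ha w hw) (hb w hw)

/-- The main step. -/
theorem galA_key (σ : ℂ ≃+* ℂ) {Λ M : Lt} {D : ℤ} (h : DiscL Λ D) (hM : IsLat M)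
    (hj : jL M = σ (jL Λ)) :
    ∃ D', DiscL M D' ∧ -(D' : ℝ) ≤ 4 * (12 + ‖((D : ℂ) + th D) / 2‖) ^ 2 ∧
      (D' < -576 → OD D ≤ OD D') := by
  have hD := h.isD.1
  set ω : ℂ := ((D : ℂ) + th D) / 2 with hω
  have hωim : ω.im ≠ 0 := by
    have := galA_th_im hD
    simp only [hω, Complex.div_ofNat_im, Complex.add_im, Complex.intCast_im, zero_add]
    exact div_ne_zero this two_ne_zero
  have hσω : σ ω = ω ∨ σ ω = starRingEnd ℂ ω := by
    rcases aut_th σ hD.le with h1 | h1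
    · left
      simp only [hω, map_div₀, map_add, map_intCast, map_ofNat, h1]
    · right
      simp only [hω, map_div₀, map_add, map_intCast, map_ofNat, h1, conj_th]
  have hsim : (σ ω).im ≠ 0 := by
    rcases hσω with h1 | h1 <;> rw [h1]
    · exact hωim
    · simpa using hωim
  have hsn : ‖σ ω‖ = ‖ω‖ := by
    rcases hσω with h1 | h1 <;> rw [h1]
    exact Complex.norm_conj ω
  have hne : ∀ (n : ℕ) (x : ℂ), x.im ≠ 0 → (n : ℂ) + x ≠ 0 := by
    intro n x hx h1
    apply hx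
    have := congrArg Complex.im h1
    simpa using this
  have hex : ∀ n : ℕ, ∃ ζ : ℂ, ζ ^ 12 = 1 ∧ pr (ζ * (n + σ ω)) * M ≤ M := by
    intro n
    have hmem : (n : ℂ) + ω ∈ OD D :=
      (OD D).add_mem (by simpa using galA_int_mem D n) (galA_om_mem D)
    obtain ⟨β, hβ, hβ'⟩ := galA_transport σ h hM hj hmem (hne n ω hωim)
    have h2 : σ (n + ω) = n + σ ω := by simp
    rw [h2] at hβ
    have h3 := hne n _ hsim
    refine ⟨β / (n + σ ω), ?_, ?_⟩
    · rw [div_pow, hβ, div_self (pow_ne_zero _ h3)]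
    · rw [div_mul_cancel₀ _ h3]; exact hβ'
  choose z hz1 hz2 using hex
  obtain ⟨n, hn, n', hn', hnn, hzz⟩ :=
    Finset.exists_ne_map_eq_of_card_lt_of_maps_to (s := Finset.range 13)
      (t := Polynomial.nthRootsFinset 12 (1 : ℂ)) (f := z)
      (by rw [Finset.card_range]; exact lt_of_le_of_lt galA_card_roots (by norm_num))
      (fun n _ => by
        simpa using (Polynomial.mem_nthRootsFinset (by norm_num : 0 < 12) (1 : ℂ)).2 (hz1 n))
  have hn12 : n ≤ 12 := by have := Finset.mem_range.1 hn; omega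
  have hn12' : n' ≤ 12 := by have := Finset.mem_range.1 hn'; omega
  set ζ := z n with hζ
  have hζ1 : ζ ^ 12 = 1 := hz1 n
  have hζn : ‖ζ‖ = 1 := by
    have := congrArg norm hζ1
    rw [norm_pow, norm_one] at this
    exact (pow_eq_one_iff_of_nonneg (norm_nonneg _) (by norm_num)).1 this
  have ha : pr (ζ * (n + σ ω)) * M ≤ M := hz2 n
  have hb : pr (ζ * (n' + σ ω)) * M ≤ M := by rw [hzz]; exact hz2 n'
  have hnr : ((n : ℝ) - n') ≠ 0 := by
    rw [sub_ne_zero]; exact_mod_cast hnn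
  -- one of the two is not real
  have hnon : ∃ k : ℕ, k ≤ 12 ∧ pr (ζ * (k + σ ω)) * M ≤ M ∧ (ζ * (k + σ ω)).im ≠ 0 := by
    by_contra hcon
    push Not at hcon
    have e1 := hcon n hn12 ha
    have e2 := hcon n' hn12' hb
    simp only [Complex.mul_im, Complex.add_im, Complex.add_re, Complex.natCast_im,
      Complex.natCast_re, zero_add] at e1 e2
    have e3 : ζ.im = 0 := by
      have : ζ.im * ((n : ℝ) - n') = 0 := by linear_combination e1 - e2
      exact (mul_eq_zero.1 this).resolve_right hnr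
    rw [e3, zero_mul, add_zero] at e1
    have e4 : ζ.re = 0 := (mul_eq_zero.1 e1).resolve_right hsim
    have e5 : ζ = 0 := Complex.ext e4 e3
    rw [e5] at hζn
    simp at hζn
  obtain ⟨k, hk, hk1, hk2⟩ := hnon
  obtain ⟨D', hD'⟩ := exists_discL hM hk2 hk1
  have hD'0 := hD'.isD.1
  refine ⟨D', hD', ?_, ?_⟩
  · have h1 := abs_le_of_mem_OD hD'0 ((hD'.end_iff _).1 hk1) hk2
    have h2 : |(ζ * (k + σ ω)).im| ≤ 12 + ‖ω‖ := by
      refine (Complex.abs_im_le_norm _).trans ?_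
      rw [norm_mul, hζn, one_mul, ← hsn]
      refine (norm_add_le _ _).trans ?_
      have : ‖(k : ℂ)‖ ≤ 12 := by
        rw [Complex.norm_natCast]; exact_mod_cast hk
      linarith
    have h3 : (ζ * (k + σ ω)).im ^ 2 ≤ (12 + ‖ω‖) ^ 2 := by
      rw [← sq_abs]
      exact pow_le_pow_left₀ (abs_nonneg _) h2 2
    linarith
  · intro hlt
    have hc := (hD'.end_iff _).1 (galA_sub ha hb)
    have hc2 : ζ * (n + σ ω) - ζ * (n' + σ ω) = (((n : ℝ) - n' : ℝ) : ℂ) * ζ := by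
      push_cast; ring
    rw [hc2] at hc
    have him : ζ.im = 0 := by
      by_contra hcon
      have h1 : ((((n : ℝ) - n' : ℝ) : ℂ) * ζ).im = ((n : ℝ) - n') * ζ.im := by
        rw [Complex.mul_im, Complex.ofReal_re, Complex.ofReal_im, zero_mul, add_zero]
      have h2 := abs_le_of_mem_OD hD'0 hc (by rw [h1]; exact mul_ne_zero hnr hcon)
      rw [h1] at h2
      have h3 : ζ.im ^ 2 ≤ 1 := by
        rw [← sq_abs]
        exact pow_le_one₀ (abs_nonneg _) ((Complex.abs_im_le_norm _).trans hζn.le)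
      have h4 : ((n : ℝ) - n') ^ 2 ≤ 144 := by
        have a1 : (n : ℝ) ≤ 12 := by exact_mod_cast hn12
        have a2 : (n' : ℝ) ≤ 12 := by exact_mod_cast hn12'
        have a3 : (0 : ℝ) ≤ n := Nat.cast_nonneg n
        have a4 : (0 : ℝ) ≤ n' := Nat.cast_nonneg n'
        nlinarith
      have h5 : (D' : ℝ) < -576 := by exact_mod_cast hlt
      have h6 : (((n : ℝ) - n') * ζ.im) ^ 2 ≤ 144 := by
        rw [mul_pow]
        calc ((n : ℝ) - n') ^ 2 * ζ.im ^ 2 ≤ 144 * 1 :=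
              mul_le_mul h4 h3 (sq_nonneg _) (by norm_num)
          _ = 144 := by norm_num
      linarith
    have hζr : ζ = 1 ∨ ζ = -1 := by
      have h1 : ζ = (ζ.re : ℂ) := Complex.ext rfl (by simpa using him)
      have h2 : |ζ.re| = 1 := by
        rw [← hζn]
        conv_rhs => rw [h1]
        simp
      rcases (abs_eq zero_le_one).1 h2 with h3 | h3
      · left; rw [h1, h3]; simp
      · right; rw [h1, h3]; simp
    have hmem : (n : ℂ) + σ ω ∈ OD D' := by
      have h1 := (hD'.end_iff _).1 ha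
      rcases hζr with h2 | h2 <;> rw [h2] at h1
      · simpa using h1
      · have := (OD D').neg_mem h1
        simpa using this
    have hs : σ ω ∈ OD D' := by
      have := (OD D').sub_mem hmem (show (n : ℂ) ∈ OD D' by simpa using galA_int_mem D' n)
      simpa using this
    have hw : ω ∈ OD D' := by
      rcases hσω with h1 | h1 <;> rw [h1] at hs
      · exact hs
      · simpa using galA_conj_mem hs
    intro x hx
    obtain ⟨a, b, rfl⟩ := mem_sp.1 hx
    refine (OD D').add_mem (by simpa using galA_int_mem D' a) ?_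
    simpa using (OD D').smul_mem b hw

theorem disc_gal_bound (D : ℤ) : ∃ B : ℤ, ∀ (σ : ℂ ≃+* ℂ) (Λ M : Lt), DiscL Λ D → IsLat M →
    jL M = σ (jL Λ) → ∃ D', DiscL M D' ∧ -B ≤ D' := by
  refine ⟨⌈4 * (12 + ‖((D : ℂ) + th D) / 2‖) ^ 2⌉, fun σ Λ M h hM hj => ?_⟩
  obtain ⟨D', h1, h2, -⟩ := galA_key σ h hM hj
  refine ⟨D', h1, ?_⟩
  have h3 : ((-D' : ℤ) : ℝ) ≤ (⌈4 * (12 + ‖((D : ℂ) + th D) / 2‖) ^ 2⌉ : ℤ) := by
    push_cast
    exact h2.trans (Int.le_ceil _)
  have h4 : -D' ≤ ⌈4 * (12 + ‖((D : ℂ) + th D) / 2‖) ^ 2⌉ := by exact_mod_cast h3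
  omega

theorem finite_orbit {Λ : Lt} {D : ℤ} (h : DiscL Λ D) :
    {y | ∃ σ : ℂ ≃+* ℂ, σ (jL Λ) = y}.Finite := by
  obtain ⟨B, hB⟩ := disc_gal_bound D
  refine ((Set.finite_Icc (-B) 0).biUnion fun D' _ => finite_disc D').subset ?_
  rintro y ⟨σ, rfl⟩
  obtain ⟨M, hM, hj⟩ := jL_surj (σ (jL Λ))
  obtain ⟨D', h1, h2⟩ := hB σ Λ M h hM hj
  exact Set.mem_biUnion (x := D') ⟨h2, h1.isD.1.le⟩ ⟨M, h1, hj⟩

theorem DiscL.algebraic {Λ : Lt} {D : ℤ} (h : DiscL Λ D) : IsAlgebraic ℚ (jL Λ) :=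
  algebraic_of_finite_orbit (finite_orbit h)

/-- The discriminant is Galois invariant. -/
theorem disc_gal (σ : ℂ ≃+* ℂ) {Λ M : Lt} {D : ℤ} (hD : D < -576) (h : DiscL Λ D) (hM : IsLat M)
    (hj : jL M = σ (jL Λ)) : DiscL M D := by
  obtain ⟨D', h1, -, h2⟩ := galA_key σ h hM hj
  have hj' : jL Λ = σ.symm (jL M) := by rw [hj]; simp
  obtain ⟨D'', h3, -, h4⟩ := galA_key σ.symm h1 h.isLat hj'
  obtain rfl := h.galA_unique h3
  have h5 := h4 hD
  have hD0 := h.isD.1
  have hD' := h1.isD.1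
  have him : (((D' : ℂ) + th D') / 2).im = (th D').im / 2 := by
    simp only [Complex.div_ofNat_im, Complex.add_im, Complex.intCast_im, zero_add]
  have h6 := abs_le_of_mem_OD hD0 (h5 (galA_om_mem D'))
    (by rw [him]; exact div_ne_zero (galA_th_im hD') two_ne_zero)
  rw [him, div_pow, galA_th_im_sq hD'] at h6
  have h7 : (D' : ℝ) ≤ D := by linarith
  have h8 : D' ≤ D := by exact_mod_cast h7
  have h9 := OD_inj hD0 hD' (le_antisymm (h2 (lt_of_le_of_lt h8 hD)) h5)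
  rw [h9]
  exact h1

end Pool.Agent.EQ
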