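import Pool.Agent.P.MP_ad7a55_nt.GalA

/-! Galois conjugates of CM lattices. -/

set_option autoImplicit false

noncomputable section

open MeasureTheory Topology Filter UpperHalfPlane
open scoped MatrixGroups ENNReal BoundedContinuousFunction

namespace Pool.Agent.EQ

open Classical in
/-- The module `𝔞` or its conjugate, according to the action of `σ` on `√D`. -/
def tw (σ : ℂ ≃+* ℂ) (D : ℤ) (𝔞 : Lt) : Lt := if σ (th D) = th D then 𝔞 else cj 𝔞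

theorem galA2_mul_mem {D : ℤ} (hD : IsD D) {x y : ℂ} (hx : x ∈ OD D) (hy : y ∈ OD D) :
    x * y ∈ OD D :=
  pr_mul_le.1 (((discL_OD hD).end_iff x).2 hx) y hy

theorem galA2_disc_uniq {Λ : Lt} {D D' : ℤ} (h : DiscL Λ D) (h' : DiscL Λ D') : D = D' :=
  OD_inj h.isD.1 h'.isD.1 (Submodule.ext fun x => (h.end_iff x).symm.trans (h'.end_iff x))

theorem galA2_tw_mul (σ : ℂ ≃+* ℂ) (D : ℤ) (𝔞 𝔟 : Lt) :
    tw σ D (𝔞 * 𝔟) = tw σ D 𝔞 * tw σ D 𝔟 := by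
  unfold tw
  split_ifs
  · rfl
  · exact cj_mul _ _

theorem galA2_tw_pow (σ : ℂ ≃+* ℂ) (D : ℤ) (𝔞 : Lt) (n : ℕ) :
    tw σ D (𝔞 ^ (n + 1)) = tw σ D 𝔞 ^ (n + 1) := by
  induction n with
  | zero => rw [zero_add, pow_one, pow_one]
  | succ n ih => rw [pow_succ, galA2_tw_mul, ih, ← pow_succ]

theorem galA2_tw_OD (σ : ℂ ≃+* ℂ) (D : ℤ) : tw σ D (OD D) = OD D := by
  unfold tw
  split_ifs
  · rfl
  · exact cj_OD D

theorem galA2_tw_pr (σ : ℂ ≃+* ℂ) (D : ℤ) {c : ℂ} (hc : c ≠ 0) :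
    ∃ c' : ℂ, c' ≠ 0 ∧ tw σ D (pr c) = pr c' := by
  unfold tw
  split_ifs
  · exact ⟨c, hc, rfl⟩
  · exact ⟨_, (map_ne_zero _).2 hc, cj_pr c⟩

theorem galA2_tw_discL (σ : ℂ ≃+* ℂ) {D : ℤ} {𝔞 : Lt} (h : DiscL 𝔞 D) : DiscL (tw σ D 𝔞) D := by
  unfold tw
  split_ifs
  · exact h
  · exact h.cj

theorem galA2_tw_prI (σ : ℂ ≃+* ℂ) {D : ℤ} {q : ℕ} {𝔮 : Lt} (h : PrI D q 𝔮) :
    PrI D q (tw σ D 𝔮) := by
  unfold tw
  split_ifs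
  · exact h
  · exact h.cj

theorem galA2_tw_mem (σ : ℂ ≃+* ℂ) {D : ℤ} (hD : D ≤ 0) {α : ℂ} (h : α ∈ OD D) :
    tw σ D (pr α) = pr (σ α) ∧ σ α ∈ OD D := by
  have h' := h
  obtain ⟨m, n, rfl⟩ := mem_sp.1 h'
  unfold tw
  split_ifs with h1
  · have e : σ ((m : ℂ) * 1 + n * ((D + th D) / 2)) = (m : ℂ) * 1 + n * ((D + th D) / 2) := by
      simp only [map_add, map_mul, map_intCast, map_one, map_div₀, map_ofNat, h1]
    rw [e]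
    exact ⟨rfl, h⟩
  · have h2 := (aut_th σ hD).resolve_left h1
    have e : σ ((m : ℂ) * 1 + n * ((D + th D) / 2)) =
        starRingEnd ℂ ((m : ℂ) * 1 + n * ((D + th D) / 2)) := by
      simp only [map_add, map_mul, map_intCast, map_one, map_div₀, map_ofNat, h2, conj_th]
    rw [e]
    refine ⟨cj_pr _, ?_⟩
    rw [← mem_cj, cj_OD]
    exact h

theorem comm_prime (σ : ℂ ≃+* ℂ) {D : ℤ} (hD : D < -576) {q : ℕ} {𝔮 Λ M : Lt} (h𝔮 : PrI D q 𝔮)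
    (h : DiscL Λ D) (hM : IsLat M) (hj : jL M = σ (jL Λ)) :
    jL (tw σ D 𝔮 * M) = σ (jL (𝔮 * Λ)) := by
  have hD0 : D < 0 := by omega
  have hq := h𝔮.1
  have hO := discL_OD h.isD
  have hMD := disc_gal σ hD h hM hj
  have h𝔮D := h𝔮.discL hD0
  obtain ⟨n, α, hα, hpow⟩ := h𝔮D.pow_principal
  have hqΛ : DiscL (𝔮 * Λ) D := h𝔮D.mul h le_rfl
  have hch := (h𝔮.ch hqΛ n).1
  have e1 : 𝔮 ^ n * (𝔮 * Λ) = pr α * Λ := by
    rw [← mul_assoc, ← pow_succ, hpow, mul_assoc, h.OD_mul]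
  rw [e1] at hch
  obtain ⟨M1, hM1, hj1, hd1⟩ := hecke_gal σ hq h.isLat hM hj (h𝔮.nb h)
  have hM1L := hM1.isLat hq hM
  obtain ⟨M', hM', hj', hd'⟩ := ch_gal σ hch hqΛ.isLat hM1L hj1
  obtain ⟨-, hM'L, hle', -⟩ := hM'.spec hM1L
  obtain ⟨-, -, -, hle2⟩ := (Ch.step hq hM1 hM').spec hM
  rw [jL_pr_mul h.isLat hα, ← hj] at hj'
  obtain ⟨β, hβ, rfl⟩ := jL_inj hM hM'L hj'.symm
  have hαO : α ∈ OD D := by
    have h1 : 𝔮 ^ (n + 1) ≤ OD D := by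
      have h2 := h𝔮.pow_sup hD0 n
      exact (le_sup_left.trans h2.le).trans h𝔮.le
    rw [hpow] at h1
    exact (hO.end_iff α).1 h1
  obtain ⟨htw, hσα⟩ := galA2_tw_mem σ hD0.le hαO
  have h12 : (σ α / β) ^ 12 = 1 := by
    have a1 := dL_ne_zero hM
    have a2 := dL_ne_zero hM1L
    have a3 := dL_ne_zero h.isLat
    have a4 := dL_ne_zero hqΛ.isLat
    have e2 : dL (pr β * M) / dL M1 * (dL M1 / dL M) =
        σ (dL (pr α * Λ) / dL (𝔮 * Λ) * (dL (𝔮 * Λ) / dL Λ)) := by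
      rw [map_mul, hd', hd1]
    rw [dL_pr_mul hM hβ, dL_pr_mul h.isLat hα] at e2
    have e3 : dL M / β ^ 12 / dL M1 * (dL M1 / dL M) = (β ^ 12)⁻¹ := by field_simp
    have e4 : dL Λ / α ^ 12 / dL (𝔮 * Λ) * (dL (𝔮 * Λ) / dL Λ) = (α ^ 12)⁻¹ := by field_simp
    rw [e3, e4, map_inv₀, map_pow, inv_inj] at e2
    rw [div_pow, ← e2, div_self (pow_ne_zero _ hβ)]
  have hq0 : ((q * q ^ n : ℕ) : ℤ) ≠ 0 := by
    exact_mod_cast (mul_pos hq.pos (pow_pos hq.pos n)).ne'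
  have hmem1 : (((q * q ^ n : ℕ) : ℤ) : ℂ) * (σ α / β) ∈ OD D := by
    have h1 : pr (((q * q ^ n : ℕ) : ℂ) / β) * M ≤ M := by
      rw [← pr_mul_le_iff hβ, ← mul_assoc, pr_mul_pr, mul_div_cancel₀ _ hβ]
      exact hle2
    have h2 := galA2_mul_mem h.isD ((hMD.end_iff _).1 h1) hσα
    convert h2 using 1
    rw [Int.cast_natCast]
    ring
  have hmem2 := root_mem hD0 h12 hq0 hmem1
  have hmem : σ α / β ∈ OD D := by
    have hc : IsCoprime ((q * q ^ n : ℕ) : ℤ) (2 * D) := by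
      rw [← pow_succ', Nat.cast_pow]
      exact ((Nat.prime_iff_prime_int.1 hq).coprime_iff_not_dvd.2 h𝔮.2.1).pow_left
    obtain ⟨u, v, huv⟩ := hc
    have h1 := (OD D).add_mem ((OD D).smul_mem u hmem1) ((OD D).smul_mem v hmem2)
    convert h1 using 1
    have h2 := congrArg (Int.cast : ℤ → ℂ) huv
    simp only [Int.cast_add, Int.cast_mul, Int.cast_one, Int.cast_ofNat] at h2
    simp only [zsmul_eq_mul]
    linear_combination (-(σ α / β)) * h2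
  have hle3 : pr (σ α) * M ≤ M1 := by
    have h1 : pr (σ α) * M = pr β * (pr (σ α / β) * M) := by
      rw [← mul_assoc, pr_mul_pr, mul_div_cancel₀ _ hβ]
    rw [h1]
    exact ((pr_mul_le_iff hβ).2 ((hMD.end_iff _).2 hmem)).trans hle'
  have h𝔮' := galA2_tw_prI σ h𝔮
  have hle4 : tw σ D 𝔮 * M ≤ M1 := by
    rw [← h𝔮'.pow_sup hD0 n, Submodule.sup_mul, ← galA2_tw_pow, hpow, galA2_tw_mul, htw,
      galA2_tw_OD, mul_assoc, mul_assoc, hMD.OD_mul]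
    exact sup_le hle3 hM1.1.le
  rw [Nb.eq_of_le hq hM (h𝔮'.nb hMD) hM1 hle4, hj1]

theorem comm_gal (σ : ℂ ≃+* ℂ) {D : ℤ} (hD : D < -576) {𝔞 Λ M : Lt} (h𝔞 : DiscL 𝔞 D)
    (h : DiscL Λ D) (hM : IsLat M) (hj : jL M = σ (jL Λ)) :
    jL (tw σ D 𝔞 * M) = σ (jL (𝔞 * Λ)) := by
  have hMD := disc_gal σ hD h hM hj
  refine fac (N := 1) one_pos (fun 𝔞 => jL (tw σ D 𝔞 * M) = σ (jL (𝔞 * Λ))) ?_ ?_ ?_ h𝔞
  · rw [galA2_tw_OD, hMD.OD_mul, h.OD_mul, hj]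
  · intro 𝔞 c hc h1 h2
    obtain ⟨c', hc', e⟩ := galA2_tw_pr σ D hc
    rw [galA2_tw_mul, e, mul_assoc, mul_assoc,
      jL_pr_mul ((galA2_tw_discL σ h1).mul hMD le_rfl).isLat hc',
      jL_pr_mul (h1.mul h le_rfl).isLat hc, h2]
  · intro 𝔞 q 𝔮 h𝔮 _ h1 h2
    rw [galA2_tw_mul, mul_assoc, mul_assoc]
    exact comm_prime σ hD h𝔮 (h1.mul h le_rfl) ((galA2_tw_discL σ h1).mul hMD le_rfl).isLat h2

/-- `σ` acts on the lattices of discriminant `D` as multiplication by `𝔨`. -/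
def Acts (σ : ℂ ≃+* ℂ) (D : ℤ) (𝔨 : Lt) : Prop := ∀ Λ, DiscL Λ D → σ (jL Λ) = jL (𝔨 * Λ)

theorem acts_of_OD {σ : ℂ ≃+* ℂ} {D : ℤ} (hD : D < -576) (hσ : σ (th D) = th D) {𝔨 : Lt}
    (h𝔨 : DiscL 𝔨 D) (h : σ (jL (OD D)) = jL 𝔨) : Acts σ D 𝔨 := by
  intro Λ hΛ
  have h1 := comm_gal σ hD hΛ (discL_OD h𝔨.isD) h𝔨.isLat h.symm
  rw [tw, if_pos hσ, mul_comm Λ (OD D), hΛ.OD_mul, mul_comm] at h1
  exact h1.symm

theorem exists_acts {σ : ℂ ≃+* ℂ} {D : ℤ} (hD : D < -576) (hD' : IsD D) (hσ : σ (th D) = th D) :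
    ∃ 𝔨, DiscL 𝔨 D ∧ Acts σ D 𝔨 := by
  obtain ⟨𝔨, h1, h2⟩ := jL_surj (σ (jL (OD D)))
  have h3 := disc_gal σ hD (discL_OD hD') h1 h2
  exact ⟨𝔨, h3, acts_of_OD hD hσ h3 h2.symm⟩

theorem exists_anti {σ : ℂ ≃+* ℂ} {D : ℤ} (hD : D < -576) (hD' : IsD D) (hσ : σ (th D) = -th D) :
    ∃ 𝔪, DiscL 𝔪 D ∧ ∀ Λ, DiscL Λ D → σ (jL Λ) = jL (𝔪 * cj Λ) := by
  obtain ⟨𝔪, h1, h2⟩ := jL_surj (σ (jL (OD D)))
  have h3 := disc_gal σ hD (discL_OD hD') h1 h2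
  refine ⟨𝔪, h3, fun Λ hΛ => ?_⟩
  have hne : ¬ σ (th D) = th D := by
    rw [hσ]
    intro h4
    have h5 : th D = 0 := by linear_combination (-1 / 2 : ℂ) * h4
    have h6 := th_sq hD'.1.le
    rw [h5, zero_pow two_ne_zero] at h6
    exact hD'.1.ne (by exact_mod_cast h6.symm)
  have h4 := comm_gal σ hD hΛ (discL_OD hD') h1 h2
  rw [tw, if_neg hne, mul_comm Λ (OD D), hΛ.OD_mul, mul_comm] at h4
  exact h4.symm

theorem galA2_isD {D : ℤ} (hD : IsD D) {g : ℕ} (hg : 0 < g) : IsD (g ^ 2 * D) := by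
  refine ⟨mul_neg_of_pos_of_neg (by positivity) hD.1, ?_⟩
  have h1 : (g : ℤ) ^ 2 % 4 = 0 ∨ (g : ℤ) ^ 2 % 4 = 1 := by
    have h2 : (g : ℤ) % 4 = 0 ∨ (g : ℤ) % 4 = 1 ∨ (g : ℤ) % 4 = 2 ∨ (g : ℤ) % 4 = 3 := by omega
    rcases h2 with h | h | h | h <;> simp [pow_two, Int.mul_emod, h]
  rcases h1 with h | h <;> rcases hD.2 with h' | h' <;> simp [Int.mul_emod, h, h']

theorem galA2_step {σ : ℂ ≃+* ℂ} {D : ℤ} (hD : D < -576) (hD' : IsD D) (hσ : σ (th D) = th D)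
    {l : ℕ} (hl : l.Prime) {𝔨 : Lt} (h𝔨 : DiscL 𝔨 (l ^ 2 * D)) (h : Acts σ (l ^ 2 * D) 𝔨) :
    DiscL (𝔨 * OD D) D ∧ Acts σ D (𝔨 * OD D) := by
  have hO := discL_OD hD'
  have hO2 := discL_OD h𝔨.isD
  have hl0 : (l : ℂ) ≠ 0 := Nat.cast_ne_zero.2 hl.ne_zero
  have hne : (l : ℤ) ^ 2 * D ≠ D := by
    have h2 : (2 : ℤ) ≤ l := by exact_mod_cast hl.two_le
    have h3 : (4 : ℤ) ≤ (l : ℤ) ^ 2 := by nlinarith
    nlinarith [hD'.1]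
  have hle := OD_sq_le hD' l
  have hk : DiscL (𝔨 * OD D) D := h𝔨.mul hO hle
  refine ⟨hk, acts_of_OD hD hσ hk ?_⟩
  have hnb : Nb l (OD (l ^ 2 * D)) (pr l * OD D) := by
    refine ⟨lt_of_le_of_ne ((pr_mul_le_iff hl0).2 hle) fun e => hne ?_,
      lt_of_le_of_ne ?_ fun e => hne ?_⟩
    · exact galA2_disc_uniq (hO2.pr_mul hl0) (e ▸ hO.pr_mul hl0)
    · rw [OD_sq_mul hD', pr_mul_le]
      intro w hw
      obtain ⟨m, n, rfl⟩ := mem_sp.1 hw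
      exact mem_sp.2 ⟨l * m, n, by push_cast; ring⟩
    · exact galA2_disc_uniq hO2 (e ▸ hO.pr_mul hl0)
  have hj : jL 𝔨 = σ (jL (OD (l ^ 2 * D))) := by
    rw [h _ hO2, mul_comm, h𝔨.OD_mul]
  obtain ⟨M', hM', hj', -⟩ := hecke_gal σ hl hO2.isLat h𝔨.isLat hj hnb
  rw [jL_pr_mul hO.isLat hl0] at hj'
  have hM'D := disc_gal σ hD hO (hM'.isLat hl h𝔨.isLat) hj'
  have hle2 : pr l * (𝔨 * OD D) ≤ M' := by
    rw [← mul_assoc, mul_comm, ← hM'D.OD_mul]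
    exact mul_le_mul' le_rfl hM'.1.le
  have hnb2 : Nb l 𝔨 (pr l * (𝔨 * OD D)) := by
    refine ⟨lt_of_le_of_ne ((pr_mul_le_iff hl0).2 fun x hx => ?_) fun e => hne ?_,
      hle2.trans_lt hM'.2⟩
    · simpa using Submodule.mul_mem_mul hx (one_mem_OD D)
    · exact galA2_disc_uniq (h𝔨.pr_mul hl0) (e ▸ hk.pr_mul hl0)
  rw [← hj', ← Nb.eq_of_le hl h𝔨.isLat hnb2 hM' hle2, jL_pr_mul hk.isLat hl0]

/-- Going up. -/
theorem Acts.up {σ : ℂ ≃+* ℂ} {D : ℤ} (hD : D < -576) (hD' : IsD D) (hσ : σ (th D) = th D) {f : ℕ}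
    (hf : 0 < f) {𝔨 : Lt} (h𝔨 : DiscL 𝔨 (f ^ 2 * D)) (h : Acts σ (f ^ 2 * D) 𝔨) : Acts σ D 𝔨 := by
  induction f using induction_on_primes generalizing 𝔨 with
  | zero => exact absurd hf (lt_irrefl 0)
  | one => simpa using h
  | prime_mul l g hl ih =>
    have hg : 0 < g := Nat.pos_of_mul_pos_left hf
    have e : ((l * g : ℕ) : ℤ) ^ 2 * D = (l : ℤ) ^ 2 * ((g : ℤ) ^ 2 * D) := by push_cast; ring
    rw [e] at h𝔨 h
    have hlt : (g : ℤ) ^ 2 * D < -576 := by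
      have h1 : (1 : ℤ) ≤ g := by exact_mod_cast hg
      have h2 : (1 : ℤ) ≤ (g : ℤ) ^ 2 := by nlinarith
      nlinarith [hD'.1]
    have hσ' : σ (th (g ^ 2 * D)) = th (g ^ 2 * D) := by
      rw [th_mul_sq, map_mul, map_natCast, hσ]
    obtain ⟨h1, h2⟩ := galA2_step hlt (galA2_isD hD' hg) hσ' hl h𝔨 h
    intro Λ hΛ
    have h3 : OD (g ^ 2 * D) * Λ = Λ := by
      apply le_antisymm
      · exact (mul_le_mul' (OD_sq_le hD' g) le_rfl).trans hΛ.OD_mul.le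
      · intro x hx
        simpa using Submodule.mul_mem_mul (one_mem_OD (g ^ 2 * D)) hx
    rw [ih hg h1 h2 Λ hΛ, mul_assoc, h3]

end Pool.Agent.EQ
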