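import Pool.Agent.P.MP_ad7a55_nt.MainB

/-! Discarding small sets of bad points. -/

set_option autoImplicit false

noncomputable section

open MeasureTheory Topology Filter UpperHalfPlane
open scoped MatrixGroups ENNReal BoundedContinuousFunction

namespace Pool.Agent.EQ

open Classical in
theorem good_union {α ι : Type} {L : Filter ℕ} (O : ℕ → Finset α) (bad : ι → ℕ → α → Prop)
    (hbad : ∀ m, ∀ δ : ℝ, 0 < δ → ∀ᶠ i in L,
      ({z | z ∈ O i ∧ bad m i z}.ncard : ℝ) ≤ δ * (O i).card) {f : ι → ℕ}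
    (hf : Function.Injective f) (K : ℕ) : ∀ δ : ℝ, 0 < δ → ∀ᶠ i in L,
      (((O i).filter fun z => ∃ m, f m < K ∧ bad m i z).card : ℝ) ≤ δ * (O i).card := by
  induction K with
  | zero => exact fun δ hδ => Eventually.of_forall fun i => by simp; positivity
  | succ K ih =>
    intro δ hδ
    by_cases hK : ∃ m, f m = K
    · obtain ⟨m, hm⟩ := hK
      filter_upwards [ih _ (half_pos hδ), hbad m _ (half_pos hδ)] with i h1 h2
      have e : {z | z ∈ O i ∧ bad m i z} = ((O i).filter (bad m i) : Finset α) := by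
        ext z
        simp
      rw [e, Set.ncard_coe_finset] at h2
      have h3 : ((O i).filter fun z => ∃ m, f m < K + 1 ∧ bad m i z) ⊆
          ((O i).filter fun z => ∃ m, f m < K ∧ bad m i z) ∪ (O i).filter (bad m i) := by
        intro z hz
        simp only [Finset.mem_union, Finset.mem_filter] at hz ⊢
        obtain ⟨hz, m', h4, h5⟩ := hz
        rcases Nat.lt_succ_iff_lt_or_eq.1 h4 with h6 | h6
        · exact Or.inl ⟨hz, m', h6, h5⟩
        · exact Or.inr ⟨hz, hf (h6.trans hm.symm) ▸ h5⟩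
      have h4 := (Finset.card_le_card h3).trans (Finset.card_union_le _ _)
      have h5 : (((O i).filter fun z => ∃ m, f m < K + 1 ∧ bad m i z).card : ℝ) ≤
          ((O i).filter fun z => ∃ m, f m < K ∧ bad m i z).card +
            ((O i).filter (bad m i)).card := by exact_mod_cast h4
      linarith
    · filter_upwards [ih δ hδ] with i h1
      refine le_trans ?_ h1
      refine Nat.cast_le.2 (Finset.card_le_card fun z hz => ?_)
      simp only [Finset.mem_filter] at hz ⊢
      obtain ⟨hz, m', h4, h5⟩ := hz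
      exact ⟨hz, m', lt_of_le_of_ne (Nat.lt_succ_iff.1 h4) fun e => hK ⟨m', e⟩, h5⟩

open Classical in
theorem good_avg_le {α : Type} {O : Finset α} (hO : O.Nonempty) (G : α → ℝ) {A B δ : ℝ}
    (hA : 0 ≤ A) (hB0 : 0 ≤ B) (hB : ∀ z, |G z| ≤ B) (P : α → Prop)
    (h : ∀ z ∈ O, ¬ P z → |G z| ≤ A) (hP : ((O.filter P).card : ℝ) ≤ δ * O.card) :
    |avg O G| ≤ A + B * δ := by
  have hc : (0 : ℝ) < O.card := by exact_mod_cast hO.card_pos
  rw [avg, abs_div, abs_of_pos hc, div_le_iff₀ hc]
  refine (Finset.abs_sum_le_sum_abs _ _).trans ?_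
  calc ∑ z ∈ O, |G z| ≤ ∑ z ∈ O, (A + if P z then B else 0) := by
        refine Finset.sum_le_sum fun z hz => ?_
        split_ifs with e
        · linarith [hB z]
        · linarith [h z hz e]
    _ = O.card * A + (O.filter P).card * B := by
        rw [Finset.sum_add_distrib, ← Finset.sum_filter]
        simp
    _ ≤ _ := by nlinarith [mul_le_mul_of_nonneg_right hP hB0]

theorem avg_tendsto_of_bad {α ι : Type} [Countable ι] {L : Filter ℕ} (hL : L ≤ atTop)
    (O : ℕ → Finset α) (hO : ∀ i, (O i).Nonempty) (Φ : ℕ → α → ℝ) {B : ℝ}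
    (hB : ∀ i z, |Φ i z| ≤ B) (bad : ι → ℕ → α → Prop)
    (hbad : ∀ m, ∀ δ : ℝ, 0 < δ → ∀ᶠ i in L,
      ({z | z ∈ O i ∧ bad m i z}.ncard : ℝ) ≤ δ * (O i).card)
    (h : ∀ z : ℕ → α, (∀ i, z i ∈ O i) → (∀ m, ∀ᶠ i in L, ¬ bad m i (z i)) →
      Tendsto (fun i => Φ i (z i)) L (𝓝 0)) :
    Tendsto (fun i => avg (O i) (Φ i)) L (𝓝 0) := by
  classical
  obtain ⟨f, hf⟩ := exists_injective_nat ι
  have hB0 : 0 ≤ B := (abs_nonneg _).trans (hB 0 (hO 0).choose)
  let P : ℕ → ℕ → Prop := fun i K =>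
    (((O i).filter fun z => ∃ m, f m < K ∧ bad m i z).card : ℝ) ≤ 1 / (K + 2) * (O i).card
  let K : ℕ → ℕ := fun i => Nat.findGreatest (P i) i
  have hP : ∀ i, P i (K i) := fun i =>
    Nat.findGreatest_spec (Nat.zero_le i) (show P i 0 by simp [P])
  have hK : Tendsto K L atTop := tendsto_atTop.2 fun k => by
    filter_upwards [hL (eventually_ge_atTop k), good_union O bad hbad hf k (1 / (k + 2))
      (by positivity)] with i h1 h2
    exact Nat.le_findGreatest h1 (by convert h2)
  have hne : ∀ i, ((O i).filter fun z => ¬ ∃ m, f m < K i ∧ bad m i z).Nonempty := fun i => by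
    by_contra hn
    rw [Finset.not_nonempty_iff_eq_empty, Finset.filter_eq_empty_iff] at hn
    have h1 := hP i
    have hc : (0 : ℝ) < (O i).card := by exact_mod_cast (hO i).card_pos
    simp only [P] at h1
    rw [Finset.filter_true_of_mem fun z hz => not_not.1 (hn hz)] at h1
    have h2 : 1 / ((K i : ℝ) + 2) ≤ 1 / 2 :=
      one_div_le_one_div_of_le two_pos (by linarith [Nat.cast_nonneg (α := ℝ) (K i)])
    nlinarith
  choose z hz hmax using fun i => Finset.exists_max_image _ (fun z => |Φ i z|) (hne i)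
  have h1 := h z (fun i => (Finset.mem_filter.1 (hz i)).1) fun m => by
    filter_upwards [hK.eventually_gt_atTop (f m)] with i hi hb
    exact (Finset.mem_filter.1 (hz i)).2 ⟨m, hi, hb⟩
  have h2 : Tendsto (fun i => 1 / ((K i : ℝ) + 2)) L (𝓝 0) :=
    tendsto_const_nhds.div_atTop
      (tendsto_atTop_add_const_right _ _ (tendsto_natCast_atTop_atTop.comp hK))
  have h3 := h1.abs.add (h2.const_mul B)
  rw [abs_zero, mul_zero, add_zero] at h3
  refine squeeze_zero_norm (fun i => ?_) h3
  exact good_avg_le (hO i) (Φ i) (abs_nonneg _) hB0 (hB i) (fun z => ∃ m, f m < K i ∧ bad m i z)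
    (fun w hw hn => hmax i w (Finset.mem_filter.2 ⟨hw, hn⟩)) (by convert hP i)

end Pool.Agent.EQ
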