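import Pool.Agent.P.MP_ad7a55_nt.Base

/-! Group-theoretic facts about Γ and K. -/

set_option autoImplicit false

noncomputable section

open MeasureTheory Topology Filter UpperHalfPlane
open scoped MatrixGroups ENNReal BoundedContinuousFunction

namespace Pool.Agent.EQ

theorem SL2_gen {F : Type} [Field F] (S : Subgroup SL(2, F)) (h1 : ∀ x, uu x ∈ S)
    (h2 : ∀ x, ul x ∈ S) : S = ⊤ := by
  refine le_antisymm le_top fun A _ => Matrix.SL2.transvection_induction (· ∈ S) ?_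
    (fun _ _ => mul_mem) A
  intro i j h c
  fin_cases i <;> fin_cases j
  · exact absurd rfl h
  · refine (congrArg (· ∈ S) (?_ : uu c = _)).mp (h1 c)
    ext a b
    fin_cases a <;> fin_cases b <;> simp [Matrix.SpecialLinearGroup.transvection_coe]
  · refine (congrArg (· ∈ S) (?_ : ul c = _)).mp (h2 c)
    ext a b
    fin_cases a <;> fin_cases b <;> simp [Matrix.SpecialLinearGroup.transvection_coe]
  · exact absurd rfl h

/-- A subgroup of `SL₂(F)` that contains all commutators is everything. -/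
theorem SL2_perfect {F : Type} [Field F] [CharZero F] (S : Subgroup SL(2, F))
    (h : ∀ a b : SL(2, F), a * b * a⁻¹ * b⁻¹ ∈ S) : S = ⊤ := by
  have h2 : commutator SL(2, F) = ⊤ :=
    Matrix.SL2.commutator_eq_top (a := 2) two_ne_zero (by norm_num)
  refine le_antisymm le_top ?_
  rw [← h2, commutator_def, Subgroup.commutator_le]
  intro a _ b _
  exact h a b

/-- An element of `SL₂(F)` that commutes with `u(1)` and with the lower `u(1)` is `±1`. -/
theorem eq_pm_of_comm {F : Type} [Field F] {g : SL(2, F)} (h1 : g * uu 1 = uu 1 * g)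
    (h2 : g * ul 1 = ul 1 * g) : g = 1 ∨ g = -1 := by
  have e1 := congrArg (fun m : SL(2, F) => m 0 0) h1
  have e2 := congrArg (fun m : SL(2, F) => m 0 1) h1
  have e3 := congrArg (fun m : SL(2, F) => m 0 0) h2
  simp [Matrix.mul_apply, Fin.sum_univ_two] at e1 e2 e3
  have hd := g.det_coe
  rw [Matrix.det_fin_two] at hd
  have e4 : g 1 1 = g 0 0 := by linear_combination -e2
  rw [e1, e4, mul_zero, sub_zero, mul_self_eq_one_iff] at hd
  rcases hd with h | h
  · left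
    ext i j
    fin_cases i <;> fin_cases j <;> simp [e1, e3, e4, h]
  · right
    ext i j
    fin_cases i <;> fin_cases j <;> simp [e1, e3, e4, h]

/-- `SL₂` of a locally compact field is unimodular. -/
theorem unimod {F : Type} [NormedField F] [CharZero F] [LocallyCompactSpace F]
    [SecondCountableTopology F] (μ : Measure SL(2, F)) [μ.IsHaarMeasure] :
    μ.IsMulRightInvariant := by
  have hk : (Measure.modularCharacter (G := SL(2, F))).ker = ⊤ := by
    refine SL2_perfect _ fun a b => ?_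
    rw [MonoidHom.mem_ker, map_mul, map_mul, mul_right_comm, ← map_mul, ← map_mul,
      mul_inv_cancel_right, mul_inv_cancel, map_one]
  refine ⟨fun g => ?_⟩
  have h1 : Measure.modularCharacterFun g = 1 := by
    have : g ∈ (Measure.modularCharacter (G := SL(2, F))).ker := by rw [hk]; trivial
    exact this
  rw [Measure.map_right_mul_eq_modularCharacterFun_smul μ g, h1, one_smul]

theorem IsConjHom.continuous {θ : SL(2, ℝ) →* SL(2, ℝ)} (h : IsConjHom θ) : Continuous θ := by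
  obtain ⟨η, hη, h⟩ := h
  have h1 : ∀ g : SL(2, ℝ), (θ g : Matrix (Fin 2) (Fin 2) ℝ) =
      η * (g : Matrix (Fin 2) (Fin 2) ℝ) * η⁻¹ := fun g => by
    rw [← h g, Matrix.mul_nonsing_inv_cancel_right _ _ (Ne.isUnit hη)]
  have h2 : Continuous fun g : SL(2, ℝ) => η * (g : Matrix (Fin 2) (Fin 2) ℝ) * η⁻¹ :=
    (continuous_const.mul continuous_subtype_val).mul continuous_const
  refine continuous_SL fun i j => ?_
  simp only [h1]
  exact h2.matrix_elem i j

theorem neg_one_mem_Gam0 : (-1 : SL(2, ℝ)) ∈ Gam0 := by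
  refine ⟨-1, ?_⟩
  ext i j
  fin_cases i <;> fin_cases j <;> simp

theorem neg_one_smul_YY (y : YY) : (-1 : SL(2, ℝ)) • y = y := by
  obtain ⟨g, rfl⟩ := QuotientGroup.mk_surjective y
  rw [MulAction.Quotient.smul_mk, smul_eq_mul, QuotientGroup.eq]
  have : (-1 * g)⁻¹ * g = -1 := by
    rw [inv_mul_eq_iff_eq_mul]
    ext i j
    simp
  rw [this]
  exact neg_one_mem_Gam0

variable (p : ℕ) [Fact p.Prime]

theorem Kp_compact : IsCompact (Kp p : Set SL(2, ℚ_[p])) := by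
  have h : IsCompact (Set.pi Set.univ fun _ : Fin 2 => Set.pi Set.univ fun _ : Fin 2 =>
      Metric.closedBall (0 : ℚ_[p]) 1) :=
    isCompact_univ_pi fun _ => isCompact_univ_pi fun _ => isCompact_closedBall _ _
  have h2 := (Matrix.SpecialLinearGroup.isClosedEmbedding_val
    (n := Fin 2) (R := ℚ_[p])).isCompact_preimage h
  refine (Set.ext fun g => ?_ : _ = (Kp p : Set SL(2, ℚ_[p]))) ▸ h2
  exact ⟨fun hg i j => mem_closedBall_zero_iff.1 (hg i trivial j trivial),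
    fun hg i _ j _ => mem_closedBall_zero_iff.2 (hg i j)⟩

theorem Kp_open : IsOpen (Kp p : Set SL(2, ℚ_[p])) := by
  have : (Kp p : Set SL(2, ℚ_[p])) =
      ⋂ i, ⋂ j, (fun g : SL(2, ℚ_[p]) => g i j) ⁻¹' Metric.closedBall (0 : ℚ_[p]) 1 := by
    ext g
    simp only [Set.mem_iInter, Set.mem_preimage, mem_closedBall_zero_iff]
    exact Iff.rfl
  rw [this]
  exact isOpen_iInter_of_finite fun i => isOpen_iInter_of_finite fun j =>
    (IsUltrametricDist.isOpen_closedBall _ one_ne_zero).preimage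
      (continuous_subtype_val.matrix_elem i j)

instance instCompactKp : CompactSpace (Kp p) := isCompact_iff_compactSpace.1 (Kp_compact p)

instance instPolishKp : PolishSpace (Kp p) := (Kp_compact p).isClosed.polishSpace

instance instTDKp : TotallyDisconnectedSpace (Kp p) := by
  have hc : Continuous fun k : Kp p => (fun i j => k.1 i j : Fin 2 → Fin 2 → ℚ_[p]) :=
    continuous_pi fun i => continuous_pi fun j =>
      (continuous_subtype_val.matrix_elem i j).comp continuous_subtype_val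
  refine ⟨fun t _ ht x hx y hy => ?_⟩
  have := (ht.image _ hc.continuousOn).subsingleton ⟨x, hx, rfl⟩ ⟨y, hy, rfl⟩
  exact Subtype.ext (Subtype.ext this)

theorem uu_mem_Kp {s : ℚ_[p]} (hs : ‖s‖ ≤ 1) : uu s ∈ Kp p := by
  intro i j
  fin_cases i <;> fin_cases j <;> simp [hs]

theorem ul_mem_Kp {s : ℚ_[p]} (hs : ‖s‖ ≤ 1) : ul s ∈ Kp p := by
  intro i j
  fin_cases i <;> fin_cases j <;> simp [hs]

theorem toP_mem_Kp (γ : SL(2, ℤ)) : toP p γ ∈ Kp p := by
  intro i j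
  simpa [toP] using Padic.norm_int_le_one (p := p) (γ i j)

theorem int_mem_Gam (γ : SL(2, ℤ)) : ((toR γ, toP p γ) : GG p) ∈ Gam p := by
  refine ⟨Matrix.SpecialLinearGroup.map (Int.castRingHom ℚ) γ, fun i j => ?_, ?_⟩
  · simpa using inZp_int p (γ i j)
  · refine Prod.ext ?_ ?_ <;> ext i j <;> simp [emb, toR, toP]

theorem grp_int {x : ℚ} (hx : InZp p x) (h : ‖(x : ℚ_[p])‖ ≤ 1) : ∃ n : ℤ, x = n := by
  obtain ⟨a, m, hm⟩ := hx
  have hp' : (p : ℚ) ≠ 0 := by exact_mod_cast (Fact.out : p.Prime).ne_zero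
  have h6 : ‖((m : ℤ) : ℚ_[p])‖ ≤ (p : ℝ) ^ (-(a : ℤ)) := by
    have : ((m : ℤ) : ℚ_[p]) = (p : ℚ_[p]) ^ a * (x : ℚ_[p]) := by
      have := congrArg (fun z : ℚ => (z : ℚ_[p])) hm
      simpa using this.symm
    rw [this, norm_mul, norm_pow, Padic.norm_p, zpow_neg, zpow_natCast, inv_pow]
    exact mul_le_of_le_one_right (by positivity) h
  obtain ⟨n, hn⟩ := (Padic.norm_int_le_pow_iff_dvd m a).1 h6
  refine ⟨n, mul_left_cancel₀ (pow_ne_zero a hp') ?_⟩
  rw [hm, hn]; push_cast; ring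

/-- `Γ ∩ (SL₂(ℝ) × K) = SL₂(ℤ)`. -/
theorem exists_int_of_Gam {γ : GG p} (hγ : γ ∈ Gam p) (hK : γ.2 ∈ Kp p) :
    ∃ δ : SL(2, ℤ), γ = (toR δ, toP p δ) := by
  obtain ⟨g, hg, rfl⟩ := hγ
  choose n hn using fun i j => grp_int p (hg i j) (hK i j)
  have hd : (Matrix.of n).det = 1 := by
    have := g.det_coe
    rw [Matrix.det_fin_two, hn, hn, hn, hn] at this
    rw [Matrix.det_fin_two]
    exact_mod_cast this
  refine ⟨⟨Matrix.of n, hd⟩, Prod.ext ?_ ?_⟩ <;> ext i j <;> simp [emb, toR, toP, hn]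

theorem grp_dense {F : Type} [NormedField F] (S : Subgroup SL(2, F)) {A : Set F} (hA : Dense A)
    (h1 : ∀ x ∈ A, uu x ∈ S) (h2 : ∀ x ∈ A, ul x ∈ S) : Dense (S : Set SL(2, F)) := by
  have : S.topologicalClosure = ⊤ :=
    SL2_gen _ (fun x => map_mem_closure continuous_uu (hA x) h1)
      (fun x => map_mem_closure continuous_ul (hA x) h2)
  intro g
  have h : g ∈ S.topologicalClosure := by rw [this]; trivial
  exact h

theorem grp_mem {x : ℚ} (hx : InZp p x) :
    ((uu (x : ℝ), uu (x : ℚ_[p])) : GG p) ∈ Gam p ∧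
      ((ul (x : ℝ), ul (x : ℚ_[p])) : GG p) ∈ Gam p := by
  have h1 : InZp p 1 := by simpa using inZp_int p 1
  have h0 : InZp p 0 := by simpa using inZp_int p 0
  refine ⟨⟨uu x, fun i j => ?_, ?_⟩, ⟨ul x, fun i j => ?_, ?_⟩⟩
  · fin_cases i <;> fin_cases j <;> simp [h0, h1, hx]
  · refine Prod.ext ?_ ?_ <;> ext i j <;> fin_cases i <;> fin_cases j <;> simp [emb]
  · fin_cases i <;> fin_cases j <;> simp [h0, h1, hx]
  · refine Prod.ext ?_ ?_ <;> ext i j <;> fin_cases i <;> fin_cases j <;> simp [emb]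

theorem grp_inZp (n : ℕ) (m : ℤ) : InZp p ((m : ℚ) / (p : ℚ) ^ n) := by
  have hp' : (p : ℚ) ≠ 0 := by exact_mod_cast (Fact.out : p.Prime).ne_zero
  exact ⟨n, m, by field_simp⟩

theorem grp_dense_R : Dense {y : ℝ | ∃ x : ℚ, InZp p x ∧ (x : ℝ) = y} := by
  have hp : (1 : ℝ) < p := by exact_mod_cast (Fact.out : p.Prime).one_lt
  refine Metric.dense_iff.2 fun y ε hε => ?_
  obtain ⟨n, hn⟩ := pow_unbounded_of_one_lt ε⁻¹ hp
  have hP : (0 : ℝ) < (p : ℝ) ^ n := by positivity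
  refine ⟨(⌊(p : ℝ) ^ n * y⌋ : ℝ) / (p : ℝ) ^ n, ?_, _, grp_inZp p n ⌊(p : ℝ) ^ n * y⌋, by simp⟩
  rw [Metric.mem_ball, Real.dist_eq]
  have h1 : (⌊(p : ℝ) ^ n * y⌋ : ℝ) / (p : ℝ) ^ n - y =
      ((⌊(p : ℝ) ^ n * y⌋ : ℝ) - (p : ℝ) ^ n * y) / (p : ℝ) ^ n := by field_simp
  have h2 : |(⌊(p : ℝ) ^ n * y⌋ : ℝ) - (p : ℝ) ^ n * y| < 1 := by
    rw [abs_lt]
    constructor <;> linarith [Int.floor_le ((p : ℝ) ^ n * y), Int.lt_floor_add_one ((p : ℝ) ^ n * y)]
  rw [h1, abs_div, abs_of_pos hP, div_lt_iff₀ hP]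
  rw [inv_lt_iff_one_lt_mul₀ hε] at hn
  linarith

theorem grp_dense_P : Dense {y : ℚ_[p] | ∃ x : ℚ, InZp p x ∧ (x : ℚ_[p]) = y} := by
  have hp : (1 : ℝ) < p := by exact_mod_cast (Fact.out : p.Prime).one_lt
  have hpP : (p : ℚ_[p]) ≠ 0 := by exact_mod_cast (Fact.out : p.Prime).ne_zero
  refine Metric.dense_iff.2 fun y ε hε => ?_
  obtain ⟨n, hn⟩ := pow_unbounded_of_one_lt ‖y‖ hp
  have hP : (0 : ℝ) < (p : ℝ) ^ n := by positivity
  have h1 : ‖(p : ℚ_[p]) ^ n * y‖ ≤ 1 := by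
    rw [norm_mul, norm_pow, Padic.norm_p, inv_pow, inv_mul_le_iff₀ hP, mul_one]
    exact hn.le
  obtain ⟨m, hm⟩ := PadicInt.denseRange_intCast.exists_dist_lt (⟨_, h1⟩ : ℤ_[p])
    (div_pos hε hP)
  have h2 : ‖(p : ℚ_[p]) ^ n * y - m‖ < ε / (p : ℝ) ^ n := by
    rw [dist_eq_norm] at hm
    simpa [PadicInt.norm_def] using hm
  refine ⟨(m : ℚ_[p]) / (p : ℚ_[p]) ^ n, ?_, _, grp_inZp p n m, by simp⟩
  rw [Metric.mem_ball, dist_comm, dist_eq_norm]
  have h3 : y - (m : ℚ_[p]) / (p : ℚ_[p]) ^ n = ((p : ℚ_[p]) ^ n * y - m) / (p : ℚ_[p]) ^ n := by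
    field_simp
  rw [h3, norm_div, norm_pow, Padic.norm_p, inv_pow, div_inv_eq_mul]
  rwa [lt_div_iff₀ hP] at h2

theorem dense_fst : Dense (Prod.fst '' (Gam p : Set (GG p))) := by
  have := grp_dense ((Gam p).map (MonoidHom.fst _ _)) (grp_dense_R p)
    (fun _ ⟨x, hx, h⟩ => ⟨_, (grp_mem p hx).1, h ▸ rfl⟩)
    (fun _ ⟨x, hx, h⟩ => ⟨_, (grp_mem p hx).2, h ▸ rfl⟩)
  exact this

theorem dense_snd : Dense (Prod.snd '' (Gam p : Set (GG p))) := by
  have := grp_dense ((Gam p).map (MonoidHom.snd _ _)) (grp_dense_P p)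
    (fun _ ⟨x, hx, h⟩ => ⟨_, (grp_mem p hx).1, h ▸ rfl⟩)
    (fun _ ⟨x, hx, h⟩ => ⟨_, (grp_mem p hx).2, h ▸ rfl⟩)
  exact this

/-- `SL₂(ℚ_p) = K Γ`. -/
theorem exists_rep (x : XX p) : ∃ g : GG p, g.2 ∈ Kp p ∧ (g : XX p) = x := by
  obtain ⟨h, rfl⟩ := QuotientGroup.mk_surjective x
  have ho : IsOpen ((fun k => h.2 * k) ⁻¹' (Kp p : Set SL(2, ℚ_[p]))) :=
    (Kp_open p).preimage (continuous_const.mul continuous_id)
  obtain ⟨_, ⟨γ, hγ, rfl⟩, hk⟩ := (dense_snd p).exists_mem_open ho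
    ⟨h.2⁻¹, by simp [(Kp p).one_mem]⟩
  exact ⟨h * γ, hk, QuotientGroup.mk_mul_of_mem h hγ⟩

/-- Nearby points differ by a small group element. -/
theorem exists_nhds_smul (x : XX p) {V : Set (GG p)} (hV : V ∈ 𝓝 (1 : GG p)) :
    (fun g : GG p => g • x) '' V ∈ 𝓝 x := by
  obtain ⟨h, rfl⟩ := QuotientGroup.mk_surjective x
  have ho : IsOpenMap fun g : GG p => g • (h : XX p) :=
    QuotientGroup.isOpenMap_coe.comp (isOpenMap_mul_right h)
  simpa using ho.image_mem_nhds hV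

/-- Compactly supported continuous functions on `X` are uniformly continuous for the action. -/
theorem unif_smul {f : XX p → ℝ} (hf : Continuous f) (hc : HasCompactSupport f) {ε : ℝ}
    (hε : 0 < ε) : ∀ᶠ g : GG p in 𝓝 1, ∀ x, |f (g • x) - f x| ≤ ε := by
  have h1 : ∀ᶠ g : GG p in 𝓝 1, ∀ x ∈ tsupport f,
      |f (g • x) - f x| < ε ∧ |f (g⁻¹ • x) - f x| < ε := by
    refine IsCompact.eventually_forall_of_forall_eventually hc fun y _ => ?_
    have c1 : Continuous fun z : GG p × XX p => |f (z.1 • z.2) - f z.2| :=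
      ((hf.comp continuous_smul).sub (hf.comp continuous_snd)).abs
    have c2 : Continuous fun z : GG p × XX p => |f (z.1⁻¹ • z.2) - f z.2| :=
      ((hf.comp (continuous_fst.inv.smul continuous_snd)).sub (hf.comp continuous_snd)).abs
    refine Eventually.and ?_ ?_
    · exact (isOpen_lt c1 continuous_const).mem_nhds (by simpa using hε)
    · exact (isOpen_lt c2 continuous_const).mem_nhds (by simpa using hε)
  filter_upwards [h1] with g hg x
  by_cases hx : x ∈ tsupport f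
  · exact (hg x hx).1.le
  by_cases hx' : g • x ∈ tsupport f
  · have := (hg _ hx').2.le
    rwa [inv_smul_smul, abs_sub_comm] at this
  · rw [image_eq_zero_of_notMem_tsupport hx, image_eq_zero_of_notMem_tsupport hx']
    simpa using hε.le

end Pool.Agent.EQ
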