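import Pool.Agent.P.MP_ad7a55_nt.Free
import Pool.Agent.P.MP_ad7a55_nt.Di2

/-! The H-principle and local rigidity. -/

set_option autoImplicit false

noncomputable section

open MeasureTheory Topology Filter UpperHalfPlane
open scoped MatrixGroups ENNReal BoundedContinuousFunction

namespace Pool.Agent.EQ

variable (p : ℕ) [Fact p.Prime] {κ : Type} [Fintype κ] [DecidableEq κ]

/-- Local rigidity on `C`. -/
def Rigid (ρ : Measure (κ → XX p)) (m : κ) (C : Set (κ → XX p)) (V : Set (κ → GG p)) : Prop :=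
  ∀ w ∈ C, ∀ g ∈ V, g • w ∈ C → (∀ k, k ≠ m → (g k).2 = 1) →
    g ∈ Stab (κ → GG p) ρ ∧ (g m).2 1 0 = 0 ∧ (g m).2 0 0 = (g m).2 1 1

/-- The time scale at which a small nonconstant quadratic polynomial reaches the size `R`. -/
theorem hp_poly {b β γ : ℚ_[p]} {R : ℝ} (hR : 1 ≤ R) (hb : ‖b‖ ≤ 1) (hβ : ‖β‖ ≤ 1)
    (hγ : ‖γ‖ ≤ 1) (hne : β ≠ 0 ∨ γ ≠ 0) :
    ∃ k : ℕ, (∀ s : ℚ_[p], ‖s‖ ≤ (p : ℝ) ^ (k : ℤ) →
        ‖b + β * s + γ * s ^ 2‖ ≤ R * (p : ℝ) ^ 10 ∧ ‖γ * s ^ 2‖ ≤ R * (p : ℝ) ^ 10) ∧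
      bm p k {s | ‖b + β * s + γ * s ^ 2‖ ≤ R} ≤ 4⁻¹ := by
  classical
  have hp2 : (2 : ℝ) ≤ p := by exact_mod_cast (Fact.out : p.Prime).two_le
  have hp1 : (1 : ℝ) < p := by linarith
  have hp0 : (0 : ℝ) < p := by linarith
  have h8 : (1 : ℝ) ≤ R * (p : ℝ) ^ 8 := one_le_mul_of_one_le_of_one_le hR (one_le_pow₀ hp1.le)
  have hex : ∃ k : ℕ, ¬ (‖β‖ * (p : ℝ) ^ k ≤ R * (p : ℝ) ^ 8 ∧
      ‖γ‖ * (p : ℝ) ^ (2 * k) ≤ R * (p : ℝ) ^ 8) := by
    rcases hne with h | h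
    · have h0 : 0 < ‖β‖ := norm_pos_iff.2 h
      obtain ⟨k, hk⟩ := pow_unbounded_of_one_lt (R * (p : ℝ) ^ 8 / ‖β‖) hp1
      refine ⟨k, fun hh => ?_⟩
      rw [div_lt_iff₀ h0] at hk
      nlinarith [hh.1]
    · have h0 : 0 < ‖γ‖ := norm_pos_iff.2 h
      obtain ⟨k, hk⟩ := pow_unbounded_of_one_lt (R * (p : ℝ) ^ 8 / ‖γ‖) hp1
      refine ⟨k, fun hh => ?_⟩
      rw [div_lt_iff₀ h0] at hk
      have h1 : (p : ℝ) ^ k ≤ (p : ℝ) ^ (2 * k) := pow_le_pow_right₀ hp1.le (by omega)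
      have h2 := mul_le_mul_of_nonneg_left h1 h0.le
      nlinarith [hh.2]
  have hk := Nat.find_spec hex
  have hk0 : Nat.find hex ≠ 0 := by
    intro h0
    rw [h0] at hk
    exact hk ⟨by simpa using hβ.trans h8, by simpa using hγ.trans h8⟩
  obtain ⟨j, hj⟩ := Nat.exists_eq_succ_of_ne_zero hk0
  have hj' := Nat.find_min hex (m := j) (by omega)
  rw [not_not] at hj'
  rw [hj] at hk
  refine ⟨j + 1, fun s hs => ?_, ?_⟩
  · rw [zpow_natCast] at hs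
    have e1 : ‖β * s‖ ≤ R * (p : ℝ) ^ 10 := by
      rw [norm_mul]
      calc ‖β‖ * ‖s‖ ≤ ‖β‖ * (p : ℝ) ^ (j + 1) := mul_le_mul_of_nonneg_left hs (norm_nonneg _)
        _ = ‖β‖ * (p : ℝ) ^ j * p := by ring
        _ ≤ R * (p : ℝ) ^ 8 * p := mul_le_mul_of_nonneg_right hj'.1 hp0.le
        _ ≤ R * (p : ℝ) ^ 8 * (p : ℝ) ^ 2 :=
          mul_le_mul_of_nonneg_left (by nlinarith) (by linarith)
        _ = R * (p : ℝ) ^ 10 := by ring
    have e2 : ‖γ * s ^ 2‖ ≤ R * (p : ℝ) ^ 10 := by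
      rw [norm_mul, norm_pow]
      calc ‖γ‖ * ‖s‖ ^ 2 ≤ ‖γ‖ * ((p : ℝ) ^ (j + 1)) ^ 2 :=
            mul_le_mul_of_nonneg_left (pow_le_pow_left₀ (norm_nonneg _) hs 2) (norm_nonneg _)
        _ = ‖γ‖ * (p : ℝ) ^ (2 * j) * (p : ℝ) ^ 2 := by ring
        _ ≤ R * (p : ℝ) ^ 8 * (p : ℝ) ^ 2 := mul_le_mul_of_nonneg_right hj'.2 (by positivity)
        _ = R * (p : ℝ) ^ 10 := by ring
    have e3 : ‖b‖ ≤ R * (p : ℝ) ^ 10 :=
      hb.trans (one_le_mul_of_one_le_of_one_le hR (one_le_pow₀ hp1.le))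
    exact ⟨(Padic.nonarchimedean _ _).trans (max_le
      ((Padic.nonarchimedean _ _).trans (max_le e3 e1)) e2), e2⟩
  · rcases three_point p (ι := Unit) (fun _ => b) (fun _ => β) (fun _ => γ) 0 ((j + 1 : ℕ) : ℤ) 3
      (R := R) (by linarith) with h | ⟨s₁, s₂, h⟩
    · exfalso
      have := coef_bound p (a := b) (b := β) (c := γ) (l := ((j + 1 : ℕ) : ℤ))
        (R := R * (p : ℝ) ^ (2 * 3 + 2)) fun s hs => h s (by rw [mem_pb, sub_zero]; exact hs) ()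
      apply hk
      constructor
      · have h1 := this.1
        rwa [zpow_natCast] at h1
      · have h1 := this.2
        rwa [show (2 * ((j + 1 : ℕ) : ℤ)) = ((2 * (j + 1) : ℕ) : ℤ) by push_cast; ring,
          zpow_natCast] at h1
    · have hb3 : ∀ c : ℚ_[p], bm p ((j + 1 : ℕ) : ℤ) (pb p c (((j + 1 : ℕ) : ℤ) - (3 : ℕ))) ≤ 8⁻¹ := by
        intro c
        refine (bm_ball_le p _ _ c).trans ?_
        have e1 : ((j + 1 : ℕ) : ℤ) - (3 : ℕ) - ((j + 1 : ℕ) : ℤ) = -((3 : ℕ) : ℤ) := by ring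
        rw [e1, zpow_neg, zpow_natCast]
        have e2 : ((p : ℝ) ^ 3)⁻¹ ≤ 8⁻¹ := by
          refine inv_anti₀ (by norm_num) ?_
          calc (8 : ℝ) = 2 ^ 3 := by norm_num
            _ ≤ (p : ℝ) ^ 3 := pow_le_pow_left₀ (by norm_num) hp2 3
        refine (ENNReal.ofReal_le_ofReal e2).trans (le_of_eq ?_)
        rw [ENNReal.ofReal_inv_of_pos (by norm_num)]
        simp
      calc bm p ((j + 1 : ℕ) : ℤ) {s | ‖b + β * s + γ * s ^ 2‖ ≤ R}
          ≤ bm p ((j + 1 : ℕ) : ℤ) (pb p s₁ (((j + 1 : ℕ) : ℤ) - (3 : ℕ)) ∪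
              pb p s₂ (((j + 1 : ℕ) : ℤ) - (3 : ℕ))) := by
            refine measure_mono_ae ?_
            filter_upwards [bm_ae p ((j + 1 : ℕ) : ℤ)] with s hs hs'
            exact h s (by rw [mem_pb, sub_zero]; exact hs) fun _ => hs'
        _ ≤ 8⁻¹ + 8⁻¹ := (measure_union_le _ _).trans (add_le_add (hb3 _) (hb3 _))
        _ = 4⁻¹ := by
            rw [← two_mul, show (8 : ℝ≥0∞) = 2 * 4 by norm_num,
              ENNReal.mul_inv (by simp) (by simp), ← mul_assoc,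
              ENNReal.mul_inv_cancel (by simp) (by simp), one_mul]

/-- The group element of the flow. -/
def hpU (d : κ → ℚ_[p]) (s : ℚ_[p]) : κ → GG p := fun k => uP p (d k * s)

omit [Fintype κ] [DecidableEq κ] in
theorem hp_ufl (d : κ → ℚ_[p]) (s : ℚ_[p]) (w : κ → XX p) : ufl p d s w = hpU p d s • w := rfl

omit [DecidableEq κ] in
/-- A centralising element that maps a generic point to a generic point preserves the measure. -/
theorem hp_stab (d : κ → ℚ_[p]) (ρ : Measure (κ → XX p)) [IsProbabilityMeasure ρ]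
    {g : κ → GG p} (hg : ∀ s, g * hpU p d s = hpU p d s * g) {w : κ → XX p}
    (h1 : Gen (ufl p d) ρ w) (h2 : Gen (ufl p d) ρ (g • w)) : g ∈ Stab (κ → GG p) ρ := by
  have hc : Continuous fun w : κ → XX p => g • w := continuous_const_smul g
  have h3 := Gen.map (ufl p d) hc
    (fun s w => by rw [hp_ufl, hp_ufl, ← mul_smul, ← mul_smul, hg]) h1
  have : IsProbabilityMeasure (ρ.map fun w : κ → XX p => g • w) :=
    Measure.isProbabilityMeasure_map hc.measurable.aemeasurable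
  exact mem_Stab.2 (Gen.unique h3 h2)

theorem hp_conj {F : Type} [Field F] (x : F) (h : SL(2, F)) :
    (uu x * h * (uu x)⁻¹) 0 0 = h 0 0 + h 1 0 * x ∧
    (uu x * h * (uu x)⁻¹) 0 1 = h 0 1 + (h 1 1 - h 0 0) * x - h 1 0 * x ^ 2 ∧
    (uu x * h * (uu x)⁻¹) 1 0 = h 1 0 ∧
    (uu x * h * (uu x)⁻¹) 1 1 = h 1 1 - h 1 0 * x := by
  rw [uu_inv]
  refine ⟨?_, ?_, ?_, ?_⟩ <;>
    simp [Matrix.mul_apply, Fin.sum_univ_two, Matrix.vecMul, dotProduct] <;> ring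

theorem hp_comm {F : Type} [Field F] (x : F) {h : SL(2, F)} (h1 : h 1 0 = 0)
    (h2 : h 0 0 = h 1 1) : h * uu x = uu x * h := by
  have : uu x * h * (uu x)⁻¹ = h := by
    obtain ⟨e1, e2, e3, e4⟩ := hp_conj x h
    ext i j
    fin_cases i <;> fin_cases j
    · simpa [h1] using e1
    · simpa [h1, h2] using e2
    · simpa using e3
    · simpa [h1] using e4
  conv_lhs => rw [← this]
  group

theorem hp_tendsto_SL {F : Type} [NormedField F] {α : Type} {l : Filter α} {f : α → SL(2, F)}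
    {g : SL(2, F)} : Tendsto f l (𝓝 g) ↔ ∀ i j, Tendsto (fun a => f a i j) l (𝓝 (g i j)) := by
  refine Matrix.SpecialLinearGroup.isClosedEmbedding_val.isEmbedding.tendsto_nhds_iff.trans ?_
  exact (tendsto_pi_nhds (f := fun a i => (f a).1 i) (g := g.1)).trans
    (forall_congr' fun i => tendsto_pi_nhds)

omit [Fintype κ] in
theorem hp_single_comm (d : κ → ℚ_[p]) (m : κ) (q s : ℚ_[p]) :
    Pi.mulSingle (M := fun _ => GG p) m (uP p q) * hpU p d s =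
      hpU p d s * Pi.mulSingle (M := fun _ => GG p) m (uP p q) := by
  funext k
  by_cases hk : k = m
  · subst hk
    simp only [Pi.mul_apply, Pi.mulSingle_eq_same, hpU, ← uP_add, add_comm]
  · simp [Pi.mulSingle_eq_of_ne hk]

/-- A closed subgroup containing `u(q)` contains `u(q ℤ_p)`. -/
theorem hp_fill (m : κ) (ρ : Measure (κ → XX p)) [IsProbabilityMeasure ρ] {q s : ℚ_[p]}
    (hq : Pi.mulSingle (M := fun _ => GG p) m (uP p q) ∈ Stab (κ → GG p) ρ) (hq0 : q ≠ 0)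
    (hs : ‖s‖ ≤ ‖q‖) : Pi.mulSingle (M := fun _ => GG p) m (uP p s) ∈ Stab (κ → GG p) ρ := by
  have hz : ‖s / q‖ ≤ 1 := by
    rw [norm_div]; exact div_le_one_of_le₀ hs (norm_nonneg _)
  have key : ∀ z : ℤ_[p], Pi.mulSingle (M := fun _ => GG p) m (uP p ((z : ℚ_[p]) * q)) ∈
      Stab (κ → GG p) ρ := by
    intro z
    refine PadicInt.denseRange_natCast.induction_on z ?_ ?_
    · have hc : Continuous fun z : ℤ_[p] =>
          Pi.mulSingle (M := fun _ => GG p) m (uP p ((z : ℚ_[p]) * q)) :=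
        (continuous_mulSingle (A := fun _ => GG p) m).comp
          ((continuous_uP p).comp (continuous_subtype_val.mul continuous_const))
      exact (isClosed_Stab (H := κ → GG p) ρ).preimage hc
    · intro n
      induction n with
      | zero => simp
      | succ n ih =>
        have : (((n + 1 : ℕ) : ℤ_[p]) : ℚ_[p]) * q = ((n : ℤ_[p]) : ℚ_[p]) * q + q := by
          push_cast; ring
        rw [this, uP_add, Pi.mulSingle_mul]
        exact mul_mem ih hq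
  have := key ⟨s / q, hz⟩
  rwa [show ((⟨s / q, hz⟩ : ℤ_[p]) : ℚ_[p]) * q = s from div_mul_cancel₀ s hq0] at this

omit [DecidableEq κ] in
/-- The two compact sets of the argument. -/
theorem hp_sets (d : κ → ℚ_[p]) (ρ : Measure (κ → XX p)) [IsProbabilityMeasure ρ]
    (hρ : Erg (ufl p d) ρ) : ∃ C₀ C : Set (κ → XX p), IsCompact C₀ ∧ IsCompact C ∧ ρ C ≠ 0 ∧
      C ⊆ C₀ ∧ (∀ w ∈ C₀, Gen (ufl p d) ρ w) ∧
      ∀ w ∈ C, ∀ k : ℕ, bm p k {s | ufl p d s w ∉ C₀} ≤ 4⁻¹ := by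
  obtain ⟨N, hN1, hN2, hN3⟩ := exists_measurable_superset_of_null (ae_iff.1 hρ)
  obtain ⟨C₀, hC1, hC2, hC3⟩ := hN2.compl.exists_isCompact_sdiff_lt (μ := ρ) (measure_ne_top _ _)
    (ε := 8⁻¹) (by simp)
  have hm : MeasurableSet C₀ᶜ := hC2.isClosed.measurableSet.compl
  have h1 : ρ C₀ᶜ ≤ 8⁻¹ := by
    calc ρ C₀ᶜ ≤ ρ (N ∪ Nᶜ \ C₀) := measure_mono fun x hx => by
          by_cases h : x ∈ N
          · exact Or.inl h
          · exact Or.inr ⟨h, hx⟩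
      _ ≤ ρ N + ρ (Nᶜ \ C₀) := measure_union_le _ _
      _ ≤ 8⁻¹ := by rw [hN3, zero_add]; exact hC3.le
  have h2 := hρ.inv.maximal (ufl p d) (f := C₀ᶜ.indicator 1) (measurable_one.indicator hm) 4⁻¹
  simp only [lintegral_indicator_one hm] at h2
  set B : Set (κ → XX p) := {w | ∃ k : ℕ, 4⁻¹ < orb (ufl p d) k w C₀ᶜ} with hB
  have hBm : MeasurableSet B := by
    have : B = ⋃ k : ℕ, {w | 4⁻¹ < orb (ufl p d) k w C₀ᶜ} := by ext w; simp [hB]
    rw [this]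
    exact MeasurableSet.iUnion fun k => measurableSet_lt measurable_const
      ((Measure.measurable_coe hm).comp (measurable_orb (ufl p d) k))
  have h3 : ρ B ≤ 2⁻¹ := by
    have e1 : ρ B = 4 * (4⁻¹ * ρ B) := by
      rw [← mul_assoc, ENNReal.mul_inv_cancel (by simp) (by simp), one_mul]
    have e2 : (4 : ℝ≥0∞) * 8⁻¹ = 2⁻¹ := by
      rw [show (8 : ℝ≥0∞) = 4 * 2 by norm_num, ENNReal.mul_inv (by simp) (by simp), ← mul_assoc,
        ENNReal.mul_inv_cancel (by simp) (by simp), one_mul]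
    rw [e1, ← e2]
    exact mul_le_mul_right (h2.trans h1) _
  have h4 : ρ (C₀ᶜ ∪ B)ᶜ ≠ 0 := by
    intro h0
    have e1 : ρ (C₀ᶜ ∪ B) = 1 := by
      rwa [prob_compl_eq_zero_iff (hm.union hBm)] at h0
    have e2 : (1 : ℝ≥0∞) ≤ 8⁻¹ + 2⁻¹ := e1 ▸ (measure_union_le _ _).trans (add_le_add h1 h3)
    have e3 : (8⁻¹ : ℝ≥0∞) + 2⁻¹ < 2⁻¹ + 2⁻¹ :=
      ENNReal.add_lt_add_right (by simp) (ENNReal.inv_lt_inv.2 (by norm_num))
    rw [ENNReal.inv_two_add_inv_two] at e3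
    exact absurd e2 e3.not_ge
  obtain ⟨C, hD1, hD2, hD3⟩ := (hm.union hBm).compl.exists_lt_isCompact_of_ne_top
    (measure_ne_top ρ _) (r := 0) (pos_iff_ne_zero.2 h4)
  refine ⟨C₀, C, hC2, hD2, hD3.ne', fun w hw => ?_, fun w hw => ?_, fun w hw k => ?_⟩
  · by_contra h
    exact hD1 hw (Or.inl h)
  · by_contra h
    exact hC1 hw (hN1 h)
  · by_contra h
    refine hD1 hw (Or.inr ⟨k, ?_⟩)
    rw [orb_apply _ _ _ hm]
    exact not_le.1 h

/-- Three sets of measure at most a quarter do not cover the ball. -/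
theorem hp_pick (k : ℤ) {A B C : Set ℚ_[p]} (hA : bm p k A ≤ 4⁻¹) (hB : bm p k B ≤ 4⁻¹)
    (hC : bm p k C ≤ 4⁻¹) : ∃ s, ‖s‖ ≤ (p : ℝ) ^ k ∧ s ∉ A ∧ s ∉ B ∧ s ∉ C := by
  by_contra h
  push Not at h
  have e1 : bm p k Set.univ ≤ bm p k (A ∪ B ∪ C) := by
    refine measure_mono_ae ?_
    filter_upwards [bm_ae p k] with s hs _
    by_cases h1 : s ∈ A
    · exact Or.inl (Or.inl h1)
    · by_cases h2 : s ∈ B
      · exact Or.inl (Or.inr h2)
      · exact Or.inr (h s hs h1 h2)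
  have e2 : bm p k (A ∪ B ∪ C) ≤ 4⁻¹ + 4⁻¹ + 4⁻¹ :=
    (measure_union_le _ _).trans (add_le_add ((measure_union_le _ _).trans (add_le_add hA hB)) hC)
  rw [measure_univ] at e1
  have e3 : (4⁻¹ : ℝ≥0∞) + 4⁻¹ + 4⁻¹ < 4⁻¹ + 4⁻¹ + 4⁻¹ + 4⁻¹ :=
    ENNReal.lt_add_right (by simp) (by simp)
  have e4 : (4⁻¹ : ℝ≥0∞) + 4⁻¹ + 4⁻¹ + 4⁻¹ = 1 := by
    rw [← ENNReal.mul_inv_cancel (a := 4) (by simp) (by simp)]; ring
  exact absurd (e1.trans e2) (e4 ▸ e3).not_ge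

theorem hprin (d : κ → ℚ_[p]) (m : κ) (hd : d m ≠ 0) (ρ : Measure (κ → XX p))
    [IsProbabilityMeasure ρ] (hρ : Erg (ufl p d) ρ) :
    (∀ s, Pi.mulSingle (M := fun _ => GG p) m (uP p s) ∈ Stab (κ → GG p) ρ) ∨
      ∃ C, IsCompact C ∧ ρ C ≠ 0 ∧ ∃ V ∈ 𝓝 (1 : κ → GG p), Rigid p ρ m C V := by
  obtain ⟨C₀, C, hC₀, hC, hC0, hsub, hgen, hfreq⟩ := hp_sets p d ρ hρ
  by_cases hV : ∃ V ∈ 𝓝 (1 : κ → GG p), Rigid p ρ m C V
  · exact Or.inr ⟨C, hC, hC0, hV⟩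
  left
  have hbad : ∀ V ∈ 𝓝 (1 : κ → GG p), ∃ w ∈ C, ∃ g ∈ V, g • w ∈ C ∧
      (∀ k, k ≠ m → (g k).2 = 1) ∧ ((g m).2 1 1 - (g m).2 0 0 ≠ 0 ∨ (g m).2 1 0 ≠ 0) := by
    intro V hV'
    by_contra h
    push Not at h
    refine hV ⟨V, hV', fun w hw g hg hgw hk => ?_⟩
    obtain ⟨h1, h2⟩ := h w hw g hg hgw hk
    have h3 : (g m).2 0 0 = (g m).2 1 1 := (sub_eq_zero.1 h1).symm
    refine ⟨hp_stab p d ρ (fun s => ?_) (hgen w (hsub hw)) (hgen _ (hsub hgw)), h2, h3⟩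
    funext k
    refine Prod.ext (by simp [hpU, uP]) ?_
    by_cases hk' : k = m
    · subst hk'
      exact hp_comm _ h2 h3
    · simp [hpU, uP, hk k hk']
  obtain ⟨V, hVb⟩ := (𝓝 (1 : κ → GG p)).exists_antitone_basis
  choose w hw g hg hgw hk hne using fun n => hbad (V n) (hVb.mem n)
  have hg1 : Tendsto g atTop (𝓝 1) := hVb.tendsto hg
  have hgk : ∀ k, Tendsto (fun n => g n k) atTop (𝓝 1) := fun k => tendsto_pi_nhds.1 hg1 k
  have hgm : ∀ i j, Tendsto (fun n => (g n m).2 i j) atTop (𝓝 ((1 : SL(2, ℚ_[p])) i j)) :=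
    hp_tendsto_SL.1 ((continuous_snd.tendsto _).comp (hgk m))
  have ha : Tendsto (fun n => (g n m).2 0 0) atTop (𝓝 1) := by simpa using hgm 0 0
  have hb : Tendsto (fun n => (g n m).2 0 1) atTop (𝓝 0) := by simpa using hgm 0 1
  have hc : Tendsto (fun n => (g n m).2 1 0) atTop (𝓝 0) := by simpa using hgm 1 0
  have he : Tendsto (fun n => (g n m).2 1 1) atTop (𝓝 1) := by simpa using hgm 1 1
  have hβ : Tendsto (fun n => ((g n m).2 1 1 - (g n m).2 0 0) * d m) atTop (𝓝 0) := by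
    simpa using (he.sub ha).mul_const (d m)
  have hγ : Tendsto (fun n => -(g n m).2 1 0 * d m ^ 2) atTop (𝓝 0) := by
    simpa using hc.neg.mul_const (d m ^ 2)
  have hsm : ∀ {f : ℕ → ℚ_[p]}, Tendsto f atTop (𝓝 0) → ∀ᶠ n in atTop, ‖f n‖ ≤ 1 := fun hf =>
    (tendsto_zero_iff_norm_tendsto_zero.1 hf).eventually (eventually_le_nhds one_pos)
  intro t
  set R : ℝ := max 1 ‖t‖ with hR
  have hR1 : 1 ≤ R := le_max_left _ _
  have hev : ∀ᶠ n in atTop, ∃ s : ℚ_[p], ufl p d s (w n) ∈ C₀ ∧ ufl p d s (g n • w n) ∈ C₀ ∧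
      R ≤ ‖(g n m).2 0 1 + ((g n m).2 1 1 - (g n m).2 0 0) * (d m * s) -
        (g n m).2 1 0 * (d m * s) ^ 2‖ ∧
      ‖(g n m).2 0 1 + ((g n m).2 1 1 - (g n m).2 0 0) * (d m * s) -
        (g n m).2 1 0 * (d m * s) ^ 2‖ ≤ R * (p : ℝ) ^ 10 ∧
      ‖(g n m).2 1 0 * (d m * s) ^ 2‖ ≤ R * (p : ℝ) ^ 10 := by
    filter_upwards [hsm hb, hsm hβ, hsm hγ] with n h1 h2 h3
    obtain ⟨k, hk1, hk2⟩ := hp_poly p hR1 h1 h2 h3 ((hne n).imp (fun h => mul_ne_zero h hd)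
      fun h => mul_ne_zero (neg_ne_zero.2 h) (pow_ne_zero 2 hd))
    obtain ⟨s, hs, hs1, hs2, hs3⟩ := hp_pick p k (hfreq _ (hw n) k) (hfreq _ (hgw n) k) hk2
    have e1 : (g n m).2 0 1 + ((g n m).2 1 1 - (g n m).2 0 0) * (d m * s) -
        (g n m).2 1 0 * (d m * s) ^ 2 = (g n m).2 0 1 + ((g n m).2 1 1 - (g n m).2 0 0) * d m * s +
          -(g n m).2 1 0 * d m ^ 2 * s ^ 2 := by ring
    have e2 : (g n m).2 1 0 * (d m * s) ^ 2 = -(-(g n m).2 1 0 * d m ^ 2 * s ^ 2) := by ring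
    refine ⟨s, not_not.1 hs1, not_not.1 hs2, ?_, ?_, ?_⟩
    · rw [e1]; exact (not_le.1 hs3).le
    · rw [e1]; exact (hk1 s hs).1
    · rw [e2, norm_neg]; exact (hk1 s hs).2
  obtain ⟨s, hs⟩ := hev.choice
  set Q : ℕ → ℚ_[p] := fun n => (g n m).2 0 1 + ((g n m).2 1 1 - (g n m).2 0 0) * (d m * s n) -
        (g n m).2 1 0 * (d m * s n) ^ 2 with hQ
  have hK : IsCompact (C₀ ×ˢ ({q : ℚ_[p] | R ≤ ‖q‖} ∩ Metric.closedBall 0 (R * (p : ℝ) ^ 10))) :=
    hC₀.prod ((isCompact_closedBall _ _).inter_left (isClosed_le continuous_const continuous_norm))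
  obtain ⟨⟨w₀, q⟩, ⟨hw₀, hq, -⟩, ψ, hψ, hlim⟩ := hK.tendsto_subseq'
    (x := fun n => (ufl p d (s n) (w n), Q n)) (hs.mono fun n hn =>
      ⟨hn.1, hn.2.2.1, mem_closedBall_zero_iff.2 hn.2.2.2.1⟩).frequently
  have hψ' : Tendsto ψ atTop atTop := hψ.tendsto_atTop
  have hl1 : Tendsto (fun n => ufl p d (s (ψ n)) (w (ψ n))) atTop (𝓝 w₀) :=
    (continuous_fst.tendsto _).comp hlim
  have hl2 : Tendsto (fun n => Q (ψ n)) atTop (𝓝 q) := (continuous_snd.tendsto _).comp hlim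
  have hcx : Tendsto (fun n => (g n m).2 1 0 * (d m * s n)) atTop (𝓝 0) := by
    have e1 : Tendsto (fun n => ‖(g n m).2 1 0 * (d m * s n)‖ ^ 2) atTop (𝓝 0) := by
      have e2 : Tendsto (fun n => ‖(g n m).2 1 0‖ * (R * (p : ℝ) ^ 10)) atTop (𝓝 0) := by
        simpa using (tendsto_zero_iff_norm_tendsto_zero.1 hc).mul_const (R * (p : ℝ) ^ 10)
      refine squeeze_zero' (Eventually.of_forall fun n => by positivity) ?_ e2
      filter_upwards [hs] with n hn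
      calc ‖(g n m).2 1 0 * (d m * s n)‖ ^ 2
          = ‖(g n m).2 1 0‖ * ‖(g n m).2 1 0 * (d m * s n) ^ 2‖ := by
            rw [← norm_pow, ← norm_mul]; congr 1; ring
        _ ≤ _ := mul_le_mul_of_nonneg_left hn.2.2.2.2 (norm_nonneg _)
    rw [tendsto_zero_iff_norm_tendsto_zero]
    have e3 := e1.sqrt
    simpa only [Real.sqrt_sq (norm_nonneg _), Real.sqrt_zero] using e3
  have hl3 : Tendsto (fun n => hpU p d (s (ψ n)) * g (ψ n) * (hpU p d (s (ψ n)))⁻¹) atTop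
      (𝓝 (Pi.mulSingle (M := fun _ => GG p) m (uP p q))) := by
    refine tendsto_pi_nhds.2 fun k => ?_
    by_cases hk' : k = m
    · subst hk'
      rw [Pi.mulSingle_eq_same]
      refine Tendsto.prodMk_nhds (mx := fun n => (hpU p d (s (ψ n)) * g (ψ n) *
        (hpU p d (s (ψ n)))⁻¹) k |>.1) (my := fun n => (hpU p d (s (ψ n)) * g (ψ n) *
        (hpU p d (s (ψ n)))⁻¹) k |>.2) ?_ ?_
      · have := ((continuous_fst.tendsto _).comp (hgk k)).comp hψ'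
        simpa [hpU, uP, Function.comp_def] using this
      · change Tendsto (fun n => uu (d k * s (ψ n)) * (g (ψ n) k).2 * (uu (d k * s (ψ n)))⁻¹) atTop
          (𝓝 (uu q))
        refine hp_tendsto_SL.2 fun i j => ?_
        fin_cases i <;> fin_cases j
        · have := (ha.add hcx).comp hψ'
          rw [add_zero] at this
          exact this.congr fun n => (hp_conj _ _).1.symm
        · exact hl2.congr fun n => (hp_conj _ _).2.1.symm
        · exact (hc.comp hψ').congr fun n => (hp_conj _ _).2.2.1.symm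
        · have := (he.sub hcx).comp hψ'
          rw [sub_zero] at this
          exact this.congr fun n => (hp_conj _ _).2.2.2.symm
    · rw [Pi.mulSingle_eq_of_ne hk']
      refine ((hgk k).comp hψ').congr fun n => ?_
      refine Prod.ext (by simp [hpU, uP]) ?_
      simp [hpU, uP, hk _ k hk']
  have hl4 : Pi.mulSingle (M := fun _ => GG p) m (uP p q) • w₀ ∈ C₀ := by
    refine hC₀.isClosed.mem_of_tendsto (hl3.smul hl1) ?_
    filter_upwards [hψ'.eventually hs] with n hn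
    have := hn.2.1
    rw [hp_ufl] at this ⊢
    rwa [← mul_smul, inv_mul_cancel_right, mul_smul]
  have hq' : R ≤ ‖q‖ := hq
  refine hp_fill p m ρ (hp_stab p d ρ (hp_single_comm p d m q) (hgen _ hw₀) (hgen _ hl4)) ?_
    ((le_max_right _ _).trans hq')
  rw [← norm_pos_iff]
  linarith

end Pool.Agent.EQ
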