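import Pool.Agent.P.MP_ad7a55_nt.HP

/-! The H-principle and local rigidity. -/

set_option autoImplicit false

noncomputable section

open MeasureTheory Topology Filter UpperHalfPlane
open scoped MatrixGroups ENNReal BoundedContinuousFunction

namespace Pool.Agent.EQ

variable (p : ℕ) [Fact p.Prime] {κ : Type} [Fintype κ] [DecidableEq κ]

/-- The real part of the stabiliser. -/
def StabR (ρ : Measure (κ → XX p)) : Subgroup (κ → SL(2, ℝ)) :=
  (Stab (κ → GG p) ρ).comap (MonoidHom.compLeft (MonoidHom.inl SL(2, ℝ) SL(2, ℚ_[p])) κ)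

omit [DecidableEq κ] in
theorem mem_StabR {ρ : Measure (κ → XX p)} {h : κ → SL(2, ℝ)} :
    h ∈ StabR p ρ ↔ (fun k => ((h k, 1) : GG p)) ∈ Stab (κ → GG p) ρ := Iff.rfl

omit [Fintype κ] [DecidableEq κ] in
/-- A compact piece of positive measure on which the coordinate `m` moves by small elements. -/
theorem hp2_piece (ρ : Measure (κ → XX p)) (m : κ) {C : Set (κ → XX p)} (hC : IsCompact C)
    (h0 : ρ C ≠ 0) {N : Set (GG p)} (hN : N ∈ 𝓝 (1 : GG p)) :
    ∃ D, D ⊆ C ∧ IsCompact D ∧ ρ D ≠ 0 ∧ ∀ w ∈ D, ∀ w' ∈ D, ∃ g ∈ N, w' m = g • w m := by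
  have hc : Continuous fun x : GG p × GG p => x.1 * x.2⁻¹ := by fun_prop
  have h1 : (fun x : GG p × GG p => x.1 * x.2⁻¹) ⁻¹' N ∈ 𝓝 ((1, 1) : GG p × GG p) :=
    hc.continuousAt.preimage_mem_nhds (by simpa using hN)
  rw [nhds_prod_eq, Filter.mem_prod_self_iff] at h1
  obtain ⟨T, hT, hTN⟩ := h1
  obtain ⟨V1, hV1, hV1T, hV1c⟩ := local_compact_nhds hT
  let U : (κ → XX p) → Set (κ → XX p) := fun w => {w' | w' m ∈ (fun g : GG p => g • w m) '' V1}
  have hU : ∀ w ∈ C, U w ∈ 𝓝 w := fun w _ =>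
    (continuous_apply m).continuousAt.preimage_mem_nhds (exists_nhds_smul p (w m) hV1)
  have hUc : ∀ w, IsClosed (U w) := fun w =>
    ((hV1c.image (continuous_id.smul continuous_const)).isClosed).preimage (continuous_apply m)
  obtain ⟨t, -, ht⟩ := hC.elim_nhds_subcover U hU
  have hex : ∃ w ∈ t, ρ (C ∩ U w) ≠ 0 := by
    by_contra hcon
    push Not at hcon
    apply h0
    have h2 : C ⊆ ⋃ w ∈ t, C ∩ U w := by
      intro x hx
      obtain ⟨w, hw, hxw⟩ := Set.mem_iUnion₂.1 (ht hx)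
      exact Set.mem_iUnion₂.2 ⟨w, hw, hx, hxw⟩
    exact measure_mono_null h2 ((measure_biUnion_null_iff t.countable_toSet).2 hcon)
  obtain ⟨w0, -, hw0⟩ := hex
  refine ⟨C ∩ U w0, Set.inter_subset_left, hC.inter_right (hUc w0), hw0, ?_⟩
  rintro w ⟨-, v, hv, hw⟩ w' ⟨-, v', hv', hw'⟩
  refine ⟨v' * v⁻¹, hTN (Set.mk_mem_prod (hV1T hv') (hV1T hv)), ?_⟩
  rw [← hw, ← hw']
  simp [mul_smul]

/-- A compact set of positive invariant measure meets its small translates. -/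
theorem hp2_meet {H W : Type} [Group H] [TopologicalSpace H] [TopologicalSpace W] [PolishSpace W]
    [MeasurableSpace W] [BorelSpace W] [MulAction H W] [ContinuousSMul H W] (μ : Measure W)
    [IsFiniteMeasure μ] (hμ : ∀ g : H, μ.map (fun w => g • w) = μ) {E : Set W} (hE : IsCompact E)
    (h0 : μ E ≠ 0) : ∀ᶠ g : H in 𝓝 1, ∃ x ∈ E, g • x ∈ E := by
  have hlt : μ E < μ E + μ E := ENNReal.lt_add_right (measure_ne_top _ _) h0
  obtain ⟨O, hEO, hO, hμO⟩ := E.exists_isOpen_lt_of_lt _ hlt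
  have h1 : ∀ᶠ g : H in 𝓝 1, ∀ x ∈ E, g⁻¹⁻¹ • x ∈ O := by
    refine hE.eventually_forall_of_forall_eventually fun x hx => ?_
    have hc : Continuous fun z : H × W => z.1 • z.2 := continuous_fst.smul continuous_snd
    have : (fun z : H × W => z.1 • z.2) ⁻¹' O ∈ 𝓝 ((1, x) : H × W) :=
      hc.continuousAt.preimage_mem_nhds (hO.mem_nhds (by simpa using hEO hx))
    filter_upwards [this] with z hz
    simpa using hz
  filter_upwards [h1] with g hg
  by_contra hcon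
  push Not at hcon
  have hm : Measurable fun w : W => g⁻¹ • w := (continuous_const_smul g⁻¹).measurable
  have hEm : MeasurableSet E := hE.isClosed.measurableSet
  have h2 : μ ((fun w : W => g⁻¹ • w) ⁻¹' E) = μ E := by
    rw [← Measure.map_apply hm hEm, hμ]
  have h3 : Disjoint E ((fun w : W => g⁻¹ • w) ⁻¹' E) := by
    rw [Set.disjoint_left]
    intro x hx hx'
    exact hcon _ hx' (by simpa using hx)
  have h4 : E ∪ (fun w : W => g⁻¹ • w) ⁻¹' E ⊆ O := by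
    refine Set.union_subset hEO fun x hx => ?_
    simpa using hg _ hx
  have h5 := measure_mono (μ := μ) h4
  rw [measure_union h3 (hm hEm), h2] at h5
  exact absurd hμO (not_lt.2 h5)

/-- A subgroup of `SL₂(ℝ)` that is a neighbourhood of `1` is everything. -/
theorem hp2_top (S : Subgroup SL(2, ℝ)) (hS : (S : Set SL(2, ℝ)) ∈ 𝓝 (1 : SL(2, ℝ))) : S = ⊤ := by
  have ho : IsOpen (S : Set SL(2, ℝ)) := S.isOpen_of_mem_nhds hS
  have hcl : IsClopen (S : Set SL(2, ℝ)) := ⟨S.isClosed_of_isOpen ho, ho⟩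
  refine SL2_gen S (fun x => ?_) (fun x => ?_)
  · have := (hcl.preimage (continuous_uu (R := ℝ))).eq_univ ⟨0, by simp⟩
    exact (this.symm ▸ Set.mem_univ x : x ∈ uu ⁻¹' (S : Set SL(2, ℝ)))
  · have := (hcl.preimage (continuous_ul (R := ℝ))).eq_univ ⟨0, by simp⟩
    exact (this.symm ▸ Set.mem_univ x : x ∈ ul ⁻¹' (S : Set SL(2, ℝ)))

/-- Upper triangular elements with equal diagonal entries. -/
def hp2B (F : Type) [Field F] : Subgroup SL(2, F) where
  carrier := {b | b 1 0 = 0 ∧ b 0 0 = b 1 1}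
  one_mem' := by simp
  mul_mem' := fun {a b} ha hb => by
    obtain ⟨ha1, ha2⟩ := ha
    obtain ⟨hb1, hb2⟩ := hb
    constructor <;>
      simp [Matrix.SpecialLinearGroup.coe_mul, Matrix.mul_apply, Fin.sum_univ_two, ha1, hb1, ha2,
        hb2]
  inv_mem' := fun {a} ha => by
    obtain ⟨ha1, ha2⟩ := ha
    rw [Set.mem_ofPred_eq, Matrix.SpecialLinearGroup.SL2_inv_expl]
    constructor <;> simp [ha1, ha2]

theorem hp2B_comm {F : Type} [Field F] {a b : SL(2, F)} (ha : a ∈ hp2B F) (hb : b ∈ hp2B F) :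
    a * b = b * a := by
  obtain ⟨ha1, ha2⟩ := ha
  obtain ⟨hb1, hb2⟩ := hb
  ext i j
  fin_cases i <;> fin_cases j <;>
    simp [Matrix.SpecialLinearGroup.coe_mul, Matrix.mul_apply, Fin.sum_univ_two, ha1, hb1, ha2,
      hb2] <;> ring

/-- The pair of coordinates `k`, `m` as a homomorphism. -/
def hp2Phi {A : Type} [Group A] {k m : κ} (hk : k ≠ m) : A × A →* (κ → A) :=
  (MonoidHom.mulSingle (fun _ => A) k).noncommCoprod (MonoidHom.mulSingle (fun _ => A) m)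
    fun x y => Pi.mulSingle_commute (f := fun _ => A) hk x y

omit [Fintype κ] in
theorem hp2Phi_apply {A : Type} [Group A] {k m : κ} (hk : k ≠ m) (x y : A) :
    hp2Phi hk (x, y) = Pi.mulSingle (M := fun _ => A) k x * Pi.mulSingle (M := fun _ => A) m y :=
  rfl

omit [Fintype κ] in
theorem hp2Phi_cont {A : Type} [Group A] [TopologicalSpace A] [IsTopologicalGroup A] {k m : κ}
    (hk : k ≠ m) : Continuous (hp2Phi (A := A) hk) :=
  ((continuous_mulSingle (A := fun _ => A) k).comp continuous_fst).mul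
    ((continuous_mulSingle (A := fun _ => A) m).comp continuous_snd)

omit [Fintype κ] in
theorem hp2_single (k : κ) (a : SL(2, ℝ)) (j : κ) :
    Pi.mulSingle (M := fun _ => GG p) k (a, 1) j =
      (Pi.mulSingle (M := fun _ => SL(2, ℝ)) k a j, 1) := by
  by_cases h : j = k
  · subst h; simp
  · simp [Pi.mulSingle_eq_of_ne h, Prod.one_eq_mk]

/-- Small real elements in the coordinate `k` have a partner in the coordinate `m`. -/
theorem hp2_near (ρ : Measure (κ → XX p)) [IsProbabilityMeasure ρ] (m : κ)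
    (hr : ρ.map (res p m) = mP p {j // j ≠ m}) {C : Set (κ → XX p)} (hC : IsCompact C)
    (h0 : ρ C ≠ 0) {V : Set (κ → GG p)} (hV : V ∈ 𝓝 (1 : κ → GG p)) (h : Rigid p ρ m C V)
    (k : κ) (hk : k ≠ m) : ∀ᶠ a : SL(2, ℝ) in 𝓝 1, ∃ g : GG p, g.2 ∈ hp2B ℚ_[p] ∧
      hp2Phi hk (((a, 1) : GG p), g) ∈ Stab (κ → GG p) ρ := by
  have h1 : hp2Phi (A := GG p) hk ⁻¹' V ∈ 𝓝 ((1, 1) : GG p × GG p) :=
    (hp2Phi_cont hk).continuousAt.preimage_mem_nhds (by
      rw [show ((1, 1) : GG p × GG p) = 1 from rfl, map_one]; exact hV)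
  rw [nhds_prod_eq, Filter.mem_prod_self_iff] at h1
  obtain ⟨T, hT, hTV⟩ := h1
  obtain ⟨D, hDC, hD, hD0, hDT⟩ := hp2_piece p ρ m hC h0 hT
  have hE : IsCompact (res p m '' D) := hD.image (continuous_res p m)
  have hE0 : mP p {j // j ≠ m} (res p m '' D) ≠ 0 := by
    rw [← hr, Measure.map_apply (continuous_res p m).measurable hE.isClosed.measurableSet]
    exact fun h' => hD0 (measure_mono_null (Set.subset_preimage_image _ _) h')
  have h2 := hp2_meet (H := {j // j ≠ m} → GG p) _ (mP_inv p) hE hE0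
  have hc1 : Continuous fun a : SL(2, ℝ) => ((a, 1) : GG p) := continuous_id.prodMk continuous_const
  have hc2 : Continuous fun a : SL(2, ℝ) => fun j : {j // j ≠ m} =>
      Pi.mulSingle (M := fun _ => GG p) k ((a, 1) : GG p) j.1 :=
    continuous_pi fun j => (continuous_apply j.1).comp
      ((continuous_mulSingle (A := fun _ => GG p) k).comp hc1)
  have h3 : ∀ᶠ a : SL(2, ℝ) in 𝓝 1, ((a, 1) : GG p) ∈ T := hc1.continuousAt.preimage_mem_nhds hT
  have h4 : Tendsto (fun a : SL(2, ℝ) => fun j : {j // j ≠ m} =>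
      Pi.mulSingle (M := fun _ => GG p) k ((a, 1) : GG p) j.1) (𝓝 1) (𝓝 1) := by
    have := hc2.tendsto 1
    rw [show (((1 : SL(2, ℝ)), 1) : GG p) = 1 from rfl, Pi.mulSingle_one] at this
    exact this
  filter_upwards [h3, h4.eventually h2] with a ha hx
  obtain ⟨_, ⟨w, hw, rfl⟩, w', hw', hww⟩ := hx
  obtain ⟨g, hg, hgw⟩ := hDT w hw w' hw'
  have hm : hp2Phi hk (((a, 1) : GG p), g) m = g := by
    rw [hp2Phi_apply, Pi.mul_apply, Pi.mulSingle_eq_of_ne hk.symm, Pi.mulSingle_eq_same, one_mul]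
  have hj : ∀ j, j ≠ m → hp2Phi hk (((a, 1) : GG p), g) j =
      Pi.mulSingle (M := fun _ => GG p) k ((a, 1) : GG p) j := fun j hj => by
    rw [hp2Phi_apply, Pi.mul_apply, Pi.mulSingle_eq_of_ne hj, mul_one]
  have he : hp2Phi hk (((a, 1) : GG p), g) • w = w' := by
    funext j
    rw [Pi.smul_apply']
    by_cases hjm : j = m
    · subst hjm; rw [hm, hgw]
    · rw [hj j hjm]; exact (congrFun hww ⟨j, hjm⟩).symm
  obtain ⟨h5, h6, h7⟩ := h w (hDC hw) _ (hTV (Set.mk_mem_prod ha hg)) (he ▸ hDC hw')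
    fun j hjm => by rw [hj j hjm, hp2_single]
  rw [hm] at h6 h7
  exact ⟨g, ⟨h6, h7⟩, h5⟩

theorem rigid_full (ρ : Measure (κ → XX p)) [IsProbabilityMeasure ρ] (m : κ)
    (hr : ρ.map (res p m) = mP p {j // j ≠ m}) {C : Set (κ → XX p)} (hC : IsCompact C)
    (h0 : ρ C ≠ 0) {V : Set (κ → GG p)} (hV : V ∈ 𝓝 (1 : κ → GG p)) (h : Rigid p ρ m C V)
    (k : κ) (hk : k ≠ m) (a : SL(2, ℝ)) : ∃ g : SL(2, ℝ),
      Pi.mulSingle (M := fun _ => SL(2, ℝ)) k a * Pi.mulSingle (M := fun _ => SL(2, ℝ)) m g ∈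
        StabR p ρ := by
  let M : Subgroup (SL(2, ℝ) × GG p) :=
    (Stab (κ → GG p) ρ).comap ((hp2Phi hk).comp
      ((MonoidHom.inl SL(2, ℝ) SL(2, ℚ_[p])).prodMap (MonoidHom.id (GG p)))) ⊓
    (hp2B ℚ_[p]).comap ((MonoidHom.snd _ _).comp (MonoidHom.snd _ _))
  have hM : ∀ (a : SL(2, ℝ)) (g : GG p), (a, g) ∈ M ↔
      hp2Phi hk (((a, 1) : GG p), g) ∈ Stab (κ → GG p) ρ ∧ g.2 ∈ hp2B ℚ_[p] :=
    fun a g => Iff.rfl
  have h1 : M.map (MonoidHom.fst _ _) = ⊤ := by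
    refine hp2_top _ ?_
    filter_upwards [hp2_near p ρ m hr hC h0 hV h k hk] with b hb
    obtain ⟨g, hg, hg'⟩ := hb
    exact ⟨(b, g), (hM b g).2 ⟨hg', hg⟩, rfl⟩
  have h2 : ∀ b : SL(2, ℝ), ∃ g : GG p, (b, g) ∈ M := fun b => by
    have : b ∈ M.map (MonoidHom.fst _ _) := h1 ▸ Subgroup.mem_top b
    obtain ⟨⟨b', g⟩, hg, rfl⟩ := this
    exact ⟨g, hg⟩
  have h3 : ((StabR p ρ).comap (hp2Phi hk)).map (MonoidHom.fst _ _) = ⊤ := by
    refine SL2_perfect _ fun b c => ?_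
    obtain ⟨g, hg⟩ := h2 b
    obtain ⟨g', hg'⟩ := h2 c
    have h4 : (b * c * b⁻¹ * c⁻¹, g * g' * g⁻¹ * g'⁻¹) ∈ M := by
      have := M.mul_mem (M.mul_mem (M.mul_mem hg hg') (M.inv_mem hg)) (M.inv_mem hg')
      simpa only [Prod.inv_mk, Prod.mk_mul_mk] using this
    have h5 : (g * g' * g⁻¹ * g'⁻¹).2 = 1 := by
      change g.2 * g'.2 * g.2⁻¹ * g'.2⁻¹ = 1
      rw [hp2B_comm ((hM b g).1 hg).2 ((hM c g').1 hg').2]
      group
    refine ⟨(b * c * b⁻¹ * c⁻¹, (g * g' * g⁻¹ * g'⁻¹).1), ?_, rfl⟩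
    have h6 := ((hM _ _).1 h4).1
    rw [show g * g' * g⁻¹ * g'⁻¹ = ((g * g' * g⁻¹ * g'⁻¹).1, 1) from Prod.ext rfl h5] at h6
    change hp2Phi hk _ ∈ StabR p ρ
    rw [mem_StabR]
    refine (congrArg (· ∈ Stab (κ → GG p) ρ) ?_).mpr h6
    funext j
    rw [hp2Phi_apply, hp2Phi_apply, Pi.mul_apply, Pi.mul_apply, hp2_single, hp2_single]
    exact Prod.ext rfl (one_mul _).symm
  have : a ∈ ((StabR p ρ).comap (hp2Phi hk)).map (MonoidHom.fst _ _) := h3 ▸ Subgroup.mem_top a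
  obtain ⟨⟨a', g⟩, hg, rfl⟩ := this
  exact ⟨g, hg⟩

theorem rigid_atom (ρ : Measure (κ → XX p)) [IsProbabilityMeasure ρ] (m : κ)
    {C : Set (κ → XX p)} (hC : IsCompact C)
    (h0 : ρ C ≠ 0) {V : Set (κ → GG p)} (hV : V ∈ 𝓝 (1 : κ → GG p)) (h : Rigid p ρ m C V)
    (hc : ∀ g : SL(2, ℝ), Pi.mulSingle (M := fun _ => SL(2, ℝ)) m g ∈ StabR p ρ → g = 1 ∨ g = -1)
    (hs : ∀ g : SL(2, ℝ), ∃ h ∈ StabR p ρ, h m = g) :
    ∃ D, IsCompact D ∧ ρ D ≠ 0 ∧ ∀ w ∈ D, ∀ w' ∈ D, (∀ k, k ≠ m → w k = w' k) →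
      toY p (w m) = toY p (w' m) := by
  have hN1 : (fun g : GG p => Pi.mulSingle (M := fun _ => GG p) m g) ⁻¹' V ∈ 𝓝 (1 : GG p) :=
    (continuous_mulSingle (A := fun _ => GG p) m).continuousAt.preimage_mem_nhds (by
      rw [Pi.mulSingle_one]; exact hV)
  have hN2 : Prod.snd ⁻¹' (Kp p : Set SL(2, ℚ_[p])) ∈ 𝓝 (1 : GG p) :=
    ((Kp_open p).preimage continuous_snd).mem_nhds (Kp p).one_mem
  obtain ⟨D, hDC, hD, hD0, hDT⟩ := hp2_piece p ρ m hC h0 (inter_mem hN1 hN2)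
  refine ⟨D, hD, hD0, fun w hw w' hw' hww => ?_⟩
  obtain ⟨g, ⟨hgV, hgK⟩, hgw⟩ := hDT w hw w' hw'
  have he : Pi.mulSingle (M := fun _ => GG p) m g • w = w' := by
    funext j
    rw [Pi.smul_apply']
    by_cases hjm : j = m
    · subst hjm; rw [Pi.mulSingle_eq_same, hgw]
    · rw [Pi.mulSingle_eq_of_ne hjm, one_smul, hww j hjm]
  obtain ⟨h5, -, -⟩ := h w (hDC hw) (Pi.mulSingle (M := fun _ => GG p) m g) hgV (he ▸ hDC hw')
    fun j hjm => by rw [Pi.mulSingle_eq_of_ne hjm]; rfl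
  have h6 : g.1 = 1 ∨ g.1 = -1 := by
    refine eq_pm_of_commutator fun a => hc _ ?_
    obtain ⟨b, hb, rfl⟩ := hs a
    rw [mem_StabR] at hb ⊢
    have h7 := Subgroup.mul_mem _ (Subgroup.mul_mem _ (Subgroup.mul_mem _ h5 hb)
      (Subgroup.inv_mem _ h5)) (Subgroup.inv_mem _ hb)
    refine (congrArg (· ∈ Stab (κ → GG p) ρ) ?_).mpr h7
    funext j
    simp only [Pi.mul_apply, Pi.inv_apply]
    by_cases hjm : j = m
    · subst hjm
      rw [Pi.mulSingle_eq_same, Pi.mulSingle_eq_same]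
      exact Prod.ext rfl (by simp)
    · rw [Pi.mulSingle_eq_of_ne hjm, Pi.mulSingle_eq_of_ne hjm]
      exact Prod.ext (by simp) (by simp)
  rw [hgw, toY_smul p hgK]
  rcases h6 with h6 | h6
  · rw [h6, one_smul]
  · rw [h6, neg_one_smul_YY]

end Pool.Agent.EQ
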