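import Pool.Agent.P.MP_ad7a55_nt.Grp
import Pool.Agent.P.MP_ad7a55_nt.Lift2

/-! Uniqueness of invariant measures on X. -/

set_option autoImplicit false

noncomputable section

open MeasureTheory Topology Filter UpperHalfPlane
open scoped MatrixGroups ENNReal BoundedContinuousFunction

namespace Pool.Agent.EQ

section gen

variable {B : Type} [Group B] [TopologicalSpace B] [IsTopologicalGroup B] [PolishSpace B]
  [LocallyCompactSpace B] [MeasurableSpace B] [BorelSpace B]

/-- Right invariance under a dense set gives right invariance. -/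
theorem haara_dense (τ : Measure B) [IsFiniteMeasureOnCompacts τ] {D : Set B} (hD : Dense D)
    (h : ∀ b ∈ D, τ.map (· * b) = τ) : τ.IsMulRightInvariant := by
  refine ⟨fun b => ?_⟩
  have : IsFiniteMeasureOnCompacts (τ.map (· * b)) :=
    Measure.IsFiniteMeasureOnCompacts.map τ (Homeomorph.mulRight b)
  let := TopologicalSpace.upgradeIsCompletelyMetrizable B
  refine Measure.ext_of_integral_eq_on_compactlySupported fun f => ?_
  have hf : Continuous f := f.continuous
  have e : ∀ c : B, ∫ x, f x ∂(τ.map (· * c)) = ∫ y, f (y⁻¹ * c) ∂τ.inv := by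
    intro c
    rw [integral_map (measurable_mul_const c).aemeasurable hf.aestronglyMeasurable,
      Measure.inv_def, integral_map measurable_inv.aemeasurable
        (show Continuous fun y : B => f (y⁻¹ * c) by fun_prop).aestronglyMeasurable]
    simp
  have hc : Continuous fun c : B => ∫ y, f (y⁻¹ * c) ∂τ.inv :=
    continuous_integral_apply_inv_mul hf f.hasCompactSupport
  have hE : (fun c : B => ∫ y, f (y⁻¹ * c) ∂τ.inv) = fun _ => ∫ x, f x ∂τ :=
    Continuous.ext_on hD hc continuous_const fun c hcD => by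
      rw [← e c, h c hcD]
  rw [e b]
  exact congrFun hE b

/-- On a unimodular group right invariance gives left invariance. -/
theorem haara_left (μ : Measure B) [μ.IsHaarMeasure] [μ.IsMulRightInvariant] (τ : Measure B)
    [IsFiniteMeasureOnCompacts τ] [τ.IsMulRightInvariant] : τ.IsMulLeftInvariant := by
  have h1 := Measure.isMulLeftInvariant_eq_smul τ.inv μ
  have : τ.inv.IsMulRightInvariant := by rw [h1]; infer_instance
  have h2 : τ.inv.inv.IsMulLeftInvariant := inferInstance
  rwa [Measure.inv_inv] at h2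

variable {A : Type} [Group A] [TopologicalSpace A] [IsTopologicalGroup A] [PolishSpace A]
  [LocallyCompactSpace A] [MeasurableSpace A] [BorelSpace A]

theorem haara_prod (μA : Measure A) [μA.IsHaarMeasure] [μA.IsMulRightInvariant]
    (μB : Measure B) [μB.IsHaarMeasure] [μB.IsMulRightInvariant]
    (ν : Measure (A × B)) [IsFiniteMeasureOnCompacts ν]
    (hl : ∀ a : A, ν.map (fun w => (a * w.1, w.2)) = ν) {D : Set B} (hD : Dense D)
    (hr : ∀ b ∈ D, ∃ a : A, ν.map (fun w => (w.1 * a, w.2 * b)) = ν) (b : B) :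
    ν.map (fun w => (w.1, b * w.2)) = ν := by
  obtain ⟨K⟩ : Nonempty (CompactExhaustion B) := inferInstance
  obtain ⟨τ, hτ, rfl⟩ := prod_haar μA ν hl (fun n => K n)
    (fun n => (K.isCompact n).measurableSet) K.iUnion_eq
    (fun n C hC => (hC.prod (K.isCompact n)).measure_lt_top)
  have : IsFiniteMeasureOnCompacts τ := ⟨fun C hC => by
    obtain ⟨n, hn⟩ := K.exists_superset_of_isCompact hC
    exact (measure_mono hn).trans_lt (hτ n)⟩
  obtain ⟨U, hU, hU1⟩ := exists_compact_mem_nhds (1 : A)
  have hU0 : μA U ≠ 0 := (Measure.measure_pos_of_mem_nhds μA hU1).ne'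
  have hUt : μA U ≠ ∞ := hU.measure_lt_top.ne
  have : τ.IsMulRightInvariant := haara_dense τ hD fun c hc => by
    obtain ⟨a, ha⟩ := hr c hc
    have h1 : (μA.prod τ).map (fun w => (w.1 * a, w.2 * c)) =
        (μA.map (· * a)).prod (τ.map (· * c)) :=
      (Measure.map_prod_map μA τ (measurable_mul_const a) (measurable_mul_const c)).symm
    rw [h1, map_mul_right_eq_self] at ha
    ext E hE
    have h2 := congrArg (fun m : Measure (A × B) => m (U ×ˢ E)) ha
    simp only [Measure.prod_prod] at h2
    exact (ENNReal.mul_right_inj hU0 hUt).1 h2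
  have := haara_left μB τ
  have h1 : (μA.prod τ).map (fun w => (w.1, b * w.2)) = (μA.map id).prod (τ.map (b * ·)) :=
    (Measure.map_prod_map μA τ measurable_id (measurable_const_mul b)).symm
  rw [h1, Measure.map_id, map_mul_left_eq_self]

end gen

variable (p : ℕ) [Fact p.Prime]

/-- The lift of a measure on `X` to `G`. -/
def haara_L (s : XX p → GG p) (μ : Measure (XX p)) : Measure (GG p) :=
  (lift (Γ := Gam p) s (μ.map fun x => (x, ()))).map Prod.fst

theorem haara_disc : Disc (Gam p) := fun _ => Gam_finite p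

variable {p}

theorem haara_meas : Measurable fun x : XX p => (x, ()) := measurable_id.prodMk measurable_const

theorem haara_L_left {s : XX p → GG p} (hs : IsSec s) (μ : Measure (XX p)) (g : GG p) :
    (haara_L p s μ).map (g * ·) = haara_L p s (μ.map (g • ·)) := by
  have h := lift_left (haara_disc p) hs (μ.map fun x => (x, ())) g measurable_id
  have m1 : Measurable fun w : XX p × Unit => (g • w.1, id w.2) :=
    ((measurable_const_smul g).comp measurable_fst).prodMk measurable_snd
  have m2 : Measurable fun w : GG p × Unit => (g * w.1, id w.2) :=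
    ((measurable_const_mul g).comp measurable_fst).prodMk measurable_snd
  rw [Measure.map_map m1 haara_meas] at h
  unfold haara_L
  rw [Measure.map_map (measurable_const_mul g) measurable_fst,
    Measure.map_map haara_meas (measurable_const_smul g)]
  have h' := congrArg (Measure.map Prod.fst) h
  rw [Measure.map_map measurable_fst m2] at h'
  exact h'

theorem haara_L_right {s : XX p → GG p} (hs : IsSec s) (μ : Measure (XX p)) {γ : GG p}
    (hγ : γ ∈ Gam p) : (haara_L p s μ).map (· * γ) = haara_L p s μ := by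
  have h := lift_right (haara_disc p) hs (μ.map fun x => (x, ())) hγ
  have m2 : Measurable fun w : GG p × Unit => (w.1 * γ, w.2) :=
    ((measurable_mul_const γ).comp measurable_fst).prodMk measurable_snd
  unfold haara_L
  rw [Measure.map_map (measurable_mul_const γ) measurable_fst]
  have h' := congrArg (Measure.map Prod.fst) h
  rw [Measure.map_map measurable_fst m2] at h'
  exact h'

theorem haara_L_fin {s : XX p → GG p} (hs : IsSec s) (μ : Measure (XX p)) [IsFiniteMeasure μ] :
    IsFiniteMeasureOnCompacts (haara_L p s μ) := ⟨fun C hC => by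
  have h := lift_fin (haara_disc p) hs (μ.map fun x => (x, ())) hC
  unfold haara_L
  rw [Measure.map_apply measurable_fst hC.measurableSet]
  rwa [Set.prod_univ] at h⟩

theorem haara_L_inj {s : XX p → GG p} (hs : IsSec s) {μ μ' : Measure (XX p)}
    (h : haara_L p s μ = haara_L p s μ') : μ = μ' := by
  have m : Measurable fun x : GG p => (x, ()) := measurable_id.prodMk measurable_const
  have e : ∀ ν : Measure (GG p × Unit), (ν.map Prod.fst).map (fun x => (x, ())) = ν := fun ν => by
    rw [Measure.map_map m measurable_fst]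
    exact Measure.map_id
  have e' : ∀ ν : Measure (XX p), (ν.map fun x => (x, ())).map Prod.fst = ν := fun ν => by
    rw [Measure.map_map measurable_fst haara_meas]
    exact Measure.map_id
  have h' := congrArg (Measure.map fun x : GG p => (x, ())) h
  unfold haara_L at h'
  rw [e, e] at h'
  have h2 := congrArg (Measure.map Prod.fst) (lift_inj (haara_disc p) hs h')
  rwa [e', e'] at h2

theorem haara_L_smul (s : XX p → GG p) (μ : Measure (XX p)) (c : ℝ≥0∞) :
    haara_L p s (c • μ) = c • haara_L p s μ := by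
  unfold haara_L
  rw [Measure.map_smul, lift_smul, Measure.map_smul]

theorem haara_stab {s : XX p → GG p} (hs : IsSec s) (μ : Measure (XX p)) (g : GG p) :
    g ∈ Stab (GG p) μ ↔ (haara_L p s μ).map (g * ·) = haara_L p s μ := by
  rw [haara_L_left hs, mem_Stab]
  exact ⟨fun h => by rw [h], haara_L_inj hs⟩

variable (p)

theorem inv_of_R (μ : Measure (XX p)) [IsFiniteMeasure μ]
    (h : ∀ g : SL(2, ℝ), ((g, 1) : GG p) ∈ Stab (GG p) μ) (g : GG p) : g ∈ Stab (GG p) μ := by
  obtain ⟨s, hs⟩ := exists_sec (haara_disc p)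
  have := haara_L_fin hs μ
  have := unimod (Measure.haar : Measure SL(2, ℝ))
  have := unimod (Measure.haar : Measure SL(2, ℚ_[p]))
  have h2 : (((1 : SL(2, ℝ)), g.2) : GG p) ∈ Stab (GG p) μ := by
    rw [haara_stab hs]
    have := haara_prod Measure.haar Measure.haar (haara_L p s μ) (fun a => by
      have h1 := (haara_stab hs μ _).1 (h a)
      have e : (fun w : GG p => ((a, 1) : GG p) * w) = fun w => (a * w.1, w.2) := by
        ext1 w; simp [Prod.ext_iff]
      rwa [e] at h1) (dense_snd p) (by
      rintro _ ⟨γ, hγ, rfl⟩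
      exact ⟨γ.1, haara_L_right hs μ hγ⟩) g.2
    have e : (fun w : GG p => (((1 : SL(2, ℝ)), g.2) : GG p) * w) = fun w => (w.1, g.2 * w.2) := by
      ext1 w; simp [Prod.ext_iff]
    rwa [e]
  simpa using mul_mem (h g.1) h2

theorem inv_of_P (μ : Measure (XX p)) [IsFiniteMeasure μ]
    (h : ∀ g : SL(2, ℚ_[p]), ((1, g) : GG p) ∈ Stab (GG p) μ) (g : GG p) : g ∈ Stab (GG p) μ := by
  obtain ⟨s, hs⟩ := exists_sec (haara_disc p)
  have := haara_L_fin hs μ
  have := unimod (Measure.haar : Measure SL(2, ℝ))
  have := unimod (Measure.haar : Measure SL(2, ℚ_[p]))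
  have : IsFiniteMeasureOnCompacts ((haara_L p s μ).map Prod.swap) :=
    Measure.IsFiniteMeasureOnCompacts.map _ (Homeomorph.prodComm _ _)
  have sw : ∀ (T : GG p → GG p) (T' : SL(2, ℚ_[p]) × SL(2, ℝ) → SL(2, ℚ_[p]) × SL(2, ℝ)),
      Measurable T → Measurable T' → T' ∘ Prod.swap = Prod.swap ∘ T →
      (((haara_L p s μ).map Prod.swap).map T' = (haara_L p s μ).map Prod.swap ↔
        (haara_L p s μ).map T = haara_L p s μ) := fun T T' hT hT' e => by
    rw [Measure.map_map hT' measurable_swap, e, ← Measure.map_map measurable_swap hT]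
    exact (MeasurableEquiv.prodComm.measurableEmbedding.map_injective).eq_iff
  have h2 : ((g.1, (1 : SL(2, ℚ_[p]))) : GG p) ∈ Stab (GG p) μ := by
    rw [haara_stab hs]
    have := haara_prod Measure.haar Measure.haar ((haara_L p s μ).map Prod.swap) (fun a =>
      (sw _ _ (measurable_const_mul _) (by fun_prop) (by ext1 w; simp [Prod.ext_iff])).2
        ((haara_stab hs μ _).1 (h a))) (dense_fst p) (by
      rintro _ ⟨γ, hγ, rfl⟩
      exact ⟨γ.2, (sw _ _ (measurable_mul_const _) (by fun_prop)
        (by ext1 w; simp [Prod.ext_iff])).2 (haara_L_right hs μ hγ)⟩) g.1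
    exact (sw _ _ (measurable_const_mul _) (by fun_prop) (by ext1 w; simp [Prod.ext_iff])).1 this
  simpa using mul_mem h2 (h g.2)

theorem uniq_inv (μ μ' : Measure (XX p)) [IsFiniteMeasure μ] [IsProbabilityMeasure μ']
    (h : ∀ g, g ∈ Stab (GG p) μ) (h' : ∀ g, g ∈ Stab (GG p) μ') : μ = μ Set.univ • μ' := by
  obtain ⟨s, hs⟩ := exists_sec (haara_disc p)
  have := haara_L_fin hs μ
  have := haara_L_fin hs μ'
  have : (haara_L p s μ).IsMulLeftInvariant := ⟨fun g => (haara_stab hs μ g).1 (h g)⟩
  have : (haara_L p s μ').IsMulLeftInvariant := ⟨fun g => (haara_stab hs μ' g).1 (h' g)⟩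
  obtain ⟨c, hc⟩ : ∃ c : NNReal, haara_L p s μ = (c : ℝ≥0∞) • Measure.haar :=
    ⟨_, Measure.isMulLeftInvariant_eq_smul _ _⟩
  obtain ⟨c', hc'⟩ : ∃ c : NNReal, haara_L p s μ' = (c : ℝ≥0∞) • Measure.haar :=
    ⟨_, Measure.isMulLeftInvariant_eq_smul _ _⟩
  have h0 : (c' : ℝ≥0∞) ≠ 0 := fun h0 => by
    have h1 : haara_L p s μ' = haara_L p s ((0 : ℝ≥0∞) • μ') := by
      rw [haara_L_smul, hc', h0, zero_smul, zero_smul]
    have h2 := congrArg (fun m : Measure (XX p) => m Set.univ) (haara_L_inj hs h1)
    simp at h2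
  have h1 : haara_L p s μ = haara_L p s (((c : ℝ≥0∞) / c') • μ') := by
    rw [haara_L_smul, hc, hc', smul_smul, ENNReal.div_mul_cancel h0 ENNReal.coe_ne_top]
  have h2 := haara_L_inj hs h1
  have h3 : μ Set.univ = (c : ℝ≥0∞) / c' := by
    rw [h2]; simp
  rw [h3]; exact h2

end Pool.Agent.EQ
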