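import Pool.Agent.P.MP_ad7a55_nt.HaarA

/-! Uniqueness of invariant measures on X. -/

set_option autoImplicit false

noncomputable section

open MeasureTheory Topology Filter UpperHalfPlane
open scoped MatrixGroups ENNReal BoundedContinuousFunction

namespace Pool.Agent.EQ

/-- Invariance passes to the pullback along a measurable embedding. -/
theorem haarA2_comap {α β : Type} [MeasurableSpace α] [MeasurableSpace β] {Φ : α → β}
    (hΦ : MeasurableEmbedding Φ) {ν : Measure β} {T : β → β} (hT : Measurable T) {L : α → α}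
    (hL : Measurable L) (hc : ∀ a, T (Φ a) = Φ (L a))
    (hr : ∀ b, T b ∈ Set.range Φ → b ∈ Set.range Φ) (hν : ν.map T = ν) :
    (ν.comap Φ).map L = ν.comap Φ := by
  ext E hE
  rw [Measure.map_apply hL hE, hΦ.comap_apply, hΦ.comap_apply]
  conv_rhs => rw [← hν, Measure.map_apply hT (hΦ.measurableSet_image.2 hE)]
  congr 1
  ext b
  constructor
  · rintro ⟨a, ha, rfl⟩
    exact ⟨L a, ha, (hc a).symm⟩
  · rintro ⟨e, he, hb⟩
    obtain ⟨a, rfl⟩ := hr b ⟨e, hb⟩
    refine ⟨a, ?_, rfl⟩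
    have : L a = e := hΦ.injective (by rw [← hc a, hb])
    rw [Set.mem_preimage, this]
    exact he

/-- The first marginal of a lift only depends on the first marginal. -/
theorem haarA2_marg {H : Type} [Group H] [TopologicalSpace H] [IsTopologicalGroup H]
    [PolishSpace H] [LocallyCompactSpace H] [MeasurableSpace H] [BorelSpace H] {Γ : Subgroup H}
    [IsClosed (Γ : Set H)] {Z : Type} [MeasurableSpace Z] {s : H ⧸ Γ → H} (hs : IsSec s)
    (ρ : Measure ((H ⧸ Γ) × Z)) {E : Set H} (hE : MeasurableSet E) :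
    lift s ρ (E ×ˢ Set.univ) =
      lift s (ρ.fst.map fun x => (x, ())) (E ×ˢ Set.univ) := by
  have m1 : ∀ γ : Γ, Measurable fun w : (H ⧸ Γ) × Z => (s w.1 * γ, w.2) := fun γ =>
    ((hs.1.comp measurable_fst).mul_const _).prodMk measurable_snd
  have m2 : ∀ γ : Γ, Measurable fun w : (H ⧸ Γ) × Unit => (s w.1 * γ, w.2) := fun γ =>
    ((hs.1.comp measurable_fst).mul_const _).prodMk measurable_snd
  have m3 : Measurable fun x : H ⧸ Γ => (x, ()) := measurable_id.prodMk measurable_const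
  rw [lift, lift, Measure.sum_apply _ (hE.prod MeasurableSet.univ),
    Measure.sum_apply _ (hE.prod MeasurableSet.univ)]
  refine tsum_congr fun γ => ?_
  rw [Measure.map_apply (m1 γ) (hE.prod MeasurableSet.univ),
    Measure.map_apply (m2 γ) (hE.prod MeasurableSet.univ),
    Measure.map_apply m3 (m2 γ (hE.prod MeasurableSet.univ)),
    Measure.fst_apply (m3 (m2 γ (hE.prod MeasurableSet.univ)))]
  congr 1

variable (p : ℕ) [Fact p.Prime]

/-- The coordinates adapted to the graph of `θ`. -/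
def haarA2Phi (θ : SL(2, ℝ) →* SL(2, ℝ)) (w : SL(2, ℝ) × (Kp p × XX p)) : GG p × XX p :=
  ((w.1, (w.2.1 : SL(2, ℚ_[p]))), ((θ w.1, 1) : GG p) • w.2.2)

theorem haarA2_cont (θ : SL(2, ℝ) →* SL(2, ℝ)) (hθ : Continuous θ) :
    Continuous (haarA2Phi p θ) := by
  have h1 : Continuous fun w : SL(2, ℝ) × (Kp p × XX p) => ((θ w.1, 1) : GG p) :=
    (hθ.comp continuous_fst).prodMk continuous_const
  have h2 : Continuous fun w : SL(2, ℝ) × (Kp p × XX p) => ((θ w.1, 1) : GG p) • w.2.2 :=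
    h1.smul continuous_snd.snd
  exact (continuous_fst.prodMk (continuous_subtype_val.comp continuous_snd.fst)).prodMk h2

theorem haarA2_inj (θ : SL(2, ℝ) →* SL(2, ℝ)) : Function.Injective (haarA2Phi p θ) := by
  rintro ⟨g, k, z⟩ ⟨g', k', z'⟩ h
  simp only [haarA2Phi, Prod.mk.injEq] at h
  obtain ⟨⟨rfl, h2⟩, h3⟩ := h
  obtain rfl : k = k' := Subtype.ext h2
  obtain rfl : z = z' := MulAction.injective _ h3
  rfl

theorem haarA2_emb (θ : SL(2, ℝ) →* SL(2, ℝ)) (hθ : Continuous θ) :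
    MeasurableEmbedding (haarA2Phi p θ) :=
  (haarA2_cont p θ hθ).measurableEmbedding (haarA2_inj p θ)

theorem haarA2_range (θ : SL(2, ℝ) →* SL(2, ℝ)) (w : GG p × XX p) :
    w ∈ Set.range (haarA2Phi p θ) ↔ w.1.2 ∈ Kp p := by
  constructor
  · rintro ⟨a, rfl⟩
    exact a.2.1.2
  · intro h
    refine ⟨(w.1.1, ⟨w.1.2, h⟩, ((θ w.1.1, 1) : GG p)⁻¹ • w.2), ?_⟩
    simp only [haarA2Phi, smul_inv_smul]

theorem haarA2_image (θ : SL(2, ℝ) →* SL(2, ℝ)) (C : Set SL(2, ℝ)) (B : Set (Kp p)) :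
    haarA2Phi p θ '' (C ×ˢ (B ×ˢ Set.univ)) =
      (C ×ˢ (((↑) : Kp p → SL(2, ℚ_[p])) '' B)) ×ˢ Set.univ := by
  ext w
  constructor
  · rintro ⟨a, ⟨h1, h2, -⟩, rfl⟩
    exact ⟨⟨h1, a.2.1, h2, rfl⟩, trivial⟩
  · rintro ⟨⟨h1, k, h2, h3⟩, -⟩
    refine ⟨(w.1.1, k, ((θ w.1.1, 1) : GG p)⁻¹ • w.2), ⟨h1, h2, trivial⟩, ?_⟩
    simp only [haarA2Phi, smul_inv_smul, h3]

/-- Cancelling the Haar factor. -/
theorem haarA2_cancel (μ : Measure SL(2, ℝ)) [μ.IsHaarMeasure]
    {a b : ℝ≥0∞} (h : ∀ C : Set SL(2, ℝ), IsCompact C → μ C * a = μ C * b) : a = b := by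
  obtain ⟨C, hC, hC'⟩ := exists_compact_mem_nhds (1 : SL(2, ℝ))
  exact (ENNReal.mul_right_inj (Measure.measure_pos_of_mem_nhds μ hC').ne'
    hC.measure_lt_top.ne).1 (h C hC)

/-- The transverse measure of a joining that is invariant under the graph of `θ`. -/
theorem tau (θ : SL(2, ℝ) →* SL(2, ℝ)) (hθ : Continuous θ) (ρ : Measure (XX p × XX p))
    [IsProbabilityMeasure ρ]
    (hρ : ∀ h : SL(2, ℝ),
      ρ.map (fun w => (((h, 1) : GG p) • w.1, ((θ h, 1) : GG p) • w.2)) = ρ) :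
    ∃ τ : Measure (Kp p × XX p), IsProbabilityMeasure τ ∧ τ.fst.IsMulLeftInvariant ∧
      (∀ γ : SL(2, ℤ), τ.map (fun w => (w.1 * ⟨toP p γ, toP_mem_Kp p γ⟩,
        (((θ (toR γ))⁻¹, 1) : GG p) • w.2)) = τ) ∧
      (∀ D : Set (XX p × XX p), MeasurableSet D → ρ D ≠ 0 → ∃ g : SL(2, ℝ),
        τ {w | ((((g, w.1) : GG p) : XX p), ((θ g, 1) : GG p) • w.2) ∈ D} ≠ 0) ∧
      (∀ C : Set (Kp p × XX p), MeasurableSet C → τ C ≠ 0 →
        ρ {z | ∃ g : SL(2, ℝ), ∃ w ∈ C,
          z = ((((g, w.1) : GG p) : XX p), ((θ g, 1) : GG p) • w.2)} ≠ 0) := by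
  have hΓ : Disc (Gam p) := fun _ hC => Gam_finite p hC
  obtain ⟨s, hs⟩ := exists_sec hΓ
  have hΦ := haarA2_emb p θ hθ
  set Φ := haarA2Phi p θ with hΦdef
  set ν := lift s ρ with hν
  let μ : Measure SL(2, ℝ) := Measure.haar
  have hμr : μ.IsMulRightInvariant := unimod μ
  -- left invariance
  have hleft : ∀ h : SL(2, ℝ), (ν.comap Φ).map (fun w => (h * w.1, w.2)) = ν.comap Φ := by
    intro h
    have hT : Measurable fun z : XX p => ((θ h, 1) : GG p) • z := measurable_const_smul _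
    refine haarA2_comap hΦ
      (T := fun w => (((h, 1) : GG p) * w.1, ((θ h, 1) : GG p) • w.2))
      ((measurable_fst.const_mul _).prodMk (hT.comp measurable_snd))
      ((measurable_fst.const_mul _).prodMk measurable_snd) ?_ ?_ ?_
    · rintro ⟨g, k, z⟩
      simp only [hΦdef, haarA2Phi, Prod.mk_mul_mk, one_mul, smul_smul, map_mul]
    · intro b hb
      rw [hΦdef, haarA2_range] at hb ⊢
      simpa using hb
    · rw [hν, lift_left hΓ hs ρ _ hT, hρ h]
  have hfin : ∀ C : Set SL(2, ℝ), IsCompact C → ν.comap Φ (C ×ˢ Set.univ) < ∞ := by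
    intro C hC
    rw [hΦ.comap_apply, ← Set.univ_prod_univ, hΦdef, haarA2_image]
    refine lift_fin hΓ hs ρ (hC.prod ?_)
    exact isCompact_univ.image continuous_subtype_val
  obtain ⟨τ₀, hτfin, hprod⟩ := prod_haar μ (ν.comap Φ) hleft (fun _ => Set.univ)
    (fun _ => MeasurableSet.univ) (Set.iUnion_const _) (fun _ => hfin)
  have hτ₀ : IsFiniteMeasure τ₀ := ⟨hτfin 0⟩
  -- positivity
  have hmk : Measurable fun w : GG p × XX p => ((w.1 : XX p), w.2) :=
    (QuotientGroup.continuous_mk.measurable.comp measurable_fst).prodMk measurable_snd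
  have h4 : ∀ D : Set (XX p × XX p), MeasurableSet D → ρ D ≠ 0 → ∃ g : SL(2, ℝ),
      τ₀ {w | ((((g, w.1) : GG p) : XX p), ((θ g, 1) : GG p) • w.2) ∈ D} ≠ 0 := by
    intro D hD hne
    by_contra hcon
    push Not at hcon
    have hF : MeasurableSet {g : GG p | g.2 ∈ Kp p} :=
      measurable_snd (Kp_open p).measurableSet
    have h1 := le_lift hΓ hs ρ hF (fun x => exists_rep p x) hD
    have hE : MeasurableSet (Φ ⁻¹' {w : GG p × XX p | ((w.1 : XX p), w.2) ∈ D}) :=
      hΦ.measurable (hmk hD)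
    have h2 : {w : GG p × XX p | w.1 ∈ {g : GG p | g.2 ∈ Kp p} ∧ ((w.1 : XX p), w.2) ∈ D} =
        Φ '' (Φ ⁻¹' {w : GG p × XX p | ((w.1 : XX p), w.2) ∈ D}) := by
      rw [Set.image_preimage_eq_range_inter]
      ext w
      rw [Set.mem_inter_iff, hΦdef, haarA2_range]
      rfl
    rw [h2, ← hν, ← hΦ.comap_apply, hprod, Measure.prod_apply hE] at h1
    refine hne (le_antisymm (h1.trans_eq ?_) zero_le)
    rw [← lintegral_zero (μ := μ)]
    exact lintegral_congr fun g => hcon g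
  have hpos : τ₀ Set.univ ≠ 0 := by
    obtain ⟨g, hg⟩ := h4 Set.univ MeasurableSet.univ (by simp)
    simpa using hg
  have hc0 : (τ₀ Set.univ)⁻¹ ≠ 0 := ENNReal.inv_ne_zero.2 (measure_ne_top _ _)
  -- invariance of the first marginal
  have hfst : τ₀.fst.IsMulLeftInvariant := by
    have hG : ∀ g : GG p, g ∈ Stab (GG p) ρ.fst := by
      refine inv_of_R p ρ.fst fun h => ?_
      rw [mem_Stab]
      have hT : Measurable fun w : XX p × XX p =>
          (((h, 1) : GG p) • w.1, ((θ h, 1) : GG p) • w.2) :=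
        ((measurable_const_smul _).comp measurable_fst).prodMk
          ((measurable_const_smul _).comp measurable_snd)
      conv_rhs => rw [← hρ h]
      rw [Measure.fst, Measure.fst, Measure.map_map (measurable_const_smul _) measurable_fst,
        Measure.map_map measurable_fst hT]
      rfl
    have m3 : Measurable fun x : XX p => (x, ()) := measurable_id.prodMk measurable_const
    have hinv : ∀ (g : GG p) (E : Set (GG p)), MeasurableSet E →
        ν (((fun x => g * x) ⁻¹' E) ×ˢ Set.univ) = ν (E ×ˢ Set.univ) := by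
      intro g E hE
      rw [hν, haarA2_marg hs ρ hE, haarA2_marg hs ρ (measurable_const_mul g hE)]
      have h1 := lift_left hΓ hs (ρ.fst.map fun x => (x, ())) g (T := id) measurable_id
      have m4 : Measurable fun w : XX p × Unit => (g • w.1, id w.2) :=
        ((measurable_const_smul _).comp measurable_fst).prodMk measurable_snd
      have h2 : (ρ.fst.map fun x => (x, ())).map (fun w => (g • w.1, id w.2)) =
          ρ.fst.map fun x => (x, ()) := by
        conv_rhs => rw [← mem_Stab.1 (hG g)]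
        rw [Measure.map_map m4 m3, Measure.map_map m3 (measurable_const_smul _)]
        rfl
      rw [h2] at h1
      conv_rhs => rw [← h1]
      rw [Measure.map_apply ((measurable_fst.const_mul _).prodMk measurable_snd)
        (hE.prod MeasurableSet.univ)]
      congr 1
    have hval : MeasurableEmbedding ((↑) : Kp p → SL(2, ℚ_[p])) :=
      MeasurableEmbedding.subtype_coe (Kp_open p).measurableSet
    have hrect : ∀ C : Set SL(2, ℝ), ∀ B : Set (Kp p), MeasurableSet B →
        μ C * τ₀.fst B = ν ((C ×ˢ (((↑) : Kp p → SL(2, ℚ_[p])) '' B)) ×ˢ Set.univ) := by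
      intro C B hB
      rw [← haarA2_image p θ, ← hΦdef, ← hΦ.comap_apply, hprod, Measure.prod_prod,
        Measure.fst_apply hB, Set.prod_univ]
    refine ⟨fun k => ?_⟩
    ext B hB
    rw [Measure.map_apply (measurable_const_mul k) hB]
    refine haarA2_cancel μ fun C hC => ?_
    rw [hrect C B hB, hrect C _ (measurable_const_mul k hB),
      ← hinv (1, (k : SL(2, ℚ_[p]))) _ (hC.measurableSet.prod (hval.measurableSet_image.2 hB))]
    congr 2
    ext x
    simp only [Set.mem_prod, Set.mem_image, Set.mem_preimage, Prod.fst_mul, Prod.snd_mul, one_mul]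
    refine and_congr_right fun _ => ⟨?_, ?_⟩
    · rintro ⟨y, hy, e⟩
      exact ⟨k * y, hy, by rw [← e]; rfl⟩
    · rintro ⟨y, hy, e⟩
      refine ⟨k⁻¹ * y, by simpa using hy, ?_⟩
      rw [Subgroup.coe_mul, e, Subgroup.coe_inv, inv_mul_cancel_left]
  -- invariance under the integral matrices
  have hright : ∀ γ : SL(2, ℤ), τ₀.map (fun w => (w.1 * ⟨toP p γ, toP_mem_Kp p γ⟩,
      (((θ (toR γ))⁻¹, 1) : GG p) • w.2)) = τ₀ := by
    intro γ
    have hS : Measurable fun w : Kp p × XX p => (w.1 * ⟨toP p γ, toP_mem_Kp p γ⟩,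
        (((θ (toR γ))⁻¹, 1) : GG p) • w.2) :=
      (measurable_fst.mul_const _).prodMk ((measurable_const_smul _).comp measurable_snd)
    have h1 : (ν.comap Φ).map (Prod.map (fun g => g * toR γ) fun w : Kp p × XX p =>
        (w.1 * ⟨toP p γ, toP_mem_Kp p γ⟩, (((θ (toR γ))⁻¹, 1) : GG p) • w.2)) = ν.comap Φ := by
      refine haarA2_comap hΦ (T := fun w => (w.1 * ((toR γ, toP p γ) : GG p), w.2))
        ((measurable_fst.mul_const _).prodMk measurable_snd)
        ((measurable_mul_const _).prodMap hS) ?_ ?_ ?_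
      · rintro ⟨g, k, z⟩
        simp only [hΦdef, haarA2Phi, Prod.map_apply, Prod.mk_mul_mk, Subgroup.coe_mul, smul_smul,
          map_mul, mul_inv_cancel_right, mul_one]
      · intro b hb
        rw [hΦdef, haarA2_range] at hb ⊢
        exact (Subgroup.mul_mem_cancel_right _ (toP_mem_Kp p γ)).1 hb
      · rw [hν, lift_right hΓ hs ρ (int_mem_Gam p γ)]
    rw [hprod, ← Measure.map_prod_map _ _ (measurable_mul_const _) hS,
      map_mul_right_eq_self] at h1
    ext B hB
    refine haarA2_cancel μ fun C _ => ?_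
    rw [← Measure.prod_prod, ← Measure.prod_prod, h1]
  refine ⟨(τ₀ Set.univ)⁻¹ • τ₀, ⟨?_⟩, ?_, ?_, ?_, ?_⟩
  · rw [Measure.smul_apply, smul_eq_mul, ENNReal.inv_mul_cancel hpos (measure_ne_top _ _)]
  · rw [Measure.fst, Measure.map_smul, ← Measure.fst]
    exact isMulLeftInvariant_smul _
  · intro γ
    rw [Measure.map_smul, hright γ]
  · intro D hD hne
    obtain ⟨g, hg⟩ := h4 D hD hne
    exact ⟨g, by rw [Measure.smul_apply, smul_eq_mul]; exact mul_ne_zero hc0 hg⟩
  · intro C _ hne h0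
    have h1 := lift_null hΓ hs ρ h0
    have h2 : ν.comap Φ (Set.univ ×ˢ C) = 0 := by
      rw [hΦ.comap_apply]
      refine measure_mono_null ?_ h1
      rintro _ ⟨a, ⟨-, ha⟩, rfl⟩
      exact ⟨a.1, a.2, ha, rfl⟩
    rw [hprod, Measure.prod_prod, mul_eq_zero] at h2
    rcases h2 with h2 | h2
    · exact (Measure.measure_univ_pos.2 (NeZero.ne μ)).ne' h2
    · exact hne (by rw [Measure.smul_apply, h2, smul_zero])

end Pool.Agent.EQ
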