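import Pool.Agent.P.MP_ad7a55_nt.HaarB

/-! The invariant probability measure on X. -/

set_option autoImplicit false

noncomputable section

open MeasureTheory Topology Filter UpperHalfPlane
open scoped MatrixGroups ENNReal BoundedContinuousFunction

namespace Pool.Agent.EQ

open ModularGroup in
theorem haarB2_fd_lt_top : volume (fd : Set ℍ) < ⊤ := by
  rw [volume_eq_lintegral]
  have h1 : IntegrableOn (fun q : ℝ × ℝ => (1 : ℝ) * q.2 ^ (-2 : ℝ))
      (Set.Icc (-(1 / 2) : ℝ) (1 / 2) ×ˢ Set.Ioi (1 / 2 : ℝ)) volume := by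
    rw [IntegrableOn, Measure.volume_eq_prod, ← Measure.prod_restrict]
    exact Integrable.mul_prod (f := fun _ : ℝ => (1 : ℝ)) (integrable_const _)
      (integrableOn_Ioi_rpow_of_lt (by norm_num) (by norm_num))
  have h2 := (Complex.volume_preserving_equiv_real_prod.integrableOn_comp_preimage
    Complex.measurableEquivRealProd.measurableEmbedding).2 h1
  have hs : UpperHalfPlane.coe '' fd ⊆ Complex.measurableEquivRealProd ⁻¹'
      (Set.Icc (-(1 / 2) : ℝ) (1 / 2) ×ˢ Set.Ioi (1 / 2 : ℝ)) := by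
    rintro _ ⟨τ, hτ, rfl⟩
    refine ⟨abs_le.1 hτ.2, ?_⟩
    have := three_le_four_mul_im_sq_of_mem_fd hτ
    have := τ.im_pos
    change 1 / 2 < τ.im
    nlinarith
  refine lt_of_le_of_lt (le_of_eq ?_) (h2.mono_set hs).2
  refine setLIntegral_congr_fun (measurableEmbedding_coe.measurableSet_image.2
    isClosed_fd.measurableSet) ?_
  rintro _ ⟨τ, -, rfl⟩
  have := τ.im_pos
  simp only [Function.comp_apply, one_mul, enorm_eq_nnnorm, ENNReal.coe_inj]
  ext
  change _ = ‖τ.im ^ (-2 : ℝ)‖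
  rw [Real.norm_of_nonneg (by positivity), Real.rpow_neg this.le]
  simp [abs_of_pos this]

theorem haarB2_re (c : ℝ) : volume {z : ℂ | z.re = c} = 0 := by
  have := Complex.volume_preserving_equiv_real_prod.measure_preimage_equiv
    (({c} : Set ℝ) ×ˢ (Set.univ : Set ℝ))
  rw [Measure.volume_eq_prod, Measure.prod_prod, Real.volume_singleton, zero_mul] at this
  rw [← this]
  congr 1
  ext z
  simp

open ModularGroup in
theorem haarB2_fd_diff : volume (fd \ fdo : Set ℍ) = 0 := by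
  rw [volume_eq_lintegral]
  refine setLIntegral_measure_zero _ _ (measure_mono_null
    (t := Metric.sphere (0 : ℂ) 1 ∪ ({z : ℂ | z.re = 1 / 2} ∪ {z : ℂ | z.re = -(1 / 2)})) ?_
    (measure_union_null (Measure.addHaar_sphere _ _ _)
      (measure_union_null (haarB2_re _) (haarB2_re _))))
  rintro _ ⟨τ, ⟨h1, h2⟩, rfl⟩
  rcases h1.1.eq_or_lt with h | h
  · left
    rw [mem_sphere_zero_iff_norm, ← sq_eq_sq₀ (norm_nonneg _) zero_le_one, Complex.sq_norm, ← h,
      one_pow]
  · right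
    exact (abs_eq (by norm_num)).1 (h1.2.antisymm (not_lt.1 fun h' => h2 ⟨h, h'⟩))

theorem haarB2_vol_pos {U : Set ℍ} (hU : IsOpen U) (hne : U.Nonempty) : volume U ≠ 0 := by
  intro h
  have h1 : (volume.comap UpperHalfPlane.coe : Measure ℍ) ≪ volume := by
    refine withDensity_absolutelyContinuous' (Measurable.aemeasurable ?_)
      (Eventually.of_forall fun z => ?_)
    · have hc : Continuous fun z : ℍ => (NNReal.mk z.im z.im_pos.le : NNReal) :=
        continuous_im.subtype_mk _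
      exact measurable_coe_nnreal_ennreal.comp ((measurable_const.div hc.measurable).pow_const 2)
    · have : NNReal.mk z.im z.im_pos.le ≠ 0 := NNReal.ne_iff.mp z.im_ne_zero
      exact ENNReal.coe_ne_zero.2 (pow_ne_zero _ (one_div_ne_zero this))
  have h2 := h1 h
  rw [measurableEmbedding_coe.comap_apply] at h2
  exact ((isOpenEmbedding_coe.isOpenMap U hU).measure_pos volume (hne.image _)).ne' h2

open ModularGroup in
theorem haarB2_fdo_ne : (fdo : Set ℍ).Nonempty :=
  ⟨⟨2 * Complex.I, by simp⟩, by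
    constructor
    · change 1 < Complex.normSq (2 * Complex.I)
      simp; norm_num
    · change |(2 * Complex.I).re| < 1 / 2
      simp⟩

open ModularGroup in
theorem haarB2_inter (B : Set ℍ) : volume (fd ∩ B) = volume (fdo ∩ B) := by
  refine le_antisymm ?_ (measure_mono (Set.inter_subset_inter_left _ fdo_subset_fd))
  calc volume (fd ∩ B) ≤ volume ((fdo ∩ B) ∪ (fd \ fdo : Set ℍ)) := by
        refine measure_mono fun τ hτ => ?_
        by_cases h : τ ∈ fdo
        · exact Or.inl ⟨h, hτ.2⟩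
        · exact Or.inr ⟨hτ.1, h⟩
    _ ≤ volume (fdo ∩ B) + volume (fd \ fdo : Set ℍ) := measure_union_le _ _
    _ = volume (fdo ∩ B) := by rw [haarB2_fd_diff, add_zero]

theorem haarB2_toR_smul (δ : SL(2, ℤ)) (τ : ℍ) : toR δ • τ = δ • τ := rfl

theorem haarB2_cont : Continuous fun g : SL(2, ℝ) => g⁻¹ • UpperHalfPlane.I :=
  continuous_inv.smul continuous_const

variable (p : ℕ) [Fact p.Prime]

/-- The part of `G` above a subset of `ℍ` and above `K`. -/
def haarB2_S (B : Set ℍ) : Set (GG p) :=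
  ((fun g : SL(2, ℝ) => g⁻¹ • UpperHalfPlane.I) ⁻¹' B) ×ˢ (Kp p : Set SL(2, ℚ_[p]))

theorem haarB2_S_meas {B : Set ℍ} (hB : MeasurableSet B) : MeasurableSet (haarB2_S p B) :=
  (haarB2_cont.measurable hB).prod (Kp_open p).measurableSet

theorem haarB2_S_open {B : Set ℍ} (hB : IsOpen B) : IsOpen (haarB2_S p B) :=
  (hB.preimage haarB2_cont).prod (Kp_open p)

theorem haarB2_piX {g : GG p} (hg : g.2 ∈ Kp p) :
    piX p (g : XX p) = jInv (g.1⁻¹ • UpperHalfPlane.I) := by
  rw [piX, toY_mk p hg, jY_mk]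

open ModularGroup in
theorem haarB2_onto (x : XX p) : ∃ g ∈ haarB2_S p fd, (g : XX p) = x := by
  obtain ⟨g, hg, rfl⟩ := exists_rep p x
  obtain ⟨δ, hδ⟩ := exists_smul_mem_fd (g.1⁻¹ • UpperHalfPlane.I)
  refine ⟨g * (toR δ⁻¹, toP p δ⁻¹), ⟨?_, (Kp p).mul_mem hg (toP_mem_Kp p _)⟩,
    QuotientGroup.mk_mul_of_mem _ (int_mem_Gam p _)⟩
  change (g.1 * toR δ⁻¹)⁻¹ • UpperHalfPlane.I ∈ fd
  rwa [mul_inv_rev, ← map_inv, inv_inv, mul_smul, haarB2_toR_smul]

/-- The element `-1` of `Γ`. -/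
def haarB2_neg : Gam p := ⟨(toR (-1), toP p (-1)), int_mem_Gam p _⟩

theorem haarB2_neg_ne : (1 : Gam p) ≠ haarB2_neg p := by
  intro h
  have h1 := congrArg (fun γ : Gam p => (γ : GG p).1 0 0) h
  simp [haarB2_neg, toR] at h1
  norm_num at h1

open ModularGroup in
theorem haarB2_fib {g : GG p} (hg : g ∈ haarB2_S p fdo) (γ : Gam p) :
    g * γ ∈ haarB2_S p fdo ↔ γ = 1 ∨ γ = haarB2_neg p := by
  constructor
  · intro h
    have hK : (γ : GG p).2 ∈ Kp p := by
      have := (Kp p).mul_mem ((Kp p).inv_mem hg.2) h.2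
      simpa using this
    obtain ⟨δ, hδ⟩ := exists_int_of_Gam p γ.2 hK
    have h1 : (g.1 * (γ : GG p).1)⁻¹ • UpperHalfPlane.I ∈ fdo := h.1
    rw [hδ, mul_inv_rev, ← map_inv, mul_smul, haarB2_toR_smul] at h1
    rcases eq_one_or_neg_one_of_mem_fdo_mem_fdo hg.1 h1 with h2 | h2
    · left
      rw [inv_eq_one] at h2
      apply Subtype.ext
      rw [hδ, h2, map_one, map_one]; rfl
    · right
      have h3 : δ = -1 := by
        rw [inv_eq_iff_mul_eq_one] at h2
        have : -δ = 1 := by simpa using h2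
        rw [← this, neg_neg]
      apply Subtype.ext
      rw [hδ, h3]; rfl
  · rintro (rfl | rfl)
    · simpa using hg
    · refine ⟨?_, (Kp p).mul_mem hg.2 (toP_mem_Kp p _)⟩
      change (g.1 * toR (-1))⁻¹ • UpperHalfPlane.I ∈ fdo
      have h1 : (-1 : SL(2, ℤ))⁻¹ = -1 := inv_eq_of_mul_eq_one_right (by simp)
      rw [mul_inv_rev, ← map_inv, h1, mul_smul, haarB2_toR_smul, SL_neg_smul, one_smul]
      exact hg.1

open ModularGroup in
theorem haarB2_count {g : GG p} (hg : g ∈ haarB2_S p fdo) {g' : GG p}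
    (hg' : (g' : XX p) = (g : XX p)) (A : Set ℂ) :
    ∑' γ : Gam p, (haarB2_S p (fdo ∩ jInv ⁻¹' A)).indicator (1 : GG p → ℝ≥0∞) (g' * γ) =
      2 * (piX p ⁻¹' A).indicator 1 (g : XX p) := by
  classical
  have h0 : g⁻¹ * g' ∈ Gam p := QuotientGroup.eq.1 hg'.symm
  rw [← (Equiv.mulLeft (⟨g⁻¹ * g', h0⟩ : Gam p)⁻¹).tsum_eq]
  have h1 : ∀ γ : Gam p, g' * ((Equiv.mulLeft (⟨g⁻¹ * g', h0⟩ : Gam p)⁻¹ γ : Gam p) : GG p) =
      g * γ := fun γ => by simp [mul_assoc]
  simp only [h1]
  have h2 : ∀ γ : Gam p, g * γ ∈ haarB2_S p (fdo ∩ jInv ⁻¹' A) ↔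
      g * γ ∈ haarB2_S p fdo ∧ piX p (g : XX p) ∈ A := fun γ => by
    rw [← QuotientGroup.mk_mul_of_mem g γ.2]
    constructor
    · intro h
      exact ⟨⟨h.1.1, h.2⟩, by rw [haarB2_piX p h.2]; exact h.1.2⟩
    · intro h
      refine ⟨⟨h.1.1, ?_⟩, h.1.2⟩
      have := h.2
      rwa [haarB2_piX p h.1.2] at this
  rw [tsum_eq_sum (s := {1, haarB2_neg p})]
  · rw [Finset.sum_pair (haarB2_neg_ne p), two_mul]
    by_cases hA : piX p (g : XX p) ∈ A
    · rw [Set.indicator_of_mem ((h2 _).2 ⟨(haarB2_fib p hg _).2 (Or.inl rfl), hA⟩),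
        Set.indicator_of_mem ((h2 _).2 ⟨(haarB2_fib p hg _).2 (Or.inr rfl), hA⟩),
        Set.indicator_of_mem (show (g : XX p) ∈ piX p ⁻¹' A from hA)]
      rfl
    · rw [Set.indicator_of_notMem fun h => hA ((h2 _).1 h).2,
        Set.indicator_of_notMem fun h => hA ((h2 _).1 h).2,
        Set.indicator_of_notMem (show (g : XX p) ∉ piX p ⁻¹' A from hA)]
  · intro γ hγ
    refine Set.indicator_of_notMem (fun h => hγ ?_) _
    simpa using (haarB2_fib p hg γ).1 ((h2 γ).1 h).1

open ModularGroup in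
theorem haarB2_main : ∃ (m : Measure (XX p)) (c : ℝ≥0∞), c ≠ 0 ∧ c ≠ ∞ ∧
    (∀ g, g ∈ Stab (GG p) m) ∧
    ∀ A : Set ℂ, MeasurableSet A → 2 * m (piX p ⁻¹' A) = c * volume (fdo ∩ jInv ⁻¹' A) := by
  have hD : Disc (Gam p) := fun _ => Gam_finite p
  obtain ⟨s, hs⟩ := exists_sec hD
  set μR : Measure SL(2, ℝ) := Measure.haar
  set μP : Measure SL(2, ℚ_[p]) := Measure.haar
  have hR := unimod μR
  have hP := unimod μP
  obtain ⟨c, hc0, hc1, hc⟩ := map_haar μR
  set μ : Measure (GG p) := μR.prod μP with hμ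
  have hι : Measurable fun g : GG p => (g, ()) := measurable_id.prodMk measurable_const
  set ν : Measure (GG p × Unit) := μ.map fun g => (g, ()) with hν
  obtain ⟨ρ, hρ⟩ := exists_lift_eq hD hs ν fun γ _ => by
    rw [hν, Measure.map_map ((measurable_fst.mul_const γ).prodMk measurable_snd) hι]
    conv_rhs => rw [← map_mul_right_eq_self μ γ]
    rw [Measure.map_map hι (measurable_mul_const γ)]
    rfl
  have hS : ∀ B : Set ℍ, MeasurableSet B →
      ν (Prod.fst ⁻¹' haarB2_S p B) = c * μP (Kp p) * volume B := fun B hB => by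
    rw [hν, Measure.map_apply hι (measurable_fst (haarB2_S_meas p hB))]
    change μ (haarB2_S p B) = _
    rw [hμ, haarB2_S, Measure.prod_prod, ← Measure.map_apply haarB2_cont.measurable hB, hc,
      Measure.smul_apply, smul_eq_mul]
    ring
  have hG : IsOpen ((fun g : GG p => (g : XX p)) '' haarB2_S p fdo) :=
    QuotientGroup.isOpenMap_coe _ (haarB2_S_open p isOpen_fdo)
  have hN : ρ (Prod.fst ⁻¹' ((fun g : GG p => (g : XX p)) '' haarB2_S p fdo)ᶜ) = 0 := by
    refine le_antisymm ?_ zero_le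
    refine (le_lift hD hs ρ (haarB2_S_meas p isClosed_fd.measurableSet) (haarB2_onto p)
      (measurable_fst hG.measurableSet.compl)).trans ?_
    rw [hρ]
    refine (measure_mono (t := Prod.fst ⁻¹' haarB2_S p (fd \ fdo)) ?_).trans ?_
    · rintro w ⟨h1, h2⟩
      exact ⟨⟨h1.1, fun h => h2 ⟨w.1, ⟨h, h1.2⟩, rfl⟩⟩, h1.2⟩
    · rw [hS _ (isClosed_fd.measurableSet.diff isOpen_fdo.measurableSet), haarB2_fd_diff, mul_zero]
  refine ⟨ρ.map Prod.fst, c * μP (Kp p), mul_ne_zero hc0
    ((Kp_open p).measure_pos μP ⟨1, (Kp p).one_mem⟩).ne',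
    ENNReal.mul_ne_top hc1 (Kp_compact p).measure_lt_top.ne, fun g => ?_, fun A hA => ?_⟩
  · have h1 := lift_left hD hs ρ g (T := id) measurable_id
    have h2 : ν.map (fun w => (g * w.1, id w.2)) = ν := by
      rw [hν, Measure.map_map ((measurable_fst.const_mul g).prodMk measurable_snd) hι]
      conv_rhs => rw [← map_mul_left_eq_self μ g]
      rw [Measure.map_map hι (measurable_const_mul g)]
      rfl
    rw [hρ, h2, ← hρ] at h1
    have h3 := lift_inj hD hs h1
    rw [mem_Stab]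
    conv_rhs => rw [h3]
    have h4 : Measurable fun w : XX p × Unit => (g • w.1, id w.2) :=
      ((measurable_const_smul g).comp measurable_fst).prodMk measurable_snd
    rw [Measure.map_map (measurable_const_smul g) measurable_fst,
      Measure.map_map measurable_fst h4]
    rfl
  · have hB : MeasurableSet (fdo ∩ jInv ⁻¹' A) :=
      isOpen_fdo.measurableSet.inter (continuous_jInv.measurable hA)
    have hA' : MeasurableSet (piX p ⁻¹' A) := (continuous_piX p).measurable hA
    rw [← hS _ hB, ← hρ, lift_apply hD hs ρ (measurable_fst (haarB2_S_meas p hB)),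
      Measure.map_apply measurable_fst hA', ← lintegral_indicator_one (measurable_fst hA'),
      ← lintegral_const_mul _ (measurable_one.indicator (measurable_fst hA'))]
    refine lintegral_congr_ae ?_
    filter_upwards [measure_eq_zero_iff_ae_notMem.1 hN] with w hw
    obtain ⟨g, hg, hgw⟩ : w.1 ∈ (fun g : GG p => (g : XX p)) '' haarB2_S p fdo := not_not.1 hw
    have h1 := haarB2_count p hg ((hs.2 w.1).trans hgw.symm) A
    have h2 : (g : XX p) = w.1 := hgw
    rw [h2] at h1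
    exact h1.symm

open ModularGroup in
theorem exists_mX : ∃ m : Measure (XX p), IsProbabilityMeasure m ∧ (∀ g, g ∈ Stab (GG p) m) ∧
    m.map (piX p) = mY := by
  obtain ⟨m, c, hc0, hc1, hinv, hm⟩ := haarB2_main p
  have hv0 : volume (fdo : Set ℍ) ≠ 0 := haarB2_vol_pos isOpen_fdo haarB2_fdo_ne
  have hv1 : volume (fdo : Set ℍ) ≠ ∞ := ((measure_mono fdo_subset_fd).trans_lt haarB2_fd_lt_top).ne
  have hv : volume (fd : Set ℍ) = volume (fdo : Set ℍ) := by
    simpa using haarB2_inter Set.univ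
  have key : ∀ A : Set ℂ, MeasurableSet A → ((c * volume (fdo : Set ℍ))⁻¹ * 2) * m (piX p ⁻¹' A) =
      (volume (fdo : Set ℍ))⁻¹ * volume (fdo ∩ jInv ⁻¹' A) := fun A hA => by
    rw [mul_assoc, hm A hA, ENNReal.mul_inv (Or.inl hc0) (Or.inl hc1), mul_comm c⁻¹, mul_assoc,
      ← mul_assoc c⁻¹, ENNReal.inv_mul_cancel hc0 hc1, one_mul]
  refine ⟨((c * volume (fdo : Set ℍ))⁻¹ * 2) • m, ⟨?_⟩, fun g => ?_, ?_⟩
  · have := key Set.univ MeasurableSet.univ
    rw [Set.preimage_univ, Set.preimage_univ, Set.inter_univ,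
      ENNReal.inv_mul_cancel hv0 hv1] at this
    rw [Measure.smul_apply, smul_eq_mul, this]
  · rw [mem_Stab, Measure.map_smul, mem_Stab.1 (hinv g)]
  · ext A hA
    rw [Measure.map_apply (continuous_piX p).measurable hA, Measure.smul_apply, smul_eq_mul,
      key A hA, mY, Measure.map_apply continuous_jInv.measurable hA,
      ProbabilityTheory.cond_apply isClosed_fd.measurableSet, haarB2_inter, hv]

/-- The invariant probability measure on `X`. -/
def mX : Measure (XX p) := (exists_mX p).choose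

instance instProbmX : IsProbabilityMeasure (mX p) := (exists_mX p).choose_spec.1

theorem mX_inv (g : GG p) : (mX p).map (fun x => g • x) = mX p :=
  (exists_mX p).choose_spec.2.1 g

theorem map_piX : (mX p).map (piX p) = mY := (exists_mX p).choose_spec.2.2

instance instSMulInvmX : SMulInvariantMeasure (GG p) (XX p) (mX p) :=
  ⟨fun g s hs => by
    rw [← Measure.map_apply (measurable_const_smul g) hs, mX_inv]⟩

theorem mX_pos {U : Set (XX p)} (hU : IsOpen U) (hne : U.Nonempty) : mX p U ≠ 0 :=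
  (measure_isOpen_pos_of_smulInvariant_of_ne_zero (GG p) (IsProbabilityMeasure.ne_zero _) hU
    hne).ne'

theorem eq_mX_of_R (μ : Measure (XX p)) [IsFiniteMeasure μ]
    (h : ∀ g : SL(2, ℝ), ((g, 1) : GG p) ∈ Stab (GG p) μ) : μ = μ Set.univ • mX p :=
  uniq_inv p μ _ (inv_of_R p μ h) (mX_inv p)

theorem eq_mX_of_P (μ : Measure (XX p)) [IsFiniteMeasure μ]
    (h : ∀ g : SL(2, ℚ_[p]), ((1, g) : GG p) ∈ Stab (GG p) μ) : μ = μ Set.univ • mX p :=
  uniq_inv p μ _ (inv_of_P p μ h) (mX_inv p)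

/-- The product measure on `X^κ`. -/
def mP (κ : Type) [Fintype κ] : Measure (κ → XX p) := Measure.pi fun _ => mX p

instance instProbmP (κ : Type) [Fintype κ] : IsProbabilityMeasure (mP p κ) := by
  unfold mP; infer_instance

end Pool.Agent.EQ
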