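import Pool.Agent.P.MP_ad7a55_nt.IntQ2

/-! Galois action on isogenies, and the Kronecker congruence. -/

set_option autoImplicit false

noncomputable section

open MeasureTheory Topology Filter UpperHalfPlane
open scoped MatrixGroups ENNReal BoundedContinuousFunction

namespace Pool.Agent.EQ

theorem den_ne_zero_hecke (γ : SL(2, ℤ)) (τ : ℍ) : (γ 1 0 : ℂ) * τ + γ 1 1 ≠ 0 := by
  intro h
  have := disc_smul γ τ
  rw [h, zero_pow (by norm_num), zero_mul] at this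
  exact ModularForm.discriminant_ne_zero _ this

theorem sum_nbs_congr_hecke {q : ℕ} (hq : q.Prime) (Φ : Lt → ℂ) {c c' : ℂ} {τ τ' : ℍ}
    (hc : c ≠ 0) (hc' : c' ≠ 0) (h : sp c (c * τ) = sp c' (c' * τ')) :
    ∑ o, Φ (nbs q hq.pos c τ o) = ∑ o, Φ (nbs q hq.pos c' τ' o) := by
  have key : ∀ o, ∃ o', nbs q hq.pos c τ o = nbs q hq.pos c' τ' o' := fun o =>
    (nb_iff hq hc' τ' _).1 (h ▸ (nb_iff hq hc τ _).2 ⟨o, rfl⟩)
  choose e he using key
  have hinj : Function.Injective e := fun o₁ o₂ h12 =>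
    nbs_inj hq hc τ (by rw [he, he, h12])
  rw [← (Finite.injective_iff_bijective.1 hinj).sum_comp fun o => Φ (nbs q hq.pos c' τ' o)]
  exact Finset.sum_congr rfl fun o _ => by rw [he]

/-- A sum over the sublattices of index `q` does not depend on the basis. -/
theorem sum_nbs_smul {q : ℕ} (hq : q.Prime) (Φ : Lt → ℂ) (γ : SL(2, ℤ)) (τ : ℍ) :
    ∑ o, Φ (nbs q hq.pos ((γ 1 0 : ℂ) * τ + γ 1 1) (γ • τ) o) = ∑ o, Φ (nbs q hq.pos 1 τ o) := by
  refine sum_nbs_congr_hecke hq Φ (den_ne_zero_hecke γ τ) one_ne_zero ?_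
  rw [← sp_smul 1 γ τ, one_mul]

theorem nbs_eq_hecke {q : ℕ} (hq : 0 < q) (c : ℂ) (τ : ℍ) (o : Option (Fin q)) :
    nbs q hq c τ o = pr c * nbs q hq 1 τ o := by
  cases o <;> simp only [nbs, pr_mul_sp, one_mul, mul_one, mul_assoc]

theorem isLat_nbs_hecke {q : ℕ} (hq : q.Prime) {c : ℂ} (hc : c ≠ 0) (τ : ℍ) (o : Option (Fin q)) :
    IsLat (nbs q hq.pos c τ o) :=
  Nb.isLat hq (isLat_sp hc τ) ((nb_iff hq hc τ _).2 ⟨o, rfl⟩)

theorem sum_nbs_scale_hecke {q : ℕ} (hq : q.Prime) (a m : ℕ) {c : ℂ} (hc : c ≠ 0) (τ : ℍ) :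
    ∑ o, jL (nbs q hq.pos 1 τ o) ^ a * dL (nbs q hq.pos 1 τ o) ^ m =
      c ^ (12 * m) * ∑ o, jL (nbs q hq.pos c τ o) ^ a * dL (nbs q hq.pos c τ o) ^ m := by
  rw [Finset.mul_sum]
  refine Finset.sum_congr rfl fun o _ => ?_
  have hl := isLat_nbs_hecke hq one_ne_zero τ o
  rw [nbs_eq_hecke hq.pos c, jL_pr_mul hl hc, dL_pr_mul hl hc, div_pow, ← pow_mul]
  field_simp

theorem intQ_sum_hecke {q : ℕ} (hq : q.Prime) (a b : ℕ) : IntQ fun τ => (q : ℂ) ^ (12 * (a + b)) *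
    ∑ o, jL (nbs q hq.pos 1 τ o) ^ a * dL (nbs q hq.pos 1 τ o) ^ (a + b) := by
  have hg : IntQ fun τ => jInv τ ^ a * ModularForm.discriminant τ ^ (a + b) := by
    have := (intQ_j.pow a).mul ((intQ_disc_div.pow (a + b)).mul (intQ_qq.pow b))
    convert this using 2 with τ
    have h0 : qq τ ≠ 0 := Complex.exp_ne_zero _
    rw [div_pow]
    field_simp
    ring
  have := ((intQ_int ((q : ℤ) ^ (12 * (a + b)))).mul (hg.mulH q hq.pos)).add (hg.trace q hq.pos)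
  convert this using 2 with τ
  have h0 : (q : ℂ) ≠ 0 := Nat.cast_ne_zero.2 hq.ne_zero
  have h1 : (1 : ℂ) * q ≠ 0 := by rwa [one_mul]
  rw [Fintype.sum_option, mul_add, Finset.mul_sum]
  simp only [nbs, jL_sp one_ne_zero, dL_sp one_ne_zero, jL_sp h1, dL_sp h1]
  congr 1
  · push_cast
    rw [one_pow, div_one]
  · refine Finset.sum_congr rfl fun i _ => ?_
    rw [one_mul, div_pow, ← pow_mul]
    field_simp

/-- Power sums over the sublattices of index `q`. -/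
theorem power_sum {q : ℕ} (hq : q.Prime) (a b : ℕ) : ∃ P : Polynomial ℚ, ∀ (c : ℂ) (τ : ℍ), c ≠ 0 →
    ∑ o, (jL (nbs q hq.pos c τ o) * (dL (nbs q hq.pos c τ o) / dL (sp c (c * τ)))) ^ a *
      (dL (nbs q hq.pos c τ o) / dL (sp c (c * τ))) ^ b = Polynomial.aeval (jInv τ) P := by
  obtain ⟨P, -, hP⟩ := (intQ_sum_hecke hq a b).poly (a + b) fun γ τ => by
    rw [sum_nbs_scale_hecke hq a (a + b) (den_ne_zero_hecke γ τ),
      sum_nbs_smul hq (fun Λ => jL Λ ^ a * dL Λ ^ (a + b)) γ τ, mul_left_comm]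
  refine ⟨Polynomial.C (1 / (q : ℚ) ^ (12 * (a + b))) * P.map (algebraMap ℤ ℚ), fun c τ hc => ?_⟩
  have h0 : (q : ℂ) ≠ 0 := Nat.cast_ne_zero.2 hq.ne_zero
  have h1 := ModularForm.discriminant_ne_zero τ
  have h2 := hP τ
  rw [sum_nbs_scale_hecke hq a (a + b) hc] at h2
  rw [map_mul, Polynomial.aeval_map_algebraMap, Polynomial.aeval_C, dL_sp hc]
  have h3 : ∀ o, (jL (nbs q hq.pos c τ o) * (dL (nbs q hq.pos c τ o) /
      (ModularForm.discriminant τ / c ^ 12))) ^ a *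
      (dL (nbs q hq.pos c τ o) / (ModularForm.discriminant τ / c ^ 12)) ^ b =
      c ^ (12 * (a + b)) / ModularForm.discriminant τ ^ (a + b) *
        (jL (nbs q hq.pos c τ o) ^ a * dL (nbs q hq.pos c τ o) ^ (a + b)) := fun o => by
    rw [mul_pow, mul_assoc, ← pow_add, div_pow, div_pow, ← pow_mul]
    field_simp
  simp only [h3, ← Finset.mul_sum]
  rw [eq_ratCast]
  push_cast
  field_simp
  linear_combination h2

/-- Power sums determine the points. -/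
theorem mem_of_power_sums {ι ι' : Type} [Fintype ι] [Fintype ι'] (x y : ι → ℂ) (x' y' : ι' → ℂ)
    (h : ∀ a b : ℕ, ∑ i, x i ^ a * y i ^ b = ∑ i, x' i ^ a * y' i ^ b) (i : ι) :
    ∃ i', x' i' = x i ∧ y' i' = y i := by
  classical
  have key : ∀ S : Finset (ℂ × ℂ), (x i, y i) ∉ S → ∃ G : ℂ × ℂ → ℂ,
      (∀ a b : ℕ, ∑ j, G (x j, y j) * (x j ^ a * y j ^ b) =
        ∑ j, G (x' j, y' j) * (x' j ^ a * y' j ^ b)) ∧ G (x i, y i) = 1 ∧ ∀ s ∈ S, G s = 0 := by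
    intro S
    induction S using Finset.induction_on with
    | empty => exact fun _ => ⟨fun _ => 1, by simpa using h, rfl, by simp⟩
    | insert s S _ ih =>
      intro hs
      rw [Finset.mem_insert, not_or] at hs
      obtain ⟨G, h1, h2, h3⟩ := ih hs.2
      obtain ⟨α, β, h4⟩ : ∃ α β : ℂ, α * (x i - s.1) + β * (y i - s.2) = 1 := by
        by_cases e : x i = s.1
        · have e' : y i - s.2 ≠ 0 := fun e' => hs.1 (Prod.ext e (sub_eq_zero.1 e'))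
          exact ⟨0, (y i - s.2)⁻¹, by rw [zero_mul, zero_add, inv_mul_cancel₀ e']⟩
        · exact ⟨(x i - s.1)⁻¹, 0, by rw [zero_mul, add_zero, inv_mul_cancel₀ (sub_ne_zero.2 e)]⟩
      refine ⟨fun z => G z * (α * (z.1 - s.1) + β * (z.2 - s.2)), fun a b => ?_, ?_, ?_⟩
      · have e : ∀ u v : ℂ, G (u, v) * (α * (u - s.1) + β * (v - s.2)) * (u ^ a * v ^ b) =
            α * (G (u, v) * (u ^ (a + 1) * v ^ b)) + β * (G (u, v) * (u ^ a * v ^ (b + 1))) -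
              (α * s.1 + β * s.2) * (G (u, v) * (u ^ a * v ^ b)) := fun u v => by ring
        simp only [e, Finset.sum_sub_distrib, Finset.sum_add_distrib, ← Finset.mul_sum, h1]
      · simp only [h2, h4, one_mul]
      · intro t ht
        rcases Finset.mem_insert.1 ht with rfl | ht
        · simp
        · simp [h3 t ht]
  by_contra hne
  obtain ⟨G, h1, h2, h3⟩ := key ((Finset.univ.image (fun j => (x j, y j)) ∪
    Finset.univ.image (fun j => (x' j, y' j))).erase (x i, y i)) (Finset.notMem_erase _ _)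
  have e := h1 0 0
  simp only [pow_zero, mul_one] at e
  have e1 : ∀ j, G (x j, y j) = if (x j, y j) = (x i, y i) then 1 else 0 := fun j => by
    split_ifs with hj
    · rw [hj, h2]
    · exact h3 _ (Finset.mem_erase.2 ⟨hj, Finset.mem_union_left _
        (Finset.mem_image_of_mem (fun j => (x j, y j)) (Finset.mem_univ j))⟩)
  have e2 : ∀ j, G (x' j, y' j) = 0 := fun j =>
    h3 _ (Finset.mem_erase.2 ⟨fun hj => hne ⟨j, Prod.ext_iff.1 hj⟩, Finset.mem_union_right _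
      (Finset.mem_image_of_mem (fun j => (x' j, y' j)) (Finset.mem_univ j))⟩)
  simp only [e1, e2, Finset.sum_boole, Finset.sum_const_zero, Nat.cast_eq_zero,
    Finset.card_eq_zero] at e
  exact Finset.filter_eq_empty_iff.1 e (Finset.mem_univ i) rfl

theorem hecke_gal (σ : ℂ ≃+* ℂ) {q : ℕ} (hq : q.Prime) {Λ Λ' M : Lt} (hΛ : IsLat Λ) (hM : IsLat M)
    (hj : jL M = σ (jL Λ)) (h : Nb q Λ Λ') :
    ∃ M', Nb q M M' ∧ jL M' = σ (jL Λ') ∧ dL M' / dL M = σ (dL Λ' / dL Λ) := by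
  have hM0 := dL_ne_zero hM
  obtain ⟨c, τ, hc, rfl⟩ := hΛ
  obtain ⟨c', τ', hc', rfl⟩ := hM
  obtain ⟨o, rfl⟩ := (nb_iff hq hc τ _).1 h
  rw [jL_sp hc, jL_sp hc'] at hj
  obtain ⟨o', h1, h2⟩ := mem_of_power_sums
    (fun o => σ (jL (nbs q hq.pos c τ o) * (dL (nbs q hq.pos c τ o) / dL (sp c (c * τ)))))
    (fun o => σ (dL (nbs q hq.pos c τ o) / dL (sp c (c * τ))))
    (fun o => jL (nbs q hq.pos c' τ' o) * (dL (nbs q hq.pos c' τ' o) / dL (sp c' (c' * τ'))))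
    (fun o => dL (nbs q hq.pos c' τ' o) / dL (sp c' (c' * τ'))) (fun a b => by
      obtain ⟨P, hP⟩ := power_sum hq a b
      rw [hP c' τ' hc', hj]
      simp only [← map_pow, ← map_mul, ← map_sum, hP c τ hc]
      exact (Polynomial.aeval_algHom_apply (σ : ℂ →+* ℂ).toRatAlgHom (jInv τ) P).symm) o
  refine ⟨_, (nb_iff hq hc' τ' _).2 ⟨o', rfl⟩, ?_, h2⟩
  rw [map_mul, ← h2] at h1
  exact mul_right_cancel₀ (div_ne_zero (dL_ne_zero (isLat_nbs_hecke hq hc' τ' o')) hM0) h1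

theorem ch_gal (σ : ℂ ≃+* ℂ) {n : ℕ} {Λ Λ' : Lt} (h : Ch n Λ Λ') (hΛ : IsLat Λ) {M : Lt}
    (hM : IsLat M) (hj : jL M = σ (jL Λ)) :
    ∃ M', Ch n M M' ∧ jL M' = σ (jL Λ') ∧ dL M' / dL M = σ (dL Λ' / dL Λ) := by
  induction h generalizing M with
  | refl Λ => exact ⟨M, Ch.refl M, hj, by rw [div_self (dL_ne_zero hM), div_self (dL_ne_zero hΛ),
      map_one]⟩
  | step hq h1 _ ih =>
    obtain ⟨M₁, a1, a2, a3⟩ := hecke_gal σ hq hΛ hM hj h1
    obtain ⟨M', b1, b2, b3⟩ := ih (h1.isLat hq hΛ) (a1.isLat hq hM) a2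
    refine ⟨M', Ch.step hq a1 b1, b2, ?_⟩
    rw [← div_mul_div_cancel₀ (dL_ne_zero (a1.isLat hq hM)), a3, b3, ← map_mul,
      div_mul_div_cancel₀ (dL_ne_zero (h1.isLat hq hΛ))]

/-- Endomorphisms are transported up to twelfth roots of unity. -/
theorem end_gal (σ : ℂ ≃+* ℂ) {Λ M : Lt} (hΛ : IsLat Λ) (hM : IsLat M) (hj : jL M = σ (jL Λ))
    {α : ℂ} {n : ℕ} (h : Ch n Λ (pr α * Λ)) (hα : α ≠ 0) :
    ∃ β : ℂ, β ^ 12 = σ α ^ 12 ∧ pr β * M ≤ M := by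
  obtain ⟨M', h1, h2, h3⟩ := ch_gal σ h hΛ hM hj
  obtain ⟨-, h4, h5, -⟩ := h1.spec hM
  rw [jL_pr_mul hΛ hα, ← hj] at h2
  obtain ⟨β, hβ, rfl⟩ := jL_inj hM h4 h2.symm
  refine ⟨β, ?_, h5⟩
  rw [dL_pr_mul hM hβ, dL_pr_mul hΛ hα, div_right_comm, div_self (dL_ne_zero hM),
    div_right_comm, div_self (dL_ne_zero hΛ), one_div, one_div, map_inv₀, inv_inj, map_pow] at h3
  exact h3

theorem isog_gal (σ : ℂ ≃+* ℂ) {N : ℕ} (hN : 0 < N) {τ₁ τ₂ : ℍ}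
    (h : Isog N (σ (jInv τ₁)) (σ (jInv τ₂))) :
    ∃ (a d : ℕ) (b : ℤ), 0 < a ∧ a ≤ N ^ 2 ∧ 0 < d ∧ d ≤ N ^ 2 ∧ 0 ≤ b ∧ b < a ∧
      ∃ w : ℍ, (w : ℂ) = (d * τ₂ + b) / a ∧ jInv τ₁ = jInv w := by
  obtain ⟨Λ₁, Λ₂, -, h2, h3, h4, h5, h6⟩ := h
  obtain ⟨n, hn, hch⟩ := exists_ch h2 hN h6 h5
  have hM := isLat_sp one_ne_zero τ₂
  obtain ⟨M', a1, a2, -⟩ := ch_gal σ.symm hch h2 hM
    (by rw [jL_sp one_ne_zero, h4, RingEquiv.symm_apply_apply])
  obtain ⟨b1, -, b3, b4⟩ := a1.spec hM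
  obtain ⟨a, d, b, c1, c2, c3, c4, c5, c6, rfl⟩ := hnf one_ne_zero τ₂ b1 b4 b3
  have ha : (a : ℂ) ≠ 0 := Nat.cast_ne_zero.2 c1.ne'
  have hw : 0 < (((d : ℂ) * τ₂ + b) / a).im := by
    simpa [Complex.div_natCast_im] using div_pos (mul_pos (Nat.cast_pos.2 c2 : (0 : ℝ) < d)
      τ₂.im_pos) (Nat.cast_pos.2 c1 : (0 : ℝ) < a)
  refine ⟨a, d, b, c1, Nat.le_of_dvd (by positivity) (c3.trans hn), c2,
    Nat.le_of_dvd (by positivity) (c4.trans hn), c5, c6, ⟨_, hw⟩, rfl, ?_⟩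
  rw [h3, RingEquiv.symm_apply_apply] at a2
  rw [← a2, ← jL_sp ha, mul_one, one_mul]
  congr 2
  exact (mul_div_cancel₀ _ ha).symm

end Pool.Agent.EQ
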