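import Pool.Agent.P.MP_ad7a55_nt.Lat2

/-! Functions with integral q-expansions. -/

set_option autoImplicit false

noncomputable section

open MeasureTheory Topology Filter UpperHalfPlane
open scoped MatrixGroups ENNReal BoundedContinuousFunction

namespace Pool.Agent.EQ

/-- The parameter `e^{2πiτ}`. -/
def qq (τ : ℍ) : ℂ := Complex.exp (2 * Real.pi * Complex.I * τ)

/-- `f` has a convergent `q`-expansion with integer coefficients. -/
def IntQ (f : ℍ → ℂ) : Prop := ∃ a : ℕ → ℤ, ∀ τ, HasSum (fun n => (a n : ℂ) * qq τ ^ n) (f τ)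

/-- The power series `A` converges at `x` to `y`. -/
def IntqRep (A : PowerSeries ℤ) (x y : ℂ) : Prop :=
  HasSum (fun n => ((PowerSeries.coeff n A : ℤ) : ℂ) * x ^ n) y

theorem intq_congr {f g : ℕ → ℂ} {y : ℂ} (h : HasSum f y) (e : ∀ n, g n = f n) : HasSum g y :=
  (funext e : g = f) ▸ h

theorem intq_iff {f : ℍ → ℂ} : IntQ f ↔ ∃ A, ∀ τ, IntqRep A (qq τ) (f τ) :=
  ⟨fun ⟨a, h⟩ => ⟨PowerSeries.mk a, fun τ => by simpa [IntqRep] using h τ⟩,
    fun ⟨A, h⟩ => ⟨fun n => PowerSeries.coeff n A, h⟩⟩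

theorem IntqRep.add {A B : PowerSeries ℤ} {x y z : ℂ} (h : IntqRep A x y) (h' : IntqRep B x z) :
    IntqRep (A + B) x (y + z) := by
  have := HasSum.add h h'
  simpa [IntqRep, add_mul] using this

theorem IntqRep.sub {A B : PowerSeries ℤ} {x y z : ℂ} (h : IntqRep A x y) (h' : IntqRep B x z) :
    IntqRep (A - B) x (y - z) := by
  have := HasSum.sub h h'
  simpa [IntqRep, sub_mul] using this

theorem IntqRep.mul {A B : PowerSeries ℤ} {x y z : ℂ} (h : IntqRep A x y) (h' : IntqRep B x z) :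
    IntqRep (A * B) x (y * z) := by
  have h1 := summable_norm_iff.2 (HasSum.summable h)
  have h2 := summable_norm_iff.2 (HasSum.summable h')
  have h3 := (summable_norm_sum_mul_antidiagonal_of_summable_norm h1 h2).of_norm.hasSum
  rw [← tsum_mul_tsum_eq_tsum_sum_antidiagonal_of_summable_norm h1 h2, HasSum.tsum_eq h,
    HasSum.tsum_eq h'] at h3
  refine intq_congr h3 fun n => ?_
  rw [PowerSeries.coeff_mul]
  push_cast
  rw [Finset.sum_mul]
  refine Finset.sum_congr rfl fun kl hkl => ?_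
  rw [← Finset.HasAntidiagonal.mem_antidiagonal.1 hkl]
  ring

theorem intq_monomial (k : ℕ) (m : ℤ) (x : ℂ) :
    IntqRep (PowerSeries.monomial k m) x (m * x ^ k) := by
  have := hasSum_single (f := fun n =>
    ((PowerSeries.coeff n (PowerSeries.monomial k m) : ℤ) : ℂ) * x ^ n) k fun n hn => by
      simp [PowerSeries.coeff_monomial, hn]
  simpa [IntqRep] using this

theorem IntqRep.pow {A : PowerSeries ℤ} {x y : ℂ} (h : IntqRep A x y) (n : ℕ) :
    IntqRep (A ^ n) x (y ^ n) := by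
  induction n with
  | zero => simpa using intq_monomial 0 1 x
  | succ n ih => rw [pow_succ, pow_succ]; exact ih.mul h

theorem IntqRep.expand {A : PowerSeries ℤ} {x y : ℂ} {q : ℕ} (hq : q ≠ 0)
    (h : IntqRep A (x ^ q) y) : IntqRep (PowerSeries.expand q hq A) x y := by
  have hi : Function.Injective fun m : ℕ => q * m := mul_right_injective₀ hq
  refine (hi.hasSum_iff fun n hn => ?_).1 ?_
  · rw [PowerSeries.coeff_expand_of_not_dvd q hq A fun ⟨m, hm⟩ => hn ⟨m, hm.symm⟩]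
    simp
  · simpa [Function.comp_def, pow_mul, IntqRep] using h

theorem intq_dvd (A : PowerSeries ℤ) {q : ℕ} (hq : q.Prime) (n : ℕ) :
    (q : ℤ) ∣ PowerSeries.coeff n (A ^ q - PowerSeries.expand q hq.ne_zero A) := by
  have := Fact.mk hq
  rw [← ZMod.intCast_zmod_eq_zero_iff_dvd]
  have h1 := MvPowerSeries.map_frobenius_expand q hq.ne_zero
    (f := PowerSeries.map (Int.castRingHom (ZMod q)) A)
  rw [ZMod.frobenius_zmod, MvPowerSeries.map_id] at h1
  have h2 : PowerSeries.map (Int.castRingHom (ZMod q))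
      (A ^ q - PowerSeries.expand q hq.ne_zero A) = 0 := by
    rw [map_sub, map_pow, PowerSeries.map_expand, sub_eq_zero]
    exact h1.symm
  have h3 := congrArg (PowerSeries.coeff n) h2
  rwa [PowerSeries.coeff_map, map_zero] at h3

theorem IntQ.add {f g : ℍ → ℂ} (hf : IntQ f) (hg : IntQ g) : IntQ fun τ => f τ + g τ := by
  obtain ⟨A, hA⟩ := intq_iff.1 hf
  obtain ⟨B, hB⟩ := intq_iff.1 hg
  exact intq_iff.2 ⟨_, fun τ => (hA τ).add (hB τ)⟩

theorem IntQ.sub {f g : ℍ → ℂ} (hf : IntQ f) (hg : IntQ g) : IntQ fun τ => f τ - g τ := by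
  obtain ⟨A, hA⟩ := intq_iff.1 hf
  obtain ⟨B, hB⟩ := intq_iff.1 hg
  exact intq_iff.2 ⟨_, fun τ => (hA τ).sub (hB τ)⟩

theorem IntQ.mul {f g : ℍ → ℂ} (hf : IntQ f) (hg : IntQ g) : IntQ fun τ => f τ * g τ := by
  obtain ⟨A, hA⟩ := intq_iff.1 hf
  obtain ⟨B, hB⟩ := intq_iff.1 hg
  exact intq_iff.2 ⟨_, fun τ => (hA τ).mul (hB τ)⟩

theorem intQ_int (m : ℤ) : IntQ fun _ => m :=
  intq_iff.2 ⟨_, fun τ => by simpa using intq_monomial 0 m (qq τ)⟩

theorem intQ_qq : IntQ qq :=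
  intq_iff.2 ⟨_, fun τ => by simpa using intq_monomial 1 1 (qq τ)⟩

theorem IntQ.pow {f : ℍ → ℂ} (hf : IntQ f) (n : ℕ) : IntQ fun τ => f τ ^ n := by
  obtain ⟨A, hA⟩ := intq_iff.1 hf
  exact intq_iff.2 ⟨_, fun τ => (hA τ).pow n⟩

theorem qq_mulH (q : ℕ) (hq : 0 < q) (τ : ℍ) : qq (mulH q hq τ) = qq τ ^ q := by
  rw [qq, qq, coe_mulH, ← Complex.exp_nat_mul]
  congr 1
  ring

theorem IntQ.mulH {f : ℍ → ℂ} (hf : IntQ f) (q : ℕ) (hq : 0 < q) :
    IntQ fun τ => f (mulH q hq τ) := by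
  obtain ⟨A, hA⟩ := intq_iff.1 hf
  refine intq_iff.2 ⟨PowerSeries.expand q hq.ne' A, fun τ => IntqRep.expand hq.ne' ?_⟩
  rw [← qq_mulH q hq]
  exact hA _

theorem intq_root_sum {q : ℕ} {ζ : ℂ} (hζ : IsPrimitiveRoot ζ q) {n : ℕ} (hn : ¬ q ∣ n) :
    ∑ i : Fin q, (ζ ^ (i : ℕ)) ^ n = 0 := by
  have h1 : ζ ^ n - 1 ≠ 0 := sub_ne_zero.2 fun h => hn ((hζ.pow_eq_one_iff_dvd n).1 h)
  have h2 := geom_sum_mul (ζ ^ n) q
  rw [← pow_mul, mul_comm n q, pow_mul, hζ.pow_eq_one, one_pow, sub_self] at h2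
  rw [← (mul_eq_zero.1 h2).resolve_right h1, Finset.sum_range]
  exact Finset.sum_congr rfl fun i _ => by rw [← pow_mul, ← pow_mul, mul_comm]

theorem IntQ.trace {f : ℍ → ℂ} (hf : IntQ f) (q : ℕ) (hq : 0 < q) :
    IntQ fun τ => ∑ i : Fin q, f (divH q hq i τ) := by
  obtain ⟨a, ha⟩ := hf
  refine ⟨fun m => q * a (q * m), fun τ => ?_⟩
  have hq0 : (q : ℂ) ≠ 0 := Nat.cast_ne_zero.2 hq.ne'
  have hζ := Complex.isPrimitiveRoot_exp q hq.ne'
  set ζ := Complex.exp (2 * Real.pi * Complex.I / q)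
  set x := Complex.exp (2 * Real.pi * Complex.I * τ / q) with hx
  have h1 : ∀ i : ℕ, qq (divH q hq i τ) = x * ζ ^ i := fun i => by
    rw [qq, coe_divH, ← Complex.exp_nat_mul, ← Complex.exp_add]
    congr 1
    ring
  have h2 : x ^ q = qq τ := by
    rw [qq, hx, ← Complex.exp_nat_mul]
    congr 1
    field_simp
  have h3 := hasSum_sum (s := Finset.univ) fun (i : Fin q) _ => ha (divH q hq i τ)
  have h4 : ∀ n, ∑ i : Fin q, (a n : ℂ) * qq (divH q hq i τ) ^ n =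
      a n * x ^ n * ∑ i : Fin q, (ζ ^ (i : ℕ)) ^ n := fun n => by
    rw [Finset.mul_sum]
    exact Finset.sum_congr rfl fun i _ => by rw [h1, mul_pow, mul_assoc]
  simp only [h4] at h3
  have hi : Function.Injective fun m : ℕ => q * m := mul_right_injective₀ hq.ne'
  have h5 := (hi.hasSum_iff fun n hn => by
    rw [intq_root_sum hζ fun ⟨m, hm⟩ => hn ⟨m, hm.symm⟩, mul_zero]).2 h3
  convert h5 using 2 with m
  have h6 : ∀ i : Fin q, (ζ ^ (i : ℕ)) ^ (q * m) = 1 := fun i => by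
    rw [← pow_mul, mul_left_comm, pow_mul, hζ.pow_eq_one, one_pow]
  simp only [Function.comp_apply, h6, pow_mul x, h2, Finset.sum_const, Finset.card_univ,
    Fintype.card_fin, nsmul_eq_mul, mul_one]
  push_cast
  ring

/-- The Frobenius congruence. -/
theorem IntQ.frob {f : ℍ → ℂ} (hf : IntQ f) {q : ℕ} (hq : q.Prime) :
    IntQ fun τ => (f τ ^ q - f (Pool.Agent.EQ.mulH q hq.pos τ)) / q := by
  obtain ⟨A, hA⟩ := intq_iff.1 hf
  choose b hb using intq_dvd A hq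
  refine ⟨b, fun τ => ?_⟩
  have h1 : IntqRep (PowerSeries.expand q hq.ne_zero A) (qq τ)
      (f (Pool.Agent.EQ.mulH q hq.pos τ)) := by
    refine IntqRep.expand _ ?_
    rw [← qq_mulH q hq.pos]
    exact hA _
  have h2 := HasSum.div_const (((hA τ).pow q).sub h1) (q : ℂ)
  have hq0 : (q : ℂ) ≠ 0 := Nat.cast_ne_zero.2 hq.ne_zero
  refine intq_congr h2 fun n => ?_
  rw [hb n]
  push_cast
  field_simp

theorem IntQ.periodic {f : ℍ → ℂ} (hf : IntQ f) {τ τ' : ℍ} {n : ℤ} (h : (τ' : ℂ) = τ + n) :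
    f τ' = f τ := by
  obtain ⟨a, ha⟩ := hf
  have h1 : qq τ' = qq τ := by
    rw [qq, qq, h, mul_add, Complex.exp_add, mul_comm _ (n : ℂ),
      Complex.exp_int_mul_two_pi_mul_I, mul_one]
  exact (ha τ').unique (h1 ▸ ha τ)

end Pool.Agent.EQ
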