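import Pool.Agent.P.MP_ad7a55_nt.IntQ

/-! Functions with integral q-expansions. -/

set_option autoImplicit false

noncomputable section

open MeasureTheory Topology Filter UpperHalfPlane
open scoped MatrixGroups ENNReal BoundedContinuousFunction

namespace Pool.Agent.EQ

lemma iq2_qq_eq (τ : ℍ) : qq τ = Function.Periodic.qParam 1 τ := by
  simp [qq, Function.Periodic.qParam]

lemma iq2_congr {f g : ℕ → ℂ} {a : ℂ} (h : HasSum f a) (hfg : ∀ n, g n = f n) : HasSum g a := by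
  rwa [funext hfg]

lemma iq2_qq_ne (τ : ℍ) : qq τ ≠ 0 := Complex.exp_ne_zero _

lemma iq2_qq_lt (τ : ℍ) : ‖qq τ‖ < 1 := by
  rw [iq2_qq_eq]
  exact Function.Periodic.norm_qParam_lt_one one_pos τ.im_pos

lemma iq2_qq_surj {q : ℂ} (hq : ‖q‖ < 1) (h0 : q ≠ 0) : ∃ τ : ℍ, qq τ = q := by
  refine ⟨⟨Function.Periodic.invQParam 1 q,
    Function.Periodic.im_invQParam_pos_of_norm_lt_one one_pos hq h0⟩, ?_⟩
  rw [iq2_qq_eq]
  exact Function.Periodic.qParam_right_inv one_ne_zero h0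

lemma iq2_qq_tendsto : Tendsto qq atImInfty (𝓝 0) := by
  have := UpperHalfPlane.qParam_tendsto_atImInfty (h := 1) one_pos
  refine this.congr fun τ => (iq2_qq_eq τ).symm

/-- The sum of the series on the disc. -/
def iq2F (a : ℕ → ℂ) (q : ℂ) : ℂ := ∑' n, a n * q ^ n

lemma iq2_summable {a : ℕ → ℂ} {f : ℍ → ℂ}
    (h : ∀ τ, HasSum (fun n => a n * qq τ ^ n) (f τ)) {q : ℂ} (hq : ‖q‖ < 1) :
    Summable fun n => a n * q ^ n := by
  rcases eq_or_ne q 0 with rfl | h0
  · refine summable_of_ne_finset_zero (s := {0}) fun n hn => ?_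
    have : n ≠ 0 := by simpa using hn
    simp [this]
  · obtain ⟨τ, rfl⟩ := iq2_qq_surj hq h0
    exact (h τ).summable

lemma iq2F_qq {a : ℕ → ℂ} {f : ℍ → ℂ}
    (h : ∀ τ, HasSum (fun n => a n * qq τ ^ n) (f τ)) (τ : ℍ) : iq2F a (qq τ) = f τ :=
  (h τ).tsum_eq

lemma iq2F_zero (a : ℕ → ℂ) : iq2F a 0 = a 0 := by
  unfold iq2F
  rw [tsum_eq_single 0]
  · simp
  · intro n hn
    simp [hn]

lemma iq2_ball {a : ℕ → ℂ} (h : ∀ q : ℂ, ‖q‖ < 1 → Summable fun n => a n * q ^ n) :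
    HasFPowerSeriesOnBall (iq2F a) (.ofScalars ℂ a) 0 1 := by
  constructor
  · refine le_of_forall_lt_imp_le_of_dense fun r hr ↦ ?_
    lift r to NNReal using hr.ne_top
    apply FormalMultilinearSeries.le_radius_of_summable
    have := (h (r : ℂ) (by simpa using hr)).norm
    simpa [smul_eq_mul, norm_mul, mul_comm, mul_left_comm, mul_assoc] using this
  · simp
  · intro y hy
    rw [← ENNReal.coe_one, Metric.eball_coe, NNReal.coe_one, mem_ball_zero_iff] at hy
    simpa [iq2F, mul_comm] using (h y hy).hasSum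

lemma iq2_diff {a : ℕ → ℂ} (h : ∀ q : ℂ, ‖q‖ < 1 → Summable fun n => a n * q ^ n) :
    DifferentiableOn ℂ (iq2F a) (Metric.ball 0 1) := by
  have := (iq2_ball h).differentiableOn
  rwa [← ENNReal.coe_one, Metric.eball_coe, NNReal.coe_one] at this

lemma iq2_tendsto {a : ℕ → ℂ} {f : ℍ → ℂ}
    (h : ∀ τ, HasSum (fun n => a n * qq τ ^ n) (f τ)) : Tendsto f atImInfty (𝓝 (a 0)) := by
  have h1 := (iq2_ball fun q hq => iq2_summable h hq).hasFPowerSeriesAt.continuousAt.tendsto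
  rw [iq2F_zero] at h1
  exact (h1.comp iq2_qq_tendsto).congr fun τ => iq2F_qq h τ

lemma iq2_unique {a b : ℕ → ℂ} {f : ℍ → ℂ}
    (ha : ∀ τ, HasSum (fun n => a n * qq τ ^ n) (f τ))
    (hb : ∀ τ, HasSum (fun n => b n * qq τ ^ n) (f τ)) : a = b := by
  have h1 := (iq2_ball fun q hq => iq2_summable ha hq).hasFPowerSeriesAt
  have h2 := (iq2_ball fun q hq => iq2_summable hb hq).hasFPowerSeriesAt
  have h0 : a 0 = b 0 := tendsto_nhds_unique (iq2_tendsto ha) (iq2_tendsto hb)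
  have h3 : iq2F a =ᶠ[𝓝 0] iq2F b := by
    filter_upwards [Metric.ball_mem_nhds (0 : ℂ) one_pos] with q hq
    rcases eq_or_ne q 0 with rfl | hq0
    · rw [iq2F_zero, iq2F_zero, h0]
    · obtain ⟨τ, rfl⟩ := iq2_qq_surj (mem_ball_zero_iff.1 hq) hq0
      rw [iq2F_qq ha, iq2F_qq hb]
  have h4 := h1.eq_formalMultilinearSeries_of_eventually h2 h3
  funext m
  simpa using congr_arg (FormalMultilinearSeries.coeff · m) h4

lemma iq2_mul {a b : ℕ → ℂ} {f g : ℍ → ℂ}
    (ha : ∀ τ, HasSum (fun n => a n * qq τ ^ n) (f τ))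
    (hb : ∀ τ, HasSum (fun n => b n * qq τ ^ n) (g τ)) (τ : ℍ) :
    HasSum (fun n => (∑ p ∈ Finset.HasAntidiagonal.antidiagonal n, a p.1 * b p.2) * qq τ ^ n) (f τ * g τ) := by
  have h1 := (ha τ).summable.norm
  have h2 := (hb τ).summable.norm
  have h3 := tsum_mul_tsum_eq_tsum_sum_antidiagonal_of_summable_norm h1 h2
  have h4 := (summable_norm_sum_mul_antidiagonal_of_summable_norm h1 h2).of_norm
  rw [(ha τ).tsum_eq, (hb τ).tsum_eq] at h3
  rw [h3]
  refine iq2_congr h4.hasSum fun n => ?_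
  rw [Finset.sum_mul]
  refine Finset.sum_congr rfl fun p hp => ?_
  rw [← Finset.HasAntidiagonal.mem_antidiagonal.1 hp, pow_add]
  ring

lemma iq2_shift {a : ℕ → ℂ} {f : ℍ → ℂ}
    (ha : ∀ τ, HasSum (fun n => a n * qq τ ^ n) (f τ)) (h0 : a 0 = 0) (τ : ℍ) :
    HasSum (fun n => a (n + 1) * qq τ ^ n) (f τ / qq τ) := by
  have h1 := (hasSum_nat_add_iff' 1).2 (ha τ)
  simp only [Finset.range_one, Finset.sum_singleton, h0, zero_mul, sub_zero] at h1
  refine iq2_congr (h1.div_const (qq τ)) fun n => ?_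
  have := iq2_qq_ne τ
  rw [pow_succ]
  field_simp

lemma IntQ.iq2_shift {f : ℍ → ℂ} (hf : IntQ f) (h0 : Tendsto f atImInfty (𝓝 0)) :
    IntQ fun τ => f τ / qq τ := by
  obtain ⟨a, ha⟩ := hf
  have h1 : (a 0 : ℂ) = 0 :=
    tendsto_nhds_unique (iq2_tendsto (a := fun n => (a n : ℂ)) ha) h0
  exact ⟨fun n => a (n + 1), fun τ => Pool.Agent.EQ.iq2_shift (a := fun n => (a n : ℂ)) ha h1 τ⟩

lemma IntQ.iq2_div {f g : ℍ → ℂ} (hf : IntQ f) (hg : IntQ g) (h1 : Tendsto g atImInfty (𝓝 1))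
    (h0 : ∀ τ, g τ ≠ 0) : IntQ fun τ => f τ / g τ := by
  obtain ⟨a, ha⟩ := hf
  obtain ⟨b, hb⟩ := hg
  have hb0 : (b 0 : ℂ) = 1 :=
    tendsto_nhds_unique (iq2_tendsto (a := fun n => (b n : ℂ)) hb) h1
  have hA := iq2_diff fun q hq => iq2_summable (a := fun n => (a n : ℂ)) ha hq
  have hB := iq2_diff fun q hq => iq2_summable (a := fun n => (b n : ℂ)) hb hq
  have hne : ∀ q ∈ Metric.ball (0 : ℂ) 1, iq2F (fun n => (b n : ℂ)) q ≠ 0 := by
    intro q hq
    rcases eq_or_ne q 0 with rfl | hq0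
    · rw [iq2F_zero, hb0]
      exact one_ne_zero
    · obtain ⟨τ, rfl⟩ := iq2_qq_surj (mem_ball_zero_iff.1 hq) hq0
      rw [iq2F_qq (a := fun n => (b n : ℂ)) hb]
      exact h0 τ
  have hC := hA.div hB hne
  set c : ℕ → ℂ := fun n => ((n.factorial : ℂ))⁻¹ *
    iteratedDeriv n (iq2F (fun n => (a n : ℂ)) / iq2F (fun n => (b n : ℂ))) 0 with hc
  have hcs : ∀ τ, HasSum (fun n => c n * qq τ ^ n) (f τ / g τ) := by
    intro τ
    have h2 := Complex.hasSum_taylorSeries_on_ball hC (mem_ball_zero_iff.2 (iq2_qq_lt τ))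
    rw [Pi.div_apply, iq2F_qq (a := fun n => (a n : ℂ)) ha,
      iq2F_qq (a := fun n => (b n : ℂ)) hb] at h2
    refine iq2_congr h2 fun n => ?_
    simp only [hc, sub_zero, smul_eq_mul]
    ring
  have hprod : ∀ τ, HasSum (fun n => (∑ p ∈ Finset.HasAntidiagonal.antidiagonal n, (b p.1 : ℂ) * c p.2) * qq τ ^ n)
      (f τ) := by
    intro τ
    have := iq2_mul (a := fun n => (b n : ℂ)) hb hcs τ
    rwa [mul_div_cancel₀ _ (h0 τ)] at this
  have huniq := iq2_unique (a := fun n => (a n : ℂ)) ha hprod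
  have hint : ∀ n, ∃ z : ℤ, c n = z := by
    intro n
    induction n using Nat.strong_induction_on with
    | _ n ih =>
      have h2 := congr_fun huniq n
      cases n with
      | zero =>
        refine ⟨a 0, ?_⟩
        simp [hb0] at h2
        exact h2.symm
      | succ n =>
        rw [Finset.Nat.antidiagonal_succ, Finset.sum_cons, Finset.sum_map] at h2
        simp only [hb0, one_mul, Function.Embedding.coe_prodMap, Function.Embedding.coeFn_mk,
          Prod.map_fst, Prod.map_snd, Function.Embedding.refl_apply, Nat.succ_eq_add_one] at h2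
        have h3 : ∃ z : ℤ, (∑ p ∈ Finset.HasAntidiagonal.antidiagonal n, (b (p.1 + 1) : ℂ) * c p.2) = z := by
          refine Finset.sum_induction _ (fun x : ℂ => ∃ z : ℤ, x = z) ?_ ⟨0, by simp⟩ ?_
          · rintro x y ⟨u, rfl⟩ ⟨v, rfl⟩
            exact ⟨u + v, by push_cast; ring⟩
          · intro p hp
            have h4 : p.2 < n + 1 := by
              have := Finset.HasAntidiagonal.mem_antidiagonal.1 hp
              omega
            obtain ⟨z, hz⟩ := ih p.2 h4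
            exact ⟨b (p.1 + 1) * z, by rw [hz]; push_cast; ring⟩
        obtain ⟨z, hz⟩ := h3
        refine ⟨a (n + 1) - z, ?_⟩
        push_cast
        rw [h2, hz]
        ring
  choose z hz using hint
  exact ⟨z, fun τ => by simpa only [hz] using hcs τ⟩

/-- The divisor series. -/
def iq2S (k : ℕ) (τ : ℍ) : ℂ := ∑' n : ℕ, (ArithmeticFunction.sigma k n : ℂ) * qq τ ^ n

lemma iq2S_hasSum (k : ℕ) (τ : ℍ) :
    HasSum (fun n : ℕ => (ArithmeticFunction.sigma k n : ℂ) * qq τ ^ n) (iq2S k τ) := by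
  have := EisensteinSeries.summable_sigma_mul_cexp_pow (k := k + 1) (by omega) τ
  exact this.hasSum

lemma iq2S_int (k : ℕ) : IntQ (iq2S k) :=
  ⟨fun n => ArithmeticFunction.sigma k n, fun τ => by simpa using iq2S_hasSum k τ⟩

lemma iq2_E_eq {k : ℕ} (hk : 3 ≤ k) (hk2 : Even k) (τ : ℍ) :
    ModularForm.E hk τ = 1 - (2 * k / bernoulli k : ℂ) * iq2S (k - 1) τ := by
  have h1 := ModularForm.hasSum_qExpansion (ModularForm.E hk) one_pos one_mem_strictPeriods_SL τ
  simp only [EisensteinSeries.E_qExpansion_coeff hk hk2, ← iq2_qq_eq] at h1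
  have h2 := (hasSum_ite_eq (0 : ℕ) (1 : ℂ)).sub
    ((iq2S_hasSum (k - 1) τ).mul_left (2 * k / bernoulli k : ℂ))
  refine h1.unique (iq2_congr h2 fun n => ?_)
  split_ifs with hn
  · subst hn
    simp
  · ring

lemma iq2_E4_eq (τ : ℍ) : ModularForm.E₄ τ = 1 + 240 * iq2S 3 τ := by
  rw [iq2_E_eq (k := 4) (by norm_num) ⟨2, rfl⟩ τ]
  have : bernoulli 4 = -1 / 30 := by
    rw [bernoulli_eq_bernoulli'_of_ne_one (by norm_num), bernoulli'_four]
  rw [this]
  push_cast
  ring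

lemma iq2_E6_eq (τ : ℍ) : ModularForm.E₆ τ = 1 - 504 * iq2S 5 τ := by
  rw [iq2_E_eq (k := 6) (by norm_num) ⟨3, rfl⟩ τ]
  have : bernoulli 6 = 1 / 42 := by decide +kernel
  rw [this]
  push_cast
  ring

theorem intQ_E4 : IntQ fun τ => ModularForm.E₄ τ := by
  have := (intQ_int 1).add ((intQ_int 240).mul (iq2S_int 3))
  simpa [iq2_E4_eq] using this

lemma iq2_twelve (n : ℕ) :
    12 ∣ 5 * ArithmeticFunction.sigma 3 n + 7 * ArithmeticFunction.sigma 5 n := by
  rw [ArithmeticFunction.sigma_apply, ArithmeticFunction.sigma_apply, Finset.mul_sum,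
    Finset.mul_sum, ← Finset.sum_add_distrib]
  refine Finset.dvd_sum fun d _ => ?_
  have h : ∀ x : ZMod 12, 5 * x ^ 3 + 7 * x ^ 5 = 0 := by decide
  rw [← ZMod.natCast_eq_zero_iff]
  push_cast
  exact h d

lemma iq2_intQ_comb : IntQ fun τ => (5 * iq2S 3 τ + 7 * iq2S 5 τ) / 12 := by
  choose z hz using iq2_twelve
  refine ⟨fun n => z n, fun τ => ?_⟩
  have h := (((iq2S_hasSum 3 τ).mul_left 5).add ((iq2S_hasSum 5 τ).mul_left 7)).div_const 12
  refine iq2_congr h fun n => ?_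
  have h1 : (5 * (ArithmeticFunction.sigma 3 n : ℂ) + 7 * ArithmeticFunction.sigma 5 n) =
      12 * z n := by exact_mod_cast hz n
  push_cast
  linear_combination (-(qq τ ^ n) / 12) * h1

lemma iq2_intQ_disc : IntQ ModularForm.discriminant := by
  have h := ((iq2_intQ_comb.add ((intQ_int 100).mul ((iq2S_int 3).pow 2))).add
    ((intQ_int 8000).mul ((iq2S_int 3).pow 3))).sub ((intQ_int 147).mul ((iq2S_int 5).pow 2))
  convert h using 2 with τ
  rw [ModularForm.discriminant_eq_E₄_cube_sub_E₆_sq, iq2_E4_eq, iq2_E6_eq]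
  push_cast
  ring

theorem intQ_disc_div : IntQ fun τ => ModularForm.discriminant τ / qq τ :=
  iq2_intQ_disc.iq2_shift ModularForm.discriminant_isZeroAtImInfty

lemma iq2_disc_div_tendsto :
    Tendsto (fun τ => ModularForm.discriminant τ / qq τ) atImInfty (𝓝 1) := by
  refine ModularForm.tendsto_atImInfty_tprod_one_sub_eta_q_pow.congr fun τ => ?_
  rw [ModularForm.discriminant_eq_q_prod, ← iq2_qq_eq, mul_div_cancel_left₀ _ (iq2_qq_ne τ)]

lemma iq2_disc_div_ne (τ : ℍ) : ModularForm.discriminant τ / qq τ ≠ 0 :=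
  div_ne_zero (ModularForm.discriminant_ne_zero τ) (iq2_qq_ne τ)

theorem intQ_j : IntQ fun τ => qq τ * jInv τ := by
  have h := (intQ_E4.pow 3).iq2_div intQ_disc_div iq2_disc_div_tendsto iq2_disc_div_ne
  convert h using 2 with τ
  have h1 := iq2_qq_ne τ
  have h2 := ModularForm.discriminant_ne_zero τ
  unfold jInv
  field_simp

lemma iq2_E4_tendsto : Tendsto (fun τ => ModularForm.E₄ τ) atImInfty (𝓝 1) := by
  have h := iq2_tendsto (iq2S_hasSum 3)
  simp only [ArithmeticFunction.map_zero, Nat.cast_zero] at h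
  have h1 := (h.const_mul 240).const_add 1
  simp only [mul_zero, add_zero] at h1
  exact h1.congr fun τ => (iq2_E4_eq τ).symm

lemma iq2_const {a : ℕ → ℂ} {f : ℍ → ℂ}
    (ha : ∀ τ, HasSum (fun n => a n * qq τ ^ n) (f τ))
    (hw : ∀ (γ : SL(2, ℤ)) (τ : ℍ), f (γ • τ) = f τ) (τ : ℍ) : f τ = a 0 := by
  have hA := iq2_diff fun q hq => iq2_summable ha hq
  have h : Set.EqOn (iq2F a) (Function.const ℂ (iq2F a 0)) (Metric.ball 0 1) := by
    refine Complex.eq_const_of_exists_le hA (Real.exp_nonneg (-Real.pi)) ?_ (fun q hq ↦ ?_)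
    · simp [Real.pi_pos]
    · simp only [Metric.mem_closedBall, dist_zero_right]
      rcases eq_or_ne q 0 with rfl | hq'
      · refine ⟨0, by simpa only [norm_zero] using Real.exp_nonneg _, le_rfl⟩
      · obtain ⟨σ, rfl⟩ := iq2_qq_surj (mem_ball_zero_iff.1 hq) hq'
        obtain ⟨γ, hγ⟩ := ModularGroup.exists_one_half_le_im_smul σ
        refine ⟨qq (γ • σ), ?_, ?_⟩
        · rw [iq2_qq_eq]
          exact Function.Periodic.norm_qParam_le_of_one_half_le_im hγ
        · rw [iq2F_qq ha, iq2F_qq ha, hw]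
  have h1 := h (mem_ball_zero_iff.2 (iq2_qq_lt τ))
  rwa [iq2F_qq ha, Function.const_apply, iq2F_zero] at h1

lemma iq2_den_ne (γ : SL(2, ℤ)) (τ : ℍ) : ((γ 1 0 : ℂ) * τ + γ 1 1) ≠ 0 := by
  intro h
  have h1 := disc_smul γ τ
  rw [h] at h1
  exact ModularForm.discriminant_ne_zero (γ • τ) (by simpa using h1)

/-- A function of weight `12 m` with integral expansion is `Δ^m` times an integral polynomial
in `j`. -/
theorem IntQ.poly (m : ℕ) {f : ℍ → ℂ} (hf : IntQ f)
    (hw : ∀ (γ : SL(2, ℤ)) (τ : ℍ), f (γ • τ) = ((γ 1 0 : ℂ) * τ + γ 1 1) ^ (12 * m) * f τ) :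
    ∃ P : Polynomial ℤ, P.natDegree ≤ m ∧
      ∀ τ, f τ = ModularForm.discriminant τ ^ m * Polynomial.aeval (jInv τ) P := by
  induction m generalizing f with
  | zero =>
    obtain ⟨a, ha⟩ := hf
    refine ⟨Polynomial.C (a 0), by simp, fun τ => ?_⟩
    rw [iq2_const (a := fun n => (a n : ℂ)) ha (fun γ τ => by simpa using hw γ τ) τ]
    simp
  | succ m ih =>
    obtain ⟨a, ha⟩ := hf
    have hE : ∀ τ, ModularForm.E₄ τ ^ 3 = ModularForm.discriminant τ * jInv τ := by
      intro τ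
      have h2 := ModularForm.discriminant_ne_zero τ
      unfold jInv
      field_simp
    have hg : IntQ fun τ => f τ - ((a 0 : ℤ) : ℂ) * (ModularForm.E₄ τ ^ 3) ^ (m + 1) :=
      IntQ.sub ⟨a, ha⟩ ((intQ_int (a 0)).mul ((intQ_E4.pow 3).pow (m + 1)))
    have hg0 : Tendsto (fun τ => f τ - ((a 0 : ℤ) : ℂ) * (ModularForm.E₄ τ ^ 3) ^ (m + 1))
        atImInfty (𝓝 0) := by
      have h1 := (iq2_tendsto (a := fun n => (a n : ℂ)) ha).sub
        (((iq2_E4_tendsto.pow 3).pow (m + 1)).const_mul ((a 0 : ℤ) : ℂ))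
      simpa using h1
    have hh := (hg.iq2_shift hg0).iq2_div intQ_disc_div iq2_disc_div_tendsto iq2_disc_div_ne
    have hh' : IntQ fun τ => (f τ - ((a 0 : ℤ) : ℂ) *
        (ModularForm.discriminant τ * jInv τ) ^ (m + 1)) / ModularForm.discriminant τ := by
      convert hh using 2 with τ
      have h1 := iq2_qq_ne τ
      have h2 := ModularForm.discriminant_ne_zero τ
      rw [hE]
      field_simp
    obtain ⟨P, hP, hPf⟩ := ih hh' (by
      intro γ τ
      have h1 := iq2_den_ne γ τ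
      have h2 := ModularForm.discriminant_ne_zero τ
      rw [hw, disc_smul, jInv_smul]
      generalize ((γ 1 0 : ℂ) * τ + γ 1 1) = u at h1 ⊢
      field_simp
      ring)
    refine ⟨Polynomial.C (a 0) * Polynomial.X ^ (m + 1) + P, ?_, fun τ => ?_⟩
    · refine (Polynomial.natDegree_add_le _ _).trans (max_le ?_ (by omega))
      exact Polynomial.natDegree_C_mul_X_pow_le _ _
    · have h1 := hPf τ
      have h2 := ModularForm.discriminant_ne_zero τ
      rw [div_eq_iff h2] at h1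
      simp only [map_add, map_mul, map_pow, Polynomial.aeval_X,
        eq_intCast, map_intCast]
      linear_combination h1

end Pool.Agent.EQ
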