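import Pool.Agent.P.MP_ad7a55_nt.Base

/-! Basic properties of j. -/

set_option autoImplicit false

noncomputable section

open MeasureTheory Topology Filter UpperHalfPlane
open scoped MatrixGroups ENNReal BoundedContinuousFunction ModularForm Manifold

namespace Pool.Agent.EQ

theorem jbas_smul {k : ℤ} {F : Type} [FunLike F ℍ ℂ] [SlashInvariantFormClass F 𝒮ℒ k] (f : F)
    (γ : SL(2, ℤ)) (τ : ℍ) : f (γ • τ) = ((γ 1 0 : ℂ) * τ + γ 1 1) ^ k * f τ := by
  have hγ : (γ : GL (Fin 2) ℝ) ∈ 𝒮ℒ := ⟨γ, rfl⟩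
  have := SlashInvariantForm.slash_action_eqn' f hγ τ
  simpa using this

theorem jbas_den (γ : SL(2, ℤ)) (τ : ℍ) : ((γ 1 0 : ℂ) * τ + γ 1 1) ≠ 0 := by
  have := denom_ne_zero (γ : GL (Fin 2) ℝ) τ
  simpa [denom] using this

theorem jbas_disc (γ : SL(2, ℤ)) (τ : ℍ) :
    ModularForm.discriminant (γ • τ) =
      ((γ 1 0 : ℂ) * τ + γ 1 1) ^ 12 * ModularForm.discriminant τ := by
  have := jbas_smul CuspForm.discriminant γ τ
  rw [CuspForm.coe_discriminant] at this
  rw [this]
  norm_cast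

theorem jInv_smul (γ : SL(2, ℤ)) (τ : ℍ) : jInv (γ • τ) = jInv τ := by
  have h1 := jbas_smul ModularForm.E₄ γ τ
  have h2 := jbas_den γ τ
  have h3 := ModularForm.discriminant_ne_zero τ
  rw [jInv, jInv, h1, jbas_disc, zpow_ofNat]
  field_simp

theorem disc_smul (γ : SL(2, ℤ)) (τ : ℍ) :
    ModularForm.discriminant (γ • τ) =
      ((γ 1 0 : ℂ) * τ + γ 1 1) ^ 12 * ModularForm.discriminant τ :=
  jbas_disc γ τ

theorem continuous_jInv : Continuous jInv :=
  ((ModularFormClass.holo ModularForm.E₄).continuous.pow 3).div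
    (ModularFormClass.holo CuspForm.discriminant).continuous ModularForm.discriminant_ne_zero

theorem jbas_E4_tendsto : Tendsto (fun τ => ModularForm.E₄ τ) atImInfty (𝓝 1) := by
  have hanal := ModularFormClass.analyticAt_cuspFunction_zero ModularForm.E₄ one_pos
    one_mem_strictPeriods_SL
  have hper := SlashInvariantFormClass.periodic_comp_ofComplex ModularForm.E₄
    one_mem_strictPeriods_SL
  have h0 : (qExpansion 1 ModularForm.E₄).coeff 0 = 1 :=
    EisensteinSeries.E_qExpansion_coeff_zero _ ⟨2, rfl⟩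
  rw [qExpansion_coeff_zero one_pos hanal hper, ← cuspFunction_apply_zero one_pos hanal hper] at h0
  rw [← h0]
  exact (hanal.continuousAt.tendsto.comp (qParam_tendsto_atImInfty one_pos)).congr
    (fun τ ↦ SlashInvariantFormClass.eq_cuspFunction ModularForm.E₄ τ one_mem_strictPeriods_SL
      one_ne_zero)

theorem jInv_surj (z : ℂ) : ∃ τ : ℍ, jInv τ = z := by
  by_contra hne
  push Not at hne
  let P : ModularForm 𝒮ℒ 12 := ModularForm.mcast (by decide) (ModularForm.E₄.pow 3) -
    z • (CuspForm.discriminant : ModularForm 𝒮ℒ 12)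
  have hP : ∀ τ, P τ = ModularForm.E₄ τ ^ 3 - z * ModularForm.discriminant τ := fun τ => rfl
  have hP0 : ∀ τ, P τ ≠ 0 := by
    intro τ h
    apply hne τ
    rw [hP, sub_eq_zero] at h
    rw [jInv, h, mul_div_cancel_right₀ _ (ModularForm.discriminant_ne_zero τ)]
  have hlim : Tendsto (fun τ => P τ) atImInfty (𝓝 1) := by
    have := (jbas_E4_tendsto.pow 3).sub
      (Tendsto.const_mul z ModularForm.discriminant_isZeroAtImInfty)
    simpa [hP] using this
  have hs : ∀ γ : SL(2, ℤ), (fun τ => (1 : ℂ) / P τ) ∣[(0 - 12 : ℤ)] γ = fun τ => 1 / P τ := by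
    intro γ
    have hγ : (γ : GL (Fin 2) ℝ) ∈ 𝒮ℒ := ⟨γ, rfl⟩
    change (⇑(1 : ModularForm 𝒮ℒ 0) / ⇑P) ∣[(0 - 12 : ℤ)] γ = ⇑(1 : ModularForm 𝒮ℒ 0) / ⇑P
    simp_rw [ModularForm.div_slash_SL2, ModularForm.SL_slash,
      SlashInvariantForm.slash_action_eqn _ _ hγ]
  let G : ModularForm 𝒮ℒ (0 - 12) :=
    { toFun τ := 1 / P τ
      slash_action_eq' := fun _ ⟨γ, hγ⟩ ↦ hγ ▸ hs γ
      holo' := (1 : ModularForm 𝒮ℒ 0).holo'.div P.holo' hP0
      bdd_at_cusps' {c} hc := by
        rw [Subgroup.IsArithmetic.isCusp_iff_isCusp_SL2Z] at hc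
        rw [OnePoint.isBoundedAt_iff_forall_SL2Z hc]
        intro γ _
        rw [hs γ, IsBoundedAtImInfty, BoundedAtFilter]
        exact (tendsto_const_nhds.div hlim one_ne_zero).isBigO_one ℝ }
  have h0 := congrFun (ModularFormClass.levelOne_neg_weight_eq_zero (by norm_num) G) I
  exact one_div_ne_zero (hP0 I) h0

theorem jbas_volume_fd_lt_top : volume (ModularGroup.fd : Set ℍ) < ⊤ := by
  rw [volume_eq_lintegral]
  have h1 : IntegrableOn (fun q : ℝ × ℝ => (1 : ℝ) * q.2 ^ (-2 : ℝ))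
      (Set.Icc (-(1 / 2) : ℝ) (1 / 2) ×ˢ Set.Ioi (1 / 2 : ℝ)) volume := by
    rw [IntegrableOn, Measure.volume_eq_prod, ← Measure.prod_restrict]
    exact Integrable.mul_prod (f := fun _ : ℝ => (1 : ℝ)) (integrable_const _)
      (integrableOn_Ioi_rpow_of_lt (by norm_num) (by norm_num))
  have h2 := (Complex.volume_preserving_equiv_real_prod.integrableOn_comp_preimage
    Complex.measurableEquivRealProd.measurableEmbedding).2 h1
  have hs : UpperHalfPlane.coe '' ModularGroup.fd ⊆ Complex.measurableEquivRealProd ⁻¹'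
      (Set.Icc (-(1 / 2) : ℝ) (1 / 2) ×ˢ Set.Ioi (1 / 2 : ℝ)) := by
    rintro _ ⟨τ, hτ, rfl⟩
    refine ⟨abs_le.1 hτ.2, ?_⟩
    have := ModularGroup.three_le_four_mul_im_sq_of_mem_fd hτ
    have := τ.im_pos
    change 1 / 2 < τ.im
    nlinarith
  refine lt_of_le_of_lt (le_of_eq ?_) (h2.mono_set hs).2
  refine setLIntegral_congr_fun (measurableEmbedding_coe.measurableSet_image.2
    ModularGroup.isClosed_fd.measurableSet) ?_
  rintro _ ⟨τ, -, rfl⟩
  have := τ.im_pos
  simp only [Function.comp_apply, one_mul, enorm_eq_nnnorm, ENNReal.coe_inj]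
  ext
  change _ = ‖τ.im ^ (-2 : ℝ)‖
  rw [Real.norm_of_nonneg (by positivity), Real.rpow_neg this.le]
  simp [abs_of_pos this]

theorem jbas_vol_pos {U : Set ℍ} (hU : IsOpen U) (hne : U.Nonempty) : 0 < volume U := by
  rw [pos_iff_ne_zero]
  intro h
  have h1 : (volume.comap UpperHalfPlane.coe : Measure ℍ) ≪ volume := by
    refine withDensity_absolutelyContinuous' (Measurable.aemeasurable ?_)
      (Eventually.of_forall fun z => ?_)
    · have hc : Continuous fun z : ℍ => (NNReal.mk z.im z.im_pos.le : NNReal) :=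
        continuous_im.subtype_mk _
      exact measurable_coe_nnreal_ennreal.comp ((measurable_const.div hc.measurable).pow_const 2)
    · have : NNReal.mk z.im z.im_pos.le ≠ 0 := NNReal.ne_iff.mp z.im_ne_zero
      exact ENNReal.coe_ne_zero.2 (pow_ne_zero _ (one_div_ne_zero this))
  have h2 := h1 h
  rw [measurableEmbedding_coe.comap_apply] at h2
  exact ((isOpenEmbedding_coe.isOpenMap U hU).measure_pos volume (hne.image _)).ne' h2

theorem jbas_volume_fd_pos : 0 < volume (ModularGroup.fd : Set ℍ) := by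
  refine (jbas_vol_pos (U := {τ : ℍ | 1 < τ.im ∧ |τ.re| < 1 / 2}) ?_ ?_).trans_le
    (measure_mono ?_)
  · exact (isOpen_lt continuous_const continuous_im).inter
      (isOpen_lt continuous_re.abs continuous_const)
  · exact ⟨⟨2 * Complex.I, by simp⟩, by simp [UpperHalfPlane.im], by simp [UpperHalfPlane.re]⟩
  · rintro τ ⟨h1, h2⟩
    refine ⟨?_, h2.le⟩
    rw [Complex.normSq_apply]
    change 1 ≤ τ.re * τ.re + τ.im * τ.im
    nlinarith [mul_self_nonneg τ.re]

instance instProbmY : IsProbabilityMeasure mY := by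
  have := ProbabilityTheory.cond_isProbabilityMeasure_of_finite jbas_volume_fd_pos.ne'
    jbas_volume_fd_lt_top.ne
  exact Measure.isProbabilityMeasure_map continuous_jInv.measurable.aemeasurable

end Pool.Agent.EQ
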