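import Pool.Agent.P.MP_ad7a55_nt.Pair

/-! Locally rigid joinings of two copies of X charge the singular set. -/

set_option autoImplicit false

noncomputable section

open MeasureTheory Topology Filter UpperHalfPlane
open scoped MatrixGroups ENNReal BoundedContinuousFunction

namespace Pool.Agent.EQ

theorem pair2_cancel_right {η A B : Matrix (Fin 2) (Fin 2) ℝ} (hη : η.det ≠ 0)
    (h : A * η = B * η) : A = B := by
  have hu : IsUnit η := (Matrix.isUnit_iff_isUnit_det η).2 (isUnit_iff_ne_zero.2 hη)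
  exact hu.mul_right_cancel h

theorem pair2_cancel_left {η A B : Matrix (Fin 2) (Fin 2) ℝ} (hη : η.det ≠ 0)
    (h : η * A = η * B) : A = B := by
  have hu : IsUnit η := (Matrix.isUnit_iff_isUnit_det η).2 (isUnit_iff_ne_zero.2 hη)
  exact hu.mul_left_cancel h

theorem pair2_inj {θ : SL(2, ℝ) →* SL(2, ℝ)} (hθ : IsConjHom θ) : Function.Injective θ := by
  obtain ⟨η, hη, h⟩ := hθ
  intro a b hab
  apply Subtype.ext
  refine pair2_cancel_left hη ?_
  have h1 := h a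
  have h2 := h b
  rw [hab] at h1
  exact h1.symm.trans h2

theorem pair2_neg {θ : SL(2, ℝ) →* SL(2, ℝ)} (hθ : IsConjHom θ) : θ (-1) = -1 := by
  obtain ⟨η, hη, h⟩ := hθ
  apply Subtype.ext
  refine pair2_cancel_right hη ?_
  have h1 := h (-1)
  refine h1.trans ?_
  simp

theorem pair2_unip {θ : SL(2, ℝ) →* SL(2, ℝ)} (hθ : IsConjHom θ) {u : SL(2, ℝ)} (hu : Unip u) :
    Unip (θ u) := by
  obtain ⟨η, hη, h⟩ := hθ
  have h1 : ((θ u : Matrix (Fin 2) (Fin 2) ℝ) - 1) * η =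
      η * ((u : Matrix (Fin 2) (Fin 2) ℝ) - 1) := by
    rw [sub_mul, mul_sub, h u, one_mul, mul_one]
  refine pair2_cancel_right hη ?_
  rw [mul_assoc, h1, ← mul_assoc, h1, mul_assoc, hu, mul_zero, zero_mul]

theorem pair2_unip_uu (x : ℝ) : Unip (uu x) := by
  unfold Unip
  ext i j
  fin_cases i <;> fin_cases j <;> simp [Matrix.mul_apply, Fin.sum_univ_two]

theorem pair2_unip_ul (x : ℝ) : Unip (ul x) := by
  unfold Unip
  ext i j
  fin_cases i <;> fin_cases j <;> simp [Matrix.mul_apply, Fin.sum_univ_two]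

theorem pair2_toR_uu : toR (uu 1) = uu 1 := by
  ext i j
  fin_cases i <;> fin_cases j <;> simp [toR]

theorem pair2_toR_ul : toR (ul 1) = ul 1 := by
  ext i j
  fin_cases i <;> fin_cases j <;> simp [toR]

theorem pair2_uu_pow (N : ℕ) : (uu (1 : ℝ)) ^ N = uu (N : ℝ) := by
  induction N with
  | zero => simp
  | succ n ih => rw [pow_succ, ih, ← uu_add]; push_cast; rfl

theorem pair2_ul_pow (N : ℕ) : (ul (1 : ℝ)) ^ N = ul (N : ℝ) := by
  induction N with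
  | zero => simp
  | succ n ih => rw [pow_succ, ih, ← ul_add]; push_cast; rfl

theorem pair2_comm {θ : SL(2, ℝ) →* SL(2, ℝ)} (hθ : IsConjHom θ) (δ : SL(2, ℝ))
    (h1 : δ * (θ (uu 1))⁻¹ = (θ (uu 1))⁻¹ * δ) (h2 : δ * (θ (ul 1))⁻¹ = (θ (ul 1))⁻¹ * δ) :
    δ = 1 ∨ δ = -1 := by
  obtain ⟨h, rfl⟩ := hθ.surj δ
  have key : ∀ u : SL(2, ℝ), θ h * (θ u)⁻¹ = (θ u)⁻¹ * θ h → h * u = u * h := by
    intro u hu
    apply pair2_inj hθ
    rw [map_mul, map_mul]
    have : θ u * (θ h * (θ u)⁻¹) * θ u = θ u * ((θ u)⁻¹ * θ h) * θ u := by rw [hu]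
    simpa [mul_assoc] using this.symm
  rcases eq_pm_of_comm (key _ h1) (key _ h2) with rfl | rfl
  · exact Or.inl (map_one θ)
  · exact Or.inr (pair2_neg hθ)

/-- A periodic point gives a conjugation into the integral matrices. -/
theorem pair2_period {θ : SL(2, ℝ) →* SL(2, ℝ)} {η : Matrix (Fin 2) (Fin 2) ℝ}
    (h : ∀ a : SL(2, ℝ), (θ a : Matrix (Fin 2) (Fin 2) ℝ) * η = η * (a : Matrix (Fin 2) (Fin 2) ℝ))
    (g₀ u : SL(2, ℝ)) (N : ℕ) (hy : ((θ u)⁻¹) ^ N • (g₀ : YY) = (g₀ : YY)) :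
    ∃ γ : SL(2, ℤ), (((g₀⁻¹ : SL(2, ℝ)) : Matrix (Fin 2) (Fin 2) ℝ) * η) *
        ((u ^ N : SL(2, ℝ)) : Matrix (Fin 2) (Fin 2) ℝ) =
      (toR γ : Matrix (Fin 2) (Fin 2) ℝ) *
        (((g₀⁻¹ : SL(2, ℝ)) : Matrix (Fin 2) (Fin 2) ℝ) * η) := by
  have h1 : ((((θ u)⁻¹) ^ N * g₀ : SL(2, ℝ)) : YY) = (g₀ : YY) := hy
  obtain ⟨γ, hγ⟩ := QuotientGroup.eq.1 h1
  refine ⟨γ, ?_⟩
  have h2 : toR γ = g₀⁻¹ * θ (u ^ N) * g₀ := by
    refine hγ.trans ?_
    rw [map_pow, inv_pow, mul_inv_rev, inv_inv]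
  have h3 : toR γ * g₀⁻¹ = g₀⁻¹ * θ (u ^ N) := by rw [h2]; group
  rw [mul_assoc, ← h (u ^ N), ← mul_assoc, ← mul_assoc, ← Matrix.SpecialLinearGroup.coe_mul,
    ← Matrix.SpecialLinearGroup.coe_mul, h3]

variable (p : ℕ) [Fact p.Prime]

theorem pair {d₁ d₂ : ℚ_[p]} (h₁ : d₁ ≠ 0) (h₂ : d₂ ≠ 0) {θ : SL(2, ℝ) →* SL(2, ℝ)}
    (hθ : IsConjHom θ) (ρ : Measure (XX p × XX p)) [IsProbabilityMeasure ρ]
    (hU : Inv (ufl2 p d₁ d₂) ρ)
    (hρ : ∀ h : SL(2, ℝ),
      ρ.map (fun w => (((h, 1) : GG p) • w.1, ((θ h, 1) : GG p) • w.2)) = ρ)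
    {D : Set (XX p × XX p)} (hD : IsCompact D) (h0 : ρ D ≠ 0)
    (h1 : ∀ x z z', (x, z) ∈ D → (x, z') ∈ D → toY p z = toY p z') : ρ (NN p d₁ d₂) ≠ 0 := by
  obtain ⟨τ, hτ, hl, hinv, h4, h5⟩ := tau p θ hθ.continuous ρ hρ
  obtain ⟨g, hg⟩ := h4 D hD.isClosed.measurableSet h0
  set E : Set (Kp p × XX p) :=
    {w | ((((g, w.1) : GG p) : XX p), ((θ g, 1) : GG p) • w.2) ∈ D} with hE
  have hsm : ∀ (a : SL(2, ℝ)) (x : XX p), toY p (((a, 1) : GG p) • x) = a • toY p x :=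
    fun a x => toY_smul p (g := (a, 1)) (Kp p).one_mem x
  have hEc : IsCompact E := by
    have hc : Continuous fun w : Kp p × XX p =>
        ((((g, w.1) : GG p) : XX p), ((θ g, 1) : GG p) • w.2) :=
      (QuotientGroup.continuous_mk.comp
        (continuous_const.prodMk (continuous_subtype_val.comp continuous_fst))).prodMk
        ((continuous_const_smul ((θ g, 1) : GG p)).comp continuous_snd)
    have hK : IsCompact ((Set.univ : Set (Kp p)) ×ˢ
        ((fun z : XX p × XX p => (((θ g, 1) : GG p))⁻¹ • z.2) '' D)) :=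
      isCompact_univ.prod (hD.image
        ((continuous_const_smul (((θ g, 1) : GG p))⁻¹).comp continuous_snd))
    refine hK.of_isClosed_subset (hD.isClosed.preimage hc) ?_
    intro w hw
    exact ⟨trivial, _, hw, inv_smul_smul _ _⟩
  set F : Kp p × XX p → Kp p × YY := fun w => (w.1, toY p w.2) with hF
  have hFc : Continuous F := continuous_fst.prodMk ((continuous_toY p).comp continuous_snd)
  have hFm : Measurable F := hFc.measurable
  have : IsProbabilityMeasure (τ.map F) := Measure.isProbabilityMeasure_map hFm.aemeasurable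
  have hfst : (τ.map F).fst = τ.fst := by
    rw [Measure.fst, Measure.map_map measurable_fst hFm]
    rfl
  have hmap : ∀ γ : SL(2, ℤ), (τ.map F).map
      (fun w => (w.1 * ⟨toP p γ, toP_mem_Kp p γ⟩, (θ (toR γ))⁻¹ • w.2)) = τ.map F := by
    intro γ
    have m1 : Measurable fun w : Kp p × YY =>
        (w.1 * (⟨toP p γ, toP_mem_Kp p γ⟩ : Kp p), (θ (toR γ))⁻¹ • w.2) :=
      ((continuous_fst.mul continuous_const).prodMk
        ((continuous_const_smul (θ (toR γ))⁻¹).comp continuous_snd)).measurable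
    have m2 : Measurable fun w : Kp p × XX p =>
        (w.1 * (⟨toP p γ, toP_mem_Kp p γ⟩ : Kp p), (((θ (toR γ))⁻¹, 1) : GG p) • w.2) :=
      ((continuous_fst.mul continuous_const).prodMk
        ((continuous_const_smul (((θ (toR γ))⁻¹, 1) : GG p)).comp continuous_snd)).measurable
    conv_rhs => rw [← hinv γ]
    rw [Measure.map_map m1 hFm, Measure.map_map hFm m2]
    congr 1
    funext w
    simp only [hF, Function.comp_apply, hsm]
  have hCc : IsCompact (F '' E) := hEc.image hFc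
  have hC0 : (τ.map F) (F '' E) ≠ 0 := by
    rw [Measure.map_apply hFm hCc.isClosed.measurableSet]
    intro h
    exact hg (measure_mono_null (Set.subset_preimage_image F E) h)
  have hC1 : ∀ k y y', (k, y) ∈ F '' E → (k, y') ∈ F '' E → y = y' := by
    rintro k y y' ⟨w, hw, e⟩ ⟨w', hw', e'⟩
    obtain ⟨e1, e2⟩ := Prod.ext_iff.1 e
    obtain ⟨e1', e2'⟩ := Prod.ext_iff.1 e'
    have e3 : w'.1 = w.1 := e1'.trans e1.symm
    have hw2 : ((((g, w.1) : GG p) : XX p), ((θ g, 1) : GG p) • w'.2) ∈ D := by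
      rw [← e3]; exact hw'
    have := h1 _ _ _ hw hw2
    rw [hsm, hsm] at this
    have e4 : toY p w.2 = toY p w'.2 := smul_left_cancel _ this
    exact e2.symm.trans (e4.trans e2')
  have ha := hmap (uu 1)
  have hb := hmap (ul 1)
  rw [pair2_toR_uu] at ha
  rw [pair2_toR_ul] at hb
  have hv : Unip (θ (uu 1))⁻¹ := by
    rw [← map_inv, uu_inv]; exact pair2_unip hθ (pair2_unip_uu _)
  have hv' : Unip (θ (ul 1))⁻¹ := by
    rw [← map_inv, ul_inv]; exact pair2_unip hθ (pair2_unip_ul _)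
  obtain ⟨y, hy, N, hN, hp1, hp2⟩ := atom (τ.map F) (hfst ▸ hl) _ _ hv hv' (pair2_comm hθ) ha hb
    hCc.isClosed.measurableSet hC0 hC1
  obtain ⟨g₀, rfl⟩ := QuotientGroup.mk_surjective y
  obtain ⟨η, hη, hθη⟩ := hθ
  obtain ⟨γ, hγ⟩ := pair2_period hθη g₀ _ N hp1
  obtain ⟨γ', hγ'⟩ := pair2_period hθη g₀ _ N hp2
  rw [pair2_uu_pow] at hγ
  rw [pair2_ul_pow] at hγ'
  have hdet : (((g₀⁻¹ : SL(2, ℝ)) : Matrix (Fin 2) (Fin 2) ℝ) * η).det ≠ 0 := by
    rw [Matrix.det_mul, Matrix.SpecialLinearGroup.det_coe, one_mul]; exact hη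
  obtain ⟨c, ζ, hc, hξ⟩ := rational_of_conj hdet hN γ γ' hγ hγ'
  have hζ : ζ.det ≠ 0 := by
    intro h
    apply hdet
    have : (ζ.map ((↑) : ℚ → ℝ)).det = ((ζ.det : ℚ) : ℝ) := by
      simp [Matrix.det_fin_two]
    rw [hξ, Matrix.det_smul, this, h]
    simp
  have hη' : η = c • ((g₀ : Matrix (Fin 2) (Fin 2) ℝ) * ζ.map (↑)) := by
    rw [← Matrix.mul_smul, ← hξ, ← mul_assoc, ← Matrix.SpecialLinearGroup.coe_mul, mul_inv_cancel]
    simp
  have hms : MeasurableSet ((Set.univ : Set (Kp p)) ×ˢ ({(g₀ : YY)} : Set YY)) :=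
    MeasurableSet.univ.prod (measurableSet_singleton _)
  rw [Measure.map_apply hFm hms] at hy
  refine npos p h₁ h₂ ρ hU ζ hζ (c⁻¹ • η) fun h => h5 _ (hFm hms) hy (measure_mono_null ?_ h)
  rintro z ⟨a, w, hw, rfl⟩
  obtain ⟨k, hk, hx⟩ := exists_of_toY p (x := w.2) (g := g₀) hw.2
  refine ⟨(a, w.1), (θ a * g₀, k), rfl, ?_, w.1.2, hk, ?_⟩
  · change _ = ((θ a, 1) : GG p) • w.2
    rw [hx]
    change _ = ((((θ a, 1) : GG p) * (g₀, k) : GG p) : XX p)
    simp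
  · change (c⁻¹ • η) * (a : Matrix (Fin 2) (Fin 2) ℝ) =
      ((θ a * g₀ : SL(2, ℝ)) : Matrix (Fin 2) (Fin 2) ℝ) * ζ.map (↑)
    rw [Matrix.smul_mul, ← hθη a, Matrix.SpecialLinearGroup.coe_mul, mul_assoc]
    conv_lhs => rw [hη']
    rw [Matrix.mul_smul, smul_smul, inv_mul_cancel₀ hc, one_smul]

end Pool.Agent.EQ
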