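import Pool.Agent.P.MP_ad7a55_nt.HP2
import Pool.Agent.P.MP_ad7a55_nt.Di2
import Pool.Agent.P.MP_ad7a55_nt.Pair2

/-! The joining theorem. -/

set_option autoImplicit false

noncomputable section

open MeasureTheory Topology Filter UpperHalfPlane
open scoped MatrixGroups ENNReal BoundedContinuousFunction

namespace Pool.Agent.EQ

variable (p : ℕ) [Fact p.Prime]

theorem join_meas_sigma {Z : Type} [TopologicalSpace Z] [T2Space Z] [MeasurableSpace Z]
    [OpensMeasurableSpace Z] {s : Set Z} (h : IsSigmaCompact s) : MeasurableSet s := by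
  obtain ⟨K, hK, rfl⟩ := h
  exact MeasurableSet.iUnion fun n => (hK n).measurableSet

/-- The singular set is a countable union of compact sets. -/
theorem join_measurableSet_NN (d₁ d₂ : ℚ_[p]) : MeasurableSet (NN p d₁ d₂) := by
  have : LocallyCompactSpace (Matrix (Fin 2) (Fin 2) ℝ) :=
    inferInstanceAs (LocallyCompactSpace (Fin 2 → Fin 2 → ℝ))
  have : LocallyCompactSpace (Matrix (Fin 2) (Fin 2) ℚ_[p]) :=
    inferInstanceAs (LocallyCompactSpace (Fin 2 → Fin 2 → ℚ_[p]))
  have : SecondCountableTopology (Matrix (Fin 2) (Fin 2) ℝ) :=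
    inferInstanceAs (SecondCountableTopology (Fin 2 → Fin 2 → ℝ))
  have : SecondCountableTopology (Matrix (Fin 2) (Fin 2) ℚ_[p]) :=
    inferInstanceAs (SecondCountableTopology (Fin 2 → Fin 2 → ℚ_[p]))
  have : Countable (Matrix (Fin 2) (Fin 2) ℚ) :=
    inferInstanceAs (Countable (Fin 2 → Fin 2 → ℚ))
  let S : Matrix (Fin 2) (Fin 2) ℚ → Set ((GG p × GG p) × MM p) := fun ξ =>
    {z | IsHom p z.1.1 z.1.2 ξ z.2 ∧ z.2.2 1 0 = 0 ∧ d₁ * z.2.2 0 0 = d₂ * z.2.2 1 1}
  let F : (GG p × GG p) × MM p → XX p × XX p := fun z => ((z.1.1 : XX p), (z.1.2 : XX p))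
  have hF : Continuous F :=
    (QuotientGroup.continuous_mk.comp continuous_fst.fst).prodMk
      (QuotientGroup.continuous_mk.comp continuous_fst.snd)
  have hS : ∀ ξ, IsClosed (S ξ) := by
    intro ξ
    have c1 : Continuous fun z : (GG p × GG p) × MM p =>
        (z.1.1.1 : Matrix (Fin 2) (Fin 2) ℝ) := continuous_subtype_val.comp continuous_fst.fst.fst
    have c2 : Continuous fun z : (GG p × GG p) × MM p =>
        (z.1.2.1 : Matrix (Fin 2) (Fin 2) ℝ) := continuous_subtype_val.comp continuous_fst.snd.fst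
    have c3 : Continuous fun z : (GG p × GG p) × MM p =>
        (z.1.1.2 : Matrix (Fin 2) (Fin 2) ℚ_[p]) :=
      continuous_subtype_val.comp continuous_fst.fst.snd
    have c4 : Continuous fun z : (GG p × GG p) × MM p =>
        (z.1.2.2 : Matrix (Fin 2) (Fin 2) ℚ_[p]) :=
      continuous_subtype_val.comp continuous_fst.snd.snd
    have c5 : ∀ i j, Continuous fun z : (GG p × GG p) × MM p => z.2.2 i j := fun i j =>
      continuous_snd.snd.matrix_elem i j
    refine IsClosed.inter (IsClosed.inter ?_ ?_) (IsClosed.inter ?_ ?_)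
    · exact isClosed_eq (continuous_snd.fst.matrix_mul c1) (c2.matrix_mul continuous_const)
    · exact isClosed_eq (continuous_snd.snd.matrix_mul c3) (c4.matrix_mul continuous_const)
    · exact isClosed_eq (c5 1 0) continuous_const
    · exact isClosed_eq (continuous_const.mul (c5 0 0)) (continuous_const.mul (c5 1 1))
  have hE : NN p d₁ d₂ = ⋃ ξ : Matrix (Fin 2) (Fin 2) ℚ,
      ⋃ _ : (∃ q : ℕ, 0 < q ∧ ∀ i j, InZp p (q * ξ i j)) ∧ ξ.det ≠ 0, F '' S ξ := by
    ext w
    simp only [Set.mem_iUnion]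
    constructor
    · rintro ⟨q, hq, δ, hδ, P, ⟨g, g', hg, hg', ξ, h1, h2, h3⟩, h4, h5⟩
      exact ⟨ξ, ⟨⟨q, hq, h1⟩, h2 ▸ hδ⟩, ((g, g'), P), ⟨h3, h4, h5⟩, Prod.ext hg hg'⟩
    · rintro ⟨ξ, ⟨⟨q, hq, h1⟩, h2⟩, ⟨⟨g, g'⟩, P⟩, ⟨h3, h4, h5⟩, rfl⟩
      exact ⟨q, hq, ξ.det, h2, P, ⟨g, g', rfl, rfl, ξ, h1, rfl, h3⟩, h4, h5⟩
  rw [hE]
  refine MeasurableSet.iUnion fun ξ => MeasurableSet.iUnion fun _ => join_meas_sigma ?_
  exact (isSigmaCompact_univ.of_isClosed_subset (hS ξ) (Set.subset_univ _)).image hF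

theorem join_single {κ : Type} [DecidableEq κ] (l : κ) (g : SL(2, ℝ)) :
    (fun k => ((Pi.mulSingle (M := fun _ => SL(2, ℝ)) l g k, 1) : GG p)) =
      Pi.mulSingle (M := fun _ => GG p) l (g, 1) := by
  funext k
  by_cases h : k = l
  · subst h; simp
  · simp [Pi.mulSingle_eq_of_ne h, Prod.one_eq_mk]

/-- One step: an ergodic measure all of whose proper marginals are product measures. -/
theorem join_step {κ : Type} [Fintype κ] [DecidableEq κ] (d : κ → ℚ_[p]) (hd : ∀ k, d k ≠ 0)
    (ρ : Measure (κ → XX p)) [IsProbabilityMeasure ρ] (hρ : Erg (ufl p d) ρ)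
    (hm : ∀ k, ρ.map (fun w => w k) = mX p)
    (hr : ∀ k, ρ.map (res p k) = mP p {j // j ≠ k}) {k m : κ} (hk : k ≠ m)
    (hN : ρ {w | (w k, w m) ∈ NN p (d k) (d m)} = 0) : ρ = mP p κ := by
  rcases hprin p d m (hd m) ρ hρ with hU | ⟨C, hC, h0, V, hV, hR⟩
  · exact pi_of_free (free_of_U (hm m) hU) (hr m)
  rcases tri (StabR p ρ) m (rigid_full p ρ m (hr m) hC h0 hV hR) k hk with
    ⟨g, hg, h⟩ | ⟨l, h⟩ | ⟨hall, hc, θ, hθ, hg⟩
  · rw [mem_StabR, join_single] at h
    exact pi_of_free (free_of_hyp (hm m) hg h) (hr m)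
  · refine pi_of_free (k := l) (free_of_R fun g => ?_) (hr l)
    have := h g
    rwa [mem_StabR, join_single] at this
  exfalso
  have hs : ∀ g : SL(2, ℝ), ∃ h ∈ StabR p ρ, h m = g := by
    intro g
    obtain ⟨a, rfl⟩ := hθ.surj g
    exact ⟨_, hg a, by simp [Pi.mulSingle_eq_of_ne hk.symm]⟩
  obtain ⟨D, hD, hD0, hD1⟩ := rigid_atom p ρ m hC h0 hV hR hc hs
  let F : (κ → XX p) → XX p × XX p := fun w => (w k, w m)
  have hF : Continuous F := (continuous_apply k).prodMk (continuous_apply m)
  have : IsProbabilityMeasure (ρ.map F) :=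
    Measure.isProbabilityMeasure_map hF.measurable.aemeasurable
  have hI : Inv (ufl2 p (d k) (d m)) (ρ.map F) := by
    intro s
    have h1 : Measurable (ufl2 p (d k) (d m) s) :=
      ((ufl2 p (d k) (d m)).continuous continuous_const continuous_id).measurable
    have h2 : Measurable (ufl p d s) :=
      ((ufl p d).continuous continuous_const continuous_id).measurable
    have h3 : ufl2 p (d k) (d m) s ∘ F = F ∘ ufl p d s := rfl
    rw [Measure.map_map h1 hF.measurable, h3, ← Measure.map_map hF.measurable h2, hρ.inv s]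
  have hG : ∀ h : SL(2, ℝ), (ρ.map F).map
      (fun w => (((h, 1) : GG p) • w.1, ((θ h, 1) : GG p) • w.2)) = ρ.map F := by
    intro h
    have h0 := hg h
    rw [mem_StabR, mem_Stab] at h0
    have h1 : Measurable fun w : XX p × XX p =>
        (((h, 1) : GG p) • w.1, ((θ h, 1) : GG p) • w.2) :=
      Continuous.measurable (by fun_prop)
    rw [Measure.map_map h1 hF.measurable]
    conv_rhs => rw [← h0]
    rw [Measure.map_map hF.measurable (measurable_const_smul _)]
    congr 1
    funext w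
    simp [F, Pi.mulSingle_eq_of_ne hk, Pi.mulSingle_eq_of_ne hk.symm]
  have hpos : ρ.map F (F '' D) ≠ 0 := by
    rw [Measure.map_apply hF.measurable (hD.image hF).measurableSet]
    exact fun h => hD0 (measure_mono_null (Set.subset_preimage_image F D) h)
  have hY : ∀ x z z', (x, z) ∈ F '' D → (x, z') ∈ F '' D → toY p z = toY p z' := by
    rintro x z z' ⟨w, hw, h1⟩ ⟨w', hw', h2⟩
    simp only [F, Prod.mk.injEq] at h1 h2
    rw [← h1.2, ← h2.2]
    refine hD1 w hw w' hw' fun l hl => ?_
    rcases hall l with rfl | rfl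
    · rw [h1.1, h2.1]
    · exact absurd rfl hl
  have := pair p (hd k) (hd m) hθ (ρ.map F) hI hG (hD.image hF) hpos hY
  rw [Measure.map_apply hF.measurable (join_measurableSet_NN p _ _)] at this
  exact this hN

theorem join_small {κ : Type} [Fintype κ] [Subsingleton κ]
    (ν : Measure (κ → XX p)) [IsProbabilityMeasure ν]
    (hm : ∀ k, ν.map (fun w => w k) = mX p) : ν = mP p κ := by
  refine (Measure.pi_eq fun s hs => ?_).symm
  rcases isEmpty_or_nonempty κ with h | ⟨⟨k⟩⟩
  · simp [Set.pi]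
  · have h1 : Set.pi Set.univ s = (fun w : κ → XX p => w k) ⁻¹' s k := by
      ext w
      simp only [Set.mem_pi, Set.mem_univ, true_imp_iff, Set.mem_preimage]
      exact ⟨fun h => h k, fun h j => by rwa [Subsingleton.elim j k]⟩
    rw [h1, ← Measure.map_apply (measurable_pi_apply k) (hs k), hm, Fintype.prod_subsingleton _ k]

theorem join_aux (n : ℕ) : ∀ (κ : Type) [Fintype κ] [DecidableEq κ], Fintype.card κ ≤ n →
    ∀ (d : κ → ℚ_[p]), (∀ k, d k ≠ 0) → ∀ (ν : Measure (κ → XX p)) [IsProbabilityMeasure ν],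
    Inv (ufl p d) ν → (∀ k, ν.map (fun w => w k) = mX p) →
    (∀ k l, k ≠ l → ν {w | (w k, w l) ∈ NN p (d k) (d l)} = 0) → ν = mP p κ := by
  induction n with
  | zero =>
    intro κ _ _ hc d _ ν _ _ hm _
    have : Subsingleton κ := Fintype.card_le_one_iff_subsingleton.1 (by omega)
    exact join_small p ν hm
  | succ n ih =>
    intro κ _ _ hc d hd ν _ hν hm hN
    rcases subsingleton_or_nontrivial κ with hs | hs
    · exact join_small p ν hm
    have hmeas : ∀ {ι : Type} (e : ι → ℚ_[p]) (a b : ι),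
        MeasurableSet {w : ι → XX p | (w a, w b) ∈ NN p (e a) (e b)} := fun e a b =>
      ((measurable_pi_apply a).prodMk (measurable_pi_apply b)) (join_measurableSet_NN p _ _)
    have hr : ∀ j, ν.map (res p j) = mP p {i // i ≠ j} := by
      intro j
      have hj := (continuous_res p j).measurable
      have : IsProbabilityMeasure (ν.map (res p j)) :=
        Measure.isProbabilityMeasure_map hj.aemeasurable
      refine ih {i // i ≠ j} ?_ (fun i => d i.1) (fun i => hd i.1) _ ?_ ?_ ?_
      · have : Fintype.card {i // i ≠ j} < Fintype.card κ :=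
          Fintype.card_subtype_lt (x := j) (by simp)
        omega
      · intro s
        have h1 : Measurable (ufl p (fun i : {i // i ≠ j} => d i.1) s) :=
          ((ufl p _).continuous continuous_const continuous_id).measurable
        have h2 : Measurable (ufl p d s) :=
          ((ufl p d).continuous continuous_const continuous_id).measurable
        have h3 : ufl p (fun i : {i // i ≠ j} => d i.1) s ∘ res p j = res p j ∘ ufl p d s := rfl
        rw [Measure.map_map h1 hj, h3, ← Measure.map_map hj h2, hν s]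
      · intro i
        rw [Measure.map_map (measurable_pi_apply i) hj]
        exact hm i.1
      · intro a b hab
        rw [Measure.map_apply hj (hmeas (fun i : {i // i ≠ j} => d i.1) a b)]
        exact hN a.1 b.1 fun h => hab (Subtype.ext h)
    obtain ⟨k, m, hk⟩ := exists_pair_ne κ
    obtain ⟨ρ, hρ, hb, hg⟩ := decomp ν hν
    have h1 : ∀ᵐ w ∂ν, ∀ j, Gen (ufl p fun i : {i // i ≠ j} => d i.1) (mP p {i // i ≠ j})
        (res p j w) := by
      refine ae_all_iff.2 fun j => ?_
      refine ae_of_ae_map (continuous_res p j).measurable.aemeasurable ?_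
      rw [hr j]
      exact erg_mP p _ fun i => hd i.1
    have h2 : ∀ᵐ w ∂ν, ρ w {w | (w k, w m) ∈ NN p (d k) (d m)} = 0 := by
      have h := hN k m hk
      rw [← hb, Measure.bind_apply (hmeas d k m) ρ.measurable.aemeasurable,
        lintegral_eq_zero_iff (ρ.measurable_coe (hmeas d k m))] at h
      exact h
    have h3 : ∀ᵐ w ∂ν, ρ w = mP p κ := by
      filter_upwards [hg, h1, h2] with w hw hw1 hw2
      have hres : ∀ j, (ρ w).map (res p j) = mP p {i // i ≠ j} := by
        intro j
        have : IsProbabilityMeasure ((ρ w).map (res p j)) :=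
          Measure.isProbabilityMeasure_map (continuous_res p j).measurable.aemeasurable
        exact (Gen.map (ufl p fun i : {i // i ≠ j} => d i.1) (continuous_res p j)
          (fun _ _ => rfl) hw.1).unique (hw1 j)
      refine join_step p d hd (ρ w) hw.2 (fun i => ?_) hres hk hw2
      obtain ⟨j, hj⟩ := exists_ne i
      have h4 : (fun w : κ → XX p => w i) =
          (fun w : {i // i ≠ j} → XX p => w ⟨i, hj.symm⟩) ∘ res p j := rfl
      rw [h4, ← Measure.map_map (measurable_pi_apply _) (continuous_res p j).measurable, hres j]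
      exact (measurePreserving_eval (fun _ : {i // i ≠ j} => mX p) ⟨i, hj.symm⟩).map_eq
    rw [← hb, Measure.bind_congr_right h3]
    simp

theorem join (κ : Type) [Fintype κ] [DecidableEq κ] (d : κ → ℚ_[p]) (hd : ∀ k, d k ≠ 0)
    (ν : Measure (κ → XX p)) [IsProbabilityMeasure ν] (hν : Inv (ufl p d) ν)
    (hm : ∀ k, ν.map (fun w => w k) = mX p)
    (hN : ∀ k l, k ≠ l → ν {w | (w k, w l) ∈ NN p (d k) (d l)} = 0) : ν = mP p κ :=
  join_aux p _ κ le_rfl d hd ν hν hm hN

end Pool.Agent.EQ
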