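import Pool.Agent.K.MP_ad7a55_nt.C91

open UpperHalfPlane MeasureTheory Filter Topology Pool.Agent.EQ
open scoped MatrixGroups

namespace Pool.Agent.EQ.Joined

/-- All sufficient conditions on the discriminants in one statement. -/
theorem joined : ∀ n : ℕ, ∃ (b : ℕ) (E : Set ℕ),
    (∃ C : ℝ, ∀ X : ℕ, ((E ∩ Set.Iic X).ncard : ℝ) ≤ C * Real.exp (Real.log (Real.log X) ^ b)) ∧
    ∀ N : ℕ, 0 < N → ∀ (Γ : Fin n → Subgroup SL(2, ℤ)),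
      (∀ k, CongruenceSubgroup.Gamma N ≤ Γ k) →
      ∀ (F L : IntermediateField ℚ ℂ) [FiniteDimensional ℚ F] [FiniteDimensional ℚ L]
        (B : Fin n → Set (ℍ → ℂ)), (∀ k, jInv ∈ B k) → (∀ k, ∀ f ∈ B k, IsMF (Γ k) N L f) →
      ∀ (S : Finset ℕ), (∀ p ∈ S, p.Prime) → ∀ (A : ℕ) (η c : ℝ), 0 < η → 0 < c →
      ∀ (τ : ℕ → Fin n → ℍ) (D : ℕ → Fin n → ℤ), (∀ i k, HasDisc (τ i k) (D i k)) →
      (∀ k, ∀ᶠ i in atTop, |(D i k : ℝ)| ^ η ≤ ∏ p ∈ S, (p : ℝ) ^ padicValInt p (D i k) ∨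
        ∃ (d f : ℤ) (x w : ℝ), Squarefree d ∧ D i k = f ^ 2 * d ∧ x = Real.log |(D i k : ℝ)| ∧
          w = Real.log x ^ b ∧ (Real.sqrt |(D i k : ℝ)| * w / x ≤
            {z : ℂ | ∃ t : ℍ, HasDisc t (D i k) ∧ jInv t = z}.ncard ∨
          d.natAbs ∉ E ∨ Real.log |(d : ℝ)| ≤ x / w ∨
          (∀ (N : ℕ) [NeZero N] (χ : DirichletCharacter ℂ N), N = 4 * d.natAbs →
              (∀ m : ℕ, Odd m → χ m = jacobiSym d m) →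
              ∀ s : ℂ, ‖s - 2‖ < 1 + w / x → χ.LFunction s ≠ 0) ∨
          ((∀ (N : ℕ) [NeZero N] (χ : DirichletCharacter ℂ N), N = 4 * d.natAbs →
              (∀ m : ℕ, Odd m → χ m = jacobiSym d m) →
              ∀ β : ℝ, 1 - c / Real.log N ≤ β → β < 1 → χ.LFunction β ≠ 0) ∧
            ((∃ p ∈ S, ∃ q ∈ S, p ≠ q ∧ p ≠ 2 ∧ q ≠ 2 ∧ jacobiSym d p = 1 ∧ jacobiSym d q = 1) ∨
              ∀ t : ℕ, x / w ≤ Real.log t → ∃ Q : Finset ℕ, t ≤ Q.card ∧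
                ∀ p ∈ Q, p.Prime ∧ p ≤ t ^ A ∧ jacobiSym d p = 1)))) →
      (∀ k, ∀ z : ℂ, {i | jInv (τ i k) = z}.Finite) →
      (∀ k l, k ≠ l → ∀ a b c d : ℤ, 0 < a * d - b * c →
        {i | ∃ z w : ℍ, (w : ℂ) = (a * z + b) / (c * z + d) ∧ jInv (τ i k) = jInv z ∧
          jInv (τ i l) = jInv w}.Finite) →
      ∀ f : (∀ k, YG (Γ k)) → ℝ, Continuous f → HasCompactSupport f →
        (∀ i, (orbG F Γ B (τ i)).Finite) ∧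
          Tendsto (fun i => (∑ᶠ y ∈ orbG F Γ B (τ i), f y) / (orbG F Γ B (τ i)).ncard) atTop
            (𝓝 (∫ w, f (fun k => Quotient.mk _ (w k)) ∂(Measure.pi fun k => mH (Γ k)))) := by
  intro n
  obtain ⟨c₀, A₀, C, hc₀, h⟩ := thin6 (B7 n)
  refine ⟨B7 n + 2, EY (B7 n) A₀ c₀, ⟨C, h⟩, ?_⟩
  intro N hN Γ hΓ F L _ _ B hj hB S hS A η c hη hc τ D hD hdom hpt hgen f hf hs
  obtain ⟨A', c', Y, hc', hm⟩ := merge6 (B7 n) A₀ A hc₀ hc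
  refine final6 (goodQ7 n A' hc') hN hΓ hj hB S hS (Y := Y) hη hc τ D hD
    (fun k => (hdom k).mono fun i hi hY => ?_) hpt hgen f hf hs
  rcases hi with hi | ⟨d, g, x, w, h1, h2, h3, h4, h5 | h5⟩
  · exact Or.inl (Or.inl hi)
  · exact Or.inl (Or.inr (Or.inl (big_of (hD i k).isD.1 h3 h4 h5)))
  · exact (hm _ d g hY h1 h2 x w h3 h4 _ h5).imp (fun h6 => Or.inr (Or.inr h6))
      fun h6 => ⟨d, g, h1, h2, h6⟩

end Pool.Agent.EQ.Joined
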