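import Pool.Agent.P.MP_ad7a55_nt.JBas2

/-! Lattices in ℂ. -/

set_option autoImplicit false

noncomputable section

open MeasureTheory Topology Filter UpperHalfPlane
open scoped MatrixGroups ENNReal BoundedContinuousFunction

namespace Pool.Agent.EQ

/-- Subgroups of `ℂ`. -/
abbrev Lt : Type := Submodule ℤ ℂ

/-- The subgroup generated by one element. -/
def pr (c : ℂ) : Lt := Submodule.span ℤ {c}

/-- The subgroup generated by two elements. -/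
def sp (a b : ℂ) : Lt := Submodule.span ℤ {a, b}

/-- `Λ` is a lattice. -/
def IsLat (Λ : Lt) : Prop := ∃ (c : ℂ) (τ : ℍ), c ≠ 0 ∧ Λ = sp c (c * τ)

open Classical in
/-- The `j`-invariant of a lattice. -/
def jL (Λ : Lt) : ℂ := if h : IsLat Λ then jInv h.choose_spec.choose else 0

open Classical in
/-- The discriminant function of a lattice. -/
def dL (Λ : Lt) : ℂ :=
  if h : IsLat Λ then ModularForm.discriminant h.choose_spec.choose / h.choose ^ 12 else 0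

/-- `Λ'` is a sublattice of index `q`. -/
def Nb (q : ℕ) (Λ Λ' : Lt) : Prop := pr q * Λ < Λ' ∧ Λ' < Λ

/-- Chains of sublattices of prime index, with total index `n`. -/
inductive Ch : ℕ → Lt → Lt → Prop
  | refl (Λ : Lt) : Ch 1 Λ Λ
  | step {q n : ℕ} {Λ Λ₁ Λ' : Lt} : q.Prime → Nb q Λ Λ₁ → Ch n Λ₁ Λ' → Ch (q * n) Λ Λ'

/-- `a` and `b` are `j`-invariants of lattices related by an isogeny of exponent dividing `N`. -/
def Isog (N : ℕ) (a b : ℂ) : Prop :=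
  ∃ Λ₁ Λ₂ : Lt, IsLat Λ₁ ∧ IsLat Λ₂ ∧ jL Λ₁ = a ∧ jL Λ₂ = b ∧ Λ₁ ≤ Λ₂ ∧ pr N * Λ₂ ≤ Λ₁

theorem mem_sp {a b v : ℂ} : v ∈ sp a b ↔ ∃ m n : ℤ, v = m * a + n * b := by
  unfold sp
  rw [Submodule.mem_span_pair]
  constructor
  · rintro ⟨m, n, h⟩
    exact ⟨m, n, by rw [← h]; simp⟩
  · rintro ⟨m, n, h⟩
    exact ⟨m, n, by rw [h]; simp⟩

theorem mem_pr_mul {c v : ℂ} {Λ : Lt} : v ∈ pr c * Λ ↔ ∃ w ∈ Λ, c * w = v :=
  Submodule.mem_span_singleton_mul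

theorem pr_mul_le {c : ℂ} {Λ Λ' : Lt} : pr c * Λ ≤ Λ' ↔ ∀ w ∈ Λ, c * w ∈ Λ' := by
  constructor
  · intro h w hw
    exact h (mem_pr_mul.mpr ⟨w, hw, rfl⟩)
  · intro h v hv
    obtain ⟨w, hw, rfl⟩ := mem_pr_mul.mp hv
    exact h w hw

theorem pr_mul_pr (a b : ℂ) : pr a * pr b = pr (a * b) := by
  unfold pr
  rw [Submodule.span_mul_span, Set.singleton_mul_singleton]

@[simp] theorem pr_one_mul (Λ : Lt) : pr 1 * Λ = Λ := by
  ext v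
  rw [mem_pr_mul]
  simp

theorem pr_mul_sp (c a b : ℂ) : pr c * sp a b = sp (c * a) (c * b) := by
  ext v
  rw [mem_pr_mul, mem_sp]
  constructor
  · rintro ⟨w, hw, rfl⟩
    obtain ⟨m, n, rfl⟩ := mem_sp.mp hw
    exact ⟨m, n, by ring⟩
  · rintro ⟨m, n, rfl⟩
    exact ⟨m * a + n * b, mem_sp.mpr ⟨m, n, rfl⟩, by ring⟩

theorem pr_int_le (n : ℤ) (Λ : Lt) : pr n * Λ ≤ Λ := by
  rw [pr_mul_le]
  intro w hw
  simpa using Λ.smul_mem n hw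

theorem pr_mul_le_iff {c : ℂ} (hc : c ≠ 0) {Λ Λ' : Lt} : pr c * Λ ≤ pr c * Λ' ↔ Λ ≤ Λ' := by
  constructor
  · intro h w hw
    obtain ⟨w', hw', e⟩ := mem_pr_mul.mp (pr_mul_le.mp h w hw)
    rwa [← mul_left_cancel₀ hc e]
  · intro h
    exact pr_mul_le.mpr fun w hw => mem_pr_mul.mpr ⟨w, h hw, rfl⟩

theorem isLat_sp {c : ℂ} (hc : c ≠ 0) (τ : ℍ) : IsLat (sp c (c * τ)) := ⟨c, τ, hc, rfl⟩

theorem isLat_one (τ : ℍ) : IsLat (sp 1 τ) := ⟨1, τ, one_ne_zero, by rw [one_mul]⟩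

theorem int_indep_lat (τ : ℍ) {p q : ℤ} (h : (p : ℂ) * τ + q = 0) : p = 0 ∧ q = 0 := by
  have h1 := congrArg Complex.im h
  simp only [Complex.add_im, Complex.mul_im, Complex.intCast_re, Complex.intCast_im, zero_mul,
    add_zero, Complex.zero_im, coe_im, mul_eq_zero, Int.cast_eq_zero, τ.im_pos.ne', or_false] at h1
  subst h1
  simpa using h

theorem left_mem_sp_lat (a b : ℂ) : a ∈ sp a b := mem_sp.mpr ⟨1, 0, by simp⟩

theorem right_mem_sp_lat (a b : ℂ) : b ∈ sp a b := mem_sp.mpr ⟨0, 1, by simp⟩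

theorem sp_le_iff_lat {a b : ℂ} {Λ : Lt} : sp a b ≤ Λ ↔ a ∈ Λ ∧ b ∈ Λ := by
  constructor
  · exact fun h => ⟨h (left_mem_sp_lat a b), h (right_mem_sp_lat a b)⟩
  · rintro ⟨ha, hb⟩ v hv
    obtain ⟨m, n, rfl⟩ := mem_sp.mp hv
    exact Λ.add_mem (by simpa using Λ.smul_mem m ha) (by simpa using Λ.smul_mem n hb)

theorem sl_den_ne_lat (γ : SL(2, ℤ)) (τ : ℍ) : (γ 1 0 : ℂ) * τ + γ 1 1 ≠ 0 := fun h => by
  obtain ⟨h0, h1⟩ := int_indep_lat τ h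
  have := γ.det_coe
  rw [Matrix.det_fin_two, h0, h1] at this
  simp at this

theorem sl_den_mul_lat (γ : SL(2, ℤ)) (τ : ℍ) :
    ((γ 1 0 : ℂ) * τ + γ 1 1) * (γ • τ : ℍ) = (γ 0 0 : ℂ) * τ + γ 0 1 := by
  have h := sl_den_ne_lat γ τ
  rw [coe_specialLinearGroup_apply]
  simp only [algebraMap_int_eq, eq_intCast, Complex.ofReal_intCast]
  field_simp

/-- Two oriented bases of a lattice differ by `SL₂(ℤ)`. -/
theorem exists_SL_of_sp_eq {c c' : ℂ} {τ τ' : ℍ} (hc : c ≠ 0) (hc' : c' ≠ 0)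
    (h : sp c (c * τ) = sp c' (c' * τ')) :
    ∃ γ : SL(2, ℤ), τ' = γ • τ ∧ c' = c * ((γ 1 0 : ℂ) * τ + γ 1 1) := by
  obtain ⟨q, p, hpq⟩ := mem_sp.mp (h ▸ right_mem_sp_lat c' (c' * τ') : c' * τ' ∈ sp c (c * τ))
  obtain ⟨s, r, hrs⟩ := mem_sp.mp (h ▸ left_mem_sp_lat c' (c' * τ') : c' ∈ sp c (c * τ))
  obtain ⟨q', p', hpq'⟩ := mem_sp.mp (h ▸ right_mem_sp_lat c (c * τ) : c * τ ∈ sp c' (c' * τ'))
  obtain ⟨s', r', hrs'⟩ := mem_sp.mp (h ▸ left_mem_sp_lat c (c * τ) : c ∈ sp c' (c' * τ'))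
  obtain ⟨a1, a2⟩ := int_indep_lat τ (p := p' * p + q' * r - 1) (q := p' * q + q' * s) (by
    apply mul_left_cancel₀ hc
    push_cast; linear_combination -p' * hpq - q' * hrs - hpq')
  obtain ⟨a3, a4⟩ := int_indep_lat τ (p := r' * p + s' * r) (q := r' * q + s' * s - 1) (by
    apply mul_left_cancel₀ hc
    push_cast; linear_combination -r' * hpq - s' * hrs - hrs')
  have hdet : (p * s - q * r) * (p' * s' - q' * r') = 1 := by
    linear_combination (r' * q + s' * s) * a1 + a4 - (r' * p + s' * r) * a2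
  have hτ : (τ' : ℂ) * (r * τ + s) = p * τ + q := by
    apply mul_left_cancel₀ hc
    linear_combination hpq - τ' * hrs
  have hpos : 0 < p * s - q * r := by
    have h1 := congrArg Complex.re hτ
    have h2 := congrArg Complex.im hτ
    simp only [Complex.mul_re, Complex.mul_im, Complex.add_re, Complex.add_im, Complex.intCast_re,
      Complex.intCast_im, zero_mul, sub_zero, add_zero, coe_re, coe_im] at h1 h2
    have h3 : τ'.im * ((r * τ.re + s) ^ 2 + (r * τ.im) ^ 2) = (p * s - q * r) * τ.im := by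
      linear_combination (r * τ.re + s) * h2 - (r * τ.im) * h1
    have h4 : 0 ≤ ((p : ℝ) * s - q * r) * τ.im := by
      rw [← h3]; exact mul_nonneg τ'.im_pos.le (by positivity)
    have h5 : 0 ≤ (p : ℝ) * s - q * r := nonneg_of_mul_nonneg_left h4 τ.im_pos
    have h6 : 0 ≤ p * s - q * r := by exact_mod_cast h5
    refine lt_of_le_of_ne h6 fun h7 => ?_
    rw [← h7] at hdet
    simp at hdet
  have hone : p * s - q * r = 1 := Int.eq_one_of_mul_eq_one_right hpos.le hdet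
  obtain ⟨γ, hγ⟩ : ∃ γ : SL(2, ℤ), (γ : Matrix (Fin 2) (Fin 2) ℤ) = !![p, q; r, s] :=
    ⟨⟨!![p, q; r, s], by rw [Matrix.det_fin_two_of]; exact hone⟩, rfl⟩
  have g00 : γ 0 0 = p := by simp [hγ]
  have g01 : γ 0 1 = q := by simp [hγ]
  have g10 : γ 1 0 = r := by simp [hγ]
  have g11 : γ 1 1 = s := by simp [hγ]
  refine ⟨γ, ?_, ?_⟩
  · apply UpperHalfPlane.ext
    apply mul_left_cancel₀ (sl_den_ne_lat γ τ)
    rw [sl_den_mul_lat, g00, g01, g10, g11, mul_comm, hτ]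
  · rw [g10, g11]
    linear_combination hrs

theorem sp_smul (c : ℂ) (γ : SL(2, ℤ)) (τ : ℍ) :
    sp (c * ((γ 1 0 : ℂ) * τ + γ 1 1)) (c * ((γ 1 0 : ℂ) * τ + γ 1 1) * (γ • τ : ℍ)) =
      sp c (c * τ) := by
  have hd : (γ 0 0 : ℂ) * γ 1 1 - γ 0 1 * γ 1 0 = 1 := by
    have := γ.det_coe
    rw [Matrix.det_fin_two] at this
    exact_mod_cast this
  rw [mul_assoc, sl_den_mul_lat]
  apply le_antisymm
  · exact sp_le_iff_lat.mpr ⟨mem_sp.mpr ⟨γ 1 1, γ 1 0, by ring⟩, mem_sp.mpr ⟨γ 0 1, γ 0 0, by ring⟩⟩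
  · refine sp_le_iff_lat.mpr ⟨mem_sp.mpr ⟨γ 0 0, -γ 1 0, ?_⟩, mem_sp.mpr ⟨-γ 0 1, γ 1 1, ?_⟩⟩
    · push_cast; linear_combination (-c) * hd
    · push_cast; linear_combination (-c * τ) * hd

theorem jL_sp {c : ℂ} (hc : c ≠ 0) (τ : ℍ) : jL (sp c (c * τ)) = jInv τ := by
  have h := isLat_sp hc τ
  unfold jL
  rw [dif_pos h]
  obtain ⟨h1, h2⟩ := h.choose_spec.choose_spec
  obtain ⟨γ, h3, -⟩ := exists_SL_of_sp_eq hc h1 h2
  rw [h3, jInv_smul]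

theorem jL_one (τ : ℍ) : jL (sp 1 τ) = jInv τ := by
  simpa using jL_sp one_ne_zero τ

theorem dL_sp {c : ℂ} (hc : c ≠ 0) (τ : ℍ) :
    dL (sp c (c * τ)) = ModularForm.discriminant τ / c ^ 12 := by
  have h := isLat_sp hc τ
  unfold dL
  rw [dif_pos h]
  obtain ⟨h1, h2⟩ := h.choose_spec.choose_spec
  obtain ⟨γ, h3, h4⟩ := exists_SL_of_sp_eq hc h1 h2
  have h5 := sl_den_ne_lat γ τ
  rw [h3, disc_smul, h4]
  field_simp

theorem IsLat.pr_mul {Λ : Lt} (h : IsLat Λ) {c : ℂ} (hc : c ≠ 0) : IsLat (pr c * Λ) := by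
  obtain ⟨a, τ, ha, rfl⟩ := h
  exact ⟨c * a, τ, mul_ne_zero hc ha, by rw [pr_mul_sp, mul_assoc]⟩

theorem jL_pr_mul {Λ : Lt} (h : IsLat Λ) {c : ℂ} (hc : c ≠ 0) : jL (pr c * Λ) = jL Λ := by
  obtain ⟨a, τ, ha, rfl⟩ := h
  rw [pr_mul_sp, ← mul_assoc, jL_sp (mul_ne_zero hc ha), jL_sp ha]

theorem dL_pr_mul {Λ : Lt} (h : IsLat Λ) {c : ℂ} (hc : c ≠ 0) :
    dL (pr c * Λ) = dL Λ / c ^ 12 := by
  obtain ⟨a, τ, ha, rfl⟩ := h
  rw [pr_mul_sp, ← mul_assoc, dL_sp (mul_ne_zero hc ha), dL_sp ha]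
  field_simp

theorem dL_ne_zero {Λ : Lt} (h : IsLat Λ) : dL Λ ≠ 0 := by
  obtain ⟨a, τ, ha, rfl⟩ := h
  rw [dL_sp ha]
  exact div_ne_zero (ModularForm.discriminant_ne_zero τ) (pow_ne_zero _ ha)

theorem jL_inj {Λ Λ' : Lt} (h : IsLat Λ) (h' : IsLat Λ') (hj : jL Λ = jL Λ') :
    ∃ c : ℂ, c ≠ 0 ∧ Λ' = pr c * Λ := by
  obtain ⟨a, τ, ha, rfl⟩ := h
  obtain ⟨a', τ', ha', rfl⟩ := h'
  rw [jL_sp ha, jL_sp ha'] at hj
  obtain ⟨γ, rfl⟩ := jInv_inj hj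
  have h5 := sl_den_ne_lat γ τ
  refine ⟨a' / (a * ((γ 1 0 : ℂ) * τ + γ 1 1)), div_ne_zero ha' (mul_ne_zero ha h5), ?_⟩
  rw [← sp_smul a γ τ, pr_mul_sp, ← mul_assoc _ (a * _), div_mul_cancel₀ _ (mul_ne_zero ha h5)]

theorem jL_surj (z : ℂ) : ∃ Λ, IsLat Λ ∧ jL Λ = z := by
  obtain ⟨τ, rfl⟩ := jInv_surj z
  exact ⟨sp 1 τ, isLat_one τ, jL_one τ⟩

end Pool.Agent.EQ
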