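import Pool.Agent.P.MP_ad7a55_nt.Lat

/-! Lattices in ℂ. -/

set_option autoImplicit false

noncomputable section

open MeasureTheory Topology Filter UpperHalfPlane
open scoped MatrixGroups ENNReal BoundedContinuousFunction

namespace Pool.Agent.EQ

theorem lat2_indep {c : ℂ} (hc : c ≠ 0) (τ : ℍ) {m n m' n' : ℤ}
    (h : (m : ℂ) * c + n * (c * τ) = m' * c + n' * (c * τ)) : m = m' ∧ n = n' := by
  have h1 : (m : ℂ) + n * τ = m' + n' * τ := mul_left_cancel₀ hc (by linear_combination h)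
  have h2 := congrArg Complex.im h1
  simp only [Complex.add_im, Complex.intCast_im, Complex.mul_im, Complex.intCast_re, zero_mul,
    add_zero, zero_add, coe_im] at h2
  have h3 : n = n' := by exact_mod_cast mul_right_cancel₀ τ.im_ne_zero h2
  subst h3
  exact ⟨by exact_mod_cast add_right_cancel h1, rfl⟩

theorem lat2_ideal (I : Ideal ℤ) {N : ℕ} (hN : 0 < N) (h : (N : ℤ) ∈ I) :
    ∃ a : ℕ, 0 < a ∧ a ∣ N ∧ ∀ m : ℤ, m ∈ I ↔ (a : ℤ) ∣ m := by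
  have hm : ∀ m : ℤ, m ∈ I ↔ ((Submodule.IsPrincipal.generator I).natAbs : ℤ) ∣ m := fun m => by
    rw [Int.natAbs_dvd]; exact Submodule.IsPrincipal.mem_iff_generator_dvd I
  have hd : (Submodule.IsPrincipal.generator I).natAbs ∣ N := by exact_mod_cast (hm N).1 h
  exact ⟨_, Nat.pos_of_dvd_of_pos hd hN, hd, hm⟩

/-- The lattice with Hermite form `(a, d, b)`. -/
def lat2H (c : ℂ) (τ : ℍ) (a d b : ℤ) : Lt := sp (a * c) (c * (d * τ + b))

theorem lat2_sp_le {a b : ℂ} {Λ : Lt} : sp a b ≤ Λ ↔ a ∈ Λ ∧ b ∈ Λ := by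
  rw [sp, Submodule.span_le, Set.insert_subset_iff, Set.singleton_subset_iff]; rfl

theorem lat2_mem {c : ℂ} (hc : c ≠ 0) (τ : ℍ) {a d b x y : ℤ} :
    (x : ℂ) * c + y * (c * τ) ∈ lat2H c τ a d b ↔ ∃ m n : ℤ, x = m * a + n * b ∧ y = n * d := by
  rw [lat2H, mem_sp]
  constructor
  · rintro ⟨m, n, h⟩
    refine ⟨m, n, lat2_indep hc τ ?_⟩
    rw [h]; push_cast; ring
  · rintro ⟨m, n, rfl, rfl⟩
    exact ⟨m, n, by push_cast; ring⟩

theorem lat2_le {c : ℂ} (hc : c ≠ 0) (τ : ℍ) {a d b a' d' b' : ℤ} (hd : d' ≠ 0) :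
    lat2H c τ a d b ≤ lat2H c τ a' d' b' ↔ a' ∣ a ∧ ∃ n : ℤ, d = n * d' ∧ a' ∣ b - n * b' := by
  have e1 : (a : ℂ) * c = (a : ℂ) * c + ((0 : ℤ) : ℂ) * (c * τ) := by simp
  have e2 : c * (d * τ + b) = (b : ℂ) * c + d * (c * τ) := by ring
  conv_lhs => rw [lat2H, lat2_sp_le, e1, e2, lat2_mem hc, lat2_mem hc]
  constructor
  · rintro ⟨⟨m, n, h1, h2⟩, m', n', h3, h4⟩
    have hn : n = 0 := (mul_eq_zero.1 h2.symm).resolve_right hd
    subst hn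
    exact ⟨⟨m, by rw [h1]; ring⟩, n', h4, m', by rw [h3]; ring⟩
  · rintro ⟨⟨m, h1⟩, n, h2, m', h3⟩
    exact ⟨⟨m, 0, by rw [h1]; ring, by ring⟩, m', n, by linear_combination h3, h2⟩

theorem lat2_top (c : ℂ) (τ : ℍ) : sp c (c * τ) = lat2H c τ 1 1 0 := by simp [lat2H]

theorem lat2_bot (c : ℂ) (τ : ℍ) (q : ℕ) : pr q * sp c (c * τ) = lat2H c τ q q 0 := by
  rw [pr_mul_sp, lat2H]; congr 1; push_cast; ring

theorem lat2_isLat {c : ℂ} (hc : c ≠ 0) (τ : ℍ) {a d : ℕ} (ha : 0 < a) (hd : 0 < d) (b : ℤ) :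
    IsLat (sp (a * c) (c * (d * τ + b))) := by
  have ha' : (a : ℂ) ≠ 0 := by exact_mod_cast ha.ne'
  have him : 0 < ((d * τ + b : ℂ) / a).im := by
    rw [Complex.div_natCast_im]
    simp only [Complex.add_im, Complex.mul_im, Complex.natCast_re, coe_im, Complex.natCast_im,
      zero_mul, add_zero, Complex.intCast_im]
    exact div_pos (mul_pos (Nat.cast_pos.2 hd) τ.im_pos) (Nat.cast_pos.2 ha)
  refine ⟨a * c, ⟨_, him⟩, mul_ne_zero ha' hc, ?_⟩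
  congr 1
  change _ = _ * ((d * τ + b : ℂ) / a)
  field_simp

/-- Hermite normal form. -/
theorem hnf {c : ℂ} (hc : c ≠ 0) (τ : ℍ) {N : ℕ} (hN : 0 < N) {Λ' : Lt}
    (h1 : pr N * sp c (c * τ) ≤ Λ') (h2 : Λ' ≤ sp c (c * τ)) :
    ∃ (a d : ℕ) (b : ℤ), 0 < a ∧ 0 < d ∧ a ∣ N ∧ d ∣ N ∧ 0 ≤ b ∧ b < a ∧
      Λ' = sp (a * c) (c * (d * τ + b)) := by
  let A : Ideal ℤ :=
    { carrier := {m | (m : ℂ) * c ∈ Λ'}
      add_mem' := fun {x y} hx hy => by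
        have := Λ'.add_mem hx hy
        simpa [add_mul] using this
      zero_mem' := by simp
      smul_mem' := fun r x hx => by
        have := Λ'.smul_mem r hx
        simpa [mul_assoc] using this }
  let D : Ideal ℤ :=
    { carrier := {n | ∃ m : ℤ, (m : ℂ) * c + n * (c * τ) ∈ Λ'}
      add_mem' := fun {x y} ⟨m, hx⟩ ⟨m', hy⟩ => ⟨m + m', by
        have := Λ'.add_mem hx hy
        convert this using 1; push_cast; ring⟩
      zero_mem' := ⟨0, by simp⟩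
      smul_mem' := fun r x ⟨m, hx⟩ => ⟨r * m, by
        have := Λ'.smul_mem r hx
        convert this using 1; simp only [smul_eq_mul, zsmul_eq_mul]; push_cast; ring⟩ }
  rw [pr_mul_sp, lat2_sp_le] at h1
  obtain ⟨a, ha, haN, hA⟩ := lat2_ideal A hN (by simpa [A] using h1.1)
  obtain ⟨d, hd, hdN, hD⟩ := lat2_ideal D hN ⟨0, by simpa using h1.2⟩
  have ha' : (a : ℤ) ≠ 0 := by exact_mod_cast ha.ne'
  have hac : (a : ℂ) * c ∈ Λ' := by
    have : ((a : ℤ) : ℂ) * c ∈ Λ' := (hA a).2 dvd_rfl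
    simpa using this
  obtain ⟨m, hm⟩ := (hD d).2 dvd_rfl
  have hb : c * (d * τ + (m % a : ℤ)) ∈ Λ' := by
    have := Λ'.sub_mem hm (Λ'.smul_mem (m / a) hac)
    convert this using 1
    rw [Int.emod_def]; simp only [zsmul_eq_mul]; push_cast; ring
  refine ⟨a, d, m % a, ha, hd, haN, hdN, Int.emod_nonneg _ ha',
    Int.emod_lt_of_pos _ (by exact_mod_cast ha), le_antisymm (fun v hv => ?_)
    (lat2_sp_le.2 ⟨hac, hb⟩)⟩
  obtain ⟨x, y, rfl⟩ := mem_sp.1 (h2 hv)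
  obtain ⟨n, rfl⟩ := (hD y).1 ⟨x, hv⟩
  have h3 : x - n * (m % a) ∈ A := by
    have := Λ'.sub_mem hv (Λ'.smul_mem n hb)
    change ((x - n * (m % a) : ℤ) : ℂ) * c ∈ Λ'
    convert this using 1
    simp only [zsmul_eq_mul]; push_cast; ring
  obtain ⟨k, hk⟩ := (hA _).1 h3
  refine mem_sp.2 ⟨k, n, ?_⟩
  have hx : x = a * k + n * (m % a) := by linear_combination hk
  generalize m % (a : ℤ) = b at hx
  rw [hx]; push_cast; ring

theorem IsLat.of_between {Λ Λ' : Lt} (h : IsLat Λ) {N : ℕ} (hN : 0 < N) (h1 : pr N * Λ ≤ Λ')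
    (h2 : pr N * Λ' ≤ Λ) : IsLat Λ' := by
  obtain ⟨c, τ, hc, rfl⟩ := h
  have hN' : (N : ℂ) ≠ 0 := by exact_mod_cast hN.ne'
  have h3 : pr ((N * N : ℕ) : ℂ) * sp c (c * τ) ≤ pr N * Λ' := by
    rw [Nat.cast_mul, ← pr_mul_pr, mul_assoc]
    exact (pr_mul_le_iff hN').2 h1
  obtain ⟨a, d, b, ha, hd, -, -, -, -, h4⟩ := hnf hc τ (Nat.mul_pos hN hN) h3 h2
  have h5 : IsLat (pr N * Λ') := h4 ▸ lat2_isLat hc τ ha hd b
  have h6 := h5.pr_mul (inv_ne_zero hN')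
  rwa [← mul_assoc, pr_mul_pr, inv_mul_cancel₀ hN', pr_one_mul] at h6

/-- The point `q τ`. -/
def mulH (q : ℕ) (hq : 0 < q) (τ : ℍ) : ℍ :=
  ⟨q * τ, by simpa using mul_pos (Nat.cast_pos.2 hq : (0 : ℝ) < q) τ.im_pos⟩

/-- The point `(τ + i) / q`. -/
def divH (q : ℕ) (hq : 0 < q) (i : ℕ) (τ : ℍ) : ℍ :=
  ⟨(τ + i) / q, by
    simpa [Complex.div_natCast_im] using div_pos τ.im_pos (Nat.cast_pos.2 hq : (0 : ℝ) < q)⟩

@[simp] theorem coe_mulH (q : ℕ) (hq : 0 < q) (τ : ℍ) : (mulH q hq τ : ℂ) = q * τ := rfl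

@[simp] theorem coe_divH (q : ℕ) (hq : 0 < q) (i : ℕ) (τ : ℍ) :
    (divH q hq i τ : ℂ) = (τ + i) / q := rfl

/-- The `q + 1` sublattices of index `q`. -/
def nbs (q : ℕ) (hq : 0 < q) (c : ℂ) (τ : ℍ) : Option (Fin q) → Lt
  | none => sp c (c * mulH q hq τ)
  | some i => sp (c * q) (c * q * divH q hq i τ)

theorem lat2_none (q : ℕ) (hq : 0 < q) (c : ℂ) (τ : ℍ) :
    nbs q hq c τ none = lat2H c τ 1 q 0 := by simp [nbs, lat2H]

theorem lat2_some (q : ℕ) (hq : 0 < q) (c : ℂ) (τ : ℍ) (i : Fin q) :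
    nbs q hq c τ (some i) = lat2H c τ q 1 (i : ℕ) := by
  have hq' : (q : ℂ) ≠ 0 := by exact_mod_cast hq.ne'
  simp only [nbs, lat2H, coe_divH]
  congr 1
  · push_cast; ring
  · push_cast; field_simp

theorem lat2_nbs_le {q : ℕ} (hq : q.Prime) {c : ℂ} (hc : c ≠ 0) (τ : ℍ) {o o' : Option (Fin q)}
    (h : nbs q hq.pos c τ o ≤ nbs q hq.pos c τ o') : o = o' := by
  have hq0 : (q : ℤ) ≠ 0 := by exact_mod_cast hq.ne_zero
  have hq1 : ¬ (q : ℤ) ∣ 1 := fun h => hq.one_lt.ne' (Nat.dvd_one.1 (by exact_mod_cast h))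
  rcases o with _ | i <;> rcases o' with _ | i'
  · rfl
  · rw [lat2_none, lat2_some, lat2_le hc τ one_ne_zero] at h
    exact absurd h.1 hq1
  · rw [lat2_none, lat2_some, lat2_le hc τ hq0] at h
    obtain ⟨-, n, h, -⟩ := h
    exact absurd ⟨n, by rw [h]; ring⟩ hq1
  · rw [lat2_some, lat2_some, lat2_le hc τ one_ne_zero] at h
    obtain ⟨-, n, h, h'⟩ := h
    have hn : n = 1 := by linear_combination -h
    subst hn
    have h1 := i.2
    have h2 := i'.2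
    have h3 := Int.eq_zero_of_abs_lt_dvd h' (abs_lt.2 ⟨by omega, by omega⟩)
    exact congrArg some (Fin.ext (by omega))

theorem nb_iff {q : ℕ} (hq : q.Prime) {c : ℂ} (hc : c ≠ 0) (τ : ℍ) (Λ' : Lt) :
    Nb q (sp c (c * τ)) Λ' ↔ ∃ o, Λ' = nbs q hq.pos c τ o := by
  have hq0 : (q : ℤ) ≠ 0 := by exact_mod_cast hq.ne_zero
  have hq1 : ¬ (q : ℤ) ∣ 1 := fun h => hq.one_lt.ne' (Nat.dvd_one.1 (by exact_mod_cast h))
  constructor
  · rintro ⟨h1, h2⟩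
    obtain ⟨a, d, b, ha, hd, haq, hdq, hb0, hba, h⟩ := hnf hc τ hq.pos h1.le h2.le
    have h' : Λ' = lat2H c τ a d b := by rw [h, lat2H]; push_cast; rfl
    rcases (Nat.dvd_prime hq).1 haq with rfl | rfl <;>
      rcases (Nat.dvd_prime hq).1 hdq with hd' | hd'
    · have hb : b = 0 := by omega
      rw [h', lat2_top, hd', hb] at h2
      exact absurd h2 (lt_irrefl _)
    · have hb : b = 0 := by omega
      exact ⟨none, by rw [h', lat2_none, hd', hb]; rfl⟩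
    · refine ⟨some ⟨b.toNat, by omega⟩, ?_⟩
      rw [h', lat2_some, hd']
      congr 1
      simp only [Int.toNat_of_nonneg hb0]
    · rw [h', lat2_bot, hd'] at h1
      obtain ⟨-, n, h3, h4⟩ := (lat2_le hc τ hq0).1 h1.le
      have hn : n = 1 := mul_right_cancel₀ hq0 (by rw [← h3, one_mul])
      subst hn
      have hb := Int.eq_zero_of_abs_lt_dvd h4 (abs_lt.2 ⟨by omega, by omega⟩)
      have hb' : b = 0 := by omega
      rw [hb'] at h1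
      exact absurd h1 (lt_irrefl _)
  · rintro ⟨o, rfl⟩
    rw [Nb, lat2_bot, lat2_top, lt_iff_le_not_ge, lt_iff_le_not_ge]
    rcases o with _ | i
    · rw [lat2_none, lat2_le hc τ hq0, lat2_le hc τ hq0, lat2_le hc τ hq0,
        lat2_le hc τ one_ne_zero]
      refine ⟨⟨⟨one_dvd _, 1, by ring, one_dvd _⟩, fun h => hq1 h.1⟩,
        ⟨one_dvd _, q, by ring, one_dvd _⟩, ?_⟩
      rintro ⟨-, n, h, -⟩
      exact hq1 ⟨n, by rw [h]; ring⟩
    · rw [lat2_some, lat2_le hc τ hq0, lat2_le hc τ one_ne_zero, lat2_le hc τ one_ne_zero,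
        lat2_le hc τ one_ne_zero]
      refine ⟨⟨⟨dvd_rfl, q, by ring, ⟨-(i : ℕ), by ring⟩⟩, ?_⟩,
        ⟨one_dvd _, 1, by ring, one_dvd _⟩, fun h => hq1 h.1⟩
      rintro ⟨-, n, h, -⟩
      exact hq1 ⟨n, by rw [h]; ring⟩

theorem nbs_inj {q : ℕ} (hq : q.Prime) {c : ℂ} (hc : c ≠ 0) (τ : ℍ) :
    Function.Injective (nbs q hq.pos c τ) := by
  exact fun o o' h => lat2_nbs_le hq hc τ h.le

theorem Nb.isLat {q : ℕ} (hq : q.Prime) {Λ Λ' : Lt} (h : IsLat Λ) (h' : Nb q Λ Λ') :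
    IsLat Λ' := by
  refine h.of_between hq.pos h'.1.le (le_trans ?_ h'.2.le)
  simpa using pr_int_le (q : ℤ) Λ'

theorem Nb.eq_of_le {q : ℕ} (hq : q.Prime) {Λ Λ₁ Λ₂ : Lt} (h : IsLat Λ) (h₁ : Nb q Λ Λ₁)
    (h₂ : Nb q Λ Λ₂) (hle : Λ₁ ≤ Λ₂) : Λ₁ = Λ₂ := by
  obtain ⟨c, τ, hc, rfl⟩ := h
  obtain ⟨o, rfl⟩ := (nb_iff hq hc τ _).1 h₁
  obtain ⟨o', rfl⟩ := (nb_iff hq hc τ _).1 h₂
  rw [lat2_nbs_le hq hc τ hle]

theorem Nb.pr_mul {q : ℕ} {Λ Λ' : Lt} (h : Nb q Λ Λ') {c : ℂ} (hc : c ≠ 0) :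
    Nb q (pr c * Λ) (pr c * Λ') := by
  obtain ⟨h1, h2⟩ := h
  rw [lt_iff_le_not_ge] at h1 h2
  rw [Nb, mul_left_comm, lt_iff_le_not_ge, lt_iff_le_not_ge]
  simpa only [pr_mul_le_iff hc] using And.intro h1 h2

theorem Ch.spec {n : ℕ} {Λ Λ' : Lt} (h : Ch n Λ Λ') (hΛ : IsLat Λ) :
    0 < n ∧ IsLat Λ' ∧ Λ' ≤ Λ ∧ pr n * Λ ≤ Λ' := by
  induction h with
  | refl Λ => exact ⟨one_pos, hΛ, le_rfl, by simp⟩
  | @step q n Λ Λ₁ Λ' hq hnb _ ih =>
    obtain ⟨h1, h2, h3, h4⟩ := ih (hnb.isLat hq hΛ)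
    refine ⟨Nat.mul_pos hq.pos h1, h2, h3.trans hnb.2.le, le_trans ?_ h4⟩
    have hn : (n : ℂ) ≠ 0 := by exact_mod_cast h1.ne'
    rw [Nat.cast_mul, mul_comm (q : ℂ), ← pr_mul_pr, mul_assoc]
    exact (pr_mul_le_iff hn).2 hnb.1.le

theorem Ch.trans {m n : ℕ} {Λ Λ₁ Λ' : Lt} (h : Ch m Λ Λ₁) (h' : Ch n Λ₁ Λ') :
    Ch (m * n) Λ Λ' := by
  induction h with
  | refl Λ => rwa [one_mul]
  | step hq hnb _ ih => rw [mul_assoc]; exact Ch.step hq hnb (ih h')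

theorem lat2_ch_a (a : ℕ) : 0 < a → ∀ (c : ℂ), c ≠ 0 → ∀ (τ : ℍ) (b : ℤ),
    Ch a (sp c (c * τ)) (lat2H c τ a 1 b) := by
  induction a using induction_on_primes with
  | zero => exact fun h => absurd h (lt_irrefl _)
  | one =>
    intro _ c hc τ b
    have : lat2H c τ (1 : ℕ) 1 b = sp c (c * τ) := by
      rw [lat2_top]
      exact le_antisymm ((lat2_le hc τ one_ne_zero).2 ⟨one_dvd _, 1, by ring, one_dvd _⟩)
        ((lat2_le hc τ one_ne_zero).2 ⟨by simp, 1, by ring, by simp⟩)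
    rw [this]; exact Ch.refl _
  | prime_mul q a hq ih =>
    intro h c hc τ b
    have ha : 0 < a := Nat.pos_of_mul_pos_left h
    have hq0 : (q : ℤ) ≠ 0 := by exact_mod_cast hq.ne_zero
    have hq' : (q : ℂ) ≠ 0 := by exact_mod_cast hq.ne_zero
    have h1 := Int.emod_nonneg b hq0
    have h2 := Int.emod_lt_of_pos b (show (0 : ℤ) < q by exact_mod_cast hq.pos)
    let i : Fin q := ⟨(b % q).toNat, by omega⟩
    have hi : (((i : ℕ) : ℤ) : ℂ) = b - q * ((b / q : ℤ) : ℂ) := by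
      have : ((i : ℕ) : ℤ) = b - q * (b / q) := by
        rw [← Int.emod_def]; exact Int.toNat_of_nonneg h1
      rw [this]; push_cast; ring
    refine Ch.step hq ((nb_iff hq hc τ _).2 ⟨some i, rfl⟩) ?_
    have h3 := ih ha (c * q) (mul_ne_zero hc hq') (divH q hq.pos i τ) (b / q)
    convert h3 using 1
    · rfl
    · simp only [lat2H, coe_divH]
      congr 1
      · push_cast; ring
      · rw [Int.cast_natCast] at hi
        rw [hi]; push_cast; field_simp; ring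

theorem lat2_ch {a : ℕ} (ha : 0 < a) (d : ℕ) : 0 < d → ∀ (c : ℂ), c ≠ 0 → ∀ (τ : ℍ) (b : ℤ),
    Ch (d * a) (sp c (c * τ)) (lat2H c τ a d b) := by
  induction d using induction_on_primes with
  | zero => exact fun h => absurd h (lt_irrefl _)
  | one =>
    intro _ c hc τ b
    rw [one_mul]
    exact lat2_ch_a a ha c hc τ b
  | prime_mul q d hq ih =>
    intro h c hc τ b
    have hd : 0 < d := Nat.pos_of_mul_pos_left h
    rw [mul_assoc]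
    refine Ch.step hq ((nb_iff hq hc τ _).2 ⟨none, rfl⟩) ?_
    have h3 := ih hd c hc (mulH q hq.pos τ) b
    convert h3 using 1
    · rfl
    · simp only [lat2H, coe_mulH]
      congr 1
      push_cast; ring

theorem exists_ch {Λ Λ' : Lt} (h : IsLat Λ) {N : ℕ} (hN : 0 < N) (h1 : pr N * Λ ≤ Λ')
    (h2 : Λ' ≤ Λ) : ∃ n, n ∣ N ^ 2 ∧ Ch n Λ Λ' := by
  obtain ⟨c, τ, hc, rfl⟩ := h
  obtain ⟨a, d, b, ha, hd, haN, hdN, -, -, h⟩ := hnf hc τ hN h1 h2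
  have h' : Λ' = lat2H c τ a d b := by rw [h, lat2H]; push_cast; rfl
  exact ⟨d * a, by rw [sq]; exact mul_dvd_mul hdN haN, h' ▸ lat2_ch ha d hd c hc τ b⟩

end Pool.Agent.EQ
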