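import Pool.Agent.P.MP_ad7a55_nt.MainB

/-! The main theorem. -/

set_option autoImplicit false

noncomputable section

open MeasureTheory Topology Filter UpperHalfPlane
open scoped MatrixGroups ENNReal BoundedContinuousFunction

namespace Pool.Agent.EQ

theorem noIsog_of_finite {n : ℕ} (τ : ℕ → Fin n → ℍ)
    (hgen : ∀ k l, k ≠ l → ∀ a b c d : ℤ, 0 < a * d - b * c →
      {i | ∃ z w : ℍ, (w : ℂ) = (a * z + b) / (c * z + d) ∧ jInv (τ i k) = jInv z ∧
        jInv (τ i l) = jInv w}.Finite) : NoIsog τ := by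
  intro k l hkl N hN
  have hfin := ((Set.finite_Icc (1 : ℤ) (N ^ 2)).prod ((Set.finite_Icc (0 : ℤ) (N ^ 2)).prod
    (Set.finite_Icc (1 : ℤ) (N ^ 2)))).biUnion (t := fun w =>
      {i | ∃ z w' : ℍ, (w' : ℂ) = (w.1 * z + w.2.1) / ((0 : ℤ) * z + w.2.2) ∧
        jInv (τ i l) = jInv z ∧ jInv (τ i k) = jInv w'}) fun w hw =>
      hgen l k hkl.symm w.1 w.2.1 0 w.2.2 (by
        have h1 := hw.1.1
        have h2 := hw.2.2.1
        nlinarith)
  rw [← Nat.cofinite_eq_atTop]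
  filter_upwards [hfin.compl_mem_cofinite] with i hi σ hσ
  obtain ⟨a, d, b, ha, ha', hd, hd', hb, hb', w, hw, hj⟩ := isog_gal σ hN hσ
  refine hi (Set.mem_biUnion (x := ((d : ℤ), b, (a : ℤ))) ⟨⟨?_, ?_⟩, ⟨hb, ?_⟩, ?_, ?_⟩
    ⟨τ i l, w, by simpa using hw, rfl, hj⟩)
  · change (1 : ℤ) ≤ d
    exact_mod_cast hd
  · change (d : ℤ) ≤ N ^ 2
    exact_mod_cast hd'
  · exact hb'.le.trans (by exact_mod_cast ha')
  · change (1 : ℤ) ≤ a
    exact_mod_cast ha
  · change (a : ℤ) ≤ N ^ 2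
    exact_mod_cast ha'

theorem main_ind {n : ℕ} (F : IntermediateField ℚ ℂ) [FiniteDimensional ℚ F] (S : Finset ℕ)
    (hS : ∀ p ∈ S, p.Prime) (τ : ℕ → Fin n → ℍ) (D : ℕ → Fin n → ℤ)
    (hD : ∀ i k, HasDisc (τ i k) (D i k))
    (hdom : ∀ k, ∀ C : ℝ, ∀ᶠ i in atTop, ∃ p ∈ S,
      C * |(D i k : ℝ)| ≤ ((p : ℝ) ^ padicValInt p (D i k)) ^ 2)
    (hgen : NoIsog τ) (𝒰 : Ultrafilter ℕ) (h𝒰 : (𝒰 : Filter ℕ) ≤ atTop)
    (f : Fin n → (ℂ →ᵇ ℝ)) (I : Finset (Fin n)) :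
    Tendsto (fun i => avg (orbit_finite F (hD i)).toFinset (fun z => ∏ k ∈ I, f k (z k))) 𝒰
      (𝓝 (∏ k ∈ I, ∫ z, f k z ∂mY)) := by
  classical
  have hneg : ∀ i k, D i k < 0 := fun i k => (hD i k).isD.1
  have hbig : ∀ᶠ i in 𝒰, ∀ k, D i k < -576 := by
    refine h𝒰 (eventually_all.2 fun k => (hdom k 577).mono ?_)
    rintro i ⟨p, hp, h⟩
    have h1 : ((p : ℤ) ^ padicValInt p (D i k)) ≤ |D i k| :=
      Int.le_of_dvd (abs_pos.2 (hneg i k).ne) ((dvd_abs _ _).2 (padicValInt_dvd _))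
    have h2 : ((p : ℝ) ^ padicValInt p (D i k)) ≤ |(D i k : ℝ)| := by exact_mod_cast h1
    have h3 : (D i k : ℝ) < 0 := by exact_mod_cast hneg i k
    have h4 : ((p : ℝ) ^ padicValInt p (D i k)) ^ 2 ≤ |(D i k : ℝ)| ^ 2 := by gcongr
    rw [abs_of_neg h3] at h h4
    have h5 : (D i k : ℝ) < -576 := by nlinarith
    exact_mod_cast h5
  induction I using Finset.strongInduction with
  | H I ih =>
    rcases I.eq_empty_or_nonempty with rfl | hI
    · have : ∀ i, avg (orbit_finite F (hD i)).toFinset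
          (fun z => ∏ k ∈ (∅ : Finset (Fin n)), f k (z k)) = 1 := fun i => by
        have h1 : (orbit_finite F (hD i)).toFinset.Nonempty :=
          ⟨_, (orbit_finite F (hD i)).mem_toFinset.2 (orbit_self F _)⟩
        have h2 : ((orbit_finite F (hD i)).toFinset.card : ℝ) ≠ 0 := by
          exact_mod_cast h1.card_pos.ne'
        simp only [avg, Finset.prod_empty, Finset.sum_const, nsmul_eq_mul, mul_one]
        exact div_self h2
      rw [funext this, Finset.prod_empty]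
      exact tendsto_const_nhds
    obtain ⟨j₀, hj₀, h0⟩ := ultra_max 𝒰 hI fun i k => -(D i k : ℝ)
    have hSne : S.Nonempty := by
      obtain ⟨i, p, hp, -⟩ := (hdom j₀ 0).exists
      exact ⟨p, hp⟩
    obtain ⟨p, hp, h1⟩ := ultra_max 𝒰 hSne fun i p => (p : ℝ) ^ padicValInt p (D i j₀)
    obtain ⟨j, hj, h2⟩ := ultra_max 𝒰 hI fun i k => padicValInt p (D i k)
    have : Fact p.Prime := ⟨hS p hp⟩
    have hp1 : (1 : ℝ) < p := by exact_mod_cast (hS p hp).one_lt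
    obtain ⟨J, hJI, hjJ, hJ⟩ := main_step F τ D hD hgen 𝒰 h𝒰 hbig p I j hj h2 (fun C => by
      filter_upwards [h0, h1, h2, h𝒰 (hdom j₀ (C ^ 2))] with i h0 h1 h2 h3 k hk
      obtain ⟨q, hq, h3⟩ := h3
      have h4 : (D i j₀ : ℝ) < 0 := by exact_mod_cast hneg i j₀
      have h5 : (D i k : ℝ) < 0 := by exact_mod_cast hneg i k
      refine le_trans ?_ (pow_le_pow_right₀ hp1.le (h2 j₀ hj₀))
      refine le_trans ?_ (h1 q hq)
      refine (le_abs_self _).trans (abs_le_of_sq_le_sq ?_ (by positivity))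
      rw [mul_pow, Real.sq_sqrt (by linarith)]
      refine le_trans ?_ h3
      rw [abs_of_neg h4]
      exact mul_le_mul_of_nonneg_left (h0 k hk) (sq_nonneg _)) f
    have h3 := ih (I \ J) (Finset.sdiff_ssubset hJI ⟨j, hjJ⟩)
    have h4 := hJ.add (h3.const_mul (∏ k ∈ J, ∫ z, f k z ∂mY))
    simp only [sub_add_cancel, zero_add] at h4
    rwa [mul_comm, Finset.prod_sdiff hJI] at h4

/-- The uniform measure on a finite set. -/
def unif {α : Type} [MeasurableSpace α] (O : Finset α) : Measure α :=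
  (O.card : ℝ≥0∞)⁻¹ • ∑ z ∈ O, Measure.dirac z

theorem unif_prob {α : Type} [MeasurableSpace α] {O : Finset α} (hO : O.Nonempty) :
    IsProbabilityMeasure (unif O) := by
  refine ⟨?_⟩
  simp only [unif, Measure.smul_apply, Measure.coe_finsetSum, Finset.sum_apply, measure_univ,
    Finset.sum_const, nsmul_eq_mul, mul_one, smul_eq_mul]
  exact ENNReal.inv_mul_cancel (by exact_mod_cast hO.card_pos.ne') (by simp)

theorem integral_unif {α : Type} [MeasurableSpace α] [MeasurableSingletonClass α] (O : Finset α)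
    (G : α → ℝ) : ∫ x, G x ∂unif O = avg O G := by
  rw [unif, integral_smul_measure, integral_finsetSum_measure fun z _ => integrable_dirac (by simp)]
  simp [avg, div_eq_inv_mul]

/-- From products along ultrafilters to the final statement. -/
theorem final_of_prod {n : ℕ} (O : ℕ → Set (Fin n → ℂ)) (hO : ∀ i, (O i).Finite)
    (hne : ∀ i, (O i).Nonempty)
    (h : ∀ 𝒰 : Ultrafilter ℕ, (𝒰 : Filter ℕ) ≤ atTop → ∀ f : Fin n → (ℂ →ᵇ ℝ),
      Tendsto (fun i => avg (hO i).toFinset (fun z => ∏ k, f k (z k))) 𝒰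
        (𝓝 (∏ k, ∫ z, f k z ∂mY)))
    (f : (Fin n → ℂ) → ℝ) (hf : Continuous f) (hc : HasCompactSupport f) :
    Tendsto (fun i => (∑ᶠ y ∈ O i, f y) / (O i).ncard) atTop
      (𝓝 (∫ y, f y ∂(Measure.pi fun _ : Fin n => mY))) := by
  have : ∀ i, IsProbabilityMeasure (unif (hO i).toFinset) := fun i =>
    unif_prob (by simpa using hne i)
  have h1 := WT_of_prod mY (fun i => unif (hO i).toFinset) fun f => by
    simp only [integral_unif]
    exact tendsto_iff_ultrafilter _ _ _ |>.2 fun 𝒰 h𝒰 => h 𝒰 h𝒰 f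
  obtain ⟨B, hB⟩ := hf.bounded_above_of_compact_support hc
  have h2 := h1 (BoundedContinuousFunction.ofNormedAddCommGroup f hf B hB)
  simp only [integral_unif] at h2
  refine h2.congr fun i => ?_
  rw [avg, finsum_mem_eq_finite_toFinset_sum _ (hO i), Set.ncard_eq_toFinset_card _ (hO i)]
  rfl

theorem main {n : ℕ} (F : IntermediateField ℚ ℂ) [FiniteDimensional ℚ F] (S : Finset ℕ)
    (hS : ∀ p ∈ S, p.Prime) (τ : ℕ → Fin n → ℍ) (D : ℕ → Fin n → ℤ)
    (hD : ∀ i k, HasDisc (τ i k) (D i k))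
    (hdom : ∀ k, ∀ C : ℝ, ∀ᶠ i in atTop, ∃ p ∈ S,
      C * |(D i k : ℝ)| ≤ ((p : ℝ) ^ padicValInt p (D i k)) ^ 2)
    (hgen : ∀ k l, k ≠ l → ∀ a b c d : ℤ, 0 < a * d - b * c →
      {i | ∃ z w : ℍ, (w : ℂ) = (a * z + b) / (c * z + d) ∧ jInv (τ i k) = jInv z ∧
        jInv (τ i l) = jInv w}.Finite)
    (f : (Fin n → ℂ) → ℝ) (hf : Continuous f) (hc : HasCompactSupport f) :
    (∀ i, (galOrbit F fun k => jInv (τ i k)).Finite) ∧
      Tendsto (fun i => (∑ᶠ y ∈ galOrbit F (fun k => jInv (τ i k)), f y) /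
        (galOrbit F fun k => jInv (τ i k)).ncard) atTop
        (𝓝 (∫ y, f y ∂(Measure.pi fun _ : Fin n => mY))) :=
  ⟨fun i => orbit_finite F (hD i), final_of_prod _ (fun i => orbit_finite F (hD i))
    (fun _ => ⟨_, orbit_self F _⟩)
    (fun 𝒰 h𝒰 g => main_ind F S hS τ D hD hdom (noIsog_of_finite τ hgen) 𝒰 h𝒰 g Finset.univ)
    f hf hc⟩

end Pool.Agent.EQ
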