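import Pool.Agent.P.MP_ad7a55_nt.MainC
import Pool.Agent.P.MP_ad7a55_nt.Main

/-! The main theorem under the weaker hypothesis. -/

set_option autoImplicit false

noncomputable section

open MeasureTheory Topology Filter UpperHalfPlane
open scoped MatrixGroups ENNReal BoundedContinuousFunction

namespace Pool.Agent.EQ

theorem disc_tendsto {τ : ℕ → ℍ} {D : ℕ → ℤ} (hD : ∀ i, HasDisc (τ i) (D i))
    (h : ∀ z : ℂ, {i | jInv (τ i) = z}.Finite) (Y : ℝ) : ∀ᶠ i in atTop, Y ≤ -(D i : ℝ) := by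
  have h1 := ((Set.finite_Icc (-⌈Y⌉) 0).biUnion fun E _ => Cl_finite E).biUnion fun z _ => h z
  rw [← Nat.cofinite_eq_atTop]
  filter_upwards [h1.compl_mem_cofinite] with i hi
  by_contra h2
  refine hi (Set.mem_biUnion (x := jInv (τ i)) (Set.mem_biUnion (x := D i)
    ⟨?_, (hD i).isD.1.le⟩ ⟨_, discL_one (hD i), jL_one _⟩) rfl)
  have h3 : ((-⌈Y⌉ : ℤ) : ℝ) ≤ D i := by
    push_cast
    linarith [Int.le_ceil Y]
  exact_mod_cast h3

theorem main_ind2 {n : ℕ} (F : IntermediateField ℚ ℂ) [FiniteDimensional ℚ F] (S : Finset ℕ)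
    (hS : ∀ p ∈ S, p.Prime) (τ : ℕ → Fin n → ℍ) (D : ℕ → Fin n → ℤ)
    (hD : ∀ i k, HasDisc (τ i k) (D i k)) {η : ℝ} (hη : 0 < η)
    (hdom : ∀ k, ∀ᶠ i in atTop,
      |(D i k : ℝ)| ^ η ≤ ∏ p ∈ S, (p : ℝ) ^ padicValInt p (D i k))
    (hinf : ∀ Y : ℝ, ∀ᶠ i in atTop, ∀ k, Y ≤ -(D i k : ℝ))
    (hgen : NoIsog τ) (𝒰 : Ultrafilter ℕ) (h𝒰 : (𝒰 : Filter ℕ) ≤ atTop)
    (f : Fin n → (ℂ →ᵇ ℝ)) (I : Finset (Fin n)) :
    Tendsto (fun i => avg (orbit_finite F (hD i)).toFinset (fun z => ∏ k ∈ I, f k (z k))) 𝒰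
      (𝓝 (∏ k ∈ I, ∫ z, f k z ∂mY)) := by
  classical
  have hneg : ∀ i k, D i k < 0 := fun i k => (hD i k).isD.1
  induction I using Finset.strongInduction with
  | H I ih =>
    rcases I.eq_empty_or_nonempty with rfl | hI
    · have : ∀ i, avg (orbit_finite F (hD i)).toFinset
          (fun z => ∏ k ∈ (∅ : Finset (Fin n)), f k (z k)) = 1 := fun i => by
        have h1 : (orbit_finite F (hD i)).toFinset.Nonempty :=
          ⟨_, (orbit_finite F (hD i)).mem_toFinset.2 (orbit_self F _)⟩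
        have h2 : ((orbit_finite F (hD i)).toFinset.card : ℝ) ≠ 0 := by
          exact_mod_cast h1.card_pos.ne'
        simp only [avg, Finset.prod_empty, Finset.sum_const, nsmul_eq_mul, mul_one]
        exact div_self h2
      rw [funext this, Finset.prod_empty]
      exact tendsto_const_nhds
    obtain ⟨j₀, hj₀, h0⟩ := ultra_max 𝒰 hI fun i k => -(D i k : ℝ)
    have hSne : S.Nonempty := by
      rcases S.eq_empty_or_nonempty with rfl | h
      · obtain ⟨i, h1, h2⟩ := ((hdom j₀).and (hinf 2)).exists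
        rw [Finset.prod_empty] at h1
        have h3 : 1 < |(D i j₀ : ℝ)| := by linarith [h2 j₀, neg_le_abs (D i j₀ : ℝ)]
        exact absurd (Real.one_lt_rpow h3 hη) (not_lt.2 h1)
      · exact h
    have hSc : (0 : ℝ) < S.card := by exact_mod_cast hSne.card_pos
    obtain ⟨p, hp, h1⟩ := ultra_max 𝒰 hSne fun i p => (p : ℝ) ^ padicValInt p (D i j₀)
    obtain ⟨j, hj, h2⟩ := ultra_max 𝒰 hI fun i k => padicValInt p (D i k)
    have : Fact p.Prime := ⟨hS p hp⟩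
    have hp1 : (1 : ℝ) < p := by exact_mod_cast (hS p hp).one_lt
    obtain ⟨J, hJI, hjJ, hJ⟩ := main_step2 F τ D hD hgen 𝒰 h𝒰 (fun Y => h𝒰 (hinf Y)) p I j hj h2
      (div_pos hη hSc) (by
      filter_upwards [h0, h1, h2, h𝒰 (hdom j₀)] with i h0 h1 h2 h3 k hk
      have h4 : (D i j₀ : ℝ) < 0 := by exact_mod_cast hneg i j₀
      have h5 : (D i k : ℝ) < 0 := by exact_mod_cast hneg i k
      have h6 : (-(D i k : ℝ)) ^ η ≤ ((p : ℝ) ^ padicValInt p (D i j)) ^ S.card := by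
        refine (Real.rpow_le_rpow (by linarith) (h0 k hk) hη.le).trans ?_
        rw [← abs_of_neg h4]
        refine h3.trans ?_
        rw [← Finset.prod_const]
        exact Finset.prod_le_prod (fun _ _ => by positivity) fun q hq =>
          (h1 q hq).trans (pow_le_pow_right₀ hp1.le (h2 j₀ hj₀))
      have h7 : (-(D i k : ℝ)) ^ (η / S.card) ≤ (p : ℝ) ^ padicValInt p (D i j) := by
        rw [div_eq_mul_inv, Real.rpow_mul (by linarith)]
        refine (Real.rpow_le_rpow (Real.rpow_nonneg (by linarith) _) h6 (by positivity)).trans ?_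
        rw [Real.pow_rpow_inv_natCast (by positivity) hSne.card_pos.ne']
      rw [norm_int_eq p (hneg i j).ne, zpow_neg, zpow_natCast, Real.rpow_neg (by linarith)]
      exact inv_anti₀ (Real.rpow_pos_of_pos (by linarith) _) h7) f
    have h3 := ih (I \ J) (Finset.sdiff_ssubset hJI ⟨j, hjJ⟩)
    have h4 := hJ.add (h3.const_mul (∏ k ∈ J, ∫ z, f k z ∂mY))
    simp only [sub_add_cancel, zero_add] at h4
    rwa [mul_comm, Finset.prod_sdiff hJI] at h4

theorem main2 {n : ℕ} (F : IntermediateField ℚ ℂ) [FiniteDimensional ℚ F] (S : Finset ℕ)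
    (hS : ∀ p ∈ S, p.Prime) (τ : ℕ → Fin n → ℍ) (D : ℕ → Fin n → ℤ)
    (hD : ∀ i k, HasDisc (τ i k) (D i k)) {η : ℝ} (hη : 0 < η)
    (hdom : ∀ k, ∀ᶠ i in atTop,
      |(D i k : ℝ)| ^ η ≤ ∏ p ∈ S, (p : ℝ) ^ padicValInt p (D i k))
    (hpt : ∀ k, ∀ z : ℂ, {i | jInv (τ i k) = z}.Finite)
    (hgen : ∀ k l, k ≠ l → ∀ a b c d : ℤ, 0 < a * d - b * c →
      {i | ∃ z w : ℍ, (w : ℂ) = (a * z + b) / (c * z + d) ∧ jInv (τ i k) = jInv z ∧
        jInv (τ i l) = jInv w}.Finite)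
    (f : (Fin n → ℂ) → ℝ) (hf : Continuous f) (hc : HasCompactSupport f) :
    (∀ i, (galOrbit F fun k => jInv (τ i k)).Finite) ∧
      Tendsto (fun i => (∑ᶠ y ∈ galOrbit F (fun k => jInv (τ i k)), f y) /
        (galOrbit F fun k => jInv (τ i k)).ncard) atTop
        (𝓝 (∫ y, f y ∂(Measure.pi fun _ : Fin n => mY))) :=
  ⟨fun i => orbit_finite F (hD i), final_of_prod _ (fun i => orbit_finite F (hD i))
    (fun _ => ⟨_, orbit_self F _⟩)
    (fun 𝒰 h𝒰 g => main_ind2 F S hS τ D hD hη hdom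
      (fun Y => eventually_all.2 fun k => disc_tendsto (fun i => hD i k) (hpt k) Y)
      (noIsog_of_finite τ hgen) 𝒰 h𝒰 g Finset.univ) f hf hc⟩

end Pool.Agent.EQ
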