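import Pool.Agent.P.MP_ad7a55_nt.Frame
import Pool.Agent.P.MP_ad7a55_nt.Beta2

/-! Ball orbits of CM points do not escape. -/

set_option autoImplicit false

noncomputable section

open MeasureTheory Topology Filter UpperHalfPlane
open scoped MatrixGroups ENNReal BoundedContinuousFunction

namespace Pool.Agent.EQ

variable (p : ℕ) [Fact p.Prime]

theorem tight_two_le : (2 : ℝ) ≤ p := by exact_mod_cast (Fact.out : p.Prime).two_le

theorem tight_val {n : ℤ} (hn : n ≠ 0) :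
    ∃ c : ℕ, ‖(n : ℚ_[p])‖ = ((p : ℝ) ^ c)⁻¹ ∧ (p : ℝ) ^ c ≤ |(n : ℝ)| := by
  have hp : (1 : ℝ) < p := by linarith [tight_two_le p]
  obtain ⟨v, hv⟩ := exists_norm_eq p (d := (n : ℚ_[p])) (by exact_mod_cast hn)
  have h1 : (p : ℝ) ^ v ≤ 1 := hv ▸ Padic.norm_int_le_one n
  have h2 : v ≤ 0 := (zpow_le_one_iff_right₀ hp).1 h1
  obtain ⟨c, rfl⟩ : ∃ c : ℕ, v = -(c : ℤ) := ⟨(-v).toNat, by omega⟩
  refine ⟨c, by rw [hv, zpow_neg, zpow_natCast], ?_⟩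
  have h3 : (p : ℤ) ^ c ∣ n := (Padic.norm_int_le_pow_iff_dvd n c).1 hv.le
  have h4 : (p : ℤ) ^ c ≤ |n| := Int.le_of_dvd (abs_pos.2 hn) ((dvd_abs _ _).2 h3)
  exact_mod_cast h4

theorem tight_prod {x : ℚ} (hx : InZp p x) (h0 : x ≠ 0) : 1 ≤ |(x : ℝ)| * ‖(x : ℚ_[p])‖ := by
  have hp : (0 : ℝ) < p := by linarith [tight_two_le p]
  obtain ⟨a, m, hm⟩ := hx
  have hp' : (p : ℚ) ≠ 0 := by exact_mod_cast (Fact.out : p.Prime).ne_zero
  have hm0 : m ≠ 0 := by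
    rintro rfl
    exact h0 (by simpa [hp'] using hm)
  obtain ⟨c, h1, h2⟩ := tight_val p hm0
  have h3 : |(m : ℝ)| = (p : ℝ) ^ a * |(x : ℝ)| := by
    have := congrArg (fun z : ℚ => (z : ℝ)) hm
    simp only [Rat.cast_mul, Rat.cast_pow, Rat.cast_natCast, Rat.cast_intCast] at this
    rw [← this, abs_mul, abs_of_pos (by positivity)]
  have h4 : ‖(m : ℚ_[p])‖ = ((p : ℝ) ^ a)⁻¹ * ‖(x : ℚ_[p])‖ := by
    have := congrArg (fun z : ℚ => (z : ℚ_[p])) hm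
    simp only [Rat.cast_mul, Rat.cast_pow, Rat.cast_natCast, Rat.cast_intCast] at this
    rw [← this, norm_mul, norm_pow, Padic.norm_p, inv_pow]
  have h5 : |(x : ℝ)| * ‖(x : ℚ_[p])‖ = |(m : ℝ)| * ‖(m : ℚ_[p])‖ := by
    rw [h3, h4]; field_simp
  rw [h5, h1, ← div_eq_mul_inv, le_div_iff₀ (by positivity), one_mul]
  exact h2

theorem tight_int {x : ℚ} (hx : InZp p x) (h1 : ‖(x : ℚ_[p])‖ ≤ 1) : ∃ n : ℤ, x = n := by
  obtain ⟨a, m, hm⟩ := hx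
  have hp' : (p : ℚ) ≠ 0 := by exact_mod_cast (Fact.out : p.Prime).ne_zero
  have h6 : ‖((m : ℤ) : ℚ_[p])‖ ≤ (p : ℝ) ^ (-(a : ℤ)) := by
    have := congrArg (fun z : ℚ => (z : ℚ_[p])) hm
    simp only [Rat.cast_mul, Rat.cast_pow, Rat.cast_natCast, Rat.cast_intCast] at this
    rw [← this, norm_mul, norm_pow, Padic.norm_p, zpow_neg, zpow_natCast, inv_pow]
    exact mul_le_of_le_one_right (by positivity) h1
  obtain ⟨n, hn⟩ := (Padic.norm_int_le_pow_iff_dvd m a).1 h6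
  refine ⟨n, mul_left_cancel₀ (pow_ne_zero a hp') ?_⟩
  rw [hm, hn]; push_cast; ring

theorem tight_det {F : Type} [CommRing F] (g : SL(2, F)) : g 0 0 * g 1 1 - g 0 1 * g 1 0 = 1 := by
  have := g.det_coe
  rwa [Matrix.det_fin_two] at this

theorem tight_transfer {g g' : GG p} (h : (g : XX p) = g') {v : Fin 2 → ℚ} (hv0 : v ≠ 0)
    (hv : ∀ i, InZp p (v i)) :
    ∃ w : Fin 2 → ℚ, w ≠ 0 ∧ (∀ i, InZp p (w i)) ∧
      (∀ i, g.1 i 0 * w 0 + g.1 i 1 * w 1 = g'.1 i 0 * v 0 + g'.1 i 1 * v 1) ∧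
      (∀ i, g.2 i 0 * w 0 + g.2 i 1 * w 1 = g'.2 i 0 * v 0 + g'.2 i 1 * v 1) := by
  obtain ⟨γ, hγ, hγ'⟩ := QuotientGroup.eq.1 h
  have hg : g' = g * emb p γ := by rw [hγ']; simp
  subst hg
  refine ⟨fun i => γ i 0 * v 0 + γ i 1 * v 1, ?_,
    fun i => ((hγ i 0).mul (hv 0)).add ((hγ i 1).mul (hv 1)), fun i => ?_, fun i => ?_⟩
  · intro h0
    have h1 : γ 0 0 * v 0 + γ 0 1 * v 1 = 0 := congrFun h0 0
    have h2 : γ 1 0 * v 0 + γ 1 1 * v 1 = 0 := congrFun h0 1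
    have hd := tight_det γ
    apply hv0
    ext i
    fin_cases i
    · change v 0 = 0
      linear_combination γ 1 1 * h1 - γ 0 1 * h2 - v 0 * hd
    · change v 1 = 0
      linear_combination γ 0 0 * h2 - γ 1 0 * h1 - v 1 * hd
  · simp [emb, Matrix.mul_apply, Fin.sum_univ_two]
    ring
  · simp [emb, Matrix.mul_apply, Fin.sum_univ_two]
    ring

theorem tight_form {F : Type} [CommRing F] (g : SL(2, F)) (Θ : Matrix (Fin 2) (Fin 2) ℤ) (a b : F)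
    (h : (g : Matrix (Fin 2) (Fin 2) F) * Θ.map (↑) =
      !![0, a; b, 0] * (g : Matrix (Fin 2) (Fin 2) F)) (x y : F) :
    x * (Θ 1 0 * x + Θ 1 1 * y) - y * (Θ 0 0 * x + Θ 0 1 * y) =
      b * (g 0 0 * x + g 0 1 * y) ^ 2 - a * (g 1 0 * x + g 1 1 * y) ^ 2 := by
  have hd := tight_det g
  have h00 := congrFun (congrFun h 0) 0
  have h01 := congrFun (congrFun h 0) 1
  have h10 := congrFun (congrFun h 1) 0
  have h11 := congrFun (congrFun h 1) 1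
  simp [Matrix.mul_apply, Fin.sum_univ_two] at h00 h01 h10 h11
  linear_combination (g 0 0 * x + g 0 1 * y) * (x * h10 + y * h11) -
    (g 1 0 * x + g 1 1 * y) * (x * h00 + y * h01) -
    (x * (Θ 1 0 * x + Θ 1 1 * y) - y * (Θ 0 0 * x + Θ 0 1 * y)) * hd

theorem tight_nsq_pos (g : SL(2, ℝ)) {v : Fin 2 → ℚ} (hv : v ≠ 0) : 0 < nsq g v := by
  have hd := tight_det g
  by_contra h
  have h0 : (g 0 0 * v 0 + g 0 1 * v 1) ^ 2 + (g 1 0 * v 0 + g 1 1 * v 1) ^ 2 ≤ 0 := not_lt.1 h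
  have h1 : g 0 0 * v 0 + g 0 1 * v 1 = 0 :=
    pow_eq_zero_iff (two_ne_zero) |>.1 (le_antisymm (by nlinarith [sq_nonneg (g 1 0 * v 0 + g 1 1 * v 1)]) (sq_nonneg _))
  have h2 : g 1 0 * v 0 + g 1 1 * v 1 = 0 :=
    pow_eq_zero_iff (two_ne_zero) |>.1 (le_antisymm (by nlinarith [sq_nonneg (g 0 0 * v 0 + g 0 1 * v 1)]) (sq_nonneg _))
  apply hv
  ext i
  fin_cases i
  · have : (v 0 : ℝ) = 0 := by linear_combination g 1 1 * h1 - g 0 1 * h2 - (v 0 : ℝ) * hd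
    exact_mod_cast this
  · have : (v 1 : ℝ) = 0 := by linear_combination g 0 0 * h2 - g 1 0 * h1 - (v 1 : ℝ) * hd
    exact_mod_cast this

theorem tight_low {D : ℤ} (hD : D < 0) {e : ℚ_[p]} {g : GG p} {Θ : Matrix (Fin 2) (Fin 2) ℤ}
    (h1 : (g.1 : Matrix (Fin 2) (Fin 2) ℝ) * Θ.map (↑) =
      !![0, Real.sqrt (-(D : ℝ)); -Real.sqrt (-(D : ℝ)), 0] * (g.1 : Matrix (Fin 2) (Fin 2) ℝ))
    (h2 : (g.2 : Matrix (Fin 2) (Fin 2) ℚ_[p]) * Θ.map (↑) =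
      !![0, e; D / e, 0] * (g.2 : Matrix (Fin 2) (Fin 2) ℚ_[p])) (he : ‖e‖ = ‖(2 : ℚ_[p])‖)
    {v : Fin 2 → ℚ} (hv0 : v ≠ 0) (hv : ∀ i, InZp p (v i)) {M : ℝ}
    (hM0 : 2 * ‖(D : ℚ_[p])‖ * ‖g.2 0 0 * v 0 + g.2 0 1 * v 1‖ ^ 2 ≤ M)
    (hM1 : ‖g.2 1 0 * v 0 + g.2 1 1 * v 1‖ ^ 2 ≤ M) :
    1 ≤ Real.sqrt (-(D : ℝ)) * nsq g.1 v * M := by
  have hσ : 0 < Real.sqrt (-(D : ℝ)) := Real.sqrt_pos.2 (by
    have : (D : ℝ) < 0 := by exact_mod_cast hD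
    linarith)
  have hn := tight_nsq_pos g.1 hv0
  set q : ℚ := v 0 * (Θ 1 0 * v 0 + Θ 1 1 * v 1) - v 1 * (Θ 0 0 * v 0 + Θ 0 1 * v 1) with hq
  have hqZ : InZp p q := by
    rw [hq, sub_eq_add_neg]
    exact ((hv 0).mul (((inZp_int p _).mul (hv 0)).add ((inZp_int p _).mul (hv 1)))).add
      ((hv 1).mul (((inZp_int p _).mul (hv 0)).add ((inZp_int p _).mul (hv 1)))).neg
  have hqR : (q : ℝ) = -(Real.sqrt (-(D : ℝ)) * nsq g.1 v) := by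
    have := tight_form g.1 Θ _ _ h1 (v 0) (v 1)
    rw [hq, nsq]; push_cast; linear_combination this
  have hqP : (q : ℚ_[p]) = D / e * (g.2 0 0 * v 0 + g.2 0 1 * v 1) ^ 2 -
      e * (g.2 1 0 * v 0 + g.2 1 1 * v 1) ^ 2 := by
    have := tight_form g.2 Θ _ _ h2 (v 0) (v 1)
    rw [hq]; push_cast; linear_combination this
  have hq0 : q ≠ 0 := by
    intro h0
    rw [h0] at hqR
    have := mul_pos hσ hn
    simp only [Rat.cast_zero] at hqR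
    linarith
  have he1 : ‖e‖ ≤ 1 := by
    rw [he]; simpa using Padic.norm_int_le_one (p := p) 2
  have he2 : 1 ≤ 2 * ‖e‖ := by
    have := tight_prod p (x := 2) (by simpa using inZp_int p 2) two_ne_zero
    rw [he]; simpa using this
  have he0 : 0 < ‖e‖ := by linarith
  have hqM : ‖(q : ℚ_[p])‖ ≤ M := by
    rw [hqP, sub_eq_add_neg]
    refine (Padic.nonarchimedean _ _).trans (max_le ?_ ?_)
    · rw [norm_mul, norm_div, norm_pow]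
      refine le_trans (mul_le_mul_of_nonneg_right ?_ (by positivity)) hM0
      rw [div_le_iff₀ he0]
      nlinarith [norm_nonneg (D : ℚ_[p])]
    · rw [norm_neg, norm_mul, norm_pow]
      exact (mul_le_of_le_one_left (by positivity) he1).trans hM1
  have := tight_prod p hqZ hq0
  rw [hqR, abs_neg, abs_of_pos (mul_pos hσ hn)] at this
  exact this.trans (mul_le_mul_of_nonneg_left hqM (mul_pos hσ hn).le)

theorem tight_lin {a b x y : ℚ_[p]} {R : ℝ} (ha : ‖a‖ ≤ 1) (hb : ‖b‖ ≤ 1) (hx : ‖x‖ ≤ R)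
    (hy : ‖y‖ ≤ R) : ‖a * x + b * y‖ ≤ R := by
  refine (Padic.nonarchimedean _ _).trans (max_le ?_ ?_) <;> rw [norm_mul]
  · exact (mul_le_of_le_one_left (norm_nonneg _) ha).trans hx
  · exact (mul_le_of_le_one_left (norm_nonneg _) hb).trans hy

theorem tight_inv {k : SL(2, ℚ_[p])} (hk : k ∈ Kp p) {x y : ℚ_[p]} {R : ℝ}
    (h0 : ‖k 0 0 * x + k 0 1 * y‖ ≤ R) (h1 : ‖k 1 0 * x + k 1 1 * y‖ ≤ R) :
    ‖x‖ ≤ R ∧ ‖y‖ ≤ R := by
  have hd := tight_det k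
  constructor
  · have : x = k 1 1 * (k 0 0 * x + k 0 1 * y) + (-k 0 1) * (k 1 0 * x + k 1 1 * y) := by
      linear_combination (-x) * hd
    rw [this]
    exact tight_lin p (hk 1 1) (by rw [norm_neg]; exact hk 0 1) h0 h1
  · have : y = (-k 1 0) * (k 0 0 * x + k 0 1 * y) + k 0 0 * (k 1 0 * x + k 1 1 * y) := by
      linear_combination (-y) * hd
    rw [this]
    exact tight_lin p (by rw [norm_neg]; exact hk 1 0) (hk 0 0) h0 h1

theorem tight_meas {k : SL(2, ℚ_[p])} (hk : k ∈ Kp p) {z : Fin 2 → ℤ}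
    (hz : IsCoprime (z 0) (z 1)) (n : ℕ) (l : ℤ) :
    bm p n {t | ‖t‖ ≤ (p : ℝ) ^ n ∧ ‖(k 0 0 * z 0 + k 0 1 * z 1) +
      t * (p : ℚ_[p]) ^ n * (k 1 0 * z 0 + k 1 1 * z 1)‖ ≤ (p : ℝ) ^ l} ≤
        ENNReal.ofReal ((p : ℝ) ^ l) := by
  have hp : (1 : ℝ) < p := by linarith [tight_two_le p]
  have hpP : (p : ℚ_[p]) ≠ 0 := by exact_mod_cast (Fact.out : p.Prime).ne_zero
  rcases le_or_gt 0 l with hl | hl
  · refine prob_le_one.trans ?_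
    rw [ENNReal.one_le_ofReal]
    exact one_le_zpow₀ hp.le hl
  set y0 : ℚ_[p] := k 0 0 * z 0 + k 0 1 * z 1 with hy0
  set y1 : ℚ_[p] := k 1 0 * z 0 + k 1 1 * z 1 with hy1
  have hb1 : ‖y1‖ ≤ 1 :=
    tight_lin p (hk 1 0) (hk 1 1) (Padic.norm_int_le_one _) (Padic.norm_int_le_one _)
  rcases hb1.eq_or_lt with h1 | h1
  · have hy : y1 ≠ 0 := by
      intro h0; rw [h0] at h1; simp at h1
    have := bm_ball_le p n (l + n) (-y0 / ((p : ℚ_[p]) ^ n * y1))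
    rw [add_sub_cancel_right] at this
    refine le_trans (measure_mono ?_) this
    rintro t ⟨-, ht⟩
    rw [mem_pb]
    have h2 : t - -y0 / ((p : ℚ_[p]) ^ n * y1) =
        (y0 + t * (p : ℚ_[p]) ^ n * y1) / ((p : ℚ_[p]) ^ n * y1) := by
      field_simp; ring
    rw [h2, norm_div, norm_mul, h1, mul_one, norm_pow, Padic.norm_p, inv_pow, div_inv_eq_mul,
      zpow_add₀ (by positivity), zpow_natCast]
    exact mul_le_mul_of_nonneg_right ht (by positivity)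
  · refine le_trans (le_of_eq ?_) (zero_le)
    convert measure_empty (μ := bm p n)
    rw [Set.eq_empty_iff_forall_notMem]
    rintro t ⟨ht, ht'⟩
    have h2 : ‖t * (p : ℚ_[p]) ^ n‖ ≤ 1 := by
      rw [norm_mul, norm_pow, Padic.norm_p, inv_pow, mul_inv_le_iff₀ (by positivity), one_mul]
      exact ht
    have h3 : (p : ℝ) ^ l < 1 := zpow_lt_one_of_neg₀ hp hl
    have h4 : ‖y0‖ ≤ max ((p : ℝ) ^ l) ‖y1‖ := by
      have : y0 = 1 * (y0 + t * (p : ℚ_[p]) ^ n * y1) + (-(t * (p : ℚ_[p]) ^ n)) * y1 := by ring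
      rw [this]
      exact tight_lin p (by simp) (by rwa [norm_neg]) (ht'.trans (le_max_left _ _))
        (le_max_right _ _)
    obtain ⟨h5, h6⟩ := tight_inv p hk h4 (le_max_right _ _)
    obtain ⟨a, b, hab⟩ := hz
    have h7 := tight_lin p (Padic.norm_int_le_one a) (Padic.norm_int_le_one b) h5 h6
    have h8 : (a : ℚ_[p]) * z 0 + b * z 1 = 1 := by exact_mod_cast congrArg (fun m : ℤ => (m : ℚ_[p])) hab
    rw [h8, norm_one] at h7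
    exact absurd (max_lt h3 h1) (not_lt.2 h7)

theorem tight_ent1 (j : ℕ) (t : ℚ_[p]) (g : GG p) : (aP p j * uP p t * g).1 = g.1 := by
  simp [aP, uP]

theorem tight_ent20 (j : ℕ) (t : ℚ_[p]) (g : GG p) (x y : ℚ_[p]) :
    (aP p j * uP p t * g).2 0 0 * x + (aP p j * uP p t * g).2 0 1 * y =
      (p : ℚ_[p]) ^ j * ((g.2 0 0 * x + g.2 0 1 * y) + t * (g.2 1 0 * x + g.2 1 1 * y)) := by
  simp [aP, uP, Matrix.mul_apply, Fin.sum_univ_two]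
  ring

theorem tight_ent21 (j : ℕ) (t : ℚ_[p]) (g : GG p) (x y : ℚ_[p]) :
    (aP p j * uP p t * g).2 1 0 * x + (aP p j * uP p t * g).2 1 1 * y =
      ((p : ℚ_[p]) ^ j)⁻¹ * (g.2 1 0 * x + g.2 1 1 * y) := by
  simp [aP, uP, Matrix.mul_apply, Fin.sum_univ_two]
  ring

/-- Lower bound for the vectors of the lattice of `a^r x`. -/
theorem tight_low2 {D : ℤ} (hD : D < 0) {x : XX p} {e : ℚ_[p]} (hF : Frame p D x e) {r : ℕ}
    (hDr : ‖(D : ℚ_[p])‖ * ((p : ℝ) ^ (2 * r)) ^ 2 ≤ (p : ℝ) ^ 2) {h : GG p} (hK : h.2 ∈ Kp p)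
    (hh : (h : XX p) = aP p r • x) {z : Fin 2 → ℤ} (hz : IsCoprime (z 0) (z 1)) :
    (p : ℝ) ^ (2 * r) ≤ 2 * p ^ 2 * Real.sqrt (-(D : ℝ)) * nsq h.1 (fun i => z i) := by
  have hp : (2 : ℝ) ≤ p := tight_two_le p
  have hpP : (p : ℚ_[p]) ≠ 0 := by exact_mod_cast (Fact.out : p.Prime).ne_zero
  obtain ⟨g, Θ, rfl, -, h1, h2, he⟩ := hF
  have hh' : ((aP p r * uP p 0 * g : GG p) : XX p) = h := by
    rw [hh, uP_zero, mul_one]; rfl
  have hz0 : (fun i => (z i : ℚ)) ≠ 0 := by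
    intro h0
    have a0 : z 0 = 0 := by simpa using congrFun h0 0
    have a1 : z 1 = 0 := by simpa using congrFun h0 1
    rw [a0, a1] at hz
    exact not_isCoprime_zero_zero hz
  obtain ⟨v, hv0, hv, hR, hP⟩ := tight_transfer p hh' hz0 fun i => inZp_int p (z i)
  rw [tight_ent1] at hR
  have hP0 := hP 0
  have hP1 := hP 1
  rw [tight_ent20, zero_mul, add_zero] at hP0
  rw [tight_ent21] at hP1
  have hb : ∀ i, ‖h.2 i 0 * ((z 0 : ℚ) : ℚ_[p]) + h.2 i 1 * ((z 1 : ℚ) : ℚ_[p])‖ ≤ 1 := fun i =>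
    tight_lin p (hK i 0) (hK i 1) (by simpa using Padic.norm_int_le_one (p := p) (z 0))
      (by simpa using Padic.norm_int_le_one (p := p) (z 1))
  have hb0 : ‖g.2 0 0 * v 0 + g.2 0 1 * v 1‖ ≤ (p : ℝ) ^ r := by
    have := hb 0
    rw [← hP0, norm_mul, norm_pow, Padic.norm_p, inv_pow, inv_mul_le_iff₀ (by positivity),
      mul_one] at this
    exact this
  have hb1 : ‖g.2 1 0 * v 0 + g.2 1 1 * v 1‖ * (p : ℝ) ^ r ≤ 1 := by
    have := hb 1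
    rw [← hP1, norm_mul, norm_inv, norm_pow, Padic.norm_p, inv_pow, inv_inv, mul_comm] at this
    exact this
  have hn : nsq g.1 v = nsq h.1 (fun i => z i) := by
    rw [nsq, nsq, hR 0, hR 1]
  have hr : (0 : ℝ) < (p : ℝ) ^ (2 * r) := by positivity
  have hr2 : (p : ℝ) ^ (2 * r) = ((p : ℝ) ^ r) ^ 2 := by ring
  have key := tight_low p hD h1 h2 he hv0 hv (M := 2 * p ^ 2 / (p : ℝ) ^ (2 * r)) ?_ ?_
  · rw [hn, ← mul_div_assoc, le_div_iff₀ hr] at key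
    linarith
  · rw [le_div_iff₀ hr]
    have h3 : ‖g.2 0 0 * v 0 + g.2 0 1 * v 1‖ ^ 2 ≤ (p : ℝ) ^ (2 * r) := by
      rw [hr2]; exact pow_le_pow_left₀ (norm_nonneg _) hb0 2
    have h4 : ‖(D : ℚ_[p])‖ * ‖g.2 0 0 * v 0 + g.2 0 1 * v 1‖ ^ 2 * (p : ℝ) ^ (2 * r) ≤
        ‖(D : ℚ_[p])‖ * (p : ℝ) ^ (2 * r) * (p : ℝ) ^ (2 * r) := by gcongr
    nlinarith
  · rw [le_div_iff₀ hr, hr2, ← mul_pow]
    have h3 : (‖g.2 1 0 * v 0 + g.2 1 1 * v 1‖ * (p : ℝ) ^ r) ^ 2 ≤ 1 :=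
      pow_le_one₀ (by positivity) hb1
    nlinarith

/-- A short vector at time `t` comes from a primitive vector of the lattice of `a^{j+m} x`. -/
theorem tight_cover {x : XX p} (j m : ℕ) {h : GG p} (hK : h.2 ∈ Kp p)
    (hh : (h : XX p) = aP p (j + m) • x) {δ : ℝ} {t : ℚ_[p]}
    (ht : ‖t‖ ≤ (p : ℝ) ^ (2 * (j + m))) (hs : Short p δ (aP p j • uP p t • x)) :
    ∃ (z : Fin 2 → ℤ) (c : ℕ), IsCoprime (z 0) (z 1) ∧
      (p : ℝ) ^ (2 * c) * nsq h.1 (fun i => z i) < δ ^ 2 * p ^ (2 * m) ∧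
      ‖(h.2 0 0 * z 0 + h.2 0 1 * z 1) +
        t * (p : ℚ_[p]) ^ (2 * (j + m)) * (h.2 1 0 * z 0 + h.2 1 1 * z 1)‖ ≤
          (p : ℝ) ^ ((c : ℤ) - 2 * m) := by
  have hp : (2 : ℝ) ≤ p := tight_two_le p
  have hp0 : (0 : ℝ) < p := by linarith
  have hpP : (p : ℚ_[p]) ≠ 0 := by exact_mod_cast (Fact.out : p.Prime).ne_zero
  have hpQ : (p : ℚ) ≠ 0 := by exact_mod_cast (Fact.out : p.Prime).ne_zero
  obtain ⟨g, rfl⟩ := QuotientGroup.mk_surjective x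
  obtain ⟨g', hg', v, hv0, hv, hvP, hvR⟩ := hs
  have e1 : ((aP p j * uP p t * g : GG p) : XX p) = g' := by
    rw [hg', mul_assoc]; rfl
  obtain ⟨w, hw0, hw, hwR, hwP⟩ := tight_transfer p e1 hv0 hv
  have e2 : (h : XX p) = ((aP p (j + m) * uP p 0 * g : GG p) : XX p) := by
    rw [hh, uP_zero, mul_one]; rfl
  obtain ⟨u, hu0, hu, huR, huP⟩ := tight_transfer p e2 hw0 hw
  rw [tight_ent1] at hwR huR
  have a0 := hvP 0
  have a1 := hvP 1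
  rw [← hwP 0, tight_ent20] at a0
  rw [← hwP 1, tight_ent21] at a1
  have b0 := huP 0
  have b1 := huP 1
  rw [tight_ent20, zero_mul, add_zero] at b0
  rw [tight_ent21] at b1
  set y0 : ℚ_[p] := g.2 0 0 * w 0 + g.2 0 1 * w 1
  set y1 : ℚ_[p] := g.2 1 0 * w 0 + g.2 1 1 * w 1
  have c1 : h.2 1 0 * ((p : ℚ_[p]) ^ m * u 0) + h.2 1 1 * ((p : ℚ_[p]) ^ m * u 1) =
      ((p : ℚ_[p]) ^ j)⁻¹ * y1 := by
    have : ((p : ℚ_[p]) ^ j)⁻¹ * y1 = (p : ℚ_[p]) ^ m * (((p : ℚ_[p]) ^ (j + m))⁻¹ * y1) := by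
      field_simp; ring
    rw [this, ← b1]; ring
  have c0 : (h.2 0 0 * ((p : ℚ_[p]) ^ m * u 0) + h.2 0 1 * ((p : ℚ_[p]) ^ m * u 1)) +
      t * (p : ℚ_[p]) ^ (2 * (j + m)) *
        (h.2 1 0 * ((p : ℚ_[p]) ^ m * u 0) + h.2 1 1 * ((p : ℚ_[p]) ^ m * u 1)) =
      (p : ℚ_[p]) ^ (2 * m) * ((p : ℚ_[p]) ^ j * (y0 + t * y1)) := by
    rw [c1]
    have : h.2 0 0 * ((p : ℚ_[p]) ^ m * u 0) + h.2 0 1 * ((p : ℚ_[p]) ^ m * u 1) =
        (p : ℚ_[p]) ^ m * ((p : ℚ_[p]) ^ (j + m) * y0) := by rw [← b0]; ring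
    rw [this]; field_simp; ring
  have d0 : ‖(p : ℚ_[p]) ^ (2 * m) * ((p : ℚ_[p]) ^ j * (y0 + t * y1))‖ ≤
      ((p : ℝ) ^ (2 * m))⁻¹ := by
    rw [norm_mul, norm_pow, Padic.norm_p, inv_pow]
    exact mul_le_of_le_one_right (by positivity) a0
  have d1 : ((p : ℝ) ^ (2 * m))⁻¹ ≤ 1 := inv_le_one_of_one_le₀ (one_le_pow₀ (by linarith))
  have d2 : ‖t * (p : ℚ_[p]) ^ (2 * (j + m))‖ ≤ 1 := by
    rw [norm_mul, norm_pow, Padic.norm_p, inv_pow, mul_inv_le_iff₀ (by positivity), one_mul]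
    exact ht
  rw [← c1] at a1
  rw [← c0] at d0
  have d3 : ‖h.2 0 0 * ((p : ℚ_[p]) ^ m * u 0) + h.2 0 1 * ((p : ℚ_[p]) ^ m * u 1)‖ ≤ 1 := by
    have := tight_lin p (a := 1) (b := -(t * (p : ℚ_[p]) ^ (2 * (j + m)))) (by simp)
      (by rwa [norm_neg]) (d0.trans d1) a1
    refine le_trans (le_of_eq ?_) this
    congr 1; ring
  obtain ⟨f0, f1⟩ := tight_inv p hK d3 a1
  have hpm : InZp p ((p : ℚ) ^ m) := by simpa using inZp_int p ((p : ℤ) ^ m)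
  obtain ⟨n0, hn0⟩ := tight_int p (hpm.mul (hu 0)) (by push_cast; exact f0)
  obtain ⟨n1, hn1⟩ := tight_int p (hpm.mul (hu 1)) (by push_cast; exact f1)
  have hg0 : 0 < Int.gcd n0 n1 := by
    rw [Int.gcd_pos_iff]
    by_contra hc
    push Not at hc
    apply hu0
    ext i
    fin_cases i
    · change u 0 = 0
      simpa [hc.1, hpQ] using hn0
    · change u 1 = 0
      simpa [hc.2, hpQ] using hn1
  obtain ⟨z0, z1, hz, hz0, hz1⟩ := Int.exists_gcd_one hg0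
  set n : ℤ := (Int.gcd n0 n1 : ℤ) with hn
  have hnpos : 0 < n := by rw [hn]; exact_mod_cast hg0
  obtain ⟨c, hc1, hc2⟩ := tight_val p hnpos.ne'
  have q0 : (p : ℚ) ^ m * u 0 = z0 * n := by rw [hn0, hz0]; push_cast; ring
  have q1 : (p : ℚ) ^ m * u 1 = z1 * n := by rw [hn1, hz1]; push_cast; ring
  refine ⟨![z0, z1], c, Int.isCoprime_iff_gcd_eq_one.2 hz, ?_, ?_⟩
  · have r0 : (p : ℝ) ^ m * u 0 = z0 * n := by exact_mod_cast congrArg (fun s : ℚ => (s : ℝ)) q0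
    have r1 : (p : ℝ) ^ m * u 1 = z1 * n := by exact_mod_cast congrArg (fun s : ℚ => (s : ℝ)) q1
    have r2 : (n : ℝ) ^ 2 * nsq h.1 (fun i => (![z0, z1] i : ℤ)) = p ^ (2 * m) * nsq g'.1 v := by
      rw [nsq, nsq, ← hwR 0, ← hwR 1, ← huR 0, ← huR 1]
      simp only [Matrix.cons_val_zero, Matrix.cons_val_one, Rat.cast_intCast]
      have s0 : ∀ a b : ℝ, (p : ℝ) ^ m * (a * u 0 + b * u 1) = n * (a * z0 + b * z1) := by
        intro a b; linear_combination a * r0 + b * r1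
      have s1 : ∀ A B : ℝ, (p : ℝ) ^ (2 * m) * (A ^ 2 + B ^ 2) =
          ((p : ℝ) ^ m * A) ^ 2 + ((p : ℝ) ^ m * B) ^ 2 := by intro A B; ring
      rw [s1, s0, s0]; ring
    have r3 : (p : ℝ) ^ (2 * c) ≤ (n : ℝ) ^ 2 := by
      rw [← sq_abs (n : ℝ), mul_comm 2 c, pow_mul]
      exact pow_le_pow_left₀ (by positivity) hc2 2
    have r4 : 0 ≤ nsq h.1 (fun i => (![z0, z1] i : ℤ)) := by rw [nsq]; positivity
    calc _ ≤ (n : ℝ) ^ 2 * nsq h.1 (fun i => (![z0, z1] i : ℤ)) :=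
          mul_le_mul_of_nonneg_right r3 r4
      _ = p ^ (2 * m) * nsq g'.1 v := r2
      _ < p ^ (2 * m) * δ ^ 2 := mul_lt_mul_of_pos_left hvR (by positivity)
      _ = _ := mul_comm _ _
  · have r0 : (p : ℚ_[p]) ^ m * u 0 = z0 * n := by
      exact_mod_cast congrArg (fun s : ℚ => (s : ℚ_[p])) q0
    have r1 : (p : ℚ_[p]) ^ m * u 1 = z1 * n := by
      exact_mod_cast congrArg (fun s : ℚ => (s : ℚ_[p])) q1
    rw [r0, r1] at d0
    simp only [Matrix.cons_val_zero, Matrix.cons_val_one]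
    have r2 : h.2 0 0 * ((z0 : ℚ_[p]) * n) + h.2 0 1 * ((z1 : ℚ_[p]) * n) +
        t * (p : ℚ_[p]) ^ (2 * (j + m)) *
          (h.2 1 0 * ((z0 : ℚ_[p]) * n) + h.2 1 1 * ((z1 : ℚ_[p]) * n)) =
        n * ((h.2 0 0 * z0 + h.2 0 1 * z1) +
          t * (p : ℚ_[p]) ^ (2 * (j + m)) * (h.2 1 0 * z0 + h.2 1 1 * z1)) := by ring
    rw [r2, norm_mul, hc1, inv_mul_le_iff₀ (by positivity)] at d0
    refine d0.trans (le_of_eq ?_)
    rw [zpow_sub₀ hp0.ne', zpow_natCast, div_eq_mul_inv]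
    congr 2

theorem tight_geo1 {q : ℝ} (hq : 2 ≤ q) (N : ℕ) :
    ∑ c ∈ Finset.range N, (q ^ c)⁻¹ ≤ 2 - 2 * (q ^ N)⁻¹ := by
  induction N with
  | zero => simp
  | succ n ih =>
    rw [Finset.sum_range_succ]
    have h1 : (0 : ℝ) < q ^ n := by positivity
    have h2 : 2 * (q ^ (n + 1))⁻¹ ≤ (q ^ n)⁻¹ := by
      rw [pow_succ, mul_inv, mul_comm, mul_assoc]
      refine mul_le_of_le_one_right (by positivity) ?_
      rw [inv_mul_le_iff₀ (by linarith)]; linarith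
    linarith

theorem tight_geo2 {q : ℝ} (hq : 2 ≤ q) (N : ℕ) : ∑ c ∈ Finset.range N, q ^ c ≤ q ^ N := by
  induction N with
  | zero => simp
  | succ n ih =>
    rw [Finset.sum_range_succ, pow_succ]
    have h1 : (0 : ℝ) < q ^ n := by positivity
    nlinarith

theorem tight_range {q B : ℝ} (hq : 2 ≤ q) (hB : 0 ≤ B) :
    ∃ N : ℕ, (∀ c, q ^ c ≤ B → c < N) ∧ ∑ c ∈ Finset.range N, q ^ c ≤ q * B := by
  classical
  have hex : ∃ n : ℕ, B < q ^ n := pow_unbounded_of_one_lt B (by linarith)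
  refine ⟨Nat.find hex, fun c hc => ?_, ?_⟩
  · by_contra h
    have h1 : q ^ Nat.find hex ≤ q ^ c := pow_le_pow_right₀ (by linarith) (not_lt.1 h)
    linarith [Nat.find_spec hex]
  · rcases Nat.eq_zero_or_pos (Nat.find hex) with h | h
    · rw [h]; simp; positivity
    · obtain ⟨n, hn⟩ : ∃ n, Nat.find hex = n + 1 := ⟨Nat.find hex - 1, by omega⟩
      have h1 : q ^ n ≤ B := not_lt.1 (Nat.find_min hex (by omega))
      refine (tight_geo2 hq _).trans ?_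
      rw [hn, pow_succ, mul_comm]
      exact mul_le_mul_of_nonneg_left h1 (by linarith)

theorem tight_even {D : ℤ} (hD : D < 0) {x : XX p} {e : ℚ_[p]} (hF : Frame p D x e) (j m : ℕ)
    {δ : ℝ} (hδ : 0 < δ) (hδ1 : δ ≤ 1)
    (hDr : ‖(D : ℚ_[p])‖ * ((p : ℝ) ^ (2 * (j + m))) ^ 2 ≤ (p : ℝ) ^ 2)
    (hC : 2 * p ^ 2 * Real.sqrt (-(D : ℝ)) ≤ (δ ^ 2 * (p : ℝ) ^ (2 * m)) ^ 2) :
    bm p ((2 * (j + m) : ℕ) : ℤ) {t | Short p δ (aP p j • uP p t • x)} ≤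
      ENNReal.ofReal (9 * p * δ ^ 2) := by
  have hp : (2 : ℝ) ≤ p := tight_two_le p
  have hp0 : (0 : ℝ) < p := by linarith
  obtain ⟨h, hK, hh⟩ := exists_rep p (aP p (j + m) • x)
  obtain ⟨N, hN1, hN2⟩ := tight_range hp (B := δ ^ 2 * (p : ℝ) ^ (2 * m)) (by positivity)
  choose T hT1 hT2 using fun c : ℕ =>
    card_prim h.1 (R := δ * (p : ℝ) ^ m / (p : ℝ) ^ c) (by positivity)
  set E : ℕ → (Fin 2 → ℤ) → Set ℚ_[p] := fun c z =>
    {t | ‖t‖ ≤ (p : ℝ) ^ (2 * (j + m)) ∧ ‖(h.2 0 0 * z 0 + h.2 0 1 * z 1) +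
      t * (p : ℚ_[p]) ^ (2 * (j + m)) * (h.2 1 0 * z 0 + h.2 1 1 * z 1)‖ ≤
        (p : ℝ) ^ ((c : ℤ) - 2 * m)} with hE
  classical
  have hsub : {t | Short p δ (aP p j • uP p t • x)} ≤ᵐ[bm p ((2 * (j + m) : ℕ) : ℤ)]
      (⋃ c ∈ Finset.range N, ⋃ z ∈ (T c).filter (fun z => IsCoprime (z 0) (z 1)), E c z :
        Set ℚ_[p]) := by
    filter_upwards [bm_ae p ((2 * (j + m) : ℕ) : ℤ)] with t ht hs
    rw [zpow_natCast] at ht
    obtain ⟨z, c, hz, h1, h2⟩ := tight_cover p j m hK hh ht hs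
    have h3 := tight_low2 p hD hF hDr hK hh hz
    have hσ : 0 ≤ 2 * (p : ℝ) ^ 2 * Real.sqrt (-(D : ℝ)) := by positivity
    have hc : c < N := by
      refine hN1 c (pow_le_pow_iff_left₀ (n := 2) (by positivity) (by positivity) two_ne_zero |>.1
        (le_trans ?_ hC))
      have h4 : δ ^ 2 * (p : ℝ) ^ (2 * m) ≤ (p : ℝ) ^ (2 * (j + m)) :=
        (mul_le_of_le_one_left (by positivity) (pow_le_one₀ hδ.le hδ1)).trans
          (pow_le_pow_right₀ (by linarith) (by omega))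
      have h5 : (p : ℝ) ^ (2 * c) * (p : ℝ) ^ (2 * (j + m)) ≤
          (2 * (p : ℝ) ^ 2 * Real.sqrt (-(D : ℝ))) * (p : ℝ) ^ (2 * (j + m)) :=
        calc _ ≤ (p : ℝ) ^ (2 * c) *
              (2 * p ^ 2 * Real.sqrt (-(D : ℝ)) * nsq h.1 (fun i => z i)) :=
              mul_le_mul_of_nonneg_left h3 (by positivity)
          _ = (2 * (p : ℝ) ^ 2 * Real.sqrt (-(D : ℝ))) *
              ((p : ℝ) ^ (2 * c) * nsq h.1 (fun i => z i)) := by ring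
          _ ≤ _ := mul_le_mul_of_nonneg_left (h1.le.trans h4) hσ
      rw [← pow_mul, mul_comm c 2]
      exact le_of_mul_le_mul_right h5 (by positivity)
    have hzT : z ∈ T c := by
      refine hT2 c z hz ?_
      rw [div_pow, lt_div_iff₀ (by positivity), mul_pow, ← pow_mul, ← pow_mul, mul_comm c 2,
        mul_comm m 2, mul_comm]
      exact h1
    exact Set.mem_biUnion (Finset.mem_range.2 hc)
      (Set.mem_biUnion (Finset.mem_filter.2 ⟨hzT, hz⟩) ⟨ht, h2⟩)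
  have hone : ∀ c : ℕ, bm p ((2 * (j + m) : ℕ) : ℤ)
      (⋃ z ∈ (T c).filter (fun z => IsCoprime (z 0) (z 1)), E c z) ≤
      ENNReal.ofReal (7 * δ ^ 2 * ((p : ℝ) ^ c)⁻¹ + 2 * ((p : ℝ) ^ (2 * m))⁻¹ * (p : ℝ) ^ c) := by
    intro c
    refine (measure_biUnion_finset_le _ _).trans ?_
    refine (Finset.sum_le_card_nsmul _ _ (ENNReal.ofReal ((p : ℝ) ^ ((c : ℤ) - 2 * m)))
      fun z hz => tight_meas p hK (Finset.mem_filter.1 hz).2 _ _).trans ?_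
    rw [nsmul_eq_mul, ← ENNReal.ofReal_natCast, ← ENNReal.ofReal_mul (by positivity)]
    refine ENNReal.ofReal_le_ofReal ?_
    have h1 : (((T c).filter (fun z => IsCoprime (z 0) (z 1))).card : ℝ) ≤
        7 * (δ * (p : ℝ) ^ m / (p : ℝ) ^ c) ^ 2 + 2 :=
      le_trans (by exact_mod_cast Finset.card_filter_le _ _) (hT1 c)
    refine (mul_le_mul_of_nonneg_right h1 (by positivity)).trans (le_of_eq ?_)
    have h2 : (p : ℝ) ^ ((c : ℤ) - 2 * m) = (p : ℝ) ^ c / (p : ℝ) ^ (2 * m) := by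
      rw [zpow_sub₀ hp0.ne', zpow_natCast]; congr 1
    rw [h2]; field_simp; ring
  refine (measure_mono_ae hsub).trans ((measure_biUnion_finset_le _ _).trans ?_)
  refine (Finset.sum_le_sum fun c _ => hone c).trans ?_
  rw [← ENNReal.ofReal_sum_of_nonneg fun c _ => by positivity]
  refine ENNReal.ofReal_le_ofReal ?_
  rw [Finset.sum_add_distrib, ← Finset.mul_sum, ← Finset.mul_sum]
  have h1 : ∑ c ∈ Finset.range N, ((p : ℝ) ^ c)⁻¹ ≤ 2 :=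
    (tight_geo1 hp N).trans (sub_le_self _ (by positivity))
  have h2 : 2 * ((p : ℝ) ^ (2 * m))⁻¹ * ∑ c ∈ Finset.range N, (p : ℝ) ^ c ≤ 2 * p * δ ^ 2 := by
    refine (mul_le_mul_of_nonneg_left hN2 (by positivity)).trans (le_of_eq ?_)
    field_simp
  have h3 : 7 * δ ^ 2 * ∑ c ∈ Finset.range N, ((p : ℝ) ^ c)⁻¹ ≤ 7 * δ ^ 2 * 2 :=
    mul_le_mul_of_nonneg_left h1 (by positivity)
  nlinarith [sq_nonneg δ]

theorem tight_frame {ε : ℝ≥0∞} (hε : 0 < ε) : ∃ Ω : Set (XX p), IsCompact Ω ∧ ∀ j : ℕ, ∃ C : ℝ,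
    ∀ (D : ℤ) (x : XX p) (e d : ℚ_[p]) (r : ℤ), D < 0 → Frame p D x e →
      ‖(D : ℚ_[p])‖ * (‖d‖ * (p : ℝ) ^ r) ^ 2 ≤ 1 →
      C * Real.sqrt (-(D : ℝ)) ≤ (‖d‖ * (p : ℝ) ^ r) ^ 2 →
      bm p r {s | aP p j • uP p (d * s) • x ∉ Ω} ≤ ε := by
  have hp : (2 : ℝ) ≤ p := tight_two_le p
  have hp0 : (0 : ℝ) < p := by linarith
  have hp1 : (1 : ℝ) < p := by linarith
  obtain ⟨δ, hδ, hδ1, hδε⟩ : ∃ δ : ℝ, 0 < δ ∧ δ ≤ 1 ∧ ENNReal.ofReal (p * (9 * p * δ ^ 2)) ≤ ε := by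
    obtain ⟨η, -, hη0, hη⟩ := ENNReal.lt_iff_exists_real_btwn.1 hε
    have hη1 : 0 < η := ENNReal.ofReal_pos.1 hη0
    refine ⟨min 1 (η / (9 * p ^ 2)), by positivity, min_le_left _ _,
      (ENNReal.ofReal_le_ofReal ?_).trans hη.le⟩
    have h1 : min 1 (η / (9 * (p : ℝ) ^ 2)) ^ 2 ≤ 1 * (η / (9 * p ^ 2)) := by
      rw [sq]
      exact mul_le_mul (min_le_left _ _) (min_le_right _ _) (by positivity) one_pos.le
    rw [one_mul, le_div_iff₀ (by positivity)] at h1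
    linarith
  obtain ⟨Ω, hΩ, hΩ'⟩ := exists_compact_notShort p hδ
  refine ⟨Ω, hΩ, fun j => ⟨2 * p ^ 2 * p ^ (4 * j) / δ ^ 4, fun D x e d r hD hF h1 h2 => ?_⟩⟩
  have hσ : 1 ≤ Real.sqrt (-(D : ℝ)) := by
    refine Real.one_le_sqrt.2 ?_
    have : D ≤ -1 := by omega
    have : (D : ℝ) ≤ -1 := by exact_mod_cast this
    linarith
  have hd : d ≠ 0 := by
    rintro rfl
    have : 0 < 2 * (p : ℝ) ^ 2 * p ^ (4 * j) / δ ^ 4 * Real.sqrt (-(D : ℝ)) := by positivity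
    simp only [norm_zero, zero_mul] at h2
    linarith
  obtain ⟨v, hv⟩ := exists_norm_eq p hd
  have hT : ‖d‖ * (p : ℝ) ^ r = (p : ℝ) ^ (r + v) := by rw [hv, zpow_add₀ hp0.ne', mul_comm]
  rw [hT] at h1 h2
  rw [div_mul_eq_mul_div, div_le_iff₀ (by positivity)] at h2
  have hδ4 : δ ^ 4 ≤ 1 := pow_le_one₀ hδ.le hδ1
  have hj : 2 * (j : ℤ) ≤ r + v := by
    have h3 : ((p : ℝ) ^ (2 * j)) ^ 2 ≤ ((p : ℝ) ^ (r + v)) ^ 2 := by
      have a1 : ((p : ℝ) ^ (r + v)) ^ 2 * δ ^ 4 ≤ ((p : ℝ) ^ (r + v)) ^ 2 :=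
        mul_le_of_le_one_right (by positivity) hδ4
      have a2 : ((p : ℝ) ^ (2 * j)) ^ 2 = (p : ℝ) ^ (4 * j) := by ring
      have a3 : (p : ℝ) ^ (4 * j) ≤ 2 * (p : ℝ) ^ 2 * p ^ (4 * j) :=
        le_mul_of_one_le_left (by positivity) (by nlinarith)
      have a4 : 2 * (p : ℝ) ^ 2 * p ^ (4 * j) ≤
          2 * (p : ℝ) ^ 2 * p ^ (4 * j) * Real.sqrt (-(D : ℝ)) :=
        le_mul_of_one_le_right (by positivity) hσ
      linarith
    have h4 := (pow_le_pow_iff_left₀ (by positivity) (by positivity) two_ne_zero).1 h3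
    rw [← zpow_natCast, zpow_le_zpow_iff_right₀ hp1] at h4
    exact_mod_cast h4
  obtain ⟨m, hm1, hm2⟩ : ∃ m : ℕ, r + v ≤ ((2 * (j + m) : ℕ) : ℤ) ∧
      ((2 * (j + m) : ℕ) : ℤ) ≤ r + v + 1 := ⟨((r + v + 1) / 2 - j).toNat, by omega, by omega⟩
  have hlo : (p : ℝ) ^ (r + v) ≤ (p : ℝ) ^ (2 * (j + m)) := by
    rw [← zpow_natCast]; exact zpow_le_zpow_right₀ hp1.le hm1
  have hhi : (p : ℝ) ^ (2 * (j + m)) ≤ (p : ℝ) ^ (r + v) * p := by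
    rw [← zpow_natCast, ← zpow_add_one₀ hp0.ne']; exact zpow_le_zpow_right₀ hp1.le hm2
  have key := tight_even p hD hF j m hδ hδ1 ?_ ?_
  · have h5 : bm p r {s | aP p j • uP p (d * s) • x ∉ Ω} ≤
        bm p (r + v) {t | Short p δ (aP p j • uP p t • x)} := by
      rw [← bm_mul p r v hv]
      refine le_trans (measure_mono ?_) (Measure.le_map_apply
        (continuous_const.mul continuous_id).measurable.aemeasurable _)
      intro s hs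
      by_contra hc
      exact hs (hΩ' _ hc)
    refine h5.trans ((bm_le p hm1 _).trans (le_trans ?_ hδε))
    rw [ENNReal.ofReal_mul hp0.le]
    refine mul_le_mul' (ENNReal.ofReal_le_ofReal ?_) key
    calc _ ≤ (p : ℝ) ^ (1 : ℤ) := zpow_le_zpow_right₀ hp1.le (by omega)
      _ = p := zpow_one _
  · calc _ ≤ ‖(D : ℚ_[p])‖ * ((p : ℝ) ^ (r + v) * p) ^ 2 := by gcongr
      _ = ‖(D : ℚ_[p])‖ * ((p : ℝ) ^ (r + v)) ^ 2 * p ^ 2 := by ring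
      _ ≤ _ := mul_le_of_le_one_left (by positivity) h1
  · have h5 : ((p : ℝ) ^ (r + v)) ^ 2 * δ ^ 4 ≤ ((p : ℝ) ^ (2 * (j + m))) ^ 2 * δ ^ 4 := by gcongr
    have h6 : (2 * p ^ 2 * Real.sqrt (-(D : ℝ))) * (p : ℝ) ^ (4 * j) ≤
        (δ ^ 2 * (p : ℝ) ^ (2 * m)) ^ 2 * (p : ℝ) ^ (4 * j) :=
      calc _ = 2 * (p : ℝ) ^ 2 * p ^ (4 * j) * Real.sqrt (-(D : ℝ)) := by ring
        _ ≤ _ := h2.trans h5
        _ = _ := by ring
    exact le_of_mul_le_mul_right h6 (by positivity)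

end Pool.Agent.EQ
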