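import Pool.Agent.P.MP_ad7a55_nt.MainA
import Pool.Agent.P.MP_ad7a55_nt.Block
import Pool.Agent.P.MP_ad7a55_nt.Tight
import Pool.Agent.P.MP_ad7a55_nt.Exc

/-! The induction over the coordinates. -/

set_option autoImplicit false

noncomputable section

open MeasureTheory Topology Filter UpperHalfPlane
open scoped MatrixGroups ENNReal BoundedContinuousFunction

namespace Pool.Agent.EQ

/-- The average over a finite set. -/
def avg {α : Type} (O : Finset α) (G : α → ℝ) : ℝ := (∑ z ∈ O, G z) / O.card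

theorem abs_avg_le {α : Type} {O : Finset α} (hO : O.Nonempty) (G : α → ℝ) {B : ℝ}
    (h : ∀ z ∈ O, |G z| ≤ B) : |avg O G| ≤ B := by
  have hc : (0 : ℝ) < O.card := by exact_mod_cast hO.card_pos
  rw [avg, abs_div, abs_of_pos hc, div_le_iff₀ hc]
  refine (Finset.abs_sum_le_sum_abs _ _).trans ((Finset.sum_le_card_nsmul _ _ _ h).trans ?_)
  rw [nsmul_eq_mul, mul_comm]

theorem ultra_max {β γ : Type} [LinearOrder γ] (𝒰 : Ultrafilter ℕ) {I : Finset β}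
    (hI : I.Nonempty) (φ : ℕ → β → γ) : ∃ j ∈ I, ∀ᶠ i in 𝒰, ∀ k ∈ I, φ i k ≤ φ i j := by
  have := (Ultrafilter.eventually_exists_mem_iff (f := 𝒰) (is := (I : Set β))
    (P := fun j i => ∀ k ∈ I, φ i k ≤ φ i j) I.finite_toSet).1
    (Eventually.of_forall fun i => I.exists_max_image (φ i) hI)
  exact this

theorem norm_int_eq (p : ℕ) [Fact p.Prime] {D : ℤ} (hD : D ≠ 0) :
    ‖(D : ℚ_[p])‖ = (p : ℝ) ^ (-(padicValInt p D : ℤ)) := by
  rw [Padic.norm_eq_zpow_neg_valuation (by exact_mod_cast hD), Padic.valuation_intCast]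

theorem prod_bdd {n : ℕ} (f : Fin n → (ℂ →ᵇ ℝ)) (I : Finset (Fin n)) :
    (Continuous fun w : Fin n → ℂ => ∏ k ∈ I, f k (w k)) ∧
      ∃ B, ∀ w : Fin n → ℂ, |∏ k ∈ I, f k (w k)| ≤ B :=
  ⟨continuous_finsetProd _ fun k _ => (f k).continuous.comp (continuous_apply k),
    ∏ k ∈ I, ‖f k‖, fun w => by
      rw [Finset.abs_prod]
      exact Finset.prod_le_prod (fun _ _ => abs_nonneg _) fun k _ => (f k).norm_coe_le_norm _⟩

/-- No isogeny of bounded degree between different coordinates. -/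
def NoIsog {n : ℕ} (τ : ℕ → Fin n → ℍ) : Prop :=
  ∀ k l, k ≠ l → ∀ N : ℕ, 0 < N → ∀ᶠ i in atTop, ∀ σ : ℂ ≃+* ℂ,
    ¬ Isog N (σ (jInv (τ i k))) (σ (jInv (τ i l)))

/-- One step of the induction, for a fixed prime. -/
theorem main_step {n : ℕ} (F : IntermediateField ℚ ℂ) [FiniteDimensional ℚ F]
    (τ : ℕ → Fin n → ℍ) (D : ℕ → Fin n → ℤ) (hD : ∀ i k, HasDisc (τ i k) (D i k))
    (hgen : NoIsog τ) (𝒰 : Ultrafilter ℕ) (h𝒰 : (𝒰 : Filter ℕ) ≤ atTop)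
    (hbig : ∀ᶠ i in 𝒰, ∀ k, D i k < -576) (p : ℕ) [Fact p.Prime] (I : Finset (Fin n))
    (j : Fin n) (hj : j ∈ I)
    (hmax : ∀ᶠ i in 𝒰, ∀ k ∈ I, padicValInt p (D i k) ≤ padicValInt p (D i j))
    (hdom : ∀ C : ℝ, ∀ᶠ i in 𝒰, ∀ k ∈ I,
      C * Real.sqrt (-(D i k : ℝ)) ≤ (p : ℝ) ^ padicValInt p (D i j))
    (f : Fin n → (ℂ →ᵇ ℝ)) : ∃ J ⊆ I, j ∈ J ∧
      Tendsto (fun i => avg (orbit_finite F (hD i)).toFinset (fun z => ∏ k ∈ I, f k (z k)) -
        (∏ k ∈ J, ∫ z, f k z ∂mY) *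
          avg (orbit_finite F (hD i)).toFinset (fun z => ∏ k ∈ I \ J, f k (z k))) 𝒰 (𝓝 0) := by
  classical
  have hp : (1 : ℝ) < p := by exact_mod_cast (Fact.out : p.Prime).one_lt
  have hp0 : (0 : ℝ) < p := one_pos.trans hp
  obtain ⟨c, hc⟩ := exists_frames p F n
  choose ρ N x e hF using fun i => hc (τ i) (D i) (hD i) j
  set O : ℕ → Finset (Fin n → ℂ) := fun i => (orbit_finite F (hD i)).toFinset with hO
  have hOne : ∀ i, (O i).Nonempty := fun i =>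
    ⟨_, (orbit_finite F (hD i)).mem_toFinset.2 (orbit_self F _)⟩
  have hF' : ∀ᶠ i in 𝒰, Fr p (O i) (D i) j c (ρ i) (N i) (x i) (e i) := hbig.mono hF
  have hneg : ∀ i k, D i k < 0 := fun i k => (hD i k).isD.1
  set v : ℕ → ℕ := fun i => padicValInt p (D i j) with hv
  set r : ℕ → ℤ := fun i => (v i : ℤ) / 2 - c with hr
  have hvt : Tendsto v 𝒰 atTop := by
    refine tendsto_atTop.2 fun b => (hdom ((p : ℝ) ^ b)).mono fun i hi => ?_
    have h1 : (1 : ℝ) ≤ Real.sqrt (-(D i j : ℝ)) := by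
      rw [Real.one_le_sqrt]
      have : D i j ≤ -1 := by linarith [hneg i j]
      have : (D i j : ℝ) ≤ -1 := by exact_mod_cast this
      linarith
    have h2 : (p : ℝ) ^ b ≤ (p : ℝ) ^ v i :=
      (le_mul_of_one_le_right (by positivity) h1).trans (hi j hj)
    exact (pow_le_pow_iff_right₀ hp).1 h2
  have hrt : Tendsto r 𝒰 atTop := by
    refine tendsto_atTop.2 fun b => (tendsto_atTop.1 hvt (2 * (b + c).toNat)).mono fun i hi => ?_
    simp only [hr]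
    omega
  have hDj : ∀ i, ‖(D i j : ℚ_[p])‖ = (p : ℝ) ^ (-(v i : ℤ)) := fun i =>
    norm_int_eq p (hneg i j).ne
  have hr1 : ∀ i, ‖(D i j : ℚ_[p])‖ * ((p : ℝ) ^ r i) ^ 2 ≤ (p : ℝ) ^ (-(c : ℤ)) := fun i => by
    rw [hDj, ← zpow_natCast, ← zpow_mul, ← zpow_add₀ hp0.ne']
    refine zpow_le_zpow_right₀ hp.le ?_
    simp only [hr]
    omega
  have hr2 : ∀ i, (p : ℝ) ^ v i ≤ (p : ℝ) ^ (2 * c + 1) * ((p : ℝ) ^ r i) ^ 2 := fun i => by
    rw [← zpow_natCast, ← zpow_natCast, ← zpow_natCast, ← zpow_mul, ← zpow_add₀ hp0.ne']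
    refine zpow_le_zpow_right₀ hp.le ?_
    simp only [hr]
    omega
  set J := I.filter fun k => ¬ Tendsto (fun i => N i k) 𝒰 (𝓝 0) with hJ
  have hJI : J ⊆ I := Finset.filter_subset _ _
  have hjJ : j ∈ J := by
    refine Finset.mem_filter.2 ⟨hj, fun h => ?_⟩
    have h4 : ∀ᶠ i in 𝒰, ‖(D i j : ℚ_[p])‖ ≤ ‖(4 : ℚ_[p])‖ := by
      filter_upwards [tendsto_atTop.1 hvt (padicValInt p 4)] with i hi
      have := norm_int_eq p (D := 4) (by norm_num)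
      push_cast at this
      rw [hDj, this]
      exact zpow_le_zpow_right₀ hp.le (by omega)
    have h5 : Tendsto (fun _ : ℕ => ‖(2 : ℚ_[p])‖) 𝒰 (𝓝 0) :=
      h.congr' (by filter_upwards [h4, hF'] with i h4 hF using hF.top h4)
    have := tendsto_nhds_unique h5 tendsto_const_nhds
    exact absurd this.symm (by simp)
  refine ⟨J, hJI, hjJ, ?_⟩
  set Φ : ℕ → (Fin n → ℂ) → ℝ := fun i z =>
    ∫ s, ∏ k ∈ I, f k (piX p (uP p (-e i z k * ρ i k * s) • x i z k)) ∂bm p (r i) -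
      (∏ k ∈ J, ∫ z, f k z ∂mY) *
        ∫ s, ∏ k ∈ I \ J, f k (piX p (uP p (-e i z k * ρ i k * s) • x i z k)) ∂bm p (r i) with hΦ
  choose z hz hzmax using fun i => (O i).exists_max_image (fun z => |Φ i z|) (hOne i)
  set d : ℕ → Fin n → ℚ_[p] := fun i k => -e i (z i) k * ρ i k with hd
  have hdN : ∀ᶠ i in 𝒰, ∀ k, ‖d i k‖ = N i k := hF'.mono fun i hi k => hi.nrm _ (hz i) k
  have hd1 : ∀ k ∈ I, ∀ᶠ i in 𝒰, d i k ∈ Metric.closedBall (0 : ℚ_[p]) 1 := by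
    intro k hk
    filter_upwards [hF', hdN, hmax] with i hi h1 h2
    rw [mem_closedBall_zero_iff, h1 k]
    have h3 := hi.le k
    have h4 : ‖(D i j : ℚ_[p])‖ ≤ ‖(D i k : ℚ_[p])‖ := by
      rw [hDj, norm_int_eq p (hneg i k).ne]
      exact zpow_le_zpow_right₀ hp.le (by have := h2 k hk; simp only [hv]; omega)
    have h5 : 0 < ‖(D i k : ℚ_[p])‖ := norm_pos_iff.2 (by exact_mod_cast (hneg i k).ne)
    have h6 : N i k ^ 2 ≤ 1 := by nlinarith
    exact (sq_le_one_iff_abs_le_one _).1 h6 |> (le_abs_self _).trans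
  have hlim : ∀ k, ∃ a : ℚ_[p], k ∈ I → Tendsto (fun i => d i k) 𝒰 (𝓝 a) := by
    intro k
    by_cases hk : k ∈ I
    · obtain ⟨a, -, ha⟩ := (isCompact_closedBall (0 : ℚ_[p]) 1).ultrafilter_le_nhds
        (𝒰.map fun i => d i k) (by rw [le_principal_iff]; exact hd1 k hk)
      exact ⟨a, fun _ => ha⟩
    · exact ⟨0, fun h => absurd h hk⟩
  choose a ha using hlim
  have haN : ∀ k ∈ I, Tendsto (fun i => N i k) 𝒰 (𝓝 ‖a k‖) := fun k hk =>
    (ha k hk).norm.congr' (hdN.mono fun i hi => hi k)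
  have ha0 : ∀ k ∈ J, a k ≠ 0 := fun k hk h =>
    (Finset.mem_filter.1 hk).2 (by simpa [h] using haN k (hJI hk))
  have ha1 : ∀ k ∈ I, k ∉ J → a k = 0 := fun k hk hk' => by
    have : Tendsto (fun i => N i k) 𝒰 (𝓝 0) := by
      by_contra h
      exact hk' (Finset.mem_filter.2 ⟨hk, h⟩)
    exact norm_eq_zero.1 (tendsto_nhds_unique (haN k hk) this)
  have key : ∀ k ∈ J, ∀ C : ℝ, ∀ᶠ i in 𝒰, Frame p (D i k) (x i (z i) k) (e i (z i) k) ∧
      0 < ρ i k ∧ ρ i k ^ 2 * D i k = D i j ∧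
      ‖(D i k : ℚ_[p])‖ * (‖d i k‖ * (p : ℝ) ^ r i) ^ 2 ≤ 1 ∧
      C * Real.sqrt (-(D i k : ℝ)) ≤ (‖d i k‖ * (p : ℝ) ^ r i) ^ 2 := by
    intro k hk C
    have hb : 0 < ‖a k‖ / 2 := half_pos (norm_pos_iff.2 (ha0 k hk))
    have h1 : ∀ᶠ i in 𝒰, ‖a k‖ / 2 < N i k :=
      (haN k (hJI hk)).eventually (lt_mem_nhds (by linarith))
    filter_upwards [h1, hF', hdN, hdom (C * (p : ℝ) ^ (2 * c + 1) / (‖a k‖ / 2) ^ 2)]
      with i h1 hi h2 h3
    obtain ⟨h4, h5, h6⟩ := hi.fr _ (hz i) k (hb.trans h1).ne'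
    refine ⟨h4, h5, h6, ?_, ?_⟩
    · rw [h2 k, mul_pow, ← mul_assoc]
      refine (mul_le_mul_of_nonneg_right (hi.le k) (by positivity)).trans ((hr1 i).trans ?_)
      exact zpow_le_one_of_nonpos₀ hp.le (by omega)
    · have h7 := (h3 k (hJI hk)).trans (hr2 i)
      rw [div_mul_eq_mul_div, div_le_iff₀ (by positivity)] at h7
      have h8 : C * Real.sqrt (-(D i k : ℝ)) ≤ ((p : ℝ) ^ r i) ^ 2 * (‖a k‖ / 2) ^ 2 := by
        refine le_of_mul_le_mul_left (a := (p : ℝ) ^ (2 * c + 1)) ?_ (by positivity)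
        linarith
      rw [h2 k, mul_pow, mul_comm (N i k ^ 2)]
      refine h8.trans ?_
      gcongr
  have hT : ∀ k ∈ J, Tt p 𝒰 (fun i => x i (z i) k) (fun i => d i k) r := by
    intro k hk ε hε
    obtain ⟨Ω, hΩ, h⟩ := tight_frame p hε
    refine ⟨Ω, hΩ, fun m => ?_⟩
    obtain ⟨C, hC⟩ := h m
    filter_upwards [key k hk C] with i hi
    exact hC _ _ _ _ _ (hneg i k) hi.1 hi.2.2.2.1 hi.2.2.2.2
  have hE : ∀ k ∈ J, ∀ l ∈ J, k ≠ l → NoExc p 𝒰 (fun i => x i (z i) k) (fun i => x i (z i) l)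
      (fun i => d i k) (fun i => d i l) r := by
    intro k hk l hl hkl q hq δ hδ R
    obtain ⟨C, M, hM, h⟩ := exc_frame p hq hδ R
    filter_upwards [key k hk C, key l hl C, h𝒰 (hgen k l hkl M hM), hF'] with i h1 h2 h3 h4
    intro P hP hP1
    by_contra h5
    push Not at h5
    have h6 := h _ _ _ _ _ _ _ _ _ (hneg i k) (hneg i l) h1.1 h2.1 h1.2.1 h2.2.1
      (h1.2.2.1.trans h2.2.2.1.symm) h1.2.2.2.1 h2.2.2.2.1 h1.2.2.2.2 h2.2.2.2.2 P hP hP1 h5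
    rw [h4.pi _ (hz i), h4.pi _ (hz i)] at h6
    obtain ⟨σ, -, hσ⟩ := (orbit_finite F (hD i)).mem_toFinset.1 (hz i)
    rw [hσ] at h6
    exact h3 σ h6
  have hstep := step p 𝒰 h𝒰 (fun i => x i (z i)) d a I J hJI ha0 ha1 ha r hrt hT hE f
  refine squeeze_zero_norm' ?_ (tendsto_norm_zero.comp hstep)
  filter_upwards [hF'] with i hi
  have h1 := hi.sum (r i) (hr1 i) _ (prod_bdd f I).1 (prod_bdd f I).2
  have h2 := hi.sum (r i) (hr1 i) _ (prod_bdd f (I \ J)).1 (prod_bdd f (I \ J)).2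
  have h3 : avg (O i) (fun z => ∏ k ∈ I, f k (z k)) - (∏ k ∈ J, ∫ z, f k z ∂mY) *
      avg (O i) (fun z => ∏ k ∈ I \ J, f k (z k)) = avg (O i) (Φ i) := by
    simp only [avg, hΦ]
    rw [← h1, ← h2, Finset.sum_sub_distrib, ← Finset.mul_sum]
    ring
  rw [h3]
  exact abs_avg_le (hOne i) _ (hzmax i)

end Pool.Agent.EQ
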