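import Pool.Agent.P.MP_ad7a55_nt.Tight
import Pool.Agent.P.MP_ad7a55_nt.CtB

/-! Ball orbits of good CM points do not escape. -/

set_option autoImplicit false

noncomputable section

open MeasureTheory Topology Filter UpperHalfPlane
open scoped MatrixGroups ENNReal BoundedContinuousFunction

namespace Pool.Agent.EQ

variable (p : ℕ) [Fact p.Prime]

theorem tight2_vol {g : GG p} (hg : g.2 ∈ Kp p) : vol (latG p g) = 1 := by
  have hd := tight_det g.1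
  have h1 : (starRingEnd ℂ ((g.1 0 0 : ℂ) - g.1 1 0 * Complex.I) *
      ((g.1 0 1 : ℂ) - g.1 1 1 * Complex.I)).im = -1 := by
    simp
    linarith
  rw [latG_K p hg, (vol_sp' (by rw [h1]; norm_num)).2, h1]
  norm_num

theorem tight2_disc {D : ℤ} {g : GG p} (h : piX p (g : XX p) ∈ Cl D) : DiscL (latG p g) D := by
  obtain ⟨Λ, h1, h2⟩ := h
  obtain ⟨h3, h4⟩ := latG_spec p g
  obtain ⟨c, hc, h5⟩ := jL_inj h1.isLat h3 (h2.trans h4.symm)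
  rw [h5]
  exact h1.pr_mul hc

theorem tight2_two : 1 ≤ 2 * ‖(2 : ℚ_[p])‖ := by
  have := tight_prod p (x := 2) (by simpa using inZp_int p 2) two_ne_zero
  simpa using this

/-- A short vector with a divisibility condition makes the point bad. -/
theorem tight2_bad {D : ℤ} {e : ℚ_[p]} {g : GG p} (hg : g.2 ∈ Kp p)
    (hCl : piX p (g : XX p) ∈ Cl D) {Θ : Matrix (Fin 2) (Fin 2) ℤ}
    (h1 : (g.1 : Matrix (Fin 2) (Fin 2) ℝ) * Θ.map (↑) =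
      !![0, Real.sqrt (-(D : ℝ)); -Real.sqrt (-(D : ℝ)), 0] * (g.1 : Matrix (Fin 2) (Fin 2) ℝ))
    (h2 : (g.2 : Matrix (Fin 2) (Fin 2) ℚ_[p]) * Θ.map (↑) =
      !![0, e; D / e, 0] * (g.2 : Matrix (Fin 2) (Fin 2) ℚ_[p])) (he : ‖e‖ = ‖(2 : ℚ_[p])‖)
    {w : Fin 2 → ℚ} (hw0 : w ≠ 0) (hw : ∀ i, InZp p (w i)) {C : ℝ} (hC : 4 ≤ C)
    (h0 : ‖g.2 0 0 * w 0 + g.2 0 1 * w 1‖ ≤ 1) (h1' : ‖g.2 1 0 * w 0 + g.2 1 1 * w 1‖ ≤ 1)
    (h1'' : ‖g.2 1 0 * w 0 + g.2 1 1 * w 1‖ ^ 2 ≤ C * ‖(D : ℚ_[p])‖) (hn : nsq g.1 w ≤ C) :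
    Bad1 p C D (piX p (g : XX p)) := by
  have hΛ := tight2_disc p hCl
  have hD : D < 0 := hΛ.isD.1
  have hσ : 0 < Real.sqrt (-(D : ℝ)) := Real.sqrt_pos.2 (by
    have : (D : ℝ) < 0 := by exact_mod_cast hD
    linarith)
  have hpos := tight_nsq_pos g.1 hw0
  have hmem : frame_ph g.1 (w 0) (w 1) ∈ latG p g :=
    (frame_mem_latG p).2 ⟨w 0, w 1, hw 0, hw 1, h0, h1', rfl⟩
  have hsq : Complex.normSq (frame_ph g.1 (w 0) (w 1)) = nsq g.1 w := by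
    rw [frame_ph, nsq, Complex.normSq_apply]
    simp only [Complex.sub_re, Complex.sub_im, Complex.ofReal_re, Complex.ofReal_im,
      Complex.mul_re, Complex.mul_im, Complex.I_re, Complex.I_im]
    ring
  have hne : frame_ph g.1 (w 0) (w 1) ≠ 0 := by
    intro h
    rw [h, map_zero] at hsq
    linarith
  obtain ⟨n, hn1⟩ := hΛ.normSq_nat hmem
  have hId := hΛ.mem_Idl hmem hne hn1
  have hnm : nm D (latG p g) = 2 / Real.sqrt (-(D : ℝ)) := by rw [nm, tight2_vol p hg, mul_one]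
  have h2n : 2 * (n : ℝ) = Real.sqrt (-(D : ℝ)) * nsq g.1 w := by
    rw [← hsq, hn1, hnm]; field_simp
  have hn0 : 0 < n := by
    have : (0 : ℝ) < n := by linarith [mul_pos hσ hpos]
    exact_mod_cast this
  set q : ℚ := w 0 * (Θ 1 0 * w 0 + Θ 1 1 * w 1) - w 1 * (Θ 0 0 * w 0 + Θ 0 1 * w 1) with hq
  have hqR : (q : ℝ) = -(Real.sqrt (-(D : ℝ)) * nsq g.1 w) := by
    have := tight_form g.1 Θ _ _ h1 (w 0) (w 1)
    rw [hq, nsq]; push_cast; linear_combination this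
  have hqP : (q : ℚ_[p]) = D / e * (g.2 0 0 * w 0 + g.2 0 1 * w 1) ^ 2 -
      e * (g.2 1 0 * w 0 + g.2 1 1 * w 1) ^ 2 := by
    have := tight_form g.2 Θ _ _ h2 (w 0) (w 1)
    rw [hq]; push_cast; linear_combination this
  have hqn : q = -(2 * n) := by
    have : (q : ℝ) = ((-(2 * n) : ℚ) : ℝ) := by rw [hqR, ← h2n]; push_cast; ring
    exact_mod_cast this
  have ht := tight2_two p
  have ht0 : 0 < ‖(2 : ℚ_[p])‖ := by linarith
  have hq2 : ‖(q : ℚ_[p])‖ = ‖(2 : ℚ_[p])‖ * ‖(n : ℚ_[p])‖ := by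
    rw [hqn]; push_cast; rw [norm_neg, norm_mul]
  have hqM : ‖(q : ℚ_[p])‖ ≤ ‖(2 : ℚ_[p])‖ * (C * ‖(D : ℚ_[p])‖) := by
    rw [hqP, sub_eq_add_neg]
    refine (Padic.nonarchimedean _ _).trans (max_le ?_ ?_)
    · rw [norm_mul, norm_div, norm_pow, he]
      refine (mul_le_of_le_one_right (by positivity) (pow_le_one₀ (norm_nonneg _) h0)).trans ?_
      rw [div_le_iff₀ ht0]
      have a1 : 1 ≤ 4 * (‖(2 : ℚ_[p])‖ * ‖(2 : ℚ_[p])‖) := by nlinarith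
      have a2 : 1 ≤ C * (‖(2 : ℚ_[p])‖ * ‖(2 : ℚ_[p])‖) :=
        a1.trans (mul_le_mul_of_nonneg_right hC (by positivity))
      calc ‖(D : ℚ_[p])‖ ≤ ‖(D : ℚ_[p])‖ * (C * (‖(2 : ℚ_[p])‖ * ‖(2 : ℚ_[p])‖)) :=
            le_mul_of_one_le_right (norm_nonneg _) a2
        _ = _ := by ring
    · rw [norm_neg, norm_mul, norm_pow, he]
      exact mul_le_mul_of_nonneg_left h1'' ht0.le
  refine ⟨n, hn0, ?_, ?_, _, hId, ?_⟩
  · have a1 : Real.sqrt (-(D : ℝ)) * nsq g.1 w ≤ Real.sqrt (-(D : ℝ)) * C :=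
      mul_le_mul_of_nonneg_left hn hσ.le
    have a2 : (0 : ℝ) ≤ n := Nat.cast_nonneg n
    linarith
  · rw [hq2] at hqM
    exact le_of_mul_le_mul_left hqM ht0
  · rw [jL_pr_mul hΛ.isLat, (latG_spec p g).2]
    refine div_ne_zero ((map_ne_zero _).2 hne) ?_
    exact_mod_cast hΛ.nm_pos.ne'

/-- Lower bound for the vectors of the lattice of `a^r x` at a good point. -/
theorem tight2_low {D : ℤ} {x : XX p} {e : ℚ_[p]} (hF : Frame p D x e) (hCl : piX p x ∈ Cl D)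
    {r : ℕ} {C : ℝ} (hC : 4 ≤ C) (hDr : 1 ≤ C * (‖(D : ℚ_[p])‖ * ((p : ℝ) ^ (2 * r)) ^ 2))
    (hB : ¬ Bad1 p C D (piX p x)) {h : GG p} (hK : h.2 ∈ Kp p)
    (hh : (h : XX p) = aP p r • x) {z : Fin 2 → ℤ} (hz : IsCoprime (z 0) (z 1)) :
    C < (p : ℝ) ^ (2 * r) * nsq h.1 (fun i => z i) := by
  have hp : (2 : ℝ) ≤ p := tight_two_le p
  have hpP : (p : ℚ_[p]) ≠ 0 := by exact_mod_cast (Fact.out : p.Prime).ne_zero
  have hpQ : (p : ℚ) ≠ 0 := by exact_mod_cast (Fact.out : p.Prime).ne_zero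
  obtain ⟨g, Θ, rfl, hg, h1, h2, he⟩ := hF
  have hh' : ((aP p r * uP p 0 * g : GG p) : XX p) = h := by
    rw [hh, uP_zero, mul_one]; rfl
  have hz0 : (fun i => (z i : ℚ)) ≠ 0 := by
    intro h0
    have a0 : z 0 = 0 := by simpa using congrFun h0 0
    have a1 : z 1 = 0 := by simpa using congrFun h0 1
    rw [a0, a1] at hz
    exact not_isCoprime_zero_zero hz
  obtain ⟨v, hv0, hv, hR, hP⟩ := tight_transfer p hh' hz0 fun i => inZp_int p (z i)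
  rw [tight_ent1] at hR
  have hP0 := hP 0
  have hP1 := hP 1
  rw [tight_ent20, zero_mul, add_zero] at hP0
  rw [tight_ent21] at hP1
  have hb : ∀ i, ‖h.2 i 0 * ((z 0 : ℚ) : ℚ_[p]) + h.2 i 1 * ((z 1 : ℚ) : ℚ_[p])‖ ≤ 1 := fun i =>
    tight_lin p (hK i 0) (hK i 1) (by simpa using Padic.norm_int_le_one (p := p) (z 0))
      (by simpa using Padic.norm_int_le_one (p := p) (z 1))
  have hb0 : ‖(p : ℚ_[p]) ^ r * (g.2 0 0 * v 0 + g.2 0 1 * v 1)‖ ≤ 1 := by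
    rw [hP0]; exact hb 0
  have hb1 : ‖g.2 1 0 * v 0 + g.2 1 1 * v 1‖ * (p : ℝ) ^ r ≤ 1 := by
    have := hb 1
    rw [← hP1, norm_mul, norm_inv, norm_pow, Padic.norm_p, inv_pow, inv_inv, mul_comm] at this
    exact this
  have hn : nsq g.1 v = nsq h.1 (fun i => z i) := by
    rw [nsq, nsq, hR 0, hR 1]
  have hr : (0 : ℝ) < (p : ℝ) ^ r := by positivity
  have hr1 : (1 : ℝ) ≤ (p : ℝ) ^ (2 * r) := one_le_pow₀ (by linarith)
  have hpr : InZp p ((p : ℚ) ^ r) := by simpa using inZp_int p ((p : ℤ) ^ r)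
  by_contra hc
  have hc' : (p : ℝ) ^ (2 * r) * nsq h.1 (fun i => z i) ≤ C := not_lt.1 hc
  have e0 : ∀ i, g.2 i 0 * (((p : ℚ) ^ r * v 0 : ℚ) : ℚ_[p]) +
      g.2 i 1 * (((p : ℚ) ^ r * v 1 : ℚ) : ℚ_[p]) =
      (p : ℚ_[p]) ^ r * (g.2 i 0 * v 0 + g.2 i 1 * v 1) := by
    intro i; push_cast; ring
  have e1 : ‖(p : ℚ_[p]) ^ r * (g.2 1 0 * v 0 + g.2 1 1 * v 1)‖ * (p : ℝ) ^ (2 * r) ≤ 1 := by
    rw [norm_mul, norm_pow, Padic.norm_p, inv_pow]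
    refine le_trans (le_of_eq ?_) hb1
    field_simp; ring
  refine hB (tight2_bad p hg hCl h1 h2 he (w := fun i => (p : ℚ) ^ r * v i) ?_
    (fun i => hpr.mul (hv i)) hC ?_ ?_ ?_ ?_)
  · intro h0
    apply hv0
    ext i
    simpa [hpQ] using congrFun h0 i
  · rw [e0]; exact hb0
  · rw [e0]
    exact (le_mul_of_one_le_right (norm_nonneg _) hr1).trans e1
  · rw [e0]
    have a1 : (‖(p : ℚ_[p]) ^ r * (g.2 1 0 * v 0 + g.2 1 1 * v 1)‖ * (p : ℝ) ^ (2 * r)) ^ 2 ≤ 1 :=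
      pow_le_one₀ (by positivity) e1
    have a2 := a1.trans hDr
    rw [mul_pow, ← mul_assoc] at a2
    exact le_of_mul_le_mul_right a2 (by positivity)
  · refine le_trans (le_of_eq ?_) hc'
    rw [← hn, nsq, nsq]; push_cast; ring

theorem tight2_even {x : XX p} (j m : ℕ) {δ : ℝ} (hδ : 0 < δ)
    (hlow : ∀ (h : GG p) (z : Fin 2 → ℤ), h.2 ∈ Kp p → (h : XX p) = aP p (j + m) • x →
      IsCoprime (z 0) (z 1) → 1 ≤ δ ^ 2 * (p : ℝ) ^ (2 * m) * nsq h.1 (fun i => z i)) :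
    bm p ((2 * (j + m) : ℕ) : ℤ) {t | Short p δ (aP p j • uP p t • x)} ≤
      ENNReal.ofReal (9 * p * δ ^ 2) := by
  have hp : (2 : ℝ) ≤ p := tight_two_le p
  have hp0 : (0 : ℝ) < p := by linarith
  obtain ⟨h, hK, hh⟩ := exists_rep p (aP p (j + m) • x)
  obtain ⟨N, hN1, hN2⟩ := tight_range hp (B := δ ^ 2 * (p : ℝ) ^ (2 * m)) (by positivity)
  choose T hT1 hT2 using fun c : ℕ =>
    card_prim h.1 (R := δ * (p : ℝ) ^ m / (p : ℝ) ^ c) (by positivity)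
  set E : ℕ → (Fin 2 → ℤ) → Set ℚ_[p] := fun c z =>
    {t | ‖t‖ ≤ (p : ℝ) ^ (2 * (j + m)) ∧ ‖(h.2 0 0 * z 0 + h.2 0 1 * z 1) +
      t * (p : ℚ_[p]) ^ (2 * (j + m)) * (h.2 1 0 * z 0 + h.2 1 1 * z 1)‖ ≤
        (p : ℝ) ^ ((c : ℤ) - 2 * m)} with hE
  classical
  have hsub : {t | Short p δ (aP p j • uP p t • x)} ≤ᵐ[bm p ((2 * (j + m) : ℕ) : ℤ)]
      (⋃ c ∈ Finset.range N, ⋃ z ∈ (T c).filter (fun z => IsCoprime (z 0) (z 1)), E c z :
        Set ℚ_[p]) := by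
    filter_upwards [bm_ae p ((2 * (j + m) : ℕ) : ℤ)] with t ht hs
    rw [zpow_natCast] at ht
    obtain ⟨z, c, hz, h1, h2⟩ := tight_cover p j m hK hh ht hs
    have h3 := hlow h z hK hh hz
    have hc : c < N := by
      refine hN1 c (pow_le_pow_iff_left₀ (n := 2) (by positivity) (by positivity) two_ne_zero |>.1
        ?_)
      rw [← pow_mul, mul_comm c 2]
      calc (p : ℝ) ^ (2 * c)
          ≤ (p : ℝ) ^ (2 * c) * (δ ^ 2 * (p : ℝ) ^ (2 * m) * nsq h.1 (fun i => z i)) :=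
            le_mul_of_one_le_right (by positivity) h3
        _ = (δ ^ 2 * (p : ℝ) ^ (2 * m)) * ((p : ℝ) ^ (2 * c) * nsq h.1 (fun i => z i)) := by ring
        _ ≤ (δ ^ 2 * (p : ℝ) ^ (2 * m)) * (δ ^ 2 * (p : ℝ) ^ (2 * m)) :=
            mul_le_mul_of_nonneg_left h1.le (by positivity)
        _ = _ := by ring
    have hzT : z ∈ T c := by
      refine hT2 c z hz ?_
      rw [div_pow, lt_div_iff₀ (by positivity), mul_pow, ← pow_mul, ← pow_mul, mul_comm c 2,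
        mul_comm m 2, mul_comm]
      exact h1
    exact Set.mem_biUnion (Finset.mem_range.2 hc)
      (Set.mem_biUnion (Finset.mem_filter.2 ⟨hzT, hz⟩) ⟨ht, h2⟩)
  have hone : ∀ c : ℕ, bm p ((2 * (j + m) : ℕ) : ℤ)
      (⋃ z ∈ (T c).filter (fun z => IsCoprime (z 0) (z 1)), E c z) ≤
      ENNReal.ofReal (7 * δ ^ 2 * ((p : ℝ) ^ c)⁻¹ + 2 * ((p : ℝ) ^ (2 * m))⁻¹ * (p : ℝ) ^ c) := by
    intro c
    refine (measure_biUnion_finset_le _ _).trans ?_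
    refine (Finset.sum_le_card_nsmul _ _ (ENNReal.ofReal ((p : ℝ) ^ ((c : ℤ) - 2 * m)))
      fun z hz => tight_meas p hK (Finset.mem_filter.1 hz).2 _ _).trans ?_
    rw [nsmul_eq_mul, ← ENNReal.ofReal_natCast, ← ENNReal.ofReal_mul (by positivity)]
    refine ENNReal.ofReal_le_ofReal ?_
    have h1 : (((T c).filter (fun z => IsCoprime (z 0) (z 1))).card : ℝ) ≤
        7 * (δ * (p : ℝ) ^ m / (p : ℝ) ^ c) ^ 2 + 2 :=
      le_trans (by exact_mod_cast Finset.card_filter_le _ _) (hT1 c)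
    refine (mul_le_mul_of_nonneg_right h1 (by positivity)).trans (le_of_eq ?_)
    have h2 : (p : ℝ) ^ ((c : ℤ) - 2 * m) = (p : ℝ) ^ c / (p : ℝ) ^ (2 * m) := by
      rw [zpow_sub₀ hp0.ne', zpow_natCast]; congr 1
    rw [h2]; field_simp; ring
  refine (measure_mono_ae hsub).trans ((measure_biUnion_finset_le _ _).trans ?_)
  refine (Finset.sum_le_sum fun c _ => hone c).trans ?_
  rw [← ENNReal.ofReal_sum_of_nonneg fun c _ => by positivity]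
  refine ENNReal.ofReal_le_ofReal ?_
  rw [Finset.sum_add_distrib, ← Finset.mul_sum, ← Finset.mul_sum]
  have h1 : ∑ c ∈ Finset.range N, ((p : ℝ) ^ c)⁻¹ ≤ 2 :=
    (tight_geo1 hp N).trans (sub_le_self _ (by positivity))
  have h2 : 2 * ((p : ℝ) ^ (2 * m))⁻¹ * ∑ c ∈ Finset.range N, (p : ℝ) ^ c ≤ 2 * p * δ ^ 2 := by
    refine (mul_le_mul_of_nonneg_left hN2 (by positivity)).trans (le_of_eq ?_)
    field_simp
  have h3 : 7 * δ ^ 2 * ∑ c ∈ Finset.range N, ((p : ℝ) ^ c)⁻¹ ≤ 7 * δ ^ 2 * 2 :=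
    mul_le_mul_of_nonneg_left h1 (by positivity)
  nlinarith [sq_nonneg δ]

theorem tight_frame2 {ε : ℝ≥0∞} (hε : 0 < ε) : ∃ Ω : Set (XX p), IsCompact Ω ∧ ∀ j c : ℕ,
    ∃ C : ℕ, ∀ (D : ℤ) (x : XX p) (e d : ℚ_[p]) (r : ℤ), Frame p D x e → piX p x ∈ Cl D →
      ‖(D : ℚ_[p])‖ * (‖d‖ * (p : ℝ) ^ r) ^ 2 ≤ 1 →
      1 ≤ (p : ℝ) ^ c * (‖(D : ℚ_[p])‖ * (‖d‖ * (p : ℝ) ^ r) ^ 2) →
      (C : ℝ) ≤ ‖d‖ * (p : ℝ) ^ r → ¬ Bad1 p C D (piX p x) →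
      bm p r {s | aP p j • uP p (d * s) • x ∉ Ω} ≤ ε := by
  have hp : (2 : ℝ) ≤ p := tight_two_le p
  have hp0 : (0 : ℝ) < p := by linarith
  have hp1 : (1 : ℝ) < p := by linarith
  obtain ⟨δ, hδ, hδ1, hδε⟩ : ∃ δ : ℝ, 0 < δ ∧ δ ≤ 1 ∧ ENNReal.ofReal (p * (9 * p * δ ^ 2)) ≤ ε := by
    obtain ⟨η, -, hη0, hη⟩ := ENNReal.lt_iff_exists_real_btwn.1 hε
    have hη1 : 0 < η := ENNReal.ofReal_pos.1 hη0
    refine ⟨min 1 (η / (9 * p ^ 2)), by positivity, min_le_left _ _,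
      (ENNReal.ofReal_le_ofReal ?_).trans hη.le⟩
    have h1 : min 1 (η / (9 * (p : ℝ) ^ 2)) ^ 2 ≤ 1 * (η / (9 * p ^ 2)) := by
      rw [sq]
      exact mul_le_mul (min_le_left _ _) (min_le_right _ _) (by positivity) one_pos.le
    rw [one_mul, le_div_iff₀ (by positivity)] at h1
    linarith
  obtain ⟨Ω, hΩ, hΩ'⟩ := exists_compact_notShort p hδ
  refine ⟨Ω, hΩ, fun j c => ⟨⌈4 + (p : ℝ) ^ c + (p : ℝ) ^ (2 * j) / δ ^ 2⌉₊,
    fun D x e d r hF hCl _ h1 h2 hB => ?_⟩⟩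
  have hC0 := Nat.le_ceil (4 + (p : ℝ) ^ c + (p : ℝ) ^ (2 * j) / δ ^ 2)
  generalize ((⌈4 + (p : ℝ) ^ c + (p : ℝ) ^ (2 * j) / δ ^ 2⌉₊ : ℕ) : ℝ) = C at hC0 h2 hB
  have hq1 : (0 : ℝ) < (p : ℝ) ^ c := by positivity
  have hq2 : (0 : ℝ) < (p : ℝ) ^ (2 * j) / δ ^ 2 := by positivity
  have hq3 : (p : ℝ) ^ (2 * j) ≤ (p : ℝ) ^ (2 * j) / δ ^ 2 :=
    le_div_self (by positivity) (by positivity) (pow_le_one₀ hδ.le hδ1)
  have hd : d ≠ 0 := by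
    rintro rfl
    simp only [norm_zero, zero_mul] at h2
    linarith
  obtain ⟨v, hv⟩ := exists_norm_eq p hd
  have hT : ‖d‖ * (p : ℝ) ^ r = (p : ℝ) ^ (r + v) := by rw [hv, zpow_add₀ hp0.ne', mul_comm]
  rw [hT] at h1 h2
  have hj : 2 * (j : ℤ) ≤ r + v := by
    have h4 : (p : ℝ) ^ (2 * j) ≤ (p : ℝ) ^ (r + v) := by linarith
    rw [← zpow_natCast, zpow_le_zpow_iff_right₀ hp1] at h4
    exact_mod_cast h4
  obtain ⟨m, hm1, hm2⟩ : ∃ m : ℕ, r + v ≤ ((2 * (j + m) : ℕ) : ℤ) ∧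
      ((2 * (j + m) : ℕ) : ℤ) ≤ r + v + 1 := ⟨((r + v + 1) / 2 - j).toNat, by omega, by omega⟩
  have hlo : (p : ℝ) ^ (r + v) ≤ (p : ℝ) ^ (2 * (j + m)) := by
    rw [← zpow_natCast]; exact zpow_le_zpow_right₀ hp1.le hm1
  have key := tight2_even p (x := x) j m hδ ?_
  · have h5 : bm p r {s | aP p j • uP p (d * s) • x ∉ Ω} ≤
        bm p (r + v) {t | Short p δ (aP p j • uP p t • x)} := by
      rw [← bm_mul p r v hv]
      refine le_trans (measure_mono ?_) (Measure.le_map_apply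
        (continuous_const.mul continuous_id).measurable.aemeasurable _)
      intro s hs
      by_contra hc
      exact hs (hΩ' _ hc)
    refine h5.trans ((bm_le p hm1 _).trans (le_trans ?_ hδε))
    rw [ENNReal.ofReal_mul hp0.le]
    refine mul_le_mul' (ENNReal.ofReal_le_ofReal ?_) key
    calc _ ≤ (p : ℝ) ^ (1 : ℤ) := zpow_le_zpow_right₀ hp1.le (by omega)
      _ = p := zpow_one _
  · intro h z hK hh hz
    have hDr : 1 ≤ C * (‖(D : ℚ_[p])‖ * ((p : ℝ) ^ (2 * (j + m))) ^ 2) := by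
      refine h1.trans ?_
      have a1 : (p : ℝ) ^ c ≤ C := by linarith
      have a2 : (0 : ℝ) ≤ C := by linarith
      gcongr
    have h3 := tight2_low p hF hCl (by linarith) hDr hB hK hh hz
    have h4 : (p : ℝ) ^ (2 * j) / δ ^ 2 ≤ (p : ℝ) ^ (2 * (j + m)) * nsq h.1 (fun i => z i) := by
      linarith
    rw [div_le_iff₀ (by positivity)] at h4
    have h5 : (p : ℝ) ^ (2 * j) * 1 ≤
        (p : ℝ) ^ (2 * j) * (δ ^ 2 * (p : ℝ) ^ (2 * m) * nsq h.1 (fun i => z i)) := by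
      rw [mul_one]
      refine h4.trans (le_of_eq ?_)
      ring
    exact le_of_mul_le_mul_left h5 (by positivity)

end Pool.Agent.EQ
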