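import Pool.Agent.P.MP_ad7a55_nt.Lat2

/-! Imaginary quadratic orders and their invertible modules. -/

set_option autoImplicit false

noncomputable section

open MeasureTheory Topology Filter UpperHalfPlane
open scoped MatrixGroups ENNReal BoundedContinuousFunction

namespace Pool.Agent.EQ

/-- `√D` for negative `D`. -/
def th (D : ℤ) : ℂ := Complex.I * (Real.sqrt (-(D : ℝ)) : ℝ)

/-- The order of discriminant `D`. -/
def OD (D : ℤ) : Lt := sp 1 ((D + th D) / 2)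

/-- `D` is a negative discriminant. -/
def IsD (D : ℤ) : Prop := D < 0 ∧ (D % 4 = 0 ∨ D % 4 = 1)

/-- `Λ` is a lattice with complex multiplication of discriminant `D`. -/
def DiscL (Λ : Lt) (D : ℤ) : Prop := ∃ (c : ℂ) (τ : ℍ), c ≠ 0 ∧ Λ = sp c (c * τ) ∧ HasDisc τ D

/-- The complex conjugate subgroup. -/
def cj (Λ : Lt) : Lt := Λ.map (starRingEnd ℂ).toAddMonoidHom.toIntLinearMap

theorem mem_cj {Λ : Lt} {v : ℂ} : v ∈ cj Λ ↔ starRingEnd ℂ v ∈ Λ := by
  constructor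
  · rintro ⟨w, hw, rfl⟩
    simpa using hw
  · intro h
    exact ⟨_, h, by simp⟩

theorem cj_cj (Λ : Lt) : cj (cj Λ) = Λ := by
  ext v
  rw [mem_cj, mem_cj, Complex.conj_conj]

theorem cj_mul (Λ Λ' : Lt) : cj (Λ * Λ') = cj Λ * cj Λ' := by
  apply le_antisymm
  · rw [cj, Submodule.map_le_iff_le_comap, Submodule.mul_le]
    intro m hm n hn
    rw [Submodule.mem_comap]
    change starRingEnd ℂ (m * n) ∈ _
    rw [map_mul]
    exact Submodule.mul_mem_mul (mem_cj.2 (by simpa using hm)) (mem_cj.2 (by simpa using hn))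
  · rw [Submodule.mul_le]
    intro m hm n hn
    rw [mem_cj, map_mul]
    exact Submodule.mul_mem_mul (mem_cj.1 hm) (mem_cj.1 hn)

theorem cj_pr (c : ℂ) : cj (pr c) = pr (starRingEnd ℂ c) := by
  rw [cj, pr, Submodule.map_span, Set.image_singleton]
  rfl

theorem cj_sp (a b : ℂ) : cj (sp a b) = sp (starRingEnd ℂ a) (starRingEnd ℂ b) := by
  rw [cj, sp, Submodule.map_span, Set.image_pair]
  rfl

theorem th_sq {D : ℤ} (hD : D ≤ 0) : th D ^ 2 = D := by
  have h : (0 : ℝ) ≤ -(D : ℝ) := by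
    have : (D : ℝ) ≤ 0 := by exact_mod_cast hD
    linarith
  rw [th, mul_pow, Complex.I_sq, ← Complex.ofReal_pow, Real.sq_sqrt h]
  simp

theorem conj_th (D : ℤ) : starRingEnd ℂ (th D) = -th D := by
  rw [th, map_mul, Complex.conj_I, Complex.conj_ofReal, neg_mul]

theorem th_mul_sq (f : ℕ) (D : ℤ) : th (f ^ 2 * D) = f * th D := by
  have h : -(((f : ℤ) ^ 2 * D : ℤ) : ℝ) = (f : ℝ) ^ 2 * -(D : ℝ) := by
    push_cast
    ring
  rw [th, th, h, Real.sqrt_mul (sq_nonneg _), Real.sqrt_sq (Nat.cast_nonneg f)]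
  push_cast
  ring

theorem ord_parts {τ : ℍ} {a b c : ℤ} (h : (a : ℂ) * (τ : ℂ) ^ 2 + b * τ + c = 0) :
    2 * (a : ℝ) * τ.re + b = 0 ∧ -((b ^ 2 - 4 * a * c : ℤ) : ℝ) = (2 * a * τ.im) ^ 2 := by
  have h1 := congrArg Complex.im h
  have h2 := congrArg Complex.re h
  simp [pow_two] at h1 h2
  have h3 : 2 * (a : ℝ) * τ.re + b = 0 := by
    have : (2 * (a : ℝ) * τ.re + b) * τ.im = 0 := by linarith
    exact (mul_eq_zero.1 this).resolve_right τ.im_pos.ne'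
  refine ⟨h3, ?_⟩
  push_cast
  linear_combination (4 * (a : ℝ)) * h2 - (2 * (a : ℝ) * τ.re + b) * h3

theorem HasDisc.isD {τ : ℍ} {D : ℤ} (h : HasDisc τ D) : IsD D := by
  obtain ⟨a, b, c, ha, -, h, rfl⟩ := h
  constructor
  · have h1 := (ord_parts h).2
    have h2 : (0 : ℝ) < (2 * a * τ.im) ^ 2 := by
      have : (0 : ℝ) < a := by exact_mod_cast ha
      have := τ.im_pos
      positivity
    have h3 : ((b ^ 2 - 4 * a * c : ℤ) : ℝ) < 0 := by linarith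
    exact_mod_cast h3
  · rcases Int.even_or_odd' b with ⟨k, rfl | rfl⟩
    · left
      have : (2 * k) ^ 2 - 4 * a * c = 4 * (k ^ 2 - a * c) := by ring
      rw [this]
      omega
    · right
      have : (2 * k + 1) ^ 2 - 4 * a * c = 4 * (k ^ 2 + k - a * c) + 1 := by ring
      rw [this]
      omega

/-- The formula for the root. -/
theorem HasDisc.root {τ : ℍ} {a b c : ℤ} (ha : 0 < a)
    (h : (a : ℂ) * (τ : ℂ) ^ 2 + b * τ + c = 0) : 2 * a * (τ : ℂ) + b = th (b ^ 2 - 4 * a * c) := by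
  obtain ⟨h1, h2⟩ := ord_parts h
  have h3 : (0 : ℝ) ≤ 2 * a * τ.im := by
    have : (0 : ℝ) < a := by exact_mod_cast ha
    have := τ.im_pos
    positivity
  rw [th, h2, Real.sqrt_sq h3]
  apply Complex.ext
  · simpa using h1
  · simp

theorem DiscL.isLat {Λ : Lt} {D : ℤ} (h : DiscL Λ D) : IsLat Λ := by
  obtain ⟨c, τ, hc, rfl, -⟩ := h
  exact isLat_sp hc τ

theorem DiscL.isD {Λ : Lt} {D : ℤ} (h : DiscL Λ D) : IsD D := by
  obtain ⟨c, τ, -, -, h⟩ := h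
  exact h.isD

theorem discL_one {τ : ℍ} {D : ℤ} (h : HasDisc τ D) : DiscL (sp 1 τ) D :=
  ⟨1, τ, one_ne_zero, by rw [one_mul], h⟩

theorem DiscL.pr_mul {Λ : Lt} {D : ℤ} (h : DiscL Λ D) {c : ℂ} (hc : c ≠ 0) :
    DiscL (pr c * Λ) D := by
  obtain ⟨c', τ, hc', rfl, h⟩ := h
  exact ⟨c * c', τ, mul_ne_zero hc hc', by rw [pr_mul_sp, mul_assoc], h⟩

theorem ord_left (a b : ℂ) : a ∈ sp a b := mem_sp.2 ⟨1, 0, by simp⟩

theorem ord_right (a b : ℂ) : b ∈ sp a b := mem_sp.2 ⟨0, 1, by simp⟩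

theorem ord_sp_le {a b : ℂ} {Λ : Lt} : sp a b ≤ Λ ↔ a ∈ Λ ∧ b ∈ Λ := by
  rw [sp, Submodule.span_le, Set.insert_subset_iff, Set.singleton_subset_iff]
  rfl

theorem ord_sp_neg (a b : ℂ) : sp a (-b) = sp a b := by
  apply le_antisymm
  · exact ord_sp_le.2 ⟨ord_left _ _, neg_mem (ord_right _ _)⟩
  · exact ord_sp_le.2 ⟨ord_left _ _, by simpa using neg_mem (ord_right a (-b))⟩

theorem ord_sp_add (a b : ℂ) (k : ℤ) : sp a (b + k * a) = sp a b := by
  apply le_antisymm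
  · exact ord_sp_le.2 ⟨ord_left _ _, mem_sp.2 ⟨k, 1, by push_cast; ring⟩⟩
  · exact ord_sp_le.2 ⟨ord_left _ _, mem_sp.2 ⟨-k, 1, by push_cast; ring⟩⟩

theorem ord_indep (τ : ℍ) {m n : ℤ} (h : (m : ℂ) + n * τ = 0) : m = 0 ∧ n = 0 := by
  have h1 := congrArg Complex.im h
  simp at h1
  have hn : n = 0 := h1.resolve_right τ.im_pos.ne'
  subst hn
  simpa using h

theorem ord_OD_eq {τ : ℍ} {a b c : ℤ} (ha : 0 < a)
    (h : (a : ℂ) * (τ : ℂ) ^ 2 + b * τ + c = 0) : OD (b ^ 2 - 4 * a * c) = sp 1 (a * τ) := by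
  have h1 := HasDisc.root ha h
  obtain ⟨k, hk⟩ : ∃ k : ℤ, b ^ 2 - 4 * a * c + b = 2 * k := by
    obtain ⟨l, hl⟩ := Int.even_mul_succ_self b
    exact ⟨l - 2 * a * c, by linear_combination hl⟩
  have hk' : ((b ^ 2 - 4 * a * c : ℤ) : ℂ) + b = 2 * k := by exact_mod_cast hk
  rw [OD, ← h1, ← ord_sp_add 1 (a * τ) k]
  congr 1
  linear_combination (1 / 2 : ℂ) * hk'

theorem ord_bezout {a b c : ℤ} (h : Int.gcd (Int.gcd a b) c = 1) :
    ∃ u v w : ℤ, u * a + v * b + w * c = 1 := by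
  have h1 := Int.gcd_eq_gcd_ab a b
  have h2 := Int.gcd_eq_gcd_ab (Int.gcd a b) c
  rw [h] at h2
  refine ⟨Int.gcdA a b * Int.gcdA (Int.gcd a b) c, Int.gcdB a b * Int.gcdA (Int.gcd a b) c,
    Int.gcdB (Int.gcd a b) c, ?_⟩
  push_cast at h2
  linear_combination (-1 : ℤ) * h2 - Int.gcdA (Int.gcd a b) c * h1

theorem ord_conj {τ : ℍ} {a b c : ℤ} (ha : 0 < a)
    (h : (a : ℂ) * (τ : ℂ) ^ 2 + b * τ + c = 0) :
    (a : ℂ) * starRingEnd ℂ τ = -b - a * τ := by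
  have h1 := HasDisc.root ha h
  have h2 := congrArg (starRingEnd ℂ) h1
  rw [conj_th, ← h1] at h2
  simp only [map_add, map_mul, map_intCast, map_ofNat] at h2
  linear_combination (1 / 2 : ℂ) * h2

theorem DiscL.cj {Λ : Lt} {D : ℤ} (h : DiscL Λ D) : DiscL (cj Λ) D := by
  obtain ⟨c', τ, hc', rfl, a, b, c, ha, hg, h, rfl⟩ := h
  refine ⟨starRingEnd ℂ c', ⟨-starRingEnd ℂ τ, by simpa using τ.im_pos⟩, by simpa using hc', ?_,
    a, -b, c, ha, by simpa using hg, ?_, by ring⟩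
  · rw [cj_sp, map_mul, ← ord_sp_neg]
    congr 1
    change _ = starRingEnd ℂ c' * -starRingEnd ℂ τ
    ring
  · have h2 := congrArg (starRingEnd ℂ) h
    simp only [map_add, map_mul, map_intCast, map_pow, map_zero] at h2
    change (a : ℂ) * (-starRingEnd ℂ τ) ^ 2 + ((-b : ℤ) : ℂ) * -starRingEnd ℂ τ + c = 0
    push_cast
    linear_combination h2

theorem one_mem_OD (D : ℤ) : (1 : ℂ) ∈ OD D := by
  exact ord_left _ _

theorem th_mem_OD (D : ℤ) : th D ∈ OD D := by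
  exact mem_sp.2 ⟨-D, 2, by push_cast; ring⟩

theorem cj_OD (D : ℤ) : cj (OD D) = OD D := by
  rw [OD, cj_sp, map_one, ← ord_sp_neg, ← ord_sp_add 1 _ D]
  congr 1
  simp only [map_div₀, map_add, map_intCast, map_ofNat, conj_th]
  ring

theorem discL_OD {D : ℤ} (hD : IsD D) : DiscL (OD D) D := by
  obtain ⟨h0, h4⟩ := hD
  obtain ⟨k, hk⟩ : ∃ k : ℤ, D ^ 2 - D = 4 * k := by
    rcases h4 with h4 | h4
    · obtain ⟨l, rfl⟩ : ∃ l, D = 4 * l := ⟨D / 4, by omega⟩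
      exact ⟨4 * l ^ 2 - l, by ring⟩
    · obtain ⟨l, rfl⟩ : ∃ l, D = 4 * l + 1 := ⟨D / 4, by omega⟩
      exact ⟨4 * l ^ 2 + l, by ring⟩
  have hpos : 0 < (((D : ℂ) + th D) / 2).im := by
    have h1 : (0 : ℝ) < -(D : ℝ) := by
      have : (D : ℝ) < 0 := by exact_mod_cast h0
      linarith
    have h2 := Real.sqrt_pos.2 h1
    simpa [th] using h2
  refine ⟨1, ⟨_, hpos⟩, one_ne_zero, by rw [one_mul]; rfl, 1, -D, k, one_pos, by simp, ?_,
    by linear_combination (-1 : ℤ) * hk⟩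
  have hk' : (D : ℂ) ^ 2 - D = 4 * k := by exact_mod_cast hk
  have ht := th_sq h0.le
  change ((1 : ℤ) : ℂ) * (((D : ℂ) + th D) / 2) ^ 2 + ((-D : ℤ) : ℂ) * (((D : ℂ) + th D) / 2) + k = 0
  push_cast
  linear_combination (1 / 4 : ℂ) * ht - (1 / 4 : ℂ) * hk'

/-- The ring of multipliers. -/
theorem DiscL.end_iff {Λ : Lt} {D : ℤ} (h : DiscL Λ D) (x : ℂ) : pr x * Λ ≤ Λ ↔ x ∈ OD D := by
  obtain ⟨c', τ, hc', rfl, a, b, c, ha, hg, h, rfl⟩ := h
  rw [ord_OD_eq ha h, pr_mul_sp, ord_sp_le]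
  constructor
  · rintro ⟨h1, h2⟩
    obtain ⟨m, n, h1⟩ := mem_sp.1 h1
    obtain ⟨m', n', h2⟩ := mem_sp.1 h2
    have e1 : x = m + n * τ := mul_right_cancel₀ hc' (by linear_combination h1)
    have e2 : x * τ = m' + n' * τ := mul_right_cancel₀ hc' (by linear_combination h2)
    have e3 : ((a * m' + n * c : ℤ) : ℂ) + ((a * n' - a * m + n * b : ℤ) : ℂ) * τ = 0 := by
      push_cast
      linear_combination (-(a : ℂ)) * e2 + (a : ℂ) * τ * e1 + (n : ℂ) * h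
    obtain ⟨f1, f2⟩ := ord_indep τ e3
    obtain ⟨u, v, w, huv⟩ := ord_bezout hg
    have e4 : n = (u * n + v * (m - n') - w * m') * a := by
      linear_combination (-n) * huv + v * f2 + w * f1
    have e5 : (n : ℂ) = (u * n + v * (m - n') - w * m') * a := by exact_mod_cast e4
    refine mem_sp.2 ⟨m, u * n + v * (m - n') - w * m', ?_⟩
    push_cast
    linear_combination e1 + (τ : ℂ) * e5
  · intro hx
    obtain ⟨m, n, rfl⟩ := mem_sp.1 hx
    refine ⟨mem_sp.2 ⟨m, n * a, by push_cast; ring⟩, mem_sp.2 ⟨-(n * c), m - n * b, ?_⟩⟩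
    push_cast
    linear_combination (n : ℂ) * c' * h

theorem DiscL.OD_mul {Λ : Lt} {D : ℤ} (h : DiscL Λ D) : OD D * Λ = Λ := by
  apply le_antisymm
  · rw [Submodule.mul_le]
    intro m hm n hn
    exact pr_mul_le.1 ((h.end_iff m).2 hm) n hn
  · intro v hv
    simpa using Submodule.mul_mem_mul (one_mem_OD D) hv

/-- Invertibility. -/
theorem DiscL.mul_cj {Λ : Lt} {D : ℤ} (h : DiscL Λ D) :
    ∃ c : ℂ, c ≠ 0 ∧ Λ * Pool.Agent.EQ.cj Λ = pr c * OD D := by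
  obtain ⟨c', τ, hc', rfl, a, b, c, ha, hg, h, rfl⟩ := h
  have ha' : (a : ℂ) ≠ 0 := by exact_mod_cast ha.ne'
  have hc'' : starRingEnd ℂ c' ≠ 0 := by simpa using hc'
  have hj := ord_conj ha h
  obtain ⟨t, ht⟩ : ∃ t : ℂ, c' * starRingEnd ℂ c' = t * a := ⟨c' * starRingEnd ℂ c' / a, by field_simp⟩
  have ht0 : t ≠ 0 := by
    rintro rfl
    exact mul_ne_zero hc' hc'' (by simpa using ht)
  refine ⟨t, ht0, ?_⟩
  rw [ord_OD_eq ha h, pr_mul_sp, cj_sp, map_mul]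
  apply le_antisymm
  · rw [Submodule.mul_le]
    intro u hu v hv
    obtain ⟨m, n, rfl⟩ := mem_sp.1 hu
    obtain ⟨m', n', rfl⟩ := mem_sp.1 hv
    refine mem_sp.2 ⟨a * m * m' - b * m * n' + c * n * n', n * m' - m * n', ?_⟩
    push_cast
    linear_combination ((m : ℂ) + n * τ) * (m' + n' * starRingEnd ℂ τ) * ht +
      t * n' * ((m : ℂ) + n * τ) * hj - t * n * n' * h
  · have p1 := Submodule.mul_mem_mul (ord_left c' (c' * τ))
      (ord_left (starRingEnd ℂ c') (starRingEnd ℂ c' * starRingEnd ℂ τ))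
    have p2 := Submodule.mul_mem_mul (ord_right c' (c' * τ))
      (ord_left (starRingEnd ℂ c') (starRingEnd ℂ c' * starRingEnd ℂ τ))
    have p3 := Submodule.mul_mem_mul (ord_left c' (c' * τ))
      (ord_right (starRingEnd ℂ c') (starRingEnd ℂ c' * starRingEnd ℂ τ))
    have p4 := Submodule.mul_mem_mul (ord_right c' (c' * τ))
      (ord_right (starRingEnd ℂ c') (starRingEnd ℂ c' * starRingEnd ℂ τ))
    obtain ⟨u, v, w, huv⟩ := ord_bezout hg
    have huv' : (u : ℂ) * a + v * b + w * c = 1 := by exact_mod_cast huv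
    refine ord_sp_le.2 ⟨?_, ?_⟩
    · have := add_mem (sub_mem (Submodule.smul_mem _ u p1) (Submodule.smul_mem _ v (add_mem p2 p3)))
        (Submodule.smul_mem _ w p4)
      convert this using 1
      simp only [zsmul_eq_mul]
      linear_combination (-t) * huv' -
        ((u : ℂ) - v * (τ + starRingEnd ℂ τ) + w * τ * starRingEnd ℂ τ) * ht +
        t * ((v : ℂ) - w * τ) * hj + t * w * h
    · convert p2 using 1
      linear_combination (-(τ : ℂ)) * ht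

end Pool.Agent.EQ
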