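import Pool.Agent.P.MP_ad7a55_nt.Ord

/-! Imaginary quadratic orders and their invertible modules. -/

set_option autoImplicit false

noncomputable section

open MeasureTheory Topology Filter UpperHalfPlane
open scoped MatrixGroups ENNReal BoundedContinuousFunction

namespace Pool.Agent.EQ

theorem ord2_prim_pos {τ : ℍ} {n m k : ℤ} (hn : 0 < n)
    (h : (n : ℂ) * (τ : ℂ) ^ 2 + m * τ + k = 0) : ∃ D, HasDisc τ D := by
  obtain ⟨g, hg⟩ : ∃ g : ℕ, g = Int.gcd (Int.gcd n m) k := ⟨_, rfl⟩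
  have h1 : (g : ℤ) ∣ (Int.gcd n m : ℤ) := hg ▸ Int.gcd_dvd_left _ _
  obtain ⟨a, ha⟩ : (g : ℤ) ∣ n := h1.trans (Int.gcd_dvd_left _ _)
  obtain ⟨b, hb⟩ : (g : ℤ) ∣ m := h1.trans (Int.gcd_dvd_right _ _)
  obtain ⟨c, hc⟩ : (g : ℤ) ∣ k := hg ▸ Int.gcd_dvd_right _ _
  have hg0 : g ≠ 0 := by
    rintro rfl
    simp at ha
    omega
  have hgp : (0 : ℤ) < g := by exact_mod_cast Nat.pos_of_ne_zero hg0
  refine ⟨_, a, b, c, (mul_pos_iff_of_pos_left hgp).1 (ha ▸ hn), ?_, ?_, rfl⟩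
  · rw [ha, hb, hc, Int.gcd_mul_left, Nat.cast_mul, Int.natAbs_natCast, Int.gcd_mul_left,
      Int.natAbs_natCast] at hg
    exact (Nat.mul_eq_left hg0).1 hg.symm
  · have hg' : (g : ℂ) ≠ 0 := Nat.cast_ne_zero.2 hg0
    apply mul_left_cancel₀ hg'
    rw [ha, hb, hc] at h
    push_cast at h
    linear_combination h

theorem ord2_prim {τ : ℍ} {n m k : ℤ} (hn : n ≠ 0)
    (h : (n : ℂ) * (τ : ℂ) ^ 2 + m * τ + k = 0) : ∃ D, HasDisc τ D := by
  rcases lt_or_gt_of_ne hn with h1 | h1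
  · refine ord2_prim_pos (n := -n) (m := -m) (k := -k) (by omega) ?_
    push_cast
    linear_combination -h
  · exact ord2_prim_pos h1 h

theorem ord2_left_mem (a b : ℂ) : a ∈ sp a b := mem_sp.2 ⟨1, 0, by simp⟩

theorem ord2_right_mem (a b : ℂ) : b ∈ sp a b := mem_sp.2 ⟨0, 1, by simp⟩

theorem ord2_sp_le {a b : ℂ} {Λ : Lt} (ha : a ∈ Λ) (hb : b ∈ Λ) : sp a b ≤ Λ := by
  intro v hv
  obtain ⟨m, n, rfl⟩ := mem_sp.1 hv
  simpa [zsmul_eq_mul] using Λ.add_mem (Λ.smul_mem m ha) (Λ.smul_mem n hb)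

theorem ord2_hasDisc {c x : ℂ} {τ : ℍ} (hc : c ≠ 0) (hx : x.im ≠ 0)
    (h : pr x * sp c (c * τ) ≤ sp c (c * τ)) : ∃ D, HasDisc τ D := by
  rw [pr_mul_le] at h
  obtain ⟨m, n, h1⟩ := mem_sp.1 (h _ (ord2_left_mem _ _))
  obtain ⟨m', n', h2⟩ := mem_sp.1 (h _ (ord2_right_mem _ _))
  have e1 : x = m + n * τ := by
    apply mul_left_cancel₀ hc
    linear_combination h1
  have e2 : x * τ = m' + n' * τ := by
    apply mul_left_cancel₀ hc
    linear_combination h2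
  have hn : n ≠ 0 := by
    rintro rfl
    apply hx
    rw [e1]
    simp
  refine ord2_prim (m := m - n') (k := -m') hn ?_
  push_cast
  linear_combination e2 - τ * e1

theorem ord2_th_im (D : ℤ) : (th D).im = Real.sqrt (-(D : ℝ)) := by simp [th]

theorem ord2_th_re (D : ℤ) : (th D).re = 0 := by simp [th]

theorem ord2_th_im_ne {D : ℤ} (hD : D < 0) : (th D).im ≠ 0 := by
  rw [ord2_th_im]
  have : (D : ℝ) < 0 := by exact_mod_cast hD
  exact (Real.sqrt_pos.2 (by linarith)).ne'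

/-- Nonreal elements of an order are not small. -/
theorem abs_le_of_mem_OD {D : ℤ} (hD : D < 0) {x : ℂ} (hx : x ∈ OD D) (hx' : x.im ≠ 0) :
    -(D : ℝ) ≤ 4 * x.im ^ 2 := by
  obtain ⟨m, n, rfl⟩ := mem_sp.1 hx
  have hD' : (D : ℝ) < 0 := by exact_mod_cast hD
  have e : ((m : ℂ) * 1 + n * ((D + th D) / 2)).im = n * (Real.sqrt (-(D : ℝ)) / 2) := by
    simp [ord2_th_im]
  rw [e] at hx' ⊢
  have hn : n ≠ 0 := by
    rintro rfl
    simp at hx'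
  have hn' : (1 : ℝ) ≤ (n : ℝ) ^ 2 := by
    have : (1 : ℤ) ≤ n ^ 2 := by
      have := Int.one_le_abs hn
      nlinarith [sq_abs n]
    exact_mod_cast this
  have hs := Real.sq_sqrt (show 0 ≤ -(D : ℝ) by linarith)
  rw [mul_pow, div_pow, hs]
  nlinarith

theorem ord2_le_of_OD_le {D D' : ℤ} (hD : D < 0) (hD' : D' < 0) (h : OD D ≤ OD D') : D ≤ D' := by
  have hm : ((D + th D) / 2 : ℂ) ∈ OD D' := h (ord2_right_mem _ _)
  have hr : (D : ℝ) < 0 := by exact_mod_cast hD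
  have e : ((D + th D) / 2 : ℂ).im = Real.sqrt (-(D : ℝ)) / 2 := by simp [ord2_th_im]
  have := abs_le_of_mem_OD hD' hm (by
    rw [e]
    exact (div_pos (Real.sqrt_pos.2 (by linarith)) two_pos).ne')
  rw [e, div_pow, Real.sq_sqrt (by linarith)] at this
  have : (D : ℝ) ≤ D' := by linarith
  exact_mod_cast this

theorem OD_inj {D D' : ℤ} (hD : D < 0) (hD' : D' < 0) (h : OD D = OD D') : D = D' :=
  le_antisymm (ord2_le_of_OD_le hD hD' h.le) (ord2_le_of_OD_le hD' hD h.ge)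

theorem ord2_disc_eq {Λ : Lt} {D D' : ℤ} (h : DiscL Λ D) (hD' : D' < 0)
    (he : ∀ x, pr x * Λ ≤ Λ ↔ x ∈ OD D') : D = D' :=
  OD_inj h.isD.1 hD' (Submodule.ext fun x => (h.end_iff x).symm.trans (he x))

theorem HasDisc.smul {τ : ℍ} {D : ℤ} (h : HasDisc τ D) (γ : SL(2, ℤ)) : HasDisc (γ • τ) D := by
  have hc : (1 : ℂ) * ((γ 1 0 : ℂ) * τ + γ 1 1) ≠ 0 := by
    rw [one_mul]
    intro h0
    have h1 := congrArg Complex.im h0
    simp [τ.im_ne_zero] at h1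
    rw [h1] at h0
    simp at h0
    have := γ.det_coe
    rw [Matrix.det_fin_two, h1, h0] at this
    simp at this
  have e := sp_smul 1 γ τ
  have hL : DiscL (sp 1 (1 * τ)) D := ⟨1, τ, one_ne_zero, rfl, h⟩
  rw [← e] at hL
  obtain ⟨D', hD'⟩ := ord2_hasDisc hc (ord2_th_im_ne h.isD.1) ((hL.end_iff _).2 (th_mem_OD D))
  have : D' = D := ord2_disc_eq ⟨_, _, hc, rfl, hD'⟩ h.isD.1 hL.end_iff
  exact this ▸ hD'

theorem ord2_sp_add (x : ℂ) (n : ℤ) : sp 1 (x + n) = sp 1 x := by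
  apply le_antisymm
  · exact ord2_sp_le (ord2_left_mem _ _) (mem_sp.2 ⟨n, 1, by push_cast; ring⟩)
  · exact ord2_sp_le (ord2_left_mem _ _) (mem_sp.2 ⟨-n, 1, by push_cast; ring⟩)

theorem OD_sq_mul {D : ℤ} (hD : IsD D) (f : ℕ) :
    OD (f ^ 2 * D) = sp 1 (f * ((D + th D) / 2)) := by
  have _ := hD
  obtain ⟨k, hk⟩ := Int.even_mul_pred_self (f : ℤ)
  have hk' : (f : ℂ) * (f - 1) = k + k := by exact_mod_cast hk
  rw [← ord2_sp_add (f * ((D + th D) / 2)) (k * D), OD, th_mul_sq]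
  congr 1
  push_cast
  linear_combination (D / 2 : ℂ) * hk'

theorem OD_sq_le {D : ℤ} (hD : IsD D) (f : ℕ) : OD (f ^ 2 * D) ≤ OD D := by
  rw [OD_sq_mul hD]
  exact ord2_sp_le (one_mem_OD D) (mem_sp.2 ⟨0, f, by simp⟩)

theorem exists_discL {Λ : Lt} (h : IsLat Λ) {x : ℂ} (hx : x.im ≠ 0) (hx' : pr x * Λ ≤ Λ) :
    ∃ D, DiscL Λ D := by
  obtain ⟨c, τ, hc, rfl⟩ := h
  obtain ⟨D, hD⟩ := ord2_hasDisc hc hx hx'
  exact ⟨D, c, τ, hc, rfl, hD⟩

theorem ord2_pr_le {c : ℂ} {Λ : Lt} (h : c ∈ Λ) : pr c ≤ Λ :=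
  (Submodule.span_singleton_le_iff_mem _ _).2 h

theorem ord2_OD_mul {Λ : Lt} {D D' : ℤ} (h' : DiscL Λ D') (hle : OD D ≤ OD D') :
    OD D * Λ = Λ := by
  apply le_antisymm
  · exact (mul_le_mul_left hle Λ).trans h'.OD_mul.le
  · exact (pr_one_mul Λ).ge.trans (mul_le_mul_left (ord2_pr_le (one_mem_OD D)) Λ)

theorem ord2_isLat_mul {𝔞 Λ : Lt} {D D' : ℤ} (h : DiscL 𝔞 D) (h' : DiscL Λ D')
    (hle : OD D ≤ OD D') : IsLat (𝔞 * Λ) := by
  obtain ⟨c, τ, hc, rfl, hτ⟩ := h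
  have hτ' := hτ
  obtain ⟨a, b, k, ha, -, he, -⟩ := hτ'
  obtain ⟨N, rfl⟩ := Int.eq_ofNat_of_zero_le ha.le
  have hN : 0 < N := by exact_mod_cast ha
  push_cast at he
  have hm : (N : ℂ) * τ ∈ OD D := by
    rw [← (discL_one hτ).end_iff, pr_mul_sp]
    refine ord2_sp_le (mem_sp.2 ⟨0, N, by simp⟩) (mem_sp.2 ⟨-k, -b, ?_⟩)
    push_cast
    linear_combination he
  refine (h'.isLat.pr_mul hc).of_between hN ?_ ?_
  · refine le_trans ?_ (mul_le_mul_left (ord2_pr_le (ord2_left_mem c (c * τ))) Λ)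
    exact_mod_cast pr_int_le N (pr c * Λ)
  · have e : pr c * Λ = pr c * OD D * Λ := by rw [mul_assoc, ord2_OD_mul h' hle]
    rw [← mul_assoc, pr_mul_sp, e]
    apply mul_le_mul_left
    apply ord2_sp_le
    · refine mem_pr_mul.2 ⟨N, ?_, mul_comm _ _⟩
      simpa using (OD D).smul_mem (N : ℤ) (one_mem_OD D)
    · exact mem_pr_mul.2 ⟨N * τ, hm, by ring⟩

theorem DiscL.mul {𝔞 Λ : Lt} {D D' : ℤ} (h : DiscL 𝔞 D) (h' : DiscL Λ D') (hle : OD D ≤ OD D') :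
    DiscL (𝔞 * Λ) D' := by
  have he : ∀ x, pr x * (𝔞 * Λ) ≤ 𝔞 * Λ ↔ x ∈ OD D' := fun x => by
    rw [← h'.end_iff]
    constructor
    · intro hx
      obtain ⟨c, hc, e⟩ := h.mul_cj
      have e' : Pool.Agent.EQ.cj 𝔞 * (𝔞 * Λ) = pr c * Λ := by
        rw [← mul_assoc, mul_comm _ 𝔞, e, mul_assoc, ord2_OD_mul h' hle]
      have := mul_le_mul_right hx (Pool.Agent.EQ.cj 𝔞)
      rw [mul_left_comm, e', mul_left_comm] at this
      exact (pr_mul_le_iff hc).1 this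
    · intro hx
      rw [mul_left_comm]
      exact mul_le_mul_right hx 𝔞
  obtain ⟨D'', hD⟩ := exists_discL (ord2_isLat_mul h h' hle) (ord2_th_im_ne h'.isD.1)
    ((he _).2 (th_mem_OD D'))
  exact ord2_disc_eq hD h'.isD.1 he ▸ hD

theorem discL_of_inv {𝔞 𝔟 : Lt} {D : ℤ} (hD : IsD D) (h : IsLat 𝔞) (h1 : OD D * 𝔞 ≤ 𝔞)
    (h2 : 𝔞 * 𝔟 = OD D) : DiscL 𝔞 D := by
  have he : ∀ x, pr x * 𝔞 ≤ 𝔞 ↔ x ∈ OD D := fun x => by
    constructor
    · intro hx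
      have := mul_le_mul_left hx 𝔟
      rw [mul_assoc, h2, pr_mul_le] at this
      simpa using this 1 (one_mem_OD D)
    · intro hx
      exact (mul_le_mul_left (ord2_pr_le hx) 𝔞).trans h1
  obtain ⟨D', hD'⟩ := exists_discL h (ord2_th_im_ne hD.1) ((he _).2 (th_mem_OD D))
  exact ord2_disc_eq hD' hD.1 he ▸ hD'

theorem finite_disc (D : ℤ) : {z | ∃ Λ, DiscL Λ D ∧ jL Λ = z}.Finite := by
  refine (((Set.finite_Icc (-|D|) |D|).prod (Set.finite_Icc (-|D|) |D|)).image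
    (fun x : ℤ × ℤ => jInv (ofComplex ((th D - x.2) / (2 * x.1))))).subset ?_
  rintro z ⟨Λ, ⟨c, τ, hc, rfl, hτ⟩, rfl⟩
  obtain ⟨γ, hγ⟩ := ModularGroup.exists_smul_mem_fd τ
  rw [jL_sp hc, ← jInv_smul γ τ]
  have hD := hτ.isD.1
  obtain ⟨a, b, k, ha, -, he, hd⟩ := hτ.smul γ
  generalize γ • τ = σ at hγ he
  have hr := HasDisc.root ha he
  rw [← hd] at hr
  have ha' : (1 : ℝ) ≤ a := by exact_mod_cast ha
  have hD' : (D : ℝ) < 0 := by exact_mod_cast hD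
  have i1 : 2 * (a : ℝ) * σ.im = Real.sqrt (-(D : ℝ)) := by
    simpa [ord2_th_im] using congrArg Complex.im hr
  have i2 : 2 * (a : ℝ) * σ.re + b = 0 := by
    simpa [ord2_th_re] using congrArg Complex.re hr
  have i3 := ModularGroup.three_le_four_mul_im_sq_of_mem_fd hγ
  have i4 := abs_le.1 hγ.2
  have i5 : (2 * (a : ℝ) * σ.im) ^ 2 = -(D : ℝ) := by rw [i1, Real.sq_sqrt (by linarith)]
  have i6 : (a : ℝ) ≤ -D := by
    have := mul_le_mul_of_nonneg_left i3 (sq_nonneg (a : ℝ))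
    nlinarith
  have i7 : (b : ℝ) ≤ a := by nlinarith
  have i8 : -(a : ℝ) ≤ b := by nlinarith
  have j6 : a ≤ -D := by exact_mod_cast i6
  have j7 : b ≤ a := by exact_mod_cast i7
  have j8 : -a ≤ b := by exact_mod_cast i8
  refine ⟨(a, b), ?_, ?_⟩
  · rw [abs_of_neg hD]
    simp only [Set.mem_prod, Set.mem_Icc]
    omega
  · have ha0 : (a : ℂ) ≠ 0 := by exact_mod_cast ha.ne'
    have : (th D - b) / (2 * a) = (σ : ℂ) := by
      rw [← hr]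
      field_simp
      ring
    simp only [this, ofComplex_apply]

end Pool.Agent.EQ
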