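import Pool.Agent.P.MP_ad7a55_nt.Hom
import Pool.Agent.P.MP_ad7a55_nt.HaarB2

/-! Points almost fixed by a rational unipotent element. -/

set_option autoImplicit false

noncomputable section

open MeasureTheory Topology Filter UpperHalfPlane
open scoped MatrixGroups ENNReal BoundedContinuousFunction

namespace Pool.Agent.EQ

variable (p : ℕ) [Fact p.Prime]

/-- Points with a bounded nontrivial rational self-map that stays bounded along a ball. -/
def Sg (q : ℕ) (R : ℝ) (e : ℚ_[p]) (l : ℤ) : Set (XX p) :=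
  {x | ∃ P ∈ HomS p q 1 x x, P ≠ (1, 1) ∧ P ≠ (-1, -1) ∧ Bd R P.1 ∧
    ∀ s : ℚ_[p], ‖s‖ ≤ (p : ℝ) ^ l → Bd R (Pfl p e e s P.2)}

/-- A rational matrix read in the frame `g`. -/
def sing_cj {F : Type} [Field F] (g : SL(2, F)) (ξ : Matrix (Fin 2) (Fin 2) ℚ) :
    Matrix (Fin 2) (Fin 2) F :=
  (g : Matrix (Fin 2) (Fin 2) F) * ξ.map (↑) * ((g⁻¹ : SL(2, F)) : Matrix (Fin 2) (Fin 2) F)

theorem sing_inv_mul {F : Type} [Field F] (g : SL(2, F)) :
    ((g⁻¹ : SL(2, F)) : Matrix (Fin 2) (Fin 2) F) * (g : Matrix (Fin 2) (Fin 2) F) = 1 := by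
  rw [← Matrix.SpecialLinearGroup.coe_mul, inv_mul_cancel, Matrix.SpecialLinearGroup.coe_one]

theorem sing_mul_inv {F : Type} [Field F] (g : SL(2, F)) :
    (g : Matrix (Fin 2) (Fin 2) F) * ((g⁻¹ : SL(2, F)) : Matrix (Fin 2) (Fin 2) F) = 1 := by
  rw [← Matrix.SpecialLinearGroup.coe_mul, mul_inv_cancel, Matrix.SpecialLinearGroup.coe_one]

theorem sing_cj_iff {F : Type} [Field F] (g : SL(2, F)) (ξ : Matrix (Fin 2) (Fin 2) ℚ)
    (P : Matrix (Fin 2) (Fin 2) F) :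
    P * (g : Matrix (Fin 2) (Fin 2) F) = (g : Matrix (Fin 2) (Fin 2) F) * ξ.map (↑) ↔
      P = sing_cj g ξ := by
  constructor
  · intro h
    rw [sing_cj, ← h, Matrix.mul_assoc, sing_mul_inv, Matrix.mul_one]
  · rintro rfl
    rw [sing_cj, Matrix.mul_assoc, sing_inv_mul, Matrix.mul_one]

theorem sing_cj_scalar {F : Type} [Field F] [CharZero F] (g : SL(2, F))
    (ξ : Matrix (Fin 2) (Fin 2) ℚ) (c : ℚ) :
    sing_cj g ξ = (c : F) • (1 : Matrix (Fin 2) (Fin 2) F) ↔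
      ξ = c • (1 : Matrix (Fin 2) (Fin 2) ℚ) := by
  have hm : (c • (1 : Matrix (Fin 2) (Fin 2) ℚ)).map ((↑) : ℚ → F) =
      (c : F) • (1 : Matrix (Fin 2) (Fin 2) F) := by
    ext i j
    fin_cases i <;> fin_cases j <;> simp
  rw [eq_comm, ← sing_cj_iff]
  constructor
  · intro h
    rw [Matrix.smul_mul, Matrix.one_mul] at h
    have h2 : ξ.map ((↑) : ℚ → F) = (c : F) • (1 : Matrix (Fin 2) (Fin 2) F) := by
      have := congrArg (fun M => ((g⁻¹ : SL(2, F)) : Matrix (Fin 2) (Fin 2) F) * M) h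
      simp only [Matrix.mul_smul, ← Matrix.mul_assoc, sing_inv_mul, Matrix.one_mul] at this
      exact this.symm
    rw [← hm] at h2
    exact Matrix.map_injective Rat.cast_injective h2
  · rintro rfl
    rw [hm, Matrix.smul_mul, Matrix.mul_smul, Matrix.one_mul, Matrix.mul_one]

theorem sing_cj_one {F : Type} [Field F] [CharZero F] (g : SL(2, F))
    (ξ : Matrix (Fin 2) (Fin 2) ℚ) : sing_cj g ξ = 1 ↔ ξ = 1 := by
  simpa using sing_cj_scalar g ξ 1

theorem sing_cj_neg {F : Type} [Field F] [CharZero F] (g : SL(2, F))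
    (ξ : Matrix (Fin 2) (Fin 2) ℚ) : sing_cj g ξ = -1 ↔ ξ = -1 := by
  simpa using sing_cj_scalar g ξ (-1)

theorem sing_cj_mul {F : Type} [Field F] (h g : SL(2, F)) (ξ : Matrix (Fin 2) (Fin 2) ℚ) :
    sing_cj (h * g) ξ = (h : Matrix (Fin 2) (Fin 2) F) * sing_cj g ξ *
      ((h⁻¹ : SL(2, F)) : Matrix (Fin 2) (Fin 2) F) := by
  simp only [sing_cj, mul_inv_rev, Matrix.SpecialLinearGroup.coe_mul, Matrix.mul_assoc]

theorem sing_cj_det {F : Type} [Field F] [CharZero F] (g : SL(2, F))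
    {ξ : Matrix (Fin 2) (Fin 2) ℚ} (h : ξ.det = 1) : (sing_cj g ξ).det = 1 := by
  have h1 : (ξ.map ((↑) : ℚ → F)).det = 1 := by
    have := (Rat.castHom F).map_det ξ
    rw [h, map_one] at this
    exact this.symm
  rw [sing_cj, Matrix.det_mul, Matrix.det_mul, h1, Matrix.SpecialLinearGroup.det_coe,
    Matrix.SpecialLinearGroup.det_coe]
  simp

theorem sing_cj_cont {F : Type} [NormedField F] (ξ : Matrix (Fin 2) (Fin 2) ℚ) :
    Continuous fun g : SL(2, F) => sing_cj g ξ := by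
  have h : Continuous fun g : SL(2, F) => (g : Matrix (Fin 2) (Fin 2) F) := continuous_subtype_val
  exact (h.matrix_mul continuous_const).matrix_mul (h.comp continuous_inv)

theorem sing_Bd_closed {α F : Type} [NormedField F] [TopologicalSpace α] (R : ℝ)
    {f : α → Matrix (Fin 2) (Fin 2) F} (hf : Continuous f) : IsClosed {a | Bd R (f a)} := by
  simp only [Bd, Set.ofPred_forall]
  exact isClosed_iInter fun i => isClosed_iInter fun j =>
    isClosed_le (hf.matrix_elem i j).norm continuous_const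

/-- The admissible rational matrices. -/
def sing_A (q : ℕ) : Set (Matrix (Fin 2) (Fin 2) ℚ) :=
  {ξ | (∀ i j, InZp p (q * ξ i j)) ∧ ξ.det = 1 ∧ ξ ≠ 1 ∧ ξ ≠ -1}

/-- The frames in which `ξ` is bounded along the ball. -/
def sing_T (R : ℝ) (e : ℚ_[p]) (l : ℤ) (ξ : Matrix (Fin 2) (Fin 2) ℚ) : Set (GG p) :=
  {g | Bd R (sing_cj g.1 ξ) ∧ ∀ s : ℚ_[p], ‖s‖ ≤ (p : ℝ) ^ l → Bd R (Pfl p e e s (sing_cj g.2 ξ))}

theorem sing_mem_iff {q : ℕ} {R : ℝ} {e : ℚ_[p]} {l : ℤ} (g : GG p) :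
    (g : XX p) ∈ Sg p q R e l ↔ ∃ ξ ∈ sing_A p q, g ∈ sing_T p R e l ξ := by
  constructor
  · rintro ⟨P, hP, h1, h2, h3, h4⟩
    obtain ⟨ξ, hz, hd, hh1, hh2⟩ := HomS.rep hP rfl rfl
    rw [sing_cj_iff] at hh1 hh2
    refine ⟨ξ, ⟨hz, hd, ?_, ?_⟩, hh1 ▸ h3, hh2 ▸ h4⟩
    · rintro rfl
      exact h1 (Prod.ext (hh1.trans ((sing_cj_one _ _).2 rfl))
        (hh2.trans ((sing_cj_one _ _).2 rfl)))
    · rintro rfl
      exact h2 (Prod.ext (hh1.trans ((sing_cj_neg _ _).2 rfl))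
        (hh2.trans ((sing_cj_neg _ _).2 rfl)))
  · rintro ⟨ξ, ⟨hz, hd, h1, h2⟩, h3, h4⟩
    refine ⟨(sing_cj g.1 ξ, sing_cj g.2 ξ), ⟨g, g, rfl, rfl, ξ, hz, hd,
      (sing_cj_iff _ _ _).2 rfl, (sing_cj_iff _ _ _).2 rfl⟩, ?_, ?_, h3, h4⟩
    · intro h
      exact h1 ((sing_cj_one _ _).1 (congrArg Prod.fst h))
    · intro h
      exact h2 ((sing_cj_neg _ _).1 (congrArg Prod.fst h))

theorem sing_T_closed (R : ℝ) (e : ℚ_[p]) (l : ℤ) (ξ : Matrix (Fin 2) (Fin 2) ℚ) :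
    IsClosed (sing_T p R e l ξ) := by
  rw [sing_T, Set.ofPred_and]
  refine (sing_Bd_closed R ((sing_cj_cont ξ).comp continuous_fst)).inter ?_
  simp only [Set.ofPred_forall]
  refine isClosed_iInter fun s => isClosed_iInter fun _ => sing_Bd_closed R ?_
  exact (continuous_const.matrix_mul ((sing_cj_cont ξ).comp continuous_snd)).matrix_mul
    continuous_const

theorem sing_Pfl_zero (e : ℚ_[p]) (P : Matrix (Fin 2) (Fin 2) ℚ_[p]) : Pfl p e e 0 P = P := by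
  rw [Pfl_eq]
  ext i j
  fin_cases i <;> fin_cases j <;> simp

theorem sing_finite {q : ℕ} (hq : 0 < q) (R : ℝ) (e : ℚ_[p]) (l : ℤ) {C : Set (GG p)}
    (hC : IsCompact C) : {ξ | ξ ∈ sing_A p q ∧ (sing_T p R e l ξ ∩ C).Nonempty}.Finite := by
  refine (finite_hom hq R hC).subset ?_
  rintro ξ ⟨hξ, g, ⟨h1, h2⟩, hg⟩
  refine ⟨hξ.1, g, hg, g, hg, (sing_cj g.1 ξ, sing_cj g.2 ξ),
    ⟨(sing_cj_iff _ _ _).2 rfl, (sing_cj_iff _ _ _).2 rfl⟩, h1, ?_⟩
  have := h2 0 (by rw [norm_zero]; positivity)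
  rwa [sing_Pfl_zero] at this

theorem isClosed_Sg {q : ℕ} (hq : 0 < q) (R : ℝ) (e : ℚ_[p]) (l : ℤ) : IsClosed (Sg p q R e l) := by
  rw [← (QuotientGroup.isQuotientMap_mk (Gam p)).isClosed_preimage]
  have h : QuotientGroup.mk ⁻¹' Sg p q R e l = ⋃ ξ : sing_A p q, sing_T p R e l ξ := by
    ext g
    rw [Set.mem_preimage, sing_mem_iff, Set.mem_iUnion]
    exact ⟨fun ⟨ξ, h1, h2⟩ => ⟨⟨ξ, h1⟩, h2⟩, fun ⟨ξ, h2⟩ => ⟨ξ.1, ξ.2, h2⟩⟩
  rw [h]
  refine LocallyFinite.isClosed_iUnion (fun g => ?_) fun ξ => sing_T_closed p R e l ξ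
  obtain ⟨C, hC, hgC⟩ := exists_compact_mem_nhds g
  refine ⟨C, hgC, ?_⟩
  exact ((sing_finite p hq R e l hC).preimage Subtype.val_injective.injOn).subset
    fun ξ hξ => ⟨ξ.2, hξ⟩

theorem sing_T_anti (R : ℝ) (e : ℚ_[p]) {l l' : ℤ} (h : l ≤ l') (ξ : Matrix (Fin 2) (Fin 2) ℚ) :
    sing_T p R e l' ξ ⊆ sing_T p R e l ξ := by
  have hp : (1 : ℝ) ≤ p := by exact_mod_cast (Fact.out : p.Prime).one_lt.le
  exact fun g hg => ⟨hg.1, fun s hs => hg.2 s (hs.trans (zpow_le_zpow_right₀ hp h))⟩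

theorem sing_anti (q : ℕ) (R : ℝ) (e : ℚ_[p]) : Antitone fun l : ℕ => Sg p q R e l := by
  intro l l' h x hx
  obtain ⟨g, rfl⟩ := QuotientGroup.mk_surjective x
  obtain ⟨ξ, h1, h2⟩ := (sing_mem_iff p g).1 hx
  exact (sing_mem_iff p g).2 ⟨ξ, h1, sing_T_anti p R e (by exact_mod_cast h) ξ h2⟩

/-- A bounded affine function on `ℚ_p` is constant. -/
theorem sing_affine {a b : ℚ_[p]} {R : ℝ} (h : ∀ s : ℚ_[p], ‖a + b * s‖ ≤ R) : b = 0 := by
  by_contra hb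
  obtain ⟨y, hy⟩ := NormedField.exists_lt_norm ℚ_[p] R
  have := h ((y - a) / b)
  rw [mul_div_cancel₀ _ hb, add_sub_cancel] at this
  exact absurd hy this.not_gt

theorem sing_inter {q : ℕ} (hq : 0 < q) {R : ℝ} {e : ℚ_[p]} (he : e ≠ 0) {g : GG p}
    (hg : ∀ l : ℕ, (g : XX p) ∈ Sg p q R e l) : ∃ ξ ∈ sing_A p q,
      sing_cj g.2 ξ 1 0 = 0 ∧ sing_cj g.2 ξ 0 0 = sing_cj g.2 ξ 1 1 := by
  have hp : (1 : ℝ) < p := by exact_mod_cast (Fact.out : p.Prime).one_lt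
  have key : ∃ ξ ∈ sing_A p q, ∀ l : ℕ, g ∈ sing_T p R e l ξ := by
    by_contra hcon
    push Not at hcon
    have hf := sing_finite p hq R e 0 (isCompact_singleton (x := g))
    have h1 : ∀ᶠ l : ℕ in atTop, ∀ ξ ∈ {ξ | ξ ∈ sing_A p q ∧ (sing_T p R e 0 ξ ∩ {g}).Nonempty},
        g ∉ sing_T p R e l ξ := by
      rw [Filter.eventually_all_finite hf]
      intro ξ hξ
      obtain ⟨l, hl⟩ := hcon ξ hξ.1
      filter_upwards [eventually_ge_atTop l] with l' hl' hh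
      exact hl (sing_T_anti p R e (by exact_mod_cast hl') ξ hh)
    obtain ⟨l, hl⟩ := h1.exists
    obtain ⟨ξ, h2, h3⟩ := (sing_mem_iff p g).1 (hg l)
    exact hl ξ ⟨h2, g, sing_T_anti p R e (by positivity) ξ h3, rfl⟩ h3
  obtain ⟨ξ, h1, h2⟩ := key
  have h3 : ∀ s : ℚ_[p], Bd R (Pfl p e e s (sing_cj g.2 ξ)) := fun s => by
    obtain ⟨l, hl⟩ := pow_unbounded_of_one_lt ‖s‖ hp
    exact (h2 l).2 s (by rw [zpow_natCast]; exact hl.le)
  have h4 : sing_cj g.2 ξ 1 0 = 0 := by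
    have : e * sing_cj g.2 ξ 1 0 = 0 := by
      refine sing_affine p (a := sing_cj g.2 ξ 0 0) (R := R) fun s => ?_
      have := h3 s 0 0
      rw [Pfl_eq] at this
      simpa using this
    exact (mul_eq_zero.1 this).resolve_left he
  refine ⟨ξ, h1, h4, ?_⟩
  have : e * sing_cj g.2 ξ 1 1 - e * sing_cj g.2 ξ 0 0 = 0 := by
    refine sing_affine p (a := sing_cj g.2 ξ 0 1) (R := R) fun s => ?_
    have := h3 s 0 1
    rw [Pfl_eq] at this
    simpa [h4] using this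
  rw [← mul_sub] at this
  exact (sub_eq_zero.1 ((mul_eq_zero.1 this).resolve_left he)).symm

/-- At most one lower unipotent conjugate of a noncentral matrix is upper unipotent up to sign. -/
theorem sing_sub {F : Type} [Field F] [CharZero F] {W : Matrix (Fin 2) (Fin 2) F} (hd : W.det = 1)
    (h1 : W ≠ 1) (h2 : W ≠ -1) :
    {s : F | ((ul s : Matrix (Fin 2) (Fin 2) F) * W * ((ul s)⁻¹ : SL(2, F))) 1 0 = 0 ∧
      ((ul s : Matrix (Fin 2) (Fin 2) F) * W * ((ul s)⁻¹ : SL(2, F))) 0 0 =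
        ((ul s : Matrix (Fin 2) (Fin 2) F) * W * ((ul s)⁻¹ : SL(2, F))) 1 1}.Subsingleton := by
  have hs : ∀ s : F, (ul s : Matrix (Fin 2) (Fin 2) F) * W * ((ul s)⁻¹ : SL(2, F)) =
      !![W 0 0 - W 0 1 * s, W 0 1;
        W 1 0 + s * (W 0 0 - W 1 1) - s ^ 2 * W 0 1, s * W 0 1 + W 1 1] := fun s => by
    rw [ul_inv, ul_val, ul_val]
    conv_lhs => rw [Matrix.eta_fin_two W]
    simp only [Matrix.mul_fin_two]
    ext i j
    fin_cases i <;> fin_cases j <;> simp <;> ring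
  intro s hs1 t ht1
  simp only [Set.mem_ofPred_eq, hs] at hs1 ht1
  simp only [Matrix.of_apply, Matrix.cons_val', Matrix.cons_val_zero, Matrix.cons_val_one,
    Matrix.cons_val_fin_one] at hs1 ht1
  obtain ⟨a1, a2⟩ := hs1
  obtain ⟨-, b2⟩ := ht1
  by_cases hb : W 0 1 = 0
  · exfalso
    have had : W 0 0 = W 1 1 := by simpa [hb] using a2
    have hc : W 1 0 = 0 := by simpa [hb, had] using a1
    rw [Matrix.det_fin_two, hb, ← had, zero_mul, sub_zero] at hd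
    rcases mul_self_eq_one_iff.1 hd with h | h
    · refine h1 ?_
      ext i j
      fin_cases i <;> fin_cases j <;> simp [hb, hc, ← had, h]
    · refine h2 ?_
      ext i j
      fin_cases i <;> fin_cases j <;> simp [hb, hc, ← had, h]
  · have : (2 * W 0 1) * s = (2 * W 0 1) * t := by linear_combination b2 - a2
    exact mul_left_cancel₀ (mul_ne_zero two_ne_zero hb) this

theorem sing_countable {q : ℕ} (hq : 0 < q) (R : ℝ) {e : ℚ_[p]} (he : e ≠ 0) (x : XX p) :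
    {s : ℚ_[p] | ((1, ul s) : GG p) • x ∈ ⋂ l : ℕ, Sg p q R e l}.Countable := by
  obtain ⟨g, rfl⟩ := QuotientGroup.mk_surjective x
  have : Countable (Matrix (Fin 2) (Fin 2) ℚ) := inferInstanceAs (Countable (Fin 2 → Fin 2 → ℚ))
  refine (Set.countable_iUnion fun ξ : sing_A p q => (sing_sub (sing_cj_det g.2 ξ.2.2.1)
    (fun h => ξ.2.2.2.1 ((sing_cj_one _ _).1 h))
    (fun h => ξ.2.2.2.2 ((sing_cj_neg _ _).1 h))).countable).mono ?_
  intro s hs
  obtain ⟨ξ, h1, h2⟩ := sing_inter p hq he (g := (1, ul s) * g) (Set.mem_iInter.1 hs)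
  rw [Prod.snd_mul, sing_cj_mul] at h2
  exact Set.mem_iUnion.2 ⟨⟨ξ, h1⟩, h2⟩

theorem Sg_small {q : ℕ} (hq : 0 < q) (R : ℝ) {e : ℚ_[p]} (he : e ≠ 0) {ε : ℝ≥0∞} (hε : 0 < ε) :
    ∃ l : ℕ, mX p (Sg p q R e l) < ε := by
  have hN : MeasurableSet (⋂ l : ℕ, Sg p q R e l) :=
    MeasurableSet.iInter fun l => (isClosed_Sg p hq R e l).measurableSet
  have hc : Continuous fun w : XX p × ℚ_[p] => ((1, ul w.2) : GG p) • w.1 := by
    have h : Continuous fun w : XX p × ℚ_[p] => ((1, ul w.2) : GG p) :=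
      continuous_const.prodMk (continuous_ul.comp continuous_snd)
    exact h.smul continuous_fst
  have hA := hc.measurable hN
  have h0 : mX p (⋂ l : ℕ, Sg p q R e l) = 0 := by
    have h1 := Measure.prod_apply (μ := mX p) (ν := bm p 0) hA
    have h2 := Measure.prod_apply_symm (μ := mX p) (ν := bm p 0) hA
    have h3 : ∀ x : XX p, bm p 0 (Prod.mk x ⁻¹' ((fun w : XX p × ℚ_[p] =>
        ((1, ul w.2) : GG p) • w.1) ⁻¹' ⋂ l : ℕ, Sg p q R e l)) = 0 := fun x =>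
      bm_countable p 0 (sing_countable p hq R he x)
    have h4 : ∀ s : ℚ_[p], mX p ((fun x => (x, s)) ⁻¹' ((fun w : XX p × ℚ_[p] =>
        ((1, ul w.2) : GG p) • w.1) ⁻¹' ⋂ l : ℕ, Sg p q R e l)) =
        mX p (⋂ l : ℕ, Sg p q R e l) := fun s =>
      measure_preimage_smul (mX p) ((1, ul s) : GG p) _
    simp only [h3, lintegral_zero] at h1
    simp only [h4, lintegral_const, measure_univ, mul_one] at h2
    rw [← h2, h1]
  have ht := tendsto_measure_iInter_atTop (μ := mX p)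
    (fun l : ℕ => (isClosed_Sg p hq R e l).measurableSet.nullMeasurableSet) (sing_anti p q R e)
    ⟨0, measure_ne_top _ _⟩
  rw [h0] at ht
  exact (ht.eventually (gt_mem_nhds hε)).exists

end Pool.Agent.EQ
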