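import Mathlib

/-! Level structures for weighted sums over intervals. -/

set_option autoImplicit false

noncomputable section

open Finset

namespace Pool.Agent.EQ

open Classical in
/-- The number of residues modulo `q` with property `A`. -/
def cnt (q : ℕ) (A : ℤ → Prop) : ℕ := ((range q).filter fun r : ℕ => A r).card

/-- Level sets `Ω k` modulo `l ^ k` with weights `f k`; `a` bounds the bias at level one. -/
structure Lv (l : ℕ) (K : ℝ) (Ω : ℕ → ℤ → Prop) (f : ℕ → ℝ) (a : ℝ) : Prop where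
  per : ∀ k x y, (l : ℤ) ^ k ∣ x - y → Ω k x → Ω k y
  cnt_le : ∀ k, 0 < k → cnt (l ^ k) (Ω k) ≤ 2
  nonneg : ∀ k, 0 ≤ f k
  le : ∀ k, f k ≤ K * (k + 1)
  zero : f 0 ≤ 1
  one : (f 1 - 1) * cnt l (Ω 1) ≤ a

/-- `x` has level `k`. -/
def At (Ω : ℕ → ℤ → Prop) (x : ℤ) (k : ℕ) : Prop := (k = 0 → ¬ Ω 1 x) ∧ (0 < k → Ω k x)

/-- The weight `w` on `S` is majorised by finitely many types: a type fixes a residue class
modulo `l ^ t.1`, carries a factor `π t`, and a level structure in the remaining variable. -/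
def LS (K : ℝ) (l : ℕ) (S : Set ℤ) (B : ℤ → ℤ) (w : ℤ → ℝ) (mu : ℤ → ℕ) (M a : ℝ) : Prop :=
  ∃ (T : Finset (ℕ × ℤ × ℕ)) (π : ℕ × ℤ × ℕ → ℝ) (Ω : ℕ × ℤ × ℕ → ℕ → ℤ → Prop)
    (f : ℕ × ℤ × ℕ → ℕ → ℝ), (∀ t ∈ T, 0 ≤ π t ∧ Lv l K (Ω t) (f t) a) ∧
    ∑ t ∈ T, π t / (l : ℝ) ^ t.1 ≤ M ∧
    ∀ x ∈ S, w x ≤ 0 ∨ ∃ t ∈ T, ∃ (y : ℤ) (k : ℕ), t.1 ≤ mu x ∧ x = t.2.1 + (l : ℤ) ^ t.1 * y ∧
      At (Ω t) y k ∧ (l : ℤ) ^ k ∣ B x ∧ w x ≤ π t * f t k

theorem Lv.mono {l : ℕ} {K K' a a' : ℝ} {Ω : ℕ → ℤ → Prop} {f : ℕ → ℝ} (h : Lv l K Ω f a)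
    (hK : K ≤ K') (ha : a ≤ a') : Lv l K' Ω f a' :=
  ⟨h.per, h.cnt_le, h.nonneg, fun k => (h.le k).trans
    (mul_le_mul_of_nonneg_right hK (by positivity)), h.zero, h.one.trans ha⟩

theorem LS.mono {K K' M M' a a' : ℝ} {l : ℕ} {S S' : Set ℤ} {B : ℤ → ℤ} {w w' : ℤ → ℝ}
    {mu mu' : ℤ → ℕ} (h : LS K l S B w mu M a) (hK : K ≤ K') (hS : S' ⊆ S)
    (hw : ∀ x ∈ S', w' x ≤ w x) (hmu : ∀ x ∈ S', mu x ≤ mu' x) (hM : M ≤ M') (ha : a ≤ a') :
    LS K' l S' B w' mu' M' a' := by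
  obtain ⟨T, π, Ω, f, h1, h2, h3⟩ := h
  refine ⟨T, π, Ω, f, fun t ht => ⟨(h1 t ht).1, (h1 t ht).2.mono hK ha⟩, h2.trans hM,
    fun x hx => ?_⟩
  rcases h3 x (hS hx) with h | ⟨t, ht, y, k, a1, a2, a3, a4, a5⟩
  · exact Or.inl ((hw x hx).trans h)
  · exact Or.inr ⟨t, ht, y, k, a1.trans (hmu x hx), a2, a3, a4, (hw x hx).trans a5⟩

theorem Lv.neg_two_le {l : ℕ} {K a : ℝ} {Ω : ℕ → ℤ → Prop} {f : ℕ → ℝ} (h : Lv l K Ω f a) :
    -2 ≤ a := by
  have h1 : (cnt l (Ω 1) : ℝ) ≤ 2 := by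
    have := h.cnt_le 1 one_pos
    rw [pow_one] at this
    exact_mod_cast this
  have h2 : (0 : ℝ) ≤ cnt l (Ω 1) := by positivity
  nlinarith [h.one, h.nonneg 1]

theorem tlv_sum_zmod {q : ℕ} [NeZero q] (G : ZMod q → ℝ) :
    ∑ r ∈ range q, G (r : ZMod q) = ∑ z : ZMod q, G z := by
  refine sum_bij (fun r _ => (r : ZMod q)) (fun _ _ => mem_univ _) ?_ ?_ (fun _ _ => rfl)
  · intro a ha b hb hab
    have := congrArg ZMod.val hab
    rwa [ZMod.val_cast_of_lt (mem_range.1 ha), ZMod.val_cast_of_lt (mem_range.1 hb)] at this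
  · intro z _
    exact ⟨z.val, mem_range.2 (ZMod.val_lt z), ZMod.natCast_zmod_val z⟩

theorem tlv_affine {q : ℕ} (hq : 0 < q) {F : ℤ → ℝ}
    (hF : ∀ x y, (q : ℤ) ∣ x - y → F x = F y) (r : ℤ) {u : ℤ} (hu : IsCoprime u q) :
    ∑ y ∈ range q, F (r + u * y) = ∑ y ∈ range q, F y := by
  haveI : NeZero q := ⟨hq.ne'⟩
  have hG : ∀ x : ℤ, F x = F (((x : ZMod q).val : ℕ) : ℤ) := fun x =>
    hF _ _ ((ZMod.intCast_eq_intCast_iff_dvd_sub _ _ _).1 (by simp))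
  have hunit : IsUnit (u : ZMod q) := by
    obtain ⟨a, b, hab⟩ := hu
    have := congrArg (Int.cast : ℤ → ZMod q) hab
    push_cast at this
    rw [ZMod.natCast_self, mul_zero, add_zero] at this
    exact IsUnit.of_mul_eq_one_right _ this
  have e1 : ∑ y ∈ range q, F (r + u * y) =
      ∑ z : ZMod q, F ((((r : ZMod q) + u * z).val : ℕ) : ℤ) := by
    rw [← tlv_sum_zmod]
    refine sum_congr rfl fun y _ => ?_
    rw [hG]; push_cast; rfl
  have e2 : ∑ y ∈ range q, F y = ∑ z : ZMod q, F ((z.val : ℕ) : ℤ) := by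
    rw [← tlv_sum_zmod]
    refine sum_congr rfl fun y _ => ?_
    rw [hG, Int.cast_natCast]
  rw [e1, e2]
  refine Function.Bijective.sum_comp (e := fun z : ZMod q => (r : ZMod q) + u * z) ?_
    (fun z => F ((z.val : ℕ) : ℤ))
  refine Finite.injective_iff_bijective.1 fun a b hab => ?_
  exact hunit.mul_left_cancel (add_left_cancel hab)

theorem tlv_split (a b : ℕ) (H : ℕ → ℝ) :
    ∑ r ∈ range (a * b), H r = ∑ j ∈ range b, ∑ i ∈ range a, H (a * j + i) := by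
  induction b with
  | zero => simp
  | succ b ih => rw [Nat.mul_succ, sum_range_add, ih, sum_range_succ]

theorem tlv_crt {a b : ℕ} (hb : 0 < b) (hab : a.Coprime b) {F G : ℤ → ℝ}
    (hF : ∀ x y, (a : ℤ) ∣ x - y → F x = F y) (hG : ∀ x y, (b : ℤ) ∣ x - y → G x = G y) :
    ∑ r ∈ range (a * b), F r * G r = (∑ r ∈ range a, F r) * ∑ r ∈ range b, G r := by
  rw [tlv_split a b fun r => F r * G r, sum_comm, sum_mul]
  refine sum_congr rfl fun i _ => ?_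
  rw [← tlv_affine hb hG i (Nat.isCoprime_iff_coprime.2 hab), mul_sum]
  refine sum_congr rfl fun j _ => ?_
  push_cast
  rw [hF (a * j + i) i ⟨j, by ring⟩, add_comm]

open Classical in
theorem tlv_cnt (q : ℕ) (A : ℤ → Prop) :
    (cnt q A : ℝ) = ∑ r ∈ range q, if A r then (1 : ℝ) else 0 := by
  rw [cnt, sum_boole]

open Classical in
theorem tlv_ind {q : ℤ} {A : ℤ → Prop} (hA : ∀ x y, q ∣ x - y → A x → A y) (x y : ℤ)
    (h : q ∣ x - y) : (if A x then (1 : ℝ) else 0) = if A y then 1 else 0 :=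
  if_congr ⟨hA x y h, hA y x (dvd_sub_comm.1 h)⟩ rfl rfl

theorem tlv_period {q : ℕ} (hq : 0 < q) {F : ℤ → ℝ} (h0 : ∀ x, 0 ≤ F x)
    (hF : ∀ x y, (q : ℤ) ∣ x - y → F x = F y) (x₀ : ℤ) (N : ℕ) :
    ∑ x ∈ Ico x₀ (x₀ + N), F x ≤ (N / q + 1) * ∑ r ∈ range q, F r := by
  have e1 : ∑ x ∈ Ico x₀ (x₀ + N), F x = ∑ i ∈ range N, F (x₀ + i) := by
    symm
    refine sum_bij (fun i _ => x₀ + (i : ℤ)) ?_ ?_ ?_ (fun _ _ => rfl)
    · intro i hi
      have := mem_range.1 hi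
      exact mem_Ico.2 ⟨by omega, by omega⟩
    · intro a _ b _ hab
      have : x₀ + (a : ℤ) = x₀ + b := hab
      omega
    · intro x hx
      have := mem_Ico.1 hx
      exact ⟨(x - x₀).toNat, mem_range.2 (by omega), by omega⟩
  have e2 : ∑ i ∈ range N, F (x₀ + i) ≤ ∑ i ∈ range (q * (N / q + 1)), F (x₀ + i) :=
    sum_le_sum_of_subset_of_nonneg (range_mono (Nat.lt_mul_div_succ N hq).le) fun _ _ _ => h0 _
  have e3 : ∑ i ∈ range (q * (N / q + 1)), F (x₀ + i) =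
      ((N / q + 1 : ℕ) : ℝ) * ∑ r ∈ range q, F r := by
    rw [tlv_split q (N / q + 1) fun i => F (x₀ + i), ← nsmul_eq_mul, ← card_range (N / q + 1),
      ← sum_const, card_range]
    refine sum_congr rfl fun j _ => ?_
    rw [← tlv_affine hq hF (x₀ + q * j) isCoprime_one_left]
    refine sum_congr rfl fun i _ => ?_
    push_cast
    rw [one_mul, add_assoc]
  rw [e1]
  refine e2.trans (e3.le.trans (mul_le_mul_of_nonneg_right ?_ (sum_nonneg fun _ _ => h0 _)))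
  push_cast
  linarith [Nat.cast_div_le (α := ℝ) (m := N) (n := q)]

theorem tlv_prod (Q : Finset ℕ) (hQ : ∀ l ∈ Q, l.Prime) (k : ℕ → ℕ) (F : ℕ → ℤ → ℝ)
    (hF : ∀ l ∈ Q, ∀ x y, (l : ℤ) ^ k l ∣ x - y → F l x = F l y) :
    ∑ r ∈ range (∏ l ∈ Q, l ^ k l), ∏ l ∈ Q, F l r =
      ∏ l ∈ Q, ∑ r ∈ range (l ^ k l), F l r := by
  induction Q using Finset.induction_on with
  | empty => simp
  | insert p Q hp ih =>
    have hQ' : ∀ l ∈ Q, l.Prime := fun l hl => hQ l (mem_insert_of_mem hl)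
    have hpp := hQ p (mem_insert_self _ _)
    have hcop : (p ^ k p).Coprime (∏ l ∈ Q, l ^ k l) :=
      Nat.Coprime.prod_right fun l hl => Nat.Coprime.pow _ _
        ((Nat.coprime_primes hpp (hQ' l hl)).2 fun h => hp (h ▸ hl))
    simp only [prod_insert hp]
    rw [← ih hQ' fun l hl => hF l (mem_insert_of_mem hl)]
    refine tlv_crt (F := F p) (G := fun x => ∏ l ∈ Q, F l x)
      (prod_pos fun l hl => pow_pos (hQ' l hl).pos _) hcop (fun x y h => ?_) fun x y h => ?_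
    · exact hF p (mem_insert_self _ _) x y (by exact_mod_cast h)
    · refine prod_congr rfl fun l hl => hF l (mem_insert_of_mem hl) x y (Dvd.dvd.trans ?_ h)
      exact_mod_cast dvd_prod_of_mem (fun l => l ^ k l) hl

/-- A periodic property has the same count after an invertible affine change of variable. -/
theorem cnt_affine {q : ℕ} (hq : 0 < q) {A : ℤ → Prop} (hA : ∀ x y, (q : ℤ) ∣ x - y → A x → A y)
    (r : ℤ) {u : ℤ} (hu : IsCoprime u q) : cnt q (fun y => A (r + u * y)) = cnt q A := by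
  classical
  have := tlv_affine hq (tlv_ind hA) r hu
  rw [← tlv_cnt q A] at this
  have h2 := tlv_cnt q fun y => A (r + u * y)
  exact_mod_cast h2.trans this

theorem Lv.affine {l : ℕ} (hl : l.Prime) {K a : ℝ} {Ω : ℕ → ℤ → Prop} {f : ℕ → ℝ}
    (h : Lv l K Ω f a) (r : ℤ) {u : ℤ} (hu : ¬ (l : ℤ) ∣ u) :
    Lv l K (fun k y => Ω k (r + u * y)) f a := by
  have hc : IsCoprime u (l : ℤ) :=
    ((Nat.prime_iff_prime_int.1 hl).coprime_iff_not_dvd.2 hu).symm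
  have key : ∀ k, cnt (l ^ k) (fun y => Ω k (r + u * y)) = cnt (l ^ k) (Ω k) := fun k =>
    cnt_affine (pow_pos hl.pos k) (fun x y hxy => h.per k x y (by exact_mod_cast hxy)) r
      (by push_cast; exact hc.pow_right)
  refine ⟨fun k x y hxy => h.per k _ _ ?_, fun k hk => (key k).trans_le (h.cnt_le k hk),
    h.nonneg, h.le, h.zero, ?_⟩
  · rw [add_sub_add_left_eq_sub, ← mul_sub]
    exact hxy.mul_left u
  · have := key 1
    rw [pow_one] at this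
    rw [this]
    exact h.one

theorem cnt_le_two {q : ℕ} {A : ℤ → Prop}
    (h : ∀ x y z, A x → A y → A z → (q : ℤ) ∣ x - y ∨ (q : ℤ) ∣ x - z ∨ (q : ℤ) ∣ y - z) :
    cnt q A ≤ 2 := by
  classical
  by_contra hc
  obtain ⟨a, b, c, ha, hb, hc, hab, hac, hbc⟩ := two_lt_card_iff.1 (not_le.1 hc)
  rw [mem_filter, mem_range] at ha hb hc
  have key : ∀ x y : ℕ, x < q → y < q → (q : ℤ) ∣ (x : ℤ) - y → x = y := fun x y hx hy hd => by
    have := Int.eq_zero_of_dvd_of_natAbs_lt_natAbs hd (by omega)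
    omega
  rcases h a b c ha.2 hb.2 hc.2 with h | h | h
  · exact hab (key _ _ ha.1 hb.1 h)
  · exact hac (key _ _ ha.1 hc.1 h)
  · exact hbc (key _ _ hb.1 hc.1 h)

/-- Chinese remainder theorem for counts. -/
theorem cnt_prod (Q : Finset ℕ) (hQ : ∀ l ∈ Q, l.Prime) (k : ℕ → ℕ) (A : ℕ → ℤ → Prop)
    (hA : ∀ l ∈ Q, ∀ x y, (l : ℤ) ^ k l ∣ x - y → A l x → A l y) :
    cnt (∏ l ∈ Q, l ^ k l) (fun x => ∀ l ∈ Q, A l x) = ∏ l ∈ Q, cnt (l ^ k l) (A l) := by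
  classical
  have := tlv_prod Q hQ k (fun l x => if A l x then (1 : ℝ) else 0)
    fun l hl => tlv_ind (hA l hl)
  have h2 := tlv_cnt (∏ l ∈ Q, l ^ k l) fun x => ∀ l ∈ Q, A l x
  have h3 : ((∏ l ∈ Q, cnt (l ^ k l) (A l) : ℕ) : ℝ) =
      ∏ l ∈ Q, ∑ r ∈ range (l ^ k l), if A l r then (1 : ℝ) else 0 := by
    rw [Nat.cast_prod]
    exact prod_congr rfl fun l _ => tlv_cnt _ _
  refine Nat.cast_injective (R := ℝ) (h2.trans ?_)
  rw [h3, ← this]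
  refine sum_congr rfl fun r _ => ?_
  rw [prod_boole]
  by_cases hr : ∀ l ∈ Q, A l r
  · rw [if_pos hr, if_pos hr]
  · rw [if_neg hr, if_neg hr]

/-- A periodic set meets an interval in the expected number of points. -/
theorem card_le_cnt {q : ℕ} (hq : 0 < q) {A : ℤ → Prop}
    (hA : ∀ x y, (q : ℤ) ∣ x - y → A x → A y) (x₀ : ℤ) (N : ℕ) (S : Finset ℤ)
    (hS : ∀ x ∈ S, x₀ ≤ x ∧ x < x₀ + N ∧ A x) :
    (S.card : ℝ) ≤ cnt q A * (N / q + 1) := by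
  classical
  have h1 := tlv_period hq (F := fun x => if A x then (1 : ℝ) else 0)
    (fun x => by positivity) (tlv_ind hA) x₀ N
  rw [← tlv_cnt q A, sum_boole, mul_comm] at h1
  refine le_trans ?_ h1
  exact_mod_cast card_le_card fun x hx =>
    mem_filter.2 ⟨mem_Ico.2 ⟨(hS x hx).1, (hS x hx).2.1⟩, (hS x hx).2.2⟩

theorem sum_le_period {q : ℕ} (hq : 0 < q) {F : ℤ → ℝ} (h0 : ∀ x, 0 ≤ F x)
    (hF : ∀ x y, (q : ℤ) ∣ x - y → F x = F y) (x₀ : ℤ) (N : ℕ) :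
    ∑ x ∈ Ico x₀ (x₀ + N), F x ≤ (N / q + 1) * ∑ r ∈ range q, F r := by
  exact tlv_period hq h0 hF x₀ N

theorem sum_period_prod (Q : Finset ℕ) (hQ : ∀ l ∈ Q, l.Prime) (k : ℕ → ℕ) (F : ℕ → ℤ → ℝ)
    (hF : ∀ l ∈ Q, ∀ x y, (l : ℤ) ^ k l ∣ x - y → F l x = F l y) :
    ∑ r ∈ range (∏ l ∈ Q, l ^ k l), ∏ l ∈ Q, F l r =
      ∏ l ∈ Q, ∑ r ∈ range (l ^ k l), F l r := by
  exact tlv_prod Q hQ k F hF

end Pool.Agent.EQ
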