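import Pool.Agent.P.MP_ad7a55_nt.TLv

/-! Congruences for quadratic polynomials. -/

set_option autoImplicit false

noncomputable section

open Finset

namespace Pool.Agent.EQ

theorem tqd_prime {l : ℕ} (hl : l.Prime) : Prime (l : ℤ) := Nat.prime_iff_prime_int.1 hl

theorem tqd_cnt (q : ℕ) (A : ℤ → Prop) [DecidablePred A] :
    cnt q A = ((range q).filter fun r : ℕ => A r).card := by
  unfold cnt
  exact congrArg card (Finset.ext fun r => by simp only [mem_filter])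

theorem tqd_split {l : ℕ} (hl : l.Prime) (m : ℕ) : ∀ (k : ℕ) (x y : ℤ),
    (l : ℤ) ^ (k + m) ∣ x * y → ¬ (l : ℤ) ^ (m + 1) ∣ x → (l : ℤ) ^ k ∣ y := by
  have hp := tqd_prime hl
  induction m with
  | zero =>
    intro k x y h hx
    exact hp.pow_dvd_of_dvd_mul_left k (by simpa using hx) (by simpa using h)
  | succ m ih =>
    intro k x y h hx
    by_cases h1 : (l : ℤ) ∣ x
    · obtain ⟨x', rfl⟩ := h1
      refine ih k x' y ?_ fun h2 => hx ?_
      · rw [← add_assoc, pow_succ', mul_assoc] at h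
        exact (mul_dvd_mul_iff_left hp.ne_zero).1 h
      · rw [pow_succ' _ (m + 1)]
        exact mul_dvd_mul_left _ h2
    · exact (pow_dvd_pow _ (Nat.le_add_right _ _)).trans (hp.pow_dvd_of_dvd_mul_left _ h1 h)

theorem tqd_eq {q r r' : ℕ} (h1 : r < q) (h2 : r' < q) (h : (q : ℤ) ∣ (r : ℤ) - r') : r = r' := by
  have := (Nat.modEq_iff_dvd.2 h).symm
  exact this.eq_of_lt_of_lt h1 h2

theorem tqd_mod (d r : ℕ) : (d : ℤ) ∣ (r : ℤ) - ((r % d : ℕ) : ℤ) :=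
  Nat.modEq_iff_dvd.1 (Nat.mod_modEq r d)

theorem tqd_per {d : ℕ} (hd : 0 < d) (e : ℕ) {A A' : ℤ → Prop} (h : ∀ x, A x → A' x)
    (hA : ∀ x y, (d : ℤ) ∣ x - y → A' x → A' y) : cnt (d * e) A ≤ e * cnt d A' := by
  classical
  unfold cnt
  have e1 : e = (range e).card := (card_range e).symm
  conv_rhs => rw [e1, ← card_product]
  refine card_le_card_of_injOn (fun r => (r / d, r % d)) (fun r hr => ?_) fun r _ r' _ he => ?_
  · obtain ⟨h1, h2⟩ := mem_filter.1 (mem_coe.1 hr)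
    refine mem_coe.2 (mem_product.2 ⟨mem_range.2 ?_, mem_filter.2 ⟨mem_range.2 (Nat.mod_lt _ hd),
      hA _ _ (tqd_mod d r) (h _ h2)⟩⟩)
    exact Nat.div_lt_of_lt_mul (mem_range.1 h1)
  · obtain ⟨h1, h2⟩ := Prod.mk.inj he
    rw [← Nat.div_add_mod r d, ← Nat.div_add_mod r' d, h1, h2]

theorem tqd_le_one {q : ℕ} {A : ℤ → Prop} (h : ∀ x y, A x → A y → (q : ℤ) ∣ x - y) :
    cnt q A ≤ 1 := by
  classical
  unfold cnt
  refine card_le_one.2 fun r hr r' hr' => ?_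
  obtain ⟨h1, h2⟩ := mem_filter.1 hr
  obtain ⟨h3, h4⟩ := mem_filter.1 hr'
  exact tqd_eq (mem_range.1 h1) (mem_range.1 h3) (h _ _ h2 h4)

theorem tqd_zero {q : ℕ} {A : ℤ → Prop} (h : ¬ ∃ x, A x) : cnt q A = 0 := by
  classical
  unfold cnt
  exact card_eq_zero.2 (filter_eq_empty_iff.2 fun r _ hr => h ⟨_, hr⟩)

theorem tqd_congr {q : ℕ} {A A' : ℤ → Prop} (h : ∀ x, A x ↔ A' x) : cnt q A = cnt q A' := by
  rw [show A = A' from funext fun x => propext (h x)]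

theorem tqd_one {l : ℕ} (hl : l.Prime) {k j : ℕ} (hj : j ≤ k) {A : ℤ → Prop} (c : ℤ)
    (h : ∀ x, A x → (l : ℤ) ^ (k - j) ∣ x - c) : cnt (l ^ k) A ≤ l ^ j := by
  have h1 := tqd_per (pow_pos hl.pos (k - j)) (l ^ j) (A := A)
    (A' := fun x => (l : ℤ) ^ (k - j) ∣ x - c) h fun x y h1 h2 => by
      push_cast at h1
      have := dvd_sub h2 h1
      rwa [show x - c - (x - y) = y - c by ring] at this
  have h2 := tqd_le_one (q := l ^ (k - j)) (A := fun x => (l : ℤ) ^ (k - j) ∣ x - c)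
    fun x y h1 h2 => by
      push_cast
      have := dvd_sub h1 h2
      rwa [show x - c - (y - c) = x - y by ring] at this
  rw [← pow_add, Nat.sub_add_cancel hj] at h1
  exact h1.trans (by simpa using Nat.mul_le_mul_left (l ^ j) h2)

theorem tqd_two {l : ℕ} (hl : l.Prime) {k j : ℕ} (hj : j ≤ k) {A : ℤ → Prop} (c c' : ℤ)
    (h : ∀ x, A x → (l : ℤ) ^ (k - j) ∣ x - c ∨ (l : ℤ) ^ (k - j) ∣ x - c') :
    cnt (l ^ k) A ≤ 2 * l ^ j := by
  have t : ∀ {x y c : ℤ}, (l : ℤ) ^ (k - j) ∣ x - c → (l : ℤ) ^ (k - j) ∣ y - c →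
      (l : ℤ) ^ (k - j) ∣ x - y := fun {x y c} h1 h2 => by
    have := dvd_sub h1 h2
    rwa [show x - c - (y - c) = x - y by ring] at this
  have t' : ∀ {x y c : ℤ}, (l : ℤ) ^ (k - j) ∣ x - y → (l : ℤ) ^ (k - j) ∣ x - c →
      (l : ℤ) ^ (k - j) ∣ y - c := fun {x y c} h1 h2 => by
    have := dvd_sub h2 h1
    rwa [show x - c - (x - y) = y - c by ring] at this
  have h1 := tqd_per (pow_pos hl.pos (k - j)) (l ^ j) (A := A)
    (A' := fun x => (l : ℤ) ^ (k - j) ∣ x - c ∨ (l : ℤ) ^ (k - j) ∣ x - c') h fun x y h1 h2 => by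
      push_cast at h1
      exact h2.imp (t' h1) (t' h1)
  have h2 := cnt_le_two (q := l ^ (k - j))
    (A := fun x => (l : ℤ) ^ (k - j) ∣ x - c ∨ (l : ℤ) ^ (k - j) ∣ x - c')
    fun x y z h1 h2 h3 => by
      push_cast
      rcases h1 with h1 | h1 <;> rcases h2 with h2 | h2 <;> rcases h3 with h3 | h3
      all_goals first
        | exact Or.inl (t h1 h2)
        | exact Or.inr (Or.inl (t h1 h3))
        | exact Or.inr (Or.inr (t h2 h3))
  rw [← pow_add, Nat.sub_add_cancel hj] at h1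
  exact h1.trans (by rw [mul_comm 2]; exact Nat.mul_le_mul_left (l ^ j) h2)

theorem tqd_not_two {l : ℕ} (hl : l.Prime) (h2 : l ≠ 2) : ¬ (l : ℤ) ∣ 2 := fun h =>
  h2 ((Nat.prime_dvd_prime_iff_eq hl Nat.prime_two).1 (by exact_mod_cast h))

theorem tqd_sq {l k : ℕ} {a r r0 : ℤ} (h : (l : ℤ) ^ k ∣ r ^ 2 - a) (h0 : (l : ℤ) ^ k ∣ r0 ^ 2 - a) :
    (l : ℤ) ^ k ∣ (r - r0) * (r - -r0) := by
  have := dvd_sub h h0
  rwa [show r ^ 2 - a - (r0 ^ 2 - a) = (r - r0) * (r - -r0) by ring] at this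

theorem tqd_poly {d A B C x y : ℤ} (h : d ∣ x - y) (hx : d ∣ A * x ^ 2 + B * x + C) :
    d ∣ A * y ^ 2 + B * y + C := by
  have := dvd_sub hx (h.mul_right (A * (x + y) + B))
  rwa [show A * x ^ 2 + B * x + C - (x - y) * (A * (x + y) + B) = A * y ^ 2 + B * y + C by ring]
    at this

theorem tqd_diff {d A B C x y : ℤ} (hx : d ∣ A * x ^ 2 + B * x + C)
    (hy : d ∣ A * y ^ 2 + B * y + C) : d ∣ (x - y) * (A * (x + y) + B) := by
  have := dvd_sub hx hy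
  rwa [show A * x ^ 2 + B * x + C - (A * y ^ 2 + B * y + C) = (x - y) * (A * (x + y) + B) by ring]
    at this

theorem tqd_lift {l : ℕ} (hl : l.Prime) {A B C : ℤ}
    (hs : ∀ y, (l : ℤ) ∣ A * y ^ 2 + B * y + C → ¬ (l : ℤ) ∣ 2 * A * y + B) (k : ℕ) :
    cnt (l ^ (k + 1)) (fun y => (l : ℤ) ^ (k + 1) ∣ A * y ^ 2 + B * y + C) =
      cnt l (fun y => (l : ℤ) ∣ A * y ^ 2 + B * y + C) := by
  classical
  have hp := tqd_prime hl
  induction k with
  | zero => simp only [zero_add, pow_one]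
  | succ k ih =>
    rw [← ih, tqd_cnt, tqd_cnt]
    have hq : 0 < l ^ (k + 1) := pow_pos hl.pos _
    have hq' : 0 < l ^ (k + 1 + 1) := pow_pos hl.pos _
    have d1 : (l : ℤ) ∣ (l : ℤ) ^ (k + 1) := dvd_pow_self _ (Nat.succ_ne_zero k)
    have d2 : (l : ℤ) ^ (k + 1) ∣ (l : ℤ) ^ (k + 1 + 1) := pow_dvd_pow _ (Nat.le_succ _)
    refine card_bij (fun r _ => r % l ^ (k + 1)) (fun r hr => ?_) (fun r hr r' hr' he => ?_)
      fun y hy => ?_
    · obtain ⟨-, h2⟩ := mem_filter.1 hr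
      refine mem_filter.2 ⟨mem_range.2 (Nat.mod_lt _ hq), tqd_poly ?_ (d2.trans h2)⟩
      exact_mod_cast tqd_mod (l ^ (k + 1)) r
    · obtain ⟨h1, h2⟩ := mem_filter.1 hr
      obtain ⟨h3, h4⟩ := mem_filter.1 hr'
      have h5 : (l : ℤ) ∣ (r : ℤ) - r' := by
        have := Nat.modEq_iff_dvd.1 (show r' ≡ r [MOD l ^ (k + 1)] from he.symm)
        push_cast at this
        exact d1.trans this
      have h6 : ¬ (l : ℤ) ∣ A * (r + r') + B := fun h => hs r (d1.trans (d2.trans h2)) (by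
        have := dvd_add h (h5.mul_left A)
        rwa [show A * (r + r') + B + A * ((r : ℤ) - r') = 2 * A * r + B by ring] at this)
      refine tqd_eq (mem_range.1 h1) (mem_range.1 h3) ?_
      push_cast
      exact hp.pow_dvd_of_dvd_mul_right _ h6 (tqd_diff h2 h4)
    · obtain ⟨h1, c, hc⟩ := mem_filter.1 hy
      have h6 := hs y (d1.trans ⟨c, hc⟩)
      obtain ⟨a, b, hab⟩ := (hp.irreducible.coprime_iff_not_dvd).2 h6
      obtain ⟨x, hx⟩ : ∃ x : ℤ, x = y + (l : ℤ) ^ (k + 1) * (-c * b) := ⟨_, rfl⟩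
      have h7 : (l : ℤ) ^ (k + 1 + 1) ∣ A * x ^ 2 + B * x + C := by
        refine ⟨c * a + A * (c * b) ^ 2 * (l : ℤ) ^ k, ?_⟩
        rw [hx]
        linear_combination hc - (l : ℤ) ^ (k + 1) * c * hab
      have hq2 : (0 : ℤ) < (l : ℤ) ^ (k + 1 + 1) := by exact_mod_cast hq'
      obtain ⟨r, hr⟩ := Int.eq_ofNat_of_zero_le (Int.emod_nonneg x hq2.ne')
      have h8 : (l : ℤ) ^ (k + 1 + 1) ∣ x - r := by
        rw [← hr]
        exact Int.dvd_self_sub_emod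
      have h9 : r < l ^ (k + 1 + 1) := by
        have := Int.emod_lt_of_pos x hq2
        rw [hr] at this
        exact_mod_cast this
      refine ⟨r, mem_filter.2 ⟨mem_range.2 h9, tqd_poly h8 h7⟩, ?_⟩
      refine tqd_eq (Nat.mod_lt _ hq) (mem_range.1 h1) ?_
      have e1 := tqd_mod (l ^ (k + 1)) r
      push_cast at e1 ⊢
      have e2 := dvd_sub (dvd_sub (Dvd.intro (-c * b) rfl : (l : ℤ) ^ (k + 1) ∣ _) (d2.trans h8)) e1
      rwa [hx, show (l : ℤ) ^ (k + 1) * (-c * b) - (y + (l : ℤ) ^ (k + 1) * (-c * b) - r) -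
        (r - r % (l : ℤ) ^ (k + 1)) = r % (l : ℤ) ^ (k + 1) - y by ring] at e2

theorem tqd_roots {l : ℕ} (hl : l.Prime) (h2 : l ≠ 2) (D : ℤ) :
    (cnt l (fun z => (l : ℤ) ∣ z ^ 2 - D) : ℤ) = 1 + jacobiSym D l := by
  classical
  have : Fact l.Prime := ⟨hl⟩
  have h := legendreSym.card_sqrts l h2 D
  rw [← jacobiSym.legendreSym.to_jacobiSym, add_comm, ← h]
  congr 1
  rw [tqd_cnt]
  refine card_bij (fun r _ => (r : ZMod l)) (fun r hr => ?_) (fun r hr r' hr' he => ?_)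
    fun y hy => ?_
  · have h1 := (ZMod.intCast_zmod_eq_zero_iff_dvd _ l).2 (mem_filter.1 hr).2
    push_cast at h1
    simpa [sub_eq_zero] using h1
  · exact ((ZMod.natCast_eq_natCast_iff _ _ _).1 he).eq_of_lt_of_lt
      (mem_range.1 (mem_filter.1 hr).1) (mem_range.1 (mem_filter.1 hr').1)
  · refine ⟨y.val, mem_filter.2 ⟨mem_range.2 (ZMod.val_lt y), ?_⟩, ZMod.natCast_zmod_val y⟩
    rw [← ZMod.intCast_zmod_eq_zero_iff_dvd]
    push_cast
    rw [ZMod.natCast_zmod_val, sub_eq_zero]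
    simpa using hy

theorem cnt_sq_le {l : ℕ} (hl : l.Prime) (k : ℕ) (a : ℤ) :
    cnt (l ^ k) (fun r => (l : ℤ) ^ k ∣ r ^ 2 - a) ≤ 4 * l ^ (k / 2) := by
  by_cases h : ∃ r0 : ℤ, (l : ℤ) ^ k ∣ r0 ^ 2 - a
  · obtain ⟨r0, h0⟩ := h
    refine (tqd_two hl (Nat.div_le_self k 2) r0 (-r0) fun r hr => ?_).trans
      (Nat.mul_le_mul_right _ (by norm_num))
    by_cases h1 : (l : ℤ) ^ (k - k / 2) ∣ r - r0
    · exact Or.inl h1
    · have hk : k - k / 2 ≠ 0 := fun e => h1 (by rw [e, pow_zero]; exact one_dvd _)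
      have e1 : k - k / 2 = k - k / 2 - 1 + 1 := by omega
      have h3 := tqd_sq hr h0
      have e2 : k = k / 2 + 1 + (k - k / 2 - 1) := by omega
      rw [e1] at h1
      conv at h3 => rw [e2]
      exact Or.inr ((pow_dvd_pow _ (by omega)).trans (tqd_split hl _ _ _ _ h3 h1))
  · rw [tqd_zero h]
    exact Nat.zero_le _

theorem cnt_sq_le' {l : ℕ} (hl : l.Prime) (k j : ℕ) {a : ℤ} (ha : ¬ (l : ℤ) ^ (2 * j + 2) ∣ a) :
    cnt (l ^ k) (fun r => (l : ℤ) ^ k ∣ r ^ 2 - a) ≤ 4 * l ^ j := by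
  by_cases hk : k ≤ 2 * j + 1
  · exact (cnt_sq_le hl k a).trans
      (Nat.mul_le_mul_left _ (Nat.pow_le_pow_right hl.pos (by omega)))
  by_cases h : ∃ r0 : ℤ, (l : ℤ) ^ k ∣ r0 ^ 2 - a
  · obtain ⟨r0, h0⟩ := h
    have h1 : ¬ (l : ℤ) ^ (j + 1) ∣ r0 := fun h1 => ha (by
      have h2 : (l : ℤ) ^ (2 * j + 2) ∣ r0 ^ 2 := by
        rw [show 2 * j + 2 = (j + 1) * 2 by ring, pow_mul]
        exact pow_dvd_pow_of_dvd h1 2
      have := dvd_sub h2 ((pow_dvd_pow _ (by omega)).trans h0)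
      rwa [sub_sub_cancel] at this)
    have key : ∀ m ≤ k, ¬ (l : ℤ) ^ (m + 1) ∣ 2 * r0 →
        cnt (l ^ k) (fun r => (l : ℤ) ^ k ∣ r ^ 2 - a) ≤ 2 * l ^ m := by
      intro m hm h2
      refine tqd_two hl hm r0 (-r0) fun r hr => ?_
      have h3 := tqd_sq hr h0
      conv at h3 => rw [← Nat.sub_add_cancel hm]
      by_cases h4 : (l : ℤ) ^ (m + 1) ∣ r - r0
      · refine Or.inl (tqd_split hl _ _ (r - -r0) _ (by rwa [mul_comm]) fun h5 => h2 ?_)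
        have := dvd_sub h5 h4
        rwa [show r - -r0 - (r - r0) = 2 * r0 by ring] at this
      · exact Or.inr (tqd_split hl _ _ _ _ h3 h4)
    by_cases h2 : l = 2
    · subst h2
      refine (key (j + 1) (by omega) fun h3 => h1 ?_).trans (le_of_eq (by ring))
      rw [pow_succ'] at h3
      exact (mul_dvd_mul_iff_left (by norm_num)).1 h3
    · exact (key j (by omega) fun h3 => h1
        ((tqd_prime hl).pow_dvd_of_dvd_mul_left _ (tqd_not_two hl h2) h3)).trans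
        (Nat.mul_le_mul_right _ (by norm_num))
  · rw [tqd_zero h]
    exact Nat.zero_le _

theorem cnt_lin_le {l : ℕ} (hl : l.Prime) (k : ℕ) {u : ℤ} (hu : ¬ (l : ℤ) ∣ u) (v : ℤ) :
    cnt (l ^ k) (fun r => (l : ℤ) ^ k ∣ 2 * u * r + v) ≤ 2 := by
  by_cases h : ∃ r0 : ℤ, (l : ℤ) ^ k ∣ 2 * u * r0 + v
  · obtain ⟨r0, h0⟩ := h
    have key : ∀ r, (l : ℤ) ^ k ∣ 2 * u * r + v → (l : ℤ) ^ k ∣ 2 * (r - r0) := fun r hr => by
      have := dvd_sub hr h0
      rw [show 2 * u * r + v - (2 * u * r0 + v) = u * (2 * (r - r0)) by ring] at this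
      exact (tqd_prime hl).pow_dvd_of_dvd_mul_left _ hu this
    by_cases h2 : l = 2
    · subst h2
      cases k with
      | zero => exact (tqd_one hl le_rfl r0 fun r _ => by simp).trans (by norm_num)
      | succ k =>
        refine tqd_one hl (j := 1) (by omega) r0 fun r hr => ?_
        have := key r hr
        rw [pow_succ'] at this
        exact (mul_dvd_mul_iff_left (by norm_num)).1 this
    · exact (tqd_one hl (Nat.zero_le k) r0 fun r hr =>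
        (tqd_prime hl).pow_dvd_of_dvd_mul_left _ (tqd_not_two hl h2) (key r hr)).trans
        (by norm_num)
  · rw [tqd_zero h]
    exact Nat.zero_le _

/-- The number of roots of a quadratic polynomial with unit discriminant. -/
theorem cnt_hensel {l : ℕ} (hl : l.Prime) (h2 : l ≠ 2) {A B C : ℤ} (hA : ¬ (l : ℤ) ∣ A)
    (hd : ¬ (l : ℤ) ∣ B ^ 2 - 4 * A * C) {k : ℕ} (hk : 0 < k) :
    (cnt (l ^ k) (fun y => (l : ℤ) ^ k ∣ A * y ^ 2 + B * y + C) : ℤ) =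
      1 + jacobiSym (B ^ 2 - 4 * A * C) l := by
  have hp := tqd_prime hl
  obtain ⟨k, rfl⟩ := Nat.exists_eq_succ_of_ne_zero hk.ne'
  have h2A : ¬ (l : ℤ) ∣ 2 * A := fun h => (hp.dvd_or_dvd h).elim (tqd_not_two hl h2) hA
  have key : ∀ y, (l : ℤ) ∣ A * y ^ 2 + B * y + C ↔
      (l : ℤ) ∣ (B + 2 * A * y) ^ 2 - (B ^ 2 - 4 * A * C) := fun y => by
    rw [show (B + 2 * A * y) ^ 2 - (B ^ 2 - 4 * A * C) =
      2 * (2 * A * (A * y ^ 2 + B * y + C)) by ring]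
    exact ⟨fun h => (h.mul_left _).mul_left _, fun h =>
      (hp.dvd_or_dvd ((hp.dvd_or_dvd h).resolve_left (tqd_not_two hl h2))).resolve_left h2A⟩
  rw [tqd_lift hl fun y hy h => hd (by
      have h1 := dvd_sub (h.mul_left (2 * A * y + B)) ((key y).1 hy)
      rwa [show (2 * A * y + B) * (2 * A * y + B) - ((B + 2 * A * y) ^ 2 - (B ^ 2 - 4 * A * C)) =
        B ^ 2 - 4 * A * C by ring] at h1),
    tqd_congr key, cnt_affine hl.pos (A := fun z => (l : ℤ) ∣ z ^ 2 - (B ^ 2 - 4 * A * C))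
      (fun x y h1 h3 => by
        have := dvd_sub h3 (h1.mul_right (x + y))
        rwa [show x ^ 2 - (B ^ 2 - 4 * A * C) - (x - y) * (x + y) =
          y ^ 2 - (B ^ 2 - 4 * A * C) by ring] at this) B
      ((hp.irreducible.coprime_iff_not_dvd).2 h2A).symm, tqd_roots hl h2]

theorem cnt_hensel' {l : ℕ} (hl : l.Prime) {A B : ℤ} (hA : (l : ℤ) ∣ A) (hB : ¬ (l : ℤ) ∣ B)
    (C : ℤ) (k : ℕ) : cnt (l ^ k) (fun y => (l : ℤ) ^ k ∣ A * y ^ 2 + B * y + C) = 1 := by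
  classical
  have hp := tqd_prime hl
  cases k with
  | zero => simp [cnt]
  | succ k =>
    have key : ∀ y, (l : ℤ) ∣ A * y ^ 2 + B * y + C ↔ (l : ℤ) ∣ C + B * y := fun y => by
      rw [add_assoc, dvd_add_right (hA.mul_right _), add_comm]
    rw [tqd_lift hl fun y _ h => hB ((dvd_add_right ((hA.mul_left 2).mul_right y)).1 h),
      tqd_congr key, cnt_affine hl.pos (A := fun z => (l : ℤ) ∣ z)
        (fun x y h1 h3 => by simpa using dvd_sub h3 h1) C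
        ((hp.irreducible.coprime_iff_not_dvd).2 hB).symm]
    refine le_antisymm (tqd_le_one fun x y h1 h3 => dvd_sub h1 h3) ?_
    rw [tqd_cnt]
    exact card_pos.2 ⟨0, mem_filter.2 ⟨mem_range.2 hl.pos, by simp⟩⟩

/-- `l ^ j` divides all three coefficients. -/
def Ct (l j : ℕ) (A B C : ℤ) : Prop := (l : ℤ) ^ j ∣ A ∧ (l : ℤ) ^ j ∣ B ∧ (l : ℤ) ^ j ∣ C

theorem three_roots {l : ℕ} (hl : l.Prime) {A B C : ℤ} {s k : ℕ} (h : ¬ Ct l (s + 1) A B C)
    {x y z : ℤ} (hx : (l : ℤ) ^ (s + 2 * k) ∣ A * x ^ 2 + B * x + C)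
    (hy : (l : ℤ) ^ (s + 2 * k) ∣ A * y ^ 2 + B * y + C)
    (hz : (l : ℤ) ^ (s + 2 * k) ∣ A * z ^ 2 + B * z + C) :
    (l : ℤ) ^ k ∣ x - y ∨ (l : ℤ) ^ k ∣ x - z ∨ (l : ℤ) ^ k ∣ y - z := by
  by_contra hn
  push Not at hn
  obtain ⟨n1, n2, n3⟩ := hn
  cases k with
  | zero => exact n1 (by simp)
  | succ m =>
    have e : s + 2 * (m + 1) = s + 2 + m + m := by ring
    have h1 := tqd_diff hx hy
    have h2 := tqd_diff hx hz
    rw [e] at h1 h2
    have h3 := tqd_split hl _ _ _ _ h1 n1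
    have h4 := tqd_split hl _ _ _ _ h2 n2
    have h5 := dvd_sub h3 h4
    rw [show A * (x + y) + B - (A * (x + z) + B) = (y - z) * A by ring] at h5
    have h6 : (l : ℤ) ^ (s + 1) ∣ A :=
      (pow_dvd_pow _ (by omega)).trans (tqd_split hl _ _ _ _ h5 n3)
    have h7 : (l : ℤ) ^ (s + 1) ∣ B :=
      (dvd_add_right (h6.mul_right _)).1 ((pow_dvd_pow _ (by omega)).trans h3)
    exact h ⟨h6, h7, (dvd_add_right (dvd_add (h6.mul_right _) (h7.mul_right _))).1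
      ((pow_dvd_pow _ (by omega)).trans hx)⟩

theorem ct_shift {l : ℕ} (hl : l.Prime) {A B C : ℤ} {s : ℕ} (h : ¬ Ct l (s + 1) A B C) (r : ℤ)
    (μ : ℕ) : ¬ Ct l (s + 2 * μ + 1) (A * (l : ℤ) ^ (2 * μ)) ((2 * A * r + B) * (l : ℤ) ^ μ)
      (A * r ^ 2 + B * r + C) := by
  rintro ⟨h1, h2, h3⟩
  have h0 : ∀ n : ℕ, (l : ℤ) ^ n ≠ 0 := fun n => pow_ne_zero _ (tqd_prime hl).ne_zero
  rw [show s + 2 * μ + 1 = s + 1 + 2 * μ by ring, pow_add] at h1
  rw [show s + 2 * μ + 1 = s + 1 + μ + μ by ring, pow_add] at h2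
  have h4 := (mul_dvd_mul_iff_right (h0 _)).1 h1
  have h5 : (l : ℤ) ^ (s + 1) ∣ B := (dvd_add_right ((h4.mul_left 2).mul_right r)).1
    ((pow_dvd_pow _ (by omega)).trans ((mul_dvd_mul_iff_right (h0 _)).1 h2))
  exact h ⟨h4, h5, (dvd_add_right (dvd_add (h4.mul_right _) (h5.mul_right _))).1
    ((pow_dvd_pow _ (by omega)).trans h3)⟩

theorem tqd_om_per {d e A B C x y : ℤ} (h1 : d ∣ x - y)
    (h2 : ∃ y', d ∣ x - y' ∧ e ∣ A * y' ^ 2 + B * y' + C) :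
    ∃ y', d ∣ y - y' ∧ e ∣ A * y' ^ 2 + B * y' + C := by
  obtain ⟨y', h3, h4⟩ := h2
  refine ⟨y', ?_, h4⟩
  have := dvd_sub h3 h1
  rwa [show x - y' - (x - y) = y - y' by ring] at this

theorem tqd_om {l : ℕ} (hl : l.Prime) {A B C : ℤ} {s : ℕ} (h : ¬ Ct l (s + 1) A B C) (k : ℕ) :
    cnt (l ^ k) (fun y => ∃ y', (l : ℤ) ^ k ∣ y - y' ∧
      (l : ℤ) ^ (s + 2 * k) ∣ A * y' ^ 2 + B * y' + C) ≤ 2 := by
  refine cnt_le_two ?_
  rintro x y z ⟨x', x1, x2⟩ ⟨y', y1, y2⟩ ⟨z', z1, z2⟩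
  have t : ∀ {a b a' b' : ℤ}, (l : ℤ) ^ k ∣ a - a' → (l : ℤ) ^ k ∣ b - b' →
      (l : ℤ) ^ k ∣ a' - b' → (l : ℤ) ^ k ∣ a - b := fun {a b a' b'} h1 h2 h3 => by
    have := dvd_add (dvd_sub h1 h2) h3
    rwa [show a - a' - (b - b') + (a' - b') = a - b by ring] at this
  push_cast
  exact (three_roots hl h x2 y2 z2).imp (t x1 y1) fun h' => h'.imp (t x1 z1) (t y1 z1)

/-- The level structure attached to a quadratic polynomial whose content has order at most `s`. -/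
theorem exists_qlev {l : ℕ} (hl : l.Prime) {A B C : ℤ} {s : ℕ} (h : ¬ Ct l (s + 1) A B C) :
    ∃ Ω : ℕ → ℤ → Prop, Lv l 1 Ω (fun k => k + 1) 2 ∧ ∀ y, A * y ^ 2 + B * y + C ≠ 0 →
      ∃ k, At Ω y k ∧ (l : ℤ) ^ k ∣ A * y ^ 2 + B * y + C ∧
        padicValInt l (A * y ^ 2 + B * y + C) ≤ s + 2 * k + 1 := by
  have : Fact l.Prime := ⟨hl⟩
  have hc := tqd_om hl h
  refine ⟨fun k y => ∃ y', (l : ℤ) ^ k ∣ y - y' ∧ (l : ℤ) ^ (s + 2 * k) ∣ A * y' ^ 2 + B * y' + C,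
    ⟨fun k x y h1 h2 => tqd_om_per h1 h2, fun k _ => hc k, fun k => by positivity,
      fun k => by rw [one_mul], by norm_num, ?_⟩, fun y hy => ?_⟩
  · have h1 := hc 1
    conv at h1 => rw [pow_one l]
    have h2 : (cnt l (fun y => ∃ y', (l : ℤ) ^ 1 ∣ y - y' ∧
      (l : ℤ) ^ (s + 2 * 1) ∣ A * y' ^ 2 + B * y' + C) : ℝ) ≤ 2 := by exact_mod_cast h1
    push_cast
    linarith
  have hv : ∀ n ≤ padicValInt l (A * y ^ 2 + B * y + C), (l : ℤ) ^ n ∣ A * y ^ 2 + B * y + C :=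
    fun n hn => (padicValInt_dvd_iff n _).2 (Or.inr hn)
  generalize padicValInt l (A * y ^ 2 + B * y + C) = v at hv
  by_cases h1 : s + 2 ≤ v
  · exact ⟨(v - s) / 2, ⟨fun e => by omega, fun _ => ⟨y, by simp, hv _ (by omega)⟩⟩,
      hv _ (by omega), by omega⟩
  by_cases h2 : ∃ y', (l : ℤ) ^ 1 ∣ y - y' ∧ (l : ℤ) ^ (s + 2 * 1) ∣ A * y' ^ 2 + B * y' + C
  · refine ⟨1, ⟨fun e => absurd e one_ne_zero, fun _ => h2⟩, ?_, by omega⟩
    obtain ⟨y', h3, h4⟩ := h2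
    exact tqd_poly (dvd_sub_comm.1 h3) ((pow_dvd_pow _ (by omega)).trans h4)
  · exact ⟨0, ⟨fun _ => h2, fun e => absurd e (lt_irrefl 0)⟩, by simp, by omega⟩

/-- The variant for primitive polynomials: level zero means coprime to `l`. -/
theorem exists_qlev' {l : ℕ} (hl : l.Prime) {A B C : ℤ} (h : ¬ Ct l 1 A B C) {K : ℝ}
    (hK : 1 ≤ K) : ∃ Ω : ℕ → ℤ → Prop,
      Lv l K Ω (fun k => if k = 0 then 1 else K * (k + 1)) (4 * K) ∧
      ∀ y, A * y ^ 2 + B * y + C ≠ 0 → ∃ k, At Ω y k ∧ (l : ℤ) ^ k ∣ A * y ^ 2 + B * y + C ∧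
        padicValInt l (A * y ^ 2 + B * y + C) ≤ 2 * k + 1 ∧
        (k = 0 → ¬ (l : ℤ) ∣ A * y ^ 2 + B * y + C) := by
  have : Fact l.Prime := ⟨hl⟩
  have hp := tqd_prime hl
  have hc := tqd_om hl (s := 0) h
  have hc1 : cnt l (fun y => (l : ℤ) ∣ A * y ^ 2 + B * y + C) ≤ 2 := by
    refine cnt_le_two fun x y z hx hy hz => ?_
    by_contra hn
    push Not at hn
    obtain ⟨n1, n2, n3⟩ := hn
    have h3 := (hp.dvd_or_dvd (tqd_diff hx hy)).resolve_left n1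
    have h4 := (hp.dvd_or_dvd (tqd_diff hx hz)).resolve_left n2
    have h5 := dvd_sub h3 h4
    rw [show A * (x + y) + B - (A * (x + z) + B) = (y - z) * A by ring] at h5
    have h6 := (hp.dvd_or_dvd h5).resolve_left n3
    have h7 := (dvd_add_right (h6.mul_right _)).1 h3
    have h8 := (dvd_add_right (dvd_add (h6.mul_right _) (h7.mul_right _))).1 hx
    exact h ⟨by rwa [pow_one], by rwa [pow_one], by rwa [pow_one]⟩
  obtain ⟨Ω, o1, o2⟩ : ∃ Ω : ℕ → ℤ → Prop, (Ω 1 = fun y => (l : ℤ) ∣ A * y ^ 2 + B * y + C) ∧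
      ∀ k, k ≠ 1 → Ω k = fun y => ∃ y', (l : ℤ) ^ k ∣ y - y' ∧
        (l : ℤ) ^ (0 + 2 * k) ∣ A * y' ^ 2 + B * y' + C :=
    ⟨fun k => if k = 1 then fun y => (l : ℤ) ∣ A * y ^ 2 + B * y + C else
      fun y => ∃ y', (l : ℤ) ^ k ∣ y - y' ∧ (l : ℤ) ^ (0 + 2 * k) ∣ A * y' ^ 2 + B * y' + C,
      if_pos rfl, fun k hk => if_neg hk⟩
  refine ⟨Ω, ⟨fun k x y h1 h2 => ?_, fun k _ => ?_, fun k => ?_, fun k => ?_, by simp, ?_⟩,
    fun y hy => ?_⟩
  · by_cases hk : k = 1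
    · subst hk
      rw [o1] at h2 ⊢
      exact tqd_poly (by rwa [pow_one] at h1) h2
    · rw [o2 k hk] at h2 ⊢
      exact tqd_om_per h1 h2
  · by_cases hk : k = 1
    · subst hk
      rw [o1, pow_one]
      exact hc1
    · rw [o2 k hk]
      exact hc k
  · split_ifs
    · exact zero_le_one
    · have : 0 ≤ K := by linarith
      positivity
  · split_ifs with hk
    · subst hk
      simpa using hK
    · exact le_rfl
  · rw [o1, if_neg one_ne_zero]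
    have h2 : (cnt l (fun y => (l : ℤ) ∣ A * y ^ 2 + B * y + C) : ℝ) ≤ 2 := by exact_mod_cast hc1
    have h3 : (0 : ℝ) ≤ cnt l (fun y => (l : ℤ) ∣ A * y ^ 2 + B * y + C) := by positivity
    push_cast
    nlinarith
  have hv : ∀ n, n ≤ padicValInt l (A * y ^ 2 + B * y + C) ↔
      (l : ℤ) ^ n ∣ A * y ^ 2 + B * y + C := fun n => by
    rw [padicValInt_dvd_iff, or_iff_right hy]
  generalize padicValInt l (A * y ^ 2 + B * y + C) = v at hv
  have hv1 := hv 1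
  rw [pow_one] at hv1
  by_cases h1 : 4 ≤ v
  · refine ⟨v / 2, ⟨fun e => by omega, fun _ => ?_⟩, (hv _).1 (by omega), by omega,
      fun e => by omega⟩
    rw [o2 _ (by omega)]
    exact ⟨y, by simp, (hv _).1 (by omega)⟩
  by_cases h2 : 1 ≤ v
  · refine ⟨1, ⟨fun e => absurd e one_ne_zero, fun _ => ?_⟩, (hv _).1 h2, by omega,
      fun e => absurd e one_ne_zero⟩
    rw [o1]
    exact hv1.1 h2
  · refine ⟨0, ⟨fun _ => ?_, fun e => absurd e (lt_irrefl 0)⟩, by simp, by omega,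
      fun _ e => h2 (hv1.2 e)⟩
    rw [o1]
    exact fun e => h2 (hv1.2 e)

/-- The mean of `gcd (r ^ 2 - a, l ^ k)` for `a` of small order. -/
theorem sum_gcd_le {l : ℕ} (hl : l.Prime) (k : ℕ) {u : ℤ} (hu : ¬ (l : ℤ) ∣ u) :
    ∑ r ∈ range (l ^ k), (Int.gcd ((r : ℤ) ^ 2 - 4 * u) (l ^ k) : ℝ) ≤
      8 * (k + 1) * (l : ℝ) ^ k := by
  classical
  have hp := tqd_prime hl
  have h8 : ∀ j, cnt (l ^ j) (fun r => (l : ℤ) ^ j ∣ r ^ 2 - 4 * u) ≤ 8 := by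
    intro j
    by_cases h2 : l = 2
    · subst h2
      refine (cnt_sq_le' hl j 1 fun h => hu ?_).trans (by norm_num)
      obtain ⟨c, hc⟩ := h
      exact ⟨2 * c, by push_cast at hc ⊢; linarith⟩
    · refine (cnt_sq_le' hl j 0 fun h => ?_).trans (by norm_num)
      have h3 : (l : ℤ) ∣ 2 * (2 * u) := by
        rw [← mul_assoc]
        exact (dvd_pow_self _ (by norm_num)).trans h
      exact hu ((hp.dvd_or_dvd ((hp.dvd_or_dvd h3).resolve_left (tqd_not_two hl h2))).resolve_left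
        (tqd_not_two hl h2))
  have h1 : ∀ r ∈ range (l ^ k), (Int.gcd ((r : ℤ) ^ 2 - 4 * u) (l ^ k) : ℝ) ≤
      ∑ j ∈ range (k + 1), if (l : ℤ) ^ j ∣ (r : ℤ) ^ 2 - 4 * u then (l : ℝ) ^ j else 0 := by
    intro r _
    have h2 : Int.gcd ((r : ℤ) ^ 2 - 4 * u) (l ^ k) ∣ l ^ k := by
      have := Int.gcd_dvd_right ((r : ℤ) ^ 2 - 4 * u) ((l : ℤ) ^ k)
      exact Int.natCast_dvd_natCast.1 (by rw [Nat.cast_pow]; exact this)
    obtain ⟨j, hj, e⟩ := (Nat.dvd_prime_pow hl).1 h2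
    have h3 := Int.gcd_dvd_left ((r : ℤ) ^ 2 - 4 * u) ((l : ℤ) ^ k)
    rw [e] at h3 ⊢
    push_cast at h3 ⊢
    have h4 := single_le_sum (s := range (k + 1))
      (f := fun j => if (l : ℤ) ^ j ∣ (r : ℤ) ^ 2 - 4 * u then (l : ℝ) ^ j else 0)
      (fun j _ => by split_ifs <;> positivity) (mem_range.2 (Nat.lt_succ_of_le hj))
    rwa [if_pos h3] at h4
  refine (sum_le_sum h1).trans ?_
  rw [sum_comm]
  refine (sum_le_card_nsmul _ _ (8 * (l : ℝ) ^ k) fun j hj => ?_).trans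
    (le_of_eq (by rw [card_range, nsmul_eq_mul]; push_cast; ring))
  have hj' : j ≤ k := Nat.le_of_lt_succ (mem_range.1 hj)
  have h2 := tqd_per (pow_pos hl.pos j) (l ^ (k - j))
    (A := fun r => (l : ℤ) ^ j ∣ r ^ 2 - 4 * u) (fun _ h => h) fun x y h1 h3 => by
      push_cast at h1
      have := dvd_sub h3 (h1.mul_right (x + y))
      rwa [show x ^ 2 - 4 * u - (x - y) * (x + y) = y ^ 2 - 4 * u by ring] at this
  rw [← pow_add, Nat.add_sub_cancel' hj'] at h2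
  have h3 := h2.trans (Nat.mul_le_mul_left _ (h8 j))
  have h4 : ((range (l ^ k)).filter fun r : ℕ => (l : ℤ) ^ j ∣ (r : ℤ) ^ 2 - 4 * u).card ≤
      l ^ (k - j) * 8 := by
    rwa [tqd_cnt] at h3
  rw [← sum_filter, sum_const, nsmul_eq_mul]
  have h5 : (((range (l ^ k)).filter fun r : ℕ =>
      (l : ℤ) ^ j ∣ (r : ℤ) ^ 2 - 4 * u).card : ℝ) ≤ (l : ℝ) ^ (k - j) * 8 := by exact_mod_cast h4
  calc _ ≤ (l : ℝ) ^ (k - j) * 8 * (l : ℝ) ^ j := by gcongr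
    _ = 8 * (l : ℝ) ^ (k - j + j) := by rw [pow_add]; ring
    _ = _ := by rw [Nat.sub_add_cancel hj']

end Pool.Agent.EQ
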