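import Pool.Agent.P.MP_ad7a55_nt.TTl
import Pool.Agent.P.MP_ad7a55_nt.TLv
import Pool.Agent.P.MP_ad7a55_nt.TQd

/-! The mean of an Euler product over a quadratic family. -/

set_option autoImplicit false

noncomputable section

open Finset

namespace Pool.Agent.EQ

/-- The Euler product attached to `Y ^ 2 - 4 N`. -/
def Ph (K : ℝ) (N : ℤ) (X : ℕ) (Y : ℤ) : ℝ :=
  Real.exp (∑ l ∈ (Nat.primesLE X).filter (fun l : ℕ => ¬ (l : ℤ) ∣ N),
      (jacobiSym (Y ^ 2 - 4 * N) l : ℝ) / l +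
    K * ∑ l ∈ (Y ^ 2 - 4 * N).natAbs.primeFactors, 1 / ((l : ℕ) : ℝ))

theorem Ph_pos (K : ℝ) (N : ℤ) (X : ℕ) (Y : ℤ) : 0 < Ph K N X Y := Real.exp_pos _

theorem tava_exp_le {t M : ℝ} (h : |t| ≤ M) : Real.exp t ≤ 1 + t + t ^ 2 * Real.exp M := by
  have hM : 0 ≤ M := (abs_nonneg t).trans h
  have h1 : 1 - t ≤ Real.exp (-t) := by linarith [Real.add_one_le_exp (-t)]
  have h2 : Real.exp t * Real.exp (-t) = 1 := by rw [← Real.exp_add]; simp
  have h3 : Real.exp t - 1 ≤ t * Real.exp t := by nlinarith [Real.exp_pos t]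
  have h4 : t + 1 ≤ Real.exp t := Real.add_one_le_exp t
  have h5 : Real.exp t ≤ Real.exp M := Real.exp_le_exp.2 ((le_abs_self t).trans h)
  have h6 : 1 ≤ Real.exp M := Real.one_le_exp hM
  rcases le_total 0 t with ht | ht
  · have a1 : t * (Real.exp t - 1) ≤ t * (t * Real.exp t) := mul_le_mul_of_nonneg_left h3 ht
    have a2 : t ^ 2 * Real.exp t ≤ t ^ 2 * Real.exp M :=
      mul_le_mul_of_nonneg_left h5 (sq_nonneg t)
    nlinarith
  · have a1 : (-t) * (1 - Real.exp t) ≤ (-t) * (-t) :=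
      mul_le_mul_of_nonneg_left (by linarith) (by linarith)
    have a2 : t ^ 2 * 1 ≤ t ^ 2 * Real.exp M := mul_le_mul_of_nonneg_left h6 (sq_nonneg t)
    nlinarith

theorem tava_abs_jac (a : ℤ) (l : ℕ) : |(jacobiSym a l : ℝ)| ≤ 1 := by
  rcases jacobiSym.trichotomy a l with h | h | h <;> simp [h]

theorem tava_dvd_sq {l x y : ℤ} (N : ℤ) (h : l ∣ x - y) :
    l ∣ (x ^ 2 - 4 * N) - (y ^ 2 - 4 * N) := by
  have : (x ^ 2 - 4 * N) - (y ^ 2 - 4 * N) = (x - y) * (x + y) := by ring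
  rw [this]
  exact h.mul_right _

theorem tava_jac_per {l : ℕ} {x y : ℤ} (N : ℤ) (h : (l : ℤ) ∣ x - y) :
    jacobiSym (x ^ 2 - 4 * N) l = jacobiSym (y ^ 2 - 4 * N) l :=
  jacobiSym.mod_left' (Int.modEq_iff_dvd.2 (tava_dvd_sq N h)).symm

theorem tava_dvd_per {l x y : ℤ} (N : ℤ) (h : l ∣ x - y) :
    l ∣ x ^ 2 - 4 * N ↔ l ∣ y ^ 2 - 4 * N :=
  dvd_iff_dvd_of_dvd_sub (tava_dvd_sq N h)

theorem tava_not_dvd {l : ℕ} (hl : l.Prime) (h2 : l ≠ 2) {N : ℤ} (hN : ¬ (l : ℤ) ∣ N) :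
    ¬ (l : ℤ) ∣ 4 * N := by
  intro h
  have hp : Prime (l : ℤ) := Nat.prime_iff_prime_int.1 hl
  rcases hp.dvd_or_dvd h with h | h
  · have h4 : l ∣ 2 ^ 2 := by exact_mod_cast h
    exact h2 ((Nat.prime_dvd_prime_iff_eq hl Nat.prime_two).1 (hl.dvd_of_dvd_pow h4))
  · exact hN h

theorem tava_sum_jac {l : ℕ} (hl : l.Prime) (h2 : l ≠ 2) {N : ℤ} (hN : ¬ (l : ℤ) ∣ N) :
    ∑ r ∈ range l, (jacobiSym ((r : ℤ) ^ 2 - 4 * N) l : ℝ) = -1 := by
  have := sum_jac_sq hl h2 (tava_not_dvd hl h2 hN)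
  exact_mod_cast this

theorem tava_roots {l : ℕ} (hl : l.Prime) (a : ℤ) :
    (((range l).filter fun r : ℕ => (l : ℤ) ∣ (r : ℤ) ^ 2 - a).card : ℝ) ≤ 2 := by
  by_cases h2 : l = 2
  · have := card_filter_le (range l) fun r : ℕ => (l : ℤ) ∣ (r : ℤ) ^ 2 - a
    rw [card_range] at this
    have h3 : ((range l).filter fun r : ℕ => (l : ℤ) ∣ (r : ℤ) ^ 2 - a).card ≤ 2 := h2 ▸ this
    exact_mod_cast h3
  · have h := card_sq_roots hl h2 a
    have h3 : (((range l).filter fun r : ℕ => (l : ℤ) ∣ (r : ℤ) ^ 2 - a).card : ℤ) ≤ 2 := by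
      rw [h]
      rcases jacobiSym.trichotomy a l with h | h | h <;> simp [h]
    exact_mod_cast h3

/-- The mean of one local factor. -/
theorem tava_local (K : ℝ) {l : ℕ} (hl : l.Prime) (N : ℤ) {c : ℝ} (hc : |c| ≤ 4)
    (h0 : (l : ℤ) ∣ N → c = 0) :
    ∑ r ∈ range l, Real.exp ((c * (jacobiSym ((r : ℤ) ^ 2 - 4 * N) l : ℝ) +
        (if (l : ℤ) ∣ (r : ℤ) ^ 2 - 4 * N then K else 0)) / l) ≤
      l * Real.exp ((8 + 2 * |K| + (4 + |K|) ^ 2 * Real.exp (4 + |K|)) / (l : ℝ) ^ 2) := by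
  have hl1 : (1 : ℝ) ≤ l := by exact_mod_cast hl.one_le
  have hl0 : (0 : ℝ) < l := by linarith
  have hK : 0 ≤ |K| := abs_nonneg K
  set u : ℕ → ℝ := fun r => c * (jacobiSym ((r : ℤ) ^ 2 - 4 * N) l : ℝ) +
    (if (l : ℤ) ∣ (r : ℤ) ^ 2 - 4 * N then K else 0) with hu
  have hub : ∀ r, |u r| ≤ 4 + |K| := by
    intro r
    refine (abs_add_le _ _).trans (add_le_add ?_ ?_)
    · rw [abs_mul]
      have := tava_abs_jac ((r : ℤ) ^ 2 - 4 * N) l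
      nlinarith [abs_nonneg c, abs_nonneg (jacobiSym ((r : ℤ) ^ 2 - 4 * N) l : ℝ)]
    · split_ifs <;> simp
  have hpt : ∀ r ∈ range l, Real.exp (u r / l) ≤
      1 + u r / l + (4 + |K|) ^ 2 * Real.exp (4 + |K|) / (l : ℝ) ^ 2 := by
    intro r _
    have a1 : |u r / l| ≤ 4 + |K| := by
      rw [abs_div, abs_of_pos hl0]
      exact (div_le_self (abs_nonneg _) hl1).trans (hub r)
    refine (tava_exp_le a1).trans (add_le_add_right ?_ _)
    have a2 : u r ^ 2 ≤ (4 + |K|) ^ 2 := by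
      rw [← sq_abs]
      exact pow_le_pow_left₀ (abs_nonneg _) (hub r) 2
    rw [div_pow, div_mul_eq_mul_div]
    exact div_le_div_of_nonneg_right (mul_le_mul_of_nonneg_right a2 (Real.exp_pos _).le)
      (by positivity)
  have hs1 : ∑ r ∈ range l, c * (jacobiSym ((r : ℤ) ^ 2 - 4 * N) l : ℝ) ≤ 8 := by
    by_cases hN : (l : ℤ) ∣ N
    · simp [h0 hN]
    by_cases h2 : l = 2
    · have : ∀ r ∈ range l, c * (jacobiSym ((r : ℤ) ^ 2 - 4 * N) l : ℝ) ≤ 4 := by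
        intro r _
        refine (le_abs_self _).trans ?_
        rw [abs_mul]
        have := tava_abs_jac ((r : ℤ) ^ 2 - 4 * N) l
        nlinarith [abs_nonneg c, abs_nonneg (jacobiSym ((r : ℤ) ^ 2 - 4 * N) l : ℝ)]
      refine (sum_le_sum this).trans ?_
      rw [sum_const, card_range, h2]
      norm_num
    · rw [← mul_sum, tava_sum_jac hl h2 hN]
      linarith [neg_abs_le c]
  have hs2 : ∑ r ∈ range l, (if (l : ℤ) ∣ (r : ℤ) ^ 2 - 4 * N then K else 0) ≤ 2 * |K| := by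
    rw [← sum_filter, sum_const, nsmul_eq_mul]
    have a1 := tava_roots hl (4 * N)
    have a2 : (0 : ℝ) ≤ (((range l).filter
      fun r : ℕ => (l : ℤ) ∣ (r : ℤ) ^ 2 - 4 * N).card : ℝ) := by positivity
    nlinarith [le_abs_self K]
  have hs : ∑ r ∈ range l, u r ≤ 8 + 2 * |K| := by
    rw [hu, sum_add_distrib]
    linarith
  refine (sum_le_sum hpt).trans ?_
  rw [sum_add_distrib, sum_add_distrib, ← sum_div, sum_const, sum_const, card_range,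
    nsmul_eq_mul, nsmul_eq_mul]
  have a3 := Real.add_one_le_exp
    ((8 + 2 * |K| + (4 + |K|) ^ 2 * Real.exp (4 + |K|)) / (l : ℝ) ^ 2)
  refine le_trans ?_ (mul_le_mul_of_nonneg_left a3 hl0.le)
  have a4 : (∑ r ∈ range l, u r) / l ≤ (8 + 2 * |K|) / l :=
    div_le_div_of_nonneg_right hs hl0.le
  have a5 : (l : ℝ) * ((8 + 2 * |K| + (4 + |K|) ^ 2 * Real.exp (4 + |K|)) / (l : ℝ) ^ 2 + 1) =
      l * 1 + (8 + 2 * |K|) / l + l * ((4 + |K|) ^ 2 * Real.exp (4 + |K|) / (l : ℝ) ^ 2) := by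
    field_simp
    ring
  rw [a5]
  linarith

theorem tava_inv_sq {z : ℕ} (hz : 1 ≤ z) (Q : Finset ℕ) (hQ : ∀ l ∈ Q, z < l) :
    ∑ l ∈ Q, 1 / ((l : ℕ) : ℝ) ^ 2 ≤ 1 / (z : ℝ) := by
  have hsub : Q ⊆ Ioc z (z + Q.sup id) := by
    intro l hl
    have : l ≤ Q.sup id := le_sup (f := id) hl
    exact mem_Ioc.2 ⟨hQ l hl, by omega⟩
  have h1 := sum_Ioc_inv_sq_le_sub (α := ℝ) (k := z) (n := z + Q.sup id) (by omega) (by omega)
  have h2 : (0 : ℝ) ≤ (((z + Q.sup id : ℕ) : ℝ))⁻¹ := by positivity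
  simp only [one_div]
  refine (sum_le_sum_of_subset_of_nonneg hsub fun i _ _ => by positivity).trans ?_
  linarith

theorem tava_Icc (H : ℕ) : Icc (-(H : ℤ)) H = Ico (-(H : ℤ)) (-(H : ℤ) + (2 * H + 1 : ℕ)) := by
  ext x
  simp only [mem_Icc, mem_Ico]
  push_cast
  omega

/-- The small primes. -/
theorem av_small (K : ℝ) : ∃ C : ℝ, 0 < C ∧ ∀ (N : ℤ) (H : ℕ) (Q : Finset ℕ) (c : ℕ → ℝ),
    (∀ l ∈ Q, l.Prime ∧ |c l| ≤ 4 ∧ ((l : ℤ) ∣ N → c l = 0)) → ∏ l ∈ Q, l ≤ H →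
    ∑ Y ∈ Icc (-(H : ℤ)) H, Real.exp (∑ l ∈ Q, (c l * (jacobiSym (Y ^ 2 - 4 * N) l : ℝ) +
        (if (l : ℤ) ∣ Y ^ 2 - 4 * N then K else 0)) / l) ≤ C * H := by
  set B : ℝ := 8 + 2 * |K| + (4 + |K|) ^ 2 * Real.exp (4 + |K|) with hB
  have hB0 : 0 ≤ B := by positivity
  refine ⟨4 * Real.exp B, by positivity, fun N H Q c hQ hH => ?_⟩
  set F : ℕ → ℤ → ℝ := fun l Y => Real.exp ((c l * (jacobiSym (Y ^ 2 - 4 * N) l : ℝ) +
    (if (l : ℤ) ∣ Y ^ 2 - 4 * N then K else 0)) / l) with hF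
  have hper : ∀ (l : ℕ) (x y : ℤ), (l : ℤ) ∣ x - y → F l x = F l y := by
    intro l x y h
    simp only [hF, tava_jac_per N h, tava_dvd_per N h]
  have hq : 0 < ∏ l ∈ Q, l := prod_pos fun l hl => (hQ l hl).1.pos
  have hq' : (0 : ℝ) < ((∏ l ∈ Q, l : ℕ) : ℝ) := by exact_mod_cast hq
  have hH' : ((∏ l ∈ Q, l : ℕ) : ℝ) ≤ H := by exact_mod_cast hH
  have hH1 : (1 : ℝ) ≤ H := by exact_mod_cast hq.trans_le hH
  have h1 := sum_le_period hq (F := fun Y => ∏ l ∈ Q, F l Y)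
    (fun x => prod_nonneg fun l _ => (Real.exp_pos _).le)
    (fun x y h => prod_congr rfl fun l hl => hper l x y
      ((Int.natCast_dvd_natCast.2 (dvd_prod_of_mem (fun l => l) hl)).trans h))
    (-(H : ℤ)) (2 * H + 1)
  have h2 := sum_period_prod Q (fun l hl => (hQ l hl).1) (fun _ => 1) F
    (fun l _ x y h => hper l x y (by simpa using h))
  simp only [pow_one] at h2
  have h3 : ∏ l ∈ Q, ∑ r ∈ range l, F l r ≤ ∏ l ∈ Q, (l * Real.exp (B / (l : ℝ) ^ 2)) :=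
    prod_le_prod (fun l _ => sum_nonneg fun r _ => (Real.exp_pos _).le)
      fun l hl => tava_local K (hQ l hl).1 N (hQ l hl).2.1 (hQ l hl).2.2
  have h4 : ∑ l ∈ Q, B / (l : ℝ) ^ 2 ≤ B := by
    have a1 := tava_inv_sq le_rfl Q fun l hl => (hQ l hl).1.one_lt
    have a2 : ∑ l ∈ Q, B / (l : ℝ) ^ 2 = B * ∑ l ∈ Q, 1 / (l : ℝ) ^ 2 := by
      rw [mul_sum]
      exact sum_congr rfl fun l _ => by ring
    rw [a2]
    have a3 : ∑ l ∈ Q, 1 / (l : ℝ) ^ 2 ≤ 1 := by simpa using a1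
    exact mul_le_of_le_one_right hB0 a3
  rw [prod_mul_distrib, ← Real.exp_sum, ← Nat.cast_prod] at h3
  have h5 : ∏ l ∈ Q, ∑ r ∈ range l, F l r ≤ ((∏ l ∈ Q, l : ℕ) : ℝ) * Real.exp B :=
    h3.trans (mul_le_mul_of_nonneg_left (Real.exp_le_exp.2 h4) hq'.le)
  rw [h2] at h1
  simp only [Real.exp_sum]
  rw [tava_Icc]
  refine h1.trans ((mul_le_mul_of_nonneg_left h5 (by positivity)).trans ?_)
  have h6 : (((2 * H + 1 : ℕ) : ℝ) / ((∏ l ∈ Q, l : ℕ) : ℝ) + 1) *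
      (((∏ l ∈ Q, l : ℕ) : ℝ) * Real.exp B) =
      (2 * H + 1 + ((∏ l ∈ Q, l : ℕ) : ℝ)) * Real.exp B := by
    field_simp
    push_cast
    ring
  rw [h6]
  nlinarith [Real.exp_pos B]

/-- The correlation of two different primes. -/
theorem tava_pair (N : ℤ) (H : ℕ) {l m : ℕ} (hl : l.Prime) (hm : m.Prime) (hl2 : l ≠ 2)
    (hm2 : m ≠ 2) (hlm : l ≠ m) (hlN : ¬ (l : ℤ) ∣ N) (hmN : ¬ (m : ℤ) ∣ N) :
    ∑ Y ∈ Icc (-(H : ℤ)) H, (jacobiSym (Y ^ 2 - 4 * N) l : ℝ) * (jacobiSym (Y ^ 2 - 4 * N) m : ℝ) ≤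
      (2 * H + 1) / ((l : ℝ) * m) + 2 * ((l : ℝ) * m) := by
  have hq : 0 < l * m := Nat.mul_pos hl.pos hm.pos
  have hq1 : (1 : ℝ) ≤ (l : ℝ) * m := by exact_mod_cast hq
  have h1 := sum_le_period hq (F := fun Y => 1 +
      (jacobiSym (Y ^ 2 - 4 * N) l : ℝ) * (jacobiSym (Y ^ 2 - 4 * N) m : ℝ))
    (fun x => by
      have a1 := tava_abs_jac (x ^ 2 - 4 * N) l
      have a2 := tava_abs_jac (x ^ 2 - 4 * N) m
      have a3 := neg_abs_le
        ((jacobiSym (x ^ 2 - 4 * N) l : ℝ) * (jacobiSym (x ^ 2 - 4 * N) m : ℝ))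
      rw [abs_mul] at a3
      nlinarith [abs_nonneg (jacobiSym (x ^ 2 - 4 * N) l : ℝ),
        abs_nonneg (jacobiSym (x ^ 2 - 4 * N) m : ℝ)])
    (fun x y h => by
      have h' : (l : ℤ) * m ∣ x - y := by exact_mod_cast h
      simp only [tava_jac_per N ((dvd_mul_right _ _).trans h'),
        tava_jac_per N ((dvd_mul_left _ _).trans h')])
    (-(H : ℤ)) (2 * H + 1)
  have h2 := sum_period_prod {l, m} (by
      intro p hp
      rcases mem_insert.1 hp with rfl | hp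
      · exact hl
      · rw [mem_singleton.1 hp]; exact hm) (fun _ => 1)
    (fun p Y => (jacobiSym (Y ^ 2 - 4 * N) p : ℝ))
    (fun p _ x y h => by simp only [tava_jac_per N (by simpa using h : (p : ℤ) ∣ x - y)])
  simp only [pow_one, prod_pair hlm] at h2
  rw [tava_sum_jac hl hl2 hlN, tava_sum_jac hm hm2 hmN] at h2
  rw [sum_add_distrib, sum_add_distrib, h2, sum_const, sum_const, card_range, Int.card_Ico,
    nsmul_eq_mul, nsmul_eq_mul, ← tava_Icc] at h1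
  have h3 : (-(H : ℤ) + ((2 * H + 1 : ℕ) : ℤ) - -(H : ℤ)).toNat = 2 * H + 1 := by omega
  rw [h3] at h1
  have h4 : (((2 * H + 1 : ℕ) : ℝ) / ((l * m : ℕ) : ℝ) + 1) * (((l * m : ℕ) : ℝ) * 1 + -1 * -1) =
      ((2 * H + 1 : ℕ) : ℝ) * 1 + (2 * H + 1) / ((l : ℝ) * m) + (l : ℝ) * m + 1 := by
    have hl0 : (l : ℝ) ≠ 0 := by exact_mod_cast hl.ne_zero
    have hm0 : (m : ℝ) ≠ 0 := by exact_mod_cast hm.ne_zero
    push_cast
    field_simp
    ring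
  rw [h4] at h1
  linarith

/-- The variance over the middle range. -/
theorem av_var (N : ℤ) (H z : ℕ) (hz : 2 ≤ z) (Q : Finset ℕ)
    (hQ : ∀ l ∈ Q, l.Prime ∧ z < l ∧ l ^ 4 ≤ H ∧ ¬ (l : ℤ) ∣ N) :
    ∑ Y ∈ Icc (-(H : ℤ)) H, (∑ l ∈ Q, (jacobiSym (Y ^ 2 - 4 * N) l : ℝ) / l) ^ 2 ≤
      6 * H / z + 4 * Real.sqrt H := by
  have hz0 : (0 : ℝ) < z := by exact_mod_cast (by omega : 0 < z)
  have hz1 : (1 : ℝ) ≤ z := by exact_mod_cast (by omega : 1 ≤ z)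
  rcases Q.eq_empty_or_nonempty with rfl | hne
  · simp only [sum_empty, ne_eq, OfNat.ofNat_ne_zero, not_false_eq_true, zero_pow,
      sum_const_zero]
    positivity
  have hmax := hQ _ (Q.max'_mem hne)
  have hH1 : (1 : ℝ) ≤ H := by
    have : 1 ≤ H := (Nat.one_le_pow _ _ hmax.1.pos).trans hmax.2.2.1
    exact_mod_cast this
  have hcard : (Q.card : ℝ) ^ 2 ≤ Real.sqrt H := by
    have a1 : Q ⊆ Icc 1 (Q.max' hne) := fun l hl =>
      mem_Icc.2 ⟨(hQ l hl).1.one_le, Q.le_max' l hl⟩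
    have a2 := card_le_card a1
    rw [Nat.card_Icc, Nat.add_sub_cancel] at a2
    have a3 : Q.card ^ 4 ≤ H := (Nat.pow_le_pow_left a2 4).trans hmax.2.2.1
    have a4 : (Q.card : ℝ) ^ 4 ≤ H := by exact_mod_cast a3
    refine Real.le_sqrt_of_sq_le ?_
    rw [← pow_mul]
    exact a4
  have hs := tava_inv_sq (by omega : 1 ≤ z) Q fun l hl => (hQ l hl).2.1
  have hs0 : 0 ≤ ∑ l ∈ Q, 1 / (l : ℝ) ^ 2 := sum_nonneg fun l _ => by positivity
  have hterm : ∀ l ∈ Q, ∀ m ∈ Q, ∑ Y ∈ Icc (-(H : ℤ)) H,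
      (jacobiSym (Y ^ 2 - 4 * N) l : ℝ) / l * ((jacobiSym (Y ^ 2 - 4 * N) m : ℝ) / m) ≤
      (if l = m then (2 * H + 1) * (1 / (l : ℝ) ^ 2) else 0) +
        (2 * H + 1) * (1 / (l : ℝ) ^ 2 * (1 / (m : ℝ) ^ 2)) + 2 := by
    intro l hl m hm
    have hl0 : (0 : ℝ) < l := by exact_mod_cast (hQ l hl).1.pos
    have hm0 : (0 : ℝ) < m := by exact_mod_cast (hQ m hm).1.pos
    split_ifs with hlm
    · subst hlm
      have a1 : ∀ Y ∈ Icc (-(H : ℤ)) H,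
          (jacobiSym (Y ^ 2 - 4 * N) l : ℝ) / l * ((jacobiSym (Y ^ 2 - 4 * N) l : ℝ) / l) ≤
          1 / (l : ℝ) ^ 2 := by
        intro Y _
        rw [div_mul_div_comm, ← sq, ← sq]
        refine div_le_div_of_nonneg_right ?_ (by positivity)
        exact (sq_le_one_iff_abs_le_one _).2 (tava_abs_jac _ _)
      refine (sum_le_sum a1).trans ?_
      rw [sum_const, Int.card_Icc, nsmul_eq_mul]
      have a2 : ((H : ℤ) + 1 - -(H : ℤ)).toNat = 2 * H + 1 := by omega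
      rw [a2]
      push_cast
      have a3 : (0 : ℝ) ≤ (2 * H + 1) * (1 / (l : ℝ) ^ 2 * (1 / (l : ℝ) ^ 2)) := by positivity
      linarith
    · have a1 := tava_pair N H (hQ l hl).1 (hQ m hm).1 (by have := (hQ l hl).2.1; omega)
        (by have := (hQ m hm).2.1; omega) hlm (hQ l hl).2.2.2 (hQ m hm).2.2.2
      simp only [div_mul_div_comm]
      rw [← sum_div, div_le_iff₀ (by positivity)]
      refine a1.trans (le_of_eq ?_)
      field_simp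
      ring
  rw [sum_congr rfl fun Y _ => (sq _).trans (sum_mul_sum _ _ _ _), sum_comm]
  refine (sum_le_sum fun l hl => (sum_comm.le.trans (sum_le_sum (hterm l hl)))).trans ?_
  have e1 : ∑ l ∈ Q, ∑ m ∈ Q, ((if l = m then (2 * H + 1) * (1 / (l : ℝ) ^ 2) else 0) +
        (2 * H + 1) * (1 / (l : ℝ) ^ 2 * (1 / (m : ℝ) ^ 2)) + 2) =
      (2 * H + 1) * (∑ l ∈ Q, 1 / (l : ℝ) ^ 2) +
        (2 * H + 1) * ((∑ l ∈ Q, 1 / (l : ℝ) ^ 2) * ∑ l ∈ Q, 1 / (l : ℝ) ^ 2) +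
        2 * (Q.card : ℝ) ^ 2 := by
    simp only [sum_add_distrib]
    congr 1
    · congr 1
      · rw [mul_sum]
        exact sum_congr rfl fun l hl => by rw [sum_ite_eq, if_pos hl]
      · rw [sum_mul_sum]
        simp only [mul_sum]
    · simp only [sum_const, nsmul_eq_mul]
      ring
  rw [e1]
  have e2 : (1 : ℝ) / z ≤ 1 := by rw [div_le_one hz0]; exact hz1
  have e3 := (mul_le_of_le_one_right hs0 (hs.trans e2)).trans hs
  have e4 : (0 : ℝ) ≤ 2 * H + 1 := by positivity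
  have e5 := mul_le_mul_of_nonneg_left hs e4
  have e6 := mul_le_mul_of_nonneg_left e3 e4
  have e7 : (2 * H + 1) * ((1 : ℝ) / z) ≤ 3 * H * (1 / z) :=
    mul_le_mul_of_nonneg_right (by linarith) (by positivity)
  have e8 : 6 * (H : ℝ) / z = 2 * (3 * H * (1 / z)) := by ring
  have e9 := Real.sqrt_nonneg (H : ℝ)
  linarith

/-- The large primes. -/
theorem av_large : ∃ C : ℝ, ∀ (N Y : ℤ) (H X : ℕ), 1 ≤ H → N ≠ 0 → |N| ≤ H ^ 2 → |Y| ≤ H →
    ¬ IsSquare (Y ^ 2 - 4 * N) →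
    ∑ l ∈ (Nat.primesLE X).filter (fun l : ℕ => ¬ (l : ℤ) ∣ N ∧ H < l ^ 4),
      (jacobiSym (Y ^ 2 - 4 * N) l : ℝ) / l ≤ C := by
  obtain ⟨C₁, h₁⟩ := range_pow 25
  obtain ⟨C₂, h₂⟩ := tail_le
  refine ⟨1 + C₁ + C₂, fun N Y H X hH hN hNH hY hsq => ?_⟩
  have hex : ∃ v : ℕ, H < v ^ 4 := ⟨H + 1, by nlinarith [Nat.le_self_pow (by norm_num : 4 ≠ 0) (H + 1)]⟩
  set v := Nat.find hex with hv
  have hv1 : H < v ^ 4 := Nat.find_spec hex
  have hv2 : 2 ≤ v := by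
    by_contra h
    have : v ^ 4 ≤ 1 ^ 4 := Nat.pow_le_pow_left (by omega) 4
    omega
  set z := 400 * H ^ 4 with hz
  have hH4 : 1 ≤ H ^ 4 := Nat.one_le_pow _ _ hH
  have hzv : z ≤ v ^ 25 := by
    have a1 : H ^ 4 ≤ (v ^ 4) ^ 4 := Nat.pow_le_pow_left hv1.le 4
    have a2 : 2 ^ 9 ≤ v ^ 9 := Nat.pow_le_pow_left hv2 9
    calc z ≤ v ^ 9 * (v ^ 4) ^ 4 := Nat.mul_le_mul (by omega) a1
      _ = v ^ 25 := by ring
  have hD : (4 * (Y ^ 2 - 4 * N).natAbs) ^ 2 ≤ z := by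
    have a1 : Y ^ 2 ≤ (H : ℤ) ^ 2 := by
      rw [← sq_abs]
      exact pow_le_pow_left₀ (abs_nonneg _) hY 2
    have a2 : |Y ^ 2 - 4 * N| ≤ 5 * (H : ℤ) ^ 2 := by
      rw [abs_le] at hNH ⊢
      constructor <;> nlinarith [sq_nonneg Y]
    have a3 : (Y ^ 2 - 4 * N).natAbs ≤ 5 * H ^ 2 := by
      rw [← Int.natCast_natAbs] at a2
      exact_mod_cast a2
    calc (4 * (Y ^ 2 - 4 * N).natAbs) ^ 2 ≤ (4 * (5 * H ^ 2)) ^ 2 :=
          Nat.pow_le_pow_left (by omega) 2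
      _ = z := by rw [hz]; ring
  have hHz : H ^ 2 ≤ z := by
    have : H ^ 2 ≤ H ^ 4 := Nat.pow_le_pow_right hH (by norm_num)
    omega
  have t2 := h₂ _ _ (rc_jc hsq) z X (by omega) hD
  have t1 := h₁ v z hzv
  rw [← sum_filter_add_sum_filter_not _ (fun l => z < l)]
  have b2 : ∑ l ∈ ((Nat.primesLE X).filter (fun l : ℕ => ¬ (l : ℤ) ∣ N ∧ H < l ^ 4)).filter
      (fun l => z < l), (jacobiSym (Y ^ 2 - 4 * N) l : ℝ) / l =
      ∑ l ∈ (Nat.primesLE X).filter (fun l => z < l), jc (Y ^ 2 - 4 * N) l / l := by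
    refine sum_congr ?_ fun l hl => ?_
    · ext l
      simp only [mem_filter]
      refine ⟨fun h => ⟨h.1.1, h.2⟩, fun h => ⟨⟨h.1, fun hd => ?_, ?_⟩, h.2⟩⟩
      · have a1 := Int.le_of_dvd (abs_pos.2 hN) ((dvd_abs _ _).2 hd)
        have a2 : (l : ℤ) ≤ (H : ℤ) ^ 2 := a1.trans hNH
        have a3 : l ≤ H ^ 2 := by exact_mod_cast a2
        omega
      · have a1 : H ≤ H ^ 2 := Nat.le_self_pow (by norm_num) H
        have a2 : l ≤ l ^ 4 := Nat.le_self_pow (by norm_num) l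
        omega
    · have a1 := mem_filter.1 hl
      have a2 : Odd l := (Nat.mem_primesLE.1 a1.1).2.odd_of_ne_two (by omega)
      rw [jc, if_pos a2]
  have b1 : ∑ l ∈ ((Nat.primesLE X).filter (fun l : ℕ => ¬ (l : ℤ) ∣ N ∧ H < l ^ 4)).filter
      (fun l => ¬ z < l), (jacobiSym (Y ^ 2 - 4 * N) l : ℝ) / l ≤ 1 + C₁ := by
    have a1 : ((Nat.primesLE X).filter (fun l : ℕ => ¬ (l : ℤ) ∣ N ∧ H < l ^ 4)).filter
        (fun l => ¬ z < l) ⊆ insert v ((Nat.primesLE z).filter (fun l => v < l)) := by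
      intro l hl
      simp only [mem_filter, mem_insert, Nat.mem_primesLE] at hl ⊢
      have a2 : v ≤ l := Nat.find_min' hex hl.1.2.2
      rcases a2.eq_or_lt with h | h
      · exact Or.inl h.symm
      · exact Or.inr ⟨⟨by omega, hl.1.1.2⟩, h⟩
    have a2 : (1 : ℝ) / v ≤ 1 := by
      rw [div_le_one (by exact_mod_cast (by omega : 0 < v))]
      exact_mod_cast (by omega : 1 ≤ v)
    refine (sum_le_sum (g := fun l : ℕ => 1 / (l : ℝ)) fun l _ =>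
      div_le_div_of_nonneg_right ((le_abs_self _).trans (tava_abs_jac _ _))
        (by positivity)).trans ?_
    refine (sum_le_sum_of_subset_of_nonneg a1 fun i _ _ => by positivity).trans ?_
    rw [sum_insert (by simp)]
    linarith
  rw [b2]
  linarith

end Pool.Agent.EQ
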