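import Pool.Agent.P.MP_ad7a55_nt.TAvA

/-! The fourth moment. -/

set_option autoImplicit false

noncomputable section

open Finset

namespace Pool.Agent.EQ

theorem tavb_jac_le_one (D : ℤ) (l : ℕ) : (jacobiSym D l : ℝ) ≤ 1 := by
  rcases jacobiSym.trichotomy D l with h | h | h <;> rw [h] <;> norm_num

theorem tavb_jac_le (D : ℤ) (l : ℕ) : (jacobiSym D l : ℝ) / l ≤ 1 / l :=
  div_le_div_of_nonneg_right (tavb_jac_le_one D l) (Nat.cast_nonneg _)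

/-- The coefficient used at the small primes. -/
def tavbC (N : ℤ) (H X : ℕ) (l : ℕ) : ℝ :=
  if l ≤ X ∧ ¬ (l : ℤ) ∣ N ∧ l ^ 4 ≤ H then 4 else 0

/-- The contribution of the small primes. -/
def tavbS (K : ℝ) (N : ℤ) (H X y : ℕ) (Y : ℤ) : ℝ :=
  ∑ l ∈ Nat.primesLE y, (tavbC N H X l * (jacobiSym (Y ^ 2 - 4 * N) l : ℝ) +
    (if (l : ℤ) ∣ Y ^ 2 - 4 * N then 4 * K else 0)) / l

/-- The middle primes. -/
def tavbQ (N : ℤ) (H X z : ℕ) : Finset ℕ :=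
  (Nat.primesLE X).filter (fun l : ℕ => z < l ∧ l ^ 4 ≤ H ∧ ¬ (l : ℤ) ∣ N)

/-- The contribution of the middle primes. -/
def tavbV (N : ℤ) (H X z : ℕ) (Y : ℤ) : ℝ :=
  ∑ l ∈ tavbQ N H X z, (jacobiSym (Y ^ 2 - 4 * N) l : ℝ) / l

theorem tavb_split (N : ℤ) (H X y z : ℕ) (hyz : y ≤ z) (f : ℕ → ℝ) :
    ∑ l ∈ (Nat.primesLE X).filter (fun l : ℕ => ¬ (l : ℤ) ∣ N), f l =
      ∑ l ∈ (Nat.primesLE X).filter (fun l : ℕ => ¬ (l : ℤ) ∣ N ∧ H < l ^ 4), f l +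
      ∑ l ∈ (Nat.primesLE y).filter (fun l : ℕ => l ≤ X ∧ ¬ (l : ℤ) ∣ N ∧ l ^ 4 ≤ H), f l +
      ∑ l ∈ (Nat.primesLE X).filter
        (fun l : ℕ => y < l ∧ l ≤ z ∧ l ^ 4 ≤ H ∧ ¬ (l : ℤ) ∣ N), f l +
      ∑ l ∈ tavbQ N H X z, f l := by
  have e : (Nat.primesLE y).filter (fun l : ℕ => l ≤ X ∧ ¬ (l : ℤ) ∣ N ∧ l ^ 4 ≤ H) =
      (Nat.primesLE X).filter (fun l : ℕ => l ≤ y ∧ ¬ (l : ℤ) ∣ N ∧ l ^ 4 ≤ H) := by
    ext l
    simp only [mem_filter, Nat.mem_primesLE]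
    tauto
  rw [e, tavbQ]
  simp only [sum_filter]
  rw [← sum_add_distrib, ← sum_add_distrib, ← sum_add_distrib]
  refine sum_congr rfl fun l _ => ?_
  by_cases h1 : (l : ℤ) ∣ N
  · simp [h1]
  by_cases h2 : l ^ 4 ≤ H
  · have h2' : ¬ H < l ^ 4 := not_lt.mpr h2
    by_cases h3 : l ≤ y
    · have h3' : ¬ y < l := not_lt.mpr h3
      have h4 : ¬ z < l := by omega
      simp [h1, h2, h2', h3, h3', h4]
    · have h3' : y < l := not_le.mp h3
      by_cases h4 : l ≤ z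
      · have h4' : ¬ z < l := not_lt.mpr h4
        simp [h1, h2, h2', h3, h3', h4, h4']
      · have h4' : z < l := not_le.mp h4
        simp [h1, h2, h2', h3, h3', h4, h4']
  · have h2' : H < l ^ 4 := not_le.mp h2
    simp [h1, h2, h2']

theorem tavb_mid (k : ℕ) : ∃ C : ℝ, ∀ y : ℕ,
    ∑ l ∈ (Nat.primesLE ((y + 2) ^ k)).filter (fun l => y < l), 1 / (l : ℝ) ≤ C := by
  obtain ⟨C, hC⟩ := range_pow k
  refine ⟨2 + C, fun y => ?_⟩
  have h1 := hC (y + 2) ((y + 2) ^ k) le_rfl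
  have hsub : (Nat.primesLE ((y + 2) ^ k)).filter (fun l => y < l) ⊆
      {y + 1, y + 2} ∪ (Nat.primesLE ((y + 2) ^ k)).filter (fun l => y + 2 < l) := by
    intro l hl
    simp only [mem_filter, mem_union, mem_insert, mem_singleton] at hl ⊢
    by_cases h : y + 2 < l
    · exact Or.inr ⟨hl.1, h⟩
    · left; omega
  have hdis : Disjoint ({y + 1, y + 2} : Finset ℕ)
      ((Nat.primesLE ((y + 2) ^ k)).filter (fun l => y + 2 < l)) := by
    rw [disjoint_left]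
    intro l hl hl'
    simp only [mem_filter, mem_insert, mem_singleton] at hl hl'
    omega
  refine (sum_le_sum_of_subset_of_nonneg hsub fun _ _ _ => by positivity).trans ?_
  rw [sum_union hdis, sum_pair (by omega)]
  have hy : (0 : ℝ) ≤ y := Nat.cast_nonneg _
  have a1 : 1 / ((y + 1 : ℕ) : ℝ) ≤ 1 := by
    rw [div_le_one (by positivity)]; push_cast; linarith
  have a2 : 1 / ((y + 2 : ℕ) : ℝ) ≤ 1 := by
    rw [div_le_one (by positivity)]; push_cast; linarith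
  linarith

theorem tavb_log (H : ℕ) : Real.log ((H + 1 : ℕ) : ℝ) ≤ 2 * ((Nat.log 4 H : ℝ) + 1) := by
  have h1 : H + 1 ≤ 4 ^ (Nat.log 4 H + 1) := Nat.lt_pow_succ_log_self (by norm_num) H
  have h2 : ((H + 1 : ℕ) : ℝ) ≤ (4 : ℝ) ^ (Nat.log 4 H + 1) := by exact_mod_cast h1
  have h3 := Real.log_le_log (by positivity) h2
  rw [Real.log_pow] at h3
  have h4 : Real.log 4 ≤ 2 := by
    have : Real.log 4 = 2 * Real.log 2 := by
      rw [show (4 : ℝ) = 2 ^ 2 by norm_num, Real.log_pow]; norm_num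
    have h5 := Real.log_two_lt_d9
    linarith
  have h6 : (0 : ℝ) ≤ (Nat.log 4 H : ℝ) := Nat.cast_nonneg _
  push_cast at h3 ⊢
  nlinarith

theorem tavb_big {D : ℤ} {H : ℕ} (hD : D ≠ 0) (hH : |D| ≤ 5 * (H : ℤ) ^ 2) :
    ∑ l ∈ D.natAbs.primeFactors, 1 / ((l : ℕ) : ℝ) ≤
      ∑ l ∈ Nat.primesLE (Nat.log 4 H), (if (l : ℤ) ∣ D then 1 else 0) / (l : ℝ) + 24 := by
  set y := Nat.log 4 H with hy
  have hy0 : (0 : ℝ) ≤ y := Nat.cast_nonneg _
  have hn : D.natAbs ≠ 0 := Int.natAbs_ne_zero.mpr hD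
  have h1 := sum_big_primeFactors (n := D.natAbs) (z := (y : ℝ) + 1 / 2) (by positivity) hn
  rw [← sum_filter_add_sum_filter_not D.natAbs.primeFactors
    (fun l : ℕ => (y : ℝ) + 1 / 2 < l), add_comm]
  refine add_le_add ?_ (h1.trans ?_)
  · have e : ∑ l ∈ Nat.primesLE y, (if (l : ℤ) ∣ D then 1 else 0) / (l : ℝ) =
        ∑ l ∈ (Nat.primesLE y).filter (fun l : ℕ => (l : ℤ) ∣ D), 1 / (l : ℝ) := by
      rw [sum_filter]
      refine sum_congr rfl fun l _ => ?_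
      split_ifs <;> simp
    rw [e]
    refine sum_le_sum_of_subset_of_nonneg (fun l hl => ?_) fun _ _ _ => by positivity
    simp only [mem_filter, Nat.mem_primeFactors, Nat.mem_primesLE, not_lt] at hl ⊢
    refine ⟨⟨?_, hl.1.1⟩, Int.natCast_dvd.mpr hl.1.2.1⟩
    have h2 : (l : ℝ) < (y : ℝ) + 1 := by linarith [hl.2]
    have h3 : l < y + 1 := by exact_mod_cast h2
    omega
  · have h2 : (D.natAbs : ℝ) ≤ 5 * ((H + 1 : ℕ) : ℝ) ^ 2 := by
      have h3 : (D.natAbs : ℤ) ≤ 5 * ((H + 1 : ℕ) : ℤ) ^ 2 := by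
        rw [Int.natCast_natAbs]
        have : (0 : ℤ) ≤ H := Int.natCast_nonneg _
        push_cast
        nlinarith
      exact_mod_cast h3
    have h4 : (0 : ℝ) < D.natAbs := by exact_mod_cast Nat.pos_of_ne_zero hn
    have h5 := Real.log_le_log h4 h2
    rw [Real.log_mul (by norm_num) (by positivity), Real.log_pow] at h5
    have h6 := tavb_log H
    have h7 : Real.log 5 ≤ 2 := by
      have h8 : Real.log 5 ≤ Real.log (2 ^ 3 * (5 / 8)) := le_of_eq (by norm_num)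
      rw [Real.log_mul (by norm_num) (by norm_num), Real.log_pow] at h8
      have h9 := Real.log_le_sub_one_of_pos (show (0 : ℝ) < 5 / 8 by norm_num)
      have h10 := Real.log_two_lt_d9
      push_cast at h8
      linarith
    rw [div_le_iff₀ (by positivity)]
    rw [← hy] at h6
    push_cast at h5 h6 ⊢
    linarith

theorem tavb_point {K : ℝ} (hK : 0 ≤ K) (k : ℕ) (hk : k ≠ 0) : ∃ C : ℝ, ∀ (N Y : ℤ) (H X : ℕ),
    1 ≤ H → N ≠ 0 → |N| ≤ H ^ 2 → |Y| ≤ H → ¬ IsSquare (Y ^ 2 - 4 * N) →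
    Ph K N X Y ^ 4 ≤ Real.exp C * Real.exp (tavbS K N H X (Nat.log 4 H) Y +
      4 * tavbV N H X ((Nat.log 4 H + 2) ^ k) Y) := by
  obtain ⟨C₁, h₁⟩ := av_large
  obtain ⟨C₂, h₂⟩ := tavb_mid k
  refine ⟨4 * C₁ + 4 * C₂ + 4 * K * 24, fun N Y H X hH hN hNH hY hsq => ?_⟩
  set y := Nat.log 4 H with hy
  have hD : Y ^ 2 - 4 * N ≠ 0 := by
    intro h; rw [h] at hsq; exact hsq IsSquare.zero
  have hDH : |Y ^ 2 - 4 * N| ≤ 5 * (H : ℤ) ^ 2 := by
    have a1 : Y ^ 2 ≤ (H : ℤ) ^ 2 := by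
      rw [← sq_abs Y]; exact pow_le_pow_left₀ (abs_nonneg _) hY 2
    have a2 := abs_le.mp hNH
    rw [abs_le]
    constructor <;> nlinarith [sq_nonneg Y]
  have hyz : y ≤ (y + 2) ^ k := le_trans (by omega) (Nat.le_self_pow hk (y + 2))
  rw [Ph, ← Real.exp_nat_mul, ← Real.exp_add, Real.exp_le_exp,
    tavb_split N H X y ((y + 2) ^ k) hyz]
  have b1 := h₁ N Y H X hH hN hNH hY hsq
  have b2 : ∑ l ∈ (Nat.primesLE X).filter
      (fun l : ℕ => y < l ∧ l ≤ (y + 2) ^ k ∧ l ^ 4 ≤ H ∧ ¬ (l : ℤ) ∣ N),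
        (jacobiSym (Y ^ 2 - 4 * N) l : ℝ) / l ≤ C₂ := by
    refine (sum_le_sum fun l _ => tavb_jac_le _ l).trans (le_trans ?_ (h₂ y))
    refine sum_le_sum_of_subset_of_nonneg (fun l hl => ?_) fun _ _ _ => by positivity
    simp only [mem_filter, Nat.mem_primesLE] at hl ⊢
    exact ⟨⟨hl.2.2.1, hl.1.2⟩, hl.2.1⟩
  have b3 := tavb_big hD hDH
  rw [← hy] at b3
  have b4 : tavbS K N H X y Y =
      4 * ∑ l ∈ (Nat.primesLE y).filter (fun l : ℕ => l ≤ X ∧ ¬ (l : ℤ) ∣ N ∧ l ^ 4 ≤ H),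
        (jacobiSym (Y ^ 2 - 4 * N) l : ℝ) / l +
      4 * K * ∑ l ∈ Nat.primesLE y, (if (l : ℤ) ∣ Y ^ 2 - 4 * N then 1 else 0) / (l : ℝ) := by
    rw [tavbS, sum_filter, mul_sum, mul_sum, ← sum_add_distrib]
    refine sum_congr rfl fun l _ => ?_
    rw [tavbC]
    split_ifs <;> ring
  have b5 := mul_le_mul_of_nonneg_left b3 hK
  rw [b4, tavbV]
  push_cast
  linarith

theorem tavb_crude {K : ℝ} (hK : 0 ≤ K) {k : ℕ} (hk : 8 + 4 * K ≤ k) (N Y : ℤ) (H X z : ℕ) :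
    tavbS K N H X (Nat.log 4 H) Y + 4 * tavbV N H X z Y ≤
      k * ∑ l ∈ Nat.primesLE (H + 1), 1 / (l : ℝ) := by
  have h0 : 0 ≤ ∑ l ∈ Nat.primesLE (H + 1), 1 / (l : ℝ) := sum_nonneg fun _ _ => by positivity
  have h1 : tavbS K N H X (Nat.log 4 H) Y ≤
      (4 + 4 * K) * ∑ l ∈ Nat.primesLE (H + 1), 1 / (l : ℝ) := by
    have hs : Nat.primesLE (Nat.log 4 H) ⊆ Nat.primesLE (H + 1) :=
      Nat.primesLE_mono ((Nat.log_le_self 4 H).trans (Nat.le_succ H))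
    refine le_trans ?_ (mul_le_mul_of_nonneg_left (sum_le_sum_of_subset_of_nonneg hs
      fun _ _ _ => by positivity) (by positivity))
    rw [tavbS, mul_sum]
    refine sum_le_sum fun l _ => ?_
    rw [mul_one_div]
    refine div_le_div_of_nonneg_right (add_le_add ?_ ?_) (Nat.cast_nonneg _)
    · have := tavb_jac_le_one (Y ^ 2 - 4 * N) l
      rw [tavbC]
      split_ifs <;> linarith
    · split_ifs <;> linarith
  have h2 : tavbV N H X z Y ≤ ∑ l ∈ Nat.primesLE (H + 1), 1 / (l : ℝ) := by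
    refine (sum_le_sum fun l _ => tavb_jac_le _ l).trans ?_
    refine sum_le_sum_of_subset_of_nonneg (fun l hl => ?_) fun _ _ _ => by positivity
    simp only [tavbQ, mem_filter, Nat.mem_primesLE] at hl ⊢
    have := Nat.le_self_pow (n := 4) (by norm_num) l
    exact ⟨by omega, hl.1.2⟩
  nlinarith

theorem tavb_log_pow {k : ℕ} (hk : k ≠ 0) {H : ℕ} (hH : 1 ≤ H) :
    Real.log ((H + 1 : ℕ) : ℝ) ^ k ≤ (2 * k) ^ k * (2 * Real.sqrt H) := by
  have hk' : (0 : ℝ) < k := by exact_mod_cast Nat.pos_of_ne_zero hk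
  have hH' : (1 : ℝ) ≤ H := by exact_mod_cast hH
  have hx : (1 : ℝ) ≤ ((H + 1 : ℕ) : ℝ) := by push_cast; linarith
  have h1 := Real.log_le_rpow_div (x := ((H + 1 : ℕ) : ℝ)) (ε := 1 / (2 * k)) (by positivity)
    (by positivity)
  have h2 : Real.log ((H + 1 : ℕ) : ℝ) ≤ 2 * k * ((H + 1 : ℕ) : ℝ) ^ (1 / (2 * k) : ℝ) := by
    refine h1.trans (le_of_eq ?_)
    field_simp
  refine (pow_le_pow_left₀ (Real.log_nonneg hx) h2 k).trans ?_
  rw [mul_pow]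
  refine mul_le_mul_of_nonneg_left ?_ (by positivity)
  rw [← Real.rpow_natCast, ← Real.rpow_mul (by positivity),
    show (1 / (2 * k) : ℝ) * k = 1 / 2 by field_simp, ← Real.sqrt_eq_rpow]
  rw [show 2 * Real.sqrt H = Real.sqrt (2 ^ 2 * H) by
    rw [Real.sqrt_mul (by norm_num), Real.sqrt_sq (by norm_num)]]
  refine Real.sqrt_le_sqrt ?_
  push_cast
  linarith

open Classical in
theorem av_Ph {K : ℝ} (hK : 0 ≤ K) : ∃ C : ℝ, 0 < C ∧ ∀ (N : ℤ) (H X : ℕ), 1 ≤ H → N ≠ 0 →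
    |N| ≤ H ^ 2 →
    ∑ Y ∈ (Icc (-(H : ℤ)) H).filter (fun Y => ¬ IsSquare (Y ^ 2 - 4 * N)), Ph K N X Y ^ 4 ≤
      C * H := by
  obtain ⟨k, hk, hk0⟩ : ∃ k : ℕ, 8 + 4 * K ≤ k ∧ k ≠ 0 := by
    refine ⟨⌈4 * K⌉₊ + 8, ?_, by omega⟩
    have := Nat.le_ceil (4 * K)
    push_cast
    linarith
  obtain ⟨C₀, h₀⟩ := tavb_point hK k hk0
  obtain ⟨C₁, hC₁, h₁⟩ := av_small (4 * K)
  obtain ⟨C₂, hC₂, h₂⟩ := exp_primes_le k
  refine ⟨Real.exp C₀ * (Real.exp 4 * C₁ + C₂ * (6 * 2 ^ k + 8 * (2 * k) ^ k)), by positivity,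
    fun N H X hH hN hNH => ?_⟩
  set y := Nat.log 4 H with hy
  set z := (y + 2) ^ k with hz
  set B := C₂ * Real.log ((H + 1 : ℕ) : ℝ) ^ k with hB
  have hH' : (1 : ℝ) ≤ H := by exact_mod_cast hH
  have hx : (1 : ℝ) ≤ ((H + 1 : ℕ) : ℝ) := by push_cast; linarith
  have hL := Real.log_nonneg hx
  have hB0 : 0 ≤ B := by positivity
  have hz2 : 2 ≤ z := le_trans (by omega) (Nat.le_self_pow hk0 (y + 2))
  have hz0 : (0 : ℝ) < z := by exact_mod_cast (by omega : 0 < z)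
  have p1 : ∀ Y : ℤ, Real.exp (tavbS K N H X y Y + 4 * tavbV N H X z Y) ≤
      Real.exp 4 * Real.exp (tavbS K N H X y Y) + B * tavbV N H X z Y ^ 2 := by
    intro Y
    by_cases hV : tavbV N H X z Y ≤ 1
    · have a1 : Real.exp (tavbS K N H X y Y + 4 * tavbV N H X z Y) ≤
          Real.exp 4 * Real.exp (tavbS K N H X y Y) := by
        rw [← Real.exp_add, Real.exp_le_exp]; linarith
      have a2 : 0 ≤ B * tavbV N H X z Y ^ 2 := by positivity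
      linarith
    · have a1 : Real.exp (tavbS K N H X y Y + 4 * tavbV N H X z Y) ≤ B :=
        (Real.exp_le_exp.mpr (tavb_crude hK hk N Y H X z)).trans (h₂ (H + 1) (by omega))
      have a2 : 1 ≤ tavbV N H X z Y ^ 2 := by nlinarith [not_le.mp hV]
      have a3 : 0 ≤ Real.exp 4 * Real.exp (tavbS K N H X y Y) := by positivity
      nlinarith
  have p2 : ∑ Y ∈ Icc (-(H : ℤ)) H, Real.exp (tavbS K N H X y Y) ≤ C₁ * H := by
    refine h₁ N H (Nat.primesLE y) (tavbC N H X) (fun l hl => ⟨Nat.prime_of_mem_primesLE hl, ?_,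
      fun h => ?_⟩) ?_
    · rw [tavbC]; split_ifs <;> norm_num
    · rw [tavbC, if_neg]; tauto
    · exact (primorial_le_four_pow y).trans (Nat.pow_log_le_self 4 (by omega))
  have p3 : ∑ Y ∈ Icc (-(H : ℤ)) H, tavbV N H X z Y ^ 2 ≤ 6 * H / z + 4 * Real.sqrt H := by
    refine av_var N H z hz2 (tavbQ N H X z) fun l hl => ?_
    simp only [tavbQ, mem_filter, Nat.mem_primesLE] at hl
    exact ⟨hl.1.2, hl.2⟩
  have p4 : Real.log ((H + 1 : ℕ) : ℝ) ^ k * (6 * H / z) ≤ 6 * 2 ^ k * H := by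
    have a1 : Real.log ((H + 1 : ℕ) : ℝ) ≤ 2 * ((y : ℝ) + 2) := by
      have := tavb_log H
      rw [← hy] at this
      linarith
    have a2 := pow_le_pow_left₀ hL a1 k
    have a3 : (z : ℝ) = ((y : ℝ) + 2) ^ k := by rw [hz]; push_cast; ring
    rw [mul_pow, ← a3] at a2
    refine (mul_le_mul_of_nonneg_right a2 (by positivity)).trans (le_of_eq ?_)
    field_simp
  have p5 : Real.log ((H + 1 : ℕ) : ℝ) ^ k * (4 * Real.sqrt H) ≤ 8 * (2 * k) ^ k * H := by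
    have a1 := tavb_log_pow hk0 hH
    have a2 : Real.sqrt H * Real.sqrt H = H := Real.mul_self_sqrt (by positivity)
    calc _ ≤ (2 * k) ^ k * (2 * Real.sqrt H) * (4 * Real.sqrt H) :=
          mul_le_mul_of_nonneg_right a1 (by positivity)
      _ = 8 * (2 * k) ^ k * (Real.sqrt H * Real.sqrt H) := by ring
      _ = _ := by rw [a2]
  calc ∑ Y ∈ (Icc (-(H : ℤ)) H).filter (fun Y => ¬ IsSquare (Y ^ 2 - 4 * N)), Ph K N X Y ^ 4
      ≤ ∑ Y ∈ (Icc (-(H : ℤ)) H).filter (fun Y => ¬ IsSquare (Y ^ 2 - 4 * N)), Real.exp C₀ *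
          (Real.exp 4 * Real.exp (tavbS K N H X y Y) + B * tavbV N H X z Y ^ 2) := by
        refine sum_le_sum fun Y hY => ?_
        simp only [mem_filter, mem_Icc] at hY
        exact (h₀ N Y H X hH hN hNH (abs_le.mpr hY.1) hY.2).trans
          (mul_le_mul_of_nonneg_left (p1 Y) (Real.exp_pos _).le)
    _ ≤ ∑ Y ∈ Icc (-(H : ℤ)) H, Real.exp C₀ *
          (Real.exp 4 * Real.exp (tavbS K N H X y Y) + B * tavbV N H X z Y ^ 2) :=
        sum_le_sum_of_subset_of_nonneg (filter_subset _ _) fun _ _ _ => by positivity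
    _ = Real.exp C₀ * (Real.exp 4 * ∑ Y ∈ Icc (-(H : ℤ)) H, Real.exp (tavbS K N H X y Y) +
          B * ∑ Y ∈ Icc (-(H : ℤ)) H, tavbV N H X z Y ^ 2) := by
        rw [← mul_sum, sum_add_distrib, ← mul_sum, ← mul_sum]
    _ ≤ Real.exp C₀ * (Real.exp 4 * (C₁ * H) + B * (6 * H / z + 4 * Real.sqrt H)) := by
        gcongr
    _ ≤ _ := by
        rw [mul_assoc (Real.exp C₀)]
        refine mul_le_mul_of_nonneg_left ?_ (Real.exp_pos _).le
        have a1 := mul_le_mul_of_nonneg_left (add_le_add p4 p5) hC₂.le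
        rw [hB]
        nlinarith

theorem tavb_young {a b : ℝ} (ha : 0 ≤ a) (hb : 0 ≤ b) : a * b ≤ a ^ (4 / 3 : ℝ) + b ^ 4 := by
  have hpq : (4 / 3 : ℝ).HolderConjugate 4 := by
    rw [Real.holderConjugate_iff]; norm_num
  have h := Real.young_inequality_of_nonneg ha hb hpq
  have e : b ^ (4 : ℝ) = b ^ 4 := by
    rw [← Real.rpow_natCast]; norm_num
  rw [e] at h
  have h1 : 0 ≤ a ^ (4 / 3 : ℝ) := by positivity
  have h2 : 0 ≤ b ^ 4 := by positivity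
  linarith

open Classical in
/-- A periodic factor with small mean of order `4 / 3`. -/
theorem av_mul {K : ℝ} (hK : 0 ≤ K) : ∃ C : ℝ, 0 < C ∧ ∀ (N : ℤ) (H X q : ℕ) (M : ℤ → ℝ) (ρ : ℝ),
    N ≠ 0 → |N| ≤ H ^ 2 → 0 < q → q ≤ H → 0 < ρ → (∀ Y, 0 ≤ M Y) →
    (∀ Y Y', (q : ℤ) ∣ Y - Y' → M Y = M Y') →
    ∑ r ∈ range q, M r ^ (4 / 3 : ℝ) ≤ q * ρ ^ (4 / 3 : ℝ) →
    ∑ Y ∈ (Icc (-(H : ℤ)) H).filter (fun Y => ¬ IsSquare (Y ^ 2 - 4 * N)), M Y * Ph K N X Y ≤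
      C * ρ * H := by
  obtain ⟨C, hC, h⟩ := av_Ph hK
  refine ⟨4 + C, by positivity, fun N H X q M ρ hN hNH hq hqH hρ hM hper hsum => ?_⟩
  have hH : 1 ≤ H := by omega
  have hH' : (1 : ℝ) ≤ H := by exact_mod_cast hH
  have hq' : (0 : ℝ) < q := by exact_mod_cast hq
  have hqH' : (q : ℝ) ≤ H := by exact_mod_cast hqH
  have hr : 0 < ρ ^ (4 / 3 : ℝ) := by positivity
  have p1 := h N H X hH hN hNH
  have p2 : ∑ Y ∈ Icc (-(H : ℤ)) H, M Y ^ (4 / 3 : ℝ) ≤ 4 * H * ρ ^ (4 / 3 : ℝ) := by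
    have a1 := sum_le_period hq (F := fun Y => M Y ^ (4 / 3 : ℝ))
      (fun Y => Real.rpow_nonneg (hM Y) _) (fun Y Y' hY => by rw [hper Y Y' hY]) (-(H : ℤ))
      (2 * H + 1)
    have e : Ico (-(H : ℤ)) (-(H : ℤ) + ((2 * H + 1 : ℕ) : ℤ)) = Icc (-(H : ℤ)) H := by
      ext Y
      simp only [mem_Ico, mem_Icc]
      push_cast
      omega
    rw [e] at a1
    refine a1.trans ((mul_le_mul_of_nonneg_left hsum (by positivity)).trans ?_)
    rw [← mul_assoc]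
    refine mul_le_mul_of_nonneg_right ?_ hr.le
    rw [add_mul, div_mul_cancel₀ _ hq'.ne']
    push_cast
    linarith
  have p3 : ∀ Y, M Y * Ph K N X Y ≤
      ρ / ρ ^ (4 / 3 : ℝ) * M Y ^ (4 / 3 : ℝ) + ρ * Ph K N X Y ^ 4 := by
    intro Y
    have a1 := tavb_young (div_nonneg (hM Y) hρ.le) (Ph_pos K N X Y).le
    rw [Real.div_rpow (hM Y) hρ.le] at a1
    have a2 := mul_le_mul_of_nonneg_left a1 hρ.le
    have e1 : ρ * (M Y / ρ * Ph K N X Y) = M Y * Ph K N X Y := by field_simp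
    rw [e1] at a2
    refine a2.trans (le_of_eq ?_)
    ring
  refine (sum_le_sum fun Y _ => p3 Y).trans ?_
  rw [sum_add_distrib, ← mul_sum, ← mul_sum]
  have p4 : ∑ Y ∈ (Icc (-(H : ℤ)) H).filter (fun Y => ¬ IsSquare (Y ^ 2 - 4 * N)),
      M Y ^ (4 / 3 : ℝ) ≤ 4 * H * ρ ^ (4 / 3 : ℝ) :=
    (sum_le_sum_of_subset_of_nonneg (filter_subset _ _)
      fun Y _ _ => Real.rpow_nonneg (hM Y) _).trans p2
  have p5 := mul_le_mul_of_nonneg_left p4 (div_pos hρ hr).le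
  have e2 : ρ / ρ ^ (4 / 3 : ℝ) * (4 * H * ρ ^ (4 / 3 : ℝ)) = 4 * ρ * H := by field_simp
  rw [e2] at p5
  have p6 := mul_le_mul_of_nonneg_left p1 hρ.le
  nlinarith

end Pool.Agent.EQ
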