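import Pool.Agent.P.MP_ad7a55_nt.SgF

/-! One half of the class number formula, up to a constant. -/

set_option autoImplicit false

noncomputable section

open Finset

namespace Pool.Agent.EQ

/-- A binary form whose discriminant vanishes modulo an odd prime has at least `l` zeros. -/
theorem tcl_good {l : ℕ} [Fact l.Prime] (hl2 : l ≠ 2) {a b c : ℤ}
    (hd : (l : ℤ) ∣ b ^ 2 - 4 * a * c) :
    (((univ : Finset (ZMod l × ZMod l)).filter fun p =>
      (a : ZMod l) * p.1 ^ 2 - b * p.1 * p.2 + c * p.2 ^ 2 ≠ 0).card : ℝ) ≤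
        (l : ℝ) ^ 2 * (1 - 1 / (l : ℝ)) := by
  classical
  have hl : l.Prime := Fact.out
  have h0 : (b : ZMod l) ^ 2 - 4 * a * c = 0 := by
    have := (ZMod.intCast_zmod_eq_zero_iff_dvd _ l).2 hd
    push_cast at this
    exact this
  have h2 : (2 : ZMod l) ≠ 0 := by
    intro h
    have h3 : ((2 : ℕ) : ZMod l) = 0 := by exact_mod_cast h
    rw [ZMod.natCast_eq_zero_iff] at h3
    exact hl2 ((Nat.prime_dvd_prime_iff_eq hl Nat.prime_two).1 h3)
  obtain ⟨x, y, hxy, hq⟩ : ∃ x y : ZMod l, (x ≠ 0 ∨ y ≠ 0) ∧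
      (a : ZMod l) * x ^ 2 - b * x * y + c * y ^ 2 = 0 := by
    by_cases ha : (a : ZMod l) = 0
    · exact ⟨1, 0, Or.inl one_ne_zero, by rw [ha]; ring⟩
    · exact ⟨b, 2 * a, Or.inr (mul_ne_zero h2 ha), by linear_combination (-(a : ZMod l)) * h0⟩
  have hinj : Function.Injective fun t : ZMod l => (t * x, t * y) := by
    intro s t hst
    simp only [Prod.mk.injEq] at hst
    rcases hxy with h | h
    · exact mul_right_cancel₀ h hst.1
    · exact mul_right_cancel₀ h hst.2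
  have hb : l ≤ ((univ : Finset (ZMod l × ZMod l)).filter fun p =>
      ¬ ((a : ZMod l) * p.1 ^ 2 - b * p.1 * p.2 + c * p.2 ^ 2 ≠ 0)).card := by
    have h1 : ((univ : Finset (ZMod l)).image fun t : ZMod l => (t * x, t * y)).card = l := by
      rw [card_image_of_injective _ hinj, card_univ, ZMod.card]
    refine h1.symm.trans_le (card_le_card fun p hp => ?_)
    obtain ⟨t, -, rfl⟩ := mem_image.1 hp
    refine mem_filter.2 ⟨mem_univ _, not_not.2 ?_⟩
    linear_combination t ^ 2 * hq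
  have hs := card_filter_add_card_filter_not (s := (univ : Finset (ZMod l × ZMod l)))
    fun p => (a : ZMod l) * p.1 ^ 2 - b * p.1 * p.2 + c * p.2 ^ 2 ≠ 0
  rw [card_univ, Fintype.card_prod, ZMod.card] at hs
  have hl0 : (l : ℝ) ≠ 0 := by exact_mod_cast hl.ne_zero
  have e : (l : ℝ) ^ 2 * (1 - 1 / (l : ℝ)) = l * l - l := by field_simp
  have hs' := congrArg (Nat.cast : ℕ → ℝ) hs
  have hb' := (Nat.cast_le (α := ℝ)).2 hb
  push_cast at hs'
  rw [e]
  linarith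

/-- The norm form of a lattice with complex multiplication. -/
theorem tcl_form {D : ℤ} {L : Lt} (h : DiscL L D) : ∃ (u v : ℂ) (a b c : ℤ), L = sp u v ∧
    D = b ^ 2 - 4 * a * c ∧ ∀ x y : ℤ, Complex.normSq (x * u + y * v) =
      ((a * x ^ 2 - b * x * y + c * y ^ 2 : ℤ) : ℝ) * nm D L := by
  obtain ⟨c', τ, hc', rfl, a, b, c, ha, -, h, rfl⟩ := h
  refine ⟨c', c' * τ, a, b, c, rfl, rfl, fun x y => ?_⟩
  have i1 : 2 * (a : ℝ) * τ.im = Real.sqrt (-((b ^ 2 - 4 * a * c : ℤ) : ℝ)) := by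
    have := congrArg Complex.im (HasDisc.root ha h)
    rw [ord2_th_im] at this
    rw [← this]
    simp
  have ha' : (0 : ℝ) < a := by exact_mod_cast ha
  have hτ := τ.im_pos
  have i2 : nm (b ^ 2 - 4 * a * c) (sp c' (c' * τ)) * a = Complex.normSq c' := by
    rw [nm, vol_sp hc', ← i1]
    field_simp
  obtain ⟨p1, p2⟩ := ord_parts h
  have e : (x : ℂ) * c' + y * (c' * τ) = c' * (x + y * τ) := by ring
  have e2 : Complex.normSq ((x : ℂ) + y * τ) = (x + y * τ.re) ^ 2 + (y * τ.im) ^ 2 := by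
    rw [Complex.normSq_apply]
    simp only [Complex.add_re, Complex.intCast_re, Complex.mul_re, Complex.intCast_im, zero_mul,
      sub_zero, Complex.add_im, Complex.mul_im, add_zero, zero_add, UpperHalfPlane.coe_re,
      UpperHalfPlane.coe_im]
    ring
  rw [e, map_mul, e2, ← i2]
  generalize nm (b ^ 2 - 4 * a * c) (sp c' (c' * τ)) = ν
  push_cast at p2 ⊢
  have e3 : (a : ℝ) * (a * ((x + y * τ.re) ^ 2 + (y * τ.im) ^ 2)) =
      a * (a * x ^ 2 - b * x * y + c * y ^ 2) := by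
    linear_combination ((a : ℝ) * x * y + y ^ 2 * (2 * a * τ.re - b) / 4) * p1 - (y : ℝ) ^ 2 / 4 * p2
  have e4 := mul_left_cancel₀ ha'.ne' e3
  rw [mul_assoc, e4, mul_comm]

/-- Points of a lattice whose norm is prime to a set of odd primes dividing `D`. -/
theorem tcl_pts {D : ℤ} {L : Lt} (h : DiscL L D) (P : Finset ℕ)
    (hP : ∀ l ∈ P, l.Prime ∧ l ≠ 2 ∧ (l : ℤ) ∣ D) {N : ℕ} (hN : 1 ≤ N) (W : Finset ℂ)
    (hW : ∀ z ∈ W, z ∈ L ∧ ∃ n ≤ N, (∀ l ∈ P, ¬ l ∣ n) ∧ Complex.normSq z = (n : ℕ) * nm D L) :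
    (W.card : ℝ) ≤ 72 * (∏ l ∈ P, (1 - 1 / (l : ℝ))) / Real.sqrt (-(D : ℝ)) * N +
      27 * (∏ l ∈ P, (l : ℝ)) ^ 2 * Real.sqrt N := by
  classical
  have hν := h.nm_pos
  have hv := vol_pos h.isLat
  have hm : 0 < ∏ l ∈ P, l := prod_pos fun l hl => (hP l hl).1.pos
  have hmc : (((∏ l ∈ P, l : ℕ) : ℤ) : ℂ) ≠ 0 := by exact_mod_cast hm.ne'
  obtain ⟨hfin, hcard⟩ := card_pts (h.isLat.pr_mul hmc) hν (fun z hz hz0 => by
    obtain ⟨n, hn⟩ := h.normSq_nat (pr_int_le _ _ hz)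
    have h1 : (1 : ℝ) ≤ n := by
      rcases Nat.eq_zero_or_pos n with rfl | h1
      · exact absurd (Complex.normSq_eq_zero.1 (by simpa using hn)) hz0
      · exact_mod_cast h1
    nlinarith) (Y := 4 * N * nm D L) (by positivity)
  obtain ⟨u, v, a, b, c, hL, hD, hq⟩ := tcl_form h
  have hxy : ∀ z ∈ L, ∃ p : ℤ × ℤ, z = p.1 * u + p.2 * v := fun z hz => by
    rw [hL] at hz
    obtain ⟨x, y, e⟩ := mem_sp.1 hz
    exact ⟨(x, y), e⟩
  choose! xy hxy using hxy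
  have : ∀ l : P, Fact (l : ℕ).Prime := fun l => ⟨(hP l l.2).1⟩
  let G : ∀ l : P, Finset (ZMod l × ZMod l) := fun l => univ.filter fun p =>
    (a : ZMod l) * p.1 ^ 2 - b * p.1 * p.2 + c * p.2 ^ 2 ≠ 0
  let f : ℂ → ∀ l : P, ZMod l × ZMod l := fun z l => (((xy z).1 : ZMod l), ((xy z).2 : ZMod l))
  have h1 := card_le_mul_card_image_of_maps_to (s := W) (t := Fintype.piFinset G) (f := f)
    (fun z hz => by
      obtain ⟨hzL, n, -, hn, e⟩ := hW z hz
      refine Fintype.mem_piFinset.2 fun l => mem_filter.2 ⟨mem_univ _, fun h0 => hn l l.2 ?_⟩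
      have e1 := hq (xy z).1 (xy z).2
      rw [← hxy z hzL, e] at e1
      have e2 : (n : ℤ) = a * (xy z).1 ^ 2 - b * (xy z).1 * (xy z).2 + c * (xy z).2 ^ 2 := by
        exact_mod_cast mul_right_cancel₀ hν.ne' e1
      rw [← Int.natCast_dvd_natCast, e2, ← ZMod.intCast_zmod_eq_zero_iff_dvd]
      push_cast
      exact h0)
    {z | z ∈ pr (((∏ l ∈ P, l : ℕ) : ℤ) : ℂ) * L ∧ Complex.normSq z ≤ 4 * N * nm D L}.ncard
    (fun t _ => by
      rcases (W.filter fun z => f z = t).eq_empty_or_nonempty with h0 | ⟨z₀, hz₀⟩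
      · rw [h0, card_empty]
        exact Nat.zero_le _
      rw [← Set.ncard_coe_finset]
      refine Set.ncard_le_ncard_of_injOn (fun z => z - z₀) (fun z hz => ?_)
        (fun _ _ _ _ e => sub_left_injective e) hfin
      obtain ⟨hz, ez⟩ := mem_filter.1 (mem_coe.1 hz)
      obtain ⟨hz₀, ez₀⟩ := mem_filter.1 hz₀
      obtain ⟨hzL, n, hn, -, e⟩ := hW z hz
      obtain ⟨hzL₀, n₀, hn₀, -, e₀⟩ := hW z₀ hz₀
      have hf : f z₀ = f z := ez₀.trans ez.symm
      have key : ∀ r s : ℤ, (∀ l : P, (r : ZMod l) = s) → ((∏ l ∈ P, l : ℕ) : ℤ) ∣ s - r := by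
        intro r s hrs
        rw [Nat.cast_prod]
        refine Finset.prod_dvd_of_coprime (fun l hl l' hl' hne => ?_) fun l hl => ?_
        · exact Nat.isCoprime_iff_coprime.2
            ((Nat.coprime_primes (hP l hl).1 (hP l' hl').1).2 hne)
        · exact (ZMod.intCast_eq_intCast_iff_dvd_sub _ _ _).1 (hrs ⟨l, hl⟩)
      obtain ⟨r, hr⟩ := key _ _ fun l => congrArg Prod.fst (congrFun hf l)
      obtain ⟨s, hs⟩ := key _ _ fun l => congrArg Prod.snd (congrFun hf l)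
      refine ⟨mem_pr_mul.2 ⟨r * u + s * v, hL ▸ mem_sp.2 ⟨r, s, rfl⟩, ?_⟩, ?_⟩
      · have hr' := congrArg (Int.cast : ℤ → ℂ) hr
        have hs' := congrArg (Int.cast : ℤ → ℂ) hs
        rw [Int.cast_sub, Int.cast_mul] at hr' hs'
        linear_combination hxy z₀ hzL₀ - hxy z hzL - u * hr' - v * hs'
      · have g1 : (n : ℝ) ≤ N := by exact_mod_cast hn
        have g2 : (n₀ : ℝ) ≤ N := by exact_mod_cast hn₀
        have g3 : Complex.normSq (z - z₀) ≤ 2 * Complex.normSq z + 2 * Complex.normSq z₀ := by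
          simp only [Complex.normSq_apply, Complex.sub_re, Complex.sub_im]
          nlinarith [sq_nonneg (z.re + z₀.re), sq_nonneg (z.im + z₀.im)]
        rw [e, e₀] at g3
        nlinarith)
  have h2 : ((Fintype.piFinset G).card : ℝ) ≤
      (∏ l ∈ P, (l : ℝ)) ^ 2 * ∏ l ∈ P, (1 - 1 / (l : ℝ)) := by
    rw [Fintype.card_piFinset, Nat.cast_prod, ← prod_pow, ← prod_mul_distrib,
      ← prod_coe_sort P fun l => (l : ℝ) ^ 2 * (1 - 1 / (l : ℝ))]
    exact prod_le_prod (fun _ _ => Nat.cast_nonneg _) fun l _ =>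
      tcl_good (hP l l.2).2.1 (hD ▸ (hP l l.2).2.2)
  have hr0 : ∀ l ∈ P, 0 ≤ 1 - 1 / (l : ℝ) := fun l hl => by
    have : (1 : ℝ) ≤ l := by exact_mod_cast (hP l hl).1.pos
    exact sub_nonneg.2 ((div_le_one (by linarith)).2 this)
  have h3 : ∏ l ∈ P, (1 - 1 / (l : ℝ)) ≤ 1 :=
    prod_le_one hr0 fun l _ => sub_le_self _ (by positivity)
  have h4 : 0 ≤ ∏ l ∈ P, (1 - 1 / (l : ℝ)) := prod_nonneg hr0
  have hM : (0 : ℝ) < ∏ l ∈ P, (l : ℝ) := prod_pos fun l hl => Nat.cast_pos.2 (hP l hl).1.pos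
  have hs : 0 < Real.sqrt (-(D : ℝ)) := ctB_sqrt_pos h.isD.1
  have h5 : 4 * N * nm D L / vol (pr (((∏ l ∈ P, l : ℕ) : ℤ) : ℂ) * L) =
      8 / Real.sqrt (-(D : ℝ)) * N / (∏ l ∈ P, (l : ℝ)) ^ 2 := by
    rw [vol_pr_mul h.isLat hmc, Complex.normSq_intCast, Int.cast_natCast, Nat.cast_prod, nm]
    field_simp
    ring
  have h6 : Real.sqrt (4 * N * nm D L / nm D L) = 2 * Real.sqrt N := by
    rw [mul_div_cancel_right₀ _ hν.ne', Real.sqrt_mul (by norm_num),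
      show (4 : ℝ) = 2 ^ 2 by norm_num, Real.sqrt_sq (by norm_num)]
  have h7 : (1 : ℝ) ≤ Real.sqrt N := Real.one_le_sqrt.2 (by exact_mod_cast hN)
  rw [h5, h6] at hcard
  have h8 := ((Nat.cast_le (α := ℝ)).2 h1).trans_eq (Nat.cast_mul _ _)
  refine h8.trans ((mul_le_mul hcard h2 (Nat.cast_nonneg _) (by positivity)).trans ?_)
  generalize ∏ l ∈ P, (1 - 1 / (l : ℝ)) = ρ at h3 h4 ⊢
  generalize ∏ l ∈ P, (l : ℝ) = M at hM ⊢
  have e : 9 * (1 + 2 * Real.sqrt N + 8 / Real.sqrt (-(D : ℝ)) * N / M ^ 2) * (M ^ 2 * ρ) =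
      72 * ρ / Real.sqrt (-(D : ℝ)) * N + 9 * (1 + 2 * Real.sqrt N) * M ^ 2 * ρ := by
    field_simp
    ring
  have h9 : 9 * (1 + 2 * Real.sqrt N) * M ^ 2 * ρ ≤ 9 * (1 + 2 * Real.sqrt N) * M ^ 2 :=
    mul_le_of_le_one_right (by positivity) h3
  have h10 : 0 ≤ M ^ 2 * (Real.sqrt N - 1) := mul_nonneg (by positivity) (by linarith)
  rw [e]
  nlinarith

/-- The integral ideals of bounded norm prime to `2 D` in one class. -/
theorem tcl_class {D : ℤ} {Λ : Lt} (h : DiscL Λ D) {N : ℕ} (hN : 1 ≤ N) (T : Finset Lt)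
    (hT : ∀ 𝔞 ∈ T, jL 𝔞 = jL Λ ∧ ∃ n ≤ N, n.Coprime (4 * D.natAbs) ∧ 𝔞 ∈ Idl D n) :
    (T.card : ℝ) ≤ 200 * (∏ l ∈ (4 * D.natAbs).primeFactors, (1 - 1 / (l : ℝ))) /
      Real.sqrt (-(D : ℝ)) * N +
        27 * (∏ l ∈ (4 * D.natAbs).primeFactors.erase 2, (l : ℝ)) ^ 2 * Real.sqrt N := by
  classical
  have hν := h.nm_pos
  have hc : nm D (cj Λ) = nm D Λ := nm_cj h.isLat D
  have hex : ∀ 𝔞 ∈ T, ∃ w : ℂ, pr (w / nm D Λ) * Λ = 𝔞 ∧ w ∈ cj Λ ∧
      ∃ n ≤ N, n.Coprime (4 * D.natAbs) ∧ Complex.normSq w = (n : ℕ) * nm D (cj Λ) := by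
    intro 𝔞 ha
    obtain ⟨hj, n, hn, hco, hd, hle, hnm⟩ := hT 𝔞 ha
    obtain ⟨c, hc0, rfl⟩ := jL_inj h.isLat hd.isLat hj.symm
    have hν' : (nm D Λ : ℂ) ≠ 0 := by exact_mod_cast hν.ne'
    refine ⟨c * nm D Λ, by simp only [mul_div_cancel_right₀ _ hν'], ?_, n, hn, hco, ?_⟩
    · have h1 : pr c * (pr (nm D Λ) * OD D) ≤ cj Λ := by
        rw [← h.mul_cj_nm, ← mul_assoc]
        exact (mul_le_mul_left hle _).trans h.cj.OD_mul.le
      exact h1 (mem_pr_mul.2 ⟨nm D Λ, mem_pr_mul.2 ⟨1, one_mem_OD D, mul_one _⟩, rfl⟩)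
    · rw [nm_pr_mul h.isLat D hc0] at hnm
      rw [map_mul, Complex.normSq_ofReal, ← mul_assoc, hnm, hc]
  choose! w hw using hex
  have h1 : (T.image w).card = T.card := card_image_of_injOn fun 𝔞 ha 𝔟 hb e => by
    rw [← (hw 𝔞 ha).1, e, (hw 𝔟 hb).1]
  have hq : 4 * D.natAbs ≠ 0 := (Nat.mul_pos (by norm_num) (Int.natAbs_pos.2 h.isD.1.ne)).ne'
  have h2 := tcl_pts h.cj ((4 * D.natAbs).primeFactors.erase 2) (fun l hl => by
    obtain ⟨h3, h4⟩ := mem_erase.1 hl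
    have h5 := Nat.prime_of_mem_primeFactors h4
    refine ⟨h5, h3, Int.natCast_dvd.2 ?_⟩
    refine ((Nat.Prime.dvd_mul h5).1 (Nat.dvd_of_mem_primeFactors h4)).resolve_left fun h6 => ?_
    exact h3 ((Nat.prime_dvd_prime_iff_eq h5 Nat.prime_two).1
      (h5.dvd_of_dvd_pow (show l ∣ 2 ^ 2 from h6)))) hN (T.image w) (fun z hz => by
    obtain ⟨𝔞, ha, rfl⟩ := mem_image.1 hz
    obtain ⟨-, h3, n, hn, hco, e⟩ := hw 𝔞 ha
    refine ⟨h3, n, hn, fun l hl hd => ?_, e⟩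
    have h4 := (mem_erase.1 hl).2
    exact (Nat.prime_of_mem_primeFactors h4).one_lt.ne'
      (Nat.eq_one_of_dvd_coprimes hco hd (Nat.dvd_of_mem_primeFactors h4)))
  have h3 := mul_prod_erase (4 * D.natAbs).primeFactors (fun l => 1 - 1 / (l : ℝ))
    (a := 2) (Nat.mem_primeFactors.2 ⟨Nat.prime_two, ⟨2 * D.natAbs, by ring⟩, hq⟩)
  have h4 : 0 ≤ ∏ l ∈ (4 * D.natAbs).primeFactors.erase 2, (1 - 1 / (l : ℝ)) :=
    prod_nonneg fun l hl => by
      have : (1 : ℝ) ≤ l := by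
        exact_mod_cast (Nat.prime_of_mem_primeFactors (mem_erase.1 hl).2).pos
      exact sub_nonneg.2 ((div_le_one (by linarith)).2 this)
  rw [h1] at h2
  refine h2.trans (add_le_add_left ?_ _)
  refine mul_le_mul_of_nonneg_right (div_le_div_of_nonneg_right ?_ (Real.sqrt_nonneg _))
    (Nat.cast_nonneg _)
  rw [← h3]
  push_cast
  linarith

theorem sum_Idl_cop {D : ℤ} (hD : IsD D) : ∃ β : ℝ, 0 ≤ β ∧ ∀ N : ℕ,
    ∑ n ∈ (Icc 1 N).filter (fun n => n.Coprime (4 * D.natAbs)), ((Idl D n).ncard : ℝ) ≤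
      200 * (∏ l ∈ (4 * D.natAbs).primeFactors, (1 - 1 / (l : ℝ))) * (Cl D).ncard /
        Real.sqrt (-(D : ℝ)) * N + β * Real.sqrt N := by
  classical
  have _ := hD
  refine ⟨27 * (∏ l ∈ (4 * D.natAbs).primeFactors.erase 2, (l : ℝ)) ^ 2 * (Cl D).ncard,
    by positivity, fun N => ?_⟩
  rcases Nat.eq_zero_or_pos N with rfl | hN
  · simp
  have h1 : (((Icc 1 N).filter (fun n => n.Coprime (4 * D.natAbs))).biUnion
      fun n => (Idl_finite D n).toFinset).card =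
      ∑ n ∈ (Icc 1 N).filter (fun n => n.Coprime (4 * D.natAbs)), (Idl D n).ncard := by
    rw [Finset.card_biUnion]
    · exact Finset.sum_congr rfl fun n _ => (Set.ncard_eq_toFinset_card _ _).symm
    · intro m _ n _ hmn
      rw [Function.onFun, Finset.disjoint_left]
      intro 𝔞 hm hn
      rw [Set.Finite.mem_toFinset] at hm hn
      exact hmn (by exact_mod_cast hm.2.2.symm.trans hn.2.2)
  have hm : ∀ 𝔞 ∈ ((Icc 1 N).filter (fun n => n.Coprime (4 * D.natAbs))).biUnion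
      fun n => (Idl_finite D n).toFinset,
      ∃ n ≤ N, n.Coprime (4 * D.natAbs) ∧ 𝔞 ∈ Idl D n := fun 𝔞 ha => by
    obtain ⟨n, hn, ha⟩ := Finset.mem_biUnion.1 ha
    obtain ⟨hn, hco⟩ := mem_filter.1 hn
    exact ⟨n, (Finset.mem_Icc.1 hn).2, hco, (Set.Finite.mem_toFinset _).1 ha⟩
  generalize (((Icc 1 N).filter (fun n => n.Coprime (4 * D.natAbs))).biUnion
      fun n => (Idl_finite D n).toFinset) = T at h1 hm
  have h2 := Finset.card_eq_sum_card_fiberwise (f := jL) (s := T) (t := (Cl_finite D).toFinset)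
    fun 𝔞 ha => by
      obtain ⟨n, -, -, hn⟩ := hm 𝔞 ha
      exact (Set.Finite.mem_toFinset _).2 ⟨𝔞, hn.1, rfl⟩
  rw [← Nat.cast_sum, ← h1, h2, Nat.cast_sum]
  refine (Finset.sum_le_card_nsmul _ _
    (200 * (∏ l ∈ (4 * D.natAbs).primeFactors, (1 - 1 / (l : ℝ))) / Real.sqrt (-(D : ℝ)) * N +
      27 * (∏ l ∈ (4 * D.natAbs).primeFactors.erase 2, (l : ℝ)) ^ 2 * Real.sqrt N)
    fun z hz => ?_).trans_eq ?_
  · obtain ⟨Λ, hΛ, rfl⟩ := (Set.Finite.mem_toFinset _).1 hz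
    exact tcl_class hΛ hN _ fun 𝔞 ha =>
      ⟨(Finset.mem_filter.1 ha).2, hm 𝔞 (Finset.mem_filter.1 ha).1⟩
  · rw [nsmul_eq_mul, ← Set.ncard_eq_toFinset_card _ (Cl_finite D)]
    ring

open Filter Topology in
/-- The residue at one, with the Euler factors kept. -/
theorem tcl_res {q : ℕ} [NeZero q] {ψ : DirichletCharacter ℂ q} (hψ : ψ ≠ 1) {α β : ℝ}
    (h : ∀ s : ℝ, 1 < s → s ≤ 2 → ‖(1 : DirichletCharacter ℂ q).LFunction s * ψ.LFunction s‖ ≤
      α / (s - 1) + β) : (∏ l ∈ q.primeFactors, (1 - 1 / (l : ℝ))) * ‖ψ.LFunction 1‖ ≤ α := by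
  have ht0 : Tendsto (fun y : ℝ => (y : ℂ)) (𝓝[>] 1) (𝓝 1) := by
    have := (Complex.continuous_ofReal.tendsto 1).mono_left
      (nhdsWithin_le_nhds (s := Set.Ioi 1))
    simpa using this
  have ht : Tendsto (fun y : ℝ => (y : ℂ)) (𝓝[>] 1) (𝓝[≠] 1) := by
    refine tendsto_nhdsWithin_iff.2 ⟨ht0, ?_⟩
    filter_upwards [self_mem_nhdsWithin] with y hy
    simp only [Set.mem_compl_iff, Set.mem_singleton_iff]
    exact_mod_cast (ne_of_gt hy)
  have h1 := (((DirichletCharacter.LFunctionTrivChar_residue_one (N := q)).comp ht).mul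
    (((DirichletCharacter.differentiable_LFunction hψ).continuous.tendsto 1).comp ht0)).norm
  have h2 : Tendsto (fun s : ℝ => α + β * (s - 1)) (𝓝[>] 1) (𝓝 α) := by
    have : Continuous fun s : ℝ => α + β * (s - 1) := by fun_prop
    simpa using (this.tendsto 1).mono_left (nhdsWithin_le_nhds (s := Set.Ioi 1))
  have h3 := le_of_tendsto_of_tendsto h1 h2 (by
    filter_upwards [Ioc_mem_nhdsGT (show (1 : ℝ) < 2 by norm_num)] with s hs
    have h4 : 0 < s - 1 := by linarith [hs.1]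
    have h5 : ‖(s : ℂ) - 1‖ = s - 1 := by
      rw [← Complex.ofReal_one, ← Complex.ofReal_sub, Complex.norm_real, Real.norm_of_nonneg h4.le]
    simp only [Function.comp]
    rw [mul_assoc, norm_mul, h5]
    refine (mul_le_mul_of_nonneg_left (h s hs.1 hs.2) h4.le).trans_eq ?_
    field_simp)
  have h4 : ∏ l ∈ q.primeFactors, (1 - (l : ℂ)⁻¹) =
      ((∏ l ∈ q.primeFactors, (1 - 1 / (l : ℝ)) : ℝ) : ℂ) := by
    push_cast
    simp only [one_div]
  rw [norm_mul, h4, Complex.norm_real, Real.norm_eq_abs] at h3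
  exact (mul_le_mul_of_nonneg_right (le_abs_self _) (norm_nonneg _)).trans h3

theorem tcl_chi {D : ℤ} (hD : D < 0) [NeZero (4 * D.natAbs)] : sgeChi D ≠ 1 ∧ sgeChi D ^ 2 = 1 ∧
    ∀ l : ℕ, l.Prime → sgeChi D l = 1 → ¬ (l : ℤ) ∣ 2 * D ∧ IsSquare (D : ZMod l) := by
  have h0 : 0 < D.natAbs := Int.natAbs_pos.2 hD.ne
  refine ⟨fun h => ?_, MulChar.isQuadratic_iff_sq_eq_one.1 fun x => ?_, fun l hl h => ?_⟩
  · obtain ⟨n, hn⟩ : ∃ n, n + 1 = 4 * D.natAbs := ⟨4 * D.natAbs - 1, by omega⟩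
    have h1 := sgeChi_nat D n
    have h2 := sge_jac hn
    rw [show -(D.natAbs : ℤ) = D by omega] at h2
    rw [if_pos (Nat.odd_iff.2 (by omega)), h2, h] at h1
    by_cases hu : IsUnit (n : ZMod (4 * D.natAbs))
    · rw [MulChar.one_apply hu] at h1
      norm_num at h1
    · rw [MulChar.map_nonunit _ hu] at h1
      norm_num at h1
  · obtain ⟨a, rfl⟩ := ZMod.natCast_zmod_surjective x
    rw [sgeChi_nat]
    split_ifs
    · rcases jacobiSym.trichotomy D a with h | h | h <;> simp [h]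
    · exact Or.inl rfl
  · rw [sgeChi_nat] at h
    split_ifs at h with ho
    · have h1 : jacobiSym D l = 1 := by exact_mod_cast h
      have : Fact l.Prime := ⟨hl⟩
      refine ⟨fun hd => ?_, ZMod.isSquare_of_jacobiSym_eq_one h1⟩
      rcases (Nat.prime_iff_prime_int.1 hl).dvd_or_dvd hd with h2 | h2
      · have h3 : l ∣ 2 := by exact_mod_cast h2
        rw [(Nat.prime_dvd_prime_iff_eq hl Nat.prime_two).1 h3] at ho
        exact absurd ho (by decide)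
      · have h3 : jacobiSym D l = 0 := by
          refine jacobiSym.eq_zero_iff.2 ⟨hl.ne_zero, fun h4 => ?_⟩
          have h5 := Int.dvd_gcd h2 (dvd_refl (l : ℤ))
          rw [h4] at h5
          exact hl.one_lt.ne' (Nat.dvd_one.1 h5)
        omega
    · exact absurd h zero_ne_one

theorem class_ge {D : ℤ} (hD : IsD D) [NeZero (4 * D.natAbs)] :
    Real.sqrt (-(D : ℝ)) * ‖(sgeChi D).LFunction 1‖ ≤ 1200 * (Cl D).ncard := by
  classical
  obtain ⟨hχ, hχ2, hl⟩ := tcl_chi hD.1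
  obtain ⟨β, hβ, hS⟩ := sum_Idl_cop hD
  have hs : 0 < Real.sqrt (-(D : ℝ)) := ctB_sqrt_pos hD.1
  have hρ : 0 < ∏ l ∈ (4 * D.natAbs).primeFactors, (1 - 1 / (l : ℝ)) :=
    prod_pos fun l hl => by
      have : (1 : ℝ) < l := by exact_mod_cast (Nat.prime_of_mem_primeFactors hl).one_lt
      exact sub_pos.2 ((div_lt_one (by linarith)).2 this)
  have h1 := tcl_res hχ
    (α := 6 * (200 * (∏ l ∈ (4 * D.natAbs).primeFactors, (1 - 1 / (l : ℝ))) * (Cl D).ncard /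
      Real.sqrt (-(D : ℝ)))) (β := 8 * β) (fun s h1 h2 => sf_prod 1 (sgeChi D)
      (fun n => if n.Coprime (4 * D.natAbs) then ((Idl D n).ncard : ℝ) else 0)
      (fun n hn => by
        split_ifs with hc
        · exact coeff_le_Idl hD _ hχ2 hl hn
        · rw [sum_eq_zero, norm_zero]
          intro x hx
          by_cases hu : IsUnit (x.1 : ZMod (4 * D.natAbs))
          · rw [MulChar.map_nonunit (sgeChi D), mul_zero]
            intro hu'
            rw [ZMod.isUnit_iff_coprime] at hu hu'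
            exact hc ((Nat.mem_divisorsAntidiagonal.1 hx).1 ▸ Nat.Coprime.mul_left hu hu')
          · rw [MulChar.map_nonunit _ hu, zero_mul]) h1
      (tsum_le_of_partial _ (fun _ => by split_ifs <;> positivity) (by positivity) hβ
        (fun N => by rw [← sum_filter]; exact hS N) h1 h2))
  generalize ∏ l ∈ (4 * D.natAbs).primeFactors, (1 - 1 / (l : ℝ)) = ρ at hρ h1
  have e : 6 * (200 * ρ * (Cl D).ncard / Real.sqrt (-(D : ℝ))) =
      ρ * (1200 * (Cl D).ncard / Real.sqrt (-(D : ℝ))) := by ring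
  rw [e] at h1
  have h2 := le_of_mul_le_mul_left h1 hρ
  rwa [le_div_iff₀' hs] at h2

end Pool.Agent.EQ
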