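import Pool.Agent.P.MP_ad7a55_nt.Vol

/-! Norms and products of lattices. -/

set_option autoImplicit false

noncomputable section

open MeasureTheory Topology Filter UpperHalfPlane
open scoped MatrixGroups ENNReal BoundedContinuousFunction

namespace Pool.Agent.EQ

/-- The integral ideal attached to a vector. -/
theorem DiscL.mem_Idl {Λ : Lt} {D : ℤ} (h : DiscL Λ D) {w : ℂ} (hw : w ∈ Λ) (hw0 : w ≠ 0) {n : ℕ}
    (hn : Complex.normSq w = n * nm D Λ) :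
    pr (starRingEnd ℂ w / nm D Λ) * Λ ∈ Idl D n := by
  have hν := h.nm_pos
  have hν' : ((nm D Λ : ℝ) : ℂ) ≠ 0 := by exact_mod_cast hν.ne'
  have hc : starRingEnd ℂ w / nm D Λ ≠ 0 := div_ne_zero (by simpa using hw0) hν'
  refine ⟨h.pr_mul hc, pr_mul_le.2 fun v hv => ?_, ?_⟩
  · have h1 : v * starRingEnd ℂ w ∈ Λ * Pool.Agent.EQ.cj Λ :=
      Submodule.mul_mem_mul hv (mem_cj.2 (by simpa using hw))
    rw [h.mul_cj_nm] at h1
    obtain ⟨x, hx, e⟩ := mem_pr_mul.1 h1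
    have e' : starRingEnd ℂ w / nm D Λ * v = x := by
      field_simp
      linear_combination -e
    rwa [e']
  · rw [nm_pr_mul h.isLat D hc, map_div₀, Complex.normSq_conj, Complex.normSq_ofReal, hn]
    field_simp

/-- A sublattice of index `n` contains `n` times the big lattice. -/
theorem exists_index {Λ Λ' : Lt} (h : IsLat Λ) (h' : IsLat Λ') (hle : Λ' ≤ Λ) :
    ∃ n : ℕ, 0 < n ∧ vol Λ' = n * vol Λ ∧ pr n * Λ ≤ Λ' := by
  obtain ⟨c, τ, hc, rfl⟩ := h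
  obtain ⟨c', τ', hc', rfl⟩ := h'
  obtain ⟨s, r, hrs⟩ := mem_sp.1 (hle (ord_left _ _))
  obtain ⟨q, p, hpq⟩ := mem_sp.1 (hle (ord_right _ _))
  have e1 : Complex.normSq c' * τ'.im = (starRingEnd ℂ c' * (c' * τ')).im := by
    rw [← mul_assoc, mul_comm (starRingEnd ℂ c'), Complex.mul_conj]
    simp
  have e2 : (starRingEnd ℂ c' * (c' * τ')).im =
      ((s * p - r * q : ℤ) : ℝ) * (Complex.normSq c * τ.im) := by
    rw [hpq]
    conv_lhs => rw [hrs]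
    simp only [map_add, map_mul, map_intCast, Complex.add_im, Complex.mul_im, Complex.add_re,
      Complex.mul_re, Complex.intCast_re, Complex.intCast_im, Complex.conj_re, Complex.conj_im,
      Complex.normSq_apply, coe_re, coe_im]
    push_cast
    ring
  have p1 : 0 < Complex.normSq c * τ.im := mul_pos (Complex.normSq_pos.2 hc) τ.im_pos
  have p2 : 0 < Complex.normSq c' * τ'.im := mul_pos (Complex.normSq_pos.2 hc') τ'.im_pos
  have p3 : (0 : ℝ) < ((s * p - r * q : ℤ) : ℝ) := by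
    rw [e1, e2] at p2
    exact (mul_pos_iff_of_pos_right p1).1 p2
  have p4 : 0 < s * p - r * q := by exact_mod_cast p3
  obtain ⟨n, hn⟩ := Int.eq_ofNat_of_zero_le p4.le
  have hn' : (n : ℂ) = s * p - r * q := by exact_mod_cast hn.symm
  refine ⟨n, by omega, ?_, ?_⟩
  · rw [vol_sp hc, vol_sp hc', e1, e2, hn]
    simp
  · rw [pr_mul_sp, ord_sp_le]
    refine ⟨mem_sp.2 ⟨p, -r, ?_⟩, mem_sp.2 ⟨-q, s, ?_⟩⟩
    · push_cast
      linear_combination c * hn' - (p : ℂ) * hrs + (r : ℂ) * hpq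
    · push_cast
      linear_combination (c * τ) * hn' + (q : ℂ) * hrs - (s : ℂ) * hpq

/-- Cancellation of invertible modules in class identities. -/
theorem jL_mul_congr {D D' : ℤ} {𝔞 𝔟 Λ M : Lt} (ha : DiscL 𝔞 D) (hb : DiscL 𝔟 D)
    (hΛ : DiscL Λ D') (hM : DiscL M D') (hle : OD D ≤ OD D') (h1 : jL 𝔞 = jL 𝔟)
    (h2 : jL Λ = jL M) : jL (𝔞 * Λ) = jL (𝔟 * M) := by
  obtain ⟨c, hc, rfl⟩ := jL_inj ha.isLat hb.isLat h1
  obtain ⟨c', hc', rfl⟩ := jL_inj hΛ.isLat hM.isLat h2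
  rw [mul_mul_mul_comm, pr_mul_pr, jL_pr_mul (ha.mul hΛ hle).isLat (mul_ne_zero hc hc')]

theorem jL_cj_congr {Λ M : Lt} (hΛ : IsLat Λ) (hM : IsLat M) (h : jL Λ = jL M) :
    jL (cj Λ) = jL (cj M) := by
  obtain ⟨c, hc, rfl⟩ := jL_inj hΛ hM h
  rw [cj_mul, cj_pr, jL_pr_mul hΛ.cj.1 (by simpa using hc)]

/-- Orders with coprime relative conductors. -/
theorem OD_mul_OD {E : ℤ} (hE : IsD E) {g₁ g₂ : ℕ} (hg : Nat.Coprime g₁ g₂) :
    OD (g₁ ^ 2 * E) * OD (g₂ ^ 2 * E) = OD E := by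
  apply le_antisymm
  · exact (mul_le_mul' (OD_sq_le hE g₁) (OD_sq_le hE g₂)).trans (discL_OD hE).OD_mul.le
  · obtain ⟨u, v, huv⟩ := Nat.isCoprime_iff_coprime.2 hg
    have huv' : (u : ℂ) * g₁ + v * g₂ = 1 := by exact_mod_cast huv
    have m1 : (g₁ : ℂ) * ((E + th E) / 2) ∈ OD (g₁ ^ 2 * E) := by
      rw [OD_sq_mul hE]; exact ord_right _ _
    have m2 : (g₂ : ℂ) * ((E + th E) / 2) ∈ OD (g₂ ^ 2 * E) := by
      rw [OD_sq_mul hE]; exact ord_right _ _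
    have o1 := one_mem_OD (g₁ ^ 2 * E)
    have o2 := one_mem_OD (g₂ ^ 2 * E)
    refine ord_sp_le.2 ⟨by simpa using Submodule.mul_mem_mul o1 o2, ?_⟩
    have h1 := add_mem (Submodule.smul_mem _ u (Submodule.mul_mem_mul m1 o2))
      (Submodule.smul_mem _ v (Submodule.mul_mem_mul o1 m2))
    have e : u • ((g₁ : ℂ) * ((E + th E) / 2) * 1) + v • (1 * ((g₂ : ℂ) * ((E + th E) / 2))) =
        (E + th E) / 2 := by
      simp only [zsmul_eq_mul]
      linear_combination ((E + th E) / 2) * huv'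
    rwa [e] at h1

theorem discL_mul_cop {E : ℤ} (hE : IsD E) {g₁ g₂ : ℕ} (hg : Nat.Coprime g₁ g₂) {M₁ M₂ : Lt}
    (h₁ : DiscL M₁ (g₁ ^ 2 * E)) (h₂ : DiscL M₂ (g₂ ^ 2 * E)) :
    DiscL (M₁ * M₂) E ∧ nm E (M₁ * M₂) = nm (g₁ ^ 2 * E) M₁ * nm (g₂ ^ 2 * E) M₂ ∧
      M₁ * M₂ = (M₁ * OD E) * (M₂ * OD E) := by
  have hO := discL_OD hE
  have e : M₁ * M₂ = M₁ * (M₂ * OD E) := by
    conv_lhs => rw [← h₁.OD_mul, ← h₂.OD_mul]
    rw [mul_mul_mul_comm, OD_mul_OD hE hg, mul_comm (OD E), mul_assoc]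
  have d2 : DiscL (M₂ * OD E) E := h₂.mul hO (OD_sq_le hE g₂)
  refine ⟨e ▸ h₁.mul d2 (OD_sq_le hE g₁), ?_, ?_⟩
  · rw [e, nm_mul h₁ d2 (OD_sq_le hE g₁), nm_mul h₂ hO (OD_sq_le hE g₂), nm_OD hE, mul_one]
  · rw [mul_mul_mul_comm, hO.OD_mul, mul_assoc, ← e]

/-- Passing to the bigger order. -/
theorem discL_up {E : ℤ} (hE : IsD E) {g : ℕ} {M : Lt} (h : DiscL M (g ^ 2 * E)) :
    DiscL (M * OD E) E ∧ vol M = g * vol (M * OD E) ∧ M ≤ M * OD E ∧ pr g * (M * OD E) ≤ M := by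
  have hO := discL_OD hE
  have hg : (g : ℝ) ≠ 0 := by
    have := h.isD.1
    rintro h0
    have h1 : g = 0 := by exact_mod_cast h0
    subst h1
    simp at this
  have hE' : (0 : ℝ) < Real.sqrt (-(E : ℝ)) := by
    have : (E : ℝ) < 0 := by exact_mod_cast hE.1
    exact Real.sqrt_pos.2 (by linarith)
  refine ⟨h.mul hO (OD_sq_le hE g), ?_, ?_, ?_⟩
  · have h1 := nm_mul h hO (OD_sq_le hE g)
    have h2 : -(((g : ℤ) ^ 2 * E : ℤ) : ℝ) = (g : ℝ) ^ 2 * -(E : ℝ) := by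
      push_cast
      ring
    rw [nm_OD hE, mul_one, nm, nm, h2, Real.sqrt_mul (sq_nonneg _),
      Real.sqrt_sq (Nat.cast_nonneg g)] at h1
    field_simp at h1
    linarith
  · intro v hv
    simpa using Submodule.mul_mem_mul hv (one_mem_OD E)
  · have h1 : pr g * OD E ≤ OD (g ^ 2 * E) := by
      rw [OD_sq_mul hE, OD, pr_mul_sp, ord_sp_le]
      exact ⟨mem_sp.2 ⟨g, 0, by simp⟩, ord_right _ _⟩
    rw [mul_left_comm, mul_comm]
    exact (mul_le_mul_left h1 M).trans h.OD_mul.le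

end Pool.Agent.EQ
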