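import Pool.Agent.P.MP_ad7a55_nt.CtA
import Pool.Agent.P.MP_ad7a55_nt.Vol2

/-! Elementary counts. -/

set_option autoImplicit false

noncomputable section

open Finset

namespace Pool.Agent.EQ

theorem tmx_img {α β : Type} {S : Set β} (T : Finset α) (f : α → β)
    (h : ∀ s ∈ S, ∃ t ∈ T, f t = s) : S.Finite ∧ S.ncard ≤ T.card := by
  have hs : S ⊆ f '' (T : Set α) := fun s hs => by
    obtain ⟨t, ht, e⟩ := h s hs
    exact ⟨t, Finset.mem_coe.2 ht, e⟩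
  have hf : (f '' (T : Set α)).Finite := T.finite_toSet.image f
  refine ⟨hf.subset hs, (Set.ncard_le_ncard hs hf).trans ?_⟩
  rw [← Set.ncard_coe_finset T]
  exact Set.ncard_image_le T.finite_toSet

theorem tmx_img' {α β : Type} {S : Set β} {T : Set α} (hT : T.Finite) (f : α → β)
    (h : ∀ s ∈ S, ∃ t ∈ T, f t = s) : S.Finite ∧ S.ncard ≤ T.ncard := by
  have := tmx_img (S := S) hT.toFinset f fun s hs => by
    obtain ⟨t, ht, e⟩ := h s hs
    exact ⟨t, hT.mem_toFinset.2 ht, e⟩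
  rwa [← Set.ncard_eq_toFinset_card T hT] at this

theorem tmx_fib {α β : Type} {S : Set α} {T : Set β} (hT : T.Finite) (R : α → β → Prop)
    (h : ∀ a ∈ S, ∃ b ∈ T, R a b) {m : ℕ}
    (hm : ∀ b ∈ T, {a | a ∈ S ∧ R a b}.Finite ∧ {a | a ∈ S ∧ R a b}.ncard ≤ m) :
    S.Finite ∧ S.ncard ≤ m * T.ncard := by
  classical
  have hS : S ⊆ ⋃ b ∈ T, {a | a ∈ S ∧ R a b} := fun a ha => by
    obtain ⟨b, hb, e⟩ := h a ha
    exact Set.mem_biUnion hb ⟨ha, e⟩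
  have hf : S.Finite := (hT.biUnion fun b hb => (hm b hb).1).subset hS
  refine ⟨hf, ?_⟩
  rw [Set.ncard_eq_toFinset_card S hf, Set.ncard_eq_toFinset_card T hT]
  have h1 : hf.toFinset ⊆ hT.toFinset.biUnion fun b => hf.toFinset.filter fun a => R a b := by
    intro a ha
    obtain ⟨b, hb, e⟩ := h a (hf.mem_toFinset.1 ha)
    exact Finset.mem_biUnion.2 ⟨b, hT.mem_toFinset.2 hb, Finset.mem_filter.2 ⟨ha, e⟩⟩
  refine (Finset.card_le_card h1).trans (Finset.card_biUnion_le.trans ?_)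
  rw [mul_comm, ← smul_eq_mul]
  refine Finset.sum_le_card_nsmul _ _ _ fun b hb => ?_
  have h2 := (hm b (hT.mem_toFinset.1 hb)).2
  have e : {a | a ∈ S ∧ R a b} = ((hf.toFinset.filter fun a => R a b : Finset α) : Set α) := by
    ext a
    simp
  rwa [e, Set.ncard_coe_finset] at h2

theorem tmx_pairs {m : ℤ} (hm : m ≠ 0) : {p : ℤ × ℤ | p.1 * p.2 = m}.Finite ∧
    {p : ℤ × ℤ | p.1 * p.2 = m}.ncard ≤ 2 * m.natAbs.divisors.card := by
  have := tmx_img (S := {p : ℤ × ℤ | p.1 * p.2 = m}) (({1, -1} : Finset ℤ) ×ˢ m.natAbs.divisors)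
    (fun t => (t.1 * t.2, m / (t.1 * t.2))) fun p hp => by
      have e : p.1 * p.2 = m := hp
      have h1 : p.1 ≠ 0 := by
        intro h
        rw [h, zero_mul] at e
        exact hm e.symm
      have h2 : p.1.natAbs ∈ m.natAbs.divisors :=
        Nat.mem_divisors.2 ⟨Int.natAbs_dvd_natAbs.2 ⟨p.2, e.symm⟩, Int.natAbs_ne_zero.2 hm⟩
      have h3 : m / p.1 = p.2 := by rw [← e, Int.mul_ediv_cancel_left _ h1]
      rcases Int.natAbs_eq p.1 with h | h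
      · refine ⟨(1, p.1.natAbs), Finset.mem_product.2 ⟨by simp, h2⟩, ?_⟩
        have : (1 : ℤ) * p.1.natAbs = p.1 := by omega
        simp only [this, h3]
      · refine ⟨(-1, p.1.natAbs), Finset.mem_product.2 ⟨by simp, h2⟩, ?_⟩
        have : (-1 : ℤ) * p.1.natAbs = p.1 := by omega
        simp only [this, h3]
  rw [Finset.card_product] at this
  exact this

theorem card_deg {N : ℤ} (hN : N ≠ 0) : {Y : ℤ | IsSquare (Y ^ 2 - 4 * N)}.Finite ∧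
    {Y : ℤ | IsSquare (Y ^ 2 - 4 * N)}.ncard ≤ 2 * (4 * N.natAbs).divisors.card := by
  obtain ⟨h1, h2⟩ := tmx_pairs (m := 4 * N) (by omega)
  have h3 := tmx_img' (S := {Y : ℤ | IsSquare (Y ^ 2 - 4 * N)}) h1 (fun p => (p.1 + p.2) / 2)
    fun Y hY => by
      obtain ⟨s, hs⟩ := hY
      refine ⟨(Y - s, Y + s), ?_, ?_⟩
      · show (Y - s) * (Y + s) = 4 * N
        linear_combination hs
      · show (Y - s + (Y + s)) / 2 = Y
        omega
  have e : (4 * N).natAbs = 4 * N.natAbs := by rw [Int.natAbs_mul]; rfl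
  rw [e] at h2
  exact ⟨h3.1, h3.2.trans h2⟩

theorem tmx_mat {N : ℤ} (hN : N ≠ 0) (h K : ℕ) (hK : ∀ n : ℕ, 0 < n → n ≤ 8 * h ^ 2 → n.divisors.card ≤ K) :
    {η : Matrix (Fin 2) (Fin 2) ℤ | η.det = N ∧ (∀ i j, |η i j| ≤ h) ∧
      IsSquare (η.trace ^ 2 - 4 * N)}.Finite ∧
    {η : Matrix (Fin 2) (Fin 2) ℤ | η.det = N ∧ (∀ i j, |η i j| ≤ h) ∧
      IsSquare (η.trace ^ 2 - 4 * N)}.ncard ≤ 24 * K ^ 2 * h := by
  obtain ⟨S, hS⟩ : ∃ S : Set (Matrix (Fin 2) (Fin 2) ℤ), S = {η : Matrix (Fin 2) (Fin 2) ℤ | η.det = N ∧ (∀ i j, |η i j| ≤ h) ∧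
      IsSquare (η.trace ^ 2 - 4 * N)} := ⟨_, rfl⟩
  rw [← hS]
  rcases S.eq_empty_or_nonempty with h0 | ⟨η₀, hη₀⟩
  · rw [h0]
    simp
  have hmul : ∀ x y : ℤ, |x| ≤ h → |y| ≤ h → |x * y| ≤ (h : ℤ) ^ 2 := fun x y hx hy => by
    rw [abs_mul, sq]
    exact mul_le_mul hx hy (abs_nonneg _) (by positivity)
  have hN2 : |N| ≤ 2 * (h : ℤ) ^ 2 := by
    rw [hS] at hη₀
    obtain ⟨e, hb, -⟩ := hη₀
    rw [← e, Matrix.det_fin_two]
    have a1 := hmul _ _ (hb 0 0) (hb 1 1)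
    have a2 := hmul _ _ (hb 0 1) (hb 1 0)
    have a3 := abs_sub (η₀ 0 0 * η₀ 1 1) (η₀ 0 1 * η₀ 1 0)
    linarith
  have hN3 : N.natAbs ≤ 2 * h ^ 2 := by
    have : (N.natAbs : ℤ) ≤ 2 * (h : ℤ) ^ 2 := by rwa [Int.natCast_natAbs]
    exact_mod_cast this
  have hNp : 0 < N.natAbs := Int.natAbs_pos.2 hN
  have hh : 1 ≤ h := by
    rcases Nat.eq_zero_or_pos h with h0 | h0
    · rw [h0] at hN3
      omega
    · exact h0
  have hI : (Finset.Icc (-(h : ℤ)) h).card = 2 * h + 1 := by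
    rw [Int.card_Icc]
    omega
  -- matrices with nonzero off-diagonal product
  obtain ⟨d1, d2⟩ := card_deg hN
  have hT : ({Y : ℤ | IsSquare (Y ^ 2 - 4 * N)} ×ˢ ((Finset.Icc (-(h : ℤ)) h : Finset ℤ) : Set ℤ)).Finite :=
    d1.prod (Finset.finite_toSet _)
  have A := tmx_fib (S := {η | η ∈ S ∧ η 0 1 * η 1 0 ≠ 0}) hT
    (fun η t => η.trace = t.1 ∧ η 0 0 = t.2) (m := 2 * K) (fun η hη => by
      have h1 := hη.1
      rw [hS] at h1
      exact ⟨(η.trace, η 0 0), ⟨h1.2.2, Finset.mem_coe.2 (Finset.mem_Icc.2 (abs_le.1 (h1.2.1 0 0)))⟩,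
        rfl, rfl⟩) (fun t _ => by
      rcases Set.eq_empty_or_nonempty {η : Matrix (Fin 2) (Fin 2) ℤ |
          η ∈ {η : Matrix (Fin 2) (Fin 2) ℤ | η ∈ S ∧ η 0 1 * η 1 0 ≠ 0} ∧
            (η.trace = t.1 ∧ η 0 0 = t.2)} with h0 | ⟨η₁, hη₁⟩
      · rw [h0]
        simp
      have key : ∀ η : Matrix (Fin 2) (Fin 2) ℤ, η ∈ S → η.trace = t.1 → η 0 0 = t.2 →
          η 1 1 = t.1 - t.2 ∧ η 0 1 * η 1 0 = t.2 * (t.1 - t.2) - N := fun η a1 a2 a3 => by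
        rw [hS] at a1
        have e := a1.1
        rw [Matrix.det_fin_two] at e
        rw [Matrix.trace_fin_two] at a2
        have e2 : η 1 1 = t.1 - t.2 := by linarith
        refine ⟨e2, ?_⟩
        rw [← e2, ← a3]
        linarith
      obtain ⟨⟨b1, b2⟩, b3, b4⟩ := hη₁
      have b5 := (key η₁ b1 b3 b4).2
      have hm : t.2 * (t.1 - t.2) - N ≠ 0 := b5 ▸ b2
      obtain ⟨p1, p2⟩ := tmx_pairs hm
      have b6 : (t.2 * (t.1 - t.2) - N).natAbs ≤ 8 * h ^ 2 := by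
        rw [hS] at b1
        have a2 := hmul _ _ (b1.2.1 0 1) (b1.2.1 1 0)
        rw [b5, ← Int.natCast_natAbs] at a2
        have : (t.2 * (t.1 - t.2) - N).natAbs ≤ h ^ 2 := by exact_mod_cast a2
        omega
      have b7 := hK _ (Int.natAbs_pos.2 hm) b6
      have q := tmx_img' (S := {η : Matrix (Fin 2) (Fin 2) ℤ |
          η ∈ {η : Matrix (Fin 2) (Fin 2) ℤ | η ∈ S ∧ η 0 1 * η 1 0 ≠ 0} ∧
            (η.trace = t.1 ∧ η 0 0 = t.2)}) p1 (fun p => !![t.2, p.1; p.2, t.1 - t.2])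
        fun η hη => by
          obtain ⟨⟨c1, -⟩, c3, c4⟩ := hη
          obtain ⟨c5, c6⟩ := key η c1 c3 c4
          refine ⟨(η 0 1, η 1 0), c6, ?_⟩
          rw [← c5, ← c4]
          exact (Matrix.eta_fin_two η).symm
      exact ⟨q.1, q.2.trans (p2.trans (by omega))⟩)
  -- matrices with zero off-diagonal product
  obtain ⟨p1, p2⟩ := tmx_pairs hN
  have B := tmx_fib (S := {η | η ∈ S ∧ η 0 1 * η 1 0 = 0}) p1
    (fun η t => η 0 0 = t.1 ∧ η 1 1 = t.2) (m := 2 * (2 * h + 1)) (fun η hη => by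
      have h1 := hη.1
      rw [hS] at h1
      have e := h1.1
      have e2 : η 0 1 * η 1 0 = 0 := hη.2
      rw [Matrix.det_fin_two, e2, sub_zero] at e
      exact ⟨(η 0 0, η 1 1), e, rfl, rfl⟩) (fun t _ => by
      have q := tmx_img (S := {η : Matrix (Fin 2) (Fin 2) ℤ |
          η ∈ {η : Matrix (Fin 2) (Fin 2) ℤ | η ∈ S ∧ η 0 1 * η 1 0 = 0} ∧
            (η 0 0 = t.1 ∧ η 1 1 = t.2)}) (({0, 1} : Finset ℤ) ×ˢ Finset.Icc (-(h : ℤ)) h)
        (fun p => !![t.1, p.1 * p.2; (1 - p.1) * p.2, t.2]) fun η hη => by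
          obtain ⟨⟨c1, c2⟩, c3, c4⟩ := hη
          rw [hS] at c1
          rcases mul_eq_zero.1 c2 with c | c
          · refine ⟨(0, η 1 0), Finset.mem_product.2 ⟨by simp,
              Finset.mem_Icc.2 (abs_le.1 (c1.2.1 1 0))⟩, ?_⟩
            rw [Matrix.eta_fin_two η, ← c3, ← c4]
            simp [c]
          · refine ⟨(1, η 0 1), Finset.mem_product.2 ⟨by simp,
              Finset.mem_Icc.2 (abs_le.1 (c1.2.1 0 1))⟩, ?_⟩
            rw [Matrix.eta_fin_two η, ← c3, ← c4]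
            simp [c]
      rw [Finset.card_product, hI] at q
      exact q)
  have hU : S = {η | η ∈ S ∧ η 0 1 * η 1 0 ≠ 0} ∪ {η | η ∈ S ∧ η 0 1 * η 1 0 = 0} := by
    ext η
    simp only [Set.mem_union, Set.mem_ofPred_eq]
    tauto
  have k1 := hK (4 * N.natAbs) (by omega) (by omega)
  have k2 := hK N.natAbs hNp (by omega)
  have A2 := A.2
  rw [Set.ncard_prod, Set.ncard_coe_finset, hI] at A2
  have B2 := B.2
  refine ⟨hU ▸ A.1.union B.1, ?_⟩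
  have k3 : K ≤ K ^ 2 := by
    rw [sq]
    exact Nat.le_mul_self K
  calc S.ncard ≤ {η | η ∈ S ∧ η 0 1 * η 1 0 ≠ 0}.ncard + {η | η ∈ S ∧ η 0 1 * η 1 0 = 0}.ncard := by
        conv_lhs => rw [hU]
        exact Set.ncard_union_le _ _
    _ ≤ 2 * K * (2 * K * (3 * h)) + 2 * (3 * h) * (2 * K ^ 2) := by
        refine add_le_add (A2.trans ?_) (B2.trans ?_)
        · exact Nat.mul_le_mul_left _ (Nat.mul_le_mul (by omega) (by omega))
        · exact Nat.mul_le_mul (by omega) (by omega)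
    _ = 24 * K ^ 2 * h := by ring

theorem card_mat {ε : ℝ} (hε : 0 < ε) : ∃ C : ℝ, 0 < C ∧ ∀ (N : ℤ) (H : ℝ), N ≠ 0 → 0 ≤ H →
    {η : Matrix (Fin 2) (Fin 2) ℤ | η.det = N ∧ (∀ i j, |(η i j : ℝ)| ≤ H) ∧
      IsSquare (η.trace ^ 2 - 4 * N)}.Finite ∧
    ({η : Matrix (Fin 2) (Fin 2) ℤ | η.det = N ∧ (∀ i j, |(η i j : ℝ)| ≤ H) ∧
      IsSquare (η.trace ^ 2 - 4 * N)}.ncard : ℝ) ≤ C * H ^ (1 + ε) := by
  obtain ⟨C, hC, hd⟩ := div_bound (ε := ε / 4) (by positivity)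
  refine ⟨24 * (C * 8 ^ (ε / 4)) ^ 2, by positivity, fun N H hN hH => ?_⟩
  have hfl : (⌊H⌋₊ : ℝ) ≤ H := Nat.floor_le hH
  have hK : ∀ n : ℕ, 0 < n → n ≤ 8 * ⌊H⌋₊ ^ 2 →
      n.divisors.card ≤ ⌊C * (8 * H ^ 2) ^ (ε / 4)⌋₊ := fun n h0 hn => by
    refine Nat.le_floor ((hd n h0).trans (mul_le_mul_of_nonneg_left ?_ hC.le))
    refine Real.rpow_le_rpow (by positivity) ?_ (by positivity)
    have : (n : ℝ) ≤ 8 * (⌊H⌋₊ : ℝ) ^ 2 := by exact_mod_cast hn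
    refine this.trans ?_
    gcongr
  obtain ⟨m1, m2⟩ := tmx_mat hN ⌊H⌋₊ _ hK
  have e : {η : Matrix (Fin 2) (Fin 2) ℤ | η.det = N ∧ (∀ i j, |(η i j : ℝ)| ≤ H) ∧
      IsSquare (η.trace ^ 2 - 4 * N)} = {η : Matrix (Fin 2) (Fin 2) ℤ | η.det = N ∧
        (∀ i j, |η i j| ≤ (⌊H⌋₊ : ℕ)) ∧ IsSquare (η.trace ^ 2 - 4 * N)} := by
    ext η
    have : ∀ x : ℤ, |(x : ℝ)| ≤ H ↔ |x| ≤ (⌊H⌋₊ : ℕ) := fun x => by
      rw [← Int.natCast_natAbs, Nat.cast_le, Nat.le_floor_iff hH, Nat.cast_natAbs, Int.cast_abs]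
    simp only [Set.mem_ofPred_eq, this]
  rw [e]
  refine ⟨m1, ?_⟩
  have h1 : (⌊C * (8 * H ^ 2) ^ (ε / 4)⌋₊ : ℝ) ≤ C * (8 * H ^ 2) ^ (ε / 4) :=
    Nat.floor_le (by positivity)
  have h2 : (8 * H ^ 2) ^ (ε / 4) = 8 ^ (ε / 4) * H ^ (ε / 2) := by
    rw [Real.mul_rpow (by norm_num) (by positivity), ← Real.rpow_natCast, ← Real.rpow_mul hH]
    congr 2
    push_cast
    ring
  have h3 : (H ^ (ε / 2)) ^ 2 * H = H ^ (1 + ε) := by
    rw [← Real.rpow_natCast, ← Real.rpow_mul hH, Real.rpow_add' hH (by positivity), Real.rpow_one,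
      mul_comm]
    congr 2
    push_cast
    ring
  calc _ ≤ ((24 * ⌊C * (8 * H ^ 2) ^ (ε / 4)⌋₊ ^ 2 * ⌊H⌋₊ : ℕ) : ℝ) := by exact_mod_cast m2
    _ = 24 * (⌊C * (8 * H ^ 2) ^ (ε / 4)⌋₊ : ℝ) ^ 2 * (⌊H⌋₊ : ℝ) := by push_cast; ring
    _ ≤ 24 * (C * (8 * H ^ 2) ^ (ε / 4)) ^ 2 * H := by gcongr
    _ = _ := by rw [h2, ← h3]; ring

theorem card_index {Λ : Lt} (h : IsLat Λ) {g : ℕ} (hg : 0 < g) :
    {M | IsLat M ∧ M ≤ Λ ∧ vol M = g * vol Λ}.Finite ∧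
      {M | IsLat M ∧ M ≤ Λ ∧ vol M = g * vol Λ}.ncard ≤ g * g.divisors.card := by
  have hv := vol_pos h
  have h' := h
  obtain ⟨c, τ, hc, rfl⟩ := h'
  have q := tmx_img (S := {M | IsLat M ∧ M ≤ sp c (c * τ) ∧ vol M = g * vol (sp c (c * τ))})
    (Finset.range g ×ˢ g.divisors)
    (fun t => sp (t.2 * c) (c * ((g / t.2 : ℕ) * τ + (t.1 : ℕ)))) fun M hM => by
      obtain ⟨m1, m2, m3⟩ := hM
      obtain ⟨n, hn, -, hle⟩ := exists_index h m1 m2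
      obtain ⟨a, d, b, ha, hd, -, -, hb0, hba, e⟩ := hnf hc τ hn hle m2
      have p1 : 0 < Complex.normSq c * τ.im := mul_pos (Complex.normSq_pos.2 hc) τ.im_pos
      have e2 : (starRingEnd ℂ (a * c) * (c * (d * τ + b))).im =
          (a * d : ℝ) * (Complex.normSq c * τ.im) := by
        simp only [map_mul, map_natCast, Complex.add_im, Complex.mul_im, Complex.add_re,
          Complex.mul_re, Complex.intCast_re, Complex.intCast_im, Complex.conj_re, Complex.conj_im,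
          Complex.natCast_re, Complex.natCast_im, Complex.normSq_apply, UpperHalfPlane.coe_re,
          UpperHalfPlane.coe_im]
        ring
      have p2 : 0 < (a * d : ℝ) * (Complex.normSq c * τ.im) := by positivity
      have e3 := (vol_sp' (a := a * c) (b := c * (d * τ + b)) (by rw [e2]; exact p2.ne')).2
      rw [← e, m3, e2, abs_of_pos p2, vol_sp hc] at e3
      have e4 : (g : ℝ) = a * d := mul_right_cancel₀ p1.ne' e3
      have e5 : g = a * d := by exact_mod_cast e4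
      have hag : a ≤ g := by
        rw [e5]
        exact Nat.le_mul_of_pos_right _ hd
      obtain ⟨b', rfl⟩ := Int.eq_ofNat_of_zero_le hb0
      refine ⟨(b', a), Finset.mem_product.2 ⟨Finset.mem_range.2 (by omega),
        Nat.mem_divisors.2 ⟨⟨d, e5⟩, hg.ne'⟩⟩, ?_⟩
      have e6 : g / a = d := by rw [e5, Nat.mul_div_cancel_left _ ha]
      simp only [e6]
      rw [e]
      simp
  rwa [Finset.card_product, Finset.card_range] at q

/-- Cauchy-Schwarz for a labelling. -/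
theorem card_sq_le {α β : Type} (Z : Finset α) (L : Finset β) (φ : α → β) (h : ∀ z ∈ Z, φ z ∈ L) :
    Z.card ^ 2 ≤ L.card * {w : α × α | w.1 ∈ Z ∧ w.2 ∈ Z ∧ φ w.1 = φ w.2}.ncard := by
  classical
  have e : {w : α × α | w.1 ∈ Z ∧ w.2 ∈ Z ∧ φ w.1 = φ w.2} =
      (((Z ×ˢ Z).filter fun w => φ w.1 = φ w.2 : Finset (α × α)) : Set (α × α)) := by
    ext w
    simp [and_assoc]
  rw [e, Set.ncard_coe_finset]
  have h1 : Z.card = ∑ l ∈ L, (Z.filter fun z => φ z = l).card :=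
    Finset.card_eq_sum_card_fiberwise fun z hz => h z hz
  have h2 : ((Z ×ˢ Z).filter fun w => φ w.1 = φ w.2).card =
      ∑ l ∈ L, (Z.filter fun z => φ z = l).card ^ 2 := by
    rw [Finset.card_eq_sum_card_fiberwise (f := fun w : α × α => φ w.1) (t := L)
      fun w hw => h _ (Finset.mem_product.1 (Finset.mem_filter.1 hw).1).1]
    refine Finset.sum_congr rfl fun l _ => ?_
    rw [sq, ← Finset.card_product]
    congr 1
    ext w
    simp only [Finset.mem_filter, Finset.mem_product]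
    constructor
    · rintro ⟨⟨⟨a1, a2⟩, a3⟩, a4⟩
      exact ⟨⟨a1, a4⟩, a2, a3 ▸ a4⟩
    · rintro ⟨⟨a1, a4⟩, a2, a3⟩
      exact ⟨⟨⟨a1, a2⟩, a4.trans a3.symm⟩, a4⟩
  rw [h1, h2]
  exact sq_sum_le_card_mul_sum_sq

theorem ncard_le_fib {α β : Type} {S : Set α} {T : Set β} (hT : T.Finite) (R : α → β → Prop)
    (h : ∀ a ∈ S, ∃ b ∈ T, R a b) {m : ℕ}
    (hm : ∀ b ∈ T, {a | a ∈ S ∧ R a b}.Finite ∧ {a | a ∈ S ∧ R a b}.ncard ≤ m) :
    S.Finite ∧ S.ncard ≤ m * T.ncard :=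
  tmx_fib hT R h hm

end Pool.Agent.EQ
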