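import Pool.Agent.P.MP_ad7a55_nt.TDt
import Pool.Agent.P.MP_ad7a55_nt.TQd

/-! Majorants with a gain: high divisibility, and a level at a split prime. -/

set_option autoImplicit false

noncomputable section

open Finset Matrix

namespace Pool.Agent.EQ

/-- Types attached to finitely many families of residue classes. -/
theorem tsc_types {l : ℕ} (hl : l.Prime) (A B C : ℤ) (S : Set ℤ) (w : ℤ → ℝ) (mu : ℤ → ℕ)
    (I : Finset ℕ) (μ c : ℕ → ℕ) (p : ℕ → ℝ) (R : ℕ → ℤ → Prop) {M : ℝ}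
    (hp : ∀ i ∈ I, 0 ≤ p i)
    (hper : ∀ i ∈ I, ∀ x y, (l : ℤ) ^ μ i ∣ x - y → R i x → R i y)
    (hc : ∀ i ∈ I, ∀ r, R i r → ¬ Ct l (c i + 1) (A * (l : ℤ) ^ (2 * μ i))
      ((2 * A * r + B) * (l : ℤ) ^ μ i) (A * r ^ 2 + B * r + C))
    (hM : ∑ i ∈ I, (cnt (l ^ μ i) (R i) : ℝ) * (p i / (l : ℝ) ^ μ i) ≤ M)
    (hS : ∀ x ∈ S, A * x ^ 2 + B * x + C ≠ 0 ∧ (w x ≤ 0 ∨ ∃ i ∈ I, μ i ≤ mu x ∧ R i x ∧
      ∀ j : ℕ, padicValInt l (A * x ^ 2 + B * x + C) ≤ c i + 2 * j + 1 → w x ≤ p i * (j + 1))) :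
    LS 1 l S (fun x => A * x ^ 2 + B * x + C) w mu M 2 := by
  classical
  have key : ∀ t : ℕ × ℤ × ℕ, ∃ Ω : ℕ → ℤ → Prop,
      ¬ Ct l (c t.2.2 + 1) (A * (l : ℤ) ^ (2 * t.1)) ((2 * A * t.2.1 + B) * (l : ℤ) ^ t.1)
        (A * t.2.1 ^ 2 + B * t.2.1 + C) →
      Lv l 1 Ω (fun k => k + 1) 2 ∧ ∀ y, A * (l : ℤ) ^ (2 * t.1) * y ^ 2 +
        (2 * A * t.2.1 + B) * (l : ℤ) ^ t.1 * y + (A * t.2.1 ^ 2 + B * t.2.1 + C) ≠ 0 →
      ∃ k, At Ω y k ∧ (l : ℤ) ^ k ∣ A * (l : ℤ) ^ (2 * t.1) * y ^ 2 +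
        (2 * A * t.2.1 + B) * (l : ℤ) ^ t.1 * y + (A * t.2.1 ^ 2 + B * t.2.1 + C) ∧
        padicValInt l (A * (l : ℤ) ^ (2 * t.1) * y ^ 2 +
        (2 * A * t.2.1 + B) * (l : ℤ) ^ t.1 * y + (A * t.2.1 ^ 2 + B * t.2.1 + C)) ≤
          c t.2.2 + 2 * k + 1 := by
    intro t
    by_cases h : Ct l (c t.2.2 + 1) (A * (l : ℤ) ^ (2 * t.1))
        ((2 * A * t.2.1 + B) * (l : ℤ) ^ t.1) (A * t.2.1 ^ 2 + B * t.2.1 + C)
    · exact ⟨fun _ _ => False, fun h' => absurd h h'⟩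
    · obtain ⟨Ω, hΩ⟩ := exists_qlev hl h
      exact ⟨Ω, fun _ => hΩ⟩
  choose Ω hΩ using key
  have hl0 : (0 : ℝ) < l := by exact_mod_cast hl.pos
  set U : Finset (Σ _ : ℕ, ℕ) := I.sigma fun i => (range (l ^ μ i)).filter fun r : ℕ => R i r
    with hU
  set g : (Σ _ : ℕ, ℕ) → ℕ × ℤ × ℕ := fun z => (μ z.1, (z.2 : ℤ), z.1) with hg
  have hmem : ∀ t ∈ U.image g, t.2.2 ∈ I ∧ t.1 = μ t.2.2 ∧ R t.2.2 t.2.1 := by
    intro t ht
    obtain ⟨z, hz, rfl⟩ := mem_image.1 ht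
    obtain ⟨h1, h2⟩ := mem_sigma.1 hz
    exact ⟨h1, rfl, (mem_filter.1 h2).2⟩
  refine ⟨U.image g, fun t => p t.2.2, Ω, fun _ k => k + 1, fun t ht => ?_, ?_, fun x hx => ?_⟩
  · obtain ⟨h1, h2, h3⟩ := hmem t ht
    refine ⟨hp _ h1, (hΩ t ?_).1⟩
    rw [h2]
    exact hc _ h1 _ h3
  · refine le_trans (sum_image_le_of_nonneg fun t ht =>
      div_nonneg (hp _ (hmem t ht).1) (by positivity)) (le_trans (le_of_eq ?_) hM)
    rw [hU, sum_sigma]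
    refine sum_congr rfl fun i _ => ?_
    simp only [hg]
    rw [sum_const, nsmul_eq_mul, tqd_cnt]
  · obtain ⟨h0, h | ⟨i, hi, h1, h2, h3⟩⟩ := hS x hx
    · exact Or.inl h
    have hq : (0 : ℤ) < (l : ℤ) ^ μ i := by
      have := hl.pos
      positivity
    have hr0 := Int.emod_nonneg x hq.ne'
    have hr1 := Int.emod_lt_of_pos x hq
    obtain ⟨r, hr⟩ := Int.eq_ofNat_of_zero_le hr0
    have hx' : x = (r : ℤ) + (l : ℤ) ^ μ i * (x / (l : ℤ) ^ μ i) := by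
      rw [← hr]
      exact (Int.emod_add_mul_ediv x _).symm
    have hR : R i r := hper i hi x r ⟨x / (l : ℤ) ^ μ i, by linarith⟩ h2
    have ht : g ⟨i, r⟩ ∈ U.image g := mem_image_of_mem g (mem_sigma.2 ⟨hi, mem_filter.2
      ⟨mem_range.2 (by rw [hr] at hr1; exact_mod_cast hr1), hR⟩⟩)
    have he : A * (l : ℤ) ^ (2 * μ i) * (x / (l : ℤ) ^ μ i) ^ 2 +
        (2 * A * r + B) * (l : ℤ) ^ μ i * (x / (l : ℤ) ^ μ i) + (A * r ^ 2 + B * r + C) =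
        A * x ^ 2 + B * x + C := by
      generalize x / (l : ℤ) ^ μ i = y at hx'
      rw [hx']
      ring
    obtain ⟨k, k1, k2, k3⟩ := (hΩ (g ⟨i, r⟩) (hc i hi r hR)).2 (x / (l : ℤ) ^ μ i)
      (by simp only [hg]; rw [he]; exact h0)
    simp only [hg] at k2 k3
    rw [he] at k2 k3
    exact Or.inr ⟨g ⟨i, r⟩, ht, x / (l : ℤ) ^ μ i, k, h1, hx', k1, k2, h3 k k3⟩

theorem tsc_val_four {l : ℕ} (hl : l.Prime) {x : ℤ} (hx : x ≠ 0) :
    padicValInt l (4 * x) ≤ 2 + padicValInt l x := by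
  have : Fact l.Prime := ⟨hl⟩
  rw [padicValInt.mul (by norm_num) hx]
  have h : padicValInt l 4 ≤ 2 := by
    by_contra h
    have h1 : (l : ℤ) ^ 3 ∣ 4 := (padicValInt_dvd_iff 3 4).2 (Or.inr (by omega))
    have h2 := Int.le_of_dvd (by norm_num) h1
    have h3 : (2 : ℤ) ≤ l := by exact_mod_cast hl.two_le
    have h4 := pow_le_pow_left₀ (by norm_num) h3 3
    linarith
  omega

theorem tsc_tail (v : ℕ) {ε : ℝ} (hε : 0 < ε) : ∃ n : ℕ, ∀ N : ℕ,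
    ∑ i ∈ Icc n N, ((v : ℝ) + 6 * i + 7) / 2 ^ i ≤ ε := by
  have hs : Summable fun i : ℕ => ((v : ℝ) + 6 * i + 7) / 2 ^ i := by
    have h1 := summable_pow_mul_geometric_of_norm_lt_one (R := ℝ) 1 (r := 1 / 2) (by norm_num)
    have h2 := summable_geometric_two
    refine ((h2.mul_left ((v : ℝ) + 7)).add (h1.mul_left 6)).congr fun i => ?_
    rw [one_div, inv_pow, pow_one]
    ring
  obtain ⟨s, hs'⟩ := summable_iff_vanishing.1 hs (Set.Iio ε) (Iio_mem_nhds hε)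
  refine ⟨s.sup id + 1, fun N => le_of_lt (hs' _ (disjoint_left.2 fun i hi his => ?_))⟩
  have h1 := (mem_Icc.1 hi).1
  have h2 : id i ≤ s.sup id := le_sup his
  simp only [id] at h2
  omega

namespace Dt

theorem tsc_m_ne {d : Dt} {κ : ℕ} (h : d.Good κ) : d.m ≠ 0 := by
  have h1 := h.g₁_pos
  have h2 := h.g₂_pos
  refine mul_ne_zero h.n_ne ?_
  simp only [G]
  positivity

theorem tsc_cnt {d : Dt} {κ : ℕ} (h : d.Good κ) {l : ℕ} (hl : l.Prime) {v : ℕ}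
    (hv : padicValInt l d.m ≤ v) (Y : ℤ) (k : ℕ) :
    cnt (l ^ k) (fun X => (l : ℤ) ∣ d.E ∧ (l : ℤ) ^ k ∣ d.xe l X Y ∧ (l : ℤ) ^ k ∣ d.Δe l X Y) ≤
      4 * l ^ (v + 1) := by
  have : Fact l.Prime := ⟨hl⟩
  have hle : ∀ {A A' : ℤ → Prop}, (∀ x, A x → A' x) → cnt (l ^ k) A ≤ cnt (l ^ k) A' := by
    intro A A' hA
    classical
    rw [tqd_cnt, tqd_cnt]
    exact card_le_card fun r hr => mem_filter.2 ⟨(mem_filter.1 hr).1, hA _ (mem_filter.1 hr).2⟩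
  by_cases hE : (l : ℤ) ∣ d.E
  swap
  · rw [tqd_zero fun ⟨_, hx⟩ => hE hx.1]
    exact Nat.zero_le _
  by_cases ha : (l : ℤ) ∣ d.a
  · have hc := (not_dvd_c h hl ha hE).2
    refine (hle (A' := fun r => (l : ℤ) ^ k ∣ r ^ 2 - 4 * (d.m * d.c)) fun x hx => ?_).trans
      (cnt_sq_le' hl k (v + 1) fun hd => ?_)
    · have := hx.2.2
      rwa [Δe, if_pos ha] at this
    · rw [show 4 * (d.m * d.c) = d.c * (4 * d.m) by ring] at hd
      have h1 := (tqd_prime hl).pow_dvd_of_dvd_mul_left _ hc hd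
      have h2 := tsc_val_four hl (tsc_m_ne h)
      rcases (padicValInt_dvd_iff _ _).1 h1 with h3 | h3
      · exact mul_ne_zero (by norm_num) (tsc_m_ne h) h3
      · omega
  · refine (hle (A' := fun r => (l : ℤ) ^ k ∣ 2 * d.a * r + d.b * Y) fun x hx => ?_).trans
      ((cnt_lin_le hl k ha _).trans ?_)
    · have := hx.2.1
      rwa [xe, if_neg ha, x₁, add_comm] at this
    · have := pow_pos hl.pos (v + 1)
      omega

theorem tsc_W5 {d : Dt} {l : ℕ} (hl : l.Prime) {v : ℕ} (hv : padicValInt l d.m ≤ v) {X Y : ℤ}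
    (hB : d.B X Y ≠ 0) {i j : ℕ} (hi : d.ie l X Y ≤ i)
    (hj : padicValInt l (d.B X Y) ≤ padicValInt l d.m + padicValInt l d.E + 2 * (2 * i) + 2 * j + 1) :
    d.W5 l X Y ≤ 16 * (l : ℝ) ^ i * ((v : ℝ) + 6 * i + 7) * (j + 1) := by
  have hl1 : (1 : ℝ) ≤ l := by exact_mod_cast hl.pos
  have h1 : (l : ℝ) ^ d.ie l X Y ≤ (l : ℝ) ^ i := pow_le_pow_right₀ hl1 hi
  have h0 : (0 : ℝ) ≤ ((v : ℝ) + 6 * i + 5) * j := by positivity
  have h2 : (1 + if padicValInt l d.E ≤ 2 * d.ie l X Y + 3 then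
      (padicValInt l (4 * d.B X Y) : ℝ) else 0) ≤ ((v : ℝ) + 6 * i + 7) * (j + 1) := by
    have h5 : (0 : ℝ) ≤ (v : ℝ) + 6 * i + 2 * j := by positivity
    split_ifs with h3
    · have h4 : padicValInt l (4 * d.B X Y) ≤ v + 6 * i + 6 + 2 * j := by
        have := tsc_val_four hl hB
        omega
      have h6 : (padicValInt l (4 * d.B X Y) : ℝ) ≤ v + 6 * i + 6 + 2 * j := by exact_mod_cast h4
      linarith
    · linarith
  rw [W5, mul_assoc _ _ ((j : ℝ) + 1)]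
  refine mul_le_mul (by linarith) h2 ?_ (by positivity)
  split_ifs <;> positivity

theorem tsc_per (d : Dt) (l : ℕ) (Y : ℤ) {q x y : ℤ} (h : q ∣ x - y) :
    (q ∣ d.xe l x Y → q ∣ d.xe l y Y) ∧ (q ∣ d.Δe l x Y → q ∣ d.Δe l y Y) := by
  unfold xe Δe x₁ x₂ Δ₂
  split_ifs
  · refine ⟨fun h1 => ?_, fun h1 => ?_⟩
    · have := dvd_sub h1 (h.mul_left d.b)
      rwa [show 2 * d.c * Y + d.b * x - d.b * (x - y) = 2 * d.c * Y + d.b * y by ring] at this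
    · have := dvd_sub h1 (h.mul_right (x + y))
      rwa [show x ^ 2 - 4 * (d.m * d.c) - (x - y) * (x + y) = y ^ 2 - 4 * (d.m * d.c) by ring]
        at this
  · refine ⟨fun h1 => ?_, id⟩
    have := dvd_sub h1 (h.mul_left (2 * d.a))
    rwa [show d.b * Y + 2 * d.a * x - 2 * d.a * (x - y) = d.b * Y + 2 * d.a * y by ring] at this

theorem ls_div {l : ℕ} (hl : l.Prime) (v : ℕ) {δ : ℝ} (hδ : 0 < δ) : ∃ r k : ℕ,
    ∀ (d : Dt) (κ : ℕ), d.Good κ → padicValInt l d.m ≤ v → ∀ Y : ℤ,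
    LS 1 l {X | d.B X Y ≠ 0 ∧ (l : ℤ) ^ (padicValInt l d.E + r) ∣ d.B X Y} (fun X => d.B X Y)
      (fun X => d.W5 l X Y) (fun X => 2 * d.ie l X Y + k) δ 2 := by
  classical
  have : Fact l.Prime := ⟨hl⟩
  have hl0 : (0 : ℝ) < l := by exact_mod_cast hl.pos
  have hl2 : (2 : ℝ) ≤ l := by exact_mod_cast hl.two_le
  obtain ⟨n, hn⟩ := tsc_tail v (ε := δ / (64 * (l : ℝ) ^ (v + 1))) (by positivity)
  refine ⟨v + 4 * n, 2 * n, fun d κ h hv Y => ?_⟩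
  have hct : ¬ Ct l (padicValInt l d.m + padicValInt l d.E + 1) d.a (d.b * Y)
      (d.c * Y ^ 2 + d.m * d.E) := content h hl Y rfl
  have hB : (fun X => d.B X Y) = fun X => d.a * X ^ 2 + d.b * Y * X + (d.c * Y ^ 2 + d.m * d.E) :=
    funext fun X => B_eq X Y
  rw [hB]
  refine tsc_types hl _ _ _ _ _ _ (Icc n (n + padicValInt l d.E)) (fun i => 2 * i)
    (fun i => padicValInt l d.m + padicValInt l d.E + 2 * (2 * i))
    (fun i => 16 * (l : ℝ) ^ i * ((v : ℝ) + 6 * i + 7))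
    (fun i X => if i = n then ∃ y', (l : ℤ) ^ (2 * n) ∣ X - y' ∧
      (l : ℤ) ^ (padicValInt l d.m + padicValInt l d.E + 2 * (2 * n)) ∣
        d.a * y' ^ 2 + d.b * Y * y' + (d.c * Y ^ 2 + d.m * d.E)
      else (l : ℤ) ∣ d.E ∧ (l : ℤ) ^ (2 * i) ∣ d.xe l X Y ∧ (l : ℤ) ^ (2 * i) ∣ d.Δe l X Y)
    (fun i _ => by positivity) (fun i _ x y hxy hx => ?_) (fun i _ r _ => ct_shift hl hct r _) ?_
    fun x hx => ?_
  · split_ifs at hx ⊢ with hi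
    · subst hi
      exact tqd_om_per hxy hx
    · exact ⟨hx.1, (tsc_per d l Y hxy).1 hx.2.1, (tsc_per d l Y hxy).2 hx.2.2⟩
  · have h1 := hn (n + padicValInt l d.E)
    rw [le_div_iff₀ (by positivity), sum_mul] at h1
    refine le_trans (sum_le_sum fun i _ => ?_) h1
    have h2 : cnt (l ^ (2 * i)) (fun X => if i = n then ∃ y', (l : ℤ) ^ (2 * n) ∣ X - y' ∧
        (l : ℤ) ^ (padicValInt l d.m + padicValInt l d.E + 2 * (2 * n)) ∣
          d.a * y' ^ 2 + d.b * Y * y' + (d.c * Y ^ 2 + d.m * d.E)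
        else (l : ℤ) ∣ d.E ∧ (l : ℤ) ^ (2 * i) ∣ d.xe l X Y ∧ (l : ℤ) ^ (2 * i) ∣ d.Δe l X Y) ≤
        4 * l ^ (v + 1) := by
      by_cases hi : i = n
      · subst hi
        simp only [if_true]
        have := pow_pos hl.pos (v + 1)
        exact (tqd_om hl hct (2 * i)).trans (by omega)
      · simp only [if_neg hi]
        exact tsc_cnt h hl hv Y _
    have h3 : 16 * (l : ℝ) ^ i * ((v : ℝ) + 6 * i + 7) / (l : ℝ) ^ (2 * i) ≤
        16 * (((v : ℝ) + 6 * i + 7) / 2 ^ i) := by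
      rw [two_mul i, pow_add, mul_assoc, mul_div_assoc, mul_div_mul_left _ _ (by positivity)]
      gcongr
    refine le_trans (mul_le_mul (Nat.cast_le.2 h2) h3 (by positivity) (by positivity))
      (le_of_eq ?_)
    push_cast
    ring
  · obtain ⟨h0, h1⟩ := hx
    rw [← B_eq]
    refine ⟨h0, Or.inr ?_⟩
    obtain ⟨s1, s2, s3, -⟩ := ie_spec h hl x Y
    rcases le_or_gt (d.ie l x Y) n with hi | hi
    · refine ⟨n, mem_Icc.2 ⟨le_rfl, by omega⟩, by omega, ?_, fun j hj => tsc_W5 hl hv h0 hi hj⟩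
      rw [if_pos rfl]
      refine ⟨x, by simp, ?_⟩
      rw [← B_eq]
      exact (pow_dvd_pow _ (by omega)).trans h1
    · have h2 := ((padicValInt_dvd_iff _ _).1 s3).resolve_left h.E_neg.ne
      refine ⟨d.ie l x Y, mem_Icc.2 ⟨hi.le, by omega⟩, by omega, ?_,
        fun j hj => tsc_W5 hl hv h0 le_rfl hj⟩
      rw [if_neg hi.ne']
      exact ⟨(dvd_pow_self _ (by omega)).trans s3, s1, s2⟩

theorem tsc_aux (d : Dt) {l : ℕ} (hl : l.Prime) (Y : ℤ) (k j : ℕ)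
    (h1 : cnt (l ^ k) (fun X => (l : ℤ) ^ k ∣ d.B X Y) ≤ 4 * l ^ j)
    (h2 : ∀ r, (l : ℤ) ^ k ∣ d.B r Y → ¬ Ct l (k + j + 1) (d.a * (l : ℤ) ^ (2 * k))
      (d.x₁ r Y * (l : ℤ) ^ k) (d.B r Y)) :
    LS 1 l {X | d.B X Y ≠ 0} (fun X => d.B X Y)
      (fun X => ((padicValInt l (d.B X Y) + 1 - k : ℕ) : ℝ)) (fun _ => k)
      (4 / (l : ℝ) ^ k * ((l : ℝ) ^ j * (j + 2))) 2 := by
  have : Fact l.Prime := ⟨hl⟩
  have hl0 : (0 : ℝ) < l := by exact_mod_cast hl.pos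
  have key := tsc_types hl d.a (d.b * Y) (d.c * Y ^ 2 + d.m * d.E) {X | d.B X Y ≠ 0}
    (fun X => ((padicValInt l (d.B X Y) + 1 - k : ℕ) : ℝ)) (fun _ => k) {0} (fun _ => k)
    (fun _ => k + j) (fun _ => (j : ℝ) + 2) (fun _ X => (l : ℤ) ^ k ∣ d.B X Y)
    (M := 4 / (l : ℝ) ^ k * ((l : ℝ) ^ j * (j + 2))) (fun _ _ => by positivity)
    (fun _ _ x y hxy hx => by
      rw [B_eq] at hx ⊢
      exact tqd_poly hxy hx)
    (fun _ _ r hr => by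
      have := h2 r hr
      rwa [x₁, add_comm (d.b * Y), B_eq] at this)
    (by
      rw [sum_singleton]
      have h3 : (cnt (l ^ k) (fun X => (l : ℤ) ^ k ∣ d.B X Y) : ℝ) ≤ 4 * (l : ℝ) ^ j := by
        exact_mod_cast h1
      refine le_trans (mul_le_mul_of_nonneg_right h3 (by positivity)) (le_of_eq ?_)
      ring)
    (fun x hx => by
      rw [← B_eq]
      refine ⟨hx, ?_⟩
      rcases le_or_gt k (padicValInt l (d.B x Y)) with h3 | h3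
      · refine Or.inr ⟨0, mem_singleton_self 0, le_rfl,
          (padicValInt_dvd_iff _ _).2 (Or.inr h3), fun t ht => ?_⟩
        have h4 : padicValInt l (d.B x Y) + 1 - k ≤ j + 2 * t + 2 := by omega
        have h5 : ((padicValInt l (d.B x Y) + 1 - k : ℕ) : ℝ) ≤ j + 2 * t + 2 := by
          exact_mod_cast h4
        have h6 : (0 : ℝ) ≤ (j : ℝ) * t := by positivity
        linarith
      · left
        rw [show padicValInt l (d.B x Y) + 1 - k = 0 by omega]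
        simp)
  simpa only [← B_eq] using key

theorem tsc_dvd {d : Dt} {l : ℕ} (hl : l.Prime) (hE : ¬ (l : ℤ) ∣ d.E) (hm : ¬ (l : ℤ) ∣ d.m)
    (ha : (l : ℤ) ∣ d.a) (Y : ℤ) (k : ℕ) :
    LS 1 l {X | d.B X Y ≠ 0} (fun X => d.B X Y)
      (fun X => ((padicValInt l (d.B X Y) + 1 - k : ℕ) : ℝ)) (fun _ => k)
      (4 / (l : ℝ) ^ k * ((l : ℝ) ^ 0 * ((0 : ℕ) + 2))) 2 := by
  have hp := tqd_prime hl
  have hb : ¬ (l : ℤ) ∣ d.b := fun hb => hE (by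
    rw [E]
    exact dvd_sub (hb.pow (by norm_num)) ((ha.mul_left 4).mul_right _))
  by_cases hY : (l : ℤ) ∣ Y
  · have h0 : ∀ r, ¬ (l : ℤ) ∣ d.B r Y := fun r hr => by
      rw [B_eq, ← add_assoc, dvd_add_right (dvd_add (dvd_add (ha.mul_right _)
        ((hY.mul_left _).mul_right _)) ((hY.pow (by norm_num)).mul_left _))] at hr
      exact (hp.dvd_or_dvd hr).elim hm hE
    refine tsc_aux d hl Y k 0 ?_ fun r _ hc => h0 r ((dvd_pow_self _ (by omega)).trans hc.2.2)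
    refine (tqd_le_one fun x y hx _ => ?_).trans (by norm_num)
    cases k with
    | zero => simp
    | succ k => exact absurd ((dvd_pow_self _ (by omega)).trans hx) (h0 x)
  · have hbY : ¬ (l : ℤ) ∣ d.b * Y := fun h => (hp.dvd_or_dvd h).elim hb hY
    refine tsc_aux d hl Y k 0 ?_ fun r _ hc => hbY ?_
    · simp only [B_eq]
      rw [cnt_hensel' hl ha hbY]
      norm_num
    · have h1 := hc.2.1
      rw [add_zero, pow_succ', mul_dvd_mul_iff_right (pow_ne_zero _ hp.ne_zero), x₁] at h1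
      exact (dvd_add_left ((ha.mul_left 2).mul_right r)).1 h1

theorem tsc_ndvd {d : Dt} {l : ℕ} (hl : l.Prime) (h2 : l ≠ 2) (hE : ¬ (l : ℤ) ∣ d.E)
    (ha : ¬ (l : ℤ) ∣ d.a) (Y : ℤ) {k j : ℕ} (hj : j = k ∨ j < k ∧
      ¬ (l : ℤ) ^ (2 * (j + 1)) ∣ d.Δ₁ Y) :
    LS 1 l {X | d.B X Y ≠ 0} (fun X => d.B X Y)
      (fun X => ((padicValInt l (d.B X Y) + 1 - k : ℕ) : ℝ)) (fun _ => k)
      (4 / (l : ℝ) ^ k * ((l : ℝ) ^ j * (j + 2))) 2 := by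
  classical
  have hp := tqd_prime hl
  rcases hj with rfl | ⟨hj, hD⟩
  · refine tsc_aux d hl Y j j ?_ fun r _ hc => ha ?_
    · rw [tqd_cnt]
      refine (card_filter_le _ _).trans ?_
      rw [card_range]
      omega
    · have h1 := hc.1
      rwa [← two_mul, pow_succ', mul_dvd_mul_iff_right (pow_ne_zero _ hp.ne_zero)] at h1
  · have hD' : ¬ (l : ℤ) ^ (2 * j + 2) ∣ d.E * d.Δ₁ Y := fun h =>
      hD (hp.pow_dvd_of_dvd_mul_left _ hE h)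
    refine tsc_aux d hl Y k j ?_ fun r _ hc => hD' ?_
    · have h2a : ¬ (l : ℤ) ∣ 2 * d.a := fun h => (hp.dvd_or_dvd h).elim (tqd_not_two hl h2) ha
      have h1 := cnt_affine (q := l ^ k) (pow_pos hl.pos k)
        (A := fun u => (l : ℤ) ^ k ∣ u ^ 2 - d.E * d.Δ₁ Y) (fun x y hxy hx => by
          push_cast at hxy
          have := dvd_sub hx (hxy.mul_right (x + y))
          rwa [show x ^ 2 - d.E * d.Δ₁ Y - (x - y) * (x + y) = y ^ 2 - d.E * d.Δ₁ Y by ring]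
            at this) (d.b * Y) (u := 2 * d.a) (by
          push_cast
          exact ((hp.coprime_iff_not_dvd.2 h2a).symm).pow_right)
      refine le_trans ?_ (h1.le.trans (cnt_sq_le' hl k j hD'))
      rw [tqd_cnt, tqd_cnt]
      refine card_le_card fun r hr => mem_filter.2 ⟨(mem_filter.1 hr).1, ?_⟩
      have h3 := ((mem_filter.1 hr).2).mul_left (4 * d.a)
      rwa [← key₁, x₁] at h3
    · have h1 := hc.2.1
      rw [show k + j + 1 = j + 1 + k by ring, pow_add,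
        mul_dvd_mul_iff_right (pow_ne_zero _ hp.ne_zero)] at h1
      have h3 : (l : ℤ) ^ (2 * j + 2) ∣ d.x₁ r Y ^ 2 := by
        rw [show 2 * j + 2 = (j + 1) * 2 by ring, pow_mul]
        exact pow_dvd_pow_of_dvd h1 2
      have h4 : (l : ℤ) ^ (2 * j + 2) ∣ 4 * d.a * d.B r Y :=
        ((pow_dvd_pow _ (by omega)).trans hc.2.2).mul_left _
      have h5 := dvd_sub h3 h4
      rwa [← key₁, sub_sub_cancel] at h5

theorem tsc_rpow {x y : ℝ} (hx : 0 ≤ x) (hy : 0 ≤ y) (h : x ^ 4 ≤ y ^ 3) :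
    x ^ (4 / 3 : ℝ) ≤ y := by
  refine le_of_pow_le_pow_left₀ (n := 3) (by norm_num) hy (le_trans (le_of_eq ?_) h)
  rw [← Real.rpow_natCast, ← Real.rpow_mul hx, ← Real.rpow_natCast]
  norm_num

theorem tsc_sum (n : ℕ) : ∑ i ∈ range n, ((i : ℝ) + 2) ^ 2 / 2 ^ i =
    22 - (2 * (n : ℝ) ^ 2 + 12 * n + 22) / 2 ^ n := by
  induction n with
  | zero => norm_num
  | succ n ih =>
    rw [sum_range_succ, ih]
    push_cast
    field_simp
    ring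

theorem tsc_mean {l : ℕ} (hl : l.Prime) (h2 : l ≠ 2) {u : ℤ} (hu : ¬ (l : ℤ) ∣ u) (k : ℕ)
    (J : ℕ → ℕ) (hJ : ∀ r, J r ≤ k ∧ (l : ℤ) ^ (2 * J r) ∣ (r : ℤ) ^ 2 - 4 * u) :
    ∑ r ∈ range (l ^ (2 * k)), ((l : ℝ) ^ J r * (J r + 2)) ^ (4 / 3 : ℝ) ≤
      88 * (l : ℝ) ^ (2 * k) := by
  classical
  have hp := tqd_prime hl
  have hl0 : (0 : ℝ) < l := by exact_mod_cast hl.pos
  have hl3 : (3 : ℝ) ≤ l := by
    have := hl.two_le
    exact_mod_cast (by omega : 3 ≤ l)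
  have h4 : ∀ j, cnt (l ^ j) (fun r => (l : ℤ) ^ j ∣ r ^ 2 - 4 * u) ≤ 4 := by
    intro j
    refine (cnt_sq_le' hl j 0 fun h => ?_).trans (by norm_num)
    have h3 : (l : ℤ) ∣ 2 * (2 * u) := by
      rw [← mul_assoc]
      exact (dvd_pow_self _ (by norm_num)).trans h
    exact hu ((hp.dvd_or_dvd ((hp.dvd_or_dvd h3).resolve_left (tqd_not_two hl h2))).resolve_left
      (tqd_not_two hl h2))
  have h1 : ∀ r ∈ range (l ^ (2 * k)), ((l : ℝ) ^ J r * (J r + 2)) ^ (4 / 3 : ℝ) ≤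
      ∑ i ∈ range (k + 1), if (l : ℤ) ^ (2 * i) ∣ (r : ℤ) ^ 2 - 4 * u then
        (l : ℝ) ^ (2 * i) * (((i : ℝ) + 2) ^ 2 / 2 ^ i) else 0 := by
    intro r _
    have h5 := single_le_sum (s := range (k + 1))
      (f := fun i : ℕ => if (l : ℤ) ^ (2 * i) ∣ (r : ℤ) ^ 2 - 4 * u then
        (l : ℝ) ^ (2 * i) * (((i : ℝ) + 2) ^ 2 / 2 ^ i) else 0)
      (fun j _ => by split_ifs <;> positivity) (mem_range.2 (Nat.lt_succ_of_le (hJ r).1))
    rw [if_pos (hJ r).2] at h5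
    refine le_trans (tsc_rpow (by positivity) (by positivity) ?_) h5
    generalize J r = i
    have e1 : ((l : ℝ) ^ (2 * i) * (((i : ℝ) + 2) ^ 2 / 2 ^ i)) ^ 3 =
        ((l : ℝ) ^ i * (i + 2)) ^ 4 * (((l : ℝ) ^ 2 / 8) ^ i * ((i : ℝ) + 2) ^ 2) := by
      rw [div_pow ((l : ℝ) ^ 2), show (8 : ℝ) = 2 ^ 3 by norm_num, ← pow_mul (2 : ℝ)]
      field_simp
      ring
    rw [e1]
    refine le_mul_of_one_le_right (by positivity) (one_le_mul_of_one_le_of_one_le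
      (one_le_pow₀ ?_) (one_le_pow₀ ?_))
    · rw [le_div_iff₀ (by norm_num)]
      nlinarith
    · have : (0 : ℝ) ≤ i := by positivity
      linarith
  refine (sum_le_sum h1).trans ?_
  rw [sum_comm]
  have h6 : ∀ i ∈ range (k + 1), (∑ r ∈ range (l ^ (2 * k)),
      if (l : ℤ) ^ (2 * i) ∣ (r : ℤ) ^ 2 - 4 * u then
        (l : ℝ) ^ (2 * i) * (((i : ℝ) + 2) ^ 2 / 2 ^ i) else 0) ≤
      4 * (l : ℝ) ^ (2 * k) * (((i : ℝ) + 2) ^ 2 / 2 ^ i) := by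
    intro i hi
    have hj' : 2 * i ≤ 2 * k := by
      have := mem_range.1 hi
      omega
    have h7 := tqd_per (pow_pos hl.pos (2 * i)) (l ^ (2 * k - 2 * i))
      (A := fun r => (l : ℤ) ^ (2 * i) ∣ r ^ 2 - 4 * u) (fun _ h => h) fun x y h1 h3 => by
        push_cast at h1
        have := dvd_sub h3 (h1.mul_right (x + y))
        rwa [show x ^ 2 - 4 * u - (x - y) * (x + y) = y ^ 2 - 4 * u by ring] at this
    rw [← pow_add, Nat.add_sub_cancel' hj'] at h7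
    have h3 := h7.trans (Nat.mul_le_mul_left _ (h4 (2 * i)))
    rw [tqd_cnt] at h3
    rw [← sum_filter, sum_const, nsmul_eq_mul]
    have h5 : (((range (l ^ (2 * k))).filter fun r : ℕ =>
        (l : ℤ) ^ (2 * i) ∣ (r : ℤ) ^ 2 - 4 * u).card : ℝ) ≤ (l : ℝ) ^ (2 * k - 2 * i) * 4 := by
      exact_mod_cast h3
    refine le_trans (mul_le_mul_of_nonneg_right h5 (by positivity)) (le_of_eq ?_)
    conv_rhs => rw [← Nat.sub_add_cancel hj', pow_add]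
    ring
  refine (sum_le_sum h6).trans ?_
  rw [← mul_sum, tsc_sum]
  have h8 : (0 : ℝ) ≤ (2 * ((k + 1 : ℕ) : ℝ) ^ 2 + 12 * (k + 1 : ℕ) + 22) / 2 ^ (k + 1) := by
    positivity
  have h9 : (0 : ℝ) ≤ (l : ℝ) ^ (2 * k) := by positivity
  nlinarith

theorem ls_split : ∃ K : ℝ, 0 < K ∧ ∀ (d : Dt) (κ : ℕ), d.Good κ → ∀ l : ℕ, l.Prime → l ≠ 2 →
    ¬ (l : ℤ) ∣ d.E → ¬ (l : ℤ) ∣ d.m → ∀ k : ℕ, ∃ M : ℤ → ℝ, (∀ Y, 0 ≤ M Y) ∧
    (∀ Y Y', ((l ^ (2 * k) : ℕ) : ℤ) ∣ Y - Y' → M Y = M Y') ∧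
    ∑ r ∈ range (l ^ (2 * k)), M r ^ (4 / 3 : ℝ) ≤
      (l ^ (2 * k) : ℕ) * (K / (l : ℝ) ^ k) ^ (4 / 3 : ℝ) ∧
    ∀ Y, LS 1 l {X | d.B X Y ≠ 0} (fun X => d.B X Y)
      (fun X => ((padicValInt l (d.B X Y) + 1 - k : ℕ) : ℝ)) (fun _ => k) (M Y) 2 := by
  classical
  refine ⟨4 * 88, by norm_num, fun d κ _ l hl h2 hE hm k => ?_⟩
  have hp := tqd_prime hl
  have hl0 : (0 : ℝ) < l := by exact_mod_cast hl.pos
  by_cases ha : (l : ℤ) ∣ d.a
  · refine ⟨fun _ => 4 / (l : ℝ) ^ k * ((l : ℝ) ^ 0 * ((0 : ℕ) + 2)), fun _ => by positivity,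
      fun _ _ _ => rfl, ?_, fun Y => tsc_dvd hl hE hm ha Y k⟩
    rw [sum_const, card_range, nsmul_eq_mul]
    refine mul_le_mul_of_nonneg_left (Real.rpow_le_rpow (by positivity) ?_ (by norm_num))
      (by positivity)
    rw [div_mul_eq_mul_div]
    gcongr
    norm_num
  · set J : ℤ → ℕ := fun Y => Nat.findGreatest (fun j => (l : ℤ) ^ (2 * j) ∣ d.Δ₁ Y) k with hJ
    have hJ1 : ∀ Y, J Y ≤ k := fun Y => Nat.findGreatest_le k
    have hJ2 : ∀ Y, (l : ℤ) ^ (2 * J Y) ∣ d.Δ₁ Y := fun Y =>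
      Nat.findGreatest_spec (P := fun j => (l : ℤ) ^ (2 * j) ∣ d.Δ₁ Y) (Nat.zero_le k) (by simp)
    have hJ3 : ∀ Y j, j ≤ k → (l : ℤ) ^ (2 * j) ∣ d.Δ₁ Y → j ≤ J Y := fun Y j h1 h3 =>
      Nat.le_findGreatest (P := fun j => (l : ℤ) ^ (2 * j) ∣ d.Δ₁ Y) h1 h3
    have hJ4 : ∀ Y Y', (l : ℤ) ^ (2 * k) ∣ Y - Y' → J Y ≤ J Y' := fun Y Y' h => by
      refine hJ3 _ _ (hJ1 Y) ?_
      have h1 : (l : ℤ) ^ (2 * J Y) ∣ Y - Y' :=
        (pow_dvd_pow _ (Nat.mul_le_mul_left 2 (hJ1 Y))).trans h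
      have := dvd_sub (hJ2 Y) (h1.mul_right (Y + Y'))
      rwa [show d.Δ₁ Y - (Y - Y') * (Y + Y') = d.Δ₁ Y' by simp only [Δ₁]; ring] at this
    refine ⟨fun Y => 4 / (l : ℝ) ^ k * ((l : ℝ) ^ J Y * (J Y + 2)), fun _ => by positivity,
      fun Y Y' h => ?_, ?_, fun Y => tsc_ndvd hl h2 hE ha Y ?_⟩
    · push_cast at h
      simp only [le_antisymm (hJ4 Y Y' h) (hJ4 Y' Y (dvd_sub_comm.1 h))]
    · have h1 := tsc_mean hl h2 (u := d.m * d.a) (fun h => (hp.dvd_or_dvd h).elim hm ha) k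
        (fun r => J r) fun r => ⟨hJ1 r, hJ2 r⟩
      have h3 : (88 : ℝ) ≤ 88 ^ (4 / 3 : ℝ) := by
        have := Real.rpow_le_rpow_of_exponent_le (x := 88) (by norm_num)
          (show (1 : ℝ) ≤ 4 / 3 by norm_num)
        rwa [Real.rpow_one] at this
      have h4 : ∀ r : ℕ, (4 / (l : ℝ) ^ k * ((l : ℝ) ^ J r * (J r + 2))) ^ (4 / 3 : ℝ) =
          (4 / (l : ℝ) ^ k) ^ (4 / 3 : ℝ) * ((l : ℝ) ^ J r * (J r + 2)) ^ (4 / 3 : ℝ) := fun r =>
        Real.mul_rpow (by positivity) (by positivity)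
      simp only [h4]
      rw [← mul_sum, show 4 * 88 / (l : ℝ) ^ k = 4 / (l : ℝ) ^ k * 88 by ring,
        Real.mul_rpow (by positivity) (by norm_num), mul_left_comm]
      refine mul_le_mul_of_nonneg_left (h1.trans ?_) (by positivity)
      push_cast
      rw [mul_comm]
      exact mul_le_mul_of_nonneg_left h3 (by positivity)
    · rcases (hJ1 Y).eq_or_lt with h | h
      · exact Or.inl h
      · exact Or.inr ⟨h, fun h1 => absurd (hJ3 Y _ h h1) (by omega)⟩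

end Dt

end Pool.Agent.EQ
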