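import Pool.Agent.P.MP_ad7a55_nt.TDt
import Pool.Agent.P.MP_ad7a55_nt.TQd

/-! Majorants with a gain: a general level. -/

set_option autoImplicit false

noncomputable section

open Finset Matrix

namespace Pool.Agent.EQ

/-- The mass of a type. -/
def tsd_pi (l : ℕ) (t : ℕ × ℤ × ℕ) : ℝ :=
  16 * (l : ℝ) ^ t.2.2 * (2 * t.2.2 + 2 * t.1 + 7)

theorem tsd_pi_nonneg (l : ℕ) (t : ℕ × ℤ × ℕ) : 0 ≤ tsd_pi l t := by
  unfold tsd_pi
  positivity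

theorem tsd_val4 {l : ℕ} (hl : l.Prime) {z : ℤ} (hz : z ≠ 0) :
    padicValInt l (4 * z) ≤ padicValInt l z + 2 := by
  have : Fact l.Prime := ⟨hl⟩
  rw [padicValInt.mul (by norm_num) hz]
  have h1 : padicValInt l 4 ≤ 2 := by
    by_contra h
    have h2 : (l : ℤ) ^ 3 ∣ 4 := (padicValInt_dvd_iff 3 4).2 (Or.inr (by omega))
    have h3 := Int.le_of_dvd (by norm_num) h2
    have h4 : (2 : ℤ) ≤ l := by exact_mod_cast hl.two_le
    have h5 : (2 : ℤ) ^ 3 ≤ (l : ℤ) ^ 3 := pow_le_pow_left₀ (by norm_num) h4 3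
    omega
  omega

theorem tsd_rep {q : ℕ} (hq : 0 < q) (x : ℤ) : ∃ r : ℕ, r < q ∧ (q : ℤ) ∣ x - r := by
  have hq2 : (0 : ℤ) < q := by exact_mod_cast hq
  obtain ⟨r, hr⟩ := Int.eq_ofNat_of_zero_le (Int.emod_nonneg x hq2.ne')
  refine ⟨r, ?_, ?_⟩
  · have := Int.emod_lt_of_pos x hq2
    rw [hr] at this
    exact_mod_cast this
  · rw [← hr]
    exact Int.dvd_self_sub_emod

open Classical in
/-- A family of types with a common modulus. -/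
theorem tsd_fam {l : ℕ} (hl : l.Prime) (μ : ℕ) (A : ℤ → Prop)
    (hA : ∀ x y, (l : ℤ) ^ μ ∣ x - y → A x → A y) (j : ℤ → ℕ) :
    ∃ T : Finset (ℕ × ℤ × ℕ), ∑ t ∈ T, tsd_pi l t / (l : ℝ) ^ t.1 ≤
      ∑ r ∈ range (l ^ μ), (if A r then tsd_pi l (μ, r, j r) / (l : ℝ) ^ μ else 0) ∧
      ∀ x, A x → ∃ r : ℤ, (l : ℤ) ^ μ ∣ x - r ∧ (μ, r, j r) ∈ T := by
  refine ⟨((range (l ^ μ)).filter fun r : ℕ => A r).image fun r : ℕ => (μ, (r : ℤ), j r), ?_,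
    fun x hx => ?_⟩
  · rw [← sum_filter]
    exact sum_image_le_of_nonneg fun t _ => div_nonneg (tsd_pi_nonneg _ _) (by positivity)
  · obtain ⟨r, h1, h2⟩ := tsd_rep (pow_pos hl.pos μ) x
    push_cast at h2
    exact ⟨r, h2, mem_image.2 ⟨r, mem_filter.2 ⟨mem_range.2 h1, hA _ _ h2 hx⟩, rfl⟩⟩

open Classical in
theorem tsd_sum_const (q : ℕ) (A : ℤ → Prop) (c : ℝ) :
    ∑ r ∈ range q, (if A r then c else 0) = cnt q A * c := by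
  rw [tlv_cnt, sum_mul]
  refine sum_congr rfl fun r _ => ?_
  split_ifs <;> simp

theorem tsd_fam' {l : ℕ} (hl : l.Prime) (μ : ℕ) (A : ℤ → Prop)
    (hA : ∀ x y, (l : ℤ) ^ μ ∣ x - y → A x → A y) (j : ℕ) :
    ∃ T : Finset (ℕ × ℤ × ℕ), ∑ t ∈ T, tsd_pi l t / (l : ℝ) ^ t.1 ≤
      cnt (l ^ μ) A * (tsd_pi l (μ, 0, j) / (l : ℝ) ^ μ) ∧
      ∀ x, A x → ∃ r : ℤ, (l : ℤ) ^ μ ∣ x - r ∧ (μ, r, j) ∈ T := by
  obtain ⟨T, h1, h2⟩ := tsd_fam hl μ A hA fun _ => j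
  exact ⟨T, h1.trans_eq (tsd_sum_const (l ^ μ) A (tsd_pi l (μ, 0, j) / (l : ℝ) ^ μ)), h2⟩

theorem tsd_union {l : ℕ} (T T' : Finset (ℕ × ℤ × ℕ)) :
    ∑ t ∈ T ∪ T', tsd_pi l t / (l : ℝ) ^ t.1 ≤
      ∑ t ∈ T, tsd_pi l t / (l : ℝ) ^ t.1 + ∑ t ∈ T', tsd_pi l t / (l : ℝ) ^ t.1 := by
  rw [← sum_union_inter]
  exact le_add_of_nonneg_right
    (sum_nonneg fun t _ => div_nonneg (tsd_pi_nonneg _ _) (by positivity))

/-- The types of large level. -/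
theorem tsd_tail {l : ℕ} (hl : l.Prime) (A : ℕ → ℤ → Prop)
    (hA : ∀ i x y, (l : ℤ) ^ (2 * i) ∣ x - y → A i x → A i y)
    (hc : ∀ i, cnt (l ^ (2 * i)) (A i) ≤ 8) (n : ℕ) :
    ∃ T : Finset (ℕ × ℤ × ℕ), ∑ t ∈ T, tsd_pi l t / (l : ℝ) ^ t.1 ≤ 3328 ∧
      ∀ i < n, ∀ x, A i x → ∃ r : ℤ, (l : ℤ) ^ (2 * i) ∣ x - r ∧ (2 * i, r, i) ∈ T := by
  suffices H : ∃ T : Finset (ℕ × ℤ × ℕ), ∑ t ∈ T, tsd_pi l t / (l : ℝ) ^ t.1 ≤
      128 * (26 - (12 * n + 26) / 2 ^ n) ∧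
      ∀ i < n, ∀ x, A i x → ∃ r : ℤ, (l : ℤ) ^ (2 * i) ∣ x - r ∧ (2 * i, r, i) ∈ T by
    obtain ⟨T, h1, h2⟩ := H
    refine ⟨T, h1.trans ?_, h2⟩
    have : (0 : ℝ) ≤ (12 * n + 26) / 2 ^ n := by positivity
    linarith
  induction n with
  | zero => exact ⟨∅, by norm_num, fun i hi => absurd hi (Nat.not_lt_zero i)⟩
  | succ n ih =>
    obtain ⟨T, h1, h2⟩ := ih
    obtain ⟨T', h3, h4⟩ := tsd_fam' hl (2 * n) (A n) (hA n) n
    refine ⟨T ∪ T', (tsd_union T T').trans ?_, fun i hi x hx => ?_⟩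
    · have e1 : tsd_pi l (2 * n, 0, n) / (l : ℝ) ^ (2 * n) =
          16 * (6 * n + 7) / (l : ℝ) ^ n := by
        have : (0 : ℝ) < l := by exact_mod_cast hl.pos
        unfold tsd_pi
        push_cast
        field_simp
        ring
      rw [e1] at h3
      have h5 : (cnt (l ^ (2 * n)) (A n) : ℝ) ≤ 8 := by exact_mod_cast hc n
      have h6 : (2 : ℝ) ^ n ≤ (l : ℝ) ^ n :=
        pow_le_pow_left₀ (by norm_num) (by exact_mod_cast hl.two_le) n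
      have h7 : (cnt (l ^ (2 * n)) (A n) : ℝ) * (16 * (6 * n + 7) / (l : ℝ) ^ n) ≤
          8 * (16 * (6 * n + 7) / 2 ^ n) := by gcongr
      have h8 : (128 : ℝ) * (26 - (12 * (n + 1 : ℕ) + 26) / 2 ^ (n + 1)) =
          128 * (26 - (12 * n + 26) / 2 ^ n) + 8 * (16 * (6 * n + 7) / 2 ^ n) := by
        push_cast
        field_simp
        ring
      rw [h8]
      linarith
    · rcases Nat.lt_succ_iff_lt_or_eq.1 hi with hi | rfl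
      · obtain ⟨r, a1, a2⟩ := h2 i hi x hx
        exact ⟨r, a1, mem_union_left _ a2⟩
      · obtain ⟨r, a1, a2⟩ := h4 x hx
        exact ⟨r, a1, mem_union_right _ a2⟩

/-- Counting a union of fibres. -/
theorem tsd_cnt_fib {q : ℕ} (hq : 0 < q) {A : ℤ → Prop} {R : ℤ → ℤ → Prop} {n : ℕ}
    (hA : ∀ x y, (q : ℤ) ∣ x - y → A x → A y)
    (hR : ∀ x y z, (q : ℤ) ∣ x - y → R x z → R y z) (hn : ∀ u, cnt q (R u) ≤ n) :
    cnt q (fun z => ∃ u, A u ∧ R u z) ≤ cnt q A * n := by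
  classical
  rw [tqd_cnt, tqd_cnt]
  refine le_trans (card_le_card (t := ((range q).filter fun u : ℕ => A u).biUnion
    fun u : ℕ => (range q).filter fun z : ℕ => R u z) fun z hz => ?_)
    (card_biUnion_le_card_mul _ _ _ fun u _ => ?_)
  · obtain ⟨h1, u, h2, h3⟩ := mem_filter.1 hz
    obtain ⟨r, h4, h5⟩ := tsd_rep hq u
    exact mem_biUnion.2 ⟨r, mem_filter.2 ⟨mem_range.2 h4, hA _ _ h5 h2⟩,
      mem_filter.2 ⟨h1, hR _ _ _ h5 h3⟩⟩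
  · have := hn u
    rwa [tqd_cnt] at this

theorem tsd_sq_per {q x y D : ℤ} (h : q ∣ x - y) (hx : q ∣ x ^ 2 - D) : q ∣ y ^ 2 - D := by
  have := dvd_sub hx (h.mul_right (x + y))
  rwa [show x ^ 2 - D - (x - y) * (x + y) = y ^ 2 - D by ring] at this

/-- Half the order of a gcd with `l ^ k`. -/
theorem tsd_J {l : ℕ} (hl : l.Prime) (k : ℕ) : ∃ J : ℤ → ℕ, ∀ D : ℤ, 2 * J D ≤ k ∧
    (l : ℝ) ^ J D * (l : ℝ) ^ J D ≤ Int.gcd D (l ^ k) ∧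
    (∀ i, 2 * i ≤ k → (l : ℤ) ^ (2 * i) ∣ D → i ≤ J D) ∧
    ∀ w v b₀ : ℤ, ¬ (l : ℤ) ∣ w → cnt (l ^ k) (fun z => ∃ u, (l : ℤ) ^ k ∣ u ^ 2 - D ∧
      (l : ℤ) ^ k ∣ 2 * w * z + v - b₀ * u) ≤ 8 * l ^ J D := by
  have H : ∀ D : ℤ, ∃ γ ≤ k, Int.gcd D (l ^ k) = l ^ γ := fun D => by
    have h2 : Int.gcd D (l ^ k) ∣ l ^ k := by
      have := Int.gcd_dvd_right D ((l : ℤ) ^ k)
      exact Int.natCast_dvd_natCast.1 (by rw [Nat.cast_pow]; exact this)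
    exact (Nat.dvd_prime_pow hl).1 h2
  choose γ h1 h2 using H
  have h3 : ∀ D e, e ≤ k → (l : ℤ) ^ e ∣ D → e ≤ γ D := fun D e he hd => by
    have h4 : l ^ e ∣ Int.gcd D (l ^ k) :=
      Int.dvd_gcd (by exact_mod_cast hd) (by push_cast; exact pow_dvd_pow _ he)
    rw [h2] at h4
    exact (Nat.pow_dvd_pow_iff_le_right hl.one_lt).1 h4
  refine ⟨fun D => γ D / 2, fun D => ⟨by have := h1 D; beta_reduce; omega, ?_,
    fun i hi hd => ?_, fun w v b₀ hw => ?_⟩⟩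
  · rw [h2, ← pow_add]
    push_cast
    exact pow_le_pow_right₀ (by exact_mod_cast hl.one_le) (by omega)
  · have := h3 D _ hi hd
    beta_reduce
    omega
  · have h5 : cnt (l ^ k) (fun u => (l : ℤ) ^ k ∣ u ^ 2 - D) ≤ 4 * l ^ (γ D / 2) := by
      by_cases h6 : 2 * (γ D / 2) + 2 ≤ k
      · refine cnt_sq_le' hl k _ fun h7 => ?_
        have := h3 D _ h6 h7
        omega
      · by_cases h7 : γ D = k
        · rw [h7]
          exact cnt_sq_le hl k D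
        · refine (cnt_sq_le hl k D).trans
            (Nat.mul_le_mul_left _ (Nat.pow_le_pow_right hl.pos (by omega)))
    have h6 := tsd_cnt_fib (pow_pos hl.pos k) (A := fun u => (l : ℤ) ^ k ∣ u ^ 2 - D)
      (R := fun u z => (l : ℤ) ^ k ∣ 2 * w * z + v - b₀ * u) (n := 2)
      (fun x y h hx => tsd_sq_per (by exact_mod_cast h) hx)
      (fun x y z h hx => by
        push_cast at h
        have := dvd_add hx (h.mul_left b₀)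
        rwa [show 2 * w * z + v - b₀ * x + b₀ * (x - y) = 2 * w * z + v - b₀ * y by ring] at this)
      (fun u => by
        have := cnt_lin_le hl k hw (v - b₀ * u)
        simpa only [add_sub_assoc] using this)
    refine h6.trans ?_
    calc _ ≤ 4 * l ^ (γ D / 2) * 2 := Nat.mul_le_mul_right _ h5
      _ = _ := by ring

theorem tsd_eight {l : ℕ} (hl : l.Prime) {u : ℤ} (hu : ¬ (l : ℤ) ∣ u) (j : ℕ) :
    cnt (l ^ j) (fun r => (l : ℤ) ^ j ∣ r ^ 2 - 4 * u) ≤ 8 := by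
  have hp := tqd_prime hl
  by_cases h2 : l = 2
  · subst h2
    refine (cnt_sq_le' hl j 1 fun h => hu ?_).trans (by norm_num)
    obtain ⟨c, hc⟩ := h
    exact ⟨2 * c, by push_cast at hc ⊢; linarith⟩
  · refine (cnt_sq_le' hl j 0 fun h => ?_).trans (by norm_num)
    have h3 : (l : ℤ) ∣ 2 * (2 * u) := by
      rw [← mul_assoc]
      exact (dvd_pow_self _ (by norm_num)).trans h
    exact hu ((hp.dvd_or_dvd ((hp.dvd_or_dvd h3).resolve_left (tqd_not_two hl h2))).resolve_left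
      (tqd_not_two hl h2))

theorem tsd_four {l : ℕ} (hl : l.Prime) (k : ℕ) {A : ℤ → Prop}
    (h : ∀ x y, A x → A y → (l : ℤ) ^ k ∣ 4 * (x - y)) : cnt (l ^ k) A ≤ 4 := by
  have hp := tqd_prime hl
  by_cases h0 : ∃ x, A x
  · obtain ⟨c, hc⟩ := h0
    by_cases h2 : l = 2
    · subst h2
      refine (tqd_one hl (j := min k 2) (min_le_left _ _) c fun x hx => ?_).trans ?_
      · by_cases hk : k ≤ 2
        · rw [min_eq_left hk, Nat.sub_self, pow_zero]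
          exact one_dvd _
        · rw [min_eq_right (by omega)]
          obtain ⟨e, rfl⟩ : ∃ e, k = 2 + e := ⟨k - 2, by omega⟩
          have := h x c hx hc
          rw [pow_add] at this
          rw [Nat.add_sub_cancel_left]
          exact (mul_dvd_mul_iff_left (a := (4 : ℤ)) (by norm_num)).1 (by simpa using this)
      · exact (Nat.pow_le_pow_right (by norm_num) (min_le_right _ _)).trans (by norm_num)
    · refine (tqd_le_one fun x y hx hy => ?_).trans (by norm_num)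
      push_cast
      refine hp.pow_dvd_of_dvd_mul_left k (fun h4 => ?_) (h x y hx hy)
      rw [show (4 : ℤ) = 2 * 2 by norm_num] at h4
      exact tqd_not_two hl h2 ((hp.dvd_or_dvd h4).elim id id)
  · rw [tqd_zero h0]
    norm_num

theorem tsd_gcd_le {l : ℕ} (hl : l.Prime) (k : ℕ) (D : ℤ) :
    (Int.gcd D (l ^ k) : ℝ) ≤ (l : ℝ) ^ k := by
  have h2 : Int.gcd D (l ^ k) ∣ l ^ k := by
    have := Int.gcd_dvd_right D ((l : ℤ) ^ k)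
    exact Int.natCast_dvd_natCast.1 (by rw [Nat.cast_pow]; exact this)
  exact_mod_cast Nat.le_of_dvd (pow_pos hl.pos k) h2

theorem tsd_gcd_per {q D D' : ℤ} (h : q ∣ D - D') : Int.gcd D q = Int.gcd D' q := by
  obtain ⟨c, hc⟩ := h
  rw [show D = D' + q * c by linarith, Int.gcd_add_mul_left_left]

namespace Dt

/-- A family of types which covers a set majorises the weight. -/
theorem tsd_ls {d : Dt} {κ : ℕ} (h : d.Good κ) {l : ℕ} (hl : l.Prime) (hm : ¬ (l : ℤ) ∣ d.m)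
    (Y : ℤ) (S : Set ℤ) (mu : ℤ → ℕ) (T : Finset (ℕ × ℤ × ℕ)) {M : ℝ}
    (hM : ∑ t ∈ T, tsd_pi l t / (l : ℝ) ^ t.1 ≤ M)
    (hS : ∀ X ∈ S, d.B X Y ≠ 0 ∧
      ∃ t ∈ T, t.1 ≤ mu X ∧ (l : ℤ) ^ t.1 ∣ X - t.2.1 ∧ d.ie l X Y ≤ t.2.2) :
    LS 1 l S (fun X => d.B X Y) (fun X => d.W5 l X Y) mu M 2 := by
  have hv : padicValInt l d.m = 0 := padicValInt.eq_zero_of_not_dvd hm
  have hc : ¬ Ct l (padicValInt l d.E + 1) d.a (d.b * Y) (d.c * Y ^ 2 + d.m * d.E) :=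
    content h hl Y (by rw [hv, zero_add])
  have H := fun t : ℕ × ℤ × ℕ => exists_qlev hl (ct_shift hl hc t.2.1 t.1)
  choose Ω h1 h2 using H
  refine ⟨T, tsd_pi l, Ω, fun _ k => k + 1, fun t _ => ⟨tsd_pi_nonneg _ _, h1 t⟩, hM,
    fun X hX => Or.inr ?_⟩
  obtain ⟨hB, t, ht, a1, ⟨y, hy⟩, a3⟩ := hS X hX
  have e : d.a * (l : ℤ) ^ (2 * t.1) * y ^ 2 + (2 * d.a * t.2.1 + d.b * Y) * (l : ℤ) ^ t.1 * y +
      (d.a * t.2.1 ^ 2 + d.b * Y * t.2.1 + (d.c * Y ^ 2 + d.m * d.E)) = d.B X Y := by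
    rw [B_eq, show X = t.2.1 + (l : ℤ) ^ t.1 * y by linarith]
    ring
  obtain ⟨k, b1, b2, b3⟩ := h2 t y (by rw [e]; exact hB)
  rw [e] at b2 b3
  refine ⟨t, ht, y, k, a1, by linarith, b1, b2, ?_⟩
  have h4 := tsd_val4 hl hB
  have h5 : (l : ℝ) ^ d.ie l X Y ≤ (l : ℝ) ^ t.2.2 :=
    pow_le_pow_right₀ (by exact_mod_cast hl.one_le) a3
  have h6 : (1 + if padicValInt l d.E ≤ 2 * d.ie l X Y + 3 then
      (padicValInt l (4 * d.B X Y) : ℝ) else 0) ≤ (2 * t.2.2 + 2 * t.1 + 7) * (k + 1) := by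
    have p1 : (0 : ℝ) ≤ t.2.2 := Nat.cast_nonneg _
    have p2 : (0 : ℝ) ≤ t.1 := Nat.cast_nonneg _
    have p3 : (0 : ℝ) ≤ k := Nat.cast_nonneg _
    split_ifs with h7
    · have h8 : padicValInt l (4 * d.B X Y) ≤ 2 * t.2.2 + 2 * t.1 + 6 + 2 * k := by omega
      have h9 : (padicValInt l (4 * d.B X Y) : ℝ) ≤ 2 * t.2.2 + 2 * t.1 + 6 + 2 * k := by
        exact_mod_cast h8
      nlinarith [mul_nonneg p1 p3, mul_nonneg p2 p3]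
    · nlinarith [mul_nonneg p1 p3, mul_nonneg p2 p3]
  show d.W5 l X Y ≤ tsd_pi l t * (k + 1)
  unfold W5 tsd_pi
  rw [mul_assoc (16 * (l : ℝ) ^ t.2.2)]
  gcongr

theorem tsd_ie_lt {d : Dt} {κ : ℕ} (h : d.Good κ) {l : ℕ} (hl : l.Prime) (X Y : ℤ) :
    d.ie l X Y < padicValInt l d.E + 1 := by
  have : Fact l.Prime := ⟨hl⟩
  have := ((padicValInt_dvd_iff _ _).1 (ie_spec h hl X Y).2.2.1).resolve_left h.E_neg.ne
  omega

/-- The conclusion of the three cases. -/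
def LevM (d : Dt) (K : ℝ) (l k : ℕ) (b₀ : ℤ) : Prop :=
  ∃ M : ℤ → ℝ, (∀ Y, 0 ≤ M Y ∧ M Y ≤ K * (k + 1) ^ 2) ∧
    (∀ Y Y', (l : ℤ) ^ k ∣ Y - Y' → M Y = M Y') ∧ ∑ r ∈ range (l ^ k), M r ≤ K * (k + 1) ^ 3 ∧
    ∀ Y, LS 1 l {X | d.B X Y ≠ 0 ∧ d.LevC (l ^ k) b₀ X Y} (fun X => d.B X Y)
      (fun X => d.W5 l X Y) (fun X => 2 * d.ie l X Y + k) (M Y) 2

theorem tsd_pi_le {l k j : ℕ} (hj : 2 * j ≤ k) (r : ℤ) :
    tsd_pi l (k, r, j) ≤ 112 * (k + 1) * (l : ℝ) ^ j := by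
  have h1 : (2 * j : ℝ) ≤ k := by exact_mod_cast hj
  have h2 : (0 : ℝ) ≤ (l : ℝ) ^ j := by positivity
  have h3 : (0 : ℝ) ≤ k := Nat.cast_nonneg _
  show 16 * (l : ℝ) ^ j * (2 * j + 2 * k + 7) ≤ _
  nlinarith [mul_le_mul_of_nonneg_left h1 h2, mul_nonneg h2 h3]

theorem lev_one : ∃ K : ℝ, 1 ≤ K ∧ ∀ (d : Dt) (κ : ℕ), d.Good κ → ∀ l : ℕ, l.Prime →
    ¬ (l : ℤ) ∣ d.m → ¬ (l : ℤ) ∣ d.a → ∀ (k : ℕ) (b₀ : ℤ), d.LevM K l k b₀ := by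
  classical
  refine ⟨33792, by norm_num, fun d κ h l hl hm ha k b₀ => ?_⟩
  have hp := tqd_prime hl
  have hL : (0 : ℝ) < (l : ℝ) ^ k := pow_pos (by exact_mod_cast hl.pos) k
  have hk : (1 : ℝ) ≤ k + 1 := le_add_of_nonneg_left (Nat.cast_nonneg _)
  obtain ⟨J, hJ⟩ := tsd_J hl k
  refine ⟨fun Y => 4224 * (k + 1) * (Int.gcd (d.Δ₁ Y) (l ^ k) / (l : ℝ) ^ k),
    fun Y => ⟨by positivity, ?_⟩, fun Y Y' hY => ?_, ?_, fun Y => ?_⟩
  · have h1 := (div_le_one hL).2 (tsd_gcd_le hl k (d.Δ₁ Y))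
    calc _ ≤ 4224 * (k + 1 : ℝ) * 1 := mul_le_mul_of_nonneg_left h1 (by positivity)
      _ ≤ _ := by nlinarith
  · beta_reduce
    rw [tsd_gcd_per (D := d.Δ₁ Y) (D' := d.Δ₁ Y')]
    have := hY.mul_right (Y + Y')
    rwa [show (Y - Y') * (Y + Y') = d.Δ₁ Y - d.Δ₁ Y' by simp only [Δ₁]; ring] at this
  · have h1 := sum_gcd_le hl k (u := d.m * d.a) fun h2 => (hp.dvd_or_dvd h2).elim hm ha
    rw [← mul_sum, ← sum_div]
    have h2 := (div_le_iff₀ hL).2 h1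
    calc _ ≤ 4224 * (k + 1 : ℝ) * (8 * (k + 1)) := by
          exact mul_le_mul_of_nonneg_left h2 (by positivity)
      _ ≤ _ := by nlinarith [mul_nonneg (sq_nonneg ((k : ℝ) + 1)) (Nat.cast_nonneg (α := ℝ) k)]
  · obtain ⟨j1, j2, j3, j4⟩ := hJ (d.Δ₁ Y)
    obtain ⟨T, t1, t2⟩ := tsd_fam' hl k (fun z => ∃ u, (l : ℤ) ^ k ∣ u ^ 2 - d.Δ₁ Y ∧
      (l : ℤ) ^ k ∣ 2 * d.a * z + d.b * Y - b₀ * u) (by
        rintro x y h1 ⟨u, h2, h3⟩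
        refine ⟨u, h2, ?_⟩
        have := dvd_sub h3 (h1.mul_left (2 * d.a))
        rwa [show 2 * d.a * x + d.b * Y - b₀ * u - 2 * d.a * (x - y) =
          2 * d.a * y + d.b * Y - b₀ * u by ring] at this) (J (d.Δ₁ Y))
    have t3 : ∑ t ∈ T, tsd_pi l t / (l : ℝ) ^ t.1 ≤
        896 * (k + 1) * (Int.gcd (d.Δ₁ Y) (l ^ k) / (l : ℝ) ^ k) := by
      have h1 : (cnt (l ^ k) (fun z => ∃ u, (l : ℤ) ^ k ∣ u ^ 2 - d.Δ₁ Y ∧
          (l : ℤ) ^ k ∣ 2 * d.a * z + d.b * Y - b₀ * u) : ℝ) ≤ 8 * (l : ℝ) ^ J (d.Δ₁ Y) := by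
        exact_mod_cast j4 d.a (d.b * Y) b₀ ha
      have h2 := tsd_pi_le (l := l) j1 0
      have h3 := tsd_pi_nonneg l (k, 0, J (d.Δ₁ Y))
      refine t1.trans ?_
      calc _ ≤ 8 * (l : ℝ) ^ J (d.Δ₁ Y) *
            (112 * (k + 1) * (l : ℝ) ^ J (d.Δ₁ Y) / (l : ℝ) ^ k) := by gcongr
        _ = 896 * (k + 1) * ((l : ℝ) ^ J (d.Δ₁ Y) * (l : ℝ) ^ J (d.Δ₁ Y) / (l : ℝ) ^ k) := by ring
        _ ≤ _ := by gcongr
    obtain ⟨T', s1, s2⟩ : ∃ T' : Finset (ℕ × ℤ × ℕ), ∑ t ∈ T', tsd_pi l t / (l : ℝ) ^ t.1 ≤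
        3328 * (Int.gcd (d.Δ₁ Y) (l ^ k) / (l : ℝ) ^ k) ∧ ((l : ℤ) ^ k ∣ d.Δ₁ Y →
        ∀ i < padicValInt l d.E + 1, ∀ x, (l : ℤ) ^ (2 * i) ∣ 2 * d.a * x + d.b * Y →
          ∃ r : ℤ, (l : ℤ) ^ (2 * i) ∣ x - r ∧ (2 * i, r, i) ∈ T') := by
      by_cases h1 : (l : ℤ) ^ k ∣ d.Δ₁ Y
      · obtain ⟨T', s1, s2⟩ := tsd_tail hl (fun i x => (l : ℤ) ^ (2 * i) ∣ 2 * d.a * x + d.b * Y)
          (fun i x y h2 h3 => by
            have := dvd_sub h3 (h2.mul_left (2 * d.a))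
            rwa [show 2 * d.a * x + d.b * Y - 2 * d.a * (x - y) = 2 * d.a * y + d.b * Y by ring]
              at this)
          (fun i => (cnt_lin_le hl _ ha _).trans (by norm_num)) (padicValInt l d.E + 1)
        refine ⟨T', s1.trans (le_of_eq ?_), fun _ => s2⟩
        rw [Int.gcd_eq_natAbs_right h1, Int.natAbs_pow, Int.natAbs_natCast]
        push_cast
        rw [div_self hL.ne', mul_one]
      · exact ⟨∅, by rw [sum_empty]; positivity, fun h2 => absurd h2 h1⟩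
    refine tsd_ls h hl hm Y _ _ (T ∪ T') ((tsd_union T T').trans ?_) ?_
    · have h1 : (0 : ℝ) ≤ Int.gcd (d.Δ₁ Y) (l ^ k) / (l : ℝ) ^ k := by positivity
      nlinarith [mul_le_mul_of_nonneg_right hk h1]
    · rintro X ⟨hB, -, ⟨u, u1, u2⟩, -⟩
      refine ⟨hB, ?_⟩
      obtain ⟨i1, i2, -, -⟩ := ie_spec h hl X Y
      rw [xe, if_neg ha] at i1
      rw [Δe, if_neg ha] at i2
      push_cast at u1 u2
      by_cases hi : 2 * d.ie l X Y ≤ k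
      · obtain ⟨r, r1, r2⟩ := t2 X ⟨u, u1, by rwa [x₁, add_comm] at u2⟩
        exact ⟨_, mem_union_left _ r2, Nat.le_add_left _ _, r1, j3 _ hi i2⟩
      · obtain ⟨r, r1, r2⟩ := s2 ((pow_dvd_pow _ (by omega)).trans i2) _ (tsd_ie_lt h hl X Y) X
          (by rwa [x₁, add_comm] at i1)
        exact ⟨_, mem_union_right _ r2, Nat.le_add_right _ _, r1, le_rfl⟩

theorem lev_two : ∃ K : ℝ, 1 ≤ K ∧ ∀ (d : Dt) (κ : ℕ), d.Good κ → ∀ l : ℕ, l.Prime →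
    ¬ (l : ℤ) ∣ d.m → (l : ℤ) ∣ d.a → (l : ℤ) ∣ d.E → ∀ (k : ℕ) (b₀ : ℤ), d.LevM K l k b₀ := by
  classical
  refine ⟨60416, by norm_num, fun d κ h l hl hm ha hE k b₀ => ?_⟩
  have hp := tqd_prime hl
  have hL : (0 : ℝ) < (l : ℝ) ^ k := pow_pos (by exact_mod_cast hl.pos) k
  have hk : (1 : ℝ) ≤ k + 1 := le_add_of_nonneg_left (Nat.cast_nonneg _)
  have hc := (not_dvd_c h hl ha hE).2
  have hmc : ¬ (l : ℤ) ∣ d.m * d.c := fun h2 => (hp.dvd_or_dvd h2).elim hm hc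
  obtain ⟨J, hJ⟩ := tsd_J hl k
  obtain ⟨P, hP⟩ : ∃ P : ℤ → ℤ → Prop, ∀ r Y, P r Y ↔ ∃ u, (l : ℤ) ^ k ∣ u ^ 2 - d.Δ₂ r ∧
      (l : ℤ) ^ k ∣ 2 * d.c * Y + d.b * r - b₀ * u := ⟨_, fun _ _ => Iff.rfl⟩
  obtain ⟨Q, hQ⟩ : ∃ Q : ℤ → Prop, ∀ Y, Q Y ↔ ∃ r, (l : ℤ) ^ k ∣ r ^ 2 - 4 * (d.m * d.c) ∧
      (l : ℤ) ^ k ∣ 2 * d.c * Y + d.b * r := ⟨_, fun _ => Iff.rfl⟩
  have hD : ∀ {x y : ℤ}, (l : ℤ) ^ k ∣ x - y → (l : ℤ) ^ k ∣ d.Δ₂ x - d.Δ₂ y := fun {x y} h1 => by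
    have := h1.mul_right (x + y)
    rwa [show (x - y) * (x + y) = d.Δ₂ x - d.Δ₂ y by simp only [Δ₂]; ring] at this
  have hP1 : ∀ Y x y, (l : ℤ) ^ k ∣ x - y → P x Y → P y Y := fun Y x y h1 h2 => by
    obtain ⟨u, h3, h4⟩ := (hP _ _).1 h2
    refine (hP _ _).2 ⟨u, ?_, ?_⟩
    · have := dvd_add h3 (hD h1)
      rwa [show u ^ 2 - d.Δ₂ x + (d.Δ₂ x - d.Δ₂ y) = u ^ 2 - d.Δ₂ y by ring] at this
    · have := dvd_sub h4 (h1.mul_left d.b)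
      rwa [show 2 * d.c * Y + d.b * x - b₀ * u - d.b * (x - y) = 2 * d.c * Y + d.b * y - b₀ * u
        by ring] at this
  have hP2 : ∀ r x y, (l : ℤ) ^ k ∣ x - y → P r x → P r y := fun r x y h1 h2 => by
    obtain ⟨u, h3, h4⟩ := (hP _ _).1 h2
    refine (hP _ _).2 ⟨u, h3, ?_⟩
    have := dvd_sub h4 (h1.mul_left (2 * d.c))
    rwa [show 2 * d.c * x + d.b * r - b₀ * u - 2 * d.c * (x - y) = 2 * d.c * y + d.b * r - b₀ * u
      by ring] at this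
  have hQ1 : ∀ x y, (l : ℤ) ^ k ∣ x - y → Q x → Q y := fun x y h1 h2 => by
    obtain ⟨r, h3, h4⟩ := (hQ _).1 h2
    refine (hQ _).2 ⟨r, h3, ?_⟩
    have := dvd_sub h4 (h1.mul_left (2 * d.c))
    rwa [show 2 * d.c * x + d.b * r - 2 * d.c * (x - y) = 2 * d.c * y + d.b * r by ring] at this
  have hg : ∑ r ∈ range (l ^ k), (Int.gcd (d.Δ₂ r) (l ^ k) : ℝ) / (l : ℝ) ^ k ≤ 8 * (k + 1) := by
    rw [← sum_div, div_le_iff₀ hL]
    exact sum_gcd_le hl k hmc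
  have hπ : ∀ r : ℤ, 0 ≤ tsd_pi l (k, r, J (d.Δ₂ r)) / (l : ℝ) ^ k := fun r =>
    div_nonneg (tsd_pi_nonneg _ _) hL.le
  have hπ' : ∀ r : ℤ, (l : ℝ) ^ J (d.Δ₂ r) * (tsd_pi l (k, r, J (d.Δ₂ r)) / (l : ℝ) ^ k) ≤
      112 * (k + 1) * ((Int.gcd (d.Δ₂ r) (l ^ k) : ℝ) / (l : ℝ) ^ k) := fun r => by
    obtain ⟨j1, j2, -, -⟩ := hJ (d.Δ₂ r)
    have h2 := tsd_pi_le (l := l) j1 r
    calc _ ≤ (l : ℝ) ^ J (d.Δ₂ r) * (112 * (k + 1) * (l : ℝ) ^ J (d.Δ₂ r) / (l : ℝ) ^ k) := by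
          gcongr
      _ = 112 * (k + 1) * ((l : ℝ) ^ J (d.Δ₂ r) * (l : ℝ) ^ J (d.Δ₂ r) / (l : ℝ) ^ k) := by ring
      _ ≤ _ := by gcongr
  refine ⟨fun Y => (∑ r ∈ range (l ^ k),
      if P r Y then tsd_pi l (k, r, J (d.Δ₂ r)) / (l : ℝ) ^ k else 0) + if Q Y then 3328 else 0,
    fun Y => ⟨?_, ?_⟩, fun Y Y' hY => ?_, ?_, fun Y => ?_⟩
  · refine add_nonneg (sum_nonneg fun r _ => ?_) ?_
    · split_ifs
      · exact hπ r
      · exact le_rfl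
    · split_ifs <;> norm_num
  · have h1 : (∑ r ∈ range (l ^ k),
        if P r Y then tsd_pi l (k, r, J (d.Δ₂ r)) / (l : ℝ) ^ k else 0) ≤
        ∑ r ∈ range (l ^ k), 112 * (k + 1) * ((Int.gcd (d.Δ₂ r) (l ^ k) : ℝ) / (l : ℝ) ^ k) := by
      refine sum_le_sum fun r _ => le_trans ?_ (hπ' r)
      have h2 : (1 : ℝ) ≤ (l : ℝ) ^ J (d.Δ₂ r) := one_le_pow₀ (by exact_mod_cast hl.one_le)
      have h3 := le_mul_of_one_le_left (hπ r) h2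
      split_ifs
      · exact h3
      · exact (hπ r).trans h3
    rw [← mul_sum] at h1
    have h2 : (if Q Y then (3328 : ℝ) else 0) ≤ 3328 := by split_ifs <;> norm_num
    have h3 := mul_le_mul_of_nonneg_left hg (show (0 : ℝ) ≤ 112 * (k + 1) by positivity)
    beta_reduce
    nlinarith
  · beta_reduce
    rw [if_congr (⟨hQ1 Y Y' hY, hQ1 Y' Y (dvd_sub_comm.1 hY)⟩ : Q Y ↔ Q Y') rfl rfl]
    congr 1
    exact sum_congr rfl fun r _ =>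
      if_congr ⟨hP2 r Y Y' hY, hP2 r Y' Y (dvd_sub_comm.1 hY)⟩ rfl rfl
  · rw [sum_add_distrib, sum_comm, tsd_sum_const]
    have h1 : (∑ r ∈ range (l ^ k), ∑ Y ∈ range (l ^ k),
        if P r Y then tsd_pi l (k, r, J (d.Δ₂ r)) / (l : ℝ) ^ k else 0) ≤
        ∑ r ∈ range (l ^ k),
          896 * (k + 1) * ((Int.gcd (d.Δ₂ r) (l ^ k) : ℝ) / (l : ℝ) ^ k) := by
      refine sum_le_sum fun r _ => ?_
      rw [tsd_sum_const _ (P r)]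
      have h2 : (cnt (l ^ k) (P r) : ℝ) ≤ 8 * (l : ℝ) ^ J (d.Δ₂ r) := by
        rw [tqd_congr (hP r)]
        exact_mod_cast (hJ (d.Δ₂ r)).2.2.2 d.c (d.b * r) b₀ hc
      have h3 := mul_le_mul_of_nonneg_right h2 (hπ r)
      have h4 := hπ' r
      linarith
    rw [← mul_sum] at h1
    have h2 : cnt (l ^ k) Q ≤ 8 * 2 := by
      rw [tqd_congr hQ]
      refine (tsd_cnt_fib (pow_pos hl.pos k) (A := fun r => (l : ℤ) ^ k ∣ r ^ 2 - 4 * (d.m * d.c))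
        (R := fun r Y => (l : ℤ) ^ k ∣ 2 * d.c * Y + d.b * r) (n := 2)
        (fun x y h1 hx => tsd_sq_per (by exact_mod_cast h1) hx) (fun x y z h1 hx => ?_)
        fun u => cnt_lin_le hl k hc _).trans (Nat.mul_le_mul_right _ (tsd_eight hl hmc k))
      push_cast at h1
      have := dvd_sub hx (h1.mul_left d.b)
      rwa [show 2 * d.c * z + d.b * x - d.b * (x - y) = 2 * d.c * z + d.b * y by ring] at this
    have h3 : (cnt (l ^ k) Q : ℝ) ≤ 16 := by exact_mod_cast h2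
    have h4 := mul_le_mul_of_nonneg_left hg (show (0 : ℝ) ≤ 896 * (k + 1) by positivity)
    have h5 : (1 : ℝ) ≤ (k + 1) ^ 3 := one_le_pow₀ hk
    have h6 : ((k : ℝ) + 1) ^ 2 ≤ (k + 1) ^ 3 := pow_le_pow_right₀ hk (by norm_num)
    nlinarith
  · obtain ⟨T, t1, t2⟩ := tsd_fam hl k (fun r => P r Y) (hP1 Y) fun r => J (d.Δ₂ r)
    obtain ⟨T', s1, s2⟩ : ∃ T' : Finset (ℕ × ℤ × ℕ), ∑ t ∈ T', tsd_pi l t / (l : ℝ) ^ t.1 ≤
        (if Q Y then 3328 else 0) ∧ (Q Y →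
        ∀ i < padicValInt l d.E + 1, ∀ x, (l : ℤ) ^ (2 * i) ∣ x ^ 2 - 4 * (d.m * d.c) →
          ∃ r : ℤ, (l : ℤ) ^ (2 * i) ∣ x - r ∧ (2 * i, r, i) ∈ T') := by
      by_cases h1 : Q Y
      · obtain ⟨T', s1, s2⟩ := tsd_tail hl (fun i x => (l : ℤ) ^ (2 * i) ∣ x ^ 2 - 4 * (d.m * d.c))
          (fun i x y h2 h3 => tsd_sq_per h2 h3) (fun i => tsd_eight hl hmc _)
          (padicValInt l d.E + 1)
        exact ⟨T', by rwa [if_pos h1], fun _ => s2⟩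
      · exact ⟨∅, by rw [sum_empty, if_neg h1], fun h2 => absurd h2 h1⟩
    refine tsd_ls h hl hm Y _ _ (T ∪ T') ((tsd_union T T').trans (add_le_add t1 s1)) ?_
    rintro X ⟨hB, -, -, u, u1, u2⟩
    refine ⟨hB, ?_⟩
    obtain ⟨i1, i2, -, -⟩ := ie_spec h hl X Y
    rw [xe, if_pos ha] at i1
    rw [Δe, if_pos ha] at i2
    push_cast at u1 u2
    by_cases hi : 2 * d.ie l X Y ≤ k
    · obtain ⟨r, r1, r2⟩ := t2 X ((hP _ _).2 ⟨u, u1, u2⟩)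
      refine ⟨_, mem_union_left _ r2, Nat.le_add_left _ _, r1, (hJ (d.Δ₂ r)).2.2.1 _ hi ?_⟩
      have := dvd_sub i2 ((pow_dvd_pow _ hi).trans (hD r1))
      rwa [sub_sub_cancel] at this
    · have h1 : (l : ℤ) ^ k ∣ (l : ℤ) ^ (2 * d.ie l X Y) := pow_dvd_pow _ (by omega)
      obtain ⟨r, r1, r2⟩ := s2 ((hQ _).2 ⟨X, h1.trans i2, h1.trans i1⟩) _ (tsd_ie_lt h hl X Y) X i2
      exact ⟨_, mem_union_right _ r2, Nat.le_add_right _ _, r1, le_rfl⟩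

theorem lev_three : ∃ K : ℝ, 1 ≤ K ∧ ∀ (d : Dt) (κ : ℕ), d.Good κ → ∀ l : ℕ, l.Prime →
    ¬ (l : ℤ) ∣ d.m → (l : ℤ) ∣ d.a → ¬ (l : ℤ) ∣ d.E → ∀ (k : ℕ) (b₀ : ℤ), d.LevM K l k b₀ := by
  classical
  refine ⟨448, by norm_num, fun d κ h l hl hm ha hE k b₀ => ?_⟩
  have hp := tqd_prime hl
  have hL : (1 : ℝ) ≤ (l : ℝ) ^ k := one_le_pow₀ (by exact_mod_cast hl.one_le)
  have hL0 : (0 : ℝ) < (l : ℝ) ^ k := by linarith
  have hk : (1 : ℝ) ≤ k + 1 := le_add_of_nonneg_left (Nat.cast_nonneg _)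
  have hb : ¬ (l : ℤ) ∣ d.b := fun hb => hE
    (dvd_sub (hb.trans (dvd_pow_self _ two_ne_zero)) ((ha.mul_left 4).mul_right _))
  refine ⟨fun _ => 448 * (k + 1) / (l : ℝ) ^ k, fun Y => ⟨by positivity, ?_⟩, fun _ _ _ => rfl,
    ?_, fun Y => ?_⟩
  · refine (div_le_self (by positivity) hL).trans ?_
    nlinarith
  · rw [sum_const, card_range, nsmul_eq_mul, Nat.cast_pow, mul_div_cancel₀ _ hL0.ne']
    have h6 : ((k : ℝ) + 1) ^ 1 ≤ (k + 1) ^ 3 := pow_le_pow_right₀ hk (by norm_num)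
    linarith
  · obtain ⟨T, t1, t2⟩ := tsd_fam' hl k (fun x => (l : ℤ) ^ k ∣ 4 * d.B x Y) (fun x y h1 h2 => by
      have := dvd_sub h2 (h1.mul_right (4 * (d.a * (x + y) + d.b * Y)))
      rwa [show 4 * d.B x Y - (x - y) * (4 * (d.a * (x + y) + d.b * Y)) = 4 * d.B y Y by
        simp only [B_eq]; ring] at this) 0
    have h1 : cnt (l ^ k) (fun x => (l : ℤ) ^ k ∣ 4 * d.B x Y) ≤ 4 := by
      refine tsd_four hl k fun x y hx hy => ?_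
      by_cases hY : (l : ℤ) ∣ Y
      · refine (hp.pow_dvd_of_dvd_mul_right k (fun h2 => ?_) hx).mul_right _
        rw [B_eq, ← add_assoc] at h2
        have h3 := (dvd_add_right (dvd_add (dvd_add (ha.mul_right _)
          ((hY.mul_left _).mul_right _)) ((hY.trans (dvd_pow_self Y two_ne_zero)).mul_left _))).1 h2
        exact (hp.dvd_or_dvd h3).elim hm hE
      · have h2 := dvd_sub hx hy
        rw [show 4 * d.B x Y - 4 * d.B y Y = 4 * (x - y) * (d.a * (x + y) + d.b * Y) by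
          simp only [B_eq]; ring] at h2
        refine hp.pow_dvd_of_dvd_mul_right k (fun h3 => ?_) h2
        exact (hp.dvd_or_dvd ((dvd_add_right (ha.mul_right _)).1 h3)).elim hb hY
    refine tsd_ls h hl hm Y _ _ T (t1.trans ?_) ?_
    · have h2 : (cnt (l ^ k) (fun x => (l : ℤ) ^ k ∣ 4 * d.B x Y) : ℝ) ≤ 4 := by exact_mod_cast h1
      have h3 := tsd_pi_le (l := l) (j := 0) (Nat.zero_le k) 0
      have h4 := tsd_pi_nonneg l (k, 0, 0)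
      rw [pow_zero, mul_one] at h3
      calc _ ≤ 4 * (112 * (k + 1 : ℝ) / (l : ℝ) ^ k) := by gcongr
        _ = _ := by ring
    · rintro X ⟨hB, u1, -⟩
      push_cast at u1
      obtain ⟨r, r1, r2⟩ := t2 X u1
      refine ⟨hB, _, r2, Nat.le_add_left _ _, r1, ?_⟩
      have := tsd_ie_lt h hl X Y
      rw [padicValInt.eq_zero_of_not_dvd hE] at this
      exact Nat.le_of_lt_succ this

theorem tsd_mono {d : Dt} {K K' : ℝ} {l k : ℕ} {b₀ : ℤ} (h : d.LevM K l k b₀) (hK : K ≤ K') :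
    d.LevM K' l k b₀ := by
  obtain ⟨M, h1, h2, h3, h4⟩ := h
  exact ⟨M, fun Y => ⟨(h1 Y).1, (h1 Y).2.trans (by gcongr)⟩, h2, h3.trans (by gcongr), h4⟩

theorem lev_all : ∃ K : ℝ, 1 ≤ K ∧ ∀ (d : Dt) (κ : ℕ), d.Good κ → ∀ l : ℕ, l.Prime →
    ¬ (l : ℤ) ∣ d.m → ∀ (k : ℕ) (b₀ : ℤ), d.LevM K l k b₀ := by
  obtain ⟨K₁, a1, h1⟩ := lev_one
  obtain ⟨K₂, a2, h2⟩ := lev_two
  obtain ⟨K₃, a3, h3⟩ := lev_three
  refine ⟨K₁ + K₂ + K₃, by linarith, fun d κ h l hl hm k b₀ => ?_⟩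
  by_cases ha : (l : ℤ) ∣ d.a
  · by_cases hE : (l : ℤ) ∣ d.E
    · exact tsd_mono (h2 d κ h l hl hm ha hE k b₀) (by linarith)
    · exact tsd_mono (h3 d κ h l hl hm ha hE k b₀) (by linarith)
  · exact tsd_mono (h1 d κ h l hl hm ha k b₀) (by linarith)

end Dt

end Pool.Agent.EQ
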