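import Pool.Agent.P.MP_ad7a55_nt.TRow
import Pool.Agent.P.MP_ad7a55_nt.TSc
import Pool.Agent.P.MP_ad7a55_nt.TSd
import Pool.Agent.P.MP_ad7a55_nt.TAvB
import Pool.Agent.P.MP_ad7a55_nt.TMx

/-! The counts. -/

set_option autoImplicit false

noncomputable section

open Finset Matrix

namespace Pool.Agent.EQ

theorem tcn_log (A : ℕ) (c : ℝ) : ∃ N₀ : ℕ, ∀ N : ℕ, N₀ ≤ N →
    c * Real.log N ^ A ≤ (N : ℝ) ^ (1 / 400 : ℝ) := by
  have h := (isLittleO_log_rpow_rpow_atTop (A : ℝ) (by norm_num : (0 : ℝ) < 1 / 400)).bound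
    (show (0 : ℝ) < 1 / (|c| + 1) by positivity)
  obtain ⟨x, hx⟩ := Filter.eventually_atTop.1 h
  refine ⟨⌈x⌉₊ + 1, fun N hN => ?_⟩
  have h1 : x ≤ N := (Nat.le_ceil x).trans (by exact_mod_cast (by omega : ⌈x⌉₊ ≤ N))
  have h2 := hx N h1
  have h3 : 0 ≤ Real.log N ^ A := pow_nonneg (Real.log_natCast_nonneg N) A
  have h4 : 0 ≤ (N : ℝ) ^ (1 / 400 : ℝ) := by positivity
  rw [Real.rpow_natCast, Real.norm_of_nonneg h3, Real.norm_of_nonneg h4, one_div_mul_eq_div,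
    le_div_iff₀ (by positivity)] at h2
  nlinarith [le_abs_self c]

theorem tcn_logge (c : ℝ) : ∃ N₀ : ℕ, ∀ N : ℕ, N₀ ≤ N → c ≤ Real.log N := by
  refine ⟨⌈Real.exp c⌉₊, fun N hN => ?_⟩
  have h : Real.exp c ≤ N := (Nat.le_ceil _).trans (by exact_mod_cast hN)
  exact (Real.le_log_iff_exp_le ((Real.exp_pos c).trans_le h)).2 h

theorem tcn_pow (N n : ℕ) : ((N : ℝ) ^ (1 / 400 : ℝ)) ^ n = (N : ℝ) ^ ((n : ℝ) / 400) := by
  rw [← Real.rpow_natCast, ← Real.rpow_mul (Nat.cast_nonneg N)]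
  congr 1
  ring

theorem tcn_full_pow (N : ℕ) : ((N : ℝ) ^ (1 / 400 : ℝ)) ^ 400 = N := by
  rw [tcn_pow]
  norm_num

theorem tcn_t {N : ℕ} {t : ℝ} (h : t ^ 200 ≤ N) : t ≤ ((N : ℝ) ^ (1 / 400 : ℝ)) ^ 2 := by
  refine le_of_pow_le_pow_left₀ (n := 200) (by norm_num) (by positivity) ?_
  rw [← pow_mul, show 2 * 200 = 400 from rfl, tcn_full_pow]
  exact h

theorem tcn_big (A : ℕ) : ∃ N₀ : ℕ, ∀ N H : ℕ, N₀ ≤ N → N ≤ H ^ 16 → ∀ t : ℝ, 1 ≤ t →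
    t ^ 200 ≤ N → t ^ 2 * Real.log N ^ A ≤ H := by
  obtain ⟨N₀, h⟩ := tcn_log A 1
  refine ⟨N₀ + 1, fun N H hN hH t ht htN => ?_⟩
  have h1 := h N (by omega)
  have h2 := tcn_t htN
  have hN1 : (1 : ℝ) ≤ N := by exact_mod_cast (by omega : 1 ≤ N)
  have hu : 1 ≤ (N : ℝ) ^ (1 / 400 : ℝ) := Real.one_le_rpow hN1 (by norm_num)
  have h3 : ((N : ℝ) ^ (1 / 400 : ℝ)) ^ 25 ≤ H := by
    refine le_of_pow_le_pow_left₀ (n := 16) (by norm_num) (by positivity) ?_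
    rw [← pow_mul, show 25 * 16 = 400 from rfl, tcn_full_pow]
    exact_mod_cast hH
  generalize (N : ℝ) ^ (1 / 400 : ℝ) = u at h1 h2 hu h3
  have h4 : 0 ≤ Real.log N ^ A := pow_nonneg (Real.log_natCast_nonneg N) A
  calc t ^ 2 * Real.log N ^ A ≤ (u ^ 2) ^ 2 * u :=
        mul_le_mul (pow_le_pow_left₀ (by linarith) h2 2) (by linarith) h4 (by positivity)
    _ = u ^ 5 := by ring
    _ ≤ u ^ 25 := pow_le_pow_right₀ hu (by norm_num)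
    _ ≤ H := h3

theorem tcn_rows (Z : Finset (ℤ × ℤ)) (f : ℤ → ℤ → ℝ) (g : ℝ)
    (h : ∀ (Y : ℤ) (T : Finset ℤ), T.Nonempty → (∀ X ∈ T, (X, Y) ∈ Z) → ∑ X ∈ T, f X Y ≤ g) :
    ∑ z ∈ Z, f z.1 z.2 ≤ (Z.image Prod.snd).card * g := by
  rw [← sum_fiberwise_of_maps_to (g := Prod.snd) (t := Z.image Prod.snd)
    (fun z hz => mem_image_of_mem _ hz), ← nsmul_eq_mul]
  refine sum_le_card_nsmul _ _ _ fun Y hY => ?_
  obtain ⟨z, hz, hzY⟩ := mem_image.1 hY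
  have e : ∑ z ∈ Z.filter (fun z => z.2 = Y), f z.1 z.2 =
      ∑ X ∈ (Z.filter (fun z => z.2 = Y)).image Prod.fst, f X Y := by
    rw [sum_image]
    · exact sum_congr rfl fun z hz => by rw [(mem_filter.1 hz).2]
    · intro a ha b hb hab
      exact Prod.ext hab ((mem_filter.1 ha).2.trans (mem_filter.1 hb).2.symm)
  rw [e]
  refine h Y _ ⟨z.1, mem_image_of_mem _ (mem_filter.2 ⟨hz, hzY⟩)⟩ fun X hX => ?_
  obtain ⟨w, hw, rfl⟩ := mem_image.1 hX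
  rw [← (mem_filter.1 hw).2]
  exact (mem_filter.1 hw).1

theorem tcn_four {x L : ℝ} (h0 : 0 ≤ x) (h1 : x ≤ L) (hL : 1 ≤ L) : x ^ (4 / 3 : ℝ) ≤ x * L := by
  rw [show (4 / 3 : ℝ) = 1 + 1 / 3 by norm_num, Real.rpow_add' h0 (by norm_num), Real.rpow_one]
  refine mul_le_mul_of_nonneg_left ?_ h0
  calc x ^ (1 / 3 : ℝ) ≤ L ^ (1 / 3 : ℝ) := Real.rpow_le_rpow h0 h1 (by norm_num)
    _ ≤ L ^ (1 : ℝ) := Real.rpow_le_rpow_of_exponent_le hL (by norm_num)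
    _ = L := Real.rpow_one L

namespace Dt

theorem tcn_ma {d : Dt} {κ : ℕ} (h : d.Good κ) : d.m * d.a ≠ 0 := by
  have h1 : (0 : ℤ) < d.G := by exact_mod_cast Nat.mul_pos h.g₁_pos h.g₂_pos
  exact mul_ne_zero (mul_ne_zero h.n_ne h1.ne') h.a_pos.ne'

theorem tcn_EE : ∃ C : ℝ, 0 < C ∧ ∀ (d : Dt) (H N : ℕ), d.Sz H N → 2 ≤ N →
    1 ≤ C * Real.log N * EE (d.G ^ 2 * d.E) (d.G ^ 2 * d.E).natAbs := by
  obtain ⟨C, hC, h⟩ := EE_log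
  refine ⟨8 * C, by positivity, fun d H N hs hN => ?_⟩
  have h1 := hs.low
  have h2 := hs.up
  generalize (d.G ^ 2 * d.E).natAbs = X at h1 h2 ⊢
  have h3 : 2 ≤ X := by
    by_contra hX
    have : X ^ 2 ≤ 1 ^ 2 := Nat.pow_le_pow_left (by omega) 2
    omega
  have h4 : Real.log X ≤ 8 * Real.log N := by
    have : Real.log X ≤ Real.log ((N : ℝ) ^ 8) :=
      Real.log_le_log (by exact_mod_cast (by omega : 0 < X)) (by exact_mod_cast h1)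
    rw [Real.log_pow] at this
    exact_mod_cast this
  refine (h (d.G ^ 2 * d.E) X h3).2.trans (mul_le_mul_of_nonneg_right ?_ (EE_pos _ _).le)
  nlinarith

theorem tcn_small {δ : ℝ} (hδ : 0 < δ) : ∃ N₀ : ℕ, ∀ (d : Dt) (H N : ℕ), d.Sz H N → N₀ ≤ N →
    ∀ t : ℝ, 1 ≤ t → t ^ 200 ≤ N → (N : ℝ) ^ (99 / 100 : ℝ) * H ≤
      δ / t * N * H * EE (d.G ^ 2 * d.E) (d.G ^ 2 * d.E).natAbs := by
  obtain ⟨C, hC, h⟩ := tcn_EE
  obtain ⟨N₀, h0⟩ := tcn_log 1 (C / δ)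
  refine ⟨N₀ + 2, fun d H N hs hN t ht htN => ?_⟩
  have h1 := h d H N hs (by omega)
  have h2 := h0 N (by omega)
  have h3 := tcn_t htN
  have h4 := tcn_full_pow N
  have h5 : (N : ℝ) ^ (99 / 100 : ℝ) = ((N : ℝ) ^ (1 / 400 : ℝ)) ^ 396 := by
    rw [tcn_pow]
    norm_num
  have hN1 : (1 : ℝ) ≤ N := by exact_mod_cast (by omega : 1 ≤ N)
  have hu : 1 ≤ (N : ℝ) ^ (1 / 400 : ℝ) := Real.one_le_rpow hN1 (by norm_num)
  have hE := EE_pos (d.G ^ 2 * d.E) (d.G ^ 2 * d.E).natAbs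
  rw [h5]
  generalize (N : ℝ) ^ (1 / 400 : ℝ) = u at h2 h3 h4 hu
  generalize EE (d.G ^ 2 * d.E) (d.G ^ 2 * d.E).natAbs = e at h1 hE
  rw [pow_one, div_mul_eq_mul_div, div_le_iff₀ hδ] at h2
  have h6 : 1 ≤ u * δ * e := h1.trans (mul_le_mul_of_nonneg_right h2 hE.le)
  have h7 : t ≤ u ^ 4 * δ * e :=
    calc t ≤ u ^ 2 := h3
      _ ≤ u ^ 3 * 1 := by rw [mul_one]; exact pow_le_pow_right₀ hu (by norm_num)
      _ ≤ u ^ 3 * (u * δ * e) := mul_le_mul_of_nonneg_left h6 (by positivity)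
      _ = u ^ 4 * δ * e := by ring
  have ht0 : 0 < t := by linarith
  have h8 : 1 ≤ u ^ 4 * δ * e / t := (one_le_div ht0).2 h7
  have h9 : u ^ 400 = u ^ 396 * u ^ 4 := pow_add u 396 4
  have h10 : 0 ≤ u ^ 396 := pow_nonneg (by linarith) _
  rw [← h4, h9]
  generalize u ^ 396 = v at h10 ⊢
  calc v * H = v * H * 1 := (mul_one _).symm
    _ ≤ v * H * (u ^ 4 * δ * e / t) := mul_le_mul_of_nonneg_left h8 (by positivity)
    _ = δ / t * (v * u ^ 4) * H * e := by ring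

theorem tcn_WS_eq {d : Dt} {S : Finset ℕ} {X Y : ℤ} (hS : S ⊆ d.PP X Y) :
    d.WS S d.Wt X Y = d.WW X Y := by
  rw [WS, WW, mul_comm, prod_sdiff hS]

theorem tcn_WS_le {d : Dt} {S : Finset ℕ} {X Y : ℤ} (hS : S ⊆ d.PP X Y) {w : ℕ → ℤ → ℤ → ℝ}
    (hw : ∀ l ∈ S, 0 ≤ w l X Y ∧ w l X Y ≤ d.Wt l X Y) : d.WS S w X Y ≤ d.WW X Y := by
  rw [← tcn_WS_eq hS, WS, WS]
  exact mul_le_mul_of_nonneg_right (prod_le_prod (fun l hl => (hw l hl).1) fun l hl => (hw l hl).2)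
    (prod_nonneg fun l _ => Wt_nonneg l X Y)

theorem tcn_PP {d : Dt} {κ : ℕ} (h : d.Good κ) {X Y : ℤ} (hB : d.B X Y ≠ 0) {l : ℕ}
    (hl : l.Prime) (hd : (l : ℤ) ∣ 2 * d.n * d.p * d.B X Y) : l ∈ d.PP X Y := by
  have hp : (d.p : ℤ) ≠ 0 := by exact_mod_cast h.prime.ne_zero
  refine Nat.mem_primeFactors.2 ⟨hl, Int.natCast_dvd.1 hd, Int.natAbs_ne_zero.2 ?_⟩
  exact mul_ne_zero (mul_ne_zero (mul_ne_zero two_ne_zero h.n_ne) hp) hB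

theorem tcn_card : ∃ C : ℝ, 0 < C ∧ ∀ (d : Dt) (κ H N : ℕ), d.Good κ → d.Sz H N →
    ∀ U : Finset ℤ, (∀ Y ∈ U, IsSquare (d.Δ₁ Y)) → (U.card : ℝ) ≤ C * Real.sqrt H := by
  obtain ⟨C, hC, h⟩ := div_bound (show (0 : ℝ) < 1 / 4 by norm_num)
  refine ⟨4 * C, by positivity, fun d κ H N hd hs U hU => ?_⟩
  have h0 := tcn_ma hd
  obtain ⟨h1, h2⟩ := card_deg h0
  have h3 : U.card ≤ 2 * (4 * (d.m * d.a).natAbs).divisors.card := by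
    rw [← Set.ncard_coe_finset]
    exact (Set.ncard_le_ncard (fun Y hY => hU Y hY) h1).trans h2
  have h4 := h (4 * (d.m * d.a).natAbs) (by have := Int.natAbs_pos.2 h0; omega)
  have h5 : (((d.m * d.a).natAbs : ℕ) : ℝ) ≤ (H : ℝ) ^ 2 := by
    have := hs.ma
    rw [← Int.natCast_natAbs] at this
    exact_mod_cast this
  have h6 : ((4 * (d.m * d.a).natAbs : ℕ) : ℝ) ^ (1 / 4 : ℝ) ≤ 2 * Real.sqrt H := by
    have e : (2 * Real.sqrt H) ^ 4 = 16 * (H : ℝ) ^ 2 := by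
      rw [mul_pow, show 4 = 2 * 2 from rfl, pow_mul (Real.sqrt H), Real.sq_sqrt (Nat.cast_nonneg H)]
      norm_num
    calc ((4 * (d.m * d.a).natAbs : ℕ) : ℝ) ^ (1 / 4 : ℝ)
        ≤ ((2 * Real.sqrt H) ^ 4) ^ (1 / 4 : ℝ) := by
          refine Real.rpow_le_rpow (Nat.cast_nonneg _) ?_ (by norm_num)
          rw [e, Nat.cast_mul]
          push_cast at h5 ⊢
          nlinarith [sq_nonneg (H : ℝ)]
      _ = 2 * Real.sqrt H := by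
          rw [one_div]
          exact_mod_cast Real.pow_rpow_inv_natCast (by positivity : 0 ≤ 2 * Real.sqrt H)
            (by norm_num : (4 : ℕ) ≠ 0)
  have h7 : (U.card : ℝ) ≤ 2 * ((4 * (d.m * d.a).natAbs).divisors.card : ℝ) := by
    exact_mod_cast h3
  nlinarith

theorem cnt_deg (n : ℤ) (p κ : ℕ) {δ : ℝ} (hδ : 0 < δ) : ∃ A N₀ : ℕ,
    ∀ d : Dt, d.Good κ → d.n = n → d.p = p → ∀ H N : ℕ, d.Sz H N → N₀ ≤ N →
    ∀ t : ℝ, 1 ≤ t → t ^ 2 * Real.log N ^ A ≤ H → t ^ 200 ≤ N → ∀ Z : Finset (ℤ × ℤ),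
    (∀ z ∈ Z, d.Box H N z.1 z.2 ∧ IsSquare (d.Δ₁ z.2)) →
    ∑ z ∈ Z, d.WW z.1 z.2 ≤ δ / t * N * H * EE (d.G ^ 2 * d.E) (d.G ^ 2 * d.E).natAbs := by
  classical
  obtain ⟨K, C, A, N₁, -, hC, hrow⟩ := cnt_row n p κ
  obtain ⟨N₂, hcr⟩ := crude_sum n p κ
  obtain ⟨N₃, hsm⟩ := tcn_small (half_pos hδ)
  obtain ⟨C₁, hC₁, hcard⟩ := tcn_card
  obtain ⟨C₂, hC₂, hEE⟩ := tcn_EE
  obtain ⟨N₄, hlog⟩ := tcn_logge (2 * C₁ * C * C₂ / δ)
  refine ⟨2 * (A + 2), N₁ + N₂ + N₃ + N₄ + 2, fun d hd hn hp H N hs hN t ht htH htN Z hZ => ?_⟩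
  rw [← sum_filter_add_sum_filter_not Z
    (fun z => d.JJ z.1 z.2 ^ 32 ≤ N ∧ d.QQ z.2 ^ 4 ≤ N)]
  have b2 : ∑ z ∈ Z.filter (fun z => ¬ (d.JJ z.1 z.2 ^ 32 ≤ N ∧ d.QQ z.2 ^ 4 ≤ N)),
      d.WW z.1 z.2 ≤ δ / 2 / t * N * H * EE (d.G ^ 2 * d.E) (d.G ^ 2 * d.E).natAbs := by
    refine le_trans (sum_le_sum fun z hz => ?_) ((hcr d hd hn hp H N hs (by omega) _
      fun z hz => ⟨(hZ z (mem_filter.1 hz).1).1, ?_⟩).trans (hsm d H N hs (by omega) t ht htN))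
    · rw [← tcn_WS_eq (empty_subset _)]
      exact WS_le hd (hZ z (mem_filter.1 hz).1).1.ne (empty_subset _) (by simp) (by simp)
    · have := (mem_filter.1 hz).2
      omega
  have hL : 0 ≤ Real.log N := Real.log_natCast_nonneg N
  have b1 := tcn_rows (Z.filter (fun z => d.JJ z.1 z.2 ^ 32 ≤ N ∧ d.QQ z.2 ^ 4 ≤ N)) d.WW
    (C * N * Real.log N ^ A) (by
      intro Y T ⟨X₀, hX₀⟩ hT
      have := (hrow d hd hn hp H N hs (by omega) ∅ (fun _ => 0) d.Wt (fun _ => 0) Y T (by simp)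
        (by simp only [prod_empty, one_pow]; omega) (by simp)
        (fun X hX => ⟨(hZ _ (mem_filter.1 (hT X hX)).1).1, empty_subset _, by simp,
          (mem_filter.1 (hT X hX)).2.1⟩) (mem_filter.1 (hT X₀ hX₀)).2.2).1
      rw [prod_empty, mul_one] at this
      exact le_trans (le_of_eq (sum_congr rfl fun X _ => (tcn_WS_eq (empty_subset _)).symm)) this)
  have b3 := hcard d κ H N hd hs ((Z.filter
    (fun z => d.JJ z.1 z.2 ^ 32 ≤ N ∧ d.QQ z.2 ^ 4 ≤ N)).image Prod.snd) (by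
      intro Y hY
      obtain ⟨z, hz, rfl⟩ := mem_image.1 hY
      exact (hZ z (mem_filter.1 hz).1).2)
  have b4 := b1.trans (mul_le_mul_of_nonneg_right b3 (by positivity))
  have h1 := hEE d H N hs (by omega)
  have h2 := hlog N (by omega)
  have hE := EE_pos (d.G ^ 2 * d.E) (d.G ^ 2 * d.E).natAbs
  have h3 : t * Real.log N ^ (A + 2) ≤ Real.sqrt H := by
    refine Real.le_sqrt_of_sq_le ?_
    rw [mul_pow, ← pow_mul, mul_comm (A + 2)]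
    exact htH
  have h4 : Real.sqrt H * Real.sqrt H = H := Real.mul_self_sqrt (Nat.cast_nonneg H)
  have h5 := Real.sqrt_nonneg (H : ℝ)
  have ht0 : 0 < t := by linarith
  generalize EE (d.G ^ 2 * d.E) (d.G ^ 2 * d.E).natAbs = e at h1 hE b2 ⊢
  generalize Real.sqrt H = s at h3 h4 h5 b4
  generalize Real.log N = L at h1 h2 h3 hL b4
  rw [div_le_iff₀ hδ] at h2
  have h6 : C₁ * C * L ^ A ≤ δ / 2 / t * s * e := by
    rw [div_mul_eq_mul_div, div_mul_eq_mul_div, le_div_iff₀ ht0]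
    calc C₁ * C * L ^ A * t = C₁ * C * L ^ A * t * 1 := (mul_one _).symm
      _ ≤ C₁ * C * L ^ A * t * (C₂ * L * e) := mul_le_mul_of_nonneg_left h1 (by positivity)
      _ = (2 * C₁ * C * C₂) * (L ^ A * t * L * e / 2) := by ring
      _ ≤ (L * δ) * (L ^ A * t * L * e / 2) := mul_le_mul_of_nonneg_right h2 (by positivity)
      _ = δ / 2 * (t * L ^ (A + 2)) * e := by ring
      _ ≤ δ / 2 * s * e := by gcongr
  have h7 : C₁ * s * (C * N * L ^ A) ≤ δ / 2 / t * N * H * e :=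
    calc C₁ * s * (C * N * L ^ A) = C₁ * C * L ^ A * (s * N) := by ring
      _ ≤ δ / 2 / t * s * e * (s * N) := mul_le_mul_of_nonneg_right h6 (by positivity)
      _ = δ / 2 / t * N * (s * s) * e := by ring
      _ = δ / 2 / t * N * H * e := by rw [h4]
  calc _ ≤ δ / 2 / t * N * H * e + δ / 2 / t * N * H * e := add_le_add (b4.trans h7) b2
    _ = δ / t * N * H * e := by ring

theorem tcn_main (n : ℤ) (p κ : ℕ) {δ : ℝ} (hδ : 0 < δ) : ∃ (C₀ C : ℝ) (N₀ : ℕ), 0 < C₀ ∧ 0 < C ∧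
    ∀ d : Dt, d.Good κ → d.n = n → d.p = p → ∀ H N : ℕ, d.Sz H N → N₀ ≤ N →
    ∀ (S : Finset ℕ) (k : ℕ → ℕ) (w : ℕ → ℤ → ℤ → ℝ) (M : ℕ → ℤ → ℝ) (Z : Finset (ℤ × ℤ))
      (q : ℕ) (ρ t : ℝ), (∀ l ∈ S, ¬ d.Dom l) → (∏ l ∈ S, l ^ k l) ^ 8 ≤ N →
    (∀ l ∈ S, ∀ Y, LS 1 l {X | (X, Y) ∈ Z} (fun X => d.B X Y) (fun X => w l X Y)
      (fun X => 2 * d.ie l X Y + k l) (M l Y) 2) →
    (∀ z ∈ Z, d.Box H N z.1 z.2 ∧ S ⊆ d.PP z.1 z.2 ∧ ¬ IsSquare (d.Δ₁ z.2) ∧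
      ∀ l ∈ S, 0 ≤ w l z.1 z.2 ∧ w l z.1 z.2 ≤ d.Wt l z.1 z.2) →
    0 < q → q ≤ H → 0 < ρ → (∀ l ∈ S, ∀ Y, 0 ≤ M l Y) →
    (∀ l ∈ S, ∀ Y Y', (q : ℤ) ∣ Y - Y' → M l Y = M l Y') →
    ∑ r ∈ range q, (∏ l ∈ S, C₀ * M l r) ^ (4 / 3 : ℝ) ≤ q * ρ ^ (4 / 3 : ℝ) →
    1 ≤ t → t ^ 200 ≤ N →
    ∑ z ∈ Z, d.WS S w z.1 z.2 ≤
      (C * ρ + δ / t) * N * H * EE (d.G ^ 2 * d.E) (d.G ^ 2 * d.E).natAbs := by
  classical
  obtain ⟨K, C, N₁, hK, hC, hgen⟩ := cnt_gen n p κ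
  obtain ⟨C₁, hC₁, hav⟩ := av_mul hK
  obtain ⟨N₂, hsm⟩ := tcn_small hδ
  refine ⟨C, C * C₁, N₁ + N₂, hC, by positivity,
    fun d hd hn hp H N hs hN S k w M Z q ρ t hD hk hLS hZ hq hqH hρ hM0 hMp hM ht htN => ?_⟩
  have h1 := hgen d hd hn hp H N hs (by omega) S k w M Z
    ((Icc (-(H : ℤ)) H).filter (fun Y => ¬ IsSquare (Y ^ 2 - 4 * (d.m * d.a)))) hD hk hLS (by
      intro z hz
      obtain ⟨a1, a2, a3, a4⟩ := hZ z hz
      refine ⟨a1, a2, mem_filter.2 ⟨mem_Icc.2 (abs_le.1 a1.y), a3⟩, fun h0 => a3 ?_,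
        fun l hl => ⟨(a4 l hl).1, (a4 l hl).2.trans
          (Wt_le hd (Nat.prime_of_mem_primeFactors (a2 hl)) a1.ne)⟩⟩
      rw [h0]
      exact ⟨0, rfl⟩)
  have h2 := hav (d.m * d.a) H N q (fun Y => ∏ l ∈ S, C * M l Y) ρ (tcn_ma hd) hs.ma hq hqH hρ
    (fun Y => prod_nonneg fun l hl => mul_nonneg hC.le (hM0 l hl Y))
    (fun Y Y' h => prod_congr rfl fun l hl => by rw [hMp l hl Y Y' h]) hM
  have h3 := hsm d H N hs (by omega) t ht htN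
  have hE := EE_pos (d.G ^ 2 * d.E) (d.G ^ 2 * d.E).natAbs
  refine h1.trans ((add_le_add (mul_le_mul_of_nonneg_left h2 (by positivity)) h3).trans
    (le_of_eq ?_))
  ring

theorem tcn_all (n : ℤ) (p κ : ℕ) : ∃ (C₀ C : ℝ) (N₀ : ℕ), 0 < C₀ ∧ 0 < C ∧
    ∀ d : Dt, d.Good κ → d.n = n → d.p = p → ∀ H N : ℕ, d.Sz H N → N₀ ≤ N → N ≤ H ^ 16 →
    ∀ (S : Finset ℕ) (k : ℕ → ℕ) (w : ℕ → ℤ → ℤ → ℝ) (M : ℕ → ℤ → ℝ) (Z : Finset (ℤ × ℤ))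
      (q : ℕ) (ρ t : ℝ), (∀ l ∈ S, ¬ d.Dom l) → (∏ l ∈ S, l ^ k l) ^ 8 ≤ N →
    (∀ l ∈ S, ∀ Y, LS 1 l {X | (X, Y) ∈ Z} (fun X => d.B X Y) (fun X => w l X Y)
      (fun X => 2 * d.ie l X Y + k l) (M l Y) 2) →
    (∀ z ∈ Z, d.Box H N z.1 z.2 ∧ S ⊆ d.PP z.1 z.2 ∧
      ∀ l ∈ S, 0 ≤ w l z.1 z.2 ∧ w l z.1 z.2 ≤ d.Wt l z.1 z.2) →
    0 < q → (q : ℝ) ≤ t ^ 2 → 0 < ρ → (∀ l ∈ S, ∀ Y, 0 ≤ M l Y) →
    (∀ l ∈ S, ∀ Y Y', (q : ℤ) ∣ Y - Y' → M l Y = M l Y') →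
    ∑ r ∈ range q, (∏ l ∈ S, C₀ * M l r) ^ (4 / 3 : ℝ) ≤ q * ρ ^ (4 / 3 : ℝ) →
    1 ≤ t → t ^ 200 ≤ N →
    ∑ z ∈ Z, d.WS S w z.1 z.2 ≤
      (C * ρ + 2 / t) * N * H * EE (d.G ^ 2 * d.E) (d.G ^ 2 * d.E).natAbs := by
  classical
  obtain ⟨C₀, C, N₁, hC₀, hC, hmain⟩ := tcn_main n p κ one_pos
  obtain ⟨A, N₂, hdeg⟩ := cnt_deg n p κ one_pos
  obtain ⟨N₃, hbig⟩ := tcn_big A
  obtain ⟨N₄, hbig'⟩ := tcn_big 0
  refine ⟨C₀, C, N₁ + N₂ + N₃ + N₄, hC₀, hC,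
    fun d hd hn hp H N hs hN hH S k w M Z q ρ t hD hk hLS hZ hq hqt hρ hM0 hMp hM ht htN => ?_⟩
  have hqH : q ≤ H := by
    have := hbig' N H (by omega) hH t ht htN
    rw [pow_zero, mul_one] at this
    exact_mod_cast hqt.trans this
  have h1 := hmain d hd hn hp H N hs (by omega) S k w M
    (Z.filter fun z => ¬ IsSquare (d.Δ₁ z.2)) q ρ t hD hk
    (fun l hl Y => (hLS l hl Y).mono le_rfl (fun X hX => (mem_filter.1 hX).1)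
      (fun _ _ => le_rfl) (fun _ _ => le_rfl) le_rfl le_rfl)
    (fun z hz => ⟨(hZ z (mem_filter.1 hz).1).1, (hZ z (mem_filter.1 hz).1).2.1,
      (mem_filter.1 hz).2, (hZ z (mem_filter.1 hz).1).2.2⟩) hq hqH hρ hM0 hMp hM ht htN
  have h2 := hdeg d hd hn hp H N hs (by omega) t ht (hbig N H (by omega) hH t ht htN) htN
    (Z.filter fun z => IsSquare (d.Δ₁ z.2))
    (fun z hz => ⟨(hZ z (mem_filter.1 hz).1).1, (mem_filter.1 hz).2⟩)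
  have h3 : ∑ z ∈ Z.filter (fun z => IsSquare (d.Δ₁ z.2)), d.WS S w z.1 z.2 ≤
      ∑ z ∈ Z.filter (fun z => IsSquare (d.Δ₁ z.2)), d.WW z.1 z.2 :=
    sum_le_sum fun z hz =>
      tcn_WS_le (hZ z (mem_filter.1 hz).1).2.1 (hZ z (mem_filter.1 hz).1).2.2
  rw [← sum_filter_add_sum_filter_not Z (fun z => IsSquare (d.Δ₁ z.2))]
  refine (add_le_add (h3.trans h2) h1).trans (le_of_eq ?_)
  ring

theorem cnt_one (n : ℤ) (p κ : ℕ) {δ : ℝ} (hδ : 0 < δ) : ∃ r N₀ : ℕ,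
    ∀ d : Dt, d.Good κ → d.n = n → d.p = p → ∀ H N : ℕ, d.Sz H N → N₀ ≤ N →
    ∀ Z : Finset (ℤ × ℤ), (∀ z ∈ Z, d.Box H N z.1 z.2 ∧ ¬ IsSquare (d.Δ₁ z.2) ∧
      (p : ℤ) ^ (padicValInt p d.E + r) ∣ d.B z.1 z.2) →
    ∑ z ∈ Z, d.WW z.1 z.2 ≤ δ * N * H * EE (d.G ^ 2 * d.E) (d.G ^ 2 * d.E).natAbs := by
  by_cases hp : p.Prime
  swap
  · exact ⟨0, 0, fun d hd _ h => absurd (h ▸ hd.prime) hp⟩
  obtain ⟨C₀, C, N₁, hC₀, hC, hmain⟩ := tcn_main n p κ (half_pos hδ)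
  obtain ⟨r, k, hls⟩ := ls_div hp (2 * n.natAbs + κ + 2)
    (show 0 < δ / (2 * C * C₀) by positivity)
  refine ⟨r, N₁ + (p ^ k) ^ 8 + 1, fun d hd hn hdp H N hs hN Z hZ => ?_⟩
  have hD : ¬ d.Dom p := fun h => h.1 hdp.symm
  have hv := (val_m hd hp hD).1
  rw [hn] at hv
  have hPP : ∀ z ∈ Z, {p} ⊆ d.PP z.1 z.2 := fun z hz =>
    singleton_subset_iff.2 (tcn_PP hd (hZ z hz).1.ne hp
      (by rw [hdp]; exact (dvd_mul_left _ _).mul_right _))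
  have h1 := hmain d hd hn hdp H N hs (by omega) {p} (fun _ => k) d.Wt
    (fun _ _ => δ / (2 * C * C₀)) Z 1 (C₀ * (δ / (2 * C * C₀))) 1
    (fun l hl => by rw [mem_singleton.1 hl]; exact hD) (by rw [prod_singleton]; omega)
    (fun l hl Y => by
      rw [mem_singleton.1 hl]
      exact (hls d κ hd hv Y).mono le_rfl
        (fun X hX => ⟨(hZ _ hX).1.ne, (hZ _ hX).2.2⟩)
        (fun X hX => Wt_le hd hp (hZ _ hX).1.ne) (fun _ _ => le_rfl) le_rfl le_rfl)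
    (fun z hz => ⟨(hZ z hz).1, hPP z hz, (hZ z hz).2.1,
      fun l _ => ⟨Wt_nonneg _ _ _, le_rfl⟩⟩)
    one_pos hs.one (by positivity) (fun _ _ _ => by positivity) (fun _ _ _ _ _ => rfl)
    (by simp) le_rfl (by rw [one_pow]; exact_mod_cast (by omega : 1 ≤ N))
  have e : C * (C₀ * (δ / (2 * C * C₀))) + δ / 2 / 1 = δ := by
    field_simp
    ring
  rw [e] at h1
  exact le_trans (le_of_eq (sum_congr rfl fun z hz => (tcn_WS_eq (hPP z hz)).symm)) h1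

theorem cnt_two (p : ℕ) (h2 : p ≠ 2) : ∃ C : ℝ, 0 < C ∧ ∀ k : ℕ, ∃ N₀ : ℕ,
    ∀ d : Dt, d.Good 0 → d.n = 1 → d.G = 1 → d.p = p → ¬ (p : ℤ) ∣ d.E → ∀ H N : ℕ, d.Sz H N →
    N₀ ≤ N → N ≤ H ^ 16 → ∀ Z : Finset (ℤ × ℤ), (∀ z ∈ Z, d.Box H N z.1 z.2) →
    ∑ z ∈ Z, d.WS {p} (fun l X Y => ((padicValInt l (d.B X Y) + 1 - k : ℕ) : ℝ)) z.1 z.2 ≤
      C / (p : ℝ) ^ k * N * H * EE d.E d.E.natAbs := by
  obtain ⟨C₀, C, N₁, hC₀, hC, hall⟩ := tcn_all 1 p 0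
  obtain ⟨K, hK, hls⟩ := ls_split
  refine ⟨C * C₀ * K + 2, by positivity, fun k => ⟨N₁ + (p ^ k) ^ 200,
    fun d hd hn hG hdp hE H N hs hN hH Z hZ => ?_⟩⟩
  have hp : p.Prime := hdp ▸ hd.prime
  have hD : ¬ d.Dom p := fun h => h.1 hdp.symm
  have hm : ¬ (p : ℤ) ∣ d.m := by
    rw [m, hn, hG]
    intro h
    exact hp.one_lt.ne' (Nat.dvd_one.1 (by exact_mod_cast h))
  obtain ⟨M, hM0, hMp, hM, hLS⟩ := hls d 0 hd p hp h2 hE hm k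
  have hp1 : 1 ≤ p ^ k := Nat.one_le_pow _ _ hp.pos
  have hp1' : (1 : ℝ) ≤ (p : ℝ) ^ k := by exact_mod_cast hp1
  have hdv : (p : ℤ) ∣ 2 * d.n * d.p := by rw [hdp]; exact dvd_mul_left _ _
  have h1 := hall d hd hn hdp H N hs (by omega) hH {p} (fun _ => k)
    (fun l X Y => ((padicValInt l (d.B X Y) + 1 - k : ℕ) : ℝ)) (fun _ => M) Z (p ^ (2 * k))
    (C₀ * (K / (p : ℝ) ^ k)) ((p : ℝ) ^ k)
    (fun l hl => by rw [mem_singleton.1 hl]; exact hD)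
    (by
      rw [prod_singleton]
      exact (Nat.pow_le_pow_right hp1 (by norm_num)).trans (by omega : (p ^ k) ^ 200 ≤ N))
    (fun l hl Y => by
      rw [mem_singleton.1 hl]
      exact (hLS Y).mono le_rfl (fun X hX => (hZ _ hX).ne) (fun _ _ => le_rfl)
        (fun _ _ => Nat.le_add_left _ _) le_rfl le_rfl)
    (fun z hz => ⟨hZ z hz, singleton_subset_iff.2 (tcn_PP hd (hZ z hz).ne hp (hdv.mul_right _)),
      fun l hl => ⟨Nat.cast_nonneg _, by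
        have := Fact.mk hp
        have hE0 : padicValInt p d.E = 0 := padicValInt.eq_zero_of_not_dvd hE
        rw [mem_singleton.1 hl, Wt, if_neg hD, if_pos hdv, W5, hE0, if_pos (Nat.zero_le _),
          padicValInt.mul (by norm_num) (hZ z hz).ne]
        have a1 : ((padicValInt p (d.B z.1 z.2) + 1 - k : ℕ) : ℝ) ≤
            ((1 + (padicValInt p 4 + padicValInt p (d.B z.1 z.2)) : ℕ) : ℝ) := by
          exact_mod_cast (by omega)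
        have a2 : (1 : ℝ) ≤ (p : ℝ) ^ d.ie p z.1 z.2 := by
          exact_mod_cast Nat.one_le_pow _ _ hp.pos
        refine a1.trans ?_
        rw [Nat.cast_add, Nat.cast_one]
        exact le_mul_of_one_le_left (by positivity) (by linarith)⟩⟩)
    (pow_pos hp.pos _) (le_of_eq (by push_cast; ring)) (by positivity) (fun _ _ => hM0)
    (fun _ _ => hMp)
    (by
      have e : ∀ r : ℕ, (∏ _l ∈ ({p} : Finset ℕ), C₀ * M r) ^ (4 / 3 : ℝ) =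
          C₀ ^ (4 / 3 : ℝ) * M r ^ (4 / 3 : ℝ) := fun r => by
        rw [prod_singleton, Real.mul_rpow hC₀.le (hM0 r)]
      rw [sum_congr rfl fun r _ => e r, ← mul_sum, Real.mul_rpow hC₀.le (by positivity),
        mul_left_comm]
      exact mul_le_mul_of_nonneg_left hM (by positivity))
    hp1' (by exact_mod_cast (by omega : (p ^ k) ^ 200 ≤ N))
  rw [hG, Nat.cast_one, one_pow, one_mul] at h1
  refine h1.trans (le_of_eq ?_)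
  ring

theorem cnt_three : ∃ (C : ℝ) (N₀ : ℕ), 0 < C ∧
    ∀ d : Dt, d.Good 0 → d.n = 1 → d.G = 1 → d.p = 2 → ∀ H N : ℕ, d.Sz H N → N₀ ≤ N →
    N ≤ H ^ 16 → ∀ (q : ℕ) (b₀ : ℤ), 0 < q → q ^ 200 ≤ N → ∀ Z : Finset (ℤ × ℤ),
    (∀ z ∈ Z, d.Box H N z.1 z.2 ∧ d.LevC q b₀ z.1 z.2) →
    ∑ z ∈ Z, d.WW z.1 z.2 ≤ C * (q : ℝ) ^ (-(3 / 5 : ℝ)) * N * H * EE d.E d.E.natAbs := by
  obtain ⟨C₀, C, N₁, hC₀, hC, hall⟩ := tcn_all 1 2 0
  obtain ⟨K, hK, hlev⟩ := lev_all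
  obtain ⟨C₁, hC₁, hom⟩ := omega_bound ((C₀ + 1) * K) (show (0 : ℝ) < 1 / 10 by norm_num)
  refine ⟨C * C₁ ^ (3 / 2 : ℝ) + 2, N₁, by positivity,
    fun d hd hn hG hdp H N hs hN hH q b₀ hq hqN Z hZ => ?_⟩
  have hm : ∀ l : ℕ, l.Prime → ¬ (l : ℤ) ∣ d.m := fun l hl => by
    rw [m, hn, hG]
    intro h
    exact hl.one_lt.ne' (Nat.dvd_one.1 (by exact_mod_cast h))
  have hex : ∀ l ∈ q.primeFactors, _ := fun l hl =>
    hlev d 0 hd l (Nat.prime_of_mem_primeFactors hl) (hm l (Nat.prime_of_mem_primeFactors hl))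
      (q.factorization l) b₀
  simp only [LevM] at hex
  choose! M hM0 hMp hM hLS using hex
  have hprod : ∏ l ∈ q.primeFactors, l ^ q.factorization l = q :=
    (Nat.prod_primeFactors_pow_factorization hq.ne').symm
  have hdv : ∀ l : ℕ, ((l ^ q.factorization l : ℕ) : ℤ) ∣ q := fun l =>
    Int.natCast_dvd_natCast.2 (Nat.ordProj_dvd q l)
  have hq1 : (1 : ℝ) ≤ q := by exact_mod_cast hq
  have hPP : ∀ z ∈ Z, q.primeFactors ⊆ d.PP z.1 z.2 := fun z hz l hl =>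
    tcn_PP hd (hZ z hz).1.ne (Nat.prime_of_mem_primeFactors hl) (by
      rw [hn, hdp]
      have := (Int.natCast_dvd_natCast.2 (Nat.dvd_of_mem_primeFactors hl)).trans (hZ z hz).2.1
      exact this)
  have hsum : ∑ r ∈ range q, (∏ l ∈ q.primeFactors, C₀ * M l r) ^ (4 / 3 : ℝ) ≤
      q * (C₁ ^ (3 / 2 : ℝ) * (q : ℝ) ^ (-(3 / 5 : ℝ))) ^ (4 / 3 : ℝ) := by
    have e1 := sum_period_prod q.primeFactors (fun l hl => Nat.prime_of_mem_primeFactors hl)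
      (fun l => q.factorization l) (fun l Y => (C₀ * M l Y) ^ (4 / 3 : ℝ))
      (fun l hl x y h => by rw [hMp l hl x y h])
    rw [hprod] at e1
    have e2 : ∀ r : ℕ, (∏ l ∈ q.primeFactors, C₀ * M l r) ^ (4 / 3 : ℝ) =
        ∏ l ∈ q.primeFactors, (C₀ * M l r) ^ (4 / 3 : ℝ) := fun r =>
      (Real.finsetProd_rpow _ _ (fun l hl => mul_nonneg hC₀.le (hM0 l hl r).1) _).symm
    have e3 : (q : ℝ) * (C₁ ^ (3 / 2 : ℝ) * (q : ℝ) ^ (-(3 / 5 : ℝ))) ^ (4 / 3 : ℝ) =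
        (C₁ * (q : ℝ) ^ (1 / 10 : ℝ)) ^ 2 := by
      have hq0 : (0 : ℝ) < q := by linarith
      rw [Real.mul_rpow (by positivity) (by positivity), ← Real.rpow_mul hC₁.le,
        ← Real.rpow_mul hq0.le, mul_pow, ← Real.rpow_natCast ((q : ℝ) ^ (1 / 10 : ℝ)),
        ← Real.rpow_mul hq0.le, mul_left_comm, ← Real.rpow_one_add' hq0.le (by norm_num),
        ← Real.rpow_natCast C₁]
      norm_num
    rw [sum_congr rfl fun r _ => e2 r, e1, e3]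
    refine le_trans ?_ (pow_le_pow_left₀ (prod_nonneg fun l _ => by positivity)
      (hom q hq.ne') 2)
    rw [← prod_pow]
    refine prod_le_prod (fun l hl => sum_nonneg fun r _ =>
      Real.rpow_nonneg (mul_nonneg hC₀.le (hM0 l hl r).1) _) fun l hl => ?_
    have a0 : (1 : ℝ) ≤ (q.factorization l : ℝ) + 1 := le_add_of_nonneg_left (Nat.cast_nonneg _)
    have a1 := hM0 l hl
    have a2 := hM l hl
    generalize (q.factorization l : ℝ) + 1 = j at a0 a1 a2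
    have a3 : j ^ 2 ≤ j ^ 3 := pow_le_pow_right₀ a0 (by norm_num)
    have a4 : 1 ≤ K * j ^ 3 := one_le_mul_of_one_le_of_one_le hK (one_le_pow₀ a0)
    have a5 : C₀ * (K * j ^ 3) ≤ (C₀ + 1) * K * j ^ 3 := by nlinarith
    have a6 : 1 ≤ (C₀ + 1) * K * j ^ 3 := by nlinarith
    calc ∑ r ∈ range (l ^ q.factorization l), (C₀ * M l r) ^ (4 / 3 : ℝ)
        ≤ ∑ r ∈ range (l ^ q.factorization l), C₀ * M l r * ((C₀ + 1) * K * j ^ 3) :=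
          sum_le_sum fun r _ => tcn_four (mul_nonneg hC₀.le (a1 r).1)
            (le_trans (mul_le_mul_of_nonneg_left ((a1 r).2.trans
              (mul_le_mul_of_nonneg_left a3 (by linarith))) hC₀.le) a5) a6
      _ = C₀ * (∑ r ∈ range (l ^ q.factorization l), M l r) * ((C₀ + 1) * K * j ^ 3) := by
          rw [mul_sum, sum_mul]
      _ ≤ (C₀ + 1) * K * j ^ 3 * ((C₀ + 1) * K * j ^ 3) :=
          mul_le_mul_of_nonneg_right ((mul_le_mul_of_nonneg_left a2 hC₀.le).trans a5)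
            (by linarith)
      _ = ((C₀ + 1) * K * j ^ 3) ^ 2 := (sq _).symm
  have h1 := hall d hd hn hdp H N hs hN hH q.primeFactors (fun l => q.factorization l) d.Wt M Z q
    (C₁ ^ (3 / 2 : ℝ) * (q : ℝ) ^ (-(3 / 5 : ℝ))) q
    (fun l hl h => by
      rw [Dom, hG, padicValNat_one_right] at h
      rcases h.2 with h | h
      · omega
      · exact (Nat.prime_of_mem_primeFactors hl).one_lt.ne' (Nat.dvd_one.1 h.2))
    (by rw [hprod]; exact (Nat.pow_le_pow_right hq (by norm_num)).trans hqN)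
    (fun l hl Y => (hLS l hl Y).mono le_rfl
      (fun X hX => by
        obtain ⟨a1, a2, ⟨u, a3, a4⟩, v, a5, a6⟩ := hZ _ hX
        exact ⟨a1.ne, (hdv l).trans a2, ⟨u, (hdv l).trans a3, (hdv l).trans a4⟩,
          v, (hdv l).trans a5, (hdv l).trans a6⟩)
      (fun X hX => Wt_le hd (Nat.prime_of_mem_primeFactors hl) (hZ _ hX).1.ne)
      (fun _ _ => le_rfl) le_rfl le_rfl)
    (fun z hz => ⟨(hZ z hz).1, hPP z hz, fun l _ => ⟨Wt_nonneg _ _ _, le_rfl⟩⟩)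
    hq (by nlinarith) (by positivity) (fun l hl Y => (hM0 l hl Y).1)
    (fun l hl Y Y' h => hMp l hl Y Y' (by exact_mod_cast (hdv l).trans h)) hsum hq1
    (by exact_mod_cast hqN)
  rw [hG, Nat.cast_one, one_pow, one_mul] at h1
  refine le_trans (le_of_eq (sum_congr rfl fun z hz => (tcn_WS_eq (hPP z hz)).symm))
    (h1.trans ?_)
  have h3 : 1 / (q : ℝ) ≤ (q : ℝ) ^ (-(3 / 5 : ℝ)) := by
    rw [one_div, ← Real.rpow_neg_one]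
    exact Real.rpow_le_rpow_of_exponent_le hq1 (by norm_num)
  have hE := EE_pos d.E d.E.natAbs
  have h4 : C * (C₁ ^ (3 / 2 : ℝ) * (q : ℝ) ^ (-(3 / 5 : ℝ))) + 2 / q ≤
      (C * C₁ ^ (3 / 2 : ℝ) + 2) * (q : ℝ) ^ (-(3 / 5 : ℝ)) := by
    rw [div_eq_mul_one_div 2 (q : ℝ)]
    linarith
  gcongr

end Dt

end Pool.Agent.EQ
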