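import Pool.Agent.Lib.Sieve.Upper
import Pool.Agent.P.MP_ad7a55_nt.CtA

/-! Sums over primes. -/

set_option autoImplicit false

noncomputable section

open Finset

namespace Pool.Agent.EQ

/-- The truncated Euler product of the symbol of `D`. -/
def EE (D : ℤ) (X : ℕ) : ℝ :=
  Real.exp (∑ l ∈ Nat.primesLE X, (jacobiSym D l : ℝ) / l)

/-- The expected size of the class number. -/
def HH (D : ℤ) : ℝ := Real.sqrt (-(D : ℝ)) * EE D D.natAbs

theorem EE_pos (D : ℤ) (X : ℕ) : 0 < EE D X := Real.exp_pos _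

theorem tpr_split (f : ℕ → ℝ) {z X : ℕ} (h : z ≤ X) :
    ∑ l ∈ Nat.primesLE X, f l =
      ∑ l ∈ Nat.primesLE z, f l + ∑ l ∈ (Nat.primesLE X).filter (fun l => z < l), f l := by
  rw [← sum_filter_add_sum_filter_not (Nat.primesLE X) (fun l => z < l), add_comm]
  have e : (Nat.primesLE X).filter (fun l => ¬ z < l) = Nat.primesLE z := by
    ext l
    simp only [mem_filter, Nat.mem_primesLE, not_lt]
    exact ⟨fun hl => ⟨hl.2, hl.1.2⟩, fun hl => ⟨⟨hl.1.trans h, hl.2⟩, hl.1⟩⟩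
  rw [e]

theorem tpr_jac (D : ℤ) (l : ℕ) : -1 ≤ (jacobiSym D l : ℝ) ∧ (jacobiSym D l : ℝ) ≤ 1 := by
  rcases jacobiSym.trichotomy D l with h | h | h <;> rw [h] <;> norm_num

theorem tpr_jac_le (D : ℤ) (l : ℕ) : (jacobiSym D l : ℝ) / l ≤ 1 / l :=
  div_le_div_of_nonneg_right (tpr_jac D l).2 (Nat.cast_nonneg l)

theorem tpr_le_jac (D : ℤ) (l : ℕ) : -(1 / (l : ℝ)) ≤ (jacobiSym D l : ℝ) / l := by
  rw [← neg_div]
  exact div_le_div_of_nonneg_right (tpr_jac D l).1 (Nat.cast_nonneg l)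

theorem tpr_sum_le (D : ℤ) (S : Finset ℕ) :
    ∑ l ∈ S, (jacobiSym D l : ℝ) / l ≤ ∑ l ∈ S, 1 / (l : ℝ) :=
  sum_le_sum fun l _ => tpr_jac_le D l

theorem tpr_le_sum (D : ℤ) (S : Finset ℕ) :
    -∑ l ∈ S, 1 / (l : ℝ) ≤ ∑ l ∈ S, (jacobiSym D l : ℝ) / l := by
  rw [← sum_neg_distrib]
  exact sum_le_sum fun l _ => tpr_le_jac D l

theorem tpr_logdiv {z X : ℕ} (hz : 2 ≤ z) (h : z ≤ X) :
    Real.log (Real.log X / Real.log z) = Real.log (Real.log X) - Real.log (Real.log z) := by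
  have h1 := Lib.Sieve.one_half_le_log hz
  have h2 := Lib.Sieve.one_half_le_log (hz.trans h)
  exact Real.log_div (by linarith) (by linarith)

theorem range_le {z X : ℕ} (hz : 2 ≤ z) (h : z ≤ X) :
    ∑ l ∈ (Nat.primesLE X).filter (fun l => z < l), 1 / (l : ℝ) ≤
      Real.log (Real.log X / Real.log z) + 9 := by
  have h1 := tpr_split (fun l => 1 / (l : ℝ)) h
  have h2 := Lib.Sieve.sum_inv_primes_le (hz.trans h)
  have h3 := Lib.Sieve.le_sum_inv_primes hz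
  rw [tpr_logdiv hz h]
  linarith

theorem le_range {z X : ℕ} (hz : 2 ≤ z) (h : z ≤ X) :
    Real.log (Real.log X / Real.log z) - 9 ≤
      ∑ l ∈ (Nat.primesLE X).filter (fun l => z < l), 1 / (l : ℝ) := by
  have h1 := tpr_split (fun l => 1 / (l : ℝ)) h
  have h2 := Lib.Sieve.le_sum_inv_primes (hz.trans h)
  have h3 := Lib.Sieve.sum_inv_primes_le hz
  rw [tpr_logdiv hz h]
  linarith

/-- Primes between `z` and `z ^ A` contribute a bounded amount. -/
theorem range_pow (A : ℕ) : ∃ C : ℝ, ∀ z X : ℕ, X ≤ z ^ A →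
    ∑ l ∈ (Nat.primesLE X).filter (fun l => z < l), 1 / (l : ℝ) ≤ C := by
  refine ⟨A + 9, fun z X hX => ?_⟩
  by_cases hne : ((Nat.primesLE X).filter (fun l => z < l)).Nonempty
  · obtain ⟨l, hl⟩ := hne
    have hl1 := mem_filter.1 hl
    have hl2 := Nat.mem_primesLE.1 hl1.1
    have hl3 := hl2.2.two_le
    have hz : 2 ≤ z := by
      by_contra hz
      have : z ^ A ≤ 1 ^ A := Nat.pow_le_pow_left (by omega) A
      rw [one_pow] at this
      omega
    have h : z ≤ X := by omega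
    have h1 := Lib.Sieve.one_half_le_log hz
    have h2 := Lib.Sieve.one_half_le_log (hz.trans h)
    have h3 : Real.log X ≤ A * Real.log z := by
      rw [← Real.log_pow]
      apply Real.log_le_log
      · exact_mod_cast (by omega : 0 < X)
      · exact_mod_cast hX
    have h4 : Real.log X / Real.log z ≤ A := by
      rw [div_le_iff₀ (by linarith)]; exact h3
    have h5 := Real.log_le_sub_one_of_pos (x := Real.log X / Real.log z)
      (div_pos (by linarith) (by linarith))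
    have h6 := range_le hz h
    linarith
  · rw [not_nonempty_iff_eq_empty.1 hne, sum_empty]
    positivity

theorem sum_big_primeFactors {n : ℕ} {z : ℝ} (hz : 0 < z) (hn : n ≠ 0) :
    ∑ l ∈ n.primeFactors.filter (fun l : ℕ => z < l), 1 / (l : ℝ) ≤ 2 * Real.log n / z := by
  have h1 := Lib.Sieve.sum_log_primeFactors_le hn
  calc ∑ l ∈ n.primeFactors.filter (fun l : ℕ => z < l), 1 / (l : ℝ)
      ≤ ∑ l ∈ n.primeFactors.filter (fun l : ℕ => z < l), 2 / z * Real.log l := by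
        refine sum_le_sum fun l hl => ?_
        have hl1 := mem_filter.1 hl
        have h2 := Lib.Sieve.one_half_le_log (Nat.prime_of_mem_primeFactors hl1.1).two_le
        calc 1 / (l : ℝ) ≤ 1 / z := one_div_le_one_div_of_le hz hl1.2.le
          _ = 2 / z * (1 / 2) := by ring
          _ ≤ _ := mul_le_mul_of_nonneg_left h2 (by positivity)
    _ ≤ ∑ l ∈ n.primeFactors, 2 / z * Real.log l :=
        sum_le_sum_of_subset_of_nonneg (filter_subset _ _) fun l _ _ =>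
          mul_nonneg (by positivity) (Real.log_natCast_nonneg l)
    _ = 2 / z * ∑ l ∈ n.primeFactors, Real.log l := by rw [mul_sum]
    _ ≤ 2 / z * Real.log n := mul_le_mul_of_nonneg_left h1 (by positivity)
    _ = _ := by ring

theorem tpr_exp_le {w : ℝ} (hw : 0 ≤ w) : Real.exp w ≤ (1 + w) * Real.exp (w ^ 2) := by
  have h1 : 0 < 1 + w := by linarith
  have h2 := Real.one_sub_inv_le_log_of_pos h1
  have h3 : w - w ^ 2 ≤ 1 - (1 + w)⁻¹ := by
    have e : 1 - (1 + w)⁻¹ = w - w ^ 2 + w ^ 3 / (1 + w) := by field_simp; ring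
    have : 0 ≤ w ^ 3 / (1 + w) := by positivity
    linarith
  calc Real.exp w ≤ Real.exp (Real.log (1 + w) + w ^ 2) := Real.exp_le_exp.2 (by linarith)
    _ = _ := by rw [Real.exp_add, Real.exp_log h1]

theorem tpr_half {y : ℕ} (hy : 8 ≤ y) (P : Finset ℕ) (w : ℕ → ℝ)
    (hP : ∀ p ∈ P, p.Prime ∧ p ≤ y) (hw0 : ∀ p ∈ P, 0 ≤ w p) (hw2 : ∀ p ∈ P, w p ≤ 2 / p) :
    (∏ p ∈ P, (1 + w p)) / 2 ≤
      ∑ S ∈ P.powerset.filter (fun S => ∏ l ∈ S, l ≤ y ^ 9), ∏ l ∈ S, w l := by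
  have hl := Lib.Sieve.two_le_log hy
  have hl0 : 0 < Real.log y := by linarith
  have hy0 : (0 : ℝ) < y := by positivity
  set κ := 1 / Real.log y with hκ
  have hκ0 : 0 < κ := by positivity
  have hsplit : ∏ p ∈ P, (1 + w p) =
      ∑ S ∈ P.powerset.filter (fun S => ∏ l ∈ S, l ≤ y ^ 9), ∏ l ∈ S, w l +
      ∑ S ∈ P.powerset.filter (fun S => ¬ ∏ p ∈ S, p ≤ y ^ 9), ∏ p ∈ S, w p := by
    rw [prod_one_add, sum_filter_add_sum_filter_not]
  have htail : ∑ S ∈ P.powerset.filter (fun S => ¬ ∏ p ∈ S, p ≤ y ^ 9), ∏ p ∈ S, w p ≤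
      Real.exp (-9) * ∏ p ∈ P, (1 + w p * (p : ℝ) ^ κ) := by
    rw [prod_one_add, mul_sum]
    refine le_trans (sum_le_sum fun S hS => ?_) (sum_le_sum_of_subset_of_nonneg
      (filter_subset (fun S => ¬ ∏ p ∈ S, p ≤ y ^ 9) _) fun S hS _ => ?_)
    · have hS' := mem_powerset.1 (mem_filter.1 hS).1
      have hS2 : y ^ 9 ≤ ∏ p ∈ S, p := (not_le.1 (mem_filter.1 hS).2).le
      rw [prod_mul_distrib, Real.finsetProd_rpow _ _ (fun p _ => by positivity), ← Nat.cast_prod]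
      have h3 : Real.exp 9 ≤ ((∏ p ∈ S, p : ℕ) : ℝ) ^ κ := by
        calc Real.exp 9 = ((y ^ 9 : ℕ) : ℝ) ^ κ := by
              rw [Real.rpow_def_of_pos (by positivity)]
              push_cast
              rw [Real.log_pow, hκ]
              congr 1
              field_simp
              norm_num
          _ ≤ _ := Real.rpow_le_rpow (by positivity) (by exact_mod_cast hS2) hκ0.le
      have h4 : 0 ≤ ∏ p ∈ S, w p := prod_nonneg fun p hp => hw0 p (hS' hp)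
      calc ∏ p ∈ S, w p = Real.exp (-9) * ((∏ p ∈ S, w p) * Real.exp 9) := by
            rw [Real.exp_neg]; field_simp
        _ ≤ _ := by gcongr
    · have hS' := mem_powerset.1 hS
      exact mul_nonneg (Real.exp_pos _).le
        (prod_nonneg fun p hp => mul_nonneg (hw0 p (hS' hp)) (by positivity))
  have hfac : ∀ p ∈ P, 1 + w p * (p : ℝ) ^ κ ≤
      (1 + w p) * Real.exp (4 * κ * (Real.log p / p)) := by
    intro p hp
    obtain ⟨hpp, hpy⟩ := hP p hp
    have hp0 : (0 : ℝ) < p := by exact_mod_cast hpp.pos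
    have hlp : 0 ≤ Real.log p := Real.log_natCast_nonneg p
    have hu : Real.log p * κ ≤ 1 := by
      rw [hκ, mul_one_div, div_le_one hl0]
      exact Real.log_le_log hp0 (by exact_mod_cast hpy)
    have hu0 : 0 ≤ Real.log p * κ := by positivity
    have h3 : (p : ℝ) ^ κ - 1 ≤ 2 * (Real.log p * κ) := by
      rw [Real.rpow_def_of_pos hp0]
      have := Real.abs_exp_sub_one_le (x := Real.log p * κ) (by rwa [abs_of_nonneg hu0])
      rw [abs_of_nonneg hu0] at this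
      exact (le_abs_self _).trans this
    have h5 : 1 + 4 * κ * (Real.log p / p) ≤ Real.exp (4 * κ * (Real.log p / p)) := by
      have := Real.add_one_le_exp (4 * κ * (Real.log p / p)); linarith
    have hw := hw0 p hp
    have h6 : w p * (2 * (Real.log p * κ)) ≤ 4 * κ * (Real.log p / p) := by
      calc w p * (2 * (Real.log p * κ)) ≤ 2 / p * (2 * (Real.log p * κ)) :=
            mul_le_mul_of_nonneg_right (hw2 p hp) (by positivity)
        _ = _ := by ring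
    have h7 : 0 ≤ w p * (4 * κ * (Real.log p / p)) := by positivity
    calc 1 + w p * (p : ℝ) ^ κ = (1 + w p) + w p * ((p : ℝ) ^ κ - 1) := by ring
      _ ≤ (1 + w p) + w p * (2 * (Real.log p * κ)) := by gcongr
      _ ≤ (1 + w p) * (1 + 4 * κ * (Real.log p / p)) := by linarith
      _ ≤ _ := mul_le_mul_of_nonneg_left h5 (by linarith)
  have hsum : 4 * κ * ∑ p ∈ P, Real.log p / p ≤ 7 := by
    have h3 : ∑ p ∈ P, Real.log p / p ≤ ∑ p ∈ Nat.primesLE y, Real.log p / p := by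
      refine sum_le_sum_of_subset_of_nonneg (fun p hp => ?_) fun p _ _ => ?_
      · exact Nat.mem_primesLE.2 ⟨(hP p hp).2, (hP p hp).1⟩
      · have := Real.log_natCast_nonneg p; positivity
    have h4 := Lib.Sieve.sum_log_div_le (N := y) (by omega)
    have h5 := Lib.Sieve.log_four_le
    calc 4 * κ * ∑ p ∈ P, Real.log p / p ≤ 4 * κ * (Real.log y + 3 / 2) := by
          apply mul_le_mul_of_nonneg_left _ (by positivity); linarith
      _ = 4 * (Real.log y + 3 / 2) / Real.log y := by rw [hκ]; ring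
      _ ≤ 7 := by rw [div_le_iff₀ hl0]; linarith
  have hpos : 0 ≤ ∏ p ∈ P, (1 + w p) := prod_nonneg fun p hp => by have := hw0 p hp; positivity
  have hprod : ∏ p ∈ P, (1 + w p * (p : ℝ) ^ κ) ≤ (∏ p ∈ P, (1 + w p)) * Real.exp 7 := by
    calc ∏ p ∈ P, (1 + w p * (p : ℝ) ^ κ)
        ≤ ∏ p ∈ P, ((1 + w p) * Real.exp (4 * κ * (Real.log p / p))) :=
          prod_le_prod (fun p hp => by have := hw0 p hp; positivity) hfac
      _ = (∏ p ∈ P, (1 + w p)) * Real.exp (4 * κ * ∑ p ∈ P, Real.log p / p) := by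
          rw [prod_mul_distrib, mul_sum, Real.exp_sum]
      _ ≤ _ := mul_le_mul_of_nonneg_left (Real.exp_le_exp.2 hsum) hpos
  have he : Real.exp (-9) * Real.exp 7 ≤ 1 / 2 := by
    rw [← Real.exp_add]
    have : Real.exp (-9 + 7) = (Real.exp 2)⁻¹ := by rw [← Real.exp_neg]; norm_num
    rw [this]
    have h3 : 2 ≤ Real.exp 2 := by have := Real.add_one_le_exp 2; linarith
    rw [inv_eq_one_div]
    exact one_div_le_one_div_of_le (by norm_num) h3
  have : Real.exp (-9) * ∏ p ∈ P, (1 + w p * (p : ℝ) ^ κ) ≤ (∏ p ∈ P, (1 + w p)) / 2 := by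
    calc _ ≤ Real.exp (-9) * ((∏ p ∈ P, (1 + w p)) * Real.exp 7) := by gcongr
      _ = (∏ p ∈ P, (1 + w p)) * (Real.exp (-9) * Real.exp 7) := by ring
      _ ≤ (∏ p ∈ P, (1 + w p)) * (1 / 2) := by gcongr
      _ = _ := by ring
  linarith

theorem rev_rankin : ∃ C : ℝ, 0 < C ∧ ∀ (X : ℕ) (P : Finset ℕ) (g : ℕ → ℝ), 1 ≤ X →
    (∀ l ∈ P, l.Prime ∧ l ≤ X) → (∀ l ∈ P, 0 ≤ g l ∧ g l ≤ 2) →
    Real.exp (∑ l ∈ P, g l / l) ≤
      C * ∑ S ∈ P.powerset.filter (fun S => ∏ l ∈ S, l ≤ X ^ 9), ∏ l ∈ S, g l / l := by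
  refine ⟨2 * Real.exp 4, by positivity, fun X P g hX hP hg => ?_⟩
  have hw0 : ∀ p ∈ P, 0 ≤ g p / p := fun p hp => div_nonneg (hg p hp).1 (Nat.cast_nonneg p)
  have hw2 : ∀ p ∈ P, g p / p ≤ 2 / p := fun p hp =>
    div_le_div_of_nonneg_right (hg p hp).2 (Nat.cast_nonneg p)
  by_cases hy : 8 ≤ X
  · have h1 := tpr_half hy P (fun p => g p / p) hP hw0 hw2
    have h2 : ∑ p ∈ P, (g p / p) ^ 2 ≤ 4 := by
      have h3 := Lib.Sieve.sum_inv_sq_primes_le P fun p hp => (hP p hp).1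
      calc ∑ p ∈ P, (g p / p) ^ 2 ≤ ∑ p ∈ P, 4 * (1 / (p : ℝ)) ^ 2 := by
            refine sum_le_sum fun p hp => ?_
            calc (g p / p) ^ 2 ≤ (2 / p) ^ 2 := pow_le_pow_left₀ (hw0 p hp) (hw2 p hp) 2
              _ = _ := by ring
        _ = 4 * ∑ p ∈ P, (1 / (p : ℝ)) ^ 2 := by rw [mul_sum]
        _ ≤ 4 := by linarith
    have hpos : 0 ≤ ∏ p ∈ P, (1 + g p / p) :=
      prod_nonneg fun p hp => by have := hw0 p hp; positivity
    calc Real.exp (∑ l ∈ P, g l / l) = ∏ l ∈ P, Real.exp (g l / l) := Real.exp_sum _ _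
      _ ≤ ∏ l ∈ P, ((1 + g l / l) * Real.exp ((g l / l) ^ 2)) :=
          prod_le_prod (fun _ _ => (Real.exp_pos _).le) fun l hl => tpr_exp_le (hw0 l hl)
      _ = (∏ l ∈ P, (1 + g l / l)) * Real.exp (∑ l ∈ P, (g l / l) ^ 2) := by
          rw [prod_mul_distrib, Real.exp_sum]
      _ ≤ (∏ l ∈ P, (1 + g l / l)) * Real.exp 4 :=
          mul_le_mul_of_nonneg_left (Real.exp_le_exp.2 h2) hpos
      _ = 2 * Real.exp 4 * ((∏ l ∈ P, (1 + g l / l)) / 2) := by ring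
      _ ≤ _ := mul_le_mul_of_nonneg_left h1 (by positivity)
  · have h1 : (1 : ℝ) ≤
        ∑ S ∈ P.powerset.filter (fun S => ∏ l ∈ S, l ≤ X ^ 9), ∏ l ∈ S, g l / l := by
      have hm : (∅ : Finset ℕ) ∈ P.powerset.filter (fun S => ∏ l ∈ S, l ≤ X ^ 9) := by
        rw [mem_filter, prod_empty]
        exact ⟨empty_mem_powerset P, Nat.one_le_pow _ _ hX⟩
      have := single_le_sum (f := fun S : Finset ℕ => ∏ l ∈ S, g l / l)
        (fun S hS => prod_nonneg fun l hl => hw0 l (mem_powerset.1 (mem_filter.1 hS).1 hl)) hm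
      rwa [prod_empty] at this
    have h2 : ∑ l ∈ P, g l / l ≤ 4 := by
      have hsub : P ⊆ {2, 3, 5, 7} := fun l hl => by
        obtain ⟨h3, h4⟩ := hP l hl
        have h5 : l ≤ 7 := by omega
        interval_cases l <;> simp_all (decide := true)
      calc ∑ l ∈ P, g l / l ≤ ∑ l ∈ P, 2 / (l : ℝ) := sum_le_sum hw2
        _ ≤ ∑ l ∈ ({2, 3, 5, 7} : Finset ℕ), 2 / (l : ℝ) :=
            sum_le_sum_of_subset_of_nonneg hsub fun _ _ _ => by positivity
        _ ≤ 4 := by norm_num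
    have h3 := Real.exp_le_exp.2 h2
    have h4 := Real.exp_pos 4
    nlinarith

theorem EE_comp (A : ℕ) : ∃ C : ℝ, 0 < C ∧ ∀ (D : ℤ) (X Y : ℕ), X ≤ Y ^ A → Y ≤ X ^ A →
    EE D X ≤ C * EE D Y := by
  obtain ⟨C, hC⟩ := range_pow A
  refine ⟨Real.exp C, Real.exp_pos _, fun D X Y h1 h2 => ?_⟩
  rw [EE, EE, ← Real.exp_add]
  apply Real.exp_le_exp.2
  rcases le_total X Y with h | h
  · have h3 := tpr_split (fun l => (jacobiSym D l : ℝ) / l) h
    have h4 := tpr_le_sum D ((Nat.primesLE Y).filter (fun l => X < l))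
    have h5 := hC X Y h2
    linarith
  · have h3 := tpr_split (fun l => (jacobiSym D l : ℝ) / l) h
    have h4 := tpr_sum_le D ((Nat.primesLE X).filter (fun l => Y < l))
    have h5 := hC Y X h1
    linarith

theorem EE_log : ∃ C : ℝ, 0 < C ∧ ∀ (D : ℤ) (X : ℕ), 2 ≤ X →
    EE D X ≤ C * Real.log X ∧ 1 ≤ C * Real.log X * EE D X := by
  refine ⟨Real.exp 7, Real.exp_pos _, fun D X hX => ?_⟩
  have h1 := Lib.Sieve.sum_inv_primes_le hX
  have h2 := Lib.Sieve.one_half_le_log hX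
  have h3 : Real.exp 7 * Real.log X = Real.exp (Real.log (Real.log X) + 7) := by
    rw [Real.exp_add, Real.exp_log (by linarith), mul_comm]
  have h4 := tpr_sum_le D (Nat.primesLE X)
  have h5 := tpr_le_sum D (Nat.primesLE X)
  rw [h3, EE, ← Real.exp_add]
  exact ⟨Real.exp_le_exp.2 (by linarith), Real.one_le_exp (by linarith)⟩

theorem exp_primes_le (K : ℕ) : ∃ C : ℝ, 0 < C ∧ ∀ X : ℕ, 2 ≤ X →
    Real.exp (K * ∑ l ∈ Nat.primesLE X, 1 / (l : ℝ)) ≤ C * Real.log X ^ K := by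
  refine ⟨Real.exp 7 ^ K, by positivity, fun X hX => ?_⟩
  have h1 := Lib.Sieve.sum_inv_primes_le hX
  have h2 := Lib.Sieve.one_half_le_log hX
  have h3 : Real.exp 7 * Real.log X = Real.exp (Real.log (Real.log X) + 7) := by
    rw [Real.exp_add, Real.exp_log (by linarith), mul_comm]
  rw [← mul_pow, h3, Real.exp_nat_mul]
  exact pow_le_pow_left₀ (Real.exp_pos _).le (Real.exp_le_exp.2 h1) K

theorem tpr_omega (K : ℝ) {ε : ℝ} (hε : 0 < ε) : ∃ C : ℝ, 0 < C ∧ ∀ n : ℕ, n ≠ 0 →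
    ∏ l ∈ n.primeFactors, (|K| * (n.factorization l + 1) ^ 3) ≤ C * (n : ℝ) ^ ε := by
  obtain ⟨j, hj⟩ := pow_unbounded_of_one_lt |K| (one_lt_two (α := ℝ))
  have hj3 : (0 : ℝ) < ((j + 3 : ℕ) : ℝ) := by positivity
  obtain ⟨C, hC, hd⟩ := div_bound (ε := ε / ((j + 3 : ℕ) : ℝ)) (by positivity)
  refine ⟨C ^ (j + 3), by positivity, fun n hn => ?_⟩
  have h1 := hd n (Nat.pos_of_ne_zero hn)
  have h2 : (n.divisors.card : ℝ) = ∏ l ∈ n.primeFactors, ((n.factorization l : ℝ) + 1) := by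
    rw [Nat.card_divisors hn]; push_cast; rfl
  calc ∏ l ∈ n.primeFactors, (|K| * ((n.factorization l : ℝ) + 1) ^ 3)
      ≤ ∏ l ∈ n.primeFactors, ((n.factorization l : ℝ) + 1) ^ (j + 3) := by
        refine prod_le_prod (fun l _ => by positivity) fun l hl => ?_
        have h3 : 0 < n.factorization l := (Nat.prime_of_mem_primeFactors hl).factorization_pos_of_dvd
          hn (Nat.dvd_of_mem_primeFactors hl)
        have h4 : (2 : ℝ) ≤ (n.factorization l : ℝ) + 1 := by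
          have : (1 : ℝ) ≤ n.factorization l := by exact_mod_cast h3
          linarith
        rw [pow_add]
        exact mul_le_mul_of_nonneg_right
          (hj.le.trans (pow_le_pow_left₀ (by norm_num) h4 j)) (by positivity)
    _ = (n.divisors.card : ℝ) ^ (j + 3) := by rw [prod_pow, h2]
    _ ≤ (C * (n : ℝ) ^ (ε / ((j + 3 : ℕ) : ℝ))) ^ (j + 3) :=
        pow_le_pow_left₀ (by positivity) h1 _
    _ = _ := by
        rw [mul_pow, ← Real.rpow_mul_natCast (Nat.cast_nonneg n), div_mul_cancel₀ _ hj3.ne']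

theorem tpr_exp_pf {ε : ℝ} (hε : 0 < ε) : ∃ C : ℝ, 0 < C ∧ ∀ n : ℕ, n ≠ 0 →
    Real.exp (∑ l ∈ n.primeFactors, 1 / (l : ℝ)) ≤ C * (n : ℝ) ^ ε := by
  obtain ⟨C, hC, h⟩ := tpr_omega 3 hε
  refine ⟨C, hC, fun n hn => le_trans ?_ (h n hn)⟩
  rw [Real.exp_sum]
  refine prod_le_prod (fun _ _ => (Real.exp_pos _).le) fun l hl => ?_
  have h1 : (1 : ℝ) ≤ l := by exact_mod_cast (Nat.prime_of_mem_primeFactors hl).one_le
  have h2 : Real.exp (1 / (l : ℝ)) ≤ Real.exp 1 :=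
    Real.exp_le_exp.2 (by rw [div_le_one (by linarith)]; exact h1)
  have h3 := Real.exp_one_lt_d9
  have h4 : (1 : ℝ) ≤ ((n.factorization l : ℝ) + 1) ^ 3 :=
    one_le_pow₀ (by have := Nat.cast_nonneg (α := ℝ) (n.factorization l); linarith)
  rw [abs_of_pos (by norm_num : (0 : ℝ) < 3)]
  linarith

theorem tpr_twist (E : ℤ) {G : ℕ} (hG : 0 < G) (X : ℕ) :
    ∑ l ∈ Nat.primesLE X, (jacobiSym E l : ℝ) / l ≤
      ∑ l ∈ Nat.primesLE X, (jacobiSym (G ^ 2 * E) l : ℝ) / l +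
        2 * ∑ l ∈ G.primeFactors, 1 / (l : ℝ) := by
  have h1 : ∑ l ∈ (Nat.primesLE X).filter (fun l => l ∣ G), 1 / (l : ℝ) ≤
      ∑ l ∈ G.primeFactors, 1 / (l : ℝ) := by
    refine sum_le_sum_of_subset_of_nonneg (fun l hl => ?_) fun _ _ _ => by positivity
    have := mem_filter.1 hl
    exact Nat.mem_primeFactors.2 ⟨Nat.prime_of_mem_primesLE this.1, this.2, hG.ne'⟩
  have h2 : ∑ l ∈ Nat.primesLE X, (jacobiSym E l : ℝ) / l ≤
      ∑ l ∈ Nat.primesLE X, ((jacobiSym (G ^ 2 * E) l : ℝ) / l +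
        2 * if l ∣ G then 1 / (l : ℝ) else 0) := by
    refine sum_le_sum fun l hl => ?_
    have hp := Nat.prime_of_mem_primesLE hl
    split_ifs with h
    · have h3 := tpr_jac_le E l
      have h4 := tpr_le_jac (G ^ 2 * E) l
      linarith
    · have h3 : (G : ℤ).gcd l = 1 := by
        rw [Int.gcd_natCast_natCast]
        exact ((Nat.Prime.coprime_iff_not_dvd hp).2 h).symm
      rw [jacobiSym.mul_left, jacobiSym.sq_one' h3, one_mul, mul_zero, add_zero]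
  rw [sum_add_distrib, ← mul_sum, ← sum_filter] at h2
  linarith

theorem HH_le {ε : ℝ} (hε : 0 < ε) : ∃ C : ℝ, 0 < C ∧ ∀ (E : ℤ) (G : ℕ), E < -1 → 0 < G →
    G * HH E ≤ C * (G : ℝ) ^ ε * HH (G ^ 2 * E) := by
  have hδ : 0 < ε / 3 := by positivity
  obtain ⟨C, hC, h⟩ := tpr_exp_pf hδ
  refine ⟨C ^ 2 * (Real.exp 9 * (1 + 4 / (ε / 3))), by positivity, fun E G hE hG => ?_⟩
  have hG0 : (0 : ℝ) < G := by exact_mod_cast hG
  have hG1 : (1 : ℝ) ≤ G := by exact_mod_cast hG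
  have hz : 2 ≤ E.natAbs := by omega
  have hn : ((G : ℤ) ^ 2 * E).natAbs = G ^ 2 * E.natAbs := by
    rw [Int.natAbs_mul, Int.natAbs_pow, Int.natAbs_natCast]
  have hle : E.natAbs ≤ G ^ 2 * E.natAbs := Nat.le_mul_of_pos_left _ (by positivity)
  have hs : Real.sqrt (-(((G : ℤ) ^ 2 * E : ℤ) : ℝ)) = G * Real.sqrt (-(E : ℝ)) := by
    push_cast
    rw [show -((G : ℝ) ^ 2 * E) = (G : ℝ) ^ 2 * -E by ring, Real.sqrt_mul (by positivity),
      Real.sqrt_sq hG0.le]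
  have h1 := tpr_twist E hG E.natAbs
  have h2 := tpr_split (fun l => (jacobiSym (G ^ 2 * E) l : ℝ) / l) hle
  have h3 := tpr_le_sum (G ^ 2 * E)
    ((Nat.primesLE (G ^ 2 * E.natAbs)).filter (fun l => E.natAbs < l))
  have h4 := range_le hz hle
  have h5 := Lib.Sieve.one_half_le_log hz
  have hlG : 0 ≤ Real.log G := Real.log_natCast_nonneg G
  have hz0 : (0 : ℝ) < E.natAbs := by exact_mod_cast (by omega : 0 < E.natAbs)
  have h6 : Real.log ((G ^ 2 * E.natAbs : ℕ) : ℝ) = 2 * Real.log G + Real.log E.natAbs := by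
    rw [Nat.cast_mul, Nat.cast_pow, Real.log_mul (by positivity) hz0.ne', Real.log_pow]
    norm_num
  set r := Real.log ((G ^ 2 * E.natAbs : ℕ) : ℝ) / Real.log E.natAbs with hr
  have hr0 : 0 < r := div_pos (by linarith) (by linarith)
  have hr1 : r ≤ 1 + 4 * Real.log G := by
    rw [hr, div_le_iff₀ (by linarith), h6]
    have := mul_le_mul_of_nonneg_left h5 hlG
    linarith
  have hg1 : 1 ≤ (G : ℝ) ^ (ε / 3) := Real.one_le_rpow hG1 hδ.le
  have hg2 := Real.log_le_rpow_div hG0.le hδ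
  have hr2 : r ≤ (1 + 4 / (ε / 3)) * (G : ℝ) ^ (ε / 3) := by
    have e : (1 + 4 / (ε / 3)) * (G : ℝ) ^ (ε / 3) =
        (G : ℝ) ^ (ε / 3) + 4 * ((G : ℝ) ^ (ε / 3) / (ε / 3)) := by ring
    linarith
  have h7 := h G hG.ne'
  have hε3 : (G : ℝ) ^ ε = ((G : ℝ) ^ (ε / 3)) ^ 3 := by
    rw [← Real.rpow_mul_natCast hG0.le]
    congr 1
    push_cast
    ring
  have key : EE E E.natAbs ≤ C ^ 2 * (Real.exp 9 * (1 + 4 / (ε / 3))) * (G : ℝ) ^ ε *
      EE (G ^ 2 * E) (G ^ 2 * E.natAbs) := by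
    calc EE E E.natAbs ≤ Real.exp (∑ l ∈ G.primeFactors, 1 / (l : ℝ)) ^ 2 * (Real.exp 9 * r) *
          EE (G ^ 2 * E) (G ^ 2 * E.natAbs) := by
          rw [EE, EE, ← Real.exp_log hr0, ← Real.exp_nat_mul, ← Real.exp_add, ← Real.exp_add,
            ← Real.exp_add]
          apply Real.exp_le_exp.2
          rw [Nat.cast_ofNat]
          linarith
      _ ≤ (C * (G : ℝ) ^ (ε / 3)) ^ 2 * (Real.exp 9 * ((1 + 4 / (ε / 3)) * (G : ℝ) ^ (ε / 3))) *
          EE (G ^ 2 * E) (G ^ 2 * E.natAbs) := by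
          have := (EE_pos (G ^ 2 * E) (G ^ 2 * E.natAbs)).le
          gcongr
      _ = _ := by rw [hε3]; ring
  rw [HH, HH, hs, hn]
  have h8 : 0 ≤ G * Real.sqrt (-(E : ℝ)) := by positivity
  calc G * (Real.sqrt (-(E : ℝ)) * EE E E.natAbs)
      = G * Real.sqrt (-(E : ℝ)) * EE E E.natAbs := by ring
    _ ≤ G * Real.sqrt (-(E : ℝ)) * (C ^ 2 * (Real.exp 9 * (1 + 4 / (ε / 3))) * (G : ℝ) ^ ε *
      EE (G ^ 2 * E) (G ^ 2 * E.natAbs)) := mul_le_mul_of_nonneg_left key h8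
    _ = _ := by ring

theorem omega_bound (K : ℝ) {ε : ℝ} (hε : 0 < ε) : ∃ C : ℝ, 0 < C ∧ ∀ n : ℕ, n ≠ 0 →
    ∏ l ∈ n.primeFactors, (K * (n.factorization l + 1) ^ 3) ≤ C * (n : ℝ) ^ ε := by
  obtain ⟨C, hC, h⟩ := tpr_omega K hε
  refine ⟨C, hC, fun n hn => le_trans ((le_abs_self _).trans (le_of_eq ?_)) (h n hn)⟩
  rw [abs_prod]
  refine prod_congr rfl fun l _ => ?_
  rw [abs_mul, abs_of_nonneg (a := ((n.factorization l : ℝ) + 1) ^ 3) (by positivity)]

end Pool.Agent.EQ
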