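import Pool.Agent.P.MP_ad7a55_nt.TId
import Pool.Agent.P.MP_ad7a55_nt.CtC

/-! Few classes contain an ideal of small norm. -/

set_option autoImplicit false

noncomputable section

open Finset

namespace Pool.Agent.EQ

/-- Classes that contain an ideal of norm at most `t √|D|` divisible by `P`. -/
def Sh (D : ℤ) (t : ℝ) (P : ℕ) : Set ℂ :=
  {z | ∃ n : ℕ, (n : ℝ) ≤ t * Real.sqrt (-(D : ℝ)) ∧ P ∣ n ∧ ∃ 𝔞 ∈ Idl D n, jL 𝔞 = z}

theorem Sh_subset (D : ℤ) (t : ℝ) (P : ℕ) : Sh D t P ⊆ Cl D := by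
  rintro z ⟨n, -, -, 𝔞, h, rfl⟩
  exact ⟨𝔞, h.1, rfl⟩

theorem tti_finite (D : ℤ) (t : ℝ) (P : ℕ) : (Sh D t P).Finite :=
  (Cl_finite D).subset (Sh_subset D t P)

theorem tti_pos {D : ℤ} {n : ℕ} {𝔞 : Lt} (h : 𝔞 ∈ Idl D n) : 0 < n := by
  obtain ⟨m, a, b, hm, ha, rfl, -⟩ := Idl.shape h
  positivity

theorem tti_sum (D : ℤ) (t : ℝ) (P : ℕ) : ((Sh D t P).ncard : ℝ) ≤
    ∑ n ∈ (Icc 1 ⌊t * Real.sqrt (-(D : ℝ))⌋₊).filter (fun n => P ∣ n), ((Idl D n).ncard : ℝ) := by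
  set T := (Icc 1 ⌊t * Real.sqrt (-(D : ℝ))⌋₊).filter (fun n => P ∣ n) with hT
  have hsub : Sh D t P ⊆ ⋃ n ∈ T, jL '' Idl D n := by
    rintro z ⟨n, h1, h2, 𝔞, h4, h5⟩
    refine Set.mem_biUnion (x := n) (Finset.mem_coe.2 ?_) ⟨𝔞, h4, h5⟩
    exact Finset.mem_filter.2 ⟨Finset.mem_Icc.2 ⟨tti_pos h4, Nat.le_floor h1⟩, h2⟩
  have hfin : (⋃ n ∈ T, jL '' Idl D n).Finite :=
    T.finite_toSet.biUnion fun n _ => (Idl_finite D n).image _
  have h1 : (Sh D t P).ncard ≤ ∑ n ∈ T, (Idl D n).ncard :=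
    (Set.ncard_le_ncard hsub hfin).trans ((ctB_ncard_biUnion T _).trans
      (Finset.sum_le_sum fun n _ => Set.ncard_image_le (Idl_finite D n)))
  exact_mod_cast h1

theorem tti_three {D : ℤ} (hD : IsD D) : (3 : ℝ) ≤ -(D : ℝ) := by
  have hD3 : D ≤ -3 := by
    obtain ⟨h0, h4⟩ := hD
    omega
  have : (D : ℝ) ≤ -3 := by exact_mod_cast hD3
  linarith

theorem tti_abs {D : ℤ} (hD : D < 0) : (D.natAbs : ℝ) = -(D : ℝ) := by
  rw [Nat.cast_natAbs, abs_of_neg hD, Int.cast_neg]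

theorem tti_EE0 : ∃ C : ℝ, 0 < C ∧ ∀ (D : ℤ) (N X : ℕ), 2 ≤ X → N ≤ X ^ 8 → X < (N + 1) ^ 4 →
    EE D N ≤ C * EE D X := by
  obtain ⟨C₁, h1, H1⟩ := EE_comp 8
  obtain ⟨C₂, h2, H2⟩ := EE_log
  refine ⟨C₁ + C₂ * 16, by positivity, fun D N X hX hN hN' => ?_⟩
  have hE := EE_pos D X
  rcases le_or_gt 2 N with h | h
  · have h3 : X ≤ N ^ 8 := by
      have h4 : N + 1 ≤ N ^ 2 := by nlinarith
      calc X ≤ (N + 1) ^ 4 := hN'.le
        _ ≤ (N ^ 2) ^ 4 := Nat.pow_le_pow_left h4 4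
        _ = N ^ 8 := by ring
    have := H1 D N X hN h3
    nlinarith [mul_pos h2 hE]
  · have h3 : X < 16 := by
      have : (N + 1) ^ 4 ≤ 2 ^ 4 := Nat.pow_le_pow_left (by omega) 4
      omega
    have h4 : EE D N = 1 := by
      have : Nat.primesLE N = ∅ := by
        refine Finset.eq_empty_of_forall_notMem fun l hl => ?_
        have h5 := Nat.mem_primesLE.1 hl
        have := h5.2.two_le
        omega
      rw [EE, this, Finset.sum_empty, Real.exp_zero]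
    have h5 := (H2 D X hX).2
    have h6 : Real.log X ≤ 16 := by
      have h7 : (X : ℝ) ≤ 16 := by exact_mod_cast h3.le
      have h8 : (0 : ℝ) < X := by exact_mod_cast (by omega : 0 < X)
      linarith [Real.log_le_sub_one_of_pos h8]
    rw [h4]
    have h7 : C₂ * Real.log X * EE D X ≤ C₂ * 16 * EE D X := by gcongr
    nlinarith [mul_pos h1 hE]

theorem tti_EE : ∃ C : ℝ, 0 < C ∧ ∀ (D : ℤ) (t : ℝ), IsD D →
    1 ≤ t ^ 4 * (-(D : ℝ)) → 0 ≤ t → t ≤ -(D : ℝ) →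
    (⌊t * Real.sqrt (-(D : ℝ))⌋₊ : ℝ) * EE D ⌊t * Real.sqrt (-(D : ℝ))⌋₊ ≤ C * t * HH D := by
  obtain ⟨C, hC, H⟩ := tti_EE0
  refine ⟨C, hC, fun D t hD h1 h2 h3 => ?_⟩
  have hx := tti_three hD
  have ha := tti_abs hD.1
  set x : ℝ := -(D : ℝ) with hxd
  have hs := Real.sqrt_nonneg x
  have hs2 : Real.sqrt x ^ 2 = x := Real.sq_sqrt (by linarith)
  have hq : Real.sqrt x ≤ x := Real.sqrt_le_iff.2 ⟨by linarith, by nlinarith⟩
  have hfl : (⌊t * Real.sqrt x⌋₊ : ℝ) ≤ t * Real.sqrt x := Nat.floor_le (by positivity)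
  have hlt : t * Real.sqrt x < (⌊t * Real.sqrt x⌋₊ : ℝ) + 1 := Nat.lt_floor_add_one _
  set N : ℕ := ⌊t * Real.sqrt x⌋₊ with hN
  have b1 : 2 ≤ D.natAbs := by
    have : ((2 : ℕ) : ℝ) ≤ D.natAbs := by rw [ha]; push_cast; linarith
    exact_mod_cast this
  have b2 : N ≤ D.natAbs ^ 8 := by
    have h4 : (N : ℝ) ≤ (D.natAbs : ℝ) ^ 8 := by
      rw [ha]
      calc (N : ℝ) ≤ x * x := hfl.trans (mul_le_mul h3 hq hs (by linarith))
        _ = x ^ 2 := by ring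
        _ ≤ x ^ 8 := pow_le_pow_right₀ (by linarith) (by norm_num)
    exact_mod_cast h4
  have b3 : D.natAbs < (N + 1) ^ 4 := by
    have h4 : (D.natAbs : ℝ) < ((N : ℝ) + 1) ^ 4 := by
      rw [ha]
      calc x = 1 * x := (one_mul _).symm
        _ ≤ t ^ 4 * x * x := mul_le_mul_of_nonneg_right h1 (by linarith)
        _ = t ^ 4 * (Real.sqrt x ^ 2) ^ 2 := by rw [hs2]; ring
        _ = (t * Real.sqrt x) ^ 4 := by ring
        _ < ((N : ℝ) + 1) ^ 4 := pow_lt_pow_left₀ hlt (by positivity) (by norm_num)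
    exact_mod_cast h4
  have h5 := H D N D.natAbs b1 b2 b3
  calc (N : ℝ) * EE D N ≤ (t * Real.sqrt x) * (C * EE D D.natAbs) :=
        mul_le_mul hfl h5 (EE_pos D N).le (by positivity)
    _ = C * t * HH D := by rw [HH]; ring

theorem tti_HH_nonneg (D : ℤ) : 0 ≤ HH D := mul_nonneg (Real.sqrt_nonneg _) (EE_pos _ _).le

theorem tti_mono (D : ℤ) {t t' : ℝ} (h : t ≤ t') {P P' : ℕ} (hP : P' ∣ P) :
    Sh D t P ⊆ Sh D t' P' := by
  rintro z ⟨n, h1, h2, h3⟩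
  exact ⟨n, h1.trans (mul_le_mul_of_nonneg_right h (Real.sqrt_nonneg _)), hP.trans h2, h3⟩

theorem tti_jac (D : ℤ) (l : ℕ) : |(jacobiSym D l : ℝ)| ≤ 1 := by
  rcases jacobiSym.trichotomy D l with h | h | h <;> rw [h] <;> simp

theorem Sh_le : ∃ K : ℝ, 0 < K ∧ ∀ (D : ℤ) (t : ℝ), IsD D →
    1 ≤ t ^ 4 * (-(D : ℝ)) → 0 ≤ t → t ≤ -(D : ℝ) → ((Sh D t 1).ncard : ℝ) ≤ K * t * HH D := by
  obtain ⟨K, hK, HK⟩ := exists_fI
  obtain ⟨C, hC, HC⟩ := ht_le K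
  obtain ⟨C', hC', HE⟩ := tti_EE
  refine ⟨K * C * C', by positivity, fun D t hD h1 h2 h3 => ?_⟩
  obtain ⟨f, hf, hI⟩ := HK D hD
  have h4 := HE D t hD h1 h2 h3
  have h5 := tti_sum D t 1
  set N : ℕ := ⌊t * Real.sqrt (-(D : ℝ))⌋₊ with hN
  have h6 := HC _ f hf N
  rw [Finset.filter_true_of_mem fun n _ => one_dvd n] at h5
  calc _ ≤ _ := h5
    _ ≤ ∑ n ∈ Icc 1 N, K * f n :=
        Finset.sum_le_sum fun n hn => hI n (Finset.mem_Icc.1 hn).1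
    _ = K * ∑ n ∈ Icc 1 N, f n := (Finset.mul_sum _ _ _).symm
    _ ≤ K * (C * N * EE D N) := mul_le_mul_of_nonneg_left h6 (by linarith)
    _ = K * C * (N * EE D N) := by ring
    _ ≤ K * C * (C' * t * HH D) := mul_le_mul_of_nonneg_left h4 (by positivity)
    _ = _ := by ring

theorem Sh_dvd {p : ℕ} (hp : p.Prime) (t : ℝ) {δ : ℝ} (hδ : 0 < δ) : ∃ m : ℕ, ∀ D : ℤ, IsD D →
    ((Sh D t (p ^ m)).ncard : ℝ) ≤ δ * HH D := by
  obtain ⟨K, hK, HK⟩ := exists_fI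
  obtain ⟨C', hC', HE⟩ := tti_EE
  obtain ⟨u, hu1, hu⟩ : ∃ u : ℝ, 1 ≤ u ∧ t ≤ u := ⟨max t 1, le_max_right _ _, le_max_left _ _⟩
  have hK0 : 0 < K := by linarith
  have hu0 : 0 < u := by linarith
  obtain ⟨m₁, H1⟩ := ht_dvd K hp (δ := δ / (K * C' * u)) (by positivity)
  obtain ⟨m₂, H2⟩ := pow_unbounded_of_one_lt (u * u) (show (1 : ℝ) < p by exact_mod_cast hp.one_lt)
  refine ⟨max m₁ m₂, fun D hD => ?_⟩
  have hx := tti_three hD
  rcases le_or_gt u (-(D : ℝ)) with h | h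
  · have h0 : ((Sh D t (p ^ max m₁ m₂)).ncard : ℝ) ≤ (Sh D u (p ^ m₁)).ncard := by
      exact_mod_cast Set.ncard_le_ncard (tti_mono D hu (pow_dvd_pow p (le_max_left _ _)))
        (tti_finite _ _ _)
    obtain ⟨f, hf, hI⟩ := HK D hD
    have h1 : 1 ≤ u ^ 4 * (-(D : ℝ)) :=
      one_le_mul_of_one_le_of_one_le (one_le_pow₀ hu1) (by linarith)
    have h4 := HE D u hD h1 hu0.le h
    have h5 := tti_sum D u (p ^ m₁)
    set N : ℕ := ⌊u * Real.sqrt (-(D : ℝ))⌋₊ with hN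
    have h6 := H1 _ f hf (tti_jac D) N
    calc _ ≤ _ := h0
      _ ≤ _ := h5
      _ ≤ ∑ n ∈ (Icc 1 N).filter (fun n => p ^ m₁ ∣ n), K * f n :=
          Finset.sum_le_sum fun n hn => hI n (Finset.mem_Icc.1 (Finset.mem_filter.1 hn).1).1
      _ = K * ∑ n ∈ (Icc 1 N).filter (fun n => p ^ m₁ ∣ n), f n := (Finset.mul_sum _ _ _).symm
      _ ≤ K * (δ / (K * C' * u) * N * EE D N) := mul_le_mul_of_nonneg_left h6 hK0.le
      _ = K * (δ / (K * C' * u)) * (N * EE D N) := by ring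
      _ ≤ K * (δ / (K * C' * u)) * (C' * u * HH D) :=
          mul_le_mul_of_nonneg_left h4 (by positivity)
      _ = _ := by field_simp
  · have h0 : Sh D t (p ^ max m₁ m₂) = ∅ := by
      refine Set.eq_empty_of_forall_notMem fun z hz => ?_
      obtain ⟨n, h1, h2, 𝔞, h3, -⟩ := tti_mono D hu (pow_dvd_pow p (le_max_right m₁ m₂)) hz
      have h4 : ((p ^ m₂ : ℕ) : ℝ) ≤ n := by exact_mod_cast Nat.le_of_dvd (tti_pos h3) h2
      have hq : Real.sqrt (-(D : ℝ)) ≤ u :=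
        (Real.sqrt_le_iff.2 ⟨by linarith, by nlinarith⟩ : _ ≤ -(D : ℝ)).trans h.le
      have h5 := mul_le_mul_of_nonneg_left hq hu0.le
      push_cast at h4
      linarith
    rw [h0, Set.ncard_empty, Nat.cast_zero]
    exact mul_nonneg hδ.le (tti_HH_nonneg D)

/-- Every class has a reduced form. -/
theorem exists_red {E : ℤ} {w : ℂ} (hw : w ∈ Cl E) : ∃ a b c : ℤ, 0 < a ∧ |b| ≤ a ∧ a ≤ c ∧
    Int.gcd (Int.gcd a b) c = 1 ∧ b ^ 2 - 4 * a * c = E ∧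
      jL (sp a ((b - th E) / 2)) = w := by
  obtain ⟨Λ, ⟨c, τ, hc, rfl, hτ⟩, rfl⟩ := hw
  obtain ⟨γ, hγ⟩ := ModularGroup.exists_smul_mem_fd τ
  rw [jL_sp hc, ← jInv_smul γ τ]
  obtain ⟨a, b, k, ha, hg, he, hd⟩ := hτ.smul γ
  generalize γ • τ = σ at hγ he
  have hr := HasDisc.root ha he
  rw [← hd] at hr
  obtain ⟨i1, i2⟩ := ord_parts he
  have ha' : (0 : ℝ) < a := by exact_mod_cast ha
  have i4 := abs_le.1 hγ.2
  have i5 : 1 ≤ σ.re ^ 2 + σ.im ^ 2 := by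
    have := hγ.1
    rw [Complex.normSq_apply] at this
    simpa [sq] using this
  have i7 : (b : ℝ) ≤ a := by nlinarith
  have i8 : -(a : ℝ) ≤ b := by nlinarith
  have i9 : (a : ℝ) ≤ k := by
    have e : (a : ℝ) * k = a * (a * (σ.re ^ 2 + σ.im ^ 2)) := by
      push_cast at i2
      linear_combination (1 / 4 : ℝ) * i2 + (1 / 4 : ℝ) * (b - 2 * a * σ.re) * i1
    have e2 := mul_left_cancel₀ ha'.ne' e
    nlinarith
  have ha0 : (a : ℂ) ≠ 0 := by exact_mod_cast ha.ne'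
  refine ⟨a, b, k, ha, abs_le.2 ⟨by exact_mod_cast i8, by exact_mod_cast i7⟩,
    by exact_mod_cast i9, hg, hd.symm, ?_⟩
  have e : ((b : ℂ) - th E) / 2 = -(a * σ) := by
    rw [← hr]
    ring
  rw [e, ord_sp_neg, jL_sp ha0]

theorem mem_Sh_of_fd {τ : UpperHalfPlane} {D : ℤ} (h : HasDisc τ D) {t : ℝ}
    (ht : 1 ≤ t * τ.im) : jInv τ ∈ Sh D t 1 := by
  have hD := h.isD
  obtain ⟨a, b, c, ha, hg, he, hd⟩ := id h
  have ha' : (0 : ℝ) < a := by exact_mod_cast ha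
  have ha0 : (a : ℂ) ≠ 0 := by exact_mod_cast ha.ne'
  have hy := τ.im_pos
  have hs := ctB_sqrt_pos hD.1
  have i1 : Real.sqrt (-(D : ℝ)) = 2 * a * τ.im := by
    rw [hd, (ord_parts he).2, Real.sqrt_sq (by positivity)]
  have hn : ((a.toNat : ℕ) : ℝ) = a := by
    have : ((a.toNat : ℕ) : ℤ) = a := Int.toNat_of_nonneg ha.le
    exact_mod_cast this
  refine ⟨a.toNat, ?_, one_dvd _, sp a (a * τ), ⟨⟨a, τ, ha0, rfl, h⟩, ?_, ?_⟩, jL_sp ha0 τ⟩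
  · rw [hn, i1]
    nlinarith
  · rw [hd, ord_OD_eq ha he]
    exact ord_sp_le.2 ⟨mem_sp.2 ⟨a, 0, by simp⟩, ord_right _ _⟩
  · rw [nm, vol_sp ha0, hn, i1, Complex.normSq_intCast]
    field_simp

theorem Cl_le : ∃ K : ℝ, 0 < K ∧ ∀ D : ℤ, IsD D → ((Cl D).ncard : ℝ) ≤ K * HH D := by
  obtain ⟨K, hK, H⟩ := Sh_le
  refine ⟨K * 2, by positivity, fun D hD => ?_⟩
  have hx := tti_three hD
  refine le_trans ?_ (H D 2 hD (by linarith) (by norm_num) (by linarith))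
  have hsub : Cl D ⊆ Sh D 2 1 := by
    rintro z ⟨Λ, ⟨c, τ, hc, rfl, hτ⟩, rfl⟩
    obtain ⟨γ, hγ⟩ := ModularGroup.exists_smul_mem_fd τ
    rw [jL_sp hc, ← jInv_smul γ τ]
    refine mem_Sh_of_fd (hτ.smul γ) ?_
    have h3 := ModularGroup.three_le_four_mul_im_sq_of_mem_fd hγ
    have h4 := (γ • τ).im_pos
    nlinarith
  exact_mod_cast Set.ncard_le_ncard hsub (tti_finite _ _ _)

/-- Few classes have a very small leading coefficient. -/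
theorem card_small_red (E : ℤ) (Y : ℕ) :
    {w | ∃ a b c : ℤ, 0 < a ∧ |b| ≤ a ∧ a ≤ Y ∧ b ^ 2 - 4 * a * c = E ∧
      jL (sp a ((b - th E) / 2)) = w}.ncard ≤ 3 * Y ^ 2 := by
  have hsub : {w | ∃ a b c : ℤ, 0 < a ∧ |b| ≤ a ∧ a ≤ Y ∧ b ^ 2 - 4 * a * c = E ∧
      jL (sp a ((b - th E) / 2)) = w} ⊆ (fun x : ℤ × ℤ => jL (sp x.1 ((x.2 - th E) / 2))) ''
        ((Icc (1 : ℤ) Y ×ˢ Icc (-(Y : ℤ)) Y : Finset (ℤ × ℤ)) : Set (ℤ × ℤ)) := by
    rintro w ⟨a, b, c, h1, h2, h3, -, h5⟩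
    refine ⟨(a, b), ?_, h5⟩
    have h6 := abs_le.1 h2
    simp only [Finset.mem_coe, Finset.mem_product, Finset.mem_Icc]
    omega
  refine (Set.ncard_le_ncard hsub ((Finset.finite_toSet _).image _)).trans ?_
  refine (Set.ncard_image_le (Finset.finite_toSet _)).trans ?_
  rw [Set.ncard_coe_finset, Finset.card_product, Int.card_Icc, Int.card_Icc]
  have e1 : ((Y : ℤ) + 1 - 1).toNat = Y := by omega
  have e2 : ((Y : ℤ) + 1 - -(Y : ℤ)).toNat = 2 * Y + 1 := by omega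
  rw [e1, e2]
  nlinarith [Nat.le_self_pow two_ne_zero Y]

end Pool.Agent.EQ
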