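import Pool.Agent.P.MP_ad7a55_nt.TNf

/-! The general local count. -/

set_option autoImplicit false

noncomputable section

open Finset Matrix

namespace Pool.Agent.EQ

variable {l : ℕ} [Fact l.Prime]

theorem tlb_l1 : (1 : ℝ) < l := by exact_mod_cast (Fact.out : l.Prime).one_lt

theorem tlb_l0 : (0 : ℝ) < l := lt_trans one_pos tlb_l1

theorem tlb_nn (x : ℚ) : 0 ≤ nr l x := norm_nonneg _

theorem tlb_mul (x y : ℚ) : nr l (x * y) = nr l x * nr l y := by simp [nr]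

theorem tlb_pow (x : ℚ) (n : ℕ) : nr l (x ^ n) = nr l x ^ n := by simp [nr]

theorem tlb_neg (x : ℚ) : nr l (-x) = nr l x := by simp [nr]

theorem tlb_inv (x : ℚ) : nr l x⁻¹ = (nr l x)⁻¹ := by simp [nr]

theorem tlb_div (x y : ℚ) : nr l (x / y) = nr l x / nr l y := by simp [nr]

theorem tlb_one : nr l 1 = 1 := by simp [nr]

theorem tlb_zero : nr l 0 = 0 := by simp [nr]

theorem tlb_pos {x : ℚ} (hx : x ≠ 0) : 0 < nr l x :=
  norm_pos_iff.2 (Rat.cast_ne_zero.2 hx)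

theorem tlb_ne {x : ℚ} (hx : 0 < nr l x) : x ≠ 0 := by
  rintro rfl
  simp [nr] at hx

theorem tlb_l : nr l (l : ℚ) = (l : ℝ)⁻¹ := by
  simp only [nr, Rat.cast_natCast]
  exact Padic.norm_p

theorem tlb_lpow (n : ℕ) : nr l ((l : ℚ) ^ n) = (l : ℝ) ^ (-(n : ℤ)) := by
  rw [tlb_pow, tlb_l]
  simp

theorem tlb_int (z : ℤ) : nr l (z : ℚ) ≤ 1 := by
  simp only [nr, Rat.cast_intCast]
  exact Padic.norm_int_le_one z

theorem tlb_two : nr l 2 ≤ 1 := by simpa using tlb_int (l := l) 2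

theorem tlb_add {x y : ℚ} {c : ℝ} (hx : nr l x ≤ c) (hy : nr l y ≤ c) : nr l (x + y) ≤ c := by
  simp only [nr, Rat.cast_add] at *
  exact (Padic.nonarchimedean _ _).trans (max_le hx hy)

theorem tlb_sub {x y : ℚ} {c : ℝ} (hx : nr l x ≤ c) (hy : nr l y ≤ c) : nr l (x - y) ≤ c := by
  rw [sub_eq_add_neg]
  exact tlb_add hx (by rwa [tlb_neg])

theorem tlb_add_eq {x y : ℚ} (h : nr l y < nr l x) : nr l (x + y) = nr l x := by
  simp only [nr, Rat.cast_add] at *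
  rw [Padic.add_eq_max_of_ne h.ne', max_eq_left h.le]

theorem tlb_sub_eq {x y : ℚ} (h : nr l y < nr l x) : nr l (x - y) = nr l x := by
  rw [sub_eq_add_neg]
  exact tlb_add_eq (by rwa [tlb_neg])

theorem tlb_mul_le {x y : ℚ} {c d : ℝ} (hx : nr l x ≤ c) (hy : nr l y ≤ d) :
    nr l (x * y) ≤ c * d := by
  rw [tlb_mul]
  exact mul_le_mul hx hy (tlb_nn _) ((tlb_nn _).trans hx)

theorem tlb_mul_le' {x y : ℚ} {d : ℝ} (hx : nr l x ≤ 1) (hy : nr l y ≤ d) :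
    nr l (x * y) ≤ d := by
  simpa using tlb_mul_le hx hy

theorem tlb_mul_le'' {x y : ℚ} {c : ℝ} (hx : nr l x ≤ c) (hy : nr l y ≤ 1) :
    nr l (x * y) ≤ c := by
  simpa using tlb_mul_le hx hy

theorem tlb_dvd (z : ℤ) (n : ℕ) : nr l (z : ℚ) ≤ (l : ℝ) ^ (-(n : ℤ)) ↔ (l : ℤ) ^ n ∣ z := by
  simp only [nr, Rat.cast_intCast]
  exact Padic.norm_int_le_pow_iff_dvd z n

theorem tlb_step (x : ℚ) (n : ℤ) : nr l x ≤ (l : ℝ) ^ n ↔ nr l x < (l : ℝ) ^ (n + 1) :=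
  Padic.norm_le_pow_iff_norm_lt_pow_add_one _ n

theorem tlb_lt_one {x : ℚ} (h : nr l x < 1) : nr l x ≤ (l : ℝ)⁻¹ := by
  have := (tlb_step (l := l) x (-1)).2 (by simpa using h)
  simpa using this

theorem tlb_inv_lt : (l : ℝ)⁻¹ < 1 := inv_lt_one_of_one_lt₀ tlb_l1

theorem tlb_res {x : ℚ} (hx : nr l x ≤ 1) (j : ℕ) :
    ∃ r : ℕ, r < l ^ j ∧ nr l (x - r) ≤ (l : ℝ) ^ (-(j : ℤ)) := by
  let z : ℤ_[l] := ⟨(x : ℚ_[l]), hx⟩
  refine ⟨z.appr j, z.appr_lt j, ?_⟩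
  have h := ((z - z.appr j).norm_le_pow_iff_mem_span_pow j).mpr (z.appr_spec j)
  rw [PadicInt.norm_def, PadicInt.coe_sub, PadicInt.coe_natCast] at h
  simp only [nr, Rat.cast_sub, Rat.cast_natCast]
  exact h

theorem tlb_two_odd (h : l ≠ 2) : nr l 2 = 1 := by
  by_contra h1
  have h2 : nr l ((2 : ℤ) : ℚ) ≤ (l : ℝ) ^ (-((1 : ℕ) : ℤ)) := by
    simpa using tlb_lt_one (lt_of_le_of_ne tlb_two h1)
  rw [tlb_dvd, pow_one] at h2
  have h3 : l ∣ 2 := by exact_mod_cast h2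
  exact h ((Nat.prime_dvd_prime_iff_eq Fact.out Nat.prime_two).1 h3)

theorem tlb_two_two (h : l = 2) : nr l 2 = (l : ℝ)⁻¹ := by
  rw [← tlb_l]
  congr 1
  simp [h]

theorem tlb_two_ge : (l : ℝ)⁻¹ ≤ nr l 2 := by
  by_cases h : l = 2
  · exact (tlb_two_two h).ge
  · rw [tlb_two_odd h]
    exact tlb_inv_lt.le

theorem tlb_two_pos : 0 < nr l 2 := tlb_pos two_ne_zero

theorem tlb_unit_two (h : l = 2) {u : ℚ} (hu : nr l u = 1) : nr l (u - 1) ≤ (l : ℝ)⁻¹ := by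
  obtain ⟨r, hr, h1⟩ := tlb_res hu.le 1
  have h2 : nr l (u - r) ≤ (l : ℝ)⁻¹ := by simpa using h1
  have h3 : r < 2 := by simpa [h] using hr
  interval_cases r
  · simp only [Nat.cast_zero, sub_zero] at h2
    exact absurd (hu ▸ h2) (not_le.2 tlb_inv_lt)
  · simpa using h2

/-- Two numbers of the same size. -/
theorem tlb_same {x y : ℚ} (h : nr l x = nr l y) : nr l (x - y) ≤ nr l 2 * nr l y := by
  by_cases h2 : l = 2
  · by_cases hy : y = 0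
    · subst hy
      rw [sub_zero, h, tlb_zero, mul_zero]
    · have h3 : nr l (x / y) = 1 := by rw [tlb_div, h, div_self (tlb_pos hy).ne']
      have h4 : x - y = (x / y - 1) * y := by field_simp
      rw [h4, tlb_two_two h2]
      exact tlb_mul_le (tlb_unit_two h2 h3) le_rfl
  · rw [tlb_two_odd h2, one_mul]
    exact tlb_sub h.le le_rfl

/-- A parity label. -/
theorem tlb_par {t t' : ℚ} (ht : nr l t ≤ 1) (ht' : nr l t' ≤ 1)
    (h : nr l t = 1 ↔ nr l t' = 1) : nr l (t - t') ≤ nr l 2 := by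
  by_cases h1 : nr l t = 1
  · have h2 := h.1 h1
    simpa [h2] using tlb_same (h1.trans h2.symm)
  · have h2 : nr l t' ≠ 1 := fun h3 => h1 (h.2 h3)
    exact (tlb_sub (tlb_lt_one (lt_of_le_of_ne ht h1))
      (tlb_lt_one (lt_of_le_of_ne ht' h2))).trans tlb_two_ge

/-- A sign label. -/
theorem tlb_sign : ∃ β : ℚ → Bool, ∀ P P' : ℚ, nr l P = 1 → nr l P' = 1 → β P = β P' →
    nr l (P + P') = nr l 2 := by
  classical
  by_cases h2 : l = 2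
  · refine ⟨fun P => decide (nr l (P - 1) < nr l 2), fun P P' hP hP' h => ?_⟩
    have h3 : nr l (P - P') < nr l 2 := by
      have h4 : nr l (P - 1) < nr l 2 ↔ nr l (P' - 1) < nr l 2 := by simpa using h
      have h5 : P - P' = (P - 1) - (P' - 1) := by ring
      rw [h5]
      by_cases h6 : nr l (P - 1) < nr l 2
      · exact lt_of_le_of_lt (tlb_sub (le_max_left _ _) (le_max_right _ _)) (max_lt h6 (h4.1 h6))
      · have h7 : nr l (P - 1) = nr l 2 :=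
          le_antisymm ((tlb_unit_two h2 hP).trans tlb_two_ge) (not_lt.1 h6)
        have h8 : nr l (P' - 1) = nr l 2 :=
          le_antisymm ((tlb_unit_two h2 hP').trans tlb_two_ge) (not_lt.1 fun h9 => h6 (h4.2 h9))
        refine lt_of_le_of_lt (tlb_same (h7.trans h8.symm)) ?_
        rw [h8]
        refine mul_lt_of_lt_one_left tlb_two_pos ?_
        rw [tlb_two_two h2]
        exact tlb_inv_lt
    have h4 : P + P' = 2 * P' + (P - P') := by ring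
    have h5 : nr l (2 * P') = nr l 2 := by rw [tlb_mul, hP', mul_one]
    rw [h4, tlb_add_eq (by rwa [h5]), h5]
  · have hodd : Odd l := (Fact.out : l.Prime).odd_of_ne_two h2
    refine ⟨fun P => decide (∃ r : ℕ, 2 * r < l ∧ nr l (P - r) < 1), fun P P' hP hP' h => ?_⟩
    rw [tlb_two_odd h2]
    by_contra h3
    have h4 : nr l (P + P') < 1 := lt_of_le_of_ne (tlb_add hP.le hP'.le) h3
    have h5 : (∃ r : ℕ, 2 * r < l ∧ nr l (P - r) < 1) ↔ ∃ r : ℕ, 2 * r < l ∧ nr l (P' - r) < 1 := by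
      simpa using h
    have key : ∀ r r' : ℕ, nr l (P - r) < 1 → nr l (P' - r') < 1 → l ∣ r + r' := by
      intro r r' h6 h7
      have h8 : (((r + r' : ℕ) : ℤ) : ℚ) = (P + P') - ((P - r) + (P' - r')) := by
        push_cast
        ring
      have h9 : nr l (((r + r' : ℕ) : ℤ) : ℚ) ≤ (l : ℝ) ^ (-((1 : ℕ) : ℤ)) := by
        rw [h8]
        simpa using tlb_sub (tlb_lt_one h4) (tlb_add (tlb_lt_one h6) (tlb_lt_one h7))
      rw [tlb_dvd, pow_one] at h9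
      exact_mod_cast h9
    by_cases h6 : ∃ r : ℕ, 2 * r < l ∧ nr l (P - r) < 1
    · obtain ⟨r', h7, h8⟩ := h5.1 h6
      obtain ⟨r, h9, h10⟩ := h6
      have h11 := Nat.eq_zero_of_dvd_of_lt (key r r' h10 h8) (by omega)
      have h12 : r = 0 := by omega
      subst h12
      simp only [Nat.cast_zero, sub_zero] at h10
      exact absurd hP h10.ne
    · have h7 : ¬ ∃ r : ℕ, 2 * r < l ∧ nr l (P' - r) < 1 := fun h8 => h6 (h5.2 h8)
      obtain ⟨r, hr, h8⟩ := tlb_res hP.le 1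
      obtain ⟨r', hr', h9⟩ := tlb_res hP'.le 1
      have h10 : nr l (P - r) < 1 := lt_of_le_of_lt (by simpa using h8) tlb_inv_lt
      have h11 : nr l (P' - r') < 1 := lt_of_le_of_lt (by simpa using h9) tlb_inv_lt
      have h12 : ¬ 2 * r < l := fun h => h6 ⟨r, h, h10⟩
      have h13 : ¬ 2 * r' < l := fun h => h7 ⟨r', h, h11⟩
      rw [pow_one] at hr hr'
      obtain ⟨k, hk⟩ := hodd
      have h14 : l ∣ r + r' - l := Nat.dvd_sub (key r r' h10 h11) dvd_rfl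
      have h15 := Nat.eq_zero_of_dvd_of_lt h14 (by omega)
      omega

theorem tlb_norm_le (E : ℤ) {P Q : ℚ} {c : ℝ} (hP : nr l P ≤ c) (hQ : nr l Q ≤ c) :
    nr l (P ^ 2 - E * Q ^ 2) ≤ c ^ 2 := by
  refine tlb_sub ?_ (tlb_mul_le' (tlb_int E) ?_)
  · rw [tlb_pow]
    exact pow_le_pow_left₀ (tlb_nn _) hP 2
  · rw [tlb_pow]
    exact pow_le_pow_left₀ (tlb_nn _) hQ 2

theorem tlb_ok {E : ℤ} {P Q : ℚ} {c : ℝ} (hc : 0 < c) (hP : nr l P ≤ c) (hQ : nr l Q ≤ c)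
    (hN : c ^ 2 ≤ nr l (P ^ 2 - E * Q ^ 2)) : Ok l E P Q := by
  refine ⟨?_, le_antisymm (tlb_norm_le E (le_max_left _ _) (le_max_right _ _)) ?_⟩
  · by_contra h
    push Not at h
    rw [h.1, h.2] at hN
    simp only [ne_eq, OfNat.ofNat_ne_zero, not_false_eq_true, zero_pow, mul_zero, sub_self,
      tlb_zero] at hN
    exact absurd hN (not_le.2 (by positivity))
  · exact (pow_le_pow_left₀ (le_max_of_le_left (tlb_nn _)) (max_le hP hQ) 2).trans hN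

theorem tlb_ok_pos {E : ℤ} {P Q : ℚ} (h : Ok l E P Q) : 0 < max (nr l P) (nr l Q) := by
  rcases h.1 with h1 | h1
  · exact lt_max_of_lt_left (tlb_pos h1)
  · exact lt_max_of_lt_right (tlb_pos h1)

theorem tlb_ok_lt {E : ℤ} {P Q : ℚ} (h : nr l Q < nr l P) : Ok l E P Q := by
  have h0 : 0 < nr l P := lt_of_le_of_lt (tlb_nn _) h
  refine tlb_ok h0 le_rfl h.le (ge_of_eq ?_)
  rw [tlb_sub_eq, tlb_pow]
  refine lt_of_le_of_lt (tlb_mul_le' (tlb_int E) le_rfl) ?_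
  rw [tlb_pow, tlb_pow]
  exact pow_lt_pow_left₀ h (tlb_nn _) two_ne_zero

theorem tlb_ok_le {E : ℤ} {P Q : ℚ} (hE : nr l (E : ℚ) < 1) (h0 : 0 < nr l P)
    (h : nr l Q ≤ nr l P) : Ok l E P Q := by
  refine tlb_ok h0 le_rfl h (ge_of_eq ?_)
  rw [tlb_sub_eq, tlb_pow]
  rw [tlb_mul, tlb_pow, tlb_pow]
  calc nr l (E : ℚ) * nr l Q ^ 2 ≤ nr l (E : ℚ) * nr l P ^ 2 :=
        mul_le_mul_of_nonneg_left (pow_le_pow_left₀ (tlb_nn _) h 2) (tlb_nn _)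
    _ < nr l P ^ 2 := mul_lt_of_lt_one_left (by positivity) hE

theorem tlb_ok_conj {E : ℤ} {P Q : ℚ} (h : Ok l E P Q) : Ok l E P (-Q) := by
  refine ⟨h.1.imp id neg_ne_zero.2, ?_⟩
  rw [neg_sq, tlb_neg]
  exact h.2

theorem tlb_ok_smul {E : ℤ} {P Q c : ℚ} (hc : c ≠ 0) (h : Ok l E P Q) :
    Ok l E (c * P) (c * Q) := by
  refine ⟨h.1.imp (mul_ne_zero hc) (mul_ne_zero hc), ?_⟩
  have h1 : (c * P) ^ 2 - E * (c * Q) ^ 2 = c ^ 2 * (P ^ 2 - E * Q ^ 2) := by ring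
  rw [h1, tlb_mul, h.2, tlb_mul, tlb_mul, ← mul_max_of_nonneg _ _ (tlb_nn c), tlb_pow, mul_pow]

theorem tlb_norm_mul (E : ℤ) (P Q P' Q' : ℚ) :
    (P * P' + E * (Q * Q')) ^ 2 - E * (P * Q' + Q * P') ^ 2
      = (P ^ 2 - E * Q ^ 2) * (P' ^ 2 - E * Q' ^ 2) := by ring

theorem tlb_ok_mul {E : ℤ} {P Q P' Q' : ℚ} (h : Ok l E P Q) (h' : Ok l E P' Q') :
    Ok l E (P * P' + E * (Q * Q')) (P * Q' + Q * P') := by
  refine tlb_ok (mul_pos (tlb_ok_pos h) (tlb_ok_pos h')) ?_ ?_ (ge_of_eq ?_)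
  · exact tlb_add (tlb_mul_le (le_max_left _ _) (le_max_left _ _))
      (tlb_mul_le' (tlb_int E) (tlb_mul_le (le_max_right _ _) (le_max_right _ _)))
  · exact tlb_add (tlb_mul_le (le_max_left _ _) (le_max_right _ _))
      (tlb_mul_le (le_max_right _ _) (le_max_left _ _))
  · rw [tlb_norm_mul, tlb_mul, h.2, h'.2, mul_pow]

theorem tlb_sol_conj {E : ℤ} {a b : ℚ × ℚ} {P Q : ℚ} (h : Sol E a b P Q) : Sol E b a P (-Q) :=
  ⟨by linear_combination (-1 : ℚ) * h.1, by linear_combination (-1 : ℚ) * h.2⟩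

theorem tlb_sol_smul {E : ℤ} {a b : ℚ × ℚ} {P Q : ℚ} (c : ℚ) (h : Sol E a b P Q) :
    Sol E a b (c * P) (c * Q) :=
  ⟨by linear_combination c * h.1, by linear_combination c * h.2⟩

theorem tlb_sol_mul {E : ℤ} {a b c : ℚ × ℚ} {P Q P' Q' : ℚ} (h : Sol E a b P Q)
    (h' : Sol E b c P' Q') : Sol E a c (P * P' + E * (Q * Q')) (P * Q' + Q * P') :=
  ⟨by linear_combination P' * h.1 - E * Q' * h.2 + P * h'.1 + E * Q * h'.2,
    by linear_combination P' * h.2 - Q' * h.1 + P * h'.2 + Q * h'.1⟩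

theorem Rl.symm {E : ℤ} {a b : ℚ × ℚ} (h : Rl l E a b) : Rl l E b a := by
  obtain ⟨P, Q, h1, h2⟩ := h
  exact ⟨P, -Q, tlb_ok_conj h1, tlb_sol_conj h2⟩

theorem Rl.trans {E : ℤ} (hE : E < 0) {a b c : ℚ × ℚ} (h : Rl l E a b) (h' : Rl l E b c) :
    Rl l E a c := by
  have _ := hE
  obtain ⟨P, Q, h1, h2⟩ := h
  obtain ⟨P', Q', h3, h4⟩ := h'
  exact ⟨_, _, tlb_ok_mul h1 h3, tlb_sol_mul h2 h4⟩

/-- Two solutions towards the same base point. -/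
theorem tlb_sol_two {E : ℤ} {a b c : ℚ × ℚ} {P Q P' Q' : ℚ} (h : Sol E a c P Q)
    (h' : Sol E b c P' Q') : Sol E a b (P * P' - E * (Q * Q')) (Q * P' - P * Q') := by
  have h1 := tlb_sol_mul h (tlb_sol_conj h')
  have h2 : P * P' - E * (Q * Q') = P * P' + E * (Q * -Q') := by ring
  have h3 : Q * P' - P * Q' = P * -Q' + Q * P' := by ring
  rwa [h2, h3]

theorem tlb_lq : (l : ℚ) ≠ 0 := by exact_mod_cast (Fact.out : l.Prime).ne_zero

theorem tlb_up {E : ℤ} (j : ℕ) {z z' : ℚ × ℚ} {P Q : ℚ}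
    (hs : Sol E (z.1, (l : ℚ) ^ j * z.2) (z'.1, (l : ℚ) ^ j * z'.2) P Q) (hP : nr l P ≤ 1)
    (hQ : nr l Q ≤ (l : ℝ) ^ (-(j : ℤ))) (hN : nr l (P ^ 2 - E * Q ^ 2) = 1) :
    Rl l ((l : ℤ) ^ (2 * j) * E) z z' := by
  have hl : (l : ℚ) ^ j ≠ 0 := pow_ne_zero _ tlb_lq
  obtain ⟨Q', rfl⟩ : ∃ Q', Q = (l : ℚ) ^ j * Q' := ⟨Q / (l : ℚ) ^ j, by field_simp⟩
  have hQ' : nr l Q' ≤ 1 := by
    rw [tlb_mul, tlb_lpow] at hQ
    exact (mul_le_iff_le_one_right (zpow_pos tlb_l0 _)).1 hQ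
  refine ⟨P, Q', tlb_ok one_pos hP hQ' (ge_of_eq ?_), ?_, ?_⟩
  · rw [one_pow, ← hN]
    congr 1
    push_cast
    ring
  · have h1 := hs.1
    simp only at h1
    push_cast
    linear_combination h1
  · have h1 := hs.2
    simp only at h1
    refine mul_left_cancel₀ hl ?_
    linear_combination h1

theorem tlb_normal {E : ℤ} {a b : ℚ × ℚ} (h : Rl l E a b) :
    ∃ P Q : ℚ, Sol E a b P Q ∧ nr l (P ^ 2 - E * Q ^ 2) = 1 ∧ nr l P ≤ 1 ∧ nr l Q ≤ 1 ∧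
      (P = 1 ∨ Q = 1) := by
  obtain ⟨P, Q, h1, h2⟩ := h
  have h0 := tlb_ok_pos h1
  rcases le_total (nr l Q) (nr l P) with h3 | h3
  · rw [max_eq_left h3] at h0
    have h4 : P⁻¹ * P = 1 := inv_mul_cancel₀ (tlb_ne h0)
    have h5 : nr l (P⁻¹ * Q) ≤ 1 := by
      rw [tlb_mul, tlb_inv]
      exact (inv_mul_le_iff₀ h0).2 (by simpa using h3)
    have h6 : nr l (P⁻¹ * P) = 1 := by rw [h4, tlb_one]
    refine ⟨P⁻¹ * P, P⁻¹ * Q, tlb_sol_smul _ h2, ?_, h6.le, h5, Or.inl h4⟩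
    rw [(tlb_ok_smul (inv_ne_zero (tlb_ne h0)) h1).2, h6, max_eq_left h5, one_pow]
  · rw [max_eq_right h3] at h0
    have h4 : Q⁻¹ * Q = 1 := inv_mul_cancel₀ (tlb_ne h0)
    have h5 : nr l (Q⁻¹ * P) ≤ 1 := by
      rw [tlb_mul, tlb_inv]
      exact (inv_mul_le_iff₀ h0).2 (by simpa using h3)
    have h6 : nr l (Q⁻¹ * Q) = 1 := by rw [h4, tlb_one]
    refine ⟨Q⁻¹ * P, Q⁻¹ * Q, tlb_sol_smul _ h2, ?_, h5, h6.le, Or.inr h4⟩
    rw [(tlb_ok_smul (inv_ne_zero (tlb_ne h0)) h1).2, h6, max_eq_right h5, one_pow]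

/-- Passing to the order of index `l ^ j`. -/
theorem few_index {E : ℤ} (hE : E < 0) (j : ℕ) {S : Set (ℚ × ℚ)} {W : ℝ}
    (h : Few (Rl l E) ((fun a : ℚ × ℚ => (a.1, (l : ℚ) ^ j * a.2)) '' S) W) :
    Few (Rl l ((l : ℤ) ^ (2 * j) * E)) S (2 * (l : ℝ) ^ j * W) := by
  have _ := hE
  intro T hT hT'
  have key := card_le_few h (Rl.refl E) (fun _ _ => Rl.symm) T
    (fun z a => a = (z.1, (l : ℚ) ^ j * z.2)) (fun z hz => ⟨_, ⟨z, hT z hz, rfl⟩, rfl⟩)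
    (m := 2 * l ^ j) ?_
  · exact_mod_cast key
  intro a₀ _ Z' hZ' hrel
  have h1 := few_of_label (R := Rl l ((l : ℤ) ^ (2 * j) * E))
    (S := {z : ℚ × ℚ | Rl l E (z.1, (l : ℚ) ^ j * z.2) a₀})
    ((univ : Finset Bool) ×ˢ range (l ^ j))
    (fun z b => ∃ P Q : ℚ, Sol E (z.1, (l : ℚ) ^ j * z.2) a₀ P Q ∧
      nr l (P ^ 2 - E * Q ^ 2) = 1 ∧ nr l P ≤ 1 ∧ nr l Q ≤ 1 ∧
      ((b.1 = true ∧ P = 1 ∧ nr l (Q - b.2) ≤ (l : ℝ) ^ (-(j : ℤ))) ∨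
        (b.1 = false ∧ Q = 1 ∧ nr l (P - b.2) ≤ (l : ℝ) ^ (-(j : ℤ))))) ?_ ?_
  · have h2 := h1 Z' (fun z hz => by
      obtain ⟨a, rfl, ha⟩ := hrel z hz
      exact ha) (fun a ha b hb => hT' a (hZ' ha) b (hZ' hb))
    rw [card_product, card_range, card_univ, Fintype.card_bool] at h2
    exact_mod_cast h2
  · intro z hz
    obtain ⟨P, Q, h2, h3, h4, h5, h6 | h6⟩ := tlb_normal hz
    · obtain ⟨r, hr, h7⟩ := tlb_res h5 j
      exact ⟨(true, r), by simpa using hr, P, Q, h2, h3, h4, h5, Or.inl ⟨rfl, h6, h7⟩⟩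
    · obtain ⟨r, hr, h7⟩ := tlb_res h4 j
      exact ⟨(false, r), by simpa using hr, P, Q, h2, h3, h4, h5, Or.inr ⟨rfl, h6, h7⟩⟩
  · rintro z - z' - b ⟨P, Q, h2, h3, h4, h5, h6⟩ ⟨P', Q', h2', h3', h4', h5', h6'⟩
    refine tlb_up j (tlb_sol_two h2 h2')
      (tlb_sub (tlb_mul_le' h4 h4') (tlb_mul_le' (tlb_int E) (tlb_mul_le' h5 h5'))) ?_ ?_
    · rcases h6 with ⟨h7, rfl, h8⟩ | ⟨h7, rfl, h8⟩ <;>
        rcases h6' with ⟨h7', rfl, h8'⟩ | ⟨h7', rfl, h8'⟩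
      · have h9 : Q * 1 - 1 * Q' = (Q - b.2) - (Q' - b.2) := by ring
        rw [h9]
        exact tlb_sub h8 h8'
      · simp [h7] at h7'
      · simp [h7] at h7'
      · have h9 : 1 * P' - P * 1 = (P' - b.2) - (P - b.2) := by ring
        rw [h9]
        exact tlb_sub h8' h8
    · have h9 : (P * P' - E * (Q * Q')) ^ 2 - E * (Q * P' - P * Q') ^ 2
          = (P ^ 2 - E * Q ^ 2) * (P' ^ 2 - E * Q' ^ 2) := by ring
      rw [h9, tlb_mul, h3, h3', mul_one]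

theorem tlb_val {x : ℚ} (hx : x ≠ 0) (h : nr l x < 1) :
    ∃ n : ℕ, 1 ≤ n ∧ nr l x = (l : ℝ) ^ (-(n : ℤ)) := by
  have h1 : nr l x = (l : ℝ) ^ (-(x : ℚ_[l]).valuation) :=
    Padic.norm_eq_zpow_neg_valuation (Rat.cast_ne_zero.2 hx)
  rw [h1, zpow_lt_one_iff_right₀ tlb_l1] at h
  refine ⟨(x : ℚ_[l]).valuation.toNat, by omega, ?_⟩
  rw [h1, Int.toNat_of_nonneg (by omega)]

theorem tlb_ram {E : ℤ} (h : ¬ (l : ℤ) ^ 2 ∣ E) (hE : nr l (E : ℚ) < 1) {P : ℚ}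
    (hP : nr l (P ^ 2 - E * 1 ^ 2) < 1) :
    nr l P ≤ (l : ℝ)⁻¹ ∧ nr l (P ^ 2 - E * 1 ^ 2) = (l : ℝ)⁻¹ := by
  have h1 : nr l P < 1 := by
    have h2 : P ^ 2 = (P ^ 2 - E * 1 ^ 2) + E := by ring
    have h3 : nr l (P ^ 2) < 1 := by
      rw [h2]
      exact lt_of_le_of_lt (tlb_add (tlb_lt_one hP) (tlb_lt_one hE)) tlb_inv_lt
    rw [tlb_pow] at h3
    exact (sq_lt_one_iff₀ (tlb_nn _)).1 h3
  have h2 := tlb_lt_one h1
  have h3 : (l : ℝ) ^ (-((2 : ℕ) : ℤ)) < nr l (E : ℚ) := not_le.1 fun h4 => h ((tlb_dvd E 2).1 h4)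
  have h4 : nr l (E : ℚ) = (l : ℝ)⁻¹ := by
    refine le_antisymm (tlb_lt_one hE) (not_lt.1 fun h5 => ?_)
    refine absurd ((tlb_step (l := l) (E : ℚ) (-((2 : ℕ) : ℤ))).2 ?_) (not_le.2 h3)
    simpa using h5
  refine ⟨h2, ?_⟩
  have h5 : P ^ 2 - E * 1 ^ 2 = -((E : ℚ) - P ^ 2) := by ring
  rw [h5, tlb_neg, tlb_sub_eq, h4]
  refine lt_of_le_of_lt ?_ h3
  rw [tlb_pow]
  simpa using pow_le_pow_left₀ (tlb_nn _) h2 2

theorem tlb_unr {E : ℤ} (hE : nr l (E : ℚ) = 1) {P : ℚ}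
    (hP : nr l (P ^ 2 - E * 1 ^ 2) < 1) : nr l P = 1 := by
  have h2 : P ^ 2 = E + (P ^ 2 - E * 1 ^ 2) := by ring
  have h3 : nr l (P ^ 2) = 1 := by rw [h2, tlb_add_eq (by rwa [hE]), hE]
  rw [tlb_pow] at h3
  exact (pow_eq_one_iff_of_nonneg (tlb_nn _) two_ne_zero).1 h3

theorem tlb_exists_sol {E : ℤ} {a b : ℚ × ℚ} {Z : ℚ} (hZ : Z ≠ 0)
    (ha : a.1 ^ 2 - E * a.2 ^ 2 = Z) (hb : b.1 ^ 2 - E * b.2 ^ 2 = Z) :
    ∃ P Q : ℚ, (P ≠ 0 ∨ Q ≠ 0) ∧ Sol E a b P Q := by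
  by_cases h : a.1 + b.1 ≠ 0 ∨ a.2 - b.2 ≠ 0
  · exact ⟨_, _, h, sol_one (ha.trans hb.symm)⟩
  · push Not at h
    refine ⟨E * a.2, a.1, ?_, ?_, ?_⟩
    · by_contra h1
      push Not at h1
      exact hZ (by linear_combination (-1 : ℚ) * ha + a.1 * h1.2 - a.2 * h1.1)
    · linear_combination (-(E : ℚ) * a.2) * h.1 + (E : ℚ) * a.1 * h.2
    · linear_combination (E : ℚ) * a.2 * h.2 - a.1 * h.1

/-- The maximal or almost maximal order. -/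
theorem few_base {E : ℤ} (hE : E < 0) (h : ¬ (l : ℤ) ^ 2 ∣ E) {Z : ℤ} (hZ : Z ≠ 0) :
    Few (Rl l E) {a | nr l a.1 ≤ 1 ∧ nr l a.2 ≤ 1 ∧ a.1 ^ 2 - E * a.2 ^ 2 = Z}
      (3 * (padicValInt l Z + 1)) := by
  rcases Set.eq_empty_or_nonempty
    {a : ℚ × ℚ | nr l a.1 ≤ 1 ∧ nr l a.2 ≤ 1 ∧ a.1 ^ 2 - E * a.2 ^ 2 = Z} with h0 | ⟨c, hc⟩
  · intro T hT _
    have h1 : T = ∅ := eq_empty_of_forall_notMem fun a ha => by
      have h2 := hT a ha
      rw [h0] at h2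
      exact h2
    rw [h1, card_empty, Nat.cast_zero]
    positivity
  obtain ⟨β, hβ⟩ := tlb_sign (l := l)
  refine Few.mono (few_of_label
    (insert (0, true) (Icc 1 (padicValInt l Z + 1) ×ˢ (univ : Finset Bool)))
    (fun a b => (b.1 = 0 ∧ Rl l E a c) ∨ ∃ P : ℚ, Sol E a c P 1 ∧ nr l P ≤ 1 ∧ 1 ≤ b.1 ∧
      nr l (P ^ 2 - E * 1 ^ 2) = (l : ℝ) ^ (-(b.1 : ℤ)) ∧ b.2 = β P) ?_ ?_) le_rfl ?_
  · intro a ha
    by_cases h1 : Rl l E a c
    · exact ⟨(0, true), mem_insert_self _ _, Or.inl ⟨rfl, h1⟩⟩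
    obtain ⟨P₀, Q₀, h2, h3⟩ := tlb_exists_sol (Int.cast_ne_zero.2 hZ) ha.2.2 hc.2.2
    have h4 : nr l P₀ ≤ nr l Q₀ := not_lt.1 fun h5 => h1 ⟨_, _, tlb_ok_lt h5, h3⟩
    have h5 : Q₀ ≠ 0 := by
      rcases h2 with h2 | h2
      · exact tlb_ne (lt_of_lt_of_le (tlb_pos h2) h4)
      · exact h2
    have h6 : Sol E a c (Q₀⁻¹ * P₀) 1 := by
      have h7 := tlb_sol_smul Q₀⁻¹ h3
      rwa [inv_mul_cancel₀ h5] at h7
    have h7 : nr l (Q₀⁻¹ * P₀) ≤ 1 := by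
      rw [tlb_mul, tlb_inv]
      exact (inv_mul_le_iff₀ (tlb_pos h5)).2 (by simpa using h4)
    generalize Q₀⁻¹ * P₀ = P at h6 h7
    have h8 : nr l (P ^ 2 - E * 1 ^ 2) < 1 := not_le.1 fun h9 =>
      h1 ⟨_, _, tlb_ok one_pos h7 tlb_one.le (by simpa using h9), h6⟩
    have h9 : P ^ 2 - E * 1 ^ 2 ≠ 0 := by
      have h10 : (E : ℚ) < 0 := by exact_mod_cast hE
      nlinarith [sq_nonneg P]
    obtain ⟨n, hn, h10⟩ := tlb_val h9 h8
    refine ⟨(n, β P), mem_insert_of_mem ?_, Or.inr ⟨P, h6, h7, hn, h10, rfl⟩⟩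
    simp only [mem_product, mem_Icc, mem_univ, and_true]
    refine ⟨hn, ?_⟩
    rcases (tlb_int (l := l) E).lt_or_eq with h11 | h11
    · have h12 := (tlb_ram h h11 h8).2
      rw [h10, ← _root_.zpow_neg_one, zpow_right_inj₀ tlb_l0 tlb_l1.ne'] at h12
      omega
    · have h12 := tlb_unr h11 h8
      have h13 : 2 * P * Z = (P ^ 2 - E * 1 ^ 2) * (a.2 * c.1 - a.1 * c.2) := by
        linear_combination (-2 * P) * hc.2.2 + (P * c.2 - c.1) * h6.1 - (P * c.1 - E * c.2) * h6.2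
      have h14 : nr l (2 * P * Z) ≤ (l : ℝ) ^ (-(n : ℤ)) := by
        rw [h13]
        exact tlb_mul_le'' h10.le (tlb_sub (tlb_mul_le' ha.2.1 hc.1) (tlb_mul_le' ha.1 hc.2.1))
      rw [tlb_mul, tlb_mul, h12, mul_one] at h14
      have h15 : (l : ℝ)⁻¹ * nr l (Z : ℚ) ≤ (l : ℝ) ^ (-(n : ℤ)) :=
        (mul_le_mul_of_nonneg_right tlb_two_ge (tlb_nn _)).trans h14
      obtain ⟨k, rfl⟩ : ∃ k, n = k + 1 := ⟨n - 1, by omega⟩
      have h16 : nr l (Z : ℚ) ≤ (l : ℝ) ^ (-(k : ℤ)) := by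
        rw [inv_mul_le_iff₀ tlb_l0, ← zpow_one_add₀ tlb_l0.ne'] at h15
        refine h15.trans (le_of_eq ?_)
        congr 1
        push_cast
        ring
      rw [tlb_dvd, padicValInt_dvd_iff] at h16
      have h17 := h16.resolve_left hZ
      omega
  · rintro a - a' - b (⟨h1, h2⟩ | ⟨P, h1, h2, h3, h4, h5⟩) (⟨h1', h2'⟩ | ⟨P', h1', h2', h3', h4', h5'⟩)
    · exact h2.trans hE h2'.symm
    · omega
    · omega
    have h6 : (l : ℝ) ^ (-(b.1 : ℤ)) < 1 := zpow_lt_one_of_neg₀ tlb_l1 (by omega)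
    have h7 : nr l (1 * P' - P * 1) ≤ (l : ℝ) ^ (-(b.1 : ℤ)) := by
      rw [one_mul, mul_one]
      rcases (tlb_int (l := l) E).lt_or_eq with h11 | h11
      · obtain ⟨h8, h9⟩ := tlb_ram h h11 (h4.trans_lt h6)
        rw [← h4, h9]
        exact tlb_sub (tlb_ram h h11 (h4'.trans_lt h6)).1 h8
      · have h8 := hβ P P' (tlb_unr h11 (h4.trans_lt h6)) (tlb_unr h11 (h4'.trans_lt h6))
          (h5.symm.trans h5')
        have h9 := tlb_same (h4'.trans h4.symm)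
        have h10 : P' ^ 2 - E * 1 ^ 2 - (P ^ 2 - E * 1 ^ 2) = (P + P') * (P' - P) := by ring
        rw [h10, tlb_mul, h8, h4] at h9
        exact le_of_mul_le_mul_left h9 tlb_two_pos
    refine ⟨_, _, tlb_ok (zpow_pos tlb_l0 _) ?_ h7 (ge_of_eq ?_), tlb_sol_two h1 h1'⟩
    · have h8 : P * P' - E * (1 * 1) = (P ^ 2 - E * 1 ^ 2) + P * (1 * P' - P * 1) := by ring
      rw [h8]
      exact tlb_add h4.le (tlb_mul_le' h2 h7)
    · have h9 : (P * P' - E * (1 * 1)) ^ 2 - E * (1 * P' - P * 1) ^ 2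
          = (P ^ 2 - E * 1 ^ 2) * (P' ^ 2 - E * 1 ^ 2) := by ring
      rw [h9, tlb_mul, h4, h4', pow_two]
  · have h1 := card_insert_le (0, true) (Icc 1 (padicValInt l Z + 1) ×ˢ (univ : Finset Bool))
    rw [card_product, Nat.card_Icc, card_univ, Fintype.card_bool] at h1
    have h2 : (insert (0, true) (Icc 1 (padicValInt l Z + 1) ×ˢ (univ : Finset Bool))).card
        ≤ 3 * (padicValInt l Z + 1) := by omega
    exact_mod_cast h2

theorem tlb_deep {E x Δ : ℤ} (hE0 : E ≠ 0) (hE2 : (l : ℤ) ^ 2 ∣ E)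
    (hE3 : nr l (E : ℚ) < nr l 2 * (l : ℝ)⁻¹) (h : ¬ ((l : ℤ) ^ 2 ∣ x ∧ (l : ℤ) ^ 2 ∣ Δ)) :
    Few (Rl l E) (LA l E x Δ) 8 := by
  classical
  obtain ⟨β, hβ⟩ := tlb_sign (l := l)
  have hE1 : nr l (E : ℚ) < 1 := by
    refine hE3.trans_le ?_
    exact mul_le_one₀ tlb_two (inv_nonneg.2 tlb_l0.le) tlb_inv_lt.le
  refine Few.mono (few_of_label (univ : Finset (Bool × Bool × Bool))
    (fun a b => ∃ t : ℚ, nr l t ≤ 1 ∧ a.1 = x - E * t ∧ a.2 ^ 2 + (2 * x - E * t) * t = Δ ∧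
      ((b.1 = true ∧ nr l a.2 = 1 ∧ b.2.1 = β a.2 ∧ b.2.2 = decide (nr l t = 1)) ∨
        (b.1 = false ∧ nr l a.2 < 1 ∧ b.2.1 = decide (nr l (a.2 / l) = 1)))) ?_ ?_) le_rfl ?_
  · rintro a ⟨t, h1, h2, h3, h4⟩
    rcases h2.lt_or_eq with h5 | h5
    · exact ⟨(false, decide (nr l (a.2 / l) = 1), true), mem_univ _, t, h1, h3, h4,
        Or.inr ⟨rfl, h5, rfl⟩⟩
    · exact ⟨(true, β a.2, decide (nr l t = 1)), mem_univ _, t, h1, h3, h4,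
        Or.inl ⟨rfl, h5, rfl, rfl⟩⟩
  · rintro a ha a' ha' b ⟨t, h1, h2, h3, h4⟩ ⟨t', h1', h2', h3', h4'⟩
    have hn := (LA.norm ha).trans (LA.norm ha').symm
    rcases h4 with ⟨h4, h5, h6, h7⟩ | ⟨h4, h5, h6⟩ <;>
      rcases h4' with ⟨h4', h5', h6', h7'⟩ | ⟨h4', h5', h6'⟩
    · have h8 := hβ _ _ h5 h5' (h6.symm.trans h6')
      refine ⟨_, _, tlb_ok_le hE1 (h8 ▸ tlb_two_pos) ?_, sol_two hE0 h2 h2' hn⟩
      rw [h8]
      exact tlb_par h1' h1 (by simpa using h7'.symm.trans h7)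
    · simp [h4] at h4'
    · simp [h4] at h4'
    · have h8 : (l : ℝ)⁻¹ ≤ nr l (x : ℚ) := by
        refine not_lt.1 fun h9 => h ?_
        have h10 : nr l (x : ℚ) ≤ (l : ℝ) ^ (-((2 : ℕ) : ℤ)) :=
          (tlb_step _ _).2 (by simpa using h9)
        refine ⟨(tlb_dvd _ _).1 h10, (tlb_dvd _ _).1 ?_⟩
        rw [← h3]
        refine tlb_add ?_ (tlb_mul_le'' (tlb_sub (tlb_mul_le' tlb_two h10)
          (tlb_mul_le'' ((tlb_dvd _ _).2 hE2) h1)) h1)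
        rw [tlb_pow]
        simpa using pow_le_pow_left₀ (tlb_nn _) (tlb_lt_one h5) 2
      have h9 : nr l 2 * (l : ℝ)⁻¹ ≤ nr l (2 * x) := by
        rw [tlb_mul]
        exact mul_le_mul_of_nonneg_left h8 (tlb_nn _)
      have h10 : a.1 + a'.1 = 2 * x - E * (t + t') := by
        rw [h2, h2']
        ring
      have h11 : nr l (a.1 + a'.1) = nr l (2 * x) := by
        rw [h10]
        exact tlb_sub_eq (lt_of_le_of_lt (tlb_mul_le'' le_rfl (tlb_add h1 h1')) (hE3.trans_le h9))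
      have h12 : ∀ u : ℚ, nr l u < 1 → nr l (u / l) ≤ 1 := fun u hu => by
        rw [tlb_div, tlb_l]
        exact (div_le_one (inv_pos.2 tlb_l0)).2 (tlb_lt_one hu)
      have h13 := tlb_par (h12 _ h5) (h12 _ h5') (by simpa using h6.symm.trans h6')
      have h14 : a.2 - a'.2 = (a.2 / l - a'.2 / l) * l := by
        have := tlb_lq (l := l)
        field_simp
      refine ⟨_, _, tlb_ok_le hE1 ?_ ?_, sol_one hn⟩
      · rw [h11]
        exact lt_of_lt_of_le (mul_pos tlb_two_pos (inv_pos.2 tlb_l0)) h9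
      · rw [h11, h14]
        exact (tlb_mul_le h13 tlb_l.le).trans h9
  · simp

theorem tlb_shallow {E x Δ : ℤ} (hE : E < 0) (hZ : x ^ 2 - E * Δ ≠ 0) :
    Few (Rl l E) (LA l E x Δ) (2 * (l : ℝ) ^ (padicValInt l E / 2) *
      (3 * (padicValInt l (x ^ 2 - E * Δ) + 1))) := by
  set j := padicValInt l E / 2 with hj
  obtain ⟨E₀, hE₀⟩ : (l : ℤ) ^ (2 * j) ∣ E := (padicValInt_dvd_iff _ _).2 (Or.inr (by omega))
  have hl : (0 : ℤ) < (l : ℤ) ^ (2 * j) := pow_pos (by exact_mod_cast (Fact.out : l.Prime).pos) _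
  have h1 : E₀ < 0 := by
    rw [hE₀] at hE
    exact neg_of_mul_neg_right hE hl.le
  have h2 : ¬ (l : ℤ) ^ 2 ∣ E₀ := fun h3 => by
    have h4 : (l : ℤ) ^ (2 * j + 2) ∣ E := by
      rw [hE₀, pow_add]
      exact mul_dvd_mul_left _ h3
    have h5 := ((padicValInt_dvd_iff _ _).1 h4).resolve_left hE.ne
    omega
  have h3 := few_index h1 j (S := LA l E x Δ) ((few_base h1 h2 hZ).mono ?_ le_rfl)
  · rwa [← hE₀] at h3
  rintro _ ⟨a, ha, rfl⟩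
  have h4 := LA.norm ha
  obtain ⟨t, h5, h6, h7, -⟩ := ha
  refine ⟨?_, ?_, ?_⟩
  · simp only [h7]
    exact tlb_sub (tlb_int x) (tlb_mul_le' (tlb_int E) h5)
  · refine tlb_mul_le' ?_ h6
    simpa using tlb_int (l := l) ((l : ℤ) ^ j)
  · have h8 : (E : ℚ) = (l : ℚ) ^ (2 * j) * E₀ := by exact_mod_cast hE₀
    push_cast
    rw [← h4, h8]
    ring

theorem tlb_scaled {E x Δ : ℤ} (hE : E < 0) (i : ℕ) {W : ℝ} (h : Few (Rl l E) (LA l E x Δ) W) :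
    Few (Rl l ((l : ℤ) ^ (2 * i) * E))
      (LA l ((l : ℤ) ^ (2 * i) * E) ((l : ℤ) ^ (2 * i) * x) ((l : ℤ) ^ (2 * i) * Δ))
      (2 * (l : ℝ) ^ i * W) := by
  have hl : (l : ℚ) ^ i ≠ 0 := pow_ne_zero _ tlb_lq
  refine few_index hE i (h.of_rel
    (fun a b => a = ((l : ℚ) ^ (2 * i) * b.1, (l : ℚ) ^ (2 * i) * b.2)) ?_ ?_)
  · rintro _ ⟨a, ⟨t, h1, -, h3, h4⟩, rfl⟩
    obtain ⟨u, hu⟩ : ∃ u, a.2 = (l : ℚ) ^ i * u := ⟨a.2 / (l : ℚ) ^ i, by field_simp⟩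
    have h5 : u ^ 2 + (2 * x - E * t) * t = Δ := by
      refine mul_left_cancel₀ (pow_ne_zero 2 hl) ?_
      rw [hu] at h4
      push_cast at h4
      linear_combination h4
    refine ⟨(x - E * t, u), ⟨t, h1, ?_, rfl, h5⟩, ?_⟩
    · have h6 : u ^ 2 = Δ - (2 * x - E * t) * t := by linear_combination h5
      have h7 : nr l (u ^ 2) ≤ 1 := by
        rw [h6]
        exact tlb_sub (tlb_int _) (tlb_mul_le' (tlb_sub (tlb_mul_le' tlb_two (tlb_int _))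
          (tlb_mul_le' (tlb_int _) h1)) h1)
      rw [tlb_pow] at h7
      exact (pow_le_one_iff_of_nonneg (tlb_nn _) two_ne_zero).1 h7
    · refine Prod.ext ?_ ?_
      · simp only [h3]
        push_cast
        ring
      · simp only [hu]
        ring
  · rintro _ - _ - b b' rfl rfl (rfl | ⟨P, Q, h1, h2⟩)
    · exact Rl.refl _ _
    · refine ⟨P, Q, h1, ?_, ?_⟩
      · simp only
        linear_combination (l : ℚ) ^ (2 * i) * h2.1
      · simp only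
        linear_combination (l : ℚ) ^ (2 * i) * h2.2

theorem loc_all {E x Δ : ℤ} (hE : E < 0) (hZ : x ^ 2 - E * Δ ≠ 0) {i : ℕ}
    (hi : i = padicValNat l (Int.gcd (Int.gcd x Δ) E) / 2) :
    Few (Rl l E) (LA l E x Δ) (16 * (l : ℝ) ^ i *
      (1 + if padicValInt l E ≤ 2 * i + 3 then (padicValInt l (x ^ 2 - E * Δ) : ℝ) else 0)) := by
  have hli : (0 : ℝ) < (l : ℝ) ^ i := pow_pos tlb_l0 _
  by_cases hA : padicValInt l E ≤ 2 * i + 1 ∨ (l = 2 ∧ padicValInt l E ≤ 2 * i + 3)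
  · refine (tlb_shallow hE hZ).mono le_rfl ?_
    rw [if_pos (by omega)]
    have h1 : (l : ℝ) ^ (padicValInt l E / 2) ≤ 2 * (l : ℝ) ^ i := by
      rcases hA with h2 | ⟨h2, h3⟩
      · have h3 := pow_le_pow_right₀ (tlb_l1 (l := l)).le (show padicValInt l E / 2 ≤ i by omega)
        linarith
      · refine (pow_le_pow_right₀ (tlb_l1 (l := l)).le
          (show padicValInt l E / 2 ≤ i + 1 by omega)).trans (le_of_eq ?_)
        have h4 : (l : ℝ) = 2 := by exact_mod_cast h2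
        rw [pow_succ, mul_comm, h4]
    have h2 : (0 : ℝ) ≤ (padicValInt l (x ^ 2 - E * Δ) : ℝ) := Nat.cast_nonneg _
    nlinarith [mul_le_mul_of_nonneg_right h1 (add_nonneg h2 zero_le_one), mul_nonneg hli.le h2]
  · have hg : Int.gcd (Int.gcd x Δ) E ≠ 0 := fun h1 => hE.ne (Int.gcd_eq_zero_iff.1 h1).2
    have hdvd : ∀ n : ℕ, ((l : ℤ) ^ n ∣ x ∧ (l : ℤ) ^ n ∣ Δ ∧ (l : ℤ) ^ n ∣ E) ↔
        n ≤ padicValNat l (Int.gcd (Int.gcd x Δ) E) := by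
      intro n
      rw [← padicValNat_dvd_iff_le hg, ← Int.natCast_dvd_natCast, Int.dvd_coe_gcd_iff,
        Int.dvd_coe_gcd_iff, and_assoc, Nat.cast_pow]
    obtain ⟨⟨x₁, hx⟩, ⟨Δ₁, hΔ⟩, ⟨E₁, hE₁⟩⟩ := (hdvd (2 * i)).2 (by omega)
    have hl : (0 : ℤ) < (l : ℤ) ^ (2 * i) := pow_pos (by exact_mod_cast (Fact.out : l.Prime).pos) _
    have h1 : E₁ < 0 := by
      rw [hE₁] at hE
      exact neg_of_mul_neg_right hE hl.le
    have h2 : ∀ n : ℕ, 2 * i + n ≤ padicValInt l E → (l : ℤ) ^ n ∣ E₁ := fun n hn => by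
      have h3 := (padicValInt_dvd_iff (2 * i + n) E).2 (Or.inr hn)
      rw [pow_add, hE₁] at h3
      exact (mul_dvd_mul_iff_left hl.ne').1 h3
    have h3 : (l : ℤ) ^ 2 ∣ E₁ := h2 2 (by omega)
    have h4 : nr l (E₁ : ℚ) < nr l 2 * (l : ℝ)⁻¹ := by
      by_cases h5 : l = 2
      · have h6 := (tlb_step _ _).1 ((tlb_dvd _ _).2 (h2 3 (by omega)))
        rw [tlb_two_two h5, ← pow_two]
        simpa using h6
      · have h6 := (tlb_step _ _).1 ((tlb_dvd _ _).2 h3)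
        rw [tlb_two_odd h5, one_mul]
        simpa using h6
    have h5 : ¬ ((l : ℤ) ^ 2 ∣ x₁ ∧ (l : ℤ) ^ 2 ∣ Δ₁) := fun h6 => by
      have h7 := (hdvd (2 * i + 2)).1 ⟨by rw [pow_add, hx]; exact mul_dvd_mul_left _ h6.1,
        by rw [pow_add, hΔ]; exact mul_dvd_mul_left _ h6.2,
        by rw [pow_add, hE₁]; exact mul_dvd_mul_left _ h3⟩
      omega
    have h6 := tlb_scaled h1 i (tlb_deep h1.ne h3 h4 h5)
    rw [← hx, ← hΔ, ← hE₁] at h6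
    refine h6.mono le_rfl ?_
    have h7 : (0 : ℝ) ≤
        if padicValInt l E ≤ 2 * i + 3 then (padicValInt l (x ^ 2 - E * Δ) : ℝ) else 0 := by
      split_ifs
      · exact Nat.cast_nonneg _
      · exact le_rfl
    nlinarith [mul_nonneg hli.le h7]

end Pool.Agent.EQ
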