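import Pool.Agent.P.MP_ad7a55_nt.TGc
import Pool.Agent.P.MP_ad7a55_nt.TWt
import Pool.Agent.P.MP_ad7a55_nt.TCn
import Pool.Agent.P.MP_ad7a55_nt.TTi
import Pool.Agent.P.MP_ad7a55_nt.SgF

/-! Pairs of close classes with a level structure. -/

set_option autoImplicit false

noncomputable section

open Finset Matrix UpperHalfPlane

namespace Pool.Agent.EQ

theorem LevP_finite (q : ℕ) (b₀ : ℤ) (C : ℝ) (E : ℤ) : (LevP q b₀ C E).Finite := by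
  refine ((Cl_finite E).prod (Cl_finite E)).subset ?_
  rintro z ⟨M₁, M₂, α, β, B, h₁, h₂, e₁, e₂, -⟩
  exact ⟨⟨M₁, h₁, e₁⟩, ⟨M₂, h₂, e₂⟩⟩

theorem tpair_biUnion {α β : Type*} {A : Set α} (hA : A.Finite) (F : α → Set β) {k : ℕ}
    (hF : ∀ x ∈ A, (F x).Finite ∧ (F x).ncard ≤ k) :
    (⋃ x ∈ A, F x).Finite ∧ (⋃ x ∈ A, F x).ncard ≤ A.ncard * k := by
  refine ⟨hA.biUnion fun x hx => (hF x hx).1, ?_⟩
  induction A, hA using Set.Finite.induction_on with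
  | empty => simp
  | @insert a s ha hs ih =>
    rw [Set.biUnion_insert, Set.ncard_insert_of_notMem ha hs, add_mul, one_mul]
    have h1 := ih fun x hx => hF x (Set.mem_insert_of_mem _ hx)
    have h2 := (hF a (Set.mem_insert _ _)).2
    have h3 := Set.ncard_union_le (F a) (⋃ x ∈ s, F x)
    omega

theorem tpair_diag {E : ℤ} {C : ℝ} {M₁ M₂ : Lt} {α β : ℂ} (h₁ : DiscL M₁ E) (h₂ : DiscL M₂ E)
    (hm : Hm 1 C E E M₁ M₂ α β 0) : jL M₂ = jL M₁ := by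
  have v1 := vol_pos h₁.isLat
  have v2 := vol_pos h₂.isLat
  have hE : (E : ℝ) < 0 := by exact_mod_cast h₁.isD.1
  have hs : 0 < Real.sqrt (E * E) := Real.sqrt_pos.2 (mul_pos_of_neg_of_neg hE hE)
  have hβ : β = 0 := by
    have h := hm.inv
    rw [Int.cast_zero, zero_mul] at h
    rcases mul_eq_zero.1 h with h | h
    · exact Complex.normSq_eq_zero.1 ((mul_eq_zero.1 h).resolve_left hs.ne')
    · exact absurd h v1.ne'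
  subst hβ
  have hα : α ≠ 0 := by
    rintro rfl
    have h := hm.deg
    simp only [map_zero, sub_zero, zero_mul, Int.cast_one, one_mul] at h
    exact v2.ne h
  have e : M₂ = pr α * M₁ := by
    refine le_antisymm (fun w hw => ?_) (pr_mul_le.2 fun w hw => ?_)
    · obtain ⟨z, hz, e⟩ := rl_index h₁.isLat h₂.isLat hm.map hm.deg w hw
      exact mem_pr_mul.2 ⟨z, hz, by simpa [rl] using e⟩
    · simpa [rl] using hm.map w hw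
  rw [e, jL_pr_mul h₁.isLat hα]

theorem tpair_fib (E : ℤ) (w : ℂ) :
    {z : ℂ × ℂ | ∃ M₁ M₂, DiscL M₁ E ∧ DiscL M₂ E ∧ jL M₁ = z.1 ∧ jL M₂ = z.2 ∧
      jL (M₂ * cj M₁) = w}.Finite ∧
    {z : ℂ × ℂ | ∃ M₁ M₂, DiscL M₁ E ∧ DiscL M₂ E ∧ jL M₁ = z.1 ∧ jL M₂ = z.2 ∧
      jL (M₂ * cj M₁) = w}.ncard ≤ (Cl E).ncard := by
  refine ⟨((Cl_finite E).prod (Cl_finite E)).subset ?_,
    Set.ncard_le_ncard_of_injOn Prod.fst ?_ ?_ (Cl_finite E)⟩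
  · rintro z ⟨M₁, M₂, h₁, h₂, e₁, e₂, -⟩
    exact ⟨⟨M₁, h₁, e₁⟩, ⟨M₂, h₂, e₂⟩⟩
  · rintro z ⟨M₁, M₂, h₁, -, e₁, -⟩
    exact ⟨M₁, h₁, e₁⟩
  · rintro z ⟨M₁, M₂, h₁, h₂, e₁, e₂, e₃⟩ z' ⟨M₁', M₂', h₁', h₂', e₁', e₂', e₃'⟩ e
    refine Prod.ext e ?_
    have k := jL_mul_congr (h₂.mul h₁.cj le_rfl) (h₂'.mul h₁'.cj le_rfl) h₁ h₁' le_rfl
      (e₃.trans e₃'.symm) (e₁.trans (e.trans e₁'.symm))
    have e1 : ∀ T U : Lt, U * cj T * T = T * cj T * U := fun T U => by ring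
    rw [e1, e1, ctc_cancel h₁ h₂, ctc_cancel h₁' h₂', e₂, e₂'] at k
    exact k

theorem tpair_geo {d : Dt} (h : d.Good 0) (hn : d.n = 1) (g1 : d.g₁ = 1) (g2 : d.g₂ = 1) {q : ℕ}
    (hq : 0 < q) {b₀ : ℤ} {C : ℝ} {M₁ M₂ : Lt} {α β : ℂ} {B : ℤ} (h₁ : DiscL M₁ d.E)
    (h₂ : DiscL M₂ d.E) (hm : Hm 1 C d.E d.E M₁ M₂ α β B) (hl : LvP q b₀ d.E M₁ M₂ α β)
    (hj : jL (M₂ * cj M₁) = jL d.LL) :
    ∃ τ Θ η₁ η₂, d.GZ C (jL M₁, jL M₂) τ Θ η₁ η₂ B ∧ Lvl q b₀ Θ η₁ η₂ := by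
  have e1 : (d.g₁ : ℤ) ^ 2 * d.E = d.E := by rw [g1]; simp
  have e2 : (d.g₂ : ℤ) ^ 2 * d.E = d.E := by rw [g2]; simp
  obtain ⟨τ, hτ⟩ := jInv_surj (jL (M₁ * OD d.E))
  obtain ⟨s, c, Θ, η₁, η₂, hs, g⟩ := Dt.geo_ex (C := C) (α := α) (β := β) (B := B) h
    (e1.symm ▸ h₁) (e2.symm ▸ h₂) hj (by rw [e1, e2, hn]; exact hm) hτ
  refine ⟨τ, Θ, η₁, η₂, ⟨M₁, pr s * M₂, s * α, s * β, c, rfl, jL_pr_mul h₂.isLat hs, g⟩,
    g.lvl h hn g1 g2 hq ?_⟩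
  obtain ⟨l1, v, hv, l2, l3, l4⟩ := hl
  refine ⟨l1, v, hv, l2, l3, ?_⟩
  obtain ⟨w, hw, e⟩ := mem_pr_mul.1 l4
  refine mem_pr_mul.2 ⟨s * w, mem_pr_mul.2 ⟨w, hw, rfl⟩, ?_⟩
  simp only [rl] at e ⊢
  linear_combination s * e

theorem tpair_fin {d : Dt} {C : ℝ} (R : M2 → M2 → M2 → ℤ → Prop) :
    {z | ∃ τ Θ η₁ η₂ B, d.GZ C z τ Θ η₁ η₂ B ∧ R Θ η₁ η₂ B}.Finite := by
  refine ((Cl_finite (d.g₁ ^ 2 * d.E)).prod (Cl_finite (d.g₂ ^ 2 * d.E))).subset ?_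
  rintro z ⟨τ, Θ, η₁, η₂, B, ⟨M₁, M₂, α, β, c, e₁, e₂, g⟩, -⟩
  exact ⟨⟨M₁, g.d₁, e₁⟩, ⟨M₂, g.d₂, e₂⟩⟩

/-- Reduction to one class with a large leading coefficient. -/
theorem pair_red {E : ℤ} (hE : IsD E) (p : ℕ) (hp : p.Prime) (q : ℕ) (b₀ : ℤ) (C : ℝ) (Y : ℕ)
    {W : ℝ} (hW : 0 ≤ W)
    (h : ∀ d : Dt, d.Good 0 → d.n = 1 → d.g₁ = 1 → d.g₂ = 1 → d.p = p → d.E = E → |d.b| ≤ d.a →
      d.a ≤ d.c → Y < d.a → ({z | ∃ τ Θ η₁ η₂ B, d.GZ C z τ Θ η₁ η₂ B ∧ B ≠ 0 ∧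
        Lvl q b₀ Θ η₁ η₂}.ncard : ℝ) ≤ W) (hq : 0 < q) :
    ((LevP q b₀ C E).ncard : ℝ) ≤ (Cl E).ncard * (1 + 3 * Y ^ 2 + W) := by
  classical
  obtain ⟨Sm, hSm⟩ : ∃ Sm : Set ℂ, Sm = {w | ∃ a b c : ℤ, 0 < a ∧ |b| ≤ a ∧ a ≤ Y ∧
      b ^ 2 - 4 * a * c = E ∧ jL (sp a ((b - th E) / 2)) = w} ∩ Cl E := ⟨_, rfl⟩
  have hSf : Sm.Finite := hSm ▸ (Cl_finite E).inter_of_right _
  have hSc : Sm.ncard ≤ 3 * Y ^ 2 := by
    refine le_trans ?_ (card_small_red E Y)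
    by_cases hf : {w | ∃ a b c : ℤ, 0 < a ∧ |b| ≤ a ∧ a ≤ Y ∧
      b ^ 2 - 4 * a * c = E ∧ jL (sp a ((b - th E) / 2)) = w}.Finite
    · exact Set.ncard_le_ncard (hSm ▸ Set.inter_subset_left) hf
    · refine absurd (Set.Finite.subset (((Set.finite_Icc (1 : ℤ) Y).prod
        (Set.finite_Icc (-(Y : ℤ)) Y)).image fun x : ℤ × ℤ => jL (sp x.1 ((x.2 - th E) / 2))) ?_) hf
      rintro w ⟨a, b, c, h1, h2, h3, -, h5⟩
      have h6 := abs_le.1 h2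
      exact ⟨(a, b), ⟨⟨h1, h3⟩, ⟨by dsimp only; omega, by dsimp only; omega⟩⟩, h5⟩
  have key : ∀ w ∈ Cl E, ∃ G : Set (ℂ × ℂ), (G.Finite ∧ G.ncard ≤ ⌊W⌋₊) ∧ (w ∈ Sm ∨
      ∀ (M₁ M₂ : Lt) (α β : ℂ) (B : ℤ), DiscL M₁ E → DiscL M₂ E → Hm 1 C E E M₁ M₂ α β B →
        LvP q b₀ E M₁ M₂ α β → B ≠ 0 → jL (M₂ * cj M₁) = w → (jL M₁, jL M₂) ∈ G) := by
    intro w hw
    obtain ⟨a, b, c, h1, h2, h3, h4, h5, h6⟩ := exists_red hw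
    rcases le_or_gt a Y with hY | hY
    · exact ⟨∅, ⟨Set.finite_empty, by simp⟩, Or.inl (hSm ▸ ⟨⟨a, b, c, h1, h2, hY, h5, h6⟩, hw⟩)⟩
    · obtain ⟨d, hd⟩ : ∃ d : Dt, d = ⟨a, b, c, 1, 1, 1, p⟩ := ⟨_, rfl⟩
      have eE : d.E = E := by rw [hd]; exact h5
      have hg : d.Good 0 := by
        refine ⟨hd ▸ h1, eE ▸ hE.1, hd ▸ h4, hd ▸ one_ne_zero, hd ▸ one_pos, hd ▸ one_pos,
          hd ▸ Nat.coprime_one_left 1, hd ▸ hp, ?_⟩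
        rw [hd]
        simp [Dt.G]
      have hb := h d hg (hd ▸ rfl) (hd ▸ rfl) (hd ▸ rfl) (hd ▸ rfl) eE (hd ▸ h2) (hd ▸ h3)
        (hd ▸ hY)
      refine ⟨_, ⟨tpair_fin fun Θ η₁ η₂ B => B ≠ 0 ∧ Lvl q b₀ Θ η₁ η₂, Nat.le_floor hb⟩,
        Or.inr fun M₁ M₂ α β B h₁ h₂ hm hl hB hj => ?_⟩
      rw [← eE] at h₁ h₂ hm hl
      obtain ⟨τ, Θ, η₁, η₂, k1, k2⟩ := tpair_geo hg (hd ▸ rfl) (hd ▸ rfl) (hd ▸ rfl) hq h₁ h₂ hm hl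
        (by rw [hj, ← h6, Dt.LL, eE, hd])
      exact ⟨τ, Θ, η₁, η₂, B, k1, hB, k2⟩
  choose! G hG1 hG2 using key
  have u1 := tpair_biUnion hSf _ fun w _ => tpair_fib E w
  have u2 := tpair_biUnion (Cl_finite E) G hG1
  have u0 : ((fun w : ℂ => (w, w)) '' Cl E).Finite := (Cl_finite E).image _
  have hsub : LevP q b₀ C E ⊆ ((fun w : ℂ => (w, w)) '' Cl E ∪ ⋃ w ∈ Sm,
      {z : ℂ × ℂ | ∃ M₁ M₂, DiscL M₁ E ∧ DiscL M₂ E ∧ jL M₁ = z.1 ∧ jL M₂ = z.2 ∧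
        jL (M₂ * cj M₁) = w}) ∪ ⋃ w ∈ Cl E, G w := by
    rintro z ⟨M₁, M₂, α, β, B, h₁, h₂, e₁, e₂, hm, hl⟩
    by_cases hB : B = 0
    · subst hB
      exact Or.inl (Or.inl ⟨jL M₁, ⟨M₁, h₁, rfl⟩,
        Prod.ext e₁ ((tpair_diag h₁ h₂ hm).symm.trans e₂)⟩)
    · have hw : jL (M₂ * cj M₁) ∈ Cl E := ⟨_, h₂.mul h₁.cj le_rfl, rfl⟩
      rcases hG2 _ hw with k | k
      · exact Or.inl (Or.inr (Set.mem_biUnion k ⟨M₁, M₂, h₁, h₂, e₁, e₂, rfl⟩))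
      · refine Or.inr (Set.mem_biUnion hw ?_)
        have := k M₁ M₂ α β B h₁ h₂ hm hl hB rfl
        rwa [e₁, e₂] at this
  have c1 := Set.ncard_le_ncard hsub ((u0.union u1.1).union u2.1)
  have c2 := (c1.trans (Set.ncard_union_le _ _)).trans
    (Nat.add_le_add ((Set.ncard_union_le _ _).trans (Nat.add_le_add
      (Set.ncard_image_le (Cl_finite E)) (u1.2.trans (Nat.mul_le_mul_right _ hSc)))) u2.2)
  have c3 : ((LevP q b₀ C E).ncard : ℝ) ≤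
      (Cl E).ncard + 3 * Y ^ 2 * (Cl E).ncard + (Cl E).ncard * (⌊W⌋₊ : ℝ) := by exact_mod_cast c2
  have c4 := mul_le_mul_of_nonneg_left (Nat.floor_le hW) (Nat.cast_nonneg (α := ℝ) (Cl E).ncard)
  linarith

theorem tpair_mono (q : ℕ) (b₀ : ℤ) {C C' : ℝ} (h : C ≤ C') (E : ℤ) :
    LevP q b₀ C E ⊆ LevP q b₀ C' E := by
  rintro z ⟨M₁, M₂, α, β, B, h₁, h₂, e₁, e₂, hm, hl⟩
  have k := mul_le_mul_of_nonneg_right h (vol_pos h₂.isLat).le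
  exact ⟨M₁, M₂, α, β, B, h₁, h₂, e₁, e₂, ⟨hm.map, hm.inv, hm.deg, hm.le₁.trans k, hm.le₂.trans k⟩,
    hl⟩

theorem tpair_ceil {u : ℝ} (hu : 1 ≤ u) : 2 * u ≤ (⌈2 * u⌉₊ : ℝ) ∧ (⌈2 * u⌉₊ : ℝ) ≤ 3 * u :=
  ⟨Nat.le_ceil _, (Nat.ceil_lt_add_one (by linarith)).le.trans (by linarith)⟩

theorem tpair_num {a x C : ℝ} (ha : 1 ≤ a) (hx : 3 * a ^ 2 ≤ x) (h8 : x ≤ a ^ 8) (hC : 1 ≤ C)
    (hCx : C ≤ x) : ∃ H N : ℕ, 1 ≤ H ∧ H ≤ N ∧ x ≤ (N : ℝ) ^ 4 ∧ (N : ℝ) ≤ x ^ 2 ∧ N ≤ H ^ 16 ∧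
      (N : ℝ) * H ≤ 9 * C * Real.sqrt x ∧ 4 * C * a ≤ (H : ℝ) ^ 2 ∧ 4 * C * x ≤ a * (N : ℝ) ^ 2 := by
  have ha0 : 0 < a := by linarith
  have hx3 : 3 ≤ x := by nlinarith
  have hax : a ≤ x / a := by rw [le_div_iff₀ ha0]; nlinarith
  have h1 : 1 ≤ C * a := one_le_mul_of_one_le_of_one_le hC ha
  have h2 : C * a ≤ C * (x / a) := mul_le_mul_of_nonneg_left hax (by linarith)
  obtain ⟨u, hu⟩ : ∃ u, u = Real.sqrt (C * a) := ⟨_, rfl⟩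
  obtain ⟨v, hv⟩ : ∃ v, v = Real.sqrt (C * (x / a)) := ⟨_, rfl⟩
  have hu1 : 1 ≤ u := hu ▸ Real.one_le_sqrt.2 h1
  have huv : u ≤ v := hu ▸ hv ▸ Real.sqrt_le_sqrt h2
  have hv1 : 1 ≤ v := hu1.trans huv
  have hu2 : u ^ 2 = C * a := hu ▸ Real.sq_sqrt (by linarith)
  have hv2 : v ^ 2 = C * (x / a) := hv ▸ Real.sq_sqrt (by linarith)
  have hv3 : a * v ^ 2 = C * x := by rw [hv2]; field_simp
  have hm : v * u = C * Real.sqrt x := by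
    have hs := Real.sq_sqrt (show 0 ≤ x by linarith)
    refine (pow_left_inj₀ (by positivity) (by positivity) two_ne_zero).1 ?_
    rw [mul_pow, mul_pow, hs, hu2]
    linear_combination C * hv3
  obtain ⟨a1, a2⟩ := tpair_ceil hu1
  obtain ⟨b1, b2⟩ := tpair_ceil hv1
  have hle : ⌈2 * u⌉₊ ≤ ⌈2 * v⌉₊ := Nat.ceil_mono (by linarith)
  generalize ⌈2 * u⌉₊ = H at a1 a2 hle
  generalize ⌈2 * v⌉₊ = N at b1 b2 hle
  have a3 : 4 * C * a ≤ (H : ℝ) ^ 2 := by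
    have := pow_le_pow_left₀ (by linarith) a1 2
    linarith [show (2 * u) ^ 2 = 4 * u ^ 2 by ring]
  have b3 : 4 * v ^ 2 ≤ (N : ℝ) ^ 2 := by
    have := pow_le_pow_left₀ (by linarith) b1 2
    linarith [show (2 * v) ^ 2 = 4 * v ^ 2 by ring]
  have b4 : v ^ 2 ≤ C * x := hv3 ▸ le_mul_of_one_le_left (sq_nonneg v) ha
  refine ⟨H, N, by exact_mod_cast (show (1 : ℝ) ≤ H by linarith), hle, ?_, ?_, ?_, ?_, a3, ?_⟩
  · have k1 : x / a ≤ (N : ℝ) ^ 2 := by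
      have : x / a ≤ C * (x / a) := le_mul_of_one_le_left (by positivity) hC
      linarith [sq_nonneg v]
    calc x = a * (x / a) := by field_simp
      _ ≤ (x / a) * (x / a) := mul_le_mul_of_nonneg_right hax (by positivity)
      _ ≤ (N : ℝ) ^ 2 * (N : ℝ) ^ 2 := mul_le_mul k1 k1 (by positivity) (by positivity)
      _ = _ := by ring
  · have k1 : v ≤ x := by
      refine (pow_le_pow_iff_left₀ (by linarith) (by linarith) two_ne_zero).1 (b4.trans ?_)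
      rw [sq]
      exact mul_le_mul_of_nonneg_right hCx (by linarith)
    have k2 := mul_le_mul_of_nonneg_right hx3 (show 0 ≤ x by linarith)
    rw [sq]
    linarith
  · have k1 : (N : ℝ) ≤ (H : ℝ) ^ 16 := by
      have k2 : C ≤ C ^ 8 := le_self_pow₀ hC (by norm_num)
      calc (N : ℝ) ≤ 3 * (C * x) := by linarith [le_self_pow₀ hv1 two_ne_zero]
        _ ≤ 4 ^ 8 * (C ^ 8 * a ^ 8) := by
            have := mul_le_mul k2 h8 (by linarith) (by positivity)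
            have k3 : 0 ≤ C ^ 8 * a ^ 8 := by positivity
            linarith
        _ = (4 * C * a) ^ 8 := by ring
        _ ≤ ((H : ℝ) ^ 2) ^ 8 := pow_le_pow_left₀ (by positivity) a3 8
        _ = _ := by ring
    exact_mod_cast k1
  · calc (N : ℝ) * H ≤ (3 * v) * (3 * u) := mul_le_mul b2 a2 (by positivity) (by positivity)
      _ = _ := by linear_combination 9 * hm
  · linarith [mul_le_mul_of_nonneg_left b3 ha0.le]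

theorem tpair_boxfin {d : Dt} (ha : 0 < d.a) (H N : ℕ) :
    {z : ℤ × ℤ | d.Box H N z.1 z.2}.Finite := by
  refine ((Set.finite_Icc (-(d.a * N + |d.b| * H)) (d.a * N + |d.b| * H)).prod
    (Set.finite_Icc (-(H : ℤ)) H)).subset fun z hz => ⟨abs_le.1 ?_, abs_le.1 hz.y⟩
  have h1 := hz.x
  have h2 : |d.b * z.2| ≤ |d.b| * H := by
    rw [abs_mul]
    exact mul_le_mul_of_nonneg_left hz.y (abs_nonneg _)
  have h3 : |2 * d.a * z.1| ≤ |d.x₁ z.1 z.2| + |d.b * z.2| := by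
    rw [show 2 * d.a * z.1 = d.x₁ z.1 z.2 - d.b * z.2 by simp [Dt.x₁]]
    exact abs_sub _ _
  rw [abs_mul, abs_of_pos (by linarith : 0 < 2 * d.a)] at h3
  nlinarith [abs_nonneg z.1]

theorem tpair_main {E : ℤ} (hE : IsD E) {p : ℕ} (hp : p.Prime) {q : ℕ} (hq : 0 < q) (b₀ : ℤ)
    {C s ρ : ℝ} (hC : 1 ≤ C) (hCx : C ≤ -(E : ℝ)) (hs : 0 ≤ s) (h8 : s ^ 8 = -(E : ℝ))
    (hρ : 0 ≤ ρ)
    (h : ∀ d : Dt, d.Good 0 → d.n = 1 → d.G = 1 → d.p = p → d.E = E → ∀ H N : ℕ, d.Sz H N →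
      -(E : ℝ) ≤ (N : ℝ) ^ 4 → N ≤ H ^ 16 → ∃ W : ℤ → ℤ → ℝ,
      (∀ X Y, d.B X Y ≠ 0 → Few Geq (d.CS X Y (Lvl q b₀)) (W X Y)) ∧ ∀ Z : Finset (ℤ × ℤ),
        (∀ z ∈ Z, d.Box H N z.1 z.2 ∧ d.LevC q b₀ z.1 z.2) →
        ∑ z ∈ Z, W z.1 z.2 ≤ ρ * N * H * EE E E.natAbs) :
    ((LevP q b₀ C E).ncard : ℝ) ≤ (Cl E).ncard * (1 + 3 * s ^ 2 + 9 * ρ * C * HH E) := by
  have hH := tti_HH_nonneg E
  have hx := tti_three hE
  have hab := tti_abs hE.1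
  refine (pair_red hE p hp q b₀ C ⌊s⌋₊ (W := 9 * ρ * C * HH E) (by positivity) ?_ hq).trans ?_
  · intro d hg hn g1 g2 hdp hdE hb hc hY
    have hG : d.G = 1 := by rw [Dt.G, g1, g2]
    have ha : (1 : ℝ) ≤ d.a := by exact_mod_cast hg.a_pos
    have h3 : 3 * (d.a : ℝ) ^ 2 ≤ -(E : ℝ) := by
      have k1 : d.b ^ 2 ≤ d.a ^ 2 := sq_le_sq' (abs_le.1 hb).1 (abs_le.1 hb).2
      have k2 : 3 * d.a ^ 2 ≤ -E := by
        rw [← hdE, Dt.E]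
        nlinarith [mul_le_mul_of_nonneg_left hc hg.a_pos.le]
      exact_mod_cast k2
    have hsa : s ≤ d.a := by
      have k1 : ((⌊s⌋₊ : ℤ) : ℝ) + 1 ≤ d.a := by exact_mod_cast hY
      have k2 := Nat.lt_floor_add_one s
      push_cast at k1
      linarith
    obtain ⟨H, N, n1, n2, n3, n4, n5, n6, n7, n8⟩ := tpair_num ha h3
      (h8 ▸ pow_le_pow_left₀ hs hsa 8) hC hCx
    have hN1 : 1 ≤ N := n1.trans n2
    have hSz : d.Sz H N := by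
      refine ⟨n1, n2.trans (Nat.le_self_pow two_ne_zero N), ?_, ?_, ?_⟩
      · have k1 : (d.a : ℝ) ≤ (H : ℝ) ^ 2 := by
          linarith [mul_le_mul_of_nonneg_right hC (show (0 : ℝ) ≤ d.a by linarith)]
        rw [Dt.m, hn, hG, Nat.cast_one, mul_one, one_mul, abs_of_pos hg.a_pos]
        exact_mod_cast k1
      · rw [hG, hdE, Nat.cast_one, one_pow, one_mul]
        have k1 : E.natAbs ≤ N ^ 4 := by
          rw [← hab] at n3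
          exact_mod_cast n3
        exact k1.trans (Nat.pow_le_pow_right hN1 (by norm_num))
      · rw [hG, hdE, Nat.cast_one, one_pow, one_mul]
        rw [← hab] at n4
        exact_mod_cast n4
    obtain ⟨W, hW1, hW2⟩ := h d hg hn hG hdp hdE H N hSz n3 n5
    have hZ : {z : ℤ × ℤ | d.Box H N z.1 z.2 ∧ d.LevC q b₀ z.1 z.2}.Finite :=
      (tpair_boxfin hg.a_pos H N).subset fun z hz => hz.1
    have k1 := Dt.geo_sum (C := C) hg {z | ∃ τ Θ η₁ η₂ B, d.GZ C z τ Θ η₁ η₂ B ∧ B ≠ 0 ∧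
      Lvl q b₀ Θ η₁ η₂} hZ.toFinset (Lvl q b₀) W ?_
      fun x hx => hW1 _ _ (hZ.mem_toFinset.1 hx).1.ne
    · have k2 := hW2 hZ.toFinset fun z hz => hZ.mem_toFinset.1 hz
      rw [hn] at k1
      simp only [Int.natAbs_one, Nat.cast_one, one_pow, one_mul] at k1
      refine k1.trans (k2.trans ?_)
      have k3 := mul_le_mul_of_nonneg_left n6 (mul_nonneg hρ (EE_pos E E.natAbs).le)
      rw [HH]
      linarith
    · rintro z ⟨τ, Θ, η₁, η₂, B, gz, hB, hl⟩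
      obtain ⟨b1, b2, b3, b4⟩ := gz.box hg hC hB (H := H) (N := N)
        (by rw [hG]; simpa using n7) (by rw [hG, hdE]; simpa using n8)
      refine ⟨τ, Θ, η₁, η₂, B, gz, hZ.mem_toFinset.2 ⟨⟨b1, b2, b3, b4⟩, ?_⟩, hl⟩
      obtain ⟨M₁, M₂, α, β, c, -, -, g⟩ := gz
      exact Dt.levC_of_lvl hg hq (P := (Θ, η₁)) ⟨η₂, (g.cf hg).1, g.tg hg, hl⟩
  · refine mul_le_mul_of_nonneg_left ?_ (Nat.cast_nonneg _)
    have k1 := pow_le_pow_left₀ (Nat.cast_nonneg _) (Nat.floor_le hs) 2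
    linarith

theorem tpair_log (A : ℕ) (M : ℝ) : ∃ Y : ℝ, ∀ x s : ℝ, Y ≤ x → 0 ≤ s → s ^ 8 = x →
    M * Real.log x ^ A ≤ s := by
  have h0 : 0 < |M| * 8 ^ A + 1 := by positivity
  obtain ⟨S, hS⟩ := Filter.eventually_atTop.1
    ((Real.isLittleO_pow_log_id_atTop (n := A)).bound (inv_pos.2 h0))
  refine ⟨max S 0 ^ 8, fun x s hx hs h8 => ?_⟩
  have h1 : S ≤ s := (le_max_left _ _).trans
    ((pow_le_pow_iff_left₀ (le_max_right _ _) hs (by norm_num)).1 (h8 ▸ hx))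
  have h2 := hS s h1
  rw [id, Real.norm_of_nonneg hs, Real.norm_eq_abs, inv_mul_eq_div, le_div_iff₀ h0] at h2
  rw [← h8, Real.log_pow, mul_pow]
  have h3 : M * (((8 : ℕ) : ℝ) ^ A * Real.log s ^ A) ≤ |M| * 8 ^ A * |Real.log s ^ A| := by
    refine (le_abs_self _).trans (le_of_eq ?_)
    rw [abs_mul, abs_mul, abs_of_nonneg (by positivity : (0 : ℝ) ≤ ((8 : ℕ) : ℝ) ^ A), mul_assoc]
    norm_num
  nlinarith [abs_nonneg (Real.log s ^ A)]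

theorem tpair_root {x : ℝ} (hx : 1 ≤ x) : ∃ s : ℝ, 1 ≤ s ∧ s ^ 8 = x :=
  ⟨x ^ ((8 : ℕ) : ℝ)⁻¹, Real.one_le_rpow hx (by positivity),
    Real.rpow_inv_natCast_pow (by linarith) (by norm_num)⟩

theorem tpair_end : ∃ K L : ℝ, 0 < K ∧ 0 < L ∧ ∀ (E : ℤ) (s ρ C C₂ : ℝ), IsD E → 1 ≤ s →
    s ^ 8 = -(E : ℝ) → 0 ≤ ρ → 1 ≤ C → 0 ≤ C₂ → L * Real.log (-(E : ℝ)) ≤ ρ * s →
    ((Cl E).ncard : ℝ) * (1 + 3 * s ^ 2 + 9 * (C₂ * ρ) * C * HH E) ≤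
      K * (1 + 9 * C₂) * C * ρ * HH E ^ 2 := by
  obtain ⟨K, hK, H1⟩ := Cl_le
  obtain ⟨L, hL, H2⟩ := EE_log
  refine ⟨K, 4 * L, hK, by positivity, fun E s ρ C C₂ hE hs h8 hρ hC hC₂ hl => ?_⟩
  have hx := tti_three hE
  have hab := tti_abs hE.1
  have hH := tti_HH_nonneg E
  have b1 : 2 ≤ E.natAbs := by
    have : ((2 : ℕ) : ℝ) ≤ E.natAbs := by rw [hab]; push_cast; linarith
    exact_mod_cast this
  have h2 := (H2 E _ b1).2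
  rw [hab] at h2
  have hE0 := EE_pos E E.natAbs
  have e : HH E = s ^ 4 * EE E E.natAbs := by
    rw [HH, ← h8, show s ^ 8 = (s ^ 4) ^ 2 by ring, Real.sqrt_sq (by positivity)]
  have k1 : 4 ≤ ρ * s * EE E E.natAbs := by linarith [mul_le_mul_of_nonneg_right hl hE0.le]
  have k2 : 1 + 3 * s ^ 2 ≤ C * ρ * HH E := by
    have k3 : 1 ≤ s ^ 2 := one_le_pow₀ hs
    have k4 : s ^ 2 ≤ s ^ 3 := pow_le_pow_right₀ hs (by norm_num)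
    calc 1 + 3 * s ^ 2 ≤ s ^ 3 * 4 := by linarith
      _ ≤ s ^ 3 * (ρ * s * EE E E.natAbs) := mul_le_mul_of_nonneg_left k1 (by positivity)
      _ = 1 * (ρ * HH E) := by rw [e]; ring
      _ ≤ C * (ρ * HH E) := mul_le_mul_of_nonneg_right hC (by positivity)
      _ = _ := by ring
  calc _ ≤ (K * HH E) * (C * ρ * HH E + 9 * (C₂ * ρ) * C * HH E) :=
        mul_le_mul (H1 E hE) (by linarith) (by positivity) (by positivity)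
    _ = _ := by ring

theorem pair_two {p : ℕ} (hp : p.Prime) (h2 : p ≠ 2) (C : ℝ) : ∃ K : ℝ, 0 < K ∧ ∀ k : ℕ,
    ∃ Y : ℝ, ∀ E b₀ : ℤ, IsD E → jacobiSym E p = 1 → Y ≤ -(E : ℝ) →
      ((LevP (p ^ k) b₀ C E).ncard : ℝ) ≤ K / (p : ℝ) ^ k * HH E ^ 2 := by
  obtain ⟨C', hC1, hC'⟩ : ∃ C' : ℝ, 1 ≤ C' ∧ C ≤ C' := ⟨max C 1, le_max_right _ _, le_max_left _ _⟩
  obtain ⟨K, L, hK, hL, H1⟩ := tpair_end
  obtain ⟨C₂, hC₂, H2⟩ := Dt.cnt_two p h2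
  refine ⟨K * (1 + 9 * C₂) * C', by positivity, fun k => ?_⟩
  obtain ⟨N₀, H3⟩ := H2 k
  obtain ⟨Y, H4⟩ := tpair_log 1 (L * (p : ℝ) ^ k)
  refine ⟨max Y (max C' (N₀ ^ 4)), fun E b₀ hE hJ hY => ?_⟩
  have hx := tti_three hE
  obtain ⟨s, hs, h8⟩ := tpair_root (show 1 ≤ -(E : ℝ) by linarith)
  have hpk : (0 : ℝ) < (p : ℝ) ^ k := pow_pos (by exact_mod_cast hp.pos) k
  have k0 : ((LevP (p ^ k) b₀ C E).ncard : ℝ) ≤ (LevP (p ^ k) b₀ C' E).ncard := by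
    exact_mod_cast Set.ncard_le_ncard (tpair_mono _ _ hC' E) (LevP_finite _ _ _ _)
  have k1 := tpair_main hE hp (pow_pos hp.pos k) b₀ hC1
    ((le_max_left _ _).trans ((le_max_right _ _).trans hY)) (by linarith) h8
    (ρ := C₂ * ((p : ℝ) ^ k)⁻¹) (by positivity) ?_
  · have k2 := H4 _ s ((le_max_left _ _).trans hY) (by linarith) h8
    refine k0.trans (k1.trans ((H1 E s _ C' C₂ hE hs h8 (by positivity) hC1 hC₂.le ?_).trans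
      (le_of_eq ?_)))
    · rw [inv_mul_eq_div, le_div_iff₀ hpk]
      linarith
    · rw [div_eq_mul_inv]
  · intro d hg hn hG hdp hdE H N hSz n3 n5
    subst hdp hdE
    have hN : N₀ ≤ N := by
      have k2 : (N₀ : ℝ) ^ 4 ≤ (N : ℝ) ^ 4 :=
        ((le_max_right _ _).trans ((le_max_right _ _).trans hY)).trans n3
      exact_mod_cast (pow_le_pow_iff_left₀ (by positivity) (by positivity) (by norm_num)).1 k2
    have hpE : ¬ (d.p : ℤ) ∣ d.E := fun hd => by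
      have := Fact.mk hp
      rw [← jacobiSym.legendreSym.to_jacobiSym, (legendreSym.eq_zero_iff d.p d.E).2
        ((ZMod.intCast_zmod_eq_zero_iff_dvd _ _).2 hd)] at hJ
      exact zero_ne_one hJ
    refine ⟨_, fun X Y hB => Dt.few_lev hg h2 hJ k b₀ hB, fun Z hZ => ?_⟩
    rw [← div_eq_mul_inv]
    exact H3 d hg hn hG rfl hpE H N hSz hN n5 Z fun z hz => (hZ z hz).1

theorem pair_three (A : ℕ) : ∃ K Y : ℝ, 0 < K ∧ ∀ (E b₀ : ℤ) (q : ℕ) (C : ℝ), IsD E →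
    Y ≤ -(E : ℝ) → 1 ≤ C → C ≤ Real.log (-(E : ℝ)) ^ A → 0 < q →
    (q : ℝ) ≤ Real.log (-(E : ℝ)) ^ A →
      ((LevP q b₀ C E).ncard : ℝ) ≤ K * C * (q : ℝ) ^ (-(3 / 5 : ℝ)) * HH E ^ 2 := by
  obtain ⟨K, L, hK, hL, H1⟩ := tpair_end
  obtain ⟨C₂, N₀, hC₂, H3⟩ := Dt.cnt_three
  obtain ⟨Y₁, H4⟩ := tpair_log (A + 1) L
  obtain ⟨Y₂, H5⟩ := tpair_log (A * 800) 1
  obtain ⟨Y₃, H6⟩ := tpair_log A 1
  refine ⟨K * (1 + 9 * C₂), max (max Y₁ Y₂) (max Y₃ (N₀ ^ 4)), by positivity,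
    fun E b₀ q C hE hY hC hCA hq hqA => ?_⟩
  have hx := tti_three hE
  obtain ⟨s, hs, h8⟩ := tpair_root (show 1 ≤ -(E : ℝ) by linarith)
  have hs8 : s ≤ -(E : ℝ) := h8 ▸ le_self_pow₀ hs (by norm_num)
  have k4 := H4 _ s ((le_max_left _ _).trans ((le_max_left _ _).trans hY)) (by linarith) h8
  have k5 := H5 _ s ((le_max_right _ _).trans ((le_max_left _ _).trans hY)) (by linarith) h8
  have k6 := H6 _ s ((le_max_left _ _).trans ((le_max_right _ _).trans hY)) (by linarith) h8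
  have hq1 : (1 : ℝ) ≤ q := by exact_mod_cast hq
  have hρ : 0 < (q : ℝ) ^ (-(3 / 5 : ℝ)) := Real.rpow_pos_of_pos (by linarith) _
  have k1 := tpair_main hE Nat.prime_two hq b₀ hC (by linarith) (by linarith) h8
    (ρ := C₂ * (q : ℝ) ^ (-(3 / 5 : ℝ))) (by positivity) ?_
  · refine k1.trans (H1 E s _ C C₂ hE hs h8 hρ.le hC hC₂.le ?_)
    have k2 : 1 ≤ (q : ℝ) ^ (-(3 / 5 : ℝ)) * q := by
      rw [← Real.rpow_add_one (by linarith)]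
      exact Real.one_le_rpow hq1 (by norm_num)
    have k3 : 0 ≤ L * Real.log (-(E : ℝ)) := mul_nonneg hL.le (Real.log_nonneg (by linarith))
    calc L * Real.log (-(E : ℝ)) ≤ ((q : ℝ) ^ (-(3 / 5 : ℝ)) * q) * (L * Real.log (-(E : ℝ))) :=
          le_mul_of_one_le_left k3 k2
      _ ≤ ((q : ℝ) ^ (-(3 / 5 : ℝ)) * Real.log (-(E : ℝ)) ^ A) * (L * Real.log (-(E : ℝ))) :=
          mul_le_mul_of_nonneg_right (mul_le_mul_of_nonneg_left hqA hρ.le) k3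
      _ = (q : ℝ) ^ (-(3 / 5 : ℝ)) * (L * Real.log (-(E : ℝ)) ^ (A + 1)) := by ring
      _ ≤ _ := mul_le_mul_of_nonneg_left k4 hρ.le
  · intro d hg hn hG hdp hdE H N hSz n3 n5
    subst hdE
    have hN : N₀ ≤ N := by
      have k2 : (N₀ : ℝ) ^ 4 ≤ (N : ℝ) ^ 4 :=
        ((le_max_right _ _).trans ((le_max_right _ _).trans hY)).trans n3
      exact_mod_cast (pow_le_pow_iff_left₀ (by positivity) (by positivity) (by norm_num)).1 k2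
    have hqN : q ^ 200 ≤ N := by
      have k2 : ((q : ℝ) ^ 200) ^ 4 ≤ (N : ℝ) ^ 4 := by
        calc ((q : ℝ) ^ 200) ^ 4 = (q : ℝ) ^ 800 := by rw [← pow_mul]
          _ ≤ (Real.log (-(d.E : ℝ)) ^ A) ^ 800 := pow_le_pow_left₀ (by linarith) hqA 800
          _ = 1 * Real.log (-(d.E : ℝ)) ^ (A * 800) := by rw [← pow_mul, one_mul]
          _ ≤ _ := k5.trans (hs8.trans n3)
      exact_mod_cast (pow_le_pow_iff_left₀ (by positivity) (by positivity) (by norm_num)).1 k2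
    exact ⟨d.WW, fun X Y hB => (Dt.few_WW hg hB).mono
      (fun P ⟨η₂, a, b, _⟩ => ⟨η₂, a, b, trivial⟩) le_rfl,
      fun Z hZ => H3 d hg hn hG hdp H N hSz hN n5 q b₀ hq hqN Z hZ⟩

end Pool.Agent.EQ
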