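import Pool.Agent.P.MP_ad7a55_nt.TDa
import Pool.Agent.P.MP_ad7a55_nt.TPair

/-! Degenerate configurations when the box is thin. -/

set_option autoImplicit false

noncomputable section

open Finset Matrix UpperHalfPlane

namespace Pool.Agent.EQ

namespace Dt

theorem tdg_sq {t x : ℤ} (ht : t ≠ 0) (h : IsSquare (t ^ 2 * x)) : IsSquare x := by
  obtain ⟨s, hs⟩ := h
  have h1 : t ^ 2 ∣ s ^ 2 := ⟨x, by rw [sq s, ← hs]⟩
  obtain ⟨r, rfl⟩ := (Int.pow_dvd_pow_iff two_ne_zero).1 h1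
  refine ⟨r, mul_left_cancel₀ (pow_ne_zero 2 ht) ?_⟩
  rw [hs]; ring

/-- The primitive part of a matrix. -/
def tdgP (t : ℕ) (η : M2) : M2 := Matrix.of fun i j => η i j / t

theorem tdg_smul (η : M2) : η = (ctt η : ℤ) • tdgP (ctt η) η := by
  have h0 : (ctt η : ℤ) ∣ (Int.gcd (η 0 0) (η 0 1) : ℤ) := Int.gcd_dvd_left _ _
  have h1 : (ctt η : ℤ) ∣ (Int.gcd (η 1 0) (η 1 1) : ℤ) := Int.gcd_dvd_right _ _
  have h : ∀ i j, (ctt η : ℤ) ∣ η i j := by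
    simp only [Fin.forall_fin_two]
    exact ⟨⟨h0.trans (Int.gcd_dvd_left _ _), h0.trans (Int.gcd_dvd_right _ _)⟩,
      h1.trans (Int.gcd_dvd_left _ _), h1.trans (Int.gcd_dvd_right _ _)⟩
  ext i j
  simp only [tdgP, Matrix.smul_apply, Matrix.of_apply, smul_eq_mul]
  exact (Int.mul_ediv_cancel' (h i j)).symm

section
variable {d : Dt} {κ : ℕ} {C : ℝ} {z : ℂ × ℂ} {τ : ℍ} {Θ η₁ η₂ : M2} {B : ℤ}

theorem tdg_cf (h : d.Good κ) (g : d.GZ C z τ Θ η₁ η₂ B) :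
    d.Cf (-η₂.trace) η₁.trace Θ η₁ η₂ ∧ TauTh d.E τ Θ := by
  obtain ⟨M₁, M₂, α, β, c, -, -, g⟩ := g
  exact ⟨(g.cf h).1, g.th⟩

theorem tdg_disc (h : d.Good κ) (g : d.GZ C z τ Θ η₁ η₂ B) : HasDisc τ d.E := by
  obtain ⟨a, b, c, h1, h2, h3, h4, -⟩ := (tdg_cf h g).2
  exact ⟨a, b, c, h1, h2, h4, h3.symm⟩

theorem tdg_m (h : d.Good κ) : d.m ≠ 0 :=
  mul_ne_zero h.n_ne (Nat.cast_ne_zero.2 (Nat.mul_pos h.g₁_pos h.g₂_pos).ne')

theorem tdg_label (h : d.Good κ) (g : d.GZ C z τ Θ η₁ η₂ B) (hτ : τ ∈ ModularGroup.fd) {U : ℝ}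
    (hU : τ.im ≤ U) {t : ℕ} (ht : 0 < t) (hc : ctt η₁ = t) (hs : IsSquare (d.Δ₁ η₁.trace)) :
    d.m * d.a / (t : ℤ) ^ 2 ≠ 0 ∧ (tdgP t η₁).det = d.m * d.a / (t : ℤ) ^ 2 ∧
      (∀ i j, |((tdgP t η₁) i j : ℝ)| ≤ 8 * (U * Real.sqrt (C * d.G * d.a) / t)) ∧
      IsSquare ((tdgP t η₁).trace ^ 2 - 4 * (d.m * d.a / (t : ℤ) ^ 2)) := by
  have ht0 : (t : ℤ) ≠ 0 := Nat.cast_ne_zero.2 ht.ne'
  have ht1 : (0 : ℝ) < t := Nat.cast_pos.2 ht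
  have e := tdg_smul η₁
  rw [hc] at e
  have hd := (tdg_cf h g).1.det 1 0
  have hF : d.F 1 0 = d.a := by simp [F]
  rw [one_smul, zero_smul, add_zero, hF] at hd
  have hb : ∀ i j, |(η₁ i j : ℝ)| ≤ 8 * U * Real.sqrt (C * d.G * d.a) := by
    obtain ⟨M₁, M₂, α, β, c, -, -, g⟩ := g
    exact g.bd h hτ hU
  generalize tdgP t η₁ = η at e
  subst e
  rw [Matrix.det_smul, Fintype.card_fin] at hd
  have hN : d.m * d.a / (t : ℤ) ^ 2 = η.det := by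
    rw [← hd, Int.mul_ediv_cancel_left _ (pow_ne_zero 2 ht0)]
  rw [hN]
  refine ⟨fun h0 => ?_, rfl, fun i j => ?_, tdg_sq ht0 ?_⟩
  · rw [h0, mul_zero] at hd
    exact mul_ne_zero (tdg_m h) h.a_pos.ne' hd.symm
  · have := hb i j
    rw [Matrix.smul_apply, smul_eq_mul, Int.cast_mul, abs_mul, Int.cast_natCast,
      abs_of_pos ht1] at this
    rw [← mul_div_assoc, le_div_iff₀ ht1]
    linarith
  · rw [Δ₁, ← hd, Matrix.trace_smul, smul_eq_mul] at hs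
    have e : (t : ℤ) ^ 2 * (η.trace ^ 2 - 4 * η.det) =
        (t * η.trace) ^ 2 - 4 * ((t : ℤ) ^ 2 * η.det) := by ring
    rwa [e]

end

theorem deg_label {ε : ℝ} (hε : 0 < ε) : ∃ K : ℝ, 0 < K ∧ ∀ (d : Dt) (κ : ℕ), d.Good κ →
    ∀ (C U W : ℝ) (t : ℕ) (rep : ℂ → ℍ), 1 ≤ C → 1 ≤ U → 0 < t →
    (∀ w, rep w ∈ ModularGroup.fd ∧ jInv (rep w) = w) →
    ((LevP (d.a.natAbs / Nat.gcd d.a.natAbs t) (-d.b) (4 * U ^ 2) d.E).ncard : ℝ) ≤ W →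
    ({z | ∃ w Θ η₁ η₂ B, d.GZ C z (rep w) Θ η₁ η₂ B ∧ (rep w).im ≤ U ∧ ctt η₁ = t ∧
        IsSquare (d.Δ₁ η₁.trace)}.ncard : ℝ) ^ 2 ≤
      K * (U * Real.sqrt (C * d.G * d.a) / t) ^ (1 + ε) *
        ((d.n.natAbs : ℝ) ^ 9 * (d.G * d.G.divisors.card ^ 2) * W) := by
  classical
  obtain ⟨K, hK, HK⟩ := card_mat hε
  refine ⟨K * 8 ^ (1 + ε), by positivity, fun d κ h C U W t rep hC hU ht hrep hW => ?_⟩
  have hW0 : 0 ≤ W := (Nat.cast_nonneg _).trans hW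
  have hy : 0 ≤ U * Real.sqrt (C * d.G * d.a) / t := by positivity
  generalize hS : {z | ∃ w Θ η₁ η₂ B, d.GZ C z (rep w) Θ η₁ η₂ B ∧ (rep w).im ≤ U ∧ ctt η₁ = t ∧
    IsSquare (d.Δ₁ η₁.trace)} = S
  have hz : ∀ z ∈ S, ∃ w Θ η₁ η₂ B, d.GZ C z (rep w) Θ η₁ η₂ B ∧ (rep w).im ≤ U ∧ ctt η₁ = t ∧
      IsSquare (d.Δ₁ η₁.trace) := fun z hz => by rw [← hS] at hz; exact hz
  by_cases hf : ¬ S.Finite
  · rw [Set.Infinite.ncard hf]
    simp only [Nat.cast_zero, ne_eq, OfNat.ofNat_ne_zero, not_false_eq_true, zero_pow]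
    positivity
  rw [not_not] at hf
  rcases S.eq_empty_or_nonempty with rfl | ⟨z₀, hz₀⟩
  · simp only [Set.ncard_empty, Nat.cast_zero, ne_eq, OfNat.ofNat_ne_zero, not_false_eq_true,
      zero_pow]
    positivity
  choose! w Θ η₁ η₂ B g hi hc hs using hz
  have hl := fun z hz => tdg_label h (g z hz) (hrep _).1 (hi z hz) ht (hc z hz) (hs z hz)
  obtain ⟨hL, hL'⟩ := HK _ (8 * (U * Real.sqrt (C * d.G * d.a) / t)) (hl z₀ hz₀).1 (by positivity)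
  have h1 := card_sq_le hf.toFinset hL.toFinset (fun z => tdgP t (η₁ z)) fun z hz =>
    hL.mem_toFinset.2 (hl z (hf.mem_toFinset.1 hz)).2
  rw [← Set.ncard_eq_toFinset_card _ hf, ← Set.ncard_eq_toFinset_card _ hL] at h1
  generalize hP : {p : (ℂ × ℂ) × (ℂ × ℂ) | p.1 ∈ hf.toFinset ∧ p.2 ∈ hf.toFinset ∧
    tdgP t (η₁ p.1) = tdgP t (η₁ p.2)} = P at h1
  have hp : ∀ p ∈ P, p.1 ∈ S ∧ p.2 ∈ S ∧ η₁ p.1 = η₁ p.2 := fun p hp => by
    rw [← hP] at hp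
    obtain ⟨a1, a2, a3⟩ := hp
    rw [hf.mem_toFinset] at a1 a2
    refine ⟨a1, a2, ?_⟩
    rw [tdg_smul (η₁ p.1), tdg_smul (η₁ p.2), hc _ a1, hc _ a2, a3]
  have h2 := ncard_le_fib (S := P)
    (LevP_finite (d.a.natAbs / Nat.gcd d.a.natAbs t) (-d.b) (4 * U ^ 2) d.E)
    (fun p u => w p.1 = u.1 ∧ w p.2 = u.2) (m := d.n.natAbs ^ 9 * (d.G * d.G.divisors.card ^ 2))
    (fun p hpP => by
      obtain ⟨a1, a2, a3⟩ := hp p hpP
      refine ⟨(w p.1, w p.2), ?_, rfl, rfl⟩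
      have c1 := tdg_cf h (g _ a1)
      have c2 := tdg_cf h (g _ a2)
      have c3 := c2.1
      rw [← a3] at c3
      have := same_label h c1.1 c3 c1.2 c2.2 (hrep _).1 (hrep _).1 (hi _ a1) (hi _ a2)
      rwa [(hrep _).2, (hrep _).2, hc _ a1] at this)
    (fun u _ => by
      obtain ⟨t1, t2⟩ := geo_tau (C := C) h (rep u.1)
      have := ncard_le_fib (S := {p | p ∈ P ∧ w p.1 = u.1 ∧ w p.2 = u.2}) t1
        (fun p z => p.1 = z) (m := d.n.natAbs ^ 9)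
        (fun p hpP => ⟨p.1, ⟨_, _, _, _, hpP.2.1 ▸ g _ (hp p hpP.1).1⟩, rfl⟩)
        (fun z _ => by
          rcases Set.eq_empty_or_nonempty
            {p | p ∈ {p | p ∈ P ∧ w p.1 = u.1 ∧ w p.2 = u.2} ∧ p.1 = z} with e | ⟨p₀, hp₀⟩
          · rw [e]
            exact ⟨Set.finite_empty, by simp⟩
          obtain ⟨b1, b2, b3⟩ := hp p₀ hp₀.1.1
          obtain ⟨f1, f2⟩ := geo_fib (C := C) h (Θ p₀.2, η₁ p₀.2) (tdg_cf h (g _ b2)).1.th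
          have := tmx_img' (S := {p | p ∈ {p | p ∈ P ∧ w p.1 = u.1 ∧ w p.2 = u.2} ∧ p.1 = z}) f1
            (fun z' => (z, z')) fun p hq => by
              obtain ⟨a1, a2, a3⟩ := hp p hq.1.1
              refine ⟨p.2, ⟨_, _, _, _, _, g _ a2, 1, Matrix.det_one, ?_, ?_⟩, ?_⟩
              · have c1 := (tdg_cf h (g _ a2)).2
                have c2 := (tdg_cf h (g _ b2)).2
                rw [hq.1.2.2] at c1
                rw [hp₀.1.2.2] at c2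
                rw [one_mul, mul_one]
                exact c1.unique c2
              · rw [one_mul, mul_one]
                show η₁ p.2 = η₁ p₀.2
                rw [← a3, ← b3, hq.2, hp₀.2]
              · exact Prod.ext hq.2.symm rfl
          exact ⟨this.1, this.2.trans f2⟩)
      exact ⟨this.1, this.2.trans (Nat.mul_le_mul_left _ t2)⟩)
  have h3 : (P.ncard : ℝ) ≤ (d.n.natAbs : ℝ) ^ 9 * (d.G * d.G.divisors.card ^ 2) * W := by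
    have h4 : (P.ncard : ℝ) ≤ ((d.n.natAbs ^ 9 * (d.G * d.G.divisors.card ^ 2) *
        (LevP (d.a.natAbs / Nat.gcd d.a.natAbs t) (-d.b) (4 * U ^ 2) d.E).ncard : ℕ) : ℝ) :=
      Nat.cast_le.2 h2.2
    refine h4.trans ?_
    push_cast
    exact mul_le_mul_of_nonneg_left hW (by positivity)
  have h5 := (Nat.cast_le (α := ℝ)).2 h1
  rw [Nat.cast_pow, Nat.cast_mul] at h5
  rw [Real.mul_rpow (by norm_num) hy, ← mul_assoc] at hL'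
  exact h5.trans (mul_le_mul hL' h3 (Nat.cast_nonneg _) (by positivity))

theorem tdg_big {d : Dt} {κ : ℕ} (h : d.Good κ) (C : ℝ) {U : ℝ} (hU : 0 < U) (rep : ℂ → ℍ)
    (hrep : ∀ w, rep w ∈ ModularGroup.fd ∧ jInv (rep w) = w) :
    {z | ∃ w Θ η₁ η₂ B, d.GZ C z (rep w) Θ η₁ η₂ B ∧ U < (rep w).im ∧
      IsSquare (d.Δ₁ η₁.trace)}.ncard ≤ d.G * d.G.divisors.card ^ 2 * (Sh d.E U⁻¹ 1).ncard := by
  refine (ncard_le_fib (tti_finite d.E U⁻¹ 1)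
    (fun z w => ∃ Θ η₁ η₂ B, d.GZ C z (rep w) Θ η₁ η₂ B) ?_ fun w _ => ?_).2
  · rintro z ⟨w, Θ, η₁, η₂, B, g, hi, -⟩
    refine ⟨w, ?_, Θ, η₁, η₂, B, g⟩
    have := mem_Sh_of_fd (tdg_disc h g) (t := U⁻¹) (by
      rw [inv_mul_eq_div, le_div_iff₀ hU]
      linarith)
    rwa [(hrep w).2] at this
  · obtain ⟨t1, t2⟩ := geo_tau (C := C) h (rep w)
    exact ⟨t1.subset fun z hz => hz.2, (Set.ncard_le_ncard (fun z hz => hz.2) t1).trans t2⟩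

theorem tdg_num {s K₂ K₃ Cd Ch C V G a t q H H' N dG : ℝ} (hV : 1 ≤ V) (hR : V ^ 1000 = G * a)
    (hG : 1 ≤ G) (ht : 1 ≤ t) (hq : 0 < q) (ha : 0 ≤ a) (hqt : a ≤ q * t) (hC : 1 ≤ C)
    (hd0 : 0 ≤ dG) (hd : dG ≤ Cd * V) (hH : 0 ≤ H) (hH' : 0 ≤ H') (hh : G * H ≤ Ch * V * H')
    (h₂ : 0 ≤ K₂) (h₃ : 0 ≤ K₃) (hN : 0 ≤ N)
    (hs : s ^ 2 ≤ K₂ * (V ^ 10 * Real.sqrt (C * G * a) / t) ^ (1 + ((1000 : ℕ) : ℝ)⁻¹) *
      (N ^ 9 * (G * dG ^ 2) * (K₃ * (4 * (V ^ 10) ^ 2) * q ^ (-(3 / 5 : ℝ)) * H ^ 2))) :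
    s * V ^ 2 ≤ Real.sqrt (K₂ * C ^ 2 * N ^ 9 * Cd ^ 2 * K₃ * 4 * Ch ^ 2) * H' := by
  have hV0 : 0 < V := by linarith
  have ht0 : 0 < t := by linarith
  have hC0 : 0 < C := by linarith
  have hG0 : 0 < G := by linarith
  have a1 : Real.sqrt (C * G * a) ≤ C * V ^ 500 := by
    refine Real.sqrt_le_iff.2 ⟨by positivity, ?_⟩
    have e : (C * V ^ 500) ^ 2 = C * (C * V ^ 1000) := by ring
    rw [e, hR, mul_assoc]
    exact le_mul_of_one_le_left (by positivity) hC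
  have a0 : 0 ≤ V ^ 10 * Real.sqrt (C * G * a) / t := by positivity
  have a2 : V ^ 10 * Real.sqrt (C * G * a) / t * t ≤ C * V ^ 510 := by
    rw [div_mul_cancel₀ _ ht0.ne']
    calc V ^ 10 * Real.sqrt (C * G * a) ≤ V ^ 10 * (C * V ^ 500) :=
          mul_le_mul_of_nonneg_left a1 (by positivity)
      _ = C * V ^ 510 := by ring
  generalize V ^ 10 * Real.sqrt (C * G * a) / t = y at a0 a2 hs
  have a3 : y ≤ C * V ^ 1000 :=
    (le_mul_of_one_le_right a0 ht).trans (a2.trans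
      (mul_le_mul_of_nonneg_left (pow_le_pow_right₀ hV (by norm_num)) hC0.le))
  have a4 : y ^ (1 + ((1000 : ℕ) : ℝ)⁻¹) ≤ y * (C * V) := by
    rw [Real.rpow_one_add' a0 (by positivity)]
    refine mul_le_mul_of_nonneg_left ((Real.rpow_le_rpow a0 a3 (by positivity)).trans ?_) a0
    rw [Real.mul_rpow hC0.le (by positivity), Real.pow_rpow_inv_natCast hV0.le (by norm_num)]
    exact mul_le_mul_of_nonneg_right (Real.rpow_le_self_of_one_le hC (by norm_num)) hV0.le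
  have b0 : 0 < q ^ (3 / 5 : ℝ) := Real.rpow_pos_of_pos hq _
  have b1 : (q ^ (3 / 5 : ℝ)) ^ 10 = q ^ 6 := by
    rw [← Real.rpow_natCast, ← Real.rpow_mul hq.le, ← Real.rpow_natCast]
    norm_num
  rw [Real.rpow_neg hq.le] at hs
  generalize q ^ (3 / 5 : ℝ) = Q at b0 b1 hs
  have b2 : V ^ 600 ≤ G * t * Q := by
    refine le_of_pow_le_pow_left₀ (n := 10) (by norm_num) (by positivity) ?_
    have e : (V ^ 600) ^ 10 = (V ^ 1000) ^ 6 := by ring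
    rw [e, hR, mul_pow, mul_pow, mul_pow, b1, mul_assoc]
    refine mul_le_mul (pow_le_pow_right₀ hG (by norm_num)) ?_ (by positivity) (by positivity)
    refine (pow_le_pow_left₀ ha hqt 6).trans ?_
    rw [mul_pow, mul_comm]
    exact mul_le_mul_of_nonneg_right (pow_le_pow_right₀ ht (by norm_num)) (by positivity)
  have b3 : y * Q⁻¹ * V ^ 90 ≤ C * G := by
    rw [mul_right_comm, ← div_eq_mul_inv, div_le_iff₀ b0]
    refine le_of_mul_le_mul_right ?_ (show 0 < t * V ^ 510 by positivity)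
    calc y * V ^ 90 * (t * V ^ 510) = y * t * V ^ 600 := by ring
      _ ≤ C * V ^ 510 * (G * t * Q) := mul_le_mul a2 b2 (by positivity) (by positivity)
      _ = C * G * Q * (t * V ^ 510) := by ring
  have b4 : dG ^ 2 ≤ (Cd * V) ^ 2 := pow_le_pow_left₀ hd0 hd 2
  have b5 : (G * H) ^ 2 ≤ (Ch * V * H') ^ 2 := pow_le_pow_left₀ (by positivity) hh 2
  have hM : 0 ≤ K₂ * C ^ 2 * N ^ 9 * Cd ^ 2 * K₃ * 4 * Ch ^ 2 := by positivity
  have c1 : s ^ 2 ≤ K₂ * (y * (C * V)) *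
      (N ^ 9 * (G * (Cd * V) ^ 2) * (K₃ * (4 * (V ^ 10) ^ 2) * Q⁻¹ * H ^ 2)) := by
    refine hs.trans ?_
    gcongr
  have c2 : s ^ 2 * V ^ 90 ≤ K₂ * C ^ 2 * N ^ 9 * Cd ^ 2 * K₃ * 4 * Ch ^ 2 * H' ^ 2 * V ^ 25 :=
    calc s ^ 2 * V ^ 90 ≤ K₂ * (y * (C * V)) *
          (N ^ 9 * (G * (Cd * V) ^ 2) * (K₃ * (4 * (V ^ 10) ^ 2) * Q⁻¹ * H ^ 2)) * V ^ 90 :=
          mul_le_mul_of_nonneg_right c1 (by positivity)
      _ = K₂ * C * N ^ 9 * Cd ^ 2 * K₃ * 4 * V ^ 23 * (G * H ^ 2) * (y * Q⁻¹ * V ^ 90) := by ring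
      _ ≤ K₂ * C * N ^ 9 * Cd ^ 2 * K₃ * 4 * V ^ 23 * (G * H ^ 2) * (C * G) :=
          mul_le_mul_of_nonneg_left b3 (by positivity)
      _ = K₂ * C ^ 2 * N ^ 9 * Cd ^ 2 * K₃ * 4 * V ^ 23 * (G * H) ^ 2 := by ring
      _ ≤ K₂ * C ^ 2 * N ^ 9 * Cd ^ 2 * K₃ * 4 * V ^ 23 * (Ch * V * H') ^ 2 :=
          mul_le_mul_of_nonneg_left b5 (by positivity)
      _ = _ := by ring
  refine le_of_pow_le_pow_left₀ (n := 2) (by norm_num) (by positivity) ?_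
  rw [mul_pow (Real.sqrt _), Real.sq_sqrt hM]
  refine le_of_mul_le_mul_right ?_ (show 0 < V ^ 86 by positivity)
  calc (s * V ^ 2) ^ 2 * V ^ 86 = s ^ 2 * V ^ 90 := by ring
    _ ≤ _ := c2
    _ ≤ _ := mul_le_mul_of_nonneg_left (pow_le_pow_right₀ hV (by norm_num)) (by positivity)

theorem tdg_large (A : ℕ) (Y : ℝ) : ∃ R : ℝ, ∀ x : ℝ, 3 ≤ x → R ≤ Real.log x ^ A →
    Y ≤ x ∧ Real.log x ^ A ≤ x := by
  obtain ⟨Y₀, hY⟩ := Filter.eventually_atTop.1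
    ((Real.isLittleO_pow_log_id_atTop (n := A)).bound one_pos)
  refine ⟨Real.log (max Y Y₀) ^ A + 1, fun x hx hR => ?_⟩
  have h1 : max Y Y₀ ≤ x := by
    by_contra hc
    have h2 := Real.log_le_log (by linarith) (not_le.1 hc).le
    have h3 := pow_le_pow_left₀ (Real.log_nonneg (by linarith)) h2 A
    linarith
  refine ⟨(le_max_left _ _).trans h1, (le_abs_self _).trans ?_⟩
  have h4 := hY x ((le_max_right _ _).trans h1)
  rwa [one_mul, id, Real.norm_eq_abs, Real.norm_eq_abs, abs_of_pos (a := x) (by linarith)] at h4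

theorem deg_small (n : ℤ) {C : ℝ} (hC : 1 ≤ C) (A : ℕ) {δ : ℝ} (hδ : 0 < δ) : ∃ R : ℝ,
    ∀ (d : Dt) (κ : ℕ), d.Good κ → d.n = n → R ≤ d.G * d.a →
    (d.G * d.a : ℝ) ≤ Real.log (-(d.E : ℝ)) ^ A → ∀ rep : ℂ → ℍ,
    (∀ w, rep w ∈ ModularGroup.fd ∧ jInv (rep w) = w) →
    ({z | ∃ w Θ η₁ η₂ B, d.GZ C z (rep w) Θ η₁ η₂ B ∧ IsSquare (d.Δ₁ η₁.trace)}.ncard : ℝ) ≤
      δ * HH (d.G ^ 2 * d.E) := by
  have hε : (0 : ℝ) < ((1000 : ℕ) : ℝ)⁻¹ := by positivity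
  obtain ⟨K₁, k₁, H₁⟩ := Sh_le
  obtain ⟨K₂, k₂, H₂⟩ := deg_label hε
  obtain ⟨K₃, Y, k₃, H₃⟩ := pair_three A
  obtain ⟨Cd, kd, Hd⟩ := div_bound hε
  obtain ⟨Ch, kh, Hh⟩ := HH_le hε
  obtain ⟨R₀, H₀⟩ := tdg_large A Y
  obtain ⟨M, hM⟩ : ∃ M : ℝ, M = Real.sqrt
    (K₂ * C ^ 2 * (n.natAbs : ℝ) ^ 9 * Cd ^ 2 * K₃ * 4 * Ch ^ 2) := ⟨_, rfl⟩
  have hM0 : 0 ≤ M := hM ▸ Real.sqrt_nonneg _
  obtain ⟨L, hL⟩ : ∃ L : ℝ, L = Cd ^ 2 * K₁ * Ch + Cd * n.natAbs * M := ⟨_, rfl⟩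
  have hL0 : 0 ≤ L := by rw [hL]; positivity
  refine ⟨max R₀ ((2 + L / δ) ^ 1000), fun d κ h hn hR hlog rep hrep => ?_⟩
  subst hn
  have hGn : 0 < d.G := Nat.mul_pos h.g₁_pos h.g₂_pos
  have hG : (1 : ℝ) ≤ d.G := by exact_mod_cast hGn
  have ha : (1 : ℝ) ≤ d.a := by exact_mod_cast h.a_pos
  have hE := h.isD
  have hx := tti_three hE
  have hE1 : d.E < -1 := by
    have : (d.E : ℝ) < -1 := by linarith
    exact_mod_cast this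
  obtain ⟨x1, x2⟩ := H₀ _ hx (((le_max_left _ _).trans hR).trans hlog)
  obtain ⟨V, hV⟩ : ∃ V : ℝ, V = (d.G * d.a : ℝ) ^ ((1000 : ℕ) : ℝ)⁻¹ := ⟨_, rfl⟩
  have hVR : V ^ 1000 = d.G * d.a := by
    rw [hV]
    exact Real.rpow_inv_natCast_pow (by positivity) (by norm_num)
  have hVL : 2 + L / δ ≤ V := by
    refine le_of_pow_le_pow_left₀ (n := 1000) (by norm_num) (by rw [hV]; positivity) ?_
    rw [hVR]
    exact (le_max_right _ _).trans hR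
  have hLd : 0 ≤ L / δ := by positivity
  have hV2 : 2 ≤ V := by linarith
  have hV1 : 1 ≤ V := by linarith
  have hV0 : 0 < V := by linarith
  have hGV : (d.G : ℝ) ^ ((1000 : ℕ) : ℝ)⁻¹ ≤ V := by
    rw [hV]
    exact Real.rpow_le_rpow (by positivity) (le_mul_of_one_le_right (by positivity) ha) hε.le
  have hd : (d.G.divisors.card : ℝ) ≤ Cd * V :=
    (Hd _ hGn).trans (mul_le_mul_of_nonneg_left hGV kd.le)
  have hH := tti_HH_nonneg d.E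
  have hH' := tti_HH_nonneg (d.G ^ 2 * d.E)
  have hh : d.G * HH d.E ≤ Ch * V * HH (d.G ^ 2 * d.E) :=
    (Hh _ _ hE1 hGn).trans
      (mul_le_mul_of_nonneg_right (mul_le_mul_of_nonneg_left hGV kh.le) hH')
  have hU1 : 1 ≤ V ^ 10 := one_le_pow₀ hV1
  have hU0 : 0 < V ^ 10 := by positivity
  have hm : 0 < d.m.natAbs := Int.natAbs_pos.2 (tdg_m h)
  have hsplit : {z | ∃ w Θ η₁ η₂ B, d.GZ C z (rep w) Θ η₁ η₂ B ∧ IsSquare (d.Δ₁ η₁.trace)} =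
      {z | ∃ w Θ η₁ η₂ B, d.GZ C z (rep w) Θ η₁ η₂ B ∧ V ^ 10 < (rep w).im ∧
        IsSquare (d.Δ₁ η₁.trace)} ∪ ⋃ t ∈ d.m.natAbs.divisors,
      {z | ∃ w Θ η₁ η₂ B, d.GZ C z (rep w) Θ η₁ η₂ B ∧ (rep w).im ≤ V ^ 10 ∧ ctt η₁ = t ∧
        IsSquare (d.Δ₁ η₁.trace)} := by
    ext z
    simp only [Set.mem_union, Set.mem_iUnion, Set.mem_ofPred_eq]
    constructor
    · rintro ⟨w, Θ, η₁, η₂, B, g, hs⟩
      rcases lt_or_ge (V ^ 10) (rep w).im with hi | hi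
      · exact Or.inl ⟨w, Θ, η₁, η₂, B, g, hi, hs⟩
      · exact Or.inr ⟨ctt η₁, Nat.mem_divisors.2
          ⟨Int.natCast_dvd.1 ((tdg_cf h g).1.ctt_dvd h), hm.ne'⟩, w, Θ, η₁, η₂, B, g, hi, rfl, hs⟩
    · rintro (⟨w, Θ, η₁, η₂, B, g, -, hs⟩ | ⟨t, -, w, Θ, η₁, η₂, B, g, -, -, hs⟩) <;>
        exact ⟨w, Θ, η₁, η₂, B, g, hs⟩
  have hbig : ({z | ∃ w Θ η₁ η₂ B, d.GZ C z (rep w) Θ η₁ η₂ B ∧ V ^ 10 < (rep w).im ∧
      IsSquare (d.Δ₁ η₁.trace)}.ncard : ℝ) * V ≤ Cd ^ 2 * K₁ * Ch * HH (d.G ^ 2 * d.E) := by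
    have h1 := (Nat.cast_le (α := ℝ)).2 (tdg_big h C hU0 rep hrep)
    have h2 := H₁ d.E (V ^ 10)⁻¹ hE (by
      rw [inv_pow, inv_mul_eq_div, le_div_iff₀ (by positivity), one_mul, ← pow_mul]
      exact (pow_le_pow_right₀ hV1 (by norm_num)).trans (hVR.le.trans (hlog.trans x2)))
      (by positivity) ((inv_le_one_of_one_le₀ hU1).trans (by linarith))
    rw [Nat.cast_mul, Nat.cast_mul, Nat.cast_pow] at h1
    have h3 := h1.trans (mul_le_mul (mul_le_mul_of_nonneg_left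
      (pow_le_pow_left₀ (Nat.cast_nonneg _) hd 2) (by positivity)) h2 (Nat.cast_nonneg _)
      (by positivity))
    refine (mul_le_mul_of_nonneg_right h3 hV0.le).trans ?_
    calc d.G * (Cd * V) ^ 2 * (K₁ * (V ^ 10)⁻¹ * HH d.E) * V
        = Cd ^ 2 * K₁ * V ^ 3 * (V ^ 10)⁻¹ * (d.G * HH d.E) := by ring
      _ ≤ Cd ^ 2 * K₁ * V ^ 3 * (V ^ 10)⁻¹ * (Ch * V * HH (d.G ^ 2 * d.E)) :=
          mul_le_mul_of_nonneg_left hh (by positivity)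
      _ = Cd ^ 2 * K₁ * Ch * HH (d.G ^ 2 * d.E) * (V ^ 4 / V ^ 10) := by ring
      _ ≤ _ := mul_le_of_le_one_right (by positivity)
          (div_le_one_of_le₀ (pow_le_pow_right₀ hV1 (by norm_num)) hU0.le)
  have hsm : ∀ t ∈ d.m.natAbs.divisors,
      ({z | ∃ w Θ η₁ η₂ B, d.GZ C z (rep w) Θ η₁ η₂ B ∧ (rep w).im ≤ V ^ 10 ∧ ctt η₁ = t ∧
        IsSquare (d.Δ₁ η₁.trace)}.ncard : ℝ) ≤ M * HH (d.G ^ 2 * d.E) / V ^ 2 := by
    intro t ht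
    have ht0 : 0 < t := Nat.pos_of_mem_divisors ht
    have han : 0 < d.a.natAbs := Int.natAbs_pos.2 h.a_pos.ne'
    have hac : ((d.a.natAbs : ℕ) : ℝ) = d.a := by
      rw [← Int.cast_natCast, Int.natAbs_of_nonneg h.a_pos.le]
    have q1 : 0 < d.a.natAbs / Nat.gcd d.a.natAbs t := Nat.div_gcd_pos_of_pos_left _ han
    have q2 : d.a.natAbs ≤ d.a.natAbs / Nat.gcd d.a.natAbs t * t := by
      conv_lhs => rw [← Nat.div_mul_cancel (Nat.gcd_dvd_left d.a.natAbs t)]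
      exact Nat.mul_le_mul_left _ (Nat.gcd_le_right _ ht0)
    have q3 : ((d.a.natAbs / Nat.gcd d.a.natAbs t : ℕ) : ℝ) ≤ d.a := by
      rw [← hac]
      exact Nat.cast_le.2 (Nat.div_le_self _ _)
    have q4 : (d.a : ℝ) ≤ ((d.a.natAbs / Nat.gcd d.a.natAbs t : ℕ) : ℝ) * t := by
      rw [← hac, ← Nat.cast_mul]
      exact Nat.cast_le.2 q2
    have q5 : 4 * (V ^ 10) ^ 2 ≤ V ^ 1000 :=
      calc 4 * (V ^ 10) ^ 2 ≤ V ^ 2 * (V ^ 10) ^ 2 :=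
            mul_le_mul_of_nonneg_right (by nlinarith) (by positivity)
        _ = V ^ 22 := by ring
        _ ≤ V ^ 1000 := pow_le_pow_right₀ hV1 (by norm_num)
    have h1 := H₃ d.E (-d.b) _ (4 * (V ^ 10) ^ 2) hE x1 (by nlinarith)
      (q5.trans (hVR.le.trans hlog)) q1
      (q3.trans ((le_mul_of_one_le_left (by positivity) hG).trans hlog))
    have h2 := H₂ d κ h C (V ^ 10) _ t rep hC hU1 ht0 hrep h1
    rw [le_div_iff₀ (by positivity), hM]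
    exact tdg_num hV1 hVR hG (by exact_mod_cast ht0) (by exact_mod_cast q1) (by positivity) q4 hC
      (Nat.cast_nonneg _) hd hH hH' hh k₂.le k₃.le (Nat.cast_nonneg _) h2
  have hdm : (d.m.natAbs.divisors.card : ℝ) ≤ Cd * (d.n.natAbs * V) := by
    refine (Hd _ hm).trans (mul_le_mul_of_nonneg_left ?_ kd.le)
    have hn1 : (1 : ℝ) ≤ d.n.natAbs := by exact_mod_cast Int.natAbs_pos.2 h.n_ne
    rw [m, Int.natAbs_mul, Int.natAbs_natCast, Nat.cast_mul,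
      Real.mul_rpow (by positivity) (by positivity)]
    exact mul_le_mul (Real.rpow_le_self_of_one_le hn1 (by norm_num)) hGV (by positivity)
      (by positivity)
  rw [hsplit]
  have h1 := (Nat.cast_le (α := ℝ)).2 ((Set.ncard_union_le
    {z | ∃ w Θ η₁ η₂ B, d.GZ C z (rep w) Θ η₁ η₂ B ∧ V ^ 10 < (rep w).im ∧
      IsSquare (d.Δ₁ η₁.trace)} _).trans (Nat.add_le_add_left
    (Finset.set_ncard_biUnion_le d.m.natAbs.divisors fun t =>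
      {z | ∃ w Θ η₁ η₂ B, d.GZ C z (rep w) Θ η₁ η₂ B ∧ (rep w).im ≤ V ^ 10 ∧ ctt η₁ = t ∧
        IsSquare (d.Δ₁ η₁.trace)}) _))
  rw [Nat.cast_add, Nat.cast_sum] at h1
  have h2 := Finset.sum_le_card_nsmul _ _ _ hsm
  rw [nsmul_eq_mul] at h2
  have h3 := h2.trans (mul_le_mul_of_nonneg_right hdm (by positivity))
  have h4 : Cd * (d.n.natAbs * V) * (M * HH (d.G ^ 2 * d.E) / V ^ 2) =
      Cd * d.n.natAbs * M * HH (d.G ^ 2 * d.E) / V := by field_simp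
  rw [h4] at h3
  rw [← le_div_iff₀ hV0] at hbig
  refine h1.trans ((add_le_add hbig h3).trans ?_)
  rw [← add_div, ← add_mul, ← hL, div_le_iff₀ hV0, mul_right_comm]
  refine mul_le_mul_of_nonneg_right ?_ hH'
  have h5 : L / δ ≤ V := by linarith
  rwa [div_le_iff₀' hδ] at h5

end Dt

end Pool.Agent.EQ
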