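import Pool.Agent.P.MP_ad7a55_nt.TLg
import Pool.Agent.P.MP_ad7a55_nt.TLv

/-! Configurations and their weights. -/

set_option autoImplicit false

noncomputable section

open Finset Matrix

namespace Pool.Agent.EQ

/-- The data of a counting problem: a form `(a, b, c)`, a degree `n`, two conductors, a prime. -/
structure Dt where
  a : ℤ
  b : ℤ
  c : ℤ
  n : ℤ
  g₁ : ℕ
  g₂ : ℕ
  p : ℕ

namespace Dt

variable (d : Dt)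

def E : ℤ := d.b ^ 2 - 4 * d.a * d.c

def G : ℕ := d.g₁ * d.g₂

def m : ℤ := d.n * d.G

def F (x y : ℤ) : ℤ := d.a * x ^ 2 + d.b * x * y + d.c * y ^ 2

def x₁ (X Y : ℤ) : ℤ := d.b * Y + 2 * d.a * X

def x₂ (X Y : ℤ) : ℤ := 2 * d.c * Y + d.b * X

def Δ₁ (Y : ℤ) : ℤ := Y ^ 2 - 4 * (d.m * d.a)

def Δ₂ (X : ℤ) : ℤ := X ^ 2 - 4 * (d.m * d.c)

def B (X Y : ℤ) : ℤ := d.F X Y + d.m * d.E

structure Good (κ : ℕ) : Prop where
  a_pos : 0 < d.a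
  E_neg : d.E < 0
  prim : Int.gcd (Int.gcd d.a d.b) d.c = 1
  n_ne : d.n ≠ 0
  g₁_pos : 0 < d.g₁
  g₂_pos : 0 < d.g₂
  cop : d.g₁.Coprime d.g₂
  prime : d.p.Prime
  val : padicValNat d.p d.G ≤ κ

/-- A configuration with traces `Y` and `-X`. -/
structure Cf (X Y : ℤ) (Θ η₁ η₂ : M2) : Prop where
  th : IsTh d.E Θ
  r₁ : η₁ * Θ = d.b • η₁ - (2 * d.a) • η₂
  r₂ : η₂ * Θ = (2 * d.c) • η₁ - d.b • η₂
  det : ∀ x y : ℤ, (x • η₁ + y • η₂).det = d.m * d.F x y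
  t₁ : η₁.trace = Y
  t₂ : η₂.trace = -X

/-- Transversality at the primes of the conductors. -/
def TG (Θ η₁ η₂ : M2) : Prop :=
  ∀ l : ℕ, l.Prime → ∀ x y : ℤ, ¬ (l : ℤ) ∣ d.F x y →
    (l ∣ d.g₁ → ∃ v, Gn l Θ v ∧
      ∀ i, (l : ℤ) ^ padicValNat l d.g₁ ∣ ((x • η₁ + y • η₂).adjugate *ᵥ v) i) ∧
    (l ∣ d.g₂ → ∃ v, Gn l Θ v ∧ ∀ i, (l : ℤ) ^ padicValNat l d.g₂ ∣ ((x • η₁ + y • η₂) *ᵥ v) i)

/-- The set of configurations with an additional property. -/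
def CS (X Y : ℤ) (R : M2 → M2 → M2 → Prop) : Set (M2 × M2) :=
  {P | ∃ η₂, d.Cf X Y P.1 P.2 η₂ ∧ d.TG P.1 P.2 η₂ ∧ R P.1 P.2 η₂}

/-- Primes at which the conductors dominate. -/
def Dom (l : ℕ) : Prop :=
  l ≠ d.p ∧ (padicValInt l d.n + 3 ≤ padicValNat l d.G ∨ (¬ (l : ℤ) ∣ 2 * d.n ∧ l ∣ d.G))

def xe (l : ℕ) (X Y : ℤ) : ℤ := if (l : ℤ) ∣ d.a then d.x₂ X Y else d.x₁ X Y

def Δe (l : ℕ) (X Y : ℤ) : ℤ := if (l : ℤ) ∣ d.a then d.Δ₂ X else d.Δ₁ Y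

def ie (l : ℕ) (X Y : ℤ) : ℕ :=
  padicValNat l (Int.gcd (Int.gcd (d.xe l X Y) (d.Δe l X Y)) d.E) / 2

/-- The general weight. -/
def W5 (l : ℕ) (X Y : ℤ) : ℝ := 16 * (l : ℝ) ^ d.ie l X Y *
  (1 + if padicValInt l d.E ≤ 2 * d.ie l X Y + 3 then (padicValInt l (4 * d.B X Y) : ℝ) else 0)

open Classical in
/-- The weight at `l`. -/
def Wt (l : ℕ) (X Y : ℤ) : ℝ :=
  if d.Dom l then 1
  else if (l : ℤ) ∣ 2 * d.n * d.p then d.W5 l X Y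
  else if ¬ (l : ℤ) ∣ d.E then
    (if jacobiSym d.E l = 1 then (padicValInt l (d.B X Y) : ℝ) + 1
      else if Even (padicValInt l (d.B X Y)) then 1 else 0)
  else if ¬ (l : ℤ) ∣ d.xe l X Y then 1
  else if ¬ (l : ℤ) ∣ d.Δe l X Y then 1 + jacobiSym (d.Δe l X Y) l
  else d.W5 l X Y

/-- The primes that can carry a weight different from one. -/
def PP (X Y : ℤ) : Finset ℕ := (2 * d.n * d.p * d.B X Y).natAbs.primeFactors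

/-- The total weight, modified at the primes of `S`. -/
def WS (S : Finset ℕ) (w : ℕ → ℤ → ℤ → ℝ) (X Y : ℤ) : ℝ :=
  (∏ l ∈ S, w l X Y) * ∏ l ∈ d.PP X Y \ S, d.Wt l X Y

/-- The total weight. -/
def WW (X Y : ℤ) : ℝ := ∏ l ∈ d.PP X Y, d.Wt l X Y

/-- The congruences forced by a level structure. -/
def LevC (q : ℕ) (b₀ X Y : ℤ) : Prop :=
  (q : ℤ) ∣ 4 * d.B X Y ∧ (∃ u, (q : ℤ) ∣ u ^ 2 - d.Δ₁ Y ∧ (q : ℤ) ∣ d.x₁ X Y - b₀ * u) ∧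
    ∃ u, (q : ℤ) ∣ u ^ 2 - d.Δ₂ X ∧ (q : ℤ) ∣ d.x₂ X Y - b₀ * u

/-- The level at the primes that divide `E`, `a` and `Y`. -/
def mu (l : ℕ) (X Y : ℤ) : ℕ :=
  2 * d.ie l X Y + if (l : ℤ) ∣ d.E ∧ (l : ℤ) ∣ d.a ∧ (l : ℤ) ∣ Y then 1 else 0

variable {d}

theorem key₁ (X Y : ℤ) : d.x₁ X Y ^ 2 - d.E * d.Δ₁ Y = 4 * d.a * d.B X Y := by
  simp only [x₁, E, Δ₁, B, F]; ring

theorem key₂ (X Y : ℤ) : d.x₂ X Y ^ 2 - d.E * d.Δ₂ X = 4 * d.c * d.B X Y := by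
  simp only [x₂, E, Δ₂, B, F]; ring

theorem B_eq (X Y : ℤ) :
    d.B X Y = d.a * X ^ 2 + d.b * Y * X + (d.c * Y ^ 2 + d.m * d.E) := by
  simp only [B, F]; ring

theorem disc_B (Y : ℤ) :
    (d.b * Y) ^ 2 - 4 * d.a * (d.c * Y ^ 2 + d.m * d.E) = d.E * d.Δ₁ Y := by
  simp only [E, Δ₁]; ring

theorem tdt_jac (a : ℤ) (b : ℕ) : (-1 : ℝ) ≤ jacobiSym a b ∧ (jacobiSym a b : ℝ) ≤ 1 := by
  rcases jacobiSym.trichotomy a b with h | h | h <;> rw [h] <;> norm_num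

theorem tdt_W5_nonneg (l : ℕ) (X Y : ℤ) : 0 ≤ d.W5 l X Y := by
  unfold W5
  split_ifs <;> positivity

theorem tdt_W5 {l : ℕ} (hl : l.Prime) (X Y : ℤ) : 16 ≤ d.W5 l X Y ∧
    (padicValInt l d.E = 0 → 1 + (padicValInt l (4 * d.B X Y) : ℝ) ≤ d.W5 l X Y) := by
  have h1 : (1 : ℝ) ≤ (l : ℝ) ^ d.ie l X Y := one_le_pow₀ (by exact_mod_cast hl.one_le)
  have h2 : (0 : ℝ) ≤ padicValInt l (4 * d.B X Y) := by positivity
  unfold W5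
  constructor
  · split_ifs <;> nlinarith
  · intro h0
    rw [if_pos (by omega)]
    nlinarith

theorem tdt_m_ne {κ : ℕ} (h : d.Good κ) : d.G ≠ 0 ∧ d.m ≠ 0 := by
  have hG : d.G ≠ 0 := (mul_pos h.g₁_pos h.g₂_pos).ne'
  exact ⟨hG, mul_ne_zero h.n_ne (by exact_mod_cast hG)⟩

theorem tdt_not_dvd_c {κ : ℕ} (h : d.Good κ) {l : ℕ} (hl : l.Prime) (ha : (l : ℤ) ∣ d.a)
    (hE : (l : ℤ) ∣ d.E) : (l : ℤ) ∣ d.b ∧ ¬ (l : ℤ) ∣ d.c := by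
  have hp := Nat.prime_iff_prime_int.1 hl
  have hb : (l : ℤ) ∣ d.b := by
    refine hp.dvd_of_dvd_pow (n := 2) ?_
    have : d.b ^ 2 = d.E + d.a * (4 * d.c) := by simp only [E]; ring
    rw [this]
    exact hE.add (ha.mul_right _)
  refine ⟨hb, fun hc => hp.not_dvd_one ?_⟩
  have := Int.dvd_coe_gcd (Int.dvd_coe_gcd ha hb) hc
  rwa [h.prim] at this

/-- both key identities in one form -/
theorem tdt_key {κ : ℕ} (h : d.Good κ) {l : ℕ} (hl : l.Prime) (hE : (l : ℤ) ∣ d.E) (X Y : ℤ) :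
    ∃ e : ℤ, ¬ (l : ℤ) ∣ e ∧ d.xe l X Y ^ 2 - d.E * d.Δe l X Y = e * (4 * d.B X Y) := by
  unfold xe Δe
  split_ifs with ha
  · exact ⟨d.c, (tdt_not_dvd_c h hl ha hE).2, by rw [key₂]; ring⟩
  · exact ⟨d.a, ha, by rw [key₁]; ring⟩

theorem one_le_W5 {l : ℕ} (hl : l.Prime) (X Y : ℤ) : 1 ≤ d.W5 l X Y := by
  linarith [(tdt_W5 (d := d) hl X Y).1]

theorem Wt_nonneg (l : ℕ) (X Y : ℤ) : 0 ≤ d.Wt l X Y := by
  have h1 := tdt_W5_nonneg (d := d) l X Y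
  have h2 := (tdt_jac (d.Δe l X Y) l).1
  unfold Wt
  split_ifs <;> first | positivity | linarith

theorem Wt_le {κ : ℕ} (h : d.Good κ) {l : ℕ} (hl : l.Prime) {X Y : ℤ} (hB : d.B X Y ≠ 0) :
    d.Wt l X Y ≤ d.W5 l X Y := by
  haveI := Fact.mk hl
  obtain ⟨h1, h2⟩ := tdt_W5 (d := d) hl X Y
  have h3 := (tdt_jac (d.Δe l X Y) l).2
  have h4 : (padicValInt l (d.B X Y) : ℝ) ≤ padicValInt l (4 * d.B X Y) := by
    rw [padicValInt.mul (by norm_num) hB]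
    exact_mod_cast Nat.le_add_left _ _
  unfold Wt
  by_cases hE : (l : ℤ) ∣ d.E
  · rw [if_neg (not_not.2 hE)]
    split_ifs <;> linarith
  · have h5 := h2 (padicValInt.eq_zero_of_not_dvd hE)
    rw [if_pos hE]
    split_ifs <;> linarith

theorem Wt_eq_one {κ : ℕ} (h : d.Good κ) {l : ℕ} (hl : l.Prime) {X Y : ℤ} (hB : d.B X Y ≠ 0)
    (hP : l ∉ d.PP X Y) : d.Wt l X Y = 1 := by
  have hp := Nat.prime_iff_prime_int.1 hl
  have hne : 2 * d.n * d.p * d.B X Y ≠ 0 :=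
    mul_ne_zero (mul_ne_zero (mul_ne_zero two_ne_zero h.n_ne)
      (by exact_mod_cast h.prime.ne_zero)) hB
  have hnd : ¬ (l : ℤ) ∣ 2 * d.n * d.p * d.B X Y := fun hd =>
    hP (Nat.mem_primeFactors.2 ⟨hl, Int.natCast_dvd.1 hd, Int.natAbs_ne_zero.2 hne⟩)
  have h1 : ¬ (l : ℤ) ∣ 2 * d.n * d.p := fun hd => hnd (hd.mul_right _)
  have h2 : ¬ (l : ℤ) ∣ d.B X Y := fun hd => hnd (hd.mul_left _)
  have h3 : ¬ (l : ℤ) ∣ 2 := fun hd => h1 ((hd.mul_right _).mul_right _)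
  unfold Wt
  by_cases hD : d.Dom l
  · rw [if_pos hD]
  rw [if_neg hD, if_neg h1]
  by_cases hE : (l : ℤ) ∣ d.E
  · rw [if_neg (not_not.2 hE), if_pos]
    intro hx
    obtain ⟨e, he, hk⟩ := tdt_key h hl hE X Y
    have h4 : (l : ℤ) ∣ e * (2 * 2 * d.B X Y) := by
      rw [show (2 * 2 : ℤ) = 4 by norm_num, ← hk]
      exact (dvd_pow hx two_ne_zero).sub (hE.mul_right _)
    rcases hp.dvd_or_dvd h4 with h5 | h5
    · exact he h5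
    rcases hp.dvd_or_dvd h5 with h5 | h5
    · exact h3 ((hp.dvd_or_dvd h5).elim id id)
    · exact h2 h5
  · rw [if_pos hE, padicValInt.eq_zero_of_not_dvd h2]
    simp

theorem not_dvd_c {κ : ℕ} (h : d.Good κ) {l : ℕ} (hl : l.Prime) (ha : (l : ℤ) ∣ d.a)
    (hE : (l : ℤ) ∣ d.E) : (l : ℤ) ∣ d.b ∧ ¬ (l : ℤ) ∣ d.c := by
  exact tdt_not_dvd_c h hl ha hE

theorem ie_spec {κ : ℕ} (h : d.Good κ) {l : ℕ} (hl : l.Prime) (X Y : ℤ) :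
    (l : ℤ) ^ (2 * d.ie l X Y) ∣ d.xe l X Y ∧ (l : ℤ) ^ (2 * d.ie l X Y) ∣ d.Δe l X Y ∧
      (l : ℤ) ^ (2 * d.ie l X Y) ∣ d.E ∧ (l : ℤ) ^ (4 * d.ie l X Y) ∣ 4 * d.B X Y := by
  have hp := Nat.prime_iff_prime_int.1 hl
  have h0 : (l : ℤ) ^ (2 * d.ie l X Y) ∣
      (Int.gcd (Int.gcd (d.xe l X Y) (d.Δe l X Y)) d.E : ℤ) := by
    have h1 : l ^ (2 * d.ie l X Y) ∣ Int.gcd (Int.gcd (d.xe l X Y) (d.Δe l X Y)) d.E :=
      (pow_dvd_pow l (Nat.mul_div_le _ 2)).trans pow_padicValNat_dvd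
    exact_mod_cast h1
  have h1 := h0.trans (Int.gcd_dvd_left _ _)
  have hx := h1.trans (Int.gcd_dvd_left _ _)
  have hΔ := h1.trans (Int.gcd_dvd_right _ _)
  have hE := h0.trans (Int.gcd_dvd_right _ _)
  refine ⟨hx, hΔ, hE, ?_⟩
  rcases Nat.eq_zero_or_pos (d.ie l X Y) with hi | hi
  · simp [hi]
  obtain ⟨e, he, hk⟩ := tdt_key h hl ((dvd_pow_self _ (by omega)).trans hE) X Y
  refine hp.pow_dvd_of_dvd_mul_left _ he ?_
  rw [← hk, show 4 * d.ie l X Y = 2 * d.ie l X Y + 2 * d.ie l X Y by ring, pow_add, sq]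
  exact (mul_dvd_mul hx hx).sub (mul_dvd_mul hE hΔ)

/-- The content of `B` as a polynomial in `X`. -/
theorem content {κ : ℕ} (h : d.Good κ) {l : ℕ} (hl : l.Prime) (Y : ℤ) {s : ℕ}
    (hs : s = padicValInt l d.m + padicValInt l d.E) :
    ¬ ((l : ℤ) ^ (s + 1) ∣ d.a ∧ (l : ℤ) ^ (s + 1) ∣ d.b * Y ∧
      (l : ℤ) ^ (s + 1) ∣ d.c * Y ^ 2 + d.m * d.E) := by
  haveI := Fact.mk hl
  rintro ⟨ha, hb, hc⟩
  have hm := (tdt_m_ne h).2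
  have hE := h.E_neg.ne
  have h1 : ¬ (l : ℤ) ^ (s + 1) ∣ d.m * d.E := by
    rw [padicValInt_dvd_iff, padicValInt.mul hm hE]
    rintro (h0 | h0)
    · exact mul_ne_zero hm hE h0
    · omega
  have h2 : ¬ (l : ℤ) ^ (s + 1) ∣ d.b * d.b := fun hd => h1 (Dvd.dvd.mul_left (by
    have : d.E = d.b * d.b - d.a * (4 * d.c) := by simp only [E]; ring
    rw [this]
    exact hd.sub (ha.mul_right _)) _)
  have h3 : ¬ (l : ℤ) ^ (s + 1) ∣ Y * Y := fun hd =>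
    h1 ((dvd_add_right (by rw [sq]; exact hd.mul_left _)).1 hc)
  have hb0 : d.b ≠ 0 := fun h0 => h2 (by simp [h0])
  have hY0 : Y ≠ 0 := fun h0 => h3 (by simp [h0])
  rw [padicValInt_dvd_iff, padicValInt.mul hb0 hb0, not_or] at h2
  rw [padicValInt_dvd_iff, padicValInt.mul hY0 hY0, not_or] at h3
  rw [padicValInt_dvd_iff, padicValInt.mul hb0 hY0] at hb
  rcases hb with h0 | h0
  · exact mul_ne_zero hb0 hY0 h0
  · omega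

/-- Off the dominated primes the order of `m` is bounded. -/
theorem val_m {κ : ℕ} (h : d.Good κ) {l : ℕ} (hl : l.Prime) (hD : ¬ d.Dom l) :
    padicValInt l d.m ≤ 2 * d.n.natAbs + κ + 2 ∧
      (¬ (l : ℤ) ∣ 2 * d.n * d.p → ¬ (l : ℤ) ∣ d.m) := by
  haveI := Fact.mk hl
  have hp := Nat.prime_iff_prime_int.1 hl
  have hG := (tdt_m_ne h).1
  have hv : padicValInt l d.m = padicValInt l d.n + padicValNat l d.G := by
    rw [m, padicValInt.mul h.n_ne (by exact_mod_cast hG), padicValInt.of_nat]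
  have hn : padicValInt l d.n ≤ d.n.natAbs :=
    ((Nat.lt_pow_self hl.one_lt).trans_le
      (Nat.le_of_dvd (Int.natAbs_pos.2 h.n_ne) pow_padicValNat_dvd)).le
  rw [Dom, not_and_or, not_not, not_or, not_and_or, not_not] at hD
  constructor
  · rcases hD with hD | hD
    · have := h.val
      rw [← hD] at this
      omega
    · omega
  · intro h1 hm
    rcases hD with hD | ⟨-, hD | hD⟩
    · exact h1 (hD ▸ dvd_mul_left _ _)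
    · exact h1 (hD.mul_right _)
    · rcases hp.dvd_or_dvd hm with h2 | h2
      · exact h1 ((h2.mul_left _).mul_right _)
      · exact hD (by exact_mod_cast h2)

end Dt

/-- A common eigenvector modulo `q`. -/
def Lvl (q : ℕ) (b₀ : ℤ) (Θ η₁ η₂ : M2) : Prop :=
  ∃ (v : Fin 2 → ℤ) (r s l₁ l₂ : ℤ), (q : ℤ) ∣ r * v 0 + s * v 1 - 1 ∧
    (∀ i, (2 * q : ℤ) ∣ (Θ *ᵥ v) i - b₀ * v i) ∧ (∀ i, (q : ℤ) ∣ (η₁ *ᵥ v) i - l₁ * v i) ∧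
    ∀ i, (q : ℤ) ∣ (η₂ *ᵥ v) i - l₂ * v i

end Pool.Agent.EQ
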