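import Pool.Agent.P.MP_ad7a55_nt.TNz
import Pool.Agent.P.MP_ad7a55_nt.TCl

/-! The class number is as large as expected. -/

set_option autoImplicit false

noncomputable section

open Finset

namespace Pool.Agent.EQ

/-- The `L`-function of the character `n ↦ (d / n)` modulo `4 |d|` has no real zero in
`[1 - c / log (4 |d|), 1)`. -/
def NoZero (c : ℝ) (d : ℤ) : Prop :=
  ∀ (q : ℕ) [NeZero q] (χ : DirichletCharacter ℂ q), q = 4 * d.natAbs →
    (∀ n : ℕ, Odd n → χ n = jacobiSym d n) →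
    ∀ β : ℝ, 1 - c / Real.log q ≤ β → β < 1 → χ.LFunction β ≠ 0

/-- All orders in the field of `D` have class number of the expected size. -/
def Low (L : ℝ) (D : ℤ) : Prop :=
  ∀ D' : ℤ, IsD D' → IsSquare (D * D') → HH D' ≤ L * (Cl D').ncard

theorem tlow_shape {d f D' : ℤ} (hd : Squarefree d) (hf : f ≠ 0)
    (h : IsSquare (f ^ 2 * d * D')) : ∃ g : ℤ, D' = g ^ 2 * d := by
  obtain ⟨r, hr⟩ := h
  have h1 : f ^ 2 ∣ r ^ 2 := ⟨d * D', by rw [sq r, ← hr]; ring⟩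
  obtain ⟨s, rfl⟩ := (Int.pow_dvd_pow_iff (by norm_num : 2 ≠ 0)).1 h1
  have h2 : d * D' = s ^ 2 := by
    have h3 : f ^ 2 * (d * D') = f ^ 2 * s ^ 2 := by linear_combination hr
    exact mul_left_cancel₀ (pow_ne_zero 2 hf) h3
  have h4 : d ∣ s := (hd.dvd_pow_iff_dvd (by norm_num : 2 ≠ 0)).1 ⟨D', h2.symm⟩
  obtain ⟨g, rfl⟩ := h4
  refine ⟨g, mul_left_cancel₀ hd.ne_zero ?_⟩
  linear_combination h2

theorem tlow_ne {D : ℤ} (hD : D < 0) [NeZero (4 * D.natAbs)] : sgeChi D ≠ 1 := by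
  intro h
  have h0 : 0 < D.natAbs := Int.natAbs_pos.2 hD.ne
  obtain ⟨n, hn⟩ : ∃ n, n + 1 = 4 * D.natAbs := ⟨4 * D.natAbs - 1, by omega⟩
  have h1 := sgeChi_nat D n
  have h2 := sge_jac hn
  rw [show -(D.natAbs : ℤ) = D by omega] at h2
  rw [if_pos (Nat.odd_iff.2 (by omega)), h2, h] at h1
  by_cases hu : IsUnit (n : ZMod (4 * D.natAbs))
  · rw [MulChar.one_apply hu] at h1
    norm_num at h1
  · rw [MulChar.map_nonunit _ hu] at h1
    norm_num at h1

theorem tlow_sq (D : ℤ) [NeZero (4 * D.natAbs)] : sgeChi D ^ 2 = 1 := by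
  refine MulChar.isQuadratic_iff_sq_eq_one.1 fun x => ?_
  obtain ⟨a, rfl⟩ := ZMod.natCast_zmod_surjective x
  rw [sgeChi_nat]
  split_ifs
  · rcases jacobiSym.trichotomy D a with h | h | h <;> simp [h]
  · exact Or.inl rfl

theorem tlow_jc (D : ℤ) [NeZero (4 * D.natAbs)] (n : ℕ) :
    sgeChi D (n : ZMod (4 * D.natAbs)) = (jc D n : ℝ) := by
  rw [sgeChi_nat, jc]
  split_ifs <;> simp

theorem tlow_odd {n m : ℕ} (h : n.Coprime (4 * m)) : Odd n := by
  have h1 : n.Coprime 2 := Nat.Coprime.coprime_dvd_right ⟨2 * m, by ring⟩ h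
  exact Nat.coprime_two_right.1 h1

theorem tlow_jac {g d : ℤ} {n : ℕ} (h : n.Coprime (4 * (g ^ 2 * d).natAbs)) :
    jacobiSym (g ^ 2 * d) n = jacobiSym d n := by
  have h1 : n.Coprime g.natAbs := by
    refine Nat.Coprime.coprime_dvd_right ⟨4 * g.natAbs * d.natAbs, ?_⟩ h
    rw [Int.natAbs_mul, Int.natAbs_pow]
    ring
  have h2 : Int.gcd g n = 1 := h1.symm
  rw [jacobiSym.mul_left, jacobiSym.sq_one' h2, one_mul]

theorem tlow_level {g d : ℤ} [NeZero (4 * d.natAbs)] [NeZero (4 * (g ^ 2 * d).natAbs)]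
    (h : 4 * d.natAbs ∣ 4 * (g ^ 2 * d).natAbs) :
    sgeChi (g ^ 2 * d) = DirichletCharacter.changeLevel h (sgeChi d) := by
  refine MulChar.ext fun u => ?_
  obtain ⟨n, hn⟩ := ZMod.natCast_zmod_surjective (u : ZMod (4 * (g ^ 2 * d).natAbs))
  have hc : n.Coprime (4 * (g ^ 2 * d).natAbs) :=
    (ZMod.isUnit_iff_coprime _ _).1 (hn ▸ u.isUnit)
  rw [DirichletCharacter.changeLevel_eq_cast_of_dvd, ← hn, ZMod.cast_natCast h, sgeChi_nat,
    sgeChi_nat, tlow_jac hc]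

theorem tlow_exp {u : ℝ} (h : |u| ≤ 1 / 2) : Real.exp (-(u + 2 * u ^ 2)) ≤ 1 - u := by
  obtain ⟨h0, h1⟩ := abs_le.1 h
  have h2 := Real.add_one_le_exp (u + 2 * u ^ 2)
  have h3 : 0 < u + 2 * u ^ 2 + 1 := by nlinarith [sq_nonneg u]
  rw [Real.exp_neg]
  refine (inv_anti₀ h3 h2).trans ?_
  rw [inv_eq_one_div, div_le_iff₀ h3]
  nlinarith [mul_nonneg (sq_nonneg u) (by linarith : (0 : ℝ) ≤ 1 - 2 * u)]

theorem tlow_abs (d : ℤ) (n : ℕ) : |jc d n| ≤ 1 := by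
  rw [jc]
  split_ifs
  · rcases jacobiSym.trichotomy d n with h | h | h <;> simp [h]
  · simp

theorem tlow_prod (d : ℤ) (P : Finset ℕ) (hP : ∀ l ∈ P, l.Prime) :
    Real.exp (-(∑ l ∈ P, jc d l / l) - 2) ≤
      ‖∏ l ∈ P, (1 - ((jc d l : ℝ) : ℂ) * (l : ℂ) ^ (-(1 : ℂ)))‖ := by
  have hu : ∀ l ∈ P, |jc d l / l| ≤ 1 / (l : ℝ) := fun l hl => by
    rw [abs_div, Nat.abs_cast]
    exact div_le_div_of_nonneg_right (tlow_abs d l) (Nat.cast_nonneg _)
  have h2 : ∀ l ∈ P, 1 / (l : ℝ) ≤ 1 / 2 := fun l hl =>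
    one_div_le_one_div_of_le (by norm_num) (by exact_mod_cast (hP l hl).two_le)
  have h3 : ∑ l ∈ P, (jc d l / l) ^ 2 ≤ 1 := by
    refine le_trans (sum_le_sum fun l hl => ?_) (Lib.Sieve.sum_inv_sq_primes_le P hP)
    rw [← sq_abs]
    exact pow_le_pow_left₀ (abs_nonneg _) (hu l hl) 2
  calc Real.exp (-(∑ l ∈ P, jc d l / l) - 2)
      ≤ Real.exp (∑ l ∈ P, -(jc d l / l + 2 * (jc d l / l) ^ 2)) := by
        refine Real.exp_le_exp.2 ?_
        rw [sum_neg_distrib, sum_add_distrib, ← mul_sum]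
        linarith
    _ = ∏ l ∈ P, Real.exp (-(jc d l / l + 2 * (jc d l / l) ^ 2)) := Real.exp_sum _ _
    _ ≤ ∏ l ∈ P, ‖1 - ((jc d l : ℝ) : ℂ) * (l : ℂ) ^ (-(1 : ℂ))‖ := by
        refine prod_le_prod (fun l _ => (Real.exp_pos _).le) fun l hl => ?_
        refine (tlow_exp ((hu l hl).trans (h2 l hl))).trans ?_
        have h4 : (1 : ℂ) - ((jc d l : ℝ) : ℂ) * (l : ℂ) ^ (-(1 : ℂ)) =
            ((1 - jc d l / l : ℝ) : ℂ) := by
          rw [Complex.cpow_neg_one]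
          push_cast
          rw [div_eq_mul_inv]
        rw [h4, Complex.norm_real, Real.norm_eq_abs]
        exact le_abs_self _
    _ = _ := (norm_prod _ _).symm

theorem tlow_sum {g d : ℤ} (h3 : 3 ≤ (g ^ 2 * d).natAbs) :
    ∑ l ∈ Nat.primesLE (g ^ 2 * d).natAbs, (jacobiSym (g ^ 2 * d) l : ℝ) / l ≤
      1 + ∑ l ∈ Nat.primesLE (g ^ 2 * d).natAbs, jc d l / l -
        ∑ l ∈ (4 * (g ^ 2 * d).natAbs).primeFactors, jc d l / l := by
  generalize hX : (g ^ 2 * d).natAbs = X at *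
  have hsub : (4 * X).primeFactors = (Nat.primesLE X).filter (fun l => l ∣ 4 * X) := by
    ext l
    rw [mem_filter, Nat.mem_primesLE, Nat.mem_primeFactors]
    refine ⟨fun ⟨h1, h2, _⟩ => ⟨⟨?_, h1⟩, h2⟩, fun ⟨⟨_, h1⟩, h2⟩ => ⟨h1, h2, by omega⟩⟩
    rcases (Nat.Prime.dvd_mul h1).1 h2 with h4 | h4
    · have h5 : l ∣ 2 := h1.dvd_of_dvd_pow (show l ∣ 2 ^ 2 from h4)
      exact (Nat.le_of_dvd (by norm_num) h5).trans (by omega)
    · exact Nat.le_of_dvd (by omega) h4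
  have hone : ∑ l ∈ Nat.primesLE X, (if l = 2 then (1 : ℝ) else 0) ≤ 1 := by
    rw [sum_ite_eq']
    split_ifs <;> norm_num
  rw [hsub, sum_filter, add_sub_assoc, ← sum_sub_distrib]
  refine le_trans (sum_le_sum fun l hl => ?_) (le_trans (le_of_eq (sum_add_distrib (f := fun l =>
    if l = 2 then (1 : ℝ) else 0))) (add_le_add_left hone _))
  have hp : l.Prime := (Nat.mem_primesLE.1 hl).2
  by_cases h2 : l = 2
  · subst h2
    rw [if_pos rfl, if_pos ⟨2 * X, by ring⟩, sub_self, add_zero]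
    rcases jacobiSym.trichotomy (g ^ 2 * d) 2 with h | h | h <;> rw [h] <;> norm_num
  · rw [if_neg h2, zero_add]
    split_ifs with hd
    · have h4 : l ∣ X := by
        refine ((Nat.Prime.dvd_mul hp).1 hd).resolve_left fun h4 => h2 ?_
        exact (Nat.prime_dvd_prime_iff_eq hp Nat.prime_two).1
          (hp.dvd_of_dvd_pow (show l ∣ 2 ^ 2 from h4))
      have h5 : jacobiSym (g ^ 2 * d) l = 0 := by
        refine jacobiSym.eq_zero_iff.2 ⟨hp.ne_zero, fun h6 => ?_⟩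
        have h7 : X.Coprime l := hX ▸ h6
        exact hp.one_lt.ne' (Nat.eq_one_of_dvd_coprimes h7 h4 dvd_rfl)
      rw [h5, sub_self]
      simp
    · have h4 : l.Coprime (4 * (g ^ 2 * d).natAbs) := hX ▸ (hp.coprime_iff_not_dvd.2 hd)
      rw [tlow_jac h4, sub_zero, jc, if_pos (hp.odd_of_ne_two h2)]

theorem tlow_one {d : ℤ} (hd : d < 0) : ∃ c : ℝ, 0 < c ∧ NoZero c d := by
  have h0 : 0 < d.natAbs := Int.natAbs_pos.2 hd.ne
  have : NeZero (4 * d.natAbs) := ⟨by omega⟩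
  have h1 := (DirichletCharacter.differentiable_LFunction (tlow_ne hd)).continuous.continuousAt
    (x := 1)
  have h2 := h1.eventually_ne (DirichletCharacter.LFunction_apply_one_ne_zero (tlow_ne hd))
  obtain ⟨δ, hδ, h3⟩ := Metric.eventually_nhds_iff.1 h2
  have hl : 0 < Real.log ((4 * d.natAbs : ℕ) : ℝ) :=
    Real.log_pos (by exact_mod_cast (by omega : 1 < 4 * d.natAbs))
  refine ⟨δ / 2 * Real.log ((4 * d.natAbs : ℕ) : ℝ), by positivity, ?_⟩
  intro q _ χ hq hχ β hβ hβ1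
  subst hq
  have h4 : χ = sgeChi d := by
    refine MulChar.ext fun u => ?_
    obtain ⟨n, hn⟩ := ZMod.natCast_zmod_surjective (u : ZMod (4 * d.natAbs))
    have hc : n.Coprime (4 * d.natAbs) := (ZMod.isUnit_iff_coprime _ _).1 (hn ▸ u.isUnit)
    rw [← hn, sgeChi_nat, if_pos (tlow_odd hc), hχ n (tlow_odd hc)]
  rw [h4]
  refine h3 ?_
  rw [mul_div_assoc, div_self hl.ne', mul_one] at hβ
  rw [Complex.dist_eq, ← Complex.ofReal_one, ← Complex.ofReal_sub, Complex.norm_real,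
    Real.norm_eq_abs, abs_lt]
  constructor <;> linarith

theorem tlow_mono {c c' : ℝ} {d : ℤ} (h : c' ≤ c) (hc : NoZero c d) : NoZero c' d := by
  intro q _ χ hq hχ β hβ hβ1
  refine hc q χ hq hχ β (le_trans ?_ hβ) hβ1
  have := div_le_div_of_nonneg_right h (Real.log_natCast_nonneg q)
  linarith

theorem low_of_noZero {c : ℝ} (hc : 0 < c) : ∃ L : ℝ, 0 < L ∧ ∀ d f : ℤ, Squarefree d →
    f ^ 2 * d < 0 → NoZero c d → Low L (f ^ 2 * d) := by
  obtain ⟨C, hC, hE⟩ := nz_euler hc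
  refine ⟨1200 * Real.exp 3 * C, by positivity, fun d f hd hf hz D' hD' hsq => ?_⟩
  have hf0 : f ≠ 0 := by
    rintro rfl
    simp at hf
  have hd0 : d < 0 := by
    by_contra hn
    exact absurd hf (not_lt.2 (mul_nonneg (sq_nonneg f) (not_lt.1 hn)))
  obtain ⟨g, rfl⟩ := tlow_shape hd hf0 hsq
  have h3 : 3 ≤ (g ^ 2 * d).natAbs := by
    obtain ⟨h1, h2⟩ := hD'
    omega
  have hdp : 0 < d.natAbs := Int.natAbs_pos.2 hd0.ne
  have : NeZero (4 * d.natAbs) := ⟨by omega⟩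
  have : NeZero (4 * (g ^ 2 * d).natAbs) := ⟨by omega⟩
  have hdv : d.natAbs ∣ (g ^ 2 * d).natAbs := Int.natAbs_dvd_natAbs.2 (dvd_mul_left _ _)
  have hX : 4 * d.natAbs ≤ (g ^ 2 * d).natAbs ^ 3 := by
    have h1 := Nat.le_of_dvd (by omega) hdv
    generalize (g ^ 2 * d).natAbs = X at *
    have h2 : 3 * 3 * X ≤ X * X * X := by gcongr
    calc 4 * d.natAbs ≤ 3 * 3 * X := by omega
      _ ≤ X * X * X := h2
      _ = X ^ 3 := by ring
  have h4 := hE (4 * d.natAbs) (sgeChi d) (jc d) (tlow_ne hd0) (tlow_sq d) (tlow_jc d)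
    (hz _ (sgeChi d) rfl fun n hn => by rw [sgeChi_nat, if_pos hn]) _ hX
  have h5 := class_ge hD'
  rw [tlow_level (Nat.mul_dvd_mul_left 4 hdv),
    DirichletCharacter.LFunction_changeLevel _ _ (Or.inl (tlow_ne hd0)), norm_mul] at h5
  simp only [tlow_jc] at h5
  have h6 := tlow_prod d (4 * (g ^ 2 * d).natAbs).primeFactors
    fun l hl => Nat.prime_of_mem_primeFactors hl
  have h7 := tlow_sum h3
  have h8 : EE (g ^ 2 * d) (g ^ 2 * d).natAbs ≤ Real.exp 3 *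
      (Real.exp (∑ l ∈ Nat.primesLE (g ^ 2 * d).natAbs, jc d l / l) *
        Real.exp (-(∑ l ∈ (4 * (g ^ 2 * d).natAbs).primeFactors, jc d l / l) - 2)) := by
    rw [EE, ← Real.exp_add, ← Real.exp_add]
    exact Real.exp_le_exp.2 (by linarith)
  rw [HH]
  generalize EE (g ^ 2 * d) (g ^ 2 * d).natAbs = E at *
  generalize ‖∏ l ∈ (4 * (g ^ 2 * d).natAbs).primeFactors,
    (1 - ((jc d l : ℝ) : ℂ) * (l : ℂ) ^ (-(1 : ℂ)))‖ = P at *
  have hA := norm_nonneg ((sgeChi d).LFunction 1)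
  generalize ‖(sgeChi d).LFunction 1‖ = A at *
  have hS := Real.sqrt_nonneg (-((g ^ 2 * d : ℤ) : ℝ))
  generalize Real.sqrt (-((g ^ 2 * d : ℤ) : ℝ)) = S at *
  calc S * E ≤ S * (Real.exp 3 * (C * A * P)) := by
        refine mul_le_mul_of_nonneg_left (h8.trans ?_) hS
        gcongr
    _ = Real.exp 3 * C * (S * (A * P)) := by ring
    _ ≤ Real.exp 3 * C * (1200 * ((Cl (g ^ 2 * d)).ncard : ℝ)) := by gcongr
    _ = _ := by ring

theorem noZero_of_finite (T : Finset ℤ) (hT : ∀ d ∈ T, d < 0) :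
    ∃ c : ℝ, 0 < c ∧ ∀ d ∈ T, NoZero c d := by
  induction T using Finset.induction_on with
  | empty => exact ⟨1, one_pos, fun d hd => absurd hd (notMem_empty d)⟩
  | insert a T _ ih =>
    obtain ⟨c, hc, h⟩ := ih fun d hd => hT d (mem_insert_of_mem hd)
    obtain ⟨c', hc', h'⟩ := tlow_one (hT a (mem_insert_self a T))
    refine ⟨min c c', lt_min hc hc', fun d hd => ?_⟩
    rcases mem_insert.1 hd with rfl | hd
    · exact tlow_mono (min_le_right _ _) h'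
    · exact tlow_mono (min_le_left _ _) (h d hd)

end Pool.Agent.EQ
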