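import Pool.Agent.P.MP_ad7a55_nt.TDg
import Pool.Agent.P.MP_ad7a55_nt.TLow
import Pool.Agent.P.MP_ad7a55_nt.CtG

/-! Exceptional pairs are rare. -/

set_option autoImplicit false

noncomputable section

open Finset Matrix UpperHalfPlane

namespace Pool.Agent.EQ

variable (p : ℕ) [Fact p.Prime]

/-- Exceptional pairs over a fixed class. -/
def Ex4 (n : ℤ) (C : ℝ) (r : ℕ) (E : ℤ) (g₁ g₂ : ℕ) (w : ℂ) : Set (ℂ × ℂ) :=
  {z | ∃ M₁ M₂, DiscL M₁ (g₁ ^ 2 * E) ∧ DiscL M₂ (g₂ ^ 2 * E) ∧ jL M₁ = z.1 ∧ jL M₂ = z.2 ∧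
    jL (M₂ * cj M₁) = w ∧ Bad3 p n C r (g₁ ^ 2 * E) (g₂ ^ 2 * E) M₁ M₂}

theorem tex_box (d : Dt) (ha : 0 < d.a) (H N : ℕ) :
    ∃ Z : Finset (ℤ × ℤ), ∀ X Y : ℤ, d.Box H N X Y → (X, Y) ∈ Z := by
  refine ⟨Icc (-(d.a * N + |d.b| * H)) (d.a * N + |d.b| * H) ×ˢ Icc (-(H : ℤ)) H,
    fun X Y h => ?_⟩
  rw [mem_product, mem_Icc, mem_Icc, ← abs_le, ← abs_le]
  refine ⟨?_, h.y⟩
  have h1 := h.x
  have h2 : |d.b * Y| ≤ |d.b| * H := by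
    rw [abs_mul]
    exact mul_le_mul_of_nonneg_left h.y (abs_nonneg _)
  have h3 : |2 * d.a * X| ≤ |d.x₁ X Y| + |d.b * Y| := by
    have e : 2 * d.a * X = d.x₁ X Y - d.b * Y := by
      simp only [Dt.x₁]
      ring
    rw [e]
    exact abs_sub _ _
  have h4 : |X| ≤ |2 * d.a * X| := by
    rw [abs_mul, abs_of_pos (by omega : 0 < 2 * d.a)]
    exact le_mul_of_one_le_left (abs_nonneg _) (by omega)
  show |X| ≤ _
  linarith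

theorem tex_sum {d : Dt} {κ : ℕ} (h : d.Good κ) {C : ℝ} (hC : 1 ≤ C) {H N : ℕ}
    (hH : 4 * C * d.G * d.a ≤ (H : ℝ) ^ 2) (hN : 4 * C * d.G * (-d.E) ≤ d.a * (N : ℝ) ^ 2)
    (S : Set (ℂ × ℂ)) (P : ℤ → ℤ → Prop)
    (hS : ∀ z ∈ S, ∃ τ Θ η₁ η₂ B, d.GZ C z τ Θ η₁ η₂ B ∧ B ≠ 0 ∧ P (-η₂.trace) η₁.trace)
    {W : ℝ} (hW : ∀ Z : Finset (ℤ × ℤ), (∀ z ∈ Z, d.Box H N z.1 z.2 ∧ P z.1 z.2) →
      ∑ z ∈ Z, d.WW z.1 z.2 ≤ W) : (S.ncard : ℝ) ≤ (d.n.natAbs : ℝ) ^ 9 * W := by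
  classical
  obtain ⟨Z, hZ⟩ := tex_box d h.a_pos H N
  have h1 := Dt.geo_sum (C := C) h S (Z.filter fun z => d.Box H N z.1 z.2 ∧ P z.1 z.2)
    (fun _ _ _ => True) d.WW (fun z hz => by
      obtain ⟨τ, Θ, η₁, η₂, B, g, hB, hP⟩ := hS z hz
      obtain ⟨b1, b2, b3, b4⟩ := g.box h hC hB hH hN
      have hb : d.Box H N (-η₂.trace) η₁.trace := ⟨b1, b2, b3, b4⟩
      exact ⟨τ, Θ, η₁, η₂, B, g, mem_filter.2 ⟨hZ _ _ hb, hb, hP⟩, trivial⟩)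
    (fun x hx => Dt.few_WW h (mem_filter.1 hx).2.1.ne)
  exact h1.trans (mul_le_mul_of_nonneg_left (hW _ fun z hz => (mem_filter.1 hz).2) (by positivity))

theorem tex_rep : ∃ rep : ℂ → ℍ, ∀ w, rep w ∈ ModularGroup.fd ∧ jInv (rep w) = w := by
  have h : ∀ w : ℂ, ∃ τ : ℍ, τ ∈ ModularGroup.fd ∧ jInv τ = w := by
    intro w
    obtain ⟨τ, rfl⟩ := jInv_surj w
    obtain ⟨γ, hγ⟩ := ModularGroup.exists_smul_mem_fd τ
    exact ⟨γ • τ, hγ, jInv_smul γ τ⟩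
  choose rep hrep using h
  exact ⟨rep, hrep⟩

theorem tex_log (c : ℝ) (hc : 0 < c) (A : ℕ) :
    ∃ N₀ : ℕ, ∀ N : ℕ, N₀ ≤ N → c * Real.log N ^ A ≤ N := by
  have h := (Real.isLittleO_pow_log_id_atTop (n := A)).bound (c := c⁻¹) (inv_pos.2 hc)
  obtain ⟨N₀, hN⟩ := Filter.eventually_atTop.1 (tendsto_natCast_atTop_atTop (R := ℝ).eventually h)
  refine ⟨N₀, fun N hN' => ?_⟩
  have h1 := hN N hN'
  rw [id, Real.norm_of_nonneg (pow_nonneg (Real.log_natCast_nonneg N) _),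
    Real.norm_of_nonneg (Nat.cast_nonneg N)] at h1
  calc c * Real.log N ^ A ≤ c * (c⁻¹ * N) := mul_le_mul_of_nonneg_left h1 hc.le
    _ = N := by rw [← mul_assoc, mul_inv_cancel₀ hc.ne', one_mul]

theorem tex_ceil {x : ℝ} (hx : 1 ≤ x) : ∃ H : ℕ, x ≤ (H : ℝ) ^ 2 ∧ (H : ℝ) ^ 2 ≤ 4 * x := by
  have h0 : 0 ≤ x := by linarith
  have h1 : 1 ≤ Real.sqrt x := Real.one_le_sqrt.2 hx
  have h2 := Nat.le_ceil (Real.sqrt x)
  have h3 := (Nat.ceil_lt_add_one (Real.sqrt_nonneg x)).le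
  have h4 := Real.sq_sqrt h0
  refine ⟨⌈Real.sqrt x⌉₊, ?_, ?_⟩
  · calc x = Real.sqrt x ^ 2 := h4.symm
      _ ≤ _ := pow_le_pow_left₀ (Real.sqrt_nonneg x) h2 2
  · calc ((⌈Real.sqrt x⌉₊ : ℕ) : ℝ) ^ 2 ≤ (2 * Real.sqrt x) ^ 2 :=
          pow_le_pow_left₀ (Nat.cast_nonneg _) (by linarith) 2
      _ = 4 * x := by rw [mul_pow, h4]; norm_num

theorem tex_up {C G a e x : ℝ} (hC : 1 ≤ C) (hG : 1 ≤ G) (hE : 3 * a ^ 2 ≤ e) (hR : C ≤ G * a)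
    (hx : x ≤ 16 * C * G * e) : x ≤ ((G ^ 2 * e) ^ 2) ^ 2 := by
  have he : 0 ≤ e := le_trans (by positivity) hE
  have h1 : 3 * (G * a) ^ 2 ≤ G ^ 2 * e :=
    calc 3 * (G * a) ^ 2 = G ^ 2 * (3 * a ^ 2) := by ring
      _ ≤ _ := mul_le_mul_of_nonneg_left hE (sq_nonneg G)
  have h2 : G * e ≤ G ^ 2 * e :=
    mul_le_mul_of_nonneg_right (le_self_pow₀ hG two_ne_zero) he
  have h3 : C ^ 2 ≤ (G * a) ^ 2 := pow_le_pow_left₀ (by linarith) hR 2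
  have h4 : C ≤ C ^ 2 := le_self_pow₀ hC two_ne_zero
  have h5 : x ≤ 16 * C * (G ^ 2 * e) :=
    hx.trans (by rw [mul_assoc (16 * C)]; exact mul_le_mul_of_nonneg_left h2 (by linarith))
  generalize G ^ 2 * e = D at h1 h5 ⊢
  have h6 : 3 * C ≤ D := by linarith
  have h7 : 3 ^ 2 ≤ D ^ 2 := pow_le_pow_left₀ (by norm_num) (by linarith) 2
  have h8 : 16 * C * D ≤ 6 * D * D := mul_le_mul_of_nonneg_right (by linarith) (by linarith)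
  have h9 : 6 * D ^ 2 ≤ D ^ 2 * D ^ 2 := mul_le_mul_of_nonneg_right (by linarith) (sq_nonneg D)
  calc x ≤ 6 * D * D := h5.trans h8
    _ = 6 * D ^ 2 := by ring
    _ ≤ D ^ 2 * D ^ 2 := h9
    _ = _ := by ring

theorem tex_real {C G a e : ℝ} (hC : 1 ≤ C) (hG : 1 ≤ G) (ha : 1 ≤ a) (hE : 3 * a ^ 2 ≤ e) :
    ∃ H N : ℕ, 4 * C * G * a ≤ (H : ℝ) ^ 2 ∧ 4 * C * G * e ≤ a * (N : ℝ) ^ 2 ∧
      (N : ℝ) ^ 2 ≤ 16 * C * G * e ∧ H ≤ 2 * N ∧ 2 ≤ N ∧ 1 ≤ H ∧ G ^ 2 * e ≤ ((N : ℝ) ^ 2) ^ 2 ∧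
      (N : ℝ) * H ≤ 16 * C * Real.sqrt (G ^ 2 * e) := by
  have ha0 : 0 < a := by linarith
  have haa : 0 ≤ a ^ 2 := sq_nonneg a
  have he : 0 ≤ e := by linarith
  have hCG : 1 ≤ C * G := one_le_mul_of_one_le_of_one_le hC hG
  have hCGa : 1 ≤ C * G * a := one_le_mul_of_one_le_of_one_le hCG ha
  have hx : 4 ≤ 4 * C * G * a := by linarith
  have hea : a ≤ e / a := by
    rw [le_div_iff₀ ha0]
    linarith
  have hxy : 4 * C * G * a ≤ 4 * C * G * (e / a) :=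
    mul_le_mul_of_nonneg_left hea (by linarith)
  obtain ⟨H, hH1, hH2⟩ := tex_ceil (x := 4 * C * G * a) (by linarith)
  obtain ⟨N, hN1, hN2⟩ := tex_ceil (x := 4 * C * G * (e / a)) (by linarith)
  have hee : e / a ≤ e := div_le_self he ha
  refine ⟨H, N, hH1, ?_, ?_, ?_, ?_, ?_, ?_, ?_⟩
  · have h1 := mul_le_mul_of_nonneg_left hN1 ha0.le
    have h2 : a * (4 * C * G * (e / a)) = 4 * C * G * e := by field_simp
    linarith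
  · have h1 : 16 * C * G * (e / a) ≤ 16 * C * G * e :=
      mul_le_mul_of_nonneg_left hee (by linarith)
    linarith
  · have h1 : (H : ℝ) ^ 2 ≤ ((2 * N : ℕ) : ℝ) ^ 2 := by
      push_cast
      rw [mul_pow]
      linarith
    exact_mod_cast (pow_le_pow_iff_left₀ (Nat.cast_nonneg _) (Nat.cast_nonneg _) two_ne_zero).1 h1
  · have h1 : ((2 : ℕ) : ℝ) ^ 2 ≤ (N : ℝ) ^ 2 := by
      push_cast
      linarith
    exact_mod_cast (pow_le_pow_iff_left₀ (Nat.cast_nonneg _) (Nat.cast_nonneg _) two_ne_zero).1 h1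
  · have h1 : ((1 : ℕ) : ℝ) ^ 2 ≤ (H : ℝ) ^ 2 := by
      push_cast
      linarith
    exact_mod_cast (pow_le_pow_iff_left₀ (Nat.cast_nonneg _) (Nat.cast_nonneg _) two_ne_zero).1 h1
  · have h0 : 0 ≤ G * (e / a) := mul_nonneg (by linarith) (by linarith)
    have h1 : G * (e / a) ≤ (N : ℝ) ^ 2 :=
      calc G * (e / a) ≤ 4 * C * (G * (e / a)) := le_mul_of_one_le_left h0 (by linarith)
        _ = 4 * C * G * (e / a) := by ring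
        _ ≤ _ := hN1
    have h2 : e ≤ (e / a) ^ 2 := by
      rw [div_pow, le_div_iff₀ (by positivity), sq e]
      exact mul_le_mul_of_nonneg_left (by linarith) he
    calc G ^ 2 * e ≤ G ^ 2 * (e / a) ^ 2 := mul_le_mul_of_nonneg_left h2 (sq_nonneg _)
      _ = (G * (e / a)) ^ 2 := by ring
      _ ≤ _ := pow_le_pow_left₀ h0 h1 2
  · have h0 : 0 ≤ G ^ 2 * e := mul_nonneg (sq_nonneg _) he
    refine (pow_le_pow_iff_left₀ (by positivity) (by positivity) two_ne_zero).1 ?_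
    rw [mul_pow, mul_pow (16 * C), Real.sq_sqrt h0]
    calc (N : ℝ) ^ 2 * (H : ℝ) ^ 2 ≤ (4 * (4 * C * G * (e / a))) * (4 * (4 * C * G * a)) :=
          mul_le_mul hN2 hH2 (sq_nonneg _) (by linarith)
      _ = (16 * C) ^ 2 * (G ^ 2 * e) := by
          field_simp
          ring

/-- The sizes of the box. -/
theorem tex_sz {d : Dt} {κ : ℕ} (h : d.Good κ) {C : ℝ} (hC : 1 ≤ C) (hn : (|d.n| : ℝ) ≤ C)
    (hb : |d.b| ≤ d.a) (hc : d.a ≤ d.c) (hR : C ≤ d.G * d.a) : ∃ H N : ℕ, d.Sz H N ∧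
      4 * C * d.G * d.a ≤ (H : ℝ) ^ 2 ∧ 4 * C * d.G * (-d.E) ≤ d.a * (N : ℝ) ^ 2 ∧
      (N : ℝ) ^ 2 ≤ 16 * C * d.G * (-d.E) ∧ H ≤ 2 * N ∧
      (N : ℝ) * H ≤ 16 * C * Real.sqrt (-((d.G ^ 2 * d.E : ℤ) : ℝ)) := by
  have ha : (1 : ℝ) ≤ d.a := by exact_mod_cast h.a_pos
  have hG0 : 0 < d.G := Nat.mul_pos h.g₁_pos h.g₂_pos
  have hG : (1 : ℝ) ≤ d.G := by exact_mod_cast hG0
  have hE0 : 3 * d.a ^ 2 ≤ -d.E := by
    have h1 : d.b ^ 2 ≤ d.a ^ 2 := by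
      rw [← sq_abs d.b]
      exact pow_le_pow_left₀ (abs_nonneg _) hb 2
    have h2 := mul_le_mul_of_nonneg_left hc h.a_pos.le
    simp only [Dt.E]
    linarith
  have hE : 3 * (d.a : ℝ) ^ 2 ≤ -(d.E : ℝ) := by exact_mod_cast hE0
  have hD' : -((d.G ^ 2 * d.E : ℤ) : ℝ) = (d.G : ℝ) ^ 2 * -(d.E : ℝ) := by
    push_cast
    ring
  have hD : (((d.G ^ 2 * d.E : ℤ).natAbs : ℕ) : ℝ) = (d.G : ℝ) ^ 2 * -(d.E : ℝ) := by
    rw [tti_abs (mul_neg_of_pos_of_neg (by positivity) h.E_neg), hD']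
  have hma : ((|d.m * d.a| : ℤ) : ℝ) = |(d.n : ℝ)| * (d.G * d.a) := by
    simp only [Dt.m]
    push_cast
    rw [abs_mul, abs_mul, abs_of_nonneg (by linarith : (0 : ℝ) ≤ d.G),
      abs_of_nonneg (by linarith : (0 : ℝ) ≤ d.a), mul_assoc]
  obtain ⟨H, N, h1, h2, h3, h4, h5, h6, h7, h8⟩ := tex_real hC hG ha hE
  have hGa : 0 ≤ (d.G : ℝ) * d.a := by positivity
  refine ⟨H, N, ⟨h6, ?_, ?_, ?_, ?_⟩, h1, h2, h3, h4, by rw [hD']; exact h8⟩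
  · exact h4.trans (by rw [sq]; exact Nat.mul_le_mul_right N h5)
  · have h9 : ((|d.m * d.a| : ℤ) : ℝ) ≤ (H : ℝ) ^ 2 := by
      rw [hma]
      have h10 := mul_le_mul_of_nonneg_right hn hGa
      have h11 : 0 ≤ C * (d.G * d.a) := mul_nonneg (by linarith) hGa
      linarith
    exact_mod_cast h9
  · have h9 : (d.G ^ 2 * d.E : ℤ).natAbs ≤ (N ^ 2) ^ 2 := by
      rw [← hD] at h7
      exact_mod_cast h7
    rw [← pow_mul] at h9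
    exact h9.trans (Nat.pow_le_pow_right (by omega) (by norm_num))
  · have h9 := tex_up hC hG hE hR h3
    rw [← hD] at h9
    exact_mod_cast (pow_le_pow_iff_left₀ (Nat.cast_nonneg _) (by positivity) two_ne_zero).1 h9

/-- From an exceptional pair to geometric data. -/
theorem tex_geo {d : Dt} {κ : ℕ} (h : d.Good κ) {C C' : ℝ} (hC : C ≤ C') {r : ℕ} {rep : ℂ → ℍ}
    (hrep : ∀ w, rep w ∈ ModularGroup.fd ∧ jInv (rep w) = w) {z : ℂ × ℂ}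
    (hz : z ∈ Ex4 p d.n C r d.E d.g₁ d.g₂ (jL d.LL)) :
    ∃ w Θ η₁ η₂ B, d.GZ C' z (rep w) Θ η₁ η₂ B ∧ B ≠ 0 ∧
      (p : ℤ) ^ (padicValInt p d.E + r) ∣ d.B (-η₂.trace) η₁.trace := by
  obtain ⟨M₁, M₂, h₁, h₂, e₁, e₂, hw, α, β, B, hB, hm, hp⟩ := hz
  have hv := (vol_pos h₂.isLat).le
  have hm' : Hm d.n C' (d.g₁ ^ 2 * d.E) (d.g₂ ^ 2 * d.E) M₁ M₂ α β B :=
    ⟨hm.map, hm.inv, hm.deg, hm.le₁.trans (mul_le_mul_of_nonneg_right hC hv),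
      hm.le₂.trans (mul_le_mul_of_nonneg_right hC hv)⟩
  obtain ⟨s, c, Θ, η₁, η₂, hs, g⟩ := Dt.geo_ex h h₁ h₂ hw hm' (hrep (jL (M₁ * OD d.E))).2
  refine ⟨_, Θ, η₁, η₂, B, ⟨M₁, pr s * M₂, s * α, s * β, c, e₁,
    (jL_pr_mul h₂.isLat hs).trans e₂, g⟩, hB.ne', ?_⟩
  rw [← (g.cf h).2.1, ← Padic.norm_int_le_pow_iff_dvd]
  refine hp.trans ?_
  have hp1 : (0 : ℝ) < p := by exact_mod_cast (Fact.out : p.Prime).pos
  have h1 : ‖((d.E : ℤ) : ℚ_[p])‖ ≤ (p : ℝ) ^ (-(padicValInt p d.E : ℤ)) :=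
    (Padic.norm_int_le_pow_iff_dvd _ _).2 (padicValInt_dvd d.E)
  have h2 : ‖((d.g₁ ^ 2 * d.E : ℤ) : ℚ_[p])‖ ≤ (p : ℝ) ^ (-(padicValInt p d.E : ℤ)) := by
    rw [Int.cast_mul, norm_mul]
    exact (mul_le_of_le_one_left (norm_nonneg _) (Padic.norm_int_le_one _)).trans h1
  refine (mul_le_mul_of_nonneg_left h2 (zpow_pos hp1 _).le).trans (le_of_eq ?_)
  rw [← zpow_add₀ hp1.ne']
  congr 1
  push_cast
  ring

theorem ex4_le {n : ℤ} (hn : n ≠ 0) (C : ℝ) (κ : ℕ) {δ : ℝ} (hδ : 0 < δ) : ∃ r N₀ : ℕ, 0 < N₀ ∧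
    ∀ (E : ℤ) (g₁ g₂ : ℕ), IsD E → 0 < g₁ → 0 < g₂ → g₁.Coprime g₂ →
      padicValNat p (g₁ * g₂) ≤ κ → ∀ w : ℂ,
      ({z | z ∈ Ex4 p n C r E g₁ g₂ w ∧ ¬ Isog N₀ z.1 z.2}.ncard : ℝ) ≤
        δ * HH ((g₁ * g₂ : ℕ) ^ 2 * E) := by
  have hp : p.Prime := Fact.out
  obtain ⟨C', hC1, hC2, hC3⟩ : ∃ C' : ℝ, 1 ≤ C' ∧ C ≤ C' ∧ (|n| : ℝ) ≤ C' :=
    ⟨max 1 (max C |n|), le_max_left _ _, (le_max_left _ _).trans (le_max_right _ _),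
      (le_max_right _ _).trans (le_max_right _ _)⟩
  have hν : (0 : ℝ) < (n.natAbs : ℝ) ^ 9 := by
    have : 0 < n.natAbs := Int.natAbs_pos.2 hn
    positivity
  obtain ⟨δ', hδ', hδe⟩ : ∃ δ' : ℝ, 0 < δ' ∧ (n.natAbs : ℝ) ^ 9 * δ' * (16 * C') = δ / 2 := by
    refine ⟨δ / 2 / ((n.natAbs : ℝ) ^ 9 * (16 * C')), by positivity, ?_⟩
    field_simp
  obtain ⟨r, N₁, hone⟩ := Dt.cnt_one n p κ hδ'
  obtain ⟨A, N₂, hdeg⟩ := Dt.cnt_deg n p κ hδ'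
  obtain ⟨R₀, hsm⟩ := Dt.deg_small n hC1 (2 * A) (half_pos hδ)
  obtain ⟨N₃, hlog⟩ := tex_log (16 * C') (by positivity) (2 * A)
  obtain ⟨rep, hrep⟩ := tex_rep
  obtain ⟨R, hR1, hR2, hR3⟩ : ∃ R : ℕ, C' ≤ R ∧ R₀ ≤ R ∧ (N₁ + N₂ + N₃) ^ 2 ≤ R := by
    refine ⟨⌈C'⌉₊ + ⌈R₀⌉₊ + (N₁ + N₂ + N₃) ^ 2, ?_, ?_, by omega⟩
    · exact (Nat.le_ceil _).trans (by exact_mod_cast (by omega))
    · exact (Nat.le_ceil _).trans (by exact_mod_cast (by omega))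
  refine ⟨r, R.factorial, Nat.factorial_pos R, fun E g₁ g₂ hE hg₁ hg₂ hg hv w => ?_⟩
  set S := {z | z ∈ Ex4 p n C r E g₁ g₂ w ∧ ¬ Isog R.factorial z.1 z.2} with hS
  rcases S.eq_empty_or_nonempty with h0 | ⟨z₀, hz₀⟩
  · rw [h0, Set.ncard_empty, Nat.cast_zero]
    exact mul_nonneg hδ.le (tti_HH_nonneg _)
  have hw : w ∈ Cl E := by
    obtain ⟨⟨M₁, M₂, h₁, h₂, -, -, hw, -⟩, -⟩ := hz₀
    exact ⟨_, (discL_mul_cop hE hg.symm h₂ h₁.cj).1, hw⟩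
  obtain ⟨a, b, c, ha, hb, hc, hprim, hEe, hwe⟩ := exists_red hw
  obtain ⟨d, rfl, rfl, rfl, rfl, rfl, rfl, hdp⟩ : ∃ d : Dt, d.a = a ∧ d.b = b ∧ d.c = c ∧
      d.n = n ∧ d.g₁ = g₁ ∧ d.g₂ = g₂ ∧ d.p = p := ⟨⟨a, b, c, n, g₁, g₂, p⟩, by simp⟩
  obtain rfl : d.E = E := hEe
  obtain rfl : jL d.LL = w := hwe
  have h : d.Good κ := ⟨ha, hE.1, hprim, hn, hg₁, hg₂, hg, hdp ▸ hp, hdp ▸ hv⟩
  show (S.ncard : ℝ) ≤ δ * HH (d.G ^ 2 * d.E)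
  have hG : 0 < d.G := Nat.mul_pos hg₁ hg₂
  have hGa : (R : ℝ) ≤ d.G * d.a := by
    by_contra hlt
    obtain ⟨w, Θ, η₁, η₂, B, ⟨M₁, M₂, α, β, c, e₁, e₂, g⟩, -⟩ := tex_geo p h hC2 hrep hz₀.1
    refine hz₀.2 ?_
    rw [← e₁, ← e₂]
    refine g.isog h ?_
    have h1 : (d.G : ℤ) * d.a ≤ R := by exact_mod_cast (not_le.1 hlt).le
    have h2 : (d.G : ℤ) * d.a = ((d.G * d.a.natAbs : ℕ) : ℤ) := by
      push_cast
      rw [abs_of_pos ha]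
    rw [h2] at h1 ⊢
    exact Int.natCast_dvd_natCast.2 (Nat.dvd_factorial
      (Nat.mul_pos hG (Int.natAbs_pos.2 ha.ne')) (by exact_mod_cast h1))
  obtain ⟨H, N, hsz, hH, hN, hN', hHN, hprod⟩ := tex_sz h hC1 hC3 hb hc (hR1.trans hGa)
  have hGa0 : 0 ≤ (d.G : ℝ) * d.a := (Nat.cast_nonneg R).trans hGa
  have hGH : 4 * ((d.G : ℝ) * d.a) ≤ (H : ℝ) ^ 2 := by
    have h1 := le_mul_of_one_le_left hGa0 hC1
    linarith
  have hNl : N₁ + N₂ + N₃ ≤ N := by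
    have h1 : (H : ℝ) ^ 2 ≤ ((2 * N : ℕ) : ℝ) ^ 2 :=
      pow_le_pow_left₀ (Nat.cast_nonneg _) (by exact_mod_cast hHN) 2
    have h2 : (R : ℝ) ≤ (N : ℝ) ^ 2 := by
      push_cast at h1
      rw [mul_pow] at h1
      linarith
    have h3 : R ≤ N ^ 2 := by exact_mod_cast h2
    exact (pow_le_pow_iff_left₀ (Nat.zero_le _) (Nat.zero_le _) two_ne_zero).1 (hR3.trans h3)
  have hfin : (d.n.natAbs : ℝ) ^ 9 * (δ' * N * H * EE (d.G ^ 2 * d.E) (d.G ^ 2 * d.E).natAbs) ≤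
      δ / 2 * HH (d.G ^ 2 * d.E) := by
    rw [HH, ← hδe]
    have h1 := EE_pos (d.G ^ 2 * d.E) (d.G ^ 2 * d.E).natAbs
    generalize EE (d.G ^ 2 * d.E) (d.G ^ 2 * d.E).natAbs = e at h1 ⊢
    calc (d.n.natAbs : ℝ) ^ 9 * (δ' * N * H * e)
        = (d.n.natAbs : ℝ) ^ 9 * δ' * e * (N * H) := by ring
      _ ≤ (d.n.natAbs : ℝ) ^ 9 * δ' * e *
            (16 * C' * Real.sqrt (-((d.G ^ 2 * d.E : ℤ) : ℝ))) :=
          mul_le_mul_of_nonneg_left hprod (by positivity)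
      _ = _ := by ring
  set T := {z | ∃ w Θ η₁ η₂ B, d.GZ C' z (rep w) Θ η₁ η₂ B ∧ B ≠ 0 ∧
    IsSquare (d.Δ₁ η₁.trace)} with hT
  have hA : ((S \ T).ncard : ℝ) ≤ δ / 2 * HH (d.G ^ 2 * d.E) := by
    refine le_trans (tex_sum h hC1 hH hN (S \ T) (fun X Y => ¬ IsSquare (d.Δ₁ Y) ∧
      (p : ℤ) ^ (padicValInt p d.E + r) ∣ d.B X Y) (fun z hz => ?_)
      (hone d h rfl hdp H N hsz (by omega))) hfin
    obtain ⟨w, Θ, η₁, η₂, B, g, hB, hd⟩ := tex_geo p h hC2 hrep hz.1.1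
    exact ⟨_, Θ, η₁, η₂, B, g, hB, fun hs => hz.2 ⟨w, Θ, η₁, η₂, B, g, hB, hs⟩, hd⟩
  have hB : ((S ∩ T).ncard : ℝ) ≤ δ / 2 * HH (d.G ^ 2 * d.E) := by
    by_cases hl : Real.log N ^ A ≤ H
    · have h1 := hdeg d h rfl hdp H N hsz (by omega) 1 le_rfl (by simpa using hl)
        (by
          have h2 := hsz.one
          rw [one_pow]
          exact_mod_cast (by omega : 1 ≤ N))
      rw [div_one] at h1
      refine le_trans (tex_sum h hC1 hH hN (S ∩ T) (fun X Y => IsSquare (d.Δ₁ Y))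
        (fun z hz => ?_) h1) hfin
      obtain ⟨w, Θ, η₁, η₂, B, g, hB, hs⟩ := hz.2
      exact ⟨_, Θ, η₁, η₂, B, g, hB, hs⟩
    · have ha1 : (1 : ℝ) ≤ d.a := by exact_mod_cast ha
      have hN0 : (0 : ℝ) < N := by
        have h2 := hsz.one
        exact_mod_cast (by omega : 0 < N)
      have hE0 : (0 : ℝ) < -(d.E : ℝ) := by
        have : (d.E : ℝ) < 0 := by exact_mod_cast hE.1
        linarith
      have h1 : (H : ℝ) ^ 2 ≤ Real.log N ^ (2 * A) := by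
        rw [mul_comm, pow_mul]
        exact pow_le_pow_left₀ (Nat.cast_nonneg _) (not_le.1 hl).le 2
      have h2 : (d.G : ℝ) * d.a ≤ Real.log N ^ (2 * A) := by linarith
      have h3 : (d.G : ℝ) ≤ Real.log N ^ (2 * A) :=
        (le_mul_of_one_le_right (Nat.cast_nonneg _) ha1).trans h2
      have h4 : 16 * C' * d.G ≤ N :=
        (mul_le_mul_of_nonneg_left h3 (by positivity)).trans (hlog N (by omega))
      have h5 : (N : ℝ) ≤ -(d.E : ℝ) := by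
        have h6 := mul_le_mul_of_nonneg_right h4 hE0.le
        exact le_of_mul_le_mul_left (a := (N : ℝ)) (by linarith) hN0
      have h6 : (d.G : ℝ) * d.a ≤ Real.log (-(d.E : ℝ)) ^ (2 * A) :=
        h2.trans (pow_le_pow_left₀ (Real.log_natCast_nonneg N) (Real.log_le_log hN0 h5) _)
      refine le_trans ?_ (hsm d κ h rfl (hR2.trans hGa) h6 rep hrep)
      refine Nat.cast_le.2 (Set.ncard_le_ncard ?_ ?_)
      · rintro z ⟨-, w, Θ, η₁, η₂, B, g, -, hs⟩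
        exact ⟨w, Θ, η₁, η₂, B, g, hs⟩
      · refine ((Cl_finite (d.g₁ ^ 2 * d.E)).prod (Cl_finite (d.g₂ ^ 2 * d.E))).subset ?_
        rintro z ⟨w, Θ, η₁, η₂, B, ⟨M₁, M₂, α, β, c, e₁, e₂, g⟩, -⟩
        exact ⟨⟨M₁, g.d₁, e₁⟩, ⟨M₂, g.d₂, e₂⟩⟩
  have hU : S.ncard ≤ (S \ T).ncard + (S ∩ T).ncard := by
    have h1 := Set.ncard_union_le (S \ T) (S ∩ T)
    rwa [Set.sdiff_union_inter] at h1
  have hU' : (S.ncard : ℝ) ≤ (S \ T).ncard + (S ∩ T).ncard := by exact_mod_cast hU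
  linarith

end Pool.Agent.EQ
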