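import Pool.Agent.P.MP_ad7a55_nt.TEx

/-! The proportion of exceptional points in a Galois orbit. -/

set_option autoImplicit false

noncomputable section

open Finset Matrix UpperHalfPlane

namespace Pool.Agent.EQ

theorem tfc_core (F : IntermediateField ℚ ℂ) [FiniteDimensional ℚ F] {n : ℕ} {τ : Fin n → ℍ}
    {D : Fin n → ℤ} (hτ : ∀ k, HasDisc (τ k) (D k)) (k l : Fin n) {E : ℤ} {g₁ g₂ : ℕ} (hE : IsD E)
    (hg : Nat.Coprime g₁ g₂) (e1 : D k = g₁ ^ 2 * E) (e2 : D l = g₂ ^ 2 * E) (b1 : D k < -576)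
    (b2 : D l < -576) {S : Set (ℂ × ℂ)} (hS : S.Finite) {A : Set (Fin n → ℂ)}
    (hA : ∀ z ∈ A, z ∈ (galOrbit F fun k => jInv (τ k)) ∧ (z k, z l) ∈ S) :
    (A.ncard : ℝ) * (Cl ((g₁ * g₂ : ℕ) ^ 2 * E)).ncard ≤
      15 * Module.finrank ℚ F * S.ncard * (galOrbit F fun k => jInv (τ k)).ncard := by
  have hO := orbit_finite F hτ
  have hfin : (orb2 F (jInv (τ k)) (jInv (τ l))).Finite := by
    refine (hO.image fun z => (z k, z l)).subset ?_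
    rintro _ ⟨σ, hσ, rfl⟩
    exact ⟨_, ⟨σ, hσ, rfl⟩, rfl⟩
  have a2 := orbit_lower hE hg (e1 ▸ discL_one (hτ k)) (e2 ▸ discL_one (hτ l)) (e1 ▸ b1) (e2 ▸ b2)
  rw [jL_one, jL_one] at a2
  have a3 : ((Cl ((g₁ * g₂ : ℕ) ^ 2 * E)).ncard : ℝ) ≤
      15 * (Module.finrank ℚ F * (orb2 F (jInv (τ k)) (jInv (τ l))).ncard) := by
    exact_mod_cast a2.trans (Nat.mul_le_mul_left _ (card_orb2_bot F hfin).2)
  have a5 : (A.ncard : ℝ) * (orb2 F (jInv (τ k)) (jInv (τ l))).ncard ≤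
      S.ncard * (galOrbit F fun k => jInv (τ k)).ncard := by
    exact_mod_cast (Nat.mul_le_mul_right _ (Set.ncard_le_ncard (fun z hz => hA z hz)
      (hO.subset fun z hz => hz.1))).trans (frac_le hO k l hS)
  have a6 := mul_le_mul_of_nonneg_left a3 (Nat.cast_nonneg (α := ℝ) A.ncard)
  have a7 := mul_le_mul_of_nonneg_left a5
    (show (0 : ℝ) ≤ 15 * Module.finrank ℚ F by positivity)
  linarith

theorem tfc_fin {A O S c H K L δ : ℝ} (hA : A * c ≤ K * S * O)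
    (hS : S ≤ δ / (K * (|L| + 1)) * H) (hH : H ≤ L * c) (hH0 : 0 < H) (hc : 0 ≤ c) (hK : 0 < K)
    (hO : 0 ≤ O) (hδ : 0 < δ) : A ≤ δ * O := by
  have hc0 : 0 < c := by
    refine lt_of_le_of_ne hc fun h => ?_
    rw [← h, mul_zero] at hH
    linarith
  have h1 : H ≤ (|L| + 1) * c :=
    hH.trans (mul_le_mul_of_nonneg_right (by linarith [le_abs_self L]) hc)
  have h2 := hS.trans (mul_le_mul_of_nonneg_left h1 (by positivity))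
  have h3 := mul_le_mul_of_nonneg_right (mul_le_mul_of_nonneg_left h2 hK.le) hO
  have h4 : K * (δ / (K * (|L| + 1)) * ((|L| + 1) * c)) * O = δ * O * c := by field_simp
  exact le_of_mul_le_mul_right (by linarith) hc0

theorem tfc_HH {D : ℤ} (hD : IsD D) : 0 < HH D :=
  mul_pos (Real.sqrt_pos.2 (by linarith [tti_three hD])) (EE_pos _ _)

theorem tfc_rank (F : IntermediateField ℚ ℂ) [FiniteDimensional ℚ F] :
    (0 : ℝ) < 15 * Module.finrank ℚ F := by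
  have hd : (0 : ℝ) < Module.finrank ℚ F := by exact_mod_cast Module.finrank_pos
  positivity

theorem orbit_one (F : IntermediateField ℚ ℂ) [FiniteDimensional ℚ F] {n : ℕ} {τ : Fin n → ℍ}
    {D : Fin n → ℤ} (h : ∀ k, HasDisc (τ k) (D k)) (k : Fin n) (hk : D k < -576) {S : Set ℂ}
    (hS : S.Finite) :
    ({z | z ∈ (galOrbit F fun k => jInv (τ k)) ∧ z k ∈ S}.ncard : ℝ) * (Cl (D k)).ncard ≤
      15 * Module.finrank ℚ F * S.ncard * (galOrbit F fun k => jInv (τ k)).ncard := by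
  have h1 := tfc_core F h k k (g₁ := 1) (g₂ := 1) (h k).isD (Nat.coprime_one_left 1) (by simp)
    (by simp) hk hk (hS.image fun z => (z, z))
    (A := {z | z ∈ (galOrbit F fun k => jInv (τ k)) ∧ z k ∈ S}) fun z hz => ⟨hz.1, z k, hz.2, rfl⟩
  rw [Set.ncard_image_of_injective _ fun a b hab => congrArg Prod.fst hab] at h1
  simpa using h1

theorem orbit_two (F : IntermediateField ℚ ℂ) [FiniteDimensional ℚ F] {n : ℕ} {τ : Fin n → ℍ}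
    {D : Fin n → ℤ} (h : ∀ k, HasDisc (τ k) (D k)) (k : Fin n) (hk : D k < -576)
    {S : Set (ℂ × ℂ)} (hS : S.Finite) :
    ({w : (Fin n → ℂ) × (Fin n → ℂ) | w.1 ∈ (galOrbit F fun k => jInv (τ k)) ∧
        w.2 ∈ (galOrbit F fun k => jInv (τ k)) ∧ (w.1 k, w.2 k) ∈ S}.ncard : ℝ) *
        (Cl (D k)).ncard ^ 2 ≤
      (15 * Module.finrank ℚ F) ^ 2 * S.ncard * (galOrbit F fun k => jInv (τ k)).ncard ^ 2 := by
  have hO := orbit_finite F h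
  obtain ⟨A, hA⟩ : ∃ A : ℂ → Set (Fin n → ℂ), A = fun a =>
      {z | z ∈ (galOrbit F fun k => jInv (τ k)) ∧ z k ∈ ({a} : Set ℂ)} := ⟨_, rfl⟩
  have hAf : ∀ a, (A a).Finite := fun a => hO.subset (by rw [hA]; exact fun z hz => hz.1)
  have h1 : ∀ a, ((A a).ncard : ℝ) * (Cl (D k)).ncard ≤
      15 * Module.finrank ℚ F * (galOrbit F fun k => jInv (τ k)).ncard := fun a => by
    have := orbit_one F h k hk (Set.finite_singleton a)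
    rw [Set.ncard_singleton, Nat.cast_one, mul_one] at this
    rw [hA]
    exact this
  have h2 : {w : (Fin n → ℂ) × (Fin n → ℂ) | w.1 ∈ (galOrbit F fun k => jInv (τ k)) ∧
      w.2 ∈ (galOrbit F fun k => jInv (τ k)) ∧ (w.1 k, w.2 k) ∈ S}.ncard ≤
      ∑ s ∈ hS.toFinset, (A s.1).ncard * (A s.2).ncard := by
    refine le_trans (Set.ncard_le_ncard (t := ⋃ s ∈ hS.toFinset, A s.1 ×ˢ A s.2) ?_
      (Set.Finite.biUnion (Finset.finite_toSet _) fun s _ => (hAf _).prod (hAf _))) ?_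
    · rintro w ⟨a1, a2, a3⟩
      refine Set.mem_biUnion (hS.mem_toFinset.2 a3) ?_
      rw [hA]
      exact ⟨⟨a1, rfl⟩, a2, rfl⟩
    · exact (Finset.set_ncard_biUnion_le _ _).trans
        (Finset.sum_le_sum fun s _ => Set.ncard_prod.le)
  have h3 := mul_le_mul_of_nonneg_right ((Nat.cast_le (α := ℝ)).2 h2)
    (sq_nonneg ((Cl (D k)).ncard : ℝ))
  refine h3.trans ?_
  rw [Nat.cast_sum, Finset.sum_mul]
  refine (Finset.sum_le_card_nsmul _ _ ((15 * Module.finrank ℚ F *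
    (galOrbit F fun k => jInv (τ k)).ncard : ℝ) ^ 2) fun s _ => ?_).trans (le_of_eq ?_)
  · refine le_trans (le_of_eq ?_) ((mul_le_mul (h1 s.1) (h1 s.2) (by positivity)
      (by positivity)).trans_eq (sq _).symm)
    push_cast
    ring
  · rw [nsmul_eq_mul, ← Set.ncard_eq_toFinset_card _ hS]
    ring

variable (p : ℕ) [Fact p.Prime]

theorem frac_bad1' (F : IntermediateField ℚ ℂ) [FiniteDimensional ℚ F] (C L : ℝ) {δ : ℝ}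
    (hδ : 0 < δ) : ∃ r : ℕ, ∀ (n : ℕ) (τ : Fin n → ℍ) (D : Fin n → ℤ),
      (∀ k, HasDisc (τ k) (D k)) → ∀ k, D k < -576 → Low L (D k) →
      ‖(D k : ℚ_[p])‖ ≤ (p : ℝ) ^ (-(r : ℤ)) →
      ({z | z ∈ (galOrbit F fun k => jInv (τ k)) ∧ Bad1 p C (D k) (z k)}.ncard : ℝ) ≤
        δ * (galOrbit F fun k => jInv (τ k)).ncard := by
  have hp : p.Prime := Fact.out
  have hp1 : (1 : ℝ) < p := by exact_mod_cast hp.one_lt
  have hK := tfc_rank F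
  obtain ⟨m, hm⟩ := Sh_dvd hp C (δ := δ / (15 * Module.finrank ℚ F * (|L| + 1))) (by positivity)
  obtain ⟨s, hs⟩ := pow_unbounded_of_one_lt C hp1
  refine ⟨m + s, fun n τ D hτ k hk hL hD => ?_⟩
  refine le_trans ?_ (tfc_fin (orbit_one F hτ k hk (tti_finite (D k) C (p ^ m))) (hm _ (hτ k).isD)
    (hL _ (hτ k).isD ⟨_, rfl⟩) (tfc_HH (hτ k).isD) (Nat.cast_nonneg _) hK (Nat.cast_nonneg _) hδ)
  refine Nat.cast_le.2 (Set.ncard_le_ncard ?_ ((orbit_finite F hτ).subset fun z hz => hz.1))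
  rintro z ⟨hz, a, -, a1, a2, a3⟩
  refine ⟨hz, a, a1, ?_, a3⟩
  have h1 : ‖((a : ℤ) : ℚ_[p])‖ ≤ (p : ℝ) ^ (-(m : ℤ)) := by
    rw [Int.cast_natCast]
    refine a2.trans ((mul_le_mul hs.le hD (norm_nonneg _) (by positivity)).trans_eq ?_)
    rw [← zpow_natCast, ← zpow_add₀ (by positivity)]
    congr 1
    push_cast
    ring
  exact_mod_cast (Padic.norm_int_le_pow_iff_dvd _ _).1 h1

omit [Fact p.Prime] in
theorem frac_sh (F : IntermediateField ℚ ℂ) [FiniteDimensional ℚ F] (L : ℝ) {δ : ℝ}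
    (hδ : 0 < δ) : ∃ t Y : ℝ, 0 < t ∧ ∀ (n : ℕ) (τ : Fin n → ℍ) (D : Fin n → ℤ),
      (∀ k, HasDisc (τ k) (D k)) → ∀ k, D k < -576 → Low L (D k) → Y ≤ -(D k : ℝ) →
      ({z | z ∈ (galOrbit F fun k => jInv (τ k)) ∧ z k ∈ Sh (D k) t 1}.ncard : ℝ) ≤
        δ * (galOrbit F fun k => jInv (τ k)).ncard := by
  have hK := tfc_rank F
  obtain ⟨K, hK0, hS⟩ := Sh_le
  obtain ⟨t, ht⟩ : ∃ t : ℝ, t = δ / (15 * Module.finrank ℚ F * (|L| + 1)) / K := ⟨_, rfl⟩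
  have ht0 : 0 < t := by rw [ht]; positivity
  refine ⟨t, max (1 / t ^ 4) t, ht0, fun n τ D hτ k hk hL hY => ?_⟩
  refine tfc_fin (orbit_one F hτ k hk (tti_finite (D k) t 1)) ?_
    (hL _ (hτ k).isD ⟨_, rfl⟩) (tfc_HH (hτ k).isD) (Nat.cast_nonneg _) hK (Nat.cast_nonneg _) hδ
  refine (hS _ t (hτ k).isD ?_ ht0.le ((le_max_right _ _).trans hY)).trans_eq ?_
  · have := (le_max_left _ _).trans hY
    rwa [div_le_iff₀' (by positivity)] at this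
  · rw [ht, mul_div_cancel₀ _ hK0.ne']

theorem frac_bad3 (F : IntermediateField ℚ ℂ) [FiniteDimensional ℚ F] {m : ℤ} (hm : m ≠ 0)
    (C L : ℝ) (c : ℕ) {δ : ℝ} (hδ : 0 < δ) : ∃ r N₀ : ℕ, 0 < N₀ ∧ ∀ (n : ℕ) (τ : Fin n → ℍ)
      (D : Fin n → ℤ), (∀ k, HasDisc (τ k) (D k)) → ∀ (k l : Fin n) (ρ₁ ρ₂ : ℚ), D k < -576 →
      D l < -576 → 0 < ρ₁ → 0 < ρ₂ → ρ₁ ^ 2 * D k = ρ₂ ^ 2 * D l →
      ‖(ρ₁ : ℚ_[p])‖ ≤ (p : ℝ) ^ c * ‖(ρ₂ : ℚ_[p])‖ → ‖(ρ₂ : ℚ_[p])‖ ≤ (p : ℝ) ^ c * ‖(ρ₁ : ℚ_[p])‖ →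
      Low L (D k) → (∀ σ : ℂ ≃+* ℂ, ¬ Isog N₀ (σ (jInv (τ k))) (σ (jInv (τ l)))) →
      ({z | z ∈ (galOrbit F fun k => jInv (τ k)) ∧ ∃ M₁ M₂, DiscL M₁ (D k) ∧ DiscL M₂ (D l) ∧
        jL M₁ = z k ∧ jL M₂ = z l ∧ Bad3 p m C r (D k) (D l) M₁ M₂}.ncard : ℝ) ≤
        δ * (galOrbit F fun k => jInv (τ k)).ncard := by
  have hp : p.Prime := Fact.out
  have hp1 : (1 : ℝ) < p := by exact_mod_cast hp.one_lt
  have hK := tfc_rank F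
  obtain ⟨r, N₀, hN, hex⟩ := ex4_le p hm C (2 * c)
    (δ := δ / (15 * Module.finrank ℚ F * (|L| + 1)) / 2) (by positivity)
  refine ⟨r, N₀, hN, fun n τ D hτ k l ρ₁ ρ₂ hk hl h₁ h₂ hρ n₁ n₂ hL hI => ?_⟩
  obtain ⟨E, g₁, g₂, hE, p₁, p₂, hg, e₁, e₂, hr⟩ := split_disc (hτ k).isD (hτ l).isD h₁ h₂ hρ
  have hn : ‖(ρ₁ : ℚ_[p])‖ * ‖(g₁ : ℚ_[p])‖ = ‖(ρ₂ : ℚ_[p])‖ * ‖(g₂ : ℚ_[p])‖ := by
    rw [← norm_mul, ← norm_mul]
    exact congrArg _ (by exact_mod_cast congrArg (fun q : ℚ => (q : ℚ_[p])) hr)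
  have r₁ : 0 < ‖(ρ₁ : ℚ_[p])‖ := norm_pos_iff.2 (by exact_mod_cast h₁.ne')
  have r₂ : 0 < ‖(ρ₂ : ℚ_[p])‖ := norm_pos_iff.2 (by exact_mod_cast h₂.ne')
  have u₁ : (p : ℝ) ^ (-(c : ℤ)) ≤ ‖(g₁ : ℚ_[p])‖ := ctg_unit p hg (le_of_mul_le_mul_left (by
    have := mul_le_mul_of_nonneg_right n₁ (norm_nonneg (g₁ : ℚ_[p]))
    linarith) r₂)
  have u₂ : (p : ℝ) ^ (-(c : ℤ)) ≤ ‖(g₂ : ℚ_[p])‖ := ctg_unit p hg.symm (le_of_mul_le_mul_left (by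
    have := mul_le_mul_of_nonneg_right n₂ (norm_nonneg (g₂ : ℚ_[p]))
    linarith) r₁)
  have hv : padicValNat p (g₁ * g₂) ≤ 2 * c := by
    by_contra hv
    have h1 : p ^ (2 * c + 1) ∣ g₁ * g₂ :=
      (padicValNat_dvd_iff_le (Nat.mul_pos p₁ p₂).ne').2 (by omega)
    have h2 := (Padic.norm_int_le_pow_iff_dvd (p := p) ((g₁ * g₂ : ℕ) : ℤ) (2 * c + 1)).2
      (by exact_mod_cast h1)
    rw [Int.cast_natCast, Nat.cast_mul, norm_mul] at h2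
    have h3 := (mul_le_mul u₁ u₂ (by positivity) (norm_nonneg _)).trans h2
    rw [← zpow_add₀ (by positivity), zpow_le_zpow_iff_right₀ hp1] at h3
    push_cast at h3
    omega
  have hb := hex E g₁ g₂ hE p₁ p₂ hg hv
  obtain ⟨w, w', hw⟩ := orbit_classes hE hg (e₁ ▸ discL_one (hτ k)) (e₂ ▸ discL_one (hτ l))
    (e₁ ▸ hk) (e₂ ▸ hl)
  have hf : ∀ w, {z | z ∈ Ex4 p m C r E g₁ g₂ w ∧ ¬ Isog N₀ z.1 z.2}.Finite := fun w => by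
    refine ((Cl_finite (g₁ ^ 2 * E)).prod (Cl_finite (g₂ ^ 2 * E))).subset ?_
    rintro z ⟨⟨M₁, M₂, a₁, a₂, b₁, b₂, -⟩, -⟩
    exact ⟨⟨M₁, a₁, b₁⟩, ⟨M₂, a₂, b₂⟩⟩
  have hD := cm_isD_sq hE (Nat.mul_pos p₁ p₂)
  refine tfc_fin (tfc_core F hτ k l hE hg e₁ e₂ hk hl ((hf w).union (hf w')) ?_) ?_
    (hL _ hD ⟨g₁ * (g₁ * g₂ : ℕ) * E, by rw [e₁]; ring⟩) (tfc_HH hD) (Nat.cast_nonneg _) hK
    (Nat.cast_nonneg _) hδ
  · rintro z ⟨hz, M₁, M₂, m₁, m₂, j₁, j₂, hbad⟩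
    refine ⟨hz, ?_⟩
    obtain ⟨σ, -, rfl⟩ := hz
    rw [e₁] at m₁ hbad
    rw [e₂] at m₂ hbad
    exact (hw σ M₁ M₂ m₁.isLat m₂.isLat (by rw [j₁, jL_one]) (by rw [j₂, jL_one])).imp
      (fun h => ⟨⟨M₁, M₂, m₁, m₂, j₁, j₂, h, hbad⟩, hI σ⟩)
      fun h => ⟨⟨M₁, M₂, m₁, m₂, j₁, j₂, h, hbad⟩, hI σ⟩
  · have h3 := (Nat.cast_le (α := ℝ)).2 (Set.ncard_union_le
      {z | z ∈ Ex4 p m C r E g₁ g₂ w ∧ ¬ Isog N₀ z.1 z.2}
      {z | z ∈ Ex4 p m C r E g₁ g₂ w' ∧ ¬ Isog N₀ z.1 z.2})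
    rw [Nat.cast_add] at h3
    linarith [hb w, hb w']

theorem Bad2.bad3 {n : ℤ} {c r : ℕ} {D₁ D₂ : ℤ} {M₁ M₂ : Lt} (h : Bad2 p n c D₁ D₂ M₁ M₂)
    (hD : ‖(D₂ : ℚ_[p])‖ ≤ (p : ℝ) ^ (-((r + c : ℕ) : ℤ))) :
    Bad3 p n ((p : ℝ) ^ c) r D₁ D₂ M₁ M₂ := by
  have hp : (0 : ℝ) < p := by exact_mod_cast (Fact.out : p.Prime).pos
  obtain ⟨α, β, B, hB, h1, h2, h3, h4, h5, h6, -⟩ := h
  refine ⟨α, β, B, by exact_mod_cast hB, ⟨h1, by exact_mod_cast h2, h3, h4, h5⟩, ?_⟩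
  rw [Int.cast_natCast]
  refine h6.trans ((mul_le_mul_of_nonneg_left hD (by positivity)).trans_eq ?_)
  rw [mul_right_comm, ← zpow_natCast, ← zpow_add₀ hp.ne']
  congr 2
  push_cast
  ring

end Pool.Agent.EQ
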