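import Pool.Agent.P.MP_ad7a55_nt.TDt
import Pool.Agent.P.MP_ad7a55_nt.CtE

/-! From pairs of lattices to configurations. -/

set_option autoImplicit false

noncomputable section

open Finset Matrix UpperHalfPlane

namespace Pool.Agent.EQ

/-- Coordinates in the basis `1, -τ`. -/
def ev (τ : ℍ) (v : Fin 2 → ℤ) : ℂ := v 0 - v 1 * τ

/-- `Θ` is the matrix of `√E` in the basis `1, -τ`. -/
def TauTh (E : ℤ) (τ : ℍ) (Θ : M2) : Prop :=
  ∃ A B C : ℤ, 0 < A ∧ Int.gcd (Int.gcd A B) C = 1 ∧ B ^ 2 - 4 * A * C = E ∧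
    (A : ℂ) * (τ : ℂ) ^ 2 + B * τ + C = 0 ∧ Θ = Th A B C

/-- A bounded real linear map of degree `n` between two lattices. -/
structure Hm (n : ℤ) (C : ℝ) (D₁ D₂ : ℤ) (M₁ M₂ : Lt) (α β : ℂ) (B : ℤ) : Prop where
  map : ∀ z ∈ M₁, rl α β z ∈ M₂
  inv : Real.sqrt (D₁ * D₂) * Complex.normSq β * vol M₁ = B * vol M₂
  deg : (Complex.normSq α - Complex.normSq β) * vol M₁ = n * vol M₂
  le₁ : Complex.normSq α * vol M₁ ≤ C * vol M₂
  le₂ : Complex.normSq β * vol M₁ ≤ C * vol M₂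

/-- Exceptional pairs: the invariant `B` is highly divisible by `p`. -/
def Bad3 (p : ℕ) [Fact p.Prime] (n : ℤ) (C : ℝ) (r : ℕ) (D₁ D₂ : ℤ) (M₁ M₂ : Lt) : Prop :=
  ∃ (α β : ℂ) (B : ℤ), 0 < B ∧ Hm n C D₁ D₂ M₁ M₂ α β B ∧
    ‖(B : ℚ_[p])‖ ≤ (p : ℝ) ^ (-(r : ℤ)) * ‖(D₁ : ℚ_[p])‖

/-- The map respects an eigenvector modulo `q`. -/
def LvP (q : ℕ) (b₀ E : ℤ) (M₁ M₂ : Lt) (α β : ℂ) : Prop :=
  2 ∣ b₀ - E ∧ ∃ v ∈ M₁, (∀ l : ℕ, l.Prime → l ∣ q → v ∉ pr l * M₁) ∧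
    (th E - b₀) / 2 * v ∈ pr q * M₁ ∧ (th E - b₀) / 2 * rl α β v ∈ pr q * M₂

/-- Pairs of classes that are close and share a level structure. -/
def LevP (q : ℕ) (b₀ : ℤ) (C : ℝ) (E : ℤ) : Set (ℂ × ℂ) :=
  {z | ∃ (M₁ M₂ : Lt) (α β : ℂ) (B : ℤ), DiscL M₁ E ∧ DiscL M₂ E ∧ jL M₁ = z.1 ∧ jL M₂ = z.2 ∧
    Hm 1 C E E M₁ M₂ α β B ∧ LvP q b₀ E M₁ M₂ α β}

theorem tga_ev_inj {τ : ℍ} {v w : Fin 2 → ℤ} (h : ev τ v = ev τ w) : v = w := by
  obtain ⟨h0, h1⟩ := ord_indep τ (m := v 0 - w 0) (n := w 1 - v 1) (by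
    simp only [ev] at h
    push_cast
    linear_combination h)
  funext i
  fin_cases i
  · exact sub_eq_zero.1 h0
  · exact (sub_eq_zero.1 h1).symm

theorem tga_mat_ext {τ : ℍ} {η η' : M2} (h : ∀ v, ev τ (η *ᵥ v) = ev τ (η' *ᵥ v)) : η = η' := by
  ext i j
  have h1 := congrFun (tga_ev_inj (h (Pi.single j 1))) i
  simpa only [Matrix.mulVec_single_one, Matrix.col_apply] using h1

theorem tga_ev_mul (τ : ℍ) (η : M2) (v : Fin 2 → ℤ) : ev τ (η *ᵥ v) =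
    v 0 * ((η 0 0 : ℂ) - η 1 0 * τ) + v 1 * ((η 0 1 : ℂ) - η 1 1 * τ) := by
  simp only [ev, Matrix.mulVec, dotProduct, Fin.sum_univ_two]
  push_cast
  ring

theorem tga_ev_comb (τ : ℍ) (η η' : M2) (x y : ℤ) (v : Fin 2 → ℤ) :
    ev τ ((x • η + y • η') *ᵥ v) = x * ev τ (η *ᵥ v) + y * ev τ (η' *ᵥ v) := by
  simp only [tga_ev_mul, Matrix.add_apply, Matrix.smul_apply, smul_eq_mul]
  push_cast
  ring

theorem tga_ev_sub (τ : ℍ) (η η' : M2) (x y : ℤ) (v : Fin 2 → ℤ) :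
    ev τ ((x • η - y • η') *ᵥ v) = x * ev τ (η *ᵥ v) - y * ev τ (η' *ᵥ v) := by
  simp only [tga_ev_mul, Matrix.sub_apply, Matrix.smul_apply, smul_eq_mul]
  push_cast
  ring

theorem tga_cols {c lam mu : ℂ} {τ : ℍ} {η : M2}
    (h : ∀ v, c * ev τ (η *ᵥ v) = rl lam mu (c * ev τ v)) :
    rl lam mu c = (η 0 0 : ℤ) * c + (-η 1 0 : ℤ) * (c * τ) ∧
      rl lam mu (c * τ) = (-η 0 1 : ℤ) * c + (η 1 1 : ℤ) * (c * τ) := by
  have h0 := h ![1, 0]
  have h1 := h ![0, -1]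
  rw [tga_ev_mul] at h0 h1
  simp only [ev, Matrix.cons_val_zero, Matrix.cons_val_one, Int.cast_one, Int.cast_zero,
    Int.cast_neg, zero_mul, sub_zero, mul_one, one_mul, add_zero, zero_add, neg_mul, zero_sub,
    neg_neg] at h0 h1
  rw [← h0, ← h1]
  push_cast
  constructor <;> ring

/-- Trace and determinant of a real linear map. -/
theorem tga_tr_det {c lam mu : ℂ} (hc : c ≠ 0) {τ : ℍ} {η : M2}
    (h : ∀ v, c * ev τ (η *ᵥ v) = rl lam mu (c * ev τ v)) :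
    (η.trace : ℝ) = 2 * lam.re ∧ (η.det : ℝ) = Complex.normSq lam - Complex.normSq mu := by
  obtain ⟨h0, h1⟩ := tga_cols h
  have hv := vol_pos (isLat_sp hc τ)
  constructor
  · have e : ((η 0 0 : ℂ) - η 1 0 * τ) * starRingEnd ℂ τ + ((η 0 1 : ℂ) - η 1 1 * τ)
        = lam * (starRingEnd ℂ τ - τ) := by
      apply mul_left_cancel₀ hc
      simp only [rl, map_mul] at h0 h1
      push_cast at h0 h1
      linear_combination h1 - starRingEnd ℂ τ * h0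
    have e1 := congrArg Complex.im e
    simp only [Complex.add_im, Complex.sub_im, Complex.mul_im, Complex.sub_re, Complex.mul_re,
      Complex.intCast_re, Complex.intCast_im, Complex.conj_re, Complex.conj_im, coe_re,
      coe_im] at e1
    rw [Matrix.trace_fin_two]
    push_cast
    apply mul_right_cancel₀ τ.im_pos.ne'
    linear_combination -e1
  · have e3 := cte_im lam mu c (c * τ)
    rw [h0, h1, cte_im_int, cte_im_vol hc] at e3
    rw [← mul_right_cancel₀ hv.ne' e3, Matrix.det_fin_two]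
    push_cast
    ring

theorem tga_coord {τ : ℍ} (hτ : τ ∈ ModularGroup.fd) {u w : ℤ} {S : ℝ}
    (h : ‖(u : ℂ) - w * τ‖ ≤ S) : |(u : ℝ)| ≤ 8 / 5 * S ∧ |(w : ℝ)| ≤ 8 / 5 * S := by
  have hy := τ.im_pos
  have hy3 := ModularGroup.three_le_four_mul_im_sq_of_mem_fd hτ
  have hy5 : 5 / 6 ≤ τ.im := by nlinarith
  have h1 := (Complex.abs_re_le_norm _).trans h
  have h2 := (Complex.abs_im_le_norm _).trans h
  simp only [Complex.sub_re, Complex.sub_im, Complex.mul_re, Complex.mul_im, Complex.intCast_re,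
    Complex.intCast_im, zero_mul, sub_zero, add_zero, zero_sub, abs_neg, coe_re, coe_im] at h1 h2
  rw [abs_mul, abs_of_pos hy] at h2
  have h3 : |(w : ℝ)| ≤ 6 / 5 * S := by nlinarith [abs_nonneg (w : ℝ)]
  have h4 : |(w : ℝ) * τ.re| ≤ |(w : ℝ)| * (1 / 2) := by
    rw [abs_mul]
    exact mul_le_mul_of_nonneg_left hτ.2 (abs_nonneg _)
  have h5 : |(u : ℝ)| ≤ |(u : ℝ) - w * τ.re| + |(w : ℝ) * τ.re| := by
    simpa using abs_add_le ((u : ℝ) - w * τ.re) (w * τ.re)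
  have h6 : 0 ≤ S := (abs_nonneg _).trans h1
  constructor <;> linarith

/-- The entries of a bounded real linear map. -/
theorem tga_bd {c lam mu : ℂ} (hc : c ≠ 0) {τ : ℍ} {η : M2}
    (h : ∀ v, c * ev τ (η *ᵥ v) = rl lam mu (c * ev τ v)) (hτ : τ ∈ ModularGroup.fd) {R : ℝ}
    (h1 : ‖lam‖ ≤ R) (h2 : ‖mu‖ ≤ R) (i j : Fin 2) : |(η i j : ℝ)| ≤ 8 * τ.im * R := by
  have hy := τ.im_pos
  have hy3 := ModularGroup.three_le_four_mul_im_sq_of_mem_fd hτ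
  have hy5 : 5 / 6 ≤ τ.im := by nlinarith
  have hR : 0 ≤ R := (norm_nonneg _).trans h1
  have hn : 0 < ‖c‖ := norm_pos_iff.2 hc
  have key : ∀ v, ‖ev τ (η *ᵥ v)‖ ≤ 2 * R * ‖ev τ v‖ := fun v => by
    have e : ‖c‖ * ‖ev τ (η *ᵥ v)‖ ≤ ‖c‖ * (2 * R * ‖ev τ v‖) := by
      rw [← norm_mul, h, rl]
      refine (norm_add_le _ _).trans ?_
      rw [norm_mul, norm_mul mu, Complex.norm_conj, norm_mul]
      have h3 : 0 ≤ ‖c‖ * ‖ev τ v‖ := by positivity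
      nlinarith [mul_le_mul_of_nonneg_right h1 h3, mul_le_mul_of_nonneg_right h2 h3]
    exact le_of_mul_le_mul_left e hn
  have hτn : ‖(τ : ℂ)‖ ≤ 8 / 5 * τ.im := by
    have h3 := Complex.norm_le_abs_re_add_abs_im (τ : ℂ)
    rw [coe_re, coe_im, abs_of_pos hy] at h3
    linarith [hτ.2]
  have k0 := key ![1, 0]
  have k1 := key ![0, 1]
  rw [tga_ev_mul] at k0 k1
  simp only [ev, Matrix.cons_val_zero, Matrix.cons_val_one, Int.cast_one, Int.cast_zero,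
    zero_mul, sub_zero, mul_one, one_mul, add_zero, zero_add, zero_sub, norm_one,
    norm_neg] at k0 k1
  obtain ⟨a0, a1⟩ := tga_coord hτ k0
  obtain ⟨b0, b1⟩ := tga_coord hτ k1
  have c0 : 8 / 5 * (2 * R) ≤ 8 * τ.im * R := by nlinarith
  have c1 : 8 / 5 * (2 * R * ‖(τ : ℂ)‖) ≤ 8 * τ.im * R := by
    nlinarith [mul_le_mul_of_nonneg_left hτn hR, mul_nonneg hy.le hR]
  fin_cases i <;> fin_cases j
  · exact a0.trans c0
  · exact b0.trans c1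
  · exact a1.trans c0
  · exact b1.trans c1

theorem tga_hm_scale {n D₁ D₂ B : ℤ} {C : ℝ} {M₁ M₂ : Lt} {α β s : ℂ} (h₂ : IsLat M₂) (hs : s ≠ 0)
    (h : Hm n C D₁ D₂ M₁ M₂ α β B) : Hm n C D₁ D₂ M₁ (pr s * M₂) (s * α) (s * β) B := by
  have hn := Complex.normSq_nonneg s
  refine ⟨fun z hz => mem_pr_mul.2 ⟨_, h.map z hz, ?_⟩, ?_, ?_, ?_, ?_⟩
  · simp only [rl]
    ring
  · rw [vol_pr_mul h₂ hs, map_mul]
    linear_combination Complex.normSq s * h.inv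
  · rw [vol_pr_mul h₂ hs, map_mul, map_mul]
    linear_combination Complex.normSq s * h.deg
  · rw [vol_pr_mul h₂ hs, map_mul]
    nlinarith [mul_le_mul_of_nonneg_left h.le₁ hn]
  · rw [vol_pr_mul h₂ hs, map_mul]
    nlinarith [mul_le_mul_of_nonneg_left h.le₂ hn]

theorem TauTh.mul {E : ℤ} {τ : ℍ} {Θ : M2} (h : TauTh E τ Θ) (v : Fin 2 → ℤ) :
    ev τ (Θ *ᵥ v) = th E * ev τ v := by
  obtain ⟨A, B, C, hA, -, rfl, he, rfl⟩ := h
  rw [← HasDisc.root hA he, tga_ev_mul]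
  simp only [Th, ev, Matrix.of_apply, Matrix.cons_val', Matrix.cons_val_zero, Matrix.cons_val_one,
    Matrix.cons_val_fin_one]
  push_cast
  linear_combination (2 * (v 1 : ℂ)) * he

theorem TauTh.unique {E : ℤ} {τ : ℍ} {Θ Θ' : M2} (h : TauTh E τ Θ) (h' : TauTh E τ Θ') :
    Θ = Θ' := by
  exact tga_mat_ext fun v => by rw [h.mul, h'.mul]

namespace Dt

variable (d : Dt)

/-- The ideal of the form. -/
def LL : Lt := sp d.a ((d.b - th d.E) / 2)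

/-- `η` is the matrix of the adjoint of the map composed with multiplication by `e`. -/
def Lk (M₁ : Lt) (α β c : ℂ) (τ : ℍ) (e : ℂ) (η : M2) : Prop :=
  ∀ v : Fin 2 → ℤ, d.g₁ * rl α β (c * ev τ (η *ᵥ v)) =
    d.m * (e / nm d.E (M₁ * OD d.E)) * (c * ev τ v)

/-- The geometric data behind a configuration. -/
structure Geo (C : ℝ) (M₁ M₂ : Lt) (α β c : ℂ) (τ : ℍ) (Θ η₁ η₂ : M2) (B : ℤ) : Prop where
  d₁ : DiscL M₁ (d.g₁ ^ 2 * d.E)
  d₂ : DiscL M₂ (d.g₂ ^ 2 * d.E)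
  ll : M₂ * cj M₁ = d.LL
  hm : Hm d.n C (d.g₁ ^ 2 * d.E) (d.g₂ ^ 2 * d.E) M₁ M₂ α β B
  ne : c ≠ 0
  bas : M₁ * OD d.E = sp c (c * τ)
  th : TauTh d.E τ Θ
  k₁ : d.Lk M₁ α β c τ d.a η₁
  k₂ : d.Lk M₁ α β c τ ((d.b - Pool.Agent.EQ.th d.E) / 2) η₂

/-- The pair `z` of invariants comes from geometric data. -/
def GZ (C : ℝ) (z : ℂ × ℂ) (τ : ℍ) (Θ η₁ η₂ : M2) (B : ℤ) : Prop :=
  ∃ (M₁ M₂ : Lt) (α β c : ℂ), jL M₁ = z.1 ∧ jL M₂ = z.2 ∧ d.Geo C M₁ M₂ α β c τ Θ η₁ η₂ B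

variable {d} {κ : ℕ} {C : ℝ} {M₁ M₂ : Lt} {α β c : ℂ} {τ : ℍ} {Θ η₁ η₂ : M2} {B : ℤ}

theorem tga_LL (h : d.Good κ) : DiscL d.LL d.E ∧ nm d.E d.LL = d.a := by
  have hE : (d.E : ℝ) < 0 := by exact_mod_cast h.E_neg
  have hs : 0 < Real.sqrt (-(d.E : ℝ)) := Real.sqrt_pos.2 (by linarith)
  have ha : (0 : ℝ) < d.a := by exact_mod_cast h.a_pos
  have ha' : (d.a : ℂ) ≠ 0 := by exact_mod_cast h.a_pos.ne'
  have him : ((th d.E - d.b) / (2 * d.a)).im = Real.sqrt (-(d.E : ℝ)) / (2 * d.a) := by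
    have e : (2 * d.a : ℂ) = ((2 * d.a : ℝ) : ℂ) := by push_cast; rfl
    rw [e, Complex.div_ofReal_im, Complex.sub_im, ord2_th_im, Complex.intCast_im, sub_zero]
  have hpos : 0 < ((th d.E - d.b) / (2 * d.a)).im := by
    rw [him]
    positivity
  have e : d.LL = sp d.a (d.a * ((⟨_, hpos⟩ : ℍ) : ℂ)) := by
    rw [LL, ← ord_sp_neg]
    congr 1
    change _ = d.a * ((th d.E - d.b) / (2 * d.a))
    field_simp
    ring
  have ht := th_sq h.E_neg.le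
  have hEc : (d.E : ℂ) = d.b ^ 2 - 4 * d.a * d.c := by
    rw [E]
    push_cast
    rfl
  refine ⟨⟨_, _, ha', e, d.a, d.b, d.c, h.a_pos, h.prim, ?_, rfl⟩, ?_⟩
  · change (d.a : ℂ) * ((th d.E - d.b) / (2 * d.a)) ^ 2 + d.b * ((th d.E - d.b) / (2 * d.a))
      + d.c = 0
    field_simp
    linear_combination ht + hEc
  · rw [e, nm, vol_sp ha']
    change 2 * (_ * ((th d.E - d.b) / (2 * d.a)).im) / _ = _
    rw [him, Complex.normSq_intCast]
    field_simp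

theorem Good.isD (h : d.Good κ) : IsD d.E := by
  exact (tga_LL h).1.isD

theorem Good.discL (h : d.Good κ) : DiscL d.LL d.E ∧ nm d.E d.LL = d.a := by
  exact tga_LL h

theorem tga_snd (h : d.Good κ) (h₁ : DiscL M₁ (d.g₁ ^ 2 * d.E)) (h₂ : DiscL M₂ (d.g₂ ^ 2 * d.E))
    (hl : M₂ * cj M₁ = d.LL) :
    M₂ * OD d.E = pr ((nm d.E (M₁ * OD d.E) : ℂ))⁻¹ * (d.LL * (M₁ * OD d.E)) ∧
      nm d.E (M₂ * OD d.E) * nm d.E (M₁ * OD d.E) = d.a := by
  have t₁ := (discL_up h.isD h₁).1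
  have t₂ := (discL_up h.isD h₂).1
  have e : d.LL = M₂ * OD d.E * cj (M₁ * OD d.E) := by
    rw [← hl, (discL_mul_cop h.isD h.cop.symm h₂ h₁.cj).2.2, cj_mul, cj_OD]
  have hN : ((nm d.E (M₁ * OD d.E) : ℝ) : ℂ) ≠ 0 := by exact_mod_cast t₁.nm_pos.ne'
  constructor
  · rw [e, mul_assoc (M₂ * OD d.E), mul_comm (cj _), t₁.mul_cj_nm, mul_left_comm (M₂ * OD d.E),
      mul_comm (M₂ * OD d.E), t₂.OD_mul, ← mul_assoc, pr_mul_pr, inv_mul_cancel₀ hN, pr_one_mul]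
  · rw [← h.discL.2, e, nm_mul t₂ t₁.cj le_rfl, nm_cj t₁.isLat]

theorem tga_lk (h : d.Good κ) (h₁ : DiscL M₁ (d.g₁ ^ 2 * d.E)) (h₂ : DiscL M₂ (d.g₂ ^ 2 * d.E))
    (hl : M₂ * cj M₁ = d.LL) (hm : Hm d.n C (d.g₁ ^ 2 * d.E) (d.g₂ ^ 2 * d.E) M₁ M₂ α β B)
    (hb : M₁ * OD d.E = sp c (c * τ)) {e : ℂ} (he : e ∈ d.LL) : ∃ η, d.Lk M₁ α β c τ e η := by
  obtain ⟨t₁, v₁, -, s₁⟩ := discL_up h.isD h₁
  obtain ⟨t₂, v₂, s₂, -⟩ := discL_up h.isD h₂
  have hr : ∀ z, rl (d.g₁ * α) (d.g₁ * β) z = d.g₁ * rl α β z := fun z => by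
    simp only [rl]
    ring
  have hi := rl_index (α := d.g₁ * α) (β := d.g₁ * β) (n := d.m) t₁.isLat t₂.isLat
    (fun z hz => by
      have h3 := s₂ (hm.map _ (pr_mul_le.1 s₁ z hz))
      refine (congrArg (· ∈ M₂ * OD d.E) ?_).mp h3
      simp only [rl, map_mul, map_natCast]
      ring)
    (by
      have h3 := hm.deg
      rw [v₁, v₂] at h3
      rw [map_mul, map_mul, Complex.normSq_natCast, m, G]
      push_cast
      linear_combination (d.g₁ : ℝ) * h3)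
  have hw : ∀ z ∈ M₁ * OD d.E, ∃ p q : ℤ, d.g₁ * rl α β (p * c + q * (c * τ)) =
      d.m * (e / nm d.E (M₁ * OD d.E) * z) := fun z hz => by
    obtain ⟨z', hz', e'⟩ := hi (e / nm d.E (M₁ * OD d.E) * z) (by
      rw [(tga_snd h h₁ h₂ hl).1]
      exact mem_pr_mul.2 ⟨_, Submodule.mul_mem_mul he hz, by ring⟩)
    rw [hb] at hz'
    obtain ⟨p, q, rfl⟩ := mem_sp.1 hz'
    exact ⟨p, q, by rw [← hr, e']⟩
  obtain ⟨p₀, q₀, e₀⟩ := hw c (hb ▸ ord_left _ _)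
  obtain ⟨p₁, q₁, e₁⟩ := hw (c * τ) (hb ▸ ord_right _ _)
  refine ⟨!![p₀, -p₁; -q₀, q₁], fun v => ?_⟩
  have e2 : c * ev τ (!![p₀, -p₁; -q₀, q₁] *ᵥ v) =
      (v 0 : ℤ) * (p₀ * c + q₀ * (c * τ)) + (-v 1 : ℤ) * (p₁ * c + q₁ * (c * τ)) := by
    rw [tga_ev_mul]
    simp only [Matrix.of_apply, Matrix.cons_val', Matrix.cons_val_zero, Matrix.cons_val_one,
      Matrix.cons_val_fin_one]
    push_cast
    ring
  rw [e2, cte_lin, ev]
  push_cast
  linear_combination (v 0 : ℂ) * e₀ - (v 1 : ℂ) * e₁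

theorem geo_ex (h : d.Good κ) (h₁ : DiscL M₁ (d.g₁ ^ 2 * d.E)) (h₂ : DiscL M₂ (d.g₂ ^ 2 * d.E))
    (hj : jL (M₂ * cj M₁) = jL d.LL)
    (hm : Hm d.n C (d.g₁ ^ 2 * d.E) (d.g₂ ^ 2 * d.E) M₁ M₂ α β B)
    (hτ : jInv τ = jL (M₁ * OD d.E)) : ∃ (s c : ℂ) (Θ η₁ η₂ : M2), s ≠ 0 ∧
      d.Geo C M₁ (pr s * M₂) (s * α) (s * β) c τ Θ η₁ η₂ B := by
  obtain ⟨s, hs, hl⟩ := jL_inj (discL_mul_cop h.isD h.cop.symm h₂ h₁.cj).1.isLat h.discL.1.isLat hj
  rw [← mul_assoc] at hl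
  have t₁ := (discL_up h.isD h₁).1
  obtain ⟨c, hc, hb⟩ := jL_inj (isLat_one τ) t₁.isLat ((jL_one τ).trans hτ)
  rw [pr_mul_sp, mul_one] at hb
  have hd : HasDisc τ d.E := by
    obtain ⟨c', τ', hc', e, hd⟩ := t₁
    obtain ⟨γ, rfl, -⟩ := exists_SL_of_sp_eq hc' hc (e.symm.trans hb)
    exact hd.smul γ
  obtain ⟨A, B', C', hA, hg, he, hE⟩ := hd
  have hm' := tga_hm_scale h₂.isLat hs hm
  obtain ⟨η₁, k₁⟩ := tga_lk h h₁ (h₂.pr_mul hs) hl.symm hm' hb (ord_left _ _)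
  obtain ⟨η₂, k₂⟩ := tga_lk h h₁ (h₂.pr_mul hs) hl.symm hm' hb (ord_right _ _)
  exact ⟨s, c, Th A B' C', η₁, η₂, hs, h₁, h₂.pr_mul hs, hl.symm, hm', hc, hb,
    ⟨A, B', C', hA, hg, hE.symm, he, rfl⟩, k₁, k₂⟩

/-- The second lattice over the common order. -/
theorem Geo.snd (h : d.Good κ) (g : d.Geo C M₁ M₂ α β c τ Θ η₁ η₂ B) :
    M₂ * OD d.E = pr ((nm d.E (M₁ * OD d.E) : ℂ))⁻¹ * (d.LL * (M₁ * OD d.E)) := by
  exact (tga_snd h g.d₁ g.d₂ g.ll).1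

/-- The matrices as explicit real linear maps. -/
theorem tga_key (h : d.Good κ) (g : d.Geo C M₁ M₂ α β c τ Θ η₁ η₂ B) : ∃ K : ℝ,
    K ^ 2 * d.a * vol M₂ = d.G * vol M₁ ∧
    K ^ 2 * d.a * (Complex.normSq α - Complex.normSq β) = d.m ∧
    ∀ e η, d.Lk M₁ α β c τ e η → ∀ v, c * ev τ (η *ᵥ v) =
      rl (K * starRingEnd ℂ α * e) (-(K * β * starRingEnd ℂ e)) (c * ev τ v) := by
  obtain ⟨t₁, v₁, -, -⟩ := discL_up h.isD g.d₁
  obtain ⟨t₂, v₂, -, -⟩ := discL_up h.isD g.d₂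
  have hn := (tga_snd h g.d₁ g.d₂ g.ll).2
  have n₁ := t₁.nm_pos
  have n₂ := t₂.nm_pos
  have ha : (0 : ℝ) < d.a := by exact_mod_cast h.a_pos
  have hg₁ : (0 : ℝ) < d.g₁ := by exact_mod_cast h.g₁_pos
  have hv := vol_pos g.d₂.isLat
  have hx : nm d.E (M₁ * OD d.E) * vol (M₂ * OD d.E)
      = nm d.E (M₂ * OD d.E) * vol (M₁ * OD d.E) := by
    simp only [nm]
    ring
  obtain ⟨K, hK⟩ : ∃ K : ℝ, K * d.a = d.g₁ * nm d.E (M₁ * OD d.E) :=
    ⟨d.g₁ * nm d.E (M₁ * OD d.E) / d.a, by field_simp⟩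
  have e1 : K ^ 2 * d.a * vol M₂ = d.G * vol M₁ := by
    apply mul_left_cancel₀ ha.ne'
    rw [v₁, v₂, G]
    push_cast
    linear_combination (K * d.a + d.g₁ * nm d.E (M₁ * OD d.E)) * d.g₂ * vol (M₂ * OD d.E) * hK
      + (d.g₁ : ℝ) ^ 2 * d.g₂ * nm d.E (M₁ * OD d.E) * hx
      + (d.g₁ : ℝ) ^ 2 * d.g₂ * vol (M₁ * OD d.E) * hn
  have e2 : K ^ 2 * d.a * (Complex.normSq α - Complex.normSq β) = d.m := by
    apply mul_right_cancel₀ hv.ne'
    rw [m]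
    push_cast
    linear_combination (Complex.normSq α - Complex.normSq β) * e1 + (d.G : ℝ) * g.hm.deg
  refine ⟨K, e1, e2, fun e η hk v => ?_⟩
  have hm0 : (d.m : ℝ) ≠ 0 := by
    have := h.n_ne
    have := h.g₁_pos.ne'
    have := h.g₂_pos.ne'
    rw [m, G]
    push_cast
    positivity
  have hδ : Complex.normSq α ≠ Complex.normSq β := fun e0 => hm0 (by
    rw [← e2, e0, sub_self, mul_zero])
  have e3 : K * (Complex.normSq α - Complex.normSq β) * d.g₁ * nm d.E (M₁ * OD d.E) = d.m := by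
    linear_combination e2 - K * (Complex.normSq α - Complex.normSq β) * hK
  have e4 : (K : ℂ) * (α * starRingEnd ℂ α - β * starRingEnd ℂ β) * d.g₁
      * nm d.E (M₁ * OD d.E) = d.m := by
    rw [Complex.mul_conj, Complex.mul_conj]
    exact_mod_cast e3
  have hN : ((nm d.E (M₁ * OD d.E) : ℝ) : ℂ) ≠ 0 := by exact_mod_cast n₁.ne'
  have hg : (d.g₁ : ℂ) ≠ 0 := by exact_mod_cast h.g₁_pos.ne'
  apply rl_inj hδ
  apply mul_left_cancel₀ hg
  rw [hk v, ← e4]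
  generalize c * ev τ v = z
  simp only [rl, map_add, map_mul, map_neg, Complex.conj_conj, Complex.conj_ofReal]
  field_simp
  ring

theorem Geo.cf (h : d.Good κ) (g : d.Geo C M₁ M₂ α β c τ Θ η₁ η₂ B) :
    d.Cf (-η₂.trace) η₁.trace Θ η₁ η₂ ∧ B = d.B (-η₂.trace) η₁.trace ∧ 0 ≤ B ∧
      (d.F (-η₂.trace) η₁.trace : ℝ) ≤ C * d.G * (-d.E) ∧ (B : ℝ) ≤ C * d.G * (-d.E) := by
  obtain ⟨K, e1, e2, hk⟩ := tga_key h g
  have k₁ := hk _ _ g.k₁
  have k₂ := hk _ _ g.k₂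
  have hE : (d.E : ℝ) < 0 := by exact_mod_cast h.E_neg
  have hs := Real.sq_sqrt (show 0 ≤ -(d.E : ℝ) by linarith)
  have hEr : (d.E : ℝ) = d.b ^ 2 - 4 * d.a * d.c := by
    rw [E]
    push_cast
    rfl
  have hEc : (d.E : ℂ) = d.b ^ 2 - 4 * d.a * d.c := by exact_mod_cast hEr
  have ht := th_sq h.E_neg.le
  have hv := vol_pos g.d₂.isLat
  have hv₁ := vol_pos g.d₁.isLat
  have hG : (0 : ℝ) ≤ d.G := Nat.cast_nonneg _
  have y := (tga_tr_det g.ne k₁).1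
  have x := (tga_tr_det g.ne k₂).1
  simp only [Complex.mul_re, Complex.mul_im, Complex.ofReal_re, Complex.ofReal_im, Complex.conj_re,
    Complex.conj_im, Complex.intCast_re, Complex.intCast_im, Complex.div_ofNat_re,
    Complex.div_ofNat_im, Complex.sub_re, Complex.sub_im, ord2_th_re, ord2_th_im] at x y
  have hF : (d.F (-η₂.trace) η₁.trace : ℝ) = K ^ 2 * d.a * Complex.normSq α * (-d.E) := by
    rw [F]
    push_cast
    rw [x, y, Complex.normSq_apply]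
    linear_combination K ^ 2 * d.a * α.im ^ 2 * hs + K ^ 2 * d.a * α.re ^ 2 * hEr
  have hq : Real.sqrt (((d.g₁ : ℤ) ^ 2 * d.E : ℤ) * ((d.g₂ : ℤ) ^ 2 * d.E : ℤ) : ℝ)
      = d.G * (-d.E) := by
    rw [Real.sqrt_eq_iff_mul_self_eq (by
      push_cast
      nlinarith [sq_nonneg ((d.g₁ : ℝ) * d.g₂ * d.E)]) (mul_nonneg hG (by linarith)), G]
    push_cast
    ring
  have hB : (B : ℝ) = K ^ 2 * d.a * Complex.normSq β * (-d.E) := by
    have h3 := g.hm.inv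
    rw [hq] at h3
    apply mul_right_cancel₀ hv.ne'
    linear_combination -h3 - Complex.normSq β * (-d.E) * e1
  have hle : ∀ w : ℝ, w * vol M₁ ≤ C * vol M₂ → K ^ 2 * d.a * w * (-d.E) ≤ C * d.G * (-d.E) :=
    fun w hw => by
      refine mul_le_mul_of_nonneg_right (le_of_mul_le_mul_right ?_ hv) (by linarith)
      calc K ^ 2 * d.a * w * vol M₂ = d.G * (w * vol M₁) := by linear_combination w * e1
        _ ≤ d.G * (C * vol M₂) := mul_le_mul_of_nonneg_left hw hG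
        _ = _ := by ring
  refine ⟨⟨?_, ?_, ?_, fun x y => ?_, rfl, (neg_neg _).symm⟩, ?_, ?_, ?_, ?_⟩
  · obtain ⟨A, B', C', h1, h2, h3, -, h4⟩ := g.th
    exact ⟨A, B', C', h1, h2, h3, h4⟩
  · refine tga_mat_ext (τ := τ) fun v => mul_left_cancel₀ g.ne ?_
    rw [← Matrix.mulVec_mulVec, k₁, g.th.mul, tga_ev_sub, mul_sub, mul_left_comm c (d.b : ℂ),
      mul_left_comm c (_ : ℤ), k₁, k₂, mul_left_comm c]
    generalize c * ev τ v = z
    simp only [rl, map_mul, map_div₀, map_sub, map_intCast, map_ofNat, conj_th]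
    push_cast
    ring
  · refine tga_mat_ext (τ := τ) fun v => mul_left_cancel₀ g.ne ?_
    rw [← Matrix.mulVec_mulVec, k₂, g.th.mul, tga_ev_sub, mul_sub, mul_left_comm c (d.b : ℂ),
      mul_left_comm c (_ : ℤ), k₁, k₂, mul_left_comm c]
    generalize c * ev τ v = z
    simp only [rl, map_mul, map_div₀, map_sub, map_intCast, map_ofNat, conj_th]
    push_cast
    linear_combination (-(K * starRingEnd ℂ α * z) + K * β * starRingEnd ℂ z) / 2 * (ht + hEc)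
  · have k : ∀ v, c * ev τ ((x • η₁ + y • η₂) *ᵥ v) =
        rl (K * starRingEnd ℂ α * (x * d.a + y * ((d.b - EQ.th d.E) / 2)))
          (-(K * β * starRingEnd ℂ (x * d.a + y * ((d.b - EQ.th d.E) / 2)))) (c * ev τ v) :=
      fun v => by
        rw [tga_ev_comb, mul_add, mul_left_comm c (x : ℂ), mul_left_comm c (y : ℂ), k₁, k₂]
        simp only [rl, map_add, map_mul, map_intCast]
        ring
    have h3 := (tga_tr_det g.ne k).2
    have h4 : Complex.normSq (x * d.a + y * ((d.b - EQ.th d.E) / 2)) = d.a * d.F x y := by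
      rw [Complex.normSq_apply, F]
      simp only [Complex.add_re, Complex.add_im, Complex.mul_re, Complex.mul_im,
        Complex.intCast_re, Complex.intCast_im, Complex.div_ofNat_re,
        Complex.div_ofNat_im, Complex.sub_re, Complex.sub_im, ord2_th_re, ord2_th_im]
      push_cast
      linear_combination (y : ℝ) ^ 2 / 4 * hs - (y : ℝ) ^ 2 / 4 * hEr
    simp only [Complex.normSq_neg, map_mul, Complex.normSq_conj, Complex.normSq_ofReal, h4] at h3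
    have h5 : ((x • η₁ + y • η₂).det : ℝ) = d.m * d.F x y := by
      linear_combination h3 + (d.F x y : ℝ) * e2
    exact_mod_cast h5
  · have h5 : (B : ℝ) = d.F (-η₂.trace) η₁.trace + d.m * d.E := by
      linear_combination hB - hF + (d.E : ℝ) * e2
    rw [Dt.B]
    exact_mod_cast h5
  · have ha : (0 : ℝ) < d.a := by exact_mod_cast h.a_pos
    have h5 : (0 : ℝ) ≤ B := by
      rw [hB]
      exact mul_nonneg (mul_nonneg (by positivity) (Complex.normSq_nonneg _)) (by linarith)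
    exact_mod_cast h5
  · rw [hF]
    exact hle _ g.hm.le₁
  · rw [hB]
    exact hle _ g.hm.le₂

theorem Geo.bd (h : d.Good κ) (g : d.Geo C M₁ M₂ α β c τ Θ η₁ η₂ B) (hτ : τ ∈ ModularGroup.fd)
    {U : ℝ} (hU : τ.im ≤ U) (i j : Fin 2) :
    |(η₁ i j : ℝ)| ≤ 8 * U * Real.sqrt (C * d.G * d.a) := by
  obtain ⟨K, e1, -, hk⟩ := tga_key h g
  have hv := vol_pos g.d₂.isLat
  have hG : (0 : ℝ) ≤ d.G := Nat.cast_nonneg _
  have ha : (0 : ℝ) < d.a := by exact_mod_cast h.a_pos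
  have hle : ∀ w z : ℂ, Complex.normSq z = K * K * Complex.normSq w * (d.a * d.a) →
      Complex.normSq w * vol M₁ ≤ C * vol M₂ → ‖z‖ ≤ Real.sqrt (C * d.G * d.a) :=
    fun w z hz hw => by
      refine Real.le_sqrt_of_sq_le ?_
      rw [← Complex.normSq_eq_norm_sq, hz]
      refine le_of_mul_le_mul_right ?_ hv
      calc K * K * Complex.normSq w * (d.a * d.a) * vol M₂
          = d.G * d.a * (Complex.normSq w * vol M₁) := by
            linear_combination Complex.normSq w * d.a * e1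
        _ ≤ d.G * d.a * (C * vol M₂) := mul_le_mul_of_nonneg_left hw (by positivity)
        _ = _ := by ring
  refine (tga_bd g.ne (hk _ _ g.k₁) hτ (hle α _ ?_ g.hm.le₁) (hle β _ ?_ g.hm.le₂) i j).trans ?_
  · simp only [map_mul, Complex.normSq_conj, Complex.normSq_ofReal, Complex.normSq_intCast]
  · simp only [Complex.normSq_neg, map_mul, Complex.normSq_conj, Complex.normSq_ofReal,
      Complex.normSq_intCast]
  · exact mul_le_mul_of_nonneg_right (by linarith) (Real.sqrt_nonneg _)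

end Dt

end Pool.Agent.EQ
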