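import Pool.Agent.P.MP_ad7a55_nt.TGa
import Pool.Agent.P.MP_ad7a55_nt.TMx

/-! Transversality, levels and fibres. -/

set_option autoImplicit false

noncomputable section

open Finset Matrix UpperHalfPlane

namespace Pool.Agent.EQ

theorem tgb_mem {c w : ℂ} {τ : ℍ} : w ∈ sp c (c * τ) ↔ ∃ v, w = c * ev τ v := by
  rw [mem_sp]
  constructor
  · rintro ⟨m, n, rfl⟩
    refine ⟨![m, -n], ?_⟩
    simp only [ev, cons_val_zero, cons_val_one]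
    push_cast
    ring
  · rintro ⟨v, rfl⟩
    refine ⟨v 0, -v 1, ?_⟩
    simp only [ev]
    push_cast
    ring

theorem tgb_lin (τ : ℍ) (c : ℂ) (x y : ℤ) (u v : Fin 2 → ℤ) :
    c * ev τ (x • u + y • v) = x * (c * ev τ u) + y * (c * ev τ v) := by
  simp only [ev, Pi.add_apply, Pi.smul_apply, smul_eq_mul]
  push_cast
  ring

theorem tgb_smul (τ : ℍ) (c : ℂ) (x : ℤ) (u : Fin 2 → ℤ) :
    c * ev τ (x • u) = x * (c * ev τ u) := by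
  simp only [ev, Pi.smul_apply, smul_eq_mul]
  push_cast
  ring

theorem tgb_inj {c : ℂ} (hc : c ≠ 0) {τ : ℍ} {k : ℤ} {u v : Fin 2 → ℤ}
    (h : c * ev τ v = k * (c * ev τ u)) (i : Fin 2) : k ∣ v i := by
  have h1 := ord_indep τ (m := v 0 - k * u 0) (n := k * u 1 - v 1) (mul_left_cancel₀ hc (by
    simp only [ev] at h
    push_cast
    linear_combination h))
  revert i
  exact Fin.forall_fin_two.2 ⟨⟨u 0, by linarith [h1.1]⟩, ⟨u 1, by linarith [h1.2]⟩⟩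

theorem tgb_rl (α β z : ℂ) (k : ℤ) : rl α β (k * z) = k * rl α β z := by
  simp only [rl, map_mul, map_intCast]
  ring

theorem tgb_dt {E : ℤ} {τ : ℍ} {Θ : M2} (h : TauTh E τ Θ) {c : ℂ} (hc : c ≠ 0) (v : Fin 2 → ℤ) :
    ∃ k : ℤ, dt v (Θ *ᵥ v) = -(2 * k) ∧
      Complex.normSq (c * ev τ v) = k * nm E (sp c (c * τ)) := by
  obtain ⟨A, B, C, hA, -, rfl, hr, rfl⟩ := h
  refine ⟨A * v 0 ^ 2 + B * v 0 * v 1 + C * v 1 ^ 2, ?_, ?_⟩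
  · simp [dt, Th, mulVec, dotProduct, Fin.sum_univ_two]
    ring
  · obtain ⟨h1, h2⟩ := ord_parts hr
    have hA' : (0 : ℝ) < A := by exact_mod_cast hA
    have hi := τ.im_pos
    rw [nm, vol_sp hc, h2, Real.sqrt_sq (by positivity), map_mul]
    have e : Complex.normSq (ev τ v) = (v 0 - v 1 * τ.re) ^ 2 + (v 1 * τ.im) ^ 2 := by
      simp [ev, Complex.normSq_apply]
      ring
    push_cast at h2 ⊢
    have e2 : A * Complex.normSq (ev τ v) = A * v 0 ^ 2 + B * v 0 * v 1 + C * v 1 ^ 2 := by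
      refine mul_left_cancel₀ (by positivity : (4 * A : ℝ) ≠ 0) ?_
      rw [e]
      linear_combination (-(v 1 : ℝ) ^ 2) * h2 +
        ((v 1 : ℝ) ^ 2 * (2 * A * τ.re - B) - 4 * A * v 0 * v 1) * h1
    rw [← e2]
    field_simp

theorem tgb_gn {E : ℤ} {τ : ℍ} {Θ : M2} (h : TauTh E τ Θ) {c : ℂ} (hc : c ≠ 0) {v : Fin 2 → ℤ}
    (h0 : 0 < nm E (sp c (c * τ))) {k : ℤ} {l : ℕ} (hl : ¬ (l : ℤ) ∣ k)
    (hk : Complex.normSq (c * ev τ v) = k * nm E (sp c (c * τ))) : Gn l Θ v := by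
  obtain ⟨k', h1, h2⟩ := tgb_dt h hc v
  have h3 : k' = k := by exact_mod_cast mul_right_cancel₀ h0.ne' (h2.symm.trans hk)
  rw [Gn, h1, h3, dvd_neg, mul_dvd_mul_iff_left two_ne_zero]
  exact hl

theorem tgb_rep {M : Lt} {D : ℤ} (h : DiscL M D) {l : ℕ} (hl : l.Prime) :
    ∃ w ∈ M, ∃ k : ℤ, ¬ (l : ℤ) ∣ k ∧ Complex.normSq w = k * nm D M := by
  obtain ⟨c, τ, hc, rfl, A, B, C, hA, hg, hr, rfl⟩ := h
  obtain ⟨v, hv⟩ := IsTh.exists_gn ⟨A, B, C, hA, hg, rfl, rfl⟩ hl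
  obtain ⟨k, h1, h2⟩ := tgb_dt ⟨A, B, C, hA, hg, rfl, hr, rfl⟩ hc v
  rw [Gn, h1, dvd_neg, mul_dvd_mul_iff_left two_ne_zero] at hv
  exact ⟨_, tgb_mem.2 ⟨v, rfl⟩, k, hv, h2⟩

theorem tgb_nm {E : ℤ} (hE : IsD E) {g : ℕ} (hg : 0 < g) {M : Lt} (h : DiscL M (g ^ 2 * E)) :
    nm (g ^ 2 * E) M = nm E (M * OD E) := by
  have hg' : (0 : ℝ) < g := by exact_mod_cast hg
  rw [nm, nm, (discL_up hE h).2.1, show -(((g : ℤ) ^ 2 * E : ℤ) : ℝ) = (g : ℝ) ^ 2 * -(E : ℝ) by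
    push_cast; ring, Real.sqrt_mul (sq_nonneg _), Real.sqrt_sq hg'.le]
  field_simp

namespace Dt

variable {d : Dt} {κ : ℕ} {C : ℝ} {M₁ M₂ : Lt} {α β c : ℂ} {τ : ℍ} {Θ η₁ η₂ : M2} {B : ℤ}

theorem tgb_pos (h : d.Good κ) (g : d.Geo C M₁ M₂ α β c τ Θ η₁ η₂ B) :
    0 < nm d.E (M₁ * OD d.E) := (discL_up h.isD g.d₁).1.nm_pos

theorem tgb_up (h : d.Good κ) (g : d.Geo C M₁ M₂ α β c τ Θ η₁ η₂ B) {e w : ℂ} (he : e ∈ d.LL)
    (hw : w ∈ M₁ * OD d.E) : e / nm d.E (M₁ * OD d.E) * w ∈ M₂ * OD d.E := by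
  rw [g.snd h]
  exact mem_pr_mul.2 ⟨_, Submodule.mul_mem_mul he hw, by ring⟩

theorem tgb_down (h : d.Good κ) (g : d.Geo C M₁ M₂ α β c τ Θ η₁ η₂ B) {e w : ℂ} (he : e ∈ d.LL)
    (hw : w ∈ M₂ * OD d.E) :
    starRingEnd ℂ e * nm d.E (M₁ * OD d.E) / d.a * w ∈ M₁ * OD d.E := by
  rw [g.snd h] at hw
  obtain ⟨u, hu, rfl⟩ := mem_pr_mul.1 hw
  have h1 : starRingEnd ℂ e ∈ cj d.LL := mem_cj.2 (by rwa [Complex.conj_conj])
  have h2 := Submodule.mul_mem_mul h1 hu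
  rw [← mul_assoc, mul_comm (cj _), h.discL.1.mul_cj_nm, mul_assoc,
    (discL_up h.isD g.d₁).1.OD_mul, h.discL.2, Complex.ofReal_intCast] at h2
  obtain ⟨t, ht, e1⟩ := mem_pr_mul.1 h2
  have h3 : ((nm d.E (M₁ * OD d.E) : ℝ) : ℂ) ≠ 0 := Complex.ofReal_ne_zero.2 (tgb_pos h g).ne'
  have h4 : (d.a : ℂ) ≠ 0 := Int.cast_ne_zero.2 h.a_pos.ne'
  refine (congrArg (· ∈ M₁ * OD d.E) ?_).mp ht
  field_simp
  exact (mul_comm _ _).trans e1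

theorem tgb_nm₂ (h : d.Good κ) (g : d.Geo C M₁ M₂ α β c τ Θ η₁ η₂ B) :
    nm (d.g₂ ^ 2 * d.E) M₂ = d.a / nm d.E (M₁ * OD d.E) := by
  have h1 := (discL_up h.isD g.d₁).1
  have h0 := (tgb_pos h g).ne'
  rw [tgb_nm h.isD h.g₂_pos g.d₂, g.snd h, nm_pr_mul (h.discL.1.mul h1 le_rfl).isLat _
    (inv_ne_zero (Complex.ofReal_ne_zero.2 h0)), nm_mul h.discL.1 h1 le_rfl, h.discL.2,
    map_inv₀, Complex.normSq_ofReal]
  field_simp

theorem tgb_ne (h : d.Good κ) (g : d.Geo C M₁ M₂ α β c τ Θ η₁ η₂ B) :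
    Function.Injective (rl α β) := by
  refine rl_inj fun e => ?_
  have h1 := g.hm.deg
  rw [e, sub_self, zero_mul] at h1
  exact mul_ne_zero (Int.cast_ne_zero.2 h.n_ne) (vol_pos g.d₂.isLat).ne' h1.symm

theorem tgb_e (h : d.Good κ) (x y : ℤ) {e : ℂ} (he : e = x * d.a + y * ((d.b - th d.E) / 2)) :
    e * starRingEnd ℂ e = d.a * d.F x y := by
  have h1 := th_sq h.E_neg.le
  simp only [he, map_add, map_mul, map_intCast, map_div₀, map_sub, conj_th, map_ofNat, F]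
  rw [show ((d.E : ℤ) : ℂ) = d.b ^ 2 - 4 * d.a * d.c by simp [E]] at h1
  push_cast
  linear_combination (-(y : ℂ) ^ 2 / 4) * h1

theorem Geo.tg (h : d.Good κ) (g : d.Geo C M₁ M₂ α β c τ Θ η₁ η₂ B) : d.TG Θ η₁ η₂ := by
  intro l hl x y hF
  obtain ⟨e, he⟩ : ∃ e : ℂ, e = x * d.a + y * ((d.b - Pool.Agent.EQ.th d.E) / 2) := ⟨_, rfl⟩
  have e0 := tgb_e h x y he
  have e1 : e ∈ d.LL := mem_sp.2 ⟨x, y, he⟩
  have hdet := (g.cf h).1.det x y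
  have hk : d.Lk M₁ α β c τ e (x • η₁ + y • η₂) := fun v => by
    rw [add_mulVec, smul_mulVec, smul_mulVec, tgb_lin, cte_lin, he]
    linear_combination x * g.k₁ v + y * g.k₂ v
  generalize x • η₁ + y • η₂ = η at hdet hk ⊢
  have n0 := tgb_pos h g
  have n1 : ((nm d.E (M₁ * OD d.E) : ℝ) : ℂ) ≠ 0 := Complex.ofReal_ne_zero.2 n0.ne'
  have a0 : (d.a : ℂ) ≠ 0 := Int.cast_ne_zero.2 h.a_pos.ne'
  have a1 : (d.a : ℝ) ≠ 0 := Int.cast_ne_zero.2 h.a_pos.ne'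
  have g1 : (d.g₁ : ℂ) ≠ 0 := Nat.cast_ne_zero.2 h.g₁_pos.ne'
  have F0 : (d.F x y : ℂ) ≠ 0 := Int.cast_ne_zero.2 fun q => hF (q ▸ dvd_zero _)
  have m0 : (d.m : ℂ) ≠ 0 := Int.cast_ne_zero.2 (mul_ne_zero h.n_ne
    (Nat.cast_ne_zero.2 (Nat.mul_pos h.g₁_pos h.g₂_pos).ne'))
  have hv : ∀ n : ℕ, (l : ℤ) ^ padicValNat l n ∣ n := fun n => by
    exact_mod_cast (pow_padicValNat_dvd : l ^ padicValNat l n ∣ n)
  refine ⟨fun _ => ?_, fun _ => ?_⟩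
  · obtain ⟨w, hw, k, k1, k2⟩ := tgb_rep g.d₁ hl
    obtain ⟨v, rfl⟩ := tgb_mem.1 (g.bas.le ((discL_up h.isD g.d₁).2.2.1 hw))
    rw [tgb_nm h.isD h.g₁_pos g.d₁, g.bas] at k2
    refine ⟨v, tgb_gn g.th g.ne (g.bas ▸ n0) k1 k2, fun i => (hv _).trans ?_⟩
    obtain ⟨u, hu⟩ := tgb_mem.1
      (g.bas.le (tgb_down h g e1 ((discL_up h.isD g.d₂).2.2.1 (g.hm.map _ hw))))
    have h1 := hk (η.adjugate *ᵥ v)
    rw [mulVec_mulVec, mul_adjugate, smul_mulVec, one_mulVec, tgb_smul, tgb_rl, hdet] at h1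
    refine tgb_inj g.ne (τ := τ) (u := u) ?_ i
    rw [← hu]
    push_cast at h1 ⊢
    field_simp at h1 ⊢
    refine mul_left_cancel₀ F0 ?_
    linear_combination (-starRingEnd ℂ e) * h1 - (c * ev τ (η.adjugate *ᵥ v)) * e0
  · obtain ⟨w, hw, k, k1, k2⟩ := tgb_rep g.d₂ hl
    obtain ⟨v, hv'⟩ := tgb_mem.1 (g.bas.le (tgb_down h g e1 ((discL_up h.isD g.d₂).2.2.1 hw)))
    obtain ⟨z, hz, e2⟩ := rl_index g.d₁.isLat g.d₂.isLat g.hm.map g.hm.deg w hw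
    obtain ⟨u, rfl⟩ := tgb_mem.1 (g.bas.le ((discL_up h.isD g.d₁).2.2.1 hz))
    refine ⟨v, tgb_gn g.th g.ne (g.bas ▸ n0) (k := d.F x y * k)
      (fun q => ((Nat.prime_iff_prime_int.1 hl).dvd_or_dvd q).elim hF k1) ?_,
      fun i => (hv _).trans ((dvd_mul_right _ (d.F x y)).trans ?_)⟩
    · have e3 : Complex.normSq e = d.a * d.F x y := by
        rw [Complex.mul_conj] at e0
        exact_mod_cast e0
      rw [← g.bas, ← hv', map_mul, k2, tgb_nm₂ h g, map_div₀, map_mul, Complex.normSq_conj, e3,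
        Complex.normSq_ofReal, Complex.normSq_intCast]
      push_cast
      field_simp
    · refine tgb_inj g.ne (τ := τ) (u := u) (tgb_ne h g (mul_left_cancel₀ g1 ?_)) i
      rw [hk v, tgb_rl, e2, ← hv']
      simp only [m, G]
      push_cast
      field_simp
      linear_combination (d.n * d.g₂ * w : ℂ) * e0

theorem Geo.lvl (h : d.Good κ) (g : d.Geo C M₁ M₂ α β c τ Θ η₁ η₂ B) (hn : d.n = 1)
    (h₁ : d.g₁ = 1) (h₂ : d.g₂ = 1) {q : ℕ} (hq : 0 < q) {b₀ : ℤ} (hl : LvP q b₀ d.E M₁ M₂ α β) :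
    Lvl q b₀ Θ η₁ η₂ := by
  have d1 : DiscL M₁ d.E := by simpa [h₁] using g.d₁
  have d2 : DiscL M₂ d.E := by simpa [h₂] using g.d₂
  have t1 : M₁ * OD d.E = M₁ := by rw [mul_comm, d1.OD_mul]
  have t2 : M₂ * OD d.E = M₂ := by rw [mul_comm, d2.OD_mul]
  have hb : M₁ = sp c (c * τ) := t1 ▸ g.bas
  have q0 : (q : ℂ) ≠ 0 := Nat.cast_ne_zero.2 hq.ne'
  obtain ⟨-, w, hw, hp, h3, h4⟩ := hl
  obtain ⟨v, rfl⟩ := tgb_mem.1 (hb ▸ hw)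
  obtain ⟨w1, hw1, e1⟩ := mem_pr_mul.1 h3
  obtain ⟨w2, hw2, e2⟩ := mem_pr_mul.1 h4
  have hc : IsCoprime (Int.gcd (v 0) (v 1) : ℤ) q := by
    rw [Nat.isCoprime_iff_coprime]
    refine Nat.coprime_of_dvd fun l hl l1 l2 => hp l hl l2 ?_
    obtain ⟨a, ha⟩ := (Int.natCast_dvd_natCast.2 l1).trans (Int.gcd_dvd_left (v 0) (v 1))
    obtain ⟨b, hb'⟩ := (Int.natCast_dvd_natCast.2 l1).trans (Int.gcd_dvd_right (v 0) (v 1))
    refine mem_pr_mul.2 ⟨c * ev τ ![a, b], hb ▸ tgb_mem.2 ⟨_, rfl⟩, ?_⟩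
    simp only [ev, ha, hb', cons_val_zero, cons_val_one]
    push_cast
    ring
  obtain ⟨r, t, hr⟩ := hc
  rw [Int.gcd_eq_gcd_ab] at hr
  have key : ∀ (e : ℂ) (η : M2), e ∈ d.LL → d.Lk M₁ α β c τ e η →
      ∃ lam : ℤ, ∀ i, (q : ℤ) ∣ (η *ᵥ v) i - lam * v i := by
    intro e η he hk
    have k1 := hk v
    have k2 := tgb_up h g he (t1.symm ▸ hw1)
    rw [t2] at k2
    simp only [m, G, hn, h₁, h₂, Nat.cast_one, mul_one, one_mul, Int.cast_one] at k1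
    generalize η *ᵥ v = u at k1 ⊢
    have k3 : ((dt v u : ℤ) * ((Pool.Agent.EQ.th d.E - b₀) / 2) / q : ℂ) ∈ OD d.E := by
      refine (d2.end_iff _).1 (pr_mul_le.2 fun w hw => ?_)
      obtain ⟨z, hz, e3⟩ := rl_index g.d₁.isLat g.d₂.isLat g.hm.map g.hm.deg w hw
      obtain ⟨s, rfl⟩ := tgb_mem.1 (hb ▸ hz)
      have e4 : dt v u • s = dt s u • v + dt v s • u := by
        funext i
        revert i
        refine Fin.forall_fin_two.2 ⟨?_, ?_⟩ <;>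
          simp only [dt, Pi.add_apply, Pi.smul_apply, smul_eq_mul] <;> ring
      have e5 := congrArg (fun y => rl α β (c * ev τ y)) e4
      simp only [tgb_lin, tgb_smul, cte_lin, tgb_rl, e3, hn, Int.cast_one, one_mul, k1] at e5
      refine (congrArg (· ∈ M₂) ?_).mp
        (add_mem (M₂.smul_mem (dt s u) hw2) (M₂.smul_mem (dt v s) k2))
      simp only [zsmul_eq_mul]
      rw [div_mul_eq_mul_div _ (q : ℂ), eq_div_iff q0]
      linear_combination (dt s u : ℂ) * e2 + (dt v s * (e / nm d.E (M₁ * OD d.E)) : ℂ) * e1 -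
        (Pool.Agent.EQ.th d.E - b₀) / 2 * e5
    obtain ⟨x, y, e6⟩ := mem_sp.1 k3
    rw [div_eq_iff q0] at e6
    have e7 := congrArg Complex.im e6
    simp at e7
    have e8 : dt v u = q * y := by
      have : (dt v u : ℝ) = q * y :=
        mul_right_cancel₀ (ord2_th_im_ne h.E_neg) (by linarith)
      exact_mod_cast this
    rw [dt] at e8
    refine ⟨r * (v 0).gcdA (v 1) * u 0 + r * (v 0).gcdB (v 1) * u 1, Fin.forall_fin_two.2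
      ⟨⟨t * u 0 - r * (v 0).gcdB (v 1) * y, ?_⟩, ⟨t * u 1 + r * (v 0).gcdA (v 1) * y, ?_⟩⟩⟩
    · linear_combination (-u 0) * hr - r * (v 0).gcdB (v 1) * e8
    · linear_combination (-u 1) * hr + r * (v 0).gcdA (v 1) * e8
  obtain ⟨l₁, k₁⟩ := key _ _ (ord_left _ _) g.k₁
  obtain ⟨l₂, k₂⟩ := key _ _ (ord_right _ _) g.k₂
  obtain ⟨u, rfl⟩ := tgb_mem.1 (hb ▸ hw1)
  refine ⟨v, r * (v 0).gcdA (v 1), r * (v 0).gcdB (v 1), l₁, l₂, ⟨-t, by linear_combination hr⟩,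
    fun i => ?_, k₁, k₂⟩
  have e9 := tgb_inj g.ne (τ := τ) (k := 2 * q) (u := u) (v := (1 : ℤ) • (Θ *ᵥ v) + (-b₀) • v) (by
    rw [tgb_lin, g.th.mul]
    push_cast
    linear_combination (-2) * e1) i
  simpa [sub_eq_add_neg] using e9

theorem Geo.isog (h : d.Good κ) (g : d.Geo C M₁ M₂ α β c τ Θ η₁ η₂ B) {N : ℕ}
    (hN : d.G * d.a ∣ (N : ℤ)) : Isog N (jL M₁) (jL M₂) := by
  obtain ⟨k, hk⟩ := hN
  have n1 : ((nm d.E (M₁ * OD d.E) : ℝ) : ℂ) ≠ 0 := Complex.ofReal_ne_zero.2 (tgb_pos h g).ne'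
  have a0 : (d.a : ℂ) ≠ 0 := Int.cast_ne_zero.2 h.a_pos.ne'
  have s0 : (d.g₂ * (d.a / nm d.E (M₁ * OD d.E)) : ℂ) ≠ 0 :=
    mul_ne_zero (Nat.cast_ne_zero.2 h.g₂_pos.ne') (div_ne_zero a0 n1)
  refine ⟨_, M₂, g.d₁.isLat.pr_mul s0, g.d₂.isLat, jL_pr_mul g.d₁.isLat s0, rfl,
    pr_mul_le.2 fun w hw => ?_, pr_mul_le.2 fun w hw => mem_pr_mul.2 ⟨_, M₁.smul_mem k
      (pr_mul_le.1 (discL_up h.isD g.d₁).2.2.2 _ (tgb_down h g (ord_left _ _)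
        ((discL_up h.isD g.d₂).2.2.1 hw))), ?_⟩⟩
  · rw [mul_assoc]
    exact pr_mul_le.1 (discL_up h.isD g.d₂).2.2.2 _
      (tgb_up h g (ord_left _ _) ((discL_up h.isD g.d₁).2.2.1 hw))
  · have e : (N : ℂ) = d.g₁ * d.g₂ * d.a * k := by exact_mod_cast hk
    rw [e, zsmul_eq_mul, map_intCast]
    field_simp

end Dt

end Pool.Agent.EQ
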