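import Pool.Agent.P.MP_ad7a55_nt.TGb

/-! Fibres of the map to configurations. -/

set_option autoImplicit false

noncomputable section

open Finset Matrix UpperHalfPlane

namespace Pool.Agent.EQ

theorem tgc_trans {P P' P'' : M2 × M2} (h : Geq P P') (h' : Geq P' P'') : Geq P P'' := by
  obtain ⟨g, g0, g1, g2⟩ := h
  obtain ⟨k, k0, k1, k2⟩ := h'
  refine ⟨k * g, by rw [Matrix.det_mul, k0, g0, mul_one], ?_, ?_⟩
  · rw [Matrix.mul_assoc, g1, ← Matrix.mul_assoc, k1, Matrix.mul_assoc]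
  · rw [Matrix.mul_assoc, g2, ← Matrix.mul_assoc, k2, Matrix.mul_assoc]

theorem tgc_ev_mul (τ : ℍ) (g : M2) (v : Fin 2 → ℤ) :
    ev τ (g *ᵥ v) = v 0 * ev τ (g *ᵥ ![1, 0]) + v 1 * ev τ (g *ᵥ ![0, 1]) := by
  simp only [ev, Matrix.mulVec, dotProduct, Fin.sum_univ_two, Matrix.cons_val_zero,
    Matrix.cons_val_one]
  push_cast
  ring

theorem tgc_ev_smul (τ : ℍ) (k : ℤ) (v : Fin 2 → ℤ) : ev τ (k • v) = k * ev τ v := by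
  simp only [ev, Pi.smul_apply, smul_eq_mul]
  push_cast
  ring

theorem tgc_ev_mem (c : ℂ) (τ : ℍ) (v : Fin 2 → ℤ) : c * ev τ v ∈ sp c (c * τ) :=
  mem_sp.2 ⟨v 0, -v 1, by
    simp only [ev]
    push_cast
    ring⟩

theorem tgc_surj {g : M2} (hg : g.det = 1) (w : Fin 2 → ℤ) : g *ᵥ (g.adjugate *ᵥ w) = w := by
  rw [Matrix.mulVec_mulVec, Matrix.mul_adjugate, hg, one_smul, Matrix.one_mulVec]

/-- An intertwiner is a complex multiplication. -/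
theorem tgc_lam {E : ℤ} {τ τ₀ : ℍ} {Θ Θ₀ g : M2} (h : TauTh E τ Θ) (h₀ : TauTh E τ₀ Θ₀)
    (hg : g.det = 1) (e : g * Θ = Θ₀ * g) : ∃ l : ℂ, l ≠ 0 ∧ sp l (l * τ) = sp 1 τ₀ ∧
      ∀ v, ev τ₀ (g *ᵥ v) = l * ev τ v := by
  have h1 := h.mul ![1, 0]
  have h2 := h₀.mul (g *ᵥ ![1, 0])
  rw [Matrix.mulVec_mulVec, ← e, ← Matrix.mulVec_mulVec, tgc_ev_mul] at h2
  obtain ⟨A, B, C, hA, -, -, -, rfl⟩ := h
  have hA' : (A : ℂ) ≠ 0 := by exact_mod_cast hA.ne'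
  have e0 : (Th A B C *ᵥ ![1, 0]) 0 = B := by
    simp [Th, Matrix.mulVec, dotProduct, Fin.sum_univ_two]
  have e1 : (Th A B C *ᵥ ![1, 0]) 1 = -2 * A := by
    simp [Th, Matrix.mulVec, dotProduct, Fin.sum_univ_two]
  rw [e0, e1] at h2
  have h3 : (B : ℂ) + 2 * A * τ = th E := by
    simp only [ev, e0, e1, Matrix.cons_val_zero, Matrix.cons_val_one] at h1
    push_cast at h1
    linear_combination h1
  have h4 : ev τ₀ (g *ᵥ ![0, 1]) = -(ev τ₀ (g *ᵥ ![1, 0]) * τ) := by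
    refine mul_left_cancel₀ (mul_ne_zero two_ne_zero hA') ?_
    push_cast at h2
    linear_combination -h2 + ev τ₀ (g *ᵥ ![1, 0]) * h3
  have key : ∀ v, ev τ₀ (g *ᵥ v) = ev τ₀ (g *ᵥ ![1, 0]) * ev τ v := by
    intro v
    rw [tgc_ev_mul, h4]
    simp only [ev]
    ring
  refine ⟨_, fun h0 => ?_, le_antisymm ?_ ?_, key⟩
  · have h5 := key (g.adjugate *ᵥ ![1, 0])
    rw [tgc_surj hg, h0, zero_mul] at h5
    simp [ev] at h5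
  · rw [sp_le_iff_lat]
    constructor
    · simpa using tgc_ev_mem 1 τ₀ (g *ᵥ ![1, 0])
    · have h5 := neg_mem (tgc_ev_mem 1 τ₀ (g *ᵥ ![0, 1]))
      rw [h4] at h5
      simpa using h5
  · rw [sp_le_iff_lat]
    constructor
    · have h5 := tgc_ev_mem (ev τ₀ (g *ᵥ ![1, 0])) τ (g.adjugate *ᵥ ![1, 0])
      rw [← key, tgc_surj hg] at h5
      simpa [ev] using h5
    · have h5 := tgc_ev_mem (ev τ₀ (g *ᵥ ![1, 0])) τ (g.adjugate *ᵥ ![0, -1])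
      rw [← key, tgc_surj hg] at h5
      simpa [ev] using h5

/-- A real linear map is determined by its values on a sublattice. -/
theorem tgc_uniq {τ : ℍ} {η : M2} (hη : η.det ≠ 0) {α β α' β' : ℂ}
    (h : ∀ w, rl α β (ev τ (η *ᵥ w)) = rl α' β' (ev τ (η *ᵥ w))) : α = α' ∧ β = β' := by
  have hd : (η.det : ℂ) ≠ 0 := by exact_mod_cast hη
  have key : ∀ w, rl α β (ev τ w) = rl α' β' (ev τ w) := by
    intro w
    have h1 := h (η.adjugate *ᵥ w)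
    rw [Matrix.mulVec_mulVec, Matrix.mul_adjugate, Matrix.smul_mulVec, Matrix.one_mulVec,
      tgc_ev_smul] at h1
    refine mul_left_cancel₀ hd ?_
    simp only [rl, map_mul, map_intCast] at h1 ⊢
    linear_combination h1
  have h1 := key ![1, 0]
  have h2 := key ![0, -1]
  simp only [rl, ev, Matrix.cons_val_zero, Matrix.cons_val_one, Int.cast_one, Int.cast_zero,
    Int.cast_neg, zero_mul, sub_zero, map_one, mul_one, neg_mul, one_mul, zero_sub,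
    neg_neg] at h1 h2
  have h3 : (τ : ℂ) - starRingEnd ℂ τ ≠ 0 := by
    rw [Complex.sub_conj]
    have : (τ : ℂ).im ≠ 0 := τ.im_pos.ne'
    exact mul_ne_zero (by exact_mod_cast mul_ne_zero two_ne_zero this) Complex.I_ne_zero
  have h4 : α = α' := by
    refine mul_right_cancel₀ h3 ?_
    linear_combination h2 - starRingEnd ℂ τ * h1
  refine ⟨h4, ?_⟩
  rw [h4] at h1
  exact add_left_cancel h1

namespace Dt

variable {d : Dt} {κ : ℕ} {C : ℝ}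

theorem tgc_scale (h : d.Good κ) {M₁ M₂ : Lt} {α β c : ℂ} {τ : ℍ} {Θ η₁ η₂ : M2} {B : ℤ}
    (g : d.Geo C M₁ M₂ α β c τ Θ η₁ η₂ B) {a : ℂ} (ha : a ≠ 0) :
    d.Geo C (pr a * M₁) (pr (starRingEnd ℂ a)⁻¹ * M₂) ((starRingEnd ℂ a)⁻¹ * α / a)
      ((starRingEnd ℂ a)⁻¹ * β / starRingEnd ℂ a) (a * c) τ Θ η₁ η₂ B := by
  have ha' : starRingEnd ℂ a ≠ 0 := (map_ne_zero _).2 ha
  obtain ⟨b, hb⟩ : ∃ b, b = (starRingEnd ℂ a)⁻¹ := ⟨_, rfl⟩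
  have hb0 : b ≠ 0 := hb ▸ inv_ne_zero ha'
  have hab : b * starRingEnd ℂ a = 1 := by rw [hb, inv_mul_cancel₀ ha']
  rw [← hb]
  have h₁ := g.d₁.isLat
  have h₂ := g.d₂.isLat
  have na : Complex.normSq a ≠ 0 := fun e => ha (Complex.normSq_eq_zero.1 e)
  have nb : 0 < Complex.normSq b := Complex.normSq_pos.2 hb0
  have eα : Complex.normSq (b * α / a) * (Complex.normSq a * vol M₁) =
      Complex.normSq b * (Complex.normSq α * vol M₁) := by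
    rw [map_div₀, map_mul]
    field_simp
  have eβ : Complex.normSq (b * β / starRingEnd ℂ a) * (Complex.normSq a * vol M₁) =
      Complex.normSq b * (Complex.normSq β * vol M₁) := by
    rw [map_div₀, map_mul, Complex.normSq_conj]
    field_simp
  have er : ∀ w, rl (b * α / a) (b * β / starRingEnd ℂ a) (a * w) = b * rl α β w := by
    intro w
    simp only [rl, map_mul]
    field_simp
  have hT := (discL_up h.isD g.d₁).1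
  have lk : ∀ (e : ℂ) (η : M2), d.Lk M₁ α β c τ e η →
      d.Lk (pr a * M₁) (b * α / a) (b * β / starRingEnd ℂ a) (a * c) τ e η := by
    intro e η k v
    have k1 := k v
    have n0 : (nm d.E (M₁ * OD d.E) : ℂ) ≠ 0 := by exact_mod_cast hT.nm_pos.ne'
    rw [mul_assoc a, er, mul_assoc (pr a), nm_pr_mul hT.isLat _ ha, mul_left_comm, k1,
      Complex.ofReal_mul, ← Complex.mul_conj, hb]
    field_simp
  refine ⟨g.d₁.pr_mul ha, g.d₂.pr_mul hb0, ?_, ⟨fun z hz => ?_, ?_, ?_, ?_, ?_⟩,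
    mul_ne_zero ha g.ne, ?_, g.th, lk _ _ g.k₁, lk _ _ g.k₂⟩
  · rw [cj_mul, cj_pr, mul_mul_mul_comm, pr_mul_pr, hab, g.ll, pr, ← Submodule.one_eq_span,
      one_mul]
  · obtain ⟨w, hw, rfl⟩ := mem_pr_mul.1 hz
    exact mem_pr_mul.2 ⟨_, g.hm.map w hw, (er w).symm⟩
  · rw [vol_pr_mul h₁ ha, vol_pr_mul h₂ hb0, mul_assoc, eβ]
    linear_combination Complex.normSq b * g.hm.inv
  · rw [vol_pr_mul h₁ ha, vol_pr_mul h₂ hb0, sub_mul, eα, eβ]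
    linear_combination Complex.normSq b * g.hm.deg
  · rw [vol_pr_mul h₁ ha, vol_pr_mul h₂ hb0, eα]
    nlinarith [mul_le_mul_of_nonneg_left g.hm.le₁ nb.le]
  · rw [vol_pr_mul h₁ ha, vol_pr_mul h₂ hb0, eβ]
    nlinarith [mul_le_mul_of_nonneg_left g.hm.le₂ nb.le]
  · rw [mul_assoc, g.bas, pr_mul_sp, mul_assoc]

/-- The scale can be prescribed. -/
theorem tgc_resc (h : d.Good κ) {z : ℂ × ℂ} {τ : ℍ} {Θ η₁ η₂ : M2} {B : ℤ}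
    (g : d.GZ C z τ Θ η₁ η₂ B) {l : ℂ} (hl : l ≠ 0) : ∃ (M₁ M₂ : Lt) (α β : ℂ),
      jL M₁ = z.1 ∧ jL M₂ = z.2 ∧ d.Geo C M₁ M₂ α β l τ Θ η₁ η₂ B := by
  obtain ⟨M₁, M₂, α, β, c, j1, j2, g⟩ := g
  have ha : l / c ≠ 0 := div_ne_zero hl g.ne
  have g' := tgc_scale h g ha
  rw [div_mul_cancel₀ l g.ne] at g'
  refine ⟨_, _, _, _, ?_, ?_, g'⟩
  · rw [jL_pr_mul g.d₁.isLat ha, j1]
  · rw [jL_pr_mul g.d₂.isLat (inv_ne_zero ((map_ne_zero _).2 ha)), j2]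

theorem tgc_det (h : d.Good κ) {M₁ M₂ : Lt} {α β c : ℂ} {τ : ℍ} {Θ η₁ η₂ : M2} {B : ℤ}
    (g : d.Geo C M₁ M₂ α β c τ Θ η₁ η₂ B) : η₁.det ≠ 0 := by
  have h1 := (g.cf h).1.det 1 0
  simp only [one_smul, zero_smul, add_zero, F, m, G] at h1
  rw [h1]
  have a1 := h.n_ne
  have a2 := h.a_pos.ne'
  have a3 := h.g₁_pos.ne'
  have a4 := h.g₂_pos.ne'
  simp [a1, a2, a3, a4]

/-- Normal form of the data relative to a base configuration. -/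
theorem tgc_norm (h : d.Good κ) {z : ℂ × ℂ} {τ τ₀ : ℍ} {Θ η₁ η₂ Θ₀ η₀ : M2} {B : ℤ}
    (g : d.GZ C z τ Θ η₁ η₂ B) (h₀ : TauTh d.E τ₀ Θ₀) (e : Geq (Θ, η₁) (Θ₀, η₀)) :
    ∃ (M₁ M₂ : Lt) (α β l : ℂ), jL M₁ = z.1 ∧ jL M₂ = z.2 ∧ d.Geo C M₁ M₂ α β l τ Θ η₁ η₂ B ∧
      M₁ * OD d.E = sp 1 τ₀ ∧ ∀ w, d.g₁ * rl α β (ev τ₀ (η₀ *ᵥ w)) =
        d.m * (d.a / nm d.E (sp 1 τ₀)) * ev τ₀ w := by
  obtain ⟨k, k0, k1, k2⟩ := e
  have hth : TauTh d.E τ Θ := by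
    obtain ⟨M₁, M₂, α, β, c, -, -, g⟩ := g
    exact g.th
  obtain ⟨l, hl, e1, e2⟩ := tgc_lam hth h₀ k0 k1
  obtain ⟨M₁, M₂, α, β, j1, j2, g'⟩ := tgc_resc h g hl
  refine ⟨M₁, M₂, α, β, l, j1, j2, g', g'.bas.trans e1, fun w => ?_⟩
  have k3 := g'.k₁ (k.adjugate *ᵥ w)
  have k4 : k * η₁ = η₀ * k := k2
  rw [← e2, ← e2, g'.bas, e1, tgc_surj k0, Matrix.mulVec_mulVec, k4, ← Matrix.mulVec_mulVec,
    tgc_surj k0] at k3
  exact k3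

theorem geo_fib (h : d.Good κ) (P₀ : M2 × M2) (hP : IsTh d.E P₀.1) :
    {z | ∃ τ Θ η₁ η₂ B, d.GZ C z τ Θ η₁ η₂ B ∧ Geq (Θ, η₁) P₀}.Finite ∧
    {z | ∃ τ Θ η₁ η₂ B, d.GZ C z τ Θ η₁ η₂ B ∧ Geq (Θ, η₁) P₀}.ncard ≤ d.n.natAbs ^ 9 := by
  rcases Set.eq_empty_or_nonempty
    {z | ∃ τ Θ η₁ η₂ B, d.GZ C z τ Θ η₁ η₂ B ∧ Geq (Θ, η₁) P₀} with h0 | ⟨z₀, hz₀⟩
  · rw [h0]
    simp
  obtain ⟨τ₀, Θ₀, η₀, η₀', B₀, g₀, e₀⟩ := hz₀
  have g₀' := g₀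
  obtain ⟨N₁, N₂, α₁, β₁, c₁, -, -, g₁⟩ := g₀'
  obtain ⟨-, -, α₀, β₀, -, -, -, -, -, k₀⟩ := tgc_norm h g₀ g₁.th (Geq.refl _)
  obtain ⟨r1, r2⟩ := card_rec h.n_ne h.cop (sp 1 τ₀)
    (pr ((nm d.E (sp 1 τ₀) : ℂ))⁻¹ * (d.LL * sp 1 τ₀)) α₀ β₀
  have q := tmx_img' (S := {z | ∃ τ Θ η₁ η₂ B, d.GZ C z τ Θ η₁ η₂ B ∧ Geq (Θ, η₁) P₀}) r1
    (fun M => (jL M.1, jL M.2)) fun z hz => by
      obtain ⟨τ, Θ, η₁, η₂, B, g, e⟩ := hz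
      obtain ⟨M₁, M₂, α, β, l, j1, j2, g', t1, k⟩ :=
        tgc_norm h g g₁.th (tgc_trans e e₀.symm)
      have hg : (d.g₁ : ℂ) ≠ 0 := by exact_mod_cast h.g₁_pos.ne'
      obtain ⟨rfl, rfl⟩ := tgc_uniq (tgc_det h g₁) fun w =>
        mul_left_cancel₀ hg ((k w).trans (k₀ w).symm)
      have t2 := g'.snd h
      rw [t1] at t2
      obtain ⟨-, -, u1, u2⟩ := discL_up h.isD g'.d₁
      obtain ⟨-, -, u3, u4⟩ := discL_up h.isD g'.d₂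
      rw [t1] at u1 u2
      rw [t2] at u3 u4
      exact ⟨(M₁, M₂), ⟨g'.d₁.isLat, g'.d₂.isLat, u1, u2, u3, u4, g'.hm.map, g'.hm.deg⟩,
        Prod.ext j1 j2⟩
  exact ⟨q.1, q.2.trans r2⟩

theorem geo_tau (h : d.Good κ) (τ : ℍ) :
    {z | ∃ Θ η₁ η₂ B, d.GZ C z τ Θ η₁ η₂ B}.Finite ∧
    {z | ∃ Θ η₁ η₂ B, d.GZ C z τ Θ η₁ η₂ B}.ncard ≤ d.G * d.G.divisors.card ^ 2 := by
  rcases Set.eq_empty_or_nonempty {z | ∃ Θ η₁ η₂ B, d.GZ C z τ Θ η₁ η₂ B} with h0 | ⟨z₀, hz₀⟩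
  · rw [h0]
    simp
  obtain ⟨Θ₀, η₀, η₀', B₀, g₀⟩ := hz₀
  obtain ⟨N₁, N₂, α₁, β₁, -, -, g₁⟩ := tgc_resc h g₀ one_ne_zero
  have l2 : IsLat (pr ((nm d.E (sp 1 (1 * τ)) : ℂ))⁻¹ * (d.LL * sp 1 (1 * τ))) := by
    rw [← g₁.bas, ← g₁.snd h]
    exact (discL_up h.isD g₁.d₂).1.isLat
  obtain ⟨r1, r2⟩ := card_index (isLat_sp one_ne_zero τ) h.g₁_pos
  obtain ⟨r3, r4⟩ := card_index l2 h.g₂_pos
  have q := tmx_img' (S := {z | ∃ Θ η₁ η₂ B, d.GZ C z τ Θ η₁ η₂ B}) (r1.prod r3)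
    (fun M => (jL M.1, jL M.2)) fun z hz => by
      obtain ⟨Θ, η₁, η₂, B, g⟩ := hz
      obtain ⟨M₁, M₂, α, β, j1, j2, g'⟩ := tgc_resc h g one_ne_zero
      have t2 := g'.snd h
      obtain ⟨-, u1, u2, -⟩ := discL_up h.isD g'.d₁
      obtain ⟨-, u3, u4, -⟩ := discL_up h.isD g'.d₂
      rw [t2] at u3 u4
      rw [g'.bas] at u1 u2 u3 u4
      exact ⟨(M₁, M₂), ⟨⟨g'.d₁.isLat, u2, u1⟩, g'.d₂.isLat, u4, u3⟩, Prod.ext j1 j2⟩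
  refine ⟨q.1, q.2.trans ?_⟩
  rw [Set.ncard_prod]
  have hG : d.G ≠ 0 := mul_ne_zero h.g₁_pos.ne' h.g₂_pos.ne'
  have v1 : d.g₁.divisors.card ≤ d.G.divisors.card :=
    Finset.card_le_card (Nat.divisors_subset_of_dvd hG (Dvd.intro _ rfl))
  have v2 : d.g₂.divisors.card ≤ d.G.divisors.card :=
    Finset.card_le_card (Nat.divisors_subset_of_dvd hG (Dvd.intro_left _ rfl))
  calc _ ≤ (d.g₁ * d.G.divisors.card) * (d.g₂ * d.G.divisors.card) :=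
        Nat.mul_le_mul (r2.trans (Nat.mul_le_mul_left _ v1)) (r4.trans (Nat.mul_le_mul_left _ v2))
    _ = d.G * d.G.divisors.card ^ 2 := by
        rw [show d.G * d.G.divisors.card ^ 2 = d.g₁ * d.g₂ * d.G.divisors.card ^ 2 from rfl]
        ring

/-- The box that contains all traces. -/
theorem GZ.box (h : d.Good κ) (hC : 1 ≤ C) {z : ℂ × ℂ} {τ : ℍ} {Θ η₁ η₂ : M2} {B : ℤ}
    (g : d.GZ C z τ Θ η₁ η₂ B) (hB : B ≠ 0) {H N : ℕ} (hH : 4 * C * d.G * d.a ≤ (H : ℝ) ^ 2)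
    (hN : 4 * C * d.G * (-d.E) ≤ d.a * (N : ℝ) ^ 2) :
    |η₁.trace| ≤ H ∧ |d.x₁ (-η₂.trace) η₁.trace| ≤ d.a * N ∧ d.B (-η₂.trace) η₁.trace ≠ 0 ∧
      |d.B (-η₂.trace) η₁.trace| ≤ (H * N) ^ 2 := by
  obtain ⟨M₁, M₂, α, β, c, -, -, g⟩ := g
  obtain ⟨-, c1, c2, c3, c4⟩ := g.cf h
  rw [← c1]
  generalize -η₂.trace = X at *
  generalize η₁.trace = Y at *
  have key : 4 * d.a * d.F X Y = d.x₁ X Y ^ 2 + (-d.E) * Y ^ 2 := by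
    simp only [x₁, E, F]
    ring
  have key' : 4 * (d.a : ℝ) * d.F X Y = (d.x₁ X Y : ℝ) ^ 2 + (-d.E) * (Y : ℝ) ^ 2 := by
    exact_mod_cast key
  have ha : (0 : ℝ) < d.a := by exact_mod_cast h.a_pos
  have hE : (0 : ℝ) < -d.E := by
    have : (d.E : ℝ) < 0 := by exact_mod_cast h.E_neg
    linarith
  have hG : (1 : ℝ) ≤ d.G := by
    exact_mod_cast Nat.one_le_iff_ne_zero.2 (mul_ne_zero h.g₁_pos.ne' h.g₂_pos.ne')
  have hCG : (1 : ℝ) ≤ C * d.G := by nlinarith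
  have b0 : (d.x₁ X Y : ℝ) ^ 2 + (-d.E) * (Y : ℝ) ^ 2 ≤ 4 * d.a * (C * d.G * (-d.E)) := by
    rw [← key']
    exact mul_le_mul_of_nonneg_left c3 (by positivity)
  have b1 : (Y : ℝ) ^ 2 ≤ (H : ℝ) ^ 2 := by
    refine le_trans (le_of_mul_le_mul_left ?_ hE) hH
    nlinarith [sq_nonneg (d.x₁ X Y : ℝ)]
  have b2 : (d.x₁ X Y : ℝ) ^ 2 ≤ ((d.a : ℝ) * N) ^ 2 := by
    have a1 := mul_le_mul_of_nonneg_left hN ha.le
    have a2 := mul_nonneg hE.le (sq_nonneg (Y : ℝ))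
    nlinarith
  have b3 : (B : ℝ) ≤ ((H : ℝ) * N) ^ 2 := by
    have a1 := mul_le_mul_of_nonneg_right hH (sq_nonneg (N : ℝ))
    have a2 := mul_le_mul_of_nonneg_left hN (show (0 : ℝ) ≤ 4 * (C * d.G) by positivity)
    have a3 : 0 ≤ C * d.G * (-d.E) := by positivity
    have a4 := mul_le_mul_of_nonneg_right hCG a3
    nlinarith
  refine ⟨?_, ?_, hB, ?_⟩
  · have := abs_le_of_sq_le_sq' b1 (Nat.cast_nonneg H)
    exact_mod_cast abs_le.2 this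
  · have := abs_le_of_sq_le_sq' b2 (by positivity)
    exact_mod_cast abs_le.2 this
  · rw [abs_of_nonneg c2]
    exact_mod_cast b3

theorem geo_sum (h : d.Good κ) (S : Set (ℂ × ℂ)) (Z : Finset (ℤ × ℤ)) (R : M2 → M2 → M2 → Prop)
    (W : ℤ → ℤ → ℝ) (hS : ∀ z ∈ S, ∃ τ Θ η₁ η₂ B, d.GZ C z τ Θ η₁ η₂ B ∧
      (-η₂.trace, η₁.trace) ∈ Z ∧ R Θ η₁ η₂)
    (hW : ∀ x ∈ Z, Few Geq (d.CS x.1 x.2 R) (W x.1 x.2)) :
    (S.ncard : ℝ) ≤ (d.n.natAbs : ℝ) ^ 9 * ∑ x ∈ Z, W x.1 x.2 := by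
  classical
  by_cases hf : S.Finite
  swap
  · rw [Set.Infinite.ncard hf, Nat.cast_zero]
    exact mul_nonneg (by positivity) (Finset.sum_nonneg fun x hx => (hW x hx).nonneg)
  rw [Set.ncard_eq_toFinset_card S hf, Finset.mul_sum]
  have h1 : hf.toFinset ⊆ Z.biUnion fun x => hf.toFinset.filter fun z => ∃ τ Θ η₁ η₂ B,
      d.GZ C z τ Θ η₁ η₂ B ∧ (-η₂.trace, η₁.trace) = x ∧ R Θ η₁ η₂ := by
    intro z hz
    obtain ⟨τ, Θ, η₁, η₂, B, g, hx, hR⟩ := hS z (hf.mem_toFinset.1 hz)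
    exact Finset.mem_biUnion.2 ⟨_, hx, Finset.mem_filter.2 ⟨hz, τ, Θ, η₁, η₂, B, g, rfl, hR⟩⟩
  have h2 := (Finset.card_le_card h1).trans Finset.card_biUnion_le
  refine le_trans (Nat.cast_le.2 h2) ?_
  rw [Nat.cast_sum]
  refine Finset.sum_le_sum fun x hx => ?_
  rw [← Nat.cast_pow]
  refine card_le_few (hW x hx) Geq.refl (fun _ _ => Geq.symm) _
    (fun z P => ∃ τ η₂ B, d.GZ C z τ P.1 P.2 η₂ B) (fun z hz => ?_) fun P₀ hP Z' _ hZ => ?_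
  · obtain ⟨-, τ, Θ, η₁, η₂, B, g, rfl, hR⟩ := Finset.mem_filter.1 hz
    have g' := g
    obtain ⟨M₁, M₂, α, β, c, -, -, g'⟩ := g'
    exact ⟨(Θ, η₁), ⟨η₂, (g'.cf h).1, g'.tg h, hR⟩, τ, η₂, B, g⟩
  · obtain ⟨η₂, hc, -⟩ := hP
    obtain ⟨f1, f2⟩ := geo_fib (C := C) h P₀ hc.th
    refine le_trans ?_ f2
    rw [← Set.ncard_coe_finset]
    refine Set.ncard_le_ncard (fun z hz => ?_) f1
    obtain ⟨P, ⟨τ, η₂, B, g⟩, e⟩ := hZ z hz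
    exact ⟨τ, P.1, P.2, η₂, B, g, e⟩

end Dt

end Pool.Agent.EQ
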