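import Pool.Agent.P.MP_ad7a55_nt.TQd
import Pool.Agent.P.MP_ad7a55_nt.THt
import Pool.Agent.P.MP_ad7a55_nt.CtB
import Pool.Agent.P.MP_ad7a55_nt.GalA

/-! A multiplicative majorant for the number of ideals. -/

set_option autoImplicit false

noncomputable section

open Finset

namespace Pool.Agent.EQ

theorem tid_prim {D : ℤ} {m a b : ℕ} {c : ℤ} (hm : 0 < m) (ha : 0 < a)
    (hc : (b : ℤ) ^ 2 - 4 * a * c = D) (h : DiscL (pr m * sp a ((b + th D) / 2)) D) :
    Int.gcd (Int.gcd a b) c = 1 := by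
  have hD := h.isD
  have hs := ctB_sqrt_pos hD.1
  have ha' : (0 : ℝ) < a := by exact_mod_cast ha
  have ha0 : (a : ℂ) ≠ 0 := by exact_mod_cast ha.ne'
  have hm0 : (m : ℂ) ≠ 0 := by exact_mod_cast hm.ne'
  have him : 0 < (((b : ℂ) + th D) / (2 * a)).im := by
    have e : ((b : ℂ) + th D) / (2 * a) = ((2 * (a : ℝ))⁻¹ : ℝ) * ((b : ℂ) + th D) := by
      push_cast
      field_simp
    rw [e, Complex.im_ofReal_mul]
    simp only [Complex.add_im, Complex.natCast_im, zero_add, ord2_th_im]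
    positivity
  let τ : UpperHalfPlane := ⟨((b : ℂ) + th D) / (2 * a), him⟩
  have hτ : (τ : ℂ) = ((b : ℂ) + th D) / (2 * a) := rfl
  have hc' : (b : ℂ) ^ 2 - 4 * a * c = D := by exact_mod_cast hc
  have hroot : (a : ℂ) * (τ : ℂ) ^ 2 - b * τ + c = 0 := by
    rw [hτ]
    field_simp
    linear_combination th_sq hD.1.le - hc'
  obtain ⟨g, hg⟩ : ∃ g : ℕ, g = Int.gcd (Int.gcd a b) c := ⟨_, rfl⟩
  have h1 : (g : ℤ) ∣ (Int.gcd a b : ℤ) := hg ▸ Int.gcd_dvd_left _ _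
  obtain ⟨a', ha1⟩ : (g : ℤ) ∣ a := h1.trans (Int.gcd_dvd_left _ _)
  obtain ⟨b', hb1⟩ : (g : ℤ) ∣ b := h1.trans (Int.gcd_dvd_right _ _)
  obtain ⟨c', hc1⟩ : (g : ℤ) ∣ c := hg ▸ Int.gcd_dvd_right _ _
  have hg0 : g ≠ 0 := by
    rintro rfl
    simp at ha1
    omega
  have hgp : (0 : ℤ) < g := by exact_mod_cast Nat.pos_of_ne_zero hg0
  have haz : (0 : ℤ) < a := by exact_mod_cast ha
  have hd : HasDisc τ ((-b') ^ 2 - 4 * a' * c') := by
    refine ⟨a', -b', c', (mul_pos_iff_of_pos_left hgp).1 (ha1 ▸ haz), ?_, ?_, rfl⟩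
    · rw [ha1, hb1, hc1, Int.gcd_mul_left, Nat.cast_mul, Int.natAbs_natCast, Int.gcd_mul_left,
        Int.natAbs_natCast] at hg
      rw [Int.gcd_neg]
      exact (Nat.mul_eq_left hg0).1 hg.symm
    · have hg' : (g : ℂ) ≠ 0 := Nat.cast_ne_zero.2 hg0
      have e1 : (a : ℂ) = g * a' := by exact_mod_cast ha1
      have e2 : (b : ℂ) = g * b' := by exact_mod_cast hb1
      have e3 : (c : ℂ) = g * c' := by exact_mod_cast hc1
      apply mul_left_cancel₀ hg'
      rw [e1, e2, e3] at hroot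
      push_cast
      linear_combination hroot
  have h2 : DiscL (pr m * sp a ((b + th D) / 2)) ((-b') ^ 2 - 4 * a' * c') := by
    refine DiscL.pr_mul ⟨a, τ, ha0, ?_, hd⟩ hm0
    rw [hτ]
    congr 1
    field_simp
  have h3 := h.galA_unique h2
  have h4 : ((g : ℤ) ^ 2 - 1) * D = 0 := by
    rw [ha1, hb1, hc1] at hc
    linear_combination (g : ℤ) ^ 2 * h3 + hc
  have h5 : (g : ℤ) ^ 2 = 1 := by
    rcases mul_eq_zero.1 h4 with h6 | h6
    · linarith
    · exact absurd h6 hD.1.ne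
  have h6 : g ^ 2 = 1 := by exact_mod_cast h5
  rw [← hg]
  exact (Nat.pow_eq_one.1 h6).resolve_right two_ne_zero

theorem Idl.shape' {D : ℤ} {n : ℕ} {𝔞 : Lt} (h : 𝔞 ∈ Idl D n) : ∃ (m a b : ℕ) (c : ℤ), 0 < m ∧
    0 < a ∧ n = m ^ 2 * a ∧ b < 2 * a ∧ (b : ℤ) ^ 2 - 4 * a * c = D ∧
      Int.gcd (Int.gcd a b) c = 1 ∧ 𝔞 = pr m * sp a ((b + th D) / 2) := by
  obtain ⟨h1, h2, h3⟩ := h
  obtain ⟨m, a, B, hm, ha, ⟨c, hc⟩, e⟩ := ctB_pre h1 h2
  have ha' : (0 : ℤ) < 2 * a := by positivity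
  obtain ⟨b, hb⟩ := Int.eq_ofNat_of_zero_le (Int.emod_nonneg B ha'.ne')
  have hlt := Int.emod_lt_of_pos B ha'
  have hB := Int.emod_add_mul_ediv B (2 * a)
  rw [hb] at hlt hB
  generalize B / (2 * a) = q at hB
  subst hB
  have e' : 𝔞 = pr m * sp a ((b + th D) / 2) := by
    have e1 : (((b + 2 * a * q : ℤ) : ℂ) + th D) / 2 = (b + th D) / 2 + q * (a : ℂ) := by
      push_cast
      ring
    rw [e, e1, ord_sp_add]
  have hc' : (b : ℤ) ^ 2 - 4 * a * (c - q * (b + a * q)) = D := by linear_combination hc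
  refine ⟨m, a, b, c - q * (b + a * q), hm, ha, ?_, by omega, hc', tid_prim hm ha hc' (e' ▸ h1), e'⟩
  rw [e', ctB_nm h1.isD.1 hm ha] at h3
  exact_mod_cast h3.symm

/-- the multiplicative function with prescribed values at prime powers -/
def tid_pf (r : ℕ → ℕ → ℝ) : ArithmeticFunction ℝ :=
  ⟨fun n => if n = 0 then 0 else n.factorization.prod r, by simp⟩

theorem tid_pf_apply (r : ℕ → ℕ → ℝ) {n : ℕ} (hn : n ≠ 0) :
    tid_pf r n = n.factorization.prod r := if_neg hn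

theorem tid_pf_mul (r : ℕ → ℕ → ℝ) : (tid_pf r).IsMultiplicative := by
  refine ArithmeticFunction.IsMultiplicative.iff_ne_zero.2 ⟨?_, fun {m n} hm hn h => ?_⟩
  · rw [tid_pf_apply r one_ne_zero]
    simp
  · rw [tid_pf_apply r hm, tid_pf_apply r hn, tid_pf_apply r (mul_ne_zero hm hn),
      Nat.factorization_mul_of_coprime h, Finsupp.prod_add_index_of_disjoint]
    simpa using h.disjoint_primeFactors

theorem tid_pf_pow {r : ℕ → ℕ → ℝ} {l : ℕ} (hl : l.Prime) (h0 : r l 0 = 1) (k : ℕ) :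
    tid_pf r (l ^ k) = r l k := by
  rw [tid_pf_apply r (pow_ne_zero _ hl.ne_zero), hl.factorization_pow, Finsupp.prod_single_index h0]

theorem tid_pf_nonneg {r : ℕ → ℕ → ℝ} (h : ∀ l k, 0 ≤ r l k) (n : ℕ) : 0 ≤ tid_pf r n := by
  by_cases hn : n = 0
  · simp [hn]
  · rw [tid_pf_apply r hn]
    exact Finset.prod_nonneg fun l _ => h _ _

theorem tid_conv_pow {r s : ℕ → ℕ → ℝ} {l : ℕ} (hl : l.Prime) (hr : r l 0 = 1) (hs : s l 0 = 1)
    (k : ℕ) : (tid_pf s * tid_pf r) (l ^ k) = ∑ i ∈ range (k + 1), s l i * r l (k - i) := by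
  rw [ArithmeticFunction.mul_apply,
    Nat.sum_divisorsAntidiagonal fun x y => tid_pf s x * tid_pf r y, Nat.sum_divisors_prime_pow hl]
  refine Finset.sum_congr rfl fun i hi => ?_
  rw [Nat.pow_div (Nat.lt_succ_iff.1 (mem_range.1 hi)) hl.pos, tid_pf_pow hl hr, tid_pf_pow hl hs]

/-- local condition on the middle coefficient -/
def tid_A (D : ℤ) (l k : ℕ) (b : ℤ) : Prop :=
  (l : ℤ) ^ k ∣ b ^ 2 - D ∧ (l ≠ 2 → ¬ ((l : ℤ) ∣ b ∧ (l : ℤ) ^ (k + 1) ∣ b ^ 2 - D))

/-- local majorant for the primitive ideals -/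
def tid_r (D : ℤ) (l k : ℕ) : ℝ :=
  if k = 0 then 1 else if l = 2 then (2 : ℝ) ^ (k / 2) else cnt (l ^ k) (tid_A D l k)

/-- local indicator of squares -/
def tid_s (_ k : ℕ) : ℝ := if Even k then 1 else 0

theorem tid_cnt_mono (q : ℕ) {A A' : ℤ → Prop} (h : ∀ x, A x → A' x) : cnt q A ≤ cnt q A' := by
  classical
  unfold cnt
  refine Finset.card_le_card fun x hx => ?_
  simp only [Finset.mem_filter] at hx ⊢
  exact ⟨hx.1, h _ hx.2⟩

theorem tid_cnt_dvd (l u : ℕ) {A : ℤ → Prop} (h : ∀ x, A x → (l : ℤ) ∣ x) :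
    cnt (l * u) A ≤ u := by
  classical
  unfold cnt
  refine le_trans (Finset.card_le_card (t := (range u).image fun x => l * x) fun x hx => ?_)
    (Finset.card_image_le.trans (Finset.card_range u).le)
  simp only [Finset.mem_filter, mem_range] at hx
  obtain ⟨y, rfl⟩ := Int.natCast_dvd_natCast.1 (h _ hx.2)
  exact Finset.mem_image.2 ⟨y, mem_range.2 (Nat.lt_of_mul_lt_mul_left hx.1), rfl⟩

theorem tid_cnt_zero (q : ℕ) {A : ℤ → Prop} (h : ∀ x, ¬ A x) : cnt q A = 0 := by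
  classical
  unfold cnt
  simp [h]

theorem tid_A_per (D : ℤ) (l : ℕ) {k : ℕ} (hk : k ≠ 0) (x y : ℤ) (hxy : (l : ℤ) ^ k ∣ x - y)
    (h : tid_A D l k x) : tid_A D l k y := by
  obtain ⟨j, rfl⟩ := Nat.exists_eq_succ_of_ne_zero hk
  obtain ⟨t, ht⟩ := hxy
  obtain rfl : x = y + (l : ℤ) ^ (j + 1) * t := by rw [← ht]; ring
  obtain ⟨⟨u, hu⟩, h2⟩ := h
  refine ⟨⟨u - t * (2 * y + (l : ℤ) ^ (j + 1) * t), by
    simp only [Nat.succ_eq_add_one] at hu ⊢
    linear_combination hu⟩, fun h3 h4 => h2 h3 ?_⟩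
  obtain ⟨⟨v, rfl⟩, ⟨w, hw⟩⟩ := h4
  refine ⟨⟨v + (l : ℤ) ^ j * t, by ring⟩, ⟨w + t * (2 * v + (l : ℤ) ^ j * t), ?_⟩⟩
  simp only [Nat.succ_eq_add_one] at hw ⊢
  linear_combination hw

theorem tid_r_zero (D : ℤ) (l : ℕ) : tid_r D l 0 = 1 := if_pos rfl

theorem tid_r_nonneg (D : ℤ) (l k : ℕ) : 0 ≤ tid_r D l k := by
  unfold tid_r
  split_ifs <;> positivity

theorem tid_s_nonneg (l k : ℕ) : 0 ≤ tid_s l k := by
  unfold tid_s
  split_ifs <;> norm_num

theorem tid_s_le (l k : ℕ) : tid_s l k ≤ 1 := by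
  unfold tid_s
  split_ifs <;> norm_num

theorem tid_cnt_A_le (D : ℤ) {l : ℕ} (hl : l.Prime) (k : ℕ) :
    (cnt (l ^ k) (tid_A D l k) : ℝ) ≤ 4 * (l : ℝ) ^ (k / 2) := by
  have := (tid_cnt_mono (l ^ k) (A := tid_A D l k) fun x hx => hx.1).trans (cnt_sq_le hl k D)
  exact_mod_cast this

theorem tid_r_le (D : ℤ) {l : ℕ} (hl : l.Prime) (k : ℕ) : tid_r D l k ≤ 4 * (l : ℝ) ^ (k / 2) := by
  unfold tid_r
  split_ifs with h1 h2
  · subst h1
    norm_num
  · subst h2
    have : (0 : ℝ) < 2 ^ (k / 2) := by positivity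
    push_cast
    linarith
  · exact tid_cnt_A_le D hl k

theorem tid_count (D : ℤ) {a : ℕ} (ha : 0 < a) :
    (cnt (2 * a) (fun b => ∀ l ∈ (2 * a).primeFactors, tid_A D l ((2 * a).factorization l) b) : ℝ) ≤
      8 * tid_pf (tid_r D) a := by
  have h2 : 2 * a ≠ 0 := by omega
  have hk : ∀ l ∈ (2 * a).primeFactors, (2 * a).factorization l ≠ 0 := fun l hl =>
    Finsupp.mem_support_iff.1 hl
  have h1 := cnt_prod (2 * a).primeFactors (fun l hl => Nat.prime_of_mem_primeFactors hl)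
    (fun l => (2 * a).factorization l) (fun l => tid_A D l ((2 * a).factorization l))
    fun l hl => tid_A_per D l (hk l hl)
  rw [← Nat.prod_primeFactors_pow_factorization h2] at h1
  have h3 : tid_pf (tid_r D) a = ∏ l ∈ (2 * a).primeFactors, tid_r D l (a.factorization l) := by
    rw [tid_pf_apply _ ha.ne']
    exact Finsupp.prod_of_support_subset _
      (Nat.primeFactors_mono (Dvd.intro_left 2 rfl) h2) _ fun l _ => tid_r_zero D l
  have h4 : (8 : ℝ) = ∏ l ∈ (2 * a).primeFactors, if l = 2 then (8 : ℝ) else 1 := by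
    rw [Finset.prod_ite_eq', if_pos]
    exact Nat.mem_primeFactors.2 ⟨Nat.prime_two, Dvd.intro _ rfl, h2⟩
  rw [h1, h3, h4, ← Finset.prod_mul_distrib, Nat.cast_prod]
  refine Finset.prod_le_prod (fun l _ => Nat.cast_nonneg _) fun l hl => ?_
  have hf : (2 * a).factorization l = (if l = 2 then 1 else 0) + a.factorization l := by
    rw [Nat.factorization_mul two_ne_zero ha.ne', Finsupp.add_apply, Nat.prime_two.factorization,
      Finsupp.single_apply]
    simp only [eq_comm]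
  by_cases h : l = 2
  · subst h
    rw [if_pos rfl] at hf ⊢
    refine (tid_cnt_A_le D Nat.prime_two _).trans ?_
    have h5 : tid_r D 2 (a.factorization 2) = 2 ^ (a.factorization 2 / 2) := by
      unfold tid_r
      split_ifs with h6 h7
      · simp [h6]
      · rfl
      · exact absurd rfl h7
    have h6 : (2 : ℝ) ^ ((1 + a.factorization 2) / 2) ≤ 2 ^ (a.factorization 2 / 2 + 1) :=
      pow_le_pow_right₀ one_le_two (by omega)
    rw [h5, hf]
    rw [pow_succ] at h6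
    push_cast
    linarith
  · have h5 := hk l hl
    rw [if_neg h, zero_add] at hf
    rw [hf] at h5
    rw [if_neg h, one_mul, hf, tid_r, if_neg h5, if_neg h]

theorem tid_mem {D : ℤ} {a b : ℕ} {c : ℤ} (ha : 0 < a) (hc : (b : ℤ) ^ 2 - 4 * a * c = D)
    (hg : Int.gcd (Int.gcd a b) c = 1) :
    ∀ l ∈ (2 * a).primeFactors, tid_A D l ((2 * a).factorization l) b := by
  intro l hl
  have h2 : 2 * a ≠ 0 := by omega
  have hp := Nat.prime_of_mem_primeFactors hl
  have hp' : Prime (l : ℤ) := Nat.prime_iff_prime_int.1 hp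
  have e : (b : ℤ) ^ 2 - D = ((2 * a : ℕ) : ℤ) * (2 * c) := by
    push_cast
    linear_combination hc
  refine ⟨?_, fun h3 h4 => ?_⟩
  · rw [e]
    refine Dvd.dvd.mul_right ?_ _
    exact_mod_cast Nat.ordProj_dvd (2 * a) l
  · have h5 : ¬ (l : ℤ) ∣ 2 := fun h => h3
      ((Nat.prime_dvd_prime_iff_eq hp Nat.prime_two).1 (by exact_mod_cast h))
    have h6 : (l : ℤ) ∣ a := by
      have : (l : ℤ) ∣ 2 * a := by exact_mod_cast Nat.dvd_of_mem_primeFactors hl
      exact (hp'.dvd_or_dvd this).resolve_left h5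
    have h7 : ¬ (l : ℤ) ∣ c := fun h => by
      have h8 : (l : ℤ) ∣ (Int.gcd (Int.gcd a b) c : ℤ) :=
        Int.dvd_coe_gcd (Int.dvd_coe_gcd h6 h4.1) h
      rw [hg] at h8
      exact hp'.not_dvd_one (by exact_mod_cast h8)
    have h8 : IsCoprime ((l : ℤ) ^ ((2 * a).factorization l + 1)) (2 * c) :=
      (hp'.coprime_iff_not_dvd.2 fun h => (hp'.dvd_or_dvd h).elim h5 h7).pow_left
    have h9 := h4.2
    rw [e] at h9
    exact Nat.pow_succ_factorization_not_dvd h2 hp (by exact_mod_cast h8.dvd_of_dvd_mul_right h9)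

theorem tid_s_sq {m : ℕ} (hm : m ≠ 0) : tid_pf tid_s (m ^ 2) = 1 := by
  rw [tid_pf_apply _ (pow_ne_zero _ hm)]
  refine Finset.prod_eq_one fun l _ => if_pos ?_
  rw [Nat.factorization_pow]
  simp

theorem tid_ncard (D : ℤ) {n : ℕ} (hn : 0 < n) :
    ((Idl D n).ncard : ℝ) ≤ 8 * (tid_pf tid_s * tid_pf (tid_r D)) n := by
  classical
  let T := n.divisorsAntidiagonal.filter fun p => ∃ m : ℕ, p.1 = m ^ 2
  let S : Finset (Σ _ : ℕ × ℕ, ℕ) := T.sigma fun p => (range (2 * p.2)).filter fun b : ℕ =>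
    ∀ l ∈ (2 * p.2).primeFactors, tid_A D l ((2 * p.2).factorization l) b
  have hsub : Idl D n ⊆ (fun x : Σ _ : ℕ × ℕ, ℕ =>
      pr (Nat.sqrt x.1.1 : ℕ) * sp x.1.2 ((x.2 + th D) / 2)) '' S := by
    intro 𝔞 h
    obtain ⟨m, a, b, c, hm, ha, h1, hb, hc, hg, rfl⟩ := Idl.shape' h
    refine ⟨⟨(m ^ 2, a), b⟩, ?_, by simp only [Nat.sqrt_eq']⟩
    refine Finset.mem_coe.2 (Finset.mem_sigma.2 ⟨Finset.mem_filter.2 ⟨?_, m, rfl⟩,
      Finset.mem_filter.2 ⟨mem_range.2 hb, tid_mem ha hc hg⟩⟩)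
    exact Nat.mem_divisorsAntidiagonal.2 ⟨h1.symm, hn.ne'⟩
  have h1 : (Idl D n).ncard ≤ S.card := by
    refine (Set.ncard_le_ncard hsub (S.finite_toSet.image _)).trans ?_
    refine (Set.ncard_image_le S.finite_toSet).trans ?_
    rw [Set.ncard_coe_finset]
  have h2 : ((Idl D n).ncard : ℝ) ≤ S.card := by exact_mod_cast h1
  refine h2.trans ?_
  rw [Finset.card_sigma, Nat.cast_sum, ArithmeticFunction.mul_apply, Finset.mul_sum]
  refine le_trans (Finset.sum_le_sum (g := fun p : ℕ × ℕ =>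
    8 * (tid_pf tid_s p.1 * tid_pf (tid_r D) p.2)) fun p hp => ?_)
    (Finset.sum_le_sum_of_subset_of_nonneg (Finset.filter_subset _ _) fun p _ _ =>
      mul_nonneg (by norm_num) (mul_nonneg (tid_pf_nonneg tid_s_nonneg _)
        (tid_pf_nonneg (tid_r_nonneg D) _)))
  obtain ⟨h3, m, h4⟩ := Finset.mem_filter.1 hp
  obtain ⟨h5, h6⟩ := Nat.mem_divisorsAntidiagonal.1 h3
  have h7 : p.1 * p.2 ≠ 0 := h5 ▸ h6
  have hm : m ≠ 0 := by
    rintro rfl
    exact left_ne_zero_of_mul h7 (by simpa using h4)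
  rw [h4, tid_s_sq hm, one_mul]
  refine le_trans (le_of_eq ?_) (tid_count D (Nat.pos_of_ne_zero (right_ne_zero_of_mul h7)))
  unfold cnt
  congr

theorem tid_odd (D : ℤ) {l : ℕ} (hl : l.Prime) (h2 : l ≠ 2) :
    tid_r D l 1 ≤ 2 ∧ tid_r D l 1 + tid_r D l 2 / l ≤ 1 + jacobiSym D l + 2 / l := by
  have hp' : Prime (l : ℤ) := Nat.prime_iff_prime_int.1 hl
  have hl0 : (0 : ℝ) < l := by exact_mod_cast hl.pos
  have e1 : tid_r D l 1 = cnt (l ^ 1) (tid_A D l 1) := by rw [tid_r, if_neg one_ne_zero, if_neg h2]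
  have e2 : tid_r D l 2 = cnt (l ^ 2) (tid_A D l 2) := by rw [tid_r, if_neg two_ne_zero, if_neg h2]
  have h5 : ¬ (l : ℤ) ∣ 2 := fun h => h2
    ((Nat.prime_dvd_prime_iff_eq hl Nat.prime_two).1 (by exact_mod_cast h))
  have h20 : (0 : ℝ) ≤ 2 / l := by positivity
  by_cases hD : (l : ℤ) ∣ D
  · have hJ : jacobiSym D l = 0 := by
      have : NeZero l := ⟨hl.ne_zero⟩
      refine jacobiSym.eq_zero_iff_not_coprime.2 fun h => hp'.not_dvd_one ?_
      have h1 : (l : ℤ) ∣ (Int.gcd D l : ℤ) := Int.dvd_coe_gcd hD dvd_rfl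
      rw [h] at h1
      exact_mod_cast h1
    have hb : ∀ k, k ≠ 0 → ∀ x, tid_A D l k x → (l : ℤ) ∣ x := fun k hk x hx => by
      have h1 := ((dvd_pow_self _ hk).trans hx.1).add hD
      rw [sub_add_cancel] at h1
      exact hp'.dvd_of_dvd_pow h1
    have h1 : tid_r D l 1 ≤ 1 := by
      have := tid_cnt_dvd l 1 (hb 1 one_ne_zero)
      rw [e1, pow_one]
      rw [mul_one] at this
      exact_mod_cast this
    refine ⟨by linarith, ?_⟩
    rw [hJ]
    by_cases hD2 : (l : ℤ) ^ 2 ∣ D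
    · have h3 : tid_r D l 1 = 0 := by
        rw [e1, tid_cnt_zero, Nat.cast_zero]
        intro x hx
        have h4 := hb 1 one_ne_zero x hx
        exact hx.2 h2 ⟨h4, (pow_dvd_pow_of_dvd h4 2).sub hD2⟩
      have h4 : tid_r D l 2 ≤ l := by
        have := tid_cnt_dvd l l (hb 2 two_ne_zero)
        rw [e2, sq]
        exact_mod_cast this
      have h6 : tid_r D l 2 / l ≤ 1 := (div_le_one hl0).2 h4
      push_cast
      linarith
    · have h3 : tid_r D l 2 = 0 := by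
        rw [e2, tid_cnt_zero, Nat.cast_zero]
        intro x hx
        have h4 := (pow_dvd_pow_of_dvd (hb 2 two_ne_zero x hx) 2).sub hx.1
        rw [sub_sub_cancel] at h4
        exact hD2 h4
      rw [h3, zero_div]
      push_cast
      linarith
  · have hd : ¬ (l : ℤ) ∣ (0 : ℤ) ^ 2 - 4 * 1 * (-D) := fun h => by
      have e : (0 : ℤ) ^ 2 - 4 * 1 * (-D) = 2 * (2 * D) := by ring
      rw [e] at h
      exact (hp'.dvd_or_dvd h).elim h5 fun h => (hp'.dvd_or_dvd h).elim h5 hD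
    have hJ : jacobiSym ((0 : ℤ) ^ 2 - 4 * 1 * (-D)) l = jacobiSym D l := by
      have e : (0 : ℤ) ^ 2 - 4 * 1 * (-D) = 2 ^ 2 * D := by ring
      rw [e, jacobiSym.mul_left, jacobiSym.sq_one', one_mul]
      exact Int.isCoprime_iff_gcd_eq_one.1 (hp'.coprime_iff_not_dvd.2 h5).symm
    have key : ∀ k, 0 < k → (cnt (l ^ k) (tid_A D l k) : ℝ) ≤ 1 + jacobiSym D l := fun k hk => by
      have h1 := cnt_hensel hl h2 hp'.not_dvd_one hd hk
      rw [hJ] at h1
      have h3 := tid_cnt_mono (l ^ k) (A := tid_A D l k)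
        (A' := fun y => (l : ℤ) ^ k ∣ 1 * y ^ 2 + 0 * y + -D) fun x hx => by
          have e : 1 * x ^ 2 + 0 * x + -D = x ^ 2 - D := by ring
          rw [e]
          exact hx.1
      have h4 : (cnt (l ^ k) (tid_A D l k) : ℤ) ≤ 1 + jacobiSym D l := by
        rw [← h1]
        exact_mod_cast h3
      exact_mod_cast h4
    have hJ1 : (jacobiSym D l : ℝ) ≤ 1 := by
      rcases jacobiSym.trichotomy D l with h | h | h <;> rw [h] <;> norm_num
    have h1 := key 1 one_pos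
    have h3 := key 2 two_pos
    rw [← e1] at h1
    rw [← e2] at h3
    have h4 : tid_r D l 2 / l ≤ 2 / l := div_le_div_of_nonneg_right (by linarith) hl0.le
    exact ⟨by linarith, by linarith⟩

theorem exists_fI : ∃ K : ℝ, 1 ≤ K ∧ ∀ D : ℤ, IsD D → ∃ f : ℕ → ℝ,
    HT K (fun l => jacobiSym D l) f ∧ ∀ n, 0 < n → ((Idl D n).ncard : ℝ) ≤ K * f n := by
  refine ⟨8, by norm_num, fun D _ => ⟨fun n => (tid_pf tid_s * tid_pf (tid_r D)) n, ?_,
    fun n hn => tid_ncard D hn⟩⟩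
  have hM := (tid_pf_mul tid_s).mul (tid_pf_mul (tid_r D))
  have hs0 : ∀ l, tid_s l 0 = 1 := fun l => if_pos Even.zero
  have hs1 : ∀ l, tid_s l 1 = 0 := fun l => if_neg Nat.not_even_one
  have hs2 : ∀ l, tid_s l 2 = 1 := fun l => if_pos even_two
  have f1 : ∀ l : ℕ, l.Prime → (tid_pf tid_s * tid_pf (tid_r D)) l = tid_r D l 1 := fun l hl => by
    have := tid_conv_pow hl (tid_r_zero D l) (hs0 l) 1
    rw [pow_one] at this
    rw [this]
    simp [Finset.sum_range_succ, hs0, hs1]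
  have f2 : ∀ l : ℕ, l.Prime → (tid_pf tid_s * tid_pf (tid_r D)) (l ^ 2) = tid_r D l 2 + 1 :=
    fun l hl => by
      rw [tid_conv_pow hl (tid_r_zero D l) (hs0 l) 2]
      simp [Finset.sum_range_succ, hs0, hs1, hs2, tid_r_zero]
  have r1 : tid_r D 2 1 = 1 := by simp [tid_r]
  have r2 : tid_r D 2 2 = 2 := by simp [tid_r]
  refine ⟨fun n => ?_, hM.map_one.le, fun m n h => (hM.map_mul_of_coprime h).le, fun l hl => ?_,
    fun l hl => ?_, fun l k hl => ?_⟩
  · rw [ArithmeticFunction.mul_apply]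
    exact Finset.sum_nonneg fun p _ => mul_nonneg (tid_pf_nonneg tid_s_nonneg _)
      (tid_pf_nonneg (tid_r_nonneg D) _)
  · rw [f1 l hl]
    by_cases h : l = 2
    · rw [h, r1]
      norm_num
    · exact (tid_odd D hl h).1
  · rw [f1 l hl, f2 l hl]
    by_cases h : l = 2
    · subst h
      have hJ : (-1 : ℝ) ≤ jacobiSym D 2 := by
        rcases jacobiSym.trichotomy D 2 with h | h | h <;> rw [h] <;> norm_num
      rw [r1, r2]
      push_cast
      linarith
    · have h1 := (tid_odd D hl h).2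
      have hl0 : (0 : ℝ) < l := by exact_mod_cast hl.pos
      have h2 : (2 : ℝ) / l + 1 / l ≤ 8 / l := by
        rw [← add_div]
        exact div_le_div_of_nonneg_right (by norm_num) hl0.le
      rw [add_div]
      linarith
  · rw [tid_conv_pow hl (tid_r_zero D l) (hs0 l) k]
    have hl1 : (1 : ℝ) ≤ l := by exact_mod_cast hl.one_le
    have h1 : (l : ℝ) ^ (k / 2) ≤ Real.sqrt (l ^ k) := by
      refine Real.le_sqrt_of_sq_le ?_
      rw [← pow_mul]
      exact pow_le_pow_right₀ hl1 (by omega)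
    have h2 := Finset.sum_le_card_nsmul (range (k + 1)) (fun i => tid_s l i * tid_r D l (k - i))
      (8 * Real.sqrt (l ^ k)) fun i _ => by
        have h3 := tid_r_le D hl (k - i)
        have h4 : (l : ℝ) ^ ((k - i) / 2) ≤ l ^ (k / 2) := pow_le_pow_right₀ hl1 (by omega)
        have h5 := mul_le_of_le_one_left (tid_r_nonneg D l (k - i)) (tid_s_le l i)
        have h6 := Real.sqrt_nonneg ((l : ℝ) ^ k)
        linarith
    rw [Finset.card_range, nsmul_eq_mul] at h2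
    push_cast at h2
    linarith

end Pool.Agent.EQ
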