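import Pool.Agent.P.MP_ad7a55_nt.SgB
import Pool.Agent.P.MP_ad7a55_nt.SgE

/-! Real characters given by the Jacobi symbol. -/

set_option autoImplicit false

noncomputable section

open Finset

namespace Pool.Agent.EQ

/-- A real character whose sums are bounded by `q`. -/
structure RC (q : ℕ) (ψ : ℕ → ℝ) : Prop where
  val : ∀ n, ψ n = 0 ∨ ψ n = 1 ∨ ψ n = -1
  one : ψ 1 = 1
  mul : ∀ m n, ψ (m * n) = ψ m * ψ n
  bd : ∀ N, |∑ n ∈ Icc 1 N, ψ n| ≤ q

/-- The Jacobi symbol on odd numbers. -/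
def jc (Δ : ℤ) (n : ℕ) : ℝ := if Odd n then (jacobiSym Δ n : ℝ) else 0

theorem tjac_odd_exp {N : ℕ} (h : ¬ IsSquare N) :
    ∃ p e M : ℕ, p.Prime ∧ ¬ p ∣ M ∧ N = p ^ (2 * e + 1) * M := by
  obtain ⟨a, b, hab, ha⟩ := Nat.sq_mul_squarefree N
  have hb : b ≠ 0 := by
    rintro rfl
    exact h ⟨0, by simp [← hab]⟩
  have h1 : a ≠ 1 := by
    rintro rfl
    exact h ⟨b, by rw [← hab]; ring⟩
  obtain ⟨p, hp, a', rfl⟩ := Nat.exists_prime_and_dvd h1
  obtain ⟨e, b', h2, rfl⟩ := Nat.exists_eq_pow_mul_and_not_dvd hb p hp.ne_one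
  refine ⟨p, e, b' ^ 2 * a', hp, fun h3 => ?_, by rw [← hab]; ring⟩
  rcases (Nat.Prime.dvd_mul hp).1 h3 with h4 | h4
  · exact h2 (hp.dvd_of_dvd_pow h4)
  · exact hp.one_lt.ne' (Nat.isUnit_iff.1 (ha p (mul_dvd_mul_left p h4)))

theorem tjac_one {a : ℤ} (ha : a ≠ 0) {n : ℕ} (h : n ≡ 1 [MOD 4 * a.natAbs]) :
    n % 4 = 1 ∧ jacobiSym a n = 1 := by
  have h0 := Int.natAbs_pos.2 ha
  have h4 : n % 4 = 1 := h.of_mul_right _
  refine ⟨h4, ?_⟩
  rw [jacobiSym.mod_right a (Nat.odd_iff.2 (by omega)), h, Nat.mod_eq_of_lt (by omega),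
    jacobiSym.one_right]

theorem tjac_prime {p M : ℕ} (hp : p.Prime) (hM : ¬ p ∣ M) :
    ∃ n : ℕ, Odd n ∧ jacobiSym p n = -1 ∧ jacobiSym M n = 1 := by
  have hc : p.Coprime M := (Nat.Prime.coprime_iff_not_dvd hp).2 hM
  rcases hp.eq_two_or_odd' with rfl | ho
  · have hMo : Odd M := Nat.coprime_two_left.1 hc
    obtain ⟨n, h1, h2⟩ := Nat.chineseRemainder (hc.pow_left 3) 5 1
    have h3 : n % 8 = 5 := h1
    have hn : Odd n := Nat.odd_iff.2 (by omega)
    refine ⟨n, hn, ?_, ?_⟩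
    · rw [Nat.cast_ofNat, jacobiSym.at_two hn, ZMod.χ₈_nat_mod_eight, h3]
      decide
    · rw [← jacobiSym.quadratic_reciprocity_one_mod_four (by omega) hMo,
        jacobiSym.mod_left' (a₂ := 1) (by exact_mod_cast h2), jacobiSym.one_left]
  · have : Fact p.Prime := ⟨hp⟩
    have h2 : p ≠ 2 := by
      rintro rfl
      exact absurd ho (by decide)
    obtain ⟨x, hx⟩ := FiniteField.exists_nonsquare (F := ZMod p) (by rwa [ZMod.ringChar_zmod_n])
    have hc4 : p.Coprime (4 * M) :=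
      Nat.Coprime.mul_right ((Nat.coprime_two_right.2 ho).pow_right 2) hc
    obtain ⟨n, h3, h4⟩ := Nat.chineseRemainder hc4 x.val 1
    have hM0 : (M : ℤ) ≠ 0 := by
      rintro h
      exact hM (by rw [Int.natCast_eq_zero.1 h]; exact dvd_zero p)
    obtain ⟨h5, h6⟩ := tjac_one hM0 (n := n) (by simpa using h4)
    refine ⟨n, Nat.odd_iff.2 (by omega), ?_, h6⟩
    rw [← jacobiSym.quadratic_reciprocity_one_mod_four h5 ho,
      ZMod.nonsquare_iff_jacobiSym_eq_neg_one, Int.cast_natCast,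
      (ZMod.natCast_eq_natCast_iff _ _ _).2 h3, ZMod.natCast_zmod_val]
    exact hx

theorem exists_jac_neg {Δ : ℤ} (h : ¬ IsSquare Δ) : ∃ n : ℕ, Odd n ∧ jacobiSym Δ n = -1 := by
  rcases lt_or_ge Δ 0 with h0 | h0
  · obtain ⟨n, hn⟩ : ∃ n, n + 1 = 4 * Δ.natAbs := ⟨4 * Δ.natAbs - 1, by omega⟩
    have h2 := sge_jac hn
    rw [show -(Δ.natAbs : ℤ) = Δ by omega] at h2
    exact ⟨n, Nat.odd_iff.2 (by omega), h2⟩
  · lift Δ to ℕ using h0
    obtain ⟨p, e, M, hp, hM, rfl⟩ := tjac_odd_exp (mt Int.isSquare_natCast_iff.2 h)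
    obtain ⟨n, h1, h2, h3⟩ := tjac_prime hp hM
    refine ⟨n, h1, ?_⟩
    rw [Nat.cast_mul, Nat.cast_pow, jacobiSym.mul_left, jacobiSym.pow_left, h2, h3, mul_one]
    exact Odd.neg_one_pow ⟨e, rfl⟩

theorem rc_jc {Δ : ℤ} (h : ¬ IsSquare Δ) : RC (4 * Δ.natAbs) (jc Δ) := by
  have h0 : Δ ≠ 0 := by
    rintro rfl
    exact h IsSquare.zero
  have : NeZero (4 * Δ.natAbs) := ⟨by have := Int.natAbs_pos.2 h0; omega⟩
  have e : ∀ n : ℕ, sgeChi Δ (n : ZMod (4 * Δ.natAbs)) = (jc Δ n : ℝ) := fun n => by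
    rw [sgeChi_nat, jc]
    split_ifs <;> simp
  refine ⟨fun n => ?_, by simp [jc], fun m n => ?_, fun N => ?_⟩
  · unfold jc
    split_ifs
    · rcases jacobiSym.trichotomy Δ n with h | h | h <;> simp [h]
    · exact Or.inl rfl
  · have := map_mul (sgeChi Δ) (m : ZMod (4 * Δ.natAbs)) n
    rw [← Nat.cast_mul, e, e, e] at this
    exact_mod_cast this
  · have hχ : sgeChi Δ ≠ 1 := fun h1 => by
      obtain ⟨n, hn, h2⟩ := exists_jac_neg h
      have h3 := sgeChi_nat Δ n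
      rw [if_pos hn, h2, h1] at h3
      by_cases hu : IsUnit (n : ZMod (4 * Δ.natAbs))
      · rw [MulChar.one_apply hu] at h3
        norm_num at h3
      · rw [MulChar.map_nonunit _ hu] at h3
        norm_num at h3
    have := sgb_le_q hχ N
    simp only [sgbA, e] at this
    rwa [← Complex.ofReal_sum, Complex.norm_real, Real.norm_eq_abs] at this

theorem tjac_sum {l : ℕ} [NeZero l] (f : ZMod l → ℤ) :
    ∑ r ∈ range l, f (r : ZMod l) = ∑ x, f x :=
  sum_nbij' (fun r => (r : ZMod l)) ZMod.val (fun _ _ => mem_univ _)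
    (fun x _ => mem_range.2 (ZMod.val_lt x))
    (fun _ hr => ZMod.val_cast_of_lt (mem_range.1 hr)) (fun x _ => ZMod.natCast_zmod_val x)
    fun _ _ => rfl

theorem tjac_field {F : Type} [Field F] [Fintype F] [DecidableEq F] (hF : ringChar F ≠ 2) {a : F}
    (ha : a ≠ 0) : ∑ x : F, quadraticChar F (x ^ 2 - a) = -1 := by
  have h2 : (2 : F) ≠ 0 := Ring.two_ne_zero hF
  have h1 : (univ.filter fun p : F × F => p.2 ^ 2 = p.1 ^ 2 - a).card =
      (univ.erase (0 : F)).card := by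
    have h3 : ∀ p : F × F, p.2 ^ 2 = p.1 ^ 2 - a → p.1 - p.2 ≠ 0 := fun p hp h =>
      ha (by linear_combination hp + (p.1 + p.2) * h)
    refine card_nbij' (fun p => p.1 - p.2) (fun u => ((u + a / u) / 2, (a / u - u) / 2))
      (fun p hp => ?_) (fun u hu => ?_) (fun p hp => ?_) (fun u _ => ?_)
    · simpa using h3 p (by simpa using hp)
    · have : u ≠ 0 := by simpa using hu
      simp only [coe_filter, mem_univ, true_and, Set.mem_ofPred_eq]
      field_simp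
      ring
    · have h4 : p.2 ^ 2 = p.1 ^ 2 - a := by simpa using hp
      have h5 : a / (p.1 - p.2) = p.1 + p.2 := by
        rw [div_eq_iff (h3 p h4)]
        linear_combination h4
      refine Prod.ext ?_ ?_ <;> simp only [h5] <;> field_simp <;> ring
    · simp only
      rw [← sub_div, div_eq_iff h2]
      ring
  have h4 : ∑ x : F, (quadraticChar F (x ^ 2 - a) + 1) =
      (univ.filter fun p : F × F => p.2 ^ 2 = p.1 ^ 2 - a).card := by
    rw [card_filter, Fintype.sum_prod_type, Nat.cast_sum]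
    refine sum_congr rfl fun x _ => ?_
    rw [← quadraticChar_card_sqrts hF, Set.toFinset_ofPred, card_filter]
  rw [h1, card_erase_of_mem (mem_univ _), sum_add_distrib, Nat.cast_sub (card_pos.2 univ_nonempty)]
    at h4
  simp only [sum_const, nsmul_eq_mul, mul_one, Nat.cast_one] at h4
  linarith

theorem sum_jac_sq {l : ℕ} (hl : l.Prime) (h2 : l ≠ 2) {a : ℤ} (ha : ¬ (l : ℤ) ∣ a) :
    ∑ r ∈ range l, jacobiSym ((r : ℤ) ^ 2 - a) l = -1 := by
  have : Fact l.Prime := ⟨hl⟩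
  rw [← tjac_field (F := ZMod l) (by rwa [ZMod.ringChar_zmod_n]) (a := a)
    (by rwa [Ne, ZMod.intCast_zmod_eq_zero_iff_dvd]), ← tjac_sum]
  refine sum_congr rfl fun r _ => ?_
  rw [← jacobiSym.legendreSym.to_jacobiSym, legendreSym]
  push_cast
  rfl

theorem card_sq_roots {l : ℕ} (hl : l.Prime) (h2 : l ≠ 2) (a : ℤ) :
    (((range l).filter fun r : ℕ => (l : ℤ) ∣ (r : ℤ) ^ 2 - a).card : ℤ) = 1 + jacobiSym a l := by
  have : Fact l.Prime := ⟨hl⟩
  rw [← jacobiSym.legendreSym.to_jacobiSym, add_comm, ← legendreSym.card_sqrts l h2,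
    Set.toFinset_ofPred, card_filter, card_filter]
  push_cast
  rw [← tjac_sum]
  refine sum_congr rfl fun r _ => if_congr ?_ rfl rfl
  rw [← ZMod.intCast_zmod_eq_zero_iff_dvd, ← sub_eq_zero (a := (r : ZMod l) ^ 2)]
  push_cast
  rfl

/-- Two odd primes at which finitely many nonzero integers are squares. -/
theorem exists_split (T : Finset ℤ) (hT : ∀ d ∈ T, d ≠ 0) : ∃ p q : ℕ, p.Prime ∧ q.Prime ∧
    p ≠ 2 ∧ q ≠ 2 ∧ p ≠ q ∧ ∀ d ∈ T, jacobiSym d p = 1 ∧ jacobiSym d q = 1 := by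
  have h0 : 4 * ∏ d ∈ T, d.natAbs ≠ 0 :=
    mul_ne_zero (by norm_num) (prod_ne_zero_iff.2 fun d hd => Int.natAbs_ne_zero.2 (hT d hd))
  obtain ⟨p, hp, h1, h2⟩ := Nat.exists_prime_gt_modEq_one 2 h0
  obtain ⟨q, hq, h3, h4⟩ := Nat.exists_prime_gt_modEq_one p h0
  refine ⟨p, q, hp, hq, by omega, by omega, by omega, fun d hd => ?_⟩
  have h5 : 4 * d.natAbs ∣ 4 * ∏ d ∈ T, d.natAbs := mul_dvd_mul_left _ (dvd_prod_of_mem _ hd)
  exact ⟨(tjac_one (hT d hd) (h2.of_dvd h5)).2, (tjac_one (hT d hd) (h4.of_dvd h5)).2⟩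

end Pool.Agent.EQ
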