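import Mathlib

/-! Pairs of integral matrices up to conjugation: the local-global principle. -/

set_option autoImplicit false

noncomputable section

open Finset Matrix

namespace Pool.Agent.EQ

/-- Integral two by two matrices. -/
abbrev M2 : Type := Matrix (Fin 2) (Fin 2) ℤ

/-- The matrix of `√(B² - 4AC)` on the lattice with basis `1, -τ`, `A τ² + B τ + C = 0`. -/
def Th (A B C : ℤ) : M2 := !![B, 2 * C; -2 * A, -B]

/-- `Θ` comes from a primitive positive form of discriminant `E`. -/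
def IsTh (E : ℤ) (Θ : M2) : Prop :=
  ∃ A B C : ℤ, 0 < A ∧ Int.gcd (Int.gcd A B) C = 1 ∧ B ^ 2 - 4 * A * C = E ∧ Θ = Th A B C

/-- The determinant of two vectors. -/
def dt (v w : Fin 2 → ℤ) : ℤ := v 0 * w 1 - v 1 * w 0

/-- The value of the form at `v` is prime to `l`. -/
def Gn (l : ℕ) (Θ : M2) (v : Fin 2 → ℤ) : Prop := ¬ (2 * l : ℤ) ∣ dt v (Θ *ᵥ v)

/-- Pairs with given invariants. -/
def Pr (E Y N x : ℤ) (P : M2 × M2) : Prop :=
  IsTh E P.1 ∧ P.2.trace = Y ∧ P.2.det = N ∧ (P.1 * P.2).trace = x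

/-- Equivalence at the prime `l`. -/
def Leq (l : ℕ) (P P' : M2 × M2) : Prop :=
  ∃ g : M2, ¬ (l : ℤ) ∣ g.det ∧ g * P.1 = P'.1 * g ∧ g * P.2 = P'.2 * g

/-- Global equivalence. -/
def Geq (P P' : M2 × M2) : Prop :=
  ∃ g : M2, g.det = 1 ∧ g * P.1 = P'.1 * g ∧ g * P.2 = P'.2 * g

/-- `S` has at most `W` pairwise unrelated elements. -/
def Few {α : Type} (R : α → α → Prop) (S : Set α) (W : ℝ) : Prop :=
  ∀ T : Finset α, (∀ a ∈ T, a ∈ S) → (∀ a ∈ T, ∀ b ∈ T, a ≠ b → ¬ R a b) → (T.card : ℝ) ≤ W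

theorem Few.mono {α : Type} {R : α → α → Prop} {S S' : Set α} {W W' : ℝ} (h : Few R S W)
    (hS : S' ⊆ S) (hW : W ≤ W') : Few R S' W' :=
  fun T h1 h2 => (h T (fun a ha => hS (h1 a ha)) h2).trans hW

theorem Few.nonneg {α : Type} {R : α → α → Prop} {S : Set α} {W : ℝ} (h : Few R S W) : 0 ≤ W := by
  simpa using h ∅ (by simp) (by simp)

theorem Few.of_rel {α β : Type} {R : α → α → Prop} {R' : β → β → Prop} {S : Set α} {S' : Set β}
    {W : ℝ} (h : Few R' S' W) (φ : α → β → Prop) (h1 : ∀ a ∈ S, ∃ b ∈ S', φ a b)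
    (h2 : ∀ a ∈ S, ∀ a' ∈ S, ∀ b b', φ a b → φ a' b' → (b = b' ∨ R' b b') → R a a') :
    Few R S W := by
  classical
  intro T hT hT'
  choose f hf hf' using h1
  let g : {a // a ∈ T} → β := fun a => f a.1 (hT a.1 a.2)
  have key : ∀ a b : {a // a ∈ T}, (g a = g b ∨ R' (g a) (g b)) → a = b := fun a b hab => by
    by_contra hne
    exact hT' a.1 a.2 b.1 b.2 (fun e => hne (Subtype.ext e))
      (h2 a.1 (hT a.1 a.2) b.1 (hT b.1 b.2) _ _ (hf' _ _) (hf' _ _) hab)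
  have hinj : Function.Injective g := fun a b e => key a b (Or.inl e)
  have h3 := h (T.attach.image g) (fun b hb => by
    obtain ⟨a, -, rfl⟩ := Finset.mem_image.1 hb
    exact hf _ _) (fun b hb c hc hbc hR => by
    obtain ⟨a, -, rfl⟩ := Finset.mem_image.1 hb
    obtain ⟨a', -, rfl⟩ := Finset.mem_image.1 hc
    exact hbc (congrArg g (key a a' (Or.inr hR))))
  rwa [Finset.card_image_of_injective _ hinj, Finset.card_attach] at h3

/-- Elements with the same label are related. -/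
theorem few_of_label {α β : Type} {R : α → α → Prop} {S : Set α} (L : Finset β) (φ : α → β → Prop)
    (h1 : ∀ a ∈ S, ∃ b ∈ L, φ a b) (h2 : ∀ a ∈ S, ∀ a' ∈ S, ∀ b, φ a b → φ a' b → R a a') :
    Few R S L.card := by
  have h0 : Few (fun _ _ : β => False) (L : Set β) L.card := fun T hT _ => by
    exact_mod_cast Finset.card_le_card fun a ha => Finset.mem_coe.1 (hT a ha)
  refine h0.of_rel φ (fun a ha => ?_) fun a ha a' ha' b b' hb hb' e => ?_
  · obtain ⟨b, hb, h⟩ := h1 a ha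
    exact ⟨b, Finset.mem_coe.2 hb, h⟩
  · rcases e with rfl | e
    · exact h2 a ha a' ha' b hb hb'
    · exact e.elim

theorem tlg_max {α : Type} (R : α → α → Prop) (T : Finset α)
    (hs : ∀ a b, R a b → R b a) : ∃ T₀ : Finset α, T₀ ⊆ T ∧
      (∀ a ∈ T₀, ∀ b ∈ T₀, a ≠ b → ¬ R a b) ∧ ∀ a ∈ T, ∃ a₀ ∈ T₀, a = a₀ ∨ R a a₀ := by
  classical
  induction T using Finset.induction_on with
  | empty => exact ⟨∅, by simp, by simp, by simp⟩
  | insert a T ha ih =>
    obtain ⟨T₀, h1, h2, h3⟩ := ih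
    by_cases h : ∃ a₀ ∈ T₀, a = a₀ ∨ R a a₀
    · refine ⟨T₀, h1.trans (Finset.subset_insert _ _), h2, fun b hb => ?_⟩
      rcases Finset.mem_insert.1 hb with rfl | hb
      · exact h
      · exact h3 b hb
    · refine ⟨insert a T₀, Finset.insert_subset_insert _ h1, fun b hb c hc hbc => ?_, fun b hb => ?_⟩
      · rcases Finset.mem_insert.1 hb with rfl | hb' <;> rcases Finset.mem_insert.1 hc with rfl | hc'
        · exact absurd rfl hbc
        · exact fun hR => h ⟨c, hc', Or.inr hR⟩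
        · exact fun hR => h ⟨b, hb', Or.inr (hs _ _ hR)⟩
        · exact h2 b hb' c hc' hbc
      · rcases Finset.mem_insert.1 hb with rfl | hb'
        · exact ⟨b, Finset.mem_insert_self _ _, Or.inl rfl⟩
        · obtain ⟨a₀, h4, h5⟩ := h3 b hb'
          exact ⟨a₀, Finset.mem_insert_of_mem h4, h5⟩

theorem tlg_cover {α ζ : Type} (T₀ : Finset α) (Z : Finset ζ) (ψ : ζ → α → Prop) {m : ℝ}
    (h1 : ∀ z ∈ Z, ∃ a ∈ T₀, ψ z a)
    (h2 : ∀ a ∈ T₀, ∀ Z' ⊆ Z, (∀ z ∈ Z', ψ z a) → (Z'.card : ℝ) ≤ m) :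
    (Z.card : ℝ) ≤ T₀.card * m := by
  classical
  have h3 : Z ⊆ T₀.biUnion fun a => Z.filter fun z => ψ z a := fun z hz => by
    obtain ⟨a, ha, h⟩ := h1 z hz
    exact Finset.mem_biUnion.2 ⟨a, ha, Finset.mem_filter.2 ⟨hz, h⟩⟩
  have h4 : (Z.card : ℝ) ≤ ∑ a ∈ T₀, ((Z.filter fun z => ψ z a).card : ℝ) := by
    exact_mod_cast (Finset.card_le_card h3).trans Finset.card_biUnion_le
  refine h4.trans ?_
  rw [← nsmul_eq_mul]
  exact Finset.sum_le_card_nsmul _ _ _ fun a ha =>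
    h2 a ha _ (Finset.filter_subset _ _) fun z hz => (Finset.mem_filter.1 hz).2

/-- Finitely many equivalence relations. -/
theorem few_prod {α ι : Type} (I : Finset ι) (R : ι → α → α → Prop) {S : Set α} (W : ι → ℝ)
    (hs : ∀ i ∈ I, ∀ a b, R i a b → R i b a) (ht : ∀ i ∈ I, ∀ a b c, R i a b → R i b c → R i a c)
    (h : ∀ i ∈ I, Few (R i) S (W i)) : Few (fun a b => ∀ i ∈ I, R i a b) S (∏ i ∈ I, W i) := by
  classical
  induction I using Finset.induction_on with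
  | empty =>
    intro T _ hT'
    rw [Finset.prod_empty]
    have : T.card ≤ 1 := Finset.card_le_one.2 fun a ha b hb => by
      by_contra hne
      exact hT' a ha b hb hne (by simp)
    exact_mod_cast this
  | insert i I hi ih =>
    have ih' := ih (fun j hj => hs j (Finset.mem_insert_of_mem hj))
      (fun j hj => ht j (Finset.mem_insert_of_mem hj)) (fun j hj => h j (Finset.mem_insert_of_mem hj))
    have hs' := hs i (Finset.mem_insert_self _ _)
    have ht' := ht i (Finset.mem_insert_self _ _)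
    intro T hT hT'
    obtain ⟨T₀, h1, h2, h3⟩ := tlg_max (R i) T hs'
    have h4 := h i (Finset.mem_insert_self _ _) T₀ (fun a ha => hT a (h1 ha)) h2
    have h5 := tlg_cover T₀ T (fun a a₀ => a = a₀ ∨ R i a a₀) (m := ∏ j ∈ I, W j) h3
      fun a₀ _ Z' hZ' hZ => ih' Z' (fun a ha => hT a (hZ' ha)) fun a ha b hb hab hR =>
        hT' a (hZ' ha) b (hZ' hb) hab fun j hj => by
          rcases Finset.mem_insert.1 hj with rfl | hj'
          · rcases hZ a ha with e | e <;> rcases hZ b hb with e' | e'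
            · exact absurd (e.trans e'.symm) hab
            · exact e ▸ hs' _ _ e'
            · exact e' ▸ e
            · exact ht' _ _ _ e (hs' _ _ e')
          · exact hR j hj'
    rw [Finset.prod_insert hi]
    exact h5.trans (mul_le_mul_of_nonneg_right h4 ih'.nonneg)

/-- Counting with fibres over equivalence classes. -/
theorem card_le_few {α ζ : Type} {R : α → α → Prop} {S : Set α} {W : ℝ} (h : Few R S W)
    (hr : ∀ a, R a a) (hs : ∀ a b, R a b → R b a) (Z : Finset ζ) (φ : ζ → α → Prop)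
    (h1 : ∀ z ∈ Z, ∃ a ∈ S, φ z a) {m : ℕ}
    (hm : ∀ a₀ ∈ S, ∀ Z' ⊆ Z, (∀ z ∈ Z', ∃ a, φ z a ∧ R a a₀) → Z'.card ≤ m) :
    (Z.card : ℝ) ≤ m * W := by
  classical
  choose f hf hf' using h1
  let g : {z // z ∈ Z} → α := fun z => f z.1 z.2
  obtain ⟨T₀, h1, h2, h3⟩ := tlg_max R (Z.attach.image g) hs
  have hS : ∀ a ∈ T₀, a ∈ S := fun a ha => by
    obtain ⟨z, -, rfl⟩ := Finset.mem_image.1 (h1 ha)
    exact hf _ _
  have h4 := h T₀ hS h2
  have h5 := tlg_cover T₀ Z (fun z a₀ => ∃ a, φ z a ∧ R a a₀) (m := m) (fun z hz => by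
    obtain ⟨a₀, h6, h7⟩ := h3 (g ⟨z, hz⟩) (Finset.mem_image_of_mem _ (Finset.mem_attach _ _))
    refine ⟨a₀, h6, g ⟨z, hz⟩, hf' _ _, ?_⟩
    rcases h7 with e | e
    · exact e ▸ hr _
    · exact e) fun a₀ ha Z' hZ' hZ => by exact_mod_cast hm a₀ (hS a₀ ha) Z' hZ' hZ
  rw [mul_comm] at h5
  exact h5.trans (mul_le_mul_of_nonneg_left h4 (Nat.cast_nonneg _))

theorem tlg_adj {g X X' : M2} (hg : g.det ≠ 0) (h : g * X = X' * g) :
    g.adjugate * X' = X * g.adjugate := by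
  apply smul_right_injective M2 hg
  calc g.det • (g.adjugate * X') = g.adjugate * X' * (g * g.adjugate) := by
        rw [Matrix.mul_adjugate, Matrix.mul_smul, Matrix.mul_one]
    _ = g.adjugate * (g * X) * g.adjugate := by rw [h]; simp only [Matrix.mul_assoc]
    _ = g.det • (X * g.adjugate) := by
        rw [← Matrix.mul_assoc, Matrix.adjugate_mul, Matrix.smul_mul, Matrix.one_mul,
          Matrix.smul_mul]

theorem tlg_det_adj (g : M2) : g.adjugate.det = g.det := by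
  rw [Matrix.det_adjugate]
  simp

theorem Leq.refl {l : ℕ} (hl : l.Prime) (P : M2 × M2) : Leq l P P := by
  refine ⟨1, ?_, by simp, by simp⟩
  rw [Matrix.det_one]
  exact (Nat.prime_iff_prime_int.1 hl).not_dvd_one

theorem Leq.symm {l : ℕ} {P P' : M2 × M2} (h : Leq l P P') : Leq l P' P := by
  obtain ⟨g, hg, h1, h2⟩ := h
  have hg0 : g.det ≠ 0 := fun h0 => hg (h0 ▸ dvd_zero _)
  exact ⟨g.adjugate, by rwa [tlg_det_adj], tlg_adj hg0 h1, tlg_adj hg0 h2⟩

theorem Leq.trans {l : ℕ} (hl : l.Prime) {P P' P'' : M2 × M2} (h : Leq l P P') (h' : Leq l P' P'') :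
    Leq l P P'' := by
  obtain ⟨g, hg, h1, h2⟩ := h
  obtain ⟨g', hg', h1', h2'⟩ := h'
  refine ⟨g' * g, fun hd => ?_, ?_, ?_⟩
  · rw [Matrix.det_mul] at hd
    exact ((Nat.prime_iff_prime_int.1 hl).dvd_or_dvd hd).elim hg' hg
  · rw [Matrix.mul_assoc, h1, ← Matrix.mul_assoc, h1', Matrix.mul_assoc]
  · rw [Matrix.mul_assoc, h2, ← Matrix.mul_assoc, h2', Matrix.mul_assoc]

theorem Geq.refl (P : M2 × M2) : Geq P P := by
  exact ⟨1, Matrix.det_one, by simp, by simp⟩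

theorem Geq.symm {P P' : M2 × M2} (h : Geq P P') : Geq P' P := by
  obtain ⟨g, hg, h1, h2⟩ := h
  have hg0 : g.det ≠ 0 := by rw [hg]; exact one_ne_zero
  exact ⟨g.adjugate, by rwa [tlg_det_adj], tlg_adj hg0 h1, tlg_adj hg0 h2⟩

theorem IsTh.sq {E : ℤ} {Θ : M2} (h : IsTh E Θ) : Θ * Θ = E • (1 : M2) ∧ Θ.trace = 0 := by
  obtain ⟨A, B, C, -, -, rfl, rfl⟩ := h
  refine ⟨?_, by simp [Th, Matrix.trace_fin_two]⟩
  ext i j
  fin_cases i <;> fin_cases j <;> simp [Th, Matrix.mul_apply, Fin.sum_univ_two] <;> ring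

theorem tlg_dt (A B C : ℤ) (v : Fin 2 → ℤ) :
    dt v (Th A B C *ᵥ v) = -2 * (A * v 0 ^ 2 + B * v 0 * v 1 + C * v 1 ^ 2) := by
  simp [dt, Th, Matrix.mulVec, dotProduct, Fin.sum_univ_two]
  ring

theorem IsTh.exists_gn {E : ℤ} {Θ : M2} (h : IsTh E Θ) {l : ℕ} (hl : l.Prime) :
    ∃ v, Gn l Θ v := by
  obtain ⟨A, B, C, -, hg, -, rfl⟩ := h
  by_contra hn
  have key : ∀ v : Fin 2 → ℤ, (l : ℤ) ∣ A * v 0 ^ 2 + B * v 0 * v 1 + C * v 1 ^ 2 := fun v => by
    have h1 : (2 * l : ℤ) ∣ dt v (Th A B C *ᵥ v) := by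
      by_contra h2
      exact hn ⟨v, h2⟩
    rw [tlg_dt, neg_mul, dvd_neg] at h1
    exact (mul_dvd_mul_iff_left two_ne_zero).1 h1
  have hA : (l : ℤ) ∣ A := by simpa using key ![1, 0]
  have hC : (l : ℤ) ∣ C := by simpa using key ![0, 1]
  have hB : (l : ℤ) ∣ B := by
    have h1 : (l : ℤ) ∣ A + B + C := by simpa using key ![1, 1]
    have h2 := (h1.sub hA).sub hC
    rwa [show A + B + C - A - C = B by ring] at h2
  have h3 : (l : ℤ) ∣ (Int.gcd (Int.gcd A B) C : ℕ) :=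
    Int.dvd_coe_gcd (Int.dvd_coe_gcd hA hB) hC
  rw [hg] at h3
  exact (Nat.prime_iff_prime_int.1 hl).not_dvd_one (by simpa using h3)

theorem tlg_scalar {E Y N x : ℤ} (hx : x ^ 2 ≠ E * (Y ^ 2 - 4 * N)) {P : M2 × M2}
    (hP : Pr E Y N x P) {M : M2} (h1 : M * P.1 = P.1 * M) (h2 : M * P.2 = P.2 * M) :
    M = M 0 0 • (1 : M2) := by
  obtain ⟨⟨A, B, C, hA, -, hE, hT⟩, hY, hN, hx'⟩ := hP
  rw [hT] at h1 hx'
  rw [Matrix.trace_fin_two] at hY hx'
  rw [Matrix.det_fin_two] at hN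
  have e1 := congrFun (congrFun h1 0) 0
  have e3 := congrFun (congrFun h1 1) 0
  have e4 := congrFun (congrFun h2 0) 0
  have e6 := congrFun (congrFun h2 1) 0
  simp only [Th, Matrix.mul_apply, Fin.sum_univ_two, Matrix.of_apply, Matrix.cons_val',
    Matrix.cons_val_zero, Matrix.cons_val_one, Matrix.cons_val_fin_one] at e1 e3 e4 e6 hx'
  have h0 : M 1 0 = 0 := by
    by_contra h0
    have f1 : A * P.2 0 1 = -(C * P.2 1 0) := by
      apply mul_left_cancel₀ (mul_ne_zero two_ne_zero h0)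
      linear_combination -2 * A * e4 - P.2 1 0 * e1
    have f2 : A * (P.2 0 0 - P.2 1 1) = -(B * P.2 1 0) := by
      apply mul_left_cancel₀ (mul_ne_zero two_ne_zero h0)
      linear_combination 2 * A * e6 + P.2 1 0 * e3
    have f3 : A * x = -(E * P.2 1 0) := by
      rw [← hx', ← hE]
      linear_combination B * f2 - 2 * A * f1
    have f4 : A ^ 2 * (Y ^ 2 - 4 * N) = E * P.2 1 0 ^ 2 := by
      rw [← hY, ← hN, ← hE]
      linear_combination (A * (P.2 0 0 - P.2 1 1) - B * P.2 1 0) * f2 + 4 * A * P.2 1 0 * f1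
    refine hx (mul_left_cancel₀ (pow_ne_zero 2 hA.ne') ?_)
    linear_combination (A * x - E * P.2 1 0) * f3 - E * f4
  have h3 : M 0 1 = 0 := by
    apply mul_left_cancel₀ (mul_ne_zero two_ne_zero hA.ne')
    linear_combination -e1 - 2 * C * h0
  have h4 : M 1 1 = M 0 0 := by
    apply mul_left_cancel₀ (mul_ne_zero two_ne_zero hA.ne')
    linear_combination -e3 + 2 * B * h0
  ext i j
  fin_cases i <;> fin_cases j <;> simp [h0, h3, h4]

theorem tlg_unit {E Y N x : ℤ} (hx : x ^ 2 ≠ E * (Y ^ 2 - 4 * N)) {P P' : M2 × M2}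
    (hP : Pr E Y N x P) (h : ∀ l : ℕ, l.Prime → Leq l P P') (n : ℕ) : ∀ g : M2, g.det ≠ 0 →
    g.det.natAbs = n → g * P.1 = P'.1 * g → g * P.2 = P'.2 * g →
    ∃ g₀ : M2, g₀.det.natAbs = 1 ∧ g₀ * P.1 = P'.1 * g₀ ∧ g₀ * P.2 = P'.2 * g₀ := by
  induction n using Nat.strong_induction_on with
  | _ n ih =>
  intro g hg hn h1 h2
  by_cases hn1 : n = 1
  · exact ⟨g, hn.trans hn1, h1, h2⟩
  obtain ⟨l, hl, hln⟩ := Nat.exists_prime_and_dvd hn1
  have hl' : Prime (l : ℤ) := Nat.prime_iff_prime_int.1 hl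
  have hld : (l : ℤ) ∣ g.det := Int.natCast_dvd.2 (hn ▸ hln)
  obtain ⟨g', hg', h1', h2'⟩ := h l hl
  have hg0 : g'.det ≠ 0 := fun h0 => hg' (h0 ▸ dvd_zero _)
  have hM := tlg_scalar hx hP (M := g'.adjugate * g)
    (by rw [Matrix.mul_assoc, h1, ← Matrix.mul_assoc, tlg_adj hg0 h1', Matrix.mul_assoc])
    (by rw [Matrix.mul_assoc, h2, ← Matrix.mul_assoc, tlg_adj hg0 h2', Matrix.mul_assoc])
  generalize (g'.adjugate * g) 0 0 = t at hM
  have e1 : g'.det * g.det = t ^ 2 := by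
    have := congrArg Matrix.det hM
    rw [Matrix.det_mul, tlg_det_adj, Matrix.det_smul] at this
    simpa using this
  have e2 : g'.det • g = t • g' := by
    have := congrArg (fun X => g' * X) hM
    simpa only [← Matrix.mul_assoc, Matrix.mul_adjugate, Matrix.smul_mul, Matrix.one_mul,
      Matrix.mul_smul, Matrix.mul_one] using this
  have e3 : (l : ℤ) ∣ t := hl'.dvd_of_dvd_pow (e1 ▸ hld.mul_left _)
  have e4 : ∀ i j, (l : ℤ) ∣ g i j := fun i j => by
    have e5 : g'.det * g i j = t * g' i j := congrFun (congrFun e2 i) j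
    exact (hl'.dvd_or_dvd (e5 ▸ e3.mul_right _)).resolve_left hg'
  choose k hk using e4
  have e6 : g = (l : ℤ) • Matrix.of k := by
    ext i j
    exact hk i j
  have hl0 : (l : ℤ) ≠ 0 := hl'.ne_zero
  have e7 : g.det = (l : ℤ) ^ 2 * (Matrix.of k).det := by
    rw [e6, Matrix.det_smul]
    simp
  have e8 : (Matrix.of k).det ≠ 0 := fun h0 => hg (by rw [e7, h0, mul_zero])
  refine ih _ ?_ (Matrix.of k) e8 rfl ?_ ?_
  · rw [← hn, e7, Int.natAbs_mul, Int.natAbs_pow, Int.natAbs_natCast]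
    have h5 := Int.natAbs_pos.2 e8
    have h6 : 1 < l ^ 2 := Nat.one_lt_pow two_ne_zero hl.one_lt
    nlinarith
  · apply smul_right_injective M2 hl0
    simpa only [e6, Matrix.smul_mul, Matrix.mul_smul] using h1
  · apply smul_right_injective M2 hl0
    simpa only [e6, Matrix.smul_mul, Matrix.mul_smul] using h2

theorem ge_of_le {E Y N x : ℤ} (hE : E < 0) (hx : x ^ 2 ≠ E * (Y ^ 2 - 4 * N)) {P P' : M2 × M2}
    (hP : Pr E Y N x P) (hP' : Pr E Y N x P') (h : ∀ l : ℕ, l.Prime → Leq l P P') : Geq P P' := by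
  obtain ⟨g₂, hg₂, k1, k2⟩ := h 2 Nat.prime_two
  obtain ⟨g, hg, h1, h2⟩ := tlg_unit hx hP h _ g₂ (fun h0 => hg₂ (h0 ▸ dvd_zero _)) rfl k1 k2
  refine ⟨g, ?_, h1, h2⟩
  obtain ⟨⟨A, B, C, hA, -, -, hT⟩, -⟩ := hP
  obtain ⟨⟨A', B', C', hA', -, hE', hT'⟩, -⟩ := hP'
  rw [hT, hT'] at h1
  have e1 : dt (g *ᵥ ![1, 0]) (Th A' B' C' *ᵥ (g *ᵥ ![1, 0])) = g.det * (-2 * A) := by
    rw [Matrix.mulVec_mulVec, ← h1, Matrix.det_fin_two]
    simp [dt, Th, Matrix.mulVec, dotProduct, Fin.sum_univ_two, Matrix.mul_apply]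
    ring
  rw [tlg_dt] at e1
  generalize (g *ᵥ ![1, 0]) 0 = u at e1
  generalize (g *ᵥ ![1, 0]) 1 = w at e1
  have e2 : 4 * A' * (g.det * A) = (2 * A' * u + B' * w) ^ 2 - E * w ^ 2 := by
    rw [← hE']
    linear_combination 2 * A' * e1
  have e3 : 0 ≤ 4 * A' * (g.det * A) := by
    rw [e2]
    nlinarith [sq_nonneg (2 * A' * u + B' * w), sq_nonneg w]
  have e4 : 0 ≤ g.det * A := nonneg_of_mul_nonneg_right e3 (by linarith) |> fun h => h
  have e5 : 0 ≤ g.det := nonneg_of_mul_nonneg_left e4 hA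
  omega

theorem local_global {E Y N x : ℤ} (hE : E < 0) (hx : x ^ 2 ≠ E * (Y ^ 2 - 4 * N))
    {S : Set (M2 × M2)} (hS : ∀ P ∈ S, Pr E Y N x P) (I : Finset ℕ) (hI : ∀ l ∈ I, l.Prime)
    (W : ℕ → ℝ) (h : ∀ l ∈ I, Few (Leq l) S (W l))
    (h' : ∀ l : ℕ, l.Prime → l ∉ I → Few (Leq l) S 1) : Few Geq S (∏ l ∈ I, W l) := by
  classical
  intro T hT hT'
  refine few_prod I Leq W (fun l _ a b => Leq.symm) (fun l hl a b c => Leq.trans (hI l hl)) h T hT
    fun a ha b hb hab hR => hT' a ha b hb hab ?_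
  refine ge_of_le hE hx (hS a (hT a ha)) (hS b (hT b hb)) fun l hl => ?_
  by_cases hl' : l ∈ I
  · exact hR l hl'
  by_contra hn
  have h1 := h' l hl hl' {a, b} (fun c hc => by
    rcases Finset.mem_insert.1 hc with rfl | hc
    · exact hT _ ha
    · rw [Finset.mem_singleton.1 hc]
      exact hT _ hb) (fun c hc d hd hcd => by
    simp only [Finset.mem_insert, Finset.mem_singleton] at hc hd
    rcases hc with rfl | rfl <;> rcases hd with rfl | rfl
    · exact absurd rfl hcd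
    · exact hn
    · exact fun h => hn h.symm
    · exact absurd rfl hcd)
  rw [Finset.card_pair hab] at h1
  norm_num at h1

end Pool.Agent.EQ
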