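import Pool.Agent.P.MP_ad7a55_nt.TLg

/-! Normal form at a prime. -/

set_option autoImplicit false

noncomputable section

open Finset Matrix

namespace Pool.Agent.EQ

variable (l : ℕ) [Fact l.Prime]

/-- The `l`-adic absolute value of a rational number. -/
def nr (x : ℚ) : ℝ := ‖(x : ℚ_[l])‖

/-- `P + Q √E` is a unit of `ℤ_l[√E]` up to a scalar. -/
def Ok (E : ℤ) (P Q : ℚ) : Prop :=
  (P ≠ 0 ∨ Q ≠ 0) ∧ nr l (P ^ 2 - E * Q ^ 2) = max (nr l P) (nr l Q) ^ 2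

/-- `(P + Q √E) ζ' = (P - Q √E) ζ` for `ζ = a.1 + a.2 √E`, `ζ' = b.1 + b.2 √E`. -/
def Sol (E : ℤ) (a b : ℚ × ℚ) (P Q : ℚ) : Prop :=
  P * (a.1 - b.1) = E * Q * (a.2 + b.2) ∧ P * (a.2 - b.2) = Q * (a.1 + b.1)

/-- The local relation. -/
def Rl (E : ℤ) (a b : ℚ × ℚ) : Prop := ∃ P Q, Ok l E P Q ∧ Sol E a b P Q

/-- The local solutions `(ξ, u)` with `ξ = x - E t`. -/
def LA (E x Δ : ℤ) : Set (ℚ × ℚ) :=
  {a | ∃ t : ℚ, nr l t ≤ 1 ∧ nr l a.2 ≤ 1 ∧ a.1 = x - E * t ∧ a.2 ^ 2 + (2 * x - E * t) * t = Δ}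

variable {l}

/-- `(2 η - Y) v = u v + t Θ v`. -/
def Rp (Y : ℤ) (P : M2 × M2) (v : Fin 2 → ℤ) (u t : ℚ) : Prop :=
  ∀ i, ((2 * (P.2 *ᵥ v) i - Y * v i : ℤ) : ℚ) = u * v i + t * (P.1 *ᵥ v) i

theorem tnf_mul (a b : ℚ) : nr l (a * b) = nr l a * nr l b := by
  unfold nr
  rw [Rat.cast_mul, norm_mul]

theorem tnf_pow (a : ℚ) (n : ℕ) : nr l (a ^ n) = nr l a ^ n := by
  unfold nr
  rw [Rat.cast_pow, norm_pow]

theorem tnf_nonneg (a : ℚ) : 0 ≤ nr l a := norm_nonneg _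

theorem tnf_int (a : ℤ) : nr l (a : ℚ) = ‖(a : ℚ_[l])‖ := by
  unfold nr
  rw [Rat.cast_intCast]

theorem tnf_int_le (a : ℤ) : nr l (a : ℚ) ≤ 1 := by
  rw [tnf_int]
  exact Padic.norm_int_le_one a

theorem tnf_unit {a : ℤ} : nr l (a : ℚ) = 1 ↔ ¬ (l : ℤ) ∣ a := by
  rw [← Padic.norm_intCast_lt_one_iff, tnf_int, not_lt]
  exact ⟨fun h => h.ge, fun h => le_antisymm (Padic.norm_int_le_one a) h⟩

theorem tnf_le {r : ℚ} {m a : ℤ} {k : ℕ} (hm : ¬ (l : ℤ) ∣ m) (h : r * m = a)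
    (hk : (l : ℤ) ^ k ∣ a) : nr l r ≤ (l : ℝ) ^ (-(k : ℤ)) := by
  have h1 : nr l r = nr l (a : ℚ) := by
    rw [← h, tnf_mul, tnf_unit.2 hm, mul_one]
  rw [h1, tnf_int]
  exact (Padic.norm_int_le_pow_iff_dvd a k).2 hk

theorem tnf_le_one {r : ℚ} {m a : ℤ} (hm : ¬ (l : ℤ) ∣ m) (h : r * m = a) : nr l r ≤ 1 := by
  have := tnf_le (l := l) (k := 0) hm h (by simp)
  simpa using this

theorem tnf_prime : Prime (l : ℤ) := Nat.prime_iff_prime_int.1 Fact.out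

/-- The value of the form. -/
def tnf_m (A B C : ℤ) (v : Fin 2 → ℤ) : ℤ := -(A * v 0 ^ 2 + B * v 0 * v 1 + C * v 1 ^ 2)

theorem tnf_mv (X : M2) (v : Fin 2 → ℤ) (i : Fin 2) : (X *ᵥ v) i = X i 0 * v 0 + X i 1 * v 1 := by
  simp [Matrix.mulVec, dotProduct, Fin.sum_univ_two]

theorem tnf_th0 (A B C : ℤ) (v : Fin 2 → ℤ) : (Th A B C *ᵥ v) 0 = B * v 0 + 2 * C * v 1 := by
  rw [tnf_mv]
  simp [Th]

theorem tnf_th1 (A B C : ℤ) (v : Fin 2 → ℤ) : (Th A B C *ᵥ v) 1 = -2 * A * v 0 - B * v 1 := by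
  rw [tnf_mv]
  simp [Th]
  ring

omit [Fact l.Prime] in
theorem tnf_gn {A B C : ℤ} {v : Fin 2 → ℤ} (h : Gn l (Th A B C) v) :
    ¬ (l : ℤ) ∣ tnf_m A B C v := by
  intro hd
  apply h
  have : dt v (Th A B C *ᵥ v) = 2 * tnf_m A B C v := by
    unfold dt tnf_m
    rw [tnf_th0, tnf_th1]
    ring
  rw [this]
  exact mul_dvd_mul_left 2 hd

omit [Fact l.Prime] in
theorem tnf_ne {m : ℤ} (h : ¬ (l : ℤ) ∣ m) : m ≠ 0 := by
  rintro rfl
  exact h (dvd_zero _)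

/-- Unfolding the invariants of a pair. -/
theorem tnf_pr {E Y N x : ℤ} {P : M2 × M2} (h : Pr E Y N x P) :
    ∃ A B C : ℤ, P.1 = Th A B C ∧ E = B ^ 2 - 4 * A * C ∧ Y = P.2 0 0 + P.2 1 1 ∧
      N = P.2 0 0 * P.2 1 1 - P.2 0 1 * P.2 1 0 ∧
      x = B * P.2 0 0 + 2 * C * P.2 1 0 - 2 * A * P.2 0 1 - B * P.2 1 1 := by
  obtain ⟨⟨A, B, C, -, -, hE, hT⟩, h1, h2, h3⟩ := h
  refine ⟨A, B, C, hT, hE.symm, ?_, ?_, ?_⟩
  · rw [← h1, Matrix.trace_fin_two]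
  · rw [← h2, Matrix.det_fin_two]
  · rw [← h3, hT, Matrix.trace_fin_two]
    simp [Th, Matrix.mul_apply, Fin.sum_univ_two]
    ring

/-- The representation in coordinates. -/
theorem tnf_rp {Y A B C : ℤ} {P : M2 × M2} (hT : P.1 = Th A B C) {v : Fin 2 → ℤ} {u t : ℚ} :
    Rp Y P v u t ↔
      ((2 * (P.2 0 0 * v 0 + P.2 0 1 * v 1) - Y * v 0 : ℚ) =
        u * v 0 + t * (B * v 0 + 2 * C * v 1)) ∧
      ((2 * (P.2 1 0 * v 0 + P.2 1 1 * v 1) - Y * v 1 : ℚ) =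
        u * v 1 + t * (-2 * A * v 0 - B * v 1)) := by
  unfold Rp
  rw [Fin.forall_fin_two, hT, tnf_th0, tnf_th1, tnf_mv, tnf_mv]
  push_cast
  exact Iff.rfl

/-- The coefficients are determined by the vector. -/
theorem tnf_cramer {Y A B C : ℤ} {P : M2 × M2} (hT : P.1 = Th A B C) {v : Fin 2 → ℤ} {u t : ℚ}
    (h : Rp Y P v u t) :
    t * (tnf_m A B C v : ℤ) = (dt v (P.2 *ᵥ v) : ℤ) ∧
      (u + Y) * (tnf_m A B C v : ℤ) = (dt (P.2 *ᵥ v) (Th A B C *ᵥ v) : ℤ) := by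
  obtain ⟨h0, h1⟩ := (tnf_rp hT).1 h
  unfold tnf_m dt
  rw [tnf_th0, tnf_th1, tnf_mv, tnf_mv]
  push_cast
  constructor
  · linear_combination (v 1 / 2 : ℚ) * h0 - (v 0 / 2 : ℚ) * h1
  · linear_combination (-(-2 * A * v 0 - B * v 1) / 2 : ℚ) * h0 +
      ((B * v 0 + 2 * C * v 1) / 2 : ℚ) * h1

/-- Scaling a unit to integers. -/
theorem tnf_scale {E : ℤ} {p q : ℚ} (h : Ok l E p q) :
    ∃ (c : ℚ) (a b : ℤ), (a : ℚ) = c * p ∧ (b : ℚ) = c * q ∧ ¬ (l : ℤ) ∣ a ^ 2 - E * b ^ 2 := by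
  obtain ⟨h0, h1⟩ := h
  have hp : (p.num : ℚ) = p * p.den := (Rat.mul_den_eq_num p).symm
  have hq : (q.num : ℚ) = q * q.den := (Rat.mul_den_eq_num q).symm
  have hg : 0 < Int.gcd (p.num * q.den) (q.num * p.den) := by
    rw [Int.gcd_pos_iff]
    rcases h0 with h0 | h0
    · exact Or.inl (mul_ne_zero (Rat.num_ne_zero.2 h0) (by exact_mod_cast q.den_nz))
    · exact Or.inr (mul_ne_zero (Rat.num_ne_zero.2 h0) (by exact_mod_cast p.den_nz))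
  obtain ⟨a, b, hab, ha, hb⟩ := Int.exists_gcd_one hg
  generalize Int.gcd (p.num * q.den) (q.num * p.den) = g at hg ha hb
  have hg' : (g : ℚ) ≠ 0 := by exact_mod_cast hg.ne'
  have ha' : (a : ℚ) = (p.den * q.den / g : ℚ) * p := by
    have : ((p.num * q.den : ℤ) : ℚ) = ((a * g : ℤ) : ℚ) := by rw [ha]
    push_cast at this
    rw [hp] at this
    field_simp
    linear_combination -this
  have hb' : (b : ℚ) = (p.den * q.den / g : ℚ) * q := by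
    have : ((q.num * p.den : ℤ) : ℚ) = ((b * g : ℤ) : ℚ) := by rw [hb]
    push_cast at this
    rw [hq] at this
    field_simp
    linear_combination -this
  refine ⟨_, a, b, ha', hb', ?_⟩
  generalize (p.den * q.den / g : ℚ) = c at ha' hb'
  rw [← tnf_unit]
  have h2 : ((a ^ 2 - E * b ^ 2 : ℤ) : ℚ) = c ^ 2 * (p ^ 2 - E * q ^ 2) := by
    push_cast
    rw [ha', hb']
    ring
  rw [h2, tnf_mul, h1, tnf_pow, ← mul_pow, mul_max_of_nonneg _ _ (tnf_nonneg c), ← tnf_mul,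
    ← tnf_mul, ← ha', ← hb']
  have h3 : max (nr l (a : ℚ)) (nr l (b : ℚ)) = 1 := by
    refine le_antisymm (max_le (tnf_int_le a) (tnf_int_le b)) ?_
    by_cases hla : (l : ℤ) ∣ a
    · have hlb : ¬ (l : ℤ) ∣ b := by
        intro hlb
        have := Int.dvd_gcd (c := l) (a := a) (b := b) hla hlb
        rw [hab] at this
        exact (Fact.out : l.Prime).one_lt.ne' (Nat.dvd_one.1 this)
      exact (tnf_unit.2 hlb).ge.trans (le_max_right _ _)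
    · exact (tnf_unit.2 hla).ge.trans (le_max_left _ _)
  rw [h3, one_pow]

/-- The intertwiner. -/
def tnf_g (A B C A' C' s : ℤ) (v z : Fin 2 → ℤ) : M2 :=
  !![z 0, s * z 0 + C' * z 1; z 1, -A' * z 0 - (B + s) * z 1] *
    !![-A * v 0 - B * v 1, -(C * v 1); -v 1, v 0]

theorem tnf_g_apply (A B C A' C' s : ℤ) (v z : Fin 2 → ℤ) :
    tnf_g A B C A' C' s v z 0 0 =
        z 0 * (-A * v 0 - B * v 1) + (s * z 0 + C' * z 1) * (-v 1) ∧
      tnf_g A B C A' C' s v z 0 1 = z 0 * (-(C * v 1)) + (s * z 0 + C' * z 1) * v 0 ∧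
      tnf_g A B C A' C' s v z 1 0 =
        z 1 * (-A * v 0 - B * v 1) + (-A' * z 0 - (B + s) * z 1) * (-v 1) ∧
      tnf_g A B C A' C' s v z 1 1 =
        z 1 * (-(C * v 1)) + (-A' * z 0 - (B + s) * z 1) * v 0 := by
  simp [tnf_g, Matrix.mul_apply, Fin.sum_univ_two]

theorem tnf_anti {E Y N x : ℤ} {P : M2 × M2} (h : Pr E Y N x P) :
    P.2 * P.1 = Y • P.1 + x • (1 : M2) - P.1 * P.2 := by
  obtain ⟨A, B, C, hT, -, hY, -, hx⟩ := tnf_pr h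
  have t00 : P.1 0 0 = B := by rw [hT]; rfl
  have t01 : P.1 0 1 = 2 * C := by rw [hT]; rfl
  have t10 : P.1 1 0 = -2 * A := by rw [hT]; rfl
  have t11 : P.1 1 1 = -B := by rw [hT]; rfl
  rw [← Matrix.ext_iff]
  simp only [Fin.forall_fin_two, Matrix.sub_apply, Matrix.add_apply, Matrix.smul_apply,
    Matrix.mul_apply, Fin.sum_univ_two, smul_eq_mul, Matrix.one_apply_eq, t00, t01, t10, t11,
    Matrix.one_apply_ne (show (0 : Fin 2) ≠ 1 by decide),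
    Matrix.one_apply_ne (show (1 : Fin 2) ≠ 0 by decide)]
  rw [hY, hx]
  refine ⟨⟨?_, ?_⟩, ?_, ?_⟩ <;> ring

theorem tnf_zero {X : M2} {v y : Fin 2 → ℤ} (h : dt v y ≠ 0) (h1 : X *ᵥ v = 0)
    (h2 : X *ᵥ y = 0) : X = 0 := by
  ext i j
  have a1 : X i 0 * v 0 + X i 1 * v 1 = 0 := by rw [← tnf_mv, h1]; rfl
  have a2 : X i 0 * y 0 + X i 1 * y 1 = 0 := by rw [← tnf_mv, h2]; rfl
  apply mul_left_cancel₀ h
  unfold dt
  fin_cases j
  · show _ * X i 0 = _ * 0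
    linear_combination y 1 * a1 - v 1 * a2
  · show _ * X i 1 = _ * 0
    linear_combination -y 0 * a1 + v 0 * a2

theorem LA.norm {E x Δ : ℤ} {a : ℚ × ℚ} (h : a ∈ LA l E x Δ) :
    a.1 ^ 2 - E * a.2 ^ 2 = x ^ 2 - E * Δ := by
  obtain ⟨t, -, -, h1, h2⟩ := h
  rw [h1, ← h2]
  ring

theorem sol_one {E : ℤ} {a b : ℚ × ℚ} (h : a.1 ^ 2 - E * a.2 ^ 2 = b.1 ^ 2 - E * b.2 ^ 2) :
    Sol E a b (a.1 + b.1) (a.2 - b.2) := by
  constructor
  · linear_combination h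
  · ring

theorem sol_two {E x : ℤ} (hE : E ≠ 0) {a b : ℚ × ℚ} {t t' : ℚ} (ha : a.1 = x - E * t)
    (hb : b.1 = x - E * t') (h : a.1 ^ 2 - E * a.2 ^ 2 = b.1 ^ 2 - E * b.2 ^ 2) :
    Sol E a b (a.2 + b.2) (t' - t) := by
  have hE' : (E : ℚ) ≠ 0 := by exact_mod_cast hE
  constructor
  · rw [ha, hb]
    ring
  · apply mul_left_cancel₀ hE'
    have h1 : (E : ℚ) * (t' - t) = a.1 - b.1 := by
      rw [ha, hb]
      ring
    linear_combination -h - (a.1 + b.1) * h1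

theorem exists_rp {E Y N x : ℤ} {P : M2 × M2} (h : Pr E Y N x P) {v : Fin 2 → ℤ}
    (hv : Gn l P.1 v) : ∃ u t : ℚ, Rp Y P v u t ∧ nr l t ≤ 1 ∧ nr l u ≤ 1 ∧
      u ^ 2 + (2 * x - E * t) * t = (Y ^ 2 - 4 * N : ℤ) := by
  obtain ⟨A, B, C, hT, hE, hY, hN, hx⟩ := tnf_pr h
  rw [hT] at hv
  have hm := tnf_gn hv
  have hm0 : ((tnf_m A B C v : ℤ) : ℚ) ≠ 0 := by exact_mod_cast tnf_ne hm
  have hm1 : ((tnf_m A B C v : ℤ) : ℚ) = -(A * v 0 ^ 2 + B * v 0 * v 1 + C * v 1 ^ 2) := by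
    unfold tnf_m
    push_cast
    ring
  obtain ⟨t, ht⟩ : ∃ t : ℚ, t * (tnf_m A B C v : ℤ) = (dt v (P.2 *ᵥ v) : ℤ) :=
    ⟨_, div_mul_cancel₀ _ hm0⟩
  obtain ⟨u, hu⟩ : ∃ u : ℚ, u * (tnf_m A B C v : ℤ) =
      (dt (P.2 *ᵥ v) (Th A B C *ᵥ v) - Y * tnf_m A B C v : ℤ) := ⟨_, div_mul_cancel₀ _ hm0⟩
  refine ⟨u, t, ?_, tnf_le_one hm ht, tnf_le_one hm hu, ?_⟩
  all_goals
    unfold dt at ht hu
    rw [tnf_th0, tnf_th1] at hu
    rw [tnf_mv, tnf_mv] at ht hu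
    push_cast at ht hu
  · rw [tnf_rp hT]
    constructor
    · apply mul_left_cancel₀ hm0
      rw [hm1] at ht hu ⊢
      linear_combination (-(v 0) : ℚ) * hu - (B * v 0 + 2 * C * v 1 : ℚ) * ht
    · apply mul_left_cancel₀ hm0
      rw [hm1] at ht hu ⊢
      linear_combination (-(v 1) : ℚ) * hu - (-2 * A * v 0 - B * v 1 : ℚ) * ht
  · apply mul_left_cancel₀ (pow_ne_zero 2 hm0)
    generalize hM : ((tnf_m A B C v : ℤ) : ℚ) = M at ht hu hm1 ⊢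
    have h1 : M ^ 2 * (u ^ 2 + (2 * x - E * t) * t) =
        (u * M) ^ 2 + (2 * x * M - E * (t * M)) * (t * M) := by ring
    rw [h1, hu, ht, hm1, hE, hx, hN, hY]
    push_cast
    ring

theorem le_of_rl {E Y N x : ℤ} (hE : E ≠ 0) {P P' : M2 × M2} (h : Pr E Y N x P)
    (h' : Pr E Y N x P') {v v' : Fin 2 → ℤ} (hv : Gn l P.1 v) (hv' : Gn l P'.1 v') {u t u' t' : ℚ}
    (hr : Rp Y P v u t) (hr' : Rp Y P' v' u' t')
    (hR : Rl l E (x - E * t, u) (x - E * t', u')) : Leq l P P' := by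
  obtain ⟨A, B, C, hT, hE1, hY, hN, hx⟩ := tnf_pr h
  obtain ⟨A', B', C', hT', hE', hY', hN', hx'⟩ := tnf_pr h'
  obtain ⟨s, rfl⟩ : ∃ s, B' = B + 2 * s := by
    have h1 : Even (B' - B) := by
      have h2 : Even ((B' - B) * (B' + B)) := ⟨2 * (A' * C' - A * C), by
        linear_combination hE1 - hE'⟩
      rcases Int.even_mul.1 h2 with h3 | ⟨c, hc⟩
      · exact h3
      · exact ⟨c - B, by linear_combination hc⟩
    obtain ⟨c, hc⟩ := h1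
    exact ⟨c, by linear_combination hc⟩
  have hrel : A' * C' - s * (B + s) = A * C := by
    apply mul_left_cancel₀ (show (4 : ℤ) ≠ 0 by norm_num)
    linear_combination hE' - hE1
  have hdt : dt v (P.1 *ᵥ v) ≠ 0 := by
    intro h0
    apply hv
    rw [h0]
    exact dvd_zero _
  rw [hT] at hv
  rw [hT'] at hv'
  have hm := tnf_gn hv
  have hm' := tnf_gn hv'
  obtain ⟨p, q, hok, hs1, hs2⟩ := hR
  obtain ⟨c, a, b, ha, hb, hab⟩ := tnf_scale hok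
  have hE0 : (E : ℚ) ≠ 0 := by exact_mod_cast hE
  have S1 : (a : ℚ) * (t' - t) = b * (u + u') := by
    apply mul_left_cancel₀ hE0
    rw [ha, hb]
    simp only at hs1
    linear_combination c * hs1
  have S2 : (a : ℚ) * (u - u') = b * (2 * x - E * t - E * t') := by
    rw [ha, hb]
    simp only at hs2
    linear_combination c * hs2
  obtain ⟨z, hz0, hz1⟩ : ∃ z : Fin 2 → ℤ,
      z 0 = a * v' 0 + b * ((B + 2 * s) * v' 0 + 2 * C' * v' 1) ∧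
      z 1 = a * v' 1 + b * (-2 * A' * v' 0 - (B + 2 * s) * v' 1) := ⟨![_, _], rfl, rfl⟩
  obtain ⟨g00, g01, g10, g11⟩ := tnf_g_apply A B C A' C' s v z
  generalize tnf_g A B C A' C' s v z = g at g00 g01 g10 g11
  have hg1 : g * P.1 = P'.1 * g := by
    rw [hT, hT']
    ext i j
    fin_cases i <;> fin_cases j <;>
      simp [Th, Matrix.mul_apply, Fin.sum_univ_two, g00, g01, g10, g11]
    · linear_combination (2 * z 0 * (-v 1)) * hrel
    · linear_combination (2 * z 0 * v 0) * hrel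
    · linear_combination (2 * z 1 * (-v 1)) * hrel
    · linear_combination (2 * z 1 * v 0) * hrel
  refine ⟨g, ?_, hg1, ?_⟩
  · have hd : g.det = (a ^ 2 - E * b ^ 2) * tnf_m A' (B + 2 * s) C' v' * tnf_m A B C v := by
      rw [Matrix.det_fin_two, g00, g01, g10, g11, hz0, hz1, hE']
      unfold tnf_m
      ring
    rw [hd]
    intro h0
    rcases (tnf_prime (l := l)).dvd_or_dvd h0 with h1 | h1
    · rcases (tnf_prime (l := l)).dvd_or_dvd h1 with h2 | h2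
      · exact hab h2
      · exact hm' h2
    · exact hm h1
  · have k1 : (g * P.2 - P'.2 * g) * P.1 = -(P'.1 * (g * P.2 - P'.2 * g)) := by
      have e1 : g * P.2 * P.1 = Y • (P'.1 * g) + x • g - P'.1 * g * P.2 := by
        rw [Matrix.mul_assoc, tnf_anti h, Matrix.mul_sub, Matrix.mul_add, Matrix.mul_smul,
          Matrix.mul_smul, Matrix.mul_one, ← Matrix.mul_assoc, hg1]
      have e2 : P'.2 * g * P.1 = Y • (P'.1 * g) + x • g - P'.1 * P'.2 * g := by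
        rw [Matrix.mul_assoc, hg1, ← Matrix.mul_assoc, tnf_anti h', Matrix.sub_mul,
          Matrix.add_mul, Matrix.smul_mul, Matrix.smul_mul, Matrix.one_mul]
      rw [Matrix.sub_mul, e1, e2, Matrix.mul_sub, ← Matrix.mul_assoc, ← Matrix.mul_assoc]
      abel
    have k2 : (g * P.2 - P'.2 * g) *ᵥ v = 0 := by
      obtain ⟨h0, h1⟩ := (tnf_rp hT).1 hr
      obtain ⟨h0', h1'⟩ := (tnf_rp hT').1 hr'
      have hYq : (Y : ℚ) = P'.2 0 0 + P'.2 1 1 := by exact_mod_cast hY'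
      have hxq : (x : ℚ) = (B + 2 * s) * P'.2 0 0 + 2 * C' * P'.2 1 0 - 2 * A' * P'.2 0 1 -
          (B + 2 * s) * P'.2 1 1 := by exact_mod_cast hx'
      have hEq : (E : ℚ) = (B + 2 * s) ^ 2 - 4 * A' * C' := by exact_mod_cast hE'
      rw [hYq] at h0 h1 h0' h1'
      rw [hxq, hEq] at S2
      push_cast at h0' h1'
      rw [Matrix.sub_mulVec, ← Matrix.mulVec_mulVec, ← Matrix.mulVec_mulVec]
      have q00 := congrArg (Int.cast : ℤ → ℚ) g00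
      have q01 := congrArg (Int.cast : ℤ → ℚ) g01
      have q10 := congrArg (Int.cast : ℤ → ℚ) g10
      have q11 := congrArg (Int.cast : ℤ → ℚ) g11
      rw [hz0, hz1] at q00 q01 q10 q11
      push_cast at q00 q01 q10 q11
      funext i
      have : ((2 * ((g *ᵥ (P.2 *ᵥ v)) i - (P'.2 *ᵥ (g *ᵥ v)) i) : ℤ) : ℚ) = 0 := by
        simp only [tnf_mv]
        push_cast
        fin_cases i
        · show (2 : ℚ) * (g 0 0 * _ + g 0 1 * _ - (P'.2 0 0 * _ + P'.2 0 1 * _)) = 0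
          have w0 := congrArg (fun r => (g 0 0 : ℚ) * r) h0
          have w1 := congrArg (fun r => (g 0 1 : ℚ) * r) h1
          rw [q00] at w0
          rw [q01] at w1
          rw [q00, q01, q10, q11]
          linear_combination w0 + w1 + (A * v 0 ^ 2 + B * v 0 * v 1 + C * v 1 ^ 2 : ℚ) *
            (a * h0' - b * ((B + 2 * s) * h0' + 2 * C' * h1') -
              (v' 0 * S2 - ((B + 2 * s) * v' 0 + 2 * C' * v' 1) * S1))
        · show (2 : ℚ) * (g 1 0 * _ + g 1 1 * _ - (P'.2 1 0 * _ + P'.2 1 1 * _)) = 0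
          have w0 := congrArg (fun r => (g 1 0 : ℚ) * r) h0
          have w1 := congrArg (fun r => (g 1 1 : ℚ) * r) h1
          rw [q10] at w0
          rw [q11] at w1
          rw [q00, q01, q10, q11]
          linear_combination w0 + w1 + (A * v 0 ^ 2 + B * v 0 * v 1 + C * v 1 ^ 2 : ℚ) *
            (a * h1' - b * (-2 * A' * h0' - (B + 2 * s) * h1') -
              (v' 1 * S2 - (-2 * A' * v' 0 - (B + 2 * s) * v' 1) * S1))
      have h3 : 2 * ((g *ᵥ (P.2 *ᵥ v)) i - (P'.2 *ᵥ (g *ᵥ v)) i) = 0 := by exact_mod_cast this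
      show (g *ᵥ (P.2 *ᵥ v)) i - (P'.2 *ᵥ (g *ᵥ v)) i = 0
      omega
    have k3 : (g * P.2 - P'.2 * g) *ᵥ (P.1 *ᵥ v) = 0 := by
      rw [Matrix.mulVec_mulVec, k1, Matrix.neg_mulVec, ← Matrix.mulVec_mulVec, k2,
        Matrix.mulVec_zero, neg_zero]
    exact sub_eq_zero.1 (tnf_zero hdt k2 k3)

theorem Rl.refl (E : ℤ) (a : ℚ × ℚ) : Rl l E a a := by
  refine ⟨1, 0, ⟨Or.inl one_ne_zero, ?_⟩, ?_, ?_⟩
  · simp [nr]
  · simp
  · simp

theorem few_of_rp {E Y N x : ℤ} (hE : E ≠ 0) {S : Set (M2 × M2)} (hS : ∀ P ∈ S, Pr E Y N x P)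
    {A : Set (ℚ × ℚ)} (h : ∀ P ∈ S, ∃ v u t, Gn l P.1 v ∧ Rp Y P v u t ∧ (x - E * t, u) ∈ A)
    {W : ℝ} (hA : Few (Rl l E) A W) : Few (Leq l) S W := by
  refine hA.of_rel (fun P b => ∃ v u t, Gn l P.1 v ∧ Rp Y P v u t ∧ b = (x - E * t, u)) ?_ ?_
  · intro P hP
    obtain ⟨v, u, t, h1, h2, h3⟩ := h P hP
    exact ⟨_, h3, v, u, t, h1, h2, rfl⟩
  · rintro P hP P' hP' b b' ⟨v, u, t, h1, h2, rfl⟩ ⟨v', u', t', h1', h2', rfl⟩ hb
    refine le_of_rl hE (hS P hP) (hS P' hP') h1 h1' h2 h2' ?_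
    rcases hb with hb | hb
    · rw [hb]
      exact Rl.refl E _
    · exact hb

theorem few_of_LA {E Y N x : ℤ} (hE : E ≠ 0) {W : ℝ}
    (hA : Few (Rl l E) (LA l E x (Y ^ 2 - 4 * N)) W) : Few (Leq l) {P | Pr E Y N x P} W := by
  refine few_of_rp hE (fun P hP => hP) ?_ hA
  intro P hP
  obtain ⟨v, hv⟩ := IsTh.exists_gn hP.1 (Fact.out : l.Prime)
  obtain ⟨u, t, h1, h2, h3, h4⟩ := exists_rp hP hv
  exact ⟨v, u, t, hv, h1, t, h2, h3, rfl, h4⟩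

/-- Coordinates of a vector killed modulo `l ^ k`. -/
theorem rp_small {E Y N x : ℤ} {P : M2 × M2} (h : Pr E Y N x P) {v : Fin 2 → ℤ}
    (hv : Gn l P.1 v) {u t : ℚ} (hr : Rp Y P v u t) {k : ℕ} :
    ((∀ i, (l : ℤ) ^ k ∣ (P.2 *ᵥ v) i) →
      nr l (u + Y) ≤ (l : ℝ) ^ (-(k : ℤ)) ∧ nr l t ≤ (l : ℝ) ^ (-(k : ℤ))) ∧
    ((∀ i, (l : ℤ) ^ k ∣ (P.2.adjugate *ᵥ v) i) →
      nr l (u - Y) ≤ (l : ℝ) ^ (-(k : ℤ)) ∧ nr l t ≤ (l : ℝ) ^ (-(k : ℤ))) := by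
  obtain ⟨A, B, C, hT, hE, hY, hN, hx⟩ := tnf_pr h
  rw [hT] at hv
  have hm := tnf_gn hv
  obtain ⟨ht, hu⟩ := tnf_cramer hT hr
  constructor
  · intro hd
    refine ⟨tnf_le hm hu ?_, tnf_le hm ht ?_⟩
    · exact dvd_sub ((hd 0).mul_right _) ((hd 1).mul_right _)
    · exact dvd_sub ((hd 1).mul_left _) ((hd 0).mul_left _)
  · intro hd
    have a0 : (P.2.adjugate *ᵥ v) 0 = Y * v 0 - (P.2 *ᵥ v) 0 := by
      rw [tnf_mv, tnf_mv, Matrix.adjugate_fin_two, hY]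
      simp
      ring
    have a1 : (P.2.adjugate *ᵥ v) 1 = Y * v 1 - (P.2 *ᵥ v) 1 := by
      rw [tnf_mv, tnf_mv, Matrix.adjugate_fin_two, hY]
      simp
      ring
    have hu' : (u - Y) * (tnf_m A B C v : ℤ) =
        (dt (P.2 *ᵥ v) (Th A B C *ᵥ v) - 2 * Y * tnf_m A B C v : ℤ) := by
      push_cast
      linear_combination hu
    refine ⟨tnf_le hm hu' ?_, tnf_le hm ht ?_⟩
    · have : dt (P.2 *ᵥ v) (Th A B C *ᵥ v) - 2 * Y * tnf_m A B C v =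
          (P.2.adjugate *ᵥ v) 1 * (Th A B C *ᵥ v) 0 - (P.2.adjugate *ᵥ v) 0 * (Th A B C *ᵥ v) 1 := by
        rw [a0, a1]
        unfold dt tnf_m
        rw [tnf_th0, tnf_th1]
        ring
      rw [this]
      exact dvd_sub ((hd 1).mul_right _) ((hd 0).mul_right _)
    · have : dt v (P.2 *ᵥ v) = v 1 * (P.2.adjugate *ᵥ v) 0 - v 0 * (P.2.adjugate *ᵥ v) 1 := by
        rw [a0, a1]
        unfold dt
        ring
      rw [this]
      exact dvd_sub ((hd 0).mul_left _) ((hd 1).mul_left _)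

/-- A common eigenvector modulo `l ^ k`. -/
theorem rp_level {E Y N x : ℤ} {P : M2 × M2} (h : Pr E Y N x P) (h2 : ¬ (l : ℤ) ∣ 2 * E)
    {v : Fin 2 → ℤ} (hv : Gn l P.1 v) {u t : ℚ} (hr : Rp Y P v u t) {k : ℕ} {b₀ lam : ℤ}
    {w : Fin 2 → ℤ} (hw : ∃ i, ¬ (l : ℤ) ∣ w i)
    (h1 : ∀ i, (l : ℤ) ^ k ∣ (P.1 *ᵥ w) i - b₀ * w i)
    (h3 : ∀ i, (l : ℤ) ^ k ∣ (P.2 *ᵥ w) i - lam * w i) :
    nr l (x - E * t + u * b₀) ≤ (l : ℝ) ^ (-(k : ℤ)) ∧ (l : ℤ) ^ k ∣ b₀ ^ 2 - E := by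
  obtain ⟨A, B, C, hT, hE, hY, hN, hx⟩ := tnf_pr h
  rw [hT] at hv h1
  have hm := tnf_gn hv
  obtain ⟨ht, hu⟩ := tnf_cramer hT hr
  have hp := tnf_prime (l := l)
  have hl2 : ¬ (l : ℤ) ∣ 2 := fun h0 => h2 (h0.mul_right _)
  have r0 := h1 0
  have r1 := h1 1
  have s0 := h3 0
  have s1 := h3 1
  rw [tnf_th0] at r0
  rw [tnf_th1] at r1
  rw [tnf_mv] at s0 s1
  constructor
  · have hz : (x - E * t + u * b₀) * (tnf_m A B C v : ℤ) =
        ((x * tnf_m A B C v - E * dt v (P.2 *ᵥ v) +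
          (dt (P.2 *ᵥ v) (Th A B C *ᵥ v) - Y * tnf_m A B C v) * b₀ : ℤ) : ℚ) := by
      push_cast
      linear_combination (-E : ℚ) * ht + (b₀ : ℚ) * hu
    refine tnf_le hm hz ?_
    rcases Nat.eq_zero_or_pos k with rfl | hk
    · simp
    have hb : ¬ (l : ℤ) ∣ 2 * dt v w := by
      intro h0
      have h4 : (l : ℤ) ∣ dt v w := (hp.dvd_or_dvd h0).resolve_left hl2
      have hlk : (l : ℤ) ∣ (l : ℤ) ^ k := dvd_pow_self _ hk.ne'
      have r0' := hlk.trans r0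
      have r1' := hlk.trans r1
      have h5 : (l : ℤ) ∣ dt w (Th A B C *ᵥ v) := by
        have : dt w (Th A B C *ᵥ v) = b₀ * dt v w +
            (v 0 * (-2 * A * w 0 - B * w 1 - b₀ * w 1) -
              v 1 * (B * w 0 + 2 * C * w 1 - b₀ * w 0)) := by
          unfold dt
          rw [tnf_th0, tnf_th1]
          ring
        rw [this]
        exact dvd_add (h4.mul_left _) (dvd_sub (r1'.mul_left _) (r0'.mul_left _))
      obtain ⟨i, hi⟩ := hw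
      have h6 : 2 * tnf_m A B C v * w i =
          dt w (Th A B C *ᵥ v) * v i + dt v w * (Th A B C *ᵥ v) i := by
        revert i
        rw [Fin.forall_fin_two]
        unfold dt tnf_m
        rw [tnf_th0, tnf_th1]
        constructor <;> intro _ <;> ring
      have h7 : (l : ℤ) ∣ 2 * tnf_m A B C v * w i := by
        rw [h6]
        exact dvd_add (h5.mul_right _) (h4.mul_right _)
      rcases hp.dvd_or_dvd h7 with h8 | h8
      · rcases hp.dvd_or_dvd h8 with h9 | h9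
        · exact hl2 h9
        · exact hm h9
      · exact hi h8
    refine (hp.coprime_iff_not_dvd.2 hb).pow_left.dvd_of_dvd_mul_left ?_
    obtain ⟨a0, ha0⟩ := r0
    obtain ⟨a1, ha1⟩ := r1
    obtain ⟨c0, hc0⟩ := s0
    obtain ⟨c1, hc1⟩ := s1
    generalize (l : ℤ) ^ k = q at ha0 ha1 hc0 hc1 ⊢
    obtain ⟨y0, hy0⟩ : ∃ y, y = B * v 0 + 2 * C * v 1 := ⟨_, rfl⟩
    obtain ⟨y1, hy1⟩ : ∃ y, y = -2 * A * v 0 - B * v 1 := ⟨_, rfl⟩
    obtain ⟨m, hm1⟩ : ∃ m, m = tnf_m A B C v := ⟨_, rfl⟩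
    obtain ⟨T, hT1⟩ : ∃ T, T = dt v (P.2 *ᵥ v) := ⟨_, rfl⟩
    obtain ⟨U, hU1⟩ : ∃ U, U = dt (P.2 *ᵥ v) (Th A B C *ᵥ v) - Y * m := ⟨_, rfl⟩
    rw [← hm1, ← hT1, ← hU1]
    refine ⟨m * (2 * (c0 * y1 - c1 * y0) - b₀ * (2 * (v 0 * c1 - v 1 * c0)) +
      (2 * lam - Y) * (v 0 * a1 - v 1 * a0)) - (v 0 * a1 - v 1 * a0) * U -
      T * (a0 * y1 - a1 * y0), ?_⟩
    have key : 2 * dt v w * (x * m - E * T + U * b₀) =
        m * (2 * ((P.2 0 0 * w 0 + P.2 0 1 * w 1 - lam * w 0) * y1 -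
            (P.2 1 0 * w 0 + P.2 1 1 * w 1 - lam * w 1) * y0) -
          b₀ * (2 * (v 0 * (P.2 1 0 * w 0 + P.2 1 1 * w 1 - lam * w 1) -
            v 1 * (P.2 0 0 * w 0 + P.2 0 1 * w 1 - lam * w 0))) +
          (2 * lam - Y) * (v 0 * (-2 * A * w 0 - B * w 1 - b₀ * w 1) -
            v 1 * (B * w 0 + 2 * C * w 1 - b₀ * w 0))) -
        (v 0 * (-2 * A * w 0 - B * w 1 - b₀ * w 1) - v 1 * (B * w 0 + 2 * C * w 1 - b₀ * w 0)) * U -
        T * ((B * w 0 + 2 * C * w 1 - b₀ * w 0) * y1 -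
          (-2 * A * w 0 - B * w 1 - b₀ * w 1) * y0) := by
      rw [hU1, hT1, hm1, hy0, hy1, hx, hE, hY]
      unfold dt tnf_m
      rw [tnf_th0, tnf_th1, tnf_mv, tnf_mv]
      ring
    rw [key, ha0, ha1, hc0, hc1]
    ring
  · obtain ⟨i, hi⟩ := hw
    refine (hp.coprime_iff_not_dvd.2 hi).pow_left.dvd_of_dvd_mul_right ?_
    revert i
    rw [Fin.forall_fin_two]
    constructor
    · intro _
      have : (b₀ ^ 2 - E) * w 0 = -((B + b₀) * (B * w 0 + 2 * C * w 1 - b₀ * w 0) +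
          2 * C * (-2 * A * w 0 - B * w 1 - b₀ * w 1)) := by
        rw [hE]
        ring
      rw [this, dvd_neg]
      exact dvd_add (r0.mul_left _) (r1.mul_left _)
    · intro _
      have : (b₀ ^ 2 - E) * w 1 = -(-2 * A * (B * w 0 + 2 * C * w 1 - b₀ * w 0) +
          (b₀ - B) * (-2 * A * w 0 - B * w 1 - b₀ * w 1)) := by
        rw [hE]
        ring
      rw [this, dvd_neg]
      exact dvd_add (r0.mul_left _) (r1.mul_left _)

end Pool.Agent.EQ
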