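import Pool.Agent.P.MP_ad7a55_nt.TTl
import Pool.Agent.P.MP_ad7a55_nt.SgD

/-! Without a real zero near one, the value at one is not small. -/

set_option autoImplicit false

noncomputable section

open Finset

namespace Pool.Agent.EQ

theorem tnz_norm {q : ℕ} [NeZero q] {χ : DirichletCharacter ℂ q} (hχ : χ ≠ 1) (σ : ℝ) {t : ℝ}
    (ht : 0 < t) : ‖sgbA χ ⌊t⌋₊ * (t : ℂ) ^ (-((σ : ℂ) + 1))‖ ≤ q * t ^ (-σ - 1) := by
  rw [norm_mul, Complex.norm_cpow_eq_rpow_re_of_pos ht]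
  have h : (-((σ : ℂ) + 1)).re = -σ - 1 := by
    simp only [Complex.neg_re, Complex.add_re, Complex.one_re, Complex.ofReal_re]
    ring
  rw [h]
  exact mul_le_mul_of_nonneg_right (sgb_le_q hχ _) (Real.rpow_nonneg ht.le _)

theorem tnz_int {q : ℕ} [NeZero q] {χ : DirichletCharacter ℂ q} (hχ : χ ≠ 1) {σ : ℝ} (h0 : 0 < σ)
    {a : ℝ} (ha : 0 < a) :
    MeasureTheory.IntegrableOn (fun t : ℝ => sgbA χ ⌊t⌋₊ * (t : ℂ) ^ (-((σ : ℂ) + 1)))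
      (Set.Ioi a) := by
  have hm : Measurable fun t : ℝ => sgbA χ ⌊t⌋₊ :=
    (measurable_of_countable (sgbA χ)).comp Nat.measurable_floor
  have hm2 : Measurable fun t : ℝ => (t : ℂ) ^ (-((σ : ℂ) + 1)) :=
    Complex.measurable_ofReal.pow_const _
  refine MeasureTheory.Integrable.mono'
    ((integrableOn_Ioi_rpow_of_lt (a := -σ - 1) (by linarith) ha).const_mul (q : ℝ))
    (hm.mul hm2).aestronglyMeasurable ?_
  filter_upwards [MeasureTheory.ae_restrict_mem measurableSet_Ioi] with t ht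
  exact tnz_norm hχ σ (ha.trans ht)

theorem tnz_abel {q : ℕ} [NeZero q] {χ : DirichletCharacter ℂ q} (hχ : χ ≠ 1) {σ : ℝ} (h0 : 0 < σ)
    {N : ℕ} (hN : 1 ≤ N) :
    χ.LFunction σ - ∑ n ∈ Icc 1 N, χ n * (n : ℂ) ^ (-(σ : ℂ)) =
      σ * (∫ t in Set.Ioi (N : ℝ), sgbA χ ⌊t⌋₊ * (t : ℂ) ^ (-((σ : ℂ) + 1))) -
        sgbA χ N * (N : ℂ) ^ (-(σ : ℂ)) := by
  induction N, hN using Nat.le_induction with
  | base =>
    rw [sgb_repr hχ (by simpa using h0)]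
    simp [sgbA]
  | succ N hN ih =>
    have hN0 : (0 : ℝ) < N := by exact_mod_cast hN
    have hσ : (σ : ℂ) ≠ 0 := by exact_mod_cast h0.ne'
    have hle : (N : ℝ) ≤ ((N + 1 : ℕ) : ℝ) := by exact_mod_cast Nat.le_succ N
    have h1 := intervalIntegral.integral_Ioi_sub_Ioi (tnz_int hχ h0 hN0) hle
    have h2 : ∫ t in (N : ℝ)..((N + 1 : ℕ) : ℝ), sgbA χ ⌊t⌋₊ * (t : ℂ) ^ (-((σ : ℂ) + 1)) =
        ∫ t in (N : ℝ)..((N + 1 : ℕ) : ℝ), sgbA χ N * (t : ℂ) ^ (-((σ : ℂ) + 1)) := by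
      refine intervalIntegral.integral_congr_Ioo_of_le hle fun t ht => ?_
      have : ⌊t⌋₊ = N := by
        rw [Nat.floor_eq_iff (hN0.trans ht.1).le]
        exact ⟨ht.1.le, by exact_mod_cast ht.2⟩
      simp only [this]
    rw [h2, intervalIntegral.integral_const_mul, integral_cpow (Or.inr ⟨fun h => hσ (by
      linear_combination -h), by
        rw [Set.uIcc_of_le hle]
        exact fun h => absurd h.1 (not_le.2 hN0)⟩)] at h1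
    rw [show -((σ : ℂ) + 1) + 1 = -(σ : ℂ) by ring, Complex.ofReal_natCast,
      Complex.ofReal_natCast] at h1
    rw [sum_Icc_succ_top (by omega), ← sub_sub, ih, sgb_succ, sub_eq_iff_eq_add.1 h1]
    field_simp
    ring

theorem L_trunc {q : ℕ} [NeZero q] {χ : DirichletCharacter ℂ q} (hχ : χ ≠ 1) {σ : ℝ} (h0 : 0 < σ)
    {N : ℕ} (hN : 0 < N) :
    ‖χ.LFunction σ - ∑ n ∈ Icc 1 N, χ n * (n : ℂ) ^ (-(σ : ℂ))‖ ≤ 2 * q * (N : ℝ) ^ (-σ) := by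
  have hN0 : (0 : ℝ) < N := by exact_mod_cast hN
  rw [tnz_abel hχ h0 hN]
  have ha : -σ - 1 < -1 := by linarith
  have h1 : ‖∫ t in Set.Ioi (N : ℝ), sgbA χ ⌊t⌋₊ * (t : ℂ) ^ (-((σ : ℂ) + 1))‖ ≤
      ∫ t in Set.Ioi (N : ℝ), q * t ^ (-σ - 1) := by
    refine MeasureTheory.norm_integral_le_of_norm_le
      ((integrableOn_Ioi_rpow_of_lt ha hN0).const_mul _) ?_
    filter_upwards [MeasureTheory.ae_restrict_mem measurableSet_Ioi] with t ht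
    exact tnz_norm hχ σ (hN0.trans ht)
  rw [MeasureTheory.integral_const_mul, integral_Ioi_rpow_of_lt ha hN0,
    show -σ - 1 + 1 = -σ by ring, neg_div_neg_eq] at h1
  have h2 : ‖sgbA χ N * (N : ℂ) ^ (-(σ : ℂ))‖ ≤ q * (N : ℝ) ^ (-σ) := by
    rw [norm_mul, Complex.norm_natCast_cpow_of_pos hN]
    simp only [Complex.neg_re, Complex.ofReal_re]
    exact mul_le_mul_of_nonneg_right (sgb_le_q hχ _) (Real.rpow_nonneg hN0.le _)
  refine (norm_sub_le _ _).trans ?_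
  rw [norm_mul, Complex.norm_real, Real.norm_eq_abs, abs_of_pos h0]
  have h3 := mul_le_mul_of_nonneg_left h1 h0.le
  have h4 : σ * (q * ((N : ℝ) ^ (-σ) / σ)) = q * (N : ℝ) ^ (-σ) := by field_simp
  linarith

theorem tnz_rc {q : ℕ} [NeZero q] {χ : DirichletCharacter ℂ q} {ψ : ℕ → ℝ} (hχ : χ ≠ 1)
    (h2 : χ ^ 2 = 1) (h : ∀ n : ℕ, χ n = ψ n) : RC q ψ := by
  refine ⟨fun n => ?_, ?_, fun m n => ?_, fun N => ?_⟩
  · have := MulChar.isQuadratic_iff_sq_eq_one.mpr h2 (n : ZMod q)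
    rw [h] at this
    exact_mod_cast this
  · have := h 1
    rw [Nat.cast_one, map_one] at this
    exact_mod_cast this.symm
  · have := h (m * n)
    rw [Nat.cast_mul, map_mul, h, h] at this
    exact_mod_cast this.symm
  · have := sgb_le_q hχ N
    simp only [sgbA, h] at this
    rwa [← Complex.ofReal_sum, Complex.norm_real, Real.norm_eq_abs] at this

theorem tnz_trunc {q : ℕ} [NeZero q] {χ : DirichletCharacter ℂ q} {ψ : ℕ → ℝ} (hχ : χ ≠ 1)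
    (h : ∀ n : ℕ, χ n = ψ n) {σ : ℝ} (h0 : 0 < σ) {N : ℕ} (hN : 0 < N) :
    |(χ.LFunction σ).re - ∑ n ∈ Icc 1 N, ψ n * (n : ℝ) ^ (-σ)| ≤ 2 * q * (N : ℝ) ^ (-σ) := by
  refine le_trans (le_of_eq ?_) ((Complex.abs_re_le_norm _).trans (L_trunc hχ h0 hN))
  rw [Complex.sub_re, Complex.re_sum]
  congr 2
  refine sum_congr rfl fun n _ => ?_
  rw [h, Complex.re_ofReal_mul, ← Complex.ofReal_natCast, ← Complex.ofReal_neg,
    ← Complex.ofReal_cpow (Nat.cast_nonneg n), Complex.ofReal_re]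

theorem tnz_tan {b u v : ℝ} (h0 : 0 ≤ b) (h1 : b ≤ 1) (hu : 0 < u) (hv : 0 ≤ v) :
    v ^ (1 - b) ≤ u ^ (1 - b) + (1 - b) * u ^ (-b) * (v - u) := by
  have hs : -1 ≤ (v - u) / u := by
    rw [le_div_iff₀ hu]
    linarith
  have h2 := rpow_one_add_le_one_add_mul_self hs (p := 1 - b) (by linarith) (by linarith)
  have h3 : v = u * (1 + (v - u) / u) := by field_simp; ring
  have h4 : u ^ (1 - b) = u ^ (-b) * u := by
    rw [← Real.rpow_add_one hu.ne']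
    congr 1
    ring
  calc v ^ (1 - b) = u ^ (1 - b) * (1 + (v - u) / u) ^ (1 - b) := by
        rw [← Real.mul_rpow hu.le (by linarith), ← h3]
    _ ≤ u ^ (1 - b) * (1 + (1 - b) * ((v - u) / u)) :=
        mul_le_mul_of_nonneg_left h2 (Real.rpow_nonneg hu.le _)
    _ = _ := by
        rw [h4]
        field_simp

/-- Truncated zeta sum. -/
def tnzZ (b : ℝ) (M : ℕ) : ℝ := (1 - b) * ∑ m ∈ Icc 1 M, (m : ℝ) ^ (-b)

theorem tnz_succ (b : ℝ) (M : ℕ) :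
    tnzZ b (M + 1) = tnzZ b M + (1 - b) * ((M : ℝ) + 1) ^ (-b) := by
  unfold tnzZ
  rw [sum_Icc_succ_top (by omega)]
  push_cast
  ring

theorem tnz_E {b : ℝ} (h0 : 0 ≤ b) (h1 : b ≤ 1) {M N : ℕ} (h : M ≤ N) :
    tnzZ b N - (N : ℝ) ^ (1 - b) ≤ tnzZ b M - (M : ℝ) ^ (1 - b) := by
  induction N, h using Nat.le_induction with
  | base => exact le_rfl
  | succ N _ ih =>
    have := tnz_tan h0 h1 (u := (N : ℝ) + 1) (v := N) (by positivity) (by positivity)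
    rw [tnz_succ]
    push_cast
    linarith

theorem tnz_D {b : ℝ} (h0 : 0 ≤ b) (h1 : b ≤ 1) {M N : ℕ} (h : M ≤ N) :
    tnzZ b M - ((M : ℝ) + 1) ^ (1 - b) ≤ tnzZ b N - ((N : ℝ) + 1) ^ (1 - b) := by
  induction N, h using Nat.le_induction with
  | base => exact le_rfl
  | succ N _ ih =>
    have := tnz_tan h0 h1 (u := (N : ℝ) + 1) (v := N + 1 + 1) (by positivity) (by positivity)
    rw [tnz_succ]
    push_cast
    linarith

theorem tnz_Z {b : ℝ} (h0 : 0 ≤ b) (h1 : b ≤ 1) {M x : ℕ} (hM : 0 < M) (h : M ≤ x) {u : ℝ}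
    (hu1 : (M : ℝ) ≤ u) (hu2 : u ≤ M + 1) :
    |tnzZ b M - u ^ (1 - b) - (tnzZ b x - (x : ℝ) ^ (1 - b))| ≤ (M : ℝ) ^ (-b) := by
  have hM0 : (0 : ℝ) < M := by exact_mod_cast hM
  have ha : 0 ≤ 1 - b := by linarith
  have e1 := tnz_E h0 h1 h
  have e2 := tnz_D h0 h1 h
  have e3 := tnz_tan h0 h1 (u := (M : ℝ)) (v := M + 1) hM0 (by positivity)
  have e4 : (x : ℝ) ^ (1 - b) ≤ ((x : ℝ) + 1) ^ (1 - b) :=
    Real.rpow_le_rpow (by positivity) (by linarith) ha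
  have e5 : (M : ℝ) ^ (1 - b) ≤ u ^ (1 - b) := Real.rpow_le_rpow hM0.le hu1 ha
  have e6 : u ^ (1 - b) ≤ ((M : ℝ) + 1) ^ (1 - b) := Real.rpow_le_rpow (by linarith) hu2 ha
  have e7 : 0 ≤ b * (M : ℝ) ^ (-b) := mul_nonneg h0 (Real.rpow_nonneg hM0.le _)
  rw [abs_le]
  constructor <;> linarith

theorem tnz_le {b : ℝ} (h0 : 0 ≤ b) (h1 : b < 1) (x : ℕ) : tnzZ b x ≤ (x : ℝ) ^ (1 - b) := by
  have := tnz_E h0 h1.le (Nat.zero_le x)
  rw [Nat.cast_zero, Real.zero_rpow (by linarith)] at this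
  have h2 : tnzZ b 0 = 0 := by simp [tnzZ]
  linarith

theorem tnz_ge {b : ℝ} (h0 : 0 ≤ b) (h1 : b < 1) (x : ℕ) :
    -1 ≤ tnzZ b x - (x : ℝ) ^ (1 - b) := by
  have := tnz_D h0 h1.le (Nat.zero_le x)
  rw [Nat.cast_zero, zero_add, Real.one_rpow] at this
  have h2 : tnzZ b 0 = 0 := by simp [tnzZ]
  have e4 : (x : ℝ) ^ (1 - b) ≤ ((x : ℝ) + 1) ^ (1 - b) :=
    Real.rpow_le_rpow (by positivity) (by linarith) (by linarith)
  linarith

theorem tnz_hyp (f g : ℕ → ℝ) {y w : ℕ} (hy : 0 < y) (hw : 0 < w) :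
    ∑ n ∈ Icc 1 (y * w), ∑ d ∈ n.divisors, f d * g (n / d) =
      ∑ d ∈ Icc 1 y, f d * ∑ m ∈ Icc 1 (y * w / d), g m +
        ∑ m ∈ Icc 1 w, g m * (∑ d ∈ Icc 1 (y * w / m), f d - ∑ d ∈ Icc 1 y, f d) := by
  have hI : ∀ N : ℕ, Icc 1 N = Ioc 0 N := fun N => by
    ext n
    simp only [mem_Icc, mem_Ioc]
    omega
  simp only [hI]
  have h1 : ∑ n ∈ Ioc 0 (y * w), ∑ d ∈ n.divisors, f d * g (n / d) =
      ∑ d ∈ Ioc 0 (y * w), ∑ m ∈ Ioc 0 (y * w / d), f d * g m := by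
    rw [sum_sigma', sum_sigma']
    refine sum_bij' (fun p _ => ⟨p.2, p.1 / p.2⟩) (fun p _ => ⟨p.1 * p.2, p.1⟩) ?_ ?_ ?_ ?_ ?_
    · rintro ⟨n, d⟩ hp
      simp only [mem_sigma, mem_Ioc, Nat.mem_divisors] at hp ⊢
      obtain ⟨⟨a1, a2⟩, a3, -⟩ := hp
      have a4 := Nat.le_of_dvd a1 a3
      have a5 := Nat.pos_of_dvd_of_pos a3 a1
      exact ⟨⟨a5, a4.trans a2⟩, Nat.div_pos a4 a5, Nat.div_le_div_right a2⟩
    · rintro ⟨d, m⟩ hp
      simp only [mem_sigma, mem_Ioc, Nat.mem_divisors] at hp ⊢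
      obtain ⟨⟨a1, -⟩, a3, a4⟩ := hp
      rw [Nat.le_div_iff_mul_le a1, mul_comm] at a4
      exact ⟨⟨Nat.mul_pos a1 a3, a4⟩, dvd_mul_right _ _, (Nat.mul_pos a1 a3).ne'⟩
    · rintro ⟨n, d⟩ hp
      simp only [mem_sigma, mem_Ioc, Nat.mem_divisors] at hp
      simp only [Nat.mul_div_cancel' hp.2.1]
    · rintro ⟨d, m⟩ hp
      simp only [mem_sigma, mem_Ioc] at hp
      simp only [Nat.mul_div_cancel_left _ hp.1.1]
    · rintro ⟨n, d⟩ _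
      rfl
  rw [h1, ← sum_Ioc_consecutive _ (Nat.zero_le y) (Nat.le_mul_of_pos_right y hw)]
  congr 1
  · exact sum_congr rfl fun d _ => (mul_sum _ _ _).symm
  · rw [sum_comm' (t' := Ioc 0 w) (s' := fun m => Ioc y (y * w / m))]
    · refine sum_congr rfl fun m hm => ?_
      rw [mem_Ioc] at hm
      have h2 : y ≤ y * w / m := by
        rw [Nat.le_div_iff_mul_le hm.1]
        exact Nat.mul_le_mul_left _ hm.2
      rw [← sum_Ioc_consecutive _ (Nat.zero_le y) h2, add_sub_cancel_left, mul_sum]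
      exact sum_congr rfl fun d _ => mul_comm _ _
    · intro d m
      simp only [mem_Ioc]
      constructor
      · rintro ⟨⟨a1, -⟩, a3, a4⟩
        rw [Nat.le_div_iff_mul_le (hy.trans a1)] at a4
        refine ⟨⟨a1, ?_⟩, a3, ?_⟩
        · rwa [Nat.le_div_iff_mul_le a3, mul_comm]
        · exact Nat.le_of_mul_le_mul_left (le_trans (by nlinarith) a4) hy
      · rintro ⟨⟨a1, a2⟩, a3, -⟩
        rw [Nat.le_div_iff_mul_le a3] at a2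
        refine ⟨⟨a1, le_trans (Nat.le_mul_of_pos_right d a3) a2⟩, a3, ?_⟩
        rwa [Nat.le_div_iff_mul_le (hy.trans a1), mul_comm]

theorem tnz_core {ψ : ℕ → ℝ} (hψ : ∀ n, |ψ n| ≤ 1) {L K q b : ℝ} (hq : 0 ≤ q) (hK : 0 ≤ K)
    (h0 : 0 ≤ b) (h1 : b < 1)
    (hL1 : ∀ N : ℕ, 0 < N → |L - ∑ n ∈ Icc 1 N, ψ n * (n : ℝ) ^ (-(1 : ℝ))| ≤
      2 * q * (N : ℝ) ^ (-(1 : ℝ)))
    (hLb : ∀ N : ℕ, 0 < N → |K - ∑ n ∈ Icc 1 N, ψ n * (n : ℝ) ^ (-b)| ≤ 2 * q * (N : ℝ) ^ (-b))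
    {y w : ℕ} (hy : 0 < y) (hw : 0 < w) :
    (1 - b) * ∑ n ∈ Icc 1 (y * w), rr ψ n * (n : ℝ) ^ (-b) ≤
      ((y * w : ℕ) : ℝ) ^ (1 - b) * (L + 2 * q * (y : ℝ) ^ (-(1 : ℝ))) + 2 * q * (y : ℝ) ^ (-b) +
        y * (w : ℝ) ^ (-b) + 4 * q * (y : ℝ) ^ (-b) * (w : ℝ) ^ (1 - b) := by
  have hy0 : (0 : ℝ) < y := by exact_mod_cast hy
  have hw0 : (0 : ℝ) < w := by exact_mod_cast hw
  have ha : 0 ≤ 1 - b := by linarith
  have e1 : ∑ n ∈ Icc 1 (y * w), rr ψ n * (n : ℝ) ^ (-b) = ∑ n ∈ Icc 1 (y * w),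
      ∑ d ∈ n.divisors, (ψ d * (d : ℝ) ^ (-b)) * ((n / d : ℕ) : ℝ) ^ (-b) := by
    refine sum_congr rfl fun n _ => ?_
    rw [rr, sum_mul]
    refine sum_congr rfl fun d hd => ?_
    rw [mul_assoc, ← Real.mul_rpow (Nat.cast_nonneg _) (Nat.cast_nonneg _), ← Nat.cast_mul,
      Nat.mul_div_cancel' (Nat.dvd_of_mem_divisors hd)]
  rw [e1, tnz_hyp (fun d => ψ d * (d : ℝ) ^ (-b)) (fun m => (m : ℝ) ^ (-b)) hy hw, mul_add]
  have hz1 := tnz_le h0 h1 (y * w)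
  have hz2 := tnz_ge h0 h1 (y * w)
  obtain ⟨z, hz⟩ : ∃ z, z = tnzZ b (y * w) - ((y * w : ℕ) : ℝ) ^ (1 - b) := ⟨_, rfl⟩
  have e2 : (1 - b) * ∑ d ∈ Icc 1 y, ψ d * (d : ℝ) ^ (-b) *
      ∑ m ∈ Icc 1 (y * w / d), (m : ℝ) ^ (-b) ≤ ∑ d ∈ Icc 1 y,
        (((y * w : ℕ) : ℝ) ^ (1 - b) * (ψ d * (d : ℝ) ^ (-(1 : ℝ))) + z * (ψ d * (d : ℝ) ^ (-b)) +
          (w : ℝ) ^ (-b)) := by
    rw [mul_sum]
    refine sum_le_sum fun d hd => ?_
    rw [mem_Icc] at hd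
    have hd0 : (0 : ℝ) < d := by exact_mod_cast hd.1
    have hd1 : (1 : ℝ) ≤ d := by exact_mod_cast hd.1
    have a1 : w ≤ y * w / d := by
      rw [Nat.le_div_iff_mul_le hd.1, mul_comm]
      exact Nat.mul_le_mul_right _ hd.2
    have a2 := tnz_Z h0 h1.le (hw.trans_le a1) (Nat.div_le_self (y * w) d)
      (u := ((y * w : ℕ) : ℝ) / d) Nat.cast_div_le (by
        rw [div_le_iff₀ hd0]
        have := Nat.lt_div_mul_add (a := y * w) hd.1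
        have : y * w ≤ (y * w / d + 1) * d := by nlinarith
        exact_mod_cast this)
    rw [← hz] at a2
    have a3 : ((y * w / d : ℕ) : ℝ) ^ (-b) ≤ (w : ℝ) ^ (-b) :=
      Real.rpow_le_rpow_of_nonpos hw0 (by exact_mod_cast a1) (by linarith)
    have a4 : |ψ d * (d : ℝ) ^ (-b)| ≤ 1 := by
      rw [abs_mul, abs_of_nonneg (Real.rpow_nonneg hd0.le _)]
      exact mul_le_one₀ (hψ d) (Real.rpow_nonneg hd0.le _)
        (Real.rpow_le_one_of_one_le_of_nonpos hd1 (by linarith))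
    have a5 : ψ d * (d : ℝ) ^ (-b) * (((y * w : ℕ) : ℝ) / d) ^ (1 - b) =
        ((y * w : ℕ) : ℝ) ^ (1 - b) * (ψ d * (d : ℝ) ^ (-(1 : ℝ))) := by
      rw [Real.div_rpow (Nat.cast_nonneg _) hd0.le,
        show -(1 : ℝ) = -b - (1 - b) by ring, Real.rpow_sub hd0 (-b)]
      ring
    have a6 := (le_abs_self _).trans ((abs_mul _ _).trans_le
      (mul_le_mul a4 (a2.trans a3) (abs_nonneg _) zero_le_one))
    have a7 : (1 - b) * (ψ d * (d : ℝ) ^ (-b) * ∑ m ∈ Icc 1 (y * w / d), (m : ℝ) ^ (-b)) =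
        ψ d * (d : ℝ) ^ (-b) * tnzZ b (y * w / d) := by
      rw [tnzZ]
      ring
    rw [a7, ← a5]
    linarith
  rw [sum_add_distrib, sum_add_distrib, ← mul_sum, ← mul_sum, sum_const, Nat.card_Icc,
    Nat.add_sub_cancel, nsmul_eq_mul] at e2
  have b1 := abs_le.1 (hL1 y hy)
  have b2 := abs_le.1 (hLb y hy)
  have b3 : 0 ≤ 2 * q * (y : ℝ) ^ (-b) := by positivity
  have e3 : ((y * w : ℕ) : ℝ) ^ (1 - b) * ∑ d ∈ Icc 1 y, ψ d * (d : ℝ) ^ (-(1 : ℝ)) ≤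
      ((y * w : ℕ) : ℝ) ^ (1 - b) * (L + 2 * q * (y : ℝ) ^ (-(1 : ℝ))) :=
    mul_le_mul_of_nonneg_left (by linarith [b1.1]) (Real.rpow_nonneg (Nat.cast_nonneg _) _)
  have e4 : z * ∑ d ∈ Icc 1 y, ψ d * (d : ℝ) ^ (-b) ≤ 2 * q * (y : ℝ) ^ (-b) := by
    have c1 : z ≤ 0 := by linarith
    have c2 : -1 ≤ z := by linarith
    have c3 : -(2 * q * (y : ℝ) ^ (-b)) ≤ ∑ d ∈ Icc 1 y, ψ d * (d : ℝ) ^ (-b) := by
      linarith [b2.2]
    nlinarith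
  have e5 : ∑ m ∈ Icc 1 w, (m : ℝ) ^ (-b) * (∑ d ∈ Icc 1 (y * w / m), ψ d * (d : ℝ) ^ (-b) -
      ∑ d ∈ Icc 1 y, ψ d * (d : ℝ) ^ (-b)) ≤
        ∑ m ∈ Icc 1 w, (m : ℝ) ^ (-b) * (4 * q * (y : ℝ) ^ (-b)) := by
    refine sum_le_sum fun m hm => ?_
    rw [mem_Icc] at hm
    refine mul_le_mul_of_nonneg_left ?_ (Real.rpow_nonneg (Nat.cast_nonneg _) _)
    have a1 : y ≤ y * w / m := by
      rw [Nat.le_div_iff_mul_le hm.1]
      exact Nat.mul_le_mul_left _ hm.2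
    have a2 := abs_le.1 (hLb _ (hy.trans_le a1))
    have a3 : ((y * w / m : ℕ) : ℝ) ^ (-b) ≤ (y : ℝ) ^ (-b) :=
      Real.rpow_le_rpow_of_nonpos hy0 (by exact_mod_cast a1) (by linarith)
    have a4 := mul_le_mul_of_nonneg_left a3 hq
    linarith [a2.1, b2.2]
  have e6 := mul_le_mul_of_nonneg_left e5 ha
  rw [← sum_mul, ← mul_assoc] at e6
  have e7 := mul_le_mul_of_nonneg_right (tnz_le h0 h1 w)
    (show 0 ≤ 4 * q * (y : ℝ) ^ (-b) by positivity)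
  rw [tnzZ] at e7
  linarith

theorem nz_sum {c : ℝ} (hc : 0 < c) : ∃ C : ℝ, 0 < C ∧ ∀ (q : ℕ) [NeZero q]
    (χ : DirichletCharacter ℂ q) (ψ : ℕ → ℝ), χ ≠ 1 → χ ^ 2 = 1 → (∀ n : ℕ, χ n = ψ n) → 2 ≤ q →
    (∀ β : ℝ, 1 - c / Real.log q ≤ β → β < 1 → χ.LFunction β ≠ 0) →
    ∑ n ∈ Icc 1 (q ^ 9), rr ψ n / n ≤ C * ‖χ.LFunction 1‖ * Real.log q := by
  obtain ⟨c0, hc0, hS⟩ := siegel (ε := 1) one_pos
  obtain ⟨k, hk0, hk1, hk2⟩ : ∃ k : ℝ, 0 < k ∧ k ≤ c ∧ k ≤ 1 / 4 :=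
    ⟨min c (1 / 4), lt_min hc (by norm_num), min_le_left _ _, min_le_right _ _⟩
  refine ⟨Real.exp k ^ 9 * (1 + 9 / c0) / k, by positivity, fun q _ χ ψ hχ h2 h hq hz => ?_⟩
  have hrc := tnz_rc hχ h2 h
  have hl := Pool.Agent.Lib.Sieve.one_half_le_log hq
  have hl0 : 0 < Real.log q := by linarith
  have hq1 : (1 : ℝ) ≤ q := by exact_mod_cast le_trans one_le_two hq
  have hq0 : (0 : ℝ) < q := by linarith
  obtain ⟨b, hb⟩ : ∃ b : ℝ, b = 1 - k / Real.log q := ⟨_, rfl⟩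
  have ha : 1 - b = k / Real.log q := by rw [hb]; ring
  have ha0 : 0 < k / Real.log q := by positivity
  have ha1 : k / Real.log q ≤ 1 / 2 := by
    rw [div_le_iff₀ hl0]
    linarith
  have hb0 : 0 < b := by linarith
  have hb1 : b < 1 := by linarith
  have hK : 0 < (χ.LFunction b).re := by
    refine (posSer_one h2).re_pos (DirichletCharacter.differentiable_LFunction hχ)
      (fun x hx hx1 => ?_) hb1.le
    rcases hx1.eq_or_lt with rfl | hx1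
    · exact DirichletCharacter.LFunction_apply_one_ne_zero hχ
    · refine hz x (le_trans ?_ hx) hx1
      have := div_le_div_of_nonneg_right hk1 hl0.le
      linarith
  have hψ : ∀ n, |ψ n| ≤ 1 := fun n => by
    rcases hrc.val n with h | h | h <;> simp [h]
  have hq4 : 0 < q ^ 4 := by positivity
  have hq5 : 0 < q ^ 5 := by positivity
  have core := tnz_core hψ hq0.le hK.le hb0.le hb1 (fun N hN => tnz_trunc hχ h one_pos hN)
    (fun N hN => tnz_trunc hχ h hb0 hN) hq4 hq5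
  rw [← pow_add] at core
  have hW : (q : ℝ) ^ (1 - b) = Real.exp k := by
    rw [Real.rpow_def_of_pos hq0, ha]
    congr 1
    field_simp
  have hW1 : 1 ≤ Real.exp k := Real.one_le_exp hk0.le
  have hW' : (q : ℝ) ^ (-b) = Real.exp k / q := by
    rw [← hW, ← Real.rpow_sub_one hq0.ne']
    congr 1
    ring
  have hp : ∀ (j : ℕ) (t : ℝ), ((q ^ j : ℕ) : ℝ) ^ t = ((q : ℝ) ^ t) ^ j := fun j t => by
    rw [Nat.cast_pow, Real.rpow_pow_comm hq0.le]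
  simp only [hp, hW, hW', Real.rpow_neg_one] at core
  rw [Nat.cast_pow, Complex.ofReal_one] at core
  have hs := hS q χ hχ h2
  rw [Real.rpow_neg_one] at hs
  have hre := Complex.re_le_norm (χ.LFunction 1)
  generalize ‖χ.LFunction 1‖ = L at *
  generalize (χ.LFunction 1).re = L' at *
  generalize Real.exp k = W at *
  have hT : ∑ n ∈ Icc 1 (q ^ 9), rr ψ n / n ≤ ∑ n ∈ Icc 1 (q ^ (4 + 5)), rr ψ n * (n : ℝ) ^ (-b) := by
    refine sum_le_sum fun n hn => ?_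
    rw [mem_Icc] at hn
    rw [div_eq_mul_inv, ← Real.rpow_neg_one]
    exact mul_le_mul_of_nonneg_left (Real.rpow_le_rpow_of_exponent_le (by exact_mod_cast hn.1)
      (by linarith)) (hrc.rr_nonneg n)
  refine hT.trans ?_
  generalize ∑ n ∈ Icc 1 (q ^ (4 + 5)), rr ψ n * (n : ℝ) ^ (-b) = T at *
  have hi0 : 0 < (q : ℝ)⁻¹ := by positivity
  have hi1 : (q : ℝ)⁻¹ ≤ 1 := inv_le_one_of_one_le₀ hq1
  have hi3 : (q : ℝ)⁻¹ ^ 3 ≤ (q : ℝ)⁻¹ := pow_le_of_le_one hi0.le hi1 (by norm_num)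
  have hw4 : W ^ 4 ≤ W ^ 9 := pow_le_pow_right₀ hW1 (by norm_num)
  have hw5 : W ^ 5 ≤ W ^ 9 := pow_le_pow_right₀ hW1 (by norm_num)
  have hW9 : 0 < W ^ 9 := by positivity
  have e1 : W ^ (4 + 5) * (L' + 2 * q * (q : ℝ)⁻¹ ^ 4) + 2 * q * (W / q) ^ 4 +
      (q : ℝ) ^ 4 * (W / q) ^ 5 + 4 * q * (W / q) ^ 4 * W ^ 5 =
      W ^ 9 * L' + 6 * (W ^ 9 * (q : ℝ)⁻¹ ^ 3) + 2 * (W ^ 4 * (q : ℝ)⁻¹ ^ 3) +
        W ^ 5 * (q : ℝ)⁻¹ := by
    field_simp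
    ring
  have e2 : W ^ 9 * (q : ℝ)⁻¹ ^ 3 ≤ W ^ 9 * (q : ℝ)⁻¹ := by gcongr
  have e3 : W ^ 4 * (q : ℝ)⁻¹ ^ 3 ≤ W ^ 9 * (q : ℝ)⁻¹ := by gcongr
  have e4 : W ^ 5 * (q : ℝ)⁻¹ ≤ W ^ 9 * (q : ℝ)⁻¹ := by gcongr
  have e5 : W ^ 9 * L' ≤ W ^ 9 * L := by gcongr
  have e6 : W ^ 9 * (q : ℝ)⁻¹ ≤ W ^ 9 * (L / c0) := by
    gcongr
    rw [le_div_iff₀ hc0]
    linarith
  rw [e1, ha] at core
  have e7 : k / Real.log q * T ≤ W ^ 9 * L + 9 * (W ^ 9 * (L / c0)) := by linarith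
  rw [div_mul_eq_mul_div, div_le_iff₀ hl0, ← le_div_iff₀' hk0] at e7
  refine e7.trans (le_of_eq ?_)
  field_simp

theorem tnz_split (f : ℕ → ℝ) {z X : ℕ} (h : z ≤ X) :
    ∑ l ∈ Nat.primesLE X, f l =
      ∑ l ∈ Nat.primesLE z, f l + ∑ l ∈ (Nat.primesLE X).filter (fun l => z < l), f l := by
  rw [← sum_filter_add_sum_filter_not (Nat.primesLE X) (fun l => z < l), add_comm]
  congr 2
  ext l
  simp only [mem_filter, Nat.mem_primesLE, not_lt]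
  exact ⟨fun a => ⟨a.2, a.1.2⟩, fun a => ⟨⟨a.1.trans h, a.2⟩, a.1⟩⟩

theorem tnz_abs {ψ : ℕ → ℝ} (hψ : ∀ n, |ψ n| ≤ 1) (S : Finset ℕ) :
    |∑ l ∈ S, ψ l / l| ≤ ∑ l ∈ S, 1 / (l : ℝ) := by
  refine (abs_sum_le_sum_abs _ _).trans (sum_le_sum fun l _ => ?_)
  rw [abs_div, Nat.abs_cast]
  exact div_le_div_of_nonneg_right (hψ l) (Nat.cast_nonneg _)

theorem tnz_move : ∃ C : ℝ, ∀ (q : ℕ) (ψ : ℕ → ℝ), RC q ψ → 2 ≤ q → ∀ X : ℕ, q ≤ X ^ 3 →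
    ∑ l ∈ Nat.primesLE X, ψ l / l ≤ ∑ l ∈ Nat.primesLE q, ψ l / l + C := by
  obtain ⟨C3, h3⟩ := range_pow 3
  obtain ⟨C2, h2⟩ := range_pow 2
  obtain ⟨C1, h1⟩ := tail_le
  refine ⟨|C3| + |C2| + |C1|, fun q ψ hrc hq X hX => ?_⟩
  have hψ : ∀ n, |ψ n| ≤ 1 := fun n => by
    rcases hrc.val n with h | h | h <;> simp [h]
  have a1 := le_abs_self C1
  have a2 := le_abs_self C2
  have a3 := le_abs_self C3
  have b1 := abs_nonneg C1
  have b2 := abs_nonneg C2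
  have b3 := abs_nonneg C3
  rcases le_total X q with h | h
  · have := abs_le.1 ((tnz_abs hψ _).trans (h3 X q hX))
    rw [tnz_split _ h]
    linarith [this.1]
  · rcases le_total X (q ^ 2) with h' | h'
    · have := abs_le.1 ((tnz_abs hψ _).trans (h2 q X h'))
      rw [tnz_split _ h]
      linarith [this.2]
    · have := abs_le.1 ((tnz_abs hψ _).trans (h2 q (q ^ 2) le_rfl))
      have hq2 : q ≤ q ^ 2 := Nat.le_self_pow two_ne_zero q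
      have h4 := h1 q ψ hrc (q ^ 2) X (hq.trans hq2) le_rfl
      rw [tnz_split _ h', tnz_split _ hq2]
      linarith [this.2]

theorem nz_euler {c : ℝ} (hc : 0 < c) : ∃ C : ℝ, 0 < C ∧ ∀ (q : ℕ) [NeZero q]
    (χ : DirichletCharacter ℂ q) (ψ : ℕ → ℝ), χ ≠ 1 → χ ^ 2 = 1 → (∀ n : ℕ, χ n = ψ n) →
    (∀ β : ℝ, 1 - c / Real.log q ≤ β → β < 1 → χ.LFunction β ≠ 0) → ∀ X : ℕ, q ≤ X ^ 3 →
    Real.exp (∑ l ∈ Nat.primesLE X, ψ l / l) ≤ C * ‖χ.LFunction 1‖ := by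
  obtain ⟨C1, hC1, h1⟩ := nz_sum hc
  obtain ⟨C2, hC2, h2⟩ := RC.euler_le
  obtain ⟨C3, h3⟩ := tnz_move
  refine ⟨C2 * C1 * Real.exp (2 + C3), by positivity, fun q _ χ ψ hχ hχ2 h hz X hX => ?_⟩
  have hq : 2 ≤ q := by
    have h0 := NeZero.pos q
    by_contra hq
    obtain rfl : q = 1 := by omega
    exact hχ χ.level_one
  have hrc := tnz_rc hχ hχ2 h
  have hl := Pool.Agent.Lib.Sieve.one_half_le_log hq
  have hl0 : 0 < Real.log q := by linarith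
  have e1 := h1 q χ ψ hχ hχ2 h hq hz
  have e2 := h2 q ψ hrc 1 q le_rfl (by omega)
  have e3 : ∑ n ∈ Icc 1 1, rr ψ n / n = 1 := by simp [rr, hrc.one]
  have e4 : (Nat.primesLE q).filter (fun l => 1 < l) = Nat.primesLE q :=
    filter_true_of_mem fun l hl => (Nat.prime_of_mem_primesLE hl).one_lt
  rw [e3, e4, one_mul, one_mul] at e2
  simp only [add_div, sum_add_distrib] at e2
  have e5 := Pool.Agent.Lib.Sieve.le_sum_inv_primes hq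
  have e6 := h3 q ψ hrc hq X hX
  have e7 : Real.exp (∑ l ∈ Nat.primesLE X, ψ l / l) * Real.log q ≤
      Real.exp (∑ l ∈ Nat.primesLE q, 1 / (l : ℝ) + ∑ l ∈ Nat.primesLE q, ψ l / l) *
        Real.exp (2 + C3) := by
    rw [← Real.exp_log hl0, ← Real.exp_add, ← Real.exp_add]
    exact Real.exp_le_exp.2 (by linarith)
  refine le_of_mul_le_mul_right (e7.trans ?_) hl0
  calc _ ≤ C2 * (C1 * ‖χ.LFunction 1‖ * Real.log q) * Real.exp (2 + C3) :=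
        mul_le_mul_of_nonneg_right (e2.trans (mul_le_mul_of_nonneg_left e1 hC2.le))
          (Real.exp_pos _).le
    _ = _ := by ring

end Pool.Agent.EQ
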