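import Pool.Agent.P.MP_ad7a55_nt.TShC

/-! The bound with types. -/

set_option autoImplicit false

noncomputable section

open Finset

namespace Pool.Agent.EQ

theorem tsh2_dvd (P : Finset ℕ) (hP : ∀ l ∈ P, l.Prime) (e : ℕ → ℕ) (z : ℤ)
    (h : ∀ l ∈ P, (l : ℤ) ^ e l ∣ z) : ((∏ l ∈ P, l ^ e l : ℕ) : ℤ) ∣ z := by
  push_cast
  refine Finset.prod_dvd_of_coprime ?_ h
  intro l hl l' hl' hne
  have h1 : Nat.Coprime l l' := (Nat.coprime_primes (hP l hl) (hP l' hl')).2 hne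
  exact (Nat.isCoprime_iff_coprime.2 h1).pow

theorem tsh2_exp : ∃ C : ℝ, 0 < C ∧ ∀ (P : Finset ℕ) (a : ℕ → ℝ) (N N' : ℕ),
    (∀ l ∈ P, l.Prime ∧ -2 ≤ a l) → N' ≤ N → N ≤ N' ^ 2 →
    Real.exp (∑ l ∈ P.filter (fun l => l ≤ N'), a l / l) ≤
      C * Real.exp (∑ l ∈ P.filter (fun l => l ≤ N), a l / l) := by
  obtain ⟨C, hC⟩ := range_pow 2
  refine ⟨Real.exp (2 * C), Real.exp_pos _, fun P a N N' hP h1 h2 => ?_⟩
  rw [← Real.exp_add]
  refine Real.exp_le_exp.2 ?_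
  have h3 := hC N' N h2
  have h4 : ∑ l ∈ P.filter (fun l => l ≤ N), a l / l =
      ∑ l ∈ P.filter (fun l => l ≤ N'), a l / l +
        ∑ l ∈ (P.filter (fun l => l ≤ N)).filter (fun l => ¬ l ≤ N'), a l / l := by
    rw [← Finset.sum_filter_add_sum_filter_not (P.filter (fun l => l ≤ N)) (fun l => l ≤ N')]
    congr 2
    ext l
    simp only [Finset.mem_filter]
    exact ⟨fun h => ⟨h.1.1, h.2⟩, fun h => ⟨⟨h.1, h.2.trans h1⟩, h.2⟩⟩
  have h5 : ∑ l ∈ (P.filter (fun l => l ≤ N)).filter (fun l => ¬ l ≤ N'), 1 / (l : ℝ) ≤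
      ∑ l ∈ (Nat.primesLE N).filter (fun l => N' < l), 1 / (l : ℝ) := by
    refine Finset.sum_le_sum_of_subset_of_nonneg ?_ (fun i _ _ => by positivity)
    intro l hl
    simp only [Finset.mem_filter] at hl ⊢
    exact ⟨Nat.mem_primesLE.2 ⟨hl.1.2, (hP l hl.1.1).1⟩, not_le.1 hl.2⟩
  have h6 : ∑ l ∈ (P.filter (fun l => l ≤ N)).filter (fun l => ¬ l ≤ N'), (-2) * (1 / (l : ℝ)) ≤
      ∑ l ∈ (P.filter (fun l => l ≤ N)).filter (fun l => ¬ l ≤ N'), a l / l := by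
    refine Finset.sum_le_sum fun l hl => ?_
    simp only [Finset.mem_filter] at hl
    rw [mul_one_div]
    exact div_le_div_of_nonneg_right (hP l hl.1.1).2 (by positivity)
  rw [← Finset.mul_sum] at h6
  linarith

theorem tsh2_len {N Q : ℕ} (hQ : 0 < Q) (h : Q ^ 2 ≤ N) :
    (N - 1) / Q + 1 ≤ N ∧ N ≤ ((N - 1) / Q + 1) ^ 2 ∧ ((N - 1) / Q + 1) * Q ≤ 2 * N := by
  have h0 : Q ≤ Q ^ 2 := by nlinarith
  have h1 : (N - 1) / Q ≤ N - 1 := Nat.div_le_self _ _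
  have h2 : N - 1 < ((N - 1) / Q + 1) * Q := by
    have := Nat.lt_div_mul_add (a := N - 1) hQ
    nlinarith
  have h3 : (N - 1) / Q * Q ≤ N - 1 := Nat.div_mul_le_self _ _
  have h4 : N ≤ ((N - 1) / Q + 1) * Q := by omega
  refine ⟨by omega, ?_, ?_⟩
  · have h5 : Q ≤ (N - 1) / Q + 1 := by
      by_contra h6
      push Not at h6
      nlinarith
    nlinarith
  · have : ((N - 1) / Q + 1) * Q = (N - 1) / Q * Q + Q := by ring
    omega

theorem tsh2_one (K : ℝ) (A : ℕ) : ∃ C : ℝ, 0 < C ∧ ∀ (P : Finset ℕ) (x₀ : ℤ) (N : ℕ)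
    (S : Finset ℤ) (B : ℤ → ℤ) (e : ℕ → ℕ) (r : ℕ → ℤ) (Ω : ℕ → ℕ → ℤ → Prop) (f : ℕ → ℕ → ℝ)
    (a : ℕ → ℝ) (y : ℤ → ℕ → ℤ) (k : ℤ → ℕ → ℕ),
    (∀ l ∈ P, l.Prime ∧ Lv l K (Ω l) (f l) (a l)) →
    (∀ x ∈ S, x₀ ≤ x ∧ x < x₀ + N ∧ B x ≠ 0 ∧ (B x).natAbs ≤ N ^ A ∧ (∏ l ∈ P, l ^ e l) ^ 2 ≤ N ∧
      ∀ l ∈ P, x = r l + (l : ℤ) ^ e l * y x l ∧ At (Ω l) (y x l) (k x l) ∧
        (l : ℤ) ^ k x l ∣ B x) →
    ∑ x ∈ S, ∏ l ∈ P, f l (k x l) ≤
      C * N * (∏ l ∈ P, 1 / (l : ℝ) ^ e l) *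
        Real.exp (∑ l ∈ P.filter (fun l => l ≤ N), a l / l) := by
  obtain ⟨C0, hC0, h0⟩ := shiu K (2 * A)
  obtain ⟨C1, hC1, h1⟩ := tsh2_exp
  refine ⟨2 * C0 * C1, by positivity, fun P x₀ N S B e r Ω f a y k hP hS => ?_⟩
  rcases S.eq_empty_or_nonempty with rfl | hne
  · rw [Finset.sum_empty]
    have : 0 ≤ ∏ l ∈ P, 1 / (l : ℝ) ^ e l := Finset.prod_nonneg fun l _ => by positivity
    positivity
  set x₁ := S.min' hne with hx₁
  have hx₁S : x₁ ∈ S := S.min'_mem hne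
  set Q : ℕ := ∏ l ∈ P, l ^ e l with hQ
  have hQ0 : 0 < Q := Finset.prod_pos fun l hl => pow_pos (hP l hl).1.pos _
  have hQz : (0 : ℤ) < Q := by exact_mod_cast hQ0
  obtain ⟨n1, n2, n3⟩ := tsh2_len hQ0 (hS x₁ hx₁S).2.2.2.2.1
  set N' : ℕ := (N - 1) / Q + 1 with hN'
  have hdvd : ∀ x ∈ S, (Q : ℤ) ∣ x - x₁ := by
    intro x hx
    refine tsh2_dvd P (fun l hl => (hP l hl).1) e _ fun l hl => ⟨y x l - y x₁ l, ?_⟩
    have e1 := ((hS x hx).2.2.2.2.2 l hl).1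
    have e2 := ((hS x₁ hx₁S).2.2.2.2.2 l hl).1
    linear_combination e1 - e2
  have hback : ∀ x ∈ S, x₁ + Q * ((x - x₁) / Q) = x := by
    intro x hx
    rw [Int.mul_ediv_cancel' (hdvd x hx)]
    ring
  set u : ℕ → ℤ := fun l => ∏ l' ∈ P.erase l, (l' : ℤ) ^ e l' with hu
  have hQu : ∀ l ∈ P, (Q : ℤ) = (l : ℤ) ^ e l * u l := by
    intro l hl
    rw [hQ]
    push_cast
    exact (Finset.mul_prod_erase P (fun l' => (l' : ℤ) ^ e l') hl).symm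
  have hlu : ∀ l ∈ P, ¬ (l : ℤ) ∣ u l := by
    intro l hl hd
    have hp : Prime (l : ℤ) := Nat.prime_iff_prime_int.1 (hP l hl).1
    obtain ⟨l', hl', h2⟩ := (Prime.dvd_finsetProd_iff hp _).1 hd
    have h3 : l ∣ l' := by exact_mod_cast hp.dvd_of_dvd_pow h2
    have h4 := Finset.mem_erase.1 hl'
    exact h4.1 ((Nat.prime_dvd_prime_iff_eq (hP l hl).1 (hP l' h4.2).1).1 h3).symm
  have hy : ∀ x ∈ S, ∀ l ∈ P, y x₁ l + u l * ((x - x₁) / Q) = y x l := by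
    intro x hx l hl
    have e1 := ((hS x hx).2.2.2.2.2 l hl).1
    have e2 := ((hS x₁ hx₁S).2.2.2.2.2 l hl).1
    have e3 := hback x hx
    have e4 : ((l : ℤ) ^ e l) ≠ 0 := pow_ne_zero _ (by exact_mod_cast (hP l hl).1.ne_zero)
    refine mul_left_cancel₀ e4 ?_
    have e5 := hQu l hl
    generalize (x - x₁) / Q = z at e3 ⊢
    linear_combination e3 + e1 - e2 - z * e5
  have key := h0 P (fun l j z => Ω l j (y x₁ l + u l * z)) f a 0 N'
    (S.image fun x => (x - x₁) / Q) (fun l z => k (x₁ + Q * z) l)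
    (fun l hl => ⟨(hP l hl).1, (hP l hl).2.affine (hP l hl).1 _ (hlu l hl)⟩) ?_
  · rw [Finset.sum_image (fun x hx x' hx' h => by
      have e1 := hback x hx
      have e2 := hback x' hx'
      rw [h] at e1
      exact e1.symm.trans e2)] at key
    have e6 : ∑ x ∈ S, ∏ l ∈ P, f l (k x l) =
        ∑ x ∈ S, ∏ l ∈ P, f l (k (x₁ + Q * ((x - x₁) / Q)) l) :=
      Finset.sum_congr rfl fun x hx => by rw [hback x hx]
    rw [e6]
    refine key.trans ?_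
    have e7 := h1 P a N N' (fun l hl => ⟨(hP l hl).1, (hP l hl).2.neg_two_le⟩) n1 n2
    have e8 : ∏ l ∈ P, 1 / (l : ℝ) ^ e l = 1 / (Q : ℝ) := by
      rw [hQ, Finset.prod_div_distrib, Finset.prod_const_one]
      push_cast
      rfl
    have hQr : (0 : ℝ) < Q := by exact_mod_cast hQ0
    have e9 : (N' : ℝ) ≤ 2 * N * (1 / (Q : ℝ)) := by
      rw [mul_one_div, le_div_iff₀ hQr]
      exact_mod_cast n3
    rw [e8]
    calc C0 * N' * Real.exp (∑ l ∈ P.filter (fun l => l ≤ N'), a l / l)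
        ≤ C0 * (2 * N * (1 / (Q : ℝ))) *
          (C1 * Real.exp (∑ l ∈ P.filter (fun l => l ≤ N), a l / l)) := by gcongr
      _ = _ := by ring
  · intro z hz
    obtain ⟨x, hx, rfl⟩ := Finset.mem_image.1 hz
    obtain ⟨a1, a2, a3, a4, -, a6⟩ := hS x hx
    have b1 : x₁ ≤ x := S.min'_le x hx
    have b2 := (hS x₁ hx₁S).1
    refine ⟨Int.ediv_nonneg (by linarith) hQz.le, ?_, fun l hl => ?_, ?_⟩
    · rw [zero_add, Int.ediv_lt_iff_lt_mul hQz]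
      have b3 : N - 1 < N' * Q := by
        have := Nat.lt_div_mul_add (a := N - 1) hQ0
        rw [hN']
        nlinarith
      have b4 : (N : ℤ) ≤ (N' : ℤ) * Q := by
        have : N ≤ N' * Q := by omega
        exact_mod_cast this
      linarith
    · have := (a6 l hl).2.1
      rw [hback x hx]
      unfold At at this ⊢
      simp only [hy x hx l hl]
      exact this
    · rw [hback x hx]
      have b5 := tsh2_dvd P (fun l hl => (hP l hl).1) (k x) (B x) fun l hl => (a6 l hl).2.2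
      have b6 : ∏ l ∈ P, l ^ k x l ≤ (B x).natAbs :=
        Nat.le_of_dvd (Int.natAbs_pos.2 a3) (Int.natCast_dvd.1 b5)
      refine b6.trans (a4.trans ?_)
      rw [pow_mul]
      exact Nat.pow_le_pow_left n2 _

theorem shiu_types (K : ℝ) (A : ℕ) : ∃ C : ℝ, 0 < C ∧ ∀ (P : Finset ℕ) (x₀ : ℤ) (N : ℕ)
    (S : Finset ℤ) (B : ℤ → ℤ) (w : ℕ → ℤ → ℝ) (mu : ℕ → ℤ → ℕ) (M a : ℕ → ℝ),
    (∀ l ∈ P, l.Prime ∧ LS K l S B (w l) (mu l) (M l) (a l)) →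
    (∀ x ∈ S, x₀ ≤ x ∧ x < x₀ + N ∧ (∀ l ∈ P, 0 ≤ w l x) ∧ B x ≠ 0 ∧ (B x).natAbs ≤ N ^ A ∧
      (∏ l ∈ P, l ^ mu l x) ^ 2 ≤ N) →
    ∑ x ∈ S, ∏ l ∈ P, w l x ≤
      C * N * (∏ l ∈ P, M l) * Real.exp (∑ l ∈ P.filter (fun l => l ≤ N), a l / l) := by
  classical
  obtain ⟨C, hC, h0⟩ := tsh2_one K A
  refine ⟨C, hC, fun P x₀ N S B w mu M a hP hS => ?_⟩
  have hP' : ∀ l ∈ P, LS K l S B (w l) (mu l) (M l) (a l) := fun l hl => (hP l hl).2
  unfold LS at hP'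
  choose! T π Ω f h1 h2 h3 using hP'
  set S₁ := S.filter (fun x => ∏ l ∈ P, w l x ≠ 0) with hS₁
  have hch : ∀ x ∈ S₁, ∀ l ∈ P, ∃ t ∈ T l, ∃ (y : ℤ) (k : ℕ), t.1 ≤ mu l x ∧
      x = t.2.1 + (l : ℤ) ^ t.1 * y ∧ At (Ω l t) y k ∧ (l : ℤ) ^ k ∣ B x ∧
      w l x ≤ π l t * f l t k := by
    intro x hx l hl
    obtain ⟨hxS, hx0⟩ := Finset.mem_filter.1 hx
    rcases h3 l hl x hxS with h | h
    · exact absurd (Finset.prod_eq_zero hl (le_antisymm h ((hS x hxS).2.2.1 l hl))) hx0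
    · exact h
  choose! t ht y k c1 c2 c3 c4 c5 using hch
  set E := Real.exp (∑ l ∈ P.filter (fun l => l ≤ N), a l / l) with hE
  have hE0 : 0 < E := Real.exp_pos _
  have s1 : ∑ x ∈ S, ∏ l ∈ P, w l x = ∑ x ∈ S₁, ∏ l ∈ P, w l x :=
    (Finset.sum_filter_ne_zero S).symm
  have hmap : ∀ x ∈ S₁, (fun l (_ : l ∈ P) => t x l) ∈ P.pi T := fun x hx =>
    Finset.mem_pi.2 fun l hl => ht x hx l hl
  rw [s1, ← Finset.sum_fiberwise_of_maps_to hmap]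
  have s2 : ∀ p ∈ P.pi T, ∑ x ∈ S₁ with (fun l (_ : l ∈ P) => t x l) = p, ∏ l ∈ P, w l x ≤
      C * N * E * ∏ l ∈ P.attach, π l.1 (p l.1 l.2) / (l.1 : ℝ) ^ (p l.1 l.2).1 := by
    intro p hp
    set τ : ℕ → ℕ × ℤ × ℕ := fun l => if h : l ∈ P then p l h else (0, 0, 0) with hτ
    have hτ1 : ∀ l (hl : l ∈ P), τ l = p l hl := fun l hl => by simp only [hτ, dif_pos hl]
    have hτT : ∀ l ∈ P, τ l ∈ T l := fun l hl => by
      rw [hτ1 l hl]
      exact Finset.mem_pi.1 hp l hl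
    have hτ2 : ∀ x ∈ S₁.filter (fun x => (fun l (_ : l ∈ P) => t x l) = p), ∀ l ∈ P,
        t x l = τ l := by
      intro x hx l hl
      rw [hτ1 l hl, ← (Finset.mem_filter.1 hx).2]
    have key := h0 P x₀ N (S₁.filter (fun x => (fun l (_ : l ∈ P) => t x l) = p)) B
      (fun l => (τ l).1) (fun l => (τ l).2.1) (fun l => Ω l (τ l)) (fun l => f l (τ l)) a y k
      (fun l hl => ⟨(hP l hl).1, (h1 l hl _ (hτT l hl)).2⟩) ?_
    · have s3 : ∏ l ∈ P.attach, π l.1 (p l.1 l.2) / (l.1 : ℝ) ^ (p l.1 l.2).1 =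
          (∏ l ∈ P, π l (τ l)) * ∏ l ∈ P, 1 / (l : ℝ) ^ (τ l).1 := by
        rw [← Finset.prod_mul_distrib,
          ← Finset.prod_attach P (fun l => π l (τ l) * (1 / (l : ℝ) ^ (τ l).1))]
        refine Finset.prod_congr rfl fun l _ => ?_
        rw [hτ1 l.1 l.2, mul_one_div]
      have s4 : 0 ≤ ∏ l ∈ P, π l (τ l) :=
        Finset.prod_nonneg fun l hl => (h1 l hl _ (hτT l hl)).1
      calc ∑ x ∈ S₁ with (fun l (_ : l ∈ P) => t x l) = p, ∏ l ∈ P, w l x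
          ≤ ∑ x ∈ S₁ with (fun l (_ : l ∈ P) => t x l) = p,
            (∏ l ∈ P, π l (τ l)) * ∏ l ∈ P, f l (τ l) (k x l) := by
            refine Finset.sum_le_sum fun x hx => ?_
            have hx1 := (Finset.mem_filter.1 hx).1
            rw [← Finset.prod_mul_distrib]
            refine Finset.prod_le_prod (fun l hl => (hS x (Finset.mem_filter.1 hx1).1).2.2.1 l hl)
              fun l hl => ?_
            rw [← hτ2 x hx l hl]
            exact c5 x hx1 l hl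
        _ ≤ (∏ l ∈ P, π l (τ l)) * (C * N * (∏ l ∈ P, 1 / (l : ℝ) ^ (τ l).1) * E) := by
            rw [← Finset.mul_sum]
            exact mul_le_mul_of_nonneg_left key s4
        _ = _ := by rw [s3]; ring
    · intro x hx
      have hx1 := (Finset.mem_filter.1 hx).1
      obtain ⟨a1, a2, -, a4, a5, a6⟩ := hS x (Finset.mem_filter.1 hx1).1
      refine ⟨a1, a2, a4, a5, le_trans (Nat.pow_le_pow_left ?_ 2) a6, fun l hl => ?_⟩
      · refine Finset.prod_le_prod' fun l hl => Nat.pow_le_pow_right (hP l hl).1.pos ?_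
        rw [← hτ2 x hx l hl]
        exact c1 x hx1 l hl
      · simp only [← hτ2 x hx l hl]
        exact ⟨c2 x hx1 l hl, c3 x hx1 l hl, c4 x hx1 l hl⟩
  refine (Finset.sum_le_sum s2).trans ?_
  rw [← Finset.mul_sum, ← Finset.prod_sum P T (fun l s => π l s / (l : ℝ) ^ s.1)]
  have s5 : ∏ l ∈ P, ∑ s ∈ T l, π l s / (l : ℝ) ^ s.1 ≤ ∏ l ∈ P, M l :=
    Finset.prod_le_prod (fun l hl => Finset.sum_nonneg fun s hs =>
      div_nonneg (h1 l hl s hs).1 (by positivity)) h2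
  calc C * N * E * ∏ l ∈ P, ∑ s ∈ T l, π l s / (l : ℝ) ^ s.1
      ≤ C * N * E * ∏ l ∈ P, M l := mul_le_mul_of_nonneg_left s5 (by positivity)
    _ = _ := by ring

end Pool.Agent.EQ
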