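import Pool.Agent.P.MP_ad7a55_nt.TSb
import Pool.Agent.P.MP_ad7a55_nt.TCr
import Pool.Agent.P.MP_ad7a55_nt.TSh2
import Pool.Agent.P.MP_ad7a55_nt.TAvA

/-! The sum over one row. -/

set_option autoImplicit false

noncomputable section

open Finset Matrix

namespace Pool.Agent.EQ

namespace Dt

theorem trow_M {K M a : ℝ} {l : ℕ} {S : Set ℤ} {B : ℤ → ℤ} {w : ℤ → ℝ} {mu : ℤ → ℕ}
    (h : LS K l S B w mu M a) : 0 ≤ M := by
  obtain ⟨T, π, Ω, f, h1, h2, -⟩ := h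
  exact (sum_nonneg fun t ht => div_nonneg (h1 t ht).1 (by positivity)).trans h2

theorem trow_ite (Q R : Finset ℕ) {g : ℕ → ℝ} (hg : ∀ l, 0 ≤ g l) :
    ∑ l ∈ Q, (if l ∈ R then g l else 0) ≤ ∑ l ∈ R, g l := by
  rw [sum_ite_mem]
  exact sum_le_sum_of_subset_of_nonneg inter_subset_right fun l _ _ => hg l

theorem trow_W {d : Dt} {κ : ℕ} (h : d.Good κ) {l : ℕ} (hl : l.Prime)
    (h1 : (l : ℤ) ∣ 2 * d.n * d.p) : l ∈ (2 * d.n * d.p).natAbs.primeFactors := by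
  refine Nat.mem_primeFactors.2 ⟨hl, Int.natCast_dvd.1 h1, Int.natAbs_ne_zero.2 ?_⟩
  exact mul_ne_zero (mul_ne_zero two_ne_zero h.n_ne) (Int.natCast_ne_zero.2 h.prime.ne_zero)

theorem trow_ms {d : Dt} {κ : ℕ} (h : d.Good κ) {K : ℝ} (hK : 1 ≤ K) (Y : ℤ) (Q R : Finset ℕ)
    (hQ : ∀ l ∈ Q, l.Prime) (hR : ∀ l ∈ Q, (l : ℤ) ∣ d.Δ₁ Y → l ∈ R) :
    ∏ l ∈ Q, d.ms K l Y ≤ Real.exp (K * (2 * d.n * d.p).natAbs.primeFactors.card +
      K * ∑ l ∈ R, 1 / (l : ℝ)) := by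
  have hK0 : 0 ≤ K := by linarith
  calc ∏ l ∈ Q, d.ms K l Y ≤ ∏ l ∈ Q, Real.exp
        ((if l ∈ (2 * d.n * d.p).natAbs.primeFactors then K else 0) +
          if l ∈ R then K * (1 / (l : ℝ)) else 0) := by
        refine prod_le_prod (fun l _ => ?_) fun l hl => ?_
        · unfold ms
          split_ifs <;> positivity
        · refine le_trans ?_ (Real.add_one_le_exp _)
          have h1 : 0 ≤ (if l ∈ R then K * (1 / (l : ℝ)) else 0) := by split_ifs <;> positivity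
          have h2 : 0 ≤ (if l ∈ (2 * d.n * d.p).natAbs.primeFactors then K else 0) := by
            split_ifs <;> positivity
          unfold ms
          split_ifs with h3 h4
          all_goals first
            | exact absurd (trow_W h (hQ l hl) h3) (by assumption)
            | exact absurd (hR l hl (by assumption)) (by assumption)
            | (have h5 : K * (1 / (l : ℝ)) = K / l := by ring
               have h6 : 0 ≤ K / l := by positivity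
               linarith)
    _ ≤ _ := by
        rw [← Real.exp_sum, sum_add_distrib, mul_sum]
        refine Real.exp_le_exp.2 (add_le_add ?_ (trow_ite _ _ fun l => by positivity))
        refine (trow_ite _ _ (g := fun _ => K) fun _ => hK0).trans ?_
        rw [sum_const, nsmul_eq_mul, mul_comm]

theorem trow_PP {d : Dt} {H N : ℕ} (hs : d.Sz H N)
    (hN : 2 * d.n.natAbs * d.p ≤ N) {X Y : ℤ} (hb : d.Box H N X Y) :
    (d.B X Y).natAbs ≤ N ^ 6 ∧ d.PP X Y ⊆ Nat.primesLE (N ^ 7) := by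
  have h1 : (d.B X Y).natAbs ≤ N ^ 6 := by
    have h2 : ((d.B X Y).natAbs : ℤ) ≤ ((H * N) ^ 2 : ℕ) := by
      rw [Int.natCast_natAbs]
      exact_mod_cast hb.le
    have h3 : (d.B X Y).natAbs ≤ (H * N) ^ 2 := by exact_mod_cast h2
    calc _ ≤ (H * N) ^ 2 := h3
      _ ≤ (N ^ 2 * N) ^ 2 := Nat.pow_le_pow_left (Nat.mul_le_mul_right _ hs.le) 2
      _ = _ := by ring
  refine ⟨h1, fun l hl => Nat.mem_primesLE.2 ⟨?_, Nat.prime_of_mem_primeFactors hl⟩⟩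
  refine (Nat.le_of_mem_primeFactors hl).trans ?_
  rw [Int.natAbs_mul, Int.natAbs_mul, Int.natAbs_mul, Int.natAbs_natCast]
  calc _ ≤ N * N ^ 6 := Nat.mul_le_mul hN h1
    _ = _ := by ring

open Classical in
/-- Shiu's bound on one row. -/
theorem trow_shiu (n : ℤ) (p κ : ℕ) : ∃ (K C : ℝ), 1 ≤ K ∧ 0 < C ∧
    ∀ d : Dt, d.Good κ → d.n = n → d.p = p → ∀ H N : ℕ, d.Sz H N → 2 * n.natAbs * p + 2 ≤ N →
    ∀ (S : Finset ℕ) (k : ℕ → ℕ) (w : ℕ → ℤ → ℤ → ℝ) (M : ℕ → ℝ) (Y : ℤ) (T : Finset ℤ),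
    (∀ l ∈ S, ¬ d.Dom l) → (∏ l ∈ S, l ^ k l) ^ 8 ≤ N →
    (∀ l ∈ S, LS 1 l T (fun X => d.B X Y) (fun X => w l X Y) (fun X => 2 * d.ie l X Y + k l)
      (M l) 2) →
    (∀ X ∈ T, d.Box H N X Y ∧ S ⊆ d.PP X Y ∧ (∀ l ∈ S, 0 ≤ w l X Y) ∧ d.JJ X Y ^ 32 ≤ N) →
    d.QQ Y ^ 4 ≤ N →
    ∑ X ∈ T, d.WS S w X Y ≤ C * N * (∏ l ∈ S, M l) *
      ((∏ l ∈ Nat.primesLE (N ^ 7) \ S, d.ms K l Y) *
        Real.exp (∑ l ∈ Nat.primesLE (N + 1), (if l ∈ S then 2 else d.aa K l Y) / l)) := by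
  obtain ⟨K, hK, hstd⟩ := ls_std n p κ
  obtain ⟨C, hC, hsh⟩ := shiu_types K 6
  refine ⟨K, 2 * C, hK, by positivity, ?_⟩
  intro d hd hn hp H N hs hN S k w M Y T hD hk hLS hT hQ
  have hms : ∀ l, 0 ≤ d.ms K l Y := fun l => by
    have hK0 : 0 ≤ K := by linarith
    unfold ms
    split_ifs <;> positivity
  have hM0 : 0 ≤ ∏ l ∈ S, M l := prod_nonneg fun l hl => trow_M (hLS l hl)
  have hm0 : 0 ≤ ∏ l ∈ Nat.primesLE (N ^ 7) \ S, d.ms K l Y := prod_nonneg fun l _ => hms l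
  rcases T.eq_empty_or_nonempty with rfl | ⟨X₀, hX₀⟩
  · rw [sum_empty]
    positivity
  have hN' : 2 * d.n.natAbs * d.p ≤ N := by rw [hn, hp]; omega
  set P := Nat.primesLE (N ^ 7) with hP
  have hPp : ∀ l ∈ P, l.Prime := fun l hl => Nat.prime_of_mem_primesLE hl
  have hSP : S ⊆ P := (hT X₀ hX₀).2.1.trans (trow_PP hs hN' (hT X₀ hX₀).1).2
  obtain ⟨x₀, hx₀⟩ := Box.ico hd.a_pos N Y
  have key := hsh P x₀ (N + 1) T (fun X => d.B X Y)
    (fun l X => if l ∈ S then w l X Y else d.Wt l X Y)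
    (fun l X => if l ∈ S then 2 * d.ie l X Y + k l else if d.Dom l then 0 else d.mu l X Y)
    (fun l => if l ∈ S then M l else d.ms K l Y) (fun l => if l ∈ S then 2 else d.aa K l Y)
    (fun l hl => ⟨hPp l hl, by
      by_cases h1 : l ∈ S
      · simp only [if_pos h1]
        exact (hLS l h1).mono hK (fun _ h => h) (fun _ _ => le_rfl) (fun _ _ => le_rfl) le_rfl le_rfl
      · simp only [if_neg h1]
        exact (hstd d hd hn hp l (hPp l hl) Y).mono le_rfl (fun X hX => (hT X hX).1.ne)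
          (fun _ _ => le_rfl) (fun _ _ => le_rfl) le_rfl le_rfl⟩)
    (fun X hX => by
      obtain ⟨hb, -, hw, hJ⟩ := hT X hX
      refine ⟨(hx₀ H X hb).1, (hx₀ H X hb).2, fun l _ => ?_, hb.ne,
        (trow_PP hs hN' hb).1.trans (Nat.pow_le_pow_left (Nat.le_succ N) 6), ?_⟩
      · split_ifs with h1
        · exact hw l h1
        · exact Wt_nonneg l X Y
      · have h1 : ∏ l ∈ P, l ^ (if l ∈ S then 2 * d.ie l X Y + k l
              else if d.Dom l then 0 else d.mu l X Y) ≤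
            ∏ l ∈ P, l ^ (if d.Dom l then 0 else d.mu l X Y) * (if l ∈ S then l ^ k l else 1) := by
          refine prod_le_prod' fun l hl => ?_
          by_cases h2 : l ∈ S
          · rw [if_pos h2, if_pos h2, if_neg (hD l h2), ← pow_add]
            refine Nat.pow_le_pow_right (hPp l hl).pos ?_
            unfold mu
            omega
          · rw [if_neg h2, if_neg h2, mul_one]
        rw [prod_mul_distrib, prod_ite_mem, inter_eq_right.2 hSP] at h1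
        have h2 := h1.trans (Nat.mul_le_mul_right _ (mod_le hd X Y P hPp))
        refine (Nat.pow_le_pow_left h2 2).trans (Nat.le_succ_of_le ?_)
        refine (Nat.pow_le_pow_iff_left (n := 8) (by norm_num)).1 ?_
        calc ((d.JJ X Y ^ 2 * d.QQ Y * ∏ l ∈ S, l ^ k l) ^ 2) ^ 8
            = d.JJ X Y ^ 32 * (d.QQ Y ^ 4) ^ 4 * ((∏ l ∈ S, l ^ k l) ^ 8) ^ 2 := by ring
          _ ≤ N * N ^ 4 * N ^ 2 := by gcongr
          _ = N ^ 7 := by ring
          _ ≤ N ^ 8 := Nat.pow_le_pow_right (by omega) (by norm_num))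
  have e1 : ∀ X ∈ T, d.WS S w X Y = ∏ l ∈ P, if l ∈ S then w l X Y else d.Wt l X Y := by
    intro X hX
    obtain ⟨hb, hS, -, -⟩ := hT X hX
    rw [← prod_sdiff hSP, WS, mul_comm]
    congr 1
    · rw [prod_congr rfl fun l hl => if_neg (mem_sdiff.1 hl).2]
      refine prod_subset (sdiff_subset_sdiff (trow_PP hs hN' hb).2 Subset.rfl) fun l hl hl' => ?_
      exact Wt_eq_one hd (hPp l (mem_sdiff.1 hl).1) hb.ne
        fun h1 => hl' (mem_sdiff.2 ⟨h1, (mem_sdiff.1 hl).2⟩)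
    · exact prod_congr rfl fun l hl => (if_pos hl).symm
  have e2 : ∏ l ∈ P, (if l ∈ S then M l else d.ms K l Y) =
      (∏ l ∈ S, M l) * ∏ l ∈ P \ S, d.ms K l Y := by
    rw [← prod_sdiff hSP, mul_comm, prod_congr rfl fun l hl => if_pos hl,
      prod_congr rfl fun l hl => if_neg (mem_sdiff.1 hl).2]
  have e3 : P.filter (fun l => l ≤ N + 1) = Nat.primesLE (N + 1) := by
    have h1 : N + 1 ≤ N ^ 7 := by
      have h2 : 2 ≤ N := by omega
      calc N + 1 ≤ N ^ 2 := by nlinarith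
        _ ≤ N ^ 7 := Nat.pow_le_pow_right (by omega) (by norm_num)
    ext l
    simp only [hP, mem_filter, Nat.mem_primesLE]
    exact ⟨fun h => ⟨h.2, h.1.2⟩, fun h => ⟨⟨h.1.trans h1, h.2⟩, h.1⟩⟩
  rw [sum_congr rfl e1]
  rw [e2, e3] at key
  refine key.trans ?_
  have h1 : ((N + 1 : ℕ) : ℝ) ≤ 2 * N := by
    have : N + 1 ≤ 2 * N := by omega
    exact_mod_cast this
  calc _ ≤ C * (2 * N) * ((∏ l ∈ S, M l) * ∏ l ∈ P \ S, d.ms K l Y) *
        Real.exp (∑ l ∈ Nat.primesLE (N + 1), (if l ∈ S then 2 else d.aa K l Y) / l) := by gcongr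
    _ = _ := by ring

theorem trow_jac (a : ℤ) (l : ℕ) : -1 ≤ (jacobiSym a l : ℝ) ∧ (jacobiSym a l : ℝ) ≤ 1 :=
  abs_le.1 (tava_abs_jac a l)

theorem trow_aa_le (d : Dt) {K : ℝ} (hK : 1 ≤ K) (l : ℕ) (Y : ℤ) : d.aa K l Y ≤ K + 2 := by
  have h1 := trow_jac (d.G ^ 2 * d.E) l
  have h2 := trow_jac (d.Δ₁ Y) l
  unfold aa
  split_ifs <;> first | linarith | (rw [Int.cast_zero]; linarith)

/-- The exponent in the nondegenerate case. -/
theorem trow_exp {d : Dt} {κ : ℕ} (h : d.Good κ) {K : ℝ} (hK : 1 ≤ K) {Y : ℤ} (hY : d.Δ₁ Y ≠ 0)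
    (S : Finset ℕ) (N : ℕ) :
    ∑ l ∈ Nat.primesLE (N + 1), (if l ∈ S then 2 else d.aa K l Y) / l ≤
      ∑ l ∈ Nat.primesLE N, (jacobiSym (d.G ^ 2 * d.E) l : ℝ) / l +
      ∑ l ∈ (Nat.primesLE N).filter (fun l : ℕ => ¬ (l : ℤ) ∣ d.m * d.a),
        (jacobiSym (d.Δ₁ Y) l : ℝ) / l + 2 + 4 * S.card +
      (K + 2) * (2 * d.n * d.p).natAbs.primeFactors.card +
      K * ∑ l ∈ (d.Δ₁ Y).natAbs.primeFactors, 1 / (l : ℝ) := by
  have hK0 : 0 ≤ K := by linarith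
  set g : ℕ → ℝ := fun l => (jacobiSym (d.G ^ 2 * d.E) l : ℝ) +
    (if (l : ℤ) ∣ d.m * d.a then 0 else (jacobiSym (d.Δ₁ Y) l : ℝ)) with hg
  have hg2 : ∀ l, -2 ≤ g l ∧ g l ≤ 2 := fun l => by
    have h1 := trow_jac (d.G ^ 2 * d.E) l
    have h2 := trow_jac (d.Δ₁ Y) l
    simp only [hg]
    split_ifs <;> constructor <;> linarith
  have h1 : ∀ l ∈ Nat.primesLE (N + 1), (if l ∈ S then 2 else d.aa K l Y) / l ≤
      g l / l + (if l ∈ S then 4 else 0) +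
      (if l ∈ (2 * d.n * d.p).natAbs.primeFactors then K + 2 else 0) +
      (if l ∈ (d.Δ₁ Y).natAbs.primeFactors then K * (1 / (l : ℝ)) else 0) := by
    intro l hl
    have hlp := Nat.prime_of_mem_primesLE hl
    have hl1 : (1 : ℝ) ≤ l := by exact_mod_cast hlp.one_le
    have hdiv : ∀ u v : ℝ, 0 ≤ v → u ≤ g l + v → u / l ≤ g l / l + v := fun u v hv huv => by
      have h2 : u / l ≤ (g l + v) / l := div_le_div_of_nonneg_right huv (by linarith)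
      have h3 : v / l ≤ v := div_le_self hv hl1
      rw [add_div] at h2
      linarith
    have a1 : (0 : ℝ) ≤ if l ∈ S then 4 else 0 := by split_ifs <;> norm_num
    have a2 : 0 ≤ (if l ∈ (2 * d.n * d.p).natAbs.primeFactors then K + 2 else 0) := by
      split_ifs <;> positivity
    have a3 : 0 ≤ (if l ∈ (d.Δ₁ Y).natAbs.primeFactors then K * (1 / (l : ℝ)) else 0) := by
      split_ifs <;> positivity
    by_cases h2 : l ∈ S
    · rw [if_pos h2, if_pos h2]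
      linarith [hdiv 2 4 (by norm_num) (by linarith [(hg2 l).1])]
    rw [if_neg h2]
    by_cases h3 : (l : ℤ) ∣ 2 * d.n * d.p
    · rw [aa, if_pos h3, if_pos (trow_W h hlp h3)]
      linarith [hdiv K (K + 2) (by linarith) (by linarith [(hg2 l).1])]
    have h4 : d.aa K l Y = g l + if (l : ℤ) ∣ d.Δ₁ Y then K else 0 := by
      rw [aa, if_neg h3]
      simp only [hg]
      split_ifs <;> simp
    rw [h4, add_div]
    by_cases h5 : (l : ℤ) ∣ d.Δ₁ Y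
    · have h6 : l ∈ (d.Δ₁ Y).natAbs.primeFactors :=
        Nat.mem_primeFactors.2 ⟨hlp, Int.natCast_dvd.1 h5, Int.natAbs_ne_zero.2 hY⟩
      rw [if_pos h5, if_pos h6, mul_one_div]
      linarith
    · rw [if_neg h5, zero_div]
      linarith
  refine (sum_le_sum h1).trans ?_
  rw [sum_add_distrib, sum_add_distrib, sum_add_distrib]
  have b1 := trow_ite (Nat.primesLE (N + 1)) S (g := fun _ => (4 : ℝ)) fun _ => by norm_num
  have b2 := trow_ite (Nat.primesLE (N + 1)) (2 * d.n * d.p).natAbs.primeFactors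
    (g := fun _ => K + 2) fun _ => by positivity
  have b3 := trow_ite (Nat.primesLE (N + 1)) (d.Δ₁ Y).natAbs.primeFactors
    (g := fun l => K * (1 / (l : ℝ))) fun _ => by positivity
  rw [sum_const, nsmul_eq_mul] at b1 b2
  rw [← mul_sum] at b3
  have b4 : ∑ l ∈ Nat.primesLE (N + 1), g l / l ≤ ∑ l ∈ Nat.primesLE N, g l / l + 2 := by
    rw [Nat.primesLE_succ]
    split_ifs
    · rw [sum_insert (Nat.notMem_primesLE N)]
      have h2 : (1 : ℝ) ≤ ((N + 1 : ℕ) : ℝ) := by exact_mod_cast Nat.le_add_left 1 N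
      have h3 : g (N + 1) / ((N + 1 : ℕ) : ℝ) ≤ 2 := by
        rw [div_le_iff₀ (by linarith)]
        linarith [(hg2 (N + 1)).2]
      linarith
    · linarith
  have b5 : ∑ l ∈ Nat.primesLE N, g l / l =
      ∑ l ∈ Nat.primesLE N, (jacobiSym (d.G ^ 2 * d.E) l : ℝ) / l +
      ∑ l ∈ (Nat.primesLE N).filter (fun l : ℕ => ¬ (l : ℤ) ∣ d.m * d.a),
        (jacobiSym (d.Δ₁ Y) l : ℝ) / l := by
    rw [sum_filter, ← sum_add_distrib]
    refine sum_congr rfl fun l _ => ?_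
    simp only [hg]
    split_ifs <;> ring
  linarith

theorem cnt_row (n : ℤ) (p κ : ℕ) : ∃ (K C : ℝ) (A N₀ : ℕ), 0 ≤ K ∧ 0 < C ∧
    ∀ d : Dt, d.Good κ → d.n = n → d.p = p → ∀ H N : ℕ, d.Sz H N → N₀ ≤ N →
    ∀ (S : Finset ℕ) (k : ℕ → ℕ) (w : ℕ → ℤ → ℤ → ℝ) (M : ℕ → ℝ) (Y : ℤ) (T : Finset ℤ),
    (∀ l ∈ S, ¬ d.Dom l) → (∏ l ∈ S, l ^ k l) ^ 8 ≤ N →
    (∀ l ∈ S, LS 1 l T (fun X => d.B X Y) (fun X => w l X Y) (fun X => 2 * d.ie l X Y + k l)
      (M l) 2) →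
    (∀ X ∈ T, d.Box H N X Y ∧ S ⊆ d.PP X Y ∧ (∀ l ∈ S, 0 ≤ w l X Y) ∧ d.JJ X Y ^ 32 ≤ N) →
    d.QQ Y ^ 4 ≤ N →
    ∑ X ∈ T, d.WS S w X Y ≤ C * N * (∏ l ∈ S, C * M l) * Real.log N ^ A ∧
    (d.Δ₁ Y ≠ 0 → ∑ X ∈ T, d.WS S w X Y ≤ C * N * (∏ l ∈ S, C * M l) *
      (EE (d.G ^ 2 * d.E) (d.G ^ 2 * d.E).natAbs * Ph K (d.m * d.a) N Y)) := by
  obtain ⟨K, C, hK, hC, h⟩ := trow_shiu n p κ
  obtain ⟨C₁, hC₁, h₁⟩ := exp_primes_le (2 * (⌈K⌉₊ + 2))
  obtain ⟨C₂, hC₂, h₂⟩ := EE_comp 8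
  set ω : ℝ := ((2 * n * p : ℤ).natAbs.primeFactors.card : ℝ) with hω
  set A : ℕ := 2 * (⌈K⌉₊ + 2) with hA
  set D₁ : ℝ := C * (Real.exp (K * ω) * (C₁ * 7 ^ A)) with hD₁
  set D₂ : ℝ := C * (Real.exp (K * ω + 2 + (K + 2) * ω) * C₂) with hD₂
  have hD₁0 : 0 < D₁ := by positivity
  have hD₂0 : 0 < D₂ := by positivity
  have he4 : 1 ≤ Real.exp 4 := Real.one_le_exp (by norm_num)
  refine ⟨2 * K, Real.exp 4 + D₁ + D₂, A, 2 * n.natAbs * p + 2, by linarith, by positivity, ?_⟩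
  intro d hd hn hp H N hs hN S k w M Y T hD hk hLS hT hQ
  have key := h d hd hn hp H N hs hN S k w M Y T hD hk hLS hT hQ
  have hM : ∀ l ∈ S, 0 ≤ M l := fun l hl => trow_M (hLS l hl)
  have hM0 : 0 ≤ ∏ l ∈ S, M l := prod_nonneg hM
  have hPp : ∀ l ∈ Nat.primesLE (N ^ 7) \ S, l.Prime :=
    fun l hl => Nat.prime_of_mem_primesLE (mem_sdiff.1 hl).1
  have hN2 : 2 ≤ N := by omega
  have hK0 : 0 ≤ K := by linarith
  have hM4 : Real.exp (4 * S.card) * ∏ l ∈ S, M l ≤ ∏ l ∈ S, (Real.exp 4 + D₁ + D₂) * M l := by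
    rw [mul_comm 4, Real.exp_nat_mul, ← prod_const, ← prod_mul_distrib]
    exact prod_le_prod (fun l hl => mul_nonneg (by positivity) (hM l hl))
      fun l hl => mul_le_mul_of_nonneg_right (by linarith) (hM l hl)
  have hM1 : ∏ l ∈ S, M l ≤ ∏ l ∈ S, (Real.exp 4 + D₁ + D₂) * M l :=
    le_trans (le_mul_of_one_le_left hM0 (Real.one_le_exp (by positivity))) hM4
  have hM2 : 0 ≤ ∏ l ∈ S, (Real.exp 4 + D₁ + D₂) * M l := hM0.trans hM1
  refine ⟨key.trans ?_, fun hY => key.trans ?_⟩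
  · have h3 := trow_ms hd hK Y _ (Nat.primesLE (N ^ 7)) hPp fun l hl _ => (mem_sdiff.1 hl).1
    rw [hn, hp, ← hω] at h3
    have h4 : N + 1 ≤ N ^ 7 := by
      calc N + 1 ≤ N ^ 2 := by nlinarith
        _ ≤ N ^ 7 := Nat.pow_le_pow_right (by omega) (by norm_num)
    have h5 : ∑ l ∈ Nat.primesLE (N + 1), (if l ∈ S then 2 else d.aa K l Y) / l ≤
        (K + 2) * ∑ l ∈ Nat.primesLE (N ^ 7), 1 / (l : ℝ) := by
      rw [mul_sum]
      refine le_trans (sum_le_sum fun l _ => ?_) (sum_le_sum_of_subset_of_nonneg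
        (Nat.primesLE_mono h4) fun _ _ _ => by positivity)
      rw [mul_one_div]
      refine div_le_div_of_nonneg_right ?_ (by positivity)
      split_ifs
      · linarith
      · exact trow_aa_le d hK l Y
    have h6 := h₁ (N ^ 7) (by omega)
    have h7 : 0 ≤ ∑ l ∈ Nat.primesLE (N ^ 7), 1 / (l : ℝ) := sum_nonneg fun _ _ => by positivity
    have h8 : K + (K + 2) ≤ (A : ℝ) := by
      have := Nat.le_ceil K
      rw [hA]
      push_cast
      linarith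
    rw [Nat.cast_pow, Real.log_pow, mul_pow] at h6
    have h9 : (∏ l ∈ Nat.primesLE (N ^ 7) \ S, d.ms K l Y) *
        Real.exp (∑ l ∈ Nat.primesLE (N + 1), (if l ∈ S then 2 else d.aa K l Y) / l) ≤
        Real.exp (K * ω) * (C₁ * (7 ^ A * Real.log N ^ A)) := by
      refine (mul_le_mul_of_nonneg_right h3 (by positivity)).trans ?_
      refine le_trans ?_ (mul_le_mul_of_nonneg_left (by exact_mod_cast h6) (by positivity))
      rw [← Real.exp_add, ← Real.exp_add]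
      refine Real.exp_le_exp.2 ?_
      nlinarith [mul_le_mul_of_nonneg_right h8 h7]
    have hl : 0 ≤ Real.log N ^ A := pow_nonneg (Real.log_natCast_nonneg N) A
    calc _ ≤ C * N * (∏ l ∈ S, M l) * (Real.exp (K * ω) * (C₁ * (7 ^ A * Real.log N ^ A))) :=
          mul_le_mul_of_nonneg_left h9 (by positivity)
      _ = D₁ * N * (∏ l ∈ S, M l) * Real.log N ^ A := by rw [hD₁]; ring
      _ ≤ _ := by gcongr; linarith
  · have h3 := trow_ms hd hK Y _ (d.Δ₁ Y).natAbs.primeFactors hPp fun l hl h4 =>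
      Nat.mem_primeFactors.2 ⟨hPp l hl, Int.natCast_dvd.1 h4, Int.natAbs_ne_zero.2 hY⟩
    have h4 := trow_exp hd hK hY S N
    rw [hn, hp, ← hω] at h3 h4
    have h5 : EE (d.G ^ 2 * d.E) N ≤ C₂ * EE (d.G ^ 2 * d.E) (d.G ^ 2 * d.E).natAbs := by
      refine h₂ _ _ _ (hs.up.trans (Nat.pow_le_pow_right ?_ (by norm_num))) hs.low
      have h6 := hs.up
      rcases Nat.eq_zero_or_pos (d.G ^ 2 * d.E).natAbs with h7 | h7
      · rw [h7] at h6
        omega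
      · exact h7
    have h6 : (∏ l ∈ Nat.primesLE (N ^ 7) \ S, d.ms K l Y) *
        Real.exp (∑ l ∈ Nat.primesLE (N + 1), (if l ∈ S then 2 else d.aa K l Y) / l) ≤
        Real.exp (K * ω + 2 + (K + 2) * ω) * Real.exp (4 * S.card) *
          (EE (d.G ^ 2 * d.E) N * Ph (2 * K) (d.m * d.a) N Y) := by
      refine (mul_le_mul_of_nonneg_right h3 (by positivity)).trans ?_
      rw [EE, Ph, ← Real.exp_add, ← Real.exp_add, ← Real.exp_add, ← Real.exp_add]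
      refine Real.exp_le_exp.2 ?_
      simp only [Δ₁] at h4 ⊢
      linarith
    have hE := EE_pos (d.G ^ 2 * d.E) (d.G ^ 2 * d.E).natAbs
    have hPh := Ph_pos (2 * K) (d.m * d.a) N Y
    calc _ ≤ C * N * (∏ l ∈ S, M l) * (Real.exp (K * ω + 2 + (K + 2) * ω) * Real.exp (4 * S.card) *
          (C₂ * EE (d.G ^ 2 * d.E) (d.G ^ 2 * d.E).natAbs * Ph (2 * K) (d.m * d.a) N Y)) := by
          refine mul_le_mul_of_nonneg_left (h6.trans ?_) (by positivity)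
          gcongr
      _ = D₂ * N * (Real.exp (4 * S.card) * ∏ l ∈ S, M l) *
          (EE (d.G ^ 2 * d.E) (d.G ^ 2 * d.E).natAbs * Ph (2 * K) (d.m * d.a) N Y) := by
          rw [hD₂]; ring
      _ ≤ _ := by gcongr; linarith

theorem cnt_gen (n : ℤ) (p κ : ℕ) : ∃ (K C : ℝ) (N₀ : ℕ), 0 ≤ K ∧ 0 < C ∧
    ∀ d : Dt, d.Good κ → d.n = n → d.p = p → ∀ H N : ℕ, d.Sz H N → N₀ ≤ N →
    ∀ (S : Finset ℕ) (k : ℕ → ℕ) (w : ℕ → ℤ → ℤ → ℝ) (M : ℕ → ℤ → ℝ) (Z : Finset (ℤ × ℤ))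
      (U : Finset ℤ), (∀ l ∈ S, ¬ d.Dom l) → (∏ l ∈ S, l ^ k l) ^ 8 ≤ N →
    (∀ l ∈ S, ∀ Y, LS 1 l {X | (X, Y) ∈ Z} (fun X => d.B X Y) (fun X => w l X Y)
      (fun X => 2 * d.ie l X Y + k l) (M l Y) 2) →
    (∀ z ∈ Z, d.Box H N z.1 z.2 ∧ S ⊆ d.PP z.1 z.2 ∧ z.2 ∈ U ∧ d.Δ₁ z.2 ≠ 0 ∧
      ∀ l ∈ S, 0 ≤ w l z.1 z.2 ∧ w l z.1 z.2 ≤ d.W5 l z.1 z.2) →
    ∑ z ∈ Z, d.WS S w z.1 z.2 ≤ C * N * EE (d.G ^ 2 * d.E) (d.G ^ 2 * d.E).natAbs *
      (∑ Y ∈ U, (∏ l ∈ S, C * M l Y) * Ph K (d.m * d.a) N Y) + (N : ℝ) ^ (99 / 100 : ℝ) * H := by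
  classical
  obtain ⟨K, C, A, N₀, hK, hC, h⟩ := cnt_row n p κ
  obtain ⟨N₁, h₁⟩ := crude_sum n p κ
  refine ⟨K, C, max N₀ N₁, hK, hC, ?_⟩
  intro d hd hn hp H N hs hN S k w M Z U hD hk hLS hZ
  rw [← sum_filter_add_sum_filter_not Z (fun z => d.JJ z.1 z.2 ^ 32 ≤ N ∧ d.QQ z.2 ^ 4 ≤ N)]
  refine add_le_add ?_ ?_
  · set Z₁ := Z.filter (fun z => d.JJ z.1 z.2 ^ 32 ≤ N ∧ d.QQ z.2 ^ 4 ≤ N) with hZ₁
    rw [← sum_fiberwise_of_maps_to (s := Z₁) (t := U) (g := fun z => z.2)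
      (fun z hz => (hZ z (mem_filter.1 hz).1).2.2.1), mul_sum]
    refine sum_le_sum fun Y _ => ?_
    have hE := EE_pos (d.G ^ 2 * d.E) (d.G ^ 2 * d.E).natAbs
    have hPh := Ph_pos K (d.m * d.a) N Y
    rcases (Z₁.filter fun z => z.2 = Y).eq_empty_or_nonempty with h0 | ⟨z₀, hz₀⟩
    · have hM : 0 ≤ ∏ l ∈ S, C * M l Y :=
        prod_nonneg fun l hl => mul_nonneg hC.le (trow_M (hLS l hl Y))
      rw [h0, sum_empty]
      positivity
    have hz₁ := mem_filter.1 hz₀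
    have hz₂ := mem_filter.1 hz₁.1
    have hmem : ∀ X ∈ (Z₁.filter fun z => z.2 = Y).image Prod.fst, (X, Y) ∈ Z₁ := by
      intro X hX
      obtain ⟨z, hz, rfl⟩ := mem_image.1 hX
      obtain ⟨h2, rfl⟩ := mem_filter.1 hz
      exact h2
    have h2 := (h d hd hn hp H N hs (le_of_max_le_left hN) S k w (fun l => M l Y) Y
      ((Z₁.filter fun z => z.2 = Y).image Prod.fst) hD hk
      (fun l hl => (hLS l hl Y).mono le_rfl (fun X hX => (mem_filter.1 (hmem X hX)).1)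
        (fun _ _ => le_rfl) (fun _ _ => le_rfl) le_rfl le_rfl)
      (fun X hX => by
        have h3 := mem_filter.1 (hmem X hX)
        have h4 := hZ _ h3.1
        exact ⟨h4.1, h4.2.1, fun l hl => (h4.2.2.2.2 l hl).1, h3.2.1⟩)
      (hz₁.2 ▸ hz₂.2.2)).2 (hz₁.2 ▸ (hZ z₀ hz₂.1).2.2.2.1)
    rw [sum_image (fun x hx y hy hxy => Prod.ext hxy
      ((mem_filter.1 hx).2.trans (mem_filter.1 hy).2.symm))] at h2
    calc _ = ∑ z ∈ Z₁.filter fun z => z.2 = Y, d.WS S w z.1 Y :=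
          sum_congr rfl fun z hz => by rw [(mem_filter.1 hz).2]
      _ ≤ _ := h2
      _ = _ := by ring
  · refine le_trans (sum_le_sum fun z hz => ?_) (h₁ d hd hn hp H N hs (le_of_max_le_right hN) _
      fun z hz => ⟨(hZ z (mem_filter.1 hz).1).1, ?_⟩)
    · have h2 := hZ z (mem_filter.1 hz).1
      exact WS_le hd h2.1.ne h2.2.1 hD h2.2.2.2.2
    · have h2 := (mem_filter.1 hz).2
      omega

end Dt

end Pool.Agent.EQ
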