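import Pool.Agent.P.MP_ad7a55_nt.TDt
import Pool.Agent.P.MP_ad7a55_nt.TQd
import Pool.Agent.P.MP_ad7a55_nt.TJac

/-! Majorants of the weight at the primes prime to the degree. -/

set_option autoImplicit false

noncomputable section

open Finset Matrix

namespace Pool.Agent.EQ

namespace Dt

/-- The bias at `l`. -/
def aa (d : Dt) (K : ℝ) (l : ℕ) (Y : ℤ) : ℝ :=
  if (l : ℤ) ∣ 2 * d.n * d.p then K
  else jacobiSym (d.G ^ 2 * d.E) l + (if (l : ℤ) ∣ d.m * d.a then 0 else jacobiSym (d.Δ₁ Y) l) +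
    if (l : ℤ) ∣ d.Δ₁ Y then K else 0

/-- The mass at `l`. -/
def ms (d : Dt) (K : ℝ) (l : ℕ) (Y : ℤ) : ℝ :=
  if (l : ℤ) ∣ 2 * d.n * d.p then K else if (l : ℤ) ∣ d.Δ₁ Y then 1 + K / l else 1

theorem tsa_single {K M a : ℝ} (hM : 1 ≤ M) {l : ℕ} {S : Set ℤ} {B : ℤ → ℤ} {w : ℤ → ℝ}
    (mu : ℤ → ℕ) {Ω : ℕ → ℤ → Prop} {f : ℕ → ℝ} (hL : Lv l K Ω f a)
    (hw : ∀ x ∈ S, ∃ k, At Ω x k ∧ (l : ℤ) ^ k ∣ B x ∧ w x ≤ f k) : LS K l S B w mu M a := by
  refine ⟨{(0, 0, 0)}, fun _ => 1, fun _ => Ω, fun _ => f, fun t _ => ⟨zero_le_one, hL⟩,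
    by simpa using hM, fun x hx => ?_⟩
  obtain ⟨k, a1, a2, a3⟩ := hw x hx
  exact Or.inr ⟨_, mem_singleton_self _, x, k, Nat.zero_le _, by simp, a1, a2, by rwa [one_mul]⟩

theorem tsa_fam {K M a : ℝ} {l : ℕ} {S : Set ℤ} {B : ℤ → ℤ} {w : ℤ → ℝ} {mu : ℤ → ℕ} (n : ℕ)
    (r : ℕ → ℤ) (π : ℕ → ℝ) (Ω : ℕ → ℕ → ℤ → Prop) (f : ℕ → ℕ → ℝ)
    (hL : ∀ i, 0 ≤ π i ∧ Lv l K (Ω i) (f i) a)
    (hM : ∑ i ∈ range n, π i / (l : ℝ) ^ (2 * i) ≤ M)
    (hw : ∀ x ∈ S, ∃ i < n, ∃ (y : ℤ) (k : ℕ), 2 * i ≤ mu x ∧ x = r i + (l : ℤ) ^ (2 * i) * y ∧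
      At (Ω i) y k ∧ (l : ℤ) ^ k ∣ B x ∧ w x ≤ π i * f i k) : LS K l S B w mu M a := by
  refine ⟨(range n).image fun i => (2 * i, r i, i), fun t => π t.2.2, fun t => Ω t.2.2,
    fun t => f t.2.2, fun t _ => hL _, ?_, fun x hx => ?_⟩
  · rw [sum_image fun i _ j _ e => (Prod.mk.inj (Prod.mk.inj e).2).2]
    exact hM
  · obtain ⟨i, hi, y, k, a1, a2, a3, a4, a5⟩ := hw x hx
    exact Or.inr ⟨_, mem_image_of_mem _ (mem_range.2 hi), y, k, a1, a2, a3, a4, a5⟩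

theorem tsa_geo (n : ℕ) : ∑ i ∈ range n, (4 * (i : ℝ) + 6) / 2 ^ i = 20 - (8 * n + 20) / 2 ^ n := by
  induction n with
  | zero => norm_num
  | succ n ih =>
    rw [sum_range_succ, ih]
    push_cast
    field_simp
    ring

theorem tsa_sum {l : ℕ} (hl : l.Prime) (n : ℕ) :
    ∑ i ∈ range (n + 1), (if i = 0 then 1 else 16 * (l : ℝ) ^ i * (4 * i + 2)) / (l : ℝ) ^ (2 * i)
      ≤ 1 + 320 / l := by
  have h2 : (2 : ℝ) ≤ l := by exact_mod_cast hl.two_le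
  have h0 : (0 : ℝ) < l := by linarith
  rw [sum_range_succ', add_comm]
  refine add_le_add (by simp) ?_
  calc _ ≤ ∑ i ∈ range n, 16 / (l : ℝ) * ((4 * (i : ℝ) + 6) / 2 ^ i) := by
        refine sum_le_sum fun i _ => ?_
        rw [if_neg (Nat.succ_ne_zero i)]
        calc _ = 16 / (l : ℝ) * ((4 * (i : ℝ) + 6) / (l : ℝ) ^ i) := by
              push_cast
              field_simp
              ring
          _ ≤ _ := by gcongr
    _ = 16 / (l : ℝ) * (20 - (8 * n + 20) / 2 ^ n) := by rw [← mul_sum, tsa_geo]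
    _ ≤ 16 / (l : ℝ) * 20 := by
        gcongr
        exact sub_le_self _ (by positivity)
    _ = 320 / l := by ring

theorem tsa_two {d : Dt} {l : ℕ} (h1 : ¬ (l : ℤ) ∣ 2 * d.n * d.p) : l ≠ 2 := by
  rintro rfl
  exact h1 ⟨d.n * d.p, by push_cast; ring⟩

theorem tsa_jac_zero {l : ℕ} (hl : l.Prime) {z : ℤ} (h : (l : ℤ) ∣ z) : jacobiSym z l = 0 := by
  have : Fact l.Prime := ⟨hl⟩
  rw [← jacobiSym.legendreSym.to_jacobiSym, legendreSym.eq_zero_iff,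
    ZMod.intCast_zmod_eq_zero_iff_dvd]
  exact h

theorem tsa_jac {l : ℕ} (hl : l.Prime) {z : ℤ} (h : ¬ (l : ℤ) ∣ z) :
    jacobiSym z l = 1 ∨ jacobiSym z l = -1 := by
  have : Fact l.Prime := ⟨hl⟩
  rw [← jacobiSym.legendreSym.to_jacobiSym]
  exact legendreSym.eq_one_or_neg_one l (by rwa [Ne, ZMod.intCast_zmod_eq_zero_iff_dvd])

theorem tsa_jac_le (z : ℤ) (l : ℕ) : -1 ≤ jacobiSym z l ∧ jacobiSym z l ≤ 1 := by
  rcases jacobiSym.trichotomy z l with h | h | h <;> simp [h]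

theorem tsa_W5 {d : Dt} {l : ℕ} (hl : l.Prime) (h2 : l ≠ 2) {X Y : ℤ} (hB : d.B X Y ≠ 0) :
    d.W5 l X Y ≤ 16 * (l : ℝ) ^ d.ie l X Y * (1 + padicValInt l (d.B X Y)) := by
  have : Fact l.Prime := ⟨hl⟩
  have h4 : ¬ (l : ℤ) ∣ 4 := fun h =>
    tqd_not_two hl h2 ((tqd_prime hl).dvd_of_dvd_pow (n := 2) (by simpa using h))
  have e : padicValInt l (4 * d.B X Y) = padicValInt l (d.B X Y) := by
    rw [padicValInt.mul (by norm_num) hB, padicValInt.eq_zero_of_not_dvd h4, zero_add]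
  rw [W5, e]
  gcongr
  split_ifs
  · exact le_rfl
  · positivity

theorem tsa_dvd_B {d : Dt} {l : ℕ} (hl : l.Prime) (h2 : l ≠ 2) (hE : (l : ℤ) ∣ d.E)
    (ha : ¬ (l : ℤ) ∣ d.a) {X Y : ℤ} (hx : (l : ℤ) ∣ d.x₁ X Y) : (l : ℤ) ∣ d.B X Y := by
  have hp := tqd_prime hl
  have h3 : (l : ℤ) ∣ 2 * (2 * (d.a * d.B X Y)) := by
    rw [show 2 * (2 * (d.a * d.B X Y)) = 4 * d.a * d.B X Y by ring, ← key₁]
    exact dvd_sub (dvd_pow hx two_ne_zero) (hE.mul_right _)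
  exact (hp.dvd_or_dvd ((hp.dvd_or_dvd ((hp.dvd_or_dvd h3).resolve_left
    (tqd_not_two hl h2))).resolve_left (tqd_not_two hl h2))).resolve_left ha

theorem tsa_shift (d : Dt) (r u y Y : ℤ) (μ : ℕ) :
    d.a * u ^ (2 * μ) * y ^ 2 + (2 * d.a * r + d.b * Y) * u ^ μ * y +
      (d.a * r ^ 2 + d.b * Y * r + (d.c * Y ^ 2 + d.m * d.E)) = d.B (r + u ^ μ * y) Y := by
  rw [B_eq]
  ring

theorem ls_one {K M a : ℝ} (hK : 1 ≤ K) (hM : 1 ≤ M) (ha : 0 ≤ a) (l : ℕ) (S : Set ℤ) (B : ℤ → ℤ)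
    {w : ℤ → ℝ} (hw : ∀ x ∈ S, w x ≤ 1) (mu : ℤ → ℕ) : LS K l S B w mu M a := by
  refine tsa_single hM mu (Ω := fun _ _ => False) (f := fun _ => 1)
    ⟨fun _ _ _ _ h => h, fun k _ => ?_, fun _ => zero_le_one, fun k => ?_, le_rfl, by simpa⟩
    fun x hx => ⟨0, ⟨fun _ => id, fun e => absurd e (lt_irrefl 0)⟩, by simp, hw x hx⟩
  · rw [tqd_zero (by simp)]
    exact Nat.zero_le _
  · have : (0 : ℝ) ≤ k := by positivity
    nlinarith

theorem ls_unr {d : Dt} {κ : ℕ} (h : d.Good κ) {l : ℕ} (hl : l.Prime) (hD : ¬ d.Dom l)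
    (h1 : ¬ (l : ℤ) ∣ 2 * d.n * d.p) (hE : ¬ (l : ℤ) ∣ d.E) (Y : ℤ) :
    LS 9 l {X | d.B X Y ≠ 0} (fun X => d.B X Y) (fun X => d.Wt l X Y) (fun _ => 0) 1
      (d.aa 9 l Y) := by
  have : Fact l.Prime := ⟨hl⟩
  have hp := tqd_prime hl
  have h2 := tsa_two h1
  have hm : ¬ (l : ℤ) ∣ d.m := (val_m h hl hD).2 h1
  have hG : ¬ (l : ℤ) ∣ d.G := fun e => hm (e.mul_left _)
  have hJ : jacobiSym (d.G ^ 2 * d.E) l = jacobiSym d.E l := by
    rw [jacobiSym.mul_left, jacobiSym.pow_left]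
    rcases tsa_jac hl hG with e | e <;> simp [e]
  have hW : ∀ X, d.Wt l X Y = if jacobiSym d.E l = 1 then (padicValInt l (d.B X Y) : ℝ) + 1
      else if Even (padicValInt l (d.B X Y)) then 1 else 0 := fun X => by
    rw [Wt, if_neg hD, if_neg h1, if_pos hE]
  have hχ := tsa_jac hl hE
  by_cases hΔ : (l : ℤ) ∣ d.Δ₁ Y
  · have hc := content h hl Y (s := 0) (by
      rw [padicValInt.eq_zero_of_not_dvd hm, padicValInt.eq_zero_of_not_dvd hE])
    obtain ⟨Ω, hL, hy⟩ := exists_qlev' hl (A := d.a) (B := d.b * Y)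
      (C := d.c * Y ^ 2 + d.m * d.E) hc (K := 2) one_le_two
    refine tsa_single le_rfl _ (hL.mono (by norm_num) ?_) fun X hX => ?_
    · rw [aa, if_neg h1, if_pos hΔ, hJ, tsa_jac_zero hl hΔ]
      rcases hχ with e | e <;> simp [e] <;> norm_num
    · simp only [← B_eq] at hy
      obtain ⟨k, a1, a2, a3, a4⟩ := hy X hX
      refine ⟨k, a1, a2, ?_⟩
      have h3 : d.Wt l X Y ≤ (padicValInt l (d.B X Y) : ℝ) + 1 := by
        have : (0 : ℝ) ≤ padicValInt l (d.B X Y) := by positivity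
        rw [hW]
        split_ifs <;> linarith
      refine h3.trans ?_
      split_ifs with hk
      · rw [padicValInt.eq_zero_of_not_dvd (a4 hk)]
        simp
      · have : (padicValInt l (d.B X Y) : ℝ) ≤ 2 * k + 1 := by exact_mod_cast a3
        linarith
  · have hd : ¬ (l : ℤ) ∣ (d.b * Y) ^ 2 - 4 * d.a * (d.c * Y ^ 2 + d.m * d.E) := by
      rw [disc_B]
      exact fun e => (hp.dvd_or_dvd e).elim hE hΔ
    have hc : ∀ k, 0 < k → (cnt (l ^ k) (fun X => (l : ℤ) ^ k ∣ d.B X Y) : ℤ) =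
        1 + if (l : ℤ) ∣ d.m * d.a then 0 else jacobiSym d.E l * jacobiSym (d.Δ₁ Y) l := by
      intro k hk
      simp only [B_eq]
      by_cases ha : (l : ℤ) ∣ d.a
      · rw [if_pos (ha.mul_left _), cnt_hensel' hl ha fun e => hd
          (dvd_sub (dvd_pow e two_ne_zero) ((ha.mul_left _).mul_right _))]
        simp
      · rw [if_neg fun e => (hp.dvd_or_dvd e).elim hm ha, cnt_hensel hl h2 ha hd hk, disc_B,
          jacobiSym.mul_left]
    refine tsa_single le_rfl _ (Ω := fun k X => (l : ℤ) ^ k ∣ d.B X Y)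
      (f := fun k => if jacobiSym d.E l = 1 then (k : ℝ) + 1 else if Even k then 1 else 0)
      ⟨fun k x y e1 e2 => ?_, fun k hk => ?_, fun k => ?_, fun k => ?_, by simp, ?_⟩
      fun X hX => ?_
    · rw [B_eq] at e2 ⊢
      exact tqd_poly e1 e2
    · have h3 := hc k hk
      have h4 := (tsa_jac_le (d.E * d.Δ₁ Y) l).2
      rw [jacobiSym.mul_left] at h4
      split_ifs at h3 <;> omega
    · split_ifs <;> positivity
    · have : (0 : ℝ) ≤ k := by positivity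
      split_ifs <;> linarith
    · have h3 := hc 1 one_pos
      rw [pow_one l] at h3
      have h4 : (cnt l (fun X => (l : ℤ) ^ 1 ∣ d.B X Y) : ℝ) = ((1 + if (l : ℤ) ∣ d.m * d.a then 0
          else jacobiSym d.E l * jacobiSym (d.Δ₁ Y) l : ℤ) : ℝ) := by exact_mod_cast h3
      rw [h4, aa, if_neg h1, if_neg hΔ, hJ]
      rcases hχ with e | e <;> rw [e] <;> split_ifs <;> simp_all
    · refine ⟨padicValInt l (d.B X Y), ⟨fun e e' => ?_, fun _ => padicValInt_dvd _⟩,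
        padicValInt_dvd _, (hW X).le⟩
      rcases (padicValInt_dvd_iff 1 _).1 e' with e2 | e2
      · exact hX e2
      · omega

theorem ls_ram : ∃ K : ℝ, 1 ≤ K ∧ ∀ (d : Dt) (κ : ℕ), d.Good κ → ∀ l : ℕ, l.Prime → ¬ d.Dom l →
    ¬ (l : ℤ) ∣ 2 * d.n * d.p → (l : ℤ) ∣ d.E → ¬ (l : ℤ) ∣ d.a → ∀ Y : ℤ,
    LS K l {X | d.B X Y ≠ 0} (fun X => d.B X Y) (fun X => d.Wt l X Y) (fun X => d.mu l X Y)
      (d.ms K l Y) (d.aa K l Y) := by
  refine ⟨320, by norm_num, fun d κ h l hl hD h1 hE ha Y => ?_⟩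
  have : Fact l.Prime := ⟨hl⟩
  have hp := tqd_prime hl
  have h2 := tsa_two h1
  have hm : ¬ (l : ℤ) ∣ d.m := (val_m h hl hD).2 h1
  have hma : ¬ (l : ℤ) ∣ d.m * d.a := fun e => (hp.dvd_or_dvd e).elim hm ha
  have h2a : ¬ (l : ℤ) ∣ 2 * d.a := fun e => (hp.dvd_or_dvd e).elim (tqd_not_two hl h2) ha
  have hJ : jacobiSym (d.G ^ 2 * d.E) l = 0 := tsa_jac_zero hl (hE.mul_left _)
  have hx : ∀ X, d.xe l X Y = d.x₁ X Y := fun X => if_neg ha
  have hW : ∀ X, d.Wt l X Y = if ¬ (l : ℤ) ∣ d.x₁ X Y then 1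
      else if ¬ (l : ℤ) ∣ d.Δ₁ Y then 1 + (jacobiSym (d.Δ₁ Y) l : ℝ) else d.W5 l X Y := fun X => by
    rw [Wt, if_neg hD, if_neg h1, if_neg (not_not.2 hE), hx, Δe, if_neg ha]
  by_cases hΔ : (l : ℤ) ∣ d.Δ₁ Y
  · have hr : ∀ i : ℕ, ∃ r : ℤ, ∀ X, (l : ℤ) ^ (2 * i) ∣ d.x₁ X Y → (l : ℤ) ^ (2 * i) ∣ X - r := by
      intro i
      by_cases he : ∃ r, (l : ℤ) ^ (2 * i) ∣ d.x₁ r Y
      · obtain ⟨r, hr⟩ := he
        refine ⟨r, fun X hX => hp.pow_dvd_of_dvd_mul_left _ h2a ?_⟩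
        have := dvd_sub hX hr
        rwa [show d.x₁ X Y - d.x₁ r Y = 2 * d.a * (X - r) by simp only [x₁]; ring] at this
      · exact ⟨0, fun X hX => absurd ⟨X, hX⟩ he⟩
    choose r hr using hr
    have hc : ¬ Ct l (0 + 1) d.a (d.b * Y) (d.c * Y ^ 2 + d.m * d.E) := fun e =>
      ha (by simpa using e.1)
    have hty : ∀ i : ℕ, ∃ (Ω : ℕ → ℤ → Prop) (f : ℕ → ℝ), Lv l 320 Ω f 320 ∧
        ∀ X y, X = r i + (l : ℤ) ^ (2 * i) * y → d.B X Y ≠ 0 → d.ie l X Y = i →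
          ∃ k, At Ω y k ∧ (l : ℤ) ^ k ∣ d.B X Y ∧
            d.Wt l X Y ≤ (if i = 0 then 1 else 16 * (l : ℝ) ^ i * (4 * i + 2)) * f k := by
      intro i
      have hs := ct_shift hl hc (r i) (2 * i)
      by_cases hi : i = 0
      · subst hi
        obtain ⟨Ω, hL, hy⟩ := exists_qlev' hl hs (K := 32) (by norm_num)
        simp only [tsa_shift] at hy
        refine ⟨Ω, _, hL.mono (by norm_num) (by norm_num), ?_⟩
        rintro X y rfl hB hie
        obtain ⟨k, a1, a2, a3, a4⟩ := hy y hB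
        refine ⟨k, a1, a2, ?_⟩
        have h0 : (0 : ℝ) ≤ k := by positivity
        rw [if_pos rfl, one_mul, hW, if_neg (not_not.2 hΔ)]
        split_ifs with b1 b2 b2
        · exact absurd (tsa_dvd_B hl h2 hE ha b1) (a4 b2)
        · refine (tsa_W5 hl h2 hB).trans ?_
          rw [hie, pow_zero]
          have := (Nat.cast_le (α := ℝ)).2 a3
          push_cast at this
          linarith
        · exact le_rfl
        · linarith
      · obtain ⟨Ω, hL, hy⟩ := exists_qlev hl hs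
        simp only [tsa_shift] at hy
        refine ⟨Ω, _, hL.mono (by norm_num) (by norm_num), ?_⟩
        rintro X y rfl hB hie
        obtain ⟨k, a1, a2, a3⟩ := hy y hB
        refine ⟨k, a1, a2, (Wt_le h hl hB).trans ((tsa_W5 hl h2 hB).trans ?_)⟩
        rw [if_neg hi, hie, mul_assoc _ (4 * (i : ℝ) + 2)]
        have h3 := (Nat.cast_le (α := ℝ)).2 a3
        push_cast at h3
        have h4 : (0 : ℝ) ≤ i * k := by positivity
        gcongr
        nlinarith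
    choose Ω f hL hy using hty
    have e1 : d.aa 320 l Y = 320 := by
      rw [aa, if_neg h1, if_neg hma, if_pos hΔ, hJ, tsa_jac_zero hl hΔ]
      simp
    rw [e1, ms, if_neg h1, if_pos hΔ]
    refine tsa_fam (d.E.natAbs + 1) r _ Ω f (fun i => ⟨?_, hL i⟩) (tsa_sum hl _) fun X hX => ?_
    · split_ifs <;> positivity
    · obtain ⟨s1, -, s3, -⟩ := ie_spec h hl X Y
      rw [hx] at s1
      obtain ⟨y, e⟩ := hr _ X s1
      have e' : X = r (d.ie l X Y) + (l : ℤ) ^ (2 * d.ie l X Y) * y := by linarith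
      obtain ⟨k, a1, a2, a3⟩ := hy _ X y e' hX rfl
      refine ⟨d.ie l X Y, ?_, y, k, Nat.le_add_right _ _, e', a1, a2, a3⟩
      have b1 : l ^ (2 * d.ie l X Y) ∣ d.E.natAbs := Int.natCast_dvd.1 (by exact_mod_cast s3)
      have b2 := Nat.le_of_dvd (Int.natAbs_pos.2 h.E_neg.ne) b1
      have b3 := Nat.lt_pow_self (n := 2 * d.ie l X Y) hl.one_lt
      omega
  · have e1 : d.aa 320 l Y = jacobiSym (d.Δ₁ Y) l := by
      rw [aa, if_neg h1, if_neg hma, if_neg hΔ, hJ]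
      simp
    have j1 : (-1 : ℝ) ≤ jacobiSym (d.Δ₁ Y) l := by exact_mod_cast (tsa_jac_le _ l).1
    have j2 : (jacobiSym (d.Δ₁ Y) l : ℝ) ≤ 1 := by exact_mod_cast (tsa_jac_le _ l).2
    have hc : cnt l (fun X => 1 = 1 ∧ (l : ℤ) ∣ d.x₁ X Y) = 1 := by
      have := cnt_hensel' hl (dvd_zero _) h2a (d.b * Y) 1
      rw [pow_one l] at this
      refine (tqd_congr fun X => ?_).trans this
      rw [pow_one, show 0 * X ^ 2 + 2 * d.a * X + d.b * Y = d.x₁ X Y by simp only [x₁]; ring]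
      simp
    rw [e1, ms, if_neg h1, if_neg hΔ]
    refine tsa_single le_rfl _ (Ω := fun k X => k = 1 ∧ (l : ℤ) ∣ d.x₁ X Y)
      (f := fun k => if k = 1 then 1 + (jacobiSym (d.Δ₁ Y) l : ℝ) else 1)
      ⟨fun k x y e1 e2 => ⟨e2.1, ?_⟩, fun k hk => ?_, fun k => ?_, fun k => ?_, by simp, ?_⟩
      fun X hX => ?_
    · rw [e2.1, pow_one] at e1
      have := dvd_sub e2.2 (e1.mul_left (2 * d.a))
      rwa [show d.x₁ x Y - 2 * d.a * (x - y) = d.x₁ y Y by simp only [x₁]; ring] at this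
    · by_cases e : k = 1
      · subst e
        rw [pow_one, hc]
        exact one_le_two
      · rw [tqd_zero fun ⟨_, e2⟩ => e e2.1]
        exact Nat.zero_le _
    · split_ifs <;> linarith
    · have : (0 : ℝ) ≤ k := by positivity
      split_ifs <;> linarith
    · rw [hc]
      simp
    · by_cases b : (l : ℤ) ∣ d.x₁ X Y
      · refine ⟨1, ⟨fun e => absurd e one_ne_zero, fun _ => ⟨rfl, b⟩⟩, ?_, ?_⟩
        · rw [pow_one]
          exact tsa_dvd_B hl h2 hE ha b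
        · rw [hW, if_neg (not_not.2 b), if_pos hΔ, if_pos rfl]
      · refine ⟨0, ⟨fun _ e => b e.2, fun e => absurd e (lt_irrefl 0)⟩, by simp, ?_⟩
        rw [hW, if_pos b, if_neg zero_ne_one]

end Dt

end Pool.Agent.EQ
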