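import Pool.Agent.P.MP_ad7a55_nt.TSa

/-! Majorants of the weight at the remaining primes. -/

set_option autoImplicit false

noncomputable section

open Finset Matrix

namespace Pool.Agent.EQ

theorem tsb_idx {ι : Type} [Countable ι] {K M a : ℝ} {l : ℕ} {S : Set ℤ} {B : ℤ → ℤ}
    {w : ℤ → ℝ} {mu : ℤ → ℕ} (I : Finset ι) (e : ι → ℕ) (r : ι → ℤ) (π : ι → ℝ)
    (Ω : ι → ℕ → ℤ → Prop) (f : ι → ℕ → ℝ) (h1 : ∀ i ∈ I, 0 ≤ π i ∧ Lv l K (Ω i) (f i) a)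
    (h2 : ∑ i ∈ I, π i / (l : ℝ) ^ e i ≤ M)
    (h3 : ∀ x ∈ S, w x ≤ 0 ∨ ∃ i ∈ I, ∃ (y : ℤ) (k : ℕ), e i ≤ mu x ∧
      x = r i + (l : ℤ) ^ e i * y ∧ At (Ω i) y k ∧ (l : ℤ) ^ k ∣ B x ∧ w x ≤ π i * f i k) :
    LS K l S B w mu M a := by
  classical
  obtain ⟨c, hc⟩ := exists_injective_nat ι
  obtain ⟨g, hg⟩ : ∃ g : ι → ℕ × ℤ × ℕ, ∀ i, g i = (e i, r i, c i) := ⟨_, fun _ => rfl⟩
  have hi : Function.Injective g := fun i j h => hc (by
    rw [hg, hg] at h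
    exact (Prod.mk.inj (Prod.mk.inj h).2).2)
  refine ⟨I.image g, Function.extend g π 0, Function.extend g Ω (fun _ _ _ => False),
    Function.extend g f 0, fun t ht => ?_, ?_, fun x hx => ?_⟩
  · obtain ⟨i, h4, rfl⟩ := mem_image.1 ht
    rw [hi.extend_apply, hi.extend_apply, hi.extend_apply]
    exact h1 i h4
  · rw [sum_image fun i _ j _ h => hi h]
    refine le_trans (le_of_eq (sum_congr rfl fun i _ => ?_)) h2
    rw [hi.extend_apply, hg]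
  · refine (h3 x hx).imp id ?_
    rintro ⟨i, h4, y, k, a1, a2, a3, a4, a5⟩
    refine ⟨g i, mem_image_of_mem _ h4, y, k, ?_⟩
    rw [hi.extend_apply, hi.extend_apply, hi.extend_apply, hg]
    exact ⟨a1, a2, a3, a4, a5⟩

theorem tsb_union {K M M' a : ℝ} {l : ℕ} {S S' : Set ℤ} {B : ℤ → ℤ} {w : ℤ → ℝ} {mu : ℤ → ℕ}
    (h : LS K l S B w mu M a) (h' : LS K l S' B w mu M' a) :
    LS K l (S ∪ S') B w mu (M + M') a := by
  obtain ⟨T, π, Ω, f, h1, h2, h3⟩ := h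
  obtain ⟨T', π', Ω', f', h1', h2', h3'⟩ := h'
  refine tsb_idx (T.disjSum T') (Sum.elim (fun t => t.1) fun t => t.1)
    (Sum.elim (fun t => t.2.1) fun t => t.2.1) (Sum.elim π π') (Sum.elim Ω Ω') (Sum.elim f f')
    ?_ ?_ ?_
  · rintro (t | t) ht
    · exact h1 t (inl_mem_disjSum.1 ht)
    · exact h1' t (inr_mem_disjSum.1 ht)
  · rw [sum_disjSum]
    exact add_le_add h2 h2'
  · rintro x (hx | hx)
    · refine (h3 x hx).imp id ?_
      rintro ⟨t, ht, h4⟩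
      exact ⟨Sum.inl t, inl_mem_disjSum.2 ht, h4⟩
    · refine (h3' x hx).imp id ?_
      rintro ⟨t, ht, h4⟩
      exact ⟨Sum.inr t, inr_mem_disjSum.2 ht, h4⟩

theorem tsb_res {q : ℕ} (hq : 0 < q) (x : ℤ) : ∃ (r : ℕ) (y : ℤ), r < q ∧ x = r + q * y := by
  have h0 : (0 : ℤ) < q := by exact_mod_cast hq
  obtain ⟨r, hr⟩ := Int.eq_ofNat_of_zero_le (Int.emod_nonneg x h0.ne')
  have h1 := Int.emod_lt_of_pos x h0
  refine ⟨r, x / q, by omega, ?_⟩
  rw [← hr]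
  exact (Int.emod_add_mul_ediv x q).symm

theorem tsb_quad {l : ℕ} (hl : l.Prime) {A B C : ℤ} {s : ℕ} (h : ¬ Ct l (s + 1) A B C)
    (I : Finset ℕ) (e : ℕ → ℕ) (P : ℕ → ℤ → Prop) (π : ℕ → ℝ) (hπ : ∀ i, 0 ≤ π i)
    (hP : ∀ i x y, (l : ℤ) ^ e i ∣ x - y → P i x → P i y) {S : Set ℤ} {Q : ℤ → ℤ}
    (hQ : ∀ x, Q x = A * x ^ 2 + B * x + C) {w : ℤ → ℝ} {mu : ℤ → ℕ} {M : ℝ}
    (hM : ∑ i ∈ I, cnt (l ^ e i) (P i) * (π i / (l : ℝ) ^ e i) ≤ M)
    (hS : ∀ x ∈ S, Q x ≠ 0 ∧ ∃ i ∈ I, e i ≤ mu x ∧ P i x ∧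
      ∀ k : ℕ, padicValInt l (Q x) ≤ s + 2 * e i + 2 * k + 1 → w x ≤ π i * (k + 1)) :
    LS 1 l S Q w mu M 2 := by
  classical
  choose Ω o1 o2 using fun (μ : ℕ) (r : ℤ) => exists_qlev hl (ct_shift hl h r μ)
  refine tsb_idx (ι := Σ _ : ℕ, ℕ) (I.sigma fun i => (range (l ^ e i)).filter fun r : ℕ => P i r)
    (fun t => e t.1) (fun t => t.2) (fun t => π t.1) (fun t => Ω (e t.1) t.2)
    (fun _ k => k + 1) (fun t _ => ⟨hπ _, o1 _ _⟩) ?_ fun x hx => Or.inr ?_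
  · rw [sum_sigma]
    refine le_trans (le_of_eq (sum_congr rfl fun i _ => ?_)) hM
    rw [tqd_cnt]
    simp only [sum_const, nsmul_eq_mul]
  · obtain ⟨h0, i, hi, a1, a2, a3⟩ := hS x hx
    obtain ⟨r, y, h1, h2⟩ := tsb_res (pow_pos hl.pos (e i)) x
    push_cast at h2
    have h3 : Q x = A * (l : ℤ) ^ (2 * e i) * y ^ 2 + (2 * A * r + B) * (l : ℤ) ^ e i * y +
        (A * r ^ 2 + B * r + C) := by
      rw [hQ, h2]
      ring
    obtain ⟨k, b1, b2, b3⟩ := o2 (e i) r y (h3 ▸ h0)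
    rw [← h3] at b2 b3
    refine ⟨⟨i, r⟩, mem_sigma.2 ⟨hi, mem_filter.2 ⟨mem_range.2 h1, hP i x r ⟨y, ?_⟩ a2⟩⟩, y, k,
      a1, h2, b1, b2, a3 k b3⟩
    rw [h2]
    ring

theorem tsb_geo (A B : ℝ) (n : ℕ) :
    ∑ i ∈ range n, (A * i + B) / 2 ^ i = 2 * A + 2 * B - (2 * A * n + 2 * A + 2 * B) / 2 ^ n := by
  induction n with
  | zero => simp
  | succ n ih =>
    rw [sum_range_succ, ih]
    push_cast
    field_simp
    ring

theorem tsb_geo_le {A B : ℝ} (hA : 0 ≤ A) (hB : 0 ≤ B) (n : ℕ) :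
    ∑ i ∈ range n, (A * i + B) / 2 ^ i ≤ 2 * A + 2 * B := by
  rw [tsb_geo]
  have : 0 ≤ (2 * A * n + 2 * A + 2 * B) / 2 ^ n := by positivity
  linarith

theorem tsb_four {l : ℕ} (hl : l.Prime) {B : ℤ} (hB : B ≠ 0) :
    padicValInt l (4 * B) ≤ padicValInt l B + 2 := by
  have : Fact l.Prime := ⟨hl⟩
  rw [padicValInt.mul (by norm_num) hB]
  have h1 : (l : ℤ) ^ padicValInt l 4 ∣ 4 := padicValInt_dvd _
  have h2 : l ^ padicValInt l 4 ≤ 4 := by exact_mod_cast Int.le_of_dvd (by norm_num) h1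
  have h3 : padicValInt l 4 ≤ 2 := by
    by_contra h4
    have h5 : 2 ^ 3 ≤ l ^ padicValInt l 4 :=
      (Nat.pow_le_pow_left hl.two_le 3).trans (Nat.pow_le_pow_right hl.pos (by omega))
    omega
  omega

theorem tsb_lv {l : ℕ} {K a : ℝ} (hK : 1 ≤ K) (ha : 0 ≤ a) :
    Lv l K (fun _ _ => False) (fun _ => 1) a := by
  refine ⟨fun _ _ _ _ h => h, fun k _ => ?_, fun _ => zero_le_one, fun k => ?_, le_rfl, ?_⟩
  · rw [tqd_zero (by simp)]
    exact Nat.zero_le _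
  · have : (0 : ℝ) ≤ k := Nat.cast_nonneg k
    nlinarith
  · simpa using ha

namespace Dt

theorem tsb_W5 {d : Dt} {l : ℕ} (hl : l.Prime) {X Y : ℤ} (hB : d.B X Y ≠ 0) {v μ k : ℕ}
    (hv : padicValInt l d.m ≤ v) (hμ : μ ≤ 2 * d.ie l X Y + 1)
    (hk : padicValInt l (d.B X Y) ≤ padicValInt l d.m + padicValInt l d.E + 2 * μ + 2 * k + 1) :
    d.W5 l X Y ≤ 16 * (l : ℝ) ^ d.ie l X Y * (6 * d.ie l X Y + (v + 9)) * (k + 1) := by
  have h1 := tsb_four hl hB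
  unfold W5
  rw [mul_assoc (16 * (l : ℝ) ^ d.ie l X Y)]
  refine mul_le_mul_of_nonneg_left ?_ (by positivity)
  generalize d.ie l X Y = i at *
  have h2 : (0 : ℝ) ≤ i := Nat.cast_nonneg _
  have h3 : (0 : ℝ) ≤ k := Nat.cast_nonneg _
  have h4 : (0 : ℝ) ≤ v := Nat.cast_nonneg _
  have h5 := mul_nonneg h2 h3
  have h6 := mul_nonneg h4 h3
  split_ifs with h7
  · have h8 : padicValInt l (4 * d.B X Y) ≤ v + 6 * i + 8 + 2 * k := by omega
    have h9 : (padicValInt l (4 * d.B X Y) : ℝ) ≤ v + 6 * i + 8 + 2 * k := by exact_mod_cast h8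
    nlinarith
  · nlinarith

theorem tsb_ie {d : Dt} {κ : ℕ} (h : d.Good κ) {l : ℕ} (hl : l.Prime) (X Y : ℤ) :
    d.ie l X Y < padicValInt l d.E + 1 := by
  have : Fact l.Prime := ⟨hl⟩
  have h1 := ((padicValInt_dvd_iff _ _).1 (ie_spec h hl X Y).2.2.1).resolve_left h.E_neg.ne
  omega

theorem tsb_D2 {d : Dt} {q x y : ℤ} (h : q ∣ x - y) (h1 : q ∣ d.Δ₂ x) : q ∣ d.Δ₂ y := by
  have := dvd_sub h1 (h.mul_right (x + y))
  rwa [show d.Δ₂ x - (x - y) * (x + y) = d.Δ₂ y by simp only [Δ₂]; ring] at this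

theorem tsb_ms {d : Dt} {K K' : ℝ} (h : K ≤ K') (l : ℕ) (Y : ℤ) : d.ms K l Y ≤ d.ms K' l Y := by
  unfold ms
  split_ifs
  · exact h
  · gcongr
  · exact le_rfl

theorem tsb_one_ms {d : Dt} {K : ℝ} (h : 1 ≤ K) (l : ℕ) (Y : ℤ) : 1 ≤ d.ms K l Y := by
  unfold ms
  split_ifs
  · exact h
  · have : 0 ≤ K / l := by positivity
    linarith
  · exact le_rfl

theorem tsb_aa {d : Dt} {K K' : ℝ} (h : K ≤ K') (l : ℕ) (Y : ℤ) : d.aa K l Y ≤ d.aa K' l Y := by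
  unfold aa
  split_ifs <;> linarith

theorem tsb_jac {l : ℕ} (hl : l.Prime) {a : ℤ} (h : (l : ℤ) ∣ a) : jacobiSym a l = 0 := by
  rw [jacobiSym.mod_left, Int.emod_eq_zero_of_dvd h, jacobiSym.zero_left hl.one_lt]

theorem ls_ram' : ∃ K : ℝ, 1 ≤ K ∧ ∀ (d : Dt) (κ : ℕ), d.Good κ → ∀ l : ℕ, l.Prime → ¬ d.Dom l →
    ¬ (l : ℤ) ∣ 2 * d.n * d.p → (l : ℤ) ∣ d.E → (l : ℤ) ∣ d.a → ∀ Y : ℤ,
    LS K l {X | d.B X Y ≠ 0} (fun X => d.B X Y) (fun X => d.Wt l X Y) (fun X => d.mu l X Y)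
      (d.ms K l Y) (d.aa K l Y) := by
  refine ⟨3840, by norm_num, fun d κ h l hl hD h1 hE ha Y => ?_⟩
  have hp := tqd_prime hl
  have h2 : l ≠ 2 := fun e => h1 (by
    rw [e, mul_assoc]
    exact Dvd.intro _ rfl)
  obtain ⟨hb, hc⟩ := not_dvd_c h hl ha hE
  have hm := (val_m h hl hD).2 h1
  have hJ : jacobiSym (d.G ^ 2 * d.E) l = 0 := tsb_jac hl (hE.mul_left _)
  have hma : (l : ℤ) ∣ d.m * d.a := ha.mul_left _
  have hW : ∀ X, d.Wt l X Y = if ¬ (l : ℤ) ∣ d.x₂ X Y then 1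
      else if ¬ (l : ℤ) ∣ d.Δ₂ X then 1 + (jacobiSym (d.Δ₂ X) l : ℝ) else d.W5 l X Y := fun X => by
    unfold Wt xe Δe
    rw [if_neg hD, if_neg h1, if_neg (not_not.2 hE), if_pos ha, if_pos ha]
  by_cases hY : (l : ℤ) ∣ Y
  swap
  · have h3 : ¬ (l : ℤ) ∣ d.Δ₁ Y := fun h3 => hY (hp.dvd_of_dvd_pow (n := 2) (by
      have := dvd_add h3 (hma.mul_left 4)
      rwa [Δ₁, sub_add_cancel] at this))
    refine ls_one (by norm_num) (tsb_one_ms (by norm_num) _ _) ?_ _ _ _ (fun X _ => ?_) _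
    · unfold aa
      rw [if_neg h1, if_pos hma, if_neg h3, hJ]
      simp
    · rw [hW, if_pos]
      intro h4
      have h5 : (l : ℤ) ∣ 2 * d.c * Y := (dvd_add_left (hb.mul_right X)).1 h4
      exact hY ((hp.dvd_or_dvd h5).resolve_left fun h6 =>
        (hp.dvd_or_dvd h6).elim (tqd_not_two hl h2) hc)
  have h3 : (l : ℤ) ∣ d.Δ₁ Y := dvd_sub (hY.trans (dvd_pow_self _ two_ne_zero)) (hma.mul_left 4)
  have haa : d.aa 3840 l Y = 3840 := by
    unfold aa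
    rw [if_neg h1, if_pos hma, if_pos h3, hJ]
    simp
  have hms : d.ms 3840 l Y = 1 + 3840 / l := by
    unfold ms
    rw [if_neg h1, if_pos h3]
  have hmu : ∀ X, d.mu l X Y = 2 * d.ie l X Y + 1 := fun X => by
    unfold mu
    rw [if_pos ⟨hE, ha, hY⟩]
  have hx : ∀ X, (l : ℤ) ∣ d.x₂ X Y := fun X => dvd_add (hY.mul_left _) (hb.mul_right _)
  have h4 : ¬ (l : ℤ) ∣ 4 * (d.m * d.c) := fun h4 => by
    rcases hp.dvd_or_dvd h4 with h5 | h5
    · exact tqd_not_two hl h2 (hp.dvd_of_dvd_pow (n := 2) (by simpa using h5))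
    · exact (hp.dvd_or_dvd h5).elim hm hc
  have hl0 : (0 : ℝ) < l := by exact_mod_cast hl.pos
  have hl2 : (2 : ℝ) ≤ l := by exact_mod_cast hl.two_le
  rw [haa, hms]
  have p1 : LS 3840 l {X | ¬ (l : ℤ) ∣ d.Δ₂ X} (fun X => d.B X Y) (fun X => d.Wt l X Y)
      (fun X => d.mu l X Y) 1 3840 := by
    refine tsb_idx (range l) (fun _ => 1) (fun r => r)
      (fun r => 1 + (jacobiSym (d.Δ₂ r) l : ℝ)) (fun _ _ _ => False) (fun _ _ => 1)
      (fun r _ => ⟨?_, tsb_lv (by norm_num) (by norm_num)⟩) ?_ fun X hX => Or.inr ?_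
    · rcases jacobiSym.trichotomy (d.Δ₂ r) l with e | e | e <;> simp [e]
    · have h5 : ∑ r ∈ range l, (jacobiSym (d.Δ₂ r) l : ℝ) = -1 := by
        exact_mod_cast sum_jac_sq hl h2 h4
      rw [← sum_div, sum_add_distrib, h5, pow_one, div_le_one hl0]
      simp
    · obtain ⟨r, y, h5, h6⟩ := tsb_res hl.pos X
      refine ⟨r, mem_range.2 h5, y, 0, by rw [hmu]; omega, by rw [pow_one]; exact h6,
        ⟨fun _ => not_false, fun e => absurd e (lt_irrefl 0)⟩, by simp, ?_⟩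
      have h7 : jacobiSym (d.Δ₂ X) l = jacobiSym (d.Δ₂ r) l :=
        jacobiSym.mod_left' (Int.modEq_iff_dvd.2 ⟨-y * (X + r), by
          simp only [Δ₂]
          linear_combination (-(X + r)) * h6⟩)
      rw [hW, if_neg (not_not.2 (hx X)), if_pos (show ¬ (l : ℤ) ∣ d.Δ₂ X from hX), h7,
        mul_one]
  have p2 : LS 1 l {X | d.B X Y ≠ 0 ∧ (l : ℤ) ∣ d.Δ₂ X} (fun X => d.B X Y) (fun X => d.Wt l X Y)
      (fun X => d.mu l X Y) (3840 / l) 2 := by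
    refine tsb_quad hl (content h hl Y rfl) (range (padicValInt l d.E + 1))
      (fun i => max (2 * i) 1) (fun i X => (l : ℤ) ^ max (2 * i) 1 ∣ d.Δ₂ X)
      (fun i => 16 * (l : ℝ) ^ i * (6 * i + ((0 : ℕ) + 9))) (fun i => by positivity)
      (fun i x y => tsb_D2) (fun X => B_eq X Y) ?_ fun X hX => ⟨hX.1, d.ie l X Y,
        mem_range.2 (tsb_ie h hl X Y), by rw [hmu]; omega, ?_, fun k hk => ?_⟩
    · refine le_trans (sum_le_sum (g := fun i : ℕ => 128 / (l : ℝ) * ((6 * i + 9) / 2 ^ i))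
        fun i _ => ?_) ?_
      · have h5 : (cnt (l ^ max (2 * i) 1) fun X => (l : ℤ) ^ max (2 * i) 1 ∣ d.Δ₂ X) ≤ 4 := by
          have := cnt_sq_le' hl (max (2 * i) 1) 0 (a := 4 * (d.m * d.c))
            fun h5 => h4 ((dvd_pow_self _ (by norm_num)).trans h5)
          rw [pow_zero, mul_one] at this
          exact this
        have h6 : ((cnt (l ^ max (2 * i) 1) fun X =>
            (l : ℤ) ^ max (2 * i) 1 ∣ d.Δ₂ X : ℕ) : ℝ) ≤ 4 := by exact_mod_cast h5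
        have h7 : (l : ℝ) ^ i / (l : ℝ) ^ max (2 * i) 1 ≤ 2 / l / 2 ^ i := by
          cases i with
          | zero =>
            simp only [pow_zero, mul_zero, div_one]
            rw [max_eq_right (by norm_num), pow_one]
            gcongr
            norm_num
          | succ j =>
            rw [max_eq_left (by omega), div_div, div_le_div_iff₀ (by positivity) (by positivity)]
            have h8 : (2 : ℝ) ^ j ≤ (l : ℝ) ^ j := pow_le_pow_left₀ (by norm_num) hl2 j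
            calc (l : ℝ) ^ (j + 1) * (l * 2 ^ (j + 1)) = 2 * (l : ℝ) ^ (j + 2) * 2 ^ j := by ring
              _ ≤ 2 * (l : ℝ) ^ (j + 2) * (l : ℝ) ^ j := by gcongr
              _ = _ := by ring
        calc _ ≤ 4 * (16 * (l : ℝ) ^ i * (6 * i + ((0 : ℕ) + 9)) / (l : ℝ) ^ max (2 * i) 1) := by
              gcongr
          _ = 64 * (6 * i + 9) * ((l : ℝ) ^ i / (l : ℝ) ^ max (2 * i) 1) := by
              push_cast
              ring
          _ ≤ 64 * (6 * i + 9) * (2 / l / 2 ^ i) := by gcongr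
          _ = _ := by ring
      · rw [← mul_sum]
        refine (mul_le_mul_of_nonneg_left (tsb_geo_le (by norm_num) (by norm_num) _)
          (by positivity)).trans (le_of_eq (by ring))
    · have h5 := (ie_spec h hl X Y).2.1
      rw [Δe, if_pos ha] at h5
      rcases le_total (2 * d.ie l X Y) 1 with h6 | h6
      · rw [max_eq_right h6, pow_one]
        exact hX.2
      · rwa [max_eq_left h6]
    · rw [hW, if_neg (not_not.2 (hx X)), if_neg (not_not.2 hX.2)]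
      exact tsb_W5 hl hX.1 (padicValInt.eq_zero_of_not_dvd hm).le (by omega) hk
  refine (tsb_union p1 (p2.mono (by norm_num) subset_rfl (fun _ _ => le_rfl) (fun _ _ => le_rfl)
    le_rfl (by norm_num))).mono le_rfl (fun X hX => ?_) (fun _ _ => le_rfl) (fun _ _ => le_rfl)
    le_rfl le_rfl
  by_cases h5 : (l : ℤ) ∣ d.Δ₂ X
  · exact Or.inr ⟨hX, h5⟩
  · exact Or.inl h5

theorem ls_bdd (L v : ℕ) : ∃ K : ℝ, 1 ≤ K ∧ ∀ (d : Dt) (κ : ℕ), d.Good κ → ∀ l : ℕ, l.Prime →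
    l ≤ L → padicValInt l d.m ≤ v → ∀ Y : ℤ,
    LS 1 l {X | d.B X Y ≠ 0} (fun X => d.B X Y) (fun X => d.W5 l X Y) (fun X => 2 * d.ie l X Y)
      K 2 := by
  refine ⟨64 * (L : ℝ) ^ (v + 1) * (2 * 6 + 2 * (v + 9)) + 1, ?_,
    fun d κ h l hl hL hv Y => ?_⟩
  · have : 0 ≤ 64 * (L : ℝ) ^ (v + 1) * (2 * 6 + 2 * (v + 9)) := by positivity
    linarith
  have : Fact l.Prime := ⟨hl⟩
  have hp := tqd_prime hl
  have hl0 : (0 : ℝ) < l := by exact_mod_cast hl.pos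
  have hl2 : (2 : ℝ) ≤ l := by exact_mod_cast hl.two_le
  have hm : d.m ≠ 0 := mul_ne_zero h.n_ne
    (Int.natCast_ne_zero.2 (Nat.mul_pos h.g₁_pos h.g₂_pos).ne')
  refine tsb_quad hl (content h hl Y rfl) (range (padicValInt l d.E + 1)) (fun i => 2 * i)
    (fun i X => (l : ℤ) ^ (2 * i) ∣ d.E ∧
      if (l : ℤ) ∣ d.a then (l : ℤ) ^ (2 * i) ∣ d.Δ₂ X else (l : ℤ) ^ (2 * i) ∣ d.x₁ X Y)
    (fun i => 16 * (l : ℝ) ^ i * (6 * i + (v + 9))) (fun i => by positivity)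
    (fun i x y h1 h2 => ⟨h2.1, ?_⟩) (fun X => B_eq X Y) ?_ fun X hX => ⟨hX, d.ie l X Y,
      mem_range.2 (tsb_ie h hl X Y), le_rfl, ?_, fun k hk => tsb_W5 hl hX hv (by omega) hk⟩
  · have h3 := h2.2
    split_ifs at h3 ⊢
    · exact tsb_D2 h1 h3
    · have := dvd_sub h3 (h1.mul_left (2 * d.a))
      rwa [show d.x₁ x Y - 2 * d.a * (x - y) = d.x₁ y Y by simp only [x₁]; ring] at this
  · refine le_trans (sum_le_sum
      (g := fun i : ℕ => 64 * (L : ℝ) ^ (v + 1) * ((6 * i + (v + 9)) / 2 ^ i)) fun i _ => ?_) ?_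
    · have h5 : (cnt (l ^ (2 * i)) fun X => (l : ℤ) ^ (2 * i) ∣ d.E ∧
          if (l : ℤ) ∣ d.a then (l : ℤ) ^ (2 * i) ∣ d.Δ₂ X else (l : ℤ) ^ (2 * i) ∣ d.x₁ X Y) ≤
          4 * l ^ (v + 1) := by
        have h4 : 1 ≤ l ^ (v + 1) := Nat.one_le_pow _ _ hl.pos
        rcases Nat.eq_zero_or_pos i with rfl | hi
        · exact (tqd_le_one fun x y _ _ => by simp).trans (by omega)
        by_cases hE : (l : ℤ) ^ (2 * i) ∣ d.E
        swap
        · rw [tqd_zero fun ⟨_, hx⟩ => hE hx.1]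
          exact Nat.zero_le _
        by_cases ha : (l : ℤ) ∣ d.a
        · have hc := (not_dvd_c h hl ha ((dvd_pow_self _ (by omega)).trans hE)).2
          have hc0 : d.c ≠ 0 := fun e => hc (e ▸ dvd_zero _)
          rw [tqd_congr (A' := fun X => (l : ℤ) ^ (2 * i) ∣ X ^ 2 - 4 * (d.m * d.c))
            fun X => by rw [if_pos ha, and_iff_right hE, Δ₂]]
          refine cnt_sq_le' hl _ _ fun h6 => ?_
          have h7 := ((padicValInt_dvd_iff _ _).1 h6).resolve_left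
            (mul_ne_zero (by norm_num) (mul_ne_zero hm hc0))
          have h8 := tsb_four hl (mul_ne_zero hm hc0)
          rw [padicValInt.mul hm hc0, padicValInt.eq_zero_of_not_dvd hc] at h8
          omega
        · rw [tqd_congr (A' := fun X => (l : ℤ) ^ (2 * i) ∣ 2 * d.a * X + d.b * Y)
            fun X => by rw [if_neg ha, and_iff_right hE, x₁, add_comm]]
          exact (cnt_lin_le hl _ ha _).trans (by omega)
      have h6 : ((cnt (l ^ (2 * i)) fun X => (l : ℤ) ^ (2 * i) ∣ d.E ∧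
          if (l : ℤ) ∣ d.a then (l : ℤ) ^ (2 * i) ∣ d.Δ₂ X
          else (l : ℤ) ^ (2 * i) ∣ d.x₁ X Y : ℕ) : ℝ) ≤ 4 * (L : ℝ) ^ (v + 1) := by
        exact_mod_cast h5.trans (Nat.mul_le_mul_left 4 (Nat.pow_le_pow_left hL _))
      have h7 : (l : ℝ) ^ i / (l : ℝ) ^ (2 * i) ≤ 1 / 2 ^ i := by
        rw [div_le_div_iff₀ (by positivity) (by positivity)]
        have h8 : (2 : ℝ) ^ i ≤ (l : ℝ) ^ i := pow_le_pow_left₀ (by norm_num) hl2 i
        calc (l : ℝ) ^ i * 2 ^ i ≤ (l : ℝ) ^ i * (l : ℝ) ^ i := by gcongr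
          _ = _ := by ring
      calc _ ≤ 4 * (L : ℝ) ^ (v + 1) *
            (16 * (l : ℝ) ^ i * (6 * i + (v + 9)) / (l : ℝ) ^ (2 * i)) := by gcongr
        _ = 64 * (L : ℝ) ^ (v + 1) * (6 * i + (v + 9)) * ((l : ℝ) ^ i / (l : ℝ) ^ (2 * i)) := by
            ring
        _ ≤ 64 * (L : ℝ) ^ (v + 1) * (6 * i + (v + 9)) * (1 / 2 ^ i) := by gcongr
        _ = _ := by ring
    · rw [← mul_sum]
      refine (mul_le_mul_of_nonneg_left (tsb_geo_le (by norm_num) (by positivity) _)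
        (by positivity)).trans (by linarith)
  · obtain ⟨a1, a2, a3, -⟩ := ie_spec h hl X Y
    refine ⟨a3, ?_⟩
    unfold xe at a1
    unfold Δe at a2
    split_ifs at a1 a2 ⊢
    · exact a2
    · exact a1

open Classical in
theorem ls_std (n : ℤ) (p κ : ℕ) : ∃ K : ℝ, 1 ≤ K ∧ ∀ d : Dt, d.Good κ → d.n = n → d.p = p →
    ∀ l : ℕ, l.Prime → ∀ Y : ℤ,
    LS K l {X | d.B X Y ≠ 0} (fun X => d.B X Y) (fun X => d.Wt l X Y)
      (fun X => if d.Dom l then 0 else d.mu l X Y) (d.ms K l Y) (d.aa K l Y) := by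
  obtain ⟨K₁, k1, h1⟩ := ls_bdd (2 * n * p).natAbs (2 * n.natAbs + κ + 2)
  obtain ⟨K₂, k2, h2⟩ := ls_ram
  obtain ⟨K₃, k3, h3⟩ := ls_ram'
  refine ⟨K₁ + K₂ + K₃ + 9, by linarith, fun d h hn hp l hl Y => ?_⟩
  subst hn hp
  have hK : (1 : ℝ) ≤ K₁ + K₂ + K₃ + 9 := by linarith
  by_cases hD : d.Dom l
  · refine ls_one hK (tsb_one_ms hK _ _) ?_ _ _ _ (fun X _ => ?_) _
    · unfold aa
      by_cases h4 : (l : ℤ) ∣ 2 * d.n * d.p
      · rw [if_pos h4]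
        linarith
      have h5 : (l : ℤ) ∣ d.G := Int.natCast_dvd_natCast.2 (hD.2.elim
        (fun h5 => dvd_of_one_le_padicValNat (by omega)) fun h5 => h5.2)
      have h6 : (l : ℤ) ∣ d.m * d.a := (h5.mul_left d.n).mul_right d.a
      rw [if_neg h4, if_pos h6,
        tsb_jac hl ((h5.trans (dvd_pow_self _ two_ne_zero)).mul_right _)]
      split_ifs
      · push_cast
        linarith
      · simp
    · unfold Wt
      rw [if_pos hD]
  simp only [if_neg hD]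
  by_cases h4 : (l : ℤ) ∣ 2 * d.n * d.p
  · have h5 : 2 * d.n * d.p ≠ 0 := mul_ne_zero (mul_ne_zero two_ne_zero h.n_ne)
      (Int.natCast_ne_zero.2 h.prime.ne_zero)
    refine (h1 d κ h l hl (Nat.le_of_dvd (Int.natAbs_pos.2 h5) (Int.natCast_dvd.1 h4))
      (val_m h hl hD).1 Y).mono hK subset_rfl (fun X _ => ?_) (fun X _ => Nat.le_add_right _ _)
      ?_ ?_
    · unfold Wt
      rw [if_neg hD, if_pos h4]
    · unfold ms
      rw [if_pos h4]
      linarith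
    · unfold aa
      rw [if_pos h4]
      linarith
  by_cases hE : (l : ℤ) ∣ d.E
  swap
  · exact (ls_unr h hl hD h4 hE Y).mono (by linarith) subset_rfl (fun _ _ => le_rfl)
      (fun _ _ => Nat.zero_le _) (tsb_one_ms hK _ _) (tsb_aa (by linarith) _ _)
  by_cases ha : (l : ℤ) ∣ d.a
  · exact (h3 d κ h l hl hD h4 hE ha Y).mono (by linarith) subset_rfl (fun _ _ => le_rfl)
      (fun _ _ => le_rfl) (tsb_ms (by linarith) _ _) (tsb_aa (by linarith) _ _)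
  · exact (h2 d κ h l hl hD h4 hE ha Y).mono (by linarith) subset_rfl (fun _ _ => le_rfl)
      (fun _ _ => le_rfl) (tsb_ms (by linarith) _ _) (tsb_aa (by linarith) _ _)

end Dt

end Pool.Agent.EQ
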