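import Pool.Agent.P.MP_ad7a55_nt.TLv
import Pool.Agent.P.MP_ad7a55_nt.TPr

/-! The sieve in residue classes. -/

set_option autoImplicit false

noncomputable section

open Finset

namespace Pool.Agent.EQ

theorem tsha_exp {P : Finset ℕ} {c : ℕ → ℕ} {y : ℕ} (hP : ∀ l ∈ P, l.Prime ∧ l ≤ y)
    (hc : ∀ l ∈ P, c l ≤ 2) (hy : 1 ≤ y) :
    Real.exp (∑ l ∈ P, (c l : ℝ) / l) ≤ 4 * Real.exp 14 * y := by
  have h14 : (1 : ℝ) ≤ Real.exp 14 := Real.one_le_exp (by norm_num)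
  have hy' : (1 : ℝ) ≤ y := by exact_mod_cast hy
  rcases hy.eq_or_lt with h | h
  · have : P = ∅ := eq_empty_of_forall_notMem fun l hl => by
      have := (hP l hl).1.two_le
      have := (hP l hl).2
      omega
    rw [this, sum_empty, Real.exp_zero]
    nlinarith
  · have h1 : ∑ l ∈ P, (c l : ℝ) / l ≤ 2 * ∑ p ∈ Nat.primesLE y, 1 / (p : ℝ) := by
      rw [mul_sum]
      refine (sum_le_sum fun l hl => ?_).trans (sum_le_sum_of_subset_of_nonneg
        (fun l hl => Nat.mem_primesLE.2 ⟨(hP l hl).2, (hP l hl).1⟩) fun _ _ _ => by positivity)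
      rw [mul_one_div]
      have : (c l : ℝ) ≤ 2 := by exact_mod_cast hc l hl
      gcongr
    have h2 := Pool.Agent.Lib.Sieve.sum_inv_primes_le (y := y) h
    have hl : 0 < Real.log y := Real.log_pos (by exact_mod_cast h)
    have h3 : Real.log y ≤ (y : ℝ) ^ (1 / 2 : ℝ) / (1 / 2) :=
      Real.log_le_rpow_div (by positivity) (by norm_num)
    have h4 : ((y : ℝ) ^ (1 / 2 : ℝ)) ^ 2 = y := by
      rw [← Real.rpow_natCast, ← Real.rpow_mul (by positivity)]; norm_num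
    have h5 : Real.log y ^ 2 ≤ 4 * (y : ℝ) := by
      calc Real.log y ^ 2 ≤ ((y : ℝ) ^ (1 / 2 : ℝ) / (1 / 2)) ^ 2 := by gcongr
        _ = 4 * (y : ℝ) := by rw [div_pow, h4]; ring
    calc Real.exp (∑ l ∈ P, (c l : ℝ) / l)
        ≤ Real.exp (Real.log (Real.log y) + Real.log (Real.log y) + 14) :=
          Real.exp_le_exp.2 (by linarith)
      _ = Real.log y ^ 2 * Real.exp 14 := by
          rw [Real.exp_add, Real.exp_add, Real.exp_log hl]; ring
      _ ≤ 4 * y * Real.exp 14 := by gcongr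
      _ = _ := by ring

theorem tsha_class (P : Finset ℕ) (Ω : ℕ → ℤ → Prop) {m y : ℕ} (M : ℕ) (x₁ : ℤ) (S : Finset ℤ)
    (hy : 8 ≤ y) (hP : ∀ p ∈ P, p.Prime ∧ 4 ≤ p ∧ p ≤ y)
    (hco : ∀ p ∈ P, IsCoprime (m : ℤ) p)
    (hper : ∀ p ∈ P, ∀ x x', (p : ℤ) ∣ x - x' → Ω p x → Ω p x')
    (hc : ∀ p ∈ P, cnt p (Ω p) ≤ 2)
    (hS : ∀ x ∈ S, ∃ t : ℕ, t < M ∧ x = x₁ + m * t ∧ ∀ p ∈ P, ¬ Ω p x) :
    (S.card : ℝ) ≤ 2 * M * Real.exp (-∑ p ∈ P, (cnt p (Ω p) : ℝ) / p) + 2 * (y : ℝ) ^ 36 := by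
  classical
  let W : ℕ → Finset ℕ := fun p => (range p).filter fun i : ℕ => Ω p (x₁ + m * i)
  have hW : ∀ p ∈ P, (W p).card = cnt p (Ω p) := fun p hp => by
    rw [← cnt_affine (hP p hp).1.pos (hper p hp) x₁ (hco p hp)]
    rfl
  have h1 := Pool.Agent.Lib.Sieve.sieve_upper W P hy hP (fun p _ => filter_subset _ _)
    (fun p hp => (hW p hp).le.trans (hc p hp)) M
  rw [sum_congr rfl fun p hp => by rw [hW p hp]] at h1
  refine le_trans ?_ h1
  have h2 : S ⊆ ((range M).filter fun n => ∀ p ∈ P, n % p ∉ W p).image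
      fun t : ℕ => x₁ + m * t := by
    intro x hx
    obtain ⟨t, ht, e, h⟩ := hS x hx
    refine mem_image.2 ⟨t, mem_filter.2 ⟨mem_range.2 ht, fun p hp hm => h p hp ?_⟩, e.symm⟩
    refine hper p hp _ _ ?_ (mem_filter.1 hm).2
    refine ⟨-(m * (t / p : ℕ)), ?_⟩
    have := Nat.mod_add_div t p
    have e2 : (t : ℤ) = (t % p : ℕ) + p * (t / p : ℕ) := by exact_mod_cast this.symm
    rw [e]
    linear_combination (-(m : ℤ)) * e2
  exact_mod_cast (card_le_card h2).trans card_image_le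

theorem tsha_log {N j A : ℕ} {ε : ℝ} (hε : 0 < ε) (h : 2 ^ j ≤ N ^ A) :
    (j : ℝ) ≤ 2 * A * (N : ℝ) ^ ε / ε := by
  have h1 : (2 : ℝ) ^ j ≤ (N : ℝ) ^ A := by exact_mod_cast h
  have h2 := Real.log_le_log (by positivity) h1
  rw [Real.log_pow, Real.log_pow] at h2
  have h3 : Real.log N ≤ (N : ℝ) ^ ε / ε := Real.log_le_rpow_div (by positivity) hε
  have h4 := Real.log_two_gt_d9
  have h5 : (A : ℝ) * Real.log N ≤ A * ((N : ℝ) ^ ε / ε) := by gcongr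
  have h6 : (0 : ℝ) ≤ j := by positivity
  calc (j : ℝ) ≤ 2 * (j * Real.log 2) := by nlinarith
    _ ≤ 2 * (A * ((N : ℝ) ^ ε / ε)) := by linarith
    _ = _ := by ring

theorem tsha_pow (N n : ℕ) : ((N : ℝ) ^ (1 / 16 : ℝ)) ^ n = (N : ℝ) ^ ((n : ℝ) / 16) := by
  rw [← Real.rpow_natCast, ← Real.rpow_mul (by positivity)]
  congr 1
  ring

theorem tsha_div {N q : ℕ} (hN : 1 ≤ N) (h : N ≤ q ^ 4) :
    (N : ℝ) / q + 1 ≤ 2 * ((N : ℝ) ^ (1 / 16 : ℝ)) ^ 12 := by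
  set u := (N : ℝ) ^ (1 / 16 : ℝ) with hu
  have h1 : 1 ≤ u := Real.one_le_rpow (by exact_mod_cast hN) (by norm_num)
  have h2 : u ^ 16 = N := by rw [hu, tsha_pow]; norm_num
  have h3 : u ^ 4 ≤ q := by
    refine le_of_pow_le_pow_left₀ (n := 4) (by norm_num) (by positivity) ?_
    rw [← pow_mul, h2]
    exact_mod_cast h
  have h4 : (N : ℝ) / q ≤ u ^ 12 := by
    rw [div_le_iff₀ (lt_of_lt_of_le (by positivity) h3), ← h2]
    calc u ^ 16 = u ^ 12 * u ^ 4 := by ring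
      _ ≤ _ := by gcongr
  have h5 : 1 ≤ u ^ 12 := one_le_pow₀ h1
  linarith

theorem sieve_cls : ∃ C : ℝ, 0 < C ∧ ∀ (P Q : Finset ℕ) (Ω : ℕ → ℕ → ℤ → Prop) (k : ℕ → ℕ)
    (y N : ℕ) (x₀ : ℤ) (S : Finset ℤ), (∀ l ∈ P, l.Prime) → Q ⊆ P →
    (∀ l ∈ P, ∀ j x x', (l : ℤ) ^ j ∣ x - x' → Ω l j x → Ω l j x') →
    (∀ l ∈ P, cnt l (Ω l 1) ≤ 2) → 1 ≤ y → (∏ l ∈ Q, l ^ k l) * y ^ 37 ≤ N →
    (∀ x ∈ S, x₀ ≤ x ∧ x < x₀ + N ∧ (∀ l ∈ Q, Ω l (k l) x) ∧
      ∀ l ∈ P, l ∉ Q → l ≤ y → ¬ Ω l 1 x) →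
    (S.card : ℝ) ≤ C * N * (∏ l ∈ Q, (cnt (l ^ k l) (Ω l (k l)) : ℝ) / (l : ℝ) ^ k l) *
      Real.exp (-∑ l ∈ (P \ Q).filter (fun l => l ≤ y), (cnt l (Ω l 1) : ℝ) / l) := by
  classical
  refine ⟨4 * Real.exp 2 + 64 * Real.exp 14, by positivity, ?_⟩
  intro P Q Ω k y N x₀ S hP hQ hper hc hy hN hS
  set m := ∏ l ∈ Q, l ^ k l with hm
  have hm0 : 0 < m := prod_pos fun l hl => pow_pos (hP l (hQ hl)).pos _
  have hm' : (0 : ℝ) < m := by exact_mod_cast hm0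
  have hy' : (1 : ℝ) ≤ y := by exact_mod_cast hy
  have hN' : (m : ℝ) * (y : ℝ) ^ 37 ≤ N := by exact_mod_cast hN
  let A : ℤ → Prop := fun x => ∀ l ∈ Q, Ω l (k l) x
  have hA : ∀ x x', (m : ℤ) ∣ x - x' → A x → A x' := fun x x' h hx l hl => by
    refine hper l (hQ hl) _ _ _ (dvd_trans ?_ h) (hx l hl)
    exact_mod_cast Int.natCast_dvd_natCast.2 (dvd_prod_of_mem (fun l => l ^ k l) hl)
  have hcp : cnt m A = ∏ l ∈ Q, cnt (l ^ k l) (Ω l (k l)) :=
    cnt_prod Q (fun l hl => hP l (hQ hl)) k (fun l => Ω l (k l))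
      fun l hl x x' h => hper l (hQ hl) _ x x' h
  have hpr : ∏ l ∈ Q, (cnt (l ^ k l) (Ω l (k l)) : ℝ) / (l : ℝ) ^ k l = cnt m A / m := by
    rw [prod_div_distrib, hcp, hm]; push_cast; rfl
  set T := ∑ l ∈ (P \ Q).filter (fun l => l ≤ y), (cnt l (Ω l 1) : ℝ) / l with hT
  have hE : Real.exp T ≤ 4 * Real.exp 14 * y :=
    tsha_exp (c := fun l => cnt l (Ω l 1)) (fun l hl =>
      ⟨hP l (mem_sdiff.1 (mem_filter.1 hl).1).1, (mem_filter.1 hl).2⟩)
      (fun l hl => hc l (mem_sdiff.1 (mem_filter.1 hl).1).1) hy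
  have hE' : 1 ≤ 4 * Real.exp 14 * y * Real.exp (-T) := by
    rw [Real.exp_neg, ← div_eq_mul_inv, le_div_iff₀ (Real.exp_pos _), one_mul]
    exact hE
  have hD : (y : ℝ) ^ 37 ≤ N / m := by rw [le_div_iff₀ hm']; linarith
  have hD1 : (1 : ℝ) ≤ N / m := (one_le_pow₀ hy').trans hD
  have hc0 : (0 : ℝ) ≤ cnt m A := by positivity
  have hx0 := Real.exp_pos (-T)
  have h14 := Real.exp_pos 14
  have h2 := Real.exp_pos 2
  rw [hpr]
  have hgoal : ∀ B : ℝ, (S.card : ℝ) ≤ cnt m A * B →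
      B ≤ (4 * Real.exp 2 + 64 * Real.exp 14) * (N / m) * Real.exp (-T) →
      (S.card : ℝ) ≤ (4 * Real.exp 2 + 64 * Real.exp 14) * N * (cnt m A / m) * Real.exp (-T) := by
    intro B h1 h2
    refine h1.trans ((mul_le_mul_of_nonneg_left h2 hc0).trans_eq ?_)
    ring
  by_cases h8 : 8 ≤ y
  swap
  · refine hgoal _ (card_le_cnt hm0 hA x₀ N S fun x hx =>
      ⟨(hS x hx).1, (hS x hx).2.1, (hS x hx).2.2.1⟩) ?_
    have hy8 : (y : ℝ) ≤ 8 := by exact_mod_cast (not_le.1 h8).le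
    have h3 : 1 ≤ 32 * (Real.exp 14 * Real.exp (-T)) := by
      have := mul_pos h14 hx0
      nlinarith
    have h4 : 0 ≤ Real.exp 2 * (N / m) * Real.exp (-T) := by positivity
    nlinarith
  · let P' := (P \ Q).filter fun l => 4 ≤ l ∧ l ≤ y
    have hP' : ∀ l ∈ P', l ∈ P ∧ l ∉ Q ∧ 4 ≤ l ∧ l ≤ y := fun l hl =>
      ⟨(mem_sdiff.1 (mem_filter.1 hl).1).1, (mem_sdiff.1 (mem_filter.1 hl).1).2,
        (mem_filter.1 hl).2⟩
    set T' := ∑ l ∈ P', (cnt l (Ω l 1) : ℝ) / l with hT'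
    have hTT : T ≤ T' + 2 := by
      have e : T ≤ ∑ l ∈ P' ∪ ({2, 3} ∩ P), (cnt l (Ω l 1) : ℝ) / l := by
        refine sum_le_sum_of_subset_of_nonneg (fun l hl => ?_) fun _ _ _ => by positivity
        have h1 := mem_filter.1 hl
        have h2 := (hP l (mem_sdiff.1 h1.1).1).two_le
        by_cases h4 : 4 ≤ l
        · exact mem_union_left _ (mem_filter.2 ⟨h1.1, h4, h1.2⟩)
        · refine mem_union_right _ (mem_inter.2 ⟨?_, (mem_sdiff.1 h1.1).1⟩)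
          simp only [mem_insert, mem_singleton]
          omega
      have e2 : ∑ l ∈ ({2, 3} ∩ P : Finset ℕ), (cnt l (Ω l 1) : ℝ) / l ≤ 2 := by
        calc _ ≤ ∑ _l ∈ ({2, 3} ∩ P : Finset ℕ), (1 : ℝ) := by
              refine sum_le_sum fun l hl => ?_
              have h1 := (hP l (mem_inter.1 hl).2).two_le
              have h2 := hc l (mem_inter.1 hl).2
              exact div_le_one_of_le₀ (by exact_mod_cast h2.trans h1) (by positivity)
          _ ≤ 2 := by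
              rw [sum_const, nsmul_eq_mul, mul_one]
              exact_mod_cast (card_le_card inter_subset_left).trans card_le_two
      have e3 := sum_union_inter (s₁ := P') (s₂ := {2, 3} ∩ P)
        (f := fun l => (cnt l (Ω l 1) : ℝ) / l)
      have e4 : 0 ≤ ∑ l ∈ P' ∩ ({2, 3} ∩ P), (cnt l (Ω l 1) : ℝ) / l :=
        sum_nonneg fun _ _ => by positivity
      linarith
    have hco : ∀ p ∈ P', IsCoprime (m : ℤ) p := fun p hp => by
      rw [Nat.isCoprime_iff_coprime]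
      refine Nat.Coprime.prod_left fun l hl => Nat.Coprime.pow_left _ ?_
      exact (Nat.coprime_primes (hP l (hQ hl)) (hP p (hP' p hp).1)).2
        fun e => (hP' p hp).2.1 (e ▸ hl)
    let R := (range m).filter fun r : ℕ => A r
    have hR : R.card = cnt m A := by
      unfold cnt
      congr 1
      ext r
      simp only [R, mem_filter]
    have hmz : (0 : ℤ) < m := by exact_mod_cast hm0
    have hsub : S ⊆ R.biUnion fun r => S.filter fun x => (m : ℤ) ∣ x - r := by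
      intro x hx
      have e : ((x % m).toNat : ℤ) = x % m := Int.toNat_of_nonneg (Int.emod_nonneg _ hmz.ne')
      have hd : (m : ℤ) ∣ x - (x % m).toNat := by rw [e]; exact Int.dvd_self_sub_emod
      refine mem_biUnion.2 ⟨(x % m).toNat, mem_filter.2 ⟨mem_range.2 ?_, ?_⟩,
        mem_filter.2 ⟨hx, hd⟩⟩
      · have := Int.emod_lt_of_pos x hmz
        omega
      · exact hA _ _ hd (hS x hx).2.2.1
    have hone : ∀ r ∈ R, ((S.filter fun x => (m : ℤ) ∣ x - r).card : ℝ) ≤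
        2 * (N / m + 1 : ℕ) * Real.exp (-T') + 2 * (y : ℝ) ^ 36 := by
      intro r _
      refine tsha_class P' (fun l => Ω l 1) (N / m + 1) (x₀ + (r - x₀) % m) _ h8
        (fun p hp => ⟨hP p (hP' p hp).1, (hP' p hp).2.2⟩) hco
        (fun p hp x x' h => hper p (hP' p hp).1 1 x x' (by rwa [pow_one]))
        (fun p hp => hc p (hP' p hp).1) fun x hx => ?_
      obtain ⟨hx, hd⟩ := mem_filter.1 hx
      obtain ⟨a1, a2, -, a4⟩ := hS x hx
      have e0 : 0 ≤ (x - x₀) / m := Int.ediv_nonneg (by omega) hmz.le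
      have e1 : (((x - x₀) / m).toNat : ℤ) = (x - x₀) / m := Int.toNat_of_nonneg e0
      refine ⟨((x - x₀) / m).toNat, ?_, ?_, fun p hp =>
        a4 p (hP' p hp).1 (hP' p hp).2.1 (hP' p hp).2.2.2⟩
      · have e2 : (x - x₀) / m ≤ (N : ℤ) / m := Int.ediv_le_ediv hmz (by omega)
        have e3 : ((N / m : ℕ) : ℤ) = (N : ℤ) / m := Int.natCast_div _ _
        omega
      · have e2 : (r - x₀) % m = (x - x₀) % m := by
          refine (Int.emod_emod_of_dvd _ (dvd_refl _)).symm.trans ?_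
          rw [Int.emod_emod_of_dvd _ (dvd_refl _)]
          exact (Int.modEq_iff_dvd.2 (by rwa [sub_sub_sub_cancel_right]))
        rw [e1, e2]
        have := Int.emod_add_mul_ediv (x - x₀) m
        linarith
    refine hgoal (2 * (N / m + 1 : ℕ) * Real.exp (-T') + 2 * (y : ℝ) ^ 36) ?_ ?_
    · calc (S.card : ℝ) ≤ ∑ r ∈ R, ((S.filter fun x => (m : ℤ) ∣ x - r).card : ℝ) := by
            exact_mod_cast (card_le_card hsub).trans card_biUnion_le
        _ ≤ _ := (sum_le_card_nsmul _ _ _ hone).trans_eq (by rw [nsmul_eq_mul, hR])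
    · have e1 : ((N / m + 1 : ℕ) : ℝ) ≤ 2 * (N / m) := by
        have : ((N / m : ℕ) : ℝ) ≤ N / m := Nat.cast_div_le
        push_cast
        linarith
      have e2 : Real.exp (-T') ≤ Real.exp 2 * Real.exp (-T) := by
        rw [← Real.exp_add]
        exact Real.exp_le_exp.2 (by linarith)
      have e3 : (y : ℝ) ^ 36 ≤ 4 * Real.exp 14 * (N / m) * Real.exp (-T) := by
        calc (y : ℝ) ^ 36 ≤ (y : ℝ) ^ 36 * (4 * Real.exp 14 * y * Real.exp (-T)) :=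
              le_mul_of_one_le_right (by positivity) hE'
          _ = 4 * Real.exp 14 * (y : ℝ) ^ 37 * Real.exp (-T) := by ring
          _ ≤ _ := by gcongr
      have e4 : 2 * ((N / m + 1 : ℕ) : ℝ) * Real.exp (-T') ≤
          2 * (2 * (N / m)) * (Real.exp 2 * Real.exp (-T)) := by gcongr
      have e5 : 0 ≤ Real.exp 14 * (N / m) * Real.exp (-T) := by positivity
      nlinarith

theorem crude_one (A : ℕ) : ∃ C : ℝ, 0 < C ∧ ∀ (P : Finset ℕ) (Ω : ℕ → ℕ → ℤ → Prop) (N : ℕ)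
    (x₀ : ℤ) (S : Finset ℤ), (∀ l ∈ P, l.Prime) →
    (∀ l ∈ P, ∀ j x x', (l : ℤ) ^ j ∣ x - x' → Ω l j x → Ω l j x') →
    (∀ l ∈ P, ∀ j, 0 < j → cnt (l ^ j) (Ω l j) ≤ 2) →
    (∀ x ∈ S, x₀ ≤ x ∧ x < x₀ + N ∧
      ∃ l ∈ P, ∃ j, l ^ 8 ≤ N ∧ N ≤ (l ^ j) ^ 4 ∧ l ^ j ≤ N ^ A ∧ Ω l j x) →
    (S.card : ℝ) ≤ C * (N : ℝ) ^ (15 / 16 : ℝ) := by
  classical
  refine ⟨128 * A + 1, by positivity, ?_⟩
  intro P Ω N x₀ S hP hper hc hS
  rcases Nat.eq_zero_or_pos N with rfl | hN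
  · have e : S = ∅ := eq_empty_of_forall_notMem fun x hx => by
      have := (hS x hx).1; have := (hS x hx).2.1; omega
    simp [e]
  set u := (N : ℝ) ^ (1 / 16 : ℝ) with hu
  have h1 : 1 ≤ u := Real.one_le_rpow (by exact_mod_cast hN) (by norm_num)
  have h2 : u ^ 16 = N := by rw [hu, tsha_pow]; norm_num
  have h15 : (N : ℝ) ^ (15 / 16 : ℝ) = u ^ 15 := by rw [hu, tsha_pow]; norm_num
  let I := (Icc 1 ⌊u ^ 2⌋₊ ×ˢ Icc 1 ⌊32 * A * u⌋₊).filter fun t => t.1 ∈ P ∧ N ≤ (t.1 ^ t.2) ^ 4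
  have hsub : S ⊆ I.biUnion fun t => S.filter fun x => Ω t.1 t.2 x := by
    intro x hx
    obtain ⟨-, -, l, hl, j, a1, a2, a3, a4⟩ := hS x hx
    have hl2 := (hP l hl).two_le
    refine mem_biUnion.2 ⟨(l, j), mem_filter.2 ⟨mem_product.2 ⟨mem_Icc.2 ⟨by omega, ?_⟩,
      mem_Icc.2 ⟨?_, ?_⟩⟩, hl, a2⟩, mem_filter.2 ⟨hx, a4⟩⟩
    · refine Nat.le_floor (le_of_pow_le_pow_left₀ (n := 8) (by norm_num) (by positivity) ?_)
      rw [← pow_mul, h2]
      exact_mod_cast a1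
    · refine Nat.pos_of_ne_zero fun e => ?_
      have : 2 ^ 8 ≤ l ^ 8 := Nat.pow_le_pow_left hl2 _
      have e' : j = 0 := e
      simp only [e', pow_zero, one_pow] at a2
      omega
    · refine Nat.le_floor ((tsha_log (ε := 1 / 16) (by norm_num)
        ((Nat.pow_le_pow_left hl2 j).trans a3)).trans_eq ?_)
      rw [← hu]; ring
  have hone : ∀ t ∈ I, ((S.filter fun x => Ω t.1 t.2 x).card : ℝ) ≤ 4 * u ^ 12 := by
    intro t ht
    obtain ⟨a1, a2, a3⟩ := mem_filter.1 ht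
    have b1 := card_le_cnt (pow_pos (hP _ a2).pos t.2) (A := Ω t.1 t.2)
      (fun x x' h => hper _ a2 _ x x' (by exact_mod_cast h)) x₀ N
      (S.filter fun x => Ω t.1 t.2 x) fun x hx =>
        ⟨(hS x (mem_filter.1 hx).1).1, (hS x (mem_filter.1 hx).1).2.1, (mem_filter.1 hx).2⟩
    have b2 : (cnt (t.1 ^ t.2) (Ω t.1 t.2) : ℝ) ≤ 2 := by
      exact_mod_cast hc _ a2 _ (mem_Icc.1 (mem_product.1 a1).2).1
    have b3 := tsha_div hN a3
    calc _ ≤ _ := b1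
      _ ≤ 2 * (2 * u ^ 12) := by gcongr
      _ = _ := by ring
  have hI : (I.card : ℝ) ≤ u ^ 2 * (32 * A * u) := by
    have b1 : I.card ≤ ⌊u ^ 2⌋₊ * ⌊32 * A * u⌋₊ :=
      (card_filter_le _ _).trans_eq (by simp)
    have b2 : (⌊u ^ 2⌋₊ : ℝ) ≤ u ^ 2 := Nat.floor_le (by positivity)
    have b3 : (⌊32 * A * u⌋₊ : ℝ) ≤ 32 * A * u := Nat.floor_le (by positivity)
    calc (I.card : ℝ) ≤ ⌊u ^ 2⌋₊ * ⌊32 * A * u⌋₊ := by exact_mod_cast b1
      _ ≤ _ := by gcongr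
  calc (S.card : ℝ) ≤ ∑ t ∈ I, ((S.filter fun x => Ω t.1 t.2 x).card : ℝ) := by
        exact_mod_cast (card_le_card hsub).trans card_biUnion_le
    _ ≤ I.card * (4 * u ^ 12) := (sum_le_card_nsmul _ _ _ hone).trans_eq (nsmul_eq_mul _ _)
    _ ≤ u ^ 2 * (32 * A * u) * (4 * u ^ 12) := by gcongr
    _ = 128 * A * u ^ 15 := by ring
    _ ≤ _ := by rw [h15]; gcongr; linarith

theorem crude_two (y : ℕ) : ∃ C : ℝ, 0 < C ∧ ∀ (P : Finset ℕ) (Ω : ℕ → ℕ → ℤ → Prop) (N : ℕ)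
    (x₀ : ℤ) (S : Finset ℤ), (∀ l ∈ P, l.Prime) →
    (∀ l ∈ P, ∀ j x x', (l : ℤ) ^ j ∣ x - x' → Ω l j x → Ω l j x') →
    (∀ l ∈ P, ∀ j, 0 < j → cnt (l ^ j) (Ω l j) ≤ 2) →
    (∀ x ∈ S, x₀ ≤ x ∧ x < x₀ + N ∧ ∃ m : ℕ, m ≠ 0 ∧ N ≤ m ^ 4 ∧ m ^ 2 ≤ N ∧
      ∀ l ∈ m.primeFactors, l ∈ P ∧ l ≤ y ∧ Ω l (m.factorization l) x) →
    (S.card : ℝ) ≤ C * (N : ℝ) ^ (15 / 16 : ℝ) := by
  classical
  set ε : ℝ := 3 / (16 * (y + 1)) with hε
  have hε0 : 0 < ε := by positivity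
  refine ⟨(2 / ε + 1) ^ (y + 1) * (2 ^ (y + 1) * 2), by positivity, ?_⟩
  intro P Ω N x₀ S hP hper hc hS
  rcases Nat.eq_zero_or_pos N with rfl | hN
  · have e : S = ∅ := eq_empty_of_forall_notMem fun x hx => by
      have := (hS x hx).1; have := (hS x hx).2.1; omega
    simp [e]
  set u := (N : ℝ) ^ (1 / 16 : ℝ) with hu
  have h15 : (N : ℝ) ^ (15 / 16 : ℝ) = u ^ 15 := by rw [hu, tsha_pow]; norm_num
  set v := (N : ℝ) ^ ε with hv
  have hv1 : 1 ≤ v := Real.one_le_rpow (by exact_mod_cast hN) hε0.le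
  have hvu : v ^ (y + 1) = u ^ 3 := by
    rw [hu, tsha_pow, hv, ← Real.rpow_natCast, ← Real.rpow_mul (by positivity), hε]
    congr 1
    push_cast
    field_simp
  let I := (range (N + 1)).filter fun m : ℕ =>
    m ≠ 0 ∧ N ≤ m ^ 4 ∧ ∀ l ∈ m.primeFactors, l ∈ P ∧ l ≤ y
  let A : ℕ → ℤ → Prop := fun m x => ∀ l ∈ m.primeFactors, Ω l (m.factorization l) x
  have hsub : S ⊆ I.biUnion fun m => S.filter (A m) := by
    intro x hx
    obtain ⟨-, -, m, a1, a2, a3, a4⟩ := hS x hx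
    refine mem_biUnion.2 ⟨m, mem_filter.2 ⟨mem_range.2 ?_, a1, a2, fun l hl =>
      ⟨(a4 l hl).1, (a4 l hl).2.1⟩⟩, mem_filter.2 ⟨hx, fun l hl => (a4 l hl).2.2⟩⟩
    have := Nat.le_self_pow (n := 2) (by norm_num) m
    omega
  have hone : ∀ m ∈ I, ((S.filter (A m)).card : ℝ) ≤ 2 ^ (y + 1) * (2 * u ^ 12) := by
    intro m hm
    obtain ⟨-, a1, a2, a3⟩ := mem_filter.1 hm
    have e : ∏ l ∈ m.primeFactors, l ^ m.factorization l = m :=
      Nat.prod_factorization_pow_eq_self a1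
    have b1 := card_le_cnt (Nat.pos_of_ne_zero a1) (A := A m)
      (fun x x' h hx l hl => hper l (a3 l hl).1 _ x x' (dvd_trans (by
        exact_mod_cast Int.natCast_dvd_natCast.2 (Nat.ordProj_dvd m l)) h) (hx l hl)) x₀ N
      (S.filter (A m)) fun x hx =>
        ⟨(hS x (mem_filter.1 hx).1).1, (hS x (mem_filter.1 hx).1).2.1, (mem_filter.1 hx).2⟩
    have b2 := cnt_prod m.primeFactors (fun l hl => Nat.prime_of_mem_primeFactors hl)
      m.factorization (fun l => Ω l (m.factorization l))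
      fun l hl x x' h => hper l (a3 l hl).1 _ x x' h
    rw [e] at b2
    have b3 : cnt m (A m) ≤ 2 ^ (y + 1) := by
      refine b2.le.trans ((prod_le_pow_card _ _ 2 fun l hl => hc l (a3 l hl).1 _ ?_).trans
        (Nat.pow_le_pow_right two_pos ?_))
      · exact (Nat.prime_of_mem_primeFactors hl).factorization_pos_of_dvd a1
          (Nat.dvd_of_mem_primeFactors hl)
      · exact (card_le_card fun l hl => mem_range.2 (Nat.lt_succ_of_le (a3 l hl).2)).trans_eq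
          (card_range _)
    have b4 : (cnt m (A m) : ℝ) ≤ 2 ^ (y + 1) := by exact_mod_cast b3
    have b5 := tsha_div hN a2
    exact b1.trans (by gcongr)
  have hI : (I.card : ℝ) ≤ (2 / ε + 1) ^ (y + 1) * u ^ 3 := by
    have b1 : I.card ≤ (Fintype.piFinset fun _ : Fin (y + 1) => range (⌊2 / ε * v⌋₊ + 1)).card := by
      refine card_le_card_of_injOn (fun m i => m.factorization i) (fun m hm => ?_)
        fun m hm m' hm' e => ?_
      · obtain ⟨a0, a1, -, -⟩ := mem_filter.1 (mem_coe.1 hm)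
        refine mem_coe.2 (Fintype.mem_piFinset.2 fun i => mem_range.2
          (Nat.lt_succ_of_le (Nat.le_floor ?_)))
        show (m.factorization i : ℝ) ≤ _
        by_cases hi : (i : ℕ).Prime
        · have b : 2 ^ m.factorization i ≤ N ^ 1 := by
            have := (Nat.pow_le_pow_left hi.two_le _).trans (Nat.ordProj_le (i : ℕ) a1)
            have := mem_range.1 a0
            rw [pow_one]
            omega
          refine (tsha_log hε0 b).trans_eq ?_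
          rw [← hv]; push_cast; ring
        · rw [Nat.factorization_eq_zero_of_not_prime _ hi, Nat.cast_zero]
          positivity
      · obtain ⟨-, a1, -, a3⟩ := mem_filter.1 (mem_coe.1 hm)
        obtain ⟨-, a1', -, a3'⟩ := mem_filter.1 (mem_coe.1 hm')
        refine Nat.eq_of_factorization_eq a1 a1' fun l => ?_
        by_cases hl : l ≤ y
        · exact congrFun e ⟨l, Nat.lt_succ_of_le hl⟩
        · rw [Finsupp.notMem_support_iff.1 fun h => hl (a3 l h).2,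
            Finsupp.notMem_support_iff.1 fun h => hl (a3' l h).2]
    rw [Fintype.card_piFinset, prod_const, card_range, card_univ, Fintype.card_fin] at b1
    have b2 : (⌊2 / ε * v⌋₊ : ℝ) ≤ 2 / ε * v := Nat.floor_le (by positivity)
    calc (I.card : ℝ) ≤ ((⌊2 / ε * v⌋₊ : ℝ) + 1) ^ (y + 1) := by exact_mod_cast b1
      _ ≤ ((2 / ε + 1) * v) ^ (y + 1) := by gcongr; linarith
      _ = _ := by rw [mul_pow, hvu]
  calc (S.card : ℝ) ≤ ∑ m ∈ I, ((S.filter (A m)).card : ℝ) := by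
        exact_mod_cast (card_le_card hsub).trans card_biUnion_le
    _ ≤ I.card * (2 ^ (y + 1) * (2 * u ^ 12)) :=
        (sum_le_card_nsmul _ _ _ hone).trans_eq (nsmul_eq_mul _ _)
    _ ≤ (2 / ε + 1) ^ (y + 1) * u ^ 3 * (2 ^ (y + 1) * (2 * u ^ 12)) := by gcongr
    _ = _ := by rw [h15]; ring

end Pool.Agent.EQ
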