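import Pool.Agent.P.MP_ad7a55_nt.TPr

/-! Sums of multiplicative weights over smooth numbers. -/

set_option autoImplicit false

noncomputable section

open Finset

namespace Pool.Agent.EQ

theorem euler_sum (P : Finset ℕ) (hP : ∀ l ∈ P, l.Prime) (g : ℕ → ℕ → ℝ) (hg : ∀ l k, 0 ≤ g l k)
    (u : ℕ → ℝ) (hu : ∀ l ∈ P, ∀ J : ℕ, ∑ k ∈ Icc 1 J, g l k ≤ u l) (M : Finset ℕ)
    (hM : ∀ m ∈ M, m ≠ 0 ∧ m.primeFactors ⊆ P) :
    ∑ m ∈ M, ∏ l ∈ m.primeFactors, g l (m.factorization l) ≤ Real.exp (∑ l ∈ P, u l) := by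
  classical
  let J := M.sup id
  let g' : ℕ → ℕ → ℝ := fun l k => if k = 0 then 1 else g l k
  have hg' : ∀ l k, 0 ≤ g' l k := fun l k => by
    simp only [g']; split_ifs; exacts [zero_le_one, hg l k]
  let φ : ℕ → ∀ l ∈ P, ℕ := fun m l _ => m.factorization l
  have h1 : ∀ m ∈ M, ∏ l ∈ m.primeFactors, g l (m.factorization l) =
      ∏ x ∈ P.attach, g' x.1 (φ m x.1 x.2) := fun m hm => by
    simp only [φ]
    rw [prod_attach P fun l => g' l (m.factorization l)]
    refine (prod_congr rfl fun l hl => ?_).trans (prod_subset (hM m hm).2 fun l _ hl => ?_)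
    · exact (if_neg (Finsupp.mem_support_iff.1 hl)).symm
    · exact if_pos (Finsupp.notMem_support_iff.1 hl)
  have h2 : Set.InjOn φ M := fun m hm n hn h => by
    refine Nat.eq_of_factorization_eq (hM m hm).1 (hM n hn).1 fun l => ?_
    by_cases hl : l ∈ P
    · exact congrFun (congrFun h l) hl
    · rw [Finsupp.notMem_support_iff.1 fun h => hl ((hM m hm).2 h),
        Finsupp.notMem_support_iff.1 fun h => hl ((hM n hn).2 h)]
  rw [sum_congr rfl h1, ← sum_image (f := fun p : ∀ l ∈ P, ℕ => ∏ x ∈ P.attach, g' x.1 (p x.1 x.2))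
    h2]
  calc _ ≤ ∑ p ∈ P.pi (fun _ => range (J + 1)), ∏ x ∈ P.attach, g' x.1 (p x.1 x.2) := by
        refine sum_le_sum_of_subset_of_nonneg (fun p hp => ?_) fun p _ _ =>
          prod_nonneg fun x _ => hg' _ _
        obtain ⟨m, hm, rfl⟩ := mem_image.1 hp
        refine mem_pi.2 fun l _ => mem_range.2 ?_
        have h3 : m ≤ J := le_sup (f := id) hm
        have h4 := Nat.factorization_lt l (hM m hm).1
        simp only [φ]
        omega
    _ = ∏ l ∈ P, ∑ k ∈ range (J + 1), g' l k := (prod_sum _ _ _).symm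
    _ ≤ _ := by
        rw [Real.exp_sum]
        refine prod_le_prod (fun l _ => sum_nonneg fun k _ => hg' _ _) fun l hl => ?_
        have h3 : ∑ k ∈ range (J + 1), g' l k = 1 + ∑ k ∈ Icc 1 J, g l k := by
          rw [range_eq_Ico, sum_eq_sum_Ico_succ_bot (Nat.succ_pos J), Nat.succ_eq_add_one,
            Ico_add_one_right_eq_Icc]
          congr 1
          exact sum_congr rfl fun k hk => if_neg (by have := (mem_Icc.1 hk).1; omega)
        linarith [hu l hl J, Real.add_one_le_exp (u l)]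

theorem tshb_local {K t : ℝ} (ht : 0 ≤ t) (ht1 : t ≤ 3 / 5) (G : ℕ → ℝ)
    (hG : ∀ k, 0 ≤ G k ∧ G k ≤ K * (k + 1)) (J : ℕ) :
    ∑ k ∈ Icc 1 J, G k * t ^ k ≤ G 1 * t + 30 * K * t ^ 2 := by
  have hK : 0 ≤ K := by simpa using (hG 0).1.trans (hG 0).2
  have h1 : ∀ j : ℕ, ((j : ℝ) + 3) * t ^ j ≤ 3 * (9 / 10) ^ j := fun j => by
    induction j with
    | zero => simp
    | succ j ih =>
      have h2 : 0 ≤ t ^ j := by positivity
      have h3 : (0 : ℝ) ≤ j := j.cast_nonneg
      have h4 : ((j : ℝ) + 1 + 3) * t ≤ 9 / 10 * (j + 3) := by nlinarith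
      push_cast
      rw [pow_succ, pow_succ]
      nlinarith [mul_le_mul_of_nonneg_left h4 h2]
  have h2 : ∀ J : ℕ, ∑ k ∈ Icc 1 (J + 1), G k * t ^ k ≤
      G 1 * t + 30 * K * t ^ 2 * (1 - (9 / 10) ^ J) := fun J => by
    induction J with
    | zero => simp
    | succ J ih =>
      rw [sum_Icc_succ_top (by omega)]
      have h3 : G (J + 1 + 1) * t ^ (J + 1 + 1) ≤ K * t ^ 2 * (3 * (9 / 10) ^ J) := by
        calc _ ≤ K * ((J + 1 + 1 : ℕ) + 1) * t ^ (J + 1 + 1) :=
              mul_le_mul_of_nonneg_right (hG _).2 (by positivity)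
          _ = K * t ^ 2 * ((J + 3) * t ^ J) := by push_cast; ring
          _ ≤ _ := mul_le_mul_of_nonneg_left (h1 J) (by positivity)
      rw [pow_succ (9 / 10 : ℝ)]
      linarith
  have h3 : 0 ≤ 30 * K * t ^ 2 := by positivity
  rcases J with _ | J
  · have := mul_nonneg (hG 1).1 ht
    simp only [Nat.lt_one_iff, pos_of_gt, Icc_eq_empty_of_lt, sum_empty]
    linarith
  · refine (h2 J).trans ?_
    have : (0 : ℝ) ≤ (9 / 10) ^ J := by positivity
    nlinarith

theorem tshb_twist {K h : ℝ} (h1 : h ≤ 1 / 4) (P : Finset ℕ) (G : ℕ → ℕ → ℝ) (M : Finset ℕ)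
    (hP : ∀ l ∈ P, l.Prime) (hG : ∀ l k, 0 ≤ G l k ∧ G l k ≤ K * (k + 1))
    (hM : ∀ m ∈ M, m ≠ 0 ∧ m.primeFactors ⊆ P) :
    ∑ m ∈ M, (∏ l ∈ m.primeFactors, G l (m.factorization l)) * (m : ℝ) ^ (h - 1) ≤
      Real.exp (90 * K) * Real.exp (∑ l ∈ P, G l 1 * (l : ℝ) ^ (h - 1)) := by
  have hK : 0 ≤ K := by simpa using (hG 0 0).1.trans (hG 0 0).2
  have ht : ∀ l ∈ P, (l : ℝ) ^ (h - 1) ≤ (l : ℝ) ^ (-(3 / 4) : ℝ) := fun l hl =>
    Real.rpow_le_rpow_of_exponent_le (by exact_mod_cast (hP l hl).one_le) (by linarith)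
  have h2 := euler_sum P hP (fun l k => G l k * ((l : ℝ) ^ (h - 1)) ^ k)
    (fun l k => mul_nonneg (hG l k).1 (by positivity))
    (fun l => G l 1 * (l : ℝ) ^ (h - 1) + 30 * K * ((l : ℝ) ^ (h - 1)) ^ 2)
    (fun l hl J => tshb_local (by positivity) ((ht l hl).trans (by
      have h3 : (l : ℝ) ^ (-(3 / 4) : ℝ) ≤ (2 : ℝ) ^ (-(3 / 4) : ℝ) :=
        Real.rpow_le_rpow_of_nonpos (by norm_num) (by exact_mod_cast (hP l hl).two_le)
          (by norm_num)
      refine h3.trans (le_of_pow_le_pow_left₀ (n := 4) (by norm_num) (by norm_num) ?_)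
      rw [← Real.rpow_natCast, ← Real.rpow_mul (by norm_num)]
      norm_num)) (G l) (hG l) J) M hM
  refine le_trans (le_of_eq (sum_congr rfl fun m hm => ?_)) (h2.trans ?_)
  · have hpr : (m : ℝ) = ∏ p ∈ m.primeFactors, (p : ℝ) ^ m.factorization p := by
      exact_mod_cast (Nat.prod_factorization_pow_eq_self (hM m hm).1).symm
    rw [prod_mul_distrib]
    congr 1
    rw [hpr, ← Real.finsetProd_rpow _ _ fun p _ => by positivity]
    refine prod_congr rfl fun p _ => ?_
    rw [← Real.rpow_natCast, ← Real.rpow_natCast, ← Real.rpow_mul p.cast_nonneg,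
      ← Real.rpow_mul p.cast_nonneg, mul_comm]
  · rw [← Real.exp_add, Real.exp_le_exp, sum_add_distrib, ← mul_sum]
    have h3 : ∑ l ∈ P, ((l : ℝ) ^ (h - 1)) ^ 2 ≤ 3 := by
      calc _ ≤ ∑ l ∈ P, (l : ℝ) ^ (-(1 + 1 / 2) : ℝ) := by
            refine sum_le_sum fun l hl => (pow_le_pow_left₀ (by positivity) (ht l hl) 2).trans ?_
            rw [← Real.rpow_natCast, ← Real.rpow_mul l.cast_nonneg]
            norm_num
        _ ≤ ∑ l ∈ Ioc 0 (P.sup id), (l : ℝ) ^ (-(1 + 1 / 2) : ℝ) :=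
            sum_le_sum_of_subset_of_nonneg (fun l hl => mem_Ioc.2
              ⟨(hP l hl).pos, le_sup (f := id) hl⟩) fun l _ _ => by positivity
        _ ≤ _ := (Pool.Agent.Lib.Sieve.sum_rpow_le (by norm_num) _).trans (by norm_num)
    nlinarith

theorem rankin_sum (K : ℝ) : ∃ C : ℝ, 0 < C ∧ ∀ (P : Finset ℕ) (G : ℕ → ℕ → ℝ) (M : Finset ℕ),
    (∀ l ∈ P, l.Prime) → (∀ l k, 0 ≤ G l k ∧ G l k ≤ K * (k + 1)) →
    (∀ m ∈ M, m ≠ 0 ∧ m.primeFactors ⊆ P) →
    ∑ m ∈ M, (∏ l ∈ m.primeFactors, G l (m.factorization l)) / m ≤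
      C * Real.exp (∑ l ∈ P, G l 1 / l) := by
  refine ⟨Real.exp (90 * K), Real.exp_pos _, fun P G M hP hG hM => ?_⟩
  simpa only [zero_sub, Real.rpow_neg_one, div_eq_mul_inv] using
    tshb_twist (h := 0) (by norm_num) P G M hP hG hM

theorem rankin_tail (K L : ℝ) : ∃ (C : ℝ) (y₀ : ℕ), 0 < C ∧ 2 ≤ y₀ ∧ ∀ (P : Finset ℕ)
    (G : ℕ → ℕ → ℝ) (M : Finset ℕ) (y w : ℝ), y₀ ≤ y → 1 ≤ w → (∀ l ∈ P, l.Prime ∧ (l : ℝ) ≤ y) →
    (∀ l k, 0 ≤ G l k ∧ G l k ≤ K * (k + 1)) →
    (∀ m ∈ M, m ≠ 0 ∧ m.primeFactors ⊆ P ∧ w ≤ m) →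
    ∑ m ∈ M, (∏ l ∈ m.primeFactors, G l (m.factorization l)) / m ≤
      C * Real.exp (-(L * Real.log w / Real.log y)) * Real.exp (∑ l ∈ P, G l 1 / l) := by
  set L' := max L 0 with hL'
  have hL0 : 0 ≤ L' := le_max_right _ _
  refine ⟨Real.exp (90 * K) * Real.exp (2 * K * Real.exp L' * (L' + 1)),
    max 2 ⌈Real.exp (4 * L')⌉₊, by positivity, le_max_left _ _,
    fun P G M y w hy hw hP hG hM => ?_⟩
  have hK : 0 ≤ K := by simpa using (hG 0 0).1.trans (hG 0 0).2
  push_cast at hy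
  have hy2 : 2 ≤ y := (le_max_left _ _).trans hy
  have hly : 0 < Real.log y := Real.log_pos (by linarith)
  have hy4 : 4 * L' ≤ Real.log y := (Real.le_log_iff_exp_le (by linarith)).2
    ((Nat.le_ceil _).trans ((le_max_right _ _).trans hy))
  have hlw := Real.log_nonneg hw
  set h := L' / Real.log y with hh
  have h0 : 0 ≤ h := by positivity
  have h1 : h ≤ 1 / 4 := by rw [hh, div_le_iff₀ hly]; linarith
  have h2 := tshb_twist h1 P G M (fun l hl => (hP l hl).1) hG
    fun m hm => ⟨(hM m hm).1, (hM m hm).2.1⟩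
  have h3 : ∑ l ∈ P, G l 1 * (l : ℝ) ^ (h - 1) ≤
      2 * K * Real.exp L' * (L' + 1) + ∑ l ∈ P, G l 1 / l := by
    have h4 : ∑ l ∈ P, Real.log l / l ≤ Real.log y + 4 := by
      have h5 := Pool.Agent.Lib.Sieve.sum_log_div_le (N := ⌊y⌋₊) (Nat.le_floor (by
        push_cast; linarith))
      have h6 : Real.log ⌊y⌋₊ ≤ Real.log y := Real.log_le_log
        (by exact_mod_cast Nat.floor_pos.2 (by linarith)) (Nat.floor_le (by linarith))
      have h7 : ∑ l ∈ P, Real.log l / l ≤ ∑ l ∈ Nat.primesLE ⌊y⌋₊, Real.log l / l :=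
        sum_le_sum_of_subset_of_nonneg (fun l hl => Nat.mem_primesLE.2
          ⟨Nat.le_floor (hP l hl).2, (hP l hl).1⟩) fun l _ _ =>
          div_nonneg (Real.log_natCast_nonneg l) l.cast_nonneg
      linarith [Real.log_le_sub_one_of_pos (show (0 : ℝ) < 4 by norm_num)]
    calc _ ≤ ∑ l ∈ P, (2 * K * Real.exp L' * h * (Real.log l / l) + G l 1 / l) := by
          refine sum_le_sum fun l hl => ?_
          have hl0 : (0 : ℝ) < l := by exact_mod_cast (hP l hl).1.pos
          have hll := Real.log_natCast_nonneg l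
          have h5 : Real.log l * h ≤ L' := by
            rw [hh, ← mul_div_assoc, div_le_iff₀ hly]
            nlinarith [Real.log_le_log hl0 (hP l hl).2]
          have h6 : (l : ℝ) ^ h - 1 ≤ Real.exp L' * (Real.log l * h) := by
            rw [Real.rpow_def_of_pos hl0]
            have h7 := Real.add_one_le_exp (-(Real.log l * h))
            have h8 : Real.exp (Real.log l * h) * Real.exp (-(Real.log l * h)) = 1 := by
              rw [← Real.exp_add]; simp
            have h9 := Real.exp_le_exp.2 h5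
            have h10 : 0 ≤ Real.log l * h := by positivity
            nlinarith [Real.exp_pos (Real.log l * h)]
          have h7 : G l 1 ≤ 2 * K := by have := (hG l 1).2; push_cast at this; linarith
          have h8 : G l 1 * ((l : ℝ) ^ h - 1) ≤ 2 * K * (Real.exp L' * (Real.log l * h)) :=
            (mul_le_mul_of_nonneg_left h6 (hG l 1).1).trans
              (mul_le_mul_of_nonneg_right h7 (by positivity))
          rw [Real.rpow_sub_one hl0.ne', ← mul_div_assoc, ← mul_div_assoc, ← add_div]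
          exact div_le_div_of_nonneg_right (by linarith) hl0.le
      _ ≤ _ := by
          rw [sum_add_distrib, ← mul_sum]
          have h5 : h * ∑ l ∈ P, Real.log l / l ≤ L' + 1 := by
            have : h * Real.log y = L' := by rw [hh]; field_simp
            nlinarith [mul_le_mul_of_nonneg_left h4 h0]
          have h6 : 0 ≤ 2 * K * Real.exp L' := by positivity
          nlinarith [mul_le_mul_of_nonneg_left h5 h6]
  calc _ ≤ ∑ m ∈ M, Real.exp (-(L * Real.log w / Real.log y)) *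
        ((∏ l ∈ m.primeFactors, G l (m.factorization l)) * (m : ℝ) ^ (h - 1)) := by
        refine sum_le_sum fun m hm => ?_
        have hm0 : (0 : ℝ) < m := by exact_mod_cast Nat.pos_of_ne_zero (hM m hm).1
        have h4 : 1 ≤ Real.exp (-(L * Real.log w / Real.log y)) * (m : ℝ) ^ h := by
          rw [Real.rpow_def_of_pos hm0, ← Real.exp_add]
          refine Real.one_le_exp ?_
          have h5 : Real.log w ≤ Real.log m := Real.log_le_log (by linarith) (hM m hm).2.2
          have h6 : L * Real.log w / Real.log y ≤ Real.log w * h := by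
            rw [hh, ← mul_div_assoc, mul_comm]
            gcongr
            exact le_max_left _ _
          nlinarith
        have h5 : 0 ≤ (∏ l ∈ m.primeFactors, G l (m.factorization l)) / m :=
          div_nonneg (prod_nonneg fun l _ => (hG _ _).1) hm0.le
        rw [Real.rpow_sub_one hm0.ne']
        refine (le_mul_of_one_le_right h5 h4).trans (le_of_eq ?_)
        ring
    _ ≤ Real.exp (-(L * Real.log w / Real.log y)) * (Real.exp (90 * K) *
        Real.exp (2 * K * Real.exp L' * (L' + 1) + ∑ l ∈ P, G l 1 / l)) := by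
        rw [← mul_sum]
        exact mul_le_mul_of_nonneg_left (h2.trans (mul_le_mul_of_nonneg_left
          (Real.exp_le_exp.2 h3) (Real.exp_pos _).le)) (Real.exp_pos _).le
    _ = _ := by rw [Real.exp_add]; ring

end Pool.Agent.EQ
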