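import Pool.Agent.P.MP_ad7a55_nt.TShA
import Pool.Agent.P.MP_ad7a55_nt.TShB

/-! An upper bound for sums of weights over an interval. -/

set_option autoImplicit false

noncomputable section

open Finset

namespace Pool.Agent.EQ

lemma tshc_fact {T : Finset ℕ} (hT : ∀ l ∈ T, l.Prime) (k : ℕ → ℕ) :
    (∏ l ∈ T, l ^ k l) ≠ 0 ∧ (∏ l ∈ T, l ^ k l).primeFactors ⊆ T ∧
      ∀ l ∈ T, (∏ l ∈ T, l ^ k l).factorization l = k l := by
  have h0 : ∀ l ∈ T, l ^ k l ≠ 0 := fun l hl => pow_ne_zero _ (hT l hl).ne_zero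
  refine ⟨prod_ne_zero_iff.2 h0, fun p hp => ?_, fun p hp => ?_⟩
  · obtain ⟨h1, h2, _⟩ := Nat.mem_primeFactors.1 hp
    obtain ⟨l, hl, h3⟩ := (Prime.dvd_finsetProd_iff h1.prime _).1 h2
    rwa [(Nat.prime_dvd_prime_iff_eq h1 (hT l hl)).1 (h1.dvd_of_dvd_pow h3)]
  · rw [Nat.factorization_prod h0, Finsupp.finsetSum_apply, sum_eq_single p]
    · rw [(hT p hp).factorization_pow]; simp
    · intro l hl hne
      rw [(hT l hl).factorization_pow, Finsupp.single_eq_of_ne hne.symm]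
    · exact fun h => absurd hp h

lemma tshc_drop {T : Finset ℕ} (hT : ∀ l ∈ T, l.Prime) (k : ℕ → ℕ) (f : ℕ → ℕ → ℝ)
    (h0 : ∀ l ∈ T, ∀ j, 0 ≤ f l j) (h1 : ∀ l ∈ T, f l 0 ≤ 1) :
    ∏ l ∈ T, f l (k l) ≤ ∏ l ∈ (∏ l ∈ T, l ^ k l).primeFactors,
      f l ((∏ l ∈ T, l ^ k l).factorization l) := by
  obtain ⟨a1, a2, a3⟩ := tshc_fact hT k
  rw [← prod_sdiff a2, prod_congr rfl (fun l hl => by rw [a3 l (a2 hl)] :
    ∀ l ∈ (∏ l ∈ T, l ^ k l).primeFactors, f l ((∏ l ∈ T, l ^ k l).factorization l) = f l (k l))]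
  refine mul_le_of_le_one_left (prod_nonneg fun l hl => h0 l (a2 hl) _)
    (prod_le_one (fun l hl => h0 l (mem_sdiff.1 hl).1 _) fun l hl => ?_)
  obtain ⟨b1, b2⟩ := mem_sdiff.1 hl
  rw [← a3 l b1, Finsupp.notMem_support_iff.1 (by rwa [Nat.support_factorization])]
  exact h1 l b1

lemma tshc_tail {K : ℝ} (hK : 1 ≤ K) {T : Finset ℕ} (k : ℕ → ℕ) (f : ℕ → ℕ → ℝ)
    (h0 : ∀ l ∈ T, ∀ j, 0 ≤ f l j) (h1 : ∀ l ∈ T, f l 0 ≤ 1)
    (h2 : ∀ l ∈ T, ∀ j, f l j ≤ K * (j + 1)) {r n : ℕ} (hr : 2 ≤ r) (hT : ∀ l ∈ T, r ≤ l)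
    (hn : ∏ l ∈ T, l ^ k l ≤ r ^ n) : ∏ l ∈ T, f l (k l) ≤ (2 * K) ^ n := by
  have a1 : ∑ l ∈ T, k l ≤ n := by
    refine (Nat.pow_le_pow_iff_right (show 1 < r by omega)).1 (le_trans ?_ hn)
    rw [← prod_pow_eq_pow_sum]
    exact prod_le_prod' fun l hl => Nat.pow_le_pow_left (hT l hl) _
  refine le_trans ?_ (pow_le_pow_right₀ (by linarith) a1)
  rw [← prod_pow_eq_pow_sum]
  refine prod_le_prod (fun l hl => h0 l hl _) fun l hl => ?_
  rcases Nat.eq_zero_or_pos (k l) with h | h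
  · rw [h, pow_zero]; exact h1 l hl
  · refine (h2 l hl _).trans ?_
    rw [mul_pow, mul_comm]
    refine mul_le_mul ?_ (le_self_pow₀ hK h.ne') (by linarith) (by positivity)
    exact_mod_cast Nat.lt_two_pow_self

open Classical in
/-- The weights that enter the Euler products. -/
def tshcG (P : Finset ℕ) (Ω : ℕ → ℕ → ℤ → Prop) (f : ℕ → ℕ → ℝ) (l k : ℕ) : ℝ :=
  if l ∈ P ∧ 0 < k then f l k * cnt (l ^ k) (Ω l k) * Real.exp (cnt l (Ω l 1) / l) else 0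

variable {K : ℝ} {P : Finset ℕ} {Ω : ℕ → ℕ → ℤ → Prop} {f : ℕ → ℕ → ℝ} {a : ℕ → ℝ}

lemma tshc_c {l : ℕ} (h : l.Prime ∧ Lv l K (Ω l) (f l) (a l)) :
    (cnt l (Ω l 1) : ℝ) ≤ 2 ∧ (cnt l (Ω l 1) : ℝ) / l ≤ 1 := by
  have h1 : (cnt l (Ω l 1) : ℝ) ≤ 2 := by
    have := h.2.cnt_le 1 one_pos
    rw [pow_one] at this
    exact_mod_cast this
  have h2 : (2 : ℝ) ≤ l := by exact_mod_cast h.1.two_le
  exact ⟨h1, div_le_one_of_le₀ (by linarith) (by linarith)⟩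

lemma tshc_G (hK : 1 ≤ K) (hP : ∀ l ∈ P, l.Prime ∧ Lv l K (Ω l) (f l) (a l)) (l k : ℕ) :
    0 ≤ tshcG P Ω f l k ∧ tshcG P Ω f l k ≤ 6 * K * (k + 1) := by
  unfold tshcG
  split_ifs with h
  · have h1 := (hP l h.1).2
    have h2 : (cnt (l ^ k) (Ω l k) : ℝ) ≤ 2 := by exact_mod_cast h1.cnt_le k h.2
    have h3 : Real.exp (cnt l (Ω l 1) / l) ≤ 3 :=
      (Real.exp_le_exp.2 (tshc_c (hP l h.1)).2).trans (by linarith [Real.exp_one_lt_d9])
    refine ⟨mul_nonneg (mul_nonneg (h1.nonneg k) (by positivity)) (by positivity), ?_⟩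
    calc _ ≤ K * (k + 1) * 2 * 3 := by
          have := h1.nonneg k
          gcongr
          exact h1.le k
      _ = _ := by ring
  · exact ⟨le_rfl, by positivity⟩

lemma tshc_exp (hK : 1 ≤ K) (hP : ∀ l ∈ P, l.Prime ∧ Lv l K (Ω l) (f l) (a l)) {y N : ℕ}
    (hy : y ≤ N) {P' : Finset ℕ} (hP' : P' ⊆ P.filter (fun l => l ≤ N)) :
    ∑ l ∈ P', tshcG P Ω f l 1 / l - ∑ l ∈ P.filter (fun l => l ≤ y), (cnt l (Ω l 1) : ℝ) / l ≤
      ∑ l ∈ P.filter (fun l => l ≤ N), a l / l + 32 * K +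
        2 * ∑ l ∈ (Nat.primesLE N).filter (fun l => y < l), 1 / (l : ℝ) := by
  classical
  set U := P.filter (fun l => l ≤ N) with hU
  have e1 : ∑ l ∈ P', tshcG P Ω f l 1 / l = ∑ l ∈ U, if l ∈ P' then tshcG P Ω f l 1 / l else 0 := by
    rw [← sum_filter, filter_mem_eq_inter, inter_eq_right.2 hP']
  have e2 : ∑ l ∈ P.filter (fun l => l ≤ y), (cnt l (Ω l 1) : ℝ) / l
      = ∑ l ∈ U, if l ≤ y then (cnt l (Ω l 1) : ℝ) / l else 0 := by
    rw [← sum_filter, hU, filter_filter]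
    exact sum_congr (filter_congr fun l _ => ⟨fun h => ⟨h.trans hy, h⟩, fun h => h.2⟩) fun _ _ => rfl
  have e3 : ∑ l ∈ U, (if y < l then 1 / (l : ℝ) else 0)
      ≤ ∑ l ∈ (Nat.primesLE N).filter (fun l => y < l), 1 / (l : ℝ) := by
    rw [← sum_filter]
    refine sum_le_sum_of_subset_of_nonneg (filter_subset_filter _ fun l hl => ?_)
      fun _ _ _ => by positivity
    obtain ⟨h1, h2⟩ := mem_filter.1 hl
    exact Nat.mem_primesLE.2 ⟨h2, (hP l h1).1⟩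
  have e4 : ∑ l ∈ U, ((l : ℝ) ^ 2)⁻¹ ≤ 2 := by
    refine le_trans (sum_le_sum_of_subset_of_nonneg (t := Ioo 0 (N + 1)) (fun l hl => ?_)
      fun _ _ _ => by positivity) ((sum_Ioo_inv_sq_le 0 (N + 1)).trans (by norm_num))
    obtain ⟨h1, h2⟩ := mem_filter.1 hl
    exact mem_Ioo.2 ⟨(hP l h1).1.pos, by omega⟩
  have e5 : ∑ l ∈ U, ((if l ∈ P' then tshcG P Ω f l 1 / l else 0)
      - if l ≤ y then (cnt l (Ω l 1) : ℝ) / l else 0)
      ≤ ∑ l ∈ U, (a l / l + 16 * K * ((l : ℝ) ^ 2)⁻¹ + 2 * if y < l then 1 / (l : ℝ) else 0) := by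
    refine sum_le_sum fun l hl => ?_
    have h1 := hP l (mem_filter.1 hl).1
    obtain ⟨c1, c2⟩ := tshc_c h1
    have hl0 : (0 : ℝ) < l := by exact_mod_cast h1.1.pos
    set c : ℝ := (cnt l (Ω l 1) : ℝ) with hc
    have c0 : 0 ≤ c := by positivity
    have f0 := h1.2.nonneg 1
    have f1 : f l 1 ≤ K * 2 := by have := h1.2.le 1; norm_num at this; linarith
    have f2 : (f l 1 - 1) * c ≤ a l := h1.2.one
    have g1 : tshcG P Ω f l 1 ≤ f l 1 * c + 16 * K / l := by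
      unfold tshcG
      rw [if_pos ⟨(mem_filter.1 hl).1, one_pos⟩, pow_one, ← hc]
      have t0 : 0 ≤ c / l := by positivity
      have t1 : Real.exp (c / l) ≤ 1 + 2 * (c / l) := by
        have := Real.abs_exp_sub_one_le (x := c / l) (by rwa [abs_of_nonneg t0])
        rw [abs_of_nonneg t0] at this
        linarith [le_abs_self (Real.exp (c / l) - 1)]
      have t2 : f l 1 * c * (2 * (c / l)) ≤ K * 2 * 2 * (2 * (2 / l)) := by gcongr
      have t3 := mul_le_mul_of_nonneg_left t1 (mul_nonneg f0 c0)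
      have t4 : K * 2 * 2 * (2 * (2 / l)) = 16 * K / l := by ring
      linarith
    have g2 : (if l ∈ P' then tshcG P Ω f l 1 / l else 0)
        ≤ (a l + c) / l + 16 * K * ((l : ℝ) ^ 2)⁻¹ := by
      have t5 : 0 ≤ (a l + c) / l := div_nonneg (by nlinarith) hl0.le
      split_ifs
      · calc _ ≤ (a l + c + 16 * K / l) / l := by gcongr; linarith
          _ = _ := by field_simp
      · positivity
    rw [add_div] at g2
    by_cases h : l ≤ y
    · rw [if_pos h, if_neg (not_lt.2 h)]; linarith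
    · rw [if_neg h, if_pos (not_le.1 h)]
      have : c / l ≤ 2 * (1 / l) := by rw [mul_one_div]; gcongr
      linarith
  rw [sum_sub_distrib, sum_add_distrib, sum_add_distrib, ← mul_sum, ← mul_sum] at e5
  rw [e1, e2]
  nlinarith

/-- Grouping by the smooth part and sieving. -/
lemma tshc_group : ∃ C : ℝ, 0 < C ∧ ∀ (K : ℝ) (P : Finset ℕ) (Ω : ℕ → ℕ → ℤ → Prop)
    (f : ℕ → ℕ → ℝ) (a : ℕ → ℝ) (x₀ : ℤ) (N y : ℕ) (S : Finset ℤ) (lev : ℕ → ℤ → ℕ) (r : ℤ → ℕ)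
    (B : ℝ), (∀ l ∈ P, l.Prime ∧ Lv l K (Ω l) (f l) (a l)) → 1 ≤ y → 0 ≤ B →
    (∀ x ∈ S, x₀ ≤ x ∧ x < x₀ + N ∧ (∀ l ∈ P, At (Ω l) x (lev l x)) ∧ y < r x ∧
      (∏ l ∈ P.filter (fun l => l < r x), l ^ lev l x) * y ^ 37 ≤ N ∧
      ∏ l ∈ P.filter (fun l => ¬ l < r x), f l (lev l x) ≤ B) →
    ∑ x ∈ S, ∏ l ∈ P, f l (lev l x) ≤ C * B * N *
      Real.exp (-∑ l ∈ P.filter (fun l => l ≤ y), (cnt l (Ω l 1) : ℝ) / l) *
      ∑ m ∈ S.image (fun x => ∏ l ∈ P.filter (fun l => l < r x), l ^ lev l x),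
        (∏ l ∈ m.primeFactors, tshcG P Ω f l (m.factorization l)) / m := by
  classical
  obtain ⟨C, hC, hs⟩ := sieve_cls
  refine ⟨C, hC, fun K P Ω f a x₀ N y S lev r B hP hy hB hS => ?_⟩
  set m : ℤ → ℕ := fun x => ∏ l ∈ P.filter (fun l => l < r x), l ^ lev l x with hm
  have hpr : ∀ x, ∀ l ∈ P.filter (fun l => l < r x), l.Prime :=
    fun x l hl => (hP l (mem_filter.1 hl).1).1
  rw [← sum_fiberwise_of_maps_to (g := m) (fun x hx => mem_image_of_mem m hx), mul_sum]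
  refine sum_le_sum fun n hn => ?_
  obtain ⟨x₁, hx₁, rfl⟩ := mem_image.1 hn
  set n := m x₁ with hn'
  have n0 : n ≠ 0 := (tshc_fact (hpr x₁) _).1
  have nP : n.primeFactors ⊆ P := (tshc_fact (hpr x₁) _).2.1.trans (filter_subset _ _)
  have nn : ∏ l ∈ n.primeFactors, l ^ n.factorization l = n :=
    Nat.prod_factorization_pow_eq_self n0
  have npos : ∀ l ∈ n.primeFactors, 0 < n.factorization l := fun l hl =>
    Nat.pos_of_ne_zero (Finsupp.mem_support_iff.1 (by rwa [Nat.support_factorization]))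
  set F := ∏ l ∈ n.primeFactors, f l (n.factorization l) with hF
  have F0 : 0 ≤ F := prod_nonneg fun l hl => (hP l (nP hl)).2.nonneg _
  have a1 : ∑ x ∈ S.filter (fun x => m x = n), ∏ l ∈ P, f l (lev l x)
      ≤ (S.filter (fun x => m x = n)).card * (F * B) := by
    rw [← nsmul_eq_mul]
    refine sum_le_card_nsmul _ _ _ fun x hx => ?_
    obtain ⟨h1, h2⟩ := mem_filter.1 hx
    rw [← prod_filter_mul_prod_filter_not P (fun l => l < r x)]
    refine mul_le_mul ?_ (hS x h1).2.2.2.2.2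
      (prod_nonneg fun l hl => (hP l (mem_filter.1 hl).1).2.nonneg _) F0
    rw [hF, ← h2]
    exact tshc_drop (hpr x) _ f (fun l hl => (hP l (mem_filter.1 hl).1).2.nonneg)
      (fun l hl => (hP l (mem_filter.1 hl).1).2.zero)
  have a2 := hs P n.primeFactors Ω n.factorization y N x₀ (S.filter (fun x => m x = n))
    (fun l hl => (hP l hl).1) nP (fun l hl => (hP l hl).2.per)
    (fun l hl => by have := (hP l hl).2.cnt_le 1 one_pos; rwa [pow_one] at this) hy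
    (by rw [nn]; exact (hS x₁ hx₁).2.2.2.2.1) (fun x hx => by
      obtain ⟨h1, h2⟩ := mem_filter.1 hx
      obtain ⟨b1, b2, b3, b4, -⟩ := hS x h1
      obtain ⟨-, c2, c3⟩ := tshc_fact (hpr x) (fun l => lev l x)
      change (m x).primeFactors ⊆ _ at c2
      change ∀ l ∈ _, (m x).factorization l = _ at c3
      rw [h2] at c2 c3
      refine ⟨b1, b2, fun l hl => ?_, fun l hl hl' hly => (b3 l hl).1 ?_⟩
      · have := npos l hl
        rw [c3 l (c2 hl)] at this ⊢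
        exact (b3 l (nP hl)).2 this
      · rw [← c3 l (mem_filter.2 ⟨hl, by omega⟩)]
        exact Finsupp.notMem_support_iff.1 (by rwa [Nat.support_factorization]))
  have a3 : Real.exp (-∑ l ∈ (P \ n.primeFactors).filter (fun l => l ≤ y), (cnt l (Ω l 1) : ℝ) / l)
      ≤ Real.exp (-∑ l ∈ P.filter (fun l => l ≤ y), (cnt l (Ω l 1) : ℝ) / l) *
        ∏ l ∈ n.primeFactors, Real.exp (cnt l (Ω l 1) / l) := by
    rw [← Real.exp_sum, ← Real.exp_add, Real.exp_le_exp]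
    have : ∑ l ∈ P.filter (fun l => l ≤ y), (cnt l (Ω l 1) : ℝ) / l
        ≤ ∑ l ∈ (P \ n.primeFactors).filter (fun l => l ≤ y) ∪ n.primeFactors,
          (cnt l (Ω l 1) : ℝ) / l := by
      refine sum_le_sum_of_subset_of_nonneg (fun l hl => ?_) fun _ _ _ => by positivity
      by_cases h : l ∈ n.primeFactors
      · exact mem_union_right _ h
      · exact mem_union_left _ (mem_filter.2 ⟨mem_sdiff.2 ⟨(mem_filter.1 hl).1, h⟩,
          (mem_filter.1 hl).2⟩)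
    rw [sum_union (disjoint_left.2 fun l hl => (mem_sdiff.1 (mem_filter.1 hl).1).2)] at this
    linarith
  have a4 : (∏ l ∈ n.primeFactors, tshcG P Ω f l (n.factorization l)) / n = F *
      (∏ l ∈ n.primeFactors, (cnt (l ^ n.factorization l) (Ω l (n.factorization l)) : ℝ)
        / (l : ℝ) ^ n.factorization l) * ∏ l ∈ n.primeFactors, Real.exp (cnt l (Ω l 1) / l) := by
    have : (n : ℝ) = ∏ l ∈ n.primeFactors, (l : ℝ) ^ n.factorization l := by exact_mod_cast nn.symm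
    rw [hF, ← prod_mul_distrib, ← prod_mul_distrib]
    conv_lhs => rw [this]
    rw [← prod_div_distrib]
    refine prod_congr rfl fun l hl => ?_
    unfold tshcG
    rw [if_pos ⟨nP hl, npos l hl⟩]; ring
  have a5 : 0 ≤ ∏ l ∈ n.primeFactors, (cnt (l ^ n.factorization l) (Ω l (n.factorization l)) : ℝ)
      / (l : ℝ) ^ n.factorization l := prod_nonneg fun _ _ => by positivity
  rw [a4]
  refine a1.trans ((mul_le_mul_of_nonneg_right (a2.trans (mul_le_mul_of_nonneg_left a3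
    (by positivity))) (mul_nonneg F0 hB)).trans (le_of_eq ?_))
  ring

lemma tshc_low : ∃ C : ℝ, 0 < C ∧ ∀ N : ℕ, 1 ≤ N → (N : ℝ) ^ (31 / 32 : ℝ) ≤
    C * N * Real.exp (-(2 * ∑ l ∈ Nat.primesLE N, 1 / (l : ℝ))) := by
  obtain ⟨C, hC, h⟩ := exp_primes_le 2
  refine ⟨C * 64 ^ 2 + 1, by positivity, fun N hN => ?_⟩
  rcases hN.eq_or_lt with rfl | hN2
  · have : Nat.primesLE 1 = ∅ := by decide
    simp [this]; positivity
  have h1 := h N hN2
  have hN0 : (0 : ℝ) < N := by positivity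
  have h2 : Real.log N ≤ (N : ℝ) ^ (1 / 64 : ℝ) / (1 / 64) := Real.log_le_rpow_div hN0.le (by norm_num)
  have h3 : Real.log N ^ 2 ≤ 64 ^ 2 * (N : ℝ) ^ (1 / 32 : ℝ) := by
    calc _ ≤ ((N : ℝ) ^ (1 / 64 : ℝ) / (1 / 64)) ^ 2 :=
          pow_le_pow_left₀ (Real.log_natCast_nonneg N) h2 2
      _ = 64 ^ 2 * ((N : ℝ) ^ (1 / 64 : ℝ) * (N : ℝ) ^ (1 / 64 : ℝ)) := by ring
      _ = _ := by rw [← Real.rpow_add hN0]; norm_num
  have h4 : (N : ℝ) ^ (31 / 32 : ℝ) * (N : ℝ) ^ (1 / 32 : ℝ) = N := by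
    rw [← Real.rpow_add hN0]; norm_num
  rw [Real.exp_neg, ← div_eq_mul_inv, le_div_iff₀ (Real.exp_pos _)]
  push_cast at h1
  calc _ ≤ (N : ℝ) ^ (31 / 32 : ℝ) * (C * (64 ^ 2 * (N : ℝ) ^ (1 / 32 : ℝ))) := by
        gcongr
        exact h1.trans (mul_le_mul_of_nonneg_left h3 hC.le)
    _ = C * 64 ^ 2 * N := by linear_combination C * 64 ^ 2 * h4
    _ ≤ _ := by nlinarith

/-- Sets of few points contribute little. -/
lemma tshc_crude (hK : 1 ≤ K) (A : ℕ) : ∃ C : ℝ, 0 < C ∧ ∀ (P : Finset ℕ) (Ω : ℕ → ℕ → ℤ → Prop)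
    (f : ℕ → ℕ → ℝ) (a : ℕ → ℝ) (N : ℕ) (S : Finset ℤ) (lev : ℕ → ℤ → ℕ) (D : ℝ), 1 ≤ N →
    (∀ l ∈ P, l.Prime ∧ Lv l K (Ω l) (f l) (a l)) → (∀ x ∈ S, ∏ l ∈ P, l ^ lev l x ≤ N ^ A) →
    (S.card : ℝ) ≤ D * (N : ℝ) ^ (15 / 16 : ℝ) → ∑ x ∈ S, ∏ l ∈ P, f l (lev l x) ≤
      C * D * (N * Real.exp (∑ l ∈ P.filter (fun l => l ≤ N), a l / l)) := by
  obtain ⟨C₁, hC₁, h₁⟩ := omega_bound K (ε := 1 / (32 * (A + 1))) (by positivity)
  obtain ⟨C₂, hC₂, h₂⟩ := tshc_low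
  refine ⟨C₁ * C₂, by positivity, fun P Ω f a N S lev D hN hP hS hD => ?_⟩
  have hN1 : (1 : ℝ) ≤ N := by exact_mod_cast hN
  have hN0 : (0 : ℝ) < N := by linarith
  have hD0 : 0 ≤ D := by
    by_contra h
    have := mul_neg_of_neg_of_pos (not_le.1 h) (Real.rpow_pos_of_pos hN0 (15 / 16 : ℝ))
    linarith [Nat.cast_nonneg (α := ℝ) S.card]
  have a1 : ∑ x ∈ S, ∏ l ∈ P, f l (lev l x) ≤ S.card * (C₁ * (N : ℝ) ^ (1 / 32 : ℝ)) := by
    rw [← nsmul_eq_mul]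
    refine sum_le_card_nsmul _ _ _ fun x hx => ?_
    obtain ⟨b1, b2, -⟩ := tshc_fact (fun l hl => (hP l hl).1) (fun l => lev l x)
    refine (tshc_drop (fun l hl => (hP l hl).1) _ f (fun l hl => (hP l hl).2.nonneg)
      (fun l hl => (hP l hl).2.zero)).trans (le_trans ?_ ((h₁ _ b1).trans ?_))
    · refine prod_le_prod (fun l hl => (hP l (b2 hl)).2.nonneg _) fun l hl =>
        ((hP l (b2 hl)).2.le _).trans (mul_le_mul_of_nonneg_left ?_ (by linarith))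
      exact le_self_pow₀ (le_add_of_nonneg_left (Nat.cast_nonneg _)) (by norm_num)
    · refine mul_le_mul_of_nonneg_left ?_ hC₁.le
      calc _ ≤ ((N : ℝ) ^ A) ^ (1 / (32 * ((A : ℝ) + 1))) :=
            Real.rpow_le_rpow (Nat.cast_nonneg _) (by exact_mod_cast hS x hx) (by positivity)
        _ ≤ _ := by
            rw [← Real.rpow_natCast, ← Real.rpow_mul hN0.le]
            refine Real.rpow_le_rpow_of_exponent_le hN1 ?_
            rw [mul_one_div, div_le_div_iff₀ (by positivity) (by norm_num)]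
            linarith
  have a2 : Real.exp (-(2 * ∑ l ∈ Nat.primesLE N, 1 / (l : ℝ)))
      ≤ Real.exp (∑ l ∈ P.filter (fun l => l ≤ N), a l / l) := by
    rw [Real.exp_le_exp, neg_le, ← sum_neg_distrib, mul_sum]
    refine le_trans (sum_le_sum fun l hl => ?_) (sum_le_sum_of_subset_of_nonneg
      (fun l hl => Nat.mem_primesLE.2 ⟨(mem_filter.1 hl).2, (hP l (mem_filter.1 hl).1).1⟩)
      fun _ _ _ => by positivity)
    rw [← neg_div, mul_one_div]
    have := (hP l (mem_filter.1 hl).1).2.neg_two_le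
    gcongr
    linarith
  have a3 : (N : ℝ) ^ (15 / 16 : ℝ) * (N : ℝ) ^ (1 / 32 : ℝ) = (N : ℝ) ^ (31 / 32 : ℝ) := by
    rw [← Real.rpow_add hN0]; norm_num
  calc _ ≤ D * (N : ℝ) ^ (15 / 16 : ℝ) * (C₁ * (N : ℝ) ^ (1 / 32 : ℝ)) :=
        a1.trans (mul_le_mul_of_nonneg_right hD (by positivity))
    _ = C₁ * D * (N : ℝ) ^ (31 / 32 : ℝ) := by rw [← a3]; ring
    _ ≤ C₁ * D * (C₂ * N * Real.exp (∑ l ∈ P.filter (fun l => l ≤ N), a l / l)) := by
        gcongr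
        exact (h₂ N hN).trans (mul_le_mul_of_nonneg_left a2 (by positivity))
    _ = _ := by ring

/-- The splitting point. -/
lemma tshc_split (P : Finset ℕ) (hP : ∀ l ∈ P, l.Prime) (k : ℕ → ℕ) {N : ℕ} (hN : 1 ≤ N) :
    ∃ r : ℕ, 2 ≤ r ∧ (∏ l ∈ P.filter (fun l => l < r), l ^ k l) ^ 2 ≤ N ∧ (r ≤ N → r ∈ P ∧
      N < (∏ l ∈ P.filter (fun l => l < r), l ^ k l) ^ 2 * (r ^ k r) ^ 2) := by
  classical
  have h : ∃ n, N < (∏ l ∈ P.filter (fun l => l < n + 1), l ^ k l) ^ 2 ∨ N < n :=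
    ⟨N + 1, Or.inr (by omega)⟩
  have e : ∀ n ≤ 2, P.filter (fun l => l < n) = ∅ := fun n hn =>
    filter_eq_empty_iff.2 fun l hl => by have := (hP l hl).two_le; omega
  obtain ⟨r, h1, hmin⟩ : ∃ r, (N < (∏ l ∈ P.filter (fun l => l < r + 1), l ^ k l) ^ 2 ∨ N < r) ∧
      ∀ n < r, ¬ (N < (∏ l ∈ P.filter (fun l => l < n + 1), l ^ k l) ^ 2 ∨ N < n) :=
    ⟨Nat.find h, Nat.find_spec h, fun n hn => Nat.find_min h hn⟩
  have h2 : 2 ≤ r := by
    by_contra h3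
    rw [e _ (by omega)] at h1
    simp at h1; omega
  have h3 := hmin (r - 1) (by omega)
  rw [not_or, show r - 1 + 1 = r by omega] at h3
  refine ⟨r, h2, not_lt.1 h3.1, fun hr => ?_⟩
  have h4 := h1.resolve_right (not_lt.2 hr)
  by_cases h5 : r ∈ P
  · refine ⟨h5, ?_⟩
    have : P.filter (fun l => l < r + 1) = insert r (P.filter (fun l => l < r)) := by
      ext l
      simp only [mem_filter, mem_insert]
      constructor
      · rintro ⟨a, b⟩
        rcases (Nat.lt_succ_iff.1 b).eq_or_lt with c | c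
        exacts [Or.inl c, Or.inr ⟨a, c⟩]
      · rintro (rfl | ⟨a, b⟩)
        exacts [⟨h5, by omega⟩, ⟨a, by omega⟩]
    rwa [this, prod_insert (by simp), mul_pow, mul_comm] at h4
  · rw [filter_congr (q := fun l => l < r) (fun l hl => by
      have : l ≠ r := fun c => h5 (c ▸ hl)
      omega)] at h4
    exact absurd h4 h3.1

lemma tshc_root {N n : ℕ} (hn : n ≠ 0) (h : 2 ^ n ≤ N) :
    ∃ y : ℕ, 2 ≤ y ∧ y ^ n ≤ N ∧ N ≤ y ^ (2 * n) ∧ ∀ r, N < r ^ n → y < r := by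
  have h1 := Nat.pow_nthRoot_le (n := n) (a := N) (Or.inl hn)
  have h2 := Nat.lt_pow_nthRoot_add_one hn N
  have h3 : 2 ≤ Nat.nthRoot n N := (Nat.le_nthRoot_iff hn).2 h
  refine ⟨_, h3, h1, h2.le.trans ?_, fun r hr => lt_of_pow_lt_pow_left₀ n (Nat.zero_le _)
    (h1.trans_lt hr)⟩
  rw [pow_mul]
  exact Nat.pow_le_pow_left (by nlinarith) _

theorem shiu (K : ℝ) (A : ℕ) : ∃ C : ℝ, 0 < C ∧ ∀ (P : Finset ℕ) (Ω : ℕ → ℕ → ℤ → Prop)
    (f : ℕ → ℕ → ℝ) (a : ℕ → ℝ) (x₀ : ℤ) (N : ℕ) (S : Finset ℤ) (lev : ℕ → ℤ → ℕ),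
    (∀ l ∈ P, l.Prime ∧ Lv l K (Ω l) (f l) (a l)) →
    (∀ x ∈ S, x₀ ≤ x ∧ x < x₀ + N ∧ (∀ l ∈ P, At (Ω l) x (lev l x)) ∧
      ∏ l ∈ P, l ^ lev l x ≤ N ^ A) →
    ∑ x ∈ S, ∏ l ∈ P, f l (lev l x) ≤
      C * N * Real.exp (∑ l ∈ P.filter (fun l => l ≤ N), a l / l) := by
  classical
  wlog hK : 1 ≤ K generalizing K
  · obtain ⟨C, hC, h⟩ := this 1 le_rfl
    exact ⟨C, hC, fun P Ω f a x₀ N S lev hP => h P Ω f a x₀ N S lev
      fun l hl => ⟨(hP l hl).1, (hP l hl).2.mono (not_le.1 hK).le le_rfl⟩⟩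
  obtain ⟨Cg, hCg, hg⟩ := tshc_group
  obtain ⟨Cc, hCc, hc⟩ := tshc_crude hK A
  obtain ⟨C1, hC1, h1⟩ := crude_one A
  obtain ⟨Cs, hCs, hs⟩ := rankin_sum (6 * K)
  have hq : (0 : ℝ) < (2 * K) ^ A * 8 := by positivity
  obtain ⟨Ct, y₀, hCt, hy₀, ht⟩ := rankin_tail (6 * K) (4 * Real.log ((2 * K) ^ A * 8))
  obtain ⟨C2, hC2, h2⟩ := crude_two (y₀ + 4)
  obtain ⟨Cr, hr⟩ := range_pow 148
  refine ⟨Cc * (2 ^ 74 + C1 + C2) + Cg * (2 * K) ^ (74 * A) * (Cs * Real.exp (32 * K + 2 * Cr))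
    + Cg * Ct * (2 * K) ^ A * Real.exp (32 * K + 18) * 8, by positivity,
    fun P Ω f a x₀ N S lev hP hS => ?_⟩
  set E := Real.exp (∑ l ∈ P.filter (fun l => l ≤ N), a l / l) with hE
  have hE0 : 0 < E := Real.exp_pos _
  have hPp : ∀ l ∈ P, l.Prime := fun l hl => (hP l hl).1
  rcases Nat.eq_zero_or_pos N with rfl | hN
  · have : S = ∅ := eq_empty_of_forall_notMem fun x hx => by
      have := hS x hx; omega
    simp [this]
  have hN1 : (1 : ℝ) ≤ N := by exact_mod_cast hN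
  have hNE : 0 < N * E := by positivity
  rcases lt_or_ge N (2 ^ 74) with hsm | hbig
  · have k1 : (S.card : ℝ) ≤ 2 ^ 74 * (N : ℝ) ^ (15 / 16 : ℝ) := by
      have k2 : S.card ≤ N := by
        simpa using card_le_card (s := S) (t := Ico x₀ (x₀ + N))
          fun x hx => mem_Ico.2 ⟨(hS x hx).1, (hS x hx).2.1⟩
      have k3 : (S.card : ℝ) ≤ 2 ^ 74 := by exact_mod_cast k2.trans hsm.le
      exact k3.trans (le_mul_of_one_le_right (by positivity) (Real.one_le_rpow hN1 (by norm_num)))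
    refine (hc P Ω f a N S lev _ hN hP (fun x hx => (hS x hx).2.2.2) k1).trans ?_
    rw [mul_assoc _ (N : ℝ)]
    refine mul_le_mul_of_nonneg_right ?_ hNE.le
    have : 0 ≤ Cc * (C1 + C2) + Cg * (2 * K) ^ (74 * A) * (Cs * Real.exp (32 * K + 2 * Cr))
      + Cg * Ct * (2 * K) ^ A * Real.exp (32 * K + 18) * 8 := by positivity
    linarith
  choose r r2 ra rb using fun x : ℤ => tshc_split P hPp (fun l => lev l x) hN
  set m : ℤ → ℕ := fun x => ∏ l ∈ P.filter (fun l => l < r x), l ^ lev l x with hm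
  have hpr : ∀ x, ∀ l ∈ P.filter (fun l => l < r x), l.Prime :=
    fun x l hl => hPp l (mem_filter.1 hl).1
  have hm0 : ∀ x, m x ≠ 0 := fun x => (tshc_fact (hpr x) _).1
  have hmP : ∀ x, (m x).primeFactors ⊆ P.filter (fun l => l < r x) :=
    fun x => (tshc_fact (hpr x) _).2.1
  have hmN : ∀ x, (m x).primeFactors ⊆ P.filter (fun l => l ≤ N) := fun x l hl =>
    mem_filter.2 ⟨(mem_filter.1 (hmP x hl)).1, (Nat.le_of_mem_primeFactors hl).trans
      ((Nat.le_self_pow two_ne_zero _).trans (ra x))⟩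
  have htail : ∀ x ∈ S, ∀ n, N < r x ^ n →
      ∏ l ∈ P.filter (fun l => ¬ l < r x), f l (lev l x) ≤ (2 * K) ^ (n * A) := fun x hx n hn =>
    tshc_tail hK _ f (fun l hl => (hP l (mem_filter.1 hl).1).2.nonneg)
      (fun l hl => (hP l (mem_filter.1 hl).1).2.zero) (fun l hl => (hP l (mem_filter.1 hl).1).2.le)
      (r2 x) (fun l hl => not_lt.1 (mem_filter.1 hl).2)
      ((prod_le_prod_of_subset_of_one_le' (filter_subset _ _) fun l hl _ =>
        Nat.one_le_pow _ _ (hPp l hl).pos).trans ((hS x hx).2.2.2.trans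
          (by rw [pow_mul]; exact Nat.pow_le_pow_left hn.le _)))
  have hmy : ∀ x y, y ^ 74 ≤ N → m x * y ^ 37 ≤ N := fun x y hy => by
    refine (Nat.pow_le_pow_iff_left two_ne_zero).1 ?_
    rw [mul_pow, ← pow_mul, sq N]
    exact Nat.mul_le_mul (ra x) hy
  have hper := fun l hl => (hP l hl).2.per
  have hcnt := fun l hl => (hP l hl).2.cnt_le
  have hle : ∀ x, r x ^ 74 ≤ N → r x ≤ N := fun x h => (Nat.le_self_pow (by norm_num) _).trans h
  -- large splitting point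
  have c1 : ∑ x ∈ S.filter (fun x => N < r x ^ 74), ∏ l ∈ P, f l (lev l x)
      ≤ Cg * (2 * K) ^ (74 * A) * (Cs * Real.exp (32 * K + 2 * Cr)) * (N * E) := by
    obtain ⟨y, y2, y3, y4, y5⟩ := tshc_root (n := 74) (by norm_num) hbig
    refine (hg K P Ω f a x₀ N y _ lev r ((2 * K) ^ (74 * A)) hP (by omega) (by positivity)
      fun x hx => ?_).trans ?_
    · obtain ⟨b1, b2⟩ := mem_filter.1 hx
      exact ⟨(hS x b1).1, (hS x b1).2.1, (hS x b1).2.2.1, y5 _ b2, hmy x y y3, htail x b1 74 b2⟩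
    refine (mul_le_mul_of_nonneg_left (hs (P.filter (fun l => l ≤ N)) _ _
      (fun l hl => hPp l (mem_filter.1 hl).1) (tshc_G hK hP) fun n hn => ?_)
      (by positivity)).trans ?_
    · obtain ⟨x, -, rfl⟩ := mem_image.1 hn
      exact ⟨hm0 x, hmN x⟩
    have k1 := tshc_exp hK hP ((Nat.le_self_pow (by norm_num) _).trans y3) Subset.rfl
    have k2 := hr y N y4
    have k3 : Real.exp (-∑ l ∈ P.filter (fun l => l ≤ y), (cnt l (Ω l 1) : ℝ) / l) *
        Real.exp (∑ l ∈ P.filter (fun l => l ≤ N), tshcG P Ω f l 1 / l)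
        ≤ Real.exp (32 * K + 2 * Cr) * E := by
      rw [hE, ← Real.exp_add, ← Real.exp_add, Real.exp_le_exp]; linarith
    refine le_of_eq_of_le ?_ ((mul_le_mul_of_nonneg_left k3
      (show 0 ≤ Cg * (2 * K) ^ (74 * A) * Cs * N by positivity)).trans (le_of_eq ?_)) <;> ring
  -- a large prime power
  have c2 : ∑ x ∈ (S.filter (fun x => ¬ N < r x ^ 74)).filter (fun x => m x ^ 4 ≤ N),
      ∏ l ∈ P, f l (lev l x) ≤ Cc * C1 * (N * E) := by
    refine hc P Ω f a N _ lev _ hN hP (fun x hx => (hS x (mem_filter.1 (mem_filter.1 hx).1).1).2.2.2)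
      (h1 P Ω N x₀ _ hPp hper hcnt fun x hx => ?_)
    obtain ⟨b0, b3⟩ := mem_filter.1 hx
    obtain ⟨b1, b2⟩ := mem_filter.1 b0
    rw [not_lt] at b2
    obtain ⟨b4, b5⟩ := rb x (hle x b2)
    have b6 : N < (r x ^ lev (r x) x) ^ 4 := by
      have k1 : N * N < (m x ^ 2 * (r x ^ lev (r x) x) ^ 2) * (m x ^ 2 * (r x ^ lev (r x) x) ^ 2) :=
        Nat.mul_lt_mul'' b5 b5
      have k2 : (m x ^ 2 * (r x ^ lev (r x) x) ^ 2) * (m x ^ 2 * (r x ^ lev (r x) x) ^ 2)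
          = m x ^ 4 * (r x ^ lev (r x) x) ^ 4 := by ring
      exact Nat.lt_of_mul_lt_mul_left (a := N)
        (k1.trans_le (k2.le.trans (Nat.mul_le_mul_right _ b3)))
    refine ⟨(hS x b1).1, (hS x b1).2.1, r x, b4, lev (r x) x,
      (Nat.pow_le_pow_right (by have := r2 x; omega) (by norm_num)).trans b2, b6.le,
      (single_le_prod' (f := fun l => l ^ lev l x) (fun l hl => Nat.one_le_pow _ _ (hPp l hl).pos)
        b4).trans (hS x b1).2.2.2, ((hS x b1).2.2.1 _ b4).2 (Nat.pos_of_ne_zero fun h => ?_)⟩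
    rw [h] at b6
    simp at b6; omega
  set S' := (S.filter (fun x => ¬ N < r x ^ 74)).filter (fun x => ¬ m x ^ 4 ≤ N) with hS'
  have hS'' : ∀ x ∈ S', x ∈ S ∧ r x ^ 74 ≤ N ∧ N < m x ^ 4 := fun x hx =>
    ⟨(mem_filter.1 (mem_filter.1 hx).1).1, not_lt.1 (mem_filter.1 (mem_filter.1 hx).1).2,
      not_le.1 (mem_filter.1 hx).2⟩
  -- very smooth part
  have c3 : ∑ x ∈ S'.filter (fun x => r x ≤ y₀ + 4), ∏ l ∈ P, f l (lev l x)
      ≤ Cc * C2 * (N * E) := by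
    refine hc P Ω f a N _ lev _ hN hP (fun x hx => (hS x (hS'' x (mem_filter.1 hx).1).1).2.2.2)
      (h2 P Ω N x₀ _ hPp hper hcnt fun x hx => ?_)
    obtain ⟨b0, b4⟩ := mem_filter.1 hx
    obtain ⟨b1, b2, b3⟩ := hS'' x b0
    refine ⟨(hS x b1).1, (hS x b1).2.1, m x, hm0 x, b3.le, ra x, fun l hl => ?_⟩
    obtain ⟨k1, k2⟩ := mem_filter.1 (hmP x hl)
    have k3 : (m x).factorization l = lev l x := (tshc_fact (hpr x) _).2.2 l (hmP x hl)
    have k4 : 0 < (m x).factorization l :=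
      Nat.pos_of_ne_zero (Finsupp.mem_support_iff.1 (by rwa [Nat.support_factorization]))
    rw [k3] at k4 ⊢
    exact ⟨k1, by omega, ((hS x b1).2.2.1 l k1).2 k4⟩
  -- smooth part of intermediate smoothness
  have c4 : ∀ j : ℕ, ∑ x ∈ (S'.filter (fun x => ¬ r x ≤ y₀ + 4)).filter
      (fun x => Nat.log (r x) N = j), ∏ l ∈ P, f l (lev l x)
      ≤ Cg * Ct * (2 * K) ^ A * Real.exp (32 * K + 18) * 4 * (N * E) * (1 / 2) ^ j := by
    intro j
    set T := (S'.filter (fun x => ¬ r x ≤ y₀ + 4)).filter (fun x => Nat.log (r x) N = j) with hT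
    rcases T.eq_empty_or_nonempty with h | ⟨x₁, hx₁⟩
    · rw [h, sum_empty]; positivity
    have hT' : ∀ x ∈ T, x ∈ S ∧ N < m x ^ 4 ∧ y₀ + 4 < r x ∧ 74 ≤ j ∧ r x ^ j ≤ N ∧
        N < r x ^ (j + 1) := fun x hx => by
      obtain ⟨b0, b5⟩ := mem_filter.1 hx
      obtain ⟨b0, b4⟩ := mem_filter.1 b0
      obtain ⟨b1, b2, b3⟩ := hS'' x b0
      subst b5
      exact ⟨b1, b3, not_le.1 b4, Nat.le_log_of_pow_le (r2 x) b2, Nat.pow_log_le_self _ hN.ne',
        Nat.lt_pow_succ_log_self (r2 x) _⟩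
    obtain ⟨-, -, d1, d2, d3, -⟩ := hT' x₁ hx₁
    have j0 : j ≠ 0 := by omega
    have j1 : (0 : ℝ) < j := by positivity
    obtain ⟨y, y2, y3, y4, y5⟩ := tshc_root (N := N) (n := j + 1) (by omega) (by
      calc 2 ^ (j + 1) ≤ 2 ^ (2 * j) := Nat.pow_le_pow_right (by norm_num) (by omega)
        _ = 4 ^ j := by rw [pow_mul]; norm_num
        _ ≤ r x₁ ^ j := Nat.pow_le_pow_left (by omega) _
        _ ≤ N := d3)
    have hroot : ∀ (u n : ℕ), n ≠ 0 → u ^ n ≤ N → (u : ℝ) ≤ (N : ℝ) ^ ((n : ℝ)⁻¹) := fun u n hn h => by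
      rw [Real.le_rpow_inv_iff_of_pos (by positivity) (by positivity) (by positivity),
        Real.rpow_natCast]
      exact_mod_cast h
    have yN : y ≤ N := (Nat.le_self_pow (by omega) _).trans y3
    refine (hg K P Ω f a x₀ N y T lev r ((2 * K) ^ ((j + 1) * A)) hP (by omega) (by positivity)
      fun x hx => ?_).trans ?_
    · obtain ⟨b1, -, -, -, -, b2⟩ := hT' x hx
      exact ⟨(hS x b1).1, (hS x b1).2.1, (hS x b1).2.2.1, y5 _ b2,
        hmy x y ((Nat.pow_le_pow_right (by omega) (by omega)).trans y3), htail x b1 _ b2⟩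
    refine (mul_le_mul_of_nonneg_left (ht ((P.filter (fun l => l ≤ N)).filter
      (fun l : ℕ => (l : ℝ) ≤ (N : ℝ) ^ ((j : ℝ)⁻¹))) _ _ ((N : ℝ) ^ ((j : ℝ)⁻¹))
      ((N : ℝ) ^ ((4 : ℝ)⁻¹)) (hroot y₀ j j0 ((Nat.pow_le_pow_left (by omega) _).trans d3))
      (Real.one_le_rpow hN1 (by norm_num))
      (fun l hl => ⟨hPp l (mem_filter.1 (mem_filter.1 hl).1).1, (mem_filter.1 hl).2⟩)
      (tshc_G hK hP) fun n hn => ?_) (by positivity)).trans ?_
    · obtain ⟨x, hx, rfl⟩ := mem_image.1 hn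
      obtain ⟨-, b1, -, -, b2, -⟩ := hT' x hx
      refine ⟨hm0 x, fun l hl => mem_filter.2 ⟨hmN x hl, hroot l j j0
        ((Nat.pow_le_pow_left (mem_filter.1 (hmP x hl)).2.le _).trans b2)⟩, ?_⟩
      rw [Real.rpow_inv_le_iff_of_pos (by positivity) (by positivity) (by norm_num),
        show (4 : ℝ) = (4 : ℕ) by norm_num, Real.rpow_natCast]
      exact_mod_cast b1.le
    have k1 := tshc_exp hK hP yN (filter_subset (fun l : ℕ => (l : ℝ) ≤ (N : ℝ) ^ ((j : ℝ)⁻¹)) _)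
    have k2 := range_le y2 yN
    have ly : 0 < Real.log y := Real.log_pos (by exact_mod_cast y2)
    have lN : 0 < Real.log N := Real.log_pos (by exact_mod_cast (by omega : 1 < N))
    have k4 : Real.log (Real.log N / Real.log y) ≤ Real.log (2 * (j + 1)) := by
      refine Real.log_le_log (by positivity) ?_
      rw [div_le_iff₀ ly]
      calc Real.log N ≤ Real.log ((y : ℝ) ^ (2 * (j + 1))) :=
            Real.log_le_log (by positivity) (by exact_mod_cast y4)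
        _ = _ := by rw [Real.log_pow]; push_cast; ring
    have k3 : Real.exp (-∑ l ∈ P.filter (fun l => l ≤ y), (cnt l (Ω l 1) : ℝ) / l) *
        Real.exp (∑ l ∈ (P.filter (fun l => l ≤ N)).filter
          (fun l : ℕ => (l : ℝ) ≤ (N : ℝ) ^ ((j : ℝ)⁻¹)), tshcG P Ω f l 1 / l)
        ≤ Real.exp (32 * K + 18) * E * (2 * (j + 1)) ^ 2 := by
      rw [← Real.exp_log (show (0 : ℝ) < 2 * (j + 1) by positivity), ← Real.exp_nat_mul, hE,
        ← Real.exp_add, ← Real.exp_add, ← Real.exp_add, Real.exp_le_exp]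
      push_cast
      linarith
    have k5 : Real.exp (-(4 * Real.log ((2 * K) ^ A * 8) * Real.log ((N : ℝ) ^ ((4 : ℝ)⁻¹))
        / Real.log ((N : ℝ) ^ ((j : ℝ)⁻¹)))) = (((2 * K) ^ A * 8) ^ j)⁻¹ := by
      rw [Real.log_rpow (by positivity), Real.log_rpow (by positivity), Real.exp_neg]
      congr 1
      rw [← Real.exp_log (pow_pos hq j), Real.log_pow]
      congr 1
      field_simp
    have k6 : ((j : ℝ) + 1) ^ 2 ≤ 4 ^ j := by
      have : (j : ℝ) + 1 ≤ 2 ^ j := by exact_mod_cast Nat.lt_two_pow_self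
      calc _ ≤ ((2 : ℝ) ^ j) ^ 2 := by gcongr
        _ = _ := by rw [← pow_mul, mul_comm, pow_mul]; norm_num
    have k7 : (2 * K) ^ ((j + 1) * A) * (((2 * K) ^ A * 8) ^ j)⁻¹ * 4 ^ j
        = (2 * K) ^ A * (1 / 2) ^ j := by
      have : (8 : ℝ) ^ j = 4 ^ j * 2 ^ j := by rw [← mul_pow]; norm_num
      rw [mul_pow _ 8, this, add_mul, one_mul, pow_add, mul_comm j A, pow_mul, one_div, inv_pow]
      field_simp
    rw [k5]
    calc _ = Cg * Ct * N * ((2 * K) ^ ((j + 1) * A) * (((2 * K) ^ A * 8) ^ j)⁻¹) *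
          (Real.exp (-∑ l ∈ P.filter (fun l => l ≤ y), (cnt l (Ω l 1) : ℝ) / l) *
            Real.exp (∑ l ∈ (P.filter (fun l => l ≤ N)).filter
              (fun l : ℕ => (l : ℝ) ≤ (N : ℝ) ^ ((j : ℝ)⁻¹)), tshcG P Ω f l 1 / l)) := by ring
      _ ≤ Cg * Ct * N * ((2 * K) ^ ((j + 1) * A) * (((2 * K) ^ A * 8) ^ j)⁻¹) *
          (Real.exp (32 * K + 18) * E * (4 * 4 ^ j)) := by
          refine mul_le_mul_of_nonneg_left (k3.trans ?_) (by positivity)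
          refine mul_le_mul_of_nonneg_left ?_ (by positivity)
          linarith
      _ = Cg * Ct * Real.exp (32 * K + 18) * 4 * (N * E) *
          ((2 * K) ^ ((j + 1) * A) * (((2 * K) ^ A * 8) ^ j)⁻¹ * 4 ^ j) := by ring
      _ = _ := by rw [k7]; ring
  have c5 : ∑ x ∈ S'.filter (fun x => ¬ r x ≤ y₀ + 4), ∏ l ∈ P, f l (lev l x)
      ≤ Cg * Ct * (2 * K) ^ A * Real.exp (32 * K + 18) * 8 * (N * E) := by
    rw [← sum_fiberwise_of_maps_to (t := range (N + 1)) (g := fun x => Nat.log (r x) N)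
      (fun x _ => mem_range.2 (Nat.lt_succ_of_le (Nat.log_le_self _ _)))]
    refine (sum_le_sum fun j _ => c4 j).trans ?_
    rw [← mul_sum]
    refine (mul_le_mul_of_nonneg_left (sum_geometric_two_le _) (by positivity)).trans (le_of_eq ?_)
    ring
  rw [← sum_filter_add_sum_filter_not S (fun x => N < r x ^ 74),
    ← sum_filter_add_sum_filter_not (S.filter (fun x => ¬ N < r x ^ 74)) (fun x => m x ^ 4 ≤ N),
    ← hS', ← sum_filter_add_sum_filter_not S' (fun x => r x ≤ y₀ + 4), mul_assoc _ (N : ℝ)]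
  have : 0 ≤ Cc * 2 ^ 74 * (N * E) := by positivity
  linarith

end Pool.Agent.EQ
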