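import Pool.Agent.P.MP_ad7a55_nt.ULf3

/-! Slabs: concentrated and thin directions. -/

set_option autoImplicit false

noncomputable section

open MeasureTheory Topology Filter UpperHalfPlane
open scoped MatrixGroups ENNReal BoundedContinuousFunction

namespace Pool.Agent.EQ

variable {p : ℕ} [Fact p.Prime] {ι : Type} [Fintype ι]

/-- The mass of a slab in the direction `j`. -/
def sl (δ : Dat p ι) (j : ι) (k l : ℤ) (s : ℚ_[p]) : ℝ≥0∞ :=
  lw δ k l {v | ‖v j - s‖ ≤ (p : ℝ) ^ l}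

/-- The leafwise measure lives on one hyperplane. -/
def Conc (δ : Dat p ι) (j : ι) : Prop := ∀ᶠ k : ℤ in atTop, ∀ l ≤ k, ∃ s, sl δ j k l s = 1

/-- All slabs have small mass. -/
def ThinAt (δ : Dat p ι) (j : ι) (k l : ℤ) (ε : ℝ≥0∞) : Prop := ∀ s, sl δ j k l s ≤ ε

def Thin (δ : Dat p ι) (j : ι) : Prop := ∀ ε : ℝ≥0∞, 0 < ε → ∃ e : ℕ, ThinAt δ j 0 (-e) ε

theorem uat_add {r : ℝ} {x y : ℚ_[p]} (hx : ‖x‖ ≤ r) (hy : ‖y‖ ≤ r) : ‖x + y‖ ≤ r :=
  (Padic.nonarchimedean x y).trans (max_le hx hy)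

theorem uat_tri {r : ℝ} {x y z : ℚ_[p]} (hx : ‖x - y‖ ≤ r) (hy : ‖y - z‖ ≤ r) : ‖x - z‖ ≤ r :=
  sub_add_sub_cancel x y z ▸ uat_add hx hy

theorem uat_meas (j : ι) (r : ℝ) (s : ℚ_[p]) : MeasurableSet {v : ι → ℚ_[p] | ‖v j - s‖ ≤ r} :=
  (isClosed_le (by fun_prop) continuous_const).measurableSet

theorem uat_one : (1 : ℝ) < p := by exact_mod_cast (Fact.out : p.Prime).one_lt

theorem uat_pos (l : ℤ) : (0 : ℝ) < (p : ℝ) ^ l := zpow_pos (one_pos.trans uat_one) l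

theorem uat_rat (s : ℚ_[p]) (l : ℤ) : ∃ r : ℚ, ‖s - r‖ ≤ (p : ℝ) ^ l :=
  (Padic.rat_dense p s (uat_pos l)).imp fun _ h => h.le

theorem uat_ne {a : ℚ_[p]} {e : ℤ} (ha : ‖a‖ = (p : ℝ) ^ e) : a ≠ 0 :=
  norm_pos_iff.1 (ha ▸ uat_pos e)

theorem sl_congr (δ : Dat p ι) (j : ι) (k : ℤ) {l : ℤ} {s s' : ℚ_[p]}
    (h : ‖s - s'‖ ≤ (p : ℝ) ^ l) : sl δ j k l s = sl δ j k l s' := by
  unfold sl
  exact congrArg _ (Set.ext fun v => ⟨fun hv => uat_tri hv h,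
    fun hv => uat_tri hv (norm_sub_rev s s' ▸ h)⟩)

theorem sl_shD {a : ℚ_[p]} {e : ℤ} (ha : ‖a‖ = (p : ℝ) ^ e) (δ : Dat p ι) (j : ι) (k l : ℤ)
    (s : ℚ_[p]) : sl (shD a e δ) j k l s = sl δ j (k + e) (l + e) (a * s) := by
  unfold sl
  rw [← lw_shD ha, Measure.map_apply (continuous_const_smul a).measurable (uat_meas _ _ _)]
  refine congrArg _ (Set.ext fun v => ?_)
  show ‖v j - s‖ ≤ _ ↔ ‖a * v j - a * s‖ ≤ _
  rw [← mul_sub, norm_mul, ha, zpow_add₀ (one_pos.trans uat_one).ne', mul_comm,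
    mul_le_mul_iff_left₀ (uat_pos e)]

theorem conc_shD {a : ℚ_[p]} {e : ℤ} (ha : ‖a‖ = (p : ℝ) ^ e) (δ : Dat p ι) (j : ι) :
    Conc (shD a e δ) j ↔ Conc δ j := by
  simp only [Conc, eventually_atTop, sl_shD ha]
  constructor
  · rintro ⟨N, h⟩
    refine ⟨N + e, fun k hk l hl => ?_⟩
    obtain ⟨s, hs⟩ := h (k - e) (by omega) (l - e) (by omega)
    rw [sub_add_cancel, sub_add_cancel] at hs
    exact ⟨_, hs⟩
  · rintro ⟨N, h⟩
    refine ⟨N - e, fun k hk l hl => ?_⟩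
    obtain ⟨s, hs⟩ := h (k + e) (by omega) (l + e) (by omega)
    exact ⟨a⁻¹ * s, by rwa [mul_inv_cancel_left₀ (uat_ne ha)]⟩

theorem thinAt_shD {a : ℚ_[p]} {e : ℤ} (ha : ‖a‖ = (p : ℝ) ^ e) (δ : Dat p ι) (j : ι) (k l : ℤ)
    (ε : ℝ≥0∞) : ThinAt (shD a e δ) j k l ε ↔ ThinAt δ j (k + e) (l + e) ε := by
  simp only [ThinAt, sl_shD ha]
  refine ⟨fun h s => ?_, fun h s => h _⟩
  have h1 := h (a⁻¹ * s)
  rwa [mul_inv_cancel_left₀ (uat_ne ha)] at h1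

variable {W : Type} [TopologicalSpace W] [PolishSpace W] [MeasurableSpace W] [BorelSpace W]
  (φ : Flow (ι → ℚ_[p]) W) (ν : Measure W)

theorem sl_flow (j : ι) {k : ℤ} (l : ℤ) {c : ι → ℚ_[p]} (hc : ‖c‖ ≤ (p : ℝ) ^ k) (w : W)
    (s : ℚ_[p]) : sl (dat φ ν (φ c w)) j k l s = sl (dat φ ν w) j k l (s + c j) := by
  unfold sl
  rw [← lw_flow φ ν l hc w, Measure.map_apply (continuous_add_const c).measurable (uat_meas _ _ _)]
  refine congrArg _ (Set.ext fun v => ?_)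
  show ‖v j - s‖ ≤ _ ↔ ‖v j + c j - (s + c j)‖ ≤ _
  rw [add_sub_add_right_eq_sub]

theorem measurable_sl (j : ι) (k l : ℤ) (s : ℚ_[p]) :
    Measurable fun w => sl (dat φ ν w) j k l s := by
  have h := measurable_lw φ ν k l (F := fun z => Set.indicator
    {v : ι → ℚ_[p] | ‖v j - s‖ ≤ (p : ℝ) ^ l} 1 z.2)
    ((measurable_one.indicator (uat_meas _ _ _)).comp measurable_snd)
  simp only [lintegral_indicator_one (uat_meas _ _ _)] at h
  exact h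

theorem conc_flow (j : ι) (c : ι → ℚ_[p]) (w : W) :
    Conc (dat φ ν (φ c w)) j ↔ Conc (dat φ ν w) j := by
  have h : ∀ᶠ k : ℤ in atTop, ‖c‖ ≤ (p : ℝ) ^ k := by
    obtain ⟨n, hn⟩ := pow_unbounded_of_one_lt ‖c‖ (uat_one (p := p))
    refine (eventually_ge_atTop (n : ℤ)).mono fun k hk => hn.le.trans ?_
    rw [← zpow_natCast]
    exact zpow_le_zpow_right₀ uat_one.le hk
  refine eventually_congr (h.mono fun k hk => forall₂_congr fun l _ => ?_)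
  simp only [sl_flow φ ν j l hk]
  exact ⟨fun ⟨s, hs⟩ => ⟨_, hs⟩, fun ⟨s, hs⟩ => ⟨s - c j, by rwa [sub_add_cancel]⟩⟩

theorem measurableSet_conc (j : ι) : MeasurableSet {w | Conc (dat φ ν w) j} := by
  have h : ∀ w k l, (∃ s, sl (dat φ ν w) j k l s = 1) ↔ ∃ r : ℚ, sl (dat φ ν w) j k l r = 1 :=
    fun w k l => ⟨fun ⟨s, hs⟩ => (uat_rat s l).imp fun r hr => (sl_congr _ _ _ hr).symm.trans hs,
      fun ⟨r, hr⟩ => ⟨_, hr⟩⟩
  simp only [Conc, eventually_atTop, h]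
  exact measurableSet_setOfPred.2 (Measurable.exists fun _ => Measurable.forall fun k =>
    measurable_const.imp (Measurable.forall fun l => measurable_const.imp
      (Measurable.exists fun r => (measurable_sl φ ν j k l r).eq_const 1)))

theorem measurableSet_thinAt (j : ι) (k l : ℤ) (ε : ℝ≥0∞) :
    MeasurableSet {w | ThinAt (dat φ ν w) j k l ε} := by
  have h : {w | ThinAt (dat φ ν w) j k l ε} = ⋂ r : ℚ, {w | sl (dat φ ν w) j k l r ≤ ε} := by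
    ext w
    simp only [Set.mem_iInter, Set.mem_ofPred_eq]
    refine ⟨fun h r => h _, fun h s => ?_⟩
    obtain ⟨r, hr⟩ := uat_rat s l
    rw [sl_congr _ _ _ hr]
    exact h r
  rw [h]
  exact MeasurableSet.iInter fun r => measurableSet_le (measurable_sl φ ν j k l r) measurable_const

variable {φ ν}

theorem Gd.slab {w : W} (h : Gd φ ν w) (j : ι) {k l m : ℤ} (hm : m ≤ l) (hl : l ≤ k) (s : ℚ_[p]) :
    lw (dat φ ν w) k m {v | ‖v j - s‖ ≤ (p : ℝ) ^ l} = sl (dat φ ν w) j k l s := by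
  refine h.level hm hl fun c hc v hv => ?_
  show ‖c j + v j - s‖ ≤ _
  rw [add_sub_right_comm]
  exact uat_add hc ((norm_le_pi_norm v j).trans hv)

theorem Gd.thinAt_mono {w : W} (h : Gd φ ν w) {j : ι} {k l m : ℤ} (hm : m ≤ l) (hl : l ≤ k)
    {ε : ℝ≥0∞} (h' : ThinAt (dat φ ν w) j k l ε) : ThinAt (dat φ ν w) j k m ε := by
  refine fun s => le_trans ?_ ((h.slab j hm hl s).trans_le (h' s))
  exact measure_mono fun v hv => le_trans hv (zpow_le_zpow_right₀ uat_one.le hm)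

theorem uat_ball {w : W} {k l : ℤ} (hl : l ≤ k) {c : ι → ℚ_[p]} (h : dat φ ν w k l c ≠ 0) :
    lw (dat φ ν w) k l {v | ‖v - c‖ ≤ (p : ℝ) ^ l} ≠ 0 := by
  rw [lw_ball w hl]
  exact mul_ne_zero h (ENNReal.ofReal_pos.2 (uat_pos _)).ne'

theorem Gd.sl_pos {w : W} (h : Gd φ ν w) (j : ι) {k l : ℤ} (hl : l ≤ k) :
    sl (dat φ ν w) j k l 0 ≠ 0 := by
  exact fun e => uat_ball hl (h.pos k l hl)
    (measure_mono_null (fun v hv => (norm_le_pi_norm (v - 0) j).trans hv) e)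

theorem Gd.conc {w : W} (h : Gd φ ν w) {j : ι} (hc : Conc (dat φ ν w) j) {k l : ℤ} (hl : l ≤ k) :
    sl (dat φ ν w) j k l 0 = 1 := by
  obtain ⟨K, h1, hK⟩ := (hc.and (eventually_ge_atTop k)).exists
  obtain ⟨s, hs⟩ := h1 l (hl.trans hK)
  have := h.prob (hl.trans hK)
  have := h.prob hl
  have h2 : ‖s - 0‖ ≤ (p : ℝ) ^ l := by
    by_contra h2
    refine h.sl_pos j (hl.trans hK) (measure_mono_null ?_
      ((prob_compl_eq_zero_iff (uat_meas _ _ _)).2 hs))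
    intro v hv hv'
    exact h2 (uat_tri ((norm_sub_rev _ _).trans_le hv') hv)
  rw [sl_congr _ _ _ h2] at hs
  have h3 := h.local hl hK (c := 0) (by simp [(uat_pos K).le])
    (uat_meas j ((p : ℝ) ^ l) 0).compl
  rw [φ.map_zero_apply, measure_mono_null (fun v hv => by simpa only [sub_zero v] using hv.2)
    ((prob_compl_eq_zero_iff (uat_meas _ _ _)).2 hs)] at h3
  exact (prob_compl_eq_zero_iff (uat_meas _ _ _)).1
    ((mul_eq_zero.1 h3.symm).resolve_left (uat_ball hK (h.pos K k hK)))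

/-- A leaf with a point mass has at most one good point. -/
theorem Gd.once {w : W} (h : Gd φ ν w) (hc : ∀ j, Conc (dat φ ν w) j) {v : ι → ℚ_[p]}
    (h' : Gd φ ν (φ v w)) : v = 0 := by
  by_contra h0
  obtain ⟨l, h1, h2⟩ := exists_mem_Ioc_zpow (norm_pos_iff.2 h0) (uat_one (p := p))
  have hl : l ≤ l + 1 := by omega
  have := h.prob hl
  have h3 : ∀ᵐ u ∂lw (dat φ ν w) (l + 1) l, ∀ j, ‖u j - 0‖ ≤ (p : ℝ) ^ l :=
    ae_all_iff.2 fun j => (prob_compl_eq_zero_iff (uat_meas _ _ _)).2 (h.conc (hc j) hl)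
  have h4 := h'.pos _ _ hl
  rw [dat_flow φ ν l h2, zero_add] at h4
  refine uat_ball hl h4 (measure_mono_null ?_ h3)
  intro u hu hu'
  refine h1.not_ge ((pi_norm_le_iff_of_nonneg (uat_pos l).le).2 fun j => ?_)
  have h5 := uat_tri ((norm_sub_rev (v j) (u j)).trans_le
    ((norm_le_pi_norm (u - v) j).trans hu)) (hu' j)
  rwa [sub_zero] at h5

theorem thin_unif [IsProbabilityMeasure ν] (J : Finset ι)
    (h : ∀ᵐ w ∂ν, ∀ j ∈ J, Thin (dat φ ν w) j) {ε η : ℝ≥0∞} (hε : 0 < ε) (hη : 0 < η) :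
    ∃ e : ℕ, ν {w | ¬ ∀ j ∈ J, ThinAt (dat φ ν w) j 0 (-e) ε} ≤ η := by
  let A : ℕ → Set W := fun e => {w | Gd φ ν w} ∩ (⋂ j ∈ J, {w | ThinAt (dat φ ν w) j 0 (-e) ε})ᶜ
  have hA : ∀ e, MeasurableSet (A e) := fun e => (measurableSet_Gd φ ν).inter
    (J.measurableSet_biInter fun j _ => measurableSet_thinAt φ ν j _ _ _).compl
  have hm : ∀ w, Gd φ ν w → ∀ j, ∀ e e' : ℕ, e ≤ e' → ThinAt (dat φ ν w) j 0 (-e) ε →
      ThinAt (dat φ ν w) j 0 (-e') ε := fun w hw j e e' he h1 =>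
    hw.thinAt_mono (by omega) (by omega) h1
  have h1 : Antitone A := fun e e' he w hw => ⟨hw.1, fun h2 => hw.2 (Set.mem_iInter₂.2 fun j hj =>
    hm w hw.1 j e e' he (Set.mem_iInter₂.1 h2 j hj))⟩
  have h2 : ν (⋂ e, A e) = 0 := by
    refine measure_mono_null ?_ h
    intro w hw h3
    rw [Set.mem_iInter] at hw
    have h4 : ∀ᶠ e : ℕ in atTop, ∀ j ∈ J, ThinAt (dat φ ν w) j 0 (-e) ε :=
      (eventually_all_finset J).2 fun j hj => by
        obtain ⟨e, he⟩ := h3 j hj ε hε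
        exact (eventually_ge_atTop e).mono fun e' h5 => hm w (hw 0).1 j e e' h5 he
    obtain ⟨e, he⟩ := h4.exists
    exact (hw e).2 (Set.mem_iInter₂.2 he)
  have h3 := tendsto_measure_iInter_atTop (μ := ν) (fun e => (hA e).nullMeasurableSet) h1
    ⟨0, measure_ne_top _ _⟩
  rw [h2] at h3
  obtain ⟨e, he⟩ := (h3.eventually_lt_const hη).exists
  refine ⟨e, le_trans (measure_mono_ae ?_) he.le⟩
  filter_upwards [ae_Gd φ ν] with w hw h4
  exact ⟨hw, fun h5 => h4 (Set.mem_iInter₂.1 h5)⟩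

end Pool.Agent.EQ
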