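import Pool.Agent.P.MP_ad7a55_nt.Weak2
import Pool.Agent.P.MP_ad7a55_nt.Dec

/-! General facts of measure theory. -/

set_option autoImplicit false

noncomputable section

open MeasureTheory Topology Filter UpperHalfPlane
open scoped MatrixGroups ENNReal BoundedContinuousFunction

namespace Pool.Agent.EQ

open ProbabilityTheory

/-- The components of an ergodic measure along an invariant kernel. -/
theorem ae_eq_of_ergodic {Ω X : Type} [MeasurableSpace Ω] [MeasurableSpace X]
    [StandardBorelSpace X] (ν : Measure Ω) [IsProbabilityMeasure ν] {m : Measure X}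
    [IsProbabilityMeasure m] {T : X → X} (hT : Ergodic T m) (κ : Kernel Ω X) [IsMarkovKernel κ]
    (hb : ν.bind κ = m) (hi : ∀ᵐ ω ∂ν, (κ ω).map T = κ ω) : ∀ᵐ ω ∂ν, κ ω = m := by
  refine Kernel.ae_eq_of_compProd_eq (μ := ν) (κ := κ) (η := Kernel.const Ω m) ?_
  refine Measure.ext_prod fun {C U} hC hU => ?_
  have h2 : (ν.restrict C).bind κ ≤ m := by
    refine Measure.le_iff.2 fun U hU => ?_
    conv_rhs => rw [← hb]
    rw [Measure.bind_apply hU κ.measurable.aemeasurable,
      Measure.bind_apply hU κ.measurable.aemeasurable]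
    exact lintegral_mono' Measure.restrict_le_self le_rfl
  have hTm : Measurable T := hT.toMeasurePreserving.measurable
  have h3 : ((ν.restrict C).bind κ).map T = (ν.restrict C).bind κ := by
    ext U hU
    have hU' := hTm hU
    rw [Measure.map_apply hTm hU, Measure.bind_apply hU κ.measurable.aemeasurable,
      Measure.bind_apply hU' κ.measurable.aemeasurable]
    refine lintegral_congr_ae (ae_restrict_of_ae ?_)
    filter_upwards [hi] with w hw
    rw [← Measure.map_apply hTm hU, hw]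
  have : IsFiniteMeasure ((ν.restrict C).bind κ) := isFiniteMeasure_of_le m h2
  obtain ⟨c, hc⟩ := hT.eq_smul_of_absolutelyContinuous ⟨hTm, h3⟩
    (Measure.absolutelyContinuous_of_le h2)
  have h4 : c = ν C := by
    have := congrArg (fun μ : Measure X => μ Set.univ) hc
    simp only [Measure.bind_apply MeasurableSet.univ κ.measurable.aemeasurable] at this
    simpa using this.symm
  rw [Measure.compProd_apply_prod hC hU, Measure.compProd_apply_prod hC hU,
    ← Measure.bind_apply hU κ.measurable.aemeasurable, hc, h4]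
  simp [mul_comm]

theorem eq_of_le_ergodic {X : Type} [MeasurableSpace X] {m μ : Measure X} [IsProbabilityMeasure m]
    [IsProbabilityMeasure μ] {T : X → X} (hT : Ergodic T m) (hμ : μ.map T = μ) (h : μ ≪ m) :
    μ = m := by
  exact hT.eq_of_absolutelyContinuous ⟨hT.toMeasurePreserving.measurable, hμ⟩ h

/-- Conditional measures along the fibres of a measurable map. -/
theorem disint {W β : Type} [MeasurableSpace W] [StandardBorelSpace W] [MeasurableSpace β]
    [StandardBorelSpace β] (ν : Measure W) [IsProbabilityMeasure ν] {f : W → β}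
    (hf : Measurable f) : ∃ ρ : Kernel W W, IsMarkovKernel ρ ∧ ν.bind ρ = ν ∧
      (∀ᵐ w ∂ν, ∀ᵐ w' ∂ρ w, f w' = f w) ∧
      (∀ F G : W → ℝ≥0∞, Measurable F → Measurable G → ∀ B₀ : Set β, MeasurableSet B₀ →
        (∀ B ⊆ B₀, MeasurableSet B → ∫⁻ w in f ⁻¹' B, F w ∂ν = ∫⁻ w in f ⁻¹' B, G w ∂ν) →
        ∀ᵐ w ∂ν, f w ∈ B₀ → ∫⁻ x, F x ∂ρ w = ∫⁻ x, G x ∂ρ w) ∧
      ∀ T : W → W, Measurable T → ν.map T = ν → (∀ᵐ w ∂ν, f (T w) = f w) →
        ∀ᵐ w ∂ν, (ρ w).map T = ρ w := by
  have : Nonempty W := nonempty_of_isProbabilityMeasure ν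
  set κ := condDistrib id f ν with hκ
  have hcp : (ν.map f) ⊗ₘ κ = ν.map fun a => (f a, a) := by
    rw [hκ]
    exact compProd_map_condDistrib aemeasurable_id
  have hfa : Measurable fun a : W => (f a, a) := hf.prodMk measurable_id
  have hint : ∀ F : W → ℝ≥0∞, Measurable F → ∀ B : Set β, MeasurableSet B →
      ∫⁻ y in B, ∫⁻ x, F x ∂κ y ∂ν.map f = ∫⁻ w in f ⁻¹' B, F w ∂ν := by
    intro F hF B hB
    have h1 := Measure.setLIntegral_compProd (μ := ν.map f) (κ := κ)
      (f := fun z : β × W => F z.2) (hF.comp measurable_snd) hB MeasurableSet.univ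
    simp only [Measure.restrict_univ] at h1
    rw [← h1, hcp, Measure.restrict_map hfa (hB.prod MeasurableSet.univ),
      lintegral_map (f := fun z : β × W => F z.2) (hF.comp measurable_snd) hfa]
    have e : (fun a : W => (f a, a)) ⁻¹' (B ×ˢ Set.univ) = f ⁻¹' B := by
      ext a
      simp
    rw [e]
  refine ⟨κ.comap f hf, inferInstance, ?_, ?_, ?_, ?_⟩
  · ext U hU
    rw [Measure.bind_apply hU (κ.comap _ hf).measurable.aemeasurable]
    have := setLIntegral_preimage_condDistrib (μ := ν) hf aemeasurable_id hU MeasurableSet.univ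
    simpa using this
  · have h2 : ∀ᵐ y ∂ν.map f, ∀ᵐ x ∂κ y, f x = y := by
      refine Measure.ae_ae_of_ae_compProd (p := fun q : β × W => f q.2 = q.1) ?_
      rw [hcp]
      refine (ae_map_iff hfa.aemeasurable ?_).2 (Eventually.of_forall fun _ => rfl)
      exact measurableSet_eq_fun (hf.comp measurable_snd) measurable_fst
    filter_upwards [ae_of_ae_map hf.aemeasurable h2] with w hw
    rw [Kernel.comap_apply]
    exact hw
  · intro F G hF hG B₀ hB₀ h
    have h3 : (fun y => ∫⁻ x, F x ∂κ y) =ᵐ[(ν.map f).restrict B₀] fun y => ∫⁻ x, G x ∂κ y := by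
      refine ae_eq_of_forall_setLIntegral_eq_of_sigmaFinite hF.lintegral_kernel
        hG.lintegral_kernel fun B hB _ => ?_
      rw [Measure.restrict_restrict hB, hint F hF _ (hB.inter hB₀), hint G hG _ (hB.inter hB₀)]
      exact h _ Set.inter_subset_right (hB.inter hB₀)
    have h4 := (ae_restrict_iff' hB₀).1 h3
    filter_upwards [ae_of_ae_map hf.aemeasurable h4] with w hw
    rw [Kernel.comap_apply]
    exact hw
  · intro T hT hν hfT
    have h5 : κ =ᵐ[ν.map f] κ.map T := by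
      rw [hκ]
      refine condDistrib_ae_eq_of_measure_eq_compProd f aemeasurable_id ?_
      rw [Measure.compProd_map hT, ← hκ, hcp, Measure.map_map (measurable_id.prodMap hT) hfa]
      conv_lhs => rw [← hν]
      rw [Measure.map_map (hf.prodMk measurable_id) hT]
      refine Measure.map_congr ?_
      filter_upwards [hfT] with w hw
      simp [hw]
    filter_upwards [ae_of_ae_map hf.aemeasurable h5] with w hw
    rw [Kernel.comap_apply, ← Kernel.map_apply _ hT, ← hw]

theorem ugn_inner {W : Type} [TopologicalSpace W] [PolishSpace W] [MeasurableSpace W]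
    [BorelSpace W] (ν : Measure W) [IsFiniteMeasure ν] {A : Set W} (hA : ∀ᵐ w ∂ν, w ∈ A)
    {ε : ℝ≥0∞} (hε : 0 < ε) : ∃ C : Set W, IsCompact C ∧ C ⊆ A ∧ ν Cᶜ ≤ ε := by
  have h0 : ν (toMeasurable ν Aᶜ) = 0 := by
    rw [measure_toMeasurable]
    exact hA
  have hm := (measurableSet_toMeasurable ν Aᶜ).compl
  obtain ⟨C, hCA, hC, hε'⟩ := hm.exists_isCompact_sdiff_lt (measure_ne_top ν _) hε.ne'
  refine ⟨C, hC, fun x hx => ?_, ?_⟩
  · by_contra hxA
    exact hCA hx (subset_toMeasurable ν Aᶜ hxA)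
  · have : Cᶜ ⊆ (toMeasurable ν Aᶜ)ᶜ \ C ∪ toMeasurable ν Aᶜ := fun x hx => by
      by_cases h : x ∈ toMeasurable ν Aᶜ
      · exact Or.inr h
      · exact Or.inl ⟨h, hx⟩
    refine (measure_mono this).trans ((measure_union_le _ _).trans ?_)
    rw [h0, add_zero]
    exact hε'.le

theorem ugn_lusin {W β : Type} (t' : TopologicalSpace W) [t : TopologicalSpace W] (ht' : t' ≤ t)
    (hp : @PolishSpace W t') [PolishSpace W] [MeasurableSpace W] [BorelSpace W]
    [TopologicalSpace β] (ν : Measure W) [IsFiniteMeasure ν] {f : W → β}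
    (hc : @Continuous W β t' _ f) {A : Set W} (hA : ∀ᵐ w ∂ν, w ∈ A) {ε : ℝ≥0∞} (hε : 0 < ε) :
    ∃ C : Set W, IsCompact C ∧ C ⊆ A ∧ ν Cᶜ ≤ ε ∧ ContinuousOn f C := by
  have hb : @BorelSpace W t' _ :=
    @BorelSpace.mk W t' _ (by
      rw [borel_eq_borel_of_le hp inferInstance ht']
      exact BorelSpace.measurable_eq)
  obtain ⟨C, hC, hCA, hCε⟩ := @ugn_inner W t' hp _ hb ν _ A hA ε hε
  have hid := continuous_id_of_le ht'
  have key : ∀ S : Set W, @IsCompact W t' S → IsCompact S := fun S hS => by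
    have := @IsCompact.image W W t' _ S id hS hid
    rwa [Set.image_id] at this
  refine ⟨C, key C hC, hCA, hCε, continuousOn_iff_isClosed.2 fun F hF => ?_⟩
  refine ⟨f ⁻¹' F ∩ C, (key _ ?_).isClosed, by rw [Set.inter_assoc, Set.inter_self]⟩
  exact @IsCompact.inter_left W t' _ _ hC (@IsClosed.preimage W β t' _ f hc F hF)

/-- Lusin's theorem. -/
theorem lusin {W β : Type} [TopologicalSpace W] [PolishSpace W] [MeasurableSpace W] [BorelSpace W]
    [TopologicalSpace β] [SecondCountableTopology β] [MeasurableSpace β] [BorelSpace β]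
    (ν : Measure W) [IsFiniteMeasure ν] {f : W → β} (hf : Measurable f) {A : Set W}
    (hA : ∀ᵐ w ∂ν, w ∈ A) {ε : ℝ≥0∞} (hε : 0 < ε) :
    ∃ C : Set W, IsCompact C ∧ C ⊆ A ∧ ν Cᶜ ≤ ε ∧ ContinuousOn f C := by
  have key := fun t' ht' hp hc => ugn_lusin (f := f) t' ht' hp ν hc hA hε
  obtain ⟨t', ht', hc, hp⟩ := hf.exists_continuous
  exact key t' ht' hp hc

section UgnAux

open Set

variable {X : Type*}

/-- The maximum of the first Birkhoff sums. -/
noncomputable def ugnMax (T : X → X) (g : X → ℝ) : ℕ → X → ℝ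
  | 0, _ => 0
  | N + 1, x => max 0 (g x + ugnMax T g N (T x))

lemma ugnMax_nonneg (T : X → X) (g : X → ℝ) (N : ℕ) (x : X) : 0 ≤ ugnMax T g N x := by
  cases N with
  | zero => exact le_rfl
  | succ N => exact le_max_left _ _

lemma ugnMax_le_succ (T : X → X) (g : X → ℝ) (N : ℕ) (x : X) :
    ugnMax T g N x ≤ ugnMax T g (N + 1) x := by
  induction N generalizing x with
  | zero => exact ugnMax_nonneg T g 1 x
  | succ N ih =>
    have := ih (T x)
    exact max_le_max le_rfl (by linarith)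

lemma ugnMax_mono (T : X → X) (g : X → ℝ) (x : X) : Monotone fun N => ugnMax T g N x :=
  monotone_nat_of_le_succ fun N => ugnMax_le_succ T g N x

lemma ugn_sum_le_ergMax (T : X → X) (g : X → ℝ) (N : ℕ) (x : X) :
    birkhoffSum T g N x ≤ ugnMax T g N x := by
  induction N generalizing x with
  | zero => simp [ugnMax]
  | succ N ih =>
    rw [birkhoffSum_succ']
    have := ih (T x)
    exact le_trans (by linarith) (le_max_right _ _)

lemma ugnMax_eq_sum (T : X → X) (g : X → ℝ) (N : ℕ) (x : X) :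
    ∃ n, ugnMax T g N x = birkhoffSum T g n x := by
  induction N generalizing x with
  | zero => exact ⟨0, by simp [ugnMax]⟩
  | succ N ih =>
    obtain ⟨n, hn⟩ := ih (T x)
    rcases le_total 0 (g x + ugnMax T g N (T x)) with h | h
    · exact ⟨n + 1, by rw [birkhoffSum_succ', ← hn]; exact max_eq_right h⟩
    · exact ⟨0, by rw [birkhoffSum_zero]; exact max_eq_left h⟩

lemma ugnMax_le {T : X → X} {g : X → ℝ} {K : ℝ} (hK : ∀ x, |g x| ≤ K) (N : ℕ) (x : X) :
    ugnMax T g N x ≤ N * K := by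
  induction N generalizing x with
  | zero => simp [ugnMax]
  | succ N ih =>
    have h1 := ih (T x)
    have h2 := (abs_le.1 (hK x)).2
    have h3 : 0 ≤ K := (abs_nonneg _).trans (hK x)
    refine max_le (by positivity) ?_
    push_cast
    linarith

lemma ugn_abs_sum_le {T : X → X} {g : X → ℝ} {K : ℝ} (hK : ∀ x, |g x| ≤ K) (n : ℕ) (x : X) :
    |birkhoffSum T g n x| ≤ n * K := by
  induction n with
  | zero => simp
  | succ n ih =>
    rw [birkhoffSum_succ]
    have := abs_add_le (birkhoffSum T g n x) (g (T^[n] x))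
    have := hK (T^[n] x)
    push_cast
    linarith

lemma ugn_sum_sub_const (T : X → X) (g : X → ℝ) (c : ℝ) (n : ℕ) (x : X) :
    birkhoffSum T (fun y => g y - c) n x = birkhoffSum T g n x - c * n := by
  simp [birkhoffSum, mul_comm]

lemma ugn_sum_const_sub (T : X → X) (g : X → ℝ) (c : ℝ) (n : ℕ) (x : X) :
    birkhoffSum T (fun y => c - g y) n x = c * n - birkhoffSum T g n x := by
  simp [birkhoffSum, mul_comm]

variable [MeasurableSpace X]

lemma ugn_measurable_ergMax {T : X → X} {g : X → ℝ} (hT : Measurable T) (hg : Measurable g) (N : ℕ) :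
    Measurable (ugnMax T g N) := by
  induction N with
  | zero => exact measurable_const
  | succ N ih => exact measurable_const.max (hg.add (ih.comp hT))

lemma ugn_measurable_bsum {T : X → X} {g : X → ℝ} (hT : Measurable T) (hg : Measurable g) (n : ℕ) :
    Measurable (birkhoffSum T g n) :=
  Finset.measurable_sum _ fun k _ => hg.comp (hT.iterate k)

lemma ugn_integrable_of_abs_le {μ : Measure X} [IsFiniteMeasure μ] {g : X → ℝ} {K : ℝ}
    (hg : Measurable g) (hK : ∀ x, |g x| ≤ K) : Integrable g μ :=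
  Integrable.of_bound hg.aestronglyMeasurable K (Eventually.of_forall hK)

lemma ugn_integral_comp_mp {μ : Measure X} {T : X → X} (hT : MeasurePreserving T μ μ) {g : X → ℝ}
    (hg : Measurable g) : ∫ x, g (T x) ∂μ = ∫ x, g x ∂μ := by
  rw [← integral_map hT.measurable.aemeasurable hg.aestronglyMeasurable, hT.map_eq]

end UgnAux

section UgnB

open Set

variable {X : Type*} [MeasurableSpace X] {μ : Measure X} [IsProbabilityMeasure μ] {T : X → X}
  {g : X → ℝ} {K : ℝ}

/-- Hopf's maximal inequality. -/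
lemma ugn_hopf (hT : MeasurePreserving T μ μ) (hg : Measurable g) (hK : ∀ x, |g x| ≤ K) :
    0 ≤ ∫ x in {x | ∃ n, 0 < birkhoffSum T g n x}, g x ∂μ := by
  have hM := ugn_measurable_ergMax hT.measurable hg
  have hI : ∀ N, Integrable (ugnMax T g N) μ := fun N =>
    ugn_integrable_of_abs_le (K := N * K) (hM N) fun x => by
      rw [abs_of_nonneg (ugnMax_nonneg T g N x)]; exact ugnMax_le hK N x
  have hI' : ∀ N, Integrable (fun x => ugnMax T g N (T x)) μ := fun N =>
    ugn_integrable_of_abs_le (K := N * K) ((hM N).comp hT.measurable) fun x => by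
      rw [abs_of_nonneg (ugnMax_nonneg T g N _)]; exact ugnMax_le hK N _
  have hgI : Integrable g μ := ugn_integrable_of_abs_le hg hK
  set E : ℕ → Set X := fun N => {x | 0 < ugnMax T g (N + 1) x} with hE
  have hEm : ∀ N, MeasurableSet (E N) := fun N => measurableSet_lt measurable_const (hM _)
  have hmono : Monotone E := fun a b hab x hx =>
    lt_of_lt_of_le hx (ugnMax_mono T g x (Nat.succ_le_succ hab))
  have hU : {x | ∃ n, 0 < birkhoffSum T g n x} = ⋃ N, E N := by
    ext x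
    simp only [mem_ofPred_eq, mem_iUnion, hE]
    constructor
    · rintro ⟨n, hn⟩
      exact ⟨n, hn.trans_le ((ugn_sum_le_ergMax T g n x).trans (ugnMax_le_succ T g n x))⟩
    · rintro ⟨N, hN⟩
      obtain ⟨n, hn⟩ := ugnMax_eq_sum T g (N + 1) x
      exact ⟨n, hn ▸ hN⟩
  rw [hU]
  refine ge_of_tendsto' (tendsto_setIntegral_of_monotone hEm hmono hgI.integrableOn) fun N => ?_
  rw [← integral_indicator (hEm N)]
  have h1 : ∫ x, (ugnMax T g (N + 1) x - ugnMax T g N (T x)) ∂μ ≤ ∫ x, (E N).indicator g x ∂μ := by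
    refine integral_mono ((hI _).sub (hI' _)) (hgI.indicator (hEm N)) fun x => ?_
    by_cases hx : x ∈ E N
    · rw [indicator_of_mem hx]
      have h2 : 0 < max 0 (g x + ugnMax T g N (T x)) := hx
      have h3 : ugnMax T g (N + 1) x = g x + ugnMax T g N (T x) :=
        max_eq_right ((lt_max_iff.1 h2).resolve_left (lt_irrefl _)).le
      simp only [h3]
      linarith
    · rw [indicator_of_notMem hx]
      have h2 : ugnMax T g (N + 1) x ≤ 0 := not_lt.1 hx
      have := ugnMax_nonneg T g N (T x)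
      simp only
      linarith
  rw [integral_sub (hI _) (hI' _), ugn_integral_comp_mp hT (hM N)] at h1
  have h2 : ∫ x, ugnMax T g N x ∂μ ≤ ∫ x, ugnMax T g (N + 1) x ∂μ :=
    integral_mono (hI _) (hI _) fun x => ugnMax_le_succ T g N x
  linarith

lemma ugn_weak (hT : MeasurePreserving T μ μ) (hg : Measurable g) (hK : ∀ x, |g x| ≤ K)
    (h0 : ∀ x, 0 ≤ g x) (θ : ℝ) :
    θ * μ.real {x | ∃ n : ℕ, θ * n < birkhoffSum T g n x} ≤ ∫ x, g x ∂μ := by
  have hgI : Integrable g μ := ugn_integrable_of_abs_le hg hK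
  have h1 := ugn_hopf (g := fun x => g x - θ) (K := K + |θ|) hT (hg.sub measurable_const) fun x =>
    (abs_sub _ _).trans (by linarith [hK x])
  simp only [ugn_sum_sub_const, sub_pos] at h1
  rw [integral_sub hgI.integrableOn (integrable_const _), setIntegral_const, smul_eq_mul] at h1
  have h2 := setIntegral_le_integral (s := {x | ∃ n : ℕ, θ * n < birkhoffSum T g n x}) hgI
    (Eventually.of_forall h0)
  linarith

end UgnB

open Classical in
/-- The maximal inequality for the frequency of visits. -/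
theorem hopf_count {W : Type} [MeasurableSpace W] (ν : Measure W) [IsProbabilityMeasure ν]
    {T : W → W} (hT : MeasurePreserving T ν ν) (B : Set W) {θ : ℝ} (hθ : 0 ≤ θ) :
    ENNReal.ofReal θ * ν {w | ∃ N : ℕ,
      θ * N < ((Finset.range N).filter fun t => T^[t] w ∈ B).card} ≤ ν B := by
  set B' := toMeasurable ν B with hB'
  have hm : MeasurableSet B' := measurableSet_toMeasurable ν B
  have h1 := ugn_weak (g := B'.indicator fun _ => (1 : ℝ)) (K := 1) hT
    (measurable_const.indicator hm)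
    (fun x => by by_cases hx : x ∈ B' <;> simp [hx])
    (fun x => Set.indicator_nonneg (fun _ _ => zero_le_one) x) θ
  rw [integral_indicator hm, setIntegral_const, smul_eq_mul, mul_one] at h1
  have h2 : {w | ∃ N : ℕ, θ * N < ((Finset.range N).filter fun t => T^[t] w ∈ B).card} ⊆
      {x | ∃ n : ℕ, θ * n < birkhoffSum T (B'.indicator fun _ => (1 : ℝ)) n x} := by
    rintro w ⟨N, hN⟩
    refine ⟨N, hN.trans_le ?_⟩
    rw [Finset.card_filter, birkhoffSum]
    push_cast
    refine Finset.sum_le_sum fun t _ => ?_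
    by_cases ht : T^[t] w ∈ B
    · rw [if_pos ht, Set.indicator_of_mem (subset_toMeasurable ν B ht)]
    · rw [if_neg ht]
      exact Set.indicator_nonneg (fun _ _ => zero_le_one) _
  refine (mul_le_mul_right (measure_mono h2) _).trans ?_
  rw [← measure_toMeasurable B, ← hB', ← ENNReal.ofReal_toReal (measure_ne_top ν B'),
    ← ENNReal.ofReal_toReal (measure_ne_top ν {x | ∃ n : ℕ, θ * n < birkhoffSum T _ n x}),
    ← ENNReal.ofReal_mul hθ]
  exact ENNReal.ofReal_le_ofReal h1

theorem WT.prod {W : Type} [TopologicalSpace W] [PolishSpace W] [MeasurableSpace W] [BorelSpace W]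
    {L : Filter ℕ} {μ μ' : ℕ → Measure W} {ν ν' : Measure W} [∀ i, IsProbabilityMeasure (μ i)]
    [∀ i, IsProbabilityMeasure (μ' i)] [IsProbabilityMeasure ν] [IsProbabilityMeasure ν']
    (h : WT L μ ν) (h' : WT L μ' ν') : WT L (fun i => (μ i).prod (μ' i)) (ν.prod ν') := by
  have h2 := (ProbabilityMeasure.continuous_prod.tendsto _).comp
    ((weak_aux1 h).prodMk_nhds (weak_aux1 h'))
  exact fun f => ProbabilityMeasure.tendsto_iff_forall_integral_tendsto.1 h2 f

/-- A countable family of test functions. -/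
theorem exists_test (W : Type) [TopologicalSpace W] [PolishSpace W] [MeasurableSpace W]
    [BorelSpace W] : ∃ F : ℕ → W → ℝ≥0∞, (∀ n, Continuous (F n) ∧ ∀ w, F n w ≤ 1) ∧
      ∀ μ μ' : Measure W, IsProbabilityMeasure μ → IsProbabilityMeasure μ' →
        (∀ n, ∫⁻ w, F n w ∂μ = ∫⁻ w, F n w ∂μ') → μ = μ' := by
  obtain ⟨B, hB⟩ := dec_basis (W := W)
  have hF : ∀ n, IsClosed (B n)ᶜ := fun n => (hB.2.1 n).isClosed_compl
  refine ⟨fun n w => ((hF n.unpair.1).apprSeq n.unpair.2 w : ℝ≥0∞), fun n => ⟨?_, fun w => ?_⟩,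
    fun μ μ' hμ hμ' h => dec_ext hB fun n => ?_⟩
  · exact ENNReal.continuous_coe.comp ((hF n.unpair.1).apprSeq n.unpair.2).continuous
  · exact ENNReal.coe_le_one_iff.2 (HasOuterApproxClosed.apprSeq_apply_le_one _ _ _)
  · have h1 := HasOuterApproxClosed.tendsto_lintegral_apprSeq (hF n) μ
    have h2 := HasOuterApproxClosed.tendsto_lintegral_apprSeq (hF n) μ'
    have h3 : ∀ k, ∫⁻ x, (hF n).apprSeq k x ∂μ = ∫⁻ x, (hF n).apprSeq k x ∂μ' := fun k => by
      have := h (Nat.pair n k)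
      simpa only [Nat.unpair_pair] using this
    simp only [h3] at h1
    have h4 := tendsto_nhds_unique h1 h2
    have hm := (hF n).measurableSet
    rw [← compl_compl (B n), prob_compl_eq_one_sub hm, prob_compl_eq_one_sub hm, h4]

theorem ugn_sum {Ω C : Type} [MeasurableSpace Ω] [Countable C] (t : Measure Ω) (c : Ω → C)
    (hc : ∀ x, MeasurableSet (c ⁻¹' {x})) {S : Set Ω} (hS : MeasurableSet S) (g : Ω → ℝ≥0∞) :
    ∫⁻ v in S, g v ∂t = ∑' y, ∫⁻ v in S ∩ c ⁻¹' {y}, g v ∂t := by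
  rw [← lintegral_iUnion (fun y => hS.inter (hc y))]
  · congr 2
    ext v
    simp
  · intro y y' h
    refine Set.disjoint_left.2 fun v h1 h2 => h ?_
    exact (show c v = y from h1.2).symm.trans h2.2

theorem ugn_amgm (φ l : ℝ≥0∞) (hl : l ≠ ∞) : 2 * l ≤ φ + l ^ 2 * φ⁻¹ := by
  rcases eq_or_ne l 0 with rfl | h0
  · simp
  rcases eq_or_ne φ 0 with rfl | h1
  · simp [h0]
  rcases eq_or_ne φ ∞ with rfl | h2
  · simp
  lift l to NNReal using hl
  lift φ to NNReal using h2
  have h3 : φ ≠ 0 := by simpa using h1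
  rw [← ENNReal.coe_inv h3]
  norm_cast
  rw [← NNReal.coe_le_coe]
  push_cast
  have h4 : (0 : ℝ) < φ := NNReal.coe_pos.2 (pos_iff_ne_zero.2 h3)
  rw [← div_eq_mul_inv, add_div' _ _ _ h4.ne', le_div_iff₀ h4]
  nlinarith [sq_nonneg ((φ : ℝ) - l)]

theorem ugn_div (u w : ℝ≥0∞) (hw : w ≠ ∞) (h : u ≤ w) : (u / w)⁻¹ * u ≤ w := by
  rcases eq_or_ne u 0 with rfl | h0
  · simp
  have hu : u ≠ ∞ := ne_top_of_le_ne_top hw h
  rw [ENNReal.inv_div (Or.inl hw) (Or.inr h0), ENNReal.div_mul_cancel h0 hu]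

theorem ugn_cs {Ω C : Type} [MeasurableSpace Ω] [Countable C] (t : Measure Ω) [IsFiniteMeasure t]
    (c : Ω → C) (hc : ∀ x, MeasurableSet (c ⁻¹' {x})) {S R : Set Ω} (hS : MeasurableSet S)
    (hR : MeasurableSet R) (h : ∀ v ∈ S, c ⁻¹' {c v} ⊆ R) :
    t S / t R * t S ≤ ∫⁻ v in S, t (S ∩ c ⁻¹' {c v}) / t (c ⁻¹' {c v}) ∂t := by
  have hSR : S ⊆ R := fun v hv => h v hv rfl
  rcases eq_or_ne (t R) 0 with h0 | h0
  · simp [measure_mono_null hSR h0]
  set l := t S / t R with hl
  have hlt : l ≠ ∞ := ENNReal.div_ne_top (measure_ne_top _ _) h0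
  have hlR : l * t R = t S := ENNReal.div_mul_cancel h0 (measure_ne_top _ _)
  set φ : Ω → ℝ≥0∞ := fun v => t (S ∩ c ⁻¹' {c v}) / t (c ⁻¹' {c v}) with hφ
  have hφm : Measurable φ := by
    let : MeasurableSpace C := ⊤
    have hcm : Measurable c := measurable_to_countable' hc
    exact (measurable_from_top (f := fun y : C => t (S ∩ c ⁻¹' {y}) / t (c ⁻¹' {y}))).comp hcm
  have h1 : ∫⁻ v in S, (φ v)⁻¹ ∂t ≤ t R := by
    rw [ugn_sum t c hc hS, ← setLIntegral_one R, ugn_sum t c hc hR]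
    refine ENNReal.tsum_le_tsum fun y => ?_
    rcases (S ∩ c ⁻¹' {y}).eq_empty_or_nonempty with h2 | ⟨v₀, hv₀⟩
    · simp [h2]
    have hy : c v₀ = y := hv₀.2
    have h3 : R ∩ c ⁻¹' {y} = c ⁻¹' {y} := Set.inter_eq_right.2 (hy ▸ h v₀ hv₀.1)
    have h4 : ∫⁻ v in S ∩ c ⁻¹' {y}, (φ v)⁻¹ ∂t =
        (t (S ∩ c ⁻¹' {y}) / t (c ⁻¹' {y}))⁻¹ * t (S ∩ c ⁻¹' {y}) := by
      rw [← setLIntegral_const]
      refine setLIntegral_congr_fun (hS.inter (hc y)) fun v hv => ?_
      have hv' : c v = y := hv.2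
      simp only [hφ, hv']
    rw [h4, h3, setLIntegral_one]
    exact ugn_div _ _ (measure_ne_top _ _) (measure_mono Set.inter_subset_right)
  have h5 : 2 * l * t S ≤ ∫⁻ v in S, φ v ∂t + l * t S := by
    calc 2 * l * t S = ∫⁻ _ in S, 2 * l ∂t := (setLIntegral_const _ _).symm
      _ ≤ ∫⁻ v in S, (φ v + l ^ 2 * (φ v)⁻¹) ∂t := lintegral_mono fun v => ugn_amgm _ _ hlt
      _ = ∫⁻ v in S, φ v ∂t + l ^ 2 * ∫⁻ v in S, (φ v)⁻¹ ∂t := by
        rw [lintegral_add_left hφm, lintegral_const_mul (f := fun v => (φ v)⁻¹) _ hφm.inv]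
      _ ≤ ∫⁻ v in S, φ v ∂t + l ^ 2 * t R := by gcongr
      _ = _ := by rw [pow_two, mul_assoc, hlR]
  rw [mul_assoc, two_mul] at h5
  exact (ENNReal.add_le_add_iff_right (ENNReal.mul_ne_top hlt (measure_ne_top _ _))).1 h5

/-- The Cauchy-Schwarz inequality for three partitions. -/
theorem cs_part {Ω A B C : Type} [MeasurableSpace Ω] [Countable A] [Countable B] [Countable C]
    (t : Measure Ω) [IsFiniteMeasure t] (a : Ω → A) (b : Ω → B) (c : Ω → C)
    (ha : ∀ x, MeasurableSet (a ⁻¹' {x})) (hb : ∀ x, MeasurableSet (b ⁻¹' {x}))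
    (hc : ∀ x, MeasurableSet (c ⁻¹' {x})) (hcb : ∀ v v', c v = c v' → b v = b v')
    (hab : ∀ v v', a v = a v' → b v = b v') :
    ∫⁻ v, t (a ⁻¹' {a v}) / t (b ⁻¹' {b v}) ∂t ≤
      ∫⁻ v, t (a ⁻¹' {a v} ∩ c ⁻¹' {c v}) / t (c ⁻¹' {c v}) ∂t := by
  have e : ∀ g : Ω → ℝ≥0∞, ∫⁻ v, g v ∂t = ∑' x, ∫⁻ v in a ⁻¹' {x}, g v ∂t := fun g => by
    have := ugn_sum t a ha MeasurableSet.univ g
    simpa only [Measure.restrict_univ, Set.univ_inter] using this
  rw [e, e]
  refine ENNReal.tsum_le_tsum fun x => ?_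
  rcases (a ⁻¹' {x}).eq_empty_or_nonempty with h0 | ⟨v₀, hv₀⟩
  · simp [h0]
  have hv₀' : a v₀ = x := hv₀
  have h1 : ∫⁻ v in a ⁻¹' {x}, t (a ⁻¹' {a v}) / t (b ⁻¹' {b v}) ∂t =
      t (a ⁻¹' {x}) / t (b ⁻¹' {b v₀}) * t (a ⁻¹' {x}) := by
    rw [← setLIntegral_const]
    refine setLIntegral_congr_fun (ha x) fun v hv => ?_
    have hv' : a v = x := hv
    simp only [hv', hab v v₀ (hv'.trans hv₀'.symm)]
  have h2 : ∫⁻ v in a ⁻¹' {x}, t (a ⁻¹' {a v} ∩ c ⁻¹' {c v}) / t (c ⁻¹' {c v}) ∂t =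
      ∫⁻ v in a ⁻¹' {x}, t (a ⁻¹' {x} ∩ c ⁻¹' {c v}) / t (c ⁻¹' {c v}) ∂t := by
    refine setLIntegral_congr_fun (ha x) fun v hv => ?_
    have hv' : a v = x := hv
    simp only [hv']
  rw [h1, h2]
  refine ugn_cs t c hc (ha x) (hb _) fun v hv v' hv' => ?_
  have hv1 : a v = x := hv
  exact (hcb v' v hv').trans (hab v v₀ (hv1.trans hv₀'.symm))

end Pool.Agent.EQ
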