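import Pool.Agent.P.MP_ad7a55_nt.UAt
import Pool.Agent.P.MP_ad7a55_nt.UGn

/-! Every direction is concentrated or thin. -/

set_option autoImplicit false

noncomputable section

open MeasureTheory Topology Filter UpperHalfPlane
open scoped MatrixGroups ENNReal BoundedContinuousFunction

namespace Pool.Agent.EQ

theorem uat2_quot {Ω Q : Type} [Countable Q] (R : Ω → Ω → Prop) (hR : Equivalence R) (r : Q → Ω)
    (h : ∀ v, ∃ q, R v (r q)) : ∃ (A : Type) (_ : Countable A) (a : Ω → A),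
      Function.Surjective a ∧ ∀ v v', a v = a v' ↔ R v v' := by
  refine ⟨Quotient ⟨R, hR⟩, ?_, Quotient.mk _, Quotient.mk_surjective, fun v v' => Quotient.eq⟩
  refine Function.Surjective.countable (f := fun q => Quotient.mk ⟨R, hR⟩ (r q)) fun x => ?_
  obtain ⟨v, rfl⟩ := Quotient.mk_surjective x
  obtain ⟨q, hq⟩ := h v
  exact ⟨q, Quotient.sound (hR.symm hq)⟩

variable {p : ℕ} [Fact p.Prime] {ι : Type} [Fintype ι]

theorem uat2_mono {k l : ℤ} (h : l ≤ k) : (p : ℝ) ^ l ≤ (p : ℝ) ^ k :=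
  zpow_le_zpow_right₀ (by exact_mod_cast (Fact.out : p.Prime).one_le) h

omit [Fact p.Prime] in
theorem uat2_nonneg (l : ℤ) : 0 ≤ (p : ℝ) ^ l := by positivity

theorem uat2_add {x y : ℚ_[p]} {r : ℝ} (hx : ‖x‖ ≤ r) (hy : ‖y‖ ≤ r) : ‖x + y‖ ≤ r :=
  (Padic.nonarchimedean x y).trans (max_le hx hy)

theorem uat2_meas (j : ι) (s : ℚ_[p]) (r : ℝ) : MeasurableSet {v : ι → ℚ_[p] | ‖v j - s‖ ≤ r} :=
  (isClosed_le (by fun_prop) continuous_const).measurableSet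

theorem uat2_cls (j : ι) (l : ℤ) : ∃ (A : Type) (_ : Countable A) (a : (ι → ℚ_[p]) → A),
    (∀ x, MeasurableSet (a ⁻¹' {x})) ∧ ∀ v v', a v = a v' ↔ ‖v j - v' j‖ ≤ (p : ℝ) ^ l := by
  obtain ⟨A, hA, a, h1, h2⟩ := uat2_quot (fun v v' : ι → ℚ_[p] => ‖v j - v' j‖ ≤ (p : ℝ) ^ l)
    ⟨fun v => by rw [sub_self, norm_zero]; exact uat2_nonneg l,
      fun h => by rwa [norm_sub_rev], fun h h' => by simpa using uat2_add h h'⟩
    (fun (q : ι → ℚ) i => (q i : ℚ_[p])) fun v => by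
      obtain ⟨q, hq⟩ := exists_rat_V v l
      exact ⟨q, (norm_le_pi_norm (v - fun i => (q i : ℚ_[p])) j).trans hq⟩
  refine ⟨A, hA, a, fun x => ?_, h2⟩
  obtain ⟨v, rfl⟩ := h1 x
  rw [show a ⁻¹' {a v} = {u | ‖u j - v j‖ ≤ (p : ℝ) ^ l} from Set.ext fun u => h2 u v]
  exact uat2_meas j _ _

theorem uat2_clsV (l : ℤ) : ∃ (A : Type) (_ : Countable A) (a : (ι → ℚ_[p]) → A),
    (∀ x, MeasurableSet (a ⁻¹' {x})) ∧ ∀ v v', a v = a v' ↔ ‖v - v'‖ ≤ (p : ℝ) ^ l := by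
  obtain ⟨A, hA, a, h1, h2⟩ := uat2_quot (fun v v' : ι → ℚ_[p] => ‖v - v'‖ ≤ (p : ℝ) ^ l)
    ⟨fun v => by rw [sub_self, norm_zero]; exact uat2_nonneg l,
      fun h => by rwa [norm_sub_rev], fun h h' => by simpa using norm_add_V h h'⟩
    (fun (q : ι → ℚ) i => (q i : ℚ_[p])) fun v => exists_rat_V v l
  refine ⟨A, hA, a, fun x => ?_, h2⟩
  obtain ⟨v, rfl⟩ := h1 x
  rw [show a ⁻¹' {a v} = {u | ‖u - v‖ ≤ (p : ℝ) ^ l} from Set.ext fun u => h2 u v]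
  exact (isClosed_le (by fun_prop) continuous_const).measurableSet

theorem uat2_ae (δ : Dat p ι) (k l : ℤ) : ∀ᵐ v ∂lw δ k l, ‖v‖ ≤ (p : ℝ) ^ k :=
  (withDensity_absolutelyContinuous _ _).ae_le (bmV_ae k)

variable {W : Type} [TopologicalSpace W] [PolishSpace W] [MeasurableSpace W] [BorelSpace W]
  (φ : Flow (ι → ℚ_[p]) W) (ν : Measure W)

theorem uat2_inv (j : ι) {k l : ℤ} (hl : l ≤ k) {v : ι → ℚ_[p]} (hv : ‖v‖ ≤ (p : ℝ) ^ l) (w : W) :
    sl (dat φ ν (φ v w)) j k l 0 = sl (dat φ ν w) j k l 0 := by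
  rw [sl_flow φ ν j l (hv.trans (uat2_mono hl))]
  refine sl_congr _ j k ?_
  rw [zero_add, sub_zero]
  exact (norm_le_pi_norm v j).trans hv

variable {φ ν}

theorem uat2_le_one {w : W} (h : Gd φ ν w) (j : ι) {k l : ℤ} (hl : l ≤ k) (s : ℚ_[p]) :
    sl (dat φ ν w) j k l s ≤ 1 := by
  have := h.prob hl
  exact prob_le_one

theorem uat2_anti {w : W} (h : Gd φ ν w) (j : ι) {k l m : ℤ} (hm : m ≤ l) (hl : l ≤ k)
    (s : ℚ_[p]) : sl (dat φ ν w) j k m s ≤ sl (dat φ ν w) j k l s := by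
  rw [← h.slab j hm hl s]
  exact measure_mono fun v hv => le_trans hv (uat2_mono hm)

theorem uat2_cs {w : W} (h : Gd φ ν w) (j : ι) {k k' l : ℤ} (hl : l ≤ k') (hk : k' ≤ k) :
    ∫⁻ v, sl (dat φ ν (φ v w)) j k l 0 / sl (dat φ ν (φ v w)) j k k' 0 ∂lw (dat φ ν w) k l ≤
      ∫⁻ v, sl (dat φ ν (φ v w)) j k' l 0 ∂lw (dat φ ν w) k l := by
  have := h.prob (hl.trans hk)
  obtain ⟨A, _, a, a1, a2⟩ := uat2_cls (p := p) j l
  obtain ⟨B, _, b, b1, b2⟩ := uat2_cls (p := p) j k'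
  obtain ⟨C, _, c, c1, c2⟩ := uat2_clsV (p := p) (ι := ι) k'
  have key := cs_part (lw (dat φ ν w) k l) a b c a1 b1 c1
    (fun v v' e => (b2 v v').2 ((norm_le_pi_norm (v - v') j).trans ((c2 v v').1 e)))
    fun v v' e => (b2 v v').2 (((a2 v v').1 e).trans (uat2_mono hl))
  refine le_trans (le_of_eq (lintegral_congr_ae ?_)) (key.trans (lintegral_mono_ae ?_))
  · filter_upwards [uat2_ae (dat φ ν w) k l] with v hv
    rw [sl_flow φ ν j l hv, sl_flow φ ν j k' hv, zero_add, ← h.slab j hl hk,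
      show a ⁻¹' {a v} = {u | ‖u j - v j‖ ≤ (p : ℝ) ^ l} from Set.ext fun u => a2 u v,
      show b ⁻¹' {b v} = {u | ‖u j - v j‖ ≤ (p : ℝ) ^ k'} from Set.ext fun u => b2 u v]
    rfl
  · filter_upwards [uat2_ae (dat φ ν w) k l] with v hv
    have h1 := h.local hl hk hv (uat2_meas j 0 ((p : ℝ) ^ l))
    have h2 := h.level hl hk (S := {u | ‖u - v‖ ≤ (p : ℝ) ^ k'}) fun u hu x hx => by
      have := norm_add_V (show ‖u - v‖ ≤ (p : ℝ) ^ k' from hu) hx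
      rwa [sub_add_eq_add_sub] at this
    have e1 : c ⁻¹' {c v} = {u | ‖u - v‖ ≤ (p : ℝ) ^ k'} := Set.ext fun u => c2 u v
    have e2 : a ⁻¹' {a v} ∩ c ⁻¹' {c v} = {u | ‖u - v‖ ≤ (p : ℝ) ^ k' ∧
        u - v ∈ {x : ι → ℚ_[p] | ‖x j - 0‖ ≤ (p : ℝ) ^ l}} := by
      ext u
      simp only [Set.mem_inter_iff, Set.mem_preimage, Set.mem_singleton_iff, a2, c2,
        Set.mem_ofPred_eq, Pi.sub_apply, sub_zero]
      exact and_comm
    rw [e2, e1, h1, h2]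
    exact ENNReal.div_le_of_le_mul' le_rfl

variable (φ ν) [IsProbabilityMeasure ν]

theorem at_cs (j : ι) {k k' l : ℤ} (hl : l ≤ k') (hk : k' ≤ k) :
    ∫⁻ w, sl (dat φ ν w) j k l 0 / sl (dat φ ν w) j k k' 0 ∂ν ≤
      ∫⁻ w, sl (dat φ ν w) j k' l 0 ∂ν := by
  rw [← lint_lw φ ν (hl.trans hk)
      ((measurable_sl φ ν j k l 0).fun_div (measurable_sl φ ν j k k' 0)) fun v hv w => by
        rw [uat2_inv φ ν j (hl.trans hk) hv, uat2_inv φ ν j hk (hv.trans (uat2_mono hl))],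
    ← lint_lw φ ν (hl.trans hk) (measurable_sl φ ν j k' l 0) fun v hv w => uat2_inv φ ν j hl hv w]
  refine lintegral_mono_ae ?_
  filter_upwards [ae_Gd φ ν] with w hw
  exact uat2_cs hw j hl hk

theorem at_sq (j : ι) {k l : ℤ} (hl : l ≤ k) {A : Set W} (hA : MeasurableSet A)
    (hi : ∀ v w, w ∈ A → φ v w ∈ A) (ε : ℝ≥0∞) :
    ε ^ 2 * ν {w | w ∈ A ∧ ¬ ThinAt (dat φ ν w) j k l ε} ≤
      ∫⁻ w in A, sl (dat φ ν w) j k l 0 ∂ν := by
  have hi' : ∀ v w, φ v w ∈ A → w ∈ A := fun v w h => by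
    have h1 := hi (-v) _ h
    rwa [← φ.map_add, neg_add_cancel, φ.map_zero_apply] at h1
  have hB : MeasurableSet {w | w ∈ A ∧ ¬ ThinAt (dat φ ν w) j k l ε} :=
    hA.inter (measurableSet_thinAt φ ν j k l ε).compl
  rw [← lintegral_indicator hA, ← lint_lw φ ν hl ((measurable_sl φ ν j k l 0).indicator hA)
    fun v hv w => by
      by_cases hw : w ∈ A
      · rw [Set.indicator_of_mem hw, Set.indicator_of_mem (hi v w hw), uat2_inv φ ν j hl hv]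
      · rw [Set.indicator_of_notMem hw, Set.indicator_of_notMem fun h => hw (hi' v w h)],
    ← lintegral_indicator_const hB]
  refine lintegral_mono fun w => ?_
  by_cases hw : w ∈ {w | w ∈ A ∧ ¬ ThinAt (dat φ ν w) j k l ε}
  · rw [Set.indicator_of_mem hw]
    obtain ⟨s, hs⟩ := not_forall.1 hw.2
    have h1 := (not_le.1 hs).le
    calc ε ^ 2 ≤ sl (dat φ ν w) j k l s * sl (dat φ ν w) j k l s := by
          rw [sq]
          exact mul_le_mul' h1 h1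
      _ = ∫⁻ v, {v : ι → ℚ_[p] | ‖v j - s‖ ≤ (p : ℝ) ^ l}.indicator
            (fun _ => sl (dat φ ν w) j k l s) v ∂lw (dat φ ν w) k l :=
          (lintegral_indicator_const (uat2_meas j s _) _).symm
      _ ≤ _ := by
          refine lintegral_mono_ae ?_
          filter_upwards [uat2_ae (dat φ ν w) k l] with v hv
          by_cases h2 : v ∈ {v : ι → ℚ_[p] | ‖v j - s‖ ≤ (p : ℝ) ^ l}
          · rw [Set.indicator_of_mem h2, Set.indicator_of_mem (hi v w hw.1), sl_flow φ ν j l hv,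
              zero_add]
            exact (sl_congr _ j k h2).ge
          · rw [Set.indicator_of_notMem h2]
            exact zero_le
  · rw [Set.indicator_of_notMem hw]
    exact zero_le

variable {φ ν}

theorem uat2_shift {T : W ≃ᵐ W} {a : ℚ_[p]} {e : ℤ} (h : Sys φ ν T a e) (j : ι) (k l : ℤ)
    (i : ℕ) : ∫⁻ w, sl (dat φ ν w) j (k + i * e) (l + i * e) 0 ∂ν =
      ∫⁻ w, sl (dat φ ν w) j k l 0 ∂ν := by
  have step : ∀ k l : ℤ, ∫⁻ w, sl (dat φ ν w) j (k + e) (l + e) 0 ∂ν =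
      ∫⁻ w, sl (dat φ ν w) j k l 0 ∂ν := fun k l => by
    have h1 := lintegral_map (μ := ν) (measurable_sl φ ν j (k + e) (l + e) 0) T.measurable
    rw [h.inv] at h1
    rw [h1]
    refine lintegral_congr_ae ?_
    filter_upwards [h.dat_eq] with w hw
    rw [← hw, sl_shD h.nrm, mul_zero]
  induction i with
  | zero => simp only [Nat.cast_zero, zero_mul, add_zero]
  | succ i ih =>
    rw [← ih, ← step (k + i * e)]
    push_cast
    rw [add_mul, one_mul, ← add_assoc, ← add_assoc]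

theorem uat2_iInf (j : ι) (k : ℤ) (μ : Measure W) (hμ : μ ≤ ν) :
    ∫⁻ w, ⨅ n : ℕ, sl (dat φ ν w) j k (k - n) 0 ∂μ = ⨅ n : ℕ, ∫⁻ w, sl (dat φ ν w) j k (k - n) 0 ∂μ ∧
      ∫⁻ w, ⨅ n : ℕ, sl (dat φ ν w) j k (k - n) 0 ∂μ ≠ ∞ := by
  have hG : ∀ᵐ w ∂μ, Gd φ ν w := (Measure.absolutelyContinuous_of_le hμ).ae_le (ae_Gd φ ν)
  have h1 : ∫⁻ w, sl (dat φ ν w) j k (k - (0 : ℕ)) 0 ∂μ ≠ ∞ := by
    refine ne_top_of_le_ne_top (b := ∫⁻ _, 1 ∂ν) (by simp) ?_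
    refine le_trans (lintegral_mono_ae ?_) (lintegral_mono' hμ le_rfl)
    filter_upwards [hG] with w hw
    exact uat2_le_one hw j (by omega) 0
  refine ⟨lintegral_iInf_ae (fun n => measurable_sl φ ν j k _ 0) (fun n => ?_) h1,
    ne_top_of_le_ne_top h1 (lintegral_mono fun w => iInf_le _ 0)⟩
  filter_upwards [hG] with w hw
  exact uat2_anti hw j (by push_cast; omega) (by omega) 0

theorem uat2_or {T : W ≃ᵐ W} {a : ℚ_[p]} {e : ℤ} (h : Sys φ ν T a e) (he : e < 0) (j : ι) (k : ℤ)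
    (i : ℕ) : ∀ᵐ w ∂ν, ⨅ n : ℕ, sl (dat φ ν w) j k (k - n) 0 = 0 ∨
      sl (dat φ ν w) j k (k + i * e) 0 = 1 := by
  obtain ⟨h1, h2⟩ := uat2_iInf (φ := φ) (ν := ν) j k ν le_rfl
  have hie : (i : ℤ) * e ≤ 0 := mul_nonpos_of_nonneg_of_nonpos (Nat.cast_nonneg i) he.le
  have hm : Measurable fun w => ⨅ n : ℕ, sl (dat φ ν w) j k (k - n) 0 :=
    Measurable.iInf fun n => measurable_sl φ ν j k _ 0
  have h3 : ∫⁻ w, (⨅ n : ℕ, sl (dat φ ν w) j k (k - n) 0) / sl (dat φ ν w) j k (k + i * e) 0 ∂ν ≤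
      ∫⁻ w, ⨅ n : ℕ, sl (dat φ ν w) j k (k - n) 0 ∂ν := by
    rw [h1]
    refine le_iInf fun n => ?_
    rw [← uat2_shift h j k (k - n) i]
    refine le_trans (lintegral_mono fun w => ?_)
      (at_cs φ ν j (k := k) (k' := k + i * e) (l := k - n + i * e) (by omega) (by omega))
    refine ENNReal.div_le_div_right ?_ _
    refine (iInf_le _ (n + (-(i * e)).toNat)).trans (le_of_eq ?_)
    congr 1
    push_cast
    rw [Int.toNat_of_nonneg (by omega)]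
    ring
  have h4 : (fun w => ⨅ n : ℕ, sl (dat φ ν w) j k (k - n) 0) ≤ᵐ[ν] fun w =>
      (⨅ n : ℕ, sl (dat φ ν w) j k (k - n) 0) / sl (dat φ ν w) j k (k + i * e) 0 := by
    filter_upwards [ae_Gd φ ν] with w hw
    rw [div_eq_mul_inv]
    exact le_mul_of_one_le_right' (ENNReal.one_le_inv.2 (uat2_le_one hw j (by omega) 0))
  have h5 := ae_eq_of_ae_le_of_lintegral_le h4 h2
    (hm.div (measurable_sl φ ν j k _ 0)).aemeasurable h3
  filter_upwards [h5, ae_Gd φ ν] with w hw hG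
  by_contra hc
  push Not at hc
  have h6 : ⨅ n : ℕ, sl (dat φ ν w) j k (k - n) 0 ≠ ∞ :=
    ne_top_of_le_ne_top ENNReal.one_ne_top ((iInf_le _ 0).trans (uat2_le_one hG j (by omega) 0))
  rw [div_eq_mul_inv] at hw
  have h7 : (1 : ℝ≥0∞) = (sl (dat φ ν w) j k (k + i * e) 0)⁻¹ :=
    (ENNReal.mul_right_inj hc.1 h6).1 (by rw [mul_one]; exact hw)
  exact hc.2 (ENNReal.inv_eq_one.1 h7.symm)

theorem Sys.atom {T : W ≃ᵐ W} {a : ℚ_[p]} {e : ℤ} (h : Sys φ ν T a e) (he : e < 0) (j : ι) :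
    ∀ᵐ w ∂ν, Conc (dat φ ν w) j ∨ ⨅ n : ℕ, sl (dat φ ν w) j 0 (-n) 0 = 0 := by
  filter_upwards [ae_Gd φ ν, ae_all_iff.2 fun k : ℤ => ae_all_iff.2 fun i : ℕ =>
    uat2_or h he j k i] with w hG hw
  refine or_iff_not_imp_right.2 fun h0 => ?_
  filter_upwards [eventually_ge_atTop (0 : ℤ)] with k hk l hl
  have hβ : lw (dat φ ν w) k 0 {v | ‖v - 0‖ ≤ (p : ℝ) ^ (0 : ℤ)} ≠ 0 := by
    rw [lw_ball w hk]
    refine mul_ne_zero (hG.pos k 0 hk) (ENNReal.ofReal_pos.2 (zpow_pos ?_ _)).ne'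
    exact_mod_cast (Fact.out : p.Prime).pos
  have h1 : lw (dat φ ν w) k 0 {v | ‖v - 0‖ ≤ (p : ℝ) ^ (0 : ℤ)} *
      ⨅ n : ℕ, sl (dat φ ν w) j 0 (-n) 0 ≤ ⨅ n : ℕ, sl (dat φ ν w) j k (k - n) 0 := by
    refine le_iInf fun n => ?_
    have h2 := hG.local (m := -n) (by omega) hk (c := 0)
      (by rw [norm_zero]; exact uat2_nonneg k) (uat2_meas j 0 ((p : ℝ) ^ (-n : ℤ)))
    rw [φ.map_zero_apply] at h2
    refine le_trans ?_ (uat2_anti hG j (m := -n) (by omega) (by omega) 0)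
    refine (mul_le_mul_right (iInf_le _ n) _).trans (h2.symm.le.trans (measure_mono ?_))
    intro v hv
    simpa using hv.2
  have h2 := (hw k (k - l).toNat).resolve_left fun h3 =>
    mul_ne_zero hβ h0 (le_zero_iff.1 (h3 ▸ h1))
  refine ⟨0, le_antisymm (uat2_le_one hG j hl 0) (h2.symm.le.trans (uat2_anti hG j ?_ hl 0))⟩
  rw [Int.toNat_of_nonneg (by omega)]
  nlinarith

theorem Sys.dich {T : W ≃ᵐ W} {a : ℚ_[p]} {e : ℤ} (h : Sys φ ν T a e) (he : e < 0) (j : ι) :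
    ∀ᵐ w ∂ν, Conc (dat φ ν w) j ∨ Thin (dat φ ν w) j := by
  have hA : MeasurableSet {w | ¬ Conc (dat φ ν w) j} := (measurableSet_conc φ ν j).compl
  have h1 := (uat2_iInf (φ := φ) (ν := ν) j 0 (ν.restrict {w | ¬ Conc (dat φ ν w) j})
    Measure.restrict_le_self).1
  simp only [zero_sub] at h1
  have h2 : ∫⁻ w in {w | ¬ Conc (dat φ ν w) j}, ⨅ n : ℕ, sl (dat φ ν w) j 0 (-n) 0 ∂ν = 0 := by
    refine lintegral_congr_ae (g := fun _ => 0) ?_ |>.trans lintegral_zero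
    refine (ae_restrict_iff' hA).2 ?_
    filter_upwards [h.atom he j] with w hw hc
    exact hw.resolve_left hc
  have h3 : ∀ m : ℕ, ∀ᵐ w ∂ν, ¬ Conc (dat φ ν w) j →
      ∃ n : ℕ, ThinAt (dat φ ν w) j 0 (-n) (m : ℝ≥0∞)⁻¹ := fun m => by
    rw [ae_iff]
    have h4 : ((m : ℝ≥0∞)⁻¹) ^ 2 * ν {w | ¬ (¬ Conc (dat φ ν w) j →
        ∃ n : ℕ, ThinAt (dat φ ν w) j 0 (-n) (m : ℝ≥0∞)⁻¹)} ≤ 0 := by
      rw [← h2, h1]
      refine le_iInf fun n => le_trans (mul_le_mul_right (measure_mono fun w hw => ?_) _)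
        (at_sq φ ν j (by omega) hA (fun v w hw h5 => hw ((conc_flow φ ν j v w).1 h5)) _)
      obtain ⟨h5, h6⟩ := Classical.not_imp.1 hw
      exact ⟨h5, fun h7 => h6 ⟨n, h7⟩⟩
    exact (mul_eq_zero.1 (le_zero_iff.1 h4)).resolve_left
      (pow_ne_zero 2 (ENNReal.inv_ne_zero.2 (ENNReal.natCast_ne_top m)))
  filter_upwards [ae_all_iff.2 h3] with w hw
  refine or_iff_not_imp_left.2 fun hc ε hε => ?_
  obtain ⟨m, hm⟩ := ENNReal.exists_inv_nat_lt hε.ne'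
  obtain ⟨n, hn⟩ := hw m hc
  exact ⟨n, fun s => (hn s).trans hm.le⟩

end Pool.Agent.EQ
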