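import Pool.Agent.P.MP_ad7a55_nt.UEl
import Pool.Agent.P.MP_ad7a55_nt.UMg

/-! Limits of almost invariant measures. -/

set_option autoImplicit false

noncomputable section

open MeasureTheory Topology Filter UpperHalfPlane
open scoped MatrixGroups ENNReal BoundedContinuousFunction

namespace Pool.Agent.EQ

variable {p q : ℕ} [Fact p.Prime] [Fact q.Prime] {κ : Type} [Fintype κ]

theorem ubk_polish {W : Type} [TopologicalSpace W] [PolishSpace W] : PolishSpace (W × W) :=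
  inferInstance

theorem ubk_inv {L : Filter ℕ} [L.NeBot] {ν : ℕ → Measure (κ → X3 p q)}
    {ν₀ : Measure (κ → X3 p q)} [IsProbabilityMeasure ν₀] (hν : WT L ν ν₀) (g : κ → G3 p q)
    (hg : ∀ f : (κ → X3 p q) →ᵇ ℝ,
      Tendsto (fun i => ∫ w, f (g • w) ∂ν i - ∫ w, f w ∂ν i) L (𝓝 0)) :
    g ∈ Stab (κ → G3 p q) ν₀ := by
  have hc : Continuous fun w : κ → X3 p q => g • w := continuous_const_smul g
  have := Measure.isProbabilityMeasure_map (μ := ν₀) hc.measurable.aemeasurable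
  refine ext_of_forall_integral_eq_of_IsFiniteMeasure fun f => ?_
  rw [integral_map hc.measurable.aemeasurable f.continuous.aestronglyMeasurable]
  have h1 := (hν (f.compContinuous ⟨_, hc⟩)).sub (hν f)
  exact sub_eq_zero.1 (tendsto_nhds_unique h1 (hg f))

theorem ubk_tight {L : Filter ℕ} {ν : ℕ → Measure (κ → X3 p q)}
    (hT : ∀ ε : ℝ, 0 < ε → ∃ Ω : Set (X3 p q), IsCompact Ω ∧ ∀ k, ∀ᶠ i in L,
      ν i {w | w k ∉ Ω} ≤ ENNReal.ofReal ε) (ε : ℝ≥0∞) (hε : 0 < ε) :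
    ∃ K : Set (κ → X3 p q), IsCompact K ∧ ∀ᶠ i in L, ν i Kᶜ ≤ ε := by
  have hn : ((Fintype.card κ : ℝ≥0∞) + 1) ≠ ∞ := by simp
  have hn0 : ((Fintype.card κ : ℝ≥0∞) + 1) ≠ 0 := by simp
  have hε' : 0 < ε / (Fintype.card κ + 1) := ENNReal.div_pos hε.ne' hn
  obtain ⟨r, -, hr0, hr⟩ := ENNReal.lt_iff_exists_real_btwn.1 hε'
  obtain ⟨Ω, hΩ, h⟩ := hT r (ENNReal.ofReal_pos.1 hr0)
  refine ⟨_, isCompact_univ_pi fun _ : κ => hΩ, ?_⟩
  filter_upwards [eventually_all.2 h] with i hi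
  have hsub : (Set.pi Set.univ fun _ : κ => Ω)ᶜ ⊆ ⋃ k, {w : κ → X3 p q | w k ∉ Ω} := by
    intro w hw
    simp only [Set.mem_compl_iff, Set.mem_pi, Set.mem_univ, true_imp_iff, not_forall] at hw
    exact Set.mem_iUnion.2 hw
  calc _ ≤ ν i (⋃ k, {w : κ → X3 p q | w k ∉ Ω}) := measure_mono hsub
    _ ≤ ∑ k, ν i {w : κ → X3 p q | w k ∉ Ω} := measure_iUnion_fintype_le _ _
    _ ≤ ∑ _k : κ, ε / (Fintype.card κ + 1) := Finset.sum_le_sum fun k _ => (hi k).trans hr.le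
    _ = Fintype.card κ * (ε / (Fintype.card κ + 1)) := by simp
    _ ≤ (Fintype.card κ + 1) * (ε / (Fintype.card κ + 1)) := by gcongr; exact le_self_add
    _ = ε := ENNReal.mul_div_cancel hn0 hn

theorem block3 (hpq : p ≠ q) {M : ℕ} (hM : 0 < M) (h : κ → SL(2, ℚ_[q])) (𝒰 : Ultrafilter ℕ)
    (h𝒰 : (𝒰 : Filter ℕ) ≤ atTop) (ν : ℕ → Measure (κ → X3 p q))
    [∀ i, IsProbabilityMeasure (ν i)]
    (ha : ∀ f : (κ → X3 p q) →ᵇ ℝ,
      Tendsto (fun i => ∫ w, f (al p q κ M • w) ∂ν i - ∫ w, f w ∂ν i) 𝒰 (𝓝 0))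
    (hb : ∀ f : (κ → X3 p q) →ᵇ ℝ,
      Tendsto (fun i => ∫ w, f (be p q h M • w) ∂ν i - ∫ w, f w ∂ν i) 𝒰 (𝓝 0))
    (hT : ∀ ε : ℝ, 0 < ε → ∃ Ω : Set (X3 p q), IsCompact Ω ∧ ∀ k, ∀ᶠ i in 𝒰,
      ν i {w | w k ∉ Ω} ≤ ENNReal.ofReal ε)
    (hB : ∃ C : ℝ, ∀ k (m : ℕ), ∀ᶠ i in 𝒰, (ν i).prod (ν i) {w | (w.1 k, w.2 k) ∈ Op p q m} ≤
      ENNReal.ofReal (C * (p : ℝ) ^ (-(m : ℤ))))
    (hN : ∀ k l, k ≠ l → ∀ q' : ℕ, 0 < q' → ∀ δ : ℚ, δ ≠ 0 → ∀ R ε : ℝ, 0 < ε → ∃ m : ℕ,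
      ∀ᶠ i in 𝒰, ν i {w | (pi3 p q (w k), pi3 p q (w l)) ∈ On p q' δ R m} ≤ ENNReal.ofReal ε) :
    WT 𝒰 (fun i => (ν i).map (piP p q)) (mP p κ) := by
  obtain ⟨ν₀, hp, hν⟩ := exists_WT 𝒰 h𝒰 ν (ubk_tight hT)
  have ia := ubk_inv hν _ ha
  have ib := ubk_inv hν _ hb
  obtain ⟨C, hC⟩ := hB
  have hm : ∀ k, ν₀.map (fun w => w k) = m3 p q := by
    intro k
    have hk : Measurable fun w : κ → X3 p q => w k := measurable_pi_apply k
    have := Measure.isProbabilityMeasure_map (μ := ν₀) hk.aemeasurable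
    refine mg3 hpq hM _ ?_ (C := C) fun m => ?_
    · rw [mem_Stab, Measure.map_map (measurable_const_smul _) hk]
      conv_rhs => rw [← mem_Stab.1 ia]
      rw [Measure.map_map hk (measurable_const_smul _)]
      rfl
    · rw [Measure.map_prod_map _ _ hk hk,
        Measure.map_apply (hk.prodMap hk) (isOpen_Op p q m).measurableSet]
      have : PolishSpace ((κ → X3 p q) × (κ → X3 p q)) := ubk_polish
      exact (hν.prod hν).open_le
        ((isOpen_Op p q m).preimage ((continuous_apply k).prodMap (continuous_apply k))) (hC k m)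
  have hJ : Jn p q M h ν₀ := ⟨hpq, hM, hp, ia, ib, hm⟩
  rw [← el κ hJ fun k l hkl => ?_]
  · exact hν.map (continuous_piP p q)
  have hF : Continuous fun w : κ → X3 p q => (pi3 p q (w k), pi3 p q (w l)) :=
    ((continuous_pi3 p q).comp (continuous_apply k)).prodMk
      ((continuous_pi3 p q).comp (continuous_apply l))
  refine measure_mono_null (t := ⋃ (q' : ℕ) (_ : 0 < q') (δ : ℚ) (_ : δ ≠ 0) (R : ℕ) (_ : 0 < R),
    {w | ∀ m, (pi3 p q (w k), pi3 p q (w l)) ∈ On p q' δ R m}) (fun w hw => ?_) ?_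
  · obtain ⟨q', h1, δ, h2, R, h3, h4⟩ := hw
    simp only [Set.mem_iUnion]
    exact ⟨q', h1, δ, h2, R, h3, h4⟩
  · refine measure_iUnion_null fun q' => measure_iUnion_null fun h1 => measure_iUnion_null fun δ =>
      measure_iUnion_null fun h2 => measure_iUnion_null fun R => measure_iUnion_null fun h3 => ?_
    refine le_antisymm (ENNReal.le_of_forall_pos_le_add fun ε hε _ => ?_) zero_le
    obtain ⟨m, hm⟩ := hN k l hkl q' h1 δ h2 R ε hε
    have h4 := hν.open_le ((isOpen_On p q' δ (R := R) (Nat.cast_pos.2 h3) m).preimage hF) hm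
    rw [zero_add, ← ENNReal.ofReal_coe_nnreal]
    refine le_trans (measure_mono fun w hw => ?_) h4
    exact hw m

end Pool.Agent.EQ
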