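import Pool.Agent.P.MP_ad7a55_nt.UJn

/-! Close pairs of points with the same leafwise data. -/

set_option autoImplicit false

noncomputable section

open MeasureTheory Topology Filter UpperHalfPlane
open scoped MatrixGroups ENNReal BoundedContinuousFunction

namespace Pool.Agent.EQ

theorem ucp_nhds {H : Type} [Group H] [TopologicalSpace H] [IsTopologicalGroup H] (Γ : Subgroup H)
    (x : H ⧸ Γ) {O : Set H} (hO : O ∈ 𝓝 (1 : H)) : (fun g : H => g • x) '' O ∈ 𝓝 x := by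
  induction x using QuotientGroup.induction_on with
  | H g₀ =>
    have h1 : IsOpenMap fun g : H => ((g * g₀ : H) : H ⧸ Γ) :=
      (QuotientGroup.isOpenMap_coe (N := Γ)).comp (isOpenMap_mul_right g₀)
    have h2 := h1.image_mem_nhds hO
    rw [one_mul] at h2
    exact h2

variable {p q : ℕ} [Fact p.Prime] [Fact q.Prime] {κ : Type} [Fintype κ]

theorem ucp_class (n : ℕ) {x : ℚ_[p]} (hx : ‖x‖ ≤ 1) :
    ∃ s : Fin (p ^ n), ‖x - ((s : ℕ) : ℚ_[p])‖ ≤ (p : ℝ) ^ (-(n : ℤ)) := by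
  let z : ℤ_[p] := ⟨x, hx⟩
  refine ⟨⟨z.appr n, z.appr_lt n⟩, ?_⟩
  have h := (PadicInt.norm_le_pow_iff_mem_span_pow _ n).2 (z.appr_spec n)
  have e : ((z - (z.appr n : ℤ_[p]) : ℤ_[p]) : ℚ_[p]) = x - ((z.appr n : ℕ) : ℚ_[p]) := by
    push_cast; rfl
  rw [PadicInt.norm_def, e] at h
  exact h

theorem ucp_entry {a b : SL(2, ℚ_[p])} (ha : ‖a 1 1‖ = 1) (hb : ‖b 1 1‖ = 1) {s : ℚ_[p]} {R : ℝ}
    (h1 : ‖a 1 0 / a 1 1 - s‖ ≤ R) (h2 : ‖b 1 0 / b 1 1 - s‖ ≤ R) : ‖(a * b⁻¹) 1 0‖ ≤ R := by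
  have ha0 : a 1 1 ≠ 0 := by
    intro h; rw [h, norm_zero] at ha; exact zero_ne_one ha
  have hb0 : b 1 1 ≠ 0 := by
    intro h; rw [h, norm_zero] at hb; exact zero_ne_one hb
  have e : (a * b⁻¹) 1 0 = a 1 1 * b 1 1 * ((a 1 0 / a 1 1 - s) + -(b 1 0 / b 1 1 - s)) := by
    have i0 : b⁻¹ 0 0 = b 1 1 := by rw [Matrix.SpecialLinearGroup.SL2_inv_expl]; rfl
    have i1 : b⁻¹ 1 0 = -b 1 0 := by rw [Matrix.SpecialLinearGroup.SL2_inv_expl]; rfl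
    have i2 : (a * b⁻¹) 1 0 = a 1 0 * b⁻¹ 0 0 + a 1 1 * b⁻¹ 1 0 := by
      simp only [Matrix.SpecialLinearGroup.coe_mul, Matrix.mul_apply, Fin.sum_univ_two]
    rw [i2, i0, i1]
    field_simp
    ring
  rw [e, norm_mul, norm_mul, ha, hb, one_mul, one_mul]
  refine (Padic.nonarchimedean _ _).trans (max_le h1 ?_)
  rw [norm_neg]; exact h2

theorem ucp_box {𝒩 : Set (κ → G3 p q)} (h𝒩 : 𝒩 ∈ 𝓝 (1 : κ → G3 p q)) :
    ∃ O : Set (G3 p q), IsCompact O ∧ O ∈ 𝓝 (1 : G3 p q) ∧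
      (∀ g ∈ O, g.1.2 ∈ Kp p ∧ ‖g.1.2 1 1‖ = 1) ∧
      ∀ g g' : κ → G3 p q, (∀ k, g k ∈ O) → (∀ k, g' k ∈ O) → g * g'⁻¹ ∈ 𝒩 := by
  rw [nhds_pi, Filter.mem_pi] at h𝒩
  obtain ⟨I, -, t, ht, hsub⟩ := h𝒩
  have h0 : (⋂ k, t k) ∈ 𝓝 (1 : G3 p q) := iInter_mem.2 ht
  obtain ⟨V, hV, hVV⟩ := exists_nhds_split_inv h0
  have c1 : Continuous fun g : G3 p q => g.1.2 := continuous_snd.comp continuous_fst
  have hK : {g : G3 p q | g.1.2 ∈ Kp p} ∈ 𝓝 (1 : G3 p q) :=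
    ((Kp_open p).preimage c1).mem_nhds (Kp p).one_mem
  have c2 : Continuous fun g : G3 p q => g.1.2 1 1 :=
    (continuous_subtype_val.matrix_elem 1 1).comp c1
  have hU : {g : G3 p q | g.1.2 1 1 ∈ Metric.ball (1 : ℚ_[p]) 1} ∈ 𝓝 (1 : G3 p q) := by
    refine (Metric.isOpen_ball.preimage c2).mem_nhds ?_
    simp
  obtain ⟨O, hO, hOs, hOc⟩ := local_compact_nhds (inter_mem hV (inter_mem hK hU))
  refine ⟨O, hOc, hO, fun g hg => ⟨(hOs hg).2.1, ?_⟩, fun g g' hg hg' => hsub fun k _ => ?_⟩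
  · have h : ‖g.1.2 1 1 - 1‖ < 1 := mem_ball_iff_norm.1 (hOs hg).2.2
    have e : g.1.2 1 1 = 1 + (g.1.2 1 1 - 1) := by ring
    rw [e, Padic.add_eq_max_of_ne (by rw [norm_one]; exact h.ne'), norm_one]
    exact max_eq_left h.le
  · have := hVV (g k) (hOs (hg k)).1 (g' k) (hOs (hg' k)).1
    rw [div_eq_mul_inv] at this
    exact Set.mem_iInter.1 this k

theorem ucp_tight : ∃ K : Set (κ → X3 p q), IsCompact K ∧
    ∀ ρ : Measure (κ → X3 p q), (∀ k, ρ.map (fun w => w k) = m3 p q) → ρ Kᶜ ≤ 1 / 4 := by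
  have hε : (0 : ℝ≥0∞) < 1 / 4 / (Fintype.card κ : ℝ≥0∞) :=
    ENNReal.div_pos (by simp) (ENNReal.natCast_ne_top _)
  obtain ⟨Ω, hΩ, -, hm, -⟩ := lusin (m3 p q) (f := fun _ => (0 : ℝ)) measurable_const
    (A := Set.univ) (Eventually.of_forall fun _ => trivial) hε
  refine ⟨Set.pi Set.univ fun _ => Ω, isCompact_univ_pi fun _ => hΩ, fun ρ hρ => ?_⟩
  have hs : (Set.pi Set.univ fun _ : κ => Ω)ᶜ ⊆ ⋃ k, (fun w : κ → X3 p q => w k) ⁻¹' Ωᶜ := by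
    intro w hw
    by_contra h
    refine hw fun k _ => ?_
    by_contra h'
    exact h (Set.mem_iUnion.2 ⟨k, h'⟩)
  refine (measure_mono hs).trans ((measure_iUnion_fintype_le _ _).trans ?_)
  have hk : ∀ k, ρ ((fun w : κ → X3 p q => w k) ⁻¹' Ωᶜ) ≤ 1 / 4 / (Fintype.card κ : ℝ≥0∞) := by
    intro k
    refine (Measure.le_map_apply (measurable_pi_apply k).aemeasurable _).trans ?_
    rw [hρ k]; exact hm
  refine (Finset.sum_le_card_nsmul _ _ _ fun k _ => hk k).trans ?_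
  rw [Finset.card_univ, nsmul_eq_mul]
  exact ENNReal.mul_div_le

theorem ucp_small (A : ℝ) (c : ℕ) : ∀ᶠ n : ℕ in atTop,
    A * ((p : ℝ) ^ n) ^ c * (p : ℝ) ^ (-(((c + 1) * n : ℕ) : ℤ)) < 1 / 4 := by
  have hp : (1 : ℝ) < p := by exact_mod_cast (Fact.out : p.Prime).one_lt
  have h0 : (p : ℝ) ≠ 0 := by positivity
  have h1 : Tendsto (fun n : ℕ => A * ((p : ℝ)⁻¹) ^ n) atTop (𝓝 (A * 0)) :=
    (tendsto_pow_atTop_nhds_zero_of_lt_one (by positivity) (inv_lt_one_of_one_lt₀ hp)).const_mul A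
  rw [mul_zero] at h1
  filter_upwards [h1.eventually (gt_mem_nhds (by norm_num : (0 : ℝ) < 1 / 4))] with n hn
  have e : A * ((p : ℝ) ^ n) ^ c * (p : ℝ) ^ (-(((c + 1) * n : ℕ) : ℤ)) = A * ((p : ℝ)⁻¹) ^ n := by
    rw [zpow_neg, zpow_natCast, inv_pow, add_mul, one_mul, pow_add, mul_comm c n, pow_mul]
    field_simp
  rw [e]; exact hn

theorem close_pairs (hpq : p ≠ q) (k₀ : κ) {𝒩 : Set (κ → G3 p q)} (h𝒩 : 𝒩 ∈ 𝓝 (1 : κ → G3 p q)) :
    ∀ᶠ n : ℕ in atTop, ∀ ρ : Measure (κ → X3 p q), IsProbabilityMeasure ρ →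
      (∀ k, ρ.map (fun w => w k) = m3 p q) → ∀ G : Set (κ → X3 p q), 1 / 2 ≤ ρ G →
      ∃ y ∈ G, ∃ g ∈ 𝒩, g • y ∈ G ∧ (∀ k, ‖(g k).1.2 1 0‖ ≤ (p : ℝ) ^ (-(n : ℤ))) ∧
        (p : ℝ) ^ (-((Fintype.card κ + 1) * n : ℤ)) ≤ ‖(g k₀).1.2 1 0‖ := by
  classical
  obtain ⟨O, hOc, hO, hOK, hON⟩ := ucp_box h𝒩
  obtain ⟨K, hK, hKρ⟩ := ucp_tight (p := p) (q := q) (κ := κ)
  obtain ⟨T, -, hT⟩ := hK.elim_nhds_subcover
    (fun x => Set.pi Set.univ fun k => (fun g : G3 p q => g • x k) '' O)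
    (fun x _ => set_pi_mem_nhds Set.finite_univ fun k _ => ucp_nhds _ _ hO)
  have hc2 : IsCompact ((fun z : G3 p q × G3 p q => z.1 * z.2⁻¹) '' O ×ˢ O) :=
    (hOc.prod hOc).image (continuous_fst.mul continuous_snd.inv)
  obtain ⟨C, hC⟩ := m3_low hpq hc2 (by
    rintro _ ⟨⟨a, b⟩, ⟨ha, hb⟩, rfl⟩
    exact (Kp p).mul_mem (hOK a ha).1 ((Kp p).inv_mem (hOK b hb).1))
  filter_upwards [ucp_small (p := p) (T.card * C) (Fintype.card κ)] with n hn ρ hρ hm G hG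
  by_contra hne
  set m : ℕ := (Fintype.card κ + 1) * n with hmdef
  let E : (κ → X3 p q) → (κ → Fin (p ^ n)) → Set (κ → X3 p q) := fun x s =>
    {w | ∀ k, ∃ g ∈ O, ‖g.1.2 1 0 / g.1.2 1 1 - ((s k : ℕ) : ℚ_[p])‖ ≤ (p : ℝ) ^ (-(n : ℤ)) ∧
      g • x k = w k}
  have hE : ∀ x s, ρ (G ∩ E x s) ≤ ENNReal.ofReal (C * (p : ℝ) ^ (-(m : ℤ))) := by
    intro x s
    rcases (G ∩ E x s).eq_empty_or_nonempty with h0 | ⟨y, hyG, hyE⟩
    · rw [h0, measure_empty]; exact zero_le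
    choose g hgO hgs hgy using hyE
    refine le_trans ?_ (hC m (y k₀))
    rw [← hm k₀]
    refine le_trans (measure_mono ?_) (Measure.le_map_apply (measurable_pi_apply k₀).aemeasurable _)
    rintro y' ⟨hy'G, hy'E⟩
    choose g' hg'O hg's hg'y using hy'E
    have e : ∀ k, (g' k * (g k)⁻¹) • y k = y' k := by
      intro k
      rw [← hgy k, ← hg'y k, mul_smul, inv_smul_smul]
    have e' : (g' * g⁻¹) • y = y' := funext e
    refine ⟨g' k₀ * (g k₀)⁻¹, ⟨(g' k₀, g k₀), ⟨hg'O k₀, hgO k₀⟩, rfl⟩, ?_, (e k₀).symm⟩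
    by_contra hlt
    refine hne ⟨y, hyG, g' * g⁻¹, hON g' g hg'O hgO, by rw [e']; exact hy'G, fun k => ?_, ?_⟩
    · exact ucp_entry (hOK _ (hg'O k)).2 (hOK _ (hgO k)).2 (hg's k) (hgs k)
    · have e2 : ((Fintype.card κ + 1) * n : ℤ) = (m : ℤ) := by rw [hmdef]; push_cast; rfl
      rw [e2]
      exact (not_le.1 hlt).le
  have hsub : G ∩ K ⊆ ⋃ x ∈ T, ⋃ s, G ∩ E x s := by
    rintro w ⟨hwG, hwK⟩
    obtain ⟨x, hxT, hx⟩ := Set.mem_iUnion₂.1 (hT hwK)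
    choose g hgO hgw using fun k => hx k trivial
    have hcl : ∀ k, ∃ s : Fin (p ^ n),
        ‖(g k).1.2 1 0 / (g k).1.2 1 1 - ((s : ℕ) : ℚ_[p])‖ ≤ (p : ℝ) ^ (-(n : ℤ)) := by
      intro k
      refine ucp_class n ?_
      rw [norm_div, (hOK _ (hgO k)).2, div_one]
      exact (hOK _ (hgO k)).1 1 0
    choose s hs using hcl
    exact Set.mem_iUnion₂.2 ⟨x, hxT, Set.mem_iUnion.2 ⟨s, hwG, fun k => ⟨g k, hgO k, hs k, hgw k⟩⟩⟩
  have h1 : ρ (G ∩ K) ≤ ENNReal.ofReal (T.card * C * ((p : ℝ) ^ n) ^ Fintype.card κ *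
      (p : ℝ) ^ (-(m : ℤ))) := by
    refine (measure_mono hsub).trans ((measure_biUnion_finset_le _ _).trans ?_)
    have h2 : ∀ x ∈ T, ρ (⋃ s, G ∩ E x s) ≤ ENNReal.ofReal (((p : ℝ) ^ n) ^ Fintype.card κ *
        (C * (p : ℝ) ^ (-(m : ℤ)))) := by
      intro x _
      refine (measure_iUnion_fintype_le _ _).trans
        ((Finset.sum_le_card_nsmul _ _ _ fun s _ => hE x s).trans ?_)
      rw [Finset.card_univ, Fintype.card_fun, Fintype.card_fin, nsmul_eq_mul,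
        ENNReal.ofReal_mul (p := ((p : ℝ) ^ n) ^ Fintype.card κ) (by positivity),
        ← ENNReal.ofReal_natCast]
      push_cast
      exact le_rfl
    refine (Finset.sum_le_card_nsmul _ _ _ h2).trans ?_
    rw [nsmul_eq_mul, ← ENNReal.ofReal_natCast, ← ENNReal.ofReal_mul (by positivity)]
    exact le_of_eq (by congr 1; ring)
  have h3 : ρ (G ∩ K) < 1 / 4 := by
    refine h1.trans_lt ?_
    have : (1 / 4 : ℝ≥0∞) = ENNReal.ofReal (1 / 4) := by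
      rw [ENNReal.ofReal_div_of_pos (by norm_num)]; simp
    rw [this]
    exact (ENNReal.ofReal_lt_ofReal_iff (by norm_num)).2 hn
  have h4 : ρ G ≤ ρ (G ∩ K) + ρ Kᶜ := by
    refine le_trans (measure_mono ?_) (measure_union_le _ _)
    intro w hw
    by_cases h : w ∈ K
    · exact Or.inl ⟨hw, h⟩
    · exact Or.inr h
  have h5 : ρ (G ∩ K) + ρ Kᶜ < 1 / 4 + 1 / 4 :=
    ENNReal.add_lt_add_of_lt_of_le (measure_ne_top _ _) h3 (hKρ ρ hm)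
  have h6 : (1 / 4 + 1 / 4 : ℝ≥0∞) = 1 / 2 := by
    rw [ENNReal.div_add_div_same, ENNReal.div_eq_div_iff] <;> norm_num
  rw [h6] at h5
  exact absurd (hG.trans h4) (not_le.2 h5)

theorem Jn.pairs {M : ℕ} {h : κ → SL(2, ℚ_[q])} {ν : Measure (κ → X3 p q)} (H : Jn p q M h ν)
    (k₀ : κ) {𝒩 : Set (κ → G3 p q)} (h𝒩 : 𝒩 ∈ 𝓝 (1 : κ → G3 p q)) {G : Set (κ → X3 p q)}
    (hG : ν Gᶜ ≤ 1 / 4) : ∀ᶠ n : ℕ in atTop, ∃ y ∈ G, ∃ g ∈ 𝒩, g • y ∈ G ∧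
      (∀ t : ℕ, dat (fl3 p q κ) ν (al p q κ (M * t) • g • y) =
        dat (fl3 p q κ) ν (al p q κ (M * t) • y)) ∧
      (∀ k, ‖(g k).1.2 1 0‖ ≤ (p : ℝ) ^ (-(n : ℤ))) ∧
        (p : ℝ) ^ (-((Fintype.card κ + 1) * n : ℤ)) ≤ ‖(g k₀).1.2 1 0‖ := by
  have := H.prob
  let f : (κ → X3 p q) → ℕ → ℤ × ℤ × (κ → ℚ) → ℝ≥0∞ := fun w t =>
    dq (fl3 p q κ) ν (al p q κ (M * t) • w)
  have hf : Measurable f := measurable_pi_lambda _ fun t =>
    (measurable_dq (fl3 p q κ) ν).comp (measurable_const_smul (al p q κ (M * t)))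
  obtain ⟨ρ, hρ, hb, hfib, -, hinv⟩ := disint ν hf
  have hfb : ∀ᵐ w ∂ν, f (be p q h M • w) = f w := by
    filter_upwards [H.ae_al H.dat_b] with w hw
    funext t u
    have e : al p q κ (M * t) • be p q h M • w = be p q h M • al p q κ (M * t) • w := by
      rw [← mul_smul, al_be, mul_smul]
    change dat (fl3 p q κ) ν (al p q κ (M * t) • be p q h M • w) u.1 u.2.1 _ =
      dat (fl3 p q κ) ν (al p q κ (M * t) • w) u.1 u.2.1 _
    rw [e, hw t]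
  have hst : ∀ᵐ w ∂ν, be p q h M ∈ Stab (κ → G3 p q) (ρ w) :=
    hinv _ (measurable_const_smul (be p q h M)) H.b hfb
  have hall := hfib.and (H.marg_b ρ hb hst)
  have hA : ∫⁻ w, ρ w (toMeasurable ν Gᶜ) ∂ν = ν Gᶜ := by
    rw [← Measure.bind_apply (measurableSet_toMeasurable ν Gᶜ) ρ.aemeasurable, hb,
      measure_toMeasurable]
  obtain ⟨w, hw, hle⟩ := exists_notMem_null_le_lintegral
    (f := fun w => ρ w (toMeasurable ν Gᶜ)) 
    (ρ.measurable_coe (measurableSet_toMeasurable ν Gᶜ)).aemeasurable (ae_iff.1 hall)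
  have hw' := not_not.1 hw
  rw [hA] at hle
  have hhalf : 1 / 2 ≤ ρ w (G ∩ {w' | f w' = f w}) := by
    by_contra hlt
    have h1 : ρ w Set.univ ≤ ρ w (G ∩ {w' | f w' = f w}) +
        (ρ w (toMeasurable ν Gᶜ) + ρ w {w' | ¬ f w' = f w}) := by
      refine le_trans (measure_mono ?_)
        ((measure_union_le _ _).trans (add_le_add le_rfl (measure_union_le _ _)))
      intro x _
      by_cases h1 : x ∈ G
      · by_cases h2 : f x = f w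
        · exact Or.inl ⟨h1, h2⟩
        · exact Or.inr (Or.inr h2)
      · exact Or.inr (Or.inl (subset_toMeasurable ν Gᶜ h1))
    rw [measure_univ, ae_iff.1 hw'.1, add_zero] at h1
    have h2 : (1 / 4 : ℝ≥0∞) ≤ 1 / 2 := ENNReal.div_le_div_left (by norm_num) _
    have h3 := ENNReal.add_lt_add_of_lt_of_le (measure_ne_top (ρ w) (toMeasurable ν Gᶜ))
      (not_le.1 hlt) ((hle.trans hG).trans h2)
    rw [ENNReal.add_halves] at h3
    exact absurd h1 (not_le.2 h3)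
  filter_upwards [close_pairs H.ne k₀ h𝒩] with n hn
  obtain ⟨y, hy, g, hg, hgy, h1, h2⟩ := hn (ρ w) inferInstance hw'.2 _ hhalf
  refine ⟨y, hy.1, g, hg, hgy.1, fun t => dat_eq_of_dq _ _ ?_, h1, h2⟩
  have e : f (g • y) = f y := hgy.2.trans hy.2.symm
  exact congrFun e t

end Pool.Agent.EQ
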