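import Pool.Agent.P.MP_ad7a55_nt.UJn

/-! Positive entropy: a set of full measure meets some leaf twice. -/

set_option autoImplicit false

noncomputable section

open MeasureTheory Topology Filter UpperHalfPlane
open scoped MatrixGroups ENNReal BoundedContinuousFunction

namespace Pool.Agent.EQ

variable {p q : ℕ} [Fact p.Prime] [Fact q.Prime] {κ : Type} [Fintype κ]

theorem ucv_appr {x : ℚ_[p]} (hx : ‖x‖ ≤ 1) (n : ℕ) :
    ∃ m : Fin (p ^ n), ‖x - ((m : ℕ) : ℚ_[p])‖ ≤ (p : ℝ) ^ (-(n : ℤ)) := by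
  let z : ℤ_[p] := ⟨x, hx⟩
  refine ⟨⟨z.appr n, z.appr_lt n⟩, ?_⟩
  have h := ((z - z.appr n).norm_le_pow_iff_mem_span_pow n).mpr (z.appr_spec n)
  rw [PadicInt.norm_def, PadicInt.coe_sub, PadicInt.coe_natCast] at h
  exact h

theorem ucv_p_pos : (0 : ℝ) < p := by exact_mod_cast (Fact.out : p.Prime).pos

theorem ucv_sub {k : ℤ} {a b c : κ → ℚ_[p]} (h : ‖a - c‖ ≤ (p : ℝ) ^ k)
    (h' : ‖b - c‖ ≤ (p : ℝ) ^ k) : ‖a - b‖ ≤ (p : ℝ) ^ k := by
  have := norm_add_V h (show ‖c - b‖ ≤ (p : ℝ) ^ k by rwa [norm_sub_rev])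
  simpa using this

theorem ucv_refine (e μ : ℕ) {d : κ → ℚ_[p]} (hd : ‖d‖ ≤ (p : ℝ) ^ (-(e : ℤ))) :
    ∃ r : κ → Fin (p ^ μ), ‖d - fun k => (p : ℚ_[p]) ^ e * ((r k : ℕ) : ℚ_[p])‖ ≤
      (p : ℝ) ^ (-(e + μ : ℤ)) := by
  have hp := ucv_p_pos (p := p)
  have hp0 : (p : ℚ_[p]) ≠ 0 := Nat.cast_ne_zero.2 (Fact.out : p.Prime).ne_zero
  have hn : ‖(p : ℚ_[p]) ^ e‖ = (p : ℝ) ^ (-(e : ℤ)) := Padic.norm_p_pow e
  have h1 : ∀ k, ‖d k / (p : ℚ_[p]) ^ e‖ ≤ 1 := by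
    intro k
    rw [norm_div, hn, div_le_one (by positivity)]
    exact (norm_le_pi_norm d k).trans hd
  choose r hr using fun k => ucv_appr (h1 k) μ
  refine ⟨r, (pi_norm_le_iff_of_nonneg (by positivity)).2 fun k => ?_⟩
  have : (d - fun k => (p : ℚ_[p]) ^ e * ((r k : ℕ) : ℚ_[p])) k =
      (p : ℚ_[p]) ^ e * (d k / (p : ℚ_[p]) ^ e - ((r k : ℕ) : ℚ_[p])) := by
    simp only [Pi.sub_apply]
    field_simp
  rw [this, norm_mul, hn, neg_add, zpow_add₀ hp.ne']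
  exact mul_le_mul_of_nonneg_left (hr k) (by positivity)

open Classical in
theorem ball_cover (μ t : ℕ) (S : Set ℕ) {A : Set (κ → ℚ_[p])} (hA : ∀ b ∈ A, ‖b‖ ≤ 1)
    (h : ∀ τ ∈ S, τ < t → ∀ b ∈ A, ∀ b' ∈ A, ‖b - b'‖ ≤ (p : ℝ) ^ (-(μ * τ : ℤ)) →
      ‖b - b'‖ ≤ (p : ℝ) ^ (-(μ * (τ + 1) : ℤ))) :
    ∃ T : Finset (κ → ℚ_[p]),
      T.card ≤ (p ^ (μ * Fintype.card κ)) ^ ((Finset.range t).filter fun τ => τ ∉ S).card ∧
      ∀ b ∈ A, ∃ c ∈ T, ‖b - c‖ ≤ (p : ℝ) ^ (-(μ * t : ℤ)) := by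
  induction t with
  | zero => exact ⟨{0}, by simp, fun b hb => ⟨0, by simp, by simpa using hA b hb⟩⟩
  | succ t ih =>
    obtain ⟨T, hT, hc⟩ := ih fun τ hτ hlt => h τ hτ (Nat.lt_succ_of_lt hlt)
    by_cases hS : t ∈ S
    · have hex : ∀ c : κ → ℚ_[p], ∃ b₀ : κ → ℚ_[p], ∀ b ∈ A,
          ‖b - c‖ ≤ (p : ℝ) ^ (-(μ * t : ℤ)) → ‖b - b₀‖ ≤ (p : ℝ) ^ (-(μ * (t + 1) : ℤ)) := by
        intro c
        by_cases hb : ∃ b₀ ∈ A, ‖b₀ - c‖ ≤ (p : ℝ) ^ (-(μ * t : ℤ))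
        · obtain ⟨b₀, h0, h1⟩ := hb
          exact ⟨b₀, fun b hb h2 => h t hS (Nat.lt_succ_self t) b hb b₀ h0 (ucv_sub h2 h1)⟩
        · exact ⟨0, fun b hb' h2 => absurd ⟨b, hb', h2⟩ hb⟩
      choose f hf using hex
      refine ⟨T.image f, Finset.card_image_le.trans ?_, fun b hb => ?_⟩
      · rwa [Finset.range_add_one, Finset.filter_insert, if_neg (not_not.2 hS)]
      · obtain ⟨c, hcT, h2⟩ := hc b hb
        exact ⟨f c, Finset.mem_image_of_mem f hcT, by exact_mod_cast hf c b hb h2⟩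
    · refine ⟨(T ×ˢ (Finset.univ : Finset (κ → Fin (p ^ μ)))).image
        fun z => z.1 + fun k => (p : ℚ_[p]) ^ (μ * t) * ((z.2 k : ℕ) : ℚ_[p]),
        Finset.card_image_le.trans ?_, fun b hb => ?_⟩
      · rw [Finset.range_add_one, Finset.filter_insert, if_pos hS,
          Finset.card_insert_of_notMem (by simp), pow_succ, Finset.card_product, Finset.card_univ,
          Fintype.card_fun, Fintype.card_fin, ← pow_mul]
        exact Nat.mul_le_mul_right _ hT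
      · obtain ⟨c, hcT, h2⟩ := hc b hb
        obtain ⟨r, hr⟩ := ucv_refine (μ * t) μ (d := b - c) (by exact_mod_cast h2)
        refine ⟨_, Finset.mem_image_of_mem _ (Finset.mk_mem_product hcT (Finset.mem_univ r)), ?_⟩
        rw [← sub_sub]
        have e : (-(μ * ((t + 1 : ℕ) : ℤ)) : ℤ) = -(((μ * t : ℕ) : ℤ) + μ) := by push_cast; ring
        rw [e]
        exact hr

theorem ucv_basis {N : Set (κ → SL(2, ℚ_[p]))} (hN : N ∈ 𝓝 1) : ∃ ε : ℝ, 0 < ε ∧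
    ∀ m : κ → SL(2, ℚ_[p]),
      (∀ k i j, ‖m k i j - (1 : Matrix (Fin 2) (Fin 2) ℚ_[p]) i j‖ < ε) → m ∈ N := by
  let e : (κ → SL(2, ℚ_[p])) → κ → Fin 2 → Fin 2 → ℚ_[p] := fun m k i j => m k i j
  have he : IsInducing e :=
    IsInducing.piMap fun _ => Matrix.SpecialLinearGroup.isClosedEmbedding_val.isInducing
  rw [he.nhds_eq_comap, mem_comap] at hN
  obtain ⟨B, hB, hBN⟩ := hN
  obtain ⟨ε, hε, hball⟩ := Metric.mem_nhds_iff.1 hB
  refine ⟨ε, hε, fun m hm => hBN (hball ?_)⟩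
  rw [Metric.mem_ball, dist_pi_lt_iff hε]
  intro k
  rw [dist_pi_lt_iff hε]
  intro i
  rw [dist_pi_lt_iff hε]
  intro j
  rw [dist_eq_norm]
  exact hm k i j

theorem ucv_unit {x : ℚ_[p]} (h : ‖x - 1‖ < 1) : ‖x‖ = 1 := by
  have := Padic.add_eq_max_of_ne (q := x - 1) (r := 1) (by rw [norm_one]; exact h.ne)
  rw [sub_add_cancel, norm_one, max_eq_right h.le] at this
  exact this

theorem ucv_mul (a b : SL(2, ℚ_[p])) (i j : Fin 2) :
    (a * b : SL(2, ℚ_[p])) i j = a i 0 * b 0 j + a i 1 * b 1 j := by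
  simp only [Matrix.SpecialLinearGroup.coe_mul, Matrix.mul_apply, Fin.sum_univ_two]

theorem ucv_inv (a : SL(2, ℚ_[p])) : (a⁻¹ : SL(2, ℚ_[p])) 0 0 = a 1 1 ∧
    (a⁻¹ : SL(2, ℚ_[p])) 0 1 = -a 0 1 ∧ (a⁻¹ : SL(2, ℚ_[p])) 1 0 = -a 1 0 ∧
    (a⁻¹ : SL(2, ℚ_[p])) 1 1 = a 0 0 := by
  rw [Matrix.SpecialLinearGroup.SL2_inv_expl]
  exact ⟨rfl, rfl, rfl, rfl⟩

theorem ucv_mat (t : ℕ) (h : SL(2, ℚ_[p])) {ε : ℝ} (hε : ε ≤ 1)
    (hh : ∀ i j, ‖h i j - (1 : Matrix (Fin 2) (Fin 2) ℚ_[p]) i j‖ < ε) (i j : Fin 2) :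
    ‖((uu (((p : ℚ_[p]) ^ (2 * t))⁻¹ * (h 0 1 / h 1 1)))⁻¹ * (aP p t).2⁻¹ * h * (aP p t).2 :
      SL(2, ℚ_[p])) i j - (1 : Matrix (Fin 2) (Fin 2) ℚ_[p]) i j‖ < ε := by
  have hp0 : (p : ℚ_[p]) ≠ 0 := Nat.cast_ne_zero.2 (Fact.out : p.Prime).ne_zero
  have h11 : ‖h 1 1 - 1‖ < ε := by simpa using hh 1 1
  have h10 : ‖h 1 0‖ < ε := by simpa using hh 1 0
  have hu : ‖h 1 1‖ = 1 := ucv_unit (h11.trans_le hε)
  have hne : h 1 1 ≠ 0 := by
    intro h0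
    rw [h0, norm_zero] at hu
    exact zero_ne_one hu
  have hdet : h 0 0 * h 1 1 - h 0 1 * h 1 0 = 1 := by
    have := h.det_coe
    rwa [Matrix.det_fin_two] at this
  have key : (((uu (((p : ℚ_[p]) ^ (2 * t))⁻¹ * (h 0 1 / h 1 1)))⁻¹ * (aP p t).2⁻¹ * h *
      (aP p t).2 : SL(2, ℚ_[p])) : Matrix (Fin 2) (Fin 2) ℚ_[p]) =
      !![(h 1 1)⁻¹, 0; (p : ℚ_[p]) ^ (2 * t) * h 1 0, h 1 1] := by
    have hP : (p : ℚ_[p]) ^ t ≠ 0 := pow_ne_zero _ hp0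
    have a00 : (aP p t).2 0 0 = (p : ℚ_[p]) ^ t := rfl
    have a01 : (aP p t).2 0 1 = 0 := rfl
    have a10 : (aP p t).2 1 0 = 0 := rfl
    have a11 : (aP p t).2 1 1 = ((p : ℚ_[p]) ^ t)⁻¹ := rfl
    obtain ⟨b00, b01, b10, b11⟩ := ucv_inv (aP p t).2
    rw [uu_inv, mul_comm 2 t, pow_mul]
    generalize hv : ((((p : ℚ_[p]) ^ t) ^ 2)⁻¹ * (h 0 1 / h 1 1)) = v
    have u00 : uu (-v) 0 0 = 1 := rfl
    have u01 : uu (-v) 0 1 = -v := rfl
    have u10 : uu (-v) 1 0 = 0 := rfl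
    have u11 : uu (-v) 1 1 = 1 := rfl
    have E : ∀ a b, (uu (-v) * (aP p t).2⁻¹ * h * (aP p t).2 : SL(2, ℚ_[p])) a b =
        !![(h 1 1)⁻¹, 0; ((p : ℚ_[p]) ^ t) ^ 2 * h 1 0, h 1 1] a b := by
      simp only [Fin.forall_fin_two, ucv_mul, u00, u01, u10, u11, b00, b01, b10, b11, a00, a01,
        a10, a11, Matrix.of_apply, Matrix.cons_val', Matrix.cons_val_zero,
        Matrix.cons_val_one, Matrix.cons_val_fin_one]
      subst hv
      generalize (p : ℚ_[p]) ^ t = P at hP ⊢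
      refine ⟨⟨?_, ?_⟩, ?_, ?_⟩
      · field_simp
        linear_combination P ^ 2 * hdet
      · field_simp
        ring
      · field_simp
        ring
      · field_simp
        ring
    exact Matrix.ext E
  have hε0 : 0 < ε := (norm_nonneg _).trans_lt h11
  show ‖(((uu (((p : ℚ_[p]) ^ (2 * t))⁻¹ * (h 0 1 / h 1 1)))⁻¹ * (aP p t).2⁻¹ * h *
      (aP p t).2 : SL(2, ℚ_[p])) : Matrix (Fin 2) (Fin 2) ℚ_[p]) i j - _‖ < ε
  rw [key]
  fin_cases i <;> fin_cases j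
  · have : (h 1 1)⁻¹ - 1 = -(h 1 1 - 1) / h 1 1 := by field_simp; ring
    simp only [Fin.zero_eta, Matrix.of_apply, Matrix.cons_val', Matrix.cons_val_zero,
      Matrix.cons_val_fin_one, Matrix.one_apply_eq]
    rw [this, norm_div, norm_neg, hu, div_one]
    exact h11
  · simpa using hε0
  · have h1 : ‖(p : ℚ_[p]) ^ (2 * t)‖ ≤ 1 := by
      rw [norm_pow]
      exact pow_le_one₀ (norm_nonneg _) Padic.norm_p_lt_one.le
    have : ‖(p : ℚ_[p]) ^ (2 * t) * h 1 0‖ < ε := by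
      rw [norm_mul]
      exact (mul_le_of_le_one_left (norm_nonneg _) h1).trans_lt h10
    simpa using this
  · simpa using h11

theorem ucv_01 (g g' : SL(2, ℚ_[p])) (h : ‖g 0 0‖ = 1) (h' : ‖g' 0 0‖ = 1) :
    ‖(g * g'⁻¹ : SL(2, ℚ_[p])) 0 1‖ = ‖g 0 1 / g 0 0 - g' 0 1 / g' 0 0‖ := by
  have hne : ∀ x : ℚ_[p], ‖x‖ = 1 → x ≠ 0 := fun x hx h0 => by
    rw [h0, norm_zero] at hx
    exact zero_ne_one hx
  have h0 := hne _ h
  have h0' := hne _ h'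
  have : (g * g'⁻¹ : SL(2, ℚ_[p])) 0 1 = g 0 0 * g' 0 0 * (g 0 1 / g 0 0 - g' 0 1 / g' 0 0) := by
    rw [ucv_mul, (ucv_inv g').2.1, (ucv_inv g').2.2.2]
    field_simp
    ring
  rw [this, norm_mul, norm_mul, h, h', one_mul, one_mul]

theorem ucv_tube {K : Set (κ → X3 p q)} (hK : IsCompact K)
    (h : ∀ w ∈ K, ∀ v, fl3 p q κ v w ∈ K → v = 0) (μ : ℕ) :
    ∀ᶠ g : κ → G3 p q in 𝓝 1, ∀ y ∈ K, ∀ v : κ → ℚ_[p], ‖v‖ ≤ 1 → fl3 p q κ v (g • y) ∈ K →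
      ‖v‖ ≤ (p : ℝ) ^ (-(μ : ℤ)) := by
  have hp := ucv_p_pos (p := p)
  let V : Set (κ → ℚ_[p]) := Metric.closedBall 0 1 ∩ {v | (p : ℝ) ^ (-(μ : ℤ)) ≤ ‖v‖}
  have hV : IsCompact V :=
    (isCompact_closedBall 0 1).inter_right (isClosed_le continuous_const continuous_norm)
  have h1 : ∀ᶠ g : κ → G3 p q in 𝓝 1, ∀ z ∈ V ×ˢ K, fl3 p q κ z.1 (g • z.2) ∉ K := by
    refine (hV.prod hK).eventually_forall_of_forall_eventually fun z hz => ?_
    have hc : Continuous fun w : (κ → G3 p q) × (κ → ℚ_[p]) × (κ → X3 p q) =>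
        fl3 p q κ w.2.1 (w.1 • w.2.2) :=
      (fl3 p q κ).continuous continuous_snd.fst (continuous_fst.smul continuous_snd.snd)
    refine hc.continuousAt.eventually (hK.isClosed.isOpen_compl.mem_nhds ?_)
    intro hm
    simp only [one_smul] at hm
    have h0 := h z.2 hz.2 z.1 hm
    have h2 : (p : ℝ) ^ (-(μ : ℤ)) ≤ ‖z.1‖ := hz.1.2
    rw [h0, norm_zero] at h2
    exact absurd h2 (not_le.2 (by positivity))
  filter_upwards [h1] with g hg y hy v hv hm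
  by_contra hlt
  exact hg (v, y) ⟨⟨by simpa using hv, (not_le.1 hlt).le⟩, hy⟩ hm

/-- A neighbourhood adapted to a compact set that meets every leaf at most once. -/
theorem cover_nhds {K : Set (κ → X3 p q)} (hK : IsCompact K)
    (h : ∀ w ∈ K, ∀ v, fl3 p q κ v w ∈ K → v = 0) (μ : ℕ) :
    ∃ 𝒪 ∈ 𝓝 (1 : κ → G3 p q), IsCompact 𝒪 ∧ (∀ g ∈ 𝒪, ∀ k, (g k).1.2 ∈ Kp p ∧
      ‖(g k).1.2 0 0‖ = 1) ∧ ∀ g ∈ 𝒪, ∀ g' ∈ 𝒪, ∀ (x : κ → X3 p q) (t : ℕ),
      (al p q κ t)⁻¹ • g • x ∈ K → (al p q κ t)⁻¹ • g' • x ∈ K →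
      ‖(fun k => (g k).1.2 0 1 / (g k).1.2 0 0) - fun k => (g' k).1.2 0 1 / (g' k).1.2 0 0‖ ≤
        (p : ℝ) ^ (-(2 * t : ℤ)) →
      ‖(fun k => (g k).1.2 0 1 / (g k).1.2 0 0) - fun k => (g' k).1.2 0 1 / (g' k).1.2 0 0‖ ≤
        (p : ℝ) ^ (-(2 * t + μ : ℤ)) := by
  have hp := ucv_p_pos (p := p)
  have hp0 : (p : ℚ_[p]) ≠ 0 := Nat.cast_ne_zero.2 (Fact.out : p.Prime).ne_zero
  let Θ : (κ → G3 p q) × (κ → SL(2, ℚ_[p])) → κ → G3 p q :=
    fun z k => (((z.1 k).1.1, z.2 k), (z.1 k).2)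
  have hΘ : Continuous Θ := continuous_pi fun k =>
    (((continuous_apply k).comp continuous_fst).fst.fst.prodMk
      ((continuous_apply k).comp continuous_snd)).prodMk
      ((continuous_apply k).comp continuous_fst).snd
  have hN := (hΘ.tendsto' (1, 1) 1 rfl).eventually (ucv_tube hK h μ)
  rw [nhds_prod_eq, eventually_prod_iff] at hN
  obtain ⟨N₁, hN₁, N₂, hN₂, hN⟩ := hN
  obtain ⟨ε, hε, hεN⟩ := ucv_basis hN₂
  let W : Set (κ → G3 p q) :=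
    {g | ∀ k i j, ‖(g k).1.2 i j - (1 : Matrix (Fin 2) (Fin 2) ℚ_[p]) i j‖ < min ε 1}
  have hW : W ∈ 𝓝 (1 : κ → G3 p q) := by
    refine eventually_all.2 fun k => eventually_all.2 fun i => eventually_all.2 fun j => ?_
    have hc : Continuous fun g : κ → G3 p q =>
        ‖(g k).1.2 i j - (1 : Matrix (Fin 2) (Fin 2) ℚ_[p]) i j‖ :=
      (((continuous_subtype_val.comp (continuous_apply k).fst.snd).matrix_elem i j).sub
        continuous_const).norm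
    refine hc.continuousAt.eventually (Iio_mem_nhds ?_)
    show ‖(1 : Matrix (Fin 2) (Fin 2) ℚ_[p]) i j - (1 : Matrix (Fin 2) (Fin 2) ℚ_[p]) i j‖ < _
    rw [sub_self, norm_zero]
    exact lt_min hε one_pos
  obtain ⟨V, hV, hVs⟩ := exists_nhds_split_inv (inter_mem hN₁ hW)
  obtain ⟨O, hO, hOs, hOc⟩ := local_compact_nhds (inter_mem hV hW)
  have hO1 : ∀ g ∈ O, ∀ k, (g k).1.2 ∈ Kp p ∧ ‖(g k).1.2 0 0‖ = 1 := by
    intro g hg k
    have hw : ∀ i j, ‖(g k).1.2 i j - (1 : Matrix (Fin 2) (Fin 2) ℚ_[p]) i j‖ < 1 := fun i j =>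
      ((hOs hg).2 k i j).trans_le (min_le_right _ _)
    have h00 : ‖(g k).1.2 0 0‖ = 1 := ucv_unit (by simpa using hw 0 0)
    have h11 : ‖(g k).1.2 1 1‖ = 1 := ucv_unit (by simpa using hw 1 1)
    refine ⟨fun i j => ?_, h00⟩
    fin_cases i <;> fin_cases j
    · exact h00.le
    · exact le_of_lt (by simpa using hw 0 1)
    · exact le_of_lt (by simpa using hw 1 0)
    · exact h11.le
  refine ⟨O, hO, hOc, hO1, fun g hg g' hg' x t h1 h2 hb => ?_⟩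
  have hd := hVs g (hOs hg).1 g' (hOs hg').1
  rw [div_eq_mul_inv] at hd
  set d : κ → G3 p q := g * g'⁻¹ with hdd
  let v : κ → ℚ_[p] := fun k => ((p : ℚ_[p]) ^ (2 * t))⁻¹ * ((d k).1.2 0 1 / (d k).1.2 1 1)
  let m : κ → SL(2, ℚ_[p]) := fun k => (uu (v k))⁻¹ * (aP p t).2⁻¹ * (d k).1.2 * (aP p t).2
  have hm : N₂ m := hεN m fun k i j =>
    (ucv_mat t (d k).1.2 (min_le_right ε 1) (hd.2 k) i j).trans_le (min_le_left _ _)
  have hfl : fl3 p q κ v (Θ (d, m) • (al p q κ t)⁻¹ • g' • x) = (al p q κ t)⁻¹ • g • x := by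
    funext k
    show u3 p q (v k) • Θ (d, m) k • (a3 p q t)⁻¹ • g' k • x k = (a3 p q t)⁻¹ • g k • x k
    simp only [← mul_smul]
    congr 1
    refine Prod.ext (Prod.ext ?_ ?_) ?_
    · simp [Θ, hdd, u3, uP, a3, aP]
    · simp [Θ, m, hdd, u3, uP, a3, mul_assoc]
    · simp [Θ, hdd, u3, a3]
  have hn : ‖(p : ℚ_[p]) ^ (2 * t)‖ = (p : ℝ) ^ (-(2 * t : ℤ)) := by
    rw [Padic.norm_p_pow]
    push_cast
    rfl
  have hv : ∀ k, ‖((fun k => (g k).1.2 0 1 / (g k).1.2 0 0) -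
      fun k => (g' k).1.2 0 1 / (g' k).1.2 0 0) k‖ = (p : ℝ) ^ (-(2 * t : ℤ)) * ‖v k‖ := by
    intro k
    have h11 : ‖(d k).1.2 1 1‖ = 1 :=
      ucv_unit (by simpa using (hd.2 k 1 1).trans_le (min_le_right _ _))
    have h01 : ‖(d k).1.2 0 1‖ = _ := ucv_01 (g k).1.2 (g' k).1.2 (hO1 g hg k).2 (hO1 g' hg' k).2
    simp only [v]
    rw [norm_mul, norm_inv, hn, norm_div, h11, div_one, h01, mul_inv_cancel_left₀ (by positivity)]
    rfl
  have hv1 : ‖v‖ ≤ 1 := (pi_norm_le_iff_of_nonneg zero_le_one).2 fun k => by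
    have := (norm_le_pi_norm _ k).trans hb
    rw [hv] at this
    exact (mul_le_iff_le_one_right (by positivity)).1 this
  have hv2 := hN hd.1 hm _ h2 v hv1 (by rw [hfl]; exact h1)
  refine (pi_norm_le_iff_of_nonneg (by positivity)).2 fun k => ?_
  rw [hv, neg_add, zpow_add₀ hp.ne']
  exact mul_le_mul_of_nonneg_left ((norm_le_pi_norm v k).trans hv2) (by positivity)

theorem ucv_open (x : κ → X3 p q) {V : Set (κ → G3 p q)} (hV : V ∈ 𝓝 (1 : κ → G3 p q)) :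
    (fun g : κ → G3 p q => g • x) '' V ∈ 𝓝 x := by
  have ho : IsOpenMap fun g : κ → G3 p q => g • x := by
    refine IsOpenMap.piMap (f := fun k (g : G3 p q) => g • x k) (fun k => ?_) (by simp)
    obtain ⟨h, hh⟩ := QuotientGroup.mk_surjective (x k)
    rw [← hh]
    exact QuotientGroup.isOpenMap_coe.comp (isOpenMap_mul_right h)
  simpa using ho.image_mem_nhds hV

theorem ucv_piece (hpq : p ≠ q) (ν : Measure (κ → X3 p q)) (k₀ : κ)
    (hm : ν.map (fun w => w k₀) = m3 p q) {O : Set (κ → G3 p q)} (hO : IsCompact O)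
    (hK : ∀ g ∈ O, ∀ k, (g k).1.2 ∈ Kp p ∧ ‖(g k).1.2 0 0‖ = 1) : ∃ C : ℝ,
    ∀ (x : κ → X3 p q) (n : ℕ) (c : κ → ℚ_[p]),
      ν {w | ∃ g ∈ O, ‖(fun k => (g k).1.2 0 1 / (g k).1.2 0 0) - c‖ ≤ (p : ℝ) ^ (-(n : ℤ)) ∧
        w = g • x} ≤ ENNReal.ofReal (C * (p : ℝ) ^ (-(n : ℤ))) := by
  have hc : Continuous fun z : (κ → G3 p q) × (κ → G3 p q) => z.1 k₀ * (z.2 k₀)⁻¹ :=
    ((continuous_apply k₀).comp continuous_fst).mul
      ((continuous_apply k₀).comp continuous_snd).inv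
  obtain ⟨C, hC⟩ := m3_up hpq ((hO.prod hO).image hc) (by
    rintro _ ⟨z, hz, rfl⟩
    exact (Kp p).mul_mem (hK _ hz.1 k₀).1 ((Kp p).inv_mem (hK _ hz.2 k₀).1))
  refine ⟨C, fun x n c => ?_⟩
  rcases Set.eq_empty_or_nonempty {w | ∃ g ∈ O,
    ‖(fun k => (g k).1.2 0 1 / (g k).1.2 0 0) - c‖ ≤ (p : ℝ) ^ (-(n : ℤ)) ∧ w = g • x} with h | h
  · rw [h, measure_empty]
    exact bot_le
  obtain ⟨_, g₀, hg₀, h0, rfl⟩ := h
  refine le_trans ?_ (hC n ((g₀ • x) k₀))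
  rw [← hm]
  refine le_trans (measure_mono ?_)
    (Measure.le_map_apply (measurable_pi_apply k₀).aemeasurable _)
  rintro _ ⟨g, hg, h1, rfl⟩
  refine ⟨g k₀ * (g₀ k₀)⁻¹, ⟨(g, g₀), ⟨hg, hg₀⟩, rfl⟩, ?_, ?_⟩
  · refine le_trans (le_of_eq ?_) ((norm_le_pi_norm _ k₀).trans (ucv_sub h1 h0))
    exact ucv_01 (g k₀).1.2 (g₀ k₀).1.2 (hK g hg k₀).2 (hK g₀ hg₀ k₀).2
  · show g k₀ • x k₀ = (g k₀ * (g₀ k₀)⁻¹) • g₀ k₀ • x k₀
    rw [← mul_smul, inv_mul_cancel_right]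

theorem ucv_small {a : ℝ≥0∞} {B : ℝ} (h : ∀ t : ℕ, a ≤ ENNReal.ofReal (B * (3 / 4) ^ t)) :
    a = 0 := by
  have h1 : Tendsto (fun t : ℕ => ENNReal.ofReal (B * (3 / 4) ^ t)) atTop
      (𝓝 (ENNReal.ofReal (B * 0))) :=
    ENNReal.tendsto_ofReal
      ((tendsto_pow_atTop_nhds_zero_of_lt_one (by norm_num) (by norm_num)).const_mul B)
  have := ge_of_tendsto' h1 h
  simpa using this

theorem cover (hpq : p ≠ q) {M : ℕ} (hM : 0 < M) (ν : Measure (κ → X3 p q))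
    [IsProbabilityMeasure ν] (ha : al p q κ M ∈ Stab (κ → G3 p q) ν) (k₀ : κ)
    (hm : ν.map (fun w => w k₀) = m3 p q) {D : Set (κ → X3 p q)}
    (hD : ∀ w ∈ D, ∀ v, fl3 p q κ v w ∈ D → v = 0) : ¬ ∀ᵐ w ∂ν, w ∈ D := by
  classical
  intro hae
  have hp := ucv_p_pos (p := p)
  have hp2 : (2 : ℝ) ≤ p := by exact_mod_cast (Fact.out : p.Prime).two_le
  set N : ℕ := p ^ (2 * M * Fintype.card κ) with hN
  obtain ⟨L₀, hL₀⟩ := pow_unbounded_of_one_lt (N : ℝ) (by norm_num : (1 : ℝ) < 3 / 2)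
  set L : ℕ := L₀ + 1 with hL
  have hLpos : (0 : ℝ) < L := by positivity
  have hNL : (N : ℝ) ≤ (3 / 2) ^ L :=
    hL₀.le.trans (pow_le_pow_right₀ (by norm_num) (Nat.le_succ _))
  obtain ⟨K, hKc, hKD, hKν, -⟩ := lusin ν (f := fun _ => (0 : ℝ)) measurable_const hae
    (ε := ENNReal.ofReal (1 / (4 * L))) (ENNReal.ofReal_pos.2 (by positivity))
  obtain ⟨O, hO, hOc, hO1, hO2⟩ := cover_nhds hKc (fun w hw v hv => hD w (hKD hw) v (hKD hv))
    (2 * M)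
  obtain ⟨C, hC⟩ := ucv_piece hpq ν k₀ hm hOc hO1
  obtain ⟨F, -, hF⟩ := hKc.elim_nhds_subcover (fun x => (fun g : κ → G3 p q => g • x) '' O)
    fun x _ => ucv_open x hO
  let T : (κ → X3 p q) → κ → X3 p q := fun w => (al p q κ M)⁻¹ • w
  have hT : MeasurePreserving T ν ν := ⟨measurable_const_smul _, (Stab _ ν).inv_mem ha⟩
  have hTi : ∀ τ w, T^[τ] w = (al p q κ (M * τ))⁻¹ • w := by
    intro τ w
    rw [al_mul, ← inv_pow]
    exact smul_iterate_apply _ _ _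
  let B : Set (κ → X3 p q) := {w | ∃ n : ℕ,
    (1 / L : ℝ) * n < ((Finset.range n).filter fun t => T^[t] w ∈ Kᶜ).card}
  have hB : ENNReal.ofReal (1 / L) * ν B ≤ ν Kᶜ := by
    have := hopf_count ν hT Kᶜ (θ := 1 / L) (by positivity)
    simp only [B]
    convert this
  have hB' : ν B ≤ ENNReal.ofReal (1 / 4) := by
    have h1 : ENNReal.ofReal (1 / (4 * L)) = ENNReal.ofReal (1 / L) * ENNReal.ofReal (1 / 4) := by
      rw [← ENNReal.ofReal_mul (by positivity)]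
      congr 1
      field_simp
    refine (ENNReal.mul_le_mul_iff_right (a := ENNReal.ofReal (1 / L)) ?_ ENNReal.ofReal_ne_top).1 ?_
    · exact (ENNReal.ofReal_pos.2 (by positivity)).ne'
    · rw [← h1]
      exact hB.trans hKν
  have hz : ν (K \ B) = 0 := by
    refine ucv_small (B := F.card * max C 0) fun t => ?_
    let A : (κ → X3 p q) → Finset ℕ → Set (κ → ℚ_[p]) := fun x S =>
      {b | ∃ g ∈ O, b = (fun k => (g k).1.2 0 1 / (g k).1.2 0 0) ∧ ∀ τ ∈ S, T^[τ] (g • x) ∈ K}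
    have hA : ∀ x S, ∃ R : Finset (κ → ℚ_[p]),
        R.card ≤ N ^ ((Finset.range t).filter fun τ => τ ∉ S).card ∧
        ∀ b ∈ A x S, ∃ c ∈ R, ‖b - c‖ ≤ (p : ℝ) ^ (-((2 * M * t : ℕ) : ℤ)) := by
      intro x S
      obtain ⟨R, h1, h2⟩ := ball_cover (2 * M) t (S : Set ℕ) (A := A x S) (by
        rintro _ ⟨g, hg, rfl, -⟩
        refine (pi_norm_le_iff_of_nonneg zero_le_one).2 fun k => ?_
        rw [norm_div, (hO1 g hg k).2, div_one]
        exact (hO1 g hg k).1 0 1) (by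
        rintro τ hτ - _ ⟨g, hg, rfl, h1⟩ _ ⟨g', hg', rfl, h2⟩ h3
        have e1 : (-(((2 * M : ℕ) : ℤ) * τ) : ℤ) = -(2 * ((M * τ : ℕ) : ℤ)) := by push_cast; ring
        have e2 : (-(((2 * M : ℕ) : ℤ) * (τ + 1)) : ℤ) =
            -(2 * ((M * τ : ℕ) : ℤ) + ((2 * M : ℕ) : ℤ)) := by push_cast; ring
        rw [e1] at h3
        rw [e2]
        exact hO2 g hg g' hg' x (M * τ) (hTi τ _ ▸ h1 τ hτ) (hTi τ _ ▸ h2 τ hτ) h3)
      refine ⟨R, ?_, fun b hb => by exact_mod_cast h2 b hb⟩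
      simp only [Finset.mem_coe] at h1
      convert h1
    choose R hR1 hR2 using hA
    let P : Finset (Finset ℕ) := (Finset.range t).powerset.filter fun S =>
      L * ((Finset.range t).filter fun τ => τ ∉ S).card ≤ t
    have hsub : K \ B ⊆ ⋃ x ∈ F, ⋃ S ∈ P, ⋃ c ∈ R x S, {w | ∃ g ∈ O,
        ‖(fun k => (g k).1.2 0 1 / (g k).1.2 0 0) - c‖ ≤ (p : ℝ) ^ (-((2 * M * t : ℕ) : ℤ)) ∧
          w = g • x} := by
      rintro w ⟨hw, hwB⟩
      obtain ⟨x, hx, g, hg, rfl⟩ := Set.mem_iUnion₂.1 (hF hw)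
      let S : Finset ℕ := (Finset.range t).filter fun τ => T^[τ] (g • x) ∈ K
      have hS : S ∈ P := by
        refine Finset.mem_filter.2 ⟨Finset.mem_powerset.2 (Finset.filter_subset _ _), ?_⟩
        have h1 := not_lt.1 fun h => hwB ⟨t, h⟩
        have h2 : ((Finset.range t).filter fun τ => τ ∉ S) =
            (Finset.range t).filter fun τ => T^[τ] (g • x) ∈ Kᶜ :=
          Finset.filter_congr fun τ hτ => by
            simp only [S, Finset.mem_filter, hτ, true_and, Set.mem_compl_iff]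
        rw [h2]
        rw [one_div, inv_mul_eq_div, le_div_iff₀ hLpos, mul_comm] at h1
        exact_mod_cast h1
      obtain ⟨c, hc, h3⟩ := hR2 x S _ ⟨g, hg, rfl, fun τ hτ => (Finset.mem_filter.1 hτ).2⟩
      simp only [Set.mem_iUnion]
      exact ⟨x, hx, S, hS, c, hc, g, hg, h3, rfl⟩
    have hb : C * (p : ℝ) ^ (-((2 * M * t : ℕ) : ℤ)) ≤ max C 0 * (1 / 4) ^ t := by
      refine mul_le_mul (le_max_left _ _) ?_ (by positivity) (le_max_right _ _)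
      rw [zpow_neg, zpow_natCast, one_div, inv_pow]
      refine inv_anti₀ (by positivity) ?_
      rw [pow_mul]
      refine pow_le_pow_left₀ (by norm_num) ?_ t
      calc (4 : ℝ) = 2 ^ 2 := by norm_num
        _ ≤ 2 ^ (2 * M) := pow_le_pow_right₀ (by norm_num) (by omega)
        _ ≤ _ := pow_le_pow_left₀ (by norm_num) hp2 _
    have hR : ∀ x, ∀ S ∈ P, ((R x S).card : ℝ) ≤ (3 / 2) ^ t := by
      intro x S hS
      have h1 : ((R x S).card : ℝ) ≤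
          (N : ℝ) ^ ((Finset.range t).filter fun τ => τ ∉ S).card := by exact_mod_cast hR1 x S
      refine h1.trans ((pow_le_pow_left₀ (by positivity) hNL _).trans ?_)
      rw [← pow_mul]
      exact pow_le_pow_right₀ (by norm_num) (Finset.mem_filter.1 hS).2
    have hP : (P.card : ℝ) ≤ 2 ^ t := by
      have := Finset.card_filter_le (Finset.range t).powerset fun S =>
        L * ((Finset.range t).filter fun τ => τ ∉ S).card ≤ t
      rw [Finset.card_powerset, Finset.card_range] at this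
      exact_mod_cast this
    have hC0 : 0 ≤ max C 0 := le_max_right _ _
    calc ν (K \ B) ≤ ∑ x ∈ F, ∑ S ∈ P, ∑ c ∈ R x S, ENNReal.ofReal (max C 0 * (1 / 4) ^ t) := by
          refine (measure_mono hsub).trans ((measure_biUnion_finset_le _ _).trans
            (Finset.sum_le_sum fun x _ => (measure_biUnion_finset_le _ _).trans
              (Finset.sum_le_sum fun S _ => (measure_biUnion_finset_le _ _).trans
                (Finset.sum_le_sum fun c _ => (hC x _ c).trans (ENNReal.ofReal_le_ofReal hb)))))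
      _ ≤ ∑ x ∈ F, ∑ S ∈ P, ENNReal.ofReal ((3 / 2) ^ t * (max C 0 * (1 / 4) ^ t)) := by
          refine Finset.sum_le_sum fun x _ => Finset.sum_le_sum fun S hS => ?_
          rw [Finset.sum_const, nsmul_eq_mul, ← ENNReal.ofReal_natCast,
            ← ENNReal.ofReal_mul (by positivity)]
          exact ENNReal.ofReal_le_ofReal (mul_le_mul_of_nonneg_right (hR x S hS) (by positivity))
      _ ≤ _ := by
          rw [Finset.sum_const, Finset.sum_const, nsmul_eq_mul, nsmul_eq_mul,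
            ← ENNReal.ofReal_natCast, ← ENNReal.ofReal_natCast,
            ← ENNReal.ofReal_mul (by positivity), ← ENNReal.ofReal_mul (by positivity)]
          refine ENNReal.ofReal_le_ofReal ?_
          have e : (3 / 4 : ℝ) ^ t = 2 ^ t * ((3 / 2) ^ t * (1 / 4) ^ t) := by
            rw [← mul_pow, ← mul_pow]
            norm_num
          rw [e]
          calc (F.card : ℝ) * (P.card * ((3 / 2) ^ t * (max C 0 * (1 / 4) ^ t)))
              ≤ F.card * (2 ^ t * ((3 / 2) ^ t * (max C 0 * (1 / 4) ^ t))) := by gcongr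
            _ = _ := by ring
  have h1 : ν Set.univ ≤ ν Kᶜ + (ν B + ν (K \ B)) := by
    refine le_trans (measure_mono ?_) ((measure_union_le _ _).trans
      (add_le_add le_rfl (measure_union_le _ _)))
    intro w _
    by_cases hw : w ∈ K
    · by_cases hw' : w ∈ B
      · exact Or.inr (Or.inl hw')
      · exact Or.inr (Or.inr ⟨hw, hw'⟩)
    · exact Or.inl hw
  have h2 : ν Kᶜ ≤ ENNReal.ofReal (1 / 4) := by
    refine hKν.trans (ENNReal.ofReal_le_ofReal (one_div_le_one_div_of_le (by norm_num) ?_))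
    have : (1 : ℝ) ≤ L := by exact_mod_cast Nat.succ_le_succ (Nat.zero_le L₀)
    linarith
  rw [measure_univ, hz, add_zero] at h1
  have h3 := h1.trans (add_le_add h2 hB')
  rw [← ENNReal.ofReal_add (by norm_num) (by norm_num), ENNReal.one_le_ofReal] at h3
  norm_num at h3

end Pool.Agent.EQ
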