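import Pool.Agent.P.MP_ad7a55_nt.USa
import Pool.Agent.P.MP_ad7a55_nt.UGn

/-! Decomposition of a measure into measures invariant under lines. -/

set_option autoImplicit false

noncomputable section

open MeasureTheory Topology Filter UpperHalfPlane
open scoped MatrixGroups ENNReal BoundedContinuousFunction

namespace Pool.Agent.EQ

open ProbabilityTheory

variable {p : ℕ} [Fact p.Prime] {ι : Type} [Fintype ι]
  {W : Type} [TopologicalSpace W] [PolishSpace W] [MeasurableSpace W] [BorelSpace W]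
  (φ : Flow (ι → ℚ_[p]) W) (ν : Measure W) [IsProbabilityMeasure ν]

omit [Fintype ι] [PolishSpace W] [MeasurableSpace W] [BorelSpace W] in
theorem usb_comm (u v : ι → ℚ_[p]) (w : W) : φ u (φ v w) = φ v (φ u w) := by
  rw [← φ.map_add, ← φ.map_add, add_comm]

omit [Fintype ι] [PolishSpace W] in
theorem usb_meas (c : ι → ℚ_[p]) : Measurable (φ c) :=
  (φ.continuous continuous_const continuous_id).measurable

omit [PolishSpace W] in
theorem usb_meas' (w : W) : Measurable fun v : ι → ℚ_[p] => φ v w :=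
  (φ.continuous continuous_id continuous_const).measurable

theorem usb_one_lt : (1 : ℝ) < p := by exact_mod_cast (Fact.out : p.Prime).one_lt

theorem usb_exists (c : ι → ℚ_[p]) (l : ℤ) : ∃ k : ℤ, l ≤ k ∧ ‖c‖ ≤ (p : ℝ) ^ k := by
  obtain ⟨n, hn⟩ := pow_unbounded_of_one_lt ‖c‖ (usb_one_lt (p := p))
  refine ⟨max l n, le_max_left _ _, hn.le.trans ?_⟩
  rw [← zpow_natCast]
  exact zpow_le_zpow_right₀ (usb_one_lt (p := p)).le (le_max_right _ _)

theorem usb_shift {k : ℤ} {c : ι → ℚ_[p]} (hc : ‖c‖ ≤ (p : ℝ) ^ k) {g : (ι → ℚ_[p]) → ℝ≥0∞}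
    (hg : Measurable g) : ∫⁻ v, g (v + c) ∂bmV p ι k = ∫⁻ v, g v ∂bmV p ι k := by
  rw [← lintegral_map hg (measurable_add_const c), bmV_add hc]

theorem line_int {A : Set W} (hA : MeasurableSet A) (hi : ∀ v w, w ∈ A → φ v w ∈ A)
    (c : ι → ℚ_[p]) (l : ℤ) (h : ∀ w ∈ A, ∃ d ∈ Sig (dat φ ν w), ‖d - c‖ ≤ (p : ℝ) ^ l)
    {F : W → ℝ≥0∞} (hF : Measurable F)
    (hF' : ∀ v : ι → ℚ_[p], ‖v‖ ≤ (p : ℝ) ^ l → ∀ w, F (φ v w) = F w) :
    ∫⁻ w in A, F (φ c w) ∂ν = ∫⁻ w in A, F w ∂ν := by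
  obtain ⟨k, hlk, hc⟩ := usb_exists c l
  have hi' : ∀ v w, φ v w ∈ A ↔ w ∈ A := fun v w => ⟨fun hw => by
    have := hi (-v) _ hw
    rwa [← φ.map_add, neg_add_cancel, φ.map_zero_apply] at this, hi v w⟩
  have hind : ∀ (G : W → ℝ≥0∞) v w,
      A.indicator G (φ v w) = A.indicator (fun x => G (φ v x)) w := fun G v w => by
    by_cases hw : w ∈ A
    · rw [Set.indicator_of_mem hw, Set.indicator_of_mem ((hi' v w).2 hw)]
    · rw [Set.indicator_of_notMem hw, Set.indicator_of_notMem (mt (hi' v w).1 hw)]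
  have hFc : Measurable fun w => F (φ c w) := hF.comp (usb_meas φ c)
  rw [← lintegral_indicator hA, ← lintegral_indicator hA,
    ← lint_lw φ ν hlk (hFc.indicator hA) (fun v hv w => by
      rw [hind]
      simp only [usb_comm φ c v, hF' v hv]),
    ← lint_lw φ ν hlk (hF.indicator hA) (fun v hv w => by
      rw [hind]
      simp only [hF' v hv])]
  refine lintegral_congr_ae ((ae_Gd φ ν).mono fun w hw => ?_)
  simp only [hind]
  by_cases hwA : w ∈ A
  · simp only [Set.indicator_of_mem hwA]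
    obtain ⟨d, hd, hdc⟩ := h w hwA
    have hlk' : (p : ℝ) ^ l ≤ (p : ℝ) ^ k := zpow_le_zpow_right₀ (usb_one_lt (p := p)).le hlk
    have hdk : ‖d‖ ≤ (p : ℝ) ^ k := by
      simpa using norm_add_V (hdc.trans hlk') hc
    have hδ : ∀ v, dat φ ν w k l (v + c) = dat φ ν w k l v := fun v => by
      rw [← ivD_dat φ ν w k l (v + c) (d - c) hdc, ← hw.sig hd hdk l v]
      congr 1
      abel
    have hm := (ivD_dat φ ν w).measurable k l
    have hFw : Measurable fun v : ι → ℚ_[p] => F (φ v w) := hF.comp (usb_meas' φ w)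
    have hFw' : Measurable fun v : ι → ℚ_[p] => F (φ c (φ v w)) := hFc.comp (usb_meas' φ w)
    rw [lw, lintegral_withDensity_eq_lintegral_mul _ hm hFw',
      lintegral_withDensity_eq_lintegral_mul _ hm hFw, ← usb_shift hc (hm.mul hFw)]
    refine lintegral_congr fun v => ?_
    rw [Pi.mul_apply, Pi.mul_apply, hδ, ← φ.map_add, add_comm c v]
  · simp only [Set.indicator_of_notMem hwA]

/-- the average of a function over a plaque -/
def usbAv (F : W → ℝ≥0∞) (l : ℤ) (w : W) : ℝ≥0∞ := ∫⁻ v, F (φ v w) ∂bmV p ι l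

theorem usb_av_meas {F : W → ℝ≥0∞} (hF : Measurable F) (l : ℤ) : Measurable (usbAv φ F l) :=
  (hF.comp (measurable_flowV φ)).lintegral_prod_right'

omit [PolishSpace W] in
theorem usb_av_flow {F : W → ℝ≥0∞} (hF : Measurable F) {l : ℤ} (u : ι → ℚ_[p])
    (hu : ‖u‖ ≤ (p : ℝ) ^ l) (w : W) : usbAv φ F l (φ u w) = usbAv φ F l w := by
  simp only [usbAv, ← φ.map_add]
  exact usb_shift hu (hF.comp (usb_meas' φ w))

omit [PolishSpace W] [MeasurableSpace W] [BorelSpace W] in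
theorem usb_av_le {F : W → ℝ≥0∞} (hF : ∀ w, F w ≤ 1) (l : ℤ) (w : W) : usbAv φ F l w ≤ 1 := by
  refine (lintegral_mono fun v => hF _).trans ?_
  simp

omit [PolishSpace W] [MeasurableSpace W] [BorelSpace W] in
theorem usb_av_lim {F : W → ℝ≥0∞} (hF : Continuous F) (w : W) :
    Tendsto (fun j : ℕ => usbAv φ F (-j) w) atTop (𝓝 (F w)) := by
  have hc : Tendsto (fun v : ι → ℚ_[p] => F (φ v w)) (𝓝 0) (𝓝 (F w)) := by
    have := (hF.comp (φ.continuous (continuous_id (X := ι → ℚ_[p])) (continuous_const (y := w)))).tendsto 0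
    simpa [Function.comp_def] using this
  have key : ∀ P : (ι → ℚ_[p]) → Prop, (∀ᶠ v in 𝓝 0, P v) →
      ∀ᶠ j : ℕ in atTop, ∀ᵐ v ∂bmV p ι (-j), P v := fun P hP => by
    obtain ⟨ε, hε, hb⟩ := Metric.eventually_nhds_iff.1 hP
    have h0 : Tendsto (fun j : ℕ => ((p : ℝ)⁻¹) ^ j) atTop (𝓝 0) :=
      tendsto_pow_atTop_nhds_zero_of_lt_one (by positivity)
        (inv_lt_one_of_one_lt₀ (usb_one_lt (p := p)))
    filter_upwards [h0.eventually (gt_mem_nhds hε)] with j hj
    filter_upwards [bmV_ae (p := p) (ι := ι) (-j)] with v hv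
    refine hb ?_
    rw [dist_zero_right]
    rw [zpow_neg, zpow_natCast, ← inv_pow] at hv
    exact hv.trans_lt hj
  refine tendsto_order.2 ⟨fun a ha => ?_, fun a ha => ?_⟩
  · obtain ⟨b, hab, hb⟩ := exists_between ha
    filter_upwards [key _ (hc.eventually (lt_mem_nhds hb))] with j hj
    refine hab.trans_le (le_trans ?_ (lintegral_mono_ae (f := fun _ => b) (hj.mono fun v hv => hv.le)))
    simp
  · obtain ⟨b, hb, hab⟩ := exists_between ha
    filter_upwards [key _ (hc.eventually (gt_mem_nhds hb))] with j hj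
    refine lt_of_le_of_lt ((lintegral_mono_ae (g := fun _ => b) (hj.mono fun v hv => hv.le)).trans ?_) hab
    simp

theorem usb_int_lim (μ : Measure W) [IsProbabilityMeasure μ] {F : W → ℝ≥0∞} (hF : Continuous F)
    (h1 : ∀ w, F w ≤ 1) (d : ι → ℚ_[p]) :
    Tendsto (fun j : ℕ => ∫⁻ x, usbAv φ F (-j) (φ d x) ∂μ) atTop (𝓝 (∫⁻ x, F (φ d x) ∂μ)) :=
  tendsto_lintegral_of_dominated_convergence (fun _ => 1)
    (fun _ => (usb_av_meas φ hF.measurable _).comp (usb_meas φ d))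
    (fun _ => Eventually.of_forall fun _ => usb_av_le φ h1 _ _) (by simp)
    (Eventually.of_forall fun _ => usb_av_lim φ hF _)

theorem line_kernel : ∃ ρ : Kernel W W, IsMarkovKernel ρ ∧ ν.bind ρ = ν ∧
    (∀ᵐ w ∂ν, ∀ d ∈ Lam (dat φ ν w), (ρ w).map (φ d) = ρ w) ∧
    ∀ T : W → W, Measurable T → ν.map T = ν →
      (∀ᵐ w ∂ν, Lam (dat φ ν (T w)) = Lam (dat φ ν w)) → ∀ᵐ w ∂ν, (ρ w).map T = ρ w := by
  set f : W → (ι → ℚ) × ℤ → Prop := fun w t =>
    ∃ d ∈ Metric.closedBall (fun i => (t.1 i : ℚ_[p])) ((p : ℝ) ^ t.2), d ∈ Lam (dat φ ν w) with hf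
  have hp : (0 : ℝ) < p := zero_lt_one.trans (usb_one_lt (p := p))
  have hfm : Measurable f := measurable_pi_lambda _ fun t => measurableSet_setOfPred.1
    (measurableSet_lam φ ν (isCompact_closedBall _ _)
      (IsUltrametricDist.isOpen_closedBall _ (zpow_pos hp _).ne'))
  obtain ⟨ρ, hρ, hb, -, h4, h5⟩ := disint ν hfm
  refine ⟨ρ, hρ, hb, ?_, fun T hT hTν hL => h5 T hT hTν (hL.mono fun w hw => by
    simp only [hf, hw])⟩
  obtain ⟨F, hF, hext⟩ := exists_test W
  have key : ∀ᵐ w ∂ν, ∀ (n : ℕ) (t : (ι → ℚ) × ℤ), f w t →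
      ∫⁻ x, usbAv φ (F n) t.2 (φ (fun i => (t.1 i : ℚ_[p])) x) ∂ρ w =
        ∫⁻ x, usbAv φ (F n) t.2 x ∂ρ w := by
    refine ae_all_iff.2 fun n => ae_all_iff.2 fun t => ?_
    have hm := usb_av_meas φ (hF n).1.measurable t.2
    refine h4 _ _ (hm.comp (usb_meas φ _)) hm {b | b t}
      (measurableSet_setOfPred.2 (measurable_pi_apply t)) fun B hB hBm => ?_
    refine line_int φ ν (hfm hBm) (fun v w hw => ?_) _ t.2 (fun w hw => ?_) hm
      fun v hv w => usb_av_flow φ (hF n).1.measurable v hv w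
    · have : f (φ v w) = f w := by simp only [hf, lam_flow]
      rwa [Set.mem_preimage, this]
    · obtain ⟨d, hd, hd'⟩ := hB hw
      exact ⟨d, by simpa using hd' 1, by rwa [mem_closedBall_iff_norm] at hd⟩
  filter_upwards [key] with w hw d hd
  refine hext _ _ (Measure.isProbabilityMeasure_map (usb_meas φ d).aemeasurable) inferInstance
    fun n => ?_
  rw [lintegral_map (hF n).1.measurable (usb_meas φ d)]
  have h0 := usb_int_lim φ (ρ w) (hF n).1 (hF n).2 0
  simp only [φ.map_zero_apply] at h0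
  refine tendsto_nhds_unique (usb_int_lim φ (ρ w) (hF n).1 (hF n).2 d) (h0.congr fun j => ?_)
  obtain ⟨r, hr⟩ := exists_rat_V d (-j)
  rw [← hw n (r, -j) ⟨d, mem_closedBall_iff_norm.2 hr, hd⟩]
  refine lintegral_congr fun x => ?_
  rw [← usb_av_flow φ (hF n).1.measurable _ hr, ← φ.map_add, sub_add_cancel]

end Pool.Agent.EQ
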