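import Pool.Agent.P.MP_ad7a55_nt.UHc
import Pool.Agent.P.MP_ad7a55_nt.USb
import Pool.Agent.P.MP_ad7a55_nt.Join

/-! Classification of joinings of the rank two action. -/

set_option autoImplicit false

noncomputable section

open MeasureTheory Topology Filter UpperHalfPlane
open scoped MatrixGroups ENNReal BoundedContinuousFunction

namespace Pool.Agent.EQ

variable (p : ℕ) [Fact p.Prime]

/-- Pairs related by an almost triangular correspondence. -/
def On (q : ℕ) (δ : ℚ) (R : ℝ) (m : ℕ) : Set (XX p × XX p) :=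
  {w | ∃ P ∈ HomS p q δ w.1 w.2, (∀ i j, |P.1 i j| < R) ∧ Bd R P.2 ∧
    ‖P.2 1 0‖ ≤ (p : ℝ) ^ (-(m : ℤ))}

def NP : Set (XX p × XX p) :=
  {w | ∃ q : ℕ, 0 < q ∧ ∃ δ : ℚ, δ ≠ 0 ∧ ∃ R : ℕ, 0 < R ∧ ∀ m, w ∈ On p q δ R m}

theorem isOpen_On (q : ℕ) (δ : ℚ) {R : ℝ} (hR : 0 < R) (m : ℕ) : IsOpen (On p q δ R m) := by
  rw [isOpen_iff_mem_nhds]
  rintro ⟨x, y⟩ ⟨P, hP, h1, h2, h3⟩
  have hv : Continuous fun g : SL(2, ℝ) => (g : Matrix (Fin 2) (Fin 2) ℝ) :=
    continuous_subtype_val
  have hv' : Continuous fun g : SL(2, ℚ_[p]) => (g : Matrix (Fin 2) (Fin 2) ℚ_[p]) :=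
    continuous_subtype_val
  have hc : Continuous fun z : GG p × GG p => (z.2.1 : Matrix (Fin 2) (Fin 2) ℝ) * P.1 *
      ((z.1.1⁻¹ : SL(2, ℝ)) : Matrix (Fin 2) (Fin 2) ℝ) :=
    ((hv.comp continuous_snd.fst).mul continuous_const).mul (hv.comp continuous_fst.fst.inv)
  have hc' : Continuous fun z : GG p × GG p => (z.2.2 : Matrix (Fin 2) (Fin 2) ℚ_[p]) * P.2 *
      ((z.1.2⁻¹ : SL(2, ℚ_[p])) : Matrix (Fin 2) (Fin 2) ℚ_[p]) :=
    ((hv'.comp continuous_snd.snd).mul continuous_const).mul (hv'.comp continuous_fst.snd.inv)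
  have e1 : ∀ᶠ z : GG p × GG p in 𝓝 (1, 1), ∀ i j, |((z.2.1 : Matrix (Fin 2) (Fin 2) ℝ) * P.1 *
      ((z.1.1⁻¹ : SL(2, ℝ)) : Matrix (Fin 2) (Fin 2) ℝ)) i j| < R := by
    refine eventually_all.2 fun i => eventually_all.2 fun j => ?_
    refine (hc.matrix_elem i j).abs.continuousAt.eventually_lt continuousAt_const ?_
    simpa using h1 i j
  have e2 : ∀ (i j : Fin 2) (r : ℝ), 0 < r → ‖P.2 i j‖ ≤ r →
      ∀ᶠ z : GG p × GG p in 𝓝 (1, 1), ‖((z.2.2 : Matrix (Fin 2) (Fin 2) ℚ_[p]) * P.2 *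
        ((z.1.2⁻¹ : SL(2, ℚ_[p])) : Matrix (Fin 2) (Fin 2) ℚ_[p])) i j‖ ≤ r := by
    intro i j r hr h
    have h4 := ((IsUltrametricDist.isOpen_closedBall (0 : ℚ_[p]) hr.ne').preimage
      (hc'.matrix_elem i j)).mem_nhds (x := (1, 1)) (by simpa using h)
    exact Filter.mem_of_superset h4 fun z hz => mem_closedBall_zero_iff.1 hz
  have hp : (0 : ℝ) < p := Nat.cast_pos.2 (Fact.out : p.Prime).pos
  have e := e1.and ((eventually_all.2 fun i => eventually_all.2 fun j =>
    e2 i j R hR (h2 i j)).and (e2 1 0 _ (zpow_pos hp _) h3))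
  obtain ⟨V, hV, W, hW, hVW⟩ := mem_nhds_prod_iff.1 e
  refine mem_of_superset (prod_mem_nhds (exists_nhds_smul p x hV) (exists_nhds_smul p y hW)) ?_
  rintro ⟨_, _⟩ ⟨⟨a, ha, rfl⟩, ⟨b, hb, rfl⟩⟩
  obtain ⟨k1, k2, k3⟩ := hVW (show (a, b) ∈ V ×ˢ W from ⟨ha, hb⟩)
  exact ⟨_, HomS.smul hP a b, k1, k2, k3⟩

theorem measurableSet_NP : MeasurableSet (NP p) := by
  have e : NP p = ⋃ q : ℕ, ⋃ _ : 0 < q, ⋃ δ : ℚ, ⋃ _ : δ ≠ 0, ⋃ R : ℕ, ⋃ _ : 0 < R,
      ⋂ m, On p q δ R m := by
    ext w
    simp only [NP, Set.mem_ofPred_eq, Set.mem_iUnion, Set.mem_iInter, exists_prop]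
  rw [e]
  exact MeasurableSet.iUnion fun q => MeasurableSet.iUnion fun _ => MeasurableSet.iUnion fun δ =>
    MeasurableSet.iUnion fun _ => MeasurableSet.iUnion fun R => MeasurableSet.iUnion fun hR =>
      MeasurableSet.iInter fun m => (isOpen_On p q δ (Nat.cast_pos.2 hR) m).measurableSet

theorem NN_subset (d₁ d₂ : ℚ_[p]) : NN p d₁ d₂ ⊆ NP p := by
  rintro w ⟨q, hq, δ, hδ, P, hP, h1, -⟩
  obtain ⟨R, hR⟩ := exists_nat_gt (∑ z : Fin 2 × Fin 2, (|P.1 z.1 z.2| + ‖P.2 z.1 z.2‖))
  have h2 : ∀ i j, |P.1 i j| + ‖P.2 i j‖ < R := fun i j =>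
    (Finset.single_le_sum (f := fun z : Fin 2 × Fin 2 => |P.1 z.1 z.2| + ‖P.2 z.1 z.2‖)
      (fun z _ => by positivity) (Finset.mem_univ (i, j))).trans_lt hR
  have h3 : (0 : ℝ) < R := lt_of_le_of_lt (by positivity) (h2 0 0)
  refine ⟨q, hq, δ, hδ, R, Nat.cast_pos.1 h3, fun m => ⟨P, hP, fun i j => ?_, fun i j => ?_, ?_⟩⟩
  · linarith [h2 i j, norm_nonneg (P.2 i j)]
  · linarith [h2 i j, abs_nonneg (P.1 i j)]
  · rw [h1, norm_zero]
    positivity

variable {p}

theorem ext_mP {κ : Type} [Fintype κ] [DecidableEq κ] {d : κ → ℚ_[p]} (hd : ∀ k, d k ≠ 0)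
    (μ : Measure (κ → XX p)) (h : μ ≤ mP p κ) (hi : Inv (ufl p d) μ) :
    μ = μ Set.univ • mP p κ := by
  have : IsFiniteMeasure μ := isFiniteMeasure_of_le _ h
  exact eq_of_all_free fun k => free_of_P fun g =>
    mautner_U p _ (mprop_Stab (mP p κ) μ (mP_inv p) h) d hd (fun s => hi s) k g

theorem prod_of_line {κ : Type} [Fintype κ] [DecidableEq κ] (d : κ → ℚ_[p])
    [DecidablePred fun k => d k = 0] (ρ : Measure (κ → XX p)) [IsProbabilityMeasure ρ]
    (hi : Inv (ufl p d) ρ) (hm : ∀ k, ρ.map (fun w => w k) = mX p)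
    (hN : ∀ k l, k ≠ l → ρ {w | (w k, w l) ∈ NP p} = 0)
    (hr : ρ.map (fun w (k : {k // d k = 0}) => w k) = mP p {k // d k = 0}) : ρ = mP p κ := by
  let rA : (κ → XX p) → ({k // ¬ d k = 0} → XX p) := fun w k => w k
  let rB : (κ → XX p) → ({k // d k = 0} → XX p) := fun w k => w k
  have hA : Measurable rA := measurable_pi_lambda _ fun j => measurable_pi_apply j.1
  have hB : Measurable rB := measurable_pi_lambda _ fun j => measurable_pi_apply j.1
  have h1 : ∀ s, Measurable (ufl p (fun i : {k // ¬ d k = 0} => d i.1) s) := fun s =>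
    ((ufl p _).continuous continuous_const continuous_id).measurable
  have h2 : ∀ s, Measurable (ufl p d s) := fun s =>
    ((ufl p d).continuous continuous_const continuous_id).measurable
  have hinv : ∀ C, MeasurableSet C →
      Inv (ufl p fun i : {k // ¬ d k = 0} => d i.1) ((ρ.restrict (rB ⁻¹' C)).map rA) := by
    intro C hC s
    have h3 : ufl p (fun i : {k // ¬ d k = 0} => d i.1) s ∘ rA = rA ∘ ufl p d s := rfl
    have h4 : ufl p d s ⁻¹' (rB ⁻¹' C) = rB ⁻¹' C := by
      ext w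
      have h5 : rB (ufl p d s w) = rB w := by
        funext k
        simp [rB, ufl_apply, k.2]
      simp only [Set.mem_preimage, h5]
    rw [Measure.map_map (h1 s) hA, h3, ← Measure.map_map hA (h2 s)]
    conv_lhs => rw [← h4, ← Measure.restrict_map (h2 s) (hB hC), hi s]
  have hP : IsProbabilityMeasure (ρ.map rA) := Measure.isProbabilityMeasure_map hA.aemeasurable
  have hj : ρ.map rA = mP p {k // ¬ d k = 0} := by
    refine join p _ (fun i => d i.1) (fun i => i.2) _ ?_ (fun i => ?_) fun a b hab => ?_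
    · simpa using hinv Set.univ MeasurableSet.univ
    · rw [Measure.map_map (measurable_pi_apply i) hA]
      exact hm i.1
    · have h7 : MeasurableSet {w : {k // ¬ d k = 0} → XX p |
          (w a, w b) ∈ NN p (d a.1) (d b.1)} :=
        ((measurable_pi_apply a).prodMk (measurable_pi_apply b)) (join_measurableSet_NN p _ _)
      rw [Measure.map_apply hA h7]
      exact measure_mono_null (fun w hw => NN_subset p _ _ hw)
        (hN a.1 b.1 fun h => hab (Subtype.ext h))
  refine (Measure.pi_eq fun s hs => ?_).symm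
  have hC : MeasurableSet (Set.pi Set.univ fun j : {k // d k = 0} => s j.1) :=
    MeasurableSet.univ_pi fun j => hs j.1
  have hD : MeasurableSet (Set.pi Set.univ fun j : {k // ¬ d k = 0} => s j.1) :=
    MeasurableSet.univ_pi fun j => hs j.1
  have h5 := ext_mP (d := fun i : {k // ¬ d k = 0} => d i.1) (fun i => i.2) _
    (hj ▸ Measure.map_mono Measure.restrict_le_self hA) (hinv _ hC)
  have h6 := congrArg (fun μ : Measure ({k // ¬ d k = 0} → XX p) =>
    μ (Set.pi Set.univ fun j => s j.1)) h5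
  simp only [Measure.smul_apply, smul_eq_mul] at h6
  rw [Measure.map_apply hA hD, Measure.restrict_apply (hA hD),
    Measure.map_apply hA MeasurableSet.univ, Set.preimage_univ, Measure.restrict_apply_univ,
    ← Measure.map_apply hB hC, hr, mP, mP, Measure.pi_pi, Measure.pi_pi,
    Fintype.prod_subtype_mul_prod_subtype (fun k => d k = 0) (fun j => mX p (s j))] at h6
  rw [← h6]
  refine congrArg _ (Set.ext fun w => ?_)
  simp only [Set.mem_pi, Set.mem_univ, true_imp_iff, Set.mem_inter_iff, Set.mem_preimage]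
  refine ⟨fun hw => ⟨fun j => hw j.1, fun j => hw j.1⟩, fun hw j => ?_⟩
  by_cases hj : d j = 0
  · exact hw.2 ⟨j, hj⟩
  · exact hw.1 ⟨j, hj⟩

theorem uel_aux {q : ℕ} [Fact q.Prime] {M : ℕ} (n : ℕ) : ∀ (κ : Type) [Fintype κ],
    Fintype.card κ ≤ n → ∀ {h : κ → SL(2, ℚ_[q])} {ν : Measure (κ → X3 p q)}, Jn p q M h ν →
    (∀ k l, k ≠ l → ν {w | (pi3 p q (w k), pi3 p q (w l)) ∈ NP p} = 0) →
    ν.map (piP p q) = mP p κ := by
  classical
  have hpi : ∀ κ : Type, Measurable (piP p q (κ := κ)) := fun κ =>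
    measurable_pi_lambda _ fun k =>
      (continuous_pi3 p q).measurable.comp (measurable_pi_apply k)
  have hemp : ∀ (κ : Type) [Fintype κ] [IsEmpty κ] (ν : Measure (κ → X3 p q))
      [IsProbabilityMeasure ν], ν.map (piP p q) = mP p κ := by
    intro κ _ _ ν _
    have := Measure.isProbabilityMeasure_map (μ := ν) (hpi κ).aemeasurable
    exact join_small p _ fun k => isEmptyElim k
  have hmeas : ∀ {ι : Type} (a b : ι), MeasurableSet {w : ι → XX p | (w a, w b) ∈ NP p} :=
    fun a b => ((measurable_pi_apply a).prodMk (measurable_pi_apply b)) (measurableSet_NP p)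
  have hmeas' : ∀ {ι : Type} (a b : ι),
      MeasurableSet {w : ι → X3 p q | (pi3 p q (w a), pi3 p q (w b)) ∈ NP p} :=
    fun a b => hpi _ (hmeas a b)
  induction n with
  | zero =>
    intro κ _ hc h ν H _
    have := H.prob
    have : IsEmpty κ := Fintype.card_eq_zero_iff.1 (by omega)
    exact hemp κ ν
  | succ n ih =>
    intro κ _ hc h ν H hN
    have := H.prob
    rcases isEmpty_or_nonempty κ with he | he
    · exact hemp κ ν
    obtain ⟨ρ, hρ, hb, hl, hT⟩ := line_kernel (fl3 p q κ) ν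
    have ha := hT _ (measurable_const_smul (al p q κ M)) H.a H.lam_a
    have hb' := hT _ (measurable_const_smul (be p q h M)) H.b
      (H.dat_b.mono fun w hw => by rw [hw])
    have hm := H.marg_a ρ hb ha
    have h2 : ∀ᵐ w ∂ν, ∀ k l, k ≠ l →
        ρ w {w | (pi3 p q (w k), pi3 p q (w l)) ∈ NP p} = 0 := by
      refine ae_all_iff.2 fun k => ae_all_iff.2 fun l => ?_
      by_cases hkl : k = l
      · exact Filter.Eventually.of_forall fun w h => absurd hkl h
      have h3 := hN k l hkl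
      rw [← hb, Measure.bind_apply (hmeas' k l) ρ.measurable.aemeasurable,
        lintegral_eq_zero_iff (ρ.measurable_coe (hmeas' k l))] at h3
      exact h3.mono fun w hw _ => hw
    have h3 : ∀ᵐ w ∂ν, (ρ w).map (piP p q) = mP p κ := by
      filter_upwards [H.lam_ne, hl, ha, hb', hm, h2] with w ⟨d, hd, hd0⟩ w2 w3 w4 w5 w6
      have H' : Jn p q M h (ρ w) := ⟨H.ne, H.pos, inferInstance, w3, w4, w5⟩
      have := Measure.isProbabilityMeasure_map (μ := ρ w) (hpi κ).aemeasurable
      refine prod_of_line d _ (fun s => ?_) (fun k => ?_) (fun k l hkl => ?_) ?_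
      · have e1 : Measurable (ufl p d s) :=
          ((ufl p d).continuous continuous_const continuous_id).measurable
        have e2 : Measurable (fl3 p q κ (s • d)) :=
          ((fl3 p q κ).continuous continuous_const continuous_id).measurable
        have e3 : ufl p d s ∘ piP p q = piP p q ∘ fl3 p q κ (s • d) := by
          funext x k
          change uP p (d k * s) • pi3 p q (x k) = pi3 p q (u3 p q (s * d k) • x k)
          rw [pi3_smul p q (Kp q).one_mem, mul_comm]
          rfl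
        rw [Measure.map_map e1 (hpi κ), e3, ← Measure.map_map (hpi κ) e2,
          w2 _ (smul_mem_Lam hd s)]
      · rw [Measure.map_map (measurable_pi_apply k) (hpi κ), ← map_pi3 H.ne, ← w5 k,
          Measure.map_map (continuous_pi3 p q).measurable (measurable_pi_apply k)]
        rfl
      · rw [Measure.map_apply (hpi κ) (hmeas k l)]
        exact w6 k l hkl
      · have e1 : Measurable fun (w : κ → X3 p q) (k : {k // d k = 0}) => w k :=
          measurable_pi_lambda _ fun j => measurable_pi_apply j.1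
        have e2 : Measurable fun (w : κ → XX p) (k : {k // d k = 0}) => w k :=
          measurable_pi_lambda _ fun j => measurable_pi_apply j.1
        obtain ⟨k0, hk0⟩ := Function.ne_iff.1 hd0
        have e3 : Fintype.card {k // d k = 0} < Fintype.card κ :=
          Fintype.card_subtype_lt (x := k0) hk0
        have e4 := ih {k // d k = 0} (by omega) (H'.sub fun k => d k = 0) fun a b hab => by
          rw [Measure.map_apply e1 (hmeas' a b)]
          exact w6 a.1 b.1 fun h => hab (Subtype.ext h)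
        rw [Measure.map_map (hpi _) e1] at e4
        rw [Measure.map_map e2 (hpi κ)]
        exact e4
    ext B hB
    rw [Measure.map_apply (hpi κ) hB, ← hb,
      Measure.bind_apply (hpi κ hB) ρ.measurable.aemeasurable,
      lintegral_congr_ae (g := fun _ => mP p κ B) (h3.mono fun w hw => by
        beta_reduce
        rw [← hw, Measure.map_apply (hpi κ) hB])]
    simp

theorem el {q : ℕ} [Fact q.Prime] {M : ℕ} (κ : Type) [Fintype κ] {h : κ → SL(2, ℚ_[q])}
    {ν : Measure (κ → X3 p q)} (H : Jn p q M h ν)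
    (hN : ∀ k l, k ≠ l → ν {w | (pi3 p q (w k), pi3 p q (w l)) ∈ NP p} = 0) :
    ν.map (piP p q) = mP p κ := by
  exact uel_aux _ κ le_rfl H hN

end Pool.Agent.EQ
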