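import Pool.Agent.P.MP_ad7a55_nt.UG
import Pool.Agent.P.MP_ad7a55_nt.Vol2

/-! Frames at two split primes. -/

set_option autoImplicit false

noncomputable section

open MeasureTheory Topology Filter UpperHalfPlane
open scoped MatrixGroups ENNReal BoundedContinuousFunction

namespace Pool.Agent.EQ

/-- The discriminant has a split fundamental part at the prime `p`. -/
def Spl (p κ : ℕ) (D : ℤ) : Prop := ∃ E : ℤ, D = (p : ℤ) ^ (2 * κ) * E ∧ jacobiSym E p = 1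

variable (p q : ℕ) [Fact p.Prime] [Fact q.Prime]

/-- The matrix `Θ` acts as `√D`, and it is diagonal at both primes. -/
def FrG (D : ℤ) (rp : ℚ_[p]) (rq : ℚ_[q]) (hq : SL(2, ℚ_[q])) (g : G3 p q)
    (Θ : Matrix (Fin 2) (Fin 2) ℚ) : Prop :=
  (g.1.1 : Matrix (Fin 2) (Fin 2) ℝ) * Θ.map (↑) =
      !![0, Real.sqrt (-(D : ℝ)); -Real.sqrt (-(D : ℝ)), 0] * (g.1.1 : Matrix (Fin 2) (Fin 2) ℝ) ∧
    (g.1.2 : Matrix (Fin 2) (Fin 2) ℚ_[p]) * Θ.map (↑) =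
      !![rp, 0; 0, -rp] * (g.1.2 : Matrix (Fin 2) (Fin 2) ℚ_[p]) ∧
    ((hq⁻¹ * g.2 : SL(2, ℚ_[q])) : Matrix (Fin 2) (Fin 2) ℚ_[q]) * Θ.map (↑) =
      !![rq, 0; 0, -rq] * ((hq⁻¹ * g.2 : SL(2, ℚ_[q])) : Matrix (Fin 2) (Fin 2) ℚ_[q])

def Fr3 (D : ℤ) (rp : ℚ_[p]) (rq : ℚ_[q]) (hq : SL(2, ℚ_[q])) (x : X3 p q) : Prop :=
  ∃ (g : G3 p q) (Θ : Matrix (Fin 2) (Fin 2) ℚ), (g : X3 p q) = x ∧ FrG p q D rp rq hq g Θ

/-- A framed point over a class of discriminant `D`. -/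
def CF (D : ℤ) (rp : ℚ_[p]) (rq : ℚ_[q]) (hp : SL(2, ℚ_[p])) (hq : SL(2, ℚ_[q])) (x : X3 p q) :
    Prop :=
  Fr3 p q D rp rq hq x ∧ DiscL (lat3 p q (iP p q hp • x)) D

theorem ufr_jac_ndvd {E : ℤ} (h : jacobiSym E p = 1) : ¬ (p : ℤ) ∣ E := by
  intro hd
  rw [← jacobiSym.legendreSym.to_jacobiSym, (legendreSym.eq_zero_iff p E).2
    ((ZMod.intCast_zmod_eq_zero_iff_dvd E p).2 hd)] at h
  exact zero_ne_one h

theorem ufr_norm_one {n : ℤ} (h : ¬ (p : ℤ) ∣ n) : ‖(n : ℚ_[p])‖ = 1 :=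
  le_antisymm (Padic.norm_int_le_one n) (not_lt.1 fun h' => h (Padic.norm_intCast_lt_one_iff.1 h'))

theorem ufr_two (h2 : p ≠ 2) : ‖(2 : ℚ_[p])‖ = 1 := by
  have h : ¬ (p : ℤ) ∣ 2 := fun h' =>
    h2 ((Nat.prime_dvd_prime_iff_eq Fact.out Nat.prime_two).1 (by exact_mod_cast h'))
  simpa using ufr_norm_one p h

theorem ufr_val {n : ℤ} (h : ¬ (p : ℤ) ∣ n) (e : ℕ) : padicValInt p ((p : ℤ) ^ e * n) = e := by
  have hp : (p : ℤ) ≠ 0 := by exact_mod_cast (Fact.out : p.Prime).ne_zero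
  have hn : n ≠ 0 := by rintro rfl; exact h (dvd_zero _)
  rw [padicValInt.mul (pow_ne_zero _ hp) hn, padicValInt.eq_zero_of_not_dvd h, add_zero]
  simp [padicValInt, Int.natAbs_pow]

theorem ufr_jac_sq {n : ℤ} (h : ¬ (p : ℤ) ∣ n) : jacobiSym (n ^ 2) p = 1 :=
  jacobiSym.sq_one' (Int.isCoprime_iff_gcd_eq_one.1
    ((prime_star p).coprime_iff_not_dvd.2 h).symm)

theorem Spl.sqrt (h2 : p ≠ 2) {κ : ℕ} {D : ℤ} (h : Spl p κ D) :
    ∃ r : ℚ_[p], r ^ 2 = D ∧ ‖r‖ = (p : ℝ) ^ (-(κ : ℤ)) := by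
  obtain ⟨E, rfl, hE⟩ := h
  have hnd := ufr_jac_ndvd p hE
  have h0 : (E : ZMod p) ≠ 0 := fun h' => hnd ((ZMod.intCast_zmod_eq_zero_iff_dvd E p).1 h')
  rw [← jacobiSym.legendreSym.to_jacobiSym, legendreSym.eq_one_iff p h0] at hE
  obtain ⟨y, hy⟩ := hE
  obtain ⟨a, rfl⟩ := ZMod.intCast_surjective y
  have h1 : (p : ℤ) ∣ a ^ 2 - E := by
    rw [← ZMod.intCast_zmod_eq_zero_iff_dvd]
    push_cast
    rw [hy]; ring
  have h3 : ¬ (p : ℤ) ∣ a := fun h' => hnd (by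
    have := (h'.pow two_ne_zero).sub h1
    rwa [sub_sub_cancel] at this)
  have h4 : ‖(Polynomial.X ^ 2 - Polynomial.C (E : ℤ_[p])).aeval (a : ℤ_[p])‖ <
      ‖(Polynomial.X ^ 2 - Polynomial.C (E : ℤ_[p])).derivative.aeval (a : ℤ_[p])‖ ^ 2 := by
    have e1 : (Polynomial.X ^ 2 - Polynomial.C (E : ℤ_[p])).aeval (a : ℤ_[p]) =
        ((a ^ 2 - E : ℤ) : ℤ_[p]) := by simp
    have e2 : (Polynomial.X ^ 2 - Polynomial.C (E : ℤ_[p])).derivative.aeval (a : ℤ_[p]) =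
        2 * (a : ℤ_[p]) := by
      simp only [map_sub, Polynomial.derivative_X_pow, Polynomial.derivative_C, sub_zero, map_mul,
        Polynomial.aeval_C, map_pow, Polynomial.aeval_X]
      simp
    have e3 : ‖(2 * (a : ℤ_[p]) : ℤ_[p])‖ = 1 := by
      rw [PadicInt.norm_def]
      push_cast
      rw [norm_mul, ufr_norm_one p h3, mul_one]
      exact ufr_two p h2
    rw [e1, e2, e3, one_pow]
    exact (PadicInt.norm_int_lt_one_iff_dvd _).2 h1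
  obtain ⟨z, hz, -⟩ := hensels_lemma h4
  have h5 : z ^ 2 = (E : ℤ_[p]) := by
    simpa [sub_eq_zero] using hz
  have h6 : (z : ℚ_[p]) ^ 2 = (E : ℚ_[p]) := by exact_mod_cast congrArg (fun t : ℤ_[p] => (t : ℚ_[p])) h5
  have h7 : ‖(z : ℚ_[p])‖ = 1 := by
    have := congrArg norm h6
    rw [norm_pow, ufr_norm_one p hnd] at this
    exact (pow_eq_one_iff_of_nonneg (norm_nonneg _) two_ne_zero).1 this
  refine ⟨(p : ℚ_[p]) ^ κ * z, ?_, ?_⟩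
  · rw [mul_pow, h6]; push_cast; ring
  · rw [norm_mul, h7, mul_one, norm_pow, Padic.norm_p, zpow_neg, zpow_natCast, inv_pow]

theorem Spl.val {κ : ℕ} {D : ℤ} (h : Spl p κ D) : padicValInt p D = 2 * κ := by
  obtain ⟨E, rfl, hE⟩ := h
  exact ufr_val p (ufr_jac_ndvd p hE) _

theorem Spl.of_sq {κ : ℕ} {D D' : ℤ} (h : Spl p κ D) (hD' : D' ≠ 0) (hs : IsSquare (D' * D)) :
    ∃ κ', Spl p κ' D' := by
  obtain ⟨E, rfl, hE⟩ := h
  have hnd := ufr_jac_ndvd p hE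
  have hp : (p : ℤ) ≠ 0 := by exact_mod_cast (Fact.out : p.Prime).ne_zero
  have hE0 : E ≠ 0 := by rintro rfl; exact hnd (dvd_zero _)
  obtain ⟨s, hs⟩ := hs
  have hs0 : s ≠ 0 := by
    rintro rfl
    exact mul_ne_zero hD' (mul_ne_zero (pow_ne_zero _ hp) hE0) (by rw [hs, mul_zero])
  obtain ⟨e, n, hn, rfl⟩ := split_star p hD'
  obtain ⟨f, m, hm, rfl⟩ := split_star p hs0
  have e1 : (p : ℤ) ^ (e + 2 * κ) * (n * E) = (p : ℤ) ^ (2 * f) * m ^ 2 := by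
    linear_combination hs
  have hm2 : ¬ (p : ℤ) ∣ m ^ 2 := fun h' => hm ((prime_star p).dvd_of_dvd_pow h')
  have e2 : e + 2 * κ = 2 * f := by
    have := congrArg (padicValInt p) e1
    rwa [ufr_val p ((prime_star p).not_dvd_mul hn hnd), ufr_val p hm2] at this
  rw [e2] at e1
  have e3 := mul_left_cancel₀ (pow_ne_zero _ hp) e1
  refine ⟨f - κ, n, by rw [show 2 * (f - κ) = e by omega], ?_⟩
  have e4 := ufr_jac_sq p hm
  rwa [← e3, jacobiSym.mul_left, hE, mul_one] at e4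

theorem spl_of_jac {d f : ℤ} (hd : jacobiSym d p = 1) (hf : f ≠ 0) : ∃ κ, Spl p κ (f ^ 2 * d) := by
  obtain ⟨e, n, hn, rfl⟩ := split_star p hf
  exact ⟨e, n ^ 2 * d, by ring, by rw [jacobiSym.mul_left, ufr_jac_sq p hn, hd, mul_one]⟩

theorem ufr_eig (h2 : p ≠ 2) {a b c : ℤ} (h : Int.gcd (Int.gcd a b) c = 1) {r : ℚ_[p]}
    (hr : r ^ 2 = ((b ^ 2 - 4 * a * c : ℤ) : ℚ_[p])) :
    ∃ x y : ℚ_[p], ‖x‖ ≤ 1 ∧ ‖y‖ ≤ 1 ∧ (‖x‖ = 1 ∨ ‖y‖ = 1) ∧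
      x * b - 2 * a * y = r * x ∧ 2 * c * x - b * y = r * y := by
  have hi : ∀ n : ℤ, ‖(n : ℚ_[p])‖ ≤ 1 := Padic.norm_int_le_one
  have ht := ufr_two p h2
  have hr1 : ‖r‖ ≤ 1 := by
    have := hi (b ^ 2 - 4 * a * c)
    rw [← hr, norm_pow] at this
    exact (pow_le_one_iff_of_nonneg (norm_nonneg _) two_ne_zero).1 this
  have hm : ‖(b : ℚ_[p]) + -r‖ ≤ 1 := frame_add_le p (hi b) (frame_neg_le p hr1)
  have hq : ‖r + (b : ℚ_[p])‖ ≤ 1 := frame_add_le p hr1 (hi b)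
  have ha : ‖2 * (a : ℚ_[p])‖ ≤ 1 := frame_mul_le p ht.le (hi a)
  have hc : ‖2 * (c : ℚ_[p])‖ ≤ 1 := frame_mul_le p ht.le (hi c)
  push_cast at hr
  by_cases h1 : ‖2 * (a : ℚ_[p])‖ = 1 ∨ ‖(b : ℚ_[p]) + -r‖ = 1
  · exact ⟨_, _, ha, hm, h1, by ring, by linear_combination hr⟩
  by_cases h3 : ‖r + (b : ℚ_[p])‖ = 1 ∨ ‖2 * (c : ℚ_[p])‖ = 1
  · exact ⟨_, _, hq, hc, h3, by linear_combination -hr, by ring⟩
  exfalso
  push Not at h1 h3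
  have d : ∀ n : ℤ, ‖2 * (n : ℚ_[p])‖ < 1 → (p : ℤ) ∣ n := fun n hn => by
    rw [norm_mul, ht, one_mul] at hn
    exact Padic.norm_intCast_lt_one_iff.1 hn
  have da := d a (lt_of_le_of_ne ha h1.1)
  have dc := d c (lt_of_le_of_ne hc h3.2)
  have db := d b (by
    rw [show 2 * (b : ℚ_[p]) = (b + -r) + (r + b) by ring]
    exact (Padic.nonarchimedean _ _).trans_lt
      (max_lt (lt_of_le_of_ne hm h1.2) (lt_of_le_of_ne hq h3.1)))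
  have h5 : (p : ℤ) ∣ (Int.gcd a b : ℤ) := Int.dvd_coe_gcd da db
  have h6 : (p : ℤ) ∣ (Int.gcd (Int.gcd a b) c : ℤ) := Int.dvd_coe_gcd h5 dc
  rw [h] at h6
  exact (prime_star p).not_dvd_one h6

theorem ufr_compl {x y : ℚ_[p]} (hx : ‖x‖ ≤ 1) (hy : ‖y‖ ≤ 1) (h : ‖x‖ = 1 ∨ ‖y‖ = 1) :
    ∃ z t : ℚ_[p], ‖z‖ ≤ 1 ∧ ‖t‖ ≤ 1 ∧ x * t - y * z = 1 := by
  rcases h with h | h
  · have h0 : x ≠ 0 := by rintro rfl; simp at h
    exact ⟨0, x⁻¹, by simp, by rw [norm_inv, h, inv_one], by field_simp; ring⟩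
  · have h0 : y ≠ 0 := by rintro rfl; simp at h
    exact ⟨-y⁻¹, 0, by rw [norm_neg, norm_inv, h, inv_one], by simp, by field_simp; ring⟩

theorem ufr_appr (c : ℕ) {s : ℚ_[p]} (hs : ‖s‖ ≤ (p : ℝ) ^ c) :
    ∃ a < p ^ c, ‖s - (a : ℚ_[p]) / (p : ℚ_[p]) ^ c‖ ≤ 1 := by
  have hp : (0 : ℝ) < p := by exact_mod_cast (Fact.out : p.Prime).pos
  have hp' : (p : ℚ_[p]) ≠ 0 := by exact_mod_cast (Fact.out : p.Prime).ne_zero
  have hn : ‖(p : ℚ_[p]) ^ c‖ = ((p : ℝ) ^ c)⁻¹ := by rw [norm_pow, Padic.norm_p, inv_pow]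
  have h1 : ‖(p : ℚ_[p]) ^ c * s‖ ≤ 1 := by
    rw [norm_mul, hn, inv_mul_le_iff₀ (by positivity), mul_one]; exact hs
  obtain ⟨z, hz⟩ : ∃ z : ℤ_[p], (z : ℚ_[p]) = (p : ℚ_[p]) ^ c * s := ⟨⟨_, h1⟩, rfl⟩
  refine ⟨z.appr c, z.appr_lt c, ?_⟩
  have h2 := (PadicInt.norm_le_pow_iff_mem_span_pow _ c).2 (z.appr_spec c)
  rw [PadicInt.norm_def] at h2
  push_cast at h2
  rw [hz, zpow_neg, zpow_natCast] at h2
  have e : s - (z.appr c : ℚ_[p]) / (p : ℚ_[p]) ^ c =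
      ((p : ℚ_[p]) ^ c * s - z.appr c) / (p : ℚ_[p]) ^ c := by field_simp
  rw [e, norm_div, hn, div_le_one (by positivity)]
  exact h2

theorem ufr_loc (h2 : p ≠ 2) (c₀ : ℕ) : ∃ T : Finset SL(2, ℚ_[p]),
    (∀ h ∈ T, Bd ((p : ℝ) ^ c₀) (h : Matrix (Fin 2) (Fin 2) ℚ_[p])) ∧
    ∀ (a b c : ℤ) (r : ℚ_[p]), Int.gcd (Int.gcd a b) c = 1 →
      r ^ 2 = ((b ^ 2 - 4 * a * c : ℤ) : ℚ_[p]) → (p : ℝ) ^ (-(c₀ : ℤ)) ≤ ‖r‖ →
      ∃ h ∈ T, ∃ k ∈ Kp p, ((h⁻¹ * k : SL(2, ℚ_[p])) : Matrix (Fin 2) (Fin 2) ℚ_[p]) *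
          (!![(b : ℚ), 2 * c; -(2 * a), -b] : Matrix (Fin 2) (Fin 2) ℚ).map (↑) =
        !![r, 0; 0, -r] * ((h⁻¹ * k : SL(2, ℚ_[p])) : Matrix (Fin 2) (Fin 2) ℚ_[p]) := by
  classical
  have hp : (1 : ℝ) ≤ p := by exact_mod_cast (Fact.out : p.Prime).one_lt.le
  have hpc : (1 : ℝ) ≤ (p : ℝ) ^ c₀ := one_le_pow₀ hp
  have hi : ∀ n : ℤ, ‖(n : ℚ_[p])‖ ≤ 1 := Padic.norm_int_le_one
  have ht := ufr_two p h2
  refine ⟨(Finset.range (p ^ c₀)).image fun a : ℕ => ul ((a : ℚ_[p]) / (p : ℚ_[p]) ^ c₀), ?_, ?_⟩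
  · intro h hh
    obtain ⟨a, -, rfl⟩ := Finset.mem_image.1 hh
    intro i j
    fin_cases i <;> fin_cases j
    · simpa using hpc
    · simp
    · have : ‖(a : ℚ_[p]) / (p : ℚ_[p]) ^ c₀‖ ≤ (p : ℝ) ^ c₀ := by
        rw [norm_div, norm_pow, Padic.norm_p, inv_pow, div_inv_eq_mul]
        exact mul_le_of_le_one_left (by positivity) (by simpa using hi a)
      exact this
    · simpa using hpc
  intro a b c r hg hr hr'
  obtain ⟨x, y, hx, hy, hxy, e1, e2⟩ := ufr_eig p h2 hg hr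
  obtain ⟨z, t, hz, ht', hd⟩ := ufr_compl p hx hy hxy
  have hr0 : 0 < ‖r‖ := lt_of_lt_of_le (by positivity) hr'
  have hr1 : r ≠ 0 := norm_pos_iff.1 hr0
  obtain ⟨w, hw⟩ : ∃ w : ℚ_[p], w = 2 * (b * (z * t) + -(a * (t * t)) + -(c * (z * z))) := ⟨_, rfl⟩
  have hw1 : ‖w‖ ≤ 1 := by
    rw [hw]
    exact frame_mul_le p ht.le (frame_add_le p (frame_add_le p
      (frame_mul_le p (hi b) (frame_mul_le p hz ht'))
      (frame_neg_le p (frame_mul_le p (hi a) (frame_mul_le p ht' ht'))))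
      (frame_neg_le p (frame_mul_le p (hi c) (frame_mul_le p hz hz))))
  obtain ⟨s, hs⟩ : ∃ s : ℚ_[p], s = w / (2 * r) := ⟨_, rfl⟩
  have hs1 : 2 * r * s = w := by rw [hs]; field_simp
  have hs2 : ‖s‖ ≤ (p : ℝ) ^ c₀ := by
    rw [hs, norm_div, norm_mul, ht, one_mul, div_le_iff₀ hr0]
    rw [zpow_neg, zpow_natCast, inv_le_iff_one_le_mul₀' (by positivity)] at hr'
    exact hw1.trans hr'
  obtain ⟨n, hn, hn'⟩ := ufr_appr p c₀ hs2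
  obtain ⟨k, hk⟩ : ∃ k : SL(2, ℚ_[p]), (k : Matrix (Fin 2) (Fin 2) ℚ_[p]) = !![x, y; z, t] :=
    ⟨⟨!![x, y; z, t], by rw [Matrix.det_fin_two_of]; exact hd⟩, rfl⟩
  have hkK : k ∈ Kp p := by
    intro i j
    rw [hk]
    fin_cases i <;> fin_cases j
    exacts [hx, hy, hz, ht']
  refine ⟨_, Finset.mem_image.2 ⟨n, Finset.mem_range.2 hn, rfl⟩,
    ul (-(s - (n : ℚ_[p]) / (p : ℚ_[p]) ^ c₀)) * k,
    (Kp p).mul_mem (ul_mem_Kp p (frame_neg_le p hn')) hkK, ?_⟩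
  rw [ul_inv, ← mul_assoc, ← ul_add,
    show -((n : ℚ_[p]) / (p : ℚ_[p]) ^ c₀) + -(s - (n : ℚ_[p]) / (p : ℚ_[p]) ^ c₀) = -s by ring,
    Matrix.SpecialLinearGroup.coe_mul, ul_val, hk]
  ext i j
  fin_cases i <;> fin_cases j <;>
    simp only [Matrix.mul_apply, Fin.sum_univ_two, Matrix.map_apply, Matrix.of_apply,
      Matrix.cons_val', Matrix.cons_val_zero, Matrix.cons_val_one, Matrix.cons_val_fin_one,
      Fin.zero_eta, Fin.mk_one, Fin.isValue] <;> push_cast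
  · linear_combination e1
  · linear_combination e2
  · linear_combination (-s - z * t) * e1 - x * hs1 - x * hw + z * z * e2 +
      (-(b - r) * z - 2 * b * z + 2 * a * t + (b - r) * z + (b - r) * z) * hd
  · linear_combination (-s + z * t) * e2 - y * hs1 - y * hw - t * t * e1 -
      (2 * c * z - b * t + r * t) * hd

theorem exists_cf (hpq : p ≠ q) (h2 : p ≠ 2) (h2' : q ≠ 2) (c : ℕ) :
    ∃ (T : Finset SL(2, ℚ_[p])) (T' : Finset SL(2, ℚ_[q])),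
      (∀ h ∈ T, Bd ((p : ℝ) ^ c) (h : Matrix (Fin 2) (Fin 2) ℚ_[p])) ∧
      (∀ h ∈ T', Bd ((q : ℝ) ^ c) (h : Matrix (Fin 2) (Fin 2) ℚ_[q])) ∧
      ∀ (τ : ℍ) (D : ℤ) (rp : ℚ_[p]) (rq : ℚ_[q]), HasDisc τ D → rp ^ 2 = D → rq ^ 2 = D →
        (p : ℝ) ^ (-(c : ℤ)) ≤ ‖rp‖ → (q : ℝ) ^ (-(c : ℤ)) ≤ ‖rq‖ →
        ∃ hp ∈ T, ∃ hq ∈ T', ∃ x, CF p q D rp rq hp hq x ∧ j3 p q (iP p q hp • x) = jInv τ := by
  obtain ⟨T, hT, HT⟩ := ufr_loc p h2 c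
  obtain ⟨T', hT', HT'⟩ := ufr_loc q h2' c
  refine ⟨T, T', hT, hT', fun τ D rp rq hτ h1 h1' h3 h3' => ?_⟩
  obtain ⟨a, b, c', ha, hg, hr, rfl⟩ := id hτ
  obtain ⟨g, hg1, hg2⟩ := frame_real ha hr
  obtain ⟨hp, hhp, k, hk, ek⟩ := HT a b c' rp hg h1 h3
  obtain ⟨hq, hhq, k', hk', ek'⟩ := HT' a b c' rq hg h1' h3'
  have e0 : iP p q hp • ((((g, hp⁻¹ * k), k') : G3 p q) : X3 p q) =
      ((((g, k), k') : G3 p q) : X3 p q) := by
    change ((iP p q hp * ((g, hp⁻¹ * k), k') : G3 p q) : X3 p q) = _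
    simp [iP]
  have e1 : j3 p q ((((g, k), k') : G3 p q) : X3 p q) = jInv τ := by
    rw [j3, pi3_mk p q (g := ((g, k), k')) hk', piX, toY_mk p (g := (g, k)) hk, jY_mk, hg1]
  refine ⟨hp, hhp, hq, hhq, ((((g, hp⁻¹ * k), k') : G3 p q) : X3 p q),
    ⟨⟨_, !![(b : ℚ), 2 * c'; -(2 * a), -b], rfl, ?_, ek, ek'⟩, ?_⟩, by rw [e0, e1]⟩
  · refine Eq.trans ?_ hg2
    congr 1
    ext i j
    fin_cases i <;> fin_cases j <;> simp
  · rw [e0]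
    obtain ⟨l1, l2⟩ := lat3_spec p q ((((g, k), k') : G3 p q) : X3 p q)
    obtain ⟨u, hu, e2⟩ := jL_inj (isLat_one τ) l1 (by rw [l2, e1, jL_one])
    rw [e2]
    exact (discL_one hτ).pr_mul hu

theorem ufr_conj {F : Type} [Field F] [CharZero F] {A : SL(2, F)} {Θ : Matrix (Fin 2) (Fin 2) ℚ}
    {N : Matrix (Fin 2) (Fin 2) F}
    (h : (A : Matrix (Fin 2) (Fin 2) F) * Θ.map (↑) = N * (A : Matrix (Fin 2) (Fin 2) F))
    (δ : SL(2, ℚ)) :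
    ((A * Matrix.SpecialLinearGroup.map (Rat.castHom F) δ : SL(2, F)) : Matrix (Fin 2) (Fin 2) F) *
        (((δ⁻¹ : SL(2, ℚ)) : Matrix (Fin 2) (Fin 2) ℚ) * Θ * (δ : Matrix (Fin 2) (Fin 2) ℚ)).map (↑) =
      N * ((A * Matrix.SpecialLinearGroup.map (Rat.castHom F) δ : SL(2, F)) :
        Matrix (Fin 2) (Fin 2) F) := by
  have e1 : (((δ⁻¹ : SL(2, ℚ)) : Matrix (Fin 2) (Fin 2) ℚ) * Θ *
        (δ : Matrix (Fin 2) (Fin 2) ℚ)).map ((↑) : ℚ → F) =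
      ((Matrix.SpecialLinearGroup.map (Rat.castHom F) δ⁻¹ : SL(2, F)) : Matrix (Fin 2) (Fin 2) F) *
        (Θ.map (↑) * ((Matrix.SpecialLinearGroup.map (Rat.castHom F) δ : SL(2, F)) :
          Matrix (Fin 2) (Fin 2) F)) := by
    rw [← Matrix.mul_assoc]
    exact (Matrix.map_mul (f := Rat.castHom F)).trans
      (congrArg (· * _) (Matrix.map_mul (f := Rat.castHom F)))
  rw [e1, ← Matrix.mul_assoc, ← Matrix.SpecialLinearGroup.coe_mul, map_inv, mul_inv_cancel_right,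
    ← Matrix.mul_assoc, h, Matrix.SpecialLinearGroup.coe_mul, Matrix.mul_assoc]

theorem ufr_dg {F : Type} [Field F] [CharZero F] {A : SL(2, F)} {Θ : Matrix (Fin 2) (Fin 2) ℚ}
    {r : F} (h : (A : Matrix (Fin 2) (Fin 2) F) * Θ.map (↑) =
      !![r, 0; 0, -r] * (A : Matrix (Fin 2) (Fin 2) F)) (a : F) (ha : a ≠ 0) :
    ((dg a ha * A : SL(2, F)) : Matrix (Fin 2) (Fin 2) F) * Θ.map (↑) =
      !![r, 0; 0, -r] * ((dg a ha * A : SL(2, F)) : Matrix (Fin 2) (Fin 2) F) := by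
  have e : (!![a, 0; 0, a⁻¹] : Matrix (Fin 2) (Fin 2) F) * !![r, 0; 0, -r] =
      !![r, 0; 0, -r] * !![a, 0; 0, a⁻¹] := by
    ext i j
    fin_cases i <;> fin_cases j <;> simp [Matrix.mul_apply, Fin.sum_univ_two, mul_comm]
  rw [Matrix.SpecialLinearGroup.coe_mul, dg_val, Matrix.mul_assoc, h, ← Matrix.mul_assoc, e,
    Matrix.mul_assoc]

theorem ufr_det {F : Type} [Field F] [CharZero F] {A : SL(2, F)} {Θ : Matrix (Fin 2) (Fin 2) ℚ}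
    {N : Matrix (Fin 2) (Fin 2) F}
    (h : (A : Matrix (Fin 2) (Fin 2) F) * Θ.map (↑) = N * (A : Matrix (Fin 2) (Fin 2) F)) :
    ((Θ.det : ℚ) : F) = N.det := by
  have := congrArg Matrix.det h
  rw [Matrix.det_mul, Matrix.det_mul, A.det_coe, one_mul, mul_one] at this
  rw [← this, Matrix.det_fin_two, Matrix.det_fin_two]
  simp

theorem ufr_ent {F : Type} [Field F] [CharZero F] {g N : Matrix (Fin 2) (Fin 2) F}
    {Θ : Matrix (Fin 2) (Fin 2) ℚ} (h : g * Θ.map (↑) = N * g) (i j : Fin 2) :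
    g i 0 * Θ 0 j + g i 1 * Θ 1 j = N i 0 * g 0 j + N i 1 * g 1 j := by
  have := congrFun (congrFun h i) j
  simpa only [Matrix.mul_apply, Fin.sum_univ_two, Matrix.map_apply] using this

theorem ufr_th {D : ℤ} {g : SL(2, ℝ)} {Θ : Matrix (Fin 2) (Fin 2) ℚ}
    (h : (g : Matrix (Fin 2) (Fin 2) ℝ) * Θ.map (↑) =
      !![0, Real.sqrt (-(D : ℝ)); -Real.sqrt (-(D : ℝ)), 0] * (g : Matrix (Fin 2) (Fin 2) ℝ))
    (a b : ℚ) : th D * frame_ph g a b =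
      frame_ph g (Θ 0 0 * a + Θ 0 1 * b) (Θ 1 0 * a + Θ 1 1 * b) := by
  have h1 := ufr_ent h 0 0
  have h2 := ufr_ent h 0 1
  have h3 := ufr_ent h 1 0
  have h4 := ufr_ent h 1 1
  simp only [Matrix.of_apply, Matrix.cons_val', Matrix.cons_val_zero, Matrix.cons_val_one,
    Matrix.cons_val_fin_one, zero_mul, zero_add, add_zero] at h1 h2 h3 h4
  have c1 := congrArg (fun x : ℝ => (x : ℂ)) h1
  have c2 := congrArg (fun x : ℝ => (x : ℂ)) h2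
  have c3 := congrArg (fun x : ℝ => (x : ℂ)) h3
  have c4 := congrArg (fun x : ℝ => (x : ℂ)) h4
  simp only [frame_ph, th]
  generalize Real.sqrt (-(D : ℝ)) = δ at c1 c2 c3 c4 ⊢
  push_cast at c1 c2 c3 c4 ⊢
  linear_combination (-(a : ℂ)) * c1 - (b : ℂ) * c2 + (a : ℂ) * Complex.I * c3 +
    (b : ℂ) * Complex.I * c4 - (δ : ℂ) * ((g 1 0 : ℂ) * a + g 1 1 * b) * Complex.I_mul_I

theorem ufr_ph_add (g : SL(2, ℝ)) (a b a' b' : ℚ) :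
    frame_ph g a b + frame_ph g a' b' = frame_ph g (a + a') (b + b') := by
  simp only [frame_ph]; push_cast; ring

theorem ufr_memK {g : GG p} (hg : g.2 ∈ Kp p) {z : ℂ} :
    z ∈ latG p g ↔ ∃ m n : ℤ, z = frame_ph g.1 m n := by
  rw [latG_K p hg, mem_sp]
  refine exists_congr fun m => exists_congr fun n => ?_
  rw [show frame_ph g.1 m n = m * ((g.1 0 0 : ℂ) - g.1 1 0 * Complex.I) +
    n * ((g.1 0 1 : ℂ) - g.1 1 1 * Complex.I) by simp only [frame_ph]; push_cast; ring]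

theorem ufr_int {g : GG p} (hg : g.2 ∈ Kp p) {y : ℂ} (hy : pr y * latG p g ≤ latG p g)
    {m n : ℤ} {a b : ℚ} (h : y * frame_ph g.1 m n = frame_ph g.1 a b) :
    ∃ m' n' : ℤ, a = m' ∧ b = n' := by
  obtain ⟨m', n', e⟩ := (ufr_memK p hg).1 (pr_mul_le.1 hy _ ((ufr_memK p hg).2 ⟨m, n, rfl⟩))
  exact ⟨m', n', frame_ph_inj _ (h.symm.trans e)⟩

theorem ufr_scale (h : SL(2, ℚ_[p])) : ∃ c : ℕ, ∀ (g : GG p) (z : ℂ), z ∈ latG p g →
    (p : ℂ) ^ c * z ∈ latG p (((1, h) : GG p) * g) := by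
  have h1 : ∀ x : ℚ_[p], ∀ᶠ c : ℕ in atTop, ‖(p : ℚ_[p]) ^ c * x‖ ≤ 1 := fun x => by
    have := ((tendsto_pow_atTop_nhds_zero_of_norm_lt_one (Padic.norm_p_lt_one (p := p))).mul_const
      x).norm
    rw [zero_mul, norm_zero] at this
    exact this.eventually (ge_mem_nhds one_pos)
  obtain ⟨c, hc⟩ := (eventually_all.2 fun i => eventually_all.2 fun j => h1 (h i j)).exists
  refine ⟨c, fun g z hz => ?_⟩
  obtain ⟨a, b, ha, hb, h0, h2, rfl⟩ := (frame_mem_latG p).1 hz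
  have hpc : InZp p ((p : ℚ) ^ c) := by simpa using inZp_int p ((p : ℤ) ^ c)
  have e2 : ∀ i j, (((1, h) : GG p) * g).2 i j = h i 0 * g.2 0 j + h i 1 * g.2 1 j := by
    intro i j
    simp [Matrix.mul_apply, Fin.sum_univ_two]
  have key : ∀ i, ‖(((1, h) : GG p) * g).2 i 0 * (((p : ℚ) ^ c * a : ℚ) : ℚ_[p]) +
      (((1, h) : GG p) * g).2 i 1 * (((p : ℚ) ^ c * b : ℚ) : ℚ_[p])‖ ≤ 1 := fun i => by
    refine le_trans (le_of_eq ?_)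
      (frame_add_le p (frame_mul_le p (hc i 0) h0) (frame_mul_le p (hc i 1) h2))
    congr 1
    rw [e2, e2]; push_cast; ring
  refine (frame_mem_latG p).2 ⟨(p : ℚ) ^ c * a, (p : ℚ) ^ c * b, hpc.mul ha, hpc.mul hb, key 0,
    key 1, ?_⟩
  rw [← frame_ph_mul]
  simp

theorem ufr_disc_eq {E D' : ℤ} (hE : E < 0) (hD' : D' < 0) (hp' : ¬ (p : ℤ) ∣ E)
    (h1 : (E + th E) / 2 ∈ OD D') {N : ℕ} (h2 : (p : ℂ) ^ N * ((D' + th D') / 2) ∈ OD E) :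
    D' = E := by
  obtain ⟨m, n, e1⟩ := mem_sp.1 h1
  obtain ⟨m', n', e2⟩ := mem_sp.1 h2
  have hp : ((p : ℂ) ^ N) = (((p : ℝ) ^ N : ℝ) : ℂ) := by push_cast; rfl
  have i1 := congrArg Complex.im e1
  have i2 := congrArg Complex.im e2
  rw [hp] at i2
  simp only [Complex.div_ofNat_im, Complex.add_im, Complex.intCast_im, zero_add, ord2_th_im,
    mul_one, Complex.mul_im, Complex.intCast_re, zero_mul, add_zero, Complex.ofReal_re,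
    Complex.ofReal_im] at i1 i2
  have s1 : Real.sqrt (-(E : ℝ)) ^ 2 = -(E : ℝ) :=
    Real.sq_sqrt (by have : (E : ℝ) < 0 := by exact_mod_cast hE
                     linarith)
  have hD0 : (0 : ℝ) < -(D' : ℝ) := by
    have : (D' : ℝ) < 0 := by exact_mod_cast hD'
    linarith
  have s2 : Real.sqrt (-(D' : ℝ)) ^ 2 = -(D' : ℝ) := Real.sq_sqrt hD0.le
  have s3 : 0 < Real.sqrt (-(D' : ℝ)) := Real.sqrt_pos.2 hD0
  generalize Real.sqrt (-(E : ℝ)) = u at i1 i2 s1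
  generalize Real.sqrt (-(D' : ℝ)) = v at i1 i2 s2 s3
  have f1 : E = n ^ 2 * D' := by
    have : (E : ℝ) = n ^ 2 * D' := by
      linear_combination s1 - (n : ℝ) ^ 2 * s2 - 2 * (u + n * v) * i1
    exact_mod_cast this
  have f2 : (p : ℤ) ^ N = n * n' := by
    have : (p : ℝ) ^ N = n * n' :=
      mul_right_cancel₀ s3.ne' (by linear_combination 2 * i2 + 2 * (n' : ℝ) * i1)
    exact_mod_cast this
  have f3 : ¬ (p : ℤ) ∣ n := fun h' => hp' (by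
    rw [f1]; exact (h'.pow two_ne_zero).mul_right _)
  have f4 : IsUnit n :=
    (((prime_star p).coprime_iff_not_dvd.2 f3).symm.pow_right (n := N)).isUnit_of_dvd ⟨n', f2⟩
  rcases Int.isUnit_iff.1 f4 with h | h <;> rw [f1, h] <;> ring

variable {p q} {D : ℤ} {rp : ℚ_[p]} {rq : ℚ_[q]} {hp : SL(2, ℚ_[p])} {hq : SL(2, ℚ_[q])}
  {x : X3 p q}

theorem Fr3.rep (h : Fr3 p q D rp rq hq x) {g : G3 p q} (hg : (g : X3 p q) = x) :
    ∃ Θ, FrG p q D rp rq hq g Θ := by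
  obtain ⟨g₀, Θ, e, h1, h2, h3⟩ := h
  obtain ⟨δ, -, hδ⟩ : g₀⁻¹ * g ∈ Gam3 p q := QuotientGroup.eq.1 (e.trans hg.symm)
  obtain rfl : g = g₀ * emb3 p q δ := by rw [hδ, mul_inv_cancel_left]
  refine ⟨_, ufr_conj h1 δ, ufr_conj h2 δ, ?_⟩
  have := ufr_conj h3 δ
  rw [mul_assoc] at this
  exact this

theorem Fr3.smul_a (h : Fr3 p q D rp rq hq x) (t : ℕ) : Fr3 p q D rp rq hq (a3 p q t • x) := by
  obtain ⟨g, Θ, rfl, h1, h2, h3⟩ := h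
  refine ⟨a3 p q t * g, Θ, rfl, ?_,
    ufr_dg h2 _ (pow_ne_zero _ (Nat.cast_ne_zero.2 (Fact.out : p.Prime).ne_zero)), ?_⟩
  · rw [show (a3 p q t * g).1.1 = g.1.1 from one_mul _]; exact h1
  · rw [show (a3 p q t * g).2 = g.2 from one_mul _]; exact h3

theorem Fr3.smul_b (h : Fr3 p q D rp rq hq x) (t : ℕ) : Fr3 p q D rp rq hq (b3 p q hq t • x) := by
  obtain ⟨g, Θ, rfl, h1, h2, h3⟩ := h
  refine ⟨b3 p q hq t * g, Θ, rfl, ?_, ?_, ?_⟩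
  · rw [show (b3 p q hq t * g).1 = g.1 from one_mul _]; exact h1
  · rw [show (b3 p q hq t * g).1 = g.1 from one_mul _]; exact h2
  · have e : hq⁻¹ * (b3 p q hq t * g).2 = (aP q t).2 * (hq⁻¹ * g.2) := by
      change hq⁻¹ * (hq * (aP q t).2 * hq⁻¹ * g.2) = _
      group
    rw [e]
    exact ufr_dg h3 _ (pow_ne_zero _ (Nat.cast_ne_zero.2 (Fact.out : q.Prime).ne_zero))

theorem Fr3.sq (h : Fr3 p q D rp rq hq x) (hD : D ≤ 0) : rp ^ 2 = D ∧ rq ^ 2 = D := by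
  obtain ⟨g, Θ, -, h1, h2, h3⟩ := h
  have d1 := ufr_det h1
  have d2 := ufr_det h2
  have d3 := ufr_det h3
  rw [Matrix.det_fin_two_of] at d1 d2 d3
  have hD' : (0 : ℝ) ≤ -(D : ℝ) := by
    have : (D : ℝ) ≤ 0 := by exact_mod_cast hD
    linarith
  have e : Θ.det = -(D : ℚ) := by
    have : ((Θ.det : ℚ) : ℝ) = -(D : ℝ) := by
      linear_combination d1 + Real.mul_self_sqrt hD'
    exact_mod_cast this
  rw [e] at d2 d3
  push_cast at d2 d3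
  exact ⟨by linear_combination d2, by linear_combination d3⟩

theorem FrG.th {g : G3 p q} {Θ : Matrix (Fin 2) (Fin 2) ℚ} (h : FrG p q D rp rq hq g Θ)
    (a b : ℚ) : th D * frame_ph g.1.1 a b =
      frame_ph g.1.1 (Θ 0 0 * a + Θ 0 1 * b) (Θ 1 0 * a + Θ 1 1 * b) := by
  exact ufr_th h.1 a b

/-- An integral frame of a framed point. -/
theorem CF.frame (hpq : p ≠ q) (h : CF p q D rp rq hp hq x) :
    ∃ (g : GG p) (Θ : Matrix (Fin 2) (Fin 2) ℤ), g.2 ∈ Kp p ∧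
      (g : XX p) = ((1, hp) : GG p) • pi3 p q x ∧ DiscL (latG p g) D ∧
      (g.1 : Matrix (Fin 2) (Fin 2) ℝ) * Θ.map (↑) =
        !![0, Real.sqrt (-(D : ℝ)); -Real.sqrt (-(D : ℝ)), 0] * (g.1 : Matrix (Fin 2) (Fin 2) ℝ) ∧
      ((hp⁻¹ * g.2 : SL(2, ℚ_[p])) : Matrix (Fin 2) (Fin 2) ℚ_[p]) * Θ.map (↑) =
        !![rp, 0; 0, -rp] * ((hp⁻¹ * g.2 : SL(2, ℚ_[p])) : Matrix (Fin 2) (Fin 2) ℚ_[p]) := by
  obtain ⟨hF, hL⟩ := h
  obtain ⟨g, k1, k2, e⟩ := exists_rep3 p q hpq (iP p q hp • x)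
  have e1 : (g.1 : XX p) = pi3 p q (iP p q hp • x) := by rw [← e, pi3_mk p q k2]
  rw [lat3_eq p q e1] at hL
  have e2 : (((iP p q hp)⁻¹ * g : G3 p q) : X3 p q) = x := by
    change (iP p q hp)⁻¹ • (g : X3 p q) = x
    rw [e, inv_smul_smul]
  obtain ⟨Θ, h1, h2, -⟩ := hF.rep e2
  rw [show ((iP p q hp)⁻¹ * g).1.1 = g.1.1 by simp [iP]] at h1
  rw [show ((iP p q hp)⁻¹ * g).1.2 = hp⁻¹ * g.1.2 by simp [iP]] at h2
  have hy := (hL.end_iff _).2 (th_mem_OD D)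
  obtain ⟨m0, n0, a0, b0⟩ := ufr_int p k1 hy (ufr_th h1 ((1 : ℤ) : ℚ) ((0 : ℤ) : ℚ))
  obtain ⟨m1, n1, a1, b1⟩ := ufr_int p k1 hy (ufr_th h1 ((0 : ℤ) : ℚ) ((1 : ℤ) : ℚ))
  simp only [Int.cast_one, Int.cast_zero, mul_one, mul_zero, add_zero, zero_add] at a0 b0 a1 b1
  have e3 : ∀ (F : Type) [Field F] [CharZero F],
      (!![m0, m1; n0, n1] : Matrix (Fin 2) (Fin 2) ℤ).map ((↑) : ℤ → F) = Θ.map ((↑) : ℚ → F) := by
    intro F _ _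
    ext i j
    fin_cases i <;> fin_cases j <;> simp [a0, b0, a1, b1]
  refine ⟨g.1, !![m0, m1; n0, n1], k1, ?_, hL, ?_, ?_⟩
  · rw [e1, pi3_smul p q (g := iP p q hp) (Kp q).one_mem]
    rfl
  · rw [e3]; exact h1
  · rw [e3]; exact h2

theorem CF.disc0 (hpq : p ≠ q) (h2 : p ≠ 2) (h : CF p q D rp rq hp hq x) {κ : ℕ} {E : ℤ}
    (hE : D = (p : ℤ) ^ (2 * κ) * E) (hp' : ¬ (p : ℤ) ∣ E) : DiscL (lat3 p q x) E := by
  obtain ⟨g, Θ₀, hK, e, hL, h1, h3⟩ := h.frame hpq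
  have hD := hL.isD
  have hp0 : (p : ℤ) ≠ 0 := by exact_mod_cast (Fact.out : p.Prime).ne_zero
  have hpQ : (p : ℚ) ≠ 0 := by exact_mod_cast hp0
  have hpP : (p : ℚ_[p]) ≠ 0 := by exact_mod_cast hp0
  have hpC : (p : ℂ) ≠ 0 := by exact_mod_cast hp0
  have hE0 : E < 0 := by
    have h4 := hD.1
    rw [hE] at h4
    exact neg_of_mul_neg_right h4 (by positivity)
  have hr := (h.1.sq hD.1.le).1
  obtain ⟨Θ, hΘ⟩ : ∃ Θ : Matrix (Fin 2) (Fin 2) ℚ, ∀ (F : Type) [Field F] [CharZero F],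
      Θ₀.map ((↑) : ℤ → F) = Θ.map ((↑) : ℚ → F) :=
    ⟨Θ₀.map (↑), fun F _ _ => by ext i j; simp⟩
  rw [hΘ] at h1 h3
  obtain ⟨g₀, hg₀⟩ : ∃ g₀ : GG p, g₀ = ((1, hp⁻¹) : GG p) * g := ⟨_, rfl⟩
  have g1 : g₀.1 = g.1 := by rw [hg₀]; exact one_mul _
  have g2 : hp⁻¹ * g.2 = g₀.2 := by rw [hg₀]; rfl
  have g3 : g = ((1, hp) : GG p) * g₀ := by rw [hg₀]; ext1 <;> simp
  have g4 : (g₀ : XX p) = pi3 p q x := by
    rw [hg₀]
    change ((1, hp⁻¹) : GG p) • (g : XX p) = _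
    rw [e, ← mul_smul, show ((1, hp⁻¹) : GG p) * (1, hp) = 1 by ext1 <;> simp, one_smul]
  rw [g2] at h3
  rw [lat3_eq p q g4]
  have hth : th D = (p : ℂ) ^ κ * th E := by
    have := th_mul_sq (p ^ κ) E
    push_cast at this
    rw [← this, hE, ← pow_mul, mul_comm κ 2]
  have hom : ∀ a b : ℚ, (D + th D) / 2 * frame_ph g.1 a b = frame_ph g.1
      (2⁻¹ * (D * a + (Θ 0 0 * a + Θ 0 1 * b))) (2⁻¹ * (D * b + (Θ 1 0 * a + Θ 1 1 * b))) := by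
    intro a b
    rw [← frame_ph_mul, ← ufr_ph_add, ← frame_ph_mul, ← ufr_th h1]
    push_cast; ring
  have hy := (hL.end_iff _).2 (ord_right 1 ((D + th D) / 2))
  obtain ⟨m0, n0, a0, b0⟩ := ufr_int p hK hy (hom ((1 : ℤ) : ℚ) ((0 : ℤ) : ℚ))
  obtain ⟨m1, n1, a1, b1⟩ := ufr_int p hK hy (hom ((0 : ℤ) : ℚ) ((1 : ℤ) : ℚ))
  simp only [Int.cast_one, Int.cast_zero, mul_one, mul_zero, add_zero, zero_add] at a0 b0 a1 b1
  obtain ⟨u, hu⟩ := Int.even_mul_pred_self ((p : ℤ) ^ κ)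
  have hu' : (p : ℚ) ^ κ * ((p : ℚ) ^ κ - 1) = u + u := by exact_mod_cast hu
  have hDQ : (D : ℚ) = (p : ℚ) ^ κ * (p : ℚ) ^ κ * E := by rw [hE]; push_cast; ring
  have hrn : ‖rp / (p : ℚ_[p]) ^ κ‖ ≤ 1 := by
    have : (rp / (p : ℚ_[p]) ^ κ) ^ 2 = E := by
      rw [div_pow, hr, hE]; push_cast; field_simp; ring
    have h5 := Padic.norm_int_le_one (p := p) E
    rw [← this, norm_pow] at h5
    exact (pow_le_one_iff_of_nonneg (norm_nonneg _) two_ne_zero).1 h5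
  have h2i : ‖(2 : ℚ_[p])⁻¹‖ ≤ 1 := by rw [norm_inv, ufr_two p h2, inv_one]
  have hω : pr ((E + th E) / 2) * latG p g₀ ≤ latG p g₀ := by
    refine pr_mul_le.2 fun z hz => ?_
    obtain ⟨a, b, ha, hb, k0, k1, rfl⟩ := (frame_mem_latG p).1 hz
    have t0 : Θ 0 0 = 2 * m0 - D := by linear_combination 2 * a0
    have t1 : Θ 1 0 = 2 * n0 := by linear_combination 2 * b0
    have t2 : Θ 0 1 = 2 * m1 := by linear_combination 2 * a1
    have t3 : Θ 1 1 = 2 * n1 - D := by linear_combination 2 * b1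
    have q0 := ufr_ent h3 0 0
    have q1 := ufr_ent h3 0 1
    have q2 := ufr_ent h3 1 0
    have q3 := ufr_ent h3 1 1
    simp only [Matrix.of_apply, Matrix.cons_val', Matrix.cons_val_zero, Matrix.cons_val_one,
      Matrix.cons_val_fin_one, zero_mul, zero_add, add_zero] at q0 q1 q2 q3
    refine (frame_mem_latG p).2
      ⟨2⁻¹ * (E * a + ((p : ℚ) ^ κ)⁻¹ * (Θ 0 0 * a + Θ 0 1 * b)),
        2⁻¹ * (E * b + ((p : ℚ) ^ κ)⁻¹ * (Θ 1 0 * a + Θ 1 1 * b)), ?_, ?_, ?_, ?_, ?_⟩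
    · have : 2⁻¹ * (E * a + ((p : ℚ) ^ κ)⁻¹ * (Θ 0 0 * a + Θ 0 1 * b)) =
          ((p : ℚ) ^ κ)⁻¹ * (((m0 - u * E : ℤ) : ℚ) * a + (m1 : ℚ) * b) := by
        rw [t0, t2, hDQ]; push_cast; field_simp
        linear_combination (-(E : ℚ) * a) * hu'
      rw [this]
      exact frame_inZp_div p (((inZp_int p _).mul ha).add ((inZp_int p _).mul hb)) κ
    · have : 2⁻¹ * (E * b + ((p : ℚ) ^ κ)⁻¹ * (Θ 1 0 * a + Θ 1 1 * b)) =
          ((p : ℚ) ^ κ)⁻¹ * ((n0 : ℚ) * a + ((n1 - u * E : ℤ) : ℚ) * b) := by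
        rw [t1, t3, hDQ]; push_cast; field_simp
        linear_combination (-(E : ℚ) * b) * hu'
      rw [this]
      exact frame_inZp_div p (((inZp_int p _).mul ha).add ((inZp_int p _).mul hb)) κ
    · refine le_trans (le_of_eq ?_) (frame_mul_le p (frame_mul_le p h2i
        (frame_add_le p (Padic.norm_int_le_one E) hrn)) k0)
      congr 1
      push_cast
      linear_combination (2⁻¹ * ((p : ℚ_[p]) ^ κ)⁻¹ * a) * q0 + (2⁻¹ * ((p : ℚ_[p]) ^ κ)⁻¹ * b) * q1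
    · refine le_trans (le_of_eq ?_) (frame_mul_le p (frame_mul_le p h2i
        (frame_add_le p (Padic.norm_int_le_one E) (frame_neg_le p hrn))) k1)
      congr 1
      push_cast
      linear_combination (2⁻¹ * ((p : ℚ_[p]) ^ κ)⁻¹ * a) * q2 + (2⁻¹ * ((p : ℚ_[p]) ^ κ)⁻¹ * b) * q3
    · rw [g1, ← frame_ph_mul, ← ufr_ph_add, ← frame_ph_mul, ← frame_ph_mul, ← ufr_th h1, hth]
      push_cast; field_simp
  have him : ((E + th E) / 2 : ℂ).im ≠ 0 := by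
    have := ord2_th_im_ne hE0
    simpa using this
  obtain ⟨D', hD'⟩ := exists_discL (latG_spec p g₀).1 him hω
  have hEm : ((E + th E) / 2 : ℂ) ∈ OD D' := (hD'.end_iff _).1 hω
  obtain ⟨c1, hc1⟩ := ufr_scale p hp
  obtain ⟨c2, hc2⟩ := ufr_scale p hp⁻¹
  have hy' := pr_mul_le.1 ((hD'.end_iff _).2 (ord_right 1 ((D' + th D') / 2)))
  have hN : (p : ℂ) ^ (c1 + c2) * ((D' + th D') / 2) ∈ OD D := by
    refine (hL.end_iff _).1 (pr_mul_le.2 fun z hz => ?_)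
    have s1 := hc2 g z hz
    rw [← hg₀] at s1
    have s2 := hc1 g₀ _ (hy' _ s1)
    rw [← g3] at s2
    rwa [show (p : ℂ) ^ (c1 + c2) * ((D' + th D') / 2) * z =
      (p : ℂ) ^ c1 * ((D' + th D') / 2 * ((p : ℂ) ^ c2 * z)) by ring]
  have hEI : IsD E := by
    refine ⟨hE0, ?_⟩
    have ho : Odd ((p : ℤ) ^ κ) := by
      have : Odd p := (Fact.out : p.Prime).odd_of_ne_two h2
      exact_mod_cast this.pow
    obtain ⟨v, hv⟩ := ho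
    have h6 : D = E + 4 * ((v ^ 2 + v) * E) := by
      rw [hE, mul_comm 2 κ, pow_mul, hv]; ring
    have h7 := hD.2
    rw [h6, Int.add_mul_emod_self_left] at h7
    exact h7
  have hle : OD D ≤ OD E := by
    have := OD_sq_le hEI (p ^ κ)
    push_cast at this
    rwa [← pow_mul, mul_comm κ 2, ← hE] at this
  rw [← ufr_disc_eq p hE0 hD'.isD.1 hp' hEm (hle hN)]
  exact hD'

end Pool.Agent.EQ
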