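import Pool.Agent.P.MP_ad7a55_nt.Frame

/-! The space with two primes. -/

set_option autoImplicit false

noncomputable section

open MeasureTheory Topology Filter UpperHalfPlane
open scoped MatrixGroups ENNReal BoundedContinuousFunction

namespace Pool.Agent.EQ

variable (p q : ℕ) [Fact p.Prime] [Fact q.Prime]

/-- The group `SL₂(ℝ) × SL₂(ℚ_p) × SL₂(ℚ_q)`. -/
abbrev G3 : Type := GG p × SL(2, ℚ_[q])

def emb3 : SL(2, ℚ) →* G3 p q :=
  (emb p).prod (Matrix.SpecialLinearGroup.map (Rat.castHom ℚ_[q]))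

/-- The lattice `SL₂(ℤ[1/pq])`. -/
def Gam3 : Subgroup (G3 p q) := (GamQ (p * q)).map (emb3 p q)

theorem ug_cont {F : Type} [NormedField F] (i j : Fin 2) : Continuous fun g : SL(2, F) => g i j :=
  continuous_subtype_val.matrix_elem i j

omit [Fact p.Prime] in
theorem ug_drop {x : ℚ} (hx : InZp (p * q) x) (h : ‖(x : ℚ_[q])‖ ≤ 1) : InZp p x := by
  obtain ⟨a, m, hm⟩ := hx
  have h1 : InZp q ((p : ℚ) ^ a * x) := ⟨a, m, by rw [← hm]; push_cast; ring⟩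
  have h2 : ‖(((p : ℚ) ^ a * x : ℚ) : ℚ_[q])‖ ≤ 1 := by
    push_cast
    refine frame_mul_le q ?_ h
    simpa using Padic.norm_int_le_one (p := q) ((p : ℤ) ^ a)
  obtain ⟨n, hn⟩ := frame_int q h1 h2
  exact ⟨a, n, hn⟩

omit [Fact p.Prime] [Fact q.Prime] in
theorem ug_left {x : ℚ} (hx : InZp p x) : InZp (p * q) x := by
  obtain ⟨a, m, hm⟩ := hx
  exact ⟨a, q ^ a * m, by push_cast; rw [← hm]; ring⟩

omit [Fact p.Prime] [Fact q.Prime] in
theorem ug_right {x : ℚ} (hx : InZp q x) : InZp (p * q) x := by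
  obtain ⟨a, m, hm⟩ := hx
  exact ⟨a, p ^ a * m, by push_cast; rw [← hm]; ring⟩

theorem ug_norm (hpq : p ≠ q) {x : ℚ} (hx : InZp p x) : ‖(x : ℚ_[q])‖ ≤ 1 := by
  obtain ⟨a, m, hm⟩ := hx
  have h1 : ‖(p : ℚ_[q])‖ = 1 := Padic.norm_natCast_eq_one_iff.2
    ((Nat.coprime_primes Fact.out Fact.out).2 hpq.symm)
  have h2 : (p : ℚ_[q]) ^ a * (x : ℚ_[q]) = ((m : ℤ) : ℚ_[q]) := by
    have := congrArg (fun z : ℚ => (z : ℚ_[q])) hm
    simpa using this
  have h3 := congrArg norm h2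
  rw [norm_mul, norm_pow, h1, one_pow, one_mul] at h3
  rw [h3]
  exact Padic.norm_int_le_one m

theorem Gam3_finite {C : Set (G3 p q)} (hC : IsCompact C) : (C ∩ Gam3 p q).Finite := by
  have hb : ∃ R : ℝ, ∀ g ∈ C, ∀ i j, |g.1.1 i j| ≤ R ∧ ‖g.1.2 i j‖ ≤ R ∧ ‖g.2 i j‖ ≤ R := by
    have hc : Continuous fun g : G3 p q =>
        (((fun i j => g.1.1 i j : Fin 2 → Fin 2 → ℝ),
          (fun i j => g.1.2 i j : Fin 2 → Fin 2 → ℚ_[p])),
          (fun i j => g.2 i j : Fin 2 → Fin 2 → ℚ_[q])) :=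
      ((continuous_pi fun i => continuous_pi fun j =>
        (ug_cont i j).comp continuous_fst.fst).prodMk
      (continuous_pi fun i => continuous_pi fun j =>
        (ug_cont i j).comp continuous_fst.snd)).prodMk
      (continuous_pi fun i => continuous_pi fun j => (ug_cont i j).comp continuous_snd)
    obtain ⟨R, hR⟩ := (hC.image hc).isBounded.exists_norm_le
    refine ⟨R, fun g hg i j => ?_⟩
    have := hR _ ⟨g, hg, rfl⟩
    rw [Prod.norm_def, max_le_iff, Prod.norm_def, max_le_iff] at this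
    exact ⟨(norm_entry_le (fun i j => g.1.1 i j) i j).trans this.1.1,
      (norm_entry_le (fun i j => g.1.2 i j) i j).trans this.1.2,
      (norm_entry_le (fun i j => g.2 i j) i j).trans this.2⟩
  obtain ⟨R, hR⟩ := hb
  have hq : (1 : ℝ) < q := by exact_mod_cast (Fact.out : q.Prime).one_lt
  obtain ⟨c, hc⟩ := pow_unbounded_of_one_lt R hq
  have hf := finite_bounded p (q ^ c) (pow_pos (Fact.out : q.Prime).pos c) R
  have hfin : {γ : SL(2, ℚ) | ∀ i j, γ i j ∈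
      {x : ℚ | InZp p ((q ^ c : ℕ) * x) ∧ |(x : ℝ)| ≤ R ∧ ‖(x : ℚ_[p])‖ ≤ R}}.Finite := by
    have := Set.Finite.pi' fun _ : Fin 2 => Set.Finite.pi' fun _ : Fin 2 => hf
    refine Set.Finite.of_finite_image (f := fun γ : SL(2, ℚ) => (fun i j => γ i j)) (this.subset ?_)
      fun a _ b _ h => Subtype.ext h
    rintro _ ⟨γ, hγ, rfl⟩ i j
    exact hγ i j
  refine (hfin.image (emb3 p q)).subset ?_
  rintro _ ⟨hg, γ, hγ, rfl⟩
  refine ⟨γ, fun i j => ⟨ug_drop p q ?_ ?_, (hR _ hg i j).1, (hR _ hg i j).2.1⟩, rfl⟩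
  · refine InZp.mul ?_ (hγ i j)
    simpa using inZp_int (p * q) ((q : ℤ) ^ c)
  · have h1 : ‖((γ i j : ℚ) : ℚ_[q])‖ ≤ R := (hR _ hg i j).2.2
    push_cast
    rw [norm_mul, norm_pow, Padic.norm_p, inv_pow, inv_mul_le_iff₀ (by positivity), mul_one]
    exact h1.trans hc.le

instance Gam3_closed : IsClosed (Gam3 p q : Set (G3 p q)) :=
  isClosed_of_finite fun _ => Gam3_finite p q

abbrev X3 : Type := G3 p q ⧸ Gam3 p q

instance instPolishX3 : PolishSpace (X3 p q) := polish_of_lc _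

instance instBSX3 : BorelSpace (X3 p q) := inferInstance

instance instCS3 : ContinuousSMul (G3 p q) (X3 p q) := inferInstance

instance instMS3 : MeasurableConstSMul (G3 p q) (X3 p q) := inferInstance

instance instBSG3 : BorelSpace (G3 p q) := inferInstance

instance instTG3 : IsTopologicalGroup (G3 p q) := inferInstance

instance instBSPi3 {κ : Type} [Fintype κ] : BorelSpace (κ → X3 p q) := inferInstance

instance instPolishPi3 {κ : Type} [Fintype κ] : PolishSpace (κ → X3 p q) := inferInstance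

instance instCSPi3 {κ : Type} : ContinuousSMul (κ → G3 p q) (κ → X3 p q) := inferInstance

set_option synthInstance.maxSize 1000 in
instance instMSPi3 {κ : Type} [Fintype κ] : MeasurableConstSMul (κ → G3 p q) (κ → X3 p q) :=
  inferInstance

def iP (g : SL(2, ℚ_[p])) : G3 p q := ((1, g), 1)

def iQ (g : SL(2, ℚ_[q])) : G3 p q := (1, g)

def u3 (s : ℚ_[p]) : G3 p q := (uP p s, 1)

def a3 (t : ℕ) : G3 p q := (aP p t, 1)

def b3 (h : SL(2, ℚ_[q])) (t : ℕ) : G3 p q := (1, h * (aP q t).2 * h⁻¹)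

theorem ug_aP_add (s t : ℕ) : aP p (s + t) = aP p s * aP p t := by
  refine Prod.ext (by simp [aP]) ?_
  ext i j
  fin_cases i <;> fin_cases j <;>
    simp [aP, Matrix.mul_apply, Fin.sum_univ_two, pow_add, mul_comm]

theorem ug_aP_zero : aP p 0 = 1 := by
  refine Prod.ext rfl ?_
  ext i j
  fin_cases i <;> fin_cases j <;> simp [aP]

theorem a3_add (s t : ℕ) : a3 p q (s + t) = a3 p q s * a3 p q t := by
  simp [a3, ug_aP_add]

theorem a3_mul (s t : ℕ) : a3 p q (s * t) = a3 p q s ^ t := by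
  induction t with
  | zero => simp [a3, ug_aP_zero]
  | succ t ih => rw [Nat.mul_succ, a3_add, ih, pow_succ]

theorem b3_add (h : SL(2, ℚ_[q])) (s t : ℕ) : b3 p q h (s + t) = b3 p q h s * b3 p q h t := by
  refine Prod.ext (by simp [b3]) ?_
  simp [b3, ug_aP_add, mul_assoc]

theorem b3_mul (h : SL(2, ℚ_[q])) (s t : ℕ) : b3 p q h (s * t) = b3 p q h s ^ t := by
  induction t with
  | zero => simp [b3, ug_aP_zero]
  | succ t ih => rw [Nat.mul_succ, b3_add, ih, pow_succ]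

theorem a3_b3 (h : SL(2, ℚ_[q])) (s t : ℕ) : a3 p q s * b3 p q h t = b3 p q h t * a3 p q s := by
  simp [a3, b3]

theorem u3_add (s t : ℚ_[p]) : u3 p q (s + t) = u3 p q s * u3 p q t := by
  simp [u3, uP_add]

theorem continuous_u3 : Continuous (u3 p q) := (continuous_uP p).prodMk continuous_const

theorem a3_u3 (t : ℕ) (s : ℚ_[p]) :
    a3 p q t * u3 p q s = u3 p q ((p : ℚ_[p]) ^ (2 * t) * s) * a3 p q t := by
  have hp : (p : ℚ_[p]) ≠ 0 := Nat.cast_ne_zero.2 (Fact.out : p.Prime).ne_zero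
  refine Prod.ext (Prod.ext (by simp [a3, u3, aP, uP]) ?_) (by simp [a3, u3])
  ext i j
  fin_cases i <;> fin_cases j <;>
    simp [a3, u3, aP, uP, Matrix.mul_apply, Fin.sum_univ_two]
  field_simp
  ring

theorem b3_u3 (h : SL(2, ℚ_[q])) (t : ℕ) (s : ℚ_[p]) :
    b3 p q h t * u3 p q s = u3 p q s * b3 p q h t := by
  simp [u3, b3]

theorem exists_repq (x : X3 p q) : ∃ g : G3 p q, g.2 ∈ Kp q ∧ (g : X3 p q) = x := by
  obtain ⟨h, rfl⟩ := QuotientGroup.mk_surjective x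
  have ho : IsOpen ((fun k => h.2 * k) ⁻¹' (Kp q : Set SL(2, ℚ_[q]))) :=
    (Kp_open q).preimage (continuous_const.mul continuous_id)
  obtain ⟨_, ⟨_, ⟨δ, hδ, rfl⟩, rfl⟩, hk⟩ := (dense_snd q).exists_mem_open ho
    ⟨h.2⁻¹, by simp [(Kp q).one_mem]⟩
  exact ⟨h * emb3 p q δ, hk,
    QuotientGroup.mk_mul_of_mem h ⟨δ, fun i j => ug_right p q (hδ i j), rfl⟩⟩

/-- The projection that forgets the prime `q`. -/
def pi3 (x : X3 p q) : XX p := ((exists_repq p q x).choose.1 : XX p)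

theorem pi3_mk {g : G3 p q} (hg : g.2 ∈ Kp q) : pi3 p q (g : X3 p q) = (g.1 : XX p) := by
  obtain ⟨h1, h2⟩ := (exists_repq p q (g : X3 p q)).choose_spec
  set h := (exists_repq p q (g : X3 p q)).choose with hh
  obtain ⟨δ, hδ, e⟩ : h⁻¹ * g ∈ Gam3 p q := QuotientGroup.eq.1 h2
  have h3 : (emb3 p q δ).2 ∈ Kp q := by
    rw [e]; exact (Kp q).mul_mem ((Kp q).inv_mem h1) hg
  have h4 : emb p δ = h.1⁻¹ * g.1 := congrArg Prod.fst e
  change (h.1 : XX p) = (g.1 : XX p)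
  exact QuotientGroup.eq.2 ⟨δ, fun i j => ug_drop p q (hδ i j) (h3 i j), h4⟩

theorem continuous_pi3 : Continuous (pi3 p q) := by
  have hU : IsOpen {g : G3 p q | g.2 ∈ Kp q} := (Kp_open q).preimage continuous_snd
  have hq : IsOpenQuotientMap
      (fun g : {g : G3 p q | g.2 ∈ Kp q} => ((g : G3 p q) : X3 p q)) := by
    refine ⟨fun x => ?_, QuotientGroup.continuous_mk.comp continuous_subtype_val,
      QuotientGroup.isOpenMap_coe.comp hU.isOpenMap_subtype_val⟩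
    obtain ⟨g, h1, h2⟩ := exists_repq p q x
    exact ⟨⟨g, h1⟩, h2⟩
  rw [hq.isQuotientMap.continuous_iff]
  have : (pi3 p q ∘ fun g : {g : G3 p q | g.2 ∈ Kp q} => ((g : G3 p q) : X3 p q)) =
      fun g : {g : G3 p q | g.2 ∈ Kp q} => ((g : G3 p q).1 : XX p) :=
    funext fun g => pi3_mk p q g.2
  rw [this]
  exact QuotientGroup.continuous_mk.comp (continuous_fst.comp continuous_subtype_val)

theorem pi3_smul {g : G3 p q} (hg : g.2 ∈ Kp q) (x : X3 p q) :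
    pi3 p q (g • x) = g.1 • pi3 p q x := by
  obtain ⟨h, h1, rfl⟩ := exists_repq p q x
  have e1 : g • (h : X3 p q) = ((g * h : G3 p q) : X3 p q) := rfl
  rw [e1, pi3_mk p q (g := g * h) ((Kp q).mul_mem hg h1), pi3_mk p q h1]
  rfl

theorem ug_lift (hpq : p ≠ q) {x : X3 p q} {c : GG p} (h : (c : XX p) = pi3 p q x) :
    ∃ k ∈ Kp q, (((c, k) : G3 p q) : X3 p q) = x := by
  obtain ⟨g, h1, rfl⟩ := exists_repq p q x
  rw [pi3_mk p q h1] at h
  obtain ⟨δ, hδ, e⟩ : g.1⁻¹ * c ∈ Gam p := QuotientGroup.eq.1 h.symm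
  have h2 : (emb3 p q δ).2 ∈ Kp q := fun i j => ug_norm p q hpq (hδ i j)
  refine ⟨g.2 * (emb3 p q δ).2, (Kp q).mul_mem h1 h2, (QuotientGroup.eq.2 ?_).symm⟩
  refine ⟨δ, fun i j => ug_left p q (hδ i j), Prod.ext e ?_⟩
  simp

theorem exists_rep3 (hpq : p ≠ q) (x : X3 p q) :
    ∃ g : G3 p q, g.1.2 ∈ Kp p ∧ g.2 ∈ Kp q ∧ (g : X3 p q) = x := by
  obtain ⟨a, h1, h2⟩ := exists_rep p (pi3 p q x)
  obtain ⟨k, hk, e⟩ := ug_lift p q hpq h2
  exact ⟨(a, k), h1, hk, e⟩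

theorem ug_dense_prod {F E : Type} [NormedField F] [NormedField E]
    (S : Subgroup (SL(2, F) × SL(2, E))) {A : Set (F × E)} (hA : Dense A)
    (h1 : ∀ x ∈ A, (uu x.1, uu x.2) ∈ S) (h2 : ∀ x ∈ A, (ul x.1, ul x.2) ∈ S) :
    Dense (S : Set (SL(2, F) × SL(2, E))) := by
  have k1 : ∀ x : F × E, (uu x.1, uu x.2) ∈ S.topologicalClosure := fun x =>
    map_mem_closure (f := fun x : F × E => (uu x.1, uu x.2))
      ((continuous_uu.comp continuous_fst).prodMk (continuous_uu.comp continuous_snd)) (hA x) h1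
  have k2 : ∀ x : F × E, (ul x.1, ul x.2) ∈ S.topologicalClosure := fun x =>
    map_mem_closure (f := fun x : F × E => (ul x.1, ul x.2))
      ((continuous_ul.comp continuous_fst).prodMk (continuous_ul.comp continuous_snd)) (hA x) h2
  have e1 : S.topologicalClosure.comap (MonoidHom.inl _ _) = ⊤ :=
    SL2_gen _ (fun x => by simpa using k1 (x, 0)) (fun x => by simpa using k2 (x, 0))
  have e2 : S.topologicalClosure.comap (MonoidHom.inr _ _) = ⊤ :=
    SL2_gen _ (fun x => by simpa using k1 (0, x)) (fun x => by simpa using k2 (0, x))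
  rintro ⟨a, b⟩
  have ha : a ∈ S.topologicalClosure.comap (MonoidHom.inl _ _) := by rw [e1]; trivial
  have hb : b ∈ S.topologicalClosure.comap (MonoidHom.inr _ _) := by rw [e2]; trivial
  have : (a, b) ∈ S.topologicalClosure := by
    simpa using S.topologicalClosure.mul_mem ha hb
  exact this

theorem ug_dense (hpq : p ≠ q) :
    Dense {z : ℝ × ℚ_[p] | ∃ x : ℚ, InZp (p * q) x ∧ ((x : ℝ), (x : ℚ_[p])) = z} := by
  have hp : (1 : ℝ) < p := by exact_mod_cast (Fact.out : p.Prime).one_lt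
  refine Metric.dense_iff.2 fun z ε hε => ?_
  obtain ⟨_, h1, x, hx, rfl⟩ := Metric.dense_iff.1 (grp_dense_P p) z.2 ε hε
  obtain ⟨n, hn⟩ := pow_unbounded_of_one_lt ε⁻¹ hp
  have hP : (0 : ℝ) < (p : ℝ) ^ n := by positivity
  obtain ⟨_, h2, w, hw, rfl⟩ := Metric.dense_iff.1 (grp_dense_R q) ((z.1 - x) / (p : ℝ) ^ n) _
    (div_pos hε hP)
  refine ⟨_, ?_, x + (p : ℚ) ^ n * w, (ug_left p q hx).add (InZp.mul ?_ (ug_right p q hw)), rfl⟩
  · rw [Metric.mem_ball, Prod.dist_eq, max_lt_iff]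
    rw [Metric.mem_ball, dist_eq_norm] at h1 h2
    constructor
    · rw [dist_eq_norm]
      have : ((x + (p : ℚ) ^ n * w : ℚ) : ℝ) - z.1 =
          (p : ℝ) ^ n * ((w : ℝ) - (z.1 - x) / (p : ℝ) ^ n) := by
        push_cast; field_simp; ring
      rw [this, norm_mul, Real.norm_of_nonneg hP.le, mul_comm]
      exact (lt_div_iff₀ hP).1 h2
    · rw [dist_eq_norm]
      have : ((x + (p : ℚ) ^ n * w : ℚ) : ℚ_[p]) - z.2 =
          ((x : ℚ_[p]) - z.2) + (p : ℚ_[p]) ^ n * w := by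
        push_cast; ring
      rw [this]
      refine (Padic.nonarchimedean _ _).trans_lt (max_lt h1 ?_)
      rw [norm_mul, norm_pow, Padic.norm_p, inv_pow]
      refine (mul_le_of_le_one_right (by positivity) (ug_norm q p hpq.symm hw)).trans_lt ?_
      exact (inv_lt_comm₀ hε hP).1 hn
  · simpa using inZp_int (p * q) ((p : ℤ) ^ n)

theorem ug_mem {x : ℚ} (hx : InZp (p * q) x) :
    (((uu (x : ℝ), uu (x : ℚ_[p])), uu (x : ℚ_[q])) : G3 p q) ∈ Gam3 p q ∧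
      (((ul (x : ℝ), ul (x : ℚ_[p])), ul (x : ℚ_[q])) : G3 p q) ∈ Gam3 p q := by
  have h1 : InZp (p * q) 1 := by simpa using inZp_int (p * q) 1
  have h0 : InZp (p * q) 0 := by simpa using inZp_int (p * q) 0
  refine ⟨⟨uu x, fun i j => ?_, ?_⟩, ⟨ul x, fun i j => ?_, ?_⟩⟩
  · fin_cases i <;> fin_cases j <;> simp [h0, h1, hx]
  · refine Prod.ext (Prod.ext ?_ ?_) ?_ <;> ext i j <;> fin_cases i <;> fin_cases j <;>
      simp [emb, emb3]
  · fin_cases i <;> fin_cases j <;> simp [h0, h1, hx]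
  · refine Prod.ext (Prod.ext ?_ ?_) ?_ <;> ext i j <;> fin_cases i <;> fin_cases j <;>
      simp [emb, emb3]

theorem dense3_fst (hpq : p ≠ q) : Dense (Prod.fst '' (Gam3 p q : Set (G3 p q))) := by
  exact ug_dense_prod ((Gam3 p q).map (MonoidHom.fst _ _)) (ug_dense p q hpq)
    (fun _ ⟨x, hx, h⟩ => ⟨_, (ug_mem p q hx).1, h ▸ rfl⟩)
    (fun _ ⟨x, hx, h⟩ => ⟨_, (ug_mem p q hx).2, h ▸ rfl⟩)

theorem dense3_Rq (hpq : p ≠ q) :
    Dense ((fun g : G3 p q => (g.1.1, g.2)) '' (Gam3 p q : Set (G3 p q))) := by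
  exact ug_dense_prod ((Gam3 p q).map (((MonoidHom.fst _ _).comp (MonoidHom.fst _ _)).prod
    (MonoidHom.snd _ _))) (ug_dense q p hpq.symm)
    (fun _ ⟨x, hx, h⟩ => ⟨_, (ug_mem p q (mul_comm q p ▸ hx)).1, h ▸ rfl⟩)
    (fun _ ⟨x, hx, h⟩ => ⟨_, (ug_mem p q (mul_comm q p ▸ hx)).2, h ▸ rfl⟩)

theorem isCompact_pi3 (hpq : p ≠ q) {Ω : Set (XX p)} (hΩ : IsCompact Ω) :
    IsCompact (pi3 p q ⁻¹' Ω) := by
  obtain ⟨C, hC, hCΩ⟩ : ∃ C : Set (GG p), IsCompact C ∧ Ω ⊆ QuotientGroup.mk '' C := by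
    refine hΩ.induction_on ⟨∅, isCompact_empty, by simp⟩
      (fun s t hst ⟨C, h1, h2⟩ => ⟨C, h1, hst.trans h2⟩)
      (fun s t ⟨C, h1, h2⟩ ⟨D, h3, h4⟩ => ⟨C ∪ D, h1.union h3, ?_⟩) fun x _ => ?_
    · rw [Set.image_union]; exact Set.union_subset_union h2 h4
    · obtain ⟨g, rfl⟩ := QuotientGroup.mk_surjective x
      obtain ⟨C, h1, h2⟩ := exists_compact_mem_nhds g
      exact ⟨_, mem_nhdsWithin_of_mem_nhds (QuotientGroup.isOpenMap_coe.image_mem_nhds h2),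
        C, h1, subset_rfl⟩
  refine ((hC.prod (Kp_compact q)).image
    (QuotientGroup.continuous_mk (N := Gam3 p q))).of_isClosed_subset
    (hΩ.isClosed.preimage (continuous_pi3 p q)) fun x hx => ?_
  obtain ⟨c, hc, e⟩ := hCΩ hx
  obtain ⟨k, hk, e2⟩ := ug_lift p q hpq e
  exact ⟨(c, k), ⟨hc, hk⟩, e2⟩

def j3 (x : X3 p q) : ℂ := piX p (pi3 p q x)

theorem exists_compact3 (hpq : p ≠ q) (Y : ℝ) : ∃ Ω : Set (X3 p q), IsCompact Ω ∧
    ∀ (x : X3 p q) (τ : ℍ), τ ∈ ModularGroup.fd → τ.im ≤ Y → j3 p q x = jInv τ → x ∈ Ω := by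
  have hC : IsCompact ((fun g : SL(2, ℝ) => g • UpperHalfPlane.I) ⁻¹'
      ModularGroup.truncatedFundamentalDomain Y)⁻¹ :=
    (isProperMap_smul_I.isCompact_preimage
      (ModularGroup.isCompact_truncatedFundamentalDomain _)).inv
  refine ⟨_, isCompact_pi3 p q hpq
    ((hC.prod (Kp_compact p)).image (QuotientGroup.continuous_mk (N := Gam p))),
    fun x τ h1 h2 h3 => ?_⟩
  obtain ⟨a, ha, e⟩ := exists_rep p (pi3 p q x)
  rw [j3, ← e, piX, toY_mk p ha, jY_mk] at h3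
  obtain ⟨γ, hγ⟩ := jInv_inj h3
  have he : (((a.1 * toR γ⁻¹, a.2 * toP p γ⁻¹) : GG p) : XX p) = (a : XX p) :=
    QuotientGroup.mk_mul_of_mem a (int_mem_Gam p γ⁻¹)
  refine ⟨(a.1 * toR γ⁻¹, a.2 * toP p γ⁻¹),
    ⟨?_, (Kp p).mul_mem ha (toP_mem_Kp p γ⁻¹)⟩, he.trans e⟩
  change ((a.1 * toR γ⁻¹)⁻¹ • UpperHalfPlane.I : ℍ) ∈ ModularGroup.truncatedFundamentalDomain Y
  rw [map_inv, mul_inv_rev, inv_inv, mul_smul, toR_smul_proj, ← hγ]
  exact ⟨h1, h2⟩

/-- The lattice of a point. -/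
def lat3 (x : X3 p q) : Lt := latG p (Quotient.out (pi3 p q x))

theorem lat3_eq {x : X3 p q} {g : GG p} (h : (g : XX p) = pi3 p q x) :
    lat3 p q x = latG p g := by
  have h1 : g⁻¹ * Quotient.out (pi3 p q x) ∈ Gam p :=
    QuotientGroup.eq.1 (h.trans (Quotient.out_eq _).symm)
  rw [lat3, ← latG_mul_Gam p g h1, mul_inv_cancel_left]

theorem lat3_spec (x : X3 p q) : IsLat (lat3 p q x) ∧ jL (lat3 p q x) = j3 p q x := by
  obtain ⟨h1, h2⟩ := latG_spec p (Quotient.out (pi3 p q x))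
  refine ⟨h1, h2.trans ?_⟩
  rw [j3]
  exact congrArg (piX p) (Quotient.out_eq _)

def ug_P (g : G3 p q) (z : ℂ) : Prop :=
  ∃ v : Fin 2 → ℚ, (∀ i, InZp (p * q) (v i)) ∧
    (∀ i, ‖g.1.2 i 0 * v 0 + g.1.2 i 1 * v 1‖ ≤ 1) ∧
    (∀ i, ‖g.2 i 0 * v 0 + g.2 i 1 * v 1‖ ≤ 1) ∧ z = frame_ph g.1.1 (v 0) (v 1)

theorem ug_P_mul (g : G3 p q) {γ : G3 p q} (hγ : γ ∈ Gam3 p q) {z : ℂ}
    (h : ug_P p q (g * γ) z) : ug_P p q g z := by
  obtain ⟨δ, hδ, rfl⟩ := hγ
  obtain ⟨v, h1, h2, h3, rfl⟩ := h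
  have e3 : ∀ i j, (g * emb3 p q δ).2 i j =
      g.2 i 0 * (δ 0 j : ℚ_[q]) + g.2 i 1 * (δ 1 j : ℚ_[q]) := by
    intro i j
    simp [emb3, Matrix.mul_apply, Fin.sum_univ_two]
  have e2 : ∀ i j, (g * emb3 p q δ).1.2 i j =
      g.1.2 i 0 * (δ 0 j : ℚ_[p]) + g.1.2 i 1 * (δ 1 j : ℚ_[p]) := by
    intro i j
    simp [emb3, emb, Matrix.mul_apply, Fin.sum_univ_two]
  have e1 : ∀ i j, (g * emb3 p q δ).1.1 i j =
      g.1.1 i 0 * (δ 0 j : ℝ) + g.1.1 i 1 * (δ 1 j : ℝ) := by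
    intro i j
    simp [emb3, emb, Matrix.mul_apply, Fin.sum_univ_two]
  refine ⟨fun i => δ i 0 * v 0 + δ i 1 * v 1,
    fun i => ((hδ i 0).mul (h1 0)).add ((hδ i 1).mul (h1 1)), fun i => ?_, fun i => ?_, ?_⟩
  · refine le_trans (le_of_eq ?_) (h2 i)
    congr 1; rw [e2, e2]; push_cast; ring
  · refine le_trans (le_of_eq ?_) (h3 i)
    congr 1; rw [e3, e3]; push_cast; ring
  · simp only [frame_ph, e1]; push_cast; ring

theorem mem_lat3 (hpq : p ≠ q) (g : G3 p q) (z : ℂ) : z ∈ lat3 p q (g : X3 p q) ↔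
    ∃ v : Fin 2 → ℚ, (∀ i, InZp (p * q) (v i)) ∧
      (∀ i, ‖g.1.2 i 0 * v 0 + g.1.2 i 1 * v 1‖ ≤ 1) ∧
      (∀ i, ‖g.2 i 0 * v 0 + g.2 i 1 * v 1‖ ≤ 1) ∧ z = frame_ph g.1.1 (v 0) (v 1) := by
  obtain ⟨h, hK, e⟩ := exists_repq p q (g : X3 p q)
  have hγ : h⁻¹ * g ∈ Gam3 p q := QuotientGroup.eq.1 e
  have h1 : ug_P p q g z ↔ ug_P p q h z := by
    constructor
    · intro H
      refine ug_P_mul p q h hγ ?_
      rwa [mul_inv_cancel_left]
    · intro H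
      refine ug_P_mul p q g ((Gam3 p q).inv_mem hγ) ?_
      rwa [mul_inv_rev, inv_inv, mul_inv_cancel_left]
  refine Iff.trans ?_ h1.symm
  rw [← e, lat3_eq p q (pi3_mk p q hK).symm]
  constructor
  · rintro ⟨v, k1, k2, rfl⟩
    exact ⟨v, fun i => ug_left p q (k1 i), k2,
      frame_K_le q hK (ug_norm p q hpq (k1 0)) (ug_norm p q hpq (k1 1)), rfl⟩
  · rintro ⟨v, k1, k2, k3, rfl⟩
    obtain ⟨k4, k5⟩ := frame_K_inv q hK (k3 0) (k3 1)
    refine ⟨v, fun i => ?_, k2, rfl⟩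
    fin_cases i
    · exact ug_drop p q (k1 0) k4
    · exact ug_drop p q (k1 1) k5

/-- The flow of the upper unipotent groups at `p`, one parameter for each factor. -/
def fl3 (κ : Type) : Flow (κ → ℚ_[p]) (κ → X3 p q) where
  toFun v w := fun k => u3 p q (v k) • w k
  cont' := continuous_pi fun k =>
    ((continuous_u3 p q).comp ((continuous_apply k).comp continuous_fst)).smul
      ((continuous_apply k).comp continuous_snd)
  map_add' s t x := by simp only [Pi.add_apply, u3_add, mul_smul]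
  map_zero' x := by
    have : u3 p q 0 = 1 := by simp [u3]
    simp [this]

theorem fl3_apply {κ : Type} (v : κ → ℚ_[p]) (w : κ → X3 p q) :
    fl3 p q κ v w = fun k => u3 p q (v k) • w k := rfl

def al (κ : Type) (t : ℕ) : κ → G3 p q := fun _ => a3 p q t

def be {κ : Type} (h : κ → SL(2, ℚ_[q])) (t : ℕ) : κ → G3 p q := fun k => b3 p q (h k) t

def piP {κ : Type} (w : κ → X3 p q) : κ → XX p := fun k => pi3 p q (w k)

theorem continuous_piP {κ : Type} : Continuous (piP p q (κ := κ)) :=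
  continuous_pi fun k => (continuous_pi3 p q).comp (continuous_apply k)

/-- Pairs of points with close orbits. -/
def Op (m : ℕ) : Set (X3 p q × X3 p q) :=
  {w | ∃ g : G3 p q, (∀ i j, |g.1.1 i j| < 2) ∧ g.1.2 ∈ Kp p ∧
    ‖g.1.2 0 1‖ ≤ (p : ℝ) ^ (-(m : ℤ)) ∧ g.2 ∈ Kp q ∧ w.2 = g • w.1}

theorem isOpen_Op (m : ℕ) : IsOpen (Op p q m) := by
  have hp : (0 : ℝ) < p := by exact_mod_cast (Fact.out : p.Prime).pos
  let V : Set (G3 p q) := {g | (∀ i j, |g.1.1 i j| < 2) ∧ g.1.2 ∈ Kp p ∧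
    ‖g.1.2 0 1‖ ≤ (p : ℝ) ^ (-(m : ℤ)) ∧ g.2 ∈ Kp q}
  have hV : IsOpen V := by
    have k1 : IsOpen {g : G3 p q | ∀ i j, |g.1.1 i j| < 2} := by
      simp only [Set.ofPred_forall]
      exact isOpen_iInter_of_finite fun i => isOpen_iInter_of_finite fun j =>
        isOpen_lt ((ug_cont i j).comp continuous_fst.fst).abs continuous_const
    have k2 : IsOpen {g : G3 p q | ‖g.1.2 0 1‖ ≤ (p : ℝ) ^ (-(m : ℤ))} := by
      simp only [← mem_closedBall_zero_iff]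
      exact (IsUltrametricDist.isOpen_closedBall (0 : ℚ_[p])
        (zpow_pos hp (-(m : ℤ))).ne').preimage ((ug_cont 0 1).comp continuous_fst.snd)
    exact k1.inter (IsOpen.inter ((Kp_open p).preimage continuous_fst.snd)
      (k2.inter ((Kp_open q).preimage continuous_snd)))
  have hW : IsOpen {w : G3 p q × G3 p q | w.2 * w.1⁻¹ ∈ V} :=
    hV.preimage (continuous_snd.mul continuous_fst.inv)
  have := ((QuotientGroup.isOpenMap_coe (N := Gam3 p q)).prodMap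
    (QuotientGroup.isOpenMap_coe (N := Gam3 p q))) _ hW
  refine (Set.ext fun w => ?_ : _ = Op p q m) ▸ this
  constructor
  · rintro ⟨⟨a, b⟩, ⟨h1, h2, h3, h4⟩, rfl⟩
    refine ⟨b * a⁻¹, h1, h2, h3, h4, ?_⟩
    change (b : X3 p q) = ((b * a⁻¹ * a : G3 p q) : X3 p q)
    rw [inv_mul_cancel_right]
  · rintro ⟨g, h1, h2, h3, h4, h5⟩
    obtain ⟨x, y⟩ := w
    obtain ⟨a, rfl⟩ := QuotientGroup.mk_surjective x
    refine ⟨(a, g * a), ?_, Prod.ext rfl h5.symm⟩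
    change g * a * a⁻¹ ∈ V
    rw [mul_inv_cancel_right]
    exact ⟨h1, h2, h3, h4⟩

end Pool.Agent.EQ
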