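import Pool.Agent.P.MP_ad7a55_nt.UG
import Pool.Agent.P.MP_ad7a55_nt.Hom
import Pool.Agent.P.MP_ad7a55_nt.Beta2

/-! Algebra and combinatorics of the shearing argument. -/

set_option autoImplicit false

noncomputable section

open MeasureTheory Topology Filter UpperHalfPlane
open scoped MatrixGroups ENNReal BoundedContinuousFunction

namespace Pool.Agent.EQ

open Classical in
theorem uha_cnt {f : ℕ → ℕ} (hf : StrictMono f) (B : ℕ → Prop) {n N : ℕ}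
    (h : ∀ i < n, f i < N) :
    ((Finset.range n).filter fun i => B (f i)).card ≤ ((Finset.range N).filter B).card := by
  refine Finset.card_le_card_of_injOn f (fun i hi => ?_) hf.injective.injOn
  simp only [Finset.coe_filter, Finset.mem_range, Set.mem_ofPred_eq] at hi ⊢
  exact ⟨h i hi.1, hi.2⟩

open Classical in
/-- The choice of a time at which three points are good. -/
theorem time_sel {L n : ℕ} (hn : 0 < n) (k : ℕ → ℕ) (hk : ∀ i, k i ≤ k (i + 1) + 1)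
    (hb : ∀ i < n, k i ≤ L * n) (B₁ B₂ B₃ : ℕ → Prop) {θ : ℝ} (hθ : θ * (L + 6) < 1)
    (h₁ : ∀ N : ℕ, (((Finset.range N).filter B₁).card : ℝ) ≤ θ * N)
    (h₂ : ∀ N : ℕ, (((Finset.range N).filter B₂).card : ℝ) ≤ θ * N)
    (h₃ : ∀ N : ℕ, (((Finset.range N).filter B₃).card : ℝ) ≤ θ * N) :
    ∃ i < n, ¬ B₁ (2 * i) ∧ ¬ B₂ (2 * i) ∧ ¬ B₃ (2 * i + k i) := by
  by_contra hc
  have m1 : StrictMono fun i : ℕ => 2 * i := fun a b hab => by simp only; omega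
  have m2 : StrictMono fun i : ℕ => 2 * i + k i := strictMono_nat_of_lt_succ fun i => by
    have := hk i; omega
  have c1 := uha_cnt m1 B₁ (n := n) (N := 2 * n) fun i hi => by omega
  have c2 := uha_cnt m1 B₂ (n := n) (N := 2 * n) fun i hi => by omega
  have c3 := uha_cnt m2 B₃ (n := n) (N := 2 * n + L * n) fun i hi => by
    have := hb i hi; omega
  have hs : Finset.range n ⊆ ((Finset.range n).filter fun i => B₁ (2 * i)) ∪
      ((Finset.range n).filter fun i => B₂ (2 * i)) ∪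
      ((Finset.range n).filter fun i => B₃ (2 * i + k i)) := by
    intro i hi
    simp only [Finset.mem_union, Finset.mem_filter, hi, true_and]
    by_contra h
    simp only [not_or] at h
    exact hc ⟨i, Finset.mem_range.1 hi, h.1.1, h.1.2, h.2⟩
  have h4 := (Finset.card_le_card hs).trans ((Finset.card_union_le _ _).trans
    (add_le_add ((Finset.card_union_le _ _).trans (add_le_add c1 c2)) c3))
  rw [Finset.card_range] at h4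
  have h5 : (n : ℝ) ≤ ((((Finset.range (2 * n)).filter B₁).card : ℝ) +
      ((Finset.range (2 * n)).filter B₂).card) +
      ((Finset.range (2 * n + L * n)).filter B₃).card := by exact_mod_cast h4
  have h6 := h₁ (2 * n)
  have h7 := h₂ (2 * n)
  have h8 := h₃ (2 * n + L * n)
  have hn' : (0 : ℝ) < n := by exact_mod_cast hn
  push_cast at h6 h7 h8
  nlinarith [mul_lt_mul_of_pos_right hθ hn']

variable {p q : ℕ} [Fact p.Prime] [Fact q.Prime]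

/-- No shearing up to the scale `p ^ r`. -/
def Sm (g : SL(2, ℚ_[p])) (r : ℤ) : Prop :=
  ‖g 1 1 - g 0 0‖ * (p : ℝ) ^ r ≤ 1 ∧ ‖g 1 0‖ * (p : ℝ) ^ (2 * r) ≤ 1

/-- The shearing polynomial. -/
def shq (g : SL(2, ℚ_[p])) (s : ℚ_[p]) : ℚ_[p] := g 0 1 + (g 1 1 - g 0 0) * s + (-g 1 0) * s ^ 2

theorem Sm.mono {g : SL(2, ℚ_[p])} {r r' : ℤ} (h : Sm g r) (hr : r' ≤ r) : Sm g r' := by
  have hp : (1 : ℝ) ≤ p := by exact_mod_cast (Fact.out : p.Prime).one_le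
  exact ⟨(mul_le_mul_of_nonneg_left (zpow_le_zpow_right₀ hp hr) (norm_nonneg _)).trans h.1,
    (mul_le_mul_of_nonneg_left (zpow_le_zpow_right₀ hp (by omega)) (norm_nonneg _)).trans h.2⟩

theorem uha_dg {F : Type} [Field F] {a : F} (ha : a ≠ 0) (g : SL(2, F)) :
    (dg a ha * g * (dg a ha)⁻¹) 0 0 = g 0 0 ∧ (dg a ha * g * (dg a ha)⁻¹) 1 1 = g 1 1 ∧
    (dg a ha * g * (dg a ha)⁻¹) 0 1 = a ^ 2 * g 0 1 ∧
    (dg a ha * g * (dg a ha)⁻¹) 1 0 = (a ^ 2)⁻¹ * g 1 0 := by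
  have e : (dg a ha)⁻¹ = dg a⁻¹ (inv_ne_zero ha) := inv_eq_of_mul_eq_one_right (by
    ext i j; fin_cases i <;> fin_cases j <;> simp [Matrix.mul_apply, Fin.sum_univ_two, ha])
  rw [e]
  refine ⟨?_, ?_, ?_, ?_⟩ <;>
    simp [Matrix.mul_apply, Fin.sum_univ_two, Matrix.vecMul, dotProduct] <;> field_simp

theorem a3_conj (t : ℕ) (g : G3 p q) :
    (a3 p q t * g * (a3 p q t)⁻¹).1.1 = g.1.1 ∧ (a3 p q t * g * (a3 p q t)⁻¹).2 = g.2 ∧
    (a3 p q t * g * (a3 p q t)⁻¹).1.2 0 0 = g.1.2 0 0 ∧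
    (a3 p q t * g * (a3 p q t)⁻¹).1.2 1 1 = g.1.2 1 1 ∧
    ‖(a3 p q t * g * (a3 p q t)⁻¹).1.2 0 1‖ = (p : ℝ) ^ (-(2 * t : ℤ)) * ‖g.1.2 0 1‖ ∧
    ‖(a3 p q t * g * (a3 p q t)⁻¹).1.2 1 0‖ = (p : ℝ) ^ (2 * t : ℤ) * ‖g.1.2 1 0‖ := by
  have ha : ((p : ℚ_[p]) ^ t) ≠ 0 := pow_ne_zero _ (Nat.cast_ne_zero.2 (Fact.out : p.Prime).ne_zero)
  have e : (a3 p q t * g * (a3 p q t)⁻¹).1.2 = dg _ ha * g.1.2 * (dg _ ha)⁻¹ := rfl
  have hn : ‖((p : ℚ_[p]) ^ t) ^ 2‖ = (p : ℝ) ^ (-(2 * t : ℤ)) := by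
    rw [← pow_mul, Padic.norm_p_pow]; congr 1; push_cast; ring
  obtain ⟨h1, h2, h3, h4⟩ := uha_dg ha g.1.2
  refine ⟨by simp [a3, aP], by simp [a3], e ▸ h1, e ▸ h2, ?_, ?_⟩
  · rw [e, h3, norm_mul, hn]
  · rw [e, h4, norm_mul, norm_inv, hn, zpow_neg, inv_inv]

theorem not_sm_slab {g : SL(2, ℚ_[p])} {r : ℤ} (h : ¬ Sm g r) (e : ℕ) : ∃ s₁ s₂ : ℚ_[p], ∀ s,
    ‖s‖ ≤ (p : ℝ) ^ r → (p : ℝ) ^ (r - e) < ‖s - s₁‖ → (p : ℝ) ^ (r - e) < ‖s - s₂‖ →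
      (p : ℝ) ^ (-(2 * e + 2 : ℤ)) < ‖shq g s‖ := by
  have hp : (0 : ℝ) < p := by exact_mod_cast (Fact.out : p.Prime).pos
  rcases three_point p (ι := Unit) (fun _ => g 0 1) (fun _ => g 1 1 - g 0 0) (fun _ => -g 1 0) 0 r e
    (R := (p : ℝ) ^ (-(2 * e + 2 : ℤ))) (by positivity) with h1 | ⟨s₁, s₂, h1⟩
  · have e1 : (p : ℝ) ^ (-(2 * e + 2 : ℤ)) * (p : ℝ) ^ (2 * e + 2) = 1 := by
      rw [← zpow_natCast, ← zpow_add₀ hp.ne']; push_cast; simp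
    have := coef_bound p (a := g 0 1) (b := g 1 1 - g 0 0) (c := -g 1 0) (l := r) (R := 1)
      fun s hs => e1 ▸ h1 s (by rw [mem_pb, sub_zero]; exact hs) ()
    rw [norm_neg] at this
    exact absurd this h
  · refine ⟨s₁, s₂, fun s hs h2 h3 => lt_of_not_ge fun h4 => ?_⟩
    rcases h1 s (by rw [mem_pb, sub_zero]; exact hs) (fun _ => h4) with h5 | h5
    · exact absurd ((mem_pb p).1 h5) (not_le.2 h2)
    · exact absurd ((mem_pb p).1 h5) (not_le.2 h3)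

theorem uha_add {x y : ℚ_[p]} {R : ℝ} (hx : ‖x‖ ≤ R) (hy : ‖y‖ ≤ R) : ‖x + y‖ ≤ R :=
  (Padic.nonarchimedean _ _).trans (max_le hx hy)

theorem uha_shear {g : SL(2, ℚ_[p])} {s : ℚ_[p]} {P η : ℝ} (hP : 1 ≤ P) (h0 : 0 < η) (hη : η ≤ 1)
    (hg : ∀ i j, ‖g i j - (1 : SL(2, ℚ_[p])) i j‖ ≤ η ^ 2 / P ^ 2)
    (h1 : ‖g 1 1 - g 0 0‖ * ‖s‖ ≤ P) (h2 : ‖g 1 0‖ * ‖s‖ ^ 2 ≤ P ^ 2) :
    ‖shq g s‖ ≤ P ^ 2 ∧
      ∀ i j, ‖(uu (s - shq g s) * g * uu (-s)) i j - (1 : SL(2, ℚ_[p])) i j‖ ≤ P ^ 2 * η := by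
  have hP2 : 1 ≤ P ^ 2 := one_le_pow₀ hP
  have hδ : η ^ 2 / P ^ 2 ≤ η := by
    rw [div_le_iff₀ (by positivity)]; nlinarith
  have hηP : η ≤ P ^ 2 * η := le_mul_of_one_le_left h0.le hP2
  have ha : ‖g 0 0 - 1‖ ≤ η := (by simpa using hg 0 0 : ‖g 0 0 - 1‖ ≤ η ^ 2 / P ^ 2).trans hδ
  have hb : ‖g 0 1‖ ≤ η := (by simpa using hg 0 1 : ‖g 0 1‖ ≤ η ^ 2 / P ^ 2).trans hδ
  have hc : ‖g 1 0‖ ≤ η ^ 2 / P ^ 2 := by simpa using hg 1 0
  have hd : ‖g 1 1 - 1‖ ≤ η := (by simpa using hg 1 1 : ‖g 1 1 - 1‖ ≤ η ^ 2 / P ^ 2).trans hδ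
  have hcs : ‖g 1 0 * s‖ ≤ η := by
    refine (pow_le_pow_iff_left₀ (norm_nonneg _) h0.le two_ne_zero).1 ?_
    rw [norm_mul, mul_pow, sq ‖g 1 0‖, mul_assoc]
    refine (mul_le_mul hc h2 (by positivity) (by positivity)).trans (le_of_eq ?_)
    field_simp
  have hw : ‖shq g s‖ ≤ P ^ 2 := by
    refine uha_add (uha_add (hb.trans (hη.trans hP2)) ?_) ?_
    · rw [norm_mul]; nlinarith
    · rwa [norm_mul, norm_neg, norm_pow]
  refine ⟨hw, fun i j => ?_⟩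
  have hm : ∀ {x : ℚ_[p]}, ‖x‖ ≤ η → ‖shq g s * x‖ ≤ P ^ 2 * η := fun hx => by
    rw [norm_mul]; exact mul_le_mul hw hx (norm_nonneg _) (by positivity)
  fin_cases i <;> fin_cases j
  · have e : (uu (s - shq g s) * g * uu (-s)) 0 0 - (1 : SL(2, ℚ_[p])) 0 0 =
        g 0 0 - 1 + g 1 0 * s + shq g s * (-g 1 0) := by
      simp [Matrix.mul_apply, Fin.sum_univ_two, Matrix.vecMul, dotProduct]; ring
    exact e ▸ uha_add (uha_add (ha.trans hηP) (hcs.trans hηP))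
      (hm (by rw [norm_neg]; exact hc.trans hδ))
  · have e : (uu (s - shq g s) * g * uu (-s)) 0 1 - (1 : SL(2, ℚ_[p])) 0 1 =
        shq g s * (-(g 1 1 - 1) + g 1 0 * s) := by
      simp [Matrix.mul_apply, Fin.sum_univ_two, Matrix.vecMul, dotProduct, shq]; ring
    exact e ▸ hm (uha_add (by rwa [norm_neg]) hcs)
  · have e : (uu (s - shq g s) * g * uu (-s)) 1 0 - (1 : SL(2, ℚ_[p])) 1 0 = g 1 0 := by
      simp [Matrix.mul_apply, Fin.sum_univ_two, Matrix.vecMul, dotProduct]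
    exact e ▸ hc.trans (hδ.trans hηP)
  · have e : (uu (s - shq g s) * g * uu (-s)) 1 1 - (1 : SL(2, ℚ_[p])) 1 1 =
        g 1 1 - 1 + -(g 1 0 * s) := by
      simp [Matrix.mul_apply, Fin.sum_univ_two, Matrix.vecMul, dotProduct]; ring
    exact e ▸ (uha_add hd (by rwa [norm_neg])).trans hηP

variable {κ : Type} [Fintype κ]

theorem uha_small {δ : ℝ} (hδ : 0 < δ) : ∀ᶠ g in 𝓝 (1 : κ → G3 p q), ∀ k i j,
    ‖(g k).1.2 i j - (1 : SL(2, ℚ_[p])) i j‖ ≤ δ := by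
  simp only [eventually_all]
  intro k i j
  have h1 : Continuous fun g : κ → G3 p q => ((g k).1.2 : Matrix (Fin 2) (Fin 2) ℚ_[p]) :=
    continuous_subtype_val.comp (continuous_apply k).fst.snd
  have h2 : Continuous fun g : κ → G3 p q => ‖(g k).1.2 i j - (1 : SL(2, ℚ_[p])) i j‖ :=
    ((h1.matrix_elem i j).sub continuous_const).norm
  filter_upwards [(isOpen_lt h2 continuous_const).mem_nhds (show ‖_‖ < δ by simpa using hδ)]
    with g hg using hg.le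

theorem uha_basis {𝒩 : Set (κ → G3 p q)} (h𝒩 : 𝒩 ∈ 𝓝 (1 : κ → G3 p q)) :
    ∃ V ∈ 𝓝 (1 : κ → G3 p q), ∃ ε : ℝ, 0 < ε ∧ ∀ g ∈ V, ∀ g' : κ → G3 p q,
      (∀ k, (g' k).1.1 = (g k).1.1 ∧ (g' k).2 = (g k).2 ∧
        ∀ i j, ‖(g' k).1.2 i j - (1 : SL(2, ℚ_[p])) i j‖ ≤ ε) → g' ∈ 𝒩 := by
  have hc : Continuous fun z : (κ → G3 p q) × (κ → SL(2, ℚ_[p])) =>
      (fun k => (((z.1 k).1.1, z.2 k), (z.1 k).2) : κ → G3 p q) :=
    continuous_pi fun k => (((continuous_apply k).comp continuous_fst).fst.fst.prodMk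
      ((continuous_apply k).comp continuous_snd)).prodMk
      ((continuous_apply k).comp continuous_fst).snd
  obtain ⟨V, hV, W, hW, hVW⟩ := mem_nhds_prod_iff.1
    ((hc.continuousAt (x := (1, 1))).preimage_mem_nhds h𝒩)
  have he : IsInducing (Pi.map fun (_ : κ) (h : SL(2, ℚ_[p])) => h.1) :=
    IsInducing.piMap fun _ => Matrix.SpecialLinearGroup.isClosedEmbedding_val.isEmbedding.isInducing
  rw [he.nhds_eq_comap, mem_comap] at hW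
  obtain ⟨U, hU, hUW⟩ := hW
  obtain ⟨ε, hε, hεU⟩ := (Metric.mem_nhds_iff (α := κ → Fin 2 → Fin 2 → ℚ_[p])).1 hU
  refine ⟨V, hV, ε / 2, by positivity, fun g hg g' h => ?_⟩
  have h1 : (fun k => (g' k).1.2) ∈ W := by
    have h0 : dist (fun (k : κ) (i j : Fin 2) => (g' k).1.2 i j)
        (fun _ i j => (1 : SL(2, ℚ_[p])) i j) < ε := by
      simp only [dist_pi_lt_iff hε]
      exact fun k i j => (dist_eq_norm _ _).trans_lt (((h k).2.2 i j).trans_lt (half_lt_self hε))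
    exact hUW (hεU h0)
  have h2 := hVW (Set.mk_mem_prod hg h1)
  have h3 : g' = fun k => (((g k).1.1, (g' k).1.2), (g k).2) := by
    funext k; rw [← (h k).1, ← (h k).2.1]
  rw [h3]; exact h2

theorem uha_mul {𝒩 : Set (κ → G3 p q)} (h𝒩 : 𝒩 ∈ 𝓝 (1 : κ → G3 p q)) :
    ∃ V ∈ 𝓝 (1 : κ → G3 p q), ∃ n₀ : ℕ, ∀ g ∈ V, ∀ x y : κ → ℚ_[p],
      (∀ k, ‖x k‖ ≤ (p : ℝ) ^ (-(n₀ : ℤ))) → (∀ k, ‖y k‖ ≤ (p : ℝ) ^ (-(n₀ : ℤ))) →
      (fun k => u3 p q (x k) * g k * u3 p q (y k)) ∈ 𝒩 := by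
  obtain ⟨U, hU⟩ : ∃ U : (κ → ℚ_[p]) → κ → G3 p q, U = fun x k => u3 p q (x k) := ⟨_, rfl⟩
  have hUc : Continuous U := by
    rw [hU]; exact continuous_pi fun k => (continuous_u3 p q).comp (continuous_apply k)
  have h0 : U 0 = 1 := by rw [hU]; funext k; simp [u3]
  obtain ⟨A, hA, hA'⟩ := exists_nhds_one_split h𝒩
  obtain ⟨V, hV, hV'⟩ := exists_nhds_one_split hA
  have h1 : U ⁻¹' (A ∩ V) ∈ 𝓝 (0 : κ → ℚ_[p]) :=
    hUc.continuousAt.preimage_mem_nhds (by rw [h0]; exact inter_mem hA hV)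
  obtain ⟨ε, hε, hεW⟩ := Metric.mem_nhds_iff.1 h1
  obtain ⟨n, hn⟩ := PadicInt.exists_pow_neg_lt p hε
  refine ⟨V, hV, n, fun g hg x y hx hy => ?_⟩
  have hx' := hεW (mem_ball_zero_iff.2 ((pi_norm_lt_iff hε).2 fun k => (hx k).trans_lt hn))
  have hy' := hεW (mem_ball_zero_iff.2 ((pi_norm_lt_iff hε).2 fun k => (hy k).trans_lt hn))
  have h2 := hA' _ (hV' _ hx'.2 _ hg) _ hy'.1
  rw [hU] at h2
  exact h2

theorem conj_near {𝒩 : Set (κ → G3 p q)} (h𝒩 : 𝒩 ∈ 𝓝 (1 : κ → G3 p q)) :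
    ∃ 𝒩' ∈ 𝓝 (1 : κ → G3 p q), ∃ n₀ : ℕ, ∀ g ∈ 𝒩', ∀ t : ℕ,
      (∀ k, (p : ℝ) ^ (2 * t : ℤ) * ‖(g k).1.2 1 0‖ ≤ (p : ℝ) ^ (-(n₀ : ℤ))) →
      al p q κ t * g * (al p q κ t)⁻¹ ∈ 𝒩 := by
  obtain ⟨V, hV, ε, hε, h⟩ := uha_basis h𝒩
  obtain ⟨n, hn⟩ := PadicInt.exists_pow_neg_lt p hε
  have hp : (1 : ℝ) ≤ p := by exact_mod_cast (Fact.out : p.Prime).one_le
  refine ⟨_, inter_mem hV (uha_small hε), n, fun g hg t ht => h g hg.1 _ fun k => ?_⟩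
  obtain ⟨h1, h2, h3, h4, h5, h6⟩ := a3_conj t (g k)
  have e : (al p q κ t * g * (al p q κ t)⁻¹) k = a3 p q t * g k * (a3 p q t)⁻¹ := rfl
  rw [e]
  refine ⟨h1, h2, fun i j => ?_⟩
  have h7 := hg.2 k
  fin_cases i <;> fin_cases j
  · exact h3 ▸ h7 0 0
  · have h8 : ‖(g k).1.2 0 1‖ ≤ ε := by simpa using h7 0 1
    have h9 : (p : ℝ) ^ (-(2 * t : ℤ)) ≤ 1 := zpow_le_one_of_nonpos₀ hp (by omega)
    have := h5.trans_le ((mul_le_of_le_one_left (norm_nonneg _) h9).trans h8)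
    simpa using this
  · simpa using h6.trans_le ((ht k).trans hn.le)
  · exact h4 ▸ h7 1 1

open Classical in
/-- The displacement along the flow is a translation up to a small error. -/
theorem shear_near {𝒩 : Set (κ → G3 p q)} (h𝒩 : 𝒩 ∈ 𝓝 (1 : κ → G3 p q)) (μ : ℕ) :
    ∃ 𝒩' ∈ 𝓝 (1 : κ → G3 p q), ∃ n₀ : ℕ, ∀ g ∈ 𝒩', ∀ (J : Finset κ) (r : ℤ)
      (v v₁ v₂ : κ → ℚ_[p]), ‖v‖ ≤ (p : ℝ) ^ r → (∀ j ∈ J, Sm (g j).1.2 (r - μ)) →
      (∀ j ∉ J, ‖v j‖ ≤ (p : ℝ) ^ (-(n₀ : ℤ))) → ‖v₁‖ ≤ (p : ℝ) ^ (-(n₀ : ℤ)) →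
      ‖v₂‖ ≤ (p : ℝ) ^ (-(n₀ : ℤ)) →
      ‖fun j => if j ∈ J then shq (g j).1.2 (v j) else 0‖ ≤ (p : ℝ) ^ (2 * μ) ∧ ∃ g₁ ∈ 𝒩,
        ∀ y : κ → X3 p q, fl3 p q κ (v + v₂) (g • y) =
          fl3 p q κ (fun j => if j ∈ J then shq (g j).1.2 (v j) else 0)
            (g₁ • fl3 p q κ (v + v₁) y) := by
  obtain ⟨V₁, hV₁, n, h₁⟩ := uha_mul h𝒩
  obtain ⟨V, hV, ε, hε, h⟩ := uha_basis hV₁
  have hp : (1 : ℝ) ≤ p := by exact_mod_cast (Fact.out : p.Prime).one_le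
  have hP : (1 : ℝ) ≤ (p : ℝ) ^ μ := one_le_pow₀ hp
  obtain ⟨η, h0, hη, hηε⟩ : ∃ η : ℝ, 0 < η ∧ η ≤ 1 ∧ ((p : ℝ) ^ μ) ^ 2 * η ≤ ε :=
    ⟨min 1 (ε / ((p : ℝ) ^ μ) ^ 2), by positivity, min_le_left _ _,
      (le_div_iff₀' (by positivity)).1 (min_le_right _ _)⟩
  have hδ : η ^ 2 / ((p : ℝ) ^ μ) ^ 2 ≤ ε := by
    have := one_le_pow₀ (n := 2) hP
    refine le_trans ?_ hηε
    rw [div_le_iff₀ (by positivity)]
    nlinarith [mul_le_mul this this zero_le_one (by positivity)]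
  refine ⟨_, inter_mem hV (uha_small (δ := η ^ 2 / ((p : ℝ) ^ μ) ^ 2) (by positivity)), n,
    fun g hg J r v v₁ v₂ hv hJ hvJ hv₁ hv₂ => ?_⟩
  have key : ∀ j ∈ J, ‖shq (g j).1.2 (v j)‖ ≤ ((p : ℝ) ^ μ) ^ 2 ∧ ∀ i l,
      ‖(uu (v j - shq (g j).1.2 (v j)) * (g j).1.2 * uu (-v j)) i l - (1 : SL(2, ℚ_[p])) i l‖ ≤
        ((p : ℝ) ^ μ) ^ 2 * η := by
    intro j hj
    have e : (p : ℝ) ^ r = (p : ℝ) ^ (r - μ) * (p : ℝ) ^ μ := by
      rw [← zpow_natCast, ← zpow_add₀ (by positivity), sub_add_cancel]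
    have hs : ‖v j‖ ≤ (p : ℝ) ^ (r - μ) * (p : ℝ) ^ μ := e ▸ (norm_le_pi_norm v j).trans hv
    obtain ⟨s1, s2⟩ := hJ j hj
    refine uha_shear hP h0 hη (hg.2 j) ?_ ?_
    · refine (mul_le_mul_of_nonneg_left hs (norm_nonneg _)).trans ?_
      rw [← mul_assoc]
      exact mul_le_of_le_one_left (by positivity) s1
    · refine (mul_le_mul_of_nonneg_left (pow_le_pow_left₀ (norm_nonneg _) hs 2)
        (norm_nonneg _)).trans ?_
      rw [mul_pow, ← mul_assoc]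
      refine mul_le_of_le_one_left (by positivity) ?_
      rwa [mul_comm 2, zpow_mul, zpow_ofNat] at s2
  set w : κ → ℚ_[p] := fun j => if j ∈ J then shq (g j).1.2 (v j) else 0 with hw
  set s : κ → ℚ_[p] := fun j => if j ∈ J then v j else 0 with hs
  have hx : ∀ {z : κ → ℚ_[p]}, ‖z‖ ≤ (p : ℝ) ^ (-(n : ℤ)) → ∀ k,
      ‖v k - s k + z k‖ ≤ (p : ℝ) ^ (-(n : ℤ)) := fun {z} hz k => by
    refine uha_add ?_ ((norm_le_pi_norm z k).trans hz)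
    by_cases hk : k ∈ J
    · simp only [hs, if_pos hk, sub_self, norm_zero]; positivity
    · simp only [hs, if_neg hk, sub_zero]; exact hvJ k hk
  refine ⟨(pi_norm_le_iff_of_nonneg (by positivity)).2 fun j => ?_, _,
    h₁ (fun k => u3 p q (s k - w k) * g k * u3 p q (-s k)) (h g hg.1 _ fun k => ?_)
      (fun k => v k - s k + v₂ k) (fun k => -(v k - s k + v₁ k)) (hx hv₂)
      (fun k => by rw [norm_neg]; exact hx hv₁ k), fun y => ?_⟩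
  · by_cases hj : j ∈ J
    · simp only [hw, if_pos hj]
      rw [pow_mul']; exact (key j hj).1
    · simp only [hw, if_neg hj, norm_zero]; positivity
  · refine ⟨by simp [u3, uP], by simp [u3], fun i l => ?_⟩
    have e : (u3 p q (s k - w k) * g k * u3 p q (-s k)).1.2 =
        uu (s k - w k) * (g k).1.2 * uu (-s k) := rfl
    rw [e]
    by_cases hk : k ∈ J
    · simp only [hw, hs, if_pos hk]
      exact ((key k hk).2 i l).trans hηε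
    · simp only [hw, hs, if_neg hk, sub_zero, neg_zero, uu_zero, one_mul, mul_one]
      exact (hg.2 k i l).trans hδ
  · funext k
    simp only [fl3_apply, Pi.smul_apply', Pi.add_apply, ← mul_smul]
    congr 1
    have h0 : u3 p q 0 = 1 := by simp [u3]
    have e1 : u3 p q (v k + v₂ k) =
        u3 p q (w k) * u3 p q (v k - s k + v₂ k) * u3 p q (s k - w k) := by
      rw [← u3_add, ← u3_add]; congr 1; ring
    have e2 : u3 p q (-s k) * u3 p q (-(v k - s k + v₁ k)) * u3 p q (v k + v₁ k) = 1 := by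
      rw [← u3_add, ← u3_add, ← h0]; congr 1; ring
    rw [e1, ← mul_one (_ * g k), ← e2]
    simp only [mul_assoc]

end Pool.Agent.EQ
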