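import Pool.Agent.P.MP_ad7a55_nt.UHa
import Pool.Agent.P.MP_ad7a55_nt.UAt
import Pool.Agent.P.MP_ad7a55_nt.UCp

/-! The shearing argument. -/

set_option autoImplicit false

noncomputable section

open MeasureTheory Topology Filter UpperHalfPlane
open scoped MatrixGroups ENNReal BoundedContinuousFunction

namespace Pool.Agent.EQ

variable {p q : ℕ} [Fact p.Prime] [Fact q.Prime] {κ : Type} [Fintype κ]

/-- Most points of every plaque lie near the set `C`. -/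
def Db (ν : Measure (κ → X3 p q)) (C : Set (κ → X3 p q)) (w : κ → X3 p q) : Prop :=
  ∀ k l : ℤ, l ≤ k →
    lw (dat (fl3 p q κ) ν w) k l {v | fl3 p q κ v w ∉ Sat (fl3 p q κ) l C} ≤ 1 / 8

/-- A close pair in `C` displaced by a translation of definite size. -/
def Shr (ν : Measure (κ → X3 p q)) (C : Set (κ → X3 p q)) (𝒩 : Set (κ → G3 p q)) (R R' : ℝ)
    (n : ℕ) : Prop :=
  ∃ y ∈ C, ∃ g ∈ 𝒩, ∃ ω : κ → ℚ_[p], fl3 p q κ ω (g • y) ∈ C ∧ R ≤ ‖ω‖ ∧ ‖ω‖ ≤ R' ∧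
    ∀ k l : ℤ, -(n : ℤ) ≤ l →
      dat (fl3 p q κ) ν (fl3 p q κ ω (g • y)) k l = dat (fl3 p q κ) ν y k l

theorem uhb_pick {V : Type} [MeasurableSpace V] (t : Measure V) [IsProbabilityMeasure t]
    {A₁ A₂ A₃ A₄ : Set V} {P : V → Prop} (h₁ : t A₁ ≤ 1 / 8) (h₂ : t A₂ ≤ 1 / 8)
    (h₃ : t A₃ ≤ 1 / 8) (h₄ : t A₄ ≤ 1 / 8) (hP : ∀ᵐ v ∂t, P v) :
    ∃ v, v ∉ A₁ ∧ v ∉ A₂ ∧ v ∉ A₃ ∧ v ∉ A₄ ∧ P v := by
  by_contra hc
  have hs : (Set.univ : Set V) ⊆ A₁ ∪ A₂ ∪ A₃ ∪ A₄ ∪ {v | ¬ P v} := by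
    intro v _
    by_contra hv
    simp only [Set.mem_union, Set.mem_ofPred_eq, not_or, not_not] at hv
    exact hc ⟨v, hv.1.1.1.1, hv.1.1.1.2, hv.1.1.2, hv.1.2, hv.2⟩
  have h0 : t {v | ¬ P v} = 0 := ae_iff.1 hP
  have h : (1 : ℝ≥0∞) ≤ 1 / 8 + 1 / 8 + 1 / 8 + 1 / 8 + 0 := by
    calc (1 : ℝ≥0∞) = t Set.univ := measure_univ.symm
      _ ≤ t (A₁ ∪ A₂ ∪ A₃ ∪ A₄ ∪ {v | ¬ P v}) := measure_mono hs
      _ ≤ t A₁ + t A₂ + t A₃ + t A₄ + t {v | ¬ P v} := by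
        refine (measure_union_le _ _).trans (add_le_add ?_ le_rfl)
        refine (measure_union_le _ _).trans (add_le_add ?_ le_rfl)
        refine (measure_union_le _ _).trans (add_le_add ?_ le_rfl)
        exact measure_union_le _ _
      _ ≤ _ := by rw [h0]; gcongr
  have e : (1 / 8 : ℝ≥0∞) = ENNReal.ofReal (1 / 8) := by
    rw [ENNReal.ofReal_div_of_pos (by norm_num)]; simp
  rw [e, add_zero, ← ENNReal.ofReal_add (by norm_num) (by norm_num),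
    ← ENNReal.ofReal_add (by norm_num) (by norm_num),
    ← ENNReal.ofReal_add (by norm_num) (by norm_num), ENNReal.one_le_ofReal] at h
  norm_num at h

theorem uhb_one_lt : (1 : ℝ) < (p : ℝ) := by
  exact_mod_cast (Fact.out : p.Prime).one_lt

theorem uhb_zpow {a b : ℤ} (h : a ≤ b) : (p : ℝ) ^ a ≤ (p : ℝ) ^ b :=
  zpow_le_zpow_right₀ uhb_one_lt.le h

theorem hp_step {𝒩 : Set (κ → G3 p q)} (h𝒩 : 𝒩 ∈ 𝓝 (1 : κ → G3 p q)) (μ e : ℕ) :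
    ∃ 𝒩' ∈ 𝓝 (1 : κ → G3 p q), ∀ᶠ n : ℕ in atTop, ∀ (ν : Measure (κ → X3 p q))
      (C : Set (κ → X3 p q)), IsCompact C → (∀ w ∈ C, Gd (fl3 p q κ) ν w) →
      ∀ (J : Finset κ) (r : ℤ) (y : κ → X3 p q), ∀ g ∈ 𝒩', 0 ≤ r → Gd (fl3 p q κ) ν y →
      Gd (fl3 p q κ) ν (g • y) → dat (fl3 p q κ) ν (g • y) = dat (fl3 p q κ) ν y → Db ν C y →
      Db ν C (g • y) → (∀ j ∉ J, Conc (dat (fl3 p q κ) ν y) j) →
      (∀ j ∈ J, ThinAt (dat (fl3 p q κ) ν y) j r (r - e) (1 / 8)) →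
      (∀ j ∈ J, Sm (g j).1.2 (r - μ)) → (∃ j ∈ J, ¬ Sm (g j).1.2 r) →
      Shr ν C 𝒩 ((p : ℝ) ^ (-(2 * e + 2 : ℤ))) ((p : ℝ) ^ (2 * μ)) n := by
  classical
  obtain ⟨𝒩', h𝒩', n₀, hsh⟩ := shear_near h𝒩 μ
  refine ⟨𝒩', h𝒩', ?_⟩
  filter_upwards [eventually_ge_atTop n₀, eventually_ge_atTop e] with n hn hne
  intro ν C _ hCG J r y g hg hr hy hgy hd hb hb' hco hth hsm hns
  obtain ⟨j₀, hj₀, hns⟩ := hns
  obtain ⟨s₁, s₂, hs⟩ := not_sm_slab hns e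
  have hnr : -(n : ℤ) ≤ r := by omega
  have hnre : -(n : ℤ) ≤ r - e := by omega
  have hre : r - e ≤ r := by omega
  have := hy.prob hnr
  have h₂ := hb' r (-n) hnr
  rw [hd] at h₂
  have h₃ : lw (dat (fl3 p q κ) ν y) r (-n) {v | ‖v j₀ - s₁‖ ≤ (p : ℝ) ^ (r - e)} ≤ 1 / 8 := by
    rw [hy.slab j₀ hnre hre]; exact hth j₀ hj₀ s₁
  have h₄ : lw (dat (fl3 p q κ) ν y) r (-n) {v | ‖v j₀ - s₂‖ ≤ (p : ℝ) ^ (r - e)} ≤ 1 / 8 := by
    rw [hy.slab j₀ hnre hre]; exact hth j₀ hj₀ s₂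
  have h₅ : ∀ᵐ v ∂lw (dat (fl3 p q κ) ν y) r (-n), ‖v‖ ≤ (p : ℝ) ^ r :=
    (withDensity_absolutelyContinuous _ _).ae_le (bmV_ae r)
  have h₆ : ∀ᵐ v ∂lw (dat (fl3 p q κ) ν y) r (-n), ∀ j, j ∉ J →
      ‖v j‖ ≤ (p : ℝ) ^ (-(n : ℤ)) := by
    refine ae_all_iff.2 fun j => ?_
    by_cases hj : j ∈ J
    · exact Eventually.of_forall fun v h => (h hj).elim
    · have h1 := hy.conc (hco j hj) hnr
      have hm : MeasurableSet {v : κ → ℚ_[p] | ‖v j - 0‖ ≤ (p : ℝ) ^ (-(n : ℤ))} :=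
        (isClosed_le (((continuous_apply j).sub continuous_const).norm)
          continuous_const).measurableSet
      have h2 : ∀ᵐ v ∂lw (dat (fl3 p q κ) ν y) r (-n), ‖v j - 0‖ ≤ (p : ℝ) ^ (-(n : ℤ)) :=
        (prob_compl_eq_zero_iff hm).2 h1
      filter_upwards [h2] with v hv _
      simpa using hv
  obtain ⟨v, hv₁, hv₂, hv₃, hv₄, hv₅, hv₆⟩ := uhb_pick _ (hb r (-n) hnr) h₂ h₃ h₄ (h₅.and h₆)
  simp only [Set.mem_ofPred_eq, not_not, not_le] at hv₁ hv₂ hv₃ hv₄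
  obtain ⟨v₁, hn₁, hc₁⟩ := hv₁
  obtain ⟨v₂, hn₂, hc₂⟩ := hv₂
  rw [← Flow.map_add, add_comm] at hc₁ hc₂
  have hle : (p : ℝ) ^ (-(n : ℤ)) ≤ (p : ℝ) ^ (-(n₀ : ℤ)) := uhb_zpow (by omega)
  obtain ⟨hω, g₁, hg₁, hfl⟩ := hsh g hg J r v v₁ v₂ hv₅ hsm (fun j hj => (hv₆ j hj).trans hle)
    (hn₁.trans hle) (hn₂.trans hle)
  refine ⟨_, hc₁, g₁, hg₁, _, by rw [← hfl]; exact hc₂, ?_, hω, fun k l hl => ?_⟩
  · have h1 := hs (v j₀) ((norm_le_pi_norm v j₀).trans hv₅) hv₃ hv₄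
    refine h1.le.trans (le_trans (le_of_eq ?_) (norm_le_pi_norm _ j₀))
    simp [hj₀]
  · rw [← hfl]
    refine (hy.transfer hgy hd.symm (hCG _ hc₁) (n := -n) ?_ k hl).symm
    have : v + v₁ - (v + v₂) = v₁ + -v₂ := by abel
    rw [this]
    exact norm_add_V hn₁ (by rwa [norm_neg])

open Classical in
/-- Points with a small frequency of visits to a small set. -/
theorem uhb_freq {W : Type} [MeasurableSpace W] (ν : Measure W) [IsProbabilityMeasure ν]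
    {T : W → W} (hT : MeasurePreserving T ν ν) {B : Set W} {θ : ℝ} (hθ : 0 < θ)
    (hB : ν B ≤ ENNReal.ofReal θ * (1 / 8)) :
    ν {w | ∀ N : ℕ, (((Finset.range N).filter fun t => T^[t] w ∈ B).card : ℝ) ≤ θ * N}ᶜ ≤
      1 / 8 := by
  have h := (hopf_count ν hT B hθ.le).trans hB
  rw [ENNReal.mul_le_mul_iff_right (by simpa using hθ) ENNReal.ofReal_ne_top] at h
  refine le_trans (measure_mono fun w hw => ?_) h
  simpa using hw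

theorem uhb_sm_K {g : SL(2, ℚ_[p])} (hg : g ∈ Kp p) {r : ℤ} (hr : r ≤ 0) : Sm g r := by
  have h0 : ∀ i j, ‖g i j‖ ≤ 1 := hg
  refine Sm.mono (r := 0) ⟨?_, by simpa using h0 1 0⟩ hr
  rw [zpow_zero, mul_one, sub_eq_add_neg]
  exact (Padic.nonarchimedean _ _).trans (max_le (h0 _ _) (by rw [norm_neg]; exact h0 _ _))

theorem uhb_sm_step (g : G3 p q) (s d : ℕ) (r : ℤ)
    (h : Sm (a3 p q s * g * (a3 p q s)⁻¹).1.2 (r + d)) :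
    Sm (a3 p q (s + d) * g * (a3 p q (s + d))⁻¹).1.2 r := by
  obtain ⟨-, -, a0, a1, -, a2⟩ := a3_conj s g
  obtain ⟨-, -, b0, b1, -, b2⟩ := a3_conj (s + d) g
  have hp : (p : ℝ) ≠ 0 := (zero_lt_one.trans uhb_one_lt).ne'
  refine ⟨?_, ?_⟩
  · have h1 := (h.mono (r' := r) (by omega)).1
    rw [a0, a1] at h1
    rwa [b0, b1]
  · have h1 := h.2
    rw [a2] at h1
    rw [b2]
    refine le_trans (le_of_eq ?_) h1
    rw [mul_right_comm, mul_right_comm _ _ ((p : ℝ) ^ (2 * (r + d))), ← zpow_add₀ hp,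
      ← zpow_add₀ hp]
    congr 2
    push_cast
    ring

theorem uhb_not_sm (g : G3 p q) (s : ℕ) {a r : ℤ} (ha : (p : ℝ) ^ (-a) ≤ ‖g.1.2 1 0‖)
    (hr : a < 2 * r) : ¬ Sm (a3 p q s * g * (a3 p q s)⁻¹).1.2 r := by
  obtain ⟨-, -, -, -, -, a2⟩ := a3_conj s g
  have hp : (0 : ℝ) < p := zero_lt_one.trans uhb_one_lt
  intro h
  have h1 := h.2
  rw [a2] at h1
  have h2 : (p : ℝ) ^ (2 * s : ℤ) * (p : ℝ) ^ (-a) * (p : ℝ) ^ (2 * r) ≤ 1 := by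
    refine le_trans ?_ h1
    gcongr
  rw [← zpow_add₀ hp.ne', ← zpow_add₀ hp.ne'] at h2
  have h3 : (1 : ℝ) < (p : ℝ) ^ ((2 * s : ℤ) + -a + 2 * r) :=
    one_lt_zpow₀ uhb_one_lt (by omega)
  linarith

theorem Jn.hp_pairs {M : ℕ} {h : κ → SL(2, ℚ_[q])} {ν : Measure (κ → X3 p q)} (H : Jn p q M h ν)
    {J : Finset κ} (hJ : J.Nonempty) (h₀ : ∀ᵐ w ∂ν, ∀ j ∉ J, Conc (dat (fl3 p q κ) ν w) j)
    (h₁ : ∀ᵐ w ∂ν, ∀ j ∈ J, Thin (dat (fl3 p q κ) ν w) j) :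
    ∃ (ε : ℝ≥0∞) (R R' : ℝ), 0 < ε ∧ 0 < R ∧ ∀ C : Set (κ → X3 p q), IsCompact C →
      (∀ w ∈ C, Gd (fl3 p q κ) ν w) → ν Cᶜ ≤ ε → ∀ 𝒩 ∈ 𝓝 (1 : κ → G3 p q), ∀ n₀ : ℕ,
      ∃ n, n₀ ≤ n ∧ Shr ν C 𝒩 R R' n := by
  classical
  have := H.prob
  obtain ⟨k₀, hk₀⟩ := hJ
  have hM := H.pos
  set c : ℕ := Fintype.card κ with hc
  set θ : ℝ := 1 / (2 * c + 10) with hθ
  have hθ0 : 0 < θ := by positivity
  have hθ' : ENNReal.ofReal θ ≠ 0 := by simpa using hθ0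
  have h8 : (0 : ℝ≥0∞) < 1 / 8 := by simp
  obtain ⟨e, he⟩ := thin_unif J h₁ (ε := 1 / 8) (η := ENNReal.ofReal θ * (1 / 8)) h8
    (ENNReal.mul_pos hθ' h8.ne')
  refine ⟨1 / 8 * (ENNReal.ofReal θ * (1 / 8)), (p : ℝ) ^ (-(2 * e + 2 : ℤ)),
    (p : ℝ) ^ (2 * (2 * M)), ENNReal.mul_pos h8.ne' (ENNReal.mul_pos hθ' h8.ne').ne',
    zpow_pos (zero_lt_one.trans uhb_one_lt) _, fun C hC hCG hCε 𝒩 h𝒩 n₀ => ?_⟩
  obtain ⟨𝒩₁, h𝒩₁, hst⟩ := hp_step h𝒩 (2 * M) e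
  obtain ⟨n, hn, hst⟩ := ((eventually_ge_atTop n₀).and hst).exists
  refine ⟨n, hn, ?_⟩
  have hK : {g : κ → G3 p q | ∀ j, (g j).1.2 ∈ Kp p} ∈ 𝓝 (1 : κ → G3 p q) :=
    eventually_all.2 fun j => ((Kp_open p).preimage
      (continuous_snd.comp (continuous_fst.comp (continuous_apply j)))).mem_nhds (Kp p).one_mem
  obtain ⟨𝒩₂, h𝒩₂, n₁, hcj⟩ := conj_near (inter_mem h𝒩₁ hK)
  have hT : MeasurePreserving (fun w : κ → X3 p q => al p q κ M • w) ν ν :=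
    ⟨measurable_const_smul _, H.a⟩
  set B₁ : Set (κ → X3 p q) := {w | Gd (fl3 p q κ) ν w ∧ ∃ k l : ℤ, l ≤ k ∧
    1 / 8 < lw (dat (fl3 p q κ) ν w) k l {v | fl3 p q κ v w ∉ Sat (fl3 p q κ) l C}} with hB₁
  set B₃ : Set (κ → X3 p q) :=
    {w | ¬ ∀ j ∈ J, ThinAt (dat (fl3 p q κ) ν w) j 0 (-e) (1 / 8)} with hB₃
  have hb₁ : ν B₁ ≤ ENNReal.ofReal θ * (1 / 8) := by
    have h := (doob (fl3 p q κ) ν hC (1 / 8)).trans hCε
    rwa [ENNReal.mul_le_mul_iff_right h8.ne' (by simp)] at h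
  have f₁ := uhb_freq ν hT hθ0 hb₁
  have f₃ := uhb_freq ν hT hθ0 he
  simp only [al_iter] at f₁ f₃
  have f₀ := H.ae_al ((ae_Gd (fl3 p q κ) ν).and (h₀.and H.dat_a))
  set G₁ := {w : κ → X3 p q | ∀ N : ℕ,
    (((Finset.range N).filter fun t => al p q κ (M * t) • w ∈ B₁).card : ℝ) ≤ θ * N} with hG₁
  set G₃ := {w : κ → X3 p q | ∀ N : ℕ,
    (((Finset.range N).filter fun t => al p q κ (M * t) • w ∈ B₃).card : ℝ) ≤ θ * N} with hG₃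
  set G₀ := {w : κ → X3 p q | ∀ t : ℕ, Gd (fl3 p q κ) ν (al p q κ (M * t) • w) ∧
    (∀ j ∉ J, Conc (dat (fl3 p q κ) ν (al p q κ (M * t) • w)) j) ∧ ∀ s : ℕ,
      shD ((p : ℚ_[p]) ^ (2 * (M * s))) (-(2 * (M * s) : ℕ))
        (dat (fl3 p q κ) ν (al p q κ (M * s) • al p q κ (M * t) • w)) =
        dat (fl3 p q κ) ν (al p q κ (M * t) • w)} with hG₀
  have hG : ν (G₁ ∩ G₃ ∩ G₀)ᶜ ≤ 1 / 4 := by
    have g₀ : ν G₀ᶜ = 0 := f₀
    rw [Set.compl_inter, Set.compl_inter]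
    refine (measure_union_le _ _).trans ?_
    rw [g₀, add_zero]
    refine (measure_union_le _ _).trans ((add_le_add f₁ f₃).trans (le_of_eq ?_))
    rw [← ENNReal.toReal_eq_toReal_iff' (by simp) (by simp), ENNReal.toReal_add (by simp) (by simp)]
    norm_num
  obtain ⟨n₂, hn₂⟩ := eventually_atTop.1 (H.pairs k₀ h𝒩₂ hG)
  set n' : ℕ := n₁ + n₂ + 1 with hn'
  have hMn : n' ≤ M * n' := Nat.le_mul_of_pos_left _ hM
  obtain ⟨y, ⟨⟨y₁, y₃⟩, y₀⟩, g, hg, ⟨⟨z₁, -⟩, z₀⟩, hdat, hup, hlow⟩ :=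
    hn₂ (8 * (M * n')) (by omega)
  let gg : ℕ → κ → G3 p q := fun i => al p q κ (M * (2 * i)) * g * (al p q κ (M * (2 * i)))⁻¹
  have hgg : ∀ i j, gg i j = a3 p q (M * (2 * i)) * g j * (a3 p q (M * (2 * i)))⁻¹ :=
    fun _ _ => rfl
  have hns : ∀ i, ∃ j ∈ J, ¬ Sm (gg i j).1.2 ((2 * (M * ((2 * c + 3) * n')) : ℕ) : ℤ) := by
    intro i
    refine ⟨k₀, hk₀, uhb_not_sm (g k₀) _ hlow ?_⟩
    have h1 : (1 : ℤ) ≤ (M : ℤ) * n' := by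
      have : 1 ≤ M * n' := by omega
      exact_mod_cast this
    push_cast
    nlinarith
  have hex : ∀ i, ∃ k : ℕ, ∃ j ∈ J, ¬ Sm (gg i j).1.2 ((2 * (M * k) : ℕ) : ℤ) :=
    fun i => ⟨_, hns i⟩
  have hk1 : ∀ i, Nat.find (hex i) ≤ Nat.find (hex (i + 1)) + 1 := by
    intro i
    obtain ⟨j, hj, h⟩ := Nat.find_spec (hex (i + 1))
    refine Nat.find_min' _ ⟨j, hj, fun h' => h ?_⟩
    rw [hgg] at h' ⊢
    have e1 : M * (2 * (i + 1)) = M * (2 * i) + 2 * M := by ring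
    rw [e1]
    refine uhb_sm_step _ _ _ _ (h'.mono (le_of_eq ?_))
    push_cast
    ring
  have hθL : θ * (((2 * c + 3 : ℕ) : ℝ) + 6) < 1 := by
    rw [hθ, div_mul_eq_mul_div, div_lt_one (by positivity)]
    push_cast
    linarith
  obtain ⟨i, hi, c₁, c₂, c₃⟩ := time_sel (L := 2 * c + 3) (n := n') (by omega)
    (fun i => Nat.find (hex i)) hk1 (fun i _ => Nat.find_min' _ (hns i))
    (fun t => al p q κ (M * t) • y ∈ B₁) (fun t => al p q κ (M * t) • g • y ∈ B₁)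
    (fun t => al p q κ (M * t) • y ∈ B₃) hθL
    (fun N => by rw [Finset.filter_congr_decidable]; exact y₁ N)
    (fun N => by rw [Finset.filter_congr_decidable]; exact z₁ N)
    (fun N => by rw [Finset.filter_congr_decidable]; exact y₃ N)
  set k := Nat.find (hex i) with hk
  have hmem : gg i ∈ 𝒩₁ ∩ {g : κ → G3 p q | ∀ j, (g j).1.2 ∈ Kp p} := by
    refine hcj g hg _ fun j => ?_
    have hp : (0 : ℝ) < p := zero_lt_one.trans uhb_one_lt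
    refine (mul_le_mul_of_nonneg_left (hup j) (zpow_pos hp _).le).trans ?_
    rw [← zpow_add₀ hp.ne']
    refine uhb_zpow ?_
    have h1 : M * i ≤ M * n' := Nat.mul_le_mul_left _ hi.le
    have h2 : M * (2 * i) = 2 * (M * i) := by ring
    omega
  have hsm : gg i • al p q κ (M * (2 * i)) • y = al p q κ (M * (2 * i)) • g • y := by
    simp only [gg, mul_smul, inv_smul_smul]
  have hdb : ∀ w, Gd (fl3 p q κ) ν w → w ∉ B₁ → Db ν C w := by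
    intro w hw hw' k l hl
    by_contra hlt
    exact hw' ⟨hw, k, l, hl, not_le.1 hlt⟩
  refine hst ν C hC hCG J ((2 * (M * k) : ℕ) : ℤ) (al p q κ (M * (2 * i)) • y) (gg i) hmem.1
    (Int.natCast_nonneg _) (y₀ _).1 (by rw [hsm]; exact (z₀ _).1) (by rw [hsm]; exact hdat _)
    (hdb _ (y₀ _).1 c₁) (by rw [hsm]; exact hdb _ (z₀ _).1 c₂) (y₀ _).2.1 (fun j hj => ?_)
    (fun j hj => ?_) (Nat.find_spec (hex i))
  · have h3 : ThinAt (dat (fl3 p q κ) ν (al p q κ (M * (2 * i + k)) • y)) j 0 (-e) (1 / 8) :=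
      not_not.1 c₃ j hj
    have e1 : M * (2 * i + k) = M * k + M * (2 * i) := by ring
    rw [e1, al_add, mul_smul] at h3
    rw [← (y₀ (2 * i)).2.2 k, thinAt_shD (H.sys k).nrm]
    have e2 : ((2 * (M * k) : ℕ) : ℤ) + -((2 * (M * k) : ℕ) : ℤ) = 0 := by omega
    have e3 : ((2 * (M * k) : ℕ) : ℤ) - e + -((2 * (M * k) : ℕ) : ℤ) = -e := by omega
    rw [e2, e3]
    exact h3
  · rcases Nat.eq_zero_or_pos k with h0 | h0
    · refine uhb_sm_K (hmem.2 j) ?_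
      rw [h0]
      omega
    · have h1 := Nat.find_min (hex i) (m := k - 1) (by omega)
      have h2 : Sm (gg i j).1.2 ((2 * (M * (k - 1)) : ℕ) : ℤ) := by
        by_contra h2
        exact h1 ⟨j, hj, h2⟩
      refine h2.mono (le_of_eq ?_)
      obtain ⟨k', hk'⟩ : ∃ k', k = k' + 1 := ⟨k - 1, by omega⟩
      rw [hk', Nat.add_sub_cancel]
      push_cast
      ring

end Pool.Agent.EQ
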