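import Pool.Agent.P.MP_ad7a55_nt.ULf3

/-! The invariance group of the leafwise measure and its lines. -/

set_option autoImplicit false

noncomputable section

open MeasureTheory Topology Filter UpperHalfPlane
open scoped MatrixGroups ENNReal BoundedContinuousFunction

namespace Pool.Agent.EQ

variable {p : ℕ} [Fact p.Prime] {ι : Type} [Fintype ι]

/-- Translations that preserve the leafwise measure. -/
def Sig (δ : Dat p ι) : Set (ι → ℚ_[p]) :=
  {ω | ∀ l : ℤ, ∀ᶠ k : ℤ in atTop, ∀ c, δ k l (c + ω) = δ k l c}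

/-- Lines of such translations. -/
def Lam (δ : Dat p ι) : Set (ι → ℚ_[p]) := {d | ∀ s : ℚ_[p], s • d ∈ Sig δ}

/-- Translations that preserve the data at one scale. -/
def usa_SigL (δ : Dat p ι) (l : ℤ) : Set (ι → ℚ_[p]) :=
  {ω | ∀ᶠ k : ℤ in atTop, ∀ c, δ k l (c + ω) = δ k l c}

omit [Fintype ι] in
theorem usa_mem_Sig {δ : Dat p ι} {ω : ι → ℚ_[p]} : ω ∈ Sig δ ↔ ∀ l, ω ∈ usa_SigL δ l := Iff.rfl

theorem usa_one_lt : (1 : ℝ) < p := by exact_mod_cast (Fact.out : p.Prime).one_lt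

theorem usa_pos (l : ℤ) : (0 : ℝ) < (p : ℝ) ^ l := zpow_pos (zero_lt_one.trans usa_one_lt) l

theorem usa_ev (R : ℝ) : ∀ᶠ k : ℤ in atTop, R ≤ (p : ℝ) ^ k := by
  obtain ⟨n, hn⟩ := pow_unbounded_of_one_lt R (usa_one_lt (p := p))
  filter_upwards [eventually_ge_atTop (n : ℤ)] with k hk
  refine hn.le.trans ?_
  rw [← zpow_natCast]
  exact zpow_le_zpow_right₀ usa_one_lt.le hk

theorem usa_clopen {S : Set (ι → ℚ_[p])} {l : ℤ}
    (h : ∀ c ∈ S, ∀ v : ι → ℚ_[p], ‖v‖ ≤ (p : ℝ) ^ l → c + v ∈ S) : IsClopen S := by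
  constructor
  · refine isOpen_compl_iff.1 (Metric.isOpen_iff.2 fun c hc => ⟨_, usa_pos (p := p) l, ?_⟩)
    intro x hx hxS
    refine hc ?_
    have := h x hxS (c - x) (by
      rw [← dist_eq_norm, dist_comm]; exact (Metric.mem_ball.1 hx).le)
    rwa [add_sub_cancel] at this
  · refine Metric.isOpen_iff.2 fun c hc => ⟨_, usa_pos (p := p) l, ?_⟩
    intro x hx
    have := h c hc (x - c) (by rw [← dist_eq_norm]; exact (Metric.mem_ball.1 hx).le)
    rwa [add_sub_cancel] at this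

theorem usa_clopen_SigL {δ : Dat p ι} (h : IvD δ) (l : ℤ) : IsClopen (usa_SigL δ l) := by
  refine usa_clopen (l := l) fun ω hω v hv => ?_
  filter_upwards [hω] with k hk c
  rw [← add_assoc, h k l _ v hv, hk]

/-- The norm of a nonzero vector is the norm of a coordinate. -/
theorem usa_coord {ω : ι → ℚ_[p]} (h : ω ≠ 0) : ∃ t : ℚ_[p], t ≠ 0 ∧ ‖t‖ = ‖ω‖ := by
  have : Nonempty ι := by
    by_contra hn
    rw [not_nonempty_iff] at hn
    exact h (Subsingleton.elim _ _)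
  obtain ⟨i, -, hi⟩ := Finset.exists_max_image Finset.univ (fun i => ‖ω i‖) Finset.univ_nonempty
  have e : ‖ω i‖ = ‖ω‖ := le_antisymm (norm_le_pi_norm ω i)
    ((pi_norm_le_iff_of_nonneg (norm_nonneg _)).2 fun j => hi j (Finset.mem_univ j))
  refine ⟨ω i, fun h0 => h ?_, e⟩
  rw [h0, norm_zero] at e
  exact norm_eq_zero.1 e.symm

theorem usa_norm_zpow {ω : ι → ℚ_[p]} (h : ω ≠ 0) : ∃ n : ℤ, ‖ω‖ = (p : ℝ) ^ n := by
  obtain ⟨t, h0, ht⟩ := usa_coord h
  exact ⟨-t.valuation, by rw [← ht, Padic.norm_eq_zpow_neg_valuation h0]⟩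

omit [Fintype ι] in
theorem usa_dense : DenseRange fun (r : ι → ℚ) (i : ι) => (r i : ℚ_[p]) :=
  DenseRange.piMap fun _ => Padic.denseRange_ratCast p

omit [Fintype ι] in
theorem zero_mem_Sig (δ : Dat p ι) : 0 ∈ Sig δ :=
  fun _ => Eventually.of_forall fun _ c => by rw [add_zero]

omit [Fintype ι] in
theorem add_mem_Sig {δ : Dat p ι} {a b : ι → ℚ_[p]} (ha : a ∈ Sig δ) (hb : b ∈ Sig δ) :
    a + b ∈ Sig δ := by
  intro l
  filter_upwards [ha l, hb l] with k h1 h2 c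
  rw [← add_assoc, h2, h1]

theorem IvD.isClosed_Sig {δ : Dat p ι} (h : IvD δ) : IsClosed (Sig δ) := by
  have e : Sig δ = ⋂ l, usa_SigL δ l := Set.ext fun ω => by rw [Set.mem_iInter, usa_mem_Sig]
  rw [e]
  exact isClosed_iInter fun l => (usa_clopen_SigL h l).1

theorem IvD.smul_mem_Sig {δ : Dat p ι} (h : IvD δ) {ω : ι → ℚ_[p]} (hω : ω ∈ Sig δ) {s : ℚ_[p]}
    (hs : ‖s‖ ≤ 1) : s • ω ∈ Sig δ := by
  have hn : ∀ n : ℕ, (n : ℚ_[p]) • ω ∈ Sig δ := by
    intro n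
    induction n with
    | zero => rw [Nat.cast_zero, zero_smul]; exact zero_mem_Sig δ
    | succ n ih => rw [Nat.cast_succ, add_smul, one_smul]; exact add_mem_Sig ih hω
  have key : ∀ x : ℤ_[p], (x : ℚ_[p]) • ω ∈ Sig δ := fun x =>
    PadicInt.denseRange_natCast.induction_on x
      (h.isClosed_Sig.preimage (continuous_subtype_val.smul continuous_const))
      fun n => by rw [PadicInt.coe_natCast]; exact hn n
  exact key ⟨s, hs⟩

omit [Fintype ι] in
theorem smul_mem_Lam {δ : Dat p ι} {d : ι → ℚ_[p]} (hd : d ∈ Lam δ) (s : ℚ_[p]) :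
    s • d ∈ Lam δ := by
  intro t
  rw [smul_smul]
  exact hd _

theorem IvD.isClosed_Lam {δ : Dat p ι} (h : IvD δ) : IsClosed (Lam δ) := by
  have e : Lam δ = ⋂ s : ℚ_[p], (fun d => s • d) ⁻¹' Sig δ :=
    Set.ext fun d => by rw [Set.mem_iInter]; rfl
  rw [e]
  exact isClosed_iInter fun s => h.isClosed_Sig.preimage (continuous_const_smul s)

theorem IvD.lam_of_unbdd {δ : Dat p ι} (h : IvD δ) (hu : ∀ R : ℝ, ∃ ω ∈ Sig δ, R ≤ ‖ω‖) :
    ∃ d ∈ Lam δ, ‖d‖ = 1 := by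
  let C : ℕ → Set (ι → ℚ_[p]) := fun n =>
    Metric.sphere 0 1 ∩ ⋂ s : ℚ_[p], ⋂ _ : ‖s‖ ≤ n, (fun d => s • d) ⁻¹' Sig δ
  have hcl : ∀ n, IsClosed (⋂ s : ℚ_[p], ⋂ _ : ‖s‖ ≤ (n : ℕ), (fun d => s • d) ⁻¹' Sig δ) :=
    fun n => isClosed_iInter fun s => isClosed_iInter fun _ =>
      h.isClosed_Sig.preimage (continuous_const_smul s)
  have hne : ∀ n, (C n).Nonempty := by
    intro n
    obtain ⟨ω, hω, hR⟩ := hu (n + 1)
    have hn : (0 : ℝ) ≤ n := Nat.cast_nonneg n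
    have hp : 0 < ‖ω‖ := by linarith
    obtain ⟨t, h0, ht⟩ := usa_coord (norm_pos_iff.1 hp)
    refine ⟨t⁻¹ • ω, ?_, Set.mem_iInter₂.2 fun s hs => ?_⟩
    · rw [mem_sphere_zero_iff_norm, norm_smul, norm_inv, ht, inv_mul_cancel₀ hp.ne']
    · show s • t⁻¹ • ω ∈ Sig δ
      rw [smul_smul]
      refine h.smul_mem_Sig hω ?_
      rw [norm_mul, norm_inv, ht, ← div_eq_mul_inv, div_le_one hp]
      linarith
  obtain ⟨d, hd⟩ := IsCompact.nonempty_iInter_of_sequence_nonempty_isCompact_isClosed C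
    (fun n d hd => ⟨hd.1, Set.mem_iInter₂.2 fun s hs => Set.mem_iInter₂.1 hd.2 s
      (hs.trans (by exact_mod_cast Nat.le_succ n))⟩) hne
    ((isCompact_sphere 0 1).inter_right (hcl 0)) fun n => Metric.isClosed_sphere.inter (hcl n)
  rw [Set.mem_iInter] at hd
  refine ⟨d, fun s => ?_, mem_sphere_zero_iff_norm.1 (hd 0).1⟩
  obtain ⟨n, hn⟩ := exists_nat_ge ‖s‖
  exact Set.mem_iInter₂.1 (hd n).2 s hn

omit [Fintype ι] in
theorem sig_shD {a : ℚ_[p]} (ha : a ≠ 0) (e : ℤ) (δ : Dat p ι) (ω : ι → ℚ_[p]) :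
    ω ∈ Sig (shD a e δ) ↔ a • ω ∈ Sig δ := by
  constructor
  · intro h l
    filter_upwards [(tendsto_atTop_add_const_right atTop (-e) tendsto_id).eventually (h (l - e))]
      with k hk c
    have := hk (a⁻¹ • c)
    simp only [shD, id, smul_add, smul_inv_smul₀ ha, neg_add_cancel_right, sub_add_cancel] at this
    exact this
  · intro h l
    filter_upwards [(tendsto_atTop_add_const_right atTop e tendsto_id).eventually (h (l + e))]
      with k hk c
    simp only [shD, smul_add]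
    exact hk (a • c)

omit [Fintype ι] in
theorem lam_shD {a : ℚ_[p]} (ha : a ≠ 0) (e : ℤ) (δ : Dat p ι) : Lam (shD a e δ) = Lam δ := by
  ext d
  constructor
  · intro h s
    have := (sig_shD ha e δ _).1 (h (a⁻¹ * s))
    rwa [smul_smul, mul_inv_cancel_left₀ ha] at this
  · intro h s
    rw [sig_shD ha, smul_smul]
    exact h _

/-- A countable family of clopen conditions has a common solution on a measurable set. -/
theorem usa_meas {W κ : Type} [MeasurableSpace W] [Countable κ] [Nonempty κ]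
    (S : W → κ → Set (ι → ℚ_[p])) (hc : ∀ w j, IsClopen (S w j))
    (hm : ∀ j ω, MeasurableSet {w | ω ∈ S w j}) {K : Set (ι → ℚ_[p])} (hK : IsCompact K)
    (hK' : IsOpen K) : MeasurableSet {w | ∃ ω ∈ K, ∀ j, ω ∈ S w j} := by
  obtain ⟨f, hf⟩ := exists_surjective_nat κ
  have hcl : ∀ w m, IsClopen (⋂ i ∈ Finset.range m, S w (f i)) := fun w m =>
    isClopen_biInter_finset fun i _ => hc w (f i)
  have e : {w | ∃ ω ∈ K, ∀ j, ω ∈ S w j} = ⋂ m : ℕ, ⋃ r : ι → ℚ,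
      ⋃ _ : (fun i => (r i : ℚ_[p])) ∈ K, ⋂ i ∈ Finset.range m,
        {w | (fun i => (r i : ℚ_[p])) ∈ S w (f i)} := by
    ext w
    simp only [Set.mem_iInter, Set.mem_iUnion]
    constructor
    · rintro ⟨ω, h1, h2⟩ m
      obtain ⟨r, hr⟩ := usa_dense.exists_mem_open (hK'.inter (hcl w m).2)
        ⟨ω, h1, Set.mem_iInter₂.2 fun i _ => h2 (f i)⟩
      exact ⟨r, hr.1, fun i hi => Set.mem_iInter₂.1 hr.2 i hi⟩
    · intro h
      obtain ⟨ω, hω⟩ := IsCompact.nonempty_iInter_of_sequence_nonempty_isCompact_isClosed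
        (fun m => K ∩ ⋂ i ∈ Finset.range m, S w (f i))
        (fun m x hx => ⟨hx.1, Set.mem_iInter₂.2 fun i hi => Set.mem_iInter₂.1 hx.2 i
          (Finset.mem_range.2 ((Finset.mem_range.1 hi).trans (Nat.lt_succ_self m)))⟩)
        (fun m => by
          obtain ⟨r, h1, h2⟩ := h m
          exact ⟨_, h1, Set.mem_iInter₂.2 h2⟩)
        (hK.inter_right (hcl w 0).1) fun m => hK.isClosed.inter (hcl w m).1
      rw [Set.mem_iInter] at hω
      refine ⟨ω, (hω 0).1, fun j => ?_⟩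
      obtain ⟨i, rfl⟩ := hf j
      exact Set.mem_iInter₂.1 (hω (i + 1)).2 i (Finset.self_mem_range_succ i)
  rw [e]
  exact MeasurableSet.iInter fun m => MeasurableSet.iUnion fun r => MeasurableSet.iUnion fun _ =>
    MeasurableSet.iInter fun i => MeasurableSet.iInter fun _ => hm _ _

variable {W : Type} [TopologicalSpace W] [PolishSpace W] [MeasurableSpace W] [BorelSpace W]
  (φ : Flow (ι → ℚ_[p]) W) (ν : Measure W)

theorem sig_flow (c : ι → ℚ_[p]) (w : W) : Sig (dat φ ν (φ c w)) = Sig (dat φ ν w) := by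
  ext ω
  constructor
  · intro h l
    filter_upwards [h l, usa_ev (p := p) ‖c‖] with k hk hc v
    have := hk (v - c)
    rwa [dat_flow φ ν l hc, dat_flow φ ν l hc, sub_add_cancel, add_right_comm, sub_add_cancel]
      at this
  · intro h l
    filter_upwards [h l, usa_ev (p := p) ‖c‖] with k hk hc v
    rw [dat_flow φ ν l hc, dat_flow φ ν l hc, add_right_comm, hk]

theorem lam_flow (c : ι → ℚ_[p]) (w : W) : Lam (dat φ ν (φ c w)) = Lam (dat φ ν w) := by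
  unfold Lam
  rw [sig_flow]

theorem usa_meas_SigL (l : ℤ) (ω : ι → ℚ_[p]) :
    MeasurableSet {w | ω ∈ usa_SigL (dat φ ν w) l} := by
  have e : {w | ω ∈ usa_SigL (dat φ ν w) l} = ⋃ k0 : ℤ, ⋂ k : ℤ, ⋂ _ : k0 ≤ k, ⋂ r : ι → ℚ,
      {w | dat φ ν w k l ((fun i => (r i : ℚ_[p])) + ω) = dat φ ν w k l fun i => (r i : ℚ_[p])} := by
    ext w
    simp only [Set.mem_iInter, Set.mem_iUnion]
    refine eventually_atTop.trans (exists_congr fun k0 => forall₂_congr fun k _ =>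
      ⟨fun h r => h _, fun h c => ?_⟩)
    obtain ⟨r, hr⟩ := exists_rat_V c l
    have h1 := ivD_dat φ ν w k l (fun i => (r i : ℚ_[p])) _ hr
    have h2 := ivD_dat φ ν w k l ((fun i => (r i : ℚ_[p])) + ω) _ hr
    rw [add_sub_cancel] at h1
    rw [add_right_comm, add_sub_cancel] at h2
    rw [h1, h2]
    exact h r
  have hm : ∀ (k : ℤ) (c : ι → ℚ_[p]), Measurable fun w => dat φ ν w k l c := fun k c =>
    Measurable.comp (g := fun z : W × (ι → ℚ_[p]) => dat φ ν z.1 k l z.2) (f := fun w => (w, c))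
      (measurable_dat φ ν k l) measurable_prodMk_right
  rw [e]
  exact MeasurableSet.iUnion fun k0 => MeasurableSet.iInter fun k => MeasurableSet.iInter fun _ =>
    MeasurableSet.iInter fun r => measurableSet_eq_fun (hm k _) (hm k _)

theorem measurableSet_sig {K : Set (ι → ℚ_[p])} (hK : IsCompact K) (hK' : IsOpen K) :
    MeasurableSet {w | ∃ ω ∈ K, ω ∈ Sig (dat φ ν w)} :=
  usa_meas (fun w l => usa_SigL (dat φ ν w) l) (fun w l => usa_clopen_SigL (ivD_dat φ ν w) l)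
    (usa_meas_SigL φ ν) hK hK'

theorem measurableSet_lam {K : Set (ι → ℚ_[p])} (hK : IsCompact K) (hK' : IsOpen K) :
    MeasurableSet {w | ∃ d ∈ K, d ∈ Lam (dat φ ν w)} := by
  have h := usa_meas (κ := ℚ × ℤ)
    (fun w j => (fun d => (j.1 : ℚ_[p]) • d) ⁻¹' usa_SigL (dat φ ν w) j.2)
    (fun w j => (usa_clopen_SigL (ivD_dat φ ν w) j.2).preimage (continuous_const_smul _))
    (fun j d => usa_meas_SigL φ ν j.2 _) hK hK'
  have e : {w | ∃ d ∈ K, d ∈ Lam (dat φ ν w)} = {w | ∃ d ∈ K, ∀ j : ℚ × ℤ,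
      d ∈ (fun d => (j.1 : ℚ_[p]) • d) ⁻¹' usa_SigL (dat φ ν w) j.2} := by
    ext w
    refine exists_congr fun d => and_congr_right fun _ => ⟨fun h j => h j.1 j.2, fun h s => ?_⟩
    exact (Padic.denseRange_ratCast p).induction_on s
      ((ivD_dat φ ν w).isClosed_Sig.preimage (continuous_id.smul continuous_const))
      fun q l => h (q, l)
  rw [e]
  exact h

theorem measurableSet_lam_ne : MeasurableSet {w | ∃ d ∈ Lam (dat φ ν w), d ≠ 0} := by
  have e : {w | ∃ d ∈ Lam (dat φ ν w), d ≠ 0} =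
      {w | ∃ d ∈ Metric.sphere (0 : ι → ℚ_[p]) 1, d ∈ Lam (dat φ ν w)} := by
    ext w
    constructor
    · rintro ⟨d, hd, h0⟩
      obtain ⟨t, -, ht⟩ := usa_coord h0
      refine ⟨t⁻¹ • d, ?_, smul_mem_Lam hd _⟩
      rw [mem_sphere_zero_iff_norm, norm_smul, norm_inv, ht, inv_mul_cancel₀ (norm_ne_zero_iff.2 h0)]
    · rintro ⟨d, h1, hd⟩
      refine ⟨d, hd, ?_⟩
      rintro rfl
      simp at h1
  rw [e]
  exact measurableSet_lam φ ν (isCompact_sphere 0 1)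
    (IsUltrametricDist.isOpen_sphere _ one_ne_zero)

theorem mem_Sig_of_dat {w : W} {ω : ι → ℚ_[p]} (h : dat φ ν (φ ω w) = dat φ ν w) :
    ω ∈ Sig (dat φ ν w) := by
  intro l
  filter_upwards [usa_ev (p := p) ‖ω‖] with k hk c
  rw [← dat_flow φ ν l hk, h]

variable {φ ν}

theorem Gd.sig {w : W} (h : Gd φ ν w) {ω : ι → ℚ_[p]} (hω : ω ∈ Sig (dat φ ν w)) {k : ℤ}
    (hk : ‖ω‖ ≤ (p : ℝ) ^ k) (l : ℤ) (c : ι → ℚ_[p]) :
    dat φ ν w k l (c + ω) = dat φ ν w k l c := by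
  by_cases hc : l ≤ k ∧ ‖c‖ ≤ (p : ℝ) ^ k
  · obtain ⟨K, hK, hkK⟩ := ((hω l).and (eventually_ge_atTop k)).exists
    have hc' : ‖c + ω‖ ≤ (p : ℝ) ^ k := norm_add_V hc.2 hk
    have e1 : dat φ ν w K k c = dat φ ν w K k 0 := by
      rw [← ivD_dat φ ν w K k 0 c hc.2, zero_add]
    have e2 : dat φ ν w K k (c + ω) = dat φ ν w K k 0 := by
      rw [← ivD_dat φ ν w K k 0 _ hc', zero_add]
    have e3 := hK c
    rw [h.chain K k l _ hc.1 hkK, h.chain K k l _ hc.1 hkK, e1, e2] at e3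
    have e4 := (ENNReal.mul_right_inj (h.pos K k hkK)
      ((h.bd K k 0).trans_lt ENNReal.ofReal_lt_top).ne).1 e3
    simp only [dat, if_pos hc, if_pos (And.intro hc.1 hc'), e4]
  · have hc' : ¬ (l ≤ k ∧ ‖c + ω‖ ≤ (p : ℝ) ^ k) := fun h1 => hc ⟨h1.1, by
      have := norm_add_V h1.2 (show ‖-ω‖ ≤ (p : ℝ) ^ k by rwa [norm_neg])
      rwa [add_neg_cancel_right] at this⟩
    simp only [dat, if_neg hc, if_neg hc']

theorem Sys.lam [IsProbabilityMeasure ν] {T : W ≃ᵐ W} {a : ℚ_[p]} {e : ℤ} (h : Sys φ ν T a e)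
    (he : e < 0) :
    ∀ᵐ w ∂ν, (∃ ω ∈ Sig (dat φ ν w), ω ≠ 0) → ∃ d ∈ Lam (dat φ ν w), d ≠ 0 := by
  have ha : a ≠ 0 := norm_pos_iff.1 (h.nrm ▸ usa_pos e)
  have hp0 : (p : ℝ) ≠ 0 := (zero_lt_one.trans usa_one_lt).ne'
  let R : ℤ → Set W := fun n =>
    {w | ∃ ω ∈ Metric.sphere (0 : ι → ℚ_[p]) ((p : ℝ) ^ n), ω ∈ Sig (dat φ ν w)}
  have hR : ∀ n, MeasurableSet (R n) := fun n => measurableSet_sig φ ν (isCompact_sphere _ _)
    (IsUltrametricDist.isOpen_sphere _ (usa_pos n).ne')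
  let B : ℤ → Set W := fun n => R n ∩ ⋂ n' : ℤ, ⋂ _ : n < n', (R n')ᶜ
  have hB : ∀ n, MeasurableSet (B n) := fun n => (hR n).inter
    (MeasurableSet.iInter fun n' => MeasurableSet.iInter fun _ => (hR n').compl)
  have hRT : ∀ᵐ w ∂ν, ∀ n, w ∈ R n ↔ T w ∈ R (n + e) := by
    filter_upwards [h.dat_eq] with w hw n
    constructor
    · rintro ⟨ω, h1, h2⟩
      rw [← hw, sig_shD ha] at h2
      refine ⟨a • ω, ?_, h2⟩
      rw [mem_sphere_zero_iff_norm] at h1 ⊢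
      rw [norm_smul, h.nrm, h1, zpow_add₀ hp0, mul_comm]
    · rintro ⟨ω, h1, h2⟩
      refine ⟨a⁻¹ • ω, ?_, ?_⟩
      · rw [mem_sphere_zero_iff_norm] at h1 ⊢
        rw [norm_smul, norm_inv, h.nrm, h1, zpow_add₀ hp0, mul_comm,
          mul_inv_cancel_right₀ (usa_pos e).ne']
      · rw [← hw, sig_shD ha, smul_inv_smul₀ ha]
        exact h2
  have hBT : ∀ n, ν (B (n + e)) = ν (B n) := by
    intro n
    have h1 : ν (B (n + e)) = ν (T ⁻¹' B (n + e)) := by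
      rw [← Measure.map_apply T.measurable (hB _), h.inv]
    rw [h1]
    refine measure_congr ?_
    filter_upwards [hRT] with w hw
    refine propext ⟨fun h2 => ⟨(hw n).2 h2.1, Set.mem_iInter₂.2 fun n' hn' h3 => ?_⟩,
      fun h2 => ⟨(hw n).1 h2.1, Set.mem_iInter₂.2 fun n' hn' h3 => ?_⟩⟩
    · exact Set.mem_iInter₂.1 h2.2 (n' + e) (by omega) ((hw n').1 h3)
    · refine Set.mem_iInter₂.1 h2.2 (n' - e) (by omega) ((hw (n' - e)).2 ?_)
      rwa [sub_add_cancel]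
  have hB0 : ∀ n, ν (B n) = 0 := by
    intro n
    have h1 : ∀ j : ℕ, ν (B (n + j * e)) = ν (B n) := by
      intro j
      induction j with
      | zero => simp
      | succ j ih => rw [← ih, ← hBT (n + j * e)]; congr 2; push_cast; ring
    have h2 : Pairwise (Function.onFun Disjoint fun j : ℕ => B (n + j * e)) := by
      refine pairwise_disjoint_on _ |>.2 fun i j hij => Set.disjoint_left.2 fun w h3 h4 => ?_
      have : (i : ℤ) < j := by exact_mod_cast hij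
      exact Set.mem_iInter₂.1 h4.2 (n + i * e) (by nlinarith) h3.1
    by_contra h0
    have h3 := measure_iUnion (μ := ν) h2 fun j => hB _
    simp only [h1] at h3
    rw [ENNReal.tsum_const_eq_top_of_ne_zero h0] at h3
    exact measure_ne_top _ _ h3
  have hae : ∀ᵐ w ∂ν, ∀ n, w ∉ B n := ae_all_iff.2 fun n => measure_eq_zero_iff_ae_notMem.1 (hB0 n)
  filter_upwards [hae] with w hw
  rintro ⟨ω, hω, h0⟩
  obtain ⟨d, hd, h1⟩ := (ivD_dat φ ν w).lam_of_unbdd (by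
    intro R0
    by_contra hno
    obtain ⟨k, hk⟩ := (usa_ev (p := p) R0).exists
    obtain ⟨n0, hn0⟩ := usa_norm_zpow h0
    obtain ⟨n, hn, hmax⟩ := Int.exists_greatest_of_bdd (P := fun n => w ∈ R n)
      ⟨k, by
        rintro n ⟨x, h1, h2⟩
        by_contra hlt
        refine hno ⟨x, h2, hk.trans ?_⟩
        rw [mem_sphere_zero_iff_norm.1 h1]
        exact zpow_le_zpow_right₀ usa_one_lt.le (not_le.1 hlt).le⟩
      ⟨n0, ω, mem_sphere_zero_iff_norm.2 hn0, hω⟩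
    exact hw n ⟨hn, Set.mem_iInter₂.2 fun n' hn' h3 => absurd (hmax n' h3) (not_le.2 hn')⟩)
  refine ⟨d, hd, ?_⟩
  rintro rfl
  simp at h1

end Pool.Agent.EQ
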