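import Pool.Agent.P.MP_ad7a55_nt.UHb
import Pool.Agent.P.MP_ad7a55_nt.USa
import Pool.Agent.P.MP_ad7a55_nt.UCv
import Pool.Agent.P.MP_ad7a55_nt.UAt2

/-! Almost every leafwise measure is invariant under a line. -/

set_option autoImplicit false

noncomputable section

open MeasureTheory Topology Filter UpperHalfPlane
open scoped MatrixGroups ENNReal BoundedContinuousFunction

namespace Pool.Agent.EQ

theorem uhc_lim {V W G T : Type} [NormedAddCommGroup V] [ProperSpace V] [TopologicalSpace W]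
    [T2Space W] [FirstCountableTopology W] [Monoid G] [TopologicalSpace G] [MulAction G W]
    [ContinuousSMul G W] (φ : Flow V W) (f : W → T → ℝ≥0∞) {C : Set W} (hCc : IsCompact C)
    (hCf : ContinuousOn f C) {g : ℕ → G} (hg : Tendsto g atTop (𝓝 1)) {y : ℕ → W}
    (hy : ∀ n, y n ∈ C) {ω : ℕ → V} (hz : ∀ n, φ (ω n) (g n • y n) ∈ C) {R R' : ℝ}
    (hω : ∀ n, R ≤ ‖ω n‖) (hω' : ∀ n, ‖ω n‖ ≤ R')
    (hd : ∀ t, ∀ᶠ n in atTop, f (φ (ω n) (g n • y n)) t = f (y n) t) :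
    ∃ y₀ ∈ C, ∃ ω₀ : V, R ≤ ‖ω₀‖ ∧ f (φ ω₀ y₀) = f y₀ := by
  have hK : IsCompact (C ×ˢ (Metric.closedBall (0 : V) R' ∩ {ω | R ≤ ‖ω‖})) :=
    hCc.prod ((isCompact_closedBall _ _).inter_right (isClosed_le continuous_const continuous_norm))
  obtain ⟨⟨y₀, ω₀⟩, ⟨hy₀, -, hω₀⟩, s, hs, hlim⟩ := hK.tendsto_subseq
    (x := fun n => (y n, ω n)) fun n => ⟨hy n, mem_closedBall_zero_iff.2 (hω' n), hω n⟩
  have ly : Tendsto (fun n => y (s n)) atTop (𝓝 y₀) := (continuous_fst.tendsto _).comp hlim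
  have lω : Tendsto (fun n => ω (s n)) atTop (𝓝 ω₀) := (continuous_snd.tendsto _).comp hlim
  have lg : Tendsto (fun n => g (s n) • y (s n)) atTop (𝓝 y₀) := by
    simpa using (hg.comp hs.tendsto_atTop).smul ly
  have lz : Tendsto (fun n => φ (ω (s n)) (g (s n) • y (s n))) atTop (𝓝 (φ ω₀ y₀)) :=
    (φ.cont'.tendsto (ω₀, y₀)).comp (lω.prodMk_nhds lg)
  have hz₀ : φ ω₀ y₀ ∈ C :=
    hCc.isClosed.mem_of_tendsto lz (Eventually.of_forall fun n => hz (s n))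
  have dy := (hCf y₀ hy₀).tendsto.comp
    (tendsto_nhdsWithin_iff.2 ⟨ly, Eventually.of_forall fun n => hy (s n)⟩)
  have dz := (hCf _ hz₀).tendsto.comp
    (tendsto_nhdsWithin_iff.2 ⟨lz, Eventually.of_forall fun n => hz (s n)⟩)
  refine ⟨y₀, hy₀, ω₀, hω₀, funext fun t => ?_⟩
  exact tendsto_nhds_unique_of_eventuallyEq (tendsto_pi_nhds.1 dz t) (tendsto_pi_nhds.1 dy t)
    (hs.tendsto_atTop.eventually (hd t))

variable {p q : ℕ} [Fact p.Prime] [Fact q.Prime] {κ : Type} [Fintype κ]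
  {M : ℕ} {h : κ → SL(2, ℚ_[q])} {ν : Measure (κ → X3 p q)}

theorem Jn.hp_main (H : Jn p q M h ν) {J : Finset κ} (hJ : J.Nonempty)
    (h₀ : ∀ᵐ w ∂ν, ∀ j ∉ J, Conc (dat (fl3 p q κ) ν w) j)
    (h₁ : ∀ᵐ w ∂ν, ∀ j ∈ J, Thin (dat (fl3 p q κ) ν w) j) :
    ¬ ∀ᵐ w ∂ν, ∀ ω ∈ Sig (dat (fl3 p q κ) ν w), ω = 0 := by
  intro hS
  have := H.prob
  obtain ⟨ε, R, R', hε, hR, hC⟩ := H.hp_pairs hJ h₀ h₁
  obtain ⟨C, hCc, hCA, hCν, hCf⟩ := lusin ν (measurable_dq (fl3 p q κ) ν)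
    (A := {w | Gd (fl3 p q κ) ν w ∧ ∀ ω ∈ Sig (dat (fl3 p q κ) ν w), ω = 0})
    ((ae_Gd (fl3 p q κ) ν).and hS) hε
  obtain ⟨N, hN⟩ := (𝓝 (1 : κ → G3 p q)).exists_antitone_basis
  have hex := fun n : ℕ => hC C hCc (fun w hw => (hCA hw).1) hCν (N n) (hN.mem n) n
  choose m hm y hy g hg ω hz hω hω' hd using hex
  obtain ⟨y₀, hy₀, ω₀, hω₀, he⟩ := uhc_lim (fl3 p q κ) (dq (fl3 p q κ) ν) hCc hCf
    (hN.tendsto hg) hy hz hω hω' fun t => by
      filter_upwards [eventually_ge_atTop (-t.2.1).toNat] with n hn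
      have h1 := hm n
      have h2 : -(m n : ℤ) ≤ t.2.1 := by omega
      exact congrFun (hd n t.1 t.2.1 h2) _
  have h0 := (hCA hy₀).2 ω₀ (mem_Sig_of_dat _ _ (dat_eq_of_dq _ _ he))
  rw [h0, norm_zero] at hω₀
  exact absurd hR (not_lt.2 hω₀)

theorem Jn.not_conc (H : Jn p q M h ν) [Nonempty κ] :
    ¬ ∀ᵐ w ∂ν, ∀ j, Conc (dat (fl3 p q κ) ν w) j := by
  intro hc
  have := H.prob
  obtain ⟨k₀⟩ := ‹Nonempty κ›
  exact cover H.ne H.pos ν H.a k₀ (H.marg k₀)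
    (D := {w | Gd (fl3 p q κ) ν w ∧ ∀ j, Conc (dat (fl3 p q κ) ν w) j})
    (fun w hw v hv => hw.1.once hw.2 hv.1) ((ae_Gd (fl3 p q κ) ν).and hc)

theorem Jn.lam_a (H : Jn p q M h ν) :
    ∀ᵐ w ∂ν, Lam (dat (fl3 p q κ) ν (al p q κ M • w)) = Lam (dat (fl3 p q κ) ν w) := by
  filter_upwards [H.dat_a] with w hw
  have h1 := hw 1
  rw [← h1, lam_shD (pow_ne_zero _ (Nat.cast_ne_zero.2 (Fact.out : p.Prime).ne_zero)), mul_one]

theorem Jn.lam_ne (H : Jn p q M h ν) [Nonempty κ] :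
    ∀ᵐ w ∂ν, ∃ d ∈ Lam (dat (fl3 p q κ) ν w), d ≠ 0 := by
  classical
  have := H.prob
  by_contra hne
  let A : Finset κ → Set (κ → X3 p q) := fun J =>
    {w | (¬ ∃ d ∈ Lam (dat (fl3 p q κ) ν w), d ≠ 0) ∧
      ∀ j, Conc (dat (fl3 p q κ) ν w) j ↔ j ∉ J}
  obtain ⟨J, hJ⟩ : ∃ J, ν (A J) ≠ 0 := by
    by_contra hall
    push Not at hall
    refine hne (ae_iff.2 (measure_mono_null (fun w hw => ?_) (measure_iUnion_null hall)))
    exact Set.mem_iUnion.2 ⟨Finset.univ.filter fun j => ¬ Conc (dat (fl3 p q κ) ν w) j, hw,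
      fun j => by simp⟩
  have hm : MeasurableSet (A J) := by
    have e : A J = {w | ∃ d ∈ Lam (dat (fl3 p q κ) ν w), d ≠ 0}ᶜ ∩
        ⋂ j, if j ∈ J then {w | Conc (dat (fl3 p q κ) ν w) j}ᶜ
          else {w | Conc (dat (fl3 p q κ) ν w) j} := by
      ext w
      simp only [A, Set.mem_ofPred_eq, Set.mem_inter_iff, Set.mem_compl_iff, Set.mem_iInter]
      refine and_congr Iff.rfl (forall_congr' fun j => ?_)
      by_cases hj : j ∈ J <;> simp [hj]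
    rw [e]
    refine (measurableSet_lam_ne _ _).compl.inter (MeasurableSet.iInter fun j => ?_)
    split_ifs
    · exact (measurableSet_conc _ _ j).compl
    · exact measurableSet_conc _ _ j
  have hi : ∀ v w, w ∈ A J → fl3 p q κ v w ∈ A J := fun v w hw =>
    ⟨by rw [lam_flow]; exact hw.1, fun j => (conc_flow _ _ j v w).trans (hw.2 j)⟩
  have ha : ∀ᵐ w ∂ν, al p q κ M • w ∈ A J ↔ w ∈ A J := by
    filter_upwards [H.lam_a, H.dat_a] with w h1 h2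
    have h3 : ∀ j, Conc (dat (fl3 p q κ) ν (al p q κ M • w)) j ↔ Conc (dat (fl3 p q κ) ν w) j := by
      intro j
      rw [← h2 1, conc_shD (H.sys 1).nrm, mul_one]
    simp only [A, Set.mem_ofPred_eq, h1, h3]
  have hb : ∀ᵐ w ∂ν, be p q h M • w ∈ A J ↔ w ∈ A J := by
    filter_upwards [H.dat_b] with w h1
    simp only [A, Set.mem_ofPred_eq, h1]
  have H' := H.cond hm hJ ha hb
  have := H'.prob
  have hd := dat_cond (fl3 p q κ) ν hm hJ hi
  have hmem : ∀ᵐ w ∂ProbabilityTheory.cond ν (A J), w ∈ A J := ProbabilityTheory.ae_cond_mem hm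
  have he : (-(2 * (M * 1) : ℕ) : ℤ) < 0 := by
    have := H.pos
    omega
  rcases J.eq_empty_or_nonempty with rfl | hJ'
  · refine H'.not_conc ?_
    filter_upwards [hd, hmem] with w h1 h2 j
    rw [h1]
    exact (h2.2 j).2 (Finset.notMem_empty j)
  · refine H'.hp_main hJ' ?_ ?_ ?_
    · filter_upwards [hd, hmem] with w h1 h2 j hj
      rw [h1]
      exact (h2.2 j).2 hj
    · filter_upwards [hd, hmem, ae_all_iff.2 fun j => (H'.sys 1).dich he j] with w h1 h2 h3 j hj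
      refine (h3 j).resolve_left fun hc => ?_
      rw [h1] at hc
      exact (h2.2 j).1 hc hj
    · filter_upwards [hd, hmem, (H'.sys 1).lam he] with w h1 h2 h3 ω hω
      by_contra h0
      have h4 := h3 ⟨ω, hω, h0⟩
      rw [h1] at h4
      exact h2.1 h4

end Pool.Agent.EQ
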