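import Pool.Agent.P.MP_ad7a55_nt.UFr
import Pool.Agent.P.MP_ad7a55_nt.Exc2
import Pool.Agent.P.MP_ad7a55_nt.TGa

/-! The invariants of a map between two framed lattices. -/

set_option autoImplicit false

noncomputable section

open MeasureTheory Topology Filter UpperHalfPlane
open scoped MatrixGroups ENNReal BoundedContinuousFunction

namespace Pool.Agent.EQ

/-- The lattice spanned by the columns. -/
def colL (g : SL(2, ℝ)) : Lt :=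
  sp ((g 0 0 : ℂ) - g 1 0 * Complex.I) ((g 0 1 : ℂ) - g 1 1 * Complex.I)

theorem uhm_mem {g : SL(2, ℝ)} {z : ℂ} :
    z ∈ colL g ↔ ∃ m n : ℤ, z = frame_ph g (m : ℚ) (n : ℚ) := by
  rw [colL, mem_sp]
  refine exists₂_congr fun m n => ?_
  have e : frame_ph g (m : ℚ) (n : ℚ) = m * ((g 0 0 : ℂ) - g 1 0 * Complex.I) +
      n * ((g 0 1 : ℂ) - g 1 1 * Complex.I) := by
    simp only [frame_ph]
    push_cast
    ring
  rw [e]

theorem uhm_rl {g₁ g₂ : SL(2, ℝ)} {P : Matrix (Fin 2) (Fin 2) ℝ} {η : Matrix (Fin 2) (Fin 2) ℤ}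
    (h : P * (g₁ : Matrix (Fin 2) (Fin 2) ℝ) = (g₂ : Matrix (Fin 2) (Fin 2) ℝ) * η.map (↑))
    (a b : ℚ) :
    rl ⟨(P 0 0 + P 1 1) / 2, (P 0 1 - P 1 0) / 2⟩ ⟨(P 0 0 - P 1 1) / 2, -(P 0 1 + P 1 0) / 2⟩
      (frame_ph g₁ a b) = frame_ph g₂ (η 0 0 * a + η 0 1 * b) (η 1 0 * a + η 1 1 * b) := by
  have e00 := congrFun (congrFun h 0) 0
  have e01 := congrFun (congrFun h 0) 1
  have e10 := congrFun (congrFun h 1) 0
  have e11 := congrFun (congrFun h 1) 1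
  simp only [Matrix.mul_apply, Fin.sum_univ_two, Matrix.map_apply] at e00 e01 e10 e11
  apply Complex.ext
  · simp only [rl, frame_ph, Complex.add_re, Complex.mul_re, Complex.sub_re, Complex.sub_im,
      Complex.mul_im, Complex.ofReal_re, Complex.ofReal_im, Complex.I_re, Complex.I_im,
      Complex.conj_re, Complex.conj_im]
    push_cast
    linear_combination (a : ℝ) * e00 + (b : ℝ) * e01
  · simp only [rl, frame_ph, Complex.add_im, Complex.mul_re, Complex.sub_re, Complex.sub_im,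
      Complex.mul_im, Complex.ofReal_re, Complex.ofReal_im, Complex.I_re, Complex.I_im,
      Complex.conj_re, Complex.conj_im]
    push_cast
    linear_combination -(a : ℝ) * e10 - (b : ℝ) * e11

theorem uhm_int {g : SL(2, ℝ)} {Θ : Matrix (Fin 2) (Fin 2) ℤ} {D : ℤ}
    (h : (g : Matrix (Fin 2) (Fin 2) ℝ) * Θ.map (↑) =
      !![0, Real.sqrt (-(D : ℝ)); -Real.sqrt (-(D : ℝ)), 0] * (g : Matrix (Fin 2) (Fin 2) ℝ))
    (d : DiscL (colL g) D) :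
    ∃ x y z : ℤ, Θ 0 0 = 2 * x - D ∧ Θ 0 1 = 2 * y ∧ Θ 1 0 = 2 * z ∧ Θ 1 1 = D - 2 * x := by
  have hth : ∀ a b : ℚ, th D * frame_ph g a b =
      frame_ph g (Θ 0 0 * a + Θ 0 1 * b) (Θ 1 0 * a + Θ 1 1 * b) := fun a b => by
    rw [← uhm_rl h.symm a b, rl]
    apply Complex.ext <;> simp [th]
  have hm : ∀ a b : ℤ, ∃ m n : ℤ, D * a + (Θ 0 0 * a + Θ 0 1 * b) = 2 * m ∧
      D * b + (Θ 1 0 * a + Θ 1 1 * b) = 2 * n := fun a b => by
    have h1 := pr_mul_le.1 ((d.end_iff ((D + th D) / 2)).2 (mem_sp.2 ⟨0, 1, by simp⟩)) _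
      (uhm_mem.2 ⟨a, b, rfl⟩)
    obtain ⟨m, n, e⟩ := uhm_mem.1 h1
    have e2 : frame_ph g (D * a + (Θ 0 0 * a + Θ 0 1 * b)) (D * b + (Θ 1 0 * a + Θ 1 1 * b)) =
        frame_ph g (2 * m) (2 * n) := by
      have e3 := hth a b
      simp only [frame_ph] at e e3 ⊢
      push_cast at e e3 ⊢
      linear_combination 2 * e - e3
    obtain ⟨k1, k2⟩ := frame_ph_inj g e2
    exact ⟨m, n, by exact_mod_cast k1, by exact_mod_cast k2⟩
  obtain ⟨x, z, a1, a2⟩ := hm 1 0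
  obtain ⟨y, w, b1, -⟩ := hm 0 1
  have e00 := congrFun (congrFun h 0) 0
  have e01 := congrFun (congrFun h 0) 1
  have e10 := congrFun (congrFun h 1) 0
  have e11 := congrFun (congrFun h 1) 1
  simp only [Matrix.mul_apply, Fin.sum_univ_two, Matrix.map_apply, Matrix.of_apply,
    Matrix.cons_val', Matrix.cons_val_zero, Matrix.cons_val_one, Matrix.cons_val_fin_one]
    at e00 e01 e10 e11
  have hd := frame_det g
  have tr : ((Θ 0 0 + Θ 1 1 : ℤ) : ℝ) = 0 := by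
    push_cast
    linear_combination g 1 1 * e00 - g 0 1 * e10 + g 0 0 * e11 - g 1 0 * e01 -
      ((Θ 0 0 : ℝ) + Θ 1 1) * hd
  have tr' : Θ 0 0 + Θ 1 1 = 0 := by exact_mod_cast tr
  exact ⟨x, y, z, by linarith, by linarith, by linarith, by linarith⟩

theorem hm_of_frame {g₁ g₂ : SL(2, ℝ)} {P : Matrix (Fin 2) (Fin 2) ℝ}
    {η Θ₁ Θ₂ : Matrix (Fin 2) (Fin 2) ℤ} {D₁ D₂ s : ℤ} {R : ℝ}
    (h : P * (g₁ : Matrix (Fin 2) (Fin 2) ℝ) = (g₂ : Matrix (Fin 2) (Fin 2) ℝ) * η.map (↑))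
    (h₁ : (g₁ : Matrix (Fin 2) (Fin 2) ℝ) * Θ₁.map (↑) =
      !![0, Real.sqrt (-(D₁ : ℝ)); -Real.sqrt (-(D₁ : ℝ)), 0] * (g₁ : Matrix (Fin 2) (Fin 2) ℝ))
    (h₂ : (g₂ : Matrix (Fin 2) (Fin 2) ℝ) * Θ₂.map (↑) =
      !![0, Real.sqrt (-(D₂ : ℝ)); -Real.sqrt (-(D₂ : ℝ)), 0] * (g₂ : Matrix (Fin 2) (Fin 2) ℝ))
    (d₁ : DiscL (colL g₁) D₁) (d₂ : DiscL (colL g₂) D₂) (hs : 0 ≤ s) (hs' : s ^ 2 = D₁ * D₂)
    (hR : Bd R P) : ∃ (α β : ℂ) (B : ℤ), 0 ≤ B ∧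
      Hm η.det (2 * R ^ 2) D₁ D₂ (colL g₁) (colL g₂) α β B ∧
      (∀ a b : ℚ, rl α β (frame_ph g₁ a b) =
        frame_ph g₂ (η 0 0 * a + η 0 1 * b) (η 1 0 * a + η 1 1 * b)) ∧
      4 * B = -excW Θ₂ η Θ₁ - 2 * s * η.det ∧ (B = 0 → P 1 1 = P 0 0 ∧ P 1 0 = -P 0 1) := by
  obtain ⟨x₁, y₁, z₁, a1, a2, a3, a4⟩ := uhm_int h₁ d₁
  obtain ⟨x₂, y₂, z₂, b1, b2, b3, b4⟩ := uhm_int h₂ d₂
  have n₁ : (D₁ : ℝ) < 0 := by exact_mod_cast d₁.isD.1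
  have n₂ : (D₂ : ℝ) < 0 := by exact_mod_cast d₂.isD.1
  have hsR : (s : ℝ) ^ 2 = D₁ * D₂ := by exact_mod_cast hs'
  have hs0 : (0 : ℝ) ≤ s := by exact_mod_cast hs
  have hsq : Real.sqrt (D₁ * D₂) = s := by rw [← hsR, Real.sqrt_sq hs0]
  have hss : Real.sqrt (-(D₁ : ℝ)) * Real.sqrt (-(D₂ : ℝ)) = s := by
    rw [← Real.sqrt_mul (by linarith), neg_mul_neg, hsq]
  have hsp : (0 : ℝ) < s := by rw [← hsq]; exact Real.sqrt_pos.2 (mul_pos_of_neg_of_neg n₁ n₂)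
  obtain ⟨k, hk⟩ := Int.even_mul_pred_self s
  obtain ⟨B, hB⟩ : ∃ B : ℤ, 4 * B = -excW Θ₂ η Θ₁ - 2 * s * η.det := by
    refine ⟨k * η.det - excW !![x₂, y₂; z₂, D₂ - x₂] η !![x₁, y₁; z₁, D₁ - x₁], ?_⟩
    rw [excW_eq, excW_eq, Matrix.det_fin_two, a1, a2, a3, a4, b1, b2, b3, b4]
    simp only [Matrix.of_apply, Matrix.cons_val', Matrix.cons_val_zero, Matrix.cons_val_one,
      Matrix.cons_val_fin_one]
    linear_combination (-2 * (η 0 0 * η 1 1 - η 0 1 * η 1 0)) * hk +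
      (2 * (η 0 0 * η 1 1 - η 0 1 * η 1 0)) * hs'
  have hdet : P.det = (η.det : ℝ) := by
    have e := congrArg Matrix.det h
    rw [Matrix.det_mul, Matrix.det_mul, g₁.det_coe, g₂.det_coe, mul_one, one_mul] at e
    rw [e, Matrix.det_fin_two, Matrix.det_fin_two]
    simp
  have hW : ((excW Θ₂ η Θ₁ : ℤ) : ℝ) = excW (Θ₂.map (↑)) (η.map (↑)) (Θ₁.map (↑)) := by
    rw [excW_eq, excW_eq]
    simp only [Matrix.map_apply]
    push_cast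
    ring
  have hr := exc_real (Real.sqrt (-(D₁ : ℝ))) (Real.sqrt (-(D₂ : ℝ))) P
  rw [← excW_conj g₁ g₂ h₁ h₂ h, ← hW, hss, hdet] at hr
  have hBR : (4 : ℝ) * B = s * ((P 0 0 - P 1 1) ^ 2 + (P 0 1 + P 1 0) ^ 2) := by
    have e := congrArg (fun z : ℤ => (z : ℝ)) hB
    simp only [Int.cast_mul, Int.cast_sub, Int.cast_neg, Int.cast_ofNat] at e
    linear_combination e - hr
  have v₁ : vol (colL g₁) = 1 := exc2_vol g₁
  have v₂ : vol (colL g₂) = 1 := exc2_vol g₂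
  have hb : ∀ i j, P i j ^ 2 ≤ R ^ 2 := fun i j => by
    have := hR i j
    rw [Real.norm_eq_abs] at this
    exact sq_le_sq' (abs_le.1 this).1 (abs_le.1 this).2
  refine ⟨_, _, B, ?_, ⟨fun z hz => ?_, ?_, ?_, ?_, ?_⟩, uhm_rl h, hB, fun h0 => ?_⟩
  · have : (0 : ℝ) ≤ 4 * B := by rw [hBR]; positivity
    have : (0 : ℝ) ≤ B := by linarith
    exact_mod_cast this
  · obtain ⟨m, n, rfl⟩ := uhm_mem.1 hz
    rw [uhm_rl h]
    exact uhm_mem.2 ⟨η 0 0 * m + η 0 1 * n, η 1 0 * m + η 1 1 * n, by push_cast; rfl⟩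
  · rw [v₁, v₂, hsq, Complex.normSq_mk]
    linear_combination (-1 / 4) * hBR
  · rw [v₁, v₂, Complex.normSq_mk, Complex.normSq_mk, ← hdet, Matrix.det_fin_two]
    ring
  · rw [v₁, v₂, Complex.normSq_mk]
    nlinarith [hb 0 0, hb 0 1, hb 1 0, hb 1 1, sq_nonneg (P 0 0 - P 1 1), sq_nonneg (P 0 1 + P 1 0)]
  · rw [v₁, v₂, Complex.normSq_mk]
    nlinarith [hb 0 0, hb 0 1, hb 1 0, hb 1 1, sq_nonneg (P 0 0 + P 1 1), sq_nonneg (P 0 1 - P 1 0)]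
  · rw [h0, Int.cast_zero, mul_zero, eq_comm, mul_eq_zero] at hBR
    have e := hBR.resolve_left hsp.ne'
    have e1 : P 0 0 - P 1 1 = 0 := by
      nlinarith [sq_nonneg (P 0 0 - P 1 1), sq_nonneg (P 0 1 + P 1 0)]
    have e2 : P 0 1 + P 1 0 = 0 := by
      nlinarith [sq_nonneg (P 0 0 - P 1 1), sq_nonneg (P 0 1 + P 1 0)]
    exact ⟨by linarith, by linarith⟩

end Pool.Agent.EQ
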