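import Pool.Agent.P.MP_ad7a55_nt.UHm
import Pool.Agent.P.MP_ad7a55_nt.TPair
import Pool.Agent.P.MP_ad7a55_nt.TMx
import Pool.Agent.P.MP_ad7a55_nt.CtF

/-! Framed points: tightness and close pairs. -/

set_option autoImplicit false

noncomputable section

open MeasureTheory Topology Filter UpperHalfPlane
open scoped MatrixGroups ENNReal BoundedContinuousFunction

namespace Pool.Agent.EQ

variable {p q : ℕ} [Fact p.Prime] [Fact q.Prime]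

theorem cf_tight (hpq : p ≠ q) (T : Finset SL(2, ℚ_[p])) {t : ℝ} (ht : 0 < t) :
    ∃ Ω : Set (X3 p q), IsCompact Ω ∧ ∀ (D : ℤ) (rp : ℚ_[p]) (rq : ℚ_[q]), ∀ hp ∈ T,
      ∀ (hq : SL(2, ℚ_[q])) (x : X3 p q), CF p q D rp rq hp hq x →
        j3 p q (iP p q hp • x) ∉ Sh D t 1 → x ∈ Ω := by
  obtain ⟨Ω, hΩ, H⟩ := exists_compact3 p q hpq (1 / t)
  refine ⟨⋃ h ∈ T, (fun y => (iP p q h)⁻¹ • y) '' Ω,
    T.finite_toSet.isCompact_biUnion fun h _ => hΩ.image (continuous_const_smul _),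
    fun D rp rq hp hT hq x hx hS => Set.mem_biUnion (Finset.mem_coe.2 hT)
      ⟨iP p q hp • x, ?_, inv_smul_smul _ _⟩⟩
  obtain ⟨c, τ, hc, e, hτ⟩ := hx.2
  obtain ⟨γ, hγ⟩ := ModularGroup.exists_smul_mem_fd τ
  have hj : j3 p q (iP p q hp • x) = jInv (γ • τ) := by
    rw [← (lat3_spec p q _).2, e, jL_sp hc, jInv_smul]
  refine H _ (γ • τ) hγ ?_ hj
  by_contra hlt
  refine hS (hj ▸ mem_Sh_of_fd (hτ.smul γ) ?_)
  rw [not_le, div_lt_iff₀' ht] at hlt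
  exact hlt.le

theorem uim_mem {g : SL(2, ℝ)} {z : ℂ} :
    z ∈ colL g ↔ ∃ m n : ℤ, z = frame_ph g (m : ℚ) (n : ℚ) := by
  rw [colL, mem_sp]
  refine exists₂_congr fun m n => ?_
  have e : frame_ph g (m : ℚ) (n : ℚ) = m * ((g 0 0 : ℂ) - g 1 0 * Complex.I) +
      n * ((g 0 1 : ℂ) - g 1 1 * Complex.I) := by
    simp only [frame_ph]
    push_cast
    ring
  rw [e]

theorem uim_lat {g : G3 p q} (h1 : g.1.2 ∈ Kp p) (h2 : g.2 ∈ Kp q) :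
    lat3 p q (g : X3 p q) = colL g.1.1 := by
  rw [lat3_eq p q (pi3_mk p q h2).symm, latG_K p h1, colL]

/-- The integral matrix of the square root of the discriminant. -/
theorem uim_theta {g : SL(2, ℝ)} {E : ℤ} (d : DiscL (colL g) E) :
    ∃ Θ : Matrix (Fin 2) (Fin 2) ℤ, (g : Matrix (Fin 2) (Fin 2) ℝ) * Θ.map (↑) =
      !![0, Real.sqrt (-(E : ℝ)); -Real.sqrt (-(E : ℝ)), 0] * (g : Matrix (Fin 2) (Fin 2) ℝ) := by
  have h := pr_mul_le.1 ((d.end_iff (th E)).2 (th_mem_OD E))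
  obtain ⟨a, c, e1⟩ := uim_mem.1 (h _ (uim_mem.2 ⟨1, 0, rfl⟩))
  obtain ⟨b, d, e2⟩ := uim_mem.1 (h _ (uim_mem.2 ⟨0, 1, rfl⟩))
  have r1 := congrArg Complex.re e1
  have i1 := congrArg Complex.im e1
  have r2 := congrArg Complex.re e2
  have i2 := congrArg Complex.im e2
  simp [frame_ph, th] at r1 i1 r2 i2
  refine ⟨!![a, b; c, d], ?_⟩
  ext i j
  fin_cases i <;> fin_cases j <;> simp [Matrix.mul_apply, Fin.sum_univ_two] <;> linarith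

theorem uim_add {x y : ℚ_[p]} {r : ℝ} (hx : ‖x‖ ≤ r) (hy : ‖y‖ ≤ r) : ‖x + y‖ ≤ r :=
  (Padic.nonarchimedean _ _).trans (max_le hx hy)

theorem uim_mul {x y : ℚ_[p]} {r : ℝ} (hx : ‖x‖ ≤ 1) (hy : ‖y‖ ≤ r) : ‖x * y‖ ≤ r := by
  rw [norm_mul]
  exact (mul_le_of_le_one_left (norm_nonneg _) hx).trans hy

theorem uim_two (h2 : p ≠ 2) : ‖(2 : ℚ_[p])‖ = 1 := by
  have h : ¬ ‖((2 : ℕ) : ℚ_[p])‖ < 1 := fun h' => h2
    ((Nat.prime_dvd_prime_iff_eq Fact.out Nat.prime_two).1 (Padic.norm_natCast_lt_one_iff.1 h'))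
  refine le_antisymm ?_ (by simpa using h)
  simpa using Padic.norm_int_le_one (p := p) 2

theorem uim_appr {x : ℚ_[p]} (hx : ‖x‖ ≤ 1) {ε : ℝ} (hε : 0 < ε) : ∃ n : ℤ, ‖x - n‖ < ε := by
  obtain ⟨m, hm⟩ := PadicInt.denseRange_intCast.exists_dist_lt (⟨x, hx⟩ : ℤ_[p]) hε
  refine ⟨m, ?_⟩
  rw [dist_eq_norm, PadicInt.norm_def] at hm
  simpa using hm

/-- An approximate eigenvector. -/
theorem uim_lvl (h2 : p ≠ 2) {κ m : ℕ} {D E b₀ : ℤ} (hE : D = (p : ℤ) ^ (2 * κ) * E)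
    {rp e : ℚ_[p]} {rq : ℚ_[q]} {hq : SL(2, ℚ_[q])} {g : G3 p q} {Θ : Matrix (Fin 2) (Fin 2) ℚ}
    (h : FrG p q D rp rq hq g Θ) (hK : g.1.2 ∈ Kp p) (d : DiscL (colL g.1.1) E)
    (he : rp = (p : ℚ_[p]) ^ κ * e) (he1 : ‖e‖ ≤ 1) (hb : 2 ∣ b₀ - E)
    (hb' : ‖e + b₀‖ ≤ (p : ℝ) ^ (-(m : ℤ))) {a b : ℤ}
    (hv : ‖g.1.2 0 0 * a + g.1.2 0 1 * b‖ ≤ (p : ℝ) ^ (-(m : ℤ))) :
    (th E - b₀) / 2 * frame_ph g.1.1 a b ∈ pr ((p ^ m : ℕ) : ℂ) * colL g.1.1 := by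
  obtain ⟨n, hn⟩ := hb
  have hn' : (b₀ : ℂ) - E = 2 * n := by exact_mod_cast hn
  have hy : (th E - b₀) / 2 ∈ OD E := mem_sp.2 ⟨-E - n, 1, by
    push_cast
    linear_combination (-1 / 2 : ℂ) * hn'⟩
  obtain ⟨u, w, e1⟩ := uim_mem.1 (pr_mul_le.1 ((d.end_iff _).2 hy) _ (uim_mem.2 ⟨a, b, rfl⟩))
  have e2 := h.th a b
  have e3 : th D = (p : ℂ) ^ κ * th E := by
    have := th_mul_sq (p ^ κ) E
    rw [hE, mul_comm 2 κ, pow_mul]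
    exact_mod_cast this
  have e4 : frame_ph g.1.1 ((p : ℚ) ^ κ * (2 * u + b₀ * a)) ((p : ℚ) ^ κ * (2 * w + b₀ * b)) =
      frame_ph g.1.1 (Θ 0 0 * a + Θ 0 1 * b) (Θ 1 0 * a + Θ 1 1 * b) := by
    rw [← e2, e3]
    simp only [frame_ph] at e1 ⊢
    push_cast at e1 ⊢
    linear_combination (-2 * (p : ℂ) ^ κ) * e1
  obtain ⟨k1, k2⟩ := frame_ph_inj _ e4
  have c1 := congrArg (fun z : ℚ => (z : ℚ_[p])) k1
  have c2 := congrArg (fun z : ℚ => (z : ℚ_[p])) k2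
  simp only [Rat.cast_add, Rat.cast_mul, Rat.cast_intCast, Rat.cast_pow, Rat.cast_natCast,
    Rat.cast_ofNat] at c1 c2
  have h00 := congrFun (congrFun h.2.1 0) 0
  have h01 := congrFun (congrFun h.2.1 0) 1
  have h10 := congrFun (congrFun h.2.1 1) 0
  have h11 := congrFun (congrFun h.2.1 1) 1
  simp only [Matrix.mul_apply, Fin.sum_univ_two, Matrix.map_apply, Matrix.of_apply,
    Matrix.cons_val', Matrix.cons_val_zero, Matrix.cons_val_one, Matrix.cons_val_fin_one,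
    Fin.isValue, zero_mul, zero_add, add_zero] at h00 h01 h10 h11
  have hp0 : (p : ℚ_[p]) ^ κ ≠ 0 :=
    pow_ne_zero _ (by exact_mod_cast (Fact.out : p.Prime).ne_zero)
  have hi : ∀ z : ℤ, ‖(z : ℚ_[p])‖ ≤ 1 := Padic.norm_int_le_one
  have x0 : 2 * (g.1.2 0 0 * u + g.1.2 0 1 * w) =
      (e + -b₀) * (g.1.2 0 0 * a + g.1.2 0 1 * b) := by
    refine mul_left_cancel₀ hp0 ?_
    linear_combination g.1.2 0 0 * c1 + g.1.2 0 1 * c2 + (a : ℚ_[p]) * h00 + (b : ℚ_[p]) * h01 +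
      (g.1.2 0 0 * a + g.1.2 0 1 * b) * he
  have x1 : 2 * (g.1.2 1 0 * u + g.1.2 1 1 * w) =
      -(g.1.2 1 0 * a + g.1.2 1 1 * b) * (e + b₀) := by
    refine mul_left_cancel₀ hp0 ?_
    linear_combination g.1.2 1 0 * c1 + g.1.2 1 1 * c2 + (a : ℚ_[p]) * h10 + (b : ℚ_[p]) * h11 -
      (g.1.2 1 0 * a + g.1.2 1 1 * b) * he
  have n0 : ‖g.1.2 0 0 * u + g.1.2 0 1 * w‖ ≤ (p : ℝ) ^ (-(m : ℤ)) := by
    have := uim_mul (uim_add he1 (frame_neg_le p (hi b₀))) hv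
    rwa [← x0, norm_mul, uim_two h2, one_mul] at this
  have n1 : ‖g.1.2 1 0 * u + g.1.2 1 1 * w‖ ≤ (p : ℝ) ^ (-(m : ℤ)) := by
    have := uim_mul (frame_neg_le p (frame_K_le p hK (hi a) (hi b) 1)) hb'
    rwa [← x1, norm_mul, uim_two h2, one_mul] at this
  have hd := frame_det g.1.2
  have nu : ‖(u : ℚ_[p])‖ ≤ (p : ℝ) ^ (-(m : ℤ)) := by
    have : (u : ℚ_[p]) = g.1.2 1 1 * (g.1.2 0 0 * u + g.1.2 0 1 * w) +
        -g.1.2 0 1 * (g.1.2 1 0 * u + g.1.2 1 1 * w) := by linear_combination (-(u : ℚ_[p])) * hd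
    rw [this]
    exact uim_add (uim_mul (hK 1 1) n0) (uim_mul (frame_neg_le p (hK 0 1)) n1)
  have nw : ‖(w : ℚ_[p])‖ ≤ (p : ℝ) ^ (-(m : ℤ)) := by
    have : (w : ℚ_[p]) = g.1.2 0 0 * (g.1.2 1 0 * u + g.1.2 1 1 * w) +
        -g.1.2 1 0 * (g.1.2 0 0 * u + g.1.2 0 1 * w) := by linear_combination (-(w : ℚ_[p])) * hd
    rw [this]
    exact uim_add (uim_mul (hK 0 0) n1) (uim_mul (frame_neg_le p (hK 1 0)) n0)
  obtain ⟨u', rfl⟩ := (Padic.norm_int_le_pow_iff_dvd u m).1 nu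
  obtain ⟨w', rfl⟩ := (Padic.norm_int_le_pow_iff_dvd w m).1 nw
  refine mem_pr_mul.2 ⟨_, uim_mem.2 ⟨u', w', rfl⟩, ?_⟩
  rw [e1]
  simp only [frame_ph]
  push_cast
  ring

theorem cf_op (hpq : p ≠ q) (h2 : p ≠ 2) (κ m : ℕ) {D E : ℤ} (hE : D = (p : ℤ) ^ (2 * κ) * E)
    (hp' : ¬ (p : ℤ) ∣ E) (rp : ℚ_[p]) : ∃ b₀ : ℤ, ∀ (rq rq' : ℚ_[q]) (hp hp' : SL(2, ℚ_[p]))
      (hq hq' : SL(2, ℚ_[q])) (x x' : X3 p q), CF p q D rp rq hp hq x →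
      CF p q D rp rq' hp' hq' x' → (x, x') ∈ Op p q m →
      (j3 p q x, j3 p q x') ∈ LevP (p ^ m) b₀ 8 E := by
  have hP : p.Prime := Fact.out
  have hp1 : (1 : ℝ) < p := by exact_mod_cast hP.one_lt
  have hp0 : (p : ℚ_[p]) ^ κ ≠ 0 := pow_ne_zero _ (by exact_mod_cast hP.ne_zero)
  obtain ⟨e, he⟩ : ∃ e : ℚ_[p], rp = (p : ℚ_[p]) ^ κ * e := ⟨rp / p ^ κ, by field_simp⟩
  have hpos : (0 : ℝ) < (p : ℝ) ^ (-(m : ℤ)) := zpow_pos (by linarith) _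
  have hi : ∀ z : ℤ, ‖(z : ℚ_[p])‖ ≤ 1 := Padic.norm_int_le_one
  by_cases he1 : ‖e‖ ≤ 1
  swap
  · refine ⟨0, fun rq rq' hp hp' hq hq' x x' h _ _ => absurd ?_ he1⟩
    have h1 := (h.1.sq h.2.isD.1.le).1
    have h3 : e ^ 2 = E := by
      refine mul_left_cancel₀ (pow_ne_zero 2 hp0) ?_
      rw [← mul_pow, ← he, h1, hE]
      push_cast
      ring
    have h4 := hi E
    rw [← h3, norm_pow] at h4
    exact (pow_le_one_iff_of_nonneg (norm_nonneg _) two_ne_zero).1 h4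
  obtain ⟨b₁, hb₁⟩ := uim_appr (frame_neg_le p he1) hpos
  obtain ⟨b₀, hb, hb'⟩ : ∃ b₀ : ℤ, 2 ∣ b₀ - E ∧ ‖e + b₀‖ ≤ (p : ℝ) ^ (-(m : ℤ)) := by
    refine ⟨b₁ + p ^ m * (E - b₁), ?_, ?_⟩
    · obtain ⟨k, hk⟩ : Odd ((p : ℤ) ^ m) := (Int.odd_coe_nat p |>.2 (hP.odd_of_ne_two h2)).pow
      exact ⟨k * (E - b₁), by rw [hk]; ring⟩
    · have e1 : e + ((b₁ + p ^ m * (E - b₁) : ℤ) : ℚ_[p]) =
          -(-e - b₁) + ((E - b₁ : ℤ) : ℚ_[p]) * p ^ m := by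
        push_cast
        ring
      rw [e1]
      refine uim_add (by rw [norm_neg]; exact hb₁.le) (uim_mul (hi _) ?_)
      rw [Padic.norm_p_pow]
  refine ⟨b₀, fun rq rq' hp hp'' hq hq' x x' h h' hO => ?_⟩
  obtain ⟨γ, γ1, γ2, γ3, γ4, hx'⟩ := hO
  obtain ⟨g, g1, g2, rfl⟩ := exists_rep3 p q hpq x
  have hx2 : ((γ * g : G3 p q) : X3 p q) = x' := hx'.symm
  have k1 : (γ * g).1.2 ∈ Kp p := (Kp p).mul_mem γ2 g1
  have k2 : (γ * g).2 ∈ Kp q := (Kp q).mul_mem γ4 g2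
  have l1 := uim_lat g1 g2
  have l2 := uim_lat k1 k2
  rw [hx2] at l2
  have d1 := h.disc0 hpq h2 hE hp'
  have d2 := h'.disc0 hpq h2 hE hp'
  rw [l1] at d1
  rw [l2] at d2
  obtain ⟨Θ, hΘ⟩ := h.1.rep rfl
  obtain ⟨Θ', hΘ'⟩ := h'.1.rep hx2
  obtain ⟨Θ₁, t1⟩ := uim_theta d1
  obtain ⟨Θ₂, t2⟩ := uim_theta d2
  obtain ⟨α, β, B, -, hm, hrl, -⟩ := hm_of_frame (P := (γ.1.1 : Matrix (Fin 2) (Fin 2) ℝ))
    (η := 1) (s := -E) (R := 2) (by simp) t1 t2 d1 d2 (by have := d1.isD.1; omega) (by ring)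
    (fun i j => (γ1 i j).le)
  have hε : 0 < min ((p : ℝ) ^ (-(m : ℤ))) 1 := lt_min hpos one_pos
  obtain ⟨a, ha⟩ := uim_appr (frame_neg_le p (g1 0 1)) hε
  obtain ⟨b, hb2⟩ := uim_appr (g1 0 0) hε
  have hd := frame_det g.1.2
  have v0 : ‖g.1.2 0 0 * a + g.1.2 0 1 * b‖ ≤ (p : ℝ) ^ (-(m : ℤ)) := by
    have : g.1.2 0 0 * a + g.1.2 0 1 * b =
        -g.1.2 0 0 * (-g.1.2 0 1 - a) + -g.1.2 0 1 * (g.1.2 0 0 - b) := by ring
    rw [this]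
    exact uim_add (uim_mul (frame_neg_le p (g1 0 0)) (ha.le.trans (min_le_left _ _)))
      (uim_mul (frame_neg_le p (g1 0 1)) (hb2.le.trans (min_le_left _ _)))
  have v1 : ‖(γ * g).1.2 0 0 * a + (γ * g).1.2 0 1 * b‖ ≤ (p : ℝ) ^ (-(m : ℤ)) := by
    have : (γ * g).1.2 0 0 * a + (γ * g).1.2 0 1 * b = γ.1.2 0 0 * (g.1.2 0 0 * a + g.1.2 0 1 * b) +
        (g.1.2 1 0 * a + g.1.2 1 1 * b) * γ.1.2 0 1 := by
      simp only [Prod.fst_mul, Prod.snd_mul, Matrix.SpecialLinearGroup.coe_mul, Matrix.mul_apply,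
        Fin.sum_univ_two]
      ring
    rw [this]
    exact uim_add (uim_mul (γ2 0 0) v0) (uim_mul (frame_K_le p g1 (hi a) (hi b) 1) γ3)
  refine ⟨colL g.1.1, colL (γ * g).1.1, α, β, B, d1, d2, ?_, ?_, ?_, hb, frame_ph g.1.1 a b,
    uim_mem.2 ⟨a, b, rfl⟩, fun l hl hlp hv => ?_, uim_lvl h2 hE hΘ g1 d1 he he1 hb hb' v0, ?_⟩
  · rw [← l1, (lat3_spec p q _).2]
  · rw [← l2, (lat3_spec p q _).2]
  · have e8 : (2 : ℝ) * 2 ^ 2 = 8 := by norm_num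
    rwa [Matrix.det_one, e8] at hm
  · obtain rfl : l = p := (Nat.prime_dvd_prime_iff_eq hl hP).1 (hl.dvd_of_dvd_pow hlp)
    obtain ⟨z, hz, ez⟩ := mem_pr_mul.1 hv
    obtain ⟨a', b', rfl⟩ := uim_mem.1 hz
    rw [show ((l : ℕ) : ℂ) = ((l : ℚ) : ℂ) by simp, frame_ph_mul] at ez
    obtain ⟨ea, eb⟩ := frame_ph_inj _ ez
    have na : ‖(a : ℚ_[l])‖ < 1 := Padic.norm_intCast_lt_one_iff.2 ⟨a', by exact_mod_cast ea.symm⟩
    have nb : ‖(b : ℚ_[l])‖ < 1 := Padic.norm_intCast_lt_one_iff.2 ⟨b', by exact_mod_cast eb.symm⟩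
    have e1 : (1 : ℚ_[l]) = (g.1.2 1 0 * (-g.1.2 0 1 - a) + g.1.2 1 1 * (g.1.2 0 0 - b)) +
        (g.1.2 1 0 * a + g.1.2 1 1 * b) := by linear_combination -hd
    have n1 := uim_add (uim_add (uim_mul (g1 1 0) (le_max_left _ _ |>.trans (le_max_left _ _)))
      (uim_mul (g1 1 1) (le_max_right _ _ |>.trans (le_max_left _ _))))
      (uim_add (uim_mul (g1 1 0) (le_max_left _ _ |>.trans (le_max_right _ _)))
      (uim_mul (g1 1 1) (le_max_right _ _ |>.trans (le_max_right _ _))))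
      (r := max (max ‖-g.1.2 0 1 - a‖ ‖g.1.2 0 0 - b‖) (max ‖(a : ℚ_[l])‖ ‖(b : ℚ_[l])‖))
    rw [← e1, norm_one] at n1
    exact absurd n1 (not_le.2 (max_lt (max_lt (ha.trans_le (min_le_right _ _))
      (hb2.trans_le (min_le_right _ _))) (max_lt na nb)))
  · have := uim_lvl h2 hE hΘ' k1 d2 he he1 hb hb' v1
    rw [hrl]
    simpa using this

theorem uim_incl (c : ℕ) (g : GG p) {h : SL(2, ℚ_[p])}
    (hh : Bd ((p : ℝ) ^ c) (h : Matrix (Fin 2) (Fin 2) ℚ_[p])) :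
    pr ((p : ℂ) ^ c) * latG p g ≤ latG p (((1, h) : GG p) * g) := by
  refine pr_mul_le.2 fun z hz => ?_
  obtain ⟨a, b, ha, hb, h0, h1, rfl⟩ := (frame_mem_latG p).1 hz
  have hp0 : (0 : ℝ) < p := by exact_mod_cast (Fact.out : p.Prime).pos
  have hc : InZp p ((p : ℚ) ^ c) := by simpa using inZp_int p (p ^ c)
  have hn : ∀ i j, ‖h i j * (p : ℚ_[p]) ^ c‖ ≤ 1 := fun i j => by
    rw [norm_mul, Padic.norm_p_pow, zpow_neg, zpow_natCast, mul_inv_le_iff₀ (by positivity),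
      one_mul]
    exact hh i j
  have key : ∀ i, ‖(((1, h) : GG p) * g).2 i 0 * (((p : ℚ) ^ c * a : ℚ) : ℚ_[p]) +
      (((1, h) : GG p) * g).2 i 1 * (((p : ℚ) ^ c * b : ℚ) : ℚ_[p])‖ ≤ 1 := fun i => by
    refine le_trans (le_of_eq ?_) (uim_add (uim_mul (hn i 0) h0) (uim_mul (hn i 1) h1))
    congr 1
    simp only [Prod.snd_mul, Matrix.SpecialLinearGroup.coe_mul, Matrix.mul_apply, Fin.sum_univ_two]
    push_cast
    ring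
  refine (frame_mem_latG p).2 ⟨_, _, hc.mul ha, hc.mul hb, key 0, key 1, ?_⟩
  rw [← frame_ph_mul, Prod.fst_mul, one_mul]
  push_cast
  rfl

theorem uim_bd_inv {R : ℝ} {h : SL(2, ℚ_[p])} (hh : Bd R (h : Matrix (Fin 2) (Fin 2) ℚ_[p])) :
    Bd R ((h⁻¹ : SL(2, ℚ_[p])) : Matrix (Fin 2) (Fin 2) ℚ_[p]) := fun i j => by
  rw [Matrix.SpecialLinearGroup.SL2_inv_expl]
  fin_cases i <;> fin_cases j
  · simpa using hh 1 1
  · simpa using hh 0 1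
  · simpa using hh 1 0
  · simpa using hh 0 0

theorem fib_hp (hpq : p ≠ q) (c : ℕ) (w : ℂ) :
    {z | ∃ (x : X3 p q) (h : SL(2, ℚ_[p])), Bd ((p : ℝ) ^ c) (h : Matrix (Fin 2) (Fin 2) ℚ_[p]) ∧
      j3 p q x = w ∧ z = j3 p q (iP p q h • x)}.Finite ∧
    {z | ∃ (x : X3 p q) (h : SL(2, ℚ_[p])), Bd ((p : ℝ) ^ c) (h : Matrix (Fin 2) (Fin 2) ℚ_[p]) ∧
      j3 p q x = w ∧ z = j3 p q (iP p q h • x)}.ncard ≤ p ^ (6 * c) := by
  obtain ⟨Λ, hΛ, rfl⟩ := jL_surj w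
  have hP : p.Prime := Fact.out
  obtain ⟨f1, f2⟩ := card_between (N := p ^ (2 * c)) (pow_pos hP.pos _) hΛ
  have hc0 : (p : ℂ) ^ c ≠ 0 := pow_ne_zero _ (by exact_mod_cast hP.ne_zero)
  have := tmx_img' (S := {z | ∃ (x : X3 p q) (h : SL(2, ℚ_[p])),
      Bd ((p : ℝ) ^ c) (h : Matrix (Fin 2) (Fin 2) ℚ_[p]) ∧
      j3 p q x = jL Λ ∧ z = j3 p q (iP p q h • x)}) f1 jL (by
    rintro z ⟨x, h, hh, hx, rfl⟩
    obtain ⟨g, -, hg⟩ := exists_rep p (pi3 p q x)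
    have l1 := lat3_eq p q hg
    have l2 : lat3 p q (iP p q h • x) = latG p (((1, h) : GG p) * g) := lat3_eq p q (by
      rw [pi3_smul p q (g := iP p q h) (Kp q).one_mem, ← hg]
      rfl)
    have i1 := uim_incl c g hh
    have i2 := uim_incl c (((1, h) : GG p) * g) (uim_bd_inv hh)
    have e : ((1, h⁻¹) : GG p) * (((1, h) : GG p) * g) = g := by
      rw [← mul_assoc]
      simp
    rw [e, ← l1, ← l2] at i2
    rw [← l1, ← l2] at i1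
    obtain ⟨t, ht, rfl⟩ := jL_inj (lat3_spec p q x).1 hΛ ((lat3_spec p q x).2.trans hx)
    refine ⟨pr t * (pr ((p : ℂ) ^ c) * lat3 p q (iP p q h • x)), ⟨?_, ?_⟩, ?_⟩
    · have e2 : pr ((p ^ (2 * c) : ℕ) : ℂ) * (pr t * lat3 p q x) =
          pr t * (pr ((p : ℂ) ^ c) * (pr ((p : ℂ) ^ c) * lat3 p q x)) := by
        rw [← mul_assoc (pr _) (pr ((p : ℂ) ^ c)) (lat3 p q x), pr_mul_pr, mul_left_comm]
        congr 3
        push_cast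
        ring
      rw [e2]
      exact (pr_mul_le_iff ht).2 ((pr_mul_le_iff hc0).2 i1)
    · exact (pr_mul_le_iff ht).2 i2
    · rw [jL_pr_mul ((lat3_spec p q _).1.pr_mul hc0) ht, jL_pr_mul (lat3_spec p q _).1 hc0,
        (lat3_spec p q _).2])
  refine ⟨this.1, this.2.trans (f2.trans (le_of_eq ?_))⟩
  rw [← pow_mul]
  congr 1
  ring

theorem bw_set (hpq : p ≠ q) (h2 : p ≠ 2) (c : ℕ) : ∃ K : ℝ, 0 < K ∧ ∀ m : ℕ, ∃ Y : ℝ,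
    ∀ (D : ℤ) (κ : ℕ) (rp : ℚ_[p]), κ ≤ c → IsD D → Spl p κ D → Y ≤ -(D : ℝ) →
      ∃ S : Set (ℂ × ℂ), S.Finite ∧ (S.ncard : ℝ) ≤ K * (p : ℝ) ^ (-(m : ℤ)) * HH D ^ 2 ∧
        ∀ (rq rq' : ℚ_[q]) (hp hp' : SL(2, ℚ_[p])) (hq hq' : SL(2, ℚ_[q])) (x x' : X3 p q),
          Bd ((p : ℝ) ^ c) (hp : Matrix (Fin 2) (Fin 2) ℚ_[p]) →
          Bd ((p : ℝ) ^ c) (hp' : Matrix (Fin 2) (Fin 2) ℚ_[p]) → CF p q D rp rq hp hq x →
          CF p q D rp rq' hp' hq' x' → (x, x') ∈ Op p q m →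
          (j3 p q (iP p q hp • x), j3 p q (iP p q hp' • x')) ∈ S := by
  have hP : p.Prime := Fact.out
  have hp1 : (1 : ℝ) ≤ p := by exact_mod_cast hP.one_lt.le
  obtain ⟨K, hK, H⟩ := pair_two hP h2 8
  obtain ⟨C, hC, H'⟩ := HH_le (ε := 1) one_pos
  refine ⟨K * C ^ 2 * ((p : ℝ) ^ (6 * c) * (p : ℝ) ^ (6 * c)), by positivity, fun m => ?_⟩
  obtain ⟨Y, HY⟩ := H m
  refine ⟨max Y 0 * (p : ℝ) ^ (2 * c), fun D κ rp hκ hD hS hY => ?_⟩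
  obtain ⟨E, hE, hJ⟩ := hS
  have hE' : D = ((p ^ κ : ℕ) : ℤ) ^ 2 * E := by
    rw [hE]
    push_cast
    ring
  have hED : IsD E := ctf_odd (g := p ^ κ) (fun h => h2
    ((Nat.prime_dvd_prime_iff_eq Nat.prime_two hP).1 (Nat.prime_two.dvd_of_dvd_pow h)).symm)
    (hE' ▸ hD)
  have h3 := tti_three hED
  have hpE : ¬ (p : ℤ) ∣ E := by
    rintro ⟨k, rfl⟩
    have h0 : jacobiSym (p : ℤ) p = 0 :=
      jacobiSym.eq_zero_iff.2 ⟨hP.ne_zero, by simpa using hP.one_lt.ne'⟩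
    rw [jacobiSym.mul_left, h0, zero_mul] at hJ
    exact zero_ne_one hJ
  have hYE : Y ≤ -(E : ℝ) := by
    have e1 : -(D : ℝ) = -(E : ℝ) * (p : ℝ) ^ (2 * κ) := by
      rw [hE]
      push_cast
      ring
    have e2 : (p : ℝ) ^ (2 * κ) ≤ (p : ℝ) ^ (2 * c) := pow_le_pow_right₀ hp1 (by omega)
    have e3 := hY.trans (e1.le.trans (mul_le_mul_of_nonneg_left e2 (by linarith)))
    exact (le_max_left _ _).trans (le_of_mul_le_mul_right e3 (by positivity))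
  obtain ⟨b₀, hb₀⟩ := cf_op (q := q) hpq h2 κ m hE hpE rp
  set F : ℂ → Set ℂ := fun w => {z | ∃ (x : X3 p q) (h : SL(2, ℚ_[p])),
    Bd ((p : ℝ) ^ c) (h : Matrix (Fin 2) (Fin 2) ℚ_[p]) ∧
      j3 p q x = w ∧ z = j3 p q (iP p q h • x)} with hF
  obtain ⟨u1, u2⟩ := tpair_biUnion (LevP_finite (p ^ m) b₀ 8 E) (fun w => F w.1 ×ˢ F w.2)
    (k := p ^ (6 * c) * p ^ (6 * c)) fun w _ => ⟨(fib_hp hpq c w.1).1.prod (fib_hp hpq c w.2).1, by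
      rw [Set.ncard_prod]
      exact Nat.mul_le_mul (fib_hp hpq c w.1).2 (fib_hp hpq c w.2).2⟩
  refine ⟨_, u1, ?_, fun rq rq' hp hp' hq hq' x x' b1 b2 c1 c2 hO =>
    Set.mem_biUnion (hb₀ rq rq' hp hp' hq hq' x x' c1 c2 hO)
      ⟨⟨x, hp, b1, rfl, rfl⟩, ⟨x', hp', b2, rfl, rfl⟩⟩⟩
  have k1 := HY E b₀ hED hJ hYE
  have k2 : HH E ≤ C * HH D := by
    have := H' E (p ^ κ) (by exact_mod_cast (show (E : ℝ) < -1 by linarith)) (pow_pos hP.pos _)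
    rw [← hE', Real.rpow_one] at this
    refine le_of_mul_le_mul_left (a := ((p ^ κ : ℕ) : ℝ)) (this.trans (le_of_eq (by ring))) ?_
    exact_mod_cast pow_pos hP.pos _
  have k3 : HH E ^ 2 ≤ (C * HH D) ^ 2 := pow_le_pow_left₀ (tti_HH_nonneg E) k2 2
  calc _ ≤ ((LevP (p ^ m) b₀ 8 E).ncard : ℝ) * ((p : ℝ) ^ (6 * c) * (p : ℝ) ^ (6 * c)) := by
        exact_mod_cast u2
    _ ≤ K / (p : ℝ) ^ m * (C * HH D) ^ 2 * ((p : ℝ) ^ (6 * c) * (p : ℝ) ^ (6 * c)) :=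
        mul_le_mul_of_nonneg_right
          (k1.trans (mul_le_mul_of_nonneg_left k3 (by positivity))) (by positivity)
    _ = _ := by
        rw [zpow_neg, zpow_natCast]
        ring

end Pool.Agent.EQ
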