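import Pool.Agent.P.MP_ad7a55_nt.UHm
import Pool.Agent.P.MP_ad7a55_nt.UEl

/-! Framed points: almost triangular correspondences. -/

set_option autoImplicit false

noncomputable section

open MeasureTheory Topology Filter UpperHalfPlane
open scoped MatrixGroups ENNReal BoundedContinuousFunction

namespace Pool.Agent.EQ

variable {p q : ℕ} [Fact p.Prime] [Fact q.Prime]

theorem uin_frame {F : Type} [CommRing F] (h₁ h₂ g₁ g₂ : SL(2, F))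
    {P X : Matrix (Fin 2) (Fin 2) F}
    (h : (h₂ : Matrix (Fin 2) (Fin 2) F) * P * ((h₁⁻¹ : SL(2, F)) : Matrix (Fin 2) (Fin 2) F) *
      (g₁ : Matrix (Fin 2) (Fin 2) F) = (g₂ : Matrix (Fin 2) (Fin 2) F) * X) :
    P * ((h₁⁻¹ * g₁ : SL(2, F)) : Matrix (Fin 2) (Fin 2) F) =
      ((h₂⁻¹ * g₂ : SL(2, F)) : Matrix (Fin 2) (Fin 2) F) * X := by
  have e : ((h₂⁻¹ : SL(2, F)) : Matrix (Fin 2) (Fin 2) F) * (h₂ : Matrix (Fin 2) (Fin 2) F) = 1 := by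
    rw [← Matrix.SpecialLinearGroup.coe_mul, inv_mul_cancel, Matrix.SpecialLinearGroup.coe_one]
  rw [Matrix.SpecialLinearGroup.coe_mul, Matrix.SpecialLinearGroup.coe_mul, Matrix.mul_assoc, ← h]
  simp only [← Matrix.mul_assoc]
  rw [e, Matrix.one_mul]

theorem uin_diag {F : Type} [CommRing F] (r₁ r₂ : F) (Q : Matrix (Fin 2) (Fin 2) F) :
    excW !![r₂, 0; 0, -r₂] Q !![r₁, 0; 0, -r₁] =
      2 * (r₁ * r₂) * (Q 0 0 * Q 1 1 + Q 0 1 * Q 1 0) := by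
  rw [excW_eq]
  simp only [Matrix.of_apply, Matrix.cons_val', Matrix.cons_val_zero, Matrix.cons_val_one,
    Matrix.cons_val_fin_one]
  ring

theorem uin_cast {F : Type} [CommRing F] (A B C : Matrix (Fin 2) (Fin 2) ℤ) :
    ((excW A B C : ℤ) : F) = excW (A.map (↑)) (B.map (↑)) (C.map (↑)) := by
  simp only [excW_eq, Matrix.map_apply]
  push_cast
  ring

theorem uin_scale {F : Type} [Field F] [CharZero F] {N : ℕ} {ξ : Matrix (Fin 2) (Fin 2) ℚ}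
    {η : Matrix (Fin 2) (Fin 2) ℤ} (hη : ∀ i j, (N : ℚ) * ξ i j = η i j)
    {P A B : Matrix (Fin 2) (Fin 2) F} (h : P * A = B * ξ.map (↑)) :
    ((N : F) • P) * A = B * η.map (↑) := by
  have e : η.map ((↑) : ℤ → F) = (N : F) • ξ.map ((↑) : ℚ → F) := by
    ext i j
    have := congrArg (fun z : ℚ => (z : F)) (hη i j)
    simp only [Rat.cast_mul, Rat.cast_natCast, Rat.cast_intCast] at this
    simp only [Matrix.map_apply, Matrix.smul_apply, smul_eq_mul, this]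
  rw [e, Matrix.smul_mul, Matrix.mul_smul, h]

theorem uin_core {q' : ℕ} (hq' : 0 < q') {δ : ℚ} (hδ : δ ≠ 0) {R : ℝ} {c c₀ : ℕ}
    (hc₀ : R ≤ (p : ℝ) ^ c₀) (r : ℕ) {D₁ D₂ : ℤ} {r₁ r₂ : ℚ_[p]} {h₁ h₂ : SL(2, ℚ_[p])}
    {g₁ g₂ : GG p} {Θ₁ Θ₂ : Matrix (Fin 2) (Fin 2) ℤ} {ρ₁ ρ₂ : ℚ}
    (k₁ : g₁.2 ∈ Kp p) (k₂ : g₂.2 ∈ Kp p) (dl₁ : DiscL (latG p g₁) D₁)
    (dl₂ : DiscL (latG p g₂) D₂)
    (fr₁ : (g₁.1 : Matrix (Fin 2) (Fin 2) ℝ) * Θ₁.map (↑) =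
      !![0, Real.sqrt (-(D₁ : ℝ)); -Real.sqrt (-(D₁ : ℝ)), 0] * (g₁.1 : Matrix (Fin 2) (Fin 2) ℝ))
    (fr₂ : (g₂.1 : Matrix (Fin 2) (Fin 2) ℝ) * Θ₂.map (↑) =
      !![0, Real.sqrt (-(D₂ : ℝ)); -Real.sqrt (-(D₂ : ℝ)), 0] * (g₂.1 : Matrix (Fin 2) (Fin 2) ℝ))
    (fp₁ : ((h₁⁻¹ * g₁.2 : SL(2, ℚ_[p])) : Matrix (Fin 2) (Fin 2) ℚ_[p]) * Θ₁.map (↑) =
      !![r₁, 0; 0, -r₁] * ((h₁⁻¹ * g₁.2 : SL(2, ℚ_[p])) : Matrix (Fin 2) (Fin 2) ℚ_[p]))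
    (fp₂ : ((h₂⁻¹ * g₂.2 : SL(2, ℚ_[p])) : Matrix (Fin 2) (Fin 2) ℚ_[p]) * Θ₂.map (↑) =
      !![r₂, 0; 0, -r₂] * ((h₂⁻¹ * g₂.2 : SL(2, ℚ_[p])) : Matrix (Fin 2) (Fin 2) ℚ_[p]))
    (sq₁ : r₁ ^ 2 = D₁)
    (b₁ : Bd ((p : ℝ) ^ c) (h₁ : Matrix (Fin 2) (Fin 2) ℚ_[p]))
    (b₂ : Bd ((p : ℝ) ^ c) (h₂ : Matrix (Fin 2) (Fin 2) ℚ_[p])) (hρ₁ : 0 < ρ₁) (hρ₂ : 0 < ρ₂)
    (hρ : ρ₁ ^ 2 * D₁ = ρ₂ ^ 2 * D₂) (hr : (ρ₁ : ℚ_[p]) * r₁ = ρ₂ * r₂)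
    (hD : (p : ℝ) ^ (-(2 * c : ℤ)) ≤ ‖(D₁ : ℚ_[p])‖)
    {P₁ : Matrix (Fin 2) (Fin 2) ℝ} {P₂ : Matrix (Fin 2) (Fin 2) ℚ_[p]}
    (hP : ((P₁, (h₂ : Matrix (Fin 2) (Fin 2) ℚ_[p]) * P₂ *
      ((h₁⁻¹ : SL(2, ℚ_[p])) : Matrix (Fin 2) (Fin 2) ℚ_[p])) : MM p) ∈
        HomS p q' δ (g₁ : XX p) (g₂ : XX p))
    (hd2 : P₂.det = δ) (hB₁ : ∀ i j, |P₁ i j| < R) (hB₂ : Bd R P₂)
    (hm : ‖P₂ 1 0‖ ≤ (p : ℝ) ^ (-((r + 2 * c + c₀ : ℕ) : ℤ))) :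
    Isog ((p ^ (c + c₀ + c) * q') ^ 2 * δ.num.natAbs) (piX p (g₁ : XX p)) (piX p (g₂ : XX p)) ∨
      Bad3 p ((p ^ (c + c₀ + c) * q') ^ 2 * δ.den * δ.num)
        (2 * (((p ^ (c + c₀ + c) * q' * δ.den : ℕ) : ℝ) * R) ^ 2) r D₁ D₂ (latG p g₁)
        (latG p g₂) := by
  have hp1 : (1 : ℝ) < p := by exact_mod_cast (Fact.out : p.Prime).one_lt
  have hp0 : (0 : ℝ) < p := one_pos.trans hp1
  have hpN : 0 < p := (Fact.out : p.Prime).pos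
  obtain ⟨c₁, hc₁⟩ : ∃ c₁, c₁ = c + c₀ + c := ⟨_, rfl⟩
  rw [← hc₁]
  obtain ⟨n₁, hn₁def⟩ : ∃ n₁ : ℕ, n₁ = p ^ c₁ * q' * δ.den := ⟨_, rfl⟩
  rw [← hn₁def]
  have n10 : 0 < n₁ := by
    have := δ.den_pos
    rw [hn₁def]; positivity
  have hD₁ : D₁ < 0 := dl₁.isD.1
  obtain ⟨ξ, hξ, hdet, hH⟩ := HomS.rep hP rfl rfl
  have hd1 : P₁.det = δ := (HomS.det hP).1
  obtain ⟨n, hn₁, -, hn, hnR⟩ := exc_Pi hD₁ hρ₁ hρ₂ hρ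
  have hR : 0 ≤ R := (norm_nonneg _).trans (hB₂ 0 0)
  have hB : Bd ((p : ℝ) ^ c * R * (p : ℝ) ^ c) ((h₂ : Matrix (Fin 2) (Fin 2) ℚ_[p]) * P₂ *
      ((h₁⁻¹ : SL(2, ℚ_[p])) : Matrix (Fin 2) (Fin 2) ℚ_[p])) :=
    hom_bd_mulP (hom_bd_mulP b₂ hB₂) (hom_bd_inv b₁)
  have hc : (p : ℝ) ^ c * R * (p : ℝ) ^ c ≤ (p : ℝ) ^ c₁ := by
    rw [hc₁, pow_add, pow_add]
    gcongr
  have hBξ : Bd ((p : ℝ) ^ c * R * (p : ℝ) ^ c) (ξ.map ((↑) : ℚ → ℚ_[p])) :=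
    exc2_bd_frame p k₁ k₂ hB hH.2
  have hint : ∀ i j, ∃ k : ℤ, (n₁ : ℚ) * ξ i j = k := by
    intro i j
    obtain ⟨k, hk⟩ : ∃ k : ℤ, (p : ℚ) ^ c₁ * (q' * ξ i j) = k := by
      refine exc_int p (InZp.mul (by exact_mod_cast inZp_int p (p ^ c₁)) (hξ i j)) ?_
      push_cast
      refine exc2_pow p ?_
      have h3 : ‖(q' : ℚ_[p])‖ ≤ 1 := by simpa using Padic.norm_int_le_one (p := p) (q' : ℤ)
      rw [norm_mul]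
      exact (mul_le_of_le_one_left (norm_nonneg _) h3).trans ((hBξ i j).trans hc)
    refine ⟨δ.den * k, ?_⟩
    rw [hn₁def]
    push_cast
    rw [← hk]
    ring
  choose m hmη using hint
  obtain ⟨η, hη⟩ : ∃ η : Matrix (Fin 2) (Fin 2) ℤ, ∀ i j, (n₁ : ℚ) * ξ i j = η i j :=
    ⟨Matrix.of m, hmη⟩
  have hηd : (η.det : ℚ) = (n₁ : ℚ) ^ 2 * δ := by
    rw [← hdet, Matrix.det_fin_two, Matrix.det_fin_two]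
    push_cast
    simp only [← hη]
    ring
  have hηn : η.det = (p ^ c₁ * q') ^ 2 * δ.den * δ.num := by
    have : (η.det : ℚ) = (((p ^ c₁ * q') ^ 2 * δ.den * δ.num : ℤ) : ℚ) := by
      rw [hηd, hn₁def]
      push_cast
      rw [← Rat.mul_den_eq_num δ]
      ring
    exact_mod_cast this
  have e1 := uin_scale hη hH.1
  have e2 := uin_scale hη (uin_frame h₁ h₂ g₁.2 g₂.2 hH.2)
  have hn0 : 0 ≤ -n := by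
    have : (0 : ℝ) ≤ ((-n : ℤ) : ℝ) := by
      rw [Int.cast_neg, hnR, neg_neg]; positivity
    exact_mod_cast this
  have hBd : Bd ((n₁ : ℝ) * R) ((n₁ : ℝ) • P₁) := fun i j => by
    rw [Matrix.smul_apply, smul_eq_mul, norm_mul, Real.norm_natCast, Real.norm_eq_abs]
    exact mul_le_mul_of_nonneg_left (hB₁ i j).le (Nat.cast_nonneg _)
  have l₁ : latG p g₁ = colL g₁.1 := latG_K p k₁
  have l₂ : latG p g₂ = colL g₂.1 := latG_K p k₂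
  obtain ⟨α, β, B, hB0, hHm, -, h4, hz⟩ := hm_of_frame (s := -n) e1 fr₁ fr₂ (l₁ ▸ dl₁) (l₂ ▸ dl₂)
    hn0 (by rw [neg_sq, hn]) hBd
  rcases hB0.eq_or_lt with h0 | h0
  · left
    obtain ⟨ha, hb⟩ := hz h0.symm
    have hn1 : (n₁ : ℝ) ≠ 0 := by positivity
    simp only [Matrix.smul_apply, smul_eq_mul] at ha hb
    refine exc_isog p hq' hδ hc k₁ k₂ hξ hdet hH hd1 hB (mul_left_cancel₀ hn1 ha)
      (mul_left_cancel₀ hn1 ?_)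
    change (n₁ : ℝ) * P₁ 1 0 = n₁ * -P₁ 0 1
    rw [hb, mul_neg]
  right
  refine ⟨α, β, B, h0, ?_, ?_⟩
  · rw [l₁, l₂, ← hηn]
    exact hHm
  have r20 : (ρ₂ : ℚ_[p]) ≠ 0 := by exact_mod_cast hρ₂.ne'
  have hn₁' : (n : ℚ_[p]) * ρ₂ = ρ₁ * D₁ := by
    exact_mod_cast congrArg (fun z : ℚ => (z : ℚ_[p])) hn₁
  have hrr : r₁ * r₂ = n := by
    refine mul_right_cancel₀ r20 ?_
    rw [hn₁', ← sq₁]
    linear_combination (-r₁) * hr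
  have hηp : ((η.det : ℤ) : ℚ_[p]) = (n₁ : ℚ_[p]) ^ 2 * (P₂ 0 0 * P₂ 1 1 - P₂ 0 1 * P₂ 1 0) := by
    rw [← Matrix.det_fin_two, hd2]
    have := congrArg (fun z : ℚ => (z : ℚ_[p])) hηd
    simpa only [Rat.cast_intCast, Rat.cast_mul, Rat.cast_pow, Rat.cast_natCast] using this
  have hW : ((excW Θ₂ η Θ₁ : ℤ) : ℚ_[p]) =
      2 * n * ((n₁ : ℚ_[p]) ^ 2 * (P₂ 0 0 * P₂ 1 1 + P₂ 0 1 * P₂ 1 0)) := by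
    rw [uin_cast, excW_conj _ _ fp₁ fp₂ e2, uin_diag, hrr]
    simp only [Matrix.smul_apply, smul_eq_mul]
    ring
  have hBp : (B : ℚ_[p]) = -(n * (n₁ : ℚ_[p]) ^ 2 * (P₂ 0 1 * P₂ 1 0)) := by
    have h5 := congrArg (fun z : ℤ => (z : ℚ_[p])) h4
    simp only [Int.cast_mul, Int.cast_sub, Int.cast_neg, Int.cast_ofNat] at h5
    rw [hW, hηp] at h5
    linear_combination (1 / 4 : ℚ_[p]) * h5
  have h3 : ‖(n₁ : ℚ_[p])‖ ≤ 1 := by simpa using Padic.norm_int_le_one (p := p) (n₁ : ℤ)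
  have h6 : ‖(n : ℚ_[p])‖ ≤ 1 := Padic.norm_int_le_one n
  rw [hBp, norm_neg, norm_mul, norm_mul, norm_mul, norm_pow]
  calc ‖(n : ℚ_[p])‖ * ‖(n₁ : ℚ_[p])‖ ^ 2 * (‖P₂ 0 1‖ * ‖P₂ 1 0‖)
      ≤ 1 * ((p : ℝ) ^ c₀ * (p : ℝ) ^ (-((r + 2 * c + c₀ : ℕ) : ℤ))) :=
        mul_le_mul (mul_le_one₀ h6 (by positivity) (pow_le_one₀ (norm_nonneg _) h3))
          (mul_le_mul ((hB₂ 0 1).trans hc₀) hm (norm_nonneg _) (by positivity)) (by positivity)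
          zero_le_one
    _ = (p : ℝ) ^ (-(r : ℤ)) * (p : ℝ) ^ (-(2 * c : ℤ)) := by
        rw [one_mul, ← zpow_natCast, ← zpow_add₀ hp0.ne', ← zpow_add₀ hp0.ne']
        congr 1
        push_cast
        ring
    _ ≤ _ := mul_le_mul_of_nonneg_left hD (by positivity)

theorem uin_smul {q' : ℕ} {δ : ℚ} {x y : XX p} {P : MM p} (h : P ∈ HomS p q' δ x y)
    (a b : SL(2, ℚ_[p])) :
    ((P.1, (b : Matrix (Fin 2) (Fin 2) ℚ_[p]) * P.2 *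
      ((a⁻¹ : SL(2, ℚ_[p])) : Matrix (Fin 2) (Fin 2) ℚ_[p])) : MM p) ∈
        HomS p q' δ (((1, a) : GG p) • x) (((1, b) : GG p) • y) := by
  have := HomS.smul h ((1, a) : GG p) ((1, b) : GG p)
  simpa only [inv_one, Matrix.SpecialLinearGroup.coe_one, Matrix.one_mul, Matrix.mul_one]
    using this

theorem uin_j (h : SL(2, ℚ_[p])) (x : X3 p q) :
    j3 p q (iP p q h • x) = piX p (((1, h) : GG p) • pi3 p q x) := by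
  unfold j3
  rw [pi3_smul p q (show (iP p q h).2 ∈ Kp q from (Kp q).one_mem)]
  rfl

theorem cf_on (hpq : p ≠ q) {q' : ℕ} (hq' : 0 < q') {δ : ℚ} (hδ : δ ≠ 0) (R : ℝ) (c : ℕ) :
    ∃ (N : ℕ) (n : ℤ) (C : ℝ), 0 < N ∧ n ≠ 0 ∧ ∀ r : ℕ, ∃ m : ℕ,
      ∀ (D₁ D₂ : ℤ) (r₁ r₂ : ℚ_[p]) (s₁ s₂ : ℚ_[q]) (h₁ h₂ : SL(2, ℚ_[p])) (k₁ k₂ : SL(2, ℚ_[q]))
        (x₁ x₂ : X3 p q) (ρ₁ ρ₂ : ℚ), CF p q D₁ r₁ s₁ h₁ k₁ x₁ → CF p q D₂ r₂ s₂ h₂ k₂ x₂ →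
        Bd ((p : ℝ) ^ c) (h₁ : Matrix (Fin 2) (Fin 2) ℚ_[p]) →
        Bd ((p : ℝ) ^ c) (h₂ : Matrix (Fin 2) (Fin 2) ℚ_[p]) → 0 < ρ₁ → 0 < ρ₂ →
        ρ₁ ^ 2 * D₁ = ρ₂ ^ 2 * D₂ → (ρ₁ : ℚ_[p]) * r₁ = ρ₂ * r₂ →
        (p : ℝ) ^ (-(2 * c : ℤ)) ≤ ‖(D₁ : ℚ_[p])‖ →
        (pi3 p q x₁, pi3 p q x₂) ∈ On p q' δ R m →
        Isog N (j3 p q (iP p q h₁ • x₁)) (j3 p q (iP p q h₂ • x₂)) ∨
          ∃ M₁ M₂, DiscL M₁ D₁ ∧ DiscL M₂ D₂ ∧ jL M₁ = j3 p q (iP p q h₁ • x₁) ∧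
            jL M₂ = j3 p q (iP p q h₂ • x₂) ∧ Bad3 p n C r D₁ D₂ M₁ M₂ := by
  have hp1 : (1 : ℝ) < p := by exact_mod_cast (Fact.out : p.Prime).one_lt
  have hpN : 0 < p := (Fact.out : p.Prime).pos
  obtain ⟨c₀, hc₀⟩ := pow_unbounded_of_one_lt R hp1
  have hnum : δ.num ≠ 0 := Rat.num_ne_zero.2 hδ
  refine ⟨(p ^ (c + c₀ + c) * q') ^ 2 * δ.num.natAbs,
    (p ^ (c + c₀ + c) * q') ^ 2 * δ.den * δ.num,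
    2 * (((p ^ (c + c₀ + c) * q' * δ.den : ℕ) : ℝ) * R) ^ 2, ?_, ?_, fun r => ⟨r + 2 * c + c₀, ?_⟩⟩
  · have h2 : 0 < δ.num.natAbs := Int.natAbs_pos.2 hnum
    positivity
  · have := δ.den_pos
    positivity
  intro D₁ D₂ r₁ r₂ s₁ s₂ h₁ h₂ k₁ k₂ x₁ x₂ ρ₁ ρ₂ cf₁ cf₂ b₁ b₂ hρ₁ hρ₂ hρ hr hD hOn
  obtain ⟨P, hP, hB₁, hB₂, hm⟩ := hOn
  obtain ⟨g₁, Θ₁, m₁, e₁, dl₁, fr₁, fp₁⟩ := cf₁.frame hpq
  obtain ⟨g₂, Θ₂, m₂, e₂, dl₂, fr₂, fp₂⟩ := cf₂.frame hpq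
  have hP' := uin_smul hP h₁ h₂
  dsimp only at hP'
  rw [← e₁, ← e₂] at hP'
  rw [uin_j, uin_j, ← e₁, ← e₂]
  rcases uin_core hq' hδ hc₀.le r m₁ m₂ dl₁ dl₂ fr₁ fr₂ fp₁ fp₂ (cf₁.1.sq dl₁.isD.1.le).1 b₁ b₂
    hρ₁ hρ₂ hρ hr hD hP' (HomS.det hP).2 hB₁ hB₂ hm with h | h
  · exact Or.inl h
  · exact Or.inr ⟨_, _, dl₁, dl₂, (latG_spec p g₁).2, (latG_spec p g₂).2, h⟩

end Pool.Agent.EQ
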