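import Pool.Agent.P.MP_ad7a55_nt.ULf2

/-! Leafwise measures: equivariance, restriction and the maximal inequality. -/

set_option autoImplicit false

noncomputable section

open MeasureTheory Topology Filter UpperHalfPlane
open scoped MatrixGroups ENNReal BoundedContinuousFunction

namespace Pool.Agent.EQ

variable {p : ℕ} [Fact p.Prime] {ι : Type} [Fintype ι]
  {W : Type} [TopologicalSpace W] [PolishSpace W] [MeasurableSpace W] [BorelSpace W]
  (φ : Flow (ι → ℚ_[p]) W) (ν : Measure W)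

/-- A transformation that preserves the measure and rescales the flow. -/
structure Sys (T : W ≃ᵐ W) (a : ℚ_[p]) (e : ℤ) : Prop where
  inv : ν.map T = ν
  nrm : ‖a‖ = (p : ℝ) ^ e
  comm : ∀ v w, T (φ v w) = φ (a • v) (T w)

/-- The saturation of a set. -/
def Sat (l : ℤ) (C : Set W) : Set W := {w | ∃ v : ι → ℚ_[p], ‖v‖ ≤ (p : ℝ) ^ l ∧ φ v w ∈ C}

theorem ulf3_neg (v : ι → ℚ_[p]) (w : W) : φ (-v) (φ v w) = w := by
  rw [← φ.map_add, neg_add_cancel, φ.map_zero_apply]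

theorem ulf3_mono {k l : ℤ} (h : l ≤ k) : (p : ℝ) ^ l ≤ (p : ℝ) ^ k :=
  zpow_le_zpow_right₀ (by exact_mod_cast (Fact.out : p.Prime).one_le) h

theorem isCompact_Sat (l : ℤ) {C : Set W} (hC : IsCompact C) : IsCompact (Sat φ l C) := by
  have h : Sat φ l C = (fun z : (ι → ℚ_[p]) × W => φ (-z.1) z.2) ''
      (Metric.closedBall 0 ((p : ℝ) ^ l) ×ˢ C) := by
    ext w
    constructor
    · rintro ⟨v, hv, hw⟩
      exact ⟨(v, φ v w), ⟨mem_closedBall_zero_iff.2 hv, hw⟩, ulf3_neg φ v w⟩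
    · rintro ⟨⟨v, c⟩, ⟨hv, hc⟩, rfl⟩
      refine ⟨v, mem_closedBall_zero_iff.1 hv, ?_⟩
      have := ulf3_neg φ (-v) c
      rw [neg_neg] at this
      simpa only [this] using hc
  rw [h]
  exact ((isCompact_closedBall _ _).prod hC).image
    (φ.continuous continuous_fst.neg continuous_snd)

theorem ulf3_sat_mono {l m : ℤ} (h : m ≤ l) (C : Set W) : Sat φ m C ⊆ Sat φ l C := by
  rintro w ⟨v, hv, hw⟩
  exact ⟨v, hv.trans (ulf3_mono h), hw⟩

theorem ulf3_sat_flow {l : ℤ} (C : Set W) {v : ι → ℚ_[p]} (hv : ‖v‖ ≤ (p : ℝ) ^ l) (w : W) :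
    φ v w ∈ Sat φ l C ↔ w ∈ Sat φ l C := by
  constructor
  · rintro ⟨c, hc, hw⟩
    exact ⟨c + v, norm_add_V hc hv, by rwa [φ.map_add]⟩
  · rintro ⟨c, hc, hw⟩
    refine ⟨c + -v, norm_add_V hc (by rwa [norm_neg]), ?_⟩
    rwa [φ.map_add, ulf3_neg]

/-- The leafwise mass of the complement of a set. -/
def ulf3M (S : Set W) (k l : ℤ) (w : W) : ℝ≥0∞ := lw (dat φ ν w) k l {v | φ v w ∉ S}

theorem ulf3_mset {S : Set W} (hS : MeasurableSet S) (w : W) :
    MeasurableSet {v : ι → ℚ_[p] | φ v w ∉ S} :=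
  (φ.continuous continuous_id continuous_const).measurable hS.compl

theorem ulf3M_flow {S : Set W} (hS : MeasurableSet S) {k : ℤ} (l : ℤ) {c : ι → ℚ_[p]}
    (hc : ‖c‖ ≤ (p : ℝ) ^ k) (w : W) : ulf3M φ ν S k l (φ c w) = ulf3M φ ν S k l w := by
  unfold ulf3M
  rw [← lw_flow φ ν l hc w, Measure.map_apply (measurable_add_const c) (ulf3_mset φ hS w)]
  congr 1
  ext v
  simp only [Set.mem_ofPred_eq, Set.mem_preimage, φ.map_add]

theorem ulf3M_meas {S : Set W} (hS : MeasurableSet S) (k l : ℤ) :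
    Measurable (ulf3M φ ν S k l) := by
  have h := measurable_lw φ ν k l (F := fun z : W × (ι → ℚ_[p]) =>
    Sᶜ.indicator (1 : W → ℝ≥0∞) (φ z.2 z.1))
    ((measurable_one.indicator hS.compl).comp (measurable_flowV φ))
  have e : ulf3M φ ν S k l = fun w => ∫⁻ v, Sᶜ.indicator (1 : W → ℝ≥0∞) (φ v w)
      ∂lw (dat φ ν w) k l := by
    funext w
    unfold ulf3M
    rw [← lintegral_indicator_one (ulf3_mset φ hS w)]
    rfl
  rw [e]
  exact h

variable [IsProbabilityMeasure ν]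

theorem ulf3_av_cond {A : Set W} (hA : MeasurableSet A) (hi : ∀ v w, w ∈ A → φ v w ∈ A) (k : ℤ) :
    avV φ (ProbabilityTheory.cond ν A) k = (ν A)⁻¹ • (avV φ ν k).restrict A := by
  unfold avV ProbabilityTheory.cond
  rw [Measure.restrict_map (measurable_flowV φ) hA, Measure.prod_smul_left, Measure.map_smul,
    Measure.restrict_prod_eq_prod_univ]
  congr 3
  ext z
  simp only [Set.mem_prod, Set.mem_univ, and_true, Set.mem_preimage]
  refine ⟨hi _ _, fun h => ?_⟩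
  have := hi (-z.2) _ h
  rwa [ulf3_neg] at this

theorem dat_cond {A : Set W} (hA : MeasurableSet A) (h0 : ν A ≠ 0)
    (hi : ∀ v w, w ∈ A → φ v w ∈ A) :
    ∀ᵐ w ∂ProbabilityTheory.cond ν A, dat φ (ProbabilityTheory.cond ν A) w = dat φ ν w := by
  have : IsProbabilityMeasure (ProbabilityTheory.cond ν A) :=
    ProbabilityTheory.cond_isProbabilityMeasure h0
  set ν' := ProbabilityTheory.cond ν A with hν'
  have key : ∀ k l : ℤ, ∀ᵐ w ∂ν', l ≤ k → ∀ c : ι → ℚ_[p], ‖c‖ ≤ (p : ℝ) ^ k →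
      dl φ ν' k l (φ c w) = dl φ ν k l (φ c w) := by
    intro k l
    by_cases hl : l ≤ k
    swap
    · exact Eventually.of_forall fun w h => absurd h hl
    have e1 : (avV φ ν' k).withDensity (dl φ ν' k l) = (avV φ ν' k).withDensity (dl φ ν k l) := by
      rw [withDensity_dl φ ν' hl, hν', ulf3_av_cond φ ν hA hi, ulf3_av_cond φ ν hA hi,
        withDensity_smul_measure, ← restrict_withDensity hA, withDensity_dl φ ν hl]
    have e2 := (withDensity_eq_iff_of_sigmaFinite (measurable_dl φ ν' k l).aemeasurable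
      (measurable_dl φ ν k l).aemeasurable).1 e1
    have e3 := ae_forall_flow φ ν' (k := k) (l := l)
      (P := fun w => dl φ ν' k l w = dl φ ν k l w) e2
      (fun v hv w hw => by rw [dl_flow φ ν' k hv, dl_flow φ ν k hv, hw])
    filter_upwards [e3] with w hw _ using hw
  filter_upwards [ae_all_iff.2 fun k => ae_all_iff.2 fun l => key k l] with w hw
  funext k l c
  unfold dat
  split_ifs with h
  · exact hw k l h.1 c h.2
  · rfl

theorem ulf3_one {S : Set W} (hS : MeasurableSet S) {k l : ℤ} (hl : l ≤ k)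
    (hi : ∀ v : ι → ℚ_[p], ‖v‖ ≤ (p : ℝ) ^ l → ∀ w, φ v w ∈ S ↔ w ∈ S) (η : ℝ≥0∞) {B : Set W}
    (hB : MeasurableSet B) (hBi : ∀ v : ι → ℚ_[p], ‖v‖ ≤ (p : ℝ) ^ k → ∀ w, φ v w ∈ B ↔ w ∈ B)
    (hη : ∀ w ∈ B, η ≤ ulf3M φ ν S k l w) : η * ν B ≤ ν (B \ S) := by
  have h := lint_lw φ ν hl (F := (B \ S).indicator 1) (measurable_one.indicator (hB.diff hS))
    (fun v hv w => by
      have : φ v w ∈ B \ S ↔ w ∈ B \ S := by
        rw [Set.mem_sdiff, Set.mem_sdiff, hi v hv, hBi v (hv.trans (ulf3_mono hl))]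
      by_cases hw : w ∈ B \ S
      · rw [Set.indicator_of_mem hw, Set.indicator_of_mem (this.2 hw)]; rfl
      · rw [Set.indicator_of_notMem hw, Set.indicator_of_notMem (mt this.1 hw)])
  rw [lintegral_indicator_one (hB.diff hS)] at h
  rw [← h, ← lintegral_indicator_const hB]
  refine lintegral_mono fun w => ?_
  by_cases hw : w ∈ B
  swap
  · rw [Set.indicator_of_notMem hw]; exact zero_le
  rw [Set.indicator_of_mem hw]
  refine (hη w hw).trans ?_
  unfold ulf3M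
  rw [← lintegral_indicator_one (ulf3_mset φ hS w)]
  refine lintegral_mono_ae ?_
  have hae : ∀ᵐ v ∂lw (dat φ ν w) k l, ‖v‖ ≤ (p : ℝ) ^ k :=
    (withDensity_absolutelyContinuous _ _).ae_le (bmV_ae k)
  filter_upwards [hae] with v hv
  by_cases hv' : v ∈ {v : ι → ℚ_[p] | φ v w ∉ S}
  · rw [Set.indicator_of_mem hv', Set.indicator_of_mem (show φ v w ∈ B \ S from
      ⟨(hBi v hv w).2 hw, hv'⟩)]
    exact le_rfl
  · rw [Set.indicator_of_notMem hv']; exact zero_le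

theorem ulf3_max {S : Set W} (hS : MeasurableSet S) {l : ℤ}
    (hi : ∀ v : ι → ℚ_[p], ‖v‖ ≤ (p : ℝ) ^ l → ∀ w, φ v w ∈ S ↔ w ∈ S) (η : ℝ≥0∞) (n : ℕ) :
    ∀ B : Set W, MeasurableSet B →
      (∀ v : ι → ℚ_[p], ‖v‖ ≤ (p : ℝ) ^ (l + n - 1) → ∀ w, φ v w ∈ B ↔ w ∈ B) →
      η * ν (B ∩ {w | ∃ k : ℤ, l ≤ k ∧ k < l + n ∧ η < ulf3M φ ν S k l w}) ≤ ν (B \ S) := by
  induction n with
  | zero =>
    intro B _ _
    have : B ∩ {w | ∃ k : ℤ, l ≤ k ∧ k < l + (0 : ℕ) ∧ η < ulf3M φ ν S k l w} = ∅ := by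
      ext w
      simp only [Set.mem_inter_iff, Set.mem_ofPred_eq, Set.mem_empty_iff_false, iff_false]
      rintro ⟨-, k, h1, h2, -⟩
      omega
    rw [this]; simp
  | succ n ih =>
    intro B hB hBi
    have e : l + ((n + 1 : ℕ) : ℤ) - 1 = l + n := by push_cast; ring
    rw [e] at hBi
    set G : Set W := {w | η < ulf3M φ ν S (l + n) l w} with hG
    have hGm : MeasurableSet G := measurableSet_lt measurable_const (ulf3M_meas φ ν hS _ _)
    have hGi : ∀ v : ι → ℚ_[p], ‖v‖ ≤ (p : ℝ) ^ (l + n) → ∀ w, φ v w ∈ G ↔ w ∈ G := by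
      intro v hv w
      simp only [hG, Set.mem_ofPred_eq, ulf3M_flow φ ν hS l hv]
    have h1 : η * ν (B ∩ G) ≤ ν ((B ∩ G) \ S) :=
      ulf3_one φ ν hS (k := l + n) (by omega) hi η (hB.inter hGm)
        (fun v hv w => by rw [Set.mem_inter_iff, Set.mem_inter_iff, hBi v hv, hGi v hv])
        (fun w hw => le_of_lt hw.2)
    have h2 := ih (B \ G) (hB.diff hGm) (fun v hv w => by
      have hv' := hv.trans (ulf3_mono (p := p) (show l + n - 1 ≤ l + n by omega))
      rw [Set.mem_sdiff, Set.mem_sdiff, hBi v hv', hGi v hv'])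
    have h3 : B ∩ {w | ∃ k : ℤ, l ≤ k ∧ k < l + (n + 1 : ℕ) ∧ η < ulf3M φ ν S k l w} ⊆
        (B ∩ G) ∪ ((B \ G) ∩ {w | ∃ k : ℤ, l ≤ k ∧ k < l + n ∧ η < ulf3M φ ν S k l w}) := by
      rintro w ⟨hw, k, a1, a2, a3⟩
      by_cases hg : w ∈ G
      · exact Or.inl ⟨hw, hg⟩
      · refine Or.inr ⟨⟨hw, hg⟩, k, a1, ?_, a3⟩
        by_contra hk
        have : k = l + n := by push_cast at a2; omega
        exact hg (by rw [hG]; exact this ▸ a3)
    have h4 : ν ((B ∩ G) \ S) + ν ((B \ G) \ S) = ν (B \ S) := by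
      rw [← measure_inter_add_sdiff (B \ S) hGm]
      congr 2
      · ext w; simp only [Set.mem_sdiff, Set.mem_inter_iff]; tauto
      · ext w; simp only [Set.mem_sdiff]; tauto
    calc _ ≤ η * (ν (B ∩ G) +
          ν ((B \ G) ∩ {w | ∃ k : ℤ, l ≤ k ∧ k < l + n ∧ η < ulf3M φ ν S k l w})) :=
          mul_le_mul_right ((measure_mono h3).trans (measure_union_le _ _)) _
      _ ≤ _ := by rw [mul_add, ← h4]; exact add_le_add h1 h2

omit [IsProbabilityMeasure ν] in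
theorem ulf3M_mono {w : W} (h : Gd φ ν w) (C : Set W) {k l m : ℤ} (hm : m ≤ l) (hl : l ≤ k) :
    ulf3M φ ν (Sat φ l C) k l w ≤ ulf3M φ ν (Sat φ m C) k m w := by
  unfold ulf3M
  rw [← h.level hm hl (S := {v | φ v w ∉ Sat φ l C}) (fun c hc v hv => by
    have : φ (c + v) w = φ v (φ c w) := by rw [add_comm, φ.map_add]
    simp only [Set.mem_ofPred_eq] at hc ⊢
    rwa [this, ulf3_sat_flow φ C hv])]
  exact measure_mono fun v hv hv' => hv (ulf3_sat_mono φ hm C hv')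

theorem doob {C : Set W} (hC : IsCompact C) (η : ℝ≥0∞) :
    η * ν {w | Gd φ ν w ∧ ∃ k l : ℤ, l ≤ k ∧
      η < lw (dat φ ν w) k l {v | φ v w ∉ Sat φ l C}} ≤ ν Cᶜ := by
  set D : ℕ → Set W := fun N => {w | Gd φ ν w ∧ ∃ k : ℤ, -(N : ℤ) ≤ k ∧ k ≤ N ∧
    η < ulf3M φ ν (Sat φ (-(N : ℤ)) C) k (-(N : ℤ)) w} with hD
  have hmono : Monotone D := by
    rintro N N' hN w ⟨hw, k, a1, a2, a3⟩
    exact ⟨hw, k, by omega, by omega, a3.trans_le (ulf3M_mono φ ν hw C (by omega) a1)⟩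
  have hsub : {w | Gd φ ν w ∧ ∃ k l : ℤ, l ≤ k ∧
      η < lw (dat φ ν w) k l {v | φ v w ∉ Sat φ l C}} ⊆ ⋃ N, D N := by
    rintro w ⟨hw, k, l, a1, a2⟩
    refine Set.mem_iUnion.2 ⟨k.natAbs + l.natAbs, hw, k, by omega, by omega, ?_⟩
    exact a2.trans_le (ulf3M_mono φ ν hw C (by omega) a1)
  have hb : ∀ N, η * ν (D N) ≤ ν Cᶜ := by
    intro N
    have h := ulf3_max φ ν (isCompact_Sat φ (-(N : ℤ)) hC).isClosed.measurableSet
      (fun v hv w => ulf3_sat_flow φ C hv w) η (2 * N + 1) Set.univ MeasurableSet.univ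
      (fun _ _ _ => Iff.rfl)
    refine le_trans (mul_le_mul_right (measure_mono ?_) _) (h.trans (measure_mono ?_))
    · rintro w ⟨-, k, a1, a2, a3⟩
      exact ⟨trivial, k, a1, by push_cast; omega, a3⟩
    · rintro w ⟨-, hw⟩ hc
      exact hw ⟨0, by rw [norm_zero]; positivity, by rwa [φ.map_zero_apply]⟩
  refine (mul_le_mul_right (measure_mono hsub) _).trans ?_
  rw [hmono.measure_iUnion, ENNReal.mul_iSup]
  exact iSup_le hb

variable {φ ν}

theorem Sys.ulf3_av {T : W ≃ᵐ W} {a : ℚ_[p]} {e : ℤ} (h : Sys φ ν T a e) (k : ℤ) :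
    (avV φ ν k).map T = avV φ ν (k + e) := by
  have ha : Measurable fun v : ι → ℚ_[p] => a • v := (continuous_const_smul a).measurable
  have e1 : ν.prod (bmV p ι (k + e)) = (ν.prod (bmV p ι k)).map (Prod.map T fun v => a • v) := by
    rw [← Measure.map_prod_map _ _ T.measurable ha, h.inv, bmV_smul k e h.nrm]
  unfold avV
  rw [e1, Measure.map_map T.measurable (measurable_flowV φ),
    Measure.map_map (measurable_flowV φ) (T.measurable.prodMap ha)]
  congr 1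
  funext z
  exact h.comm z.2 z.1

theorem Sys.dat_eq {T : W ≃ᵐ W} {a : ℚ_[p]} {e : ℤ} (h : Sys φ ν T a e) :
    ∀ᵐ w ∂ν, shD a e (dat φ ν (T w)) = dat φ ν w := by
  have hp : (0 : ℝ) < p := by exact_mod_cast (Fact.out : p.Prime).pos
  have hn : ∀ (k : ℤ) (c : ι → ℚ_[p]), ‖a • c‖ ≤ (p : ℝ) ^ (k + e) ↔ ‖c‖ ≤ (p : ℝ) ^ k := by
    intro k c
    rw [norm_smul, h.nrm, zpow_add₀ hp.ne', mul_comm]
    exact mul_le_mul_iff_left₀ (zpow_pos hp e)
  have key : ∀ k l : ℤ, ∀ᵐ w ∂ν, l ≤ k → ∀ c : ι → ℚ_[p], ‖c‖ ≤ (p : ℝ) ^ k →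
      dl φ ν (k + e) (l + e) (T (φ c w)) = dl φ ν k l (φ c w) := by
    intro k l
    by_cases hl : l ≤ k
    swap
    · exact Eventually.of_forall fun w h => absurd h hl
    have e1 : (avV φ ν k).withDensity (fun w => dl φ ν (k + e) (l + e) (T w)) =
        (avV φ ν k).withDensity (dl φ ν k l) := by
      rw [withDensity_dl φ ν hl]
      ext s hs
      have hs' : MeasurableSet (T.symm ⁻¹' s) := T.symm.measurable hs
      have b1 : T ⁻¹' (T.symm ⁻¹' s) = s := by ext w; simp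
      have b2 := setLIntegral_map (μ := avV φ ν k) hs' (measurable_dl φ ν (k + e) (l + e))
        T.measurable
      rw [b1, h.ulf3_av, ← withDensity_apply _ hs', withDensity_dl φ ν (by omega), ← h.ulf3_av,
        Measure.map_apply T.measurable hs', b1] at b2
      rw [withDensity_apply _ hs, b2]
    have e2 := (withDensity_eq_iff_of_sigmaFinite
      ((measurable_dl φ ν (k + e) (l + e)).comp T.measurable).aemeasurable
      (measurable_dl φ ν k l).aemeasurable).1 e1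
    have e3 := ae_forall_flow φ ν (k := k) (l := l)
      (P := fun w => dl φ ν (k + e) (l + e) (T w) = dl φ ν k l w) e2
      (fun v hv w hw => by
        rw [h.comm, dl_flow φ ν (k + e) ((hn l v).2 hv), dl_flow φ ν k hv, hw])
    filter_upwards [e3] with w hw _ using hw
  filter_upwards [ae_all_iff.2 fun k => ae_all_iff.2 fun l => key k l] with w hw
  funext k l c
  unfold shD dat
  by_cases hc : l ≤ k ∧ ‖c‖ ≤ (p : ℝ) ^ k
  · rw [if_pos hc, if_pos ⟨by omega, (hn k c).2 hc.2⟩, ← h.comm]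
    exact hw k l hc.1 c hc.2
  · rw [if_neg hc, if_neg fun h' => hc ⟨by omega, (hn k c).1 h'.2⟩]

end Pool.Agent.EQ
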