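import Pool.Agent.P.MP_ad7a55_nt.UMe
import Pool.Agent.P.MP_ad7a55_nt.UGn
import Pool.Agent.P.MP_ad7a55_nt.ULf3

/-! Joinings of the rank two action. -/

set_option autoImplicit false

noncomputable section

open MeasureTheory Topology Filter UpperHalfPlane
open scoped MatrixGroups ENNReal BoundedContinuousFunction

namespace Pool.Agent.EQ

open ProbabilityTheory

variable (p q : ℕ) [Fact p.Prime] [Fact q.Prime] {κ : Type} [Fintype κ]

/-- Measures invariant under the two diagonal elements with invariant marginals. -/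
structure Jn (M : ℕ) (h : κ → SL(2, ℚ_[q])) (ν : Measure (κ → X3 p q)) : Prop where
  ne : p ≠ q
  pos : 0 < M
  prob : IsProbabilityMeasure ν
  a : al p q κ M ∈ Stab (κ → G3 p q) ν
  b : be p q h M ∈ Stab (κ → G3 p q) ν
  marg : ∀ k, ν.map (fun w => w k) = m3 p q

variable {p q} {M : ℕ} {h : κ → SL(2, ℚ_[q])} {ν : Measure (κ → X3 p q)}

theorem al_mul (s t : ℕ) : al p q κ (s * t) = al p q κ s ^ t := by
  funext k
  simp only [al, Pi.pow_apply, a3_mul]

theorem al_add (s t : ℕ) : al p q κ (s + t) = al p q κ s * al p q κ t := by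
  funext k
  simp only [al, Pi.mul_apply, a3_add]

theorem al_iter (s t : ℕ) (w : κ → X3 p q) :
    (fun w : κ → X3 p q => al p q κ s • w)^[t] w = al p q κ (s * t) • w := by
  rw [al_mul, smul_iterate_apply]

theorem al_be (h : κ → SL(2, ℚ_[q])) (s t : ℕ) :
    al p q κ s * be p q h t = be p q h t * al p q κ s := by
  funext k
  simp only [al, be, Pi.mul_apply, a3_b3]

theorem Jn.al_mem (H : Jn p q M h ν) (t : ℕ) : al p q κ (M * t) ∈ Stab (κ → G3 p q) ν := by
  rw [al_mul]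
  exact Subgroup.pow_mem _ H.a t

theorem Jn.sys (H : Jn p q M h ν) (t : ℕ) :
    Sys (fl3 p q κ) ν (MeasurableEquiv.smul (al p q κ (M * t))) ((p : ℚ_[p]) ^ (2 * (M * t)))
      (-(2 * (M * t) : ℕ)) := by
  refine ⟨mem_Stab.1 (H.al_mem t), ?_, fun v w => ?_⟩
  · rw [norm_pow, Padic.norm_p, zpow_neg, zpow_natCast, inv_pow]
  · change al p q κ (M * t) • fl3 p q κ v w =
      fl3 p q κ (((p : ℚ_[p]) ^ (2 * (M * t))) • v) (al p q κ (M * t) • w)
    rw [fl3_apply, fl3_apply]
    funext k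
    change a3 p q (M * t) • u3 p q (v k) • w k =
      u3 p q ((p : ℚ_[p]) ^ (2 * (M * t)) * v k) • a3 p q (M * t) • w k
    rw [← mul_smul, ← mul_smul, a3_u3]

theorem Jn.dat_a (H : Jn p q M h ν) : ∀ᵐ w ∂ν, ∀ t : ℕ,
    shD ((p : ℚ_[p]) ^ (2 * (M * t))) (-(2 * (M * t) : ℕ))
      (dat (fl3 p q κ) ν (al p q κ (M * t) • w)) = dat (fl3 p q κ) ν w := by
  have := H.prob
  exact ae_all_iff.2 fun t => (H.sys t).dat_eq

theorem ujn_shD_one {ι : Type} [Fintype ι] (δ : Dat p ι) : shD 1 0 δ = δ := by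
  funext k l c
  simp only [shD, add_zero, one_smul]

theorem Jn.dat_b (H : Jn p q M h ν) :
    ∀ᵐ w ∂ν, dat (fl3 p q κ) ν (be p q h M • w) = dat (fl3 p q κ) ν w := by
  have := H.prob
  have hs : Sys (fl3 p q κ) ν (MeasurableEquiv.smul (be p q h M)) (1 : ℚ_[p]) 0 := by
    refine ⟨mem_Stab.1 H.b, by simp, fun v w => ?_⟩
    change be p q h M • fl3 p q κ v w = fl3 p q κ ((1 : ℚ_[p]) • v) (be p q h M • w)
    rw [one_smul, fl3_apply, fl3_apply]
    funext k
    change b3 p q (h k) M • u3 p q (v k) • w k = u3 p q (v k) • b3 p q (h k) M • w k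
    rw [← mul_smul, ← mul_smul, b3_u3]
  filter_upwards [hs.dat_eq] with w hw
  rw [ujn_shD_one] at hw
  exact hw

theorem Jn.ae_al (H : Jn p q M h ν) {P : (κ → X3 p q) → Prop} (hP : ∀ᵐ w ∂ν, P w) :
    ∀ᵐ w ∂ν, ∀ t : ℕ, P (al p q κ (M * t) • w) := by
  refine ae_all_iff.2 fun t => ?_
  have h1 : ν.map (fun w => al p q κ (M * t) • w) = ν := mem_Stab.1 (H.al_mem t)
  rw [← h1] at hP
  exact ae_of_ae_map (measurable_const_smul _).aemeasurable hP

/-- The marginal of an invariant measure is invariant. -/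
theorem ujn_marg_inv {μ : Measure (κ → X3 p q)} {g : κ → G3 p q}
    (hg : g ∈ Stab (κ → G3 p q) μ) (k : κ) :
    (μ.map fun x => x k).map (fun x => g k • x) = μ.map fun x => x k := by
  have h1 : μ.map (fun w => g • w) = μ := mem_Stab.1 hg
  have hm : Measurable fun x : κ → X3 p q => x k := measurable_pi_apply k
  have hk : Measurable fun x : X3 p q => g k • x := measurable_const_smul _
  have hg' : Measurable fun w : κ → X3 p q => g • w := measurable_const_smul _
  conv_rhs => rw [← h1]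
  rw [Measure.map_map hk hm, Measure.map_map hm hg']
  rfl

theorem ujn_marg (H : Jn p q M h ν) (ρ : Kernel (κ → X3 p q) (κ → X3 p q)) [IsMarkovKernel ρ]
    (hb : ν.bind ρ = ν) {g : κ → G3 p q}
    (hg : ∀ k, Ergodic (fun x : X3 p q => g k • x) (m3 p q))
    (hi : ∀ᵐ w ∂ν, g ∈ Stab (κ → G3 p q) (ρ w)) :
    ∀ᵐ w ∂ν, ∀ k, (ρ w).map (fun x => x k) = m3 p q := by
  have := H.prob
  refine ae_all_iff.2 fun k => ?_
  have hm : Measurable fun x : κ → X3 p q => x k := measurable_pi_apply k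
  have : IsMarkovKernel (ρ.map fun x => x k) := Kernel.IsMarkovKernel.map ρ hm
  have h1 : ν.bind (ρ.map fun x => x k) = m3 p q := by
    rw [← Measure.map_comp ν ρ hm, hb, H.marg k]
  have h2 : ∀ᵐ w ∂ν, ((ρ.map fun x => x k) w).map (fun x => g k • x) =
      (ρ.map fun x => x k) w := by
    filter_upwards [hi] with w hw
    rw [Kernel.map_apply _ hm]
    exact ujn_marg_inv hw k
  filter_upwards [ae_eq_of_ergodic ν (hg k) (ρ.map fun x => x k) h1 h2] with w hw
  rwa [Kernel.map_apply _ hm] at hw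

theorem Jn.marg_a (H : Jn p q M h ν) (ρ : Kernel (κ → X3 p q) (κ → X3 p q)) [IsMarkovKernel ρ]
    (hb : ν.bind ρ = ν) (hi : ∀ᵐ w ∂ν, al p q κ M ∈ Stab (κ → G3 p q) (ρ w)) :
    ∀ᵐ w ∂ν, ∀ k, (ρ w).map (fun x => x k) = m3 p q :=
  ujn_marg H ρ hb (fun _ => erg_a3 H.ne H.pos) hi

theorem Jn.marg_b (H : Jn p q M h ν) (ρ : Kernel (κ → X3 p q) (κ → X3 p q)) [IsMarkovKernel ρ]
    (hb : ν.bind ρ = ν) (hi : ∀ᵐ w ∂ν, be p q h M ∈ Stab (κ → G3 p q) (ρ w)) :
    ∀ᵐ w ∂ν, ∀ k, (ρ w).map (fun x => x k) = m3 p q :=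
  ujn_marg H ρ hb (fun k => erg_b3 H.ne (h k) H.pos) hi

theorem ujn_cond_map {W : Type} [MeasurableSpace W] {μ : Measure W} {T : W → W}
    (hT : Measurable T) (hμ : μ.map T = μ) {A : Set W} (hA : MeasurableSet A)
    (ha : ∀ᵐ w ∂μ, T w ∈ A ↔ w ∈ A) :
    (ProbabilityTheory.cond μ A).map T = ProbabilityTheory.cond μ A := by
  have h1 : μ.restrict (T ⁻¹' A) = μ.restrict A := by
    refine Measure.restrict_congr_set ?_
    filter_upwards [ha] with w hw
    exact propext hw
  have h2 : (μ.restrict A).map T = μ.restrict A := by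
    conv_rhs => rw [← hμ]
    rw [Measure.restrict_map hT hA, h1]
  unfold ProbabilityTheory.cond
  rw [Measure.map_smul, h2]

theorem Jn.cond (H : Jn p q M h ν) {A : Set (κ → X3 p q)} (hA : MeasurableSet A) (h0 : ν A ≠ 0)
    (ha : ∀ᵐ w ∂ν, al p q κ M • w ∈ A ↔ w ∈ A) (hb : ∀ᵐ w ∂ν, be p q h M • w ∈ A ↔ w ∈ A) :
    Jn p q M h (ProbabilityTheory.cond ν A) := by
  have := H.prob
  have hP : IsProbabilityMeasure (ProbabilityTheory.cond ν A) := cond_isProbabilityMeasure h0
  have h1 : al p q κ M ∈ Stab (κ → G3 p q) (ProbabilityTheory.cond ν A) :=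
    mem_Stab.2 (ujn_cond_map (measurable_const_smul _) (mem_Stab.1 H.a) hA ha)
  have h2 : be p q h M ∈ Stab (κ → G3 p q) (ProbabilityTheory.cond ν A) :=
    mem_Stab.2 (ujn_cond_map (measurable_const_smul _) (mem_Stab.1 H.b) hA hb)
  refine ⟨H.ne, H.pos, hP, h1, h2, fun k => ?_⟩
  have hm : Measurable fun x : κ → X3 p q => x k := measurable_pi_apply k
  have : IsProbabilityMeasure ((ProbabilityTheory.cond ν A).map fun x => x k) :=
    Measure.isProbabilityMeasure_map hm.aemeasurable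
  refine eq_of_le_ergodic (erg_a3 H.ne H.pos) (ujn_marg_inv h1 k) ?_
  rw [← H.marg k]
  exact cond_absolutelyContinuous.map hm

theorem ujn_sub_inv (P : κ → Prop) [DecidablePred P] {g : κ → G3 p q}
    (hg : g ∈ Stab (κ → G3 p q) ν) :
    (fun k : {k // P k} => g k) ∈ Stab ({k // P k} → G3 p q)
      (ν.map fun w (k : {k // P k}) => w k) := by
  have hm : Measurable fun (w : κ → X3 p q) (k : {k // P k}) => w k :=
    measurable_pi_lambda _ fun k => measurable_pi_apply _
  have h1 : ν.map (fun w => g • w) = ν := mem_Stab.1 hg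
  rw [mem_Stab]
  conv_rhs => rw [← h1]
  rw [Measure.map_map (measurable_const_smul _) hm, Measure.map_map hm (measurable_const_smul _)]
  rfl

theorem Jn.sub (H : Jn p q M h ν) (P : κ → Prop) [DecidablePred P] :
    Jn p q M (fun k : {k // P k} => h k) (ν.map fun w (k : {k // P k}) => w k) := by
  have := H.prob
  have hm : Measurable fun (w : κ → X3 p q) (k : {k // P k}) => w k :=
    measurable_pi_lambda _ fun k => measurable_pi_apply _
  refine ⟨H.ne, H.pos, Measure.isProbabilityMeasure_map hm.aemeasurable, ujn_sub_inv P H.a,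
    ujn_sub_inv P H.b, fun k => ?_⟩
  rw [Measure.map_map (measurable_pi_apply k) hm]
  exact H.marg k

end Pool.Agent.EQ
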