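import Pool.Agent.P.MP_ad7a55_nt.Beta2

/-! Leafwise measures of a flow of a vector group: definitions and the basic identity. -/

set_option autoImplicit false

noncomputable section

open MeasureTheory Topology Filter UpperHalfPlane
open scoped MatrixGroups ENNReal BoundedContinuousFunction

namespace Pool.Agent.EQ

/-- The normalised Haar measure of the ball of radius `p ^ k`. -/
def bmV (p : ℕ) [Fact p.Prime] (ι : Type) [Fintype ι] (k : ℤ) : Measure (ι → ℚ_[p]) :=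
  Measure.pi fun _ => bm p k

instance instProbbmV (p : ℕ) [Fact p.Prime] (ι : Type) [Fintype ι] (k : ℤ) :
    IsProbabilityMeasure (bmV p ι k) := by
  unfold bmV; infer_instance

variable {p : ℕ} [Fact p.Prime] {ι : Type} [Fintype ι]

theorem ulf_norm_iff {k : ℤ} {v : ι → ℚ_[p]} :
    ‖v‖ ≤ (p : ℝ) ^ k ↔ ∀ i, ‖v i‖ ≤ (p : ℝ) ^ k :=
  pi_norm_le_iff_of_nonneg (beta_pos p k).le

theorem ulf_ball (c : ι → ℚ_[p]) (l : ℤ) :
    {v : ι → ℚ_[p] | ‖v - c‖ ≤ (p : ℝ) ^ l} = Set.pi Set.univ fun i => pb p (c i) l := by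
  ext v
  simp only [Set.mem_ofPred_eq, ulf_norm_iff, Set.mem_pi, Set.mem_univ, true_imp_iff, mem_pb,
    Pi.sub_apply]

theorem ulf_ball0 (l : ℤ) :
    {v : ι → ℚ_[p] | ‖v‖ ≤ (p : ℝ) ^ l} = Set.pi Set.univ fun _ => pb p 0 l := by
  ext v
  simp only [Set.mem_ofPred_eq, ulf_norm_iff, Set.mem_pi, Set.mem_univ, true_imp_iff, mem_pb,
    sub_zero]

theorem ulf_pow (m : ℤ) : ∏ _i : ι, ENNReal.ofReal ((p : ℝ) ^ m) =
    ENNReal.ofReal ((p : ℝ) ^ (m * Fintype.card ι)) := by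
  rw [Finset.prod_const, Finset.card_univ, ← ENNReal.ofReal_pow (beta_pos p m).le, zpow_mul,
    zpow_natCast]

theorem ulf_one {k l : ℤ} (hl : l ≤ k) (E : Set ℚ_[p]) :
    bm p l E = ENNReal.ofReal ((p : ℝ) ^ (k - l)) * bm p k (E ∩ pb p 0 l) := by
  rw [beta_apply, beta_apply, ← betaH_div, ← mul_assoc, mul_assoc _ (betaH p k),
    ENNReal.mul_inv_cancel (betaH_ne_zero p k) (betaH_ne_top p k), mul_one]
  congr 2
  ext s
  exact ⟨fun h => ⟨beta_sub p 0 hl h.1, h.2, h.1⟩, fun h => ⟨h.2.2, h.2.1⟩⟩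

theorem bmV_ae (k : ℤ) : ∀ᵐ v ∂bmV p ι k, ‖v‖ ≤ (p : ℝ) ^ k := by
  have h : ∀ᵐ v ∂bmV p ι k, ∀ i, ‖v i‖ ≤ (p : ℝ) ^ k :=
    ae_all_iff.2 fun i =>
      (Measure.quasiMeasurePreserving_eval (fun _ : ι => bm p k) i).ae (bm_ae p k)
  exact h.mono fun v hv => ulf_norm_iff.2 hv

theorem bmV_add {k : ℤ} {c : ι → ℚ_[p]} (hc : ‖c‖ ≤ (p : ℝ) ^ k) :
    (bmV p ι k).map (fun v => v + c) = bmV p ι k := by
  have h : ∀ i, MeasurePreserving (fun s => s + c i) (bm p k) (bm p k) := fun i =>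
    ⟨measurable_add_const _, bm_add p (ulf_norm_iff.1 hc i)⟩
  exact (measurePreserving_pi (fun _ : ι => bm p k) (fun _ : ι => bm p k) h).map_eq

theorem bmV_ball {k l : ℤ} (hl : l ≤ k) {c : ι → ℚ_[p]} (hc : ‖c‖ ≤ (p : ℝ) ^ k) :
    bmV p ι k {v | ‖v - c‖ ≤ (p : ℝ) ^ l} =
      ENNReal.ofReal ((p : ℝ) ^ ((l - k) * Fintype.card ι)) := by
  rw [ulf_ball, bmV, Measure.pi_pi, ← ulf_pow]
  exact Finset.prod_congr rfl fun i _ => bm_ball p hl (ulf_norm_iff.1 hc i)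

theorem bmV_restrict {k l : ℤ} (hl : l ≤ k) :
    bmV p ι l = ENNReal.ofReal ((p : ℝ) ^ ((k - l) * Fintype.card ι)) •
      (bmV p ι k).restrict {v | ‖v‖ ≤ (p : ℝ) ^ l} := by
  unfold bmV
  refine Measure.pi_eq fun s hs => ?_
  rw [Measure.smul_apply, Measure.restrict_apply (MeasurableSet.univ_pi hs), ulf_ball0,
    ← Set.pi_inter_distrib, Measure.pi_pi, ← ulf_pow, smul_eq_mul, ← Finset.prod_mul_distrib]
  exact Finset.prod_congr rfl fun i _ => (ulf_one hl _).symm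

theorem bmV_smul (k e : ℤ) {a : ℚ_[p]} (ha : ‖a‖ = (p : ℝ) ^ e) :
    (bmV p ι k).map (fun v => a • v) = bmV p ι (k + e) := by
  have h : ∀ _i : ι, MeasurePreserving (fun s => a * s) (bm p k) (bm p (k + e)) := fun _ =>
    ⟨measurable_const_mul _, bm_mul p k e ha⟩
  exact (measurePreserving_pi (fun _ : ι => bm p k) (fun _ : ι => bm p (k + e)) h).map_eq

theorem norm_add_V {k : ℤ} {v w : ι → ℚ_[p]} (hv : ‖v‖ ≤ (p : ℝ) ^ k) (hw : ‖w‖ ≤ (p : ℝ) ^ k) :
    ‖v + w‖ ≤ (p : ℝ) ^ k := by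
  rw [ulf_norm_iff] at hv hw ⊢
  exact fun i => (IsUltrametricDist.norm_add_le_max _ _).trans (max_le (hv i) (hw i))

theorem exists_rat_V (c : ι → ℚ_[p]) (l : ℤ) :
    ∃ r : ι → ℚ, ‖c - fun i => (r i : ℚ_[p])‖ ≤ (p : ℝ) ^ l := by
  choose r hr using fun i => Padic.rat_dense p (c i) (beta_pos p l)
  exact ⟨r, ulf_norm_iff.2 fun i => (hr i).le⟩

/-- A property that holds almost everywhere and depends on a residue class holds everywhere. -/
theorem forall_of_ae_V {k l : ℤ} {P : (ι → ℚ_[p]) → Prop} (h : ∀ᵐ v ∂bmV p ι k, P v)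
    (hP : ∀ c v, ‖v‖ ≤ (p : ℝ) ^ l → P c → P (c + v)) {c : ι → ℚ_[p]} (hc : ‖c‖ ≤ (p : ℝ) ^ k) :
    P c := by
  by_contra hn
  have h1 : bmV p ι k {v | ‖v - c‖ ≤ (p : ℝ) ^ (min l k)} = 0 := by
    have h0 : bmV p ι k {v | ¬ P v} = 0 := ae_iff.1 h
    refine measure_mono_null (fun v hv => ?_) h0
    refine fun hPv : P v => hn ?_
    have h2 : ‖c - v‖ ≤ (p : ℝ) ^ l := by
      rw [norm_sub_rev]
      exact le_trans hv (beta_mono p (min_le_left _ _))
    have h3 := hP v (c - v) h2 hPv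
    rwa [add_sub_cancel] at h3
  rw [bmV_ball (min_le_right _ _) hc, ENNReal.ofReal_eq_zero] at h1
  exact absurd (beta_pos p _) (not_lt.2 h1)

variable {W : Type} [TopologicalSpace W] [PolishSpace W] [MeasurableSpace W] [BorelSpace W]
  (φ : Flow (ι → ℚ_[p]) W) (ν : Measure W)

/-- The average of `ν` over the ball of radius `p ^ k`. -/
def avV (k : ℤ) : Measure W := (ν.prod (bmV p ι k)).map fun z => φ z.2 z.1

/-- The density of `avV l` with respect to `avV k`, made invariant. -/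
def dl (k l : ℤ) (w : W) : ℝ≥0∞ :=
  ∫⁻ v, (avV φ ν l).rnDeriv (avV φ ν k) (φ v w) ∂bmV p ι l

theorem measurable_flowV : Measurable fun z : W × (ι → ℚ_[p]) => φ z.2 z.1 := by
  exact (φ.continuous continuous_snd continuous_fst).measurable

instance instProbavV [IsProbabilityMeasure ν] (k : ℤ) : IsProbabilityMeasure (avV φ ν k) :=
  Measure.isProbabilityMeasure_map (measurable_flowV φ).aemeasurable

theorem ulf_meas (c : ι → ℚ_[p]) : Measurable (φ c) :=
  (φ.continuous continuous_const continuous_id).measurable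

theorem ulf_meas' (w : W) : Measurable fun v : ι → ℚ_[p] => φ v w :=
  (φ.continuous continuous_id continuous_const).measurable

theorem ulf_shift {k : ℤ} {c : ι → ℚ_[p]} (hc : ‖c‖ ≤ (p : ℝ) ^ k) {F : W → ℝ≥0∞}
    (hF : Measurable F) (w : W) :
    ∫⁻ v, F (φ (v + c) w) ∂bmV p ι k = ∫⁻ v, F (φ v w) ∂bmV p ι k := by
  have h := lintegral_map (μ := bmV p ι k) (hF.comp (ulf_meas' φ w)) (measurable_add_const c)
  rw [bmV_add hc] at h
  exact h.symm

theorem measurable_dl (k l : ℤ) : Measurable (dl φ ν k l) := by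
  exact Measurable.lintegral_prod_right'
    (((avV φ ν l).measurable_rnDeriv (avV φ ν k)).comp (measurable_flowV φ))

theorem dl_flow (k : ℤ) {l : ℤ} {c : ι → ℚ_[p]} (hc : ‖c‖ ≤ (p : ℝ) ^ l) (w : W) :
    dl φ ν k l (φ c w) = dl φ ν k l w := by
  unfold dl
  rw [← ulf_shift φ hc ((avV φ ν l).measurable_rnDeriv (avV φ ν k)) w]
  exact lintegral_congr fun v => by rw [φ.map_add]

variable [IsProbabilityMeasure ν]

theorem lint_avV (k : ℤ) {F : W → ℝ≥0∞} (hF : Measurable F) :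
    ∫⁻ w, F w ∂avV φ ν k = ∫⁻ w, ∫⁻ v, F (φ v w) ∂bmV p ι k ∂ν := by
  rw [avV, lintegral_map hF (measurable_flowV φ)]
  exact lintegral_prod _ (hF.comp (measurable_flowV φ)).aemeasurable

theorem avV_flow {k : ℤ} {c : ι → ℚ_[p]} (hc : ‖c‖ ≤ (p : ℝ) ^ k) :
    (avV φ ν k).map (φ c) = avV φ ν k := by
  refine Measure.ext_of_lintegral _ fun F hF => ?_
  rw [lintegral_map hF (ulf_meas φ c), lint_avV φ ν k hF,
    lint_avV φ ν k (F := fun w => F (φ c w)) (hF.comp (ulf_meas φ c))]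
  refine lintegral_congr fun w => ?_
  rw [← ulf_shift φ hc hF w]
  exact lintegral_congr fun v => by rw [add_comm v c, φ.map_add]

theorem ulf_flow_lint {k : ℤ} {c : ι → ℚ_[p]} (hc : ‖c‖ ≤ (p : ℝ) ^ k) {F : W → ℝ≥0∞}
    (hF : Measurable F) : ∫⁻ w, F (φ c w) ∂avV φ ν k = ∫⁻ w, F w ∂avV φ ν k := by
  rw [← lintegral_map hF (ulf_meas φ c), avV_flow φ ν hc]

theorem avV_le {k l : ℤ} (hl : l ≤ k) :
    avV φ ν l ≤ ENNReal.ofReal ((p : ℝ) ^ ((k - l) * Fintype.card ι)) • avV φ ν k := by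
  refine Measure.le_iff.2 fun s hs => ?_
  have hF : Measurable (s.indicator (1 : W → ℝ≥0∞)) := measurable_one.indicator hs
  rw [Measure.smul_apply, smul_eq_mul, ← lintegral_indicator_one hs, ← lintegral_indicator_one hs,
    lint_avV φ ν l hF, lint_avV φ ν k hF, ← lintegral_const_mul' _ _ ENNReal.ofReal_ne_top]
  refine lintegral_mono fun w => ?_
  rw [bmV_restrict hl, lintegral_smul_measure, smul_eq_mul]
  exact mul_le_mul_right (lintegral_mono' Measure.restrict_le_self le_rfl) _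

theorem withDensity_dl {k l : ℤ} (hl : l ≤ k) :
    (avV φ ν k).withDensity (dl φ ν k l) = avV φ ν l := by
  have hac : avV φ ν l ≪ avV φ ν k := Measure.absolutelyContinuous_of_le_smul (avV_le φ ν hl)
  have hD : Measurable ((avV φ ν l).rnDeriv (avV φ ν k)) := Measure.measurable_rnDeriv _ _
  refine Measure.ext_of_lintegral _ fun F hF => ?_
  rw [lintegral_withDensity_eq_lintegral_mul _ (measurable_dl φ ν k l) hF]
  have h1 : ∀ w, (dl φ ν k l * F) w =
      ∫⁻ v, (avV φ ν l).rnDeriv (avV φ ν k) (φ v w) * F w ∂bmV p ι l := fun w => by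
    rw [Pi.mul_apply, dl]
    exact (lintegral_mul_const _ (hD.comp (ulf_meas' φ w))).symm
  have h2 : Measurable fun z : W × (ι → ℚ_[p]) =>
      (avV φ ν l).rnDeriv (avV φ ν k) (φ z.2 z.1) * F z.1 :=
    (hD.comp (measurable_flowV φ)).mul (hF.comp measurable_fst)
  rw [lintegral_congr h1, lintegral_lintegral_swap h2.aemeasurable]
  have h3 : ∀ᵐ v ∂bmV p ι l, ∫⁻ w, (avV φ ν l).rnDeriv (avV φ ν k) (φ v w) * F w ∂avV φ ν k =
      ∫⁻ w, F w ∂avV φ ν l := by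
    refine (bmV_ae l).mono fun v hv => ?_
    have hG : Measurable fun w => F (φ (-v) w) := hF.comp (ulf_meas φ (-v))
    have h4 := ulf_flow_lint φ ν (hv.trans (beta_mono p hl))
      (F := fun w => (avV φ ν l).rnDeriv (avV φ ν k) w * F (φ (-v) w)) (hD.mul hG)
    have h5 : ∀ w, φ (-v) (φ v w) = w := fun w => by
      rw [← φ.map_add, neg_add_cancel, φ.map_zero_apply]
    simp only [h5] at h4
    rw [h4, lintegral_rnDeriv_mul hac hG.aemeasurable]
    exact ulf_flow_lint φ ν (by rw [norm_neg]; exact hv) hF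
  rw [lintegral_congr_ae h3, lintegral_const, measure_univ, mul_one]

theorem lint_inv {l : ℤ} {F : W → ℝ≥0∞} (hF : Measurable F)
    (hi : ∀ v : ι → ℚ_[p], ‖v‖ ≤ (p : ℝ) ^ l → ∀ w, F (φ v w) = F w) :
    ∫⁻ w, F w ∂avV φ ν l = ∫⁻ w, F w ∂ν := by
  rw [lint_avV φ ν l hF]
  refine lintegral_congr fun w => ?_
  rw [lintegral_congr_ae ((bmV_ae l).mono fun v hv => hi v hv w), lintegral_const, measure_univ,
    mul_one]

/-- From almost every point of the average to all points of almost every plaque. -/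
theorem ae_forall_flow {k l : ℤ} {P : W → Prop} (h : ∀ᵐ w ∂avV φ ν k, P w)
    (hP : ∀ v : ι → ℚ_[p], ‖v‖ ≤ (p : ℝ) ^ l → ∀ w, P w → P (φ v w)) :
    ∀ᵐ w ∂ν, ∀ c : ι → ℚ_[p], ‖c‖ ≤ (p : ℝ) ^ k → P (φ c w) := by
  have h1 := Measure.ae_ae_of_ae_prod (ae_of_ae_map (measurable_flowV φ).aemeasurable h)
  refine h1.mono fun w hw c hc => ?_
  refine forall_of_ae_V (l := l) (P := fun v => P (φ v w)) hw (fun c v hv hPc => ?_) hc
  rw [add_comm, φ.map_add]
  exact hP v hv _ hPc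

end Pool.Agent.EQ
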