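import Pool.Agent.P.MP_ad7a55_nt.ULf

/-! Leafwise measures: the data of a point and good points. -/

set_option autoImplicit false

noncomputable section

open MeasureTheory Topology Filter UpperHalfPlane
open scoped MatrixGroups ENNReal BoundedContinuousFunction

namespace Pool.Agent.EQ

/-- Leafwise data. -/
abbrev Dat (p : ℕ) [Fact p.Prime] (ι : Type) : Type := ℤ → ℤ → (ι → ℚ_[p]) → ℝ≥0∞

variable {p : ℕ} [Fact p.Prime] {ι : Type} [Fintype ι]

/-- The leafwise measure on the ball of radius `p ^ k`, smoothed at the scale `p ^ l`. -/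
def lw (δ : Dat p ι) (k l : ℤ) : Measure (ι → ℚ_[p]) := (bmV p ι k).withDensity (δ k l)

/-- Rescaled data. -/
def shD (a : ℚ_[p]) (e : ℤ) (δ : Dat p ι) : Dat p ι := fun k l c => δ (k + e) (l + e) (a • c)

def IvD (δ : Dat p ι) : Prop :=
  ∀ (k l : ℤ) (c v : ι → ℚ_[p]), ‖v‖ ≤ (p : ℝ) ^ l → δ k l (c + v) = δ k l c

theorem ulf2_open {l : ℤ} {S : Set (ι → ℚ_[p])}
    (hS : ∀ c ∈ S, ∀ v : ι → ℚ_[p], ‖v‖ ≤ (p : ℝ) ^ l → c + v ∈ S) : IsOpen S := by
  refine Metric.isOpen_iff.2 fun c hc => ⟨_, beta_pos p l, fun x hx => ?_⟩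
  have := hS c hc (x - c) (by rw [← dist_eq_norm]; exact (Metric.mem_ball.1 hx).le)
  rwa [add_sub_cancel] at this

theorem ulf2_map_wd {α β : Type} [MeasurableSpace α] [MeasurableSpace β] (e : α ≃ᵐ β)
    (μ : Measure α) (f : β → ℝ≥0∞) :
    (μ.withDensity fun x => f (e x)).map e = (μ.map e).withDensity f := by
  ext s hs
  rw [e.map_apply, withDensity_apply _ (e.measurable hs), withDensity_apply _ hs,
    e.measurableEmbedding.restrict_map, lintegral_map_equiv]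

theorem ulf2_iff {k : ℤ} {c v : ι → ℚ_[p]} (hv : ‖v‖ ≤ (p : ℝ) ^ k) :
    ‖c + v‖ ≤ (p : ℝ) ^ k ↔ ‖c‖ ≤ (p : ℝ) ^ k := by
  refine ⟨fun h => ?_, fun h => norm_add_V h hv⟩
  have := norm_add_V h (norm_neg v ▸ hv : ‖-v‖ ≤ (p : ℝ) ^ k)
  rwa [add_neg_cancel_right] at this

theorem ulf2_zero (k : ℤ) : ‖(0 : ι → ℚ_[p])‖ ≤ (p : ℝ) ^ k := by
  rw [norm_zero]; exact (beta_pos p k).le

theorem ulf2_rat {P : (ι → ℚ_[p]) → Prop} (m : ℤ)
    (hP : ∀ c v, ‖v‖ ≤ (p : ℝ) ^ m → P c → P (c + v))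
    (h : ∀ r : ι → ℚ, P fun i => (r i : ℚ_[p])) (c : ι → ℚ_[p]) : P c := by
  obtain ⟨r, hr⟩ := exists_rat_V c m
  have := hP _ _ hr (h r)
  rwa [add_sub_cancel] at this

theorem ulf2_lint_add {k : ℤ} {c : ι → ℚ_[p]} (hc : ‖c‖ ≤ (p : ℝ) ^ k) (f : (ι → ℚ_[p]) → ℝ≥0∞) :
    ∫⁻ v, f (v + c) ∂bmV p ι k = ∫⁻ v, f v ∂bmV p ι k := by
  conv_rhs => rw [← bmV_add hc]
  exact (lintegral_map_equiv f (MeasurableEquiv.addRight c)).symm

theorem ulf2_lint_neg (k : ℤ) (f : (ι → ℚ_[p]) → ℝ≥0∞) :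
    ∫⁻ v, f (-v) ∂bmV p ι k = ∫⁻ v, f v ∂bmV p ι k := by
  have h := bmV_smul (p := p) (ι := ι) k 0 (a := -1) (by simp)
  rw [add_zero, show (fun v : ι → ℚ_[p] => (-1 : ℚ_[p]) • v) = fun v => -v from
    funext fun v => neg_one_smul _ v] at h
  conv_rhs => rw [← h]
  exact (lintegral_map_equiv f (MeasurableEquiv.neg _)).symm

theorem IvD.measurable {δ : Dat p ι} (h : IvD δ) (k l : ℤ) : Measurable (δ k l) := by
  exact fun s _ => (ulf2_open (l := l) fun c hc v hv => by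
    rw [Set.mem_preimage, h k l c v hv]; exact hc).measurableSet

theorem lw_shD {a : ℚ_[p]} {e : ℤ} (ha : ‖a‖ = (p : ℝ) ^ e) (δ : Dat p ι) (k l : ℤ) :
    (lw (shD a e δ) k l).map (fun v => a • v) = lw δ (k + e) (l + e) := by
  have h0 : a ≠ 0 := by
    rintro rfl
    exact (beta_pos p e).ne (by simpa using ha)
  rw [lw, lw, ← bmV_smul k e ha]
  exact ulf2_map_wd (MeasurableEquiv.smul₀ a h0) _ _

variable {W : Type} [TopologicalSpace W] [PolishSpace W] [MeasurableSpace W] [BorelSpace W]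
  (φ : Flow (ι → ℚ_[p]) W) (ν : Measure W)

open Classical in
/-- The leafwise data of a point. -/
def dat (w : W) : Dat p ι := fun k l c =>
  if l ≤ k ∧ ‖c‖ ≤ (p : ℝ) ^ k then dl φ ν k l (φ c w) else 0

/-- A countable code of the data. -/
def dq (w : W) : ℤ × ℤ × (ι → ℚ) → ℝ≥0∞ := fun t =>
  dat φ ν w t.1 t.2.1 fun i => (t.2.2 i : ℚ_[p])

/-- Good points. -/
structure Gd (w : W) : Prop where
  pos : ∀ k l : ℤ, l ≤ k → dat φ ν w k l 0 ≠ 0
  bd : ∀ (k l : ℤ) (c : ι → ℚ_[p]),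
    dat φ ν w k l c ≤ ENNReal.ofReal ((p : ℝ) ^ ((k - l) * Fintype.card ι))
  chain : ∀ (k l m : ℤ) (c : ι → ℚ_[p]), m ≤ l → l ≤ k →
    dat φ ν w k m c = dat φ ν w k l c * dl φ ν l m (φ c w)
  sum : ∀ (k l m : ℤ) (c : ι → ℚ_[p]), m ≤ l → l ≤ k →
    ∫⁻ v, dat φ ν w k m (v + c) ∂bmV p ι l = dat φ ν w k l c
  top : ∀ k : ℤ, dat φ ν w k k 0 = 1

theorem ulf2_dat_pos {k l : ℤ} (hl : l ≤ k) {c : ι → ℚ_[p]} (hc : ‖c‖ ≤ (p : ℝ) ^ k) (w : W) :
    dat φ ν w k l c = dl φ ν k l (φ c w) := if_pos ⟨hl, hc⟩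

theorem ulf2_dat_neg {k l : ℤ} {c : ι → ℚ_[p]} (hc : ¬(l ≤ k ∧ ‖c‖ ≤ (p : ℝ) ^ k)) (w : W) :
    dat φ ν w k l c = 0 := if_neg hc

theorem ivD_dat (w : W) : IvD (dat φ ν w) := by
  intro k l c v hv
  by_cases hl : l ≤ k
  · simp only [dat, ulf2_iff (hv.trans (beta_mono p hl))]
    rw [add_comm, φ.map_add, dl_flow φ ν k hv]
  · simp only [dat, hl, false_and, if_false]

theorem dat_flow {k : ℤ} (l : ℤ) {c : ι → ℚ_[p]} (hc : ‖c‖ ≤ (p : ℝ) ^ k) (w : W)
    (v : ι → ℚ_[p]) : dat φ ν (φ c w) k l v = dat φ ν w k l (v + c) := by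
  simp only [dat, ulf2_iff hc, φ.map_add]

theorem measurable_dat (k l : ℤ) :
    Measurable fun z : W × (ι → ℚ_[p]) => dat φ ν z.1 k l z.2 := by
  classical
  refine Measurable.ite (MeasurableSet.const _ |>.inter ?_)
    ((measurable_dl φ ν k l).comp (measurable_flowV φ)) measurable_const
  exact measurableSet_le measurable_snd.norm measurable_const

theorem ulf2_meas (k l : ℤ) (c : ι → ℚ_[p]) : Measurable fun w => dat φ ν w k l c := by
  have h := (measurable_dat φ ν k l).comp (measurable_prodMk_right (α := W) (y := c))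
  exact h

theorem measurable_dq : Measurable (dq φ ν) := by
  exact measurable_pi_lambda _ fun t => ulf2_meas φ ν _ _ _

theorem dat_eq_of_dq {w w' : W} (h : dq φ ν w = dq φ ν w') : dat φ ν w = dat φ ν w' := by
  funext k l c
  refine ulf2_rat (P := fun c => dat φ ν w k l c = dat φ ν w' k l c) l (fun c v hv hc => ?_)
    (fun r => congrFun h (k, l, r)) c
  rw [ivD_dat φ ν w k l c v hv, ivD_dat φ ν w' k l c v hv, hc]

theorem lw_flow {k : ℤ} (l : ℤ) {c : ι → ℚ_[p]} (hc : ‖c‖ ≤ (p : ℝ) ^ k) (w : W) :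
    (lw (dat φ ν (φ c w)) k l).map (fun v => v + c) = lw (dat φ ν w) k l := by
  rw [lw, lw]
  conv_rhs => rw [← bmV_add hc]
  rw [show dat φ ν (φ c w) k l = fun v => dat φ ν w k l (v + c) from
    funext (dat_flow φ ν l hc w)]
  exact ulf2_map_wd (MeasurableEquiv.addRight c) _ _

theorem measurable_lw (k l : ℤ) {F : W × (ι → ℚ_[p]) → ℝ≥0∞} (hF : Measurable F) :
    Measurable fun w => ∫⁻ v, F (w, v) ∂lw (dat φ ν w) k l := by
  have : ∀ w, ∫⁻ v, F (w, v) ∂lw (dat φ ν w) k l =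
      ∫⁻ v, dat φ ν w k l v * F (w, v) ∂bmV p ι k := fun w =>
    lintegral_withDensity_eq_lintegral_mul _ ((ivD_dat φ ν w).measurable k l)
      (hF.comp measurable_prodMk_left)
  simp only [this]
  exact ((measurable_dat φ ν k l).mul hF).lintegral_prod_right'

omit [PolishSpace W] in
theorem ulf2_mφ (c : ι → ℚ_[p]) : Measurable (φ c) :=
  (φ.continuous continuous_const continuous_id).measurable

theorem measurableSet_Gd : MeasurableSet {w | Gd φ ν w} := by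
  have e : ∀ w, Gd φ ν w ↔ (∀ k l : ℤ, l ≤ k → ¬dat φ ν w k l 0 = 0) ∧
      (∀ (k l : ℤ) (r : ι → ℚ), dat φ ν w k l (fun i => (r i : ℚ_[p])) ≤
        ENNReal.ofReal ((p : ℝ) ^ ((k - l) * Fintype.card ι))) ∧
      (∀ (k l m : ℤ) (r : ι → ℚ), m ≤ l → l ≤ k → dat φ ν w k m (fun i => (r i : ℚ_[p])) =
        dat φ ν w k l (fun i => (r i : ℚ_[p])) * dl φ ν l m (φ (fun i => (r i : ℚ_[p])) w)) ∧
      (∀ (k l m : ℤ) (r : ι → ℚ), m ≤ l → l ≤ k →
        ∫⁻ v, dat φ ν w k m (v + fun i => (r i : ℚ_[p])) ∂bmV p ι l =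
          dat φ ν w k l fun i => (r i : ℚ_[p])) ∧ ∀ k : ℤ, dat φ ν w k k 0 = 1 := by
    intro w
    have hI := ivD_dat φ ν w
    refine ⟨fun h => ⟨h.pos, fun k l r => h.bd k l _, fun k l m r => h.chain k l m _,
      fun k l m r => h.sum k l m _, h.top⟩, fun ⟨h1, h2, h3, h4, h5⟩ => ⟨h1, fun k l c => ?_,
      fun k l m c hm hl => ?_, fun k l m c hm hl => ?_, h5⟩⟩
    · refine ulf2_rat (P := fun c => dat φ ν w k l c ≤ _) l (fun c v hv hc => ?_) (h2 k l) c
      rwa [hI k l c v hv]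
    · refine ulf2_rat (P := fun c => dat φ ν w k m c = dat φ ν w k l c * dl φ ν l m (φ c w)) m
        (fun c v hv hc => ?_) (fun r => h3 k l m r hm hl) c
      rw [hI k m c v hv, hI k l c v (hv.trans (beta_mono p hm)), add_comm, φ.map_add,
        dl_flow φ ν l hv, hc]
    · refine ulf2_rat (P := fun c => ∫⁻ v, dat φ ν w k m (v + c) ∂bmV p ι l = dat φ ν w k l c) m
        (fun c v hv hc => ?_) (fun r => h4 k l m r hm hl) c
      simp only [← add_assoc, hI k m _ v hv]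
      rw [hI k l c v (hv.trans (beta_mono p hm)), hc]
  simp only [e]
  refine measurableSet_setOfPred.2 (.and ?_ (.and ?_ (.and ?_ (.and ?_ ?_))))
  · exact .forall fun k => .forall fun l => .imp measurable_const
      (.not ((ulf2_meas φ ν _ _ _).eq measurable_const))
  · exact .forall fun k => .forall fun l => .forall fun r => measurableSet_setOfPred.1
      (measurableSet_le (ulf2_meas φ ν _ _ _) measurable_const)
  · exact .forall fun k => .forall fun l => .forall fun m => .forall fun r =>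
      .imp measurable_const (.imp measurable_const ((ulf2_meas φ ν _ _ _).eq
        ((ulf2_meas φ ν _ _ _).mul ((measurable_dl φ ν l m).comp (ulf2_mφ φ _)))))
  · refine .forall fun k => .forall fun l => .forall fun m => .forall fun r =>
      .imp measurable_const (.imp measurable_const (.eq ?_ (ulf2_meas φ ν _ _ _)))
    exact ((measurable_dat φ ν k m).comp
      (measurable_fst.prodMk (measurable_snd.add_const _))).lintegral_prod_right'
  · exact .forall fun k => (ulf2_meas φ ν _ _ _).eq measurable_const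

omit [PolishSpace W] [MeasurableSpace W] [BorelSpace W] in
theorem ulf2_av_inv {l : ℤ} {c : ι → ℚ_[p]} (hc : ‖c‖ ≤ (p : ℝ) ^ l) (F : W → ℝ≥0∞) (w : W) :
    ∫⁻ v, F (φ v (φ c w)) ∂bmV p ι l = ∫⁻ v, F (φ v w) ∂bmV p ι l := by
  simp only [← φ.map_add]
  exact ulf2_lint_add hc fun v => F (φ v w)

theorem ulf2_sum [IsProbabilityMeasure ν] {k l m : ℤ} (hm : m ≤ l) (hl : l ≤ k) :
    ∀ᵐ w ∂avV φ ν k, ∫⁻ v, dl φ ν k m (φ v w) ∂bmV p ι l = dl φ ν k l w := by
  have hd := measurable_dl φ ν k m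
  have hφ := measurable_flowV φ
  have hG : Measurable fun w => ∫⁻ v, dl φ ν k m (φ v w) ∂bmV p ι l :=
    (hd.comp hφ).lintegral_prod_right'
  refine (withDensity_eq_iff_of_sigmaFinite hG.aemeasurable
    (measurable_dl φ ν k l).aemeasurable).1 ?_
  rw [withDensity_dl φ ν hl]
  refine Measure.ext_of_lintegral _ fun F hF => ?_
  have hn : Measurable fun z : W × (ι → ℚ_[p]) => F (φ (-z.2) z.1) :=
    hF.comp (hφ.comp (measurable_fst.prodMk measurable_snd.neg))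
  rw [lintegral_withDensity_eq_lintegral_mul _ hG hF]
  calc ∫⁻ w, (∫⁻ v, dl φ ν k m (φ v w) ∂bmV p ι l) * F w ∂avV φ ν k
      = ∫⁻ w, ∫⁻ v, dl φ ν k m (φ v w) * F w ∂bmV p ι l ∂avV φ ν k :=
        lintegral_congr fun w =>
          (lintegral_mul_const _ ((hd.comp hφ).comp measurable_prodMk_left)).symm
    _ = ∫⁻ v, ∫⁻ w, dl φ ν k m (φ v w) * F w ∂avV φ ν k ∂bmV p ι l :=
        lintegral_lintegral_swap ((hd.comp hφ).mul (hF.comp measurable_fst)).aemeasurable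
    _ = ∫⁻ v, ∫⁻ w, F (φ (-v) w) ∂avV φ ν m ∂bmV p ι l := by
        refine lintegral_congr_ae ((bmV_ae l).mono fun v hv => ?_)
        have h1 : Measurable fun w => F (φ (-v) w) := hF.comp (ulf2_mφ φ _)
        simp only
        rw [← withDensity_dl φ ν (hm.trans hl), lintegral_withDensity_eq_lintegral_mul _ hd h1]
        conv_rhs => rw [← avV_flow φ ν (hv.trans (beta_mono p hl))]
        rw [lintegral_map (hd.mul h1) (ulf2_mφ φ v)]
        refine lintegral_congr fun w => ?_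
        simp only [Pi.mul_apply, ← φ.map_add, neg_add_cancel, φ.map_zero_apply]
    _ = ∫⁻ w, ∫⁻ v, F (φ (-v) w) ∂bmV p ι l ∂avV φ ν m :=
        (lintegral_lintegral_swap hn.aemeasurable).symm
    _ = ∫⁻ w, ∫⁻ v, F (φ v w) ∂bmV p ι l ∂avV φ ν m :=
        lintegral_congr fun w => ulf2_lint_neg l fun v => F (φ v w)
    _ = ∫⁻ w, F w ∂avV φ ν l := by
        rw [lint_avV φ ν l hF]
        exact lint_inv φ ν (hF.comp hφ).lintegral_prod_right' fun v hv w =>
          ulf2_av_inv φ (hv.trans (beta_mono p hm)) F w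

theorem ae_Gd [IsProbabilityMeasure ν] : ∀ᵐ w ∂ν, Gd φ ν w := by
  have h1 : ∀ k l : ℤ, ∀ᵐ w ∂ν, l ≤ k → dat φ ν w k l 0 ≠ 0 := by
    intro k l
    by_cases hl : l ≤ k
    swap
    · exact .of_forall fun _ h => absurd h hl
    have h : ∀ᵐ w ∂avV φ ν l, dl φ ν k l w ≠ 0 := by
      rw [← withDensity_dl φ ν hl, ae_withDensity_iff (measurable_dl φ ν k l)]
      exact .of_forall fun _ h => h
    filter_upwards [ae_forall_flow φ ν h fun v hv w hw => by rwa [dl_flow φ ν k hv]] with w hw _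
    rw [ulf2_dat_pos φ ν hl (ulf2_zero k)]
    exact hw 0 (ulf2_zero l)
  have h2 : ∀ k l : ℤ, ∀ᵐ w ∂ν, ∀ c,
      dat φ ν w k l c ≤ ENNReal.ofReal ((p : ℝ) ^ ((k - l) * Fintype.card ι)) := by
    intro k l
    by_cases hl : l ≤ k
    swap
    · exact .of_forall fun w c => by
        rw [ulf2_dat_neg φ ν fun h => hl h.1]; exact zero_le
    have h : ∀ᵐ w ∂avV φ ν k,
        dl φ ν k l w ≤ ENNReal.ofReal ((p : ℝ) ^ ((k - l) * Fintype.card ι)) := by
      refine ae_le_of_forall_setLIntegral_le_of_sigmaFinite (measurable_dl φ ν k l) fun s hs _ => ?_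
      rw [← withDensity_apply _ hs, withDensity_dl φ ν hl, setLIntegral_const]
      exact avV_le φ ν hl s
    filter_upwards [ae_forall_flow φ ν h fun v hv w hw => by rwa [dl_flow φ ν k hv]] with w hw c
    by_cases hc : ‖c‖ ≤ (p : ℝ) ^ k
    · rw [ulf2_dat_pos φ ν hl hc]; exact hw c hc
    · rw [ulf2_dat_neg φ ν fun h => hc h.2]; exact zero_le
  have h3 : ∀ k l m : ℤ, ∀ᵐ w ∂ν, ∀ c, m ≤ l → l ≤ k →
      dat φ ν w k m c = dat φ ν w k l c * dl φ ν l m (φ c w) := by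
    intro k l m
    by_cases hl : m ≤ l ∧ l ≤ k
    swap
    · exact .of_forall fun _ _ h h' => absurd ⟨h, h'⟩ hl
    obtain ⟨hm, hl⟩ := hl
    have h : ∀ᵐ w ∂avV φ ν k, dl φ ν k m w = dl φ ν k l w * dl φ ν l m w := by
      refine (withDensity_eq_iff_of_sigmaFinite (g := dl φ ν k l * dl φ ν l m)
        (measurable_dl φ ν k m).aemeasurable
        ((measurable_dl φ ν k l).mul (measurable_dl φ ν l m)).aemeasurable).1 ?_
      rw [withDensity_mul _ (measurable_dl φ ν k l) (measurable_dl φ ν l m), withDensity_dl φ ν hl,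
        withDensity_dl φ ν hm, withDensity_dl φ ν (hm.trans hl)]
    filter_upwards [ae_forall_flow φ ν h fun v hv w hw => by
      rwa [dl_flow φ ν k hv, dl_flow φ ν l hv, dl_flow φ ν k (hv.trans (beta_mono p hm))]]
      with w hw c _ _
    by_cases hc : ‖c‖ ≤ (p : ℝ) ^ k
    · rw [ulf2_dat_pos φ ν hl hc, ulf2_dat_pos φ ν (hm.trans hl) hc]; exact hw c hc
    · rw [ulf2_dat_neg φ ν fun h => hc h.2, ulf2_dat_neg φ ν fun h => hc h.2, zero_mul]
  have h4 : ∀ k l m : ℤ, ∀ᵐ w ∂ν, ∀ c, m ≤ l → l ≤ k →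
      ∫⁻ v, dat φ ν w k m (v + c) ∂bmV p ι l = dat φ ν w k l c := by
    intro k l m
    by_cases hl : m ≤ l ∧ l ≤ k
    swap
    · exact .of_forall fun _ _ h h' => absurd ⟨h, h'⟩ hl
    obtain ⟨hm, hl⟩ := hl
    filter_upwards [ae_forall_flow φ ν (ulf2_sum φ ν hm hl) fun v hv w hw => by
      rwa [dl_flow φ ν k hv, ulf2_av_inv φ hv]] with w hw c _ _
    by_cases hc : ‖c‖ ≤ (p : ℝ) ^ k
    · rw [ulf2_dat_pos φ ν hl hc, ← hw c hc]
      refine lintegral_congr_ae ((bmV_ae l).mono fun v hv => ?_)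
      simp only
      rw [ulf2_dat_pos φ ν (hm.trans hl) (norm_add_V (hv.trans (beta_mono p hl)) hc), φ.map_add]
    · rw [ulf2_dat_neg φ ν fun h => hc h.2]
      refine (lintegral_congr_ae ((bmV_ae l).mono fun v hv => ?_)).trans lintegral_zero
      exact ulf2_dat_neg φ ν (fun h => hc ((ulf2_iff (hv.trans (beta_mono p hl))).1
        (add_comm v c ▸ h.2))) w
  have h5 : ∀ k : ℤ, ∀ᵐ w ∂ν, dat φ ν w k k 0 = 1 := by
    intro k
    have h : ∀ᵐ w ∂avV φ ν k, dl φ ν k k w = 1 := by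
      refine (withDensity_eq_iff_of_sigmaFinite (g := 1) (measurable_dl φ ν k k).aemeasurable
        aemeasurable_const).1 ?_
      rw [withDensity_dl φ ν le_rfl, withDensity_one]
    filter_upwards [ae_forall_flow φ ν h fun v hv w hw => by rwa [dl_flow φ ν k hv]] with w hw
    rw [ulf2_dat_pos φ ν le_rfl (ulf2_zero k)]
    exact hw 0 (ulf2_zero k)
  filter_upwards [ae_all_iff.2 fun k => ae_all_iff.2 (h1 k),
    ae_all_iff.2 fun k => ae_all_iff.2 (h2 k),
    ae_all_iff.2 fun k => ae_all_iff.2 fun l => ae_all_iff.2 (h3 k l),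
    ae_all_iff.2 fun k => ae_all_iff.2 fun l => ae_all_iff.2 (h4 k l), ae_all_iff.2 h5]
    with w a1 a2 a3 a4 a5 using ⟨a1, a2, a3, a4, a5⟩

/-- The basic identity. -/
theorem lint_lw [IsProbabilityMeasure ν] {k l : ℤ} (hl : l ≤ k) {F : W → ℝ≥0∞} (hF : Measurable F)
    (hi : ∀ v : ι → ℚ_[p], ‖v‖ ≤ (p : ℝ) ^ l → ∀ w, F (φ v w) = F w) :
    ∫⁻ w, ∫⁻ v, F (φ v w) ∂lw (dat φ ν w) k l ∂ν = ∫⁻ w, F w ∂ν := by
  have hd := measurable_dl φ ν k l
  rw [← lint_inv φ ν hF hi, ← withDensity_dl φ ν hl, lintegral_withDensity_eq_lintegral_mul _ hd hF,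
    lint_avV φ ν k (hd.mul hF)]
  refine lintegral_congr fun w => ?_
  rw [lw, lintegral_withDensity_eq_lintegral_mul _ ((ivD_dat φ ν w).measurable k l)
    (g := fun v => F (φ v w)) ((hF.comp (measurable_flowV φ)).comp measurable_prodMk_left)]
  refine lintegral_congr_ae ((bmV_ae k).mono fun v hv => ?_)
  simp only [Pi.mul_apply, ulf2_dat_pos φ ν hl hv]

variable {φ ν}

theorem Gd.prob {w : W} (h : Gd φ ν w) {k l : ℤ} (hl : l ≤ k) :
    IsProbabilityMeasure (lw (dat φ ν w) k l) := by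
  refine ⟨?_⟩
  have := h.sum k k l 0 hl le_rfl
  simp only [add_zero, h.top] at this
  rw [lw, withDensity_apply _ MeasurableSet.univ, Measure.restrict_univ, this]

theorem Gd.level {w : W} (h : Gd φ ν w) {k l m : ℤ} (hm : m ≤ l) (hl : l ≤ k)
    {S : Set (ι → ℚ_[p])} (hS : ∀ c ∈ S, ∀ v : ι → ℚ_[p], ‖v‖ ≤ (p : ℝ) ^ l → c + v ∈ S) :
    lw (dat φ ν w) k m S = lw (dat φ ν w) k l S := by
  have hS' := (ulf2_open hS).measurableSet
  have hd := (ivD_dat φ ν w).measurable k m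
  rw [lw, lw, withDensity_apply _ hS', withDensity_apply _ hS']
  calc ∫⁻ c in S, dat φ ν w k m c ∂bmV p ι k
      = ∫⁻ _, ∫⁻ c in S, dat φ ν w k m c ∂bmV p ι k ∂bmV p ι l := by simp
    _ = ∫⁻ v, ∫⁻ c in S, dat φ ν w k m (v + c) ∂bmV p ι k ∂bmV p ι l := by
        refine lintegral_congr_ae ((bmV_ae l).mono fun v hv => ?_)
        simp only
        rw [← lintegral_indicator hS', ← lintegral_indicator hS',
          ← ulf2_lint_add (hv.trans (beta_mono p hl))]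
        refine lintegral_congr fun c => ?_
        by_cases hc : c ∈ S
        · rw [Set.indicator_of_mem hc, Set.indicator_of_mem (hS c hc v hv), add_comm]
        · rw [Set.indicator_of_notMem hc, Set.indicator_of_notMem fun h' => hc ?_]
          have := hS _ h' (-v) (by rwa [norm_neg])
          rwa [add_neg_cancel_right] at this
    _ = ∫⁻ c in S, ∫⁻ v, dat φ ν w k m (v + c) ∂bmV p ι l ∂bmV p ι k :=
        lintegral_lintegral_swap (hd.comp (measurable_fst.add measurable_snd)).aemeasurable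
    _ = _ := lintegral_congr fun c => h.sum k l m c hm hl

theorem ulf2_ball (l : ℤ) (c : ι → ℚ_[p]) : MeasurableSet {v : ι → ℚ_[p] | ‖v - c‖ ≤ (p : ℝ) ^ l} :=
  measurableSet_le (measurable_id.sub_const c).norm measurable_const

theorem lw_ball (w : W) {k l : ℤ} (hl : l ≤ k) (c : ι → ℚ_[p]) :
    lw (dat φ ν w) k l {v | ‖v - c‖ ≤ (p : ℝ) ^ l} =
      dat φ ν w k l c * ENNReal.ofReal ((p : ℝ) ^ ((l - k) * Fintype.card ι)) := by
  have hS := ulf2_ball l c
  rw [lw, withDensity_apply _ hS, setLIntegral_congr_fun hS (g := fun _ => dat φ ν w k l c)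
    fun v hv => by rw [← ivD_dat φ ν w k l c _ hv, add_sub_cancel], setLIntegral_const]
  by_cases hc : ‖c‖ ≤ (p : ℝ) ^ k
  · rw [bmV_ball hl hc]
  · rw [ulf2_dat_neg φ ν fun h => hc h.2, zero_mul, zero_mul]

theorem Gd.local {w : W} (h : Gd φ ν w) {k l m : ℤ} (hm : m ≤ l) (hl : l ≤ k) {c : ι → ℚ_[p]}
    (hc : ‖c‖ ≤ (p : ℝ) ^ k) {S : Set (ι → ℚ_[p])} (hS : MeasurableSet S) :
    lw (dat φ ν w) k m {v | ‖v - c‖ ≤ (p : ℝ) ^ l ∧ v - c ∈ S} =
      lw (dat φ ν w) k l {v | ‖v - c‖ ≤ (p : ℝ) ^ l} * lw (dat φ ν (φ c w)) l m S := by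
  have hB : MeasurableSet {v : ι → ℚ_[p] | ‖v‖ ≤ (p : ℝ) ^ l} :=
    measurableSet_le measurable_id.norm measurable_const
  have hT : MeasurableSet {v : ι → ℚ_[p] | ‖v - c‖ ≤ (p : ℝ) ^ l ∧ v - c ∈ S} :=
    (ulf2_ball l c).inter ((measurable_id.sub_const c) hS)
  have e1 : (fun v => v + c) ⁻¹' {v : ι → ℚ_[p] | ‖v - c‖ ≤ (p : ℝ) ^ l ∧ v - c ∈ S} =
      S ∩ {v | ‖v‖ ≤ (p : ℝ) ^ l} := by
    ext v
    simp [and_comm]
  have e2 : ENNReal.ofReal ((p : ℝ) ^ ((l - k) * Fintype.card ι)) *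
      ENNReal.ofReal ((p : ℝ) ^ ((k - l) * Fintype.card ι)) = 1 := by
    rw [← ENNReal.ofReal_mul (beta_pos p _).le,
      ← zpow_add₀ (zero_lt_one.trans (beta_one_lt p)).ne', ← add_mul]
    simp
  rw [lw_ball w hl, ← lw_flow φ ν m hc w, Measure.map_apply (measurable_add_const c) hT, e1, lw, lw,
    withDensity_apply _ (hS.inter hB), withDensity_apply _ hS, bmV_restrict hl,
    Measure.restrict_smul, lintegral_smul_measure, Measure.restrict_restrict hS, smul_eq_mul,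
    mul_assoc, ← mul_assoc (ENNReal.ofReal _), e2, one_mul,
    ← lintegral_const_mul _ ((ivD_dat φ ν _).measurable l m)]
  refine setLIntegral_congr_fun (hS.inter hB) fun u hu => ?_
  rw [dat_flow φ ν m hc, h.chain k l m _ hm hl, ulf2_dat_pos φ ν hm hu.2, φ.map_add, add_comm u c,
    ivD_dat φ ν w k l c u hu.2]

/-- Points with the same data have the same data at close points of their leaves. -/
theorem Gd.transfer {w w' : W} (h : Gd φ ν w) (h' : Gd φ ν w') (e : dat φ ν w = dat φ ν w')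
    {c c' : ι → ℚ_[p]} (hc : Gd φ ν (φ c w)) {n : ℤ} (hn : ‖c - c'‖ ≤ (p : ℝ) ^ n) (k : ℤ) {l : ℤ}
    (hl : n ≤ l) : dat φ ν (φ c w) k l = dat φ ν (φ c' w') k l := by
  funext v
  by_cases hv : l ≤ k ∧ ‖v‖ ≤ (p : ℝ) ^ k
  swap
  · rw [ulf2_dat_neg φ ν hv, ulf2_dat_neg φ ν hv]
  obtain ⟨hk, hv⟩ := hv
  obtain ⟨N, hN⟩ := pow_unbounded_of_one_lt ‖c‖ (beta_one_lt p)
  have hK : k ≤ max k N := le_max_left _ _
  have hcK : ‖c‖ ≤ (p : ℝ) ^ max k (N : ℤ) :=
    hN.le.trans ((zpow_natCast (p : ℝ) N).symm.le.trans (beta_mono p (le_max_right _ _)))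
  have h1 := h.chain _ k l (v + c) hk hK
  have h2 := h'.chain _ k l (v + c') hk hK
  have e1 : v + c = v + c' + (c - c') := by abel
  have hI := ivD_dat φ ν w'
  rw [← hI _ l _ _ (hn.trans (beta_mono p hl)), ← hI _ k _ _ (hn.trans (beta_mono p (hl.trans hk))),
    ← e1, ← e, h1] at h2
  have h0 : dat φ ν w (max k N) k (v + c) ≠ 0 := by
    have := hc.pos _ k hK
    rwa [dat_flow φ ν k hcK, zero_add, ← ivD_dat φ ν w _ k c v hv, add_comm] at this
  have ht : dat φ ν w (max k N) k (v + c) ≠ ⊤ := ne_top_of_le_ne_top ENNReal.ofReal_ne_top (h.bd _ _ _)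
  rw [ulf2_dat_pos φ ν hk hv, ulf2_dat_pos φ ν hk hv, ← φ.map_add, ← φ.map_add]
  exact (ENNReal.mul_right_inj h0 ht).1 h2

end Pool.Agent.EQ
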