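import Pool.Agent.P.MP_ad7a55_nt.UG
import Pool.Agent.P.MP_ad7a55_nt.Free

/-! The invariant measure on the space with two primes. -/

set_option autoImplicit false

noncomputable section

open MeasureTheory Topology Filter UpperHalfPlane
open scoped MatrixGroups ENNReal BoundedContinuousFunction

namespace Pool.Agent.EQ

section gen

variable {H : Type} [Group H] [TopologicalSpace H] [IsTopologicalGroup H] [PolishSpace H]
  [LocallyCompactSpace H] [MeasurableSpace H] [BorelSpace H] {Γ : Subgroup H}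
  [IsClosed (Γ : Set H)] [MeasurableConstSMul H (H ⧸ Γ)] {s : H ⧸ Γ → H}

/-- The lift of a measure on the quotient to the group. -/
def um_L (s : H ⧸ Γ → H) (μ : Measure (H ⧸ Γ)) : Measure H :=
  (lift s (μ.map fun x => (x, ()))).map Prod.fst

theorem um_meas {X : Type} [MeasurableSpace X] : Measurable fun x : X => (x, ()) :=
  measurable_id.prodMk measurable_const

theorem um_fst {X : Type} [MeasurableSpace X] (ν : Measure (X × Unit)) :
    (ν.map Prod.fst).map (fun x => (x, ())) = ν := by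
  rw [Measure.map_map um_meas measurable_fst]
  exact Measure.map_id

theorem um_fst' {X : Type} [MeasurableSpace X] (ν : Measure X) :
    (ν.map fun x => (x, ())).map Prod.fst = ν := by
  rw [Measure.map_map measurable_fst um_meas]
  exact Measure.map_id

theorem um_left (hΓ : Disc Γ) (hs : IsSec s) (μ : Measure (H ⧸ Γ)) (g : H) :
    (um_L s μ).map (g * ·) = um_L s (μ.map (g • ·)) := by
  have h := lift_left hΓ hs (μ.map fun x => (x, ())) g measurable_id
  have m1 : Measurable fun w : (H ⧸ Γ) × Unit => (g • w.1, id w.2) :=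
    ((measurable_const_smul g).comp measurable_fst).prodMk measurable_snd
  have m2 : Measurable fun w : H × Unit => (g * w.1, id w.2) :=
    ((measurable_const_mul g).comp measurable_fst).prodMk measurable_snd
  rw [Measure.map_map m1 um_meas] at h
  unfold um_L
  rw [Measure.map_map (measurable_const_mul g) measurable_fst,
    Measure.map_map um_meas (measurable_const_smul g)]
  have h' := congrArg (Measure.map Prod.fst) h
  rw [Measure.map_map measurable_fst m2] at h'
  exact h'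

omit [MeasurableConstSMul H (H ⧸ Γ)] in
theorem um_right (hΓ : Disc Γ) (hs : IsSec s) (μ : Measure (H ⧸ Γ)) {γ : H} (hγ : γ ∈ Γ) :
    (um_L s μ).map (· * γ) = um_L s μ := by
  have h := lift_right hΓ hs (μ.map fun x => (x, ())) hγ
  have m2 : Measurable fun w : H × Unit => (w.1 * γ, w.2) :=
    ((measurable_mul_const γ).comp measurable_fst).prodMk measurable_snd
  unfold um_L
  rw [Measure.map_map (measurable_mul_const γ) measurable_fst]
  have h' := congrArg (Measure.map Prod.fst) h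
  rw [Measure.map_map measurable_fst m2] at h'
  exact h'

omit [MeasurableConstSMul H (H ⧸ Γ)] in
theorem um_fin (hΓ : Disc Γ) (hs : IsSec s) (μ : Measure (H ⧸ Γ)) [IsFiniteMeasure μ] :
    IsFiniteMeasureOnCompacts (um_L s μ) := ⟨fun C hC => by
  have h := lift_fin hΓ hs (μ.map fun x => (x, ())) hC
  unfold um_L
  rw [Measure.map_apply measurable_fst hC.measurableSet]
  rwa [Set.prod_univ] at h⟩

omit [MeasurableConstSMul H (H ⧸ Γ)] in
theorem um_inj (hΓ : Disc Γ) (hs : IsSec s) {μ μ' : Measure (H ⧸ Γ)}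
    (h : um_L s μ = um_L s μ') : μ = μ' := by
  have h' := congrArg (Measure.map fun x : H => (x, ())) h
  unfold um_L at h'
  rw [um_fst, um_fst] at h'
  have h2 := congrArg (Measure.map Prod.fst) (lift_inj hΓ hs h')
  rwa [um_fst', um_fst'] at h2

omit [MeasurableConstSMul H (H ⧸ Γ)] in
theorem um_smul (s : H ⧸ Γ → H) (μ : Measure (H ⧸ Γ)) (c : ℝ≥0∞) :
    um_L s (c • μ) = c • um_L s μ := by
  unfold um_L
  rw [Measure.map_smul, lift_smul, Measure.map_smul]

theorem um_stab (hΓ : Disc Γ) (hs : IsSec s) (μ : Measure (H ⧸ Γ)) (g : H) :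
    g ∈ Stab H μ ↔ (um_L s μ).map (g * ·) = um_L s μ := by
  rw [um_left hΓ hs, mem_Stab]
  exact ⟨fun h => by rw [h], um_inj hΓ hs⟩

omit [MeasurableConstSMul H (H ⧸ Γ)] in
theorem um_le (hΓ : Disc Γ) (hs : IsSec s) (μ : Measure (H ⧸ Γ)) {F : Set H}
    (hF : MeasurableSet F) {E : Set (H ⧸ Γ)} (hE : MeasurableSet E)
    (hF' : ∀ x ∈ E, ∃ g ∈ F, (g : H ⧸ Γ) = x) : μ E ≤ um_L s μ F := by
  have hE' : MeasurableSet ((fun g : H => (g : H ⧸ Γ)) ⁻¹' E) := QuotientGroup.measurable_coe hE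
  have h := le_lift hΓ hs (μ.map fun x => (x, ())) (hF.union hE'.compl) (fun x => by
    by_cases hx : x ∈ E
    · obtain ⟨g, hg, e⟩ := hF' x hx
      exact ⟨g, Or.inl hg, e⟩
    · exact ⟨s x, Or.inr fun h => hx (hs.2 x ▸ h), hs.2 x⟩) (measurable_fst hE)
  rw [Measure.map_apply um_meas (measurable_fst hE)] at h
  unfold um_L
  rw [Measure.map_apply measurable_fst hF]
  refine h.trans (measure_mono fun w hw => ?_)
  exact hw.1.resolve_right fun h' => h' hw.2

omit [MeasurableConstSMul H (H ⧸ Γ)] in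
theorem um_null (hΓ : Disc Γ) (hs : IsSec s) (μ : Measure (H ⧸ Γ)) {E : Set (H ⧸ Γ)}
    (hE : μ E = 0) : um_L s μ {g | (g : H ⧸ Γ) ∈ E} = 0 := by
  have hm := measurableSet_toMeasurable μ E
  refine measure_mono_null (t := (fun g : H => (g : H ⧸ Γ)) ⁻¹' toMeasurable μ E)
    (fun g hg => subset_toMeasurable μ E hg) ?_
  unfold um_L
  rw [Measure.map_apply measurable_fst (QuotientGroup.measurable_coe hm)]
  refine lift_null hΓ hs (μ.map fun x => (x, ())) (E := Prod.fst ⁻¹' toMeasurable μ E) ?_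
  rw [Measure.map_apply um_meas (measurable_fst hm)]
  exact (measure_toMeasurable E).trans hE

omit [MeasurableConstSMul H (H ⧸ Γ)] in
theorem um_exists (hΓ : Disc Γ) (hs : IsSec s) (ν : Measure H) [ν.IsMulRightInvariant] :
    ∃ ρ : Measure (H ⧸ Γ), um_L s ρ = ν := by
  obtain ⟨ρ, hρ⟩ := exists_lift_eq hΓ hs (ν.map fun g => (g, ())) fun γ _ => by
    rw [Measure.map_map ((measurable_fst.mul_const γ).prodMk measurable_snd) um_meas]
    conv_rhs => rw [← map_mul_right_eq_self ν γ]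
    rw [Measure.map_map um_meas (measurable_mul_const γ)]
    rfl
  refine ⟨ρ.map Prod.fst, ?_⟩
  unfold um_L
  rw [um_fst, hρ, um_fst']

theorem um_haar (hΓ : Disc Γ) (hs : IsSec s) (μ : Measure (H ⧸ Γ)) [IsFiniteMeasure μ]
    (h : ∀ g, g ∈ Stab H μ) (ν : Measure H) [ν.IsHaarMeasure] :
    ∃ c : NNReal, um_L s μ = (c : ℝ≥0∞) • ν := by
  have := um_fin hΓ hs μ
  have : (um_L s μ).IsMulLeftInvariant := ⟨fun g => (um_stab hΓ hs μ g).1 (h g)⟩
  exact ⟨_, Measure.isMulLeftInvariant_eq_smul _ _⟩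

theorem um_haar' (hΓ : Disc Γ) (hs : IsSec s) (μ : Measure (H ⧸ Γ)) [IsProbabilityMeasure μ]
    (h : ∀ g, g ∈ Stab H μ) (ν : Measure H) [ν.IsHaarMeasure] :
    ∃ c : NNReal, (c : ℝ≥0∞) ≠ 0 ∧ um_L s μ = (c : ℝ≥0∞) • ν := by
  obtain ⟨c, hc⟩ := um_haar hΓ hs μ h ν
  refine ⟨c, fun h0 => ?_, hc⟩
  have h1 : um_L s μ = um_L s ((0 : ℝ≥0∞) • μ) := by
    rw [um_smul, hc, h0, zero_smul, zero_smul]
  have h2 := congrArg (fun m : Measure (H ⧸ Γ) => m Set.univ) (um_inj hΓ hs h1)
  simp at h2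

theorem um_uniq (hΓ : Disc Γ) (μ μ' : Measure (H ⧸ Γ)) [IsFiniteMeasure μ]
    [IsProbabilityMeasure μ'] (h : ∀ g, g ∈ Stab H μ) (h' : ∀ g, g ∈ Stab H μ') :
    μ = μ Set.univ • μ' := by
  obtain ⟨s, hs⟩ := exists_sec hΓ
  obtain ⟨c, hc⟩ := um_haar hΓ hs μ h Measure.haar
  obtain ⟨c', h0, hc'⟩ := um_haar' hΓ hs μ' h' Measure.haar
  have h1 : um_L s μ = um_L s (((c : ℝ≥0∞) / c') • μ') := by
    rw [um_smul, hc, hc', smul_smul, ENNReal.div_mul_cancel h0 ENNReal.coe_ne_top]
  have h2 := um_inj hΓ hs h1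
  have h3 : μ Set.univ = (c : ℝ≥0∞) / c' := by
    rw [h2]; simp
  rw [h3]; exact h2

variable {A B : Type} [Group A] [TopologicalSpace A] [IsTopologicalGroup A] [PolishSpace A]
  [LocallyCompactSpace A] [MeasurableSpace A] [BorelSpace A]
  [Group B] [TopologicalSpace B] [IsTopologicalGroup B] [PolishSpace B]
  [LocallyCompactSpace B] [MeasurableSpace B] [BorelSpace B]

theorem um_prod (hΓ : Disc Γ) (μA : Measure A) [μA.IsHaarMeasure] [μA.IsMulRightInvariant]
    (μB : Measure B) [μB.IsHaarMeasure] [μB.IsMulRightInvariant] (e : H ≃ₜ A × B)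
    (he : ∀ x y, e (x * y) = e x * e y) (hD : Dense ((fun g => (e g).2) '' (Γ : Set H)))
    (μ : Measure (H ⧸ Γ)) [IsFiniteMeasure μ] (h : ∀ a : A, e.symm (a, 1) ∈ Stab H μ) (g : H) :
    g ∈ Stab H μ := by
  obtain ⟨s, hs⟩ := exists_sec hΓ
  have := um_fin hΓ hs μ
  have : IsFiniteMeasureOnCompacts ((um_L s μ).map e) :=
    Measure.IsFiniteMeasureOnCompacts.map _ e
  have me : Measurable e := e.continuous.measurable
  have sw : ∀ (T : H → H) (T' : A × B → A × B), Measurable T → Measurable T' →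
      (∀ x, T' (e x) = e (T x)) →
      (((um_L s μ).map e).map T' = (um_L s μ).map e ↔ (um_L s μ).map T = um_L s μ) :=
    fun T T' hT hT' h' => by
      rw [Measure.map_map hT' me, show T' ∘ e = e ∘ T from funext h', ← Measure.map_map me hT]
      exact (e.measurableEmbedding.map_injective).eq_iff
  have h2 : e.symm (1, (e g).2) ∈ Stab H μ := by
    rw [um_stab hΓ hs]
    have := haara_prod μA μB ((um_L s μ).map e) (fun a =>
      (sw _ _ (measurable_const_mul _) (by fun_prop) (fun x => by simp [he, Prod.ext_iff])).2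
        ((um_stab hΓ hs μ _).1 (h a))) hD (by
      rintro _ ⟨γ, hγ, rfl⟩
      exact ⟨(e γ).1, (sw _ _ (measurable_mul_const _) (by fun_prop)
        (fun x => by simp [he, Prod.ext_iff])).2 (um_right hΓ hs μ hγ)⟩) (e g).2
    exact (sw _ _ (measurable_const_mul _) (by fun_prop)
      (fun x => by simp [he, Prod.ext_iff])).1 this
  have h3 : g = e.symm ((e g).1, 1) * e.symm (1, (e g).2) := e.injective (by simp [he])
  rw [h3]
  exact mul_mem (h _) h2

theorem um_unimod (μA : Measure A) [μA.IsHaarMeasure] [μA.IsMulRightInvariant]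
    (μB : Measure B) [μB.IsHaarMeasure] [μB.IsMulRightInvariant] (μ : Measure (A × B))
    [μ.IsHaarMeasure] : μ.IsMulRightInvariant := by
  rw [Measure.isMulLeftInvariant_eq_smul μ (μA.prod μB)]
  infer_instance

end gen

variable (p q : ℕ) [Fact p.Prime] [Fact q.Prime]

theorem um_disc : Disc (Gam3 p q) := fun _ => Gam3_finite p q

theorem um_unimod2 (μ : Measure (GG p)) [μ.IsHaarMeasure] : μ.IsMulRightInvariant := by
  have := unimod (Measure.haar : Measure SL(2, ℝ))
  have := unimod (Measure.haar : Measure SL(2, ℚ_[p]))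
  exact um_unimod Measure.haar Measure.haar μ

theorem um_unimod3 (μ : Measure (G3 p q)) [μ.IsHaarMeasure] : μ.IsMulRightInvariant := by
  have := um_unimod2 p Measure.haar
  have := unimod (Measure.haar : Measure SL(2, ℚ_[q]))
  exact um_unimod Measure.haar Measure.haar μ

theorem um_int (γ : SL(2, ℤ)) : (((toR γ, toP p γ), toP q γ) : G3 p q) ∈ Gam3 p q := by
  refine ⟨Matrix.SpecialLinearGroup.map (Int.castRingHom ℚ) γ, fun i j => ?_, ?_⟩
  · simpa using inZp_int (p * q) (γ i j)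
  · refine Prod.ext (Prod.ext ?_ ?_) ?_ <;> ext i j <;> simp [emb3, emb, toR, toP]

open ModularGroup in
theorem um_onto (hpq : p ≠ q) (x : X3 p q) :
    ∃ g ∈ haarB2_S p fd ×ˢ (Kp q : Set SL(2, ℚ_[q])), ((g : G3 p q) : X3 p q) = x := by
  obtain ⟨g, hg, hg', rfl⟩ := exists_rep3 p q hpq x
  obtain ⟨δ, hδ⟩ := exists_smul_mem_fd (g.1.1⁻¹ • UpperHalfPlane.I)
  refine ⟨g * ((toR δ⁻¹, toP p δ⁻¹), toP q δ⁻¹), ⟨⟨?_, (Kp p).mul_mem hg (toP_mem_Kp p _)⟩,
    (Kp q).mul_mem hg' (toP_mem_Kp q _)⟩, QuotientGroup.mk_mul_of_mem _ (um_int p q _)⟩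
  change (g.1.1 * toR δ⁻¹)⁻¹ • UpperHalfPlane.I ∈ fd
  rwa [mul_inv_rev, ← map_inv, inv_inv, mul_smul, haarB2_toR_smul]

open ModularGroup in
theorem exists_m3 : ∃ m : Measure (X3 p q), IsProbabilityMeasure m ∧
    (p ≠ q → ∀ g, g ∈ Stab (G3 p q) m) := by
  by_cases hpq : p = q
  · exact ⟨Measure.dirac ((1 : G3 p q) : X3 p q), inferInstance, fun h => absurd hpq h⟩
  obtain ⟨s, hs⟩ := exists_sec (um_disc p q)
  set μR : Measure SL(2, ℝ) := Measure.haar
  set μP : Measure SL(2, ℚ_[p]) := Measure.haar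
  set μQ : Measure SL(2, ℚ_[q]) := Measure.haar
  obtain ⟨c, hc0, hc1, hc⟩ := map_haar μR
  set μ : Measure (G3 p q) := (μR.prod μP).prod μQ with hμ
  have := um_unimod3 p q μ
  obtain ⟨ρ, hρ⟩ := um_exists (um_disc p q) hs μ
  have h1 : ρ Set.univ ≠ ∞ := by
    refine ne_top_of_le_ne_top ?_ (um_le (um_disc p q) hs ρ
      ((haarB2_S_meas p isClosed_fd.measurableSet).prod (Kp_open q).measurableSet)
      MeasurableSet.univ fun x _ => um_onto p q hpq x)
    rw [hρ, hμ, Measure.prod_prod, haarB2_S, Measure.prod_prod,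
      ← Measure.map_apply haarB2_cont.measurable isClosed_fd.measurableSet, hc,
      Measure.smul_apply, smul_eq_mul]
    exact ENNReal.mul_ne_top (ENNReal.mul_ne_top (ENNReal.mul_ne_top hc1 haarB2_fd_lt_top.ne)
      (Kp_compact p).measure_lt_top.ne) (Kp_compact q).measure_lt_top.ne
  have h0 : ρ Set.univ ≠ 0 := fun h0 => by
    have h2 := um_null (um_disc p q) hs ρ h0
    rw [hρ] at h2
    exact (isOpen_univ.measure_pos μ ⟨1, trivial⟩).ne' (by simpa using h2)
  refine ⟨(ρ Set.univ)⁻¹ • ρ, ⟨?_⟩, fun _ g => ?_⟩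
  · rw [Measure.smul_apply, smul_eq_mul, ENNReal.inv_mul_cancel h0 h1]
  · have h3 : g ∈ Stab (G3 p q) ρ := by
      rw [um_stab (um_disc p q) hs, hρ]
      exact map_mul_left_eq_self μ g
    rw [mem_Stab, Measure.map_smul, mem_Stab.1 h3]

/-- The invariant probability measure. -/
def m3 : Measure (X3 p q) := (exists_m3 p q).choose

instance instProbm3 : IsProbabilityMeasure (m3 p q) := (exists_m3 p q).choose_spec.1

variable {p q}

theorem m3_inv (hpq : p ≠ q) (g : G3 p q) : (m3 p q).map (fun x => g • x) = m3 p q :=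
  (exists_m3 p q).choose_spec.2 hpq g

theorem map_pi3 (hpq : p ≠ q) : (m3 p q).map (pi3 p q) = mX p := by
  have hm := (continuous_pi3 p q).measurable
  have := Measure.isProbabilityMeasure_map (μ := m3 p q) hm.aemeasurable
  have h := eq_mX_of_P p ((m3 p q).map (pi3 p q)) fun g => by
    rw [mem_Stab, Measure.map_map (measurable_const_smul _) hm]
    conv_rhs => rw [← m3_inv hpq (iP p q g)]
    rw [Measure.map_map hm (measurable_const_smul _)]
    congr 1
    funext x
    exact (pi3_smul p q (g := iP p q g) (Kp q).one_mem x).symm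
  rwa [measure_univ, one_smul] at h

theorem eq_m3 (hpq : p ≠ q) (μ : Measure (X3 p q)) [IsFiniteMeasure μ]
    (h : ∀ g, g ∈ Stab (G3 p q) μ) : μ = μ Set.univ • m3 p q := by
  exact um_uniq (um_disc p q) μ _ h (m3_inv hpq)

theorem eq_m3_of_P (hpq : p ≠ q) (μ : Measure (X3 p q)) [IsFiniteMeasure μ]
    (h : ∀ g, iP p q g ∈ Stab (G3 p q) μ) : μ = μ Set.univ • m3 p q := by
  have := unimod (Measure.haar : Measure SL(2, ℝ))
  have := unimod (Measure.haar : Measure SL(2, ℚ_[p]))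
  have := unimod (Measure.haar : Measure SL(2, ℚ_[q]))
  let e : G3 p q ≃ₜ SL(2, ℚ_[p]) × SL(2, ℝ) × SL(2, ℚ_[q]) :=
    ((Homeomorph.prodComm _ _).prodCongr (Homeomorph.refl _)).trans (Homeomorph.prodAssoc _ _ _)
  exact eq_m3 hpq μ (um_prod (um_disc p q) Measure.haar
    ((Measure.haar : Measure SL(2, ℝ)).prod (Measure.haar : Measure SL(2, ℚ_[q]))) e
    (fun _ _ => rfl) (dense3_Rq p q hpq) μ h)

theorem eq_m3_of_Q (hpq : p ≠ q) (μ : Measure (X3 p q)) [IsFiniteMeasure μ]
    (h : ∀ g, iQ p q g ∈ Stab (G3 p q) μ) : μ = μ Set.univ • m3 p q := by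
  have := um_unimod2 p Measure.haar
  have := unimod (Measure.haar : Measure SL(2, ℚ_[q]))
  exact eq_m3 hpq μ (um_prod (um_disc p q) Measure.haar Measure.haar (Homeomorph.prodComm _ _)
    (fun _ _ => rfl) (dense3_fst p q hpq) μ h)

theorem unimod3 (μ : Measure (G3 p q)) [μ.IsHaarMeasure] : μ.IsMulRightInvariant := by
  exact um_unimod3 p q μ

theorem m3_le (hpq : p ≠ q) (μ : Measure (G3 p q)) [μ.IsHaarMeasure] : ∃ c : ℝ≥0∞, c ≠ ∞ ∧
    ∀ E : Set (G3 p q), IsCompact E → ∀ y : X3 p q, m3 p q ((fun g => g • y) '' E) ≤ c * μ E := by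
  obtain ⟨s, hs⟩ := exists_sec (um_disc p q)
  obtain ⟨c, hc⟩ := um_haar (um_disc p q) hs (m3 p q) (m3_inv hpq) μ
  have := unimod3 μ
  refine ⟨c, ENNReal.coe_ne_top, fun E hE y => ?_⟩
  have h1 : IsCompact ((fun g : G3 p q => g • y) '' E) := hE.image (by fun_prop)
  have h2 : IsCompact ((fun g : G3 p q => g * (s y)⁻¹) ⁻¹' E) :=
    (Homeomorph.mulRight (s y)⁻¹).isCompact_preimage.2 hE
  refine (um_le (um_disc p q) hs (m3 p q) h2.measurableSet h1.measurableSet ?_).trans (le_of_eq ?_)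
  · rintro _ ⟨g, hg, rfl⟩
    refine ⟨g * s y, by simpa using hg, ?_⟩
    conv_rhs => rw [← hs.2 y]
    rfl
  · rw [hc, Measure.smul_apply, smul_eq_mul, measure_preimage_mul_right]

theorem m3_null (hpq : p ≠ q) (μ : Measure (G3 p q)) [μ.IsHaarMeasure] {E : Set (X3 p q)}
    (hE : m3 p q E = 0) : μ {g | (g : X3 p q) ∈ E} = 0 := by
  obtain ⟨s, hs⟩ := exists_sec (um_disc p q)
  obtain ⟨c, h0, hc⟩ := um_haar' (um_disc p q) hs (m3 p q) (m3_inv hpq) μ
  have h := um_null (um_disc p q) hs (m3 p q) hE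
  rw [hc, Measure.smul_apply, smul_eq_mul] at h
  exact (mul_eq_zero.1 h).resolve_left h0

end Pool.Agent.EQ
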