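import Pool.Agent.P.MP_ad7a55_nt.UMs
import Pool.Agent.P.MP_ad7a55_nt.Main2

/-! The main theorem. -/

set_option autoImplicit false

noncomputable section

open MeasureTheory Topology Filter UpperHalfPlane
open scoped MatrixGroups ENNReal BoundedContinuousFunction

namespace Pool.Agent.EQ

theorem ultra_fin {β : Type} (𝒰 : Ultrafilter ℕ) (S : Finset β) {P : ℕ → β → Prop}
    (h : ∀ᶠ i in 𝒰, ∃ b ∈ S, P i b) : ∃ b ∈ S, ∀ᶠ i in 𝒰, P i b := by
  by_contra h1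
  push Not at h1
  have h2 : ∀ᶠ i in 𝒰, ∀ b ∈ S, ¬ P i b :=
    (eventually_all_finset S).2 h1
  obtain ⟨i, ⟨b, hb, h3⟩, h4⟩ := (h.and h2).exists
  exact h4 b hb h3

theorem main_ind3 {n : ℕ} (F : IntermediateField ℚ ℂ) [FiniteDimensional ℚ F] (S S' : Finset ℕ)
    (hS : ∀ p ∈ S, p.Prime) (hS' : ∀ p ∈ S', p.Prime) (τ : ℕ → Fin n → ℍ) (D : ℕ → Fin n → ℤ)
    (hD : ∀ i k, HasDisc (τ i k) (D i k)) {η L : ℝ} (hη : 0 < η)
    (hdom : ∀ k, ∀ᶠ i in atTop,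
      |(D i k : ℝ)| ^ η ≤ ∏ p ∈ S, (p : ℝ) ^ padicValInt p (D i k) ∨
        (Low L (D i k) ∧ ∃ p ∈ S', ∃ q ∈ S', p ≠ q ∧ p ≠ 2 ∧ q ≠ 2 ∧ (∃ κ, Spl p κ (D i k)) ∧
          ∃ κ, Spl q κ (D i k)))
    (hinf : ∀ Y : ℝ, ∀ᶠ i in atTop, ∀ k, Y ≤ -(D i k : ℝ))
    (hgen : NoIsog τ) (𝒰 : Ultrafilter ℕ) (h𝒰 : (𝒰 : Filter ℕ) ≤ atTop)
    (f : Fin n → (ℂ →ᵇ ℝ)) (I : Finset (Fin n)) :
    Tendsto (fun i => avg (orbit_finite F (hD i)).toFinset (fun z => ∏ k ∈ I, f k (z k))) 𝒰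
      (𝓝 (∏ k ∈ I, ∫ z, f k z ∂mY)) := by
  classical
  have hneg : ∀ i k, D i k < 0 := fun i k => (hD i k).isD.1
  induction I using Finset.strongInduction with
  | H I ih =>
    rcases I.eq_empty_or_nonempty with rfl | hI
    · have : ∀ i, avg (orbit_finite F (hD i)).toFinset
          (fun z => ∏ k ∈ (∅ : Finset (Fin n)), f k (z k)) = 1 := fun i => by
        have h1 : (orbit_finite F (hD i)).toFinset.Nonempty :=
          ⟨_, (orbit_finite F (hD i)).mem_toFinset.2 (orbit_self F _)⟩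
        have h2 : ((orbit_finite F (hD i)).toFinset.card : ℝ) ≠ 0 := by
          exact_mod_cast h1.card_pos.ne'
        simp only [avg, Finset.prod_empty, Finset.sum_const, nsmul_eq_mul, mul_one]
        exact div_self h2
      rw [funext this, Finset.prod_empty]
      exact tendsto_const_nhds
    suffices h : ∃ J ⊆ I, J.Nonempty ∧
        Tendsto (fun i => avg (orbit_finite F (hD i)).toFinset (fun z => ∏ k ∈ I, f k (z k)) -
          (∏ k ∈ J, ∫ z, f k z ∂mY) *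
            avg (orbit_finite F (hD i)).toFinset (fun z => ∏ k ∈ I \ J, f k (z k))) 𝒰 (𝓝 0) by
      obtain ⟨J, hJI, hJne, hJ⟩ := h
      have h3 := ih (I \ J) (Finset.sdiff_ssubset hJI hJne)
      have h4 := hJ.add (h3.const_mul (∏ k ∈ J, ∫ z, f k z ∂mY))
      simp only [sub_add_cancel, zero_add] at h4
      rwa [mul_comm, Finset.prod_sdiff hJI] at h4
    by_cases hA : ∀ k ∈ I, ∀ᶠ i in 𝒰,
        |(D i k : ℝ)| ^ η ≤ ∏ p ∈ S, (p : ℝ) ^ padicValInt p (D i k)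
    swap
    · push Not at hA
      obtain ⟨j₀, hj₀, h0⟩ := hA
      have h1 : ∀ᶠ i in 𝒰, Low L (D i j₀) ∧ ∃ p ∈ S', ∃ q ∈ S', p ≠ q ∧ p ≠ 2 ∧ q ≠ 2 ∧
          (∃ κ, Spl p κ (D i j₀)) ∧ ∃ κ, Spl q κ (D i j₀) := by
        filter_upwards [h0, h𝒰 (hdom j₀)] with i h2 h3
        exact h3.resolve_left (not_le.2 h2)
      obtain ⟨p, hp, h2⟩ := ultra_fin 𝒰 S' (h1.mono fun i hi => hi.2)
      obtain ⟨q, hq, h3⟩ := ultra_fin 𝒰 S' h2
      obtain ⟨-, hpq, hp2, hq2, -⟩ := h3.exists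
      have : Fact p.Prime := ⟨hS' p hp⟩
      have : Fact q.Prime := ⟨hS' q hq⟩
      exact main_step3 F τ D hD hgen 𝒰 h𝒰 (fun Y => h𝒰 (hinf Y)) p q hpq hp2 hq2 I j₀ hj₀
        (h3.mono fun i hi => hi.2.2.2) (h1.mono fun i hi => hi.1) f
    obtain ⟨j₀, hj₀, h0⟩ := ultra_max 𝒰 hI fun i k => -(D i k : ℝ)
    have hSne : S.Nonempty := by
      rcases S.eq_empty_or_nonempty with rfl | h
      · obtain ⟨i, h1, h2⟩ := ((hA j₀ hj₀).and (h𝒰 (hinf 2))).exists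
        rw [Finset.prod_empty] at h1
        have h3 : 1 < |(D i j₀ : ℝ)| := by linarith [h2 j₀, neg_le_abs (D i j₀ : ℝ)]
        exact absurd (Real.one_lt_rpow h3 hη) (not_lt.2 h1)
      · exact h
    have hSc : (0 : ℝ) < S.card := by exact_mod_cast hSne.card_pos
    obtain ⟨p, hp, h1⟩ := ultra_max 𝒰 hSne fun i p => (p : ℝ) ^ padicValInt p (D i j₀)
    obtain ⟨j, hj, h2⟩ := ultra_max 𝒰 hI fun i k => padicValInt p (D i k)
    have : Fact p.Prime := ⟨hS p hp⟩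
    have hp1 : (1 : ℝ) < p := by exact_mod_cast (hS p hp).one_lt
    obtain ⟨J, hJI, hjJ, hJ⟩ := main_step2 F τ D hD hgen 𝒰 h𝒰 (fun Y => h𝒰 (hinf Y)) p I j hj h2
      (div_pos hη hSc) (by
      filter_upwards [h0, h1, h2, hA j₀ hj₀] with i h0 h1 h2 h3 k hk
      have h4 : (D i j₀ : ℝ) < 0 := by exact_mod_cast hneg i j₀
      have h5 : (D i k : ℝ) < 0 := by exact_mod_cast hneg i k
      have h6 : (-(D i k : ℝ)) ^ η ≤ ((p : ℝ) ^ padicValInt p (D i j)) ^ S.card := by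
        refine (Real.rpow_le_rpow (by linarith) (h0 k hk) hη.le).trans ?_
        rw [← abs_of_neg h4]
        refine h3.trans ?_
        rw [← Finset.prod_const]
        exact Finset.prod_le_prod (fun _ _ => by positivity) fun q hq =>
          (h1 q hq).trans (pow_le_pow_right₀ hp1.le (h2 j₀ hj₀))
      have h7 : (-(D i k : ℝ)) ^ (η / S.card) ≤ (p : ℝ) ^ padicValInt p (D i j) := by
        rw [div_eq_mul_inv, Real.rpow_mul (by linarith)]
        refine (Real.rpow_le_rpow (Real.rpow_nonneg (by linarith) _) h6 (by positivity)).trans ?_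
        rw [Real.pow_rpow_inv_natCast (by positivity) hSne.card_pos.ne']
      rw [norm_int_eq p (hneg i j).ne, zpow_neg, zpow_natCast, Real.rpow_neg (by linarith)]
      exact inv_anti₀ (Real.rpow_pos_of_pos (by linarith) _) h7) f
    exact ⟨J, hJI, ⟨j, hjJ⟩, hJ⟩

theorem Low.mono {L L' : ℝ} {D : ℤ} (h : Low L D) (hL : L ≤ L') : Low L' D := fun D' h1 h2 =>
  (h D' h1 h2).trans (mul_le_mul_of_nonneg_right hL (Nat.cast_nonneg _))

theorem main3 {n : ℕ} (F : IntermediateField ℚ ℂ) [FiniteDimensional ℚ F] (S : Finset ℕ)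
    (hS : ∀ p ∈ S, p.Prime) (T : Finset ℤ) {η c : ℝ} (hη : 0 < η) (hc : 0 < c)
    (τ : ℕ → Fin n → ℍ) (D : ℕ → Fin n → ℤ) (hD : ∀ i k, HasDisc (τ i k) (D i k))
    (hdom : ∀ k, ∀ᶠ i in atTop,
      |(D i k : ℝ)| ^ η ≤ ∏ p ∈ S, (p : ℝ) ^ padicValInt p (D i k) ∨
        ∃ d f : ℤ, Squarefree d ∧ D i k = f ^ 2 * d ∧ (d ∈ T ∨ (NoZero c d ∧ ∃ p ∈ S, ∃ q ∈ S,
          p ≠ q ∧ p ≠ 2 ∧ q ≠ 2 ∧ jacobiSym d p = 1 ∧ jacobiSym d q = 1)))
    (hpt : ∀ k, ∀ z : ℂ, {i | jInv (τ i k) = z}.Finite)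
    (hgen : ∀ k l, k ≠ l → ∀ a b c d : ℤ, 0 < a * d - b * c →
      {i | ∃ z w : ℍ, (w : ℂ) = (a * z + b) / (c * z + d) ∧ jInv (τ i k) = jInv z ∧
        jInv (τ i l) = jInv w}.Finite)
    (f : (Fin n → ℂ) → ℝ) (hf : Continuous f) (hs : HasCompactSupport f) :
    (∀ i, (galOrbit F fun k => jInv (τ i k)).Finite) ∧
      Tendsto (fun i => (∑ᶠ y ∈ galOrbit F (fun k => jInv (τ i k)), f y) /
        (galOrbit F fun k => jInv (τ i k)).ncard) atTop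
        (𝓝 (∫ y, f y ∂(Measure.pi fun _ : Fin n => mY))) := by
  classical
  set T' := T.filter fun d => d < 0 with hT'
  have hT0 : ∀ d ∈ T', d < 0 := fun d hd => (Finset.mem_filter.1 hd).2
  obtain ⟨c', hc', h1⟩ := noZero_of_finite T' hT0
  obtain ⟨p₀, q₀, hp₀, hq₀, h2, h3, h4, h5⟩ := exists_split T' fun d hd => (hT0 d hd).ne
  obtain ⟨L, -, hL⟩ := low_of_noZero hc
  obtain ⟨L', -, hL'⟩ := low_of_noZero hc'
  refine ⟨fun i => orbit_finite F (hD i), final_of_prod _ (fun i => orbit_finite F (hD i))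
    (fun _ => ⟨_, orbit_self F _⟩)
    (fun 𝒰 h𝒰 g => main_ind3 F S (insert p₀ (insert q₀ S)) hS ?_ τ D hD (L := max L L') hη ?_
      (fun Y => eventually_all.2 fun k => disc_tendsto (fun i => hD i k) (hpt k) Y)
      (noIsog_of_finite τ hgen) 𝒰 h𝒰 g Finset.univ) f hf hs⟩
  · intro p hp
    simp only [Finset.mem_insert] at hp
    rcases hp with rfl | rfl | hp
    exacts [hp₀, hq₀, hS p hp]
  intro k
  filter_upwards [hdom k] with i hi
  refine hi.imp_right ?_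
  rintro ⟨d, e, h6, h7, h8⟩
  have h9 : e ^ 2 * d < 0 := h7 ▸ (hD i k).isD.1
  have he : e ≠ 0 := by
    rintro rfl
    simp at h9
  have hd : d < 0 := by
    by_contra h
    exact absurd h9 (not_lt.2 (mul_nonneg (sq_nonneg e) (not_lt.1 h)))
  rw [h7]
  rcases h8 with h8 | ⟨h8, p, hp, q, hq, a1, a2, a3, a4, a5⟩
  · have h10 : d ∈ T' := Finset.mem_filter.2 ⟨h8, hd⟩
    have : Fact p₀.Prime := ⟨hp₀⟩
    have : Fact q₀.Prime := ⟨hq₀⟩
    exact ⟨(hL' d e h6 h9 (h1 d h10)).mono (le_max_right _ _), p₀, by simp, q₀, by simp, h4, h2, h3,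
      spl_of_jac p₀ (h5 d h10).1 he, spl_of_jac q₀ (h5 d h10).2 he⟩
  · have : Fact p.Prime := ⟨hS p hp⟩
    have : Fact q.Prime := ⟨hS q hq⟩
    exact ⟨(hL d e h6 h9 h8).mono (le_max_left _ _), p, by simp [hp], q, by simp [hq], a1, a2, a3,
      spl_of_jac p a4 he, spl_of_jac q a5 he⟩

end Pool.Agent.EQ
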