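import Pool.Agent.P.MP_ad7a55_nt.UMd
import Pool.Agent.P.MP_ad7a55_nt.UIm
import Pool.Agent.P.MP_ad7a55_nt.UIn
import Pool.Agent.P.MP_ad7a55_nt.TFc

/-! The counting hypotheses hold for framed lifts of Galois orbits. -/

set_option autoImplicit false

noncomputable section

open MeasureTheory Topology Filter UpperHalfPlane
open scoped MatrixGroups ENNReal BoundedContinuousFunction

namespace Pool.Agent.EQ

variable {p q : ℕ} [Fact p.Prime] [Fact q.Prime]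

theorem umc_norm (h2 : p ≠ 2) {κ c : ℕ} {D : ℤ} (h : Spl p κ D) (hκ : κ ≤ c) :
    (p : ℝ) ^ (-(2 * c : ℤ)) ≤ ‖(D : ℚ_[p])‖ := by
  obtain ⟨r, hr, hn⟩ := h.sqrt p h2
  rw [← hr, norm_pow, hn, ← zpow_natCast, ← zpow_mul]
  exact beta_mono p (by push_cast; omega)

theorem umc_ratio (h2 : p ≠ 2) {κ κ' c : ℕ} {D D' : ℤ} (h : Spl p κ D) (h' : Spl p κ' D')
    (hκ : κ ≤ c) {ρ ρ' : ℚ} (e : ρ ^ 2 * D = ρ' ^ 2 * D') :
    ‖(ρ : ℚ_[p])‖ ≤ (p : ℝ) ^ c * ‖(ρ' : ℚ_[p])‖ := by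
  obtain ⟨r, hr, hn⟩ := h.sqrt p h2
  obtain ⟨r', hr', hn'⟩ := h'.sqrt p h2
  have e1 : ((ρ : ℚ_[p]) * r) ^ 2 = ((ρ' : ℚ_[p]) * r') ^ 2 := by
    rw [mul_pow, mul_pow, hr, hr']
    exact_mod_cast congrArg (fun t : ℚ => (t : ℚ_[p])) e
  have e2 := congrArg norm e1
  rw [norm_pow, norm_pow, pow_left_inj₀ (norm_nonneg _) (norm_nonneg _) two_ne_zero, norm_mul,
    norm_mul, hn, hn'] at e2
  have h0 : (p : ℝ) ≠ 0 := (zero_lt_one.trans (beta_one_lt p)).ne'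
  have e3 : ‖(ρ : ℚ_[p])‖ = (p : ℝ) ^ (-(κ' : ℤ) + κ) * ‖(ρ' : ℚ_[p])‖ := by
    rw [zpow_add₀ h0, mul_right_comm, mul_comm _ ‖(ρ' : ℚ_[p])‖, ← e2, mul_assoc, ← zpow_add₀ h0]
    simp
  rw [e3, ← zpow_natCast]
  exact mul_le_mul_of_nonneg_right (beta_mono p (by omega)) (norm_nonneg _)

theorem umc_bow {A O S c H K L R t : ℝ} (hA : A * c ^ 2 ≤ R ^ 2 * S * O ^ 2)
    (hS : S ≤ K * t * H ^ 2) (hH : H ≤ L * c) (hH0 : 0 < H) (hK : 0 ≤ K) (ht : 0 ≤ t) :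
    A ≤ R ^ 2 * K * L ^ 2 * t * O ^ 2 := by
  have hc : c ≠ 0 := by
    rintro rfl
    linarith
  have h1 : H ^ 2 ≤ (L * c) ^ 2 := pow_le_pow_left₀ hH0.le hH 2
  have h2 := hS.trans (mul_le_mul_of_nonneg_left h1 (mul_nonneg hK ht))
  have h3 := mul_le_mul_of_nonneg_right (mul_le_mul_of_nonneg_left h2 (sq_nonneg R)) (sq_nonneg O)
  refine le_of_mul_le_mul_right (hA.trans (h3.trans_eq ?_)) (by positivity)
  ring

theorem cnt_fd (hpq : p ≠ q) (h2 : p ≠ 2) {n : ℕ} (F : IntermediateField ℚ ℂ)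
    [FiniteDimensional ℚ F] (τ : ℕ → Fin n → ℍ) (D : ℕ → Fin n → ℤ)
    (hD : ∀ i k, HasDisc (τ i k) (D i k)) (hgen : NoIsog τ) (𝒰 : Ultrafilter ℕ)
    (h𝒰 : (𝒰 : Filter ℕ) ≤ atTop) (hinf : ∀ Y : ℝ, ∀ᶠ i in 𝒰, ∀ k, Y ≤ -(D i k : ℝ)) (j : Fin n)
    (J : Finset (Fin n)) {c M : ℕ} {L : ℝ} {T : Finset SL(2, ℚ_[p])} {T' : Finset SL(2, ℚ_[q])}
    (hT : ∀ h ∈ T, Bd ((p : ℝ) ^ c) (h : Matrix (Fin 2) (Fin 2) ℚ_[p]))
    (hJ : ∀ᶠ i in 𝒰, ∀ k ∈ J, Low L (D i k) ∧ ∃ κ ≤ c, Spl p κ (D i k))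
    {ρ : ℕ → Fin n → ℚ} {rp : ℕ → Fin n → ℚ_[p]} {rq : ℕ → Fin n → ℚ_[q]}
    {x : ℕ → (Fin n → ℂ) → J → X3 p q} {hp : ℕ → (Fin n → ℂ) → J → SL(2, ℚ_[p])}
    {hq : ℕ → (Fin n → ℂ) → J → SL(2, ℚ_[q])} {σ : ℕ → ℕ × ℕ → ℂ ≃+* ℂ}
    (h : ∀ᶠ i in 𝒰, FD p q F (fun k => jInv (τ i k)) (D i) j J M T T' (ρ i) (rp i) (rq i) (x i)
      (hp i) (hq i) (σ i)) :
    Cnt p q 𝒰 (fun i => (orbit_finite F (hD i)).toFinset)
      fun i z => yy p q M (hq i z) (x i z) := by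
  have hb : ∀ᶠ i in 𝒰, ∀ k, D i k < -576 := by
    filter_upwards [hinf 577] with i hi k
    have : (577 : ℤ) ≤ -D i k := by exact_mod_cast hi k
    omega
  have hcard : ∀ i, ((orbit_finite F (hD i)).toFinset.card : ℝ) =
      (galOrbit F fun k => jInv (τ i k)).ncard := fun i => by
    rw [Set.ncard_eq_toFinset_card _ (orbit_finite F (hD i))]
  refine ⟨fun ε hε => ?_, ?_, fun k l hkl q' hq' δ hδ R ε hε => ?_⟩
  · obtain ⟨t, Y, ht, hs⟩ := frac_sh F L hε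
    obtain ⟨Ω, hΩ, hc⟩ := cf_tight hpq T ht
    refine ⟨Ω, hΩ, fun k => ?_⟩
    filter_upwards [h, hJ, hinf Y, hb] with i hi hJi hY hbi u
    rw [hcard]
    refine le_trans ?_ (hs n (τ i) (D i) (hD i) k (hbi k) (hJi k k.2).1 (hY k))
    rw [← orbit_card _ (hi.fix u) fun w => w k.1 ∈ Sh (D i k) t 1]
    refine Nat.cast_le.2 (Set.ncard_le_ncard (fun z hz => ?_)
      ((orbit_finite F (hD i)).subset fun z hz => hz.1))
    have hz' := (Set.Finite.mem_toFinset _).1 hz.1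
    refine ⟨hz', by_contra fun hn => hz.2 (hc _ _ _ _ (hi.mem z hz' k).1 _ _ (hi.cf z hz' u k) ?_)⟩
    rwa [hi.pi z hz' u k]
  · obtain ⟨K, hK, hs⟩ := bw_set hpq h2 c
    refine ⟨(15 * Module.finrank ℚ F) ^ 2 * K * L ^ 2, fun k m => ?_⟩
    obtain ⟨Y, hs⟩ := hs m
    filter_upwards [h, hJ, hinf Y, hb] with i hi hJi hY hbi u u'
    obtain ⟨hL, κ, hκ, hsp⟩ := hJi k k.2
    obtain ⟨S, hS, hSc, hm⟩ := hs (D i k) κ (rp i k) hκ (hD i k).isD hsp (hY k)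
    rw [hcard]
    refine le_trans ?_ (umc_bow (orbit_two F (hD i) k (hbi k) hS) hSc
      (hL _ (hD i k).isD ⟨_, rfl⟩) (tfc_HH (hD i k).isD) hK.le (beta_pos p _).le)
    rw [← orbit_card2 _ (hi.fix u) (hi.fix u') fun w w' => (w k.1, w' k.1) ∈ S]
    refine Nat.cast_le.2 (Set.ncard_le_ncard (fun z hz => ?_)
      (((orbit_finite F (hD i)).prod (orbit_finite F (hD i))).subset fun z hz => ⟨hz.1, hz.2.1⟩))
    have h1 := (Set.Finite.mem_toFinset _).1 hz.1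
    have h2 := (Set.Finite.mem_toFinset _).1 hz.2.1
    refine ⟨h1, h2, ?_⟩
    have := hm _ _ _ _ _ _ _ _ (hT _ (hi.mem _ h1 k).1) (hT _ (hi.mem _ h2 k).1) (hi.cf _ h1 u k)
      (hi.cf _ h2 u' k) hz.2.2
    rwa [hi.pi _ h1, hi.pi _ h2] at this
  · obtain ⟨N, n', C, hN, hn', hs⟩ := cf_on hpq hq' hδ R c
    obtain ⟨r, N₀, hN₀, hf⟩ := frac_bad3 (p := p) F hn' C L c hε
    obtain ⟨m, hs⟩ := hs r
    have hkl' : (k : Fin n) ≠ l := fun e => hkl (Subtype.ext e)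
    refine ⟨m, ?_⟩
    filter_upwards [h, hJ, hb, h𝒰 (hgen k l hkl' N hN), h𝒰 (hgen k l hkl' N₀ hN₀)]
      with i hi hJi hbi g1 g2 u
    obtain ⟨hL, κ, hκ, hsp⟩ := hJi k k.2
    obtain ⟨-, κ', hκ', hsp'⟩ := hJi l l.2
    obtain ⟨a1, a2, a3⟩ := hi.rat k k.2
    obtain ⟨b1, b2, b3⟩ := hi.rat l l.2
    rw [hcard]
    refine le_trans ?_ (hf n (τ i) (D i) (hD i) k l _ _ (hbi k) (hbi l) a1 b1 (a2.trans b2.symm)
      (umc_ratio h2 hsp hsp' hκ (a2.trans b2.symm)) (umc_ratio h2 hsp' hsp hκ' (b2.trans a2.symm))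
      hL g2)
    rw [← orbit_card _ (hi.fix u) fun w => ∃ M₁ M₂, DiscL M₁ (D i k) ∧ DiscL M₂ (D i l) ∧
      jL M₁ = w k.1 ∧ jL M₂ = w l.1 ∧ Bad3 p n' C r (D i k) (D i l) M₁ M₂]
    refine Nat.cast_le.2 (Set.ncard_le_ncard (fun z hz => ?_)
      ((orbit_finite F (hD i)).subset fun z hz => hz.1))
    have hz' := (Set.Finite.mem_toFinset _).1 hz.1
    have := hs _ _ _ _ _ _ _ _ _ _ _ _ _ _ (hi.cf z hz' u k) (hi.cf z hz' u l)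
      (hT _ (hi.mem z hz' k).1) (hT _ (hi.mem z hz' l).1) a1 b1 (a2.trans b2.symm)
      (a3.trans b3.symm) (umc_norm h2 hsp hκ) hz.2
    rw [hi.pi z hz', hi.pi z hz'] at this
    refine ⟨hz', this.resolve_left ?_⟩
    obtain ⟨σ', -, rfl⟩ := hz'
    exact g1 (σ'.trans (σ i u))

end Pool.Agent.EQ
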