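import Pool.Agent.P.MP_ad7a55_nt.UMv
import Pool.Agent.P.MP_ad7a55_nt.USt
import Pool.Agent.P.MP_ad7a55_nt.MainA

/-! Framed lifts of a Galois orbit. -/

set_option autoImplicit false

noncomputable section

open MeasureTheory Topology Filter UpperHalfPlane
open scoped MatrixGroups ENNReal BoundedContinuousFunction

namespace Pool.Agent.EQ

theorem umd_symm {F : IntermediateField ℚ ℂ} {σ : ℂ ≃+* ℂ} (hσ : ∀ a ∈ F, σ a = a) :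
    ∀ a ∈ F, σ.symm a = a := fun a ha => by
  rw [RingEquiv.symm_apply_eq, hσ a ha]

theorem umd_inj {n : ℕ} (σ : ℂ ≃+* ℂ) :
    Function.Injective fun (z : Fin n → ℂ) (k : Fin n) => σ (z k) := fun _ _ h =>
  funext fun k => σ.injective (congrFun h k)

theorem umd_pow {σ : ℂ ≃+* ℂ} {a : ℂ} (h : σ a = a) (u : ℕ) : (σ ^ u) a = a := by
  induction u with
  | zero => rfl
  | succ u ih =>
    rw [pow_succ]
    change (σ ^ u) (σ a) = a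
    rw [h, ih]

theorem umd_pow2 {σ σ' : ℂ ≃+* ℂ} {a : ℂ} (h : σ a = a) (h' : σ' a = a) (u v : ℕ) :
    (σ ^ u * σ' ^ v) a = a := by
  change (σ ^ u) ((σ' ^ v) a) = a
  rw [umd_pow h', umd_pow h]

theorem umd_norm (p : ℕ) [Fact p.Prime] (h2 : p ≠ 2) {c : ℕ} {D : ℤ}
    (h : ∃ κ ≤ c, Spl p κ D) {r : ℚ_[p]} (hr : r ^ 2 = D) : (p : ℝ) ^ (-(c : ℤ)) ≤ ‖r‖ := by
  obtain ⟨κ, hκ, hs⟩ := h
  obtain ⟨r', h1, h3⟩ := Spl.sqrt p h2 hs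
  have hp : (1 : ℝ) ≤ p := by exact_mod_cast (Fact.out : p.Prime).one_lt.le
  have h4 : ‖r‖ ^ 2 = ‖r'‖ ^ 2 := by rw [← norm_pow, ← norm_pow, hr, h1]
  have h5 : ‖r‖ = ‖r'‖ := (pow_left_inj₀ (norm_nonneg _) (norm_nonneg _) two_ne_zero).1 h4
  rw [h5, h3]
  exact zpow_le_zpow_right₀ hp (by omega)

theorem umd_sq (p : ℕ) [Fact p.Prime] {ρ : ℚ} (h0 : 0 < ρ) {D D₀ : ℤ} (h : ρ ^ 2 * D = D₀)
    {r : ℚ_[p]} (hr : r ^ 2 = D₀) : (r / ρ) ^ 2 = D := by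
  have h1 : (ρ : ℚ_[p]) ≠ 0 := by exact_mod_cast h0.ne'
  have h2 : (ρ : ℚ_[p]) ^ 2 * D = D₀ := by
    exact_mod_cast congrArg (fun x : ℚ => (x : ℚ_[p])) h
  rw [div_pow, hr, ← h2]
  field_simp

theorem umd_mul (p : ℕ) [Fact p.Prime] {ρ : ℚ} (h0 : 0 < ρ) (B : ℚ) (r : ℚ_[p]) :
    ((B * ρ : ℚ) : ℚ_[p]) * (r / ρ) = B * r := by
  have h1 : (ρ : ℚ_[p]) ≠ 0 := by exact_mod_cast h0.ne'
  push_cast
  field_simp

theorem orbit_card {n : ℕ} {F : IntermediateField ℚ ℂ} (x : Fin n → ℂ) {σ : ℂ ≃+* ℂ}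
    (hσ : ∀ a ∈ F, σ a = a) (P : (Fin n → ℂ) → Prop) :
    {z | z ∈ galOrbit F x ∧ P fun k => σ (z k)}.ncard = {z | z ∈ galOrbit F x ∧ P z}.ncard := by
  rw [← Set.ncard_image_of_injective _ (umd_inj σ)]
  congr 1
  ext z
  constructor
  · rintro ⟨w, ⟨hw, hP⟩, rfl⟩
    exact ⟨orbit_map hw hσ, hP⟩
  · rintro ⟨hz, hP⟩
    refine ⟨fun k => σ.symm (z k), ⟨orbit_map hz (umd_symm hσ), ?_⟩, ?_⟩
    · simpa using hP
    · simp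

theorem orbit_card2 {n : ℕ} {F : IntermediateField ℚ ℂ} (x : Fin n → ℂ) {σ σ' : ℂ ≃+* ℂ}
    (hσ : ∀ a ∈ F, σ a = a) (hσ' : ∀ a ∈ F, σ' a = a) (P : (Fin n → ℂ) → (Fin n → ℂ) → Prop) :
    {z : (Fin n → ℂ) × (Fin n → ℂ) | z.1 ∈ galOrbit F x ∧ z.2 ∈ galOrbit F x ∧
        P (fun k => σ (z.1 k)) fun k => σ' (z.2 k)}.ncard =
      {z : (Fin n → ℂ) × (Fin n → ℂ) | z.1 ∈ galOrbit F x ∧ z.2 ∈ galOrbit F x ∧
        P z.1 z.2}.ncard := by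
  rw [← Set.ncard_image_of_injective _ ((umd_inj (n := n) σ).prodMap (umd_inj (n := n) σ'))]
  congr 1
  ext z
  constructor
  · rintro ⟨w, ⟨hw, hw', hP⟩, rfl⟩
    exact ⟨orbit_map hw hσ, orbit_map hw' hσ', hP⟩
  · rintro ⟨hz, hz', hP⟩
    refine ⟨(fun k => σ.symm (z.1 k), fun k => σ'.symm (z.2 k)),
      ⟨orbit_map hz (umd_symm hσ), orbit_map hz' (umd_symm hσ'), ?_⟩, ?_⟩
    · simpa using hP
    · ext k <;> simp

variable (p q : ℕ) [Fact p.Prime] [Fact q.Prime]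

/-- Framed lifts of the coordinates in `J` of the points of an orbit. -/
structure FD {n : ℕ} (F : IntermediateField ℚ ℂ) (x₀ : Fin n → ℂ) (D : Fin n → ℤ) (j : Fin n)
    (J : Finset (Fin n)) (M : ℕ) (T : Finset SL(2, ℚ_[p])) (T' : Finset SL(2, ℚ_[q]))
    (ρ : Fin n → ℚ) (rp : Fin n → ℚ_[p]) (rq : Fin n → ℚ_[q]) (x : (Fin n → ℂ) → J → X3 p q)
    (hp : (Fin n → ℂ) → J → SL(2, ℚ_[p])) (hq : (Fin n → ℂ) → J → SL(2, ℚ_[q]))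
    (σ : ℕ × ℕ → ℂ ≃+* ℂ) : Prop where
  fix : ∀ u, ∀ a ∈ F, σ u a = a
  rat : ∀ k ∈ J, 0 < ρ k ∧ ρ k ^ 2 * D k = D j ∧ (ρ k : ℚ_[p]) * rp k = rp j
  mem : ∀ z ∈ galOrbit F x₀, ∀ k, hp z k ∈ T ∧ hq z k ∈ T'
  cf : ∀ z ∈ galOrbit F x₀, ∀ u (k : J),
    CF p q (D k) (rp k) (rq k) (hp z k) (hq z k) (yy p q M (hq z) (x z) u k)
  pi : ∀ z ∈ galOrbit F x₀, ∀ u (k : J),
    j3 p q (iP p q (hp z k) • yy p q M (hq z) (x z) u k) = σ u (z k)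
  out : ∀ z ∈ galOrbit F x₀, ∀ u k, ¬ IsSquare (D k * D j) → σ u (z k) = z k

theorem exists_fd (hpq : p ≠ q) (h2 : p ≠ 2) (h2' : q ≠ 2) (F : IntermediateField ℚ ℂ)
    [FiniteDimensional ℚ F] (n c : ℕ) :
    ∃ (M : ℕ) (T : Finset SL(2, ℚ_[p])) (T' : Finset SL(2, ℚ_[q])), 0 < M ∧
      (∀ h ∈ T, Bd ((p : ℝ) ^ c) (h : Matrix (Fin 2) (Fin 2) ℚ_[p])) ∧
      ∀ (τ : Fin n → ℍ) (D : Fin n → ℤ) (j : Fin n) (J : Finset (Fin n)),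
        (∀ k, HasDisc (τ k) (D k)) → j ∈ J → ∃ ρ rp rq x hp hq σ, (∀ k, D k < -576) →
          (∀ k ∈ J, IsSquare (D k * D j) ∧ (∃ κ ≤ c, Spl p κ (D k)) ∧ ∃ κ ≤ c, Spl q κ (D k)) →
          FD p q F (fun k => jInv (τ k)) D j J M T T' ρ rp rq x hp hq σ := by
  classical
  obtain ⟨M, hM, hcm⟩ := cm_pow F n
  obtain ⟨T, T', hT, hT', hcf⟩ := exists_cf p q hpq h2 h2' c
  refine ⟨M, T, T', hM, hT, fun τ D j J h hj => ?_⟩
  by_cases H : (∀ k, D k < -576) ∧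
    ∀ k ∈ J, IsSquare (D k * D j) ∧ (∃ κ ≤ c, Spl p κ (D k)) ∧ ∃ κ ≤ c, Spl q κ (D k)
  swap
  · exact ⟨fun _ => 0, fun _ => 0, fun _ => 0, fun _ _ => ((1 : G3 p q) : X3 p q), fun _ _ => 1,
      fun _ _ => 1, fun _ => RingEquiv.refl _, fun h₁ h₂ => absurd ⟨h₁, h₂⟩ H⟩
  obtain ⟨hD, hJ⟩ := H
  have hneg : ∀ k, D k < 0 := fun k => by linarith [hD k]
  have h1 : ∀ k, ∃ ρ : ℚ, IsSquare (D k * D j) → 0 < ρ ∧ ρ ^ 2 * D k = D j ∧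
      th (D j) = ρ * th (D k) := by
    intro k
    by_cases hk : IsSquare (D k * D j)
    · obtain ⟨ρ, hρ⟩ := exists_ratio (hneg k) (hneg j) hk
      exact ⟨ρ, fun _ => hρ⟩
    · exact ⟨0, fun h' => absurd h' hk⟩
  choose ρ hρ using h1
  have hρj : ρ j = 1 := by
    have hsq : IsSquare (D j * D j) := ⟨D j, rfl⟩
    have h4 := (hρ j hsq).2.1
    have h5 : (D j : ℚ) ≠ 0 := by exact_mod_cast (hneg j).ne
    have h6 : ρ j ^ 2 = 1 := mul_right_cancel₀ h5 (by rw [h4, one_mul])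
    exact (pow_eq_one_iff_of_nonneg (hρ j hsq).1.le two_ne_zero).1 h6
  obtain ⟨κp, -, hκp⟩ := (hJ j hj).2.1
  obtain ⟨κq, -, hκq⟩ := (hJ j hj).2.2
  obtain ⟨r, hr, -⟩ := Spl.sqrt p h2 hκp
  obtain ⟨r', hr', -⟩ := Spl.sqrt q h2' hκq
  have hr0 : r ≠ 0 := by
    rintro rfl
    have h3 : ((D j : ℤ) : ℚ_[p]) = 0 := by rw [← hr]; simp
    exact (hneg j).ne (by exact_mod_cast h3)
  have hr0' : r' ≠ 0 := by
    rintro rfl
    have h3 : ((D j : ℤ) : ℚ_[q]) = 0 := by rw [← hr']; simp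
    exact (hneg j).ne (by exact_mod_cast h3)
  obtain ⟨A, B, hA, hB⟩ := exists_AB p h2 hr0 (2 * c)
  obtain ⟨A', B', hA', hB'⟩ := exists_AB q h2' hr0' (2 * c)
  have hcard : (Finset.univ.image D).card ≤ n := Finset.card_image_le.trans (by simp)
  have hall : ∀ D' ∈ Finset.univ.image D, D' < -576 ∧ IsD D' := fun D' hD' => by
    obtain ⟨k, -, rfl⟩ := Finset.mem_image.1 hD'
    exact ⟨hD k, (discL_one (h k)).isD⟩
  have hmem : ∀ k, D k ∈ Finset.univ.image D := fun k =>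
    Finset.mem_image_of_mem _ (Finset.mem_univ k)
  obtain ⟨s, hs, hs1⟩ := hcm p _ hcard hall (D j) (hmem j) _ (inK_AB p (hneg j) hA)
  obtain ⟨s', hs', hs2⟩ := hcm q _ hcard hall (D j) (hmem j) _ (inK_AB q (hneg j) hA')
  have h3 : ∀ (z : Fin n → ℂ) (k : J), ∃ (hp : SL(2, ℚ_[p])) (hq : SL(2, ℚ_[q])) (x : X3 p q),
      z ∈ (galOrbit F fun k => jInv (τ k)) → hp ∈ T ∧ hq ∈ T' ∧
        CF p q (D k) (r / ρ k) (r' / ρ k) hp hq x ∧ j3 p q (iP p q hp • x) = z k := by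
    intro z k
    by_cases hz : z ∈ (galOrbit F fun k => jInv (τ k))
    · obtain ⟨t, ht, hjt⟩ := orbit_lift h hD hz k
      obtain ⟨hk1, hk2, hk3⟩ := hJ k k.2
      have e1 := umd_sq p (hρ k hk1).1 (hρ k hk1).2.1 hr
      have e2 := umd_sq q (hρ k hk1).1 (hρ k hk1).2.1 hr'
      obtain ⟨hp, hp1, hq, hq1, x, hx, hx'⟩ := hcf t (D k) _ _ ht e1 e2 (umd_norm p h2 hk2 e1)
        (umd_norm q h2' hk3 e2)
      exact ⟨hp, hq, x, fun _ => ⟨hp1, hq1, hx, hx'.trans hjt⟩⟩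
    · exact ⟨1, 1, ((1 : G3 p q) : X3 p q), fun h' => absurd h' hz⟩
  choose hp hq x hx using h3
  have key : ∀ z ∈ (galOrbit F fun k => jInv (τ k)), ∀ (u : ℕ × ℕ) (k : J),
      CF p q (D k) (r / ρ k) (r' / ρ k) (hp z k) (hq z k)
          (a3 p q (M * u.1) • b3 p q (hq z k) (M * u.2) • x z k) ∧
        j3 p q (iP p q (hp z k) • a3 p q (M * u.1) • b3 p q (hq z k) (M * u.2) • x z k) =
          (s ^ u.1 * s' ^ u.2) (z k) := by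
    intro z hz u k
    obtain ⟨m1, m2, m3, m4⟩ := hx z k hz
    obtain ⟨hk1, -, -⟩ := hJ k k.2
    obtain ⟨ρ0, -, ρ2⟩ := hρ k hk1
    have e : ∀ A B : ℚ, ((A : ℂ) + ((B * ρ k : ℚ) : ℂ) * th (D k)) = A + B * th (D j) := by
      intro A B
      rw [ρ2]
      push_cast
      ring
    rw [← m4]
    refine CF.orbit hpq m3 (hT _ m1) (hT' _ m2) (A := A) (B := B * ρ k) (A' := A')
      (B' := B' * ρ k) ?_ ?_ ?_ ?_ (fun Λ hΛ => ?_) (fun Λ hΛ => ?_) u.1 u.2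
    · rw [umd_mul p ρ0]; exact hA
    · rw [umd_mul p ρ0]; exact hB
    · rw [umd_mul q ρ0]; exact hA'
    · rw [umd_mul q ρ0]; exact hB'
    · rw [e]; exact (hs1 _ (hmem k) Λ hΛ).1 hk1
    · rw [e]; exact (hs2 _ (hmem k) Λ hΛ).1 hk1
  refine ⟨ρ, fun k => r / ρ k, fun k => r' / ρ k, x, hp, hq, fun u => s ^ u.1 * s' ^ u.2,
    fun _ _ => ⟨?_, ?_, ?_, ?_, ?_, ?_⟩⟩
  · intro u a ha
    exact umd_pow2 (hs a ha) (hs' a ha) _ _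
  · intro k hk
    obtain ⟨ρ0, ρ1, -⟩ := hρ k (hJ k hk).1
    refine ⟨ρ0, ρ1, ?_⟩
    have h4 : (ρ k : ℚ_[p]) ≠ 0 := by exact_mod_cast ρ0.ne'
    rw [hρj]
    push_cast
    field_simp
  · intro z hz k
    exact ⟨(hx z k hz).1, (hx z k hz).2.1⟩
  · intro z hz u k
    exact (key z hz u k).1
  · intro z hz u k
    exact (key z hz u k).2
  · intro z hz u k hk
    obtain ⟨t, ht, hjt⟩ := orbit_lift h hD hz k
    rw [← hjt, ← jL_one]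
    exact umd_pow2 ((hs1 _ (hmem k) _ (discL_one ht)).2 hk)
      ((hs2 _ (hmem k) _ (discL_one ht)).2 hk) _ _

end Pool.Agent.EQ
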