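import Pool.Agent.P.MP_ad7a55_nt.UM

/-! Ergodicity of the diagonal elements and the measure of thin neighbourhoods. -/

set_option autoImplicit false

noncomputable section

open MeasureTheory Topology Filter UpperHalfPlane
open scoped MatrixGroups ENNReal BoundedContinuousFunction

namespace Pool.Agent.EQ

/-- A transformation is ergodic when its invariant measure is extreme. -/
theorem ergodic_of_ext {X : Type} [MeasurableSpace X] (m : Measure X) [IsProbabilityMeasure m]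
    {T : X → X} (hT : MeasurePreserving T m m)
    (h : ∀ μ : Measure X, μ ≤ m → μ.map T = μ → μ = μ Set.univ • m) : Ergodic T m := by
  refine ⟨hT, ⟨fun s hs hi => ?_⟩⟩
  have h1 := (hT.restrict_preimage hs).map_eq
  rw [hi] at h1
  have h2 := congrArg (fun μ : Measure X => μ sᶜ) (h _ Measure.restrict_le_self h1)
  simp only [Measure.restrict_apply hs.compl, Set.compl_inter_self, measure_empty,
    Measure.restrict_apply MeasurableSet.univ, Set.univ_inter, Measure.smul_apply,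
    smul_eq_mul] at h2
  rw [eventuallyConst_set]
  rcases mul_eq_zero.1 h2.symm with h3 | h3
  · exact Or.inr (measure_eq_zero_iff_ae_notMem.1 h3)
  · exact Or.inl h3

variable {p q : ℕ} [Fact p.Prime] [Fact q.Prime]

theorem ume_pow_lt {t : ℕ} (ht : 0 < t) : ‖(p : ℚ_[p]) ^ t‖ < 1 := by
  rw [norm_pow]
  exact pow_lt_one₀ (norm_nonneg _) Padic.norm_p_lt_one ht.ne'

theorem erg_a3 (hpq : p ≠ q) {t : ℕ} (ht : 0 < t) :
    Ergodic (fun x : X3 p q => a3 p q t • x) (m3 p q) := by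
  refine ergodic_of_ext _ ⟨measurable_const_smul _, m3_inv hpq _⟩ fun μ hμ hi => ?_
  have : IsFiniteMeasure μ := isFiniteMeasure_of_le _ hμ
  refine eq_m3_of_P hpq μ fun g => ?_
  exact maut_contract (mprop_Stab (m3 p q) μ (m3_inv hpq) hμ)
    ((MonoidHom.inl (GG p) SL(2, ℚ_[q])).comp (MonoidHom.inr SL(2, ℝ) SL(2, ℚ_[p])))
    ((continuous_const.prodMk continuous_id).prodMk continuous_const) ((p : ℚ_[p]) ^ t)
    (pow_ne_zero _ (Nat.cast_ne_zero.2 (Fact.out : p.Prime).ne_zero)) (ume_pow_lt ht)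
    (A := a3 p q t) hi (fun b => by simp [a3, aP]) g

theorem erg_b3 (hpq : p ≠ q) (h : SL(2, ℚ_[q])) {t : ℕ} (ht : 0 < t) :
    Ergodic (fun x : X3 p q => b3 p q h t • x) (m3 p q) := by
  refine ergodic_of_ext _ ⟨measurable_const_smul _, m3_inv hpq _⟩ fun μ hμ hi => ?_
  have : IsFiniteMeasure μ := isFiniteMeasure_of_le _ hμ
  refine eq_m3_of_Q hpq μ fun g => ?_
  have := maut_contract (mprop_Stab (m3 p q) μ (m3_inv hpq) hμ)
    ((MonoidHom.inr (GG p) SL(2, ℚ_[q])).comp (MulAut.conj h).toMonoidHom)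
    (continuous_const.prodMk ((continuous_const.mul continuous_id).mul continuous_const))
    ((q : ℚ_[q]) ^ t)
    (pow_ne_zero _ (Nat.cast_ne_zero.2 (Fact.out : q.Prime).ne_zero)) (ume_pow_lt ht)
    (A := b3 p q h t) hi (fun b => by simp [b3, aP, mul_assoc]) (h⁻¹ * g * h)
  simpa [mul_assoc, iQ] using this

theorem ume_count {H : Type} [Group H] [MeasurableSpace H] [MeasurableMul H] (μ : Measure H)
    [μ.IsMulLeftInvariant] {E D : Set H} (hE : MeasurableSet E) (N : ℕ) (u : ℕ → H)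
    (hD : ∀ s, ∀ g ∈ E, u s * g ∈ D)
    (hd : ∀ s < N, ∀ s' < N, ∀ g ∈ E, ∀ g' ∈ E, u s * g = u s' * g' → s = s') :
    N * μ E ≤ μ D := by
  have h1 : μ (⋃ s ∈ Finset.range N, (fun x => (u s)⁻¹ * x) ⁻¹' E) =
      ∑ s ∈ Finset.range N, μ ((fun x => (u s)⁻¹ * x) ⁻¹' E) := by
    refine measure_biUnion_finset (fun s hs s' hs' h => ?_) fun s _ =>
      measurable_const_mul _ hE
    refine Set.disjoint_left.2 fun x h2 h3 => h ?_
    exact hd s (Finset.mem_range.1 hs) s' (Finset.mem_range.1 hs') _ h2 _ h3 (by simp)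
  simp only [measure_preimage_mul, Finset.sum_const, Finset.card_range, nsmul_eq_mul] at h1
  rw [← h1]
  refine measure_mono (Set.iUnion₂_subset fun s _ x hx => ?_)
  simpa using hD s _ hx

theorem ume_unit {g : SL(2, ℚ_[p])} (hg : g ∈ Kp p) (h : ‖g 0 1‖ < 1 ∨ ‖g 1 0‖ < 1) :
    ‖g 0 0‖ = 1 ∧ ‖g 1 1‖ = 1 := by
  have hd : g 0 0 * g 1 1 - g 0 1 * g 1 0 = 1 := by
    have := g.det_coe
    rwa [Matrix.det_fin_two] at this
  have h1 : ‖g 0 1 * g 1 0‖ < 1 := by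
    rw [norm_mul]
    rcases h with h | h
    · exact (mul_le_of_le_one_right (norm_nonneg _) (hg 1 0)).trans_lt h
    · exact (mul_le_of_le_one_left (norm_nonneg _) (hg 0 1)).trans_lt h
  have h2 : 1 ≤ ‖g 0 0‖ * ‖g 1 1‖ := by
    have h3 := Padic.nonarchimedean (g 0 0 * g 1 1) (-(g 0 1 * g 1 0))
    rw [← sub_eq_add_neg, hd, norm_one, norm_neg, norm_mul] at h3
    exact (le_max_iff.1 h3).resolve_right (not_le.2 h1)
  exact ⟨le_antisymm (hg 0 0) (h2.trans (mul_le_of_le_one_right (norm_nonneg _) (hg 1 1))),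
    le_antisymm (hg 1 1) (h2.trans (mul_le_of_le_one_left (norm_nonneg _) (hg 0 0)))⟩

theorem ume_appr (n : ℕ) {x y : ℚ_[p]} (hx : ‖x‖ ≤ 1) (hy : ‖y‖ = 1) :
    ∃ s : ℕ, s < p ^ n ∧ ‖x - s * y‖ ≤ (p : ℝ) ^ (-(n : ℤ)) := by
  have hy0 : y ≠ 0 := by
    rintro rfl
    simp at hy
  let z : ℤ_[p] := ⟨x / y, by rw [norm_div, hy, div_one]; exact hx⟩
  refine ⟨z.appr n, z.appr_lt n, ?_⟩
  have h1 := (PadicInt.norm_le_pow_iff_mem_span_pow _ n).2 (PadicInt.appr_spec n z)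
  have h2 : x - (z.appr n : ℚ_[p]) * y = ((z - z.appr n : ℤ_[p]) : ℚ_[p]) * y := by
    push_cast
    simp only [z]
    field_simp
  rw [h2, norm_mul, hy, mul_one]
  exact h1

theorem ume_thin (hpq : p ≠ q) {𝒪 : Set (G3 p q)} (h𝒪 : IsCompact 𝒪)
    (hK : ∀ g ∈ 𝒪, g.1.2 ∈ Kp p) (i j : Fin 2) (v : ℚ_[p] → SL(2, ℚ_[p]))
    (hv : ∀ s, ‖s‖ ≤ 1 → v s ∈ Kp p)
    (h1 : ∀ s (g : SL(2, ℚ_[p])), (v s * g) i j = g i j + s * g j j)
    (h2 : ∀ s (g : SL(2, ℚ_[p])), (v s * g) j j = g j j)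
    (h3 : ∀ g ∈ Kp p, ‖g i j‖ < 1 → ‖g j j‖ = 1) :
    ∃ C : ℝ, ∀ (n : ℕ) (y : X3 p q),
      m3 p q {x | ∃ g ∈ 𝒪, ‖g.1.2 i j‖ ≤ (p : ℝ) ^ (-(n : ℤ)) ∧ x = g • y} ≤
        ENNReal.ofReal (C * (p : ℝ) ^ (-(n : ℤ))) := by
  have hp0 : (0 : ℝ) < p := Nat.cast_pos.2 (Fact.out : p.Prime).pos
  have hp1 : (1 : ℝ) < p := Nat.one_lt_cast.2 (Fact.out : p.Prime).one_lt
  set μ : Measure (G3 p q) := Measure.haar with hμ
  obtain ⟨c, hc, hle⟩ := m3_le hpq μ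
  have hiP : Continuous (iP p q) :=
    (continuous_const.prodMk continuous_id).prodMk continuous_const
  set D : Set (G3 p q) :=
    (fun z : SL(2, ℚ_[p]) × G3 p q => iP p q z.1 * z.2) '' ((Kp p : Set _) ×ˢ 𝒪) with hD
  have hDc : IsCompact D :=
    ((Kp_compact p).prod h𝒪).image ((hiP.comp continuous_fst).mul continuous_snd)
  have hfin : c * μ D ≠ ∞ := ENNReal.mul_ne_top hc hDc.measure_lt_top.ne
  refine ⟨(c * μ D).toReal, fun n y => ?_⟩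
  set E : Set (G3 p q) := 𝒪 ∩ {g | ‖g.1.2 i j‖ ≤ (p : ℝ) ^ (-(n : ℤ))} with hE
  have hEc : IsCompact E := h𝒪.inter_right (isClosed_le
    ((continuous_subtype_val.matrix_elem i j).comp continuous_fst.snd).norm continuous_const)
  have e : {x | ∃ g ∈ 𝒪, ‖g.1.2 i j‖ ≤ (p : ℝ) ^ (-(n : ℤ)) ∧ x = g • y} =
      (fun g => g • y) '' E := by
    ext x
    constructor
    · rintro ⟨g, a1, a2, a3⟩
      exact ⟨g, ⟨a1, a2⟩, a3.symm⟩
    · rintro ⟨g, ⟨a1, a2⟩, a3⟩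
      exact ⟨g, a1, a2, a3.symm⟩
  have h4 : ((p ^ n : ℕ) : ℝ≥0∞) * μ E ≤ μ D := by
    refine ume_count μ hEc.measurableSet (p ^ n) (fun s => iP p q (v s)) (fun s g hg => ?_)
      fun s hs s' hs' g hg g' hg' h => ?_
    · exact ⟨(v s, g), ⟨hv _ (IsUltrametricDist.norm_natCast_le_one _ _), hg.1⟩, rfl⟩
    · rcases Nat.eq_zero_or_pos n with rfl | hn
      · rw [pow_zero] at hs hs'
        omega
      have h5 : v s * g.1.2 = v s' * g'.1.2 := congrArg (fun z : G3 p q => z.1.2) h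
      have h6 : g.1.2 j j = g'.1.2 j j := by rw [← h2 s, h5, h2]
      have h7 : g.1.2 i j + s * g.1.2 j j = g'.1.2 i j + s' * g.1.2 j j := by
        rw [← h1 s, h5, h1, h6]
      have h8 : ‖g.1.2 j j‖ = 1 := h3 _ (hK g hg.1)
        (lt_of_le_of_lt hg.2 (zpow_lt_one_of_neg₀ hp1 (by omega)))
      have h9 : (((s : ℤ) - s' : ℤ) : ℚ_[p]) * g.1.2 j j = g'.1.2 i j + -g.1.2 i j := by
        push_cast
        linear_combination h7
      have h10 : ‖(((s : ℤ) - s' : ℤ) : ℚ_[p])‖ ≤ (p : ℝ) ^ (-(n : ℤ)) := by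
        rw [← mul_one ‖_‖, ← h8, ← norm_mul, h9]
        refine (Padic.nonarchimedean _ _).trans (max_le hg'.2 ?_)
        rw [norm_neg]
        exact hg.2
      have h11 := (Padic.norm_int_le_pow_iff_dvd _ n).1 h10
      have h12 : s' ≡ s [MOD p ^ n] := (Nat.modEq_iff_dvd).2 (by exact_mod_cast h11)
      exact (h12.eq_of_lt_of_lt hs' hs).symm
  have h13 : ENNReal.ofReal ((p : ℝ) ^ (-(n : ℤ))) * ((p ^ n : ℕ) : ℝ≥0∞) = 1 := by
    rw [← ENNReal.ofReal_natCast, ← ENNReal.ofReal_mul (by positivity), ENNReal.ofReal_eq_one,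
      zpow_neg, zpow_natCast]
    push_cast
    exact inv_mul_cancel₀ (by positivity)
  rw [e, ENNReal.ofReal_mul ENNReal.toReal_nonneg, ENNReal.ofReal_toReal hfin, mul_assoc]
  refine (hle E hEc y).trans (mul_le_mul_right ?_ _)
  rw [← one_mul (μ E), ← h13, mul_assoc, mul_comm (μ D)]
  exact mul_le_mul_right h4 _

theorem m3_up (hpq : p ≠ q) {𝒪 : Set (G3 p q)} (h𝒪 : IsCompact 𝒪) (hK : ∀ g ∈ 𝒪, g.1.2 ∈ Kp p) :
    ∃ C : ℝ, ∀ (n : ℕ) (y : X3 p q),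
      m3 p q {x | ∃ g ∈ 𝒪, ‖g.1.2 0 1‖ ≤ (p : ℝ) ^ (-(n : ℤ)) ∧ x = g • y} ≤
        ENNReal.ofReal (C * (p : ℝ) ^ (-(n : ℤ))) := by
  refine ume_thin hpq h𝒪 hK 0 1 uu (fun s hs => uu_mem_Kp p hs) (fun s g => ?_) (fun s g => ?_)
    fun g hg h => (ume_unit hg (Or.inl h)).2
  · simp [Matrix.mul_apply, Fin.sum_univ_two]
  · simp [Matrix.mul_apply, Fin.sum_univ_two]

theorem m3_low (hpq : p ≠ q) {𝒪 : Set (G3 p q)} (h𝒪 : IsCompact 𝒪) (hK : ∀ g ∈ 𝒪, g.1.2 ∈ Kp p) :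
    ∃ C : ℝ, ∀ (n : ℕ) (y : X3 p q),
      m3 p q {x | ∃ g ∈ 𝒪, ‖g.1.2 1 0‖ ≤ (p : ℝ) ^ (-(n : ℤ)) ∧ x = g • y} ≤
        ENNReal.ofReal (C * (p : ℝ) ^ (-(n : ℤ))) := by
  refine ume_thin hpq h𝒪 hK 1 0 ul (fun s hs => ul_mem_Kp p hs) (fun s g => ?_) (fun s g => ?_)
    fun g hg h => (ume_unit hg (Or.inr h)).1
  · simp [Matrix.mul_apply, Fin.sum_univ_two, add_comm]
  · simp [Matrix.mul_apply, Fin.sum_univ_two]

/-- The congruence subgroup of matrices that are diagonal modulo `p ^ n`. -/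
def KD (p : ℕ) [Fact p.Prime] (n : ℕ) : Set SL(2, ℚ_[p]) :=
  {g | g ∈ Kp p ∧ ‖g 0 1‖ ≤ (p : ℝ) ^ (-(n : ℤ)) ∧ ‖g 1 0‖ ≤ (p : ℝ) ^ (-(n : ℤ))}

theorem KD_inv_mul {n : ℕ} {a b : SL(2, ℚ_[p])} (ha : a ∈ KD p n) (hb : b ∈ KD p n) :
    a⁻¹ * b ∈ KD p n := by
  have key : ∀ x y z w : ℚ_[p], ‖x‖ ≤ 1 → ‖y‖ ≤ (p : ℝ) ^ (-(n : ℤ)) →
      ‖z‖ ≤ (p : ℝ) ^ (-(n : ℤ)) → ‖w‖ ≤ 1 → ‖x * y + -z * w‖ ≤ (p : ℝ) ^ (-(n : ℤ)) := by
    intro x y z w hx hy hz hw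
    refine (Padic.nonarchimedean _ _).trans (max_le ?_ ?_)
    · rw [norm_mul]
      exact (mul_le_of_le_one_left (norm_nonneg _) hx).trans hy
    · rw [norm_mul, norm_neg]
      exact (mul_le_of_le_one_right (norm_nonneg _) hw).trans hz
  refine ⟨(Kp p).mul_mem ((Kp p).inv_mem ha.1) hb.1, ?_, ?_⟩
  · have := key _ _ _ _ (ha.1 1 1) hb.2.1 ha.2.1 (hb.1 1 1)
    rw [Matrix.SpecialLinearGroup.SL2_inv_expl]
    simpa [Matrix.mul_apply, Fin.sum_univ_two] using this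
  · have := key _ _ _ _ (ha.1 0 0) hb.2.2 ha.2.2 (hb.1 0 0)
    rw [add_comm] at this
    rw [Matrix.SpecialLinearGroup.SL2_inv_expl]
    simpa [Matrix.mul_apply, Fin.sum_univ_two] using this

theorem KD_compact (n : ℕ) : IsCompact (KD p n) ∧ IsOpen (KD p n) := by
  have hc : ∀ i j, Continuous fun g : SL(2, ℚ_[p]) => g i j := fun i j =>
    continuous_subtype_val.matrix_elem i j
  have hp : (0 : ℝ) < (p : ℝ) ^ (-(n : ℤ)) :=
    zpow_pos (Nat.cast_pos.2 (Fact.out : p.Prime).pos) _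
  have ho : ∀ i j, IsOpen {g : SL(2, ℚ_[p]) | ‖g i j‖ ≤ (p : ℝ) ^ (-(n : ℤ))} := fun i j => by
    have := (IsUltrametricDist.isOpen_closedBall (0 : ℚ_[p]) hp.ne').preimage (hc i j)
    refine (Set.ext fun g => ?_ : _ = {g : SL(2, ℚ_[p]) | ‖g i j‖ ≤ (p : ℝ) ^ (-(n : ℤ))}) ▸ this
    exact mem_closedBall_zero_iff
  exact ⟨(Kp_compact p).inter_right ((isClosed_le (hc 0 1).norm continuous_const).inter
    (isClosed_le (hc 1 0).norm continuous_const)), (Kp_open p).inter ((ho 0 1).inter (ho 1 0))⟩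

theorem haar_KD (μ : Measure SL(2, ℚ_[p])) [μ.IsHaarMeasure] : ∃ c : ℝ, 0 < c ∧ ∀ n : ℕ,
    ENNReal.ofReal (c * (p : ℝ) ^ (-(2 * n : ℤ))) ≤ μ (KD p n) := by
  have := unimod μ
  have hp0 : (0 : ℝ) < p := Nat.cast_pos.2 (Fact.out : p.Prime).pos
  have hp1 : (1 : ℝ) < p := Nat.one_lt_cast.2 (Fact.out : p.Prime).one_lt
  have h1 : (1 : SL(2, ℚ_[p])) ∈ KD p 1 := ⟨(Kp p).one_mem, by simp, by simp⟩
  have hpos : μ (KD p 1) ≠ 0 := (KD_compact 1).2.measure_ne_zero μ ⟨1, h1⟩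
  have hfin : μ (KD p 1) ≠ ∞ := (KD_compact 1).1.measure_lt_top.ne
  refine ⟨(μ (KD p 1)).toReal, ENNReal.toReal_pos hpos hfin, fun n => ?_⟩
  have hsub : KD p 1 ⊆ ⋃ z ∈ Finset.range (p ^ n) ×ˢ Finset.range (p ^ n),
      (fun g => g * uu (-(z.2 : ℚ_[p]))) ⁻¹' ((fun g => ul (-(z.1 : ℚ_[p])) * g) ⁻¹' KD p n) := by
    intro g hg
    have hlt : ‖g 0 1‖ < 1 := hg.2.1.trans_lt (zpow_lt_one_of_neg₀ hp1 (by norm_num))
    have h00 := (ume_unit hg.1 (Or.inl hlt)).1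
    obtain ⟨s, hs, hs'⟩ := ume_appr n (hg.1 0 1) h00
    obtain ⟨t, ht, ht'⟩ := ume_appr n (hg.1 1 0) h00
    refine Set.mem_biUnion (x := (t, s))
      (Finset.mem_coe.2 (Finset.mem_product.2 ⟨Finset.mem_range.2 ht, Finset.mem_range.2 hs⟩)) ?_
    refine ⟨(Kp p).mul_mem (ul_mem_Kp p ?_) ((Kp p).mul_mem hg.1 (uu_mem_Kp p ?_)), ?_, ?_⟩
    · rw [norm_neg]
      exact IsUltrametricDist.norm_natCast_le_one _ _
    · rw [norm_neg]
      exact IsUltrametricDist.norm_natCast_le_one _ _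
    · have e : (ul (-(t : ℚ_[p])) * (g * uu (-(s : ℚ_[p])))) 0 1 = g 0 1 - s * g 0 0 := by
        simp [Matrix.mul_apply, Fin.sum_univ_two]
        ring
      exact e ▸ hs'
    · have e : (ul (-(t : ℚ_[p])) * (g * uu (-(s : ℚ_[p])))) 1 0 = g 1 0 - t * g 0 0 := by
        simp [Matrix.mul_apply, Fin.sum_univ_two]
        ring
      exact e ▸ ht'
  have h2 := (measure_mono (μ := μ) hsub).trans (measure_biUnion_finset_le _ _)
  simp only [measure_preimage_mul_right, measure_preimage_mul, Finset.sum_const,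
    Finset.card_product, Finset.card_range, nsmul_eq_mul] at h2
  have h3 : ENNReal.ofReal ((p : ℝ) ^ (-(2 * n : ℤ))) * ((p ^ n * p ^ n : ℕ) : ℝ≥0∞) = 1 := by
    rw [← ENNReal.ofReal_natCast, ← ENNReal.ofReal_mul (by positivity), ENNReal.ofReal_eq_one,
      zpow_neg]
    refine inv_mul_eq_one₀ (by positivity) |>.2 ?_
    rw [two_mul, zpow_add₀ hp0.ne', zpow_natCast]
    push_cast
    rfl
  rw [ENNReal.ofReal_mul ENNReal.toReal_nonneg, ENNReal.ofReal_toReal hfin, mul_comm]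
  refine (mul_le_mul_right h2 _).trans ?_
  rw [← mul_assoc, h3, one_mul]

end Pool.Agent.EQ
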