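import Pool.Agent.P.MP_ad7a55_nt.MainC
import Pool.Agent.P.MP_ad7a55_nt.TFc

/-! The induction step when a valuation is unbounded. -/

set_option autoImplicit false

noncomputable section

open MeasureTheory Topology Filter UpperHalfPlane
open scoped MatrixGroups ENNReal BoundedContinuousFunction

namespace Pool.Agent.EQ

theorem Low.of_sq {L : ℝ} {D D' : ℤ} (h : Low L D) (hD : D ≠ 0) (hs : IsSquare (D' * D)) :
    D' ≠ 0 → Low L D' := by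
  intro hD' E hE hs'
  refine h E hE ?_
  obtain ⟨a, ha⟩ := hs
  obtain ⟨b, hb⟩ := hs'
  have h1 : D' ^ 2 ∣ (a * b) ^ 2 := ⟨D * E, by linear_combination (-(b * b)) * ha - D' * D * hb⟩
  obtain ⟨s, hs⟩ := (Int.pow_dvd_pow_iff (by norm_num : 2 ≠ 0)).1 h1
  refine ⟨s, mul_left_cancel₀ (pow_ne_zero 2 hD') ?_⟩
  linear_combination (b * b) * ha + D' * D * hb + (a * b + D' * s) * hs

theorem umu_sq {ρ : ℚ} {D E : ℤ} (h : ρ ^ 2 * D = E) : IsSquare (D * E) := by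
  rw [← Rat.isSquare_intCast_iff]
  exact ⟨ρ * D, by push_cast; rw [← h]; ring⟩

theorem main_step3U {n : ℕ} (F : IntermediateField ℚ ℂ) [FiniteDimensional ℚ F]
    (τ : ℕ → Fin n → ℍ) (D : ℕ → Fin n → ℤ) (hD : ∀ i k, HasDisc (τ i k) (D i k))
    (hgen : NoIsog τ) (𝒰 : Ultrafilter ℕ) (h𝒰 : (𝒰 : Filter ℕ) ≤ atTop)
    (hinf : ∀ Y : ℝ, ∀ᶠ i in 𝒰, ∀ k, Y ≤ -(D i k : ℝ)) (p : ℕ) [Fact p.Prime]
    (I : Finset (Fin n)) (j : Fin n) (hj : j ∈ I)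
    (hmax : ∀ᶠ i in 𝒰, ∀ k ∈ I, IsSquare (D i k * D i j) →
      padicValInt p (D i k) ≤ padicValInt p (D i j))
    (hv : Tendsto (fun i => padicValInt p (D i j)) 𝒰 atTop) {L : ℝ}
    (hL : ∀ᶠ i in 𝒰, Low L (D i j)) (f : Fin n → (ℂ →ᵇ ℝ)) : ∃ J ⊆ I, j ∈ J ∧
      Tendsto (fun i => avg (orbit_finite F (hD i)).toFinset (fun z => ∏ k ∈ I, f k (z k)) -
        (∏ k ∈ J, ∫ z, f k z ∂mY) *
          avg (orbit_finite F (hD i)).toFinset (fun z => ∏ k ∈ I \ J, f k (z k))) 𝒰 (𝓝 0) := by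
  classical
  have hp : (1 : ℝ) < p := by exact_mod_cast (Fact.out : p.Prime).one_lt
  have hp0 : (0 : ℝ) < p := one_pos.trans hp
  have hbig : ∀ᶠ i in 𝒰, ∀ k, D i k < -576 := (hinf 577).mono fun i hi k => by
    have : (D i k : ℝ) < -576 := by linarith [hi k]
    exact_mod_cast this
  obtain ⟨c, hc⟩ := exists_frames p F n
  choose ρ N x e hF using fun i => hc (τ i) (D i) (hD i) j
  set O : ℕ → Finset (Fin n → ℂ) := fun i => (orbit_finite F (hD i)).toFinset with hO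
  have hmem : ∀ i z, z ∈ O i ↔ z ∈ galOrbit F fun k => jInv (τ i k) := fun i z =>
    (orbit_finite F (hD i)).mem_toFinset
  have hOne : ∀ i, (O i).Nonempty := fun i => ⟨_, (hmem i _).2 (orbit_self F _)⟩
  have hF' : ∀ᶠ i in 𝒰, Fr p (O i) (D i) j c (ρ i) (N i) (x i) (e i) := hbig.mono hF
  have hneg : ∀ i k, D i k < 0 := fun i k => (hD i k).isD.1
  set v : ℕ → ℕ := fun i => padicValInt p (D i j) with hvd
  set r : ℕ → ℤ := fun i => (v i : ℤ) / 2 - c with hr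
  have hDj : ∀ i, ‖(D i j : ℚ_[p])‖ = (p : ℝ) ^ (-(v i : ℤ)) := fun i =>
    norm_int_eq p (hneg i j).ne
  have hvt : Tendsto v 𝒰 atTop := hv
  have hrt : Tendsto r 𝒰 atTop := by
    refine tendsto_atTop.2 fun b => (tendsto_atTop.1 hvt (2 * (b + c).toNat)).mono fun i hi => ?_
    simp only [hr]
    omega
  have hr1 : ∀ i, ‖(D i j : ℚ_[p])‖ * ((p : ℝ) ^ r i) ^ 2 ≤ (p : ℝ) ^ (-(c : ℤ)) := fun i => by
    rw [hDj, ← zpow_natCast, ← zpow_mul, ← zpow_add₀ hp0.ne']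
    refine zpow_le_zpow_right₀ hp.le ?_
    simp only [hr]
    omega
  have hr2 : ∀ i, 1 ≤ (p : ℝ) ^ (2 * c + 1) * (‖(D i j : ℚ_[p])‖ * ((p : ℝ) ^ r i) ^ 2) :=
    fun i => by
      rw [hDj, ← zpow_natCast, ← zpow_natCast, ← zpow_mul, ← zpow_add₀ hp0.ne',
        ← zpow_add₀ hp0.ne']
      refine one_le_zpow₀ hp.le ?_
      simp only [hr]
      omega
  set J := I.filter fun k => ¬ Tendsto (fun i => N i k) 𝒰 (𝓝 0) with hJ
  have hJI : J ⊆ I := Finset.filter_subset _ _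
  have hjJ : j ∈ J := by
    refine Finset.mem_filter.2 ⟨hj, fun h => ?_⟩
    have h4 : ∀ᶠ i in 𝒰, ‖(D i j : ℚ_[p])‖ ≤ ‖(4 : ℚ_[p])‖ := by
      filter_upwards [tendsto_atTop.1 hvt (padicValInt p 4)] with i hi
      have := norm_int_eq p (D := 4) (by norm_num)
      push_cast at this
      rw [hDj, this]
      exact zpow_le_zpow_right₀ hp.le (by omega)
    have h5 : Tendsto (fun _ : ℕ => ‖(2 : ℚ_[p])‖) 𝒰 (𝓝 0) :=
      h.congr' (by filter_upwards [h4, hF'] with i h4 hF using hF.top h4)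
    have := tendsto_nhds_unique h5 tendsto_const_nhds
    exact absurd this.symm (by simp)
  refine ⟨J, hJI, hjJ, ?_⟩
  have hN0 : ∀ᶠ i in 𝒰, ∀ k, 0 ≤ N i k := hF'.mono fun i hi k => by
    obtain ⟨z, hz⟩ := hOne i
    rw [← hi.nrm z hz k]; exact norm_nonneg _
  have hN1 : ∀ᶠ i in 𝒰, ∀ k ∈ I, N i k ≤ 1 := by
    filter_upwards [hF', hmax] with i hi h2 k hk
    by_cases h0 : N i k = 0
    · rw [h0]; exact zero_le_one
    obtain ⟨z₀, hz₀⟩ := hOne i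
    have hsq := umu_sq (hi.fr z₀ hz₀ k h0).2.2
    have h3 := hi.le k
    have h4 : ‖(D i j : ℚ_[p])‖ ≤ ‖(D i k : ℚ_[p])‖ := by
      rw [hDj, norm_int_eq p (hneg i k).ne]
      exact zpow_le_zpow_right₀ hp.le (by have := h2 k hk hsq; simp only [hvd]; omega)
    have h5 : 0 < ‖(D i k : ℚ_[p])‖ := norm_pos_iff.2 (by exact_mod_cast (hneg i k).ne)
    have h6 : N i k ^ 2 ≤ 1 := by nlinarith
    exact (le_abs_self _).trans ((sq_le_one_iff_abs_le_one _).1 h6)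
  obtain ⟨c₁, hc₁⟩ : ∃ c₁ : ℕ, ∀ᶠ i in 𝒰, ∀ k ∈ J, 1 ≤ (p : ℝ) ^ c₁ * N i k := by
    have h1 : ∀ k, ∃ c₁ : ℕ, k ∈ J → ∀ᶠ i in 𝒰, 1 ≤ (p : ℝ) ^ c₁ * N i k := by
      intro k
      by_cases hk : k ∈ J
      swap
      · exact ⟨0, fun h => absurd h hk⟩
      by_contra h
      push Not at h
      refine (Finset.mem_filter.1 hk).2 (Metric.tendsto_nhds.2 fun ε hε => ?_)
      obtain ⟨m, hm⟩ := pow_unbounded_of_one_lt ε⁻¹ hp
      filter_upwards [(h m).2, hN0] with i h1 h2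
      rw [Real.dist_eq, sub_zero, abs_of_nonneg (h2 k)]
      by_contra h3
      refine not_le.2 h1 ?_
      calc (1 : ℝ) = ε⁻¹ * ε := (inv_mul_cancel₀ hε.ne').symm
        _ ≤ _ := mul_le_mul hm.le (not_lt.1 h3) hε.le (by positivity)
    choose c₁ hc₁ using h1
    refine ⟨Finset.univ.sup c₁, ?_⟩
    filter_upwards [(eventually_all_finset J).2 fun k hk => hc₁ k hk, hN0] with i h1 h2 k hk
    exact (h1 k hk).trans (mul_le_mul_of_nonneg_right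
      (pow_le_pow_right₀ hp.le (Finset.le_sup (Finset.mem_univ k))) (h2 k))
  set c₀ := 2 * c + 3 + 2 * c₁ with hc₀
  have h20 : 0 < ‖(2 : ℚ_[p])‖ := norm_pos_iff.2 two_ne_zero
  have key : ∀ᶠ i in 𝒰, ∀ k ∈ J, (0 < ρ i k ∧ ρ i k ^ 2 * D i k = D i j ∧
      (∀ l ∈ J, ‖(ρ i k : ℚ_[p])‖ ≤ (p : ℝ) ^ c₀ * ‖(ρ i l : ℚ_[p])‖) ∧
      ‖(D i k : ℚ_[p])‖ ≤ (p : ℝ) ^ c₀ * ‖(D i j : ℚ_[p])‖ ∧ Low L (D i k)) ∧
      ∀ z ∈ O i, Frame p (D i k) (x i z k) (e i z k) ∧ piX p (x i z k) ∈ Cl (D i k) ∧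
        ‖(D i k : ℚ_[p])‖ * (‖-e i z k * ρ i k‖ * (p : ℝ) ^ r i) ^ 2 ≤ 1 ∧
        1 ≤ (p : ℝ) ^ c₀ * (‖(D i k : ℚ_[p])‖ * (‖-e i z k * ρ i k‖ * (p : ℝ) ^ r i) ^ 2) := by
    filter_upwards [hF', hc₁, hN1, hN0, hL, hbig] with i hi h1 h2 h0 h3 hb k hk
    have hne : ∀ k ∈ J, N i k ≠ 0 := fun k hk h => by
      have := h1 k hk
      rw [h, mul_zero] at this
      linarith
    obtain ⟨z₀, hz₀⟩ := hOne i
    have hρN : ∀ k ∈ J, ‖(2 : ℚ_[p])‖ * ‖(ρ i k : ℚ_[p])‖ = N i k := fun k hk => by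
      obtain ⟨g, Θ, -, -, -, -, he⟩ := (hi.fr z₀ hz₀ k (hne k hk)).1
      rw [← hi.nrm z₀ hz₀ k, norm_mul, norm_neg, he]
    obtain ⟨-, h5, h6⟩ := hi.fr z₀ hz₀ k (hne k hk)
    have h7 : ‖(D i k : ℚ_[p])‖ * N i k ^ 2 = ‖(2 : ℚ_[p])‖ ^ 2 * ‖(D i j : ℚ_[p])‖ := by
      have : (ρ i k : ℚ_[p]) ^ 2 * D i k = D i j := by
        exact_mod_cast congrArg (fun q : ℚ => (q : ℚ_[p])) h6
      rw [← hρN k hk, ← this, norm_mul, norm_pow]; ring
    refine ⟨⟨h5, h6, fun l hl => ?_, ?_, h3.of_sq (hneg i j).ne (umu_sq h6) (hneg i k).ne⟩,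
      fun z hz => ⟨(hi.fr z hz k (hne k hk)).1, ?_, ?_, ?_⟩⟩
    · refine le_of_mul_le_mul_left ?_ h20
      rw [hρN k hk, mul_left_comm, hρN l hl]
      exact (h2 k (hJI hk)).trans ((h1 l hl).trans (mul_le_mul_of_nonneg_right
        (pow_le_pow_right₀ hp.le (by omega)) (h0 l)))
    · have h8 : 1 ≤ ((p : ℝ) ^ c₁ * N i k) ^ 2 := one_le_pow₀ (h1 k hk)
      calc ‖(D i k : ℚ_[p])‖ ≤ ‖(D i k : ℚ_[p])‖ * ((p : ℝ) ^ c₁ * N i k) ^ 2 :=
            le_mul_of_one_le_right (norm_nonneg _) h8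
        _ = (p : ℝ) ^ (2 * c₁) * (‖(D i k : ℚ_[p])‖ * N i k ^ 2) := by ring
        _ ≤ _ := mul_le_mul (pow_le_pow_right₀ hp.le (by omega)) (hi.le k)
            (by positivity) (by positivity)
    · obtain ⟨t, ht, hjt⟩ := orbit_lift (hD i) hb ((hmem i z).1 hz) k
      rw [hi.pi z hz k]
      exact ⟨_, discL_one ht, by rw [jL_one, hjt]⟩
    · rw [hi.nrm z hz k, mul_pow, ← mul_assoc]
      refine (mul_le_mul_of_nonneg_right (hi.le k) (by positivity)).trans ((hr1 i).trans ?_)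
      exact zpow_le_one_of_nonpos₀ hp.le (by omega)
    · rw [hi.nrm z hz k, mul_pow, ← mul_assoc ‖(D i k : ℚ_[p])‖, h7]
      have h8 : 1 ≤ ((p : ℝ) * ‖(2 : ℚ_[p])‖) ^ 2 := one_le_pow₀ (two_norm_ge p)
      calc (1 : ℝ) ≤ ((p : ℝ) * ‖(2 : ℚ_[p])‖) ^ 2 *
            ((p : ℝ) ^ (2 * c + 1) * (‖(D i j : ℚ_[p])‖ * ((p : ℝ) ^ r i) ^ 2)) :=
            one_le_mul_of_one_le_of_one_le h8 (hr2 i)
        _ = (p : ℝ) ^ (2 * c + 3) *
            (‖(2 : ℚ_[p])‖ ^ 2 * ‖(D i j : ℚ_[p])‖ * ((p : ℝ) ^ r i) ^ 2) := by ring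
        _ ≤ _ := mul_le_mul_of_nonneg_right (pow_le_pow_right₀ hp.le (by omega)) (by positivity)
  set Φ : ℕ → (Fin n → ℂ) → ℝ := fun i z =>
    ∫ s, ∏ k ∈ I, f k (piX p (uP p (-e i z k * ρ i k * s) • x i z k)) ∂bm p (r i) -
      (∏ k ∈ J, ∫ z, f k z ∂mY) *
        ∫ s, ∏ k ∈ I \ J, f k (piX p (uP p (-e i z k * ρ i k * s) • x i z k)) ∂bm p (r i) with hΦ
  have hΦB : ∀ i z, |Φ i z| ≤ ∏ k ∈ I, ‖f k‖ + |∏ k ∈ J, ∫ z, f k z ∂mY| * ∏ k ∈ I \ J, ‖f k‖ := by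
    intro i z
    refine (abs_sub _ _).trans (add_le_add (abs_integral_prod_le f I _ _) ?_)
    rw [abs_mul]
    exact mul_le_mul_of_nonneg_left (abs_integral_prod_le f _ _ _) (abs_nonneg _)
  set bad : (Fin n × ℕ) ⊕ (Fin n × Fin n × ℤ × ℕ) → ℕ → (Fin n → ℂ) → Prop := fun m i z =>
    m.elim (fun a => a.1 ∈ J ∧ Bad1 p a.2 (D i a.1) (z a.1)) fun a =>
      a.1 ∈ J ∧ a.2.1 ∈ J ∧ a.2.2.1 ≠ 0 ∧ a.1 ≠ a.2.1 ∧
        ∃ M₁ M₂, DiscL M₁ (D i a.1) ∧ DiscL M₂ (D i a.2.1) ∧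
        jL M₁ = z a.1 ∧ jL M₂ = z a.2.1 ∧ Bad2 p a.2.2.1 a.2.2.2 (D i a.1) (D i a.2.1) M₁ M₂
    with hbad
  have hcard : ∀ i, ((O i).card : ℝ) = (galOrbit F fun k => jInv (τ i k)).ncard := fun i => by
    rw [Set.ncard_eq_toFinset_card _ (orbit_finite F (hD i))]
  have hsm : ∀ b : ℕ, ∀ᶠ i in 𝒰, ∀ k ∈ J, ‖(D i k : ℚ_[p])‖ ≤ (p : ℝ) ^ (-(b : ℤ)) := fun b => by
    filter_upwards [key, tendsto_atTop.1 hvt (b + c₀)] with i h1 h2 k hk
    refine (h1 k hk).1.2.2.2.1.trans ?_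
    rw [hDj, ← zpow_natCast, ← zpow_add₀ hp0.ne']
    exact zpow_le_zpow_right₀ hp.le (by omega)
  have havg : Tendsto (fun i => avg (O i) (Φ i)) 𝒰 (𝓝 0) := by
    refine avg_tendsto_of_bad h𝒰 O hOne Φ hΦB bad ?_ ?_
    · rintro (⟨k, C⟩ | ⟨k, l, m, c'⟩) δ hδ
      · by_cases hk : k ∈ J
        swap
        · refine Eventually.of_forall fun i => ?_
          simp only [hbad, Sum.elim_inl, hk, false_and, and_false, Set.ofPred_false,
            Set.ncard_empty, Nat.cast_zero]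
          positivity
        obtain ⟨Y, hY⟩ := frac_bad1' p F C L hδ
        filter_upwards [key, hsm Y, hbig] with i h1 h2 h3
        simp only [hbad, Sum.elim_inl, hk, true_and, hmem, hcard]
        exact hY n (τ i) (D i) (hD i) k (h3 k) (h1 k hk).1.2.2.2.2 (h2 k hk)
      · by_cases hk : k ∈ J ∧ l ∈ J ∧ m ≠ 0 ∧ k ≠ l
        swap
        · refine Eventually.of_forall fun i => ?_
          have : {z | z ∈ O i ∧ bad (Sum.inr (k, l, m, c')) i z} = ∅ :=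
            Set.eq_empty_of_forall_notMem fun z hz => hk
              ⟨hz.2.1, hz.2.2.1, hz.2.2.2.1, hz.2.2.2.2.1⟩
          rw [this, Set.ncard_empty, Nat.cast_zero]
          positivity
        obtain ⟨hk, hl, hm, hkl⟩ := hk
        obtain ⟨Y, N₀, hN₀, hY⟩ := frac_bad3 p F hm ((p : ℝ) ^ c') L c₀ hδ
        filter_upwards [key, hsm (Y + c'), hbig, h𝒰 (hgen k l hkl N₀ hN₀)] with i h1 h2 h3 h4
        rw [hcard]
        refine le_trans (Nat.cast_le.2 (Set.ncard_le_ncard ?_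
          ((orbit_finite F (hD i)).subset fun z hz => hz.1)))
          (hY n (τ i) (D i) (hD i) k l _ _ (h3 k) (h3 l) (h1 k hk).1.1 (h1 l hl).1.1
            ((h1 k hk).1.2.1.trans (h1 l hl).1.2.1.symm) ((h1 k hk).1.2.2.1 l hl)
            ((h1 l hl).1.2.2.1 k hk) (h1 k hk).1.2.2.2.2 h4)
        rintro z ⟨hz, -, -, -, -, M₁, M₂, a1, a2, a3, a4, a5⟩
        exact ⟨(hmem i z).1 hz, M₁, M₂, a1, a2, a3, a4, a5.bad3 p (h2 l hl)⟩
    intro z hz hgood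
    set d : ℕ → Fin n → ℚ_[p] := fun i k => -e i (z i) k * ρ i k with hd
    have hdN : ∀ᶠ i in 𝒰, ∀ k, ‖d i k‖ = N i k := hF'.mono fun i hi k => hi.nrm _ (hz i) k
    have hlim : ∀ k, ∃ a : ℚ_[p], k ∈ I → Tendsto (fun i => d i k) 𝒰 (𝓝 a) := by
      intro k
      by_cases hk : k ∈ I
      · obtain ⟨a, -, ha⟩ := (isCompact_closedBall (0 : ℚ_[p]) 1).ultrafilter_le_nhds
          (𝒰.map fun i => d i k) (by
            rw [le_principal_iff]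
            change ∀ᶠ i in 𝒰, d i k ∈ Metric.closedBall (0 : ℚ_[p]) 1
            filter_upwards [hdN, hN1] with i h1 h2
            rw [mem_closedBall_zero_iff, h1 k]
            exact h2 k hk)
        exact ⟨a, fun _ => ha⟩
      · exact ⟨0, fun h => absurd h hk⟩
    choose a ha using hlim
    have haN : ∀ k ∈ I, Tendsto (fun i => N i k) 𝒰 (𝓝 ‖a k‖) := fun k hk =>
      (ha k hk).norm.congr' (hdN.mono fun i hi => hi k)
    have ha0 : ∀ k ∈ J, a k ≠ 0 := fun k hk h =>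
      (Finset.mem_filter.1 hk).2 (by simpa [h] using haN k (hJI hk))
    have ha1 : ∀ k ∈ I, k ∉ J → a k = 0 := fun k hk hk' => by
      have : Tendsto (fun i => N i k) 𝒰 (𝓝 0) := by
        by_contra h
        exact hk' (Finset.mem_filter.2 ⟨hk, h⟩)
      exact norm_eq_zero.1 (tendsto_nhds_unique (haN k hk) this)
    have hT : ∀ k ∈ J, Tt p 𝒰 (fun i => x i (z i) k) (fun i => d i k) r := by
      intro k hk ε hε
      obtain ⟨Ω, hΩ, h⟩ := tight_frame2 p hε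
      refine ⟨Ω, hΩ, fun m => ?_⟩
      obtain ⟨C, hC⟩ := h m c₀
      obtain ⟨b, hb⟩ := pow_unbounded_of_one_lt (C : ℝ) hp
      filter_upwards [key, hgood (Sum.inl (k, C)), hF', hc₁, hdN,
        tendsto_atTop.1 hrt ((b + c₁ : ℕ) : ℤ), hN0] with i h1 h2 h3 h4 h5 h6 h7
      obtain ⟨-, h8⟩ := h1 k hk
      obtain ⟨h9, h10, h11, h12⟩ := h8 _ (hz i)
      refine hC _ _ _ _ _ h9 h10 h11 h12 ?_ ?_
      · rw [h5 k]
        calc (C : ℝ) ≤ (p : ℝ) ^ b * ((p : ℝ) ^ c₁ * N i k) :=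
              hb.le.trans (le_mul_of_one_le_right (by positivity) (h4 k hk))
          _ = N i k * (p : ℝ) ^ ((b + c₁ : ℕ) : ℤ) := by rw [zpow_natCast]; ring
          _ ≤ _ := mul_le_mul_of_nonneg_left (zpow_le_zpow_right₀ hp.le h6) (h7 k)
      · rw [h3.pi _ (hz i)]
        exact fun h => h2 ⟨hk, h⟩
    have hE : ∀ k ∈ J, ∀ l ∈ J, k ≠ l → NoExc p 𝒰 (fun i => x i (z i) k) (fun i => x i (z i) l)
        (fun i => d i k) (fun i => d i l) r := by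
      intro k hk l hl hkl q hq δ hδ R
      obtain ⟨M, m, c', hM, hm, h⟩ := exc_frame2 p hq hδ R c₀
      filter_upwards [key, hgood (Sum.inr (k, l, m, c')), h𝒰 (hgen k l hkl M hM), hF']
        with i h1 h2 h3 h4
      intro P hP hP1
      by_contra h5
      push Not at h5
      obtain ⟨a1, a2⟩ := h1 k hk
      obtain ⟨b1, b2⟩ := h1 l hl
      obtain ⟨a3, a4, a5, a6⟩ := a2 _ (hz i)
      obtain ⟨b3, b4, b5, b6⟩ := b2 _ (hz i)
      have h6 := h _ _ _ _ _ _ _ _ _ a3 b3 a4 b4 a1.1 b1.1 (a1.2.1.trans b1.2.1.symm) a5 b5 a6 b6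
        (a1.2.2.1 l hl) (b1.2.2.1 k hk) P hP hP1 h5
      rw [h4.pi _ (hz i), h4.pi _ (hz i)] at h6
      rcases h6 with h6 | h6
      · obtain ⟨σ, -, hσ⟩ := (hmem i _).1 (hz i)
        rw [hσ] at h6
        exact h3 σ h6
      · exact h2 ⟨hk, hl, hm, hkl, h6⟩
    exact step p 𝒰 h𝒰 (fun i => x i (z i)) d a I J hJI ha0 ha1 ha r hrt hT hE f
  refine havg.congr' ?_
  filter_upwards [hF'] with i hi
  have h1 := hi.sum (r i) (hr1 i) _ (prod_bdd f I).1 (prod_bdd f I).2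
  have h2 := hi.sum (r i) (hr1 i) _ (prod_bdd f (I \ J)).1 (prod_bdd f (I \ J)).2
  simp only [avg, hΦ]
  rw [← h1, ← h2, Finset.sum_sub_distrib, ← Finset.mul_sum]
  ring

end Pool.Agent.EQ
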