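import Pool.Agent.P.MP_ad7a55_nt.USt

/-! Averages over pieces of orbits, with finitely many types. -/

set_option autoImplicit false

noncomputable section

open MeasureTheory Topology Filter UpperHalfPlane
open scoped MatrixGroups ENNReal BoundedContinuousFunction

namespace Pool.Agent.EQ

variable {p q : ℕ} [Fact p.Prime] [Fact q.Prime] {κ : Type} [Fintype κ]

theorem integral_mP_prod (h : κ → SL(2, ℚ_[p])) (f : κ → (ℂ →ᵇ ℝ)) :
    ∫ x, ∏ k, f k (piX p (((1, h k) : GG p) • x k)) ∂mP p κ = ∏ k, ∫ z, f k z ∂mY := by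
  rw [mP, integral_fintype_prod_eq_prod
    (fun k (x : XX p) => f k (piX p (((1, h k) : GG p) • x)))]
  refine Finset.prod_congr rfl fun k _ => ?_
  have h1 : ∫ x, f k (piX p (((1, h k) : GG p) • x)) ∂mX p = ∫ x, f k (piX p x) ∂mX p := by
    conv_rhs => rw [← mX_inv p ((1, h k) : GG p)]
    exact (integral_map (f := fun x => f k (piX p x)) (measurable_const_smul _).aemeasurable
      ((f k).continuous.comp (continuous_piX p)).aestronglyMeasurable).symm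
  rw [h1, ← map_piX p, integral_map (continuous_piX p).measurable.aemeasurable
    (f k).continuous.aestronglyMeasurable]

/-- The test function of a type. -/
def ust2_Phi (h : κ → SL(2, ℚ_[p])) (f : κ → (ℂ →ᵇ ℝ)) : (κ → XX p) →ᵇ ℝ :=
  ∏ k, (f k).compContinuous ⟨fun x => piX p (((1, h k) : GG p) • x k),
    (continuous_piX p).comp ((continuous_const_smul _).comp (continuous_apply k))⟩

theorem ust2_Phi_apply (h : κ → SL(2, ℚ_[p])) (f : κ → (ℂ →ᵇ ℝ)) (x : κ → XX p) :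
    ust2_Phi h f x = ∏ k, f k (piX p (((1, h k) : GG p) • x k)) := by
  simp [ust2_Phi]

theorem ust2_Phi_piP (h : κ → SL(2, ℚ_[p])) (f : κ → (ℂ →ᵇ ℝ)) (y : κ → X3 p q) :
    ust2_Phi h f (piP p q y) = ∏ k, f k (j3 p q (iP p q (h k) • y k)) := by
  rw [ust2_Phi_apply]
  refine Finset.prod_congr rfl fun k _ => ?_
  rw [j3, pi3_smul p q (g := iP p q (h k)) (Kp q).one_mem]
  rfl

theorem ust2_avg_sum {α τ : Type} (O : Finset α) (S : Finset τ) (c : ℝ) (G H : τ → α → ℝ) :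
    ∑ t ∈ S, c * (avg O (G t) - avg O (H t)) = avg O fun z => ∑ t ∈ S, c * (G t z - H t z) := by
  simp only [avg]
  rw [Finset.sum_comm, Finset.sum_div]
  refine Finset.sum_congr rfl fun t _ => ?_
  rw [← Finset.mul_sum, Finset.sum_sub_distrib]
  ring

theorem ust2_type (hpq : p ≠ q) {M : ℕ} (hM : 0 < M) (𝒰 : Ultrafilter ℕ)
    (h𝒰 : (𝒰 : Filter ℕ) ≤ atTop) {ζ : Type} (O : ℕ → Finset ζ) (x : ℕ → ζ → κ → X3 p q)
    (hp : ℕ → ζ → κ → SL(2, ℚ_[p])) (hq : ℕ → ζ → κ → SL(2, ℚ_[q]))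
    (hc : Cnt p q 𝒰 O fun i z => yy p q M (hq i z) (x i z)) (f : κ → (ℂ →ᵇ ℝ))
    (t : (κ → SL(2, ℚ_[p])) × (κ → SL(2, ℚ_[q]))) (w : ℕ → ζ → ℝ)
    (hw : ∀ i z, 0 ≤ w i z ∧ w i z ≤ 1) (ht : ∀ i z, w i z ≠ 0 → (hp i z, hq i z) = t) :
    Tendsto (fun i => avg (O i) fun z => w i z *
      (avg (sqr i) (fun u => ∏ k,
        f k (j3 p q (iP p q (hp i z k) • yy p q M (hq i z) (x i z) u k))) -
        ∏ k, ∫ z, f k z ∂mY)) 𝒰 (𝓝 0) := by
  have h1 := st3 hpq hM t.2 𝒰 h𝒰 O x _ hc w hw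
    (fun i z hz => by rw [← ht i z hz]) (ust2_Phi t.1 f)
  refine h1.congr fun i => ?_
  refine congrArg (avg (O i)) (funext fun z => ?_)
  by_cases hz : w i z = 0
  · rw [hz, zero_mul, zero_mul]
  · rw [← ht i z hz]
    simp only [ust2_Phi_piP]
    rw [← integral_mP_prod (hp i z) f]
    simp only [ust2_Phi_apply]

theorem st3' (hpq : p ≠ q) {M : ℕ} (hM : 0 < M) (𝒰 : Ultrafilter ℕ)
    (h𝒰 : (𝒰 : Filter ℕ) ≤ atTop) {ζ : Type} (O : ℕ → Finset ζ) (x : ℕ → ζ → κ → X3 p q)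
    (T : Finset SL(2, ℚ_[p])) (T' : Finset SL(2, ℚ_[q])) (hp : ℕ → ζ → κ → SL(2, ℚ_[p]))
    (hq : ℕ → ζ → κ → SL(2, ℚ_[q])) (hT : ∀ᶠ i in 𝒰, ∀ z ∈ O i, ∀ k, hp i z k ∈ T ∧ hq i z k ∈ T')
    (hc : Cnt p q 𝒰 O fun i z => yy p q M (hq i z) (x i z)) (ψ : ℕ → ζ → ℝ) {B : ℝ}
    (hψ : ∀ i z, |ψ i z| ≤ B) (f : κ → (ℂ →ᵇ ℝ)) :
    Tendsto (fun i => avg (O i) fun z => ψ i z *
      (avg (sqr i) (fun u => ∏ k,
        f k (j3 p q (iP p q (hp i z k) • yy p q M (hq i z) (x i z) u k))) -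
        ∏ k, ∫ z, f k z ∂mY)) 𝒰 (𝓝 0) := by
  classical
  have hB : 0 < |B| + 1 := by positivity
  have hle : ∀ i z, |ψ i z| ≤ |B| + 1 := fun i z =>
    (hψ i z).trans ((le_abs_self B).trans (by linarith))
  let S := Fintype.piFinset (fun _ : κ => T) ×ˢ Fintype.piFinset (fun _ : κ => T')
  let W : (ℕ → ζ → ℝ) → ((κ → SL(2, ℚ_[p])) × (κ → SL(2, ℚ_[q]))) → ℕ → ζ → ℝ :=
    fun φ t i z => if (hp i z, hq i z) = t then max (φ i z) 0 / (|B| + 1) else 0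
  have hW : ∀ φ : ℕ → ζ → ℝ, (∀ i z, φ i z ≤ |B| + 1) → ∀ t i z,
      0 ≤ W φ t i z ∧ W φ t i z ≤ 1 := fun φ hφ t i z => by
    simp only [W]
    split_ifs
    · exact ⟨div_nonneg (le_max_right _ _) hB.le,
        (div_le_one hB).2 (max_le (hφ i z) hB.le)⟩
    · exact ⟨le_rfl, zero_le_one⟩
  have hW' : ∀ φ t i z, W φ t i z ≠ 0 → (hp i z, hq i z) = t := fun φ t i z hz => by
    by_contra hn
    exact hz (if_neg hn)
  have h1 := tendsto_finsetSum S fun t _ =>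
    ((ust2_type hpq hM 𝒰 h𝒰 O x hp hq hc f t (W ψ t)
      (hW ψ (fun i z => (le_abs_self _).trans (hle i z)) t) (hW' ψ t)).sub
    (ust2_type hpq hM 𝒰 h𝒰 O x hp hq hc f t (W (fun i z => -ψ i z) t)
      (hW _ (fun i z => (neg_le_abs _).trans (hle i z)) t) (hW' _ t))).const_mul (|B| + 1)
  simp only [sub_zero, mul_zero, Finset.sum_const_zero] at h1
  refine h1.congr' (hT.mono fun i hi => ?_)
  beta_reduce
  rw [ust2_avg_sum]
  simp only [avg]
  congr 1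
  refine Finset.sum_congr rfl fun z hz => ?_
  have hm : (hp i z, hq i z) ∈ S := Finset.mem_product.2
    ⟨Fintype.mem_piFinset.2 fun k => (hi z hz k).1, Fintype.mem_piFinset.2 fun k => (hi z hz k).2⟩
  rw [Finset.sum_eq_single_of_mem _ hm fun t _ hn => by
    simp only [W, if_neg (Ne.symm hn), zero_mul, sub_zero, mul_zero]]
  simp only [W, if_true]
  rw [← sub_mul, ← mul_assoc, ← sub_div, mul_div_cancel₀ _ hB.ne', max_zero_sub_max_neg_zero_eq_self]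

end Pool.Agent.EQ
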