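import Pool.Agent.P.MP_ad7a55_nt.UMc
import Pool.Agent.P.MP_ad7a55_nt.USt2
import Pool.Agent.P.MP_ad7a55_nt.UMu

/-! The induction step when the valuations are bounded. -/

set_option autoImplicit false

noncomputable section

open MeasureTheory Topology Filter UpperHalfPlane
open scoped MatrixGroups ENNReal BoundedContinuousFunction

namespace Pool.Agent.EQ

theorem ums_sq {a b c : ℤ} (hb : b ≠ 0) (h : IsSquare (a * b)) (h' : IsSquare (b * c)) :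
    IsSquare (a * c) := by
  obtain ⟨x, hx⟩ := h
  obtain ⟨y, hy⟩ := h'
  have h1 : b ^ 2 ∣ (x * y) ^ 2 := ⟨a * c, by linear_combination -(y * y) * hx - (a * b) * hy⟩
  obtain ⟨z, hz⟩ := (Int.pow_dvd_pow_iff two_ne_zero).1 h1
  refine ⟨z, mul_left_cancel₀ (pow_ne_zero 2 hb) ?_⟩
  linear_combination (y * y) * hx + (a * b) * hy + (x * y + b * z) * hz

theorem main_step3D {n : ℕ} (F : IntermediateField ℚ ℂ) [FiniteDimensional ℚ F]
    (τ : ℕ → Fin n → ℍ) (D : ℕ → Fin n → ℤ) (hD : ∀ i k, HasDisc (τ i k) (D i k))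
    (hgen : NoIsog τ) (𝒰 : Ultrafilter ℕ) (h𝒰 : (𝒰 : Filter ℕ) ≤ atTop)
    (hinf : ∀ Y : ℝ, ∀ᶠ i in 𝒰, ∀ k, Y ≤ -(D i k : ℝ)) (p q : ℕ) [Fact p.Prime] [Fact q.Prime]
    (hpq : p ≠ q) (h2 : p ≠ 2) (h2' : q ≠ 2) (I : Finset (Fin n)) (j : Fin n) (hj : j ∈ I) {c : ℕ}
    (hc : ∀ᶠ i in 𝒰, ∀ k ∈ I, IsSquare (D i k * D i j) →
      (∃ κ ≤ c, Spl p κ (D i k)) ∧ ∃ κ ≤ c, Spl q κ (D i k)) {L : ℝ}
    (hL : ∀ᶠ i in 𝒰, Low L (D i j)) (f : Fin n → (ℂ →ᵇ ℝ)) : ∃ J ⊆ I, j ∈ J ∧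
      Tendsto (fun i => avg (orbit_finite F (hD i)).toFinset (fun z => ∏ k ∈ I, f k (z k)) -
        (∏ k ∈ J, ∫ z, f k z ∂mY) *
          avg (orbit_finite F (hD i)).toFinset (fun z => ∏ k ∈ I \ J, f k (z k))) 𝒰 (𝓝 0) := by
  classical
  have hneg : ∀ i k, D i k < 0 := fun i k => (hD i k).isD.1
  have hbig : ∀ᶠ i in 𝒰, ∀ k, D i k < -576 := (hinf 577).mono fun i hi k => by
    have : (D i k : ℝ) < -576 := by linarith [hi k]
    exact_mod_cast this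
  set J := I.filter fun k => ∀ᶠ i in 𝒰, IsSquare (D i k * D i j) with hJ
  have hJI : J ⊆ I := Finset.filter_subset _ _
  have hjJ : j ∈ J := Finset.mem_filter.2 ⟨hj, Eventually.of_forall fun i => ⟨_, rfl⟩⟩
  have h1 : ∀ᶠ i in 𝒰, ∀ k ∈ J, IsSquare (D i k * D i j) :=
    (eventually_all_finset J).2 fun k hk => (Finset.mem_filter.1 hk).2
  have h3 : ∀ᶠ i in 𝒰, ∀ k ∈ I \ J, ¬ IsSquare (D i k * D i j) :=
    (eventually_all_finset _).2 fun k hk => Ultrafilter.eventually_not.2 fun h =>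
      (Finset.mem_sdiff.1 hk).2 (Finset.mem_filter.2 ⟨(Finset.mem_sdiff.1 hk).1, h⟩)
  obtain ⟨M, T, T', hM, hT, h4⟩ := exists_fd p q hpq h2 h2' F n c
  choose ρ rp rq x hp hq σ h5 using fun i => h4 (τ i) (D i) j J (hD i) hjJ
  have h6 : ∀ᶠ i in 𝒰, FD p q F (fun k => jInv (τ i k)) (D i) j J M T T' (ρ i) (rp i) (rq i) (x i)
      (hp i) (hq i) (σ i) := by
    filter_upwards [hbig, h1, hc] with i a1 a2 a3
    exact h5 i a1 fun k hk => ⟨a2 k hk, a3 k (hJI hk) (a2 k hk)⟩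
  have h7 := cnt_fd hpq h2 F τ D hD hgen 𝒰 h𝒰 hinf j J (L := L) hT (by
    filter_upwards [h1, hc, hL] with i a2 a3 a4 k hk
    exact ⟨a4.of_sq (hneg i j).ne (a2 k hk) (hneg i k).ne, (a3 k (hJI hk) (a2 k hk)).1⟩) h6
  obtain ⟨B, hB⟩ := (prod_bdd f (I \ J)).2
  have h8 := st3' hpq hM 𝒰 h𝒰 (fun i => (orbit_finite F (hD i)).toFinset) x T T' hp hq (by
    filter_upwards [h6] with i a z hz k
    exact a.mem z ((orbit_finite F (hD i)).mem_toFinset.1 hz) k) h7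
    (fun _ z => ∏ k ∈ I \ J, f k (z k)) (fun _ z => hB z) fun k : J => f k
  refine ⟨J, hJI, hjJ, h8.congr' ?_⟩
  filter_upwards [h6, h3] with i a b
  have hs : ((sqr i).card : ℝ) ≠ 0 := by
    have : (sqr i).Nonempty := ⟨(0, 0), by simp [sqr]⟩
    exact_mod_cast this.card_pos.ne'
  have e1 : ∀ z ∈ (orbit_finite F (hD i)).toFinset, ∀ u, (∏ k ∈ I \ J, f k (z k)) *
      ∏ k : J, f k (j3 p q (iP p q (hp i z k) • yy p q M (hq i z) (x i z) u k)) =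
        ∏ k ∈ I, f k (σ i u (z k)) := by
    intro z hz u
    have hz' := (orbit_finite F (hD i)).mem_toFinset.1 hz
    rw [← Finset.prod_sdiff hJI, ← Finset.prod_coe_sort J]
    congr 1
    · exact Finset.prod_congr rfl fun k hk => by rw [a.out z hz' u k (b k hk)]
    · exact Finset.prod_congr rfl fun k _ => by rw [a.pi z hz' u k]
  have e2 : ∑ z ∈ (orbit_finite F (hD i)).toFinset, (∏ k ∈ I \ J, f k (z k)) *
      avg (sqr i) (fun u => ∏ k : J,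
        f k (j3 p q (iP p q (hp i z k) • yy p q M (hq i z) (x i z) u k))) =
      ∑ z ∈ (orbit_finite F (hD i)).toFinset, ∏ k ∈ I, f k (z k) := by
    have e3 : ∀ z ∈ (orbit_finite F (hD i)).toFinset, (∏ k ∈ I \ J, f k (z k)) *
        avg (sqr i) (fun u => ∏ k : J,
          f k (j3 p q (iP p q (hp i z k) • yy p q M (hq i z) (x i z) u k))) =
        (∑ u ∈ sqr i, ∏ k ∈ I, f k (σ i u (z k))) / (sqr i).card := by
      intro z hz
      rw [avg, ← mul_div_assoc, Finset.mul_sum, Finset.sum_congr rfl fun u _ => e1 z hz u]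
    rw [Finset.sum_congr rfl e3, ← Finset.sum_div, Finset.sum_comm,
      Finset.sum_congr rfl fun u _ => sum_orbit (orbit_finite F (hD i)) (a.fix u)
        fun z => ∏ k ∈ I, f k (z k), Finset.sum_const, nsmul_eq_mul, mul_div_cancel_left₀ _ hs]
  rw [Finset.prod_coe_sort J fun k => ∫ z, f k z ∂mY]
  simp only [mul_sub]
  rw [avg, Finset.sum_sub_distrib, e2, ← Finset.sum_mul, avg, avg]
  ring

theorem main_step3 {n : ℕ} (F : IntermediateField ℚ ℂ) [FiniteDimensional ℚ F]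
    (τ : ℕ → Fin n → ℍ) (D : ℕ → Fin n → ℤ) (hD : ∀ i k, HasDisc (τ i k) (D i k))
    (hgen : NoIsog τ) (𝒰 : Ultrafilter ℕ) (h𝒰 : (𝒰 : Filter ℕ) ≤ atTop)
    (hinf : ∀ Y : ℝ, ∀ᶠ i in 𝒰, ∀ k, Y ≤ -(D i k : ℝ)) (p q : ℕ) [Fact p.Prime] [Fact q.Prime]
    (hpq : p ≠ q) (h2 : p ≠ 2) (h2' : q ≠ 2) (I : Finset (Fin n)) (j₀ : Fin n) (hj : j₀ ∈ I)
    (hc : ∀ᶠ i in 𝒰, (∃ κ, Spl p κ (D i j₀)) ∧ ∃ κ, Spl q κ (D i j₀)) {L : ℝ}
    (hL : ∀ᶠ i in 𝒰, Low L (D i j₀)) (f : Fin n → (ℂ →ᵇ ℝ)) : ∃ J ⊆ I, J.Nonempty ∧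
      Tendsto (fun i => avg (orbit_finite F (hD i)).toFinset (fun z => ∏ k ∈ I, f k (z k)) -
        (∏ k ∈ J, ∫ z, f k z ∂mY) *
          avg (orbit_finite F (hD i)).toFinset (fun z => ∏ k ∈ I \ J, f k (z k))) 𝒰 (𝓝 0) := by
  classical
  have hneg : ∀ i k, D i k < 0 := fun i k => (hD i k).isD.1
  set I' := I.filter fun k => ∀ᶠ i in 𝒰, IsSquare (D i k * D i j₀) with hI'
  have hI : I' ⊆ I := Finset.filter_subset _ _
  have hj' : j₀ ∈ I' := Finset.mem_filter.2 ⟨hj, Eventually.of_forall fun i => ⟨_, rfl⟩⟩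
  have h1 : ∀ᶠ i in 𝒰, ∀ k ∈ I', IsSquare (D i k * D i j₀) :=
    (eventually_all_finset I').2 fun k hk => (Finset.mem_filter.1 hk).2
  have h3 : ∀ᶠ i in 𝒰, ∀ k ∈ I, IsSquare (D i k * D i j₀) → k ∈ I' := by
    refine (eventually_all_finset _).2 fun k hk => ?_
    by_cases h : ∀ᶠ i in 𝒰, IsSquare (D i k * D i j₀)
    · exact Eventually.of_forall fun _ _ => Finset.mem_filter.2 ⟨hk, h⟩
    · exact (Ultrafilter.eventually_not.2 h).mono fun i a b => absurd b a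
  have key : ∀ (l : ℕ) [Fact l.Prime], (∃ J ⊆ I, J.Nonempty ∧
      Tendsto (fun i => avg (orbit_finite F (hD i)).toFinset (fun z => ∏ k ∈ I, f k (z k)) -
        (∏ k ∈ J, ∫ z, f k z ∂mY) *
          avg (orbit_finite F (hD i)).toFinset (fun z => ∏ k ∈ I \ J, f k (z k))) 𝒰 (𝓝 0)) ∨
      ∃ c : ℕ, ∀ᶠ i in 𝒰, ∀ k ∈ I', padicValInt l (D i k) ≤ c := by
    intro l _
    obtain ⟨j, hjI, h4⟩ := ultra_max 𝒰 ⟨j₀, hj'⟩ fun i k => padicValInt l (D i k)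
    by_cases h5 : Tendsto (fun i => padicValInt l (D i j)) 𝒰 atTop
    · obtain ⟨J, a1, a2, a3⟩ := main_step3U F τ D hD hgen 𝒰 h𝒰 hinf l I j (hI hjI) (by
        filter_upwards [h1, h3, h4] with i b1 b2 b3 k hk hs
        exact b3 k (b2 k hk (ums_sq (hneg i j).ne hs (b1 j hjI)))) h5 (L := L) (by
        filter_upwards [h1, hL] with i b1 b2
        exact b2.of_sq (hneg i j₀).ne (b1 j hjI) (hneg i j).ne) f
      exact Or.inl ⟨J, a1, ⟨j, a2⟩, a3⟩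
    · rw [tendsto_atTop] at h5
      push Not at h5
      obtain ⟨c, h5⟩ := h5
      refine Or.inr ⟨c, ?_⟩
      filter_upwards [h4, h5] with i b1 b2 k hk
      exact (b1 k hk).trans b2.le
  rcases key p with h | ⟨c, h4⟩
  · exact h
  rcases key q with h | ⟨c', h5⟩
  · exact h
  obtain ⟨J, a1, a2, a3⟩ := main_step3D F τ D hD hgen 𝒰 h𝒰 hinf p q hpq h2 h2' I j₀ hj
    (c := max c c') (by
    filter_upwards [h3, h4, h5, hc] with i b1 b2 b3 ⟨⟨κ, b4⟩, κ', b5⟩ k hk hs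
    obtain ⟨e, b6⟩ := Spl.of_sq p b4 (hneg i k).ne hs
    obtain ⟨e', b7⟩ := Spl.of_sq q b5 (hneg i k).ne hs
    have c1 := b2 k (b1 k hk hs)
    have c2 := b3 k (b1 k hk hs)
    rw [Spl.val p b6] at c1
    rw [Spl.val q b7] at c2
    exact ⟨⟨e, by omega, b6⟩, e', by omega, b7⟩) hL f
  exact ⟨J, a1, ⟨j₀, a2⟩, a3⟩

end Pool.Agent.EQ
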