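import Pool.Agent.P.MP_ad7a55_nt.UFr
import Pool.Agent.P.MP_ad7a55_nt.CM

/-! The diagonal elements act as Galois automorphisms. -/

set_option autoImplicit false

noncomputable section

open MeasureTheory Topology Filter UpperHalfPlane
open scoped MatrixGroups ENNReal BoundedContinuousFunction

namespace Pool.Agent.EQ

theorem exists_AB (p : ℕ) [Fact p.Prime] (h2 : p ≠ 2) {r : ℚ_[p]} (hr : r ≠ 0) (n : ℕ) :
    ∃ A B : ℚ, ‖(A : ℚ_[p]) + B * r - 1‖ ≤ (p : ℝ) ^ (-(n + 1 : ℤ)) ∧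
      ‖(A : ℚ_[p]) - B * r - p‖ ≤ (p : ℝ) ^ (-(n + 2 : ℤ)) := by
  have hp : (1 : ℝ) < p := by exact_mod_cast (Fact.out : p.Prime).one_lt
  have hr0 : 0 < ‖r‖ := norm_pos_iff.2 hr
  obtain ⟨B, hB⟩ := Padic.rat_dense (p := p) ((1 - p) / (2 * r))
    (ε := (p : ℝ) ^ (-(n + 2 : ℤ)) / ‖r‖) (by positivity)
  have h1 : ‖((1 - p) / (2 * r) - B) * r‖ ≤ (p : ℝ) ^ (-(n + 2 : ℤ)) := by
    rw [norm_mul]; exact ((lt_div_iff₀ hr0).1 hB).le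
  refine ⟨(1 + p) / 2, B, ?_, ?_⟩
  · have e : (((1 + p) / 2 : ℚ) : ℚ_[p]) + B * r - 1 = -(((1 - p) / (2 * r) - B) * r) := by
      push_cast; field_simp; ring
    rw [e, norm_neg]
    exact h1.trans (zpow_le_zpow_right₀ hp.le (by omega))
  · have e : (((1 + p) / 2 : ℚ) : ℚ_[p]) - B * r - p = ((1 - p) / (2 * r) - B) * r := by
      push_cast; field_simp; ring
    rw [e]
    exact h1

theorem inK_AB (p : ℕ) [Fact p.Prime] {D : ℤ} (hD : D < 0) {r : ℚ_[p]} {A B : ℚ} {n : ℕ}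
    (h : ‖(A : ℚ_[p]) + B * r - 1‖ ≤ (p : ℝ) ^ (-(n + 1 : ℤ))) : InK D (A + B * th D) := by
  refine ⟨fun h0 => ?_, A, B, rfl⟩
  have hp : (1 : ℝ) < p := by exact_mod_cast (Fact.out : p.Prime).one_lt
  have hs : 0 < Real.sqrt (-(D : ℝ)) := Real.sqrt_pos.2 (by
    have : (D : ℝ) < 0 := by exact_mod_cast hD
    linarith)
  have h1 := congrArg Complex.re h0
  have h2 := congrArg Complex.im h0
  simp [th, hs.ne'] at h1 h2
  rw [h1, h2] at h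
  simp only [Rat.cast_zero, zero_mul, add_zero, zero_sub, norm_neg, norm_one] at h
  exact absurd (zpow_lt_one_of_neg₀ hp (by omega)) (not_lt.2 h)

theorem cm_pow (F : IntermediateField ℚ ℂ) [FiniteDimensional ℚ F] (n : ℕ) : ∃ M : ℕ, 0 < M ∧
    ∀ (l : ℕ) [Fact l.Prime] (𝒟 : Finset ℤ), 𝒟.card ≤ n → (∀ D ∈ 𝒟, D < -576 ∧ IsD D) →
      ∀ D₀ ∈ 𝒟, ∀ t : ℂ, InK D₀ t → ∃ σ : ℂ ≃+* ℂ, (∀ a ∈ F, σ a = a) ∧
        ∀ D ∈ 𝒟, ∀ Λ, DiscL Λ D →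
          (IsSquare (D * D₀) → σ (jL Λ) = jL (star l (t ^ (2 * M)) Λ)) ∧
          (¬ IsSquare (D * D₀) → σ (jL Λ) = jL Λ) := by
  classical
  set d : ℕ := max 2 (Module.finrank ℚ F) with hd
  have hd2 : 2 ≤ d := le_max_left _ _
  have hdF : Module.finrank ℚ F ≤ d := le_max_right _ _
  have hM : 0 < d.factorial * 2 ^ n := Nat.mul_pos d.factorial_pos (by positivity)
  obtain ⟨M, hM2⟩ : 2 ∣ d.factorial * 2 ^ n := (Nat.dvd_factorial two_pos hd2).mul_right _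
  refine ⟨M, by omega, fun p _ 𝒟 hcard h𝒟 D₀ hD₀ t ht => ?_⟩
  rw [← hM2]
  have hneg : ∀ D ∈ 𝒟, D < 0 := fun D hD => (h𝒟 D hD).2.1
  have h0 : D₀ < 0 := hneg D₀ hD₀
  set f : ℕ := (∏ D ∈ 𝒟, D).natAbs with hf
  have hf0 : 0 < f := Int.natAbs_pos.2 (Finset.prod_ne_zero_iff.2 fun D hD => (hneg D hD).ne)
  have hdvd : ∀ D ∈ 𝒟, D ∣ (f : ℤ) := fun D hD =>
    Int.dvd_natAbs.2 (Finset.dvd_prod_of_mem (fun D : ℤ => D) hD)
  set T : Finset ℤ := 𝒟.filter fun D => ¬ IsSquare (D * D₀) with hT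
  have hTn : T.card ≤ n := (Finset.card_filter_le _ _).trans hcard
  have hDs : IsD (f ^ 2 * D₀) := cm_isD_sq (h𝒟 D₀ hD₀).2 hf0
  have hDs' : (f : ℤ) ^ 2 * D₀ < -576 := by
    have h1 : (1 : ℤ) ≤ (f : ℤ) ^ 2 := one_le_pow₀ (by exact_mod_cast hf0)
    have h2 := (h𝒟 D₀ hD₀).1
    nlinarith
  have ht' : InK (f ^ 2 * D₀) (t ^ 2 ^ (n - T.card)) := cm_inK_sq hf0 (cm_inK_pow h0 ht _)
  have htM : InK (f ^ 2 * D₀) (t ^ (d.factorial * 2 ^ n)) := cm_inK_sq hf0 (cm_inK_pow h0 ht _)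
  obtain ⟨σ, hσ, hact, hfix⟩ := realize hd2 hDs' T (fun D' hD' => by
    obtain ⟨h1, h2⟩ := Finset.mem_filter.1 hD'
    exact ⟨(h𝒟 D' h1).1, (h𝒟 D' h1).2, cm_not_sq hf0 h2⟩) (discL_star p (discL_OD hDs) ht')
  obtain ⟨k, hk⟩ : ∃ k, d.factorial * 2 ^ T.card = k + 1 :=
    Nat.exists_eq_succ_of_ne_zero (Nat.mul_pos d.factorial_pos (by positivity)).ne'
  have hexp : 2 ^ (n - T.card) * (k + 1) = d.factorial * 2 ^ n := by
    rw [← hk, mul_left_comm, ← pow_add, Nat.sub_add_cancel hTn]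
  rw [hk, star_pow p hDs ht', ← pow_mul, hexp] at hact
  refine ⟨σ, hσ.field F hdF, fun D hD Λ hΛ => ⟨fun hsq => ?_,
    fun hsq => hfix D (Finset.mem_filter.2 ⟨hD, hsq⟩) Λ hΛ⟩⟩
  obtain ⟨ρ, hρ0, hρ1, hρ⟩ := exists_ratio (hneg D hD) h0 hsq
  obtain ⟨g, hg0, hg⟩ := cm_ratio_nat hρ0 hρ1 hf0 (hdvd D hD)
  have e : (f : ℤ) ^ 2 * D₀ = (g : ℤ) ^ 2 * D := by
    have : ((f : ℚ)) ^ 2 * D₀ = (g : ℚ) ^ 2 * D := by rw [hg, ← hρ1]; ring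
    exact_mod_cast this
  have h𝔨 := discL_star p (discL_OD hDs) htM
  have hle : OD (f ^ 2 * D₀) ≤ OD D := by rw [e]; exact OD_sq_le (h𝒟 D hD).2 g
  have hup : Acts σ D (star p (t ^ (d.factorial * 2 ^ n)) (OD (f ^ 2 * D₀))) :=
    Acts.up (h𝒟 D hD).1 (h𝒟 D hD).2 (hσ.th hd2 (hneg D hD).le) hg0 (e ▸ h𝔨) (e ▸ hact)
  rw [hup Λ hΛ, star_OD_mul p hDs hΛ hle htM]

variable {p q : ℕ} [Fact p.Prime] [Fact q.Prime] {D : ℤ} {rp : ℚ_[p]} {rq : ℚ_[q]}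
  {hp : SL(2, ℚ_[p])} {hq : SL(2, ℚ_[q])} {x : X3 p q}

/-- a matrix applied to a rational vector -/
def umv_ap (G : SL(2, ℚ_[p])) (v : Fin 2 → ℚ) (i : Fin 2) : ℚ_[p] := G i 0 * v 0 + G i 1 * v 1

theorem umv_ap_smul (G : SL(2, ℚ_[p])) (c : ℚ) (v : Fin 2 → ℚ) (i : Fin 2) :
    umv_ap G (c • v) i = c * umv_ap G v i := by
  simp only [umv_ap, Pi.smul_apply, smul_eq_mul]; push_cast; ring

theorem umv_ap_mul (h k : SL(2, ℚ_[p])) (v : Fin 2 → ℚ) (i : Fin 2) :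
    umv_ap (h * k) v i = h i 0 * umv_ap k v 0 + h i 1 * umv_ap k v 1 := by
  simp only [umv_ap, Matrix.SpecialLinearGroup.coe_mul, Matrix.mul_apply, Fin.sum_univ_two]
  ring

theorem umv_ph_smul (g : SL(2, ℝ)) (c : ℚ) (v : Fin 2 → ℚ) :
    frame_ph g ((c • v) 0) ((c • v) 1) = c * frame_ph g (v 0) (v 1) :=
  (frame_ph_mul g c _ _).symm

theorem umv_ph_inj (g : SL(2, ℝ)) {v w : Fin 2 → ℚ}
    (h : frame_ph g (v 0) (v 1) = frame_ph g (w 0) (w 1)) : v = w := by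
  obtain ⟨h0, h1⟩ := frame_ph_inj g h
  funext i; fin_cases i
  · exact h0
  · exact h1

theorem umv_pow (f : Fin 2 → ℚ_[p]) : ∃ a : ℕ, ∀ i, ‖(p : ℚ_[p]) ^ a * f i‖ ≤ 1 := by
  have hp : (1 : ℝ) < p := by exact_mod_cast (Fact.out : p.Prime).one_lt
  obtain ⟨a, ha⟩ := pow_unbounded_of_one_lt ‖f‖ hp
  refine ⟨a, fun i => ?_⟩
  rw [norm_mul, norm_pow, Padic.norm_p, inv_pow, inv_mul_le_iff₀ (by positivity), mul_one]
  exact (norm_le_pi_norm f i).trans ha.le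

omit [Fact q.Prime] in
theorem umv_clear (x : ℚ) : ∃ m : ℤ, ¬ (p : ℤ) ∣ m ∧ InZp (p * q) (m * x) := by
  obtain ⟨a, m, hm, e⟩ := Nat.exists_eq_pow_mul_and_not_dvd x.den_nz p
    (Fact.out : p.Prime).ne_one
  refine ⟨m, by exact_mod_cast hm, a, q ^ a * x.num, ?_⟩
  have h1 : (x.den : ℚ) = p ^ a * m := by exact_mod_cast e
  push_cast
  rw [← Rat.mul_den_eq_num x, h1]; ring

omit [Fact q.Prime] in
theorem umv_inv (n : ℕ) : InZp (p * q) ((p : ℚ) ^ n)⁻¹ := by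
  have hp' : (p : ℚ) ≠ 0 := by exact_mod_cast (Fact.out : p.Prime).ne_zero
  refine ⟨n, q ^ n, ?_⟩
  push_cast
  rw [mul_pow]; field_simp

theorem umv_core (hpq : p ≠ q) {g : SL(2, ℝ)} {G G₁ : SL(2, ℚ_[p])} {G' : SL(2, ℚ_[q])}
    {Λ Λ' : Lt} {t : ℂ} {M : ℕ} {T : (Fin 2 → ℚ) → Fin 2 → ℚ}
    (hΛ : ∀ z, z ∈ Λ ↔ ∃ v : Fin 2 → ℚ, (∀ i, InZp (p * q) (v i)) ∧ (∀ i, ‖umv_ap G v i‖ ≤ 1) ∧
      (∀ i, ‖umv_ap G' v i‖ ≤ 1) ∧ z = frame_ph g (v 0) (v 1))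
    (hΛ' : ∀ z, z ∈ Λ' ↔ ∃ v : Fin 2 → ℚ, (∀ i, InZp (p * q) (v i)) ∧ (∀ i, ‖umv_ap G₁ v i‖ ≤ 1) ∧
      (∀ i, ‖umv_ap G' v i‖ ≤ 1) ∧ z = frame_ph g (v 0) (v 1))
    (hT : ∀ u, t * frame_ph g (u 0) (u 1) = frame_ph g (T u 0) (T u 1))
    (hs : Function.Surjective T)
    (hk : ∀ u, (∀ i, ‖umv_ap G u i‖ ≤ 1) ↔ ∀ i, ‖umv_ap G₁ (((p : ℚ) ^ M)⁻¹ • T u) i‖ ≤ 1) :
    pr ((p : ℂ) ^ M) * Λ' = star p t Λ := by
  have hp : p.Prime := Fact.out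
  have hq : q.Prime := Fact.out
  have hpr : Prime (p : ℤ) := Nat.prime_iff_prime_int.1 hp
  have hp' : (p : ℚ) ≠ 0 := by exact_mod_cast hp.ne_zero
  have hpc : (p : ℂ) ≠ 0 := by exact_mod_cast hp.ne_zero
  have hpq' : ‖(p : ℚ_[q])‖ = 1 :=
    Padic.norm_natCast_eq_one_iff.2 ((Nat.coprime_primes hq hp).2 hpq.symm)
  have hint : ∀ (m : ℤ) (y : ℚ_[p]), ‖y‖ ≤ 1 → ‖((m : ℚ) : ℚ_[p]) * y‖ ≤ 1 := fun m y hy =>
    frame_mul_le p (by simpa using Padic.norm_int_le_one (p := p) m) hy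
  ext z
  rw [mem_pr_mul, mem_star]
  constructor
  · rintro ⟨w, hw, rfl⟩
    obtain ⟨v, h1, h2, h3, rfl⟩ := (hΛ' w).1 hw
    constructor
    · obtain ⟨a, ha⟩ := umv_pow (umv_ap G v)
      refine ⟨a, (hΛ _).2 ⟨((p ^ M * p ^ a : ℤ) : ℚ) • v, fun i => (inZp_int _ _).mul (h1 i),
        fun i => ?_, fun i => ?_, ?_⟩⟩
      · have := hint (p ^ M) _ (ha i)
        rw [umv_ap_smul]
        push_cast at this ⊢
        rwa [mul_assoc]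
      · rw [umv_ap_smul]
        exact frame_mul_le q (by simpa using Padic.norm_int_le_one (p := q) (p ^ M * p ^ a)) (h3 i)
      · rw [umv_ph_smul]; push_cast; ring
    · obtain ⟨u, hu⟩ := hs ((p : ℚ) ^ M • v)
      have h4 := (hk u).2 (by rw [hu, inv_smul_smul₀ (pow_ne_zero _ hp')]; exact h2)
      obtain ⟨m0, hm0, hm0'⟩ := umv_clear (p := p) (q := q) (u 0)
      obtain ⟨m1, hm1, hm1'⟩ := umv_clear (p := p) (q := q) (u 1)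
      obtain ⟨b, hb⟩ := umv_pow (umv_ap G' u)
      have hqb : ¬ (p : ℤ) ∣ (q : ℤ) ^ b := fun h => hpq
        ((Nat.prime_dvd_prime_iff_eq hp hq).1 (by exact_mod_cast hpr.dvd_of_dvd_pow h))
      refine ⟨m0 * m1 * q ^ b, hpr.not_dvd_mul (hpr.not_dvd_mul hm0 hm1) hqb, _,
        (hΛ _).2 ⟨((m0 * m1 * q ^ b : ℤ) : ℚ) • u, fun i => ?_, fun i => ?_, fun i => ?_, rfl⟩, ?_⟩
      · fin_cases i
        · have := (inZp_int (p * q) (m1 * q ^ b)).mul hm0'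
          refine (congrArg (InZp (p * q)) ?_).mp this
          simp only [Pi.smul_apply, smul_eq_mul, Fin.zero_eta]; push_cast; ring
        · have := (inZp_int (p * q) (m0 * q ^ b)).mul hm1'
          refine (congrArg (InZp (p * q)) ?_).mp this
          simp only [Pi.smul_apply, smul_eq_mul, Fin.mk_one]; push_cast; ring
      · rw [umv_ap_smul]; exact hint _ _ (h4 i)
      · have := frame_mul_le q (Padic.norm_int_le_one (p := q) (m0 * m1)) (hb i)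
        rw [umv_ap_smul]
        push_cast at this ⊢
        rwa [mul_assoc]
      · rw [umv_ph_smul, mul_left_comm t, hT, hu, umv_ph_smul]; push_cast; ring
  · rintro ⟨⟨a, ha⟩, m, hm, w, hw, hz⟩
    obtain ⟨v, h1, -, h3, hv⟩ := (hΛ _).1 ha
    obtain ⟨u, -, h5, -, rfl⟩ := (hΛ _).1 hw
    have hm0 : (m : ℂ) ≠ 0 := by
      have : m ≠ 0 := fun h => hm (h ▸ dvd_zero _)
      exact_mod_cast this
    have hm1 : ‖(m : ℚ_[p])‖ = 1 :=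
      le_antisymm (Padic.norm_int_le_one m) (not_lt.1 fun h' =>
        hm (Padic.norm_intCast_lt_one_iff.1 h'))
    have hTu : T ((m : ℚ)⁻¹ • u) = ((p : ℚ) ^ a)⁻¹ • v := by
      refine umv_ph_inj g ?_
      rw [← hT, umv_ph_smul, umv_ph_smul, ← hv, mul_left_comm, ← hz]
      push_cast; field_simp
    have h6 := (hk ((m : ℚ)⁻¹ • u)).1 fun i => by
      rw [umv_ap_smul, norm_mul]
      push_cast
      rw [norm_inv, hm1, inv_one, one_mul]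
      exact h5 i
    rw [hTu] at h6
    refine ⟨_, (hΛ' _).2 ⟨((p : ℚ) ^ M)⁻¹ • ((p : ℚ) ^ a)⁻¹ • v,
      fun i => (umv_inv M).mul ((umv_inv a).mul (h1 i)), h6, fun i => ?_, rfl⟩, ?_⟩
    · rw [umv_ap_smul, umv_ap_smul, norm_mul, norm_mul]
      push_cast
      simp only [norm_inv, norm_pow, hpq', one_pow, inv_one, one_mul]
      exact h3 i
    · rw [umv_ph_smul, umv_ph_smul, ← hv]
      push_cast; field_simp

theorem umv_unit {c : ℕ} {h : SL(2, ℚ_[p])}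
    (hb : Bd ((p : ℝ) ^ c) (h : Matrix (Fin 2) (Fin 2) ℚ_[p])) {e0 e1 y0 y1 : ℚ_[p]}
    (h0 : ‖e0 - 1‖ ≤ (p : ℝ) ^ (-((2 * c : ℕ) + 1 : ℤ)))
    (h1 : ‖e1 - 1‖ ≤ (p : ℝ) ^ (-((2 * c : ℕ) + 1 : ℤ)))
    (hy : ∀ i, ‖h i 0 * y0 + h i 1 * y1‖ ≤ 1) (i : Fin 2) :
    ‖h i 0 * (e0 * y0) + h i 1 * (e1 * y1)‖ ≤ 1 := by
  have hp : (1 : ℝ) < p := by exact_mod_cast (Fact.out : p.Prime).one_lt
  have hd := frame_det h
  have a1 : ∀ {a w a' w' : ℚ_[p]}, ‖a‖ ≤ (p : ℝ) ^ c → ‖w‖ ≤ 1 → ‖a'‖ ≤ (p : ℝ) ^ c → ‖w'‖ ≤ 1 →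
      ‖a * w + -(a' * w')‖ ≤ (p : ℝ) ^ c := fun ha hw ha' hw' => by
    refine (Padic.nonarchimedean _ _).trans (max_le ?_ ?_)
    · rw [norm_mul]; exact (mul_le_of_le_one_right (norm_nonneg _) hw).trans ha
    · rw [norm_neg, norm_mul]; exact (mul_le_of_le_one_right (norm_nonneg _) hw').trans ha'
  have a2 : ‖y0‖ ≤ (p : ℝ) ^ c := by
    have : y0 = h 1 1 * (h 0 0 * y0 + h 0 1 * y1) + -(h 0 1 * (h 1 0 * y0 + h 1 1 * y1)) := by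
      linear_combination (-y0) * hd
    rw [this]; exact a1 (hb 1 1) (hy 0) (hb 0 1) (hy 1)
  have a3 : ‖y1‖ ≤ (p : ℝ) ^ c := by
    have : y1 = h 0 0 * (h 1 0 * y0 + h 1 1 * y1) + -(h 1 0 * (h 0 0 * y0 + h 0 1 * y1)) := by
      linear_combination (-y1) * hd
    rw [this]; exact a1 (hb 0 0) (hy 1) (hb 1 0) (hy 0)
  have a4 : ∀ {a e y : ℚ_[p]}, ‖a‖ ≤ (p : ℝ) ^ c → ‖e‖ ≤ (p : ℝ) ^ (-((2 * c : ℕ) + 1 : ℤ)) →
      ‖y‖ ≤ (p : ℝ) ^ c → ‖a * y * e‖ ≤ 1 := fun ha he hy => by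
    rw [norm_mul, norm_mul]
    refine (mul_le_mul (mul_le_mul ha hy (norm_nonneg _) (by positivity)) he (norm_nonneg _)
      (by positivity)).trans ?_
    rw [← pow_add, ← zpow_natCast, ← zpow_add₀ (by positivity)]
    exact zpow_le_one_of_nonpos₀ hp.le (by push_cast; omega)
  have : h i 0 * (e0 * y0) + h i 1 * (e1 * y1) =
      (h i 0 * y0 + h i 1 * y1) + (h i 0 * y0 * (e0 - 1) + h i 1 * y1 * (e1 - 1)) := by ring
  rw [this]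
  exact frame_add_le p (hy i) (frame_add_le p (a4 (hb i 0) h0 a2) (a4 (hb i 1) h1 a3))

theorem umv_norm_one {δ : ℝ} (hδ : δ < 1) {e : ℚ_[p]} (h : ‖e - 1‖ ≤ δ) : ‖e‖ = 1 := by
  have h1 : ‖e - 1‖ < 1 := h.trans_lt hδ
  rw [show e = 1 + (e - 1) by ring, Padic.add_eq_max_of_ne (by rw [norm_one]; exact h1.ne'),
    norm_one, max_eq_left h1.le]

theorem umv_pow_sub {δ : ℝ} (hδ : δ < 1) {e : ℚ_[p]} (h : ‖e - 1‖ ≤ δ) (n : ℕ) :
    ‖e ^ n - 1‖ ≤ δ := by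
  induction n with
  | zero => simpa using (norm_nonneg _).trans h
  | succ n ih =>
    rw [show e ^ (n + 1) - 1 = e * (e ^ n - 1) + (e - 1) by ring]
    refine (Padic.nonarchimedean _ _).trans (max_le ?_ h)
    rwa [norm_mul, umv_norm_one hδ h, one_mul]

theorem umv_inv_sub {δ : ℝ} (hδ : δ < 1) {e : ℚ_[p]} (h : ‖e - 1‖ ≤ δ) :
    e ≠ 0 ∧ ‖e⁻¹ - 1‖ ≤ δ := by
  have h1 := umv_norm_one hδ h
  have h0 : e ≠ 0 := fun h0 => by simp [h0] at h1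
  refine ⟨h0, ?_⟩
  rwa [show e⁻¹ - 1 = -(e⁻¹ * (e - 1)) by field_simp; ring, norm_neg, norm_mul, norm_inv, h1,
    inv_one, one_mul]

theorem umv_powAB (hD : D < 0) {r : ℚ_[p]} (hr : r ^ 2 = D) (A B : ℚ) (n : ℕ) : ∃ A' B' : ℚ,
    ((A : ℂ) + B * th D) ^ n = A' + B' * th D ∧ ((A : ℚ_[p]) + B * r) ^ n = A' + B' * r ∧
      ((A : ℚ_[p]) - B * r) ^ n = A' - B' * r := by
  induction n with
  | zero => exact ⟨1, 0, by simp, by simp, by simp⟩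
  | succ n ih =>
    obtain ⟨A', B', h1, h2, h3⟩ := ih
    have hth := th_sq hD.le
    refine ⟨A' * A + B' * B * D, A' * B + B' * A, ?_, ?_, ?_⟩
    · rw [pow_succ, h1]; push_cast; linear_combination (B' : ℂ) * B * hth
    · rw [pow_succ, h2]; push_cast; linear_combination (B' : ℚ_[p]) * B * hr
    · rw [pow_succ, h3]; push_cast; linear_combination (B' : ℚ_[p]) * B * hr

theorem umv_move (hpq : p ≠ q) (hD : D < 0) {g : SL(2, ℝ)} {h k : SL(2, ℚ_[p])}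
    {G' : SL(2, ℚ_[q])} {Λ Λ' : Lt} {M c : ℕ} {Θ : Matrix (Fin 2) (Fin 2) ℚ} {r : ℚ_[p]}
    (hr : r ^ 2 = D)
    (hΛ : ∀ z, z ∈ Λ ↔ ∃ v : Fin 2 → ℚ, (∀ i, InZp (p * q) (v i)) ∧
      (∀ i, ‖umv_ap (h * k) v i‖ ≤ 1) ∧ (∀ i, ‖umv_ap G' v i‖ ≤ 1) ∧ z = frame_ph g (v 0) (v 1))
    (hΛ' : ∀ z, z ∈ Λ' ↔ ∃ v : Fin 2 → ℚ, (∀ i, InZp (p * q) (v i)) ∧
      (∀ i, ‖umv_ap (h * ((aP p M).2 * k)) v i‖ ≤ 1) ∧ (∀ i, ‖umv_ap G' v i‖ ≤ 1) ∧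
        z = frame_ph g (v 0) (v 1))
    (hth : ∀ a b : ℚ, th D * frame_ph g a b =
      frame_ph g (Θ 0 0 * a + Θ 0 1 * b) (Θ 1 0 * a + Θ 1 1 * b))
    (hP : (k : Matrix (Fin 2) (Fin 2) ℚ_[p]) * Θ.map (↑) =
      !![r, 0; 0, -r] * (k : Matrix (Fin 2) (Fin 2) ℚ_[p]))
    (hb : Bd ((p : ℝ) ^ c) (h : Matrix (Fin 2) (Fin 2) ℚ_[p])) {A B : ℚ}
    (h₁ : ‖(A : ℚ_[p]) + B * r - 1‖ ≤ (p : ℝ) ^ (-((2 * c : ℕ) + 1 : ℤ)))
    (h₂ : ‖(A : ℚ_[p]) - B * r - p‖ ≤ (p : ℝ) ^ (-((2 * c : ℕ) + 2 : ℤ))) :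
    pr ((p : ℂ) ^ M) * Λ' = star p ((A + B * th D) ^ (2 * M)) Λ := by
  have hp : (1 : ℝ) < p := by exact_mod_cast (Fact.out : p.Prime).one_lt
  have hp0 : (p : ℚ_[p]) ≠ 0 := by exact_mod_cast (Fact.out : p.Prime).ne_zero
  have hδ : (p : ℝ) ^ (-((2 * c : ℕ) + 1 : ℤ)) < 1 := zpow_lt_one_of_neg₀ hp (by omega)
  obtain ⟨A', B', e1, e2, e3⟩ := umv_powAB hD hr A B (2 * M)
  have ht := (inK_AB p hD h₁).pow_star hD (2 * M)
  obtain ⟨-, A'', B'', e4⟩ := ht.inv hD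
  let T : ℚ → ℚ → (Fin 2 → ℚ) → Fin 2 → ℚ := fun a b u i =>
    a * u i + b * (Θ i 0 * u 0 + Θ i 1 * u 1)
  have hT : ∀ (a b : ℚ) (u : Fin 2 → ℚ), ((a : ℂ) + b * th D) * frame_ph g (u 0) (u 1) =
      frame_ph g (T a b u 0) (T a b u 1) := fun a b u => by
    rw [add_mul, mul_assoc, hth]
    simp only [frame_ph, T]; push_cast; ring
  have q00 := congrFun₂ hP 0 0
  have q01 := congrFun₂ hP 0 1
  have q10 := congrFun₂ hP 1 0
  have q11 := congrFun₂ hP 1 1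
  simp only [Matrix.mul_apply, Fin.sum_univ_two, Matrix.map_apply, Matrix.of_apply,
    Matrix.cons_val', Matrix.cons_val_zero, Matrix.cons_val_one, Matrix.cons_val_fin_one,
    zero_mul, add_zero, zero_add] at q00 q01 q10 q11
  have f0 := umv_pow_sub hδ h₁ (2 * M)
  have f1 := umv_pow_sub (e := ((A : ℚ_[p]) - (B : ℚ_[p]) * r) / (p : ℚ_[p])) hδ (by
    rw [show ((A : ℚ_[p]) - B * r) / p - 1 = ((A : ℚ_[p]) - B * r - p) / p by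
      field_simp, norm_div,
      Padic.norm_p, div_inv_eq_mul]
    refine (mul_le_mul_of_nonneg_right h₂ (by positivity)).trans (le_of_eq ?_)
    rw [← zpow_add_one₀ (by positivity)]
    congr 1) (2 * M)
  refine umv_core hpq hΛ hΛ' (T := T A' B') (fun u => by rw [e1, hT]) (fun v => ?_) fun u => ?_
  · refine ⟨T A'' B'' v, umv_ph_inj g ?_⟩
    rw [← hT, ← hT, ← e1, ← e4, mul_inv_cancel_left₀ ht.1]
  · have g0 : umv_ap ((aP p M).2 * k) (((p : ℚ) ^ M)⁻¹ • T A' B' u) 0 =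
        ((A : ℚ_[p]) + B * r) ^ (2 * M) * umv_ap k u 0 := by
      rw [umv_ap_mul, umv_ap_smul, e2]
      simp only [aP, dg_val, Matrix.of_apply, Matrix.cons_val', Matrix.cons_val_zero,
        Matrix.cons_val_one, Matrix.cons_val_fin_one, zero_mul, add_zero]
      push_cast
      rw [mul_inv_cancel_left₀ (pow_ne_zero _ hp0)]
      simp only [umv_ap, T]
      push_cast
      linear_combination (B' : ℚ_[p]) * u 0 * q00 + (B' : ℚ_[p]) * u 1 * q01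
    have g1 : umv_ap ((aP p M).2 * k) (((p : ℚ) ^ M)⁻¹ • T A' B' u) 1 =
        (((A : ℚ_[p]) - B * r) / p) ^ (2 * M) * umv_ap k u 1 := by
      rw [umv_ap_mul, umv_ap_smul, umv_ap_smul, div_pow, e3]
      simp only [aP, dg_val, Matrix.of_apply, Matrix.cons_val', Matrix.cons_val_zero,
        Matrix.cons_val_one, Matrix.cons_val_fin_one, zero_mul, zero_add]
      have : umv_ap k (T A' B' u) 1 = ((A' : ℚ_[p]) - B' * r) * umv_ap k u 1 := by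
        simp only [umv_ap, T]
        push_cast
        linear_combination (B' : ℚ_[p]) * u 0 * q10 + (B' : ℚ_[p]) * u 1 * q11
      rw [this, two_mul, pow_add]
      push_cast
      field_simp
    simp only [umv_ap_mul h, g0, g1]
    refine ⟨fun hy => umv_unit hb f0 f1 hy, fun hy i => ?_⟩
    have := umv_unit hb (umv_inv_sub hδ f0).2 (umv_inv_sub hδ f1).2 hy i
    rwa [inv_mul_cancel_left₀ (umv_inv_sub hδ f0).1, inv_mul_cancel_left₀ (umv_inv_sub hδ f1).1]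
      at this

theorem Fr3.move_p (hpq : p ≠ q) (h : Fr3 p q D rp rq hq x) (hD : D < 0) {c : ℕ}
    (hb : Bd ((p : ℝ) ^ c) (hp : Matrix (Fin 2) (Fin 2) ℚ_[p])) {A B : ℚ}
    (h₁ : ‖(A : ℚ_[p]) + B * rp - 1‖ ≤ (p : ℝ) ^ (-((2 * c : ℕ) + 1 : ℤ)))
    (h₂ : ‖(A : ℚ_[p]) - B * rp - p‖ ≤ (p : ℝ) ^ (-((2 * c : ℕ) + 2 : ℤ))) (M : ℕ) :
    pr ((p : ℂ) ^ M) * lat3 p q (iP p q hp • a3 p q M • x) =
      star p ((A + B * th D) ^ (2 * M)) (lat3 p q (iP p q hp • x)) := by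
  have hr := (h.sq hD.le).1
  obtain ⟨g, Θ, rfl, hF⟩ := h
  refine umv_move hpq hD (g := g.1.1) (h := hp) (k := g.1.2) (G' := g.2) hr (fun z => ?_)
    (fun z => ?_) hF.th hF.2.1 hb h₁ h₂
  · have e : iP p q hp • (g : X3 p q) = ((((g.1.1, hp * g.1.2), g.2) : G3 p q) : X3 p q) := by
      rw [MulAction.Quotient.smul_mk, smul_eq_mul]
      exact congrArg _ (Prod.ext (Prod.ext (one_mul _) rfl) (one_mul _))
    rw [e]
    exact mem_lat3 p q hpq _ z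
  · have e : iP p q hp • a3 p q M • (g : X3 p q) =
        ((((g.1.1, hp * ((aP p M).2 * g.1.2)), g.2) : G3 p q) : X3 p q) := by
      rw [MulAction.Quotient.smul_mk, MulAction.Quotient.smul_mk, smul_eq_mul, smul_eq_mul]
      exact congrArg _ (Prod.ext (Prod.ext ((one_mul _).trans (one_mul _)) rfl)
        ((one_mul _).trans (one_mul _)))
    rw [e]
    exact mem_lat3 p q hpq _ z

theorem Fr3.move_q (hpq : p ≠ q) (h : Fr3 p q D rp rq hq x) (hD : D < 0) {c : ℕ}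
    (hb : Bd ((q : ℝ) ^ c) (hq : Matrix (Fin 2) (Fin 2) ℚ_[q])) {A B : ℚ}
    (h₁ : ‖(A : ℚ_[q]) + B * rq - 1‖ ≤ (q : ℝ) ^ (-((2 * c : ℕ) + 1 : ℤ)))
    (h₂ : ‖(A : ℚ_[q]) - B * rq - q‖ ≤ (q : ℝ) ^ (-((2 * c : ℕ) + 2 : ℤ))) (M : ℕ) :
    pr ((q : ℂ) ^ M) * lat3 p q (iP p q hp • b3 p q hq M • x) =
      star q ((A + B * th D) ^ (2 * M)) (lat3 p q (iP p q hp • x)) := by
  have hr := (h.sq hD.le).2
  obtain ⟨g, Θ, rfl, hF⟩ := h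
  refine umv_move hpq.symm hD (g := g.1.1) (h := hq) (k := hq⁻¹ * g.2) (G' := hp * g.1.2) hr
    (fun z => ?_) (fun z => ?_) hF.th hF.2.2 hb h₁ h₂
  · have e : iP p q hp • (g : X3 p q) =
        ((((g.1.1, hp * g.1.2), hq * (hq⁻¹ * g.2)) : G3 p q) : X3 p q) := by
      rw [MulAction.Quotient.smul_mk, smul_eq_mul]
      exact congrArg _ (Prod.ext (Prod.ext (one_mul _) rfl)
        ((one_mul _).trans (mul_inv_cancel_left _ _).symm))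
    rw [e, mem_lat3 p q hpq, mul_comm q p]
    exact exists_congr fun v => and_congr_right fun _ => and_left_comm
  · have e : iP p q hp • b3 p q hq M • (g : X3 p q) =
        ((((g.1.1, hp * g.1.2), hq * ((aP q M).2 * (hq⁻¹ * g.2))) : G3 p q) : X3 p q) := by
      rw [MulAction.Quotient.smul_mk, MulAction.Quotient.smul_mk, smul_eq_mul, smul_eq_mul]
      refine congrArg _ (Prod.ext (Prod.ext ((one_mul _).trans (one_mul _))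
        (congrArg (hp * ·) (one_mul _))) ((one_mul _).trans ?_))
      simp only [b3, Prod.snd_mul, mul_assoc]
    rw [e, mem_lat3 p q hpq, mul_comm q p]
    exact exists_congr fun v => and_congr_right fun _ => and_left_comm

theorem CF.orbit (hpq : p ≠ q) (h : CF p q D rp rq hp hq x) {c : ℕ}
    (hb : Bd ((p : ℝ) ^ c) (hp : Matrix (Fin 2) (Fin 2) ℚ_[p]))
    (hb' : Bd ((q : ℝ) ^ c) (hq : Matrix (Fin 2) (Fin 2) ℚ_[q])) {A B A' B' : ℚ}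
    (h₁ : ‖(A : ℚ_[p]) + B * rp - 1‖ ≤ (p : ℝ) ^ (-((2 * c : ℕ) + 1 : ℤ)))
    (h₂ : ‖(A : ℚ_[p]) - B * rp - p‖ ≤ (p : ℝ) ^ (-((2 * c : ℕ) + 2 : ℤ)))
    (h₃ : ‖(A' : ℚ_[q]) + B' * rq - 1‖ ≤ (q : ℝ) ^ (-((2 * c : ℕ) + 1 : ℤ)))
    (h₄ : ‖(A' : ℚ_[q]) - B' * rq - q‖ ≤ (q : ℝ) ^ (-((2 * c : ℕ) + 2 : ℤ))) {M : ℕ}
    {σ σ' : ℂ ≃+* ℂ}
    (hσ : ∀ Λ, DiscL Λ D → σ (jL Λ) = jL (star p ((A + B * th D) ^ (2 * M)) Λ))
    (hσ' : ∀ Λ, DiscL Λ D → σ' (jL Λ) = jL (star q ((A' + B' * th D) ^ (2 * M)) Λ)) (u v : ℕ) :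
    CF p q D rp rq hp hq (a3 p q (M * u) • b3 p q hq (M * v) • x) ∧
      j3 p q (iP p q hp • a3 p q (M * u) • b3 p q hq (M * v) • x) =
        (σ ^ u * σ' ^ v) (j3 p q (iP p q hp • x)) := by
  have hD : D < 0 := h.2.isD.1
  have step : ∀ (l : ℕ) [Fact l.Prime] (t : ℂ) (τ : ℂ ≃+* ℂ) (y y' : X3 p q), InK D t →
      (∀ Λ, DiscL Λ D → τ (jL Λ) = jL (star l t Λ)) → DiscL (lat3 p q y) D →
      pr ((l : ℂ) ^ M) * lat3 p q y' = star l t (lat3 p q y) →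
      DiscL (lat3 p q y') D ∧ j3 p q y' = τ (j3 p q y) := by
    intro l _ t τ y y' ht hτ hy e
    have hl : (l : ℂ) ^ M ≠ 0 := pow_ne_zero _ (by exact_mod_cast (Fact.out : l.Prime).ne_zero)
    have h1 := (discL_star l hy ht).pr_mul (inv_ne_zero hl)
    rw [← e, ← mul_assoc, pr_mul_pr, inv_mul_cancel₀ hl, pr_one_mul] at h1
    refine ⟨h1, ?_⟩
    rw [← (lat3_spec p q y).2, ← (lat3_spec p q y').2, hτ _ hy, ← e, jL_pr_mul h1.isLat hl]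
  have hv : CF p q D rp rq hp hq (b3 p q hq (M * v) • x) ∧
      j3 p q (iP p q hp • b3 p q hq (M * v) • x) = (σ' ^ v) (j3 p q (iP p q hp • x)) := by
    induction v with
    | zero =>
      have : b3 p q hq (M * 0) = 1 := by rw [b3_mul, pow_zero]
      rw [this, one_smul, pow_zero]
      exact ⟨h, rfl⟩
    | succ v ih =>
      have h5 := step q _ σ' _ _ ((inK_AB q hD h₃).pow_star hD _) hσ' ih.1.2
        (ih.1.1.move_q hpq hD hb' h₃ h₄ M)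
      rw [Nat.mul_succ, add_comm, b3_add, mul_smul, pow_succ', RingAut.mul_apply, ← ih.2]
      exact ⟨⟨ih.1.1.smul_b M, h5.1⟩, h5.2⟩
  rw [RingAut.mul_apply, ← hv.2]
  generalize b3 p q hq (M * v) • x = y at hv ⊢
  induction u with
  | zero =>
    have : a3 p q (M * 0) = 1 := by rw [a3_mul, pow_zero]
    rw [this, one_smul, pow_zero]
    exact ⟨hv.1, rfl⟩
  | succ u ih =>
    have h5 := step p _ σ _ _ ((inK_AB p hD h₁).pow_star hD _) hσ ih.1.2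
      (ih.1.1.move_p hpq hD hb h₁ h₂ M)
    rw [Nat.mul_succ, add_comm, a3_add, mul_smul, pow_succ', RingAut.mul_apply, ← ih.2]
    exact ⟨⟨ih.1.1.smul_a M, h5.1⟩, h5.2⟩

end Pool.Agent.EQ
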