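import Pool.Agent.P.MP_ad7a55_nt.Lat2
import Pool.Agent.P.MP_ad7a55_nt.Ord2
import Pool.Agent.P.MP_ad7a55_nt.Base

/-! Integer matrices of positive determinant acting on the upper half plane. -/

set_option autoImplicit false

noncomputable section

open MeasureTheory Topology Filter UpperHalfPlane
open scoped MatrixGroups ENNReal BoundedContinuousFunction

namespace Pool.Agent.EQ

abbrev MZ : Type := Matrix (Fin 2) (Fin 2) ℤ

theorem vact_den {ξ : MZ} (h : 0 < ξ.det) (τ : ℍ) : (ξ 1 0 : ℂ) * τ + ξ 1 1 ≠ 0 := fun e => by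
  obtain ⟨h0, h1⟩ := int_indep_lat τ e
  rw [Matrix.det_fin_two, h0, h1] at h
  simp at h

theorem act_im {ξ : MZ} (h : 0 < ξ.det) (τ : ℍ) :
    0 < (((ξ 0 0 : ℂ) * τ + ξ 0 1) / ((ξ 1 0 : ℂ) * τ + ξ 1 1)).im := by
  have hn := Complex.normSq_pos.2 (vact_den h τ)
  have hd : (0 : ℝ) < ξ 0 0 * ξ 1 1 - ξ 0 1 * ξ 1 0 := by
    rw [Matrix.det_fin_two] at h
    exact_mod_cast h
  rw [Complex.div_im, ← sub_div]
  refine div_pos ?_ hn
  simp only [Complex.add_im, Complex.mul_im, Complex.intCast_re, Complex.intCast_im, zero_mul,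
    add_zero, coe_im, Complex.add_re, Complex.mul_re, sub_zero, coe_re]
  have := mul_pos hd τ.im_pos
  linarith

/-- The Moebius action of an integer matrix of positive determinant. -/
def act (ξ : MZ) (τ : ℍ) : ℍ :=
  if h : 0 < ξ.det then ⟨((ξ 0 0 : ℂ) * τ + ξ 0 1) / ((ξ 1 0 : ℂ) * τ + ξ 1 1), act_im h τ⟩ else τ

theorem coe_act {ξ : MZ} (h : 0 < ξ.det) (τ : ℍ) :
    (act ξ τ : ℂ) = ((ξ 0 0 : ℂ) * τ + ξ 0 1) / ((ξ 1 0 : ℂ) * τ + ξ 1 1) := by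
  simp only [act, dif_pos h]

theorem act_den {ξ : MZ} (h : 0 < ξ.det) (τ : ℍ) : (ξ 1 0 : ℂ) * τ + ξ 1 1 ≠ 0 :=
  vact_den h τ

theorem vact_den_mul {ξ : MZ} (h : 0 < ξ.det) (τ : ℍ) :
    ((ξ 1 0 : ℂ) * τ + ξ 1 1) * (act ξ τ : ℂ) = (ξ 0 0 : ℂ) * τ + ξ 0 1 := by
  rw [coe_act h, mul_div_cancel₀ _ (act_den h τ)]

theorem vact_ext {ξ : MZ} (h : 0 < ξ.det) {τ τ' : ℍ}
    (e : ((ξ 1 0 : ℂ) * τ + ξ 1 1) * (τ' : ℂ) = (ξ 0 0 : ℂ) * τ + ξ 0 1) : act ξ τ = τ' := by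
  apply UpperHalfPlane.ext
  apply mul_left_cancel₀ (act_den h τ)
  rw [vact_den_mul h, e]

theorem act_mul {ξ η : MZ} (h : 0 < ξ.det) (h' : 0 < η.det) (τ : ℍ) :
    act (ξ * η) τ = act ξ (act η τ) := by
  have h2 : 0 < (ξ * η).det := by rw [Matrix.det_mul]; exact mul_pos h h'
  refine vact_ext h2 ?_
  have e1 := vact_den_mul h' τ
  have e2 := vact_den_mul h (act η τ)
  simp only [Matrix.mul_apply, Fin.sum_univ_two]
  push_cast
  linear_combination ((η 1 0 : ℂ) * τ + η 1 1) * e2 +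
    ((ξ 0 0 : ℂ) - ξ 1 0 * (act ξ (act η τ) : ℂ)) * e1

theorem vact_SL_det (γ : SL(2, ℤ)) : 0 < (γ : MZ).det := by
  rw [γ.det_coe]; exact one_pos

theorem act_SL (γ : SL(2, ℤ)) (τ : ℍ) : act (γ : MZ) τ = γ • τ :=
  vact_ext (vact_SL_det γ) (sl_den_mul_lat γ τ)

theorem act_one (τ : ℍ) : act 1 τ = τ :=
  vact_ext (by simp) (by simp)

theorem act_smul {ξ : MZ} (h : 0 < ξ.det) {m : ℤ} (hm : m ≠ 0) (τ : ℍ) :
    act (m • ξ) τ = act ξ τ := by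
  have h2 : 0 < (m • ξ).det := by
    rw [Matrix.det_smul, Fintype.card_fin]
    exact mul_pos (by positivity) h
  refine vact_ext h2 ?_
  have e1 := vact_den_mul h τ
  simp only [Matrix.smul_apply, smul_eq_mul]
  push_cast
  linear_combination (m : ℂ) * e1

theorem continuous_act (ξ : MZ) : Continuous (act ξ) := by
  by_cases h : 0 < ξ.det
  · rw [isEmbedding_coe.continuous_iff]
    have : ((↑) : ℍ → ℂ) ∘ act ξ =
        fun τ : ℍ => ((ξ 0 0 : ℂ) * τ + ξ 0 1) / ((ξ 1 0 : ℂ) * τ + ξ 1 1) :=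
      funext fun τ => coe_act h τ
    rw [this]
    exact ((continuous_const.mul continuous_coe).add continuous_const).div
      ((continuous_const.mul continuous_coe).add continuous_const) (act_den h)
  · have : act ξ = id := funext fun τ => by simp only [act, dif_neg h, id]
    rw [this]
    exact continuous_id

theorem act_real {ξ : MZ} {g : SL(2, ℝ)} {c : ℝ} (hc : c ≠ 0)
    (h : ∀ i j, (ξ i j : ℝ) = c * g i j) (τ : ℍ) : 0 < ξ.det ∧ act ξ τ = g • τ := by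
  have hg := g.det_coe
  rw [Matrix.det_fin_two] at hg
  have hd : 0 < ξ.det := by
    have : ((ξ.det : ℤ) : ℝ) = c ^ 2 := by
      rw [Matrix.det_fin_two]
      push_cast
      rw [h, h, h, h]
      linear_combination c ^ 2 * hg
    have h2 : (0 : ℝ) < ((ξ.det : ℤ) : ℝ) := by rw [this]; positivity
    exact_mod_cast h2
  refine ⟨hd, ?_⟩
  have hC : ∀ i j, (ξ i j : ℂ) = (c : ℂ) * (g i j : ℝ) := fun i j => by
    rw [← Complex.ofReal_intCast, h, Complex.ofReal_mul]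
  apply UpperHalfPlane.ext
  have hc' : (c : ℂ) ≠ 0 := by exact_mod_cast hc
  rw [coe_act hd, coe_specialLinearGroup_apply, hC, hC, hC, hC, mul_assoc, mul_assoc, ← mul_add,
    ← mul_add, mul_div_mul_left _ _ hc']
  simp

theorem exists_real {ξ : MZ} (h : 0 < ξ.det) :
    ∃ (g : SL(2, ℝ)) (c : ℝ), c ≠ 0 ∧ ∀ i j, (ξ i j : ℝ) = c * g i j := by
  have hd : (0 : ℝ) < (ξ.det : ℝ) := by exact_mod_cast h
  have hc : Real.sqrt (ξ.det : ℝ) ≠ 0 := (Real.sqrt_pos.2 hd).ne'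
  have hs := Real.mul_self_sqrt hd.le
  generalize Real.sqrt (ξ.det : ℝ) = c at hc hs
  rw [Matrix.det_fin_two] at hs
  push_cast at hs
  refine ⟨⟨Matrix.of fun i j => (ξ i j : ℝ) / c, ?_⟩, c, hc, fun i j => ?_⟩
  · rw [Matrix.det_fin_two]
    simp only [Matrix.of_apply]
    field_simp
    linear_combination -hs
  · change _ = c * ((ξ i j : ℝ) / c)
    field_simp

theorem act_hnf {ξ : MZ} (h : 0 < ξ.det) : ∃ (γ : SL(2, ℤ)) (a d : ℕ) (b : ℤ), 0 < a ∧ 0 < d ∧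
    (a * d : ℤ) = ξ.det ∧ ξ = (γ : MZ) * !![(a : ℤ), b; 0, (d : ℤ)] := by
  have hdet := Matrix.det_fin_two ξ
  have hg : 0 < Int.gcd (ξ 0 0) (ξ 1 0) := by
    rw [Int.gcd_pos_iff]
    by_contra hc
    rw [not_or, not_not, not_not] at hc
    rw [hdet, hc.1, hc.2] at h
    simp at h
  have hb := Int.gcd_eq_gcd_ab (ξ 0 0) (ξ 1 0)
  obtain ⟨p, hp⟩ := Int.gcd_dvd_left (ξ 0 0) (ξ 1 0)
  obtain ⟨r, hr⟩ := Int.gcd_dvd_right (ξ 0 0) (ξ 1 0)
  generalize Int.gcdA (ξ 0 0) (ξ 1 0) = x at hb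
  generalize Int.gcdB (ξ 0 0) (ξ 1 0) = y at hb
  generalize Int.gcd (ξ 0 0) (ξ 1 0) = a at hg hb hp hr
  have ha : (0 : ℤ) < a := by exact_mod_cast hg
  have h1 : p * x + r * y = 1 := by
    apply mul_left_cancel₀ ha.ne'
    rw [hp, hr] at hb
    linear_combination -hb
  have h2 : (a : ℤ) * (p * ξ 1 1 - r * ξ 0 1) = ξ.det := by
    rw [hdet, hp, hr]; ring
  have h3 : 0 < p * ξ 1 1 - r * ξ 0 1 := (mul_pos_iff_of_pos_left ha).1 (h2 ▸ h)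
  obtain ⟨d, hd⟩ := Int.eq_ofNat_of_zero_le h3.le
  refine ⟨⟨!![p, -y; r, x], by rw [Matrix.det_fin_two_of]; linear_combination h1⟩, a, d,
    x * ξ 0 1 + y * ξ 1 1, hg, by omega, by rw [← hd, h2], ?_⟩
  ext i j
  fin_cases i <;> fin_cases j <;> simp [Matrix.mul_apply, Fin.sum_univ_two, ← hd]
  · rw [hp]; ring
  · linear_combination (-ξ 0 1) * h1
  · rw [hr]; ring
  · linear_combination (-ξ 1 1) * h1

theorem act_conj {ξ : MZ} (h : 0 < ξ.det) (N : ℕ) {γ : SL(2, ℤ)}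
    (hγ : γ ∈ CongruenceSubgroup.Gamma (N * ξ.det.natAbs)) :
    ∃ γ' ∈ CongruenceSubgroup.Gamma N, ξ * (γ : MZ) = (γ' : MZ) * ξ := by
  have hn : ((N * ξ.det.natAbs : ℕ) : ℤ) = N * ξ.det := by
    rw [Nat.cast_mul, Int.natAbs_of_nonneg h.le]
  rw [CongruenceSubgroup.Gamma_mem] at hγ
  obtain ⟨g0, g1, g2, g3⟩ := hγ
  have k0 : ((γ 0 0 - 1 : ℤ) : ZMod (N * ξ.det.natAbs)) = 0 := by push_cast; rw [g0, sub_self]
  have k3 : ((γ 1 1 - 1 : ℤ) : ZMod (N * ξ.det.natAbs)) = 0 := by push_cast; rw [g3, sub_self]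
  rw [ZMod.intCast_zmod_eq_zero_iff_dvd, hn] at k0 g1 g2 k3
  obtain ⟨a, ha⟩ := k0
  obtain ⟨b, hb⟩ := g1
  obtain ⟨c, hc⟩ := g2
  obtain ⟨d, hd⟩ := k3
  have hγ : (γ : MZ) = 1 + (N * ξ.det : ℤ) • !![a, b; c, d] := by
    ext i j
    fin_cases i <;> fin_cases j <;> simp
    · linear_combination ha
    · linear_combination hb
    · linear_combination hc
    · linear_combination hd
  have he : ξ * (γ : MZ) = (1 + (N : ℤ) • (ξ * !![a, b; c, d] * ξ.adjugate)) * ξ := by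
    rw [hγ, mul_add, add_mul, mul_one, one_mul, smul_mul_assoc, mul_assoc _ _ ξ,
      Matrix.adjugate_mul, mul_smul_comm, mul_smul_comm, mul_one, smul_smul]
  have hdet : (1 + (N : ℤ) • (ξ * !![a, b; c, d] * ξ.adjugate)).det = 1 := by
    have := congrArg Matrix.det he
    rw [Matrix.det_mul, Matrix.det_mul, γ.det_coe, mul_comm] at this
    exact (mul_right_cancel₀ h.ne' this).symm
  refine ⟨⟨_, hdet⟩, ?_, he⟩
  rw [CongruenceSubgroup.Gamma_mem]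
  generalize ξ * !![a, b; c, d] * ξ.adjugate = B at hdet
  simp only [Matrix.add_apply, Matrix.smul_apply, smul_eq_mul]
  simp

theorem isog_act {ξ : MZ} (h : 0 < ξ.det) (τ : ℍ) :
    Isog ξ.det.natAbs (jInv (act ξ τ)) (jInv τ) := by
  have hn : ((ξ.det.natAbs : ℕ) : ℂ) = (ξ 0 0 : ℂ) * ξ 1 1 - ξ 0 1 * ξ 1 0 := by
    rw [← Int.cast_natCast, Int.natAbs_of_nonneg h.le, Matrix.det_fin_two]
    push_cast
    rfl
  refine ⟨_, _, isLat_sp (act_den h τ) (act ξ τ), isLat_one τ, jL_sp (act_den h τ) _, jL_one τ,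
    ?_, ?_⟩
  · rw [vact_den_mul h]
    exact sp_le_iff_lat.2 ⟨mem_sp.2 ⟨ξ 1 1, ξ 1 0, by ring⟩, mem_sp.2 ⟨ξ 0 1, ξ 0 0, by ring⟩⟩
  · rw [vact_den_mul h, pr_mul_sp, hn]
    exact sp_le_iff_lat.2 ⟨mem_sp.2 ⟨ξ 0 0, -ξ 1 0, by push_cast; ring⟩,
      mem_sp.2 ⟨-ξ 0 1, ξ 1 1, by push_cast; ring⟩⟩

theorem Isog.exists_act {M : ℕ} (hM : 0 < M) {τ τ' : ℍ} (h : Isog M (jInv τ') (jInv τ)) :
    ∃ ξ : MZ, 0 < ξ.det ∧ ξ.det ∣ (M : ℤ) ^ 2 ∧ τ' = act ξ τ := by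
  obtain ⟨Λ₁, Λ₂, h1, h2, j1, j2, l1, l2⟩ := h
  obtain ⟨c, hc, rfl⟩ := jL_inj (isLat_one τ) h2 (by rw [j2, jL_one])
  rw [pr_mul_sp, mul_one] at l1 l2
  obtain ⟨a, d, b, ha, hd, haM, hdM, -, -, rfl⟩ := hnf hc τ hM l2 l1
  have hdet : (!![(d : ℤ), b; 0, (a : ℤ)] : MZ).det = d * a := by
    rw [Matrix.det_fin_two_of]; ring
  have hpos : 0 < (!![(d : ℤ), b; 0, (a : ℤ)] : MZ).det := by
    rw [hdet]; positivity
  have ha' : (a : ℂ) ≠ 0 := by exact_mod_cast ha.ne'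
  have e := vact_den_mul hpos τ
  have e2 : c * (d * τ + b) = a * c * (act !![(d : ℤ), b; 0, (a : ℤ)] τ : ℂ) := by
    simp only [Matrix.of_apply, Matrix.cons_val', Matrix.cons_val_zero, Matrix.cons_val_one,
      Matrix.cons_val_fin_one, Int.cast_zero, zero_mul, zero_add, Int.cast_natCast] at e
    linear_combination (-c) * e
  rw [e2, jL_sp (mul_ne_zero ha' hc)] at j1
  obtain ⟨γ, rfl⟩ := jInv_inj j1
  refine ⟨(γ : MZ) * !![(d : ℤ), b; 0, (a : ℤ)], ?_, ?_, ?_⟩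
  · rw [Matrix.det_mul, γ.det_coe, one_mul]; exact hpos
  · rw [Matrix.det_mul, γ.det_coe, one_mul, hdet, sq]
    exact mul_dvd_mul (by exact_mod_cast hdM) (by exact_mod_cast haM)
  · rw [act_mul (vact_SL_det γ) hpos, act_SL]

theorem vact_mono (c : ℂ) {Λ Λ' : Lt} (h : Λ ≤ Λ') : pr c * Λ ≤ pr c * Λ' :=
  pr_mul_le.mpr fun w hw => mem_pr_mul.mpr ⟨w, h hw, rfl⟩

theorem Isog.symm {M : ℕ} (hM : 0 < M) {a b : ℂ} (h : Isog M a b) : Isog M b a := by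
  obtain ⟨Λ₁, Λ₂, h1, h2, j1, j2, l1, l2⟩ := h
  have hM' : (M : ℂ) ≠ 0 := by exact_mod_cast hM.ne'
  exact ⟨pr M * Λ₂, Λ₁, h2.pr_mul hM', h1, by rw [jL_pr_mul h2 hM', j2], j1, l2, vact_mono _ l1⟩

theorem Isog.trans {M M' : ℕ} {a b c : ℂ} (h : Isog M a b) (h' : Isog M' b c) :
    Isog (M * M') a c := by
  obtain ⟨Λ₁, Λ₂, h1, h2, j1, j2, l1, l2⟩ := h
  obtain ⟨Λ₃, Λ₄, h3, h4, j3, j4, l3, l4⟩ := h'
  obtain ⟨t, ht, rfl⟩ := jL_inj h3 h2 (by rw [j2, j3])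
  refine ⟨Λ₁, pr t * Λ₄, h1, h4.pr_mul ht, j1, by rw [jL_pr_mul h4 ht, j4],
    l1.trans (vact_mono _ l3), le_trans ?_ l2⟩
  rw [Nat.cast_mul, ← pr_mul_pr, mul_assoc, mul_left_comm (pr (M' : ℂ))]
  exact vact_mono _ (vact_mono _ l4)

theorem Isog.mono {M M' : ℕ} (hM : M ∣ M') {a b : ℂ} (h : Isog M a b) : Isog M' a b := by
  obtain ⟨Λ₁, Λ₂, h1, h2, j1, j2, l1, l2⟩ := h
  obtain ⟨k, rfl⟩ := hM
  refine ⟨Λ₁, Λ₂, h1, h2, j1, j2, l1, le_trans ?_ l2⟩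
  rw [Nat.cast_mul, ← pr_mul_pr, mul_assoc]
  refine vact_mono _ ?_
  simpa using pr_int_le (k : ℤ) Λ₂

theorem isog_refl (a : ℂ) : Isog 1 a a := by
  obtain ⟨Λ, h, j⟩ := jL_surj a
  exact ⟨Λ, Λ, h, h, j, j, le_rfl, by simp⟩

/-- Only finitely many matrices of a given determinant modulo a congruence subgroup. -/
theorem finite_act (N : ℕ) (hN : 0 < N) {δ : ℤ} (hδ : δ ≠ 0) : ∃ R : Finset MZ,
    (∀ η ∈ R, 0 < η.det ∧ η.det ∣ δ) ∧ ∀ ξ : MZ, 0 < ξ.det → ξ.det ∣ δ →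
      ∃ η ∈ R, ∃ γ ∈ CongruenceSubgroup.Gamma N, ξ = (γ : MZ) * η := by
  classical
  have : NeZero N := ⟨hN.ne'⟩
  have := CongruenceSubgroup.Gamma_normal N
  have : Fintype (SL(2, ℤ) ⧸ CongruenceSubgroup.Gamma N) := Fintype.ofFinite _
  let I : Finset ℤ := Finset.Icc 0 |δ|
  let f : (SL(2, ℤ) ⧸ CongruenceSubgroup.Gamma N) × ℤ × ℤ × ℤ → MZ :=
    fun z => ((z.1.out : SL(2, ℤ)) : MZ) * !![z.2.1, z.2.2.1; 0, z.2.2.2]
  refine ⟨((Finset.univ ×ˢ I ×ˢ I ×ˢ I).image f).filter fun η => 0 < η.det ∧ η.det ∣ δ,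
    fun η hη => (Finset.mem_filter.1 hη).2, fun ξ h hd => ?_⟩
  obtain ⟨γ, a, d, b, ha, hd0, had, hξ⟩ := act_hnf h
  have ha' : (0 : ℤ) < a := by exact_mod_cast ha
  have hd' : (0 : ℤ) < d := by exact_mod_cast hd0
  have hle : (a : ℤ) * d ≤ |δ| := by
    rw [had]
    exact Int.le_of_dvd (abs_pos.2 hδ) ((dvd_abs _ _).2 hd)
  have h1 : (a : ℤ) ≤ |δ| := by nlinarith
  have h2 : (d : ℤ) ≤ |δ| := by nlinarith
  have h3 := Int.emod_nonneg b hd'.ne'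
  have h4 := Int.emod_lt_of_pos b hd'
  let T : SL(2, ℤ) := ⟨!![1, b / d; 0, 1], by rw [Matrix.det_fin_two_of]; ring⟩
  have hT : (!![(a : ℤ), b; 0, (d : ℤ)] : MZ) = (T : MZ) * !![(a : ℤ), b % d; 0, (d : ℤ)] := by
    change _ = (!![1, b / d; 0, 1] : MZ) * _
    have := Int.emod_add_ediv_mul b d
    ext i j
    fin_cases i <;> fin_cases j <;> simp [Matrix.mul_apply, Fin.sum_univ_two, this]
  let q : SL(2, ℤ) ⧸ CongruenceSubgroup.Gamma N := ((γ * T : SL(2, ℤ)) : _ ⧸ _)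
  have hq : γ * T / q.out ∈ CongruenceSubgroup.Gamma N :=
    QuotientGroup.eq_iff_div_mem.1 (QuotientGroup.out_eq' q).symm
  have he : ξ = ((γ * T / q.out : SL(2, ℤ)) : MZ) * f (q, a, b % d, d) := by
    change _ = _ * (((q.out : SL(2, ℤ)) : MZ) * !![(a : ℤ), b % d; 0, (d : ℤ)])
    rw [← mul_assoc, ← Matrix.SpecialLinearGroup.coe_mul, div_mul_cancel,
      Matrix.SpecialLinearGroup.coe_mul, mul_assoc, ← hT, ← hξ]
  have hdet : (f (q, a, b % d, d)).det = ξ.det := by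
    conv_rhs => rw [he, Matrix.det_mul, Matrix.SpecialLinearGroup.det_coe, one_mul]
  refine ⟨f (q, a, b % d, d), Finset.mem_filter.2 ⟨Finset.mem_image_of_mem f ?_, ?_⟩, _, hq, he⟩
  · simp only [Finset.mem_product, Finset.mem_univ, true_and, I, Finset.mem_Icc]
    exact ⟨⟨ha'.le, h1⟩, ⟨h3, h4.le.trans h2⟩, hd'.le, h2⟩
  · rw [hdet]; exact ⟨h, hd⟩

/-- A point of large discriminant is fixed only by plus or minus one. -/
theorem HasDisc.stab {τ : ℍ} {D : ℤ} (h : HasDisc τ D) (hD : D < -4) {γ : SL(2, ℤ)}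
    (hγ : γ • τ = τ) : γ = 1 ∨ γ = -1 := by
  obtain ⟨A, B, C, -, hg, hq, rfl⟩ := h
  obtain ⟨u, v, w, hb⟩ := ord_bezout hg
  have e := sl_den_mul_lat γ τ
  rw [hγ] at e
  have hdet := γ.det_coe
  rw [Matrix.det_fin_two] at hdet
  obtain ⟨h1, h2⟩ := int_indep_lat τ (p := A * (γ 1 1 - γ 0 0) - γ 1 0 * B)
    (q := -A * γ 0 1 - γ 1 0 * C) (by push_cast; linear_combination A * e - γ 1 0 * hq)
  obtain ⟨h3, h4⟩ := int_indep_lat τ (p := (γ 1 1 - γ 0 0) * C + γ 0 1 * B) (q := 0) (by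
    have hτ : (τ : ℂ) ≠ 0 := τ.ne_zero
    have h1' : (A : ℂ) * (γ 1 1 - γ 0 0) - γ 1 0 * B = 0 := by exact_mod_cast h1
    have h2' : -(A : ℂ) * γ 0 1 - γ 1 0 * C = 0 := by exact_mod_cast h2
    push_cast
    linear_combination C * e + γ 0 1 * hq + (τ : ℂ) ^ 2 * h2')
  obtain ⟨t, ht⟩ : ∃ t, t = u * γ 1 0 + v * (γ 1 1 - γ 0 0) - w * γ 0 1 := ⟨_, rfl⟩
  have k1 : γ 1 0 = t * A := by rw [ht]; linear_combination (-γ 1 0) * hb - v * h1 - w * h2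
  have k2 : γ 1 1 - γ 0 0 = t * B := by
    rw [ht]; linear_combination (-(γ 1 1 - γ 0 0)) * hb + u * h1 + w * h3
  have k3 : -γ 0 1 = t * C := by rw [ht]; linear_combination γ 0 1 * hb + u * h2 - v * h3
  have k4 : (γ 0 0 + γ 1 1) ^ 2 - 4 = t ^ 2 * (B ^ 2 - 4 * A * C) := by
    have k3' : γ 0 1 = -(t * C) := by linear_combination -k3
    have k2' : γ 1 1 = γ 0 0 + t * B := by linear_combination k2
    rw [k1, k3', k2'] at hdet
    rw [k2']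
    linear_combination 4 * hdet
  have ht0 : t = 0 := by
    by_contra hne
    have h5 : 0 < t ^ 2 := by positivity
    nlinarith [sq_nonneg (γ 0 0 + γ 1 1)]
  rw [ht0, zero_mul] at k1 k2 k3
  have k5 : γ 0 1 = 0 := by linear_combination -k3
  have k6 : γ 1 1 = γ 0 0 := by linear_combination k2
  rw [k1, k5, k6, mul_zero, sub_zero] at hdet
  rcases Int.eq_one_or_neg_one_of_mul_eq_one hdet with k7 | k7
  · left
    ext i j
    fin_cases i <;> fin_cases j <;> simp [k1, k5, k6, k7]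
  · right
    ext i j
    fin_cases i <;> fin_cases j <;> simp [k1, k5, k6, k7]

end Pool.Agent.EQ
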