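import Pool.Agent.P.MP_ad7a55_nt.VTc

/-! Averages over finite sets of points of the curve of full level. -/

set_option autoImplicit false

noncomputable section

open MeasureTheory Topology Filter UpperHalfPlane
open scoped MatrixGroups ENNReal BoundedContinuousFunction

namespace Pool.Agent.EQ

theorem vav_range {G α : Type} (f f' : G → α) (h : ∀ g g', f g = f g' ↔ f' g = f' g') :
    (Set.range f).ncard = (Set.range f').ncard := by
  have e : Setoid.ker f = Setoid.ker f' := Setoid.ext h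
  rw [← Nat.card_coe_set_eq, ← Nat.card_coe_set_eq,
    ← Nat.card_congr (Setoid.quotientKerEquivRange f),
    ← Nat.card_congr (Setoid.quotientKerEquivRange f'), e]

theorem avg_cls {X G α β : Type} (W : Set X) (a : G → X → X) (π₀ : X → α) (π₁ : X → β)
    (r : G → G → Prop) (hW : ∀ g, ∀ w ∈ W, a g w ∈ W)
    (h1 : ∀ w ∈ W, ∀ w' ∈ W, π₁ w = π₁ w' ↔ ∃ g, π₀ w' = π₀ (a g w))
    (h0 : ∀ w ∈ W, ∀ g g', π₀ (a g w) = π₀ (a g' w) ↔ r g g') (hf : (π₀ '' W).Finite)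
    (G₀ : α → ℝ) (G₁ : β → ℝ) (hG : ∀ w ∈ W, G₀ (π₀ w) = G₁ (π₁ w)) :
    avg (fO (π₀ '' W)) G₀ = avg (fO (π₁ '' W)) G₁ := by
  classical
  rcases W.eq_empty_or_nonempty with rfl | ⟨w₀, hw₀⟩
  · simp [avg, fO]
  let P : α → β := fun y => if h : ∃ w ∈ W, π₀ w = y then π₁ h.choose else π₁ w₀
  have hP : ∀ w ∈ W, P (π₀ w) = π₁ w := fun w hw => by
    have h : ∃ w' ∈ W, π₀ w' = π₀ w := ⟨w, hw, rfl⟩
    obtain ⟨g, hg⟩ := (h1 w hw w hw).1 rfl
    simp only [P, dif_pos h]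
    exact ((h1 w hw _ h.choose_spec.1).2 ⟨g, h.choose_spec.2.trans hg⟩).symm
  have hf1 : (π₁ '' W).Finite := (hf.image P).subset (by
    rintro _ ⟨w, hw, rfl⟩
    exact ⟨_, ⟨w, hw, rfl⟩, hP w hw⟩)
  have hfib : ∀ w ∈ W, {y | y ∈ fO (π₀ '' W) ∧ P y = π₁ w} =
      Set.range fun g => π₀ (a g w) := fun w hw => by
    ext y
    constructor
    · rintro ⟨hy, e⟩
      obtain ⟨w', hw', rfl⟩ := (mem_fO hf).1 hy
      rw [hP w' hw'] at e
      obtain ⟨g, hg⟩ := (h1 w hw w' hw').1 e.symm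
      exact ⟨g, hg.symm⟩
    · rintro ⟨g, rfl⟩
      exact ⟨(mem_fO hf).2 ⟨_, hW g w hw, rfl⟩,
        (hP _ (hW g w hw)).trans ((h1 w hw _ (hW g w hw)).2 ⟨g, rfl⟩).symm⟩
  have hc : 0 < (Set.range fun g => π₀ (a g w₀)).ncard := by
    refine (Set.ncard_pos (hf.subset ?_)).2 ?_
    · rintro _ ⟨g, rfl⟩
      exact ⟨_, hW g w₀ hw₀, rfl⟩
    · obtain ⟨g, -⟩ := (h1 w₀ hw₀ w₀ hw₀).1 rfl
      exact ⟨_, g, rfl⟩
  rw [← avg_fiber (fO (π₀ '' W)) (fO (π₁ '' W)) P ?_ hc ?_ G₁]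
  · unfold avg
    congr 1
    refine Finset.sum_congr rfl fun y hy => ?_
    obtain ⟨w, hw, rfl⟩ := (mem_fO hf).1 hy
    rw [hG w hw, ← hP w hw]
  · intro y hy
    obtain ⟨w, hw, rfl⟩ := (mem_fO hf).1 hy
    exact (mem_fO hf1).2 ⟨w, hw, (hP w hw).symm⟩
  · intro b hb
    obtain ⟨w, hw, rfl⟩ := (mem_fO hf1).1 hb
    rw [hfib w hw]
    exact vav_range _ _ fun g g' => (h0 w hw g g').trans (h0 w₀ hw₀ g g').symm

variable {n N : ℕ}

def mkN (N : ℕ) (w : Fin n → ℍ) : Fin n → YG (CongruenceSubgroup.Gamma N) :=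
  fun k => Quotient.mk _ (w k)

def AvW (N : ℕ) (W : Set (Fin n → ℍ)) (g : (Fin n → ℍ) → ℝ) : ℝ :=
  avg (fO (mkN N '' W)) fun y => g fun k => (y k).out

theorem vav_mk {Γ : Subgroup SL(2, ℤ)} {τ τ' : ℍ} :
    (Quotient.mk _ τ : YG Γ) = Quotient.mk _ τ' ↔ ∃ δ ∈ Γ, τ = δ • τ' := by
  rw [Quotient.eq, MulAction.orbitRel_apply]
  constructor
  · rintro ⟨δ, h⟩
    exact ⟨δ, δ.2, h.symm⟩
  · rintro ⟨δ, hδ, h⟩
    exact ⟨⟨δ, hδ⟩, h.symm⟩

theorem vav_mkN {w w' : Fin n → ℍ} :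
    mkN N w = mkN N w' ↔ ∀ k, ∃ δ ∈ CongruenceSubgroup.Gamma N, w k = δ • w' k := by
  rw [funext_iff]
  exact forall_congr' fun k => vav_mk

theorem vav_out (w : Fin n → ℍ) : ∃ δ : Fin n → SL(2, ℤ),
    (∀ k, δ k ∈ CongruenceSubgroup.Gamma N) ∧ (fun k => (mkN N w k).out) = fun k => δ k • w k := by
  have h : mkN N (fun k => (mkN N w k).out) = mkN N w := funext fun k => Quotient.out_eq _
  choose δ h1 h2 using vav_mkN.1 h
  exact ⟨δ, h1, funext h2⟩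

theorem vav_cls {ε ε' : SL(2, ℤ)} (h : (ε : SL(2, ℤ) ⧸ CongruenceSubgroup.Gamma N) = ε') :
    ∃ δ ∈ CongruenceSubgroup.Gamma N, ε = δ * ε' := by
  have h1 : ε'⁻¹ * ε ∈ CongruenceSubgroup.Gamma N := QuotientGroup.eq.1 h.symm
  exact ⟨_, (CongruenceSubgroup.Gamma_normal N).conj_mem _ h1 ε', by group⟩

theorem finite_mkN (hN : 0 < N) {W : Set (Fin n → ℍ)} {Z : Set (Fin n → ℂ)} (hZ : Z.Finite)
    (h : ∀ w ∈ W, (fun k => jInv (w k)) ∈ Z) : (mkN N '' W).Finite := by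
  have : NeZero N := ⟨hN.ne'⟩
  have key : ∀ c : ℂ, {y : YG (CongruenceSubgroup.Gamma N) |
      ∃ τ, Quotient.mk _ τ = y ∧ jInv τ = c}.Finite := fun c => by
    by_cases hc : ∃ τ, jInv τ = c
    · obtain ⟨τ₀, rfl⟩ := hc
      refine (Set.finite_range fun q : SL(2, ℤ) ⧸ CongruenceSubgroup.Gamma N =>
        (Quotient.mk _ (q.out • τ₀) : YG (CongruenceSubgroup.Gamma N))).subset ?_
      rintro _ ⟨τ, rfl, e⟩
      obtain ⟨γ, rfl⟩ := jInv_inj e.symm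
      obtain ⟨δ, hδ, e'⟩ := vav_cls (QuotientGroup.out_eq'
        (γ : SL(2, ℤ) ⧸ CongruenceSubgroup.Gamma N))
      exact ⟨(γ : SL(2, ℤ) ⧸ CongruenceSubgroup.Gamma N), vav_mk.2 ⟨δ, hδ, by rw [e', mul_smul]⟩⟩
    · refine Set.finite_empty.subset ?_
      rintro _ ⟨τ, -, e⟩
      exact hc ⟨τ, e⟩
  refine (hZ.biUnion fun z _ => Set.Finite.pi' fun k => key (z k)).subset ?_
  rintro _ ⟨w, hw, rfl⟩
  exact Set.mem_biUnion (h w hw) fun k => ⟨w k, rfl, rfl⟩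

theorem avW_eq (Λ : Fin n → Subgroup SL(2, ℤ)) (hΛ : ∀ k, CongruenceSubgroup.Gamma N ≤ Λ k)
    {W : Set (Fin n → ℍ)} (hf : (mkN N '' W).Finite)
    (hW : ∀ γ : Fin n → SL(2, ℤ), (∀ k, γ k ∈ Λ k) → ∀ w ∈ W, (fun k => γ k • w k) ∈ W)
    (hs : ∀ w ∈ W, ∀ (k : Fin n) (γ : SL(2, ℤ)), γ • w k = w k → γ = 1 ∨ γ = -1)
    {β : Type} (π : (Fin n → ℍ) → β)
    (hπ : ∀ w ∈ W, ∀ w' ∈ W, π w = π w' ↔ ∀ k, ∃ γ ∈ Λ k, w' k = γ • w k)
    (g : (Fin n → ℍ) → ℝ) (G : β → ℝ) (hG : ∀ w ∈ W, g w = G (π w)) :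
    AvW N W g = avg (fO (π '' W)) G := by
  refine avg_cls (G := {γ : Fin n → SL(2, ℤ) // ∀ k, γ k ∈ Λ k}) W
    (fun γ w k => γ.1 k • w k) (mkN N) π
    (fun γ γ' => ∀ k, ∃ δ ∈ CongruenceSubgroup.Gamma N,
      (γ.1 k)⁻¹ * δ * γ'.1 k = 1 ∨ (γ.1 k)⁻¹ * δ * γ'.1 k = -1)
    (fun γ w hw => hW γ.1 γ.2 w hw) (fun w hw w' hw' => ?_) (fun w hw γ γ' => ?_) hf _ G
    fun w hw => ?_
  · rw [hπ w hw w' hw']
    constructor
    · intro h
      choose γ h1 h2 using h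
      exact ⟨⟨γ, h1⟩, congrArg (mkN N) (funext h2)⟩
    · rintro ⟨γ, h⟩ k
      obtain ⟨δ, hδ, e⟩ := vav_mkN.1 h k
      exact ⟨δ * γ.1 k, mul_mem (hΛ k hδ) (γ.2 k), by rw [e, mul_smul]⟩
  · rw [vav_mkN]
    refine forall_congr' fun k => exists_congr fun δ => and_congr_right fun _ => ?_
    have e : γ.1 k • w k = δ • γ'.1 k • w k ↔ ((γ.1 k)⁻¹ * δ * γ'.1 k) • w k = w k := by
      rw [mul_smul, mul_smul, inv_smul_eq_iff, eq_comm]
    rw [e]
    refine ⟨hs w hw k _, ?_⟩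
    rintro (h | h)
    · rw [h, one_smul]
    · rw [h, ModularGroup.SL_neg_smul, one_smul]
  · obtain ⟨δ, h1, h2⟩ := vav_out (N := N) w
    have h3 := hW δ (fun k => hΛ k (h1 k)) w hw
    change g (fun k => (mkN N w k).out) = _
    rw [h2, hG _ h3, (hπ w hw _ h3).2 fun k => ⟨δ k, hΛ k (h1 k), rfl⟩]

theorem avW_smul {W : Set (Fin n → ℍ)} (hf : (mkN N '' W).Finite) (γ : Fin n → SL(2, ℤ))
    (hW : ∀ w ∈ W, (fun k => γ k • w k) ∈ W) {g : (Fin n → ℍ) → ℝ}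
    (hg : ∀ δ : Fin n → SL(2, ℤ), (∀ k, δ k ∈ CongruenceSubgroup.Gamma N) →
      ∀ w, g (fun k => δ k • w k) = g w) :
    AvW N W (fun w => g fun k => γ k • w k) = AvW N W g := by
  have hn := CongruenceSubgroup.Gamma_normal N
  let T : (Fin n → YG (CongruenceSubgroup.Gamma N)) → Fin n → YG (CongruenceSubgroup.Gamma N) :=
    fun y => mkN N fun k => γ k • (y k).out
  have hm : Set.MapsTo T (mkN N '' W) (mkN N '' W) := by
    rintro _ ⟨w, hw, rfl⟩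
    refine ⟨_, hW w hw, Eq.symm (vav_mkN.2 fun k => ?_)⟩
    obtain ⟨δ, h1, h2⟩ := vav_out (N := N) w
    refine ⟨_, hn.conj_mem _ (h1 k) (γ k), ?_⟩
    rw [show (mkN N w k).out = δ k • w k from congrFun h2 k, mul_smul, mul_smul, inv_smul_smul]
  have hi : Function.Injective T := fun y y' h => funext fun k => by
    obtain ⟨δ, h1, h2⟩ := vav_mkN.1 h k
    rw [← Quotient.out_eq (y k), ← Quotient.out_eq (y' k)]
    refine vav_mk.2 ⟨_, hn.conj_mem _ h1 (γ k)⁻¹, ?_⟩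
    rw [inv_inv, mul_smul, mul_smul, ← h2, inv_smul_smul]
  have hb := (hf.injOn_iff_bijOn_of_mapsTo hm).1 hi.injOn
  have hc : (↑(fO (mkN N '' W)) : Set _) = mkN N '' W := Set.ext fun _ => mem_fO hf
  unfold AvW avg
  congr 1
  refine Finset.sum_nbij T (fun y hy => (mem_fO hf).2 (hm ((mem_fO hf).1 hy))) hi.injOn
    (by rw [hc]; exact hb.surjOn) fun y _ => ?_
  obtain ⟨δ, h1, h2⟩ := vav_out (N := N) fun k => γ k • (y k).out
  change _ = g fun k => (mkN N (fun k => γ k • (y k).out) k).out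
  rw [h2, hg δ h1]

theorem vav_lin (W : Set (Fin n → ℍ)) {ι : Type} [Fintype ι] (C : ℝ)
    (f : ι → (Fin n → ℍ) → ℝ) :
    AvW N W (fun w => C * ∑ c, f c w) = C * ∑ c, AvW N W (f c) := by
  unfold AvW avg
  rw [← Finset.mul_sum, Finset.sum_comm, ← Finset.sum_div, mul_div_assoc]

theorem exists_tc (hN : 0 < N) (F : IntermediateField ℚ ℂ) (a : Fin n → (ℍ →ᵇ ℝ))
    (ha : ∀ k, GInv N (a k) ∧ CSp (a k)) : ∃ φ : Fin n → (ℍ →ᵇ ℝ),
      (∀ k, Tc N F (φ k) ∧ IN N (φ k) = IN N (a k)) ∧ ∀ W : Set (Fin n → ℍ),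
        (mkN N '' W).Finite →
        (∀ γ : Fin n → SL(2, ℤ), (∀ k, γ k ∈ G0 N F) → ∀ w ∈ W, (fun k => γ k • w k) ∈ W) →
        AvW N W (fun w => ∏ k, a k (w k)) = AvW N W fun w => ∏ k, φ k (w k) := by
  classical
  have : NeZero N := ⟨hN.ne'⟩
  have hn := CongruenceSubgroup.Gamma_normal N
  have := mH_prob (Γ := CongruenceSubgroup.Gamma N)
  let H := (G0 N F).map (QuotientGroup.mk' (CongruenceSubgroup.Gamma N))
  have : Fintype H := Fintype.ofFinite _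
  have hex : ∀ c : H, ∃ ρ ∈ G0 N F, (ρ : SL(2, ℤ) ⧸ CongruenceSubgroup.Gamma N) = c.1 :=
    fun c => c.2
  choose ρ hρ hρ' using hex
  have hc : (Fintype.card H : ℝ) ≠ 0 := by exact_mod_cast Fintype.card_ne_zero
  let φ : Fin n → (ℍ →ᵇ ℝ) := fun k => (Fintype.card H : ℝ)⁻¹ • ∑ c : H, cact (a k) (ρ c : MZ)
  have hφ : ∀ k τ, φ k τ = (Fintype.card H : ℝ)⁻¹ * ∑ c : H, a k (ρ c • τ) := fun k τ => by
    simp only [φ, BoundedContinuousFunction.smul_apply, smul_eq_mul,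
      BoundedContinuousFunction.sum_apply, cact_apply, act_SL]
  refine ⟨φ, fun k => ⟨⟨fun γ hγ τ => ?_, ?_⟩, ?_⟩, fun W hf hW => ?_⟩
  · rw [hφ, hφ, ← Equiv.sum_comp (Equiv.mulRight (⟨_, γ, hγ, rfl⟩ : H)) fun c => a k (ρ c • τ)]
    congr 1
    refine Finset.sum_congr rfl fun c _ => ?_
    obtain ⟨δ, hδ, e⟩ := vav_cls (N := N) (ε := ρ (Equiv.mulRight (⟨_, γ, hγ, rfl⟩ : H) c))
      (ε' := ρ c * γ) (by rw [hρ', QuotientGroup.mk_mul, hρ']; rfl)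
    rw [e, mul_smul, (ha k).1 δ hδ, mul_smul]
  · obtain ⟨K, hK, h⟩ := (ha k).2
    refine ⟨K, hK, fun τ hτ => ?_⟩
    rw [hφ] at hτ
    obtain ⟨c, -, h1⟩ := Finset.exists_ne_zero_of_sum_ne_zero (right_ne_zero_of_mul hτ)
    obtain ⟨γ, h2⟩ := h _ h1
    exact ⟨γ * ρ c, by rwa [mul_smul]⟩
  · have h1 : ∀ c : H, ∫ τ, a k (ρ c • τ) ∂mH (CongruenceSubgroup.Gamma N) = IN N (a k) :=
      fun c => by
        have h := map_mH_smul (Γ := CongruenceSubgroup.Gamma N) (ρ c) (π := a k)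
          (a k).continuous.measurable (ha k).1
        have e1 := integral_map (μ := mH (CongruenceSubgroup.Gamma N))
          (φ := fun τ => a k (ρ c • τ)) (f := fun t : ℝ => t)
          ((a k).continuous.measurable.comp (vme_smul_meas _)).aemeasurable aestronglyMeasurable_id
        have e2 := integral_map (μ := mH (CongruenceSubgroup.Gamma N)) (φ := a k)
          (f := fun t : ℝ => t) (a k).continuous.measurable.aemeasurable aestronglyMeasurable_id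
        rw [← e1, h, e2, IN]
    have h2 : ∀ c : H, Integrable (fun τ => a k (ρ c • τ)) (mH (CongruenceSubgroup.Gamma N)) :=
      fun c => by
        have := (cact (a k) (ρ c : MZ)).integrable (mH (CongruenceSubgroup.Gamma N))
        refine this.congr (Eventually.of_forall fun τ => ?_)
        rw [cact_apply, act_SL]
    rw [IN]
    simp only [hφ]
    rw [integral_const_mul, integral_finsetSum _ fun c _ => h2 c]
    simp only [h1, Finset.sum_const, Finset.card_univ, nsmul_eq_mul]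
    rw [← mul_assoc, inv_mul_cancel₀ hc, one_mul]
  · have h1 : ∀ w : Fin n → ℍ, ∏ k, φ k (w k) = ((Fintype.card H : ℝ) ^ n)⁻¹ *
        ∑ c : Fin n → H, ∏ k, a k (ρ (c k) • w k) := fun w => by
      simp only [hφ]
      rw [Finset.prod_mul_distrib, Finset.prod_const, Finset.card_univ, Fintype.card_fin, inv_pow,
        Fintype.prod_sum]
    have h2 : ∀ c : Fin n → H, AvW N W (fun w => ∏ k, a k (ρ (c k) • w k)) =
        AvW N W fun w => ∏ k, a k (w k) := fun c =>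
      avW_smul hf (fun k => ρ (c k)) (hW _ fun k => hρ _) (g := fun w => ∏ k, a k (w k))
        fun δ hδ w => Finset.prod_congr rfl fun k _ => (ha k).1 _ (hδ k) _
    simp only [h1]
    rw [vav_lin]
    simp only [h2, Finset.sum_const, Finset.card_univ, nsmul_eq_mul, Fintype.card_fun,
      Fintype.card_fin, Nat.cast_pow]
    rw [← mul_assoc, inv_mul_cancel₀ (pow_ne_zero _ hc), one_mul]

end Pool.Agent.EQ
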