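import Pool.Agent.P.MP_ad7a55_nt.VRg
import Pool.Agent.P.MP_ad7a55_nt.Block
import Pool.Agent.P.MP_ad7a55_nt.UMain

/-! Unipotent orbits on the covering space. -/

set_option autoImplicit false

noncomputable section

open MeasureTheory Topology Filter UpperHalfPlane
open scoped MatrixGroups ENNReal BoundedContinuousFunction

namespace Pool.Agent.EQ

variable {p : ℕ} [Fact p.Prime] {N : ℕ}

instance vbk_prob {κ : Type} [Fintype κ] (d : κ → ℚ_[p]) (r : ℤ) (x : κ → XN p N) :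
    IsProbabilityMeasure (orb (uflN p N d) r x) := instProborb _ _ _

theorem vbk_cont {κ : Type} (s : ℚ_[p]) :
    Continuous fun z : (κ → ℚ_[p]) × (κ → XN p N) => uflN p N z.1 s z.2 :=
  continuous_pi fun k =>
    ((continuous_uP p).comp (((continuous_apply k).comp continuous_fst).mul continuous_const)).smul
      ((continuous_apply k).comp continuous_snd)

theorem vbk_inv {κ : Type} [Fintype κ] {L : Filter ℕ} [L.NeBot] (x : ℕ → κ → XN p N)
    (d : ℕ → κ → ℚ_[p]) (e : κ → ℚ_[p]) (hd : Tendsto d L (𝓝 e)) (r : ℕ → ℤ)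
    (hr : Tendsto r L atTop) (ν : Measure (κ → XN p N)) [IsProbabilityMeasure ν]
    (hν : WT L (fun i => orb (uflN p N (d i)) (r i) (x i)) ν) : Inv (uflN p N e) ν := by
  intro s
  have hc : Continuous (uflN p N e s) := (uflN p N e).continuous continuous_const continuous_id
  refine WT.unique (μ := fun i => orb (uflN p N (d i)) (r i) (x i)) (L := L) ?_ hν
  intro g
  rw [integral_map hc.measurable.aemeasurable g.continuous.aestronglyMeasurable]
  have h1 := hν.param hd (g.compContinuous ⟨_, vbk_cont s⟩)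
  refine h1.congr' ?_
  filter_upwards [block_large p hr s] with i hi
  have hci : Continuous (uflN p N (d i) s) :=
    (uflN p N (d i)).continuous continuous_const continuous_id
  conv_rhs => rw [← map_orb (uflN p N (d i)) hi (x i)]
  rw [integral_map hci.measurable.aemeasurable g.continuous.aestronglyMeasurable]
  rfl

theorem vbk_cont_avg {κ : Type} [Fintype κ] (F : (κ → XN p N) →ᵇ ℝ) (a : ℤ) :
    Continuous fun z : (κ → ℚ_[p]) × (κ → XN p N) => ∫ w, F w ∂orb (uflN p N z.1) a z.2 := by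
  simp only [integral_orb _ _ _ F.continuous]
  refine continuous_of_dominated (bound := fun _ => ‖F‖) (fun z => ?_)
    (fun z => ae_of_all _ fun s => F.norm_coe_le_norm _) (integrable_const _)
    (ae_of_all _ fun s => F.continuous.comp (vbk_cont s))
  exact (F.continuous.comp
    ((uflN p N z.1).continuous continuous_id continuous_const)).aestronglyMeasurable

/-- The deviation of the ball average from a constant. -/
def vbk_dev {κ : Type} [Fintype κ] (F : (κ → XN p N) →ᵇ ℝ) (a : ℤ) (c : ℝ) :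
    ((κ → ℚ_[p]) × (κ → XN p N)) →ᵇ ℝ :=
  BoundedContinuousFunction.ofNormedAddCommGroup
    (fun z => |∫ w, F w ∂orb (uflN p N z.1) a z.2 - c|)
    ((vbk_cont_avg F a).sub continuous_const).abs (‖F‖ + |c|) fun z => by
      rw [Real.norm_eq_abs, abs_abs]
      exact (abs_sub _ _).trans (add_le_add (block_abs_le F _) le_rfl)

theorem vbk_dev_apply {κ : Type} [Fintype κ] (F : (κ → XN p N) →ᵇ ℝ) (a : ℤ) (c : ℝ)
    (t : κ → ℚ_[p]) (w : κ → XN p N) :
    vbk_dev F a c (t, w) = |∫ w, F w ∂orb (uflN p N t) a w - c| := rfl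

theorem vbk_bound {κ : Type} [Fintype κ] (F : (κ → XN p N) →ᵇ ℝ) {a r : ℤ} (har : a ≤ r) (c : ℝ)
    (t : κ → ℚ_[p]) (x : κ → XN p N) {G : ℚ_[p] → ℝ} (hG : Continuous G) {C : ℝ}
    (hC : ∀ s, |G s| ≤ C) (hinv : ∀ t s, ‖t‖ ≤ (p : ℝ) ^ a → G (t + s) = G s) :
    |∫ s, F (uflN p N t s x) * G s ∂bm p r - c * ∫ s, G s ∂bm p r| ≤
      C * ∫ w, vbk_dev F a c (t, w) ∂orb (uflN p N t) r x := by
  have hfl : Continuous fun s => uflN p N t s x := (uflN p N t).continuous continuous_id continuous_const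
  have hH : Continuous fun s => F (uflN p N t s x) := F.continuous.comp hfl
  have hD : Continuous fun w => vbk_dev F a c (t, w) :=
    (vbk_dev F a c).continuous.comp (continuous_const.prodMk continuous_id)
  have hAc : Continuous fun w => ∫ w, F w ∂orb (uflN p N t) a w := continuous_integral_orb _ a F
  have hGi : Integrable G (bm p r) :=
    Integrable.of_bound hG.aestronglyMeasurable C (ae_of_all _ hC)
  have hC0 : 0 ≤ C := (abs_nonneg _).trans (hC 0)
  rw [block_avg p har hH hG (fun s => F.norm_coe_le_norm _) hC hinv, integral_orb _ _ _ hD]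
  have h1 : ∀ s, ∫ t', F (uflN p N t (t' + s) x) ∂bm p a =
      ∫ w, F w ∂orb (uflN p N t) a (uflN p N t s x) := by
    intro s
    rw [integral_orb _ _ _ F.continuous]
    simp only [Flow.map_add]
  simp only [h1]
  have hi1 : Integrable (fun s => (∫ w, F w ∂orb (uflN p N t) a (uflN p N t s x)) * G s) (bm p r) := by
    refine Integrable.of_bound ((hAc.comp hfl).mul hG).aestronglyMeasurable (‖F‖ * C)
      (ae_of_all _ fun s => ?_)
    rw [Real.norm_eq_abs, abs_mul]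
    exact mul_le_mul (block_abs_le F _) (hC _) (abs_nonneg _) (norm_nonneg _)
  rw [← integral_const_mul, ← integral_sub hi1 (hGi.const_mul c), ← integral_const_mul,
    ← Real.norm_eq_abs]
  refine norm_integral_le_of_norm_le ?_ (ae_of_all _ fun s => ?_)
  · refine Integrable.const_mul ?_ C
    exact Integrable.of_bound (hD.comp hfl).aestronglyMeasurable ‖vbk_dev F a c‖
      (ae_of_all _ fun s => (vbk_dev F a c).norm_coe_le_norm _)
  · rw [← sub_mul, Real.norm_eq_abs, abs_mul, vbk_dev_apply, mul_comm]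
    exact mul_le_mul_of_nonneg_right (hC _) (abs_nonneg _)

theorem vbk_map {κ : Type} [Fintype κ] (d : κ → ℚ_[p]) (r : ℤ) (x : κ → XN p N) :
    (orb (uflN p N d) r x).map (covP p N) = orb (ufl p d) r (covP p N x) := by
  rw [orb, orb, Measure.map_map (continuous_covP p N).measurable (measurable_flow _ _)]
  refine congrArg (fun f => Measure.map f (bm p r)) ?_
  funext s k
  exact cov_smul p N _ _

theorem vbk_K (hN : 0 < N) {φ : ℍ →ᵇ ℝ} (hφ : GInv N φ) {a b : SL(2, ℚ_[p])}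
    (h : a * b⁻¹ ∈ KN p N) (y : XN p N) :
    φ (ptX p N (((1, a) : GG p) • y)) = φ (ptX p N (((1, b) : GG p) • y)) := by
  rw [← hφ.ptX_K hN h (((1, b) : GG p) • y), ← mul_smul, Prod.mk_mul_mk, one_mul,
    inv_mul_cancel_right]

theorem lift_U (hN : 0 < N) {κ : Type} [Fintype κ] (𝒰 : Ultrafilter ℕ)
    (h𝒰 : (𝒰 : Filter ℕ) ≤ atTop) (x : ℕ → κ → XN p N) (d : ℕ → κ → ℚ_[p]) (e : κ → ℚ_[p])
    (he : ∀ k, e k ≠ 0) (hd : Tendsto d 𝒰 (𝓝 e)) (r : ℕ → ℤ) (hr : Tendsto r 𝒰 atTop)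
    (h : WT 𝒰 (fun i => orb (ufl p (d i)) (r i) (covP p N (x i))) (mP p κ)) :
    WT 𝒰 (fun i => orb (uflN p N (d i)) (r i) (x i)) (mPN p N κ) := by
  obtain ⟨ν, hν1, hν, hle⟩ := exists_limN hN 𝒰 h𝒰 (fun i => orb (uflN p N (d i)) (r i) (x i))
    (fun i => orb (ufl p (d i)) (r i) (covP p N (x i))) h (C := 1) ENNReal.one_ne_top
    (Eventually.of_forall fun i => by rw [vbk_map, one_smul])
  have hI := vbk_inv x d e hd r hr ν hν
  have h1 := rig_U hN he ν ENNReal.one_ne_top hle hI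
  rw [measure_univ, one_smul] at h1
  rwa [h1] at hν

theorem block_stepN (hN : 0 < N) {κ : Type} [Fintype κ] {L : Filter ℕ} (x : ℕ → κ → XN p N)
    (d : ℕ → κ → ℚ_[p]) (e : κ → ℚ_[p]) (he : ∀ k, e k ≠ 0) (hd : Tendsto d L (𝓝 e)) (r : ℕ → ℤ)
    (hr : Tendsto r L atTop)
    (hν : WT L (fun i => orb (uflN p N (d i)) (r i) (x i)) (mPN p N κ))
    (F : (κ → XN p N) →ᵇ ℝ) (G : ℕ → ℚ_[p] → ℝ) (hG : ∀ i, Continuous (G i)) {C : ℝ}
    (hC : ∀ i s, |G i s| ≤ C)
    (hinv : ∀ a : ℕ, ∀ᶠ i in L, ∀ t s, ‖t‖ ≤ (p : ℝ) ^ (a : ℤ) → G i (t + s) = G i s) :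
    Tendsto (fun i => ∫ s, F (uflN p N (d i) s (x i)) * G i s ∂bm p (r i) -
      (∫ w, F w ∂mPN p N κ) * ∫ s, G i s ∂bm p (r i)) L (𝓝 0) := by
  have hC0 : 0 ≤ C := (abs_nonneg _).trans (hC 0 0)
  rw [Metric.tendsto_nhds]
  intro ε hε
  have hl := ((erg_mPN hN he).l1 F).const_mul C
  rw [mul_zero] at hl
  obtain ⟨a, ha⟩ := (hl.eventually (gt_mem_nhds hε)).exists
  have h1 := (hν.param hd (vbk_dev F a (∫ w, F w ∂mPN p N κ))).const_mul C
  filter_upwards [h1.eventually (gt_mem_nhds ha), hinv a, hr.eventually_ge_atTop (a : ℤ)]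
    with i h2 h3 h4
  rw [Real.dist_eq, sub_zero]
  exact (vbk_bound F h4 _ (d i) (x i) (hG i) (hC i) h3).trans_lt h2

theorem stepN (hN : 0 < N) {ι : Type} [Fintype ι] [DecidableEq ι] (𝒰 : Ultrafilter ℕ)
    (h𝒰 : (𝒰 : Filter ℕ) ≤ atTop) (x : ℕ → ι → XN p N) (a : ℕ → ι → SL(2, ℚ_[p]))
    (ha : ∀ i k, a i k ∈ Kp p) (d : ℕ → ι → ℚ_[p]) (e : ι → ℚ_[p])
    (I J : Finset ι) (hJ : J ⊆ I) (he : ∀ k ∈ J, e k ≠ 0) (he' : ∀ k ∈ I, k ∉ J → e k = 0)
    (hd : ∀ k ∈ I, Tendsto (fun i => d i k) 𝒰 (𝓝 (e k))) (r : ℕ → ℤ) (hr : Tendsto r 𝒰 atTop)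
    (hT : ∀ k ∈ J, Tt p 𝒰 (fun i => cov p N (x i k)) (fun i => d i k) r)
    (hE : ∀ k ∈ J, ∀ l ∈ J, k ≠ l → NoExc p 𝒰 (fun i => cov p N (x i k))
      (fun i => cov p N (x i l)) (fun i => d i k) (fun i => d i l) r)
    (φ : ι → (ℍ →ᵇ ℝ)) (hφ : ∀ k, GInv N (φ k)) :
    Tendsto (fun i =>
      ∫ s, ∏ k ∈ I, φ k (ptX p N (((1, a i k) : GG p) • uP p (d i k * s) • x i k)) ∂bm p (r i) -
      (∏ k ∈ J, IN N (φ k)) * ∫ s, ∏ k ∈ I \ J,
        φ k (ptX p N (((1, a i k) : GG p) • uP p (d i k * s) • x i k)) ∂bm p (r i)) 𝒰 (𝓝 0) := by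
  have hp : (0 : ℝ) < p := by exact_mod_cast (Fact.out : p.Prime).pos
  have hNn : (0 : ℝ) < ‖(N : ℚ_[p])‖ := norm_pos_iff.2 (Nat.cast_ne_zero.2 hN.ne')
  obtain ⟨R, -, hR⟩ := KN_reps (p := p) hN
  choose b hbR hb using fun k => ultra_fin 𝒰 R (P := fun i c => a i k * c⁻¹ ∈ KN p N)
    (Eventually.of_forall fun i => hR _ (ha i k))
  have hdJ : Tendsto (fun i (k : J) => d i k) 𝒰 (𝓝 fun k : J => e k) :=
    tendsto_pi_nhds.2 fun k => hd k (hJ k.2)
  have hν0 := block p (κ := J) 𝒰 h𝒰 (fun i k => cov p N (x i k)) (fun i k => d i k) (fun k => e k)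
    (fun k => he k k.2) (fun k => hd k (hJ k.2)) r hr (fun k => hT k k.2)
    (fun k l hkl => hE k k.2 l l.2 fun h => hkl (Subtype.ext h))
  have hν := lift_U hN (κ := J) 𝒰 h𝒰 (fun i k => x i k) (fun i k => d i k) (fun k => e k)
    (fun k => he k k.2) hdJ r hr hν0
  have hc : ∀ k, Continuous fun y : XN p N => φ k (ptX p N y) :=
    fun k => (hφ k).continuous hN (φ k).continuous
  let F : (J → XN p N) →ᵇ ℝ := ∏ k : J, BoundedContinuousFunction.ofNormedAddCommGroup
    (fun w : J → XN p N => φ k (ptX p N (((1, b k) : GG p) • w k)))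
    ((hc k).comp ((continuous_const_smul ((1, b k) : GG p)).comp (continuous_apply k))) ‖φ k‖
    fun w => (φ k).norm_coe_le_norm _
  have hF : ∀ w, F w = ∏ k : J, φ k (ptX p N (((1, b k) : GG p) • w k)) := by
    intro w
    simp [F]
  have hm : ∫ w, F w ∂mPN p N J = ∏ k ∈ J, IN N (φ k) := by
    simp only [hF]
    rw [integral_mPN_prod hN (fun k : J => ((1, b k) : GG p)) (φ := fun k : J => φ k)
      (fun k => hφ k), ← Finset.prod_coe_sort J]
  have h := block_stepN hN (κ := J) (fun i k => x i k) (fun i k => d i k) (fun k => e k)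
    (fun k => he k k.2) hdJ r hr hν F
    (fun i s => ∏ k ∈ I \ J, φ k (ptX p N (((1, a i k) : GG p) • uP p (d i k * s) • x i k))) ?_
    (C := ∏ k ∈ I \ J, ‖φ k‖) ?_ ?_
  · rw [hm] at h
    refine h.congr' ?_
    filter_upwards [eventually_all.2 hb] with i hi
    refine congrArg (fun t => t - _) (integral_congr_ae (ae_of_all _ fun s => ?_))
    simp only
    rw [hF, ← Finset.prod_sdiff hJ, mul_comm, ← Finset.prod_coe_sort J]
    refine congrArg (fun t => _ * t) (Finset.prod_congr rfl fun k _ => ?_)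
    exact (vbk_K hN (hφ k) (hi k) _).symm
  · intro i
    refine continuous_finsetProd _ fun k _ =>
      (hc k).comp ((continuous_const_smul ((1, a i k) : GG p)).comp ?_)
    exact ((continuous_uP p).comp (continuous_const.mul continuous_id)).smul continuous_const
  · intro i s
    rw [Finset.abs_prod]
    exact Finset.prod_le_prod (fun k _ => abs_nonneg _) fun k _ => (φ k).norm_coe_le_norm _
  · intro c
    have h1 : ∀ k ∈ I \ J, ∀ᶠ i in (𝒰 : Filter ℕ),
        ‖d i k‖ < ‖(N : ℚ_[p])‖ * ((p : ℝ) ^ (c : ℤ))⁻¹ := by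
      intro k hk
      obtain ⟨hkI, hkJ⟩ := Finset.mem_sdiff.1 hk
      have h2 := (hd k hkI).norm
      rw [he' k hkI hkJ, norm_zero] at h2
      exact h2.eventually (gt_mem_nhds (by positivity))
    filter_upwards [(Filter.eventually_all_finset _).2 h1] with i hi t s ht
    refine Finset.prod_congr rfl fun k hk => ?_
    have h3 : ‖d i k * t‖ ≤ ‖(N : ℚ_[p])‖ := by
      rw [norm_mul]
      calc ‖d i k‖ * ‖t‖ ≤ ‖(N : ℚ_[p])‖ * ((p : ℝ) ^ (c : ℤ))⁻¹ * (p : ℝ) ^ (c : ℤ) :=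
            mul_le_mul (hi k hk).le ht (norm_nonneg _) (by positivity)
        _ = _ := inv_mul_cancel_right₀ (by positivity) _
    rw [mul_add, uP_add, mul_smul, ← mul_smul ((1, a i k) : GG p)]
    have h4 : ((1, a i k) : GG p) * uP p (d i k * t) = (1, a i k * uu (d i k * t)) := by
      rw [uP, Prod.mk_mul_mk, one_mul]
    rw [h4]
    exact vbk_K hN (hφ k) (KN_conj (uu_mem_KN h3) (ha i k)) _

end Pool.Agent.EQ
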