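import Pool.Agent.P.MP_ad7a55_nt.CM
import Pool.Agent.P.MP_ad7a55_nt.Vol2

/-! Galois elements acting on all orders above a given one. -/

set_option autoImplicit false

noncomputable section

open MeasureTheory Topology Filter UpperHalfPlane
open scoped MatrixGroups ENNReal BoundedContinuousFunction

namespace Pool.Agent.EQ

theorem exists_cond {D E : ℤ} (hD : IsD D) (hE : IsD E) (h : OD E ≤ OD D) :
    ∃ g : ℕ, 0 < g ∧ E = g ^ 2 * D := by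
  obtain ⟨m, n, e⟩ := mem_sp.1 (h (ord_right 1 ((E + th E) / 2)))
  have hD' : (0 : ℝ) < -(D : ℝ) := by
    have : (D : ℝ) < 0 := by exact_mod_cast hD.1
    linarith
  have hE' : (0 : ℝ) < -(E : ℝ) := by
    have : (E : ℝ) < 0 := by exact_mod_cast hE.1
    linarith
  have h1 : Real.sqrt (-(E : ℝ)) = n * Real.sqrt (-(D : ℝ)) := by
    have h0 := congrArg Complex.im e
    have e1 : ((E + th E) / 2 : ℂ).im = Real.sqrt (-(E : ℝ)) / 2 := by simp [ord2_th_im]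
    have e2 : ((m : ℂ) * 1 + n * ((D + th D) / 2)).im = n * (Real.sqrt (-(D : ℝ)) / 2) := by
      simp [ord2_th_im]
    rw [e1, e2] at h0
    linarith
  have hn : 0 < n := by
    have h2 := Real.sqrt_pos.2 hE'
    have h3 := Real.sqrt_pos.2 hD'
    rw [h1] at h2
    have : (0 : ℝ) < n := (mul_pos_iff_of_pos_right h3).1 h2
    exact_mod_cast this
  have h4 : (E : ℝ) = (n : ℝ) ^ 2 * D := by
    have h5 := Real.sq_sqrt hE'.le
    rw [h1, mul_pow, Real.sq_sqrt hD'.le] at h5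
    linarith
  refine ⟨n.toNat, by omega, ?_⟩
  rw [Int.toNat_of_nonneg hn.le]
  exact_mod_cast h4

theorem OD_sq_mono {D E : ℤ} (hD : IsD D) (hE : IsD E) (h : OD E ≤ OD D) (f : ℕ) :
    OD (f ^ 2 * E) ≤ OD (f ^ 2 * D) := by
  obtain ⟨m, n, e⟩ := mem_sp.1 (h (ord_right 1 ((E + th E) / 2)))
  rw [OD_sq_mul hE, OD_sq_mul hD]
  refine ord_sp_le.2 ⟨ord_left _ _, mem_sp.2 ⟨f * m, n, ?_⟩⟩
  rw [e]
  push_cast
  ring

/-- The discriminant of a lattice stable under an order. -/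
theorem disc_of_modS {Λ : Lt} (hΛ : IsLat Λ) {D : ℤ} (hD : IsD D) (h : ModS D Λ) :
    ∃ D', DiscL Λ D' ∧ OD D ≤ OD D' := by
  obtain ⟨D', hD'⟩ := exists_discL hΛ (ord2_th_im_ne hD.1) (pr_mul_le.2 (h _ (th_mem_OD D)))
  exact ⟨D', hD', fun x hx => (hD'.end_iff x).1 (pr_mul_le.2 (h x hx))⟩

theorem disc_le {Λ Λ' : Lt} {D D' : ℤ} (h : DiscL Λ D) (h' : DiscL Λ' D') {m : ℕ} (hm : 0 < m)
    {c : ℂ} (hc : c ≠ 0) (h1 : pr m * Λ ≤ pr c * Λ') (h2 : pr c * Λ' ≤ Λ) : -D ≤ (m : ℤ) ^ 2 * -D' := by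
  have _ := hc
  have hx : ((D' + th D') / 2 : ℂ) ∈ OD D' := ord_right _ _
  have hr : (0 : ℝ) < -(D' : ℝ) := by
    have : (D' : ℝ) < 0 := by exact_mod_cast h'.isD.1
    linarith
  have hmx : (m : ℂ) * ((D' + th D') / 2) ∈ OD D := by
    refine (h.end_iff _).1 (pr_mul_le.2 fun w hw => h2 ?_)
    obtain ⟨w', hw', e⟩ := mem_pr_mul.1 (pr_mul_le.1 h1 w hw)
    refine mem_pr_mul.2 ⟨_, h'.modS _ hx w' hw', ?_⟩
    linear_combination ((D' + th D') / 2 : ℂ) * e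
  have e : ((m : ℂ) * ((D' + th D') / 2)).im = m * (Real.sqrt (-(D' : ℝ)) / 2) := by
    simp [ord2_th_im]
  have hm' : (0 : ℝ) < m := by exact_mod_cast hm
  have h3 := abs_le_of_mem_OD h.isD.1 hmx (by
    rw [e]
    exact (mul_pos hm' (div_pos (Real.sqrt_pos.2 hr) two_pos)).ne')
  rw [e, mul_pow, div_pow, Real.sq_sqrt hr.le] at h3
  have h4 : -(D : ℝ) ≤ (m : ℝ) ^ 2 * -(D' : ℝ) := by linarith
  exact_mod_cast h4

theorem disc_between {Λ Λ' : Lt} {D : ℤ} (h : DiscL Λ D) {N : ℕ} (hN : 0 < N)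
    (h1 : pr N * Λ ≤ Λ') (h2 : Λ' ≤ Λ) :
    ∃ D', DiscL Λ' D' ∧ OD (N ^ 2 * D) ≤ OD D' ∧ -D ≤ (N : ℤ) ^ 2 * -D' := by
  have hL : IsLat Λ' := h.isLat.of_between hN h1
    (le_trans (by exact_mod_cast pr_int_le N Λ') h2)
  have hM : ModS (N ^ 2 * D) Λ' := by
    intro x hx w hw
    rw [OD_sq_mul h.isD] at hx
    obtain ⟨a, b, rfl⟩ := mem_sp.1 hx
    have h3 : (N : ℂ) * ((D + th D) / 2 * w) ∈ Λ' :=
      pr_mul_le.1 h1 _ (h.modS _ (ord_right _ _) w (h2 hw))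
    have h4 := Λ'.add_mem (Λ'.smul_mem a hw) (Λ'.smul_mem b h3)
    have e : ((a : ℂ) * 1 + b * (N * ((D + th D) / 2))) * w =
        a • w + b • ((N : ℂ) * ((D + th D) / 2 * w)) := by
      simp only [zsmul_eq_mul]
      ring
    rw [e]
    exact h4
  obtain ⟨D', hD', hle⟩ := disc_of_modS hL (cm_isD_sq h.isD hN) hM
  exact ⟨D', hD', hle, disc_le h hD' hN one_ne_zero (by rwa [pr_one_mul]) (by rwa [pr_one_mul])⟩

theorem cm_pow2 (F : IntermediateField ℚ ℂ) [FiniteDimensional ℚ F] (n : ℕ) : ∃ M : ℕ, 0 < M ∧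
    ∀ (l : ℕ) [Fact l.Prime] (E : ℤ), E < -576 → IsD E → ∀ T : Finset ℤ, T.card ≤ n →
      (∀ D ∈ T, D < -576 ∧ IsD D ∧ ¬ IsSquare (D * E)) → ∀ t : ℂ, InK E t →
        ∃ σ : ℂ ≃+* ℂ, (∀ a ∈ F, σ a = a) ∧
          (∀ D Λ, D < -576 → OD E ≤ OD D → DiscL Λ D → σ (jL Λ) = jL (star l (t ^ M) Λ)) ∧
          ∀ D ∈ T, ∀ Λ, DiscL Λ D → σ (jL Λ) = jL Λ := by
  classical
  set d : ℕ := max 2 (Module.finrank ℚ F) with hd
  have hd2 : 2 ≤ d := le_max_left _ _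
  have hdF : Module.finrank ℚ F ≤ d := le_max_right _ _
  have hM : 0 < d.factorial * 2 ^ n := Nat.mul_pos d.factorial_pos (by positivity)
  refine ⟨d.factorial * 2 ^ n, hM, fun l _ E hE hE' T hTn hT t ht => ?_⟩
  have ht' : InK E (t ^ 2 ^ (n - T.card)) := cm_inK_pow hE'.1 ht _
  have htM : InK E (t ^ (d.factorial * 2 ^ n)) := cm_inK_pow hE'.1 ht _
  obtain ⟨σ, hσ, hact, hfix⟩ := realize hd2 hE T hT (discL_star l (discL_OD hE') ht')
  obtain ⟨k, hk⟩ : ∃ k, d.factorial * 2 ^ T.card = k + 1 :=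
    Nat.exists_eq_succ_of_ne_zero (Nat.mul_pos d.factorial_pos (by positivity)).ne'
  have hexp : 2 ^ (n - T.card) * (k + 1) = d.factorial * 2 ^ n := by
    rw [← hk, mul_left_comm, ← pow_add, Nat.sub_add_cancel hTn]
  rw [hk, star_pow l hE' ht', ← pow_mul, hexp] at hact
  refine ⟨σ, hσ.field F hdF, fun D Λ hD hle hΛ => ?_, hfix⟩
  obtain ⟨g, hg0, e⟩ := exists_cond hΛ.isD hE' hle
  have h𝔨 := discL_star l (discL_OD hE') htM
  have hup : Acts σ D (star l (t ^ (d.factorial * 2 ^ n)) (OD E)) :=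
    Acts.up hD hΛ.isD (hσ.th hd2 hΛ.isD.1.le) hg0 (e ▸ h𝔨) (e ▸ hact)
  rw [hup Λ hΛ, star_OD_mul l hE' hΛ hle htM]

end Pool.Agent.EQ
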