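import Pool.Agent.P.MP_ad7a55_nt.VLa
import Pool.Agent.P.MP_ad7a55_nt.VCm

/-! Chains of isogenies between two lattices of the same discriminant. -/

set_option autoImplicit false

noncomputable section

open MeasureTheory Topology Filter UpperHalfPlane
open scoped MatrixGroups ENNReal BoundedContinuousFunction

namespace Pool.Agent.EQ

variable {p : ℕ} [Fact p.Prime]

theorem vch_one_lt : (1 : ℝ) < p := by exact_mod_cast (Fact.out : p.Prime).one_lt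

theorem vch_aP_add (s t : ℕ) : (aP p (s + t)).2 = (aP p s).2 * (aP p t).2 := by
  ext i j
  fin_cases i <;> fin_cases j <;> simp [aP, Matrix.mul_apply, Fin.sum_univ_two, pow_add, mul_comm]

theorem vch_aP_zero : (aP p 0).2 = 1 := by
  ext i j
  fin_cases i <;> fin_cases j <;> simp [aP]

theorem vch_mul_bd {R : ℝ} {a k k' : SL(2, ℚ_[p])} (hk : k ∈ Kp p) (hk' : k' ∈ Kp p)
    (h : ∀ i j, ‖a i j‖ ≤ R) (i j : Fin 2) : ‖(k * a * k') i j‖ ≤ R := by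
  have h1 : ∀ i j, ‖(k * a) i j‖ ≤ R := fun i j => by
    simp only [Matrix.SpecialLinearGroup.coe_mul, Matrix.mul_apply, Fin.sum_univ_two]
    refine (Padic.nonarchimedean _ _).trans (max_le ?_ ?_) <;> rw [norm_mul] <;>
      exact (mul_le_of_le_one_left (norm_nonneg _) (hk _ _)).trans (h _ _)
  generalize k * a = b at h1
  simp only [Matrix.SpecialLinearGroup.coe_mul, Matrix.mul_apply, Fin.sum_univ_two]
  refine (Padic.nonarchimedean _ _).trans (max_le ?_ ?_) <;> rw [norm_mul] <;>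
    exact (mul_le_of_le_one_right (norm_nonneg _) (hk' _ _)).trans (h1 _ _)

theorem vch_cartan {s : ℕ} {a : SL(2, ℚ_[p])} (hs : ‖a 1 1‖ ≤ (p : ℝ) ^ s)
    (h : ∀ i j, ‖a i j‖ ≤ ‖a 1 1‖) :
    ∃ t ≤ s, ∃ k ∈ Kp p, ∃ k' ∈ Kp p, a = k * (aP p t).2 * k' := by
  have hd := frame_det a
  have hp := vch_one_lt (p := p)
  have hpP : (p : ℚ_[p]) ≠ 0 := Nat.cast_ne_zero.2 (Fact.out : p.Prime).ne_zero
  have h1 : 1 ≤ ‖a 1 1‖ := by
    by_contra hlt
    push Not at hlt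
    have h2 : ‖a 0 0 * a 1 1 + -(a 0 1 * a 1 0)‖ < 1 := by
      refine (Padic.nonarchimedean _ _).trans_lt (max_lt ?_ ?_)
      · rw [norm_mul]
        exact mul_lt_one_of_nonneg_of_lt_one_right ((h _ _).trans hlt.le) (norm_nonneg _) hlt
      · rw [norm_neg, norm_mul]
        exact mul_lt_one_of_nonneg_of_lt_one_right ((h _ _).trans hlt.le) (norm_nonneg _)
          ((h _ _).trans_lt hlt)
    rw [← sub_eq_add_neg, hd, norm_one] at h2
    exact lt_irrefl _ h2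
  have h0 : a 1 1 ≠ 0 := fun e => by rw [e, norm_zero] at h1; linarith
  have hn : (0 : ℝ) < ‖a 1 1‖ := norm_pos_iff.2 h0
  have h3 := Padic.norm_eq_zpow_neg_valuation h0
  obtain ⟨t, ht⟩ : ∃ t : ℕ, -(a 1 1).valuation = t := by
    refine Int.eq_ofNat_of_zero_le ?_
    rw [h3] at h1
    exact (one_le_zpow_iff_right₀ hp).1 h1
  rw [ht, zpow_natCast] at h3
  have hu : ‖a 1 1 * (p : ℚ_[p]) ^ t‖ = 1 := by
    rw [norm_mul, Padic.norm_p_pow, h3, zpow_neg, zpow_natCast]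
    exact mul_inv_cancel₀ (by positivity)
  have hu0 : (a 1 1 * (p : ℚ_[p]) ^ t)⁻¹ ≠ 0 := inv_ne_zero (mul_ne_zero h0 (pow_ne_zero _ hpP))
  refine ⟨t, (pow_le_pow_iff_right₀ hp).1 (h3 ▸ hs), uu (a 0 1 / a 1 1), uu_mem_Kp p ?_,
    dg _ hu0 * ul (a 1 0 / a 1 1), (Kp p).mul_mem (fun i j => ?_) (ul_mem_Kp p ?_), ?_⟩
  · rw [norm_div, div_le_one hn]; exact h _ _
  · fin_cases i <;> fin_cases j
    · exact (show ‖(a 1 1 * (p : ℚ_[p]) ^ t)⁻¹‖ = 1 by rw [norm_inv, hu, inv_one]).le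
    · simp
    · simp
    · exact (show ‖(a 1 1 * (p : ℚ_[p]) ^ t)⁻¹⁻¹‖ = 1 by rw [inv_inv, hu]).le
  · rw [norm_div, div_le_one hn]; exact h _ _
  · have hq : (p : ℚ_[p]) ^ t ≠ 0 := pow_ne_zero _ hpP
    ext i j
    fin_cases i <;> fin_cases j <;> simp [aP, Matrix.mul_apply, Fin.sum_univ_two] <;> field_simp
    linear_combination hd

theorem cartan {s : ℕ} {a : SL(2, ℚ_[p])}
    (ha : Bd ((p : ℝ) ^ s) (a : Matrix (Fin 2) (Fin 2) ℚ_[p])) :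
    ∃ t ≤ s, ∃ k ∈ Kp p, ∃ k' ∈ Kp p, a = k * (aP p t).2 * k' := by
  obtain ⟨⟨i, j⟩, hm⟩ := Finite.exists_max fun x : Fin 2 × Fin 2 => ‖a x.1 x.2‖
  obtain ⟨w, hv⟩ : ∃ w : SL(2, ℚ_[p]), (w : Matrix (Fin 2) (Fin 2) ℚ_[p]) = !![0, 1; -1, 0] :=
    ⟨⟨!![0, 1; -1, 0], by simp [Matrix.det_fin_two]⟩, rfl⟩
  have hw : w ∈ Kp p := fun i j => by fin_cases i <;> fin_cases j <;> simp [hv]
  obtain ⟨k, hk, k', hk', e⟩ : ∃ k ∈ Kp p, ∃ k' ∈ Kp p, ‖(k * a * k') 1 1‖ = ‖a i j‖ := by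
    fin_cases i <;> fin_cases j
    · exact ⟨w, hw, w, hw, by
        simp [hv, Matrix.mul_apply, Fin.sum_univ_two, Matrix.vecMul, dotProduct]⟩
    · exact ⟨w, hw, 1, (Kp p).one_mem, by simp [hv, Matrix.mul_apply, Fin.sum_univ_two]⟩
    · exact ⟨1, (Kp p).one_mem, w, hw, by simp [hv, Matrix.mul_apply, Fin.sum_univ_two]⟩
    · exact ⟨1, (Kp p).one_mem, 1, (Kp p).one_mem, by simp⟩
  obtain ⟨t, ht, l, hl, l', hl', e'⟩ := vch_cartan (s := s) (a := k * a * k') (e ▸ ha i j)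
    fun i' j' => e ▸ vch_mul_bd hk hk' (fun x y => hm (x, y)) i' j'
  refine ⟨t, ht, k⁻¹ * l, (Kp p).mul_mem ((Kp p).inv_mem hk) hl, l' * k'⁻¹,
    (Kp p).mul_mem hl' ((Kp p).inv_mem hk'), ?_⟩
  calc a = k⁻¹ * (k * a * k') * k'⁻¹ := by group
    _ = _ := by rw [e']; group

/-- Vectors with prescribed `p`-adic size of the two coordinates. -/
def vchM (g : GG p) (e f : ℤ) (z : ℂ) : Prop := ∃ a b : ℚ, InZp p a ∧ InZp p b ∧
  ‖g.2 0 0 * a + g.2 0 1 * b‖ ≤ (p : ℝ) ^ e ∧ ‖g.2 1 0 * a + g.2 1 1 * b‖ ≤ (p : ℝ) ^ f ∧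
  z = frame_ph g.1 a b

theorem vch_mem {g : GG p} {i : ℕ} {z : ℂ} : z ∈ latG p (aP p i * g) ↔ vchM g i (-i) z := by
  have hp : (0 : ℝ) < p := zero_lt_one.trans vch_one_lt
  have e0 : ∀ a b : ℚ_[p], (aP p i * g).2 0 0 * a + (aP p i * g).2 0 1 * b =
      (p : ℚ_[p]) ^ i * (g.2 0 0 * a + g.2 0 1 * b) := fun a b => by
    simp [aP, Matrix.mul_apply, Fin.sum_univ_two]; ring
  have e1 : ∀ a b : ℚ_[p], (aP p i * g).2 1 0 * a + (aP p i * g).2 1 1 * b =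
      ((p : ℚ_[p]) ^ i)⁻¹ * (g.2 1 0 * a + g.2 1 1 * b) := fun a b => by
    simp [aP, Matrix.mul_apply, Fin.sum_univ_two]; ring
  have e2 : (aP p i * g).1 = g.1 := by simp [aP]
  rw [frame_mem_latG, vchM]
  simp only [e0, e1, e2, norm_mul, norm_inv, Padic.norm_p_pow, zpow_neg, inv_inv,
    inv_mul_le_iff₀ (zpow_pos hp _), mul_one, ← le_inv_mul_iff₀ (zpow_pos hp _)]

theorem vch_zero {g : GG p} {z : ℂ} : z ∈ latG p g ↔ vchM g 0 0 z := by
  rw [frame_mem_latG, vchM]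
  simp only [zpow_zero]

theorem vchM.mono {g : GG p} {e f e' f' : ℤ} {z : ℂ} (h : vchM g e f z) (he : e ≤ e') (hf : f ≤ f') :
    vchM g e' f' z := by
  obtain ⟨a, b, h1, h2, h3, h4, h5⟩ := h
  exact ⟨a, b, h1, h2, h3.trans (zpow_le_zpow_right₀ vch_one_lt.le he),
    h4.trans (zpow_le_zpow_right₀ vch_one_lt.le hf), h5⟩

theorem vchM.inter {g : GG p} {e f e' f' : ℤ} {z : ℂ} (h : vchM g e f z) (h' : vchM g e' f' z) :
    vchM g e f' z := by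
  obtain ⟨a, b, h1, h2, h3, -, h5⟩ := h
  obtain ⟨a', b', -, -, -, h4, h6⟩ := h'
  obtain ⟨rfl, rfl⟩ := frame_ph_inj g.1 (h5.symm.trans h6)
  exact ⟨a, b, h1, h2, h3, h4, h5⟩

theorem vch_scale {g : GG p} {e f : ℤ} {z : ℂ} (h : vchM g e f z) (k : ℤ) :
    vchM g (e - k) (f - k) ((p : ℂ) ^ k * z) := by
  obtain ⟨a, b, h1, h2, h3, h4, rfl⟩ := h
  have hp : (0 : ℝ) < p := zero_lt_one.trans vch_one_lt
  have hq : (p : ℚ) ≠ 0 := Nat.cast_ne_zero.2 (Fact.out : p.Prime).ne_zero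
  have hk : InZp p ((p : ℚ) ^ k) := by
    obtain ⟨n, rfl | rfl⟩ := k.eq_nat_or_neg
    · exact ⟨0, p ^ n, by simp⟩
    · exact ⟨n, 1, by simp [hq]⟩
  have e : ∀ (x y : ℚ_[p]) (r : ℤ), ‖x * a + y * b‖ ≤ (p : ℝ) ^ r →
      ‖x * (((p : ℚ) ^ k * a : ℚ) : ℚ_[p]) + y * (((p : ℚ) ^ k * b : ℚ) : ℚ_[p])‖ ≤
        (p : ℝ) ^ (r - k) := fun x y r h => by
    rw [show x * (((p : ℚ) ^ k * a : ℚ) : ℚ_[p]) + y * (((p : ℚ) ^ k * b : ℚ) : ℚ_[p]) =
      (p : ℚ_[p]) ^ k * (x * a + y * b) by push_cast; ring, norm_mul, Padic.norm_p_zpow,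
      sub_eq_neg_add, zpow_add₀ hp.ne']
    exact mul_le_mul_of_nonneg_left h (zpow_pos hp _).le
  refine ⟨_, _, hk.mul h1, hk.mul h2, e _ _ _ h3, e _ _ _ h4, ?_⟩
  rw [← frame_ph_mul]
  push_cast
  rfl

theorem vchM.up {g : GG p} {e f : ℤ} {z : ℂ} (h : vchM g e f z) (k : ℕ) :
    vchM g (e - k) (f - k) ((p : ℂ) ^ k * z) := by
  have := vch_scale h k
  rwa [zpow_natCast] at this

theorem vchM.down {g : GG p} {e f : ℤ} {z : ℂ} {k : ℕ} (h : vchM g e f ((p : ℂ) ^ k * z)) :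
    vchM g (e + k) (f + k) z := by
  have hq : (p : ℂ) ≠ 0 := Nat.cast_ne_zero.2 (Fact.out : p.Prime).ne_zero
  have := vch_scale h (-k)
  rwa [sub_neg_eq_add, sub_neg_eq_add, zpow_neg, zpow_natCast,
    inv_mul_cancel_left₀ (pow_ne_zero _ hq)] at this

theorem vch_le {Λ Λ' : Lt} {D D' : ℤ} (h : DiscL Λ D) (h' : DiscL Λ' D') (k : ℕ)
    (h1 : ∀ w ∈ Λ, (p : ℂ) ^ k * w ∈ Λ') (h2 : ∀ w ∈ Λ', (p : ℂ) ^ k * w ∈ Λ) {n : ℕ}
    (hn : 4 * k ≤ n) : -D ≤ (p : ℤ) ^ n * -D' := by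
  have hp : 0 < p := (Fact.out : p.Prime).pos
  have hq : (p : ℂ) ≠ 0 := Nat.cast_ne_zero.2 hp.ne'
  have h3 := disc_le h h' (m := p ^ (2 * k)) (pow_pos hp _) (pow_ne_zero k hq)
    (pr_mul_le.2 fun w hw => mem_pr_mul.2 ⟨_, h1 w hw, by push_cast; ring⟩) (pr_mul_le.2 h2)
  refine h3.trans (mul_le_mul_of_nonneg_right ?_ (by have := h'.isD.1; omega))
  push_cast
  rw [← pow_mul]
  exact pow_le_pow_right₀ (by exact_mod_cast hp) (by omega)

theorem chain_disc {D : ℤ} {g : GG p} {t i : ℕ} (hi : i ≤ t) (h0 : DiscL (latG p g) D)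
    (h1 : DiscL (latG p (aP p t * g)) D) : ∃ D', DiscL (latG p (aP p i * g)) D' ∧
      OD D ≤ OD D' ∧ -D ≤ (p : ℤ) ^ (2 * t) * -D' := by
  obtain ⟨j, rfl⟩ := Nat.exists_eq_add_of_le hi
  have a0 : ∀ w ∈ latG p (aP p i * g), (p : ℂ) ^ i * w ∈ latG p g := fun w hw =>
    vch_zero.2 (((vch_mem.1 hw).up i).mono (by omega) (by omega))
  have a1 : ∀ w ∈ latG p (aP p i * g), (p : ℂ) ^ j * w ∈ latG p (aP p (i + j) * g) := fun w hw =>
    vch_mem.2 (((vch_mem.1 hw).up j).mono (by push_cast; omega) (by push_cast; omega))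
  have hM : ModS D (latG p (aP p i * g)) := fun x hx w hw => by
    have b0 := vch_zero.1 (h0.modS x hx _ (a0 w hw))
    have b1 := vch_mem.1 (h1.modS x hx _ (a1 w hw))
    rw [mul_left_comm] at b0 b1
    exact vch_mem.2 ((b0.down.inter b1.down).mono (by omega) (by push_cast; omega))
  obtain ⟨D', hD', hle⟩ := disc_of_modS (latG_spec p _).1 h0.isD hM
  refine ⟨D', hD', hle, ?_⟩
  rcases le_total i j with hij | hij
  · exact vch_le h0 hD' i (fun w hw =>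
      vch_mem.2 (((vch_zero.1 hw).up i).mono (by omega) (by omega))) a0 (by omega)
  · exact vch_le h1 hD' j (fun w hw => vch_mem.2 (((vch_mem.1 hw).up j).mono
      (by push_cast; omega) (by push_cast; omega))) a1 (by omega)

theorem chain {D : ℤ} {g : GG p} {s : ℕ} {a : SL(2, ℚ_[p])} (h0 : DiscL (latG p g) D)
    (h1 : DiscL (latG p ((1, a) * g)) D)
    (ha : Bd ((p : ℝ) ^ s) (a : Matrix (Fin 2) (Fin 2) ℚ_[p])) (P : SL(2, ℚ_[p]) → Prop)
    (hP : ∀ (c b : SL(2, ℚ_[p])) (D' : ℤ), Bd (p : ℝ) (b : Matrix (Fin 2) (Fin 2) ℚ_[p]) →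
      DiscL (latG p ((1, c) * g)) D' → OD D ≤ OD D' → -D ≤ (p : ℤ) ^ (2 * s) * -D' →
      P c → P (b * c)) (h : P 1) : P a := by
  obtain ⟨t, ht, k, hk, k', hk', rfl⟩ := cartan ha
  have hp := vch_one_lt (p := p)
  have hpZ : (1 : ℤ) ≤ p := by exact_mod_cast hp.le
  have hK : ∀ k ∈ Kp p, Bd (p : ℝ) (k : Matrix (Fin 2) (Fin 2) ℚ_[p]) := fun k hk i j =>
    (hk i j).trans hp.le
  have e : ∀ i, ((1, (aP p i).2 * k') : GG p) * g = aP p i * ((1, k') * g) := fun i => by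
    rw [← mul_assoc]
    congr 1
    exact Prod.ext (by simp [aP]) rfl
  have g0 : DiscL (latG p ((1, k') * g)) D := by rwa [latG_left hk']
  have g1 : DiscL (latG p (aP p t * ((1, k') * g))) D := by
    rw [← e, ← latG_left hk, ← mul_assoc]
    have e2 : ((1, k) : GG p) * (1, (aP p t).2 * k') = (1, k * (aP p t).2 * k') :=
      Prod.ext (one_mul _) (mul_assoc _ _ _).symm
    rwa [e2]
  have step : ∀ i ≤ t, ∀ b : SL(2, ℚ_[p]), Bd (p : ℝ) (b : Matrix (Fin 2) (Fin 2) ℚ_[p]) →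
      P ((aP p i).2 * k') → P (b * ((aP p i).2 * k')) := fun i hi b hb => by
    obtain ⟨D', h2, h3, h4⟩ := chain_disc hi g0 g1
    refine hP _ b D' hb (by rwa [e]) h3 (h4.trans (mul_le_mul_of_nonneg_right
      (pow_le_pow_right₀ hpZ (by omega)) (by have := h2.isD.1; omega)))
  have ha1 : Bd (p : ℝ) ((aP p 1).2 : Matrix (Fin 2) (Fin 2) ℚ_[p]) := fun i j => by
    fin_cases i <;> fin_cases j
    · simpa [aP] using (inv_le_one_of_one_le₀ hp.le).trans hp.le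
    · simp [aP]
    · simp [aP]
    · simp [aP]
  have main : ∀ i ≤ t, P ((aP p i).2 * k') := fun i => by
    induction i with
    | zero =>
      intro _
      have h2 := hP 1 k' D (hK k' hk') (by rwa [Prod.mk_one_one, one_mul]) le_rfl
        (le_mul_of_one_le_left (by have := h0.isD.1; omega) (one_le_pow₀ hpZ)) h
      rwa [vch_aP_zero, one_mul, ← mul_one k']
    | succ i ih =>
      intro hi
      rw [add_comm, vch_aP_add, mul_assoc]
      exact step i (by omega) _ ha1 (ih (by omega))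
  rw [mul_assoc]
  exact step t le_rfl k (hK k hk) (main t le_rfl)

end Pool.Agent.EQ
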