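import Pool.Agent.P.MP_ad7a55_nt.VMf
import Pool.Agent.P.MP_ad7a55_nt.Hecke
import Pool.Agent.P.MP_ad7a55_nt.GalA

/-! Galois conjugates of points of level N. -/

set_option autoImplicit false

noncomputable section

open MeasureTheory Topology Filter UpperHalfPlane
open scoped MatrixGroups ENNReal BoundedContinuousFunction

namespace Pool.Agent.EQ

/-- The matrices that fix all modular functions of level `N`. -/
def G0 (N : ℕ) (L : IntermediateField ℚ ℂ) : Subgroup SL(2, ℤ) where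
  carrier := {γ | ∀ f ∈ MF N L, ∀ τ : ℍ, f (γ • τ) = f τ}
  one_mem' := fun f _ τ => by rw [one_smul]
  mul_mem' := fun {a b} ha hb f hf τ => by rw [mul_smul, ha f hf, hb f hf]
  inv_mem' := fun {a} ha f hf τ => by rw [← ha f hf (a⁻¹ • τ), smul_inv_smul]

variable {N : ℕ} {L : IntermediateField ℚ ℂ}

theorem Gamma_le_G0 : CongruenceSubgroup.Gamma N ≤ G0 N L := fun _ hγ _ hf τ => MF.inv hf hγ τ

theorem neg_mem_G0 : (-1 : SL(2, ℤ)) ∈ G0 N L := by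
  intro f _ τ
  rw [ModularGroup.SL_neg_smul, one_smul]

theorem G0_normal : (G0 N L).Normal := by
  refine ⟨fun n hn g f hf τ => ?_⟩
  have h := hn _ (MF.smul hf g) (g⁻¹ • τ)
  simp only [smul_inv_smul] at h
  rw [mul_smul, mul_smul, h]

/-- The cosets of the principal congruence subgroup. -/
abbrev vcjQ (N : ℕ) : Type := SL(2, ℤ) ⧸ CongruenceSubgroup.Gamma N

theorem vcj_fin (hN : 0 < N) : Finite (vcjQ N) := by
  have : NeZero N := ⟨hN.ne'⟩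
  exact Subgroup.finite_quotient_of_finiteIndex

theorem vcj_mk {f : ℍ → ℂ} (hf : f ∈ MF N L) (g : SL(2, ℤ)) (τ : ℍ) :
    f ((QuotientGroup.mk g : vcjQ N).out⁻¹ • τ) = f (g⁻¹ • τ) := by
  obtain ⟨h, e⟩ := QuotientGroup.mk_out_eq_mul (CongruenceSubgroup.Gamma N) g
  rw [e, mul_inv_rev, mul_smul, MF.inv hf (inv_mem h.2)]

theorem vcj_one {f : ℍ → ℂ} (hf : f ∈ MF N L) (τ : ℍ) :
    f ((QuotientGroup.mk 1 : vcjQ N).out⁻¹ • τ) = f τ := by
  rw [vcj_mk hf, inv_one, one_smul]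

theorem vcj_shift {f : ℍ → ℂ} (hf : f ∈ MF N L) (γ : SL(2, ℤ)) (c : vcjQ N) (τ : ℍ) :
    f (c.out⁻¹ • γ • τ) = f ((MulAction.toPerm γ⁻¹ c).out⁻¹ • τ) := by
  have e : MulAction.toPerm γ⁻¹ c = (QuotientGroup.mk (γ⁻¹ * c.out) : vcjQ N) :=
    (MulAction.Quotient.mk_smul_out (CongruenceSubgroup.Gamma N) γ⁻¹ c).symm
  rw [e, vcj_mk hf, mul_inv_rev, inv_inv, mul_smul]

theorem vcj_eval {σ : ℂ ≃+* ℂ} (hσ : ∀ a ∈ L, σ a = a) {P : Polynomial ℂ} (hP : ∀ n, P.coeff n ∈ L)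
    (z : ℂ) : P.eval (σ z) = σ (P.eval z) := by
  rw [Polynomial.eval_eq_sum_range, Polynomial.eval_eq_sum_range, map_sum]
  refine Finset.sum_congr rfl fun n _ => ?_
  rw [map_mul, map_pow, hσ _ (hP n)]

theorem vcj_single (hN : 0 < N) {σ : ℂ ≃+* ℂ} (hσ : ∀ a ∈ L, σ a = a) {τ τ₀ : ℍ}
    (hj : jInv τ₀ = σ (jInv τ)) {f : ℍ → ℂ} (hf : f ∈ MF N L) :
    ∃ c : vcjQ N, f (c.out⁻¹ • τ₀) = σ (f τ) := by
  have := vcj_fin hN
  have := Fintype.ofFinite (vcjQ N)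
  obtain ⟨c, hc, -⟩ := mem_of_power_sums (fun c : vcjQ N => σ (f (c.out⁻¹ • τ))) (fun _ => 1)
    (fun c : vcjQ N => f (c.out⁻¹ • τ₀)) (fun _ => 1) (fun a b => by
      obtain ⟨P, hP, e⟩ := MF.poly hN (MF.sum hN Finset.univ
        (f := fun (c : vcjQ N) τ => f (c.out⁻¹ • τ) ^ a)
        fun c _ => MF.pow hN (MF.smul hf _) a) fun γ t => by
          simp only [vcj_shift hf γ]
          exact Equiv.sum_comp (MulAction.toPerm γ⁻¹) fun c : vcjQ N => f (c.out⁻¹ • t) ^ a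
      simp only [one_pow, mul_one]
      rw [e τ₀, hj, vcj_eval hσ hP, ← e τ, map_sum]
      simp only [map_pow]) (QuotientGroup.mk 1)
  exact ⟨c, by rw [hc, vcj_one hf]⟩

/-- The modular functions as a rational vector space. -/
def vcjS (hN : 0 < N) (L : IntermediateField ℚ ℂ) : Submodule ℚ (ℍ → ℂ) where
  carrier := MF N L
  add_mem' hf hg := MF.add hN hf hg
  zero_mem' := MF.const (zero_mem L)
  smul_mem' q f hf := by
    have e : q • f = fun τ => (q : ℂ) * f τ := funext fun τ => Rat.smul_def q (f τ)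
    rw [e]
    exact MF.mul hN (MF.const (SubfieldClass.ratCast_mem L q)) hf

theorem vcj_conj (hN : 0 < N) {σ : ℂ ≃+* ℂ} (hσ : ∀ a ∈ L, σ a = a) {τ τ₀ : ℍ}
    (hj : jInv τ₀ = σ (jInv τ)) : ∃ c : vcjQ N, ∀ f ∈ MF N L, f (c.out⁻¹ • τ₀) = σ (f τ) := by
  have := vcj_fin hN
  let V : vcjQ N → Subspace ℚ (vcjS hN L) := fun c =>
    { carrier := {f | f.1 (c.out⁻¹ • τ₀) = σ (f.1 τ)}
      add_mem' := fun {f g} hf hg => by
        show f.1 _ + g.1 _ = σ (f.1 τ + g.1 τ)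
        rw [map_add, ← hf, ← hg]
      zero_mem' := (map_zero σ).symm
      smul_mem' := fun q f hf => by
        show q • f.1 _ = σ (q • f.1 τ)
        rw [Rat.smul_def, Rat.smul_def, map_mul, map_ratCast, ← hf] }
  obtain ⟨c, hc⟩ := Subspace.exists_eq_top_of_iUnion_eq_univ (p := V)
    (Set.eq_univ_of_forall fun f => Set.mem_iUnion.2 (vcj_single hN hσ hj f.2))
  refine ⟨c, fun f hf => ?_⟩
  have : (⟨f, hf⟩ : vcjS hN L) ∈ V c := hc ▸ Submodule.mem_top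
  exact this

/-- Every automorphism fixing the coefficients moves a point to a point. -/
theorem exists_conj (hN : 0 < N) {σ : ℂ ≃+* ℂ} (hσ : ∀ a ∈ L, σ a = a) (τ : ℍ) :
    ∃ τ' : ℍ, ∀ f ∈ MF N L, f τ' = σ (f τ) := by
  obtain ⟨τ₀, h⟩ := jInv_surj (σ (jInv τ))
  obtain ⟨c, hc⟩ := vcj_conj hN hσ h
  exact ⟨_, hc⟩

theorem vcj_pow {σ : ℂ ≃+* ℂ} {x : ℂ} {a b m : ℕ} (hab : a < b) (h : (σ ^ a) x = (σ ^ b) x)
    (hb : b ≤ m) : (σ ^ m.factorial) x = x := by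
  obtain ⟨k, rfl⟩ := Nat.exists_eq_add_of_lt hab
  have h1 : (σ ^ (k + 1)) x = x := by
    apply (σ ^ a).injective
    rw [h, add_assoc, pow_add σ a (k + 1)]
    rfl
  obtain ⟨t, ht⟩ := Nat.dvd_factorial (Nat.succ_pos k) (by omega : k + 1 ≤ m)
  rw [ht]
  clear ht
  induction t with
  | zero => rfl
  | succ t ih =>
    rw [Nat.mul_succ, pow_add]
    show (σ ^ _) ((σ ^ (k + 1)) x) = x
    rw [h1, ih]

theorem fix_pow (hN : 0 < N) : ∃ m : ℕ, 0 < m ∧ ∀ (L : IntermediateField ℚ ℂ) (σ : ℂ ≃+* ℂ),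
    (∀ a ∈ L, σ a = a) → ∀ τ : ℍ, σ (jInv τ) = jInv τ → ∀ f ∈ MF N L, (σ ^ m) (f τ) = f τ := by
  have := vcj_fin hN
  have := Fintype.ofFinite (vcjQ N)
  refine ⟨(Fintype.card (vcjQ N)).factorial, Nat.factorial_pos _, fun L σ hσ τ hj f hf => ?_⟩
  choose π hπ using fun c : vcjQ N => vcj_conj hN hσ (τ := c.out⁻¹ • τ) (τ₀ := τ)
    (by rw [jInv_smul, hj])
  have key : ∀ a : ℕ, (σ ^ a) (f τ) = f ((π^[a] (QuotientGroup.mk 1)).out⁻¹ • τ) := by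
    intro a
    induction a with
    | zero => exact (vcj_one hf τ).symm
    | succ a ih =>
      rw [Function.iterate_succ_apply', hπ _ f hf, ← ih, pow_succ']
      rfl
  obtain ⟨a, b, hab, h⟩ := Fintype.exists_ne_map_eq_of_card_lt
    (fun a : Fin (Fintype.card (vcjQ N) + 1) => π^[a] (QuotientGroup.mk 1)) (by simp)
  have h' : (σ ^ (a : ℕ)) (f τ) = (σ ^ (b : ℕ)) (f τ) := by
    rw [key, key]
    exact congrArg (fun c : vcjQ N => f (c.out⁻¹ • τ)) h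
  rcases lt_or_gt_of_ne hab with h1 | h1
  · exact vcj_pow h1 h' (Nat.le_of_lt_succ b.2)
  · exact vcj_pow h1 h'.symm (Nat.le_of_lt_succ a.2)

theorem vcj_prod_ne (hN : 0 < N) {ι : Type} (s : Finset ι) {F : ι → ℍ → ℂ}
    (hF : ∀ i, F i ∈ MF N L) (h : ∀ i, ∃ τ, F i τ ≠ 0) : ∃ τ, ∏ i ∈ s, F i τ ≠ 0 := by
  induction s using Finset.cons_induction with
  | empty => exact ⟨UpperHalfPlane.I, by simp⟩
  | cons a s ha ih =>
    by_contra hne
    push Not at hne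
    simp only [Finset.prod_cons] at hne
    rcases MF.eq_zero hN (hF a) (MF.prod hN s fun i _ => hF i) hne with h1 | h1
    · obtain ⟨τ, hτ⟩ := h a
      exact hτ (h1 τ)
    · obtain ⟨τ, hτ⟩ := ih
      exact hτ (h1 τ)

theorem finite_zero (hN : 0 < N) {f : ℍ → ℂ} (hf : f ∈ MF N L) (h : ∃ τ, f τ ≠ 0) :
    {z | ∃ τ, f τ = 0 ∧ jInv τ = z}.Finite := by
  have := vcj_fin hN
  have := Fintype.ofFinite (vcjQ N)
  obtain ⟨P, -, e⟩ := MF.poly hN (MF.prod hN Finset.univ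
    (f := fun (c : vcjQ N) τ => f (c.out⁻¹ • τ)) fun c _ => MF.smul hf _) fun γ t => by
      simp only [vcj_shift hf γ]
      exact Equiv.prod_comp (MulAction.toPerm γ⁻¹) fun c : vcjQ N => f (c.out⁻¹ • t)
  obtain ⟨τ₁, h1⟩ := h
  obtain ⟨τ₂, h2⟩ := vcj_prod_ne hN Finset.univ (F := fun (c : vcjQ N) τ => f (c.out⁻¹ • τ))
    (fun c => MF.smul hf _) fun c => ⟨c.out • τ₁, by simpa using h1⟩
  have hP : P ≠ 0 := fun h0 => h2 (by rw [e τ₂, h0, Polynomial.eval_zero])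
  refine (Polynomial.finite_setOfPred_isRoot hP).subset ?_
  rintro _ ⟨τ, h0, rfl⟩
  show P.eval (jInv τ) = 0
  rw [← e τ]
  exact Finset.prod_eq_zero (Finset.mem_univ (QuotientGroup.mk 1)) (by rw [vcj_one hf, h0])

theorem disc_bound {E : Set ℂ} (hE : E.Finite) : ∃ B : ℝ, ∀ (τ : ℍ) (D : ℤ), HasDisc τ D →
    B ≤ -(D : ℝ) → jInv τ ∉ E := by
  have key : ∀ z : ℂ, ∃ b : ℝ, ∀ (τ : ℍ) (D : ℤ), HasDisc τ D → jInv τ = z → -(D : ℝ) ≤ b := by
    intro z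
    by_cases h : ∃ (τ : ℍ) (D : ℤ), HasDisc τ D ∧ jInv τ = z
    · obtain ⟨τ, D, h1, h2⟩ := h
      refine ⟨-(D : ℝ), fun τ' D' h3 h4 => ?_⟩
      obtain ⟨γ, rfl⟩ := jInv_inj (h2.trans h4.symm)
      rw [(discL_one h3).galA_unique (discL_one (h1.smul γ))]
    · exact ⟨0, fun τ D h1 h2 => (h ⟨τ, D, h1, h2⟩).elim⟩
  choose b hb using key
  obtain ⟨B, hB⟩ := (hE.image b).bddAbove
  refine ⟨B + 1, fun τ D h1 h2 h3 => ?_⟩
  have h4 := hb _ τ D h1 rfl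
  have h5 := hB (Set.mem_image_of_mem b h3)
  linarith

theorem sep0 (hN : 0 < N) (L : IntermediateField ℚ ℂ) : ∃ E : Set ℂ, E.Finite ∧
    ∀ (γ : SL(2, ℤ)) (τ : ℍ), jInv τ ∉ E → (∀ f ∈ MF N L, f (γ • τ) = f τ) → γ ∈ G0 N L := by
  have := vcj_fin hN
  have key : ∀ g : SL(2, ℤ), ∃ E : Set ℂ, E.Finite ∧ ∀ τ : ℍ, jInv τ ∉ E →
      (∀ f ∈ MF N L, f (g • τ) = f τ) → g ∈ G0 N L := by
    intro g
    by_cases hg : g ∈ G0 N L
    · exact ⟨∅, Set.finite_empty, fun _ _ _ => hg⟩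
    · have : ∃ f ∈ MF N L, ∃ τ : ℍ, f (g • τ) - f τ ≠ 0 := by
        by_contra hne
        push Not at hne
        exact hg fun f hf τ => sub_eq_zero.1 (hne f hf τ)
      obtain ⟨f, hf, h⟩ := this
      exact ⟨_, finite_zero hN (MF.sub hN (MF.smul hf g) hf) h, fun τ h1 h2 =>
        (h1 ⟨τ, sub_eq_zero.2 (h2 f hf), rfl⟩).elim⟩
  choose E hE h using key
  refine ⟨⋃ c : vcjQ N, E c.out⁻¹, Set.finite_iUnion fun c => hE _, fun γ τ h1 h2 => ?_⟩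
  have h3 := h (QuotientGroup.mk γ⁻¹ : vcjQ N).out⁻¹ τ
    (fun h4 => h1 (Set.mem_iUnion.2 ⟨_, h4⟩)) fun f hf => by rw [vcj_mk hf, inv_inv, h2 f hf]
  intro f hf t
  rw [← h3 f hf t, vcj_mk hf, inv_inv]

/-- The functions separate points of large discriminant up to `G0`. -/
theorem sep (hN : 0 < N) (L : IntermediateField ℚ ℂ) : ∃ B : ℝ, ∀ (τ : ℍ) (D : ℤ), HasDisc τ D →
    B ≤ -(D : ℝ) → ∀ τ' : ℍ, (∀ f ∈ MF N L, f τ' = f τ) → ∃ γ ∈ G0 N L, τ' = γ • τ := by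
  obtain ⟨E, hE, h⟩ := sep0 hN L
  obtain ⟨B, hB⟩ := disc_bound hE
  refine ⟨B, fun τ D h1 h2 τ' h3 => ?_⟩
  obtain ⟨γ, rfl⟩ := jInv_inj (h3 jInv (MF.j hN)).symm
  exact ⟨γ, h γ τ (hB τ D h1 h2) h3, rfl⟩

/-- Test functions of level `N`. -/
def Tst (N : ℕ) (L : IntermediateField ℚ ℂ) (φ : ℍ →ᵇ ℝ) : Prop :=
  ∀ γ ∈ G0 N L, ∀ τ : ℍ, φ (γ • τ) = φ τ

/-- Pull back of a test function by an integer matrix. -/
def cact (φ : ℍ →ᵇ ℝ) (ξ : MZ) : ℍ →ᵇ ℝ := φ.compContinuous ⟨act ξ, continuous_act ξ⟩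

theorem cact_apply (φ : ℍ →ᵇ ℝ) (ξ : MZ) (τ : ℍ) : cact φ ξ τ = φ (act ξ τ) := rfl

theorem vcj_countable {E : Set ℂ} (hE : E.Finite) : (jInv ⁻¹' E).Countable := by
  have : Countable (Matrix (Fin 2) (Fin 2) ℤ) := inferInstanceAs (Countable (Fin 2 → Fin 2 → ℤ))
  have : Countable SL(2, ℤ) := Subtype.countable
  choose t ht using jInv_surj
  refine (hE.countable.biUnion fun z _ => Set.countable_range fun γ : SL(2, ℤ) => γ • t z).mono ?_
  intro τ hτ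
  obtain ⟨γ, h⟩ := jInv_inj (ht (jInv τ))
  exact Set.mem_biUnion hτ ⟨γ, h.symm⟩

theorem vcj_dense {S : Set ℍ} (hS : S.Countable) : Dense Sᶜ := by
  have h := (Set.Countable.dense_compl ℂ (hS.image ((↑) : ℍ → ℂ))).preimage
    isOpenEmbedding_coe.isOpenMap
  rwa [Set.preimage_compl, Set.preimage_image_eq _ isOpenEmbedding_coe.injective] at h

theorem Tst.cact (hN : 0 < N) {φ : ℍ →ᵇ ℝ} (hφ : Tst N L φ) {ξ : MZ} (hξ : 0 < ξ.det) {N' : ℕ}
    (hN' : 0 < N') (h : N * ξ.det.natAbs ∣ N') {L' : IntermediateField ℚ ℂ} (hL : L ≤ L')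
    (hz : zt N' ∈ L') : Tst N' L' (cact φ ξ) := by
  obtain ⟨E, hE, hs⟩ := sep0 hN L
  have hinj : Function.Injective (act ξ) := by
    obtain ⟨g, c, hc, e⟩ := exists_real hξ
    intro a b hab
    rw [(act_real hc e a).2, (act_real hc e b).2] at hab
    exact MulAction.injective g hab
  have hd := vcj_dense ((vcj_countable hE).preimage_of_injOn hinj.injOn)
  intro γ hγ
  have hc : Continuous fun τ : ℍ => γ • τ := by
    have := continuous_act (γ : MZ)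
    rwa [show act (γ : MZ) = fun τ : ℍ => γ • τ from funext (act_SL γ)] at this
  refine congrFun (Continuous.ext_on hd ((EQ.cact φ ξ).continuous.comp hc)
    (EQ.cact φ ξ).continuous fun τ hτ => ?_)
  have h1 : ∀ f ∈ MF N L, f (act ξ (γ • τ)) = f (act ξ τ) := fun f hf =>
    hγ _ (MF.act hN hf hξ hN' h hL hz) τ
  obtain ⟨γ', e⟩ := jInv_inj (h1 jInv (MF.j hN)).symm
  show φ (act ξ (γ • τ)) = φ (act ξ τ)
  rw [e] at h1 ⊢
  exact hφ γ' (hs γ' _ hτ h1) _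

theorem Tst.prod {ι : Type} (s : Finset ι) {φ : ι → (ℍ →ᵇ ℝ)} (h : ∀ i ∈ s, Tst N L (φ i)) :
    Tst N L (∏ i ∈ s, φ i) := by
  intro γ hγ τ
  rw [BoundedContinuousFunction.prod_apply, BoundedContinuousFunction.prod_apply]
  exact Finset.prod_congr rfl fun i hi => h i hi γ hγ τ

end Pool.Agent.EQ
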