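import Pool.Agent.P.MP_ad7a55_nt.VEv
import Pool.Agent.P.MP_ad7a55_nt.TLow
import Pool.Agent.P.MP_ad7a55_nt.UFr

/-! Classes of coordinates with the same field. -/

set_option autoImplicit false

noncomputable section

open MeasureTheory Topology Filter UpperHalfPlane
open scoped MatrixGroups ENNReal BoundedContinuousFunction

namespace Pool.Agent.EQ

variable {n : ℕ}

/-- The coordinates in `I` have the same field, large discriminants and no isogenies. -/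
structure Cls (L : Filter ℕ) (τ : ℕ → Fin n → ℍ) (D : ℕ → Fin n → ℤ) (I : Finset (Fin n)) :
    Prop where
  disc : ∀ i k, HasDisc (τ i k) (D i k)
  big : ∀ᶠ i in L, ∀ k, D i k < -576
  sq : ∀ᶠ i in L, ∀ k ∈ I, ∀ l ∈ I, IsSquare (D i k * D i l)
  inf : ∀ Y : ℝ, ∀ᶠ i in L, ∀ k ∈ I, Y ≤ -(D i k : ℝ)
  noi : NoIs L τ I

/-- Bounded weights that depend only on the coordinates with another field. -/
structure WtN (L : Filter ℕ) (D : ℕ → Fin n → ℤ) (I : Finset (Fin n))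
    (ψ : ℕ → (Fin n × Fn → ℂ) → ℝ) : Prop where
  oth : ∀ᶠ i in L, Oth I (D i) (ψ i)
  bd : ∃ B, ∀ i z, |ψ i z| ≤ B

def StepN (L : Filter ℕ) (N : ℕ) (F : IntermediateField ℚ ℂ) (τ : ℕ → Fin n → ℍ)
    (φ : Fin n → (ℍ →ᵇ ℝ)) (I : Finset (Fin n)) (ψ : ℕ → (Fin n × Fn → ℂ) → ℝ) : Prop :=
  ∃ J ⊆ I, J.Nonempty ∧ Tendsto (fun i => avg (ON N F (τ i)) fun z =>
    ψ i z * (PT N F φ I z - (∏ k ∈ J, IN N (φ k)) * PT N F φ (I \ J) z)) L (𝓝 0)

def Eqd (L : Filter ℕ) (N : ℕ) (F : IntermediateField ℚ ℂ) (τ : ℕ → Fin n → ℍ)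
    (φ : Fin n → (ℍ →ᵇ ℝ)) (I : Finset (Fin n)) (ψ : ℕ → (Fin n × Fn → ℂ) → ℝ) : Prop :=
  Tendsto (fun i => avg (ON N F (τ i)) fun z =>
    ψ i z * (PT N F φ I z - ∏ k ∈ I, IN N (φ k))) L (𝓝 0)

variable {L : Filter ℕ} {N : ℕ} {F : IntermediateField ℚ ℂ} {τ : ℕ → Fin n → ℍ}
  {D : ℕ → Fin n → ℤ} {φ : Fin n → (ℍ →ᵇ ℝ)} {I J : Finset (Fin n)}
  {ψ : ℕ → (Fin n × Fn → ℂ) → ℝ}

theorem Oth.mono {D : Fin n → ℤ} {ψ : (Fin n × Fn → ℂ) → ℝ} (h : Oth I D ψ) (hJ : J ⊆ I) :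
    Oth J D ψ := fun z z' h' => h z z' fun k hk => h' k fun l hl => hk l (hJ hl)

theorem Cls.mono (h : Cls L τ D I) (hJ : J ⊆ I) : Cls L τ D J :=
  ⟨h.disc, h.big, h.sq.mono fun _ a k hk l hl => a k (hJ hk) l (hJ hl),
    fun Y => (h.inf Y).mono fun _ a k hk => a k (hJ hk),
    fun k hk l hl => h.noi k (hJ hk) l (hJ hl)⟩

theorem WtN.mono (h : WtN L D I ψ) (hJ : J ⊆ I) : WtN L D J ψ :=
  ⟨h.oth.mono fun _ a => a.mono hJ, h.bd⟩

theorem abs_PT_le (N : ℕ) (F : IntermediateField ℚ ℂ) (φ : Fin n → (ℍ →ᵇ ℝ)) (I : Finset (Fin n))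
    (z : Fin n × Fn → ℂ) : |PT N F φ I z| ≤ ∏ k ∈ I, ‖φ k‖ := by
  rw [PT, Finset.abs_prod]
  exact Finset.prod_le_prod (fun _ _ => abs_nonneg _) fun k _ => (φ k).norm_coe_le_norm _

theorem oth_PT {D : Fin n → ℤ} (h : ∀ k ∈ J, ∀ l ∈ I, ¬ IsSquare (D k * D l)) :
    Oth I D (PT N F φ J) := fun _ _ h' =>
  Finset.prod_congr rfl fun k hk => by rw [rp_congr (h' k (h k hk))]

theorem eqd_of_step (h : ∀ J ⊆ I, J.Nonempty → StepN L N F τ φ J ψ) : Eqd L N F τ φ I ψ := by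
  classical
  induction I using Finset.strongInduction with
  | H I ih =>
    rcases I.eq_empty_or_nonempty with rfl | hI
    · simpa [Eqd, PT, avg] using tendsto_const_nhds
    obtain ⟨J, hJI, hJ, h1⟩ := h I subset_rfl hI
    have h2 := ih (I \ J) (Finset.sdiff_ssubset hJI hJ) fun K hK =>
      h K (hK.trans Finset.sdiff_subset)
    have h3 := h1.add (h2.const_mul (∏ k ∈ J, IN N (φ k)))
    rw [mul_zero, add_zero] at h3
    refine h3.congr fun i => ?_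
    simp only [avg]
    rw [← mul_div_assoc, ← add_div, Finset.mul_sum, ← Finset.sum_add_distrib,
      ← Finset.prod_sdiff hJI]
    congr 1
    exact Finset.sum_congr rfl fun z _ => by ring

end Pool.Agent.EQ
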