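import Pool.Agent.P.MP_ad7a55_nt.MainB

/-! Galois orbits of families of complex numbers. -/

set_option autoImplicit false

noncomputable section

open MeasureTheory Topology Filter UpperHalfPlane
open scoped MatrixGroups ENNReal BoundedContinuousFunction

namespace Pool.Agent.EQ

def galO {ι : Type} (F : IntermediateField ℚ ℂ) (x : ι → ℂ) : Set (ι → ℂ) :=
  {y | ∃ σ : ℂ ≃+* ℂ, (∀ a ∈ F, σ a = a) ∧ y = fun k => σ (x k)}

open Classical in
/-- A finite set as a `Finset`. -/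
def fO {α : Type} (S : Set α) : Finset α := if h : S.Finite then h.toFinset else ∅

theorem mem_fO {α : Type} {S : Set α} (h : S.Finite) {a : α} : a ∈ fO S ↔ a ∈ S := by
  rw [fO, dif_pos h, Set.Finite.mem_toFinset]

theorem fO_eq {α : Type} {S : Set α} (h : S.Finite) : fO S = h.toFinset := by
  rw [fO, dif_pos h]

theorem card_fO {α : Type} (S : Set α) : (fO S).card = S.ncard := by
  by_cases h : S.Finite
  · rw [fO_eq h, Set.ncard_eq_toFinset_card S h]
  · rw [fO, dif_neg h, Set.Infinite.ncard h, Finset.card_empty]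

theorem galO_eq {n : ℕ} (F : IntermediateField ℚ ℂ) (x : Fin n → ℂ) :
    galO F x = galOrbit F x := rfl

variable {ι ι' : Type} {F : IntermediateField ℚ ℂ} {x : ι → ℂ}

theorem galO_self (F : IntermediateField ℚ ℂ) (x : ι → ℂ) : x ∈ galO F x :=
  ⟨RingEquiv.refl ℂ, fun _ _ => rfl, rfl⟩

theorem galO_map {z : ι → ℂ} (hz : z ∈ galO F x) {σ : ℂ ≃+* ℂ} (hσ : ∀ a ∈ F, σ a = a) :
    (fun k => σ (z k)) ∈ galO F x := by
  obtain ⟨τ, hτ, rfl⟩ := hz
  exact ⟨τ.trans σ, fun a ha => by rw [RingEquiv.trans_apply, hτ a ha, hσ a ha], rfl⟩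

theorem galO_of_mem {z : ι → ℂ} (hz : z ∈ galO F x) : galO F z = galO F x := by
  have key : ∀ {u v : ι → ℂ}, u ∈ galO F v → galO F u ⊆ galO F v := by
    rintro u v hu _ ⟨σ, hσ, rfl⟩
    exact galO_map hu hσ
  refine (key hz).antisymm (key ?_)
  obtain ⟨τ, hτ, rfl⟩ := hz
  refine ⟨τ.symm, fun a ha => ?_, funext fun k => (τ.symm_apply_apply _).symm⟩
  rw [RingEquiv.symm_apply_eq, hτ a ha]

theorem galO_mono {F' : IntermediateField ℚ ℂ} (h : F ≤ F') (x : ι → ℂ) :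
    galO F' x ⊆ galO F x := by
  rintro _ ⟨σ, hσ, rfl⟩
  exact ⟨σ, fun a ha => hσ a (h ha), rfl⟩

theorem galO_comp {z : ι → ℂ} (hz : z ∈ galO F x) (s : ι' → ι) :
    (fun k => z (s k)) ∈ galO F fun k => x (s k) := by
  obtain ⟨σ, hσ, rfl⟩ := hz
  exact ⟨σ, hσ, rfl⟩

theorem sum_galO {σ : ℂ ≃+* ℂ} (hσ : ∀ a ∈ F, σ a = a) (G : (ι → ℂ) → ℝ) :
    ∑ z ∈ fO (galO F x), G (fun k => σ (z k)) = ∑ z ∈ fO (galO F x), G z := by
  by_cases h : (galO F x).Finite
  · have hσ' : ∀ a ∈ F, σ.symm a = a := fun a ha => by rw [RingEquiv.symm_apply_eq, hσ a ha]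
    refine Finset.sum_nbij' (fun z k => σ (z k)) (fun z k => σ.symm (z k)) ?_ ?_ ?_ ?_ ?_
    · exact fun z hz => (mem_fO h).2 (galO_map ((mem_fO h).1 hz) hσ)
    · exact fun z hz => (mem_fO h).2 (galO_map ((mem_fO h).1 hz) hσ')
    · exact fun z _ => funext fun k => σ.symm_apply_apply _
    · exact fun z _ => funext fun k => σ.apply_symm_apply _
    · exact fun z _ => rfl
  · rw [fO, dif_neg h, Finset.sum_empty, Finset.sum_empty]

theorem vgal_sum {α β : Type} (S : Finset α) (T : Finset β) (π : α → β) (h1 : ∀ a ∈ S, π a ∈ T)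
    {c : ℕ} (h2 : ∀ b ∈ T, {a | a ∈ S ∧ π a = b}.ncard = c) (G : β → ℝ) :
    ∑ a ∈ S, G (π a) = c * ∑ b ∈ T, G b := by
  classical
  rw [← Finset.sum_fiberwise_of_maps_to h1, Finset.mul_sum]
  refine Finset.sum_congr rfl fun b hb => ?_
  have e : ∑ a ∈ S.filter (fun a => π a = b), G (π a) = ∑ a ∈ S.filter (fun a => π a = b), G b :=
    Finset.sum_congr rfl fun a ha => by rw [(Finset.mem_filter.1 ha).2]
  have e2 : {a | a ∈ S ∧ π a = b} = ↑(S.filter fun a => π a = b) := by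
    ext a
    simp
  rw [e, Finset.sum_const, nsmul_eq_mul, ← h2 b hb, e2, Set.ncard_coe_finset]

open Classical in
theorem vgal_card {α : Type} (S : Finset α) (Q : α → Prop) :
    ({a | a ∈ S ∧ Q a}.ncard : ℝ) = ∑ a ∈ S, if Q a then (1 : ℝ) else 0 := by
  have e2 : {a | a ∈ S ∧ Q a} = ↑(S.filter Q) := by
    ext a
    simp
  rw [e2, Set.ncard_coe_finset, Finset.sum_boole]

open Classical in
theorem vgal_card2 {α : Type} (S : Finset α) (Q : α → α → Prop) :
    ({z : α × α | z.1 ∈ S ∧ z.2 ∈ S ∧ Q z.1 z.2}.ncard : ℝ) =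
      ∑ a ∈ S, ∑ b ∈ S, if Q a b then (1 : ℝ) else 0 := by
  have e : {z : α × α | z.1 ∈ S ∧ z.2 ∈ S ∧ Q z.1 z.2} = {z | z ∈ S ×ˢ S ∧ Q z.1 z.2} := by
    ext z
    simp only [Set.mem_setOf_eq, Finset.mem_product, and_assoc]
  rw [e, vgal_card, Finset.sum_product]

theorem vgal_fin (hx : (galO F x).Finite) (s : ι' → ι) : (galO F fun k => x (s k)).Finite := by
  refine (hx.image fun z k => z (s k)).subset ?_
  rintro _ ⟨σ, hσ, rfl⟩
  exact ⟨fun k => σ (x k), ⟨σ, hσ, rfl⟩, rfl⟩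

theorem vgal_maps (hx : (galO F x).Finite) (s : ι' → ι) :
    ∀ a ∈ fO (galO F x), (fun k => a (s k)) ∈ fO (galO F fun k => x (s k)) :=
  fun _ ha => (mem_fO (vgal_fin hx s)).2 (galO_comp ((mem_fO hx).1 ha) s)

theorem vgal_fib (hx : (galO F x).Finite) (s : ι' → ι) : ∃ c : ℕ, 0 < c ∧
    ∀ b ∈ fO (galO F fun k => x (s k)),
      {a | a ∈ fO (galO F x) ∧ (fun k => a (s k)) = b}.ncard = c := by
  refine ⟨{a | a ∈ fO (galO F x) ∧ (fun k => a (s k)) = fun k => x (s k)}.ncard, ?_, ?_⟩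
  · refine (Set.ncard_pos ((fO (galO F x)).finite_toSet.subset fun a ha => ha.1)).2 ?_
    exact ⟨x, (mem_fO hx).2 (galO_self F x), rfl⟩
  · intro b hb
    obtain ⟨σ, hσ, rfl⟩ := (mem_fO (vgal_fin hx s)).1 hb
    have hσ' : ∀ a ∈ F, σ.symm a = a := fun a ha => by rw [RingEquiv.symm_apply_eq, hσ a ha]
    have hinj : Function.Injective fun (z : ι → ℂ) k => σ (z k) :=
      fun u v e => funext fun k => σ.injective (congrFun e k)
    rw [← Set.ncard_image_of_injective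
      {a | a ∈ fO (galO F x) ∧ (fun k => a (s k)) = fun k => x (s k)} hinj]
    congr 1
    ext a
    constructor
    · rintro ⟨ha, e⟩
      refine ⟨fun k => σ.symm (a k), ⟨(mem_fO hx).2 (galO_map ((mem_fO hx).1 ha) hσ'), ?_⟩,
        funext fun k => σ.apply_symm_apply _⟩
      funext k
      rw [RingEquiv.symm_apply_eq]
      exact congrFun e k
    · rintro ⟨u, ⟨hu, e⟩, rfl⟩
      refine ⟨(mem_fO hx).2 (galO_map ((mem_fO hx).1 hu) hσ), funext fun k => ?_⟩
      exact congrArg σ (congrFun e k)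

/-- Averages along a map with fibres of constant size. -/
theorem avg_fiber {α β : Type} (S : Finset α) (T : Finset β) (π : α → β) (h1 : ∀ a ∈ S, π a ∈ T)
    {c : ℕ} (hc : 0 < c) (h2 : ∀ b ∈ T, {a | a ∈ S ∧ π a = b}.ncard = c) (G : β → ℝ) :
    avg S (fun a => G (π a)) = avg T G := by
  have e1 := vgal_sum S T π h1 h2 G
  have e2 := vgal_sum S T π h1 h2 fun _ => 1
  rw [Finset.sum_const, Finset.sum_const, nsmul_eq_mul, nsmul_eq_mul, mul_one, mul_one] at e2
  have hc' : (c : ℝ) ≠ 0 := by exact_mod_cast hc.ne'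
  rw [avg, avg, e1, e2, mul_div_mul_left _ _ hc']

theorem avg_comp (hx : (galO F x).Finite) (s : ι' → ι) (G : (ι' → ℂ) → ℝ) :
    avg (fO (galO F x)) (fun z => G fun k => z (s k)) =
      avg (fO (galO F fun k => x (s k))) G := by
  obtain ⟨c, hc, h2⟩ := vgal_fib hx s
  exact avg_fiber _ _ (fun (z : ι → ℂ) k => z (s k)) (vgal_maps hx s) hc h2 G

theorem card_comp (hx : (galO F x).Finite) (s : ι' → ι) (P : (ι' → ℂ) → Prop) {δ : ℝ}
    (h : ({z | z ∈ (galO F fun k => x (s k)) ∧ P z}.ncard : ℝ) ≤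
      δ * (galO F fun k => x (s k)).ncard) :
    ({z | z ∈ fO (galO F x) ∧ P fun k => z (s k)}.ncard : ℝ) ≤ δ * (fO (galO F x)).card := by
  classical
  obtain ⟨c, -, h2⟩ := vgal_fib hx s
  have hf := vgal_fin hx s
  have e1 := vgal_sum _ _ (fun (z : ι → ℂ) k => z (s k)) (vgal_maps hx s) h2 fun b => if P b then 1 else 0
  have e2 := vgal_sum _ _ (fun (z : ι → ℂ) k => z (s k)) (vgal_maps hx s) h2 fun _ => 1
  rw [Finset.sum_const, Finset.sum_const, nsmul_eq_mul, nsmul_eq_mul, mul_one, mul_one,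
    card_fO (galO F fun k => x (s k))] at e2
  have e3 : {z | z ∈ (galO F fun k => x (s k)) ∧ P z} =
      {z | z ∈ fO (galO F fun k => x (s k)) ∧ P z} := by
    ext z
    simp only [Set.mem_setOf_eq, mem_fO hf]
  rw [e3, vgal_card] at h
  rw [vgal_card, e1, e2]
  calc _ ≤ (c : ℝ) * (δ * (galO F fun k => x (s k)).ncard) :=
        mul_le_mul_of_nonneg_left h (Nat.cast_nonneg c)
    _ = _ := by ring

theorem card_comp2 (hx : (galO F x).Finite) (s : ι' → ι) (P : (ι' → ℂ) → (ι' → ℂ) → Prop) {δ : ℝ}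
    (h : ({z : (ι' → ℂ) × (ι' → ℂ) | z.1 ∈ (galO F fun k => x (s k)) ∧
      z.2 ∈ (galO F fun k => x (s k)) ∧ P z.1 z.2}.ncard : ℝ) ≤
      δ * (galO F fun k => x (s k)).ncard ^ 2) :
    ({z : (ι → ℂ) × (ι → ℂ) | z.1 ∈ fO (galO F x) ∧ z.2 ∈ fO (galO F x) ∧
      P (fun k => z.1 (s k)) fun k => z.2 (s k)}.ncard : ℝ) ≤
      δ * (fO (galO F x)).card ^ 2 := by
  classical
  obtain ⟨c, -, h2⟩ := vgal_fib hx s
  have hf := vgal_fin hx s
  have e0 : ∀ a : ι' → ℂ, ∑ z ∈ fO (galO F x), (if P a fun k => z (s k) then (1 : ℝ) else 0) =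
      c * ∑ b ∈ fO (galO F fun k => x (s k)), if P a b then (1 : ℝ) else 0 := fun a =>
    vgal_sum _ _ (fun (z : ι → ℂ) k => z (s k)) (vgal_maps hx s) h2 fun b => if P a b then 1 else 0
  have e1 := vgal_sum _ _ (fun (z : ι → ℂ) k => z (s k)) (vgal_maps hx s) h2
    fun a => ∑ b ∈ fO (galO F fun k => x (s k)), if P a b then (1 : ℝ) else 0
  have e2 := vgal_sum _ _ (fun (z : ι → ℂ) k => z (s k)) (vgal_maps hx s) h2 fun _ => 1
  rw [Finset.sum_const, Finset.sum_const, nsmul_eq_mul, nsmul_eq_mul, mul_one, mul_one,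
    card_fO (galO F fun k => x (s k))] at e2
  have e3 : {z : (ι' → ℂ) × (ι' → ℂ) | z.1 ∈ (galO F fun k => x (s k)) ∧
      z.2 ∈ (galO F fun k => x (s k)) ∧ P z.1 z.2} =
      {z : (ι' → ℂ) × (ι' → ℂ) | z.1 ∈ fO (galO F fun k => x (s k)) ∧
      z.2 ∈ fO (galO F fun k => x (s k)) ∧ P z.1 z.2} := by
    ext z
    simp only [Set.mem_setOf_eq, mem_fO hf]
  rw [e3, vgal_card2] at h
  rw [vgal_card2 (fO (galO F x)) fun a b => P (fun k => a (s k)) fun k => b (s k)]
  simp only [e0]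
  rw [← Finset.mul_sum, e1, e2]
  calc _ ≤ (c : ℝ) * (c * (δ * ((galO F fun k => x (s k)).ncard : ℝ) ^ 2)) :=
        mul_le_mul_of_nonneg_left (mul_le_mul_of_nonneg_left h (Nat.cast_nonneg c))
          (Nat.cast_nonneg c)
    _ = _ := by ring

/-- A finite union of orbits contains an orbit with a worse average. -/
theorem exists_worst {Z : Set (ι → ℂ)} (hZ : Z.Finite) (hne : Z.Nonempty)
    (h : ∀ z ∈ Z, galO F z ⊆ Z) (G : (ι → ℂ) → ℝ) :
    ∃ z ∈ Z, |avg (fO Z) G| ≤ |avg (fO (galO F z)) G| := by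
  classical
  have hne' : (fO Z).Nonempty := hne.imp fun z hz => (mem_fO hZ).2 hz
  have hf : ∀ z ∈ Z, (galO F z).Finite := fun z hz => hZ.subset (h z hz)
  obtain ⟨z, hz, hmax⟩ := (fO Z).exists_max_image (fun z => |avg (fO (galO F z)) G|) hne'
  refine ⟨z, (mem_fO hZ).1 hz, ?_⟩
  have e : ∑ u ∈ fO Z, G u = ∑ u ∈ fO Z, avg (fO (galO F u)) G := by
    have hm : ∀ u ∈ fO Z, fO (galO F u) ∈ (fO Z).image fun u => fO (galO F u) :=
      fun u hu => Finset.mem_image_of_mem _ hu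
    rw [← Finset.sum_fiberwise_of_maps_to hm G,
      ← Finset.sum_fiberwise_of_maps_to hm fun u => avg (fO (galO F u)) G]
    refine Finset.sum_congr rfl fun O hO => ?_
    obtain ⟨v, hv, rfl⟩ := Finset.mem_image.1 hO
    have hv' := (mem_fO hZ).1 hv
    have e1 : ((fO Z).filter fun u => fO (galO F u) = fO (galO F v)) = fO (galO F v) := by
      ext u
      rw [Finset.mem_filter, mem_fO hZ, mem_fO (hf v hv')]
      constructor
      · rintro ⟨hu, e⟩
        rw [← mem_fO (hf v hv'), ← e, mem_fO (hf u hu)]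
        exact galO_self F u
      · intro hu
        exact ⟨h v hv' hu, by rw [galO_of_mem hu]⟩
    have e2 : ∑ u ∈ (fO Z).filter (fun u => fO (galO F u) = fO (galO F v)),
        avg (fO (galO F u)) G = ∑ u ∈ (fO Z).filter (fun u => fO (galO F u) = fO (galO F v)),
        avg (fO (galO F v)) G :=
      Finset.sum_congr rfl fun u hu => by rw [(Finset.mem_filter.1 hu).2]
    have hpos : ((fO (galO F v)).card : ℝ) ≠ 0 := by
      have : (fO (galO F v)).Nonempty := ⟨v, (mem_fO (hf v hv')).2 (galO_self F v)⟩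
      exact_mod_cast this.card_pos.ne'
    rw [e2, e1, Finset.sum_const, nsmul_eq_mul, avg, mul_div_cancel₀ _ hpos]
  have e' : avg (fO Z) G = avg (fO Z) fun u => avg (fO (galO F u)) G := by
    rw [avg, e]
    rfl
  rw [e']
  exact abs_avg_le hne' _ hmax

end Pool.Agent.EQ
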