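import Pool.Agent.P.MP_ad7a55_nt.VCj
import Pool.Agent.P.MP_ad7a55_nt.VGal

/-! Points of level N as evaluation maps. -/

set_option autoImplicit false

noncomputable section

open MeasureTheory Topology Filter UpperHalfPlane
open scoped MatrixGroups ENNReal BoundedContinuousFunction

namespace Pool.Agent.EQ

abbrev Fn : Type := ℍ → ℂ

open Classical in
/-- The values at `τ` of the functions in `A`. -/
def evA (A : Set Fn) (τ : ℍ) : Fn → ℂ := fun f => if f ∈ A then f τ else 0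

def evs {n : ℕ} (A : Set Fn) (τ : Fin n → ℍ) : Fin n × Fn → ℂ := fun a => evA A (τ a.1) a.2

open Classical in
/-- A point with given values. -/
def rp {n : ℕ} (A : Set Fn) (z : Fin n × Fn → ℂ) (k : Fin n) : ℍ :=
  if h : ∃ τ, evA A τ = fun f => z (k, f) then h.choose else UpperHalfPlane.I

/-- The orbit of a point of level `N`. -/
def ON {n : ℕ} (N : ℕ) (F : IntermediateField ℚ ℂ) (τ : Fin n → ℍ) : Finset (Fin n × Fn → ℂ) :=
  fO (galO F (evs (MF N F) τ))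

/-- The values of `j`. -/
def pj {n : ℕ} (z : Fin n × Fn → ℂ) : Fin n → ℂ := fun k => z (k, jInv)

variable {n N : ℕ} {F : IntermediateField ℚ ℂ} {τ : Fin n → ℍ} {D : Fin n → ℤ}

theorem ev_of_mem {A : Set Fn} {f : Fn} (hf : f ∈ A) (τ : ℍ) : evA A τ f = f τ := by
  simp [evA, hf]

theorem ev_of_not {A : Set Fn} {f : Fn} (hf : f ∉ A) (τ : ℍ) : evA A τ f = 0 := by
  simp [evA, hf]

theorem pj_evs (hN : 0 < N) (F : IntermediateField ℚ ℂ) (τ : Fin n → ℍ) :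
    pj (evs (MF N F) τ) = fun k => jInv (τ k) :=
  funext fun k => ev_of_mem (MF.j hN) (τ k)

theorem rp_congr {A : Set Fn} {z z' : Fin n × Fn → ℂ} {k : Fin n}
    (h : ∀ f, z (k, f) = z' (k, f)) : rp A z k = rp A z' k := by
  classical
  exact congrArg (fun w : Fn → ℂ => if h : ∃ τ, evA A τ = w then h.choose else UpperHalfPlane.I)
    (funext h)

theorem vev_rp (hN : 0 < N) {z : Fin n × Fn → ℂ} (hz : z ∈ galO F (evs (MF N F) τ)) (k : Fin n) :
    evA (MF N F) (rp (MF N F) z k) = fun f => z (k, f) := by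
  have h : ∃ t, evA (MF N F) t = fun f => z (k, f) := by
    obtain ⟨σ, hσ, rfl⟩ := hz
    obtain ⟨t, ht⟩ := exists_conj hN hσ (τ k)
    refine ⟨t, funext fun f => ?_⟩
    change evA (MF N F) t f = σ (evA (MF N F) (τ k) f)
    by_cases hf : f ∈ MF N F
    · rw [ev_of_mem hf, ev_of_mem hf, ht f hf]
    · rw [ev_of_not hf, ev_of_not hf, map_zero]
  rw [rp, dif_pos h]
  exact h.choose_spec

theorem evs_rp (hN : 0 < N) {z : Fin n × Fn → ℂ} (hz : z ∈ galO F (evs (MF N F) τ)) :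
    evs (MF N F) (rp (MF N F) z) = z :=
  funext fun a => congrFun (vev_rp hN hz a.1) a.2

theorem vev_fib (hN : 0 < N) (F : IntermediateField ℚ ℂ) (y : ℂ) :
    {w : Fn → ℂ | ∃ t, jInv t = y ∧ evA (MF N F) t = w}.Finite := by
  haveI : NeZero N := ⟨hN.ne'⟩
  obtain ⟨t₀, rfl⟩ := jInv_surj y
  refine (Set.finite_range fun c : SL(2, ℤ) ⧸ CongruenceSubgroup.Gamma N =>
    evA (MF N F) (c.out⁻¹ • t₀)).subset ?_
  rintro _ ⟨t, ht, rfl⟩
  obtain ⟨γ, rfl⟩ := jInv_inj ht.symm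
  obtain ⟨h, hh⟩ := QuotientGroup.mk_out_eq_mul (CongruenceSubgroup.Gamma N) γ⁻¹
  refine ⟨QuotientGroup.mk γ⁻¹, funext fun f => ?_⟩
  change evA (MF N F) ((QuotientGroup.mk γ⁻¹ : SL(2, ℤ) ⧸ CongruenceSubgroup.Gamma N).out⁻¹ • t₀) f
    = _
  by_cases hf : f ∈ MF N F
  · rw [ev_of_mem hf, ev_of_mem hf, hh, mul_inv_rev, inv_inv, mul_smul,
      MF.inv hf ((CongruenceSubgroup.Gamma N).inv_mem h.2)]
  · rw [ev_of_not hf, ev_of_not hf]

theorem vev_j (hN : 0 < N) {z : Fin n × Fn → ℂ} (hz : z ∈ galO F (evs (MF N F) τ)) (k : Fin n) :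
    jInv (rp (MF N F) z k) = z (k, jInv) :=
  (ev_of_mem (MF.j hN) _).symm.trans (congrFun (vev_rp hN hz k) jInv)

theorem galO_fin (hN : 0 < N) (F : IntermediateField ℚ ℂ) (hD : ∀ k, HasDisc (τ k) (D k)) :
    (galO F (evs (MF N F) τ)).Finite := by
  have h1 := Set.Finite.pi' fun k =>
    (finite_orbit (discL_one (hD k))).biUnion fun y _ => vev_fib hN F y
  refine (h1.preimage (f := Function.curry) Function.curry_injective.injOn).subset fun z hz k => ?_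
  refine Set.mem_biUnion (x := z (k, jInv)) ?_ ⟨rp (MF N F) z k, vev_j hN hz k, vev_rp hN hz k⟩
  obtain ⟨σ, -, rfl⟩ := hz
  exact ⟨σ, by rw [jL_one]; exact congrArg σ (ev_of_mem (MF.j hN) (τ k)).symm⟩

theorem mem_ON (hN : 0 < N) (hD : ∀ k, HasDisc (τ k) (D k)) {z : Fin n × Fn → ℂ} :
    z ∈ ON N F τ ↔ z ∈ galO F (evs (MF N F) τ) := mem_fO (galO_fin hN F hD)

theorem ON_ne (hN : 0 < N) (F : IntermediateField ℚ ℂ) (hD : ∀ k, HasDisc (τ k) (D k)) :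
    (ON N F τ).Nonempty := ⟨_, (mem_ON hN hD).2 (galO_self F _)⟩

theorem pj_mem (hN : 0 < N) {z : Fin n × Fn → ℂ} (hz : z ∈ galO F (evs (MF N F) τ)) :
    pj z ∈ galOrbit F fun k => jInv (τ k) := by
  rw [← pj_evs hN F τ]
  exact galO_comp hz fun k : Fin n => (k, jInv)

theorem rp_val (hN : 0 < N) {z : Fin n × Fn → ℂ} (hz : z ∈ galO F (evs (MF N F) τ)) (k : Fin n)
    {f : Fn} (hf : f ∈ MF N F) : f (rp (MF N F) z k) = z (k, f) :=
  (ev_of_mem hf _).symm.trans (congrFun (vev_rp hN hz k) f)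

theorem rp_disc (hN : 0 < N) (hD : ∀ k, HasDisc (τ k) (D k)) {z : Fin n × Fn → ℂ}
    (hz : z ∈ galO F (evs (MF N F) τ)) {k : Fin n} (hk : D k < -576) :
    HasDisc (rp (MF N F) z k) (D k) := by
  obtain ⟨σ, -, hσ⟩ := pj_mem hN hz
  have h1 : jInv (rp (MF N F) z k) = σ (jInv (τ k)) := (vev_j hN hz k).trans (congrFun hσ k)
  obtain ⟨c, t, hc, h2, ht⟩ := disc_gal σ hk (discL_one (hD k)) (isLat_one (rp (MF N F) z k))
    (by rw [jL_one, jL_one, h1])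
  have h3 : jInv t = jInv (rp (MF N F) z k) := by rw [← jL_sp hc t, ← h2, jL_one]
  obtain ⟨γ, hγ⟩ := jInv_inj h3
  rw [hγ]
  exact ht.smul γ

/-- Test functions can be evaluated at any point with the right values. -/
theorem tst_rp (hN : 0 < N) (F : IntermediateField ℚ ℂ) : ∃ B : ℝ, ∀ (n : ℕ) (τ : Fin n → ℍ)
    (D : Fin n → ℤ), (∀ k, HasDisc (τ k) (D k)) → ∀ z ∈ galO F (evs (MF N F) τ), ∀ k,
      B ≤ -(D k : ℝ) → ∀ t : ℍ, (∀ f ∈ MF N F, f t = z (k, f)) → ∀ φ, Tst N F φ →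
        φ t = φ (rp (MF N F) z k) := by
  obtain ⟨B, hB⟩ := sep hN F
  refine ⟨max B 577, fun n τ D hD z hz k hk t ht φ hφ => ?_⟩
  have h1 : D k < -576 := by
    have h2 : (D k : ℝ) < -576 := by linarith [le_max_right B 577]
    exact_mod_cast h2
  obtain ⟨γ, hγ, rfl⟩ := hB _ _ (rp_disc hN hD hz h1) ((le_max_left _ _).trans hk) t
    fun f hf => (ht f hf).trans (rp_val hN hz k hf).symm
  exact hφ γ hγ _

theorem card_pj (hN : 0 < N) (hD : ∀ k, HasDisc (τ k) (D k)) (P : (Fin n → ℂ) → Prop) {δ : ℝ}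
    (h : ({z | z ∈ (galOrbit F fun k => jInv (τ k)) ∧ P z}.ncard : ℝ) ≤
      δ * (galOrbit F fun k => jInv (τ k)).ncard) :
    ({z | z ∈ ON N F τ ∧ P (pj z)}.ncard : ℝ) ≤ δ * (ON N F τ).card := by
  rw [← pj_evs hN F τ] at h
  exact card_comp (galO_fin hN F hD) (fun k : Fin n => (k, jInv)) P h

theorem card_pj2 (hN : 0 < N) (hD : ∀ k, HasDisc (τ k) (D k))
    (P : (Fin n → ℂ) → (Fin n → ℂ) → Prop) {δ : ℝ}
    (h : ({z : (Fin n → ℂ) × (Fin n → ℂ) | z.1 ∈ (galOrbit F fun k => jInv (τ k)) ∧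
      z.2 ∈ (galOrbit F fun k => jInv (τ k)) ∧ P z.1 z.2}.ncard : ℝ) ≤
      δ * (galOrbit F fun k => jInv (τ k)).ncard ^ 2) :
    ({z : (Fin n × Fn → ℂ) × (Fin n × Fn → ℂ) | z.1 ∈ ON N F τ ∧ z.2 ∈ ON N F τ ∧
      P (pj z.1) (pj z.2)}.ncard : ℝ) ≤ δ * (ON N F τ).card ^ 2 := by
  rw [← pj_evs hN F τ] at h
  exact card_comp2 (galO_fin hN F hD) (fun k : Fin n => (k, jInv)) P h

/-- Weights that depend only on the coordinates whose field differs from the fields in `I`. -/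
def Oth (I : Finset (Fin n)) (D : Fin n → ℤ) (ψ : (Fin n × Fn → ℂ) → ℝ) : Prop :=
  ∀ z z' : Fin n × Fn → ℂ,
    (∀ k, (∀ l ∈ I, ¬ IsSquare (D k * D l)) → ∀ f, z (k, f) = z' (k, f)) → ψ z = ψ z'

/-- No isogenies of bounded degree between the coordinates in `I`. -/
def NoIs (L : Filter ℕ) (τ : ℕ → Fin n → ℍ) (I : Finset (Fin n)) : Prop :=
  ∀ k ∈ I, ∀ l ∈ I, k ≠ l → ∀ M : ℕ, 0 < M → ∀ᶠ i in L, ∀ σ : ℂ ≃+* ℂ,
    ¬ Isog M (σ (jInv (τ i k))) (σ (jInv (τ i l)))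

/-- The mean of a test function of level `N`. -/
def IN (N : ℕ) (φ : ℍ →ᵇ ℝ) : ℝ := ∫ τ, φ τ ∂mH (CongruenceSubgroup.Gamma N)

/-- The product of the test functions in `I`. -/
def PT (N : ℕ) (F : IntermediateField ℚ ℂ) (φ : Fin n → (ℍ →ᵇ ℝ)) (I : Finset (Fin n))
    (z : Fin n × Fn → ℂ) : ℝ := ∏ k ∈ I, φ k (rp (MF N F) z k)

end Pool.Agent.EQ
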