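import Pool.Agent.P.MP_ad7a55_nt.VTc
import Mathlib.NumberTheory.ModularForms.ProperlyDiscontinuous
import Mathlib.Topology.ContinuousMap.StoneWeierstrass
import Mathlib.MeasureTheory.Integral.Pi

/-! Approximation by products on the product of curves. -/

set_option autoImplicit false

noncomputable section

open MeasureTheory Topology Filter UpperHalfPlane
open scoped MatrixGroups ENNReal BoundedContinuousFunction

namespace Pool.Agent.EQ

/-- Finite sums of products of continuous functions of one coordinate. -/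
def vsw_P {ι : Type} [Fintype ι] {Y : ι → Type} [∀ k, TopologicalSpace (Y k)]
    (g : (∀ k, Y k) → ℝ) : Prop :=
  ∃ (T : Type) (_ : Fintype T) (c : T → ℝ) (a : T → ∀ k, Y k → ℝ),
    (∀ j k, Continuous (a j k)) ∧ ∀ y, g y = ∑ j, c j * ∏ k, a j k (y k)

theorem vsw_add {ι : Type} [Fintype ι] {Y : ι → Type} [∀ k, TopologicalSpace (Y k)]
    {g h : (∀ k, Y k) → ℝ} (hg : vsw_P g) (hh : vsw_P h) : vsw_P fun y => g y + h y := by
  obtain ⟨T, _, c, a, ha, hg⟩ := hg
  obtain ⟨T', _, c', a', ha', hh⟩ := hh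
  refine ⟨T ⊕ T', inferInstance, Sum.elim c c', Sum.elim a a', ?_, fun y => ?_⟩
  · rintro (j | j) k
    · exact ha j k
    · exact ha' j k
  · simp only [Fintype.sum_sum_type, Sum.elim_inl, Sum.elim_inr, hg y, hh y]

theorem vsw_mul {ι : Type} [Fintype ι] {Y : ι → Type} [∀ k, TopologicalSpace (Y k)]
    {g h : (∀ k, Y k) → ℝ} (hg : vsw_P g) (hh : vsw_P h) : vsw_P fun y => g y * h y := by
  obtain ⟨T, _, c, a, ha, hg⟩ := hg
  obtain ⟨T', _, c', a', ha', hh⟩ := hh
  refine ⟨T × T', inferInstance, fun j => c j.1 * c' j.2, fun j k y => a j.1 k y * a' j.2 k y,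
    fun j k => (ha j.1 k).mul (ha' j.2 k), fun y => ?_⟩
  simp only [hg y, hh y, Fintype.sum_prod_type, Finset.sum_mul_sum, Finset.prod_mul_distrib]
  refine Finset.sum_congr rfl fun i _ => Finset.sum_congr rfl fun j _ => ?_
  ring

theorem vsw_const {ι : Type} [Fintype ι] {Y : ι → Type} [∀ k, TopologicalSpace (Y k)]
    (r : ℝ) : vsw_P (Y := Y) fun _ => r := by
  refine ⟨Unit, inferInstance, fun _ => r, fun _ _ _ => 1, fun _ _ => continuous_const,
    fun y => ?_⟩
  simp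

theorem vsw_one {ι : Type} [Fintype ι] {Y : ι → Type} [∀ k, TopologicalSpace (Y k)]
    (k : ι) {b : Y k → ℝ} (hb : Continuous b) : vsw_P (Y := Y) fun y => b (y k) := by
  classical
  refine ⟨Unit, inferInstance, fun _ => 1,
    fun _ => Function.update (fun l (_ : Y l) => (1 : ℝ)) k b, fun _ l => ?_, fun y => ?_⟩
  · beta_reduce
    by_cases h : l = k
    · subst h
      rw [Function.update_self]
      exact hb
    · rw [Function.update_of_ne h]
      exact continuous_const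
  · beta_reduce
    rw [Fintype.sum_unique, one_mul, Finset.prod_eq_single k]
    · rw [Function.update_self]
    · intro l _ h
      rw [Function.update_of_ne h]
    · intro h
      exact absurd (Finset.mem_univ k) h

/-- The algebra of finite sums of products. -/
def vsw_A {ι : Type} [Fintype ι] (Y : ι → Type) [∀ k, TopologicalSpace (Y k)] :
    Subalgebra ℝ C(∀ k, Y k, ℝ) where
  carrier := {g | vsw_P (g : (∀ k, Y k) → ℝ)}
  mul_mem' := fun hg hh => vsw_mul hg hh
  add_mem' := fun hg hh => vsw_add hg hh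
  algebraMap_mem' := fun r => by
    have h : ((algebraMap ℝ C(∀ k, Y k, ℝ) r : C(∀ k, Y k, ℝ)) : (∀ k, Y k) → ℝ) = fun _ => r := by
      funext y
      simp
    show vsw_P _
    rw [h]
    exact vsw_const r

theorem vsw_sep {ι : Type} [Fintype ι] (Y : ι → Type) [∀ k, TopologicalSpace (Y k)]
    [∀ k, T2Space (Y k)] [∀ k, LocallyCompactSpace (Y k)] : (vsw_A Y).SeparatesPoints := by
  intro x y hxy
  obtain ⟨k, hk⟩ := Function.ne_iff.1 hxy
  obtain ⟨b, h1, h0, -, -⟩ := exists_continuous_one_zero_of_isCompact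
    (isCompact_singleton (x := x k)) (isClosed_singleton (x := y k))
    (Set.disjoint_singleton.2 hk)
  refine ⟨fun z => b (z k), ⟨⟨fun z => b (z k), b.continuous.comp (continuous_apply k)⟩,
    vsw_one k b.continuous, rfl⟩, ?_⟩
  have e1 : b (x k) = 1 := h1 rfl
  have e0 : b (y k) = 0 := h0 rfl
  simp only [e1, e0]
  exact one_ne_zero

theorem sw_prod {ι : Type} [Fintype ι] {Y : ι → Type} [∀ k, TopologicalSpace (Y k)]
    [∀ k, T2Space (Y k)] [∀ k, LocallyCompactSpace (Y k)] {f : (∀ k, Y k) → ℝ}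
    (hf : Continuous f) (hs : HasCompactSupport f) {ε : ℝ} (hε : 0 < ε) :
    ∃ (m : ℕ) (c : Fin m → ℝ) (a : Fin m → ∀ k, Y k → ℝ),
      (∀ j k, Continuous (a j k) ∧ HasCompactSupport (a j k)) ∧
        ∀ y, |f y - ∑ j, c j * ∏ k, a j k (y k)| ≤ ε := by
  have hu : ∀ k, ∃ u : C(Y k, ℝ), Set.EqOn u 1 ((fun y : ∀ k, Y k => y k) '' tsupport f) ∧
      HasCompactSupport u ∧ ∀ x, u x ∈ Set.Icc (0 : ℝ) 1 := fun k => by
    obtain ⟨u, h1, -, h2, h3⟩ := exists_continuous_one_zero_of_isCompact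
      (hs.isCompact.image (continuous_apply k)) isClosed_empty (Set.disjoint_empty _)
    exact ⟨u, h1, h2, h3⟩
  choose u hu1 hu2 hu3 using hu
  have hK : IsCompact (Set.pi Set.univ fun k => tsupport (u k)) :=
    isCompact_univ_pi fun k => (hu2 k).isCompact
  obtain ⟨g, ⟨T, _, c, a, ha, hg⟩, hfg⟩ :=
    ContinuousMap.exists_mem_subalgebra_near_continuous_of_isCompact_of_separatesPoints
      (vsw_sep Y) ⟨f, hf⟩ hK hε
  refine ⟨Fintype.card T, fun j => c ((Fintype.equivFin T).symm j),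
    fun j k y => a ((Fintype.equivFin T).symm j) k y * u k y,
    fun j k => ⟨(ha _ k).mul (u k).continuous, (hu2 k).mul_left⟩, fun y => ?_⟩
  have e1 : ∑ j, c ((Fintype.equivFin T).symm j) *
      ∏ k, a ((Fintype.equivFin T).symm j) k (y k) * u k (y k) = g y * ∏ k, u k (y k) := by
    rw [hg y, Finset.sum_mul, ← (Fintype.equivFin T).symm.sum_comp]
    refine Finset.sum_congr rfl fun j _ => ?_
    rw [Finset.prod_mul_distrib, mul_assoc]
  have e2 : f y = f y * ∏ k, u k (y k) := by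
    by_cases h : y ∈ tsupport f
    · rw [Finset.prod_eq_one fun k _ => hu1 k ⟨y, h, rfl⟩, mul_one]
    · rw [image_eq_zero_of_notMem_tsupport h, zero_mul]
  have h0 : 0 ≤ ∏ k, u k (y k) := Finset.prod_nonneg fun k _ => (hu3 k _).1
  have h1 : ∏ k, u k (y k) ≤ 1 :=
    Finset.prod_le_one (fun k _ => (hu3 k _).1) fun k _ => (hu3 k _).2
  rw [e1, e2, ← sub_mul, abs_mul, abs_of_nonneg h0]
  by_cases hy : y ∈ Set.pi Set.univ fun k => tsupport (u k)
  · have h2 : |f y - g y| ≤ ε := by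
      have := (hfg y hy).le
      rwa [Real.norm_eq_abs, abs_sub_comm] at this
    calc |f y - g y| * ∏ k, u k (y k) ≤ ε * 1 := mul_le_mul h2 h1 h0 hε.le
      _ = ε := mul_one ε
  · obtain ⟨k, hk⟩ : ∃ k, y k ∉ tsupport (u k) := by
      by_contra hc
      exact hy fun k _ => by_contra fun h => hc ⟨k, h⟩
    have h3 : u k (y k) = 0 := image_eq_zero_of_notMem_tsupport hk
    have h4 : ∏ k, u k (y k) = 0 := Finset.prod_eq_zero (Finset.mem_univ k) h3
    rw [h4, mul_zero]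
    exact hε.le

theorem vsw_ccs (Γ : Subgroup SL(2, ℤ)) : ContinuousConstSMul Γ ℍ :=
  ⟨fun γ => continuous_const_smul (Matrix.SpecialLinearGroup.mapGL ℝ (γ : SL(2, ℤ)))⟩

theorem vsw_pd : ProperlyDiscontinuousSMul SL(2, ℤ) ℍ := by
  constructor
  intro K L hK hL
  have h := (Subgroup.properlyDiscontinuousSMul_iff (α := ℍ) 𝒮ℒ).1 inferInstance hK hL
  refine (h.preimage (Matrix.SpecialLinearGroup.mapGL_injective (R := ℤ) (S := ℝ)).injOn).subset
    fun γ hγ => ⟨⟨γ, rfl⟩, hγ⟩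

theorem vsw_oq (Γ : Subgroup SL(2, ℤ)) :
    IsOpenQuotientMap (Quotient.mk (MulAction.orbitRel Γ ℍ)) := by
  have := vsw_ccs Γ
  exact MulAction.isOpenQuotientMap_quotientMk

theorem YG_t2 (Γ : Subgroup SL(2, ℤ)) : T2Space (YG Γ) := by
  have := vsw_ccs Γ
  have := vsw_pd
  exact t2Space_of_properlyDiscontinuousSMul_of_t2Space

theorem YG_lc (Γ : Subgroup SL(2, ℤ)) : LocallyCompactSpace (YG Γ) :=
  (vsw_oq Γ).locallyCompactSpace

theorem vsw_lift {X Z : Type} [TopologicalSpace X] [TopologicalSpace Z]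
    [WeaklyLocallyCompactSpace X] {π : X → Z} (hπ : IsOpenQuotientMap π) {S : Set Z}
    (hS : IsCompact S) : ∃ K : Set X, IsCompact K ∧ S ⊆ π '' K := by
  refine hS.induction_on (p := fun S => ∃ K : Set X, IsCompact K ∧ S ⊆ π '' K) ?_ ?_ ?_ ?_
  · exact ⟨∅, isCompact_empty, Set.empty_subset _⟩
  · rintro s t hst ⟨K, hK, h⟩
    exact ⟨K, hK, hst.trans h⟩
  · rintro s t ⟨K, hK, h⟩ ⟨K', hK', h'⟩
    refine ⟨K ∪ K', hK.union hK', ?_⟩
    rw [Set.image_union]
    exact Set.union_subset_union h h'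
  · intro z _
    obtain ⟨x, rfl⟩ := hπ.surjective z
    obtain ⟨K, hK, hx⟩ := exists_compact_mem_nhds x
    exact ⟨π '' K, mem_nhdsWithin_of_mem_nhds (hπ.isOpenMap.image_mem_nhds hx), K, hK,
      Set.Subset.rfl⟩

theorem YG_pull {Γ : Subgroup SL(2, ℤ)} {a : YG Γ → ℝ} (hc : Continuous a)
    (hs : HasCompactSupport a) :
    ∃ b : ℍ →ᵇ ℝ, (∀ τ, b τ = a (Quotient.mk _ τ)) ∧ CSp b := by
  obtain ⟨C, hC⟩ := hc.bounded_above_of_compact_support hs
  refine ⟨BoundedContinuousFunction.ofNormedAddCommGroup (fun τ => a (Quotient.mk _ τ))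
    (hc.comp (vsw_oq Γ).continuous) C fun τ => hC _, fun τ => rfl, ?_⟩
  obtain ⟨K, hK, hS⟩ := vsw_lift (vsw_oq Γ) hs.isCompact
  refine ⟨K, hK, fun τ hτ => ?_⟩
  obtain ⟨x, hx, he⟩ := hS (subset_tsupport a hτ)
  obtain ⟨γ, hγ⟩ : x ∈ MulAction.orbit Γ τ := MulAction.orbitRel_apply.1 (Quotient.exact he)
  refine ⟨γ, ?_⟩
  have e : (γ : SL(2, ℤ)) • τ = x := hγ
  rw [e]
  exact hx

theorem vsw_avg_sum {α T : Type} [Fintype T] (O : Finset α) (c : T → ℝ) (G : T → α → ℝ) :
    avg O (fun y => ∑ j, c j * G j y) = ∑ j, c j * avg O (G j) := by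
  simp only [avg]
  rw [Finset.sum_comm, Finset.sum_div]
  refine Finset.sum_congr rfl fun j _ => ?_
  rw [← Finset.mul_sum, mul_div_assoc]

theorem vsw_avg_sub {α : Type} (O : Finset α) {F G : α → ℝ} {ε : ℝ} (hε : 0 ≤ ε)
    (h : ∀ y, |F y - G y| ≤ ε) : |avg O F - avg O G| ≤ ε := by
  rcases O.eq_empty_or_nonempty with rfl | hO
  · simpa [avg] using hε
  · have e : avg O F - avg O G = avg O fun y => F y - G y := by
      simp only [avg]
      rw [Finset.sum_sub_distrib, sub_div]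
    rw [e]
    exact abs_avg_le hO _ fun z _ => h z

theorem vsw_int {n : ℕ} {Γ : Fin n → Subgroup SL(2, ℤ)} (μ : Measure (Fin n → ℍ))
    [IsProbabilityMeasure μ] {F : (∀ k, YG (Γ k)) → ℝ} (hF : Continuous F) {C : ℝ}
    (hC : ∀ y, ‖F y‖ ≤ C) : Integrable (fun w : Fin n → ℍ => F fun k => Quotient.mk _ (w k)) μ := by
  have hc : Continuous fun w : Fin n → ℍ => F fun k => Quotient.mk _ (w k) :=
    hF.comp (continuous_pi fun k => (vsw_oq (Γ k)).continuous.comp (continuous_apply k))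
  exact Integrable.of_bound hc.aestronglyMeasurable C (Eventually.of_forall fun w => hC _)

/-- Convergence for products of functions of one variable is enough. -/
theorem final_prod {n : ℕ} (Γ : Fin n → Subgroup SL(2, ℤ)) [∀ k, (Γ k).FiniteIndex]
    (O : ℕ → Set (∀ k, YG (Γ k))) (hO : ∀ i, (O i).Finite)
    (h : ∀ a : ∀ k, YG (Γ k) → ℝ, (∀ k, Continuous (a k) ∧ HasCompactSupport (a k)) →
      Tendsto (fun i => avg (fO (O i)) fun y => ∏ k, a k (y k)) atTop
        (𝓝 (∏ k, ∫ w, a k (Quotient.mk _ w) ∂mH (Γ k))))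
    (f : (∀ k, YG (Γ k)) → ℝ) (hf : Continuous f) (hs : HasCompactSupport f) :
    Tendsto (fun i => (∑ᶠ y ∈ O i, f y) / (O i).ncard) atTop
      (𝓝 (∫ w, f (fun k => Quotient.mk _ (w k)) ∂(Measure.pi fun k => mH (Γ k)))) := by
  have := fun k => YG_t2 (Γ k)
  have := fun k => YG_lc (Γ k)
  have : ∀ k, IsProbabilityMeasure (mH (Γ k)) := fun k => mH_prob
  have e0 : (fun i => (∑ᶠ y ∈ O i, f y) / (O i).ncard) = fun i => avg (fO (O i)) f := by
    funext i
    rw [avg, card_fO, fO_eq (hO i), finsum_mem_eq_finite_toFinset_sum f (hO i)]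
  rw [e0, Metric.tendsto_atTop]
  intro ε hε
  obtain ⟨m, c, a, ha, hfa⟩ := sw_prod hf hs (show 0 < ε / 4 by positivity)
  have hpc : ∀ j, Continuous fun y : ∀ k, YG (Γ k) => ∏ k, a j k (y k) := fun j =>
    continuous_finsetProd _ fun k _ => (ha j k).1.comp (continuous_apply k)
  have hpb : ∀ j, ∃ C, ∀ y : ∀ k, YG (Γ k), ‖∏ k, a j k (y k)‖ ≤ C := fun j => by
    choose C hC using fun k => (ha j k).1.bounded_above_of_compact_support (ha j k).2
    refine ⟨∏ k, C k, fun y => ?_⟩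
    rw [norm_prod]
    exact Finset.prod_le_prod (fun k _ => norm_nonneg _) fun k _ => hC k _
  have hpi : ∀ j, Integrable (fun w : Fin n → ℍ => ∏ k, a j k (Quotient.mk _ (w k)))
      (Measure.pi fun k => mH (Γ k)) := fun j => by
    obtain ⟨C, hC⟩ := hpb j
    exact vsw_int _ (hpc j) hC
  obtain ⟨C, hC⟩ := hf.bounded_above_of_compact_support hs
  have hfi := vsw_int (Measure.pi fun k => mH (Γ k)) hf hC
  have hgi : Integrable (fun w : Fin n → ℍ => ∑ j, c j * ∏ k, a j k (Quotient.mk _ (w k)))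
      (Measure.pi fun k => mH (Γ k)) :=
    integrable_finsetSum _ fun j _ => (hpi j).const_mul (c j)
  have e1 : ∫ w : Fin n → ℍ, ∑ j, c j * ∏ k, a j k (Quotient.mk _ (w k))
      ∂(Measure.pi fun k => mH (Γ k)) = ∑ j, c j * ∏ k, ∫ w, a j k (Quotient.mk _ w) ∂mH (Γ k) := by
    rw [integral_finsetSum _ fun j _ => (hpi j).const_mul (c j)]
    refine Finset.sum_congr rfl fun j _ => ?_
    rw [integral_const_mul,
      integral_fintype_prod_eq_prod (fun k (w : ℍ) => a j k (Quotient.mk _ w))]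
  have h1 : |(∑ j, c j * ∏ k, ∫ w, a j k (Quotient.mk _ w) ∂mH (Γ k)) -
      ∫ w, f (fun k => Quotient.mk _ (w k)) ∂(Measure.pi fun k => mH (Γ k))| ≤ ε / 4 := by
    rw [← e1, ← integral_sub hgi hfi, ← Real.norm_eq_abs]
    refine (norm_integral_le_of_norm_le_const (C := ε / 4) (Eventually.of_forall fun w => ?_)).trans ?_
    · rw [Real.norm_eq_abs, abs_sub_comm]
      exact hfa fun k => Quotient.mk _ (w k)
    · rw [probReal_univ, mul_one]
  have h2 : Tendsto (fun i => ∑ j, c j * avg (fO (O i)) fun y => ∏ k, a j k (y k)) atTop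
      (𝓝 (∑ j, c j * ∏ k, ∫ w, a j k (Quotient.mk _ w) ∂mH (Γ k))) :=
    tendsto_finsetSum _ fun j _ => (h (a j) (ha j)).const_mul (c j)
  obtain ⟨N, hN⟩ := Metric.tendsto_atTop.1 h2 (ε / 4) (by positivity)
  refine ⟨N, fun i hi => ?_⟩
  have h3 := hN i hi
  have h4 := vsw_avg_sub (fO (O i)) (show 0 ≤ ε / 4 by positivity) hfa
  rw [vsw_avg_sum] at h4
  rw [Real.dist_eq] at h3 ⊢
  have h5 := abs_sub_le (avg (fO (O i)) f)
    (∑ j, c j * avg (fO (O i)) fun y => ∏ k, a j k (y k))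
    (∑ j, c j * ∏ k, ∫ w, a j k (Quotient.mk _ w) ∂mH (Γ k))
  have h6 := abs_sub_le (avg (fO (O i)) f)
    (∑ j, c j * ∏ k, ∫ w, a j k (Quotient.mk _ w) ∂mH (Γ k))
    (∫ w, f (fun k => Quotient.mk _ (w k)) ∂(Measure.pi fun k => mH (Γ k)))
  linarith

end Pool.Agent.EQ
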