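import Pool.Agent.P.MP_ad7a55_nt.VM
import Pool.Agent.P.MP_ad7a55_nt.VAv
import Pool.Agent.P.MP_ad7a55_nt.VSw

/-! The reduction of the statement to the curve of full level. -/

set_option autoImplicit false

noncomputable section

open MeasureTheory Topology Filter UpperHalfPlane
open scoped MatrixGroups ENNReal BoundedContinuousFunction

namespace Pool.Agent.EQ

variable {n N : ℕ} {F L F' : IntermediateField ℚ ℂ} {Γ : Fin n → Subgroup SL(2, ℤ)}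
  {B : Fin n → Set (ℍ → ℂ)}

/-- The lifts of the orbit to the upper half planes. -/
def orbW (F : IntermediateField ℚ ℂ) (B : Fin n → Set (ℍ → ℂ)) (τ : Fin n → ℍ) :
    Set (Fin n → ℍ) :=
  {w | ∃ σ : ℂ ≃+* ℂ, (∀ a ∈ F, σ a = a) ∧ ∀ k, ∀ f ∈ B k, f (w k) = σ (f (τ k))}

theorem orbG_eq (τ : Fin n → ℍ) :
    orbG F Γ B τ = (fun w k => Quotient.mk _ (w k)) '' orbW F B τ := by
  ext y
  constructor
  · rintro ⟨σ, w, h1, h2, h3⟩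
    exact ⟨w, ⟨σ, h1, h3⟩, (funext h2).symm⟩
  · rintro ⟨w, ⟨σ, h1, h3⟩, rfl⟩
    exact ⟨σ, w, h1, fun _ => rfl, h3⟩

theorem vf_eq (Λ : Subgroup SL(2, ℤ)) (a b : ℍ) :
    (Quotient.mk _ a : YG Λ) = Quotient.mk _ b ↔ ∃ γ ∈ Λ, b = γ • a := by
  rw [eq_comm, Quotient.eq, MulAction.orbitRel_apply]
  exact ⟨fun ⟨g, h⟩ => ⟨g, g.2, h.symm⟩, fun ⟨g, hg, h⟩ => ⟨⟨g, hg⟩, h.symm⟩⟩

theorem vf_fin {β : Type} {W : Set (Fin n → ℍ)} (hf : (mkN N '' W).Finite) (π : (Fin n → ℍ) → β)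
    (h : ∀ w w' : Fin n → ℍ, (∀ k, ∃ γ ∈ CongruenceSubgroup.Gamma N, w' k = γ • w k) →
      π w = π w') : (π '' W).Finite := by
  refine (hf.image fun y => π fun k => (y k).out).subset ?_
  rintro _ ⟨w, hw, rfl⟩
  exact ⟨_, ⟨w, hw, rfl⟩, h _ _ fun k => (vf_eq _ _ _).1 (Quotient.out_eq _)⟩

theorem vf_evs {w w' : Fin n → ℍ} (h : ∀ k, ∃ γ ∈ G0 N F, w' k = γ • w k) :
    evs (MF N F) w = evs (MF N F) w' := by
  funext ⟨k, f⟩
  obtain ⟨γ, hγ, e⟩ := h k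
  change evA _ (w k) f = evA _ (w' k) f
  by_cases hf : f ∈ MF N F
  · rw [ev_of_mem hf, ev_of_mem hf, e, hγ f hf]
  · rw [ev_of_not hf, ev_of_not hf]

theorem vf_avg {α : Type} {O : Finset α} (hO : O.Nonempty) (G : α → ℝ) (c : ℝ) :
    avg O (fun z => G z - c) = avg O G - c := by
  have hc : (O.card : ℝ) ≠ 0 := Nat.cast_ne_zero.2 hO.card_pos.ne'
  rw [avg, avg, Finset.sum_sub_distrib, Finset.sum_const, nsmul_eq_mul, sub_div,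
    mul_div_cancel_left₀ _ hc]

theorem orbG_fin (hN : 0 < N) (hΓ : ∀ k, CongruenceSubgroup.Gamma N ≤ Γ k)
    (hj : ∀ k, jInv ∈ B k) {τ : Fin n → ℍ} {D : Fin n → ℤ} (hD : ∀ k, HasDisc (τ k) (D k)) :
    (mkN N '' orbW F B τ).Finite ∧ (orbG F Γ B τ).Finite := by
  have h1 : (mkN N '' orbW F B τ).Finite := finite_mkN hN (orbit_finite F hD)
    fun w ⟨σ, hσ, hw⟩ => ⟨σ, hσ, funext fun k => hw k _ (hj k)⟩
  refine ⟨h1, ?_⟩
  rw [orbG_eq]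
  exact vf_fin h1 _ fun w w' h => funext fun k =>
    (vf_eq _ _ _).2 ((h k).imp fun γ hγ => ⟨hΓ k hγ.1, hγ.2⟩)

/-- The average over the orbit is dominated by the average over one orbit of full level. -/
theorem orb_worst (hN : 0 < N) (hΓ : ∀ k, CongruenceSubgroup.Gamma N ≤ Γ k)
    (hj : ∀ k, jInv ∈ B k) (hB : ∀ k, ∀ f ∈ B k, IsMF (Γ k) N L f) (hF : F ≤ F') (hL : L ≤ F')
    (a : ∀ k, YG (Γ k) → ℝ) (ha : ∀ k, Continuous (a k) ∧ HasCompactSupport (a k)) :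
    ∃ (φ : Fin n → (ℍ →ᵇ ℝ)) (Y : ℝ),
      (∀ k, Tc N F' (φ k) ∧ IN N (φ k) = ∫ w, a k (Quotient.mk _ w) ∂mH (Γ k)) ∧
      ∀ (τ : Fin n → ℍ) (D : Fin n → ℤ), (∀ k, HasDisc (τ k) (D k)) → ∀ c : ℝ,
        ∃ (w : Fin n → ℍ) (σ : ℂ ≃+* ℂ), (∀ k, HasDisc (w k) (D k)) ∧
          (∀ k, jInv (w k) = σ (jInv (τ k))) ∧ ((∀ k, Y ≤ -(D k : ℝ)) →
            |avg (fO (orbG F Γ B τ)) (fun y => ∏ k, a k (y k)) - c| ≤
              |avg (ON N F' w) (PT N F' φ Finset.univ) - c|) := by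
  choose b hb hbs using fun k => YG_pull (ha k).1 (ha k).2
  have hbΓ : ∀ k, ∀ γ ∈ Γ k, ∀ t : ℍ, b k (γ • t) = b k t := fun k γ hγ t => by
    rw [hb, hb, (vf_eq (Γ k) t (γ • t)).2 ⟨γ, hγ, rfl⟩]
  obtain ⟨φ, hφ, hφW⟩ := exists_tc hN F' b fun k => ⟨fun γ hγ => hbΓ k γ (hΓ k hγ), hbs k⟩
  obtain ⟨B1, hB1⟩ := sep hN F'
  obtain ⟨B2, hB2⟩ := tst_rp hN F'
  have hBM : ∀ k, ∀ f ∈ B k, f ∈ MF N F' := fun k f hf => (hB k f hf).mf (hΓ k) hL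
  refine ⟨φ, max 577 (max B1 B2), fun k => ⟨(hφ k).1, ?_⟩, fun τ D hD c => ?_⟩
  · have : NeZero N := ⟨hN.ne'⟩
    have : (Γ k).FiniteIndex := Subgroup.finiteIndex_of_le (hΓ k)
    rw [(hφ k).2, IN, integral_level (hΓ k) (b k).continuous.measurable (hbΓ k)]
    simp only [hb]
  by_cases hY : ∀ k, max 577 (max B1 B2) ≤ -(D k : ℝ)
  swap
  · exact ⟨τ, RingEquiv.refl _, hD, fun _ => rfl, fun h => absurd h hY⟩
  have hD1 : ∀ k, D k < -576 := fun k => by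
    have h1 : ((577 : ℤ) : ℝ) ≤ ((-D k : ℤ) : ℝ) := by
      push_cast
      exact (le_max_left _ _).trans (hY k)
    have h2 := Int.cast_le.1 h1
    omega
  have hf := (orbG_fin (F := F) hN hΓ hj hD).1
  have hWD : ∀ w ∈ orbW F B τ, ∀ k, HasDisc (w k) (D k) := by
    rintro w ⟨σ, hσ, hw⟩ k
    obtain ⟨t, ht, e⟩ := orbit_lift (F := F) hD hD1 ⟨σ, hσ, rfl⟩ k
    obtain ⟨γ, hγ⟩ := jInv_inj (e.trans (hw k _ (hj k)).symm)
    rw [hγ]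
    exact ht.smul γ
  have hst : ∀ w ∈ orbW F B τ, ∀ (k : Fin n) (γ : SL(2, ℤ)), γ • w k = w k → γ = 1 ∨ γ = -1 :=
    fun w hw k γ h => (hWD w hw k).stab (by have := hD1 k; omega) h
  have hW : ∀ γ : Fin n → SL(2, ℤ), (∀ k, ∀ f ∈ B k, ∀ t : ℍ, f (γ k • t) = f t) →
      ∀ w ∈ orbW F B τ, (fun k => γ k • w k) ∈ orbW F B τ :=
    fun γ h w ⟨σ, hσ, hw⟩ => ⟨σ, hσ, fun k f hf => (h k f hf _).trans (hw k f hf)⟩
  have hW0 : ∀ γ : Fin n → SL(2, ℤ), (∀ k, γ k ∈ G0 N F') →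
      ∀ w ∈ orbW F B τ, (fun k => γ k • w k) ∈ orbW F B τ :=
    fun γ h => hW γ fun k f hf => h k f (hBM k f hf)
  have e1 := avW_eq Γ hΓ hf (fun γ h => hW γ fun k f hf => (hB k f hf).1 _ (h k)) hst
    (fun w k => (Quotient.mk _ (w k) : YG (Γ k)))
    (fun w _ w' _ => funext_iff.trans (forall_congr' fun k => vf_eq _ _ _))
    (fun w => ∏ k, b k (w k)) (fun y => ∏ k, a k (y k)) fun w _ => by simp only [hb]
  have e3 := avW_eq (fun _ => G0 N F') (fun _ => Gamma_le_G0) hf hW0 hst (evs (MF N F'))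
    (fun w hw w' _ => ⟨fun e k => hB1 _ _ (hWD w hw k)
      ((le_max_left _ _).trans ((le_max_right _ _).trans (hY k))) _ fun f hf =>
        (ev_of_mem hf _).symm.trans ((congrFun e (k, f)).symm.trans (ev_of_mem hf _)), vf_evs⟩)
    (fun w => ∏ k, φ k (w k)) (PT N F' φ Finset.univ) fun w hw =>
      Finset.prod_congr rfl fun k _ => hB2 n w D (hWD w hw) _ (galO_self _ _) k
        ((le_max_right _ _).trans ((le_max_right _ _).trans (hY k))) _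
        (fun f hf => (ev_of_mem hf _).symm) _ (hφ k).1.1
  have hZ : (evs (MF N F') '' orbW F B τ).Finite :=
    vf_fin hf _ fun w w' h => vf_evs fun k => (h k).imp fun γ hγ => ⟨Gamma_le_G0 hγ.1, hγ.2⟩
  have hτ : τ ∈ orbW F B τ := ⟨RingEquiv.refl _, fun _ _ => rfl, fun _ _ _ => rfl⟩
  obtain ⟨_, ⟨w, hw, rfl⟩, hle⟩ := exists_worst (F := F') hZ ⟨_, τ, hτ, rfl⟩ (by
    rintro _ ⟨w, ⟨σ₀, h₀, hw⟩, rfl⟩ _ ⟨σ, hσ, rfl⟩
    choose w' hw' using fun k => exists_conj hN hσ (w k)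
    refine ⟨w', ⟨σ₀.trans σ, fun x hx => ?_, fun k f hf => ?_⟩, funext fun ⟨k, f⟩ => ?_⟩
    · rw [RingEquiv.trans_apply, h₀ x hx, hσ x (hF hx)]
    · rw [RingEquiv.trans_apply, hw' k f (hBM k f hf), hw k f hf]
    · change evA _ (w' k) f = σ (evA _ (w k) f)
      by_cases hf : f ∈ MF N F'
      · rw [ev_of_mem hf, ev_of_mem hf, hw' k f hf]
      · rw [ev_of_not hf, ev_of_not hf, map_zero]) fun z => PT N F' φ Finset.univ z - c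
  have hD' := hWD w hw
  obtain ⟨σ, -, hσ⟩ := hw
  refine ⟨w, σ, hD', fun k => hσ k _ (hj k), fun _ => ?_⟩
  rw [orbG_eq, ← e1, hφW _ hf hW0, e3, ← vf_avg ⟨_, (mem_fO hZ).2 ⟨τ, hτ, rfl⟩⟩,
    ← vf_avg (ON_ne hN F' hD')]
  exact hle

theorem final4 {E : Set ℕ} (hE : GoodE E) (hN : 0 < N)
    (hΓ : ∀ k, CongruenceSubgroup.Gamma N ≤ Γ k) [FiniteDimensional ℚ F] [FiniteDimensional ℚ L]
    (hj : ∀ k, jInv ∈ B k) (hB : ∀ k, ∀ f ∈ B k, IsMF (Γ k) N L f) (S : Finset ℕ)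
    (hS : ∀ p ∈ S, p.Prime) (T : Finset ℤ) {η c : ℝ} (hη : 0 < η) (hc : 0 < c)
    (τ : ℕ → Fin n → ℍ) (D : ℕ → Fin n → ℤ) (hD : ∀ i k, HasDisc (τ i k) (D i k))
    (hdom : ∀ k, ∀ᶠ i in atTop,
      |(D i k : ℝ)| ^ η ≤ ∏ p ∈ S, (p : ℝ) ^ padicValInt p (D i k) ∨
        ∃ d f : ℤ, Squarefree d ∧ D i k = f ^ 2 * d ∧ (d ∈ T ∨ d.natAbs ∉ E ∨
          (NoZero c d ∧ ∃ p ∈ S, ∃ q ∈ S,
            p ≠ q ∧ p ≠ 2 ∧ q ≠ 2 ∧ jacobiSym d p = 1 ∧ jacobiSym d q = 1)))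
    (hpt : ∀ k, ∀ z : ℂ, {i | jInv (τ i k) = z}.Finite)
    (hgen : ∀ k l, k ≠ l → ∀ a b c d : ℤ, 0 < a * d - b * c →
      {i | ∃ z w : ℍ, (w : ℂ) = (a * z + b) / (c * z + d) ∧ jInv (τ i k) = jInv z ∧
        jInv (τ i l) = jInv w}.Finite)
    (f : (∀ k, YG (Γ k)) → ℝ) (hf : Continuous f) (hs : HasCompactSupport f) :
    (∀ i, (orbG F Γ B (τ i)).Finite) ∧
      Tendsto (fun i => (∑ᶠ y ∈ orbG F Γ B (τ i), f y) / (orbG F Γ B (τ i)).ncard) atTop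
        (𝓝 (∫ w, f (fun k => Quotient.mk _ (w k)) ∂(Measure.pi fun k => mH (Γ k)))) := by
  obtain ⟨F', hF', hF, hL, -⟩ := exists_field F L hN
  have : NeZero N := ⟨hN.ne'⟩
  have : ∀ k, (Γ k).FiniteIndex := fun k => Subgroup.finiteIndex_of_le (hΓ k)
  have hfin := fun i => (orbG_fin (F := F) hN hΓ hj (hD i)).2
  refine ⟨hfin, final_prod Γ _ hfin (fun a ha => ?_) f hf hs⟩
  obtain ⟨φ, Y, hφ, hw⟩ := orb_worst hN hΓ hj hB hF hL a ha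
  choose w σ h1 h2 h3 using fun i => hw (τ i) (D i) (hD i) (∏ k, IN N (φ k))
  have hinf : ∀ Y : ℝ, ∀ᶠ i in atTop, ∀ k, Y ≤ -(D i k : ℝ) := fun Y =>
    eventually_all.2 fun k => disc_tendsto (fun i => hD i k) (hpt k) Y
  have hno : NoIsog w := fun k l hkl M hM => by
    filter_upwards [noIsog_of_finite τ hgen k l hkl M hM] with i hi σ'
    rw [h2, h2]
    exact hi ((σ i).trans σ')
  have key := mainW hE hN S hS T hη hc h1 hdom hinf hno fun k => (hφ k).1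
  simp only [← fun k => (hφ k).2]
  rw [tendsto_iff_norm_sub_tendsto_zero] at key ⊢
  exact squeeze_zero' (Eventually.of_forall fun _ => norm_nonneg _)
    ((hinf Y).mono fun i hi => h3 i hi) key

end Pool.Agent.EQ
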