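import Pool.Agent.P.MP_ad7a55_nt.UMc
import Pool.Agent.P.MP_ad7a55_nt.VEv

/-! Diagonal frames: complements. -/

set_option autoImplicit false

noncomputable section

open MeasureTheory Topology Filter UpperHalfPlane
open scoped MatrixGroups ENNReal BoundedContinuousFunction

namespace Pool.Agent.EQ

variable {p q : ℕ} [Fact p.Prime] [Fact q.Prime]

theorem exists_fd2 (hpq : p ≠ q) (h2 : p ≠ 2) (h2' : q ≠ 2) (F : IntermediateField ℚ ℂ)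
    [FiniteDimensional ℚ F] (n c : ℕ) :
    ∃ (M : ℕ) (T : Finset SL(2, ℚ_[p])) (T' : Finset SL(2, ℚ_[q])), 0 < M ∧
      (∀ h ∈ T, Bd ((p : ℝ) ^ c) (h : Matrix (Fin 2) (Fin 2) ℚ_[p])) ∧
      ∀ (τ : Fin n → ℍ) (D : Fin n → ℤ) (j : Fin n) (J : Finset (Fin n)),
        (∀ k, HasDisc (τ k) (D k)) → j ∈ J → ∃ ρ rp rq x hp hq, ∃ s s' : ℂ ≃+* ℂ,
          (∀ k, D k < -576) →
          (∀ k ∈ J, IsSquare (D k * D j) ∧ (∃ κ ≤ c, Spl p κ (D k)) ∧ ∃ κ ≤ c, Spl q κ (D k)) →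
          FD p q F (fun k => jInv (τ k)) D j J M T T' ρ rp rq x hp hq
            fun u => s ^ u.1 * s' ^ u.2 := by
  classical
  obtain ⟨M, hM, hcm⟩ := cm_pow F n
  obtain ⟨T, T', hT, hT', hcf⟩ := exists_cf p q hpq h2 h2' c
  refine ⟨M, T, T', hM, hT, fun τ D j J h hj => ?_⟩
  by_cases H : (∀ k, D k < -576) ∧
    ∀ k ∈ J, IsSquare (D k * D j) ∧ (∃ κ ≤ c, Spl p κ (D k)) ∧ ∃ κ ≤ c, Spl q κ (D k)
  swap
  · exact ⟨fun _ => 0, fun _ => 0, fun _ => 0, fun _ _ => ((1 : G3 p q) : X3 p q), fun _ _ => 1,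
      fun _ _ => 1, RingEquiv.refl _, RingEquiv.refl _, fun h₁ h₂ => absurd ⟨h₁, h₂⟩ H⟩
  obtain ⟨hD, hJ⟩ := H
  have hneg : ∀ k, D k < 0 := fun k => by linarith [hD k]
  have h1 : ∀ k, ∃ ρ : ℚ, IsSquare (D k * D j) → 0 < ρ ∧ ρ ^ 2 * D k = D j ∧
      th (D j) = ρ * th (D k) := by
    intro k
    by_cases hk : IsSquare (D k * D j)
    · obtain ⟨ρ, hρ⟩ := exists_ratio (hneg k) (hneg j) hk
      exact ⟨ρ, fun _ => hρ⟩
    · exact ⟨0, fun h' => absurd h' hk⟩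
  choose ρ hρ using h1
  have hρj : ρ j = 1 := by
    have hsq : IsSquare (D j * D j) := ⟨D j, rfl⟩
    have h4 := (hρ j hsq).2.1
    have h5 : (D j : ℚ) ≠ 0 := by exact_mod_cast (hneg j).ne
    have h6 : ρ j ^ 2 = 1 := mul_right_cancel₀ h5 (by rw [h4, one_mul])
    exact (pow_eq_one_iff_of_nonneg (hρ j hsq).1.le two_ne_zero).1 h6
  obtain ⟨κp, -, hκp⟩ := (hJ j hj).2.1
  obtain ⟨κq, -, hκq⟩ := (hJ j hj).2.2
  obtain ⟨r, hr, -⟩ := Spl.sqrt p h2 hκp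
  obtain ⟨r', hr', -⟩ := Spl.sqrt q h2' hκq
  have hr0 : r ≠ 0 := by
    rintro rfl
    have h3 : ((D j : ℤ) : ℚ_[p]) = 0 := by rw [← hr]; simp
    exact (hneg j).ne (by exact_mod_cast h3)
  have hr0' : r' ≠ 0 := by
    rintro rfl
    have h3 : ((D j : ℤ) : ℚ_[q]) = 0 := by rw [← hr']; simp
    exact (hneg j).ne (by exact_mod_cast h3)
  obtain ⟨A, B, hA, hB⟩ := exists_AB p h2 hr0 (2 * c)
  obtain ⟨A', B', hA', hB'⟩ := exists_AB q h2' hr0' (2 * c)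
  have hcard : (Finset.univ.image D).card ≤ n := Finset.card_image_le.trans (by simp)
  have hall : ∀ D' ∈ Finset.univ.image D, D' < -576 ∧ IsD D' := fun D' hD' => by
    obtain ⟨k, -, rfl⟩ := Finset.mem_image.1 hD'
    exact ⟨hD k, (discL_one (h k)).isD⟩
  have hmem : ∀ k, D k ∈ Finset.univ.image D := fun k =>
    Finset.mem_image_of_mem _ (Finset.mem_univ k)
  obtain ⟨s, hs, hs1⟩ := hcm p _ hcard hall (D j) (hmem j) _ (inK_AB p (hneg j) hA)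
  obtain ⟨s', hs', hs2⟩ := hcm q _ hcard hall (D j) (hmem j) _ (inK_AB q (hneg j) hA')
  have h3 : ∀ (z : Fin n → ℂ) (k : J), ∃ (hp : SL(2, ℚ_[p])) (hq : SL(2, ℚ_[q])) (x : X3 p q),
      z ∈ (galOrbit F fun k => jInv (τ k)) → hp ∈ T ∧ hq ∈ T' ∧
        CF p q (D k) (r / ρ k) (r' / ρ k) hp hq x ∧ j3 p q (iP p q hp • x) = z k := by
    intro z k
    by_cases hz : z ∈ (galOrbit F fun k => jInv (τ k))
    · obtain ⟨t, ht, hjt⟩ := orbit_lift h hD hz k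
      obtain ⟨hk1, hk2, hk3⟩ := hJ k k.2
      have e1 := umd_sq p (hρ k hk1).1 (hρ k hk1).2.1 hr
      have e2 := umd_sq q (hρ k hk1).1 (hρ k hk1).2.1 hr'
      obtain ⟨hp, hp1, hq, hq1, x, hx, hx'⟩ := hcf t (D k) _ _ ht e1 e2 (umd_norm p h2 hk2 e1)
        (umd_norm q h2' hk3 e2)
      exact ⟨hp, hq, x, fun _ => ⟨hp1, hq1, hx, hx'.trans hjt⟩⟩
    · exact ⟨1, 1, ((1 : G3 p q) : X3 p q), fun h' => absurd h' hz⟩
  choose hp hq x hx using h3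
  have key : ∀ z ∈ (galOrbit F fun k => jInv (τ k)), ∀ (u : ℕ × ℕ) (k : J),
      CF p q (D k) (r / ρ k) (r' / ρ k) (hp z k) (hq z k)
          (a3 p q (M * u.1) • b3 p q (hq z k) (M * u.2) • x z k) ∧
        j3 p q (iP p q (hp z k) • a3 p q (M * u.1) • b3 p q (hq z k) (M * u.2) • x z k) =
          (s ^ u.1 * s' ^ u.2) (z k) := by
    intro z hz u k
    obtain ⟨m1, m2, m3, m4⟩ := hx z k hz
    obtain ⟨hk1, -, -⟩ := hJ k k.2
    obtain ⟨ρ0, -, ρ2⟩ := hρ k hk1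
    have e : ∀ A B : ℚ, ((A : ℂ) + ((B * ρ k : ℚ) : ℂ) * th (D k)) = A + B * th (D j) := by
      intro A B
      rw [ρ2]
      push_cast
      ring
    rw [← m4]
    refine CF.orbit hpq m3 (hT _ m1) (hT' _ m2) (A := A) (B := B * ρ k) (A' := A')
      (B' := B' * ρ k) ?_ ?_ ?_ ?_ (fun Λ hΛ => ?_) (fun Λ hΛ => ?_) u.1 u.2
    · rw [umd_mul p ρ0]; exact hA
    · rw [umd_mul p ρ0]; exact hB
    · rw [umd_mul q ρ0]; exact hA'
    · rw [umd_mul q ρ0]; exact hB'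
    · rw [e]; exact (hs1 _ (hmem k) Λ hΛ).1 hk1
    · rw [e]; exact (hs2 _ (hmem k) Λ hΛ).1 hk1
  refine ⟨ρ, fun k => r / ρ k, fun k => r' / ρ k, x, hp, hq, s, s',
    fun _ _ => ⟨?_, ?_, ?_, ?_, ?_, ?_⟩⟩
  · intro u a ha
    exact umd_pow2 (hs a ha) (hs' a ha) _ _
  · intro k hk
    obtain ⟨ρ0, ρ1, -⟩ := hρ k (hJ k hk).1
    refine ⟨ρ0, ρ1, ?_⟩
    have h4 : (ρ k : ℚ_[p]) ≠ 0 := by exact_mod_cast ρ0.ne'
    rw [hρj]
    push_cast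
    field_simp
  · intro z hz k
    exact ⟨(hx z k hz).1, (hx z k hz).2.1⟩
  · intro z hz u k
    exact (key z hz u k).1
  · intro z hz u k
    exact (key z hz u k).2
  · intro z hz u k hk
    obtain ⟨t, ht, hjt⟩ := orbit_lift h hD hz k
    rw [← hjt, ← jL_one]
    exact umd_pow2 ((hs1 _ (hmem k) _ (discL_one ht)).2 hk)
      ((hs2 _ (hmem k) _ (discL_one ht)).2 hk) _ _

theorem yy_mul {κ : Type} (M M' : ℕ) (h : κ → SL(2, ℚ_[q])) (x : κ → X3 p q) (u : ℕ × ℕ) :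
    yy p q (M * M') h x u = yy p q M h x (M' * u.1, M' * u.2) := by
  simp only [yy, mul_assoc]

theorem FD.scale {n : ℕ} {F : IntermediateField ℚ ℂ} {x₀ : Fin n → ℂ} {D : Fin n → ℤ} {j : Fin n}
    {J : Finset (Fin n)} {M : ℕ} {T : Finset SL(2, ℚ_[p])} {T' : Finset SL(2, ℚ_[q])}
    {ρ : Fin n → ℚ} {rp : Fin n → ℚ_[p]} {rq : Fin n → ℚ_[q]} {x : (Fin n → ℂ) → J → X3 p q}
    {hp : (Fin n → ℂ) → J → SL(2, ℚ_[p])} {hq : (Fin n → ℂ) → J → SL(2, ℚ_[q])}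
    {σ : ℕ × ℕ → ℂ ≃+* ℂ} (h : FD p q F x₀ D j J M T T' ρ rp rq x hp hq σ) (M' : ℕ) :
    FD p q F x₀ D j J (M * M') T T' ρ rp rq x hp hq fun u => σ (M' * u.1, M' * u.2) := by
  refine ⟨fun u => h.fix _, h.rat, h.mem, fun z hz u k => ?_, fun z hz u k => ?_,
    fun z hz u k hk => h.out z hz _ k hk⟩
  · rw [yy_mul]
    exact h.cf z hz _ k
  · rw [yy_mul]
    exact h.pi z hz _ k

theorem cnt_fd2 (hpq : p ≠ q) (h2 : p ≠ 2) {n : ℕ} (F : IntermediateField ℚ ℂ)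
    [FiniteDimensional ℚ F] (τ : ℕ → Fin n → ℍ) (D : ℕ → Fin n → ℤ)
    (hD : ∀ i k, HasDisc (τ i k) (D i k)) (𝒰 : Ultrafilter ℕ) (j : Fin n) (J : Finset (Fin n))
    (hgen : NoIs 𝒰 τ J) (hbig : ∀ᶠ i in 𝒰, ∀ k, D i k < -576)
    (hinf : ∀ Y : ℝ, ∀ᶠ i in 𝒰, ∀ k ∈ J, Y ≤ -(D i k : ℝ))
    {c M : ℕ} {L : ℝ} {T : Finset SL(2, ℚ_[p])} {T' : Finset SL(2, ℚ_[q])}
    (hT : ∀ h ∈ T, Bd ((p : ℝ) ^ c) (h : Matrix (Fin 2) (Fin 2) ℚ_[p]))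
    (hJ : ∀ᶠ i in 𝒰, ∀ k ∈ J, Low L (D i k) ∧ ∃ κ ≤ c, Spl p κ (D i k))
    {ρ : ℕ → Fin n → ℚ} {rp : ℕ → Fin n → ℚ_[p]} {rq : ℕ → Fin n → ℚ_[q]}
    {x : ℕ → (Fin n → ℂ) → J → X3 p q} {hp : ℕ → (Fin n → ℂ) → J → SL(2, ℚ_[p])}
    {hq : ℕ → (Fin n → ℂ) → J → SL(2, ℚ_[q])} {σ : ℕ → ℕ × ℕ → ℂ ≃+* ℂ}
    (h : ∀ᶠ i in 𝒰, FD p q F (fun k => jInv (τ i k)) (D i) j J M T T' (ρ i) (rp i) (rq i) (x i)
      (hp i) (hq i) (σ i)) :
    Cnt p q 𝒰 (fun i => (orbit_finite F (hD i)).toFinset)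
      fun i z => yy p q M (hq i z) (x i z) := by
  have hb := hbig
  have hcard : ∀ i, ((orbit_finite F (hD i)).toFinset.card : ℝ) =
      (galOrbit F fun k => jInv (τ i k)).ncard := fun i => by
    rw [Set.ncard_eq_toFinset_card _ (orbit_finite F (hD i))]
  refine ⟨fun ε hε => ?_, ?_, fun k l hkl q' hq' δ hδ R ε hε => ?_⟩
  · obtain ⟨t, Y, ht, hs⟩ := frac_sh F L hε
    obtain ⟨Ω, hΩ, hc⟩ := cf_tight hpq T ht
    refine ⟨Ω, hΩ, fun k => ?_⟩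
    filter_upwards [h, hJ, hinf Y, hb] with i hi hJi hY hbi u
    rw [hcard]
    refine le_trans ?_ (hs n (τ i) (D i) (hD i) k (hbi k) (hJi k k.2).1 (hY k k.2))
    rw [← orbit_card _ (hi.fix u) fun w => w k.1 ∈ Sh (D i k) t 1]
    refine Nat.cast_le.2 (Set.ncard_le_ncard (fun z hz => ?_)
      ((orbit_finite F (hD i)).subset fun z hz => hz.1))
    have hz' := (Set.Finite.mem_toFinset _).1 hz.1
    refine ⟨hz', by_contra fun hn => hz.2 (hc _ _ _ _ (hi.mem z hz' k).1 _ _ (hi.cf z hz' u k) ?_)⟩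
    rwa [hi.pi z hz' u k]
  · obtain ⟨K, hK, hs⟩ := bw_set hpq h2 c
    refine ⟨(15 * Module.finrank ℚ F) ^ 2 * K * L ^ 2, fun k m => ?_⟩
    obtain ⟨Y, hs⟩ := hs m
    filter_upwards [h, hJ, hinf Y, hb] with i hi hJi hY hbi u u'
    obtain ⟨hL, κ, hκ, hsp⟩ := hJi k k.2
    obtain ⟨S, hS, hSc, hm⟩ := hs (D i k) κ (rp i k) hκ (hD i k).isD hsp (hY k k.2)
    rw [hcard]
    refine le_trans ?_ (umc_bow (orbit_two F (hD i) k (hbi k) hS) hSc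
      (hL _ (hD i k).isD ⟨_, rfl⟩) (tfc_HH (hD i k).isD) hK.le (beta_pos p _).le)
    rw [← orbit_card2 _ (hi.fix u) (hi.fix u') fun w w' => (w k.1, w' k.1) ∈ S]
    refine Nat.cast_le.2 (Set.ncard_le_ncard (fun z hz => ?_)
      (((orbit_finite F (hD i)).prod (orbit_finite F (hD i))).subset fun z hz => ⟨hz.1, hz.2.1⟩))
    have h1 := (Set.Finite.mem_toFinset _).1 hz.1
    have h2 := (Set.Finite.mem_toFinset _).1 hz.2.1
    refine ⟨h1, h2, ?_⟩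
    have := hm _ _ _ _ _ _ _ _ (hT _ (hi.mem _ h1 k).1) (hT _ (hi.mem _ h2 k).1) (hi.cf _ h1 u k)
      (hi.cf _ h2 u' k) hz.2.2
    rwa [hi.pi _ h1, hi.pi _ h2] at this
  · obtain ⟨N, n', C, hN, hn', hs⟩ := cf_on hpq hq' hδ R c
    obtain ⟨r, N₀, hN₀, hf⟩ := frac_bad3 (p := p) F hn' C L c hε
    obtain ⟨m, hs⟩ := hs r
    have hkl' : (k : Fin n) ≠ l := fun e => hkl (Subtype.ext e)
    refine ⟨m, ?_⟩
    filter_upwards [h, hJ, hb, hgen k k.2 l l.2 hkl' N hN, hgen k k.2 l l.2 hkl' N₀ hN₀]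
      with i hi hJi hbi g1 g2 u
    obtain ⟨hL, κ, hκ, hsp⟩ := hJi k k.2
    obtain ⟨-, κ', hκ', hsp'⟩ := hJi l l.2
    obtain ⟨a1, a2, a3⟩ := hi.rat k k.2
    obtain ⟨b1, b2, b3⟩ := hi.rat l l.2
    rw [hcard]
    refine le_trans ?_ (hf n (τ i) (D i) (hD i) k l _ _ (hbi k) (hbi l) a1 b1 (a2.trans b2.symm)
      (umc_ratio h2 hsp hsp' hκ (a2.trans b2.symm)) (umc_ratio h2 hsp' hsp hκ' (b2.trans a2.symm))
      hL g2)
    rw [← orbit_card _ (hi.fix u) fun w => ∃ M₁ M₂, DiscL M₁ (D i k) ∧ DiscL M₂ (D i l) ∧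
      jL M₁ = w k.1 ∧ jL M₂ = w l.1 ∧ Bad3 p n' C r (D i k) (D i l) M₁ M₂]
    refine Nat.cast_le.2 (Set.ncard_le_ncard (fun z hz => ?_)
      ((orbit_finite F (hD i)).subset fun z hz => hz.1))
    have hz' := (Set.Finite.mem_toFinset _).1 hz.1
    have := hs _ _ _ _ _ _ _ _ _ _ _ _ _ _ (hi.cf z hz' u k) (hi.cf z hz' u l)
      (hT _ (hi.mem z hz' k).1) (hT _ (hi.mem z hz' l).1) a1 b1 (a2.trans b2.symm)
      (a3.trans b3.symm) (umc_norm h2 hsp hκ) hz.2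
    rw [hi.pi z hz', hi.pi z hz'] at this
    refine ⟨hz', this.resolve_left ?_⟩
    obtain ⟨σ', -, rfl⟩ := hz'
    exact g1 (σ'.trans (σ i u))

theorem Cnt.pull {N n : ℕ} (hN : 0 < N) {F : IntermediateField ℚ ℂ} {τ : ℕ → Fin n → ℍ}
    {D : ℕ → Fin n → ℤ} (hD : ∀ i k, HasDisc (τ i k) (D i k)) {κ : Type} [Fintype κ]
    {L : Filter ℕ} {y : ℕ → (Fin n → ℂ) → ℕ × ℕ → κ → X3 p q}
    (h : Cnt p q L (fun i => (orbit_finite F (hD i)).toFinset) y) :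
    Cnt p q L (fun i => ON N F (τ i)) fun i z => y i (pj z) := by
  have hcard : ∀ i, ((orbit_finite F (hD i)).toFinset.card : ℝ) =
      (galOrbit F fun k => jInv (τ i k)).ncard := fun i => by
    rw [Set.ncard_eq_toFinset_card _ (orbit_finite F (hD i))]
  refine ⟨fun ε hε => ?_, ?_, fun k l hkl q' hq' δ hδ R ε hε => ?_⟩
  · obtain ⟨Ω, hΩ, hs⟩ := h.tight ε hε
    refine ⟨Ω, hΩ, fun k => ?_⟩
    filter_upwards [hs k] with i hi u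
    have h1 := hi u
    rw [hcard] at h1
    simp only [Set.Finite.mem_toFinset] at h1
    exact card_pj hN (hD i) (fun w => y i w u k ∉ Ω) h1
  · obtain ⟨C, hs⟩ := h.bow
    refine ⟨C, fun k m => ?_⟩
    filter_upwards [hs k m] with i hi u u'
    have h1 := hi u u'
    rw [hcard] at h1
    simp only [Set.Finite.mem_toFinset] at h1
    exact card_pj2 hN (hD i) (fun w w' => (y i w u k, y i w' u' k) ∈ Op p q m) h1
  · obtain ⟨m, hs⟩ := h.exc k l hkl q' hq' δ hδ R ε hε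
    refine ⟨m, ?_⟩
    filter_upwards [hs] with i hi u
    have h1 := hi u
    rw [hcard] at h1
    simp only [Set.Finite.mem_toFinset] at h1
    exact card_pj hN (hD i)
      (fun w => (pi3 p q (y i w u k), pi3 p q (y i w u l)) ∈ On p q' δ R m) h1

end Pool.Agent.EQ
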