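import Pool.Agent.P.MP_ad7a55_nt.UM
import Pool.Agent.P.MP_ad7a55_nt.VAct

/-! The covering space of level N. -/

set_option autoImplicit false

noncomputable section

open MeasureTheory Topology Filter UpperHalfPlane
open scoped MatrixGroups ENNReal BoundedContinuousFunction

namespace Pool.Agent.EQ

def GamN (p N : ℕ) : Subgroup SL(2, ℚ) where
  carrier := {γ | γ ∈ GamQ p ∧ ∀ i j, InZp p ((γ i j - (1 : Matrix (Fin 2) (Fin 2) ℚ) i j) / N)}
  one_mem' := ⟨(GamQ p).one_mem, fun i j => by simpa using inZp_int p 0⟩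
  mul_mem' := fun {a b} ha hb => ⟨(GamQ p).mul_mem ha.1 hb.1, fun i j => by
    have := (((ha.1 i 0).mul (hb.2 0 j)).add ((ha.1 i 1).mul (hb.2 1 j))).add (ha.2 i j)
    refine (congrArg (InZp p) ?_).mp this
    have e : a i 0 * (1 : Matrix (Fin 2) (Fin 2) ℚ) 0 j + a i 1 * (1 : Matrix (Fin 2) (Fin 2) ℚ) 1 j =
        a i j := by fin_cases j <;> simp [Matrix.one_apply]
    simp only [Matrix.SpecialLinearGroup.coe_mul, Matrix.mul_apply, Fin.sum_univ_two]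
    linear_combination (-(N : ℚ)⁻¹) * e⟩
  inv_mem' := fun {a} ha => ⟨(GamQ p).inv_mem ha.1, fun i j => by
    rw [Matrix.SpecialLinearGroup.SL2_inv_expl]
    fin_cases i <;> fin_cases j
    · simpa using ha.2 1 1
    · simpa [neg_div] using (ha.2 0 1).neg
    · simpa [neg_div] using (ha.2 1 0).neg
    · simpa using ha.2 0 0⟩

variable (p : ℕ) [Fact p.Prime] (N : ℕ)

def GN : Subgroup (GG p) := (GamN p N).map (emb p)

theorem GN_le : GN p N ≤ Gam p := Subgroup.map_mono fun _ h => h.1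

theorem GN_disc : Disc (GN p N) := fun _ hC =>
  (Gam_finite p hC).subset fun _ h => ⟨h.1, GN_le p N h.2⟩

instance GN_closed : IsClosed (GN p N : Set (GG p)) := isClosed_of_finite (GN_disc p N)

abbrev XN : Type := GG p ⧸ GN p N

instance instPolishXN : PolishSpace (XN p N) := polish_of_lc _

instance instBSXN : BorelSpace (XN p N) := inferInstance

instance instCSXN : ContinuousSMul (GG p) (XN p N) := inferInstance

instance instMSXN : MeasurableConstSMul (GG p) (XN p N) := inferInstance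

instance instBSPiN {κ : Type} [Fintype κ] : BorelSpace (κ → XN p N) := inferInstance

instance instPolishPiN {κ : Type} [Fintype κ] : PolishSpace (κ → XN p N) := inferInstance

instance instCSPiN {κ : Type} : ContinuousSMul (κ → GG p) (κ → XN p N) := inferInstance

instance instMSPiN {κ : Type} [Fintype κ] : MeasurableConstSMul (κ → GG p) (κ → XN p N) :=
  inferInstance

theorem KN_mul {a b : SL(2, ℚ_[p])} (ha : a ∈ Kp p)
    (ha' : ∀ i j, ‖a i j - (1 : Matrix (Fin 2) (Fin 2) ℚ_[p]) i j‖ ≤ ‖(N : ℚ_[p])‖)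
    (hb' : ∀ i j, ‖b i j - (1 : Matrix (Fin 2) (Fin 2) ℚ_[p]) i j‖ ≤ ‖(N : ℚ_[p])‖) (i j : Fin 2) :
    ‖(a * b) i j - (1 : Matrix (Fin 2) (Fin 2) ℚ_[p]) i j‖ ≤ ‖(N : ℚ_[p])‖ := by
  have e : (a * b) i j - (1 : Matrix (Fin 2) (Fin 2) ℚ_[p]) i j =
      (a i 0 * (b 0 j - (1 : Matrix (Fin 2) (Fin 2) ℚ_[p]) 0 j) +
        a i 1 * (b 1 j - (1 : Matrix (Fin 2) (Fin 2) ℚ_[p]) 1 j)) +
        (a i j - (1 : Matrix (Fin 2) (Fin 2) ℚ_[p]) i j) := by
    have e : a i 0 * (1 : Matrix (Fin 2) (Fin 2) ℚ_[p]) 0 j +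
        a i 1 * (1 : Matrix (Fin 2) (Fin 2) ℚ_[p]) 1 j = a i j := by
      fin_cases j <;> simp [Matrix.one_apply]
    simp only [Matrix.SpecialLinearGroup.coe_mul, Matrix.mul_apply, Fin.sum_univ_two]
    linear_combination e
  rw [e]
  refine (Padic.nonarchimedean _ _).trans (max_le ((Padic.nonarchimedean _ _).trans
    (max_le ?_ ?_)) (ha' i j)) <;> rw [norm_mul] <;>
    exact (mul_le_of_le_one_left (norm_nonneg _) (ha _ _)).trans (hb' _ _)

theorem KN_inv {a : SL(2, ℚ_[p])}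
    (ha' : ∀ i j, ‖a i j - (1 : Matrix (Fin 2) (Fin 2) ℚ_[p]) i j‖ ≤ ‖(N : ℚ_[p])‖) (i j : Fin 2) :
    ‖a⁻¹ i j - (1 : Matrix (Fin 2) (Fin 2) ℚ_[p]) i j‖ ≤ ‖(N : ℚ_[p])‖ := by
  rw [Matrix.SpecialLinearGroup.SL2_inv_expl]
  fin_cases i <;> fin_cases j
  · simpa using ha' 1 1
  · simpa using ha' 0 1
  · simpa using ha' 1 0
  · simpa using ha' 0 0

/-- The principal congruence subgroup of level `N` of the integral matrices. -/
def KN : Subgroup SL(2, ℚ_[p]) where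
  carrier := {k | k ∈ Kp p ∧
    ∀ i j, ‖k i j - (1 : Matrix (Fin 2) (Fin 2) ℚ_[p]) i j‖ ≤ ‖(N : ℚ_[p])‖}
  one_mem' := ⟨(Kp p).one_mem, fun i j => by simp⟩
  mul_mem' := fun {_ _} ha hb => ⟨(Kp p).mul_mem ha.1 hb.1, KN_mul p N ha.1 ha.2 hb.2⟩
  inv_mem' := fun {_} ha => ⟨(Kp p).inv_mem ha.1, KN_inv p N ha.2⟩

theorem KN_le : KN p N ≤ Kp p := fun _ h => h.1

/-- The covering map. -/
def cov (x : XN p N) : XX p := Subgroup.quotientMapOfLE (GN_le p N) x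

theorem cov_mk (g : GG p) : cov p N (g : XN p N) = (g : XX p) := rfl

def covP {κ : Type} (w : κ → XN p N) : κ → XX p := fun k => cov p N (w k)

def uflN {κ : Type} (d : κ → ℚ_[p]) : Flow ℚ_[p] (κ → XN p N) where
  toFun s w := fun k => uP p (d k * s) • w k
  cont' := continuous_pi fun k =>
    ((continuous_uP p).comp (continuous_const.mul continuous_fst)).smul
      ((continuous_apply k).comp continuous_snd)
  map_add' s t x := by simp only [mul_add, uP_add, mul_smul]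
  map_zero' x := by simp

theorem uflN_apply {κ : Type} (d : κ → ℚ_[p]) (s : ℚ_[p]) (w : κ → XN p N) :
    uflN p N d s w = fun k => uP p (d k * s) • w k := rfl

theorem cov_smul (g : GG p) (x : XN p N) : cov p N (g • x) = g • cov p N x := by
  obtain ⟨h, rfl⟩ := QuotientGroup.mk_surjective x
  rfl

theorem continuous_cov : Continuous (cov p N) := by
  rw [(QuotientGroup.isQuotientMap_mk (GN p N)).continuous_iff]
  exact QuotientGroup.continuous_mk (N := Gam p)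

theorem continuous_covP {κ : Type} : Continuous (covP p N : (κ → XN p N) → κ → XX p) :=
  continuous_pi fun k => (continuous_cov p N).comp (continuous_apply k)

theorem cov_surj (x : XX p) : ∃ y, cov p N y = x := by
  obtain ⟨h, rfl⟩ := QuotientGroup.mk_surjective x
  exact ⟨(h : XN p N), rfl⟩

variable {p N}

theorem vgn_nat (c : ℕ) : ‖(c : ℚ_[p])‖ ≤ 1 := by
  simpa using Padic.norm_int_le_one (p := p) c

theorem vgn_mem {k : SL(2, ℚ_[p])}
    (h : ∀ i j, ‖k i j - (1 : Matrix (Fin 2) (Fin 2) ℚ_[p]) i j‖ ≤ ‖(N : ℚ_[p])‖) :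
    k ∈ KN p N := by
  refine ⟨fun i j => ?_, h⟩
  rw [← sub_add_cancel (k i j) ((1 : Matrix (Fin 2) (Fin 2) ℚ_[p]) i j)]
  exact (Padic.nonarchimedean _ _).trans
    (max_le ((h i j).trans (vgn_nat N)) ((Kp p).one_mem i j))

theorem vgn_eq : (KN p N : Set SL(2, ℚ_[p])) = ⋂ i, ⋂ j, (fun g : SL(2, ℚ_[p]) => g i j) ⁻¹'
    Metric.closedBall ((1 : Matrix (Fin 2) (Fin 2) ℚ_[p]) i j) ‖(N : ℚ_[p])‖ := by
  ext g
  simp only [Set.mem_iInter, Set.mem_preimage, mem_closedBall_iff_norm]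
  exact ⟨fun h => h.2, vgn_mem⟩

theorem vgn_conj {R : Type} [CommRing R] (a k : SL(2, R)) (i j : Fin 2) :
    (a * k * a⁻¹) i j - (1 : Matrix (Fin 2) (Fin 2) R) i j =
      ∑ m, ∑ l, a i l * (k l m - (1 : Matrix (Fin 2) (Fin 2) R) l m) * a⁻¹ m j := by
  have h : ((a * k * a⁻¹ : SL(2, R)) : Matrix (Fin 2) (Fin 2) R) - 1 =
      (a : Matrix (Fin 2) (Fin 2) R) * ((k : Matrix (Fin 2) (Fin 2) R) - 1) *
        ((a⁻¹ : SL(2, R)) : Matrix (Fin 2) (Fin 2) R) := by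
    rw [mul_sub, sub_mul, mul_one, ← Matrix.SpecialLinearGroup.coe_mul,
      ← Matrix.SpecialLinearGroup.coe_mul, ← Matrix.SpecialLinearGroup.coe_mul, mul_inv_cancel,
      Matrix.SpecialLinearGroup.coe_one]
  have h2 := congrFun (congrFun h i) j
  simp only [Matrix.mul_apply, Matrix.sub_apply, Finset.sum_mul] at h2
  exact h2

theorem vgn_bd {R : ℝ} {k a : SL(2, ℚ_[p])}
    (hk : ∀ i j, R * R * ‖k i j - (1 : Matrix (Fin 2) (Fin 2) ℚ_[p]) i j‖ ≤ ‖(N : ℚ_[p])‖)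
    (ha : Bd R (a : Matrix (Fin 2) (Fin 2) ℚ_[p])) : a * k * a⁻¹ ∈ KN p N := by
  have hR : 0 ≤ R := (norm_nonneg _).trans (ha 0 0)
  have ha' : ∀ i j, ‖a⁻¹ i j‖ ≤ R := fun i j => by
    rw [Matrix.SpecialLinearGroup.SL2_inv_expl]
    fin_cases i <;> fin_cases j
    · simpa using ha 1 1
    · simpa using ha 0 1
    · simpa using ha 1 0
    · simpa using ha 0 0
  refine vgn_mem fun i j => ?_
  have h : ∀ l m, ‖a i l * (k l m - (1 : Matrix (Fin 2) (Fin 2) ℚ_[p]) l m) * a⁻¹ m j‖ ≤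
      ‖(N : ℚ_[p])‖ := fun l m => by
    refine le_trans ?_ (hk l m)
    rw [norm_mul, norm_mul, mul_right_comm R]
    exact mul_le_mul (mul_le_mul_of_nonneg_right (ha i l) (norm_nonneg _)) (ha' m j)
      (norm_nonneg _) (by positivity)
  rw [vgn_conj]
  simp only [Fin.sum_univ_two]
  refine (Padic.nonarchimedean _ _).trans (max_le ?_ ?_) <;>
    exact (Padic.nonarchimedean _ _).trans (max_le (h _ _) (h _ _))

theorem vgn_gamma {δ : SL(2, ℤ)} : δ ∈ CongruenceSubgroup.Gamma N ↔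
    ∀ i j, (N : ℤ) ∣ δ i j - (1 : Matrix (Fin 2) (Fin 2) ℤ) i j := by
  simp only [CongruenceSubgroup.Gamma_mem, ← ZMod.intCast_zmod_eq_zero_iff_dvd, Fin.forall_fin_two]
  simp [sub_eq_zero, and_assoc]

theorem vgn_uu {x : ℚ} (hx : InZp p x) :
    ((uu ((N * x : ℚ) : ℝ), uu ((N * x : ℚ) : ℚ_[p])) : GG p) ∈ GN p N ∧
      ((ul ((N * x : ℚ) : ℝ), ul ((N * x : ℚ) : ℚ_[p])) : GG p) ∈ GN p N := by
  have h1 : InZp p 1 := by simpa using inZp_int p 1
  have h0 : InZp p 0 := by simpa using inZp_int p 0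
  have h2 : InZp p (N * x) := by simpa using (inZp_int p N).mul hx
  have h3 : InZp p (N * x / N) := by
    rcases eq_or_ne (N : ℚ) 0 with h | h
    · simpa [h] using h0
    · rwa [mul_div_cancel_left₀ _ h]
  refine ⟨⟨uu (N * x), ⟨fun i j => ?_, fun i j => ?_⟩, ?_⟩,
    ⟨ul (N * x), ⟨fun i j => ?_, fun i j => ?_⟩, ?_⟩⟩
  · fin_cases i <;> fin_cases j <;> simp [h0, h1, h2]
  · fin_cases i <;> fin_cases j <;> simp [h0, h3]
  · refine Prod.ext ?_ ?_ <;> ext i j <;> fin_cases i <;> fin_cases j <;> simp [emb]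
  · fin_cases i <;> fin_cases j <;> simp [h0, h1, h2]
  · fin_cases i <;> fin_cases j <;> simp [h0, h3]
  · refine Prod.ext ?_ ?_ <;> ext i j <;> fin_cases i <;> fin_cases j <;> simp [emb]

theorem GN_mono {N' : ℕ} (h : N ∣ N') (hN' : 0 < N') : GN p N' ≤ GN p N := by
  obtain ⟨c, rfl⟩ := h
  refine Subgroup.map_mono fun γ hγ => ⟨hγ.1, fun i j => ?_⟩
  have hc : (c : ℚ) ≠ 0 := by
    rintro h0
    have : c = 0 := by exact_mod_cast h0
    simp [this] at hN'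
  refine (congrArg (InZp p) ?_).mp ((inZp_int p c).mul (hγ.2 i j))
  push_cast
  rw [mul_comm (N : ℚ), ← div_div, div_right_comm, mul_div_cancel₀ _ hc]

theorem KN_mono {N' : ℕ} (h : N ∣ N') : KN p N' ≤ KN p N := by
  obtain ⟨c, rfl⟩ := h
  refine fun k hk => ⟨hk.1, fun i j => (hk.2 i j).trans ?_⟩
  rw [Nat.cast_mul, norm_mul]
  exact mul_le_of_le_one_right (norm_nonneg _) (vgn_nat c)

theorem KN_conj {k κ : SL(2, ℚ_[p])} (hk : k ∈ KN p N) (hκ : κ ∈ Kp p) :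
    κ * k * κ⁻¹ ∈ KN p N := by
  refine vgn_bd (R := 1) (fun i j => ?_) hκ
  simpa using hk.2 i j

theorem KN_conj_bd {s : ℕ} {k a : SL(2, ℚ_[p])} (hk : k ∈ KN p (N * p ^ (2 * s)))
    (ha : Bd ((p : ℝ) ^ s) (a : Matrix (Fin 2) (Fin 2) ℚ_[p])) : a * k * a⁻¹ ∈ KN p N := by
  refine vgn_bd (fun i j => ?_) ha
  have h1 := hk.2 i j
  have hp : (0 : ℝ) < p := by exact_mod_cast (Fact.out : p.Prime).pos
  rw [Nat.cast_mul, norm_mul, Nat.cast_pow, norm_pow, Padic.norm_p, inv_pow, ← div_eq_mul_inv,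
    le_div_iff₀ (by positivity)] at h1
  refine le_of_eq_of_le ?_ h1
  ring

theorem uu_mem_KN {s : ℚ_[p]} (hs : ‖s‖ ≤ ‖(N : ℚ_[p])‖) : uu s ∈ KN p N := by
  refine vgn_mem fun i j => ?_
  fin_cases i <;> fin_cases j <;> simp [hs]

theorem KN_open (hN : 0 < N) : IsOpen (KN p N : Set SL(2, ℚ_[p])) := by
  have h0 : ‖(N : ℚ_[p])‖ ≠ 0 := norm_ne_zero_iff.2 (by exact_mod_cast hN.ne')
  rw [vgn_eq]
  exact isOpen_iInter_of_finite fun i => isOpen_iInter_of_finite fun j =>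
    (IsUltrametricDist.isOpen_closedBall _ h0).preimage (continuous_subtype_val.matrix_elem i j)

theorem KN_compact : IsCompact (KN p N : Set SL(2, ℚ_[p])) := by
  refine (Kp_compact p).of_isClosed_subset ?_ (KN_le p N)
  rw [vgn_eq]
  exact isClosed_iInter fun i => isClosed_iInter fun j =>
    Metric.isClosed_closedBall.preimage (continuous_subtype_val.matrix_elem i j)

theorem KN_reps (hN : 0 < N) : ∃ R : Finset SL(2, ℚ_[p]), (∀ r ∈ R, r ∈ Kp p) ∧
    ∀ k ∈ Kp p, ∃ r ∈ R, k * r⁻¹ ∈ KN p N := by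
  obtain ⟨t, ht⟩ := (Kp_compact p).elim_nhds_subcover'
    (fun r _ => (fun k => k * r⁻¹) ⁻¹' (KN p N : Set SL(2, ℚ_[p])))
    fun r _ => ((KN_open hN).preimage (continuous_id.mul continuous_const)).mem_nhds
      (by simpa using (KN p N).one_mem)
  classical
  refine ⟨t.image Subtype.val, fun r hr => ?_, fun k hk => ?_⟩
  · obtain ⟨r, -, rfl⟩ := Finset.mem_image.1 hr
    exact r.2
  · obtain ⟨r, hr, h⟩ := Set.mem_iUnion₂.1 (ht hk)
    exact ⟨r, Finset.mem_image_of_mem _ hr, h⟩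

theorem int_mem_GN {δ : SL(2, ℤ)} (hδ : δ ∈ CongruenceSubgroup.Gamma N) :
    ((toR δ, toP p δ) : GG p) ∈ GN p N ∧ toP p δ ∈ KN p N := by
  choose c hc using vgn_gamma.1 hδ
  refine ⟨⟨Matrix.SpecialLinearGroup.map (Int.castRingHom ℚ) δ, ⟨fun i j => ?_, fun i j => ?_⟩, ?_⟩,
    vgn_mem fun i j => ?_⟩
  · simpa using inZp_int p (δ i j)
  · have e : (Matrix.SpecialLinearGroup.map (Int.castRingHom ℚ) δ) i j -
        (1 : Matrix (Fin 2) (Fin 2) ℚ) i j = N * c i j := by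
      have := congrArg (fun z : ℤ => (z : ℚ)) (hc i j)
      simpa [Matrix.one_apply, apply_ite] using this
    rw [e]
    rcases eq_or_ne (N : ℚ) 0 with h0 | h0
    · simpa [h0] using inZp_int p 0
    · rw [mul_div_cancel_left₀ _ h0]
      exact inZp_int p _
  · refine Prod.ext ?_ ?_ <;> ext i j <;> simp [emb, toR, toP]
  · have e : toP p δ i j - (1 : Matrix (Fin 2) (Fin 2) ℚ_[p]) i j = N * c i j := by
      have := congrArg (fun z : ℤ => (z : ℚ_[p])) (hc i j)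
      simpa [toP, Matrix.one_apply, apply_ite] using this
    rw [e, norm_mul]
    exact mul_le_of_le_one_right (norm_nonneg _) (Padic.norm_int_le_one _)

theorem int_of_GN (hN : 0 < N) {γ : GG p} (hγ : γ ∈ GN p N) (hK : γ.2 ∈ KN p N) :
    ∃ δ ∈ CongruenceSubgroup.Gamma N, γ = (toR δ, toP p δ) := by
  obtain ⟨δ, hδ⟩ := exists_int_of_Gam p (GN_le p N hγ) hK.1
  refine ⟨δ, vgn_gamma.2 fun i j => ?_, hδ⟩
  obtain ⟨g, hg, rfl⟩ := hγ
  have hN' : (N : ℚ) ≠ 0 := by exact_mod_cast hN.ne'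
  have h0 : 0 < ‖(N : ℚ_[p])‖ := norm_pos_iff.2 (by exact_mod_cast hN.ne')
  have e1 : g i j = δ i j := by
    have := congrArg (fun z : GG p => z.1 i j) hδ
    simp only [emb, toR, MonoidHom.prod_apply, Matrix.SpecialLinearGroup.map_apply_coe,
      RingHom.mapMatrix_apply, Matrix.map_apply, eq_ratCast, eq_intCast] at this
    exact_mod_cast this
  obtain ⟨n, hn⟩ := grp_int p (hg.2 i j) (by
    have := hK.2 i j
    rw [Rat.cast_div, norm_div, Rat.cast_natCast, div_le_one h0]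
    simpa [emb, Matrix.one_apply, apply_ite] using this)
  refine ⟨n, ?_⟩
  rw [div_eq_iff hN', e1] at hn
  have : ((δ i j - (1 : Matrix (Fin 2) (Fin 2) ℤ) i j : ℤ) : ℚ) = ((N * n : ℤ) : ℚ) := by
    simpa [Matrix.one_apply, apply_ite, mul_comm] using hn
  exact_mod_cast this

theorem GN_conj {γ γ' : GG p} (hγ : γ ∈ GN p N) (h : γ' ∈ Gam p) : γ' * γ * γ'⁻¹ ∈ GN p N := by
  obtain ⟨g, hg, rfl⟩ := hγ
  obtain ⟨a, ha, rfl⟩ := h
  have ha' := (GamQ p).inv_mem ha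
  refine ⟨a * g * a⁻¹, ⟨(GamQ p).mul_mem ((GamQ p).mul_mem ha hg.1) ha', fun i j => ?_⟩, by simp⟩
  have k := fun l m => ((ha i l).mul (hg.2 l m)).mul (ha' m j)
  refine (congrArg (InZp p) ?_).mp (((k 0 0).add (k 0 1)).add ((k 1 0).add (k 1 1)))
  rw [vgn_conj]
  simp only [Fin.sum_univ_two]
  ring

theorem dense_fstN (hN : 0 < N) : Dense (Prod.fst '' (GN p N : Set (GG p))) := by
  have h0 : (N : ℝ) ≠ 0 := by exact_mod_cast hN.ne'
  have := grp_dense ((GN p N).map (MonoidHom.fst _ _))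
    ((Homeomorph.mulLeft₀ _ h0).surjective.denseRange.dense_image
      (Homeomorph.mulLeft₀ _ h0).continuous (grp_dense_R p))
    (fun _ ⟨_, ⟨x, hx, h⟩, h'⟩ => ⟨_, (vgn_uu hx).1, by subst h h'; simp⟩)
    (fun _ ⟨_, ⟨x, hx, h⟩, h'⟩ => ⟨_, (vgn_uu hx).2, by subst h h'; simp⟩)
  exact this

theorem dense_sndN (hN : 0 < N) : Dense (Prod.snd '' (GN p N : Set (GG p))) := by
  have h0 : (N : ℚ_[p]) ≠ 0 := by exact_mod_cast hN.ne'
  have := grp_dense ((GN p N).map (MonoidHom.snd _ _))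
    ((Homeomorph.mulLeft₀ _ h0).surjective.denseRange.dense_image
      (Homeomorph.mulLeft₀ _ h0).continuous (grp_dense_P p))
    (fun _ ⟨_, ⟨x, hx, h⟩, h'⟩ => ⟨_, (vgn_uu hx).1, by subst h h'; simp⟩)
    (fun _ ⟨_, ⟨x, hx, h⟩, h'⟩ => ⟨_, (vgn_uu hx).2, by subst h h'; simp⟩)
  exact this

theorem exists_GN (hN : 0 < N) (g : GG p) : ∃ γ ∈ GN p N, (g * γ).2 ∈ KN p N := by
  have ho : IsOpen ((fun k => g.2 * k) ⁻¹' (KN p N : Set SL(2, ℚ_[p]))) :=
    (KN_open hN).preimage (continuous_const.mul continuous_id)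
  obtain ⟨_, ⟨γ, hγ, rfl⟩, hk⟩ := (dense_sndN (p := p) hN).exists_mem_open ho
    ⟨g.2⁻¹, by simp [(KN p N).one_mem]⟩
  exact ⟨γ, hγ, hk⟩

theorem exists_repN (hN : 0 < N) (x : XN p N) :
    ∃ g : GG p, g.2 ∈ KN p N ∧ (g : XN p N) = x := by
  obtain ⟨h, rfl⟩ := QuotientGroup.mk_surjective x
  obtain ⟨γ, hγ, hk⟩ := exists_GN hN h
  exact ⟨h * γ, hk, QuotientGroup.mk_mul_of_mem h hγ⟩

theorem cov_fib (hN : 0 < N) : ∃ R : Finset (GG p), (∀ r ∈ R, r ∈ Gam p) ∧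
    ∀ (g : GG p) (y : XN p N), cov p N y = (g : XX p) → ∃ r ∈ R, y = ((g * r : GG p) : XN p N) := by
  classical
  have : NeZero N := ⟨hN.ne'⟩
  have := Subgroup.fintypeQuotientOfFiniteIndex (H := CongruenceSubgroup.Gamma N)
  refine ⟨Finset.univ.image fun c : SL(2, ℤ) ⧸ CongruenceSubgroup.Gamma N =>
    ((toR c.out, toP p c.out) : GG p), fun r hr => ?_, fun g y hy => ?_⟩
  · obtain ⟨c, -, rfl⟩ := Finset.mem_image.1 hr
    exact int_mem_Gam p _
  · obtain ⟨h, rfl⟩ := QuotientGroup.mk_surjective y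
    have h1 : g⁻¹ * h ∈ Gam p := QuotientGroup.eq.1 (show (g : XX p) = (h : XX p) from hy.symm)
    obtain ⟨γ, hγ, hk⟩ := exists_GN hN (g⁻¹ * h)
    obtain ⟨δ, hδ⟩ := exists_int_of_Gam p ((Gam p).mul_mem h1 (GN_le p N hγ)) hk.1
    refine ⟨_, Finset.mem_image_of_mem _ (Finset.mem_univ (δ : SL(2, ℤ) ⧸ _)), ?_⟩
    have h2 : (Quotient.out (δ : SL(2, ℤ) ⧸ CongruenceSubgroup.Gamma N))⁻¹ * δ ∈
        CongruenceSubgroup.Gamma N := QuotientGroup.eq.1 (Quotient.out_eq _)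
    generalize Quotient.out (δ : SL(2, ℤ) ⧸ CongruenceSubgroup.Gamma N) = ε at h2
    refine (QuotientGroup.eq.2 ?_).symm
    have h3 : (g * ((toR ε, toP p ε) : GG p))⁻¹ * h =
        ((toR (ε⁻¹ * δ), toP p (ε⁻¹ * δ)) : GG p) * γ⁻¹ := by
      have h4 : ((toR (ε⁻¹ * δ), toP p (ε⁻¹ * δ)) : GG p) =
          ((toR ε, toP p ε) : GG p)⁻¹ * (toR δ, toP p δ) := by
        simp only [map_mul, map_inv, Prod.inv_mk, Prod.mk_mul_mk]
      rw [h4, ← hδ]
      group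
    rw [h3]
    exact (GN p N).mul_mem (int_mem_GN h2).1 ((GN p N).inv_mem hγ)

theorem isCompact_cov (hN : 0 < N) {Ω : Set (XX p)} (hΩ : IsCompact Ω) :
    IsCompact (cov p N ⁻¹' Ω) := by
  obtain ⟨C, hC, hCΩ⟩ : ∃ C : Set (GG p), IsCompact C ∧ Ω ⊆ QuotientGroup.mk '' C := by
    refine hΩ.induction_on ⟨∅, isCompact_empty, by simp⟩
      (fun s t hst ⟨C, h1, h2⟩ => ⟨C, h1, hst.trans h2⟩)
      (fun s t ⟨C, h1, h2⟩ ⟨D, h3, h4⟩ => ⟨C ∪ D, h1.union h3, ?_⟩) fun x _ => ?_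
    · rw [Set.image_union]; exact Set.union_subset_union h2 h4
    · obtain ⟨g, rfl⟩ := QuotientGroup.mk_surjective x
      obtain ⟨C, h1, h2⟩ := exists_compact_mem_nhds g
      exact ⟨_, mem_nhdsWithin_of_mem_nhds (QuotientGroup.isOpenMap_coe.image_mem_nhds h2),
        C, h1, subset_rfl⟩
  obtain ⟨R, -, hR⟩ := cov_fib (p := p) hN
  refine (R.isCompact_biUnion fun r _ => hC.image (f := fun g => ((g * r : GG p) : XN p N))
    (QuotientGroup.continuous_mk.comp (continuous_id.mul continuous_const))).of_isClosed_subset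
    (hΩ.isClosed.preimage (continuous_cov p N)) fun x hx => ?_
  obtain ⟨c, hc, e⟩ := hCΩ hx
  obtain ⟨r, hr, e2⟩ := hR c x e.symm
  exact Set.mem_iUnion₂.2 ⟨r, hr, c, hc, e2.symm⟩

theorem isCompact_covP (hN : 0 < N) {κ : Type} {Ω : Set (κ → XX p)} (hΩ : IsCompact Ω) :
    IsCompact (covP p N ⁻¹' Ω) := by
  refine (isCompact_univ_pi fun k => isCompact_cov hN
    (hΩ.image (continuous_apply k))).of_isClosed_subset
    (hΩ.isClosed.preimage (continuous_covP p N)) fun w hw k _ => ⟨_, hw, rfl⟩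

end Pool.Agent.EQ
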