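import Pool.Agent.P.MP_ad7a55_nt.VCj
import Pool.Agent.P.MP_ad7a55_nt.Lat2

/-! Weak reciprocity law for points of level N. -/

set_option autoImplicit false

noncomputable section

open MeasureTheory Topology Filter UpperHalfPlane
open scoped MatrixGroups ENNReal BoundedContinuousFunction

namespace Pool.Agent.EQ

/-- The matrix is scalar modulo `N`. -/
def Scal (N : ℕ) (δ : SL(2, ℤ)) : Prop :=
  (N : ℤ) ∣ δ 0 1 ∧ (N : ℤ) ∣ δ 1 0 ∧ (N : ℤ) ∣ δ 0 0 - δ 1 1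

theorem Scal.mono {N N' : ℕ} (h : N ∣ N') {δ : SL(2, ℤ)} (hδ : Scal N' δ) : Scal N δ := by
  have h' : (N : ℤ) ∣ (N' : ℤ) := by exact_mod_cast h
  exact ⟨h'.trans hδ.1, h'.trans hδ.2.1, h'.trans hδ.2.2⟩

theorem Scal.sq {N : ℕ} {δ : SL(2, ℤ)} (hδ : Scal N δ) :
    δ ^ 2 ∈ CongruenceSubgroup.Gamma N := by
  obtain ⟨⟨b, hb⟩, ⟨c, hc⟩, ⟨d, hd⟩⟩ := hδ
  have hdet := δ.det_coe
  rw [Matrix.det_fin_two] at hdet
  have e : ∀ i j, (δ ^ 2) i j = δ i 0 * δ 0 j + δ i 1 * δ 1 j := fun i j => by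
    rw [pow_two]
    change ((δ * δ : SL(2, ℤ)) : MZ) i j = _
    rw [Matrix.SpecialLinearGroup.coe_mul, Matrix.mul_apply, Fin.sum_univ_two]
  have k : ∀ x y z : ℤ, x = y + N * z → ((x : ℤ) : ZMod N) = (y : ZMod N) := fun x y z h => by
    rw [h]
    push_cast
    simp
  rw [CongruenceSubgroup.Gamma_mem, e, e, e, e]
  refine ⟨?_, ?_, ?_, ?_⟩
  · rw [k _ 1 (δ 0 0 * d + 2 * b * δ 1 0) (by
      linear_combination hdet + δ 0 0 * hd + 2 * δ 1 0 * hb), Int.cast_one]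
  · rw [k _ 0 (b * (δ 0 0 + δ 1 1)) (by linear_combination (δ 0 0 + δ 1 1) * hb), Int.cast_zero]
  · rw [k _ 0 (c * (δ 0 0 + δ 1 1)) (by linear_combination (δ 0 0 + δ 1 1) * hc), Int.cast_zero]
  · rw [k _ 1 (2 * b * δ 1 0 - δ 1 1 * d) (by
      linear_combination hdet - δ 1 1 * hd + 2 * δ 1 0 * hb), Int.cast_one]

theorem Scal.comm {N : ℕ} {ξ : MZ} (hξ : 0 < ξ.det) {δ : SL(2, ℤ)}
    (hδ : Scal (N * ξ.det.natAbs) δ) :
    ∃ γ ∈ CongruenceSubgroup.Gamma N, ξ * (δ : MZ) = ((γ * δ : SL(2, ℤ)) : MZ) * ξ := by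
  have hn : ((N * ξ.det.natAbs : ℕ) : ℤ) = N * ξ.det := by
    rw [Nat.cast_mul, Int.natAbs_of_nonneg hξ.le]
  obtain ⟨h1, h2, h3⟩ := hδ
  rw [hn] at h1 h2 h3
  obtain ⟨b, hb⟩ := h1
  obtain ⟨c, hc⟩ := h2
  obtain ⟨d, hd⟩ := h3
  obtain ⟨l, hl⟩ : ∃ l, l = δ 0 0 := ⟨_, rfl⟩
  obtain ⟨A, hA⟩ : ∃ A : MZ, A = !![0, b; c, -d] := ⟨_, rfl⟩
  have hγ : (δ : MZ) = l • (1 : MZ) + (N * ξ.det : ℤ) • A := by
    rw [hA]
    ext i j
    rw [Matrix.add_apply, Matrix.smul_apply, Matrix.smul_apply, smul_eq_mul, smul_eq_mul]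
    fin_cases i <;> fin_cases j <;> simp
    · exact hl.symm
    · linear_combination hb
    · linear_combination hc
    · linear_combination -hd - hl
  obtain ⟨B, hB⟩ : ∃ B : MZ, B = ξ * A * ξ.adjugate := ⟨_, rfl⟩
  have he : ξ * (δ : MZ) = (l • (1 : MZ) + (N : ℤ) • B) * ξ := by
    rw [hγ, hB, mul_add, add_mul, mul_smul_comm, mul_one, smul_mul_assoc, one_mul, smul_mul_assoc,
      mul_assoc _ _ ξ, Matrix.adjugate_mul, mul_smul_comm, mul_smul_comm, mul_one, smul_smul]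
  have hdet : (l • (1 : MZ) + (N : ℤ) • B).det = 1 := by
    have := congrArg Matrix.det he
    rw [Matrix.det_mul, Matrix.det_mul, δ.det_coe, mul_comm] at this
    exact (mul_right_cancel₀ hξ.ne' this).symm
  let δ' : SL(2, ℤ) := ⟨_, hdet⟩
  refine ⟨δ' * δ⁻¹, ?_, by rw [inv_mul_cancel_right]; exact he⟩
  have h1 : (δ : MZ) * ((δ⁻¹ : SL(2, ℤ)) : MZ) = 1 := by
    rw [← Matrix.SpecialLinearGroup.coe_mul, mul_inv_cancel, Matrix.SpecialLinearGroup.coe_one]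
  have h2 : ((δ' * δ⁻¹ : SL(2, ℤ)) : MZ) =
      1 + (N : ℤ) • ((B - ξ.det • A) * ((δ⁻¹ : SL(2, ℤ)) : MZ)) := by
    rw [Matrix.SpecialLinearGroup.coe_mul, ← h1, ← smul_mul_assoc, ← add_mul]
    change (l • (1 : MZ) + (N : ℤ) • B) * _ = _
    rw [hγ, smul_sub, smul_smul, add_assoc, add_sub_cancel]
  rw [CongruenceSubgroup.Gamma_mem]
  have h3 : ∀ i j, (δ' * δ⁻¹) i j =
      (1 + (N : ℤ) • ((B - ξ.det • A) * ((δ⁻¹ : SL(2, ℤ)) : MZ))) i j := fun i j => by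
    rw [← h2]
  rw [h3, h3, h3, h3]
  generalize (B - ξ.det • A) * ((δ⁻¹ : SL(2, ℤ)) : MZ) = C
  simp only [Matrix.add_apply, Matrix.smul_apply, smul_eq_mul]
  simp

theorem HasDisc.scalar {τ : ℍ} {D : ℤ} (h : HasDisc τ D) {η : MZ} (hη : 0 < η.det)
    (hD : 4 * η.det < -D) (e : act η τ = τ) : η 0 1 = 0 ∧ η 1 0 = 0 ∧ η 0 0 = η 1 1 := by
  obtain ⟨A, B, C, -, hg, hq, rfl⟩ := h
  obtain ⟨u, v, w, hb⟩ := ord_bezout hg
  have e1 := vact_den_mul hη τ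
  rw [e] at e1
  rw [Matrix.det_fin_two] at hD
  obtain ⟨h1, h2⟩ := int_indep_lat τ (p := A * (η 1 1 - η 0 0) - η 1 0 * B)
    (q := -A * η 0 1 - η 1 0 * C) (by push_cast; linear_combination A * e1 - η 1 0 * hq)
  obtain ⟨h3, h4⟩ := int_indep_lat τ (p := (η 1 1 - η 0 0) * C + η 0 1 * B) (q := 0) (by
    have h2' : -(A : ℂ) * η 0 1 - η 1 0 * C = 0 := by exact_mod_cast h2
    push_cast
    linear_combination C * e1 + η 0 1 * hq + (τ : ℂ) ^ 2 * h2')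
  obtain ⟨t, ht⟩ : ∃ t, t = u * η 1 0 + v * (η 1 1 - η 0 0) - w * η 0 1 := ⟨_, rfl⟩
  have k1 : η 1 0 = t * A := by rw [ht]; linear_combination (-η 1 0) * hb - v * h1 - w * h2
  have k2 : η 1 1 - η 0 0 = t * B := by
    rw [ht]; linear_combination (-(η 1 1 - η 0 0)) * hb + u * h1 + w * h3
  have k3 : -η 0 1 = t * C := by rw [ht]; linear_combination η 0 1 * hb + u * h2 - v * h3
  have hdet : 0 < η 0 0 * η 1 1 - η 0 1 * η 1 0 := by rwa [Matrix.det_fin_two] at hη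
  have k4 : (η 0 0 + η 1 1) ^ 2 - 4 * (η 0 0 * η 1 1 - η 0 1 * η 1 0) =
      t ^ 2 * (B ^ 2 - 4 * A * C) := by
    have k3' : η 0 1 = -(t * C) := by linear_combination -k3
    have k2' : η 1 1 = η 0 0 + t * B := by linear_combination k2
    rw [k1, k3', k2']
    ring
  have ht0 : t = 0 := by
    by_contra hne
    have h5 : 0 < t ^ 2 := by positivity
    generalize η 0 0 * η 1 1 - η 0 1 * η 1 0 = x at hD hdet k4
    generalize B ^ 2 - 4 * A * C = y at hD k4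
    nlinarith [sq_nonneg (η 0 0 + η 1 1)]
  rw [ht0, zero_mul] at k1 k2 k3
  exact ⟨by linear_combination -k3, k1, by linear_combination -k2⟩

theorem vwr_key {N : ℕ} (hN : 0 < N) {τ : ℍ} {D : ℤ} (hD : HasDisc τ D)
    (hb : 4 * (N : ℤ) ^ 2 < -D) {ξ : MZ} (hξ : ξ.det = N) {δ : SL(2, ℤ)}
    (h : jInv (act ξ τ) = jInv (act ξ (δ • τ))) (i j : Fin 2) :
    (N : ℤ) ∣ (ξ * (δ : MZ) * ξ.adjugate) i j := by
  have hN' : (0 : ℤ) < N := by exact_mod_cast hN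
  have hp : 0 < ξ.det := by rw [hξ]; exact hN'
  obtain ⟨γ, hγ⟩ := jInv_inj h
  have dA : (ξ * (δ : MZ)).det = N := by rw [Matrix.det_mul, δ.det_coe, mul_one, hξ]
  have dB : ((γ : MZ) * ξ).det = N := by rw [Matrix.det_mul, γ.det_coe, one_mul, hξ]
  have hAB : act (ξ * (δ : MZ)) τ = act ((γ : MZ) * ξ) τ := by
    rw [act_mul hp (vact_SL_det δ), act_mul (vact_SL_det γ) hp, act_SL, act_SL, hγ]
  have hB2 : (γ : MZ) * ξ * ξ.adjugate = (N : ℤ) • (γ : MZ) := by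
    rw [mul_assoc, Matrix.mul_adjugate, hξ, mul_smul_comm, mul_one]
  generalize ξ * (δ : MZ) = A at dA hAB
  generalize (γ : MZ) * ξ = B at dB hAB hB2
  have dB' : B.adjugate.det = N := by
    rw [Matrix.det_adjugate, dB, Fintype.card_fin]
    simp
  have pA : 0 < A.det := by rw [dA]; exact hN'
  have pB : 0 < B.det := by rw [dB]; exact hN'
  have pB' : 0 < B.adjugate.det := by rw [dB']; exact hN'
  have dη : (B.adjugate * A).det = (N : ℤ) ^ 2 := by rw [Matrix.det_mul, dB', dA, sq]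
  have fx : act (B.adjugate * A) τ = τ := by
    rw [act_mul pB' pA, hAB, ← act_mul pB' pB, Matrix.adjugate_mul, act_smul (by simp) pB.ne',
      act_one]
  obtain ⟨s1, s2, s3⟩ := hD.scalar (by rw [dη]; positivity) (by rw [dη]; exact hb) fx
  have hBη : B * (B.adjugate * A) = (N : ℤ) • A := by
    rw [← mul_assoc, Matrix.mul_adjugate, dB, smul_mul_assoc, one_mul]
  generalize B.adjugate * A = η at dη s1 s2 s3 hBη
  have hη : η = η 1 1 • (1 : MZ) := by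
    ext i j
    fin_cases i <;> fin_cases j <;> simp [s1, s2, s3]
  rw [Matrix.det_fin_two, s1, s3, zero_mul, sub_zero, ← sq] at dη
  generalize η 1 1 = c at hη dη
  have hc : (N : ℤ) ∣ c := (Int.pow_dvd_pow_iff two_ne_zero).1 ⟨1, by rw [dη, mul_one]⟩
  rw [hη, mul_smul_comm, mul_one] at hBη
  have h2 : (N : ℤ) • (A * ξ.adjugate) = (N : ℤ) • (c • (γ : MZ)) := by
    rw [← smul_mul_assoc, ← hBη, smul_mul_assoc, hB2, smul_comm]
  have h3 := congrFun (congrFun h2 i) j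
  simp only [Matrix.smul_apply, smul_eq_mul] at h3
  rw [mul_left_cancel₀ hN'.ne' h3]
  exact hc.mul_right _

theorem weak_rec {N : ℕ} (hN : 0 < N) {L : IntermediateField ℚ ℂ} (hz : zt N ∈ L) {σ : ℂ ≃+* ℂ}
    (hσ : ∀ a ∈ L, σ a = a) {τ τ' : ℍ} {D : ℤ} (hD : HasDisc τ' D) (hb : 4 * (N : ℤ) ^ 2 < -D)
    (h0 : σ (jInv τ) = jInv τ') (h1 : σ (jInv (mulH N hN τ)) = jInv (mulH N hN τ'))
    (h2 : σ (jInv (divH N hN 0 τ)) = jInv (divH N hN 0 τ'))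
    (h3 : σ (jInv (divH N hN 1 τ)) = jInv (divH N hN 1 τ')) :
    ∃ δ, Scal N δ ∧ ∀ f ∈ MF N L, σ (f τ) = f (δ • τ') := by
  obtain ⟨τ'', hc⟩ := exists_conj hN hσ τ
  obtain ⟨δ, rfl⟩ := jInv_inj (τ := τ') (τ' := τ'') (by rw [hc _ (MF.j hN), h0])
  have hN' : (0 : ℤ) < N := by exact_mod_cast hN
  have hNc : (N : ℂ) ≠ 0 := by exact_mod_cast hN.ne'
  have key : ∀ (ξ : MZ) (w : ℍ → ℍ), ξ.det = N →
      (∀ x : ℍ, ((ξ 1 0 : ℂ) * x + ξ 1 1) * (w x : ℂ) = (ξ 0 0 : ℂ) * x + ξ 0 1) →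
      σ (jInv (w τ)) = jInv (w τ') → ∀ i j, (N : ℤ) ∣ (ξ * (δ : MZ) * ξ.adjugate) i j := by
    intro ξ w hξ hw h
    have hp : 0 < ξ.det := by rw [hξ]; exact hN'
    have hm := MF.act (L := L) one_pos (MF.j one_pos) hp hN (by rw [hξ]; simp) le_rfl hz
    refine vwr_key hN hD hb hξ ?_
    rw [hc _ hm, vact_ext hp (hw τ), vact_ext hp (hw τ'), h]
  have k1 := key !![(N : ℤ), 0; 0, 1] (mulH N hN) (by simp [Matrix.det_fin_two])
    (fun x => by simp) h1 1 0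
  have k2 := key !![1, 0; 0, (N : ℤ)] (divH N hN 0) (by simp [Matrix.det_fin_two])
    (fun x => by simp [mul_div_cancel₀ _ hNc]) h2 0 1
  have k3 := key !![1, 1; 0, (N : ℤ)] (divH N hN 1) (by simp [Matrix.det_fin_two])
    (fun x => by simp [mul_div_cancel₀ _ hNc]) h3 0 1
  simp [Matrix.adjugate_fin_two, Matrix.mul_apply, Fin.sum_univ_two, Matrix.vecMul,
    dotProduct] at k1 k2 k3
  refine ⟨δ, ⟨k2, k1, ?_⟩, fun f hf => (hc f hf).symm⟩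
  have := dvd_sub (dvd_sub k2 k1) k3
  refine (dvd_iff_dvd_of_dvd_sub ⟨0, ?_⟩).1 this
  ring

end Pool.Agent.EQ
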