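import Pool.Agent.P.MP_ad7a55_nt.VCh
import Pool.Agent.P.MP_ad7a55_nt.VWr

/-! Reciprocity law for points of level N. -/

set_option autoImplicit false

noncomputable section

open MeasureTheory Topology Filter UpperHalfPlane
open scoped MatrixGroups ENNReal BoundedContinuousFunction

namespace Pool.Agent.EQ

variable {p : ℕ} [Fact p.Prime] {N : ℕ}

theorem vrc_inK {D E : ℤ} (hD : IsD D) (hE : IsD E) (h : OD E ≤ OD D) {w : ℂ} (hw : InK E w) :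
    InK D w := by
  obtain ⟨c, -, rfl⟩ := exists_cond hD hE h
  refine cm_inK_ratio (ρ := c) ?_ hw
  rw [th_mul_sq, Rat.cast_natCast]

theorem vrc_disc {w : ℂ} {g : GG p} {V : SL(2, ℚ_[p])} (hV : Rot p w g V) {D : ℤ}
    (hD : DiscL (latG p g) D) (hw : InK D w) : DiscL (latG p ((1, V) * g)) D := by
  rw [← latA_zero 1, hV.latA one_pos, latA_zero]
  exact discL_star p hD (hw.inv hD.isD.1)

theorem vrc_mul (a b : SL(2, ℚ_[p])) (g : GG p) :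
    ((1, a) : GG p) * ((1, b) * g) = (1, a * b) * g :=
  Prod.ext (one_mul _) (mul_assoc _ _ _).symm

theorem vrc_ginv {L : IntermediateField ℚ ℂ} {f : ℍ → ℂ} (hf : f ∈ MF N L) : GInv N f :=
  fun _ hγ τ => MF.inv hf hγ τ

theorem vrc_down (hN : 0 < N) {N' : ℕ} (hN' : 0 < N') (h : N ∣ N') {L : IntermediateField ℚ ℂ}
    {σ : ℂ ≃+* ℂ} {g g' : GG p} {δ : SL(2, ℤ)}
    (H : ∀ f ∈ MF N' L, σ (f (pt p N' g)) = f (δ • pt p N' g')) :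
    ∀ f ∈ MF N L, σ (f (pt p N g)) = f (δ • pt p N g') := fun f hf => by
  rw [← (vrc_ginv hf).pt_level hN hN' h g, H f (MF.mono hN' h le_rfl hf)]
  exact (vrc_ginv (MF.smul hf δ)).pt_level hN hN' h g'

/-- The weak law at one point. -/
theorem rec_pt (hN : 0 < N) {L : IntermediateField ℚ ℂ} (hz : zt N ∈ L) {σ : ℂ ≃+* ℂ}
    (hσ : ∀ a ∈ L, σ a = a) {E : ℤ} (hE : IsD E) {w : ℂ} (hw : InK E w)
    (h : ∀ D Λ, D < -576 → OD E ≤ OD D → DiscL Λ D → σ (jL Λ) = jL (star p w⁻¹ Λ))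
    {g : GG p} {V : SL(2, ℚ_[p])} (hV : Rot p w g V) {D : ℤ} (hD : DiscL (latG p g) D)
    (hle : OD E ≤ OD (N ^ 2 * D)) (hb : 577 * (N : ℤ) ^ 2 ≤ -D) :
    ∃ δ, Scal N δ ∧ ∀ f ∈ MF N L, σ (f (pt p N g)) = f (δ • pt p N ((1, V) * g)) := by
  have hN2 : (0 : ℤ) < (N : ℤ) ^ 2 := by positivity
  have key : ∀ α β : ℤ, σ (jL (latA p N α β g)) = jL (latA p N α β ((1, V) * g)) := fun α β => by
    obtain ⟨l1, l2⟩ := latA_le N α β g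
    obtain ⟨D', h1, h2, h3⟩ := disc_between hD hN l2 l1
    have h4 : 577 ≤ -D' := le_of_mul_le_mul_left (by linarith) hN2
    rw [hV.latA hN]
    exact h D' _ (by omega) (hle.trans h2) h1
  have hd := vrc_disc hV hD (vrc_inK hD.isD hE (hle.trans (OD_sq_le hD.isD N)) hw)
  obtain ⟨a0, a1, a2, a3⟩ := jL_latA hN g
  obtain ⟨b0, b1, b2, b3⟩ := jL_latA hN ((1, V) * g)
  refine weak_rec hN hz hσ (hasDisc_pt hN hd) (by linarith) ?_ ?_ ?_ ?_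
  · rw [← a0, ← b0, key]
  · rw [← a1, ← b1, key]
  · rw [← a2, ← b2, key]
  · rw [← a3, ← b3, key]

/-- The scalar is the same at the two ends of an isogeny. -/
theorem rec_step (hN : 0 < N) {L : IntermediateField ℚ ℂ} (hz : zt (N * p ^ 2) ∈ L) :
    ∃ B : ℝ, ∀ (σ : ℂ ≃+* ℂ) (g g' : GG p) (D : ℤ) (δ δ₁ : SL(2, ℤ)) (b : SL(2, ℚ_[p])),
      DiscL (latG p g') D → B ≤ -(D : ℝ) → Bd (p : ℝ) (b : Matrix (Fin 2) (Fin 2) ℚ_[p]) →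
      Scal (N * p ^ 2) δ₁ →
      (∀ f ∈ MF (N * p ^ 2) L, σ (f (pt p (N * p ^ 2) g)) = f (δ₁ • pt p (N * p ^ 2) g')) →
      (∀ f ∈ MF N L, σ (f (pt p N g)) = f (δ • pt p N g')) →
      ∀ f ∈ MF N L, σ (f (pt p N ((1, b) * g))) = f (δ • pt p N ((1, b) * g')) := by
  have hp : 0 < p := (Fact.out : p.Prime).pos
  have hN1 : 0 < N * p ^ 2 := by positivity
  obtain ⟨S, hS, hsep⟩ := sep0 hN L
  obtain ⟨B, hB⟩ := disc_bound hS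
  refine ⟨B, fun σ g g' D δ δ₁ b hD hBD hb hδ₁ H₁ H f hf => ?_⟩
  obtain ⟨ξ, hdet, hξ⟩ := pt_step hN hb
  have hpos : 0 < ξ.det := by rw [hdet]; positivity
  have habs : ξ.det.natAbs = p ^ 2 := by rw [hdet, Int.natAbs_pow, Int.natAbs_natCast]
  have hG : δ * δ₁⁻¹ ∈ G0 N L := by
    refine hsep _ (δ₁ • pt p N g') ?_ fun u hu => ?_
    · rw [jInv_smul]
      exact hB _ D (hasDisc_pt hN hD) hBD
    · rw [mul_smul, inv_smul_smul, ← H u hu, vrc_down hN hN1 (dvd_mul_right _ _) H₁ u hu]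
  have e1 : ∀ τ : ℍ, f (δ • τ) = f (δ₁ • τ) := fun τ => by
    rw [← hG f hf (δ₁ • τ), mul_smul, inv_smul_smul]
  obtain ⟨γ, hγ, e2⟩ := hξ g
  obtain ⟨γ', hγ', e3⟩ := hξ g'
  obtain ⟨ε, hε, e4⟩ := Scal.comm hpos (N := N) (δ := δ₁) (by rwa [habs])
  have e5 := H₁ _ (MF.act hN hf hpos hN1 (by rw [habs]) le_rfl hz)
  rw [e1, e2, e3, MF.inv hf hγ, e5, MF.inv (MF.smul hf δ₁) hγ', ← act_SL δ₁ (pt p _ g'),
    ← act_mul hpos (vact_SL_det δ₁), e4, act_mul (vact_SL_det _) hpos, act_SL, mul_smul,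
    MF.inv hf hε]

theorem vrc_pow_fix {σ : ℂ ≃+* ℂ} {a : ℂ} (h : σ a = a) (m : ℕ) : (σ ^ m) a = a := by
  induction m with
  | zero => rfl
  | succ m ih => rw [pow_succ, RingAut.mul_apply, h, ih]

/-- The scalar propagates along the orbit. -/
theorem vrc_next (hN : 0 < N) {L : IntermediateField ℚ ℂ} (hz : zt (N * p ^ 2) ∈ L) :
    ∃ B : ℝ, 0 ≤ B ∧ 577 * ((N * p ^ 2 : ℕ) : ℝ) ^ 2 ≤ B ∧ ∀ {σ : ℂ ≃+* ℂ}, (∀ a ∈ L, σ a = a) →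
      ∀ {E : ℤ}, IsD E → ∀ {w : ℂ}, InK E w →
      (∀ D Λ, D < -576 → OD E ≤ OD D → DiscL Λ D → σ (jL Λ) = jL (star p w⁻¹ Λ)) →
      ∀ {V : SL(2, ℚ_[p])} {s : ℕ} {D : ℤ} {δ : SL(2, ℤ)},
      Bd ((p : ℝ) ^ s) (V : Matrix (Fin 2) (Fin 2) ℚ_[p]) → (p : ℝ) ^ (2 * s) * B ≤ -(D : ℝ) →
      OD E ≤ OD ((N * p ^ 2 : ℕ) ^ 2 * D) → ∀ y : GG p, DiscL (latG p y) D → Rot p w y V →
      (∀ f ∈ MF N L, σ (f (pt p N y)) = f (δ • pt p N ((1, V) * y))) →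
      ∀ f ∈ MF N L, σ (f (pt p N ((1, V) * y))) = f (δ • pt p N ((1, V) * ((1, V) * y))) := by
  have hp : 0 < p := (Fact.out : p.Prime).pos
  have hN1 : 0 < N * p ^ 2 := by positivity
  obtain ⟨B, hB⟩ := rec_step (p := p) hN hz
  refine ⟨max B (577 * ((N * p ^ 2 : ℕ) : ℝ) ^ 2), le_max_of_le_right (by positivity),
    le_max_right _ _, ?_⟩
  intro σ hσ E hE w hw h V s D δ hV hs hle y hy hR H
  have hle' := hle.trans (OD_sq_le hy.isD _)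
  refine chain hy (vrc_disc hR hy (vrc_inK hy.isD hE hle' hw)) hV
    (fun c => ∀ f ∈ MF N L, σ (f (pt p N ((1, c) * y))) = f (δ • pt p N ((1, c) * ((1, V) * y))))
    (fun c b D' hb hD' hO hbd Hc => ?_) ?_
  · have h1 : -(D : ℝ) ≤ (p : ℝ) ^ (2 * s) * -(D' : ℝ) := by exact_mod_cast hbd
    have h2 := le_of_mul_le_mul_left (hs.trans h1) (by positivity)
    have h3 : 577 * ((N * p ^ 2 : ℕ) : ℤ) ^ 2 ≤ -D' := by
      exact_mod_cast (le_max_right _ _).trans h2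
    have e : ((1, c * V * c⁻¹) : GG p) * ((1, c) * y) = (1, c) * ((1, V) * y) := by
      rw [vrc_mul, vrc_mul, inv_mul_cancel_right]
    obtain ⟨δ₁, hδ₁, H₁⟩ := rec_pt hN1 hz hσ hE hw h (hR.left c) hD'
      (hle.trans (OD_sq_mono hD'.isD hy.isD hO _)) h3
    have hd := vrc_disc (hR.left c) hD' (vrc_inK hD'.isD hE (hle'.trans hO) hw)
    rw [e] at H₁ hd
    have := hB σ _ _ D' δ δ₁ b hd ((le_max_left _ _).trans h2) hb hδ₁ H₁ Hc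
    rwa [vrc_mul, vrc_mul b c] at this
  · rwa [← Prod.one_eq_mk, one_mul, one_mul]

theorem rec_main (p : ℕ) [Fact p.Prime] (hN : 0 < N) (F : IntermediateField ℚ ℂ)
    [FiniteDimensional ℚ F] (n : ℕ) : ∃ (M : ℕ) (B : ℝ), 0 < M ∧
      ∀ 𝒟 : Finset ℤ, 𝒟.card ≤ n → (∀ D ∈ 𝒟, D < -576 ∧ IsD D) → ∀ D₀ ∈ 𝒟, ∀ w : ℂ, InK D₀ w →
        ∃ σ : ℂ ≃+* ℂ, (∀ a ∈ F, σ a = a) ∧
          (∀ D ∈ 𝒟, ¬ IsSquare (D * D₀) → ∀ τ, HasDisc τ D → ∀ f ∈ MF N F, σ (f τ) = f τ) ∧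
          ∀ D ∈ 𝒟, IsSquare (D * D₀) → ∀ (g : GG p) (V : SL(2, ℚ_[p])) (s : ℕ),
            DiscL (latG p g) D → Rot p w g V →
            (∀ i ≤ M, Bd ((p : ℝ) ^ s) ((V ^ i : SL(2, ℚ_[p])) : Matrix (Fin 2) (Fin 2) ℚ_[p])) →
            (p : ℝ) ^ (2 * s) * B ≤ -(D : ℝ) →
            ∀ f ∈ MF N F, σ (f (pt p N g)) = f (pt p N ((1, V ^ M) * g)) := by
  classical
  have hp : 0 < p := (Fact.out : p.Prime).pos
  have hN1 : 0 < N * p ^ 2 := by positivity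
  obtain ⟨L, hL, hFL, -, hz⟩ := exists_field F F hN1
  obtain ⟨M₀, hM₀, hcm⟩ := cm_pow2 L n
  obtain ⟨m, hm, hfix⟩ := fix_pow hN
  obtain ⟨B, hB0, hB1, hB⟩ := vrc_next (p := p) hN hz
  refine ⟨M₀ * (2 * m), B, by positivity, fun 𝒟 hcard h𝒟 D₀ hD₀ w hw => ?_⟩
  have hneg : ∀ D ∈ 𝒟, D < 0 := fun D hD => (h𝒟 D hD).2.1
  have h0 : D₀ < 0 := hneg D₀ hD₀
  obtain ⟨f₀, hf0, hdvd⟩ : ∃ f₀ : ℕ, 0 < f₀ ∧ ∀ D ∈ 𝒟, D ∣ (f₀ : ℤ) :=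
    ⟨(∏ D ∈ 𝒟, D).natAbs,
      Int.natAbs_pos.2 (Finset.prod_ne_zero_iff.2 fun D hD => (hneg D hD).ne), fun D hD =>
      Int.dvd_natAbs.2 (Finset.dvd_prod_of_mem (fun D : ℤ => D) hD)⟩
  have hf1 : 0 < N * p ^ 2 * f₀ := Nat.mul_pos hN1 hf0
  have hE : IsD ((N * p ^ 2 * f₀ : ℕ) ^ 2 * D₀) := cm_isD_sq (h𝒟 D₀ hD₀).2 hf1
  have hE' : ((N * p ^ 2 * f₀ : ℕ) : ℤ) ^ 2 * D₀ < -576 := by
    have h1 : (1 : ℤ) ≤ ((N * p ^ 2 * f₀ : ℕ) : ℤ) ^ 2 := one_le_pow₀ (by exact_mod_cast hf1)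
    have h2 := (h𝒟 D₀ hD₀).1
    nlinarith
  have hwE : InK ((N * p ^ 2 * f₀ : ℕ) ^ 2 * D₀) w := cm_inK_sq hf1 hw
  obtain ⟨σ, hσ, hact, hT⟩ := hcm p _ hE' hE (𝒟.filter fun D => ¬ IsSquare (D * D₀))
    ((Finset.card_filter_le _ _).trans hcard) (fun D hD => by
      obtain ⟨h1, h2⟩ := Finset.mem_filter.1 hD
      exact ⟨(h𝒟 D h1).1, (h𝒟 D h1).2, cm_not_sq hf1 h2⟩) w⁻¹ (hwE.inv hE.1)
  rw [inv_pow] at hact
  refine ⟨σ ^ (2 * m), fun a ha => vrc_pow_fix (hσ a (hFL ha)) _, fun D hD hsq τ hτ f hf => ?_,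
    fun D hD hsq g V s hg hV hBd hs f hf => ?_⟩
  · have h1 := hT D (Finset.mem_filter.2 ⟨hD, hsq⟩) _ (discL_one hτ)
    rw [jL_one] at h1
    rw [mul_comm, pow_mul]
    exact vrc_pow_fix (hfix L σ hσ τ h1 f (MF.mono hN dvd_rfl hFL hf)) 2
  obtain ⟨ρ, hρ0, hρ1, -⟩ := exists_ratio (hneg D hD) h0 hsq
  obtain ⟨c, -, hc⟩ := cm_ratio_nat hρ0 hρ1 hf0 (hdvd D hD)
  have e : (f₀ : ℤ) ^ 2 * D₀ = (c : ℤ) ^ 2 * D := by
    have : ((f₀ : ℚ)) ^ 2 * D₀ = (c : ℚ) ^ 2 * D := by rw [hc, ← hρ1]; ring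
    exact_mod_cast this
  have hle : OD ((N * p ^ 2 * f₀ : ℕ) ^ 2 * D₀) ≤ OD ((N * p ^ 2 : ℕ) ^ 2 * D) := by
    have e' : ((N * p ^ 2 * f₀ : ℕ) : ℤ) ^ 2 * D₀ = (c : ℤ) ^ 2 * ((N * p ^ 2 : ℕ) ^ 2 * D) := by
      rw [Nat.cast_mul, mul_pow, mul_assoc, e, mul_left_comm]
    rw [e']
    exact OD_sq_le (cm_isD_sq hg.isD hN1) c
  have hw0 := hwE.pow_star hE.1 M₀
  have hw1 := vrc_inK hg.isD hE (hle.trans (OD_sq_le hg.isD _)) hw0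
  have hV0 := hV.pow M₀
  have hb0 := hBd M₀ (Nat.le_mul_of_pos_right _ (by positivity))
  rw [pow_mul V]
  generalize V ^ M₀ = V₀ at hV0 hb0 ⊢
  have hb1 : 577 * ((N * p ^ 2 : ℕ) : ℤ) ^ 2 ≤ -D := by
    have h1 : (1 : ℝ) ≤ (p : ℝ) ^ (2 * s) := one_le_pow₀ (by exact_mod_cast hp)
    exact_mod_cast hB1.trans ((le_mul_of_one_le_left hB0 h1).trans hs)
  obtain ⟨δ, hδ, H⟩ := rec_pt hN1 hz hσ hE hw0 hact hV0 hg hle hb1
  have hrel : ∀ i : ℕ, ∀ u ∈ MF N L, σ (u (pt p N ((1, V₀ ^ i) * g))) =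
      u (δ • pt p N ((1, V₀) * ((1, V₀ ^ i) * g))) := fun i => by
    induction i with
    | zero =>
      rw [pow_zero, ← Prod.one_eq_mk, one_mul]
      exact vrc_down hN hN1 (dvd_mul_right _ _) H
    | succ i ih =>
      have hr := hV0.left (V₀ ^ i)
      rw [← pow_succ, pow_succ', mul_inv_cancel_right] at hr
      rw [pow_succ', ← vrc_mul]
      exact hB hσ hE hw0 hact hb0 hs hle _
        (vrc_disc (hV0.pow i) hg (hw1.pow_star hg.isD.1 i)) hr ih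
  have hit : ∀ i : ℕ, ∀ u ∈ MF N L, (σ ^ i) (u (pt p N g)) =
      u (δ ^ i • pt p N ((1, V₀ ^ i) * g)) := fun i u hu => by
    induction i with
    | zero => rw [pow_zero, pow_zero, pow_zero, ← Prod.one_eq_mk, one_mul, one_smul, RingAut.one_apply]
    | succ i ih =>
      rw [pow_succ' σ, RingAut.mul_apply, ih, hrel i _ (MF.smul hu (δ ^ i)), vrc_mul, ← pow_succ',
        pow_succ δ, mul_smul]
  rw [hit _ f (MF.mono hN dvd_rfl hFL hf), pow_mul δ]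
  exact MF.inv hf (pow_mem (hδ.mono (dvd_mul_right _ _)).sq m) _

end Pool.Agent.EQ
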