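import Pool.Agent.P.MP_ad7a55_nt.UMv

/-! Approximation of roots by rational elements of norm one. -/

set_option autoImplicit false

noncomputable section

open MeasureTheory Topology Filter UpperHalfPlane
open scoped MatrixGroups ENNReal BoundedContinuousFunction

namespace Pool.Agent.EQ

variable (p : ℕ) [Fact p.Prime]

theorem vrt_step {M : ℕ} (hM : 0 < M) {D : ℤ} (hD : D < 0) {y : ℚ}
    (hy : ‖(y : ℚ_[p]) ^ 2 * D‖ ≤ ‖(M : ℚ_[p])‖ ^ 3 / p) :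
    ∃ (l y' : ℚ), l ≠ 0 ∧ ‖(y' : ℚ_[p])‖ ≤ ‖(y : ℚ_[p])‖ / p ∧
      1 + y * th D = (1 + ((y / M : ℚ) : ℂ) * th D) ^ M * (l * (1 + y' * th D)) := by
  have hp : (1 : ℝ) < p := by exact_mod_cast (Fact.out : p.Prime).one_lt
  have hM0 : (M : ℚ_[p]) ≠ 0 := by exact_mod_cast hM.ne'
  have hμ : 0 < ‖(M : ℚ_[p])‖ := norm_pos_iff.2 hM0
  have hμ1 : ‖(M : ℚ_[p])‖ ≤ 1 := by simpa using Padic.norm_int_le_one (p := p) M
  have hz : ((y / M : ℚ) : ℚ_[p]) = y / M := by push_cast; rfl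
  have hzn : ‖((y / M : ℚ) : ℚ_[p])‖ = ‖(y : ℚ_[p])‖ / ‖(M : ℚ_[p])‖ := by rw [hz, norm_div]
  have hε : ‖((y / M : ℚ) : ℚ_[p]) ^ 2 * D‖ ≤ ‖(M : ℚ_[p])‖ / p := by
    have : ‖((y / M : ℚ) : ℚ_[p]) ^ 2 * D‖ = ‖(y : ℚ_[p]) ^ 2 * D‖ / ‖(M : ℚ_[p])‖ ^ 2 := by
      rw [hz, ← norm_pow, ← norm_div]
      congr 1
      field_simp
    rw [this, div_le_iff₀ (by positivity)]
    refine hy.trans (le_of_eq ?_)
    ring
  have hε1 : ‖((y / M : ℚ) : ℚ_[p]) ^ 2 * D‖ < 1 := by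
    refine hε.trans_lt ?_
    rw [div_lt_one (by linarith)]
    linarith
  obtain ⟨A, B, e, hA, hB, hB'⟩ := pow_est_star p hD hε1.le M
  have hMz : (M : ℚ_[p]) * ((y / M : ℚ) : ℚ_[p]) = y := by rw [hz]; field_simp
  rw [hMz] at hB
  have hyz : ‖(y : ℚ_[p])‖ ≤ ‖((y / M : ℚ) : ℚ_[p])‖ := by
    rw [hzn, le_div_iff₀ hμ]
    exact mul_le_of_le_one_right (norm_nonneg _) hμ1
  have hA0 : A ≠ 0 := by
    rintro rfl
    have := hA.trans_lt hε1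
    simp at this
  have hN := norm_ne_zero_star hD (b := B) (Or.inl hA0)
  have hE : ‖((A - y * B * D : ℚ) : ℚ_[p])‖ = 1 := by
    apply norm_eq_one_star
    have := Padic.nonarchimedean ((A : ℚ_[p]) - 1) (-(y * B * D))
    have e2 : ((A - y * B * D : ℚ) : ℚ_[p]) - 1 = (A : ℚ_[p]) - 1 + -(y * B * D) := by
      push_cast
      ring
    rw [e2]
    refine (this.trans (max_le hA ?_)).trans_lt hε1
    simp only [norm_neg, norm_mul, sq]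
    gcongr
  have hE0 : A - y * B * D ≠ 0 := by
    intro h0
    rw [h0] at hE
    simp at hE
  refine ⟨(A - y * B * D) / (A ^ 2 - B ^ 2 * D),
    (y * A - B) / (A - y * B * D), div_ne_zero hE0 hN, ?_, ?_⟩
  · rw [Rat.cast_div, norm_div, hE, div_one]
    have := Padic.nonarchimedean ((y : ℚ_[p]) * ((A : ℚ_[p]) - 1))
      (-((B : ℚ_[p]) - (y : ℚ_[p])))
    have e2 : ((y * A - B : ℚ) : ℚ_[p]) = (y : ℚ_[p]) * (A - 1) + -(B - y) := by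
      push_cast
      ring
    rw [e2]
    have h3 : ‖((y / M : ℚ) : ℚ_[p])‖ * ‖((y / M : ℚ) : ℚ_[p]) ^ 2 * D‖ ≤ ‖(y : ℚ_[p])‖ / p := by
      calc _ ≤ ‖(y : ℚ_[p])‖ / ‖(M : ℚ_[p])‖ * (‖(M : ℚ_[p])‖ / p) := by
            rw [hzn]
            gcongr
        _ = _ := by field_simp
    refine (this.trans (max_le ?_ ?_)).trans h3
    · rw [norm_mul]
      gcongr
    · rwa [norm_neg]
  · rw [e]
    have hth := th_sq hD.le
    have hN' : (A : ℂ) ^ 2 - (B : ℂ) ^ 2 * D ≠ 0 := by exact_mod_cast hN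
    have hE' : (A : ℂ) - y * B * D ≠ 0 := by exact_mod_cast hE0
    push_cast
    field_simp
    linear_combination -(B : ℂ) * (y * A - B) * hth

/-- Pairs close to `(1, 0)`. -/
def vrt_G (D : ℤ) (δ : ℝ) (a b : ℚ) : Prop :=
  ‖(a : ℚ_[p]) - 1‖ ≤ δ ∧ ‖(b : ℚ_[p]) ^ 2 * D‖ ≤ δ

theorem vrt_cross {D : ℤ} {δ : ℝ} {b b' : ℚ_[p]} (hb : ‖b ^ 2 * D‖ ≤ δ) (hb' : ‖b' ^ 2 * D‖ ≤ δ) :
    ‖b * b' * D‖ ≤ δ := by
  have hδ : 0 ≤ δ := (norm_nonneg _).trans hb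
  have e : ‖b * b' * D‖ ^ 2 = ‖b ^ 2 * D‖ * ‖b' ^ 2 * D‖ := by
    simp only [norm_mul, norm_pow]
    ring
  have : ‖b * b' * D‖ ^ 2 ≤ δ ^ 2 := by
    rw [e, sq δ]
    exact mul_le_mul hb hb' (norm_nonneg _) hδ
  exact (pow_le_pow_iff_left₀ (norm_nonneg _) hδ two_ne_zero).1 this

theorem vrt_le_one {a : ℚ_[p]} {δ : ℝ} (hδ : δ ≤ 1) (ha : ‖a - 1‖ ≤ δ) : ‖a‖ ≤ 1 := by
  have := Padic.nonarchimedean (a - 1) 1
  rw [sub_add_cancel, norm_one] at this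
  exact this.trans (max_le (ha.trans hδ) le_rfl)

theorem vrt_G.mul {D : ℤ} {δ : ℝ} (hδ : δ ≤ 1) {a b a' b' : ℚ} (h : vrt_G p D δ a b)
    (h' : vrt_G p D δ a' b') : vrt_G p D δ (a * a' + b * b' * D) (a * b' + b * a') := by
  have ha := vrt_le_one p hδ h.1
  have ha' := vrt_le_one p hδ h'.1
  constructor
  · have e : ((a * a' + b * b' * D : ℚ) : ℚ_[p]) - 1 =
        ((a : ℚ_[p]) * (a' - 1) + (a - 1)) + b * b' * D := by
      push_cast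
      ring
    rw [e]
    refine (Padic.nonarchimedean _ _).trans (max_le ((Padic.nonarchimedean _ _).trans
      (max_le ?_ h.1)) (vrt_cross p h.2 h'.2))
    rw [norm_mul]
    exact (mul_le_of_le_one_left (norm_nonneg _) ha).trans h'.1
  · have e : ((a * b' + b * a' : ℚ) : ℚ_[p]) = (a : ℚ_[p]) * b' + b * a' := by
      push_cast
      ring
    have h1 : ‖(a : ℚ_[p]) * b'‖ ≤ ‖(b' : ℚ_[p])‖ := by
      rw [norm_mul]
      exact mul_le_of_le_one_left (norm_nonneg _) ha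
    have h2 : ‖(b : ℚ_[p]) * a'‖ ≤ ‖(b : ℚ_[p])‖ := by
      rw [norm_mul]
      exact mul_le_of_le_one_right (norm_nonneg _) ha'
    have h3 := Padic.nonarchimedean ((a : ℚ_[p]) * (b' : ℚ_[p])) ((b : ℚ_[p]) * (a' : ℚ_[p]))
    rw [e]
    rcases le_total ‖(b : ℚ_[p])‖ ‖(b' : ℚ_[p])‖ with hle | hle
    · refine le_trans ?_ h'.2
      have h4 := h3.trans (max_le h1 (h2.trans hle))
      simp only [norm_mul, norm_pow]
      gcongr
    · refine le_trans ?_ h.2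
      have h4 := h3.trans (max_le (h1.trans hle) h2)
      simp only [norm_mul, norm_pow]
      gcongr

theorem vrt_mul_eq {D : ℤ} (hD : D < 0) (a b a' b' : ℚ) :
    ((a : ℂ) + b * th D) * (a' + b' * th D) =
      ((a * a' + b * b' * D : ℚ) : ℂ) + ((a * b' + b * a' : ℚ) : ℂ) * th D := by
  have hth := th_sq hD.le
  push_cast
  linear_combination (b : ℂ) * b' * hth

theorem vrt_G.pow {D : ℤ} (hD : D < 0) {δ : ℝ} (hδ : δ ≤ 1) {a b : ℚ} (h : vrt_G p D δ a b)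
    (i : ℕ) : ∃ A B : ℚ, ((a : ℂ) + b * th D) ^ i = A + B * th D ∧ vrt_G p D δ A B := by
  have h0 : 0 ≤ δ := (norm_nonneg _).trans h.1
  induction i with
  | zero => exact ⟨1, 0, by simp, by simpa using h0, by simpa using h0⟩
  | succ i ih =>
    obtain ⟨A, B, e, hG⟩ := ih
    exact ⟨_, _, by rw [pow_succ, e, vrt_mul_eq hD], hG.mul p hδ h⟩

theorem vrt_sq {D : ℤ} (hD : D < 0) {δ : ℝ} (hδ : δ < 1) {z : ℚ}
    (hz : ‖(z : ℚ_[p]) ^ 2 * D‖ ≤ δ) : ∃ a b n : ℚ, n ≠ 0 ∧ a ^ 2 - b ^ 2 * D = 1 ∧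
      vrt_G p D δ a b ∧ (1 + z * th D) ^ 2 = n * ((a : ℂ) + b * th D) := by
  have hn : (1 : ℚ) - z ^ 2 * D ≠ 0 := by
    simpa using norm_ne_zero_star hD (a := 1) (b := z) (Or.inl one_ne_zero)
  have hn' : (1 : ℚ_[p]) - (z : ℚ_[p]) ^ 2 * D ≠ 0 := by exact_mod_cast hn
  have hnc : (1 : ℂ) - (z : ℂ) ^ 2 * D ≠ 0 := by exact_mod_cast hn
  have hn1 : ‖(1 : ℚ_[p]) - (z : ℚ_[p]) ^ 2 * D‖ = 1 := by
    apply norm_eq_one_star
    rw [sub_sub_cancel_left, norm_neg]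
    exact hz.trans_lt hδ
  have h2 : ‖(2 : ℚ_[p])‖ ≤ 1 := by simpa using Padic.norm_int_le_one (p := p) 2
  refine ⟨(1 + z ^ 2 * D) / (1 - z ^ 2 * D), 2 * z / (1 - z ^ 2 * D), 1 - z ^ 2 * D, hn, ?_,
    ⟨?_, ?_⟩, ?_⟩
  · field_simp
    ring
  · have e : (((1 + z ^ 2 * D) / (1 - z ^ 2 * D) : ℚ) : ℚ_[p]) - 1 =
        2 * ((z : ℚ_[p]) ^ 2 * D) / (1 - (z : ℚ_[p]) ^ 2 * D) := by
      push_cast
      field_simp
      ring
    rw [e, norm_div, hn1, div_one, norm_mul]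
    exact (mul_le_of_le_one_left (norm_nonneg _) h2).trans hz
  · have e : ((2 * z / (1 - z ^ 2 * D) : ℚ) : ℚ_[p]) ^ 2 * D =
        2 ^ 2 * ((z : ℚ_[p]) ^ 2 * D) / (1 - (z : ℚ_[p]) ^ 2 * D) ^ 2 := by
      push_cast
      field_simp
    rw [e, norm_div, norm_pow, hn1, one_pow, div_one, norm_mul, norm_pow]
    exact (mul_le_of_le_one_left (norm_nonneg _) (pow_le_one₀ (norm_nonneg _) h2)).trans hz
  · have hth := th_sq hD.le
    push_cast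
    field_simp
    linear_combination (z : ℂ) ^ 2 * hth

theorem vrt_inj {D : ℤ} (hD : D < 0) {a b a' b' : ℚ}
    (h : (a : ℂ) + b * th D = a' + b' * th D) : a = a' ∧ b = b' := by
  have h1 := congrArg Complex.re h
  have h2 := congrArg Complex.im h
  have hs : 0 < Real.sqrt (-(D : ℝ)) := Real.sqrt_pos.2 (by exact_mod_cast neg_pos.2 hD)
  simp [th, hs.ne'] at h1 h2
  exact ⟨h1, h2⟩

theorem root_U {M : ℕ} (hM : 0 < M) (m : ℕ) : ∃ c : ℕ, ∀ D : ℤ, D < 0 → ∀ y : ℚ,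
    ‖(y : ℚ_[p]) ^ 2 * D‖ ≤ (p : ℝ) ^ (-(c : ℤ)) → ∀ ε : ℝ, 0 < ε → ∃ a b : ℚ,
      a ^ 2 - b ^ 2 * D = 1 ∧
      (∀ i : ℕ, ∃ A B : ℚ, ((a : ℂ) + b * th D) ^ i = A + B * th D ∧
        ‖(A : ℚ_[p]) - 1‖ ≤ (p : ℝ) ^ (-(m : ℤ)) ∧
        ‖(B : ℚ_[p]) ^ 2 * D‖ ≤ (p : ℝ) ^ (-(m : ℤ))) ∧
      ∃ A B : ℚ, ((a : ℂ) + b * th D) ^ M = A + B * th D ∧
        ‖(A : ℚ_[p]) - 1‖ ≤ (p : ℝ) ^ (-(m : ℤ)) ∧
        ‖(B : ℚ_[p]) ^ 2 * D‖ ≤ (p : ℝ) ^ (-(m : ℤ)) ∧ ‖(B : ℚ_[p]) - A * y‖ ≤ ε := by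
  have hp : (1 : ℝ) < p := by exact_mod_cast (Fact.out : p.Prime).one_lt
  have hp0 : (0 : ℝ) < p := by linarith
  have hM2 : 0 < 2 * M := by omega
  have hM0 : ((2 * M : ℕ) : ℚ_[p]) ≠ 0 := by exact_mod_cast hM2.ne'
  set μ := ‖((2 * M : ℕ) : ℚ_[p])‖ with hμd
  have hμ : 0 < μ := norm_pos_iff.2 hM0
  have hμ1 : μ ≤ 1 := by
    have := Padic.norm_int_le_one (p := p) ((2 * M : ℕ) : ℤ)
    rwa [Int.cast_natCast] at this
  set δ : ℝ := (p : ℝ) ^ (-(m : ℤ)) / p with hδd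
  have hm1 : (p : ℝ) ^ (-(m : ℤ)) ≤ 1 := zpow_le_one_of_nonpos₀ hp.le (by omega)
  have hm0 : 0 < (p : ℝ) ^ (-(m : ℤ)) := by positivity
  have hδ0 : 0 < δ := by positivity
  have hδm : δ ≤ (p : ℝ) ^ (-(m : ℤ)) := div_le_self hm0.le hp.le
  have hδp : δ ≤ 1 / p := by rw [hδd]; gcongr
  have hδ1 : δ < 1 := hδp.trans_lt (by rw [div_lt_one hp0]; exact hp)
  obtain ⟨c, hc⟩ := exists_pow_lt_of_lt_one (x := μ ^ 3 * δ) (y := (p : ℝ)⁻¹)
    (by positivity) (inv_lt_one_of_one_lt₀ hp)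
  rw [inv_pow, ← zpow_natCast, ← zpow_neg] at hc
  refine ⟨c, fun D hD y hy ε hε => ?_⟩
  have hy' := hy.trans hc.le
  have key : ∀ k : ℕ, ∃ a b e l : ℚ, a ^ 2 - b ^ 2 * D = 1 ∧ vrt_G p D δ a b ∧ l ≠ 0 ∧
      ‖(e : ℚ_[p])‖ ≤ ‖(y : ℚ_[p])‖ / p ^ k ∧
      1 + y * th D = ((a : ℂ) + b * th D) ^ M * (l * (1 + e * th D)) := by
    intro k
    induction k with
    | zero =>
      exact ⟨1, 0, y, 1, by simp, ⟨by simpa using hδ0.le, by simpa using hδ0.le⟩, one_ne_zero,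
        by simp, by simp⟩
    | succ k ih =>
      obtain ⟨a, b, e, l, hab, hG, hl, he, E⟩ := ih
      have he1 : ‖(e : ℚ_[p])‖ ≤ ‖(y : ℚ_[p])‖ :=
        he.trans (div_le_self (norm_nonneg _) (one_le_pow₀ hp.le))
      have he2 : ‖(e : ℚ_[p]) ^ 2 * D‖ ≤ μ ^ 3 * δ := by
        refine le_trans ?_ hy'
        simp only [norm_mul, norm_pow]
        gcongr
      have he3 : ‖(e : ℚ_[p]) ^ 2 * D‖ ≤ μ ^ 3 / p := by
        refine he2.trans ?_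
        rw [div_eq_mul_one_div]
        gcongr
      obtain ⟨l', e', hl', he', E'⟩ := vrt_step p hM2 hD he3
      have hz : ‖((e / (2 * M : ℕ) : ℚ) : ℚ_[p]) ^ 2 * D‖ ≤ δ := by
        have : ((e / (2 * M : ℕ) : ℚ) : ℚ_[p]) ^ 2 * D =
            (e : ℚ_[p]) ^ 2 * D / ((2 * M : ℕ) : ℚ_[p]) ^ 2 := by
          rw [Rat.cast_div, Rat.cast_natCast]
          field_simp
        rw [this, norm_div, norm_pow, ← hμd, div_le_iff₀ (by positivity)]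
        refine he2.trans ?_
        have : μ ^ 3 ≤ μ ^ 2 := pow_le_pow_of_le_one hμ.le hμ1 (by omega)
        rw [mul_comm δ]
        gcongr
      obtain ⟨a', b', n, hn, hab', hG', E''⟩ := vrt_sq p hD hδ1 hz
      refine ⟨a * a' + b * b' * D, a * b' + b * a', e', l * n ^ M * l', ?_,
        hG.mul p hδ1.le hG', mul_ne_zero (mul_ne_zero hl (pow_ne_zero _ hn)) hl', ?_, ?_⟩
      · linear_combination (a' ^ 2 - b' ^ 2 * D) * hab + hab'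
      · refine he'.trans ?_
        rw [pow_succ, ← div_div]
        gcongr
      · rw [E, E', pow_mul, E'', ← vrt_mul_eq hD, mul_pow, mul_pow]
        push_cast
        ring
  obtain ⟨k, hk⟩ := pow_unbounded_of_one_lt (‖(y : ℚ_[p])‖ / ε) hp
  obtain ⟨a, b, e, l, hab, hG, hl, he, E⟩ := key k
  have heε : ‖(e : ℚ_[p])‖ ≤ ε := by
    refine he.trans ?_
    rw [div_lt_iff₀ hε] at hk
    rw [div_le_iff₀ (by positivity), mul_comm]
    exact hk.le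
  refine ⟨a, b, hab, fun i => ?_, ?_⟩
  · obtain ⟨A, B, e1, h1⟩ := hG.pow p hD hδ1.le i
    exact ⟨A, B, e1, h1.1.trans hδm, h1.2.trans hδm⟩
  · obtain ⟨A, B, e1, h1⟩ := hG.pow p hD hδ1.le M
    refine ⟨A, B, e1, h1.1.trans hδm, h1.2.trans hδm, ?_⟩
    rw [e1] at E
    have hth := th_sq hD.le
    have E2 : ((1 : ℚ) : ℂ) + (y : ℚ) * th D =
        ((l * (A + B * e * D) : ℚ) : ℂ) + ((l * (A * e + B) : ℚ) : ℂ) * th D := by
      push_cast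
      linear_combination E + (l : ℂ) * B * e * hth
    obtain ⟨h2, h3⟩ := vrt_inj hD E2
    have h4 : B - A * y = e * (y * B * D + -A) := by
      apply mul_left_cancel₀ hl
      linear_combination y * h2 - h3
    have h5 : (B : ℚ_[p]) - A * y = e * (y * B * D + -A) := by exact_mod_cast h4
    rw [h5, norm_mul]
    refine (mul_le_of_le_one_right (norm_nonneg _) ?_).trans heε
    refine (Padic.nonarchimedean _ _).trans (max_le ?_ ?_)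
    · refine vrt_cross p (hy'.trans ?_) (h1.2.trans hδ1.le)
      exact mul_le_one₀ (pow_le_one₀ hμ.le hμ1) hδ0.le hδ1.le
    · rw [norm_neg]
      exact vrt_le_one p hδ1.le h1.1

theorem root_D (h2 : p ≠ 2) {D : ℤ} (hD : D < 0) {r : ℚ_[p]} (hr : r ^ 2 = D) (m : ℕ) :
    ∃ a b : ℚ, a ^ 2 - b ^ 2 * D = 1 ∧
      ‖((a : ℚ_[p]) + b * r) / p - 1‖ ≤ (p : ℝ) ^ (-(m : ℤ)) := by
  have hp0 : 0 < p := (Fact.out : p.Prime).pos
  have hp : (p : ℚ_[p]) ≠ 0 := by exact_mod_cast hp0.ne'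
  have hp1 : (1 : ℚ_[p]) + p ≠ 0 := by exact_mod_cast (by omega : 1 + p ≠ 0)
  have hr0 : r ≠ 0 := by
    rintro rfl
    have : (D : ℚ_[p]) = 0 := by simpa using hr.symm
    exact hD.ne (by exact_mod_cast this)
  set t : ℚ_[p] := (1 - p) / ((1 + p) * r) with ht
  have ht1 : 1 + t * r = 2 / (1 + p) := by
    rw [ht]
    field_simp
    ring
  have ht2 : 1 + t * r ≠ 0 := by
    rw [ht1]
    exact div_ne_zero two_ne_zero hp1
  have hc : ContinuousAt (fun x : ℚ_[p] => (1 - x * r) / (1 + x * r) / p - 1) t := by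
    have c1 : ContinuousAt (fun x : ℚ_[p] => 1 - x * r) t := by fun_prop
    have c2 : ContinuousAt (fun x : ℚ_[p] => 1 + x * r) t := by fun_prop
    exact ((c1.div c2 ht2).div_const _).sub continuousAt_const
  have h0 : (1 - t * r) / (1 + t * r) / p - 1 = 0 := by
    rw [ht1, ht]
    field_simp
    ring
  have hm0 : 0 < (p : ℝ) ^ (-(m : ℤ)) := by positivity
  obtain ⟨η, hη, h⟩ := Metric.continuousAt_iff.1 hc _ hm0
  obtain ⟨B, hB⟩ := Padic.rat_dense p t hη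
  have h1 := h (x := (B : ℚ_[p])) (by rwa [dist_comm, dist_eq_norm])
  rw [h0, dist_zero_right] at h1
  have hn : (1 : ℚ) - B ^ 2 * D ≠ 0 := by
    simpa using norm_ne_zero_star hD (a := 1) (b := B) (Or.inl one_ne_zero)
  have hn' : (1 : ℚ_[p]) - (B : ℚ_[p]) ^ 2 * D ≠ 0 := by exact_mod_cast hn
  have hf : (1 : ℚ_[p]) - (B : ℚ_[p]) ^ 2 * D = (1 - B * r) * (1 + B * r) := by
    rw [← hr]
    ring
  have hn1 : (1 : ℚ_[p]) - B * r ≠ 0 := left_ne_zero_of_mul (hf ▸ hn')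
  have hn2 : (1 : ℚ_[p]) + B * r ≠ 0 := right_ne_zero_of_mul (hf ▸ hn')
  refine ⟨(1 + B ^ 2 * D) / (1 - B ^ 2 * D), -2 * B / (1 - B ^ 2 * D), ?_, ?_⟩
  · field_simp
    ring
  · have e : (((1 + B ^ 2 * D) / (1 - B ^ 2 * D) : ℚ) : ℚ_[p]) +
        ((-2 * B / (1 - B ^ 2 * D) : ℚ) : ℚ_[p]) * r = (1 - B * r) / (1 + B * r) := by
      push_cast
      rw [hf, ← hr]
      field_simp
      ring
    rw [e]
    exact h1.le

end Pool.Agent.EQ
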