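import Pool.Agent.P.MP_ad7a55_nt.VMv
import Pool.Agent.P.MP_ad7a55_nt.VRc
import Pool.Agent.P.MP_ad7a55_nt.VRt
import Pool.Agent.P.MP_ad7a55_nt.VEv

/-! Unipotent frames along an orbit of level N. -/

set_option autoImplicit false

noncomputable section

open MeasureTheory Topology Filter UpperHalfPlane
open scoped MatrixGroups ENNReal BoundedContinuousFunction

namespace Pool.Agent.EQ

variable (p : ℕ) [Fact p.Prime]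

structure FrN {n : ℕ} (N : ℕ) (F : IntermediateField ℚ ℂ) (O : Finset (Fin n × Fn → ℂ))
    (D : Fin n → ℤ) (j : Fin n) (c : ℕ) (B : ℝ) (ρ : Fin n → ℚ) (Nm : Fin n → ℝ)
    (x : (Fin n × Fn → ℂ) → Fin n → XN p N) (a : (Fin n × Fn → ℂ) → Fin n → SL(2, ℚ_[p]))
    (e : (Fin n × Fn → ℂ) → Fin n → ℚ_[p]) : Prop where
  pi : ∀ z ∈ O, ∀ k, piX p (cov p N (x z k)) = pj z k
  nrm : ∀ z ∈ O, ∀ k, ‖-e z k * ρ k‖ = Nm k
  fr : ∀ z ∈ O, ∀ k, Nm k ≠ 0 →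
    Frame p (D k) (cov p N (x z k)) (e z k) ∧ 0 < ρ k ∧ ρ k ^ 2 * D k = D j
  le : ∀ k, ‖(D k : ℚ_[p])‖ * Nm k ^ 2 ≤ ‖(D j : ℚ_[p])‖
  top : ‖(D j : ℚ_[p])‖ ≤ ‖(4 : ℚ_[p])‖ → Nm j = ‖(2 : ℚ_[p])‖
  sum : ∀ r : ℤ, ‖(D j : ℚ_[p])‖ * ((p : ℝ) ^ r) ^ 2 ≤ (p : ℝ) ^ (-(c : ℤ)) →
    ∀ I : Finset (Fin n), (∀ k ∈ I, IsSquare (D k * D j) ∧ B ≤ -(D k : ℝ)) →
    ∀ φ : Fin n → (ℍ →ᵇ ℝ), (∀ k, Tst N F (φ k)) → ∀ ψ, Oth {j} D ψ →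
      ∑ z ∈ O, ψ z * ∫ s, ∏ k ∈ I,
        φ k (ptX p N (((1, a z k) : GG p) • uP p (-e z k * ρ k * s) • x z k)) ∂bm p r =
      ∑ z ∈ O, ψ z * PT N F φ I z

theorem vh1_pt {N : ℕ} (hN : 0 < N) (M : ℕ) (B₁ : ℝ) : ∃ m : ℕ, ∀ (D D₀ : ℤ) (ρ a b y : ℚ)
    (g γ : GG p) (Θ : Matrix (Fin 2) (Fin 2) ℤ) (e : ℚ_[p]) (κ : SL(2, ℚ_[p])), D < 0 →
    B₁ ≤ -(D : ℝ) → ρ ^ 2 * D = D₀ → th D₀ = ρ * th D → a ^ 2 - b ^ 2 * D₀ = 1 →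
    (∀ i : ℕ, ∃ A B : ℚ, ((a : ℂ) + b * th D₀) ^ i = A + B * th D₀ ∧
      ‖(A : ℚ_[p]) - 1‖ ≤ (p : ℝ) ^ (-(m : ℤ)) ∧ ‖(B : ℚ_[p]) ^ 2 * D₀‖ ≤ (p : ℝ) ^ (-(m : ℤ))) →
    (∃ A B : ℚ, ((a : ℂ) + b * th D₀) ^ M = A + B * th D₀ ∧
      ‖(A : ℚ_[p]) - 1‖ ≤ (p : ℝ) ^ (-(m : ℤ)) ∧ ‖(B : ℚ_[p]) ^ 2 * D₀‖ ≤ (p : ℝ) ^ (-(m : ℤ)) ∧
      ‖((B : ℚ_[p]) + A * y) * ρ‖ ≤ ‖(N : ℚ_[p])‖) → g.2 ∈ Kp p → ThM D g.1 Θ →
    (‖(D : ℚ_[p])‖ ≤ ‖(4 : ℚ_[p])‖ → (g.2 : Matrix (Fin 2) (Fin 2) ℚ_[p]) * Θ.map (↑) =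
      !![0, e; D / e, 0] * (g.2 : Matrix (Fin 2) (Fin 2) ℚ_[p]) ∧ ‖e‖ = ‖(2 : ℚ_[p])‖) →
    (¬ ‖(D : ℚ_[p])‖ ≤ ‖(4 : ℚ_[p])‖ → e = 0) → γ ∈ Gam p → κ ∈ Kp p →
    ∃ (V : SL(2, ℚ_[p])) (s : ℕ), Rot p (a + b * th D₀) ((1, κ) * (g * γ)) V ∧
      (∀ i ≤ M, Bd ((p : ℝ) ^ s) ((V ^ i : SL(2, ℚ_[p])) : Matrix (Fin 2) (Fin 2) ℚ_[p])) ∧
      (p : ℝ) ^ (2 * s) * B₁ ≤ -(D : ℝ) ∧
      ∃ k ∈ KN p N, V ^ M * κ = k * (κ * uu (-e * ρ * y)) := by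
  obtain ⟨m₀, h₀⟩ := move_U p hN
  obtain ⟨m₁, h₁⟩ := exists_s p B₁
  have hp : (1 : ℝ) < p := by exact_mod_cast (Fact.out : p.Prime).one_lt
  refine ⟨max m₀ m₁, fun D D₀ ρ a b y g γ Θ e κ hD hB hρ hth hab hi hM hg hΘ c1 c2 hγ hκ => ?_⟩
  obtain ⟨s, hs, hs'⟩ := h₁ _ (le_max_right m₀ m₁) D hD hB
  have e1 : ∀ A B : ℚ, (A : ℂ) + B * th D₀ = A + ((B * ρ : ℚ) : ℂ) * th D := fun A B => by
    rw [hth]; push_cast; ring
  have e2 : ∀ B : ℚ, ((B * ρ : ℚ) : ℚ_[p]) ^ 2 * D = (B : ℚ_[p]) ^ 2 * D₀ := fun B => by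
    have : (ρ : ℚ_[p]) ^ 2 * D = D₀ := by exact_mod_cast congrArg (fun q : ℚ => (q : ℚ_[p])) hρ
    rw [← this]; push_cast; ring
  obtain ⟨V, hV⟩ := exists_rot (p := p) hD hΘ (A := a) (B := b * ρ) (by rw [← hab, ← hρ]; ring)
  rw [← e1] at hV
  refine ⟨κ * V * κ⁻¹, s, (hV.right hγ).left κ, fun i _ => ?_, hs, ?_⟩
  · obtain ⟨A, B, h1, h2, h3⟩ := hi i
    have h4 := hV.pow i
    rw [h1, e1] at h4
    rw [conj_pow, Matrix.SpecialLinearGroup.coe_mul, Matrix.SpecialLinearGroup.coe_mul]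
    exact (bd_U hg hΘ h4 (vrt_le_one p (zpow_le_one_of_nonpos₀ hp.le (by omega)) h2)
      (hs' _ (by rwa [e2]))).K hκ ((Kp p).inv_mem hκ)
  · obtain ⟨A, B, h1, h2, h3, h5⟩ := hM
    have h4 := hV.pow M
    rw [h1, e1] at h4
    have h6 := h₀ _ (le_max_left m₀ m₁) D g Θ e (ρ * y) _ A (B * ρ) hg hΘ c1 c2 h4 h2
      (by rwa [e2]) (le_trans (le_of_eq (by congr 1; push_cast; ring)) h5)
    refine ⟨_, KN_conj h6 hκ, ?_⟩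
    rw [conj_pow, mul_assoc (-e)]
    group

theorem vh1_cont {N : ℕ} (hN : 0 < N) {φ : ℍ →ᵇ ℝ} (hφ : GInv N φ) (κ : SL(2, ℚ_[p])) (d : ℚ_[p])
    (x : XN p N) : Continuous fun s => φ (ptX p N (((1, κ) : GG p) • uP p (d * s) • x)) := by
  have h : Continuous fun s => uP p (d * s) • x :=
    ((continuous_uP p).comp (continuous_const.mul continuous_id)).smul continuous_const
  exact (hφ.continuous hN φ.continuous).comp ((continuous_const_smul ((1, κ) : GG p)).comp h)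

theorem exists_framesN {N : ℕ} (hN : 0 < N) (F : IntermediateField ℚ ℂ) [FiniteDimensional ℚ F]
    (n : ℕ) : ∃ (c : ℕ) (B : ℝ), ∀ (τ : Fin n → ℍ) (D : Fin n → ℤ), (∀ k, HasDisc (τ k) (D k)) →
      ∀ j : Fin n, ∃ ρ Nm x a e, (∀ z k, a z k ∈ Kp p) ∧
        ((∀ k, D k < -576) → FrN p N F (ON N F τ) D j c B ρ Nm x a e) := by
  classical
  obtain ⟨M, B₁, hM, hrec⟩ := rec_main p hN F n
  obtain ⟨B₂, hB₂⟩ := tst_rp hN F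
  obtain ⟨m, hm⟩ := vh1_pt p hN M B₁
  obtain ⟨c, hc⟩ := root_U p hM m
  refine ⟨c, max B₁ B₂, fun τ D h j => ?_⟩
  by_cases hD : ∀ k, D k < -576
  swap
  · exact ⟨fun _ => 0, fun _ => 0, fun _ _ => ((1 : GG p) : XN p N), fun _ _ => 1, fun _ _ => 0,
      fun _ _ => (Kp p).one_mem, fun h' => absurd h' hD⟩
  have hneg : ∀ k, D k < 0 := fun k => by linarith [hD k]
  have h1 : ∀ k, ∃ ρ : ℚ, (IsSquare (D k * D j) → 0 < ρ ∧ ρ ^ 2 * D k = D j ∧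
      th (D j) = ρ * th (D k)) ∧ (¬ IsSquare (D k * D j) → ρ = 0) := by
    intro k
    by_cases hk : IsSquare (D k * D j)
    · obtain ⟨ρ, hρ⟩ := exists_ratio (hneg k) (hneg j) hk
      exact ⟨ρ, fun _ => hρ, fun h' => absurd hk h'⟩
    · exact ⟨0, fun h' => absurd h' hk, fun _ => rfl⟩
  choose ρ hρ hρ' using h1
  have h2 : ∀ (z : Fin n × Fn → ℂ) (k : Fin n), ∃ (g γ : GG p) (Θ : Matrix (Fin 2) (Fin 2) ℤ)
      (e : ℚ_[p]) (κ : SL(2, ℚ_[p])), κ ∈ Kp p ∧ (z ∈ galO F (evs (MF N F) τ) →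
      g.2 ∈ Kp p ∧ ThM (D k) g.1 Θ ∧ piX p (g : XX p) = jInv (rp (MF N F) z k) ∧
      (‖(D k : ℚ_[p])‖ ≤ ‖(4 : ℚ_[p])‖ → (g.2 : Matrix (Fin 2) (Fin 2) ℚ_[p]) * Θ.map (↑) =
        !![0, e; D k / e, 0] * (g.2 : Matrix (Fin 2) (Fin 2) ℚ_[p]) ∧ ‖e‖ = ‖(2 : ℚ_[p])‖) ∧
      (¬ ‖(D k : ℚ_[p])‖ ≤ ‖(4 : ℚ_[p])‖ → e = 0) ∧ γ ∈ Gam p ∧
      ∀ f ∈ MF N F, f (pt p N ((1, κ) * (g * γ))) = z (k, f)) := by
    intro z k
    by_cases hz : z ∈ galO F (evs (MF N F) τ)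
    · obtain ⟨g, Θ, e, a1, a2, a3, a4, a5, γ, a6, κ, a7, δ, a8, a9⟩ :=
        frame_lift p hN (rp_disc hN h hz (hD k))
      exact ⟨g, γ, Θ, e, κ, a7, fun _ => ⟨a1, a2, a3, a4, a5, a6, fun f hf => by
        rw [a9, MF.inv hf a8, rp_val hN hz k hf]⟩⟩
    · exact ⟨1, 1, 0, 0, 1, (Kp p).one_mem, fun h' => absurd h' hz⟩
  choose g γ Θ e κ hκ hx using h2
  have h2le : ‖(2 : ℚ_[p])‖ ≤ 1 := by simpa using Padic.norm_int_le_one (p := p) 2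
  have hrel : ∀ k, IsSquare (D k * D j) → (ρ k : ℚ_[p]) ^ 2 * D k = D j := fun k hk => by
    exact_mod_cast congrArg (fun q : ℚ => (q : ℚ_[p])) (hρ k hk).2.1
  have hcov : ∀ z ∈ ON N F τ, ∀ k,
      cov p N ((g z k * γ z k : GG p) : XN p N) = (g z k : XX p) := fun z hz k =>
    QuotientGroup.mk_mul_of_mem _ (hx z k ((mem_ON hN h).1 hz)).2.2.2.2.2.1
  refine ⟨ρ, fun k => if ‖(D k : ℚ_[p])‖ ≤ ‖(4 : ℚ_[p])‖ then ‖(2 : ℚ_[p])‖ * ‖(ρ k : ℚ_[p])‖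
    else 0, fun z k => ((g z k * γ z k : GG p) : XN p N), κ, e, hκ,
    fun _ => ⟨?_, ?_, ?_, ?_, ?_, ?_⟩⟩
  · intro z hz k
    rw [hcov z hz, (hx z k ((mem_ON hN h).1 hz)).2.2.1]
    exact vev_j hN ((mem_ON hN h).1 hz) k
  · intro z hz k
    have := hx z k ((mem_ON hN h).1 hz)
    split_ifs with hk
    · rw [norm_mul, norm_neg, (this.2.2.2.1 hk).2]
    · rw [this.2.2.2.2.1 hk]; simp
  · intro z hz k hk
    have := hx z k ((mem_ON hN h).1 hz)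
    have hk1 : ‖(D k : ℚ_[p])‖ ≤ ‖(4 : ℚ_[p])‖ := by
      by_contra h'
      exact hk (if_neg h')
    have hk2 : IsSquare (D k * D j) := by
      by_contra h'
      exact hk (by simp [hρ' k h'])
    exact ⟨⟨g z k, Θ z k, (hcov z hz k).symm, this.1, this.2.1, this.2.2.2.1 hk1⟩,
      (hρ k hk2).1, (hρ k hk2).2.1⟩
  · intro k
    split_ifs with hk
    · by_cases hk2 : IsSquare (D k * D j)
      · rw [← hrel k hk2, norm_mul, norm_pow, mul_pow]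
        have := mul_le_one₀ h2le (norm_nonneg _) h2le
        have h3 : 0 ≤ ‖(ρ k : ℚ_[p])‖ ^ 2 * ‖(D k : ℚ_[p])‖ := by positivity
        nlinarith
      · simp [hρ' k hk2]
    · simp
  · intro hj
    have hsq : IsSquare (D j * D j) := ⟨D j, rfl⟩
    have h3 : ρ j = 1 := by
      have h4 := (hρ j hsq).2.1
      have h5 : (D j : ℚ) ≠ 0 := by exact_mod_cast (hneg j).ne
      have h6 : ρ j ^ 2 = 1 := mul_right_cancel₀ h5 (by rw [h4, one_mul])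
      exact (pow_eq_one_iff_of_nonneg (hρ j hsq).1.le two_ne_zero).1 h6
    simp [hj, h3]
  intro r hr I hI φ hφ ψ hψ
  have hG : ∀ k, GInv N (φ k) := fun k δ hδ t => hφ k δ (Gamma_le_G0 hδ) t
  have hcont : ∀ z, Continuous fun s : ℚ_[p] => ∏ k ∈ I, φ k (ptX p N (((1, κ z k) : GG p) •
      uP p (-e z k * ρ k * s) • ((g z k * γ z k : GG p) : XN p N))) := fun z =>
    continuous_finsetProd _ fun k _ => vh1_cont p hN (hG k) _ _ _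
  simp only [← integral_const_mul]
  rw [← integral_finsetSum _ fun z _ => (Integrable.of_bound (hcont z).aestronglyMeasurable
    (∏ k ∈ I, ‖φ k‖) (Eventually.of_forall fun s => (Finset.norm_prod_le _ _).trans
      (Finset.prod_le_prod (fun k _ => norm_nonneg _)
        fun k _ => (φ k).norm_coe_le_norm _))).const_mul _]
  refine integral_of_rat p (continuous_finsetSum _ fun z _ => (hcont z).const_mul _) r
    fun y hy => ?_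
  have hy1 : ‖((-y : ℚ) : ℚ_[p]) ^ 2 * D j‖ ≤ (p : ℝ) ^ (-(c : ℤ)) := by
    refine le_trans ?_ hr
    rw [norm_mul, norm_pow, mul_comm, Rat.cast_neg, norm_neg]
    gcongr
  have hN0 : (0 : ℝ) < ‖(N : ℚ_[p])‖ := norm_pos_iff.2 (Nat.cast_ne_zero.2 hN.ne')
  have hS : (0 : ℝ) < 1 + ∑ k, ‖(ρ k : ℚ_[p])‖ :=
    add_pos_of_pos_of_nonneg one_pos (Finset.sum_nonneg fun _ _ => norm_nonneg _)
  obtain ⟨a, b, hab, hi, A, B, hA1, hA2, hA3, hA4⟩ := hc (D j) (hneg j) (-y) hy1 _ (div_pos hN0 hS)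
  obtain ⟨σ, hσ, hσ1, hσ2⟩ := hrec (Finset.univ.image D) (Finset.card_image_le.trans (by simp))
    (fun D' hD' => by
      obtain ⟨k, -, rfl⟩ := Finset.mem_image.1 hD'
      exact ⟨hD k, (h k).isD⟩) (D j) (Finset.mem_image_of_mem _ (Finset.mem_univ _))
    (a + b * th (D j)) ⟨fun h0 => by
      obtain ⟨rfl, rfl⟩ := vrt_inj (hneg j) (a' := 0) (b' := 0) (h0.trans (by simp))
      simp at hab, a, b, rfl⟩
  refine Eq.trans (Finset.sum_congr rfl fun z hz => ?_)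
    (sum_galO hσ fun z => ψ z * PT N F φ I z)
  have hz' := (mem_ON hN h).1 hz
  have hmem : ∀ k, D k ∈ Finset.univ.image D := fun k =>
    Finset.mem_image_of_mem _ (Finset.mem_univ _)
  refine congrArg₂ (· * ·) (hψ _ _ fun k hk f => ?_) (Finset.prod_congr rfl fun k hk => ?_)
  · by_cases hf : f ∈ MF N F
    · rw [← rp_val hN hz' k hf, hσ1 _ (hmem k) (hk j (Finset.mem_singleton_self j)) _
        (rp_disc hN h hz' (hD k)) f hf]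
    · rw [show z (k, f) = 0 from (congrFun (vev_rp hN hz' k) f).symm.trans (ev_of_not hf _),
        map_zero]
  obtain ⟨a1, a2, a3, a4, a5, a6, a7⟩ := hx z k hz'
  obtain ⟨hsq, hB⟩ := hI k hk
  obtain ⟨V, s, v1, v2, v3, k', v4, v5⟩ := hm (D k) (D j) (ρ k) a b y _ _ _ _ _ (hneg k)
    ((le_max_left _ _).trans hB) (hρ k hsq).2.1 (hρ k hsq).2.2 hab hi ⟨A, B, hA1, hA2, hA3, by
      rw [Rat.cast_neg, mul_neg, sub_neg_eq_add, le_div_iff₀ hS] at hA4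
      rw [norm_mul]
      refine le_trans (mul_le_mul_of_nonneg_left ?_ (norm_nonneg _)) hA4
      linarith [Finset.single_le_sum (f := fun k => ‖(ρ k : ℚ_[p])‖) (fun _ _ => norm_nonneg _)
        (Finset.mem_univ k)]⟩ a1 a2 a4 a5 a6 (hκ z k)
  have hd : DiscL (latG p ((1, κ z k) * (g z k * γ z k))) (D k) := by
    rw [latG_left (hκ z k), latG_mul_Gam p _ a6]
    exact discL_latG (rp_disc hN h hz' (hD k)) a3
  rw [← hB₂ n τ D h _ (galO_map hz' hσ) k ((le_max_right _ _).trans hB) _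
    (fun f hf => by rw [← hσ2 _ (hmem k) hsq _ V s hd v1 v2 v3 f hf, a7 f hf]) _ (hφ k),
    ← (hG k).ptX_K hN v4, smul_smul, smul_smul, ptX_smul, ← mul_assoc _ _ (g z k * γ z k), uP]
  simp only [Prod.mk_mul_mk, mul_one, v5, mul_assoc k']

end Pool.Agent.EQ
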