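import Pool.Agent.P.MP_ad7a55_nt.VLa
import Pool.Agent.P.MP_ad7a55_nt.MainB
import Pool.Agent.P.MP_ad7a55_nt.UMv

/-! Multiplications in a frame are close to unipotent or diagonal elements. -/

set_option autoImplicit false

noncomputable section

open MeasureTheory Topology Filter UpperHalfPlane
open scoped MatrixGroups ENNReal BoundedContinuousFunction

namespace Pool.Agent.EQ

variable {p : ℕ} [Fact p.Prime] {N : ℕ}

theorem vmv_cancel (g : SL(2, ℚ_[p])) {X Y : Matrix (Fin 2) (Fin 2) ℚ_[p]}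
    (h : X * (g : Matrix (Fin 2) (Fin 2) ℚ_[p]) = Y * (g : Matrix (Fin 2) (Fin 2) ℚ_[p])) :
    X = Y := by
  have h1 : (g : Matrix (Fin 2) (Fin 2) ℚ_[p]) *
      ((g⁻¹ : SL(2, ℚ_[p])) : Matrix (Fin 2) (Fin 2) ℚ_[p]) = 1 := by
    rw [← Matrix.SpecialLinearGroup.coe_mul, mul_inv_cancel, Matrix.SpecialLinearGroup.coe_one]
  rw [← Matrix.mul_one X, ← Matrix.mul_one Y, ← h1, ← Matrix.mul_assoc, ← Matrix.mul_assoc, h]

theorem vmv_eq {D : ℤ} {g : GG p} {Θ : Matrix (Fin 2) (Fin 2) ℤ} {V : SL(2, ℚ_[p])} {A B : ℚ}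
    (h : ThM D g.1 Θ) (hV : Rot p (A + B * th D) g V) {S : Matrix (Fin 2) (Fin 2) ℚ_[p]}
    (hS : (g.2 : Matrix (Fin 2) (Fin 2) ℚ_[p]) * Θ.map (↑) =
      S * (g.2 : Matrix (Fin 2) (Fin 2) ℚ_[p])) :
    (V : Matrix (Fin 2) (Fin 2) ℚ_[p]) = (A : ℚ_[p]) • 1 + (B : ℚ_[p]) • S := by
  refine vmv_cancel g.2 ?_
  rw [Rot.eq h hV, hS, Matrix.add_mul, Matrix.smul_mul, Matrix.smul_mul, Matrix.one_mul]

theorem vmv_int {g : GG p} (hg : g.2 ∈ Kp p) (Θ : Matrix (Fin 2) (Fin 2) ℤ) :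
    ∃ S : Matrix (Fin 2) (Fin 2) ℚ_[p], Bd 1 S ∧
      (g.2 : Matrix (Fin 2) (Fin 2) ℚ_[p]) * Θ.map (↑) =
        S * (g.2 : Matrix (Fin 2) (Fin 2) ℚ_[p]) := by
  refine ⟨(g.2 : Matrix (Fin 2) (Fin 2) ℚ_[p]) * Θ.map (↑) *
    ((g.2⁻¹ : SL(2, ℚ_[p])) : Matrix (Fin 2) (Fin 2) ℚ_[p]), ?_, ?_⟩
  · exact Bd.K (fun i j => Padic.norm_int_le_one (p := p) (Θ i j)) hg ((Kp p).inv_mem hg)
  · rw [Matrix.mul_assoc _ _ (g.2 : Matrix (Fin 2) (Fin 2) ℚ_[p]),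
      ← Matrix.SpecialLinearGroup.coe_mul, inv_mul_cancel, Matrix.SpecialLinearGroup.coe_one,
      Matrix.mul_one]

theorem vmv_small (p : ℕ) [Fact p.Prime] {ε : ℝ} (hε : 0 < ε) : ∃ m₀ : ℕ, ∀ m : ℕ, m₀ ≤ m →
    (p : ℝ) ^ (-(m : ℤ)) ≤ ε ∧ (p : ℝ) ^ (-(m : ℤ)) < 1 := by
  have hp : (1 : ℝ) < p := by exact_mod_cast (Fact.out : p.Prime).one_lt
  obtain ⟨n, hn⟩ := pow_unbounded_of_one_lt ε⁻¹ hp
  refine ⟨n + 1, fun m hm => ⟨?_, zpow_lt_one_of_neg₀ hp (by omega)⟩⟩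
  rw [zpow_neg, zpow_natCast]
  refine inv_le_of_inv_le₀ hε (hn.le.trans (pow_le_pow_right₀ hp.le (by omega)))

theorem vmv_sq {x y : ℝ} (hy : 0 ≤ y) (h : x ^ 2 ≤ y ^ 2) : x ≤ y :=
  le_of_sq_le_sq h hy

theorem vmv_add_le {x y : ℚ_[p]} {R : ℝ} (hx : ‖x‖ ≤ R) (hy : ‖y‖ ≤ R) : ‖x + y‖ ≤ R :=
  (Padic.nonarchimedean _ _).trans (max_le hx hy)

theorem vmv_dg_pow {a : ℚ_[p]} (ha : a ≠ 0) (i : ℕ) :
    dg a ha ^ i = dg (a ^ i) (pow_ne_zero i ha) := by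
  induction i with
  | zero => ext i j; fin_cases i <;> fin_cases j <;> simp
  | succ n ih =>
    rw [pow_succ, ih]
    ext i j
    fin_cases i <;> fin_cases j <;> simp [Matrix.mul_apply, Fin.sum_univ_two, pow_succ, mul_comm]

theorem frame_lift (p : ℕ) [Fact p.Prime] (hN : 0 < N) {τ : ℍ} {D : ℤ} (h : HasDisc τ D) :
    ∃ (g : GG p) (Θ : Matrix (Fin 2) (Fin 2) ℤ) (e : ℚ_[p]), g.2 ∈ Kp p ∧ ThM D g.1 Θ ∧
      piX p (g : XX p) = jInv τ ∧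
      (‖(D : ℚ_[p])‖ ≤ ‖(4 : ℚ_[p])‖ → (g.2 : Matrix (Fin 2) (Fin 2) ℚ_[p]) * Θ.map (↑) =
        !![0, e; D / e, 0] * (g.2 : Matrix (Fin 2) (Fin 2) ℚ_[p]) ∧ ‖e‖ = ‖(2 : ℚ_[p])‖) ∧
      (¬ ‖(D : ℚ_[p])‖ ≤ ‖(4 : ℚ_[p])‖ → e = 0) ∧
      ∃ γ ∈ Gam p, ∃ κ ∈ Kp p, ∃ δ ∈ CongruenceSubgroup.Gamma N,
        pt p N ((1, κ) * (g * γ)) = δ • τ := by
  by_cases hD : ‖(D : ℚ_[p])‖ ≤ ‖(4 : ℚ_[p])‖
  · obtain ⟨x, e, ⟨g, Θ, rfl, hK, hR, hP, he⟩, h2⟩ := exists_frame_aux p h hD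
    exact ⟨g, Θ, e, hK, hR, h2, fun _ => ⟨hP, he⟩, fun h' => absurd hD h',
      exists_lift hN g h2.symm⟩
  · obtain ⟨a, b, c, ha, -, hr, hDe⟩ := id h
    obtain ⟨g, hg1, hg2⟩ := frame_real ha hr
    have hx : piX p (((g, 1) : GG p) : XX p) = jInv τ := by
      rw [piX, toY_mk p (g := (g, 1)) (Kp p).one_mem, jY_mk, hg1]
    refine ⟨(g, 1), !![b, 2 * c; -(2 * a), -b], 0, (Kp p).one_mem, ?_, hx,
      fun h' => absurd h' hD, fun _ => rfl, exists_lift hN _ hx.symm⟩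
    rw [hDe]
    exact hg2

theorem move_U (p : ℕ) [Fact p.Prime] (hN : 0 < N) : ∃ m₀ : ℕ, ∀ m, m₀ ≤ m →
    ∀ (D : ℤ) (g : GG p) (Θ : Matrix (Fin 2) (Fin 2) ℤ) (e y : ℚ_[p]) (V : SL(2, ℚ_[p])) (A B : ℚ),
      g.2 ∈ Kp p → ThM D g.1 Θ →
      (‖(D : ℚ_[p])‖ ≤ ‖(4 : ℚ_[p])‖ → (g.2 : Matrix (Fin 2) (Fin 2) ℚ_[p]) * Θ.map (↑) =
        !![0, e; D / e, 0] * (g.2 : Matrix (Fin 2) (Fin 2) ℚ_[p]) ∧ ‖e‖ = ‖(2 : ℚ_[p])‖) →
      (¬ ‖(D : ℚ_[p])‖ ≤ ‖(4 : ℚ_[p])‖ → e = 0) → Rot p (A + B * th D) g V →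
      ‖(A : ℚ_[p]) - 1‖ ≤ (p : ℝ) ^ (-(m : ℤ)) → ‖(B : ℚ_[p]) ^ 2 * D‖ ≤ (p : ℝ) ^ (-(m : ℤ)) →
      ‖(B : ℚ_[p]) + A * y‖ ≤ ‖(N : ℚ_[p])‖ → V * (uu (-e * y))⁻¹ ∈ KN p N := by
  have hN0 : 0 < ‖(N : ℚ_[p])‖ := norm_pos_iff.2 (by exact_mod_cast hN.ne')
  have hN1 : ‖(N : ℚ_[p])‖ ≤ 1 := vgn_nat N
  have h2n : 0 < ‖(2 : ℚ_[p])‖ := norm_pos_iff.2 (frame_two_ne p)
  have h21 : ‖(2 : ℚ_[p])‖ ≤ 1 := by simpa using vgn_nat (p := p) 2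
  have h4n : 0 < ‖(4 : ℚ_[p])‖ := by rw [frame_four]; positivity
  have h41 : ‖(4 : ℚ_[p])‖ ≤ 1 := by simpa using vgn_nat (p := p) 4
  obtain ⟨m₀, hm₀⟩ := vmv_small p (ε := ‖(N : ℚ_[p])‖ ^ 2 * ‖(4 : ℚ_[p])‖) (by positivity)
  refine ⟨m₀, fun m hm D g Θ e y V A B hg hT h1 h2 hV hA hB hy => ?_⟩
  obtain ⟨hδ, hδ1⟩ := hm₀ m hm
  have hδ2 : (p : ℝ) ^ (-(m : ℤ)) ≤ ‖(N : ℚ_[p])‖ ^ 2 :=
    hδ.trans (mul_le_of_le_one_right (by positivity) h41)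
  have hδN : (p : ℝ) ^ (-(m : ℤ)) ≤ ‖(N : ℚ_[p])‖ :=
    hδ2.trans (by nlinarith)
  have hA1 : ‖(A : ℚ_[p])‖ = 1 := umv_norm_one hδ1 hA
  rw [uu_inv]
  refine vgn_mem ?_
  by_cases hD : ‖(D : ℚ_[p])‖ ≤ ‖(4 : ℚ_[p])‖
  · obtain ⟨hP, he⟩ := h1 hD
    have he0 : e ≠ 0 := by
      intro h0; rw [h0, norm_zero] at he; exact h2n.ne he
    have hE := vmv_eq hT hV hP
    have hc : ‖(B : ℚ_[p]) * (D / e)‖ ≤ ‖(N : ℚ_[p])‖ := by
      refine vmv_sq hN0.le ?_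
      have e1 : ‖(B : ℚ_[p]) * (D / e)‖ ^ 2 =
          ‖(B : ℚ_[p]) ^ 2 * D‖ * (‖(D : ℚ_[p])‖ / ‖(4 : ℚ_[p])‖) := by
        rw [frame_four, ← he, norm_mul, norm_mul, norm_div, norm_pow]
        ring
      rw [e1]
      exact (mul_le_of_le_one_right (norm_nonneg _) ((div_le_one h4n).2 hD)).trans (hB.trans hδ2)
    have hBD : ‖(B : ℚ_[p]) * D‖ ≤ 1 := by
      have : (B : ℚ_[p]) * D = (B * (D / e)) * e := by field_simp
      rw [this, norm_mul, he]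
      exact mul_le_one₀ (hc.trans hN1) (norm_nonneg _) h21
    have hd : ‖(B : ℚ_[p]) * D * y‖ ≤ ‖(N : ℚ_[p])‖ := by
      have e1 : ‖(B : ℚ_[p]) * D * y‖ = ‖(B : ℚ_[p]) * D * (B + A * y) + -(B ^ 2 * D)‖ := by
        rw [← mul_one ‖(B : ℚ_[p]) * D * y‖, ← hA1, ← norm_mul]
        congr 1
        ring
      rw [e1]
      refine vmv_add_le ?_ (by rw [norm_neg]; exact hB.trans hδN)
      rw [norm_mul]
      exact (mul_le_of_le_one_left (norm_nonneg _) hBD).trans hy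
    intro i j
    rw [Matrix.SpecialLinearGroup.coe_mul, hE]
    fin_cases i <;> fin_cases j
    · simpa [Matrix.mul_apply, Fin.sum_univ_two] using hA.trans hδN
    · have : ‖e * (B + A * y)‖ ≤ ‖(N : ℚ_[p])‖ := by
        rw [norm_mul, he]
        exact (mul_le_of_le_one_left (norm_nonneg _) h21).trans hy
      refine le_of_eq_of_le ?_ this
      congr 1
      simp [Matrix.mul_apply, Fin.sum_univ_two]
      ring
    · refine le_of_eq_of_le ?_ hc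
      congr 1
      simp [Matrix.mul_apply, Fin.sum_univ_two]
    · refine le_of_eq_of_le ?_ (vmv_add_le hd (hA.trans hδN))
      congr 1
      simp [Matrix.mul_apply, Fin.sum_univ_two]
      field_simp
      ring
  · obtain ⟨S, hS, hP⟩ := vmv_int hg Θ
    have hE := vmv_eq hT hV hP
    have hB' : ‖(B : ℚ_[p])‖ ≤ ‖(N : ℚ_[p])‖ := by
      refine vmv_sq hN0.le (le_of_mul_le_mul_right ?_ h4n)
      refine le_trans ?_ (hB.trans hδ)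
      rw [norm_mul, norm_pow]
      exact mul_le_mul_of_nonneg_left (not_le.1 hD).le (by positivity)
    intro i j
    rw [h2 hD, neg_zero, zero_mul, neg_zero, uu_zero, mul_one, hE]
    have e1 : ((A : ℚ_[p]) • (1 : Matrix (Fin 2) (Fin 2) ℚ_[p]) + (B : ℚ_[p]) • S) i j -
        (1 : Matrix (Fin 2) (Fin 2) ℚ_[p]) i j =
        (A - 1) * (1 : Matrix (Fin 2) (Fin 2) ℚ_[p]) i j + B * S i j := by
      simp only [Matrix.add_apply, Matrix.smul_apply, smul_eq_mul]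
      ring
    rw [e1]
    refine vmv_add_le ?_ ?_ <;> rw [norm_mul]
    · exact (mul_le_of_le_one_right (norm_nonneg _) ((Kp p).one_mem i j)).trans (hA.trans hδN)
    · exact (mul_le_of_le_one_right (norm_nonneg _) (hS i j)).trans hB'

theorem bd_U {D : ℤ} {g : GG p} {Θ : Matrix (Fin 2) (Fin 2) ℤ} {V : SL(2, ℚ_[p])} {A B : ℚ}
    {s : ℕ} (hg : g.2 ∈ Kp p) (h : ThM D g.1 Θ) (hV : Rot p (A + B * th D) g V)
    (hA : ‖(A : ℚ_[p])‖ ≤ 1) (hB : ‖(B : ℚ_[p])‖ ≤ (p : ℝ) ^ s) :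
    Bd ((p : ℝ) ^ s) (V : Matrix (Fin 2) (Fin 2) ℚ_[p]) := by
  have hp : (1 : ℝ) ≤ p := by exact_mod_cast (Fact.out : p.Prime).one_lt.le
  obtain ⟨S, hS, hP⟩ := vmv_int hg Θ
  intro i j
  rw [vmv_eq h hV hP]
  simp only [Matrix.add_apply, Matrix.smul_apply, smul_eq_mul]
  refine vmv_add_le ?_ ?_ <;> rw [norm_mul]
  · exact (mul_le_one₀ hA (norm_nonneg _) ((Kp p).one_mem i j)).trans (one_le_pow₀ hp)
  · exact (mul_le_of_le_one_right (norm_nonneg _) (hS i j)).trans hB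

theorem exists_s (p : ℕ) [Fact p.Prime] (B : ℝ) : ∃ m₀ : ℕ, ∀ m, m₀ ≤ m → ∀ D : ℤ, D < 0 →
    B ≤ -(D : ℝ) → ∃ s : ℕ, (p : ℝ) ^ (2 * s) * B ≤ -(D : ℝ) ∧
      ∀ b : ℚ_[p], ‖b ^ 2 * D‖ ≤ (p : ℝ) ^ (-(m : ℤ)) → ‖b‖ ≤ (p : ℝ) ^ s := by
  have hp : (1 : ℝ) < p := by exact_mod_cast (Fact.out : p.Prime).one_lt
  have hp0 : (0 : ℝ) < p := one_pos.trans hp
  obtain ⟨n, hn⟩ := pow_unbounded_of_one_lt B hp
  refine ⟨n + 1, fun m hm D hD hB => ⟨(padicValInt p D - m + 1) / 2, ?_, fun b hb => ?_⟩⟩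
  · rcases le_or_gt (padicValInt p D) m with h | h
    · rw [Nat.sub_eq_zero_of_le h]
      simpa using hB
    · have h1 : ((p : ℤ) ^ padicValInt p D) ≤ -D :=
        Int.le_of_dvd (neg_pos.2 hD) (dvd_neg.2 (padicValInt_dvd D))
      have h2 : (p : ℝ) ^ padicValInt p D ≤ -(D : ℝ) := by exact_mod_cast h1
      refine le_trans ?_ h2
      refine (mul_le_mul_of_nonneg_left hn.le (by positivity)).trans ?_
      rw [← pow_add]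
      exact pow_le_pow_right₀ hp.le (by omega)
  · refine vmv_sq (by positivity) ?_
    rw [norm_mul, norm_pow, norm_int_eq p hD.ne, zpow_neg, ← div_eq_mul_inv,
      div_le_iff₀ (by positivity), ← zpow_add₀ hp0.ne'] at hb
    refine hb.trans ?_
    rw [← pow_mul, ← zpow_natCast]
    exact zpow_le_zpow_right₀ hp.le (by omega)

theorem move_D (p : ℕ) [Fact p.Prime] (hN : 0 < N) (c : ℕ) : ∃ m : ℕ,
    ∀ (D : ℤ) (g : GG p) (Θ : Matrix (Fin 2) (Fin 2) ℤ) (r : ℚ_[p]) (h V : SL(2, ℚ_[p])) (a b : ℚ),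
      Bd ((p : ℝ) ^ c) (h : Matrix (Fin 2) (Fin 2) ℚ_[p]) → ThM D g.1 Θ →
      ((h⁻¹ * g.2 : SL(2, ℚ_[p])) : Matrix (Fin 2) (Fin 2) ℚ_[p]) * Θ.map (↑) =
        !![r, 0; 0, -r] * ((h⁻¹ * g.2 : SL(2, ℚ_[p])) : Matrix (Fin 2) (Fin 2) ℚ_[p]) →
      Rot p (a + b * th D) g V → ‖((a : ℚ_[p]) + b * r) / p - 1‖ ≤ (p : ℝ) ^ (-(m : ℤ)) →
      ∀ i : ℕ, V ^ i * (h * (aP p i).2 * h⁻¹)⁻¹ ∈ KN p N ∧
        Bd ((p : ℝ) ^ (2 * c + i)) ((V ^ i : SL(2, ℚ_[p])) : Matrix (Fin 2) (Fin 2) ℚ_[p]) := by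
  have hp : (1 : ℝ) < p := by exact_mod_cast (Fact.out : p.Prime).one_lt
  have hp0 : (p : ℚ_[p]) ≠ 0 := Nat.cast_ne_zero.2 (Fact.out : p.Prime).ne_zero
  have hM : 0 < ‖((N * p ^ (2 * c) : ℕ) : ℚ_[p])‖ := by
    refine norm_pos_iff.2 (Nat.cast_ne_zero.2 ?_)
    exact (Nat.mul_pos hN (pow_pos (Fact.out : p.Prime).pos _)).ne'
  obtain ⟨m, hm⟩ := vmv_small p hM
  obtain ⟨hδ, hδ1⟩ := hm m le_rfl
  refine ⟨m, fun D g Θ r h V a b hh hT hP hV hu i => ?_⟩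
  have hi : (h : Matrix (Fin 2) (Fin 2) ℚ_[p]) *
      ((h⁻¹ : SL(2, ℚ_[p])) : Matrix (Fin 2) (Fin 2) ℚ_[p]) = 1 := by
    rw [← Matrix.SpecialLinearGroup.coe_mul, mul_inv_cancel, Matrix.SpecialLinearGroup.coe_one]
  have hi' : ((h⁻¹ : SL(2, ℚ_[p])) : Matrix (Fin 2) (Fin 2) ℚ_[p]) *
      (h : Matrix (Fin 2) (Fin 2) ℚ_[p]) = 1 := by
    rw [← Matrix.SpecialLinearGroup.coe_mul, inv_mul_cancel, Matrix.SpecialLinearGroup.coe_one]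
  have hS : (g.2 : Matrix (Fin 2) (Fin 2) ℚ_[p]) * Θ.map (↑) =
      ((h : Matrix (Fin 2) (Fin 2) ℚ_[p]) * !![r, 0; 0, -r] *
        ((h⁻¹ : SL(2, ℚ_[p])) : Matrix (Fin 2) (Fin 2) ℚ_[p])) *
          (g.2 : Matrix (Fin 2) (Fin 2) ℚ_[p]) := by
    rw [Matrix.SpecialLinearGroup.coe_mul] at hP
    rw [Matrix.mul_assoc, Matrix.mul_assoc, ← hP, ← Matrix.mul_assoc, ← Matrix.mul_assoc, hi,
      Matrix.one_mul]
  have hE := vmv_eq hT hV hS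
  have hW : ((h⁻¹ * V * h : SL(2, ℚ_[p])) : Matrix (Fin 2) (Fin 2) ℚ_[p]) =
      !![(a : ℚ_[p]) + b * r, 0; 0, a - b * r] := by
    have e1 : ((h⁻¹ * V * h : SL(2, ℚ_[p])) : Matrix (Fin 2) (Fin 2) ℚ_[p]) =
        (a : ℚ_[p]) • 1 + (b : ℚ_[p]) • !![r, 0; 0, -r] := by
      rw [Matrix.SpecialLinearGroup.coe_mul, Matrix.SpecialLinearGroup.coe_mul, hE,
        Matrix.mul_add, Matrix.add_mul, Matrix.mul_smul, Matrix.mul_smul, Matrix.smul_mul,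
        Matrix.smul_mul, Matrix.mul_one, hi', ← Matrix.mul_assoc, ← Matrix.mul_assoc, hi',
        Matrix.one_mul, Matrix.mul_assoc, hi', Matrix.mul_one]
    rw [e1]
    ext i j
    fin_cases i <;> fin_cases j <;> simp [sub_eq_add_neg]
  have hdet : ((a : ℚ_[p]) + b * r) * (a - b * r) = 1 := by
    have := (h⁻¹ * V * h).det_coe
    rw [hW, Matrix.det_fin_two_of] at this
    simpa using this
  have hα : (a : ℚ_[p]) + b * r ≠ 0 := left_ne_zero_of_mul_eq_one hdet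
  have hWd : h⁻¹ * V * h = dg ((a : ℚ_[p]) + b * r) hα := by
    refine Subtype.ext ?_
    rw [hW, dg_val, eq_inv_of_mul_eq_one_right hdet]
  have hVd : V ^ i = h * dg (((a : ℚ_[p]) + b * r) ^ i) (pow_ne_zero i hα) * h⁻¹ := by
    rw [← vmv_dg_pow hα, ← hWd, ← conj_pow]
    congr 1
    group
  set u : ℚ_[p] := ((a : ℚ_[p]) + b * r) / p with hudef
  have hu1 := umv_pow_sub hδ1 hu i
  obtain ⟨hu0, hu2⟩ := umv_inv_sub hδ1 hu1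
  have hαu : ((a : ℚ_[p]) + b * r) ^ i = u ^ i * (p : ℚ_[p]) ^ i := by
    rw [← mul_pow, hudef, div_mul_cancel₀ _ hp0]
  constructor
  · have hk : dg (u ^ i) hu0 ∈ KN p (N * p ^ (2 * c)) := by
      refine vgn_mem fun i j => ?_
      fin_cases i <;> fin_cases j
      · simpa using hu1.trans hδ
      · simpa using hM.le
      · simpa using hM.le
      · simpa using hu2.trans hδ
    have e1 : dg (((a : ℚ_[p]) + b * r) ^ i) (pow_ne_zero i hα) = dg (u ^ i) hu0 * (aP p i).2 := by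
      refine Subtype.ext ?_
      rw [dg_val, hαu]
      ext k l
      fin_cases k <;> fin_cases l <;>
        simp [aP, Matrix.mul_apply, Fin.sum_univ_two, mul_comm]
    have e2 : V ^ i * (h * (aP p i).2 * h⁻¹)⁻¹ = h * dg (u ^ i) hu0 * h⁻¹ := by
      rw [hVd, e1]
      group
    rw [e2]
    exact KN_conj_bd hk hh
  · have hn : ‖((a : ℚ_[p]) + b * r) ^ i‖ = ((p : ℝ) ^ i)⁻¹ := by
      rw [hαu, norm_mul, umv_norm_one hδ1 hu1, one_mul, norm_pow, Padic.norm_p, inv_pow]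
    have h1 : (1 : ℝ) ≤ (p : ℝ) ^ i := one_le_pow₀ hp.le
    have hb : Bd ((p : ℝ) ^ i) (dg (((a : ℚ_[p]) + b * r) ^ i) (pow_ne_zero i hα) :
        Matrix (Fin 2) (Fin 2) ℚ_[p]) := by
      intro k l
      rw [dg_val]
      fin_cases k <;> fin_cases l
      · exact hn.le.trans ((inv_le_one_of_one_le₀ h1).trans h1)
      · simp
      · simp
      · show ‖(((a : ℚ_[p]) + b * r) ^ i)⁻¹‖ ≤ _
        rw [norm_inv, hn, inv_inv]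
    have := hom_bd_mulP (hom_bd_mulP hh hb) (hom_bd_inv hh)
    rw [hVd, Matrix.SpecialLinearGroup.coe_mul, Matrix.SpecialLinearGroup.coe_mul,
      show (p : ℝ) ^ (2 * c + i) = (p : ℝ) ^ c * (p : ℝ) ^ i * (p : ℝ) ^ c by ring]
    exact this

theorem Rot.disc {w : ℂ} {g : GG p} {V : SL(2, ℚ_[p])} (h : Rot p w g V) {D : ℤ}
    (hD : DiscL (latG p g) D) (hw : InK D w) (i : ℕ) :
    DiscL (latG p ((1, V ^ i) * g)) D ∧ Rot p w ((1, V ^ i) * g) V := by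
  constructor
  · rw [← latA_zero 1, (h.pow i).latA one_pos, latA_zero]
    exact discL_star p hD ((hw.pow_star hD.isD.1 i).inv hD.isD.1)
  · have := h.left (V ^ i)
    rwa [show V ^ i * V * (V ^ i)⁻¹ = V by group] at this

end Pool.Agent.EQ
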