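import Pool.Agent.P.MP_ad7a55_nt.VFd
import Pool.Agent.P.MP_ad7a55_nt.VMv
import Pool.Agent.P.MP_ad7a55_nt.VRc
import Pool.Agent.P.MP_ad7a55_nt.VRt

/-! Diagonal frames along an orbit of level N. -/

set_option autoImplicit false

noncomputable section

open MeasureTheory Topology Filter UpperHalfPlane
open scoped MatrixGroups ENNReal BoundedContinuousFunction

namespace Pool.Agent.EQ

variable (p q : ℕ) [Fact p.Prime] [Fact q.Prime]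

structure FDN {n : ℕ} (N : ℕ) (F : IntermediateField ℚ ℂ) (O : Finset (Fin n × Fn → ℂ))
    (D : Fin n → ℤ) (j : Fin n) (J : Finset (Fin n)) (M : ℕ) (x : (Fin n → ℂ) → J → X3 p q)
    (hp : (Fin n → ℂ) → J → SL(2, ℚ_[p])) (hq : (Fin n → ℂ) → J → SL(2, ℚ_[q]))
    (xt : (Fin n × Fn → ℂ) → ℕ → J → XN p N) (a : (Fin n × Fn → ℂ) → ℕ → J → SL(2, ℚ_[p]))
    (σ : ℕ × ℕ → ℂ ≃+* ℂ) : Prop where
  fix : ∀ u, ∀ c ∈ F, σ u c = c
  cv : ∀ z ∈ O, ∀ v, covP p N (xt z v) = piP p q (yy p q M (hq (pj z)) (x (pj z)) (0, v))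
  val : ∀ z ∈ O, ∀ (u : ℕ × ℕ) (k : J), ∀ f ∈ MF N F,
    f (ptX p N (((1, a z u.2 k * hp (pj z) k) : GG p) • aP p (M * u.1) • xt z u.2 k)) =
      σ u (z (k, f))
  out : ∀ z ∈ O, ∀ u k, ¬ IsSquare (D k * D j) → ∀ f, σ u (z (k, f)) = z (k, f)

theorem vh2_th {ρ : ℚ} (h0 : 0 < ρ) {D D₀ : ℤ} (h : ρ ^ 2 * D = D₀) : th D₀ = ρ * th D := by
  have h1 : -(D₀ : ℝ) = (ρ : ℝ) ^ 2 * -(D : ℝ) := by
    have : (ρ : ℝ) ^ 2 * D = D₀ := by exact_mod_cast congrArg (fun x : ℚ => (x : ℝ)) h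
    linarith
  have h2 : (0 : ℝ) ≤ ρ := by exact_mod_cast h0.le
  rw [th, th, h1, Real.sqrt_mul (sq_nonneg _), Real.sqrt_sq h2]
  push_cast
  ring

theorem vh2_inK {D : ℤ} (hD : D < 0) {a b : ℚ} (h : a ^ 2 - b ^ 2 * D = 1) :
    InK D (a + b * th D) := by
  refine ⟨fun h0 => ?_, a, b, rfl⟩
  have h1 : (a : ℂ) ^ 2 - (b : ℂ) ^ 2 * D = 1 := by
    exact_mod_cast congrArg (fun x : ℚ => (x : ℂ)) h
  have h2 := th_sq hD.le
  have h3 : (1 : ℂ) = 0 := by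
    linear_combination -h1 + ((a : ℂ) - b * th D) * h0 + (b : ℂ) ^ 2 * h2
  exact one_ne_zero h3

variable {p q}

theorem vh2_iter {N M : ℕ} {F : IntermediateField ℚ ℂ} {σ : ℂ ≃+* ℂ} {D : ℤ} {w : ℂ}
    {V : SL(2, ℚ_[p])} (hR : ∀ g : GG p, DiscL (latG p g) D → Rot p w g V →
      ∀ f ∈ MF N F, σ (f (pt p N g)) = f (pt p N ((1, V ^ M) * g)))
    {g : GG p} (hD : DiscL (latG p g) D) (hw : InK D w) (hV : Rot p w g V) (i : ℕ) :
    ∀ f ∈ MF N F, (σ ^ i) (f (pt p N g)) = f (pt p N ((1, V ^ (M * i)) * g)) := by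
  intro f hf
  induction i with
  | zero =>
    have e : ((1, V ^ (M * 0)) * g : GG p) = g := Prod.ext (one_mul _) (by simp)
    rw [e]
    rfl
  | succ i ih =>
    obtain ⟨h1, h2⟩ := hV.disc hD hw (M * i)
    have e : ((1, V ^ (M * (i + 1))) * g : GG p) = (1, V ^ M) * ((1, V ^ (M * i)) * g) := by
      refine Prod.ext (by simp) ?_
      simp only [Prod.snd_mul]
      rw [← mul_assoc, ← pow_add, mul_add, mul_one, add_comm]
    rw [pow_succ', e, ← hR _ h1 h2 f hf, ← ih]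
    rfl

theorem vh2_loc {N c M : ℕ} (hN : 0 < N) (hpq : p ≠ q) {F : IntermediateField ℚ ℂ} {D : ℤ}
    (hD : D < 0) {rp : ℚ_[p]} {rq : ℚ_[q]} {hp : SL(2, ℚ_[p])} {hq : SL(2, ℚ_[q])} {y : X3 p q}
    (hcf : CF p q D rp rq hp hq y) {a b : ℚ} (hab : a ^ 2 - b ^ 2 * D = 1)
    (hmv : ∀ (g : GG p) (Θ : Matrix (Fin 2) (Fin 2) ℤ) (V : SL(2, ℚ_[p])), ThM D g.1 Θ →
      ((hp⁻¹ * g.2 : SL(2, ℚ_[p])) : Matrix (Fin 2) (Fin 2) ℚ_[p]) * Θ.map (↑) =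
        !![rp, 0; 0, -rp] * ((hp⁻¹ * g.2 : SL(2, ℚ_[p])) : Matrix (Fin 2) (Fin 2) ℚ_[p]) →
      Rot p (a + b * th D) g V → ∀ i : ℕ, V ^ i * (hp * (aP p i).2 * hp⁻¹)⁻¹ ∈ KN p N ∧
        Bd ((p : ℝ) ^ (2 * c + i)) ((V ^ i : SL(2, ℚ_[p])) : Matrix (Fin 2) (Fin 2) ℚ_[p]))
    {σ : ℂ ≃+* ℂ} (hR : ∀ (g : GG p) (V : SL(2, ℚ_[p])), DiscL (latG p g) D →
      Rot p (a + b * th D) g V → (∀ i ≤ M, Bd ((p : ℝ) ^ (2 * c + M))
        ((V ^ i : SL(2, ℚ_[p])) : Matrix (Fin 2) (Fin 2) ℚ_[p])) →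
      ∀ f ∈ MF N F, σ (f (pt p N g)) = f (pt p N ((1, V ^ M) * g)))
    {t : ℍ} (ht : jInv t = j3 p q (iP p q hp • y)) :
    ∃ (xt : XN p N) (κ : SL(2, ℚ_[p])), κ ∈ Kp p ∧ cov p N xt = pi3 p q y ∧ ∀ i, ∀ f ∈ MF N F,
      f (ptX p N (((1, κ * hp) : GG p) • aP p (M * i) • xt)) = (σ ^ i) (f t) := by
  obtain ⟨g, Θ, -, g2, g3, g4, g5⟩ := hcf.frame hpq
  have h1 : jInv t = piX p (g : XX p) := by
    rw [ht, j3, pi3_smul p q (g := iP p q hp) (Kp q).one_mem, g2]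
    rfl
  obtain ⟨γ, hγ, κ, hκ, δ, hδ, e⟩ := exists_lift hN g h1
  obtain ⟨V, hV⟩ := exists_rot (p := p) (g := g) hD g4 hab
  have h2 := hmv g Θ V g4 g5 hV
  have hp1 : (1 : ℝ) ≤ p := by exact_mod_cast (Fact.out : p.Prime).one_lt.le
  refine ⟨((1, hp⁻¹) : GG p) • ((g * γ : GG p) : XN p N), κ, hκ, ?_, fun i f hf => ?_⟩
  · have e1 : ((g * γ : GG p) : XX p) = (g : XX p) :=
      QuotientGroup.mk_mul_of_mem g hγ
    have e2 : ((1, hp⁻¹) : GG p) * (1, hp) = 1 := Prod.ext (one_mul _) (inv_mul_cancel _)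
    rw [cov_smul, cov_mk, e1, g2, ← mul_smul, e2, one_smul]
  · have h3 : DiscL (latG p ((1, κ) * (g * γ))) D := by
      rw [latG_left hκ, latG_mul_Gam p g hγ]
      exact g3
    have h4 := vh2_iter (N := N) (M := M) (F := F) (σ := σ) (fun g' d r => hR g' _ d r fun l hl => by
      rw [conj_pow, Matrix.SpecialLinearGroup.coe_mul, Matrix.SpecialLinearGroup.coe_mul]
      exact Bd.K (fun a b => ((h2 l).2 a b).trans (pow_le_pow_right₀ hp1 (by omega))) hκ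
        ((Kp p).inv_mem hκ)) h3 (vh2_inK hD hab) ((hV.right hγ).left κ) i f hf
    have e3 : ((1, (κ * V * κ⁻¹) ^ (M * i)) * ((1, κ) * (g * γ)) : GG p) =
        (1, κ * (V ^ (M * i) * (hp * (aP p (M * i)).2 * hp⁻¹)⁻¹) * κ⁻¹) *
          ((1, κ * hp) * (aP p (M * i) * (1, hp⁻¹)) * (g * γ)) := by
      refine Prod.ext (by simp [aP]) ?_
      simp only [Prod.snd_mul, conj_pow]
      group
    rw [e, MF.inv hf hδ, e3, ← ptX_smul, GInv.ptX_K hN hf.1 (KN_conj (h2 _).1 hκ)] at h4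
    rw [h4, ← mul_smul, ← mul_smul, mul_assoc]
    rfl

variable (p q)

theorem exists_fdN {N : ℕ} (hN : 0 < N) (hpq : p ≠ q) (h2 : p ≠ 2) (h2' : q ≠ 2)
    (F : IntermediateField ℚ ℂ) [FiniteDimensional ℚ F] (n c : ℕ) :
    ∃ (M : ℕ) (T : Finset SL(2, ℚ_[p])) (T' : Finset SL(2, ℚ_[q])) (B : ℝ), 0 < M ∧
      (∀ h ∈ T, Bd ((p : ℝ) ^ c) (h : Matrix (Fin 2) (Fin 2) ℚ_[p])) ∧
      ∀ (τ : Fin n → ℍ) (D : Fin n → ℤ) (j : Fin n) (J : Finset (Fin n)),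
        (∀ k, HasDisc (τ k) (D k)) → j ∈ J → ∃ ρ rp rq x hp hq σ xt a σ',
          (∀ z v k, a z v k ∈ Kp p) ∧ ((∀ k, D k < -576) →
          (∀ k ∈ J, IsSquare (D k * D j) ∧ (∃ κ ≤ c, Spl p κ (D k)) ∧ (∃ κ ≤ c, Spl q κ (D k)) ∧
            B ≤ -(D k : ℝ)) →
          FD p q F (fun k => jInv (τ k)) D j J M T T' ρ rp rq x hp hq σ ∧
            FDN p q N F (ON N F τ) D j J M x hp hq xt a σ') := by
  classical
  obtain ⟨M₀, T, T', hM₀, hT, hfd⟩ := exists_fd2 hpq h2 h2' F n c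
  obtain ⟨MR, B₁, hMR, hrec⟩ := rec_main p hN F n
  obtain ⟨m, hm, hfix⟩ := fix_pow hN
  obtain ⟨m', hmv⟩ := move_D p hN c
  refine ⟨M₀ * (MR * m), T, T', (p : ℝ) ^ (2 * (2 * c + MR)) * |B₁|, by positivity, hT,
    fun τ D j J h hj => ?_⟩
  obtain ⟨ρ, rp', rq, x, hp, hq, s, s', H⟩ := hfd τ D j J h hj
  by_cases H₁ : (∀ k, D k < -576) ∧ ∀ k ∈ J, IsSquare (D k * D j) ∧ (∃ κ ≤ c, Spl p κ (D k)) ∧
    (∃ κ ≤ c, Spl q κ (D k)) ∧ (p : ℝ) ^ (2 * (2 * c + MR)) * |B₁| ≤ -(D k : ℝ)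
  swap
  · exact ⟨ρ, rp', rq, x, hp, hq, fun _ => s, fun _ _ _ => ((1 : GG p) : XN p N), fun _ _ _ => 1,
      fun _ => s, fun _ _ _ => (Kp p).one_mem, fun h₁ h₂ => absurd ⟨h₁, h₂⟩ H₁⟩
  obtain ⟨hD, hJ⟩ := H₁
  have hneg : ∀ k, D k < 0 := fun k => by linarith [hD k]
  have H₀ := H hD fun k hk => ⟨(hJ k hk).1, (hJ k hk).2.1, (hJ k hk).2.2.1⟩
  have H₂ := H₀.scale (MR * m)
  have hr : rp' j ^ 2 = D j :=
    ((H₀.cf _ (galO_self F fun k => jInv (τ k)) (0, 0) ⟨j, hj⟩).1.sq (hneg j).le).1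
  obtain ⟨a, b, hab, hab'⟩ := root_D p h2 (hneg j) hr m'
  have hcard : (Finset.univ.image D).card ≤ n := Finset.card_image_le.trans (by simp)
  have hall : ∀ D' ∈ Finset.univ.image D, D' < -576 ∧ IsD D' := fun D' hD' => by
    obtain ⟨k, -, rfl⟩ := Finset.mem_image.1 hD'
    exact ⟨hD k, (h k).isD⟩
  have hmem : ∀ k, D k ∈ Finset.univ.image D := fun k =>
    Finset.mem_image_of_mem _ (Finset.mem_univ k)
  obtain ⟨σ, hσ, hσ1, hσ2⟩ := hrec _ hcard hall (D j) (hmem j) _ (vh2_inK (hneg j) hab)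
  have e01 : s ^ (0, 1).1 * s' ^ (0, 1).2 = s' := by simp
  have hs' : ∀ a ∈ F, s' a = a := fun a ha => by
    have := H₀.fix (0, 1) a ha
    rwa [e01] at this
  have key : ∀ (z : Fin n × Fn → ℂ) (v : ℕ) (k : J), ∃ (xt : XN p N) (κ : SL(2, ℚ_[p])),
      κ ∈ Kp p ∧ (z ∈ ON N F τ → cov p N xt =
        pi3 p q (yy p q (M₀ * (MR * m)) (hq (pj z)) (x (pj z)) (0, v) k) ∧ ∀ i, ∀ f ∈ MF N F,
        f (ptX p N (((1, κ * hp (pj z) k) : GG p) • aP p (MR * i) • xt)) =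
          (σ ^ i) (((s' ^ m) ^ (MR * v)) (z (k, f)))) := by
    intro z v k
    by_cases hz : z ∈ ON N F τ
    swap
    · exact ⟨((1 : GG p) : XN p N), 1, (Kp p).one_mem, fun h' => absurd h' hz⟩
    have hz1 := (mem_ON hN h).1 hz
    have hz2 := pj_mem hN hz1
    have hz3 := galO_map hz1 (σ := (s' ^ m) ^ (MR * v)) fun a ha =>
      umd_pow (umd_pow (hs' a ha) m) _
    obtain ⟨ρ0, ρ1, ρ2⟩ := H₀.rat k k.2
    have e1 : ((a : ℂ) + ((b * ρ k : ℚ) : ℂ) * th (D k)) = a + b * th (D j) := by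
      rw [vh2_th ρ0 ρ1]
      push_cast
      ring
    have e2 : ((b * ρ k : ℚ) : ℚ_[p]) * rp' k = b * rp' j := by
      rw [← ρ2]
      push_cast
      ring
    have e3 : s ^ (MR * m * 0) * s' ^ (MR * m * v) = (s' ^ m) ^ (MR * v) := by
      rw [mul_zero, pow_zero, one_mul, ← pow_mul, mul_left_comm, mul_assoc]
    obtain ⟨xt, κ, k1, k2, k3⟩ := vh2_loc (c := c) (M := MR) (F := F) (σ := σ) hN hpq (hneg k)
      (H₂.cf _ hz2 (0, v) k) (a := a) (b := b * ρ k) (by rw [mul_pow, mul_assoc, ρ1, hab])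
      (fun g Θ V g1 g2 g3 => hmv (D k) g Θ (rp' k) _ V a _ (hT _ (H₀.mem _ hz2 k).1) g1 g2 g3
        (by rw [e2]; exact hab'))
      (fun g V g1 g2 g3 => hσ2 _ (hmem k) (hJ k k.2).1 g V _ g1 (e1 ▸ g2) g3
        ((mul_le_mul_of_nonneg_left (le_abs_self B₁) (by positivity)).trans (hJ k k.2).2.2.2))
      (t := rp (MF N F) (fun a => ((s' ^ m) ^ (MR * v)) (z a)) k) (by
        rw [rp_val hN hz3 k (MF.j hN), H₂.pi _ hz2 (0, v) k, ← e3]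
        rfl)
    exact ⟨xt, κ, k1, fun _ => ⟨k2, fun i f hf => by rw [k3 i f hf, rp_val hN hz3 k hf]⟩⟩
  choose xt κ hκ hx using key
  refine ⟨ρ, rp', rq, x, hp, hq, _, xt, κ,
    fun u => σ ^ (M₀ * m * u.1) * (s' ^ m) ^ (MR * u.2), hκ, fun _ _ => ⟨H₂, ?_, ?_, ?_, ?_⟩⟩
  · exact fun u a ha => umd_pow2 (hσ a ha) (umd_pow (hs' a ha) m) _ _
  · exact fun z hz v => funext fun k => (hx z v k hz).1
  · intro z hz u k f hf
    have e : M₀ * (MR * m) * u.1 = MR * (M₀ * m * u.1) := by ring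
    rw [e]
    exact (hx z u.2 k hz).2 _ f hf
  · intro z hz u k hk f
    have hz1 := (mem_ON hN h).1 hz
    by_cases hf : f ∈ MF N F
    · have h3 := H₀.out _ (pj_mem hN hz1) (0, 1) k hk
      rw [e01] at h3
      rw [← rp_val hN hz1 k hf]
      refine umd_pow2 (hσ1 _ (hmem k) hk _ (rp_disc hN h hz1 (hD k)) f hf)
        (hfix F s' hs' _ ?_ f hf) _ _
      rw [rp_val hN hz1 k (MF.j hN)]
      exact h3
    · have h3 : z (k, f) = 0 := by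
        rw [← evs_rp hN hz1]
        exact ev_of_not hf _
      rw [h3, map_zero]

end Pool.Agent.EQ
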