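import Pool.Agent.P.MP_ad7a55_nt.VCl
import Pool.Agent.P.MP_ad7a55_nt.VH1
import Pool.Agent.P.MP_ad7a55_nt.VBk
import Pool.Agent.P.MP_ad7a55_nt.UMu

/-! One step of the induction: unipotent case. -/

set_option autoImplicit false

noncomputable section

open MeasureTheory Topology Filter UpperHalfPlane
open scoped MatrixGroups ENNReal BoundedContinuousFunction

namespace Pool.Agent.EQ

variable {n : ℕ} {N : ℕ} {F : IntermediateField ℚ ℂ} {τ : ℕ → Fin n → ℍ}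
  {D : ℕ → Fin n → ℤ} {φ : Fin n → (ℍ →ᵇ ℝ)} {I : Finset (Fin n)}
  {ψ : ℕ → (Fin n × Fn → ℂ) → ℝ}

theorem vi1_abs_le {m : ℕ} (f : Fin m → (ℍ →ᵇ ℝ)) (I : Finset (Fin m)) {α : Type}
    [MeasurableSpace α] (μ : Measure α) [IsProbabilityMeasure μ] (w : α → Fin m → ℍ) :
    |∫ s, ∏ k ∈ I, f k (w s k) ∂μ| ≤ ∏ k ∈ I, ‖f k‖ := by
  have := norm_integral_le_of_norm_le_const (μ := μ) (f := fun s => ∏ k ∈ I, f k (w s k))
    (C := ∏ k ∈ I, ‖f k‖) (Eventually.of_forall fun s => by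
      rw [norm_prod]
      exact Finset.prod_le_prod (fun _ _ => norm_nonneg _) fun k _ => (f k).norm_coe_le_norm _)
  simpa using this

theorem vi1_small {𝒰 : Ultrafilter ℕ} (hC : Cls 𝒰 τ D I) (p : ℕ) [Fact p.Prime] {j k : Fin n}
    (hv : Tendsto (fun i => padicValInt p (D i j)) 𝒰 atTop) {c : ℕ}
    (h : ∀ᶠ i in 𝒰, ‖(D i k : ℚ_[p])‖ ≤ (p : ℝ) ^ c * ‖(D i j : ℚ_[p])‖) (b : ℕ) :
    ∀ᶠ i in 𝒰, ‖(D i k : ℚ_[p])‖ ≤ (p : ℝ) ^ (-(b : ℤ)) := by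
  have hp : (1 : ℝ) < p := by exact_mod_cast (Fact.out : p.Prime).one_lt
  have hp0 : (0 : ℝ) < p := one_pos.trans hp
  filter_upwards [h, tendsto_atTop.1 hv (b + c)] with i h1 h2
  refine h1.trans ?_
  rw [norm_int_eq p (hC.disc i j).isD.1.ne, ← zpow_natCast, ← zpow_add₀ hp0.ne']
  exact zpow_le_zpow_right₀ hp.le (by omega)

theorem stepU (hN : 0 < N) [FiniteDimensional ℚ F] {𝒰 : Ultrafilter ℕ}
    (h𝒰 : (𝒰 : Filter ℕ) ≤ atTop) (hC : Cls 𝒰 τ D I) (hφ : ∀ k, Tst N F (φ k))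
    (hψ : WtN 𝒰 D I ψ) (p : ℕ) [Fact p.Prime] {j : Fin n} (hj : j ∈ I)
    (hmax : ∀ᶠ i in 𝒰, ∀ k ∈ I, padicValInt p (D i k) ≤ padicValInt p (D i j))
    (hv : Tendsto (fun i => padicValInt p (D i j)) 𝒰 atTop)
    (h1 : ∀ k ∈ I, ∀ c : ℕ,
      (∀ᶠ i in 𝒰, ‖(D i k : ℚ_[p])‖ ≤ (p : ℝ) ^ c * ‖(D i j : ℚ_[p])‖) → ∀ C δ : ℝ, 0 < δ →
      ∀ᶠ i in 𝒰, ({z | z ∈ (galOrbit F fun k => jInv (τ i k)) ∧
        Bad1 p C (D i k) (z k)}.ncard : ℝ) ≤ δ * (galOrbit F fun k => jInv (τ i k)).ncard)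
    (h2 : ∀ k ∈ I, ∀ l ∈ I, k ≠ l → ∀ (c : ℕ) (ρ₁ ρ₂ : ℕ → ℚ),
      (∀ᶠ i in 𝒰, ‖(D i k : ℚ_[p])‖ ≤ (p : ℝ) ^ c * ‖(D i j : ℚ_[p])‖ ∧
        ‖(D i l : ℚ_[p])‖ ≤ (p : ℝ) ^ c * ‖(D i j : ℚ_[p])‖ ∧ 0 < ρ₁ i ∧ 0 < ρ₂ i ∧
        ρ₁ i ^ 2 * D i k = ρ₂ i ^ 2 * D i l ∧
        ‖(ρ₁ i : ℚ_[p])‖ ≤ (p : ℝ) ^ c * ‖(ρ₂ i : ℚ_[p])‖ ∧
        ‖(ρ₂ i : ℚ_[p])‖ ≤ (p : ℝ) ^ c * ‖(ρ₁ i : ℚ_[p])‖) →
      ∀ m : ℤ, m ≠ 0 → ∀ (c' : ℕ) (δ : ℝ), 0 < δ →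
      ∀ᶠ i in 𝒰, ({z | z ∈ (galOrbit F fun k => jInv (τ i k)) ∧ ∃ M₁ M₂, DiscL M₁ (D i k) ∧
        DiscL M₂ (D i l) ∧ jL M₁ = z k ∧ jL M₂ = z l ∧
        Bad2 p m c' (D i k) (D i l) M₁ M₂}.ncard : ℝ) ≤
        δ * (galOrbit F fun k => jInv (τ i k)).ncard) :
    StepN 𝒰 N F τ φ I ψ := by
  classical
  have hp : (1 : ℝ) < p := by exact_mod_cast (Fact.out : p.Prime).one_lt
  have hp0 : (0 : ℝ) < p := one_pos.trans hp
  have hD := hC.disc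
  have hbig := hC.big
  obtain ⟨Bψ, hBψ⟩ := hψ.bd
  obtain ⟨c, B, hc⟩ := exists_framesN p hN F n
  choose ρ Nm x a e hK hF using fun i => hc (τ i) (D i) (hD i) j
  set O : ℕ → Finset (Fin n × Fn → ℂ) := fun i => ON N F (τ i) with hO
  have hmem : ∀ i z, z ∈ O i → pj z ∈ galOrbit F fun k => jInv (τ i k) := fun i z hz =>
    pj_mem hN ((mem_ON hN (hD i)).1 hz)
  have hOne : ∀ i, (O i).Nonempty := fun i => ON_ne hN F (hD i)
  have hF' : ∀ᶠ i in 𝒰, FrN p N F (O i) (D i) j c B (ρ i) (Nm i) (x i) (a i) (e i) :=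
    hbig.mono hF
  have hneg : ∀ i k, D i k < 0 := fun i k => (hD i k).isD.1
  set v : ℕ → ℕ := fun i => padicValInt p (D i j) with hvd
  set r : ℕ → ℤ := fun i => (v i : ℤ) / 2 - c with hr
  have hDj : ∀ i, ‖(D i j : ℚ_[p])‖ = (p : ℝ) ^ (-(v i : ℤ)) := fun i =>
    norm_int_eq p (hneg i j).ne
  have hvt : Tendsto v 𝒰 atTop := hv
  have hrt : Tendsto r 𝒰 atTop := by
    refine tendsto_atTop.2 fun b => (tendsto_atTop.1 hvt (2 * (b + c).toNat)).mono fun i hi => ?_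
    simp only [hr]
    omega
  have hr1 : ∀ i, ‖(D i j : ℚ_[p])‖ * ((p : ℝ) ^ r i) ^ 2 ≤ (p : ℝ) ^ (-(c : ℤ)) := fun i => by
    rw [hDj, ← zpow_natCast, ← zpow_mul, ← zpow_add₀ hp0.ne']
    refine zpow_le_zpow_right₀ hp.le ?_
    simp only [hr]
    omega
  have hr2 : ∀ i, 1 ≤ (p : ℝ) ^ (2 * c + 1) * (‖(D i j : ℚ_[p])‖ * ((p : ℝ) ^ r i) ^ 2) :=
    fun i => by
      rw [hDj, ← zpow_natCast, ← zpow_natCast, ← zpow_mul, ← zpow_add₀ hp0.ne',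
        ← zpow_add₀ hp0.ne']
      refine one_le_zpow₀ hp.le ?_
      simp only [hr]
      omega
  set J := I.filter fun k => ¬ Tendsto (fun i => Nm i k) 𝒰 (𝓝 0) with hJ
  have hJI : J ⊆ I := Finset.filter_subset _ _
  have hjJ : j ∈ J := by
    refine Finset.mem_filter.2 ⟨hj, fun h => ?_⟩
    have h4 : ∀ᶠ i in 𝒰, ‖(D i j : ℚ_[p])‖ ≤ ‖(4 : ℚ_[p])‖ := by
      filter_upwards [tendsto_atTop.1 hvt (padicValInt p 4)] with i hi
      have := norm_int_eq p (D := 4) (by norm_num)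
      push_cast at this
      rw [hDj, this]
      exact zpow_le_zpow_right₀ hp.le (by omega)
    have h5 : Tendsto (fun _ : ℕ => ‖(2 : ℚ_[p])‖) 𝒰 (𝓝 0) :=
      h.congr' (by filter_upwards [h4, hF'] with i h4 hF using hF.top h4)
    have := tendsto_nhds_unique h5 tendsto_const_nhds
    exact absurd this.symm (by simp)
  refine ⟨J, hJI, ⟨j, hjJ⟩, ?_⟩
  have hN0 : ∀ᶠ i in 𝒰, ∀ k, 0 ≤ Nm i k := hF'.mono fun i hi k => by
    obtain ⟨z, hz⟩ := hOne i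
    rw [← hi.nrm z hz k]; exact norm_nonneg _
  have hN1 : ∀ᶠ i in 𝒰, ∀ k ∈ I, Nm i k ≤ 1 := by
    filter_upwards [hF', hmax] with i hi h2 k hk
    have h3 := hi.le k
    have h4 : ‖(D i j : ℚ_[p])‖ ≤ ‖(D i k : ℚ_[p])‖ := by
      rw [hDj, norm_int_eq p (hneg i k).ne]
      exact zpow_le_zpow_right₀ hp.le (by have := h2 k hk; simp only [hvd]; omega)
    have h5 : 0 < ‖(D i k : ℚ_[p])‖ := norm_pos_iff.2 (by exact_mod_cast (hneg i k).ne)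
    have h6 : Nm i k ^ 2 ≤ 1 := by nlinarith
    exact (le_abs_self _).trans ((sq_le_one_iff_abs_le_one _).1 h6)
  obtain ⟨c₁, hc₁⟩ : ∃ c₁ : ℕ, ∀ᶠ i in 𝒰, ∀ k ∈ J, 1 ≤ (p : ℝ) ^ c₁ * Nm i k := by
    have h1 : ∀ k, ∃ c₁ : ℕ, k ∈ J → ∀ᶠ i in 𝒰, 1 ≤ (p : ℝ) ^ c₁ * Nm i k := by
      intro k
      by_cases hk : k ∈ J
      swap
      · exact ⟨0, fun h => absurd h hk⟩
      by_contra h
      push Not at h
      refine (Finset.mem_filter.1 hk).2 (Metric.tendsto_nhds.2 fun ε hε => ?_)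
      obtain ⟨m, hm⟩ := pow_unbounded_of_one_lt ε⁻¹ hp
      filter_upwards [(h m).2, hN0] with i h1 h2
      rw [Real.dist_eq, sub_zero, abs_of_nonneg (h2 k)]
      by_contra h3
      refine not_le.2 h1 ?_
      calc (1 : ℝ) = ε⁻¹ * ε := (inv_mul_cancel₀ hε.ne').symm
        _ ≤ _ := mul_le_mul hm.le (not_lt.1 h3) hε.le (by positivity)
    choose c₁ hc₁ using h1
    refine ⟨Finset.univ.sup c₁, ?_⟩
    filter_upwards [(eventually_all_finset J).2 fun k hk => hc₁ k hk, hN0] with i h1 h2 k hk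
    exact (h1 k hk).trans (mul_le_mul_of_nonneg_right
      (pow_le_pow_right₀ hp.le (Finset.le_sup (Finset.mem_univ k))) (h2 k))
  set c₀ := 2 * c + 3 + 2 * c₁ with hc₀
  have h20 : 0 < ‖(2 : ℚ_[p])‖ := norm_pos_iff.2 two_ne_zero
  have key : ∀ᶠ i in 𝒰, ∀ k ∈ J, (0 < ρ i k ∧ ρ i k ^ 2 * D i k = D i j ∧
      (∀ l ∈ J, ‖(ρ i k : ℚ_[p])‖ ≤ (p : ℝ) ^ c₀ * ‖(ρ i l : ℚ_[p])‖) ∧
      ‖(D i k : ℚ_[p])‖ ≤ (p : ℝ) ^ c₀ * ‖(D i j : ℚ_[p])‖) ∧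
      ∀ z ∈ O i, Frame p (D i k) (cov p N (x i z k)) (e i z k) ∧
        piX p (cov p N (x i z k)) ∈ Cl (D i k) ∧
        ‖(D i k : ℚ_[p])‖ * (‖-e i z k * ρ i k‖ * (p : ℝ) ^ r i) ^ 2 ≤ 1 ∧
        1 ≤ (p : ℝ) ^ c₀ * (‖(D i k : ℚ_[p])‖ * (‖-e i z k * ρ i k‖ * (p : ℝ) ^ r i) ^ 2) := by
    filter_upwards [hF', hc₁, hN1, hN0, hbig] with i hi h1 h2 h0 hb k hk
    have hne : ∀ k ∈ J, Nm i k ≠ 0 := fun k hk h => by
      have := h1 k hk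
      rw [h, mul_zero] at this
      linarith
    obtain ⟨z₀, hz₀⟩ := hOne i
    have hρN : ∀ k ∈ J, ‖(2 : ℚ_[p])‖ * ‖(ρ i k : ℚ_[p])‖ = Nm i k := fun k hk => by
      obtain ⟨g, Θ, -, -, -, -, he⟩ := (hi.fr z₀ hz₀ k (hne k hk)).1
      rw [← hi.nrm z₀ hz₀ k, norm_mul, norm_neg, he]
    obtain ⟨-, h5, h6⟩ := hi.fr z₀ hz₀ k (hne k hk)
    have h7 : ‖(D i k : ℚ_[p])‖ * Nm i k ^ 2 = ‖(2 : ℚ_[p])‖ ^ 2 * ‖(D i j : ℚ_[p])‖ := by
      have : (ρ i k : ℚ_[p]) ^ 2 * D i k = D i j := by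
        exact_mod_cast congrArg (fun q : ℚ => (q : ℚ_[p])) h6
      rw [← hρN k hk, ← this, norm_mul, norm_pow]; ring
    refine ⟨⟨h5, h6, fun l hl => ?_, ?_⟩,
      fun z hz => ⟨(hi.fr z hz k (hne k hk)).1, ?_, ?_, ?_⟩⟩
    · refine le_of_mul_le_mul_left ?_ h20
      rw [hρN k hk, mul_left_comm, hρN l hl]
      exact (h2 k (hJI hk)).trans ((h1 l hl).trans (mul_le_mul_of_nonneg_right
        (pow_le_pow_right₀ hp.le (by omega)) (h0 l)))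
    · have h8 : 1 ≤ ((p : ℝ) ^ c₁ * Nm i k) ^ 2 := one_le_pow₀ (h1 k hk)
      calc ‖(D i k : ℚ_[p])‖ ≤ ‖(D i k : ℚ_[p])‖ * ((p : ℝ) ^ c₁ * Nm i k) ^ 2 :=
            le_mul_of_one_le_right (norm_nonneg _) h8
        _ = (p : ℝ) ^ (2 * c₁) * (‖(D i k : ℚ_[p])‖ * Nm i k ^ 2) := by ring
        _ ≤ _ := mul_le_mul (pow_le_pow_right₀ hp.le (by omega)) (hi.le k)
            (by positivity) (by positivity)
    · obtain ⟨t, ht, hjt⟩ := orbit_lift (hD i) hb (hmem i z hz) k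
      rw [hi.pi z hz k]
      exact ⟨_, discL_one ht, by rw [jL_one, hjt]⟩
    · rw [hi.nrm z hz k, mul_pow, ← mul_assoc]
      refine (mul_le_mul_of_nonneg_right (hi.le k) (by positivity)).trans ((hr1 i).trans ?_)
      exact zpow_le_one_of_nonpos₀ hp.le (by omega)
    · rw [hi.nrm z hz k, mul_pow, ← mul_assoc ‖(D i k : ℚ_[p])‖, h7]
      have h8 : 1 ≤ ((p : ℝ) * ‖(2 : ℚ_[p])‖) ^ 2 := one_le_pow₀ (two_norm_ge p)
      calc (1 : ℝ) ≤ ((p : ℝ) * ‖(2 : ℚ_[p])‖) ^ 2 *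
            ((p : ℝ) ^ (2 * c + 1) * (‖(D i j : ℚ_[p])‖ * ((p : ℝ) ^ r i) ^ 2)) :=
            one_le_mul_of_one_le_of_one_le h8 (hr2 i)
        _ = (p : ℝ) ^ (2 * c + 3) *
            (‖(2 : ℚ_[p])‖ ^ 2 * ‖(D i j : ℚ_[p])‖ * ((p : ℝ) ^ r i) ^ 2) := by ring
        _ ≤ _ := mul_le_mul_of_nonneg_right (pow_le_pow_right₀ hp.le (by omega)) (by positivity)
  set Ψ : ℕ → (Fin n × Fn → ℂ) → ℝ := fun i z =>
    ∫ s, ∏ k ∈ I, φ k (ptX p N (((1, a i z k) : GG p) • uP p (-e i z k * ρ i k * s) • x i z k))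
      ∂bm p (r i) - (∏ k ∈ J, IN N (φ k)) * ∫ s, ∏ k ∈ I \ J,
        φ k (ptX p N (((1, a i z k) : GG p) • uP p (-e i z k * ρ i k * s) • x i z k))
          ∂bm p (r i) with hΨ
  have hΨB : ∀ i z, |Ψ i z| ≤ ∏ k ∈ I, ‖φ k‖ + |∏ k ∈ J, IN N (φ k)| * ∏ k ∈ I \ J, ‖φ k‖ := by
    intro i z
    refine (abs_sub _ _).trans (add_le_add (vi1_abs_le φ I _ _) ?_)
    rw [abs_mul]
    exact mul_le_mul_of_nonneg_left (vi1_abs_le φ _ _ _) (abs_nonneg _)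
  have hΦB : ∀ i z, |ψ i z * Ψ i z| ≤
      Bψ * (∏ k ∈ I, ‖φ k‖ + |∏ k ∈ J, IN N (φ k)| * ∏ k ∈ I \ J, ‖φ k‖) := by
    intro i z
    rw [abs_mul]
    exact mul_le_mul (hBψ i z) (hΨB i z) (abs_nonneg _) ((abs_nonneg _).trans (hBψ i z))
  set bad : (Fin n × ℕ) ⊕ (Fin n × Fin n × ℤ × ℕ) → ℕ → (Fin n → ℂ) → Prop := fun m i z =>
    m.elim (fun a => a.1 ∈ J ∧ Bad1 p a.2 (D i a.1) (z a.1)) fun a =>
      a.1 ∈ J ∧ a.2.1 ∈ J ∧ a.2.2.1 ≠ 0 ∧ a.1 ≠ a.2.1 ∧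
        ∃ M₁ M₂, DiscL M₁ (D i a.1) ∧ DiscL M₂ (D i a.2.1) ∧
        jL M₁ = z a.1 ∧ jL M₂ = z a.2.1 ∧ Bad2 p a.2.2.1 a.2.2.2 (D i a.1) (D i a.2.1) M₁ M₂
    with hbad
  have havg : Tendsto (fun i => avg (O i) fun z => ψ i z * Ψ i z) 𝒰 (𝓝 0) := by
    refine avg_tendsto_of_bad h𝒰 O hOne (fun i z => ψ i z * Ψ i z) hΦB
      (fun m i z => bad m i (pj z)) ?_ ?_
    · have hred : ∀ m, (∀ δ : ℝ, 0 < δ → ∀ᶠ i in 𝒰,
          ({z | z ∈ (galOrbit F fun k => jInv (τ i k)) ∧ bad m i z}.ncard : ℝ) ≤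
            δ * (galOrbit F fun k => jInv (τ i k)).ncard) := by
        rintro (⟨k, C⟩ | ⟨k, l, m, c'⟩) δ hδ
        · by_cases hk : k ∈ J
          swap
          · refine Eventually.of_forall fun i => ?_
            simp only [hbad, Sum.elim_inl, hk, false_and, and_false, Set.ofPred_false,
              Set.ncard_empty, Nat.cast_zero]
            positivity
          filter_upwards [h1 k (hJI hk) c₀ (key.mono fun i hi => (hi k hk).1.2.2.2) C δ hδ]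
            with i hi
          simp only [hbad, Sum.elim_inl, hk, true_and]
          exact hi
        · by_cases hk : k ∈ J ∧ l ∈ J ∧ m ≠ 0 ∧ k ≠ l
          swap
          · refine Eventually.of_forall fun i => ?_
            have : {z | z ∈ (galOrbit F fun k => jInv (τ i k)) ∧
                bad (Sum.inr (k, l, m, c')) i z} = ∅ :=
              Set.eq_empty_of_forall_notMem fun z hz => hk
                ⟨hz.2.1, hz.2.2.1, hz.2.2.2.1, hz.2.2.2.2.1⟩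
            rw [this, Set.ncard_empty, Nat.cast_zero]
            positivity
          obtain ⟨hk, hl, hm, hkl⟩ := hk
          filter_upwards [h2 k (hJI hk) l (hJI hl) hkl c₀ (fun i => ρ i k) (fun i => ρ i l)
            (key.mono fun i hi => ⟨(hi k hk).1.2.2.2, (hi l hl).1.2.2.2, (hi k hk).1.1,
              (hi l hl).1.1, (hi k hk).1.2.1.trans (hi l hl).1.2.1.symm,
              (hi k hk).1.2.2.1 l hl, (hi l hl).1.2.2.1 k hk⟩) m hm c' δ hδ] with i hi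
          simp only [hbad, Sum.elim_inr, hk, hl, hm, hkl, ne_eq, not_false_eq_true, true_and]
          exact hi
      intro m δ hδ
      exact (hred m δ hδ).mono fun i hi => card_pj hN (hD i) (bad m i) hi
    intro z hz hgood
    set d : ℕ → Fin n → ℚ_[p] := fun i k => -e i (z i) k * ρ i k with hd
    have hdN : ∀ᶠ i in 𝒰, ∀ k, ‖d i k‖ = Nm i k := hF'.mono fun i hi k => hi.nrm _ (hz i) k
    have hlim : ∀ k, ∃ a : ℚ_[p], k ∈ I → Tendsto (fun i => d i k) 𝒰 (𝓝 a) := by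
      intro k
      by_cases hk : k ∈ I
      · obtain ⟨a, -, ha⟩ := (isCompact_closedBall (0 : ℚ_[p]) 1).ultrafilter_le_nhds
          (𝒰.map fun i => d i k) (by
            rw [le_principal_iff]
            change ∀ᶠ i in 𝒰, d i k ∈ Metric.closedBall (0 : ℚ_[p]) 1
            filter_upwards [hdN, hN1] with i h1 h2
            rw [mem_closedBall_zero_iff, h1 k]
            exact h2 k hk)
        exact ⟨a, fun _ => ha⟩
      · exact ⟨0, fun h => absurd h hk⟩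
    choose b hb using hlim
    have haN : ∀ k ∈ I, Tendsto (fun i => Nm i k) 𝒰 (𝓝 ‖b k‖) := fun k hk =>
      (hb k hk).norm.congr' (hdN.mono fun i hi => hi k)
    have ha0 : ∀ k ∈ J, b k ≠ 0 := fun k hk h =>
      (Finset.mem_filter.1 hk).2 (by simpa [h] using haN k (hJI hk))
    have ha1 : ∀ k ∈ I, k ∉ J → b k = 0 := fun k hk hk' => by
      have : Tendsto (fun i => Nm i k) 𝒰 (𝓝 0) := by
        by_contra h
        exact hk' (Finset.mem_filter.2 ⟨hk, h⟩)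
      exact norm_eq_zero.1 (tendsto_nhds_unique (haN k hk) this)
    have hT : ∀ k ∈ J, Tt p 𝒰 (fun i => cov p N (x i (z i) k)) (fun i => d i k) r := by
      intro k hk ε hε
      obtain ⟨Ω, hΩ, h⟩ := tight_frame2 p hε
      refine ⟨Ω, hΩ, fun m => ?_⟩
      obtain ⟨C, hC⟩ := h m c₀
      obtain ⟨b, hb⟩ := pow_unbounded_of_one_lt (C : ℝ) hp
      filter_upwards [key, hgood (Sum.inl (k, C)), hF', hc₁, hdN,
        tendsto_atTop.1 hrt ((b + c₁ : ℕ) : ℤ), hN0] with i h1 h2 h3 h4 h5 h6 h7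
      obtain ⟨-, h8⟩ := h1 k hk
      obtain ⟨h9, h10, h11, h12⟩ := h8 _ (hz i)
      refine hC _ _ _ _ _ h9 h10 h11 h12 ?_ ?_
      · rw [h5 k]
        calc (C : ℝ) ≤ (p : ℝ) ^ b * ((p : ℝ) ^ c₁ * Nm i k) :=
              hb.le.trans (le_mul_of_one_le_right (by positivity) (h4 k hk))
          _ = Nm i k * (p : ℝ) ^ ((b + c₁ : ℕ) : ℤ) := by rw [zpow_natCast]; ring
          _ ≤ _ := mul_le_mul_of_nonneg_left (zpow_le_zpow_right₀ hp.le h6) (h7 k)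
      · rw [h3.pi _ (hz i)]
        exact fun h => h2 ⟨hk, h⟩
    have hE : ∀ k ∈ J, ∀ l ∈ J, k ≠ l → NoExc p 𝒰 (fun i => cov p N (x i (z i) k))
        (fun i => cov p N (x i (z i) l)) (fun i => d i k) (fun i => d i l) r := by
      intro k hk l hl hkl q hq δ hδ R
      obtain ⟨M, m, c', hM, hm, h⟩ := exc_frame2 p hq hδ R c₀
      filter_upwards [key, hgood (Sum.inr (k, l, m, c')),
        hC.noi k (hJI hk) l (hJI hl) hkl M hM, hF'] with i h1 h2 h3 h4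
      intro P hP hP1
      by_contra h5
      push Not at h5
      obtain ⟨a1, a2⟩ := h1 k hk
      obtain ⟨b1, b2⟩ := h1 l hl
      obtain ⟨a3, a4, a5, a6⟩ := a2 _ (hz i)
      obtain ⟨b3, b4, b5, b6⟩ := b2 _ (hz i)
      have h6 := h _ _ _ _ _ _ _ _ _ a3 b3 a4 b4 a1.1 b1.1 (a1.2.1.trans b1.2.1.symm) a5 b5 a6 b6
        (a1.2.2.1 l hl) (b1.2.2.1 k hk) P hP hP1 h5
      rw [h4.pi _ (hz i), h4.pi _ (hz i)] at h6
      rcases h6 with h6 | h6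
      · obtain ⟨σ, -, hσ⟩ := hmem i _ (hz i)
        rw [hσ] at h6
        exact h3 σ h6
      · exact h2 ⟨hk, hl, hm, hkl, h6⟩
    have hS : Tendsto (fun i => Ψ i (z i)) 𝒰 (𝓝 0) :=
      stepN hN 𝒰 h𝒰 (fun i => x i (z i)) (fun i => a i (z i)) (fun i k => hK i _ k) d b I J hJI
        ha0 ha1 hb r hrt hT hE φ fun k => (hφ k).ginv
    have hS' := hS.abs.const_mul Bψ
    rw [abs_zero, mul_zero] at hS'
    refine squeeze_zero_norm (fun i => ?_) hS'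
    rw [Real.norm_eq_abs, abs_mul]
    exact mul_le_mul_of_nonneg_right (hBψ _ _) (abs_nonneg _)
  refine havg.congr' ?_
  filter_upwards [hF', hψ.oth, hC.sq, hC.inf B] with i hi ho hs hb
  have ho' : Oth {j} (D i) (ψ i) := ho.mono (Finset.singleton_subset_iff.2 hj)
  have h1 := hi.sum (r i) (hr1 i) I (fun k hk => ⟨hs k hk j hj, hb k hk⟩) φ hφ _ ho'
  have h2 := hi.sum (r i) (hr1 i) (I \ J) (fun k hk =>
    ⟨hs k (Finset.sdiff_subset hk) j hj, hb k (Finset.sdiff_subset hk)⟩) φ hφ _ ho'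
  simp only [avg, hΨ, mul_sub, Finset.sum_sub_distrib, mul_left_comm (ψ i _),
    ← Finset.mul_sum]
  rw [h1, h2]

theorem stepU_a (hN : 0 < N) [FiniteDimensional ℚ F] {𝒰 : Ultrafilter ℕ}
    (h𝒰 : (𝒰 : Filter ℕ) ≤ atTop) (hC : Cls 𝒰 τ D I) (hφ : ∀ k, Tst N F (φ k))
    (hψ : WtN 𝒰 D I ψ) (p : ℕ) [Fact p.Prime] {j : Fin n} (hj : j ∈ I)
    (hmax : ∀ᶠ i in 𝒰, ∀ k ∈ I, padicValInt p (D i k) ≤ padicValInt p (D i j)) {η : ℝ}
    (hη : 0 < η) (hdom : ∀ᶠ i in 𝒰, ∀ k ∈ I, ‖(D i j : ℚ_[p])‖ ≤ (-(D i k : ℝ)) ^ (-η)) :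
    StepN 𝒰 N F τ φ I ψ := by
  have hp : (1 : ℝ) < p := by exact_mod_cast (Fact.out : p.Prime).one_lt
  have hp0 : (0 : ℝ) < p := one_pos.trans hp
  have hv : Tendsto (fun i => padicValInt p (D i j)) 𝒰 atTop := by
    refine tendsto_atTop.2 fun b => ?_
    have h1 := (tendsto_rpow_neg_atTop hη).eventually
      (ge_mem_nhds (zpow_pos hp0 (-(b : ℤ))))
    obtain ⟨Y, hY⟩ := eventually_atTop.1 h1
    filter_upwards [hC.inf Y, hdom] with i h2 h3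
    have h4 := (h3 j hj).trans (hY _ (h2 j hj))
    rw [norm_int_eq p (hC.disc i j).isD.1.ne, zpow_le_zpow_iff_right₀ hp] at h4
    omega
  refine stepU hN h𝒰 hC hφ hψ p hj hmax hv ?_ ?_
  · intro k hk c hc C δ hδ
    obtain ⟨Y, hY⟩ := frac_bad1 p F C c hη hδ
    filter_upwards [hc, hC.inf Y, hC.big, hdom] with i h1 h2 h3 h4
    exact hY n (τ i) (D i) (hC.disc i) k (h3 k) (h2 k hk)
      (h1.trans (mul_le_mul_of_nonneg_left (h4 k hk) (by positivity)))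
  · intro k hk l hl hkl c ρ₁ ρ₂ hc m hm c' δ hδ
    obtain ⟨Y, hY⟩ := frac_bad2 p F hm c c' hη hδ
    filter_upwards [hc, hC.inf Y, hC.big, hdom] with i h1 h2 h3 h4
    obtain ⟨a1, -, a3, a4, a5, a6, a7⟩ := h1
    exact hY n (τ i) (D i) (hC.disc i) k l _ _ (h3 k) (h3 l) a3 a4 a5 a6 a7 (h2 k hk)
      (a1.trans (mul_le_mul_of_nonneg_left (h4 k hk) (by positivity)))
      (a1.trans (mul_le_mul_of_nonneg_left (h4 l hl) (by positivity)))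

theorem stepU_L (hN : 0 < N) [FiniteDimensional ℚ F] {𝒰 : Ultrafilter ℕ}
    (h𝒰 : (𝒰 : Filter ℕ) ≤ atTop) (hC : Cls 𝒰 τ D I) (hφ : ∀ k, Tst N F (φ k))
    (hψ : WtN 𝒰 D I ψ) (p : ℕ) [Fact p.Prime] {j : Fin n} (hj : j ∈ I)
    (hmax : ∀ᶠ i in 𝒰, ∀ k ∈ I, padicValInt p (D i k) ≤ padicValInt p (D i j))
    (hv : Tendsto (fun i => padicValInt p (D i j)) 𝒰 atTop) {L : ℝ}
    (hL : ∀ᶠ i in 𝒰, ∀ k ∈ I, Low L (D i k)) : StepN 𝒰 N F τ φ I ψ := by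
  refine stepU hN h𝒰 hC hφ hψ p hj hmax hv ?_ ?_
  · intro k hk c hc C δ hδ
    obtain ⟨Y, hY⟩ := frac_bad1' p F C L hδ
    filter_upwards [vi1_small hC p hv hc Y, hC.big, hL] with i h1 h2 h3
    exact hY n (τ i) (D i) (hC.disc i) k (h2 k) (h3 k hk) h1
  · intro k hk l hl hkl c ρ₁ ρ₂ hc m hm c' δ hδ
    obtain ⟨Y, N₀, hN₀, hY⟩ := frac_bad3 p F hm ((p : ℝ) ^ c') L c hδ
    filter_upwards [hc, vi1_small hC p hv (hc.mono fun i hi => hi.2.1) (Y + c'), hC.big, hL,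
      hC.noi k hk l hl hkl N₀ hN₀] with i h1 h2 h3 h4 h5
    obtain ⟨-, -, a3, a4, a5, a6, a7⟩ := h1
    refine le_trans (Nat.cast_le.2 (Set.ncard_le_ncard ?_
      ((orbit_finite F (hC.disc i)).subset fun z hz => hz.1)))
      (hY n (τ i) (D i) (hC.disc i) k l _ _ (h3 k) (h3 l) a3 a4 a5 a6 a7 (h4 k hk) h5)
    rintro z ⟨hz, M₁, M₂, b1, b2, b3, b4, b5⟩
    exact ⟨hz, M₁, M₂, b1, b2, b3, b4, b5.bad3 p h2⟩

end Pool.Agent.EQ
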