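import Pool.Agent.P.MP_ad7a55_nt.VRg
import Pool.Agent.P.MP_ad7a55_nt.USt2
import Pool.Agent.P.MP_ad7a55_nt.UMain

/-! Orbits of two commuting elements, lifted to the covering space. -/

set_option autoImplicit false

noncomputable section

open MeasureTheory Topology Filter UpperHalfPlane
open scoped MatrixGroups ENNReal BoundedContinuousFunction

namespace Pool.Agent.EQ

variable {p q : ℕ} [Fact p.Prime] [Fact q.Prime] {N : ℕ} {κ : Type} [Fintype κ]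

theorem vs3_avg {α β : Type} (O : Finset α) (U : Finset β) (G : α → β → ℝ) :
    (avg O fun z => avg U (G z)) = (∑ a ∈ O ×ˢ U, G a.1 a.2) / (O.card * U.card) := by
  simp only [avg]
  rw [Finset.sum_product, ← Finset.sum_div, div_div, mul_comm]

theorem vs3_avg_mul {β : Type} {U : Finset β} (hU : (0 : ℝ) < U.card) (c I : ℝ) (G : β → ℝ) :
    c * (avg U G - I) = avg U fun u => c * (G u - I) := by
  simp only [avg]
  rw [← Finset.mul_sum, Finset.sum_sub_distrib, Finset.sum_const, nsmul_eq_mul]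
  field_simp

theorem vs3_avg_sum {α τ : Type} (O : Finset α) (S : Finset τ) (G : τ → α → ℝ) :
    ∑ t ∈ S, avg O (G t) = avg O fun z => ∑ t ∈ S, G t z := by
  simp only [avg]
  rw [Finset.sum_comm, Finset.sum_div]

open Classical in
/-- The normalised weighted sum of point masses. -/
def vs3M {A W : Type} [MeasurableSpace W] (S : Finset A) (ω : A → ℝ) (Y : A → W) (y₀ : W) :
    Measure W :=
  if 0 < ∑ a ∈ S, ω a then ustM S (fun a => ω a / ∑ a ∈ S, ω a) Y else Measure.dirac y₀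

theorem vs3_eq {A W : Type} [MeasurableSpace W] {S : Finset A} {ω : A → ℝ}
    (h : 0 < ∑ a ∈ S, ω a) (Y : A → W) (y₀ : W) :
    vs3M S ω Y y₀ = ustM S (fun a => ω a / ∑ a ∈ S, ω a) Y := if_pos h

theorem vs3_prob {A W : Type} [MeasurableSpace W] [MeasurableSingletonClass W] (S : Finset A)
    {ω : A → ℝ} (hω : ∀ a, 0 ≤ ω a) (Y : A → W) (y₀ : W) :
    IsProbabilityMeasure (vs3M S ω Y y₀) := by
  unfold vs3M
  split_ifs with h
  · refine ust_prob _ (fun a => div_nonneg (hω a) h.le) ?_ _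
    rw [← Finset.sum_div, div_self h.ne']
  · infer_instance

theorem vs3_int {A W : Type} [MeasurableSpace W] [MeasurableSingletonClass W] {S : Finset A}
    {ω : A → ℝ} (hω : ∀ a, 0 ≤ ω a) (h : 0 < ∑ a ∈ S, ω a) (Y : A → W) (y₀ : W) (f : W → ℝ) :
    ∫ w, f w ∂vs3M S ω Y y₀ = (∑ a ∈ S, ω a * f (Y a)) / ∑ a ∈ S, ω a := by
  rw [vs3_eq h, ust_int _ (fun a => div_nonneg (hω a) h.le), Finset.sum_div]
  exact Finset.sum_congr rfl fun a _ => by ring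

theorem vs3_dev {A W : Type} [MeasurableSpace W] [MeasurableSingletonClass W] {S : Finset A}
    {ω : A → ℝ} (hω : ∀ a, 0 ≤ ω a) (h : 0 < ∑ a ∈ S, ω a) (Y : A → W) (y₀ : W) (f : W → ℝ)
    (I n : ℝ) : (∑ a ∈ S, ω a * (f (Y a) - I)) / n =
      (∑ a ∈ S, ω a) / n * (∫ w, f w ∂vs3M S ω Y y₀ - I) := by
  rw [vs3_int hω h]
  simp only [mul_sub, Finset.sum_sub_distrib, ← Finset.sum_mul]
  have := h.ne'
  rw [sub_div]
  congr 1
  · field_simp
  · ring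

theorem vs3_le {A W W' : Type} [MeasurableSpace W] [MeasurableSingletonClass W]
    [MeasurableSpace W'] [MeasurableSingletonClass W'] (S : Finset A) {ω ω' : A → ℝ}
    {Y : A → W} {Y' : A → W'} {π : W → W'} (hπ : Measurable π) {C : ℝ} (hC : 0 ≤ C)
    (h : ∀ a ∈ S, ω a ≤ C * ω' a) (hY : ∀ a ∈ S, ω a ≠ 0 → π (Y a) = Y' a) :
    (ustM S ω Y).map π ≤ ENNReal.ofReal C • ustM S ω' Y' := by
  refine Measure.le_iff.2 fun E hE => ?_
  rw [Measure.map_apply hπ hE, Measure.smul_apply, ust_apply, ust_apply, smul_eq_mul,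
    Finset.mul_sum]
  refine Finset.sum_le_sum fun a ha => ?_
  by_cases h0 : ω a = 0
  · simp [h0]
  · rw [← mul_assoc, ← ENNReal.ofReal_mul hC, ← hY a ha h0]
    exact mul_le_mul_left (ENNReal.ofReal_le_ofReal (h a ha)) _

theorem vs3_piP (M : ℕ) (h : κ → SL(2, ℚ_[q])) (x : κ → X3 p q) (u : ℕ × ℕ) :
    piP p q (yy p q M h x u) =
      fun k => aP p (M * u.1) • piP p q (yy p q M h x (0, u.2)) k := by
  have e : yy p q M h x u = al p q κ (M * u.1) • yy p q M h x (0, u.2) := by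
    simp only [yy]
    rw [← mul_smul (al p q κ (M * u.1)) (al p q κ (M * 0)), ← al_add, mul_zero, add_zero]
  rw [e]
  funext k
  exact pi3_smul p q (g := a3 p q (M * u.1)) (Kp q).one_mem _

theorem st3N (hN : 0 < N) (hpq : p ≠ q) {M : ℕ} (hM : 0 < M) (h : κ → SL(2, ℚ_[q]))
    (𝒰 : Ultrafilter ℕ) (h𝒰 : (𝒰 : Filter ℕ) ≤ atTop) {ζ : Type} (O : ℕ → Finset ζ)
    (x : ℕ → ζ → κ → X3 p q) (y : ℕ → ζ → ℕ × ℕ → κ → X3 p q) (hc : Cnt p q 𝒰 O y)
    (w : ℕ → ζ → ℝ) (hw : ∀ i z, 0 ≤ w i z ∧ w i z ≤ 1)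
    (hy : ∀ i z, w i z ≠ 0 → y i z = yy p q M h (x i z)) (xt : ℕ → ζ → ℕ → κ → XN p N)
    (hx : ∀ᶠ i in 𝒰, ∀ z ∈ O i, ∀ v, covP p N (xt i z v) = piP p q (y i z (0, v)))
    (ω : ℕ → ζ → ℕ → ℝ) (hω : ∀ i z v, 0 ≤ ω i z v ∧ ω i z v ≤ w i z)
    (Φ : (κ → XN p N) →ᵇ ℝ) :
    Tendsto (fun i => avg (O i) fun z => avg (sqr i) fun u => ω i z u.2 *
      (Φ (fun k => aP p (M * u.1) • xt i z u.2 k) - ∫ x, Φ x ∂mPN p N κ)) 𝒰 (𝓝 0) := by
  classical
  let S : ℕ → Finset (ζ × (ℕ × ℕ)) := fun i => O i ×ˢ sqr i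
  let n : ℕ → ℝ := fun i => (O i).card * (sqr i).card
  let ω' : ℕ → ζ × (ℕ × ℕ) → ℝ := fun i a => ω i a.1 a.2.2
  let w' : ℕ → ζ × (ℕ × ℕ) → ℝ := fun i a => w i a.1
  let Y : ℕ → ζ × (ℕ × ℕ) → κ → XN p N := fun i a k => aP p (M * a.2.1) • xt i a.1 a.2.2 k
  let Y' : ℕ → ζ × (ℕ × ℕ) → κ → XX p := fun i a => piP p q (y i a.1 a.2)
  have hω0 : ∀ i a, 0 ≤ ω' i a := fun i a => (hω i a.1 a.2.2).1
  have hw0 : ∀ i a, 0 ≤ w' i a := fun i a => (hw i a.1).1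
  have hs : ∀ i, (0 : ℝ) < (sqr i).card := fun i => by rw [ust_card]; positivity
  have hn0 : ∀ i, 0 ≤ n i := fun i => mul_nonneg (Nat.cast_nonneg _) (hs i).le
  have hT0 : ∀ i, 0 ≤ ∑ a ∈ S i, ω' i a := fun i => Finset.sum_nonneg fun a _ => hω0 i a
  have hT1 : ∀ i, ∑ a ∈ S i, ω' i a ≤ ∑ a ∈ S i, w' i a := fun i =>
    Finset.sum_le_sum fun a _ => (hω i a.1 a.2.2).2
  have hT2 : ∀ i, ∑ a ∈ S i, w' i a ≤ n i := fun i => by
    have := Finset.sum_le_card_nsmul (S i) (w' i) 1 fun a _ => (hw i a.1).2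
    rwa [nsmul_eq_mul, mul_one, Finset.card_product, Nat.cast_mul] at this
  have hgoal : ∀ i, (avg (O i) fun z => avg (sqr i) fun u => ω i z u.2 *
      (Φ (fun k => aP p (M * u.1) • xt i z u.2 k) - ∫ x, Φ x ∂mPN p N κ)) =
      (∑ a ∈ S i, ω' i a * (Φ (Y i a) - ∫ x, Φ x ∂mPN p N κ)) / n i := fun i => vs3_avg _ _ _
  simp only [hgoal]
  by_cases hcase : ∃ c : ℝ, 0 < c ∧ ∀ᶠ i in 𝒰, c ≤ (∑ a ∈ S i, ω' i a) / n i
  swap
  · have h1 : Tendsto (fun i => (∑ a ∈ S i, ω' i a) / n i) 𝒰 (𝓝 0) := by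
      refine tendsto_order.2 ⟨fun a ha => Eventually.of_forall fun i =>
        ha.trans_le (div_nonneg (hT0 i) (hn0 i)), fun a ha => ?_⟩
      have h2 : ¬ ∀ᶠ i in 𝒰, a ≤ (∑ a ∈ S i, ω' i a) / n i := fun h2 => hcase ⟨a, ha, h2⟩
      exact (Ultrafilter.eventually_not.2 h2).mono fun i hi => not_le.1 hi
    have h2 := h1.mul_const (2 * ‖Φ‖)
    rw [zero_mul] at h2
    refine squeeze_zero_norm (fun i => ?_) h2
    rw [Real.norm_eq_abs, abs_div, abs_of_nonneg (hn0 i), div_mul_eq_mul_div, Finset.sum_mul]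
    refine div_le_div_of_nonneg_right ((Finset.abs_sum_le_sum_abs _ _).trans
      (Finset.sum_le_sum fun a _ => ?_)) (hn0 i)
    rw [abs_mul, abs_of_nonneg (hω0 i a)]
    refine mul_le_mul_of_nonneg_left ((abs_sub _ _).trans ?_) (hω0 i a)
    have h4 : |Φ (Y i a)| ≤ ‖Φ‖ := Φ.norm_coe_le_norm _
    have h5 : |∫ x, Φ x ∂mPN p N κ| ≤ ‖Φ‖ := Φ.norm_integral_le_norm (mPN p N κ)
    linarith
  obtain ⟨c, hc0, hcw⟩ := hcase
  have hev : ∀ᶠ i in 𝒰, 0 < n i ∧ c * n i ≤ ∑ a ∈ S i, ω' i a ∧ 0 < ∑ a ∈ S i, ω' i a ∧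
      0 < ∑ a ∈ S i, w' i a := by
    refine hcw.mono fun i hi => ?_
    have h1 : 0 < n i := by
      refine lt_of_le_of_ne (hn0 i) fun h0 => ?_
      rw [← h0, div_zero] at hi
      exact absurd hc0 (not_lt.2 hi)
    have h2 := (le_div_iff₀ h1).1 hi
    have h3 := (mul_pos hc0 h1).trans_le h2
    exact ⟨h1, h2, h3, h3.trans_le (hT1 i)⟩
  let μ : ℕ → Measure (κ → XN p N) := fun i =>
    vs3M (S i) (ω' i) (Y i) fun _ => ((1 : GG p) : XN p N)
  let lam : ℕ → Measure (κ → XX p) := fun i =>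
    vs3M (S i) (w' i) (Y' i) fun _ => ((1 : GG p) : XX p)
  have hμ : ∀ i, IsProbabilityMeasure (μ i) := fun i => vs3_prob _ (hω0 i) _ _
  have hlam : ∀ i, IsProbabilityMeasure (lam i) := fun i => vs3_prob _ (hw0 i) _ _
  have hWT : WT 𝒰 lam (mP p κ) := fun f => by
    have h1 := (tendsto_zero_iff_norm_tendsto_zero.1
      (st3 hpq hM h 𝒰 h𝒰 O x y hc w hw hy f)).const_mul c⁻¹
    rw [mul_zero] at h1
    refine tendsto_sub_nhds_zero_iff.1 (squeeze_zero_norm' (hev.mono fun i hi => ?_) h1)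
    obtain ⟨h2, h3, -, h5⟩ := hi
    simp only [vs3_avg_mul (hs i)]
    rw [vs3_avg, vs3_dev (hw0 i) h5 (Y' i) (fun _ => ((1 : GG p) : XX p)) f, norm_mul,
      ← mul_assoc]
    refine le_mul_of_one_le_left (norm_nonneg _) ?_
    rw [Real.norm_of_nonneg (div_nonneg h5.le h2.le), ← div_eq_inv_mul, one_le_div hc0,
      le_div_iff₀ h2]
    exact h3.trans (hT1 i)
  have key := lift_A hN hM 𝒰 h𝒰 μ lam hWT (C := ENNReal.ofReal c⁻¹) ENNReal.ofReal_ne_top ?_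
    (fun f => ?_) Φ
  · have h1 := tendsto_sub_nhds_zero_iff.2 key
    refine squeeze_zero_norm' (hev.mono fun i hi => ?_) (tendsto_zero_iff_norm_tendsto_zero.1 h1)
    obtain ⟨h2, -, h4, -⟩ := hi
    rw [vs3_dev (hω0 i) h4 (Y i) (fun _ => ((1 : GG p) : XN p N)) Φ, norm_mul,
      Real.norm_of_nonneg (div_nonneg h4.le h2.le)]
    exact mul_le_of_le_one_left (norm_nonneg _) ((div_le_one h2).2 ((hT1 i).trans (hT2 i)))
  · filter_upwards [hev, hx] with i hi hxi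
    obtain ⟨h2, h3, h4, h5⟩ := hi
    simp only [μ, lam]
    rw [vs3_eq h4, vs3_eq h5]
    refine vs3_le _ (continuous_covP p N).measurable (inv_nonneg.2 hc0.le) (fun a _ => ?_)
      fun a ha h0 => ?_
    · rw [← div_eq_inv_mul, div_div]
      refine div_le_div₀ (hw0 i a) (hω i a.1 a.2.2).2 (mul_pos h5 hc0) (le_trans ?_ h3)
      rw [mul_comm]
      exact mul_le_mul_of_nonneg_left (hT2 i) hc0.le
    · have h6 : ω i a.1 a.2.2 ≠ 0 := fun e => h0 (by simp only [ω', e, zero_div])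
      have h7 : w i a.1 ≠ 0 := fun e =>
        h6 (le_antisymm (e ▸ (hω i a.1 a.2.2).2) (hω i a.1 a.2.2).1)
      have h8 := hxi a.1 (Finset.mem_product.1 ha).1 a.2.2
      simp only [Y']
      rw [hy i a.1 h7] at h8 ⊢
      rw [vs3_piP, ← h8]
      funext k
      exact cov_smul p N _ _
  · have hz : Tendsto (fun i : ℕ => 2 * ‖f‖ / c * (1 / ((i : ℝ) + 1))) 𝒰 (𝓝 0) := by
      have h1 := (tendsto_one_div_add_atTop_nhds_zero_nat (𝕜 := ℝ)).const_mul (2 * ‖f‖ / c)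
      rw [mul_zero] at h1
      exact h1.mono_left h𝒰
    refine squeeze_zero_norm' (hev.mono fun i hi => ?_) hz
    obtain ⟨h2, h3, h4, -⟩ := hi
    simp only [μ]
    rw [vs3_int (hω0 i) h4, vs3_int (hω0 i) h4, ← sub_div, ← Finset.sum_sub_distrib,
      Real.norm_eq_abs, abs_div, abs_of_pos h4, div_le_iff₀ h4, Finset.sum_product]
    have h5 : ∀ z ∈ O i, |∑ u ∈ sqr i, (ω' i (z, u) *
        f ((fun _ => aP p M : κ → GG p) • Y i (z, u)) - ω' i (z, u) * f (Y i (z, u)))| ≤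
        (i + 1) * (2 * ‖f‖) := fun z _ => by
      have h6 : ∀ u : ℕ × ℕ, (fun _ => aP p M : κ → GG p) • Y i (z, u) =
          Y i (z, (u.1 + 1, u.2)) := fun u => by
        funext k
        simp only [Y, Pi.smul_apply']
        rw [← mul_smul, ← ug_aP_add, Nat.mul_succ, add_comm]
      simp only [h6]
      refine ust_tel1 i (fun u => ω' i (z, u) * f (Y i (z, u))) fun u => ?_
      rw [abs_mul, abs_of_nonneg (hω0 i _)]
      exact (mul_le_of_le_one_left (abs_nonneg _) ((hω i z u.2).2.trans (hw i z).2)).trans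
        (f.norm_coe_le_norm _)
    refine (Finset.abs_sum_le_sum_abs _ _).trans ((Finset.sum_le_card_nsmul _ _ _ h5).trans ?_)
    refine le_trans (le_of_eq ?_) (mul_le_mul_of_nonneg_left h3 (by positivity))
    simp only [n]
    rw [nsmul_eq_mul, ust_card]
    have h7 : (0 : ℝ) < i + 1 := by positivity
    field_simp

/-- The test function of a type. -/
def vs3_Phi (hN : 0 < N) (g : κ → GG p) (φ : κ → (ℍ →ᵇ ℝ)) (hφ : ∀ k, GInv N (φ k)) :
    (κ → XN p N) →ᵇ ℝ :=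
  ∏ k, BoundedContinuousFunction.ofNormedAddCommGroup (fun x => φ k (ptX p N (g k • x k)))
    (((hφ k).continuous hN (φ k).continuous).comp
      ((continuous_const_smul (g k)).comp (continuous_apply k))) ‖φ k‖
    fun _ => (φ k).norm_coe_le_norm _

theorem vs3_Phi_apply (hN : 0 < N) (g : κ → GG p) (φ : κ → (ℍ →ᵇ ℝ)) (hφ : ∀ k, GInv N (φ k))
    (x : κ → XN p N) : vs3_Phi hN g φ hφ x = ∏ k, φ k (ptX p N (g k • x k)) := by
  simp [vs3_Phi]

theorem vs3_type (hN : 0 < N) (hpq : p ≠ q) {M : ℕ} (hM : 0 < M) (𝒰 : Ultrafilter ℕ)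
    (h𝒰 : (𝒰 : Filter ℕ) ≤ atTop) {ζ : Type} (O : ℕ → Finset ζ) (x : ℕ → ζ → κ → X3 p q)
    (hp : ℕ → ζ → κ → SL(2, ℚ_[p])) (hq : ℕ → ζ → κ → SL(2, ℚ_[q]))
    (hc : Cnt p q 𝒰 O fun i z => yy p q M (hq i z) (x i z)) (xt : ℕ → ζ → ℕ → κ → XN p N)
    (hx : ∀ᶠ i in 𝒰, ∀ z ∈ O i, ∀ v,
      covP p N (xt i z v) = piP p q (yy p q M (hq i z) (x i z) (0, v)))
    (a : ℕ → ζ → ℕ → κ → SL(2, ℚ_[p])) (ha : ∀ i z v k, a i z v k ∈ Kp p)
    (φ : κ → (ℍ →ᵇ ℝ)) (hφ : ∀ k, GInv N (φ k))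
    (t : (κ → SL(2, ℚ_[p])) × (κ → SL(2, ℚ_[q]))) (w : ℕ → ζ → ℝ)
    (hw : ∀ i z, 0 ≤ w i z ∧ w i z ≤ 1) (ht : ∀ i z, w i z ≠ 0 → (hp i z, hq i z) = t) :
    Tendsto (fun i => avg (O i) fun z => w i z * (avg (sqr i) (fun u => ∏ k,
      φ k (ptX p N (((1, a i z u.2 k * hp i z k) : GG p) • aP p (M * u.1) • xt i z u.2 k))) -
        ∏ k, IN N (φ k))) 𝒰 (𝓝 0) := by
  classical
  obtain ⟨R, -, hR⟩ := KN_reps (p := p) hN
  choose r hr hr' using fun i z v k => hR _ (ha i z v k)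
  have h1 := tendsto_finsetSum (Fintype.piFinset fun _ : κ => R) fun s _ =>
    st3N hN hpq hM t.2 𝒰 h𝒰 O x _ hc w hw (fun i z hz => by rw [← ht i z hz]) xt hx
      (fun i z v => if r i z v = s then w i z else 0)
      (fun i z v => by
        split_ifs
        · exact ⟨(hw i z).1, le_rfl⟩
        · exact ⟨le_rfl, (hw i z).1⟩)
      (vs3_Phi hN (fun k => ((1, s k * t.1 k) : GG p)) φ hφ)
  simp only [Finset.sum_const_zero] at h1
  refine h1.congr fun i => ?_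
  rw [vs3_avg_sum]
  refine congrArg (avg (O i)) (funext fun z => ?_)
  rw [vs3_avg_sum, vs3_avg_mul (by rw [ust_card]; positivity)]
  refine congrArg (avg (sqr i)) (funext fun u => ?_)
  rw [Finset.sum_eq_single_of_mem (r i z u.2) (Fintype.mem_piFinset.2 (hr i z u.2))
    fun s _ hn => by rw [if_neg (Ne.symm hn), zero_mul], if_pos rfl]
  by_cases hz : w i z = 0
  · rw [hz, zero_mul, zero_mul]
  · simp only [vs3_Phi_apply]
    rw [integral_mPN_prod hN _ hφ, ← ht i z hz]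
    congr 2
    refine Finset.prod_congr rfl fun k _ => ?_
    rw [← (hφ k).ptX_K hN (hr' i z u.2 k), ← mul_smul ((1, _) : GG p) ((1, _) : GG p),
      Prod.mk_mul_mk, one_mul, ← mul_assoc, inv_mul_cancel_right]

theorem st3N' (hN : 0 < N) (hpq : p ≠ q) {M : ℕ} (hM : 0 < M) (𝒰 : Ultrafilter ℕ)
    (h𝒰 : (𝒰 : Filter ℕ) ≤ atTop) {ζ : Type} (O : ℕ → Finset ζ) (x : ℕ → ζ → κ → X3 p q)
    (T : Finset SL(2, ℚ_[p])) (T' : Finset SL(2, ℚ_[q])) (hp : ℕ → ζ → κ → SL(2, ℚ_[p]))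
    (hq : ℕ → ζ → κ → SL(2, ℚ_[q]))
    (hT : ∀ᶠ i in 𝒰, ∀ z ∈ O i, ∀ k, hp i z k ∈ T ∧ hq i z k ∈ T')
    (hc : Cnt p q 𝒰 O fun i z => yy p q M (hq i z) (x i z)) (xt : ℕ → ζ → ℕ → κ → XN p N)
    (hx : ∀ᶠ i in 𝒰, ∀ z ∈ O i, ∀ v,
      covP p N (xt i z v) = piP p q (yy p q M (hq i z) (x i z) (0, v)))
    (a : ℕ → ζ → ℕ → κ → SL(2, ℚ_[p])) (ha : ∀ i z v k, a i z v k ∈ Kp p)
    (ψ : ℕ → ζ → ℝ) {B : ℝ} (hψ : ∀ i z, |ψ i z| ≤ B) (φ : κ → (ℍ →ᵇ ℝ))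
    (hφ : ∀ k, GInv N (φ k)) :
    Tendsto (fun i => avg (O i) fun z => ψ i z * (avg (sqr i) (fun u => ∏ k,
      φ k (ptX p N (((1, a i z u.2 k * hp i z k) : GG p) • aP p (M * u.1) • xt i z u.2 k))) -
        ∏ k, IN N (φ k))) 𝒰 (𝓝 0) := by
  classical
  have hB : 0 < |B| + 1 := by positivity
  have hle : ∀ i z, |ψ i z| ≤ |B| + 1 := fun i z =>
    (hψ i z).trans ((le_abs_self B).trans (by linarith))
  let S := Fintype.piFinset (fun _ : κ => T) ×ˢ Fintype.piFinset (fun _ : κ => T')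
  let W : (ℕ → ζ → ℝ) → ((κ → SL(2, ℚ_[p])) × (κ → SL(2, ℚ_[q]))) → ℕ → ζ → ℝ :=
    fun φ t i z => if (hp i z, hq i z) = t then max (φ i z) 0 / (|B| + 1) else 0
  have hW : ∀ φ : ℕ → ζ → ℝ, (∀ i z, φ i z ≤ |B| + 1) → ∀ t i z,
      0 ≤ W φ t i z ∧ W φ t i z ≤ 1 := fun φ hφ t i z => by
    simp only [W]
    split_ifs
    · exact ⟨div_nonneg (le_max_right _ _) hB.le,
        (div_le_one hB).2 (max_le (hφ i z) hB.le)⟩
    · exact ⟨le_rfl, zero_le_one⟩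
  have hW' : ∀ φ t i z, W φ t i z ≠ 0 → (hp i z, hq i z) = t := fun φ t i z hz => by
    by_contra hn
    exact hz (if_neg hn)
  have h1 := tendsto_finsetSum S fun t _ =>
    ((vs3_type hN hpq hM 𝒰 h𝒰 O x hp hq hc xt hx a ha φ hφ t (W ψ t)
      (hW ψ (fun i z => (le_abs_self _).trans (hle i z)) t) (hW' ψ t)).sub
    (vs3_type hN hpq hM 𝒰 h𝒰 O x hp hq hc xt hx a ha φ hφ t (W (fun i z => -ψ i z) t)
      (hW _ (fun i z => (neg_le_abs _).trans (hle i z)) t) (hW' _ t))).const_mul (|B| + 1)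
  simp only [sub_zero, mul_zero, Finset.sum_const_zero] at h1
  refine h1.congr' (hT.mono fun i hi => ?_)
  beta_reduce
  rw [ust2_avg_sum]
  simp only [avg]
  congr 1
  refine Finset.sum_congr rfl fun z hz => ?_
  have hm : (hp i z, hq i z) ∈ S := Finset.mem_product.2
    ⟨Fintype.mem_piFinset.2 fun k => (hi z hz k).1, Fintype.mem_piFinset.2 fun k => (hi z hz k).2⟩
  rw [Finset.sum_eq_single_of_mem _ hm fun t _ hn => by
    simp only [W, if_neg (Ne.symm hn), zero_mul, sub_zero, mul_zero]]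
  simp only [W, if_true]
  rw [← sub_mul, ← mul_assoc, ← sub_div, mul_div_cancel₀ _ hB.ne', max_zero_sub_max_neg_zero_eq_self]

end Pool.Agent.EQ
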