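import Pool.Agent.P.MP_ad7a55_nt.VCl
import Pool.Agent.P.MP_ad7a55_nt.VH2
import Pool.Agent.P.MP_ad7a55_nt.VS3

/-! One step of the induction: diagonal case. -/

set_option autoImplicit false

noncomputable section

open MeasureTheory Topology Filter UpperHalfPlane
open scoped MatrixGroups ENNReal BoundedContinuousFunction

namespace Pool.Agent.EQ

variable {n : ℕ} {N : ℕ} {F : IntermediateField ℚ ℂ} {τ : ℕ → Fin n → ℍ}
  {D : ℕ → Fin n → ℤ} {φ : Fin n → (ℍ →ᵇ ℝ)} {I : Finset (Fin n)}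
  {ψ : ℕ → (Fin n × Fn → ℂ) → ℝ}

theorem stepD (hN : 0 < N) [FiniteDimensional ℚ F] {𝒰 : Ultrafilter ℕ}
    (h𝒰 : (𝒰 : Filter ℕ) ≤ atTop) (hC : Cls 𝒰 τ D I) (hI : I.Nonempty)
    (hφ : ∀ k, Tst N F (φ k)) (hψ : WtN 𝒰 D I ψ) (p q : ℕ) [Fact p.Prime] [Fact q.Prime]
    (hpq : p ≠ q) (h2 : p ≠ 2) (h2' : q ≠ 2) {c : ℕ} {L : ℝ}
    (hc : ∀ᶠ i in 𝒰, ∀ k ∈ I, Low L (D i k) ∧ (∃ κ ≤ c, Spl p κ (D i k)) ∧
      ∃ κ ≤ c, Spl q κ (D i k)) : Eqd 𝒰 N F τ φ I ψ := by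
  classical
  obtain ⟨j, hj⟩ := hI
  have hD := hC.disc
  obtain ⟨M, T, T', B₁, hM, hT, h4⟩ := exists_fdN p q hN hpq h2 h2' F n c
  choose ρ rp' rq x hp hq σ xt a σ' ha h5 using fun i => h4 (τ i) (D i) j I (hD i) hj
  obtain ⟨B₂, hB₂⟩ := tst_rp hN F
  have h6 : ∀ᶠ i in 𝒰, FD p q F (fun k => jInv (τ i k)) (D i) j I M T T' (ρ i) (rp' i) (rq i)
      (x i) (hp i) (hq i) (σ i) ∧
      FDN p q N F (ON N F (τ i)) (D i) j I M (x i) (hp i) (hq i) (xt i) (a i) (σ' i) := by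
    filter_upwards [hC.big, hC.sq, hc, hC.inf B₁] with i a1 a2 a3 a4
    exact h5 i a1 fun k hk => ⟨a2 k hk j hj, (a3 k hk).2.1, (a3 k hk).2.2, a4 k hk⟩
  have h7 := cnt_fd2 hpq h2 F τ D hD 𝒰 j I hC.noi hC.big hC.inf (L := L) hT
    (hc.mono fun i a3 k hk => ⟨(a3 k hk).1, (a3 k hk).2.1⟩) (h6.mono fun i b => b.1)
  obtain ⟨B, hB⟩ := hψ.bd
  have h8 := st3N' hN hpq hM 𝒰 h𝒰 (fun i => ON N F (τ i)) (fun i z => x i (pj z)) T T'
    (fun i z => hp i (pj z)) (fun i z => hq i (pj z)) (by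
      filter_upwards [h6] with i b z hz k
      exact b.1.mem _ (pj_mem hN ((mem_ON hN (hD i)).1 hz)) k) (Cnt.pull hN hD h7) xt
    (h6.mono fun i b => b.2.cv) a ha ψ hB (fun k : I => φ k) fun k => (hφ k).ginv
  refine h8.congr' ?_
  filter_upwards [h6, hψ.oth, hC.inf B₂] with i b b2 b3
  have hs : ((sqr i).card : ℝ) ≠ 0 := by
    have : (sqr i).Nonempty := ⟨(0, 0), by simp [sqr]⟩
    exact_mod_cast this.card_pos.ne'
  have e1 : ∀ z ∈ ON N F (τ i), ∀ u : ℕ × ℕ, ψ i z * ∏ k : I, φ k (ptX p N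
      (((1, a i z u.2 k * hp i (pj z) k) : GG p) • aP p (M * u.1) • xt i z u.2 k)) =
        ψ i (fun k => σ' i u (z k)) * PT N F φ I fun k => σ' i u (z k) := by
    intro z hz u
    have hz' := galO_map ((mem_ON hN (hD i)).1 hz) (b.2.fix u)
    rw [PT, ← Finset.prod_coe_sort I]
    refine congrArg₂ (· * ·) (b2 _ _ fun k hk f => (b.2.out z hz u k (hk j hj) f).symm)
      (Finset.prod_congr rfl fun k _ => ?_)
    exact hB₂ n (τ i) (D i) (hD i) _ hz' k (b3 k k.2) _ (b.2.val z hz u k) _ (hφ k)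
  have e2 : ∑ z ∈ ON N F (τ i), ψ i z * avg (sqr i) (fun u => ∏ k : I, φ k (ptX p N
      (((1, a i z u.2 k * hp i (pj z) k) : GG p) • aP p (M * u.1) • xt i z u.2 k))) =
      ∑ z ∈ ON N F (τ i), ψ i z * PT N F φ I z := by
    have e3 : ∀ z ∈ ON N F (τ i), ψ i z * avg (sqr i) (fun u => ∏ k : I, φ k (ptX p N
        (((1, a i z u.2 k * hp i (pj z) k) : GG p) • aP p (M * u.1) • xt i z u.2 k))) =
        (∑ u ∈ sqr i, ψ i (fun k => σ' i u (z k)) * PT N F φ I fun k => σ' i u (z k)) /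
          (sqr i).card := by
      intro z hz
      rw [avg, ← mul_div_assoc, Finset.mul_sum, Finset.sum_congr rfl fun u _ => e1 z hz u]
    rw [Finset.sum_congr rfl e3, ← Finset.sum_div, Finset.sum_comm, ON,
      Finset.sum_congr rfl fun u _ => sum_galO (b.2.fix u) fun z => ψ i z * PT N F φ I z,
      Finset.sum_const, nsmul_eq_mul, mul_div_cancel_left₀ _ hs]
  rw [Finset.prod_coe_sort I fun k => IN N (φ k)]
  simp only [mul_sub]
  rw [avg, avg, Finset.sum_sub_distrib, Finset.sum_sub_distrib, e2]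

end Pool.Agent.EQ
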