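import Pool.Agent.P.MP_ad7a55_nt.VI1
import Pool.Agent.P.MP_ad7a55_nt.VI2

/-! Equidistribution for one class. -/

set_option autoImplicit false

noncomputable section

open MeasureTheory Topology Filter UpperHalfPlane
open scoped MatrixGroups ENNReal BoundedContinuousFunction

namespace Pool.Agent.EQ

variable {n : ℕ} {N : ℕ} {F : IntermediateField ℚ ℂ} {τ : ℕ → Fin n → ℍ}
  {D : ℕ → Fin n → ℤ} {φ : Fin n → (ℍ →ᵇ ℝ)} {I : Finset (Fin n)}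
  {ψ : ℕ → (Fin n × Fn → ℂ) → ℝ}

theorem vi3_step {L : Filter ℕ} (hI : I.Nonempty) (h : Eqd L N F τ φ I ψ) :
    StepN L N F τ φ I ψ := by
  refine ⟨I, subset_rfl, hI, ?_⟩
  have h1 : ∀ z, PT N F φ (I \ I) z = 1 := fun z => by
    rw [Finset.sdiff_self, PT, Finset.prod_empty]
  simp only [h1, mul_one]
  exact h

theorem clsA (hN : 0 < N) [FiniteDimensional ℚ F] {𝒰 : Ultrafilter ℕ}
    (h𝒰 : (𝒰 : Filter ℕ) ≤ atTop) (hC : Cls 𝒰 τ D I) (hφ : ∀ k, Tst N F (φ k))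
    (hψ : WtN 𝒰 D I ψ) (S : Finset ℕ) (hS : ∀ p ∈ S, p.Prime) {η : ℝ} (hη : 0 < η)
    (hdom : ∀ᶠ i in 𝒰, ∀ k ∈ I,
      |(D i k : ℝ)| ^ η ≤ ∏ p ∈ S, (p : ℝ) ^ padicValInt p (D i k)) : Eqd 𝒰 N F τ φ I ψ := by
  classical
  have hneg : ∀ i k, D i k < 0 := fun i k => (hC.disc i k).isD.1
  refine eqd_of_step fun J hJI hJ => ?_
  obtain ⟨j₀, hj₀, h0⟩ := ultra_max 𝒰 hJ fun i k => -(D i k : ℝ)
  have hA : ∀ᶠ i in 𝒰,
      |(D i j₀ : ℝ)| ^ η ≤ ∏ p ∈ S, (p : ℝ) ^ padicValInt p (D i j₀) :=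
    hdom.mono fun i hi => hi j₀ (hJI hj₀)
  have hSne : S.Nonempty := by
    rcases S.eq_empty_or_nonempty with rfl | h
    · obtain ⟨i, h1, h2⟩ := (hA.and (hC.inf 2)).exists
      rw [Finset.prod_empty] at h1
      have h3 : 1 < |(D i j₀ : ℝ)| := by linarith [h2 j₀ (hJI hj₀), neg_le_abs (D i j₀ : ℝ)]
      exact absurd (Real.one_lt_rpow h3 hη) (not_lt.2 h1)
    · exact h
  have hSc : (0 : ℝ) < S.card := by exact_mod_cast hSne.card_pos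
  obtain ⟨p, hp, h1⟩ := ultra_max 𝒰 hSne fun i p => (p : ℝ) ^ padicValInt p (D i j₀)
  obtain ⟨j, hj, h2⟩ := ultra_max 𝒰 hJ fun i k => padicValInt p (D i k)
  have : Fact p.Prime := ⟨hS p hp⟩
  have hp1 : (1 : ℝ) < p := by exact_mod_cast (hS p hp).one_lt
  refine stepU_a hN h𝒰 (hC.mono hJI) hφ (hψ.mono hJI) p hj h2 (div_pos hη hSc) ?_
  filter_upwards [h0, h1, h2, hA] with i h0 h1 h2 h3 k hk
  have h4 : (D i j₀ : ℝ) < 0 := by exact_mod_cast hneg i j₀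
  have h5 : (D i k : ℝ) < 0 := by exact_mod_cast hneg i k
  have h6 : (-(D i k : ℝ)) ^ η ≤ ((p : ℝ) ^ padicValInt p (D i j)) ^ S.card := by
    refine (Real.rpow_le_rpow (by linarith) (h0 k hk) hη.le).trans ?_
    rw [← abs_of_neg h4]
    refine h3.trans ?_
    rw [← Finset.prod_const]
    exact Finset.prod_le_prod (fun _ _ => by positivity) fun q hq =>
      (h1 q hq).trans (pow_le_pow_right₀ hp1.le (h2 j₀ hj₀))
  have h7 : (-(D i k : ℝ)) ^ (η / S.card) ≤ (p : ℝ) ^ padicValInt p (D i j) := by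
    rw [div_eq_mul_inv, Real.rpow_mul (by linarith)]
    refine (Real.rpow_le_rpow (Real.rpow_nonneg (by linarith) _) h6 (by positivity)).trans ?_
    rw [Real.pow_rpow_inv_natCast (by positivity) hSne.card_pos.ne']
  rw [norm_int_eq p (hneg i j).ne, zpow_neg, zpow_natCast, Real.rpow_neg (by linarith)]
  exact inv_anti₀ (Real.rpow_pos_of_pos (by linarith) _) h7

theorem clsC (hN : 0 < N) [FiniteDimensional ℚ F] {𝒰 : Ultrafilter ℕ}
    (h𝒰 : (𝒰 : Filter ℕ) ≤ atTop) (hC : Cls 𝒰 τ D I) (hφ : ∀ k, Tst N F (φ k))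
    (hψ : WtN 𝒰 D I ψ) (p q : ℕ) [Fact p.Prime] [Fact q.Prime]
    (hpq : p ≠ q) (h2 : p ≠ 2) (h2' : q ≠ 2) {L : ℝ}
    (hc : ∀ᶠ i in 𝒰, ∀ k ∈ I, Low L (D i k) ∧ (∃ κ, Spl p κ (D i k)) ∧ ∃ κ, Spl q κ (D i k)) :
    Eqd 𝒰 N F τ φ I ψ := by
  classical
  refine eqd_of_step fun J hJI hJ => ?_
  have key : ∀ (l : ℕ) [Fact l.Prime], StepN 𝒰 N F τ φ J ψ ∨
      ∃ c : ℕ, ∀ᶠ i in 𝒰, ∀ k ∈ J, padicValInt l (D i k) ≤ c := by
    intro l _
    obtain ⟨j, hjI, h4⟩ := ultra_max 𝒰 hJ fun i k => padicValInt l (D i k)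
    by_cases h5 : Tendsto (fun i => padicValInt l (D i j)) 𝒰 atTop
    · exact Or.inl (stepU_L hN h𝒰 (hC.mono hJI) hφ (hψ.mono hJI) l hjI h4 h5 (L := L)
        (hc.mono fun i hi k hk => (hi k (hJI hk)).1))
    · rw [tendsto_atTop] at h5
      push Not at h5
      obtain ⟨c, h5⟩ := h5
      refine Or.inr ⟨c, ?_⟩
      filter_upwards [h4, h5] with i b1 b2 k hk
      exact (b1 k hk).trans b2.le
  rcases key p with h | ⟨c, h4⟩
  · exact h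
  rcases key q with h | ⟨c', h5⟩
  · exact h
  refine vi3_step hJ (stepD hN h𝒰 (hC.mono hJI) hJ hφ (hψ.mono hJI) p q hpq h2 h2'
    (c := max c c') (L := L) ?_)
  filter_upwards [h4, h5, hc] with i b2 b3 b4 k hk
  obtain ⟨b5, ⟨e, b6⟩, e', b7⟩ := b4 k (hJI hk)
  have c1 := b2 k hk
  have c2 := b3 k hk
  rw [Spl.val p b6] at c1
  rw [Spl.val q b7] at c2
  exact ⟨b5, ⟨e, by omega, b6⟩, e', by omega, b7⟩

end Pool.Agent.EQ
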