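import Pool.Agent.P.MP_ad7a55_nt.VPt
import Pool.Agent.P.MP_ad7a55_nt.Frame
import Pool.Agent.P.MP_ad7a55_nt.Star
import Pool.Agent.P.MP_ad7a55_nt.GalA
import Pool.Agent.P.MP_ad7a55_nt.CM

/-! Sublattices of level N and complex multiplications. -/

set_option autoImplicit false

noncomputable section

open MeasureTheory Topology Filter UpperHalfPlane
open scoped MatrixGroups ENNReal BoundedContinuousFunction

namespace Pool.Agent.EQ

variable (p : ℕ) [Fact p.Prime]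

/-- The sublattice cut out by a linear form modulo `N`. -/
def latA (N : ℕ) (α β : ℤ) (g : GG p) : Lt where
  carrier := {z | ∃ a b : ℚ, InZp p a ∧ InZp p b ∧ InZp p ((α * a + β * b) / N) ∧
    (∀ i, ‖g.2 i 0 * a + g.2 i 1 * b‖ ≤ 1) ∧
    ‖α * (g.2 0 0 * a + g.2 0 1 * b) + β * (g.2 1 0 * a + g.2 1 1 * b)‖ ≤ ‖(N : ℚ_[p])‖ ∧
    z = frame_ph g.1 a b}
  zero_mem' := ⟨0, 0, by simpa using inZp_int p 0, by simpa using inZp_int p 0,
    by simpa using inZp_int p 0, fun _ => by simp, by simp, by simp [frame_ph]⟩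
  add_mem' := by
    rintro _ _ ⟨a, b, h1, h2, h3, h4, h5, rfl⟩ ⟨a', b', h1', h2', h3', h4', h5', rfl⟩
    refine ⟨a + a', b + b', h1.add h1', h2.add h2', ?_, fun i => ?_, ?_, ?_⟩
    · refine (congrArg (InZp p) ?_).mp (h3.add h3')
      ring
    · refine le_trans (le_of_eq ?_) ((Padic.nonarchimedean _ _).trans (max_le (h4 i) (h4' i)))
      congr 1; push_cast; ring
    · refine le_trans (le_of_eq ?_) ((Padic.nonarchimedean _ _).trans (max_le h5 h5'))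
      congr 1; push_cast; ring
    · simp only [frame_ph]; push_cast; ring
  smul_mem' := by
    rintro n _ ⟨a, b, h1, h2, h3, h4, h5, rfl⟩
    have hn := Padic.norm_int_le_one (p := p) n
    refine ⟨n * a, n * b, (inZp_int p n).mul h1, (inZp_int p n).mul h2, ?_, fun i => ?_, ?_, ?_⟩
    · refine (congrArg (InZp p) ?_).mp ((inZp_int p n).mul h3)
      ring
    · have : ‖(n : ℚ_[p]) * (g.2 i 0 * a + g.2 i 1 * b)‖ ≤ 1 := by
        rw [norm_mul]; exact mul_le_one₀ hn (norm_nonneg _) (h4 i)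
      refine le_trans (le_of_eq ?_) this
      congr 1; push_cast; ring
    · have : ‖(n : ℚ_[p]) * (α * (g.2 0 0 * a + g.2 0 1 * b) + β * (g.2 1 0 * a + g.2 1 1 * b))‖ ≤
          ‖(N : ℚ_[p])‖ := by
        rw [norm_mul]; exact (mul_le_of_le_one_left (norm_nonneg _) hn).trans h5
      refine le_trans (le_of_eq ?_) this
      congr 1; push_cast; ring
    · simp only [zsmul_eq_mul, frame_ph]; push_cast; ring

/-- Multiplication by `w` has the matrix `V` in the frame `g`. -/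
def Rot (w : ℂ) (g : GG p) (V : SL(2, ℚ_[p])) : Prop :=
  ∃ W : SL(2, ℚ), (∀ a b : ℚ, w * frame_ph g.1 a b =
    frame_ph g.1 (W 0 0 * a + W 0 1 * b) (W 1 0 * a + W 1 1 * b)) ∧ V * g.2 = g.2 * (emb p W).2

/-- Multiplication by `th D` has the matrix `Θ` in the frame `g`. -/
def ThM (D : ℤ) (g : SL(2, ℝ)) (Θ : Matrix (Fin 2) (Fin 2) ℤ) : Prop :=
  (g : Matrix (Fin 2) (Fin 2) ℝ) * Θ.map (↑) =
    !![0, Real.sqrt (-(D : ℝ)); -Real.sqrt (-(D : ℝ)), 0] * (g : Matrix (Fin 2) (Fin 2) ℝ)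

variable {p} {N : ℕ} {w : ℂ} {g : GG p} {V : SL(2, ℚ_[p])}

theorem vla_two (g : GG p) (δ : SL(2, ℚ)) (i : Fin 2) (a b : ℚ) :
    (g.2 * (emb p δ).2) i 0 * a + (g.2 * (emb p δ).2) i 1 * b =
      g.2 i 0 * ((δ 0 0 * a + δ 0 1 * b : ℚ) : ℚ_[p]) +
        g.2 i 1 * ((δ 1 0 * a + δ 1 1 * b : ℚ) : ℚ_[p]) := by
  have e2 : ∀ j, (g.2 * (emb p δ).2) i j =
      g.2 i 0 * (δ 0 j : ℚ_[p]) + g.2 i 1 * (δ 1 j : ℚ_[p]) := by
    intro j
    simp [emb, Matrix.mul_apply, Fin.sum_univ_two]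
  rw [e2, e2]; push_cast; ring

theorem vla_ph (g : SL(2, ℝ)) (δ : SL(2, ℚ)) (a b : ℚ) :
    frame_ph (g * (emb p δ).1) a b =
      frame_ph g (δ 0 0 * a + δ 0 1 * b) (δ 1 0 * a + δ 1 1 * b) := by
  have e1 : ∀ i j, (g * (emb p δ).1) i j = g i 0 * (δ 0 j : ℝ) + g i 1 * (δ 1 j : ℝ) := by
    intro i j
    simp [emb, Matrix.mul_apply, Fin.sum_univ_two]
  simp only [frame_ph, e1]; push_cast; ring

theorem vla_mul {F : Type} [CommRing F] (W W' : SL(2, F)) (i : Fin 2) (a b : F) :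
    (W * W') i 0 * a + (W * W') i 1 * b =
      W i 0 * (W' 0 0 * a + W' 0 1 * b) + W i 1 * (W' 1 0 * a + W' 1 1 * b) := by
  simp only [Matrix.SpecialLinearGroup.coe_mul, Matrix.mul_apply, Fin.sum_univ_two]
  ring

/-- the conditions away from `p` -/
def vla_Q (p N : ℕ) (α β : ℤ) (a b : ℚ) : Prop :=
  InZp p a ∧ InZp p b ∧ InZp p ((α * a + β * b) / N)

/-- the conditions at `p` -/
def vla_P (N : ℕ) (α β : ℤ) (x y : ℚ_[p]) : Prop :=
  ‖x‖ ≤ 1 ∧ ‖y‖ ≤ 1 ∧ ‖α * x + β * y‖ ≤ ‖(N : ℚ_[p])‖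

theorem vla_mem {α β : ℤ} {z : ℂ} : z ∈ latA p N α β g ↔ ∃ a b : ℚ, vla_Q p N α β a b ∧
    vla_P N α β (g.2 0 0 * (a : ℚ_[p]) + g.2 0 1 * (b : ℚ_[p]))
      (g.2 1 0 * (a : ℚ_[p]) + g.2 1 1 * (b : ℚ_[p])) ∧ z = frame_ph g.1 a b := by
  constructor
  · rintro ⟨a, b, h1, h2, h3, h4, h5, h6⟩
    exact ⟨a, b, ⟨h1, h2, h3⟩, ⟨h4 0, h4 1, h5⟩, h6⟩
  · rintro ⟨a, b, ⟨h1, h2, h3⟩, ⟨h4, h4', h5⟩, h6⟩
    refine ⟨a, b, h1, h2, h3, fun i => ?_, h5, h6⟩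
    fin_cases i
    · exact h4
    · exact h4'

omit [Fact p.Prime] in
theorem vla_Q.mul {α β : ℤ} {a b c : ℚ} (h : vla_Q p N α β a b) (hc : InZp p c) :
    vla_Q p N α β (c * a) (c * b) :=
  ⟨hc.mul h.1, hc.mul h.2.1, (congrArg (InZp p) (by ring)).mp (hc.mul h.2.2)⟩

theorem vla_P.mul {α β : ℤ} {x y c x' y' : ℚ_[p]} (h : vla_P N α β x y) (hc : ‖c‖ ≤ 1)
    (hx : x' = c * x) (hy : y' = c * y) : vla_P N α β x' y' := by
  subst hx hy
  refine ⟨frame_mul_le p hc h.1, frame_mul_le p hc h.2.1, ?_⟩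
  rw [show α * (c * x) + β * (c * y) = c * (α * x + β * y) by ring, norm_mul]
  exact (mul_le_of_le_one_left (norm_nonneg _) hc).trans h.2.2

theorem vla_add {x y : ℚ_[p]} {r : ℝ} (hx : ‖x‖ ≤ r) (hy : ‖y‖ ≤ r) : ‖x + y‖ ≤ r :=
  (Padic.nonarchimedean _ _).trans (max_le hx hy)

theorem vla_mul_le {x y : ℚ_[p]} {r : ℝ} (hx : ‖x‖ ≤ 1) (hy : ‖y‖ ≤ r) : ‖x * y‖ ≤ r := by
  rw [norm_mul]
  exact (mul_le_of_le_one_left (norm_nonneg _) hx).trans hy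

theorem latA_zero (N : ℕ) (g : GG p) : latA p N 0 0 g = latG p g := by
  ext z
  rw [vla_mem, frame_mem_latG]
  constructor
  · rintro ⟨a, b, h1, h2, h3⟩
    exact ⟨a, b, h1.1, h1.2.1, h2.1, h2.2.1, h3⟩
  · rintro ⟨a, b, h1, h2, h3, h4, h5⟩
    exact ⟨a, b, ⟨h1, h2, by simpa using inZp_int p 0⟩, ⟨h3, h4, by simp⟩, h5⟩

theorem latA_le (N : ℕ) (α β : ℤ) (g : GG p) :
    latA p N α β g ≤ latG p g ∧ pr N * latG p g ≤ latA p N α β g := by
  constructor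
  · intro z hz
    obtain ⟨a, b, h1, h2, h3⟩ := vla_mem.1 hz
    exact (frame_mem_latG p).2 ⟨a, b, h1.1, h1.2.1, h2.1, h2.2.1, h3⟩
  · rw [pr_mul_le]
    intro z hz
    obtain ⟨a, b, h1, h2, h3, h4, rfl⟩ := (frame_mem_latG p).1 hz
    have hN : InZp p (N : ℚ) := by simpa using inZp_int p N
    have hN' : ‖(N : ℚ_[p])‖ ≤ 1 := by simpa using Padic.norm_int_le_one (p := p) N
    refine vla_mem.2 ⟨N * a, N * b, ⟨hN.mul h1, hN.mul h2, ?_⟩, ⟨?_, ?_, ?_⟩, ?_⟩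
    · rcases Nat.eq_zero_or_pos N with h0 | h0
      · simpa [h0] using inZp_int p 0
      · have h5 : (N : ℚ) ≠ 0 := by exact_mod_cast h0.ne'
        refine (congrArg (InZp p) ?_).mp (((inZp_int p α).mul h1).add ((inZp_int p β).mul h2))
        field_simp
    · refine le_trans (le_of_eq ?_) (frame_mul_le p hN' h3)
      congr 1; push_cast; ring
    · refine le_trans (le_of_eq ?_) (frame_mul_le p hN' h4)
      congr 1; push_cast; ring
    · refine le_trans (le_of_eq ?_) (vla_mul_le (frame_add_le p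
        (frame_mul_le p (Padic.norm_int_le_one α) h3)
        (frame_mul_le p (Padic.norm_int_le_one β) h4)) le_rfl)
      congr 1; push_cast; ring
    · rw [← frame_ph_mul]; simp

theorem vla_GN_le (α β : ℤ) (g : GG p) {γ : GG p} (hγ : γ ∈ GN p N) :
    latA p N α β (g * γ) ≤ latA p N α β g := by
  obtain ⟨δ, ⟨hδ, hδ'⟩, rfl⟩ := hγ
  intro z hz
  obtain ⟨a, b, ⟨ha, hb, hab⟩, h1, rfl⟩ := vla_mem.1 hz
  refine vla_mem.2 ⟨δ 0 0 * a + δ 0 1 * b, δ 1 0 * a + δ 1 1 * b,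
    ⟨((hδ 0 0).mul ha).add ((hδ 0 1).mul hb), ((hδ 1 0).mul ha).add ((hδ 1 1).mul hb), ?_⟩, ?_,
    vla_ph g.1 δ a b⟩
  · refine (congrArg (InZp p) ?_).mp ((hab.add ((inZp_int p α).mul
      (((hδ' 0 0).mul ha).add ((hδ' 0 1).mul hb)))).add ((inZp_int p β).mul
      (((hδ' 1 0).mul ha).add ((hδ' 1 1).mul hb))))
    simp only [Matrix.one_apply_eq, Matrix.one_apply_ne (show (0 : Fin 2) ≠ 1 by decide),
      Matrix.one_apply_ne (show (1 : Fin 2) ≠ 0 by decide)]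
    ring
  · rw [← vla_two, ← vla_two]
    exact h1

theorem latA_GN (α β : ℤ) (g : GG p) {γ : GG p} (hγ : γ ∈ GN p N) :
    latA p N α β (g * γ) = latA p N α β g := by
  refine le_antisymm (vla_GN_le α β g hγ) ?_
  have := vla_GN_le α β (g * γ) ((GN p N).inv_mem hγ)
  rwa [mul_inv_cancel_right] at this

theorem latG_left {k : SL(2, ℚ_[p])} (hk : k ∈ Kp p) (g : GG p) :
    latG p ((1, k) * g) = latG p g := by
  ext z
  rw [frame_mem_latG, frame_mem_latG, Prod.fst_mul, Prod.snd_mul, one_mul]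
  simp only [vla_mul]
  constructor
  · rintro ⟨a, b, h1, h2, h3, h4, h5⟩
    obtain ⟨h6, h7⟩ := frame_K_inv p hk h3 h4
    exact ⟨a, b, h1, h2, h6, h7, h5⟩
  · rintro ⟨a, b, h1, h2, h3, h4, h5⟩
    exact ⟨a, b, h1, h2, frame_K_le p hk h3 h4 0, frame_K_le p hk h3 h4 1, h5⟩

theorem vla_K (hN : 0 < N) (hg : g.2 ∈ KN p N) (α β : ℤ) (z : ℂ) : z ∈ latA p N α β g ↔
    ∃ m n : ℤ, (N : ℤ) ∣ α * m + β * n ∧ z = frame_ph g.1 m n := by
  have hN' : (N : ℚ) ≠ 0 := by exact_mod_cast hN.ne'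
  have hNp : (N : ℚ_[p]) ≠ 0 := by exact_mod_cast hN.ne'
  have hi : ∀ n : ℤ, ‖(((n : ℤ) : ℚ) : ℚ_[p])‖ ≤ 1 := fun n => by
    simpa using Padic.norm_int_le_one (p := p) n
  have hk : ∀ m n : ℤ, ‖α * (g.2 0 0 * ((m : ℚ) : ℚ_[p]) + g.2 0 1 * ((n : ℚ) : ℚ_[p])) +
      β * (g.2 1 0 * ((m : ℚ) : ℚ_[p]) + g.2 1 1 * ((n : ℚ) : ℚ_[p])) -
      ((α * m + β * n : ℤ) : ℚ_[p])‖ ≤ ‖(N : ℚ_[p])‖ := by
    intro m n
    refine le_trans (le_of_eq ?_) (vla_add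
      (vla_mul_le (Padic.norm_int_le_one α) (vla_add (vla_mul_le (hi m) (hg.2 0 0))
        (vla_mul_le (hi n) (hg.2 0 1))))
      (vla_mul_le (Padic.norm_int_le_one β) (vla_add (vla_mul_le (hi m) (hg.2 1 0))
        (vla_mul_le (hi n) (hg.2 1 1)))))
    simp only [Matrix.one_apply_eq, Matrix.one_apply_ne (show (0 : Fin 2) ≠ 1 by decide),
      Matrix.one_apply_ne (show (1 : Fin 2) ≠ 0 by decide)]
    congr 1; push_cast; ring
  rw [vla_mem]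
  constructor
  · rintro ⟨a, b, ⟨ha, hb, hab⟩, ⟨h0, h1, h2⟩, rfl⟩
    obtain ⟨ha', hb'⟩ := frame_K_inv p hg.1 h0 h1
    obtain ⟨m, rfl⟩ := frame_int p ha ha'
    obtain ⟨n, rfl⟩ := frame_int p hb hb'
    have h3 : ‖((α * m + β * n : ℤ) : ℚ_[p])‖ ≤ ‖(N : ℚ_[p])‖ := by
      have h4 := vla_add h2 ((norm_neg _).trans_le (hk m n))
      rwa [neg_sub, add_sub_cancel] at h4
    obtain ⟨t, ht⟩ := frame_int p hab (by
      push_cast at h3 ⊢
      rwa [norm_div, div_le_one (norm_pos_iff.2 hNp)])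
    refine ⟨m, n, ⟨t, ?_⟩, rfl⟩
    rw [div_eq_iff hN', mul_comm (t : ℚ)] at ht
    exact_mod_cast ht
  · rintro ⟨m, n, ⟨t, ht⟩, rfl⟩
    refine ⟨m, n, ⟨inZp_int p m, inZp_int p n, (congrArg (InZp p) ?_).mp (inZp_int p t)⟩,
      ⟨frame_K_le p hg.1 (hi m) (hi n) 0, frame_K_le p hg.1 (hi m) (hi n) 1, ?_⟩, rfl⟩
    · rw [eq_div_iff hN', mul_comm]
      exact_mod_cast ht.symm
    · have h3 : ‖((α * m + β * n : ℤ) : ℚ_[p])‖ ≤ ‖(N : ℚ_[p])‖ := by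
        rw [ht, mul_comm]
        push_cast
        exact vla_mul_le (Padic.norm_int_le_one t) le_rfl
      have h4 := vla_add (hk m n) h3
      rwa [sub_add_cancel] at h4

theorem vla_om (g : SL(2, ℝ)) : ∃ c : ℂ, c ≠ 0 ∧ ∀ m n : ℤ,
    frame_ph g m n = m * c - n * (c * ((g⁻¹ • UpperHalfPlane.I : ℍ) : ℂ)) := by
  have hd := frame_det g
  have hc : ((g 0 0 : ℂ) - g 1 0 * Complex.I) ≠ 0 := by
    intro h0
    have h1 := congrArg Complex.re h0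
    have h2 := congrArg Complex.im h0
    simp at h1 h2
    rw [h1, h2] at hd
    simp at hd
  have e2 : ((g 0 0 : ℂ) - g 1 0 * Complex.I) * ((g⁻¹ • UpperHalfPlane.I : ℍ) : ℂ) =
      -((g 0 1 : ℂ) - g 1 1 * Complex.I) := by
    rw [coe_specialLinearGroup_apply, Matrix.SpecialLinearGroup.SL2_inv_expl]
    have hc' : -(g 1 0 : ℂ) * Complex.I + g 0 0 ≠ 0 := by
      intro h0; apply hc; linear_combination h0
    simp only [Fin.isValue, Matrix.cons_val', Matrix.cons_val_zero,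
      Matrix.cons_val_one, Matrix.cons_val_fin_one, Algebra.algebraMap_self, RingHom.id_apply,
      coe_I, Complex.ofReal_neg]
    rw [← mul_div_assoc, div_eq_iff hc']
    ring
  refine ⟨_, hc, fun m n => ?_⟩
  rw [e2]
  simp only [frame_ph]; push_cast; ring

theorem vla_inv (hN : 0 < N) {ξ : MZ} (hξ : ξ.det = N) {φ : ℍ → ℍ}
    (h : ∀ τ : ℍ, ((ξ 0 0 : ℂ) * τ + ξ 0 1) / ((ξ 1 0 : ℂ) * τ + ξ 1 1) = φ τ) :
    GInv N fun τ => jInv (φ τ) := by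
  have h0 : 0 < ξ.det := by rw [hξ]; exact_mod_cast hN
  have h1 : GInv 1 jInv := fun γ _ τ => jInv_smul γ τ
  have h2 := h1.act h0
  rw [hξ, Int.natAbs_natCast, one_mul] at h2
  have h3 : act ξ = φ := funext fun τ => UpperHalfPlane.ext ((coe_act h0 τ).trans (h τ))
  rwa [h3] at h2

theorem jL_latA (hN : 0 < N) (g : GG p) :
    jL (latA p N 0 0 g) = jInv (pt p N g) ∧
      jL (latA p N 0 1 g) = jInv (mulH N hN (pt p N g)) ∧
      jL (latA p N 1 0 g) = jInv (divH N hN 0 (pt p N g)) ∧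
      jL (latA p N 1 1 g) = jInv (divH N hN 1 (pt p N g)) := by
  obtain ⟨γ, hγ, hK⟩ := exists_GN hN g
  simp only [← latA_GN _ _ g hγ, ← pt_GN g hγ]
  generalize g * γ = h at hK
  obtain ⟨c, hc, hm⟩ := vla_om h.1
  have hNc : (N : ℂ) ≠ 0 := by exact_mod_cast hN.ne'
  have i0 : GInv N jInv := fun γ _ τ => jInv_smul γ τ
  have i1 : GInv N fun τ => jInv (mulH N hN τ) :=
    vla_inv hN (ξ := !![N, 0; 0, 1]) (by simp [Matrix.det_fin_two]) fun τ => by simp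
  have i2 : GInv N fun τ => jInv (divH N hN 0 τ) :=
    vla_inv hN (ξ := !![1, 0; 0, N]) (by simp [Matrix.det_fin_two]) fun τ => by simp
  have i3 : GInv N fun τ => jInv (divH N hN 1 τ) :=
    vla_inv hN (ξ := !![1, 1; 0, N]) (by simp [Matrix.det_fin_two]) fun τ => by simp
  rw [i0.pt_K hN hK, i1.pt_K hN hK, i2.pt_K hN hK, i3.pt_K hN hK]
  generalize h.1⁻¹ • UpperHalfPlane.I = τ at hm
  rw [← jL_sp hc τ, ← jL_sp hc (mulH N hN τ), ← jL_sp (mul_ne_zero hNc hc) (divH N hN 0 τ),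
    ← jL_sp (mul_ne_zero hNc hc) (divH N hN 1 τ), coe_mulH, coe_divH, coe_divH]
  refine ⟨congrArg jL ?_, congrArg jL ?_, congrArg jL ?_, congrArg jL ?_⟩ <;> ext z <;>
    rw [vla_K hN hK, mem_sp] <;> simp only [hm] <;> constructor
  · rintro ⟨m, n, -, rfl⟩
    exact ⟨m, -n, by push_cast; ring⟩
  · rintro ⟨m, n, rfl⟩
    exact ⟨m, -n, by simp, by push_cast; ring⟩
  · rintro ⟨m, n, ⟨t, ht⟩, rfl⟩
    obtain rfl : n = N * t := by linear_combination ht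
    exact ⟨m, -t, by push_cast; ring⟩
  · rintro ⟨m, n, rfl⟩
    exact ⟨m, -(N * n), by simp, by push_cast; ring⟩
  · rintro ⟨m, n, ⟨t, ht⟩, rfl⟩
    obtain rfl : m = N * t := by linear_combination ht
    exact ⟨t, -n, by push_cast; field_simp; ring⟩
  · rintro ⟨m, n, rfl⟩
    exact ⟨N * m, -n, by simp, by push_cast; field_simp; ring⟩
  · rintro ⟨m, n, ⟨t, ht⟩, rfl⟩
    obtain rfl : m = N * t - n := by linear_combination ht
    exact ⟨t, -n, by push_cast; field_simp; ring⟩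
  · rintro ⟨m, n, rfl⟩
    exact ⟨N * m + n, -n, by simp, by push_cast; field_simp; ring⟩

theorem hasDisc_pt (hN : 0 < N) {D : ℤ} (h : DiscL (latG p g) D) : HasDisc (pt p N g) D := by
  obtain ⟨c, τ, hc, h1, h2⟩ := h
  have h3 : jInv τ = jInv (pt p N g) := by
    rw [← (jL_latA hN g).1, latA_zero, h1, jL_sp hc]
  obtain ⟨γ, hγ⟩ := jInv_inj h3
  rw [hγ]
  exact h2.smul γ

theorem discL_latG {D : ℤ} {τ : ℍ} (h : HasDisc τ D) (hj : piX p (g : XX p) = jInv τ) :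
    DiscL (latG p g) D := by
  obtain ⟨h1, h2⟩ := latG_spec p g
  obtain ⟨c, hc, h3⟩ := jL_inj (isLat_one τ) h1 (by rw [jL_one, h2, hj])
  rw [h3]
  exact (discL_one h).pr_mul hc

theorem vla_clear (x : ℚ) : ∃ m : ℤ, ¬ (p : ℤ) ∣ m ∧ InZp p (m * x) := by
  obtain ⟨a, m, hm, e⟩ := Nat.exists_eq_pow_mul_and_not_dvd x.den_nz p
    (Fact.out : p.Prime).ne_one
  refine ⟨m, by exact_mod_cast hm, a, x.num, ?_⟩
  have h1 : (x.den : ℚ) = p ^ a * m := by exact_mod_cast e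
  push_cast
  rw [← Rat.mul_den_eq_num x, h1]; ring

theorem vla_pow (hN : 0 < N) (α β : ℤ) (x y : ℚ_[p]) :
    ∃ a : ℕ, vla_P N α β ((p : ℚ_[p]) ^ a * x) ((p : ℚ_[p]) ^ a * y) := by
  have hp : (1 : ℝ) < p := by exact_mod_cast (Fact.out : p.Prime).one_lt
  have hNp : (N : ℚ_[p]) ≠ 0 := by exact_mod_cast hN.ne'
  obtain ⟨a, ha⟩ := pow_unbounded_of_one_lt (max ‖x‖ (max ‖y‖ ‖(α * x + β * y) / N‖)) hp
  have key : ∀ u : ℚ_[p], ‖u‖ ≤ (p : ℝ) ^ a → ‖(p : ℚ_[p]) ^ a * u‖ ≤ 1 := fun u hu => by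
    rwa [norm_mul, norm_pow, Padic.norm_p, inv_pow, inv_mul_le_iff₀ (by positivity), mul_one]
  rw [max_lt_iff, max_lt_iff] at ha
  refine ⟨a, key x ha.1.le, key y ha.2.1.le, ?_⟩
  refine le_trans (le_of_eq ?_) (vla_mul_le (key _ ha.2.2.le) le_rfl)
  congr 1; field_simp

theorem Rot.latA (hN : 0 < N) (h : Rot p w g V) (α β : ℤ) :
    latA p N α β ((1, V) * g) = star p w⁻¹ (latA p N α β g) := by
  obtain ⟨W, hW, hV⟩ := h
  have hp : p.Prime := Fact.out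
  have hpr : Prime (p : ℤ) := Nat.prime_iff_prime_int.1 hp
  have hpc : (p : ℂ) ≠ 0 := by exact_mod_cast hp.ne_zero
  have hw : w ≠ 0 := by
    rintro rfl
    have h1 := hW 1 0
    have h2 : frame_ph g.1 0 0 = 0 := by simp [frame_ph]
    rw [zero_mul, ← h2] at h1
    obtain ⟨h3, h4⟩ := frame_ph_inj _ h1
    have h5 := frame_det W
    have h6 : (0 : ℚ) = 1 := by linear_combination h5 + W 1 1 * h3 - W 0 1 * h4
    exact zero_ne_one h6
  ext z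
  rw [mem_star, vla_mem, Prod.fst_mul, Prod.snd_mul, one_mul, hV]
  simp only [vla_two]
  constructor
  · rintro ⟨a, b, hQ, hP, rfl⟩
    constructor
    · obtain ⟨e, he⟩ := vla_pow hN α β (g.2 0 0 * (a : ℚ_[p]) + g.2 0 1 * (b : ℚ_[p]))
        (g.2 1 0 * (a : ℚ_[p]) + g.2 1 1 * (b : ℚ_[p]))
      refine ⟨e, vla_mem.2 ⟨_, _, hQ.mul (inZp_int p (p ^ e)),
        he.mul (c := 1) (by simp) ?_ ?_, ?_⟩⟩
      · push_cast; ring
      · push_cast; ring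
      · rw [← frame_ph_mul]; push_cast; rfl
    · have hab := hW a b
      generalize W 0 0 * a + W 0 1 * b = c at hP hab
      generalize W 1 0 * a + W 1 1 * b = d at hP hab
      obtain ⟨m0, hm0, k0⟩ := vla_clear (p := p) c
      obtain ⟨m1, hm1, k1⟩ := vla_clear (p := p) d
      obtain ⟨m2, hm2, k2⟩ := vla_clear (p := p) ((α * c + β * d) / N)
      refine ⟨m0 * m1 * m2, hpr.not_dvd_mul (hpr.not_dvd_mul hm0 hm1) hm2, _,
        vla_mem.2 ⟨((m0 * m1 * m2 : ℤ) : ℚ) * c, ((m0 * m1 * m2 : ℤ) : ℚ) * d, ⟨?_, ?_, ?_⟩,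
          hP.mul (Padic.norm_int_le_one (m0 * m1 * m2)) ?_ ?_, rfl⟩, ?_⟩
      · refine (congrArg (InZp p) ?_).mp ((inZp_int p (m1 * m2)).mul k0)
        push_cast; ring
      · refine (congrArg (InZp p) ?_).mp ((inZp_int p (m0 * m2)).mul k1)
        push_cast; ring
      · refine (congrArg (InZp p) ?_).mp ((inZp_int p (m0 * m1)).mul k2)
        push_cast; ring
      · push_cast; ring
      · push_cast; ring
      · rw [← frame_ph_mul, ← hab]; push_cast; field_simp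
  · rintro ⟨⟨e, he⟩, m, hm, u, hu, hz⟩
    obtain ⟨a, b, hQ, -, hab⟩ := vla_mem.1 he
    obtain ⟨c, d, -, hP, rfl⟩ := vla_mem.1 hu
    have hz1 : z = frame_ph g.1 (((p : ℚ) ^ e)⁻¹ * a) (((p : ℚ) ^ e)⁻¹ * b) := by
      rw [← frame_ph_mul, ← hab]; push_cast; field_simp
    have hQ' := hQ.mul (c := ((p : ℚ) ^ e)⁻¹)
      (by simpa using frame_inZp_div p (inZp_int p 1) e)
    generalize ((p : ℚ) ^ e)⁻¹ * a = a' at hz1 hQ'
    generalize ((p : ℚ) ^ e)⁻¹ * b = b' at hz1 hQ'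
    have h1 : frame_ph g.1 c d = frame_ph g.1 (m * (W 0 0 * a' + W 0 1 * b'))
        (m * (W 1 0 * a' + W 1 1 * b')) := by
      rw [← frame_ph_mul, ← hW, ← hz1, mul_left_comm]
      push_cast
      rw [hz, mul_inv_cancel_left₀ hw]
    obtain ⟨rfl, rfl⟩ := frame_ph_inj _ h1
    have hm1 : ‖(m : ℚ_[p])‖ = 1 :=
      le_antisymm (Padic.norm_int_le_one m) (not_lt.1 fun h' =>
        hm (Padic.norm_intCast_lt_one_iff.1 h'))
    have hm0 : (m : ℚ_[p]) ≠ 0 := by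
      intro h0; rw [h0, norm_zero] at hm1; exact zero_ne_one hm1
    refine ⟨a', b', hQ', hP.mul (c := (m : ℚ_[p])⁻¹) (by rw [norm_inv, hm1, inv_one]) ?_ ?_, hz1⟩
    · push_cast; field_simp
    · push_cast; field_simp

theorem vla_rot_mul {w' : ℂ} {V' : SL(2, ℚ_[p])} (h : Rot p w g V) (h' : Rot p w' g V') :
    Rot p (w * w') g (V * V') := by
  obtain ⟨W, hW, hV⟩ := h
  obtain ⟨W', hW', hV'⟩ := h'
  refine ⟨W * W', fun a b => ?_, ?_⟩
  · rw [mul_assoc, hW', hW, vla_mul, vla_mul]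
  · rw [mul_assoc, hV', ← mul_assoc, hV, map_mul, Prod.snd_mul, mul_assoc]

theorem Rot.pow (h : Rot p w g V) (i : ℕ) : Rot p (w ^ i) g (V ^ i) := by
  induction i with
  | zero => exact ⟨1, fun a b => by simp, by simp⟩
  | succ i ih => rw [pow_succ, pow_succ]; exact vla_rot_mul ih h

theorem Rot.left (h : Rot p w g V) (a : SL(2, ℚ_[p])) :
    Rot p w ((1, a) * g) (a * V * a⁻¹) := by
  obtain ⟨W, hW, hV⟩ := h
  refine ⟨W, fun a b => by rw [Prod.fst_mul, one_mul]; exact hW a b, ?_⟩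
  rw [Prod.snd_mul, mul_assoc, inv_mul_cancel_left, mul_assoc, hV, mul_assoc]

theorem Rot.right (h : Rot p w g V) {γ : GG p} (hγ : γ ∈ Gam p) : Rot p w (g * γ) V := by
  obtain ⟨W, hW, hV⟩ := h
  obtain ⟨δ, -, rfl⟩ := hγ
  refine ⟨δ⁻¹ * (W * δ), fun a b => ?_, ?_⟩
  · rw [Prod.fst_mul, vla_ph, vla_ph, hW, ← vla_mul δ, ← vla_mul δ, mul_inv_cancel_left,
      vla_mul, vla_mul]
  · simp only [Prod.snd_mul, map_mul, map_inv, Prod.snd_inv]
    rw [← mul_assoc, hV, mul_assoc, mul_assoc, mul_inv_cancel_left]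

theorem vla_th {D : ℤ} {g : SL(2, ℝ)} {Θ : Matrix (Fin 2) (Fin 2) ℤ} (h : ThM D g Θ)
    (A B a b : ℚ) : (A + B * th D) * frame_ph g a b =
      frame_ph g (A * a + B * (Θ 0 0 * a + Θ 0 1 * b)) (A * b + B * (Θ 1 0 * a + Θ 1 1 * b)) := by
  have h1 := frame_th_ph h B a b
  simp only [frame_ph] at h1 ⊢
  push_cast at h1 ⊢
  linear_combination h1

theorem exists_rot {D : ℤ} (hD : D < 0) {Θ : Matrix (Fin 2) (Fin 2) ℤ} (h : ThM D g.1 Θ) {A B : ℚ}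
    (hn : A ^ 2 - B ^ 2 * D = 1) : ∃ V, Rot p (A + B * th D) g V := by
  obtain ⟨h1, h2, h3, h4⟩ := frame_entries h
  have hd := frame_det g.1
  have hs : Real.sqrt (-(D : ℝ)) ^ 2 = -(D : ℝ) :=
    Real.sq_sqrt (by exact_mod_cast (neg_pos.2 hD).le)
  generalize Real.sqrt (-(D : ℝ)) = s at h1 h2 h3 h4 hs
  have ht : (Θ 0 0 : ℝ) + Θ 1 1 = 0 := by
    linear_combination g.1 1 1 * h1 - g.1 0 1 * h3 + g.1 0 0 * h4 - g.1 1 0 * h2 -
      ((Θ 0 0 : ℝ) + Θ 1 1) * hd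
  have hdet : (Θ 0 0 : ℝ) * Θ 1 1 - Θ 0 1 * Θ 1 0 = -D := by
    linear_combination (g.1 1 0 * Θ 0 1 + g.1 1 1 * Θ 1 1) * h1 + s * g.1 1 0 * h4 -
      (g.1 1 0 * Θ 0 0 + g.1 1 1 * Θ 1 0) * h2 - s * g.1 1 1 * h3 + hs +
      (s ^ 2 - ((Θ 0 0 : ℝ) * Θ 1 1 - Θ 0 1 * Θ 1 0)) * hd
  have ht' : (Θ 0 0 : ℚ) + Θ 1 1 = 0 := by exact_mod_cast ht
  have hdet' : (Θ 0 0 : ℚ) * Θ 1 1 - Θ 0 1 * Θ 1 0 = -D := by exact_mod_cast hdet
  let W : SL(2, ℚ) := ⟨!![A + B * Θ 0 0, B * Θ 0 1; B * Θ 1 0, A + B * Θ 1 1], by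
    rw [Matrix.det_fin_two_of]
    linear_combination hn + A * B * ht' + B ^ 2 * hdet'⟩
  refine ⟨g.2 * (emb p W).2 * g.2⁻¹, W, fun a b => ?_, inv_mul_cancel_right _ _⟩
  rw [vla_th h]
  congr 1
  · change _ = (A + B * Θ 0 0) * a + B * Θ 0 1 * b
    ring
  · change _ = B * Θ 1 0 * a + (A + B * Θ 1 1) * b
    ring

theorem Rot.eq {D : ℤ} {Θ : Matrix (Fin 2) (Fin 2) ℤ} (h : ThM D g.1 Θ) {A B : ℚ}
    (hV : Rot p (A + B * th D) g V) :
    (V : Matrix (Fin 2) (Fin 2) ℚ_[p]) * (g.2 : Matrix (Fin 2) (Fin 2) ℚ_[p]) =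
      (A : ℚ_[p]) • (g.2 : Matrix (Fin 2) (Fin 2) ℚ_[p]) +
        (B : ℚ_[p]) • ((g.2 : Matrix (Fin 2) (Fin 2) ℚ_[p]) * Θ.map (↑)) := by
  obtain ⟨W, hW, hV⟩ := hV
  have key : ∀ (i : Fin 2) (a b : ℚ), (V * g.2) i 0 * a + (V * g.2) i 1 * b =
      g.2 i 0 * ((A * a + B * (Θ 0 0 * a + Θ 0 1 * b) : ℚ) : ℚ_[p]) +
        g.2 i 1 * ((A * b + B * (Θ 1 0 * a + Θ 1 1 * b) : ℚ) : ℚ_[p]) := by
    intro i a b
    obtain ⟨h1, h2⟩ := frame_ph_inj _ ((hW a b).symm.trans (vla_th h A B a b))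
    rw [hV, vla_two, h1, h2]
  rw [← Matrix.SpecialLinearGroup.coe_mul]
  ext i j
  have k0 := key i 1 0
  have k1 := key i 0 1
  push_cast at k0 k1
  simp only [Matrix.add_apply, Matrix.smul_apply, smul_eq_mul]
  rw [Matrix.mul_apply (M := (g.2 : Matrix (Fin 2) (Fin 2) ℚ_[p])), Fin.sum_univ_two,
    Matrix.map_apply, Matrix.map_apply]
  fin_cases j
  · simp only [Fin.zero_eta]
    linear_combination k0
  · simp only [Fin.mk_one]
    linear_combination k1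

end Pool.Agent.EQ
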