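import Pool.Agent.P.MP_ad7a55_nt.VDef
import Pool.Agent.P.MP_ad7a55_nt.VAct
import Pool.Agent.P.MP_ad7a55_nt.HaarB2

/-! The hyperbolic measure of a subgroup of finite index. -/

set_option autoImplicit false

noncomputable section

open MeasureTheory Topology Filter UpperHalfPlane
open scoped MatrixGroups ENNReal BoundedContinuousFunction

namespace Pool.Agent.EQ

theorem vmh_cont (γ : SL(2, ℤ)) : Continuous fun τ : ℍ => γ • τ :=
  continuous_const_smul (Matrix.SpecialLinearGroup.mapGL ℝ γ)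

theorem vmh_meas (γ : SL(2, ℤ)) : Measurable fun τ : ℍ => γ • τ := (vmh_cont γ).measurable

theorem vmh_prob :
    IsProbabilityMeasure (ProbabilityTheory.cond (volume : Measure ℍ) ModularGroup.fd) :=
  ProbabilityTheory.cond_isProbabilityMeasure_of_finite jbas_volume_fd_pos.ne'
    jbas_volume_fd_lt_top.ne

theorem vmh_card (Γ : Subgroup SL(2, ℤ)) [Fintype (SL(2, ℤ) ⧸ Γ)] :
    Fintype.card (SL(2, ℤ) ⧸ Γ) = Γ.index := by
  rw [Subgroup.index, Nat.card_eq_fintype_card]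

theorem vmh_apply (Γ : Subgroup SL(2, ℤ)) [Fintype (SL(2, ℤ) ⧸ Γ)] {E : Set ℍ}
    (hE : MeasurableSet E) : mH Γ E = (Γ.index : ℝ≥0∞)⁻¹ * ∑ c : SL(2, ℤ) ⧸ Γ,
      ProbabilityTheory.cond (volume : Measure ℍ) ModularGroup.fd {τ | c.out⁻¹ • τ ∈ E} := by
  rw [mH, Measure.smul_apply, smul_eq_mul, Measure.sum_apply _ hE, tsum_fintype]
  congr 1
  refine Finset.sum_congr rfl fun c _ => ?_
  rw [Measure.map_apply (vmh_meas _) hE]
  rfl

theorem vmh_ne (Γ : Subgroup SL(2, ℤ)) [Γ.FiniteIndex] : (Γ.index : ℝ≥0∞) ≠ 0 := by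
  exact_mod_cast Subgroup.FiniteIndex.index_ne_zero

theorem vmh_const (Γ : Subgroup SL(2, ℤ)) [Γ.FiniteIndex] [Fintype (SL(2, ℤ) ⧸ Γ)] (x : ℝ≥0∞) :
    (Γ.index : ℝ≥0∞)⁻¹ * ∑ _c : SL(2, ℤ) ⧸ Γ, x = x := by
  rw [Finset.sum_const, Finset.card_univ, vmh_card, nsmul_eq_mul, ← mul_assoc,
    ENNReal.inv_mul_cancel (vmh_ne Γ) (ENNReal.natCast_ne_top _), one_mul]

theorem vmh_sum_level {Γ Γ' : Subgroup SL(2, ℤ)} [Fintype (SL(2, ℤ) ⧸ Γ)]
    [Fintype (SL(2, ℤ) ⧸ Γ')] (h : Γ' ≤ Γ) (F : SL(2, ℤ) → ℝ≥0∞)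
    (hF : ∀ g, ∀ γ ∈ Γ, F (g * γ) = F g) :
    ∑ c : SL(2, ℤ) ⧸ Γ', F c.out = (Γ'.relIndex Γ : ℝ≥0∞) * ∑ c : SL(2, ℤ) ⧸ Γ, F c.out := by
  let e := Subgroup.quotientEquivProdOfLE h
  have hfin : Finite ((SL(2, ℤ) ⧸ Γ) × (Γ ⧸ Γ'.subgroupOf Γ)) := Finite.of_equiv _ e
  have hfin2 : Finite (Γ ⧸ Γ'.subgroupOf Γ) :=
    Finite.prod_right (SL(2, ℤ) ⧸ Γ)
  have := Fintype.ofFinite (Γ ⧸ Γ'.subgroupOf Γ)
  have h1 : ∀ c : SL(2, ℤ) ⧸ Γ', F c.out = F (e c).1.out := by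
    intro c
    have h2 : (e c).1 = (QuotientGroup.mk c.out : SL(2, ℤ) ⧸ Γ) := by
      conv_lhs => rw [← QuotientGroup.out_eq' c]
      rfl
    obtain ⟨γ, hγ⟩ := QuotientGroup.mk_out_eq_mul Γ c.out
    rw [h2, hγ, hF _ _ γ.2]
  rw [Finset.sum_congr rfl fun c _ => h1 c,
    Equiv.sum_comp e (fun x => F x.1.out), Fintype.sum_prod_type, Finset.mul_sum]
  refine Finset.sum_congr rfl fun c _ => ?_
  dsimp only
  rw [Finset.sum_const, Finset.card_univ, nsmul_eq_mul, Subgroup.relIndex, Subgroup.index,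
    Nat.card_eq_fintype_card]

variable {Γ : Subgroup SL(2, ℤ)}

theorem mH_prob [Γ.FiniteIndex] : IsProbabilityMeasure (mH Γ) := by
  have := Γ.fintypeQuotientOfFiniteIndex
  have := vmh_prob
  constructor
  rw [vmh_apply Γ MeasurableSet.univ]
  simp only [Set.mem_univ, Set.ofPred_true, measure_univ]
  exact vmh_const Γ 1

theorem integral_mH [Γ.FiniteIndex] (φ : ℍ →ᵇ ℝ) : ∫ τ, φ τ ∂mH Γ = (Γ.index : ℝ)⁻¹ *
    ∑ᶠ c : SL(2, ℤ) ⧸ Γ, ∫ τ, φ (c.out⁻¹ • τ) ∂ProbabilityTheory.cond volume ModularGroup.fd := by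
  have := Γ.fintypeQuotientOfFiniteIndex
  have := vmh_prob
  have hi : ∀ c : SL(2, ℤ) ⧸ Γ, Integrable φ
      ((ProbabilityTheory.cond (volume : Measure ℍ) ModularGroup.fd).map
        fun τ => c.out⁻¹ • τ) := fun c => φ.integrable _
  rw [mH, integral_smul_measure, Measure.sum_fintype,
    integral_finsetSum_measure fun c _ => hi c, finsum_eq_sum_of_fintype, smul_eq_mul,
    ENNReal.toReal_inv, ENNReal.toReal_natCast]
  congr 1
  refine Finset.sum_congr rfl fun c _ => ?_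
  exact integral_map (vmh_meas _).aemeasurable φ.continuous.aestronglyMeasurable

theorem mH_null [Γ.FiniteIndex] {E : Set ℍ} (hE : volume E = 0) : mH Γ E = 0 := by
  have := Γ.fintypeQuotientOfFiniteIndex
  obtain ⟨E', h1, h2, h3⟩ := exists_measurable_superset_of_null hE
  refine measure_mono_null h1 ?_
  rw [vmh_apply Γ h2, Finset.sum_eq_zero, mul_zero]
  intro c _
  apply ProbabilityTheory.cond_absolutelyContinuous
  have h4 := measure_preimage_smul (μ := (volume : Measure ℍ))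
    (Matrix.SpecialLinearGroup.mapGL ℝ c.out⁻¹) E'
  rw [h3] at h4
  exact h4

/-- The measure of an invariant set does not depend on the level. -/
theorem mH_level [Γ.FiniteIndex] {Γ' : Subgroup SL(2, ℤ)} [Γ'.FiniteIndex] (h : Γ' ≤ Γ)
    {E : Set ℍ} (hE : MeasurableSet E) (hi : ∀ γ ∈ Γ, ∀ τ ∈ E, γ • τ ∈ E) :
    mH Γ' E = mH Γ E := by
  have := Γ.fintypeQuotientOfFiniteIndex
  have := Γ'.fintypeQuotientOfFiniteIndex
  have hr : (Γ'.relIndex Γ : ℝ≥0∞) * Γ.index = Γ'.index := by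
    exact_mod_cast Subgroup.relIndex_mul_index h
  have hr0 : (Γ'.relIndex Γ : ℝ≥0∞) ≠ 0 := by
    intro h0
    rw [h0, zero_mul] at hr
    exact vmh_ne Γ' hr.symm
  rw [vmh_apply Γ hE, vmh_apply Γ' hE, vmh_sum_level h (fun g =>
    ProbabilityTheory.cond (volume : Measure ℍ) ModularGroup.fd {τ | g⁻¹ • τ ∈ E}), ← hr,
    ENNReal.mul_inv (Or.inl hr0) (Or.inl (ENNReal.natCast_ne_top _)), mul_comm _ (Γ.index : ℝ≥0∞)⁻¹,
    mul_assoc, ← mul_assoc (Γ'.relIndex Γ : ℝ≥0∞)⁻¹,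
    ENNReal.inv_mul_cancel hr0 (ENNReal.natCast_ne_top _), one_mul]
  intro g γ hγ
  congr 1
  ext τ
  simp only [Set.mem_ofPred_eq, mul_inv_rev, mul_smul]
  constructor
  · intro h1
    have h2 := hi γ hγ _ h1
    rwa [smul_inv_smul] at h2
  · exact hi γ⁻¹ (Γ.inv_mem hγ) _

theorem map_mH_level [Γ.FiniteIndex] {Γ' : Subgroup SL(2, ℤ)} [Γ'.FiniteIndex] (h : Γ' ≤ Γ)
    {β : Type} [MeasurableSpace β] {π : ℍ → β} (hπ : Measurable π)
    (hi : ∀ γ ∈ Γ, ∀ τ, π (γ • τ) = π τ) : (mH Γ').map π = (mH Γ).map π := by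
  ext A hA
  rw [Measure.map_apply hπ hA, Measure.map_apply hπ hA]
  refine mH_level h (hπ hA) fun γ hγ τ hτ => ?_
  rw [Set.mem_preimage, hi γ hγ]
  exact hτ

theorem integral_level [Γ.FiniteIndex] {Γ' : Subgroup SL(2, ℤ)} [Γ'.FiniteIndex] (h : Γ' ≤ Γ)
    {φ : ℍ → ℝ} (hφ : Measurable φ) (hi : ∀ γ ∈ Γ, ∀ τ, φ (γ • τ) = φ τ) :
    ∫ τ, φ τ ∂mH Γ' = ∫ τ, φ τ ∂mH Γ := by
  have h1 : ∀ μ : Measure ℍ, ∫ τ, φ τ ∂μ = ∫ x, x ∂μ.map φ := fun μ =>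
    (integral_map hφ.aemeasurable aestronglyMeasurable_id).symm
  rw [h1, h1, map_mH_level h hφ hi]

/-- Invariance under the normaliser. -/
theorem map_mH_smul [Γ.FiniteIndex] [Γ.Normal] (δ : SL(2, ℤ)) {β : Type} [MeasurableSpace β]
    {π : ℍ → β} (hπ : Measurable π) (hi : ∀ γ ∈ Γ, ∀ τ, π (γ • τ) = π τ) :
    (mH Γ).map (fun τ => π (δ • τ)) = (mH Γ).map π := by
  have := Γ.fintypeQuotientOfFiniteIndex
  have hm : Measurable fun τ : ℍ => π (δ • τ) := hπ.comp (vmh_meas δ)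
  ext A hA
  rw [Measure.map_apply hπ hA, Measure.map_apply hm hA, vmh_apply Γ (hπ hA), vmh_apply Γ (hm hA)]
  congr 1
  rw [← Equiv.sum_comp (Equiv.mulRight (QuotientGroup.mk δ⁻¹ : SL(2, ℤ) ⧸ Γ)) (fun c =>
    ProbabilityTheory.cond (volume : Measure ℍ) ModularGroup.fd {τ | c.out⁻¹ • τ ∈ π ⁻¹' A})]
  refine Finset.sum_congr rfl fun c _ => ?_
  have h2 : Equiv.mulRight (QuotientGroup.mk δ⁻¹ : SL(2, ℤ) ⧸ Γ) c
      = QuotientGroup.mk (c.out * δ⁻¹) := by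
    rw [QuotientGroup.mk_mul, QuotientGroup.out_eq']
    rfl
  obtain ⟨γ, hγ⟩ := QuotientGroup.mk_out_eq_mul Γ (c.out * δ⁻¹)
  rw [h2, hγ]
  congr 1
  ext τ
  simp only [Set.mem_ofPred_eq, Set.mem_preimage, mul_inv_rev, mul_smul, inv_inv]
  rw [hi _ (Γ.inv_mem γ.2)]

theorem map_mH_j [Γ.FiniteIndex] : (mH Γ).map jInv = mY := by
  have := Γ.fintypeQuotientOfFiniteIndex
  ext A hA
  rw [Measure.map_apply continuous_jInv.measurable hA, mY,
    Measure.map_apply continuous_jInv.measurable hA, vmh_apply Γ (continuous_jInv.measurable hA)]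
  simp only [Set.mem_preimage, jInv_smul]
  exact vmh_const Γ _

end Pool.Agent.EQ
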