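import Pool.Agent.P.MP_ad7a55_nt.VPt
import Pool.Agent.P.MP_ad7a55_nt.VMh
import Pool.Agent.P.MP_ad7a55_nt.VEv

/-! The invariant measure of the covering space. -/

set_option autoImplicit false

noncomputable section

open MeasureTheory Topology Filter UpperHalfPlane
open scoped MatrixGroups ENNReal BoundedContinuousFunction

namespace Pool.Agent.EQ

variable (p : ℕ) [Fact p.Prime] (N : ℕ)

theorem exists_mN : ∃ m : Measure (XN p N), IsProbabilityMeasure m ∧
    (0 < N → ∀ g, g ∈ Stab (GG p) m) := by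
  by_cases hN : 0 < N
  swap
  · exact ⟨Measure.dirac ((1 : GG p) : XN p N), inferInstance, fun h => absurd h hN⟩
  obtain ⟨s, hs⟩ := exists_sec (GN_disc p N)
  set μR : Measure SL(2, ℝ) := Measure.haar
  set μP : Measure SL(2, ℚ_[p]) := Measure.haar
  obtain ⟨c, hc0, hc1, hc⟩ := map_haar μR
  set μ : Measure (GG p) := μR.prod μP with hμ
  have := um_unimod2 p μ
  obtain ⟨ρ, hρ⟩ := um_exists (GN_disc p N) hs μ
  obtain ⟨R, -, hR⟩ := cov_fib (p := p) hN
  have hS := haarB2_S_meas p ModularGroup.isClosed_fd.measurableSet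
  have h1 : ρ Set.univ ≠ ∞ := by
    refine ne_top_of_le_ne_top ?_ (um_le (GN_disc p N) hs ρ
      (F := ⋃ r ∈ R, (fun g => g * r⁻¹) ⁻¹' haarB2_S p ModularGroup.fd)
      (Finset.measurableSet_biUnion R fun r _ => measurable_mul_const _ hS)
      MeasurableSet.univ fun x _ => ?_)
    · rw [hρ]
      refine ne_top_of_le_ne_top ?_ (measure_biUnion_finset_le R _)
      refine ENNReal.sum_ne_top.2 fun r _ => ?_
      rw [measure_preimage_mul_right, hμ, haarB2_S, Measure.prod_prod,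
        ← Measure.map_apply haarB2_cont.measurable ModularGroup.isClosed_fd.measurableSet, hc,
        Measure.smul_apply, smul_eq_mul]
      exact ENNReal.mul_ne_top (ENNReal.mul_ne_top hc1 haarB2_fd_lt_top.ne)
        (Kp_compact p).measure_lt_top.ne
    · obtain ⟨g, hg, e⟩ := haarB2_onto p (cov p N x)
      obtain ⟨r, hr, e'⟩ := hR g x e.symm
      refine ⟨g * r, Set.mem_biUnion hr ?_, e'.symm⟩
      simpa using hg
  have h0 : ρ Set.univ ≠ 0 := fun h0 => by
    have h2 := um_null (GN_disc p N) hs ρ h0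
    rw [hρ] at h2
    exact (isOpen_univ.measure_pos μ ⟨1, trivial⟩).ne' (by simpa using h2)
  refine ⟨(ρ Set.univ)⁻¹ • ρ, ⟨?_⟩, fun _ g => ?_⟩
  · rw [Measure.smul_apply, smul_eq_mul, ENNReal.inv_mul_cancel h0 h1]
  · have h3 : g ∈ Stab (GG p) ρ := by
      rw [um_stab (GN_disc p N) hs, hρ]
      exact map_mul_left_eq_self μ g
    rw [mem_Stab, Measure.map_smul, mem_Stab.1 h3]

def mN : Measure (XN p N) := (exists_mN p N).choose

instance instProbmN : IsProbabilityMeasure (mN p N) := (exists_mN p N).choose_spec.1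

def mPN (κ : Type) [Fintype κ] : Measure (κ → XN p N) := Measure.pi fun _ => mN p N

instance instProbmPN (κ : Type) [Fintype κ] : IsProbabilityMeasure (mPN p N κ) := by
  unfold mPN; infer_instance

variable {p N}

theorem mN_inv (hN : 0 < N) (g : GG p) : (mN p N).map (fun x => g • x) = mN p N :=
  (exists_mN p N).choose_spec.2 hN g

theorem eq_mN (hN : 0 < N) (μ : Measure (XN p N)) [IsFiniteMeasure μ]
    (h : ∀ g, g ∈ Stab (GG p) μ) : μ = μ Set.univ • mN p N := by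
  exact um_uniq (GN_disc p N) μ _ h (mN_inv hN)

theorem eq_mN_of_P (hN : 0 < N) (μ : Measure (XN p N)) [IsFiniteMeasure μ]
    (h : ∀ g : SL(2, ℚ_[p]), ((1, g) : GG p) ∈ Stab (GG p) μ) : μ = μ Set.univ • mN p N := by
  have := unimod (Measure.haar : Measure SL(2, ℝ))
  have := unimod (Measure.haar : Measure SL(2, ℚ_[p]))
  exact eq_mN hN μ (um_prod (GN_disc p N) Measure.haar Measure.haar (Homeomorph.prodComm _ _)
    (fun _ _ => rfl) (dense_fstN hN) μ h)

theorem eq_mN_of_R (hN : 0 < N) (μ : Measure (XN p N)) [IsFiniteMeasure μ]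
    (h : ∀ g : SL(2, ℝ), ((g, 1) : GG p) ∈ Stab (GG p) μ) : μ = μ Set.univ • mN p N := by
  have := unimod (Measure.haar : Measure SL(2, ℝ))
  have := unimod (Measure.haar : Measure SL(2, ℚ_[p]))
  exact eq_mN hN μ (um_prod (GN_disc p N) Measure.haar Measure.haar (Homeomorph.refl _)
    (fun _ _ => rfl) (dense_sndN hN) μ h)

theorem map_cov (hN : 0 < N) : (mN p N).map (cov p N) = mX p := by
  have hm := (continuous_cov p N).measurable
  have := Measure.isProbabilityMeasure_map (μ := mN p N) hm.aemeasurable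
  have h := eq_mX_of_P p ((mN p N).map (cov p N)) fun g => by
    rw [mem_Stab, Measure.map_map (measurable_const_smul _) hm]
    conv_rhs => rw [← mN_inv hN (1, g)]
    rw [Measure.map_map hm (measurable_const_smul _)]
    congr 1
    funext x
    exact (cov_smul p N (1, g) x).symm
  rwa [measure_univ, one_smul] at h

theorem mN_null (hN : 0 < N) (μ : Measure (GG p)) [μ.IsHaarMeasure] {E : Set (XN p N)}
    (hE : MeasurableSet E) (h : μ {g | (g : XN p N) ∈ E} = 0) : mN p N E = 0 := by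
  obtain ⟨s, hs⟩ := exists_sec (GN_disc p N)
  obtain ⟨c, hc⟩ := um_haar (GN_disc p N) hs (mN p N) (mN_inv hN) μ
  have h1 := um_le (GN_disc p N) hs (mN p N) (F := {g | (g : XN p N) ∈ E})
    (QuotientGroup.measurable_coe hE) hE fun x hx => ⟨s x, by
      change ((s x : GG p) : XN p N) ∈ E
      rw [hs.2 x]; exact hx, hs.2 x⟩
  rw [hc, Measure.smul_apply, h, smul_zero] at h1
  exact le_antisymm h1 zero_le

theorem mPN_inv (hN : 0 < N) {κ : Type} [Fintype κ] (g : κ → GG p) :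
    (mPN p N κ).map (fun w => g • w) = mPN p N κ := by
  exact (measurePreserving_pi (fun _ : κ => mN p N) (fun _ : κ => mN p N)
    (f := fun k x => g k • x) fun k => ⟨measurable_const_smul _, mN_inv hN (g k)⟩).map_eq

theorem map_covP (hN : 0 < N) (κ : Type) [Fintype κ] :
    (mPN p N κ).map (covP p N) = mP p κ := by
  exact (measurePreserving_pi (fun _ : κ => mN p N) (fun _ : κ => mX p)
    (f := fun _ x => cov p N x) fun _ => ⟨(continuous_cov p N).measurable, map_cov hN⟩).map_eq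

theorem vme_apply {s : XN p N → GG p} (hs : IsSec s) (μ : Measure (XN p N)) {F : Set (GG p)}
    (hF : MeasurableSet F) :
    um_L s μ F = ∫⁻ x, ∑' γ : GN p N, F.indicator (1 : GG p → ℝ≥0∞) (s x * γ) ∂μ := by
  have := (GN_disc p N).countable
  unfold um_L
  rw [Measure.map_apply measurable_fst hF, lift_apply (GN_disc p N) hs _ (measurable_fst hF),
    lintegral_map (Measurable.ennreal_tsum fun γ => meas_ind_lift hs (measurable_fst hF) γ) um_meas]
  rfl

theorem vme_meas {s : XN p N → GG p} (hs : IsSec s) {F : Set (GG p)} (hF : MeasurableSet F) :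
    Measurable fun x => ∑' γ : GN p N, F.indicator (1 : GG p → ℝ≥0∞) (s x * γ) := by
  have := (GN_disc p N).countable
  exact Measurable.ennreal_tsum fun γ => (measurable_one.indicator hF).comp (hs.1.mul_const _)

theorem vme_toR_inj : Function.Injective toR := by
  intro a b h
  ext i j
  have := congrArg (fun g : SL(2, ℝ) => g i j) h
  simpa [toR] using this

/-- The embedding of the principal congruence subgroup. -/
def vmeI (p : ℕ) [Fact p.Prime] (N : ℕ) (δ : CongruenceSubgroup.Gamma N) : GN p N :=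
  ⟨(toR (δ : SL(2, ℤ))⁻¹, toP p (δ : SL(2, ℤ))⁻¹), (int_mem_GN (inv_mem δ.2)).1⟩

theorem vme_I_inj : Function.Injective (vmeI p N) := by
  intro a b h
  have h1 : toR (a : SL(2, ℤ))⁻¹ = toR (b : SL(2, ℤ))⁻¹ :=
    congrArg (fun γ : GN p N => (γ : GG p).1) h
  exact Subtype.ext (inv_injective (vme_toR_inj h1))

/-- The part of the group above a subset of the half plane. -/
def vmeS (p : ℕ) [Fact p.Prime] (N : ℕ) (B : Set ℍ) : Set (GG p) :=
  ((fun g : SL(2, ℝ) => g⁻¹ • UpperHalfPlane.I) ⁻¹' B) ×ˢ (KN p N : Set SL(2, ℚ_[p]))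

theorem vme_S_meas (hN : 0 < N) {B : Set ℍ} (hB : MeasurableSet B) :
    MeasurableSet (vmeS p N B) :=
  (haarB2_cont.measurable hB).prod (KN_open hN).measurableSet

theorem vme_fib (hN : 0 < N) {g : GG p} (hg : g.2 ∈ KN p N) (B : Set ℍ) :
    ∑' γ : GN p N, (vmeS p N B).indicator (1 : GG p → ℝ≥0∞) (g * γ) =
      ∑' δ : CongruenceSubgroup.Gamma N,
        B.indicator 1 ((δ : SL(2, ℤ)) • g.1⁻¹ • UpperHalfPlane.I) := by
  rw [← (vme_I_inj (p := p) (N := N)).tsum_eq]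
  · refine tsum_congr fun δ => ?_
    have e : (g * (vmeI p N δ : GG p)).1⁻¹ • UpperHalfPlane.I =
        (δ : SL(2, ℤ)) • g.1⁻¹ • UpperHalfPlane.I := by
      change (g.1 * toR (δ : SL(2, ℤ))⁻¹)⁻¹ • UpperHalfPlane.I = _
      rw [mul_inv_rev, ← map_inv, inv_inv, mul_smul, haarB2_toR_smul]
    have hK : (g * (vmeI p N δ : GG p)).2 ∈ KN p N :=
      (KN p N).mul_mem hg (int_mem_GN (inv_mem δ.2)).2
    by_cases hB : (δ : SL(2, ℤ)) • g.1⁻¹ • UpperHalfPlane.I ∈ B
    · rw [Set.indicator_of_mem hB, Set.indicator_of_mem]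
      · rfl
      · exact ⟨by rw [Set.mem_preimage, e]; exact hB, hK⟩
    · rw [Set.indicator_of_notMem hB, Set.indicator_of_notMem]
      intro h
      have h1 := h.1
      rw [Set.mem_preimage, e] at h1
      exact hB h1
  · intro γ hγ
    have h1 : g * (γ : GG p) ∈ vmeS p N B := by
      by_contra h
      exact hγ (Set.indicator_of_notMem h _)
    have hK : (γ : GG p).2 ∈ KN p N := by
      have := (KN p N).mul_mem ((KN p N).inv_mem hg) h1.2
      simpa using this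
    obtain ⟨δ, hδ, e⟩ := int_of_GN hN γ.2 hK
    refine ⟨⟨δ⁻¹, inv_mem hδ⟩, Subtype.ext ?_⟩
    rw [e]
    simp [vmeI]

theorem vme_sum (Γ : Subgroup SL(2, ℤ)) (F : SL(2, ℤ) → ℝ≥0∞) :
    ∑' c : SL(2, ℤ) ⧸ Γ, ∑' δ : Γ, F (c.out * δ) = ∑' ε, F ε := by
  rw [← ENNReal.tsum_prod (f := fun (c : SL(2, ℤ) ⧸ Γ) (δ : Γ) => F (c.out * δ))]
  have hb : Function.Bijective fun w : (SL(2, ℤ) ⧸ Γ) × Γ => w.1.out * (w.2 : SL(2, ℤ)) := by
    constructor
    · rintro ⟨c, δ⟩ ⟨c', δ'⟩ h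
      have h' : c.out * (δ : SL(2, ℤ)) = c'.out * δ' := h
      have h1 : c = c' := by
        have := congrArg (fun ε : SL(2, ℤ) => (ε : SL(2, ℤ) ⧸ Γ)) h'
        simpa [QuotientGroup.mk_mul_of_mem _ δ.2, QuotientGroup.mk_mul_of_mem _ δ'.2] using this
      subst h1
      exact Prod.ext rfl (Subtype.ext (mul_left_cancel h'))
    · intro ε
      have h : (ε : SL(2, ℤ) ⧸ Γ).out⁻¹ * ε ∈ Γ := QuotientGroup.eq.1 (QuotientGroup.out_eq' _)
      exact ⟨((ε : SL(2, ℤ) ⧸ Γ), ⟨_, h⟩), by simp⟩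
  exact (Equiv.ofBijective _ hb).tsum_eq F

theorem vme_neg_ne (ε : SL(2, ℤ)) : ε ≠ -ε := by
  intro h
  have h1 : (1 : SL(2, ℤ)) = -1 := by
    have : ε⁻¹ * ε = ε⁻¹ * -ε := by rw [← h]
    simpa using this
  have h2 := congrArg (fun g : SL(2, ℤ) => g 0 0) h1
  simp at h2

open ModularGroup in
theorem vme_le (τ : ℍ) : ∑' ε : SL(2, ℤ), (fdo : Set ℍ).indicator (1 : ℍ → ℝ≥0∞) (ε • τ) ≤ 2 := by
  classical
  by_cases h : ∃ ε : SL(2, ℤ), ε • τ ∈ fdo
  · obtain ⟨ε, hε⟩ := h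
    rw [tsum_eq_sum (s := {ε, -ε})]
    · rw [Finset.sum_pair (vme_neg_ne ε)]
      exact (add_le_add (Set.indicator_le_self _ _ _) (Set.indicator_le_self _ _ _)).trans
        (le_of_eq one_add_one_eq_two)
    · intro η hη
      refine Set.indicator_of_notMem (fun h => hη ?_) _
      have h1 : (η * ε⁻¹) • ε • τ ∈ fdo := by simpa [mul_smul] using h
      rcases eq_one_or_neg_one_of_mem_fdo_mem_fdo hε h1 with h2 | h2
      · simp [mul_inv_eq_one.1 h2]
      · have : η = -ε := by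
          rw [mul_inv_eq_iff_eq_mul] at h2
          simpa using h2
        simp [this]
  · rw [tsum_congr fun ε => Set.indicator_of_notMem (fun h' => h ⟨ε, h'⟩) _]
    simp

open ModularGroup in
theorem vme_ge (τ : ℍ) : 2 ≤ ∑' ε : SL(2, ℤ), (fd : Set ℍ).indicator (1 : ℍ → ℝ≥0∞) (ε • τ) := by
  classical
  obtain ⟨ε, hε⟩ := exists_smul_mem_fd τ
  refine le_trans (le_of_eq ?_) (ENNReal.sum_le_tsum {ε, -ε})
  rw [Finset.sum_pair (vme_neg_ne ε), SL_neg_smul, Set.indicator_of_mem hε]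
  exact one_add_one_eq_two.symm

theorem vme_count (hN : 0 < N) {φ : ℍ → ℝ} (hφ : GInv N φ) (A : Set ℝ) (D : Set ℍ) (g' : GG p) :
    ∃ τ : ℍ, ∑' c : SL(2, ℤ) ⧸ CongruenceSubgroup.Gamma N, ∑' γ : GN p N,
      (vmeS p N ((fun w => c.out • w) ⁻¹' D ∩ φ ⁻¹' A)).indicator (1 : GG p → ℝ≥0∞) (g' * γ) =
      (∑' ε : SL(2, ℤ), D.indicator (1 : ℍ → ℝ≥0∞) (ε • τ)) *
        ((fun x => φ (ptX p N x)) ⁻¹' A).indicator 1 (g' : XN p N) := by
  obtain ⟨g, hg, e⟩ := exists_repN hN (g' : XN p N)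
  refine ⟨g.1⁻¹ • UpperHalfPlane.I, ?_⟩
  have h1 : φ (ptX p N (g' : XN p N)) = φ (g.1⁻¹ • UpperHalfPlane.I) := by
    rw [← e]
    exact hφ.pt_K hN hg
  rw [← vme_sum (CongruenceSubgroup.Gamma N), ← ENNReal.tsum_mul_right]
  refine tsum_congr fun c => ?_
  rw [← tsum_fib_lift _ e, vme_fib hN hg, ← ENNReal.tsum_mul_right]
  refine tsum_congr fun δ => ?_
  rw [Set.inter_indicator_one, Pi.mul_apply, mul_smul]
  congr 1
  have h2 := hφ δ δ.2 (g.1⁻¹ • UpperHalfPlane.I)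
  by_cases hA : φ (g.1⁻¹ • UpperHalfPlane.I) ∈ A
  · rw [Set.indicator_of_mem, Set.indicator_of_mem]
    · rfl
    · rw [Set.mem_preimage, h1]; exact hA
    · rw [Set.mem_preimage, h2]; exact hA
  · rw [Set.indicator_of_notMem, Set.indicator_of_notMem]
    · rw [Set.mem_preimage, h1]; exact hA
    · rw [Set.mem_preimage, h2]; exact hA

theorem vme_smul_meas (ε : SL(2, ℤ)) : Measurable fun w : ℍ => ε • w :=
  (continuous_const_smul (toR ε)).measurable

theorem vme_vol (ε : SL(2, ℤ)) (D B : Set ℍ) :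
    volume ((fun w : ℍ => ε • w) ⁻¹' D ∩ B) = volume (D ∩ (fun w : ℍ => ε⁻¹ • w) ⁻¹' B) := by
  rw [← vol_preimage_hb (toR ε) (D ∩ _)]
  congr 1
  ext w
  simp [haarB2_toR_smul]

open ModularGroup in
theorem vme_main (hN : 0 < N) {φ : ℍ → ℝ} (hc : Continuous φ) (hφ : GInv N φ) :
    ∃ C : ℝ≥0∞, ∀ A : Set ℝ, MeasurableSet A → 2 * mN p N ((fun x => φ (ptX p N x)) ⁻¹' A) =
      C * ∑' c : SL(2, ℤ) ⧸ CongruenceSubgroup.Gamma N,
        volume (fd ∩ (fun w : ℍ => c.out⁻¹ • w) ⁻¹' (φ ⁻¹' A)) := by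
  have : NeZero N := ⟨hN.ne'⟩
  obtain ⟨s, hs⟩ := exists_sec (GN_disc p N)
  set μR : Measure SL(2, ℝ) := Measure.haar
  set μP : Measure SL(2, ℚ_[p]) := Measure.haar
  obtain ⟨c0, -, -, hc0⟩ := map_haar μR
  obtain ⟨c1, hc1⟩ := um_haar (GN_disc p N) hs (mN p N) (mN_inv hN) (μR.prod μP)
  refine ⟨c1 * (c0 * μP (KN p N)), fun A hA => ?_⟩
  have hE : MeasurableSet ((fun x => φ (ptX p N x)) ⁻¹' A) :=
    (hφ.continuous hN hc).measurable hA
  have hB : ∀ (D : Set ℍ), MeasurableSet D → ∀ ε : SL(2, ℤ),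
      MeasurableSet ((fun w => ε • w) ⁻¹' D ∩ φ ⁻¹' A) :=
    fun D hD ε => (vme_smul_meas ε hD).inter (hc.measurable hA)
  have key : ∀ D : Set ℍ, MeasurableSet D →
      c1 * (c0 * μP (KN p N)) * ∑' c : SL(2, ℤ) ⧸ CongruenceSubgroup.Gamma N,
        volume (D ∩ (fun w : ℍ => c.out⁻¹ • w) ⁻¹' (φ ⁻¹' A)) =
      ∫⁻ x, ∑' c : SL(2, ℤ) ⧸ CongruenceSubgroup.Gamma N, ∑' γ : GN p N,
        (vmeS p N ((fun w => c.out • w) ⁻¹' D ∩ φ ⁻¹' A)).indicator (1 : GG p → ℝ≥0∞) (s x * γ)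
          ∂mN p N := by
    intro D hD
    rw [lintegral_tsum fun c => (vme_meas hs (vme_S_meas hN (hB D hD _))).aemeasurable,
      ← ENNReal.tsum_mul_left]
    refine tsum_congr fun c => ?_
    rw [← vme_apply hs _ (vme_S_meas hN (hB D hD _)), hc1, Measure.smul_apply, smul_eq_mul, vmeS,
      Measure.prod_prod, ← Measure.map_apply haarB2_cont.measurable (hB D hD _), hc0,
      Measure.smul_apply, smul_eq_mul, vme_vol]
    ring
  rw [← lintegral_indicator_one hE, ← lintegral_const_mul _ (measurable_one.indicator hE)]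
  refine le_antisymm ?_ ?_
  · rw [key _ isClosed_fd.measurableSet]
    refine lintegral_mono fun x => ?_
    obtain ⟨τ, hτ⟩ := vme_count hN hφ A fd (s x)
    rw [hτ, hs.2 x]
    exact mul_le_mul_left (vme_ge τ) _
  · simp only [haarB2_inter]
    rw [key _ isOpen_fdo.measurableSet]
    refine lintegral_mono fun x => ?_
    obtain ⟨τ, hτ⟩ := vme_count hN hφ A fdo (s x)
    rw [hτ, hs.2 x]
    exact mul_le_mul_left (vme_le τ) _

open ModularGroup in
theorem vme_mH (Γ : Subgroup SL(2, ℤ)) {B : Set ℍ} (hB : MeasurableSet B) :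
    mH Γ B = ((Γ.index : ℝ≥0∞)⁻¹ * (volume (fd : Set ℍ))⁻¹) *
      ∑' c : SL(2, ℤ) ⧸ Γ, volume (fd ∩ (fun w : ℍ => c.out⁻¹ • w) ⁻¹' B) := by
  rw [mH, Measure.smul_apply, smul_eq_mul, Measure.sum_apply _ hB, mul_assoc]
  congr 1
  rw [← ENNReal.tsum_mul_left]
  refine tsum_congr fun c => ?_
  rw [Measure.map_apply (vme_smul_meas _) hB,
    ProbabilityTheory.cond_apply isClosed_fd.measurableSet]

theorem vme_alg {a b C K S T : ℝ≥0∞} (h1 : 2 * a = C * S) (h2 : 2 * 1 = C * T) (h3 : b = K * S)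
    (h4 : 1 = K * T) : a = b := by
  have e : 2 * a * (K * T) = 2 * 1 * b := by
    rw [h1, h2, h3]; ring
  rw [← h4, mul_one, mul_one] at e
  exact (ENNReal.mul_right_inj (by norm_num) (by norm_num)).1 e

theorem vme_law (hN : 0 < N) {φ : ℍ → ℝ} (hc : Continuous φ) (hφ : GInv N φ) :
    (mN p N).map (fun x => φ (ptX p N x)) = (mH (CongruenceSubgroup.Gamma N)).map φ := by
  have : NeZero N := ⟨hN.ne'⟩
  have := mH_prob (Γ := CongruenceSubgroup.Gamma N)
  obtain ⟨C, hC⟩ := vme_main (p := p) hN hc hφ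
  ext A hA
  rw [Measure.map_apply (hφ.continuous hN hc).measurable hA, Measure.map_apply hc.measurable hA]
  have h2 := hC Set.univ MeasurableSet.univ
  have h4 := vme_mH (CongruenceSubgroup.Gamma N) (hc.measurable MeasurableSet.univ)
  rw [Set.preimage_univ, measure_univ] at h2
  rw [Set.preimage_univ, measure_univ] at h4
  rw [Set.preimage_univ (f := φ)] at h2
  exact vme_alg (hC A hA) h2 (vme_mH _ (hc.measurable hA)) h4

theorem integral_ptX (hN : 0 < N) {φ : ℍ →ᵇ ℝ} (hφ : GInv N φ) :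
    ∫ x, φ (ptX p N x) ∂mN p N = IN N φ := by
  have h := vme_law (p := p) hN φ.continuous hφ
  have h1 := integral_map (μ := mN p N) (φ := fun x => φ (ptX p N x)) (f := fun t : ℝ => t)
    (hφ.continuous hN φ.continuous).measurable.aemeasurable aestronglyMeasurable_id
  have h2 := integral_map (μ := mH (CongruenceSubgroup.Gamma N)) (φ := φ) (f := fun t : ℝ => t)
    φ.continuous.measurable.aemeasurable aestronglyMeasurable_id
  rw [← h1, h, h2, IN]

theorem integral_mPN_prod (hN : 0 < N) {κ : Type} [Fintype κ] (a : κ → GG p)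
    {φ : κ → (ℍ →ᵇ ℝ)} (hφ : ∀ k, GInv N (φ k)) :
    ∫ w, ∏ k, φ k (ptX p N (a k • w k)) ∂mPN p N κ = ∏ k, IN N (φ k) := by
  rw [mPN, integral_fintype_prod_eq_prod (fun k (x : XN p N) => φ k (ptX p N (a k • x)))]
  refine Finset.prod_congr rfl fun k _ => ?_
  rw [← integral_ptX (p := p) hN (hφ k)]
  conv_rhs => rw [← mN_inv hN (a k)]
  rw [integral_map (measurable_const_smul _).aemeasurable
    ((hφ k).continuous hN (φ k).continuous).aestronglyMeasurable]

theorem IN_level (hN : 0 < N) {N' : ℕ} (hN' : 0 < N') (h : N ∣ N') {φ : ℍ →ᵇ ℝ}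
    (hφ : GInv N φ) : IN N' φ = IN N φ := by
  have : NeZero N := ⟨hN.ne'⟩
  have : NeZero N' := ⟨hN'.ne'⟩
  refine integral_level (fun γ hγ => ?_) φ.continuous.measurable hφ
  rw [CongruenceSubgroup.Gamma_mem] at hγ ⊢
  obtain ⟨h1, h2, h3, h4⟩ := hγ
  have c1 := congrArg (ZMod.castHom h (ZMod N)) h1
  have c2 := congrArg (ZMod.castHom h (ZMod N)) h2
  have c3 := congrArg (ZMod.castHom h (ZMod N)) h3
  have c4 := congrArg (ZMod.castHom h (ZMod N)) h4
  rw [map_intCast] at c1 c2 c3 c4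
  rw [map_one] at c1 c4
  rw [map_zero] at c2 c3
  exact ⟨c1, c2, c3, c4⟩

theorem abs_IN_le (hN : 0 < N) (φ : ℍ →ᵇ ℝ) : |IN N φ| ≤ ‖φ‖ := by
  have : NeZero N := ⟨hN.ne'⟩
  have := mH_prob (Γ := CongruenceSubgroup.Gamma N)
  exact φ.norm_integral_le_norm _

theorem Tst.ginv {L : IntermediateField ℚ ℂ} {φ : ℍ →ᵇ ℝ} (h : Tst N L φ) : GInv N φ :=
  fun γ hγ τ => h γ (Gamma_le_G0 hγ) τ

end Pool.Agent.EQ
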