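import Pool.Agent.P.MP_ad7a55_nt.VCl
import Pool.Agent.P.MP_ad7a55_nt.VMe

/-! Test functions with compact support on the curve. -/

set_option autoImplicit false

noncomputable section

open MeasureTheory Topology Filter UpperHalfPlane
open scoped MatrixGroups ENNReal BoundedContinuousFunction

namespace Pool.Agent.EQ

/-- Support in finitely many translates of a compact set, up to the level. -/
def CSp (φ : ℍ → ℝ) : Prop :=
  ∃ K : Set ℍ, IsCompact K ∧ ∀ τ, φ τ ≠ 0 → ∃ γ : SL(2, ℤ), γ • τ ∈ K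

def Tc (N : ℕ) (F : IntermediateField ℚ ℂ) (φ : ℍ →ᵇ ℝ) : Prop := Tst N F φ ∧ CSp φ

/-- Equidistribution for every class whose field avoids `E`. -/
def GoodE (E : Set ℕ) : Prop :=
  ∀ (n N : ℕ), 0 < N → ∀ (F : IntermediateField ℚ ℂ) [FiniteDimensional ℚ F] (𝒰 : Ultrafilter ℕ),
    (𝒰 : Filter ℕ) ≤ atTop → ∀ (τ : ℕ → Fin n → ℍ) (D : ℕ → Fin n → ℤ) (I : Finset (Fin n))
      (φ : Fin n → (ℍ →ᵇ ℝ)) (ψ : ℕ → (Fin n × Fn → ℂ) → ℝ), Cls 𝒰 τ D I →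
      (∀ k, Tc N F (φ k)) → WtN 𝒰 D I ψ →
      (∀ᶠ i in 𝒰, ∀ k ∈ I, ∃ d f : ℤ, Squarefree d ∧ D i k = f ^ 2 * d ∧ d.natAbs ∉ E) →
      Eqd 𝒰 N F τ φ I ψ

variable {n N : ℕ}

theorem vtc_one (hN : 0 < N) (F : IntermediateField ℚ ℂ) {K : Set ℍ} (hK : IsCompact K) :
    ∃ A : Set (ℍ →ᵇ ℝ), A.Countable ∧ (∀ φ ∈ A, Tst N F φ) ∧
      ∀ φ, Tst N F φ → (∀ τ, φ τ ≠ 0 → ∃ γ : SL(2, ℤ), γ • τ ∈ K) →
        ∀ ε : ℝ, 0 < ε → ∃ φ' ∈ A, ‖φ - φ'‖ ≤ ε := by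
  have : NeZero N := ⟨hN.ne'⟩
  have := (CongruenceSubgroup.Gamma N).fintypeQuotientOfFiniteIndex
  let C : Set ℍ := ⋃ c : SL(2, ℤ) ⧸ CongruenceSubgroup.Gamma N, (fun x : ℍ => c.out⁻¹ • x) '' K
  have hC : IsCompact C := isCompact_iUnion fun c => hK.image (vmh_cont _)
  have : CompactSpace C := isCompact_iff_compactSpace.mp hC
  let S : Set (ℍ →ᵇ ℝ) := {φ | Tst N F φ ∧ ∀ τ, φ τ ≠ 0 → ∃ γ : SL(2, ℤ), γ • τ ∈ K}
  let ρ : (ℍ →ᵇ ℝ) → C(C, ℝ) := fun φ => ⟨fun x => φ x, φ.continuous.comp continuous_subtype_val⟩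
  have key : ∀ φ ∈ S, ∀ φ' ∈ S, ‖φ - φ'‖ ≤ dist (ρ φ) (ρ φ') := by
    intro φ hφ φ' hφ'
    rw [BoundedContinuousFunction.norm_le dist_nonneg]
    intro τ
    by_cases h0 : ∃ γ : SL(2, ℤ), γ • τ ∈ K
    · obtain ⟨γ, hγ⟩ := h0
      obtain ⟨h, hh⟩ := QuotientGroup.mk_out_eq_mul (CongruenceSubgroup.Gamma N) γ
      have hm : (h : SL(2, ℤ))⁻¹ • τ ∈ C := by
        refine Set.mem_iUnion.mpr ⟨(γ : SL(2, ℤ) ⧸ CongruenceSubgroup.Gamma N), γ • τ, hγ, ?_⟩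
        simp only [hh, mul_inv_rev, mul_smul, inv_smul_smul]
      have hi : (h : SL(2, ℤ))⁻¹ ∈ G0 N F := Gamma_le_G0 (inv_mem h.2)
      have e := ContinuousMap.dist_apply_le_dist (f := ρ φ) (g := ρ φ') ⟨_, hm⟩
      change dist (φ ((h : SL(2, ℤ))⁻¹ • τ)) (φ' ((h : SL(2, ℤ))⁻¹ • τ)) ≤ _ at e
      rw [hφ.1 _ hi, hφ'.1 _ hi, dist_eq_norm] at e
      exact e
    · have e1 : φ τ = 0 := by
        by_contra h
        exact h0 (hφ.2 τ h)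
      have e2 : φ' τ = 0 := by
        by_contra h
        exact h0 (hφ'.2 τ h)
      simp only [BoundedContinuousFunction.coe_sub, Pi.sub_apply, e1, e2, sub_zero, norm_zero]
      exact dist_nonneg
  obtain ⟨t, ht, htc, htd⟩ :=
    (TopologicalSpace.IsSeparable.of_separableSpace (ρ '' S)).exists_countable_dense_subset
  have hpre : ∀ x : t, ∃ φ ∈ S, ρ φ = x := fun x => ht x.2
  choose pre hp1 hp2 using hpre
  have := htc.to_subtype
  refine ⟨Set.range pre, Set.countable_range _, ?_, fun φ h1 h2 ε hε => ?_⟩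
  · rintro _ ⟨x, rfl⟩
    exact (hp1 x).1
  · obtain ⟨y, hy, hd⟩ := Metric.mem_closure_iff.mp (htd ⟨φ, ⟨h1, h2⟩, rfl⟩) ε hε
    refine ⟨pre ⟨y, hy⟩, ⟨_, rfl⟩, (key φ ⟨h1, h2⟩ _ (hp1 _)).trans ?_⟩
    rw [hp2]
    exact hd.le

theorem exists_dense (hN : 0 < N) (F : IntermediateField ℚ ℂ) : ∃ A : Set (ℍ →ᵇ ℝ),
    A.Countable ∧ (∀ φ ∈ A, Tst N F φ) ∧
      ∀ φ, Tc N F φ → ∀ ε : ℝ, 0 < ε → ∃ φ' ∈ A, ‖φ - φ'‖ ≤ ε := by
  choose A h1 h2 h3 using fun j : ℕ => vtc_one hN F ((CompactExhaustion.choice ℍ).isCompact j)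
  refine ⟨⋃ j, A j, Set.countable_iUnion h1, fun φ hφ => ?_, fun φ hφ ε hε => ?_⟩
  · obtain ⟨j, hj⟩ := Set.mem_iUnion.mp hφ
    exact h2 j φ hj
  · obtain ⟨K, hK, hs⟩ := hφ.2
    obtain ⟨j, hj⟩ := (CompactExhaustion.choice ℍ).exists_superset_of_isCompact hK
    obtain ⟨φ', g1, g2⟩ := h3 j φ hφ.1 (fun τ h => (hs τ h).imp fun γ hγ => hj hγ) ε hε
    exact ⟨φ', Set.mem_iUnion.mpr ⟨j, g1⟩, g2⟩

theorem countable_nf : {F : IntermediateField ℚ ℂ | FiniteDimensional ℚ F}.Countable := by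
  refine ((Algebraic.countable ℚ ℂ).image fun α => IntermediateField.adjoin ℚ {α}).mono ?_
  intro F hF
  have : FiniteDimensional ℚ F := hF
  obtain ⟨α, hα⟩ := Field.exists_primitive_element ℚ F
  refine ⟨(α : ℂ), ?_, ?_⟩
  · exact (Algebra.IsAlgebraic.isAlgebraic (R := ℚ) α).algHom F.val
  · exact (IntermediateField.lift_adjoin_simple ℚ F α).symm.trans
      ((congrArg IntermediateField.lift hα).trans (IntermediateField.lift_top ℚ F))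

theorem vtc_prod {ι : Type} (I : Finset ι) {R δ : ℝ} (hR : 1 ≤ R) (hδ : 0 ≤ δ) (a b : ι → ℝ)
    (ha : ∀ k, |a k| ≤ R) (hb : ∀ k, |b k| ≤ R) (hd : ∀ k, |a k - b k| ≤ δ) :
    |∏ k ∈ I, b k| ≤ R ^ I.card ∧ |∏ k ∈ I, a k - ∏ k ∈ I, b k| ≤ I.card * R ^ I.card * δ := by
  classical
  induction I using Finset.induction_on with
  | empty => simp
  | insert x s hx ih =>
    obtain ⟨i1, i2⟩ := ih
    have hp : 0 ≤ R ^ s.card := by positivity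
    have hR0 : 0 ≤ R := by linarith
    rw [Finset.prod_insert hx, Finset.prod_insert hx, Finset.card_insert_of_notMem hx, pow_succ]
    constructor
    · rw [abs_mul, mul_comm]
      exact mul_le_mul i1 (hb x) (abs_nonneg _) hp
    · have e : a x * ∏ k ∈ s, a k - b x * ∏ k ∈ s, b k =
          a x * (∏ k ∈ s, a k - ∏ k ∈ s, b k) + (a x - b x) * ∏ k ∈ s, b k := by ring
      rw [e]
      refine (abs_add_le _ _).trans ?_
      rw [abs_mul, abs_mul]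
      have j1 := mul_le_mul (ha x) i2 (abs_nonneg _) hR0
      have j2 := mul_le_mul (hd x) i1 (abs_nonneg _) hδ
      have j3 : δ * R ^ s.card ≤ δ * R ^ s.card * R :=
        le_mul_of_one_le_right (mul_nonneg hδ hp) hR
      push_cast
      nlinarith

theorem vtc_avg {α : Type} (O : Finset α) (G G' : α → ℝ) {b : ℝ} (hb : 0 ≤ b)
    (h : ∀ z, |G z - G' z| ≤ b) : |avg O G| ≤ |avg O G'| + b := by
  rcases O.eq_empty_or_nonempty with rfl | hO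
  · simpa [avg] using hb
  · have e : avg O G = avg O G' + avg O fun z => G z - G' z := by
      simp only [avg, Finset.sum_sub_distrib]
      ring
    rw [e]
    exact (abs_add_le _ _).trans (add_le_add le_rfl (abs_avg_le hO _ fun z _ => h z))

theorem vtc_IN (hN : 0 < N) (φ φ' : ℍ →ᵇ ℝ) : |IN N φ - IN N φ'| ≤ ‖φ - φ'‖ := by
  have : NeZero N := ⟨hN.ne'⟩
  have := mH_prob (Γ := CongruenceSubgroup.Gamma N)
  have e : IN N φ - IN N φ' = IN N (φ - φ') :=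
    (integral_sub (φ.integrable _) (φ'.integrable _)).symm
  rw [e]
  exact abs_IN_le hN _

theorem eqd_of_approx (hN : 0 < N) {L : Filter ℕ} {F : IntermediateField ℚ ℂ}
    {τ : ℕ → Fin n → ℍ} {φ : Fin n → (ℍ →ᵇ ℝ)} {I : Finset (Fin n)}
    {ψ : ℕ → (Fin n × Fn → ℂ) → ℝ} (hψ : ∃ B, ∀ i z, |ψ i z| ≤ B)
    (h : ∀ ε : ℝ, 0 < ε → ∃ φ' : Fin n → (ℍ →ᵇ ℝ), (∀ k, ‖φ k - φ' k‖ ≤ ε) ∧ ∀ᶠ i in L,
      |avg (ON N F (τ i)) fun z => ψ i z * (PT N F φ' I z - ∏ k ∈ I, IN N (φ' k))| ≤ ε) :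
    Eqd L N F τ φ I ψ := by
  obtain ⟨B, hB⟩ := hψ
  have hB0 : 0 ≤ B := (abs_nonneg _).trans (hB 0 0)
  set R : ℝ := 1 + ∑ k, ‖φ k‖ with hRd
  have hs : ∀ k, ‖φ k‖ ≤ ∑ k, ‖φ k‖ := fun k =>
    Finset.single_le_sum (f := fun k => ‖φ k‖) (fun _ _ => norm_nonneg _) (Finset.mem_univ k)
  have hR : 1 ≤ R := le_add_of_nonneg_right (Finset.sum_nonneg fun _ _ => norm_nonneg _)
  set C : ℝ := I.card * R ^ I.card with hCd
  have hC : 0 ≤ C := by positivity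
  rw [Eqd, Metric.tendsto_nhds]
  intro ε hε
  have hq : 0 < 2 * (1 + B * (2 * C)) := by positivity
  set δ : ℝ := min 1 (ε / (2 * (1 + B * (2 * C)))) with hδd
  have hδ : 0 < δ := lt_min one_pos (div_pos hε hq)
  have hδ1 : δ ≤ 1 := min_le_left _ _
  have hδ2 : δ * (2 * (1 + B * (2 * C))) ≤ ε := (le_div_iff₀ hq).mp (min_le_right _ _)
  obtain ⟨φ', g1, g2⟩ := h δ hδ
  have n1 : ∀ k, ‖φ k‖ ≤ R := fun k => by linarith [hs k]
  have n2 : ∀ k, ‖φ' k‖ ≤ R := fun k => by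
    have e : φ' k = φ k - (φ k - φ' k) := by abel
    have := norm_sub_le (φ k) (φ k - φ' k)
    rw [← e] at this
    linarith [hs k, g1 k]
  filter_upwards [g2] with i hi
  rw [Real.dist_eq, sub_zero]
  have hb : 0 ≤ B * (2 * C * δ) := by positivity
  refine lt_of_le_of_lt (vtc_avg _ _
    (fun z => ψ i z * (PT N F φ' I z - ∏ k ∈ I, IN N (φ' k))) hb fun z => ?_) ?_
  · have a1 := (vtc_prod I hR hδ.le (fun k => φ k (rp (MF N F) z k))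
      (fun k => φ' k (rp (MF N F) z k))
      (fun k => ((φ k).norm_coe_le_norm _).trans (n1 k))
      (fun k => ((φ' k).norm_coe_le_norm _).trans (n2 k))
      (fun k => ((φ k - φ' k).norm_coe_le_norm _).trans (g1 k))).2
    have a2 := (vtc_prod I hR hδ.le (fun k => IN N (φ k)) (fun k => IN N (φ' k))
      (fun k => (abs_IN_le hN _).trans (n1 k)) (fun k => (abs_IN_le hN _).trans (n2 k))
      (fun k => (vtc_IN hN _ _).trans (g1 k))).2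
    rw [← mul_sub, abs_mul]
    refine mul_le_mul (hB i z) ?_ (abs_nonneg _) hB0
    have e : PT N F φ I z - ∏ k ∈ I, IN N (φ k) - (PT N F φ' I z - ∏ k ∈ I, IN N (φ' k)) =
        (PT N F φ I z - PT N F φ' I z) - (∏ k ∈ I, IN N (φ k) - ∏ k ∈ I, IN N (φ' k)) := by ring
    rw [e]
    refine (abs_sub _ _).trans ?_
    change |PT N F φ I z - PT N F φ' I z| ≤ C * δ at a1
    change _ ≤ C * δ at a2
    linarith
  · nlinarith

theorem isog_conj {M : ℕ} (hM : 0 < M) : ∃ M', 0 < M' ∧ ∀ (a b : ℂ) (σ σ' : ℂ ≃+* ℂ),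
    Isog M (σ a) (σ b) → Isog M' (σ' a) (σ' b) := by
  refine ⟨(M ^ 4).factorial, Nat.factorial_pos _, fun a b σ σ' h => ?_⟩
  obtain ⟨τ₁, h₁⟩ := jInv_surj (σ' a)
  obtain ⟨τ₂, h₂⟩ := jInv_surj (σ' b)
  have e : Isog M ((σ'.symm.trans σ) (jInv τ₁)) ((σ'.symm.trans σ) (jInv τ₂)) := by
    rw [h₁, h₂]
    simpa using h
  obtain ⟨a₀, d, b₀, ha, haM, hd, hdM, -, -, w, hw, hj⟩ := isog_gal _ hM e
  have hdet : (!![(d : ℤ), b₀; 0, (a₀ : ℤ)] : MZ).det = ((d * a₀ : ℕ) : ℤ) := by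
    rw [Matrix.det_fin_two_of]
    push_cast
    ring
  have hpos : 0 < (!![(d : ℤ), b₀; 0, (a₀ : ℤ)] : MZ).det := by
    rw [hdet]
    exact_mod_cast Nat.mul_pos hd ha
  have hact : act !![(d : ℤ), b₀; 0, (a₀ : ℤ)] τ₂ = w := by
    apply UpperHalfPlane.ext
    rw [coe_act hpos, hw]
    simp
  have g := isog_act hpos τ₂
  rw [hact, ← hj, h₁, h₂, hdet, Int.natAbs_natCast] at g
  refine g.mono (Nat.dvd_factorial (Nat.mul_pos hd ha) ?_)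
  calc d * a₀ ≤ M ^ 2 * M ^ 2 := Nat.mul_le_mul hdM haM
    _ = M ^ 4 := by ring

end Pool.Agent.EQ
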