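import Pool.Agent.P.MP_ad7a55_nt.VI3
import Pool.Agent.P.MP_ad7a55_nt.VTc
import Pool.Agent.P.MP_ad7a55_nt.UMain

/-! The induction over the classes of coordinates. -/

set_option autoImplicit false

noncomputable section

open MeasureTheory Topology Filter UpperHalfPlane
open scoped MatrixGroups ENNReal BoundedContinuousFunction

namespace Pool.Agent.EQ

variable {n N : ℕ} {E : Set ℕ} {F : IntermediateField ℚ ℂ} {τ : ℕ → Fin n → ℍ}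
  {D : ℕ → Fin n → ℤ} {φ : Fin n → (ℍ →ᵇ ℝ)}

/-- One class. -/
theorem clsAll (hE : GoodE E) (hN : 0 < N) [FiniteDimensional ℚ F] {𝒰 : Ultrafilter ℕ}
    (h𝒰 : (𝒰 : Filter ℕ) ≤ atTop) {I : Finset (Fin n)} {ψ : ℕ → (Fin n × Fn → ℂ) → ℝ}
    (hC : Cls 𝒰 τ D I) (hφ : ∀ k, Tc N F (φ k)) (hψ : WtN 𝒰 D I ψ) (S S' : Finset ℕ)
    (hS : ∀ p ∈ S, p.Prime) (hS' : ∀ p ∈ S', p.Prime) {η L : ℝ} (hη : 0 < η)
    (hdom : ∀ k ∈ I, ∀ᶠ i in 𝒰,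
      |(D i k : ℝ)| ^ η ≤ ∏ p ∈ S, (p : ℝ) ^ padicValInt p (D i k) ∨
        (Low L (D i k) ∧ ∃ p ∈ S', ∃ q ∈ S', p ≠ q ∧ p ≠ 2 ∧ q ≠ 2 ∧ (∃ κ, Spl p κ (D i k)) ∧
          ∃ κ, Spl q κ (D i k)) ∨
        ∃ d f : ℤ, Squarefree d ∧ D i k = f ^ 2 * d ∧ d.natAbs ∉ E) : Eqd 𝒰 N F τ φ I ψ := by
  have hneg : ∀ i k, D i k < 0 := fun i k => (hC.disc i k).isD.1
  by_cases hA : ∀ k ∈ I, ∀ᶠ i in 𝒰, |(D i k : ℝ)| ^ η ≤ ∏ p ∈ S, (p : ℝ) ^ padicValInt p (D i k)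
  · exact clsA hN h𝒰 hC (fun k => (hφ k).1) hψ S hS hη ((eventually_all_finset I).2 hA)
  obtain ⟨j, hj⟩ := not_forall.1 hA
  obtain ⟨hj, h0⟩ := Classical.not_imp.1 hj
  rcases Ultrafilter.eventually_or.1 ((Ultrafilter.eventually_or.1 (hdom j hj)).resolve_left h0)
    with h1 | h1
  · obtain ⟨p, hp, h2⟩ := ultra_fin 𝒰 S' (h1.mono fun i hi => hi.2)
    obtain ⟨q, hq, h3⟩ := ultra_fin 𝒰 S' h2
    obtain ⟨-, hpq, hp2, hq2, -⟩ := h3.exists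
    have : Fact p.Prime := ⟨hS' p hp⟩
    have : Fact q.Prime := ⟨hS' q hq⟩
    refine clsC hN h𝒰 hC (fun k => (hφ k).1) hψ p q hpq hp2 hq2 (L := L) ?_
    filter_upwards [h1, h3, hC.sq] with i a1 ⟨_, _, _, ⟨κ, a2⟩, κ', a3⟩ a4 k hk
    exact ⟨a1.1.of_sq (hneg i j).ne (a4 k hk j hj) (hneg i k).ne,
      a2.of_sq p (hneg i k).ne (a4 k hk j hj), a3.of_sq q (hneg i k).ne (a4 k hk j hj)⟩
  · refine hE n N hN F 𝒰 h𝒰 τ D I φ ψ hC hφ hψ ?_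
    filter_upwards [h1, hC.sq] with i ⟨d, f, a1, a2, a3⟩ a4 k hk
    obtain ⟨g, hg⟩ := tlow_shape (f := f) a1 (fun h => (hneg i j).ne (by simp [a2, h]))
      (a2 ▸ a4 j hj k hk)
    exact ⟨d, g, a1, hg, a3⟩

theorem mainV (hE : GoodE E) (hN : 0 < N) [FiniteDimensional ℚ F] {𝒰 : Ultrafilter ℕ}
    (h𝒰 : (𝒰 : Filter ℕ) ≤ atTop) (hD : ∀ i k, HasDisc (τ i k) (D i k))
    (hinf : ∀ Y : ℝ, ∀ᶠ i in 𝒰, ∀ k, Y ≤ -(D i k : ℝ)) (hgen : NoIs 𝒰 τ Finset.univ)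
    (hφ : ∀ k, Tc N F (φ k)) (S S' : Finset ℕ)
    (hS : ∀ p ∈ S, p.Prime) (hS' : ∀ p ∈ S', p.Prime) {η L : ℝ} (hη : 0 < η)
    (hdom : ∀ k, ∀ᶠ i in 𝒰,
      |(D i k : ℝ)| ^ η ≤ ∏ p ∈ S, (p : ℝ) ^ padicValInt p (D i k) ∨
        (Low L (D i k) ∧ ∃ p ∈ S', ∃ q ∈ S', p ≠ q ∧ p ≠ 2 ∧ q ≠ 2 ∧ (∃ κ, Spl p κ (D i k)) ∧
          ∃ κ, Spl q κ (D i k)) ∨
        ∃ d f : ℤ, Squarefree d ∧ D i k = f ^ 2 * d ∧ d.natAbs ∉ E) (I : Finset (Fin n)) :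
    Tendsto (fun i => avg (ON N F (τ i)) (PT N F φ I)) 𝒰 (𝓝 (∏ k ∈ I, IN N (φ k))) := by
  classical
  have hneg : ∀ i k, D i k < 0 := fun i k => (hD i k).isD.1
  induction I using Finset.strongInduction with
  | H I ih =>
    rcases I.eq_empty_or_nonempty with rfl | ⟨j, hj⟩
    · have : ∀ i, avg (ON N F (τ i)) (PT N F φ ∅) = 1 := fun i => by
        have h2 : ((ON N F (τ i)).card : ℝ) ≠ 0 := by
          exact_mod_cast (ON_ne hN F (hD i)).card_pos.ne'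
        simp only [avg, PT, Finset.prod_empty, Finset.sum_const, nsmul_eq_mul, mul_one]
        exact div_self h2
      rw [funext this, Finset.prod_empty]
      exact tendsto_const_nhds
    set C := I.filter fun k => ∀ᶠ i in 𝒰, IsSquare (D i k * D i j) with hCd
    have hCI : C ⊆ I := Finset.filter_subset _ _
    have hjC : j ∈ C := Finset.mem_filter.2 ⟨hj, Eventually.of_forall fun i => ⟨_, rfl⟩⟩
    have h1 : ∀ᶠ i in 𝒰, ∀ k ∈ C, IsSquare (D i k * D i j) :=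
      (eventually_all_finset C).2 fun k hk => (Finset.mem_filter.1 hk).2
    have h2 : ∀ᶠ i in 𝒰, ∀ k ∈ I \ C, ¬ IsSquare (D i k * D i j) :=
      (eventually_all_finset _).2 fun k hk => Ultrafilter.eventually_not.2 fun h =>
        (Finset.mem_sdiff.1 hk).2 (Finset.mem_filter.2 ⟨(Finset.mem_sdiff.1 hk).1, h⟩)
    have hC : Cls 𝒰 τ D C :=
      ⟨hD, (hinf 577).mono fun i hi k => by
          have : (D i k : ℝ) < -576 := by linarith [hi k]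
          exact_mod_cast this,
        h1.mono fun i hi k hk l hl => ums_sq (hneg i j).ne (hi k hk) (mul_comm (D i l) _ ▸ hi l hl),
        fun Y => (hinf Y).mono fun i hi k _ => hi k,
        fun k _ l _ => hgen k (Finset.mem_univ k) l (Finset.mem_univ l)⟩
    have hψ : WtN 𝒰 D C fun _ => PT N F φ (I \ C) :=
      ⟨(h1.and h2).mono fun i hi => oth_PT fun k hk l hl h =>
        hi.2 k hk (ums_sq (hneg i l).ne h (hi.1 l hl)), _, fun _ z => abs_PT_le N F φ _ z⟩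
    have h3 := (clsAll hE hN h𝒰 hC hφ hψ S S' hS hS' hη fun k _ => hdom k).add
      ((ih (I \ C) (Finset.sdiff_ssubset hCI ⟨j, hjC⟩)).mul_const (∏ k ∈ C, IN N (φ k)))
    rw [zero_add, Finset.prod_sdiff hCI] at h3
    refine h3.congr fun i => ?_
    simp only [avg, mul_sub, Finset.sum_sub_distrib, ← Finset.sum_mul, PT, Finset.prod_sdiff hCI]
    ring

theorem mainW (hE : GoodE E) (hN : 0 < N) [FiniteDimensional ℚ F] (S : Finset ℕ)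
    (hS : ∀ p ∈ S, p.Prime) (T : Finset ℤ) {η c : ℝ} (hη : 0 < η) (hc : 0 < c)
    (hD : ∀ i k, HasDisc (τ i k) (D i k))
    (hdom : ∀ k, ∀ᶠ i in atTop,
      |(D i k : ℝ)| ^ η ≤ ∏ p ∈ S, (p : ℝ) ^ padicValInt p (D i k) ∨
        ∃ d f : ℤ, Squarefree d ∧ D i k = f ^ 2 * d ∧ (d ∈ T ∨ d.natAbs ∉ E ∨
          (NoZero c d ∧ ∃ p ∈ S, ∃ q ∈ S,
            p ≠ q ∧ p ≠ 2 ∧ q ≠ 2 ∧ jacobiSym d p = 1 ∧ jacobiSym d q = 1)))
    (hinf : ∀ Y : ℝ, ∀ᶠ i in atTop, ∀ k, Y ≤ -(D i k : ℝ)) (hgen : NoIsog τ)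
    (hφ : ∀ k, Tc N F (φ k)) :
    Tendsto (fun i => avg (ON N F (τ i)) (PT N F φ Finset.univ)) atTop
      (𝓝 (∏ k, IN N (φ k))) := by
  classical
  set T' := T.filter fun d => d < 0 with hT'
  have hT0 : ∀ d ∈ T', d < 0 := fun d hd => (Finset.mem_filter.1 hd).2
  obtain ⟨c', hc', h1⟩ := noZero_of_finite T' hT0
  obtain ⟨p₀, q₀, hp₀, hq₀, h2, h3, h4, h5⟩ := exists_split T' fun d hd => (hT0 d hd).ne
  obtain ⟨L, -, hL⟩ := low_of_noZero hc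
  obtain ⟨L', -, hL'⟩ := low_of_noZero hc'
  refine (tendsto_iff_ultrafilter _ _ _).2 fun 𝒰 h𝒰 => mainV hE hN h𝒰 hD (fun Y => h𝒰 (hinf Y))
    (fun k _ l _ hkl M hM => h𝒰 (hgen k l hkl M hM)) hφ S (insert p₀ (insert q₀ S)) hS ?_
    (L := max L L') hη (fun k => h𝒰 ?_) Finset.univ
  · intro p hp
    simp only [Finset.mem_insert] at hp
    rcases hp with rfl | rfl | hp
    exacts [hp₀, hq₀, hS p hp]
  filter_upwards [hdom k] with i hi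
  refine hi.imp_right ?_
  rintro ⟨d, e, h6, h7, h8⟩
  have h9 : e ^ 2 * d < 0 := h7 ▸ (hD i k).isD.1
  have he : e ≠ 0 := by
    rintro rfl
    simp at h9
  have hd : d < 0 := by
    by_contra h
    exact absurd h9 (not_lt.2 (mul_nonneg (sq_nonneg e) (not_lt.1 h)))
  rcases h8 with h8 | h8 | ⟨h8, p, hp, q, hq, a1, a2, a3, a4, a5⟩
  · have h10 : d ∈ T' := Finset.mem_filter.2 ⟨h8, hd⟩
    have : Fact p₀.Prime := ⟨hp₀⟩
    have : Fact q₀.Prime := ⟨hq₀⟩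
    rw [h7]
    exact Or.inl ⟨(hL' d e h6 h9 (h1 d h10)).mono (le_max_right _ _), p₀, by simp, q₀, by simp,
      h4, h2, h3, spl_of_jac p₀ (h5 d h10).1 he, spl_of_jac q₀ (h5 d h10).2 he⟩
  · exact Or.inr ⟨d, e, h6, h7, h8⟩
  · have : Fact p.Prime := ⟨hS p hp⟩
    have : Fact q.Prime := ⟨hS q hq⟩
    rw [h7]
    exact Or.inl ⟨(hL d e h6 h9 h8).mono (le_max_left _ _), p, by simp [hp], q, by simp [hq],
      a1, a2, a3, spl_of_jac p a4 he, spl_of_jac q a5 he⟩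

end Pool.Agent.EQ
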