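import Pool.Agent.P.MP_ad7a55_nt.VQs
import Pool.Agent.P.MP_ad7a55_nt.VAct

/-! The ring of modular functions of level N. -/

set_option autoImplicit false

noncomputable section

open MeasureTheory Topology Filter UpperHalfPlane
open scoped MatrixGroups ENNReal BoundedContinuousFunction

namespace Pool.Agent.EQ

def MF (N : ℕ) (L : IntermediateField ℚ ℂ) : Set (ℍ → ℂ) :=
  {f | IsMF (CongruenceSubgroup.Gamma N) N L f}

variable {N : ℕ} {L : IntermediateField ℚ ℂ} {f g : ℍ → ℂ}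

theorem isMF_iff {Γ : Subgroup SL(2, ℤ)} : IsMF Γ N L f ↔ (∀ γ ∈ Γ, ∀ τ : ℍ, f (γ • τ) = f τ) ∧
    ∃ m : ℕ, ∀ γ : SL(2, ℤ), QS N L fun τ => ModularForm.discriminant τ ^ m * f (γ • τ) :=
  Iff.rfl

theorem vmf_congr {f g : ℍ → ℂ} (h : QS N L f) (e : ∀ τ, g τ = f τ) : QS N L g :=
  (funext e : g = f) ▸ h

theorem vmf_disc (hN : 0 < N) (k : ℕ) : QS N L fun τ => ModularForm.discriminant τ ^ k :=
  (iq2_intQ_disc.pow k).qs hN

theorem vmf_gamma {N' : ℕ} (h : N ∣ N') :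
    CongruenceSubgroup.Gamma N' ≤ CongruenceSubgroup.Gamma N := by
  intro γ hγ
  rw [CongruenceSubgroup.Gamma_mem] at hγ ⊢
  obtain ⟨h1, h2, h3, h4⟩ := hγ
  have e : ∀ x : ℤ, ZMod.castHom h (ZMod N) (x : ZMod N') = (x : ZMod N) := fun x =>
    map_intCast _ x
  refine ⟨?_, ?_, ?_, ?_⟩
  · rw [← e, h1, map_one]
  · rw [← e, h2, map_zero]
  · rw [← e, h3, map_zero]
  · rw [← e, h4, map_one]

theorem vmf_mk {f : ℍ → ℂ} (h1 : ∀ γ ∈ CongruenceSubgroup.Gamma N, ∀ τ : ℍ, f (γ • τ) = f τ) (m : ℕ)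
    (h2 : ∀ γ : SL(2, ℤ), QS N L fun τ => ModularForm.discriminant τ ^ m * f (γ • τ)) :
    f ∈ MF N L := ⟨h1, m, h2⟩

theorem IsMF.mf {Γ : Subgroup SL(2, ℤ)} (hΓ : CongruenceSubgroup.Gamma N ≤ Γ)
    {L' : IntermediateField ℚ ℂ} (hL : L ≤ L') (h : IsMF Γ N L f) : f ∈ MF N L' := by
  obtain ⟨h1, m, h2⟩ := isMF_iff.1 h
  exact isMF_iff.2 ⟨fun γ hγ => h1 γ (hΓ hγ), m, fun γ => (h2 γ).mono hL⟩

theorem MF.inv (hf : f ∈ MF N L) {γ : SL(2, ℤ)} (hγ : γ ∈ CongruenceSubgroup.Gamma N) (τ : ℍ) :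
    f (γ • τ) = f τ := hf.1 γ hγ τ

theorem MF.add (hN : 0 < N) (hf : f ∈ MF N L) (hg : g ∈ MF N L) :
    (fun τ => f τ + g τ) ∈ MF N L := by
  obtain ⟨h1, m, h2⟩ := isMF_iff.1 hf
  obtain ⟨h3, k, h4⟩ := isMF_iff.1 hg
  refine vmf_mk (fun γ hγ τ => by rw [h1 γ hγ, h3 γ hγ]) (m + k) fun γ => ?_
  refine vmf_congr (((vmf_disc hN k).mul hN (h2 γ)).add ((vmf_disc hN m).mul hN (h4 γ))) fun τ => ?_
  ring

theorem MF.mul (hN : 0 < N) (hf : f ∈ MF N L) (hg : g ∈ MF N L) :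
    (fun τ => f τ * g τ) ∈ MF N L := by
  obtain ⟨h1, m, h2⟩ := isMF_iff.1 hf
  obtain ⟨h3, k, h4⟩ := isMF_iff.1 hg
  refine vmf_mk (fun γ hγ τ => by rw [h1 γ hγ, h3 γ hγ]) (m + k) fun γ => ?_
  refine vmf_congr ((h2 γ).mul hN (h4 γ)) fun τ => ?_
  ring

theorem MF.const {c : ℂ} (hc : c ∈ L) : (fun _ : ℍ => c) ∈ MF N L := by
  refine vmf_mk (fun _ _ _ => rfl) 0 fun γ => vmf_congr (qs_const hc) fun τ => ?_
  simp

theorem MF.sub (hN : 0 < N) (hf : f ∈ MF N L) (hg : g ∈ MF N L) :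
    (fun τ => f τ - g τ) ∈ MF N L := by
  have h := MF.add hN hf (MF.mul hN (MF.const (c := -1) (neg_mem (one_mem L))) hg)
  have e : (fun τ => f τ - g τ) = fun τ => f τ + -1 * g τ := by
    funext τ
    ring
  rw [e]
  exact h

theorem MF.pow (hN : 0 < N) (hf : f ∈ MF N L) (m : ℕ) : (fun τ => f τ ^ m) ∈ MF N L := by
  induction m with
  | zero => simpa using MF.const (N := N) (one_mem L)
  | succ m ih => simpa only [pow_succ] using MF.mul hN ih hf

theorem MF.sum (hN : 0 < N) {ι : Type} (s : Finset ι) {f : ι → ℍ → ℂ}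
    (hf : ∀ i ∈ s, f i ∈ MF N L) : (fun τ => ∑ i ∈ s, f i τ) ∈ MF N L := by
  classical
  induction s using Finset.induction_on with
  | empty => simpa using MF.const (N := N) (zero_mem L)
  | insert i s hi ih =>
    simp only [Finset.sum_insert hi]
    exact MF.add hN (hf i (Finset.mem_insert_self i s))
      (ih fun k hk => hf k (Finset.mem_insert_of_mem hk))

theorem MF.prod (hN : 0 < N) {ι : Type} (s : Finset ι) {f : ι → ℍ → ℂ}
    (hf : ∀ i ∈ s, f i ∈ MF N L) : (fun τ => ∏ i ∈ s, f i τ) ∈ MF N L := by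
  classical
  induction s using Finset.induction_on with
  | empty => simpa using MF.const (N := N) (one_mem L)
  | insert i s hi ih =>
    simp only [Finset.prod_insert hi]
    exact MF.mul hN (hf i (Finset.mem_insert_self i s))
      (ih fun k hk => hf k (Finset.mem_insert_of_mem hk))

theorem MF.smul (hf : f ∈ MF N L) (γ : SL(2, ℤ)) : (fun τ => f (γ • τ)) ∈ MF N L := by
  obtain ⟨h1, m, h2⟩ := isMF_iff.1 hf
  refine vmf_mk (fun δ hδ τ => ?_) m fun δ => vmf_congr (h2 (γ * δ)) fun τ => ?_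
  · have h3 := h1 _ ((CongruenceSubgroup.Gamma_normal N).conj_mem δ hδ γ) (γ • τ)
    rwa [← mul_smul, inv_mul_cancel_right, mul_smul] at h3
  · rw [mul_smul]

theorem vmf_E4 (τ : ℍ) : ModularForm.E₄ τ ^ 3 = ModularForm.discriminant τ * jInv τ := by
  have h2 := ModularForm.discriminant_ne_zero τ
  unfold jInv
  field_simp

theorem MF.j (hN : 0 < N) : jInv ∈ MF N L := by
  refine isMF_iff.2 ⟨fun γ _ τ => jInv_smul γ τ, 1, fun γ =>
    vmf_congr ((intQ_E4.pow 3).qs hN) fun τ => ?_⟩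
  rw [jInv_smul, pow_one, vmf_E4]

theorem MF.mono {N' : ℕ} {L' : IntermediateField ℚ ℂ} (hN' : 0 < N') (h : N ∣ N') (hL : L ≤ L')
    (hf : f ∈ MF N L) : f ∈ MF N' L' := by
  obtain ⟨h1, m, h2⟩ := isMF_iff.1 hf
  exact isMF_iff.2 ⟨fun γ hγ => h1 γ (vmf_gamma h hγ), m, fun γ => ((h2 γ).mono hL).level hN' h⟩

theorem vmf_ratio {a d : ℕ} (ha : 0 < a) (hd : 0 < d) (b : ℤ) (hz : zt d ∈ L) {w : ℍ → ℍ}
    (hw : ∀ τ : ℍ, (w τ : ℂ) = (a * τ + b) / d) :
    QS d L fun τ => ModularForm.discriminant τ ^ (a * d) / ModularForm.discriminant (w τ) := by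
  have h1 : IntQ fun τ => ((1 : ℤ) : ℂ) / (ModularForm.discriminant τ / qq τ) :=
    (intQ_int 1).iq2_div intQ_disc_div iq2_disc_div_tendsto iq2_disc_div_ne
  have h2 := QS.aff one_pos (h1.qs (L := L) one_pos) ha hd b le_rfl (by rwa [one_mul]) hw
  rw [one_mul] at h2
  obtain ⟨k, hk⟩ : ∃ k, a * d * d = a + k :=
    Nat.exists_eq_add_of_le (by rw [mul_assoc]; exact Nat.le_mul_of_pos_right a (Nat.mul_pos hd hd))
  have h3 : QS d L fun τ => zt d ^ (-b) * qN d τ ^ k :=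
    (qs_const (zpow_mem hz _)).mul hd ((qs_qN d L).pow hd k)
  refine vmf_congr ((h3.mul hd ((intQ_disc_div.pow (a * d)).qs hd)).mul hd h2) fun τ => ?_
  have hd0 : (d : ℂ) ≠ 0 := Nat.cast_ne_zero.2 hd.ne'
  have h4 : qq τ ^ (a * d) = zt d ^ (-b) * qN d τ ^ k * qq (w τ) := by
    have h5 : (a * d * d : ℂ) = a + k := by exact_mod_cast hk
    rw [qq, qq, zt, qN, hw, ← Complex.exp_nat_mul, ← Complex.exp_nat_mul, ← Complex.exp_int_mul,
      ← Complex.exp_add, ← Complex.exp_add]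
    refine congrArg Complex.exp ?_
    push_cast
    field_simp
    linear_combination (τ : ℂ) * h5
  have h6 := iq2_qq_ne τ
  have h7 := ModularForm.discriminant_ne_zero (w τ)
  have h8 : ModularForm.discriminant τ ^ (a * d) =
      (ModularForm.discriminant τ / qq τ) ^ (a * d) * qq τ ^ (a * d) := by
    rw [← mul_pow, div_mul_cancel₀ _ h6]
  rw [h8, h4, Int.cast_one, one_div_div]
  ring

theorem MF.act (hN : 0 < N) (hf : f ∈ MF N L) {ξ : MZ} (hξ : 0 < ξ.det) {N' : ℕ} (hN' : 0 < N')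
    (h : N * ξ.det.natAbs ∣ N') {L' : IntermediateField ℚ ℂ} (hL : L ≤ L') (hz : zt N' ∈ L') :
    (fun τ => f (act ξ τ)) ∈ MF N' L' := by
  obtain ⟨h1, m, h2⟩ := isMF_iff.1 hf
  have hdet : ∀ γ : SL(2, ℤ), (γ : MZ).det = 1 := fun γ => γ.det_coe
  have hpos : ∀ γ : SL(2, ℤ), 0 < (γ : MZ).det := fun γ => by rw [hdet]; exact one_pos
  refine vmf_mk (fun γ hγ τ => ?_) (ξ.det.natAbs * m) fun γ => ?_
  · obtain ⟨γ', hγ', e⟩ := act_conj hξ N (vmf_gamma h hγ)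
    rw [← act_SL γ τ, ← act_mul hξ (hpos γ), e, act_mul (hpos γ') hξ, act_SL, h1 γ' hγ']
  · have h3 : (ξ * (γ : MZ)).det = ξ.det := by rw [Matrix.det_mul, hdet, mul_one]
    obtain ⟨γ', a, d, b, ha, hd, had, e⟩ := act_hnf (ξ := ξ * (γ : MZ)) (h3 ▸ hξ)
    rw [h3] at had
    have h4 : ξ.det.natAbs = a * d := by
      rw [← had, Int.natAbs_mul, Int.natAbs_natCast, Int.natAbs_natCast]
    have h5 : 0 < (!![(a : ℤ), b; 0, (d : ℤ)] : MZ).det := by
      rw [Matrix.det_fin_two_of, mul_zero, sub_zero, had]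
      exact hξ
    have hw : ∀ τ : ℍ, (Pool.Agent.EQ.act !![(a : ℤ), b; 0, (d : ℤ)] τ : ℂ) = (a * τ + b) / d :=
      fun τ => by simp [coe_act h5]
    have h6 : N * d ∣ N' := (Nat.mul_dvd_mul_left N (h4 ▸ Dvd.intro_left a rfl)).trans h
    have h7 : d ∣ N' := (Dvd.intro_left N rfl).trans h6
    have h8 := (QS.aff hN (h2 γ') ha hd b hL (zt_dvd hN' h6 hz) hw).level hN' h6
    have h9 := ((vmf_ratio ha hd b (zt_dvd hN' h7 hz) hw).level hN' h7).pow hN' m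
    refine vmf_congr (h9.mul hN' h8) fun τ => ?_
    have h10 := ModularForm.discriminant_ne_zero (Pool.Agent.EQ.act !![(a : ℤ), b; 0, (d : ℤ)] τ)
    rw [← act_SL γ τ, ← act_mul hξ (hpos γ), e, act_mul (hpos γ') h5, act_SL, h4, ← mul_assoc,
      ← mul_pow, div_mul_cancel₀ _ h10, pow_mul]

theorem MF.eq_zero (hN : 0 < N) (hf : f ∈ MF N L) (hg : g ∈ MF N L) (h : ∀ τ, f τ * g τ = 0) :
    (∀ τ, f τ = 0) ∨ ∀ τ, g τ = 0 := by
  obtain ⟨_, m, h2⟩ := isMF_iff.1 hf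
  obtain ⟨_, k, h4⟩ := isMF_iff.1 hg
  have h5 := QS.eq_zero hN (h2 1) (h4 1) fun τ => by
    rw [one_smul, mul_mul_mul_comm, h, mul_zero]
  simp only [one_smul] at h5
  refine h5.imp (fun h6 τ => ?_) fun h6 τ => ?_
  · exact (mul_eq_zero.1 (h6 τ)).resolve_left (pow_ne_zero _ (ModularForm.discriminant_ne_zero τ))
  · exact (mul_eq_zero.1 (h6 τ)).resolve_left (pow_ne_zero _ (ModularForm.discriminant_ne_zero τ))

theorem vmf_one : QS 1 L f ↔
    ∃ c : ℕ → ℂ, (∀ n, c n ∈ L) ∧ ∀ τ : ℍ, HasSum (fun n => c n * qq τ ^ n) (f τ) := by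
  have e : ∀ τ, qN 1 τ = qq τ := fun τ => by rw [qN, qq, Nat.cast_one, div_one]
  simp only [QS, e]

theorem vmf_poly (m : ℕ) {f : ℍ → ℂ} (hf : QS 1 L f)
    (hw : ∀ (γ : SL(2, ℤ)) (τ : ℍ), f (γ • τ) = ((γ 1 0 : ℂ) * τ + γ 1 1) ^ (12 * m) * f τ) :
    ∃ P : Polynomial ℂ, (∀ n, P.coeff n ∈ L) ∧
      ∀ τ, f τ = ModularForm.discriminant τ ^ m * P.eval (jInv τ) := by
  induction m generalizing f with
  | zero =>
    obtain ⟨a, haL, ha⟩ := vmf_one.1 hf
    refine ⟨Polynomial.C (a 0), fun n => ?_, fun τ => ?_⟩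
    · rw [Polynomial.coeff_C]
      split_ifs
      · exact haL 0
      · exact zero_mem L
    · rw [iq2_const ha (fun γ τ => by simpa using hw γ τ) τ]
      simp
  | succ m ih =>
    obtain ⟨a, haL, ha⟩ := vmf_one.1 hf
    have hg : QS 1 L fun τ => f τ + -a 0 * (ModularForm.E₄ τ ^ 3) ^ (m + 1) :=
      hf.add ((qs_const (neg_mem (haL 0))).mul one_pos (((intQ_E4.pow 3).pow (m + 1)).qs one_pos))
    have hg0 : Tendsto (fun τ => f τ + -a 0 * (ModularForm.E₄ τ ^ 3) ^ (m + 1))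
        atImInfty (𝓝 0) := by
      have h1 := (iq2_tendsto ha).add (((iq2_E4_tendsto.pow 3).pow (m + 1)).const_mul (-a 0))
      simpa using h1
    obtain ⟨c, hcL, hc⟩ := vmf_one.1 hg
    have hc0 : c 0 = 0 := tendsto_nhds_unique (iq2_tendsto hc) hg0
    have hs : QS 1 L fun τ => (f τ + -a 0 * (ModularForm.E₄ τ ^ 3) ^ (m + 1)) / qq τ :=
      vmf_one.2 ⟨fun n => c (n + 1), fun n => hcL _, iq2_shift hc hc0⟩
    have h1 : IntQ fun τ => ((1 : ℤ) : ℂ) / (ModularForm.discriminant τ / qq τ) :=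
      (intQ_int 1).iq2_div intQ_disc_div iq2_disc_div_tendsto iq2_disc_div_ne
    have hh : QS 1 L fun τ => (f τ - a 0 *
        (ModularForm.discriminant τ * jInv τ) ^ (m + 1)) / ModularForm.discriminant τ := by
      refine vmf_congr (hs.mul one_pos (h1.qs one_pos)) fun τ => ?_
      have h1 := iq2_qq_ne τ
      have h2 := ModularForm.discriminant_ne_zero τ
      rw [vmf_E4, Int.cast_one]
      field_simp
      ring
    obtain ⟨P, hP, hPf⟩ := ih hh (by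
      intro γ τ
      have h1 := iq2_den_ne γ τ
      have h2 := ModularForm.discriminant_ne_zero τ
      rw [hw, disc_smul, jInv_smul]
      generalize ((γ 1 0 : ℂ) * τ + γ 1 1) = u at h1 ⊢
      field_simp
      ring)
    refine ⟨Polynomial.C (a 0) * Polynomial.X ^ (m + 1) + P, fun n => ?_, fun τ => ?_⟩
    · rw [Polynomial.coeff_add, Polynomial.coeff_C_mul_X_pow]
      refine add_mem ?_ (hP n)
      split_ifs
      · exact haL 0
      · exact zero_mem L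
    · have h1 := hPf τ
      have h2 := ModularForm.discriminant_ne_zero τ
      rw [div_eq_iff h2] at h1
      simp only [Polynomial.eval_add, Polynomial.eval_mul, Polynomial.eval_pow, Polynomial.eval_X,
        Polynomial.eval_C]
      linear_combination h1

/-- A function of level one is a polynomial in `j` with coefficients in the same field. -/
theorem MF.poly (hN : 0 < N) (hf : f ∈ MF N L) (h : ∀ (γ : SL(2, ℤ)) (τ : ℍ), f (γ • τ) = f τ) :
    ∃ P : Polynomial ℂ, (∀ n, P.coeff n ∈ L) ∧ ∀ τ, f τ = P.eval (jInv τ) := by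
  obtain ⟨_, m, h2⟩ := isMF_iff.1 hf
  have h3 : QS N L fun τ => ModularForm.discriminant τ ^ m * f τ :=
    vmf_congr (h2 1) fun τ => by rw [one_smul]
  have h4 : ∀ (γ : SL(2, ℤ)) (τ : ℍ), ModularForm.discriminant (γ • τ) ^ m * f (γ • τ) =
      ((γ 1 0 : ℂ) * τ + γ 1 1) ^ (12 * m) * (ModularForm.discriminant τ ^ m * f τ) := by
    intro γ τ
    rw [h, disc_smul, mul_pow, pow_mul, mul_assoc]
  have h5 := h3.one hN fun τ => by
    rw [h4]
    simp [ModularGroup.T]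
  obtain ⟨P, hP, hPf⟩ := vmf_poly m h5 h4
  exact ⟨P, hP, fun τ =>
    mul_left_cancel₀ (pow_ne_zero m (ModularForm.discriminant_ne_zero τ)) (hPf τ)⟩

end Pool.Agent.EQ
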