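import Pool.Agent.P.MP_ad7a55_nt.VGn
import Pool.Agent.P.MP_ad7a55_nt.Hom

/-! Points of the upper half plane attached to points of the covering space. -/

set_option autoImplicit false

noncomputable section

open MeasureTheory Topology Filter UpperHalfPlane
open scoped MatrixGroups ENNReal BoundedContinuousFunction

namespace Pool.Agent.EQ

/-- Invariance under the principal congruence subgroup. -/
def GInv {β : Type} (N : ℕ) (f : ℍ → β) : Prop :=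
  ∀ γ ∈ CongruenceSubgroup.Gamma N, ∀ τ : ℍ, f (γ • τ) = f τ

variable (p : ℕ) [Fact p.Prime] (N : ℕ)

open Classical in
def ptX (x : XN p N) : ℍ :=
  if h : ∃ g : GG p, g.2 ∈ KN p N ∧ (g : XN p N) = x then h.choose.1⁻¹ • UpperHalfPlane.I
  else UpperHalfPlane.I

def pt (g : GG p) : ℍ := ptX p N (g : XN p N)

variable {p N} {β : Type} {f : ℍ → β}

theorem GInv.mono {N' : ℕ} (h : N ∣ N') (hf : GInv N f) : GInv N' f := by
  refine fun γ hγ τ => hf γ ?_ τ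
  rw [CongruenceSubgroup.Gamma_mem] at hγ ⊢
  have e : ∀ x : ℤ, ZMod.castHom h (ZMod N) (x : ZMod N') = x := fun x => map_intCast _ x
  obtain ⟨h0, h1, h2, h3⟩ := hγ
  exact ⟨by rw [← e, h0, map_one], by rw [← e, h1, map_zero], by rw [← e, h2, map_zero],
    by rw [← e, h3, map_one]⟩

theorem GInv.smul (hf : GInv N f) (γ : SL(2, ℤ)) : GInv N fun τ => f (γ • τ) := by
  intro δ hδ τ
  have h := hf _ ((CongruenceSubgroup.Gamma_normal N).conj_mem δ hδ γ) (γ • τ)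
  rwa [mul_smul, mul_smul, inv_smul_smul] at h

theorem vpt_conj {ξ : MZ} (hξ : 0 < ξ.det) {γ : SL(2, ℤ)}
    (hγ : γ ∈ CongruenceSubgroup.Gamma (N * ξ.det.natAbs)) :
    ∃ γ' ∈ CongruenceSubgroup.Gamma N, ∀ τ : ℍ, act ξ (γ • τ) = γ' • act ξ τ := by
  obtain ⟨γ', h1, h2⟩ := act_conj hξ N hγ
  refine ⟨γ', h1, fun τ => ?_⟩
  rw [← act_SL, ← act_SL, ← act_mul hξ (vact_SL_det γ), h2, act_mul (vact_SL_det γ') hξ]

theorem GInv.act (hf : GInv N f) {ξ : MZ} (hξ : 0 < ξ.det) :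
    GInv (N * ξ.det.natAbs) fun τ => f (act ξ τ) := by
  intro γ hγ τ
  obtain ⟨γ', h1, h2⟩ := vpt_conj hξ hγ
  exact (congrArg f (h2 τ)).trans (hf γ' h1 _)

theorem pt_K (hN : 0 < N) {g : GG p} (hg : g.2 ∈ KN p N) :
    ∃ δ ∈ CongruenceSubgroup.Gamma N, pt p N g = δ • g.1⁻¹ • UpperHalfPlane.I := by
  have h : ∃ g' : GG p, g'.2 ∈ KN p N ∧ (g' : XN p N) = (g : XN p N) := ⟨g, hg, rfl⟩
  obtain ⟨h1, h2⟩ := h.choose_spec
  obtain ⟨δ, hδ, e⟩ := int_of_GN hN (QuotientGroup.eq.1 h2)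
    ((KN p N).mul_mem ((KN p N).inv_mem h1) hg)
  have h4 : h.choose.1⁻¹ * g.1 = toR δ := congrArg Prod.fst e
  refine ⟨δ, hδ, ?_⟩
  rw [pt, ptX, dif_pos h, ← toR_smul_proj, ← h4, ← mul_smul, mul_inv_cancel_right]

theorem GInv.pt_K (hN : 0 < N) (hf : GInv N f) {g : GG p} (hg : g.2 ∈ KN p N) :
    f (pt p N g) = f (g.1⁻¹ • UpperHalfPlane.I) := by
  obtain ⟨δ, hδ, e⟩ := EQ.pt_K hN hg
  rw [e, hf δ hδ]

theorem pt_GN (g : GG p) {γ : GG p} (hγ : γ ∈ GN p N) : pt p N (g * γ) = pt p N g := by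
  rw [pt, pt, QuotientGroup.mk_mul_of_mem g hγ]

theorem ptX_smul (a g : GG p) : ptX p N (a • (g : XN p N)) = pt p N (a * g) := rfl

theorem GInv.ptX_K (hN : 0 < N) (hf : GInv N f) {k : SL(2, ℚ_[p])} (hk : k ∈ KN p N)
    (x : XN p N) : f (ptX p N (((1, k) : GG p) • x)) = f (ptX p N x) := by
  obtain ⟨g, hg, rfl⟩ := exists_repN hN x
  have h1 := hf.pt_K hN (g := (1, k) * g) ((KN p N).mul_mem hk hg)
  rw [Prod.fst_mul, one_mul] at h1
  exact h1.trans (hf.pt_K hN hg).symm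

theorem GInv.continuous [TopologicalSpace β] (hN : 0 < N) (hf : GInv N f) (hc : Continuous f) :
    Continuous fun x => f (ptX p N x) := by
  have hU : IsOpen {g : GG p | g.2 ∈ KN p N} := (KN_open hN).preimage continuous_snd
  have hq : IsOpenQuotientMap
      (fun g : {g : GG p | g.2 ∈ KN p N} => ((g : GG p) : XN p N)) := by
    refine ⟨fun x => ?_, QuotientGroup.continuous_mk.comp continuous_subtype_val,
      QuotientGroup.isOpenMap_coe.comp hU.isOpenMap_subtype_val⟩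
    obtain ⟨g, h1, h2⟩ := exists_repN hN x
    exact ⟨⟨g, h1⟩, h2⟩
  rw [hq.isQuotientMap.continuous_iff]
  have : ((fun x => f (ptX p N x)) ∘
      fun g : {g : GG p | g.2 ∈ KN p N} => ((g : GG p) : XN p N)) =
      fun g : {g : GG p | g.2 ∈ KN p N} => f ((g : GG p).1⁻¹ • UpperHalfPlane.I) :=
    funext fun g => hf.pt_K hN g.2
  rw [this]
  exact hc.comp ((continuous_fst.comp continuous_subtype_val).inv.smul continuous_const)

theorem vpt_piX {g : GG p} (hg : g.2 ∈ KN p N) :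
    piX p (g : XX p) = jInv (g.1⁻¹ • UpperHalfPlane.I) := by
  rw [piX, toY_mk p hg.1, jY_mk]

theorem j_ptX (hN : 0 < N) (x : XN p N) : jInv (ptX p N x) = piX p (cov p N x) := by
  obtain ⟨g, hg, rfl⟩ := exists_repN hN x
  have hj : GInv N jInv := fun γ _ τ => jInv_smul γ τ
  exact (hj.pt_K hN hg).trans (vpt_piX hg).symm

theorem GInv.pt_level (hN : 0 < N) (hf : GInv N f) {N' : ℕ} (hN' : 0 < N') (h : N ∣ N')
    (g : GG p) : f (pt p N' g) = f (pt p N g) := by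
  obtain ⟨γ, hγ, hk⟩ := exists_GN hN' g
  rw [← pt_GN g hγ, ← pt_GN g (GN_mono h hN' hγ), (hf.mono h).pt_K hN' hk,
    hf.pt_K hN (KN_mono h hk)]

/-- Every point with the right invariant occurs in the fibre. -/
theorem exists_lift (hN : 0 < N) (g : GG p) {τ : ℍ} (h : jInv τ = piX p (g : XX p)) :
    ∃ γ ∈ Gam p, ∃ κ ∈ Kp p, ∃ δ ∈ CongruenceSubgroup.Gamma N,
      pt p N ((1, κ) * (g * γ)) = δ • τ := by
  obtain ⟨γ, hγ, hk⟩ := exists_GN hN g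
  rw [← QuotientGroup.mk_mul_of_mem g (GN_le p N hγ), vpt_piX hk] at h
  obtain ⟨ε, hε⟩ := jInv_inj h.symm
  have h2 : (((1, toP p ε * (g * γ).2⁻¹) : GG p) * (g * (γ * (toR ε⁻¹, toP p ε⁻¹)))).2 = 1 := by
    simp only [Prod.snd_mul, map_inv]
    group
  have h1 : (((1, toP p ε * (g * γ).2⁻¹) : GG p) * (g * (γ * (toR ε⁻¹, toP p ε⁻¹)))).1⁻¹ =
      toR ε * (g * γ).1⁻¹ := by
    simp only [Prod.fst_mul, map_inv]
    group
  obtain ⟨δ, hδ, e⟩ := pt_K hN (h2.symm ▸ (KN p N).one_mem :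
    (((1, toP p ε * (g * γ).2⁻¹) : GG p) * (g * (γ * (toR ε⁻¹, toP p ε⁻¹)))).2 ∈ KN p N)
  refine ⟨_, (Gam p).mul_mem (GN_le p N hγ) (int_mem_Gam p ε⁻¹), _,
    (Kp p).mul_mem (toP_mem_Kp p ε) ((Kp p).inv_mem hk.1), δ, hδ, ?_⟩
  rw [e, h1, mul_smul, toR_smul_proj, ← hε]

/-- One step of a chain of isogenies. -/
theorem pt_step (hN : 0 < N) {a : SL(2, ℚ_[p])}
    (ha : Bd (p : ℝ) (a : Matrix (Fin 2) (Fin 2) ℚ_[p])) : ∃ ξ : MZ, ξ.det = (p : ℤ) ^ 2 ∧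
      ∀ g : GG p, ∃ δ ∈ CongruenceSubgroup.Gamma N,
        pt p N ((1, a) * g) = δ • act ξ (pt p (N * p ^ 2) g) := by
  have hp : p.Prime := Fact.out
  have hN' : 0 < N * p ^ 2 := Nat.mul_pos hN (pow_pos hp.pos 2)
  have hpR : (p : ℝ) ≠ 0 := by exact_mod_cast hp.ne_zero
  obtain ⟨γ, hγ, hk⟩ := exists_GN hN ((1, a) : GG p)
  have hk' : a * γ.2 ∈ KN p N := hk
  obtain ⟨q, hq, eq⟩ := (GN p N).inv_mem hγ
  have e2 : ∀ i j, (γ.2⁻¹ : SL(2, ℚ_[p])) i j = (q i j : ℚ_[p]) := fun i j => by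
    rw [← Prod.snd_inv, ← eq]; rfl
  have e1 : ∀ i j, (γ.1⁻¹ : SL(2, ℝ)) i j = (q i j : ℝ) := fun i j => by
    rw [← Prod.fst_inv, ← eq]; rfl
  have hb := ha.K ((Kp p).inv_mem hk'.1) (Kp p).one_mem
  rw [← Matrix.SpecialLinearGroup.coe_mul, ← Matrix.SpecialLinearGroup.coe_mul, mul_one,
    mul_inv_rev, inv_mul_cancel_right] at hb
  choose n hn using fun i j => grp_int p (x := ((p : ℤ) : ℚ) * q i j)
    ((inZp_int p p).mul (hq.1 i j)) (by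
      push_cast
      rw [norm_mul, Padic.norm_p, ← e2, inv_mul_le_iff₀ (by exact_mod_cast hp.pos), mul_one]
      exact hb i j)
  have hd : (Matrix.of n).det = (p : ℤ) ^ 2 := by
    have h1 := q.det_coe
    rw [Matrix.det_fin_two] at h1 ⊢
    have h2 : ((n 0 0 * n 1 1 - n 0 1 * n 1 0 : ℤ) : ℚ) = (((p : ℤ) ^ 2 : ℤ) : ℚ) := by
      push_cast
      rw [← hn, ← hn, ← hn, ← hn]
      push_cast
      linear_combination (p : ℚ) ^ 2 * h1
    exact_mod_cast h2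
  have hr := act_real (ξ := Matrix.of n) (g := γ.1⁻¹) hpR fun i j => by
    rw [e1, Matrix.of_apply]
    exact_mod_cast (congrArg (fun x : ℚ => (x : ℝ)) (hn i j)).symm
  refine ⟨Matrix.of n, hd, fun g => ?_⟩
  obtain ⟨γ₁, hγ₁, hk₁⟩ := exists_GN hN' g
  have h3 := KN_conj_bd (s := 1) (N := N) (k := (g * γ₁).2) (a := a) (by rwa [mul_one])
    (by rwa [pow_one])
  have h4 : ((1, a) * g * (γ₁ * γ) : GG p).2 = a * (g * γ₁).2 * a⁻¹ * (a * γ.2) := by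
    simp only [Prod.snd_mul]
    group
  have h5 : ((1, a) * g * (γ₁ * γ) : GG p).1⁻¹ = γ.1⁻¹ * (g * γ₁).1⁻¹ := by
    simp only [Prod.fst_mul]
    group
  obtain ⟨δ₁, hδ₁, f1⟩ := pt_K hN (g := (1, a) * g * (γ₁ * γ))
    (by rw [h4]; exact (KN p N).mul_mem h3 hk')
  obtain ⟨δ₂, hδ₂, f2⟩ := pt_K hN' hk₁
  obtain ⟨δ₃, hδ₃, f3⟩ := vpt_conj (N := N) (hr UpperHalfPlane.I).1 (γ := δ₂) (by
    rwa [hd, Int.natAbs_pow, Int.natAbs_natCast])
  refine ⟨δ₁ * δ₃⁻¹, mul_mem hδ₁ (inv_mem hδ₃), ?_⟩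
  rw [← pt_GN _ ((GN p N).mul_mem (GN_mono (Dvd.intro _ rfl) hN' hγ₁) hγ), f1, h5,
    ← pt_GN g hγ₁, f2, f3, (hr _).2, mul_smul, mul_smul, inv_smul_smul]

end Pool.Agent.EQ
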