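import Pool.Agent.P.MP_ad7a55_nt.VDef
import Pool.Agent.P.MP_ad7a55_nt.IntQ2

/-! Expansions at the cusp with coefficients in a field. -/

set_option autoImplicit false

noncomputable section

open MeasureTheory Topology Filter UpperHalfPlane
open scoped MatrixGroups ENNReal BoundedContinuousFunction

namespace Pool.Agent.EQ

def qN (N : ℕ) (τ : ℍ) : ℂ := Complex.exp (2 * Real.pi * Complex.I * τ / N)

def zt (N : ℕ) : ℂ := Complex.exp (2 * Real.pi * Complex.I / N)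

/-- `h` is a power series in `qN N` with coefficients in `L`. -/
def QS (N : ℕ) (L : IntermediateField ℚ ℂ) (h : ℍ → ℂ) : Prop :=
  ∃ c : ℕ → ℂ, (∀ n, c n ∈ L) ∧ ∀ τ : ℍ, HasSum (fun n => c n * qN N τ ^ n) (h τ)

variable {N : ℕ} {L : IntermediateField ℚ ℂ} {f g : ℍ → ℂ}

theorem vqs_mulH (hN : 0 < N) (τ : ℍ) : qN N (mulH N hN τ) = qq τ := by
  have h : (N : ℂ) ≠ 0 := Nat.cast_ne_zero.2 hN.ne'
  rw [qN, qq, coe_mulH]
  congr 1
  field_simp

theorem vqs_lt (hN : 0 < N) (τ : ℍ) : ‖qN N τ‖ < 1 := by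
  have h : qN N τ = qq (divH N hN 0 τ) := by
    rw [qN, qq, coe_divH]
    congr 1
    push_cast
    ring
  rw [h]
  exact iq2_qq_lt _

theorem vqs_tr (hN : 0 < N) {c : ℕ → ℂ} (h : ∀ τ : ℍ, HasSum (fun n => c n * qN N τ ^ n) (f τ))
    (τ : ℍ) : HasSum (fun n => c n * qq τ ^ n) (f (mulH N hN τ)) := by
  rw [← vqs_mulH hN τ]
  exact h _

theorem vqs_unique (hN : 0 < N) {a b : ℕ → ℂ}
    (ha : ∀ τ : ℍ, HasSum (fun n => a n * qN N τ ^ n) (f τ))
    (hb : ∀ τ : ℍ, HasSum (fun n => b n * qN N τ ^ n) (f τ)) : a = b :=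
  iq2_unique (vqs_tr hN ha) (vqs_tr hN hb)

theorem vqs_pow {k : ℕ} (hk : 0 < k) (N : ℕ) (τ : ℍ) : qN (N * k) τ ^ k = qN N τ := by
  have h : (k : ℂ) ≠ 0 := Nat.cast_ne_zero.2 hk.ne'
  rw [qN, qN, ← Complex.exp_nat_mul]
  congr 1
  push_cast
  rw [mul_comm (N : ℂ), ← div_div, mul_div_assoc', mul_div_cancel₀ _ h]

theorem vqs_cauchy {a b : ℕ → ℂ} {x y z : ℂ} (ha : HasSum (fun n => a n * x ^ n) y)
    (hb : HasSum (fun n => b n * x ^ n) z) :
    HasSum (fun n => (∑ p ∈ Finset.HasAntidiagonal.antidiagonal n, a p.1 * b p.2) * x ^ n)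
      (y * z) := by
  have h1 := ha.summable.norm
  have h2 := hb.summable.norm
  have h3 := tsum_mul_tsum_eq_tsum_sum_antidiagonal_of_summable_norm h1 h2
  have h4 := (summable_norm_sum_mul_antidiagonal_of_summable_norm h1 h2).of_norm
  rw [ha.tsum_eq, hb.tsum_eq] at h3
  rw [h3]
  refine iq2_congr h4.hasSum fun n => ?_
  rw [Finset.sum_mul]
  refine Finset.sum_congr rfl fun p hp => ?_
  rw [← Finset.HasAntidiagonal.mem_antidiagonal.1 hp, pow_add]
  ring

theorem vqs_expand {c : ℕ → ℂ} {x y : ℂ} {k : ℕ} (hk : 0 < k)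
    (h : HasSum (fun n => c n * (x ^ k) ^ n) y) :
    HasSum (fun n => (if k ∣ n then c (n / k) else 0) * x ^ n) y := by
  have hi : Function.Injective fun m : ℕ => k * m := mul_right_injective₀ hk.ne'
  refine (hi.hasSum_iff fun n hn => ?_).1 (iq2_congr h fun n => ?_)
  · rw [if_neg fun ⟨m, hm⟩ => hn ⟨m, hm.symm⟩, zero_mul]
  · simp [Nat.mul_div_cancel_left n hk, pow_mul]

theorem vqs_exp {k : ℕ} (hk : 0 < k) {c : ℕ → ℂ} (hc : ∀ n, c n ∈ L)
    (h : ∀ τ : ℍ, HasSum (fun n => c n * (qN N τ ^ k) ^ n) (f τ)) : QS N L f :=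
  ⟨fun n => if k ∣ n then c (n / k) else 0, fun n => by
    beta_reduce
    split_ifs
    exacts [hc _, zero_mem _], fun τ => vqs_expand hk (h τ)⟩

theorem vqs_single (m : ℕ) (c x : ℂ) :
    HasSum (fun n => (if n = m then c else 0) * x ^ n) (c * x ^ m) := by
  have h := hasSum_single (f := fun n => (if n = m then c else 0) * x ^ n) m fun n hn => by
    simp [hn]
  rwa [if_pos rfl] at h

theorem zt_dvd {M : ℕ} (hM : 0 < M) (h : N ∣ M) (hz : zt M ∈ L) : zt N ∈ L := by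
  obtain ⟨k, rfl⟩ := h
  have hk : (k : ℂ) ≠ 0 := Nat.cast_ne_zero.2 (Nat.pos_of_mul_pos_left hM).ne'
  have e : zt N = zt (N * k) ^ k := by
    rw [zt, zt, ← Complex.exp_nat_mul]
    congr 1
    push_cast
    rw [mul_comm (N : ℂ), ← div_div, mul_div_assoc', mul_div_cancel₀ _ hk]
  rw [e]
  exact pow_mem hz k

theorem exists_field (F : IntermediateField ℚ ℂ) [FiniteDimensional ℚ F]
    (L : IntermediateField ℚ ℂ) [FiniteDimensional ℚ L] {N : ℕ} (hN : 0 < N) :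
    ∃ F' : IntermediateField ℚ ℂ, FiniteDimensional ℚ F' ∧ F ≤ F' ∧ L ≤ F' ∧ zt N ∈ F' := by
  have h1 : IsIntegral ℚ (zt N) := IsIntegral.of_pow hN (by
    rw [show zt N ^ N = 1 from (Complex.isPrimitiveRoot_exp N hN.ne').pow_eq_one]
    exact isIntegral_one)
  have h2 := IntermediateField.adjoin.finiteDimensional h1
  exact ⟨F ⊔ L ⊔ IntermediateField.adjoin ℚ {zt N}, inferInstance, le_sup_left.trans le_sup_left,
    le_sup_right.trans le_sup_left,
    SetLike.le_def.1 le_sup_right (IntermediateField.mem_adjoin_simple_self ℚ _)⟩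

theorem QS.add (hf : QS N L f) (hg : QS N L g) : QS N L fun τ => f τ + g τ := by
  obtain ⟨a, ha, ha'⟩ := hf
  obtain ⟨b, hb, hb'⟩ := hg
  exact ⟨fun n => a n + b n, fun n => add_mem (ha n) (hb n),
    fun τ => iq2_congr ((ha' τ).add (hb' τ)) fun n => add_mul _ _ _⟩

theorem QS.mul (hN : 0 < N) (hf : QS N L f) (hg : QS N L g) : QS N L fun τ => f τ * g τ := by
  obtain ⟨a, ha, ha'⟩ := hf
  obtain ⟨b, hb, hb'⟩ := hg
  exact ⟨_, fun n => sum_mem fun p _ => mul_mem (ha p.1) (hb p.2),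
    fun τ => vqs_cauchy (ha' τ) (hb' τ)⟩

theorem qs_const {c : ℂ} (hc : c ∈ L) : QS N L fun _ => c := by
  refine ⟨fun n => if n = 0 then c else 0, fun n => ?_, fun τ => ?_⟩
  · beta_reduce
    split_ifs
    exacts [hc, zero_mem _]
  · simpa only [pow_zero, mul_one] using vqs_single 0 c (qN N τ)

theorem QS.pow (hN : 0 < N) (hf : QS N L f) (m : ℕ) : QS N L fun τ => f τ ^ m := by
  induction m with
  | zero => simpa only [pow_zero] using qs_const (one_mem L)
  | succ m ih => simpa only [pow_succ] using ih.mul hN hf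

theorem qs_qN (N : ℕ) (L : IntermediateField ℚ ℂ) : QS N L (qN N) := by
  refine ⟨fun n => if n = 1 then 1 else 0, fun n => ?_, fun τ => ?_⟩
  · beta_reduce
    split_ifs
    exacts [one_mem _, zero_mem _]
  · simpa only [pow_one, one_mul] using vqs_single 1 1 (qN N τ)

theorem QS.mono {L' : IntermediateField ℚ ℂ} (h : L ≤ L') (hf : QS N L f) : QS N L' f := by
  obtain ⟨a, ha, ha'⟩ := hf
  exact ⟨a, fun n => h (ha n), ha'⟩

theorem QS.level {N' : ℕ} (hN' : 0 < N') (h : N ∣ N') (hf : QS N L f) : QS N' L f := by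
  obtain ⟨a, ha, ha'⟩ := hf
  obtain ⟨k, rfl⟩ := h
  have hk := Nat.pos_of_mul_pos_left hN'
  exact vqs_exp hk ha fun τ => by
    rw [vqs_pow hk]
    exact ha' τ

theorem IntQ.qs (hN : 0 < N) (hf : IntQ f) : QS N L f := by
  obtain ⟨a, ha⟩ := hf
  refine QS.level hN (one_dvd N) ⟨fun n => a n, fun n => intCast_mem L _, fun τ => ?_⟩
  have e : qN 1 τ = qq τ := by simp [qN, qq]
  rw [e]
  exact ha τ

theorem QS.aff (hN : 0 < N) (hf : QS N L f) {a d : ℕ} (ha : 0 < a) (hd : 0 < d) (b : ℤ)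
    {L' : IntermediateField ℚ ℂ} (h : L ≤ L') (hz : zt (N * d) ∈ L') {w : ℍ → ℍ}
    (hw : ∀ τ : ℍ, (w τ : ℂ) = (a * τ + b) / d) : QS (N * d) L' fun τ => f (w τ) := by
  obtain ⟨c, hc, hc'⟩ := hf
  refine vqs_exp ha (c := fun n => c n * (zt (N * d) ^ b) ^ n)
    (fun n => mul_mem (h (hc n)) (pow_mem (zpow_mem hz b) n)) fun τ => ?_
  have h1 : (N : ℂ) ≠ 0 := Nat.cast_ne_zero.2 hN.ne'
  have h2 : (d : ℂ) ≠ 0 := Nat.cast_ne_zero.2 hd.ne'
  have e : qN N (w τ) = zt (N * d) ^ b * qN (N * d) τ ^ a := by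
    rw [qN, qN, zt, hw, ← Complex.exp_nat_mul, ← Complex.exp_int_mul, ← Complex.exp_add]
    congr 1
    push_cast
    field_simp
    ring
  refine iq2_congr (hc' (w τ)) fun n => ?_
  rw [e, mul_pow, mul_assoc]

theorem QS.one (hN : 0 < N) (hf : QS N L f) (hp : ∀ τ : ℍ, f (ModularGroup.T • τ) = f τ) :
    QS 1 L f := by
  obtain ⟨c, hc, hc'⟩ := hf
  have e : ∀ τ : ℍ, qN N (ModularGroup.T • τ) = zt N * qN N τ := fun τ => by
    rw [qN, qN, zt, modular_T_smul, coe_vadd, ← Complex.exp_add]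
    congr 1
    push_cast
    ring
  have h1 := vqs_unique hN (a := fun n => c n * zt N ^ n) (fun τ => by
    have h := hc' (ModularGroup.T • τ)
    rw [hp, e] at h
    exact iq2_congr h fun n => by rw [mul_pow, mul_assoc]) hc'
  have h2 : ∀ n, ¬ N ∣ n → c n = 0 := fun n hn => by
    by_contra h0
    exact hn (((Complex.isPrimitiveRoot_exp N hN.ne').pow_eq_one_iff_dvd n).1
      (mul_right_eq_self₀.1 (congrFun h1 n) |>.resolve_right h0))
  have hi : Function.Injective fun m : ℕ => N * m := mul_right_injective₀ hN.ne'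
  refine ⟨fun m => c (N * m), fun m => hc _, fun τ => ?_⟩
  have h3 := (hi.hasSum_iff fun n hn => by
    rw [h2 n fun ⟨m, hm⟩ => hn ⟨m, hm.symm⟩, zero_mul]).2 (hc' τ)
  refine iq2_congr h3 fun m => ?_
  have h4 := vqs_pow hN 1 τ
  rw [one_mul] at h4
  rw [Function.comp_apply, pow_mul, h4]

theorem QS.continuous (hN : 0 < N) (hf : QS N L f) : Continuous f := by
  obtain ⟨c, -, hc'⟩ := hf
  have h1 : Continuous (qN N) := by
    unfold qN
    fun_prop
  have h2 := (iq2_diff fun q hq => iq2_summable (vqs_tr hN hc') hq).continuousOn.comp_continuous h1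
    fun τ => mem_ball_zero_iff.2 (vqs_lt hN τ)
  exact h2.congr fun τ => (hc' τ).tsum_eq

theorem QS.eq_zero (hN : 0 < N) (hf : QS N L f) (hg : QS N L g) (h : ∀ τ, f τ * g τ = 0) :
    (∀ τ, f τ = 0) ∨ ∀ τ, g τ = 0 := by
  obtain ⟨a, -, ha⟩ := hf
  obtain ⟨b, -, hb⟩ := hg
  have h1 := vqs_unique hN (f := fun τ => f τ * g τ) (b := fun _ => 0)
    (fun τ => vqs_cauchy (ha τ) (hb τ)) fun τ => by simpa [h τ] using hasSum_zero
  have h2 : PowerSeries.mk a * PowerSeries.mk b = 0 := by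
    ext n
    simpa [PowerSeries.coeff_mul] using congrFun h1 n
  have h3 : ∀ {c : ℕ → ℂ} {u : ℍ → ℂ}, (∀ τ : ℍ, HasSum (fun n => c n * qN N τ ^ n) (u τ)) →
      PowerSeries.mk c = 0 → ∀ τ, u τ = 0 := fun {c u} hc h0 τ => by
    have h4 : ∀ n, c n = 0 := fun n => by simpa using congrArg (PowerSeries.coeff n) h0
    exact (hc τ).unique (by simpa [h4] using hasSum_zero)
  exact (mul_eq_zero.1 h2).imp (h3 ha) (h3 hb)

end Pool.Agent.EQ
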