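import Pool.Agent.P.MP_ad7a55_nt.VMe
import Pool.Agent.P.MP_ad7a55_nt.Free

/-! Rigidity of measures on the covering space. -/

set_option autoImplicit false

noncomputable section

open MeasureTheory Topology Filter UpperHalfPlane
open scoped MatrixGroups ENNReal BoundedContinuousFunction

namespace Pool.Agent.EQ

variable {p : ℕ} [Fact p.Prime] {N : ℕ} {κ : Type} [Fintype κ]

theorem vrg_le {W : Type} [TopologicalSpace W] [PolishSpace W] [MeasurableSpace W] [BorelSpace W]
    {ν m : Measure W} [IsFiniteMeasure ν] (h : ∀ K, IsCompact K → ν K ≤ m K) : ν ≤ m := by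
  refine Measure.le_iff.2 fun B hB => ?_
  rw [hB.measure_eq_iSup_isCompact_of_ne_top (measure_ne_top ν B)]
  exact iSup_le fun K => iSup_le fun hK => iSup_le fun hc => (h K hc).trans (measure_mono hK)

/-- Right translation by an element of the big lattice. -/
def vrgT (p : ℕ) [Fact p.Prime] (N : ℕ) (r : Gam p) : XN p N → XN p N :=
  Quotient.map' (fun g => g * r.1) fun a b hab => by
    rw [QuotientGroup.leftRel_apply] at hab ⊢
    have := GN_conj hab ((Gam p).inv_mem r.2)
    simpa [mul_assoc] using this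

theorem vrgT_mk (r : Gam p) (g : GG p) :
    vrgT p N r (g : XN p N) = ((g * r.1 : GG p) : XN p N) := rfl

theorem vrgT_cont (r : Gam p) : Continuous (vrgT p N r) := by
  refine (QuotientGroup.isQuotientMap_mk (GN p N)).continuous_iff.2 ?_
  exact QuotientGroup.continuous_mk.comp (continuous_id.mul continuous_const)

theorem vrgT_smul (r : Gam p) (g : GG p) (x : XN p N) :
    vrgT p N r (g • x) = g • vrgT p N r x := by
  induction x using QuotientGroup.induction_on with
  | H a =>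
    rw [MulAction.Quotient.smul_coe, vrgT_mk, vrgT_mk, MulAction.Quotient.smul_coe,
      smul_eq_mul, smul_eq_mul, mul_assoc]

theorem vrgT_map (hN : 0 < N) (r : Gam p) : (mN p N).map (vrgT p N r) = mN p N := by
  have hm := (vrgT_cont (N := N) r).measurable
  have := Measure.isProbabilityMeasure_map (μ := mN p N) hm.aemeasurable
  have h := eq_mN hN ((mN p N).map (vrgT p N r)) fun g => by
    rw [mem_Stab, Measure.map_map (measurable_const_smul g) hm]
    conv_rhs => rw [← mN_inv hN g, Measure.map_map hm (measurable_const_smul g)]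
    congr 1
    funext x
    exact (vrgT_smul r g x).symm
  rwa [measure_univ, one_smul] at h

theorem le_mPN (hN : 0 < N) (p : ℕ) [Fact p.Prime] (κ : Type) [Fintype κ] :
    ∃ c : ℝ≥0∞, c ≠ ∞ ∧ ∀ (ν : Measure (κ → XN p N)) (C : ℝ≥0∞), IsFiniteMeasure ν →
      ν.map (covP p N) ≤ C • mP p κ → ν ≤ (C * c) • mPN p N κ := by
  classical
  obtain ⟨R, hR, hf⟩ := cov_fib (p := p) hN
  refine ⟨(Fintype.card (κ → R) : ℝ≥0∞), ENNReal.natCast_ne_top _, fun ν C hν h => ?_⟩
  refine vrg_le fun K hK => ?_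
  have hc := continuous_covP p N (κ := κ)
  have hA : MeasurableSet (covP p N '' K) := (hK.image hc).measurableSet
  let T : (κ → R) → (κ → XN p N) → (κ → XN p N) := fun r w k =>
    vrgT p N ⟨(r k).1, hR _ (r k).2⟩ (w k)
  have hT : ∀ r, MeasurePreserving (T r) (mPN p N κ) (mPN p N κ) := fun r =>
    measurePreserving_pi (fun _ : κ => mN p N) (fun _ : κ => mN p N)
      (f := fun k x => vrgT p N ⟨(r k).1, hR _ (r k).2⟩ x)
      fun k => ⟨(vrgT_cont _).measurable, vrgT_map hN _⟩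
  have hsub : covP p N ⁻¹' (covP p N '' K) ⊆ ⋃ r, T r ⁻¹' K := by
    rintro y ⟨x, hx, hxy⟩
    have h1 : ∀ k, ∃ r : R, x k = vrgT p N ⟨r.1, hR _ r.2⟩ (y k) := fun k => by
      obtain ⟨g, hg⟩ := QuotientGroup.mk_surjective (y k)
      have e : cov p N (x k) = cov p N (y k) := congrFun hxy k
      rw [← hg, cov_mk] at e
      obtain ⟨r, hr, e'⟩ := hf g (x k) e
      exact ⟨⟨r, hr⟩, by rw [← hg, vrgT_mk]; exact e'⟩
    choose r hr using h1
    refine Set.mem_iUnion.2 ⟨r, ?_⟩
    have : T r y = x := funext fun k => (hr k).symm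
    rw [Set.mem_preimage, this]
    exact hx
  have h2 : mPN p N κ (covP p N ⁻¹' (covP p N '' K)) ≤
      (Fintype.card (κ → R) : ℝ≥0∞) * mPN p N κ K := by
    refine (measure_mono hsub).trans ((measure_iUnion_fintype_le _ _).trans (le_of_eq ?_))
    rw [Finset.sum_congr rfl fun r _ => (hT r).measure_preimage hK.measurableSet.nullMeasurableSet]
    simp
  calc ν K ≤ ν (covP p N ⁻¹' (covP p N '' K)) := measure_mono (Set.subset_preimage_image _ _)
    _ = ν.map (covP p N) (covP p N '' K) := (Measure.map_apply hc.measurable hA).symm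
    _ ≤ C * mP p κ (covP p N '' K) := h _
    _ = C * mPN p N κ (covP p N ⁻¹' (covP p N '' K)) := by
      rw [← map_covP hN κ, Measure.map_apply hc.measurable hA]
    _ ≤ C * ((Fintype.card (κ → R) : ℝ≥0∞) * mPN p N κ K) := by gcongr
    _ = _ := by rw [Measure.smul_apply, smul_eq_mul, mul_assoc]

/-- Forget the coordinate `k`. -/
def vrgRes (k : κ) (w : κ → XN p N) : {j // j ≠ k} → XN p N := fun j => w j.1

omit [Fintype κ] in
theorem vrg_meas_res (k : κ) : Measurable (vrgRes (p := p) (N := N) k) :=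
  measurable_pi_lambda _ fun j => measurable_pi_apply j.1

/-- The law of the coordinate `k` on the event that the other coordinates lie in `C`. -/
def vrgSlice (ρ : Measure (κ → XN p N)) (k : κ) (C : Set ({j // j ≠ k} → XN p N)) :
    Measure (XN p N) :=
  (ρ.restrict (vrgRes k ⁻¹' C)).map (fun w => w k)

omit [Fintype κ] in
theorem vrgSlice_apply (ρ : Measure (κ → XN p N)) (k : κ) (C : Set ({j // j ≠ k} → XN p N))
    {B : Set (XN p N)} (hB : MeasurableSet B) :
    vrgSlice ρ k C B = ρ ((fun w => w k) ⁻¹' B ∩ vrgRes k ⁻¹' C) := by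
  rw [vrgSlice, Measure.map_apply (measurable_pi_apply k) hB,
    Measure.restrict_apply (measurable_pi_apply k hB)]

theorem vrgSlice_stab [DecidableEq κ] {ρ : Measure (κ → XN p N)} {k : κ}
    {C : Set ({j // j ≠ k} → XN p N)} (hC : MeasurableSet C) {g : GG p}
    (h : Pi.mulSingle (M := fun _ => GG p) k g ∈ Stab (κ → GG p) ρ) :
    g ∈ Stab (GG p) (vrgSlice ρ k C) := by
  rw [mem_Stab] at h ⊢
  ext B hB
  have hm : MeasurableSet ((fun w : κ → XN p N => w k) ⁻¹' B ∩ vrgRes k ⁻¹' C) :=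
    (measurable_pi_apply k hB).inter (vrg_meas_res k hC)
  rw [Measure.map_apply (measurable_const_smul g) hB,
    vrgSlice_apply _ _ _ (measurable_const_smul g hB), vrgSlice_apply _ _ _ hB]
  conv_rhs => rw [← h]
  rw [Measure.map_apply (measurable_const_smul _) hm]
  congr 1
  ext w
  have e1 : (Pi.mulSingle (M := fun _ => GG p) k g • w) k = g • w k := by
    simp [Pi.smul_apply']
  have e2 : vrgRes k (Pi.mulSingle (M := fun _ => GG p) k g • w) = vrgRes k w := by
    funext j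
    simp [vrgRes, Pi.smul_apply', Pi.mulSingle_eq_of_ne j.2]
  simp only [Set.mem_inter_iff, Set.mem_preimage, e1, e2]

theorem vrg_free [DecidableEq κ] (hN : 0 < N) {ρ : Measure (κ → XN p N)} [IsFiniteMeasure ρ]
    {k : κ} (h : ∀ g : SL(2, ℚ_[p]),
      Pi.mulSingle (M := fun _ => GG p) k (1, g) ∈ Stab (κ → GG p) ρ)
    {B : Set (XN p N)} {C : Set ({j // j ≠ k} → XN p N)} (hB : MeasurableSet B)
    (hC : MeasurableSet C) :
    ρ ((fun w => w k) ⁻¹' B ∩ vrgRes k ⁻¹' C) = mN p N B * ρ (vrgRes k ⁻¹' C) := by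
  have : IsFiniteMeasure (vrgSlice ρ k C) := by unfold vrgSlice; infer_instance
  rw [← vrgSlice_apply ρ k C hB, eq_mN_of_P hN (vrgSlice ρ k C) fun g => vrgSlice_stab hC (h g),
    Measure.smul_apply, smul_eq_mul,
    vrgSlice_apply ρ k C MeasurableSet.univ, Set.preimage_univ, Set.univ_inter, mul_comm]

theorem eq_of_all_P [DecidableEq κ] (hN : 0 < N) (ρ : Measure (κ → XN p N)) [IsFiniteMeasure ρ]
    (h : ∀ k (g : SL(2, ℚ_[p])),
      Pi.mulSingle (M := fun _ => GG p) k (1, g) ∈ Stab (κ → GG p) ρ) :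
    ρ = ρ Set.univ • mPN p N κ := by
  have key : ∀ s : κ → Set (XN p N), (∀ j, MeasurableSet (s j)) → ∀ T : Finset κ,
      ρ (Set.pi (T : Set κ) s) = (∏ j ∈ T, mN p N (s j)) * ρ Set.univ := by
    intro s hs T
    induction T using Finset.induction_on with
    | empty => simp
    | insert k T hk ih =>
      have hC : MeasurableSet
          (Set.pi {j : {j // j ≠ k} | j.1 ∈ T} fun j : {j // j ≠ k} => s j.1) :=
        MeasurableSet.pi (Set.to_countable _) fun j _ => hs j.1
      have e1 : vrgRes k ⁻¹' (Set.pi {j : {j // j ≠ k} | j.1 ∈ T} fun j : {j // j ≠ k} => s j.1) =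
          Set.pi (T : Set κ) s := by
        ext w
        simp only [Set.mem_pi, Set.mem_preimage, vrgRes, Set.mem_ofPred_eq, Finset.mem_coe]
        exact ⟨fun hw j hj => hw ⟨j, fun e => hk (e ▸ hj)⟩ hj, fun hw j hj => hw j.1 hj⟩
      have e2 : Set.pi ((insert k T : Finset κ) : Set κ) s =
          (fun w => w k) ⁻¹' s k ∩ Set.pi (T : Set κ) s := by
        rw [Finset.coe_insert, Set.insert_pi]
      have := vrg_free hN (h k) (hs k) hC
      rw [e1] at this
      rw [e2, this, ih, Finset.prod_insert hk, mul_assoc]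
  refine ext_of_generate_finite _ generateFrom_pi.symm isPiSystem_pi ?_ (by simp)
  rintro _ ⟨s, hs, rfl⟩
  have hs' : ∀ j, MeasurableSet (s j) := fun j => hs j (Set.mem_univ j)
  have := key s hs' Finset.univ
  rw [Finset.coe_univ] at this
  rw [this, Measure.smul_apply, smul_eq_mul, mPN, Measure.pi_pi, mul_comm]

theorem vrg_mprop (hN : 0 < N) (ν : Measure (κ → XN p N))
    [IsFiniteMeasure ν] {C : ℝ≥0∞} (hC : C ≠ ∞) (h : ν.map (covP p N) ≤ C • mP p κ) :
    MProp (Stab (κ → GG p) ν) := by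
  obtain ⟨c, hc, hle⟩ := le_mPN hN p κ
  have : IsFiniteMeasure ((C * c) • mPN p N κ) :=
    ⟨by simpa using ENNReal.mul_lt_top hC.lt_top hc.lt_top⟩
  exact mprop_Stab ((C * c) • mPN p N κ) ν
    (fun g => by rw [Measure.map_smul, mPN_inv hN]) (hle ν C inferInstance h)

theorem rig_U (hN : 0 < N) {d : κ → ℚ_[p]} (hd : ∀ k, d k ≠ 0) (ν : Measure (κ → XN p N))
    [IsFiniteMeasure ν] {C : ℝ≥0∞} (hC : C ≠ ∞) (h : ν.map (covP p N) ≤ C • mP p κ)
    (hi : Inv (uflN p N d) ν) : ν = ν Set.univ • mPN p N κ := by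
  classical
  exact eq_of_all_P hN ν fun k g =>
    mautner_U p _ (vrg_mprop hN ν hC h) d hd (fun s => hi s) k g

theorem rig_A (hN : 0 < N) {M : ℕ} (hM : 0 < M) (ν : Measure (κ → XN p N))
    [IsFiniteMeasure ν] {C : ℝ≥0∞} (hC : C ≠ ∞) (h : ν.map (covP p N) ≤ C • mP p κ)
    (hi : (fun _ => aP p M) ∈ Stab (κ → GG p) ν) : ν = ν Set.univ • mPN p N κ := by
  classical
  have h1 : ‖(p : ℚ_[p]) ^ M‖ < 1 := by
    rw [norm_pow]
    exact pow_lt_one₀ (norm_nonneg _) Padic.norm_p_lt_one hM.ne'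
  refine eq_of_all_P hN ν fun k g => ?_
  refine maut_contract (vrg_mprop hN ν hC h)
    ((MonoidHom.mulSingle (fun _ : κ => GG p) k).comp (MonoidHom.inr SL(2, ℝ) SL(2, ℚ_[p])))
    ((continuous_mulSingle (A := fun _ : κ => GG p) k).comp (continuous_const.prodMk continuous_id))
    ((p : ℚ_[p]) ^ M)
    (pow_ne_zero _ (Nat.cast_ne_zero.2 (Fact.out : p.Prime).ne_zero)) h1
    (A := fun _ => aP p M) hi (fun b => ?_) g
  funext j
  by_cases hj : j = k
  · subst hj
    simp [aP]
  · simp [Pi.mulSingle_eq_of_ne hj]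

theorem erg_mPN (hN : 0 < N) {d : κ → ℚ_[p]} (hd : ∀ k, d k ≠ 0) :
    Erg (uflN p N d) (mPN p N κ) := by
  classical
  refine erg_of_ext _ (fun s => mPN_inv hN fun k => uP p (d k * s)) fun μ hμ hi => ?_
  have : IsFiniteMeasure μ := isFiniteMeasure_of_le _ hμ
  exact eq_of_all_P hN μ fun k g =>
    mautner_U p _ (mprop_Stab (mPN p N κ) μ (mPN_inv hN) hμ) d hd (fun s => hi s) k g

theorem exists_limN (hN : 0 < N) (𝒰 : Ultrafilter ℕ) (h𝒰 : (𝒰 : Filter ℕ) ≤ atTop)
    (μ : ℕ → Measure (κ → XN p N)) [∀ i, IsProbabilityMeasure (μ i)]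
    (lam : ℕ → Measure (κ → XX p)) [∀ i, IsProbabilityMeasure (lam i)] (h : WT 𝒰 lam (mP p κ))
    {C : ℝ≥0∞} (hC : C ≠ ∞) (hle : ∀ᶠ i in 𝒰, (μ i).map (covP p N) ≤ C • lam i) :
    ∃ ν : Measure (κ → XN p N), IsProbabilityMeasure ν ∧ WT 𝒰 μ ν ∧
      ν.map (covP p N) ≤ C • mP p κ := by
  have hc := continuous_covP p N (κ := κ)
  obtain ⟨ν, hν, hw⟩ := exists_WT 𝒰 h𝒰 μ fun ε hε => by
    have hδ : ε / (C + 1) ≠ 0 :=
      (ENNReal.div_pos hε.ne' (ENNReal.add_ne_top.2 ⟨hC, ENNReal.one_ne_top⟩)).ne'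
    obtain ⟨K, -, hK, hlt⟩ := MeasurableSet.univ.exists_isCompact_sdiff_lt
      (measure_ne_top (mP p κ) _) hδ
    obtain ⟨K1, hK1, hs⟩ := exists_compact_superset hK
    have hF : mP p κ (interior K1)ᶜ < ε / (C + 1) :=
      lt_of_le_of_lt (measure_mono fun x hx => Set.mem_sdiff_of_mem trivial fun h' => hx (hs h')) hlt
    refine ⟨covP p N ⁻¹' K1, isCompact_covP hN hK1, ?_⟩
    filter_upwards [hle, h.closed_lt isOpen_interior.isClosed_compl hF] with i h1 h2
    calc μ i (covP p N ⁻¹' K1)ᶜ = (μ i).map (covP p N) K1ᶜ := by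
          rw [Measure.map_apply hc.measurable hK1.measurableSet.compl, Set.preimage_compl]
      _ ≤ C * lam i K1ᶜ := h1 _
      _ ≤ (C + 1) * (ε / (C + 1)) :=
          mul_le_mul' le_self_add
            ((measure_mono (Set.compl_subset_compl.2 interior_subset)).trans h2.le)
      _ ≤ ε := ENNReal.mul_div_le
  refine ⟨ν, hν, hw, ?_⟩
  have h1 : ∀ i, IsProbabilityMeasure ((μ i).map (covP p N)) := fun i =>
    Measure.isProbabilityMeasure_map hc.measurable.aemeasurable
  have h2 : IsProbabilityMeasure (ν.map (covP p N)) :=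
    Measure.isProbabilityMeasure_map hc.measurable.aemeasurable
  have hw' := hw.map hc
  refine vrg_le fun K hK => ?_
  have h3 : Tendsto (fun c => C * c) (𝓝[>] (mP p κ K)) (𝓝 (C * mP p κ K)) :=
    (ENNReal.Tendsto.const_mul tendsto_id (Or.inr hC)).mono_left nhdsWithin_le_nhds
  have h4 : (𝓝[>] (mP p κ K)).NeBot := nhdsGT_neBot_of_exists_gt ⟨⊤, measure_lt_top _ _⟩
  refine ge_of_tendsto h3 (eventually_nhdsWithin_of_forall fun c hcK => ?_)
  obtain ⟨V, hKV, hV, hVc⟩ := K.exists_isOpen_lt_of_lt c hcK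
  obtain ⟨L, hL, hKL, hLV⟩ := exists_compact_between hK hV hKV
  refine (measure_mono hKL).trans (hw'.open_le isOpen_interior ?_)
  filter_upwards [hle, h.closed_lt hL.isClosed ((measure_mono hLV).trans_lt hVc)] with i h5 h6
  calc (μ i).map (covP p N) (interior L) ≤ C * lam i (interior L) := h5 _
    _ ≤ C * c := mul_le_mul' le_rfl ((measure_mono interior_subset).trans h6.le)

theorem lift_A (hN : 0 < N) {M : ℕ} (hM : 0 < M) (𝒰 : Ultrafilter ℕ)
    (h𝒰 : (𝒰 : Filter ℕ) ≤ atTop) (μ : ℕ → Measure (κ → XN p N))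
    [∀ i, IsProbabilityMeasure (μ i)] (lam : ℕ → Measure (κ → XX p))
    [∀ i, IsProbabilityMeasure (lam i)] (h : WT 𝒰 lam (mP p κ)) {C : ℝ≥0∞} (hC : C ≠ ∞)
    (hle : ∀ᶠ i in 𝒰, (μ i).map (covP p N) ≤ C • lam i)
    (ha : ∀ f : (κ → XN p N) →ᵇ ℝ, Tendsto
      (fun i => ∫ w, f ((fun _ => aP p M : κ → GG p) • w) ∂μ i - ∫ w, f w ∂μ i) 𝒰 (𝓝 0)) :
    WT 𝒰 μ (mPN p N κ) := by
  obtain ⟨ν, hν, hw, hl⟩ := exists_limN hN 𝒰 h𝒰 μ lam h hC hle
  have hi : (fun _ => aP p M) ∈ Stab (κ → GG p) ν := by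
    have hc : Continuous fun w : κ → XN p N => (fun _ => aP p M : κ → GG p) • w :=
      continuous_const_smul _
    have := Measure.isProbabilityMeasure_map (μ := ν) hc.measurable.aemeasurable
    refine ext_of_forall_integral_eq_of_IsFiniteMeasure fun f => ?_
    rw [integral_map hc.measurable.aemeasurable f.continuous.aestronglyMeasurable]
    have h1 := (hw (f.compContinuous ⟨_, hc⟩)).sub (hw f)
    exact sub_eq_zero.1 (tendsto_nhds_unique h1 (ha f))
  have e := rig_A hN hM ν hC hl hi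
  rw [measure_univ, one_smul] at e
  exact e ▸ hw

end Pool.Agent.EQ
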