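import Pool.Agent.P.MP_ad7a55_nt.Ord2

/-! Covolume, norm, class sets and integral ideals. -/

set_option autoImplicit false

noncomputable section

open MeasureTheory Topology Filter UpperHalfPlane
open scoped MatrixGroups ENNReal BoundedContinuousFunction

namespace Pool.Agent.EQ

open Classical in
/-- The covolume of a lattice. -/
def vol (Λ : Lt) : ℝ :=
  if h : IsLat Λ then Complex.normSq h.choose * h.choose_spec.choose.im else 0

/-- The norm of a lattice of discriminant `D`. -/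
def nm (D : ℤ) (Λ : Lt) : ℝ := 2 * vol Λ / Real.sqrt (-(D : ℝ))

/-- The `j`-invariants of discriminant `D`. -/
def Cl (D : ℤ) : Set ℂ := {z | ∃ Λ, DiscL Λ D ∧ jL Λ = z}

/-- The invertible integral ideals of norm `n`. -/
def Idl (D : ℤ) (n : ℕ) : Set Lt := {𝔞 | DiscL 𝔞 D ∧ 𝔞 ≤ OD D ∧ nm D 𝔞 = n}

theorem Cl_finite (D : ℤ) : (Cl D).Finite := finite_disc D

theorem vol_sp {c : ℂ} (hc : c ≠ 0) (τ : ℍ) : vol (sp c (c * τ)) = Complex.normSq c * τ.im := by
  have key : ∀ (c' : ℂ) (τ' : ℍ), c' ≠ 0 → sp c (c * τ) = sp c' (c' * τ') →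
      Complex.normSq c' * τ'.im = Complex.normSq c * τ.im := by
    intro c' τ' hc' h
    obtain ⟨γ, h3, h4⟩ := exists_SL_of_sp_eq hc hc' h
    have h5 := sl_den_mul_lat γ τ
    rw [← h3] at h5
    have hd : (γ 0 0 : ℝ) * γ 1 1 - γ 0 1 * γ 1 0 = 1 := by
      have := γ.det_coe
      rw [Matrix.det_fin_two] at this
      exact_mod_cast this
    have h6 := congrArg Complex.re h5
    have h7 := congrArg Complex.im h5
    simp at h6 h7
    rw [h4, map_mul, mul_assoc]
    congr 1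
    simp [Complex.normSq_apply]
    linear_combination ((γ 1 0 : ℝ) * τ.re + γ 1 1) * h7 - (γ 1 0 : ℝ) * τ.im * h6 + τ.im * hd
  have h := isLat_sp hc τ
  unfold vol
  rw [dif_pos h]
  exact key _ _ h.choose_spec.choose_spec.1 h.choose_spec.choose_spec.2

/-- The covolume in terms of an arbitrary basis. -/
theorem vol_sp' {a b : ℂ} (h : (starRingEnd ℂ a * b).im ≠ 0) :
    IsLat (sp a b) ∧ vol (sp a b) = |(starRingEnd ℂ a * b).im| := by
  have ha : a ≠ 0 := by
    rintro rfl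
    simp at h
  have hn := Complex.normSq_pos.2 ha
  have key : ∀ b : ℂ, 0 < (starRingEnd ℂ a * b).im →
      IsLat (sp a b) ∧ vol (sp a b) = (starRingEnd ℂ a * b).im := by
    intro b hb
    have e : (starRingEnd ℂ a * b).im = Complex.normSq a * (b / a).im := by
      have : starRingEnd ℂ a * b = (Complex.normSq a : ℂ) * (b / a) := by
        rw [Complex.normSq_eq_conj_mul_self]
        field_simp
      rw [this, Complex.im_ofReal_mul]
    have hp : 0 < (b / a).im := by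
      rw [e] at hb
      exact (mul_pos_iff_of_pos_left hn).1 hb
    have e2 : sp a b = sp a (a * ((⟨b / a, hp⟩ : ℍ) : ℂ)) := by
      congr 1
      change b = a * (b / a)
      field_simp
    rw [e2, vol_sp ha, e]
    exact ⟨isLat_sp ha _, rfl⟩
  rcases lt_or_gt_of_ne h with h1 | h1
  · have := key (-b) (by rw [mul_neg, Complex.neg_im]; linarith)
    rw [ord_sp_neg, mul_neg, Complex.neg_im] at this
    rwa [abs_of_neg h1]
  · rw [abs_of_pos h1]
    exact key b h1

theorem vol_pos {Λ : Lt} (h : IsLat Λ) : 0 < vol Λ := by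
  obtain ⟨c, τ, hc, rfl⟩ := h
  rw [vol_sp hc]
  exact mul_pos (Complex.normSq_pos.2 hc) τ.im_pos

theorem vol_pr_mul {Λ : Lt} (h : IsLat Λ) {c : ℂ} (hc : c ≠ 0) :
    vol (pr c * Λ) = Complex.normSq c * vol Λ := by
  obtain ⟨a, τ, ha, rfl⟩ := h
  rw [pr_mul_sp, ← mul_assoc, vol_sp (mul_ne_zero hc ha), vol_sp ha, map_mul, mul_assoc]

theorem IsLat.cj {Λ : Lt} (h : IsLat Λ) : IsLat (cj Λ) ∧ vol (cj Λ) = vol Λ := by
  obtain ⟨c, τ, hc, rfl⟩ := h
  have hp := mul_pos (Complex.normSq_pos.2 hc) τ.im_pos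
  have e : (starRingEnd ℂ (starRingEnd ℂ c) * starRingEnd ℂ (c * τ)).im =
      -(Complex.normSq c * τ.im) := by
    simp [Complex.normSq_apply]
    ring
  have := vol_sp' (a := starRingEnd ℂ c) (b := starRingEnd ℂ (c * τ)) (by rw [e]; linarith)
  rw [e, abs_neg, abs_of_pos hp] at this
  rw [cj_sp, vol_sp hc]
  exact this

theorem vol_OD {D : ℤ} (hD : IsD D) : vol (OD D) = Real.sqrt (-(D : ℝ)) / 2 := by
  have hr : (D : ℝ) < 0 := by exact_mod_cast hD.1
  have hp : 0 < Real.sqrt (-(D : ℝ)) / 2 := div_pos (Real.sqrt_pos.2 (by linarith)) two_pos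
  have e : (starRingEnd ℂ 1 * ((D + th D) / 2)).im = Real.sqrt (-(D : ℝ)) / 2 := by
    simp [ord2_th_im]
  have := (vol_sp' (a := 1) (b := (D + th D) / 2) (by rw [e]; exact hp.ne')).2
  rwa [e, abs_of_pos hp] at this

theorem nm_OD {D : ℤ} (hD : IsD D) : nm D (OD D) = 1 := by
  have hr : (D : ℝ) < 0 := by exact_mod_cast hD.1
  have hp : 0 < Real.sqrt (-(D : ℝ)) := Real.sqrt_pos.2 (by linarith)
  rw [nm, vol_OD hD]
  field_simp

theorem DiscL.nm_pos {Λ : Lt} {D : ℤ} (h : DiscL Λ D) : 0 < nm D Λ := by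
  have hr : (D : ℝ) < 0 := by exact_mod_cast h.isD.1
  exact div_pos (mul_pos two_pos (vol_pos h.isLat)) (Real.sqrt_pos.2 (by linarith))

theorem nm_pr_mul {Λ : Lt} (h : IsLat Λ) (D : ℤ) {c : ℂ} (hc : c ≠ 0) :
    nm D (pr c * Λ) = Complex.normSq c * nm D Λ := by
  rw [nm, nm, vol_pr_mul h hc]
  ring

theorem nm_cj {Λ : Lt} (h : IsLat Λ) (D : ℤ) : nm D (cj Λ) = nm D Λ := by
  rw [nm, nm, h.cj.2]

theorem DiscL.mul_cj_nm {Λ : Lt} {D : ℤ} (h : DiscL Λ D) :
    Λ * Pool.Agent.EQ.cj Λ = pr (nm D Λ) * OD D := by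
  obtain ⟨c', τ, hc', rfl, a, b, c, ha, hg, h, rfl⟩ := h
  have hj := ord_conj ha h
  obtain ⟨t, htt⟩ : ∃ t : ℂ, t = (nm (b ^ 2 - 4 * a * c) (sp c' (c' * τ)) : ℝ) := ⟨_, rfl⟩
  have ht : c' * starRingEnd ℂ c' = t * a := by
    have i1 : 2 * (a : ℝ) * τ.im = Real.sqrt (-((b ^ 2 - 4 * a * c : ℤ) : ℝ)) := by
      have := congrArg Complex.im (HasDisc.root ha h)
      rw [ord2_th_im] at this
      rw [← this]
      simp
    have ha' : (0 : ℝ) < a := by exact_mod_cast ha
    have hτ := τ.im_pos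
    have i2 : nm (b ^ 2 - 4 * a * c) (sp c' (c' * τ)) * a = Complex.normSq c' := by
      rw [nm, vol_sp hc', ← i1]
      field_simp
    rw [htt, Complex.mul_conj, ← i2]
    push_cast
    ring
  rw [← htt, ord_OD_eq ha h, pr_mul_sp, cj_sp, map_mul]
  apply le_antisymm
  · rw [Submodule.mul_le]
    intro u hu v hv
    obtain ⟨m, n, rfl⟩ := mem_sp.1 hu
    obtain ⟨m', n', rfl⟩ := mem_sp.1 hv
    refine mem_sp.2 ⟨a * m * m' - b * m * n' + c * n * n', n * m' - m * n', ?_⟩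
    push_cast
    linear_combination ((m : ℂ) + n * τ) * (m' + n' * starRingEnd ℂ τ) * ht +
      t * n' * ((m : ℂ) + n * τ) * hj - t * n * n' * h
  · have p1 := Submodule.mul_mem_mul (ord_left c' (c' * τ))
      (ord_left (starRingEnd ℂ c') (starRingEnd ℂ c' * starRingEnd ℂ τ))
    have p2 := Submodule.mul_mem_mul (ord_right c' (c' * τ))
      (ord_left (starRingEnd ℂ c') (starRingEnd ℂ c' * starRingEnd ℂ τ))
    have p3 := Submodule.mul_mem_mul (ord_left c' (c' * τ))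
      (ord_right (starRingEnd ℂ c') (starRingEnd ℂ c' * starRingEnd ℂ τ))
    have p4 := Submodule.mul_mem_mul (ord_right c' (c' * τ))
      (ord_right (starRingEnd ℂ c') (starRingEnd ℂ c' * starRingEnd ℂ τ))
    obtain ⟨u, v, w, huv⟩ := ord_bezout hg
    have huv' : (u : ℂ) * a + v * b + w * c = 1 := by exact_mod_cast huv
    refine ord_sp_le.2 ⟨?_, ?_⟩
    · have := add_mem (sub_mem (Submodule.smul_mem _ u p1) (Submodule.smul_mem _ v (add_mem p2 p3)))
        (Submodule.smul_mem _ w p4)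
      refine Eq.subst (motive := fun x => x ∈ _) ?_ this
      simp only [zsmul_eq_mul]
      linear_combination t * huv' +
        ((u : ℂ) - v * (τ + starRingEnd ℂ τ) + w * τ * starRingEnd ℂ τ) * ht -
        t * ((v : ℂ) - w * τ) * hj - t * w * h
    · refine Eq.subst (motive := fun x => x ∈ _) ?_ p2
      linear_combination (τ : ℂ) * ht

/-- A positive real generator of a principal module is determined by the module. -/
theorem pr_OD_inj {D : ℤ} (hD : IsD D) {a b : ℝ} (ha : 0 < a) (hb : 0 < b)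
    (h : pr a * OD D = pr b * OD D) : a = b := by
  have hL := (discL_OD hD).isLat
  have h1 := congrArg vol h
  rw [vol_pr_mul hL (Complex.ofReal_ne_zero.2 ha.ne'),
    vol_pr_mul hL (Complex.ofReal_ne_zero.2 hb.ne'), Complex.normSq_ofReal,
    Complex.normSq_ofReal] at h1
  exact (mul_self_inj_of_nonneg ha.le hb.le).1 (mul_right_cancel₀ (vol_pos hL).ne' h1)

theorem nm_mul {𝔞 Λ : Lt} {D D' : ℤ} (h : DiscL 𝔞 D) (h' : DiscL Λ D') (hle : OD D ≤ OD D') :
    nm D' (𝔞 * Λ) = nm D 𝔞 * nm D' Λ := by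
  refine pr_OD_inj h'.isD (h.mul h' hle).nm_pos (mul_pos h.nm_pos h'.nm_pos) ?_
  rw [← (h.mul h' hle).mul_cj_nm, cj_mul, mul_mul_mul_comm, h.mul_cj_nm, h'.mul_cj_nm,
    mul_mul_mul_comm, pr_mul_pr, ord2_OD_mul (discL_OD h'.isD) hle, Complex.ofReal_mul]

theorem DiscL.normSq_nat {Λ : Lt} {D : ℤ} (h : DiscL Λ D) {w : ℂ} (hw : w ∈ Λ) :
    ∃ n : ℕ, Complex.normSq w = n * nm D Λ := by
  have h1 : w * starRingEnd ℂ w ∈ Λ * Pool.Agent.EQ.cj Λ :=
    Submodule.mul_mem_mul hw (mem_cj.2 (by simpa using hw))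
  rw [h.mul_cj_nm, mem_pr_mul] at h1
  obtain ⟨x, hx, e⟩ := h1
  obtain ⟨m, n, rfl⟩ := mem_sp.1 hx
  rw [Complex.mul_conj] at e
  have hp := h.nm_pos
  have e1 := congrArg Complex.im e
  have hn : n = 0 := by
    have := ord2_th_im_ne h.isD.1
    simpa [hp.ne', this] using e1
  subst hn
  have e2 : nm D Λ * m = Complex.normSq w := by
    simpa using congrArg Complex.re e
  have hm : (0 : ℝ) ≤ m := by
    have := Complex.normSq_nonneg w
    rw [← e2] at this
    exact nonneg_of_mul_nonneg_right this hp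
  obtain ⟨k, rfl⟩ := Int.eq_ofNat_of_zero_le (show 0 ≤ m by exact_mod_cast hm)
  exact ⟨k, by rw [← e2, Int.cast_natCast, mul_comm]⟩

end Pool.Agent.EQ
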