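import Pool.Agent.P.MP_ad7a55_nt.VI3
import Pool.Agent.P.MP_ad7a55_nt.VTc

/-! Blocks of coordinates related by isogenies of bounded degree. -/

set_option autoImplicit false

noncomputable section

open MeasureTheory Topology Filter UpperHalfPlane
open scoped MatrixGroups ENNReal BoundedContinuousFunction

namespace Pool.Agent.EQ

variable {n N : ℕ} {F : IntermediateField ℚ ℂ} {I : Finset (Fin n)}

open Classical in
/-- Reading the functions of level `N` at `ξ k • w (r k)` among functions of a higher level. -/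
def sh (A : Set Fn) (r : Fin n → Fin n) (ξ : Fin n → MZ) (a : Fin n × Fn) : Fin n × Fn :=
  if a.2 ∈ A then (r a.1, fun t => a.2 (act (ξ a.1) t)) else (a.1, fun _ => 0)

theorem wbl_sh_mem {A : Set Fn} {r : Fin n → Fin n} {ξ : Fin n → MZ} {k : Fin n} {f : Fn}
    (hf : f ∈ A) : sh A r ξ (k, f) = (r k, fun t => f (act (ξ k) t)) := by
  unfold sh
  exact if_pos hf

theorem wbl_sh_not {A : Set Fn} {r : Fin n → Fin n} {ξ : Fin n → MZ} {k : Fin n} {f : Fn}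
    (hf : f ∉ A) : sh A r ξ (k, f) = (k, fun _ => 0) := by
  unfold sh
  exact if_neg hf

theorem wbl_avg {α : Type} {O : Finset α} {G G' : α → ℝ} (h : ∀ z ∈ O, G z = G' z) :
    avg O G = avg O G' := by
  rw [avg, avg, Finset.sum_congr rfl h]

theorem wbl_prod_apply {ι : Type} (s : Finset ι) (g : ι → (ℍ →ᵇ ℝ)) (t : ℍ) :
    (∏ k ∈ s, g k) t = ∏ k ∈ s, g k t := by
  classical
  induction s using Finset.induction_on with
  | empty => rfl
  | insert a s ha ih => rw [Finset.prod_insert ha, Finset.prod_insert ha, ← ih]; rfl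

theorem wbl_rep (I : Finset (Fin n)) (R : Fin n → Fin n → Prop) (h1 : ∀ k, R k k)
    (h2 : ∀ k l, R k l → R l k) (h3 : ∀ k l m, R k l → R l m → R k m) :
    ∃ r : Fin n → Fin n, (∀ k ∈ I, r k ∈ I) ∧ (∀ k, k ∉ I → r k = k) ∧ (∀ k, R k (r k)) ∧
      ∀ k ∈ I, ∀ l ∈ I, R (r k) (r l) → r k = r l := by
  let s : Setoid (Fin n) := ⟨fun k l => k = l ∨ (k ∈ I ∧ l ∈ I ∧ R k l), fun _ => Or.inl rfl,
    fun h => h.elim (fun h => Or.inl h.symm) fun h => Or.inr ⟨h.2.1, h.1, h2 _ _ h.2.2⟩, by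
      rintro a b c (rfl | h) (rfl | h')
      · exact Or.inl rfl
      · exact Or.inr h'
      · exact Or.inr h
      · exact Or.inr ⟨h.1, h'.2.1, h3 _ _ _ h.2.2 h'.2.2⟩⟩
  have key : ∀ k, (Quotient.mk s k).out = k ∨
      ((Quotient.mk s k).out ∈ I ∧ k ∈ I ∧ R (Quotient.mk s k).out k) :=
    fun k => Quotient.mk_out (s := s) k
  have hI : ∀ k ∈ I, (Quotient.mk s k).out ∈ I := fun k hk =>
    (key k).elim (fun h => by rw [h]; exact hk) fun h => h.1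
  refine ⟨fun k => (Quotient.mk s k).out, hI,
    fun k hk => (key k).elim id fun h => absurd h.2.1 hk,
    fun k => (key k).elim (fun h => h2 _ _ (h.symm ▸ h1 k : R (Quotient.mk s k).out k))
      fun h => h2 _ _ h.2.2,
    fun k hk l hl h => ?_⟩
  have e : Quotient.mk s (Quotient.mk s k).out = Quotient.mk s (Quotient.mk s l).out :=
    Quotient.sound (s := s) (Or.inr ⟨hI k hk, hI l hl, h⟩)
  rw [Quotient.out_eq, Quotient.out_eq] at e
  change (Quotient.mk s k).out = (Quotient.mk s l).out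
  rw [e]

theorem evs_sh (hN : 0 < N) {M : ℕ} (hM : 0 < M) {F' : IntermediateField ℚ ℂ} (hF : F ≤ F')
    (hz : zt M ∈ F') {r : Fin n → Fin n} {ξ : Fin n → MZ}
    (hξ : ∀ k, 0 < (ξ k).det ∧ N * (ξ k).det.natAbs ∣ M) {w : Fin n → ℍ}
    (hw : ∀ k, ∃ γ ∈ CongruenceSubgroup.Gamma N, w k = γ • act (ξ k) (w (r k))) :
    evs (MF N F) w = fun a => evs (MF M F') w (sh (MF N F) r ξ a) := by
  funext a
  obtain ⟨k, f⟩ := a
  obtain ⟨γ, hγ, e⟩ := hw k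
  by_cases hf : f ∈ MF N F
  · rw [wbl_sh_mem hf]
    change evA (MF N F) (w k) f = evA (MF M F') (w (r k)) fun t => f (act (ξ k) t)
    rw [ev_of_mem hf, ev_of_mem (MF.act hN hf (hξ k).1 hM (hξ k).2 hF hz), e, MF.inv hf hγ]
  · rw [wbl_sh_not hf]
    change evA (MF N F) (w k) f = evA (MF M F') (w k) fun _ => 0
    rw [ev_of_not hf, ev_of_mem (MF.const F'.zero_mem)]

/-- Passage to the representatives of the blocks. -/
theorem blk_eq (hN : 0 < N) (F : IntermediateField ℚ ℂ) : ∃ B : ℝ, ∀ (n M : ℕ), 0 < M →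
    ∀ F' : IntermediateField ℚ ℂ, F ≤ F' → zt M ∈ F' → ∀ (r : Fin n → Fin n) (ξ : Fin n → MZ),
      (∀ k, 0 < (ξ k).det ∧ N * (ξ k).det.natAbs ∣ M) → ∀ (w : Fin n → ℍ) (D : Fin n → ℤ)
      (I : Finset (Fin n)) (φ : Fin n → (ℍ →ᵇ ℝ)) (ψ : (Fin n × Fn → ℂ) → ℝ) (c : ℝ),
      (∀ k, HasDisc (w k) (D k)) →
      (∀ k, ∃ γ ∈ CongruenceSubgroup.Gamma N, w k = γ • act (ξ k) (w (r k))) →
      (∀ k ∈ I, B ≤ -(D k : ℝ)) → (∀ k, Tst N F (φ k)) →
      avg (fO (galO F' (evs (MF N F) w))) (fun z => ψ z * (PT N F φ I z - c)) =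
        avg (ON M F' w) fun z => ψ (fun a => z (sh (MF N F) r ξ a)) *
          (PT M F' (fun b => ∏ k ∈ I.filter (fun k => r k = b), cact (φ k) (ξ k)) (I.image r) z -
            c) := by
  obtain ⟨B, hB⟩ := tst_rp hN F
  refine ⟨B, fun n M hM F' hF hz r ξ hξ w D I φ ψ c hD hw hI hφ => ?_⟩
  have e := evs_sh hN hM hF hz hξ hw
  have e1 := avg_comp (galO_fin hM F' hD) (sh (MF N F) r ξ) fun z => ψ z * (PT N F φ I z - c)
  rw [← e] at e1
  rw [← e1]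
  refine wbl_avg fun z hz' => ?_
  have hz1 : z ∈ galO F' (evs (MF M F') w) := (mem_fO (galO_fin hM F' hD)).1 hz'
  have hz2 : (fun a => z (sh (MF N F) r ξ a)) ∈ galO F (evs (MF N F) w) := by
    refine galO_mono hF _ ?_
    rw [e]
    exact galO_comp hz1 _
  have e2 : PT N F φ I (fun a => z (sh (MF N F) r ξ a)) =
      ∏ k ∈ I, φ k (act (ξ k) (rp (MF M F') z (r k))) := by
    refine Finset.prod_congr rfl fun k hk => ?_
    refine (hB n w D hD _ hz2 k (hI k hk) _ (fun f hf => ?_) (φ k) (hφ k)).symm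
    rw [wbl_sh_mem hf]
    exact rp_val hM hz1 (r k) (MF.act hN hf (hξ k).1 hM (hξ k).2 hF hz)
  have e3 : PT M F' (fun b => ∏ k ∈ I.filter (fun k => r k = b), cact (φ k) (ξ k)) (I.image r) z =
      ∏ k ∈ I, φ k (act (ξ k) (rp (MF M F') z (r k))) := by
    rw [← Finset.prod_fiberwise_of_maps_to (t := I.image r) (g := r)
      fun k hk => Finset.mem_image_of_mem r hk]
    refine Finset.prod_congr rfl fun b _ => ?_
    change (∏ k ∈ I.filter (fun k => r k = b), cact (φ k) (ξ k)) (rp (MF M F') z b) = _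
    rw [wbl_prod_apply]
    refine Finset.prod_congr rfl fun k hk => ?_
    rw [cact_apply, (Finset.mem_filter.1 hk).2]
  change ψ _ * (PT N F φ I (fun a => z (sh (MF N F) r ξ a)) - c) = _
  rw [e2, e3]

theorem oth_sh {D : Fin n → ℤ} {ψ : (Fin n × Fn → ℂ) → ℝ} (h : Oth I D ψ) (A : Set Fn)
    {r : Fin n → Fin n} (ξ : Fin n → MZ) (hr : ∀ k ∈ I, r k ∈ I) (hr' : ∀ k, k ∉ I → r k = k) :
    Oth (I.image r) D fun z => ψ fun a => z (sh A r ξ a) := by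
  intro z z' hz
  refine h _ _ fun k hk f => ?_
  have hkI : k ∉ I := fun hk' => hk k hk' ⟨D k, rfl⟩
  have h1 : ∀ l ∈ I.image r, ¬ IsSquare (D k * D l) := by
    intro l hl
    obtain ⟨l', hl', rfl⟩ := Finset.mem_image.1 hl
    exact hk _ (hr l' hl')
  change z (sh A r ξ (k, f)) = z' (sh A r ξ (k, f))
  by_cases hf : f ∈ A
  · rw [wbl_sh_mem hf, hr' k hkI]
    exact hz k h1 _
  · rw [wbl_sh_not hf]
    exact hz k h1 _

/-- The blocks along an ultrafilter. -/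
theorem exists_blk (𝒰 : Ultrafilter ℕ) (τ : ℕ → Fin n → ℍ) (I : Finset (Fin n)) :
    ∃ (r : Fin n → Fin n) (m : ℕ), 0 < m ∧ (∀ k ∈ I, r k ∈ I) ∧ (∀ k, k ∉ I → r k = k) ∧
      NoIs 𝒰 τ (I.image r) ∧ ∀ᶠ i in 𝒰, ∀ k (σ : ℂ ≃+* ℂ),
        Isog m (σ (jInv (τ i k))) (σ (jInv (τ i (r k)))) := by
  obtain ⟨R, hR⟩ : ∃ R : Fin n → Fin n → Prop, ∀ k l, R k l ↔ ∃ M, 0 < M ∧ ∀ᶠ i in 𝒰,
      ∀ σ : ℂ ≃+* ℂ, Isog M (σ (jInv (τ i k))) (σ (jInv (τ i l))) := ⟨_, fun _ _ => Iff.rfl⟩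
  have h1 : ∀ k, R k k := fun k =>
    (hR k k).2 ⟨1, one_pos, Eventually.of_forall fun _ _ => isog_refl _⟩
  have h2 : ∀ k l, R k l → R l k := fun k l h => by
    obtain ⟨M, hM, h⟩ := (hR k l).1 h
    exact (hR l k).2 ⟨M, hM, h.mono fun i hi σ => (hi σ).symm hM⟩
  have h3 : ∀ k l m, R k l → R l m → R k m := fun k l m h h' => by
    obtain ⟨M, hM, h⟩ := (hR k l).1 h
    obtain ⟨M', hM', h'⟩ := (hR l m).1 h'
    exact (hR k m).2 ⟨M * M', mul_pos hM hM', (h.and h').mono fun i hi σ =>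
      (hi.1 σ).trans (hi.2 σ)⟩
  obtain ⟨r, r1, r2, r3, r4⟩ := wbl_rep I R h1 h2 h3
  choose M hM hM' using fun k => (hR k (r k)).1 (r3 k)
  refine ⟨r, ∏ k, M k, Finset.prod_pos fun k _ => hM k, r1, r2, ?_, ?_⟩
  · intro k hk l hl hkl M₀ hM₀
    obtain ⟨k₀, hk₀, rfl⟩ := Finset.mem_image.1 hk
    obtain ⟨l₀, hl₀, rfl⟩ := Finset.mem_image.1 hl
    obtain ⟨M', hM', hc⟩ := isog_conj hM₀
    by_contra hcon
    have h4 := Ultrafilter.eventually_not.2 hcon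
    refine hkl (r4 k₀ hk₀ l₀ hl₀ ((hR _ _).2 ⟨M', hM', h4.mono fun i hi σ => ?_⟩))
    push Not at hi
    obtain ⟨σ₀, hσ₀⟩ := hi
    exact hc _ _ σ₀ σ hσ₀
  · refine eventually_all.2 fun k => (hM' k).mono fun i hi σ => ?_
    exact (hi σ).mono (Finset.dvd_prod_of_mem M (Finset.mem_univ k))

theorem exists_xi (hN : 0 < N) (𝒰 : Ultrafilter ℕ) {w : ℕ → Fin n → ℍ} {r : Fin n → Fin n}
    {m : ℕ} (hm : 0 < m) (h : ∀ᶠ i in 𝒰, ∀ k, Isog m (jInv (w i k)) (jInv (w i (r k)))) :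
    ∃ ξ : Fin n → MZ, (∀ k, 0 < (ξ k).det ∧ N * (ξ k).det.natAbs ∣ N * m ^ 2) ∧ ∀ᶠ i in 𝒰,
      ∀ k, ∃ γ ∈ CongruenceSubgroup.Gamma N, w i k = γ • act (ξ k) (w i (r k)) := by
  have hδ : (m : ℤ) ^ 2 ≠ 0 := pow_ne_zero 2 (by exact_mod_cast hm.ne')
  obtain ⟨R, hR, hR'⟩ := finite_act N hN hδ
  have h1 : ∀ k, ∃ η ∈ R, ∀ᶠ i in 𝒰,
      ∃ γ ∈ CongruenceSubgroup.Gamma N, w i k = γ • act η (w i (r k)) := by
    intro k
    refine ultra_fin 𝒰 R (h.mono fun i hi => ?_)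
    obtain ⟨ζ, h1, h2, h3⟩ := Isog.exists_act hm (hi k)
    obtain ⟨η, hη, γ, hγ, rfl⟩ := hR' ζ h1 h2
    refine ⟨η, hη, γ, hγ, ?_⟩
    rw [h3, act_mul (vact_SL_det γ) (hR η hη).1, act_SL]
  choose ξ hξ hξ' using h1
  refine ⟨ξ, fun k => ⟨(hR _ (hξ k)).1, Nat.mul_dvd_mul_left N ?_⟩, eventually_all.2 hξ'⟩
  have h2 := Int.natAbs_dvd_natAbs.2 (hR _ (hξ k)).2
  rwa [Int.natAbs_pow, Int.natAbs_natCast] at h2

end Pool.Agent.EQ
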