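import Pool.Agent.P.MP_ad7a55_nt.WLa
import Pool.Agent.P.MP_ad7a55_nt.TNz
import Pool.Agent.P.MP_ad7a55_nt.SgD

/-! Two real characters do not both have a real zero near one. -/

set_option autoImplicit false

noncomputable section

open Finset

namespace Pool.Agent.EQ

theorem wlb_eq (f g : ArithmeticFunction ℝ) (X : ℕ) : SL1 (f * g : ArithmeticFunction ℝ) X =
    ∑ p ∈ (Icc 1 X ×ˢ Icc 1 X).filter (fun p : ℕ × ℕ => p.1 * p.2 ≤ X),
      f p.1 / p.1 * (g p.2 / p.2) := by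
  rw [SL1, ← sum_fiberwise_of_maps_to (t := Icc 1 X) (g := fun p : ℕ × ℕ => p.1 * p.2)]
  · refine sum_congr rfl fun m hm => ?_
    rw [mem_Icc] at hm
    rw [ArithmeticFunction.mul_apply, sum_div]
    refine sum_congr ?_ fun p hp => ?_
    · ext ⟨a, b⟩
      simp only [Nat.mem_divisorsAntidiagonal, mem_filter, mem_product, mem_Icc]
      constructor
      · rintro ⟨rfl, h0⟩
        have ha := Nat.pos_of_ne_zero (left_ne_zero_of_mul h0)
        have hb := Nat.pos_of_ne_zero (right_ne_zero_of_mul h0)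
        exact ⟨⟨⟨⟨ha, (Nat.le_mul_of_pos_right a hb).trans hm.2⟩,
          hb, (Nat.le_mul_of_pos_left b ha).trans hm.2⟩, hm.2⟩, rfl⟩
      · rintro ⟨-, h⟩
        exact ⟨h, by omega⟩
    · rw [← (mem_filter.1 hp).2, Nat.cast_mul, div_mul_div_comm]
  · intro p hp
    simp only [mem_filter, mem_product, mem_Icc] at hp ⊢
    exact ⟨Nat.mul_pos hp.1.1.1 hp.1.2.1, hp.2⟩

theorem wlb_nn {f g : ArithmeticFunction ℝ} (hf : ∀ n, 0 ≤ f n) (hg : ∀ n, 0 ≤ g n) (p : ℕ × ℕ) :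
    0 ≤ f p.1 / p.1 * (g p.2 / p.2) :=
  mul_nonneg (div_nonneg (hf _) (Nat.cast_nonneg _)) (div_nonneg (hg _) (Nat.cast_nonneg _))

theorem SL1_mul_le {f g : ArithmeticFunction ℝ} (hf : ∀ n, 0 ≤ f n) (hg : ∀ n, 0 ≤ g n) (X : ℕ) :
    SL1 (f * g : ArithmeticFunction ℝ) X ≤ SL1 f X * SL1 g X := by
  rw [wlb_eq, SL1, SL1, sum_mul_sum, ← sum_product']
  exact sum_le_sum_of_subset_of_nonneg (filter_subset _ _) fun p _ _ => wlb_nn hf hg p

theorem le_SL1_mul {f g : ArithmeticFunction ℝ} (hf : ∀ n, 0 ≤ f n) (hg : ∀ n, 0 ≤ g n)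
    (X Y : ℕ) : SL1 f X * SL1 g Y ≤ SL1 (f * g : ArithmeticFunction ℝ) (X * Y) := by
  rw [wlb_eq, SL1, SL1, sum_mul_sum, ← sum_product']
  refine sum_le_sum_of_subset_of_nonneg (fun p hp => ?_) fun p _ _ => wlb_nn hf hg p
  simp only [mem_filter, mem_product, mem_Icc] at hp ⊢
  obtain ⟨⟨h1, h2⟩, h3, h4⟩ := hp
  exact ⟨⟨⟨h1, h2.trans (Nat.le_mul_of_pos_right X (by omega))⟩,
    h3, h4.trans (Nat.le_mul_of_pos_left Y (by omega))⟩, Nat.mul_le_mul h2 h4⟩

theorem wlb_nonneg {a : ℕ → ℝ} (h : ∀ n, 0 ≤ a n) (X : ℕ) : 0 ≤ SL1 a X :=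
  sum_nonneg fun _ _ => div_nonneg (h _) (Nat.cast_nonneg _)

theorem wlb_mono {a : ℕ → ℝ} (h : ∀ n, 0 ≤ a n) {X Y : ℕ} (hXY : X ≤ Y) : SL1 a X ≤ SL1 a Y :=
  sum_le_sum_of_subset_of_nonneg (Icc_subset_Icc_right hXY) fun _ _ _ =>
    div_nonneg (h _) (Nat.cast_nonneg _)

theorem wlb_one {a : ℕ → ℝ} (h : ∀ n, 0 ≤ a n) (h1 : 1 ≤ a 1) {X : ℕ} (hX : 1 ≤ X) :
    1 ≤ SL1 a X := by
  refine le_trans ?_ (wlb_mono h hX)
  simpa [SL1] using h1

theorem wlb_mul_nn {f g : ArithmeticFunction ℝ} (hf : ∀ n, 0 ≤ f n) (hg : ∀ n, 0 ≤ g n) (n : ℕ) :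
    0 ≤ (f * g) n := by
  rw [ArithmeticFunction.mul_apply]
  exact sum_nonneg fun _ _ => mul_nonneg (hf _) (hg _)

theorem wlb_cast {f g : ArithmeticFunction ℝ} {F G : ArithmeticFunction ℂ}
    (hf : ∀ n, (f n : ℂ) = F n) (hg : ∀ n, (g n : ℂ) = G n) (n : ℕ) :
    ((f * g) n : ℂ) = (F * G) n := by
  rw [ArithmeticFunction.mul_apply, ArithmeticFunction.mul_apply, Complex.ofReal_sum]
  exact sum_congr rfl fun _ _ => by rw [Complex.ofReal_mul, hf, hg]

theorem wlb_zeta (n : ℕ) : (((ArithmeticFunction.zeta : ArithmeticFunction ℝ) n : ℝ) : ℂ) =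
    (ArithmeticFunction.zeta : ArithmeticFunction ℂ) n := by
  rw [ArithmeticFunction.natCoe_apply, ArithmeticFunction.natCoe_apply, Complex.ofReal_natCast]

theorem wlb_zeta_nn (n : ℕ) : 0 ≤ (ArithmeticFunction.zeta : ArithmeticFunction ℝ) n := by
  rw [ArithmeticFunction.natCoe_apply]
  exact Nat.cast_nonneg _

theorem wlb_harm (N : ℕ) :
    SL1 (ArithmeticFunction.zeta : ArithmeticFunction ℝ) N ≤ 1 + Real.log N := by
  rcases Nat.eq_zero_or_pos N with rfl | hN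
  · simp [SL1]
  · have h := (ttl_harm one_pos hN).2
    have e : SL1 (ArithmeticFunction.zeta : ArithmeticFunction ℝ) N =
        ∑ n ∈ Icc 1 N, 1 / (n : ℝ) := by
      refine sum_congr rfl fun n hn => ?_
      have h0 : n ≠ 0 := by have := (mem_Icc.1 hn).1; omega
      simp [ArithmeticFunction.natCoe_apply, h0]
    rw [e]
    simp only [Icc_self, sum_singleton, Nat.cast_one, Real.log_one, div_one] at h
    linarith

theorem wlb_rr (u : ℕ → ℝ) :
    ⇑((ArithmeticFunction.zeta : ArithmeticFunction ℝ) * toArithmeticFunction u) = rr u := by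
  funext k
  rw [ArithmeticFunction.coe_zeta_mul_apply, rr]
  refine sum_congr rfl fun d hd => ?_
  show (if d = 0 then (0 : ℝ) else u d) = u d
  rw [if_neg (Nat.pos_of_mem_divisors hd).ne']

variable {q : ℕ} [NeZero q] {χ ψ : DirichletCharacter ℂ q}

omit [NeZero q] in
theorem wlb_re (h2 : χ ^ 2 = 1) (n : ℕ) : χ n = ((χ n).re : ℝ) := by
  rcases MulChar.isQuadratic_iff_sq_eq_one.mpr h2 (n : ZMod q) with e | e | e <;> simp [e]

omit [NeZero q] in
theorem wlb_char (h2 : χ ^ 2 = 1) (n : ℕ) :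
    ((toArithmeticFunction (fun n : ℕ => (χ n).re) n : ℝ) : ℂ) =
      toArithmeticFunction (χ ·) n := by
  show (((if n = 0 then (0 : ℝ) else (χ n).re) : ℝ) : ℂ) = if n = 0 then 0 else χ n
  split_ifs
  · simp
  · exact (wlb_re h2 n).symm

theorem wlb_q : (1 : ℝ) ≤ q := by exact_mod_cast NeZero.pos q

theorem ser_one (h : χ ≠ 1) (h2 : χ ^ 2 = 1) :
    Ser χ.LFunction (rr fun n => (χ n).re) (5 * q) := by
  have hr := tnz_rc h h2 (wlb_re h2)
  refine ⟨DirichletCharacter.differentiable_LFunction h, by linarith [wlb_q (q := q)],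
    fun s hs => L_ball h hs, hr.rr_nonneg, (ttl_one hr).ge, fun s hs => ?_⟩
  rw [← wlb_rr, funext (wlb_cast wlb_zeta (wlb_char h2))]
  exact ArithmeticFunction.LSeriesHasSum_mul (ArithmeticFunction.LSeriesHasSum_zeta hs)
    (SgCX.char_sum χ hs)

theorem ser_three (h : χ ≠ 1) (h' : ψ ≠ 1) (h'' : χ * ψ ≠ 1) (h2 : χ ^ 2 = 1) (h2' : ψ ^ 2 = 1) :
    ∃ a : ℕ → ℝ, Ser (fun s => χ.LFunction s * ψ.LFunction s * (χ * ψ).LFunction s) a
      ((5 * q) ^ 3) ∧ ∀ Y : ℕ, SL1 (rr fun n => (χ n).re) Y * SL1 (rr fun n => (ψ n).re) Y *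
        SL1 (rr fun n => ((χ * ψ) n).re) Y ≤ (1 + Real.log (Y ^ 3 : ℕ)) ^ 2 * SL1 a (Y ^ 3) := by
  have h2'' : (χ * ψ) ^ 2 = 1 := by rw [mul_pow, h2, h2', one_mul]
  have hc := wlb_cast wlb_zeta (wlb_cast (wlb_cast (wlb_char h2) (wlb_char h2')) (wlb_char h2''))
  have hF := ArithmeticFunction.isMultiplicative_zeta.natCast.mul
      ((χ.isMultiplicative_toArithmeticFunction.mul ψ.isMultiplicative_toArithmeticFunction).mul
        (χ * ψ).isMultiplicative_toArithmeticFunction)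
  have n1 := (ser_one h h2).nn
  have n2 := (ser_one h' h2').nn
  have n3 := (ser_one h'' h2'').nn
  rw [← wlb_rr] at n1 n2 n3
  rw [← wlb_rr, ← wlb_rr, ← wlb_rr]
  generalize (toArithmeticFunction fun n : ℕ => (χ n).re) = x1 at *
  generalize (toArithmeticFunction fun n : ℕ => (ψ n).re) = x2 at *
  generalize (toArithmeticFunction fun n : ℕ => ((χ * ψ) n).re) = x3 at *
  have hz := wlb_zeta_nn
  have hH := wlb_harm
  generalize (ArithmeticFunction.zeta : ArithmeticFunction ℝ) = z at *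
  have hn : ∀ n, 0 ≤ (z * (x1 * x2 * x3)) n := by
    intro n
    rw [← Complex.zero_le_real, hc]
    rcases eq_or_ne n 0 with rfl | hn
    · simp only [ArithmeticFunction.map_zero]
      exact Complex.zero_le_real.2 le_rfl
    · rw [hF.multiplicative_factorization _ hn]
      open scoped ComplexOrder in
      refine Finset.prod_nonneg fun p hp => ?_
      have hp' := Nat.prime_of_mem_primeFactors hp
      refine SgCX.four_nn hp' (fun k => ?_) (SgCX.char_pp χ hp') (SgCX.char_pp ψ hp')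
        (fun k => ?_) (MulChar.isQuadratic_iff_sq_eq_one.mpr h2 p)
        (MulChar.isQuadratic_iff_sq_eq_one.mpr h2' p) _
      · simp [hp'.ne_zero]
      · rw [SgCX.char_pp (χ * ψ) hp', MulChar.mul_apply]
  have hq := wlb_q (q := q)
  refine ⟨⇑(z * (x1 * x2 * x3)), ⟨((DirichletCharacter.differentiable_LFunction h).mul
    (DirichletCharacter.differentiable_LFunction h')).mul
    (DirichletCharacter.differentiable_LFunction h''), one_le_pow₀ (by linarith),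
    fun s hs => ?_, hn, ?_, fun s hs => ?_⟩, fun Y => ?_⟩
  · rw [norm_mul, norm_mul, pow_three, ← mul_assoc]
    exact mul_le_mul (mul_le_mul (L_ball h hs) (L_ball h' hs) (norm_nonneg _) (by positivity))
      (L_ball h'' hs) (norm_nonneg _) (by positivity)
  · have := hc 1
    rw [hF.map_one] at this
    exact le_of_eq (by exact_mod_cast this.symm)
  · rw [funext hc]
    exact ArithmeticFunction.LSeriesHasSum_mul (ArithmeticFunction.LSeriesHasSum_zeta hs)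
      (ArithmeticFunction.LSeriesHasSum_mul
        (ArithmeticFunction.LSeriesHasSum_mul (SgCX.char_sum χ hs) (SgCX.char_sum ψ hs))
        (SgCX.char_sum (χ * ψ) hs))
  · have e : z * x1 * (z * x2) * (z * x3) = z * (z * (z * (x1 * x2 * x3))) := by ring
    have k1 := mul_le_mul_of_nonneg_right (le_SL1_mul n1 n2 Y Y) (wlb_nonneg n3 Y)
    have k2 := le_SL1_mul (wlb_mul_nn n1 n2) n3 (Y * Y) Y
    rw [e, show Y * Y * Y = Y ^ 3 by ring] at k2
    have k3 := SL1_mul_le hz (wlb_mul_nn hz hn) (Y ^ 3)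
    have k4 := SL1_mul_le hz hn (Y ^ 3)
    have k5 := hH (Y ^ 3)
    have k6 := wlb_nonneg hz (Y ^ 3)
    have k7 := wlb_nonneg hn (Y ^ 3)
    refine k1.trans (k2.trans (k3.trans ((mul_le_mul_of_nonneg_left k4 k6).trans ?_)))
    rw [← mul_assoc, ← sq]
    exact mul_le_mul_of_nonneg_right (pow_le_pow_left₀ k6 k5 2) k7

theorem L_one_log (h : χ ≠ 1) (h2 : χ ^ 2 = 1) {Y : ℕ} (hY : q ^ 2 ≤ Y) :
    0 < (χ.LFunction 1).re ∧ (χ.LFunction 1).im = 0 ∧
      (χ.LFunction 1).re * Real.log q ≤ 200 * SL1 (rr fun n => (χ n).re) Y := by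
  have hd := DirichletCharacter.differentiable_LFunction h
  have hP := posSer_one h2
  have hr := tnz_rc h h2 (wlb_re h2)
  have h0 : 0 < (χ.LFunction 1).re := by
    have := hP.re_pos hd (σ := 1) (fun x h1 h3 => by
      rw [le_antisymm h3 h1]
      exact DirichletCharacter.LFunction_apply_one_ne_zero h) le_rfl
    simpa using this
  refine ⟨h0, by simpa using hP.im_eq_zero hd 1, ?_⟩
  have hq0 : 0 < q := NeZero.pos q
  have hqY : q ≤ Y := le_trans (Nat.le_self_pow two_ne_zero q) hY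
  have hL : ∀ N : ℕ, 0 < N →
      |∑ n ∈ Icc 1 N, (χ n).re / n - (χ.LFunction 1).re| ≤ 2 * q / N := by
    intro N hN
    have := tnz_trunc h (wlb_re h2) one_pos hN
    rw [abs_sub_comm]
    simpa only [Real.rpow_neg_one, Complex.ofReal_one, div_eq_mul_inv] using this
  have k1 := (abs_le.1 (ttl_S hr hL le_rfl hqY)).1
  have k2 := (ttl_harm hq0 hqY).1
  have k3 := ttl_log (hq0.trans_le hqY) hY
  have k4 : 2 * Real.log q ≤ Real.log Y := by
    have := Real.log_le_log (by positivity) (show (q : ℝ) ^ 2 ≤ Y by exact_mod_cast hY)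
    rwa [Real.log_pow, Nat.cast_ofNat] at this
  have k5 := wlb_one hr.rr_nonneg (ttl_one hr).ge (hq0.trans_le hqY)
  have k6 := wlb_nonneg hr.rr_nonneg q
  have k7 := mul_le_mul_of_nonneg_left
    (show Real.log q ≤ 2 * (∑ n ∈ Icc 1 Y, 1 / (n : ℝ) - ∑ n ∈ Icc 1 q, 1 / (n : ℝ)) by linarith)
    h0.le
  simp only [SL1] at k5 k6 ⊢
  linarith

theorem landau : ∃ c : ℝ, 0 < c ∧ ∀ (q : ℕ) [NeZero q] (χ ψ : DirichletCharacter ℂ q), χ ≠ 1 →
    ψ ≠ 1 → χ * ψ ≠ 1 → χ ^ 2 = 1 → ψ ^ 2 = 1 → ∀ β β' : ℝ, 1 - c / Real.log q ≤ β → β < 1 →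
      1 - c / Real.log q ≤ β' → β' < 1 → χ.LFunction β = 0 → ψ.LFunction β' ≠ 0 := by
  obtain ⟨B, C, hB, hC, hlow⟩ := ser_low 4
  obtain ⟨D, hD, hup⟩ := ser_up (3 * B + 12)
  obtain ⟨K, hK, hKe⟩ : ∃ K : ℝ, 0 < K ∧ K = D * C ^ 2 * 200 * (2 + 3 * B) ^ 2 :=
    ⟨_, by positivity, rfl⟩
  obtain ⟨c, hc, hc1, hc2⟩ : ∃ c : ℝ, 0 < c ∧ c ≤ 1 / 30 ∧ K * c < 1 := by
    refine ⟨min (1 / 30) (1 / (2 * K)), lt_min (by norm_num) (by positivity), min_le_left _ _, ?_⟩
    refine (mul_le_mul_of_nonneg_left (min_le_right _ _) hK.le).trans_lt ?_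
    rw [mul_one_div, div_lt_one (by positivity)]
    linarith
  refine ⟨c, hc, fun q _ χ ψ h h' h'' h2 h2' β β' b1 b2 b3 b4 z1 z2 => ?_⟩
  have h2'' : (χ * ψ) ^ 2 = 1 := by rw [mul_pow, h2, h2', one_mul]
  have hq : 2 ≤ q := by
    have h0 := NeZero.pos q
    by_contra h3
    obtain rfl : q = 1 := by omega
    exact h (DirichletCharacter.level_one χ)
  have hq' : (2 : ℝ) ≤ q := by exact_mod_cast hq
  have hl : 1 / 2 ≤ Real.log q :=
    le_trans (by linarith [Real.log_two_gt_d9]) (Real.log_le_log two_pos hq')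
  have hl0 : 0 < Real.log q := by linarith
  have hb : ∀ b : ℝ, 1 - c / Real.log q ≤ b → 14 / 15 ≤ b ∧ (1 - b) * Real.log q ≤ c := by
    intro b h1
    have h3 : c / Real.log q ≤ 1 / 15 := by
      rw [div_le_iff₀ hl0]
      linarith
    exact ⟨by linarith, (le_div_iff₀ hl0).1 (by linarith)⟩
  have hM : 5 * (q : ℝ) ≤ (q : ℝ) ^ 4 := by
    have h3 : (2 : ℝ) ^ 3 ≤ (q : ℝ) ^ 3 := pow_le_pow_left₀ (by norm_num) hq' 3
    rw [pow_succ]
    exact mul_le_mul_of_nonneg_right (by linarith) (by linarith)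
  have hM3 : (5 * (q : ℝ)) ^ 3 ≤ (q : ℝ) ^ (3 * B + 12) := by
    refine (pow_le_pow_left₀ (by positivity) hM 3).trans ?_
    rw [← pow_mul]
    exact pow_le_pow_right₀ (by linarith) (by omega)
  have hY : q ^ 2 ≤ q ^ B := Nat.pow_le_pow_right (by omega) hB
  obtain ⟨a, ha, hS⟩ := ser_three h h' h'' h2 h2'
  obtain ⟨p1, i1, -⟩ := L_one_log h h2 hY
  obtain ⟨p2, i2, -⟩ := L_one_log h' h2' hY
  obtain ⟨p3, i3, k3⟩ := L_one_log h'' h2'' hY
  have k1 := hlow _ _ _ q β (ser_one h h2) hq hM (hb β b1).1 b2 (by linarith [(hb β b1).2]) z1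
  have k2 := hlow _ _ _ q β' (ser_one h' h2') hq hM (hb β' b3).1 b4
    (by linarith [(hb β' b3).2]) z2
  have k4 := hup _ _ _ q β ha hq hM3 (hb β b1).1 b2 (by linarith [(hb β b1).2])
    (by simp only [z1, zero_mul])
  simp only [Complex.mul_re, Complex.mul_im, i1, i2, i3, mul_zero, zero_mul, sub_zero,
    add_zero] at k4
  have k5 := hS (q ^ B)
  have k6 : SL1 a ((q ^ B) ^ 3) ≤ SL1 a (q ^ (3 * B + 12)) := by
    refine wlb_mono ha.nn ?_
    rw [← pow_mul]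
    exact Nat.pow_le_pow_right (by omega) (by omega)
  have k7 : 1 ≤ SL1 a (q ^ (3 * B + 12)) := wlb_one ha.nn ha.one (Nat.one_le_pow _ _ (by omega))
  have k8 : Real.log (((q ^ B) ^ 3 : ℕ) : ℝ) = 3 * B * Real.log q := by
    rw [Nat.cast_pow, Nat.cast_pow, Real.log_pow, Real.log_pow]
    push_cast
    ring
  rw [k8] at k5
  have k9 : (1 + 3 * B * Real.log q) ^ 2 ≤ ((2 + 3 * B) * Real.log q) ^ 2 :=
    pow_le_pow_left₀ (by positivity) (by linarith) 2
  have k10 := k5.trans (mul_le_mul k9 k6 (wlb_nonneg ha.nn _) (by positivity))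
  have k11 := (hb β' b3).2
  have d1 : 0 < 1 - β := by linarith
  have d2 : 0 < 1 - β' := by linarith
  have k12 := mul_le_mul (mul_le_mul k1 k2 p2.le (p1.le.trans k1)) k3 (mul_pos p3 hl0).le
    (mul_nonneg (p1.le.trans k1) (p2.le.trans k2))
  clear k5 k6 k8 k9 hS hlow hup hb
  generalize SL1 a (q ^ (3 * B + 12)) = S at *
  generalize SL1 (rr fun n => (χ n).re) (q ^ B) = S1 at *
  generalize SL1 (rr fun n => (ψ n).re) (q ^ B) = S2 at *
  generalize SL1 (rr fun n => ((χ * ψ) n).re) (q ^ B) = S3 at *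
  generalize (χ.LFunction 1).re = L1 at *
  generalize (ψ.LFunction 1).re = L2 at *
  generalize ((χ * ψ).LFunction 1).re = L3 at *
  generalize Real.log q = l at *
  have hpos : 0 < (1 - β) * S * l := by positivity
  have fin : (1 - β) * S * l ≤ (1 - β) * S * l * (K * c) :=
    calc (1 - β) * S * l ≤ D * (L1 * L2 * L3) * l := mul_le_mul_of_nonneg_right k4 hl0.le
      _ = D * (L1 * L2 * (L3 * l)) := by ring
      _ ≤ D * (C * (1 - β) * S1 * (C * (1 - β') * S2) * (200 * S3)) :=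
        mul_le_mul_of_nonneg_left k12 hD.le
      _ = D * C ^ 2 * 200 * (1 - β) * (1 - β') * (S1 * S2 * S3) := by ring
      _ ≤ D * C ^ 2 * 200 * (1 - β) * (1 - β') * (((2 + 3 * B) * l) ^ 2 * S) :=
        mul_le_mul_of_nonneg_left k10 (by positivity)
      _ = (1 - β) * S * l * (K * ((1 - β') * l)) := by rw [hKe]; ring
      _ ≤ _ := mul_le_mul_of_nonneg_left (mul_le_mul_of_nonneg_left k11 hK.le) hpos.le
  nlinarith

end Pool.Agent.EQ
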