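import Pool.Agent.P.MP_ad7a55_nt.TLow
import Pool.Agent.P.MP_ad7a55_nt.TJac
import Pool.Agent.P.MP_ad7a55_nt.WLb

/-! Real zeros near one are rare. -/

set_option autoImplicit false

noncomputable section

open MeasureTheory Topology Filter UpperHalfPlane
open scoped MatrixGroups ENNReal BoundedContinuousFunction

namespace Pool.Agent.EQ

theorem wlz_zero {c : ℝ} {m : ℕ} (hm : 0 < m) (h : ¬ NoZero c (-(m : ℤ))) {Q : ℕ} [NeZero Q]
    (hd : 4 * m ∣ Q) : ∃ (χ : DirichletCharacter ℂ Q) (β : ℝ), χ ≠ 1 ∧ χ ^ 2 = 1 ∧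
      (∀ n : ℕ, n.Coprime Q → χ n = jacobiSym (-(m : ℤ)) n) ∧
      1 - c / Real.log (4 * m : ℕ) ≤ β ∧ β < 1 ∧ χ.LFunction β = 0 := by
  have hneg : -(m : ℤ) < 0 := by omega
  have ha : (-(m : ℤ)).natAbs = m := by omega
  unfold NoZero at h
  push Not at h
  obtain ⟨q, _, χ, rfl, hχ, β, hβ, hβ1, hz⟩ := h
  have h4 : χ = sgeChi (-(m : ℤ)) := by
    refine MulChar.ext fun u => ?_
    obtain ⟨n, hn⟩ := ZMod.natCast_zmod_surjective (u : ZMod (4 * (-(m : ℤ)).natAbs))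
    have hc : n.Coprime (4 * (-(m : ℤ)).natAbs) := (ZMod.isUnit_iff_coprime _ _).1 (hn ▸ u.isUnit)
    rw [← hn, sgeChi_nat, if_pos (tlow_odd hc), hχ n (tlow_odd hc)]
  have hne : χ ≠ 1 := h4 ▸ tlow_ne hneg
  have hd' : 4 * (-(m : ℤ)).natAbs ∣ Q := by rwa [ha]
  refine ⟨DirichletCharacter.changeLevel hd' χ, β,
    fun e => hne ((DirichletCharacter.changeLevel_eq_one_iff hd').1 e), ?_, fun n hn => ?_,
    by rwa [ha] at hβ, hβ1, ?_⟩
  · rw [← map_pow, h4, tlow_sq, map_one]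
  · have h1 := DirichletCharacter.changeLevel_eq_cast_of_dvd' χ hd' (a := n)
      (Nat.isCoprime_iff_coprime.2 hn)
    rw [Int.cast_natCast, Int.cast_natCast] at h1
    rw [h1, hχ n (tlow_odd (hn.coprime_dvd_right hd))]
  · rw [DirichletCharacter.LFunction_changeLevel hd' χ (Or.inl hne), hz, zero_mul]

theorem wlz_log {c β : ℝ} (hc : 0 < c) {a Q : ℕ} (ha : 1 < a) (hQ : 1 < Q) (h : Q ≤ a ^ 2)
    (hβ : 1 - c / 2 / Real.log a ≤ β) : 1 - c / Real.log Q ≤ β := by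
  have h1 : 0 < Real.log Q := Real.log_pos (by exact_mod_cast hQ)
  have h2 : Real.log Q ≤ 2 * Real.log a := by
    have h3 : Real.log Q ≤ Real.log ((a : ℝ) ^ 2) :=
      Real.log_le_log (by exact_mod_cast (by omega : 0 < Q)) (by exact_mod_cast h)
    rwa [Real.log_pow, Nat.cast_ofNat] at h3
  have _ := ha
  rw [div_div] at hβ
  linarith [div_le_div_of_nonneg_left hc.le h1 h2]

theorem wlz_nsq {m m' : ℕ} (h : Squarefree m) (h' : Squarefree m') (hlt : m < m') :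
    ¬ IsSquare ((m : ℤ) * m') := fun hs => by
  obtain ⟨g, hg⟩ := tlow_shape (Int.squarefree_natCast.2 h) one_ne_zero
    (D' := m') (by rwa [one_pow, one_mul])
  have hu : IsUnit g := Int.squarefree_natCast.2 h' g ⟨m, by rw [hg, sq]⟩
  rw [Int.isUnit_sq hu] at hg
  omega

theorem two_exc : ∃ c : ℝ, 0 < c ∧ ∀ m m' : ℕ, Squarefree m → Squarefree m' → m < m' →
    m' ≤ 2 * m → NoZero c (-(m : ℤ)) ∨ NoZero c (-(m' : ℤ)) := by
  obtain ⟨c, hc, H⟩ := landau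
  refine ⟨c / 2, by positivity, fun m m' hm hm' hlt hle => ?_⟩
  by_contra hcon
  rw [not_or] at hcon
  have h0 : 0 < m := Nat.pos_of_ne_zero hm.ne_zero
  have h1 : 0 < m * m' := Nat.mul_pos h0 (by omega)
  have : NeZero (4 * (m * m')) := ⟨by omega⟩
  obtain ⟨χ, β, a1, a2, a3, a4, a5, a6⟩ := wlz_zero h0 hcon.1 (Q := 4 * (m * m'))
    ⟨m', by ring⟩
  obtain ⟨ψ, β', b1, b2, b3, b4, b5, b6⟩ := wlz_zero (by omega) hcon.2 (Q := 4 * (m * m'))
    ⟨m, by ring⟩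
  refine H _ χ ψ a1 b1 (fun e => ?_) a2 b2 β β'
    (wlz_log hc (by omega) (by omega) (by nlinarith) a4) a5
    (wlz_log hc (by omega) (by omega) (by nlinarith) b4) b5 a6 b6
  obtain ⟨n, ho, hn⟩ := exists_jac_neg (wlz_nsq hm hm' hlt)
  have h2 : n.Coprime (m * m') := by
    by_contra h3
    rw [jacobiSym.eq_zero_iff.2 ⟨ho.pos.ne', fun h4 => h3 (by
      rw [← Nat.cast_mul, Int.gcd_natCast_natCast] at h4
      exact Nat.Coprime.symm h4)⟩] at hn
    omega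
  have h3 : n.Coprime (4 * (m * m')) :=
    Nat.Coprime.mul_right (Nat.Coprime.pow_right 2 (Nat.coprime_two_right.2 ho)) h2
  have h4 := MulChar.mul_apply χ ψ n
  rw [e, MulChar.one_apply ((ZMod.isUnit_iff_coprime _ _).2 h3), a3 n h3, b3 n h3,
    ← Int.cast_mul, ← jacobiSym.mul_left, neg_mul_neg, hn] at h4
  norm_num at h4

theorem card_lac {Z : Set ℕ} (h : ∀ m ∈ Z, ∀ m' ∈ Z, m < m' → 2 * m < m') (X : ℕ) :
    (Z ∩ Set.Iic X).ncard ≤ Nat.log 2 X + 2 := by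
  have key : ∀ m ∈ Z, ∀ m' ∈ Z, m < m' → (if m = 0 then 0 else Nat.log 2 m + 1) <
      if m' = 0 then 0 else Nat.log 2 m' + 1 := fun m hm m' hm' hlt => by
    have h1 := h m hm m' hm' hlt
    rw [if_neg (by omega : m' ≠ 0)]
    split_ifs with h0
    · omega
    · have h2 := Nat.log_mono_right (b := 2) (by omega : m * 2 ≤ m')
      rw [Nat.log_mul_base one_lt_two h0] at h2
      omega
  rw [← Finset.card_range (Nat.log 2 X + 2), ← Set.ncard_coe_finset]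
  refine Set.ncard_le_ncard_of_injOn (fun m => if m = 0 then 0 else Nat.log 2 m + 1)
    (fun m hm => ?_) (fun m hm m' hm' e => ?_) (Finset.finite_toSet _)
  · have h2 := Nat.log_mono_right (b := 2) (show m ≤ X from hm.2)
    rw [Finset.mem_coe, Finset.mem_range]
    split_ifs <;> omega
  · rcases lt_trichotomy m m' with a | a | a
    exacts [absurd e (key m hm.1 m' hm'.1 a).ne, a, absurd e (key m' hm'.1 m hm.1 a).ne']

theorem sparse : ∃ c : ℝ, 0 < c ∧ Tendsto (fun X : ℕ =>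
    (({m : ℕ | Squarefree m ∧ ¬ NoZero c (-(m : ℤ))} ∩ Set.Iic X).ncard : ℝ) / X) atTop (𝓝 0) := by
  obtain ⟨c, hc, H⟩ := two_exc
  refine ⟨c, hc, ?_⟩
  have h1 : Tendsto (fun X : ℕ => Real.logb (2 : ℕ) X / X + 2 / X) atTop (𝓝 0) := by
    have h2 := (Real.isLittleO_logb_id_atTop (b := (2 : ℕ))).tendsto_div_nhds_zero.comp
      tendsto_natCast_atTop_atTop
    simpa only [add_zero, Function.comp_apply, id] using h2.add (tendsto_const_div_atTop_nhds_zero_nat (2 : ℝ))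
  refine squeeze_zero (fun X => by positivity) (fun X => ?_) h1
  rw [← add_div]
  refine div_le_div_of_nonneg_right ?_ (Nat.cast_nonneg _)
  have h3 := card_lac (Z := {m : ℕ | Squarefree m ∧ ¬ NoZero c (-(m : ℤ))})
    (fun m hm m' hm' hlt => not_le.1 fun hle => (H m m' hm.1 hm'.1 hlt hle).elim hm.2 hm'.2) X
  have h4 := Real.natLog_le_logb X 2
  have h5 : ((_ : ℕ) : ℝ) ≤ ((Nat.log 2 X + 2 : ℕ) : ℝ) := Nat.cast_le.2 h3
  rw [Nat.cast_add, Nat.cast_ofNat] at h5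
  linarith

end Pool.Agent.EQ
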