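import Pool.Agent.P.MP_ad7a55_nt.TLow
import Pool.Agent.Lib.Sieve.Periodic

/-! Most fields have two small split primes. -/

set_option autoImplicit false

noncomputable section

open MeasureTheory Topology Filter UpperHalfPlane
open scoped MatrixGroups ENNReal BoundedContinuousFunction

namespace Pool.Agent.EQ

/-- Natural density zero. -/
def Dz (E : Set ℕ) : Prop :=
  Tendsto (fun X : ℕ => ((E ∩ Set.Iic X).ncard : ℝ) / X) atTop (𝓝 0)

theorem Dz.union {E E' : Set ℕ} (h : Dz E) (h' : Dz E') : Dz (E ∪ E') := by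
  have h2 := Filter.Tendsto.add h h'
  rw [add_zero] at h2
  refine squeeze_zero (fun X => by positivity) (fun X => ?_) h2
  rw [← add_div, Set.union_inter_distrib_right]
  refine div_le_div_of_nonneg_right ?_ (Nat.cast_nonneg X)
  exact_mod_cast Set.ncard_union_le _ _

/-- No two odd primes up to `y` split. -/
def NoSp (y : ℕ) : Set ℕ :=
  {m | ¬ ∃ p q : ℕ, p.Prime ∧ q.Prime ∧ p ≤ y ∧ q ≤ y ∧ p ≠ q ∧ p ≠ 2 ∧ q ≠ 2 ∧
    jacobiSym (-(m : ℤ)) p = 1 ∧ jacobiSym (-(m : ℤ)) q = 1}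

theorem wsp_local (p : ℕ) (hp : p.Prime) (h2 : p ≠ 2) :
    (∑ i ∈ Finset.range p, (if jacobiSym (-(i : ℤ)) p = 1 then (0 : ℝ) else 1)) / p ≤ 2 / 3 := by
  haveI := Fact.mk hp
  have hp3 : (3 : ℝ) ≤ p := by
    have := hp.two_le
    exact_mod_cast (by omega : 3 ≤ p)
  have e1 : ∑ i ∈ Finset.range p, (if jacobiSym (-(i : ℤ)) p = 1 then (0 : ℝ) else 1) =
      ∑ x : ZMod p, (if quadraticChar (ZMod p) (-x) = 1 then (0 : ℝ) else 1) := by
    refine Finset.sum_nbij (fun i => (i : ZMod p)) (fun _ _ => Finset.mem_univ _) ?_ ?_ ?_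
    · intro a ha b hb hab
      have ha' : a < p := by simpa using ha
      have hb' : b < p := by simpa using hb
      have := (ZMod.natCast_eq_natCast_iff' a b p).1 hab
      rwa [Nat.mod_eq_of_lt ha', Nat.mod_eq_of_lt hb'] at this
    · intro x _
      exact ⟨x.val, by simpa using ZMod.val_lt x, ZMod.natCast_zmod_val x⟩
    · intro i _
      rw [← jacobiSym.legendreSym.to_jacobiSym, legendreSym]
      simp
  have e2 : ∑ x : ZMod p, ((quadraticChar (ZMod p) (-x) : ℤ) : ℝ) = 0 := by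
    have h0 := quadraticChar_sum_zero (F := ZMod p) (by rw [ZMod.ringChar_zmod_n]; exact h2)
    have h1 := Equiv.sum_comp (Equiv.neg (ZMod p)) fun x => quadraticChar (ZMod p) x
    simp only [Equiv.neg_apply] at h1
    rw [← Int.cast_sum, h1, h0, Int.cast_zero]
  have e3 : ∑ x : ZMod p, (if quadraticChar (ZMod p) (-x) = 1 then (0 : ℝ) else 1) ≤
      ∑ x : ZMod p, (1 / 2 - ((quadraticChar (ZMod p) (-x) : ℤ) : ℝ) / 2 +
        if x = 0 then 1 / 2 else 0) := by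
    refine Finset.sum_le_sum fun x _ => ?_
    by_cases hx : x = 0
    · subst hx
      norm_num
    · rcases quadraticChar_dichotomy (neg_ne_zero.2 hx) with h | h <;> norm_num [h, hx]
  rw [Finset.sum_add_distrib, Finset.sum_sub_distrib, ← Finset.sum_div, ← Finset.sum_div, e2] at e3
  simp only [Finset.sum_const, Finset.card_univ, ZMod.card, nsmul_eq_mul, mul_one,
    Finset.sum_ite_eq', Finset.mem_univ, if_true] at e3
  rw [e1, div_le_iff₀ (by linarith)]
  linarith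

theorem card_nosplit (A : Finset ℕ) (hA : ∀ p ∈ A, p.Prime ∧ p ≠ 2) : ∃ C : ℝ, ∀ X : ℕ,
    (({m : ℕ | ∀ p ∈ A, jacobiSym (-(m : ℤ)) p ≠ 1} ∩ Set.Iic X).ncard : ℝ) ≤
      (2 / 3) ^ A.card * X + C := by
  classical
  refine ⟨1 + 2 * ((∏ p ∈ A, p : ℕ) : ℝ), fun X => ?_⟩
  set f : ℕ → ℕ → ℝ := fun p n => if jacobiSym (-(n : ℤ)) p = 1 then 0 else 1 with hf
  have f0 : ∀ p n, 0 ≤ f p n := fun p n => by simp only [hf]; split_ifs <;> norm_num
  have h1 := Pool.Agent.Lib.Sieve.sum_prod_periodic_le A (fun p hp => (hA p hp).1) f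
    (fun p hp n => by
      have : jacobiSym (-(n : ℤ)) p = jacobiSym (-((n % p : ℕ) : ℤ)) p := by
        refine jacobiSym.mod_left' ?_
        have := (Int.mod_modEq (n : ℤ) p).neg
        push_cast
        exact this.symm
      simp only [hf, this])
    (fun p hp n => by simp only [hf]; split_ifs <;> norm_num) (X + 1)
  have h2 : ∏ p ∈ A, (∑ i ∈ Finset.range p, f p i) / p ≤ (2 / 3 : ℝ) ^ A.card := by
    rw [← Finset.prod_const]
    exact Finset.prod_le_prod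
      (fun p _ => div_nonneg (Finset.sum_nonneg fun i _ => f0 p i) (Nat.cast_nonneg p))
      fun p hp => wsp_local p (hA p hp).1 (hA p hp).2
  have h3 : (2 / 3 : ℝ) ^ A.card ≤ 1 := pow_le_one₀ (by norm_num) (by norm_num)
  have h4 : {m : ℕ | ∀ p ∈ A, jacobiSym (-(m : ℤ)) p ≠ 1} ∩ Set.Iic X =
      ↑((Finset.range (X + 1)).filter fun m : ℕ => ∀ p ∈ A, jacobiSym (-(m : ℤ)) p ≠ 1) := by
    ext m
    simp [Nat.lt_succ_iff, and_comm]
  have h5 : (((Finset.range (X + 1)).filter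
      fun m : ℕ => ∀ p ∈ A, jacobiSym (-(m : ℤ)) p ≠ 1).card : ℝ) ≤
      ∑ n ∈ Finset.range (X + 1), ∏ p ∈ A, f p n := by
    rw [Finset.card_filter, Nat.cast_sum]
    refine Finset.sum_le_sum fun n _ => ?_
    split_ifs with h
    · rw [Finset.prod_eq_one fun p hp => by simp only [hf, if_neg (h p hp)]]
      simp
    · simpa using Finset.prod_nonneg fun p _ => f0 p n
  rw [h4, Set.ncard_coe_finset]
  have h6 := mul_le_mul_of_nonneg_left h2 (Nat.cast_nonneg (α := ℝ) (X + 1))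
  push_cast at h1 h6 ⊢
  nlinarith

theorem noSp_small {δ : ℝ} (hδ : 0 < δ) : ∃ y : ℕ, ∀ᶠ X : ℕ in atTop,
    ((NoSp y ∩ Set.Iic X).ncard : ℝ) ≤ δ * X := by
  classical
  obtain ⟨r, hr⟩ := exists_pow_lt_of_lt_one (show 0 < δ / 4 by positivity)
    (show (2 / 3 : ℝ) < 1 by norm_num)
  have hS : ({p : ℕ | p.Prime} \ {2}).Infinite :=
    Nat.infinite_setOf_prime.diff (Set.finite_singleton 2)
  obtain ⟨A, hA, hAc⟩ := hS.exists_subset_card_eq r
  obtain ⟨B, hB, hBc⟩ := (hS.diff A.finite_toSet).exists_subset_card_eq r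
  have hA' : ∀ p ∈ A, p.Prime ∧ p ≠ 2 := fun p hp => hA hp
  have hB' : ∀ p ∈ B, p.Prime ∧ p ≠ 2 := fun p hp => (hB hp).1
  obtain ⟨C, hC⟩ := card_nosplit A hA'
  obtain ⟨C', hC'⟩ := card_nosplit B hB'
  refine ⟨(A ∪ B).sup id, ?_⟩
  have hev : ∀ᶠ X : ℕ in atTop, (C + C') / (δ / 2) ≤ (X : ℝ) :=
    tendsto_natCast_atTop_atTop.eventually_ge_atTop _
  filter_upwards [hev] with X hX
  rw [div_le_iff₀ (by positivity)] at hX
  have hsub : NoSp ((A ∪ B).sup id) ∩ Set.Iic X ⊆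
      ({m : ℕ | ∀ p ∈ A, jacobiSym (-(m : ℤ)) p ≠ 1} ∩ Set.Iic X) ∪
        ({m : ℕ | ∀ p ∈ B, jacobiSym (-(m : ℤ)) p ≠ 1} ∩ Set.Iic X) := by
    rintro m ⟨hm, hmX⟩
    by_contra hcon
    simp only [Set.mem_union, Set.mem_inter_iff, Set.mem_ofPred_eq, hmX, and_true, not_or,
      not_forall, not_not] at hcon
    obtain ⟨⟨p, hp, hp1⟩, ⟨q, hq, hq1⟩⟩ := hcon
    refine hm ⟨p, q, (hA' p hp).1, (hB' q hq).1,
      Finset.le_sup (f := id) (Finset.mem_union_left _ hp),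
      Finset.le_sup (f := id) (Finset.mem_union_right _ hq), ?_, (hA' p hp).2, (hB' q hq).2,
      hp1, hq1⟩
    rintro rfl
    exact (hB hq).2 hp
  have hfin : ∀ S : Set ℕ, (S ∩ Set.Iic X).Finite := fun S =>
    (Set.finite_Iic X).subset Set.inter_subset_right
  have h1 := (Set.ncard_le_ncard hsub ((hfin _).union (hfin _))).trans (Set.ncard_union_le _ _)
  have h2 := (Nat.cast_le (α := ℝ)).2 h1
  have h3 := hC X
  have h4 := hC' X
  rw [hAc] at h3
  rw [hBc] at h4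
  have h5 := mul_le_mul_of_nonneg_right hr.le (Nat.cast_nonneg (α := ℝ) X)
  push_cast at h2
  linarith

theorem wsp_anti {y y' : ℕ} (h : y ≤ y') : NoSp y' ⊆ NoSp y := by
  rintro m hm ⟨p, q, hp, hq, h1, h2, h3⟩
  exact hm ⟨p, q, hp, hq, h1.trans h, h2.trans h, h3⟩

theorem exists_slow (X : ℕ → ℝ) : ∃ y : ℕ → ℕ, Tendsto y atTop atTop ∧
    (∀ᶠ m : ℕ in atTop, ∀ t ≤ y m, X t ≤ m) ∧ Dz {m | m ∈ NoSp (y m)} := by
  classical
  have hev : ∀ b : ℕ, ∀ᶠ m : ℕ in atTop, ∀ t ≤ b, X t ≤ m := fun b => by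
    have : ∀ᶠ m : ℕ in atTop, ∀ t ∈ Finset.range (b + 1), X t ≤ m :=
      (Filter.eventually_all_finset _).2 fun t _ =>
        tendsto_natCast_atTop_atTop.eventually_ge_atTop _
    exact this.mono fun m hm t ht => hm t (Finset.mem_range.2 (Nat.lt_succ_of_le ht))
  have hT : Tendsto (fun m : ℕ => Nat.findGreatest (fun y => ∀ t ≤ y, X t ≤ m) m) atTop atTop := by
    refine tendsto_atTop.2 fun b => ?_
    filter_upwards [hev b, eventually_ge_atTop b] with m hm hb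
    exact Nat.le_findGreatest hb hm
  refine ⟨_, hT, ?_, ?_⟩
  · filter_upwards [hev 0] with m hm
    exact Nat.findGreatest_spec (P := fun y => ∀ t ≤ y, X t ≤ m) (Nat.zero_le m) hm
  · refine tendsto_order.2 ⟨fun a ha => Eventually.of_forall fun Y => ha.trans_le (by positivity),
      fun δ hδ => ?_⟩
    obtain ⟨y₀, hy₀⟩ := noSp_small (show 0 < δ / 2 by positivity)
    obtain ⟨M, hM⟩ := eventually_atTop.1 (hT.eventually_ge_atTop y₀)
    have hev' : ∀ᶠ Y : ℕ in atTop, (M : ℝ) / (δ / 2) < (Y : ℝ) :=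
      tendsto_natCast_atTop_atTop.eventually_gt_atTop _
    filter_upwards [hy₀, hev', eventually_gt_atTop 0] with Y h1 h2 h3
    rw [div_lt_iff₀ (by positivity)] at h2
    have h3' : (0 : ℝ) < Y := by exact_mod_cast h3
    rw [div_lt_iff₀ h3']
    have hsub : {m : ℕ | m ∈ NoSp (Nat.findGreatest (fun y => ∀ t ≤ y, X t ≤ m) m)} ∩ Set.Iic Y ⊆
        (NoSp y₀ ∩ Set.Iic Y) ∪ ↑(Finset.range M) := by
      rintro m ⟨hm, hmY⟩
      by_cases h : M ≤ m
      · exact Or.inl ⟨wsp_anti (hM m h) hm, hmY⟩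
      · exact Or.inr (by simpa using h)
    have h4 := (Set.ncard_le_ncard hsub (((Set.finite_Iic Y).subset Set.inter_subset_right).union
      (Finset.finite_toSet _))).trans (Set.ncard_union_le _ _)
    rw [Set.ncard_coe_finset, Finset.card_range] at h4
    have h5 : (({m : ℕ | m ∈ NoSp (Nat.findGreatest (fun y => ∀ t ≤ y, X t ≤ m) m)} ∩
        Set.Iic Y).ncard : ℝ) ≤ (NoSp y₀ ∩ Set.Iic Y).ncard + M := by exact_mod_cast h4
    linarith

end Pool.Agent.EQ
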