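import Pool.Agent.P.MP_ad7a55_nt.WUc
import Pool.Agent.P.MP_ad7a55_nt.WSp
import Pool.Agent.P.MP_ad7a55_nt.WLz

/-! The exceptional set. -/

set_option autoImplicit false

noncomputable section

open MeasureTheory Topology Filter UpperHalfPlane
open scoped MatrixGroups ENNReal BoundedContinuousFunction

namespace Pool.Agent.EQ

theorem wdg_diag {T : Type} [Countable T] (Q : T → ℕ → ℕ → ℝ → Prop)
    (h : ∀ t p q X X', X ≤ X' → Q t p q X → Q t p q X') : ∃ X : ℕ → ℝ, ∀ t, ∃ y₀, ∀ y, y₀ ≤ y →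
      ∀ p ≤ y, ∀ q ≤ y, (∃ X', Q t p q X') → Q t p q (X y) := by
  obtain ⟨e, he⟩ := Countable.exists_injective_nat T
  have h1 : ∀ y, ∃ X, ∀ t ∈ e ⁻¹' Set.Iic y, ∀ p ∈ Set.Iic y, ∀ q ∈ Set.Iic y,
      (∃ X', Q t p q X') → Q t p q X := fun y =>
    ((eventually_all_finite ((Set.finite_Iic y).preimage he.injOn)).2 fun t _ =>
      (eventually_all_finite (Set.finite_Iic y)).2 fun p _ =>
      (eventually_all_finite (Set.finite_Iic y)).2 fun q _ =>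
      eventually_imp_distrib_left.2 fun ⟨X, hX⟩ =>
        (eventually_ge_atTop X).mono fun X' h' => h t p q X X' h' hX).exists
  choose X hX using h1
  exact ⟨X, fun t => ⟨e t, fun y hy => hX y t hy⟩⟩

theorem wdg_mono {n N : ℕ} {F : IntermediateField ℚ ℂ} {φ : Fin n → (ℍ →ᵇ ℝ)}
    {I : Finset (Fin n)} {ε ε' : ℝ} {m p q : ℕ} {L X X' : ℝ} (h : Ucs N F φ I ε m p q L X)
    (hε : ε ≤ ε') (hX : X ≤ X') : Ucs N F φ I ε' m p q L X' :=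
  fun τ D ψ h1 h2 h3 h4 h5 h6 h7 h8 =>
    (h τ D ψ h1 h2 h3 (fun k hk => hX.trans (h4 k hk)) h5 h6 h7 h8).trans hε

theorem wdg_avg {α : Type} (O : Finset α) (ψ G : α → ℝ) (B : ℝ) :
    avg O (fun z => ψ z / B * G z) = avg O (fun z => ψ z * G z) / B := by
  unfold avg
  rw [div_right_comm, Finset.sum_div _ _ B]
  congr 1
  exact Finset.sum_congr rfl fun z _ => by ring

/-- One bound for the first `y` data and all primes up to `y`. -/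
theorem exists_bound (L : ℝ) : ∃ X : ℕ → ℝ, ∀ (n N : ℕ), 0 < N →
    ∀ (F : IntermediateField ℚ ℂ) [FiniteDimensional ℚ F] (φ : Fin n → (ℍ →ᵇ ℝ)),
      (∀ k, Tc N F (φ k)) → ∀ (I : Finset (Fin n)) (ε : ℝ), 0 < ε →
      ∃ (φ' : Fin n → (ℍ →ᵇ ℝ)) (m y₀ : ℕ), 0 < m ∧ (∀ k, ‖φ k - φ' k‖ ≤ ε) ∧
        ∀ y, y₀ ≤ y → ∀ p q : ℕ, p.Prime → q.Prime → p ≤ y → q ≤ y → p ≠ q → p ≠ 2 → q ≠ 2 →
          Ucs N F φ' I ε m p q L (X y) := by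
  choose A hA hA1 hA2 using fun (N : {N : ℕ // 0 < N})
    (F : {F : IntermediateField ℚ ℂ | FiniteDimensional ℚ F}) => exists_dense N.2 F.1
  have : Countable {F : IntermediateField ℚ ℂ | FiniteDimensional ℚ F} := countable_nf.to_subtype
  have : Countable (⋃ N, ⋃ F, A N F : Set (ℍ →ᵇ ℝ)) :=
    (Set.countable_iUnion fun N => Set.countable_iUnion fun F => hA N F).to_subtype
  obtain ⟨X, hX⟩ := wdg_diag (T := Σ n : ℕ, (ℕ × ℕ × ℕ) ×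
      {F : IntermediateField ℚ ℂ | FiniteDimensional ℚ F} ×
      (Fin n → (⋃ N, ⋃ F, A N F : Set (ℍ →ᵇ ℝ))) × Finset (Fin n))
    (fun t p q X => Ucs t.2.1.1 t.2.2.1.1 (fun k => (t.2.2.2.1 k).1) t.2.2.2.2
      (1 / ((t.2.1.2.1 : ℝ) + 1)) t.2.1.2.2 p q L X)
    (fun t p q X X' h hX => wdg_mono hX le_rfl h)
  refine ⟨X, fun n N hN F hF φ hφ I ε hε => ?_⟩
  obtain ⟨e, he⟩ := exists_nat_one_div_lt hε
  choose φ' h1 h2 using fun k => hA2 ⟨N, hN⟩ ⟨F, hF⟩ (φ k) (hφ k) ε hε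
  obtain ⟨m, hm, hU⟩ := ucs hN F φ' (fun k => hA1 ⟨N, hN⟩ ⟨F, hF⟩ (φ' k) (h1 k)) I
    (ε := 1 / ((e : ℝ) + 1)) (by positivity)
  obtain ⟨y₀, hy⟩ := hX ⟨n, (N, e, m), ⟨F, hF⟩,
    fun k => ⟨φ' k, Set.mem_iUnion.2 ⟨_, Set.mem_iUnion.2 ⟨_, h1 k⟩⟩⟩, I⟩
  exact ⟨φ', m, y₀, hm, h2, fun y h p q hp hq hpy hqy h3 h4 h5 =>
    wdg_mono (hy y h p hpy q hqy (hU p q hp hq h3 h4 h5 L)) he.le le_rfl⟩

theorem exists_goodE : ∃ E : Set ℕ, Dz E ∧ GoodE E := by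
  obtain ⟨c, hc, hsp⟩ := sparse
  obtain ⟨L, -, hL⟩ := low_of_noZero hc
  obtain ⟨X, hX⟩ := exists_bound L
  obtain ⟨y, hy, hyX, hyD⟩ := exists_slow X
  refine ⟨{m : ℕ | Squarefree m ∧ ¬ NoZero c (-(m : ℤ))} ∪ {m | m ∈ NoSp (y m)},
    Dz.union hsp hyD, ?_⟩
  intro n N hN F _ 𝒰 h𝒰 τ D I φ ψ hC hφ hψ hE
  rcases I.eq_empty_or_nonempty with rfl | ⟨k₀, hk₀⟩
  · simp [Eqd, PT, avg]
  have key : ∀ᶠ i in 𝒰, ∃ m : ℕ, ∃ p q : ℕ, p ≤ y m ∧ q ≤ y m ∧ (∀ k ∈ I, (m : ℝ) ≤ -(D i k : ℝ)) ∧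
      (p.Prime ∧ q.Prime ∧ p ≠ q ∧ p ≠ 2 ∧ q ≠ 2) ∧
      ∀ k ∈ I, Low L (D i k) ∧ (∃ κ, Spl p κ (D i k)) ∧ ∃ κ, Spl q κ (D i k) := by
    filter_upwards [hE, hC.big, hC.sq] with i h1 h2 h3
    obtain ⟨d, f, hd, hf, hn⟩ := h1 k₀ hk₀
    have hf0 : f ≠ 0 := by
      rintro rfl
      have := h2 k₀
      rw [hf] at this
      simp at this
    have hd0 : d < 0 := by
      by_contra h
      have h4 := mul_nonneg (sq_nonneg f) (not_lt.1 h)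
      have := h2 k₀
      omega
    have hm : -(d.natAbs : ℤ) = d := by omega
    simp only [Set.mem_union, Set.mem_ofPred_eq, not_or, not_and, not_not, NoSp, hm] at hn
    obtain ⟨hz, p, q, hp, hq, hpy, hqy, hpq, hp2, hq2, jp, jq⟩ := hn
    have hz' := hz (Int.squarefree_natAbs.2 hd)
    have hg : ∀ k ∈ I, ∃ g : ℤ, g ≠ 0 ∧ D i k = g ^ 2 * d := by
      intro k hk
      obtain ⟨g, hg⟩ := tlow_shape hd hf0 (hf ▸ h3 k₀ hk₀ k hk)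
      refine ⟨g, ?_, hg⟩
      rintro rfl
      have := h2 k
      rw [hg] at this
      simp at this
    have := Fact.mk hp
    have := Fact.mk hq
    refine ⟨d.natAbs, p, q, hpy, hqy, fun k hk => ?_, ⟨hp, hq, hpq, hp2, hq2⟩, fun k hk => ?_⟩
    · obtain ⟨g, hg0, hg⟩ := hg k hk
      have h4 : 1 ≤ g ^ 2 := (one_le_sq_iff_one_le_abs g).2 (Int.one_le_abs hg0)
      have h5 : (d.natAbs : ℤ) ≤ -D i k := by nlinarith
      have h6 : ((d.natAbs : ℤ) : ℝ) ≤ ((-D i k : ℤ) : ℝ) := Int.cast_le.2 h5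
      rwa [Int.cast_natCast, Int.cast_neg] at h6
    · obtain ⟨g, hg0, hg⟩ := hg k hk
      have h4 := h2 k
      rw [hg] at h4 ⊢
      exact ⟨hL d g hd (by omega) hz', spl_of_jac p jp hg0, spl_of_jac q jq hg0⟩
  obtain ⟨m, key⟩ := key.choice
  by_cases hm : Tendsto m 𝒰 atTop
  · obtain ⟨B, hB⟩ := hψ.bd
    refine eqd_of_approx hN hψ.bd fun ε hε => ?_
    have hB1 : 1 ≤ max B 1 := le_max_right _ _
    have hB0 : 0 < max B 1 := one_pos.trans_le hB1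
    obtain ⟨φ', m₀, y₀, hm₀, h1, h2⟩ := hX n N hN F φ hφ I (ε / max B 1) (div_pos hε hB0)
    refine ⟨φ', fun k => (h1 k).trans (div_le_self hε.le hB1), ?_⟩
    have hnoi : ∀ᶠ i in 𝒰, ∀ k ∈ I, ∀ l ∈ I, k ≠ l → ∀ σ : ℂ ≃+* ℂ,
        ¬ Isog m₀ (σ (jInv (τ i k))) (σ (jInv (τ i l))) :=
      (eventually_all_finset I).2 fun k hk => (eventually_all_finset I).2 fun l hl =>
        eventually_imp_distrib_left.2 fun hkl => hC.noi k hk l hl hkl m₀ hm₀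
    filter_upwards [key, hnoi, hC.big, hC.sq, hψ.oth, hm.eventually hyX,
      (hy.comp hm).eventually_ge_atTop y₀] with i hi a1 a2 a3 a4 a5 a6
    obtain ⟨p, q, hpy, hqy, b1, ⟨hp, hq, hpq, hp2, hq2⟩, b2⟩ := hi
    have := h2 (y (m i)) a6 p q hp hq hpy hqy hpq hp2 hq2 (τ i) (D i) (fun z => ψ i z / max B 1)
      (hC.disc i) a2 a3 (fun k hk => (a5 _ le_rfl).trans (b1 k hk)) a1 b2
      (fun z z' h => congrArg (· / max B 1) (a4 z z' h)) (fun z => by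
        rw [abs_div, abs_of_pos hB0, div_le_one hB0]
        exact (hB i z).trans (le_max_left _ _))
    rwa [wdg_avg, abs_div, abs_of_pos hB0, div_le_div_iff_of_pos_right hB0] at this
  · obtain ⟨b, hb⟩ : ∃ b, ∀ᶠ i in 𝒰, m i < b := by
      rw [tendsto_atTop] at hm
      push Not at hm
      exact hm
    obtain ⟨⟨p, q⟩, -, h⟩ := ultra_fin 𝒰
      (Finset.Iic ((Finset.range b).sup y) ×ˢ Finset.Iic ((Finset.range b).sup y))
      (P := fun i a => (a.1.Prime ∧ a.2.Prime ∧ a.1 ≠ a.2 ∧ a.1 ≠ 2 ∧ a.2 ≠ 2) ∧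
        ∀ k ∈ I, Low L (D i k) ∧ (∃ κ, Spl a.1 κ (D i k)) ∧ ∃ κ, Spl a.2 κ (D i k)) (by
      filter_upwards [key, hb] with i hi a1
      obtain ⟨p, q, hpy, hqy, -, b1⟩ := hi
      have := Finset.le_sup (f := y) (Finset.mem_range.2 a1)
      exact ⟨(p, q), Finset.mem_product.2 ⟨Finset.mem_Iic.2 (hpy.trans this),
        Finset.mem_Iic.2 (hqy.trans this)⟩, b1⟩)
    obtain ⟨_, ⟨hp, hq, hpq, hp2, hq2⟩, -⟩ := h.exists
    have := Fact.mk hp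
    have := Fact.mk hq
    exact clsC hN h𝒰 hC (fun k => (hφ k).1) hψ p q hpq hp2 hq2 (h.mono fun i hi => hi.2)

end Pool.Agent.EQ
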