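import Pool.Agent.P.MP_ad7a55_nt.WPs

/-! Equidistribution of the special curves of large degree. -/

set_option autoImplicit false

noncomputable section

open MeasureTheory Topology Filter UpperHalfPlane
open scoped MatrixGroups ENNReal BoundedContinuousFunction

namespace Pool.Agent.EQ

variable {N : ℕ} {ι : Type} [Fintype ι] [DecidableEq ι]

theorem whk_meas (p : ℕ) [Fact p.Prime] (q : ℕ) (δ : ℚ) (R : ℝ) (d₁ d₂ : ℚ_[p]) :
    MeasurableSet (NR p q δ R d₁ d₂) := by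
  have : LocallyCompactSpace (Matrix (Fin 2) (Fin 2) ℝ) :=
    inferInstanceAs (LocallyCompactSpace (Fin 2 → Fin 2 → ℝ))
  have : LocallyCompactSpace (Matrix (Fin 2) (Fin 2) ℚ_[p]) :=
    inferInstanceAs (LocallyCompactSpace (Fin 2 → Fin 2 → ℚ_[p]))
  have : SecondCountableTopology (Matrix (Fin 2) (Fin 2) ℝ) :=
    inferInstanceAs (SecondCountableTopology (Fin 2 → Fin 2 → ℝ))
  have : SecondCountableTopology (Matrix (Fin 2) (Fin 2) ℚ_[p]) :=
    inferInstanceAs (SecondCountableTopology (Fin 2 → Fin 2 → ℚ_[p]))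
  have : Countable (Matrix (Fin 2) (Fin 2) ℚ) :=
    inferInstanceAs (Countable (Fin 2 → Fin 2 → ℚ))
  let S : Matrix (Fin 2) (Fin 2) ℚ → Set ((GG p × GG p) × MM p) := fun ξ =>
    {z | IsHom p z.1.1 z.1.2 ξ z.2 ∧ Bd R z.2.2 ∧ z.2.2 1 0 = 0 ∧
      d₁ * z.2.2 0 0 = d₂ * z.2.2 1 1}
  let F : (GG p × GG p) × MM p → XX p × XX p := fun z => ((z.1.1 : XX p), (z.1.2 : XX p))
  have hF : Continuous F :=
    (QuotientGroup.continuous_mk.comp continuous_fst.fst).prodMk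
      (QuotientGroup.continuous_mk.comp continuous_fst.snd)
  have hS : ∀ ξ, IsClosed (S ξ) := by
    intro ξ
    have c1 : Continuous fun z : (GG p × GG p) × MM p =>
        (z.1.1.1 : Matrix (Fin 2) (Fin 2) ℝ) := continuous_subtype_val.comp continuous_fst.fst.fst
    have c2 : Continuous fun z : (GG p × GG p) × MM p =>
        (z.1.2.1 : Matrix (Fin 2) (Fin 2) ℝ) := continuous_subtype_val.comp continuous_fst.snd.fst
    have c3 : Continuous fun z : (GG p × GG p) × MM p =>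
        (z.1.1.2 : Matrix (Fin 2) (Fin 2) ℚ_[p]) :=
      continuous_subtype_val.comp continuous_fst.fst.snd
    have c4 : Continuous fun z : (GG p × GG p) × MM p =>
        (z.1.2.2 : Matrix (Fin 2) (Fin 2) ℚ_[p]) :=
      continuous_subtype_val.comp continuous_fst.snd.snd
    have c5 : ∀ i j, Continuous fun z : (GG p × GG p) × MM p => z.2.2 i j := fun i j =>
      continuous_snd.snd.matrix_elem i j
    have c6 : IsClosed {z : (GG p × GG p) × MM p | Bd R z.2.2} := by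
      have e : {z : (GG p × GG p) × MM p | Bd R z.2.2} = ⋂ i, ⋂ j, {z | ‖z.2.2 i j‖ ≤ R} := by
        ext z
        simp only [Bd, Set.mem_ofPred_eq, Set.mem_iInter]
      rw [e]
      exact isClosed_iInter fun i => isClosed_iInter fun j =>
        isClosed_le (c5 i j).norm continuous_const
    refine IsClosed.inter (IsClosed.inter ?_ ?_) (IsClosed.inter c6 (IsClosed.inter ?_ ?_))
    · exact isClosed_eq (continuous_snd.fst.matrix_mul c1) (c2.matrix_mul continuous_const)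
    · exact isClosed_eq (continuous_snd.snd.matrix_mul c3) (c4.matrix_mul continuous_const)
    · exact isClosed_eq (c5 1 0) continuous_const
    · exact isClosed_eq (continuous_const.mul (c5 0 0)) (continuous_const.mul (c5 1 1))
  have hE : NR p q δ R d₁ d₂ = ⋃ ξ : Matrix (Fin 2) (Fin 2) ℚ,
      ⋃ _ : (∀ i j, InZp p (q * ξ i j)) ∧ ξ.det = δ, F '' S ξ := by
    ext w
    simp only [Set.mem_iUnion]
    constructor
    · rintro ⟨P, ⟨g, g', hg, hg', ξ, h1, h2, h3⟩, h4, h5⟩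
      exact ⟨ξ, ⟨h1, h2⟩, ((g, g'), P), ⟨h3, h4, h5⟩, Prod.ext hg hg'⟩
    · rintro ⟨ξ, ⟨h1, h2⟩, ⟨⟨g, g'⟩, P⟩, ⟨h3, h4, h5⟩, rfl⟩
      exact ⟨P, ⟨g, g', rfl, rfl, ξ, h1, h2, h3⟩, h4, h5⟩
  rw [hE]
  refine MeasurableSet.iUnion fun ξ => MeasurableSet.iUnion fun _ => join_meas_sigma ?_
  exact (isSigmaCompact_univ.of_isClosed_subset (hS ξ) (Set.subset_univ _)).image hF

theorem whk_hnf {ξ : MZ} (h : 0 < ξ.det) : ∃ (γ : SL(2, ℤ)) (a b d : ℤ), a ≠ 0 ∧ d ≠ 0 ∧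
    (!![a, b; 0, d] : MZ).det = ξ.det ∧ ξ = (γ : MZ) * !![a, b; 0, d] := by
  obtain ⟨γ, a, d, b, ha, hd, h1, h2⟩ := act_hnf h
  refine ⟨γ, a, b, d, by exact_mod_cast ha.ne', by exact_mod_cast hd.ne', ?_, h2⟩
  rw [Matrix.det_fin_two_of, mul_zero, sub_zero, h1]

theorem whk_U (p : ℕ) [Fact p.Prime] (hN : 0 < N) (𝒰 : Ultrafilter ℕ)
    (h𝒰 : (𝒰 : Filter ℕ) ≤ atTop)
    (φ : ι → (ℍ →ᵇ ℝ)) (hφ : ∀ k, GInv N (φ k)) (ξ : ℕ → ι → MZ) (M : ℕ → ℕ)
    (h : ∀ i, 0 < M i ∧ ∀ k, 0 < (ξ i k).det ∧ N * (ξ i k).det.natAbs ∣ M i) (I : Finset ι)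
    (hno : ∀ k ∈ I, ∀ l ∈ I, k ≠ l → ∀ m : ℕ, 0 < m → ∀ᶠ i in 𝒰,
      ∃ τ, ¬ Isog m (jInv (act (ξ i k) τ)) (jInv (act (ξ i l) τ))) :
    Tendsto (fun i => IN (M i) (∏ k ∈ I, cact (φ k) (ξ i k))) 𝒰 (𝓝 (∏ k ∈ I, IN N (φ k))) := by
  classical
  choose γ a b d ha hd hdet hγ using fun i k => whk_hnf ((h i).2 k).1
  choose Ψ hΨ using fun i k =>
    exists_psi p (h i).1 ((h i).2 k).1 (hdet i k) ((h i).2 k).2
  have hc : ∀ i, Continuous fun (x : XN p (M i)) k => Ψ i k x := fun i =>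
    continuous_pi fun k => (hΨ i k).1
  obtain ⟨μ, hμ⟩ : ∃ μ : ℕ → Measure (ι → XN p N),
      ∀ i, μ i = (mN p (M i)).map fun x k => Ψ i k x := ⟨_, fun _ => rfl⟩
  have hP : ∀ i, IsProbabilityMeasure (μ i) := fun i => by
    rw [hμ]
    exact Measure.isProbabilityMeasure_map (hc i).measurable.aemeasurable
  have key : ∀ i (I : Finset ι), IN (M i) (∏ k ∈ I, cact (φ k) (ξ i k)) =
      ∫ w, ∏ k ∈ I, φ k (ptX p N (((1, toP p (γ i k)) : GG p) • w k)) ∂μ i := by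
    intro i I
    have h1 : GInv (M i) (∏ k ∈ I, cact (φ k) (ξ i k) : ℍ →ᵇ ℝ) := fun g hg τ => by
      rw [BoundedContinuousFunction.prod_apply, BoundedContinuousFunction.prod_apply]
      exact Finset.prod_congr rfl fun k _ =>
        ((hφ k).act ((h i).2 k).1).mono ((h i).2 k).2 g hg τ
    have h2 : Continuous fun w : ι → XN p N =>
        ∏ k ∈ I, φ k (ptX p N (((1, toP p (γ i k)) : GG p) • w k)) :=
      continuous_finsetProd _ fun k _ => ((hφ k).continuous hN (φ k).continuous).comp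
        ((continuous_const_smul ((1, toP p (γ i k)) : GG p)).comp (continuous_apply k))
    rw [← integral_ptX (p := p) (h i).1 h1, hμ,
      integral_map (hc i).measurable.aemeasurable h2.aestronglyMeasurable]
    refine integral_congr_ae (Eventually.of_forall fun x => ?_)
    simp only [BoundedContinuousFunction.prod_apply]
    exact Finset.prod_congr rfl fun k _ =>
      ((hΨ i k).pt ((h i).2 k).1 hN (h i).1 ((h i).2 k).2 (hγ i k) (hφ k) x).symm
  have hm : ∀ i k, (μ i).map (fun w => w k) = mN p N := fun i k => by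
    rw [hμ, Measure.map_map (measurable_pi_apply k) (hc i).measurable]
    exact (hΨ i k).map ((h i).2 k).1 hN (h i).1
  obtain ⟨v, hv⟩ : ∃ v : ℕ → ι → ℚ_[p], ∀ i k, v i k = (a i k : ℚ_[p]) / d i k :=
    ⟨_, fun _ _ => rfl⟩
  have hv0 : ∀ i k, v i k ≠ 0 := fun i k => by
    rw [hv]
    exact div_ne_zero (by exact_mod_cast ha i k) (by exact_mod_cast hd i k)
  simp only [key]
  induction I using Finset.strongInduction with
  | H I ih =>
  rcases I.eq_empty_or_nonempty with rfl | hI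
  · simp
  obtain ⟨j, hj, hmax⟩ := ultra_max 𝒰 hI fun i k => ‖v i k‖
  have hlim : ∀ k, ∃ e : ℚ_[p], k ∈ I → Tendsto (fun i => v i k * (v i j)⁻¹) 𝒰 (𝓝 e) := by
    intro k
    by_cases hk : k ∈ I
    · obtain ⟨e, -, he⟩ := (isCompact_closedBall (0 : ℚ_[p]) 1).ultrafilter_le_nhds
        (𝒰.map fun i => v i k * (v i j)⁻¹) (by
          rw [le_principal_iff]
          refine hmax.mono fun i hi => ?_
          change v i k * (v i j)⁻¹ ∈ Metric.closedBall (0 : ℚ_[p]) 1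
          rw [mem_closedBall_zero_iff, norm_mul, norm_inv, ← div_eq_mul_inv,
            div_le_one (norm_pos_iff.2 (hv0 i j))]
          exact hi k hk)
      exact ⟨e, fun _ => he⟩
    · exact ⟨0, fun hk' => absurd hk' hk⟩
  choose e he using hlim
  have hej : e j = 1 := by
    refine tendsto_nhds_unique (he j hj) ?_
    simp only [mul_inv_cancel₀ (hv0 _ j)]
    exact tendsto_const_nhds
  have hJI : I.filter (fun k => e k ≠ 0) ⊆ I := Finset.filter_subset _ _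
  have hjJ : j ∈ I.filter (fun k => e k ≠ 0) :=
    Finset.mem_filter.2 ⟨hj, by rw [hej]; exact one_ne_zero⟩
  have hinv : ∀ i, Inv (uflN p N fun k => v i k * (v i j)⁻¹) (μ i) := fun i s => by
    have e1 : (uflN p N (fun k => v i k * (v i j)⁻¹) s ∘ fun x k => Ψ i k x) =
        (fun x k => Ψ i k x) ∘ fun x => uP p ((v i j)⁻¹ * s) • x := by
      funext x k
      change uP p (v i k * (v i j)⁻¹ * s) • Ψ i k x = Ψ i k (uP p ((v i j)⁻¹ * s) • x)
      rw [(hΨ i k).flow ((h i).2 k).1 (hd i k), ← hv, mul_assoc]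
    have e2 : Continuous (uflN p N (fun k => v i k * (v i j)⁻¹) s) :=
      (uflN p N _).continuous continuous_const continuous_id
    rw [hμ, Measure.map_map e2.measurable (hc i).measurable, e1,
      ← Measure.map_map (hc i).measurable (measurable_const_smul _), mN_inv (h i).1]
  have hstep := stepM hN 𝒰 h𝒰 μ (fun i k => toP p (γ i k)) (fun i k => toP_mem_Kp p _)
    (fun i k => v i k * (v i j)⁻¹) e I _ hJI (fun k hk => (Finset.mem_filter.1 hk).2)
    (fun k hk hk' => by_contra fun h0 => hk' (Finset.mem_filter.2 ⟨hk, h0⟩)) he hinv hm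
    (fun k hk l hl hkl q hq δ hδ R => by
      obtain ⟨m, hm0, hm1⟩ := psi_null p hq hδ R
      filter_upwards [hno k (hJI hk) l (hJI hl) hkl m hm0] with i hi
      have hs : MeasurableSet {w : ι → XN p N | (cov p N (w k), cov p N (w l)) ∈
          NR p q δ R (v i k * (v i j)⁻¹) (v i l * (v i j)⁻¹)} :=
        (((continuous_cov p N).comp (continuous_apply k)).prodMk
          ((continuous_cov p N).comp (continuous_apply l))).measurable (whk_meas p q δ R _ _)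
      rw [hμ, Measure.map_apply (hc i).measurable hs, hv i k, hv i l]
      exact hm1 N (M i) (ξ i k) (ξ i l) (γ i k) (γ i l) _ _ _ _ _ _ (Ψ i k) (Ψ i l) _ (h i).1
        ((h i).2 k).1 ((h i).2 l).1 (hγ i k) (hγ i l) (hΨ i k) (hΨ i l)
        (inv_ne_zero (hv0 i j)) hi) φ hφ
  have h2 := ih (I \ I.filter fun k => e k ≠ 0) (Finset.sdiff_ssubset hJI ⟨j, hjJ⟩)
    fun k hk l hl => hno k (Finset.sdiff_subset hk) l (Finset.sdiff_subset hl)
  have h3 := hstep.add (h2.const_mul (∏ k ∈ I.filter (fun k => e k ≠ 0), IN N (φ k)))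
  rw [zero_add, mul_comm, Finset.prod_sdiff hJI] at h3
  simpa only [sub_add_cancel] using h3

theorem heckU (hN : 0 < N) (𝒰 : Ultrafilter ℕ) (h𝒰 : (𝒰 : Filter ℕ) ≤ atTop)
    (φ : ι → (ℍ →ᵇ ℝ)) (hφ : ∀ k, GInv N (φ k)) (ξ : ℕ → ι → MZ) (M : ℕ → ℕ)
    (h : ∀ i, 0 < M i ∧ ∀ k, 0 < (ξ i k).det ∧ N * (ξ i k).det.natAbs ∣ M i) (I : Finset ι)
    (hno : ∀ k ∈ I, ∀ l ∈ I, k ≠ l → ∀ m : ℕ, 0 < m → ∀ᶠ i in 𝒰,
      ∃ τ, ¬ Isog m (jInv (act (ξ i k) τ)) (jInv (act (ξ i l) τ))) :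
    Tendsto (fun i => IN (M i) (∏ k ∈ I, cact (φ k) (ξ i k))) 𝒰 (𝓝 (∏ k ∈ I, IN N (φ k))) :=
  whk_U 2 hN 𝒰 h𝒰 φ hφ ξ M h I hno

theorem heck (hN : 0 < N) (φ : ι → (ℍ →ᵇ ℝ)) (hφ : ∀ k, GInv N (φ k)) (I : Finset ι) {ε : ℝ}
    (hε : 0 < ε) : ∃ m : ℕ, 0 < m ∧ ∀ (r : ι → ι) (ξ : ι → MZ) (M : ℕ), 0 < M →
      (∀ k, 0 < (ξ k).det ∧ N * (ξ k).det.natAbs ∣ M) →
      (∀ k ∈ I, ∀ l ∈ I, k ≠ l → r k = r l →
        ∃ τ, ¬ Isog m (jInv (act (ξ k) τ)) (jInv (act (ξ l) τ))) →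
      |∏ b ∈ I.image r, IN M (∏ k ∈ I.filter (fun k => r k = b), cact (φ k) (ξ k)) -
        ∏ k ∈ I, IN N (φ k)| ≤ ε := by
  by_contra hc
  have hc' : ∀ i : ℕ, ∃ (r : ι → ι) (ξ : ι → MZ) (M : ℕ),
      (0 < M ∧ ∀ k, 0 < (ξ k).det ∧ N * (ξ k).det.natAbs ∣ M) ∧
      (∀ k ∈ I, ∀ l ∈ I, k ≠ l → r k = r l →
        ∃ τ, ¬ Isog i.factorial (jInv (act (ξ k) τ)) (jInv (act (ξ l) τ))) ∧
      ε < |∏ b ∈ I.image r, IN M (∏ k ∈ I.filter (fun k => r k = b), cact (φ k) (ξ k)) -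
        ∏ k ∈ I, IN N (φ k)| := fun i => by
    by_contra h1
    refine hc ⟨i.factorial, i.factorial_pos, fun r ξ M h2 h3 h4 => ?_⟩
    exact not_lt.1 fun h5 => h1 ⟨r, ξ, M, ⟨h2, h3⟩, h4, h5⟩
  choose r ξ M h1 h2 h3 using hc'
  have h𝒰 : (hyperfilter ℕ : Filter ℕ) ≤ atTop := Nat.hyperfilter_le_atTop
  obtain ⟨r₀, -, hr⟩ := ultra_fin (hyperfilter ℕ) (Finset.univ : Finset (ι → ι))
    (P := fun i b => r i = b) (Eventually.of_forall fun i => ⟨r i, Finset.mem_univ _, rfl⟩)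
  have h4 := tendsto_finsetProd (I.image r₀) fun b _ =>
    heckU hN (hyperfilter ℕ) h𝒰 φ hφ ξ M h1 (I.filter fun k => r₀ k = b)
      fun k hk l hl hkl m hm => by
        filter_upwards [hr, h𝒰 (eventually_ge_atTop m)] with i hi hi'
        obtain ⟨hk1, hk2⟩ := Finset.mem_filter.1 hk
        obtain ⟨hl1, hl2⟩ := Finset.mem_filter.1 hl
        obtain ⟨τ, hτ⟩ := h2 i k hk1 l hl1 hkl (by rw [hi, hk2, hl2])
        exact ⟨τ, fun h5 => hτ (h5.mono (Nat.dvd_factorial hm hi'))⟩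
  rw [Finset.prod_fiberwise_of_maps_to fun k hk => Finset.mem_image_of_mem r₀ hk] at h4
  obtain ⟨i, hi, hi'⟩ := (hr.and (Metric.tendsto_nhds.1 h4 ε hε)).exists
  have h5 := h3 i
  rw [hi] at h5
  exact lt_asymm h5 hi'

end Pool.Agent.EQ
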