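import Pool.Agent.P.MP_ad7a55_nt.SgA

/-! Sums of coefficients and a real zero near one. -/

set_option autoImplicit false

noncomputable section

open Finset

namespace Pool.Agent.EQ

/-- The logarithmic sum of the coefficients. -/
def SL1 (a : ℕ → ℝ) (X : ℕ) : ℝ := ∑ m ∈ Icc 1 X, a m / m

/-- `ζ f` is a series with the nonnegative coefficients `a`, and `f` is bounded by `M`. -/
structure Ser (f : ℂ → ℂ) (a : ℕ → ℝ) (M : ℝ) : Prop where
  diff : Differentiable ℂ f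
  one_le : 1 ≤ M
  bd : ∀ s ∈ Metric.closedBall (2 : ℂ) (4 / 3), ‖f s‖ ≤ M
  nn : ∀ n, 0 ≤ a n
  one : 1 ≤ a 1
  sum : ∀ s : ℂ, 1 < s.re → LSeriesHasSum (fun n => (a n : ℂ)) s (riemannZeta s * f s)

theorem wla_iter (g : ℕ → ℂ) (n m : ℕ) : (LSeries.logMul^[n] g) m = Complex.log m ^ n * g m := by
  induction n with
  | zero => simp
  | succ n ih =>
    rw [Function.iterate_succ_apply', LSeries.logMul, ih]
    ring

open Filter Topology in
theorem wla_coeff {f : ℂ → ℂ} {a : ℕ → ℝ} {M : ℝ} (h : Ser f a M) (n : ℕ) :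
    HasSum (fun m : ℕ => a m / (m : ℝ) ^ 2 * (Real.log m ^ n / n.factorial))
      (((n.factorial : ℂ)⁻¹ * ((-1) ^ n * iteratedDeriv n (sgG f) 2)).re + (f 1).re) := by
  have hs := h.sum
  have hab : LSeries.abscissaOfAbsConv (fun n => (a n : ℂ)) ≤ (1 : ℝ) :=
    LSeries.abscissaOfAbsConv_le_of_forall_lt_LSeriesSummable fun y hy =>
      (hs y (by simpa using hy)).LSeriesSummable
  have hlt : LSeries.abscissaOfAbsConv (fun n => (a n : ℂ)) < (2 : ℂ).re :=
    hab.trans_lt (by exact_mod_cast (show (1 : ℝ) < (2 : ℂ).re by norm_num))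
  have h1 := LSeries_iteratedDeriv n hlt
  have hev : LSeries (fun n => (a n : ℂ)) =ᶠ[𝓝 2] sgG f + fun s => f 1 * (s - 1)⁻¹ := by
    filter_upwards [(isOpen_lt continuous_const Complex.continuous_re).mem_nhds
      (show (2 : ℂ) ∈ {s : ℂ | 1 < s.re} by norm_num)] with s hs'
    rw [(hs s hs').LSeries_eq, sgG_eq f (by rintro rfl; simp at hs')]
    rfl
  have hinv : iteratedDeriv n (fun s : ℂ => (s - 1)⁻¹) 2 = (-1) ^ n * n.factorial := by
    have := congrFun (iter_deriv_inv_linear_sub n (1 : ℂ) 1) 2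
    simp only [one_mul] at this
    rw [iteratedDeriv_eq_iterate, this]
    norm_num
  have hc : ContDiffAt ℂ n (fun s : ℂ => f 1 * (s - 1)⁻¹) 2 :=
    contDiffAt_const.mul ((contDiffAt_id.sub contDiffAt_const).inv (by norm_num))
  rw [hev.iteratedDeriv_eq, iteratedDeriv_add (sgG_diff h.diff).contDiff.contDiffAt hc,
    iteratedDeriv_const_mul_field, hinv] at h1
  have hn : (n.factorial : ℂ) ≠ 0 := by exact_mod_cast n.factorial_ne_zero
  have h2 : LSeriesSummable (LSeries.logMul^[n] fun n => (a n : ℂ)) 2 :=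
    LSeriesSummable_of_abscissaOfAbsConv_lt_re
      (by rwa [LSeries.absicssaOfAbsConv_logPowMul])
  have h3 := Complex.hasSum_re (h2.LSeriesHasSum.mul_left (n.factorial : ℂ)⁻¹)
  have h4 : (n.factorial : ℂ)⁻¹ * LSeries (LSeries.logMul^[n] fun n => (a n : ℂ)) 2 =
      (n.factorial : ℂ)⁻¹ * ((-1) ^ n * iteratedDeriv n (sgG f) 2) + f 1 := by
    have h5 : ((-1 : ℂ) ^ n) ^ 2 = 1 := by rw [← pow_mul, mul_comm, pow_mul]; norm_num
    field_simp
    linear_combination (-(-1 : ℂ) ^ n) * h1 +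
      (f 1 * n.factorial - LSeries (LSeries.logMul^[n] fun n => (a n : ℂ)) 2) * h5
  rw [h4, Complex.add_re] at h3
  have h6 : (fun m : ℕ => a m / (m : ℝ) ^ 2 * (Real.log m ^ n / n.factorial)) = fun m : ℕ =>
      ((n.factorial : ℂ)⁻¹ * LSeries.term (LSeries.logMul^[n] fun n => (a n : ℂ)) 2 m).re := by
    funext m
    rcases eq_or_ne m 0 with rfl | hm
    · simp
    · rw [LSeries.term_of_ne_zero hm, wla_iter, ← Complex.natCast_log, Complex.cpow_two,
        ← Complex.ofReal_re (a m / (m : ℝ) ^ 2 * (Real.log m ^ n / n.factorial))]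
      refine congrArg Complex.re ?_
      push_cast
      ring
  rw [h6]
  exact h3

theorem wla_real {u : ℕ → ℝ} {lam B t : ℝ} (ht1 : 1 < t) (ht2 : t ≤ 16 / 15)
    (hS : HasSum (fun n => u n * t ^ n) (lam / (t - 1))) (hB : ∀ n, |u n| ≤ B * (3 / 4) ^ n)
    (K : ℕ) : |∑ n ∈ range (K + 1), (u n + lam) * t ^ n - lam * t ^ (K + 1) / (t - 1)| ≤
      4 * B * (4 / 5) ^ K := by
  have hB0 : 0 ≤ B := by simpa using (abs_nonneg _).trans (hB 0)
  have ht0 : 0 < t := by linarith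
  have h1 := (hasSum_nat_add_iff' (K + 1)).2 hS
  have h2 := (hasSum_geometric_of_lt_one (r := 4 / 5) (by norm_num) (by norm_num)).mul_left
    (B * (4 / 5) ^ (K + 1))
  have h3 : ∀ n, |u (n + (K + 1)) * t ^ (n + (K + 1))| ≤ B * (4 / 5) ^ (K + 1) * (4 / 5) ^ n := by
    intro n
    have h4 : (3 / 4 : ℝ) ^ (n + (K + 1)) * t ^ (n + (K + 1)) ≤ (4 / 5) ^ (n + (K + 1)) := by
      rw [← mul_pow]
      exact pow_le_pow_left₀ (by positivity) (by linarith) _
    rw [abs_mul, abs_of_pos (pow_pos ht0 _)]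
    calc _ ≤ B * (3 / 4) ^ (n + (K + 1)) * t ^ (n + (K + 1)) :=
          mul_le_mul_of_nonneg_right (hB _) (pow_pos ht0 _).le
      _ = B * ((3 / 4) ^ (n + (K + 1)) * t ^ (n + (K + 1))) := mul_assoc _ _ _
      _ ≤ B * (4 / 5) ^ (n + (K + 1)) := mul_le_mul_of_nonneg_left h4 hB0
      _ = _ := by ring
  have h4 := hasSum_le (fun n => (abs_le.1 (h3 n)).2) h1 h2
  have h5 := hasSum_le (fun n => (abs_le.1 (h3 n)).1) h2.neg h1
  have h6 : ∑ n ∈ range (K + 1), (u n + lam) * t ^ n - lam * t ^ (K + 1) / (t - 1) =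
      -(lam / (t - 1) - ∑ n ∈ range (K + 1), u n * t ^ n) := by
    simp only [add_mul]
    rw [sum_add_distrib, ← mul_sum, geom_sum_eq ht1.ne']
    ring
  have h7 : B * (4 / 5) ^ (K + 1) * (1 - 4 / 5 : ℝ)⁻¹ = 4 * B * (4 / 5) ^ K := by
    norm_num
    ring
  rw [h6, abs_neg, abs_le, ← h7]
  exact ⟨h5, h4⟩

theorem wla_hc {f g : ℕ → ℝ} {S : ℝ} (h : HasSum f S) (e : ∀ n, f n = g n) : HasSum g S := by
  have e1 : f = g := funext e
  rw [← e1]
  exact h

theorem ser_core : ∃ C : ℝ, 1 ≤ C ∧ ∀ (f : ℂ → ℂ) (a : ℕ → ℝ) (M : ℝ), Ser f a M → ∀ β : ℝ,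
    14 / 15 ≤ β → β < 1 → f β = 0 → ∀ K : ℕ, ∃ S : ℝ,
      HasSum (fun m : ℕ => a m / (m : ℝ) ^ 2 *
        ∑ n ∈ range (K + 1), ((2 - β) * Real.log m) ^ n / n.factorial) S ∧
      |S - (f 1).re * (2 - β) ^ (K + 1) / (1 - β)| ≤ C * M * (4 / 5) ^ K := by
  obtain ⟨C, hC1, hC⟩ := sg_bound
  refine ⟨4 * (C + 6), by linarith, fun f a M h β h1 h2 h0 K => ?_⟩
  have hf := h.diff
  have hS : HasSum (fun n : ℕ =>
      ((n.factorial : ℂ)⁻¹ * ((-1) ^ n * iteratedDeriv n (sgG f) 2)).re * (2 - β) ^ n)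
      (sgG f β).re := by
    have := Complex.hasSum_re (Complex.hasSum_taylorSeries_of_entire (sgG_diff hf) 2 β)
    refine wla_hc this fun n => ?_
    rw [← Complex.re_mul_ofReal]
    refine congrArg Complex.re ?_
    push_cast
    rw [smul_eq_mul, smul_eq_mul, ← neg_sub (2 : ℂ) β, neg_pow (2 - (β : ℂ))]
    ring
  have hB : ∀ n : ℕ, |((n.factorial : ℂ)⁻¹ * ((-1) ^ n * iteratedDeriv n (sgG f) 2)).re| ≤
      (C + 6) * M * (3 / 4) ^ n := fun n => by
    refine (Complex.abs_re_le_norm _).trans ?_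
    have h4 := Complex.norm_iteratedDeriv_le_of_forall_mem_sphere_norm_le n
      (show (0 : ℝ) < 4 / 3 by norm_num) (sgG_diff hf).diffContOnCl fun z hz => sgG_le hC h.bd hz
    have hn : (0 : ℝ) < n.factorial := by exact_mod_cast n.factorial_pos
    rw [norm_mul, norm_mul, norm_pow, norm_neg, norm_one, one_pow, one_mul, norm_inv,
      Complex.norm_natCast, inv_mul_le_iff₀ hn]
    refine h4.trans_eq ?_
    rw [div_eq_mul_inv, ← inv_pow]
    norm_num
    ring
  have he : (sgG f β).re = (f 1).re / (2 - β - 1) := by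
    have h3 := congrArg Complex.re (sgG_eq f (s := β) (by exact_mod_cast h2.ne))
    rw [h0, mul_zero, Complex.zero_re, Complex.add_re, sg_re_inv, Complex.re_mul_ofReal] at h3
    have h4 : (β - 1)⁻¹ = -(2 - β - 1)⁻¹ := by rw [← inv_neg]; congr 1; ring
    rw [h4] at h3
    rw [div_eq_mul_inv]
    linarith
  rw [he] at hS
  have h4 := wla_real (by linarith) (by linarith) hS hB K
  rw [show 2 - β - 1 = 1 - β by ring] at h4
  refine ⟨_, ?_, h4.trans_eq (by ring)⟩
  have h5 := hasSum_sum (s := range (K + 1)) fun n _ => (wla_coeff h n).mul_right ((2 - β) ^ n)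
  refine wla_hc h5 fun m => ?_
  rw [mul_sum]
  refine sum_congr rfl fun n _ => ?_
  rw [mul_pow]
  ring

theorem exp_half {x : ℝ} (hx : 0 ≤ x) {K : ℕ} (h : 2 * x ≤ K + 1) :
    Real.exp x / 2 ≤ ∑ n ∈ range (K + 1), x ^ n / n.factorial := by
  have h0 : HasSum (fun n : ℕ => x ^ n / n.factorial) (Real.exp x) := by
    rw [Real.exp_eq_exp_ℝ]
    exact NormedSpace.expSeries_div_hasSum_exp x
  have h1 := (hasSum_nat_add_iff' (K + 1)).2 h0
  have h2 := ((hasSum_nat_add_iff' K).2 h0).mul_left (1 / 2)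
  have h3 := hasSum_le (fun n => ?_) h1 h2
  · have h4 : 0 ≤ ∑ n ∈ range K, x ^ n / n.factorial := sum_nonneg fun n _ => by positivity
    linarith
  · rw [← add_assoc, Nat.factorial_succ, pow_succ]
    have h4 : (0 : ℝ) < (n + K).factorial := by exact_mod_cast (n + K).factorial_pos
    have h5 : (0 : ℝ) ≤ n := n.cast_nonneg
    have h6 : (0 : ℝ) ≤ K := K.cast_nonneg
    have h7 : x / (n + K + 1) ≤ 1 / 2 := by
      rw [div_le_iff₀ (by linarith)]
      linarith
    have h8 := mul_le_mul_of_nonneg_right h7 (div_nonneg (pow_nonneg hx (n + K)) h4.le)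
    refine le_trans (le_of_eq ?_) h8
    push_cast
    field_simp

theorem exp_eight {x : ℝ} (hx : 0 ≤ x) (K : ℕ) :
    ∑ n ∈ range (K + 1), x ^ n / n.factorial ≤ 8 ^ K * Real.exp (x / 8) := by
  refine le_trans ?_ (mul_le_mul_of_nonneg_left
    (Real.sum_le_exp_of_nonneg (div_nonneg hx (by norm_num)) (K + 1)) (by positivity))
  rw [mul_sum]
  refine sum_le_sum fun n hn => ?_
  have h1 : (8 : ℝ) ^ n ≤ 8 ^ K :=
    pow_le_pow_right₀ (by norm_num) (Nat.lt_succ_iff.1 (mem_range.1 hn))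
  have h2 := mul_le_mul_of_nonneg_right h1 (show 0 ≤ (x / 8) ^ n / n.factorial by positivity)
  refine le_trans (le_of_eq ?_) h2
  rw [div_pow]
  field_simp

theorem wla_log {q : ℕ} (hq : 2 ≤ q) : 1 / 2 ≤ Real.log q := by
  have h1 : Real.log 2 ≤ Real.log q := Real.log_le_log (by norm_num) (by exact_mod_cast hq)
  linarith [Real.log_two_gt_d9]

theorem wla_pow {q : ℕ} (hq : 2 ≤ q) (A : ℕ) : (q : ℝ) ^ A = Real.exp (A * Real.log q) := by
  rw [Real.exp_nat_mul, Real.exp_log (by exact_mod_cast (by omega : 0 < q))]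

theorem wla_K {C : ℝ} (hC : 1 ≤ C) (A : ℕ) : ∃ D : ℝ, 0 ≤ D ∧ ∀ (q : ℕ) (M : ℝ), 2 ≤ q →
    M ≤ (q : ℝ) ^ A → ∃ K : ℕ, C * M * (4 / 5) ^ K ≤ 1 / 4 ∧ 2 * (A * Real.log q) ≤ K + 1 ∧
      (K : ℝ) + 1 ≤ D * Real.log q := by
  have hl : 0 ≤ Real.log (4 * C) := Real.log_nonneg (by linarith)
  have hA : (0 : ℝ) ≤ A := A.cast_nonneg
  refine ⟨10 * Real.log (4 * C) + 5 * A + 4, by positivity, fun q M hq hM => ?_⟩
  have hL := wla_log hq
  have h0 : 0 ≤ (10 * Real.log (4 * C) + 5 * A) * Real.log q := by positivity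
  have h1 := Nat.le_ceil ((10 * Real.log (4 * C) + 5 * A) * Real.log q)
  have h2 := Nat.ceil_lt_add_one h0
  generalize ⌈(10 * Real.log (4 * C) + 5 * A) * Real.log q⌉₊ = K at h1 h2
  have h3 := mul_le_mul_of_nonneg_left hL hl
  have h4 : 0 ≤ A * Real.log q := by positivity
  refine ⟨K, ?_, by nlinarith, by nlinarith⟩
  have h5 : (4 / 5 : ℝ) ≤ Real.exp (-(1 / 5)) := by
    have := Real.add_one_le_exp (-(1 / 5))
    linarith
  have h6 : (4 / 5 : ℝ) ^ K ≤ Real.exp (-Real.log (4 * C)) * Real.exp (-(A * Real.log q)) := by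
    refine (pow_le_pow_left₀ (by norm_num) h5 K).trans ?_
    rw [← Real.exp_nat_mul, ← Real.exp_add]
    exact Real.exp_le_exp.2 (by nlinarith)
  rw [wla_pow hq] at hM
  rw [Real.exp_neg, Real.exp_neg, Real.exp_log (by linarith)] at h6
  have h7 := Real.exp_pos (A * Real.log q)
  calc C * M * (4 / 5) ^ K ≤ C * Real.exp (A * Real.log q) * (4 / 5) ^ K := by gcongr
    _ ≤ C * Real.exp (A * Real.log q) * ((4 * C)⁻¹ * (Real.exp (A * Real.log q))⁻¹) := by gcongr
    _ = 1 / 4 := by field_simp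

theorem wla_one {f : ℂ → ℂ} {a : ℕ → ℝ} {M : ℝ} (h : Ser f a M) {X : ℕ} (hX : 1 ≤ X) :
    1 ≤ SL1 a X := by
  have := single_le_sum (f := fun m : ℕ => a m / m) (s := Icc 1 X)
    (fun m _ => div_nonneg (h.nn m) m.cast_nonneg) (mem_Icc.2 ⟨le_rfl, hX⟩)
  simp only [Nat.cast_one, div_one] at this
  exact h.one.trans this

theorem wla_logle {q m A : ℕ} (_hq : 2 ≤ q) (h1 : 1 ≤ m) (hm : m ≤ q ^ A) :
    Real.log m ≤ A * Real.log q := by
  rw [← Real.log_pow]
  exact Real.log_le_log (by exact_mod_cast h1) (by exact_mod_cast hm)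

theorem ser_up (A : ℕ) : ∃ C : ℝ, 0 < C ∧ ∀ (f : ℂ → ℂ) (a : ℕ → ℝ) (M : ℝ) (q : ℕ) (β : ℝ),
    Ser f a M → 2 ≤ q → M ≤ (q : ℝ) ^ A → 14 / 15 ≤ β → β < 1 → (1 - β) * Real.log q ≤ 1 →
      f β = 0 → (1 - β) * SL1 a (q ^ A) ≤ C * (f 1).re := by
  obtain ⟨C, hC1, hC⟩ := ser_core
  obtain ⟨D, hD0, hD⟩ := wla_K hC1 A
  refine ⟨4 * Real.exp D, by positivity, fun f a M q β h hq hM h1 h2 h3 h0 => ?_⟩
  obtain ⟨K, k1, k2, k3⟩ := hD q M hq hM
  obtain ⟨S, hS, hb⟩ := hC f a M h β h1 h2 h0 K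
  have hone := wla_one h (Nat.one_le_pow A q (by omega))
  have hy : 0 < 1 - β := by linarith
  have s1 : SL1 a (q ^ A) / 2 ≤ S := by
    refine le_trans ?_ (sum_le_hasSum (Icc 1 (q ^ A)) (fun m _ => mul_nonneg
      (div_nonneg (h.nn m) (by positivity)) (sum_nonneg fun n _ => div_nonneg (pow_nonneg
        (mul_nonneg (by linarith) (Real.log_natCast_nonneg m)) n) (by positivity))) hS)
    rw [SL1, sum_div]
    refine sum_le_sum fun m hm => ?_
    rw [mem_Icc] at hm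
    have m0 : (0 : ℝ) < m := by exact_mod_cast hm.1
    have l0 := Real.log_natCast_nonneg m
    have e1 := exp_half l0 (K := K) (by linarith [wla_logle hq hm.1 hm.2])
    rw [Real.exp_log m0] at e1
    have e2 : ∑ n ∈ range (K + 1), Real.log m ^ n / n.factorial ≤
        ∑ n ∈ range (K + 1), ((2 - β) * Real.log m) ^ n / n.factorial :=
      sum_le_sum fun n _ => div_le_div_of_nonneg_right
        (pow_le_pow_left₀ l0 (by nlinarith) n) (by positivity)
    refine le_trans (le_of_eq ?_) (mul_le_mul_of_nonneg_left (e1.trans e2)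
      (div_nonneg (h.nn m) (by positivity)))
    field_simp
  have s2 : SL1 a (q ^ A) / 4 ≤ (f 1).re * (2 - β) ^ (K + 1) / (1 - β) := by
    have := (abs_le.1 (hb.trans k1)).2
    linarith
  rw [le_div_iff₀ hy] at s2
  have hp : 0 < (2 - β) ^ (K + 1) := pow_pos (by linarith) _
  have s3 : 0 < (f 1).re := (mul_pos_iff_of_pos_right hp).1 (lt_of_lt_of_le (by positivity) s2)
  have s4 : (2 - β) ^ (K + 1) ≤ Real.exp D := by
    have e1 : 2 - β ≤ Real.exp (1 - β) := by linarith [Real.add_one_le_exp (1 - β)]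
    refine (pow_le_pow_left₀ (by linarith) e1 _).trans ?_
    rw [← Real.exp_nat_mul]
    refine Real.exp_le_exp.2 ?_
    push_cast
    have e2 := mul_le_mul_of_nonneg_right k3 hy.le
    have e3 := mul_le_mul_of_nonneg_left h3 hD0
    nlinarith
  have s5 := mul_le_mul_of_nonneg_left s4 s3.le
  linarith

theorem wla_hs {f : ℂ → ℂ} {a : ℕ → ℝ} {M : ℝ} (h : Ser f a M) : ∃ Z : ℝ,
    HasSum (fun m : ℕ => a m / (m : ℝ) ^ (3 / 2 : ℝ)) Z ∧
      Z ≤ ‖riemannZeta (3 / 2 : ℝ)‖ * M := by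
  have h1 := Complex.hasSum_re (h.sum (3 / 2 : ℝ) (by rw [Complex.ofReal_re]; norm_num))
  refine ⟨_, wla_hc h1 fun m => ?_, (Complex.re_le_norm _).trans ?_⟩
  · rcases eq_or_ne m 0 with rfl | hm
    · simp
    · rw [LSeries.term_of_ne_zero hm, ← Complex.ofReal_natCast,
        ← Complex.ofReal_cpow m.cast_nonneg, ← Complex.ofReal_div, Complex.ofReal_re]
  · rw [norm_mul]
    refine mul_le_mul_of_nonneg_left (h.bd _ ?_) (norm_nonneg _)
    rw [mem_closedBall_iff_norm]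
    have : ((3 / 2 : ℝ) : ℂ) - 2 = ((3 / 2 - 2 : ℝ) : ℂ) := by push_cast; rfl
    rw [this, Complex.norm_real, Real.norm_eq_abs, abs_le]
    constructor <;> norm_num

theorem ser_low (A : ℕ) : ∃ (B : ℕ) (C : ℝ), 2 ≤ B ∧ 0 < C ∧ ∀ (f : ℂ → ℂ) (a : ℕ → ℝ) (M : ℝ)
    (q : ℕ) (β : ℝ), Ser f a M → 2 ≤ q → M ≤ (q : ℝ) ^ A → 14 / 15 ≤ β → β < 1 →
      (1 - β) * Real.log q ≤ 1 → f β = 0 → (f 1).re ≤ C * (1 - β) * SL1 a (q ^ B) := by
  obtain ⟨C, hC1, hC⟩ := ser_core
  obtain ⟨D, hD0, hD⟩ := wla_K hC1 A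
  obtain ⟨z, hz⟩ : ∃ z, z = ‖riemannZeta (3 / 2 : ℝ)‖ := ⟨_, rfl⟩
  have z0 : 0 ≤ z := hz ▸ norm_nonneg _
  obtain ⟨B, hB2, hB⟩ : ∃ B : ℕ, 2 ≤ B ∧ 9 * D + 3 * A + 6 * z ≤ B :=
    ⟨⌈9 * D + 3 * A + 6 * z⌉₊ + 2, by omega, by
      push_cast
      linarith [Nat.le_ceil (9 * D + 3 * A + 6 * z)]⟩
  refine ⟨B, Real.exp B + 2, hB2, by positivity, fun f a M q β h hq hM h1 h2 h3 h0 => ?_⟩
  obtain ⟨K, k1, -, k3⟩ := hD q M hq hM
  obtain ⟨S, hS, hb⟩ := hC f a M h β h1 h2 h0 K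
  obtain ⟨Z, hZ, hZ'⟩ := wla_hs h
  rw [← hz] at hZ'
  have hone := wla_one h (Nat.one_le_pow B q (by omega))
  have hy : 0 < 1 - β := by linarith
  have hL := wla_log hq
  have hB0 : (0 : ℝ) ≤ B := B.cast_nonneg
  rcases le_or_gt (f 1).re 0 with hl | hl
  · exact hl.trans (by positivity)
  have g1 : HasSum (fun m : ℕ => if m ∈ Icc 1 (q ^ B) then Real.exp B * (a m / m) else 0)
      (Real.exp B * SL1 a (q ^ B)) := by
    have := hasSum_sum_of_ne_finset_zero (L := .unconditional ℕ) (s := Icc 1 (q ^ B))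
      (f := fun m : ℕ => if m ∈ Icc 1 (q ^ B) then Real.exp B * (a m / m) else 0)
      fun b hb => if_neg hb
    rwa [sum_congr rfl fun b hb => if_pos hb, ← mul_sum] at this
  have hκ : 0 ≤ (8 : ℝ) ^ K * Real.exp (-(B * Real.log q / 3)) := by positivity
  have g2 := hasSum_le (fun m => ?_) hS
    (g1.add (hZ.mul_left ((8 : ℝ) ^ K * Real.exp (-(B * Real.log q / 3)))))
  · have e1 : (8 : ℝ) ^ K ≤ Real.exp (3 * D * Real.log q) := by
      have e2 : (8 : ℝ) ≤ Real.exp 3 := by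
        have e3 : (2 : ℝ) ≤ Real.exp 1 := by linarith [Real.add_one_le_exp 1]
        have e4 := pow_le_pow_left₀ (by norm_num) e3 3
        rw [← Real.exp_nat_mul] at e4
        norm_num at e4
        exact e4
      refine (pow_le_pow_left₀ (by norm_num) e2 K).trans ?_
      rw [← Real.exp_nat_mul]
      exact Real.exp_le_exp.2 (by linarith)
    have e2 : z ≤ Real.exp (2 * z * Real.log q) := by
      have := Real.add_one_le_exp (2 * z * Real.log q)
      nlinarith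
    rw [wla_pow hq] at hM
    have e3 : (8 : ℝ) ^ K * Real.exp (-(B * Real.log q / 3)) * Z ≤ 1 := by
      have M0 : 0 ≤ M := by linarith [h.one_le]
      calc _ ≤ (8 : ℝ) ^ K * Real.exp (-(B * Real.log q / 3)) * (z * M) :=
            mul_le_mul_of_nonneg_left hZ' hκ
        _ ≤ Real.exp (3 * D * Real.log q) * Real.exp (-(B * Real.log q / 3)) *
            (Real.exp (2 * z * Real.log q) * Real.exp (A * Real.log q)) := by gcongr
        _ ≤ 1 := by
            rw [← Real.exp_add, ← Real.exp_add, ← Real.exp_add, Real.exp_le_one_iff]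
            have := mul_le_mul_of_nonneg_right hB (show 0 ≤ Real.log q by linarith)
            linarith
    have e4 := (abs_le.1 (hb.trans k1)).1
    have e5 : (f 1).re * (2 - β) ^ (K + 1) / (1 - β) ≤ (Real.exp B + 2) * SL1 a (q ^ B) := by
      linarith
    rw [div_le_iff₀ hy] at e5
    have e6 : (1 : ℝ) ≤ (2 - β) ^ (K + 1) := one_le_pow₀ (by linarith)
    have e7 := mul_le_mul_of_nonneg_left e6 hl.le
    linarith
  · have w0 : 0 ≤ a m / (m : ℝ) ^ (3 / 2 : ℝ) := div_nonneg (h.nn m) (by positivity)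
    rcases Nat.eq_zero_or_pos m with rfl | hm
    · simp
    have m0 : (0 : ℝ) < m := by exact_mod_cast hm
    have l0 := Real.log_natCast_nonneg m
    have x0 : 0 ≤ (2 - β) * Real.log m := mul_nonneg (by linarith) l0
    have a0 : 0 ≤ a m / (m : ℝ) ^ 2 := div_nonneg (h.nn m) (by positivity)
    by_cases hY : m ≤ q ^ B
    · rw [if_pos (mem_Icc.2 ⟨hm, hY⟩)]
      refine le_trans ?_ (le_add_of_nonneg_right (mul_nonneg hκ w0))
      have e1 : Real.exp ((2 - β) * Real.log m) ≤ Real.exp B * m := by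
        rw [← Real.exp_log m0, ← Real.exp_add, Real.log_exp]
        refine Real.exp_le_exp.2 ?_
        have e2 := mul_le_mul_of_nonneg_left (wla_logle hq hm hY) hy.le
        have e3 := mul_le_mul_of_nonneg_left h3 hB0
        nlinarith
      refine (mul_le_mul_of_nonneg_left ((Real.sum_le_exp_of_nonneg x0 _).trans e1) a0).trans_eq ?_
      field_simp
    · rw [if_neg fun hh => hY (mem_Icc.1 hh).2, zero_add]
      have e1 : B * Real.log q ≤ Real.log m := by
        rw [← Real.log_pow]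
        exact Real.log_le_log (by positivity) (by exact_mod_cast (not_le.1 hY).le)
      have e2 : Real.exp ((2 - β) * Real.log m / 8) ≤
          Real.exp (-(B * Real.log q / 3)) * ((m : ℝ) ^ 2 / (m : ℝ) ^ (3 / 2 : ℝ)) := by
        rw [← Real.rpow_natCast, ← Real.rpow_sub m0, Real.rpow_def_of_pos m0, ← Real.exp_add]
        refine Real.exp_le_exp.2 ?_
        have e3 := mul_le_mul_of_nonneg_right (show 2 - β ≤ 16 / 15 by linarith) l0
        push_cast
        linarith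
      refine (mul_le_mul_of_nonneg_left ((exp_eight x0 K).trans
        (mul_le_mul_of_nonneg_left e2 (by positivity))) a0).trans_eq ?_
      field_simp

end Pool.Agent.EQ
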