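import Pool.Agent.P.MP_ad7a55_nt.WSt

/-! The maps between covers given by integral matrices. -/

set_option autoImplicit false

noncomputable section

open MeasureTheory Topology Filter UpperHalfPlane
open scoped MatrixGroups ENNReal BoundedContinuousFunction

namespace Pool.Agent.EQ

variable (p : ℕ) [Fact p.Prime]

/-- `Ψ` sends `(g, h)` to `(g ξ⁻¹, η h ξ⁻¹)`, the first entry scaled to determinant one. -/
def IsPsi (N N₂ : ℕ) (ξ η : MZ) (Ψ : XN p N₂ → XN p N) : Prop :=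
  Continuous Ψ ∧ ∃ c : ℝ, c ≠ 0 ∧ ∀ g : GG p, ∃ g' : GG p, Ψ (g : XN p N₂) = (g' : XN p N) ∧
    (g'.1 : Matrix (Fin 2) (Fin 2) ℝ) * ξ.map (↑) = c • (g.1 : Matrix (Fin 2) (Fin 2) ℝ) ∧
    (g'.2 : Matrix (Fin 2) (Fin 2) ℚ_[p]) * ξ.map (↑) =
      η.map (↑) * (g.2 : Matrix (Fin 2) (Fin 2) ℚ_[p])

variable {p} {N N₂ : ℕ} {ξ η : MZ} {Ψ : XN p N₂ → XN p N}

theorem wps_det {F : Type} [Field F] (A : MZ) :
    (A.map ((↑) : ℤ → F)).det = (A.det : F) := by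
  simp [Matrix.det_fin_two]

theorem wps_cancel {F : Type} [Field F] [CharZero F] {A : MZ} (hA : A.det ≠ 0)
    {P Q : Matrix (Fin 2) (Fin 2) F} (h : P * A.map (↑) = Q * A.map (↑)) : P = Q := by
  have hu : IsUnit (A.map ((↑) : ℤ → F)) := by
    rw [Matrix.isUnit_iff_isUnit_det, wps_det]
    exact (Int.cast_ne_zero.2 hA).isUnit
  exact hu.mul_right_cancel h

theorem wps_mul {F : Type} [Field F] (A B : MZ) :
    (A * B).map ((↑) : ℤ → F) = A.map (↑) * B.map (↑) := by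
  ext i j
  simp [Matrix.mul_apply]

theorem wps_QF {F : Type} [Field F] [CharZero F] (A : MZ) :
    (A.map ((↑) : ℤ → ℚ)).map ((↑) : ℚ → F) = A.map (↑) := by
  ext i j
  simp

theorem wps_adj (A : MZ) (i j : Fin 2) {F : Type} [Field F] :
    (A.map ((↑) : ℤ → F)).adjugate i j = ((A.adjugate i j : ℤ) : F) := by
  fin_cases i <;> fin_cases j <;> simp [Matrix.adjugate_fin_two]

/-- The relation between the two representatives. -/
def wpsR (c : ℝ) (ξ η : MZ) (g g' : GG p) : Prop :=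
  (g'.1 : Matrix (Fin 2) (Fin 2) ℝ) * ξ.map (↑) = c • (g.1 : Matrix (Fin 2) (Fin 2) ℝ) ∧
    (g'.2 : Matrix (Fin 2) (Fin 2) ℚ_[p]) * ξ.map (↑) =
      η.map (↑) * (g.2 : Matrix (Fin 2) (Fin 2) ℚ_[p])

theorem wps_uniq {c : ℝ} (hξ : 0 < ξ.det) {g g' g'' : GG p} (h : wpsR c ξ η g g')
    (h' : wpsR c ξ η g g'') : g' = g'' :=
  Prod.ext (Subtype.ext (wps_cancel hξ.ne' (h.1.trans h'.1.symm)))
    (Subtype.ext (wps_cancel hξ.ne' (h.2.trans h'.2.symm)))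

theorem wps_left {c : ℝ} {g g' : GG p} (h : wpsR c ξ η g g') (b : SL(2, ℝ))
    {k k' : SL(2, ℚ_[p])} (hk : (k' : Matrix (Fin 2) (Fin 2) ℚ_[p]) * η.map (↑) =
      η.map (↑) * (k : Matrix (Fin 2) (Fin 2) ℚ_[p])) :
    wpsR c ξ η ((b, k) * g) ((b, k') * g') := by
  refine ⟨?_, ?_⟩
  · simp only [Prod.fst_mul, Matrix.SpecialLinearGroup.coe_mul]
    rw [Matrix.mul_assoc, h.1, Matrix.mul_smul]
  · simp only [Prod.snd_mul, Matrix.SpecialLinearGroup.coe_mul]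
    rw [Matrix.mul_assoc, h.2, ← Matrix.mul_assoc, hk, Matrix.mul_assoc]

theorem wps_right {c : ℝ} {g g' : GG p} (h : wpsR c ξ η g g') {γ γ' : SL(2, ℚ)}
    (hγ : (γ' : Matrix (Fin 2) (Fin 2) ℚ) * ξ.map (↑) =
      ξ.map (↑) * (γ : Matrix (Fin 2) (Fin 2) ℚ)) :
    wpsR c ξ η (g * emb p γ) (g' * emb p γ') := by
  have h1 := congrArg (fun A : Matrix (Fin 2) (Fin 2) ℚ => A.map ((↑) : ℚ → ℝ)) hγ
  have h2 := congrArg (fun A : Matrix (Fin 2) (Fin 2) ℚ => A.map ((↑) : ℚ → ℚ_[p])) hγ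
  simp only [hom_map_mul, wps_QF] at h1 h2
  refine ⟨?_, ?_⟩
  · change g'.1.1 * γ'.1.map ((↑) : ℚ → ℝ) * _ = c • (g.1.1 * γ.1.map ((↑) : ℚ → ℝ))
    rw [Matrix.mul_assoc, h1, ← Matrix.mul_assoc, h.1, Matrix.smul_mul]
  · change g'.2.1 * γ'.1.map ((↑) : ℚ → ℚ_[p]) * _ = _ * (g.2.1 * γ.1.map ((↑) : ℚ → ℚ_[p]))
    rw [Matrix.mul_assoc, h2, ← Matrix.mul_assoc, h.2, Matrix.mul_assoc]

theorem wps_conj (p : ℕ) (hN₂ : 0 < N₂) (hξ : 0 < ξ.det) (h : N * ξ.det.natAbs ∣ N₂)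
    {γ : SL(2, ℚ)} (hγ : γ ∈ GamN p N₂) : ∃ γ' ∈ GamN p N,
      (γ' : Matrix (Fin 2) (Fin 2) ℚ) * ξ.map (↑) = ξ.map (↑) * (γ : Matrix (Fin 2) (Fin 2) ℚ) := by
  obtain ⟨m, hm⟩ := h
  have hN : (N : ℚ) ≠ 0 := by
    rintro h0
    have : N = 0 := by exact_mod_cast h0
    simp [hm, this] at hN₂
  have hN' : (N₂ : ℚ) ≠ 0 := by exact_mod_cast hN₂.ne'
  have hm' : (N₂ : ℚ) = N * ξ.det * m := by
    rw [hm, Nat.cast_mul, Nat.cast_mul, Nat.cast_natAbs, abs_of_pos hξ]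
  set X : Matrix (Fin 2) (Fin 2) ℚ := ξ.map (↑) with hX
  set A : Matrix (Fin 2) (Fin 2) ℚ := (N₂ : ℚ)⁻¹ • ((γ : Matrix (Fin 2) (Fin 2) ℚ) - 1) with hA
  have hA' : ∀ i j, InZp p (A i j) := fun i j => by
    refine (congrArg (InZp p) ?_).mp (hγ.2 i j)
    rw [hA, Matrix.smul_apply, Matrix.sub_apply, smul_eq_mul, div_eq_inv_mul]
  set B : Matrix (Fin 2) (Fin 2) ℚ := (m : ℚ) • (X * A * X.adjugate) with hB
  have hB' : ∀ i j, InZp p (B i j) := fun i j => by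
    have k := fun l n => ((inZp_int p (ξ i l)).mul (hA' l n)).mul (inZp_int p (ξ.adjugate n j))
    refine (congrArg (InZp p) ?_).mp
      ((inZp_int p m).mul (((k 0 0).add (k 1 0)).add ((k 0 1).add (k 1 1))))
    simp only [hB, Matrix.smul_apply, Matrix.mul_apply, Fin.sum_univ_two, smul_eq_mul, hX, wps_adj,
      Matrix.map_apply, Int.cast_natCast]
    ring
  have e : (1 + (N : ℚ) • B) * X = X * (γ : Matrix (Fin 2) (Fin 2) ℚ) := by
    have e1 : (γ : Matrix (Fin 2) (Fin 2) ℚ) = 1 + (N₂ : ℚ) • A := by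
      rw [hA, smul_smul, mul_inv_cancel₀ hN', one_smul, add_sub_cancel]
    have e2 : X.det = ((ξ.det : ℤ) : ℚ) := wps_det ξ
    clear_value B A X
    rw [e1, hB, Matrix.add_mul, Matrix.mul_add, Matrix.one_mul, Matrix.mul_one, Matrix.smul_mul,
      Matrix.smul_mul, Matrix.mul_assoc, Matrix.adjugate_mul, Matrix.mul_smul, Matrix.mul_smul,
      Matrix.mul_one, smul_smul, smul_smul, e2, hm', mul_right_comm]
  have hd : (1 + (N : ℚ) • B).det = 1 := by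
    have h1 := congrArg Matrix.det e
    rw [Matrix.det_mul, Matrix.det_mul, γ.det_coe, mul_one, hX, wps_det] at h1
    exact mul_right_cancel₀ (Int.cast_ne_zero.2 hξ.ne') (h1.trans (one_mul _).symm)
  refine ⟨⟨_, hd⟩, ⟨fun i j => ?_, fun i j => ?_⟩, e⟩
  · exact ((GamQ p).one_mem i j).add (by simpa using (inZp_int p N).mul (hB' i j))
  · refine (congrArg (InZp p) ?_).mp (hB' i j)
    change _ = ((1 + (N : ℚ) • B) i j - _) / _
    rw [Matrix.add_apply, add_sub_cancel_left, Matrix.smul_apply, smul_eq_mul,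
      mul_div_cancel_left₀ _ hN]

theorem exists_psi (p : ℕ) [Fact p.Prime] (hN₂ : 0 < N₂) (hξ : 0 < ξ.det) (hη : η.det = ξ.det)
    (h : N * ξ.det.natAbs ∣ N₂) : ∃ Ψ, IsPsi p N N₂ ξ η Ψ := by
  obtain ⟨g₀, c, hc, hg₀⟩ := exists_real hξ
  have hd : ((ξ.det : ℤ) : ℚ_[p]) ≠ 0 := Int.cast_ne_zero.2 hξ.ne'
  have hdet : ∀ k : SL(2, ℚ_[p]), (((ξ.det : ℤ) : ℚ_[p])⁻¹ • (η.map ((↑) : ℤ → ℚ_[p]) *
      (k : Matrix (Fin 2) (Fin 2) ℚ_[p]) * (ξ.map ((↑) : ℤ → ℚ_[p])).adjugate)).det = 1 := by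
    intro k
    rw [Matrix.det_smul, Matrix.det_mul, Matrix.det_mul, Matrix.det_adjugate, k.det_coe, wps_det,
      wps_det, hη, Fintype.card_fin]
    simp only [Nat.add_one_sub_one, pow_one]
    field_simp
  let F : GG p → GG p := fun g => (g.1 * g₀⁻¹, ⟨_, hdet g.2⟩)
  have hF : ∀ g, wpsR c ξ η g (F g) := fun g => by
    refine ⟨?_, ?_⟩
    · have e : ξ.map ((↑) : ℤ → ℝ) = c • (g₀ : Matrix (Fin 2) (Fin 2) ℝ) := by
        ext i j
        exact hg₀ i j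
      change ((g.1 * g₀⁻¹ : SL(2, ℝ)) : Matrix (Fin 2) (Fin 2) ℝ) * _ = _
      rw [e, Matrix.mul_smul, ← Matrix.SpecialLinearGroup.coe_mul, inv_mul_cancel_right]
    · change (((ξ.det : ℤ) : ℚ_[p])⁻¹ • _) * _ = _
      rw [Matrix.smul_mul, Matrix.mul_assoc, Matrix.adjugate_mul, Matrix.mul_smul, Matrix.mul_one,
        smul_smul, wps_det, inv_mul_cancel₀ hd, one_smul]
  have hFc : Continuous F := by
    refine (continuous_fst.mul continuous_const).prodMk (Continuous.subtype_mk ?_ _)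
    have h2 : Continuous fun g : GG p => (g.2 : Matrix (Fin 2) (Fin 2) ℚ_[p]) :=
      continuous_subtype_val.comp continuous_snd
    have h3 : Continuous fun g : GG p => η.map ((↑) : ℤ → ℚ_[p]) *
        (g.2 : Matrix (Fin 2) (Fin 2) ℚ_[p]) * (ξ.map ((↑) : ℤ → ℚ_[p])).adjugate :=
      (continuous_const.matrix_mul h2).matrix_mul continuous_const
    exact h3.const_smul ((ξ.det : ℤ) : ℚ_[p])⁻¹
  refine ⟨Quotient.map' F fun a b hab => ?_, ?_, c, hc, fun g => ⟨F g, rfl, hF g⟩⟩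
  · rw [QuotientGroup.leftRel_apply] at hab ⊢
    obtain ⟨γ, hγ, e⟩ := hab
    obtain ⟨γ', hγ', e'⟩ := wps_conj p hN₂ hξ h hγ
    have h1 := wps_right (hF a) e'
    rw [e, mul_inv_cancel_left] at h1
    rw [wps_uniq hξ (hF b) h1, inv_mul_cancel_left]
    exact ⟨γ', hγ', rfl⟩
  · refine (QuotientGroup.isQuotientMap_mk (GN p N₂)).continuous_iff.2 ?_
    exact QuotientGroup.continuous_mk.comp hFc

theorem IsPsi.smul (h : IsPsi p N N₂ ξ η Ψ) (hξ : 0 < ξ.det) (b : SL(2, ℝ))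
    {k k' : SL(2, ℚ_[p])} (hk : (k' : Matrix (Fin 2) (Fin 2) ℚ_[p]) * η.map (↑) =
      η.map (↑) * (k : Matrix (Fin 2) (Fin 2) ℚ_[p])) (x : XN p N₂) :
    Ψ (((b, k) : GG p) • x) = ((b, k') : GG p) • Ψ x := by
  obtain ⟨-, c, -, hc⟩ := h
  obtain ⟨g, rfl⟩ := QuotientGroup.mk_surjective x
  obtain ⟨g', e, hg'⟩ := hc g
  obtain ⟨g'', e', hg''⟩ := hc ((b, k) * g)
  rw [MulAction.Quotient.smul_coe, smul_eq_mul, e, e', MulAction.Quotient.smul_coe, smul_eq_mul,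
    wps_uniq hξ hg'' (wps_left hg' b hk)]

theorem IsPsi.map (h : IsPsi p N N₂ ξ η Ψ) (hξ : 0 < ξ.det) (hN : 0 < N) (hN₂ : 0 < N₂) :
    (mN p N₂).map Ψ = mN p N := by
  have hm := h.1.measurable
  have := Measure.isProbabilityMeasure_map (μ := mN p N₂) hm.aemeasurable
  have h1 := eq_mN_of_R hN ((mN p N₂).map Ψ) fun g => by
    rw [mem_Stab, Measure.map_map (measurable_const_smul _) hm]
    conv_rhs => rw [← mN_inv hN₂ (g, 1), Measure.map_map hm (measurable_const_smul _)]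
    congr 1
    funext x
    exact (h.smul hξ g (by simp) x).symm
  rwa [measure_univ, one_smul] at h1

theorem IsPsi.flow {a b d : ℤ} (h : IsPsi p N N₂ ξ !![a, b; 0, d] Ψ) (hξ : 0 < ξ.det)
    (hd : d ≠ 0) (s : ℚ_[p]) (x : XN p N₂) :
    Ψ (uP p s • x) = uP p ((a : ℚ_[p]) / d * s) • Ψ x := by
  have hd' : (d : ℚ_[p]) ≠ 0 := Int.cast_ne_zero.2 hd
  refine h.smul hξ 1 ?_ x
  ext i j
  fin_cases i <;> fin_cases j <;> simp [Matrix.mul_apply, Fin.sum_univ_two]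
  field_simp
  ring

theorem IsPsi.pt (h : IsPsi p N N₂ ξ η Ψ) (hξ : 0 < ξ.det) (hN : 0 < N) (hN₂ : 0 < N₂)
    (hd : N * ξ.det.natAbs ∣ N₂) {γ : SL(2, ℤ)} (hγ : ξ = (γ : MZ) * η) {β : Type} {f : ℍ → β}
    (hf : GInv N f) (x : XN p N₂) :
    f (ptX p N (((1, toP p γ) : GG p) • Ψ x)) = f (act ξ (ptX p N₂ x)) := by
  obtain ⟨-, c, hc, h⟩ := h
  obtain ⟨g, hg, rfl⟩ := exists_repN hN₂ x
  obtain ⟨g', e, h1, h2⟩ := h g
  have hdp : ((ξ.det : ℤ) : ℚ_[p]) ≠ 0 := Int.cast_ne_zero.2 hξ.ne'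
  set X : Matrix (Fin 2) (Fin 2) ℚ_[p] := ξ.map (↑) with hX
  have e1 : ((toP p γ * g'.2 : SL(2, ℚ_[p])) : Matrix (Fin 2) (Fin 2) ℚ_[p]) * X =
      X * (g.2 : Matrix (Fin 2) (Fin 2) ℚ_[p]) := by
    rw [Matrix.SpecialLinearGroup.coe_mul, Matrix.mul_assoc, h2, ← Matrix.mul_assoc]
    congr 1
    rw [hX, hγ, wps_mul]
    rfl
  have hk : toP p γ * g'.2 ∈ KN p N := by
    refine vgn_mem fun i j => ?_
    have e2 : ((ξ.det : ℤ) : ℚ_[p]) •
        (((toP p γ * g'.2 : SL(2, ℚ_[p])) : Matrix (Fin 2) (Fin 2) ℚ_[p]) - 1) =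
        X * ((g.2 : Matrix (Fin 2) (Fin 2) ℚ_[p]) - 1) * X.adjugate := by
      rw [Matrix.mul_sub, ← e1, Matrix.mul_one, Matrix.sub_mul, Matrix.mul_assoc _ X,
        Matrix.mul_adjugate, Matrix.mul_smul, Matrix.mul_one, hX, wps_det, smul_sub]
    have b1 : Bd 1 X := fun i j => Padic.norm_int_le_one _
    have b2 : Bd 1 X.adjugate := fun i j => by
      rw [hX, wps_adj]
      exact Padic.norm_int_le_one _
    have b3 : Bd ‖(N₂ : ℚ_[p])‖ ((g.2 : Matrix (Fin 2) (Fin 2) ℚ_[p]) - 1) := hg.2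
    have b4 := hom_bd_mulP (hom_bd_mulP b1 b3) b2 i j
    rw [← e2, one_mul, mul_one, Matrix.smul_apply, smul_eq_mul, norm_mul] at b4
    obtain ⟨m, rfl⟩ := hd
    rw [Nat.cast_mul, Nat.cast_mul, Nat.cast_natAbs, abs_of_pos hξ, norm_mul, norm_mul] at b4
    refine le_of_mul_le_mul_left (b4.trans ?_) (norm_pos_iff.2 hdp)
    rw [mul_comm ‖(N : ℚ_[p])‖]
    exact mul_le_of_le_one_right (by positivity) (vgn_nat m)
  have e3 := hf.pt_K hN (g := (1, toP p γ) * g') hk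
  have e4 := ((hf.act hξ).mono hd).pt_K hN₂ hg
  have e5 := (act_real (ξ := ξ) (g := g'.1⁻¹ * g.1) hc (fun i j => by
    have h3 : ξ.map ((↑) : ℤ → ℝ) =
        c • ((g'.1⁻¹ * g.1 : SL(2, ℝ)) : Matrix (Fin 2) (Fin 2) ℝ) := by
      rw [Matrix.SpecialLinearGroup.coe_mul, ← Matrix.mul_smul, ← h1, ← Matrix.mul_assoc,
        sing_inv_mul, Matrix.one_mul]
    exact congrFun (congrFun h3 i) j) (g.1⁻¹ • UpperHalfPlane.I)).2
  rw [e, ptX_smul, e3]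
  refine Eq.trans ?_ e4.symm
  rw [e5, mul_smul, smul_inv_smul, Prod.fst_mul, one_mul]

theorem wps_scal {F : Type} [Field F] [CharZero F] (g : SL(2, F)) (W : Matrix (Fin 2) (Fin 2) ℚ)
    (h1 : sing_cj g W 0 1 = 0) (h2 : sing_cj g W 1 0 = 0)
    (h3 : sing_cj g W 0 0 = sing_cj g W 1 1) : W 0 1 = 0 ∧ W 1 0 = 0 ∧ W 0 0 = W 1 1 := by
  have e : sing_cj g W = sing_cj g W 0 0 • (1 : Matrix (Fin 2) (Fin 2) F) := by
    ext i j
    fin_cases i <;> fin_cases j <;> simp [h1, h2, h3]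
  generalize sing_cj g W 0 0 = t at e
  have e1 := (sing_cj_iff g W _).2 e.symm
  have e2 := congrArg (fun M => ((g⁻¹ : SL(2, F)) : Matrix (Fin 2) (Fin 2) F) * M) e1
  simp only [Matrix.smul_mul, Matrix.mul_smul, ← Matrix.mul_assoc, sing_inv_mul,
    Matrix.one_mul] at e2
  have k := fun i j => congrFun (congrFun e2 i) j
  have k01 := k 0 1
  have k10 := k 1 0
  have k00 := k 0 0
  have k11 := k 1 1
  simp only [Matrix.smul_apply, Matrix.map_apply, Matrix.one_apply_eq, smul_eq_mul, mul_one, ne_eq,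
    zero_ne_one, one_ne_zero, not_false_eq_true, Matrix.one_apply_ne, mul_zero] at k01 k10 k00 k11
  exact ⟨by exact_mod_cast k01.symm, by exact_mod_cast k10.symm,
    by exact_mod_cast k00.symm.trans k11⟩

theorem wps_sub {F : Type} [Field F] [CharZero F] (W : Matrix (Fin 2) (Fin 2) F) :
    {s : F | ((ul s : Matrix (Fin 2) (Fin 2) F) * W * ((ul s)⁻¹ : SL(2, F))) 0 1 ≠ 0 ∧
      ((ul s : Matrix (Fin 2) (Fin 2) F) * W * ((ul s)⁻¹ : SL(2, F))) 0 0 =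
        ((ul s : Matrix (Fin 2) (Fin 2) F) * W * ((ul s)⁻¹ : SL(2, F))) 1 1}.Subsingleton := by
  have hs : ∀ s : F, (ul s : Matrix (Fin 2) (Fin 2) F) * W * ((ul s)⁻¹ : SL(2, F)) =
      !![W 0 0 - W 0 1 * s, W 0 1;
        W 1 0 + s * (W 0 0 - W 1 1) - s ^ 2 * W 0 1, s * W 0 1 + W 1 1] := fun s => by
    rw [ul_inv, ul_val, ul_val]
    conv_lhs => rw [Matrix.eta_fin_two W]
    simp only [Matrix.mul_fin_two]
    ext i j
    fin_cases i <;> fin_cases j <;> simp <;> ring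
  intro s hs1 t ht1
  simp only [Set.mem_ofPred_eq, hs] at hs1 ht1
  simp only [Matrix.of_apply, Matrix.cons_val', Matrix.cons_val_zero, Matrix.cons_val_one,
    Matrix.cons_val_fin_one] at hs1 ht1
  have : (2 * W 0 1) * s = (2 * W 0 1) * t := by linear_combination ht1.2 - hs1.2
  exact mul_left_cancel₀ (mul_ne_zero two_ne_zero hs1.1) this

theorem wps_emb (g : GG p) (γ : SL(2, ℚ)) (W : Matrix (Fin 2) (Fin 2) ℚ) :
    sing_cj (g * emb p γ).2 W = sing_cj g.2 ((γ : Matrix (Fin 2) (Fin 2) ℚ) * W *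
      ((γ⁻¹ : SL(2, ℚ)) : Matrix (Fin 2) (Fin 2) ℚ)) := by
  rw [sing_cj, sing_cj, Prod.snd_mul, mul_inv_rev, ← Prod.snd_inv, ← map_inv, hom_map_mul,
    hom_map_mul]
  simp only [Matrix.SpecialLinearGroup.coe_mul, Matrix.mul_assoc]
  rfl

/-- Frames in which a rational matrix that is not scalar is triangular with one eigenvalue. -/
theorem null_tri (p : ℕ) [Fact p.Prime] (hN : 0 < N) : mN p N {x | ∃ g : GG p, (g : XN p N) = x ∧
    ∃ W : Matrix (Fin 2) (Fin 2) ℚ, ¬ (W 0 1 = 0 ∧ W 1 0 = 0 ∧ W 0 0 = W 1 1) ∧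
      sing_cj g.2 W 1 0 = 0 ∧ sing_cj g.2 W 0 0 = sing_cj g.2 W 1 1} = 0 := by
  have : Countable (Matrix (Fin 2) (Fin 2) ℚ) := inferInstanceAs (Countable (Fin 2 → Fin 2 → ℚ))
  set E : Set (XN p N) := {x | ∃ g : GG p, (g : XN p N) = x ∧
    ∃ W : Matrix (Fin 2) (Fin 2) ℚ, ¬ (W 0 1 = 0 ∧ W 1 0 = 0 ∧ W 0 0 = W 1 1) ∧
      sing_cj g.2 W 1 0 = 0 ∧ sing_cj g.2 W 0 0 = sing_cj g.2 W 1 1} with hE
  have hM : MeasurableSet E := by
    have e : E = ⋃ W : Matrix (Fin 2) (Fin 2) ℚ, ⋃ _ : ¬ (W 0 1 = 0 ∧ W 1 0 = 0 ∧ W 0 0 = W 1 1),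
        (fun g : GG p => (g : XN p N)) ''
          {g | sing_cj g.2 W 1 0 = 0 ∧ sing_cj g.2 W 0 0 = sing_cj g.2 W 1 1} := by
      ext x
      simp only [Set.mem_iUnion]
      exact ⟨fun ⟨g, h1, W, h2, h3⟩ => ⟨W, h2, g, h3, h1⟩,
        fun ⟨W, h2, g, h3, h1⟩ => ⟨g, h1, W, h2, h3⟩⟩
    rw [e]
    refine MeasurableSet.iUnion fun W => MeasurableSet.iUnion fun _ => join_meas_sigma ?_
    have hc : ∀ i j, Continuous fun g : GG p => sing_cj g.2 W i j := fun i j =>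
      ((sing_cj_cont W).comp continuous_snd).matrix_elem i j
    exact (isSigmaCompact_univ.of_isClosed_subset ((isClosed_eq (hc 1 0) continuous_const).inter
      (isClosed_eq (hc 0 0) (hc 1 1))) (Set.subset_univ _)).image QuotientGroup.continuous_mk
  have hcount : ∀ x : XN p N, {s : ℚ_[p] | ((1, ul s) : GG p) • x ∈ E}.Countable := fun x => by
    obtain ⟨g₀, rfl⟩ := QuotientGroup.mk_surjective x
    refine (Set.countable_iUnion fun W : Matrix (Fin 2) (Fin 2) ℚ =>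
      (wps_sub (sing_cj g₀.2 W)).countable).mono ?_
    rintro s ⟨g, h1, W, h2, h3, h4⟩
    obtain ⟨γ, -, e⟩ : ((1, ul s) * g₀)⁻¹ * g ∈ GN p N := QuotientGroup.eq.1 h1.symm
    obtain rfl : g = (1, ul s) * g₀ * emb p γ := by rw [e, mul_inv_cancel_left]
    have h5 : sing_cj ((1, ul s) * g₀ * emb p γ : GG p).2 W 0 1 ≠ 0 := fun h =>
      h2 (wps_scal _ W h h3 h4)
    rw [wps_emb, Prod.snd_mul, sing_cj_mul] at h4 h5
    exact Set.mem_iUnion.2 ⟨_, h5, h4⟩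
  have hc : Continuous fun w : XN p N × ℚ_[p] => ((1, ul w.2) : GG p) • w.1 := by
    have h : Continuous fun w : XN p N × ℚ_[p] => ((1, ul w.2) : GG p) :=
      continuous_const.prodMk (continuous_ul.comp continuous_snd)
    exact h.smul continuous_fst
  have hA := hc.measurable hM
  have h1 := Measure.prod_apply (μ := mN p N) (ν := bm p 0) hA
  have h2 := Measure.prod_apply_symm (μ := mN p N) (ν := bm p 0) hA
  have h3 : ∀ x : XN p N, bm p 0 (Prod.mk x ⁻¹' ((fun w : XN p N × ℚ_[p] =>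
      ((1, ul w.2) : GG p) • w.1) ⁻¹' E)) = 0 := fun x => bm_countable p 0 (hcount x)
  have h4 : ∀ s : ℚ_[p], mN p N ((fun x => (x, s)) ⁻¹' ((fun w : XN p N × ℚ_[p] =>
      ((1, ul w.2) : GG p) • w.1) ⁻¹' E)) = mN p N E := fun s => by
    conv_rhs => rw [← mN_inv hN (1, ul s), Measure.map_apply (measurable_const_smul _) hM]
    rfl
  simp only [h3, lintegral_zero] at h1
  simp only [h4, lintegral_const, measure_univ, mul_one] at h2
  rw [← h2, h1]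

theorem wps_isog {q c : ℕ} (hq : 0 < q) {δ l : ℚ} (hδ : δ ≠ 0) {R : ℝ} (hc : R ≤ (p : ℝ) ^ c)
    {ξ' : MZ} (hξ : 0 < ξ.det) (hξ' : 0 < ξ'.det) {ζ : Matrix (Fin 2) (Fin 2) ℚ}
    (hζ : ∀ i j, InZp p (q * ζ i j)) (hd : ζ.det = δ) (hb : Bd R (ζ.map ((↑) : ℚ → ℚ_[p])))
    (h : l • ξ'.map ((↑) : ℤ → ℚ) = ζ * ξ.map (↑)) (τ : ℍ) :
    Isog ((p ^ c * q) ^ 2 * δ.num.natAbs) (jInv (act ξ' τ)) (jInv (act ξ τ)) := by
  have hp : p.Prime := Fact.out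
  have hp0 : (0 : ℝ) < p := by exact_mod_cast hp.pos
  choose n hn using fun i j => exc_int p (x := ((p ^ c : ℤ) : ℚ) * (q * ζ i j))
    ((inZp_int p _).mul (hζ i j)) (by
      push_cast
      rw [norm_mul, norm_mul, norm_pow, Padic.norm_p, inv_pow, inv_mul_le_iff₀ (by positivity),
        mul_one]
      exact (mul_le_of_le_one_left (norm_nonneg _) (vgn_nat q)).trans ((hb i j).trans hc))
  set t : ℚ := (p : ℚ) ^ c * q with ht
  have ht0 : t ≠ 0 := mul_ne_zero (pow_ne_zero _ (Nat.cast_ne_zero.2 hp.ne_zero))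
    (Nat.cast_ne_zero.2 hq.ne')
  have e1 : (Matrix.of n : MZ).map ((↑) : ℤ → ℚ) = t • ζ := by
    ext i j
    rw [Matrix.map_apply, Matrix.of_apply, ← hn, Matrix.smul_apply, smul_eq_mul, ht]
    push_cast
    ring
  generalize (Matrix.of n : MZ) = ν at e1
  have e2 : ((ν.det : ℤ) : ℚ) = t ^ 2 * δ := by
    rw [← wps_det, e1, Matrix.det_smul, hd, Fintype.card_fin]
  have e3 := congrArg Matrix.det h
  rw [Matrix.det_smul, Matrix.det_mul, wps_det, wps_det, hd, Fintype.card_fin] at e3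
  have x1 : (0 : ℚ) < ξ.det := by exact_mod_cast hξ
  have x2 : (0 : ℚ) < ξ'.det := by exact_mod_cast hξ'
  have hl : l ≠ 0 := by
    rintro rfl
    exact mul_ne_zero hδ x1.ne' (by simpa using e3.symm)
  have hδ' : 0 < δ := by
    have : 0 < δ * ξ.det := by rw [← e3]; positivity
    exact (mul_pos_iff_of_pos_right x1).1 this
  have hν : 0 < ν.det := by
    have : (0 : ℚ) < ν.det := by rw [e2]; positivity
    exact_mod_cast this
  have e4 : ((t * l).den : ℤ) • (ν * ξ) = (t * l).num • ξ' := by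
    refine Matrix.map_injective (Int.cast_injective (α := ℚ)) ?_
    have e5 : (ν * ξ).map ((↑) : ℤ → ℚ) = (t * l) • ξ'.map ((↑) : ℤ → ℚ) := by
      rw [wps_mul, e1, Matrix.smul_mul, ← h, smul_smul]
    ext i j
    have e6 := congrFun (congrFun e5 i) j
    simp only [Matrix.map_apply, Matrix.smul_apply, smul_eq_mul, Int.cast_mul,
      Int.cast_natCast] at e6 ⊢
    rw [e6, ← mul_assoc, Rat.den_mul_eq_num]
  have e7 : act ξ' τ = act ν (act ξ τ) := by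
    rw [← act_mul hν hξ, ← act_smul (ξ := ν * ξ) (by rw [Matrix.det_mul]; positivity)
      (m := (t * l).den) (Int.natCast_ne_zero.2 (t * l).den_nz), e4,
      act_smul hξ' (Rat.num_ne_zero.2 (mul_ne_zero ht0 hl))]
  rw [e7]
  refine (isog_act hν _).mono ⟨δ.den, ?_⟩
  have e8 : (((p ^ c * q) ^ 2 * δ.num.natAbs : ℕ) : ℚ) = ((ν.det.natAbs * δ.den : ℕ) : ℚ) := by
    push_cast
    rw [Nat.cast_natAbs, Nat.cast_natAbs, abs_of_pos hν, abs_of_pos (Rat.num_pos.2 hδ'), e2,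
      ← Rat.mul_den_eq_num, ht]
    ring
  exact_mod_cast e8

theorem psi_null (p : ℕ) [Fact p.Prime] {q : ℕ} (hq : 0 < q) {δ : ℚ} (hδ : δ ≠ 0) (R : ℝ) :
    ∃ M : ℕ, 0 < M ∧
    ∀ (N N₂ : ℕ) (ξ ξ' : MZ) (γ γ' : SL(2, ℤ)) (a b d a' b' d' : ℤ) (Ψ Ψ' : XN p N₂ → XN p N)
      (v : ℚ_[p]), 0 < N₂ → 0 < ξ.det → 0 < ξ'.det → ξ = (γ : MZ) * !![a, b; 0, d] →
      ξ' = (γ' : MZ) * !![a', b'; 0, d'] → IsPsi p N N₂ ξ !![a, b; 0, d] Ψ →
      IsPsi p N N₂ ξ' !![a', b'; 0, d'] Ψ' → v ≠ 0 →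
      (∃ τ, ¬ Isog M (jInv (act ξ τ)) (jInv (act ξ' τ))) →
      mN p N₂ {x | (cov p N (Ψ x), cov p N (Ψ' x)) ∈
        NR p q δ R ((a : ℚ_[p]) / d * v) ((a' : ℚ_[p]) / d' * v)} = 0 := by
  have hp : p.Prime := Fact.out
  have hp1 : (1 : ℝ) < p := by exact_mod_cast hp.one_lt
  obtain ⟨c, hc⟩ := pow_unbounded_of_one_lt R hp1
  have hM : 0 < (p ^ c * q) ^ 2 * δ.num.natAbs :=
    Nat.mul_pos (pow_pos (Nat.mul_pos (pow_pos hp.pos c) hq) 2)
      (Int.natAbs_pos.2 (Rat.num_ne_zero.2 hδ))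
  refine ⟨_, hM, ?_⟩
  rintro N N₂ ξ ξ' γ γ' a b d a' b' d' Ψ Ψ' v hN₂ hξ hξ' eξ eξ' ⟨-, c₁, -, h₁⟩ ⟨-, c₂, -, h₂⟩ hv
    ⟨τ, hτ⟩
  refine measure_mono_null ?_ (null_tri p hN₂)
  rintro x ⟨P, hP, hR, h10, hdg⟩
  obtain ⟨g, rfl⟩ := QuotientGroup.mk_surjective x
  obtain ⟨g₁, e₁, -, r₁⟩ := h₁ g
  obtain ⟨g₂, e₂, -, r₂⟩ := h₂ g
  obtain ⟨ζ, hζ, hζd, -, hh⟩ := HomS.rep hP (g := g₁) (g' := g₂) (by rw [e₁]; rfl)
    (by rw [e₂]; rfl)
  have had : ξ.det = a * d := by rw [eξ, Matrix.det_mul, γ.det_coe]; simp [Matrix.det_fin_two]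
  have had' : ξ'.det = a' * d' := by
    rw [eξ', Matrix.det_mul, γ'.det_coe]; simp [Matrix.det_fin_two]
  have hd : (d : ℚ_[p]) ≠ 0 := Int.cast_ne_zero.2 (right_ne_zero_of_mul (had ▸ hξ.ne'))
  have ha' : (a' : ℚ_[p]) ≠ 0 := Int.cast_ne_zero.2 (left_ne_zero_of_mul (had' ▸ hξ'.ne'))
  have hd' : (d' : ℚ_[p]) ≠ 0 := Int.cast_ne_zero.2 (right_ne_zero_of_mul (had' ▸ hξ'.ne'))
  have hq' : ((ξ'.det : ℤ) : ℚ) ≠ 0 := Int.cast_ne_zero.2 hξ'.ne'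
  obtain ⟨W, hW⟩ : ∃ W : Matrix (Fin 2) (Fin 2) ℚ, ξ'.map (↑) * W = ζ * ξ.map (↑) := by
    refine ⟨((ξ'.det : ℤ) : ℚ)⁻¹ • ((ξ'.map (↑)).adjugate * (ζ * ξ.map (↑))), ?_⟩
    rw [Matrix.mul_smul, ← Matrix.mul_assoc, Matrix.mul_adjugate, Matrix.smul_mul, Matrix.one_mul,
      smul_smul, wps_det, inv_mul_cancel₀ hq', one_smul]
  have hWp := congrArg (fun A : Matrix (Fin 2) (Fin 2) ℚ => A.map ((↑) : ℚ → ℚ_[p])) hW
  simp only [hom_map_mul, wps_QF] at hWp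
  have key : P.2 * (!![a, b; 0, d] : MZ).map (↑) =
      (!![a', b'; 0, d'] : MZ).map (↑) * sing_cj g.2 W := by
    rw [sing_cj, ← Matrix.mul_assoc, ← Matrix.mul_assoc, ← r₂, Matrix.mul_assoc _ _ (W.map _), hWp,
      ← Matrix.mul_assoc, ← hh, Matrix.mul_assoc P.2, r₁, Matrix.mul_assoc, Matrix.mul_assoc,
      sing_mul_inv, Matrix.mul_one]
  have k10 := congrFun (congrFun key 1) 0
  have k00 := congrFun (congrFun key 0) 0
  have k11 := congrFun (congrFun key 1) 1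
  simp only [Matrix.mul_apply, Fin.sum_univ_two, Matrix.map_apply, Matrix.of_apply,
    Matrix.cons_val', Matrix.cons_val_zero, Matrix.cons_val_one, Matrix.cons_val_fin_one, h10,
    Int.cast_zero, zero_mul, mul_zero, add_zero, zero_add] at k10 k00 k11
  have v10 : sing_cj g.2 W 1 0 = 0 := (mul_eq_zero.1 k10.symm).resolve_left hd'
  have v00 : sing_cj g.2 W 0 0 = sing_cj g.2 W 1 1 := by
    rw [v10, mul_zero, add_zero] at k00
    have h3 : (a : ℚ_[p]) * P.2 0 0 * d' = a' * P.2 1 1 * d := by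
      have h4 : (a : ℚ_[p]) / d * v * P.2 0 0 = (a' : ℚ_[p]) / d' * v * P.2 1 1 := hdg
      field_simp at h4
      linear_combination h4
    refine mul_left_cancel₀ (mul_ne_zero ha' hd') ?_
    linear_combination h3 - (d' : ℚ_[p]) * k00 + (a' : ℚ_[p]) * k11
  refine ⟨g, rfl, W, fun hs => hτ ?_, v10, v00⟩
  have eW : W = W 0 0 • (1 : Matrix (Fin 2) (Fin 2) ℚ) := by
    ext i j
    fin_cases i <;> fin_cases j <;> simp [hs.1, hs.2.1, hs.2.2]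
  generalize W 0 0 = l at eW
  rw [(sing_cj_scalar g.2 W l).2 eW] at key
  subst eW
  have eζ : ζ.map ((↑) : ℚ → ℚ_[p]) = (toP p γ' : Matrix (Fin 2) (Fin 2) ℚ_[p]) * P.2 *
      (((toP p γ)⁻¹ : SL(2, ℚ_[p])) : Matrix (Fin 2) (Fin 2) ℚ_[p]) := by
    refine wps_cancel hξ.ne' ?_
    have t1 : ξ.map ((↑) : ℤ → ℚ_[p]) =
        (toP p γ : Matrix (Fin 2) (Fin 2) ℚ_[p]) * (!![a, b; 0, d] : MZ).map (↑) := by
      rw [eξ, wps_mul]; rfl
    have t2 : ξ'.map ((↑) : ℤ → ℚ_[p]) =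
        (toP p γ' : Matrix (Fin 2) (Fin 2) ℚ_[p]) * (!![a', b'; 0, d'] : MZ).map (↑) := by
      rw [eξ', wps_mul]; rfl
    have t3 : (((toP p γ)⁻¹ : SL(2, ℚ_[p])) : Matrix (Fin 2) (Fin 2) ℚ_[p]) *
        ξ.map ((↑) : ℤ → ℚ_[p]) = (!![a, b; 0, d] : MZ).map (↑) := by
      rw [t1, ← Matrix.mul_assoc, sing_inv_mul, Matrix.one_mul]
    rw [← hWp, Matrix.mul_assoc, t3, Matrix.mul_assoc, key, t2, Matrix.mul_assoc, hom_map_smul,
      Matrix.map_one _ Rat.cast_zero Rat.cast_one]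
  have hb : Bd R (ζ.map ((↑) : ℚ → ℚ_[p])) := by
    rw [eζ]
    exact hR.K (toP_mem_Kp p γ') ((Kp p).inv_mem (toP_mem_Kp p γ))
  rw [Matrix.mul_smul, Matrix.mul_one] at hW
  exact (wps_isog hq hδ hc.le hξ hξ' hζ hζd hb hW τ).symm hM

end Pool.Agent.EQ
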