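import Pool.Agent.P.MP_ad7a55_nt.VBk

/-! One step of the factorisation for invariant measures. -/

set_option autoImplicit false

noncomputable section

open MeasureTheory Topology Filter UpperHalfPlane
open scoped MatrixGroups ENNReal BoundedContinuousFunction

namespace Pool.Agent.EQ

variable (p : ℕ) [Fact p.Prime]

/-- Pairs related by a bounded rational map that intertwines the two flows. -/
def NR (q : ℕ) (δ : ℚ) (R : ℝ) (d₁ d₂ : ℚ_[p]) : Set (XX p × XX p) :=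
  {w | ∃ P ∈ HomS p q δ w.1 w.2, Bd R P.2 ∧ P.2 1 0 = 0 ∧ d₁ * P.2 0 0 = d₂ * P.2 1 1}

variable {p} {W : Type} [TopologicalSpace W] [PolishSpace W] [MeasurableSpace W] [BorelSpace W]

theorem wst_anti {α : Type} (T : ℕ → Set α) (hT : Antitone T) (h0 : (T 0).Finite)
    (hne : ∀ r, (T r).Nonempty) : ∃ a, ∀ r, a ∈ T r := by
  by_contra hcon
  push Not at hcon
  have h1 : ∀ᶠ l : ℕ in atTop, ∀ a ∈ T 0, a ∉ T l := by
    rw [Filter.eventually_all_finite h0]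
    intro a _
    obtain ⟨l, hl⟩ := hcon a
    filter_upwards [eventually_ge_atTop l] with l' hl' hh
    exact hl (hT hl' hh)
  obtain ⟨l, hl⟩ := h1.exists
  obtain ⟨a, ha⟩ := hne l
  exact hl a (hT (Nat.zero_le l) ha) ha

theorem wst_Pfl_zero (d₁ d₂ : ℚ_[p]) (P : Matrix (Fin 2) (Fin 2) ℚ_[p]) :
    Pfl p d₁ d₂ 0 P = P := by
  rw [Pfl_eq]
  ext i j
  fin_cases i <;> fin_cases j <;> simp

theorem wst_inter {q : ℕ} (hq : 0 < q) (δ : ℚ) (R : ℝ) {d₁ d₂ : ℚ_[p]} (h₂ : d₂ ≠ 0)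
    {x y : XX p} (h : ∀ r : ℕ, ∃ P ∈ HomS p q δ x y, Bd R P.1 ∧
      ∀ s : ℚ_[p], ‖s‖ ≤ (p : ℝ) ^ (r : ℤ) → Bd R (Pfl p d₁ d₂ s P.2)) :
    (x, y) ∈ NR p q δ R d₁ d₂ := by
  have hp : (1 : ℝ) < p := by exact_mod_cast (Fact.out : p.Prime).one_lt
  obtain ⟨g, hg⟩ := QuotientGroup.mk_surjective x
  obtain ⟨g', hg'⟩ := QuotientGroup.mk_surjective y
  obtain ⟨ξ, hξ⟩ := wst_anti (fun r : ℕ => {ξ : Matrix (Fin 2) (Fin 2) ℚ |
      (∀ i j, InZp p (q * ξ i j)) ∧ ∃ P ∈ HomS p q δ x y, IsHom p g g' ξ P ∧ Bd R P.1 ∧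
        ∀ s : ℚ_[p], ‖s‖ ≤ (p : ℝ) ^ (r : ℤ) → Bd R (Pfl p d₁ d₂ s P.2)})
    (fun r r' hr ξ hξ => by
      obtain ⟨a1, P, a2, a3, a4, a5⟩ := hξ
      exact ⟨a1, P, a2, a3, a4, fun s hs => a5 s (hs.trans
        (zpow_le_zpow_right₀ hp.le (by exact_mod_cast hr)))⟩)
    (by
      refine (finite_hom hq R (C := {g, g'}) (Set.toFinite _).isCompact).subset ?_
      rintro ξ ⟨a1, P, -, a3, a4, a5⟩
      refine ⟨a1, g, by simp, g', by simp, P, a3, a4, ?_⟩
      have := a5 0 (by simp)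
      rwa [wst_Pfl_zero] at this)
    (fun r => by
      obtain ⟨P, a1, a2, a3⟩ := h r
      obtain ⟨ξ, b1, -, b3⟩ := HomS.rep a1 hg hg'
      exact ⟨ξ, b1, P, a1, b3, a2, a3⟩)
  obtain ⟨-, P, a1, a2, -, a4⟩ := hξ 0
  have h3 : ∀ s : ℚ_[p], Bd R (Pfl p d₁ d₂ s P.2) := fun s => by
    obtain ⟨l, hl⟩ := pow_unbounded_of_one_lt ‖s‖ hp
    obtain ⟨-, P', -, b2, -, b4⟩ := hξ l
    have e : P.2 = P'.2 := by
      have e1 := a2.2.trans b2.2.symm
      have e2 := congrArg (· * ((g.2⁻¹ : SL(2, ℚ_[p])) : Matrix (Fin 2) (Fin 2) ℚ_[p])) e1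
      simpa only [Matrix.mul_assoc, sing_mul_inv, Matrix.mul_one] using e2
    rw [e]
    exact b4 s (by rw [zpow_natCast]; exact hl.le)
  have h4 : P.2 1 0 = 0 := by
    have : d₂ * P.2 1 0 = 0 := by
      refine sing_affine p (a := P.2 0 0) (R := R) fun s => ?_
      have := h3 s 0 0
      rw [Pfl_eq] at this
      simpa using this
    exact (mul_eq_zero.1 this).resolve_left h₂
  refine ⟨P, a1, ?_, h4, ?_⟩
  · have := h3 0
    rwa [wst_Pfl_zero] at this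
  have : d₂ * P.2 1 1 - d₁ * P.2 0 0 = 0 := by
    refine sing_affine p (a := P.2 0 1) (R := R) fun s => ?_
    have := h3 s 0 1
    rw [Pfl_eq] at this
    simpa [h4] using this
  exact (sub_eq_zero.1 this).symm

theorem small_exc (μ : Measure W) [IsProbabilityMeasure μ] {x y : W → XX p} (hx : Continuous x)
    (hy : Continuous y) {q : ℕ} (hq : 0 < q) (δ : ℚ) (R : ℝ) {d₁ d₂ : ℚ_[p]} (h₁ : d₁ ≠ 0)
    (h₂ : d₂ ≠ 0) (h : μ {w | (x w, y w) ∈ NR p q δ (|R| + 1) d₁ d₂} = 0) :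
    Tendsto (fun r : ℕ => μ {w | ∃ P ∈ HomS p q δ (x w) (y w), Bd R P.1 ∧
      ∀ s : ℚ_[p], ‖s‖ ≤ (p : ℝ) ^ (r : ℤ) → Bd R (Pfl p d₁ d₂ s P.2)}) atTop (𝓝 0) := by
  have _ := h₁
  have hp : (1 : ℝ) < p := by exact_mod_cast (Fact.out : p.Prime).one_lt
  have hR : 0 < |R| + 1 := by positivity
  set U : ℕ → Set W := fun r => {w | ∃ P ∈ HomS p q δ (x w) (y w), (∀ i j, |P.1 i j| < |R| + 1) ∧
    ∀ s : ℚ_[p], ‖s‖ ≤ (p : ℝ) ^ (r : ℤ) → Bd (|R| + 1) (Pfl p d₁ d₂ s P.2)} with hU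
  have hUo : ∀ r, IsOpen (U r) := fun r =>
    (isOpen_hom q δ hR d₁ d₂ (r : ℤ)).preimage (hx.prodMk hy)
  have hUa : Antitone U := fun r r' hr w hw => by
    obtain ⟨P, a1, a2, a3⟩ := hw
    exact ⟨P, a1, a2, fun s hs => a3 s (hs.trans
      (zpow_le_zpow_right₀ hp.le (by exact_mod_cast hr)))⟩
  have hlim := tendsto_measure_iInter_atTop (μ := μ)
    (fun r => (hUo r).measurableSet.nullMeasurableSet) hUa ⟨0, measure_ne_top _ _⟩
  have h0 : μ (⋂ r, U r) = 0 := by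
    refine measure_mono_null (fun w hw => ?_) h
    refine wst_inter hq δ _ h₂ fun r => ?_
    obtain ⟨P, a1, a2, a3⟩ := Set.mem_iInter.1 hw r
    exact ⟨P, a1, fun i j => (a2 i j).le, a3⟩
  rw [h0] at hlim
  have hle : R ≤ |R| + 1 := (le_abs_self R).trans (by linarith)
  refine tendsto_of_tendsto_of_tendsto_of_le_of_le tendsto_const_nhds hlim (fun _ => zero_le)
    fun r => measure_mono ?_
  rintro w ⟨P, a1, a2, a3⟩
  exact ⟨P, a1, fun i j => lt_of_le_of_lt ((a2 i j).trans (le_abs_self R)) (by linarith),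
    fun s hs => lin_bd_mono (a3 s hs) hle⟩

/-- The unipotent flow at speed `d`. -/
def wstFl (p : ℕ) [Fact p.Prime] (d : ℚ_[p]) : Flow ℚ_[p] (XX p) where
  toFun s x := uP p (d * s) • x
  cont' := ((continuous_uP p).comp (continuous_const.mul continuous_fst)).smul continuous_snd
  map_add' s t x := by simp only [mul_add, uP_add, mul_smul]
  map_zero' x := by simp

theorem wst_erg {d : ℚ_[p]} (hd : d ≠ 0) : Erg (wstFl p d) (mX p) := by
  refine erg_of_ext _ (fun s => mX_inv p (uP p (d * s))) fun μ hμ hi => ?_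
  have : IsFiniteMeasure μ := isFiniteMeasure_of_le _ hμ
  refine eq_mX_of_P p μ fun g =>
    mautner_U1 p _ (mprop_Stab (mX p) μ (mX_inv p) hμ) (fun s => ?_) g
  have h1 : μ.map (fun x => uP p (d * (s / d)) • x) = μ := hi (s / d)
  rw [mul_div_cancel₀ _ hd] at h1
  exact h1

theorem exists_om (p : ℕ) [Fact p.Prime] {ε : ℝ≥0∞} (hε : 0 < ε) : ∃ Ω : Set (XX p),
    IsCompact Ω ∧ ∀ (j : ℕ) (d : ℚ_[p]), d ≠ 0 → Tendsto (fun r : ℕ =>
      mX p {x | ε < bm p r {s | aP p j • uP p (d * s) • x ∉ Ω}}) atTop (𝓝 0) ∧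
      ∀ r : ℕ, MeasurableSet {x | ε < bm p r {s | aP p j • uP p (d * s) • x ∉ Ω}} := by
  obtain ⟨K, -, hK, hlt⟩ := MeasurableSet.univ.exists_isCompact_sdiff_lt
    (measure_ne_top (mX p) _) hε.ne'
  obtain ⟨Ω, hΩ, hs⟩ := exists_compact_superset hK
  refine ⟨Ω, hΩ, fun j d hd => ?_⟩
  have hc : Continuous fun y : XX p => aP p j • y := continuous_const_smul _
  have hUo : IsOpen {y : XX p | aP p j • y ∉ Ω} := hΩ.isClosed.isOpen_compl.preimage hc
  have hFc : IsClosed {y : XX p | aP p j • y ∉ interior Ω} :=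
    isOpen_interior.isClosed_compl.preimage hc
  have hF : mX p {y : XX p | aP p j • y ∉ interior Ω} < ε := by
    have h1 := Measure.map_apply (μ := mX p) hc.measurable
      (isOpen_interior (s := Ω)).isClosed_compl.measurableSet
    rw [mX_inv] at h1
    refine lt_of_le_of_lt (le_of_eq h1.symm) (lt_of_le_of_lt (measure_mono ?_) hlt)
    exact fun y hy => ⟨trivial, fun hyK => hy (hs hyK)⟩
  have he : ∀ (r : ℕ) (x : XX p), bm p r {s | aP p j • uP p (d * s) • x ∉ Ω} =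
      orb (wstFl p d) r x {y : XX p | aP p j • y ∉ Ω} := fun r x =>
    (orb_apply (wstFl p d) r x hUo.measurableSet).symm
  have hm : ∀ r : ℕ, MeasurableSet {x | ε < bm p r {s | aP p j • uP p (d * s) • x ∉ Ω}} :=
    fun r => by
      simp only [he]
      exact measurableSet_lt measurable_const (dec_meas_orb _ _ hUo.measurableSet)
  refine ⟨?_, hm⟩
  have := tendsto_measure_of_ae_tendsto_indicator_of_isFiniteMeasure (μ := mX p) atTop
    MeasurableSet.empty hm ?_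
  · simpa using this
  filter_upwards [wst_erg hd] with x hx
  filter_upwards [WT.closed_lt hx hFc hF] with r hr
  refine iff_of_false (fun h1 => ?_) (Set.notMem_empty x)
  rw [he] at h1
  exact lt_irrefl _ (h1.trans (lt_of_le_of_lt
    (measure_mono fun y hy h2 => hy (interior_subset h2)) hr))

/-- A diagonal choice of radii. -/
theorem exists_rad {α T : Type} [MeasurableSpace α] [Countable T] (L : Filter ℕ)
    (hL : L ≤ atTop) (μ : ℕ → Measure α) (B : T → ℕ → ℕ → Set α)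
    (h : ∀ t, ∀ᶠ i in L, Tendsto (fun r => μ i (B t i r)) atTop (𝓝 0)) :
    ∃ (r : ℕ → ℕ) (Z : ℕ → Set α), Tendsto r atTop atTop ∧ (∀ i, MeasurableSet (Z i)) ∧
      Tendsto (fun i => μ i (Z i)) atTop (𝓝 0) ∧ ∀ t, ∀ᶠ i in L, B t i (r i) ⊆ Z i := by
  classical
  obtain ⟨f, hf⟩ := Countable.exists_injective_nat T
  have hfin : ∀ i, {t | f t ≤ i ∧ Tendsto (fun r => μ i (B t i r)) atTop (𝓝 0)}.Finite := fun i =>
    ((Set.finite_Iic i).preimage hf.injOn).subset fun t ht => ht.1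
  have key : ∀ i : ℕ, ∃ r : ℕ, i ≤ r ∧
      μ i (⋃ t ∈ (hfin i).toFinset, B t i r) ≤ ((i : ℝ≥0∞) + 1)⁻¹ := fun i => by
    have h1 : Tendsto (fun r => ∑ t ∈ (hfin i).toFinset, μ i (B t i r)) atTop (𝓝 0) := by
      have := tendsto_finset_sum (hfin i).toFinset
        (f := fun t r => μ i (B t i r)) (a := fun _ => 0) (x := atTop)
        fun t ht => ((hfin i).mem_toFinset.1 ht).2
      simpa using this
    have h2 : (0 : ℝ≥0∞) < ((i : ℝ≥0∞) + 1)⁻¹ := ENNReal.inv_pos.2 (by simp)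
    obtain ⟨r, a1, a2⟩ := ((eventually_ge_atTop i).and (h1.eventually (gt_mem_nhds h2))).exists
    exact ⟨r, a1, (measure_biUnion_finset_le _ _).trans a2.le⟩
  choose r hr1 hr2 using key
  refine ⟨r, fun i => toMeasurable (μ i) (⋃ t ∈ (hfin i).toFinset, B t i (r i)),
    tendsto_atTop_mono hr1 tendsto_id, fun i => measurableSet_toMeasurable _ _, ?_, fun t => ?_⟩
  · have h3 : Tendsto (fun i : ℕ => ((i : ℝ≥0∞) + 1)⁻¹) atTop (𝓝 0) := by
      have := ENNReal.tendsto_inv_nat_nhds_zero.comp (tendsto_add_atTop_nat 1)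
      simpa [Function.comp_def] using this
    refine tendsto_of_tendsto_of_tendsto_of_le_of_le tendsto_const_nhds h3 (fun _ => zero_le)
      fun i => ?_
    simpa only [measure_toMeasurable] using hr2 i
  · filter_upwards [h t, hL (eventually_ge_atTop (f t))] with i a1 a2
    refine Set.Subset.trans ?_ (subset_toMeasurable _ _)
    exact Set.subset_biUnion_of_mem (u := fun t => B t i (r i))
      (show t ∈ ((hfin i).toFinset : Set T) from (hfin i).mem_toFinset.2 ⟨a2, a1⟩)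

theorem integral_of_good {α : Type} [MeasurableSpace α] {L : Filter ℕ} (hL : L ≤ atTop)
    (μ : ℕ → Measure α) [∀ i, IsProbabilityMeasure (μ i)] (Z : ℕ → Set α)
    (hZ : ∀ i, MeasurableSet (Z i)) (h0 : Tendsto (fun i => μ i (Z i)) atTop (𝓝 0))
    (Φ : ℕ → α → ℝ) {C : ℝ} (hC : ∀ i x, |Φ i x| ≤ C)
    (h : ∀ x : ℕ → α, (∀ᶠ i in L, x i ∉ Z i) → Tendsto (fun i => Φ i (x i)) L (𝓝 0)) :
    Tendsto (fun i => ∫ x, Φ i x ∂μ i) L (𝓝 0) := by
  have key : ∀ i : ℕ, ∃ x : α, (Z i)ᶜ.Nonempty →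
      x ∉ Z i ∧ ∀ y, y ∉ Z i → |Φ i y| ≤ |Φ i x| + 1 / ((i : ℝ) + 1) := fun i => by
    by_cases hne : (Z i)ᶜ.Nonempty
    · have hb : BddAbove ((fun y => |Φ i y|) '' (Z i)ᶜ) := ⟨C, by rintro _ ⟨y, -, rfl⟩; exact hC i y⟩
      have hp : (0 : ℝ) < 1 / ((i : ℝ) + 1) := by positivity
      obtain ⟨_, ⟨x, hx, rfl⟩, hlt⟩ := exists_lt_of_lt_csSup (hne.image fun y => |Φ i y|)
        (sub_lt_self (sSup ((fun y => |Φ i y|) '' (Z i)ᶜ)) hp)
      refine ⟨x, fun _ => ⟨hx, fun y hy => ?_⟩⟩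
      have := le_csSup hb ⟨y, hy, rfl⟩
      simp only at this hlt
      linarith
    · exact ⟨(nonempty_of_isProbabilityMeasure (μ i)).some, fun h1 => (hne h1).elim⟩
  choose x hx using key
  have hne : ∀ᶠ i in L, (Z i)ᶜ.Nonempty := by
    filter_upwards [hL (h0.eventually (gt_mem_nhds zero_lt_one))] with i hi
    by_contra hc
    rw [Set.not_nonempty_iff_eq_empty, Set.compl_empty_iff] at hc
    simp [hc] at hi
  have h1 := (h x (hne.mono fun i hi => (hx i hi).1)).abs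
  have h2 : Tendsto (fun i : ℕ => 1 / ((i : ℝ) + 1)) L (𝓝 0) :=
    tendsto_one_div_add_atTop_nhds_zero_nat.mono_left hL
  have h3 : Tendsto (fun i => (μ i).real (Z i)) L (𝓝 0) := by
    have := (ENNReal.tendsto_toReal ENNReal.zero_ne_top).comp (h0.mono_left hL)
    simpa [Function.comp_def, Measure.real] using this
  have h4 := (h1.add h2).add (h3.mul_const C)
  simp only [abs_zero, add_zero, zero_mul] at h4
  refine squeeze_zero_norm' ?_ h4
  filter_upwards [hne] with i hi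
  have hI : Integrable ((Z i).indicator fun _ : α => C) (μ i) :=
    (integrable_const C).indicator (hZ i)
  refine (norm_integral_le_of_norm_le (g := fun y => (|Φ i (x i)| + 1 / ((i : ℝ) + 1)) +
    (Z i).indicator (fun _ => C) y) ((integrable_const _).add hI) (ae_of_all _ fun y => ?_)).trans
    (le_of_eq ?_)
  · rw [Real.norm_eq_abs]
    by_cases hy : y ∈ Z i
    · rw [Set.indicator_of_mem hy]
      have : (0 : ℝ) ≤ |Φ i (x i)| + 1 / ((i : ℝ) + 1) := by positivity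
      linarith [hC i y]
    · rw [Set.indicator_of_notMem hy, add_zero]
      exact (hx i hi).2 y hy
  · rw [integral_add (integrable_const _) hI, integral_indicator_const _ (hZ i)]
    simp

theorem stepM {N : ℕ} (hN : 0 < N) {ι : Type} [Fintype ι] [DecidableEq ι] (𝒰 : Ultrafilter ℕ)
    (h𝒰 : (𝒰 : Filter ℕ) ≤ atTop) (μ : ℕ → Measure (ι → XN p N))
    [∀ i, IsProbabilityMeasure (μ i)] (a : ℕ → ι → SL(2, ℚ_[p])) (ha : ∀ i k, a i k ∈ Kp p)
    (d : ℕ → ι → ℚ_[p]) (e : ι → ℚ_[p]) (I J : Finset ι) (hJ : J ⊆ I) (he : ∀ k ∈ J, e k ≠ 0)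
    (he' : ∀ k ∈ I, k ∉ J → e k = 0) (hd : ∀ k ∈ I, Tendsto (fun i => d i k) 𝒰 (𝓝 (e k)))
    (hi : ∀ i, Inv (uflN p N (d i)) (μ i)) (hm : ∀ i k, (μ i).map (fun w => w k) = mN p N)
    (hE : ∀ k ∈ J, ∀ l ∈ J, k ≠ l → ∀ q : ℕ, 0 < q → ∀ δ : ℚ, δ ≠ 0 → ∀ R : ℝ, ∀ᶠ i in 𝒰,
      μ i {w | (cov p N (w k), cov p N (w l)) ∈ NR p q δ R (d i k) (d i l)} = 0)
    (φ : ι → (ℍ →ᵇ ℝ)) (hφ : ∀ k, GInv N (φ k)) :
    Tendsto (fun i => ∫ w, ∏ k ∈ I, φ k (ptX p N (((1, a i k) : GG p) • w k)) ∂μ i -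
      (∏ k ∈ J, IN N (φ k)) *
        ∫ w, ∏ k ∈ I \ J, φ k (ptX p N (((1, a i k) : GG p) • w k)) ∂μ i) 𝒰 (𝓝 0) := by
  have hε : ∀ m : ℕ, (0 : ℝ≥0∞) < ((m : ℝ≥0∞) + 1)⁻¹ := fun m => ENNReal.inv_pos.2 (by simp)
  choose Ω hΩ hΩ' using fun m : ℕ => exists_om p (hε m)
  have hd0 : ∀ k ∈ J, ∀ᶠ i in 𝒰, d i k ≠ 0 := fun k hk => (hd k (hJ hk)).eventually_ne (he k hk)
  have hcv : ∀ k, Continuous fun w : ι → XN p N => cov p N (w k) := fun k =>
    (continuous_cov p N).comp (continuous_apply k)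
  obtain ⟨r, Z, hr, hZ, hZ0, hB⟩ := exists_rad (T := (ι × ι × ℕ × ℚ × ℕ) ⊕ (ι × ℕ × ℕ)) 𝒰 h𝒰 μ
    (fun t i r => Sum.elim
      (fun t : ι × ι × ℕ × ℚ × ℕ => {w : ι → XN p N |
        (t.1 ∈ J ∧ t.2.1 ∈ J ∧ t.1 ≠ t.2.1 ∧ 0 < t.2.2.1 ∧ t.2.2.2.1 ≠ 0) ∧
        ∃ P ∈ HomS p t.2.2.1 t.2.2.2.1 (cov p N (w t.1)) (cov p N (w t.2.1)),
          Bd (t.2.2.2.2 : ℝ) P.1 ∧ ∀ s : ℚ_[p], ‖s‖ ≤ (p : ℝ) ^ (r : ℤ) →
            Bd (t.2.2.2.2 : ℝ) (Pfl p (d i t.1) (d i t.2.1) s P.2)})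
      (fun t : ι × ℕ × ℕ => {w : ι → XN p N | t.1 ∈ J ∧ ((t.2.2 : ℝ≥0∞) + 1)⁻¹ <
        bm p r {s | aP p t.2.1 • uP p (d i t.1 * s) • cov p N (w t.1) ∉ Ω t.2.2}}) t) (by
    rintro (⟨k, l, q, δ, R⟩ | ⟨k, j, m⟩)
    · by_cases hc : k ∈ J ∧ l ∈ J ∧ k ≠ l ∧ 0 < q ∧ δ ≠ 0
      · obtain ⟨c1, c2, c3, c4, c5⟩ := id hc
        filter_upwards [hd0 k c1, hd0 l c2, hE k c1 l c2 c3 q c4 δ c5 (|(R : ℝ)| + 1)]
          with i b1 b2 b3
        simpa only [Sum.elim_inl, hc, ne_eq, not_false_eq_true, and_self, true_and] using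
          small_exc (μ i) (hcv k) (hcv l) c4 δ (R : ℝ) b1 b2 b3
      · refine Eventually.of_forall fun i => ?_
        simp only [Sum.elim_inl, hc, false_and, Set.setOf_false, measure_empty]
        exact tendsto_const_nhds
    · by_cases hc : k ∈ J
      · filter_upwards [hd0 k hc] with i b1
        obtain ⟨o1, o2⟩ := hΩ' m j (d i k) b1
        refine o1.congr fun r => ?_
        rw [← map_cov hN, Measure.map_apply (continuous_cov p N).measurable (o2 r), ← hm i k,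
          Measure.map_apply (measurable_pi_apply k) ((continuous_cov p N).measurable (o2 r))]
        simp only [Sum.elim_inr, hc, true_and]
        rfl
      · refine Eventually.of_forall fun i => ?_
        simp only [Sum.elim_inr, hc, false_and, Set.setOf_false, measure_empty]
        exact tendsto_const_nhds)
  have hr' : Tendsto (fun i => (r i : ℤ)) 𝒰 atTop :=
    (tendsto_natCast_atTop_atTop.comp hr).mono_left h𝒰
  have hct : ∀ (S : Finset ι) (i : ℕ), Continuous fun w : ι → XN p N =>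
      ∏ k ∈ S, φ k (ptX p N (((1, a i k) : GG p) • w k)) := fun S i =>
    continuous_finset_prod _ fun k _ => ((hφ k).continuous hN (φ k).continuous).comp
      ((continuous_const_smul ((1, a i k) : GG p)).comp (continuous_apply k))
  have hbd : ∀ (S : Finset ι) (i : ℕ) (w : ι → XN p N),
      ‖∏ k ∈ S, φ k (ptX p N (((1, a i k) : GG p) • w k))‖ ≤ ∏ k ∈ S, ‖φ k‖ := fun S i w => by
    rw [norm_prod]
    exact Finset.prod_le_prod (fun _ _ => norm_nonneg _) fun k _ => (φ k).norm_coe_le_norm _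
  set F : Finset ι → ℕ → ((ι → XN p N) →ᵇ ℝ) := fun S i =>
    BoundedContinuousFunction.ofNormedAddCommGroup _ (hct S i) _ (hbd S i) with hF
  set G : Finset ι → ℕ → (ι → XN p N) → ℝ := fun S i w =>
    ∫ x, F S i x ∂orb (uflN p N (d i)) (r i) w with hG
  have hGb : ∀ S i w, |G S i w| ≤ ∏ k ∈ S, ‖φ k‖ := fun S i w => by
    have := norm_integral_le_of_norm_le_const (μ := orb (uflN p N (d i)) (r i) w)
      (f := fun x => F S i x) (ae_of_all _ (hbd S i))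
    simpa using this
  have hGi : ∀ S i, Integrable (G S i) (μ i) := fun S i =>
    Integrable.of_bound (continuous_integral_orb _ _ _).aestronglyMeasurable _
      (ae_of_all _ (hGb S i))
  have hGe : ∀ S i w, G S i w = ∫ s, ∏ k ∈ S,
      φ k (ptX p N (((1, a i k) : GG p) • uP p (d i k * s) • w k)) ∂bm p (r i) := fun S i w =>
    integral_orb _ _ _ (F S i).continuous
  have main := integral_of_good h𝒰 μ Z hZ hZ0
    (fun i w => G I i w - (∏ k ∈ J, IN N (φ k)) * G (I \ J) i w)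
    (C := ∏ k ∈ I, ‖φ k‖ + |∏ k ∈ J, IN N (φ k)| * ∏ k ∈ I \ J, ‖φ k‖)
    (fun i w => (abs_sub _ _).trans (add_le_add (hGb _ _ _) (by
      rw [abs_mul]
      exact mul_le_mul_of_nonneg_left (hGb _ _ _) (abs_nonneg _))))
    (fun x hx => by
      simp only [hGe]
      refine stepN hN 𝒰 h𝒰 x a ha d e I J hJ he he' hd (fun i => (r i : ℤ)) hr' ?_ ?_ φ hφ
      · intro k hk ε hε0
        obtain ⟨m, hm'⟩ := ENNReal.exists_inv_nat_lt hε0.ne'
        refine ⟨Ω m, hΩ m, fun j => ?_⟩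
        filter_upwards [hx, hB (Sum.inr (k, j, m))] with i b1 b2
        refine le_trans (not_lt.1 fun hh => b1 (b2 ⟨hk, hh⟩)) (le_trans ?_ hm'.le)
        exact ENNReal.inv_le_inv.2 le_self_add
      · intro k hk l hl hkl q hq δ hδ R
        filter_upwards [hx, hB (Sum.inl (k, l, q, δ, ⌈R⌉₊))] with i b1 b2 P hP b3
        by_contra hh
        push Not at hh
        exact b1 (b2 ⟨⟨hk, hl, hkl, hq, hδ⟩, P, hP, lin_bd_mono b3 (Nat.le_ceil R),
          fun s hs => lin_bd_mono (hh s hs) (Nat.le_ceil R)⟩))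
  refine main.congr fun i => ?_
  rw [integral_sub (hGi _ _) ((hGi _ _).const_mul _), integral_const_mul]
  exact congrArg₂ (fun u v => u - (∏ k ∈ J, IN N (φ k)) * v)
    ((hi i).integral_orb _ (r i) (F I i)) ((hi i).integral_orb _ (r i) (F (I \ J) i))

end Pool.Agent.EQ
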