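import Pool.Agent.P.MP_ad7a55_nt.WBl
import Pool.Agent.P.MP_ad7a55_nt.WHk

/-! A statement uniform in the two primes. -/

set_option autoImplicit false

noncomputable section

open MeasureTheory Topology Filter UpperHalfPlane
open scoped MatrixGroups ENNReal BoundedContinuousFunction

namespace Pool.Agent.EQ

variable {n : ℕ}

/-- The deviation is at most `ε` for points without isogeny of degree `m`. -/
def Ucs (N : ℕ) (F : IntermediateField ℚ ℂ) (φ : Fin n → (ℍ →ᵇ ℝ)) (I : Finset (Fin n)) (ε : ℝ)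
    (m p q : ℕ) (L X : ℝ) : Prop :=
  ∀ (τ : Fin n → ℍ) (D : Fin n → ℤ) (ψ : (Fin n × Fn → ℂ) → ℝ), (∀ k, HasDisc (τ k) (D k)) →
    (∀ k, D k < -576) → (∀ k ∈ I, ∀ l ∈ I, IsSquare (D k * D l)) → (∀ k ∈ I, X ≤ -(D k : ℝ)) →
    (∀ k ∈ I, ∀ l ∈ I, k ≠ l → ∀ σ : ℂ ≃+* ℂ,
      ¬ Isog m (σ (jInv (τ k))) (σ (jInv (τ l)))) →
    (∀ k ∈ I, Low L (D k) ∧ (∃ κ, Spl p κ (D k)) ∧ ∃ κ, Spl q κ (D k)) → Oth I D ψ →
    (∀ z, |ψ z| ≤ 1) →
    |avg (ON N F τ) fun z => ψ z * (PT N F φ I z - ∏ k ∈ I, IN N (φ k))| ≤ ε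

theorem wuc_split {α : Type} {O : Finset α} (hO : O.Nonempty) (ψ P : α → ℝ)
    (hψ : ∀ z, |ψ z| ≤ 1) (c c' : ℝ) :
    |avg O fun z => ψ z * (P z - c)| ≤ |avg O fun z => ψ z * (P z - c')| + |c' - c| := by
  have h1 : avg O (fun z => ψ z * (P z - c)) =
      avg O (fun z => ψ z * (P z - c')) + avg O (fun z => ψ z * (c' - c)) := by
    unfold avg
    rw [← add_div, ← Finset.sum_add_distrib]
    exact congrArg (· / (O.card : ℝ)) (Finset.sum_congr rfl fun z _ => by ring)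
  rw [h1]
  refine (abs_add_le _ _).trans (add_le_add le_rfl (abs_avg_le hO _ fun z _ => ?_))
  rw [abs_mul]
  exact mul_le_of_le_one_left (abs_nonneg _) (hψ z)

theorem ucs {N : ℕ} (hN : 0 < N) (F : IntermediateField ℚ ℂ) [FiniteDimensional ℚ F]
    (φ : Fin n → (ℍ →ᵇ ℝ)) (hφ : ∀ k, Tst N F (φ k)) (I : Finset (Fin n)) {ε : ℝ} (hε : 0 < ε) :
    ∃ m : ℕ, 0 < m ∧ ∀ p q : ℕ, p.Prime → q.Prime → p ≠ q → p ≠ 2 → q ≠ 2 → ∀ L : ℝ,
      ∃ X : ℝ, Ucs N F φ I ε m p q L X := by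
  classical
  obtain ⟨m, hm, hk⟩ := heck hN φ (fun k => (hφ k).ginv) I (half_pos hε)
  refine ⟨m, hm, fun p q hp hq hpq h2 h2' L => ?_⟩
  haveI := Fact.mk hp
  haveI := Fact.mk hq
  by_contra hcon
  have h0 : ∀ i : ℕ, ∃ (τ : Fin n → ℍ) (D : Fin n → ℤ) (ψ : (Fin n × Fn → ℂ) → ℝ),
      (∀ k, HasDisc (τ k) (D k)) ∧ (∀ k, D k < -576) ∧
      (∀ k ∈ I, ∀ l ∈ I, IsSquare (D k * D l)) ∧ (∀ k ∈ I, (i : ℝ) ≤ -(D k : ℝ)) ∧
      (∀ k ∈ I, ∀ l ∈ I, k ≠ l → ∀ σ : ℂ ≃+* ℂ,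
        ¬ Isog m (σ (jInv (τ k))) (σ (jInv (τ l)))) ∧
      (∀ k ∈ I, Low L (D k) ∧ (∃ κ, Spl p κ (D k)) ∧ ∃ κ, Spl q κ (D k)) ∧ Oth I D ψ ∧
      (∀ z, |ψ z| ≤ 1) ∧
      ε < |avg (ON N F τ) fun z => ψ z * (PT N F φ I z - ∏ k ∈ I, IN N (φ k))| := by
    intro i
    by_contra h1
    refine hcon ⟨i, fun τ D ψ a1 a2 a3 a4 a5 a6 a7 a8 => not_lt.1 fun a9 => h1 ?_⟩
    exact ⟨τ, D, ψ, a1, a2, a3, a4, a5, a6, a7, a8, a9⟩
  choose τ D ψ hD hbig hsq hX hno hc hO hψ hlt using h0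
  have h𝒰 : ((hyperfilter ℕ : Ultrafilter ℕ) : Filter ℕ) ≤ atTop := by
    rw [← Nat.cofinite_eq_atTop]
    exact hyperfilter_le_cofinite
  generalize hyperfilter ℕ = 𝒰 at h𝒰
  obtain ⟨r, m', hm', hr, hr', hni, hiso⟩ := exists_blk 𝒰 τ I
  have hM : 0 < N * m' ^ 2 := Nat.mul_pos hN (pow_pos hm' 2)
  obtain ⟨F', hfin, hFF, -, hzt⟩ := exists_field F F hM
  have hw : ∀ i, ∃ z ∈ galO F (evs (MF N F) (τ i)),
      |avg (ON N F (τ i)) fun z => ψ i z * (PT N F φ I z - ∏ k ∈ I, IN N (φ k))| ≤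
        |avg (fO (galO F' z)) fun z => ψ i z * (PT N F φ I z - ∏ k ∈ I, IN N (φ k))| :=
    fun i => exists_worst (F := F') (galO_fin hN F (hD i)) ⟨_, galO_self F _⟩
      (fun z hz => (galO_mono hFF z).trans (galO_of_mem hz).subset) _
  choose z hz hzle using hw
  obtain ⟨w, hwdef⟩ : ∃ w : ℕ → Fin n → ℍ, w = fun i => rp (MF N F) (z i) := ⟨_, rfl⟩
  have hwz : ∀ i, evs (MF N F) (w i) = z i := fun i => by
    rw [hwdef]
    exact evs_rp hN (hz i)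
  have hwD : ∀ i k, HasDisc (w i k) (D i k) := fun i k => by
    rw [hwdef]
    exact rp_disc hN (hD i) (hz i) (hbig i k)
  have hwj : ∀ i, ∃ σ : ℂ ≃+* ℂ, ∀ k, jInv (w i k) = σ (jInv (τ i k)) := fun i => by
    obtain ⟨σ, -, hσ⟩ := pj_mem hN (hz i)
    refine ⟨σ, fun k => ?_⟩
    rw [hwdef]
    exact (vev_j hN (hz i) k).trans (congrFun hσ k)
  choose σ hσ using hwj
  obtain ⟨ξ, hξ, hwξ⟩ := exists_xi hN 𝒰 (w := w) (r := r) hm' (hiso.mono fun i hi k => by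
    rw [hσ, hσ]
    exact hi k (σ i))
  obtain ⟨B, hB⟩ := blk_eq hN F
  have hsub : I.image r ⊆ I := fun b hb => by
    obtain ⟨k, hk, rfl⟩ := Finset.mem_image.1 hb
    exact hr k hk
  have hinf : ∀ Y : ℝ, ∀ᶠ i in (𝒰 : Filter ℕ), ∀ k ∈ I, Y ≤ -(D i k : ℝ) := fun Y =>
    ((tendsto_natCast_atTop_atTop (R := ℝ)).eventually_ge_atTop Y).filter_mono h𝒰 |>.mono
      fun i hi k hk => hi.trans (hX i k hk)
  have hC : Cls 𝒰 w D (I.image r) :=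
    ⟨hwD, .of_forall hbig, .of_forall fun i k hk l hl => hsq i k (hsub hk) l (hsub hl),
      fun Y => (hinf Y).mono fun i hi k hk => hi k (hsub hk),
      fun k hk l hl hkl M hM0 => (hni k hk l hl hkl M hM0).mono fun i hi σ' => by
        rw [hσ, hσ]
        exact hi ((σ i).trans σ')⟩
  have hE := clsC (F := F') hM h𝒰 hC
    (φ := fun b => ∏ k ∈ I.filter (fun k => r k = b), cact (φ k) (ξ k))
    (fun b => Tst.prod _ fun k _ => (hφ k).cact hN (hξ k).1 hM (hξ k).2 hFF hzt)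
    (ψ := fun i y => ψ i fun a => y (sh (MF N F) r ξ a))
    ⟨.of_forall fun i => oth_sh (hO i) _ ξ hr hr', 1, fun i y => hψ i _⟩ p q hpq h2 h2'
    (.of_forall fun i k hk => hc i k (hsub hk))
  have hsm := (Metric.tendsto_nhds.1 hE) (ε / 2) (half_pos hε)
  obtain ⟨i, a1, a2, a3⟩ := (hwξ.and (hsm.and (hinf B))).exists
  have hj : ∀ k, jInv (act (ξ k) (w i (r k))) = σ i (jInv (τ i k)) := fun k => by
    obtain ⟨γ, -, hγ⟩ := a1 k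
    rw [← hσ, hγ, jInv_smul]
  have hH := hk r ξ (N * m' ^ 2) hM hξ fun k hk l hl hkl hrr => ⟨w i (r k), by
    rw [hj k, hrr, hj l]
    exact hno i k hk l hl hkl (σ i)⟩
  have h3 := (hlt i).trans_le (hzle i)
  rw [← hwz i, hB n (N * m' ^ 2) hM F' hFF hzt r ξ hξ (w i) (D i) I φ (ψ i) _ (hwD i) a1 a3 hφ]
    at h3
  have h4 := h3.trans_le (wuc_split (ON_ne hM F' (hwD i)) _ _ (fun y => hψ i _) _
    (∏ b ∈ I.image r, IN (N * m' ^ 2) (∏ k ∈ I.filter (fun k => r k = b), cact (φ k) (ξ k))))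
  rw [Real.dist_0_eq_abs] at a2
  linarith

end Pool.Agent.EQ
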