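import Pool.Agent.P.MP_ad7a55_nt.Base

/-! Weak convergence along a filter. -/

set_option autoImplicit false

noncomputable section

open MeasureTheory Topology Filter UpperHalfPlane
open scoped MatrixGroups ENNReal BoundedContinuousFunction

namespace Pool.Agent.EQ

/-- Weak convergence of measures along a filter on `ℕ`. -/
def WT {W : Type} [TopologicalSpace W] [MeasurableSpace W] (L : Filter ℕ) (μ : ℕ → Measure W)
    (ν : Measure W) : Prop :=
  ∀ f : W →ᵇ ℝ, Tendsto (fun i => ∫ x, f x ∂μ i) L (𝓝 (∫ x, f x ∂ν))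

variable {W : Type} [TopologicalSpace W] [PolishSpace W] [MeasurableSpace W] [BorelSpace W]
  {L : Filter ℕ} {μ : ℕ → Measure W} {ν : Measure W}

omit [PolishSpace W] in
theorem weak_aux1 [hμ : ∀ i, IsProbabilityMeasure (μ i)] [hν : IsProbabilityMeasure ν]
    (h : WT L μ ν) :
    Tendsto (β := ProbabilityMeasure W) (fun i => ⟨μ i, hμ i⟩) L
      (@nhds (ProbabilityMeasure W) _ ⟨ν, hν⟩) :=
  (ProbabilityMeasure.tendsto_iff_forall_integral_tendsto (μs := fun i => ⟨μ i, hμ i⟩)
    (μ := ⟨ν, hν⟩)).2 h

theorem WT.open_le [L.NeBot] [∀ i, IsProbabilityMeasure (μ i)] [IsProbabilityMeasure ν]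
    (h : WT L μ ν) {U : Set W} (hU : IsOpen U) {c : ℝ≥0∞} (hc : ∀ᶠ i in L, μ i U ≤ c) :
    ν U ≤ c := by
  have h1 : ν U ≤ L.liminf fun i => μ i U :=
    ProbabilityMeasure.le_liminf_measure_open_of_tendsto (weak_aux1 h) hU
  exact h1.trans (liminf_le_of_frequently_le' hc.frequently)

theorem WT.closed_lt [∀ i, IsProbabilityMeasure (μ i)] [IsProbabilityMeasure ν]
    (h : WT L μ ν) {F : Set W} (hF : IsClosed F) {c : ℝ≥0∞} (hc : ν F < c) :
    ∀ᶠ i in L, μ i F < c := by
  have h1 : (L.limsup fun i => μ i F) ≤ ν F :=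
    ProbabilityMeasure.limsup_measure_closed_le_of_tendsto (weak_aux1 h) hF
  exact eventually_lt_of_limsup_lt (h1.trans_lt hc)

theorem WT.map {W' : Type} [TopologicalSpace W'] [MeasurableSpace W'] [BorelSpace W']
    (h : WT L μ ν) {F : W → W'} (hF : Continuous F) :
    WT L (fun i => (μ i).map F) (ν.map F) := by
  intro f
  have e : ∀ m : Measure W, ∫ x, f x ∂m.map F = ∫ x, f.compContinuous ⟨F, hF⟩ x ∂m := fun m =>
    integral_map hF.measurable.aemeasurable f.continuous.aestronglyMeasurable
  simp only [e]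
  exact h _

theorem WT.unique [L.NeBot] {ν' : Measure W} [IsFiniteMeasure ν] [IsFiniteMeasure ν']
    (h : WT L μ ν) (h' : WT L μ ν') : ν = ν' := by
  exact ext_of_forall_integral_eq_of_IsFiniteMeasure fun f => tendsto_nhds_unique (h f) (h' f)

/-- Weak convergence with a converging parameter. -/
theorem WT.param {T : Type} [TopologicalSpace T] [PolishSpace T]
    [∀ i, IsProbabilityMeasure (μ i)] [IsProbabilityMeasure ν] (h : WT L μ ν)
    {t : ℕ → T} {t₀ : T} (ht : Tendsto t L (𝓝 t₀)) (f : (T × W) →ᵇ ℝ) :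
    Tendsto (fun i => ∫ x, f (t i, x) ∂μ i) L (𝓝 (∫ x, f (t₀, x) ∂ν)) := by
  borelize T
  have h1 := ((continuous_diracProba (X := T)).tendsto t₀).comp ht
  have h2 := (ProbabilityMeasure.continuous_prod.tendsto _).comp (h1.prodMk_nhds (weak_aux1 h))
  have h3 := ProbabilityMeasure.tendsto_iff_forall_integral_tendsto.1 h2 f
  have e : ∀ (a : T) (m : Measure W) [IsProbabilityMeasure m],
      ∫ x, f x ∂(Measure.dirac a).prod m = ∫ x, f (a, x) ∂m := by
    intro a m _
    rw [Measure.dirac_prod]
    exact integral_map measurable_prodMk_left.aemeasurable f.continuous.aestronglyMeasurable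
  rw [← e]
  refine h3.congr fun i => ?_
  exact e _ _

/-- Two finite measures with the same integrals of compactly supported functions agree. -/
theorem ext_cc [LocallyCompactSpace W] {ν ν' : Measure W} [IsFiniteMeasure ν] [IsFiniteMeasure ν']
    (h : ∀ f : W →ᵇ ℝ, HasCompactSupport f → ∫ x, f x ∂ν = ∫ x, f x ∂ν') : ν = ν' := by
  exact Measure.ext_of_integral_eq_on_compactlySupported fun f =>
    h f.toBoundedContinuousFunction f.hasCompactSupport

theorem isClosed_Stab {H : Type} [Group H] [TopologicalSpace H] [FirstCountableTopology H]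
    [MulAction H W] [ContinuousSMul H W] (ρ : Measure W) [IsFiniteMeasure ρ] :
    IsClosed (Stab H ρ : Set H) := by
  have e : ∀ (g : H) (f : W →ᵇ ℝ), ∫ x, f x ∂ρ.map (fun w => g • w) = ∫ x, f (g • x) ∂ρ :=
    fun g f => integral_map (continuous_const_smul g).measurable.aemeasurable
      f.continuous.aestronglyMeasurable
  have h1 : (Stab H ρ : Set H) = ⋂ f : W →ᵇ ℝ, {g | ∫ x, f (g • x) ∂ρ = ∫ x, f x ∂ρ} := by
    ext g
    simp only [SetLike.mem_coe, mem_Stab, Set.mem_iInter, Set.mem_ofPred_eq]
    constructor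
    · intro hg f
      rw [← e, hg]
    · intro hg
      exact ext_of_forall_integral_eq_of_IsFiniteMeasure fun f => by rw [e, hg]
  rw [h1]
  refine isClosed_iInter fun f => isClosed_eq ?_ continuous_const
  refine continuous_of_dominated (bound := fun _ => ‖f‖) (fun g => ?_) (fun g => ?_)
    (integrable_const _) ?_
  · exact (f.continuous.comp (continuous_const_smul g)).aestronglyMeasurable
  · exact Eventually.of_forall fun x => f.norm_coe_le_norm _
  · exact Eventually.of_forall fun x => f.continuous.comp (continuous_id.smul continuous_const)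

end Pool.Agent.EQ
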