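import Pool.Agent.P.MP_ad7a55_nt.XLb
import Pool.Agent.P.MP_ad7a55_nt.TGa
import Pool.Agent.P.MP_ad7a55_nt.VAct
import Pool.Agent.P.MP_ad7a55_nt.VCm
import Pool.Agent.P.MP_ad7a55_nt.VGal
import Pool.Agent.P.MP_ad7a55_nt.VWr

/-! Directions of complex multiplication points and moves by ideals. -/

set_option autoImplicit false

noncomputable section

open MeasureTheory Topology Filter UpperHalfPlane
open scoped MatrixGroups BoundedContinuousFunction Matrix Classical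

namespace Pool.Agent.EQ

theorem exists_fr (w : ℂ) : ∃ τ : ℍ, τ ∈ ModularGroup.fd ∧ jInv τ = w := by
  obtain ⟨τ, rfl⟩ := jInv_surj w
  obtain ⟨γ, hγ⟩ := ModularGroup.exists_smul_mem_fd τ
  exact ⟨γ • τ, hγ, jInv_smul γ τ⟩

/-- A point of the fundamental domain with given invariant. -/
def fr (w : ℂ) : ℍ := (exists_fr w).choose

/-- `Ω` is the matrix of multiplication by `th E`. -/
def Om (E : ℤ) (τ : ℍ) (Ω : M2) : Prop := ∀ v, ev τ (Ω *ᵥ v) = th E * ev τ v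

/-- The matrix of multiplication by `th E`. -/
def om (E : ℤ) (τ : ℍ) : M2 := if h : ∃ Ω, Om E τ Ω then h.choose else 0

/-- The matrix of multiplication by `th E + b`. -/
def AA (E b : ℤ) (τ : ℍ) : M2 := om E τ + b • (1 : M2)

/-- `E` is a square multiple of `D`. -/
def Fit (E D : ℤ) : Prop := ∃ f : ℕ, 0 < f ∧ E = f ^ 2 * D

/-- An isogeny of degree `d`. -/
def Ig (d : ℕ) (a b : ℂ) : Prop := ∃ (t : ℍ) (η : M2), η.det = d ∧ jInv (act η t) = a ∧ jInv t = b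

/-- The full Galois orbit of the invariants. -/
def Orb {n : ℕ} (τ : Fin n → ℍ) : Finset (Fin n → ℂ) := fO (galO ⊥ fun k => jInv (τ k))

variable {τ τ' : ℍ} {D D' E b : ℤ} {η η' : M2} {n d : ℕ}

theorem fr_spec (w : ℂ) : fr w ∈ ModularGroup.fd ∧ jInv (fr w) = w := (exists_fr w).choose_spec

theorem ev_adj (h : 0 < η.det) (τ : ℍ) (w : V2) :
    ev τ (η.adjugate *ᵥ w) = ((η 1 0 : ℂ) * τ + η 1 1) * ev (act η τ) w := by
  have e := vact_den_mul h τ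
  rw [tga_ev_mul, Matrix.adjugate_fin_two]
  simp only [ev, Matrix.of_apply, Matrix.cons_val', Matrix.cons_val_zero, Matrix.cons_val_one,
    Matrix.cons_val_fin_one]
  push_cast
  linear_combination (w 1 : ℂ) * e

theorem xaa_ev_smul (τ : ℍ) (η : M2) (x : ℤ) (v : V2) :
    ev τ ((x • η) *ᵥ v) = x * ev τ (η *ᵥ v) := by
  simp only [tga_ev_mul, Matrix.smul_apply, smul_eq_mul]
  push_cast
  ring

theorem xaa_ev_act (h : 0 < η.det) (τ : ℍ) (w : V2) :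
    ((η 1 0 : ℂ) * τ + η 1 1) * ev (act η τ) (η *ᵥ w) = η.det * ev τ w := by
  rw [← ev_adj h, Matrix.mulVec_mulVec, Matrix.adjugate_mul, xaa_ev_smul, Matrix.one_mulVec]

theorem xaa_adj_act (h : 0 < η.det) (τ : ℍ) : act η.adjugate (act η τ) = τ := by
  rw [← act_mul (by rwa [xla_det_adj]) h, Matrix.adjugate_mul, act_smul (by simp) h.ne', act_one]

theorem xaa_cop (hc : IsCoprime (n : ℤ) (2 * E)) (hb : (n : ℤ) ∣ b ^ 2 - E) :
    IsCoprime (2 * b) (n : ℤ) := by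
  obtain ⟨k, hk⟩ := hb
  obtain ⟨u, v, e⟩ := hc
  exact ⟨v * b, u - 2 * v * k, by linear_combination e + 2 * v * hk⟩

theorem xaa_has {c : ℂ} (hc : c ≠ 0) (h : DiscL (sp c (c * τ)) D) : HasDisc τ D := by
  obtain ⟨c', t, hc', e, h⟩ := h
  obtain ⟨γ, rfl, -⟩ := exists_SL_of_sp_eq hc' hc e.symm
  exact h.smul γ

theorem xaa_isD (h : IsD D) (hd : 0 < d) : IsD (d ^ 2 * D) := by
  refine ⟨mul_neg_of_pos_of_neg (by positivity) h.1, ?_⟩
  obtain ⟨k, hk | hk⟩ := Int.even_or_odd' (d : ℤ)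
  · rw [hk, show (2 * k) ^ 2 * D = 4 * (k ^ 2 * D) by ring]
    omega
  · rw [hk, show (2 * k + 1) ^ 2 * D = D + 4 * ((k ^ 2 + k) * D) by ring]
    have := h.2
    omega

theorem xaa_mem {x : ℂ} : x ∈ sp 1 τ ↔ ∃ v, x = ev τ v := by
  rw [mem_sp]
  constructor
  · rintro ⟨a, c, rfl⟩
    exact ⟨![a, -c], by simp [ev]⟩
  · rintro ⟨v, rfl⟩
    exact ⟨v 0, -v 1, by rw [ev]; push_cast; ring⟩

theorem xaa_discL (hE : E < 0) (hn : 0 < n) (hc : IsCoprime (n : ℤ) (2 * E))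
    (hb : (4 * n : ℤ) ∣ b ^ 2 - E) : DiscL (sp n ((-b + th E) / 2)) E := by
  obtain ⟨c, h⟩ := hb
  have h1 := discL_fac (m := n) hE (by exact_mod_cast hn) h hc.of_mul_right_right
  rwa [Int.cast_natCast] at h1

theorem HasDisc.tauTh (h : HasDisc τ D) : ∃ Θ, TauTh D τ Θ := by
  obtain ⟨A, B, C, h1, h2, h3, h4⟩ := h
  exact ⟨_, A, B, C, h1, h2, h4.symm, h3, rfl⟩

theorem om_eq {Θ : M2} (h : TauTh D τ Θ) (f : ℕ) : om (f ^ 2 * D) τ = (f : ℤ) • Θ := by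
  have hO : Om (f ^ 2 * D) τ ((f : ℤ) • Θ) := fun v => by
    rw [xaa_ev_smul, h.mul, th_mul_sq]
    push_cast
    ring
  have hex : ∃ Ω, Om (f ^ 2 * D) τ Ω := ⟨_, hO⟩
  rw [om, dif_pos hex]
  exact tga_mat_ext fun v => by rw [hex.choose_spec v, hO v]

theorem Fit.trans {E' : ℤ} (h : Fit E E') (h' : Fit E' D) : Fit E D := by
  obtain ⟨f, hf, rfl⟩ := h
  obtain ⟨g, hg, rfl⟩ := h'
  exact ⟨f * g, Nat.mul_pos hf hg, by push_cast; ring⟩

theorem fit_sq (hd : 0 < d) (D : ℤ) : Fit (d ^ 2 * D) D := by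
  exact ⟨d, hd, rfl⟩

theorem AA_ev (h : HasDisc τ D) (hf : Fit E D) (b : ℤ) (v : V2) :
    ev τ (AA E b τ *ᵥ v) = (th E + b) * ev τ v := by
  obtain ⟨f, -, rfl⟩ := hf
  obtain ⟨Θ, hΘ⟩ := h.tauTh
  rw [AA, om_eq hΘ, tga_ev_comb, hΘ.mul, Matrix.one_mulVec, th_mul_sq]
  push_cast
  ring

theorem AA_det (h : HasDisc τ D) (hf : Fit E D) (b : ℤ) :
    (AA E b τ).det = b ^ 2 - E ∧ (AA E b τ).trace = 2 * b := by
  obtain ⟨f, -, rfl⟩ := hf
  obtain ⟨Θ, hΘ⟩ := h.tauTh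
  rw [AA, om_eq hΘ]
  obtain ⟨A, B, C, -, -, rfl, -, rfl⟩ := hΘ
  rw [Matrix.det_fin_two, Matrix.trace_fin_two]
  simp [Th, Matrix.intCast_apply]
  constructor <;> ring

theorem AA_line (h : HasDisc τ D) (hf : Fit E D) (hn : 0 < n) (hc : IsCoprime (n : ℤ) (2 * E))
    (hb : (n : ℤ) ∣ b ^ 2 - E) : IsLn n (Ker n (AA E b τ)) := by
  obtain ⟨h1, h2⟩ := AA_det h hf b
  exact isLn_Ker hn (by rw [h1]; exact hb) (by rw [h2]; exact xaa_cop hc hb)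

theorem AA_com (h : HasDisc τ D) (hf : Fit E D) (hη : 0 < η.det) (h' : HasDisc (act η τ) D')
    (hf' : Fit E D') (b : ℤ) : η * AA E b τ = AA E b (act η τ) * η := by
  refine tga_mat_ext (τ := act η τ) fun v => mul_left_cancel₀ (act_den hη τ) ?_
  rw [← Matrix.mulVec_mulVec, ← Matrix.mulVec_mulVec, xaa_ev_act hη, AA_ev h hf, AA_ev h' hf']
  linear_combination (-(th E + b)) * xaa_ev_act hη τ v

theorem iso_unique (h : HasDisc τ D) (hn : 0 < n) (h₁ : η.det = n) (h₂ : η'.det = n)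
    (hb : 4 * (n : ℤ) ^ 2 < -D) (e : jInv (act η τ) = jInv (act η' τ)) :
    ∃ γ : SL(2, ℤ), η' = (γ : M2) * η := by
  have hn' : (0 : ℤ) < n := by exact_mod_cast hn
  have p₁ : 0 < η.det := by rwa [h₁]
  have p₂ : 0 < η'.det := by rwa [h₂]
  obtain ⟨γ, hγ⟩ := jInv_inj e
  have d1 : ((γ : M2) * η).det = n := by rw [Matrix.det_mul, γ.det_coe, one_mul, h₁]
  have d2 : (η'.adjugate * ((γ : M2) * η)).det = n ^ 2 := by
    rw [Matrix.det_mul, d1, xla_det_adj, h₂, sq]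
  have d3 : act (η'.adjugate * ((γ : M2) * η)) τ = τ := by
    rw [act_mul (by rwa [xla_det_adj]) (by rwa [d1]), act_mul (vact_SL_det γ) p₁, act_SL, ← hγ,
      xaa_adj_act p₂]
  have d4 : η' * (η'.adjugate * ((γ : M2) * η)) = (n : ℤ) • ((γ : M2) * η) := by
    rw [← mul_assoc, Matrix.mul_adjugate, h₂, smul_mul_assoc, one_mul]
  obtain ⟨k1, k2, k3⟩ := h.scalar (by rw [d2]; positivity) (by rwa [d2]) d3
  generalize η'.adjugate * ((γ : M2) * η) = ζ at d2 d4 k1 k2 k3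
  have d5 : ζ = ζ 0 0 • (1 : M2) := by
    ext i j
    fin_cases i <;> fin_cases j <;> simp [k1, k2, k3]
  rw [Matrix.det_fin_two, k1, ← k3, zero_mul, sub_zero, ← sq] at d2
  rw [d5, mul_smul_comm, mul_one] at d4
  rcases sq_eq_sq_iff_eq_or_eq_neg.1 d2 with k | k
  · rw [k] at d4
    exact ⟨γ, xla_cancel hn'.ne' d4⟩
  · refine ⟨-γ, xla_cancel hn'.ne' ?_⟩
    rw [Matrix.SpecialLinearGroup.coe_neg, neg_mul, smul_neg, ← d4, k, neg_zsmul, neg_neg]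

theorem act_disc (h : HasDisc τ D) (hd : 0 < d) (hη : η.det = d) :
    ∃ D', HasDisc (act η τ) D' ∧ Fit (d ^ 2 * D) D' ∧ -D ≤ (d : ℤ) ^ 2 * -D' := by
  have p : 0 < η.det := by rw [hη]; exact_mod_cast hd
  have hn : ((d : ℕ) : ℂ) = (η 0 0 : ℂ) * η 1 1 - η 0 1 * η 1 0 := by
    rw [← Int.cast_natCast, ← hη, Matrix.det_fin_two]
    push_cast
    rfl
  obtain ⟨D', h1, h2, h3⟩ := disc_between (discL_one h) hd
    (Λ' := sp ((η 1 0 : ℂ) * τ + η 1 1) (((η 1 0 : ℂ) * τ + η 1 1) * act η τ))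
    (by
      rw [vact_den_mul p, pr_mul_sp, hn]
      exact sp_le_iff_lat.2 ⟨mem_sp.2 ⟨η 0 0, -η 1 0, by push_cast; ring⟩,
        mem_sp.2 ⟨-η 0 1, η 1 1, by push_cast; ring⟩⟩)
    (by
      rw [vact_den_mul p]
      exact sp_le_iff_lat.2 ⟨mem_sp.2 ⟨η 1 1, η 1 0, by ring⟩, mem_sp.2 ⟨η 0 1, η 0 0, by ring⟩⟩)
  exact ⟨D', xaa_has (act_den p τ) h1, exists_cond h1.isD (xaa_isD h.isD hd) h2, h3⟩

theorem disc_of_gal (h : HasDisc τ D) (hD : D < -576) {σ : ℂ ≃+* ℂ} (e : jInv τ' = σ (jInv τ)) :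
    HasDisc τ' D := by
  have h1 := disc_gal σ hD (discL_one h) (isLat_one τ') (by rw [jL_one, jL_one, e])
  exact xaa_has one_ne_zero (by rwa [one_mul])

theorem Ig.symm {x y : ℂ} (hd : 0 < d) (h : Ig d x y) : Ig d y x := by
  obtain ⟨t, η, h1, h2, h3⟩ := h
  have p : 0 < η.det := by rw [h1]; exact_mod_cast hd
  exact ⟨act η t, η.adjugate, by rw [xla_det_adj, h1], by rw [xaa_adj_act p, h3], h2⟩

theorem Ig.trans {d' : ℕ} {x y z : ℂ} (hd : 0 < d) (hd' : 0 < d') (h : Ig d x y) (h' : Ig d' y z) :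
    Ig (d * d') x z := by
  obtain ⟨t, η, h1, h2, h3⟩ := h
  obtain ⟨t', η', h4, h5, h6⟩ := h'
  have p : 0 < η.det := by rw [h1]; exact_mod_cast hd
  have p' : 0 < η'.det := by rw [h4]; exact_mod_cast hd'
  obtain ⟨γ, rfl⟩ := jInv_inj (h5.trans h3.symm)
  have d1 : ((γ : M2) * η').det = d' := by rw [Matrix.det_mul, γ.det_coe, one_mul, h4]
  refine ⟨t', η * ((γ : M2) * η'), by rw [Matrix.det_mul, d1, h1, Nat.cast_mul], ?_, h6⟩
  rw [act_mul p (by rw [d1]; exact_mod_cast hd'), act_mul (vact_SL_det γ) p', act_SL, h2]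

theorem Ig.isog {x y : ℂ} (hd : 0 < d) (h : Ig d x y) : Isog d x y := by
  obtain ⟨t, η, h1, rfl, rfl⟩ := h
  have h2 := isog_act (ξ := η) (by rw [h1]; exact_mod_cast hd) t
  rwa [h1, Int.natAbs_natCast] at h2

theorem Isog.ig {x y : ℂ} (hd : 0 < d) (h : Isog d x y) : ∃ d', 0 < d' ∧ d' ≤ d ^ 2 ∧ Ig d' x y := by
  obtain ⟨t', rfl⟩ := jInv_surj x
  obtain ⟨t, rfl⟩ := jInv_surj y
  obtain ⟨ξ, h1, h2, rfl⟩ := h.exists_act hd
  have h3 : ξ.det = ξ.det.natAbs := (Int.natAbs_of_nonneg h1.le).symm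
  refine ⟨ξ.det.natAbs, Int.natAbs_pos.2 h1.ne', ?_, t, ξ, h3, rfl, rfl⟩
  rw [h3] at h2
  exact Nat.le_of_dvd (by positivity) (by exact_mod_cast h2)

theorem Ig.exists_Hn {x : ℂ} (hd : 0 < d) (h : Ig d x (jInv τ)) :
    ∃ g ∈ Hn d, jInv (act g τ) = x := by
  obtain ⟨t, η, h1, rfl, h3⟩ := h
  have p : 0 < η.det := by rw [h1]; exact_mod_cast hd
  obtain ⟨γ, rfl⟩ := jInv_inj h3.symm
  obtain ⟨γ', g, hg, e⟩ := Pool.Agent.EQ.exists_Hn (η := η * (γ : M2)) hd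
    (by rw [Matrix.det_mul, γ.det_coe, mul_one, h1])
  refine ⟨g, hg, ?_⟩
  rw [← act_SL, ← act_mul p (vact_SL_det γ), e,
    act_mul (vact_SL_det γ') (by rw [(mem_Hn hg).2]; exact_mod_cast hd), act_SL, jInv_smul]

theorem lat_move (h : HasDisc τ D) (hf : Fit E D) (hn : 0 < n) (hc : IsCoprime (n : ℤ) (2 * E))
    (hb : (4 * n : ℤ) ∣ b ^ 2 - E) (hη : η.det = n) (hk : Ker n (AA E b τ) ⊆ Ker n η) :
    jInv (act η τ) = jL (sp n ((-b + th E) / 2) * sp 1 τ) := by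
  have p : 0 < η.det := by rw [hη]; exact_mod_cast hn
  have hb' : (n : ℤ) ∣ b ^ 2 - E := (Dvd.intro_left _ rfl).trans hb
  have hK := (AA_line h hf hn hc hb').eq_Ker hn hη hk
  have hn' : (n : ℂ) ≠ 0 := by exact_mod_cast hn.ne'
  rw [← jL_sp (act_den p τ) (act η τ)]
  refine congrArg jL ?_
  have hL : ∀ x, x ∈ sp ((η 1 0 : ℂ) * τ + η 1 1) (((η 1 0 : ℂ) * τ + η 1 1) * act η τ) ↔
      x ∈ sp 1 τ ∧ ∃ y ∈ sp 1 (τ : ℂ), (th E + b) * x = n * y := fun x => by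
    have e : sp ((η 1 0 : ℂ) * τ + η 1 1) (((η 1 0 : ℂ) * τ + η 1 1) * act η τ) =
        pr ((η 1 0 : ℂ) * τ + η 1 1) * sp 1 (act η τ) := by rw [pr_mul_sp, mul_one]
    rw [e, mem_pr_mul]
    constructor
    · rintro ⟨w, hw, rfl⟩
      obtain ⟨w, rfl⟩ := xaa_mem.1 hw
      rw [← ev_adj p]
      have h1 : η.adjugate *ᵥ w ∈ Ker n (AA E b τ) := hK ▸ (mem_Ker_adj hn hη).2 ⟨w, rfl⟩
      choose u hu using h1
      refine ⟨xaa_mem.2 ⟨_, rfl⟩, _, xaa_mem.2 ⟨u, rfl⟩, ?_⟩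
      rw [← AA_ev h hf, ev, hu, hu, ev]
      push_cast
      ring
    · rintro ⟨h1, y, h2, h3⟩
      obtain ⟨v, rfl⟩ := xaa_mem.1 h1
      obtain ⟨u, rfl⟩ := xaa_mem.1 h2
      have h4 : AA E b τ *ᵥ v = fun i => n * u i := by
        refine tga_ev_inj (τ := τ) ?_
        rw [AA_ev h hf, h3, ev, ev]
        push_cast
        ring
      have h5 : v ∈ Ker n η := by
        rw [hK]
        intro i
        rw [h4]
        exact Dvd.intro _ rfl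
      obtain ⟨w, rfl⟩ := (mem_Ker_adj hn hη).1 h5
      exact ⟨_, xaa_mem.2 ⟨w, rfl⟩, (ev_adj p τ w).symm⟩
  obtain ⟨c, hc'⟩ := hb
  have hE : E < 0 := by
    obtain ⟨f, hf0, rfl⟩ := hf
    exact (xaa_isD h.isD hf0).1
  have hβ : ((-b + th E) / 2 : ℂ) ∈ OD D := by
    have h1 := beta_mem_fac (D := E) (b := b) (k := n * c) (by rw [hc']; ring)
    obtain ⟨f, -, rfl⟩ := hf
    exact OD_sq_le h.isD f h1
  refine le_antisymm (fun x hx => ?_) (Submodule.mul_le.2 fun a ha x hx => ?_)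
  · obtain ⟨h1, y, h2, h3⟩ := (hL x).1 hx
    refine mem_of_coprime_fac (xaa_cop hc hb') ?_ ?_
    · have h4 := Submodule.sub_mem _ (Submodule.mul_mem_mul (left_mem_sp_fac (n : ℂ) _) h2)
        (int_mul_mem_fac 2 (Submodule.mul_mem_mul (right_mem_sp_fac _ ((-b + th E) / 2)) h1))
      have e : ((2 * b : ℤ) : ℂ) * x = n * y - (2 : ℤ) * ((-b + th E) / 2 * x) := by
        push_cast
        linear_combination h3
      rwa [e]
    · rw [Int.cast_natCast]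
      exact Submodule.mul_mem_mul (left_mem_sp_fac _ _) h1
  · obtain ⟨r, s, rfl⟩ := mem_sp.1 ha
    rw [add_mul ((r : ℂ) * n), mul_assoc (r : ℂ), mul_assoc (s : ℂ)]
    refine Submodule.add_mem _ (int_mul_mem_fac r ((hL _).2 ?_)) (int_mul_mem_fac s ((hL _).2 ?_))
    · have h1 := int_mul_mem_fac (n : ℤ) hx
      rw [Int.cast_natCast] at h1
      obtain ⟨v, rfl⟩ := xaa_mem.1 hx
      exact ⟨h1, _, xaa_mem.2 ⟨AA E b τ *ᵥ v, rfl⟩, by rw [AA_ev h hf]; ring⟩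
    · refine ⟨pr_mul_le.1 (((discL_one h).end_iff _).2 hβ) x hx, _,
        int_mul_mem_fac (-2 * c) hx, ?_⟩
      have e1 := th_sq hE.le
      have e2 : (b : ℂ) ^ 2 - E = 4 * n * c := by exact_mod_cast hc'
      push_cast
      linear_combination (x / 2) * e1 - (x / 2) * e2

theorem Acts.move {σ : ℂ ≃+* ℂ} (hσ : σ (th E) = th E) (hn : 0 < n)
    (hc : IsCoprime (n : ℤ) (2 * E)) (hb : (4 * n : ℤ) ∣ b ^ 2 - E)
    (ha : Acts σ E (sp n ((-b + th E) / 2))) (h : HasDisc τ D) (hD : D < -576) (hf : Fit E D)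
    (hη : η.det = n) (hk : Ker n (AA E b τ) ⊆ Ker n η) : σ (jInv τ) = jInv (act η τ) := by
  rw [lat_move h hf hn hc hb hη hk, ← jL_one]
  obtain ⟨f, hf0, rfl⟩ := hf
  have h1 : σ (th D) = th D := by
    rw [th_mul_sq, map_mul, map_natCast] at hσ
    exact mul_left_cancel₀ (by exact_mod_cast hf0.ne') hσ
  exact Acts.up hD h.isD h1 hf0 (xaa_discL (xaa_isD h.isD hf0).1 hn hc hb) ha _ (discL_one h)

theorem cm_one (hE : E < -576) (hn : 0 < n) (hc : IsCoprime (n : ℤ) (2 * E))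
    (hb : (4 * n : ℤ) ∣ b ^ 2 - E) : ∃ σ : ℂ ≃+* ℂ, ∀ (τ : ℍ) (D : ℤ) (η : M2), HasDisc τ D →
      D < -576 → Fit E D → η.det = n → Ker n (AA E b τ) ⊆ Ker n η →
      σ (jInv τ) = jInv (act η τ) := by
  obtain ⟨σ, h1, h2⟩ := acts_surj hE (xaa_discL (by omega) hn hc hb)
  exact ⟨σ, fun τ D η h hD hf hη hk => Acts.move h1 hn hc hb h2 h hD hf hη hk⟩

variable {m : ℕ} {t : Fin m → ℍ} {Dk : Fin m → ℤ} {x : Fin m → ℂ}

theorem mem_Orb (h : ∀ k, HasDisc (t k) (Dk k)) :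
    x ∈ Orb t ↔ ∃ σ : ℂ ≃+* ℂ, x = fun k => σ (jInv (t k)) := by
  have hfin : (galO ⊥ fun k => jInv (t k)).Finite := by
    refine (Set.Finite.pi' fun k => finite_orbit (discL_one (h k))).subset ?_
    rintro _ ⟨σ, -, rfl⟩ k
    exact ⟨σ, by rw [jL_one]⟩
  rw [Orb, mem_fO hfin]
  refine ⟨fun ⟨σ, _, e⟩ => ⟨σ, e⟩, fun ⟨σ, e⟩ => ⟨σ, fun a ha => ?_, e⟩⟩
  obtain ⟨q, rfl⟩ := IntermediateField.mem_bot.1 ha
  rw [eq_ratCast, map_ratCast]

theorem Orb_ne (h : ∀ k, HasDisc (t k) (Dk k)) : (Orb t).Nonempty := by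
  exact ⟨_, (mem_Orb h).2 ⟨RingEquiv.refl ℂ, rfl⟩⟩

theorem Orb_map (h : ∀ k, HasDisc (t k) (Dk k)) (hx : x ∈ Orb t) (σ : ℂ ≃+* ℂ) :
    (fun k => σ (x k)) ∈ Orb t := by
  obtain ⟨σ', rfl⟩ := (mem_Orb h).1 hx
  exact (mem_Orb h).2 ⟨σ'.trans σ, rfl⟩

theorem Orb_disc (h : ∀ k, HasDisc (t k) (Dk k)) (hx : x ∈ Orb t) {k : Fin m}
    (hk : Dk k < -576) : HasDisc (fr (x k)) (Dk k) := by
  obtain ⟨σ, rfl⟩ := (mem_Orb h).1 hx
  exact disc_of_gal (h k) hk (fr_spec _).2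

end Pool.Agent.EQ
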