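import Pool.Agent.P.MP_ad7a55_nt.XLb
import Pool.Agent.P.MP_ad7a55_nt.VCj
import Pool.Agent.P.MP_ad7a55_nt.VWr

/-! Hecke operators on modular functions of level N and reciprocity along isogenies. -/

set_option autoImplicit false

noncomputable section

open MeasureTheory Topology Filter UpperHalfPlane
open scoped MatrixGroups BoundedContinuousFunction Matrix Classical

namespace Pool.Agent.EQ

variable {N : ℕ} {L : IntermediateField ℚ ℂ}

theorem QS.heck (hN : 0 < N) {h : ℍ → ℂ} (hf : QS N L h) {a d : ℕ} (ha : 0 < a) (hd : 0 < d)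
    (w : ℕ → ℍ → ℍ) (hw : ∀ (b : ℕ) (τ : ℍ), (w b τ : ℂ) = (a * τ + N * b) / d) :
    QS N L fun τ => ∑ b ∈ Finset.range d, h (w b τ) := by
  obtain ⟨c, hc, hc'⟩ := hf
  refine vqs_exp ha (c := fun r => d * c (d * r))
    (fun r => mul_mem (natCast_mem L d) (hc _)) fun τ => ?_
  have hd0 : (d : ℂ) ≠ 0 := Nat.cast_ne_zero.2 hd.ne'
  have hN0 : (N : ℂ) ≠ 0 := Nat.cast_ne_zero.2 hN.ne'
  have hζ := Complex.isPrimitiveRoot_exp d hd.ne'
  obtain ⟨ζ, eζ⟩ : ∃ ζ, ζ = Complex.exp (2 * Real.pi * Complex.I / d) := ⟨_, rfl⟩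
  obtain ⟨x, hx⟩ : ∃ x, x = Complex.exp (2 * Real.pi * Complex.I * (a * τ) / (d * N)) := ⟨_, rfl⟩
  have h1 : ∀ b : ℕ, qN N (w b τ) = x * ζ ^ b := fun b => by
    rw [qN, hw, hx, eζ, ← Complex.exp_nat_mul, ← Complex.exp_add]
    congr 1
    field_simp
  have h2 : x ^ d = qN N τ ^ a := by
    rw [qN, hx, ← Complex.exp_nat_mul, ← Complex.exp_nat_mul]
    congr 1
    field_simp
  rw [← eζ] at hζ
  have h3 := hasSum_sum (s := Finset.range d) fun (b : ℕ) _ => hc' (w b τ)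
  have h4 : ∀ r, ∑ b ∈ Finset.range d, c r * qN N (w b τ) ^ r =
      c r * x ^ r * ∑ i : Fin d, (ζ ^ (i : ℕ)) ^ r := fun r => by
    rw [Finset.mul_sum, Finset.sum_range]
    exact Finset.sum_congr rfl fun i _ => by rw [h1, mul_pow, mul_assoc]
  simp only [h4] at h3
  have hi : Function.Injective fun r : ℕ => d * r := mul_right_injective₀ hd.ne'
  have h5 := (hi.hasSum_iff fun r hr => by
    rw [intq_root_sum hζ fun ⟨k, hk⟩ => hr ⟨k, hk.symm⟩, mul_zero]).2 h3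
  refine iq2_congr h5 fun r => ?_
  have h6 : ∀ i : Fin d, (ζ ^ (i : ℕ)) ^ (d * r) = 1 := fun i => by
    rw [← pow_mul, mul_left_comm, pow_mul, hζ.pow_eq_one, one_pow]
  simp only [Function.comp_apply, h6, pow_mul x, h2, Finset.sum_const, Finset.card_univ,
    Fintype.card_fin, nsmul_eq_mul, mul_one]
  ring

theorem QS.heck' (hN : 0 < N) {g : ℍ → ℂ} {m : ℕ}
    (hf : QS N L fun τ => ModularForm.discriminant τ ^ m * g τ) {a d : ℕ} (ha : 0 < a)
    (hd : 0 < d) (w : ℕ → ℍ → ℍ) (hw : ∀ (b : ℕ) (τ : ℍ), (w b τ : ℂ) = (a * τ + N * b) / d) :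
    QS N L fun τ => ModularForm.discriminant τ ^ (m * (a * d)) *
      ∑ b ∈ Finset.range d, g (w b τ) := by
  have h1 : IntQ fun τ => ((1 : ℤ) : ℂ) / (ModularForm.discriminant τ / qq τ) :=
    (intQ_int 1).iq2_div intQ_disc_div iq2_disc_div_tendsto iq2_disc_div_ne
  obtain ⟨e, rfl⟩ : ∃ e, d = e + 1 := ⟨d - 1, by omega⟩
  have h2 : QS N L fun τ => qq τ ^ (m * (e + 1)) * g τ := by
    refine vmf_congr ((hf.mul hN ((h1.pow m).qs hN)).mul hN ((intQ_qq.pow (m * e)).qs hN))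
      fun τ => ?_
    have h3 := ModularForm.discriminant_ne_zero τ
    have h4 : ModularForm.discriminant τ ^ m *
        (((1 : ℤ) : ℂ) / (ModularForm.discriminant τ / qq τ)) ^ m = qq τ ^ m := by
      rw [← mul_pow, Int.cast_one, one_div_div, mul_div_cancel₀ _ h3]
    rw [mul_add, mul_one, pow_add, ← h4]
    ring
  have h5 := QS.heck hN h2 ha hd w hw
  have h6 : ∀ (b : ℕ) (τ : ℍ), qq (w b τ) ^ (m * (e + 1)) = qq τ ^ (m * a) := fun b τ => by
    have hd0 : ((e + 1 : ℕ) : ℂ) ≠ 0 := Nat.cast_ne_zero.2 hd.ne'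
    rw [qq, qq, hw, ← Complex.exp_nat_mul, ← Complex.exp_nat_mul, Complex.exp_eq_exp_iff_exists_int]
    refine ⟨(m * N * b : ℕ), ?_⟩
    rw [Nat.cast_mul m (e + 1)]
    field_simp
    push_cast
    ring
  refine vmf_congr ((((intQ_disc_div.pow (m * (a * (e + 1)))).qs hN).mul hN
    ((intQ_qq.pow (m * a * e)).qs hN)).mul hN h5) fun τ => ?_
  have h7 := iq2_qq_ne τ
  have h8 : ModularForm.discriminant τ ^ (m * (a * (e + 1))) =
      (ModularForm.discriminant τ / qq τ) ^ (m * (a * (e + 1))) * qq τ ^ (m * (a * (e + 1))) := by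
    rw [← mul_pow, div_mul_cancel₀ _ h7]
  simp only [h6]
  rw [← Finset.mul_sum, h8]
  ring

/-- A representative of the class of `h` congruent to `W`. -/
def lf (N : ℕ) (W h : M2) : M2 :=
  if e : ∃ γ : SL(2, ℤ), ∀ i j, (N : ℤ) ∣ ((γ : M2) * h - W) i j then (e.choose : M2) * h else h

/-- The Hecke operator. -/
def TW (N n : ℕ) (W : M2) (f : ℍ → ℂ) (τ : ℍ) : ℂ := ∑ h ∈ Hn n, f (act (lf N W h) τ)

variable {n : ℕ} {W η : M2} {f : ℍ → ℂ}

theorem lf_spec (hN : 0 < N) (hc : n.Coprime N) (hW : (N : ℤ) ∣ W.det - n) {h : M2}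
    (hh : h.det = n) :
    ∃ γ : SL(2, ℤ), lf N W h = (γ : M2) * h ∧ ∀ i j, (N : ℤ) ∣ (lf N W h - W) i j := by
  have e : ∃ γ : SL(2, ℤ), ∀ i j, (N : ℤ) ∣ ((γ : M2) * h - W) i j := by
    obtain ⟨u, z, hz⟩ : IsCoprime (n : ℤ) (N : ℤ) := Nat.isCoprime_iff_coprime.2 hc
    obtain ⟨k, hk⟩ := hW
    obtain ⟨γ, hγ⟩ := exists_lift_SL hN (W := u • (W * h.adjugate)) (by
      rw [Matrix.det_smul, Matrix.det_mul, xla_det_adj, Fintype.card_fin, hh]
      exact ⟨u ^ 2 * n * k - z * (u * n + 1), by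
        linear_combination u ^ 2 * n * hk + (u * n + 1) * hz⟩)
    obtain ⟨Y, hY⟩ := (xla_ex (X := (γ : M2) - u • (W * h.adjugate))).1 hγ
    refine ⟨γ, xla_ex.2 ⟨Y * h - z • W, ?_⟩⟩
    have e1 : u * h.det = 1 - N * z := by rw [hh]; linear_combination hz
    rw [sub_eq_iff_eq_add'] at hY
    rw [hY, add_mul, smul_mul_assoc, smul_mul_assoc, mul_assoc, Matrix.adjugate_mul,
      mul_smul_comm, mul_one, smul_smul, e1]
    module
  have e2 : lf N W h = (e.choose : M2) * h := by rw [lf, dif_pos e]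
  exact ⟨e.choose, e2, by rw [e2]; exact e.choose_spec⟩

theorem act_congr (hc : n.Coprime N) (hn : 0 < n) (hf : f ∈ MF N L) (hη : η.det = n)
    {γ : SL(2, ℤ)} (h : ∀ i j, (N : ℤ) ∣ ((γ : M2) * η - η) i j) (τ : ℍ) :
    f (act ((γ : M2) * η) τ) = f (act η τ) := by
  have hs : IsCoprime (n : ℤ) (N : ℤ) := Nat.isCoprime_iff_coprime.2 hc
  obtain ⟨Y, hY⟩ := xla_ex.1 h
  have h1 : (n : ℤ) • ((γ : M2) - 1) = (N : ℤ) • (Y * η.adjugate) := by
    rw [← smul_mul_assoc, ← hY, sub_mul, mul_assoc, Matrix.mul_adjugate, hη, mul_smul_comm,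
      mul_one, smul_sub]
  have h2 : Cg N ((γ : M2) * 1) 1 := fun i j => by
    rw [mul_one, one_smul]
    exact hs.symm.dvd_of_dvd_mul_left (xla_ex.2 ⟨_, h1⟩ i j)
  have h3 : Cg N (1 : M2) 1 := fun i j => by simp
  have h4 := Cg.gamma isCoprime_one_left h3 h2
  have h5 : 0 < η.det := by rw [hη]; exact_mod_cast hn
  rw [act_mul (vact_SL_det γ) h5, act_SL, MF.inv hf h4]

theorem xab_eq (hc : n.Coprime N) (hn : 0 < n) (hf : f ∈ MF N L) (hη : η.det = n)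
    {γ δ : SL(2, ℤ)} {X Y : M2} (hX : X = (γ : M2) * η) (hY : Y = (δ : M2) * η)
    (h1 : ∀ i j, (N : ℤ) ∣ (X - W) i j) (h2 : ∀ i j, (N : ℤ) ∣ (Y - W) i j) (τ : ℍ) :
    f (act X τ) = f (act Y τ) := by
  have e : X = ((γ * δ⁻¹ : SL(2, ℤ)) : M2) * Y := by
    rw [hX, hY, ← mul_assoc, ← Matrix.SpecialLinearGroup.coe_mul, inv_mul_cancel_right]
  have hd : Y.det = n := by rw [hY, Matrix.det_mul, δ.det_coe, one_mul, hη]
  have h3 : ∀ i j, (N : ℤ) ∣ (((γ * δ⁻¹ : SL(2, ℤ)) : M2) * Y - Y) i j := fun i j => by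
    have h4 := (h1 i j).sub (h2 i j)
    rw [← e]
    simpa only [Matrix.sub_apply, sub_sub_sub_cancel_right] using h4
  rw [e]
  exact act_congr hc hn hf hd h3 τ

theorem xab_det {X Y : M2} (h : ∀ i j, (N : ℤ) ∣ (X - Y) i j) : (N : ℤ) ∣ X.det - Y.det := by
  obtain ⟨Z, hZ⟩ := xla_ex.1 h
  rw [sub_eq_iff_eq_add'] at hZ
  rw [hZ, Matrix.det_fin_two, Matrix.det_fin_two]
  simp only [Matrix.add_apply, Matrix.smul_apply, smul_eq_mul]
  exact ⟨Y 0 0 * Z 1 1 + Z 0 0 * Y 1 1 + N * Z 0 0 * Z 1 1 - Y 0 1 * Z 1 0 - Z 0 1 * Y 1 0 -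
    N * Z 0 1 * Z 1 0, by ring⟩

theorem TW_smul (hN : 0 < N) (hn : 0 < n) (hc : n.Coprime N) (hW : (N : ℤ) ∣ W.det - n)
    (hf : f ∈ MF N L) (γ : SL(2, ℤ)) {W' : M2} (h : ∀ i j, (N : ℤ) ∣ (W * (γ : M2) - W') i j)
    (τ : ℍ) : TW N n W f (γ • τ) = TW N n W' f τ := by
  have hW' : (N : ℤ) ∣ W'.det - n := by
    have h1 := xab_det h
    rw [Matrix.det_mul, γ.det_coe, mul_one] at h1
    have h2 := hW.sub h1
    rwa [sub_sub_sub_cancel_left] at h2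
  have key : ∀ x : M2, x ∈ Hn n → ∃ (δ : SL(2, ℤ)) (y : M2), y ∈ Hn n ∧
      x * (γ : M2) = (δ : M2) * y := fun x hx => by
    obtain ⟨δ, y, hy, e⟩ := exists_Hn (η := x * (γ : M2)) hn (by
      rw [Matrix.det_mul, γ.det_coe, mul_one, (mem_Hn hx).2])
    exact ⟨δ, y, hy, e⟩
  choose! δ φ hφ e using key
  have hinj : Set.InjOn φ (Hn n : Set M2) := fun x hx y hy hxy => by
    refine Hn_unique (γ := δ x * (δ y)⁻¹) (Finset.mem_coe.1 hy) (Finset.mem_coe.1 hx) ?_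
    have e1 := e x (Finset.mem_coe.1 hx)
    have e2 := e y (Finset.mem_coe.1 hy)
    have e3 : ∀ z : M2, z = z * (γ : M2) * ((γ⁻¹ : SL(2, ℤ)) : M2) := fun z => by
      rw [mul_assoc, ← Matrix.SpecialLinearGroup.coe_mul, mul_inv_cancel,
        Matrix.SpecialLinearGroup.coe_one, mul_one]
    have e4 : ((δ x * (δ y)⁻¹ : SL(2, ℤ)) : M2) * (y * (γ : M2)) = x * (γ : M2) := by
      rw [e1, e2, ← mul_assoc, ← Matrix.SpecialLinearGroup.coe_mul, inv_mul_cancel_right, hxy]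
    refine (e3 x).trans ?_
    rw [← e4, mul_assoc, ← e3 y]
  have hmap : Set.MapsTo φ (Hn n : Set M2) (Hn n : Set M2) := fun x hx =>
    Finset.mem_coe.2 (hφ x (Finset.mem_coe.1 hx))
  have hsurj : Set.SurjOn φ (Hn n : Set M2) (Hn n : Set M2) :=
    Finset.surjOn_of_injOn_of_card_le φ hmap hinj le_rfl
  unfold TW
  refine Finset.sum_nbij φ hφ hinj hsurj fun x hx => ?_
  obtain ⟨α, a1, a2⟩ := lf_spec hN hc hW (mem_Hn hx).2
  obtain ⟨β, b1, b2⟩ := lf_spec hN hc hW' (mem_Hn (hφ x hx)).2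
  have hpos : 0 < (lf N W x).det := by
    rw [a1, Matrix.det_mul, α.det_coe, one_mul, (mem_Hn hx).2]
    exact_mod_cast hn
  rw [← act_SL γ τ, ← act_mul hpos (vact_SL_det γ)]
  refine xab_eq (W := W') (γ := α * δ x) hc hn hf (mem_Hn (hφ x hx)).2 ?_ b1 ?_ b2 τ
  · rw [a1, mul_assoc, e x hx, Matrix.SpecialLinearGroup.coe_mul, mul_assoc]
  · obtain ⟨Y, hY⟩ := xla_ex.1 a2
    obtain ⟨Z, hZ⟩ := xla_ex.1 h
    refine xla_ex.2 ⟨Y * (γ : M2) + Z, ?_⟩
    rw [smul_add, ← smul_mul_assoc, ← hY, ← hZ, sub_mul, sub_add_sub_cancel]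

theorem xab_sum {ι : Type} (s : Finset ι) {g : ι → ℍ → ℂ}
    (hg : ∀ i ∈ s, QS N L (g i)) : QS N L fun τ => ∑ i ∈ s, g i τ := by
  induction s using Finset.induction_on with
  | empty => simpa using qs_const (N := N) (zero_mem L)
  | insert i s hi ih =>
    simp only [Finset.sum_insert hi]
    exact (hg i (Finset.mem_insert_self i s)).add
      (ih fun k hk => hg k (Finset.mem_insert_of_mem hk))

theorem xab_Hn (F : M2 → ℂ) : ∑ h ∈ Hn n, F h = ∑ p ∈ n.divisorsAntidiagonal,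
    ∑ b ∈ Finset.range p.2, F !![(p.1 : ℤ), (b : ℤ); 0, (p.2 : ℤ)] := by
  rw [Finset.sum_sigma']
  symm
  refine Finset.sum_nbij (fun x => !![(x.1.1 : ℤ), (x.2 : ℤ); 0, (x.1.2 : ℤ)]) ?_ ?_ ?_
    fun _ _ => rfl
  · rintro ⟨⟨a, d⟩, b⟩ hx
    rw [Finset.mem_sigma, Nat.mem_divisorsAntidiagonal, Finset.mem_range] at hx
    exact xla_mem.2 ⟨a, b, d, hx.1.1, hx.1.2, hx.2, rfl⟩
  · rintro ⟨⟨a, d⟩, b⟩ - ⟨⟨a', d'⟩, b'⟩ - hx
    have e00 : (a : ℤ) = a' := congrFun (congrFun hx 0) 0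
    have e01 : (b : ℤ) = b' := congrFun (congrFun hx 0) 1
    have e11 : (d : ℤ) = d' := congrFun (congrFun hx 1) 1
    rw [Nat.cast_inj] at e00 e01 e11
    rw [e00, e01, e11]
  · intro h hh
    obtain ⟨a, b, d, h1, h2, h3, rfl⟩ := xla_mem.1 (Finset.mem_coe.1 hh)
    refine ⟨⟨(a, d), b⟩, Finset.mem_coe.2 ?_, rfl⟩
    rw [Finset.mem_sigma, Nat.mem_divisorsAntidiagonal, Finset.mem_range]
    exact ⟨⟨h1, h2⟩, h3⟩

theorem xab_perm {d : ℕ} (hd : 0 < d) (hc : d.Coprime N) (F : ℕ → ℂ) :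
    ∑ b ∈ Finset.range d, F (N * b % d) = ∑ b ∈ Finset.range d, F b := by
  have hmap : ∀ b ∈ Finset.range d, N * b % d ∈ Finset.range d := fun b _ =>
    Finset.mem_range.2 (Nat.mod_lt _ hd)
  have hinj : Set.InjOn (fun b => N * b % d) (Finset.range d : Set ℕ) := fun x hx y hy hxy => by
    have h1 : x ≡ y [MOD d] := Nat.ModEq.cancel_left_of_coprime hc hxy
    exact Nat.ModEq.eq_of_lt_of_lt h1 (Finset.mem_range.1 (Finset.mem_coe.1 hx))
      (Finset.mem_range.1 (Finset.mem_coe.1 hy))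
  exact Finset.sum_nbij _ hmap hinj (Finset.surjOn_of_injOn_of_card_le _
    (fun b hb => Finset.mem_coe.2 (hmap b (Finset.mem_coe.1 hb))) hinj le_rfl) fun _ _ => rfl

theorem xab_qs (hN : 0 < N) (hn : 0 < n) (hc : n.Coprime N) (hW : (N : ℤ) ∣ W.det - n)
    (hf : f ∈ MF N L) {m : ℕ}
    (hm : ∀ γ : SL(2, ℤ), QS N L fun τ => ModularForm.discriminant τ ^ m * f (γ • τ)) :
    QS N L fun τ => ModularForm.discriminant τ ^ (m * n) * TW N n W f τ := by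
  have key : ∀ p ∈ n.divisorsAntidiagonal, QS N L fun τ => ModularForm.discriminant τ ^ (m * n) *
      ∑ b ∈ Finset.range p.2, f (act (lf N W !![(p.1 : ℤ), (b : ℤ); 0, (p.2 : ℤ)]) τ) := by
    rintro ⟨a, d⟩ hp
    have had : a * d = n := (Nat.mem_divisorsAntidiagonal.1 hp).1
    have ha : 0 < a := Nat.pos_of_ne_zero fun h0 => hn.ne' (by rw [← had, h0, zero_mul])
    have hd : 0 < d := Nat.pos_of_ne_zero fun h0 => hn.ne' (by rw [← had, h0, mul_zero])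
    have hdet : ∀ b : ℤ, (!![(a : ℤ), b; 0, (d : ℤ)] : M2).det = n := fun b => by
      rw [Matrix.det_fin_two_of, ← had]
      push_cast
      ring
    have hpos : ∀ b : ℤ, 0 < (!![(a : ℤ), b; 0, (d : ℤ)] : M2).det := fun b => by
      rw [hdet]
      exact_mod_cast hn
    obtain ⟨γ, g1, g2⟩ := lf_spec hN hc hW (hdet 0)
    rw [g1] at g2
    have h1 := QS.heck' hN (hm γ) ha hd
      (fun b τ => act !![(a : ℤ), ((N * b : ℕ) : ℤ); 0, (d : ℤ)] τ) fun b τ => by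
        simp [coe_act (hpos _)]
    refine vmf_congr h1 fun τ => ?_
    rw [had, ← xab_perm hd (Nat.Coprime.coprime_dvd_left (Dvd.intro_left a had) hc)]
    refine congrArg _ (Finset.sum_congr rfl fun b _ => ?_)
    obtain ⟨β, b1, b2⟩ := lf_spec hN hc hW (hdet ((N * b % d : ℕ) : ℤ))
    let T : SL(2, ℤ) := ⟨!![1, ((N * b / d : ℕ) : ℤ); 0, 1], by rw [Matrix.det_fin_two_of]; ring⟩
    have hT : (!![(a : ℤ), ((N * b : ℕ) : ℤ); 0, (d : ℤ)] : M2) =
        (T : M2) * !![(a : ℤ), ((N * b % d : ℕ) : ℤ); 0, (d : ℤ)] := by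
      change _ = (!![1, ((N * b / d : ℕ) : ℤ); 0, 1] : M2) * _
      have h2 : ((N * b : ℕ) : ℤ) = ((N * b % d : ℕ) : ℤ) + ((N * b / d : ℕ) : ℤ) * d := by
        exact_mod_cast (Nat.mod_add_div' (N * b) d).symm
      generalize ((N * b : ℕ) : ℤ) = x at h2 ⊢
      generalize ((N * b % d : ℕ) : ℤ) = y at h2 ⊢
      generalize ((N * b / d : ℕ) : ℤ) = z at h2 ⊢
      ext i j
      fin_cases i <;> fin_cases j <;> simp [Matrix.mul_apply, Fin.sum_univ_two, h2]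
    rw [← act_SL γ, ← act_mul (vact_SL_det γ) (hpos _)]
    refine xab_eq (W := W) (δ := γ * T) hc hn hf (hdet _) b1 ?_ b2 ?_ τ
    · rw [hT, Matrix.SpecialLinearGroup.coe_mul, mul_assoc]
    · obtain ⟨Y, hY⟩ := xla_ex.1 g2
      have h3 : (!![(a : ℤ), ((N * b : ℕ) : ℤ); 0, (d : ℤ)] : M2) =
          !![(a : ℤ), 0; 0, (d : ℤ)] + (N : ℤ) • !![0, (b : ℤ); 0, 0] := by
        ext i j
        fin_cases i <;> fin_cases j <;> simp
      refine xla_ex.2 ⟨Y + (γ : M2) * !![0, (b : ℤ); 0, 0], ?_⟩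
      rw [h3, mul_add, mul_smul_comm, smul_add, ← hY, add_sub_right_comm]
  refine vmf_congr (xab_sum _ key) fun τ => ?_
  rw [TW, xab_Hn, Finset.mul_sum]

theorem TW_mem (hN : 0 < N) (hn : 0 < n) (hc : n.Coprime N) (hW : (N : ℤ) ∣ W.det - n)
    (hf : f ∈ MF N L) : TW N n W f ∈ MF N L := by
  obtain ⟨-, m, hm⟩ := isMF_iff.1 hf
  refine vmf_mk (fun γ hγ τ => TW_smul hN hn hc hW hf γ ?_ τ) (m * n) fun γ => ?_
  · rw [CongruenceSubgroup.Gamma_mem] at hγ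
    have h1 : ∀ i j, (N : ℤ) ∣ ((γ : M2) - 1) i j := fun i j => by
      rw [← ZMod.intCast_zmod_eq_zero_iff_dvd, Matrix.sub_apply, Int.cast_sub, sub_eq_zero]
      fin_cases i <;> fin_cases j
      · simpa using hγ.1
      · simpa using hγ.2.1
      · simpa using hγ.2.2.1
      · simpa using hγ.2.2.2
    obtain ⟨Y, hY⟩ := xla_ex.1 h1
    refine xla_ex.2 ⟨W * Y, ?_⟩
    rw [← mul_smul_comm, ← hY, mul_sub, mul_one]
  · have h1 : (N : ℤ) ∣ (W * (γ : M2)).det - n := by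
      rwa [Matrix.det_mul, γ.det_coe, mul_one]
    refine vmf_congr (xab_qs hN hn hc h1 hf hm) fun τ => ?_
    rw [TW_smul hN hn hc hW hf γ (W' := W * (γ : M2)) (fun i j => by simp) τ]

end Pool.Agent.EQ
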