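import Pool.Agent.P.MP_ad7a55_nt.XAa
import Pool.Agent.P.MP_ad7a55_nt.XAb

/-! Reciprocity for the moves. -/

set_option autoImplicit false

noncomputable section

open MeasureTheory Topology Filter UpperHalfPlane
open scoped MatrixGroups BoundedContinuousFunction Matrix Classical

namespace Pool.Agent.EQ

variable {N n : ℕ} {L : IntermediateField ℚ ℂ} {σ : ℂ ≃+* ℂ} {τ τ' : ℍ} {η : M2}

theorem xac_det (hN : 0 < N) (hc : n.Coprime N) (hη : η.det = n) {h : M2} (hh : h ∈ Hn n) :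
    (lf N η h).det = n := by
  obtain ⟨γ, e, -⟩ := lf_spec hN hc (W := η) (by rw [hη, sub_self]; exact dvd_zero _)
    (mem_Hn hh).2
  rw [e, Matrix.det_mul, γ.det_coe, one_mul, (mem_Hn hh).2]

theorem xac_core (hN : 0 < N) (hn : 0 < n) (hη : η.det = n) (hc : n.Coprime N)
    (h : ∀ f ∈ MF N L, σ (f τ) = f τ') {f : ℍ → ℂ} (hf : f ∈ MF N L) :
    ∃ g ∈ Hn n, f (act (lf N η g) τ') = σ (f (act η τ)) ∧
      jInv (act (lf N η g) τ') = σ (jInv (act η τ)) := by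
  have hW : (N : ℤ) ∣ η.det - n := by rw [hη, sub_self]; exact dvd_zero _
  obtain ⟨γ₀, h₀, hh₀, e₀⟩ := exists_Hn hn hη
  obtain ⟨γ, e₁, e₂⟩ := lf_spec hN hc hW (mem_Hn hh₀).2
  have e₃ : lf N η h₀ = ((γ * γ₀⁻¹ : SL(2, ℤ)) : M2) * η := by
    rw [e₁]
    nth_rewrite 1 [e₀]
    rw [← mul_assoc, ← Matrix.SpecialLinearGroup.coe_mul, inv_mul_cancel_right]
  have e₄ : ∀ u ∈ MF N L, u (act (lf N η h₀) τ) = u (act η τ) := fun u hu => by
    rw [e₃]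
    exact act_congr hc hn hu hη (by rw [← e₃]; exact e₂) τ
  obtain ⟨g, h1, h2⟩ := mem_of_power_sums (ι := Hn n) (ι' := Hn n)
    (fun i => σ (f (act (lf N η i) τ))) (fun i => σ (jInv (act (lf N η i) τ)))
    (fun i => f (act (lf N η i) τ')) (fun i => jInv (act (lf N η i) τ')) (fun a b => by
      have h3 := h _ (TW_mem hN hn hc hW
        (MF.mul hN (MF.pow hN hf a) (MF.pow hN (MF.j hN) b)))
      simp only [TW, map_sum, map_mul, map_pow] at h3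
      rw [Finset.sum_coe_sort (Hn n) fun i => σ (f (act (lf N η i) τ)) ^ a *
          σ (jInv (act (lf N η i) τ)) ^ b,
        Finset.sum_coe_sort (Hn n) fun i => f (act (lf N η i) τ') ^ a *
          jInv (act (lf N η i) τ') ^ b]
      exact h3) ⟨h₀, hh₀⟩
  refine ⟨g, g.2, ?_, ?_⟩
  · rw [h1, e₄ f hf]
  · rw [h2, e₄ _ (MF.j hN)]

theorem rec_iso (hN : 0 < N) {D : ℤ} (hD : HasDisc τ' D) (hn : 0 < n)
    (hη : η.det = n) (hc : n.Coprime N) (hb : 4 * (n : ℤ) ^ 2 < -D)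
    (h : ∀ f ∈ MF N L, σ (f τ) = f τ') : ∃ η' : M2, η'.det = n ∧
      (∀ i j, (N : ℤ) ∣ (η' - η) i j) ∧ ∀ f ∈ MF N L, σ (f (act η τ)) = f (act η' τ') := by
  have hW : (N : ℤ) ∣ η.det - n := by rw [hη, sub_self]; exact dvd_zero _
  obtain ⟨g₀, hg₀, -, j₀⟩ := xac_core hN hn hη hc h (MF.j hN)
  obtain ⟨γ₀, e₀, c₀⟩ := lf_spec hN hc hW (mem_Hn hg₀).2
  refine ⟨lf N η g₀, xac_det hN hc hη hg₀, c₀, fun f hf => ?_⟩
  obtain ⟨g, hg, h1, h2⟩ := xac_core hN hn hη hc h hf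
  obtain ⟨γ₁, e₁, -⟩ := lf_spec hN hc hW (mem_Hn hg).2
  obtain ⟨γ, e⟩ := iso_unique hD hn (xac_det hN hc hη hg₀) (xac_det hN hc hη hg) hb
    (j₀.trans h2.symm)
  have e₂ : g = ((γ₁⁻¹ * γ * γ₀ : SL(2, ℤ)) : M2) * g₀ := by
    rw [Matrix.SpecialLinearGroup.coe_mul, Matrix.SpecialLinearGroup.coe_mul, mul_assoc, ← e₀,
      mul_assoc, ← e, e₁, ← mul_assoc, ← Matrix.SpecialLinearGroup.coe_mul, inv_mul_cancel,
      Matrix.SpecialLinearGroup.coe_one, one_mul]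
  rw [← h1, Hn_unique hg₀ hg e₂]

theorem gal_iso (hn : 0 < n) (hη : η.det = n) (h : σ (jInv τ) = jInv τ') :
    ∃ η' : M2, η'.det = n ∧ σ (jInv (act η τ)) = jInv (act η' τ') := by
  have key : ∀ f ∈ MF 1 ⊥, σ (f τ) = f τ' := fun f hf => by
    obtain ⟨P, h1, h2⟩ := MF.poly one_pos hf fun γ t =>
      MF.inv hf (by rw [CongruenceSubgroup.Gamma_one_top]; exact Subgroup.mem_top γ) t
    have h3 : P.map (σ : ℂ →+* ℂ) = P := Polynomial.ext fun k => by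
      obtain ⟨q, hq⟩ := IntermediateField.mem_bot.1 (h1 k)
      rw [Polynomial.coeff_map, ← hq, eq_ratCast, map_ratCast]
    have h4 := Polynomial.eval_map_apply (p := P) (σ : ℂ →+* ℂ) (jInv τ)
    rw [h3] at h4
    rw [h2, h2, ← h]
    exact h4.symm
  obtain ⟨g, hg, -, h1⟩ := xac_core one_pos hn hη (Nat.coprime_one_right n) key (MF.j one_pos)
  exact ⟨_, xac_det one_pos (Nat.coprime_one_right n) hη hg, h1.symm⟩

theorem Ig.gal {x y : ℂ} (hn : 0 < n) (h : Ig n x y) (σ : ℂ ≃+* ℂ) : Ig n (σ x) (σ y) := by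
  obtain ⟨t, ζ, h1, rfl, rfl⟩ := h
  obtain ⟨ζ', h2, h3⟩ := gal_iso (σ := σ) (τ := t) (τ' := fr (σ (jInv t))) hn h1
    (fr_spec _).2.symm
  exact ⟨_, ζ', h2, h3.symm, (fr_spec _).2⟩

theorem xac_neg (hN : 0 < N) {D : ℤ} (hD : 577 * (N : ℤ) ^ 2 ≤ -D) : D < -576 := by
  have h1 : (1 : ℤ) ≤ (N : ℤ) ^ 2 := one_le_pow₀ (by exact_mod_cast hN)
  linarith

theorem move_half (hN : 0 < N) (hz : zt N ∈ L) (hσ : ∀ a ∈ L, σ a = a) {E b s D : ℤ}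
    (hn : 0 < n) (hc : IsCoprime (n : ℤ) (2 * N * E)) (hb : (4 * n : ℤ) ∣ b ^ 2 - E)
    (ha : ∀ (τ : ℍ) (D : ℤ) (η : M2), HasDisc τ D → D < -576 → Fit E D → η.det = n →
      Ker n (AA E b τ) ⊆ Ker n η → σ (jInv τ) = jInv (act η τ))
    (h : HasDisc τ D) (hf : Fit E (N ^ 2 * D)) (hD : 577 * (N : ℤ) ^ 2 ≤ -D) (hη : η.det = n)
    (hk : Ker n (AA E b τ) ⊆ Ker n η) (hs : Cg N η s) :
    ∃ δ, Scal N δ ∧ ∀ f ∈ MF N L, σ (f τ) = f (δ • act η τ) := by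
  have hN' : (0 : ℤ) < N := by exact_mod_cast hN
  have hn' : (0 : ℤ) < n := by exact_mod_cast hn
  have hNc : (N : ℂ) ≠ 0 := by exact_mod_cast hN.ne'
  have hN2 : (0 : ℤ) < (N : ℤ) ^ 2 := by positivity
  have hD' := xac_neg hN hD
  have hf' : Fit E D := hf.trans (fit_sq hN D)
  have h0 := ha τ D η h hD' hf' hη hk
  have hcN : IsCoprime (N : ℤ) (n : ℤ) := hc.of_mul_right_left.of_mul_right_right.symm
  have pη : 0 < η.det := by rw [hη]; exact hn'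
  have key : ∀ (ξ : M2) (w : ℍ → ℍ), ξ.det = N →
      (∀ x : ℍ, ((ξ 1 0 : ℂ) * x + ξ 1 1) * (w x : ℂ) = (ξ 0 0 : ℂ) * x + ξ 0 1) →
      σ (jInv (w τ)) = jInv (w (act η τ)) := by
    intro ξ w hξ hw
    have hp : 0 < ξ.det := by rw [hξ]; exact hN'
    obtain ⟨Y, hY⟩ := xla_cg.1 hs
    obtain ⟨η', e⟩ : ∃ η' : M2, ξ * η = η' * ξ := ⟨s • (1 : M2) + ξ * Y * ξ.adjugate, by
      rw [hY, add_mul, mul_add, mul_assoc (ξ * Y), Matrix.adjugate_mul, hξ]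
      simp only [smul_mul_assoc, mul_smul_comm, one_mul, mul_one]⟩
    have hd : η'.det = n := by
      have h1 := congrArg Matrix.det e
      rw [Matrix.det_mul, Matrix.det_mul, hξ, hη, mul_comm] at h1
      exact (mul_right_cancel₀ hN'.ne' h1).symm
    obtain ⟨D', h1, h2, h3⟩ := act_disc h hN hξ
    have h4 : 577 ≤ -D' := le_of_mul_le_mul_left (by linarith) hN2
    have h5 := AA_com h hf' hp h1 (hf.trans h2) b
    have h6 : IsCoprime ξ.det (n : ℤ) := by rw [hξ]; exact hcN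
    have h7 := ha _ D' η' h1 (by omega) (hf.trans h2) hd fun v hv =>
      (Ker_com e h6 v).2.2 (hk ((Ker_com h5 h6 v).2.1 hv))
    rw [← act_mul (by rw [hd]; exact hn') hp, ← e, act_mul hp pη, vact_ext hp (hw τ),
      vact_ext hp (hw (act η τ))] at h7
    exact h7
  exact weak_rec hN hz hσ (disc_of_gal h hD' h0.symm) (by linarith) h0
    (key !![(N : ℤ), 0; 0, 1] (mulH N hN) (by simp [Matrix.det_fin_two]) fun x => by simp)
    (key !![1, 0; 0, (N : ℤ)] (divH N hN 0) (by simp [Matrix.det_fin_two])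
      fun x => by simp [mul_div_cancel₀ _ hNc])
    (key !![1, 1; 0, (N : ℤ)] (divH N hN 1) (by simp [Matrix.det_fin_two])
      fun x => by simp [mul_div_cancel₀ _ hNc])

theorem xac_pow {E b q : ℤ} (hE : E < 0) (hq : IsCoprime q E) (k : ℕ)
    (h : 4 * q ^ (k + 1) ∣ b ^ 2 - E) :
    sp q ((-b + th E) / 2) ^ (k + 1) = sp ((q ^ (k + 1) : ℤ) : ℂ) ((-b + th E) / 2) := by
  induction k with
  | zero => rw [zero_add, pow_one, pow_one]
  | succ k ih =>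
    obtain ⟨c, hc⟩ := h
    have h1 : b ^ 2 - E = 4 * (q * q ^ (k + 1)) * c := by rw [hc]; ring
    have h2 : b ^ 2 - E = 4 * q * (q ^ (k + 1) * c) := by rw [hc]; ring
    rw [pow_succ', ih ⟨q * c, by rw [hc]; ring⟩, mul_split_fac hE h1 (coprime_fac h2 hq),
      ← pow_succ']

theorem xac_fix {a : ℂ} (h : σ a = a) (m : ℕ) : (σ ^ m) a = a := by
  induction m with
  | zero => rfl
  | succ m ih => rw [pow_succ, RingAut.mul_apply, h, ih]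

theorem xac_cg {X Y : M2} {a a' : ℤ} (h : Cg N X a) (h1 : ∀ i j, (N : ℤ) ∣ (Y - X) i j)
    (h2 : (N : ℤ) ∣ a - a') : Cg N Y a' := fun i j => by
  have e : (Y - a' • (1 : M2)) i j =
      (Y - X) i j + (X - a • (1 : M2)) i j + (a - a') * (1 : M2) i j := by
    simp only [Matrix.sub_apply, Matrix.smul_apply, smul_eq_mul]
    ring
  rw [e]
  exact dvd_add (dvd_add (h1 i j) (h i j)) (h2.mul_right _)

theorem xac_scal {δ : SL(2, ℤ)} (h : Scal N δ) :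
    Cg N (δ : M2) (δ 0 0) ∧ (N : ℤ) ∣ δ 0 0 * δ 0 0 - 1 := by
  obtain ⟨h1, h2, h3⟩ := h
  constructor
  · intro i j
    rw [Matrix.sub_apply, Matrix.smul_apply, smul_eq_mul, Matrix.one_apply]
    fin_cases i <;> fin_cases j
    · simp
    · simpa using h1
    · simpa using h2
    · simpa using dvd_sub_comm.1 h3
  · have hdet := δ.det_coe
    rw [Matrix.det_fin_two] at hdet
    have e : δ 0 0 * δ 0 0 - 1 = δ 0 0 * (δ 0 0 - δ 1 1) + δ 0 1 * δ 1 0 := by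
      linear_combination hdet
    rw [e]
    exact dvd_add (h3.mul_left _) (h2.mul_left _)

theorem xac_two (hN : 0 < N) (hz : zt N ∈ L) (hσ : ∀ a ∈ L, σ a = a) {E b s D : ℤ}
    (hn : 0 < n) (hc : IsCoprime (n : ℤ) (2 * N * E)) (hb : (4 * (n * n : ℕ) : ℤ) ∣ b ^ 2 - E)
    (hs : (n : ℤ) = s ^ 2)
    (ha : ∀ (τ : ℍ) (D : ℤ) (η : M2), HasDisc τ D → D < -576 → Fit E D → η.det = n →
      Ker n (AA E b τ) ⊆ Ker n η → σ (jInv τ) = jInv (act η τ))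
    (h : HasDisc τ D) (hf : Fit E (N ^ 2 * D)) (hD : 577 * (N : ℤ) ^ 2 ≤ -D)
    (h4 : 4 * (n : ℤ) ^ 2 < -D) (hη : η.det = (n * n : ℕ))
    (hk : Ker (n * n) (AA E b τ) ⊆ Ker (n * n) η) (hg : Cg N η n) :
    ∀ f ∈ MF N L, σ (σ (f τ)) = f (act η τ) := by
  have hn' : (0 : ℤ) < n := by exact_mod_cast hn
  have hD' := xac_neg hN hD
  have hf' : Fit E D := hf.trans (fit_sq hN D)
  have hcN : IsCoprime (n : ℤ) (N : ℤ) := hc.of_mul_right_left.of_mul_right_right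
  have hcE : IsCoprime (n : ℤ) (2 * E) :=
    hc.of_mul_right_left.of_mul_right_left.mul_right hc.of_mul_right_right
  have hb2 : ((n * n : ℕ) : ℤ) ∣ b ^ 2 - E := (dvd_mul_left _ _).trans hb
  have hb4 : (4 * n : ℤ) ∣ b ^ 2 - E :=
    (mul_dvd_mul_left 4 (Int.natCast_dvd_natCast.2 (dvd_mul_right n n))).trans hb
  have hb1 : (n : ℤ) ∣ b ^ 2 - E := (dvd_mul_left _ _).trans hb4
  have hsN : IsCoprime s (N : ℤ) := by
    rw [hs, sq] at hcN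
    exact hcN.of_mul_left_left
  obtain ⟨η₀, d₀, k₀, c₀⟩ := (AA_line h hf' hn hcE hb1).exists_Cg hn hN hsN
    (by rw [hs, sub_self]; exact dvd_zero _)
  obtain ⟨δ, hδ, H⟩ := move_half hN hz hσ hn hc hb4 ha h hf hD d₀ k₀.ge c₀
  have p₀ : 0 < η₀.det := by rw [d₀]; exact hn'
  rw [← act_SL, ← act_mul (vact_SL_det δ) p₀] at H
  obtain ⟨s1, s2⟩ := xac_scal hδ
  have c₁ := s1.mul c₀
  have d₁ : ((δ : M2) * η₀).det = n := by rw [Matrix.det_mul, δ.det_coe, one_mul, d₀]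
  have k₁ : Ker n (AA E b τ) ⊆ Ker n ((δ : M2) * η₀) := by rw [Ker_SL, k₀]
  generalize (δ : M2) * η₀ = η₁ at H c₁ d₁ k₁
  have p₁ : 0 < η₁.det := by rw [d₁]; exact hn'
  have h₁ : HasDisc (act η₁ τ) D := disc_of_gal h hD' (H _ (MF.j hN)).symm
  obtain ⟨η', d', c', H'⟩ := rec_iso hN h₁ hn d₁ (Nat.isCoprime_iff_coprime.1 hcN) h4 H
  obtain ⟨ζ, dζ, kζ⟩ := (AA_line h₁ hf' hn hcE hb1).exists_mat hn
  obtain ⟨γ', e'⟩ := iso_unique h₁ hn dζ d' h4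
    ((ha _ D ζ h₁ hD' hf' dζ kζ.ge).symm.trans (H' _ (MF.j hN)))
  have k' : Ker n (AA E b (act η₁ τ)) ⊆ Ker n η' := by rw [e', Ker_SL, kζ]
  have k₂ := Ker_step hn (AA_com h hf' p₁ h₁ hf' b) k₁ k'
  have hnn : 0 < n * n := Nat.mul_pos hn hn
  have l₂ := AA_line h hf' hnn (by rw [Nat.cast_mul]; exact hcE.mul_left hcE) hb2
  have d₂ : (η' * η₁).det = (n * n : ℕ) := by rw [Matrix.det_mul, d', d₁, Nat.cast_mul]
  obtain ⟨γ, e⟩ := exists_SL_of_Ker hnn hη d₂ ((l₂.eq_Ker hnn hη hk).le.trans k₂)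
  have c₂ : Cg N (η' * η₁) n := by
    refine xac_cg ((xac_cg c₁ c' (dvd_zero _ |>.trans (sub_self _).symm.dvd)).mul c₁)
      (fun i j => by rw [sub_self]; exact dvd_zero _) ?_
    have e₁ : δ 0 0 * s * (δ 0 0 * s) - n = (δ 0 0 * δ 0 0 - 1) * s ^ 2 := by rw [hs]; ring
    rw [e₁]
    exact s2.mul_right _
  rw [e] at c₂
  intro f hf
  rw [H f hf, H' f hf, ← act_mul (by rw [d']; exact hn') p₁, e,
    act_mul (vact_SL_det γ) (by rw [hη]; exact_mod_cast hnn), act_SL,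
    MF.inv hf (Cg.gamma hcN hg c₂)]

theorem move (hN : 0 < N) (F : IntermediateField ℚ ℂ) [FiniteDimensional ℚ F] (r : ℕ) :
    ∃ e : ℕ, 0 < e ∧ ∀ (E b : ℤ) (n₀ : ℕ) (T : Finset ℤ), E < -576 → T.card ≤ r →
      (∀ D ∈ T, D < -576 ∧ IsD D ∧ ¬ IsSquare (D * E)) → 0 < n₀ →
      IsCoprime (n₀ : ℤ) (2 * N * E) → (4 * n₀ ^ (2 * e) : ℤ) ∣ b ^ 2 - E →
      ∃ σ : ℂ ≃+* ℂ, (∀ a ∈ F, σ a = a) ∧
        (∀ D ∈ T, ∀ τ, HasDisc τ D → ∀ f ∈ MF N F, σ (f τ) = f τ) ∧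
        ∀ (τ : ℍ) (D : ℤ) (η : M2), HasDisc τ D → Fit E (N ^ 2 * D) → 577 * (N : ℤ) ^ 2 ≤ -D →
          4 * (n₀ : ℤ) ^ (2 * e) < -D → η.det = (n₀ ^ (2 * e) : ℕ) →
          Ker (n₀ ^ (2 * e)) (AA E b τ) ⊆ Ker (n₀ ^ (2 * e)) η → Cg N η (n₀ ^ e) →
          ∀ f ∈ MF N F, σ (f τ) = f (act η τ) := by
  obtain ⟨L, hL, hFL, -, hz⟩ := exists_field F F hN
  obtain ⟨m, hm, hfix⟩ := fix_pow hN
  obtain ⟨d, hd2, hdL⟩ : ∃ d : ℕ, 2 ≤ d ∧ Module.finrank ℚ L ≤ d :=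
    ⟨max 2 (Module.finrank ℚ L), le_max_left _ _, le_max_right _ _⟩
  obtain ⟨e', he'⟩ : 2 ∣ d.factorial := Nat.dvd_factorial two_pos hd2
  have hdf := d.factorial_pos
  obtain ⟨e, he⟩ : ∃ e, e = d.factorial * 2 ^ r * m := ⟨_, rfl⟩
  refine ⟨e, by rw [he]; positivity, fun E b n₀ T hE hT hTE hn₀ hc hb => ?_⟩
  have hE0 : E < 0 := by omega
  have hn₀' : (0 : ℤ) < n₀ := by exact_mod_cast hn₀
  have hdv : ∀ k, k ≤ 2 * e → 4 * (n₀ : ℤ) ^ k ∣ b ^ 2 - E := fun k hk =>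
    (mul_dvd_mul_left 4 (pow_dvd_pow _ hk)).trans hb
  obtain ⟨k, hk⟩ : ∃ k, d.factorial * 2 ^ T.card * m = k + 1 :=
    Nat.exists_eq_succ_of_ne_zero (by positivity)
  have hexp : 2 ^ (r - T.card) * (k + 1) = e := by
    rw [← hk, he, ← Nat.sub_add_cancel hT, pow_add, Nat.add_sub_cancel]
    ring
  have hq : IsCoprime ((n₀ : ℤ) ^ 2 ^ (r - T.card)) E := hc.of_mul_right_right.pow_left
  have hle : 2 ^ (r - T.card) ≤ 2 * e := by
    rw [← hexp]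
    nlinarith [Nat.zero_le (2 ^ (r - T.card) * k), Nat.zero_le (2 ^ (r - T.card))]
  obtain ⟨c, hc'⟩ := hdv _ hle
  have h𝔞 := discL_fac hE0 (by positivity) hc' hq
  obtain ⟨σ₀, hσ₀, hact, hT₀⟩ := realize hd2 hE T hTE h𝔞
  have hact₁ := galb_acts_pow hact (galb_disc_pow h𝔞 (by positivity)) m
  rw [← pow_mul, hk, xac_pow hE0 hq k (by rw [← pow_mul, hexp]; exact hdv e (by omega)),
    ← pow_mul, hexp, ← Nat.cast_pow, Int.cast_natCast] at hact₁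
  have hL₁ : ∀ a ∈ L, (σ₀ ^ m) a = a := fun a ha => xac_fix (hσ₀.field L hdL a ha) m
  have hn₁ : 0 < n₀ ^ e := by positivity
  have hc₁ : IsCoprime ((n₀ ^ e : ℕ) : ℤ) (2 * N * E) := by
    rw [Nat.cast_pow]
    exact hc.pow_left
  have hsq : n₀ ^ (2 * e) = n₀ ^ e * n₀ ^ e := by rw [two_mul, pow_add]
  refine ⟨σ₀ ^ m * σ₀ ^ m, fun a ha => ?_, fun D hD τ hτ f hf => ?_,
    fun τ D η hτ hf hD h4 hη hk' hg f hf' => ?_⟩
  · rw [RingAut.mul_apply, hL₁ a (hFL ha), hL₁ a (hFL ha)]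
  · have h1 := hT₀ D hD _ (discL_one hτ)
    rw [jL_one] at h1
    have h2 := hfix L σ₀ (hσ₀.field L hdL) τ h1 f (MF.mono hN dvd_rfl hFL hf)
    rw [RingAut.mul_apply, h2, h2]
  · rw [hsq] at hη hk'
    rw [RingAut.mul_apply]
    refine xac_two (s := (n₀ : ℤ) ^ (e' * 2 ^ r * m)) hN hz hL₁ hn₁ hc₁ ?_ ?_
      (fun τ D η h1 h2 h3 h5 h6 => Acts.move (xac_fix (hσ₀.th hd2 hE0.le) m) hn₁
        (hc₁.of_mul_right_left.of_mul_right_left.mul_right hc₁.of_mul_right_right)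
        (by rw [Nat.cast_pow]; exact hdv e (by omega)) hact₁ h1 h2 h3 h5 h6)
      hτ hf hD ?_ hη hk' ?_ f (MF.mono hN dvd_rfl hFL hf')
    · rw [← hsq, Nat.cast_pow]
      exact hb
    · rw [Nat.cast_pow, ← pow_mul, he, he']
      congr 1
      ring
    · rw [Nat.cast_pow, ← pow_mul, mul_comm e]
      exact h4
    · rw [Nat.cast_pow]
      exact hg

end Pool.Agent.EQ
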