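import Pool.Agent.P.MP_ad7a55_nt.TRow

/-! The sieve bounds, uniformly in the special prime. -/

set_option autoImplicit false

noncomputable section

open Finset Matrix

namespace Pool.Agent.EQ

namespace Dt

theorem xba_two {d : Dt} (hn : d.n.natAbs = 1) {l : ℕ} (hl : l.Prime) (hp : d.p.Prime)
    (hne : l ≠ d.p) (hc : (l : ℤ) ∣ 2 * d.n * d.p) : l = 2 := by
  have h1 := Int.natCast_dvd.1 hc
  rw [Int.natAbs_mul, Int.natAbs_mul, hn, Int.natAbs_natCast] at h1
  rcases (Nat.Prime.dvd_mul hl).1 h1 with h2 | h2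
  · exact (Nat.prime_dvd_prime_iff_eq hl Nat.prime_two).1 h2
  · exact absurd ((Nat.prime_dvd_prime_iff_eq hl hp).1 h2) hne

theorem xba_sq {d : Dt} (h : d.Good 0) (hn : d.n.natAbs = 1) {l : ℕ} (hl : l.Prime)
    (hD : ¬ d.Dom l) (hne : l ≠ d.p) {u : ℤ} (hu : ¬ (l : ℤ) ∣ u) (k : ℕ) :
    cnt (l ^ k) (fun r => (l : ℤ) ^ k ∣ r ^ 2 - 4 * (d.m * u)) ≤ 4 * 8 := by
  have hv := val_m h hl hD
  have hp := tqd_prime hl
  by_cases hc : (l : ℤ) ∣ 2 * d.n * d.p
  · have h2 := xba_two hn hl h.prime hne hc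
    refine (cnt_sq_le' hl k 3 fun h1 => ?_).trans (by rw [h2]; norm_num)
    have h2 := tqd_split hl 2 6 _ _ h1 (by rw [h2]; norm_num)
    rw [mul_comm d.m u] at h2
    have h3 := tqd_split hl 0 6 _ _ h2 (by simpa using hu)
    have : Fact l.Prime := ⟨hl⟩
    have hm0 : d.m ≠ 0 := by
      have : (d.G : ℤ) ≠ 0 := by exact_mod_cast (Nat.mul_pos h.g₁_pos h.g₂_pos).ne'
      exact mul_ne_zero h.n_ne this
    have h4 := ((padicValInt_dvd_iff _ _).1 h3).resolve_left hm0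
    omega
  · refine (cnt_sq_le' hl k 0 fun h1 => ?_).trans (by norm_num)
    have h2 : (l : ℤ) ∣ 4 * (d.m * u) := (dvd_pow_self _ (by norm_num)).trans h1
    rcases hp.dvd_or_dvd h2 with h3 | h3
    · have h4 : (l : ℤ) ∣ 2 := hp.dvd_of_dvd_pow (n := 2) (by norm_num; exact h3)
      exact hc ((h4.mul_right _).mul_right _)
    · rcases hp.dvd_or_dvd h3 with h4 | h4
      · exact hv.2 hc h4
      · exact hu h4

theorem xba_L {d : Dt} (h : d.Good 0) (hn : d.n.natAbs = 1) (hpE : ¬ (d.p : ℤ) ∣ d.E) {l : ℕ}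
    (hl : l.Prime) (hD : ¬ d.Dom l) (hE : (l : ℤ) ∣ d.E) (k : ℕ) :
    (tcrL d l k).card ≤ 2 * (4 * 8) := by
  have hne : l ≠ d.p := fun e => hpE (e ▸ hE)
  by_cases ha : (l : ℤ) ∣ d.a
  · have hc := (not_dvd_c h hl ha hE).2
    refine tcr_pairs _ _ (fun s r => (l : ℤ) ^ k ∣ 2 * d.c * r + d.b * s) _ (xba_sq h hn hl hD hne hc k)
      (fun s => cnt_lin_le hl k hc _) _ Prod.fst Prod.snd (fun z z' h1 h2 => Prod.ext h1 h2)
      fun z hz => ?_
    obtain ⟨h1, h2, h3⟩ := mem_filter.1 hz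
    rw [xe, if_pos ha] at h2
    rw [Δe, if_pos ha] at h3
    exact ⟨mem_range.1 (mem_product.1 h1).1, mem_range.1 (mem_product.1 h1).2, h3, h2⟩
  · refine tcr_pairs _ _ (fun s r => (l : ℤ) ^ k ∣ 2 * d.a * r + d.b * s) _ (xba_sq h hn hl hD hne ha k)
      (fun s => cnt_lin_le hl k ha _) _ Prod.snd Prod.fst (fun z z' h1 h2 => Prod.ext h2 h1)
      fun z hz => ?_
    obtain ⟨h1, h2, h3⟩ := mem_filter.1 hz
    rw [xe, if_neg ha, x₁, add_comm] at h2
    rw [Δe, if_neg ha] at h3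
    exact ⟨mem_range.1 (mem_product.1 h1).2, mem_range.1 (mem_product.1 h1).1, h3, h2⟩

theorem xba_cntJ {d : Dt} (h : d.Good 0) (hn : d.n.natAbs = 1) (hpE : ¬ (d.p : ℤ) ∣ d.E)
    (H N J : ℕ) (hJ : 0 < J) (S : Finset (ℤ × ℤ))
    (hS : ∀ z ∈ S, d.Box H N z.1 z.2 ∧ d.JJ z.1 z.2 = J) :
    (S.card : ℝ) ≤ (∏ _l ∈ J.primeFactors,
      ((2 * (4 * 8) : ℕ) : ℝ)) *
      (((2 * H + 1) / (J ^ 2 : ℕ) + 1) * ((N + 1) / (J ^ 2 : ℕ) + 1)) := by
  classical
  rcases S.eq_empty_or_nonempty with h0 | ⟨z0, hz0⟩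
  · rw [h0, card_empty, Nat.cast_zero]; positivity
  have hP : ∀ l ∈ J.primeFactors, l.Prime := fun l hl => Nat.prime_of_mem_primeFactors hl
  have hJ2 : J ^ 2 = ∏ l ∈ J.primeFactors, l ^ (2 * J.factorization l) := by
    conv_lhs => rw [← Nat.prod_factorization_pow_eq_self hJ.ne']
    rw [Finsupp.prod, ← prod_pow]
    exact prod_congr rfl fun l _ => by rw [← pow_mul, mul_comm]
  have h1 := tcr_card S
    (Fintype.piFinset fun l : J.primeFactors => tcrL d l (2 * J.factorization l))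
    (fun z l => (tcrR ((l : ℕ) ^ (2 * J.factorization l)) z.1,
      tcrR ((l : ℕ) ^ (2 * J.factorization l)) z.2))
    (((2 * H + 1) / (J ^ 2 : ℕ) + 1) * ((N + 1) / (J ^ 2 : ℕ) + 1))
    (fun z hz => Fintype.mem_piFinset.2 fun l => by
      have h2 := (tcr_JJ h z.1 z.2).2.2.2
      rw [(hS z hz).2] at h2
      have h3 := ie_spec h (hP l l.2) z.1 z.2
      rw [← (h2 l l.2).2.2] at h3
      exact tcr_memL d (hP l l.2) _ h3.1 h3.2.1)
    (fun b _ => by
      rcases (S.filter fun z => (fun l : J.primeFactors =>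
        (tcrR ((l : ℕ) ^ (2 * J.factorization l)) z.1,
          tcrR ((l : ℕ) ^ (2 * J.factorization l)) z.2)) = b).eq_empty_or_nonempty
        with h0 | ⟨z1, hz1⟩
      · rw [h0, card_empty, Nat.cast_zero]; positivity
      refine tcr_box h.a_pos H N (pow_pos hJ 2) (pow_pos hJ 2) z1.1 z1.2 _ fun z hz => ?_
      have e := (mem_filter.1 hz).2.trans (mem_filter.1 hz1).2.symm
      have key : ∀ (l : ℕ) (x y : ℤ), l ∈ J.primeFactors →
          tcrR (l ^ (2 * J.factorization l)) x = tcrR (l ^ (2 * J.factorization l)) y →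
          (l : ℤ) ^ (2 * J.factorization l) ∣ x - y := by
        intro l x y hl he
        have a1 := (tcr_res (pow_pos (hP l hl).pos (2 * J.factorization l)) x).2
        have a2 := (tcr_res (pow_pos (hP l hl).pos (2 * J.factorization l)) y).2
        rw [he] at a1
        have a3 := dvd_sub a1 a2
        rw [sub_sub_sub_cancel_right] at a3
        exact_mod_cast a3
      rw [hJ2]
      exact ⟨(hS z (mem_filter.1 hz).1).1,
        tcr_prod_dvd _ hP _ _ fun l hl => key l _ _ hl (congrArg Prod.fst (congrFun e ⟨l, hl⟩)),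
        tcr_prod_dvd _ hP _ _ fun l hl => key l _ _ hl (congrArg Prod.snd (congrFun e ⟨l, hl⟩))⟩)
  refine h1.trans (mul_le_mul_of_nonneg_right ?_ (by positivity))
  rw [Fintype.card_piFinset,
    prod_coe_sort J.primeFactors (fun l => (tcrL d l (2 * J.factorization l)).card)]
  have h2 := (tcr_JJ h z0.1 z0.2).2.2.2
  rw [(hS z0 hz0).2] at h2
  rw [← Nat.cast_prod]
  exact Nat.cast_le.2 (prod_le_prod' fun l hl => xba_L h hn hpE (hP l hl) (h2 l hl).1 (h2 l hl).2.1 _)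

theorem xba_crude : ∃ N₀ : ℕ, ∀ d : Dt, d.Good 0 → d.n.natAbs = 1 → ¬ (d.p : ℤ) ∣ d.E →
    ∀ H N : ℕ, d.Sz H N → N₀ ≤ N → 8 * d.p ≤ N → ∀ Z : Finset (ℤ × ℤ),
    (∀ z ∈ Z, d.Box H N z.1 z.2 ∧ (N < d.JJ z.1 z.2 ^ 32 ∨ N < d.QQ z.2 ^ 4)) →
    ∑ z ∈ Z, d.WC z.1 z.2 ≤ (N : ℝ) ^ (99 / 100 : ℝ) * H := by
  classical
  have hε : (0 : ℝ) < 1 / 25600 := by norm_num
  obtain ⟨C1, hC1, hW⟩ := WC_le hε
  obtain ⟨C2, hC2, hO⟩ := omega_bound
    ((2 * (4 * 8) : ℕ) : ℝ) hε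
  obtain ⟨C3, hC3, hDv⟩ := div_bound hε
  obtain ⟨C, hC⟩ : ∃ C : ℝ, C = 13 * C1 * C2 * C3 + 12 * C1 * C3 + 1 := ⟨_, rfl⟩
  have hC0 : 1 ≤ C := by
    have : 0 ≤ 13 * C1 * C2 * C3 + 12 * C1 * C3 := by positivity
    linarith
  refine ⟨max 1 ⌈C ^ 3200⌉₊, fun d h hn hpE H N hS hN hpN Z hZ => ?_⟩
  have hN1 : 1 ≤ N := (le_max_left _ _).trans hN
  have hN2 : 8 * d.n.natAbs * d.p ≤ N := by rw [hn, mul_one]; exact hpN
  have hN3 : C ^ 3200 ≤ N := Nat.ceil_le.1 ((le_max_right _ _).trans hN)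
  have hNR : (1 : ℝ) ≤ N := by exact_mod_cast hN1
  have hHR : (1 : ℝ) ≤ H := by exact_mod_cast hS.one
  obtain ⟨u, hu⟩ : ∃ u : ℝ, u = (N : ℝ) ^ (1 / 3200 : ℝ) := ⟨_, rfl⟩
  have hu0 : 0 < u := by rw [hu]; positivity
  have hupow : ∀ k : ℕ, u ^ k = (N : ℝ) ^ ((k : ℝ) / 3200) := fun k => by
    rw [hu, ← Real.rpow_natCast, ← Real.rpow_mul (by positivity)]
    congr 1; ring
  have huN : u ^ 3200 = N := by rw [hupow]; norm_num
  have hu99 : (N : ℝ) ^ (99 / 100 : ℝ) = u ^ 3168 := by rw [hupow]; norm_num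
  have hCu : C ≤ u :=
    le_of_pow_le_pow_left₀ (n := 3200) (by norm_num) hu0.le (hN3.trans huN.ge)
  have hu1 : 1 ≤ u := hC0.trans hCu
  have heps : ∀ x : ℕ, x ≤ N ^ 8 → (x : ℝ) ^ (1 / 25600 : ℝ) ≤ u := fun x hx => by
    have h1 : (x : ℝ) ≤ (N : ℝ) ^ 8 := by exact_mod_cast hx
    refine (Real.rpow_le_rpow (Nat.cast_nonneg _) h1 hε.le).trans (le_of_eq ?_)
    rw [hu, ← Real.rpow_natCast, ← Real.rpow_mul (by positivity)]
    norm_num
  have hG : 1 ≤ d.G := Nat.mul_pos h.g₁_pos h.g₂_pos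
  have hE0 : 0 < d.E.natAbs := Int.natAbs_pos.2 h.E_neg.ne
  have hE : d.E.natAbs ≤ N ^ 8 := by
    refine le_trans ?_ hS.low
    rw [Int.natAbs_mul, Int.natAbs_pow, Int.natAbs_natCast]
    exact Nat.le_mul_of_pos_left _ (pow_pos hG 2)
  have ha0 : 0 < d.a.natAbs := Int.natAbs_pos.2 h.a_pos.ne'
  have haH : d.a.natAbs ≤ H ^ 2 := by
    have h1 : (d.m * d.a).natAbs ≤ H ^ 2 := by
      have := hS.ma
      rw [← Int.natCast_natAbs] at this
      exact_mod_cast this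
    refine le_trans ?_ h1
    rw [Int.natAbs_mul]
    refine Nat.le_mul_of_pos_left _ (Int.natAbs_pos.2 (mul_ne_zero h.n_ne ?_))
    exact_mod_cast (Nat.pos_iff_ne_zero.1 hG)
  have haN : d.a.natAbs ≤ N ^ 8 := by
    refine haH.trans ((Nat.pow_le_pow_left hS.le 2).trans ?_)
    rw [← pow_mul]
    exact Nat.pow_le_pow_right hN1 (by norm_num)
  have hBn : ∀ z ∈ Z, (d.B z.1 z.2).natAbs ≤ (H * N) ^ 2 := fun z hz => by
    have := (hZ z hz).1.le
    rw [← Int.natCast_natAbs] at this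
    exact_mod_cast this
  have hWC : ∀ z ∈ Z, d.WC z.1 z.2 ≤ C1 * u * d.JJ z.1 z.2 := fun z hz => by
    refine (hW d 0 h z.1 z.2 (hZ z hz).1.ne).trans
      (mul_le_mul_of_nonneg_right (mul_le_mul_of_nonneg_left ?_ hC1.le) (Nat.cast_nonneg _))
    have e : |(8 * d.n * d.p * d.B z.1 z.2 : ℝ)| =
        ((8 * d.n.natAbs * d.p * (d.B z.1 z.2).natAbs : ℕ) : ℝ) := by
      push_cast [Nat.cast_natAbs]
      rw [abs_mul, abs_mul, abs_mul, Nat.abs_cast, abs_of_pos (by norm_num : (0 : ℝ) < 8)]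
    rw [e]
    refine heps _ ?_
    calc 8 * d.n.natAbs * d.p * (d.B z.1 z.2).natAbs ≤ N * (N ^ 2 * N) ^ 2 :=
          Nat.mul_le_mul hN2 ((hBn z hz).trans
            (Nat.pow_le_pow_left (Nat.mul_le_mul_right _ hS.le) 2))
      _ = N ^ 7 := by ring
      _ ≤ N ^ 8 := Nat.pow_le_pow_right hN1 (by norm_num)
  have P1 : ∑ z ∈ Z.filter (fun z => N < d.JJ z.1 z.2 ^ 32), d.WC z.1 z.2 ≤
      13 * C1 * C2 * C3 * (u ^ 3103 * H) := by
    have h1 := tcr_fibre (Z.filter fun z => N < d.JJ z.1 z.2 ^ 32) d.E.natAbs.divisors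
      (fun z => d.JJ z.1 z.2) (fun z => d.WC z.1 z.2) (13 * C1 * C2 * (u ^ 3102 * H))
      (fun z _ => Nat.mem_divisors.2 ⟨(tcr_JJ h z.1 z.2).2.1, hE0.ne'⟩) (fun J hJ => by
        obtain ⟨S, hSd⟩ : ∃ S, S = (Z.filter fun z => N < d.JJ z.1 z.2 ^ 32).filter
          fun z => d.JJ z.1 z.2 = J := ⟨_, rfl⟩
        rw [← hSd]
        have hSm : ∀ z ∈ S, z ∈ Z ∧ N < d.JJ z.1 z.2 ^ 32 ∧ d.JJ z.1 z.2 = J := fun z hz => by
          rw [hSd] at hz
          exact ⟨(mem_filter.1 (mem_filter.1 hz).1).1, (mem_filter.1 (mem_filter.1 hz).1).2,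
            (mem_filter.1 hz).2⟩
        rcases S.eq_empty_or_nonempty with h0 | ⟨z0, hz0⟩
        · rw [h0, sum_empty]; positivity
        obtain ⟨m1, m2, m3⟩ := hSm z0 hz0
        have hJ0 : 0 < J := Nat.pos_of_mem_divisors hJ
        have hJR : (1 : ℝ) ≤ J := by exact_mod_cast hJ0
        have hJ4 : J ^ 2 ≤ 2 * (H * N) := by
          have a1 := (tcr_JJ h z0.1 z0.2).2.2.1
          rw [m3] at a1
          have a2 : J ^ 4 ∣ 4 * (d.B z0.1 z0.2).natAbs := by
            have := Int.natCast_dvd.1 (show ((J ^ 4 : ℕ) : ℤ) ∣ _ by exact_mod_cast a1)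
            rwa [Int.natAbs_mul] at this
          have a3 := Nat.le_of_dvd (Nat.mul_pos (by norm_num) (Int.natAbs_pos.2 (hZ z0 m1).1.ne)) a2
          have a4 := hBn z0 m1
          refine (Nat.pow_le_pow_iff_left (n := 2) (by norm_num)).1 ?_
          calc (J ^ 2) ^ 2 = J ^ 4 := by ring
            _ ≤ 4 * (H * N) ^ 2 := by omega
            _ = (2 * (H * N)) ^ 2 := by ring
        have hJu : u ^ 100 ≤ J := by
          refine le_of_pow_le_pow_left₀ (n := 32) (by norm_num) (by positivity) ?_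
          rw [← pow_mul, huN, ← m3]
          exact_mod_cast m2.le
        have a1 := xba_cntJ h hn hpE H N J hJ0 S fun z hz => ⟨(hZ z (hSm z hz).1).1, (hSm z hz).2.2⟩
        have a2 : (∏ _l ∈ J.primeFactors,
            ((2 * (4 * 8) : ℕ) : ℝ)) ≤ C2 * u := by
          refine le_trans (prod_le_prod (fun _ _ => Nat.cast_nonneg _) fun l _ => ?_)
            ((hO J hJ0.ne').trans (mul_le_mul_of_nonneg_left (heps J ?_) hC2.le))
          · refine le_mul_of_one_le_right (Nat.cast_nonneg _) (one_le_pow₀ ?_)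
            have := Nat.cast_nonneg (α := ℝ) (J.factorization l)
            linarith
          · exact (Nat.le_of_dvd hE0 (Nat.dvd_of_mem_divisors hJ)).trans hE
        have a3 := tcr_num hHR hNR hJR (by exact_mod_cast hJ4)
        have a4 : 13 * ((H : ℝ) * N) / J ≤ 13 * (u ^ 3100 * H) := by
          refine (div_le_div_of_nonneg_left (by positivity) (by positivity) hJu).trans (le_of_eq ?_)
          rw [← huN, div_eq_iff (by positivity), show 3200 = 3100 + 100 by norm_num, pow_add]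
          generalize u ^ 3100 = x
          generalize u ^ 100 = y
          ring
        push_cast at a1 a2
        have a5 : ∑ z ∈ S, d.WC z.1 z.2 ≤ S.card * (C1 * u * J) := by
          rw [← nsmul_eq_mul]
          exact sum_le_card_nsmul _ _ _ fun z hz => (hSm z hz).2.2 ▸ hWC z (hSm z hz).1
        have a6 := a1.trans (mul_le_mul_of_nonneg_right a2 (by positivity))
        calc ∑ z ∈ S, d.WC z.1 z.2 ≤ S.card * (C1 * u * J) := a5
          _ ≤ (C2 * u * (((2 * H + 1) / J ^ 2 + 1) * ((N + 1) / J ^ 2 + 1))) * (C1 * u * J) :=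
              mul_le_mul_of_nonneg_right a6 (by positivity)
          _ = C1 * C2 * u ^ 2 * (J * (((2 * H + 1) / J ^ 2 + 1) * ((N + 1) / J ^ 2 + 1))) := by
              ring
          _ ≤ C1 * C2 * u ^ 2 * (13 * (u ^ 3100 * H)) :=
              mul_le_mul_of_nonneg_left (a3.trans a4) (by positivity)
          _ = 13 * C1 * C2 * (u ^ 3102 * H) := by
              rw [show 3102 = 3100 + 2 by norm_num, pow_add]
              generalize u ^ 3100 = x
              ring)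
    have h2 := (hDv _ hE0).trans (mul_le_mul_of_nonneg_left (heps _ hE) hC3.le)
    refine h1.trans ((mul_le_mul_of_nonneg_right h2 (by positivity)).trans (le_of_eq ?_))
    rw [show 3103 = 3102 + 1 by norm_num, pow_succ]
    generalize u ^ 3102 = x
    ring
  have P2 : ∑ z ∈ Z.filter (fun z => ¬ N < d.JJ z.1 z.2 ^ 32), d.WC z.1 z.2 ≤
      12 * C1 * C3 * (u ^ 3103 * H) := by
    have hQ : ∀ Y : ℤ, (d.QQ Y : ℤ) ∣ d.a ∧ (d.QQ Y : ℤ) ∣ Y := fun Y => by
      have hT : ∀ l ∈ d.E.natAbs.primeFactors.filter (fun l : ℕ => (l : ℤ) ∣ d.a ∧ (l : ℤ) ∣ Y),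
          l.Prime := fun l hl => Nat.prime_of_mem_primeFactors (mem_filter.1 hl).1
      have a1 := tcr_prod_dvd _ hT (fun _ => 1) d.a fun l hl => by
        simpa using (mem_filter.1 hl).2.1
      have a2 := tcr_prod_dvd _ hT (fun _ => 1) Y fun l hl => by
        simpa using (mem_filter.1 hl).2.2
      simp only [pow_one] at a1 a2
      exact ⟨a1, a2⟩
    have h1 := tcr_fibre (Z.filter fun z => ¬ N < d.JJ z.1 z.2 ^ 32) d.a.natAbs.divisors
      (fun z => d.QQ z.2) (fun z => d.WC z.1 z.2) (12 * C1 * (u ^ 2901 * H))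
      (fun z _ => Nat.mem_divisors.2 ⟨Int.natCast_dvd.1 (hQ z.2).1, ha0.ne'⟩) (fun Q hQd => by
        obtain ⟨S, hSd⟩ : ∃ S, S = (Z.filter fun z => ¬ N < d.JJ z.1 z.2 ^ 32).filter
          fun z => d.QQ z.2 = Q := ⟨_, rfl⟩
        rw [← hSd]
        have hSm : ∀ z ∈ S, z ∈ Z ∧ ¬ N < d.JJ z.1 z.2 ^ 32 ∧ d.QQ z.2 = Q := fun z hz => by
          rw [hSd] at hz
          exact ⟨(mem_filter.1 (mem_filter.1 hz).1).1, (mem_filter.1 (mem_filter.1 hz).1).2,
            (mem_filter.1 hz).2⟩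
        rcases S.eq_empty_or_nonempty with h0 | ⟨z0, hz0⟩
        · rw [h0, sum_empty]; positivity
        obtain ⟨m1, m2, m3⟩ := hSm z0 hz0
        have hQ0 : 0 < Q := Nat.pos_of_mem_divisors hQd
        have hNQ : N < Q ^ 4 := m3 ▸ (hZ z0 m1).2.resolve_left m2
        have hQH : Q ≤ H ^ 2 := (Nat.le_of_dvd ha0 (Nat.dvd_of_mem_divisors hQd)).trans haH
        have hQu : u ^ 400 ≤ Q := by
          refine le_of_pow_le_pow_left₀ (n := 8) (by norm_num) (by positivity) ?_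
          rw [← pow_mul, huN]
          exact_mod_cast hNQ.le.trans (Nat.pow_le_pow_right hQ0 (by norm_num))
        have hHu : u ^ 400 ≤ H := by
          refine le_of_pow_le_pow_left₀ (n := 8) (by norm_num) (by positivity) ?_
          rw [← pow_mul, huN]
          have := hNQ.le.trans (Nat.pow_le_pow_left hQH 4)
          rw [← pow_mul] at this
          exact_mod_cast this
        have a1 := tcr_box h.a_pos H N one_pos hQ0 0 0 S fun z hz =>
          ⟨(hZ z (hSm z hz).1).1, by simp, by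
            rw [sub_zero, ← (hSm z hz).2.2]; exact (hQ z.2).2⟩
        have hu4 : 0 < u ^ 400 := by positivity
        have a2 : (2 * (H : ℝ) + 1) / Q + 1 ≤ 4 * H / u ^ 400 := by
          have b1 : (2 * (H : ℝ) + 1) / Q ≤ 3 * H / u ^ 400 :=
            div_le_div₀ (by positivity) (by linarith) hu4 hQu
          have b2 : 1 ≤ (H : ℝ) / u ^ 400 := (one_le_div hu4).2 hHu
          have b3 : 4 * (H : ℝ) / u ^ 400 = 3 * H / u ^ 400 + H / u ^ 400 := by
            generalize u ^ 400 = x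
            ring
          linarith
        have a3 : ((N : ℝ) + 1) / (1 : ℕ) + 1 ≤ 3 * u ^ 3200 := by
          rw [huN, Nat.cast_one, div_one]; linarith
        have a4 := a1.trans (mul_le_mul a2 a3 (by positivity) (by positivity))
        have a5 : ∑ z ∈ S, d.WC z.1 z.2 ≤ S.card * (C1 * u * u ^ 100) := by
          rw [← nsmul_eq_mul]
          refine sum_le_card_nsmul _ _ _ fun z hz => (hWC z (hSm z hz).1).trans
            (mul_le_mul_of_nonneg_left ?_ (by positivity))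
          refine le_of_pow_le_pow_left₀ (n := 32) (by norm_num) (by positivity) ?_
          rw [← pow_mul, huN]
          exact_mod_cast not_lt.1 (hSm z hz).2.1
        refine a5.trans ((mul_le_mul_of_nonneg_right a4 (by positivity)).trans (le_of_eq ?_))
        have e1 : u ^ 3200 = u ^ 2800 * u ^ 400 := by rw [← pow_add]
        have e2 : u ^ 2901 = u ^ 2800 * u ^ 100 * u := by rw [← pow_add, ← pow_succ]
        rw [e1, e2]
        generalize u ^ 2800 = x
        generalize u ^ 100 = y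
        generalize u ^ 400 = t at hu4
        field_simp
        ring)
    have h2 := (hDv _ ha0).trans (mul_le_mul_of_nonneg_left (heps _ haN) hC3.le)
    refine h1.trans ((mul_le_mul_of_nonneg_right h2 (by positivity)).trans ?_)
    have h3 : u ^ 2901 * u ≤ u ^ 3103 := by
      rw [← pow_succ]; exact pow_le_pow_right₀ hu1 (by norm_num)
    have h4 := mul_le_mul_of_nonneg_left h3 (show 0 ≤ 12 * C1 * C3 * H by positivity)
    generalize u ^ 2901 = x at h4 ⊢
    generalize u ^ 3103 = y at h4 ⊢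
    linarith
  rw [← sum_filter_add_sum_filter_not Z (fun z => N < d.JJ z.1 z.2 ^ 32), hu99]
  have h3 : u ^ 3103 * u ≤ u ^ 3168 := by
    rw [← pow_succ]; exact pow_le_pow_right₀ hu1 (by norm_num)
  have h4 : 0 ≤ u ^ 3103 * H := by positivity
  have h5 := mul_le_mul_of_nonneg_right hCu h4
  have h6 := mul_le_mul_of_nonneg_right h3 (show (0 : ℝ) ≤ H by positivity)
  rw [hC] at h5
  generalize u ^ 3103 = x at P1 P2 h4 h5 h6
  generalize u ^ 3168 = y at h6 ⊢
  linarith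

open Classical in
theorem xba_std : ∃ K : ℝ, 1 ≤ K ∧ ∀ d : Dt, d.Good 0 → d.n.natAbs = 1 →
    ∀ l : ℕ, l.Prime → l ≠ d.p → ∀ Y : ℤ,
    LS K l {X | d.B X Y ≠ 0} (fun X => d.B X Y) (fun X => d.Wt l X Y)
      (fun X => if d.Dom l then 0 else d.mu l X Y) (d.ms K l Y) (d.aa K l Y) := by
  obtain ⟨K₁, k1, h1⟩ := ls_bdd 2 4
  obtain ⟨K₂, k2, h2⟩ := ls_ram
  obtain ⟨K₃, k3, h3⟩ := ls_ram'
  refine ⟨K₁ + K₂ + K₃ + 9, by linarith, fun d h hn l hl hne Y => ?_⟩
  have hK : (1 : ℝ) ≤ K₁ + K₂ + K₃ + 9 := by linarith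
  by_cases hD : d.Dom l
  · refine ls_one hK (tsb_one_ms hK _ _) ?_ _ _ _ (fun X _ => ?_) _
    · unfold aa
      by_cases h4 : (l : ℤ) ∣ 2 * d.n * d.p
      · rw [if_pos h4]
        linarith
      have h5 : (l : ℤ) ∣ d.G := Int.natCast_dvd_natCast.2 (hD.2.elim
        (fun h5 => dvd_of_one_le_padicValNat (by omega)) fun h5 => h5.2)
      have h6 : (l : ℤ) ∣ d.m * d.a := (h5.mul_left d.n).mul_right d.a
      rw [if_neg h4, if_pos h6,
        tsb_jac hl ((h5.trans (dvd_pow_self _ two_ne_zero)).mul_right _)]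
      split_ifs
      · push_cast
        linarith
      · simp
    · unfold Wt
      rw [if_pos hD]
  simp only [if_neg hD]
  by_cases h4 : (l : ℤ) ∣ 2 * d.n * d.p
  · have h5 := (val_m h hl hD).1
    rw [hn] at h5
    refine (h1 d 0 h l hl (xba_two hn hl h.prime hne h4).le h5 Y).mono hK subset_rfl (fun X _ => ?_) (fun X _ => Nat.le_add_right _ _)
      ?_ ?_
    · unfold Wt
      rw [if_neg hD, if_pos h4]
    · unfold ms
      rw [if_pos h4]
      linarith
    · unfold aa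
      rw [if_pos h4]
      linarith
  by_cases hE : (l : ℤ) ∣ d.E
  swap
  · exact (ls_unr h hl hD h4 hE Y).mono (by linarith) subset_rfl (fun _ _ => le_rfl)
      (fun _ _ => Nat.zero_le _) (tsb_one_ms hK _ _) (tsb_aa (by linarith) _ _)
  by_cases ha : (l : ℤ) ∣ d.a
  · exact (h3 d 0 h l hl hD h4 hE ha Y).mono (by linarith) subset_rfl (fun _ _ => le_rfl)
      (fun _ _ => le_rfl) (tsb_ms (by linarith) _ _) (tsb_aa (by linarith) _ _)
  · exact (h2 d 0 h l hl hD h4 hE ha Y).mono (by linarith) subset_rfl (fun _ _ => le_rfl)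
      (fun _ _ => le_rfl) (tsb_ms (by linarith) _ _) (tsb_aa (by linarith) _ _)

open Classical in
/-- Shiu's bound on one row. -/
theorem xba_shiu : ∃ (K C : ℝ), 1 ≤ K ∧ 0 < C ∧
    ∀ d : Dt, d.Good 0 → d.n.natAbs = 1 → ∀ H N : ℕ, d.Sz H N → 2 * d.p + 2 ≤ N →
    ∀ (S : Finset ℕ) (k : ℕ → ℕ) (w : ℕ → ℤ → ℤ → ℝ) (M : ℕ → ℝ) (Y : ℤ) (T : Finset ℤ), d.p ∈ S →
    (∀ l ∈ S, ¬ d.Dom l) → (∏ l ∈ S, l ^ k l) ^ 8 ≤ N →
    (∀ l ∈ S, LS 1 l T (fun X => d.B X Y) (fun X => w l X Y) (fun X => 2 * d.ie l X Y + k l)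
      (M l) 2) →
    (∀ X ∈ T, d.Box H N X Y ∧ S ⊆ d.PP X Y ∧ (∀ l ∈ S, 0 ≤ w l X Y) ∧ d.JJ X Y ^ 32 ≤ N) →
    d.QQ Y ^ 4 ≤ N →
    ∑ X ∈ T, d.WS S w X Y ≤ C * N * (∏ l ∈ S, M l) *
      ((∏ l ∈ Nat.primesLE (N ^ 7) \ S, d.ms K l Y) *
        Real.exp (∑ l ∈ Nat.primesLE (N + 1), (if l ∈ S then 2 else d.aa K l Y) / l)) := by
  obtain ⟨K, hK, hstd⟩ := xba_std
  obtain ⟨C, hC, hsh⟩ := shiu_types K 6
  refine ⟨K, 2 * C, hK, by positivity, ?_⟩
  intro d hd hn H N hs hN S k w M Y T hpS hD hk hLS hT hQ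
  have hms : ∀ l, 0 ≤ d.ms K l Y := fun l => by
    have hK0 : 0 ≤ K := by linarith
    unfold ms
    split_ifs <;> positivity
  have hM0 : 0 ≤ ∏ l ∈ S, M l := prod_nonneg fun l hl => trow_M (hLS l hl)
  have hm0 : 0 ≤ ∏ l ∈ Nat.primesLE (N ^ 7) \ S, d.ms K l Y := prod_nonneg fun l _ => hms l
  rcases T.eq_empty_or_nonempty with rfl | ⟨X₀, hX₀⟩
  · rw [sum_empty]
    positivity
  have hN' : 2 * d.n.natAbs * d.p ≤ N := by rw [hn]; omega
  set P := Nat.primesLE (N ^ 7) with hP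
  have hPp : ∀ l ∈ P, l.Prime := fun l hl => Nat.prime_of_mem_primesLE hl
  have hSP : S ⊆ P := (hT X₀ hX₀).2.1.trans (trow_PP hs hN' (hT X₀ hX₀).1).2
  obtain ⟨x₀, hx₀⟩ := Box.ico hd.a_pos N Y
  have key := hsh P x₀ (N + 1) T (fun X => d.B X Y)
    (fun l X => if l ∈ S then w l X Y else d.Wt l X Y)
    (fun l X => if l ∈ S then 2 * d.ie l X Y + k l else if d.Dom l then 0 else d.mu l X Y)
    (fun l => if l ∈ S then M l else d.ms K l Y) (fun l => if l ∈ S then 2 else d.aa K l Y)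
    (fun l hl => ⟨hPp l hl, by
      by_cases h1 : l ∈ S
      · simp only [if_pos h1]
        exact (hLS l h1).mono hK (fun _ h => h) (fun _ _ => le_rfl) (fun _ _ => le_rfl) le_rfl le_rfl
      · simp only [if_neg h1]
        exact (hstd d hd hn l (hPp l hl) (fun e => h1 (e ▸ hpS)) Y).mono le_rfl (fun X hX => (hT X hX).1.ne)
          (fun _ _ => le_rfl) (fun _ _ => le_rfl) le_rfl le_rfl⟩)
    (fun X hX => by
      obtain ⟨hb, -, hw, hJ⟩ := hT X hX
      refine ⟨(hx₀ H X hb).1, (hx₀ H X hb).2, fun l _ => ?_, hb.ne,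
        (trow_PP hs hN' hb).1.trans (Nat.pow_le_pow_left (Nat.le_succ N) 6), ?_⟩
      · split_ifs with h1
        · exact hw l h1
        · exact Wt_nonneg l X Y
      · have h1 : ∏ l ∈ P, l ^ (if l ∈ S then 2 * d.ie l X Y + k l
              else if d.Dom l then 0 else d.mu l X Y) ≤
            ∏ l ∈ P, l ^ (if d.Dom l then 0 else d.mu l X Y) * (if l ∈ S then l ^ k l else 1) := by
          refine prod_le_prod' fun l hl => ?_
          by_cases h2 : l ∈ S
          · rw [if_pos h2, if_pos h2, if_neg (hD l h2), ← pow_add]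
            refine Nat.pow_le_pow_right (hPp l hl).pos ?_
            unfold mu
            omega
          · rw [if_neg h2, if_neg h2, mul_one]
        rw [prod_mul_distrib, prod_ite_mem, inter_eq_right.2 hSP] at h1
        have h2 := h1.trans (Nat.mul_le_mul_right _ (mod_le hd X Y P hPp))
        refine (Nat.pow_le_pow_left h2 2).trans (Nat.le_succ_of_le ?_)
        refine (Nat.pow_le_pow_iff_left (n := 8) (by norm_num)).1 ?_
        calc ((d.JJ X Y ^ 2 * d.QQ Y * ∏ l ∈ S, l ^ k l) ^ 2) ^ 8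
            = d.JJ X Y ^ 32 * (d.QQ Y ^ 4) ^ 4 * ((∏ l ∈ S, l ^ k l) ^ 8) ^ 2 := by ring
          _ ≤ N * N ^ 4 * N ^ 2 := by gcongr
          _ = N ^ 7 := by ring
          _ ≤ N ^ 8 := Nat.pow_le_pow_right (by omega) (by norm_num))
  have e1 : ∀ X ∈ T, d.WS S w X Y = ∏ l ∈ P, if l ∈ S then w l X Y else d.Wt l X Y := by
    intro X hX
    obtain ⟨hb, hS, -, -⟩ := hT X hX
    rw [← prod_sdiff hSP, WS, mul_comm]
    congr 1
    · rw [prod_congr rfl fun l hl => if_neg (mem_sdiff.1 hl).2]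
      refine prod_subset (sdiff_subset_sdiff (trow_PP hs hN' hb).2 Subset.rfl) fun l hl hl' => ?_
      exact Wt_eq_one hd (hPp l (mem_sdiff.1 hl).1) hb.ne
        fun h1 => hl' (mem_sdiff.2 ⟨h1, (mem_sdiff.1 hl).2⟩)
    · exact prod_congr rfl fun l hl => (if_pos hl).symm
  have e2 : ∏ l ∈ P, (if l ∈ S then M l else d.ms K l Y) =
      (∏ l ∈ S, M l) * ∏ l ∈ P \ S, d.ms K l Y := by
    rw [← prod_sdiff hSP, mul_comm, prod_congr rfl fun l hl => if_pos hl,
      prod_congr rfl fun l hl => if_neg (mem_sdiff.1 hl).2]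
  have e3 : P.filter (fun l => l ≤ N + 1) = Nat.primesLE (N + 1) := by
    have h1 : N + 1 ≤ N ^ 7 := by
      have h2 : 2 ≤ N := by omega
      calc N + 1 ≤ N ^ 2 := by nlinarith
        _ ≤ N ^ 7 := Nat.pow_le_pow_right (by omega) (by norm_num)
    ext l
    simp only [hP, mem_filter, Nat.mem_primesLE]
    exact ⟨fun h => ⟨h.2, h.1.2⟩, fun h => ⟨⟨h.1.trans h1, h.2⟩, h.1⟩⟩
  rw [sum_congr rfl e1]
  rw [e2, e3] at key
  refine key.trans ?_
  have h1 : ((N + 1 : ℕ) : ℝ) ≤ 2 * N := by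
    have : N + 1 ≤ 2 * N := by omega
    exact_mod_cast this
  calc _ ≤ C * (2 * N) * ((∏ l ∈ S, M l) * ∏ l ∈ P \ S, d.ms K l Y) *
        Real.exp (∑ l ∈ Nat.primesLE (N + 1), (if l ∈ S then 2 else d.aa K l Y) / l) := by gcongr
    _ = _ := by ring

end Dt

end Pool.Agent.EQ
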