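import Pool.Agent.P.MP_ad7a55_nt.XBa
import Pool.Agent.P.MP_ad7a55_nt.TSc
import Pool.Agent.P.MP_ad7a55_nt.TWt
import Pool.Agent.P.MP_ad7a55_nt.TCn

/-! The sieve bound with many split primes in the level. -/

set_option autoImplicit false

noncomputable section

open Finset
open scoped Classical

namespace Pool.Agent.EQ

theorem xbb_young {x t : ℝ} (hx : 0 ≤ x) (ht : 0 < t) : x ≤ x ^ (4 / 3 : ℝ) / t + t ^ 3 := by
  rcases le_or_gt x (t ^ 3) with h | h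
  · have : 0 ≤ x ^ (4 / 3 : ℝ) / t := by positivity
    linarith
  · have hx0 : 0 < x := lt_trans (by positivity) h
    have h1 : t ≤ x ^ (1 / 3 : ℝ) := by
      refine le_of_pow_le_pow_left₀ (n := 3) (by norm_num) (by positivity) ?_
      rw [← Real.rpow_natCast (x ^ (1 / 3 : ℝ)), ← Real.rpow_mul hx]
      norm_num
      exact h.le
    have h2 : x ^ (4 / 3 : ℝ) = x * x ^ (1 / 3 : ℝ) := by
      rw [show (4 / 3 : ℝ) = 1 + 1 / 3 by norm_num, Real.rpow_add hx0, Real.rpow_one]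
    have h3 : x ≤ x ^ (4 / 3 : ℝ) / t := by
      rw [le_div_iff₀ ht, h2]
      exact mul_le_mul_of_nonneg_left h1 hx
    have : 0 ≤ t ^ 3 := by positivity
    linarith

theorem xbb_per (l b : ℕ) {F : ℤ → ℝ} (hF : ∀ x y, (l : ℤ) ∣ x - y → F x = F y) :
    ∑ r ∈ range (l * b), F r = b * ∑ r ∈ range l, F r := by
  have e : ∀ j ∈ range b, ∑ i ∈ range l, F ((l * j + i : ℕ) : ℤ) = ∑ i ∈ range l, F i :=
    fun j _ => sum_congr rfl fun i _ => hF _ i ⟨j, by push_cast; ring⟩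
  rw [tlv_split l b fun r => F r, sum_congr rfl e, sum_const, card_range, nsmul_eq_mul]

theorem xbb_pow {N Q : ℕ} (hQ : 0 < Q) (h : Q ^ 100 ≤ N) :
    (N : ℝ) ^ (99 / 100 : ℝ) ≤ N / Q := by
  have hQ0 : (0 : ℝ) < Q := by exact_mod_cast hQ
  have hN : (0 : ℝ) < N := by exact_mod_cast lt_of_lt_of_le (pow_pos hQ 100) h
  have h1 : (Q : ℝ) ≤ (N : ℝ) ^ (1 / 100 : ℝ) := by
    refine le_of_pow_le_pow_left₀ (n := 100) (by norm_num) (by positivity) ?_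
    rw [← Real.rpow_natCast ((N : ℝ) ^ (1 / 100 : ℝ)), ← Real.rpow_mul hN.le]
    norm_num
    exact_mod_cast h
  rw [le_div_iff₀ hQ0]
  calc _ ≤ (N : ℝ) ^ (99 / 100 : ℝ) * (N : ℝ) ^ (1 / 100 : ℝ) :=
        mul_le_mul_of_nonneg_left h1 (by positivity)
    _ = N := by rw [← Real.rpow_add hN]; norm_num

namespace Dt

/-- The weight at a prime of the level. -/
def wl (d : Dt) (k : ℕ → ℕ) (l : ℕ) (X Y : ℤ) : ℝ := ((padicValInt l (d.B X Y) + 1 - k l : ℕ) : ℝ)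

theorem xbb_simple (d : Dt) {l : ℕ} (hl : l.Prime) (Y : ℤ) (k : ℕ)
    (h : ∀ j, 0 < j → cnt (l ^ j) (fun X => (l : ℤ) ^ j ∣ d.B X Y) ≤ 2) :
    LS 1 l {X | d.B X Y ≠ 0} (fun X => d.B X Y)
      (fun X => ((padicValInt l (d.B X Y) + 1 - k : ℕ) : ℝ)) (fun _ => k)
      (cnt (l ^ k) (fun X => (l : ℤ) ^ k ∣ d.B X Y) / (l : ℝ) ^ k) 2 := by
  have : Fact l.Prime := ⟨hl⟩
  have hq : (0 : ℤ) < (l : ℤ) ^ k := by
    have := hl.pos
    positivity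
  have hc : ∀ r : ℕ, r < l ^ k → ∀ j, 0 < j →
      cnt (l ^ j) (fun y => (l : ℤ) ^ (k + j) ∣ d.B (r + (l : ℤ) ^ k * y) Y) ≤ 2 := by
    intro r hr j hj
    refine le_trans ?_ (h (k + j) (by omega))
    rw [tqd_cnt, tqd_cnt]
    refine card_le_card_of_injOn (fun y => r + l ^ k * y) (fun y hy => ?_) fun y _ z _ e => ?_
    · obtain ⟨h1, h2⟩ := mem_filter.1 (mem_coe.1 hy)
      refine mem_coe.2 (mem_filter.2 ⟨mem_range.2 ?_, by push_cast; exact h2⟩)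
      have h3 := Nat.mul_le_mul_left (l ^ k) (Nat.succ_le_of_lt (mem_range.1 h1))
      rw [← pow_add, Nat.mul_succ] at h3
      show r + l ^ k * y < _
      omega
    · exact Nat.eq_of_mul_eq_mul_left (pow_pos hl.pos k) (Nat.add_left_cancel e)
  refine ⟨((range (l ^ k)).filter fun r : ℕ => (l : ℤ) ^ k ∣ d.B r Y).image
    fun r : ℕ => (k, (r : ℤ), 0), fun _ => 1,
    fun t j y => (l : ℤ) ^ (k + j) ∣ d.B (t.2.1 + (l : ℤ) ^ k * y) Y, fun _ j => j + 1,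
    fun t ht => ⟨zero_le_one, ?_⟩, ?_, fun x hx => ?_⟩
  · obtain ⟨r, hr, rfl⟩ := mem_image.1 ht
    have hr' := mem_range.1 (mem_filter.1 hr).1
    refine ⟨fun j x y e1 e2 => ?_, hc r hr', fun j => by positivity, fun j => by simp, by simp, ?_⟩
    · simp only [B_eq] at e2 ⊢
      refine tqd_poly ?_ e2
      rw [add_sub_add_left_eq_sub, ← mul_sub, pow_add]
      exact mul_dvd_mul_left _ e1
    · have h1 := hc r hr' 1 one_pos
      rw [pow_one] at h1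
      have h2 : (cnt l fun y => (l : ℤ) ^ (k + 1) ∣ d.B (r + (l : ℤ) ^ k * y) Y : ℝ) ≤ 2 := by
        exact_mod_cast h1
      simpa using h2
  · rw [sum_image fun r _ s _ e => by exact_mod_cast (Prod.mk.inj (Prod.mk.inj e).2).1]
    simp only
    rw [sum_const, nsmul_eq_mul, tqd_cnt, mul_one_div]
  · rcases lt_or_ge (padicValInt l (d.B x Y)) k with h1 | h1
    · left
      simp only [show padicValInt l (d.B x Y) + 1 - k = 0 by omega, Nat.cast_zero, le_refl]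
    obtain ⟨j, hj⟩ := Nat.exists_eq_add_of_le h1
    obtain ⟨r, hr⟩ := Int.eq_ofNat_of_zero_le (Int.emod_nonneg x hq.ne')
    have hr1 := Int.emod_lt_of_pos x hq
    have hx' : x = (r : ℤ) + (l : ℤ) ^ k * (x / (l : ℤ) ^ k) := by
      rw [← hr]
      exact (Int.emod_add_mul_ediv x _).symm
    have hv : ∀ i, (l : ℤ) ^ i ∣ d.B x Y ↔ i ≤ k + j := fun i => by
      rw [padicValInt_dvd_iff, hj]
      exact ⟨fun e => e.resolve_left hx, Or.inr⟩
    refine Or.inr ⟨(k, (r : ℤ), 0), mem_image_of_mem _ (mem_filter.2 ⟨mem_range.2 ?_, ?_⟩),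
      x / (l : ℤ) ^ k, j, le_rfl, hx', ⟨fun e => ?_, fun _ => ?_⟩, (hv j).2 (by omega), ?_⟩
    · rw [hr] at hr1
      exact_mod_cast hr1
    · have e2 := (hv k).2 (by omega)
      rw [B_eq] at e2 ⊢
      exact tqd_poly ⟨x / (l : ℤ) ^ k, by linarith⟩ e2
    · simp only [← hx', hv]
      omega
    · simp only [← hx', hv, le_refl]
    · simp only [hj, show k + j + 1 - k = j + 1 by omega, one_mul]
      push_cast
      exact le_rfl

theorem xbb_sharp : ∃ K : ℝ, 0 < K ∧ ∀ (d : Dt) (κ : ℕ), d.Good κ → ∀ l : ℕ, l.Prime → l ≠ 2 →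
    ¬ (l : ℤ) ∣ d.E → ¬ (l : ℤ) ∣ d.m → ∀ k : ℕ, 0 < k → ∀ t : ℝ, 0 < t → t ^ 4 ≤ l →
    ∃ M : ℤ → ℝ, (∀ Y, 0 ≤ M Y) ∧ (∀ Y Y', (l : ℤ) ^ (2 * k) ∣ Y - Y' → M Y = M Y') ∧
    ∑ r ∈ range (l ^ (2 * k)), M r ≤ (l : ℝ) ^ (2 * k) * ((1 + K / t) / (l : ℝ) ^ k) ∧
    ∀ Y, LS 1 l {X | d.B X Y ≠ 0} (fun X => d.B X Y)
      (fun X => ((padicValInt l (d.B X Y) + 1 - k : ℕ) : ℝ)) (fun _ => k) (M Y) 2 := by
  obtain ⟨K, hK, hls⟩ := ls_split
  refine ⟨3 * K + 1, by positivity, fun d κ hd l hl h2 hE hm k hk t ht htl => ?_⟩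
  have hp := tqd_prime hl
  have hl0 : (0 : ℝ) < l := by exact_mod_cast hl.pos
  obtain ⟨M, hM0, hMp, hM, hLS⟩ := hls d κ hd l hl h2 hE hm k
  obtain ⟨F, hF⟩ : ∃ F : ℤ → ℝ, F = fun Y =>
    ((1 + if (l : ℤ) ∣ d.a then 0 else jacobiSym d.E l * jacobiSym (d.Δ₁ Y) l : ℤ) : ℝ) :=
    ⟨_, rfl⟩
  have hjj : ∀ Y, -1 ≤ jacobiSym d.E l * jacobiSym (d.Δ₁ Y) l ∧
      jacobiSym d.E l * jacobiSym (d.Δ₁ Y) l ≤ 1 := fun Y => by
    rw [← jacobiSym.mul_left]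
    exact tsa_jac_le _ l
  have hΔ : ∀ x y, (l : ℤ) ∣ x - y → (l : ℤ) ∣ d.Δ₁ x - d.Δ₁ y := fun x y e => by
    rw [show d.Δ₁ x - d.Δ₁ y = (x - y) * (x + y) by simp only [Δ₁]; ring]
    exact e.mul_right _
  have hF0 : ∀ Y, 0 ≤ F Y := fun Y => by
    have := (hjj Y).1
    rw [hF]
    exact Int.cast_nonneg (by split_ifs <;> omega)
  have hFp : ∀ x y, (l : ℤ) ∣ x - y → F x = F y := fun x y e => by
    simp only [hF]
    rw [jacobiSym.mod_left' (Int.emod_eq_emod_iff_emod_sub_eq_zero.2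
      (Int.emod_eq_zero_of_dvd (hΔ x y e)))]
  have hl2 : l ^ (2 * k) = l * l ^ (2 * k - 1) := by
    rw [← pow_succ', Nat.sub_add_cancel (by omega)]
  have hl3 : (l : ℝ) ^ (2 * k) = l * ((l ^ (2 * k - 1) : ℕ) : ℝ) := by exact_mod_cast hl2
  have hdv : ∀ x y, (l : ℤ) ^ (2 * k) ∣ x - y → (l : ℤ) ∣ x - y := fun x y e =>
    (dvd_pow_self _ (by omega)).trans e
  refine ⟨fun Y => if (l : ℤ) ∣ d.Δ₁ Y then M Y else F Y / (l : ℝ) ^ k, fun Y => ?_,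
    fun Y Y' e => ?_, ?_, fun Y => ?_⟩
  · have := hF0 Y
    have := hM0 Y
    simp only
    split_ifs <;> positivity
  · simp only [dvd_iff_dvd_of_dvd_sub (hΔ Y Y' (hdv Y Y' e)), hFp Y Y' (hdv Y Y' e),
      hMp Y Y' (by exact_mod_cast e)]
  · obtain ⟨c, hc⟩ : ∃ c, c = K / (l : ℝ) ^ k := ⟨_, rfl⟩
    have hc0 : 0 < c := by rw [hc]; positivity
    rw [← hc] at hM
    have h1 : ∀ r ∈ range (l ^ (2 * k)), (if (l : ℤ) ∣ d.Δ₁ r then M r else F r / (l : ℝ) ^ k) ≤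
        F r / (l : ℝ) ^ k + c / (t * c ^ (4 / 3 : ℝ)) * M r ^ (4 / 3 : ℝ) +
          c * t ^ 3 * if (l : ℤ) ∣ d.Δ₁ r then 1 else 0 := fun r _ => by
      have a1 := hF0 r
      have a2 := hM0 r
      have a3 : 0 ≤ c / (t * c ^ (4 / 3 : ℝ)) * M r ^ (4 / 3 : ℝ) := by positivity
      split_ifs
      · have a4 := mul_le_mul_of_nonneg_left (xbb_young (div_nonneg a2 hc0.le) ht) hc0.le
        rw [Real.div_rpow a2 hc0.le, mul_div_cancel₀ _ hc0.ne'] at a4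
        have a5 : 0 ≤ F r / (l : ℝ) ^ k := by positivity
        have a6 : c * (M r ^ (4 / 3 : ℝ) / c ^ (4 / 3 : ℝ) / t + t ^ 3) =
            c / (t * c ^ (4 / 3 : ℝ)) * M r ^ (4 / 3 : ℝ) + c * t ^ 3 * 1 := by
          field_simp
        linarith
      · linarith
    refine (sum_le_sum h1).trans ?_
    rw [sum_add_distrib, sum_add_distrib, ← sum_div, ← mul_sum, ← mul_sum]
    have b1 : ∑ r ∈ range (l ^ (2 * k)), F r ≤ (l : ℝ) ^ (2 * k) * (1 + 1 / t) := by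
      rw [hl2, xbb_per l _ hFp, hl3, mul_comm (l : ℝ), mul_assoc]
      refine mul_le_mul_of_nonneg_left ?_ (by positivity)
      simp only [hF]
      rw [← Int.cast_sum, sum_add_distrib, sum_const, card_range]
      have : ∑ r ∈ range l, (if (l : ℤ) ∣ d.a then 0
          else jacobiSym d.E l * jacobiSym (d.Δ₁ r) l) ≤ 1 := by
        split_ifs with ha
        · simp
        · have := sum_jac_sq hl h2 (a := 4 * (d.m * d.a)) fun e =>
            (hp.dvd_or_dvd e).elim (twt_four hl h2) fun e => (hp.dvd_or_dvd e).elim hm ha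
          have h4 := (tsa_jac_le d.E l).1
          simp only [Δ₁]
          rw [← mul_sum, this]
          omega
      have h3 : l • (1 : ℤ) + ∑ r ∈ range l, (if (l : ℤ) ∣ d.a then 0
          else jacobiSym d.E l * jacobiSym (d.Δ₁ r) l) ≤ l + 1 := by
        rw [nsmul_eq_mul, mul_one]
        omega
      have h4 : t ≤ l := by
        rcases le_total t 1 with h5 | h5
        · exact h5.trans (by exact_mod_cast hl.one_le)
        · exact (le_self_pow₀ h5 (by norm_num)).trans htl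
      have h5 : 1 ≤ (l : ℝ) * (1 / t) := by rwa [mul_one_div, one_le_div ht]
      refine le_trans (b := (l : ℝ) + 1) (by exact_mod_cast h3) (by linarith)
    have b2 : ∑ r ∈ range (l ^ (2 * k)), (if (l : ℤ) ∣ d.Δ₁ r then (1 : ℝ) else 0) ≤
        ((l ^ (2 * k - 1) : ℕ) : ℝ) * 2 := by
      rw [hl2, xbb_per l _ (F := fun r => if (l : ℤ) ∣ d.Δ₁ r then (1 : ℝ) else 0) fun x y e => by
        simp only [dvd_iff_dvd_of_dvd_sub (hΔ x y e)]]
      refine mul_le_mul_of_nonneg_left ?_ (by positivity)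
      have h3 := card_sq_roots hl h2 (4 * (d.m * d.a))
      have h4 := (tsa_jac_le (4 * (d.m * d.a)) l).2
      rw [sum_boole]
      have h5 : (((range l).filter fun r : ℕ => (l : ℤ) ∣ (r : ℤ) ^ 2 - 4 * (d.m * d.a)).card : ℤ)
          ≤ 2 := by omega
      exact_mod_cast h5
    have b3 : c / (t * c ^ (4 / 3 : ℝ)) * ∑ r ∈ range (l ^ (2 * k)), M r ^ (4 / 3 : ℝ) ≤
        (l : ℝ) ^ (2 * k) * (c / t) := by
      refine (mul_le_mul_of_nonneg_left hM (by positivity)).trans (le_of_eq ?_)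
      push_cast
      field_simp
    have b4 : c * t ^ 3 * (((l ^ (2 * k - 1) : ℕ) : ℝ) * 2) ≤ (l : ℝ) ^ (2 * k) * (2 * (c / t)) := by
      rw [hl3]
      calc _ = t ^ 4 * ((l ^ (2 * k - 1) : ℕ) : ℝ) * (2 * (c / t)) := by field_simp
        _ ≤ _ := by gcongr
    calc _ ≤ (l : ℝ) ^ (2 * k) * (1 + 1 / t) / (l : ℝ) ^ k + (l : ℝ) ^ (2 * k) * (c / t) +
          (l : ℝ) ^ (2 * k) * (2 * (c / t)) :=
          add_le_add (add_le_add (by gcongr) b3)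
            ((mul_le_mul_of_nonneg_left b2 (by positivity)).trans b4)
      _ = _ := by rw [hc]; field_simp; ring
  · by_cases hY : (l : ℤ) ∣ d.Δ₁ Y
    · simp only [if_pos hY]
      exact hLS Y
    simp only [if_neg hY]
    have hd' : ¬ (l : ℤ) ∣ (d.b * Y) ^ 2 - 4 * d.a * (d.c * Y ^ 2 + d.m * d.E) := by
      rw [disc_B]
      exact fun e => (hp.dvd_or_dvd e).elim hE hY
    have hc : ∀ j, 0 < j → (cnt (l ^ j) (fun X => (l : ℤ) ^ j ∣ d.B X Y) : ℤ) =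
        1 + if (l : ℤ) ∣ d.a then 0 else jacobiSym d.E l * jacobiSym (d.Δ₁ Y) l := by
      intro j hj
      simp only [B_eq]
      by_cases ha : (l : ℤ) ∣ d.a
      · rw [if_pos ha, cnt_hensel' hl ha fun e => hd'
          (dvd_sub (dvd_pow e two_ne_zero) ((ha.mul_left _).mul_right _))]
        simp
      · rw [if_neg ha, cnt_hensel hl h2 ha hd' hj, disc_B, jacobiSym.mul_left]
    have h1 := xbb_simple d hl Y k fun j hj => by
      have h3 := hc j hj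
      have h4 := (hjj Y).2
      split_ifs at h3 <;> omega
    rwa [show (cnt (l ^ k) (fun X => (l : ℤ) ^ k ∣ d.B X Y) : ℝ) = F Y by
      rw [hF]; simp only [← hc k hk, Int.cast_natCast]] at h1

theorem xbb_ω {d : Dt} (hn : d.n.natAbs = 1) (hp : d.p.Prime) :
    (2 * d.n * d.p).natAbs.primeFactors.card ≤ 2 := by
  rw [Int.natAbs_mul, Int.natAbs_mul, hn, Int.natAbs_natCast, mul_one,
    show (2 : ℤ).natAbs = 2 from rfl, Nat.primeFactors_mul two_ne_zero hp.ne_zero,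
    Nat.prime_two.primeFactors, hp.primeFactors]
  exact (card_union_le _ _).trans (by simp)

/-- One row, with no loss at the primes of `S`. -/
theorem xbb_row : ∃ (C : ℝ) (A : ℕ), 0 < C ∧
    ∀ d : Dt, d.Good 0 → d.n.natAbs = 1 → ∀ H N : ℕ, d.Sz H N → 2 * d.p + 2 ≤ N →
    ∀ (S : Finset ℕ) (k : ℕ → ℕ) (w : ℕ → ℤ → ℤ → ℝ) (M : ℕ → ℝ) (Y : ℤ) (T : Finset ℤ), d.p ∈ S →
    (∀ l ∈ S, ¬ d.Dom l) → (∏ l ∈ S, l ^ k l) ^ 8 ≤ N →
    (∀ l ∈ S, LS 1 l T (fun X => d.B X Y) (fun X => w l X Y) (fun X => 2 * d.ie l X Y + k l)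
      (M l) 2) →
    (∀ X ∈ T, d.Box H N X Y ∧ S ⊆ d.PP X Y ∧ (∀ l ∈ S, 0 ≤ w l X Y) ∧ d.JJ X Y ^ 32 ≤ N) →
    d.QQ Y ^ 4 ≤ N →
    ∑ X ∈ T, d.WS S w X Y ≤ C * N * (∏ l ∈ S, M l) * Real.log N ^ A := by
  obtain ⟨K, C, hK, hC, h⟩ := xba_shiu
  obtain ⟨C₁, hC₁, h₁⟩ := exp_primes_le (2 * (⌈K⌉₊ + 2))
  set A : ℕ := 2 * (⌈K⌉₊ + 2) with hA
  refine ⟨C * (Real.exp (K * 2) * (C₁ * 7 ^ A)), A, by positivity, ?_⟩
  intro d hd hn H N hs hN S k w M Y T hpS hD hk hLS hT hQ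
  have key := h d hd hn H N hs hN S k w M Y T hpS hD hk hLS hT hQ
  have hM0 : 0 ≤ ∏ l ∈ S, M l := prod_nonneg fun l hl => trow_M (hLS l hl)
  have hPp : ∀ l ∈ Nat.primesLE (N ^ 7) \ S, l.Prime :=
    fun l hl => Nat.prime_of_mem_primesLE (mem_sdiff.1 hl).1
  have hN2 : 2 ≤ N := by omega
  have hK0 : 0 ≤ K := by linarith
  refine key.trans ?_
  have h3 := trow_ms hd hK Y _ (Nat.primesLE (N ^ 7)) hPp fun l hl _ => (mem_sdiff.1 hl).1
  have hω : (((2 * d.n * d.p).natAbs.primeFactors.card : ℕ) : ℝ) ≤ 2 := by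
    exact_mod_cast xbb_ω hn hd.prime
  have h4 : N + 1 ≤ N ^ 7 := by
    calc N + 1 ≤ N ^ 2 := by nlinarith
      _ ≤ N ^ 7 := Nat.pow_le_pow_right (by omega) (by norm_num)
  have h5 : ∑ l ∈ Nat.primesLE (N + 1), (if l ∈ S then 2 else d.aa K l Y) / l ≤
      (K + 2) * ∑ l ∈ Nat.primesLE (N ^ 7), 1 / (l : ℝ) := by
    rw [mul_sum]
    refine le_trans (sum_le_sum fun l _ => ?_) (sum_le_sum_of_subset_of_nonneg
      (Nat.primesLE_mono h4) fun _ _ _ => by positivity)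
    rw [mul_one_div]
    refine div_le_div_of_nonneg_right ?_ (by positivity)
    split_ifs
    · linarith
    · exact trow_aa_le d hK l Y
  have h6 := h₁ (N ^ 7) (by omega)
  have h7 : 0 ≤ ∑ l ∈ Nat.primesLE (N ^ 7), 1 / (l : ℝ) := sum_nonneg fun _ _ => by positivity
  have h8 : K + (K + 2) ≤ (A : ℝ) := by
    have := Nat.le_ceil K
    rw [hA]
    push_cast
    linarith
  rw [Nat.cast_pow, Real.log_pow, mul_pow] at h6
  have h9 : (∏ l ∈ Nat.primesLE (N ^ 7) \ S, d.ms K l Y) *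
      Real.exp (∑ l ∈ Nat.primesLE (N + 1), (if l ∈ S then 2 else d.aa K l Y) / l) ≤
      Real.exp (K * 2) * (C₁ * (7 ^ A * Real.log N ^ A)) := by
    refine (mul_le_mul_of_nonneg_right h3 (by positivity)).trans ?_
    refine le_trans ?_ (mul_le_mul_of_nonneg_left (by exact_mod_cast h6) (by positivity))
    rw [← Real.exp_add, ← Real.exp_add]
    refine Real.exp_le_exp.2 ?_
    nlinarith [mul_le_mul_of_nonneg_right h8 h7, mul_le_mul_of_nonneg_left hω hK0]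
  calc _ ≤ C * N * (∏ l ∈ S, M l) * (Real.exp (K * 2) * (C₁ * (7 ^ A * Real.log N ^ A))) :=
        mul_le_mul_of_nonneg_left h9 (by positivity)
    _ = _ := by ring

theorem xbb_W5 {d : Dt} {l : ℕ} (hl : l.Prime) (hE : ¬ (l : ℤ) ∣ d.E) {X Y : ℤ}
    (hB : d.B X Y ≠ 0) (k : ℕ → ℕ) : 0 ≤ d.wl k l X Y ∧ d.wl k l X Y ≤ d.W5 l X Y := by
  have := Fact.mk hl
  refine ⟨Nat.cast_nonneg _, le_trans ?_ ((tdt_W5 hl X Y).2 (padicValInt.eq_zero_of_not_dvd hE))⟩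
  rw [padicValInt.mul (by norm_num) hB, wl]
  exact_mod_cast (by omega)

theorem xbb_zero {d : Dt} {κ : ℕ} (h : d.Good κ) {S : Finset ℕ} {k : ℕ → ℕ} {X Y : ℤ}
    (hB : d.B X Y ≠ 0) (hS : ∀ l ∈ S, l.Prime ∧ 0 < k l) (h0 : ¬ S ⊆ d.PP X Y) :
    d.WS S (d.wl k) X Y = 0 := by
  obtain ⟨l, hl, hl'⟩ := not_subset.1 h0
  have h1 : ¬ (l : ℤ) ∣ d.B X Y := fun e => hl' (tcn_PP h hB (hS l hl).1 (e.mul_left _))
  have h2 := (hS l hl).2
  rw [WS, prod_eq_zero hl, zero_mul]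
  rw [wl, padicValInt.eq_zero_of_not_dvd h1, show 0 + 1 - k l = 0 by omega, Nat.cast_zero]

/-- The count of configurations with a level structure at many split primes. -/
theorem cnt_lev : ∃ (C : ℝ) (A N₀ : ℕ), 0 < C ∧ ∀ d : Dt, d.Good 0 → d.n.natAbs = 1 →
    ∀ H N : ℕ, d.Sz H N → N₀ ≤ N → ∀ (S : Finset ℕ) (k : ℕ → ℕ), d.p ∈ S →
    (∀ l ∈ S, l.Prime ∧ l ≠ 2 ∧ ¬ (l : ℤ) ∣ d.E ∧ ¬ l ∣ d.G ∧ 0 < k l) →
    ∑ l ∈ S, (l : ℝ) ^ (-(1 / 4 : ℝ)) ≤ 1 → (∏ l ∈ S, l ^ k l) ^ 100 ≤ N →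
    (∏ l ∈ S, l ^ k l) ^ 2 ≤ H → ∀ Z : Finset (ℤ × ℤ), (∀ z ∈ Z, d.Box H N z.1 z.2) →
    ∑ z ∈ Z, d.WS S (d.wl k) z.1 z.2 ≤
      C * Real.log N ^ A / (∏ l ∈ S, l ^ k l : ℕ) * N * H := by
  obtain ⟨C, A, hC, hrow⟩ := xbb_row
  obtain ⟨N₁, hcr⟩ := xba_crude
  obtain ⟨K, hK, hsh⟩ := xbb_sharp
  refine ⟨C * (5 * Real.exp K) + 1, A, N₁ + 3, by positivity,
    fun d hd hn H N hs hN S k hpS hS hS4 hQN hQH Z hZ => ?_⟩
  obtain ⟨Q, hQ⟩ : ∃ Q, Q = ∏ l ∈ S, l ^ k l := ⟨_, rfl⟩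
  have hQ0 : 0 < Q := hQ ▸ prod_pos fun l hl => pow_pos (hS l hl).1.pos _
  have hE : ∀ l ∈ S, ¬ (l : ℤ) ∣ d.E := fun l hl => (hS l hl).2.2.1
  have hD : ∀ l ∈ S, ¬ d.Dom l := fun l hl h => by
    have h1 := (hS l hl).2.2.2.1
    rcases h.2 with h | h
    · rw [padicValNat.eq_zero_of_not_dvd h1] at h
      omega
    · exact h1 h.2
  have hm : ∀ l ∈ S, ¬ (l : ℤ) ∣ d.m := fun l hl e => by
    rcases (tqd_prime (hS l hl).1).dvd_or_dvd e with e | e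
    · have := Int.natCast_dvd.1 e
      rw [hn] at this
      exact (hS l hl).1.one_lt.ne' (Nat.dvd_one.1 this)
    · exact (hS l hl).2.2.2.1 (by exact_mod_cast e)
  have hl0 : ∀ l ∈ S, (0 : ℝ) < l := fun l hl => by exact_mod_cast (hS l hl).1.pos
  have hex : ∀ l ∈ S, _ := fun l hl => hsh d 0 hd l (hS l hl).1 (hS l hl).2.1 (hE l hl)
    (hm l hl) (k l) (hS l hl).2.2.2.2 ((l : ℝ) ^ (1 / 4 : ℝ)) (Real.rpow_pos_of_pos (hl0 l hl) _)
    (le_of_eq (by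
      rw [← Real.rpow_natCast, ← Real.rpow_mul (hl0 l hl).le]
      norm_num))
  choose! M hM0 hMp hM hLS using hex
  have hpQ : d.p ≤ Q := by
    refine Nat.le_of_dvd hQ0 (hQ ▸ (dvd_pow_self _ (hS _ hpS).2.2.2.2.ne').trans ?_)
    exact dvd_prod_of_mem (fun l => l ^ k l) hpS
  rw [← hQ] at hQN hQH ⊢
  have hp2 := hd.prime.two_le
  have hpN : 8 * d.p ≤ N := by
    calc 8 * d.p ≤ 2 ^ 99 * Q := Nat.mul_le_mul (by norm_num) hpQ
      _ ≤ Q ^ 99 * Q := Nat.mul_le_mul_right _ (Nat.pow_le_pow_left (by omega) _)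
      _ = Q ^ 100 := by ring
      _ ≤ N := hQN
  have hL1 : 1 ≤ Real.log N := by
    rw [Real.le_log_iff_exp_le (by exact_mod_cast (by omega : 0 < N))]
    have : (3 : ℝ) ≤ N := by exact_mod_cast (by omega : 3 ≤ N)
    linarith [Real.exp_one_lt_d9]
  have hLA : 1 ≤ Real.log N ^ A := one_le_pow₀ hL1
  have hQ1 : (0 : ℝ) < Q := by exact_mod_cast hQ0
  set Z₀ := Z.filter (fun z => S ⊆ d.PP z.1 z.2) with hZ₀
  have e0 : ∑ z ∈ Z, d.WS S (d.wl k) z.1 z.2 = ∑ z ∈ Z₀, d.WS S (d.wl k) z.1 z.2 :=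
    (sum_filter_of_ne fun z hz h0 => by
      by_contra h1
      exact h0 (xbb_zero hd (hZ z hz).ne (fun l hl => ⟨(hS l hl).1, (hS l hl).2.2.2.2⟩) h1)).symm
  rw [e0, ← sum_filter_add_sum_filter_not Z₀
    (fun z => d.JJ z.1 z.2 ^ 32 ≤ N ∧ d.QQ z.2 ^ 4 ≤ N)]
  have b2 : ∑ z ∈ Z₀.filter (fun z => ¬ (d.JJ z.1 z.2 ^ 32 ≤ N ∧ d.QQ z.2 ^ 4 ≤ N)),
      d.WS S (d.wl k) z.1 z.2 ≤ N * H * Real.log N ^ A / Q := by
    refine le_trans (sum_le_sum fun z hz => ?_) ((hcr d hd hn (hE _ hpS) H N hs (by omega) hpN _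
      fun z hz => ⟨hZ z (mem_filter.1 (mem_filter.1 hz).1).1, ?_⟩).trans ?_)
    · have h2 := mem_filter.1 (mem_filter.1 hz).1
      exact WS_le hd (hZ z h2.1).ne h2.2 hD fun l hl =>
        xbb_W5 (hS l hl).1 (hE l hl) (hZ z h2.1).ne k
    · have := (mem_filter.1 hz).2
      omega
    · calc _ ≤ (N / Q : ℝ) * H * 1 := by
            rw [mul_one]
            exact mul_le_mul_of_nonneg_right (xbb_pow hQ0 hQN) (by positivity)
        _ ≤ (N / Q : ℝ) * H * Real.log N ^ A := by gcongr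
        _ = _ := by ring
  set Z₁ := Z₀.filter (fun z => d.JJ z.1 z.2 ^ 32 ≤ N ∧ d.QQ z.2 ^ 4 ≤ N) with hZ₁
  have hF0 : ∀ Y, 0 ≤ ∏ l ∈ S, M l Y := fun Y => prod_nonneg fun l hl => hM0 l hl Y
  have b1 : ∑ z ∈ Z₁, d.WS S (d.wl k) z.1 z.2 ≤
      ∑ Y ∈ Ico (-(H : ℤ)) (-(H : ℤ) + (2 * H + 1 : ℕ)),
        C * N * (∏ l ∈ S, M l Y) * Real.log N ^ A := by
    rw [← sum_fiberwise_of_maps_to (s := Z₁) (t := Ico (-(H : ℤ)) (-(H : ℤ) + (2 * H + 1 : ℕ)))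
      (g := fun z => z.2) (fun z hz => by
        have := abs_le.1 (hZ z (mem_filter.1 (mem_filter.1 hz).1).1).y
        refine mem_Ico.2 ⟨this.1, ?_⟩
        push_cast
        omega)]
    refine sum_le_sum fun Y _ => ?_
    rcases (Z₁.filter fun z => z.2 = Y).eq_empty_or_nonempty with h0 | ⟨z₀, hz₀⟩
    · have := hF0 Y
      rw [h0, sum_empty]
      positivity
    have hz₁ := mem_filter.1 hz₀
    have hz₂ := mem_filter.1 hz₁.1
    have hmem : ∀ X ∈ (Z₁.filter fun z => z.2 = Y).image Prod.fst, (X, Y) ∈ Z₁ := by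
      intro X hX
      obtain ⟨z, hz, rfl⟩ := mem_image.1 hX
      obtain ⟨h2, rfl⟩ := mem_filter.1 hz
      exact h2
    have h2 := hrow d hd hn H N hs (by omega) S k (d.wl k) (fun l => M l Y) Y
      ((Z₁.filter fun z => z.2 = Y).image Prod.fst) hpS hD
      (hQ ▸ (Nat.pow_le_pow_right hQ0 (by norm_num)).trans hQN)
      (fun l hl => (hLS l hl Y).mono le_rfl
        (fun X hX => (hZ _ (mem_filter.1 (mem_filter.1 (hmem X hX)).1).1).ne)
        (fun _ _ => le_rfl) (fun _ _ => Nat.le_add_left _ _) le_rfl le_rfl)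
      (fun X hX => by
        have h3 := mem_filter.1 (hmem X hX)
        have h4 := mem_filter.1 h3.1
        exact ⟨hZ _ h4.1, h4.2, fun l _ => Nat.cast_nonneg _, h3.2.1⟩)
      (hz₁.2 ▸ hz₂.2.2)
    rw [sum_image (fun x hx y hy hxy => Prod.ext hxy
      ((mem_filter.1 hx).2.trans (mem_filter.1 hy).2.symm))] at h2
    exact le_trans (le_of_eq (sum_congr rfl fun z hz => by rw [(mem_filter.1 hz).2])) h2
  have eQ : ∏ l ∈ S, l ^ (2 * k l) = Q ^ 2 := by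
    rw [hQ, ← prod_pow]
    exact prod_congr rfl fun l _ => by ring
  have c1 := sum_period_prod S (fun l hl => (hS l hl).1) (fun l => 2 * k l) M hMp
  rw [eQ] at c1
  have c2 : ∏ l ∈ S, ∑ r ∈ range (l ^ (2 * k l)), M l r ≤ Q * Real.exp K := by
    calc _ ≤ ∏ l ∈ S, (((l ^ k l : ℕ) : ℝ) * Real.exp (K * (l : ℝ) ^ (-(1 / 4 : ℝ)))) := by
          refine prod_le_prod (fun l hl => sum_nonneg fun r _ => hM0 l hl r) fun l hl => ?_
          have h0 := hl0 l hl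
          refine (hM l hl).trans ?_
          have := Real.add_one_le_exp (K * (l : ℝ) ^ (-(1 / 4 : ℝ)))
          calc _ = (l : ℝ) ^ k l * (K * (l : ℝ) ^ (-(1 / 4 : ℝ)) + 1) := by
                rw [two_mul, pow_add, Real.rpow_neg h0.le]
                field_simp
                ring
            _ ≤ _ := by push_cast; gcongr
      _ ≤ _ := by
          rw [prod_mul_distrib, ← Nat.cast_prod, ← hQ, ← Real.exp_sum, ← mul_sum]
          exact mul_le_mul_of_nonneg_left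
            (Real.exp_le_exp.2 (mul_le_of_le_one_right hK.le hS4)) hQ1.le
  have c3 := sum_le_period (q := Q ^ 2) (pow_pos hQ0 2) (F := fun Y => ∏ l ∈ S, M l Y) hF0
    (fun x y e => prod_congr rfl fun l hl => hMp l hl x y (dvd_trans (by
      rw [← eQ]
      exact_mod_cast dvd_prod_of_mem (fun l => l ^ (2 * k l)) hl) e)) (-(H : ℤ)) (2 * H + 1)
  rw [c1] at c3
  have c4 : (((2 * H + 1 : ℕ) : ℝ) / ((Q ^ 2 : ℕ) : ℝ) + 1) * (Q * Real.exp K) ≤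
      5 * Real.exp K * H / Q := by
    have h1 : ((Q : ℝ)) ^ 2 ≤ H := by exact_mod_cast hQH
    have h2 : (1 : ℝ) ≤ H := by exact_mod_cast hs.one
    have h3 : (((2 * H + 1 : ℕ) : ℝ) / ((Q ^ 2 : ℕ) : ℝ) + 1) ≤ 5 * H / (Q : ℝ) ^ 2 := by
      push_cast
      rw [div_add_one (by positivity)]
      exact div_le_div_of_nonneg_right (by linarith) (by positivity)
    refine (mul_le_mul_of_nonneg_right h3 (by positivity)).trans (le_of_eq ?_)
    field_simp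
  have c5 := c3.trans ((mul_le_mul_of_nonneg_left c2 (by positivity)).trans c4)
  rw [← sum_mul, ← mul_sum] at b1
  calc _ ≤ C * N * (5 * Real.exp K * H / Q) * Real.log N ^ A + N * H * Real.log N ^ A / Q :=
        add_le_add (b1.trans (by gcongr)) b2
    _ = _ := by ring

theorem xbb_mono {q q' : ℕ} (h : q ∣ q') {b₀ : ℤ} {Θ η₁ η₂ : M2} (hl : Lvl q' b₀ Θ η₁ η₂) :
    Lvl q b₀ Θ η₁ η₂ := by
  obtain ⟨v, r, s, l₁, l₂, a1, a2, a3, a4⟩ := hl
  have e : (q : ℤ) ∣ q' := Int.natCast_dvd_natCast.2 h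
  exact ⟨v, r, s, l₁, l₂, e.trans a1, fun i => (mul_dvd_mul_left 2 e).trans (a2 i),
    fun i => e.trans (a3 i), fun i => e.trans (a4 i)⟩

theorem xbb_lev {d : Dt} {κ : ℕ} (h : d.Good κ) {l : ℕ} (hl : l.Prime) (h2 : l ≠ 2)
    (hE : jacobiSym d.E l = 1) (k : ℕ) (b₀ : ℤ) {X Y : ℤ} (hB : d.B X Y ≠ 0) :
    Few (Leq l) (d.CS X Y (Lvl (l ^ k) b₀)) ((padicValInt l (d.B X Y) + 1 - k : ℕ) : ℝ) :=
  (twt_lev (d := ⟨d.a, d.b, d.c, d.n, d.g₁, d.g₂, l⟩) (κ := padicValNat l d.G)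
    ⟨h.a_pos, h.E_neg, h.prim, h.n_ne, h.g₁_pos, h.g₂_pos, h.cop, hl, le_rfl⟩ h2 hE k b₀
    (X := X) (Y := Y) hB).mono
    (fun _ ⟨η₂, c1, c2, c3⟩ => ⟨η₂, ⟨c1.th, c1.r₁, c1.r₂, c1.det, c1.t₁, c1.t₂⟩, c2, c3⟩) le_rfl

theorem few_levs {d : Dt} {κ : ℕ} (h : d.Good κ) (S : Finset ℕ) (k : ℕ → ℕ)
    (hS : ∀ l ∈ S, l.Prime ∧ l ≠ 2 ∧ jacobiSym d.E l = 1 ∧ 0 < k l) (b₀ : ℤ) {X Y : ℤ}
    (hB : d.B X Y ≠ 0) :
    Few Geq (d.CS X Y (Lvl (∏ l ∈ S, l ^ k l) b₀)) (d.WS S (d.wl k) X Y) := by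
  have hdv : ∀ l ∈ S, l ^ k l ∣ ∏ l ∈ S, l ^ k l := fun l hl =>
    dvd_prod_of_mem (fun l => l ^ k l) hl
  by_cases h0 : S ⊆ d.PP X Y
  · have := twt_global h hB (R := Lvl (∏ l ∈ S, l ^ k l) b₀)
      (fun l => if l ∈ S then d.wl k l X Y else d.Wt l X Y) (by
        intro l hl
        split_ifs with h3
        · obtain ⟨a1, a2, a3, -⟩ := hS l h3
          refine (xbb_lev h a1 a2 a3 (k l) b₀ hB).mono ?_ le_rfl
          rintro P ⟨η₂, c1, c2, c3⟩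
          exact ⟨η₂, c1, c2, xbb_mono (hdv l h3) c3⟩
        · refine (few_Wt h (Nat.prime_of_mem_primeFactors hl) hB).mono ?_ le_rfl
          rintro P ⟨η₂, c1, c2, -⟩
          exact ⟨η₂, c1, c2, trivial⟩)
    refine this.mono subset_rfl (le_of_eq ?_)
    rw [WS, ← prod_sdiff h0, mul_comm, prod_congr rfl fun l hl => if_pos hl,
      prod_congr rfl fun l hl => if_neg (mem_sdiff.1 hl).2]
  · rw [xbb_zero h hB (fun l hl => ⟨(hS l hl).1, (hS l hl).2.2.2⟩) h0]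
    obtain ⟨l, hl, hl'⟩ := not_subset.1 h0
    obtain ⟨a1, a2, -, a5⟩ := hS l hl
    intro T hT _
    have : T = ∅ := by
      refine eq_empty_of_forall_notMem fun P hP => hl' (tcn_PP h hB a1 (Dvd.dvd.mul_left ?_ _))
      have h1 := (levC_of_lvl h (prod_pos fun l hl => pow_pos (hS l hl).1.pos _) (hT P hP)).1
      have h3 : (l : ℤ) ∣ 4 * d.B X Y :=
        (Int.natCast_dvd_natCast.2 ((dvd_pow_self l a5.ne').trans (hdv l hl))).trans h1
      exact ((tqd_prime a1).dvd_or_dvd h3).resolve_left (twt_four a1 a2)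
    rw [this]
    simp

end Dt

end Pool.Agent.EQ
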