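import Mathlib

/-! Finite probability: means, conditional probabilities, entropy. -/

set_option autoImplicit false

noncomputable section

open Finset
open scoped Classical

namespace Pool.Agent.EQ

variable {α β β' Y : Type}

/-- The mean over a finite set. -/
def mn (O : Finset α) (G : α → ℝ) : ℝ := (∑ z ∈ O, G z) / #O

/-- The proportion of the points with a property. -/
def prb (O : Finset α) (p : α → Prop) : ℝ := (#{z ∈ O | p z} : ℝ) / #O

/-- The conditional probability of `ξ = y` given `F = b`. -/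
def cp (O : Finset α) (F : α → β) (ξ : α → Y) (b : β) (y : Y) : ℝ :=
  (#{z ∈ O | F z = b ∧ ξ z = y} : ℝ) / #{z ∈ O | F z = b}

/-- The conditional entropy. -/
def ent (O : Finset α) (F : α → β) (ξ : α → Y) : ℝ :=
  mn O fun x => -Real.log (cp O F ξ (F x) (ξ x))

variable {O : Finset α} {F : α → β} {ξ : α → Y} {p p' : α → Prop} {G G' : α → ℝ}

theorem pb_eq (O : Finset α) (p : α → Prop) : prb O p = mn O fun x => if p x then 1 else 0 := by
  unfold prb mn
  rw [Finset.sum_boole]

theorem pb_nonneg (O : Finset α) (p : α → Prop) : 0 ≤ prb O p := by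
  unfold prb
  positivity

theorem pb_le_one (O : Finset α) (p : α → Prop) : prb O p ≤ 1 := by
  unfold prb
  exact div_le_one_of_le₀ (by exact_mod_cast Finset.card_filter_le _ _) (by positivity)

theorem pb_mono (h : ∀ x ∈ O, p x → p' x) : prb O p ≤ prb O p' := by
  unfold prb
  refine div_le_div_of_nonneg_right ?_ (by positivity)
  exact_mod_cast Finset.card_le_card fun x hx => by
    rw [Finset.mem_filter] at hx ⊢
    exact ⟨hx.1, h x hx.1 hx.2⟩

theorem pb_or (O : Finset α) (p p' : α → Prop) :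
    prb O (fun x => p x ∨ p' x) ≤ prb O p + prb O p' := by
  unfold prb
  rw [← add_div]
  refine div_le_div_of_nonneg_right ?_ (by positivity)
  rw [← Nat.cast_add, Nat.cast_le]
  refine le_trans (Finset.card_le_card ?_) (Finset.card_union_le _ _)
  intro x hx
  simp only [Finset.mem_filter, Finset.mem_union] at hx ⊢
  tauto

theorem pb_exists {ι : Type} (O : Finset α) (I : Finset ι) (p : ι → α → Prop) :
    prb O (fun x => ∃ i ∈ I, p i x) ≤ ∑ i ∈ I, prb O (p i) := by
  unfold prb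
  rw [← Finset.sum_div]
  refine div_le_div_of_nonneg_right ?_ (by positivity)
  rw [← Nat.cast_sum, Nat.cast_le]
  refine le_trans (Finset.card_le_card ?_) Finset.card_biUnion_le
  intro x hx
  simp only [Finset.mem_filter, Finset.mem_biUnion] at hx ⊢
  obtain ⟨h1, i, hi, h2⟩ := hx
  exact ⟨i, hi, h1, h2⟩

theorem pb_sub (O : Finset α) (p p' : α → Prop) :
    prb O p - prb O p' ≤ prb O fun x => p x ∧ ¬ p' x := by
  have h1 := pb_or O (fun x => p x ∧ ¬ p' x) p'
  have h2 : prb O p ≤ prb O (fun x => (p x ∧ ¬ p' x) ∨ p' x) := pb_mono fun x _ hx => by tauto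
  linarith

theorem mn_mono (h : ∀ x ∈ O, G x ≤ G' x) : mn O G ≤ mn O G' := by
  unfold mn
  exact div_le_div_of_nonneg_right (Finset.sum_le_sum h) (by positivity)

theorem mn_add (O : Finset α) (G G' : α → ℝ) :
    mn O (fun x => G x + G' x) = mn O G + mn O G' := by
  unfold mn
  rw [Finset.sum_add_distrib, add_div]

theorem mn_mul (O : Finset α) (c : ℝ) (G : α → ℝ) : mn O (fun x => c * G x) = c * mn O G := by
  unfold mn
  rw [← Finset.mul_sum, mul_div_assoc]

theorem mn_const (hO : O.Nonempty) (c : ℝ) : mn O (fun _ => c) = c := by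
  unfold mn
  have : (#O : ℝ) ≠ 0 := by exact_mod_cast hO.card_pos.ne'
  rw [Finset.sum_const, nsmul_eq_mul]
  field_simp

theorem mn_sum {ι : Type} (O : Finset α) (I : Finset ι) (G : ι → α → ℝ) :
    mn O (fun x => ∑ i ∈ I, G i x) = ∑ i ∈ I, mn O (G i) := by
  unfold mn
  rw [Finset.sum_comm, Finset.sum_div]

theorem mn_swap (O : Finset α) (U : Finset β) (G : α → β → ℝ) :
    mn O (fun x => mn U (G x)) = mn U fun u => mn O fun x => G x u := by
  unfold mn
  rw [← Finset.sum_div, ← Finset.sum_div, Finset.sum_comm, div_div, div_div, mul_comm]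

theorem abs_mn_le (O : Finset α) (G : α → ℝ) : |mn O G| ≤ mn O fun x => |G x| := by
  unfold mn
  rw [abs_div, Nat.abs_cast]
  exact div_le_div_of_nonneg_right (Finset.abs_sum_le_sum_abs _ _) (by positivity)

theorem mn_perm {π : α → α} (h : ∀ x ∈ O, π x ∈ O) (hi : Set.InjOn π O) (G : α → ℝ) :
    mn O (fun x => G (π x)) = mn O G := by
  unfold mn
  congr 1
  have himg : O.image π = O := by
    apply Finset.eq_of_subset_of_card_le
    · intro y hy
      obtain ⟨x, hx, rfl⟩ := Finset.mem_image.1 hy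
      exact h x hx
    · rw [Finset.card_image_of_injOn hi]
  conv_rhs => rw [← himg]
  rw [Finset.sum_image hi]

theorem pb_perm {π : α → α} (h : ∀ x ∈ O, π x ∈ O) (hi : Set.InjOn π O) (p : α → Prop) :
    prb O (fun x => p (π x)) = prb O p := by
  rw [pb_eq, pb_eq]
  exact mn_perm h hi fun x => if p x then 1 else 0

theorem pb_markov (h : ∀ x ∈ O, 0 ≤ G x) {t : ℝ} (ht : 0 < t) :
    prb O (fun x => t ≤ G x) ≤ mn O G / t := by
  rw [pb_eq, div_eq_inv_mul, ← mn_mul]
  refine mn_mono fun x hx => ?_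
  have := h x hx
  split_ifs with hh
  · rw [← div_eq_inv_mul, le_div_iff₀ ht]
    linarith
  · positivity

theorem pb_rev {B t : ℝ} (hB : 0 < B) (h : ∀ x ∈ O, G x ≤ B) (ht : 0 ≤ t) :
    (mn O G - t) / B ≤ prb O fun x => t ≤ G x := by
  rcases O.eq_empty_or_nonempty with rfl | hO
  · refine le_trans ?_ (pb_nonneg _ _)
    simp only [mn, Finset.sum_empty, zero_div, zero_sub]
    exact div_nonpos_of_nonpos_of_nonneg (by linarith) hB.le
  rw [div_le_iff₀ hB, pb_eq, mul_comm, ← mn_mul, sub_le_iff_le_add]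
  refine le_trans (mn_mono (G' := fun x => B * (if t ≤ G x then 1 else 0) + t)
    fun x hx => ?_) (le_of_eq (by rw [mn_add, mn_const hO]))
  have := h x hx
  split_ifs with hh
  · linarith
  · linarith [not_le.1 hh]

theorem cp_nonneg (O : Finset α) (F : α → β) (ξ : α → Y) (b : β) (y : Y) : 0 ≤ cp O F ξ b y := by
  unfold cp
  positivity

theorem cp_le_one (O : Finset α) (F : α → β) (ξ : α → Y) (b : β) (y : Y) : cp O F ξ b y ≤ 1 := by
  unfold cp
  refine div_le_one_of_le₀ ?_ (by positivity)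
  exact_mod_cast Finset.card_le_card fun x hx => by
    rw [Finset.mem_filter] at hx ⊢
    exact ⟨hx.1, hx.2.1⟩

theorem cp_pos {x : α} (hx : x ∈ O) : 0 < cp O F ξ (F x) (ξ x) := by
  unfold cp
  refine div_pos ?_ ?_
  · exact Nat.cast_pos.2 (Finset.card_pos.2 ⟨x, Finset.mem_filter.2 ⟨hx, rfl, rfl⟩⟩)
  · exact Nat.cast_pos.2 (Finset.card_pos.2 ⟨x, Finset.mem_filter.2 ⟨hx, rfl⟩⟩)

theorem sum_cp_le (O : Finset α) (F : α → β) (ξ : α → Y) (b : β) (T : Finset Y) :
    ∑ y ∈ T, cp O F ξ b y ≤ 1 := by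
  unfold cp
  rw [← Finset.sum_div]
  refine div_le_one_of_le₀ ?_ (by positivity)
  rw [← Nat.cast_sum, Nat.cast_le, ← Finset.card_biUnion]
  · refine Finset.card_le_card fun x hx => ?_
    simp only [Finset.mem_filter, Finset.mem_biUnion] at hx ⊢
    obtain ⟨y, -, h1, h2, -⟩ := hx
    exact ⟨h1, h2⟩
  · intro y _ y' _ hyy
    refine Finset.disjoint_left.2 fun x hx hx' => hyy ?_
    rw [Finset.mem_filter] at hx hx'
    rw [← hx.2.2, ← hx'.2.2]

theorem xea_mn_le {H : β → Y → ℝ} {c : ℝ} (hc : 0 ≤ c)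
    (h1 : ∀ b, ∑ y ∈ ({z ∈ O | F z = b}).image ξ, cp O F ξ b y * H b y ≤ c) :
    mn O (fun x => H (F x) (ξ x)) ≤ c := by
  unfold mn
  refine div_le_of_le_mul₀ (by positivity) hc ?_
  have key : ∀ b ∈ O.image F, ∑ x ∈ O with F x = b, H (F x) (ξ x) ≤
      c * (#{z ∈ O | F z = b} : ℝ) := by
    intro b hb
    obtain ⟨x0, hx0, hb0⟩ := Finset.mem_image.1 hb
    have hpos : (0 : ℝ) < #{z ∈ O | F z = b} := by
      exact_mod_cast Finset.card_pos.2 ⟨x0, Finset.mem_filter.2 ⟨hx0, hb0⟩⟩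
    have e1 : ∑ x ∈ O with F x = b, H (F x) (ξ x) = ∑ x ∈ O with F x = b, H b (ξ x) :=
      Finset.sum_congr rfl fun x hx => by rw [(Finset.mem_filter.1 hx).2]
    rw [e1, Finset.sum_comp (H b) ξ]
    refine le_trans (le_of_eq ?_) (mul_le_mul_of_nonneg_right (h1 b) hpos.le)
    rw [Finset.sum_mul]
    refine Finset.sum_congr rfl fun y _ => ?_
    rw [nsmul_eq_mul, Finset.filter_filter, cp]
    field_simp
  have e2 := Finset.sum_fiberwise_of_maps_to (s := O) (t := O.image F) (g := F)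
    (fun x hx => Finset.mem_image_of_mem F hx) fun x => H (F x) (ξ x)
  rw [← e2]
  refine le_trans (Finset.sum_le_sum key) (le_of_eq ?_)
  rw [← Finset.mul_sum, ← Nat.cast_sum, ← Finset.card_eq_sum_card_image]

theorem mn_div_cp {w : β → Y → ℝ} (h0 : ∀ b y, 0 ≤ w b y)
    (h1 : ∀ b, ∑ y ∈ ({z ∈ O | F z = b}).image ξ, w b y ≤ 1) :
    mn O (fun x => w (F x) (ξ x) / cp O F ξ (F x) (ξ x)) ≤ 1 := by
  refine xea_mn_le zero_le_one
    (H := fun b y => w b y / cp O F ξ b y) fun b => ?_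
  refine le_trans (Finset.sum_le_sum fun y _ => ?_) (h1 b)
  rcases eq_or_ne (cp O F ξ b y) 0 with h | h
  · rw [h, zero_mul]
    exact h0 b y
  · rw [mul_div_cancel₀ _ h]

theorem ent_nonneg (O : Finset α) (F : α → β) (ξ : α → Y) : 0 ≤ ent O F ξ := by
  unfold ent mn
  refine div_nonneg (Finset.sum_nonneg fun x _ => ?_) (by positivity)
  have := Real.log_nonpos (cp_nonneg O F ξ (F x) (ξ x)) (cp_le_one O F ξ (F x) (ξ x))
  linarith

theorem ent_le {s : ℝ} (hs : 1 ≤ s) (h : (#(O.image ξ) : ℝ) ≤ s) : ent O F ξ ≤ Real.log s := by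
  have hs0 : 0 < s := by linarith
  rcases O.eq_empty_or_nonempty with rfl | hO
  · simpa [ent, mn] using Real.log_nonneg hs
  have h1 := mn_div_cp (O := O) (F := F) (ξ := ξ) (w := fun _ _ => s⁻¹)
    (fun _ _ => by positivity) (fun b => by
      rw [Finset.sum_const, nsmul_eq_mul, ← div_eq_mul_inv, div_le_one hs0]
      refine le_trans ?_ h
      exact_mod_cast Finset.card_le_card (Finset.image_subset_image (Finset.filter_subset _ _)))
  have h2 : ent O F ξ ≤
      mn O fun x => s⁻¹ / cp O F ξ (F x) (ξ x) + (Real.log s - 1) := by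
    refine mn_mono fun x hx => ?_
    have hc : 0 < cp O F ξ (F x) (ξ x) := cp_pos hx
    have h3 := Real.log_le_sub_one_of_pos (x := s⁻¹ / cp O F ξ (F x) (ξ x)) (by positivity)
    rw [Real.log_div (by positivity) hc.ne', Real.log_inv] at h3
    linarith
  rw [mn_add, mn_const hO] at h2
  linarith

theorem pb_small {R : β → Finset Y} {s t : ℝ} (hs : 0 ≤ s) (ht : 0 ≤ t)
    (h : ∀ b, (#(R b) : ℝ) ≤ s) :
    prb O (fun x => ξ x ∈ R (F x) ∧ cp O F ξ (F x) (ξ x) < t) ≤ s * t := by
  rw [pb_eq]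
  refine le_trans (le_of_eq ?_) (xea_mn_le (O := O) (F := F) (ξ := ξ) (mul_nonneg hs ht)
    (H := fun b y => if y ∈ R b ∧ cp O F ξ b y < t then 1 else 0) fun b => ?_)
  · refine congrArg _ (funext fun x => ?_)
    by_cases hh : ξ x ∈ R (F x) ∧ cp O F ξ (F x) (ξ x) < t
    · rw [if_pos hh, if_pos hh]
    · rw [if_neg hh, if_neg hh]
  · have h2 : ∀ y ∈ ({z ∈ O | F z = b}).image ξ,
        cp O F ξ b y * (if y ∈ R b ∧ cp O F ξ b y < t then 1 else 0) ≤
          if y ∈ R b then t else 0 := by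
      intro y _
      by_cases h3 : y ∈ R b
      · by_cases h4 : cp O F ξ b y < t
        · rw [if_pos ⟨h3, h4⟩, if_pos h3, mul_one]
          exact h4.le
        · rw [if_neg fun hh => h4 hh.2, if_pos h3, mul_zero]
          exact ht
      · rw [if_neg fun hh => h3 hh.1, if_neg h3, mul_zero]
    refine le_trans (Finset.sum_le_sum h2) ?_
    rw [← Finset.sum_filter, Finset.sum_const, nsmul_eq_mul]
    refine mul_le_mul_of_nonneg_right (le_trans ?_ (h b)) ht
    exact_mod_cast Finset.card_le_card fun y hy => (Finset.mem_filter.1 hy).2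

theorem exists_drop (h : ℕ → ℝ) {B : ℝ} (h0 : ∀ j, 0 ≤ h j) (hB : h 0 ≤ B) {J : ℕ} (hJ : 0 < J) :
    ∃ j < J, h j - h (j + 1) ≤ B / J := by
  by_contra hc
  push Not at hc
  have hJ' : (0 : ℝ) < J := by exact_mod_cast hJ
  have h1 : ∑ j ∈ Finset.range J, B / J < ∑ j ∈ Finset.range J, (h j - h (j + 1)) :=
    Finset.sum_lt_sum_of_nonempty (Finset.nonempty_range_iff.2 hJ.ne')
      fun j hj => hc j (Finset.mem_range.1 hj)
  rw [Finset.sum_range_sub', Finset.sum_const, Finset.card_range, nsmul_eq_mul,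
    mul_div_cancel₀ _ hJ'.ne'] at h1
  linarith [h0 J]

end Pool.Agent.EQ
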