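import Pool.Agent.P.MP_ad7a55_nt.XLb
import Pool.Agent.P.MP_ad7a55_nt.TGa
import Pool.Agent.P.MP_ad7a55_nt.VTc

/-! The truncated fundamental domain. -/

set_option autoImplicit false

noncomputable section

open MeasureTheory Topology Filter UpperHalfPlane
open scoped MatrixGroups BoundedContinuousFunction Matrix Classical

namespace Pool.Agent.EQ

/-- The truncated fundamental domain. -/
def KU (U : ℝ) : Set ℍ := {τ | τ ∈ ModularGroup.fd ∧ τ.im ≤ U}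

/-- A modulus of continuity. -/
def EqC (ω : ℝ → ℝ) (g : ℍ → ℝ) : Prop :=
  ∀ ε : ℝ, 0 < ε → ∀ z w : ℍ, dist z w ≤ ω ε → |g z - g w| ≤ ε

theorem dist_act {ξ : M2} (h : 0 < ξ.det) (z w : ℍ) : dist (act ξ z) (act ξ w) = dist z w := by
  obtain ⟨g, c, hc, e⟩ := exists_real h
  rw [(act_real hc e z).2, (act_real hc e w).2, dist_smul]

theorem isCompact_KU (U : ℝ) : IsCompact (KU U) := by
  exact ModularGroup.isCompact_truncatedFundamentalDomain U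

theorem exists_net (U : ℝ) {r : ℝ} (hr : 0 < r) : ∃ (R : Finset ℍ) (cl : ℍ → ℍ),
    (∀ w ∈ R, w ∈ KU U) ∧ (∀ τ ∈ KU U, cl τ ∈ R ∧ dist τ (cl τ) ≤ r) ∧
      ∀ τ, τ ∉ KU U → cl τ ∉ KU U := by
  obtain ⟨t, h1, h2, h3⟩ := (isCompact_KU U).finite_cover_balls hr
  have h4 : ∀ τ : ℍ, ∃ w : ℍ, (τ ∈ KU U → w ∈ t ∧ dist τ w ≤ r) ∧ (τ ∉ KU U → w = τ) := fun τ => by
    by_cases h : τ ∈ KU U
    · obtain ⟨w, hw, e⟩ := Set.mem_iUnion₂.1 (h3 h)
      exact ⟨w, fun _ => ⟨hw, le_of_lt e⟩, fun h' => absurd h h'⟩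
    · exact ⟨τ, fun h' => absurd h' h, fun _ => rfl⟩
  choose cl h5 h6 using h4
  refine ⟨h2.toFinset, cl, fun w hw => h1 (h2.mem_toFinset.1 hw),
    fun τ h => ⟨h2.mem_toFinset.2 (h5 τ h).1, (h5 τ h).2⟩, fun τ h => ?_⟩
  rw [h6 τ h]
  exact h

theorem xkd_dist (γ : SL(2, ℤ)) (z w : ℍ) : dist (γ • z) (γ • w) = dist z w := by
  rw [← act_SL, ← act_SL, dist_act (vact_SL_det γ)]

theorem xkd_unif {N : ℕ} (hN : 0 < N) {F : IntermediateField ℚ ℂ} {φ : ℍ →ᵇ ℝ} (h : Tc N F φ) :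
    UniformContinuous φ := by
  obtain ⟨hT, K, hK, hs⟩ := h
  have := vcj_fin hN
  have := Fintype.ofFinite (vcjQ N)
  have hc : Continuous fun (z : ℍ) (c : vcjQ N) => φ (c.out⁻¹ • z) :=
    continuous_pi fun c => φ.continuous.comp (Isometry.of_dist_eq (xkd_dist c.out⁻¹)).continuous
  have hu := Metric.uniformContinuousOn_iff.1
    ((hK.cthickening (r := 1)).uniformContinuousOn_of_continuous hc.continuousOn)
  have key : ∀ (γ : SL(2, ℤ)) (x : ℍ),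
      φ ((QuotientGroup.mk γ : vcjQ N).out⁻¹ • γ • x) = φ x := fun γ x => by
    obtain ⟨g, e⟩ := QuotientGroup.mk_out_eq_mul (CongruenceSubgroup.Gamma N) γ
    rw [e, mul_inv_rev, mul_smul, inv_smul_smul, hT.ginv _ (inv_mem g.2)]
  refine Metric.uniformContinuous_iff.2 fun ε hε => ?_
  obtain ⟨δ, hδ, H⟩ := hu ε hε
  have main : ∀ z w : ℍ, φ z ≠ 0 → dist z w < min δ 1 → dist (φ z) (φ w) < ε := by
    intro z w hz hd
    obtain ⟨γ, hγ⟩ := hs z hz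
    rw [← xkd_dist γ] at hd
    have h1 := H (γ • z) (Metric.self_subset_cthickening K hγ) (γ • w)
      (Metric.mem_cthickening_of_dist_le _ _ 1 K hγ (by
        rw [dist_comm]
        exact (hd.trans_le (min_le_right _ _)).le)) (hd.trans_le (min_le_left _ _))
    have h2 := (dist_le_pi_dist _ _ (QuotientGroup.mk γ : vcjQ N)).trans_lt h1
    simpa only [key] using h2
  refine ⟨min δ 1, lt_min hδ one_pos, fun {z w} hd => ?_⟩
  by_cases hz : φ z = 0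
  · by_cases hw : φ w = 0
    · rw [hz, hw, dist_self]
      exact hε
    · rw [dist_comm] at hd ⊢
      exact main w z hw hd
  · exact main z w hz hd

theorem Tc.eqC {N : ℕ} (hN : 0 < N) {F : IntermediateField ℚ ℂ} {ι : Type} [Fintype ι]
    {φ : ι → (ℍ →ᵇ ℝ)} (h : ∀ k, Tc N F (φ k)) :
    ∃ ω : ℝ → ℝ, (∀ ε, 0 < ε → 0 < ω ε) ∧ ∀ k, EqC ω (φ k) := by
  have hu : UniformContinuous fun (z : ℍ) (k : ι) => φ k z :=
    uniformContinuous_pi.2 fun k => xkd_unif hN (h k)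
  have h1 : ∀ ε : ℝ, ∃ δ : ℝ, 0 < ε → 0 < δ ∧ ∀ k z w, dist z w ≤ δ → |φ k z - φ k w| ≤ ε := by
    intro ε
    by_cases hε : 0 < ε
    · obtain ⟨δ, hδ, H⟩ := Metric.uniformContinuous_iff.1 hu ε hε
      refine ⟨δ / 2, fun _ => ⟨half_pos hδ, fun k z w hd => ?_⟩⟩
      exact ((dist_le_pi_dist _ _ k).trans_lt (H (hd.trans_lt (half_lt_self hδ)))).le
    · exact ⟨1, fun h => absurd h hε⟩
  choose ω hω using h1
  exact ⟨ω, fun ε hε => (hω ε hε).1, fun k ε hε => (hω ε hε).2 k⟩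

theorem xkd_im {η : M2} (h : 0 < η.det) (τ : ℍ) :
    (act η τ).im * ‖(η 1 0 : ℂ) * τ + η 1 1‖ ^ 2 = η.det * τ.im := by
  have hn := Complex.normSq_pos.2 (act_den h τ)
  rw [← coe_im, coe_act h, Complex.div_im, ← Complex.normSq_eq_norm_sq, ← sub_div,
    div_mul_cancel₀ _ hn.ne', Matrix.det_fin_two]
  simp
  ring

theorem ht_le_KU {U : ℝ} (hU : 1 ≤ U) {τ : ℍ} {η : M2} {n : ℕ} (hn : 0 < n) (hd : η.det = n)
    (h : τ ∈ KU U) (h' : act η τ ∈ KU U) (i j : Fin 2) :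
    |(η i j : ℝ)| ≤ 4 * U ^ 2 * Real.sqrt n := by
  have hn' : (0 : ℝ) < n := by exact_mod_cast hn
  have h0 : 0 < η.det := by rw [hd]; exact_mod_cast hn
  have e1 := xkd_im h0 τ
  have e2 := vact_den_mul h0 τ
  rw [hd, Int.cast_natCast] at e1
  have hy := (act η τ).im_pos
  have hy3 := ModularGroup.three_le_four_mul_im_sq_of_mem_fd h'.1
  have hy5 : 5 / 6 ≤ (act η τ).im := by nlinarith
  have hs := Real.sqrt_nonneg n
  have hs2 := Real.sq_sqrt hn'.le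
  have hU2 : U ≤ U ^ 2 := by nlinarith
  have b1 : ‖(η 1 0 : ℂ) * τ + η 1 1‖ ≤ 11 / 10 * U * Real.sqrt n := by
    refine (sq_le_sq₀ (norm_nonneg _) (by positivity)).1 ?_
    have f1 := mul_le_mul_of_nonneg_right hy5 (sq_nonneg ‖(η 1 0 : ℂ) * τ + η 1 1‖)
    have f2 := mul_le_mul_of_nonneg_left (h.2.trans hU2) hn'.le
    have f3 : 0 ≤ (n : ℝ) * U ^ 2 := by positivity
    rw [mul_pow, mul_pow, hs2]
    linarith
  have b2 : ‖(act η τ : ℂ)‖ ≤ 3 / 2 * U := by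
    refine (Complex.norm_le_abs_re_add_abs_im _).trans ?_
    have f1 : |(act η τ).re| ≤ 1 / 2 := h'.1.2
    have f2 := h'.2
    rw [coe_re, coe_im, abs_of_pos hy]
    linarith
  have b3 : ‖(η 0 0 : ℂ) * τ + η 0 1‖ ≤ 33 / 20 * (U ^ 2 * Real.sqrt n) := by
    rw [← e2, norm_mul]
    refine (mul_le_mul b1 b2 (norm_nonneg _) (by positivity)).trans_eq ?_
    ring
  have b4 : ‖(η 1 0 : ℂ) * τ + η 1 1‖ ≤ 33 / 20 * (U ^ 2 * Real.sqrt n) := by
    have f1 := mul_le_mul_of_nonneg_right hU2 hs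
    have f2 : 0 ≤ U ^ 2 * Real.sqrt n := by positivity
    linarith
  have key : ∀ a b : ℤ, ‖(a : ℂ) * τ + b‖ ≤ 33 / 20 * (U ^ 2 * Real.sqrt n) →
      |(a : ℝ)| ≤ 4 * U ^ 2 * Real.sqrt n ∧ |(b : ℝ)| ≤ 4 * U ^ 2 * Real.sqrt n := by
    intro a b hab
    have f1 := tga_coord h.1 (u := b) (w := -a) (S := 33 / 20 * (U ^ 2 * Real.sqrt n)) (by
      refine le_trans (le_of_eq (congrArg _ ?_)) hab
      push_cast
      ring)
    rw [Int.cast_neg, abs_neg] at f1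
    have f2 : 0 ≤ U ^ 2 * Real.sqrt n := by positivity
    constructor <;> linarith [f1.1, f1.2]
  fin_cases i <;> fin_cases j
  exacts [(key _ _ b3).1, (key _ _ b3).2, (key _ _ b4).1, (key _ _ b4).2]

theorem xkd_split (l k : ℕ) (v : V2) : ∃ j, j ≤ k ∧ ∃ v' : V2, v = (l : ℤ) ^ j • v' ∧
    (j = k ∨ ∃ i, ¬ (l : ℤ) ∣ v' i) := by
  induction k with
  | zero => exact ⟨0, le_rfl, v, by simp, Or.inl rfl⟩
  | succ k ih =>
    obtain ⟨j, hj, v', e, h⟩ := ih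
    by_cases h1 : ∃ i, ¬ (l : ℤ) ∣ v' i
    · exact ⟨j, hj.trans (Nat.le_succ k), v', e, Or.inr h1⟩
    · obtain rfl := h.resolve_right h1
      push Not at h1
      choose w hw using h1
      refine ⟨j + 1, le_rfl, w, ?_, Or.inl rfl⟩
      rw [e, pow_succ, mul_smul]
      exact congrArg _ (funext hw)

theorem xkd_lines {l k j : ℕ} (hl : l.Prime) (hk : 0 < k) (hj : j ≤ k) {v : V2}
    (h : j = k ∨ ∃ i, ¬ (l : ℤ) ∣ v i) :
    ((Xn (l ^ k)).filter fun L => (l : ℤ) ^ j • v ∈ L).card ≤ 2 * l ^ j := by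
  have hn : 0 < l ^ k := pow_pos hl.pos k
  rcases hj.eq_or_lt with rfl | hlt
  · refine (Finset.card_filter_le _ _).trans (Nat.le_of_mul_le_mul_right (c := l) ?_ hl.pos)
    refine (card_Xn hl hk).2.trans ?_
    have := hl.pos
    calc l ^ j * (l + 1) ≤ l ^ j * (2 * l) := Nat.mul_le_mul_left _ (by omega)
      _ = _ := by ring
  have hp : Prime (l : ℤ) := Nat.prime_iff_prime_int.1 hl
  obtain ⟨a, b, c, e⟩ : xlb_Pm (l ^ k) v := xlb_of_primes fun l' hl' hd => by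
    obtain rfl := (Nat.prime_dvd_prime_iff_eq hl' hl).1 (hl'.dvd_of_dvd_pow hd)
    exact h.resolve_left hlt.ne
  obtain ⟨r, rfl⟩ := Nat.exists_eq_add_of_lt hlt
  have hs : ((Xn (l ^ (j + r + 1))).filter fun L => (l : ℤ) ^ j • v ∈ L) ⊆
      (Finset.range (l ^ j)).image fun t : ℕ => Ln (l ^ (j + r + 1))
        ![v 0 - (l : ℤ) ^ (r + 1) * t * b, v 1 + (l : ℤ) ^ (r + 1) * t * a] := by
    intro L hL
    obtain ⟨h1, h2⟩ := Finset.mem_filter.1 hL
    obtain ⟨u, hu, rfl⟩ := (mem_Xn hn).1 h1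
    obtain ⟨y, hy⟩ := xlb_mem.1 h2
    simp only [Pi.smul_apply, smul_eq_mul] at hy
    push_cast at hy e
    have hy' : u 0 * v 1 - u 1 * v 0 = (l : ℤ) ^ (r + 1) * y :=
      mul_left_cancel₀ (pow_ne_zero j hp.ne_zero) (by linear_combination hy)
    have hx : ¬ (l : ℤ) ∣ a * u 0 + b * u 1 := by
      rintro ⟨x, hx⟩
      refine hp.not_isUnit (hu.isUnit_of_dvd'
        ⟨x * v 0 + b * (l : ℤ) ^ r * y + c * (l : ℤ) ^ (j + r) * u 0, ?_⟩
        ⟨x * v 1 - a * (l : ℤ) ^ r * y + c * (l : ℤ) ^ (j + r) * u 1, ?_⟩)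
      · linear_combination v 0 * hx + b * hy' - u 0 * e
      · linear_combination v 1 * hx - a * hy' - u 1 * e
    obtain ⟨t, ht, x, hx'⟩ := xlb_solve (pow_pos hl.pos j) (a := a * u 0 + b * u 1) (by
      push_cast
      exact ((hp.irreducible.coprime_iff_not_dvd).2 hx).symm.pow_right) (-y)
    refine Finset.mem_image.2 ⟨t, Finset.mem_range.2 ht, xlb_Pm.eq ⟨a, b, c, ?_⟩
      (xlb_of_cop _ hu) (xlb_mem.2 ⟨-x, ?_⟩)⟩
    · simp only [Matrix.cons_val_zero, Matrix.cons_val_one]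
      push_cast
      linear_combination e
    · simp only [Matrix.cons_val_zero, Matrix.cons_val_one]
      push_cast at hx' ⊢
      linear_combination -hy' - (l : ℤ) ^ (r + 1) * hx'
  refine (Finset.card_le_card hs).trans (Finset.card_image_le.trans ?_)
  rw [Finset.card_range]
  omega

theorem xkd_box {τ : ℍ} (h : τ ∈ ModularGroup.fd) {ρ : ℝ} (hρ : 0 ≤ ρ) : ∃ B : Finset V2,
    (B.card : ℝ) ≤ 24 * ρ ^ 2 ∧ ∀ v : V2, v ≠ 0 → ‖ev τ v‖ ≤ ρ → v ∈ B := by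
  obtain ⟨m, hm⟩ : ∃ m : ℕ, m = ⌊8 / 5 * ρ⌋₊ := ⟨_, rfl⟩
  have h1 : (m : ℝ) ≤ 8 / 5 * ρ := hm ▸ Nat.floor_le (by positivity)
  have h2 : 8 / 5 * ρ < m + 1 := hm ▸ Nat.lt_floor_add_one _
  refine ⟨(Fintype.piFinset fun _ : Fin 2 => Finset.Icc (-(m : ℤ)) m).erase 0, ?_, fun v hv hb => ?_⟩
  · have h3 : ((Fintype.piFinset fun _ : Fin 2 => Finset.Icc (-(m : ℤ)) m).erase 0).card ≤
        8 * m ^ 2 := by
      rw [Finset.card_erase_of_mem (Fintype.mem_piFinset.2 fun _ => by simp),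
        Fintype.card_piFinset, Finset.prod_const, Int.card_Icc, Finset.card_univ, Fintype.card_fin,
        show ((m : ℤ) + 1 - -(m : ℤ)).toNat = 2 * m + 1 by omega]
      have : m ≤ m ^ 2 := Nat.le_self_pow two_ne_zero m
      have : (2 * m + 1) ^ 2 = 4 * m ^ 2 + 4 * m + 1 := by ring
      omega
    have h4 : (m : ℝ) ^ 2 ≤ (8 / 5 * ρ) ^ 2 := pow_le_pow_left₀ (Nat.cast_nonneg _) h1 2
    refine (Nat.cast_le.2 h3).trans ?_
    push_cast
    nlinarith [sq_nonneg ρ]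
  · have h3 := tga_coord h hb
    have h4 : ∀ x : ℤ, |(x : ℝ)| ≤ 8 / 5 * ρ → x ∈ Finset.Icc (-(m : ℤ)) m := fun x hx => by
      have h5 : |x| < (m : ℤ) + 1 := by exact_mod_cast hx.trans_lt h2
      have := abs_lt.1 h5
      exact Finset.mem_Icc.2 ⟨by omega, by omega⟩
    refine Finset.mem_erase.2 ⟨hv, Fintype.mem_piFinset.2 fun i => ?_⟩
    fin_cases i
    exacts [h4 _ h3.1, h4 _ h3.2]

theorem cusp_count {U Y : ℝ} (hY : 0 < Y) {τ : ℍ} (h : τ ∈ KU U) {l k : ℕ} (hl : l.Prime)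
    (hk : 0 < k) : (((Xn (l ^ k)).filter fun L => ∃ η : M2, η.det = (l ^ k : ℕ) ∧
      Ker (l ^ k) η = L ∧ Y ≤ (act η τ).im).card : ℝ) ≤ 96 * U * (l ^ k : ℕ) / Y := by
  have hn : 0 < l ^ k := pow_pos hl.pos k
  have hn' : (0 : ℝ) < (l ^ k : ℕ) := by exact_mod_cast hn
  have hU : 0 < U := τ.im_pos.trans_le h.2
  have l2 : (2 : ℝ) ≤ l := by exact_mod_cast hl.two_le
  have l0 : (0 : ℝ) < l := by linarith
  obtain ⟨R, R0, hR⟩ : ∃ R : ℝ, 0 ≤ R ∧ R ^ 2 = U * (l ^ k : ℕ) / Y :=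
    ⟨Real.sqrt _, Real.sqrt_nonneg _, Real.sq_sqrt (by positivity)⟩
  choose B hB hB' using fun j : ℕ => xkd_box h.1 (ρ := R / (l : ℝ) ^ j) (by positivity)
  have hs : ((Xn (l ^ k)).filter fun L => ∃ η : M2, η.det = (l ^ k : ℕ) ∧
      Ker (l ^ k) η = L ∧ Y ≤ (act η τ).im) ⊆ (Finset.range (k + 1)).biUnion fun j =>
        ((B j).filter fun v => j = k ∨ ∃ i, ¬ (l : ℤ) ∣ v i).biUnion fun v =>
          (Xn (l ^ k)).filter fun L => (l : ℤ) ^ j • v ∈ L := by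
    intro L hL
    obtain ⟨h1, η, hd, hK, hy⟩ := Finset.mem_filter.1 hL
    have h0 : 0 < η.det := by rw [hd]; exact_mod_cast hn
    obtain ⟨j, hj, v, e, hv⟩ := xkd_split l k ![η 1 1, -η 1 0]
    have e0 : η 1 1 = (l : ℤ) ^ j * v 0 := congrFun e 0
    have e1 : -η 1 0 = (l : ℤ) ^ j * v 1 := congrFun e 1
    have e2 : (η 1 0 : ℂ) * τ + η 1 1 = (l : ℂ) ^ j * ev τ v := by
      rw [e0, neg_eq_iff_eq_neg.1 e1, ev]
      push_cast
      ring
    refine Finset.mem_biUnion.2 ⟨j, Finset.mem_range.2 (by omega), Finset.mem_biUnion.2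
      ⟨v, Finset.mem_filter.2 ⟨hB' j v ?_ ?_, hv⟩, Finset.mem_filter.2 ⟨h1, ?_⟩⟩⟩
    · rintro rfl
      exact act_den h0 τ (by rw [e2]; simp [ev])
    · have f1 := xkd_im h0 τ
      rw [hd, Int.cast_natCast] at f1
      have f2 : ‖(η 1 0 : ℂ) * τ + η 1 1‖ ≤ R := by
        refine (sq_le_sq₀ (norm_nonneg _) R0).1 ?_
        rw [hR, le_div_iff₀ hY]
        have f3 := mul_le_mul_of_nonneg_right hy (sq_nonneg ‖(η 1 0 : ℂ) * τ + η 1 1‖)
        have f4 := mul_le_mul_of_nonneg_left h.2 hn'.le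
        linarith
      rw [e2, norm_mul, norm_pow, Complex.norm_natCast] at f2
      rwa [le_div_iff₀' (by positivity)]
    · rw [← e, ← hK, xlb_ker]
      rw [Matrix.det_fin_two] at hd
      simp only [Matrix.cons_val_zero, Matrix.cons_val_one]
      exact ⟨⟨1, by linear_combination hd⟩, 0, by ring⟩
  refine (Nat.cast_le.2 ((Finset.card_le_card hs).trans Finset.card_biUnion_le)).trans ?_
  rw [Nat.cast_sum]
  refine (Finset.sum_le_sum (g := fun j => 48 * R ^ 2 * (1 / 2 : ℝ) ^ j) fun j hj => ?_).trans ?_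
  · have f1 := Finset.card_biUnion_le_card_mul
      ((B j).filter fun v => j = k ∨ ∃ i, ¬ (l : ℤ) ∣ v i)
      (fun v => (Xn (l ^ k)).filter fun L => (l : ℤ) ^ j • v ∈ L) (2 * l ^ j) fun v hv =>
        xkd_lines hl hk (Nat.lt_succ_iff.1 (Finset.mem_range.1 hj)) (Finset.mem_filter.1 hv).2
    refine (Nat.cast_le.2 (f1.trans
      (Nat.mul_le_mul_right _ (Finset.card_filter_le _ _)))).trans ?_
    push_cast
    refine (mul_le_mul_of_nonneg_right (hB j) (by positivity)).trans ?_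
    have f2 : 24 * (R / (l : ℝ) ^ j) ^ 2 * (2 * (l : ℝ) ^ j) = 48 * R ^ 2 * (1 / l : ℝ) ^ j := by
      rw [one_div, inv_pow]
      field_simp
      ring
    rw [f2]
    exact mul_le_mul_of_nonneg_left
      (pow_le_pow_left₀ (by positivity) (one_div_le_one_div_of_le two_pos l2) j) (by positivity)
  · rw [← Finset.mul_sum]
    refine (mul_le_mul_of_nonneg_left (sum_geometric_two_le _) (by positivity)).trans_eq ?_
    rw [hR]
    ring

end Pool.Agent.EQ
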