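import Pool.Agent.P.MP_ad7a55_nt.XBb
import Pool.Agent.P.MP_ad7a55_nt.XAa
import Pool.Agent.P.MP_ad7a55_nt.XKd
import Pool.Agent.P.MP_ad7a55_nt.XEa
import Pool.Agent.P.MP_ad7a55_nt.TDa
import Pool.Agent.P.MP_ad7a55_nt.TFc

/-! Pairs of points with the same direction. -/

set_option autoImplicit false

noncomputable section

open MeasureTheory Topology Filter UpperHalfPlane
open scoped MatrixGroups BoundedContinuousFunction Matrix Classical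

namespace Pool.Agent.EQ

theorem lev_of_dir {τ τ' : ℍ} {D b b₀ : ℤ} {f Q : ℕ} {U : ℝ} (h : HasDisc τ D) (h' : HasDisc τ' D)
    (hf : 0 < f) (hτ : τ ∈ KU U) (hτ' : τ' ∈ KU U) (hQ : 0 < Q)
    (hc : IsCoprime (Q : ℤ) (2 * (f ^ 2 * D))) (hb : (Q : ℤ) ∣ b ^ 2 - f ^ 2 * D)
    (h₀ : 2 ∣ b₀ - D) (h₁ : (Q : ℤ) ∣ f * b₀ + b)
    (e : Ker Q (AA (f ^ 2 * D) b τ) = Ker Q (AA (f ^ 2 * D) b τ')) :
    (jInv τ, jInv τ') ∈ LevP Q b₀ (4 * U ^ 2) D := by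
  obtain ⟨v, hv, ev1⟩ := AA_line h ⟨f, hf, rfl⟩ hQ hc hb
  have m1 : v ∈ Ker Q (AA (f ^ 2 * D) b τ) := ev1 ▸ xlb_self Q v
  have m2 : v ∈ Ker Q (AA (f ^ 2 * D) b τ') := e ▸ m1
  have hc2 : IsCoprime (Q : ℤ) (f * 2) :=
    IsCoprime.of_mul_right_left (z := f * D) (by rwa [show (f : ℤ) * 2 * (f * D) = 2 * (f ^ 2 * D) by ring])
  have side : ∀ {t : ℍ} {A B C : ℤ}, 0 < A → Int.gcd (Int.gcd A B) C = 1 →
      (A : ℂ) * (t : ℂ) ^ 2 + B * t + C = 0 → D = B ^ 2 - 4 * A * C →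
      v ∈ Ker Q (AA (f ^ 2 * D) b t) →
      (th D - b₀) / 2 * (v 0 - v 1 * t) ∈ pr Q * sp 1 t := by
    intro t A B C hA hg hr hD hm
    obtain ⟨x, hx⟩ := h₀
    obtain ⟨y, hy⟩ := Int.even_mul_succ_self B
    obtain ⟨k, hk⟩ : ∃ k : ℤ, b₀ = -(B + 2 * k) :=
      ⟨-x - y + 2 * A * C, by linear_combination hx + hD + hy⟩
    rw [AA, om_eq ⟨A, B, C, hA, hg, hD.symm, hr, rfl⟩ f, xlb_ker] at hm
    simp only [Th, Matrix.add_apply, Matrix.smul_apply, smul_eq_mul, Matrix.of_apply,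
      Matrix.cons_val', Matrix.cons_val_zero, Matrix.cons_val_one, Matrix.cons_val_fin_one,
      Matrix.one_apply_eq, Matrix.one_apply_ne (show (0 : Fin 2) ≠ 1 by decide),
      Matrix.one_apply_ne (show (1 : Fin 2) ≠ 0 by decide)] at hm
    have s := tda_side (k := k) (v₀ := v 0) (v₁ := v 1) (q := Q) hA hr
      (hc2.dvd_of_dvd_mul_left (by
        have := dvd_sub hm.1 (h₁.mul_right (v 0))
        rwa [show (f * B + b * 1) * v 0 + (f * (2 * C) + b * 0) * v 1 - (f * b₀ + b) * v 0 =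
          f * 2 * ((k + B) * v 0 + C * v 1) by rw [hk]; ring] at this))
      (hc2.dvd_of_dvd_mul_left (by
        have := dvd_sub (h₁.mul_right (v 1)) hm.2
        rwa [show (f * b₀ + b) * v 1 - ((f * (-2 * A) + b * 0) * v 0 + (f * -B + b * 1) * v 1) =
          f * 2 * (A * v 0 - k * v 1) by rw [hk]; ring] at this))
    rwa [← hD, ← hk] at s
  obtain ⟨A, B, C, hA, hg, hr, hD⟩ := id h
  obtain ⟨A', B', C', hA', hg', hr', hD'⟩ := id h'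
  have s1 := side hA hg hr hD m1
  have s2 := side hA' hg' hr' hD' m2
  obtain ⟨k, hk⟩ := tda_par (hD.symm.trans hD')
  obtain ⟨j, hj⟩ : ∃ j : ℤ, B * B' - D = 2 * j :=
    ⟨B * k + 2 * A * C, by linear_combination B * hk - hD⟩
  refine ⟨sp 1 τ, sp 1 τ', _, _, _, discL_one h, discL_one h', jL_one τ, jL_one τ',
    tda_hm hA hA' hr hr' hD.symm hD'.symm hj hτ.1 hτ'.1 hτ.2 hτ'.2, h₀, v 0 - v 1 * τ,
    mem_sp.2 ⟨v 0, -v 1, by push_cast; ring⟩, fun l hl hlq hm => ?_, s1, ?_⟩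
  · obtain ⟨w, hw, e⟩ := mem_pr_mul.1 hm
    obtain ⟨x, y, rfl⟩ := mem_sp.1 hw
    obtain ⟨e1, e2⟩ := ord_indep τ (m := l * x - v 0) (n := l * y + v 1) (by
      push_cast
      linear_combination e)
    have := hv.isUnit_of_dvd' (x := (l : ℤ)) ⟨x, by linear_combination -e1⟩
      ⟨-y, by linear_combination e2⟩
    exact (Nat.prime_iff_prime_int.1 hl).not_isUnit this
  · have e := tda_rl τ τ' (v 0) (-v 1)
    rw [Int.cast_neg, neg_mul, neg_mul, ← sub_eq_add_neg, ← sub_eq_add_neg] at e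
    rw [e]
    exact s2

theorem levP_le (C : ℝ) : ∃ (K Y : ℝ) (A : ℕ), 0 < K ∧ ∀ (D b₀ : ℤ) (S : Finset ℕ) (k : ℕ → ℕ),
    IsD D → Y ≤ -(D : ℝ) → (∀ l ∈ S, l.Prime ∧ l ≠ 2 ∧ jacobiSym D l = 1 ∧ 0 < k l) →
    ∑ l ∈ S, (l : ℝ) ^ (-(1 / 4 : ℝ)) ≤ 1 → ((∏ l ∈ S, l ^ k l : ℕ) : ℤ) ^ 400 ≤ -D →
    ((LevP (∏ l ∈ S, l ^ k l) b₀ C D).ncard : ℝ) ≤
      K * Real.log (-(D : ℝ)) ^ A / (∏ l ∈ S, l ^ k l : ℕ) * HH D ^ 2 := by
  obtain ⟨C', hC1, hC'⟩ : ∃ C' : ℝ, 1 ≤ C' ∧ C ≤ C' := ⟨max C 1, le_max_right _ _, le_max_left _ _⟩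
  obtain ⟨K, L, hK, hL, H1⟩ := tpair_end
  obtain ⟨C₂, A, N₀, hC₂, H2⟩ := Dt.cnt_lev
  obtain ⟨C₃, hC₃, H3⟩ := Dt.tcn_EE
  obtain ⟨K₀, hK₀, H0⟩ := Cl_le
  obtain ⟨C₄, hC₄⟩ : ∃ C₄ : ℝ, C₄ = C₂ * C₃ * 2 ^ (A + 1) := ⟨_, rfl⟩
  have hC₄0 : 0 < C₄ := by rw [hC₄]; positivity
  refine ⟨K * (1 + 9 * C₄) * C' + K₀ ^ 2, max (L ^ 16) (max C' (((N₀ + 2 : ℕ) : ℝ) ^ 4)), A + 1,
    by positivity, fun D b₀ S k hD hY hS hsum hQ => ?_⟩
  have hx := tti_three hD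
  have hH := tti_HH_nonneg D
  have hlog : 1 ≤ Real.log (-(D : ℝ)) := by
    rw [Real.le_log_iff_exp_le (by linarith)]
    linarith [Real.exp_one_lt_d9]
  have hlA : 1 ≤ Real.log (-(D : ℝ)) ^ A := one_le_pow₀ hlog
  have hlA' : 1 ≤ Real.log (-(D : ℝ)) ^ (A + 1) := one_le_pow₀ hlog
  have hQ0 : 0 < ∏ l ∈ S, l ^ k l := Finset.prod_pos fun l hl => pow_pos (hS l hl).1.pos _
  rcases S.eq_empty_or_nonempty with rfl | ⟨p, hp⟩
  · have a1 : (LevP (∏ l ∈ (∅ : Finset ℕ), l ^ k l) b₀ C D).ncard ≤ (Cl D ×ˢ Cl D).ncard := by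
      refine Set.ncard_le_ncard ?_ ((Cl_finite D).prod (Cl_finite D))
      rintro z ⟨M₁, M₂, α, β, B, h₁, h₂, e₁, e₂, -⟩
      exact ⟨⟨M₁, h₁, e₁⟩, ⟨M₂, h₂, e₂⟩⟩
    rw [Set.ncard_prod] at a1
    have a2 := H0 D hD
    calc _ ≤ ((Cl D).ncard : ℝ) * (Cl D).ncard := by exact_mod_cast a1
      _ ≤ (K₀ * HH D) * (K₀ * HH D) := by gcongr
      _ = K₀ ^ 2 * 1 * HH D ^ 2 := by ring
      _ ≤ (K * (1 + 9 * C₄) * C' + K₀ ^ 2) * Real.log (-(D : ℝ)) ^ (A + 1) * HH D ^ 2 := by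
          gcongr
          exact le_add_of_nonneg_left (by positivity)
      _ = _ := by simp
  generalize hq : ∏ l ∈ S, l ^ k l = q at hQ hQ0 ⊢
  have q1 : (1 : ℝ) ≤ q := by exact_mod_cast hQ0
  have hQ' : (q : ℝ) ^ 400 ≤ -(D : ℝ) := by exact_mod_cast hQ
  obtain ⟨s, hs, h8⟩ := tpair_root (show 1 ≤ -(D : ℝ) by linarith)
  have k0 : ((LevP q b₀ C D).ncard : ℝ) ≤ (LevP q b₀ C' D).ncard := by
    exact_mod_cast Set.ncard_le_ncard (tpair_mono _ _ hC' D) (LevP_finite _ _ _ _)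
  have k1 := tpair_main hD (hS p hp).1 hQ0 b₀ hC1
    ((le_max_left _ _).trans ((le_max_right _ _).trans hY)) (by linarith) h8
    (ρ := C₄ * (Real.log (-(D : ℝ)) ^ (A + 1) / q)) (by positivity) ?_
  · refine k0.trans (k1.trans ((H1 D s _ C' C₄ hD hs h8 (by positivity) hC1 hC₄0.le ?_).trans ?_))
    · have b1 : L ^ 2 ≤ s := by
        refine (pow_le_pow_iff_left₀ (by positivity) (by linarith) (show 8 ≠ 0 by norm_num)).1 ?_
        rw [← pow_mul, h8]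
        exact (le_max_left _ _).trans hY
      have b2 : (q : ℝ) ^ 2 ≤ s := by
        refine (pow_le_pow_iff_left₀ (by positivity) (by linarith) (show 8 ≠ 0 by norm_num)).1 ?_
        rw [← pow_mul, h8]
        exact (pow_le_pow_right₀ q1 (by norm_num)).trans hQ'
      have b3 : L * q ≤ s := by nlinarith [sq_nonneg (L - q)]
      rw [div_mul_eq_mul_div, le_div_iff₀ (by linarith)]
      calc L * Real.log (-(D : ℝ)) * q = 1 * Real.log (-(D : ℝ)) * (L * q) := by ring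
        _ ≤ Real.log (-(D : ℝ)) ^ A * Real.log (-(D : ℝ)) * s := by gcongr
        _ = _ := by ring
    · rw [mul_div_assoc]
      gcongr
      exact le_add_of_nonneg_right (by positivity)
  · intro d hg hn hG hdp hdE H N hSz n3 n5
    subst hdp hdE
    have hN : N₀ + 2 ≤ N := by
      have k2 : ((N₀ + 2 : ℕ) : ℝ) ^ 4 ≤ (N : ℝ) ^ 4 :=
        ((le_max_right _ _).trans ((le_max_right _ _).trans hY)).trans n3
      exact_mod_cast (pow_le_pow_iff_left₀ (by positivity) (by positivity) (by norm_num)).1 k2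
    have c1 : q ^ 100 ≤ N := by
      have k2 : ((q : ℝ) ^ 100) ^ 4 ≤ (N : ℝ) ^ 4 := by
        rw [← pow_mul]
        exact hQ'.trans n3
      exact_mod_cast (pow_le_pow_iff_left₀ (by positivity) (by positivity) (by norm_num)).1 k2
    have c2 : q ^ 2 ≤ H := by
      refine (Nat.pow_le_pow_iff_left (show 16 ≠ 0 by norm_num)).1 ?_
      rw [← pow_mul]
      exact (Nat.pow_le_pow_right hQ0 (by norm_num)).trans (c1.trans n5)
    refine ⟨_, fun X Y hB => hq ▸ Dt.few_levs hg S k hS b₀ hB, fun Z hZ => ?_⟩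
    have c3 := H2 d hg (by rw [hn]; rfl) H N hSz (by omega) S k hp (fun l hl => by
      obtain ⟨u1, u2, u3, u4⟩ := hS l hl
      refine ⟨u1, u2, fun hd => ?_, by rw [hG]; exact u1.not_dvd_one, u4⟩
      have := Fact.mk u1
      rw [← jacobiSym.legendreSym.to_jacobiSym, (legendreSym.eq_zero_iff l d.E).2
        ((ZMod.intCast_zmod_eq_zero_iff_dvd _ _).2 hd)] at u3
      exact zero_ne_one u3) hsum (hq ▸ c1) (hq ▸ c2) Z fun z hz => (hZ z hz).1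
    have c4 := H3 d H N hSz (by omega)
    have c5 := hSz.up
    rw [hG, Nat.cast_one, one_pow, one_mul] at c4 c5
    rw [hq] at c3
    have N1 : (1 : ℝ) ≤ N := by exact_mod_cast (show 1 ≤ N by omega)
    have c6 : Real.log N ≤ 2 * Real.log (-(d.E : ℝ)) := by
      have : (N : ℝ) ≤ (-(d.E : ℝ)) ^ 2 := by
        rw [← tti_abs hD.1]
        exact_mod_cast c5
      refine (Real.log_le_log (by linarith) this).trans_eq ?_
      rw [Real.log_pow]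
      norm_num
    have c7 := Real.log_nonneg N1
    have c8 := (EE_pos d.E d.E.natAbs).le
    calc _ ≤ C₂ * Real.log N ^ A / q * N * H * 1 := by rwa [mul_one]
      _ ≤ C₂ * (2 * Real.log (-(d.E : ℝ))) ^ A / q * N * H *
          (C₃ * (2 * Real.log (-(d.E : ℝ))) * EE d.E d.E.natAbs) := by
          gcongr
          exact c4.trans (by gcongr)
      _ = _ := by rw [hC₄]; ring

theorem lin_orb (L U : ℝ) : ∃ (K Y : ℝ) (A : ℕ), 0 < K ∧ ∀ (n : ℕ) (τ : Fin n → ℍ)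
    (D : Fin n → ℤ), (∀ k, HasDisc (τ k) (D k)) → ∀ (c : Fin n) (E b : ℤ) (S : Finset ℕ)
    (k : ℕ → ℕ), Y ≤ -(D c : ℝ) → Low L (D c) → Fit E (D c) →
    (∀ l ∈ S, l.Prime ∧ ¬ (l : ℤ) ∣ 2 * E ∧ 0 < k l ∧ (l : ℤ) ^ k l ∣ b ^ 2 - E) →
    ∑ l ∈ S, (l : ℝ) ^ (-(1 / 4 : ℝ)) ≤ 1 → ((∏ l ∈ S, l ^ k l : ℕ) : ℤ) ^ 400 ≤ -D c →
    (((Orb τ ×ˢ Orb τ).filter fun z => fr (z.1 c) ∈ KU U ∧ fr (z.2 c) ∈ KU U ∧
      ∀ l ∈ S, Ker (l ^ k l) (AA E b (fr (z.1 c))) = Ker (l ^ k l) (AA E b (fr (z.2 c)))).card : ℝ) ≤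
      K * Real.log (-(D c : ℝ)) ^ A / (∏ l ∈ S, l ^ k l : ℕ) * ((Orb τ).card : ℝ) ^ 2 := by
  obtain ⟨K, Y, A, hK, H⟩ := levP_le (4 * U ^ 2)
  refine ⟨225 * (L ^ 2 + 1) * K, max Y 577, A, by positivity,
    fun n τ D hτ c E b S k hY hL hF hS hsum hQ => ?_⟩
  obtain ⟨f, hf, rfl⟩ := hF
  have hD := (hτ c).isD
  have h576 : D c < -576 := by
    have : (577 : ℝ) ≤ -(D c : ℝ) := (le_max_right _ _).trans hY
    have : (577 : ℤ) ≤ -D c := by exact_mod_cast this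
    omega
  have hcl : ∀ l ∈ S, IsCoprime (l : ℤ) (2 * (f ^ 2 * D c)) := fun l hl =>
    ((Nat.prime_iff_prime_int.1 (hS l hl).1).irreducible.coprime_iff_not_dvd).2 (hS l hl).2.1
  have hQ0 : 0 < ∏ l ∈ S, l ^ k l := Finset.prod_pos fun l hl => pow_pos (hS l hl).1.pos _
  have hc : IsCoprime ((∏ l ∈ S, l ^ k l : ℕ) : ℤ) (2 * (f ^ 2 * D c)) := by
    push_cast
    exact IsCoprime.prod_left fun l hl => (hcl l hl).pow_left
  have hcop : ∀ a ∈ S, ∀ a' ∈ S, a ≠ a' → IsCoprime ((a : ℤ) ^ k a) ((a' : ℤ) ^ k a') :=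
    fun a ha a' ha' hne => (Nat.isCoprime_iff_coprime.2
      ((Nat.coprime_primes (hS a ha).1 (hS a' ha').1).2 hne)).pow
  have hb : ((∏ l ∈ S, l ^ k l : ℕ) : ℤ) ∣ b ^ 2 - f ^ 2 * D c := by
    push_cast
    exact Finset.prod_dvd_of_coprime (fun a ha a' ha' hne => hcop a ha a' ha' hne)
      fun l hl => (hS l hl).2.2.2
  have hker : ∀ (η : M2) (v : V2), v ∈ Ker (∏ l ∈ S, l ^ k l) η ↔ ∀ l ∈ S, v ∈ Ker (l ^ k l) η := by
    intro η v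
    refine ⟨fun hv l hl => Ker_anti (Finset.dvd_prod_of_mem _ hl) η hv, fun hv i => ?_⟩
    push_cast
    exact Finset.prod_dvd_of_coprime (fun a ha a' ha' hne => hcop a ha a' ha' hne)
      fun l hl => by exact_mod_cast hv l hl i
  have hJ : ∀ l ∈ S, l.Prime ∧ l ≠ 2 ∧ jacobiSym (D c) l = 1 ∧ 0 < k l := fun l hl => by
    obtain ⟨u1, u2, u3, u4⟩ := hS l hl
    refine ⟨u1, ?_, ?_, u3⟩
    · rintro rfl
      exact u2 (Dvd.intro _ rfl)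
    have u5 : (l : ℤ) ∣ b ^ 2 - f ^ 2 * D c := (dvd_pow_self _ u3.ne').trans u4
    have u6 : IsCoprime (l : ℤ) (f ^ 2 * D c) := (hcl l hl).of_mul_right_right
    have u7 : IsCoprime (l : ℤ) (b ^ 2) := by
      obtain ⟨w, hw⟩ := u5
      rw [show b ^ 2 = f ^ 2 * D c + l * w by linear_combination hw]
      exact u6.add_mul_left_right w
    have e1 : jacobiSym ((f : ℤ) ^ 2 * D c) l = jacobiSym (b ^ 2) l :=
      jacobiSym.mod_left' (Int.modEq_iff_dvd.2 u5)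
    rw [jacobiSym.mul_left, jacobiSym.sq_one' (Int.isCoprime_iff_gcd_eq_one.1
      ((IsCoprime.pow_right_iff two_pos).1 u6.of_mul_right_left).symm),
      jacobiSym.sq_one' (Int.isCoprime_iff_gcd_eq_one.1
      ((IsCoprime.pow_right_iff two_pos).1 u7).symm), one_mul] at e1
    exact e1
  obtain ⟨b₀, h₀, h₁⟩ : ∃ b₀ : ℤ, 2 ∣ b₀ - D c ∧ ((∏ l ∈ S, l ^ k l : ℕ) : ℤ) ∣ f * b₀ + b := by
    generalize ((∏ l ∈ S, l ^ k l : ℕ) : ℤ) = q at hc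
    obtain ⟨x, y, e⟩ := hc
    refine ⟨-(y * 2 * f * D c * b) + x * q * D c, ⟨-(y * f * D c * b) - y * f ^ 2 * D c ^ 2, ?_⟩,
      ⟨x * b + f * x * D c, ?_⟩⟩
    · linear_combination D c * e
    · linear_combination -b * e
  have a1 := H (D c) b₀ S k hD ((le_max_left _ _).trans hY) hJ hsum hQ
  have a2 := orbit_two ⊥ hτ c h576 (LevP_finite (∏ l ∈ S, l ^ k l) b₀ (4 * U ^ 2) (D c))
  rw [IntermediateField.finrank_bot, ← galO_eq, ← card_fO (galO _ _)] at a2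
  have a3 := hL _ hD ⟨_, rfl⟩
  have a4 := tfc_HH hD
  have hO := orbit_finite ⊥ hτ
  refine (fun (H : ∀ T : Finset ((Fin n → ℂ) × (Fin n → ℂ)), (∀ z ∈ T,
    (z.1 ∈ Orb τ ∧ z.2 ∈ Orb τ) ∧ fr (z.1 c) ∈ KU U ∧ fr (z.2 c) ∈ KU U ∧ ∀ l ∈ S,
      Ker (l ^ k l) (AA (f ^ 2 * D c) b (fr (z.1 c))) =
        Ker (l ^ k l) (AA (f ^ 2 * D c) b (fr (z.2 c)))) → (T.card : ℝ) ≤ _) =>
    H _ fun z hz => by simpa only [Finset.mem_filter, Finset.mem_product] using hz) fun T hT => ?_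
  have a5 : T.card ≤ {w : (Fin n → ℂ) × (Fin n → ℂ) | w.1 ∈ (galO ⊥ fun k => jInv (τ k)) ∧
      w.2 ∈ (galO ⊥ fun k => jInv (τ k)) ∧
      (w.1 c, w.2 c) ∈ LevP (∏ l ∈ S, l ^ k l) b₀ (4 * U ^ 2) (D c)}.ncard := by
    rw [← Set.ncard_coe_finset]
    refine Set.ncard_le_ncard (fun z hz => ?_)
      ((hO.prod hO).subset fun z hz => ⟨hz.1, hz.2.1⟩)
    obtain ⟨⟨z1, z2⟩, z3, z4, z5⟩ := hT z hz
    refine ⟨(mem_fO hO).1 z1, (mem_fO hO).1 z2, ?_⟩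
    have := lev_of_dir (Orb_disc hτ z1 h576) (Orb_disc hτ z2 h576) hf z3 z4 hQ0 hc hb h₀ h₁
      (Set.ext fun v => by
        rw [hker, hker]
        exact forall₂_congr fun l hl => by rw [z5 l hl])
    rwa [(fr_spec _).2, (fr_spec _).2] at this
  have a6 : (T.card : ℝ) * (Cl (D c)).ncard ^ 2 ≤ _ :=
    le_trans (mul_le_mul_of_nonneg_right (by exact_mod_cast a5) (by positivity)) a2
  have a7 : HH (D c) ^ 2 ≤ (L ^ 2 + 1) * (Cl (D c)).ncard ^ 2 := by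
    have := pow_le_pow_left₀ a4.le a3 2
    rw [mul_pow] at this
    nlinarith [sq_nonneg ((Cl (D c)).ncard : ℝ)]
  refine le_of_mul_le_mul_right ?_ (pow_pos a4 2)
  calc (T.card : ℝ) * HH (D c) ^ 2 ≤ T.card * ((L ^ 2 + 1) * (Cl (D c)).ncard ^ 2) := by gcongr
    _ = (L ^ 2 + 1) * (T.card * (Cl (D c)).ncard ^ 2) := by ring
    _ ≤ (L ^ 2 + 1) * ((15 * (1 : ℕ)) ^ 2 * (K * Real.log (-(D c : ℝ)) ^ A /
        (∏ l ∈ S, l ^ k l : ℕ) * HH (D c) ^ 2) * ((Orb τ).card : ℝ) ^ 2) := by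
        refine mul_le_mul_of_nonneg_left (a6.trans ?_) (by positivity)
        unfold Orb
        gcongr
    _ = _ := by push_cast; ring

theorem tight_orb (L : ℝ) {δ : ℝ} (hδ : 0 < δ) : ∃ U Y : ℝ, 1 ≤ U ∧ ∀ (n : ℕ) (τ : Fin n → ℍ)
    (D : Fin n → ℤ), (∀ k, HasDisc (τ k) (D k)) → ∀ c : Fin n, Y ≤ -(D c : ℝ) → Low L (D c) →
    prb (Orb τ) (fun x => fr (x c) ∉ KU U) ≤ δ := by
  obtain ⟨t, Y, ht, H⟩ := frac_sh ⊥ L hδ
  refine ⟨max 1 (1 / t), max Y 577, le_max_left _ _, fun n τ D hτ c hY hL => ?_⟩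
  have h576 : D c < -576 := by
    have : (577 : ℝ) ≤ -(D c : ℝ) := (le_max_right _ _).trans hY
    have : (577 : ℤ) ≤ -D c := by exact_mod_cast this
    omega
  have a1 := H n τ D hτ c h576 hL ((le_max_left _ _).trans hY)
  have hO := orbit_finite ⊥ hτ
  rw [← galO_eq, ← card_fO (galO _ _)] at a1
  unfold prb
  rw [div_le_iff₀ (by exact_mod_cast (Orb_ne hτ).card_pos)]
  refine le_trans ?_ a1
  rw [← Set.ncard_coe_finset, Nat.cast_le]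
  refine Set.ncard_le_ncard (fun z hz => ?_) (hO.subset fun z hz => hz.1)
  simp only [Finset.mem_coe, Finset.mem_filter] at hz
  refine ⟨(mem_fO hO).1 hz.1, ?_⟩
  have a2 : max 1 (1 / t) < (fr (z c)).im := not_le.1 fun h => hz.2 ⟨(fr_spec _).1, h⟩
  have a3 := (le_max_right _ _).trans a2.le
  rw [div_le_iff₀' ht] at a3
  have := mem_Sh_of_fd (Orb_disc hτ hz.1 h576) a3
  rwa [(fr_spec _).2] at this

end Pool.Agent.EQ
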