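import Pool.Agent.P.MP_ad7a55_nt.XBb
import Pool.Agent.P.MP_ad7a55_nt.TEx

/-! Pairs of lattices of different orders with related directions. -/

set_option autoImplicit false

noncomputable section

open MeasureTheory Topology Filter UpperHalfPlane
open scoped MatrixGroups BoundedContinuousFunction Matrix Classical

namespace Pool.Agent.EQ

/-- A level structure modulo `q` respected by a real-linear map. -/
def LvQ (q : ℕ) (b₀ E : ℤ) (G : ℕ) (M₁ M₂ : Lt) (α β : ℂ) : Prop :=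
  2 ∣ b₀ - E ∧ ∃ v ∈ M₁, (∀ l : ℕ, l.Prime → l ∣ q → v ∉ pr l * M₁) ∧
    G * (th E - b₀) * v ∈ pr q * M₁ ∧ G * (th E - b₀) * rl α β v ∈ pr q * M₂

/-- Pairs in a fixed relative class with a map that respects the level structure. -/
def XS (n : ℤ) (C : ℝ) (q : ℕ) (b₀ E : ℤ) (g₁ g₂ : ℕ) (w : ℂ) : Set (ℂ × ℂ) :=
  {z | ∃ (M₁ M₂ : Lt) (α β : ℂ) (B : ℤ), DiscL M₁ (g₁ ^ 2 * E) ∧ DiscL M₂ (g₂ ^ 2 * E) ∧
    jL M₁ = z.1 ∧ jL M₂ = z.2 ∧ jL (M₂ * cj M₁) = w ∧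
    Hm n C (g₁ ^ 2 * E) (g₂ ^ 2 * E) M₁ M₂ α β B ∧ LvQ q b₀ E (g₁ * g₂) M₁ M₂ α β}

theorem XS_finite (n : ℤ) (C : ℝ) (q : ℕ) (b₀ E : ℤ) (g₁ g₂ : ℕ) (w : ℂ) :
    (XS n C q b₀ E g₁ g₂ w).Finite := by
  refine ((Cl_finite (g₁ ^ 2 * E)).prod (Cl_finite (g₂ ^ 2 * E))).subset ?_
  rintro z ⟨M₁, M₂, α, β, B, h₁, h₂, e₁, e₂, -⟩
  exact ⟨⟨M₁, h₁, e₁⟩, ⟨M₂, h₂, e₂⟩⟩

theorem hm_int {E : ℤ} (hE : IsD E) {g₁ g₂ : ℕ} (hg : g₁.Coprime g₂) {M₁ M₂ : Lt}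
    (h₁ : DiscL M₁ (g₁ ^ 2 * E)) (h₂ : DiscL M₂ (g₂ ^ 2 * E)) {α β : ℂ}
    (h : ∀ z ∈ M₁, rl α β z ∈ M₂) : ∃ B : ℤ,
      Real.sqrt (((g₁ : ℤ) ^ 2 * E : ℤ) * ((g₂ : ℤ) ^ 2 * E : ℤ)) * Complex.normSq β * vol M₁ =
        B * vol M₂ := by
  obtain ⟨k₁, k₂, -⟩ := discL_mul_cop hE hg h₁ h₂
  obtain ⟨n, hn⟩ := k₁.normSq_nat (rl_mem h₁.isLat h).2
  have v1 := vol_pos h₁.isLat
  have d1 : (0 : ℝ) < -(((g₁ : ℤ) ^ 2 * E : ℤ) : ℝ) := by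
    have : (((g₁ : ℤ) ^ 2 * E : ℤ) : ℝ) < 0 := by exact_mod_cast h₁.isD.1
    linarith
  have d2 : (0 : ℝ) < -(((g₂ : ℤ) ^ 2 * E : ℤ) : ℝ) := by
    have : (((g₂ : ℤ) ^ 2 * E : ℤ) : ℝ) < 0 := by exact_mod_cast h₂.isD.1
    linarith
  refine ⟨n, ?_⟩
  rw [← neg_mul_neg (((g₁ : ℤ) ^ 2 * E : ℤ) : ℝ), Real.sqrt_mul d1.le]
  rw [k₂, nm, nm, map_mul, map_mul, map_mul, Complex.normSq_I, Complex.normSq_ofReal,
    Complex.normSq_ofNat] at hn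
  have s1 := Real.sqrt_pos.2 d1
  have s2 := Real.sqrt_pos.2 d2
  generalize Real.sqrt (-(((g₁ : ℤ) ^ 2 * E : ℤ) : ℝ)) = x at hn s1 ⊢
  generalize Real.sqrt (-(((g₂ : ℤ) ^ 2 * E : ℤ) : ℝ)) = y at hn s2 ⊢
  field_simp at hn
  push_cast
  linear_combination hn

theorem xbd_be {E b₀ : ℤ} (h : 2 ∣ b₀ - E) : (th E - b₀) / 2 ∈ OD E := by
  obtain ⟨k, hk⟩ := h
  refine mem_sp.2 ⟨-(k + E), 1, ?_⟩
  have e : (b₀ : ℂ) - E = 2 * k := by exact_mod_cast hk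
  push_cast
  linear_combination (-1 / 2 : ℂ) * e

theorem xbd_div {E b₀ : ℤ} (h : 2 ∣ b₀ - E) {T M : Lt} (hT : DiscL T E) (hM : M ≤ T) {q G : ℕ}
    (hc : IsCoprime (q : ℤ) (2 * G)) {w : ℂ} (hw : w ∈ M)
    (h1 : G * (th E - b₀) * w ∈ pr q * M) : ∃ u ∈ T, q * u = (th E - b₀) / 2 * w := by
  obtain ⟨u, hu, e⟩ := mem_pr_mul.1 h1
  refine mem_pr_mul.1 (mem_of_coprime_fac hc
    (mem_pr_mul.2 ⟨_, ctd2_OD_mul hT (xbd_be h) (hM hw), ?_⟩) (mem_pr_mul.2 ⟨u, hM hu, ?_⟩))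
  · push_cast
    ring
  · push_cast
    linear_combination e

theorem Dt.Geo.lvq {d : Dt} {κ : ℕ} {C : ℝ} {M₁ M₂ : Lt} {α β c : ℂ} {τ : ℍ} {Θ η₁ η₂ : M2}
    {B : ℤ} (h : d.Good κ) (g : d.Geo C M₁ M₂ α β c τ Θ η₁ η₂ B) {q : ℕ} (hq : 0 < q)
    (hc : IsCoprime (q : ℤ) (2 * d.m)) {b₀ : ℤ} (hl : LvQ q b₀ d.E d.G M₁ M₂ α β) :
    Lvl q b₀ Θ η₁ η₂ := by
  obtain ⟨t₁, -, s₁, r₁⟩ := discL_up h.isD g.d₁
  obtain ⟨t₂, -, s₂, r₂⟩ := discL_up h.isD g.d₂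
  have q0 : (q : ℂ) ≠ 0 := Nat.cast_ne_zero.2 hq.ne'
  have hcG : IsCoprime (q : ℤ) (2 * d.G) :=
    hc.of_isCoprime_of_dvd_right ⟨d.n, by simp only [Dt.m]; ring⟩
  have hcm : IsCoprime (q : ℤ) d.m := hc.of_mul_right_right
  obtain ⟨hb, w, hw, hp, h3, h4⟩ := hl
  obtain ⟨w1, hw1, e1⟩ := xbd_div hb t₁ s₁ hcG hw h3
  obtain ⟨w2, hw2, e2⟩ := xbd_div hb t₂ s₂ hcG (g.hm.map _ hw) h4
  obtain ⟨v, rfl⟩ := tgb_mem.1 (g.bas.le (s₁ hw))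
  have hcv : IsCoprime (Int.gcd (v 0) (v 1) : ℤ) q := by
    rw [Nat.isCoprime_iff_coprime]
    refine Nat.coprime_of_dvd fun l hl l1 l2 => hp l hl l2 ?_
    obtain ⟨a, ha⟩ := (Int.natCast_dvd_natCast.2 l1).trans (Int.gcd_dvd_left (v 0) (v 1))
    obtain ⟨b, hb'⟩ := (Int.natCast_dvd_natCast.2 l1).trans (Int.gcd_dvd_right (v 0) (v 1))
    have e : (l : ℂ) * (c * ev τ ![a, b]) = c * ev τ v := by
      simp only [ev, ha, hb', Matrix.cons_val_zero, Matrix.cons_val_one]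
      push_cast
      ring
    have hlg : IsCoprime (l : ℤ) (d.g₁ : ℤ) :=
      (hcG.of_isCoprime_of_dvd_left (Int.natCast_dvd_natCast.2 l2)).of_isCoprime_of_dvd_right
        ⟨2 * d.g₂, by simp only [Dt.G]; push_cast; ring⟩
    refine mem_pr_mul.2 ⟨c * ev τ ![a, b], mem_of_coprime_fac hlg ?_ ?_, e⟩
    · rw [Int.cast_natCast, e]
      exact hw
    · rw [Int.cast_natCast]
      exact pr_mul_le.1 r₁ _ (g.bas.ge (tgb_mem.2 ⟨_, rfl⟩))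
  obtain ⟨r, t, hr⟩ := hcv
  rw [Int.gcd_eq_gcd_ab] at hr
  have key : ∀ (e : ℂ) (η : M2), e ∈ d.LL → d.Lk M₁ α β c τ e η →
      ∃ lam : ℤ, ∀ i, (q : ℤ) ∣ (η *ᵥ v) i - lam * v i := by
    intro e η he hk
    have k1 := hk v
    have k2 := Dt.tgb_up h g he hw1
    generalize η *ᵥ v = u at k1 ⊢
    have k3 : ((dt v u * d.m : ℤ) * ((Pool.Agent.EQ.th d.E - b₀) / 2) / q : ℂ) ∈ OD d.E := by
      refine (t₂.end_iff _).1 (pr_mul_le.2 fun w hw => ?_)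
      obtain ⟨z, hz, e3⟩ := rl_index g.d₁.isLat g.d₂.isLat g.hm.map g.hm.deg _
        (pr_mul_le.1 r₂ w hw)
      obtain ⟨s, rfl⟩ := tgb_mem.1 (g.bas.le (s₁ hz))
      have e4 : dt v u • s = dt s u • v + dt v s • u := by
        funext i
        revert i
        refine Fin.forall_fin_two.2 ⟨?_, ?_⟩ <;>
          simp only [dt, Pi.add_apply, Pi.smul_apply, smul_eq_mul] <;> ring
      have e5 := congrArg (fun y => rl α β (c * ev τ y)) e4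
      simp only [tgb_lin, tgb_smul, cte_lin, tgb_rl, e3] at e5
      refine (congrArg (· ∈ M₂ * OD d.E) ?_).mp
        (add_mem ((M₂ * OD d.E).smul_mem (dt s u * d.g₁) hw2)
          ((M₂ * OD d.E).smul_mem (dt v s * d.m) k2))
      simp only [zsmul_eq_mul]
      rw [div_mul_eq_mul_div _ (q : ℂ), eq_div_iff q0]
      have em : (d.m : ℂ) = d.n * (d.g₁ * d.g₂) := by
        simp only [Dt.m, Dt.G]
        push_cast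
        ring
      push_cast
      linear_combination (dt s u * d.g₁ : ℂ) * e2 +
        (dt v s * d.m * (e / nm d.E (M₁ * OD d.E)) : ℂ) * e1 -
        (Pool.Agent.EQ.th d.E - b₀) / 2 * d.g₁ * e5 -
        (Pool.Agent.EQ.th d.E - b₀) / 2 * dt v s * k1 -
        (Pool.Agent.EQ.th d.E - b₀) / 2 * dt v u * w * em
    obtain ⟨x, y, e6⟩ := mem_sp.1 k3
    rw [div_eq_iff q0] at e6
    generalize hN : dt v u * d.m = N at e6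
    have e7 := congrArg Complex.im e6
    simp at e7
    have e8 : N = q * y := by
      have : (N : ℝ) = q * y :=
        mul_right_cancel₀ (ord2_th_im_ne h.E_neg) (by linarith)
      exact_mod_cast this
    obtain ⟨y', e9⟩ : (q : ℤ) ∣ dt v u := hcm.dvd_of_dvd_mul_right ⟨y, hN.trans e8⟩
    rw [dt] at e9
    refine ⟨r * (v 0).gcdA (v 1) * u 0 + r * (v 0).gcdB (v 1) * u 1, Fin.forall_fin_two.2
      ⟨⟨t * u 0 - r * (v 0).gcdB (v 1) * y', ?_⟩, ⟨t * u 1 + r * (v 0).gcdA (v 1) * y', ?_⟩⟩⟩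
    · linear_combination (-u 0) * hr - r * (v 0).gcdB (v 1) * e9
    · linear_combination (-u 1) * hr + r * (v 0).gcdA (v 1) * e9
  obtain ⟨l₁, k₁⟩ := key _ _ (ord_left _ _) g.k₁
  obtain ⟨l₂, k₂⟩ := key _ _ (ord_right _ _) g.k₂
  obtain ⟨u, rfl⟩ := tgb_mem.1 (g.bas.le hw1)
  refine ⟨v, r * (v 0).gcdA (v 1), r * (v 0).gcdB (v 1), l₁, l₂, ⟨-t, by linear_combination hr⟩,
    fun i => ?_, k₁, k₂⟩
  have e9 := tgb_inj g.ne (τ := τ) (k := 2 * q) (u := u) (v := (1 : ℤ) • (Θ *ᵥ v) + (-b₀) • v) (by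
    rw [tgb_lin, g.th.mul]
    push_cast
    linear_combination (-2) * e1) i
  simpa [sub_eq_add_neg] using e9

theorem xbd_diag {n D₁ D₂ : ℤ} (hn : n.natAbs = 1) {C : ℝ} {M₁ M₂ : Lt} {α β : ℂ}
    (h₁ : DiscL M₁ D₁) (h₂ : DiscL M₂ D₂) (hm : Hm n C D₁ D₂ M₁ M₂ α β 0) :
    Isog 1 (jL M₁) (jL M₂) := by
  have v1 := vol_pos h₁.isLat
  have v2 := vol_pos h₂.isLat
  have hE : (D₁ : ℝ) < 0 := by exact_mod_cast h₁.isD.1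
  have hE' : (D₂ : ℝ) < 0 := by exact_mod_cast h₂.isD.1
  have hs : 0 < Real.sqrt (D₁ * D₂) := Real.sqrt_pos.2 (mul_pos_of_neg_of_neg hE hE')
  have hβ : β = 0 := by
    have h := hm.inv
    rw [Int.cast_zero, zero_mul] at h
    rcases mul_eq_zero.1 h with h | h
    · exact Complex.normSq_eq_zero.1 ((mul_eq_zero.1 h).resolve_left hs.ne')
    · exact absurd h v1.ne'
  subst hβ
  have hd := hm.deg
  rw [map_zero, sub_zero] at hd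
  obtain rfl : n = 1 := by
    rcases Int.natAbs_eq_iff.1 hn with h | h
    · simpa using h
    · exfalso
      rw [h] at hd
      have := mul_nonneg (Complex.normSq_nonneg α) v1.le
      push_cast at hd
      linarith
  have hα : α ≠ 0 := by
    rintro rfl
    simp only [map_zero, zero_mul, Int.cast_one, one_mul] at hd
    exact v2.ne hd
  have e : M₂ = pr α * M₁ := by
    refine le_antisymm (fun w hw => ?_) (pr_mul_le.2 fun w hw => ?_)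
    · obtain ⟨z, hz, e⟩ := rl_index h₁.isLat h₂.isLat hm.map hm.deg w hw
      exact mem_pr_mul.2 ⟨z, hz, by simpa [rl] using e⟩
    · simpa [rl] using hm.map w hw
  refine ⟨M₁, M₁, h₁.isLat, h₁.isLat, rfl, by rw [e, jL_pr_mul h₁.isLat hα], le_rfl,
    pr_mul_le.2 fun w hw => by simpa using hw⟩

theorem xbd_geo {d : Dt} (h : d.Good 0) {C : ℝ} {q : ℕ} (hq : 0 < q)
    (hc : IsCoprime (q : ℤ) (2 * d.m)) {b₀ : ℤ} (hn : d.n.natAbs = 1) {z : ℂ × ℂ}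
    (hz : z ∈ XS d.n C q b₀ d.E d.g₁ d.g₂ (jL d.LL)) (hi : ¬ Isog 1 z.1 z.2) :
    ∃ τ Θ η₁ η₂ B, d.GZ C z τ Θ η₁ η₂ B ∧ B ≠ 0 ∧ Lvl q b₀ Θ η₁ η₂ := by
  obtain ⟨M₁, M₂, α, β, B, h₁, h₂, e₁, e₂, hj, hm, hl⟩ := hz
  have hB : B ≠ 0 := by
    rintro rfl
    exact hi (e₁ ▸ e₂ ▸ xbd_diag hn h₁ h₂ hm)
  obtain ⟨τ, hτ⟩ := jInv_surj (jL (M₁ * OD d.E))
  obtain ⟨s, c, Θ, η₁, η₂, hs, g⟩ := Dt.geo_ex h h₁ h₂ hj hm hτ
  refine ⟨τ, Θ, η₁, η₂, B, ⟨M₁, pr s * M₂, s * α, s * β, c, e₁,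
    (jL_pr_mul h₂.isLat hs).trans e₂, g⟩, hB, g.lvq h hq hc ?_⟩
  obtain ⟨l1, v, hv, l2, l3, l4⟩ := hl
  refine ⟨l1, v, hv, l2, l3, ?_⟩
  obtain ⟨w, hw, e⟩ := mem_pr_mul.1 l4
  refine mem_pr_mul.2 ⟨s * w, mem_pr_mul.2 ⟨w, hw, rfl⟩, ?_⟩
  simp only [rl, Dt.G] at e ⊢
  linear_combination s * e

theorem xs_le : ∃ (K : ℝ) (A R₀ : ℕ), 0 < K ∧ ∀ (n b₀ E : ℤ) (C : ℝ) (g₁ g₂ R : ℕ) (S : Finset ℕ)
    (w : ℂ), n.natAbs = 1 → 1 ≤ C → IsD E → 0 < g₁ → 0 < g₂ → g₁.Coprime g₂ → S.Nonempty →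
    (∀ l ∈ S, l.Prime ∧ l ≠ 2 ∧ jacobiSym E l = 1 ∧ ¬ l ∣ g₁ * g₂) →
    ∑ l ∈ S, (l : ℝ) ^ (-(1 / 4 : ℝ)) ≤ 1 → R₀ ≤ R → C ≤ R → (∏ l ∈ S, l) ^ 200 ≤ R →
    ({z | z ∈ XS n C (∏ l ∈ S, l) b₀ E g₁ g₂ w ∧
        ∀ M : ℕ, 0 < M → M ≤ R → ¬ Isog M z.1 z.2}.ncard : ℝ) ≤
      K * C * Real.log (-(((g₁ * g₂ : ℕ) ^ 2 * E : ℤ) : ℝ)) ^ A / (∏ l ∈ S, l : ℕ) *
        HH ((g₁ * g₂ : ℕ) ^ 2 * E) := by
  obtain ⟨C₂, A, N₀, hC₂, hcnt⟩ := Dt.cnt_lev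
  obtain ⟨L, hL, hEE⟩ := EE_log
  refine ⟨16 * C₂ * 2 ^ A * L, A + 1, N₀ ^ 2, by positivity,
    fun n b₀ E C g₁ g₂ R S w hn hC hE hg₁ hg₂ hg hS hP hsum hR hCR hqR => ?_⟩
  obtain ⟨p, hp⟩ := hS
  obtain ⟨q, hq⟩ : ∃ q, q = ∏ l ∈ S, l := ⟨_, rfl⟩
  have hq' : ∏ l ∈ S, l ^ (fun _ => 1 : ℕ → ℕ) l = q := by simp only [pow_one, hq]
  rw [← hq] at hqR ⊢
  have hq0 : 0 < q := hq ▸ Finset.prod_pos fun l hl => (hP l hl).1.pos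
  have hD : ((g₁ * g₂ : ℕ) : ℤ) ^ 2 * E ≤ -3 := by
    have h1 : (1 : ℤ) ≤ ((g₁ * g₂ : ℕ) : ℤ) ^ 2 :=
      one_le_pow₀ (by exact_mod_cast Nat.mul_pos hg₁ hg₂)
    have h2 : E ≤ -3 := by
      obtain ⟨h0, h4⟩ := hE
      omega
    nlinarith
  have hD3 : (3 : ℝ) ≤ -((((g₁ * g₂ : ℕ) : ℤ) ^ 2 * E : ℤ) : ℝ) := by
    have : ((((g₁ * g₂ : ℕ) : ℤ) ^ 2 * E : ℤ) : ℝ) ≤ -3 := by exact_mod_cast hD
    linarith
  have hlog : 0 ≤ Real.log (-((((g₁ * g₂ : ℕ) : ℤ) ^ 2 * E : ℤ) : ℝ)) :=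
    Real.log_nonneg (by linarith)
  have hR1 : 1 ≤ R := by exact_mod_cast hC.trans hCR
  set T := {z | z ∈ XS n C q b₀ E g₁ g₂ w ∧ ∀ M : ℕ, 0 < M → M ≤ R → ¬ Isog M z.1 z.2} with hT
  rcases T.eq_empty_or_nonempty with h0 | ⟨z₀, hz₀⟩
  · rw [h0, Set.ncard_empty, Nat.cast_zero]
    have := tti_HH_nonneg (((g₁ * g₂ : ℕ) : ℤ) ^ 2 * E)
    positivity
  have hw : w ∈ Cl E := by
    obtain ⟨⟨M₁, M₂, α, β, B, h₁, h₂, -, -, hw, -⟩, -⟩ := hz₀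
    exact ⟨_, (discL_mul_cop hE hg.symm h₂ h₁.cj).1, hw⟩
  obtain ⟨a, b, c, ha, hb, hc, hprim, hEe, hwe⟩ := exists_red hw
  obtain ⟨d, rfl, rfl, rfl, rfl, rfl, rfl, rfl⟩ : ∃ d : Dt, d.a = a ∧ d.b = b ∧ d.c = c ∧
      d.n = n ∧ d.g₁ = g₁ ∧ d.g₂ = g₂ ∧ d.p = p := ⟨⟨a, b, c, n, g₁, g₂, p⟩, by simp⟩
  obtain rfl : d.E = E := hEe
  obtain rfl : jL d.LL = w := hwe
  have hn0 : d.n ≠ 0 := Int.natAbs_ne_zero.1 (by omega)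
  have h : d.Good 0 := ⟨ha, hE.1, hprim, hn0, hg₁, hg₂, hg, (hP _ hp).1,
    (padicValNat.eq_zero_of_not_dvd (hP _ hp).2.2.2).le⟩
  change (3 : ℝ) ≤ -((d.G ^ 2 * d.E : ℤ) : ℝ) at hD3
  change 0 ≤ Real.log (-((d.G ^ 2 * d.E : ℤ) : ℝ)) at hlog
  change (d.G : ℤ) ^ 2 * d.E ≤ -3 at hD
  show (T.ncard : ℝ) ≤ 16 * C₂ * 2 ^ A * L * C * Real.log (-((d.G ^ 2 * d.E : ℤ) : ℝ)) ^ (A + 1) /
    q * HH (d.G ^ 2 * d.E)
  have hG : 0 < d.G := Nat.mul_pos hg₁ hg₂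
  have hcop : IsCoprime (q : ℤ) (2 * d.m) := by
    rw [hq, Nat.cast_prod]
    refine IsCoprime.prod_left fun l hl => ?_
    obtain ⟨l1, l2, -, l4⟩ := hP l hl
    rw [Int.isCoprime_iff_gcd_eq_one, Int.gcd, Int.natAbs_natCast, Dt.m, Int.natAbs_mul,
      Int.natAbs_mul, hn, one_mul, Int.natAbs_natCast]
    refine (Nat.Prime.coprime_iff_not_dvd l1).2 fun hd => ?_
    rcases (Nat.Prime.dvd_mul l1).1 hd with hd | hd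
    · exact l2 ((Nat.prime_dvd_prime_iff_eq l1 Nat.prime_two).1 hd)
    · exact l4 hd
  have hgeo : ∀ z ∈ T, ∃ τ Θ η₁ η₂ B, d.GZ C z τ Θ η₁ η₂ B ∧ B ≠ 0 ∧ Lvl q b₀ Θ η₁ η₂ :=
    fun z hz => xbd_geo h hq0 hcop hn hz.1 (hz.2 1 one_pos hR1)
  have hGa : (R : ℝ) ≤ d.G * d.a := by
    by_contra hlt
    obtain ⟨τ, Θ, η₁, η₂, B, ⟨M₁, M₂, α, β, c, e₁, e₂, g⟩, -⟩ := hgeo z₀ hz₀
    have h1 : (d.G : ℤ) * d.a ≤ R := by exact_mod_cast (not_le.1 hlt).le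
    have h2 : (d.G : ℤ) * d.a = ((d.G * d.a.natAbs : ℕ) : ℤ) := by
      push_cast
      rw [abs_of_pos ha]
    refine hz₀.2 (d.G * d.a.natAbs) (Nat.mul_pos hG (Int.natAbs_pos.2 ha.ne'))
      (by rw [h2] at h1; exact_mod_cast h1) ?_
    rw [← e₁, ← e₂]
    exact g.isog h (h2 ▸ dvd_rfl)
  have hnC : (|d.n| : ℝ) ≤ C := by
    have e : ((d.n.natAbs : ℕ) : ℝ) = |(d.n : ℝ)| := by rw [Nat.cast_natAbs, Int.cast_abs]
    rw [← e, hn, Nat.cast_one]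
    exact hC
  obtain ⟨H, N, hsz, hH, hN, -, hHN, hprod⟩ := tex_sz h hC hnC hb hc (hCR.trans hGa)
  have hGa0 : 0 ≤ (d.G : ℝ) * d.a := (Nat.cast_nonneg R).trans hGa
  have hRH : 4 * R ≤ H ^ 2 := by
    have h1 := le_mul_of_one_le_left hGa0 hC
    have h2 : 4 * (R : ℝ) ≤ (H : ℝ) ^ 2 := by linarith
    exact_mod_cast h2
  have hRN : R ≤ N ^ 2 := by
    have h1 : H ^ 2 ≤ (2 * N) ^ 2 := Nat.pow_le_pow_left hHN 2
    rw [mul_pow] at h1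
    omega
  have hq2 : q ^ 200 = (q ^ 100) ^ 2 := by rw [← pow_mul]
  have hN0 : N₀ ≤ N :=
    (pow_le_pow_iff_left₀ (Nat.zero_le _) (Nat.zero_le _) two_ne_zero).1 (hR.trans hRN)
  have hqN : q ^ 100 ≤ N :=
    (pow_le_pow_iff_left₀ (Nat.zero_le _) (Nat.zero_le _) two_ne_zero).1 (hq2 ▸ hqR.trans hRN)
  have hqH : q ^ 2 ≤ H := by
    refine (Nat.pow_le_pow_right hq0 (by norm_num : 2 ≤ 100)).trans ?_
    refine (pow_le_pow_iff_left₀ (Nat.zero_le _) (Nat.zero_le _) two_ne_zero).1 ?_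
    rw [← hq2]
    omega
  have hZ := tpair_boxfin h.a_pos H N
  have k1 := Dt.geo_sum (C := C) h T hZ.toFinset (Lvl q b₀) (d.WS S (d.wl fun _ => 1))
    (fun z hz => by
      obtain ⟨τ, Θ, η₁, η₂, B, gz, hB, hl⟩ := hgeo z hz
      obtain ⟨b1, b2, b3, b4⟩ := gz.box h hC hB hH hN
      exact ⟨τ, Θ, η₁, η₂, B, gz, hZ.mem_toFinset.2 ⟨b1, b2, b3, b4⟩, hl⟩)
    (fun x hx => by
      have k := Dt.few_levs h S (fun _ => 1)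
        (fun l hl => ⟨(hP l hl).1, (hP l hl).2.1, (hP l hl).2.2.1, one_pos⟩) b₀
        (hZ.mem_toFinset.1 hx).ne
      rwa [hq'] at k)
  have k2 := hcnt d h hn H N hsz hN0 S (fun _ => 1) hp
    (fun l hl => by
      obtain ⟨l1, l2, l3, l4⟩ := hP l hl
      refine ⟨l1, l2, fun hd => ?_, l4, one_pos⟩
      have := Fact.mk l1
      rw [← jacobiSym.legendreSym.to_jacobiSym, (legendreSym.eq_zero_iff l d.E).2
        ((ZMod.intCast_zmod_eq_zero_iff_dvd _ _).2 hd)] at l3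
      exact zero_ne_one l3)
    hsum (hq'.symm ▸ hqN) (hq'.symm ▸ hqH) hZ.toFinset fun z hz => hZ.mem_toFinset.1 hz
  rw [hq'] at k2
  rw [hn, Nat.cast_one, one_pow, one_mul] at k1
  refine k1.trans (k2.trans ?_)
  have hab := tti_abs (show (d.G : ℤ) ^ 2 * d.E < 0 by omega)
  have hN1 : (1 : ℝ) ≤ N := by exact_mod_cast (Nat.one_le_pow _ _ hq0).trans hqN
  have k3 : Real.log N ≤ 2 * Real.log (-((d.G ^ 2 * d.E : ℤ) : ℝ)) := by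
    have h1 : (N : ℝ) ≤ (-((d.G ^ 2 * d.E : ℤ) : ℝ)) ^ 2 := by
      rw [← hab]
      exact_mod_cast hsz.up
    have h2 := Real.log_le_log (by linarith) h1
    rwa [Real.log_pow, Nat.cast_ofNat] at h2
  have k4 := (hEE (d.G ^ 2 * d.E) (d.G ^ 2 * d.E).natAbs (by omega)).2
  rw [hab] at k4
  rw [HH]
  have k5 := pow_le_pow_left₀ (Real.log_natCast_nonneg N) k3 A
  have k6 := Real.sqrt_nonneg (-((d.G ^ 2 * d.E : ℤ) : ℝ))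
  generalize Real.sqrt (-((d.G ^ 2 * d.E : ℤ) : ℝ)) = s at hprod k6 ⊢
  generalize EE (d.G ^ 2 * d.E) (d.G ^ 2 * d.E).natAbs = e at k4 ⊢
  generalize Real.log (-((d.G ^ 2 * d.E : ℤ) : ℝ)) = x at k4 k5 hlog ⊢
  calc C₂ * Real.log N ^ A / q * N * H = C₂ / q * (Real.log N ^ A * (N * H)) * 1 := by ring
    _ ≤ C₂ / q * ((2 * x) ^ A * (16 * C * s)) * (L * x * e) :=
        mul_le_mul (mul_le_mul_of_nonneg_left
          (mul_le_mul k5 hprod (by positivity) (by positivity)) (by positivity)) k4 zero_le_one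
          (by positivity)
    _ = _ := by
        rw [mul_pow]
        ring

end Pool.Agent.EQ
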