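import Pool.Agent.P.MP_ad7a55_nt.XEa

/-! Second moment transfer, tuples, large deviations. -/

set_option autoImplicit false

noncomputable section

open Finset
open scoped Classical

namespace Pool.Agent.EQ

variable {α β Λ : Type}

/-- The number of points with a given label. -/
def xecN (O : Finset α) (In : α → Prop) (lab : α → Λ) (l : Λ) : ℝ :=
  ∑ x ∈ O, if In x ∧ lab x = l then 1 else 0

theorem xec_nonneg (O : Finset α) (In : α → Prop) (lab : α → Λ) (l : Λ) : 0 ≤ xecN O In lab l :=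
  sum_nonneg fun _ _ => by split_ifs <;> norm_num

theorem xec_pb (O : Finset α) (p : α → Prop) [DecidablePred p] :
    prb O p = (∑ x ∈ O, if p x then (1 : ℝ) else 0) / #O := by
  rw [pb_eq, mn]
  congr 1
  exact sum_congr rfl fun x _ => by by_cases h : p x <;> simp [h]

theorem xec_pbN (O : Finset α) (In : α → Prop) (lab : α → Λ) (l : Λ) :
    prb O (fun x' => In x' ∧ lab x' = l) = xecN O In lab l / #O := xec_pb _ _

theorem xec_fib (O : Finset α) (In : α → Prop) (lab : α → Λ) (B : Finset Λ) (G : Λ → ℝ) :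
    ∑ x ∈ O, (if In x ∧ lab x ∈ B then G (lab x) else 0) = ∑ l ∈ B, xecN O In lab l * G l := by
  simp only [xecN, sum_mul]
  rw [sum_comm]
  refine sum_congr rfl fun x _ => ?_
  by_cases h : In x
  · simp [h]
  · simp [h]

theorem xec_pair (O : Finset α) (In : α → Prop) (lab : α → Λ) :
    (#{z ∈ O ×ˢ O | In z.1 ∧ In z.2 ∧ lab z.1 = lab z.2} : ℝ)
      = ∑ x ∈ O, if In x then xecN O In lab (lab x) else 0 := by
  rw [card_filter]
  push_cast
  rw [sum_product]
  refine sum_congr rfl fun x _ => ?_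
  by_cases h : In x
  · rw [if_pos h, xecN]
    refine sum_congr rfl fun y _ => ?_
    simp only [h, true_and, eq_comm]
  · simp [h]

theorem transfer (O : Finset α) (In : α → Prop) (lab : α → Λ) (B : Finset Λ) {s : ℝ}
    (h : (#{z ∈ O ×ˢ O | In z.1 ∧ In z.2 ∧ lab z.1 = lab z.2} : ℝ) ≤ s * (#O : ℝ) ^ 2)
    (hs : 0 ≤ s) : prb O (fun x => In x ∧ lab x ∈ B) ^ 2 ≤ #B * s := by
  rw [xec_pair] at h
  have e1 := xec_fib O In lab B fun _ => 1
  have e2 := xec_fib O In lab B (xecN O In lab)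
  have e3 : ∑ l ∈ B, xecN O In lab l ^ 2 ≤ s * (#O : ℝ) ^ 2 := by
    refine le_trans ?_ h
    simp only [sq]
    rw [← e2]
    refine sum_le_sum fun x _ => ?_
    have := xec_nonneg O In lab (lab x)
    by_cases h1 : In x <;> by_cases h2 : lab x ∈ B <;> simp [h1, h2, this]
  rw [xec_pb, e1, div_pow]
  simp only [mul_one]
  refine div_le_of_le_mul₀ (by positivity) (by positivity) ?_
  refine sq_sum_le_card_mul_sum_sq.trans ?_
  rw [mul_assoc]
  exact mul_le_mul_of_nonneg_left e3 (by positivity)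

theorem atypical (O : Finset α) (In : α → Prop) (lab : α → Λ) {s t : ℝ}
    (h : (#{z ∈ O ×ˢ O | In z.1 ∧ In z.2 ∧ lab z.1 = lab z.2} : ℝ) ≤ s * (#O : ℝ) ^ 2)
    (hs : 0 ≤ s) (ht : 0 < t) :
    prb O (fun x => In x ∧ t < prb O fun x' => In x' ∧ lab x' = lab x) ≤ s / t := by
  rw [xec_pair] at h
  have h1 := pb_markov (O := O) (G := fun x => (if In x then xecN O In lab (lab x) else 0) / #O)
    (fun x _ => by
      have := xec_nonneg O In lab (lab x)
      split_ifs <;> positivity) ht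
  refine le_trans (pb_mono fun x _ hx => ?_) (h1.trans ?_)
  · rw [if_pos hx.1, ← xec_pbN]
    exact hx.2.le
  · refine div_le_div_of_nonneg_right ?_ ht.le
    rw [mn, ← sum_div, div_div, ← sq]
    exact div_le_of_le_mul₀ (by positivity) hs h

theorem typical (O : Finset α) (In : α → Prop) (lab : α → Λ) (B : Finset Λ) {t : ℝ} (ht : 0 ≤ t) :
    prb O (fun x => In x ∧ (prb O fun x' => In x' ∧ lab x' = lab x) ≤ t ∧ lab x ∈ B) ≤ #B * t := by
  have e1 := xec_fib O In lab {l ∈ B | xecN O In lab l / #O ≤ t} fun _ => 1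
  refine le_trans (pb_mono (p' := fun x => In x ∧ lab x ∈ {l ∈ B | xecN O In lab l / #O ≤ t})
    fun x _ hx => ⟨hx.1, mem_filter.2 ⟨hx.2.2, by rw [← xec_pbN]; exact hx.2.1⟩⟩) ?_
  rw [xec_pb, e1, sum_div]
  refine (sum_le_card_nsmul _ _ t fun l hl => ?_).trans ?_
  · rw [mul_one]
    exact (mem_filter.1 hl).2
  · rw [nsmul_eq_mul]
    exact mul_le_mul_of_nonneg_right (by exact_mod_cast card_filter_le _ _) ht

theorem tuples (V : Finset α) (B : Finset β) (W : β → Finset α) {e : ℝ} (he : 0 ≤ e)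
    (h : ∀ q ∈ B, W q ⊆ V ∧ e * #V ≤ #(W q)) (hB : B.Nonempty) (r : ℕ) :
    e ^ r / 2 * (#V : ℝ) ^ r ≤ #{t ∈ Fintype.piFinset fun _ : Fin r => V |
      e ^ r / 2 * #B ≤ #{q ∈ B | ∀ i, t i ∈ W q}} := by
  have hB0 : (0 : ℝ) < #B := by exact_mod_cast hB.card_pos
  have hP : (#(Fintype.piFinset fun _ : Fin r => V) : ℝ) = (#V : ℝ) ^ r := by
    rw [Fintype.card_piFinset]
    simp
  rcases (show (0 : ℝ) ≤ (#V : ℝ) ^ r by positivity).eq_or_lt with h0 | h0
  · rw [← h0, mul_zero]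
    positivity
  have h1 := pb_rev (O := Fintype.piFinset fun _ : Fin r => V)
    (G := fun t => (#{q ∈ B | ∀ i, t i ∈ W q} : ℝ)) (t := e ^ r / 2 * #B) hB0
    (fun t _ => by exact_mod_cast card_filter_le _ _) (by positivity)
  have h2 : #B * (e ^ r * (#V : ℝ) ^ r)
      ≤ ∑ t ∈ Fintype.piFinset fun _ : Fin r => V, (#{q ∈ B | ∀ i, t i ∈ W q} : ℝ) := by
    simp only [card_filter]
    push_cast
    rw [sum_comm, ← nsmul_eq_mul]
    refine card_nsmul_le_sum _ _ _ fun q hq => ?_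
    rw [sum_boole]
    have e1 : {t ∈ Fintype.piFinset fun _ : Fin r => V | ∀ i, t i ∈ W q}
        = Fintype.piFinset fun _ : Fin r => W q := by
      ext t
      simp only [mem_filter, Fintype.mem_piFinset]
      exact ⟨fun h' => h'.2, fun h' => ⟨fun i => (h q hq).1 (h' i), h'⟩⟩
    rw [e1, Fintype.card_piFinset, ← mul_pow]
    simp only [prod_const, card_univ, Fintype.card_fin, Nat.cast_pow]
    exact pow_le_pow_left₀ (by positivity) (h q hq).2 r
  have h3 : #B * e ^ r ≤ mn (Fintype.piFinset fun _ : Fin r => V)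
      (fun t => (#{q ∈ B | ∀ i, t i ∈ W q} : ℝ)) := by
    rw [mn, hP, le_div_iff₀ h0, mul_assoc]
    exact h2
  have h4 : e ^ r / 2 ≤ (mn (Fintype.piFinset fun _ : Fin r => V)
      (fun t => (#{q ∈ B | ∀ i, t i ∈ W q} : ℝ)) - e ^ r / 2 * #B) / #B := by
    rw [le_div_iff₀ hB0]
    linarith
  have h5 := h4.trans h1
  rw [prb, hP, le_div_iff₀ h0] at h5
  exact h5

theorem xec_prod {ι : Type} [Fintype ι] [DecidableEq ι] (X : ι → Finset α) (g : ι → α → ℝ) :
    mn (Fintype.piFinset X) (fun ω => ∏ i, g i (ω i)) = ∏ i, mn (X i) (g i) := by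
  unfold mn
  rw [prod_div_distrib, prod_univ_sum, Fintype.card_piFinset]
  push_cast
  rfl

theorem xec_exp {X : Finset α} (hX : X.Nonempty) {Y : α → ℝ} (h1 : ∀ a ∈ X, |Y a| ≤ 1) {c : ℝ}
    (hc : 0 ≤ c) (hc1 : c ≤ 1 / 2) :
    mn X (fun a => Real.exp (c * (Y a - mn X Y))) ≤ Real.exp (4 * c ^ 2) := by
  have hm : |mn X Y| ≤ 1 :=
    (abs_mn_le X Y).trans ((mn_mono h1).trans (mn_const hX 1).le)
  have h2 : ∀ a ∈ X, Real.exp (c * (Y a - mn X Y))
      ≤ c * Y a + (1 + 4 * c ^ 2 - c * mn X Y) := fun a ha => by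
    have b1 : |Y a - mn X Y| ≤ 2 := (abs_sub _ _).trans (by linarith [h1 a ha])
    have b2 : |c * (Y a - mn X Y)| ≤ c * 2 := by
      rw [abs_mul, abs_of_nonneg hc]
      exact mul_le_mul_of_nonneg_left b1 hc
    have b3 := (abs_le.1 (Real.abs_exp_sub_one_sub_id_le (b2.trans (by linarith)))).2
    have b4 : (c * (Y a - mn X Y)) ^ 2 ≤ (c * 2) ^ 2 := by
      rw [← sq_abs]
      exact pow_le_pow_left₀ (abs_nonneg _) b2 2
    nlinarith
  refine (mn_mono h2).trans ?_
  rw [mn_add X (fun a => c * Y a) (fun _ => 1 + 4 * c ^ 2 - c * mn X Y), mn_mul, mn_const hX]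
  linarith [Real.add_one_le_exp (4 * c ^ 2)]

theorem xec_one {M : ℕ} (X : Fin M → Finset α) (hX : ∀ i, (X i).Nonempty) (Y : Fin M → α → ℝ)
    (h1 : ∀ i, ∀ a ∈ X i, |Y i a| ≤ 1) {e t : ℝ} (h2 : ∀ i, mn (X i) (Y i) ≤ e) (ht : 0 < t)
    (ht1 : t ≤ 1) : prb (Fintype.piFinset X) (fun ω => (e + t) * M < ∑ i, Y i (ω i)) ≤
      Real.exp (-(t ^ 2 * M / 16)) := by
  have h3 := pb_markov (O := Fintype.piFinset X)
    (G := fun ω => ∏ i, Real.exp (t / 8 * (Y i (ω i) - mn (X i) (Y i))))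
    (fun ω _ => by positivity) (Real.exp_pos (t / 8 * (t * M)))
  refine le_trans (pb_mono fun ω _ hω => ?_) (h3.trans ?_)
  · rw [← Real.exp_sum, Real.exp_le_exp, ← mul_sum, sum_sub_distrib]
    refine mul_le_mul_of_nonneg_left ?_ (by positivity)
    have : ∑ i, mn (X i) (Y i) ≤ M * e := by
      simpa using sum_le_card_nsmul univ _ e fun i _ => h2 i
    linarith
  · rw [xec_prod X fun i a => Real.exp (t / 8 * (Y i a - mn (X i) (Y i))),
      div_le_iff₀ (Real.exp_pos _), ← Real.exp_add]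
    refine (prod_le_prod (g := fun _ => Real.exp (4 * (t / 8) ^ 2))
      (fun i _ => div_nonneg (sum_nonneg fun _ _ => (Real.exp_pos _).le) (Nat.cast_nonneg _))
      (fun i _ => xec_exp (hX i) (h1 i) (by positivity) (by linarith))).trans (le_of_eq ?_)
    rw [prod_const, card_univ, Fintype.card_fin, ← Real.exp_nat_mul]
    congr 1
    ring

theorem hoeffding {M : ℕ} (X : Fin M → Finset α) (hX : ∀ i, (X i).Nonempty) (Y : Fin M → α → ℝ)
    (h1 : ∀ i, ∀ a ∈ X i, |Y i a| ≤ 1) {e t : ℝ} (h2 : ∀ i, |mn (X i) (Y i)| ≤ e) (ht : 0 < t)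
    (ht1 : t ≤ 1) : prb (Fintype.piFinset X) (fun ω => (e + t) * M < |∑ i, Y i (ω i)|) ≤
      2 * Real.exp (-(t ^ 2 * M / 16)) := by
  have a := xec_one X hX Y h1 (fun i => (abs_le.1 (h2 i)).2) ht ht1
  have b := xec_one X hX (fun i a => -1 * Y i a) (fun i a ha => by simpa using h1 i a ha) (e := e)
    (fun i => by rw [mn_mul]; linarith [(abs_le.1 (h2 i)).1]) ht ht1
  refine le_trans (pb_mono fun ω _ hω => ?_) ((pb_or _ _ _).trans ((add_le_add a b).trans
    (two_mul _).ge))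
  rw [← mul_sum, neg_one_mul]
  exact lt_abs.1 hω

theorem few_corr {M : ℕ} (hM : 0 < M) (T : Finset α) (w : Fin M → ℝ) (f : α → Fin M → ℝ)
    {t e : ℝ} (ht : 0 < t) (hw : ∀ i, |w i| ≤ 1) (hf : ∀ a ∈ T, ∀ i, |f a i| ≤ 1)
    (h1 : ∀ a ∈ T, t * M ≤ |∑ i, w i * f a i|)
    (h2 : ∀ a ∈ T, ∀ a' ∈ T, a ≠ a' → |∑ i, f a i * f a' i| ≤ e * M) (he : 2 * e ≤ t ^ 2) :
    (#T : ℝ) ≤ 2 / t ^ 2 := by
  have hM0 : (0 : ℝ) < M := by exact_mod_cast hM
  have hs : ∀ x : ℝ, ∃ s : ℝ, |s| ≤ 1 ∧ s * x = |x| := fun x => by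
    rcases le_total 0 x with h | h
    · exact ⟨1, by simp, by rw [one_mul, abs_of_nonneg h]⟩
    · exact ⟨-1, by simp, by rw [neg_one_mul, abs_of_nonpos h]⟩
  choose s hs1 hs2 using fun a => hs (∑ i, w i * f a i)
  have a1 : #T * (t * M) ≤ ∑ i, w i * ∑ a ∈ T, s a * f a i := by
    have e1 : ∑ i, w i * ∑ a ∈ T, s a * f a i = ∑ a ∈ T, s a * ∑ i, w i * f a i := by
      simp only [mul_sum]
      rw [sum_comm]
      exact sum_congr rfl fun a _ => sum_congr rfl fun i _ => by ring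
    rw [e1, ← nsmul_eq_mul]
    exact card_nsmul_le_sum _ _ _ fun a ha => (h1 a ha).trans (hs2 a).ge
  have a2 : ∑ i, w i ^ 2 ≤ M := by
    simpa using sum_le_card_nsmul univ (fun i => w i ^ 2) 1
      fun i _ => (sq_le_one_iff_abs_le_one _).2 (hw i)
  have a3 : ∑ i, (∑ a ∈ T, s a * f a i) ^ 2 ≤ #T * (M + #T * (t ^ 2 / 2 * M)) := by
    have e1 : ∑ i, (∑ a ∈ T, s a * f a i) ^ 2
        = ∑ a ∈ T, ∑ a' ∈ T, s a * s a' * ∑ i, f a i * f a' i := by
      simp only [sq, sum_mul_sum]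
      simp only [mul_sum]
      rw [sum_comm]
      refine sum_congr rfl fun a _ => ?_
      rw [sum_comm]
      exact sum_congr rfl fun a' _ => sum_congr rfl fun i _ => by ring
    rw [e1, ← nsmul_eq_mul]
    refine sum_le_card_nsmul _ _ _ fun a ha => ?_
    have b1 : ∀ a' ∈ T, s a * s a' * ∑ i, f a i * f a' i
        ≤ (if a = a' then (M : ℝ) else 0) + t ^ 2 / 2 * M := fun a' ha' => by
      have c1 : s a * s a' * ∑ i, f a i * f a' i ≤ |∑ i, f a i * f a' i| := by
        refine (le_abs_self _).trans ?_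
        rw [abs_mul, abs_mul]
        exact mul_le_of_le_one_left (abs_nonneg _) (mul_le_one₀ (hs1 a) (abs_nonneg _) (hs1 a'))
      refine c1.trans ?_
      split_ifs with h
      · have c2 : |∑ i, f a i * f a' i| ≤ M := by
          refine (abs_sum_le_sum_abs _ _).trans ?_
          simpa using sum_le_card_nsmul univ (fun i => |f a i * f a' i|) 1 fun i _ => by
            rw [abs_mul]
            exact mul_le_one₀ (hf a ha i) (abs_nonneg _) (hf a' ha' i)
        have : 0 ≤ t ^ 2 / 2 * M := by positivity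
        linarith
      · rw [zero_add]
        exact (h2 a ha a' ha' h).trans (mul_le_mul_of_nonneg_right (by linarith) hM0.le)
    refine (sum_le_sum b1).trans (le_of_eq ?_)
    rw [sum_add_distrib, sum_ite_eq, if_pos ha, sum_const, nsmul_eq_mul]
  have a4 : (#T * (t * M)) ^ 2 ≤ M * (#T * (M + #T * (t ^ 2 / 2 * M))) :=
    (pow_le_pow_left₀ (by positivity) a1 2).trans ((sum_mul_sq_le_sq_mul_sq _ _ _).trans
      (mul_le_mul a2 a3 (by positivity) hM0.le))
  rcases (Nat.cast_nonneg (α := ℝ) #T).eq_or_lt with h0 | h0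
  · rw [← h0]
    positivity
  · rw [le_div_iff₀ (by positivity)]
    refine le_of_mul_le_mul_left ?_ (show (0 : ℝ) < #T * M ^ 2 by positivity)
    nlinarith

theorem xec_eq {u r : ℕ} (hu : 0 < u) {i j : Fin r} (h : i ≠ j) :
    prb (univ : Finset (Fin r → Fin u)) (fun f => f i = f j) ≤ 1 / u := by
  have hu0 : (0 : ℝ) < u := by exact_mod_cast hu
  rw [xec_pb, sum_boole]
  refine div_le_of_le_mul₀ (Nat.cast_nonneg _) (by positivity) ?_
  rw [one_div, ← div_eq_inv_mul, le_div_iff₀ hu0]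
  have := card_le_card_of_injOn (s := ({f ∈ (univ : Finset (Fin r → Fin u)) | f i = f j}) ×ˢ
    (univ : Finset (Fin u))) (t := (univ : Finset (Fin r → Fin u)))
    (fun z => Function.update z.1 i z.2) (fun _ _ => mem_coe.2 (mem_univ _)) (by
      rintro ⟨f, c⟩ hf ⟨f', c'⟩ hf' e
      have hf1 : f i = f j := (mem_filter.1 (mem_product.1 (mem_coe.1 hf)).1).2
      have hf2 : f' i = f' j := (mem_filter.1 (mem_product.1 (mem_coe.1 hf')).1).2
      have e1 : ∀ l, l ≠ i → f l = f' l := fun l hl => by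
        simpa [Function.update_of_ne hl] using congrFun e l
      refine Prod.ext (funext fun l => ?_) (by simpa using congrFun e i)
      by_cases hl : l = i
      · change f l = f' l
        rw [hl, hf1, hf2, e1 j h.symm]
      · exact e1 l hl)
  rw [card_product, card_univ (α := Fin u), Fintype.card_fin] at this
  exact_mod_cast this

theorem xec_bad {u r : ℕ} (hu : 0 < u) :
    prb (univ : Finset (Fin r → Fin u)) (fun f => ¬ Function.Injective f) ≤ (r : ℝ) ^ 2 / u := by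
  have a := pb_exists (univ : Finset (Fin r → Fin u)) (univ : Finset (Fin r)).offDiag
    fun (z : Fin r × Fin r) (f : Fin r → Fin u) => f z.1 = f z.2
  refine le_trans (pb_mono fun f _ hf => ?_) (le_trans a ?_)
  · obtain ⟨i, j, h1, h2⟩ := Function.not_injective_iff.1 hf
    exact ⟨(i, j), mem_offDiag.2 ⟨mem_univ _, mem_univ _, h2⟩, h1⟩
  · refine (sum_le_card_nsmul _ _ (1 / u : ℝ) fun z hz => xec_eq hu (mem_offDiag.1 hz).2.2).trans ?_
    rw [nsmul_eq_mul, mul_one_div]
    refine div_le_div_of_nonneg_right ?_ (by positivity)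
    have := card_le_univ (univ : Finset (Fin r)).offDiag
    rw [Fintype.card_prod, Fintype.card_fin, ← sq] at this
    exact_mod_cast this

theorem xec_set {L u r : ℕ} (hu : 0 < u) (S : Finset (Fin L)) :
    prb (univ : Finset (Fin r → Fin L → Fin u))
      (fun t => ∀ g ∈ S, ¬ Function.Injective fun i => t i g) ≤ ((r : ℝ) ^ 2 / u) ^ #S := by
  have e1 := xec_prod (fun _ : Fin L => (univ : Finset (Fin r → Fin u)))
    fun g f => if g ∈ S then (if ¬ Function.Injective f then (1 : ℝ) else 0) else 1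
  rw [Fintype.piFinset_univ] at e1
  have e2 : prb (univ : Finset (Fin r → Fin L → Fin u))
      (fun t => ∀ g ∈ S, ¬ Function.Injective fun i => t i g)
      = mn (univ : Finset (Fin L → Fin r → Fin u)) fun ω => ∏ g,
        if g ∈ S then (if ¬ Function.Injective (ω g) then (1 : ℝ) else 0) else 1 := by
    rw [xec_pb, mn, card_univ, card_univ,
      Fintype.card_congr (Equiv.piComm fun (_ : Fin r) (_ : Fin L) => Fin u),
      ← Equiv.sum_comp (Equiv.piComm fun (_ : Fin r) (_ : Fin L) => Fin u)]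
    congr 1
    refine sum_congr rfl fun t _ => ?_
    rw [prod_ite_mem, univ_inter, prod_boole]
    by_cases h : ∀ g ∈ S, ¬ Function.Injective fun i => t i g
    · rw [if_pos h]
      exact (if_pos h).symm
    · rw [if_neg h]
      exact (if_neg h).symm
  have hne : (univ : Finset (Fin r → Fin u)).Nonempty := ⟨fun _ => ⟨0, hu⟩, mem_univ _⟩
  rw [e2, e1, ← prod_const, ← univ_inter S, ← prod_ite_mem]
  simp only [univ_inter]
  refine prod_le_prod (fun g _ => div_nonneg (sum_nonneg fun _ _ => ?_) (Nat.cast_nonneg _))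
    fun g _ => ?_
  · split_ifs <;> norm_num
  · by_cases hg : g ∈ S
    · simp only [hg, if_true]
      refine le_trans (le_of_eq ?_) (xec_bad hu)
      rw [xec_pb, mn]
    · simp only [hg, if_false]
      exact (mn_const hne 1).le

theorem overlap {L u r : ℕ} (hu : 0 < u) (hr : r ^ 2 ≤ u) :
    prb (univ : Finset (Fin r → Fin L → Fin u))
      (fun t => L ≤ 2 * #{g : Fin L | ¬ Function.Injective fun i => t i g}) ≤
      2 ^ L * ((r : ℝ) ^ 2 / u) ^ ((L : ℝ) / 2) := by
  have hu0 : (0 : ℝ) < u := by exact_mod_cast hu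
  have h1 : (r : ℝ) ^ 2 / u ≤ 1 := by
    rw [div_le_one hu0]
    exact_mod_cast hr
  have a := pb_exists (univ : Finset (Fin r → Fin L → Fin u))
    {S ∈ (univ : Finset (Finset (Fin L))) | L ≤ 2 * #S}
    fun (S : Finset (Fin L)) (t : Fin r → Fin L → Fin u) =>
      ∀ g ∈ S, ¬ Function.Injective fun i => t i g
  refine le_trans (pb_mono fun t _ ht => ?_) (le_trans a ?_)
  · exact ⟨_, mem_filter.2 ⟨mem_univ _, ht⟩, fun g hg => (mem_filter.1 hg).2⟩
  · refine (sum_le_card_nsmul _ _ (((r : ℝ) ^ 2 / u) ^ ((L : ℝ) / 2)) fun S hS => ?_).trans ?_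
    · refine (xec_set hu S).trans ?_
      rw [← Real.rpow_natCast]
      refine Real.rpow_le_rpow_of_exponent_ge' (by positivity) h1 (by positivity) ?_
      have : (L : ℝ) ≤ 2 * #S := by exact_mod_cast (mem_filter.1 hS).2
      linarith
    · rw [nsmul_eq_mul]
      refine mul_le_mul_of_nonneg_right ?_ (by positivity)
      have := card_le_univ {S ∈ (univ : Finset (Finset (Fin L))) | L ≤ 2 * #S}
      rw [Fintype.card_finset, Fintype.card_fin] at this
      exact_mod_cast this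

end Pool.Agent.EQ
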