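import Pool.Agent.P.MP_ad7a55_nt.XLa

/-! Lines modulo an integer. -/

set_option autoImplicit false

noncomputable section

open Finset Matrix
open scoped MatrixGroups Classical

namespace Pool.Agent.EQ

/-- The line spanned by `v` modulo `n`. -/
def Ln (n : ℕ) (v : V2) : Set V2 := {w | (n : ℤ) ∣ dt v w}

/-- `L` is a line modulo `n`. -/
def IsLn (n : ℕ) (L : Set V2) : Prop := ∃ v : V2, IsCoprime (v 0) (v 1) ∧ L = Ln n v

/-- unimodular modulo `n` -/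
def xlb_Pm (n : ℕ) (v : V2) : Prop := ∃ a b c : ℤ, a * v 0 + b * v 1 + c * n = 1

theorem xlb_mem {n : ℕ} {v w : V2} : w ∈ Ln n v ↔ (n : ℤ) ∣ v 0 * w 1 - v 1 * w 0 := Iff.rfl

theorem xlb_ker {n : ℕ} {η : M2} {w : V2} : w ∈ Ker n η ↔
    (n : ℤ) ∣ η 0 0 * w 0 + η 0 1 * w 1 ∧ (n : ℤ) ∣ η 1 0 * w 0 + η 1 1 * w 1 := by
  simp [Ker, Fin.forall_fin_two, Matrix.mulVec, dotProduct, Fin.sum_univ_two]

theorem xlb_congr {n : ℕ} {v v' : V2} (h : ∀ i, (n : ℤ) ∣ v i - v' i) : Ln n v = Ln n v' := by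
  ext w
  rw [xlb_mem, xlb_mem]
  refine dvd_iff_dvd_of_dvd_sub ?_
  have e : v 0 * w 1 - v 1 * w 0 - (v' 0 * w 1 - v' 1 * w 0) =
      (v 0 - v' 0) * w 1 - (v 1 - v' 1) * w 0 := by ring
  rw [e]
  exact dvd_sub ((h 0).mul_right _) ((h 1).mul_right _)

theorem xlb_Pm.congr {n : ℕ} {v v' : V2} (hv : xlb_Pm n v) (h : ∀ i, (n : ℤ) ∣ v i - v' i) :
    xlb_Pm n v' := by
  obtain ⟨a, b, c, e⟩ := hv
  obtain ⟨x, hx⟩ := h 0
  obtain ⟨y, hy⟩ := h 1
  exact ⟨a, b, c + a * x + b * y, by linear_combination e - a * hx - b * hy⟩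

theorem xlb_Pm.sub {n : ℕ} {v v' : V2} (hv : xlb_Pm n v) (h : v' ∈ Ln n v) : Ln n v ⊆ Ln n v' := by
  obtain ⟨a, b, c, e⟩ := hv
  obtain ⟨x, hx⟩ := xlb_mem.1 h
  intro u hu
  obtain ⟨y, hy⟩ := xlb_mem.1 hu
  refine xlb_mem.2 ⟨(a * v' 0 + b * v' 1) * y - (a * u 0 + b * u 1) * x +
    c * (v' 0 * u 1 - v' 1 * u 0), ?_⟩
  linear_combination (a * v' 0 + b * v' 1) * hy - (a * u 0 + b * u 1) * hx -
    (v' 0 * u 1 - v' 1 * u 0) * e

theorem xlb_self (n : ℕ) (v : V2) : v ∈ Ln n v := xlb_mem.2 ⟨0, by ring⟩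

theorem xlb_symm {n : ℕ} {v w : V2} (h : w ∈ Ln n v) : v ∈ Ln n w := by
  obtain ⟨x, hx⟩ := xlb_mem.1 h
  exact xlb_mem.2 ⟨-x, by linear_combination -hx⟩

theorem xlb_Pm.eq {n : ℕ} {v v' : V2} (hv : xlb_Pm n v) (hv' : xlb_Pm n v') (h : v' ∈ Ln n v) :
    Ln n v = Ln n v' := (hv.sub h).antisymm (hv'.sub (xlb_symm h))

theorem xlb_of_cop (n : ℕ) {v : V2} (h : IsCoprime (v 0) (v 1)) : xlb_Pm n v := by
  obtain ⟨a, b, e⟩ := h
  exact ⟨a, b, 0, by linear_combination e⟩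

theorem xlb_Pm.isLn {n : ℕ} {v : V2} (hv : xlb_Pm n v) (hn : 0 < n) : IsLn n (Ln n v) := by
  obtain ⟨a, b, c, e⟩ := hv
  obtain ⟨γ, hγ⟩ := exists_lift_SL hn (W := !![v 0, -b; v 1, a])
    ⟨-c, by rw [Matrix.det_fin_two_of]; linear_combination e⟩
  have hd := γ.det_coe
  rw [Matrix.det_fin_two] at hd
  refine ⟨fun i => γ i 0, ⟨γ 1 1, -γ 0 1, by linear_combination hd⟩, (xlb_congr fun i => ?_).symm⟩
  fin_cases i
  · simpa using hγ 0 0
  · simpa using hγ 1 0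

theorem xlb_of_primes {n : ℕ} {v : V2} (h : ∀ l : ℕ, l.Prime → l ∣ n → ∃ i, ¬ (l : ℤ) ∣ v i) :
    xlb_Pm n v := by
  have h1 : (Int.gcd (v 0) (v 1)).Coprime n := by
    refine Nat.Coprime.symm (Nat.coprime_of_dvd fun l hl hln hg => ?_)
    obtain ⟨i, hi⟩ := h l hl hln
    have h2 : (l : ℤ) ∣ (Int.gcd (v 0) (v 1) : ℤ) := Int.natCast_dvd_natCast.2 hg
    refine hi ?_
    fin_cases i
    · exact h2.trans (Int.gcd_dvd_left _ _)
    · exact h2.trans (Int.gcd_dvd_right _ _)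
  obtain ⟨s, t, e⟩ := Nat.isCoprime_iff_coprime.2 h1
  rw [Int.gcd_eq_gcd_ab] at e
  exact ⟨s * Int.gcdA (v 0) (v 1), s * Int.gcdB (v 0) (v 1), t, by linear_combination e⟩

theorem xlb_solve {n : ℕ} (hn : 0 < n) {a : ℤ} (h : IsCoprime a n) (b : ℤ) :
    ∃ t : ℕ, t < n ∧ (n : ℤ) ∣ a * t - b := by
  obtain ⟨s, c, e⟩ := h
  have hn' : (0 : ℤ) < n := by exact_mod_cast hn
  have h0 := Int.emod_nonneg (s * b) hn'.ne'
  have h1 := Int.emod_lt_of_pos (s * b) hn'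
  have h2 := Int.emod_add_mul_ediv (s * b) n
  refine ⟨(s * b % n).toNat, by omega, -(a * (s * b / n)) - c * b, ?_⟩
  rw [Int.toNat_of_nonneg h0]
  linear_combination a * h2 + b * e

theorem finite_IsLn {n : ℕ} (hn : 0 < n) : {L | IsLn n L}.Finite := by
  refine ((Set.Finite.pi' fun _ : Fin 2 => Set.finite_Ico (0 : ℤ) n).image (Ln n)).subset ?_
  rintro L ⟨v, -, rfl⟩
  have hn' : (0 : ℤ) < n := by exact_mod_cast hn
  refine ⟨fun i => v i % n, fun i => ⟨Int.emod_nonneg _ hn'.ne', Int.emod_lt_of_pos _ hn'⟩,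
    xlb_congr fun i => ⟨-(v i / n), ?_⟩⟩
  have := Int.emod_add_mul_ediv (v i) n
  linarith

/-- The finite set of the lines modulo `n`. -/
def Xn (n : ℕ) : Finset (Set V2) := if h : 0 < n then (finite_IsLn h).toFinset else ∅

variable {n : ℕ} {η A : M2} {L : Set V2}

theorem mem_Xn (hn : 0 < n) : L ∈ Xn n ↔ IsLn n L := by
  rw [Xn, dif_pos hn, Set.Finite.mem_toFinset]
  rfl

theorem card_Xn {l : ℕ} (hl : l.Prime) {k : ℕ} (hk : 0 < k) :
    l ^ k ≤ #(Xn (l ^ k)) ∧ #(Xn (l ^ k)) * l ≤ l ^ k * (l + 1) := by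
  have hn : 0 < l ^ k := pow_pos hl.pos k
  have hp : Prime (l : ℤ) := Nat.prime_iff_prime_int.1 hl
  constructor
  · rw [← card_range (l ^ k)]
    conv_rhs => rw [card_range]
    refine card_le_card_of_injOn (fun t : ℕ => Ln (l ^ k) ![1, (t : ℤ)]) (fun t _ => ?_)
      fun t ht t' ht' e => ?_
    · exact mem_coe.2 ((mem_Xn hn).2 ⟨_, by simpa using isCoprime_one_left, rfl⟩)
    · have h1 : (![1, (t' : ℤ)] : V2) ∈ Ln (l ^ k) ![1, (t : ℤ)] := by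
        have e' : Ln (l ^ k) ![1, (t : ℤ)] = Ln (l ^ k) ![1, (t' : ℤ)] := e
        rw [e']
        exact xlb_self _ _
      have h2 : ((l ^ k : ℕ) : ℤ) ∣ (t' : ℤ) - t := by simpa using xlb_mem.1 h1
      have h3 : t < l ^ k := by simpa using ht
      have h4 : t' < l ^ k := by simpa using ht'
      have := Int.eq_zero_of_abs_lt_dvd h2 (abs_lt.2 ⟨by omega, by omega⟩)
      omega
  · obtain ⟨j, rfl⟩ := Nat.exists_eq_succ_of_ne_zero hk.ne'
    have hs : Xn (l ^ (j + 1)) ⊆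
        (range (l ^ (j + 1))).image (fun t : ℕ => Ln (l ^ (j + 1)) ![1, (t : ℤ)]) ∪
        (range (l ^ j)).image fun t : ℕ => Ln (l ^ (j + 1)) ![l * (t : ℤ), 1] := by
      intro L hL
      obtain ⟨v, hv, rfl⟩ := (mem_Xn hn).1 hL
      by_cases h0 : (l : ℤ) ∣ v 0
      · have h1 : ¬ (l : ℤ) ∣ v 1 := fun h1 => hp.not_isUnit (hv.isUnit_of_dvd' h0 h1)
        obtain ⟨m, hm⟩ := h0
        obtain ⟨t, ht, x, hx⟩ := xlb_solve (pow_pos hl.pos j) (a := v 1) (by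
          push_cast
          exact ((hp.irreducible.coprime_iff_not_dvd).2 h1).symm.pow_right) m
        refine mem_union_right _ (mem_image.2 ⟨t, mem_range.2 ht, ((xlb_of_cop _ hv).eq
          (xlb_of_cop _ (by simpa using isCoprime_one_right)) (xlb_mem.2 ⟨-x, ?_⟩)).symm⟩)
        simp only [Matrix.cons_val_zero, Matrix.cons_val_one]
        push_cast at hx ⊢
        linear_combination hm - l * hx
      · obtain ⟨t, ht, x, hx⟩ := xlb_solve hn (a := v 0) (by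
          push_cast
          exact ((hp.irreducible.coprime_iff_not_dvd).2 h0).symm.pow_right) (v 1)
        refine mem_union_left _ (mem_image.2 ⟨t, mem_range.2 ht, ((xlb_of_cop _ hv).eq
          (xlb_of_cop _ (by simpa using isCoprime_one_left)) (xlb_mem.2 ⟨x, ?_⟩)).symm⟩)
        simp only [Matrix.cons_val_zero, Matrix.cons_val_one]
        linear_combination hx
    have h1 := (card_le_card hs).trans ((card_union_le _ _).trans
      (add_le_add card_image_le card_image_le))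
    rw [card_range, card_range] at h1
    refine (Nat.mul_le_mul_right l h1).trans (le_of_eq ?_)
    rw [Nat.succ_eq_add_one]
    ring

theorem card_Xn_prime {l : ℕ} (hl : l.Prime) : #(Xn l) ≤ l + 1 := by
  have h := (card_Xn hl one_pos).2
  rw [pow_one, mul_comm l] at h
  exact Nat.le_of_mul_le_mul_right h hl.pos

theorem isLn_of_cop {v : V2} (h : ∀ l : ℕ, l.Prime → l ∣ n → ∃ i, ¬ (l : ℤ) ∣ v i) (hn : 0 < n) :
    IsLn n (Ln n v) := by
  exact (xlb_of_primes h).isLn hn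

theorem IsLn.eq_of_le {L' : Set V2} (h : IsLn n L) (h' : IsLn n L') (hle : L ⊆ L') : L = L' := by
  obtain ⟨v, -, rfl⟩ := h
  obtain ⟨v', hv', rfl⟩ := h'
  exact hle.antisymm ((xlb_of_cop n hv').sub (hle (xlb_self n v)))

theorem xlb_mat (h : IsLn n L) : ∃ η : M2, η.det = n ∧ Ker n η = L := by
  obtain ⟨v, ⟨a, b, e⟩, rfl⟩ := h
  refine ⟨!![v 1, -v 0; n * a, n * b], by rw [Matrix.det_fin_two_of]; linear_combination n * e, ?_⟩
  ext w
  rw [xlb_ker, xlb_mem]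
  simp only [Matrix.of_apply, Matrix.cons_val', Matrix.cons_val_zero, Matrix.cons_val_one,
    Matrix.cons_val_fin_one]
  constructor
  · rintro ⟨⟨x, hx⟩, -⟩
    exact ⟨-x, by linear_combination -hx⟩
  · rintro ⟨x, hx⟩
    exact ⟨⟨-x, by linear_combination -hx⟩, a * w 0 + b * w 1, by ring⟩

theorem IsLn.eq_Ker (h : IsLn n L) (hn : 0 < n) (hd : η.det = n) (hk : L ⊆ Ker n η) :
    Ker n η = L := by
  obtain ⟨η₀, h1, h2⟩ := xlb_mat h
  obtain ⟨γ, rfl⟩ := exists_SL_of_Ker hn h1 hd (h2 ▸ hk)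
  rw [Ker_SL, h2]

theorem IsLn.exists_mat (h : IsLn n L) (hn : 0 < n) : ∃ η : M2, η.det = n ∧ Ker n η = L := by
  exact xlb_mat h

theorem IsLn.exists_Cg (h : IsLn n L) (hn : 0 < n) {M : ℕ} (hM : 0 < M) {s : ℤ}
    (hs : IsCoprime s M) (hsn : (M : ℤ) ∣ n - s ^ 2) :
    ∃ η : M2, η.det = n ∧ Ker n η = L ∧ Cg M η s := by
  obtain ⟨η, h1, h2⟩ := xlb_mat h
  obtain ⟨γ, hγ⟩ := Pool.Agent.EQ.exists_Cg (η := η) hM hs (by rw [h1]; exact hsn)
  exact ⟨γ * η, by rw [Matrix.det_mul, γ.det_coe, one_mul, h1], by rw [Ker_SL, h2], hγ⟩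

theorem xlb_comb (hn : 0 < n) {w w' : V2}
    (h : ∀ l : ℕ, l.Prime → l ∣ n → (∃ i, ¬ (l : ℤ) ∣ w i) ∨ ∃ i, ¬ (l : ℤ) ∣ w' i) :
    ∃ y : ℤ, xlb_Pm n fun i => w i + y * w' i := by
  refine ⟨∏ l ∈ n.primeFactors.filter fun l : ℕ => ∃ i, ¬ (l : ℤ) ∣ w i, (l : ℤ),
    xlb_of_primes fun l hl hln => ?_⟩
  have hp : Prime (l : ℤ) := Nat.prime_iff_prime_int.1 hl
  by_cases h0 : ∃ i, ¬ (l : ℤ) ∣ w i
  · obtain ⟨i, hi⟩ := id h0
    refine ⟨i, fun hh => hi ((dvd_add_left (Dvd.dvd.mul_right ?_ _)).1 hh)⟩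
    exact dvd_prod_of_mem _ (mem_filter.2 ⟨Nat.mem_primeFactors.2 ⟨hl, hln, hn.ne'⟩, h0⟩)
  · obtain ⟨i, hi⟩ := (h l hl hln).resolve_left h0
    refine ⟨i, fun hh => ?_⟩
    have h1 : (l : ℤ) ∣ w i := by
      by_contra h2
      exact h0 ⟨i, h2⟩
    rcases hp.dvd_or_dvd ((dvd_add_right h1).1 hh) with h2 | h2
    · obtain ⟨l', hl', h3⟩ := (hp.dvd_finsetProd_iff _).1 h2
      obtain ⟨h4, h5⟩ := mem_filter.1 hl'
      obtain rfl := (Nat.prime_dvd_prime_iff_eq hl (Nat.prime_of_mem_primeFactors h4)).1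
        (Int.natCast_dvd_natCast.1 h3)
      exact h0 h5
    · exact hi h2

theorem xlb_isLn_Ker (hn : 0 < n) (hd : (n : ℤ) ∣ A.det)
    (h : ∀ l : ℕ, l.Prime → l ∣ n → ∃ i j, ¬ (l : ℤ) ∣ A i j) : IsLn n (Ker n A) := by
  obtain ⟨y, hy⟩ := xlb_comb hn (w := ![A 0 1, -A 0 0]) (w' := ![A 1 1, -A 1 0]) fun l hl hln => by
    obtain ⟨i, j, hij⟩ := h l hl hln
    fin_cases i <;> fin_cases j
    · exact Or.inl ⟨1, by simpa using hij⟩
    · exact Or.inl ⟨0, by simpa using hij⟩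
    · exact Or.inr ⟨1, by simpa using hij⟩
    · exact Or.inr ⟨0, by simpa using hij⟩
  rw [Matrix.det_fin_two] at hd
  obtain ⟨x, hx⟩ := hd
  have e : Ker n A = Ln n fun i => (![A 0 1, -A 0 0] : V2) i + y * (![A 1 1, -A 1 0] : V2) i := by
    ext u
    rw [xlb_ker]
    constructor
    · rintro ⟨⟨p, hp⟩, q, hq⟩
      refine xlb_mem.2 ⟨p + y * q, ?_⟩
      simp only [Matrix.cons_val_zero, Matrix.cons_val_one]
      linear_combination hp + y * hq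
    · intro hu
      obtain ⟨p, hp⟩ := xlb_mem.1 (hy.sub (v' := ![A 0 1, -A 0 0]) (xlb_mem.2 ⟨-(y * x), by
        simp only [Matrix.cons_val_zero, Matrix.cons_val_one]
        linear_combination -y * hx⟩) hu)
      obtain ⟨q, hq⟩ := xlb_mem.1 (hy.sub (v' := ![A 1 1, -A 1 0]) (xlb_mem.2 ⟨x, by
        simp only [Matrix.cons_val_zero, Matrix.cons_val_one]
        linear_combination hx⟩) hu)
      simp only [Matrix.cons_val_zero, Matrix.cons_val_one] at hp hq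
      exact ⟨⟨p, by linear_combination hp⟩, q, by linear_combination hq⟩
  rw [e]
  exact hy.isLn hn

theorem isLn_Ker (hn : 0 < n) (hd : (n : ℤ) ∣ A.det) (ht : IsCoprime A.trace n) :
    IsLn n (Ker n A) := by
  refine xlb_isLn_Ker hn hd fun l hl hln => ?_
  by_contra hh
  push Not at hh
  refine (Nat.prime_iff_prime_int.1 hl).not_isUnit
    (ht.isUnit_of_dvd' ?_ (Int.natCast_dvd_natCast.2 hln))
  rw [Matrix.trace_fin_two]
  exact dvd_add (hh 0 0) (hh 1 1)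

theorem isLn_Ker_prime {l : ℕ} (hl : l.Prime) (hd : (l : ℤ) ∣ A.det)
    (h : ¬ (l : ℤ) ^ 2 ∣ A.det) : IsLn l (Ker l A) := by
  refine xlb_isLn_Ker hl.pos hd fun l' hl' hll => ?_
  obtain rfl := (Nat.prime_dvd_prime_iff_eq hl' hl).1 hll
  by_contra hh
  push Not at hh
  refine h ?_
  rw [Matrix.det_fin_two, sq]
  exact dvd_sub (mul_dvd_mul (hh 0 0) (hh 1 1)) (mul_dvd_mul (hh 0 1) (hh 1 0))

theorem xlb_mv (η : M2) (u : V2) (i : Fin 2) : (η *ᵥ u) i = η i 0 * u 0 + η i 1 * u 1 := by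
  simp [Matrix.mulVec, dotProduct, Fin.sum_univ_two]

theorem IsLn.pull (h : IsLn n L) (hn : 0 < n) (hc : IsCoprime η.det n) :
    IsLn n {v | η *ᵥ v ∈ L} := by
  obtain ⟨v, ⟨a, b, e⟩, rfl⟩ := h
  obtain ⟨s, t, e'⟩ := hc
  rw [Matrix.det_fin_two] at e'
  have h1 : {u | η *ᵥ u ∈ Ln n v} =
      Ln n ![η 1 1 * v 0 - η 0 1 * v 1, η 0 0 * v 1 - η 1 0 * v 0] := by
    ext u
    show η *ᵥ u ∈ Ln n v ↔ _
    rw [xlb_mem, xlb_mem, xlb_mv, xlb_mv]
    simp only [Matrix.cons_val_zero, Matrix.cons_val_one]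
    refine iff_of_eq (congrArg _ ?_)
    ring
  rw [h1]
  refine xlb_Pm.isLn ⟨s * (a * η 0 0 + b * η 1 0), s * (a * η 0 1 + b * η 1 1), t, ?_⟩ hn
  simp only [Matrix.cons_val_zero, Matrix.cons_val_one]
  linear_combination e' + s * (η 0 0 * η 1 1 - η 0 1 * η 1 0) * e

theorem sum_Xn_pull (hn : 0 < n) (hc : IsCoprime η.det n) (G : Set V2 → ℝ) :
    ∑ L ∈ Xn n, G {v | η *ᵥ v ∈ L} = ∑ L ∈ Xn n, G L := by
  have hi : Set.InjOn (fun L : Set V2 => {v | η *ᵥ v ∈ L}) (Xn n) := by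
    intro L hL L' hL' e
    have hL1 := (mem_Xn hn).1 (mem_coe.1 hL)
    have hL2 := (mem_Xn hn).1 (mem_coe.1 hL')
    refine hL1.eq_of_le hL2 fun u hu => ?_
    obtain ⟨v, -, rfl⟩ := hL1
    obtain ⟨v', -, rfl⟩ := hL2
    have key : ∀ w : V2, η *ᵥ ![η 1 1 * u 0 - η 0 1 * u 1, η 0 0 * u 1 - η 1 0 * u 0] ∈ Ln n w ↔
        u ∈ Ln n w := fun w => by
      have h1 : (n : ℤ) ∣ η.det * (w 0 * u 1 - w 1 * u 0) ↔ (n : ℤ) ∣ w 0 * u 1 - w 1 * u 0 :=
        ⟨hc.symm.dvd_of_dvd_mul_left, fun h => h.mul_left _⟩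
      rw [xlb_mem, xlb_mem, xlb_mv, xlb_mv, ← h1, Matrix.det_fin_two]
      simp only [Matrix.cons_val_zero, Matrix.cons_val_one]
      refine iff_of_eq (congrArg _ ?_)
      ring
    exact (key v').1 ((Set.ext_iff.1 e _).1 ((key v).2 hu))
  have he : (Xn n).image (fun L : Set V2 => {v | η *ᵥ v ∈ L}) = Xn n := by
    refine eq_of_subset_of_card_le (fun L hL => ?_) (card_image_of_injOn hi).ge
    obtain ⟨L', hL', rfl⟩ := mem_image.1 hL
    exact (mem_Xn hn).2 (((mem_Xn hn).1 hL').pull hn hc)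
  conv_rhs => rw [← he, sum_image hi]

theorem IsLn.inter {a b : ℕ} (hab : a.Coprime b) (ha : 0 < a) (hb : 0 < b) {L' : Set V2}
    (h : IsLn a L) (h' : IsLn b L') : IsLn (a * b) (L ∩ L') := by
  obtain ⟨v, hv, rfl⟩ := h
  obtain ⟨v', hv', rfl⟩ := h'
  have hc : IsCoprime (a : ℤ) b := Nat.isCoprime_iff_coprime.2 hab
  obtain ⟨s, t, e⟩ := id hc
  let w : V2 := fun i => t * b * v i + s * a * v' i
  have h1 : ∀ i, (a : ℤ) ∣ v i - w i := fun i =>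
    ⟨s * (v i - v' i), by simp only [w]; linear_combination -(v i) * e⟩
  have h2 : ∀ i, (b : ℤ) ∣ v' i - w i := fun i =>
    ⟨t * (v' i - v i), by simp only [w]; linear_combination -(v' i) * e⟩
  have h3 : Ln a w ∩ Ln b w = Ln (a * b) w := by
    ext u
    rw [Set.mem_inter_iff, xlb_mem, xlb_mem, xlb_mem, Nat.cast_mul]
    exact ⟨fun h => hc.mul_dvd h.1 h.2,
      fun h => ⟨(dvd_mul_right _ _).trans h, (dvd_mul_left _ _).trans h⟩⟩
  rw [xlb_congr h1, xlb_congr h2, h3]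
  obtain ⟨p, q, r, e1⟩ := (xlb_of_cop a hv).congr h1
  obtain ⟨p', q', r', e2⟩ := (xlb_of_cop b hv').congr h2
  refine xlb_Pm.isLn ⟨p + r * a * p', q + r * a * q', r * r', ?_⟩ (Nat.mul_pos ha hb)
  push_cast
  linear_combination e1 + r * a * e2

theorem IsLn.prim (h : IsLn n (Ker n η)) (hn : 0 < n) {l : ℕ} (hl : l.Prime) (hln : l ∣ n) :
    ∃ i j, ¬ (l : ℤ) ∣ η i j := by
  obtain ⟨v, ⟨a, b, e⟩, hv⟩ := h
  obtain ⟨m, rfl⟩ := hln
  by_contra hh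
  push Not at hh
  have h1 : (![-(m * b), m * a] : V2) ∈ Ker (l * m) η := by
    rw [xlb_ker]
    simp only [Matrix.cons_val_zero, Matrix.cons_val_one, Nat.cast_mul]
    exact ⟨dvd_add (mul_dvd_mul (hh 0 0) (dvd_mul_right _ _).neg_right)
        (mul_dvd_mul (hh 0 1) (dvd_mul_right _ _)),
      dvd_add (mul_dvd_mul (hh 1 0) (dvd_mul_right _ _).neg_right)
        (mul_dvd_mul (hh 1 1) (dvd_mul_right _ _))⟩
  rw [hv, xlb_mem] at h1
  simp only [Matrix.cons_val_zero, Matrix.cons_val_one] at h1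
  have e1 : v 0 * (m * a) - v 1 * -(m * b) = ((1 * m : ℕ) : ℤ) := by
    push_cast
    linear_combination (m : ℤ) * e
  rw [e1, Int.natCast_dvd_natCast] at h1
  exact hl.one_lt.ne' (Nat.dvd_one.1 (Nat.dvd_of_mul_dvd_mul_right (Nat.pos_of_mul_pos_left hn) h1))

theorem Ker_step {n' : ℕ} {η' A' : M2} (hn : 0 < n) (h : η * A = A' * η)
    (hk : Ker n A ⊆ Ker n η) (hk' : Ker n' A' ⊆ Ker n' η') :
    Ker (n * n') A ⊆ Ker (n * n') (η' * η) := by
  intro v hv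
  have hn' : (n : ℤ) ≠ 0 := by exact_mod_cast hn.ne'
  choose u hu using hk (Ker_anti (dvd_mul_right n n') A hv)
  choose z hz using hv
  have e1 : η *ᵥ v = (n : ℤ) • u := funext hu
  have e2 : A *ᵥ v = ((n * n' : ℕ) : ℤ) • z := funext hz
  have e3 : (n : ℤ) • (A' *ᵥ u) = ((n * n' : ℕ) : ℤ) • (η *ᵥ z) := by
    rw [← Matrix.mulVec_smul, ← Matrix.mulVec_smul, ← e1, ← e2, Matrix.mulVec_mulVec,
      Matrix.mulVec_mulVec, h]
  have h1 : u ∈ Ker n' A' := fun i => ⟨(η *ᵥ z) i, mul_left_cancel₀ hn' (by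
    have := congrFun e3 i
    simp only [Pi.smul_apply, smul_eq_mul, Nat.cast_mul] at this
    rw [this, mul_assoc])⟩
  intro i
  rw [← Matrix.mulVec_mulVec, e1, Matrix.mulVec_smul, Nat.cast_mul]
  exact mul_dvd_mul_left _ (hk' h1 i)

end Pool.Agent.EQ
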