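import Pool.Agent.P.MP_ad7a55_nt.XBd
import Pool.Agent.P.MP_ad7a55_nt.XAc
import Pool.Agent.P.MP_ad7a55_nt.XKd
import Pool.Agent.P.MP_ad7a55_nt.XGa
import Pool.Agent.P.MP_ad7a55_nt.TFc

/-! Small matrices rarely relate the directions of two coordinates. -/

set_option autoImplicit false

noncomputable section

open MeasureTheory Topology Filter UpperHalfPlane
open scoped MatrixGroups BoundedContinuousFunction Matrix Classical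

namespace Pool.Agent.EQ

theorem xbe_fac {X : M2} (hX : X.det ≠ 0) :
    ∃ g ∈ Hn X.det.natAbs, ∃ Y : M2, X = g.adjugate * Y := by
  have hn : 0 < X.det.natAbs := Int.natAbs_pos.2 hX
  have key : ∀ T : M2, T * T = 1 → (X * T).det = X.det.natAbs →
      ∃ g ∈ Hn X.det.natAbs, ∃ Y : M2, X = g.adjugate * Y := by
    intro T hT hd
    obtain ⟨γ, g, hg, e⟩ := exists_Hn (η := (X * T).adjugate) hn (by rw [xla_det_adj, hd])
    have e1 := congrArg Matrix.adjugate e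
    rw [Matrix.adjugate_adjugate _ (by simp), Matrix.adjugate_mul_distrib] at e1
    refine ⟨g, hg, (γ : M2).adjugate * T, ?_⟩
    rw [← mul_assoc, ← e1]
    simp [mul_assoc, hT]
  rcases hX.lt_or_gt with h | h
  · refine key !![1, 0; 0, -1] (by simp [← Matrix.one_fin_two]) ?_
    rw [Matrix.det_mul, Matrix.det_fin_two_of, Int.natCast_natAbs, abs_of_neg h]
    ring
  · exact key 1 (mul_one _) (by rw [mul_one, Int.natCast_natAbs, abs_of_pos h])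

theorem xbe_ev (τ : ℍ) (v : V2) : ev τ v ∈ sp 1 τ :=
  mem_sp.2 ⟨v 0, -v 1, by rw [ev]; push_cast; ring⟩

theorem xbe_int {M : Lt} {z : ℂ} (h : z ∈ M) (n : ℤ) : (n : ℂ) * z ∈ M := by
  rw [← zsmul_eq_mul]
  exact M.smul_mem n h

theorem xbe_cop {M : Lt} {u z : ℂ} {q : ℕ} {m : ℤ} (hu : u ∈ M) (hc : IsCoprime (q : ℤ) m)
    (hz : z ∈ M) (h : (m : ℂ) * u = q * z) : u ∈ pr q * M := by
  obtain ⟨a, b, e⟩ := hc
  have e' : (a : ℂ) * q + b * m = 1 := by exact_mod_cast e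
  exact mem_pr_mul.2 ⟨_, M.add_mem (xbe_int hu a) (xbe_int hz b), by
    linear_combination u * e' - b * h⟩

theorem xbe_th {M : Lt} {E : ℤ} {g : ℕ} (h : DiscL M (g ^ 2 * E)) {z : ℂ} (hz : z ∈ M) (k : ℕ)
    (b : ℤ) : ((g * k : ℕ) : ℂ) * (th E - b) * z ∈ M := by
  have h1 := pr_mul_le.1 ((h.end_iff _).2 (th_mem_OD _)) z hz
  rw [th_mul_sq] at h1
  have h2 := M.sub_mem (xbe_int h1 k) (xbe_int hz (g * k * b))
  refine (congrArg (· ∈ M) ?_).mp h2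
  push_cast
  ring

theorem xbe_side {τ : ℍ} {D E b : ℤ} {q : ℕ} (h : HasDisc τ D) (hf : Fit E D) {v : V2}
    (hv : v ∈ Ker q (AA E b τ)) : ∃ w : V2, (th E + b) * ev τ v = q * ev τ w := by
  choose w hw using hv
  refine ⟨w, ?_⟩
  rw [← AA_ev h hf, ev, ev, hw 0, hw 1]
  push_cast
  ring

theorem xbe_norm {τ : ℍ} {U : ℝ} (hU : 1 ≤ U) (h : τ ∈ KU U) :
    ‖(τ : ℂ)‖ ≤ 3 / 2 * U ∧ 5 / 6 ≤ τ.im := by
  have hy := τ.im_pos
  have hy3 := ModularGroup.three_le_four_mul_im_sq_of_mem_fd h.1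
  refine ⟨(Complex.norm_le_abs_re_add_abs_im _).trans ?_, by nlinarith⟩
  have f1 : |τ.re| ≤ 1 / 2 := h.1.2
  have f2 := h.2
  rw [coe_re, coe_im, abs_of_pos hy]
  linarith

theorem xbe_bd {U S : ℝ} (hU : 1 ≤ U) {x y t : ℂ} (hx : ‖x‖ ≤ S) (hy : ‖y‖ ≤ S)
    (ht : ‖t‖ ≤ 3 / 2 * U) : ‖x - y * t‖ ≤ 5 / 2 * U * S := by
  have h0 : 0 ≤ S := (norm_nonneg _).trans hx
  have h1 := mul_le_mul hy ht (norm_nonneg _) h0
  have h2 := norm_sub_le x (y * t)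
  rw [norm_mul] at h2
  nlinarith

theorem xbe_map {τ₁ τ₂ : ℍ} {U Z : ℝ} (hU : 1 ≤ U) (h₁ : τ₁ ∈ KU U) (h₂ : τ₂ ∈ KU U) {X : M2}
    (hZ : ∀ i j, |(X i j : ℝ)| ≤ Z) : ∃ α β : ℂ,
    (∀ v, rl α β (ev τ₁ v) = ev τ₂ (X *ᵥ v)) ∧
      (Complex.normSq α - Complex.normSq β) * τ₁.im = X.det * τ₂.im ∧
      Complex.normSq α * τ₁.im ≤ 100 * U ^ 5 * Z ^ 2 * τ₂.im ∧
      Complex.normSq β * τ₁.im ≤ 100 * U ^ 5 * Z ^ 2 * τ₂.im := by
  obtain ⟨n1, y1⟩ := xbe_norm hU h₁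
  obtain ⟨n2, y2⟩ := xbe_norm hU h₂
  have hZ' : ∀ i j, ‖(X i j : ℂ)‖ ≤ Z := fun i j => by
    rw [Complex.norm_intCast]
    exact hZ i j
  have hZ0 : 0 ≤ Z := (abs_nonneg _).trans (hZ 0 0)
  have p0 := xbe_bd hU (hZ' 0 0) (hZ' 1 0) n2
  have p1 := xbe_bd hU (hZ' 0 1) (hZ' 1 1) n2
  have n0 : Complex.normSq ((τ₁ : ℂ) - starRingEnd ℂ τ₁) = 4 * τ₁.im ^ 2 := by
    simp only [Complex.normSq_apply, Complex.sub_re, Complex.sub_im, Complex.conj_re,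
      Complex.conj_im, coe_re, coe_im]
    ring
  have key : ∀ t : ℂ, ‖t‖ ≤ 5 / 2 * U * (5 / 2 * U * Z) →
      Complex.normSq (t / (τ₁ - starRingEnd ℂ τ₁)) * τ₁.im ≤ 100 * U ^ 5 * Z ^ 2 * τ₂.im := by
    intro t ht
    have a1 := pow_le_pow_left₀ (norm_nonneg _) ht 2
    rw [map_div₀, n0, Complex.normSq_eq_norm_sq, div_mul_eq_mul_div, div_le_iff₀ (by positivity),
      show 100 * U ^ 5 * Z ^ 2 * τ₂.im * (4 * τ₁.im ^ 2) =
        400 * (U * (τ₂.im * τ₁.im)) * (U ^ 4 * Z ^ 2) * τ₁.im by ring]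
    refine mul_le_mul_of_nonneg_right (a1.trans ?_) τ₁.im_pos.le
    have a2 : 5 / 6 * (5 / 6) ≤ τ₂.im * τ₁.im := mul_le_mul y2 y1 (by norm_num) τ₂.im_pos.le
    have a3 : 1 * (5 / 6 * (5 / 6)) ≤ U * (τ₂.im * τ₁.im) :=
      mul_le_mul hU a2 (by norm_num) (by linarith)
    have a4 : 0 ≤ U ^ 4 * Z ^ 2 := by positivity
    nlinarith
  have hd := tda_sub τ₁
  refine ⟨(-((X 0 1 : ℂ) - X 1 1 * τ₂) - ((X 0 0 : ℂ) - X 1 0 * τ₂) * starRingEnd ℂ τ₁) /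
      (τ₁ - starRingEnd ℂ τ₁),
    (((X 0 1 : ℂ) - X 1 1 * τ₂) - -((X 0 0 : ℂ) - X 1 0 * τ₂) * τ₁) / (τ₁ - starRingEnd ℂ τ₁),
    fun v => ?_, ?_, key _ (xbe_bd hU (by rwa [norm_neg]) p0 (by rwa [Complex.norm_conj])),
    key _ (xbe_bd hU p1 (by rwa [norm_neg]) n1)⟩
  · rw [tga_ev_mul]
    simp only [rl, ev, map_sub, map_mul, map_intCast]
    field_simp
    ring
  · have hy := τ₁.im_pos.ne'
    rw [map_div₀, map_div₀, n0, Matrix.det_fin_two]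
    simp only [Complex.normSq_apply, Complex.sub_re, Complex.sub_im, Complex.conj_re,
      Complex.conj_im, coe_re, coe_im, Complex.neg_re, Complex.neg_im, Complex.mul_re,
      Complex.mul_im, Complex.intCast_re, Complex.intCast_im]
    push_cast
    field_simp
    ring

theorem xs_of_mat {τ₁ τ₂ : ℍ} {U Z : ℝ} (hU : 1 ≤ U) (h₁ : τ₁ ∈ KU U) (h₂ : τ₂ ∈ KU U) {X : M2}
    (hX : X.det ≠ 0) (hZ : ∀ i j, |(X i j : ℝ)| ≤ Z) : ∃ g ∈ Hn X.det.natAbs,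
    ∀ (E E' D₂ b b₀ : ℤ) (f g₁ g₂ q : ℕ), IsD E' → g₁.Coprime g₂ → HasDisc τ₁ (g₁ ^ 2 * E') →
      HasDisc τ₂ D₂ → HasDisc (act g τ₂) (g₂ ^ 2 * E') → E = f ^ 2 * (g₁ ^ 2 * E') → Fit E D₂ →
      0 < f → 0 < q → IsCoprime (q : ℤ) (2 * E * X.det) → (q : ℤ) ∣ b ^ 2 - E → 2 ∣ b₀ - E' →
      (q : ℤ) ∣ f * g₁ * b₀ + b →
      (∀ v ∈ Ker q (AA E b τ₁), X *ᵥ v ∈ Ker q (AA E b τ₂)) →
      (jInv τ₁, jInv (act g τ₂)) ∈ XS X.det.sign (100 * U ^ 5 * Z ^ 2) q b₀ E' g₁ g₂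
        (jL (sp 1 (act g τ₂) * cj (sp 1 τ₁))) := by
  obtain ⟨g, hg, Y, hY⟩ := xbe_fac hX
  obtain ⟨α, β, r1, r2, r3, r4⟩ := xbe_map hU h₁ h₂ hZ
  obtain ⟨d0, hd⟩ := mem_Hn hg
  have g0 : 0 < g.det := by rw [hd]; exact_mod_cast d0
  have c0 := act_den g0 τ₂
  refine ⟨g, hg, fun E E' D₂ b b₀ f g₁ g₂ q hE' hc a₁ a₂ a₃ hE f₂ hf hq hqc hb hb₀ ⟨t, ht⟩ hK => ?_⟩
  have m₁ := discL_one a₁
  have m₂ := (discL_one a₃).pr_mul c0
  have f₁ : Fit E (g₁ ^ 2 * E') := ⟨f, hf, hE⟩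
  have hM : ∀ w, ev τ₂ (g.adjugate *ᵥ w) ∈ pr ((g 1 0 : ℂ) * τ₂ + g 1 1) * sp 1 (act g τ₂) :=
    fun w => mem_pr_mul.2 ⟨_, xbe_ev _ w, (ev_adj g0 τ₂ w).symm⟩
  have hv : vol (pr ((g 1 0 : ℂ) * τ₂ + g 1 1) * sp 1 (act g τ₂)) = X.det.natAbs * τ₂.im := by
    rw [vol_pr_mul (isLat_one _) c0, tda_vol, Complex.normSq_eq_norm_sq, mul_comm, xkd_im g0, hd,
      Int.cast_natCast]
  have hj : jL (pr ((g 1 0 : ℂ) * τ₂ + g 1 1) * sp 1 (act g τ₂) * cj (sp 1 τ₁)) =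
      jL (sp 1 (act g τ₂) * cj (sp 1 τ₁)) := by
    rw [mul_assoc, jL_pr_mul (discL_mul_cop hE' hc.symm (discL_one a₃) m₁.cj).1.isLat c0]
  have hj' := (jL_pr_mul (isLat_one (act g τ₂)) c0).trans (jL_one _)
  generalize pr ((g 1 0 : ℂ) * τ₂ + g 1 1) * sp 1 (act g τ₂) = M at m₂ hM hv hj hj'
  have hX' : ∀ v, ev τ₂ (X *ᵥ v) ∈ M := fun v => by
    rw [hY, ← Matrix.mulVec_mulVec]
    exact hM _
  have hδ : ∀ w, (X.det.natAbs : ℂ) * ev τ₂ w ∈ M := fun w => by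
    have := hM (g *ᵥ w)
    rw [Matrix.mulVec_mulVec, Matrix.adjugate_mul, Matrix.smul_mulVec, Matrix.one_mulVec, hd,
      ev] at this
    refine (congrArg (· ∈ M) ?_).mp this
    simp only [ev, Pi.smul_apply, smul_eq_mul]
    generalize X.det.natAbs = δ
    push_cast
    ring
  have hm : ∀ z ∈ sp 1 τ₁, rl α β z ∈ M := fun z hz => by
    obtain ⟨x, y, rfl⟩ := mem_sp.1 hz
    have := hX' ![x, -y]
    rw [← r1, ev] at this
    refine (congrArg (fun z => rl α β z ∈ M) ?_).mp this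
    simp
  obtain ⟨B, hB⟩ := hm_int hE' hc m₁ m₂ hm
  have d1 : (1 : ℝ) ≤ X.det.natAbs := by exact_mod_cast d0
  have hle : 100 * U ^ 5 * Z ^ 2 * τ₂.im ≤ 100 * U ^ 5 * Z ^ 2 * vol M := by
    rw [hv]
    exact mul_le_mul_of_nonneg_left (le_mul_of_one_le_left τ₂.im_pos.le d1) (by positivity)
  obtain ⟨v, hv1, hv2⟩ := AA_line a₁ f₁ hq hqc.of_mul_right_left hb
  have k₁ : v ∈ Ker q (AA E b τ₁) := hv2 ▸ xlb_self q v
  obtain ⟨w₁, e₁⟩ := xbe_side a₁ f₁ k₁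
  obtain ⟨w₂, e₂⟩ := xbe_side a₂ f₂ (hK v k₁)
  have hth : th E = f * (g₁ * th E') := by rw [hE, th_mul_sq, th_mul_sq]
  have ht' : (f : ℂ) * g₁ * b₀ + b = q * t := by exact_mod_cast ht
  have cf : IsCoprime (q : ℤ) f := by
    refine hqc.of_isCoprime_of_dvd_right ⟨2 * f * (g₁ ^ 2 * E') * X.det, ?_⟩
    rw [hE]
    ring
  have cd : IsCoprime (q : ℤ) X.det.natAbs :=
    hqc.of_isCoprime_of_dvd_right (Int.natAbs_dvd.2 (Dvd.intro_left _ rfl))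
  rw [hth] at e₁ e₂
  refine ⟨sp 1 τ₁, M, α, β, B, m₁, m₂, jL_one _, hj', hj, ⟨hm, by exact_mod_cast hB, ?_, ?_, ?_⟩,
    hb₀, ev τ₁ v, xbe_ev _ _, fun l hl _ k => ?_, ?_, ?_⟩
  · rw [tda_vol, r2, hv, ← mul_assoc, ← Int.cast_natCast (R := ℝ), ← Int.cast_mul,
      Int.sign_mul_natAbs]
  · rw [tda_vol]
    exact r3.trans hle
  · rw [tda_vol]
    exact r4.trans hle
  · obtain ⟨w, hw, e⟩ := mem_pr_mul.1 k
    obtain ⟨x, y, rfl⟩ := mem_sp.1 hw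
    obtain ⟨e1, e2⟩ := ord_indep τ₁ (m := l * x - v 0) (n := l * y + v 1) (by
      rw [ev] at e
      push_cast
      linear_combination e)
    exact (Nat.prime_iff_prime_int.1 hl).not_isUnit
      (hv1.isUnit_of_dvd' ⟨x, by linear_combination -e1⟩ ⟨-y, by linear_combination e2⟩)
  · refine xbe_cop (xbe_th m₁ (xbe_ev τ₁ v) g₂ b₀) cf (xbe_int ((sp 1 τ₁).sub_mem (xbe_ev τ₁ w₁)
      (xbe_int (xbe_ev τ₁ v) t)) g₂) ?_
    push_cast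
    linear_combination g₂ * e₁ - g₂ * ev τ₁ v * ht'
  · rw [r1, mul_comm g₁]
    refine xbe_cop (xbe_th m₂ (hX' v) g₁ b₀) (cf.mul_right cd) (xbe_int (M.sub_mem (hδ w₂)
      (xbe_int (hδ (X *ᵥ v)) t)) g₂) ?_
    generalize X.det.natAbs = δ
    push_cast
    linear_combination g₂ * δ * e₂ - g₂ * δ * ev τ₂ (X *ᵥ v) * ht'

theorem xbe_gal {n : ℕ} (x z : Fin n → ℂ) :
    z ∈ galOrbit ⊥ x ↔ ∃ σ : ℂ ≃+* ℂ, z = fun k => σ (x k) :=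
  exists_congr fun σ => and_iff_right fun a ha => by
    obtain ⟨q, rfl⟩ := IntermediateField.mem_bot.1 ha
    exact map_ratCast σ q

theorem xbe_cnt {n : ℕ} {τ : Fin n → ℍ} {D : Fin n → ℤ} (hτ : ∀ k, HasDisc (τ k) (D k))
    (k l : Fin n) {δ : ℕ} (hδ : 0 < δ) {h : M2} (hh : h.det = δ) {E : ℤ} {g₁ g₂ : ℕ} (hE : IsD E)
    (hg : g₁.Coprime g₂) (e1 : D k = g₁ ^ 2 * E) (a : HasDisc (act h (τ l)) (g₂ ^ 2 * E))
    (b1 : D k < -576) (b2 : g₂ ^ 2 * E < -576) {S : Set (ℂ × ℂ)} (hS : S.Finite) :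
    prb (Orb τ) (fun x => ∃ σ : ℂ ≃+* ℂ, (x = fun i => σ (jInv (τ i))) ∧
      (x k, σ (jInv (act h (τ l)))) ∈ S) * (Cl ((g₁ * g₂ : ℕ) ^ 2 * E)).ncard ≤
      15 * S.ncard * (δ : ℝ) ^ 2 := by
  obtain ⟨t, t0, t1⟩ : ∃ t : Fin (n + 1) → ℍ, t 0 = act h (τ l) ∧ ∀ i : Fin n, t i.succ = τ i :=
    ⟨Fin.cons (act h (τ l)) τ, rfl, fun _ => rfl⟩
  have ht : ∀ i, HasDisc (t i) ((Fin.cons (g₂ ^ 2 * E) D : Fin (n + 1) → ℤ) i) := fun i => by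
    refine Fin.cases ?_ (fun i => ?_) i
    · rw [t0]
      exact a
    · rw [t1]
      exact hτ i
  have hO := orbit_finite ⊥ ht
  have k1 := tfc_core ⊥ ht k.succ 0 hE hg e1 rfl b1 b2 hS
    (A := {z | z ∈ (galOrbit ⊥ fun i => jInv (t i)) ∧ (z k.succ, z 0) ∈ S}) fun z hz => hz
  rw [IntermediateField.finrank_bot, Nat.cast_one, mul_one] at k1
  have k2 : (galOrbit ⊥ fun i => jInv (t i)).ncard ≤ (Orb τ).card * δ ^ 2 := by
    refine le_trans ?_ (Nat.mul_le_mul_left _ (card_Hn δ))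
    rw [← Finset.card_product, ← Set.ncard_coe_finset]
    refine le_trans (Set.ncard_le_ncard ?_ ((Finset.finite_toSet _).image _))
      (Set.ncard_image_le (f := fun y : (Fin n → ℂ) × M2 =>
        (Fin.cons (jInv (act y.2 (fr (y.1 l)))) y.1 : Fin (n + 1) → ℂ)) (Finset.finite_toSet _))
    intro z hz
    obtain ⟨σ, rfl⟩ := (xbe_gal _ _).1 hz
    have i1 : Ig δ (σ (jInv (act h (τ l)))) (jInv (fr (σ (jInv (τ l))))) := by
      rw [(fr_spec _).2]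
      exact Ig.gal hδ ⟨τ l, h, hh, rfl, rfl⟩ σ
    obtain ⟨g, hg, e⟩ := i1.exists_Hn hδ
    refine ⟨(fun i => σ (jInv (τ i)), g), Finset.mem_coe.2 (Finset.mem_product.2
      ⟨(mem_Orb hτ).2 ⟨σ, rfl⟩, hg⟩), funext fun i => ?_⟩
    refine Fin.cases ?_ (fun i => ?_) i
    · rw [t0]
      exact e
    · rw [t1]
      rfl
  have k3 : ((Orb τ).filter fun x => ∃ σ : ℂ ≃+* ℂ, (x = fun i => σ (jInv (τ i))) ∧
      (x k, σ (jInv (act h (τ l)))) ∈ S).card ≤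
      {z | z ∈ (galOrbit ⊥ fun i => jInv (t i)) ∧ (z k.succ, z 0) ∈ S}.ncard := by
    have hA : {z | z ∈ (galOrbit ⊥ fun i => jInv (t i)) ∧ (z k.succ, z 0) ∈ S}.Finite :=
      hO.subset fun z hz => hz.1
    rw [← Set.ncard_coe_finset]
    refine le_trans (Set.ncard_le_ncard ?_ (hA.image _))
      (Set.ncard_image_le (f := fun (z : Fin (n + 1) → ℂ) (i : Fin n) => z i.succ) hA)
    intro x hx
    obtain ⟨σ, rfl, e⟩ := (Finset.mem_filter.1 (Finset.mem_coe.1 hx)).2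
    refine ⟨fun i => σ (jInv (t i)), ⟨(xbe_gal _ _).2 ⟨σ, rfl⟩, ?_⟩, funext fun i => ?_⟩
    · simp only [t0, t1]
      exact e
    · simp only [t1]
  have o0 : (0 : ℝ) < (Orb τ).card := Nat.cast_pos.2 (Orb_ne hτ).card_pos
  have k4 := mul_le_mul_of_nonneg_right ((Nat.cast_le (α := ℝ)).2 k3)
    (Nat.cast_nonneg (α := ℝ) (Cl ((g₁ * g₂ : ℕ) ^ 2 * E)).ncard)
  have k5 := mul_le_mul_of_nonneg_left ((Nat.cast_le (α := ℝ)).2 k2)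
    (show (0 : ℝ) ≤ 15 * S.ncard by positivity)
  rw [xec_pb, Finset.sum_boole, div_mul_eq_mul_div, div_le_iff₀ o0]
  rw [Nat.cast_mul, Nat.cast_pow] at k5
  linarith

theorem xbe_jac {E b F : ℤ} {p : ℕ} (hp : p.Prime) (h1 : ¬ (p : ℤ) ∣ F ^ 2 * E)
    (h2 : (p : ℤ) ∣ b ^ 2 - F ^ 2 * E) : jacobiSym E p = 1 := by
  have key : ∀ a : ℤ, ¬ (p : ℤ) ∣ a → jacobiSym (a ^ 2) p = 1 := fun a ha =>
    jacobiSym.sq_one' (Int.isCoprime_iff_gcd_eq_one.1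
      (((Nat.prime_iff_prime_int.1 hp).coprime_iff_not_dvd.2 ha).symm))
  have a1 := key F fun h => h1 ((h.trans (dvd_pow_self F two_ne_zero)).mul_right _)
  have a2 := key b fun h => h1 ((dvd_sub_right (h.trans (dvd_pow_self b two_ne_zero))).1 h2)
  have a3 : jacobiSym (F ^ 2 * E) p = jacobiSym (b ^ 2) p :=
    jacobiSym.mod_left' (Int.modEq_iff_dvd.2 h2)
  rwa [jacobiSym.mul_left, a1, a2, one_mul] at a3

theorem xc_one (L U : ℝ) (hU : 1 ≤ U) : ∃ (K : ℝ) (A R₀ : ℕ), 0 < K ∧ ∀ (n : ℕ) (τ : Fin n → ℍ)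
    (D : Fin n → ℤ), (∀ k, HasDisc (τ k) (D k)) → ∀ (k l : Fin n) (E b : ℤ) (β : Finset ℕ)
    (δ R : ℕ) (Z Λ : ℝ), Low L (D k) → Fit E (D k) → Fit E (D l) → β.Nonempty →
    (∀ p ∈ β, p.Prime ∧ ¬ (p : ℤ) ∣ 2 * E * δ ∧ (p : ℤ) ∣ b ^ 2 - E) →
    ∑ p ∈ β, (p : ℝ) ^ (-(1 / 4 : ℝ)) ≤ 1 → 1 ≤ Z → 0 < δ → δ ≤ R → R₀ * Z ^ 2 ≤ R →
    (∏ p ∈ β, p) ^ 200 ≤ R → (R : ℤ) ^ 3 ≤ -D k → (R : ℤ) ^ 3 ≤ -D l → 1 ≤ Λ →
    Real.log (-(D k : ℝ)) ≤ Λ → Real.log (-(D l : ℝ)) ≤ Λ →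
    (∀ d, 0 < d → d ≤ R ^ 3 → ¬ Ig d (jInv (τ k)) (jInv (τ l))) →
    prb (Orb τ) (fun x => fr (x k) ∈ KU U ∧ fr (x l) ∈ KU U ∧ ∃ X : M2, X.det.natAbs = δ ∧
      (∀ i j, |(X i j : ℝ)| ≤ Z) ∧ ∀ p ∈ β, ∀ v ∈ Ker p (AA E b (fr (x k))),
        X *ᵥ v ∈ Ker p (AA E b (fr (x l)))) ≤
      K * Λ ^ A * Z ^ 2 * (δ : ℝ) ^ 4 / (∏ p ∈ β, p : ℕ) := by
  obtain ⟨K, A, R₁, hK, hxs⟩ := xs_le
  refine ⟨60 * (|L| + 1) * (K * (100 * U ^ 5) * 3 ^ A), A, max (max R₁ 577) ⌈100 * U ^ 5⌉₊,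
    by positivity, fun n τ D hτ k l E b β δ R Z Λ hL ⟨f, hf, hE⟩ ⟨f', hf', hE'⟩ hβ hp hs hZ hδ hδR
      hR hq bk bl hΛ lk ll hI => ?_⟩
  have Z1 : 1 ≤ Z ^ 2 := one_le_pow₀ hZ
  have U1 : 1 ≤ U ^ 5 := one_le_pow₀ hU
  have C1 : 1 ≤ 100 * U ^ 5 * Z ^ 2 := one_le_mul_of_one_le_of_one_le (by linarith) Z1
  have hR0 : max (max R₁ 577) ⌈100 * U ^ 5⌉₊ ≤ R :=
    (Nat.cast_le (α := ℝ)).1 ((le_mul_of_one_le_right (Nat.cast_nonneg _) Z1).trans hR)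
  have R1 : R₁ ≤ R := by omega
  have R2 : (577 : ℤ) ≤ R := by omega
  have R3 : 100 * U ^ 5 * Z ^ 2 ≤ R := le_trans (mul_le_mul_of_nonneg_right
    ((Nat.le_ceil _).trans (Nat.cast_le.2 (le_max_right _ _))) (by positivity)) hR
  have R4 : (R : ℤ) ≤ R ^ 3 := le_self_pow₀ (by omega) (by norm_num)
  have R5 : (R : ℤ) ^ 2 ≤ R ^ 3 := pow_le_pow_right₀ (by omega) (by norm_num)
  have d2 : (δ : ℤ) ^ 2 ≤ R ^ 2 := pow_le_pow_left₀ (by positivity) (by exact_mod_cast hδR) 2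
  have ck : D k < -576 := by omega
  have cl : D l < -576 := by omega
  have q0 : 0 < ∏ p ∈ β, p := Finset.prod_pos fun p h => (hp p h).1.pos
  have hqc : IsCoprime ((∏ p ∈ β, p : ℕ) : ℤ) (2 * E * δ) := by
    rw [Nat.cast_prod]
    exact IsCoprime.prod_left fun p h =>
      (Nat.prime_iff_prime_int.1 (hp p h).1).coprime_iff_not_dvd.2 (hp p h).2.1
  have hqb : ((∏ p ∈ β, p : ℕ) : ℤ) ∣ b ^ 2 - E := by
    rw [Nat.cast_prod]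
    exact Finset.prod_dvd_of_coprime (fun a ha c hc hac => Nat.isCoprime_iff_coprime.2
      ((Nat.coprime_primes (hp a ha).1 (hp c hc).1).2 hac)) fun p h => (hp p h).2.2
  obtain ⟨m, hm⟩ : ∃ m : ℝ, m = K * (100 * U ^ 5 * Z ^ 2) * (3 * Λ) ^ A / (∏ p ∈ β, p : ℕ) :=
    ⟨_, rfl⟩
  have m0 : 0 < m := by rw [hm]; positivity
  have key : ∀ h ∈ Hn δ, prb (Orb τ) (fun x => ∃ σ : ℂ ≃+* ℂ, (x = fun i => σ (jInv (τ i))) ∧
      ∃ g ∈ Hn δ, σ (jInv (act h (τ l))) = jInv (act g (fr (x l))) ∧ ∃ s : ℤ, (s = 1 ∨ s = -1) ∧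
      ∀ (E' b₀ : ℤ) (g₁ g₂ : ℕ), IsD E' → g₁.Coprime g₂ → D k = g₁ ^ 2 * E' →
        HasDisc (act g (fr (x l))) (g₂ ^ 2 * E') → 2 ∣ b₀ - E' →
        ((∏ p ∈ β, p : ℕ) : ℤ) ∣ f * g₁ * b₀ + b →
        (x k, jInv (act g (fr (x l)))) ∈ XS s (100 * U ^ 5 * Z ^ 2) (∏ p ∈ β, p) b₀ E' g₁ g₂
          (jL (sp 1 (act g (fr (x l))) * cj (sp 1 (fr (x k)))))) ≤
      60 * (|L| + 1) * m * (δ : ℝ) ^ 2 := by
    intro h hh
    have hd := (mem_Hn hh).2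
    obtain ⟨D', a', ⟨f₁, hf₁, e₁⟩, a₂⟩ := act_disc (hτ l) hδ hd
    have c' : D' < -576 := by
      by_contra hn
      have s1 := mul_le_mul_of_nonneg_left (show -D' ≤ 576 by omega) (sq_nonneg (δ : ℤ))
      have s2 := mul_le_mul_of_nonneg_left R2 (sq_nonneg (R : ℤ))
      have s3 : (0 : ℤ) < R ^ 2 := pow_pos (by omega) 2
      linarith
    obtain ⟨E', g₁, g₂, iE, p₁, p₂, hg, ek, rfl, hr⟩ := split_disc (hτ k).isD a'.isD
      (ρ₁ := δ * f) (ρ₂ := f' * f₁) (by positivity) (by positivity) (by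
        have : ((δ : ℤ) * f) ^ 2 * D k = (f' * f₁) ^ 2 * D' := by
          linear_combination (δ : ℤ) ^ 2 * (hE' - hE) + (f' : ℤ) ^ 2 * e₁
        exact_mod_cast this)
    have hr' : (δ : ℤ) * f * g₁ = f' * f₁ * g₂ := by exact_mod_cast hr
    have hEE : E = (f * g₁) ^ 2 * E' := by rw [hE, ek]; ring
    obtain ⟨b₀, u1, u2⟩ : ∃ b₀ : ℤ, 2 ∣ b₀ - E' ∧ ((∏ p ∈ β, p : ℕ) : ℤ) ∣ f * g₁ * b₀ + b := by
      obtain ⟨x, y, e⟩ := hqc.of_isCoprime_of_dvd_right (x := 2 * ((f : ℤ) * g₁))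
        ⟨f * g₁ * E' * δ, by rw [hEE]; ring⟩
      exact ⟨E' - 2 * (y * (f * g₁ * E' + b)), ⟨-(y * (f * g₁ * E' + b)), by ring⟩,
        x * (f * g₁ * E' + b), by linear_combination -(f * g₁ * E' + b) * e⟩
    obtain ⟨w, w', hw⟩ := orbit_classes iE hg (ek ▸ discL_one (hτ k)) (discL_one a') (ek ▸ ck) c'
    have iG := cm_isD_sq iE (Nat.mul_pos p₁ p₂)
    have lg : Real.log (-(((g₁ * g₂ : ℕ) ^ 2 * E' : ℤ) : ℝ)) ≤ 3 * Λ := by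
      have t1 : -((g₁ * g₂ : ℕ) ^ 2 * E' : ℤ) ≤ -D k * (-D l * -D l) := by
        have s1 : (1 : ℤ) ≤ f₁ ^ 2 := one_le_pow₀ (by exact_mod_cast hf₁)
        have s2 : -(g₂ ^ 2 * E') ≤ -D l * -D l := by
          have s4 := mul_le_mul_of_nonneg_right s1 (show 0 ≤ -(g₂ ^ 2 * E') by omega)
          have s5 := mul_le_mul_of_nonneg_right (d2.trans (R5.trans bl)) (show 0 ≤ -D l by omega)
          linarith
        have s3 : (g₁ : ℤ) ^ 2 ≤ -D k := by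
          have s4 := mul_le_mul_of_nonneg_left (show 1 ≤ -E' by linarith [iE.1])
            (sq_nonneg (g₁ : ℤ))
          linarith
        refine le_trans (le_of_eq ?_) (mul_le_mul s3 s2 (by omega) (by omega))
        push_cast
        ring
      have t2 : (0 : ℝ) < -(D k : ℝ) := by linarith [tti_three (hτ k).isD]
      have t3 : (0 : ℝ) < -(D l : ℝ) := by linarith [tti_three (hτ l).isD]
      refine (Real.log_le_log (by linarith [tti_three iG])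
        (show _ ≤ -(D k : ℝ) * (-(D l : ℝ) * -(D l : ℝ)) by exact_mod_cast t1)).trans ?_
      rw [Real.log_mul t2.ne' (by positivity), Real.log_mul t3.ne' t3.ne']
      linarith
    obtain ⟨T, hT⟩ : ∃ T : ℤ → ℂ → Set (ℂ × ℂ), T = fun s w =>
        {z | z ∈ XS s (100 * U ^ 5 * Z ^ 2) (∏ p ∈ β, p) b₀ E' g₁ g₂ w ∧
          ∀ M : ℕ, 0 < M → M ≤ R → ¬ Isog M z.1 z.2} := ⟨_, rfl⟩
    have T1 : ∀ s w, (T s w).Finite := fun s w => by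
      rw [hT]
      exact (XS_finite _ _ _ _ _ _ _ _).subset fun z hz => hz.1
    have H0 := tfc_HH iG
    have T2 : ∀ s w, s.natAbs = 1 → ((T s w).ncard : ℝ) ≤ m * HH ((g₁ * g₂ : ℕ) ^ 2 * E') := by
      intro s w e
      rw [hT, hm]
      refine (hxs s b₀ E' _ g₁ g₂ R β w e C1 iE p₁ p₂ hg hβ (fun p h => ?_) hs R1 R3
        hq).trans ?_
      · obtain ⟨v1, v2, v3⟩ := hp p h
        have v4 := Nat.prime_iff_prime_int.1 v1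
        have v5 : ¬ (p : ℤ) ∣ δ * f * g₁ := fun e => v2 (v4.dvd_of_dvd_pow (n := 2)
          ((e.mul_right (4 * δ * (f * g₁) ^ 3 * E' ^ 2)).trans (dvd_of_eq (by rw [hEE]; ring))))
        refine ⟨v1, ?_, xbe_jac v1 (fun e => v2 ?_) (hEE ▸ v3), fun e => v5 ?_⟩
        · rintro rfl
          exact v2 ⟨E * δ, by push_cast; ring⟩
        · exact ((hEE ▸ e).mul_left 2).mul_right _
        · rcases (Nat.Prime.dvd_mul v1).1 e with e | e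
          · exact (Int.natCast_dvd_natCast.2 e).mul_left _
          · exact hr' ▸ (Int.natCast_dvd_natCast.2 e).mul_left _
      · have := Real.log_nonneg (show 1 ≤ -(((g₁ * g₂ : ℕ) ^ 2 * E' : ℤ) : ℝ) by
          linarith [tti_three iG])
        gcongr
    have k1 := xbe_cnt hτ k l hδ hd iE hg ek a' ck c'
      (((T1 1 w).union (T1 1 w')).union ((T1 (-1) w).union (T1 (-1) w')))
    have k2 : ((T 1 w ∪ T 1 w' ∪ (T (-1) w ∪ T (-1) w')).ncard : ℝ) ≤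
        4 * m * HH ((g₁ * g₂ : ℕ) ^ 2 * E') := by
      have := (Nat.cast_le (α := ℝ)).2 ((Set.ncard_union_le _ _).trans (Nat.add_le_add
        (Set.ncard_union_le (T 1 w) (T 1 w')) (Set.ncard_union_le (T (-1) w) (T (-1) w'))))
      push_cast at this
      linarith [T2 1 w rfl, T2 1 w' rfl, T2 (-1) w rfl, T2 (-1) w' rfl]
    refine le_trans (pb_mono fun x hx hx' => ?_)
      ((tfc_fin (K := 15) (L := L) (δ := 60 * (|L| + 1) * m) k1 (k2.trans (le_of_eq ?_))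
        (hL _ iG ⟨g₁ * (g₁ * g₂ : ℕ) * E', by rw [ek]; ring⟩) H0 (Nat.cast_nonneg _) (by norm_num)
        (by positivity) (by positivity)))
    · obtain ⟨σ, e, g, -, j, s, hs, hX⟩ := hx'
      refine ⟨σ, e, ?_⟩
      have xk : x k = σ (jInv (τ k)) := congrFun e k
      have y1 := hX E' b₀ g₁ g₂ iE hg ek (disc_of_gal a' c' j.symm) u1 u2
      have y2 := hw σ _ _ (isLat_one (fr (x k))) (isLat_one (act g (fr (x l))))
        (by rw [jL_one, jL_one, (fr_spec _).2, xk]) (by rw [jL_one, jL_one, j])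
      have y3 : ∀ M : ℕ, 0 < M → M ≤ R → ¬ Isog M (x k) (σ (jInv (act h (τ l)))) := by
        intro M M0 MR i
        obtain ⟨d, d0, dM, i1⟩ := i.ig M0
        have i2 := (i1.trans d0 hδ (Ig.gal hδ ⟨τ l, h, hd, rfl, rfl⟩ σ)).gal
          (Nat.mul_pos d0 hδ) σ.symm
        rw [xk, σ.symm_apply_apply, σ.symm_apply_apply] at i2
        exact hI _ (Nat.mul_pos d0 hδ)
          (Nat.mul_le_mul (dM.trans (Nat.pow_le_pow_left MR 2)) hδR) i2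
      rw [← j] at y1
      rw [hT]
      rcases hs with rfl | rfl <;> rcases y2 with y2 | y2 <;> rw [y2] at y1
      · exact Or.inl (Or.inl ⟨y1, y3⟩)
      · exact Or.inl (Or.inr ⟨y1, y3⟩)
      · exact Or.inr (Or.inl ⟨y1, y3⟩)
      · exact Or.inr (Or.inr ⟨y1, y3⟩)
    · field_simp
      ring
  refine le_trans (pb_mono fun x hx hx' => ?_) ((pb_exists _ _ _).trans
    ((Finset.sum_le_card_nsmul _ _ _ key).trans ?_))
  · obtain ⟨u1, u2, X, hX, hXZ, hK⟩ := hx'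
    obtain ⟨σ, e⟩ := (mem_Orb hτ).1 hx
    have X0 : X.det ≠ 0 := Int.natAbs_pos.1 (hX ▸ hδ)
    obtain ⟨g, hg, hxs⟩ := xs_of_mat hU u1 u2 X0 hXZ
    rw [hX] at hg
    have i1 := Ig.gal hδ ⟨fr (x l), g, (mem_Hn hg).2, rfl, (fr_spec _).2⟩ σ.symm
    rw [show σ.symm (x l) = jInv (τ l) by rw [e, σ.symm_apply_apply]] at i1
    obtain ⟨h, hh, j⟩ := i1.exists_Hn hδ
    refine ⟨h, hh, σ, e, g, hg, by rw [j, σ.apply_symm_apply], X.det.sign, ?_,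
      fun E' b₀ g₁ g₂ iE hc ek a u1 u2 => ?_⟩
    · exact X0.lt_or_gt.symm.imp Int.sign_eq_one_of_pos Int.sign_eq_neg_one_of_neg
    · have := hxs E E' (D l) b b₀ f g₁ g₂ _ iE hc (ek ▸ Orb_disc hτ hx ck) (Orb_disc hτ hx cl) a
        (ek ▸ hE) ⟨f', hf', hE'⟩ hf q0 (hqc.of_isCoprime_of_dvd_right
          (mul_dvd_mul_left _ (hX ▸ Int.dvd_natAbs.2 dvd_rfl))) hqb u1 u2 fun v hv =>
        (mem_Ker_prod fun p h => (hp p h).1).2 fun p h =>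
          hK p h v ((mem_Ker_prod fun p h => (hp p h).1).1 hv p h)
      rwa [(fr_spec _).2] at this
  · rw [nsmul_eq_mul]
    refine (mul_le_mul_of_nonneg_right (show _ ≤ (δ : ℝ) ^ 2 by exact_mod_cast card_Hn δ)
      (by positivity)).trans (le_of_eq ?_)
    rw [hm, mul_pow 3]
    ring

theorem xc_orb (L U : ℝ) (hU : 1 ≤ U) : ∃ (K : ℝ) (A R₀ : ℕ), 0 < K ∧ ∀ (n : ℕ) (τ : Fin n → ℍ)
    (D : Fin n → ℤ), (∀ k, HasDisc (τ k) (D k)) → ∀ (k l : Fin n) (E b : ℤ) (β : Finset ℕ)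
    (R : ℕ) (Z Λ : ℝ), Low L (D k) → Fit E (D k) → Fit E (D l) →
    (∀ p ∈ β, p.Prime ∧ ¬ (p : ℤ) ∣ 2 * E ∧ (p : ℤ) ∣ b ^ 2 - E) →
    ∑ p ∈ β, (p : ℝ) ^ (-(1 / 4 : ℝ)) ≤ 1 → 1 ≤ Z → R₀ * Z ^ 2 ≤ R →
    (∏ p ∈ β, p) ^ 200 ≤ R → (R : ℤ) ^ 3 ≤ -D k → (R : ℤ) ^ 3 ≤ -D l → 1 ≤ Λ →
    Real.log (-(D k : ℝ)) ≤ Λ → Real.log (-(D l : ℝ)) ≤ Λ →
    (∀ d, 0 < d → d ≤ R ^ 3 → ¬ Ig d (jInv (τ k)) (jInv (τ l))) →
    prb (Orb τ) (fun x => fr (x k) ∈ KU U ∧ fr (x l) ∈ KU U ∧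
      Xc Z (fun p => Ker p (AA E b (fr (x k)))) (fun p => Ker p (AA E b (fr (x l)))) β) ≤
      K * Λ ^ A * Z ^ 14 / (∏ p ∈ β, p : ℕ) := by
  obtain ⟨K, A, R₀, hK, h1⟩ := xc_one L U hU
  refine ⟨64 * (K + 1), A, max R₀ 2, by positivity,
    fun n τ D hτ k l E b β R Z Λ hL fk fl hp hs hZ hR hq bk bl hΛ lk ll hI => ?_⟩
  have Z0 : 0 ≤ Z ^ 2 := sq_nonneg Z
  have R1 : R₀ * Z ^ 2 ≤ R :=
    (mul_le_mul_of_nonneg_right (Nat.cast_le.2 (le_max_left _ _)) Z0).trans hR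
  have R2 : 2 * Z ^ 2 ≤ R :=
    (mul_le_mul_of_nonneg_right (by exact_mod_cast le_max_right R₀ 2) Z0).trans hR
  have q0 : (0 : ℝ) < (∏ p ∈ β, p : ℕ) := Nat.cast_pos.2 (Finset.prod_pos fun p h => (hp p h).1.pos)
  have key : ∀ δ ∈ Finset.Icc 1 ⌊2 * Z ^ 2⌋₊, prb (Orb τ) (fun x => fr (x k) ∈ KU U ∧
      fr (x l) ∈ KU U ∧ ∃ X : M2, X.det.natAbs = δ ∧ (∀ i j, |(X i j : ℝ)| ≤ Z) ∧
      ∀ p ∈ β.filter fun p => ¬ p ∣ δ, ∀ v ∈ Ker p (AA E b (fr (x k))),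
        X *ᵥ v ∈ Ker p (AA E b (fr (x l)))) ≤
      (K + 1) * Λ ^ A * Z ^ 2 * (2 * Z ^ 2) ^ 5 / (∏ p ∈ β, p : ℕ) := by
    intro δ hδ
    obtain ⟨d0, d1⟩ := Finset.mem_Icc.1 hδ
    have d2 : (δ : ℝ) ≤ 2 * Z ^ 2 := (Nat.le_floor_iff (by positivity)).1 d1
    have d3 : (1 : ℝ) ≤ δ := Nat.one_le_cast.2 d0
    have e := Finset.prod_filter_mul_prod_filter_not β (fun p => p ∣ δ) fun p => p
    have a1 : ∏ p ∈ β.filter fun p => p ∣ δ, p ≤ δ :=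
      Nat.le_of_dvd d0 (Finset.prod_primes_dvd δ
        (fun p h => (hp p (Finset.mem_filter.1 h).1).1.prime) fun p h => (Finset.mem_filter.1 h).2)
    have a0 : 0 < ∏ p ∈ β.filter fun p => p ∣ δ, p :=
      Finset.prod_pos fun p h => (hp p (Finset.mem_filter.1 h).1).1.pos
    have a2 : 0 < ∏ p ∈ β.filter fun p => ¬ p ∣ δ, p :=
      Finset.prod_pos fun p h => (hp p (Finset.mem_filter.1 h).1).1.pos
    have a3 : ((∏ p ∈ β, p : ℕ) : ℝ) ≤ δ * (∏ p ∈ β.filter fun p => ¬ p ∣ δ, p : ℕ) := by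
      rw [← e]
      exact_mod_cast Nat.mul_le_mul_right _ a1
    have a4 : (0 : ℝ) < (∏ p ∈ β.filter fun p => ¬ p ∣ δ, p : ℕ) := Nat.cast_pos.2 a2
    have L1 : 1 ≤ Λ ^ A := one_le_pow₀ hΛ
    refine le_trans (b := (K + 1) * Λ ^ A * Z ^ 2 * (δ : ℝ) ^ 4 /
      (∏ p ∈ β.filter fun p => ¬ p ∣ δ, p : ℕ)) ?_ ?_
    · rcases (β.filter fun p => ¬ p ∣ δ).eq_empty_or_nonempty with h0 | h0
      · refine (pb_le_one _ _).trans ?_
        rw [h0, Finset.prod_empty, Nat.cast_one, div_one]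
        exact one_le_mul_of_one_le_of_one_le (one_le_mul_of_one_le_of_one_le
          (one_le_mul_of_one_le_of_one_le (by linarith) L1) (one_le_pow₀ hZ)) (one_le_pow₀ d3)
      · refine (h1 n τ D hτ k l E b _ δ R Z Λ hL fk fl h0 (fun p h => ?_)
          ((Finset.sum_le_sum_of_subset_of_nonneg (Finset.filter_subset _ _)
            fun p _ _ => by positivity).trans hs) hZ d0 (Nat.cast_le.1 (d2.trans R2)) R1
          ((Nat.pow_le_pow_left ((Nat.le_mul_of_pos_left _ a0).trans e.le) _).trans hq)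
          bk bl hΛ lk ll hI).trans (by gcongr; linarith)
        obtain ⟨v0, v1⟩ := Finset.mem_filter.1 h
        obtain ⟨v2, v3, v4⟩ := hp p v0
        exact ⟨v2, fun e => ((Nat.prime_iff_prime_int.1 v2).dvd_or_dvd e).elim v3
          fun e => v1 (Int.natCast_dvd_natCast.1 e), v4⟩
    · rw [div_le_div_iff₀ a4 q0]
      calc _ ≤ (K + 1) * Λ ^ A * Z ^ 2 * (δ : ℝ) ^ 4 *
            (δ * (∏ p ∈ β.filter fun p => ¬ p ∣ δ, p : ℕ)) := by gcongr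
        _ = (K + 1) * Λ ^ A * Z ^ 2 * (δ : ℝ) ^ 5 *
            (∏ p ∈ β.filter fun p => ¬ p ∣ δ, p : ℕ) := by ring
        _ ≤ _ := by gcongr
  refine le_trans (pb_mono fun x hx hx' => ?_) ((pb_exists _ _ _).trans
    ((Finset.sum_le_card_nsmul _ _ _ key).trans ?_))
  · obtain ⟨u1, u2, X, X0, hX, hK⟩ := hx'
    refine ⟨_, Finset.mem_Icc.2 ⟨Int.natAbs_pos.2 X0, Nat.le_floor ?_⟩, u1, u2, X, rfl, hX,
      fun p h => hK p (Finset.mem_filter.1 h).1⟩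
    have Z1 : 0 ≤ Z := by linarith
    have t1 := mul_le_mul (hX 0 0) (hX 1 1) (abs_nonneg _) Z1
    have t2 := mul_le_mul (hX 0 1) (hX 1 0) (abs_nonneg _) Z1
    rw [Nat.cast_natAbs, Matrix.det_fin_two]
    push_cast
    refine (abs_sub _ _).trans ?_
    rw [abs_mul, abs_mul]
    linarith
  · rw [nsmul_eq_mul, Nat.card_Icc, Nat.add_sub_cancel]
    refine (mul_le_mul_of_nonneg_right (Nat.floor_le (by positivity)) (by positivity)).trans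
      (le_of_eq ?_)
    ring

end Pool.Agent.EQ
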