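import Pool.Agent.P.MP_ad7a55_nt.XLb
import Pool.Agent.P.MP_ad7a55_nt.WHk

/-! Related matrices and the mean square of Hecke averages. -/

set_option autoImplicit false

noncomputable section

open MeasureTheory Topology Filter UpperHalfPlane
open scoped MatrixGroups BoundedContinuousFunction Matrix Classical

namespace Pool.Agent.EQ

/-- `A` and `B` differ by a matrix of determinant at most `m`, up to scalars. -/
def Rel (m : ℕ) (A B : M2) : Prop :=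
  ∃ (s t : ℤ) (X : M2), s ≠ 0 ∧ t ≠ 0 ∧ 0 < X.det ∧ X.det ≤ m ∧ s • A = t • (X * B)

variable {m : ℕ} {A B : M2}

theorem xke_pt : ∃ τ : ℍ, ∀ a b c : ℤ, (a : ℂ) * (τ : ℂ) ^ 2 + b * τ + c = 0 →
    a = 0 ∧ b = 0 ∧ c = 0 := by
  have h2 : (0 : ℝ) < √2 := Real.sqrt_pos.2 two_pos
  have hr : (0 : ℝ) < √√2 := Real.sqrt_pos.2 h2
  have hs : √√2 * √√2 = √(2 : ℝ) := Real.mul_self_sqrt h2.le
  refine ⟨⟨⟨0, √√2⟩, hr⟩, fun a b c h => ?_⟩
  have h1 := congrArg Complex.re h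
  have h3 := congrArg Complex.im h
  simp only [sq, Complex.add_re, Complex.mul_re, Complex.mul_im, Complex.intCast_re,
    Complex.intCast_im, Complex.add_im, Complex.zero_re, Complex.zero_im] at h1 h3
  have hb : (b : ℝ) * √√2 = 0 := by linarith
  have hb' : b = 0 := by exact_mod_cast (mul_eq_zero.1 hb).resolve_right hr.ne'
  have hc : (a : ℝ) * √2 = c := by rw [← hs]; linarith
  have ha : a = 0 := by
    by_contra ha
    exact (irrational_sqrt_two.intCast_mul ha).ne_int c hc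
  refine ⟨ha, hb', ?_⟩
  rw [ha] at hc
  have : (c : ℝ) = 0 := by rw [← hc]; simp
  exact_mod_cast this

theorem xke_cop (h : Rel m A B) : ∃ (s t : ℤ) (X : M2), IsCoprime s t ∧ s ≠ 0 ∧ t ≠ 0 ∧
    0 < X.det ∧ X.det ≤ m ∧ s • A = t • (X * B) := by
  obtain ⟨s, t, X, hs, ht, h1, h2, e⟩ := h
  have hg : 0 < Int.gcd s t := Int.gcd_pos_of_ne_zero_left t hs
  obtain ⟨s', t', hc, e1, e2⟩ := Int.exists_gcd_one hg
  have hg' : (Int.gcd s t : ℤ) ≠ 0 := by exact_mod_cast hg.ne'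
  generalize (Int.gcd s t : ℤ) = g at e1 e2 hg'
  refine ⟨s', t', X, Int.isCoprime_iff_gcd_eq_one.2 hc, ?_, ?_, h1, h2, ?_⟩
  · rintro rfl
    exact hs (by rw [e1, zero_mul])
  · rintro rfl
    exact ht (by rw [e2, zero_mul])
  · apply xla_cancel hg'
    rw [smul_smul, smul_smul, mul_comm g s', mul_comm g t', ← e1, ← e2, e]

theorem xke_ndvd {l : ℕ} (hl : l.Prime) {s t x a b : ℤ} (hc : IsCoprime s t) (hx : ¬ (l : ℤ) ∣ x)
    (ha : ¬ (l : ℤ) ∣ a) (hb : ¬ (l : ℤ) ∣ b) (e : s ^ 2 * a = t ^ 2 * (x * b)) :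
    ¬ (l : ℤ) ∣ s ∧ ¬ (l : ℤ) ∣ t := by
  have hp : Prime (l : ℤ) := Nat.prime_iff_prime_int.1 hl
  have h1 : (l : ℤ) ∣ s → (l : ℤ) ∣ t := fun h => by
    have h2 : (l : ℤ) ∣ t ^ 2 * (x * b) := e ▸ (dvd_pow h two_ne_zero).mul_right a
    rcases hp.dvd_or_dvd h2 with h3 | h3
    · exact hp.dvd_of_dvd_pow h3
    · exact ((hp.dvd_or_dvd h3).elim hx hb).elim
  have h2 : (l : ℤ) ∣ t → (l : ℤ) ∣ s := fun h => by
    have h2 : (l : ℤ) ∣ s ^ 2 * a := e ▸ (dvd_pow h two_ne_zero).mul_right _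
    rcases hp.dvd_or_dvd h2 with h3 | h3
    · exact hp.dvd_of_dvd_pow h3
    · exact (ha h3).elim
  exact ⟨fun h => hp.not_isUnit (hc.isUnit_of_dvd' h (h1 h)),
    fun h => hp.not_isUnit (hc.isUnit_of_dvd' (h2 h) h)⟩

theorem xke_small {l : ℕ} {x : ℤ} (h1 : 0 < x) (h2 : x ≤ m) (hm : m < l) : ¬ (l : ℤ) ∣ x :=
  fun h => by
    have := Int.le_of_dvd h1 h
    omega

theorem xke_pow {l : ℕ} (hl : l.Prime) (e : ℕ) {x : ℤ} (h : ¬ (l : ℤ) ∣ x) :
    IsCoprime x ((l ^ e : ℕ) : ℤ) := by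
  have hp : Prime (l : ℤ) := Nat.prime_iff_prime_int.1 hl
  rw [Nat.cast_pow]
  exact (hp.irreducible.coprime_iff_not_dvd.2 h).symm.pow_right

theorem xke_ker {n : ℕ} {s : ℤ} (h : IsCoprime s n) (X : M2) : Ker n (s • X) = Ker n X := by
  have e : s • X = (s • (1 : M2)) * X := by rw [Matrix.smul_mul, Matrix.one_mul]
  rw [e]
  refine Ker_cop ?_ X
  rw [Matrix.det_smul, Matrix.det_one, mul_one]
  exact h.pow_left

theorem rel_of_isog (hm : 0 < m) (hA : 0 < A.det) (hB : 0 < B.det)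
    (h : ∀ τ, Isog m (jInv (act A τ)) (jInv (act B τ))) : Rel (m ^ 2) A B := by
  obtain ⟨τ, hτ⟩ := xke_pt
  obtain ⟨ξ, h1, h2, e⟩ := (h τ).exists_act hm
  have hY : 0 < (ξ * B).det := by rw [Matrix.det_mul]; exact mul_pos h1 hB
  rw [← act_mul h1 hB] at e
  have hle : ξ.det ≤ ((m ^ 2 : ℕ) : ℤ) := by
    rw [Nat.cast_pow]
    exact Int.le_of_dvd (by positivity) h2
  have e1 := vact_den_mul hA τ
  have e2 := vact_den_mul hY τ
  rw [← e] at e2
  have key : ∀ Y : M2, 0 < Y.det →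
      ((Y 1 0 : ℂ) * τ + Y 1 1) * (act A τ : ℂ) = (Y 0 0 : ℂ) * τ + Y 0 1 →
      ∃ t : ℤ, t ≠ 0 ∧ Y.det • A = t • Y := fun Y hY e2 => by
    obtain ⟨ha, hb, hc⟩ := hτ (A 0 0 * Y 1 0 - Y 0 0 * A 1 0)
      (A 0 0 * Y 1 1 + A 0 1 * Y 1 0 - Y 0 0 * A 1 1 - Y 0 1 * A 1 0)
      (A 0 1 * Y 1 1 - Y 0 1 * A 1 1) (by
        push_cast
        linear_combination ((A 1 0 : ℂ) * τ + A 1 1) * e2 - ((Y 1 0 : ℂ) * τ + Y 1 1) * e1)
    have e3 : Y.det • A = (Y 1 1 * A 0 0 - Y 0 1 * A 1 0) • Y := by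
      ext i j
      rw [Matrix.det_fin_two]
      fin_cases i <;> fin_cases j <;> simp only [Matrix.smul_apply, smul_eq_mul, Fin.zero_eta,
        Fin.mk_one, Fin.isValue]
      · linear_combination (-Y 0 1) * ha
      · linear_combination Y 0 0 * hc - Y 0 1 * hb
      · linear_combination (-Y 1 1) * ha
      · linear_combination Y 1 0 * hc - Y 1 1 * hb
    refine ⟨_, fun h0 => ?_, e3⟩
    rw [h0, zero_smul] at e3
    have e4 := congrArg Matrix.det e3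
    rw [Matrix.det_smul, Matrix.det_zero] at e4
    exact (mul_pos (pow_pos hY _) hA).ne' e4
  obtain ⟨t, ht, e3⟩ := key _ hY e2
  exact ⟨_, t, ξ, hY.ne', ht, h1, hle, e3⟩

theorem Rel.isog (h : Rel m A B) (hA : 0 < A.det) (hB : 0 < B.det) (τ : ℍ) :
    Isog m.factorial (jInv (act A τ)) (jInv (act B τ)) := by
  obtain ⟨s, t, X, hs, ht, h1, h2, e⟩ := h
  have hY : 0 < (X * B).det := by rw [Matrix.det_mul]; exact mul_pos h1 hB
  rw [← act_smul hA hs, e, act_smul hY ht, act_mul h1 hB]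
  exact (isog_act h1 _).mono (Nat.dvd_factorial (by omega) (by omega))

theorem Rel.mono {m' : ℕ} (h : Rel m A B) (hm : m ≤ m') : Rel m' A B := by
  obtain ⟨s, t, X, hs, ht, h1, h2, e⟩ := h
  exact ⟨s, t, X, hs, ht, h1, h2.trans (by exact_mod_cast hm), e⟩

theorem Rel.ker (h : Rel m A B) {l e : ℕ} (hl : l.Prime) (hm : m < l) {a b : ℤ}
    (hA : A.det = (l : ℤ) ^ e * a) (hB : B.det = (l : ℤ) ^ e * b) (ha : ¬ (l : ℤ) ∣ a)
    (hb : ¬ (l : ℤ) ∣ b) : Ker (l ^ e) A = Ker (l ^ e) B := by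
  obtain ⟨s, t, X, hc, hs, ht, h1, h2, e1⟩ := xke_cop h
  have hx := xke_small h1 h2 hm
  have e2 := congrArg Matrix.det e1
  rw [Matrix.det_smul, Matrix.det_smul, Matrix.det_mul, Fintype.card_fin, hA, hB] at e2
  have hl0 : (l : ℤ) ^ e ≠ 0 := pow_ne_zero _ (by exact_mod_cast hl.ne_zero)
  have e3 : s ^ 2 * a = t ^ 2 * (X.det * b) := by
    apply mul_left_cancel₀ hl0
    linear_combination e2
  obtain ⟨h3, h4⟩ := xke_ndvd hl hc hx ha hb e3
  rw [← xke_ker (xke_pow hl e h3) A, e1, xke_ker (xke_pow hl e h4), Ker_cop (xke_pow hl e hx)]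

theorem Rel.cancel {η : M2} (h : Rel m (A * η) (B * η)) (hη : η.det ≠ 0) : Rel m A B := by
  obtain ⟨s, t, X, hs, ht, h1, h2, e⟩ := h
  refine ⟨s, t, X, hs, ht, h1, h2, xla_cancel hη ?_⟩
  have e1 := congrArg (· * η.adjugate) e
  simp only [Matrix.smul_mul, Matrix.mul_assoc, Matrix.mul_adjugate, Matrix.mul_smul,
    Matrix.mul_one] at e1
  rw [smul_comm, e1, smul_comm]

theorem Rel.strip {ν ν' : M2} (h : Rel m (ν * A) (ν' * B)) {q : ℕ} (hq : q.Prime) (hm : m < q)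
    (hν : ν.det = q) (hν' : ν'.det = q) (hA : ¬ (q : ℤ) ∣ A.det) (hB : ¬ (q : ℤ) ∣ B.det) :
    Rel m A B := by
  obtain ⟨s, t, X, hc, hs, ht, h1, h2, e1⟩ := xke_cop h
  have hx := xke_small h1 h2 hm
  have hp : Prime (q : ℤ) := Nat.prime_iff_prime_int.1 hq
  have e2 := congrArg Matrix.det e1
  rw [Matrix.det_smul, Matrix.det_smul, Matrix.det_mul, Matrix.det_mul, Matrix.det_mul,
    Fintype.card_fin, hν, hν'] at e2
  have e3 : s ^ 2 * A.det = t ^ 2 * (X.det * B.det) := by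
    apply mul_left_cancel₀ hp.ne_zero
    linear_combination e2
  obtain ⟨-, h4⟩ := xke_ndvd hq hc hx hA hB e3
  have e4 : s • (q : ℤ) • A = t • (ν.adjugate * X * ν' * B) := by
    have := congrArg (ν.adjugate * ·) e1
    simp only [Matrix.mul_smul, ← Matrix.mul_assoc, Matrix.adjugate_mul, hν, Matrix.smul_mul,
      Matrix.one_mul] at this
    exact this
  have e5 : (q : ℤ) • s • (A * B.adjugate) = (t * B.det) • (ν.adjugate * X * ν') := by
    have := congrArg (· * B.adjugate) e4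
    simp only [Matrix.smul_mul, Matrix.mul_assoc _ B, Matrix.mul_adjugate, Matrix.mul_smul,
      Matrix.mul_one] at this
    rw [smul_comm, this, smul_smul]
  obtain ⟨X', hX⟩ := (xla_ex (m := (q : ℤ)) (X := ν.adjugate * X * ν')).1 fun i j => by
    have h5 : (q : ℤ) ∣ t * B.det * (ν.adjugate * X * ν') i j :=
      ⟨_, (congrFun (congrFun e5 i) j).symm⟩
    rcases hp.dvd_or_dvd h5 with h6 | h6
    · exact ((hp.dvd_or_dvd h6).elim h4 hB).elim
    · exact h6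
  have e6 : X'.det = X.det := by
    have := congrArg Matrix.det hX
    rw [Matrix.det_mul, Matrix.det_mul, xla_det_adj, hν, hν', Matrix.det_smul,
      Fintype.card_fin] at this
    apply mul_left_cancel₀ (pow_ne_zero 2 hp.ne_zero)
    linear_combination -this
  refine ⟨s, t, X', hs, ht, e6 ▸ h1, e6 ▸ h2, xla_cancel hp.ne_zero ?_⟩
  rw [smul_comm, e4, hX, Matrix.smul_mul, smul_comm]

variable {κ : Type} [Fintype κ]

/-- The centred product along the matrices `ζ`. -/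
def Fz (N : ℕ) (φ : κ → (ℍ →ᵇ ℝ)) (ζ : κ → M2) : ℍ →ᵇ ℝ :=
  ∏ k, cact (φ k) (ζ k) - BoundedContinuousFunction.const ℍ (∏ k, IN N (φ k))

/-- Two families with different directions at `q`, of level `M`. -/
structure Tw (N m M q : ℕ) (ζ ζ' : κ → M2) : Prop where
  prime : q.Prime
  lt : m < q
  det : ∀ k, ∃ d : ℕ, 0 < d ∧ ¬ q ∣ d ∧ N * (d * q) ∣ M ∧ (ζ k).det = (d * q : ℕ) ∧
    (ζ' k).det = (d * q : ℕ)
  ne : ∀ k l, Ker q (ζ k) ≠ Ker q (ζ' l)
  rel : ∀ k l, k ≠ l → ¬ Rel m (ζ k) (ζ l) ∧ ¬ Rel m (ζ' k) (ζ' l)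

theorem xke_apply (N : ℕ) (φ : κ → (ℍ →ᵇ ℝ)) (ζ : κ → M2) (z : ℍ) :
    Fz N φ ζ z = ∏ k, φ k (act (ζ k) z) - ∏ k, IN N (φ k) := by
  simp only [Fz, BoundedContinuousFunction.coe_sub, Pi.sub_apply,
    BoundedContinuousFunction.prod_apply, cact_apply, BoundedContinuousFunction.const_apply]

theorem xke_ginv {N M : ℕ} {φ : κ → (ℍ →ᵇ ℝ)} (hφ : ∀ k, GInv N (φ k)) {ζ : κ → M2}
    (h : ∀ k, 0 < (ζ k).det ∧ N * (ζ k).det.natAbs ∣ M) : GInv M (Fz N φ ζ) := by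
  intro γ hγ τ
  rw [xke_apply, xke_apply]
  congr 1
  exact Finset.prod_congr rfl fun k _ => (((hφ k).act (h k).1).mono (h k).2) γ hγ τ

theorem Fz_ginv {N M q : ℕ} {φ : κ → (ℍ →ᵇ ℝ)} (hφ : ∀ k, GInv N (φ k)) {ζ ζ' : κ → M2}
    (h : Tw N m M q ζ ζ') : GInv M (Fz N φ ζ * Fz N φ ζ') := by
  have h1 : GInv M (Fz N φ ζ) := xke_ginv hφ fun k => by
    obtain ⟨d, hd, -, h2, h3, -⟩ := h.det k
    rw [h3, Int.natAbs_natCast]
    exact ⟨by exact_mod_cast Nat.mul_pos hd h.prime.pos, h2⟩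
  have h2 : GInv M (Fz N φ ζ') := xke_ginv hφ fun k => by
    obtain ⟨d, hd, -, h2, -, h3⟩ := h.det k
    rw [h3, Int.natAbs_natCast]
    exact ⟨by exact_mod_cast Nat.mul_pos hd h.prime.pos, h2⟩
  intro γ hγ τ
  show Fz N φ ζ (γ • τ) * Fz N φ ζ' (γ • τ) = Fz N φ ζ τ * Fz N φ ζ' τ
  rw [h1 γ hγ τ, h2 γ hγ τ]

theorem xke_half [Nonempty κ] {x : κ → ℝ} (h : ∀ k, |x k| ≤ 1 / 2) : |∏ k, x k| ≤ 1 / 2 := by
  rw [Finset.abs_prod]
  calc ∏ k, |x k| ≤ ∏ _k : κ, (1 / 2 : ℝ) :=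
        Finset.prod_le_prod (fun k _ => abs_nonneg _) fun k _ => h k
    _ = (1 / 2) ^ Fintype.card κ := by rw [Finset.prod_const, Finset.card_univ]
    _ ≤ 1 / 2 := pow_le_of_le_one (by norm_num) (by norm_num) Fintype.card_ne_zero

theorem abs_Fz_le {N : ℕ} (hN : 0 < N) [Nonempty κ] {φ : κ → (ℍ →ᵇ ℝ)} (h : ∀ k, ‖φ k‖ ≤ 1 / 2)
    (ζ : κ → M2) (z : ℍ) : |Fz N φ ζ z| ≤ 1 := by
  rw [xke_apply]
  have h1 := xke_half (x := fun k => φ k (act (ζ k) z)) fun k =>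
    ((φ k).norm_coe_le_norm _).trans (h k)
  have h2 := xke_half (x := fun k => IN N (φ k)) fun k => (abs_IN_le hN _).trans (h k)
  exact (abs_sub _ _).trans (by linarith)

theorem xke_IN_one {M : ℕ} (hM : 0 < M) : IN M 1 = 1 := by
  have : NeZero M := ⟨hM.ne'⟩
  have := mH_prob (Γ := CongruenceSubgroup.Gamma M)
  simp [IN]

theorem xke_IN_sum {M : ℕ} (hM : 0 < M) {ι : Type} (s : Finset ι) (f : ι → (ℍ →ᵇ ℝ))
    (c : ι → ℝ) : IN M (∑ i ∈ s, f i * BoundedContinuousFunction.const ℍ (c i)) =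
      ∑ i ∈ s, IN M (f i) * c i := by
  have : NeZero M := ⟨hM.ne'⟩
  have := mH_prob (Γ := CongruenceSubgroup.Gamma M)
  simp only [IN, BoundedContinuousFunction.sum_apply, BoundedContinuousFunction.coe_mul,
    Pi.mul_apply, BoundedContinuousFunction.const_apply]
  rw [integral_finsetSum _ fun i _ => ((f i).integrable _).mul_const _]
  exact Finset.sum_congr rfl fun i _ => integral_mul_const _ _

theorem xke_heck {ι : Type} [Fintype ι] {N : ℕ} (hN : 0 < N) (φ : ι → (ℍ →ᵇ ℝ))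
    (hφ : ∀ k, GInv N (φ k)) (I : Finset ι) {ε : ℝ} (hε : 0 < ε) :
    ∃ m : ℕ, ∀ (ξ : ι → M2) (M : ℕ), 0 < M →
      (∀ k, 0 < (ξ k).det ∧ N * (ξ k).det.natAbs ∣ M) →
      (∀ k l, k ≠ l → ¬ Rel m (ξ k) (ξ l)) →
      |IN M (∏ k ∈ I, cact (φ k) (ξ k)) - ∏ k ∈ I, IN N (φ k)| ≤ ε := by
  rcases I.eq_empty_or_nonempty with rfl | ⟨b, hb⟩
  · refine ⟨0, fun ξ M hM _ _ => ?_⟩
    rw [Finset.prod_empty, Finset.prod_empty, xke_IN_one hM, sub_self, abs_zero]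
    exact hε.le
  · obtain ⟨m, hm, h⟩ := heck hN φ hφ I hε
    refine ⟨m ^ 2, fun ξ M hM h1 h2 => ?_⟩
    have h3 := h (fun _ => b) ξ M hM h1 fun k _ l _ hkl _ => by
      by_contra h4
      exact h2 k l hkl (rel_of_isog hm (h1 k).1 (h1 l).1 fun τ => by
        by_contra h5
        exact h4 ⟨τ, h5⟩)
    rwa [Finset.image_const ⟨b, hb⟩, Finset.prod_singleton,
      Finset.filter_true_of_mem fun _ _ => rfl] at h3

theorem four_fold {N : ℕ} (hN : 0 < N) (φ : κ → (ℍ →ᵇ ℝ)) (hφ : ∀ k, GInv N (φ k)) {ε : ℝ}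
    (hε : 0 < ε) : ∃ m₀ : ℕ, ∀ (M : ℕ) (ζ : Fin 4 → κ → M2), 0 < M →
      (∀ i k, 0 < (ζ i k).det ∧ N * (ζ i k).det.natAbs ∣ M) →
      (∀ i k j l, (i, k) ≠ (j, l) → ¬ Rel m₀ (ζ i k) (ζ j l)) →
      |IN M (∏ i, Fz N φ (ζ i))| ≤ ε := by
  set J : ℝ := ∏ k, IN N (φ k) with hJ
  set c : Finset (Fin 4) → ℝ := fun S => ∏ _i ∈ Finset.univ \ S, (-J) with hc
  set C : ℝ := ∑ S ∈ (Finset.univ : Finset (Fin 4)).powerset, |c S| with hC
  have hC0 : 0 ≤ C := Finset.sum_nonneg fun S _ => abs_nonneg _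
  have hε' : 0 < ε / (C + 1) := by positivity
  choose m hm using fun S : Finset (Fin 4) => xke_heck hN (fun x : Fin 4 × κ => φ x.2)
    (fun x => hφ x.2) (S ×ˢ Finset.univ) hε'
  refine ⟨Finset.univ.sup m, fun M ζ hM h1 h2 => ?_⟩
  have h3 : ∀ S : Finset (Fin 4),
      |IN M (∏ i ∈ S, ∏ k, cact (φ k) (ζ i k)) - ∏ _i ∈ S, J| ≤ ε / (C + 1) := fun S => by
    have := hm S (fun x => ζ x.1 x.2) M hM (fun x => h1 x.1 x.2) fun x y hxy hr =>
      h2 x.1 x.2 y.1 y.2 hxy (hr.mono (Finset.le_sup (f := m) (Finset.mem_univ S)))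
    rwa [Finset.prod_product, Finset.prod_product] at this
  have e1 : ∏ i, Fz N φ (ζ i) = ∑ S ∈ (Finset.univ : Finset (Fin 4)).powerset,
      (∏ i ∈ S, ∏ k, cact (φ k) (ζ i k)) * BoundedContinuousFunction.const ℍ (c S) := by
    ext z
    simp only [BoundedContinuousFunction.prod_apply, BoundedContinuousFunction.sum_apply,
      BoundedContinuousFunction.coe_mul, Pi.mul_apply, BoundedContinuousFunction.const_apply,
      xke_apply, cact_apply, sub_eq_add_neg]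
    exact Finset.prod_add _ _ _
  have e2 : ∑ S ∈ (Finset.univ : Finset (Fin 4)).powerset, (∏ _i ∈ S, J) * c S = 0 := by
    rw [← Finset.prod_add]
    simp
  rw [e1, xke_IN_sum hM, ← sub_zero (∑ S ∈ _, _), ← e2, ← Finset.sum_sub_distrib]
  calc _ ≤ ∑ S ∈ (Finset.univ : Finset (Fin 4)).powerset, ε / (C + 1) * |c S| := by
        refine (Finset.abs_sum_le_sum_abs _ _).trans (Finset.sum_le_sum fun S _ => ?_)
        rw [← sub_mul, abs_mul]
        exact mul_le_mul_of_nonneg_right (h3 S) (abs_nonneg _)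
    _ = ε / (C + 1) * C := by rw [← Finset.mul_sum]
    _ ≤ ε / (C + 1) * (C + 1) := mul_le_mul_of_nonneg_left (by linarith) hε'.le
    _ = ε := div_mul_cancel₀ _ (by linarith)

end Pool.Agent.EQ
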