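import Pool.Agent.P.MP_ad7a55_nt.XAc
import Pool.Agent.P.MP_ad7a55_nt.XKd
import Pool.Agent.P.MP_ad7a55_nt.XKe
import Pool.Agent.P.MP_ad7a55_nt.XGa
import Pool.Agent.P.MP_ad7a55_nt.TLow

/-! The data attached to a tuple of complex multiplication points. -/

set_option autoImplicit false

noncomputable section

open MeasureTheory Topology Filter UpperHalfPlane Finset
open scoped MatrixGroups BoundedContinuousFunction Matrix Classical

namespace Pool.Agent.EQ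

/-- The big coordinates and their clusters. -/
structure Shp (n : ℕ) (ι : Type) where
  N : ℕ
  e : ℕ
  I : Finset (Fin n)
  J : Finset (Fin n)
  cr : ι → Fin n
  bs : Fin n → ι
  sub : J ⊆ I
  mem : ∀ c, cr c ∈ J
  bs_cr : ∀ c, bs (cr c) = c

/-- Points, degrees and primes. -/
structure VD (n : ℕ) where
  τ : Fin n → ℍ
  D : Fin n → ℤ
  dg : Fin n → ℕ
  E : ℤ
  b : ℤ
  P : Finset ℕ
  M : ℕ
  l : Fin M → ℕ
  l' : Fin M → ℕ
  R : ℕ

/-- The cell of a point. -/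
def cel (U : ℝ) (cl : ℍ → ℍ) (τ : ℍ) : Option ℍ := if τ ∈ KU U then some (cl τ) else none

/-- The normal form with prescribed kernels at `d` and `q`. -/
def hq (d q : ℕ) (h : M2) (ξ : Set V2) : M2 :=
  if e : ∃ g ∈ Hn (d * q), Ker d g = Ker d h ∧ Ker q g = ξ then e.choose else 1

/-- Representatives of the matrices of determinant `d` modulo level `N`. -/
def RPm (N d : ℕ) (ζ : M2) : Prop := ∃ c : vcjQ N, ∃ h ∈ Hn d, ζ = (c.out : SL(2, ℤ)) * h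

/-- The type of the coarse data. -/
abbrev Cty (n : ℕ) (ι : Type) (M : ℕ) : Type :=
  (Fin n → ℂ) × (Fin n → M2) × (ι → Option ℍ) × (ι → Fin M → Set V2 × Set V2)

/-- The automorphism attached to a set of primes. -/
def VD.sg {n : ℕ} (v : VD n) (β : Finset ℕ) : ℂ ≃+* ℂ :=
  if h : ∃ σ : ℂ ≃+* ℂ, ∀ (τ : ℍ) (D : ℤ) (η : M2), HasDisc τ D → D < -576 → Fit v.E D →
    η.det = (∏ l ∈ β, l : ℕ) → Ker (∏ l ∈ β, l) (AA v.E v.b τ) ⊆ Ker (∏ l ∈ β, l) η →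
    σ (jInv τ) = jInv (act η τ) then h.choose else RingEquiv.refl ℂ

/-- The move of a point of the orbit. -/
def VD.mv {n : ℕ} (v : VD n) (β : Finset ℕ) (x : Fin n → ℂ) : Fin n → ℂ := fun k => v.sg β (x k)

namespace Shp

variable {n : ℕ} {ι : Type} (s : Shp n ι) (v : VD n)

/-- A cluster. -/
abbrev Cu (c : ι) : Type := {k : Fin n // k ∈ s.J ∧ s.bs k = c}

/-- The point of the cluster `c`. -/
def ct (x : Fin n → ℂ) (c : ι) : ℍ := fr (x (s.cr c))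

/-- The direction matrix. -/
def A (x : Fin n → ℂ) (c : ι) : M2 := AA v.E v.b (s.ct x c)

/-- The isogeny from the point of the cluster to the coordinate `k`. -/
def hk (x : Fin n → ℂ) (k : Fin n) : M2 :=
  if h : ∃ g ∈ Hn (v.dg k), jInv (act g (s.ct x (s.bs k))) = x k then h.choose else 1

/-- The long part of a move. -/
def a₁ (i : Fin v.M) : ℕ := v.l i ^ (2 * s.e * v.R)

/-- The short part of a move. -/
def a₂ (i : Fin v.M) : ℕ := v.l' i ^ (2 * s.e)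

/-- The product of the degrees. -/
def dd : ℕ := ∏ k ∈ s.J, v.dg k

/-- A common level. -/
def MM : ℕ := s.N * s.dd v * ∏ q ∈ v.P, q

/-- A matrix with the given kernels, scalar modulo the level. -/
def IsRho (i : Fin v.M) (L : Set V2 × Set V2) (ρ : M2) : Prop :=
  ρ.det = (s.a₁ v i * s.a₂ v i : ℕ) ∧ Ker (s.a₁ v i) ρ = L.1 ∧ Ker (s.a₂ v i) ρ = L.2 ∧
    Cg (s.MM v) ρ ((v.l i : ℤ) ^ (s.e * v.R) * (v.l' i : ℤ) ^ s.e)

/-- The chosen matrix. -/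
def rho (i : Fin v.M) (L : Set V2 × Set V2) : M2 :=
  if h : ∃ ρ, s.IsRho v i L ρ then h.choose else 1

/-- The possible directions of the move `i`. -/
def Xi (i : Fin v.M) : Finset (Set V2 × Set V2) := Xn (s.a₁ v i) ×ˢ Xn (s.a₂ v i)

/-- The directions at the moves. -/
def lab (x : Fin n → ℂ) (c : ι) : Fin v.M → Set V2 × Set V2 :=
  fun i => (Ker (s.a₁ v i) (s.A v x c), Ker (s.a₂ v i) (s.A v x c))

/-- The small coordinates. -/
def sm (x : Fin n → ℂ) : Fin n → ℂ := fun k => if k ∈ s.I \ s.J then x k else 0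

/-- The coarse data. -/
def C0 (U : ℝ) (cl : ℍ → ℍ) (x : Fin n → ℂ) : Cty n ι v.M :=
  (s.sm x, fun k => if k ∈ s.J then s.hk v x k else 0, fun c => cel U cl (s.ct x c), s.lab v x)

/-- The matrix of a move. -/
def et (β : Finset ℕ) (x : Fin n → ℂ) (c : ι) : M2 :=
  if h : ∃ η : M2, η.det = (∏ l ∈ β, l : ℕ) ∧
    Ker (∏ l ∈ β, l) (s.A v x c) ⊆ Ker (∏ l ∈ β, l) η ∧
    act η (s.ct x c) = s.ct (v.mv β x) c then h.choose else 1

/-- The abstract data. -/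
def rd (U : ℝ) (cl : ℍ → ℍ) : RD (Fin n → ℂ) ι (Cty n ι v.M) (ι → Option ℍ) where
  O := Orb v.τ
  P := v.P
  A := s.A v
  π := v.mv
  η := s.et v
  In := fun x => ∀ c, s.ct x c ∈ KU U
  C0 := s.C0 v U cl
  cl := fun x c => cel U cl (s.ct x c)

/-- The weighted sum over the moves. -/
def val (φ : Fin n → (ℍ →ᵇ ℝ)) (ζ : Fin n → M2) (Ls : ι → Fin v.M → Set V2 × Set V2) (w : ι → ℍ)
    (W : Fin v.M → ℝ) : ℝ :=
  ∑ i, W i * (∏ k ∈ s.J, φ k (act (ζ k * s.rho v i (Ls (s.bs k) i)) (w (s.bs k))) -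
    ∏ k ∈ s.J, IN s.N (φ k))

/-- The sum over the moves is large for some level data. -/
def Ev (φ : Fin n → (ℍ →ᵇ ℝ)) (Ws : (Fin n → ℂ) → Finset (Fin v.M → ℝ)) (t : ℝ)
    (x : Fin n → ℂ) : Prop :=
  ∃ W ∈ Ws (s.sm x), ∃ γ : Fin n → vcjQ s.N, t * v.M ≤
    |s.val v φ (fun k => ((γ k).out : SL(2, ℤ)) * s.hk v x k) (s.lab v x) (s.ct x) W|

/-- The directions `ξ` at `q` correlate with the coarse data `a`. -/
def Cor (φ : Fin n → (ℍ →ᵇ ℝ)) (Ws : (Fin n → ℂ) → Finset (Fin v.M → ℝ)) (t : ℝ) (q : ℕ)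
    (a : Cty n ι v.M) (ξ : ι → Set V2) : Prop :=
  ∃ W ∈ Ws a.1, ∃ γ : Fin n → vcjQ s.N, t * v.M ≤
    |s.val v φ (fun k => ((γ k).out : SL(2, ℤ)) * hq (v.dg k) q (a.2.1 k) (ξ (s.bs k))) a.2.2.2
      (fun c => (a.2.2.1 c).getD UpperHalfPlane.I) W|

/-- Directions along which two different twists correlate. -/
def Bad (φ : Fin n → (ℍ →ᵇ ℝ)) (m : ℕ) (ε : ℝ) (Rn : Finset ℍ) (c : ι)
    (Ls : Fin v.M → Set V2 × Set V2) : Prop :=
  ∃ w ∈ Rn, ∃ q ∈ v.P, ∃ ζ ζ' : s.Cu c → M2,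
    (∀ k : s.Cu c, RPm s.N (v.dg k * q) (ζ k) ∧ RPm s.N (v.dg k * q) (ζ' k)) ∧
    Tw s.N m (s.N * s.dd v * q) q ζ ζ' ∧ ε * v.M <
      |∑ i, (Fz s.N (fun k : s.Cu c => φ k) ζ * Fz s.N (fun k : s.Cu c => φ k) ζ')
        (act (s.rho v i (Ls i)) w)|

/-- A usable prime. -/
def Pm (y q : ℕ) : Prop :=
  q.Prime ∧ y < q ∧ q ≤ 2 * y ∧ ¬ (q : ℤ) ∣ 2 * s.N * v.E * s.dd v

structure Ok (L T : ℝ) (a m₀ y : ℕ) : Prop where
  N_pos : 0 < s.N
  e_pos : 0 < s.e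
  hT : 100 ≤ T
  disc : ∀ k, HasDisc (v.τ k) (v.D k)
  big : ∀ k, v.D k < -576
  Ebig : v.E < -576
  fit : ∀ k ∈ s.J, Fit v.E (s.N ^ 2 * v.D k)
  low : ∀ k ∈ s.J, Low L (v.D k)
  small : ∀ k ∈ s.I \ s.J, -(v.D k : ℝ) ≤ Real.exp T
  large : ∀ k ∈ s.J, Real.exp (T ^ 16) ≤ -(v.D k : ℝ) ∧ Real.log (-(v.D k : ℝ)) ≤ T ^ a
  deg : ∀ k ∈ s.J, 0 < v.dg k ∧ (v.dg k : ℝ) ≤ Real.exp T ∧
    Ig (v.dg k) (jInv (v.τ k)) (jInv (v.τ (s.cr (s.bs k))))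
  sep : ∀ c c', c ≠ c' → ∀ d : ℕ, 0 < d → (d : ℝ) ≤ Real.exp (T ^ 16) →
    ¬ Ig d (jInv (v.τ (s.cr c))) (jInv (v.τ (s.cr c')))
  noi : ∀ k ∈ s.J, ∀ l ∈ s.J, k ≠ l → ∀ d : ℕ, 0 < d → d ≤ m₀ →
    ¬ Ig d (jInv (v.τ k)) (jInv (v.τ l))
  pP : ∀ q ∈ v.P, s.Pm v y q
  pl : ∀ i, s.Pm v y (v.l i) ∧ s.Pm v y (v.l' i) ∧ v.l i ∉ v.P ∧ v.l' i ∉ v.P
  inj : Function.Injective v.l ∧ Function.Injective v.l' ∧ ∀ i j, v.l i ≠ v.l' j
  bP : (4 * (∏ q ∈ v.P, q : ℕ) : ℤ) ∣ v.b ^ 2 - v.E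
  bl : ∀ i, (4 * (v.l i ^ v.R * v.l' i : ℕ) ^ (2 * s.e) : ℤ) ∣ v.b ^ 2 - v.E
  ylo : T ^ 256 ≤ y
  yhi : (y : ℝ) ≤ T ^ a
  ylog : (2 * y + 1 : ℝ) ≤ Real.exp T
  cP : T ^ 12 ≤ #v.P ∧ (#v.P : ℝ) ≤ 2 * T ^ 12
  cM : T ^ 2 ≤ v.M ∧ (v.M : ℝ) ≤ 2 * T ^ 2
  cR : T ^ 2 ≤ v.R ∧ (v.R : ℝ) ≤ 2 * T ^ 2

variable {s v} {L T : ℝ} {a m₀ y : ℕ} {x : Fin n → ℂ} {β : Finset ℕ}

theorem xda_pm {q : ℕ} (h : s.Pm v y q) :
    IsCoprime (q : ℤ) (2 * v.E) ∧ q.Coprime s.N ∧ q.Coprime (s.dd v) := by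
  have hc : IsCoprime (q : ℤ) (2 * s.N * v.E * s.dd v) :=
    (Nat.prime_iff_prime_int.1 h.1).coprime_iff_not_dvd.2 h.2.2.2
  refine ⟨hc.of_isCoprime_of_dvd_right ⟨s.N * s.dd v, by ring⟩, Nat.isCoprime_iff_coprime.1 ?_,
    Nat.isCoprime_iff_coprime.1 ?_⟩
  · exact hc.of_isCoprime_of_dvd_right ⟨2 * v.E * s.dd v, by ring⟩
  · exact hc.of_isCoprime_of_dvd_right ⟨2 * s.N * v.E, by ring⟩

theorem Ok.xda_n (h : s.Ok v L T a m₀ y) (hβ : β ⊆ v.P) :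
    0 < ∏ l ∈ β, l ∧ IsCoprime ((∏ l ∈ β, l : ℕ) : ℤ) (2 * v.E) ∧
      (4 * (∏ l ∈ β, l : ℕ) : ℤ) ∣ v.b ^ 2 - v.E ∧ (∏ l ∈ β, l).Coprime (s.dd v) := by
  refine ⟨prod_pos fun l hl => (h.pP l (hβ hl)).1.pos, ?_, ?_,
    Nat.Coprime.prod_left fun l hl => (xda_pm (h.pP l (hβ hl))).2.2⟩
  · rw [Nat.cast_prod]
    exact IsCoprime.prod_left fun l hl => (xda_pm (h.pP l (hβ hl))).1
  · exact (mul_dvd_mul_left 4 (Int.natCast_dvd_natCast.2
      (prod_dvd_prod_of_subset _ _ _ hβ))).trans h.bP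

theorem Ok.xda_cop (h : s.Ok v L T a m₀ y) (hβ : β ⊆ v.P) {q : ℕ} (hq : q.Prime) (hP : q ∉ v.P) :
    q.Coprime (∏ l ∈ β, l) :=
  Nat.Coprime.prod_right fun l hl => (Nat.coprime_primes hq (h.pP l (hβ hl)).1).2
    fun e => hP (e ▸ hβ hl)

theorem xda_split {a b : ℕ} (hab : a.Coprime b) {K K' : Set V2} (h : IsLn a K) (h' : IsLn b K')
    {η : M2} (e : Ker a η ∩ Ker b η = K ∩ K') : Ker a η = K := by
  obtain ⟨u, -, rfl⟩ := h
  obtain ⟨u', -, rfl⟩ := h'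
  have hs : IsCoprime (b : ℤ) a := Nat.isCoprime_iff_coprime.2 hab.symm
  ext w
  have h1 : (b : ℤ) • w ∈ Ker b η := fun i => by
    rw [Matrix.mulVec_smul]
    exact dvd_mul_right _ _
  have h2 : (b : ℤ) • w ∈ Ln b u' := xlb_mem.2 ⟨u' 0 * w 1 - u' 1 * w 0, by
    simp only [Pi.smul_apply, smul_eq_mul]
    ring⟩
  have h3 : (b : ℤ) • w ∈ Ln a u ↔ w ∈ Ln a u := by
    have e' : u 0 * ((b : ℤ) • w) 1 - u 1 * ((b : ℤ) • w) 0 = b * (u 0 * w 1 - u 1 * w 0) := by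
      simp only [Pi.smul_apply, smul_eq_mul]
      ring
    rw [xlb_mem, xlb_mem, e']
    exact ⟨hs.symm.dvd_of_dvd_mul_left, fun k => k.mul_left _⟩
  have h4 := Set.ext_iff.1 e ((b : ℤ) • w)
  simp only [Set.mem_inter_iff, h1, h2, and_true] at h4
  rw [← xla_smul hs η w, h4, h3]

theorem xda_adj {d : ℕ} {η : M2} (hc : IsCoprime η.det d) (g : M2) (w : V2) :
    w ∈ Ker d g ↔ η.adjugate *ᵥ w ∈ Ker d (g * η) := by
  rw [mem_Ker_mul, Matrix.mulVec_mulVec, Matrix.mul_adjugate, Matrix.smul_mulVec,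
    Matrix.one_mulVec, xla_smul hc]

theorem Ok.ct_disc (h : s.Ok v L T a m₀ y) (hx : x ∈ Orb v.τ) (c : ι) :
    HasDisc (s.ct x c) (v.D (s.cr c)) ∧ Fit v.E (v.D (s.cr c)) := by
  exact ⟨Orb_disc h.disc hx (h.big _), (h.fit _ (s.mem c)).trans (fit_sq h.N_pos _)⟩

theorem Ok.prod_le (h : s.Ok v L T a m₀ y) (hβ : β ⊆ v.P) :
    ((∏ q ∈ β, q : ℕ) : ℝ) ≤ Real.exp (2 * T ^ 13) ∧
      ∑ q ∈ β, (q : ℝ) ^ (-(1 / 4 : ℝ)) ≤ 1 := by
  have hT := h.hT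
  have hT1 : (1 : ℝ) ≤ T := by linarith
  have hT0 : (0 : ℝ) < T := by linarith
  have hc : (#β : ℝ) ≤ 2 * T ^ 12 := (Nat.cast_le.2 (card_le_card hβ)).trans h.cP.2
  constructor
  · rw [Nat.cast_prod]
    calc ∏ q ∈ β, (q : ℝ) ≤ ∏ q ∈ β, Real.exp T := by
          refine prod_le_prod (fun q _ => Nat.cast_nonneg q) fun q hq => ?_
          have h1 : (q : ℝ) ≤ 2 * y := by exact_mod_cast (h.pP q (hβ hq)).2.2.1
          linarith [h.ylog]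
      _ = Real.exp (#β * T) := by rw [prod_const, Real.exp_nat_mul]
      _ ≤ Real.exp (2 * T ^ 13) := by
          refine Real.exp_le_exp.2 ((mul_le_mul_of_nonneg_right hc hT0.le).trans_eq ?_)
          ring
  · have h64 : (0 : ℝ) < T ^ 64 := by positivity
    calc ∑ q ∈ β, (q : ℝ) ^ (-(1 / 4 : ℝ)) ≤ ∑ q ∈ β, (T ^ 64)⁻¹ := by
          refine sum_le_sum fun q hq => ?_
          have h1 : (y : ℝ) ≤ q := by exact_mod_cast (h.pP q (hβ hq)).2.1.le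
          have h2 : (T ^ 64) ^ 4 ≤ (q : ℝ) := by
            rw [← pow_mul]
            exact h.ylo.trans h1
          have h3 := Real.rpow_le_rpow_of_nonpos (by positivity) h2
            (by norm_num : (-(1 / 4 : ℝ)) ≤ 0)
          refine h3.trans_eq ?_
          rw [← Real.rpow_natCast _ 4, ← Real.rpow_mul h64.le]
          norm_num [Real.rpow_neg_one]
      _ = #β * (T ^ 64)⁻¹ := by rw [sum_const, nsmul_eq_mul]
      _ ≤ 1 := by
          rw [← div_eq_mul_inv, div_le_one h64]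
          calc (#β : ℝ) ≤ T * T ^ 12 :=
                hc.trans (mul_le_mul_of_nonneg_right (by linarith) (by positivity))
            _ = T ^ 13 := by ring
            _ ≤ T ^ 64 := pow_le_pow_right₀ hT1 (by norm_num)

theorem Ok.sg_spec (h : s.Ok v L T a m₀ y) (hβ : β ⊆ v.P) (τ : ℍ) (D : ℤ) (η : M2)
    (h₁ : HasDisc τ D) (h₂ : D < -576) (h₃ : Fit v.E D) (h₄ : η.det = (∏ l ∈ β, l : ℕ))
    (h₅ : Ker (∏ l ∈ β, l) (AA v.E v.b τ) ⊆ Ker (∏ l ∈ β, l) η) :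
    v.sg β (jInv τ) = jInv (act η τ) := by
  obtain ⟨n0, nc, nb, -⟩ := h.xda_n hβ
  have e := cm_one h.Ebig n0 nc nb
  rw [VD.sg, dif_pos e]
  exact e.choose_spec τ D η h₁ h₂ h₃ h₄ h₅

theorem Ok.et_spec (h : s.Ok v L T a m₀ y) (hβ : β ⊆ v.P) (hx : x ∈ Orb v.τ) (c : ι) :
    (s.et v β x c).det = (∏ l ∈ β, l : ℕ) ∧
      (∀ l ∈ β, Ker l (s.et v β x c) = Ker l (s.A v x c)) ∧
      act (s.et v β x c) (s.ct x c) = s.ct (v.mv β x) c ∧
      s.et v β x c * s.A v x c = s.A v (v.mv β x) c * s.et v β x c := by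
  obtain ⟨n0, nc, nb, -⟩ := h.xda_n hβ
  obtain ⟨hd, hf⟩ := h.ct_disc hx c
  have nb' := (dvd_mul_left _ 4).trans nb
  have hex : ∃ η : M2, η.det = (∏ l ∈ β, l : ℕ) ∧
      Ker (∏ l ∈ β, l) (s.A v x c) ⊆ Ker (∏ l ∈ β, l) η ∧
      act η (s.ct x c) = s.ct (v.mv β x) c := by
    obtain ⟨η, hη, hk⟩ := (AA_line hd hf n0 nc nb').exists_mat n0
    have e1 := h.sg_spec hβ _ _ η hd (h.big _) hf hη hk.ge
    have e2 : jInv (act η (s.ct x c)) = jInv (s.ct (v.mv β x) c) := by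
      rw [← e1, ct, ct, (fr_spec _).2, (fr_spec _).2]
      rfl
    obtain ⟨γ, hγ⟩ := jInv_inj e2
    refine ⟨(γ : M2) * η, by rw [Matrix.det_mul, γ.det_coe, one_mul, hη], ?_, ?_⟩
    · rw [Ker_SL, hk]
      exact subset_rfl
    · rw [act_mul (by rw [γ.det_coe]; exact one_pos) (by rw [hη]; exact_mod_cast n0), act_SL, hγ]
  have hs := hex.choose_spec
  have he : s.et v β x c = hex.choose := by rw [et, dif_pos hex]
  rw [← he] at hs
  obtain ⟨h1, h2, h3⟩ := hs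
  refine ⟨h1, fun l hl => ?_, h3, ?_⟩
  · have hp := (h.pP l (hβ hl)).1
    have hm := mul_prod_erase β (fun l => l) hl
    have hcop : l.Coprime (∏ q ∈ β.erase l, q) :=
      Nat.Coprime.prod_right fun q hq => (Nat.coprime_primes hp
        (h.pP q (hβ (mem_of_mem_erase hq))).1).2 (ne_of_mem_erase hq).symm
    generalize ∏ q ∈ β.erase l, q = m at hm hcop
    have hln : l ∣ ∏ q ∈ β, q := ⟨m, hm.symm⟩
    have hl1 : IsLn l (Ker l (s.A v x c)) := AA_line hd hf hp.pos (xda_pm (h.pP l (hβ hl))).1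
      ((Int.natCast_dvd_natCast.2 hln).trans nb')
    have hl2 : IsLn l (Ker l (s.et v β x c)) := by
      refine isLn_Ker_prime hp (by rw [h1]; exact Int.natCast_dvd_natCast.2 hln) fun hh => ?_
      rw [h1, ← hm, ← Nat.cast_pow, Int.natCast_dvd_natCast, sq] at hh
      exact hp.one_lt.ne' (hcop.eq_one_of_dvd (Nat.dvd_of_mul_dvd_mul_left hp.pos hh))
    refine (hl1.eq_of_le hl2 fun w hw => ?_).symm
    rw [← xla_smul (Nat.isCoprime_iff_coprime.2 hcop.symm)]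
    refine Ker_anti hln _ (h2 fun i => ?_)
    rw [← hm, Matrix.mulVec_smul, Pi.smul_apply, smul_eq_mul, Nat.cast_mul, mul_comm]
    exact mul_dvd_mul_left _ (hw i)
  · obtain ⟨hd', hf'⟩ := h.ct_disc (Orb_map h.disc hx (v.sg β)) c
    have := AA_com hd hf (η := s.et v β x c) (by rw [h1]; exact_mod_cast n0)
      (by rw [h3]; exact hd') hf' v.b
    rw [h3] at this
    exact this

theorem Ok.hk_spec (h : s.Ok v L T a m₀ y) (hx : x ∈ Orb v.τ) {k : Fin n} (hk : k ∈ s.J) :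
    s.hk v x k ∈ Hn (v.dg k) ∧ jInv (act (s.hk v x k) (s.ct x (s.bs k))) = x k := by
  have hex : ∃ g ∈ Hn (v.dg k), jInv (act g (s.ct x (s.bs k))) = x k := by
    obtain ⟨σ, rfl⟩ := (mem_Orb h.disc).1 hx
    obtain ⟨d0, -, hi⟩ := h.deg k hk
    refine Ig.exists_Hn d0 ?_
    rw [ct, (fr_spec _).2]
    exact hi.gal d0 σ
  rw [Shp.hk, dif_pos hex]
  exact hex.choose_spec

theorem Ok.hk_move (h : s.Ok v L T a m₀ y) (hβ : β ⊆ v.P) (hx : x ∈ Orb v.τ) {k : Fin n}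
    (hk : k ∈ s.J) : Ker (v.dg k) (s.hk v (v.mv β x) k * s.et v β x (s.bs k)) =
      Ker (v.dg k) (s.hk v x k) := by
  obtain ⟨n0, nc, nb, nd⟩ := h.xda_n hβ
  obtain ⟨hd, hf⟩ := h.ct_disc hx (s.bs k)
  obtain ⟨g1, g2⟩ := h.hk_spec hx hk
  obtain ⟨g1', g2'⟩ := h.hk_spec (x := v.mv β x) (Orb_map h.disc hx (v.sg β)) hk
  obtain ⟨e1, -, e3, -⟩ := h.et_spec hβ hx (s.bs k)
  obtain ⟨d0, gd⟩ := mem_Hn g1
  have gd' := (mem_Hn g1').2
  have n0' : (0 : ℤ) < (∏ l ∈ β, l : ℕ) := by exact_mod_cast n0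
  have d0' : (0 : ℤ) < v.dg k := by exact_mod_cast d0
  have ht1 : HasDisc (act (s.hk v x k) (s.ct x (s.bs k))) (v.D k) := by
    obtain ⟨σ, hσ⟩ := (mem_Orb h.disc).1 hx
    exact disc_of_gal (h.disc k) (h.big k) (g2.trans (congrFun hσ k))
  have hf1 : Fit v.E (v.D k) := (h.fit k hk).trans (fit_sq h.N_pos _)
  obtain ⟨η, hη, hke⟩ := (AA_line ht1 hf1 n0 nc ((dvd_mul_left _ 4).trans nb)).exists_mat n0
  have e4 := h.sg_spec hβ _ _ η ht1 (h.big _) hf1 hη hke.ge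
  have e5 : jInv (act (η * s.hk v x k) (s.ct x (s.bs k))) =
      jInv (act (s.hk v (v.mv β x) k * s.et v β x (s.bs k)) (s.ct x (s.bs k))) := by
    rw [act_mul (by rwa [hη]) (by rwa [gd]), act_mul (by rwa [gd']) (by rwa [e1]), e3, g2', ← e4,
      g2]
    rfl
  have hb : 4 * ((v.dg k * ∏ l ∈ β, l : ℕ) : ℤ) ^ 2 < -v.D (s.cr (s.bs k)) := by
    have hT := h.hT
    have b1 := (h.prod_le hβ).1
    have b2 := (h.deg k hk).2.1
    have b3 := (h.large _ (s.mem (s.bs k))).1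
    have b4 : ((v.dg k * ∏ l ∈ β, l : ℕ) : ℝ) ≤ Real.exp (T + 2 * T ^ 13) := by
      rw [Nat.cast_mul, Real.exp_add]
      exact mul_le_mul b2 b1 (Nat.cast_nonneg _) (Real.exp_pos _).le
    have b5 : (4 : ℝ) ≤ Real.exp 3 := by linarith [Real.add_one_le_exp 3]
    have b6 : 3 + 2 * (T + 2 * T ^ 13) < T ^ 16 := by
      have c1 : T ≤ T ^ 13 := le_self_pow₀ (by linarith) (by norm_num)
      have c2 : T ^ 14 ≤ T ^ 16 := pow_le_pow_right₀ (by linarith) (by norm_num)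
      have c3 : 100 * T ^ 13 ≤ T ^ 14 := by
        rw [pow_succ' T 13]
        exact mul_le_mul_of_nonneg_right hT (by positivity)
      linarith
    have b7 : 4 * ((v.dg k * ∏ l ∈ β, l : ℕ) : ℝ) ^ 2 < -(v.D (s.cr (s.bs k)) : ℝ) :=
      calc 4 * ((v.dg k * ∏ l ∈ β, l : ℕ) : ℝ) ^ 2
          ≤ Real.exp 3 * Real.exp (T + 2 * T ^ 13) ^ 2 := by gcongr
        _ = Real.exp (3 + 2 * (T + 2 * T ^ 13)) := by
            rw [Real.exp_add 3, ← Real.exp_nat_mul, Nat.cast_ofNat]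
        _ < Real.exp (T ^ 16) := Real.exp_lt_exp.2 b6
        _ ≤ _ := b3
    exact_mod_cast b7
  obtain ⟨γ, hγ⟩ := iso_unique hd (Nat.mul_pos d0 n0)
    (by rw [Matrix.det_mul, hη, gd, Nat.cast_mul, mul_comm])
    (by rw [Matrix.det_mul, gd', e1, Nat.cast_mul]) hb e5
  rw [hγ, Ker_SL, Ker_cop]
  rw [hη]
  exact Nat.isCoprime_iff_coprime.2 (nd.coprime_dvd_right (dvd_prod_of_mem _ hk))

theorem Ok.lab_mem (h : s.Ok v L T a m₀ y) (hx : x ∈ Orb v.τ) (c : ι) (i : Fin v.M) :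
    s.lab v x c i ∈ s.Xi v i := by
  obtain ⟨hd, hf⟩ := h.ct_disc hx c
  obtain ⟨p1, p2, -⟩ := h.pl i
  have hb := (dvd_mul_left _ 4).trans (h.bl i)
  have e : ((v.l i ^ v.R * v.l' i : ℕ) : ℤ) ^ (2 * s.e) = (s.a₁ v i : ℤ) * s.a₂ v i := by
    rw [a₁, a₂]
    push_cast
    ring
  rw [e] at hb
  have a1 : 0 < s.a₁ v i := pow_pos p1.1.pos _
  have a2 : 0 < s.a₂ v i := pow_pos p2.1.pos _
  refine mem_product.2 ⟨(mem_Xn a1).2 (AA_line hd hf a1 ?_ ((dvd_mul_right _ _).trans hb)),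
    (mem_Xn a2).2 (AA_line hd hf a2 ?_ ((dvd_mul_left _ _).trans hb))⟩
  · rw [a₁, Nat.cast_pow]
    exact (xda_pm p1).1.pow_left
  · rw [a₂, Nat.cast_pow]
    exact (xda_pm p2).1.pow_left

theorem Ok.rho_spec (h : s.Ok v L T a m₀ y) (i : Fin v.M) {K : Set V2 × Set V2}
    (hK : K ∈ s.Xi v i) : s.IsRho v i K (s.rho v i K) := by
  obtain ⟨p1, p2, q1, q2⟩ := h.pl i
  have a1 : 0 < s.a₁ v i := pow_pos p1.1.pos _
  have a2 : 0 < s.a₂ v i := pow_pos p2.1.pos _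
  obtain ⟨k1, k2⟩ := mem_product.1 hK
  rw [mem_Xn a1] at k1
  rw [mem_Xn a2] at k2
  have hab : (s.a₁ v i).Coprime (s.a₂ v i) :=
    Nat.Coprime.pow _ _ ((Nat.coprime_primes p1.1 p2.1).2 (h.inj.2.2 i i))
  have hM : 0 < s.MM v := Nat.mul_pos (Nat.mul_pos h.N_pos (prod_pos fun k hk => (h.deg k hk).1))
    (h.xda_n subset_rfl).1
  have hc : ∀ q, s.Pm v y q → q ∉ v.P → IsCoprime (q : ℤ) (s.MM v) := fun q hq hP =>
    Nat.isCoprime_iff_coprime.2 (((xda_pm hq).2.1.mul_right (xda_pm hq).2.2).mul_right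
      (h.xda_cop subset_rfl hq.1 hP))
  have hex : ∃ ρ, s.IsRho v i K ρ := by
    obtain ⟨η, e1, e2, e3⟩ := (k1.inter hab a1 a2 k2).exists_Cg (Nat.mul_pos a1 a2) hM
      (s := (v.l i : ℤ) ^ (s.e * v.R) * (v.l' i : ℤ) ^ s.e)
      ((hc _ p1 q1).pow_left.mul_left (hc _ p2 q2).pow_left)
      ⟨0, by rw [a₁, a₂]; push_cast; ring⟩
    rw [Ker_inter hab] at e2
    refine ⟨η, e1, xda_split hab k1 k2 e2, xda_split hab.symm k2 k1 ?_, e3⟩
    rw [Set.inter_comm, e2, Set.inter_comm]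
  rw [rho, dif_pos hex]
  exact hex.choose_spec

theorem Ok.aux (h : s.Ok v L T a m₀ y) (hβ : β ⊆ v.P) (hx : x ∈ Orb v.τ) {x' : Fin n → ℂ}
    (hx' : x' ∈ Orb v.τ) {U : ℝ} {cl : ℍ → ℍ} (e₁ : s.C0 v U cl x = s.C0 v U cl x')
    (e₂ : s.et v β x = s.et v β x')
    (e₃ : ∀ c, cel U cl (s.ct (v.mv β x) c) = cel U cl (s.ct (v.mv β x') c)) :
    s.C0 v U cl (v.mv β x) = s.C0 v U cl (v.mv β x') := by
  obtain ⟨n0, nc, nb, nd⟩ := h.xda_n hβ
  have f1 : s.sm x = s.sm x' := congrArg (fun z => z.1) e₁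
  have f2 : (fun k => if k ∈ s.J then s.hk v x k else 0) =
      fun k => if k ∈ s.J then s.hk v x' k else 0 := congrArg (fun z => z.2.1) e₁
  have f4 : s.lab v x = s.lab v x' := congrArg (fun z => z.2.2.2) e₁
  have hy := Orb_map h.disc hx (v.sg β)
  have hy' := Orb_map h.disc hx' (v.sg β)
  refine Prod.ext ?_ (Prod.ext ?_ (Prod.ext (funext e₃) ?_))
  · funext k
    have := congrFun f1 k
    show (if k ∈ s.I \ s.J then v.sg β (x k) else 0) = if k ∈ s.I \ s.J then v.sg β (x' k) else 0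
    by_cases hk : k ∈ s.I \ s.J
    · rw [sm, sm, if_pos hk, if_pos hk] at this
      rw [this]
    · rw [if_neg hk, if_neg hk]
  · funext k
    show (if k ∈ s.J then s.hk v (v.mv β x) k else 0) =
      if k ∈ s.J then s.hk v (v.mv β x') k else 0
    by_cases hk : k ∈ s.J
    · have g0 := congrFun f2 k
      simp only [if_pos hk] at g0
      rw [if_pos hk, if_pos hk]
      have g1 := (h.hk_spec (x := v.mv β x) hy hk).1
      have g2 := (h.hk_spec (x := v.mv β x') hy' hk).1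
      have m1 := h.hk_move hβ hx hk
      have m2 := h.hk_move hβ hx' hk
      rw [← e₂, ← g0, ← m1] at m2
      have hc : IsCoprime (s.et v β x (s.bs k)).det (v.dg k) := by
        rw [(h.et_spec hβ hx _).1]
        exact Nat.isCoprime_iff_coprime.2 (nd.coprime_dvd_right (dvd_prod_of_mem _ hk))
      obtain ⟨γ, hγ⟩ := exists_SL_of_Ker (mem_Hn g1).1 (mem_Hn g1).2 (mem_Hn g2).2 fun w hw => by
        rw [xda_adj hc] at hw ⊢
        rwa [m2]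
      exact (Hn_unique g1 g2 hγ).symm
    · rw [if_neg hk, if_neg hk]
  · funext c i
    obtain ⟨p1, p2, q1, q2⟩ := h.pl i
    obtain ⟨t1, -, -, t2⟩ := h.et_spec hβ hx c
    obtain ⟨-, -, -, t3⟩ := h.et_spec hβ hx' c
    rw [← e₂] at t3
    have key : ∀ q j : ℕ, q.Prime → q ∉ v.P →
        Ker (q ^ j) (s.A v x c) = Ker (q ^ j) (s.A v x' c) →
        Ker (q ^ j) (s.A v (v.mv β x) c) = Ker (q ^ j) (s.A v (v.mv β x') c) := by
      intro q j hq hP e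
      have hc : IsCoprime (s.et v β x c).det (q ^ j : ℕ) := by
        rw [t1]
        exact Nat.isCoprime_iff_coprime.2 ((h.xda_cop hβ hq hP).symm.pow_right _)
      ext w
      rw [(Ker_com t2 hc w).2, (Ker_com t3 hc w).2, e]
    have f5 := congrFun (congrFun f4 c) i
    exact Prod.ext (key _ _ p1.1 q1 (congrArg Prod.fst f5)) (key _ _ p2.1 q2 (congrArg Prod.snd f5))

end Shp

end Pool.Agent.EQ
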