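import Pool.Agent.P.MP_ad7a55_nt.XKm
import Pool.Agent.P.MP_ad7a55_nt.XLb

/-! Bounded matrices of prime power determinant in a set of residue classes. -/

set_option autoImplicit false

noncomputable section

open Finset
open scoped Classical MatrixGroups

namespace Pool.Agent.EQ

theorem xkc_pos {ι : Type} {M X l k : ℕ} {D Λ : ℝ} (hM : 0 < M) (hl : l.Prime) (hΛ : 1 ≤ Λ)
    (hD : 1 ≤ D) (hτ : ∀ c : ℕ, 0 < c → c ≤ X → (#c.divisors : ℝ) ≤ D)
    (hX : 2 * (M : ℝ) ^ 36 * D ^ 7 ≤ X) (R T : Finset ι) (a b c d : ι → ℤ) (n : ℤ)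
    (hn : n.natAbs = l ^ k)
    (inj : ∀ i j, a i = a j → b i = b j → c i = c j → d i = d j → i = j)
    (h : ∀ i ∈ T, a i * d i - b i * c i = n ∧ |a i| ≤ X ∧ |c i| ≤ X ∧ |d i| ≤ X ∧
      X ≤ Λ * |(c i : ℝ)| ∧ ∃ r ∈ R, (M : ℤ) ∣ a i - a r ∧ (M : ℤ) ∣ b i - b r ∧
        (M : ℤ) ∣ c i - c r ∧ (M : ℤ) ∣ d i - d r) :
    (#T : ℝ) ≤ 480 * Λ * (X : ℝ) ^ 2 * (#R / (M : ℝ) ^ 3 + k / l) := by
  have hX0 : (0 : ℝ) < X := lt_of_lt_of_le (by positivity) hX
  rw [← card_filter_add_card_filter_not (s := T) (fun i => IsCoprime (c i) n), Nat.cast_add]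
  have P1 : (#(T.filter fun i => IsCoprime (c i) n) : ℝ) ≤
      #R * (480 * Λ * (X : ℝ) ^ 2 / (M : ℝ) ^ 3) := by
    have h1 : (T.filter fun i => IsCoprime (c i) n) ⊆ R.biUnion fun r =>
        (T.filter fun i => IsCoprime (c i) n).filter fun i => (M : ℤ) ∣ a i - a r ∧
          (M : ℤ) ∣ b i - b r ∧ (M : ℤ) ∣ c i - c r ∧ (M : ℤ) ∣ d i - d r := fun i hi => by
      obtain ⟨r, hr, e⟩ := (h i (mem_filter.1 hi).1).2.2.2.2.2
      exact mem_biUnion.2 ⟨r, hr, mem_filter.2 ⟨hi, e⟩⟩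
    refine ((Nat.cast_le (α := ℝ)).2 ((card_le_card h1).trans card_biUnion_le)).trans ?_
    rw [Nat.cast_sum, ← nsmul_eq_mul]
    refine sum_le_card_nsmul _ _ _ fun r _ => xkm_quad hM hΛ hD hτ hX _ a b c d n (a r) (b r) (c r)
      (d r) (fun i _ j _ => inj i j) fun i hi => ?_
    obtain ⟨i1, i2, i3, i4, i5⟩ := mem_filter.1 hi
    obtain ⟨i6, i7⟩ := mem_filter.1 i1
    obtain ⟨j1, j2, j3, j4, j5, -⟩ := h i i6
    exact ⟨j1, j2, j3, j4, i2, i3, i4, i5, j5, i7⟩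
  have P2 := xkm_bad (X := X) hl hΛ (T.filter fun i => ¬ IsCoprime (c i) n) a b c d n hn
    (fun i _ j _ => inj i j) fun i hi => by
      obtain ⟨i6, i7⟩ := mem_filter.1 hi
      obtain ⟨j1, j2, j3, j4, j5, -⟩ := h i i6
      refine ⟨j1, j2, j3, j4, fun e => ?_, j5, i7⟩
      rw [e, Int.cast_zero, abs_zero, mul_zero] at j5
      linarith
  calc _ ≤ #R * (480 * Λ * (X : ℝ) ^ 2 / (M : ℝ) ^ 3) + 480 * k * Λ * (X : ℝ) ^ 2 / l :=
        add_le_add P1 (P2.trans (by gcongr; norm_num))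
    _ = _ := by ring

theorem xkc_big (η : M2) {n : ℝ} (h : (η.det : ℝ) = n) (hn : 0 < n) :
    ∃ i j, √n ≤ 2 * |(η i j : ℝ)| := by
  by_contra hc
  have h1 : ∀ i j, (η i j : ℝ) ^ 2 < n / 4 := fun i j => by
    have h2 : 2 * |(η i j : ℝ)| < √n := not_le.1 fun e => hc ⟨i, j, e⟩
    have h3 := Real.sq_sqrt hn.le
    have h4 := sq_abs (η i j : ℝ)
    nlinarith [abs_nonneg (η i j : ℝ)]
  rw [Matrix.det_fin_two] at h
  push_cast at h
  nlinarith [h1 0 0, h1 0 1, h1 1 0, h1 1 1, sq_nonneg ((η 0 0 : ℝ) - η 1 1),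
    sq_nonneg ((η 0 1 : ℝ) + η 1 0)]

theorem xkc_triv (X : ℕ) (T : Finset M2) (h : ∀ η ∈ T, ∀ i j, |η i j| ≤ X) :
    #T ≤ (2 * X + 1) ^ 4 := by
  refine le_trans (card_le_card_of_injOn (t := (Icc (-(X : ℤ)) X ×ˢ Icc (-(X : ℤ)) X) ×ˢ
    Icc (-(X : ℤ)) X ×ˢ Icc (-(X : ℤ)) X) (fun η => ((η 0 0, η 0 1), η 1 0, η 1 1))
    (fun η hη => ?_) fun η _ ζ _ e => ?_) (le_of_eq ?_)
  · have h1 := fun i j => mem_Icc.2 (abs_le.1 (h η hη i j))
    exact mem_coe.2 (mem_product.2 ⟨mem_product.2 ⟨h1 _ _, h1 _ _⟩, mem_product.2 ⟨h1 _ _, h1 _ _⟩⟩)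
  · simp only [Prod.mk.injEq] at e
    ext i j
    fin_cases i <;> fin_cases j <;> simp [e]
  · simp only [card_product, Int.card_Icc, show ((X : ℤ) + 1 - -(X : ℤ)).toNat = 2 * X + 1 by omega]
    ring

theorem cls_total {H : ℝ} (hH : 1 ≤ H) : ∃ (C : ℝ) (a : ℕ), 0 < C ∧ ∀ (l k M : ℕ) (R T : Finset M2),
    l.Prime → 0 < M → ¬ l ∣ M → M ^ a ≤ l ^ k →
    (∀ η ∈ T, η.det = (l ^ k : ℕ) ∧ (∀ i j, |(η i j : ℝ)| ≤ H * Real.sqrt (l ^ k : ℕ)) ∧
      ∃ η₀ ∈ R, ∀ i j, (M : ℤ) ∣ η i j - η₀ i j) →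
    (#T : ℝ) ≤ C * (l ^ k : ℕ) * (#R / (M : ℝ) ^ 3 + k / l) := by
  obtain ⟨C, hC, hd⟩ := div_bound (ε := 1 / 14) (by norm_num)
  obtain ⟨K, hK⟩ := exists_nat_ge (4 * (C + 1) ^ 14)
  have hK0 : (1 : ℝ) ≤ K := by
    have : (1 : ℝ) ≤ (C + 1) ^ 14 := one_le_pow₀ (by linarith)
    linarith
  refine ⟨3840 * H ^ 3 + (2 * (H * K) + 1) ^ 4, 144 + 2 * K, by positivity,
    fun l k M R T hl hM _ hn h => ?_⟩
  obtain ⟨n, hnn⟩ : ∃ n, l ^ k = n := ⟨_, rfl⟩
  rw [hnn] at hn h ⊢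
  have hn0 : 0 < n := hnn ▸ pow_pos hl.pos k
  have hn1 : (1 : ℝ) ≤ n := by exact_mod_cast hn0
  have hs := Real.sq_sqrt (show (0 : ℝ) ≤ n by linarith)
  have hs0 := Real.sqrt_nonneg (n : ℝ)
  obtain ⟨X, hX⟩ : ∃ X, X = ⌊H * √(n : ℝ)⌋₊ := ⟨_, rfl⟩
  have hX1 : (X : ℝ) ≤ H * √(n : ℝ) := hX ▸ Nat.floor_le (by positivity)
  have hb : ∀ η ∈ T, ∀ i j, |η i j| ≤ X := fun η hη i j => by
    have : (η i j).natAbs ≤ X := hX ▸ Nat.le_floor (by
      rw [Nat.cast_natAbs, Int.cast_abs]; exact (h η hη).2.1 i j)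
    rw [← Int.natCast_natAbs]
    exact_mod_cast this
  have hE : 0 ≤ (#R : ℝ) / (M : ℝ) ^ 3 + k / l := by positivity
  rcases le_or_gt ((K * M ^ 72) ^ 2) n with h1 | h1
  · have h2 : ((K * M ^ 72 : ℕ) : ℝ) ≤ X := by
      rw [hX]
      exact_mod_cast Nat.le_floor ((Real.le_sqrt_of_sq_le (by exact_mod_cast h1)).trans
        (le_mul_of_one_le_left hs0 hH))
    push_cast at h2
    have hM1 : (1 : ℝ) ≤ M := by exact_mod_cast hM
    have hX2 : (1 : ℝ) ≤ X := (one_le_mul_of_one_le_of_one_le hK0 (one_le_pow₀ hM1)).trans h2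
    have hu : ((X : ℝ) ^ (1 / 14 : ℝ)) ^ 14 = X := by
      rw [← Real.rpow_natCast, ← Real.rpow_mul (by positivity)]
      norm_num
    have hu1 : 1 ≤ (X : ℝ) ^ (1 / 14 : ℝ) := Real.one_le_rpow hX2 (by norm_num)
    have hτ : ∀ c : ℕ, 0 < c → c ≤ X → (#c.divisors : ℝ) ≤ (C + 1) * (X : ℝ) ^ (1 / 14 : ℝ) :=
      fun c c0 c1 => (hd c c0).trans (by gcongr; linarith)
    generalize (X : ℝ) ^ (1 / 14 : ℝ) = u at hu hu1 hτ
    have hD : 1 ≤ (C + 1) * u := one_le_mul_of_one_le_of_one_le (by linarith) hu1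
    have h3 : 2 * (M : ℝ) ^ 36 * ((C + 1) * u) ^ 7 ≤ X := by
      refine le_of_pow_le_pow_left₀ two_ne_zero (by positivity) ?_
      calc _ = (4 * (C + 1) ^ 14 * (M : ℝ) ^ 72) * u ^ 14 := by ring
        _ ≤ (K * (M : ℝ) ^ 72) * u ^ 14 := by gcongr
        _ ≤ X * u ^ 14 := by gcongr
        _ = _ := by rw [hu, sq]
    have key : ∀ (i j i' j' p q p' q' : Fin 2) (m : ℤ), m.natAbs = n →
        (∀ η : M2, η.det = n → η p q * η p' q' - η i' j' * η i j = m) →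
        (∀ η ζ : M2, η p q = ζ p q → η i' j' = ζ i' j' → η i j = ζ i j → η p' q' = ζ p' q' → η = ζ) →
        (#(T.filter fun η => √(n : ℝ) ≤ 2 * |(η i j : ℝ)|) : ℝ) ≤
          960 * H ^ 3 * n * (#R / (M : ℝ) ^ 3 + k / l) := fun i j i' j' p q p' q' m hm e inj => by
      refine (xkc_pos (Λ := 2 * H) hM hl (by linarith) hD hτ h3 R _ (fun η => η p q)
        (fun η => η i' j') (fun η => η i j) (fun η => η p' q') m (hm.trans hnn.symm) inj
        fun η hη => ?_).trans (mul_le_mul_of_nonneg_right ?_ hE)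
      · obtain ⟨h4, h5⟩ := mem_filter.1 hη
        obtain ⟨h6, -, r, hr, h7⟩ := h η h4
        refine ⟨e η h6, hb η h4 _ _, hb η h4 _ _, hb η h4 _ _, hX1.trans ?_, r, hr, h7 _ _, h7 _ _,
          h7 _ _, h7 _ _⟩
        nlinarith
      · calc _ ≤ 480 * (2 * H) * (H * √(n : ℝ)) ^ 2 := by gcongr
          _ = _ := by rw [mul_pow, hs]; ring
    have ex : ∀ η ζ : M2, η 0 0 = ζ 0 0 → η 0 1 = ζ 0 1 → η 1 0 = ζ 1 0 → η 1 1 = ζ 1 1 → η = ζ :=
      fun η ζ a b c d => by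
        ext i j
        fin_cases i <;> fin_cases j <;> assumption
    have all : ∀ z : Fin 2 × Fin 2, (#(T.filter fun η => √(n : ℝ) ≤ 2 * |(η z.1 z.2 : ℝ)|) : ℝ) ≤
        960 * H ^ 3 * n * (#R / (M : ℝ) ^ 3 + k / l) := fun ⟨i, j⟩ => by
      fin_cases i <;> fin_cases j
      · exact key 0 0 1 1 0 1 1 0 (-n) (by simp) (fun η e => by
          rw [Matrix.det_fin_two] at e; linear_combination -e) fun η ζ a b c d => ex η ζ c a d b
      · exact key 0 1 1 0 0 0 1 1 n (by simp) (fun η e => by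
          rw [Matrix.det_fin_two] at e; linear_combination e) fun η ζ a b c d => ex η ζ a c b d
      · exact key 1 0 0 1 0 0 1 1 n (by simp) (fun η e => by
          rw [Matrix.det_fin_two] at e; linear_combination e) fun η ζ a b c d => ex η ζ a b c d
      · exact key 1 1 0 0 0 1 1 0 (-n) (by simp) (fun η e => by
          rw [Matrix.det_fin_two] at e; linear_combination -e) fun η ζ a b c d => ex η ζ b a d c
    have h4 : T ⊆ univ.biUnion fun z : Fin 2 × Fin 2 =>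
        T.filter fun η => √(n : ℝ) ≤ 2 * |(η z.1 z.2 : ℝ)| := fun η hη => by
      obtain ⟨i, j, e⟩ := xkc_big η (n := n) (by exact_mod_cast (h η hη).1) (by linarith)
      exact mem_biUnion.2 ⟨(i, j), mem_univ _, mem_filter.2 ⟨hη, e⟩⟩
    refine ((Nat.cast_le (α := ℝ)).2 ((card_le_card h4).trans card_biUnion_le)).trans ?_
    rw [Nat.cast_sum]
    refine (sum_le_card_nsmul _ _ _ fun z _ => all z).trans ?_
    simp only [card_univ, Fintype.card_prod, Fintype.card_fin, nsmul_eq_mul]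
    have : 0 ≤ (2 * (H * K) + 1) ^ 4 * n * (#R / (M : ℝ) ^ 3 + k / l) := by positivity
    push_cast
    nlinarith
  · have hM1 : M = 1 := by
      by_contra e
      have h2 : K ≤ M ^ K := (Nat.lt_pow_self (by omega)).le
      have h3 : (K * M ^ 72) ^ 2 ≤ (M ^ K * M ^ 72) ^ 2 := by gcongr
      rw [show (M ^ K * M ^ 72) ^ 2 = M ^ (144 + 2 * K) by ring] at h3
      omega
    subst hM1
    rcases T.eq_empty_or_nonempty with e | ⟨η, hη⟩
    · rw [e, card_empty, Nat.cast_zero]; positivity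
    obtain ⟨-, -, r, hr, -⟩ := h η hη
    have h2 : (1 : ℝ) ≤ #R := by exact_mod_cast card_pos.2 ⟨r, hr⟩
    have h3 : √(n : ℝ) ≤ K := Real.sqrt_le_iff.2 ⟨by positivity, by
      rw [one_pow, mul_one] at h1; exact_mod_cast h1.le⟩
    have h4 : (#T : ℝ) ≤ (2 * X + 1) ^ 4 := by exact_mod_cast xkc_triv X T hb
    have h5 : (1 : ℝ) ≤ #R / ((1 : ℕ) : ℝ) ^ 3 + k / l := by
      have : (0 : ℝ) ≤ k / l := by positivity
      simp only [Nat.cast_one, one_pow, div_one]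
      linarith
    calc _ ≤ (2 * (H * K) + 1) ^ 4 := h4.trans (by gcongr; exact hX1.trans (by gcongr))
      _ ≤ (3840 * H ^ 3 + (2 * (H * K) + 1) ^ 4) * 1 * 1 := by
          have : 0 ≤ H ^ 3 := by positivity
          linarith
      _ ≤ _ := by gcongr

theorem index_Gamma_le {M : ℕ} (hM : 0 < M) : (CongruenceSubgroup.Gamma M).index ≤ M ^ 3 := by
  have : NeZero M := ⟨hM.ne'⟩
  rw [CongruenceSubgroup.Gamma, Subgroup.index_ker]
  refine (Nat.card_le_card_of_injective _ Subtype.val_injective).trans ?_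
  rw [Nat.card_eq_fintype_card, ← card_univ]
  have h := xkm_fib (univ : Finset SL(2, ZMod M)) (univ : Finset (ZMod M × ZMod M))
    (fun g => (g 0 0, g 0 1)) (fun _ _ => mem_univ _) (B := M) (by positivity) fun x _ U hU => by
      have h1 : #U ≤ #(univ : Finset (ZMod M)) := card_le_card_of_injOn
        (fun y => y 1 0 * x 1 1 - y 1 1 * x 1 0) (fun _ _ => mem_coe.2 (mem_univ _))
        fun y hy z hz e => by
          obtain ⟨y1, y2⟩ := Prod.mk.inj (hU y hy).2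
          obtain ⟨z1, z2⟩ := Prod.mk.inj (hU z hz).2
          have dx := x.det_coe
          have dy := y.det_coe
          have dz := z.det_coe
          rw [Matrix.det_fin_two] at dx dy dz
          rw [y1, y2] at dy
          rw [z1, z2] at dz
          have e' : y 1 0 * x 1 1 - y 1 1 * x 1 0 = z 1 0 * x 1 1 - z 1 1 * x 1 0 := e
          ext i j
          fin_cases i <;> fin_cases j
          · exact y1.trans z1.symm
          · exact y2.trans z2.symm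
          · show y 1 0 = z 1 0
            linear_combination x 0 0 * e' - (y 1 0 - z 1 0) * dx + x 1 0 * (dy - dz)
          · show y 1 1 = z 1 1
            linear_combination x 0 1 * e' - (y 1 1 - z 1 1) * dx + x 1 1 * (dy - dz)
      rw [card_univ, ZMod.card] at h1
      exact_mod_cast h1
  rw [card_univ (α := ZMod M × ZMod M), Fintype.card_prod, ZMod.card] at h
  have h2 : #(univ : Finset SL(2, ZMod M)) ≤ M * M * M := by exact_mod_cast h
  exact h2.trans (le_of_eq (by ring))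

end Pool.Agent.EQ
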