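import Pool.Agent.P.MP_ad7a55_nt.XDa
import Pool.Agent.P.MP_ad7a55_nt.VEv
import Pool.Agent.P.MP_ad7a55_nt.XKc
import Pool.Agent.P.MP_ad7a55_nt.CtF

/-! Reduction to sums over the moves. -/

set_option autoImplicit false

noncomputable section

open MeasureTheory Topology Filter UpperHalfPlane Finset
open scoped MatrixGroups BoundedContinuousFunction Matrix Classical

namespace Pool.Agent.EQ

theorem xdb_card {κ : Type} (F : IntermediateField ℚ ℂ) [FiniteDimensional ℚ F] {x : κ → ℂ}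
    (h : (galO F x).Finite) :
    (galO ⊥ x).Finite ∧ (galO ⊥ x).ncard ≤ Module.finrank ℚ F * (galO F x).ncard := by
  have key := ctf_cover (S := galO ⊥ x) (T := (Set.univ : Set (F →ₐ[ℚ] ℂ))) Set.finite_univ
    (fun φ => {z | ∃ σ : ℂ ≃+* ℂ, (∀ a : F, σ a = φ a) ∧ z = fun k => σ (x k)})
    (n := (galO F x).ncard) ?_ ?_
  · refine ⟨key.1, key.2.trans ?_⟩
    rw [mul_comm, Set.ncard_univ]
    exact Nat.mul_le_mul_right _ (card_algHom_le_finrank ℚ F ℂ)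
  · intro φ _
    by_cases he : ∃ σ₀ : ℂ ≃+* ℂ, ∀ a : F, σ₀ a = φ a
    · obtain ⟨σ₀, hσ₀⟩ := he
      have hsub : {z | ∃ σ : ℂ ≃+* ℂ, (∀ a : F, σ a = φ a) ∧ z = fun k => σ (x k)} ⊆
          (fun (z : κ → ℂ) k => σ₀ (z k)) '' galO F x := by
        rintro _ ⟨σ, hσ, rfl⟩
        refine ⟨fun k => σ₀.symm (σ (x k)), ⟨σ.trans σ₀.symm, fun a ha => ?_, rfl⟩,
          funext fun k => σ₀.apply_symm_apply _⟩
        rw [RingEquiv.trans_apply, RingEquiv.symm_apply_eq]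
        exact (hσ ⟨a, ha⟩).trans (hσ₀ ⟨a, ha⟩).symm
      exact ⟨(h.image _).subset hsub,
        (Set.ncard_le_ncard hsub (h.image _)).trans (Set.ncard_image_le h)⟩
    · have hemp : {z | ∃ σ : ℂ ≃+* ℂ, (∀ a : F, σ a = φ a) ∧ z = fun k => σ (x k)} = ∅ := by
        ext z
        exact ⟨fun ⟨σ, hσ, _⟩ => he ⟨σ, hσ⟩, False.elim⟩
      rw [hemp]
      simp
  · rintro _ ⟨σ, -, rfl⟩
    exact ⟨(σ.toRingHom.comp (algebraMap F ℂ)).toRatAlgHom, Set.mem_univ _, σ, fun a => rfl, rfl⟩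

theorem prb_pj {n N : ℕ} (hN : 0 < N) (F : IntermediateField ℚ ℂ) [FiniteDimensional ℚ F]
    {τ : Fin n → ℍ} {D : Fin n → ℤ} (h : ∀ k, HasDisc (τ k) (D k)) (p : (Fin n → ℂ) → Prop) :
    prb (ON N F τ) (fun z => p (pj z)) ≤ Module.finrank ℚ F * prb (Orb τ) p := by
  have hx := galO_fin hN F h
  have e1 : prb (ON N F τ) (fun z => p (pj z)) = prb (fO (galO F fun k => jInv (τ k))) p := by
    rw [pb_eq, pb_eq, ← pj_evs hN F τ]
    exact avg_comp hx (fun k : Fin n => (k, jInv)) fun w => if p w then 1 else 0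
  have hf : (galO F fun k => jInv (τ k)).Finite := by
    rw [← pj_evs hN F τ]
    exact vgal_fin hx fun k : Fin n => (k, jInv)
  obtain ⟨h1, h2⟩ := xdb_card F hf
  rw [← card_fO, ← card_fO] at h2
  have h3 : (#(Orb τ) : ℝ) ≤ Module.finrank ℚ F * #(fO (galO F fun k => jInv (τ k))) := by
    exact_mod_cast h2
  have h4 : (0 : ℝ) < #(fO (galO F fun k => jInv (τ k))) := by
    exact_mod_cast Finset.card_pos.2 ⟨_, (mem_fO hf).2 (galO_self F _)⟩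
  have h5 : (0 : ℝ) < #(Orb τ) := by exact_mod_cast (Orb_ne h).card_pos
  have h6 : (#{z ∈ fO (galO F fun k => jInv (τ k)) | p z} : ℝ) ≤ #{z ∈ Orb τ | p z} := by
    exact_mod_cast Finset.card_le_card (Finset.filter_subset_filter _ fun z hz =>
      (mem_fO h1).2 (galO_mono bot_le _ ((mem_fO hf).1 hz)))
  rw [e1, prb, prb, ← mul_div_assoc, div_le_div_iff₀ h4 h5]
  calc _ ≤ (#{z ∈ Orb τ | p z} : ℝ) *
        (Module.finrank ℚ F * #(fO (galO F fun k => jInv (τ k)))) :=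
        mul_le_mul h6 h3 h5.le (Nat.cast_nonneg _)
    _ = _ := by ring

theorem xdb_sq {a m : ℤ} (hm : m ≠ 0) (h : IsSquare (a * m ^ 2)) : IsSquare a := by
  obtain ⟨r, hr⟩ := h
  obtain ⟨q, rfl⟩ : m ∣ r := (Int.pow_dvd_pow_iff two_ne_zero).1 ⟨a, by rw [sq r, ← hr]; ring⟩
  exact ⟨q, mul_right_cancel₀ (pow_ne_zero 2 hm) (by rw [hr]; ring)⟩

namespace Shp

variable {n : ℕ} {ι : Type}

theorem xdb_pm {s : Shp n ι} {v : VD n} {y q : ℕ} (h : s.Pm v y q) :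
    IsCoprime (q : ℤ) (2 * s.N * v.E * s.dd v) :=
  (Nat.prime_iff_prime_int.1 h.1).coprime_iff_not_dvd.2 h.2.2.2

theorem xdb_cop {s : Shp n ι} {v : VD n} {L T : ℝ} {a m₀ y : ℕ} (h : s.Ok v L T a m₀ y)
    (i : Fin v.M) : 0 < v.l i ^ v.R * v.l' i ∧
      IsCoprime ((v.l i ^ v.R * v.l' i : ℕ) : ℤ) (2 * s.N * v.E * s.dd v) := by
  obtain ⟨h1, h2, -⟩ := h.pl i
  refine ⟨Nat.mul_pos (pow_pos h1.1.pos _) h2.1.pos, ?_⟩
  rw [Nat.cast_mul, Nat.cast_pow]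
  exact (xdb_pm h1).pow_left.mul_left (xdb_pm h2)

theorem xdb_disc {s : Shp n ι} {v : VD n} {L T : ℝ} {a m₀ y : ℕ} (h : s.Ok v L T a m₀ y)
    {x : Fin n → ℂ} (hx : x ∈ Orb v.τ) {k : Fin n} {t : ℍ} (ht : jInv t = x k) :
    HasDisc t (v.D k) := by
  obtain ⟨σ, rfl⟩ := (mem_Orb h.disc).1 hx
  exact disc_of_gal (h.disc k) (h.big k) ht

theorem move_pt {s : Shp n ι} {v : VD n} {L T : ℝ} {a m₀ y : ℕ} (h : s.Ok v L T a m₀ y)
    {x : Fin n → ℂ} (hx : x ∈ Orb v.τ) {k : Fin n} (hk : k ∈ s.J) {t : ℍ} (ht : jInv t = x k) :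
    ∃ c : vcjQ s.N, ∀ i, ∃ η : M2, η.det = ((v.l i ^ v.R * v.l' i) ^ (2 * s.e) : ℕ) ∧
      Ker ((v.l i ^ v.R * v.l' i) ^ (2 * s.e)) (AA v.E v.b t) ⊆
        Ker ((v.l i ^ v.R * v.l' i) ^ (2 * s.e)) η ∧
      Cg s.N η (((v.l i ^ v.R * v.l' i : ℕ) : ℤ) ^ s.e) ∧ ∀ φ : ℍ → ℝ, GInv s.N φ →
        φ (act η t) = φ (act ((c.out : SL(2, ℤ)) * s.hk v x k * s.rho v i (s.lab v x (s.bs k) i))
          (s.ct x (s.bs k))) := by
  obtain ⟨k1, k2⟩ := h.hk_spec hx hk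
  obtain ⟨hd, k3⟩ := mem_Hn k1
  have hd' : 0 < (s.hk v x k).det := by rw [k3]; exact_mod_cast hd
  obtain ⟨g, hg⟩ := jInv_inj (k2.trans ht.symm)
  have hD := xdb_disc h hx ht
  have hF : Fit v.E (v.D k) := (h.fit k hk).trans (fit_sq h.N_pos _)
  obtain ⟨c1, c2⟩ := h.ct_disc hx (s.bs k)
  have z1 : ((g : M2) * s.hk v x k).det = v.dg k := by
    rw [Matrix.det_mul, g.det_coe, one_mul, k3]
  have z2 : 0 < ((g : M2) * s.hk v x k).det := by rw [z1]; exact_mod_cast hd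
  have z3 : act ((g : M2) * s.hk v x k) (s.ct x (s.bs k)) = t := by
    rw [act_mul (vact_SL_det g) hd', act_SL, hg]
  have z4 := AA_com c1 c2 z2 (z3 ▸ hD) hF v.b
  rw [z3] at z4
  refine ⟨QuotientGroup.mk g, fun i => ?_⟩
  obtain ⟨p0, p1⟩ := xdb_cop h i
  have hn : 0 < (v.l i ^ v.R * v.l' i) ^ (2 * s.e) := pow_pos p0 _
  have en : (v.l i ^ v.R * v.l' i) ^ (2 * s.e) = s.a₁ v i * s.a₂ v i := by
    rw [a₁, a₂, mul_pow, ← pow_mul, mul_comm v.R]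
  have dv : v.dg k ∣ s.dd v := Finset.dvd_prod_of_mem _ hk
  have dv' : (v.dg k : ℤ) ∣ s.dd v := by exact_mod_cast dv
  have q1 : IsCoprime ((v.l i ^ v.R * v.l' i : ℕ) : ℤ) (2 * v.E) :=
    p1.of_isCoprime_of_dvd_right ⟨s.N * s.dd v, by ring⟩
  have q2 : IsCoprime ((v.l i ^ v.R * v.l' i : ℕ) : ℤ) ((s.N * v.dg k : ℕ) : ℤ) := by
    refine p1.of_isCoprime_of_dvd_right ?_
    rw [Nat.cast_mul]
    exact (mul_dvd_mul_left _ dv').trans ⟨2 * v.E, by ring⟩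
  have q3 : IsCoprime ((v.l i ^ v.R * v.l' i : ℕ) : ℤ) (s.N : ℤ) :=
    p1.of_isCoprime_of_dvd_right ⟨2 * v.E * s.dd v, by ring⟩
  have q4 : IsCoprime ((v.l i ^ v.R * v.l' i : ℕ) : ℤ) (v.dg k : ℤ) :=
    p1.of_isCoprime_of_dvd_right (dv'.mul_left _)
  have hl := AA_line (b := v.b) hD hF hn (by rw [Nat.cast_pow]; exact q1.pow_left)
    (by rw [Nat.cast_pow]; exact (Dvd.intro_left _ rfl).trans (h.bl i))
  obtain ⟨η, e1, e2, e3⟩ := hl.exists_Cg hn h.N_pos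
    (s := ((v.l i ^ v.R * v.l' i : ℕ) : ℤ) ^ s.e) q3.pow_left
    (by rw [Nat.cast_pow, ← pow_mul, mul_comm s.e, sub_self]; exact dvd_zero _)
  obtain ⟨r1, r2, r3, r4⟩ := h.rho_spec i (h.lab_mem hx (s.bs k) i)
  have ca : (s.a₁ v i).Coprime (s.a₂ v i) :=
    Nat.Coprime.pow _ _ ((Nat.coprime_primes (h.pl i).1.1 (h.pl i).2.1.1).2 (h.inj.2.2 i i))
  have r5 : Ker ((v.l i ^ v.R * v.l' i) ^ (2 * s.e)) (s.rho v i (s.lab v x (s.bs k) i)) =
      Ker ((v.l i ^ v.R * v.l' i) ^ (2 * s.e)) (s.A v x (s.bs k)) := by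
    rw [en, Ker_inter ca, Ker_inter ca, r2, r3]
    rfl
  have r6 : Cg (s.N * v.dg k) (s.rho v i (s.lab v x (s.bs k) i))
      (((v.l i ^ v.R * v.l' i : ℕ) : ℤ) ^ s.e) := by
    rw [Nat.cast_mul, Nat.cast_pow, mul_pow, ← pow_mul, mul_comm v.R]
    exact r4.mono ((Nat.mul_dvd_mul_left _ dv).mul_right _)
  rw [← en] at r1
  have r7 : 0 < (s.rho v i (s.lab v x (s.bs k) i)).det := by rw [r1]; exact_mod_cast hn
  obtain ⟨γ, hγ, e4⟩ := swap_Cg hn hd z1 r1 e1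
    (Nat.Coprime.pow_left _ (Nat.isCoprime_iff_coprime.1 q4)) q2.pow_left r6 e3 fun w hw => by
      rw [e2]
      rw [r5] at hw
      refine (Ker_com z4 ?_ w).1.2 hw
      rw [z1, Nat.cast_pow]
      exact q4.symm.pow_right
  refine ⟨η, e1, e2.ge, e3, fun φ hφ => ?_⟩
  obtain ⟨δ, hδ⟩ := QuotientGroup.mk_out_eq_mul (CongruenceSubgroup.Gamma s.N) g
  have r8 : 0 < (s.hk v x k * s.rho v i (s.lab v x (s.bs k) i)).det := by
    rw [Matrix.det_mul]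
    exact mul_pos hd' r7
  have r9 : 0 < ((g : M2) * s.hk v x k * s.rho v i (s.lab v x (s.bs k) i)).det := by
    rw [Matrix.det_mul]
    exact mul_pos z2 r7
  rw [← z3, ← act_mul (by rw [e1]; exact_mod_cast hn) z2, e4, act_mul (vact_SL_det γ) r9, act_SL,
    hφ γ hγ, mul_assoc, mul_assoc, act_mul (vact_SL_det _) r8, act_mul (vact_SL_det _) r8, act_SL,
    act_SL, hδ, mul_smul]
  exact (hφ.smul g δ δ.2 _).symm

theorem xdb_size {s : Shp n ι} {v : VD n} {L T : ℝ} {a m₀ y : ℕ} (h : s.Ok v L T a m₀ y)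
    (he : (s.e : ℝ) ≤ T) (i : Fin v.M) {k : Fin n} (hk : k ∈ s.J) :
    4 * ((v.l i ^ v.R * v.l' i : ℕ) : ℤ) ^ (2 * s.e) < -v.D k := by
  have hT := h.hT
  have hq : ∀ q, s.Pm v y q → (q : ℝ) ≤ Real.exp T := fun q hq => by
    have h1 : (q : ℝ) ≤ 2 * y := by exact_mod_cast hq.2.2.1
    linarith [h.ylog]
  have h1 : ((v.l i ^ v.R * v.l' i : ℕ) : ℝ) ≤ Real.exp ((v.R + 1) * T) := by
    rw [add_mul, one_mul, Real.exp_add, Real.exp_nat_mul, Nat.cast_mul, Nat.cast_pow]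
    exact mul_le_mul (pow_le_pow_left₀ (Nat.cast_nonneg _) (hq _ (h.pl i).1) _)
      (hq _ (h.pl i).2.1) (Nat.cast_nonneg _) (by positivity)
  have h2 : ((v.l i ^ v.R * v.l' i : ℕ) : ℝ) ^ (2 * s.e) ≤
      Real.exp ((2 * s.e : ℕ) * ((v.R + 1) * T)) := by
    rw [Real.exp_nat_mul]
    exact pow_le_pow_left₀ (Nat.cast_nonneg _) h1 _
  have h3 : ((2 * s.e : ℕ) : ℝ) * ((v.R + 1) * T) ≤ 6 * T ^ 4 := by
    have a1 : (v.R + 1 : ℝ) ≤ 3 * T ^ 2 := by nlinarith [h.cR.2]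
    have a2 : ((2 * s.e : ℕ) : ℝ) ≤ 2 * T := by push_cast; linarith
    calc _ ≤ 2 * T * (3 * T ^ 2 * T) := by gcongr
      _ = _ := by ring
  have h4 : 6 * T ^ 4 + 4 ≤ T ^ 16 := by
    have a1 : (1 : ℝ) ≤ T ^ 4 := one_le_pow₀ (by linarith)
    have a2 : T ≤ T ^ 12 := le_self_pow₀ (by linarith) (by norm_num)
    have a3 : T ^ 16 = T ^ 12 * T ^ 4 := by ring
    nlinarith
  have h5 : (4 : ℝ) < Real.exp 4 := by linarith [Real.add_one_le_exp 4]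
  have h6 : 4 * ((v.l i ^ v.R * v.l' i : ℕ) : ℝ) ^ (2 * s.e) < -(v.D k : ℝ) :=
    calc _ ≤ 4 * Real.exp (6 * T ^ 4) :=
          mul_le_mul_of_nonneg_left (h2.trans (Real.exp_le_exp.2 h3)) (by norm_num)
      _ < Real.exp 4 * Real.exp (6 * T ^ 4) := mul_lt_mul_of_pos_right h5 (Real.exp_pos _)
      _ ≤ Real.exp (T ^ 16) := by rw [← Real.exp_add]; exact Real.exp_le_exp.2 (by linarith)
      _ ≤ _ := (h.large k hk).1
  exact_mod_cast h6

theorem xdb_big {s : Shp n ι} {v : VD n} {L T : ℝ} {a m₀ y : ℕ} (h : s.Ok v L T a m₀ y)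
    {k : Fin n} (hk : k ∈ s.J) : T ≤ -(v.D k : ℝ) := by
  have hT := h.hT
  have a2 : T ≤ T ^ 16 := le_self_pow₀ (by linarith) (by norm_num)
  linarith [Real.add_one_le_exp (T ^ 16), (h.large k hk).1]

theorem xdb_abs {N : ℕ} {F : IntermediateField ℚ ℂ} {φ : Fin n → (ℍ →ᵇ ℝ)} (h : ∀ k, ‖φ k‖ ≤ 1)
    (I : Finset (Fin n)) (z : Fin n × Fn → ℂ) : |PT N F φ I z| ≤ 1 := by
  rw [PT, Finset.abs_prod]
  exact Finset.prod_le_one (fun _ _ => abs_nonneg _) fun k _ =>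
    ((φ k).norm_coe_le_norm _).trans (h k)

theorem xdb_cell {N : ℕ} (hN : 0 < N) {F : IntermediateField ℚ ℂ} {τ : Fin n → ℍ}
    {z : Fin n × Fn → ℂ} (hz : z ∈ galO F (evs (MF N F) τ)) (k : Fin n) :
    ∃ c : vcjQ N, ∀ f, evA (MF N F) (c.out⁻¹ • fr (pj z k)) f = z (k, f) := by
  obtain ⟨g, hg⟩ := jInv_inj ((fr_spec (pj z k)).2.trans (vev_j hN hz k).symm)
  refine ⟨QuotientGroup.mk g⁻¹, fun f => ?_⟩
  rw [← congrFun (vev_rp hN hz k) f]
  by_cases hf : f ∈ MF N F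
  · rw [ev_of_mem hf, ev_of_mem hf, vcj_mk hf, inv_inv, ← hg]
  · rw [ev_of_not hf, ev_of_not hf]

theorem red {N : ℕ} (hN : 0 < N) (F : IntermediateField ℚ ℂ) [FiniteDimensional ℚ F] (n : ℕ) :
    ∃ (e : ℕ) (T₀ : ℝ), 0 < e ∧ ∀ (ι : Type) [Nonempty ι] (s : Shp n ι)
      (φ : Fin n → (ℍ →ᵇ ℝ)), s.N = N → s.e = e → (∀ k, Tst N F (φ k)) → (∀ k, ‖φ k‖ ≤ 1) →
      ∀ (v : VD n) (L T : ℝ) (a m₀ y : ℕ) (ψ : (Fin n × Fn → ℂ) → ℝ) (θ : ℝ), T₀ ≤ T →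
      s.Ok v L T a m₀ y → Oth s.I v.D ψ → (∀ z, |ψ z| ≤ 1) → 0 < θ →
      θ ≤ |avg (ON N F v.τ) fun z => ψ z *
        (PT N F φ s.I z - (∏ k ∈ s.J, IN N (φ k)) * PT N F φ (s.I \ s.J) z)| →
      ∃ Ws : (Fin n → ℂ) → Finset (Fin v.M → ℝ),
        (∀ u, #(Ws u) ≤ N ^ (3 * n) ∧ ∀ W ∈ Ws u, ∀ i, |W i| ≤ 1) ∧
        θ / (4 * Module.finrank ℚ F) ≤ prb (Orb v.τ) (s.Ev v φ Ws (θ / 2)) := by
  obtain ⟨e, he, hmv⟩ := move hN F n
  obtain ⟨B, hB⟩ := tst_rp hN F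
  refine ⟨e, max (max e B) (577 * N ^ 2), he, ?_⟩
  intro ι _ s φ hsN hse hφ hφ1 v L T a m₀ y ψ θ hT h hψ hψ1 hθ hav
  subst hsN hse
  have T1 : (s.e : ℝ) ≤ T := ((le_max_left _ _).trans (le_max_left _ _)).trans hT
  have T2 : B ≤ T := ((le_max_right _ _).trans (le_max_left _ _)).trans hT
  have T3 : (577 * s.N ^ 2 : ℝ) ≤ T := (le_max_right _ _).trans hT
  have hex := fun i : Fin v.M => hmv v.E v.b (v.l i ^ v.R * v.l' i)
    ((univ.filter fun k => ¬ IsSquare (v.D k * v.E)).image v.D) h.Ebig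
    (card_image_le.trans ((card_filter_le _ _).trans (by simp)))
    (fun D hD => by
      obtain ⟨k, hk, rfl⟩ := mem_image.1 hD
      exact ⟨h.big k, (h.disc k).isD, (mem_filter.1 hk).2⟩)
    (xdb_cop h i).1 (xdb_cop h i).2.of_mul_right_left (h.bl i)
  choose σ s1 s2 s3 using hex
  haveI := vcj_fin hN
  letI := Fintype.ofFinite (vcjQ s.N)
  have hM : (0 : ℝ) < v.M := lt_of_lt_of_le (pow_pos (by linarith [h.hT]) 2) h.cM.1
  have hMne : (univ : Finset (Fin v.M)).Nonempty := by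
    have : 0 < v.M := by exact_mod_cast hM
    exact ⟨⟨0, this⟩, mem_univ _⟩
  have hsplit : ∀ z, PT s.N F φ s.I z - (∏ k ∈ s.J, IN s.N (φ k)) * PT s.N F φ (s.I \ s.J) z =
      PT s.N F φ (s.I \ s.J) z * (PT s.N F φ s.J z - ∏ k ∈ s.J, IN s.N (φ k)) := fun z => by
    rw [PT, ← prod_sdiff s.sub, mul_sub, mul_comm (∏ k ∈ s.J, IN s.N (φ k))]
    rfl
  simp only [hsplit] at hav
  set Φ : (Fin n × Fn → ℂ) → ℝ := fun z =>
    PT s.N F φ (s.I \ s.J) z * (PT s.N F φ s.J z - ∏ k ∈ s.J, IN s.N (φ k)) with hΦ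
  have hΦ2 : ∀ z, |Φ z| ≤ 2 := fun z => by
    have a1 := xdb_abs (N := s.N) (F := F) hφ1 (s.I \ s.J) z
    have a2 := xdb_abs (N := s.N) (F := F) hφ1 s.J z
    have a3 : |∏ k ∈ s.J, IN s.N (φ k)| ≤ 1 := by
      rw [Finset.abs_prod]
      exact Finset.prod_le_one (fun _ _ => abs_nonneg _) fun k _ =>
        (abs_IN_le hN _).trans (hφ1 k)
    rw [hΦ, abs_mul]
    calc _ ≤ 1 * (1 + 1) := mul_le_mul a1 ((abs_sub _ _).trans (add_le_add a2 a3))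
          (abs_nonneg _) zero_le_one
      _ = 2 := by norm_num
  have hfix : ∀ z ∈ ON s.N F v.τ, ∀ i, ψ (fun b => σ i (z b)) = ψ z := fun z hz i => by
    have hz' := (mem_ON hN h.disc).1 hz
    refine hψ _ _ fun k hk f => ?_
    by_cases hf : f ∈ MF s.N F
    · rw [← rp_val hN hz' k hf]
      refine s2 i (v.D k) (mem_image_of_mem _ (mem_filter.2 ⟨mem_univ _, fun hs => ?_⟩)) _
        (rp_disc hN h.disc hz' (h.big k)) f hf
      obtain ⟨c⟩ := ‹Nonempty ι›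
      obtain ⟨m, hm, hE⟩ := (h.fit _ (s.mem c)).trans (fit_sq hN _)
      refine hk _ (s.sub (s.mem c)) (xdb_sq (m := m) (by exact_mod_cast hm.ne') ?_)
      rwa [hE, mul_comm ((m : ℤ) ^ 2), ← mul_assoc] at hs
    · rw [← congrFun (vev_rp hN hz' k) f, ev_of_not hf, map_zero]
  have e1 : avg (ON s.N F v.τ) (fun z => ψ z * Φ z) =
      mn (ON s.N F v.τ) fun z => ψ z * mn univ fun i => Φ fun b => σ i (z b) := by
    have a1 : ∀ i, mn (ON s.N F v.τ) (fun z => ψ z * Φ fun b => σ i (z b)) =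
        avg (ON s.N F v.τ) fun z => ψ z * Φ z := fun i => by
      rw [mn, avg, ON, ← sum_galO (s1 i) fun z => ψ z * Φ z]
      congr 1
      exact sum_congr rfl fun z hz => by rw [hfix z hz i]
    simp only [← mn_mul]
    rw [mn_swap]
    simp only [a1]
    rw [mn_const hMne]
  have e2 : θ ≤ mn (ON s.N F v.τ) fun z => |mn univ fun i => Φ fun b => σ i (z b)| := by
    refine hav.trans ?_
    rw [e1]
    refine (abs_mn_le _ _).trans (mn_mono fun z _ => ?_)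
    rw [abs_mul]
    exact mul_le_of_le_one_left (abs_nonneg _) (hψ1 z)
  have e3 := pb_rev (O := ON s.N F v.τ) (G := fun z => |mn univ fun i => Φ fun b => σ i (z b)|)
    two_pos (fun z _ => (abs_mn_le _ _).trans
      ((mn_mono fun i _ => hΦ2 _).trans (mn_const hMne 2).le)) (half_pos hθ).le
  refine ⟨fun u => (univ : Finset (Fin n → vcjQ s.N)).image fun c i => PT s.N F φ (s.I \ s.J)
    fun b => σ i (evs (MF s.N F) (fun k => (c k).out⁻¹ • fr (u k)) b), fun u => ⟨?_, ?_⟩, ?_⟩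
  · refine card_image_le.trans ?_
    rw [card_univ, Fintype.card_fun, Fintype.card_fin, pow_mul, ← Nat.card_eq_fintype_card]
    exact Nat.pow_le_pow_left (index_Gamma_le hN) n
  · intro W hW i
    obtain ⟨c, -, rfl⟩ := mem_image.1 hW
    exact xdb_abs hφ1 _ _
  have hfr : (0 : ℝ) < Module.finrank ℚ F := by exact_mod_cast Module.finrank_pos
  rw [← div_div, div_le_iff₀' hfr]
  refine le_trans ?_ (prb_pj hN F h.disc _)
  refine le_trans (by linarith) (e3.trans (pb_mono fun z hz hG => ?_))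
  have hz' := (mem_ON hN h.disc).1 hz
  have hx : pj z ∈ Orb v.τ := by
    obtain ⟨σ', -, e⟩ := pj_mem hN hz'
    exact (mem_Orb h.disc).2 ⟨σ', e⟩
  choose c hc using xdb_cell hN hz'
  have hγ : ∀ k, ∃ γ : vcjQ s.N, k ∈ s.J → ∀ i,
      φ k (rp (MF s.N F) (fun b => σ i (z b)) k) =
        φ k (act ((γ.out : SL(2, ℤ)) * s.hk v (pj z) k *
          s.rho v i (s.lab v (pj z) (s.bs k) i)) (s.ct (pj z) (s.bs k))) := fun k => by
    by_cases hk : k ∈ s.J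
    · obtain ⟨γ, hγ⟩ := move_pt h hx hk (vev_j hN hz' k)
      refine ⟨γ, fun _ i => ?_⟩
      obtain ⟨η, a1, a2, a3, a4⟩ := hγ i
      rw [← a4 _ (hφ k).ginv]
      refine (hB n v.τ v.D h.disc _ (galO_map hz' (s1 i)) k (T2.trans (xdb_big h hk)) _
        (fun f hf => ?_) _ (hφ k)).symm
      rw [← rp_val hN hz' k hf]
      refine (s3 i _ (v.D k) η (rp_disc hN h.disc hz' (h.big k)) (h.fit k hk) ?_
        (xdb_size h T1 i hk) a1 a2 a3 f hf).symm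
      exact_mod_cast T3.trans (xdb_big h hk)
    · exact ⟨QuotientGroup.mk 1, fun hk' => absurd hk' hk⟩
  choose γ hγ using hγ
  refine ⟨_, mem_image_of_mem _ (mem_univ c), γ, ?_⟩
  have e4 : s.val v φ (fun k => ((γ k).out : SL(2, ℤ)) * s.hk v (pj z) k) (s.lab v (pj z))
      (s.ct (pj z)) (fun i => PT s.N F φ (s.I \ s.J) fun b => σ i (evs (MF s.N F)
        (fun k => (c k).out⁻¹ • fr (s.sm (pj z) k)) b)) = ∑ i, Φ fun b => σ i (z b) := by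
    refine sum_congr rfl fun i _ => ?_
    rw [hΦ]
    congr 1
    · refine prod_congr rfl fun k hk => congrArg (φ k) (rp_congr fun f => congrArg (σ i) ?_)
      rw [← hc k f, evs, sm, if_pos hk]
    · congr 1
      exact prod_congr rfl fun k hk => (hγ k hk i).symm
  rw [e4]
  rw [mn, card_univ, Fintype.card_fin, abs_div, Nat.abs_cast, le_div_iff₀ hM] at hG
  exact hG

end Shp

end Pool.Agent.EQ
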