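import Pool.Agent.P.MP_ad7a55_nt.XKc
import Pool.Agent.P.MP_ad7a55_nt.XEa
import Pool.Agent.P.MP_ad7a55_nt.XKd

/-! Hecke points from a given point: an upper bound for averages. -/

set_option autoImplicit false

noncomputable section

open MeasureTheory Topology Filter UpperHalfPlane
open scoped MatrixGroups BoundedContinuousFunction Matrix Classical

namespace Pool.Agent.EQ

theorem xkg_ball {w : ℍ} (hw : w ∈ ModularGroup.fd) {r : ℝ} (hr : 0 < r) :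
    0 < (ProbabilityTheory.cond (volume : Measure ℍ) ModularGroup.fd).real (Metric.ball w r) := by
  have := vmh_prob
  refine ENNReal.toReal_pos ?_ (measure_ne_top _ _)
  rw [ProbabilityTheory.cond_apply' Metric.isOpen_ball.measurableSet]
  refine mul_ne_zero (ENNReal.inv_ne_zero.2 jbas_volume_fd_lt_top.ne) (ne_of_gt ?_)
  have hne : (Metric.ball w r ∩ ModularGroup.fdo).Nonempty := by
    rw [ModularGroup.fd_eq_closure_fdo] at hw
    exact mem_closure_iff.1 hw _ Metric.isOpen_ball (Metric.mem_ball_self hr)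
  refine (jbas_vol_pos (Metric.isOpen_ball.inter ModularGroup.isOpen_fdo) hne).trans_le
    (measure_mono ?_)
  exact fun z hz => ⟨ModularGroup.fdo_subset_fd hz.2, hz.1⟩

theorem xkg_low {α : Type} (R : Finset α) (m : α → ℝ) (h : ∀ w ∈ R, 0 < m w) :
    ∃ c : ℝ, 0 < c ∧ ∀ w ∈ R, c ≤ m w := by
  rcases R.eq_empty_or_nonempty with rfl | hR
  · exact ⟨1, one_pos, fun w hw => absurd hw (Finset.notMem_empty w)⟩
  · obtain ⟨w, hw, hm⟩ := R.exists_min_image m hR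
    exact ⟨m w, h w hw, hm⟩

theorem xkg_dist (γ : SL(2, ℤ)) (z w : ℍ) : dist (γ • z) (γ • w) = dist z w := by
  rw [← act_SL, ← act_SL, dist_act (vact_SL_det γ)]

theorem xkg_int (γ : SL(2, ℤ)) (φ : ℍ →ᵇ ℝ) : Integrable (fun τ => φ (γ • τ))
    (ProbabilityTheory.cond (volume : Measure ℍ) ModularGroup.fd) := by
  have := vmh_prob
  exact (φ.compContinuous ⟨_, vmh_cont γ⟩).integrable _

theorem bad_classes (Y : ℝ) {ω : ℝ → ℝ} (hω : ∀ ε, 0 < ε → 0 < ω ε) {ε : ℝ} (hε : 0 < ε) :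
    ∃ C : ℝ, 0 < C ∧ ∀ (M : ℕ) (g : ℍ →ᵇ ℝ), 0 < M → GInv M g → EqC ω g →
      ({c : vcjQ M | ∃ w ∈ KU Y, ε < |g (c.out⁻¹ • w)|}.ncard : ℝ) ≤
        C * IN M (g * g) * (CongruenceSubgroup.Gamma M).index := by
  have hprob := vmh_prob
  have hr : 0 < ω (ε / 2) / 2 := half_pos (hω _ (half_pos hε))
  obtain ⟨R, cl, hR, hcl, -⟩ := exists_net Y hr
  obtain ⟨c0, hc0, hlow⟩ := xkg_low R
    (fun w => (ProbabilityTheory.cond (volume : Measure ℍ) ModularGroup.fd).real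
      (Metric.ball w (ω (ε / 2) / 2))) fun w hw => xkg_ball (hR w hw).1 hr
  refine ⟨4 / (ε ^ 2 * c0), by positivity, fun M g hM hg he => ?_⟩
  have : NeZero M := ⟨hM.ne'⟩
  have hfin := vcj_fin hM
  have := Fintype.ofFinite (vcjQ M)
  have hidx : (0 : ℝ) < (CongruenceSubgroup.Gamma M).index := by
    exact_mod_cast Nat.pos_of_ne_zero Subgroup.FiniteIndex.index_ne_zero
  have h0 : ∀ (c : vcjQ M) (τ : ℍ), 0 ≤ (g * g) (c.out⁻¹ • τ) := fun c τ => mul_self_nonneg _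
  have hbad : ∀ c : vcjQ M, (∃ w ∈ KU Y, ε < |g (c.out⁻¹ • w)|) → ε ^ 2 / 4 * c0 ≤
      ∫ τ, (g * g) (c.out⁻¹ • τ) ∂ProbabilityTheory.cond volume ModularGroup.fd := by
    rintro c ⟨w, hw, hlt⟩
    obtain ⟨h1, h2⟩ := hcl w hw
    refine le_trans ?_ (mul_meas_ge_le_integral_of_nonneg (Eventually.of_forall (h0 c))
      (xkg_int _ _) (ε ^ 2 / 4))
    refine mul_le_mul_of_nonneg_left ((hlow _ h1).trans (measureReal_mono fun τ hτ => ?_))
      (by positivity)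
    have h3 : dist τ w ≤ ω (ε / 2) := by
      have h4 := dist_triangle τ (cl w) w
      have h5 := Metric.mem_ball.1 hτ
      rw [dist_comm (cl w) w] at h4
      linarith
    have h6 := he (ε / 2) (half_pos hε) (c.out⁻¹ • τ) (c.out⁻¹ • w) (by rw [xkg_dist]; exact h3)
    have h7 : ε / 2 ≤ |g (c.out⁻¹ • τ)| := by
      have h8 := abs_sub_abs_le_abs_sub (g (c.out⁻¹ • w)) (g (c.out⁻¹ • τ))
      rw [abs_sub_comm] at h8
      linarith
    have h9 := mul_self_le_mul_self (half_pos hε).le h7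
    rw [abs_mul_abs_self] at h9
    change ε ^ 2 / 4 ≤ g (c.out⁻¹ • τ) * g (c.out⁻¹ • τ)
    linarith
  have hsum : (({c : vcjQ M | ∃ w ∈ KU Y, ε < |g (c.out⁻¹ • w)|}.ncard : ℝ)) * (ε ^ 2 / 4 * c0) ≤
      ∑ c : vcjQ M,
        ∫ τ, (g * g) (c.out⁻¹ • τ) ∂ProbabilityTheory.cond volume ModularGroup.fd := by
    rw [Set.ncard_eq_toFinset_card', ← nsmul_eq_mul]
    refine (Finset.card_nsmul_le_sum _ _ _ fun c hc => hbad c (by
      rw [Set.mem_toFinset] at hc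
      exact hc)).trans ?_
    exact Finset.sum_le_sum_of_subset_of_nonneg (Finset.subset_univ _)
      fun c _ _ => integral_nonneg (h0 c)
  have hI : IN M (g * g) * (CongruenceSubgroup.Gamma M).index = ∑ c : vcjQ M,
      ∫ τ, (g * g) (c.out⁻¹ • τ) ∂ProbabilityTheory.cond volume ModularGroup.fd := by
    rw [IN, integral_mH, finsum_eq_sum_of_fintype, mul_comm, ← mul_assoc,
      mul_inv_cancel₀ hidx.ne', one_mul]
  rw [mul_assoc, hI, div_mul_eq_mul_div, le_div_iff₀ (by positivity)]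
  linarith

theorem xkg_gamma {M : ℕ} {δ : SL(2, ℤ)} (h : δ ∈ CongruenceSubgroup.Gamma M) :
    Cg M (δ : M2) 1 := by
  rw [CongruenceSubgroup.Gamma_mem] at h
  obtain ⟨h1, h2, h3, h4⟩ := h
  intro i j
  rw [← ZMod.intCast_zmod_eq_zero_iff_dvd]
  fin_cases i <;> fin_cases j <;> simp [h1, h2, h3, h4]

theorem xkg_cong {M : ℕ} {s : ℤ} {ρ : M2} (h : Cg M ρ s) (γ : SL(2, ℤ)) {δ : SL(2, ℤ)}
    (hδ : δ ∈ CongruenceSubgroup.Gamma M) (i j : Fin 2) :
    (M : ℤ) ∣ ((γ : M2) * ρ) i j - (s • ((γ * δ : SL(2, ℤ)) : M2)) i j := by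
  obtain ⟨Y, rfl⟩ := xla_cg.1 h
  obtain ⟨Z, hZ⟩ := xla_cg.1 (xkg_gamma hδ)
  have e : (γ : M2) * (s • (1 : M2) + (M : ℤ) • Y) - s • ((γ * δ : SL(2, ℤ)) : M2) =
      (M : ℤ) • ((γ : M2) * Y - s • ((γ : M2) * Z)) := by
    rw [Matrix.SpecialLinearGroup.coe_mul, hZ]
    simp only [mul_add, mul_smul_comm, mul_one, one_smul]
    module
  exact xla_ex.2 ⟨_, e⟩ i j

theorem he_point (U : ℝ) {ω : ℝ → ℝ} (hω : ∀ ε, 0 < ε → 0 < ω ε) {ε : ℝ} (hε : 0 < ε) :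
    ∃ (ε' : ℝ) (a l₀ : ℕ), 0 < ε' ∧ ∀ (M : ℕ) (g : ℍ →ᵇ ℝ), 0 < M → GInv M g → (∀ z, |g z| ≤ 1) →
      EqC ω g → IN M (g * g) ≤ ε' → ∀ (l k : ℕ) (s : ℤ), l.Prime → l₀ * k ≤ l → 0 < k →
      ¬ l ∣ M → M ^ a ≤ l ^ k → IsCoprime s M → ∀ τ ∈ KU U, ∀ ρ : Set V2 → M2,
      (∀ L ∈ Xn (l ^ k), (ρ L).det = (l ^ k : ℕ) ∧ Ker (l ^ k) (ρ L) = L ∧ Cg M (ρ L) s) →
      |mn (Xn (l ^ k)) fun L => g (act (ρ L) τ)| ≤ ε := by
  obtain ⟨U1, hU1, hU1'⟩ : ∃ U1 : ℝ, U ≤ U1 ∧ 1 ≤ U1 := ⟨max U 1, le_max_left _ _, le_max_right _ _⟩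
  obtain ⟨Y, hY, hYe⟩ : ∃ Y : ℝ, 0 < Y ∧ Y = 384 * U1 / ε := ⟨_, by positivity, rfl⟩
  obtain ⟨W, hW1, hW2⟩ : ∃ W : ℝ, U1 ≤ W ∧ Y ≤ W := ⟨max U1 Y, le_max_left _ _, le_max_right _ _⟩
  have hW : 1 ≤ W := hU1'.trans hW1
  obtain ⟨C, a, hC, hcls⟩ := cls_total (H := 4 * W ^ 2) (by nlinarith)
  obtain ⟨C', hC', hbad⟩ := bad_classes Y hω (ε := ε / 4) (by positivity)
  refine ⟨ε / (4 * C * C'), a, ⌈4 * C / ε⌉₊, by positivity,
    fun M g hM hg hg1 he hI l k s hl hlk hk hlM hMa hs τ hτ ρ hρ => ?_⟩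
  have hfin := vcj_fin hM
  have := Fintype.ofFinite (vcjQ M)
  have hn : 0 < l ^ k := pow_pos hl.pos k
  have hn' : (0 : ℝ) < (l ^ k : ℕ) := by exact_mod_cast hn
  have hX : ((l ^ k : ℕ) : ℝ) ≤ (Xn (l ^ k)).card := by exact_mod_cast (card_Xn hl hk).1
  choose γ hγ using fun L : Set V2 => ModularGroup.exists_smul_mem_fd (act (ρ L) τ)
  have hdρ : ∀ L ∈ Xn (l ^ k), 0 < (ρ L).det := fun L hL => by
    rw [(hρ L hL).1]; exact_mod_cast hn
  have hdη : ∀ L ∈ Xn (l ^ k), ((γ L : M2) * ρ L).det = (l ^ k : ℕ) := fun L hL => by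
    rw [Matrix.det_mul, (γ L).det_coe, one_mul, (hρ L hL).1]
  have hkη : ∀ L ∈ Xn (l ^ k), Ker (l ^ k) ((γ L : M2) * ρ L) = L := fun L hL => by
    rw [Ker_SL, (hρ L hL).2.1]
  have haη : ∀ L ∈ Xn (l ^ k), act ((γ L : M2) * ρ L) τ = γ L • act (ρ L) τ := fun L hL => by
    rw [act_mul (vact_SL_det _) (hdρ L hL), act_SL]
  have hA := cusp_count hY hτ hl hk
  obtain ⟨A, hAe⟩ : ∃ A, A = (Xn (l ^ k)).filter fun L => ∃ η : M2, η.det = (l ^ k : ℕ) ∧
      Ker (l ^ k) η = L ∧ Y ≤ (act η τ).im := ⟨_, rfl⟩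
  rw [← hAe] at hA
  have hA' : (A.card : ℝ) ≤ ε / 4 * (l ^ k : ℕ) := by
    refine hA.trans ?_
    rw [div_le_iff₀ hY, hYe]
    have e : ε / 4 * ((l ^ k : ℕ) : ℝ) * (384 * U1 / ε) = 96 * U1 * (l ^ k : ℕ) := by
      field_simp
      ring
    rw [e]
    exact mul_le_mul_of_nonneg_right (by linarith) hn'.le
  obtain ⟨B, hBe⟩ : ∃ B, B = (Xn (l ^ k)).filter fun L =>
      γ L • act (ρ L) τ ∈ KU Y ∧ ε / 4 < |g (act (ρ L) τ)| := ⟨_, rfl⟩
  have hBm : ∀ L ∈ B, L ∈ Xn (l ^ k) ∧ γ L • act (ρ L) τ ∈ KU Y ∧ ε / 4 < |g (act (ρ L) τ)| :=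
    fun L hL => by
      rw [hBe] at hL
      exact Finset.mem_filter.1 hL
  have hS := hbad M g hM hg he
  obtain ⟨S, hSe⟩ : ∃ S, S = {c : vcjQ M | ∃ w ∈ KU Y, ε / 4 < |g (c.out⁻¹ • w)|} := ⟨_, rfl⟩
  rw [← hSe] at hS
  have hB : (B.card : ℝ) ≤ ε / 2 * (l ^ k : ℕ) := by
    have h1 := hcls l k M (S.toFinset.image fun c => s • (c.out : M2))
      (B.image fun L => (γ L : M2) * ρ L) hl hM hlM hMa (fun η hη => by
        obtain ⟨L, hL, rfl⟩ := Finset.mem_image.1 hη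
        obtain ⟨h1, h2, h3⟩ := hBm L hL
        refine ⟨hdη L h1, ht_le_KU hW hn (hdη L h1) ⟨hτ.1, hτ.2.trans (hU1.trans hW1)⟩ ?_, ?_⟩
        · rw [haη L h1]
          exact ⟨h2.1, h2.2.trans hW2⟩
        · obtain ⟨δ, e⟩ := QuotientGroup.mk_out_eq_mul (CongruenceSubgroup.Gamma M) (γ L)
          refine ⟨_, Finset.mem_image.2 ⟨(QuotientGroup.mk (γ L) : vcjQ M), ?_, rfl⟩, ?_⟩
          · rw [Set.mem_toFinset, hSe]
            refine ⟨_, h2, ?_⟩
            rw [e, mul_inv_rev, mul_smul, inv_smul_smul, hg _ (inv_mem δ.2)]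
            exact h3
          · rw [e]
            exact xkg_cong (hρ L h1).2.2 (γ L) δ.2)
    rw [Finset.card_image_of_injOn (fun L hL L' hL' e => by
      rw [← hkη L (hBm L hL).1, ← hkη L' (hBm L' hL').1]
      exact congrArg (Ker (l ^ k)) e)] at h1
    have hM' : (0 : ℝ) < (M : ℝ) ^ 3 := by positivity
    have h2 : ((S.toFinset.image fun c => s • (c.out : M2)).card : ℝ) ≤ ε / (4 * C) * (M : ℝ) ^ 3 := by
      have h3 : ((S.toFinset.image fun c => s • (c.out : M2)).card : ℝ) ≤ S.ncard := by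
        rw [Set.ncard_eq_toFinset_card']
        exact_mod_cast Finset.card_image_le
      have h4 : ((CongruenceSubgroup.Gamma M).index : ℝ) ≤ (M : ℝ) ^ 3 := by
        exact_mod_cast index_Gamma_le hM
      have h5 : C' * IN M (g * g) ≤ ε / (4 * C) := by
        refine (mul_le_mul_of_nonneg_left hI hC'.le).trans (le_of_eq ?_)
        field_simp
      refine h3.trans (hS.trans ((mul_le_mul_of_nonneg_right h5 (Nat.cast_nonneg _)).trans ?_))
      exact mul_le_mul_of_nonneg_left h4 (by positivity)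
    have h6 : (k : ℝ) / l ≤ ε / (4 * C) := by
      have hl' : (0 : ℝ) < l := by exact_mod_cast hl.pos
      have h7 : ((⌈4 * C / ε⌉₊ : ℕ) : ℝ) * k ≤ l := by exact_mod_cast hlk
      have h8 : 4 * C / ε * k ≤ l :=
        (mul_le_mul_of_nonneg_right (Nat.le_ceil _) (Nat.cast_nonneg k)).trans h7
      rw [div_mul_eq_mul_div, div_le_iff₀ hε] at h8
      rw [div_le_div_iff₀ hl' (by positivity)]
      linarith
    have h9 := (div_le_iff₀ hM').2 h2
    refine h1.trans ((mul_le_mul_of_nonneg_left (add_le_add h9 h6) (by positivity)).trans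
      (le_of_eq ?_))
    field_simp
    ring
  have hpt : ∀ L ∈ Xn (l ^ k), |g (act (ρ L) τ)| ≤
      ε / 4 + ((if L ∈ A then 1 else 0) + if L ∈ B then 1 else 0) := fun L hL => by
    have h1 := hg1 (act (ρ L) τ)
    by_cases hLA : L ∈ A
    · rw [if_pos hLA]
      split_ifs <;> linarith
    · by_cases hLB : L ∈ B
      · rw [if_neg hLA, if_pos hLB]
        linarith
      · rw [if_neg hLA, if_neg hLB, add_zero, add_zero]
        by_contra hc
        refine hLB ?_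
        rw [hBe]
        refine Finset.mem_filter.2 ⟨hL, ⟨hγ L, ?_⟩, not_le.1 hc⟩
        by_contra hc'
        refine hLA ?_
        rw [hAe]
        exact Finset.mem_filter.2 ⟨hL, _, hdη L hL, hkη L hL, by
          rw [haη L hL]; exact (not_le.1 hc').le⟩
  have hcard : ∀ D : Finset (Set V2),
      ∑ L ∈ Xn (l ^ k), (if L ∈ D then (1 : ℝ) else 0) ≤ D.card := fun D => by
    rw [Finset.sum_boole]
    exact_mod_cast Finset.card_le_card fun L hL => (Finset.mem_filter.1 hL).2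
  refine (abs_mn_le _ _).trans ?_
  unfold mn
  rw [div_le_iff₀ (hn'.trans_le hX)]
  refine (Finset.sum_le_sum hpt).trans ?_
  rw [Finset.sum_add_distrib, Finset.sum_add_distrib, Finset.sum_const, nsmul_eq_mul]
  have h1 := hcard A
  have h2 := hcard B
  have h3 := mul_le_mul_of_nonneg_left hX hε.le
  linarith

end Pool.Agent.EQ
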