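import Pool.Agent.P.MP_ad7a55_nt.XKe
import Pool.Agent.P.MP_ad7a55_nt.XKg

/-! Hecke averages of products with two different directions are small. -/

set_option autoImplicit false

noncomputable section

open MeasureTheory Topology Filter UpperHalfPlane
open scoped MatrixGroups BoundedContinuousFunction Matrix Classical

namespace Pool.Agent.EQ

theorem xkf_cg {M : ℕ} {γ : SL(2, ℤ)} (h : γ ∈ CongruenceSubgroup.Gamma M) :
    Cg M (γ : M2) 1 := by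
  obtain ⟨h0, h1, h2, h3⟩ := CongruenceSubgroup.Gamma_mem.1 h
  intro i j
  rw [← ZMod.intCast_zmod_eq_zero_iff_dvd]
  fin_cases i <;> fin_cases j <;> simp [h0, h1, h2, h3]

theorem xkf_same {M n : ℕ} {f : ℍ → ℝ} (hf : GInv M f) (hn : 0 < n) {η η' : M2} {s : ℤ}
    (hs : IsCoprime s M) (h : η.det = n) (h' : η'.det = n) (hk : Ker n η = Ker n η')
    (c : Cg M η s) (c' : Cg M η' s) (τ : ℍ) : f (act η' τ) = f (act η τ) := by
  obtain ⟨γ, rfl⟩ := exists_SL_of_Ker hn h h' hk.le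
  have h0 : 0 < η.det := by
    rw [h]
    exact_mod_cast hn
  rw [act_mul (by rw [γ.det_coe]; exact one_pos) h0, act_SL]
  exact hf γ (Cg.gamma hs c c') _

theorem xkf_cop {M n : ℕ} {s : ℤ} (h : n.Coprime M) (hs : (M : ℤ) ∣ (n : ℤ) - s ^ 2) :
    IsCoprime s M := by
  obtain ⟨a, b, hab⟩ := Nat.isCoprime_iff_coprime.2 h
  obtain ⟨t, ht⟩ := hs
  exact ⟨a * s, a * t + b, by linear_combination hab - a * ht⟩

theorem xkf_prod {ι : Type} (S : Finset ι) {a b : ι → ℝ} (ha : ∀ i, |a i| ≤ 1)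
    (hb : ∀ i, |b i| ≤ 1) {δ : ℝ} (h : ∀ i, |a i - b i| ≤ δ) :
    |∏ i ∈ S, a i - ∏ i ∈ S, b i| ≤ S.card * δ := by
  induction S using Finset.induction_on with
  | empty => simp
  | insert i S hi ih =>
    rw [Finset.prod_insert hi, Finset.prod_insert hi, Finset.card_insert_of_notMem hi]
    have h1 : |∏ j ∈ S, b j| ≤ 1 := by
      rw [Finset.abs_prod]
      exact Finset.prod_le_one (fun j _ => abs_nonneg _) fun j _ => hb j
    have e : a i * ∏ j ∈ S, a j - b i * ∏ j ∈ S, b j =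
        a i * (∏ j ∈ S, a j - ∏ j ∈ S, b j) + (a i - b i) * ∏ j ∈ S, b j := by ring
    have h2 := mul_le_mul (ha i) ih (abs_nonneg _) zero_le_one
    have h3 := mul_le_mul (h i) h1 (abs_nonneg _) ((abs_nonneg _).trans (h i))
    rw [e]
    refine (abs_add_le _ _).trans ?_
    rw [abs_mul, abs_mul]
    push_cast
    linarith

theorem xkf_IN_sum {N : ℕ} (hN : 0 < N) {ι : Type} (S : Finset ι) (F : ι → (ℍ →ᵇ ℝ)) :
    IN N (∑ i ∈ S, F i) = ∑ i ∈ S, IN N (F i) := by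
  have : NeZero N := ⟨hN.ne'⟩
  have := mH_prob (Γ := CongruenceSubgroup.Gamma N)
  unfold IN
  rw [← integral_finsetSum S fun i _ => (F i).integrable _]
  simp only [BoundedContinuousFunction.sum_apply]

theorem xkf_IN_smul (N : ℕ) (c : ℝ) (F : ℍ →ᵇ ℝ) : IN N (c • F) = c * IN N F := by
  unfold IN
  rw [← integral_const_mul]
  rfl

/-- The Hecke average. -/
def xkfG (X : Finset (Set V2)) (f : ℍ →ᵇ ℝ) (ρ : Set V2 → M2) : ℍ →ᵇ ℝ :=
  (X.card : ℝ)⁻¹ • ∑ L ∈ X, cact f (ρ L)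

theorem xkf_apply (X : Finset (Set V2)) (f : ℍ →ᵇ ℝ) (ρ : Set V2 → M2) (z : ℍ) :
    xkfG X f ρ z = mn X fun L => f (act (ρ L) z) := by
  unfold xkfG mn
  rw [BoundedContinuousFunction.coe_smul, div_eq_inv_mul]
  simp only [BoundedContinuousFunction.sum_apply, cact_apply, smul_eq_mul]

theorem xkf_mn_le {α : Type} {X : Finset α} {G : α → ℝ} {c : ℝ} (hc : 0 ≤ c)
    (h : ∀ x ∈ X, |G x| ≤ c) : |mn X G| ≤ c := by
  rcases X.eq_empty_or_nonempty with rfl | hX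
  · simpa [mn] using hc
  exact (abs_mn_le X G).trans ((mn_mono h).trans (mn_const hX c).le)

theorem xkf_sq {N : ℕ} (hN : 0 < N) {X : Finset (Set V2)} (hX : X.Nonempty) {f : ℍ →ᵇ ℝ}
    (hf : ∀ z, |f z| ≤ 1) (ρ : Set V2 → M2) {δ : ℝ} (hδ : 0 ≤ δ)
    (h : ∀ L ∈ X, ∀ L' ∈ X, L ≠ L' → IN N (cact f (ρ L) * cact f (ρ L')) ≤ δ) :
    IN N (xkfG X f ρ * xkfG X f ρ) ≤ 1 / X.card + δ := by
  have hc : (0 : ℝ) < X.card := by exact_mod_cast hX.card_pos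
  have h1 : ∀ L ∈ X, ∑ L' ∈ X, IN N (cact f (ρ L) * cact f (ρ L')) ≤ 1 + X.card * δ := by
    intro L hL
    have h2 : ∀ L' ∈ X, IN N (cact f (ρ L) * cact f (ρ L')) ≤ (if L = L' then 1 else 0) + δ := by
      intro L' hL'
      split_ifs with e
      · refine (le_abs_self _).trans ((abs_IN_le hN _).trans (le_trans ?_ (le_add_of_nonneg_right hδ)))
        refine (BoundedContinuousFunction.norm_le zero_le_one).2 fun z => ?_
        rw [BoundedContinuousFunction.mul_apply, Real.norm_eq_abs, abs_mul]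
        exact mul_le_one₀ (hf _) (abs_nonneg _) (hf _)
      · rw [zero_add]
        exact h L hL L' hL' e
    refine (Finset.sum_le_sum h2).trans (le_of_eq ?_)
    rw [Finset.sum_add_distrib, Finset.sum_ite_eq, if_pos hL, Finset.sum_const, nsmul_eq_mul]
  unfold xkfG
  rw [smul_mul_smul_comm, xkf_IN_smul, Finset.sum_mul_sum, xkf_IN_sum hN]
  simp only [xkf_IN_sum hN]
  have h3 := Finset.sum_le_sum h1
  rw [Finset.sum_const, nsmul_eq_mul] at h3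
  refine (mul_le_mul_of_nonneg_left h3 (by positivity)).trans (le_of_eq ?_)
  field_simp

theorem xkf_ginv {M n : ℕ} (hn : 0 < n) {f : ℍ →ᵇ ℝ} (hf : GInv M f) {s : ℤ} (hs : IsCoprime s M)
    {ρ : Set V2 → M2} (h : ∀ L ∈ Xn n, (ρ L).det = n ∧ Ker n (ρ L) = L ∧ Cg M (ρ L) s) :
    GInv M (xkfG (Xn n) f ρ) := by
  intro γ hγ τ
  have hc : IsCoprime (γ : M2).det n := by
    rw [γ.det_coe]
    exact isCoprime_one_left
  rw [xkf_apply, xkf_apply]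
  unfold mn
  rw [← sum_Xn_pull hn hc fun L => f (act (ρ L) τ)]
  congr 1
  refine Finset.sum_congr rfl fun L hL => ?_
  obtain ⟨a1, a2, a3⟩ := h L hL
  obtain ⟨b1, b2, b3⟩ := h _ ((mem_Xn hn).2 (((mem_Xn hn).1 hL).pull hn hc))
  beta_reduce
  rw [← act_SL, ← act_mul (ξ := ρ L) (η := (γ : M2)) (by rw [a1]; exact_mod_cast hn)
    (by rw [γ.det_coe]; exact one_pos)]
  refine xkf_same hf hn hs b1 (by rw [Matrix.det_mul, γ.det_coe, mul_one, a1]) ?_ b3 ?_ τ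
  · rw [b2]
    ext v
    rw [mem_Ker_mul, a2]
    rfl
  · have := a3.mul (xkf_cg hγ)
    rwa [mul_one] at this

theorem xkf_split {M n n' : ℕ} (hn : 0 < n) (hn' : 0 < n') (hc : n.Coprime n') {f : ℍ →ᵇ ℝ}
    (hf : GInv M f) {s s' : ℤ} (hs : IsCoprime s M) (hs' : IsCoprime s' M) {ρ₁ ρ₂ : Set V2 → M2}
    (h₁ : ∀ L ∈ Xn n, (ρ₁ L).det = n ∧ Ker n (ρ₁ L) = L ∧ Cg M (ρ₁ L) s)
    (h₂ : ∀ L ∈ Xn n', (ρ₂ L).det = n' ∧ Ker n' (ρ₂ L) = L ∧ Cg M (ρ₂ L) s')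
    {ρ : Set V2 × Set V2 → M2} (h : ∀ L ∈ Xn n ×ˢ Xn n', (ρ L).det = (n * n' : ℕ) ∧
      Ker n (ρ L) = L.1 ∧ Ker n' (ρ L) = L.2 ∧ Cg M (ρ L) (s * s')) (τ : ℍ) :
    (mn (Xn n ×ˢ Xn n') fun L => f (act (ρ L) τ)) =
      mn (Xn n) fun L => xkfG (Xn n') f ρ₂ (act (ρ₁ L) τ) := by
  simp only [xkf_apply]
  unfold mn
  rw [Finset.sum_product, Finset.card_product, Nat.cast_mul, ← Finset.sum_div, div_div,
    mul_comm ((Xn n').card : ℝ)]
  congr 1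
  refine Finset.sum_congr rfl fun L hL => ?_
  obtain ⟨a1, a2, a3⟩ := h₁ L hL
  have c1 : IsCoprime (ρ₁ L).det n' := by
    rw [a1]
    exact Nat.isCoprime_iff_coprime.2 hc
  rw [← sum_Xn_pull hn' c1 fun L' => f (act (ρ (L, L')) τ)]
  refine Finset.sum_congr rfl fun L' hL' => ?_
  obtain ⟨b1, b2, b3⟩ := h₂ L' hL'
  obtain ⟨d1, d2, d3, d4⟩ := h (L, {v | ρ₁ L *ᵥ v ∈ L'})
    (Finset.mem_product.2 ⟨hL, (mem_Xn hn').2 (((mem_Xn hn').1 hL').pull hn' c1)⟩)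
  have c2 : IsCoprime (ρ₂ L').det n := by
    rw [b1]
    exact Nat.isCoprime_iff_coprime.2 hc.symm
  beta_reduce
  rw [← act_mul (ξ := ρ₂ L') (η := ρ₁ L) (by rw [b1]; exact_mod_cast hn')
    (by rw [a1]; exact_mod_cast hn)]
  refine xkf_same hf (Nat.mul_pos hn hn') (hs.mul_left hs') ?_ d1 ?_ ?_ d4 τ
  · rw [Matrix.det_mul, a1, b1, Nat.cast_mul, mul_comm]
  · rw [Ker_inter hc, Ker_inter hc, d2, d3, Ker_cop c2, a2]
    congr 1
    ext v
    rw [mem_Ker_mul, b2]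
    rfl
  · rw [mul_comm s]
    exact b3.mul a3

variable {κ : Type} [Fintype κ] [Nonempty κ]

omit [Nonempty κ] in
theorem xkf_Fz (N : ℕ) (φ : κ → (ℍ →ᵇ ℝ)) (ζ : κ → M2) (z : ℍ) :
    Fz N φ ζ z = ∏ k, φ k (act (ζ k) z) - ∏ k, IN N (φ k) := by
  unfold Fz
  rw [BoundedContinuousFunction.sub_apply, BoundedContinuousFunction.prod_apply]
  rfl

omit [Nonempty κ] in
theorem xkf_Fz_mul (N : ℕ) (φ : κ → (ℍ →ᵇ ℝ)) {ζ : κ → M2} (h : ∀ k, 0 < (ζ k).det) {η : M2}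
    (hη : 0 < η.det) (z : ℍ) : Fz N φ (fun k => ζ k * η) z = Fz N φ ζ (act η z) := by
  rw [xkf_Fz, xkf_Fz]
  simp only [fun k => act_mul (h k) hη z]

theorem xkf_lip (N : ℕ) {φ : κ → (ℍ →ᵇ ℝ)} (hb : ∀ k, ‖φ k‖ ≤ 1 / 2) {ω : ℝ → ℝ}
    (hc : ∀ k, EqC ω (φ k)) {ζ : κ → M2} (h : ∀ k, 0 < (ζ k).det) {ε : ℝ} (hε : 0 < ε) {z w : ℍ}
    (hd : dist z w ≤ ω (ε / (2 * Fintype.card κ))) : |Fz N φ ζ z - Fz N φ ζ w| ≤ ε / 2 := by
  have hκ : (0 : ℝ) < Fintype.card κ := by exact_mod_cast Fintype.card_pos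
  have h1 : ∀ k u, |φ k u| ≤ 1 := fun k u =>
    ((φ k).norm_coe_le_norm u).trans ((hb k).trans (by norm_num))
  rw [xkf_Fz, xkf_Fz, sub_sub_sub_cancel_right]
  refine (xkf_prod Finset.univ (fun k => h1 k _) (fun k => h1 k _) fun k =>
    hc k (ε / (2 * Fintype.card κ)) (by positivity) _ _ (by rwa [dist_act (h k)])).trans
      (le_of_eq ?_)
  rw [Finset.card_univ]
  field_simp

omit [Fintype κ] [Nonempty κ] in
theorem xkf_det {N m M q : ℕ} {ζ ζ' : κ → M2} (h : Tw N m M q ζ ζ') (b : Bool) (k : κ) :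
    ∃ d : ℕ, 0 < d * q ∧ ¬ q ∣ d ∧ N * (d * q) ∣ M ∧ (cond b ζ ζ' k).det = (d * q : ℕ) := by
  obtain ⟨d, h1, h2, h3, h4, h5⟩ := h.det k
  refine ⟨d, Nat.mul_pos h1 h.prime.pos, h2, h3, ?_⟩
  cases b
  · exact h5
  · exact h4

omit [Fintype κ] [Nonempty κ] in
theorem xkf_rel {N m M q : ℕ} {ζ ζ' : κ → M2} (h : Tw N m M q ζ ζ') {l e : ℕ} (hl : l.Prime)
    (hm : m < l) (hM : ¬ l ∣ M) {η η' : M2} (hη : η.det = (l ^ e : ℕ))
    (hη' : η'.det = (l ^ e : ℕ)) (hk : Ker (l ^ e) η = Ker (l ^ e) η' → η = η') {b b' : Bool}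
    {k k' : κ} (hr : Rel m (cond b ζ ζ' k * η) (cond b' ζ ζ' k' * η')) :
    η = η' ∧ b = b' ∧ k = k' := by
  obtain ⟨d, a1, a2, a3, a4⟩ := xkf_det h b k
  obtain ⟨d', b1, b2, b3, b4⟩ := xkf_det h b' k'
  have nd : ∀ x : ℕ, N * x ∣ M → ¬ l ∣ x := fun x hx hlx =>
    hM (hlx.trans ((Dvd.intro_left N rfl).trans hx))
  have cp : ∀ x : ℕ, N * x ∣ M → IsCoprime (x : ℤ) (l ^ e : ℕ) := fun x hx =>
    Nat.isCoprime_iff_coprime.2 ((hl.coprime_iff_not_dvd.2 (nd x hx)).symm.pow_right e)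
  have e1 : η = η' := by
    have := hr.ker (e := e) hl hm (a := (d * q : ℕ)) (b := (d' * q : ℕ))
      (by rw [Matrix.det_mul, a4, hη, Nat.cast_pow, mul_comm])
      (by rw [Matrix.det_mul, b4, hη', Nat.cast_pow, mul_comm])
      (fun x => nd _ a3 (Int.natCast_dvd_natCast.1 x))
      (fun x => nd _ b3 (Int.natCast_dvd_natCast.1 x))
    rw [Ker_cop (by rw [a4]; exact cp _ a3), Ker_cop (by rw [b4]; exact cp _ b3)] at this
    exact hk this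
  subst e1
  have h2 := hr.cancel (by rw [hη]; exact_mod_cast (pow_pos hl.pos e).ne')
  have h3 := h2.ker (e := 1) h.prime h.lt (a := d) (b := d')
    (by rw [a4, Nat.cast_mul, pow_one, mul_comm]) (by rw [b4, Nat.cast_mul, pow_one, mul_comm])
    (fun x => a2 (Int.natCast_dvd_natCast.1 x)) (fun x => b2 (Int.natCast_dvd_natCast.1 x))
  rw [pow_one] at h3
  refine ⟨rfl, ?_⟩
  cases b <;> cases b'
  · exact ⟨rfl, by_contra fun x => (h.rel k k' x).2 h2⟩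
  · exact absurd h3.symm (h.ne k' k)
  · exact absurd h3 (h.ne k k')
  · exact ⟨rfl, by_contra fun x => (h.rel k k' x).1 h2⟩

theorem he_main {N : ℕ} (hN : 0 < N) (φ : κ → (ℍ →ᵇ ℝ)) (hφ : ∀ k, GInv N (φ k))
    (hb : ∀ k, ‖φ k‖ ≤ 1 / 2) {ω : ℝ → ℝ} (hω : ∀ ε, 0 < ε → 0 < ω ε) (hc : ∀ k, EqC ω (φ k))
    (U : ℝ) {ε : ℝ} (hε : 0 < ε) : ∃ m a : ℕ, ∀ (M q : ℕ) (ζ ζ' : κ → M2), 0 < M →
      Tw N m M q ζ ζ' → ∀ (l l' k e : ℕ) (s s' : ℤ), l.Prime → l'.Prime → l ≠ l' → m * k ≤ l →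
      m < l' → ¬ l ∣ M → ¬ l' ∣ M → 0 < k → 0 < e → M ^ a ≤ l ^ k →
      (M : ℤ) ∣ (l ^ k : ℕ) - s ^ 2 → (M : ℤ) ∣ (l' ^ e : ℕ) - s' ^ 2 → ∀ τ ∈ KU U,
      ∀ ρ : Set V2 × Set V2 → M2, (∀ L ∈ Xn (l ^ k) ×ˢ Xn (l' ^ e),
        (ρ L).det = (l ^ k * l' ^ e : ℕ) ∧ Ker (l ^ k) (ρ L) = L.1 ∧ Ker (l' ^ e) (ρ L) = L.2 ∧
          Cg M (ρ L) (s * s')) →
      |mn (Xn (l ^ k) ×ˢ Xn (l' ^ e)) fun L => (Fz N φ ζ * Fz N φ ζ') (act (ρ L) τ)| ≤ ε := by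
  have hκ : (0 : ℝ) < Fintype.card κ := by exact_mod_cast Fintype.card_pos
  obtain ⟨ε', a, l₀, hε', hP⟩ := he_point U (ω := fun x => ω (x / (2 * Fintype.card κ)))
    (fun x hx => hω _ (by positivity)) hε
  obtain ⟨m₀, hF⟩ := four_fold hN φ hφ (half_pos hε')
  refine ⟨l₀ + m₀ + ⌈2 / ε'⌉₊, a, ?_⟩
  intro M q ζ ζ' hM hT l l' k e s s' hl hl' hne hml hml' hlM hlM' hk he hMa hs hs' τ hτ ρ hρ
  have hn : 0 < l ^ k := pow_pos hl.pos k
  have hn' : 0 < l' ^ e := pow_pos hl'.pos e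
  have cs : IsCoprime s M := xkf_cop ((hl.coprime_iff_not_dvd.2 hlM).pow_left k) hs
  have cs' : IsCoprime s' M := xkf_cop ((hl'.coprime_iff_not_dvd.2 hlM').pow_left e) hs'
  have cn : (l ^ k).Coprime (l' ^ e) := Nat.coprime_pow_primes k e hl hl' hne
  choose! ρ₁ h₁ using fun (L : Set V2) (hL : L ∈ Xn (l ^ k)) =>
    ((mem_Xn hn).1 hL).exists_Cg hn hM cs hs
  choose! ρ₂ h₂ using fun (L : Set V2) (hL : L ∈ Xn (l' ^ e)) =>
    ((mem_Xn hn').1 hL).exists_Cg hn' hM cs' hs'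
  have hf := Fz_ginv hφ hT
  have hd : ∀ b k, 0 < (cond b ζ ζ' k).det := fun b k => by
    obtain ⟨d, a1, -, -, a4⟩ := xkf_det hT b k
    rw [a4]
    exact_mod_cast a1
  have hd2 : ∀ L ∈ Xn (l' ^ e), 0 < (ρ₂ L).det := fun L hL => by
    rw [(h₂ L hL).1]
    exact_mod_cast hn'
  have hb1 : ∀ z, |(Fz N φ ζ * Fz N φ ζ') z| ≤ 1 := fun z => by
    rw [BoundedContinuousFunction.mul_apply, abs_mul]
    exact mul_le_one₀ (abs_Fz_le hN hb _ _) (abs_nonneg _) (abs_Fz_le hN hb _ _)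
  have hg := xkf_ginv hn' hf cs' h₂
  rw [xkf_split hn hn' cn hf cs cs' h₁ h₂ hρ τ]
  refine hP M _ hM hg (fun z => ?_) (fun x hx z w hzw => ?_) ?_ l k s hl
    ((Nat.mul_le_mul_right k (by omega)).trans hml) hk hlM hMa cs τ hτ ρ₁ h₁
  · rw [xkf_apply]
    exact xkf_mn_le zero_le_one fun L _ => hb1 _
  · rw [xkf_apply, xkf_apply]
    have e1 : ∀ G G' : Set V2 → ℝ, mn (Xn (l' ^ e)) G - mn (Xn (l' ^ e)) G' =
        mn (Xn (l' ^ e)) fun L => G L - G' L := fun G G' => by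
      unfold mn
      rw [Finset.sum_sub_distrib, sub_div]
    rw [e1]
    refine xkf_mn_le hx.le fun L hL => ?_
    have h0 : dist (act (ρ₂ L) z) (act (ρ₂ L) w) ≤ ω (x / (2 * Fintype.card κ)) := by
      rwa [dist_act (hd2 L hL)]
    have h1 := xkf_lip N hb hc (hd true) hx h0
    have h2 := xkf_lip N hb hc (hd false) hx h0
    have h3 := mul_le_mul (abs_Fz_le hN hb ζ (act (ρ₂ L) z)) h2 (abs_nonneg _) zero_le_one
    have h4 := mul_le_mul h1 (abs_Fz_le hN hb ζ' (act (ρ₂ L) w)) (abs_nonneg _) (half_pos hx).le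
    rw [← abs_mul] at h3 h4
    have h5 := (abs_add_le _ _).trans (add_le_add h3 h4)
    refine le_trans (le_of_eq (congrArg _ ?_)) (h5.trans (le_of_eq (by ring)))
    simp only [BoundedContinuousFunction.mul_apply, cond_true, cond_false]
    ring
  · have hcard : l' ^ e ≤ (Xn (l' ^ e)).card := (card_Xn hl' he).1
    have hgg : GInv M (xkfG (Xn (l' ^ e)) (Fz N φ ζ * Fz N φ ζ') ρ₂ *
        xkfG (Xn (l' ^ e)) (Fz N φ ζ * Fz N φ ζ') ρ₂) := fun γ hγ z => by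
      rw [BoundedContinuousFunction.mul_apply, BoundedContinuousFunction.mul_apply, hg γ hγ z]
    rw [← IN_level hM (Nat.mul_pos hM hn') (Dvd.intro _ rfl) hgg]
    refine (xkf_sq (Nat.mul_pos hM hn') (Finset.card_pos.1 (hn'.trans_le hcard)) hb1 ρ₂
      (half_pos hε').le fun L hL L' hL' hLL => ?_).trans ?_
    · let b : Fin 4 → Bool := ![true, false, true, false]
      let Λ : Fin 4 → Set V2 := ![L, L, L', L']
      have hΛ : ∀ i, Λ i ∈ Xn (l' ^ e) := fun i => by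
        fin_cases i
        exacts [hL, hL, hL', hL']
      have hinj : ∀ i j, Λ i = Λ j → b i = b j → i = j := fun i j => by
        fin_cases i <;> fin_cases j <;> simp [b, Λ, hLL, hLL.symm]
      have h4 := hF (M * l' ^ e) (fun i k => cond (b i) ζ ζ' k * ρ₂ (Λ i)) (Nat.mul_pos hM hn')
        (fun i k => ?_) fun i k j k' hij hr => ?_
      · refine le_trans (le_of_eq (congrArg _ ?_)) ((le_abs_self _).trans h4)
        ext z
        rw [BoundedContinuousFunction.prod_apply]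
        simp only [fun i => xkf_Fz_mul N φ (hd (b i)) (hd2 _ (hΛ i)) z]
        rw [Fin.prod_univ_four, mul_assoc]
        rfl
      · obtain ⟨d, a1, -, a3, a4⟩ := xkf_det hT (b i) k
        refine ⟨by rw [Matrix.det_mul]; exact mul_pos (hd _ _) (hd2 _ (hΛ i)), ?_⟩
        rw [Matrix.det_mul, a4, (h₂ _ (hΛ i)).1, ← Nat.cast_mul, Int.natAbs_natCast, ← mul_assoc]
        exact Nat.mul_dvd_mul_right a3 _
      · obtain ⟨r1, r2, r3⟩ := xkf_rel hT hl' hml' hlM' (h₂ _ (hΛ i)).1 (h₂ _ (hΛ j)).1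
          (fun x => by rw [(h₂ _ (hΛ i)).2.1, (h₂ _ (hΛ j)).2.1] at x; rw [x])
          (hr.mono (by omega))
        refine hij (Prod.ext (hinj i j ?_ r2) r3)
        rw [← (h₂ _ (hΛ i)).2.1, r1, (h₂ _ (hΛ j)).2.1]
    · have h1 : ⌈2 / ε'⌉₊ ≤ (Xn (l' ^ e)).card :=
        le_trans (by omega) ((Nat.le_self_pow he.ne' l').trans hcard)
      have h2 : 2 / ε' ≤ (Xn (l' ^ e)).card := Nat.ceil_le.1 h1
      have h3 : (0 : ℝ) < (Xn (l' ^ e)).card := by exact_mod_cast hn'.trans_le hcard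
      rw [div_le_iff₀ hε'] at h2
      have h4 : 1 / ((Xn (l' ^ e)).card : ℝ) ≤ ε' / 2 := by
        rw [div_le_iff₀ h3]
        linarith
      linarith

end Pool.Agent.EQ
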