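import Pool.Agent.P.MP_ad7a55_nt.XDa
import Pool.Agent.P.MP_ad7a55_nt.XKf
import Pool.Agent.P.MP_ad7a55_nt.XEc
import Pool.Agent.P.MP_ad7a55_nt.XBc

/-! Bad directions are rare. -/

set_option autoImplicit false

noncomputable section

open MeasureTheory Topology Filter UpperHalfPlane Finset
open scoped MatrixGroups BoundedContinuousFunction Matrix Classical

namespace Pool.Agent.EQ

theorem xdc_tel (ι : Type) [Fintype ι] : ∃ A B : ι → Finset ι, (∀ c, c ∉ A c) ∧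
    ∀ a b : ι → ℝ, ∏ c, a c - ∏ c, b c =
      ∑ c, ((∏ j ∈ A c, a j) * ∏ j ∈ B c, b j) * (a c - b c) := by
  let _ : LinearOrder ι := LinearOrder.lift' (Fintype.equivFin ι) (Fintype.equivFin ι).injective
  refine ⟨fun c => {j | j < c}, fun c => {j | c < j}, fun c => by simp, fun a b => ?_⟩
  have h := Finset.prod_add_ordered (univ : Finset ι) b (fun c => a c - b c)
  simp only [add_sub_cancel] at h
  rw [h, add_sub_cancel_left]
  exact sum_congr rfl fun c _ => by ring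

theorem xdc_prod_le {ι : Type} (A : Finset ι) {a : ι → ℝ} (h : ∀ j, |a j| ≤ 1) :
    |∏ j ∈ A, a j| ≤ 1 := by
  rw [Finset.abs_prod]
  exact Finset.prod_le_one (fun j _ => abs_nonneg _) fun j _ => h j

theorem xdc_fib {ι Y : Type} [Fintype ι] (X : Finset Y) (c : ι) (S : Finset (ι → Y))
    (hS : S ⊆ Fintype.piFinset fun _ : ι => X) {B : ℝ}
    (h : ∀ T ⊆ S, (∀ ξ ∈ T, ∀ ξ' ∈ T, ∀ j, j ≠ c → ξ j = ξ' j) → (#T : ℝ) ≤ B) :
    (#S : ℝ) ≤ B * (#X : ℝ) ^ (Fintype.card ι - 1) := by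
  have h1 := card_eq_sum_card_fiberwise (s := S)
    (t := Fintype.piFinset fun _ : {j : ι // ¬ j = c} => X) (f := fun ξ j => ξ j.1)
    (fun ξ hξ => by
      have := Fintype.mem_piFinset.1 (hS hξ)
      exact Fintype.mem_piFinset.2 fun j => this j.1)
  rw [h1]
  push_cast
  refine (sum_le_card_nsmul _ _ B fun b _ => h _ (filter_subset _ _) fun ξ hξ ξ' hξ' j hj => ?_).trans
    (le_of_eq ?_)
  · exact (congrFun (mem_filter.1 hξ).2 ⟨j, hj⟩).trans (congrFun (mem_filter.1 hξ').2 ⟨j, hj⟩).symm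
  · rw [Fintype.card_piFinset, prod_const, card_univ, Fintype.card_subtype_compl,
      Fintype.card_subtype_eq, nsmul_eq_mul, mul_comm]
    push_cast
    rfl

theorem cor_count {ι Y : Type} [Fintype ι] [Nonempty ι] {M : ℕ} (hM : 0 < M) (X : Finset Y)
    (G : ι → Y → Fin M → ℝ) (I : ι → ℝ) (W : Fin M → ℝ) {t e : ℝ} (ht : 0 < t)
    (hG : ∀ c, ∀ ξ ∈ X, ∀ i, |G c ξ i| ≤ 1 ∧ |G c ξ i - I c| ≤ 1) (hI : ∀ c, |I c| ≤ 1)
    (hW : ∀ i, |W i| ≤ 1)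
    (h : ∀ c, ∀ ξ ∈ X, ∀ ξ' ∈ X, ξ ≠ ξ' → |∑ i, (G c ξ i - I c) * (G c ξ' i - I c)| ≤ e * M)
    (he : 2 * e ≤ (t / Fintype.card ι) ^ 2) :
    (#{ξ ∈ Fintype.piFinset fun _ : ι => X |
      t * M ≤ |∑ i, W i * (∏ c, G c (ξ c) i - ∏ c, I c)|} : ℝ) ≤
      2 * (Fintype.card ι : ℝ) ^ 3 / t ^ 2 * (#X : ℝ) ^ (Fintype.card ι - 1) := by
  obtain ⟨A, B, hA, hAB⟩ := xdc_tel ι
  have hr : (0 : ℝ) < Fintype.card ι := by exact_mod_cast Fintype.card_pos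
  have ht' : 0 < t / Fintype.card ι := div_pos ht hr
  let w : ι → (ι → Y) → Fin M → ℝ := fun c ξ i =>
    W i * ((∏ j ∈ A c, G j (ξ j) i) * ∏ j ∈ B c, I j)
  let S : ι → Finset (ι → Y) := fun c => {ξ ∈ Fintype.piFinset fun _ : ι => X |
    t / Fintype.card ι * M ≤ |∑ i, w c ξ i * (G c (ξ c) i - I c)|}
  have h1 : ∀ c, (#(S c) : ℝ) ≤
      2 / (t / Fintype.card ι) ^ 2 * (#X : ℝ) ^ (Fintype.card ι - 1) := fun c => by
    refine xdc_fib X c (S c) (filter_subset _ _) fun T hT hc => ?_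
    rcases T.eq_empty_or_nonempty with rfl | ⟨ξ₀, h0⟩
    · rw [card_empty, Nat.cast_zero]
      positivity
    have hX : ∀ ξ ∈ T, ∀ j, ξ j ∈ X := fun ξ hξ =>
      Fintype.mem_piFinset.1 (mem_filter.1 (hT hξ)).1
    refine few_corr hM T (w c ξ₀) (fun ξ i => G c (ξ c) i - I c) ht' (fun i => ?_)
      (fun ξ hξ i => (hG c _ (hX ξ hξ c) i).2) (fun ξ hξ => ?_) (fun ξ hξ ξ' hξ' hne => ?_) he
    · simp only [w, abs_mul]
      exact mul_le_one₀ (hW i) (by positivity) (mul_le_one₀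
        (xdc_prod_le _ fun j => (hG j _ (hX ξ₀ h0 j) i).1) (abs_nonneg _) (xdc_prod_le _ hI))
    · have e1 : w c ξ₀ = w c ξ := funext fun i => by
        simp only [w]
        rw [prod_congr rfl fun j hj => by rw [hc ξ₀ h0 ξ hξ j fun e => hA c (e ▸ hj)]]
      rw [e1]
      exact (mem_filter.1 (hT hξ)).2
    · refine h c _ (hX ξ hξ c) _ (hX ξ' hξ' c) fun e => hne (funext fun j => ?_)
      by_cases hj : j = c
      · rw [hj, e]
      · exact hc ξ hξ ξ' hξ' j hj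
  have h2 : ({ξ ∈ Fintype.piFinset fun _ : ι => X |
      t * M ≤ |∑ i, W i * (∏ c, G c (ξ c) i - ∏ c, I c)|} : Finset (ι → Y)) ⊆ univ.biUnion S := by
    intro ξ hξ
    obtain ⟨a1, a2⟩ := mem_filter.1 hξ
    by_contra hn
    have a3 : ∀ c, |∑ i, w c ξ i * (G c (ξ c) i - I c)| < t / Fintype.card ι * M := fun c =>
      not_le.1 fun a => hn (mem_biUnion.2 ⟨c, mem_univ _, mem_filter.2 ⟨a1, a⟩⟩)
    have a4 : ∑ i, W i * (∏ c, G c (ξ c) i - ∏ c, I c) =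
        ∑ c, ∑ i, w c ξ i * (G c (ξ c) i - I c) := by
      rw [sum_comm]
      refine sum_congr rfl fun i _ => ?_
      rw [hAB (fun c => G c (ξ c) i) I, mul_sum]
      exact sum_congr rfl fun c _ => by simp only [w]; ring
    have a5 := (abs_sum_le_sum_abs _ _).trans_lt (sum_lt_sum_of_nonempty univ_nonempty
      fun c _ => a3 c)
    rw [← a4, sum_const, card_univ, nsmul_eq_mul, ← mul_assoc, mul_div_cancel₀ _ hr.ne'] at a5
    exact absurd a2 (not_le.2 a5)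
  have h3 := (card_le_card h2).trans card_biUnion_le
  have h4 := sum_le_sum fun c (_ : c ∈ (univ : Finset ι)) => h1 c
  rw [sum_const, card_univ, nsmul_eq_mul, ← Nat.cast_sum] at h4
  refine ((Nat.cast_le.2 h3).trans h4).trans (le_of_eq ?_)
  field_simp

theorem xdc_union {α β : Type} (O : Finset α) (I : Finset β) (p : β → α → Prop) {c B : ℝ}
    (hc : 0 ≤ c) (hB : (#I : ℝ) ≤ B) (h : ∀ i ∈ I, prb O (p i) ≤ c) :
    prb O (fun x => ∃ i ∈ I, p i x) ≤ B * c := by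
  refine (pb_exists O I p).trans ((sum_le_card_nsmul _ _ c h).trans ?_)
  rw [nsmul_eq_mul]
  exact mul_le_mul_of_nonneg_right hB hc

theorem xdc_and {α : Type} (O : Finset α) (a : Prop) (p : α → Prop) {c : ℝ} (hc : 0 ≤ c)
    (h : a → prb O p ≤ c) : prb O (fun x => a ∧ p x) ≤ c := by
  by_cases ha : a
  · exact (pb_mono fun x _ hx => hx.2).trans (h ha)
  · simpa [prb, ha] using hc

theorem xdc_tw {κ : Type} {N m m' M q : ℕ} {ζ ζ' : κ → M2} (h : Tw N m' M q ζ ζ') (hm : m ≤ m') :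
    Tw N m M q ζ ζ' :=
  ⟨h.prime, hm.trans_lt h.lt, h.det, h.ne, fun k l hkl =>
    ⟨fun r => (h.rel k l hkl).1 (r.mono hm), fun r => (h.rel k l hkl).2 (r.mono hm)⟩⟩

theorem xdc_rp {N : ℕ} (hN : 0 < N) (d : ℕ) :
    ∃ Z : Finset M2, #Z ≤ N ^ 3 * d ^ 2 ∧ ∀ ζ, RPm N d ζ → ζ ∈ Z := by
  have := vcj_fin hN
  have : Fintype (vcjQ N) := Fintype.ofFinite _
  refine ⟨((univ : Finset (vcjQ N)) ×ˢ Hn d).image fun z => ((z.1.out : SL(2, ℤ)) : M2) * z.2,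
    card_image_le.trans ?_, ?_⟩
  · rw [card_product, card_univ, ← Nat.card_eq_fintype_card]
    exact Nat.mul_le_mul (index_Gamma_le hN) (card_Hn d)
  · rintro _ ⟨c, h, hh, rfl⟩
    exact mem_image.2 ⟨(c, h), mem_product.2 ⟨mem_univ _, hh⟩, rfl⟩

theorem xdc_le_exp (T : ℝ) : T ≤ Real.exp T := by linarith [Real.add_one_le_exp T]

theorem xdc_pow_exp {x T : ℝ} (h0 : 0 ≤ x) (h : x ≤ Real.exp T) (k : ℕ) :
    x ^ k ≤ Real.exp (k * T) := by
  rw [Real.exp_nat_mul]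
  exact pow_le_pow_left₀ h0 h k

theorem xdc_mul_exp {x y a b : ℝ} (hy : 0 ≤ y) (h : x ≤ Real.exp a) (h' : y ≤ Real.exp b) :
    x * y ≤ Real.exp (a + b) := by
  rw [Real.exp_add]
  exact mul_le_mul h h' hy (Real.exp_pos _).le

theorem xdc_pows {T : ℝ} (h : 100 ≤ T) : 4 * T ^ 4 ≤ T ^ 256 ∧ 4 * T ^ 2 ≤ T ^ 64 ∧ T ≤ T ^ 2 := by
  have h1 : (1 : ℝ) ≤ T := by linarith
  have a : ∀ i j : ℕ, i + 1 ≤ j → 4 * T ^ i ≤ T ^ j := fun i j hij =>
    calc 4 * T ^ i ≤ T * T ^ i := mul_le_mul_of_nonneg_right (by linarith) (by positivity)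
      _ = T ^ (i + 1) := by ring
      _ ≤ T ^ j := pow_le_pow_right₀ h1 hij
  exact ⟨a 4 256 (by norm_num), a 2 64 (by norm_num), by nlinarith⟩

namespace Shp

variable {n : ℕ} {ι : Type} (s : Shp n ι)

section
variable {s} {v : VD n} {L T : ℝ} {a m₀ y : ℕ}

theorem xdc_pm (h : s.Ok v L T a m₀ y) {q : ℕ} (hq : s.Pm v y q) :
    T ^ 256 ≤ q ∧ (q : ℝ) ≤ Real.exp T := by
  have h1 : (y : ℝ) ≤ q := by exact_mod_cast hq.2.1.le
  have h2 : (q : ℝ) ≤ 2 * y := by exact_mod_cast hq.2.2.1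
  exact ⟨h.ylo.trans h1, by linarith [h.ylog]⟩

theorem xdc_R (h : s.Ok v L T a m₀ y) : 0 < v.R := by
  have h1 := h.cR.1
  have h2 := h.hT
  have : (0 : ℝ) < v.R := by nlinarith
  exact_mod_cast this

theorem xdc_dd (h : s.Ok v L T a m₀ y) : 0 < s.dd v ∧ (s.dd v : ℝ) ≤ Real.exp (n * T) := by
  refine ⟨prod_pos fun k hk => (h.deg k hk).1, ?_⟩
  have h1 := Finset.prod_le_prod (s := s.J) (f := fun k => (v.dg k : ℝ))
    (g := fun _ => Real.exp T) (fun k _ => Nat.cast_nonneg _) fun k hk => (h.deg k hk).2.1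
  rw [prod_const, ← Nat.cast_prod] at h1
  refine h1.trans ?_
  rw [Real.exp_nat_mul]
  refine pow_le_pow_right₀ (Real.one_le_exp (by linarith [h.hT])) ?_
  simpa using card_le_univ s.J

theorem xdc_xi (h : s.Ok v L T a m₀ y) (i : Fin v.M) : (s.Xi v i).Nonempty := by
  have h1 : 0 < 2 * s.e := by linarith [h.e_pos]
  have p1 := (h.pl i).1.1
  have p2 := (h.pl i).2.1.1
  refine Finset.Nonempty.product (card_pos.1 ?_) (card_pos.1 ?_)
  · exact (pow_pos p1.pos _).trans_le (card_Xn p1 (Nat.mul_pos h1 (xdc_R h))).1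
  · exact (pow_pos p2.pos _).trans_le (card_Xn p2 h1).1

theorem xdc_nd (h : s.Ok v L T a m₀ y) {l q : ℕ} (hl : s.Pm v y l) (hP : l ∉ v.P) (hq : q ∈ v.P) :
    ¬ l ∣ s.N * s.dd v * q := by
  intro hd
  rcases (hl.1.dvd_mul).1 hd with h1 | h1
  · refine hl.2.2.2 ((Int.natCast_dvd_natCast.2 h1).trans ⟨2 * v.E, ?_⟩)
    push_cast
    ring
  · exact hP ((Nat.prime_dvd_prime_iff_eq hl.1 (h.pP q hq).1).1 h1 ▸ hq)

theorem xdc_lev (h : s.Ok v L T a m₀ y) (hN : (s.N : ℝ) ≤ T) {a' : ℕ}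
    (ha : (a' * (n + 2) : ℝ) ≤ T) {q : ℕ} (hq : q ∈ v.P) (i : Fin v.M) :
    (s.N * s.dd v * q) ^ a' ≤ v.l i ^ (2 * s.e * v.R) := by
  have hT := h.hT
  have h1 : ((s.N * s.dd v * q : ℕ) : ℝ) ≤ Real.exp (T + n * T + T) := by
    push_cast
    exact xdc_mul_exp (Nat.cast_nonneg _) (xdc_mul_exp (Nat.cast_nonneg _)
      (hN.trans (xdc_le_exp T)) (xdc_dd h).2) (xdc_pm h (h.pP q hq)).2
  have h2 := xdc_pow_exp (Nat.cast_nonneg _) h1 a'
  have h3 : Real.exp 1 ≤ v.l i := by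
    have b1 := (xdc_pm h (h.pl i).1).1
    have b2 := (xdc_pows hT).1
    have b3 : (1 : ℝ) ≤ T ^ 4 := one_le_pow₀ (by linarith)
    linarith [Real.exp_one_lt_d9]
  have h4 := pow_le_pow_left₀ (Real.exp_pos 1).le h3 (2 * s.e * v.R)
  rw [← Real.exp_nat_mul] at h4
  have h5 : (1 : ℝ) ≤ s.e := by exact_mod_cast h.e_pos
  have h6 : a' * (T + n * T + T) ≤ ((2 * s.e * v.R : ℕ) : ℝ) * 1 := by
    push_cast
    have b1 := h.cR.1
    have b2 : (a' * (n + 2) : ℝ) * T ≤ T * T := mul_le_mul_of_nonneg_right ha (by linarith)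
    have b3 : (1 : ℝ) * v.R ≤ s.e * v.R := mul_le_mul_of_nonneg_right h5 (Nat.cast_nonneg _)
    nlinarith
  exact_mod_cast h2.trans ((Real.exp_le_exp.2 h6).trans h4)

theorem xdc_mk (h : s.Ok v L T a m₀ y) {m : ℕ} (hm : (m * s.e : ℝ) ≤ T) (i : Fin v.M) :
    m * (2 * s.e * v.R) ≤ v.l i ∧ m < v.l' i := by
  have hT := h.hT
  obtain ⟨b1, -, b2⟩ := xdc_pows hT
  have h5 : (1 : ℝ) ≤ s.e := by exact_mod_cast h.e_pos
  have b3 : T ^ 2 * T ≤ T ^ 2 * T ^ 2 := mul_le_mul_of_nonneg_left b2 (by positivity)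
  have b4 : (m * s.e : ℝ) * v.R ≤ T * (2 * T ^ 2) :=
    mul_le_mul hm h.cR.2 (Nat.cast_nonneg _) (by linarith)
  have b5 : (m : ℝ) * 1 ≤ m * s.e := mul_le_mul_of_nonneg_left h5 (Nat.cast_nonneg _)
  have b6 : (1 : ℝ) * T ^ 2 ≤ T ^ 2 * T ^ 2 :=
    mul_le_mul_of_nonneg_right (by linarith) (by positivity)
  constructor
  · have : ((m * (2 * s.e * v.R) : ℕ) : ℝ) ≤ v.l i := by
      push_cast
      nlinarith [(xdc_pm h (h.pl i).1).1]
    exact_mod_cast this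
  · have : (m : ℝ) < v.l' i := by nlinarith [(xdc_pm h (h.pl i).2.1).1]
    exact_mod_cast this

theorem xdc_Z (h : s.Ok v L T a m₀ y) (hN : (s.N : ℝ) ≤ T) {q : ℕ} (hq : q ∈ v.P) (c : ι) :
    ∃ Z : Finset (s.Cu c → M2), (#Z : ℝ) ≤ Real.exp (n * (7 * T)) ∧
      ∀ ζ : s.Cu c → M2, (∀ k : s.Cu c, RPm s.N (v.dg k * q) (ζ k)) → ζ ∈ Z := by
  choose Z hZ hZ' using fun d => xdc_rp h.N_pos d
  refine ⟨Fintype.piFinset fun k : s.Cu c => Z (v.dg k * q), ?_,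
    fun ζ hζ => Fintype.mem_piFinset.2 fun k => hZ' _ _ (hζ k)⟩
  have h1 : ∀ k : s.Cu c, (#(Z (v.dg k * q)) : ℝ) ≤ Real.exp (7 * T) := fun k => by
    have b1 := xdc_pow_exp (Nat.cast_nonneg _) (hN.trans (xdc_le_exp T)) 3
    have b2 := xdc_pow_exp (by positivity) (xdc_mul_exp (Nat.cast_nonneg _)
      (h.deg k k.2.1).2.1 (xdc_pm h (h.pP q hq)).2) 2
    have b3 := xdc_mul_exp (by positivity) b1 b2
    have b4 : (#(Z (v.dg k * q)) : ℝ) ≤ (s.N : ℝ) ^ 3 * ((v.dg k : ℝ) * q) ^ 2 := by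
      exact_mod_cast hZ _
    refine b4.trans (b3.trans (le_of_eq ?_))
    congr 1
    push_cast
    ring
  have h2 := Finset.prod_le_prod (s := univ) (fun k _ => Nat.cast_nonneg _) fun k _ => h1 k
  rw [prod_const, ← Nat.cast_prod, ← Fintype.card_piFinset] at h2
  refine h2.trans ?_
  rw [Real.exp_nat_mul]
  refine pow_le_pow_right₀ (Real.one_le_exp (by linarith [h.hT])) ?_
  simpa using Fintype.card_subtype_le fun k : Fin n => k ∈ s.J ∧ s.bs k = c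

end

theorem bad_prob (hN : 0 < s.N) (φ : Fin n → (ℍ →ᵇ ℝ)) (hφ : ∀ k, GInv s.N (φ k))
    (hb : ∀ k, ‖φ k‖ ≤ 1 / 2) {ω : ℝ → ℝ} (hω : ∀ ε, 0 < ε → 0 < ω ε) (hc : ∀ k, EqC ω (φ k))
    (U : ℝ) {ε : ℝ} (hε : 0 < ε) (Rn : Finset ℍ) (hR : ∀ w ∈ Rn, w ∈ KU U) (c : ι) :
    ∃ (m : ℕ) (T₀ : ℝ), ∀ (v : VD n) (L T : ℝ) (a m₀ y m' : ℕ), T₀ ≤ T → s.Ok v L T a m₀ y →
      m ≤ m' → prb (Fintype.piFinset (s.Xi v)) (s.Bad v φ m' ε Rn c) ≤ Real.exp (-T) := by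
  have : Nonempty (s.Cu c) := ⟨⟨s.cr c, s.mem c, s.bs_cr c⟩⟩
  obtain ⟨m, a', H⟩ := he_main hN (fun k : s.Cu c => φ k) (fun k => hφ k) (fun k => hb k) hω
    (fun k => hc k) U (half_pos hε)
  obtain ⟨t, t0, t1, t2⟩ : ∃ t : ℝ, 0 < t ∧ t ≤ 1 ∧ t ≤ ε / 2 :=
    ⟨min 1 (ε / 2), lt_min one_pos (half_pos hε), min_le_left _ _, min_le_right _ _⟩
  refine ⟨m, s.N + a' * (n + 2) + m * s.e + #Rn + 16 * (16 + 14 * n) / t ^ 2,
    fun v L T a m₀ y m' hT h hm => ?_⟩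
  have n1 : (0 : ℝ) ≤ s.N := Nat.cast_nonneg _
  have n2 : (0 : ℝ) ≤ a' * (n + 2) := by positivity
  have n3 : (0 : ℝ) ≤ m * s.e := by positivity
  have n4 : (0 : ℝ) ≤ #Rn := Nat.cast_nonneg _
  have n5 : (0 : ℝ) ≤ 16 * (16 + 14 * n) / t ^ 2 := by positivity
  have hT0 := h.hT
  have e0 : 0 < 2 * s.e := by linarith [h.e_pos]
  have key : ∀ w ∈ Rn, ∀ q ∈ v.P, ∀ ζ ζ' : s.Cu c → M2, Tw s.N m' (s.N * s.dd v * q) q ζ ζ' →
      prb (Fintype.piFinset (s.Xi v)) (fun Ls => ε * v.M <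
        |∑ i, (Fz s.N (fun k : s.Cu c => φ k) ζ * Fz s.N (fun k : s.Cu c => φ k) ζ')
          (act (s.rho v i (Ls i)) w)|) ≤ 2 * Real.exp (-(t ^ 2 * v.M / 16)) := by
    intro w hw q hq ζ ζ' hz
    refine le_trans (pb_mono fun Ls _ hL => ?_) (hoeffding (s.Xi v) (xdc_xi h)
      (fun i K => (Fz s.N (fun k : s.Cu c => φ k) ζ * Fz s.N (fun k : s.Cu c => φ k) ζ')
        (act (s.rho v i K) w)) (fun i K _ => ?_) (e := ε / 2) (fun i => ?_) t0 t1)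
    · exact lt_of_le_of_lt (mul_le_mul_of_nonneg_right (by linarith) (Nat.cast_nonneg _)) hL
    · rw [BoundedContinuousFunction.mul_apply, abs_mul]
      exact mul_le_one₀ (abs_Fz_le hN (fun k : s.Cu c => hb k) _ _) (abs_nonneg _)
        (abs_Fz_le hN (fun k : s.Cu c => hb k) _ _)
    · obtain ⟨p1, p2, p3, p4⟩ := h.pl i
      refine H _ q ζ ζ' (Nat.mul_pos (Nat.mul_pos hN (xdc_dd h).1) (h.pP q hq).1.pos)
        (xdc_tw hz hm) (v.l i) (v.l' i) (2 * s.e * v.R) (2 * s.e) ((v.l i : ℤ) ^ (s.e * v.R))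
        ((v.l' i : ℤ) ^ s.e) p1.1 p2.1 (h.inj.2.2 i i) (xdc_mk h (by linarith) i).1
        (xdc_mk h (by linarith) i).2 (xdc_nd h p1 p3 hq) (xdc_nd h p2 p4 hq)
        (Nat.mul_pos e0 (xdc_R h)) e0 (xdc_lev h (by linarith) (by linarith) hq i)
        ⟨0, by push_cast; ring⟩ ⟨0, by push_cast; ring⟩ w (hR w hw) (s.rho v i) fun K hK => ?_
      obtain ⟨r1, r2, r3, r4⟩ := h.rho_spec i hK
      exact ⟨r1, r2, r3, r4.mono (Nat.mul_dvd_mul_left _ (dvd_prod_of_mem _ hq))⟩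
  choose! Z hZ hZ' using fun q (hq : q ∈ v.P) => xdc_Z h (by linarith) hq c
  have hP : (#v.P : ℝ) ≤ Real.exp (T + 12 * T) := h.cP.2.trans (xdc_mul_exp (by positivity)
    (le_trans (by linarith) (xdc_le_exp T))
    (by exact_mod_cast xdc_pow_exp (by linarith) (xdc_le_exp T) 12))
  have main := xdc_union (Fintype.piFinset (s.Xi v)) Rn _ (by positivity)
    (le_trans (by linarith) (xdc_le_exp T)) fun w hw =>
    xdc_union _ v.P _ (by positivity) hP fun q hq =>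
    xdc_union _ (Z q) _ (by positivity) (hZ q hq) fun ζ _ =>
    xdc_union _ (Z q) _ (by positivity) (hZ q hq) fun ζ' _ =>
    xdc_and _ _ _ (by positivity) (key w hw q hq ζ ζ')
  refine le_trans (pb_mono fun Ls _ hL => ?_) (main.trans ?_)
  · obtain ⟨w, hw, q, hq, ζ, ζ', h1, h2, h3⟩ := hL
    exact ⟨w, hw, q, hq, ζ, hZ' q hq ζ fun k => (h1 k).1, ζ', hZ' q hq ζ' fun k => (h1 k).2, h2, h3⟩
  · have b1 : 2 * Real.exp (-(t ^ 2 * v.M / 16)) ≤ Real.exp (T + -(t ^ 2 * v.M / 16)) :=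
      xdc_mul_exp (Real.exp_pos _).le (le_trans (by linarith) (xdc_le_exp T)) le_rfl
    refine (xdc_mul_exp (by positivity) le_rfl (xdc_mul_exp (by positivity) le_rfl
      (xdc_mul_exp (by positivity) le_rfl (xdc_mul_exp (by positivity) le_rfl b1)))).trans
      (Real.exp_le_exp.2 ?_)
    have b2 : 16 * (16 + 14 * n) ≤ T * t ^ 2 :=
      (div_le_iff₀ (by positivity)).1 (by linarith)
    have b3 : 16 * (16 + 14 * n) * T ≤ T * t ^ 2 * T := mul_le_mul_of_nonneg_right b2 (by linarith)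
    have b4 : t ^ 2 * T ^ 2 ≤ t ^ 2 * v.M := mul_le_mul_of_nonneg_left h.cM.1 (by positivity)
    nlinarith

section
variable {s} {v : VD n} {L T : ℝ} {a m₀ y : ℕ}

theorem xdc_card (h : s.Ok v L T a m₀ y) {l : ℕ} (hl : s.Pm v y l) {k : ℕ} (hk : 0 < k) :
    (#(Xn (l ^ k)) : ℝ) ≤ (l ^ k : ℕ) * Real.exp (1 / (4 * T ^ 2)) := by
  have hT := h.hT
  have l0 : (0 : ℝ) < l := by exact_mod_cast hl.1.pos
  have h1 : (#(Xn (l ^ k)) : ℝ) * l ≤ (l ^ k : ℕ) * (l + 1) := by exact_mod_cast (card_Xn hl.1 hk).2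
  have h2 : 4 * T ^ 2 ≤ l := (xdc_pows hT).2.1.trans
    ((pow_le_pow_right₀ (by linarith) (by norm_num)).trans (xdc_pm h hl).1)
  have h3 : 1 / (l : ℝ) ≤ 1 / (4 * T ^ 2) := one_div_le_one_div_of_le (by positivity) h2
  have h4 : (l + 1 : ℝ) / l ≤ Real.exp (1 / (4 * T ^ 2)) := by
    rw [add_div, div_self l0.ne']
    linarith [Real.add_one_le_exp (1 / (4 * T ^ 2))]
  refine le_trans ?_ (mul_le_mul_of_nonneg_left h4 (Nat.cast_nonneg _))
  rw [← mul_div_assoc, le_div_iff₀ l0]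
  exact h1

theorem xdc_pi (h : s.Ok v L T a m₀ y) :
    (#(Fintype.piFinset (s.Xi v)) : ℝ) ≤ 3 * ((∏ i, s.a₁ v i) * ∏ i, s.a₂ v i : ℕ) := by
  have hT := h.hT
  have e0 : 0 < 2 * s.e := by linarith [h.e_pos]
  have h1 : ∀ i, (#(s.Xi v i) : ℝ) ≤ (s.a₁ v i * s.a₂ v i : ℕ) * Real.exp (1 / (2 * T ^ 2)) := by
    intro i
    have b := mul_le_mul (xdc_card h (h.pl i).1 (Nat.mul_pos e0 (xdc_R h)))
      (xdc_card h (h.pl i).2.1 e0) (Nat.cast_nonneg _) (by positivity)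
    have e : 1 / (2 * T ^ 2) = 1 / (4 * T ^ 2) + 1 / (4 * T ^ 2) := by
      field_simp
      norm_num
    rw [Xi, card_product, e, Real.exp_add, Nat.cast_mul, Nat.cast_mul, mul_mul_mul_comm]
    exact b
  have h2 := Finset.prod_le_prod (s := univ) (fun i _ => Nat.cast_nonneg _) fun i _ => h1 i
  rw [← Nat.cast_prod, ← Fintype.card_piFinset, prod_mul_distrib, prod_const, ← Nat.cast_prod,
    prod_mul_distrib, card_univ, Fintype.card_fin, ← Real.exp_nat_mul] at h2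
  refine h2.trans ?_
  rw [mul_comm]
  refine mul_le_mul_of_nonneg_right ?_ (Nat.cast_nonneg _)
  have h3 : v.M * (1 / (2 * T ^ 2)) ≤ 1 := by
    rw [mul_one_div, div_le_one (by positivity)]
    exact h.cM.2
  linarith [Real.exp_le_exp.2 h3, Real.exp_one_lt_d9]

theorem xdc_S (h : s.Ok v L T a m₀ y) (he : (6400 * s.e : ℝ) ≤ T) :
    ∃ (S : Finset ℕ) (k : ℕ → ℕ),
      (∀ l ∈ S, l.Prime ∧ ¬ (l : ℤ) ∣ 2 * v.E ∧ 0 < k l ∧ (l : ℤ) ^ k l ∣ v.b ^ 2 - v.E) ∧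
      ∑ l ∈ S, (l : ℝ) ^ (-(1 / 4 : ℝ)) ≤ 1 ∧
      ((∏ l ∈ S, l ^ k l : ℕ) : ℝ) ^ 400 ≤ Real.exp (T ^ 16) ∧
      (∏ l ∈ S, l ^ k l = (∏ i, s.a₁ v i) * ∏ i, s.a₂ v i) ∧
      ∀ l ∈ S, ∃ i, l ^ k l = s.a₁ v i ∨ l ^ k l = s.a₂ v i := by
  have hT := h.hT
  have T1 : (1 : ℝ) ≤ T := by linarith
  have e0 : 0 < 2 * s.e := by linarith [h.e_pos]
  have hR := xdc_R h
  obtain ⟨k, k1, k2⟩ : ∃ k : ℕ → ℕ, (∀ i, k (v.l i) = 2 * s.e * v.R) ∧ ∀ i, k (v.l' i) = 2 * s.e :=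
    ⟨fun p => if ∃ i, v.l i = p then 2 * s.e * v.R else 2 * s.e, fun i => if_pos ⟨i, rfl⟩,
      fun i => if_neg fun ⟨j, hj⟩ => h.inj.2.2 j i hj⟩
  have hS : ∀ l ∈ univ.image v.l ∪ univ.image v.l', ∃ i, l = v.l i ∨ l = v.l' i := fun l hl => by
    rcases mem_union.1 hl with h1 | h1 <;> obtain ⟨i, -, rfl⟩ := mem_image.1 h1
    exacts [⟨i, Or.inl rfl⟩, ⟨i, Or.inr rfl⟩]
  have hpm : ∀ l ∈ univ.image v.l ∪ univ.image v.l', s.Pm v y l ∧ 0 < k l ∧ k l ≤ 2 * s.e * v.R ∧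
      (l : ℤ) ^ k l ∣ v.b ^ 2 - v.E := fun l hl => by
    obtain ⟨i, rfl | rfl⟩ := hS l hl
    · refine ⟨(h.pl i).1, k1 i ▸ Nat.mul_pos e0 hR, (k1 i).le, Dvd.dvd.trans ?_ (h.bl i)⟩
      refine ⟨4 * (v.l' i : ℤ) ^ (2 * s.e), ?_⟩
      rw [k1]
      push_cast
      ring
    · refine ⟨(h.pl i).2.1, k2 i ▸ e0, k2 i ▸ Nat.le_mul_of_pos_right _ hR,
        Dvd.dvd.trans ?_ (h.bl i)⟩
      refine ⟨4 * ((v.l i : ℤ) ^ v.R) ^ (2 * s.e), ?_⟩
      rw [k2]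
      push_cast
      ring
  have hc : (#(univ.image v.l ∪ univ.image v.l') : ℝ) ≤ 4 * T ^ 2 := by
    have b := (card_union_le (univ.image v.l) (univ.image v.l')).trans
      (add_le_add card_image_le card_image_le)
    rw [card_univ, Fintype.card_fin] at b
    have b' : (#(univ.image v.l ∪ univ.image v.l') : ℝ) ≤ v.M + v.M := by exact_mod_cast b
    linarith [h.cM.2]
  refine ⟨univ.image v.l ∪ univ.image v.l', k, fun l hl => ⟨(hpm l hl).1.1, fun hd => ?_,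
    (hpm l hl).2.1, (hpm l hl).2.2.2⟩, ?_, ?_, ?_, fun l hl => ?_⟩
  · exact (hpm l hl).1.2.2.2 (hd.trans ⟨s.N * s.dd v, by ring⟩)
  · refine (sum_le_card_nsmul _ _ (T ^ 64)⁻¹ fun l hl => ?_).trans ?_
    · refine (Real.rpow_le_rpow_of_nonpos (by positivity) (xdc_pm h (hpm l hl).1).1
        (by norm_num)).trans (le_of_eq ?_)
      rw [← Real.rpow_natCast, ← Real.rpow_mul (by linarith), ← Real.rpow_natCast,
        ← Real.rpow_neg (by linarith)]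
      norm_num
    · rw [nsmul_eq_mul, ← div_eq_mul_inv, div_le_one (by positivity)]
      exact hc.trans (xdc_pows hT).2.1
  · have b1 : ∀ l ∈ univ.image v.l ∪ univ.image v.l',
        ((l ^ k l : ℕ) : ℝ) ≤ Real.exp ((2 * s.e * v.R : ℕ) * T) := fun l hl => by
      have c1 : (k l : ℝ) ≤ (2 * s.e * v.R : ℕ) := by exact_mod_cast (hpm l hl).2.2.1
      rw [Nat.cast_pow]
      exact (xdc_pow_exp (Nat.cast_nonneg _) (xdc_pm h (hpm l hl).1).2 _).trans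
        (Real.exp_le_exp.2 (mul_le_mul_of_nonneg_right c1 (by linarith)))
    have b2 := Finset.prod_le_prod (fun l _ => Nat.cast_nonneg _) b1
    rw [prod_const, ← Nat.cast_prod, ← Real.exp_nat_mul] at b2
    refine (xdc_pow_exp (Nat.cast_nonneg _) b2 400).trans (Real.exp_le_exp.2 ?_)
    have b3 : ((2 * s.e * v.R : ℕ) : ℝ) * T ≤ 2 * s.e * (2 * T ^ 2) * T := by
      push_cast
      exact mul_le_mul_of_nonneg_right (mul_le_mul_of_nonneg_left h.cR.2 (by positivity))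
        (by linarith)
    have b4 := mul_le_mul hc b3 (by positivity) (by positivity)
    have b5 : (6400 * s.e : ℝ) * T ^ 5 ≤ T * T ^ 5 := mul_le_mul_of_nonneg_right he (by positivity)
    have b6 : T ^ 6 ≤ T ^ 16 := pow_le_pow_right₀ T1 (by norm_num)
    push_cast at b4 ⊢
    nlinarith
  · rw [prod_union (disjoint_left.2 fun l h1 h2 => by
        obtain ⟨i, -, rfl⟩ := mem_image.1 h1
        obtain ⟨j, -, e⟩ := mem_image.1 h2
        exact h.inj.2.2 i j e.symm),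
      prod_image h.inj.1.injOn, prod_image h.inj.2.1.injOn]
    simp only [k1, k2, a₁, a₂]
  · obtain ⟨i, rfl | rfl⟩ := hS l hl
    · exact ⟨i, Or.inl (by rw [k1, a₁])⟩
    · exact ⟨i, Or.inr (by rw [k2, a₂])⟩

end

theorem bad_orb (L U : ℝ) (a : ℕ) {δ : ℝ} (hδ : 0 < δ) : ∃ T₀ : ℝ, ∀ (v : VD n) (T : ℝ)
    (m₀ y : ℕ), T₀ ≤ T → s.Ok v L T a m₀ y → ∀ (c : ι) (B : (Fin v.M → Set V2 × Set V2) → Prop),
      prb (Fintype.piFinset (s.Xi v)) B ≤ Real.exp (-T) →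
      prb (Orb v.τ) (fun x => s.ct x c ∈ KU U ∧ B (s.lab v x c)) ≤ δ := by
  obtain ⟨K, Y, A, hK, H⟩ := lin_orb L U
  obtain ⟨T₁, hT₁⟩ := eventually_atTop.1
    ((Real.tendsto_pow_mul_exp_neg_atTop_nhds_zero (a * A)).eventually
      (ge_mem_nhds (show 0 < δ ^ 2 / (3 * K) by positivity)))
  refine ⟨max T₁ (max Y (6400 * s.e)), fun v T m₀ y hT h c B hB => ?_⟩
  obtain ⟨t1, t2⟩ := max_le_iff.1 hT
  obtain ⟨t2, t3⟩ := max_le_iff.1 t2
  have T1 : (1 : ℝ) ≤ T := by linarith [h.hT]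
  obtain ⟨S, k, s1, s2, s3, s4, s5⟩ := xdc_S h t3
  obtain ⟨l1, l2⟩ := h.large _ (s.mem c)
  have l0 : 0 ≤ Real.log (-(v.D (s.cr c) : ℝ)) :=
    Real.log_nonneg ((Real.one_le_exp (by positivity)).trans l1)
  have hF : Fit v.E (v.D (s.cr c)) := by
    obtain ⟨f, hf, e⟩ := h.fit _ (s.mem c)
    exact ⟨f * s.N, Nat.mul_pos hf h.N_pos, by rw [e]; push_cast; ring⟩
  have hQ : (0 : ℝ) < (∏ l ∈ S, l ^ k l : ℕ) := by
    exact_mod_cast prod_pos fun l hl => pow_pos (s1 l hl).1.pos _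
  have h1 := H n v.τ v.D h.disc (s.cr c) v.E v.b S k
    (t2.trans ((le_self_pow₀ T1 (by norm_num)).trans ((xdc_le_exp _).trans l1)))
    (h.low _ (s.mem c)) hF s1 s2 (by exact_mod_cast s3.trans l1)
  have h2 := transfer (Orb v.τ) (fun x => s.ct x c ∈ KU U) (fun x => s.lab v x c)
    ((Fintype.piFinset (s.Xi v)).filter B) (le_trans (Nat.cast_le.2 (card_le_card fun z hz => by
      simp only [mem_filter] at hz
      obtain ⟨z1, z2, z3, z4⟩ := hz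
      refine mem_filter.2 ⟨z1, z2, z3, fun l hl => ?_⟩
      obtain ⟨i, e | e⟩ := s5 l hl <;> rw [e]
      · exact congrArg Prod.fst (congrFun z4 i)
      · exact congrArg Prod.snd (congrFun z4 i))) h1) (by positivity)
  have h3 : (#((Fintype.piFinset (s.Xi v)).filter B) : ℝ) ≤
      Real.exp (-T) * (3 * (∏ l ∈ S, l ^ k l : ℕ)) := by
    have p0 : (0 : ℝ) < #(Fintype.piFinset (s.Xi v)) := by
      exact_mod_cast (Fintype.piFinset_nonempty.2 (xdc_xi h)).card_pos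
    rw [prb, div_le_iff₀ p0] at hB
    exact hB.trans (mul_le_mul_of_nonneg_left (s4 ▸ xdc_pi h) (Real.exp_pos _).le)
  have h4 : Real.log (-(v.D (s.cr c) : ℝ)) ^ A ≤ T ^ (a * A) := by
    rw [pow_mul]
    exact pow_le_pow_left₀ l0 l2 A
  have h5 := (le_div_iff₀ (by positivity)).1 (hT₁ T t1)
  refine le_trans (pb_mono fun x hx h0 => ?_) (le_of_sq_le_sq (h2.trans ?_) hδ.le)
  · exact ⟨h0.1, mem_filter.2 ⟨Fintype.mem_piFinset.2 (h.lab_mem hx c), h0.2⟩⟩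
  · refine (mul_le_mul_of_nonneg_right h3 (by positivity)).trans (le_trans ?_ h5)
    have e : Real.exp (-T) * (3 * (∏ l ∈ S, l ^ k l : ℕ)) *
        (K * Real.log (-(v.D (s.cr c) : ℝ)) ^ A / (∏ l ∈ S, l ^ k l : ℕ)) =
        Real.log (-(v.D (s.cr c) : ℝ)) ^ A * Real.exp (-T) * (3 * K) := by
      field_simp
    rw [e]
    exact mul_le_mul_of_nonneg_right (mul_le_mul_of_nonneg_right h4 (Real.exp_pos _).le)
      (by positivity)

end Shp

end Pool.Agent.EQ
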