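import Pool.Agent.P.MP_ad7a55_nt.XDc

/-! Step A: the direction at a prime is correlated with the coarse data. -/

set_option autoImplicit false

noncomputable section

open MeasureTheory Topology Filter UpperHalfPlane Finset
open scoped MatrixGroups BoundedContinuousFunction Matrix Classical

namespace Pool.Agent.EQ

theorem xdd_gam {N N' : ℕ} (h : N ∣ N') {γ : SL(2, ℤ)} (hγ : γ ∈ CongruenceSubgroup.Gamma N') :
    γ ∈ CongruenceSubgroup.Gamma N := by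
  rw [CongruenceSubgroup.Gamma_mem] at hγ ⊢
  have e : ∀ x : ℤ, ZMod.castHom h (ZMod N) (x : ZMod N') = x := fun x => map_intCast _ x
  obtain ⟨h0, h1, h2, h3⟩ := hγ
  exact ⟨by rw [← e, h0, map_one], by rw [← e, h1, map_zero], by rw [← e, h2, map_zero],
    by rw [← e, h3, map_one]⟩

theorem xdd_det (γ : SL(2, ℤ)) (X : M2) : ((γ : M2) * X).det = X.det := by
  rw [Matrix.det_mul, γ.det_coe, one_mul]

theorem xdd_act (γ : SL(2, ℤ)) {X : M2} (hX : 0 < X.det) (τ : ℍ) :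
    act ((γ : M2) * X) τ = γ • act X τ := by
  rw [act_mul (by rw [γ.det_coe]; exact one_pos) hX, act_SL]

theorem xdd_out {N : ℕ} {φ : ℍ → ℝ} (hφ : GInv N φ) (g : SL(2, ℤ)) {X : M2} (hX : 0 < X.det)
    (τ : ℍ) : φ (act (((QuotientGroup.mk g : vcjQ N).out : SL(2, ℤ)) * X) τ) =
      φ (act ((g : M2) * X) τ) := by
  obtain ⟨δ, e⟩ := QuotientGroup.mk_out_eq_mul (CongruenceSubgroup.Gamma N) g
  rw [e, xdd_act _ hX, xdd_act _ hX, mul_smul]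
  exact hφ.smul g δ δ.2 _

theorem xdd_cop {q d : ℕ} (hq : q.Prime) (hc : ¬ q ∣ d) : IsCoprime (d : ℤ) (q : ℤ) :=
  Nat.isCoprime_iff_coprime.2 ((Nat.Prime.coprime_iff_not_dvd hq).2 hc).symm

theorem xdd_prod {κ : Type} (J : Finset κ) (f g : κ → ℝ) {ε : ℝ}
    (h : ∀ k ∈ J, |f k| ≤ 1 ∧ |g k| ≤ 1 ∧ |f k - g k| ≤ ε) :
    |∏ k ∈ J, f k - ∏ k ∈ J, g k| ≤ #J * ε := by
  induction J using Finset.induction_on with
  | empty => simp
  | insert k J hk ih =>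
    obtain ⟨h1, -, h3⟩ := h k (mem_insert_self _ _)
    have h4 := ih fun l hl => h l (mem_insert_of_mem hl)
    have h5 : |∏ l ∈ J, g l| ≤ 1 := by
      rw [Finset.abs_prod]
      exact Finset.prod_le_one (fun _ _ => abs_nonneg _) fun l hl =>
        (h l (mem_insert_of_mem hl)).2.1
    rw [prod_insert hk, prod_insert hk, card_insert_of_notMem hk,
      show f k * ∏ l ∈ J, f l - g k * ∏ l ∈ J, g l =
        f k * (∏ l ∈ J, f l - ∏ l ∈ J, g l) + (f k - g k) * ∏ l ∈ J, g l by ring]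
    refine (abs_add_le _ _).trans ?_
    rw [abs_mul, abs_mul]
    have h6 := mul_le_mul h1 h4 (abs_nonneg _) zero_le_one
    have h7 := mul_le_mul h3 h5 (abs_nonneg _) ((abs_nonneg _).trans h3)
    push_cast
    linarith

theorem hq_spec {d q : ℕ} (hd : 0 < d) (hq' : q.Prime) (hc : ¬ q ∣ d) {h : M2} (hh : h.det = d)
    {ξ : Set V2} (hξ : IsLn q ξ) : hq d q h ξ ∈ Hn (d * q) ∧ Ker d (hq d q h ξ) = Ker d h ∧
      Ker q (hq d q h ξ) = ξ ∧ (∃ ν : M2, ν.det = q ∧ hq d q h ξ = ν * h) ∧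
      ∀ ζ : M2, ζ.det = (d * q : ℕ) → Ker d ζ = Ker d h → Ker q ζ = ξ →
        ∃ γ : SL(2, ℤ), ζ = (γ : M2) * hq d q h ξ := by
  have hcop := xdd_cop hq' hc
  have hn : 0 < d * q := Nat.mul_pos hd hq'.pos
  obtain ⟨ν, h1, h2⟩ := (hξ.pull (η := h.adjugate) hq'.pos
    (by rw [xla_det_adj, hh]; exact hcop)).exists_mat hq'.pos
  obtain ⟨μ, -, h3⟩ := hξ.exists_mat hq'.pos
  have h4 : (ν * h).det = (d * q : ℕ) := by rw [Matrix.det_mul, h1, hh]; push_cast; ring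
  have h5 : Ker d (ν * h) = Ker d h := Ker_cop (by rw [h1]; exact hcop.symm) h
  have h6 : Ker q (ν * h) = ξ := by
    ext w
    rw [mem_Ker_mul, h2, Set.mem_ofPred_eq, Matrix.mulVec_mulVec, Matrix.adjugate_mul, hh,
      Matrix.smul_mulVec, Matrix.one_mulVec, ← h3]
    exact xla_smul hcop μ w
  have e : ∃ g ∈ Hn (d * q), Ker d g = Ker d h ∧ Ker q g = ξ := by
    obtain ⟨γ, g, hg, e⟩ := exists_Hn hn h4
    exact ⟨g, hg, by rw [← h5, e, Ker_SL], by rw [← h6, e, Ker_SL]⟩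
  have hs : hq d q h ξ ∈ Hn (d * q) ∧ Ker d (hq d q h ξ) = Ker d h ∧ Ker q (hq d q h ξ) = ξ := by
    rw [hq, dif_pos e]
    exact e.choose_spec
  have hu : ∀ ζ : M2, ζ.det = (d * q : ℕ) → Ker d ζ = Ker d h → Ker q ζ = ξ →
      ∃ γ : SL(2, ℤ), ζ = (γ : M2) * hq d q h ξ := fun ζ e1 e2 e3 => by
    have hdq : d.Coprime q := Nat.isCoprime_iff_coprime.1 hcop
    refine exists_SL_of_Ker hn (mem_Hn hs.1).2 e1 (le_of_eq ?_)
    rw [Ker_inter hdq, Ker_inter hdq, e2, e3, hs.2.1, hs.2.2]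
  refine ⟨hs.1, hs.2.1, hs.2.2, ?_, hu⟩
  obtain ⟨γ, e1⟩ := hu _ h4 h5 h6
  refine ⟨((γ⁻¹ : SL(2, ℤ)) : M2) * ν, by rw [xdd_det, h1], ?_⟩
  rw [Matrix.mul_assoc, e1, ← Matrix.mul_assoc, ← Matrix.SpecialLinearGroup.coe_mul,
    inv_mul_cancel, Matrix.SpecialLinearGroup.coe_one, Matrix.one_mul]

namespace Shp

variable {n : ℕ} {ι : Type} {s : Shp n ι} {v : VD n} {L T : ℝ} {a m₀ y : ℕ} {x : Fin n → ℂ}
  {φ : Fin n → (ℍ →ᵇ ℝ)} {Ws : (Fin n → ℂ) → Finset (Fin v.M → ℝ)} {U t : ℝ} {cl : ℍ → ℍ} {q : ℕ}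

theorem xdd_nd (h : s.Ok v L T a m₀ y) (hq : q ∈ v.P) {k : Fin n} (hk : k ∈ s.J) :
    ¬ q ∣ v.dg k := fun h1 =>
  (h.pP q hq).2.2.2 (Dvd.dvd.mul_left
    (Int.natCast_dvd_natCast.2 (h1.trans (Finset.dvd_prod_of_mem _ hk))) _)

theorem xdd_et (h : s.Ok v L T a m₀ y) (hx : x ∈ Orb v.τ) (hq : q ∈ v.P) (c : ι) :
    (s.et v {q} x c).det = q ∧ Ker q (s.et v {q} x c) = Ker q (s.A v x c) ∧
      act (s.et v {q} x c) (s.ct x c) = s.ct (v.mv {q} x) c ∧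
      s.et v {q} x c * s.A v x c = s.A v (v.mv {q} x) c * s.et v {q} x c := by
  obtain ⟨h1, h2, h3⟩ := h.et_spec (singleton_subset_iff.2 hq) hx c
  rw [prod_singleton] at h1
  exact ⟨h1, h2 q (mem_singleton_self q), h3⟩

theorem xdd_line (h : s.Ok v L T a m₀ y) (hx : x ∈ Orb v.τ) (hq : q ∈ v.P) (c : ι) :
    IsLn q (Ker q (s.A v x c)) := by
  obtain ⟨h1, h2, -⟩ := xdd_et h hx hq c
  have hp := (h.pP q hq).1
  rw [← h2]
  refine isLn_Ker_prime hp (by rw [h1]) ?_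
  rw [h1]
  intro h3
  have h4 : q ^ 2 ∣ q := by exact_mod_cast h3
  have h5 := Nat.le_of_dvd hp.pos h4
  have h6 := hp.two_le
  nlinarith

theorem xdd_rho (h : s.Ok v L T a m₀ y) (hx : x ∈ Orb v.τ) (c : ι) (i : Fin v.M) :
    0 < (s.rho v i (s.lab v x c i)).det := by
  rw [(h.rho_spec i (h.lab_mem hx c i)).1]
  exact_mod_cast Nat.mul_pos (pow_pos (h.pl i).1.1.pos _) (pow_pos (h.pl i).2.1.1.pos _)

theorem xdd_swap (h : s.Ok v L T a m₀ y) (hx : x ∈ Orb v.τ) (hq : q ∈ v.P) (c : ι)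
    (i : Fin v.M) : ∃ δ ∈ CongruenceSubgroup.Gamma (s.N * s.dd v),
      s.rho v i (s.lab v (v.mv {q} x) c i) * s.et v {q} x c =
        (δ : M2) * (s.et v {q} x c * s.rho v i (s.lab v x c i)) := by
  obtain ⟨e1, -, -, e4⟩ := xdd_et h hx hq c
  have hy : v.mv {q} x ∈ Orb v.τ := Orb_map h.disc hx _
  obtain ⟨r1, r2, r3, r4⟩ := h.rho_spec i (h.lab_mem hx c i)
  obtain ⟨s1, s2, s3, s4⟩ := h.rho_spec i (h.lab_mem hy c i)
  obtain ⟨p1, p2, p3, p4⟩ := h.pl i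
  have hp := (h.pP q hq).1
  have c1 : (v.l i).Coprime q := (Nat.coprime_primes p1.1 hp).2 fun e => p3 (e ▸ hq)
  have c2 : (v.l' i).Coprime q := (Nat.coprime_primes p2.1 hp).2 fun e => p4 (e ▸ hq)
  have c3 : (s.a₁ v i).Coprime (s.a₂ v i) :=
    Nat.Coprime.pow _ _ ((Nat.coprime_primes p1.1 p2.1).2 (h.inj.2.2 i i))
  have c4 : ∀ l, s.Pm v y l → l.Coprime q → IsCoprime (l : ℤ) (s.N * s.dd v * q : ℕ) :=
    fun l hl hc => by
      refine Nat.isCoprime_iff_coprime.2 (Nat.Coprime.mul_right ?_ hc)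
      refine (Nat.Prime.coprime_iff_not_dvd hl.1).2 fun h1 => hl.2.2.2 ?_
      refine (Int.natCast_dvd_natCast.2 h1).trans ⟨2 * v.E, ?_⟩
      push_cast
      ring
  have c5 : (s.a₁ v i).Coprime q := c1.pow_left _
  have c6 : (s.a₂ v i).Coprime q := c2.pow_left _
  refine swap_Cg (Nat.mul_pos (pow_pos p1.1.pos _) (pow_pos p2.1.pos _)) hp.pos e1 r1 s1
    (c5.mul_left c6) ((c4 _ p1 c1).pow_left.mul_left (c4 _ p2 c2).pow_left)
    (r4.mono (Nat.mul_dvd_mul_left _ (Finset.dvd_prod_of_mem _ hq))) (s4.mono (Dvd.intro _ rfl))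
    fun w hw => ?_
  change w ∈ Ker (s.a₁ v i * s.a₂ v i) _ at hw
  change _ ∈ Ker (s.a₁ v i * s.a₂ v i) _
  rw [Ker_inter c3, r2, r3] at hw
  rw [Ker_inter c3, s2, s3]
  exact ⟨(Ker_com e4 (by rw [e1]; exact Nat.isCoprime_iff_coprime.2 c5.symm) w).1.2 hw.1,
    (Ker_com e4 (by rw [e1]; exact Nat.isCoprime_iff_coprime.2 c6.symm) w).1.2 hw.2⟩

theorem xdd_key (h : s.Ok v L T a m₀ y) (hx : x ∈ Orb v.τ) (hq' : q ∈ v.P) {k : Fin n}
    (hk : k ∈ s.J) (γ : SL(2, ℤ)) : ∃ γ' : vcjQ s.N, ∀ ψ : ℍ → ℝ, GInv s.N ψ → ∀ i,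
      ψ (act ((γ : M2) * s.hk v (v.mv {q} x) k * s.rho v i (s.lab v (v.mv {q} x) (s.bs k) i))
        (s.ct (v.mv {q} x) (s.bs k))) =
      ψ (act ((γ'.out : SL(2, ℤ)) * hq (v.dg k) q (s.hk v x k) (Ker q (s.A v x (s.bs k))) *
        s.rho v i (s.lab v x (s.bs k) i)) (s.ct x (s.bs k))) := by
  obtain ⟨e1, e2, e3, -⟩ := xdd_et h hx hq' (s.bs k)
  have hy : v.mv {q} x ∈ Orb v.τ := Orb_map h.disc hx _
  have hp := (h.pP q hq').1
  obtain ⟨d0, d1⟩ := mem_Hn (h.hk_spec hx hk).1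
  have d2 : ((γ : M2) * s.hk v (v.mv {q} x) k).det = v.dg k := by
    rw [xdd_det, (mem_Hn (h.hk_spec hy hk).1).2]
  have d3 : 0 < ((γ : M2) * s.hk v (v.mv {q} x) k).det := by rw [d2]; exact_mod_cast d0
  have d4 : 0 < (s.et v {q} x (s.bs k)).det := by rw [e1]; exact_mod_cast hp.pos
  obtain ⟨u1, -, -, -, u5⟩ := hq_spec d0 hp (xdd_nd h hq' hk) d1 (xdd_line h hx hq' (s.bs k))
  obtain ⟨g, hg⟩ := u5 ((γ : M2) * s.hk v (v.mv {q} x) k * s.et v {q} x (s.bs k))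
    (by rw [Matrix.det_mul, d2, e1, Nat.cast_mul])
    (by rw [Matrix.mul_assoc, Ker_SL, h.hk_move (singleton_subset_iff.2 hq') hx hk])
    (by rw [Ker_cop (by rw [d2]; exact xdd_cop hp (xdd_nd h hq' hk)), e2])
  refine ⟨QuotientGroup.mk g, fun ψ hψ i => ?_⟩
  have r1 := xdd_rho h hx (s.bs k) i
  have r2 := xdd_rho h hy (s.bs k) i
  have d5 : 0 < (hq (v.dg k) q (s.hk v x k) (Ker q (s.A v x (s.bs k)))).det := by
    rw [(mem_Hn u1).2]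
    exact_mod_cast (mem_Hn u1).1
  obtain ⟨δ, hδ, e5⟩ := xdd_swap h hx hq' (s.bs k) i
  obtain ⟨δ', hδ', e6⟩ := act_conj d3 s.N (γ := δ) (xdd_gam (by
    rw [d2, Int.natAbs_natCast]
    exact Nat.mul_dvd_mul_left _ (Finset.dvd_prod_of_mem _ hk)) hδ)
  rw [Matrix.mul_assoc ((QuotientGroup.mk g : vcjQ s.N).out : SL(2, ℤ)).1,
    xdd_out hψ g (by rw [Matrix.det_mul]; exact mul_pos d5 r1), ← Matrix.mul_assoc, ← hg, ← e3,
    ← act_mul (by rw [Matrix.det_mul _ (s.rho _ _ _)]; exact mul_pos d3 r2) d4, Matrix.mul_assoc _ _ (s.et _ _ _ _),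
    e5, ← Matrix.mul_assoc, e6, Matrix.mul_assoc, xdd_act _ (by
      rw [Matrix.det_mul, Matrix.det_mul (s.et _ _ _ _)]
      exact mul_pos d3 (mul_pos d4 r1)), hψ δ' hδ',
    ← Matrix.mul_assoc]

theorem cor_of_ev (h : s.Ok v L T a m₀ y) (hφ : ∀ k, GInv s.N (φ k)) (hb : ∀ k, ‖φ k‖ ≤ 1)
    {ω : ℝ → ℝ} (hc : ∀ k, EqC ω (φ k)) {ε : ℝ} (hε : 0 < ε)
    (hcl : ∀ τ ∈ KU U, dist τ (cl τ) ≤ ω ε) (hW : ∀ u, ∀ W ∈ Ws u, ∀ i, |W i| ≤ 1)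
    (hx : x ∈ Orb v.τ) (hI : ∀ c, s.ct x c ∈ KU U) (hq : q ∈ v.P)
    (hE : s.Ev v φ Ws t (v.mv {q} x)) :
    s.Cor v φ (fun u => Ws (v.mv {q} u)) (t - n * ε) q (s.C0 v U cl x)
      fun c => Ker q (s.A v x c) := by
  obtain ⟨W, hW1, γ, hγ⟩ := hE
  have h1 : ∀ k, ∃ γ' : vcjQ s.N, k ∈ s.J → _ := fun k => by
    by_cases hk : k ∈ s.J
    · obtain ⟨γ', h2⟩ := xdd_key h hx hq hk (γ k).out
      exact ⟨γ', fun _ => h2 (φ k) (hφ k)⟩
    · exact ⟨γ k, fun h2 => absurd h2 hk⟩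
  choose γ' h2 using h1
  have hsm : s.sm (v.mv {q} x) = v.mv {q} (s.sm x) := funext fun k => by
    simp only [sm, VD.mv]
    split_ifs
    · rfl
    · exact (map_zero _).symm
  refine ⟨W, (show W ∈ Ws (v.mv {q} (s.sm x)) from hsm ▸ hW1), γ', ?_⟩
  have hb' : ∀ k z, |φ k z| ≤ 1 := fun k z => ((φ k).norm_coe_le_norm z).trans (hb k)
  have h3 : ∀ A B : ℝ, t * v.M ≤ |A| → |A - B| ≤ ∑ _i : Fin v.M, n * ε →
      (t - n * ε) * v.M ≤ |B| := fun A B h4 h5 => by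
    rw [sum_const, card_univ, Fintype.card_fin, nsmul_eq_mul] at h5
    have h6 := abs_sub_abs_le_abs_sub A B
    linarith
  refine h3 _ _ hγ ?_
  rw [val, val, ← sum_sub_distrib]
  refine (abs_sum_le_sum_abs _ _).trans (sum_le_sum fun i _ => ?_)
  rw [← mul_sub, sub_sub_sub_cancel_right, abs_mul]
  refine (mul_le_of_le_one_left (abs_nonneg _) (hW _ W hW1 i)).trans
    ((xdd_prod _ _ _ (ε := ε) fun k hk => ⟨hb' _ _, hb' _ _, ?_⟩).trans ?_)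
  · rw [h2 k hk i]
    simp only [C0, if_pos hk, cel, if_pos (hI _), Option.getD_some]
    refine hc k ε hε _ _ ?_
    obtain ⟨d0, d1⟩ := mem_Hn (h.hk_spec hx hk).1
    have u1 := mem_Hn (hq_spec d0 (h.pP q hq).1 (xdd_nd h hq hk) d1 (xdd_line h hx hq (s.bs k))).1
    rw [dist_act (by
      rw [Matrix.det_mul, xdd_det, u1.2]
      exact mul_pos (by exact_mod_cast u1.1) (xdd_rho h hx _ i))]
    exact hcl _ (hI _)
  · refine mul_le_mul_of_nonneg_right ?_ hε.le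
    exact_mod_cast (card_le_univ s.J).trans_eq (Fintype.card_fin n)

theorem xdd_fib [Fintype ι] (f : Fin n → ℝ) : ∏ k ∈ s.J, f k = ∏ c, ∏ k : s.Cu c, f k := by
  rw [← Finset.prod_fiberwise s.J s.bs f]
  exact prod_congr rfl fun c _ => Finset.prod_subtype _ (fun k => mem_filter) f

theorem xdd_rel (h : s.Ok v L T a m₀ y) (hx : x ∈ Orb v.τ) {m : ℕ} (hm : m ≤ m₀) {k l : Fin n}
    (hk : k ∈ s.J) (hl : l ∈ s.J) (hkl : k ≠ l) (e : s.bs k = s.bs l) :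
    ¬ Rel m (s.hk v x k) (s.hk v x l) := by
  rintro ⟨s₁, t₁, X, hs, ht, h1, h2, e1⟩
  obtain ⟨a1, a2⟩ := h.hk_spec hx hk
  obtain ⟨b1, b2⟩ := h.hk_spec hx hl
  have a3 : 0 < (s.hk v x k).det := by rw [(mem_Hn a1).2]; exact_mod_cast (mem_Hn a1).1
  have b3 : 0 < (s.hk v x l).det := by rw [(mem_Hn b1).2]; exact_mod_cast (mem_Hn b1).1
  have hY : 0 < (X * s.hk v x l).det := by rw [Matrix.det_mul]; exact mul_pos h1 b3
  rw [← act_smul a3 hs, e1, act_smul hY ht, act_mul h1 b3, e] at a2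
  have h3 : Ig X.det.toNat (x k) (x l) := ⟨_, X, by omega, a2, b2⟩
  obtain ⟨σ, rfl⟩ := (mem_Orb h.disc).1 hx
  have h4 := h3.gal (by omega) σ.symm
  simp only [RingEquiv.symm_apply_apply] at h4
  exact h.noi k hk l hl hkl _ (by omega) (by omega) h4

theorem xdd_tw (h : s.Ok v L T a m₀ y) (hx : x ∈ Orb v.τ) (hq' : q ∈ v.P) {m : ℕ} (hm : m ≤ m₀)
    (hm' : m ≤ y) (γ : Fin n → SL(2, ℤ)) (c : ι) {ξ ξ' : Set V2} (hξ : IsLn q ξ) (hξ' : IsLn q ξ')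
    (hne : ξ ≠ ξ') : Tw s.N m (s.N * s.dd v * q) q
      (fun k : s.Cu c => (γ k : M2) * hq (v.dg k) q (s.hk v x k) ξ)
      fun k : s.Cu c => (γ k : M2) * hq (v.dg k) q (s.hk v x k) ξ' := by
  obtain ⟨hp, hy, -⟩ := h.pP q hq'
  have H := fun (k : s.Cu c) (ξ : Set V2) (hξ : IsLn q ξ) =>
    hq_spec (mem_Hn (h.hk_spec hx k.2.1).1).1 hp (xdd_nd h hq' k.2.1)
      (mem_Hn (h.hk_spec hx k.2.1).1).2 hξ
  have hr : ∀ ξ, IsLn q ξ → ∀ k l : s.Cu c, k ≠ l →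
      ¬ Rel m ((γ k : M2) * hq (v.dg k) q (s.hk v x k) ξ)
        ((γ l : M2) * hq (v.dg l) q (s.hk v x l) ξ) := fun ξ hξ k l hkl hr => by
    obtain ⟨ν, n1, n2⟩ := (H k ξ hξ).2.2.2.1
    obtain ⟨ν', n1', n2'⟩ := (H l ξ hξ).2.2.2.1
    rw [n2, n2', ← Matrix.mul_assoc, ← Matrix.mul_assoc] at hr
    have hd : ∀ k : s.Cu c, ¬ (q : ℤ) ∣ (s.hk v x k).det := fun k => by
      rw [(mem_Hn (h.hk_spec hx k.2.1).1).2, Int.natCast_dvd_natCast]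
      exact xdd_nd h hq' k.2.1
    exact xdd_rel h hx hm k.2.1 l.2.1 (fun e => hkl (Subtype.ext e)) (k.2.2.trans l.2.2.symm)
      (hr.strip hp (by omega) (by rw [xdd_det, n1]) (by rw [xdd_det, n1']) (hd k) (hd l))
  refine ⟨hp, by omega, fun k => ⟨v.dg k, (h.deg k k.2.1).1, xdd_nd h hq' k.2.1, ?_, ?_, ?_⟩,
    fun k l => ?_, fun k l hkl => ⟨hr ξ hξ k l hkl, hr ξ' hξ' k l hkl⟩⟩
  · rw [← mul_assoc]
    exact Nat.mul_dvd_mul_right (Nat.mul_dvd_mul_left _ (Finset.dvd_prod_of_mem _ k.2.1)) _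
  · rw [xdd_det, (mem_Hn (H k ξ hξ).1).2]
  · rw [xdd_det, (mem_Hn (H k ξ' hξ').1).2]
  · rw [Ker_SL, Ker_SL, (H k ξ hξ).2.2.1, (H l ξ' hξ').2.2.1]
    exact hne

theorem xdd_one [Fintype ι] [Nonempty ι] (h : s.Ok v L T a m₀ y) (hb : ∀ k, ‖φ k‖ ≤ 1 / 2)
    (ht : 0 < t) {W : Fin v.M → ℝ} (hW : ∀ i, |W i| ≤ 1)
    {Rn : Finset ℍ} (hcl : ∀ τ ∈ KU U, cl τ ∈ Rn) {m : ℕ} (hm : m ≤ m₀) (hm' : m ≤ y) {ε : ℝ}
    (he : 2 * ε ≤ (t / Fintype.card ι) ^ 2) (hx : x ∈ Orb v.τ) (hI : ∀ c, s.ct x c ∈ KU U)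
    (hB : ∀ c, ¬ s.Bad v φ m ε Rn c (s.lab v x c)) (hq' : q ∈ v.P) (γ : Fin n → vcjQ s.N) :
    (#{ξ ∈ Fintype.piFinset fun _ : ι => Xn q | t * v.M ≤
      |s.val v φ (fun k => ((γ k).out : SL(2, ℤ)) *
        hq (v.dg k) q ((s.C0 v U cl x).2.1 k) (ξ (s.bs k))) (s.lab v x)
        (fun c => (cel U cl (s.ct x c)).getD UpperHalfPlane.I) W|} : ℝ) ≤
      2 * (Fintype.card ι : ℝ) ^ 3 / t ^ 2 * (#(Xn q) : ℝ) ^ (Fintype.card ι - 1) := by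
  have hp := (h.pP q hq').1
  have hM : 0 < v.M := by
    have h1 := h.cM.1
    have h2 := h.hT
    have h3 : (0 : ℝ) < v.M := by nlinarith
    exact_mod_cast h3
  have hne : ∀ c, Nonempty (s.Cu c) := fun c => ⟨⟨s.cr c, s.mem c, s.bs_cr c⟩⟩
  have H := fun (c : ι) (k : s.Cu c) (ξ : Set V2) (hξ : ξ ∈ Xn q) =>
    (hq_spec (mem_Hn (h.hk_spec hx k.2.1).1).1 hp (xdd_nd h hq' k.2.1)
      (mem_Hn (h.hk_spec hx k.2.1).1).2 ((mem_Xn hp.pos).1 hξ)).1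
  have hI' : ∀ c, |∏ k : s.Cu c, IN s.N (φ k)| ≤ 1 / 2 := fun c =>
    xke_half fun k => (abs_IN_le h.N_pos _).trans (hb _)
  have key := cor_count hM (Xn q)
    (fun c ξ i => ∏ k : s.Cu c, φ k (act (((γ k).out : SL(2, ℤ)) * hq (v.dg k) q (s.hk v x k) ξ *
      s.rho v i (s.lab v x c i)) (cl (s.ct x c))))
    (fun c => ∏ k : s.Cu c, IN s.N (φ k)) W ht
    (fun c ξ _ i => by
      have h1 : |∏ k : s.Cu c, φ k (act (((γ k).out : SL(2, ℤ)) * hq (v.dg k) q (s.hk v x k) ξ *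
          s.rho v i (s.lab v x c i)) (cl (s.ct x c)))| ≤ 1 / 2 :=
        xke_half fun k => ((φ k).norm_coe_le_norm _).trans (hb _)
      exact ⟨h1.trans (by norm_num), (abs_sub _ _).trans (by linarith [hI' c])⟩)
    (fun c => (hI' c).trans (by norm_num)) hW
    (fun c ξ hξ ξ' hξ' hne => by
      refine le_of_not_gt fun hlt => hB c ⟨_, hcl _ (hI c), q, hq', _, _,
        fun k => ⟨⟨γ k, _, H c k ξ hξ, rfl⟩, ⟨γ k, _, H c k ξ' hξ', rfl⟩⟩,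
        xdd_tw h hx hq' hm hm' (fun k => (γ k).out) c ((mem_Xn hp.pos).1 hξ)
          ((mem_Xn hp.pos).1 hξ') hne, hlt.trans_eq ?_⟩
      have h1 : ∀ ξ ∈ Xn q, ∀ i, ∏ k : s.Cu c, φ k (act (((γ k).out : SL(2, ℤ)) *
          hq (v.dg k) q (s.hk v x k) ξ * s.rho v i (s.lab v x c i)) (cl (s.ct x c))) =
          ∏ k : s.Cu c, φ k (act (((γ k).out : SL(2, ℤ)) * hq (v.dg k) q (s.hk v x k) ξ)
            (act (s.rho v i (s.lab v x c i)) (cl (s.ct x c)))) := fun ξ hξ i =>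
        prod_congr rfl fun k _ => by
          rw [act_mul _ (xdd_rho h hx c i)]
          rw [xdd_det, (mem_Hn (H c k ξ hξ)).2]
          exact_mod_cast (mem_Hn (H c k ξ hξ)).1
      refine congrArg _ (sum_congr rfl fun i _ => ?_)
      rw [BoundedContinuousFunction.mul_apply, xke_apply, xke_apply, h1 ξ hξ, h1 ξ' hξ']) he
  refine le_trans (le_of_eq ?_) key
  refine congrArg _ (congrArg _ (filter_congr fun ξ _ => ?_))
  refine iff_of_eq (congrArg (fun r => t * v.M ≤ |r|) (sum_congr rfl fun i _ => ?_))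
  rw [xdd_fib, xdd_fib]
  refine congrArg (fun r => W i * (r - _)) (prod_congr rfl fun c _ => prod_congr rfl fun k _ => ?_)
  simp only [C0, if_pos k.2.1, k.2.2, cel, if_pos (hI _), Option.getD_some]

theorem card_cor [Fintype ι] [Nonempty ι] (h : s.Ok v L T a m₀ y) (hb : ∀ k, ‖φ k‖ ≤ 1 / 2)
    (ht : 0 < t) {B : ℕ} (hW : ∀ u, #(Ws u) ≤ B ∧ ∀ W ∈ Ws u, ∀ i, |W i| ≤ 1)
    {Rn : Finset ℍ} (hcl : ∀ τ ∈ KU U, cl τ ∈ Rn) {m : ℕ} (hm : m ≤ m₀) (hm' : m ≤ y) {ε : ℝ}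
    (he : 2 * ε ≤ (t / Fintype.card ι) ^ 2) (hx : x ∈ Orb v.τ) (hI : ∀ c, s.ct x c ∈ KU U)
    (hB : ∀ c, ¬ s.Bad v φ m ε Rn c (s.lab v x c)) (hq : q ∈ v.P) :
    (#{ξ ∈ Fintype.piFinset fun _ : ι => Xn q | s.Cor v φ Ws t q (s.C0 v U cl x) ξ} : ℝ) ≤
      B * (s.N : ℝ) ^ (3 * n) * (2 * (Fintype.card ι : ℝ) ^ 3 / t ^ 2) * 2 ^ Fintype.card ι *
        (q : ℝ) ^ Fintype.card ι / q := by
  have hp := (h.pP q hq).1
  have hfin := vcj_fin h.N_pos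
  have hft : Fintype (vcjQ s.N) := Fintype.ofFinite _
  have hq0 : (0 : ℝ) < q := by exact_mod_cast hp.pos
  have h1 : (#(Xn q) : ℝ) ≤ 2 * q := by
    have h2 := card_Xn_prime hp
    have h3 := hp.pos
    exact_mod_cast (show #(Xn q) ≤ 2 * q by omega)
  have h2 : (#(univ : Finset (Fin n → vcjQ s.N)) : ℝ) ≤ (s.N : ℝ) ^ (3 * n) := by
    rw [card_univ, Fintype.card_fun, Fintype.card_fin, ← Nat.card_eq_fintype_card, pow_mul]
    exact_mod_cast Nat.pow_le_pow_left (index_Gamma_le h.N_pos) n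
  have h3 : (#(Xn q) : ℝ) ^ (Fintype.card ι - 1) ≤
      2 ^ Fintype.card ι * (q : ℝ) ^ Fintype.card ι / q := by
    obtain ⟨j, hj⟩ := Nat.exists_eq_succ_of_ne_zero (Fintype.card_ne_zero (α := ι))
    rw [hj, Nat.succ_sub_one, pow_succ (q : ℝ), ← mul_assoc, mul_div_cancel_right₀ _ hq0.ne']
    refine (pow_le_pow_left₀ (Nat.cast_nonneg _) h1 j).trans ?_
    rw [mul_pow]
    exact mul_le_mul_of_nonneg_right (pow_le_pow_right₀ one_le_two (Nat.le_succ j)) (by positivity)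
  have h4 : ({ξ ∈ Fintype.piFinset fun _ : ι => Xn q | s.Cor v φ Ws t q (s.C0 v U cl x) ξ} :
      Finset (ι → Set V2)) ⊆ (Ws (s.sm x) ×ˢ (univ : Finset (Fin n → vcjQ s.N))).biUnion
        fun p => {ξ ∈ Fintype.piFinset fun _ : ι => Xn q | t * v.M ≤
          |s.val v φ (fun k => ((p.2 k).out : SL(2, ℤ)) *
            Pool.Agent.EQ.hq (v.dg k) q ((s.C0 v U cl x).2.1 k) (ξ (s.bs k))) (s.lab v x)
            (fun c => (cel U cl (s.ct x c)).getD UpperHalfPlane.I) p.1|} := fun ξ hξ => by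
    obtain ⟨h5, W, h6, γ, h7⟩ := mem_filter.1 hξ
    exact mem_biUnion.2 ⟨(W, γ), mem_product.2 ⟨h6, mem_univ _⟩, mem_filter.2 ⟨h5, h7⟩⟩
  refine (Nat.cast_le.2 ((card_le_card h4).trans card_biUnion_le)).trans ?_
  rw [Nat.cast_sum]
  refine (sum_le_sum fun p hp => xdd_one h hb ht ((hW _).2 _ (mem_product.1 hp).1) hcl hm hm' he
    hx hI hB hq p.2).trans ?_
  rw [sum_const, card_product, nsmul_eq_mul, Nat.cast_mul]
  have h5 : (#(Ws (s.sm x)) : ℝ) ≤ B := Nat.cast_le.2 (hW _).1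
  refine le_trans (b := B * (s.N : ℝ) ^ (3 * n) * (2 * (Fintype.card ι : ℝ) ^ 3 / t ^ 2 *
    (2 ^ Fintype.card ι * (q : ℝ) ^ Fintype.card ι / q))) ?_ (le_of_eq (by ring))
  gcongr

theorem stepA [Fintype ι] [Nonempty ι] (s : Shp n ι) (hN : 0 < s.N) (φ : Fin n → (ℍ →ᵇ ℝ))
    (hφ : ∀ k, GInv s.N (φ k)) (hb : ∀ k, ‖φ k‖ ≤ 1 / 2) {ω : ℝ → ℝ}
    (hω : ∀ ε, 0 < ε → 0 < ω ε) (hc : ∀ k, EqC ω (φ k)) (L U : ℝ) (a B : ℕ) {t θ : ℝ}
    (ht : 0 < t) (hθ : 0 < θ) : ∃ (cl : ℍ → ℍ) (Rn : Finset ℍ) (C T₀ : ℝ) (m₀ : ℕ),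
      (∀ τ ∈ KU U, cl τ ∈ Rn) ∧ ∀ (v : VD n) (T : ℝ) (y : ℕ), T₀ ≤ T → s.Ok v L T a m₀ y →
      ∀ Ws : (Fin n → ℂ) → Finset (Fin v.M → ℝ), (∀ u, #(Ws u) ≤ B ∧ ∀ W ∈ Ws u, ∀ i, |W i| ≤ 1) →
      θ ≤ prb (Orb v.τ) (s.Ev v φ Ws t) →
      prb (Orb v.τ) (fun x => ¬ ∀ c, s.ct x c ∈ KU U) ≤ θ / 4 → ∀ q ∈ v.P,
      ∃ R : Cty n ι v.M → Finset (ι → Set V2),
        (∀ b, (#(R b) : ℝ) ≤ C * (q : ℝ) ^ Fintype.card ι / q) ∧
        θ / 2 ≤ prb (Orb v.τ) fun x => (fun c => Ker q (s.A v x c)) ∈ R (s.C0 v U cl x) := by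
  have hc0 : (0 : ℝ) < Fintype.card ι := Nat.cast_pos.2 Fintype.card_pos
  have he : 0 < t / (2 * (n + 1)) := by positivity
  have ht' : 0 < t - n * (t / (2 * (n + 1))) := by
    rw [sub_pos, ← mul_div_assoc, div_lt_iff₀ (by positivity)]
    nlinarith [mul_nonneg ht.le (Nat.cast_nonneg (α := ℝ) n)]
  generalize t / (2 * (n + 1)) = e at he ht'
  obtain ⟨Rn, cl, hR, hcl, -⟩ := exists_net U (hω e he)
  have hε : 0 < ((t - n * e) / Fintype.card ι) ^ 2 / 2 := by positivity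
  choose m T₁ hbad using s.bad_prob hN φ hφ hb hω hc U hε Rn hR
  obtain ⟨T₂, horb⟩ := s.bad_orb L U a (δ := θ / (4 * Fintype.card ι)) (by positivity)
  obtain ⟨m₀, hm⟩ := Finite.exists_le m
  obtain ⟨T₃, hT⟩ := Finite.exists_le T₁
  refine ⟨cl, Rn, B * (s.N : ℝ) ^ (3 * n) * (2 * (Fintype.card ι : ℝ) ^ 3 / (t - n * e) ^ 2) *
    2 ^ Fintype.card ι, max m₀ (max T₂ T₃), m₀, fun τ hτ => (hcl τ hτ).1,
    fun v T y hT₀ h Ws hW hE hI q hq => ?_⟩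
  obtain ⟨t1, t2, t3⟩ : (m₀ : ℝ) ≤ T ∧ T₂ ≤ T ∧ T₃ ≤ T := by simpa only [max_le_iff] using hT₀
  have hy : m₀ ≤ y := by
    have h1 : T ≤ T ^ 256 := le_self_pow₀ (by linarith [h.hT]) (by norm_num)
    exact_mod_cast t1.trans (h1.trans h.ylo)
  refine ⟨fun b => if ∃ x ∈ Orb v.τ, (∀ c, s.ct x c ∈ KU U) ∧
      (∀ c, ¬ s.Bad v φ m₀ (((t - n * e) / Fintype.card ι) ^ 2 / 2) Rn c (s.lab v x c)) ∧
      s.C0 v U cl x = b then {ξ ∈ Fintype.piFinset fun _ : ι => Xn q |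
        s.Cor v φ (fun u => Ws (v.mv {q} u)) (t - n * e) q b ξ} else ∅, fun b => ?_, ?_⟩
  · beta_reduce
    split_ifs with h1
    · obtain ⟨x, hx, h2, h3, rfl⟩ := h1
      exact card_cor h hb ht' (fun u => hW _) (fun τ hτ => (hcl τ hτ).1) le_rfl hy
        (le_of_eq (by ring)) hx h2 h3 hq
    · rw [card_empty, Nat.cast_zero]
      positivity
  · have h1 := pb_perm (O := Orb v.τ) (π := v.mv {q}) (fun x hx => Orb_map h.disc hx _)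
      (fun x _ x' _ e => funext fun k => (v.sg {q}).injective (congrFun e k)) (s.Ev v φ Ws t)
    have h2 := (pb_exists (Orb v.τ) univ fun c x => s.ct x c ∈ KU U ∧
      s.Bad v φ m₀ (((t - n * e) / Fintype.card ι) ^ 2 / 2) Rn c (s.lab v x c)).trans
      (sum_le_sum fun c _ => horb v T m₀ y t2 h c _
        (hbad c v L T a m₀ y m₀ ((hT c).trans t3) h (hm c)))
    rw [sum_const, card_univ, nsmul_eq_mul,
      show (Fintype.card ι : ℝ) * (θ / (4 * Fintype.card ι)) = θ / 4 by field_simp] at h2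
    have h3 := (pb_or _ _ _).trans (add_le_add hI h2)
    have h4 := (sub_le_sub (hE.trans h1.ge) h3).trans (pb_sub _ _ _)
    refine le_trans (le_of_eq (by ring)) (h4.trans (pb_mono fun x hx h5 => ?_))
    obtain ⟨h5, h6⟩ := h5
    rw [not_or, not_not] at h6
    beta_reduce
    rw [if_pos ⟨x, hx, h6.1, fun c h7 => h6.2 ⟨c, mem_univ c, h6.1 c, h7⟩, rfl⟩]
    exact mem_filter.2 ⟨Fintype.mem_piFinset.2 fun c =>
      (mem_Xn (h.pP q hq).1.pos).2 (xdd_line h hx hq c),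
      cor_of_ev h hφ (fun k => (hb k).trans (by norm_num)) hc he (fun τ hτ => (hcl τ hτ).2)
        (fun u => (hW u).2) hx h6.1 hq h5⟩

end Shp

end Pool.Agent.EQ
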