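import Pool.Agent.P.MP_ad7a55_nt.XGi

/-! The rigidity theorem. -/

set_option autoImplicit false

noncomputable section

open Finset Matrix
open scoped MatrixGroups Classical

namespace Pool.Agent.EQ

theorem xgj_mono {α ι γ δ : Type} [Fintype ι] {d : RD α ι γ δ} {y C₁ : ℕ}
    {H A₁ S Λ θ C δ₀ H' A' C' : ℝ} (h : d.Ok y H A₁ S Λ θ C δ₀ C₁) (hH : H ≤ H') (hA : A₁ ≤ A')
    (hC : C ≤ C') : d.Ok y H' A' S Λ θ C' δ₀ C₁ where
  ne := h.ne
  prime := h.prime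
  line := h.line
  maps := h.maps
  inj := h.inj
  det := h.det
  com := h.com
  adm := fun β hβ x hx g c => by
    obtain ⟨h1, h2, h3⟩ := h.adm β hβ x hx g c
    exact ⟨h1, h2, fun i j => (h3 i j).trans
      (mul_le_mul_of_nonneg_right hH (Real.sqrt_nonneg _))⟩
  inC := h.inC
  cardC := h.cardC
  cardl := h.cardl.trans hA
  aux := h.aux
  tight := h.tight
  stepA := fun q hq => by
    obtain ⟨R, h1, h2⟩ := h.stepA q hq
    refine ⟨R, fun a => (h1 a).trans ?_, h2⟩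
    exact div_le_div_of_nonneg_right (mul_le_mul_of_nonneg_right hC (by positivity))
      (by positivity)
  lin := h.lin
  xc := h.xc

theorem xgj_enum (P : Finset ℕ) :
    ∃ f : ℕ → ℕ, (∀ i < #P, f i ∈ P) ∧ ∀ i < #P, ∀ j < #P, f i = f j → i = j := by
  refine ⟨fun i => if h : i < #P then (P.equivFin.symm ⟨i, h⟩ : ℕ) else 0, fun i hi => ?_,
    fun i hi j hj e => ?_⟩
  · simp only [dif_pos hi]
    exact (P.equivFin.symm ⟨i, hi⟩).2
  · simp only [dif_pos hi, dif_pos hj] at e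
    have := P.equivFin.symm.injective (Subtype.ext e)
    exact congrArg Fin.val this

/-- The number of primes used below the level `j`. -/
def xgjN (t u : ℕ) : ℕ → ℕ
  | 0 => 0
  | j + 1 => xgjN t u j + t * u ^ (4 * j) * u * u

theorem xgjN_mono (t u : ℕ) : Monotone (xgjN t u) :=
  monotone_nat_of_le_succ fun j => by
    rw [xgjN]
    exact Nat.le_add_right _ _

theorem xgjN_le (t : ℕ) {u : ℕ} (hu : 4 ≤ u) (j : ℕ) : xgjN t u j ≤ t * u ^ (4 * j) := by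
  induction j with
  | zero => exact Nat.zero_le _
  | succ j ih =>
    rw [xgjN]
    have h1 : 1 + u * u ≤ u ^ 4 := by
      have h2 : 16 ≤ u * u := by nlinarith
      have h3 : u ^ 4 = (u * u) * (u * u) := by ring
      rw [h3]
      nlinarith
    calc xgjN t u j + t * u ^ (4 * j) * u * u ≤ t * u ^ (4 * j) + t * u ^ (4 * j) * u * u :=
          Nat.add_le_add_right ih _
      _ = t * u ^ (4 * j) * (1 + u * u) := by ring
      _ ≤ t * u ^ (4 * j) * u ^ 4 := Nat.mul_le_mul_left _ h1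
      _ = t * u ^ (4 * (j + 1)) := by ring

theorem xgjN_real {T l : ℝ} {t u : ℕ} (hT : T ≤ t) (h : 1 + (u : ℝ) ^ 2 * l ≤ (u : ℝ) ^ 4)
    (j : ℕ) : T + xgjN t u j * l ≤ ((t * u ^ (4 * j) : ℕ) : ℝ) := by
  induction j with
  | zero => simpa [xgjN] using hT
  | succ j ih =>
    rw [xgjN]
    push_cast at ih ⊢
    have h0 : (0 : ℝ) ≤ (t : ℝ) * (u : ℝ) ^ (4 * j) := by positivity
    have h1 := mul_le_mul_of_nonneg_left h h0
    have h2 : (t : ℝ) * (u : ℝ) ^ (4 * (j + 1)) = (t : ℝ) * (u : ℝ) ^ (4 * j) * (u : ℝ) ^ 4 := by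
      ring
    rw [h2]
    nlinarith

theorem xgj_mn_sub {α : Type} (O : Finset α) (G G' : α → ℝ) :
    mn O (fun x => G x - G' x) = mn O G - mn O G' := by
  unfold mn
  rw [Finset.sum_sub_distrib, sub_div]

theorem xgj_ent_le {α β Y : Type} (i : DecidableEq Y) {O : Finset α} (F : α → β) {ξ : α → Y}
    {s : ℝ} (hs : 1 ≤ s) (h : (#(@Finset.image α Y i ξ O) : ℝ) ≤ s) : ent O F ξ ≤ Real.log s := by
  refine ent_le hs ?_
  have e : i = fun a b => Classical.propDecidable (a = b) := Subsingleton.elim _ _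
  subst e
  exact h

theorem rig (ι : Type) [Fintype ι] [Nonempty ι] {θ : ℝ} (hθ : 0 < θ) (C₁ a : ℕ) :
    ∃ δ₀ : ℝ, 0 < δ₀ ∧ ∀ C H A₁ : ℝ, ∃ T₀ : ℝ, ∀ T : ℝ, T₀ ≤ T → ∀ (α γ δ : Type)
      (d : RD α ι γ δ) (y : ℕ), d.Ok y H A₁ T (Real.exp T) θ C δ₀ C₁ → (y : ℝ) ≤ T ^ a →
      T ^ 2 ≤ #d.P → False := by
  by_cases hθ1 : θ ≤ 1
  swap
  · refine ⟨1, one_pos, fun C H A₁ => ⟨1, fun T hT α γ δ d y h _ hP => ?_⟩⟩
    have h1 : (0 : ℝ) < #d.P := lt_of_lt_of_le (by positivity) hP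
    obtain ⟨q, hq⟩ := Finset.card_pos.1 (Nat.cast_pos.1 h1)
    obtain ⟨R, _, h2⟩ := h.stepA q hq
    exact hθ1 (h2.trans (pb_le_one _ _))
  have hm : 0 < Fintype.card ι := Fintype.card_pos
  have hm' : (0 : ℝ) < Fintype.card ι := by exact_mod_cast hm
  have he : (0 : ℝ) < 1 / (10 * ((a + 1 : ℕ) : ℝ) * (16 * (C₁ : ℝ) + 2)) := by positivity
  obtain ⟨c, q₀, hc, hc1, hG⟩ := gl_apply ι he
  refine ⟨c * θ / (32 * Fintype.card ι), by positivity, fun C H A₁ => ?_⟩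
  have hH1 : (1 : ℝ) ≤ max H 1 := le_max_right _ _
  have hA1 : (1 : ℝ) ≤ max A₁ 1 := le_max_right _ _
  have hC1 : (1 : ℝ) ≤ max C 1 := le_max_right _ _
  have hA0 : (1 : ℝ) ≤ ((4 * (max H 1) ^ 2 + 1) ^ 4) ^ Fintype.card ι * max A₁ 1 := by
    have h1 : (1 : ℝ) ≤ 4 * (max H 1) ^ 2 + 1 := by
      have := sq_nonneg (max H 1)
      linarith
    exact one_le_mul_of_one_le_of_one_le (one_le_pow₀ (one_le_pow₀ h1)) hA1
  set J : ℕ := ⌈16 * (Fintype.card ι : ℝ) / (c * θ)⌉₊ with hJdef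
  have hJ : 0 < J := Nat.ceil_pos.2 (by positivity)
  have hJ' : 16 * (Fintype.card ι : ℝ) ≤ c * θ * J := by
    have h1 : 16 * (Fintype.card ι : ℝ) / (c * θ) ≤ J := Nat.le_ceil _
    rw [div_le_iff₀ (by positivity)] at h1
    linarith
  obtain ⟨ε, hε, hnum⟩ := num_ok (m := Fintype.card ι) (C₁ := C₁) (a := a + 1) (J := J) (q₀ := q₀)
    hm (Nat.succ_pos a) hJ (C := max C 1) (H := max H 1) hθ hθ1 hc hc1 (by linarith) hA0 hJ'
  obtain ⟨Cc, hCc, hCT⟩ := ct_count hH1 hε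
  obtain ⟨T₀, hT₀⟩ := hnum Cc hCc.le
  refine ⟨max T₀ 1, fun T hT α γ δ d y h₀ hy hP => ?_⟩
  have hT1 : 1 ≤ T := (le_max_right _ _).trans hT
  have h := xgj_mono h₀ (le_max_left H 1) (le_max_left A₁ 1) (le_max_left C 1)
  have hy' : (y : ℝ) ≤ T ^ (a + 1) := hy.trans (pow_le_pow_right₀ hT1 (Nat.le_succ a))
  obtain ⟨u, b₀, hb₀, hp, -, hu2, hN⟩ :=
    hT₀ T ((le_max_left _ _).trans hT) y (#d.P) hy' hP h.card_le
  have hu : 4 ≤ u := (hN 0 hJ).u₁
  have ht : 0 < ⌈T⌉₊ := Nat.ceil_pos.2 (by linarith)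
  have hTt : T ≤ (⌈T⌉₊ : ℕ) := Nat.le_ceil T
  generalize ⌈T⌉₊ = t at hp hN ht hTt
  obtain ⟨f, hf, hfi⟩ := xgj_enum d.P
  set n : ℕ := t * u ^ (4 * J) * b₀ * u ^ (4 * J) with hn
  have hu0 : 0 < u := by omega
  have hn0 : 0 < n := by positivity
  have hNJ : ∀ j ≤ J, n + xgjN t u j ≤ #d.P := fun j hj =>
    le_trans (Nat.add_le_add_left ((xgjN_mono t u hj).trans (xgjN_le t hu J)) n) hp
  have hnP : n ≤ #d.P := le_trans (Nat.le_add_right _ _) hp
  set B : Finset ℕ := (range n).image f with hB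
  set M : ℕ → Finset ℕ := fun j => (Ico n (n + xgjN t u j)).image f with hM
  have hBP : B ⊆ d.P := by
    intro x hx
    obtain ⟨i, hi, rfl⟩ := Finset.mem_image.1 hx
    exact hf i (lt_of_lt_of_le (Finset.mem_range.1 hi) hnP)
  have hBc : #B = n := by
    rw [hB, Finset.card_image_of_injOn, Finset.card_range]
    intro i hi j hj e
    exact hfi i (lt_of_lt_of_le (Finset.mem_range.1 hi) hnP) j
      (lt_of_lt_of_le (Finset.mem_range.1 hj) hnP) e
  have hB0 : B.Nonempty := Finset.card_pos.1 (hBc ▸ hn0)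
  have hMP : ∀ j ≤ J, M j ⊆ d.P := by
    intro j hj x hx
    obtain ⟨i, hi, rfl⟩ := Finset.mem_image.1 hx
    exact hf i (lt_of_lt_of_le (Finset.mem_Ico.1 hi).2 (hNJ j hj))
  have hl1 : (1 : ℝ) ≤ 2 * y + 1 := by
    have : (0 : ℝ) ≤ y := Nat.cast_nonneg y
    linarith
  have hl : 0 ≤ (Fintype.card ι : ℝ) * Real.log (2 * y + 1) :=
    mul_nonneg hm'.le (Real.log_nonneg hl1)
  obtain ⟨j, hj, hdrop⟩ := exists_drop
    (fun j => mn B fun q => ent d.O (d.FF (M j)) (d.dir q))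
    (B := (Fintype.card ι : ℝ) * Real.log (2 * y + 1))
    (fun j => by
      have h1 := mn_mono (O := B) (G := fun _ => (0 : ℝ))
        (G' := fun q => ent d.O (d.FF (M j)) (d.dir q)) fun q _ => ent_nonneg _ _ _
      rwa [mn_const hB0] at h1)
    (by
      have h1 := mn_mono (O := B) (G := fun q => ent d.O (d.FF (M 0)) (d.dir q))
        (G' := fun _ => (Fintype.card ι : ℝ) * Real.log (2 * y + 1)) fun q hq => by
          have h2 := xgj_ent_le _ (d.FF (M 0)) (one_le_pow₀ hl1) (h.card_dir (hBP hq))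
          rwa [Real.log_pow] at h2
      rwa [mn_const hB0] at h1) hJ
  have hlt : ∀ z : Fin (t * u ^ (4 * j) * u) × Fin u,
      n + xgjN t u j + (finProdFinEquiv z : ℕ) < n + xgjN t u (j + 1) := by
    intro z
    have := (finProdFinEquiv z).2
    rw [xgjN]
    omega
  have hlt' : ∀ z : Fin (t * u ^ (4 * j) * u) × Fin u,
      n + xgjN t u j + (finProdFinEquiv z : ℕ) < #d.P := fun z =>
    lt_of_lt_of_le (hlt z) (hNJ (j + 1) hj)
  refine rig_core h hA1 (by linarith) hθ (by linarith) (Real.exp_pos T) hc he.le hε.le hCc.le hG hCT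
    (L := t * u ^ (4 * j) * u) (u := u) (r := 16 * C₁ + 2) (b := t * u ^ (4 * j) * b₀)
    (pr := fun g i => f (n + xgjN t u j + (finProdFinEquiv (g, i) : ℕ)))
    (M := M j) (M' := M (j + 1)) (B := B) (s := ((t * u ^ (4 * j) : ℕ) : ℝ))
    (Δ := (Fintype.card ι : ℝ) * Real.log (2 * y + 1) / J)
    ?_ (hMP (j + 1) hj) ?_ ?_ hBP ?_ (by positivity) ?_ hB0 ?_ ?_ ?_
  · refine Finset.image_subset_image (Finset.Ico_subset_Ico_right ?_)
    exact Nat.add_le_add_left (xgjN_mono t u (Nat.le_succ j)) n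
  · intro z z' e
    have h1 := hfi _ (hlt' z) _ (hlt' z') e
    exact finProdFinEquiv.injective (Fin.ext (by omega))
  · intro g i
    refine ⟨Finset.mem_image.2 ⟨_, Finset.mem_Ico.2 ⟨by omega, hlt (g, i)⟩, rfl⟩, fun hx => ?_⟩
    obtain ⟨k, hk, e⟩ := Finset.mem_image.1 hx
    have h1 := Finset.mem_Ico.1 hk
    have h2 := hfi k (lt_of_lt_of_le h1.2 (hNJ j hj.le)) _ (hlt' (g, i)) e
    omega
  · rw [Finset.disjoint_left]
    intro x hx hx'
    obtain ⟨i, hi, rfl⟩ := Finset.mem_image.1 hx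
    obtain ⟨k, hk, e⟩ := Finset.mem_image.1 hx'
    have h1 := Finset.mem_Ico.1 hk
    have h2 := Finset.mem_range.1 hi
    have h3 := hfi k (lt_of_lt_of_le h1.2 (hNJ (j + 1) hj)) i (lt_of_lt_of_le h2 hnP) e
    omega
  · rw [hBc, hn]
    refine Dvd.dvd.mul_right (Nat.mul_dvd_mul_right (Nat.mul_dvd_mul_left t ?_) b₀) _
    exact pow_dvd_pow u (Nat.mul_le_mul_left 4 hj.le)
  · refine (h.card_FF (hMP j hj.le)).trans (Real.exp_le_exp.2 ?_)
    refine le_trans ?_ (xgjN_real hTt hu2 j)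
    have h1 : #(M j) ≤ xgjN t u j := by
      refine Finset.card_image_le.trans ?_
      rw [Nat.card_Ico]
      omega
    have h2 : (#(M j) : ℝ) ≤ xgjN t u j := by exact_mod_cast h1
    have h3 := mul_le_mul_of_nonneg_right h2 hl
    linarith
  · rw [xgj_mn_sub]
    exact hdrop
  · rw [hBc]
    exact hN j hj

end Pool.Agent.EQ
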