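import Pool.Agent.P.MP_ad7a55_nt.XDb
import Pool.Agent.P.MP_ad7a55_nt.XDd
import Pool.Agent.P.MP_ad7a55_nt.XBe
import Pool.Agent.P.MP_ad7a55_nt.XGj

/-! The finitary theorem for a fixed cluster shape. -/

set_option autoImplicit false

noncomputable section

open MeasureTheory Topology Filter UpperHalfPlane Finset
open scoped MatrixGroups BoundedContinuousFunction Matrix Classical

namespace Pool.Agent.EQ

theorem xde_grow (K : ℝ) (m : ℕ) : ∃ T₀ : ℝ, ∀ T : ℝ, T₀ ≤ T → 1 ≤ T →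
    K * T ^ m ≤ Real.exp (T ^ 6) := by
  refine ⟨K * (m + 1).factorial, fun T h1 h2 => ?_⟩
  have h3 := Real.pow_div_factorial_le_exp T (by linarith) (m + 1)
  have h4 : (0 : ℝ) < (m + 1).factorial := by positivity
  have h5 : K * T ^ m ≤ T ^ (m + 1) / (m + 1).factorial := by
    rw [le_div_iff₀ h4, pow_succ]
    have h6 : (0 : ℝ) ≤ T ^ m := by positivity
    nlinarith [mul_le_mul_of_nonneg_left h1 h6]
  exact h5.trans (h3.trans (Real.exp_le_exp.2 (le_self_pow₀ h2 (by norm_num))))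

theorem xde_Cl (D : ℤ) : #((Cl_finite D).toFinset) ≤ 3 * D.natAbs ^ 2 := by
  rw [← Set.ncard_eq_toFinset_card _ (Cl_finite D)]
  refine le_trans (Set.ncard_le_ncard (fun w hw => ?_) ?_) (card_small_red D D.natAbs)
  · obtain ⟨a, b, c, h1, h2, h3, -, h5, h6⟩ := exists_red hw
    refine ⟨a, b, c, h1, h2, ?_, h5, h6⟩
    have h7 := abs_le.1 h2
    have h8 : b ^ 2 ≤ a ^ 2 := sq_le_sq' h7.1 h7.2
    have h9 : a ≤ -D := by nlinarith
    omega
  · refine ((Finset.finite_toSet (Icc (1 : ℤ) D.natAbs ×ˢ Icc (-(D.natAbs : ℤ)) D.natAbs)).image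
      fun x : ℤ × ℤ => jL (sp x.1 ((x.2 - th D) / 2))).subset ?_
    rintro w ⟨a, b, c, h1, h2, h3, -, h5⟩
    refine ⟨(a, b), ?_, h5⟩
    have h6 := abs_le.1 h2
    simp only [Finset.mem_coe, Finset.mem_product, Finset.mem_Icc]
    omega

theorem xde_pi {κ β : Type} [Fintype κ] [DecidableEq κ] (S : κ → Finset β) {B : ℝ}
    (h : ∀ k, (#(S k) : ℝ) ≤ B) :
    (#(Fintype.piFinset S) : ℝ) ≤ B ^ Fintype.card κ := by
  rw [Fintype.card_piFinset, Nat.cast_prod, ← card_univ, ← prod_const]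
  exact prod_le_prod (fun k _ => by positivity) fun k _ => h k

theorem xde_Xn {l k : ℕ} (hl : l.Prime) (hk : 0 < k) {T : ℝ} (h : (l : ℝ) ≤ Real.exp T) :
    (#(Xn (l ^ k)) : ℝ) ≤ Real.exp (1 + k * T) := by
  have h1 := (card_Xn hl hk).2
  have h2 : #(Xn (l ^ k)) ≤ 2 * l ^ k := by
    refine Nat.le_of_mul_le_mul_right (h1.trans ?_) hl.pos
    have := hl.pos
    calc l ^ k * (l + 1) ≤ l ^ k * (2 * l) := Nat.mul_le_mul_left _ (by omega)
      _ = 2 * l ^ k * l := by ring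
  refine (Nat.cast_le.2 h2).trans ?_
  rw [Real.exp_add, Real.exp_nat_mul]
  push_cast
  have h3 := Real.add_one_le_exp (1 : ℝ)
  exact mul_le_mul (by linarith) (pow_le_pow_left₀ (by positivity) h k) (by positivity)
    (by positivity)

namespace Shp

variable {n : ℕ} {ι : Type} [Fintype ι]

omit [Fintype ι] in
theorem Ok.xde_Xi {s : Shp n ι} {v : VD n} {L T : ℝ} {a m₀ y : ℕ} (h : s.Ok v L T a m₀ y)
    (i : Fin v.M) : (#(s.Xi v i) : ℝ) ≤ Real.exp ((6 * s.e + 2) * T ^ 3) := by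
  have hT := h.hT
  have he := h.e_pos
  have hR : 0 < v.R := by
    have h1 : (0 : ℝ) < v.R := lt_of_lt_of_le (by positivity) h.cR.1
    exact_mod_cast h1
  have hl : ∀ q, s.Pm v y q → (q : ℝ) ≤ Real.exp T := fun q hq => by
    have h1 : (q : ℝ) ≤ 2 * y := by exact_mod_cast hq.2.2.1
    linarith [h.ylog]
  have h1 := xde_Xn (h.pl i).1.1 (k := 2 * s.e * v.R) (by positivity) (hl _ (h.pl i).1)
  have h2 := xde_Xn (h.pl i).2.1.1 (k := 2 * s.e) (by positivity) (hl _ (h.pl i).2.1)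
  rw [Xi, card_product, Nat.cast_mul]
  refine (mul_le_mul h1 h2 (by positivity) (by positivity)).trans ?_
  rw [← Real.exp_add, Real.exp_le_exp]
  push_cast
  have h3 : (1 : ℝ) ≤ T ^ 3 := one_le_pow₀ (by linarith)
  have h4 : T ≤ T ^ 3 := le_self_pow₀ (by linarith) (by norm_num)
  have h5 : (v.R : ℝ) * T ≤ 2 * T ^ 3 := by
    have := mul_le_mul_of_nonneg_right h.cR.2 (by linarith : (0 : ℝ) ≤ T)
    linarith [pow_succ T 2]
  have h6 : (0 : ℝ) ≤ s.e := by positivity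
  nlinarith [mul_le_mul_of_nonneg_left h5 h6, mul_le_mul_of_nonneg_left h4 h6]

omit [Fintype ι] in
theorem Ok.xde_pr {s : Shp n ι} {v : VD n} {L T : ℝ} {a m₀ y : ℕ} (h : s.Ok v L T a m₀ y)
    {q : ℕ} (hq : q ∈ v.P) : q.Prime ∧ ¬ (q : ℤ) ∣ 2 * v.E ∧ (q : ℤ) ∣ v.b ^ 2 - v.E := by
  refine ⟨(h.pP q hq).1, fun hd => (h.pP q hq).2.2.2 (hd.trans ⟨s.N * s.dd v, by ring⟩), ?_⟩
  exact ((Int.natCast_dvd_natCast.2 (dvd_prod_of_mem (fun q => q) hq)).mul_left 4).trans h.bP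

omit [Fintype ι] in
theorem Ok.xde_big {s : Shp n ι} {v : VD n} {L T : ℝ} {a m₀ y : ℕ} (h : s.Ok v L T a m₀ y)
    {k : Fin n} (hk : k ∈ s.J) : T ≤ -(v.D k : ℝ) := by
  have hT := h.hT
  have h1 : T ≤ T ^ 16 := le_self_pow₀ (by linarith) (by norm_num)
  linarith [(h.large k hk).1, Real.add_one_le_exp (T ^ 16)]

omit [Fintype ι] in
theorem Ok.xde_fit {s : Shp n ι} {v : VD n} {L T : ℝ} {a m₀ y : ℕ} (h : s.Ok v L T a m₀ y)
    (c : ι) : Fit v.E (v.D (s.cr c)) :=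
  (h.fit _ (s.mem c)).trans (fit_sq h.N_pos _)

theorem card_C0 (s : Shp n ι) (Rn : Finset ℍ) : ∃ T₀ : ℝ, ∀ (v : VD n) (L T U : ℝ) (a m₀ y : ℕ)
    (cl : ℍ → ℍ), T₀ ≤ T → s.Ok v L T a m₀ y → (∀ τ ∈ KU U, cl τ ∈ Rn) →
    (#((Orb v.τ).image (s.C0 v U cl)) : ℝ) ≤ Real.exp (T ^ 6) := by
  refine ⟨6 * n + Fintype.card ι * #Rn + Fintype.card ι * (12 * s.e + 4),
    fun v L T U a m₀ y cl hT₀ h hcl => ?_⟩
  have hT := h.hT
  have hsub : (Orb v.τ).image (s.C0 v U cl) ⊆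
      (Fintype.piFinset fun k => if k ∈ s.I \ s.J then (Cl_finite (v.D k)).toFinset else {0}) ×ˢ
      (Fintype.piFinset fun k => if k ∈ s.J then Hn (v.dg k) else {0}) ×ˢ
      (Fintype.piFinset fun _ : ι => insert none (Rn.image some)) ×ˢ
      (Fintype.piFinset fun _ : ι => Fintype.piFinset fun i => s.Xi v i) := by
    refine image_subset_iff.2 fun x hx => mem_product.2 ⟨?_, mem_product.2 ⟨?_,
      mem_product.2 ⟨?_, ?_⟩⟩⟩
    · refine Fintype.mem_piFinset.2 fun k => ?_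
      simp only [C0, sm]
      split_ifs with hk
      · rw [Set.Finite.mem_toFinset]
        exact ⟨_, discL_one (Orb_disc h.disc hx (h.big k)), by rw [jL_one, (fr_spec _).2]⟩
      · exact mem_singleton_self _
    · refine Fintype.mem_piFinset.2 fun k => ?_
      simp only [C0]
      split_ifs with hk
      · exact (h.hk_spec hx hk).1
      · exact mem_singleton_self _
    · refine Fintype.mem_piFinset.2 fun c => ?_
      simp only [C0, cel]
      split_ifs with hk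
      · exact mem_insert_of_mem (mem_image_of_mem _ (hcl _ hk))
      · exact mem_insert_self _ _
    · exact Fintype.mem_piFinset.2 fun c => Fintype.mem_piFinset.2 fun i => h.lab_mem hx c i
  have e1 : (1 : ℝ) ≤ Real.exp (3 * T) := Real.one_le_exp (by linarith)
  have e2 : Real.exp (3 * T) = Real.exp T * Real.exp T ^ 2 := by
    rw [← pow_succ', ← Real.exp_nat_mul]
    norm_num
  have e3 : (3 : ℝ) ≤ Real.exp T := by linarith [Real.add_one_le_exp T]
  have h1 := xde_pi (fun k => if k ∈ s.I \ s.J then (Cl_finite (v.D k)).toFinset else {0})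
    (B := Real.exp (3 * T)) fun k => by
      split_ifs with hk
      · refine (Nat.cast_le.2 (xde_Cl _)).trans ?_
        have h2 : ((v.D k).natAbs : ℝ) ≤ Real.exp T := by
          have h3 : ((v.D k).natAbs : ℤ) = -v.D k := by have := h.big k; omega
          rw [← Int.cast_natCast, h3, Int.cast_neg]
          exact h.small k hk
        rw [e2]
        push_cast
        exact mul_le_mul e3 (pow_le_pow_left₀ (by positivity) h2 2) (by positivity) (by positivity)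
      · rwa [card_singleton, Nat.cast_one]
  have h2 := xde_pi (fun k => if k ∈ s.J then Hn (v.dg k) else {0})
    (B := Real.exp (3 * T)) fun k => by
      split_ifs with hk
      · refine (Nat.cast_le.2 (card_Hn _)).trans ?_
        rw [e2]
        push_cast
        exact (pow_le_pow_left₀ (by positivity) (h.deg k hk).2.1 2).trans
          (le_mul_of_one_le_left (by positivity) (by linarith))
      · rwa [card_singleton, Nat.cast_one]
  have h3 := xde_pi (fun _ : ι => insert none (Rn.image some)) (B := Real.exp #Rn) fun _ => by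
    refine le_trans ?_ (Real.add_one_le_exp _)
    exact_mod_cast (card_insert_le _ _).trans (Nat.succ_le_succ card_image_le)
  have h4 := xde_pi (fun _ : ι => Fintype.piFinset fun i => s.Xi v i)
    (B := Real.exp ((6 * s.e + 2) * T ^ 3) ^ Fintype.card (Fin v.M)) fun _ =>
      xde_pi (fun i => s.Xi v i) h.xde_Xi
  refine (Nat.cast_le.2 (card_le_card hsub)).trans ?_
  rw [card_product, card_product, card_product, Nat.cast_mul, Nat.cast_mul, Nat.cast_mul]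
  refine (mul_le_mul h1 (mul_le_mul h2 (mul_le_mul h3 h4 (by positivity) (by positivity))
    (by positivity) (by positivity)) (by positivity) (by positivity)).trans ?_
  simp only [← Real.exp_nat_mul, ← Real.exp_add, Fintype.card_fin]
  rw [Real.exp_le_exp]
  have k1 : (1 : ℝ) ≤ T ^ 5 := one_le_pow₀ (by linarith)
  have k2 : T ≤ T ^ 5 := le_self_pow₀ (by linarith) (by norm_num)
  have k3 : (v.M : ℝ) * ((6 * s.e + 2) * T ^ 3) ≤ (12 * s.e + 4) * T ^ 5 := by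
    refine (mul_le_mul_of_nonneg_right h.cM.2 (by positivity)).trans (le_of_eq ?_)
    ring
  have k4 := mul_le_mul_of_nonneg_left k3 (Nat.cast_nonneg (α := ℝ) (Fintype.card ι))
  have k5 := mul_le_mul_of_nonneg_left k2 (by positivity : (0 : ℝ) ≤ 6 * n)
  have k6 := mul_le_mul_of_nonneg_left k1 (by positivity : (0 : ℝ) ≤ Fintype.card ι * #Rn)
  have k7 := mul_le_mul_of_nonneg_right hT₀ (by positivity : (0 : ℝ) ≤ T ^ 5)
  have k8 : T * T ^ 5 = T ^ 6 := by ring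
  nlinarith

theorem rd_ok (s : Shp n ι) (Rn : Finset ℍ) (L : ℝ) {U : ℝ} (hU : 1 ≤ U) (a : ℕ) :
    ∃ T₀ : ℝ, ∀ (v : VD n) (T θ C δ₀ : ℝ) (m₀ y : ℕ) (cl : ℍ → ℍ), T₀ ≤ T → s.Ok v L T a m₀ y →
    (∀ τ ∈ KU U, cl τ ∈ Rn) → prb (Orb v.τ) (fun x => ¬ ∀ c, s.ct x c ∈ KU U) ≤ δ₀ →
    (∀ q ∈ v.P, ∃ R : Cty n ι v.M → Finset (ι → Set V2),
      (∀ b, (#(R b) : ℝ) ≤ C * (q : ℝ) ^ Fintype.card ι / q) ∧
      θ ≤ prb (Orb v.τ) fun x => (fun c => Ker q (s.A v x c)) ∈ R (s.C0 v U cl x)) →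
    (s.rd v U cl).Ok y (4 * U ^ 2) ((#Rn : ℝ) ^ Fintype.card ι) (T ^ 6) (Real.exp (T ^ 6)) θ C δ₀
      14 := by
  obtain ⟨T₁, h₁⟩ := s.card_C0 Rn
  obtain ⟨K, Y, A, hK, h₂⟩ := lin_orb L U
  obtain ⟨K', A', R₀, hK', h₃⟩ := xc_orb L U hU
  obtain ⟨T₂, g₂⟩ := xde_grow K (a * A)
  obtain ⟨T₃, g₃⟩ := xde_grow K' (a * A')
  refine ⟨max (max T₁ Y) (max (max T₂ T₃) R₀), fun v T θ C δ₀ m₀ y cl hT₀ h hcl ht hA => ?_⟩
  simp only [max_le_iff] at hT₀
  obtain ⟨⟨t1, t2⟩, ⟨t3, t4⟩, t5⟩ := hT₀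
  have hT := h.hT
  have hT1 : (1 : ℝ) ≤ T := by linarith
  have p13 : (1 : ℝ) ≤ T ^ 13 := one_le_pow₀ hT1
  have p16 : 1000000 * T ^ 13 ≤ T ^ 16 := by
    have h4 : (100 : ℝ) ^ 3 ≤ T ^ 3 := pow_le_pow_left₀ (by norm_num) hT 3
    have h5 : T ^ 16 = T ^ 3 * T ^ 13 := by ring
    rw [h5]
    exact mul_le_mul_of_nonneg_right (by linarith) (by positivity)
  have hpos : ∀ β ⊆ v.P, 0 < ∏ l ∈ β, l := fun β hβ => prod_pos fun l hl => (h.pP l (hβ hl)).1.pos
  refine ⟨Orb_ne h.disc, fun l hl => ⟨(h.pP l hl).1, (h.pP l hl).2.1, (h.pP l hl).2.2.1⟩,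
    fun x hx c l hl => ?_, fun β _ x hx => Orb_map h.disc hx (v.sg β),
    fun β _ x _ x' _ e => funext fun k => (v.sg β).injective (congrFun e k),
    fun β hβ x hx c => (h.et_spec hβ hx c).1, fun β hβ x hx c => (h.et_spec hβ hx c).2.2.2,
    fun β hβ x hx g c => ?_, fun x _ x' _ e g c => ?_,
    le_trans (Nat.cast_le.2 (card_le_card fun z hz => ?_)) (h₁ v L T U a m₀ y cl t1 h hcl), ?_,
    fun β hβ x hx x' hx' _ _ e₁ e₂ e₃ => h.aux hβ hx hx' e₁ e₂ fun c => congrFun e₃ c, ht, hA,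
    fun c β hβ => ?_, fun k l hkl β hβ Z hZ hZ' => ?_⟩
  · obtain ⟨q1, q2, q3⟩ := h.xde_pr hl
    exact AA_line (h.ct_disc hx c).1 (h.ct_disc hx c).2 q1.pos
      ((Nat.prime_iff_prime_int.1 q1).coprime_iff_not_dvd.2 q2) q3
  · obtain ⟨q1, q2, q3, -⟩ := h.et_spec hβ hx c
    have q4 : act (s.et v β x c) (s.ct x c) ∈ KU U := by
      rw [q3]
      exact g.2 c
    exact ⟨q1, q2, ht_le_KU hU (hpos β hβ) q1 (g.1 c) q4⟩
  · have e' : cel U cl (s.ct x c) = cel U cl (s.ct x' c) := congrFun (congrArg (·.2.2.1) e) c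
    by_contra hn
    rw [cel, cel, if_pos (g c), if_neg hn] at e'
    exact Option.some_ne_none _ e'
  · simp only [mem_image] at hz ⊢
    exact hz
  · refine le_trans (Nat.cast_le.2 (card_le_card fun z hz => ?_))
      (xde_pi (fun _ : ι => Rn.image some) fun _ => Nat.cast_le.2 card_image_le)
    simp only [mem_image, mem_filter] at hz
    obtain ⟨x, hx, rfl⟩ := hz
    refine Fintype.mem_piFinset.2 fun c => ?_
    have g : s.ct x c ∈ KU U := hx.2 c
    change cel U cl (s.ct x c) ∈ _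
    rw [cel, if_pos g]
    exact mem_image_of_mem _ (hcl _ g)
  · have hc := s.mem c
    have h4 := h₂ n v.τ v.D h.disc (s.cr c) v.E v.b β (fun _ => 1) (t2.trans (h.xde_big hc))
      (h.low _ hc) (h.xde_fit c) (fun l hl => by
        obtain ⟨q1, q2, q3⟩ := h.xde_pr (hβ hl)
        exact ⟨q1, q2, one_pos, by rwa [pow_one]⟩) (h.prod_le hβ).2 (by
        simp only [pow_one]
        have h5 : (((∏ l ∈ β, l : ℕ) : ℝ)) ^ 400 ≤ -(v.D (s.cr c) : ℝ) := by
          refine (pow_le_pow_left₀ (by positivity) (h.prod_le hβ).1 400).trans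
            (le_trans ?_ (h.large _ hc).1)
          rw [← Real.exp_nat_mul, Real.exp_le_exp]
          push_cast
          linarith
        exact_mod_cast h5)
    simp only [pow_one] at h4
    refine le_trans (Nat.cast_le.2 (card_le_card fun z hz => ?_)) (h4.trans ?_)
    · rw [mem_filter] at hz ⊢
      exact ⟨hz.1, hz.2.1 c, hz.2.2.1 c, hz.2.2.2⟩
    · refine mul_le_mul_of_nonneg_right (div_le_div_of_nonneg_right ?_ (by positivity))
        (by positivity)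
      refine le_trans (mul_le_mul_of_nonneg_left ?_ hK.le) (g₂ T t3 hT1)
      rw [pow_mul]
      exact pow_le_pow_left₀ (Real.log_nonneg (hT1.trans (h.xde_big hc))) (h.large _ hc).2 _
  · obtain ⟨R, hR⟩ : ∃ R : ℕ, R = ⌊Real.exp (T ^ 16 / 3)⌋₊ := ⟨_, rfl⟩
    have r1 : (R : ℝ) ^ 3 ≤ Real.exp (T ^ 16) := by
      refine (pow_le_pow_left₀ (by positivity) (hR ▸ Nat.floor_le (by positivity)) 3).trans
        (le_of_eq ?_)
      rw [← Real.exp_nat_mul]
      congr 1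
      push_cast
      ring
    have r2 : Real.exp (400 * T ^ 13) ≤ R := by
      have h4 := Nat.lt_floor_add_one (Real.exp (T ^ 16 / 3))
      rw [← hR] at h4
      have h5 : Real.exp (400 * T ^ 13 + 1) ≤ Real.exp (T ^ 16 / 3) :=
        Real.exp_le_exp.2 (by linarith)
      rw [Real.exp_add] at h5
      have h6 : (1 : ℝ) ≤ Real.exp (400 * T ^ 13) := Real.one_le_exp (by positivity)
      have h7 := Real.add_one_le_exp (1 : ℝ)
      nlinarith
    have r3 : ∀ c, (R : ℤ) ^ 3 ≤ -v.D (s.cr c) := fun c => by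
      exact_mod_cast r1.trans (h.large _ (s.mem c)).1
    have z1 : Z ≤ Real.exp (2 * T ^ 13) := by
      have h4 : (y : ℝ) ≤ Real.exp T := by linarith [h.ylog, Nat.cast_nonneg (α := ℝ) y]
      refine hZ'.trans ((pow_le_pow_left₀ (by positivity) h4 _).trans ?_)
      rw [← Real.exp_nat_mul, Real.exp_le_exp]
      refine (mul_le_mul_of_nonneg_right h.cP.2 (by linarith)).trans (le_of_eq ?_)
      ring
    have h4 := h₃ n v.τ v.D h.disc (s.cr k) (s.cr l) v.E v.b β R Z (T ^ a) (h.low _ (s.mem k))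
      (h.xde_fit k) (h.xde_fit l) (fun p hp => h.xde_pr (hβ hp)) (h.prod_le hβ).2 hZ (by
        refine le_trans ?_ r2
        have h5 : (R₀ : ℝ) ≤ Real.exp (T ^ 13) := by
          have h6 : T ≤ T ^ 13 := le_self_pow₀ hT1 (by norm_num)
          linarith [Real.add_one_le_exp (T ^ 13)]
        refine (mul_le_mul h5 (pow_le_pow_left₀ (by linarith) z1 2) (by positivity)
          (by positivity)).trans ?_
        rw [← Real.exp_nat_mul, ← Real.exp_add, Real.exp_le_exp]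
        push_cast
        linarith) (by
        have h5 : (((∏ l ∈ β, l : ℕ) : ℝ)) ^ 200 ≤ R := by
          refine (pow_le_pow_left₀ (by positivity) (h.prod_le hβ).1 200).trans (le_trans ?_ r2)
          rw [← Real.exp_nat_mul, Real.exp_le_exp]
          push_cast
          linarith
        exact_mod_cast h5) (r3 k) (r3 l) (one_le_pow₀ hT1) (h.large _ (s.mem k)).2
      (h.large _ (s.mem l)).2 fun d hd hd' => h.sep k l hkl d hd
        (le_trans (by exact_mod_cast hd') r1)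
    refine le_trans (pb_mono fun x _ hx => ⟨hx.1 k, hx.1 l, hx.2⟩) (h4.trans ?_)
    refine div_le_div_of_nonneg_right (mul_le_mul_of_nonneg_right ?_ (by positivity))
      (by positivity)
    rw [← pow_mul]
    exact g₃ T t4 hT1

end Shp

theorem fin_main {N : ℕ} (hN : 0 < N) (F : IntermediateField ℚ ℂ) [FiniteDimensional ℚ F] (n : ℕ) :
    ∃ e : ℕ, 0 < e ∧ ∀ (φ : Fin n → (ℍ →ᵇ ℝ)), (∀ k, Tc N F (φ k)) → (∀ k, ‖φ k‖ ≤ 1 / 2) →
      ∀ (ι : Type) [Fintype ι] [Nonempty ι] (s : Shp n ι), s.N = N → s.e = e →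
      ∀ (L θ : ℝ) (a : ℕ), 0 < θ → ∃ (m₀ : ℕ) (T₀ : ℝ), ∀ (v : VD n) (T : ℝ) (y : ℕ)
        (ψ : (Fin n × Fn → ℂ) → ℝ), T₀ ≤ T → s.Ok v L T a m₀ y → Oth s.I v.D ψ →
        (∀ z, |ψ z| ≤ 1) → |avg (ON N F v.τ) fun z => ψ z *
          (PT N F φ s.I z - (∏ k ∈ s.J, IN N (φ k)) * PT N F φ (s.I \ s.J) z)| ≤ θ := by
  obtain ⟨e, T₁, he, h₁⟩ := Shp.red hN F n
  refine ⟨e, he, fun φ hφ hb ι _ _ s hsN hse L θ a hθ => ?_⟩
  have hr : (0 : ℝ) < Module.finrank ℚ F := by exact_mod_cast Module.finrank_pos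
  have hc : (0 : ℝ) < Fintype.card ι := by exact_mod_cast Fintype.card_pos
  obtain ⟨θ₁, hθ₁, e₁⟩ : ∃ θ₁ : ℝ, 0 < θ₁ ∧ θ₁ = θ / (4 * Module.finrank ℚ F) :=
    ⟨_, by positivity, rfl⟩
  obtain ⟨δ₀, hδ₀, h₂⟩ := rig ι (half_pos hθ₁) 14 a
  obtain ⟨U, Y, hU, h₃⟩ := tight_orb L (δ := min δ₀ (θ₁ / 4) / Fintype.card ι)
    (div_pos (lt_min hδ₀ (by positivity)) hc)
  obtain ⟨ω, hω, hω'⟩ := Tc.eqC hN hφ
  obtain ⟨cl, Rn, C, T₂, m₀, hcl, h₄⟩ := s.stepA (hsN ▸ hN) φ (fun k => hsN ▸ (hφ k).1.ginv) hb hω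
    hω' L U a (N ^ (3 * n)) (half_pos hθ) hθ₁
  obtain ⟨T₃, h₅⟩ := s.rd_ok Rn L hU a
  obtain ⟨T₄, h₆⟩ := h₂ C (4 * U ^ 2) ((#Rn : ℝ) ^ Fintype.card ι)
  refine ⟨m₀, max (max T₁ T₂) (max (max T₃ T₄) Y), fun v T y ψ hT₀ h hψ hψ' => ?_⟩
  simp only [max_le_iff] at hT₀
  obtain ⟨⟨t1, t2⟩, ⟨t3, t4⟩, t5⟩ := hT₀
  have hT1 : (1 : ℝ) ≤ T := by linarith [h.hT]
  have hT6 : T ≤ T ^ 6 := le_self_pow₀ hT1 (by norm_num)
  by_contra hn
  obtain ⟨Ws, hW, hE⟩ := h₁ ι s φ hsN hse (fun k => (hφ k).1) (fun k => by linarith [hb k]) v L T a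
    m₀ y ψ θ t1 h hψ hψ' hθ (not_le.1 hn).le
  rw [← e₁] at hE
  have ht : prb (Orb v.τ) (fun x => ¬ ∀ c, s.ct x c ∈ KU U) ≤ min δ₀ (θ₁ / 4) := by
    refine le_trans (pb_mono fun x _ hx => ?_)
      ((pb_exists (Orb v.τ) univ fun c x => fr (x (s.cr c)) ∉ KU U).trans ?_)
    · obtain ⟨c, hc⟩ := not_forall.1 hx
      exact ⟨c, mem_univ c, hc⟩
    · refine (sum_le_card_nsmul _ _ _ fun c _ => h₃ n v.τ v.D h.disc (s.cr c)
        (t5.trans (h.xde_big (s.mem c))) (h.low _ (s.mem c))).trans (le_of_eq ?_)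
      rw [card_univ, nsmul_eq_mul, mul_div_cancel₀ _ hc.ne']
  refine h₆ (T ^ 6) (t4.trans hT6) _ _ _ (s.rd v U cl) y (h₅ v T (θ₁ / 2) C δ₀ m₀ y cl t3 h hcl
    (ht.trans (min_le_left _ _)) (h₄ v T y t2 h Ws hW hE (ht.trans (min_le_right _ _))))
    (h.yhi.trans (pow_le_pow_left₀ (by linarith) hT6 a)) ?_
  rw [← pow_mul]
  exact h.cP.1

end Pool.Agent.EQ
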