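import Pool.Agent.P.MP_ad7a55_nt.XEa

/-! Comparison of conditional laws along a measure preserving map. -/

set_option autoImplicit false

noncomputable section

open Finset
open scoped Classical

namespace Pool.Agent.EQ

variable {α β β' Y δ : Type}

theorem xeb_cp (V : Finset α) (ξ : α → Y) (y : Y) :
    cp V (fun _ => ()) ξ () y = prb V (fun v => ξ v = y) := by
  unfold cp prb
  simp

theorem xeb_pb (O : Finset α) (p : α → Prop) [DecidablePred p] :
    mn O (fun x => if p x then 1 else 0) = prb O p := by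
  rw [pb_eq]
  exact congrArg (mn O) (funext fun x => by by_cases h : p x <;> simp [h])

theorem xeb_pairs (V : Finset α) (P : α × α → Prop) [DecidablePred P] (Q : α → α → Prop)
    (h : ∀ v v', P (v, v') ↔ Q v v') (hV : V.Nonempty) :
    mn V (fun v => prb V (Q v)) * (#V : ℝ) ^ 2 = #{z ∈ V ×ˢ V | P z} := by
  have hc : (0 : ℝ) < #V := by exact_mod_cast hV.card_pos
  have e1 : (#{z ∈ V ×ˢ V | P z} : ℝ) = ∑ v ∈ V, (#{v' ∈ V | Q v v'} : ℝ) := by
    rw [card_filter, sum_product, Nat.cast_sum]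
    refine sum_congr rfl fun v _ => ?_
    rw [card_filter]
    refine congrArg _ (sum_congr rfl fun v' _ => ?_)
    by_cases hq : Q v v'
    · rw [if_pos hq, if_pos ((h v v').2 hq)]
    · rw [if_neg hq, if_neg (fun e => hq ((h v v').1 e))]
  have e2 : ∀ S c : ℝ, c ≠ 0 → S / c / c * c ^ 2 = S := fun S c hc => by field_simp
  rw [e1]
  unfold mn prb
  rw [← sum_div]
  exact e2 _ _ hc.ne'

theorem xeb_sub {ι : Type} [Fintype ι] [DecidableEq ι] {Λ : ι → Type} (V : Finset α)
    (l : ∀ q, α → Λ q) (S : Finset (∀ q, Λ q)) (h : ∀ y ∈ S, ∃ v ∈ V, (fun q => l q v) = y) :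
    ∑ y ∈ S, ∏ q, prb V (fun v' => l q v' = y q) ≤ 1 := by
  refine le_trans (sum_le_sum_of_subset_of_nonneg
    (t := Fintype.piFinset fun q => V.image (l q)) (fun y hy => ?_)
    fun y _ _ => prod_nonneg fun q _ => pb_nonneg _ _) ?_
  · obtain ⟨v, hv, rfl⟩ := h y hy
    exact Fintype.mem_piFinset.2 fun q => mem_image_of_mem _ hv
  rw [← prod_univ_sum (fun q => V.image (l q)) (fun q y => prb V fun v' => l q v' = y)]
  refine prod_le_one (fun q _ => sum_nonneg fun y _ => pb_nonneg _ _) fun q _ => ?_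
  simpa only [xeb_cp] using sum_cp_le V (fun _ => ()) (l q) () (V.image (l q))

theorem xeb_inv {O : Finset α} (F : α → β) (ξ : α → Y) {s : ℝ} (hs : 0 < s)
    (hY : (#(O.image ξ) : ℝ) ≤ s) : mn O (fun x => s⁻¹ / cp O F ξ (F x) (ξ x)) ≤ 1 := by
  refine mn_div_cp (w := fun _ _ => s⁻¹) (fun _ _ => by positivity) (fun b => ?_)
  rw [sum_const, nsmul_eq_mul]
  have h1 : (#(({z ∈ O | F z = b}).image ξ) : ℝ) ≤ #(O.image ξ) := by
    exact_mod_cast card_le_card (image_subset_image (filter_subset _ _))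
  rw [← div_eq_mul_inv, div_le_one hs]
  exact h1.trans hY

theorem xeb_log {a s : ℝ} (ha : 0 < a) (hs : 0 < s) :
    -Real.log a ≤ Real.log s + s⁻¹ / a := by
  have h1 := Real.log_le_sub_one_of_pos (show 0 < s⁻¹ / a by positivity)
  rw [Real.log_div (by positivity) ha.ne', Real.log_inv] at h1
  linarith

theorem xeb_good {O : Finset α} (hO : O.Nonempty) (F : α → β) (κ : α → β') (ξ : α → Y)
    (π : α → α) (Gd : α → Prop) (ix : α → δ) {A : ℝ} (hA : 1 ≤ A)
    (h1 : ∀ b, (#(({x ∈ O | Gd x ∧ F x = b}).image ix) : ℝ) ≤ A)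
    (h2 : ∀ x ∈ O, ∀ x' ∈ O, Gd x → Gd x' → F x = F x' → ix x = ix x' →
      κ (π x) = κ (π x') ∧ (ξ (π x) = ξ (π x') ↔ ξ x = ξ x')) :
    mn O (fun x => if Gd x then
      A⁻¹ * cp O κ ξ (κ (π x)) (ξ (π x)) / cp O F ξ (F x) (ξ x) else 0) ≤ 1 := by
  obtain ⟨x0, -⟩ := hO
  have hA0 : 0 < A := by linarith
  obtain ⟨k, hk⟩ : ∃ k : β → δ → β', ∀ x ∈ O, Gd x → k (F x) (ix x) = κ (π x) := by
    refine ⟨fun b i => if h : ∃ x ∈ O, Gd x ∧ F x = b ∧ ix x = i then κ (π h.choose)
      else κ (π x0), fun x hx hg => ?_⟩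
    have h : ∃ x' ∈ O, Gd x' ∧ F x' = F x ∧ ix x' = ix x := ⟨x, hx, hg, rfl, rfl⟩
    simp only [dif_pos h]
    obtain ⟨e1, e2, e3, e4⟩ := h.choose_spec
    exact (h2 _ e1 _ hx e2 hg e3 e4).1
  let T : β → δ → Y → Finset Y := fun b i y =>
    ({x ∈ O | Gd x ∧ F x = b ∧ ix x = i ∧ ξ x = y}).image fun x => ξ (π x)
  let w : β → Y → ℝ := fun b y => A⁻¹ * ∑ i ∈ ({x ∈ O | Gd x ∧ F x = b}).image ix,
    ∑ y' ∈ T b i y, cp O κ ξ (k b i) y'
  have w0 : ∀ b y, 0 ≤ w b y := fun b y =>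
    mul_nonneg (by positivity) (sum_nonneg fun i _ => sum_nonneg fun y' _ => cp_nonneg _ _ _ _ _)
  refine le_trans (mn_mono fun x hx => ?_) (mn_div_cp (O := O) (F := F) (ξ := ξ) w0 fun b => ?_)
  · split_ifs with hg
    · refine div_le_div_of_nonneg_right (mul_le_mul_of_nonneg_left ?_ (by positivity))
        (cp_nonneg _ _ _ _ _)
      have m1 : ix x ∈ ({z ∈ O | Gd z ∧ F z = F x}).image ix :=
        mem_image_of_mem _ (mem_filter.2 ⟨hx, hg, rfl⟩)
      have m2 : ξ (π x) ∈ T (F x) (ix x) (ξ x) :=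
        mem_image_of_mem (fun x => ξ (π x)) (mem_filter.2 ⟨hx, hg, rfl, rfl, rfl⟩)
      refine le_trans ?_ (single_le_sum (f := fun i => ∑ y' ∈ T (F x) i (ξ x),
        cp O κ ξ (k (F x) i) y') (fun i _ => sum_nonneg fun y' _ => cp_nonneg _ _ _ _ _) m1)
      rw [← hk x hx hg]
      exact single_le_sum (f := fun y' => cp O κ ξ (k (F x) (ix x)) y')
        (fun y' _ => cp_nonneg _ _ _ _ _) m2
    · exact div_nonneg (w0 _ _) (cp_nonneg _ _ _ _ _)
  · simp only [w]
    rw [← mul_sum, sum_comm, inv_mul_le_iff₀ hA0, mul_one]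
    refine le_trans (sum_le_sum (g := fun _ => (1 : ℝ)) fun i _ => ?_) ?_
    · rw [← sum_biUnion]
      · exact sum_cp_le _ _ _ _ _
      · intro y _ y' _ hne
        rw [Function.onFun, disjoint_left]
        intro z hz hz'
        obtain ⟨x, hx, rfl⟩ := mem_image.1 hz
        obtain ⟨x', hx', e⟩ := mem_image.1 hz'
        obtain ⟨m1, m2, m3, m4, m5⟩ := mem_filter.1 hx
        obtain ⟨n1, n2, n3, n4, n5⟩ := mem_filter.1 hx'
        have := (h2 x' n1 x m1 n2 m2 (n3.trans m3.symm) (n4.trans m4.symm)).2.1 e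
        exact hne (by rw [← m5, ← n5, this])
    · rw [sum_const, nsmul_eq_mul, mul_one]
      exact h1 b

theorem xeb_one {V : Finset α} (hV : V.Nonempty) (l : α → Y) {s s' p : ℝ}
    (hs : (#(V.image l) : ℝ) ≤ s) (h0 : 0 < s') (h1 : 1 ≤ s * s')
    (hp : p ≤ prb V fun v => s' < prb V fun v' => l v' = l v) :
    p * Real.log (s * s') - Real.log s - 1 ≤
      mn V fun v => Real.log (prb V fun v' => l v' = l v) := by
  have s0 : 0 < s := by
    by_contra h
    have := mul_nonpos_of_nonpos_of_nonneg (not_lt.1 h) h0.le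
    linarith
  have hl : 0 ≤ Real.log (s * s') := Real.log_nonneg h1
  have k1 := xeb_inv (fun _ => ()) l s0 hs
  simp only [xeb_cp] at k1
  have k2 : mn V (fun v => Real.log (s * s') *
      (if s' < prb V fun v' => l v' = l v then 1 else 0) +
        ((-1) * (s⁻¹ / prb V fun v' => l v' = l v) + -Real.log s)) ≤
      mn V fun v => Real.log (prb V fun v' => l v' = l v) := by
    refine mn_mono fun v hv => ?_
    have r0 : 0 < prb V fun v' => l v' = l v := by
      rw [← xeb_cp]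
      exact cp_pos (F := fun _ => ()) hv
    split_ifs with hh
    · have e1 := Real.log_le_log h0 hh.le
      have e2 : 0 ≤ s⁻¹ / prb V fun v' => l v' = l v := by positivity
      rw [Real.log_mul s0.ne' h0.ne']
      linarith
    · have := xeb_log r0 s0
      linarith
  rw [mn_add, mn_add, mn_mul, mn_mul, mn_const hV, xeb_pb] at k2
  have k3 := mul_le_mul_of_nonneg_left hp hl
  linarith

theorem compare_cp {O : Finset α} (hO : O.Nonempty) (F : α → β) (κ : α → β') (ξ : α → Y)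
    {π : α → α} (h : ∀ x ∈ O, π x ∈ O) (hi : Set.InjOn π O) (Gd : α → Prop) (ix : α → δ)
    {A s t : ℝ} (hA : 1 ≤ A) (hs : 1 ≤ s) (ht : 0 < t) (hY : (#(O.image ξ) : ℝ) ≤ s)
    (h1 : ∀ b, (#(({x ∈ O | Gd x ∧ F x = b}).image ix) : ℝ) ≤ A)
    (h2 : ∀ x ∈ O, ∀ x' ∈ O, Gd x → Gd x' → F x = F x' → ix x = ix x' →
      κ (π x) = κ (π x') ∧ (ξ (π x) = ξ (π x') ↔ ξ x = ξ x')) :
    prb O (fun x => cp O κ ξ (κ (π x)) (ξ (π x)) < Real.exp (-t) * cp O F ξ (F x) (ξ x)) ≤
      (ent O κ ξ - ent O F ξ + prb O (fun x => ¬ Gd x) * Real.log s + Real.log A + 2) / t := by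
  have hA0 : 0 < A := by linarith
  have hs0 : 0 < s := by linarith
  set a : α → ℝ := fun x => cp O F ξ (F x) (ξ x) with ha
  set c : α → ℝ := fun x => cp O κ ξ (κ (π x)) (ξ (π x)) with hc
  have a0 : ∀ x ∈ O, 0 < a x := fun x hx => cp_pos hx
  have c0 : ∀ x ∈ O, 0 < c x := fun x hx => cp_pos (h x hx)
  have lA : 0 ≤ Real.log A := Real.log_nonneg hA
  have ls : 0 ≤ Real.log s := Real.log_nonneg hs
  have k1 : prb O (fun x => c x < Real.exp (-t) * a x) ≤
      prb O (fun x => t ≤ max (Real.log (a x) - Real.log (c x)) 0) := by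
    refine pb_mono fun x hx hlt => le_max_of_le_left ?_
    have := Real.log_le_log (c0 x hx) hlt.le
    rw [Real.log_mul (Real.exp_pos _).ne' (a0 x hx).ne', Real.log_exp] at this
    linarith
  have k2 := pb_markov (O := O) (G := fun x => max (Real.log (a x) - Real.log (c x)) 0)
    (fun x _ => le_max_right _ _) ht
  refine k1.trans (k2.trans (div_le_div_of_nonneg_right ?_ ht.le))
  have k3 : mn O (fun x => max (Real.log (a x) - Real.log (c x)) 0) ≤
      mn O (fun x => (-Real.log (c x) + (-1) * (-Real.log (a x))) +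
        (Real.log s * (if ¬ Gd x then 1 else 0) + (Real.log A +
          ((if Gd x then A⁻¹ * c x / a x else 0) + s⁻¹ / a x)))) := by
    refine mn_mono fun x hx => ?_
    have e1 := a0 x hx
    have e2 := c0 x hx
    have e3 : 0 ≤ s⁻¹ / a x := by positivity
    have e4 : 0 ≤ A⁻¹ * c x / a x := by positivity
    by_cases hg : Gd x
    · have e5 := Real.log_le_sub_one_of_pos (show 0 < A⁻¹ * c x / a x by positivity)
      rw [Real.log_div (by positivity) e1.ne', Real.log_mul (by positivity) e2.ne',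
        Real.log_inv] at e5
      simp only [hg, not_true, if_true, if_false]
      exact max_le (by linarith) (by linarith)
    · have e5 := xeb_log e1 hs0
      have e6 : Real.log (c x) ≤ 0 := Real.log_nonpos e2.le (cp_le_one _ _ _ _ _)
      simp only [hg, not_false_iff, if_true, if_false]
      exact max_le (by linarith) (by linarith)
  rw [mn_add, mn_add, mn_add, mn_add, mn_add, mn_mul, mn_mul, mn_const hO, xeb_pb] at k3
  have k4 : mn O (fun x => -Real.log (c x)) = ent O κ ξ :=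
    mn_perm h hi (fun x => -Real.log (cp O κ ξ (κ x) (ξ x)))
  have k5 : mn O (fun x => -Real.log (a x)) = ent O F ξ := rfl
  have k6 : mn O (fun x => if Gd x then A⁻¹ * c x / a x else 0) ≤ 1 :=
    xeb_good hO F κ ξ π Gd ix hA h1 h2
  have k7 : mn O (fun x => s⁻¹ / a x) ≤ 1 := xeb_inv F ξ hs0 hY
  rw [k4, k5] at k3
  linarith

theorem collide {Λ : ℕ → Type} {V : Finset α} (hV : V.Nonempty) (B : Finset ℕ)
    (lab : ∀ q, α → Λ q) (s s' p : ℕ → ℝ) (hs : ∀ q ∈ B, (#(V.image (lab q)) : ℝ) ≤ s q)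
    (hs' : ∀ q ∈ B, 0 < s' q ∧ 1 ≤ s q * s' q)
    (hp : ∀ q ∈ B, p q ≤ prb V fun v => s' q < prb V fun v' => lab q v' = lab q v) :
    Real.exp (∑ q ∈ B, (p q * Real.log (s q * s' q) - Real.log (s q) - 1)) * (#V : ℝ) ^ 2 ≤
      #{z ∈ V ×ˢ V | ∀ q ∈ B, lab q z.1 = lab q z.2} := by
  have hc : (0 : ℝ) < #V := by exact_mod_cast hV.card_pos
  let J : α → ∀ q : B, Λ q := fun v q => lab q v
  set ρ : α → ℝ := fun v => prb V fun v' => J v' = J v with hρ
  set r : ℕ → α → ℝ := fun q v => prb V fun v' => lab q v' = lab q v with hr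
  have ρ0 : ∀ v ∈ V, 0 < ρ v := fun v hv => by
    simp only [hρ, ← xeb_cp]
    exact cp_pos (F := fun _ => ()) hv
  have r0 : ∀ q, ∀ v ∈ V, 0 < r q v := fun q v hv => by
    simp only [hr, ← xeb_cp]
    exact cp_pos (F := fun _ => ()) hv
  have k1 : ∑ q ∈ B, (p q * Real.log (s q * s' q) - Real.log (s q) - 1) ≤
      mn V fun v => ∑ q ∈ B, Real.log (r q v) := by
    rw [mn_sum]
    exact sum_le_sum fun q hq => xeb_one hV (lab q) (hs q hq) (hs' q hq).1 (hs' q hq).2 (hp q hq)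
  have k2 : mn V (fun v => (∏ q : B, r q v) / ρ v) ≤ 1 := by
    have := mn_div_cp (O := V) (F := fun _ => ()) (ξ := J)
      (w := fun _ y => ∏ q : B, prb V fun v' => lab q v' = y q)
      (fun _ y => prod_nonneg fun q _ => pb_nonneg _ _) (fun b => ?_)
    · simpa only [xeb_cp] using this
    · refine xeb_sub V (fun q : B => lab q) _ fun y hy => ?_
      simp only [mem_image, mem_filter] at hy
      obtain ⟨v, ⟨hv, -⟩, e⟩ := hy
      exact ⟨v, hv, e⟩
  have k3 : mn V (fun v => ∑ q ∈ B, Real.log (r q v)) ≤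
      mn V (fun v => Real.log (ρ v) + ((∏ q : B, r q v) / ρ v + -1)) := by
    refine mn_mono fun v hv => ?_
    have e1 : 0 < ∏ q : B, r q v := prod_pos fun q _ => r0 q v hv
    have e2 := Real.log_le_sub_one_of_pos (div_pos e1 (ρ0 v hv))
    rw [Real.log_div e1.ne' (ρ0 v hv).ne', Real.log_prod (fun (q : B) _ => (r0 q v hv).ne'),
      sum_coe_sort B (fun q => Real.log (r q v))] at e2
    linarith
  rw [mn_add, mn_add, mn_const hV] at k3
  set m : ℝ := mn V fun v => Real.log (ρ v) with hm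
  have k4 : Real.exp m ≤ mn V ρ := by
    have e1 : mn V (fun v => Real.exp m * (Real.log (ρ v) + (1 - m))) ≤ mn V ρ := by
      refine mn_mono fun v hv => ?_
      have e2 := Real.add_one_le_exp (Real.log (ρ v) - m)
      have e3 : ρ v = Real.exp m * Real.exp (Real.log (ρ v) - m) := by
        rw [← Real.exp_add, add_sub_cancel, Real.exp_log (ρ0 v hv)]
      calc _ ≤ Real.exp m * Real.exp (Real.log (ρ v) - m) :=
            mul_le_mul_of_nonneg_left (by linarith) (Real.exp_pos _).le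
        _ = ρ v := e3.symm
    rw [mn_mul, mn_add, mn_const hV, ← hm] at e1
    simpa using e1
  have k5 : mn V ρ * (#V : ℝ) ^ 2 = #{z ∈ V ×ˢ V | ∀ q ∈ B, lab q z.1 = lab q z.2} :=
    xeb_pairs V _ (fun v v' => J v' = J v) (fun v v' => ⟨fun h => funext fun q => (h q q.2).symm,
      fun h q hq => (congrFun h ⟨q, hq⟩).symm⟩) hV
  rw [← k5]
  refine mul_le_mul_of_nonneg_right (le_trans (Real.exp_le_exp.2 ?_) k4) (by positivity)
  linarith

end Pool.Agent.EQ
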