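import Mathlib

/-! Convolution on a finite group. -/

set_option autoImplicit false

noncomputable section

open Finset
open scoped Pointwise MatrixGroups Classical

namespace Pool.Agent.EQ

/-- The sum of the squares. -/
def n2 {α : Type} [Fintype α] (f : α → ℝ) : ℝ := ∑ x, f x ^ 2

variable {G : Type} [Group G] [Fintype G]

/-- Convolution. -/
def cv (μ ν : G → ℝ) : G → ℝ := fun x => ∑ y, μ y * ν (y⁻¹ * x)

/-- Symmetrisation followed by repeated squaring. -/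
def cit (ρ : G → ℝ) : ℕ → G → ℝ
  | 0 => cv (fun x => ρ x⁻¹) ρ
  | i + 1 => cv (cit ρ i) (cit ρ i)

/-- The average correlation of `f` with the translates of `f'`. -/
def cor {Y : Type} [Fintype Y] [MulAction G Y] (ν : G → ℝ) (f f' : Y → ℝ) : ℝ :=
  ∑ g, ν g * ∑ y, f y * f' (g • y)

variable {Y : Type} [Fintype Y] [MulAction G Y] {ρ ν : G → ℝ} {f f' : Y → ℝ}

theorem xfa_shift (φ : G → ℝ) (y : G) : ∑ x, φ (y * x) = ∑ x, φ x :=
  Equiv.sum_comp (Equiv.mulLeft y) φ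

theorem xfa_shiftR (φ : G → ℝ) (y : G) : ∑ x, φ (x * y) = ∑ x, φ x :=
  Equiv.sum_comp (Equiv.mulRight y) φ

theorem xfa_inv (φ : G → ℝ) : ∑ x, φ x⁻¹ = ∑ x, φ x :=
  Equiv.sum_comp (Equiv.inv G) φ

omit [Fintype G] in
theorem xfa_act (φ : Y → ℝ) (g : G) : ∑ y, φ (g • y) = ∑ y, φ y :=
  Equiv.sum_comp (MulAction.toPerm g) φ

theorem xfa_cv_nonneg {μ : G → ℝ} (hμ : ∀ g, 0 ≤ μ g) (hν : ∀ g, 0 ≤ ν g) (g : G) :
    0 ≤ cv μ ν g :=
  sum_nonneg fun _ _ => mul_nonneg (hμ _) (hν _)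

theorem xfa_cv_sum (μ ν : G → ℝ) : ∑ x, cv μ ν x = (∑ x, μ x) * ∑ x, ν x := by
  unfold cv
  rw [sum_comm, sum_mul]
  refine sum_congr rfl fun y _ => ?_
  rw [← mul_sum, xfa_shift ν y⁻¹]

theorem xfa_cv_symm (μ : G → ℝ) (g : G) :
    cv (fun x => μ x⁻¹) μ g⁻¹ = cv (fun x => μ x⁻¹) μ g := by
  unfold cv
  rw [← xfa_shift (fun y => μ y⁻¹ * μ (y⁻¹ * g)) g]
  refine sum_congr rfl fun y _ => ?_
  simp only [mul_inv_rev, inv_mul_cancel_right]
  ring

theorem xfa_cv_set {μ : G → ℝ} (hμ : ∀ g, 0 ≤ μ g) (h1 : ∑ g, μ g ≤ 1) (hν : ∀ g, 0 ≤ ν g)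
    (A : G → Prop) {s : ℝ} (h : ∀ w, ∑ g with A (w * g), ν g ≤ s) (w : G) :
    ∑ g with A (w * g), cv μ ν g ≤ s := by
  have hs : 0 ≤ s := le_trans (sum_nonneg fun _ _ => hν _) (h 1)
  unfold cv
  rw [sum_comm]
  calc ∑ y, ∑ g with A (w * g), μ y * ν (y⁻¹ * g) ≤ ∑ y, μ y * s := by
        refine sum_le_sum fun y _ => ?_
        rw [← mul_sum]
        refine mul_le_mul_of_nonneg_left ?_ (hμ y)
        refine le_trans (le_of_eq ?_) (h (w * y))
        rw [sum_filter, sum_filter,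
          ← xfa_shift (fun g => if A (w * g) then ν (y⁻¹ * g) else 0) y]
        refine sum_congr rfl fun g _ => ?_
        simp only [mul_assoc, inv_mul_cancel_left]
    _ = (∑ y, μ y) * s := by rw [sum_mul]
    _ ≤ s := by nlinarith

theorem xfa_cor_sq (hf' : n2 f' ≤ 1) (ρ : G → ℝ) :
    cor ρ f f' ^ 2 ≤ cor (cv (fun x => ρ x⁻¹) ρ) f f := by
  have e1 : cor ρ f f' = ∑ z, f' z * ∑ g, ρ g * f (g⁻¹ • z) := by
    unfold cor
    simp only [mul_sum]
    rw [sum_comm (s := (univ : Finset Y))]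
    refine sum_congr rfl fun g _ => ?_
    rw [← xfa_act (fun z => f' z * (ρ g * f (g⁻¹ • z))) g]
    refine sum_congr rfl fun y _ => ?_
    simp only [inv_smul_smul]
    ring
  have e2 : cor (cv (fun x => ρ x⁻¹) ρ) f f = ∑ z, (∑ g, ρ g * f (g⁻¹ • z)) ^ 2 := by
    have r1 : ∑ z, (∑ g, ρ g * f (g⁻¹ • z)) ^ 2 =
        ∑ g, ∑ h, ρ g * ρ h * ∑ z, f (h⁻¹ • z) * f (g⁻¹ • z) := by
      simp only [sq, sum_mul_sum]
      simp only [mul_sum]
      rw [sum_comm]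
      refine sum_congr rfl fun g _ => ?_
      rw [sum_comm]
      refine sum_congr rfl fun h _ => sum_congr rfl fun z _ => ?_
      ring
    rw [r1]
    unfold cor cv
    simp only [sum_mul]
    rw [sum_comm, ← xfa_inv]
    refine sum_congr rfl fun g _ => ?_
    rw [← xfa_shift _ g⁻¹]
    refine sum_congr rfl fun h _ => ?_
    rw [← xfa_act (fun z => f (h⁻¹ • z) * f (g⁻¹ • z)) h]
    simp only [inv_inv, mul_inv_cancel_left, inv_smul_smul, mul_smul]
  rw [e1, e2]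
  refine le_trans (sum_mul_sq_le_sq_mul_sq _ _ _) ?_
  have h2 : 0 ≤ ∑ z, (∑ g, ρ g * f (g⁻¹ • z)) ^ 2 := sum_nonneg fun _ _ => sq_nonneg _
  unfold n2 at hf'
  nlinarith

theorem xfa_avg [MulAction.IsPretransitive G Y] (f : Y → ℝ) (y : Y) :
    (Fintype.card Y : ℝ) * ∑ g : G, f (g • y) = Fintype.card G * ∑ z, f z := by
  have h1 : ∀ y' : Y, ∑ g : G, f (g • y') = ∑ g : G, f (g • y) := by
    intro y'
    obtain ⟨k, rfl⟩ := MulAction.exists_smul_eq G y y'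
    rw [← xfa_shiftR (fun g => f (g • y)) k]
    simp only [mul_smul]
  calc (Fintype.card Y : ℝ) * ∑ g : G, f (g • y) = ∑ y' : Y, ∑ g : G, f (g • y') := by
        simp only [h1, sum_const, card_univ, nsmul_eq_mul]
    _ = ∑ g : G, ∑ z, f z := by
        rw [sum_comm]
        exact sum_congr rfl fun g _ => xfa_act f g
    _ = _ := by simp only [sum_const, card_univ, nsmul_eq_mul]

theorem cit_nonneg (h0 : ∀ g, 0 ≤ ρ g) (i : ℕ) (g : G) : 0 ≤ cit ρ i g := by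
  induction i generalizing g with
  | zero => exact xfa_cv_nonneg (fun _ => h0 _) h0 g
  | succ i ih => exact xfa_cv_nonneg ih ih g

theorem cit_sum (h0 : ∀ g, 0 ≤ ρ g) (h1 : ∑ g, ρ g ≤ 1) (i : ℕ) : ∑ g, cit ρ i g ≤ 1 := by
  induction i with
  | zero =>
    have h2 : 0 ≤ ∑ g, ρ g := sum_nonneg fun _ _ => h0 _
    change ∑ g, cv (fun x => ρ x⁻¹) ρ g ≤ 1
    rw [xfa_cv_sum, xfa_inv]
    nlinarith
  | succ i ih =>
    have h2 : 0 ≤ ∑ g, cit ρ i g := sum_nonneg fun _ _ => cit_nonneg h0 i _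
    change ∑ g, cv (cit ρ i) (cit ρ i) g ≤ 1
    rw [xfa_cv_sum]
    nlinarith

theorem cit_symm (ρ : G → ℝ) (i : ℕ) (g : G) : cit ρ i g⁻¹ = cit ρ i g := by
  induction i generalizing g with
  | zero => exact xfa_cv_symm ρ g
  | succ i ih =>
    have := xfa_cv_symm (cit ρ i) g
    simp only [ih] at this
    exact this

theorem cit_set (h0 : ∀ g, 0 ≤ ρ g) (h1 : ∑ g, ρ g ≤ 1) (A : G → Prop) {s : ℝ}
    (h : ∀ w, ∑ g with A (w * g), ρ g ≤ s) (i : ℕ) : ∑ g with A g, cit ρ i g ≤ s := by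
  have key : ∀ w, ∑ g with A (w * g), cit ρ i g ≤ s := by
    induction i with
    | zero =>
      intro w
      exact xfa_cv_set (fun _ => h0 _) (by rw [xfa_inv]; exact h1) h0 A h w
    | succ i ih =>
      intro w
      exact xfa_cv_set (cit_nonneg h0 i) (cit_sum h0 h1 i) (cit_nonneg h0 i) A ih w
  simpa only [one_mul] using key 1

theorem cit_le (ρ : G → ℝ) (i : ℕ) (g : G) : cit ρ (i + 1) g ≤ n2 (cit ρ i) := by
  have h1 : ∑ y, cit ρ i (y⁻¹ * g) ^ 2 = n2 (cit ρ i) := by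
    unfold n2
    rw [← xfa_shiftR (fun x => cit ρ i x ^ 2) g, ← xfa_inv (fun x => cit ρ i (x * g) ^ 2)]
  have h2 : ∑ y, cit ρ i y * cit ρ i (y⁻¹ * g) ≤
      ∑ y, (cit ρ i y ^ 2 + cit ρ i (y⁻¹ * g) ^ 2) / 2 :=
    sum_le_sum fun y _ => by nlinarith [sq_nonneg (cit ρ i y - cit ρ i (y⁻¹ * g))]
  rw [← sum_div, sum_add_distrib, h1] at h2
  change ∑ y, cit ρ i y * cit ρ i (y⁻¹ * g) ≤ _
  unfold n2 at h2 ⊢
  linarith

theorem cor_cit (hf : n2 f ≤ 1) (hf' : n2 f' ≤ 1) (ρ : G → ℝ) (i : ℕ) :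
    cor ρ f f' ^ 2 ^ (i + 1) ≤ cor (cit ρ i) f f := by
  induction i with
  | zero =>
    have := xfa_cor_sq (f := f) hf' ρ
    rw [zero_add, pow_one]
    exact this
  | succ i ih =>
    have h1 := xfa_cor_sq (f := f) hf (cit ρ i)
    simp only [cit_symm] at h1
    have h2 : 0 ≤ cor ρ f f' ^ 2 ^ (i + 1) := by
      rw [pow_succ, pow_mul]
      exact sq_nonneg _
    refine le_trans ?_ h1
    rw [pow_succ 2 (i + 1), pow_mul]
    exact pow_le_pow_left₀ h2 ih 2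

theorem cor_le_sum (h0 : ∀ g, 0 ≤ ν g) (hf : n2 f ≤ 1) : cor ν f f ≤ ∑ g, ν g := by
  unfold cor
  refine sum_le_sum fun g _ => ?_
  have h1 : ∑ y, f y * f (g • y) ≤ ∑ y, (f y ^ 2 + f (g • y) ^ 2) / 2 :=
    sum_le_sum fun y _ => by nlinarith [sq_nonneg (f y - f (g • y))]
  rw [← sum_div, sum_add_distrib, xfa_act (fun y => f y ^ 2) g] at h1
  unfold n2 at hf
  have := h0 g
  nlinarith

theorem cor_le_sup [MulAction.IsPretransitive G Y] [Nonempty Y] (hf : ∀ y, 0 ≤ f y) {s : ℝ}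
    (h : ∀ g, ν g ≤ s) (h0 : ∀ g, 0 ≤ ν g) :
    cor ν f f ≤ s * Fintype.card G * ((∑ y, f y) ^ 2 / Fintype.card Y) := by
  have hY : (0 : ℝ) < Fintype.card Y := by exact_mod_cast Fintype.card_pos
  calc cor ν f f ≤ ∑ g : G, s * ∑ y, f y * f (g • y) :=
        sum_le_sum fun g _ => mul_le_mul_of_nonneg_right (h g)
          (sum_nonneg fun _ _ => mul_nonneg (hf _) (hf _))
    _ = s * ∑ y, f y * (Fintype.card G * (∑ z, f z) / Fintype.card Y) := by
        rw [← mul_sum, sum_comm]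
        congr 1
        refine sum_congr rfl fun y _ => ?_
        rw [← mul_sum, ← xfa_avg (G := G) f y]
        field_simp
    _ = _ := by
        rw [← sum_mul]
        ring

theorem flat (h0 : ∀ g, 0 ≤ ρ g) (h1 : ∑ g, ρ g ≤ 1) {K a : ℝ} (hK : 1 ≤ K) (ha : 0 < a) (I : ℕ)
    (h : a ≤ ∑ g, cit ρ I g) (hI : Fintype.card G < K ^ I * a ^ 2) :
    ∃ i < I, 0 < n2 (cit ρ i) ∧ n2 (cit ρ i) ≤ K * n2 (cit ρ (i + 1)) := by
  by_contra hc
  push Not at hc
  have hn : ∀ i, 0 ≤ n2 (cit ρ i) := fun i => sum_nonneg fun _ _ => sq_nonneg _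
  have step : ∀ i < I, K * n2 (cit ρ (i + 1)) ≤ n2 (cit ρ i) := by
    intro i hi
    rcases (hn i).lt_or_eq with hp | hz
    · exact (hc i hi hp).le
    · have hz' : ∀ g, cit ρ i g = 0 := by
        intro g
        have := (sum_eq_zero_iff_of_nonneg (fun x _ => sq_nonneg (cit ρ i x))).1 hz.symm g
          (mem_univ g)
        exact pow_eq_zero_iff (two_ne_zero) |>.1 this
      have : n2 (cit ρ (i + 1)) = 0 := by
        change ∑ x, (∑ y, cit ρ i y * cit ρ i (y⁻¹ * x)) ^ 2 = 0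
        simp [hz']
      rw [this, mul_zero]
      exact hn i
  have base : n2 (cit ρ 0) ≤ 1 := by
    refine le_trans (sum_le_sum fun g _ => ?_) (cit_sum h0 h1 0)
    have a1 := cit_nonneg h0 0 g
    have a2 : cit ρ 0 g ≤ 1 :=
      le_trans (single_le_sum (fun x _ => cit_nonneg h0 0 x) (mem_univ g)) (cit_sum h0 h1 0)
    nlinarith
  have all : ∀ i ≤ I, K ^ i * n2 (cit ρ i) ≤ 1 := by
    intro i
    induction i with
    | zero => intro _; simpa using base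
    | succ i ih =>
      intro hi
      refine le_trans ?_ (ih (by omega))
      rw [pow_succ, mul_assoc]
      exact mul_le_mul_of_nonneg_left (step i (by omega)) (by positivity)
  have h2 : a ^ 2 ≤ Fintype.card G * n2 (cit ρ I) :=
    le_trans (pow_le_pow_left₀ ha.le h 2) (by
      have := sq_sum_le_card_mul_sum_sq (s := univ) (f := cit ρ I)
      rw [card_univ] at this
      exact this)
  have h3 := all I le_rfl
  have hG : (0 : ℝ) ≤ Fintype.card G := Nat.cast_nonneg _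
  have hKI : 0 ≤ K ^ I := by positivity
  have h4 := mul_le_mul_of_nonneg_left h2 hKI
  have h5 := mul_le_mul_of_nonneg_left h3 hG
  nlinarith

end Pool.Agent.EQ
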