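import Pool.Agent.P.MP_ad7a55_nt.XFa

/-! From a measure that does not flatten to a set of large energy. -/

set_option autoImplicit false
set_option linter.unusedSectionVars false

noncomputable section

open Finset
open scoped Pointwise MatrixGroups Classical

namespace Pool.Agent.EQ

variable {G : Type} [Group G] [Fintype G]

/-- The number of representations `x = a⁻¹ b`. -/
def rq (A : Finset G) (x : G) : ℝ := #{p ∈ A ×ˢ A | p.1⁻¹ * p.2 = x}

/-- The multiplicative energy. -/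
def en (A : Finset G) : ℝ := ∑ x, rq A x ^ 2

/-- indicator function -/
def xfb_i (A : Finset G) (x : G) : ℝ := if x ∈ A then 1 else 0

theorem xfb_i_nonneg (A : Finset G) (x : G) : 0 ≤ xfb_i A x := by
  unfold xfb_i
  split_ifs <;> norm_num

theorem xfb_i_le (A : Finset G) (x : G) : xfb_i A x ≤ 1 := by
  unfold xfb_i
  split_ifs <;> norm_num

theorem xfb_sum_i (A : Finset G) : ∑ x, xfb_i A x = #A := by
  simp [xfb_i]

theorem xfb_card (A : Finset G) (φ : G → G) :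
    (#{a ∈ A | φ a ∈ A} : ℝ) = ∑ a, xfb_i A a * xfb_i A (φ a) := by
  rw [card_eq_sum_ones, Nat.cast_sum, sum_filter, ← sum_subset (subset_univ A)]
  · refine sum_congr rfl fun a ha => ?_
    simp [xfb_i, ha]
  · intro a _ ha
    simp [xfb_i, ha]

theorem xfb_rq (A : Finset G) (x : G) : rq A x = ∑ a, xfb_i A a * xfb_i A (a * x) := by
  rw [← xfb_card A (fun a => a * x)]
  unfold rq
  congr 1
  refine card_bij' (fun p _ => p.1) (fun a _ => (a, a * x)) ?_ ?_ ?_ ?_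
  · intro p hp
    simp only [mem_filter, mem_product] at hp ⊢
    refine ⟨hp.1.1, ?_⟩
    rw [← hp.2, mul_inv_cancel_left]
    exact hp.1.2
  · intro a ha
    simp only [mem_filter, mem_product] at ha ⊢
    exact ⟨ha, inv_mul_cancel_left _ _⟩
  · intro p hp
    simp only [mem_filter, mem_product] at hp
    rw [← hp.2, mul_inv_cancel_left]
  · intro a _
    rfl

theorem xfb_l (f : G → ℝ) (a : G) : ∑ c, f (a * c) = ∑ c, f c :=
  Equiv.sum_comp (Equiv.mulLeft a) f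

theorem xfb_r (f : G → ℝ) (a : G) : ∑ s, f (s⁻¹ * a) = ∑ s, f s :=
  ((Equiv.inv G).trans (Equiv.mulRight a)).sum_comp f

theorem xfb_sum_rq (A : Finset G) : ∑ x, rq A x = (#A : ℝ) ^ 2 := by
  simp only [xfb_rq]
  rw [sum_comm]
  simp only [← mul_sum, xfb_l (xfb_i A), xfb_sum_i]
  rw [← sum_mul, xfb_sum_i, sq]

theorem xfb_rq_nonneg (A : Finset G) (x : G) : 0 ≤ rq A x := Nat.cast_nonneg _

theorem xfb_rq_le (A : Finset G) (x : G) : rq A x ≤ #A := by
  rw [xfb_rq, ← xfb_sum_i]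
  exact sum_le_sum fun a _ => mul_le_of_le_one_right (xfb_i_nonneg _ _) (xfb_i_le _ _)

theorem en_eq (A : Finset G) : en A = ∑ s : G, (#{a ∈ A | s⁻¹ * a ∈ A} : ℝ) ^ 2 := by
  unfold en
  simp only [xfb_rq, xfb_card A (fun a => _⁻¹ * a), sq, sum_mul_sum]
  rw [sum_comm]
  conv_rhs => rw [sum_comm]
  refine sum_congr rfl fun a _ => ?_
  rw [sum_comm, ← xfb_r _ a]
  refine sum_congr rfl fun s _ => ?_
  rw [← xfb_l _ a⁻¹]
  refine sum_congr rfl fun c _ => ?_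
  rw [mul_inv_cancel_left, mul_assoc s⁻¹, mul_inv_cancel_left]
  ring

theorem sum_inter (A : Finset G) : ∑ s : G, (#{a ∈ A | s⁻¹ * a ∈ A} : ℝ) = (#A : ℝ) ^ 2 := by
  simp only [xfb_card A (fun a => _⁻¹ * a)]
  rw [sum_comm]
  simp only [← mul_sum, xfb_r (xfb_i A), xfb_sum_i]
  rw [← sum_mul, xfb_sum_i, sq]

theorem en_le (A : Finset G) : en A ≤ (#A : ℝ) ^ 3 := by
  calc en A ≤ ∑ x, (#A : ℝ) * rq A x := by
        refine sum_le_sum fun x _ => ?_
        rw [sq]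
        exact mul_le_mul_of_nonneg_right (xfb_rq_le A x) (xfb_rq_nonneg A x)
    _ = (#A : ℝ) ^ 3 := by rw [← mul_sum, xfb_sum_rq]; ring

theorem le_en (A : Finset G) : (#A : ℝ) ^ 4 ≤ #(A⁻¹ * A) * en A := by
  have hz : ∀ x, x ∉ A⁻¹ * A → rq A x = 0 := by
    intro x hx
    unfold rq
    rw [Nat.cast_eq_zero, card_eq_zero, filter_eq_empty_iff]
    intro p hp hpx
    rw [mem_product] at hp
    exact hx (hpx ▸ mul_mem_mul (inv_mem_inv hp.1) hp.2)
  have h1 : ∑ x ∈ A⁻¹ * A, rq A x = (#A : ℝ) ^ 2 := by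
    rw [← xfb_sum_rq]
    exact sum_subset (subset_univ _) fun x _ hx => hz x hx
  have h2 : ∑ x ∈ A⁻¹ * A, rq A x ^ 2 ≤ en A :=
    sum_le_sum_of_subset_of_nonneg (subset_univ _) fun x _ _ => sq_nonneg _
  calc (#A : ℝ) ^ 4 = (∑ x ∈ A⁻¹ * A, rq A x) ^ 2 := by rw [h1]; ring
    _ ≤ #(A⁻¹ * A) * ∑ x ∈ A⁻¹ * A, rq A x ^ 2 := sq_sum_le_card_mul_sum_sq
    _ ≤ _ := mul_le_mul_of_nonneg_left h2 (Nat.cast_nonneg _)

theorem xfb_cs (w t : G → ℝ) (hw : ∀ y, 0 ≤ w y) :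
    (∑ y, w y * t y) ^ 2 ≤ (∑ y, w y) * ∑ y, w y * t y ^ 2 :=
  sum_sq_le_sum_mul_sum_of_sq_le_mul _ (fun y _ => hw y)
    (fun y _ => mul_nonneg (hw y) (sq_nonneg _)) (fun y _ => le_of_eq (by ring))

theorem xfb_y1 (a b : G → ℝ) (ha : ∀ y, 0 ≤ a y) : n2 (cv a b) ≤ (∑ y, a y) ^ 2 * n2 b := by
  unfold n2 cv
  calc ∑ x, (∑ y, a y * b (y⁻¹ * x)) ^ 2
      ≤ ∑ x, (∑ y, a y) * ∑ y, a y * b (y⁻¹ * x) ^ 2 :=
        sum_le_sum fun x _ => xfb_cs a (fun y => b (y⁻¹ * x)) ha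
    _ = (∑ y, a y) ^ 2 * ∑ x, b x ^ 2 := by
        rw [← mul_sum, sum_comm]
        simp only [← mul_sum, xfb_l (fun x => b x ^ 2)]
        rw [← sum_mul]
        ring

theorem xfb_y2 (a b : G → ℝ) (hb : ∀ y, 0 ≤ b y) : n2 (cv a b) ≤ n2 a * (∑ y, b y) ^ 2 := by
  unfold n2 cv
  calc ∑ x, (∑ y, a y * b (y⁻¹ * x)) ^ 2
      ≤ ∑ x, (∑ y, b y) * ∑ y, b (y⁻¹ * x) * a y ^ 2 := by
        refine sum_le_sum fun x _ => ?_
        have h := xfb_cs (fun y => b (y⁻¹ * x)) a (fun y => hb _)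
        rw [xfb_r b x] at h
        simpa only [mul_comm (a _)] using h
    _ = (∑ x, a x ^ 2) * (∑ y, b y) ^ 2 := by
        rw [← mul_sum, sum_comm]
        simp only [← sum_mul, xfb_l b]
        rw [← mul_sum]
        ring

theorem xfb_five (a b c d e : G → ℝ) :
    n2 (fun x => a x + b x + c x + d x + e x) ≤ 5 * (n2 a + n2 b + n2 c + n2 d + n2 e) := by
  unfold n2
  rw [← sum_add_distrib, ← sum_add_distrib, ← sum_add_distrib, ← sum_add_distrib, mul_sum]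
  refine sum_le_sum fun x _ => ?_
  nlinarith [sq_nonneg (a x - b x), sq_nonneg (a x - c x), sq_nonneg (a x - d x),
    sq_nonneg (a x - e x), sq_nonneg (b x - c x), sq_nonneg (b x - d x), sq_nonneg (b x - e x),
    sq_nonneg (c x - d x), sq_nonneg (c x - e x), sq_nonneg (d x - e x)]

theorem xfb_n2_nonneg (f : G → ℝ) : 0 ≤ n2 f := sum_nonneg fun _ _ => sq_nonneg _

theorem xfb_mid {A : Finset G} (hA : ∀ x, xfb_i A x⁻¹ = xfb_i A x) {m : G → ℝ} {c : ℝ}
    (hc : 0 ≤ c) (h0 : ∀ x, 0 ≤ m x) (h1 : ∀ x, m x ≤ c * xfb_i A x) :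
    n2 (cv m m) ≤ c ^ 4 * en A := by
  rw [en_eq, mul_sum]
  unfold n2 cv
  refine sum_le_sum fun x _ => ?_
  rw [xfb_card A (fun a => x⁻¹ * a)]
  have h : ∑ y, m y * m (y⁻¹ * x) ≤ c ^ 2 * ∑ a, xfb_i A a * xfb_i A (x⁻¹ * a) := by
    rw [mul_sum]
    refine sum_le_sum fun y _ => ?_
    have e : xfb_i A (x⁻¹ * y) = xfb_i A (y⁻¹ * x) := by
      rw [← hA, mul_inv_rev, inv_inv]
    rw [e]
    calc m y * m (y⁻¹ * x) ≤ (c * xfb_i A y) * (c * xfb_i A (y⁻¹ * x)) :=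
          mul_le_mul (h1 _) (h1 _) (h0 _) (mul_nonneg hc (xfb_i_nonneg _ _))
      _ = _ := by ring
  calc _ ≤ (c ^ 2 * ∑ a, xfb_i A a * xfb_i A (x⁻¹ * a)) ^ 2 :=
        pow_le_pow_left₀ (sum_nonneg fun y _ => mul_nonneg (h0 _) (h0 _)) h 2
    _ = _ := by ring

theorem xfb_core {ν lo md hi : G → ℝ} (h0 : ∀ g, 0 ≤ ν g) (h1 : ∑ g, ν g ≤ 1)
    (e : ∀ g, ν g = lo g + md g + hi g) (hm : ∀ g, 0 ≤ md g)
    (hm' : ∀ g, md g ≤ ν g) (hh : ∀ g, 0 ≤ hi g) {t : ℝ} (ht1 : t ≤ 1)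
    (hlo : n2 lo ≤ t * n2 ν) (hhi : ∑ g, hi g ≤ t) :
    n2 (cv ν ν) ≤ 5 * (n2 (cv md md) + 4 * (t * n2 ν)) := by
  have hN := xfb_n2_nonneg ν
  have s0 : 0 ≤ ∑ g, ν g := sum_nonneg fun g _ => h0 g
  have s1 : (∑ g, ν g) ^ 2 ≤ 1 := pow_le_one₀ s0 h1
  have m0 : 0 ≤ ∑ g, md g := sum_nonneg fun g _ => hm g
  have m1 : (∑ g, md g) ^ 2 ≤ 1 := pow_le_one₀ m0 ((sum_le_sum fun g _ => hm' g).trans h1)
  have i0 : 0 ≤ ∑ g, hi g := sum_nonneg fun g _ => hh g
  have i1 : (∑ g, hi g) ^ 2 ≤ t := by nlinarith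
  have m2 : n2 md ≤ n2 ν := sum_le_sum fun g _ => pow_le_pow_left₀ (hm g) (hm' g) 2
  have ec : cv ν ν = fun x => cv md md x + cv md lo x + cv md hi x + cv lo ν x + cv hi ν x := by
    funext x
    unfold cv
    rw [← sum_add_distrib, ← sum_add_distrib, ← sum_add_distrib, ← sum_add_distrib]
    refine sum_congr rfl fun y _ => ?_
    have e1 := e y
    have e2 := e (y⁻¹ * x)
    linear_combination (ν (y⁻¹ * x)) * e1 + md y * e2
  have b1 : n2 (cv md lo) ≤ t * n2 ν :=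
    (xfb_y1 md lo hm).trans ((mul_le_of_le_one_left (xfb_n2_nonneg _) m1).trans hlo)
  have b2 : n2 (cv md hi) ≤ t * n2 ν :=
    (xfb_y2 md hi hh).trans (by
      rw [mul_comm t]
      exact mul_le_mul m2 i1 (sq_nonneg _) hN)
  have b3 : n2 (cv lo ν) ≤ t * n2 ν :=
    (xfb_y2 lo ν h0).trans ((mul_le_of_le_one_right (xfb_n2_nonneg _) s1).trans hlo)
  have b4 : n2 (cv hi ν) ≤ t * n2 ν :=
    (xfb_y1 hi ν hh).trans (mul_le_mul_of_nonneg_right i1 hN)
  rw [ec]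
  refine (xfb_five _ _ _ _ _).trans ?_
  linarith

theorem trunc {ν : G → ℝ} (h0 : ∀ g, 0 ≤ ν g) (h1 : ∑ g, ν g ≤ 1) (hs : ∀ g, ν g⁻¹ = ν g) {K : ℝ}
    (hK : 1 ≤ K) (hn : 0 < n2 ν) (h : n2 ν ≤ K * n2 (cv ν ν)) :
    ∃ A : Finset G, (∀ x ∈ A, n2 ν ≤ 64 * K * ν x) ∧ #A * n2 ν ≤ 64 * K ∧
      1 ≤ (64 * K) ^ 2 * (#A * n2 ν) ∧ (#A : ℝ) ^ 3 ≤ (64 * K) ^ 8 * en A := by
  set N := n2 ν with hN
  set L := 64 * K with hL
  have hL1 : 1 ≤ L := by linarith
  have hL0 : 0 < L := by linarith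
  let A : Finset G := univ.filter fun x => N ≤ L * ν x ∧ ν x ≤ L * N
  have hA : ∀ x, x ∈ A ↔ N ≤ L * ν x ∧ ν x ≤ L * N := fun x => by simp [A]
  let lo : G → ℝ := fun x => if L * ν x < N then ν x else 0
  let hi : G → ℝ := fun x => if L * N < ν x then ν x else 0
  let md : G → ℝ := fun x => if x ∈ A then ν x else 0
  have e : ∀ g, ν g = lo g + md g + hi g := by
    intro g
    simp only [lo, md, hi, hA]
    by_cases c1 : L * ν g < N
    · have c2 : ¬ L * N < ν g := by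
        intro c2
        have := mul_le_mul_of_nonneg_right hL1 (h0 g)
        have := mul_le_mul_of_nonneg_right hL1 hn.le
        linarith
      rw [if_pos c1, if_neg c2, if_neg (fun hc => absurd hc.1 (not_le.2 c1))]
      ring
    · by_cases c2 : L * N < ν g
      · rw [if_neg c1, if_pos c2, if_neg (fun hc => absurd hc.2 (not_le.2 c2))]
        ring
      · rw [if_neg c1, if_neg c2, if_pos ⟨not_lt.1 c1, not_lt.1 c2⟩]
        ring
  have hm : ∀ g, 0 ≤ md g := fun g => by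
    simp only [md]
    split_ifs
    exacts [h0 g, le_rfl]
  have hm' : ∀ g, md g ≤ ν g := fun g => by
    simp only [md]
    split_ifs
    exacts [le_rfl, h0 g]
  have hh : ∀ g, 0 ≤ hi g := fun g => by
    simp only [hi]
    split_ifs
    exacts [h0 g, le_rfl]
  have ht0 : 0 < L⁻¹ := inv_pos.2 hL0
  have htL : L⁻¹ * L = 1 := inv_mul_cancel₀ hL0.ne'
  have hlo : n2 lo ≤ L⁻¹ * N := by
    calc n2 lo ≤ ∑ g, L⁻¹ * N * ν g := by
          refine sum_le_sum fun g _ => ?_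
          simp only [lo]
          split_ifs with c
          · rw [sq]
            refine mul_le_mul_of_nonneg_right ?_ (h0 g)
            rw [le_inv_mul_iff₀ hL0]
            exact c.le
          · rw [zero_pow two_ne_zero]
            exact mul_nonneg (mul_nonneg ht0.le hn.le) (h0 g)
      _ ≤ L⁻¹ * N := by
          rw [← mul_sum]
          exact mul_le_of_le_one_right (mul_nonneg ht0.le hn.le) h1
  have hhi : ∑ g, hi g ≤ L⁻¹ := by
    have h2 : L * N * ∑ g, hi g ≤ N := by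
      rw [mul_sum]
      refine sum_le_sum fun g _ => ?_
      simp only [hi]
      split_ifs with c
      · rw [sq]
        exact mul_le_mul_of_nonneg_right c.le (h0 g)
      · rw [mul_zero]
        exact sq_nonneg _
    have h3 : L * ∑ g, hi g ≤ 1 := by
      refine le_of_mul_le_mul_left ?_ hn
      linarith
    rw [← mul_one L⁻¹, le_inv_mul_iff₀ hL0]
    exact h3
  have hcore := xfb_core h0 h1 e hm hm' hh (inv_le_one_of_one_le₀ hL1) hlo hhi
  have hsym : ∀ x, xfb_i A x⁻¹ = xfb_i A x := fun x => by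
    simp only [xfb_i, hA, hs]
  have hmid : n2 (cv md md) ≤ (L * N) ^ 4 * en A := by
    refine xfb_mid hsym (by positivity) hm fun x => ?_
    simp only [md, xfb_i]
    split_ifs with c
    · rw [mul_one]
      exact ((hA x).1 c).2
    · rw [mul_zero]
  have hKL : K * L⁻¹ = 1 / 64 := by
    rw [hL]
    field_simp
  have hM : N ≤ L * n2 (cv md md) := by
    have h2 := h.trans (mul_le_mul_of_nonneg_left hcore (by linarith))
    rw [← hN] at h2
    have h3 : K * (5 * (n2 (cv md md) + 4 * (L⁻¹ * N))) =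
        5 * (K * n2 (cv md md)) + 20 * (K * L⁻¹) * N := by ring
    rw [h3, hKL] at h2
    rw [hL, mul_assoc]
    linarith
  have hE : 1 ≤ L ^ 5 * N ^ 3 * en A := by
    refine le_of_mul_le_mul_left ?_ hn
    calc N * 1 = N := mul_one _
      _ ≤ L * ((L * N) ^ 4 * en A) := hM.trans (mul_le_mul_of_nonneg_left hmid hL0.le)
      _ = _ := by ring
  have hAN : #A * N ≤ L := by
    calc (#A : ℝ) * N = ∑ x ∈ A, N := by rw [sum_const, nsmul_eq_mul]
      _ ≤ ∑ x ∈ A, L * ν x := sum_le_sum fun x hx => ((hA x).1 hx).1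
      _ ≤ ∑ x, L * ν x :=
          sum_le_sum_of_subset_of_nonneg (subset_univ _) fun x _ _ => mul_nonneg hL0.le (h0 x)
      _ ≤ L := by
          rw [← mul_sum]
          exact mul_le_of_le_one_right hL0.le h1
  have hA0 : (0 : ℝ) ≤ #A * N := mul_nonneg (Nat.cast_nonneg _) hn.le
  refine ⟨A, fun x hx => ((hA x).1 hx).1, hAN, ?_, ?_⟩
  · refine le_of_pow_le_pow_left₀ (n := 3) (by norm_num) (mul_nonneg (sq_nonneg _) hA0) ?_
    calc (1 : ℝ) ^ 3 = 1 := one_pow _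
      _ ≤ L ^ 5 * N ^ 3 * en A := hE
      _ ≤ L ^ 6 * N ^ 3 * (#A : ℝ) ^ 3 :=
          mul_le_mul (mul_le_mul_of_nonneg_right (pow_le_pow_right₀ hL1 (by norm_num))
            (by positivity)) (en_le A) (sum_nonneg fun _ _ => sq_nonneg _) (by positivity)
      _ = _ := by ring
  · refine le_of_mul_le_mul_left ?_ (pow_pos hn 3)
    calc N ^ 3 * (#A : ℝ) ^ 3 = (#A * N) ^ 3 * 1 := by ring
      _ ≤ L ^ 3 * (L ^ 5 * N ^ 3 * en A) :=
          mul_le_mul (pow_le_pow_left₀ hA0 hAN 3) hE zero_le_one (by positivity)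
      _ = _ := by ring

end Pool.Agent.EQ
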