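import Pool.Agent.P.MP_ad7a55_nt.XFb

/-! The Balog-Szemeredi-Gowers lemma in a finite group. -/

set_option autoImplicit false

noncomputable section

open Finset
open scoped Pointwise MatrixGroups Classical

namespace Pool.Agent.EQ

variable {G : Type} [Group G] [Fintype G]

theorem xfc_nonneg (A : Finset G) (x : G) : 0 ≤ rq A x := Nat.cast_nonneg _

theorem xfc_inv (A : Finset G) (x : G) : rq A x⁻¹ = rq A x := by
  unfold rq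
  congr 1
  refine card_nbij' Prod.swap Prod.swap (fun p hp => ?_) (fun p hp => ?_) (fun _ _ => rfl)
    fun _ _ => rfl
  · simp only [coe_filter, mem_product, Set.mem_ofPred_eq, Prod.fst_swap, Prod.snd_swap] at hp ⊢
    refine ⟨⟨hp.1.2, hp.1.1⟩, ?_⟩
    rw [← inv_inv x, ← hp.2]
    group
  · simp only [coe_filter, mem_product, Set.mem_ofPred_eq, Prod.fst_swap, Prod.snd_swap] at hp ⊢
    refine ⟨⟨hp.1.2, hp.1.1⟩, ?_⟩
    rw [← hp.2]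
    group

theorem xfc_sum (A : Finset G) : ∑ x, rq A x = (#A : ℝ) ^ 2 := by
  have h := card_eq_sum_card_fiberwise (s := A ×ˢ A) (t := univ) (f := fun p => p.1⁻¹ * p.2)
    fun _ _ => mem_coe.2 (mem_univ _)
  rw [card_product] at h
  unfold rq
  rw [← Nat.cast_sum, ← h]
  push_cast
  ring

theorem xfc_pair (A : Finset G) (x y : G) :
    (#{s : G | s⁻¹ * x ∈ A ∧ s⁻¹ * y ∈ A} : ℝ) ≤ rq A (x⁻¹ * y) := by
  unfold rq
  refine Nat.cast_le.2 (card_le_card_of_injOn (fun s => (s⁻¹ * x, s⁻¹ * y)) (fun s hs => ?_)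
    fun s _ t _ hst => ?_)
  · simp only [coe_filter, mem_product, Set.mem_ofPred_eq, mem_univ, true_and] at hs ⊢
    refine ⟨hs, ?_⟩
    group
  · exact inv_injective (mul_right_cancel (Prod.mk.inj hst).1)

theorem xfc_bad {A : Finset G} (hA : A.Nonempty) {θ : ℝ} (hθ : 0 < θ) :
    ∑ s : G, (#{p ∈ {a ∈ A | s⁻¹ * a ∈ A} ×ˢ {a ∈ A | s⁻¹ * a ∈ A} |
      rq A (p.1⁻¹ * p.2) < θ} : ℝ) < (#A : ℝ) ^ 2 * θ := by
  have h1 : ∀ s : G, (#{p ∈ {a ∈ A | s⁻¹ * a ∈ A} ×ˢ {a ∈ A | s⁻¹ * a ∈ A} |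
      rq A (p.1⁻¹ * p.2) < θ} : ℝ) = ∑ p ∈ A ×ˢ A,
        if rq A (p.1⁻¹ * p.2) < θ ∧ s⁻¹ * p.1 ∈ A ∧ s⁻¹ * p.2 ∈ A then (1 : ℝ) else 0 := by
    intro s
    rw [sum_boole]
    congr 2
    ext p
    simp only [mem_filter, mem_product]
    tauto
  simp only [h1]
  rw [sum_comm]
  have h2 : (#A : ℝ) ^ 2 * θ = ∑ _p ∈ A ×ˢ A, θ := by
    rw [sum_const, card_product, nsmul_eq_mul]
    push_cast
    ring
  rw [h2]
  refine sum_lt_sum_of_nonempty (hA.product hA) fun p _ => ?_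
  by_cases hp : rq A (p.1⁻¹ * p.2) < θ
  · simp only [hp, true_and]
    rw [sum_boole]
    exact (xfc_pair A p.1 p.2).trans_lt hp
  · simp only [hp, false_and, if_false, sum_const_zero]
    exact hθ

theorem bsg_one {A : Finset G} (hA : A.Nonempty) {K : ℝ} (hK : 1 ≤ K) (h : (#A : ℝ) ^ 3 ≤ K * en A) :
    ∃ X ⊆ A, (#A : ℝ) ≤ 2 * K * #X ∧
      16 * (#{p ∈ X ×ˢ X | rq A (p.1⁻¹ * p.2) < #A / (32 * K ^ 2)} : ℝ) ≤ (#X : ℝ) ^ 2 := by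
  by_contra hcon
  have ha : (0 : ℝ) < #A := by exact_mod_cast hA.card_pos
  have hK0 : 0 < K := by linarith
  have hθ : 0 < (#A : ℝ) / (32 * K ^ 2) := by positivity
  have h1 : ∀ s : G, (#{a ∈ A | s⁻¹ * a ∈ A} : ℝ) ^ 2 ≤
      #A / (2 * K) * (#{a ∈ A | s⁻¹ * a ∈ A} : ℝ) +
        16 * (#{p ∈ {a ∈ A | s⁻¹ * a ∈ A} ×ˢ {a ∈ A | s⁻¹ * a ∈ A} |
          rq A (p.1⁻¹ * p.2) < #A / (32 * K ^ 2)} : ℝ) := by
    intro s
    by_contra h2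
    rw [not_le] at h2
    refine hcon ⟨{a ∈ A | s⁻¹ * a ∈ A}, filter_subset _ _, ?_, ?_⟩
    · by_contra h3
      rw [not_le] at h3
      have h4 : (#{a ∈ A | s⁻¹ * a ∈ A} : ℝ) ≤ #A / (2 * K) := by
        rw [le_div_iff₀ (by positivity)]
        linarith
      have h5 := mul_le_mul_of_nonneg_right h4 (Nat.cast_nonneg (α := ℝ) #{a ∈ A | s⁻¹ * a ∈ A})
      have h6 := Nat.cast_nonneg (α := ℝ) #{p ∈ {a ∈ A | s⁻¹ * a ∈ A} ×ˢ {a ∈ A | s⁻¹ * a ∈ A} |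
          rq A (p.1⁻¹ * p.2) < #A / (32 * K ^ 2)}
      nlinarith
    · have h5 : 0 ≤ #A / (2 * K) * (#{a ∈ A | s⁻¹ * a ∈ A} : ℝ) := by positivity
      linarith
  have h2 := sum_le_sum fun s (_ : s ∈ (univ : Finset G)) => h1 s
  rw [sum_add_distrib, ← mul_sum, ← mul_sum, ← en_eq, sum_inter] at h2
  have h3 := xfc_bad hA hθ
  have h4 : en A < #A / (2 * K) * (#A : ℝ) ^ 2 + 16 * ((#A : ℝ) ^ 2 * (#A / (32 * K ^ 2))) := by
    linarith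
  have h5 := mul_lt_mul_of_pos_left h4 hK0
  have h6 : K * (#A / (2 * K) * (#A : ℝ) ^ 2 + 16 * ((#A : ℝ) ^ 2 * (#A / (32 * K ^ 2)))) =
      (#A : ℝ) ^ 3 / 2 + (#A : ℝ) ^ 3 / 2 / K := by
    field_simp
    ring
  have h7 : (#A : ℝ) ^ 3 / 2 / K ≤ (#A : ℝ) ^ 3 / 2 := div_le_self (by positivity) hK
  linarith

theorem xfc_conv (A : Finset G) :
    ∑ g : G, ∑ u : G, rq A u * rq A (u⁻¹ * g) = (#A : ℝ) ^ 4 := by
  rw [sum_comm]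
  have h : ∀ u : G, ∑ g : G, rq A u * rq A (u⁻¹ * g) = rq A u * (#A : ℝ) ^ 2 := by
    intro u
    rw [← mul_sum, ← xfc_sum]
    congr 1
    exact Equiv.sum_comp (Equiv.mulLeft u⁻¹) (rq A)
  simp only [h]
  rw [← sum_mul, xfc_sum]
  ring

theorem xfc_rep {A X : Finset G} {θ : ℝ} (hθ : 0 ≤ θ) {x y : G}
    (hx : 4 * (#{z ∈ X | rq A (x⁻¹ * z) < θ} : ℝ) ≤ #X)
    (hy : 4 * (#{z ∈ X | rq A (y⁻¹ * z) < θ} : ℝ) ≤ #X) :
    (#X : ℝ) / 2 * θ ^ 2 ≤ ∑ u : G, rq A u * rq A (u⁻¹ * (x⁻¹ * y)) := by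
  set Z := {z ∈ X | θ ≤ rq A (x⁻¹ * z) ∧ θ ≤ rq A (y⁻¹ * z)} with hZ
  have h1 : #X ≤ #Z + (#{z ∈ X | rq A (x⁻¹ * z) < θ} + #{z ∈ X | rq A (y⁻¹ * z) < θ}) := by
    refine le_trans (card_le_card (fun z hz => ?_))
      ((card_union_le _ _).trans (Nat.add_le_add_left (card_union_le _ _) _))
    simp only [hZ, mem_union, mem_filter]
    by_cases h2 : rq A (x⁻¹ * z) < θ
    · exact Or.inr (Or.inl ⟨hz, h2⟩)
    · by_cases h3 : rq A (y⁻¹ * z) < θ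
      · exact Or.inr (Or.inr ⟨hz, h3⟩)
      · exact Or.inl ⟨hz, not_lt.1 h2, not_lt.1 h3⟩
  have h2 : (#X : ℝ) / 2 ≤ #Z := by
    have := (Nat.cast_le (α := ℝ)).2 h1
    push_cast at this
    linarith
  rw [← Equiv.sum_comp (Equiv.mulLeft x⁻¹) fun u => rq A u * rq A (u⁻¹ * (x⁻¹ * y))]
  calc (#X : ℝ) / 2 * θ ^ 2 ≤ #Z * θ ^ 2 := mul_le_mul_of_nonneg_right h2 (sq_nonneg _)
    _ = ∑ _z ∈ Z, θ ^ 2 := by rw [sum_const, nsmul_eq_mul]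
    _ ≤ ∑ z ∈ Z, rq A (x⁻¹ * z) * rq A ((x⁻¹ * z)⁻¹ * (x⁻¹ * y)) := by
        refine sum_le_sum fun z hz => ?_
        obtain ⟨-, h3, h4⟩ := mem_filter.1 hz
        have e : (x⁻¹ * z)⁻¹ * (x⁻¹ * y) = (y⁻¹ * z)⁻¹ := by group
        rw [e, xfc_inv, sq]
        exact mul_le_mul h3 h4 hθ (xfc_nonneg _ _)
    _ ≤ _ := sum_le_sum_of_subset_of_nonneg (subset_univ _) fun z _ _ =>
        mul_nonneg (xfc_nonneg _ _) (xfc_nonneg _ _)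

theorem bsg {A : Finset G} (hA : A.Nonempty) {K : ℝ} (hK : 1 ≤ K) (h : (#A : ℝ) ^ 3 ≤ K * en A) :
    ∃ B ⊆ A, (#A : ℝ) ≤ 4 * K * #B ∧ (#(B⁻¹ * B) : ℝ) ≤ 2 ^ 14 * K ^ 6 * #B := by
  obtain ⟨X, hXA, hX, hbad⟩ := bsg_one hA hK h
  have ha : (0 : ℝ) < #A := by exact_mod_cast hA.card_pos
  have hK0 : 0 < K := by linarith
  set θ : ℝ := #A / (32 * K ^ 2) with hθ
  have hθ0 : 0 < θ := by positivity
  have hn : (0 : ℝ) < #X := by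
    by_contra h1
    have h2 : 2 * K * (#X : ℝ) ≤ 0 := mul_nonpos_of_nonneg_of_nonpos (by positivity) (not_lt.1 h1)
    linarith
  set B := {x ∈ X | 4 * (#{z ∈ X | rq A (x⁻¹ * z) < θ} : ℝ) ≤ #X} with hB
  set C := {x ∈ X | ¬ 4 * (#{z ∈ X | rq A (x⁻¹ * z) < θ} : ℝ) ≤ #X} with hC
  have h1 : (#B : ℝ) + #C = #X := by
    exact_mod_cast card_filter_add_card_filter_not (s := X) _
  have h2 : (#{p ∈ X ×ˢ X | rq A (p.1⁻¹ * p.2) < θ} : ℝ) =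
      ∑ x ∈ X, (#{z ∈ X | rq A (x⁻¹ * z) < θ} : ℝ) := by
    rw [← sum_boole, sum_product]
    refine sum_congr rfl fun x _ => ?_
    rw [sum_boole]
  have h3 : (#C : ℝ) * #X ≤ 4 * ∑ x ∈ X, (#{z ∈ X | rq A (x⁻¹ * z) < θ} : ℝ) := by
    rw [mul_sum]
    calc (#C : ℝ) * #X = ∑ _x ∈ C, (#X : ℝ) := by rw [sum_const, nsmul_eq_mul]
      _ ≤ ∑ x ∈ C, 4 * (#{z ∈ X | rq A (x⁻¹ * z) < θ} : ℝ) :=
          sum_le_sum fun x hx => (not_le.1 (mem_filter.1 hx).2).le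
      _ ≤ _ := sum_le_sum_of_subset_of_nonneg (filter_subset _ _) fun x _ _ => by positivity
  have h4 : 4 * (#C : ℝ) ≤ #X := by
    rw [h2] at hbad
    refine le_of_mul_le_mul_right ?_ hn
    nlinarith
  have h5 : 3 * (#X : ℝ) ≤ 4 * #B := by linarith
  refine ⟨B, (filter_subset _ _).trans hXA, ?_, ?_⟩
  · nlinarith
  · have h6 : (#(B⁻¹ * B) : ℝ) * ((#X : ℝ) / 2 * θ ^ 2) ≤ (#A : ℝ) ^ 4 := by
      rw [← xfc_conv]
      calc (#(B⁻¹ * B) : ℝ) * ((#X : ℝ) / 2 * θ ^ 2) = ∑ _g ∈ B⁻¹ * B, (#X : ℝ) / 2 * θ ^ 2 := by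
            rw [sum_const, nsmul_eq_mul]
        _ ≤ ∑ g ∈ B⁻¹ * B, ∑ u : G, rq A u * rq A (u⁻¹ * g) := by
            refine sum_le_sum fun g hg => ?_
            obtain ⟨x', hx', y, hy, rfl⟩ := mem_mul.1 hg
            obtain ⟨x, hx, rfl⟩ := mem_inv.1 hx'
            exact xfc_rep hθ0.le (mem_filter.1 hx).2 (mem_filter.1 hy).2
        _ ≤ _ := sum_le_sum_of_subset_of_nonneg (subset_univ _) fun g _ _ =>
            sum_nonneg fun u _ => mul_nonneg (xfc_nonneg _ _) (xfc_nonneg _ _)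
    have h7 : (#A : ℝ) ^ 4 = 2048 * K ^ 4 * (#A : ℝ) ^ 2 / #X * ((#X : ℝ) / 2 * θ ^ 2) := by
      rw [hθ]
      field_simp
      ring
    rw [h7] at h6
    have h8 := le_of_mul_le_mul_right h6 (by positivity)
    refine h8.trans ?_
    rw [div_le_iff₀ hn]
    have h9 : (#A : ℝ) ^ 2 ≤ (2 * K * #X) ^ 2 := pow_le_pow_left₀ ha.le hX 2
    have h10 : (#X : ℝ) ≤ 2 * #B := by linarith
    calc 2048 * K ^ 4 * (#A : ℝ) ^ 2 ≤ 2048 * K ^ 4 * (2 * K * #X) ^ 2 := by gcongr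
      _ = 8192 * K ^ 6 * #X * #X := by ring
      _ ≤ 8192 * K ^ 6 * (2 * #B) * #X := by gcongr
      _ = 2 ^ 14 * K ^ 6 * #B * #X := by ring

end Pool.Agent.EQ
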