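import Pool.Agent.P.MP_ad7a55_nt.XFc

/-! Symmetric sets of small growth. -/

set_option autoImplicit false

noncomputable section

open Finset
open scoped Pointwise MatrixGroups Classical

namespace Pool.Agent.EQ

variable {G : Type} [Group G] [Fintype G]

theorem xfd_symm (B : Finset G) (s : G) :
    #{a ∈ B | s⁻¹⁻¹ * a ∈ B} = #{a ∈ B | s⁻¹ * a ∈ B} := by
  refine card_bij' (fun a _ => s * a) (fun a _ => s⁻¹ * a) ?_ ?_ ?_ ?_
  · intro a ha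
    rw [mem_filter, inv_inv] at ha
    rw [mem_filter, inv_mul_cancel_left]
    exact ⟨ha.2, ha.1⟩
  · intro a ha
    rw [mem_filter] at ha
    rw [mem_filter, inv_inv, mul_inv_cancel_left]
    exact ⟨ha.2, ha.1⟩
  · intro a _
    exact inv_mul_cancel_left s a
  · intro a _
    exact mul_inv_cancel_left s a

theorem xfd_swap (B S : Finset G) :
    ∑ s ∈ S, #{a ∈ B | s⁻¹ * a ∈ B} = ∑ b ∈ B, #{x ∈ B | x * b⁻¹ ∈ S} := by
  rw [← card_sigma, ← card_sigma]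
  refine card_bij' (fun p _ => ⟨p.1⁻¹ * p.2, p.2⟩) (fun p _ => ⟨p.2 * p.1⁻¹, p.2⟩) ?_ ?_ ?_ ?_
  · rintro ⟨s, a⟩ h
    simp only [mem_sigma, mem_filter] at h ⊢
    refine ⟨h.2.2, h.2.1, ?_⟩
    rw [mul_inv_rev, inv_inv, mul_inv_cancel_left]
    exact h.1
  · rintro ⟨b, x⟩ h
    simp only [mem_sigma, mem_filter] at h ⊢
    refine ⟨h.2.2, h.2.1, ?_⟩
    rw [mul_inv_rev, inv_inv, inv_mul_cancel_right]
    exact h.1
  · rintro ⟨s, a⟩ _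
    simp
  · rintro ⟨b, x⟩ _
    simp

theorem xfd_rep {B S : Finset G} {θ M : ℝ} (hθ : 0 ≤ θ) (hM : (#(B⁻¹ * B) : ℝ) ≤ M)
    (hS : ∀ s ∈ S, θ ≤ #{a ∈ B | s⁻¹ * a ∈ B}) (r : ℕ) :
    ∃ R : G → ℝ, (∀ x, 0 ≤ R x) ∧ ∑ x, R x ≤ #B * M ^ r ∧
      ∀ y ∈ S ^ r, ∀ a ∈ B, θ ^ r ≤ R (y * a) := by
  induction r with
  | zero =>
    refine ⟨fun x => if x ∈ B then 1 else 0, fun x => by positivity, ?_, fun y hy a ha => ?_⟩
    · simp
    · rw [pow_zero, mem_one] at hy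
      simp [hy, ha]
  | succ r ih =>
    obtain ⟨R, h0, h1, h2⟩ := ih
    refine ⟨fun x => ∑ t ∈ B⁻¹ * B, R (x * t⁻¹), fun x => sum_nonneg fun t _ => h0 _, ?_,
      fun y hy a ha => ?_⟩
    · rw [sum_comm]
      have e : ∀ t : G, ∑ x, R (x * t⁻¹) = ∑ x, R x := fun t =>
        Equiv.sum_comp (Equiv.mulRight t⁻¹) R
      simp only [e]
      rw [sum_const, nsmul_eq_mul]
      calc (#(B⁻¹ * B) : ℝ) * ∑ x, R x ≤ M * (#B * M ^ r) :=
            mul_le_mul hM h1 (sum_nonneg fun x _ => h0 x) ((Nat.cast_nonneg _).trans hM)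
        _ = _ := by ring
    · rw [pow_succ, mem_mul] at hy
      obtain ⟨y, hy, s, hs, rfl⟩ := hy
      have hi : Set.InjOn (fun b => b⁻¹ * s * a) ({b ∈ B | s⁻¹ * b ∈ B} : Finset G) := by
        intro b _ b' _ hb
        simpa using hb
      have hsub : ({b ∈ B | s⁻¹ * b ∈ B} : Finset G).image (fun b => b⁻¹ * s * a) ⊆ B⁻¹ * B := by
        intro t ht
        obtain ⟨b, hb, rfl⟩ := mem_image.mp ht
        refine mem_mul.mpr ⟨(s⁻¹ * b)⁻¹, inv_mem_inv (mem_filter.mp hb).2, a, ha, ?_⟩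
        rw [mul_inv_rev, inv_inv]
      refine le_trans ?_ (sum_le_sum_of_subset_of_nonneg hsub fun t _ _ => h0 _)
      rw [sum_image hi]
      have h3 : ∀ b ∈ ({b ∈ B | s⁻¹ * b ∈ B} : Finset G),
          θ ^ r ≤ R (y * s * a * (b⁻¹ * s * a)⁻¹) := fun b hb => by
        have e : y * s * a * (b⁻¹ * s * a)⁻¹ = y * b := by group
        rw [e]
        exact h2 y hy b (mem_filter.mp hb).1
      refine le_trans ?_ (card_nsmul_le_sum _ _ _ h3)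
      rw [nsmul_eq_mul, pow_succ']
      exact mul_le_mul_of_nonneg_right (hS s hs) (pow_nonneg hθ r)

theorem tao_S {B : Finset G} (hB : B.Nonempty) {K : ℝ} (hK : 1 ≤ K)
    (h : (#(B⁻¹ * B) : ℝ) ≤ K * #B) : ∃ (S : Finset G) (b : G), 1 ∈ S ∧ S⁻¹ = S ∧
      (#B : ℝ) ≤ 2 * K * #{x ∈ B | x * b⁻¹ ∈ S} ∧
      ∀ r : ℕ, (#(S ^ r) : ℝ) ≤ 2 ^ r * K ^ (2 * r + 1) * #B := by
  have hn : (0 : ℝ) < #B := by exact_mod_cast hB.card_pos
  have hK0 : 0 < K := by linarith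
  obtain ⟨S, hS⟩ : ∃ S : Finset G, ∀ s, s ∈ S ↔ (#B : ℝ) / (2 * K) ≤ #{a ∈ B | s⁻¹ * a ∈ B} :=
    ⟨univ.filter fun s => (#B : ℝ) / (2 * K) ≤ #{a ∈ B | s⁻¹ * a ∈ B}, fun s => by simp⟩
  have hθ : (0 : ℝ) < #B / (2 * K) := by positivity
  have h1 : (#B : ℝ) ^ 3 ≤ K * en B := by
    have h2 := le_en B
    have h3 : 0 ≤ en B := sum_nonneg fun x _ => sq_nonneg _
    have h4 := mul_le_mul_of_nonneg_right h h3
    refine le_of_mul_le_mul_left ?_ hn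
    nlinarith
  have h2 : en B ≤ #B * ∑ s ∈ S, (#{a ∈ B | s⁻¹ * a ∈ B} : ℝ) + #B / (2 * K) * (#B : ℝ) ^ 2 := by
    rw [en_eq, ← sum_inter B, mul_sum, mul_sum]
    have e : ∑ s ∈ S, (#B : ℝ) * (#{a ∈ B | s⁻¹ * a ∈ B} : ℝ) =
        ∑ s, if s ∈ S then (#B : ℝ) * (#{a ∈ B | s⁻¹ * a ∈ B} : ℝ) else 0 := by
      rw [sum_ite_mem, univ_inter]
    rw [e, ← sum_add_distrib]
    refine sum_le_sum fun s _ => ?_
    have h3 : (#{a ∈ B | s⁻¹ * a ∈ B} : ℝ) ≤ #B := by exact_mod_cast card_filter_le _ _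
    have h4 : (0 : ℝ) ≤ #{a ∈ B | s⁻¹ * a ∈ B} := Nat.cast_nonneg _
    by_cases hs : s ∈ S
    · rw [if_pos hs, sq]
      exact (mul_le_mul_of_nonneg_right h3 h4).trans (le_add_of_nonneg_right (by positivity))
    · rw [if_neg hs, zero_add, sq]
      exact mul_le_mul_of_nonneg_right (not_le.mp fun h5 => hs ((hS s).mpr h5)).le h4
  have h3 : ∑ _b ∈ B, (#B : ℝ) ≤ ∑ b ∈ B, 2 * K * (#{x ∈ B | x * b⁻¹ ∈ S} : ℝ) := by
    have e : ∑ s ∈ S, (#{a ∈ B | s⁻¹ * a ∈ B} : ℝ) = ∑ b ∈ B, (#{x ∈ B | x * b⁻¹ ∈ S} : ℝ) := by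
      exact_mod_cast xfd_swap B S
    rw [sum_const, nsmul_eq_mul, ← mul_sum, ← e]
    have h4 := h1.trans (mul_le_mul_of_nonneg_left h2 hK0.le)
    have e2 : K * ((#B : ℝ) / (2 * K) * (#B : ℝ) ^ 2) = (#B : ℝ) ^ 3 / 2 := by
      field_simp
    rw [mul_add, e2] at h4
    refine le_of_mul_le_mul_left ?_ hn
    nlinarith
  obtain ⟨b, -, hb⟩ := exists_le_of_sum_le hB h3
  refine ⟨S, b, ?_, ?_, hb, fun r => ?_⟩
  · rw [hS]
    have e : ({a ∈ B | (1 : G)⁻¹ * a ∈ B} : Finset G) = B :=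
      filter_true_of_mem fun a ha => by rwa [inv_one, one_mul]
    rw [e]
    exact div_le_self hn.le (by linarith)
  · ext s
    rw [mem_inv', hS, hS, xfd_symm]
  · obtain ⟨R, r0, r1, r2⟩ := xfd_rep hθ.le h (fun s hs => (hS s).mp hs) r
    obtain ⟨a, ha⟩ := hB
    have h4 : (#(S ^ r) : ℝ) * ((#B : ℝ) / (2 * K)) ^ r ≤ #B * (K * #B) ^ r := by
      refine le_trans ?_ r1
      rw [← Equiv.sum_comp (Equiv.mulRight a) R, ← nsmul_eq_mul]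
      exact (card_nsmul_le_sum _ _ _ fun y hy => r2 y hy a ha).trans
        (sum_le_sum_of_subset_of_nonneg (subset_univ _) fun x _ _ => r0 _)
    have e : (K * #B : ℝ) ^ r = (2 ^ r * K ^ (2 * r)) * ((#B : ℝ) / (2 * K)) ^ r := by
      rw [pow_mul, ← mul_pow, ← mul_pow]
      congr 1
      field_simp
    rw [e, ← mul_assoc] at h4
    refine (le_of_mul_le_mul_right h4 (pow_pos hθ r)).trans ?_
    have h5 : K ^ (2 * r) ≤ K ^ (2 * r + 1) := pow_le_pow_right₀ hK (Nat.le_succ _)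
    calc (#B : ℝ) * (2 ^ r * K ^ (2 * r)) ≤ #B * (2 ^ r * K ^ (2 * r + 1)) := by gcongr
      _ = _ := by ring

theorem struct {ν : G → ℝ} (h0 : ∀ g, 0 ≤ ν g) (h1 : ∑ g, ν g ≤ 1) (hs : ∀ g, ν g⁻¹ = ν g) {K : ℝ}
    (hK : 1 ≤ K) (hn : 0 < n2 ν) (h : n2 ν ≤ K * n2 (cv ν ν)) :
    ∃ (S : Finset G) (b : G), 1 ∈ S ∧ S⁻¹ = S ∧ 1 ≤ (64 * K) ^ 63 * ∑ x with x * b⁻¹ ∈ S, ν x ∧
      ∀ r : ℕ, #(S ^ r) * n2 ν ≤ (64 * K) ^ (103 * r + 52) := by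
  obtain ⟨A, a1, a2, a3, a4⟩ := trunc h0 h1 hs hK hn h
  have hl : (64 : ℝ) ≤ 64 * K := by linarith
  generalize 64 * K = l at a1 a2 a3 a4 hl ⊢
  generalize n2 ν = N at a1 a2 a3 hn ⊢
  have l1 : 1 ≤ l := by linarith
  have l0 : 0 < l := by linarith
  have hA : A.Nonempty := by
    rw [nonempty_iff_ne_empty]
    rintro rfl
    simp only [card_empty, Nat.cast_zero, zero_mul, mul_zero] at a3
    linarith
  obtain ⟨B, b1, b2, b3⟩ := bsg hA (one_le_pow₀ l1) a4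
  have hB : B.Nonempty := by
    rw [nonempty_iff_ne_empty]
    rintro rfl
    simp only [card_empty, Nat.cast_zero, mul_zero] at b2
    have : (0 : ℝ) < #A := by exact_mod_cast hA.card_pos
    linarith
  have b4 : (#(B⁻¹ * B) : ℝ) ≤ l ^ 51 * #B := by
    refine b3.trans (mul_le_mul_of_nonneg_right ?_ (Nat.cast_nonneg _))
    have h2 : (2 : ℝ) ^ 14 ≤ l ^ 3 := le_trans (by norm_num) (pow_le_pow_left₀ (by norm_num) hl 3)
    calc (2 : ℝ) ^ 14 * (l ^ 8) ^ 6 ≤ l ^ 3 * (l ^ 8) ^ 6 := by gcongr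
      _ = _ := by ring
  obtain ⟨S, b, s1, s2, s3, s4⟩ := tao_S hB (one_le_pow₀ l1) b4
  refine ⟨S, b, s1, s2, ?_, fun r => ?_⟩
  · have h2 : (#{x ∈ B | x * b⁻¹ ∈ S} : ℝ) * N ≤ l * ∑ x with x * b⁻¹ ∈ S, ν x := by
      rw [← nsmul_eq_mul, mul_sum]
      exact (card_nsmul_le_sum _ _ _ fun x hx => a1 x (b1 (mem_filter.mp hx).1)).trans
        (sum_le_sum_of_subset_of_nonneg (filter_subset_filter _ (subset_univ B))
          fun x _ _ => mul_nonneg l0.le (h0 x))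
    have h3 : 0 ≤ ∑ x with x * b⁻¹ ∈ S, ν x := sum_nonneg fun x _ => h0 x
    generalize ∑ x with x * b⁻¹ ∈ S, ν x = T at h2 h3 ⊢
    have h4 : (8 : ℝ) ≤ l := by linarith
    calc (1 : ℝ) ≤ l ^ 2 * (#A * N) := a3
      _ ≤ l ^ 2 * (4 * l ^ 8 * #B * N) := by gcongr
      _ ≤ l ^ 2 * (4 * l ^ 8 * (2 * l ^ 51 * #{x ∈ B | x * b⁻¹ ∈ S}) * N) := by gcongr
      _ = 8 * l ^ 61 * (#{x ∈ B | x * b⁻¹ ∈ S} * N) := by ring
      _ ≤ l * l ^ 61 * (l * T) := by gcongr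
      _ = _ := by ring
  · have h2 : (#B : ℝ) ≤ #A := by exact_mod_cast card_le_card b1
    have h3 : (2 : ℝ) ≤ l := by linarith
    calc (#(S ^ r) : ℝ) * N ≤ 2 ^ r * (l ^ 51) ^ (2 * r + 1) * #B * N :=
          mul_le_mul_of_nonneg_right (s4 r) hn.le
      _ ≤ l ^ r * (l ^ 51) ^ (2 * r + 1) * #A * N := by gcongr
      _ = l ^ r * (l ^ 51) ^ (2 * r + 1) * (#A * N) := by ring
      _ ≤ l ^ r * (l ^ 51) ^ (2 * r + 1) * l := by gcongr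
      _ = _ := by ring

end Pool.Agent.EQ
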