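import Pool.Agent.P.MP_ad7a55_nt.XFf

/-! Product-free sets in SL(2) over a prime field are small. -/

set_option autoImplicit false
set_option linter.unusedSectionVars false

noncomputable section

open Finset
open scoped Pointwise MatrixGroups Classical

namespace Pool.Agent.EQ

section hilb
variable {E ι : Type} [NormedAddCommGroup E] [InnerProductSpace ℂ E]

theorem xfe_pyth (s : Finset ι) (v : ι → E)
    (h : ∀ i ∈ s, ∀ j ∈ s, i ≠ j → inner ℂ (v i) (v j) = 0) :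
    ‖∑ i ∈ s, v i‖ ^ 2 = ∑ i ∈ s, ‖v i‖ ^ 2 := by
  rw [← inner_self_eq_norm_sq (𝕜 := ℂ), sum_inner, map_sum]
  refine sum_congr rfl fun i hi => ?_
  rw [inner_sum, sum_eq_single_of_mem i hi fun j hj hne => h i hi j hj hne.symm,
    inner_self_eq_norm_sq]

theorem xfe_bessel (s : Finset ι) (v : ι → E)
    (h : ∀ i ∈ s, ∀ j ∈ s, i ≠ j → inner ℂ (v i) (v j) = 0) {n : ℝ} (hn0 : 0 ≤ n)
    (hn : ∀ i ∈ s, ‖v i‖ ^ 2 = n) (w : E) :
    ∑ i ∈ s, ‖inner ℂ w (v i)‖ ^ 2 ≤ n * ‖w‖ ^ 2 := by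
  set S := ∑ i ∈ s, ‖inner ℂ w (v i)‖ ^ 2 with hS
  set z := ∑ i ∈ s, inner ℂ (v i) w • v i with hz
  have h1 : ‖z‖ ^ 2 = S * n := by
    rw [hz, xfe_pyth s _ fun i hi j hj hne => by
      rw [inner_smul_left, inner_smul_right, h i hi j hj hne, mul_zero, mul_zero], hS, sum_mul]
    refine sum_congr rfl fun i hi => ?_
    rw [norm_smul, mul_pow, hn i hi, norm_inner_symm]
  have h2 : inner ℂ w z = (S : ℂ) := by
    rw [hz, inner_sum, hS, Complex.ofReal_sum]
    refine sum_congr rfl fun i _ => ?_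
    rw [inner_smul_right, ← inner_conj_symm (v i) w, Complex.conj_mul']
    norm_cast
  have h0 : 0 ≤ S := sum_nonneg fun i _ => sq_nonneg _
  have h3 := norm_inner_le_norm (𝕜 := ℂ) w z
  rw [h2, Complex.norm_real, Real.norm_of_nonneg h0] at h3
  have h4 := pow_le_pow_left₀ h0 h3 2
  rw [mul_pow, h1] at h4
  rcases h0.eq_or_lt with h5 | h5
  · rw [← h5]; positivity
  · exact le_of_mul_le_mul_left (by linarith) h5

end hilb

variable {q : ℕ} [Fact q.Prime]

section grp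
variable {G : Type} [Group G] [Fintype G]

/-- squared norm -/
def xfeN (f : G → ℂ) : ℝ := ∑ x, ‖f x‖ ^ 2
/-- convolution with a set -/
def xfeT (A : Finset G) (f : G → ℂ) : G → ℂ := fun x => ∑ a ∈ A, f (a⁻¹ * x)
/-- Fourier component along a one parameter subgroup -/
def xfeC (u : ZMod q → G) (a : ZMod q) (f : G → ℂ) : G → ℂ :=
  fun x => (q : ℂ)⁻¹ * ∑ t, ZMod.stdAddChar (-(a * t)) * f (x * u t)
/-- eigenfunctions -/
def xfeCh (u : ZMod q → G) (a : ZMod q) (f : G → ℂ) : Prop :=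
  ∀ x t, f (x * u t) = ZMod.stdAddChar (a * t) * f x

theorem xfe_N (f : G → ℂ) : ‖(WithLp.toLp 2 f : EuclideanSpace ℂ G)‖ ^ 2 = xfeN f :=
  EuclideanSpace.norm_sq_eq _

theorem xfe_N0 (f : G → ℂ) : 0 ≤ xfeN f := sum_nonneg fun _ _ => sq_nonneg _

theorem xfe_Nz {f : G → ℂ} (h : xfeN f ≤ 0) (x : G) : f x = 0 := by
  have := (sum_eq_zero_iff_of_nonneg fun x _ => sq_nonneg ‖f x‖).1 (h.antisymm (xfe_N0 f)) x
    (mem_univ x)
  simpa using this

theorem xfe_Nr (f : G → ℂ) (d : G) : xfeN (fun x => f (x * d)) = xfeN f :=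
  Equiv.sum_comp (Equiv.mulRight d) fun x => ‖f x‖ ^ 2

variable {u : ZMod q → G}

theorem xfe_ch (hu : ∀ s t, u (s + t) = u s * u t) (a : ZMod q) (f : G → ℂ) :
    xfeCh u a (xfeC u a f) := by
  intro x s
  unfold xfeC
  rw [mul_left_comm, mul_sum univ _ (ZMod.stdAddChar (a * s)), ← Equiv.sum_comp (Equiv.addLeft s)
    fun t => ZMod.stdAddChar (a * s) * (ZMod.stdAddChar (-(a * t)) * f (x * u t))]
  refine congrArg _ (sum_congr rfl fun t _ => ?_)
  rw [Equiv.coe_addLeft, hu, ← mul_assoc (ZMod.stdAddChar (a * s)), ← AddChar.map_add_eq_mul,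
    mul_assoc x]
  congr 2
  ring

theorem xfe_sum (hu : ∀ s t, u (s + t) = u s * u t) (f : G → ℂ) (x : G) :
    ∑ a, xfeC u a f x = f x := by
  have h0 : u 0 = 1 := by
    have := hu 0 0
    rw [add_zero] at this
    exact left_eq_mul.1 this
  have hq : (q : ℂ) ≠ 0 := Nat.cast_ne_zero.2 (Fact.out : q.Prime).ne_zero
  unfold xfeC
  rw [← mul_sum, sum_comm]
  simp only [← sum_mul, ← mul_neg, AddChar.sum_mulShift _ (ZMod.isPrimitive_stdAddChar q)]
  rw [sum_eq_single 0 (fun t _ ht => by simp [ht]) (by simp)]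
  simp [h0, hq]

theorem xfe_orth {a b : ZMod q} {f g : G → ℂ} (hf : xfeCh u a f) (hg : xfeCh u b g) (h : a ≠ b) :
    inner ℂ (WithLp.toLp 2 f : EuclideanSpace ℂ G) (WithLp.toLp 2 g) = 0 := by
  rw [PiLp.inner_apply]
  have e := Equiv.sum_comp (Equiv.mulRight (u 1)) fun x => inner ℂ (f x) (g x)
  have e2 : ∀ x, inner ℂ (f (x * u 1)) (g (x * u 1)) =
      ZMod.stdAddChar (b - a) * inner ℂ (f x) (g x) := fun x => by
    rw [hf, hg, mul_one, mul_one, RCLike.inner_apply, RCLike.inner_apply, map_mul,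
      ← AddChar.map_neg_eq_conj, sub_eq_add_neg, AddChar.map_add_eq_mul]
    ring
  simp only [Equiv.coe_mulRight, e2, ← mul_sum] at e
  by_contra hn
  have := ZMod.injective_stdAddChar
    (((mul_eq_right₀ hn).1 e).trans (ZMod.stdAddChar (N := q)).map_zero_eq_one.symm)
  exact h (by linear_combination -this)

theorem xfe_pars (hu : ∀ s t, u (s + t) = u s * u t) (f : G → ℂ) :
    xfeN f = ∑ a, xfeN (xfeC u a f) := by
  have := xfe_pyth univ (fun a => (WithLp.toLp 2 (xfeC u a f) : EuclideanSpace ℂ G))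
    fun a _ b _ h => xfe_orth (xfe_ch hu a f) (xfe_ch hu b f) h
  simp only [xfe_N] at this
  rw [← this, ← xfe_N]
  congr 2
  ext x
  simp [xfe_sum hu]

theorem xfe_comm (A : Finset G) (a : ZMod q) (f : G → ℂ) :
    xfeC u a (xfeT A f) = xfeT A (xfeC u a f) := by
  funext x
  simp only [xfeC, xfeT, mul_sum, mul_assoc]
  exact sum_comm

theorem xfe_sq (hq : 5 < q) :
    (q : ℝ) - 1 ≤ 2 * #((univ.erase (0 : ZMod q)).image fun s => s ^ 2) := by
  have := card_le_mul_card_image (f := fun s : ZMod q => s ^ 2) (univ.erase 0) 2 fun b hb => by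
    obtain ⟨s, -, rfl⟩ := mem_image.1 hb
    refine (card_le_card (t := {s, -s}) fun t ht => ?_).trans card_le_two
    simpa using sq_eq_sq_iff_eq_or_eq_neg.1 (mem_filter.1 ht).2
  rw [card_erase_of_mem (mem_univ _), card_univ, ZMod.card] at this
  have h2 : q ≤ 2 * #((univ.erase (0 : ZMod q)).image fun s => s ^ 2) + 1 := by omega
  have h3 : (q : ℝ) ≤ 2 * #((univ.erase (0 : ZMod q)).image fun s => s ^ 2) + 1 := by
    exact_mod_cast h2
  linarith

theorem xfe_key (hq : 5 < q) (hd : ∀ s : ZMod q, s ≠ 0 → ∃ d, ∀ t, u t * d = d * u (s ^ 2 * t))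
    (A : Finset G) {a : ZMod q} (ha : a ≠ 0) {f : G → ℂ} (hf : xfeCh u a f) :
    ((q : ℝ) - 1) / 2 * xfeN (xfeT A f) ≤ Fintype.card G * #A * xfeN f := by
  have h1 := xfe_sq hq
  set Q := (univ.erase (0 : ZMod q)).image fun s => s ^ 2 with hQ
  have : ∀ c : ZMod q, ∃ d : G, c ∈ Q → ∀ t, u t * d = d * u (c * t) := fun c => by
    by_cases hc : c ∈ Q
    · obtain ⟨s, hs, rfl⟩ := mem_image.1 hc
      obtain ⟨d, h⟩ := hd s (ne_of_mem_erase hs)
      exact ⟨d, fun _ => h⟩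
    · exact ⟨1, fun h => absurd h hc⟩
  choose d hd' using this
  have hc : ∀ c ∈ Q, xfeCh u (a * c) fun x => f (x * d c) := fun c hc x t => by
    show f (x * u t * d c) = _
    rw [mul_assoc, hd' c hc, ← mul_assoc, hf, mul_assoc a]
  have hb : ∀ x, ∑ c ∈ Q, ‖xfeT A f (x * d c)‖ ^ 2 ≤ xfeN f * #A := fun x => by
    have := xfe_bessel Q (fun c => (WithLp.toLp 2 fun y => f (y * d c) : EuclideanSpace ℂ G))
      (fun c h c' h' hne => xfe_orth (hc c h) (hc c' h') fun e => hne (mul_left_cancel₀ ha e))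
      (xfe_N0 f) (fun c _ => by rw [xfe_N, xfe_Nr])
      (WithLp.toLp 2 fun y => if x * y⁻¹ ∈ A then 1 else 0)
    have re : ∀ {M : Type} [AddCommMonoid M] (F : G → M),
        ∑ y, (if x * y⁻¹ ∈ A then F y else 0) = ∑ b ∈ A, F (b⁻¹ * x) := fun F => by
      rw [← Equiv.sum_comp ((Equiv.inv G).trans (Equiv.mulRight x))]
      simp
    have e : xfeN (fun y => if x * y⁻¹ ∈ A then (1 : ℂ) else 0) = #A := by
      simp only [xfeN, apply_ite (fun z : ℂ => ‖z‖ ^ 2), norm_one, one_pow, norm_zero,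
        zero_pow two_ne_zero, re, sum_const, nsmul_eq_mul, mul_one]
    rw [xfe_N, e] at this
    simp only [PiLp.inner_apply, RCLike.inner_apply, apply_ite (starRingEnd ℂ), map_one, map_zero,
      mul_ite, mul_one, mul_zero, re] at this
    simpa only [xfeT, mul_assoc] using this
  have h2 := sum_le_sum fun x (_ : x ∈ univ) => hb x
  have e3 : ∀ c, ∑ x, ‖xfeT A f (x * d c)‖ ^ 2 = xfeN (xfeT A f) := fun c => xfe_Nr _ (d c)
  rw [sum_comm] at h2
  simp only [e3, sum_const, nsmul_eq_mul, card_univ] at h2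
  have h3 := mul_le_mul_of_nonneg_right h1 (xfe_N0 (xfeT A f))
  linarith

theorem xfe_step (hq : 5 < q) (hu : ∀ s t, u (s + t) = u s * u t)
    (hd : ∀ s : ZMod q, s ≠ 0 → ∃ d, ∀ t, u t * d = d * u (s ^ 2 * t)) (A : Finset G) {M : ℝ}
    (hM0 : 0 < M) (hM : ∀ g : G → ℂ, ∑ x, g x = 0 →
      ((q : ℝ) - 1) / 2 * xfeN (xfeT A g) - Fintype.card G * #A * xfeN g ≤ M * xfeN g)
    {f : G → ℂ} (hf : ∑ x, f x = 0) (h : M * xfeN f ≤
      ((q : ℝ) - 1) / 2 * xfeN (xfeT A f) - Fintype.card G * #A * xfeN f) (x : G) (t : ZMod q) :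
    f (x * u t) = f x := by
  have h0 : ∑ x, xfeC u 0 f x = 0 := by
    unfold xfeC
    rw [← mul_sum, sum_comm]
    simp only [← mul_sum]
    rw [sum_eq_zero fun t _ => ?_, mul_zero]
    rw [show ∑ x, f (x * u t) = ∑ x, f x from Equiv.sum_comp (Equiv.mulRight (u t)) f, hf, mul_zero]
  have h1 := hM _ h0
  have h2 := sum_le_sum fun a (ha : a ∈ univ.erase (0 : ZMod q)) =>
    xfe_key hq hd A (ne_of_mem_erase ha) (xfe_ch hu a f)
  rw [← mul_sum, ← mul_sum] at h2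
  rw [xfe_pars hu f, xfe_pars hu (xfeT A f), ← add_sum_erase _ _ (mem_univ 0),
    ← add_sum_erase _ _ (mem_univ 0)] at h
  simp only [xfe_comm] at h
  have h3 : ∑ a ∈ univ.erase (0 : ZMod q), xfeN (xfeC u a f) ≤ 0 :=
    le_of_mul_le_mul_left (by linarith) hM0
  have h4 : ∀ y, f y = xfeC u 0 f y := fun y => by
    rw [← xfe_sum hu f y, ← add_sum_erase _ _ (mem_univ 0), sum_eq_zero fun a ha => ?_, add_zero]
    exact xfe_Nz ((single_le_sum (fun a _ => xfe_N0 (xfeC u a f)) ha).trans h3) y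
  rw [h4, xfe_ch hu, ← h4, zero_mul, AddChar.map_zero_eq_one, one_mul]

theorem xfe_smul (c : ℝ) (f : G → ℂ) : xfeN (fun x => c * f x) = c ^ 2 * xfeN f := by
  simp [xfeN, mul_sum, mul_pow]

theorem xfe_max (A : Finset G) (m C : ℝ) {f : G → ℂ} (hf : ∑ x, f x = 0)
    (h : C * xfeN f < m * xfeN (xfeT A f)) : ∃ (M : ℝ) (f0 : G → ℂ), 0 < M ∧ ∑ x, f0 x = 0 ∧
      xfeN f0 = 1 ∧ M = m * xfeN (xfeT A f0) - C * xfeN f0 ∧
      ∀ g : G → ℂ, ∑ x, g x = 0 → m * xfeN (xfeT A g) - C * xfeN g ≤ M * xfeN g := by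
  have hN : Continuous (xfeN : (G → ℂ) → ℝ) := by unfold xfeN; fun_prop
  have hΦ : Continuous fun g : G → ℂ => m * xfeN (xfeT A g) - C * xfeN g := by
    unfold xfeN xfeT; fun_prop
  have hK : IsCompact {g : G → ℂ | ∑ x, g x = 0 ∧ xfeN g = 1} := by
    refine Metric.isCompact_of_isClosed_isBounded
      ((isClosed_eq (by fun_prop) continuous_const).inter (isClosed_eq hN continuous_const))
      (isBounded_iff_forall_norm_le.2 ⟨1, fun g hg => ?_⟩)
    refine (pi_norm_le_iff_of_nonneg zero_le_one).2 fun x => ?_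
    have := (single_le_sum (fun x _ => sq_nonneg ‖g x‖) (mem_univ x)).trans_eq hg.2
    exact (sq_le_one_iff₀ (norm_nonneg _)).1 this
  have z : ∀ g : G → ℂ, xfeN g ≤ 0 → xfeN (xfeT A g) = 0 := fun g hg => by
    simp [xfeN, xfeT, xfe_Nz hg]
  have sc : ∀ g : G → ℂ, ∑ x, g x = 0 → 0 < xfeN g → ∃ g' ∈ {g : G → ℂ | ∑ x, g x = 0 ∧ xfeN g = 1},
      (m * xfeN (xfeT A g') - C * xfeN g') * xfeN g = m * xfeN (xfeT A g) - C * xfeN g := by
    intro g hg hp
    have e : (√(xfeN g))⁻¹ ^ 2 * xfeN g = 1 := by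
      rw [inv_pow, Real.sq_sqrt hp.le, inv_mul_cancel₀ hp.ne']
    refine ⟨fun x => ((√(xfeN g))⁻¹ : ℝ) * g x, ⟨by rw [← mul_sum, hg, mul_zero],
      (xfe_smul _ g).trans e⟩, ?_⟩
    rw [show xfeT A (fun x => ((√(xfeN g))⁻¹ : ℝ) * g x) =
      fun x => ((√(xfeN g))⁻¹ : ℝ) * xfeT A g x from funext fun x => by simp [xfeT, mul_sum],
      xfe_smul, xfe_smul]
    linear_combination (m * xfeN (xfeT A g) - C * xfeN g) * e
  have hp : 0 < xfeN f := lt_of_not_ge fun k => by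
    rw [z f k, k.antisymm (xfe_N0 f)] at h
    simp at h
  obtain ⟨f', hf', e'⟩ := sc f hf hp
  obtain ⟨f0, h0, hm⟩ := hK.exists_isMaxOn ⟨f', hf'⟩ hΦ.continuousOn
  refine ⟨_, f0, ?_, h0.1, h0.2, rfl, fun g hg => ?_⟩
  · refine lt_of_lt_of_le (pos_of_mul_pos_left (b := xfeN f) ?_ hp.le) (hm hf')
    linarith
  · rcases (xfe_N0 g).eq_or_lt with k | k
    · rw [z g k.ge, ← k]
      simp
    · obtain ⟨g', hg', e⟩ := sc g hg k
      rw [← e]
      exact mul_le_mul_of_nonneg_right (hm hg') k.le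

end grp

theorem gowers_mix (hq : 5 < q) (A : Finset (GQ q)) (f : GQ q → ℂ) (hf : ∑ x, f x = 0) :
    ((q : ℝ) - 1) / 2 * ∑ x, ‖∑ a ∈ A, f (a⁻¹ * x)‖ ^ 2 ≤
      Fintype.card (GQ q) * #A * ∑ x, ‖f x‖ ^ 2 := by
  by_contra hn
  obtain ⟨M, f0, hM0, h0, h1, e, hM⟩ := xfe_max A _ _ hf (not_le.1 hn)
  have hU := xfe_step hq uU_add (fun s hs => ⟨⟨!![s⁻¹, 0; 0, s], by
    simp [Matrix.det_fin_two, hs]⟩, fun t => by
      ext i j
      fin_cases i <;> fin_cases j <;> simp [uU, Matrix.mul_apply, Fin.sum_univ_two]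
      field_simp⟩) A hM0 hM h0 (by rw [h1, mul_one, e, h1])
  have hL := xfe_step hq uL_add (fun s hs => ⟨⟨!![s, 0; 0, s⁻¹], by
    simp [Matrix.det_fin_two, hs]⟩, fun t => by
      ext i j
      fin_cases i <;> fin_cases j <;> simp [uL, Matrix.mul_apply, Fin.sum_univ_two]
      field_simp⟩) A hM0 hM h0 (by rw [h1, mul_one, e, h1])
  have hc : ∀ σ, f0 σ = f0 1 := fun σ => by
    obtain ⟨a, b, c, d, rfl⟩ := gen_four σ
    rw [hL, hU, hL, ← one_mul (uU a), hU]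
  rw [sum_congr rfl fun x _ => hc x, sum_const, card_univ, nsmul_eq_mul,
    mul_eq_zero_iff_left (Nat.cast_ne_zero.2 Fintype.card_ne_zero)] at h0
  simp [xfeN, hc, h0] at h1

theorem gowers (hq : 5 < q) (T : Finset (GQ q)) (h : 3 * (q : ℝ) ^ 8 < (#T : ℝ) ^ 3) (g : GQ q) :
    ∃ a ∈ T, ∃ b ∈ T, ∃ c ∈ T, a * b * c = g := by
  by_contra hn
  have hG : (0 : ℝ) < Fintype.card (GQ q) := Nat.cast_pos.2 Fintype.card_pos
  have hG3 : (Fintype.card (GQ q) : ℝ) ≤ q ^ 3 := by exact_mod_cast card_GQ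
  have hq' : (5 : ℝ) < q := by exact_mod_cast hq
  set N : ℝ := (Fintype.card (GQ q) : ℝ) with hN
  set t : ℝ := (#T : ℝ) with ht
  have ht0 : 0 < t := lt_of_le_of_ne (Nat.cast_nonneg _) fun e => by
    rw [← e, zero_pow three_ne_zero] at h
    exact absurd h (not_lt.2 (by positivity))
  set μ := t / N with hμ
  have hμN : μ * N = t := div_mul_cancel₀ _ hG.ne'
  let r : GQ q → ℝ := fun x => (if x ∈ T then 1 else 0) - μ
  have r1 : ∑ x, r x = 0 := by
    simp only [r, sum_sub_distrib, sum_ite_mem, univ_inter, sum_const, nsmul_eq_mul, card_univ]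
    linarith
  have r2 : ∑ x, r x ^ 2 ≤ t := by
    have : ∀ x, r x ^ 2 = (if x ∈ T then 1 - 2 * μ else 0) + μ ^ 2 := fun x => by
      simp only [r]
      split_ifs <;> ring
    simp only [this, sum_add_distrib, sum_ite_mem, univ_inter, sum_const, nsmul_eq_mul, card_univ]
    have : 0 ≤ μ := by positivity
    nlinarith
  have key := gowers_mix hq T (fun x => r x) (by exact_mod_cast r1)
  simp only [← Complex.ofReal_sum, Complex.norm_real, Real.norm_eq_abs, sq_abs] at key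
  have r3 : t * (t * μ) ^ 2 ≤ ∑ x, (∑ a ∈ T, r (a⁻¹ * x)) ^ 2 := by
    rw [← Equiv.sum_comp ((Equiv.inv _).trans (Equiv.mulLeft g))]
    refine le_trans (le_of_eq ?_) (sum_le_sum_of_subset_of_nonneg (subset_univ T)
      fun _ _ _ => sq_nonneg _)
    rw [sum_congr rfl (g := fun _ => (t * μ) ^ 2) fun c hc => ?_, sum_const, nsmul_eq_mul]
    rw [sum_congr rfl (g := fun _ => -μ) fun a ha => ?_, sum_const, nsmul_eq_mul]
    · ring
    · simp only [r]
      rw [if_neg fun hb => hn ⟨a, ha, _, hb, c, hc, by simp⟩, zero_sub]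
  have k1 := (mul_le_mul_of_nonneg_left r3 (show 0 ≤ ((q : ℝ) - 1) / 2 by linarith)).trans
    (key.trans (mul_le_mul_of_nonneg_left r2 (by positivity)))
  have k2 : ((q : ℝ) - 1) / 2 * t ^ 3 ≤ N ^ 3 := by
    refine le_of_mul_le_mul_left ?_ (pow_pos ht0 2)
    have := mul_le_mul_of_nonneg_left k1 (sq_nonneg N)
    calc _ = N ^ 2 * (((q : ℝ) - 1) / 2 * (t * (t * μ) ^ 2)) := by
          rw [show N ^ 2 * (((q : ℝ) - 1) / 2 * (t * (t * μ) ^ 2)) =
            ((q : ℝ) - 1) / 2 * t ^ 3 * (μ * N) ^ 2 by ring, hμN]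
          ring
      _ ≤ _ := this
      _ = _ := by ring
  have k3 := pow_le_pow_left₀ hG.le hG3 3
  have k4 := mul_lt_mul_of_pos_left h (show 0 < ((q : ℝ) - 1) / 2 by linarith)
  have k5 : 0 < (q : ℝ) ^ 8 := by positivity
  nlinarith

end Pool.Agent.EQ
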