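import Mathlib

/-! Elementary facts on SL(2) over a prime field. -/

set_option autoImplicit false

noncomputable section

open Finset
open scoped Pointwise MatrixGroups Classical

namespace Pool.Agent.EQ

/-- The group. -/
abbrev GQ (q : ℕ) : Type := SL(2, ZMod q)

/-- Matrices modulo `q`. -/
abbrev MQ (q : ℕ) : Type := Matrix (Fin 2) (Fin 2) (ZMod q)

variable {q : ℕ}

/-- Upper unipotents. -/
def uU (t : ZMod q) : GQ q := ⟨!![1, t; 0, 1], by simp [Matrix.det_fin_two]⟩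

/-- Lower unipotents. -/
def uL (t : ZMod q) : GQ q := ⟨!![1, 0; t, 1], by simp [Matrix.det_fin_two]⟩

theorem uU_add (s t : ZMod q) : uU (s + t) = uU s * uU t := by
  ext i j
  fin_cases i <;> fin_cases j <;> simp [uU, Matrix.mul_apply, Fin.sum_univ_two, add_comm]

theorem uL_add (s t : ZMod q) : uL (s + t) = uL s * uL t := by
  ext i j
  fin_cases i <;> fin_cases j <;> simp [uL, Matrix.mul_apply, Fin.sum_univ_two]

theorem xff_det (h : GQ q) : h 0 0 * h 1 1 - h 0 1 * h 1 0 = 1 := by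
  have := h.det_coe
  rwa [Matrix.det_fin_two] at this

theorem xff_ext {g h : GQ q} (h0 : g 0 0 = h 0 0) (h1 : g 0 1 = h 0 1) (h2 : g 1 0 = h 1 0)
    (h3 : g 1 1 = h 1 1) : g = h := by
  ext i j
  fin_cases i <;> fin_cases j <;> assumption

theorem xff_mul (g h : GQ q) (i j : Fin 2) : (g * h) i j = g i 0 * h 0 j + g i 1 * h 1 j := by
  simp [Matrix.mul_apply, Fin.sum_univ_two]

theorem xff_U (t : ZMod q) : uU t 0 0 = 1 ∧ uU t 0 1 = t ∧ uU t 1 0 = 0 ∧ uU t 1 1 = 1 :=
  ⟨rfl, rfl, rfl, rfl⟩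

theorem xff_L (t : ZMod q) : uL t 0 0 = 1 ∧ uL t 0 1 = 0 ∧ uL t 1 0 = t ∧ uL t 1 1 = 1 :=
  ⟨rfl, rfl, rfl, rfl⟩

theorem xff_U0 : uU (0 : ZMod q) = 1 := by
  apply xff_ext <;> simp [xff_U]

theorem xff_L0 : uL (0 : ZMod q) = 1 := by
  apply xff_ext <;> simp [xff_L]

theorem xff_Uinv (t : ZMod q) : (uU t)⁻¹ = uU (-t) :=
  inv_eq_of_mul_eq_one_right (by rw [← uU_add, add_neg_cancel, xff_U0])

theorem xff_Linv (t : ZMod q) : (uL t)⁻¹ = uL (-t) :=
  inv_eq_of_mul_eq_one_right (by rw [← uL_add, add_neg_cancel, xff_L0])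

theorem xff_neg (h : GQ q) (i j : Fin 2) : (-h) i j = -(h i j) := by
  simp

variable [Fact q.Prime]

theorem xff_ne (hq : 5 < q) {n : ℕ} (h0 : 0 < n) (h5 : n ≤ 5) : (n : ZMod q) ≠ 0 := by
  intro h
  have := Nat.le_of_dvd h0 ((ZMod.natCast_eq_zero_iff n q).1 h)
  omega

theorem xff_three (σ : GQ q) (hc : σ 1 0 ≠ 0) : ∃ a b c, σ = uU a * uL b * uU c := by
  refine ⟨(σ 0 0 - 1) / σ 1 0, σ 1 0, (σ 1 1 - 1) / σ 1 0, ?_⟩
  have hd := xff_det σ
  apply xff_ext <;> simp only [xff_mul, xff_U, xff_L] <;> field_simp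
  · ring
  · linear_combination -hd
  · ring
  · ring

theorem gen_four (σ : GQ q) : ∃ a b c d, σ = uU a * uL b * uU c * uL d := by
  by_cases hc : σ 1 0 = 0
  · have hd := xff_det σ
    have h1 : (σ * uL 1 : GQ q) 1 0 ≠ 0 := by
      simp only [xff_mul, xff_L, hc]
      intro h
      have h2 : σ 1 1 = 0 := by linear_combination h
      rw [hc, h2] at hd
      simp at hd
    obtain ⟨a, b, c, e⟩ := xff_three _ h1
    refine ⟨a, b, c, -1, ?_⟩
    rw [← e, ← xff_Linv, mul_inv_cancel_right]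
  · obtain ⟨a, b, c, e⟩ := xff_three σ hc
    exact ⟨a, b, c, 0, by rw [xff_L0, mul_one]; exact e⟩

theorem card_GQ : Fintype.card (GQ q) ≤ q ^ 3 := by
  have key : Function.Injective fun g : GQ q =>
      (g 0 0, g 0 1, if g 0 0 = 0 then g 1 1 else g 1 0) := by
    intro g h e
    simp only [Prod.mk.injEq] at e
    obtain ⟨e0, e1, e2⟩ := e
    have dg := xff_det g
    have dh := xff_det h
    by_cases ha : g 0 0 = 0
    · have hb : h 0 0 = 0 := e0 ▸ ha
      rw [if_pos ha, if_pos hb] at e2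
      have hb0 : g 0 1 ≠ 0 := by
        intro h0
        rw [ha, h0] at dg
        simp at dg
      refine xff_ext e0 e1 (mul_left_cancel₀ hb0 ?_) e2
      rw [← e1, hb] at dh
      rw [ha] at dg
      linear_combination dh - dg
    · have hb : ¬ h 0 0 = 0 := e0 ▸ ha
      rw [if_neg ha, if_neg hb] at e2
      refine xff_ext e0 e1 e2 (mul_left_cancel₀ ha ?_)
      rw [← e0, ← e1, ← e2] at dh
      linear_combination dg - dh
  refine (Fintype.card_le_of_injective _ key).trans (le_of_eq ?_)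
  simp only [Fintype.card_prod, ZMod.card]
  ring

theorem xff_scalar {h : GQ q} (hb : h 0 1 = 0) (hc : h 1 0 = 0) (had : h 0 0 = h 1 1) :
    h = 1 ∨ h = -1 := by
  have hd := xff_det h
  rw [hb, ← had] at hd
  have : (h 0 0 - 1) * (h 0 0 + 1) = 0 := by linear_combination hd
  rcases mul_eq_zero.1 this with e | e
  · have e1 : h 0 0 = 1 := by linear_combination e
    refine Or.inl (xff_ext ?_ ?_ ?_ ?_)
    · simpa using e1
    · simpa using hb
    · simpa using hc
    · simpa using had ▸ e1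
  · have e1 : h 0 0 = -1 := by linear_combination e
    refine Or.inr (xff_ext ?_ ?_ ?_ ?_)
    · simpa using e1
    · simpa using hb
    · simpa using hc
    · simpa using had ▸ e1

theorem centre_pm (hq : 5 < q) {h : GQ q} (h1 : h * uU 1 = uU 1 * h ∨ h * uU 1 = -(uU 1 * h))
    (h2 : h * uL 1 = uL 1 * h ∨ h * uL 1 = -(uL 1 * h)) : h = 1 ∨ h = -1 := by
  have h2' : (2 : ZMod q) ≠ 0 := by exact_mod_cast xff_ne hq (n := 2) (by norm_num) (by norm_num)
  have hd := xff_det h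
  have a1 : h 1 0 = 0 ∧ h 0 0 = h 1 1 := by
    rcases h1 with e | e
    · have e0 := congrArg (fun g : GQ q => g 0 0) e
      have e1 := congrArg (fun g : GQ q => g 0 1) e
      simp only [xff_mul, xff_U] at e0 e1
      exact ⟨by linear_combination -e0, by linear_combination e1⟩
    · have e0 := congrArg (fun g : GQ q => g 0 0) e
      have e1 := congrArg (fun g : GQ q => g 1 0) e
      simp only [xff_neg, xff_mul, xff_U] at e0 e1
      have c0 : h 1 0 = 0 := mul_left_cancel₀ h2' (by linear_combination e1)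
      have c1 : h 0 0 = 0 := mul_left_cancel₀ h2' (by linear_combination e0 - c0)
      rw [c0, c1] at hd
      simp at hd
  have a2 : h 0 1 = 0 := by
    rcases h2 with e | e
    · have e0 := congrArg (fun g : GQ q => g 0 0) e
      simp only [xff_mul, xff_L] at e0
      linear_combination e0
    · have e1 := congrArg (fun g : GQ q => g 0 1) e
      simp only [xff_neg, xff_mul, xff_L] at e1
      exact mul_left_cancel₀ h2' (by linear_combination e1)
  exact xff_scalar a2 a1.1 a1.2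

/-- products of at most `k` conjugates -/
def xffP (h : GQ q) (k : ℕ) (σ : GQ q) : Prop :=
  ∃ l : List (GQ q × Bool), l.length ≤ k ∧
    σ = (l.map fun p => p.1 * (if p.2 then h else h⁻¹) * p.1⁻¹).prod

theorem xff_Pmul {h a b : GQ q} {k m : ℕ} (ha : xffP h k a) (hb : xffP h m b) :
    xffP h (k + m) (a * b) := by
  obtain ⟨l, h1, rfl⟩ := ha
  obtain ⟨l', h2, rfl⟩ := hb
  exact ⟨l ++ l', by rw [List.length_append]; omega, by rw [List.map_append, List.prod_append]⟩

theorem xff_Pconj {h a : GQ q} {k : ℕ} (ha : xffP h k a) (x : GQ q) :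
    xffP h k (x * a * x⁻¹) := by
  obtain ⟨l, h1, rfl⟩ := ha
  refine ⟨l.map fun p => (x * p.1, p.2), by simpa using h1, ?_⟩
  clear h1
  induction l with
  | nil => simp
  | cons p l ih =>
    simp only [List.map_cons, List.prod_cons] at ih ⊢
    rw [← ih]
    group

theorem xff_Pinv {h a : GQ q} {k : ℕ} (ha : xffP h k a) : xffP h k a⁻¹ := by
  obtain ⟨l, h1, rfl⟩ := ha
  refine ⟨(l.map fun p => (p.1, !p.2)).reverse, by simpa using h1, ?_⟩
  clear h1
  induction l with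
  | nil => simp
  | cons p l ih =>
    simp only [List.map_cons, List.prod_cons, List.reverse_cons, List.map_append,
      List.prod_append, List.map_nil, List.prod_nil, mul_one] at ih ⊢
    rw [← ih, mul_inv_rev]
    obtain ⟨y, b⟩ := p
    cases b <;> simp [mul_assoc]

theorem xff_Pone (h : GQ q) : xffP h 1 h := ⟨[(1, true)], le_rfl, by simp⟩

theorem xff_Pcomm {h a : GQ q} {k : ℕ} (ha : xffP h k a) (x : GQ q) :
    xffP h (k + k) (a * x * a⁻¹ * x⁻¹) := by
  have := xff_Pmul ha (xff_Pconj (xff_Pinv ha) x)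
  simpa only [mul_assoc] using this

theorem xff_low (hq : 5 < q) {h : GQ q} (h1 : h ≠ 1) (h2 : h ≠ -1) :
    ∃ g, xffP h 1 g ∧ g 1 0 ≠ 0 := by
  have h2' : (2 : ZMod q) ≠ 0 := by exact_mod_cast xff_ne hq (n := 2) (by norm_num) (by norm_num)
  by_contra hn
  push Not at hn
  have c0 := hn _ (xff_Pone h)
  have c1 := hn _ (xff_Pconj (xff_Pone h) (uL 1))
  have c2 := hn _ (xff_Pconj (xff_Pone h) (uL (-1)))
  rw [xff_Linv] at c1 c2
  simp only [xff_mul, xff_L, c0] at c1 c2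
  have b0 : h 0 1 = 0 := mul_left_cancel₀ h2' (by linear_combination -c1 - c2)
  have ad : h 0 0 = h 1 1 := by linear_combination c1 + b0
  rcases xff_scalar b0 c0 ad with e | e
  · exact h1 e
  · exact h2 e

theorem xff_upper (hq : 5 < q) {h : GQ q} (h1 : h ≠ 1) (h2 : h ≠ -1) (r : ZMod q) :
    xffP h 4 (uU r) := by
  have n2 : (2 : ZMod q) ≠ 0 := by exact_mod_cast xff_ne hq (n := 2) (by norm_num) (by norm_num)
  have n3 : (3 : ZMod q) ≠ 0 := by exact_mod_cast xff_ne hq (n := 3) (by norm_num) (by norm_num)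
  have n5 : (5 : ZMod q) ≠ 0 := by exact_mod_cast xff_ne hq (n := 5) (by norm_num) (by norm_num)
  obtain ⟨g, hg, hc⟩ := xff_low hq h1 h2
  obtain ⟨k, hk, k0, k1⟩ : ∃ k, xffP h 1 k ∧ k 0 0 = 0 ∧ k 1 0 ≠ 0 := by
    refine ⟨_, xff_Pconj hg (uU (-g 0 0 / g 1 0)), ?_, ?_⟩
    · rw [xff_Uinv]
      simp only [xff_mul, xff_U]
      field_simp
      ring
    · rw [xff_Uinv]
      simp only [xff_mul, xff_U]
      simpa using hc
  obtain ⟨t, ht⟩ : ∃ t, 2 * k 1 0 * t = 3 := ⟨3 / (2 * k 1 0), by field_simp⟩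
  obtain ⟨s, hs⟩ : ∃ s, 15 * s = r := ⟨r / (3 * 5), by field_simp; ring⟩
  have hd := xff_det k
  rw [k0] at hd
  have e1 : k * uU t = uL (-(k 1 0 ^ 2 * t)) * k := by
    apply xff_ext <;> simp only [xff_mul, xff_U, xff_L, k0]
    · ring
    · ring
    · ring
    · linear_combination (-(k 1 0 * t)) * hd
  have p2 := xff_Pconj (xff_Pcomm hk (uU t)) (uL (2 * k 1 0))
  rw [e1, mul_inv_cancel_right, xff_Uinv, xff_Linv] at p2
  generalize k 1 0 = c at ht p2
  have e2 : uL (2 * c) * (uL (-(c ^ 2 * t)) * uU (-t)) * uL (-(2 * c)) * uU s =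
      uU (16 * s) * (uL (2 * c) * (uL (-(c ^ 2 * t)) * uU (-t)) * uL (-(2 * c))) := by
    apply xff_ext <;> simp only [xff_mul, xff_U, xff_L]
    · linear_combination (16 * s * c ^ 2 * t) * ht
    · linear_combination (s * (5 - 8 * c * t)) * ht
    · ring
    · linear_combination (-(s * c ^ 2 * t)) * ht
  have p4 := xff_Pcomm p2 (uU s)
  rw [e2, mul_inv_cancel_right, xff_Uinv, ← uU_add] at p4
  have e3 : 16 * s + -s = r := by linear_combination hs
  rwa [e3] at p4

theorem xff_weyl (r : ZMod q) : uL r = (uU (-1) * uL 1 * uU (-1))⁻¹ * uU (-r) *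
    (uU (-1) * uL 1 * uU (-1))⁻¹⁻¹ := by
  rw [inv_inv, mul_assoc, eq_inv_mul_iff_mul_eq]
  apply xff_ext <;> simp only [xff_mul, xff_U, xff_L] <;> ring

theorem conj_sixteen (hq : 5 < q) {h : GQ q} (h1 : h ≠ 1) (h2 : h ≠ -1) (σ : GQ q) :
    ∃ l : List (GQ q × Bool), l.length ≤ 16 ∧
      σ = (l.map fun p => p.1 * (if p.2 then h else h⁻¹) * p.1⁻¹).prod := by
  obtain ⟨a, b, c, d, rfl⟩ := gen_four σ
  have hL : ∀ r, xffP h 4 (uL r) := fun r => by
    rw [xff_weyl]
    exact xff_Pconj (xff_upper hq h1 h2 _) _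
  exact xff_Pmul (xff_Pmul (xff_Pmul (xff_upper hq h1 h2 a) (hL b)) (xff_upper hq h1 h2 c)) (hL d)

theorem normal_top (hq : 5 < q) (N : Subgroup (GQ q)) (hN : N.Normal) {h : GQ q} (hh : h ∈ N)
    (h1 : h ≠ 1) (h2 : h ≠ -1) : N = ⊤ := by
  rw [eq_top_iff]
  intro σ _
  obtain ⟨l, -, rfl⟩ := conj_sixteen hq h1 h2 σ
  refine N.list_prod_mem fun x hx => ?_
  obtain ⟨p, -, rfl⟩ := List.mem_map.1 hx
  refine hN.conj_mem _ ?_ _
  split_ifs
  · exact hh
  · exact N.inv_mem hh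

theorem uU_ne (hq : 5 < q) : uU (1 : ZMod q) ≠ 1 ∧ uU (1 : ZMod q) ≠ -1 := by
  constructor
  · intro e
    have e1 := congrArg (fun g : GQ q => g 0 1) e
    simp [xff_U] at e1
  · intro e
    have e1 := congrArg (fun g : GQ q => g 0 1) e
    simp [xff_U] at e1

theorem closure_uUL (H : Subgroup (GQ q)) (h1 : uU 1 ∈ H) (h2 : uL 1 ∈ H) : H = ⊤ := by
  have hU : ∀ n : ℕ, uU (n : ZMod q) ∈ H ∧ uL (n : ZMod q) ∈ H := by
    intro n
    induction n with
    | zero => rw [Nat.cast_zero, xff_U0, xff_L0]; exact ⟨H.one_mem, H.one_mem⟩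
    | succ n ih =>
      rw [Nat.cast_succ, uU_add, uL_add]
      exact ⟨H.mul_mem ih.1 h1, H.mul_mem ih.2 h2⟩
  have hV : ∀ t : ZMod q, uU t ∈ H ∧ uL t ∈ H := fun t => by
    have := hU t.val
    rwa [ZMod.natCast_zmod_val] at this
  rw [eq_top_iff]
  intro σ _
  obtain ⟨a, b, c, d, rfl⟩ := gen_four σ
  exact H.mul_mem (H.mul_mem (H.mul_mem (hV a).1 (hV b).2) (hV c).1) (hV d).2

end Pool.Agent.EQ
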