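import Pool.Agent.P.MP_ad7a55_nt.XFf

/-! Graphs of automorphisms of PSL(2) over a prime field. -/

set_option autoImplicit false

noncomputable section

open Finset
open scoped Pointwise MatrixGroups Classical

namespace Pool.Agent.EQ

variable {q : ℕ} [Fact q.Prime]

/-- `h = ± X g X⁻¹`. -/
def Cj (X : MQ q) (g h : GQ q) : Prop :=
  (h : MQ q) * X = X * (g : MQ q) ∨ (h : MQ q) * X = -(X * (g : MQ q))

theorem xfg_tr {n : MQ q} (h : IsNilpotent n) : n 1 1 = -n 0 0 := by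
  have h1 := (Matrix.isNilpotent_trace_of_isNilpotent h).eq_zero
  rw [Matrix.trace_fin_two] at h1
  linear_combination h1

theorem xfg_det {n : MQ q} (h : IsNilpotent n) : n 0 0 * n 1 1 - n 0 1 * n 1 0 = 0 := by
  obtain ⟨k, hk⟩ := h
  have h1 : n.det ^ k = 0 := by rw [← Matrix.det_pow, hk, Matrix.det_zero]
  rw [← Matrix.det_fin_two]
  exact pow_eq_zero_iff'.1 h1 |>.1

theorem xfg_nil {x : GQ q} (h : x ^ q = 1) : IsNilpotent ((x : MQ q) - 1) := by
  refine ⟨q, ?_⟩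
  rw [sub_pow_char_of_commute _ (Commute.one_right _), one_pow, ← Matrix.SpecialLinearGroup.coe_pow,
    h, Matrix.SpecialLinearGroup.coe_one, sub_self]

theorem xfg_form {x : GQ q} (h : x ^ q = 1) :
    ∃ p r s : ZMod q, p ^ 2 + r * s = 0 ∧ (x : MQ q) = !![1 + p, r; s, 1 - p] := by
  have h1 := xfg_tr (xfg_nil h)
  have h2 := xfg_det (xfg_nil h)
  simp only [Matrix.sub_apply, Matrix.one_apply_eq, ne_eq, zero_ne_one, one_ne_zero,
    not_false_eq_true, Matrix.one_apply_ne, sub_zero] at h1 h2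
  refine ⟨x 0 0 - 1, x 0 1, x 1 0, by linear_combination -h2 + (x 0 0 - 1) * h1, ?_⟩
  ext i j
  fin_cases i <;> fin_cases j <;> simp
  linear_combination h1

theorem xfg_two (hq : 5 < q) : (2 : ZMod q) ≠ 0 := by
  intro h
  have h1 : ((2 : ℕ) : ZMod q) = 0 := by exact_mod_cast h
  rw [ZMod.natCast_eq_zero_iff] at h1
  have := Nat.le_of_dvd two_pos h1
  omega

theorem unip_of_pow (hq : 5 < q) {x : GQ q} (h : x ^ q = 1) :
    ((x : MQ q) - 1) * ((x : MQ q) - 1) = 0 := by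
  obtain ⟨p, r, s, h1, h2⟩ := xfg_form h
  rw [h2]
  ext i j
  fin_cases i <;> fin_cases j <;> simp [Matrix.mul_apply, Fin.sum_univ_two, Matrix.one_apply]
  · linear_combination h1
  · ring
  · ring
  · linear_combination h1

theorem braid_pair (hq : 5 < q) {x z : GQ q} (hx : x ^ q = 1) (hz : z ^ q = 1) (hx1 : x ≠ 1)
    (hxz : x ≠ z) (h : x * z * x = z * x * z ∨ x * z * x = -(z * x * z)) :
    ∃ X : MQ q, X.det ≠ 0 ∧ (x : MQ q) * X = X * (uU 1 : GQ q) ∧
      (z : MQ q) * X = X * (uL (-1) : GQ q) := by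
  obtain ⟨p, r, s, h1, h2⟩ := xfg_form hx
  obtain ⟨p', r', s', h1', h2'⟩ := xfg_form hz
  have two := xfg_two hq
  have ht : 2 * p * p' + r * s' + s * r' + 1 = 0 := by
    by_contra ht
    rcases h with h | h
    · have e := congrArg (fun g : GQ q => (g : MQ q)) h
      simp only [Matrix.SpecialLinearGroup.coe_mul, h2, h2', Matrix.mul_fin_two] at e
      have e00 := congrFun (congrFun e 0) 0
      have e01 := congrFun (congrFun e 0) 1
      have e10 := congrFun (congrFun e 1) 0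
      simp only [Matrix.of_apply, Matrix.cons_val', Matrix.cons_val_zero, Matrix.cons_val_one,
        Matrix.cons_val_fin_one] at e00 e01 e10
      have a1 : p = p' := mul_left_cancel₀ ht (by
        linear_combination e00 - (1 - p') * h1 + (1 - p) * h1')
      have a2 : r = r' := mul_left_cancel₀ ht (by linear_combination e01 + r' * h1 - r * h1')
      have a3 : s = s' := mul_left_cancel₀ ht (by linear_combination e10 + s' * h1 - s * h1')
      exact hxz (Subtype.ext (by rw [h2, h2', a1, a2, a3]))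
    · have e := congrArg (fun g : GQ q => (g : MQ q)) h
      simp only [Matrix.SpecialLinearGroup.coe_mul, Matrix.SpecialLinearGroup.coe_neg, h2, h2',
        Matrix.mul_fin_two] at e
      have e00 := congrFun (congrFun e 0) 0
      have e11 := congrFun (congrFun e 1) 1
      simp only [Matrix.neg_apply, Matrix.of_apply, Matrix.cons_val', Matrix.cons_val_zero,
        Matrix.cons_val_one, Matrix.cons_val_fin_one] at e00 e11
      refine ht (mul_left_cancel₀ (mul_ne_zero two two) ?_)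
      linear_combination e00 + e11 - 2 * h1 - 2 * h1'
  have key : ∀ w0 w1 : ZMod q, p' * w0 + r' * w1 = 0 → s' * w0 - p' * w1 = 0 →
      2 * p * w0 * w1 + r * w1 ^ 2 - s * w0 ^ 2 ≠ 0 →
      ∃ X : MQ q, X.det ≠ 0 ∧ (x : MQ q) * X = X * (uU 1 : GQ q) ∧
        (z : MQ q) * X = X * (uL (-1) : GQ q) := fun w0 w1 a1 a2 a3 => by
    refine ⟨!![p * w0 + r * w1, w0; s * w0 - p * w1, w1], ?_, ?_, ?_⟩
    · rw [Matrix.det_fin_two_of]
      intro h0
      exact a3 (by linear_combination h0)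
    · rw [h2, uU, Matrix.mul_fin_two, Matrix.mul_fin_two]
      ext i j
      fin_cases i <;> fin_cases j <;> simp
      · linear_combination w0 * h1
      · ring
      · linear_combination w1 * h1
      · ring
    · rw [h2', uL, Matrix.mul_fin_two, Matrix.mul_fin_two]
      ext i j
      fin_cases i <;> fin_cases j <;> simp
      · linear_combination w0 * ht - p * a1 - r * a2
      · linear_combination a1
      · linear_combination w1 * ht - s * a1 + p * a2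
      · linear_combination a2
  by_cases hs : s' = 0
  · refine key r' (-p') (by ring) (by linear_combination h1') fun h0 => ?_
    have hr : r' = 0 := by linear_combination h0 + r' * ht - r * h1'
    have hp : p' = 0 := pow_eq_zero_iff two_ne_zero |>.1 (by linear_combination h1' - r' * hs)
    exact one_ne_zero (α := ZMod q) (by linear_combination ht - 2 * p * hp - r * hs - s * hr)
  · refine key p' s' (by linear_combination h1') (by ring) fun h0 => hs ?_
    linear_combination -h0 + s' * ht - s * h1'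

theorem xfg_U0 : (uU 0 : GQ q) = 1 := Subtype.ext (by simp [uU, Matrix.one_fin_two])

theorem xfg_U (k : ℕ) : (uU 1 : GQ q) ^ k = uU (k : ZMod q) := by
  induction k with
  | zero => rw [pow_zero, Nat.cast_zero, xfg_U0]
  | succ k ih => rw [pow_succ, ih, ← uU_add, Nat.cast_succ]

theorem xfg_L0 : (uL 0 : GQ q) = 1 := Subtype.ext (by simp [uL, Matrix.one_fin_two])

theorem xfg_L (k : ℕ) : (uL (-1) : GQ q) ^ k = uL (-(k : ZMod q)) := by
  induction k with
  | zero => rw [pow_zero, Nat.cast_zero, neg_zero, xfg_L0]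
  | succ k ih => rw [pow_succ, ih, ← uL_add, Nat.cast_succ, neg_add]

theorem xfg_rel : (uU 1 * uL (-1) * uU 1 : GQ q) = uL (-1) * uU 1 * uL (-1) :=
  Subtype.ext (by
    show (!![1, 1; 0, 1] * !![1, 0; -1, 1] * !![1, 1; 0, 1] : MQ q) =
      !![1, 0; -1, 1] * !![1, 1; 0, 1] * !![1, 0; -1, 1]
    simp)

theorem xfg_ne : (uU 1 * (uL (-1))⁻¹ : GQ q) ≠ 1 ∧ (uU 1 * (uL (-1))⁻¹ : GQ q) ≠ -1 := by
  refine ⟨fun e => ?_, fun e => ?_⟩
  · have e' := congrArg (fun g : GQ q => (g : MQ q) 0 1) (mul_inv_eq_one.1 e)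
    simp [uU, uL] at e'
  · have e1 : (uU 1 : GQ q) = -uL (-1) := by rw [mul_inv_eq_iff_eq_mul.1 e, neg_one_mul]
    have e' := congrArg (fun g : GQ q => (g : MQ q) 0 1) e1
    simp only [Matrix.SpecialLinearGroup.coe_neg, Matrix.neg_apply] at e'
    simp [uU, uL] at e'

theorem xfg_uniq {Γ : Subgroup (GQ q × GQ q)} (h2 : ∀ h, (1, h) ∈ Γ → h = 1 ∨ h = -1)
    {g h h' : GQ q} (a : (g, h) ∈ Γ) (b : (g, h') ∈ Γ) : h = h' ∨ h = -h' := by
  have c := Γ.mul_mem a (Γ.inv_mem b)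
  rw [Prod.inv_mk, Prod.mk_mul_mk, mul_inv_cancel] at c
  rcases h2 _ c with e | e
  · exact Or.inl (mul_inv_eq_one.1 e)
  · exact Or.inr (by rw [mul_inv_eq_iff_eq_mul.1 e, neg_one_mul])

theorem xfg_top (hq : 5 < q) {Γ : Subgroup (GQ q × GQ q)} (h1 : ∀ g, ∃ h, (g, h) ∈ Γ)
    (h2 : ∀ h, (1, h) ∈ Γ → h = 1 ∨ h = -1) {g : GQ q} (hg : (g, 1) ∈ Γ) (a : g ≠ 1) (b : g ≠ -1) :
    ∀ p ∈ Γ, p.2 = 1 ∨ p.2 = -1 := by
  intro p hp
  have hm : ∀ n : GQ q, n ∈ Γ.comap (MonoidHom.inl (GQ q) (GQ q)) ↔ (n, 1) ∈ Γ := fun n => by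
    rw [Subgroup.mem_comap, MonoidHom.inl_apply]
  have hN : (Γ.comap (MonoidHom.inl (GQ q) (GQ q))).Normal := ⟨fun n hn k => by
    obtain ⟨h, hh⟩ := h1 k
    have c := Γ.mul_mem (Γ.mul_mem hh ((hm n).1 hn)) (Γ.inv_mem hh)
    rw [Prod.inv_mk, Prod.mk_mul_mk, Prod.mk_mul_mk, mul_one, mul_inv_cancel] at c
    exact (hm _).2 c⟩
  have e := normal_top hq _ hN ((hm g).2 hg) a b
  have c : p.1 ∈ Γ.comap (MonoidHom.inl (GQ q) (GQ q)) := by
    rw [e]
    exact Subgroup.mem_top _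
  exact xfg_uniq h2 (show (p.1, p.2) ∈ Γ from hp) ((hm _).1 c)

theorem xfg_inv {X : MQ q} {g h : GQ q} (b : (h : MQ q) * X = X * (g : MQ q)) :
    ((h⁻¹ : GQ q) : MQ q) * X = X * ((g⁻¹ : GQ q) : MQ q) := by
  have i1 := congrArg (fun k : GQ q => (k : MQ q)) (inv_mul_cancel h)
  have i2 := congrArg (fun k : GQ q => (k : MQ q)) (mul_inv_cancel g)
  simp only [Matrix.SpecialLinearGroup.coe_mul, Matrix.SpecialLinearGroup.coe_one] at i1 i2
  generalize ((h⁻¹ : GQ q) : MQ q) = A at i1 ⊢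
  generalize ((g⁻¹ : GQ q) : MQ q) = B at i2 ⊢
  calc A * X = A * (X * g) * B := by rw [mul_assoc, mul_assoc, i2, mul_one]
    _ = X * B := by rw [← b, ← mul_assoc, i1, one_mul]

/-- the elements with a partner that is conjugate by `X` -/
def xfgH (Γ : Subgroup (GQ q × GQ q)) (X : MQ q) : Subgroup (GQ q) where
  carrier := {g | ∃ h, (g, h) ∈ Γ ∧ (h : MQ q) * X = X * (g : MQ q)}
  one_mem' := ⟨1, Γ.one_mem, by simp⟩
  mul_mem' := by
    rintro g g' ⟨h, a, b⟩ ⟨h', a', b'⟩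
    refine ⟨h * h', Γ.mul_mem a a', ?_⟩
    rw [Matrix.SpecialLinearGroup.coe_mul, Matrix.SpecialLinearGroup.coe_mul, mul_assoc, b',
      ← mul_assoc, b, mul_assoc]
  inv_mem' := by
    intro g hg
    simp only [Set.mem_ofPred_eq] at hg ⊢
    obtain ⟨h, a, b⟩ := hg
    have c := Γ.inv_mem a
    rw [Prod.inv_mk] at c
    exact ⟨h⁻¹, c, xfg_inv b⟩

theorem xfg_braid (hq : 5 < q) (Γ : Subgroup (GQ q × GQ q)) (h1 : ∀ g, ∃ h, (g, h) ∈ Γ)
    (h2 : ∀ h, (1, h) ∈ Γ → h = 1 ∨ h = -1) (h3 : ∀ g h, (g, h) ∈ Γ → (g, -h) ∈ Γ) :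
    (∀ p ∈ Γ, p.2 = 1 ∨ p.2 = -1) ∨ ∃ X : MQ q, X.det ≠ 0 ∧ ∀ p ∈ Γ, Cj X p.1 p.2 := by
  have hodd : Odd q := (Fact.out : q.Prime).odd_of_ne_two (by omega)
  have lift : ∀ g : GQ q, g ^ q = 1 → ∃ x, (g, x) ∈ Γ ∧ x ^ q = 1 := fun g hg => by
    obtain ⟨h, hh⟩ := h1 g
    have c := Γ.pow_mem hh q
    rw [Prod.pow_mk, hg] at c
    rcases h2 _ c with e | e
    · exact ⟨h, hh, e⟩
    · exact ⟨-h, h3 _ _ hh, by rw [hodd.neg_pow, e, neg_neg]⟩
  obtain ⟨x, hx, hxq⟩ := lift (uU 1) (by rw [xfg_U, ZMod.natCast_self, xfg_U0])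
  obtain ⟨z, hz, hzq⟩ := lift (uL (-1)) (by rw [xfg_L, ZMod.natCast_self, neg_zero, xfg_L0])
  by_cases hx1 : x = 1
  · rw [hx1] at hx
    exact Or.inl (xfg_top hq h1 h2 hx (uU_ne hq).1 (uU_ne hq).2)
  by_cases hxz : x = z
  · have c := Γ.mul_mem hx (Γ.inv_mem hz)
    rw [Prod.inv_mk, Prod.mk_mul_mk, hxz, mul_inv_cancel] at c
    exact Or.inl (xfg_top hq h1 h2 c xfg_ne.1 xfg_ne.2)
  have c1 := Γ.mul_mem (Γ.mul_mem hx hz) hx
  have c2 := Γ.mul_mem (Γ.mul_mem hz hx) hz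
  simp only [Prod.mk_mul_mk] at c1 c2
  rw [xfg_rel] at c1
  obtain ⟨X, hX, e1, e2⟩ := braid_pair hq hxq hzq hx1 hxz (xfg_uniq h2 c1 c2)
  have hH : xfgH Γ X = ⊤ := closure_uUL _ ⟨x, hx, e1⟩ (by
    have : (uL 1 : GQ q) = (uL (-1))⁻¹ :=
      eq_inv_of_mul_eq_one_left (by rw [← uL_add, add_neg_cancel, xfg_L0])
    rw [this]
    exact (xfgH Γ X).inv_mem ⟨z, hz, e2⟩)
  refine Or.inr ⟨X, hX, fun p hp => ?_⟩
  have hp1 : p.1 ∈ xfgH Γ X := by
    rw [hH]
    exact Subgroup.mem_top _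
  obtain ⟨h, a, b⟩ := hp1
  rcases xfg_uniq h2 (show (p.1, p.2) ∈ Γ from hp) a with e | e
  · exact Or.inl (by rw [e, b])
  · exact Or.inr (by rw [e, Matrix.SpecialLinearGroup.coe_neg, neg_mul, b])

theorem braid (hq : 5 < q) (Γ : Subgroup (GQ q × GQ q)) (h1 : ∀ g, ∃ h, (g, h) ∈ Γ)
    (h2 : ∀ h, (1, h) ∈ Γ → h = 1 ∨ h = -1) :
    (∀ p ∈ Γ, p.2 = 1 ∨ p.2 = -1) ∨ ∃ X : MQ q, X.det ≠ 0 ∧ ∀ p ∈ Γ, Cj X p.1 p.2 := by
  let Γ' : Subgroup (GQ q × GQ q) :=
    { carrier := {p | p ∈ Γ ∨ (p.1, -p.2) ∈ Γ}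
      one_mem' := Or.inl Γ.one_mem
      mul_mem' := by
        rintro ⟨g, h⟩ ⟨g', h'⟩ (a | a) (b | b)
        · exact Or.inl (Γ.mul_mem a b)
        · exact Or.inr (by simpa using Γ.mul_mem a b)
        · exact Or.inr (by simpa using Γ.mul_mem a b)
        · exact Or.inl (by simpa using Γ.mul_mem a b)
      inv_mem' := by
        rintro ⟨g, h⟩ (a | a)
        · exact Or.inl (Γ.inv_mem a)
        · have e : (-h)⁻¹ = -h⁻¹ := inv_eq_of_mul_eq_one_right (by simp)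
          have b := Γ.inv_mem a
          rw [Prod.inv_mk, e] at b
          exact Or.inr b }
  have key := xfg_braid hq Γ' (fun g => (h1 g).imp fun h hh => Or.inl hh)
    (fun h hh => by
      rcases hh with a | a
      · exact h2 h a
      · exact (h2 _ a).symm.imp (fun e => neg_injective e) fun e => neg_eq_iff_eq_neg.1 e)
    (fun g h hh => by
      rcases hh with a | a
      · exact Or.inr (by simpa using a)
      · exact Or.inl a)
  exact key.imp (fun k p hp => k p (Or.inl hp)) fun ⟨X, hX, k⟩ => ⟨X, hX, fun p hp => k p (Or.inl hp)⟩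

theorem Cj.surj {X : MQ q} (hX : X.det ≠ 0) (h : GQ q) : ∃ g : GQ q, (h : MQ q) * X = X * g := by
  have hu : IsUnit X.det := isUnit_iff_ne_zero.2 hX
  refine ⟨⟨X⁻¹ * (h : MQ q) * X, ?_⟩, ?_⟩
  · rw [Matrix.det_mul, Matrix.det_mul, h.det_coe, mul_one, ← Matrix.det_mul,
      Matrix.nonsing_inv_mul _ hu, Matrix.det_one]
  · show _ = X * (X⁻¹ * (h : MQ q) * X)
    rw [← mul_assoc, ← mul_assoc, Matrix.mul_nonsing_inv _ hu, one_mul]

end Pool.Agent.EQ
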