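import Pool.Agent.P.MP_ad7a55_nt.XFg

/-! Goursat's lemma for powers of SL(2), exact and approximate. -/

set_option autoImplicit false

noncomputable section

open Finset
open scoped Pointwise MatrixGroups Classical

namespace Pool.Agent.EQ

variable {q : ℕ} [Fact q.Prime] {ι : Type} [Fintype ι]

theorem xfh_inv_mem {S : Finset (ι → GQ q)} (hs : S⁻¹ = S) {n : ℕ}
    {s : ι → GQ q} (h : s ∈ S ^ n) : s⁻¹ ∈ S ^ n := by
  have : (S ^ n)⁻¹ = S ^ n := by rw [← inv_pow, hs]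
  rw [← this]
  exact Finset.inv_mem_inv h

theorem xfh_mul_mem {S : Finset (ι → GQ q)} {m n : ℕ}
    {s t : ι → GQ q} (h : s ∈ S ^ m) (h' : t ∈ S ^ n) : s * t ∈ S ^ (m + n) := by
  rw [pow_add]
  exact Finset.mul_mem_mul h h'

theorem xfh_mono {S : Finset (ι → GQ q)} (h1 : 1 ∈ S) {m n : ℕ}
    (hmn : m ≤ n) {s : ι → GQ q} (h : s ∈ S ^ m) : s ∈ S ^ n :=
  Finset.pow_subset_pow_right h1 hmn h

theorem xfh_neg_inv (a : GQ q) : (-a)⁻¹ = -a⁻¹ := by
  rw [inv_eq_iff_mul_eq_one, neg_mul_neg, mul_inv_cancel]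

theorem xfh_cj_pm {X : MQ q} {g h h' : GQ q} (hc : Cj X g h) (hh : h' = h ∨ h' = -h) :
    Cj X g h' := by
  rcases hh with rfl | rfl
  · exact hc
  · unfold Cj at hc ⊢
    rw [Matrix.SpecialLinearGroup.coe_neg, neg_mul]
    rcases hc with hc | hc
    · right
      rw [hc]
    · left
      rw [hc, neg_neg]

theorem xfh_cj_uniq {X : MQ q} (hX : X.det ≠ 0) {g h u : GQ q} (hc : Cj X g h)
    (hu : (u : MQ q) * X = X * g) : h = u ∨ h = -u := by
  have hU : IsUnit X := (Matrix.isUnit_iff_isUnit_det X).2 (IsUnit.mk0 _ hX)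
  rcases hc with hc | hc
  · left
    apply Subtype.ext
    exact hU.mul_right_cancel (hc.trans hu.symm)
  · right
    apply Subtype.ext
    apply hU.mul_right_cancel
    rw [Matrix.SpecialLinearGroup.coe_neg, neg_mul, hu]
    exact hc

theorem xfh_comm {a b u : GQ q} (hb : b = u ∨ b = -u)
    (h : a * b * a⁻¹ * b⁻¹ = 1 ∨ a * b * a⁻¹ * b⁻¹ = -1) : a * u = u * a ∨ a * u = -(u * a) := by
  have e : a * b = (a * b * a⁻¹ * b⁻¹) * (b * a) := by group
  have h' : a * b = b * a ∨ a * b = -(b * a) := by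
    rcases h with h | h
    · left
      rw [e, h, one_mul]
    · right
      rw [e, h, neg_mul, one_mul]
  rcases hb with rfl | rfl
  · exact h'
  · rw [mul_neg, neg_mul, neg_inj, neg_inj] at h'
    exact h'

theorem xfh_pm_mul {a b : GQ q} (hb : a⁻¹ * b = 1 ∨ a⁻¹ * b = -1) : b = a ∨ b = -a := by
  have e : b = a * (a⁻¹ * b) := by group
  rcases hb with h | h
  · left
    rw [e, h, mul_one]
  · right
    rw [e, h, mul_neg, mul_one]

/-- Pairs of coordinates of elements supported at one place of `J`. -/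
def xfhG (H : Subgroup (ι → GQ q)) (J : Finset ι) (k l : ι) : Subgroup (GQ q × GQ q) where
  carrier := {p | ∃ g ∈ H, g k = p.1 ∧ (∀ j ∈ J, j ≠ k → g j = 1) ∧ g l = p.2}
  one_mem' := ⟨1, H.one_mem, rfl, fun _ _ _ => rfl, rfl⟩
  mul_mem' := by
    rintro p p' ⟨g, hg, a, b, c⟩ ⟨g', hg', a', b', c'⟩
    refine ⟨g * g', H.mul_mem hg hg', ?_, ?_, ?_⟩
    · rw [Pi.mul_apply, a, a', Prod.fst_mul]
    · intro j hj hjk
      rw [Pi.mul_apply, b j hj hjk, b' j hj hjk, mul_one]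
    · rw [Pi.mul_apply, c, c', Prod.snd_mul]
  inv_mem' := by
    rintro p ⟨g, hg, a, b, c⟩
    refine ⟨g⁻¹, H.inv_mem hg, ?_, ?_, ?_⟩
    · rw [Pi.inv_apply, a, Prod.fst_inv]
    · intro j hj hjk
      rw [Pi.inv_apply, b j hj hjk, inv_one]
    · rw [Pi.inv_apply, c, Prod.snd_inv]

omit [Fintype ι] in
theorem xfh_single {H : Subgroup (ι → GQ q)} {J : Finset ι}
    (h1 : ∀ w : ι → GQ q, ∃ g ∈ H, ∀ k ∈ J, g k = w k) {k : ι} (hk : k ∈ J) (w : GQ q) :
    ∃ g ∈ H, g k = w ∧ ∀ j ∈ J, j ≠ k → g j = 1 := by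
  obtain ⟨g, hg, hw⟩ := h1 (fun j => if j = k then w else 1)
  refine ⟨g, hg, ?_, ?_⟩
  · rw [hw k hk, if_pos rfl]
  · intro j hj hjk
    rw [hw j hj, if_neg hjk]

omit [Fintype ι] in
theorem xfh_central {H : Subgroup (ι → GQ q)} {J : Finset ι} {l : ι}
    (h1 : ∀ w : ι → GQ q, ∃ g ∈ H, ∀ k ∈ J, g k = w k)
    (h3 : ∀ g ∈ H, (∀ k ∈ J, g k = 1) → g l = 1 ∨ g l = -1) (T : Finset ι) :
    (∀ k ∈ T, k ∈ J) →
      (∀ k ∈ T, ∀ g ∈ H, (∀ j ∈ J, j ≠ k → g j = 1) → g l = 1 ∨ g l = -1) →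
        ∀ g ∈ H, (∀ j ∈ J, j ∉ T → g j = 1) → g l = 1 ∨ g l = -1 := by
  induction T using Finset.induction_on with
  | empty => exact fun _ _ g hg h => h3 g hg fun k hk => h k hk (Finset.notMem_empty k)
  | insert k T _ ih =>
    intro hT hc g hg hgT
    obtain ⟨g1, hg1, e1, e2⟩ := xfh_single h1 (hT k (mem_insert_self k T)) (g k)
    have a := hc k (mem_insert_self k T) g1 hg1 e2
    have b := ih (fun j hj => hT j (mem_insert_of_mem hj))
      (fun j hj => hc j (mem_insert_of_mem hj)) (g1⁻¹ * g) (H.mul_mem (H.inv_mem hg1) hg) (by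
        intro j hj hjT
        rw [Pi.mul_apply, Pi.inv_apply]
        by_cases hjk : j = k
        · rw [hjk, e1, inv_mul_cancel]
        · rw [e2 j hj hjk, hgT j hj (by simp [hjk, hjT]), inv_one, mul_one])
    rw [Pi.mul_apply, Pi.inv_apply] at b
    rcases xfh_pm_mul b with c | c <;> rcases a with a | a <;> rw [c, a] <;> simp

theorem goursat (hq : 5 < q) (H : Subgroup (ι → GQ q)) (J : Finset ι) (l : ι)
    (h1 : ∀ w : ι → GQ q, ∃ g ∈ H, ∀ k ∈ J, g k = w k) (h2 : ∀ w, ∃ g ∈ H, g l = w)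
    (h3 : ∀ g ∈ H, (∀ k ∈ J, g k = 1) → g l = 1 ∨ g l = -1) :
    ∃ k ∈ J, ∃ X : MQ q, X.det ≠ 0 ∧ ∀ g ∈ H, Cj X (g k) (g l) := by
  have hex : ∃ k ∈ J, ∃ X : MQ q, X.det ≠ 0 ∧
      ∀ g ∈ H, (∀ j ∈ J, j ≠ k → g j = 1) → Cj X (g k) (g l) := by
    by_contra hne
    have hall : ∀ k ∈ J, ∀ g ∈ H, (∀ j ∈ J, j ≠ k → g j = 1) → g l = 1 ∨ g l = -1 := by
      intro k hk
      rcases braid hq (xfhG H J k l) (by
          intro w
          obtain ⟨g, hg, e1, e2⟩ := xfh_single h1 hk w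
          exact ⟨g l, g, hg, e1, e2, rfl⟩) (by
          rintro h ⟨g, hg, e1, e2, e3⟩
          have e3' : g l = h := e3
          rw [← e3']
          refine h3 g hg fun j hj => ?_
          by_cases hjk : j = k
          · rw [hjk]
            exact e1
          · exact e2 j hj hjk) with hc | ⟨X, hX, hc⟩
      · exact fun g hg e => hc (g k, g l) ⟨g, hg, rfl, e, rfl⟩
      · exact absurd ⟨k, hk, X, hX, fun g hg e => hc (g k, g l) ⟨g, hg, rfl, e, rfl⟩⟩ hne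
    obtain ⟨g, hg, e⟩ := h2 (uU 1)
    have := xfh_central h1 h3 J (fun _ h => h) hall g hg fun j hj hj' => absurd hj hj'
    rw [e] at this
    exact this.elim (uU_ne hq).1 (uU_ne hq).2
  obtain ⟨k, hk, X, hX, hc⟩ := hex
  have hoth : ∀ k' ∈ J.erase k, ∀ g ∈ H, (∀ j ∈ J, j ≠ k' → g j = 1) → g l = 1 ∨ g l = -1 := by
    intro k' hk' g' hg' e'
    have key : ∀ u : GQ q, g' l * u = u * g' l ∨ g' l * u = -(u * g' l) := by
      intro u
      obtain ⟨w, hw⟩ := Cj.surj hX u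
      obtain ⟨g, hg, e1, e2⟩ := xfh_single h1 hk w
      have c := hc g hg e2
      rw [e1] at c
      refine xfh_comm (xfh_cj_uniq hX c hw) ?_
      refine h3 (g' * g * g'⁻¹ * g⁻¹)
        (H.mul_mem (H.mul_mem (H.mul_mem hg' hg) (H.inv_mem hg')) (H.inv_mem hg)) fun j hj => ?_
      simp only [Pi.mul_apply, Pi.inv_apply]
      by_cases hjk : j = k'
      · rw [e2 j hj (hjk ▸ (mem_erase.1 hk').1)]
        group
      · rw [e' j hj hjk]
        group
    exact centre_pm hq (key _) (key _)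
  refine ⟨k, hk, X, hX, fun g hg => ?_⟩
  obtain ⟨g1, hg1, e1, e2⟩ := xfh_single h1 hk (g k)
  have b := xfh_central h1 h3 (J.erase k) (fun _ h => mem_of_mem_erase h) hoth (g1⁻¹ * g)
    (H.mul_mem (H.inv_mem hg1) hg) (by
      intro j hj hjT
      have hjk : j = k := by
        by_contra hjk
        exact hjT (mem_erase.2 ⟨hjk, hj⟩)
      rw [Pi.mul_apply, Pi.inv_apply, hjk, e1, inv_mul_cancel])
  rw [Pi.mul_apply, Pi.inv_apply] at b
  have c := hc g1 hg1 e2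
  rw [e1] at c
  exact xfh_cj_pm c (xfh_pm_mul b)

theorem xfh_list {S : Finset (ι → GQ q)} (hs : S⁻¹ = S) (h1 : 1 ∈ S)
    (h3 : ∀ k w, ∃ s ∈ S ^ 3, s k = w) {J : Finset ι} {l : ι} {m : ℕ} {h : ι → GQ q}
    (hm : h ∈ S ^ m) (hJ : ∀ k ∈ J, h k = 1) (L : List (GQ q × Bool)) :
    ∃ u ∈ S ^ (L.length * (m + 6)), (∀ k ∈ J, u k = 1) ∧
      u l = (L.map fun p => p.1 * (if p.2 then h l else (h l)⁻¹) * p.1⁻¹).prod := by
  induction L with
  | nil => exact ⟨1, Finset.one_mem_pow h1, fun _ _ => rfl, by simp⟩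
  | cons p L ih =>
    obtain ⟨u, hu, a, b⟩ := ih
    obtain ⟨t, ht, e⟩ := h3 l p.1
    have hh : (if p.2 then h else h⁻¹) ∈ S ^ m := by
      split_ifs
      · exact hm
      · exact xfh_inv_mem hs hm
    refine ⟨t * (if p.2 then h else h⁻¹) * t⁻¹ * u, ?_, ?_, ?_⟩
    · have := xfh_mul_mem (xfh_mul_mem (xfh_mul_mem ht hh) (xfh_inv_mem hs ht)) hu
      refine xfh_mono h1 (le_of_eq ?_) this
      rw [List.length_cons]
      ring
    · intro k hk
      simp only [Pi.mul_apply, Pi.inv_apply]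
      rw [a k hk]
      split_ifs
      · rw [hJ k hk]
        group
      · rw [Pi.inv_apply, hJ k hk]
        group
    · simp only [Pi.mul_apply, Pi.inv_apply, List.map_cons, List.prod_cons]
      rw [b, e]
      split_ifs
      · rfl
      · rfl

theorem agour_step (hq : 5 < q) {S : Finset (ι → GQ q)} (h1 : 1 ∈ S) (hs : S⁻¹ = S)
    (h3 : ∀ k w, ∃ s ∈ S ^ 3, s k = w) {J : Finset ι} {l : ι} (hl : l ∉ J) {r : ℕ} (hr : 3 ≤ r)
    (h : ∀ w : ι → GQ q, ∃ s ∈ S ^ r, ∀ k ∈ J, s k = w k) :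
    (∀ w : ι → GQ q, ∃ s ∈ S ^ (r + 16 * (3 * r + 6)), ∀ k ∈ insert l J, s k = w k) ∨
      ∃ k ∈ J, ∃ X : MQ q, X.det ≠ 0 ∧ ∀ s ∈ S, Cj X (s k) (s l) := by
  by_cases hc : ∀ g ∈ S ^ (3 * r), (∀ k ∈ J, g k = 1) → g l = 1 ∨ g l = -1
  · right
    let H : Subgroup (ι → GQ q) :=
      { carrier := {g | ∃ s ∈ S ^ r, (∀ k ∈ J, g k = s k) ∧ (g l = s l ∨ g l = -s l)}
        one_mem' := ⟨1, Finset.one_mem_pow h1, fun _ _ => rfl, Or.inl rfl⟩
        mul_mem' := by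
          rintro g g' ⟨s, hs1, a, b⟩ ⟨s', hs2, a', b'⟩
          obtain ⟨t, ht, c⟩ := h (s * s')
          have hm : t⁻¹ * (s * s') ∈ S ^ (3 * r) :=
            xfh_mono h1 (by omega) (xfh_mul_mem (xfh_inv_mem hs ht) (xfh_mul_mem hs1 hs2))
          have d := hc _ hm (by
            intro k hk
            rw [Pi.mul_apply, Pi.inv_apply, c k hk, inv_mul_cancel])
          rw [Pi.mul_apply, Pi.inv_apply, Pi.mul_apply] at d
          refine ⟨t, ht, fun k hk => ?_, ?_⟩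
          · rw [c k hk, Pi.mul_apply, Pi.mul_apply, a k hk, a' k hk]
          · rw [Pi.mul_apply]
            rcases xfh_pm_mul d with d | d <;> rcases b with b | b <;> rcases b' with b' | b' <;>
              rw [b, b'] <;> simp [d]
        inv_mem' := by
          rintro g ⟨s, hs1, a, b⟩
          refine ⟨s⁻¹, xfh_inv_mem hs hs1, fun k hk => ?_, ?_⟩
          · rw [Pi.inv_apply, Pi.inv_apply, a k hk]
          · rw [Pi.inv_apply, Pi.inv_apply]
            rcases b with b | b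
            · left
              rw [b]
            · right
              rw [b, xfh_neg_inv] }
    have hH : ∀ s ∈ S ^ r, s ∈ H := fun s hs1 => ⟨s, hs1, fun _ _ => rfl, Or.inl rfl⟩
    obtain ⟨k, hk, X, hX, e⟩ := goursat hq H J l (by
        intro w
        obtain ⟨s, hs1, a⟩ := h w
        exact ⟨s, hH s hs1, a⟩) (by
        intro w
        obtain ⟨s, hs1, a⟩ := h3 l w
        exact ⟨s, hH s (xfh_mono h1 hr hs1), a⟩) (by
        rintro g ⟨s, hs1, a, b⟩ hg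
        have d := hc s (xfh_mono h1 (by omega) hs1) fun k hk => (a k hk).symm.trans (hg k hk)
        rcases b with b | b <;> rcases d with d | d <;> rw [b, d] <;> simp)
    refine ⟨k, hk, X, hX, fun s hs1 => e s (hH s (xfh_mono h1 (m := 1) (by omega) ?_))⟩
    rw [pow_one]
    exact hs1
  · left
    intro w
    simp only [not_forall, not_or] at hc
    obtain ⟨g, hg, hgJ, g1, g2⟩ := hc
    obtain ⟨s, hs1, a⟩ := h w
    obtain ⟨L, hL, e⟩ := conj_sixteen hq g1 g2 ((s l)⁻¹ * w l)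
    obtain ⟨u, hu, b, c⟩ := xfh_list (l := l) hs h1 h3 hg hgJ L
    have hle : L.length * (3 * r + 6) ≤ 16 * (3 * r + 6) := Nat.mul_le_mul_right _ hL
    generalize 16 * (3 * r + 6) = n at hle
    refine ⟨s * u, xfh_mul_mem hs1 (xfh_mono h1 hle hu), fun k hk => ?_⟩
    rw [Pi.mul_apply]
    rcases mem_insert.1 hk with rfl | hk
    · rw [c, ← e, mul_inv_cancel_left]
    · rw [b k hk, mul_one, a k hk]

theorem agour (ι : Type) [Fintype ι] : ∃ r : ℕ, ∀ (q : ℕ) [Fact q.Prime], 5 < q →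
    ∀ S : Finset (ι → GQ q), 1 ∈ S → S⁻¹ = S → (∀ k w, ∃ s ∈ S ^ 3, s k = w) →
      S ^ r = univ ∨ ∃ k l, k ≠ l ∧ ∃ X : MQ q, X.det ≠ 0 ∧ ∀ s ∈ S, Cj X (s k) (s l) := by
  have key : ∀ J : Finset ι, ∃ r : ℕ, 3 ≤ r ∧ ∀ (q : ℕ) [Fact q.Prime], 5 < q →
      ∀ S : Finset (ι → GQ q), 1 ∈ S → S⁻¹ = S → (∀ k w, ∃ s ∈ S ^ 3, s k = w) →
        (∀ w : ι → GQ q, ∃ s ∈ S ^ r, ∀ k ∈ J, s k = w k) ∨
          ∃ k l, k ≠ l ∧ ∃ X : MQ q, X.det ≠ 0 ∧ ∀ s ∈ S, Cj X (s k) (s l) := by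
    intro J
    induction J using Finset.induction_on with
    | empty =>
      exact ⟨3, le_rfl, fun q _ _ S h1 _ _ => Or.inl fun _ =>
        ⟨1, Finset.one_mem_pow h1, fun k hk => absurd hk (Finset.notMem_empty k)⟩⟩
    | insert l J hl ih =>
      obtain ⟨r, hr, ih⟩ := ih
      refine ⟨r + 16 * (3 * r + 6), by omega, fun q _ hq S h1 hs h3 => ?_⟩
      rcases ih q hq S h1 hs h3 with h | h
      · rcases agour_step hq h1 hs h3 hl hr h with h' | ⟨k, hk, h'⟩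
        · exact Or.inl h'
        · exact Or.inr ⟨k, l, fun e => hl (e ▸ hk), h'⟩
      · exact Or.inr h
  obtain ⟨r, -, h⟩ := key univ
  refine ⟨r, fun q _ hq S h1 hs h3 => (h q hq S h1 hs h3).imp_left fun h' => ?_⟩
  refine Finset.eq_univ_iff_forall.2 fun w => ?_
  obtain ⟨s, hs1, e⟩ := h' w
  have : s = w := funext fun k => e k (mem_univ k)
  exact this ▸ hs1

end Pool.Agent.EQ
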