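import Pool.Agent.P.MP_ad7a55_nt.XFd
import Pool.Agent.P.MP_ad7a55_nt.XFe
import Pool.Agent.P.MP_ad7a55_nt.XFh

/-! Measures on powers of SL(2) without spectral gap live on graphs. -/

set_option autoImplicit false

noncomputable section

open Finset
open scoped Pointwise MatrixGroups Classical

namespace Pool.Agent.EQ

theorem xfj_struct {G : Type} [Group G] [Fintype G] [inst : DecidableEq G] {ν : G → ℝ}
    (h0 : ∀ g, 0 ≤ ν g) (h1 : ∑ g, ν g ≤ 1) (hs : ∀ g, ν g⁻¹ = ν g) {K : ℝ}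
    (hK : 1 ≤ K) (hn : 0 < n2 ν) (h : n2 ν ≤ K * n2 (cv ν ν)) :
    ∃ (S : Finset G) (b : G), 1 ∈ S ∧ S⁻¹ = S ∧ 1 ≤ (64 * K) ^ 63 * ∑ x with x * b⁻¹ ∈ S, ν x ∧
      ∀ r : ℕ, #(S ^ r) * n2 ν ≤ (64 * K) ^ (103 * r + 52) := by
  obtain rfl : inst = fun a b => Classical.propDecidable (a = b) := Subsingleton.elim _ _
  exact struct h0 h1 hs hK hn h

theorem xfj_alg {q : ℕ} [Fact q.Prime] {a g b a' g' b' : GQ q} {X Z : MQ q}
    (h : ((a * g * b⁻¹ : GQ q) : MQ q) * X = Z * ((a' * g' * b'⁻¹ : GQ q) : MQ q)) :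
    (g : MQ q) * (((b⁻¹ : GQ q) : MQ q) * X * (b' : MQ q)) =
      ((a⁻¹ : GQ q) : MQ q) * Z * (a' : MQ q) * (g' : MQ q) := by
  have e1 : ((a⁻¹ : GQ q) : MQ q) * ((a * g * b⁻¹ : GQ q) : MQ q) =
      (g : MQ q) * ((b⁻¹ : GQ q) : MQ q) := by
    rw [← Matrix.SpecialLinearGroup.coe_mul, ← Matrix.SpecialLinearGroup.coe_mul,
      show a⁻¹ * (a * g * b⁻¹) = g * b⁻¹ by group]
  have e2 : ((a' * g' * b'⁻¹ : GQ q) : MQ q) * (b' : MQ q) = (a' : MQ q) * (g' : MQ q) := by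
    rw [← Matrix.SpecialLinearGroup.coe_mul, ← Matrix.SpecialLinearGroup.coe_mul,
      show a' * g' * b'⁻¹ * b' = a' * g' by group]
  calc _ = (g : MQ q) * ((b⁻¹ : GQ q) : MQ q) * X * (b' : MQ q) := by simp only [Matrix.mul_assoc]
    _ = ((a⁻¹ : GQ q) : MQ q) * (((a * g * b⁻¹ : GQ q) : MQ q) * X) * (b' : MQ q) := by
        rw [← e1, Matrix.mul_assoc _ _ X]
    _ = ((a⁻¹ : GQ q) : MQ q) * Z * (((a' * g' * b'⁻¹ : GQ q) : MQ q) * (b' : MQ q)) := by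
        rw [h]
        simp only [Matrix.mul_assoc]
    _ = _ := by rw [e2, ← Matrix.mul_assoc]

theorem xfj_two {α : Type} [Fintype α] {ρ : α → ℝ} (h0 : ∀ g, 0 ≤ ρ g) {A B C : α → Prop}
    {_ : DecidablePred A} {_ : DecidablePred B} {_ : DecidablePred C}
    (h : ∀ g, A g → B g ∨ C g) :
    ∑ g with A g, ρ g ≤ ∑ g with B g, ρ g + ∑ g with C g, ρ g := by
  rw [sum_filter, sum_filter, sum_filter, ← sum_add_distrib]
  refine sum_le_sum fun g _ => ?_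
  have := h0 g
  by_cases hA : A g
  · rcases h g hA with hB | hC
    · rw [if_pos hA, if_pos hB]
      split_ifs <;> linarith
    · rw [if_pos hA, if_pos hC]
      split_ifs <;> linarith
  · rw [if_neg hA]
    split_ifs <;> linarith

theorem xfj_mono {α : Type} [Fintype α] {ρ : α → ℝ} (h0 : ∀ g, 0 ≤ ρ g) {A B : α → Prop}
    {_ : DecidablePred A} {_ : DecidablePred B} (h : ∀ g, A g → B g) :
    ∑ g with A g, ρ g ≤ ∑ g with B g, ρ g :=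
  sum_le_sum_of_subset_of_nonneg (fun g hg => mem_filter.2 ⟨mem_univ _, h g (mem_filter.1 hg).2⟩)
    fun g _ _ => h0 g

theorem xfj_fib {α β : Type} [Fintype α] {ρ : α → ℝ} (h0 : ∀ g, 0 ≤ ρ g) {A : α → Prop}
    [DecidablePred A] (π : α → β) (T : Finset β) (h : ∀ g, A g → π g ∈ T) {s : ℝ}
    (hs : ∀ t, ∑ g with π g = t, ρ g ≤ s) : ∑ g with A g, ρ g ≤ #T * s := by
  rw [← sum_fiberwise_of_maps_to (t := T) (g := π) fun g hg => h g (mem_filter.1 hg).2,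
    ← nsmul_eq_mul]
  refine sum_le_card_nsmul _ _ _ fun t _ => le_trans ?_ (hs t)
  exact sum_le_sum_of_subset_of_nonneg
    (fun g hg => mem_filter.2 ⟨mem_univ _, (mem_filter.1 hg).2⟩) fun g _ _ => h0 g

theorem xfj_par (m r : ℕ) {e : ℝ} (he : 0 < e) : ∃ (κ c : ℝ) (I q₀ : ℕ), 0 < c ∧
    κ * (103 * r + 52 : ℕ) ≤ 1 / 8 ∧ κ * (63 : ℕ) ≤ 1 / 8 ∧ κ * (63 : ℕ) ≤ e / 2 ∧
    (3 * m : ℕ) + 1 ≤ κ / 2 * I ∧ c * (2 ^ (I + 1) : ℕ) = 1 / 16 ∧ ∀ q : ℕ, q₀ ≤ q → 5 < q ∧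
      64 ≤ (q : ℝ) ^ (κ / 2) ∧ 3 ≤ (q : ℝ) ^ (e / 2) ∧ 4 ≤ (q : ℝ) ^ (1 / 2 : ℝ) := by
  have hr : (0 : ℝ) ≤ r := Nat.cast_nonneg r
  obtain ⟨κ, k0, k1, k2⟩ : ∃ κ : ℝ, 0 < κ ∧ κ * (103 * r + 63) ≤ 1 / 8 ∧ κ * 63 ≤ e / 2 := by
    refine ⟨min (1 / 8 / (103 * r + 63)) (e / 126), by positivity, ?_, ?_⟩
    · exact (le_div_iff₀ (by positivity)).1 (min_le_left _ _)
    · linarith [min_le_right (1 / 8 / (103 * r + 63) : ℝ) (e / 126)]
  have t : ∀ y : ℝ, 0 < y → ∀ b : ℝ, ∀ᶠ q : ℕ in Filter.atTop, b ≤ (q : ℝ) ^ y := fun y hy b =>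
    ((tendsto_rpow_atTop hy).comp tendsto_natCast_atTop_atTop).eventually_ge_atTop b
  obtain ⟨q₀, hq⟩ := Filter.eventually_atTop.1 ((Filter.eventually_gt_atTop 5).and
    ((t _ (half_pos k0) 64).and ((t _ (half_pos he) 3).and (t (1 / 2) (by norm_num) 4))))
  obtain ⟨I, hI⟩ := exists_nat_ge ((((3 * m : ℕ) : ℝ) + 1) / (κ / 2))
  refine ⟨κ, 1 / 16 / (2 ^ (I + 1) : ℕ), I, q₀, by positivity, ?_, ?_, ?_, ?_,
    div_mul_cancel₀ _ (by positivity), hq⟩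
  · push_cast
    nlinarith
  · push_cast
    nlinarith
  · exact_mod_cast k2
  · rw [div_le_iff₀ (half_pos k0)] at hI
    linarith

theorem group_lemma (ι : Type) [Fintype ι] {e : ℝ} (he : 0 < e) : ∃ (c : ℝ) (q₀ : ℕ), 0 < c ∧
    ∀ (q : ℕ) [Fact q.Prime], q₀ ≤ q → ∀ (Y : Type) [Fintype Y] [Nonempty Y]
      [MulAction (ι → GQ q) Y] [MulAction.IsPretransitive (ι → GQ q) Y] (ρ : (ι → GQ q) → ℝ)
      (f f' : Y → ℝ), (∀ g, 0 ≤ ρ g) → ∑ g, ρ g ≤ 1 →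
      (∀ k w, ∑ g with g k = w, ρ g ≤ (q : ℝ) ^ (c - 3)) → (∀ y, 0 ≤ f y) → n2 f ≤ 1 → n2 f' ≤ 1 →
      (∑ y, f y) ^ 2 ≤ (q : ℝ) ^ (-(1 / 2 : ℝ)) * Fintype.card Y → (q : ℝ) ^ (-c) ≤ cor ρ f f' →
      ∃ k l, k ≠ l ∧ ∃ X X' : MQ q, X.det ≠ 0 ∧
        (q : ℝ) ^ (-e) ≤ ∑ g with (g l : MQ q) * X = X' * (g k : MQ q), ρ g := by
  obtain ⟨r, hr⟩ := agour ι
  obtain ⟨κ, c, I, q₀, c0, k1, k2, k3, k4, hc, hq⟩ := xfj_par (Fintype.card ι) r he
  refine ⟨c, q₀, c0, ?_⟩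
  intro q _ hq0 Y _ _ _ _ ρ f f' h0 h1 hk hf0 hf hf' hs hcor
  obtain ⟨q5, q1, q2, q3⟩ := hq q hq0
  have Q1 : (1 : ℝ) < q := by exact_mod_cast (by omega : 1 < q)
  have Q0 : (0 : ℝ) < q := by linarith
  have pw : ∀ y : ℝ, 0 < (q : ℝ) ^ y := fun y => Real.rpow_pos_of_pos Q0 y
  have mono : ∀ {y z : ℝ}, y ≤ z → (q : ℝ) ^ y ≤ (q : ℝ) ^ z := fun h =>
    Real.rpow_le_rpow_of_exponent_le Q1.le h
  have c16 : ∀ j, j ≤ I + 1 → c * (2 ^ j : ℕ) ≤ 1 / 16 := fun j hj => by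
    rw [← hc]
    exact mul_le_mul_of_nonneg_left
      (by exact_mod_cast Nat.pow_le_pow_right (by norm_num) hj) c0.le
  have hlow : ∀ i, i ≤ I → (q : ℝ) ^ (-(1 / 16) : ℝ) ≤ cor (cit ρ i) f f := fun i hi => by
    refine le_trans ?_ ((pow_le_pow_left₀ (pw _).le hcor _).trans (cor_cit hf hf' ρ i))
    rw [← Real.rpow_mul_natCast Q0.le]
    exact mono (by linarith [c16 (i + 1) (by omega)])
  set K : ℝ := (q : ℝ) ^ κ / 64 with hK
  have K1 : (q : ℝ) ^ (κ / 2) ≤ K := by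
    have e1 : (q : ℝ) ^ κ = (q : ℝ) ^ (κ / 2) * (q : ℝ) ^ (κ / 2) := by
      rw [← Real.rpow_add Q0, add_halves]
    rw [hK, e1, le_div_iff₀ (by norm_num)]
    exact mul_le_mul_of_nonneg_left q1 (pw _).le
  have K2 : ∀ n : ℕ, (64 * K) ^ n = (q : ℝ) ^ (κ * n) := fun n => by
    rw [Real.rpow_mul_natCast Q0.le, hK, mul_div_cancel₀ _ (by norm_num)]
  have hG : (Fintype.card (ι → GQ q) : ℝ) ≤ (q : ℝ) ^ ((3 * Fintype.card ι : ℕ) : ℝ) := by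
    rw [Real.rpow_natCast, Fintype.card_fun, pow_mul]
    exact_mod_cast Nat.pow_le_pow_left card_GQ _
  obtain ⟨i, hi, n0, hn⟩ := flat h0 h1 (K := K) (by linarith) (pw (-(1 / 16))) I
    ((hlow I le_rfl).trans (cor_le_sum (cit_nonneg h0 I) hf)) (by
      refine hG.trans_lt (lt_of_lt_of_le ?_ (mul_le_mul_of_nonneg_right
        (pow_le_pow_left₀ (pw _).le K1 I) (sq_nonneg _)))
      rw [← Real.rpow_mul_natCast Q0.le, ← Real.rpow_mul_natCast Q0.le, ← Real.rpow_add Q0]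
      refine Real.rpow_lt_rpow_of_exponent_lt Q1 ?_
      push_cast at k4 ⊢
      linarith)
  obtain ⟨S, b, s1, s2, s3, s4⟩ := xfj_struct (cit_nonneg h0 i) (cit_sum h0 h1 i) (cit_symm ρ i)
    (K := K) (by linarith) n0 hn
  rw [K2] at s3
  have hT : ∀ k w, ∃ s ∈ S ^ 3, s k = w := by
    intro k w
    have a1 := xfj_fib (cit_nonneg h0 i) (A := fun x => x * b⁻¹ ∈ S) (fun x => (x * b⁻¹) k)
      (S.image fun x => x k) (fun g hg => mem_image_of_mem _ hg) (s := (q : ℝ) ^ (c - 3)) fun t =>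
        (xfj_mono (cit_nonneg h0 i) fun _ h => h).trans
          (cit_set h0 h1 (fun x => (x * b⁻¹) k = t) (fun w =>
            (xfj_mono h0 (B := fun g => g k = (w k)⁻¹ * t * b k) fun g hg => by
              rw [← hg, Pi.mul_apply, Pi.mul_apply, Pi.inv_apply]
              group).trans (hk k _)) i)
    have a2 : (q : ℝ) ^ (17 / 6 : ℝ) ≤ #(S.image fun x => x k) := by
      have a3 := s3.trans (mul_le_mul_of_nonneg_left a1 (pw _).le)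
      have a4 : (q : ℝ) ^ (κ * (63 : ℕ)) * (q : ℝ) ^ (c - 3) * (q : ℝ) ^ (17 / 6 : ℝ) ≤ 1 := by
        rw [← Real.rpow_add Q0, ← Real.rpow_add Q0, ← Real.rpow_zero q]
        have := c16 1 (by omega)
        push_cast at this
        exact mono (by linarith)
      have a5 := mul_le_mul_of_nonneg_right a3 (pw (17 / 6)).le
      have a6 := mul_le_mul_of_nonneg_left a4
        (Nat.cast_nonneg (α := ℝ) #(S.image fun x => x k))
      linarith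
    obtain ⟨_, ha, _, hb, _, hc', rfl⟩ := gowers q5 (S.image fun x => x k) (by
      refine lt_of_lt_of_le ?_ (pow_le_pow_left₀ (pw _).le a2 3)
      rw [← Real.rpow_mul_natCast Q0.le,
        show (17 / 6 : ℝ) * (3 : ℕ) = 1 / 2 + (8 : ℕ) by norm_num, Real.rpow_add Q0,
        Real.rpow_natCast]
      exact mul_lt_mul_of_pos_right (by linarith) (pow_pos Q0 _)) w
    obtain ⟨x, hx, rfl⟩ := mem_image.1 ha
    obtain ⟨y, hy, rfl⟩ := mem_image.1 hb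
    obtain ⟨z, hz, rfl⟩ := mem_image.1 hc'
    exact ⟨x * y * z, by rw [pow_three']; exact mul_mem_mul (mul_mem_mul hx hy) hz, rfl⟩
  rcases hr q q5 S s1 s2 hT with hu | ⟨k, l, hkl, X, hX, hS⟩
  · exfalso
    have a1 := s4 r
    rw [hu, card_univ, K2] at a1
    have a2 := cor_le_sup (Y := Y) hf0 (cit_le ρ i) (cit_nonneg h0 (i + 1))
    have a3 : (∑ y, f y) ^ 2 / Fintype.card Y ≤ (q : ℝ) ^ (-(1 / 2 : ℝ)) :=
      (div_le_iff₀ (by exact_mod_cast Fintype.card_pos)).2 hs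
    have a4 := (hlow (i + 1) hi).trans (a2.trans (mul_le_mul ((mul_comm _ _).trans_le
      (a1.trans (mono k1))) a3 (by positivity) (pw _).le))
    rw [← Real.rpow_add Q0] at a4
    exact absurd a4 (Real.rpow_lt_rpow_of_exponent_lt Q1 (by norm_num)).not_ge
  · by_contra hcon
    push Not at hcon
    have hd : ((((b l)⁻¹ : GQ q) : MQ q) * X * (b k : MQ q)).det ≠ 0 := by
      rw [Matrix.det_mul, Matrix.det_mul, Matrix.SpecialLinearGroup.det_coe,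
        Matrix.SpecialLinearGroup.det_coe, one_mul, mul_one]
      exact hX
    have a1 := cit_set h0 h1 (fun g => Cj X ((g * b⁻¹) k) ((g * b⁻¹) l))
      (s := (q : ℝ) ^ (-e) + (q : ℝ) ^ (-e)) (fun w =>
        (xfj_two h0 fun g hg => hg.imp (fun h => xfj_alg h)
          fun h => xfj_alg (h.trans (neg_mul _ _).symm)).trans
          (add_le_add (hcon k l hkl _ _ hd).le (hcon k l hkl _ _ hd).le)) i
    have a2 := s3.trans (mul_le_mul (mono k3)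
      ((xfj_mono (cit_nonneg h0 i) fun g hg => hS _ hg).trans a1)
      (sum_nonneg fun g _ => cit_nonneg h0 i g) (pw _).le)
    have a3 : (q : ℝ) ^ (e / 2) * ((q : ℝ) ^ (e / 2) * (q : ℝ) ^ (-e)) = 1 := by
      rw [← Real.rpow_add Q0, ← Real.rpow_add Q0, show e / 2 + (e / 2 + -e) = 0 by ring,
        Real.rpow_zero]
    have a4 := mul_le_mul_of_nonneg_right q2 (mul_pos (pw (e / 2)) (pw (-e))).le
    linarith

end Pool.Agent.EQ
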