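import Pool.Agent.P.MP_ad7a55_nt.XGa
import Pool.Agent.P.MP_ad7a55_nt.XFj

/-! The group lemma for integral matrices and lines. -/

set_option autoImplicit false

noncomputable section

open Finset Matrix
open scoped MatrixGroups Classical

namespace Pool.Agent.EQ

/-- The group lemma with exponents `c`, `e` holds for the primes from `q₀` on. -/
def GLP (ι : Type) [Fintype ι] (c e : ℝ) (q₀ : ℕ) : Prop :=
  ∀ q : ℕ, q.Prime → q₀ ≤ q → ∀ (W : Type) (V : Finset W) (η : W → ι → M2) (n : W → ℤ)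
    (μ μ' : (ι → Set V2) → ℝ) (Y : W → Finset (ι → Set V2)) (s₀ : ℝ), V.Nonempty →
    (∀ w ∈ V, ¬ (q : ℤ) ∣ n w ∧ ∀ k, (η w k).det = n w) → (∀ y, 0 ≤ μ y ∧ 0 ≤ μ' y) →
    ∑ y ∈ Fintype.piFinset fun _ : ι => Xn q, μ y ≤ 1 →
    ∑ y ∈ Fintype.piFinset fun _ : ι => Xn q, μ' y ≤ 1 → 0 < s₀ →
    Real.sqrt q ≤ s₀ * (q : ℝ) ^ Fintype.card ι →
    (∀ w ∈ V, ∀ y ∈ Y w, (y ∈ Fintype.piFinset fun _ : ι => Xn q) ∧ s₀ ≤ μ y ∧
      (q : ℝ) ^ (-c) * μ y ≤ μ' fun k => {v | (η w k).adjugate *ᵥ v ∈ y k}) →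
    (q : ℝ) ^ (-(c / 4)) ≤ mn V (fun w =>
      if ∀ k, (prb V fun w' => Pj q (η w' k) = Pj q (η w k)) ≤ (q : ℝ) ^ (c - 3)
        then ∑ y ∈ Y w, μ y else 0) →
    ∃ k l, k ≠ l ∧ ∃ X X' : M2, ¬ (q : ℤ) ∣ X.det ∧
      (q : ℝ) ^ (-e) * #V ≤ #{w ∈ V | ∀ i j, (q : ℤ) ∣ (η w l * X - X' * η w k) i j}

section
variable {q : ℕ}

/-- reduction of a vector -/
def xgbV (q : ℕ) (v : V2) : Fin 2 → ZMod q := fun i => (v i : ZMod q)

/-- reduction of a matrix -/
def xgbM (q : ℕ) (A : M2) : MQ q := (Int.castRingHom (ZMod q)).mapMatrix A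

/-- pull-back of a set of vectors along a matrix modulo `q` -/
def xgbP (M : MQ q) (L : Set V2) : Set V2 := {v | ∃ w ∈ L, xgbV q w = M *ᵥ xgbV q v}

theorem xgb_Vsurj (z : Fin 2 → ZMod q) : ∃ w, xgbV q w = z := by
  choose w hw using fun i => ZMod.intCast_surjective (z i)
  exact ⟨w, funext hw⟩

theorem xgb_Msurj (Z : MQ q) : ∃ A, xgbM q A = Z := by
  choose w hw using fun i j => ZMod.intCast_surjective (Z i j)
  exact ⟨Matrix.of w, Matrix.ext hw⟩

theorem xgb_Mapp (A : M2) (i j : Fin 2) : xgbM q A i j = (A i j : ZMod q) := rfl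

theorem xgb_det (A : M2) : (xgbM q A).det = (A.det : ZMod q) :=
  ((Int.castRingHom (ZMod q)).map_det A).symm

theorem xgb_MV (A : M2) (v : V2) : xgbV q (A *ᵥ v) = xgbM q A *ᵥ xgbV q v := by
  funext i
  simp [xgbV, xgb_Mapp, Matrix.mulVec, dotProduct, Fin.sum_univ_two]

theorem xgb_Ln {u w : V2} : w ∈ Ln q u ↔
    xgbV q u 0 * xgbV q w 1 - xgbV q u 1 * xgbV q w 0 = 0 := by
  rw [xlb_mem, ← ZMod.intCast_zmod_eq_zero_iff_dvd]
  simp [xgbV]

theorem xgb_memP {M : MQ q} {u v : V2} : v ∈ xgbP M (Ln q u) ↔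
    xgbV q u 0 * (M *ᵥ xgbV q v) 1 - xgbV q u 1 * (M *ᵥ xgbV q v) 0 = 0 := by
  constructor
  · rintro ⟨w, hw, e⟩
    rw [← e]
    exact xgb_Ln.1 hw
  · intro h
    obtain ⟨w, e⟩ := xgb_Vsurj (M *ᵥ xgbV q v)
    exact ⟨w, xgb_Ln.2 (by rw [e]; exact h), e⟩

theorem xgb_PP (M N : MQ q) (L : Set V2) : xgbP M (xgbP N L) = xgbP (N * M) L := by
  ext v
  constructor
  · rintro ⟨w, ⟨z, hz, e⟩, e'⟩
    exact ⟨z, hz, by rw [e, e', Matrix.mulVec_mulVec]⟩
  · rintro ⟨z, hz, e⟩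
    obtain ⟨w, e'⟩ := xgb_Vsurj (M *ᵥ xgbV q v)
    exact ⟨w, ⟨z, hz, by rw [e, e', Matrix.mulVec_mulVec]⟩, e'⟩

theorem xgb_Pint (A : M2) {L : Set V2} (h : IsLn q L) : xgbP (xgbM q A) L = {v | A *ᵥ v ∈ L} := by
  obtain ⟨u, -, rfl⟩ := h
  ext v
  rw [xgb_memP, ← xgb_MV]
  exact xgb_Ln.symm

theorem xgb_Pone {L : Set V2} (h : IsLn q L) : xgbP (1 : MQ q) L = L := by
  have := xgb_Pint (q := q) 1 h
  rw [xgbM, map_one] at this
  simpa using this

theorem xgb_Pj {η ξ : M2} : ξ ∈ Pj q η ↔ ∃ t : ZMod q, xgbM q ξ = t • xgbM q η := by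
  have key : ∀ t : ℤ, (∀ i j, (q : ℤ) ∣ (ξ - t • η) i j) ↔ xgbM q ξ = (t : ZMod q) • xgbM q η := by
    intro t
    rw [← Matrix.ext_iff]
    refine forall₂_congr fun i j => ?_
    rw [← ZMod.intCast_zmod_eq_zero_iff_dvd, ← sub_eq_zero (a := xgbM q ξ i j),
      Matrix.sub_apply, Matrix.smul_apply, Matrix.smul_apply, smul_eq_mul, smul_eq_mul, xgb_Mapp,
      xgb_Mapp, Int.cast_sub, Int.cast_mul]
  constructor
  · rintro ⟨t, ht⟩
    exact ⟨t, (key t).1 ht⟩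
  · rintro ⟨t, ht⟩
    obtain ⟨t, rfl⟩ := ZMod.intCast_surjective t
    exact ⟨t, (key t).2 ht⟩

variable [hq : Fact q.Prime]

theorem xgb_Psmul {t : ZMod q} (ht : t ≠ 0) (M : MQ q) {L : Set V2} (h : IsLn q L) :
    xgbP (t • M) L = xgbP M L := by
  obtain ⟨u, -, rfl⟩ := h
  ext v
  rw [xgb_memP, xgb_memP, Matrix.smul_mulVec, Pi.smul_apply, Pi.smul_apply, smul_eq_mul,
    smul_eq_mul]
  refine Iff.trans (iff_of_eq (congrArg (· = 0) ?_)) (mul_eq_zero_iff_left ht)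
  ring

theorem xgb_isLn {M : MQ q} (hM : M.det ≠ 0) {L : Set V2} (h : L ∈ Xn q) : xgbP M L ∈ Xn q := by
  rw [mem_Xn hq.out.pos] at h ⊢
  obtain ⟨A, rfl⟩ := xgb_Msurj M
  rw [xgb_Pint A h]
  refine h.pull hq.out.pos ?_
  rw [xgb_det, Ne, ZMod.intCast_zmod_eq_zero_iff_dvd] at hM
  exact (((Nat.prime_iff_prime_int.1 hq.out).irreducible.coprime_iff_not_dvd).2 hM).symm

theorem xgb_Pjeq {t : ZMod q} (ht : t ≠ 0) {M : MQ q} {η : M2} (h : xgbM q η = t • M) :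
    Pj q η = {ξ | ∃ r : ZMod q, xgbM q ξ = r • M} := by
  ext ξ
  rw [xgb_Pj, h]
  constructor
  · rintro ⟨r, hr⟩
    exact ⟨r * t, by rw [hr, smul_smul]⟩
  · rintro ⟨r, hr⟩
    exact ⟨r * t⁻¹, by rw [hr, smul_smul, inv_mul_cancel_right₀ ht]⟩

/-- the action on the lines -/
@[reducible] def xgbAct (q : ℕ) [Fact q.Prime] : MulAction (GQ q) (Xn q) where
  smul g L := ⟨xgbP ((g⁻¹ : GQ q) : MQ q) L.1,
    xgb_isLn (by rw [(g⁻¹).det_coe]; exact one_ne_zero) L.2⟩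
  one_smul L := Subtype.ext (by
    change xgbP (((1 : GQ q)⁻¹ : GQ q) : MQ q) L.1 = L.1
    rw [inv_one, Matrix.SpecialLinearGroup.coe_one]
    exact xgb_Pone ((mem_Xn (Fact.out : q.Prime).pos).1 L.2))
  mul_smul g h L := Subtype.ext (by
    change xgbP (((g * h)⁻¹ : GQ q) : MQ q) L.1 =
      xgbP ((g⁻¹ : GQ q) : MQ q) (xgbP ((h⁻¹ : GQ q) : MQ q) L.1)
    rw [xgb_PP, _root_.mul_inv_rev, Matrix.SpecialLinearGroup.coe_mul])

theorem xgb_trans (L : Xn q) :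
    ∃ g : GQ q, xgbP (g : MQ q) L.1 = Ln q ![1, 0] := by
  obtain ⟨u, ⟨a, b, e⟩, hL⟩ := (mem_Xn hq.out.pos).1 L.2
  have e' : (a : ZMod q) * u 0 + b * u 1 = 1 := by exact_mod_cast congrArg (Int.cast : ℤ → ZMod q) e
  refine ⟨⟨!![(u 0 : ZMod q), -b; u 1, a], by rw [Matrix.det_fin_two_of]; linear_combination e'⟩, ?_⟩
  rw [hL]
  ext v
  rw [xgb_memP, xgb_Ln]
  refine iff_of_eq (congrArg (· = 0) ?_)
  simp [xgbV, Matrix.mulVec, dotProduct, Fin.sum_univ_two]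
  linear_combination (v 1 : ZMod q) * e'

theorem xgb_types (h2 : q ≠ 2) : ∃ E E' : Bool → MQ q, (∀ b, E b * E' b = 1 ∧ E' b * E b = 1) ∧
    ∀ n : ZMod q, n ≠ 0 → ∃ (b : Bool) (s : ZMod q), s ≠ 0 ∧ n = s ^ 2 * (E b).det := by
  obtain ⟨u, hu⟩ := FiniteField.exists_nonsquare (F := ZMod q) (by rwa [ZMod.ringChar_zmod_n])
  have u0 : u ≠ 0 := by
    rintro rfl
    exact hu IsSquare.zero
  refine ⟨fun b => if b then !![u, 0; 0, 1] else 1, fun b => if b then !![u⁻¹, 0; 0, 1] else 1,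
    fun b => ?_, fun n hn => ?_⟩
  · cases b
    · simp
    · simp [u0, Matrix.one_fin_two]
  · by_cases h : IsSquare n
    · obtain ⟨s, rfl⟩ := h
      exact ⟨false, s, left_ne_zero_of_mul hn, by simp [sq]⟩
    · have h1 : IsSquare (n * u) := by
        rw [← quadraticChar_one_iff_isSquare (mul_ne_zero hn u0), map_mul,
          quadraticChar_neg_one_iff_not_isSquare.2 h, quadraticChar_neg_one_iff_not_isSquare.2 hu]
        norm_num
      obtain ⟨s, hs⟩ := h1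
      have s0 : s ≠ 0 := left_ne_zero_of_mul (hs ▸ mul_ne_zero hn u0)
      refine ⟨true, s / u, div_ne_zero s0 u0, ?_⟩
      simp only [if_true, Matrix.det_fin_two_of]
      apply mul_right_cancel₀ u0
      rw [hs]
      field_simp
      ring

end

theorem xgb_sumY {ι β : Type} [Fintype ι] (X : Finset β) (G : (ι → β) → ℝ) :
    ∑ y : ι → X, G (fun k => (y k).1) = ∑ y ∈ Fintype.piFinset fun _ : ι => X, G y := by
  refine sum_bij (fun y _ k => (y k).1) (fun y _ => Fintype.mem_piFinset.2 fun k => (y k).2)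
    (fun y _ z _ h => funext fun k => Subtype.ext (congrFun h k)) (fun y hy => ?_) fun _ _ => rfl
  exact ⟨fun k => ⟨y k, Fintype.mem_piFinset.1 hy k⟩, mem_univ _, rfl⟩

theorem xgb_fib {W G : Type} [Fintype G] (V : Finset W) (g : W → G) {N : ℝ} (hN : 0 ≤ N) :
    ∃ ρ : G → ℝ, (∀ x, 0 ≤ ρ x) ∧ (∀ H : G → ℝ, ∑ x, ρ x * H x = (∑ w ∈ V, H (g w)) / N) ∧
      ∀ T : Finset G, ∑ x ∈ T, ρ x = (#{w ∈ V | g w ∈ T} : ℝ) / N := by
  have key : ∀ H : G → ℝ,
      ∑ x, (#{w ∈ V | g w = x} : ℝ) / N * H x = (∑ w ∈ V, H (g w)) / N := fun H => by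
    rw [← sum_fiberwise V g, sum_div]
    refine sum_congr rfl fun x _ => ?_
    rw [sum_congr rfl (g := fun _ => H x) fun w hw => by rw [(mem_filter.1 hw).2], sum_const,
      nsmul_eq_mul]
    ring
  refine ⟨fun x => (#{w ∈ V | g w = x} : ℝ) / N, fun x => by positivity, key, fun T => ?_⟩
  have := key fun x => if x ∈ T then 1 else 0
  rw [sum_boole] at this
  rw [← this]
  simp

theorem gl_apply (ι : Type) [Fintype ι] {e : ℝ} (he : 0 < e) :
    ∃ (c : ℝ) (q₀ : ℕ), 0 < c ∧ c ≤ 1 ∧ GLP ι c e q₀ := by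
  obtain ⟨c0, q0, hc0, H⟩ := group_lemma ι he
  have hc : 0 < min c0 1 := lt_min hc0 one_pos
  obtain ⟨q1, hq1⟩ := exists_nat_ge ((2 : ℝ) ^ (4 / min c0 1))
  refine ⟨min c0 1, max (max q0 q1) 3, hc, min_le_right _ _, ?_⟩
  have hcc : min c0 1 ≤ c0 := min_le_left _ _
  generalize min c0 1 = c at hc hq1 hcc
  intro q hq hqq W V η n μ μ' Y s₀ hV hn hμ sμ sμ' hs0 hs hY hsum
  have := Fact.mk hq
  have Q0 : q0 ≤ q := (le_max_left _ _).trans ((le_max_left _ _).trans hqq)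
  have Q1 : q1 ≤ q := (le_max_right _ _).trans ((le_max_left _ _).trans hqq)
  have Q3 : 3 ≤ q := (le_max_right _ _).trans hqq
  have R1 : (1 : ℝ) ≤ q := by exact_mod_cast hq.one_le
  have R0 : (0 : ℝ) < q := by linarith
  have N0 : (0 : ℝ) < #V := by exact_mod_cast hV.card_pos
  have isl : ∀ L : Xn q, IsLn q L.1 := fun L => (mem_Xn hq.pos).1 L.2
  have cX : q ≤ #(Xn q) := by simpa using (card_Xn hq one_pos).1
  let _ := xgbAct q
  have : Nonempty (Xn q) := (card_pos.1 (hq.pos.trans_le cX)).to_subtype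
  have : MulAction.IsPretransitive (ι → GQ q) (ι → Xn q) := ⟨fun x y => by
    choose g hg using fun k => xgb_trans (x k)
    choose g' hg' using fun k => xgb_trans (y k)
    refine ⟨fun k => g' k * (g k)⁻¹, funext fun k => ?_⟩
    change (g' k * (g k)⁻¹) • x k = y k
    rw [mul_smul, smul_eq_iff_eq_inv_smul]
    refine Subtype.ext ?_
    change xgbP (((g k)⁻¹⁻¹ : GQ q) : MQ q) _ = xgbP (((g' k)⁻¹⁻¹ : GQ q) : MQ q) _
    rw [inv_inv, inv_inv, hg, hg']⟩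
  obtain ⟨E, E', hE, hT⟩ := xgb_types (q := q) (by omega)
  have dE : ∀ b, (E b).det * (E' b).det = 1 := fun b => by
    rw [← Matrix.det_mul, (hE b).1, Matrix.det_one]
  have n0 : ∀ w ∈ V, (n w : ZMod q) ≠ 0 := fun w hw => by
    rw [Ne, ZMod.intCast_zmod_eq_zero_iff_dvd]
    exact (hn w hw).1
  have ex : ∀ w, ∃ (b : Bool) (s : ZMod q) (g : ι → GQ q), w ∈ V → s ≠ 0 ∧
      ∀ k, xgbM q (η w k) = s • ((g k : MQ q) * E b) := fun w => by
    by_cases hw : w ∈ V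
    · obtain ⟨b, s, s0, hs⟩ := hT _ (n0 w hw)
      refine ⟨b, s, fun k => ⟨s⁻¹ • (xgbM q (η w k) * E' b), ?_⟩, fun _ => ⟨s0, fun k => ?_⟩⟩
      · rw [Matrix.det_smul, Matrix.det_mul, xgb_det, (hn w hw).2 k, hs, Fintype.card_fin,
          mul_assoc, dE]
        field_simp
      · change _ = s • (s⁻¹ • (xgbM q (η w k) * E' b) * E b)
        rw [smul_mul_assoc, smul_smul, mul_inv_cancel₀ s0, one_smul, mul_assoc, (hE b).2, mul_one]
    · exact ⟨true, 1, 1, fun h => absurd h hw⟩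
  choose b s g hg using ex
  obtain ⟨Lt, hLt⟩ : ∃ Lt : W → Prop, ∀ w, Lt w ↔
      ∀ k, (prb V fun w' => Pj q (η w' k) = Pj q (η w k)) ≤ (q : ℝ) ^ (c - 3) :=
    ⟨_, fun _ => Iff.rfl⟩
  obtain ⟨b0, hb0⟩ : ∃ b0, (q : ℝ) ^ (-(c / 4)) / 2 ≤
      (∑ w ∈ V with b w = b0 ∧ Lt w, ∑ y ∈ Y w, μ y) / #V := by
    by_contra hh
    push Not at hh
    have e1 := hh true
    have e2 := hh false
    refine absurd hsum (not_le.2 (lt_of_eq_of_lt ?_ ((add_lt_add e1 e2).trans_eq (add_halves _))))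
    rw [← add_div, sum_filter, sum_filter, ← sum_add_distrib, mn]
    refine congrArg (· / _) (sum_congr rfl fun w _ => ?_)
    simp only [← hLt]
    by_cases h1 : Lt w <;> cases b w <;> simp [h1]
  obtain ⟨V', hV'⟩ : ∃ V', V' = {w ∈ V | b w = b0 ∧ Lt w} := ⟨_, rfl⟩
  rw [← hV'] at hb0
  have mV : ∀ w ∈ V', w ∈ V ∧ b w = b0 ∧ Lt w := fun w hw => by
    rw [hV'] at hw
    exact mem_filter.1 hw
  have dE1 : (E b0).det ≠ 0 := left_ne_zero_of_mul_eq_one (dE b0)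
  have dE2 : (E' b0).det ≠ 0 := right_ne_zero_of_mul_eq_one (dE b0)
  let σ : (ι → Xn q) ≃ (ι → Xn q) :=
    { toFun := fun r k => ⟨xgbP (E b0) (r k).1, xgb_isLn dE1 (r k).2⟩
      invFun := fun r k => ⟨xgbP (E' b0) (r k).1, xgb_isLn dE2 (r k).2⟩
      left_inv := fun r => funext fun k => Subtype.ext (by
        simp only [xgb_PP, (hE b0).1, xgb_Pone (isl _)])
      right_inv := fun r => funext fun k => Subtype.ext (by
        simp only [xgb_PP, (hE b0).2, xgb_Pone (isl _)]) }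
  let F : (ι → Set V2) → ℝ := fun y => if s₀ ≤ μ y then Real.sqrt (μ y) else 0
  have F0 : ∀ y, 0 ≤ F y := fun y => by
    simp only [F]
    split_ifs <;> positivity
  have sF : ∀ G : (ι → Set V2) → ℝ, ∑ r, G (fun k => (σ r k).1) =
      ∑ y ∈ Fintype.piFinset fun _ : ι => Xn q, G y := fun G =>
    (Equiv.sum_comp σ fun r => G fun k => (r k).1).trans (xgb_sumY _ G)
  obtain ⟨ρ, ρ0, ρ1, ρ2⟩ := xgb_fib V' g N0.le
  have main := H q Q0 (ι → Xn q) ρ (fun r => F fun k => (σ r k).1)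
    (fun r => Real.sqrt (μ' fun k => (r k).1)) ρ0 ?_ ?_ (fun r => F0 _) ?_ ?_ ?_ ?_
  · obtain ⟨k, l, hkl, X, X', hX, hfin⟩ := main
    obtain ⟨Z, hZ⟩ := xgb_Msurj (E' b0 * X * E b0)
    obtain ⟨Z', rfl⟩ := xgb_Msurj X'
    refine ⟨k, l, hkl, Z, Z', ?_, ?_⟩
    · rw [← ZMod.intCast_zmod_eq_zero_iff_dvd, ← xgb_det, hZ, Matrix.det_mul, Matrix.det_mul]
      exact mul_ne_zero (mul_ne_zero dE2 hX) dE1
    · rw [ρ2, le_div_iff₀ N0] at hfin
      refine hfin.trans (Nat.cast_le.2 (card_le_card fun w hw => ?_))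
      simp only [mem_filter, mem_univ, true_and] at hw
      obtain ⟨m1, m2⟩ := hw
      obtain ⟨m3, m4, -⟩ := mV w m1
      simp only [mem_filter]
      refine ⟨m3, fun i j => ?_⟩
      have e1 : xgbM q (η w l * Z - Z' * η w k) = 0 := by
        have e2 : xgbM q (η w l * Z - Z' * η w k) =
            xgbM q (η w l) * xgbM q Z - xgbM q Z' * xgbM q (η w k) := by
          simp only [xgbM, map_sub, map_mul]
        rw [e2, hZ, (hg w m3).2 l, (hg w m3).2 k, m4, smul_mul_assoc, mul_smul_comm, ← mul_assoc,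
          ← mul_assoc, mul_assoc _ (E b0), (hE b0).1, mul_one, m2, mul_assoc, sub_self]
      rw [← ZMod.intCast_zmod_eq_zero_iff_dvd, ← xgb_Mapp, e1]
      rfl
  · rw [ρ2, div_le_one N0]
    refine Nat.cast_le.2 (card_le_card fun w hw => ?_)
    simp only [mem_filter] at hw
    exact (mV w hw.1).1
  · intro k h
    rw [ρ2]
    by_cases h0 : ∀ w ∈ V', g w k ≠ h
    · refine le_trans (le_of_eq ?_) (Real.rpow_nonneg R0.le _)
      rw [div_eq_zero_iff, Nat.cast_eq_zero, card_eq_zero, eq_empty_iff_forall_notMem]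
      refine Or.inl fun w hw => ?_
      simp only [mem_filter, mem_univ, true_and] at hw
      exact h0 w hw.1 hw.2
    push Not at h0
    obtain ⟨w, m1, m2⟩ := h0
    obtain ⟨m3, m4, m5⟩ := mV w m1
    refine le_trans ?_ (((hLt w).1 m5 k).trans
      (Real.rpow_le_rpow_of_exponent_le R1 (by linarith)))
    refine div_le_div_of_nonneg_right (Nat.cast_le.2 (card_le_card fun w' hw' => ?_)) N0.le
    simp only [mem_filter, mem_univ, true_and] at hw'
    obtain ⟨p1, p2⟩ := hw'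
    obtain ⟨p3, p4, -⟩ := mV w' p1
    simp only [mem_filter]
    refine ⟨p3, ?_⟩
    rw [xgb_Pjeq (hg w m3).1 ((hg w m3).2 k), xgb_Pjeq (hg w' p3).1 ((hg w' p3).2 k), m2, p2,
      m4, p4]
  · refine le_trans ((sF fun y => F y ^ 2).trans_le (sum_le_sum fun y _ => ?_)) sμ
    simp only [F]
    split_ifs
    · exact (Real.sq_sqrt (hμ y).1).le
    · simpa using (hμ y).1
  · refine le_trans ((xgb_sumY _ fun y => Real.sqrt (μ' y) ^ 2).trans_le
      (sum_le_sum fun y _ => (Real.sq_sqrt (hμ y).2).le)) sμ'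
  · have t0 : 0 < Real.sqrt s₀ := Real.sqrt_pos.2 hs0
    have e1 : ∑ r, F (fun k => (σ r k).1) ≤ (Real.sqrt s₀)⁻¹ := by
      rw [sF F]
      refine le_trans (sum_le_sum (g := fun y => (Real.sqrt s₀)⁻¹ * μ y) fun y _ => ?_) ?_
      · simp only [F]
        split_ifs with hh
        · rw [le_inv_mul_iff₀ t0]
          exact (mul_le_mul_of_nonneg_right (Real.sqrt_le_sqrt hh) (Real.sqrt_nonneg _)).trans_eq
            (Real.mul_self_sqrt (hμ y).1)
        · exact mul_nonneg (by positivity) (hμ y).1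
      · rw [← mul_sum]
        exact mul_le_of_le_one_right (by positivity) sμ
    refine (pow_le_pow_left₀ (sum_nonneg fun r _ => F0 _) e1 2).trans ?_
    have e2 : (q : ℝ) ^ Fintype.card ι ≤ Fintype.card (ι → Xn q) := by
      rw [Fintype.card_fun, Fintype.card_coe]
      exact_mod_cast Nat.pow_le_pow_left cX _
    have e3 : 0 < Real.sqrt q := Real.sqrt_pos.2 R0
    rw [inv_pow, Real.sq_sqrt hs0.le, Real.rpow_neg R0.le, ← Real.sqrt_eq_rpow,
      le_inv_mul_iff₀ e3, ← div_eq_mul_inv, div_le_iff₀' hs0]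
    exact hs.trans (mul_le_mul_of_nonneg_left e2 hs0.le)
  · rw [cor, ρ1 fun x => ∑ r : ι → Xn q, F (fun k => (σ r k).1) *
      Real.sqrt (μ' fun k => ((x • r) k).1)]
    have e1 : (2 : ℝ) ≤ (q : ℝ) ^ (c / 4) := by
      have e2 : (2 : ℝ) ^ (4 / c) ≤ q := hq1.trans (by exact_mod_cast Q1)
      have e3 := Real.rpow_le_rpow (by positivity) e2 (show 0 ≤ c / 4 by positivity)
      rwa [← Real.rpow_mul (by norm_num), show 4 / c * (c / 4) = 1 by field_simp,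
        Real.rpow_one] at e3
    have e2 : (q : ℝ) ^ (-c0) ≤ (q : ℝ) ^ (-(c / 2)) * ((q : ℝ) ^ (-(c / 4)) / 2) := by
      rw [← mul_div_assoc, ← Real.rpow_add R0, le_div_iff₀ two_pos]
      refine (mul_le_mul_of_nonneg_left e1 (by positivity)).trans ?_
      rw [← Real.rpow_add R0]
      exact Real.rpow_le_rpow_of_exponent_le R1 (by linarith)
    refine e2.trans ((mul_le_mul_of_nonneg_left hb0 (by positivity)).trans ?_)
    rw [← mul_div_assoc, mul_sum]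
    refine div_le_div_of_nonneg_right (sum_le_sum fun w hw => ?_) N0.le
    obtain ⟨m3, m4, -⟩ := mV w hw
    have e3 : ∀ r : ι → Xn q, (fun k => ((g w • r) k).1) =
        fun k => {v | (η w k).adjugate *ᵥ v ∈ (σ r k).1} := fun r => funext fun k => by
      have e4 : xgbM q (η w k).adjugate * xgbM q (η w k) = (n w : ZMod q) • 1 := by
        rw [xgbM, xgbM, RingHom.map_adjugate, Matrix.adjugate_mul, ← (hn w m3).2 k, ← xgb_det]
        rfl
      have e5 : xgbM q (η w k) * ((s w)⁻¹ • (E' b0 * (((g w k)⁻¹ : GQ q) : MQ q))) = 1 := by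
        rw [(hg w m3).2 k, m4, smul_mul_smul_comm, mul_inv_cancel₀ (hg w m3).1, one_smul,
          ← mul_assoc, mul_assoc _ (E b0), (hE b0).1, mul_one,
          ← Matrix.SpecialLinearGroup.coe_mul, mul_inv_cancel, Matrix.SpecialLinearGroup.coe_one]
      have e6 : xgbM q (η w k).adjugate =
          ((n w : ZMod q) * (s w)⁻¹) • (E' b0 * (((g w k)⁻¹ : GQ q) : MQ q)) := by
        rw [← mul_one (xgbM q (η w k).adjugate), ← e5, ← mul_assoc, e4, smul_mul_assoc, one_mul,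
          smul_smul]
      rw [← xgb_Pint _ (isl _), e6, xgb_Psmul (mul_ne_zero (n0 w m3) (inv_ne_zero (hg w m3).1)) _
        (isl _)]
      change xgbP (((g w k)⁻¹ : GQ q) : MQ q) (r k).1 = xgbP _ (xgbP (E b0) (r k).1)
      rw [xgb_PP, ← mul_assoc, (hE b0).1, one_mul]
    simp only [e3]
    rw [sF fun y => F y * Real.sqrt (μ' fun k => {v | (η w k).adjugate *ᵥ v ∈ y k}), mul_sum]
    refine le_trans (sum_le_sum fun y hy => ?_) (sum_le_sum_of_subset_of_nonneg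
      (fun y hy => (hY w m3 y hy).1) fun y _ _ => mul_nonneg (F0 y) (Real.sqrt_nonneg _))
    obtain ⟨-, a1, a2⟩ := hY w m3 y hy
    simp only [F, if_pos a1]
    refine le_trans (le_of_eq ?_)
      (mul_le_mul_of_nonneg_left (Real.sqrt_le_sqrt a2) (Real.sqrt_nonneg _))
    rw [Real.sqrt_mul (by positivity), Real.sqrt_eq_rpow ((q : ℝ) ^ (-c)), ← Real.rpow_mul R0.le,
      mul_left_comm, Real.mul_self_sqrt (hμ y).1]
    congr 2
    ring

theorem card_Pj {q : ℕ} (hq : q.Prime) (T : Finset M2) (h : ∀ η ∈ T, ¬ (q : ℤ) ∣ η.det) :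
    #(T.image (Pj q)) ≤ q ^ 3 := by
  have := Fact.mk hq
  let Φ : ZMod q × ZMod q × ZMod q → Set M2 := fun z => {ξ | ∃ r : ZMod q, xgbM q ξ =
    r • (if z.2.2 = 0 then !![0, 1; z.1, z.2.1] else !![1, z.1; z.2.1, z.1 * z.2.1 + z.2.2])}
  have h1 : T.image (Pj q) ⊆ univ.image Φ := by
    intro S hS
    obtain ⟨η, hη, rfl⟩ := mem_image.1 hS
    have hd := h η hη
    rw [← ZMod.intCast_zmod_eq_zero_iff_dvd, ← xgb_det, Matrix.det_fin_two] at hd
    obtain ⟨M, hM⟩ : ∃ M, M = xgbM q η := ⟨_, rfl⟩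
    rw [← hM] at hd
    by_cases h0 : M 0 0 = 0
    · have h1 : M 0 1 ≠ 0 := fun e => hd (by rw [h0, e]; ring)
      refine mem_image.2 ⟨(M 1 0 / M 0 1, M 1 1 / M 0 1, 0), mem_univ _, (xgb_Pjeq h1 ?_).symm⟩
      rw [← hM, if_pos rfl]
      ext i j
      fin_cases i <;> fin_cases j <;> simp [h0] <;> field_simp
    · have h1 : (M 0 0 * M 1 1 - M 0 1 * M 1 0) / M 0 0 ^ 2 ≠ 0 := div_ne_zero hd (pow_ne_zero _ h0)
      refine mem_image.2 ⟨(M 0 1 / M 0 0, M 1 0 / M 0 0,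
        (M 0 0 * M 1 1 - M 0 1 * M 1 0) / M 0 0 ^ 2), mem_univ _, (xgb_Pjeq h0 ?_).symm⟩
      rw [← hM, if_neg h1]
      ext i j
      fin_cases i <;> fin_cases j <;> simp <;> field_simp
      ring
  refine (card_le_card h1).trans (card_image_le.trans (le_of_eq ?_))
  simp only [card_univ, Fintype.card_prod, ZMod.card]
  ring

end Pool.Agent.EQ
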