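import Pool.Agent.P.MP_ad7a55_nt.XLb

/-! Matrices of given determinant with columns in a sublattice. -/

set_option autoImplicit false

noncomputable section

open Finset Matrix
open scoped MatrixGroups Classical

namespace Pool.Agent.EQ

theorem xgc_spread (S : Finset ℤ) {D : ℝ} (hD : 0 ≤ D)
    (h : ∀ x ∈ S, ∀ y ∈ S, ((x - y : ℤ) : ℝ) ≤ D) : (#S : ℝ) ≤ 1 + D := by
  rcases S.eq_empty_or_nonempty with rfl | hS
  · simp only [card_empty, Nat.cast_zero]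
    linarith
  have h1 : S ⊆ Icc (S.min' hS) (S.min' hS + ⌊D⌋₊) := by
    intro x hx
    refine mem_Icc.2 ⟨S.min'_le x hx, ?_⟩
    have h2 := h x hx _ (S.min'_mem hS)
    have h3 : x - S.min' hS ≤ ⌊D⌋ := Int.le_floor.2 h2
    rw [← Int.natCast_floor_eq_floor hD] at h3
    linarith
  have h2 := card_le_card h1
  rw [Int.card_Icc, show S.min' hS + ⌊D⌋₊ + 1 - S.min' hS = ((⌊D⌋₊ + 1 : ℕ) : ℤ) by push_cast; ring,
    Int.toNat_natCast] at h2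
  have h3 : (#S : ℝ) ≤ ⌊D⌋₊ + 1 := by exact_mod_cast h2
  linarith [Nat.floor_le hD]

theorem xgc_fibre {n g c d : ℤ} (hg : g ≠ 0) (hc : IsCoprime c d) {A : ℝ} (hA : 0 ≤ A)
    (F : Finset M2)
    (h : ∀ η ∈ F, η.det = n ∧ (∀ j, |(η 0 j : ℝ)| ≤ A) ∧ η 1 0 = g * c ∧ η 1 1 = g * d) :
    (#F : ℝ) ≤ 1 + 2 * A * (1 / ((max |c| |d| : ℤ) : ℝ)) := by
  obtain ⟨u, v, e⟩ := hc
  have key : ∀ η ∈ F, ∀ η' ∈ F,
      η 0 0 - η' 0 0 = (u * η 0 0 + v * η 0 1 - (u * η' 0 0 + v * η' 0 1)) * c ∧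
      η 0 1 - η' 0 1 = (u * η 0 0 + v * η 0 1 - (u * η' 0 0 + v * η' 0 1)) * d := by
    intro η hη η' hη'
    obtain ⟨a1, -, a2, a3⟩ := h η hη
    obtain ⟨b1, -, b2, b3⟩ := h η' hη'
    rw [det_fin_two, a2, a3] at a1
    rw [det_fin_two, b2, b3] at b1
    have e1 : (η 0 0 - η' 0 0) * d = (η 0 1 - η' 0 1) * c :=
      mul_left_cancel₀ hg (by linear_combination a1 - b1)
    constructor
    · linear_combination v * e1 - (η 0 0 - η' 0 0) * e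
    · linear_combination (-u) * e1 - (η 0 1 - η' 0 1) * e
  have hM : 0 < max |c| |d| := by
    by_contra hM
    have h1 : c = 0 := abs_nonpos_iff.1 ((le_max_left _ _).trans (not_lt.1 hM))
    have h2 : d = 0 := abs_nonpos_iff.1 ((le_max_right _ _).trans (not_lt.1 hM))
    rw [h1, h2] at e
    simp at e
  have hM' : (0 : ℝ) < ((max |c| |d| : ℤ) : ℝ) := by exact_mod_cast hM
  have hinj : Set.InjOn (fun η : M2 => u * η 0 0 + v * η 0 1) F := by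
    intro η hη η' hη' he
    obtain ⟨k1, k2⟩ := key η hη η' hη'
    obtain ⟨-, -, a2, a3⟩ := h η hη
    obtain ⟨-, -, b2, b3⟩ := h η' hη'
    simp only at he
    rw [he, sub_self, zero_mul, sub_eq_zero] at k1 k2
    ext i j
    fin_cases i <;> fin_cases j
    exacts [k1, k2, a2.trans b2.symm, a3.trans b3.symm]
  rw [← card_image_of_injOn hinj]
  refine xgc_spread _ (by positivity) ?_
  intro x hx y hy
  obtain ⟨η, hη, rfl⟩ := mem_image.1 hx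
  obtain ⟨η', hη', rfl⟩ := mem_image.1 hy
  obtain ⟨k1, k2⟩ := key η hη η' hη'
  generalize u * η 0 0 + v * η 0 1 - (u * η' 0 0 + v * η' 0 1) = t at k1 k2 ⊢
  have b : ∀ j, ((|η 0 j - η' 0 j| : ℤ) : ℝ) ≤ 2 * A := fun j => by
    push_cast
    exact (abs_sub _ _).trans (by linarith [(h η hη).2.1 j, (h η' hη').2.1 j])
  have b0 := b 0
  have b1 := b 1
  rw [k1, abs_mul] at b0
  rw [k2, abs_mul] at b1
  have b2 : ((|t| * max |c| |d| : ℤ) : ℝ) ≤ 2 * A := by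
    rcases max_cases |c| |d| with ⟨e', -⟩ | ⟨e', -⟩ <;> rw [e'] <;> assumption
  rw [mul_one_div, le_div_iff₀ hM']
  refine le_trans ?_ b2
  exact_mod_cast mul_le_mul_of_nonneg_right (le_abs_self t) hM.le

/-- the integral points of a square -/
def xgc_box (R : ℕ) : Finset (ℤ × ℤ) := Icc (-(R : ℤ)) R ×ˢ Icc (-(R : ℤ)) R

theorem xgc_mem_box {R : ℕ} {x : ℤ × ℤ} : x ∈ xgc_box R ↔ max |x.1| |x.2| ≤ R := by
  simp only [xgc_box, mem_product, mem_Icc, max_le_iff, abs_le]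

theorem xgc_card_box (R : ℕ) : #(xgc_box R) = (2 * R + 1) ^ 2 := by
  rw [xgc_box, card_product, Int.card_Icc,
    show (R : ℤ) + 1 - -(R : ℤ) = ((2 * R + 1 : ℕ) : ℤ) by push_cast; ring, Int.toNat_natCast, sq]

theorem xgc_sum_box (R : ℕ) :
    ∑ x ∈ xgc_box R, 1 / ((max |x.1| |x.2| : ℤ) : ℝ) ≤ 8 * R := by
  induction R with
  | zero =>
    refine (sum_eq_zero fun x hx => ?_).le.trans (by simp)
    have h := xgc_mem_box.1 hx
    have h0 : max |x.1| |x.2| = 0 := le_antisymm h ((abs_nonneg _).trans (le_max_left _ _))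
    rw [h0]
    simp
  | succ R ih =>
    have hs : xgc_box R ⊆ xgc_box (R + 1) := fun x hx =>
      xgc_mem_box.2 ((xgc_mem_box.1 hx).trans (by push_cast; linarith))
    rw [← sum_sdiff hs]
    have h1 : ∑ x ∈ xgc_box (R + 1) \ xgc_box R, 1 / ((max |x.1| |x.2| : ℤ) : ℝ) ≤
        #(xgc_box (R + 1) \ xgc_box R) • (1 / ((R : ℝ) + 1)) := by
      refine sum_le_card_nsmul _ _ _ fun x hx => ?_
      have h2 : ¬ max |x.1| |x.2| ≤ R := fun h => (mem_sdiff.1 hx).2 (xgc_mem_box.2 h)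
      refine one_div_le_one_div_of_le (by positivity) ?_
      have h3 : (R : ℤ) + 1 ≤ max |x.1| |x.2| := by omega
      exact_mod_cast h3
    have h2 : #(xgc_box (R + 1) \ xgc_box R) = 8 * (R + 1) := by
      rw [card_sdiff_of_subset hs, xgc_card_box, xgc_card_box]
      exact Nat.sub_eq_of_eq_add (by ring)
    rw [h2, nsmul_eq_mul] at h1
    have h3 : ((8 * (R + 1) : ℕ) : ℝ) * (1 / ((R : ℝ) + 1)) = 8 := by
      push_cast
      field_simp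
    rw [Nat.cast_add_one]
    linarith

theorem box_count {n : ℕ} (hn : 0 < n) {A A' : ℝ} (hA : A' ≤ A) (T : Finset M2)
    (h : ∀ η ∈ T, η.det = n ∧ (∀ j, |(η 0 j : ℝ)| ≤ A) ∧ ∀ j, |(η 1 j : ℝ)| ≤ A') (h0 : 0 ≤ A')
    (h1 : ∀ η ∈ T, ∃ j, η 1 j ≠ 0) : (#T : ℝ) ≤ 25 * (A * A') * #n.divisors := by
  have hA0 : 0 ≤ A := h0.trans hA
  rcases T.eq_empty_or_nonempty with rfl | ⟨η₀, hη₀⟩
  · simp only [card_empty, Nat.cast_zero]
    exact mul_nonneg (mul_nonneg (by norm_num) (mul_nonneg hA0 h0)) (Nat.cast_nonneg _)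
  have hA1 : 1 ≤ A' := by
    obtain ⟨j, hj⟩ := h1 η₀ hη₀
    refine le_trans ?_ ((h η₀ hη₀).2.2 j)
    exact_mod_cast Int.one_le_abs hj
  let κ : M2 → ℕ × ℤ × ℤ := fun η =>
    (Int.gcd (η 1 0) (η 1 1), η 1 0 / Int.gcd (η 1 0) (η 1 1), η 1 1 / Int.gcd (η 1 0) (η 1 1))
  have hκ : ∀ η ∈ T, 0 < (κ η).1 ∧ IsCoprime (κ η).2.1 (κ η).2.2 ∧
      η 1 0 = (κ η).1 * (κ η).2.1 ∧ η 1 1 = (κ η).1 * (κ η).2.2 := by
    intro η hη
    have hg : 0 < Int.gcd (η 1 0) (η 1 1) := by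
      rw [Int.gcd_pos_iff]
      obtain ⟨j, hj⟩ := h1 η hη
      fin_cases j
      exacts [Or.inl hj, Or.inr hj]
    exact ⟨hg, Int.isCoprime_iff_gcd_eq_one.2 (Int.gcd_div_gcd_div_gcd hg),
      (Int.mul_ediv_cancel' (Int.gcd_dvd_left _ _)).symm,
      (Int.mul_ediv_cancel' (Int.gcd_dvd_right _ _)).symm⟩
  have hmap : ∀ η ∈ T, κ η ∈ n.divisors ×ˢ xgc_box ⌊A'⌋₊ := by
    intro η hη
    obtain ⟨a1, -, a3, a4⟩ := hκ η hη
    obtain ⟨b1, -, b3⟩ := h η hη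
    have hb : ∀ j, |η 1 j| ≤ ⌊A'⌋₊ := fun j => by
      rw [Int.natCast_floor_eq_floor h0, Int.le_floor]
      exact_mod_cast b3 j
    have hg : (1 : ℤ) ≤ |((κ η).1 : ℤ)| := by
      rw [Nat.abs_cast]
      exact_mod_cast a1
    refine mem_product.2 ⟨Nat.mem_divisors.2 ⟨?_, hn.ne'⟩, xgc_mem_box.2 (max_le ?_ ?_)⟩
    · rw [← Int.natCast_dvd_natCast, ← b1, det_fin_two]
      exact ((Dvd.intro _ a4.symm).mul_left _).sub ((Dvd.intro _ a3.symm).mul_left _)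
    · refine le_trans ?_ (hb 0)
      rw [a3, abs_mul]
      exact le_mul_of_one_le_left (abs_nonneg _) hg
    · refine le_trans ?_ (hb 1)
      rw [a4, abs_mul]
      exact le_mul_of_one_le_left (abs_nonneg _) hg
  have hfib : ∀ y ∈ n.divisors ×ˢ xgc_box ⌊A'⌋₊, (#{η ∈ T | κ η = y} : ℝ) ≤
      1 + 2 * A * (1 / ((max |y.2.1| |y.2.2| : ℤ) : ℝ)) := by
    intro y _
    rcases (T.filter fun η => κ η = y).eq_empty_or_nonempty with he | ⟨η₁, hη₁⟩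
    · rw [he, card_empty, Nat.cast_zero]
      have : (0 : ℝ) ≤ ((max |y.2.1| |y.2.2| : ℤ) : ℝ) := by
        exact_mod_cast (abs_nonneg _).trans (le_max_left _ _)
      positivity
    obtain ⟨c1, c2⟩ := mem_filter.1 hη₁
    obtain ⟨a1, a2, -, -⟩ := hκ η₁ c1
    rw [c2] at a1 a2
    refine xgc_fibre (n := n) (g := y.1) (by exact_mod_cast a1.ne') a2 hA0 _ fun η hη => ?_
    obtain ⟨d1, d2⟩ := mem_filter.1 hη
    obtain ⟨-, -, a3, a4⟩ := hκ η d1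
    rw [d2] at a3 a4
    exact ⟨(h η d1).1, (h η d1).2.1, a3, a4⟩
  have hR : (⌊A'⌋₊ : ℝ) ≤ A' := Nat.floor_le h0
  have hR0 : (0 : ℝ) ≤ ⌊A'⌋₊ := Nat.cast_nonneg _
  calc (#T : ℝ) = ∑ y ∈ n.divisors ×ˢ xgc_box ⌊A'⌋₊, (#{η ∈ T | κ η = y} : ℝ) := by
        rw [card_eq_sum_card_fiberwise hmap, Nat.cast_sum]
    _ ≤ ∑ y ∈ n.divisors ×ˢ xgc_box ⌊A'⌋₊, (1 + 2 * A * (1 / ((max |y.2.1| |y.2.2| : ℤ) : ℝ))) :=
        sum_le_sum hfib
    _ = #n.divisors * ((2 * ⌊A'⌋₊ + 1) ^ 2 +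
          2 * A * ∑ x ∈ xgc_box ⌊A'⌋₊, 1 / ((max |x.1| |x.2| : ℤ) : ℝ)) := by
        rw [sum_product]
        simp only [sum_add_distrib, sum_const, xgc_card_box, nsmul_eq_mul, ← mul_sum]
        push_cast
        ring
    _ ≤ #n.divisors * (25 * (A * A')) := by
        refine mul_le_mul_of_nonneg_left ?_ (Nat.cast_nonneg _)
        have e1 := mul_le_mul_of_nonneg_left (xgc_sum_box ⌊A'⌋₊) hA0
        have e2 := mul_le_mul_of_nonneg_left hR hA0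
        have e3 : ((2 * ⌊A'⌋₊ + 1 : ℝ)) ^ 2 ≤ (3 * A') ^ 2 :=
          pow_le_pow_left₀ (by linarith) (by linarith) 2
        have e4 := mul_le_mul_of_nonneg_right hA h0
        linarith
    _ = _ := mul_comm _ _

theorem xgc_mul (M : M2) (p q r s : ℤ) :
    (M * !![p, q; r, s]) 0 0 = M 0 0 * p + M 0 1 * r ∧
      (M * !![p, q; r, s]) 0 1 = M 0 0 * q + M 0 1 * s ∧
      (M * !![p, q; r, s]) 1 0 = M 1 0 * p + M 1 1 * r ∧
      (M * !![p, q; r, s]) 1 1 = M 1 0 * q + M 1 1 * s := by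
  simp [Matrix.mul_apply, Fin.sum_univ_two]

theorem xgc_min (ω : M2) : ∃ γ : SL(2, ℤ), ∀ γ' : SL(2, ℤ),
    (ω * γ) 0 0 ^ 2 + (ω * γ) 1 0 ^ 2 + ((ω * γ) 0 1 ^ 2 + (ω * γ) 1 1 ^ 2) ≤
      (ω * γ') 0 0 ^ 2 + (ω * γ') 1 0 ^ 2 + ((ω * γ') 0 1 ^ 2 + (ω * γ') 1 1 ^ 2) := by
  let f : SL(2, ℤ) → ℕ := fun γ =>
    ((ω * γ) 0 0 ^ 2 + (ω * γ) 1 0 ^ 2 + ((ω * γ) 0 1 ^ 2 + (ω * γ) 1 1 ^ 2)).toNat
  obtain ⟨γ, hγ⟩ := Nat.sInf_mem (Set.range_nonempty f)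
  refine ⟨γ, fun γ' => ?_⟩
  have h : f γ ≤ f γ' := hγ ▸ Nat.sInf_le ⟨γ', rfl⟩
  exact (Int.toNat_le.1 h).trans (Int.toNat_of_nonneg (by positivity)).le

theorem exists_reduced {n : ℕ} (hn : 0 < n) {ω : M2} (h : ω.det = n) : ∃ γ : SL(2, ℤ),
    ((ω * γ) 0 0 ^ 2 + (ω * γ) 1 0 ^ 2 ≤ (ω * γ) 0 1 ^ 2 + (ω * γ) 1 1 ^ 2) ∧
      ((ω * γ) 0 0 ^ 2 + (ω * γ) 1 0 ^ 2) * ((ω * γ) 0 1 ^ 2 + (ω * γ) 1 1 ^ 2) ≤
        2 * (n : ℤ) ^ 2 := by
  obtain ⟨γ, hγ⟩ := xgc_min ω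
  have hd : (ω * γ).det = n := by rw [det_mul, h, γ.det_coe, mul_one]
  have mv : ∀ (p q r s : ℤ) (e : p * s - q * r = 1), ∃ γ' : SL(2, ℤ),
      ω * (γ' : M2) = ω * (γ : M2) * !![p, q; r, s] := fun p q r s e => by
    let δ : SL(2, ℤ) := ⟨!![p, q; r, s], by rw [det_fin_two_of]; exact e⟩
    exact ⟨γ * δ, (Matrix.mul_assoc ω (γ : M2) !![p, q; r, s]).symm⟩
  have mv' : ∀ (p q r s : ℤ) (e : p * s - q * r = 1),
      (ω * γ) 0 0 ^ 2 + (ω * γ) 1 0 ^ 2 + ((ω * γ) 0 1 ^ 2 + (ω * γ) 1 1 ^ 2) ≤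
        ((ω * γ) 0 0 * p + (ω * γ) 0 1 * r) ^ 2 + ((ω * γ) 1 0 * p + (ω * γ) 1 1 * r) ^ 2 +
          (((ω * γ) 0 0 * q + (ω * γ) 0 1 * s) ^ 2 + ((ω * γ) 1 0 * q + (ω * γ) 1 1 * s) ^ 2) := by
    intro p q r s e
    obtain ⟨γ', he⟩ := mv p q r s e
    obtain ⟨a1, a2, a3, a4⟩ := xgc_mul (ω * γ) p q r s
    have := hγ γ'
    rwa [he, a1, a2, a3, a4] at this
  have k1 := mv' 1 1 0 1 (by norm_num)
  have k2 := mv' 1 (-1) 0 1 (by norm_num)
  have k3 := mv' 1 0 1 1 (by norm_num)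
  have k4 := mv' 1 0 (-1) 1 (by norm_num)
  obtain ⟨γ', he⟩ := mv 0 (-1) 1 0 (by norm_num)
  obtain ⟨a1, a2, a3, a4⟩ := xgc_mul (ω * γ) 0 (-1) 1 0
  rw [det_fin_two] at hd
  have key : ((ω * γ) 0 0 ^ 2 + (ω * γ) 1 0 ^ 2) * ((ω * γ) 0 1 ^ 2 + (ω * γ) 1 1 ^ 2) ≤
      2 * (n : ℤ) ^ 2 := by
    rw [← hd]
    generalize (ω * γ) 0 0 = a at *
    generalize (ω * γ) 0 1 = b at *
    generalize (ω * γ) 1 0 = c at *
    generalize (ω * γ) 1 1 = d at *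
    have e1 : |2 * (a * b + c * d)| ≤ a ^ 2 + c ^ 2 := abs_le.2 ⟨by linarith, by linarith⟩
    have e2 : |2 * (a * b + c * d)| ≤ b ^ 2 + d ^ 2 := abs_le.2 ⟨by linarith, by linarith⟩
    have e3 := mul_le_mul e1 e2 (abs_nonneg _) (by positivity)
    rw [abs_mul_abs_self] at e3
    nlinarith [sq_nonneg (a * d - b * c)]
  rcases le_total ((ω * γ) 0 0 ^ 2 + (ω * γ) 1 0 ^ 2) ((ω * γ) 0 1 ^ 2 + (ω * γ) 1 1 ^ 2)
    with hle | hle
  · exact ⟨γ, hle, key⟩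
  · refine ⟨γ', ?_⟩
    rw [he, a1, a2, a3, a4]
    constructor <;> linarith

theorem xgc_row {p q u w x n m H : ℝ} (hn : 0 < n) (hm : 0 ≤ m) (e : n * x = p * u - q * w)
    (hu : |u| ≤ H * √(n * m)) (hw : |w| ≤ H * √(n * m)) :
    |x| ≤ √((q ^ 2 + p ^ 2) * (2 * H ^ 2 * m / n)) := by
  have hs : (H * √(n * m)) ^ 2 = H ^ 2 * (n * m) := by
    rw [mul_pow, Real.sq_sqrt (by positivity)]
  have hu2 : u ^ 2 ≤ H ^ 2 * (n * m) := by
    rw [← hs, ← sq_abs]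
    exact pow_le_pow_left₀ (abs_nonneg _) hu 2
  have hw2 : w ^ 2 ≤ H ^ 2 * (n * m) := by
    rw [← hs, ← sq_abs]
    exact pow_le_pow_left₀ (abs_nonneg _) hw 2
  refine Real.abs_le_sqrt (le_of_mul_le_mul_left ?_ (pow_pos hn 2))
  calc n ^ 2 * x ^ 2 = (p * u - q * w) ^ 2 := by rw [← e]; ring
    _ ≤ (q ^ 2 + p ^ 2) * (u ^ 2 + w ^ 2) := by nlinarith [sq_nonneg (p * w + q * u)]
    _ ≤ (q ^ 2 + p ^ 2) * (2 * (H ^ 2 * (n * m))) :=
        mul_le_mul_of_nonneg_left (by linarith) (by positivity)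
    _ = _ := by field_simp

theorem lat_count {n m : ℕ} (hn : 0 < n) (hm : 0 < m) {L : Set V2} (hL : IsLn n L) {H : ℝ}
    (hH : 0 ≤ H) (T : Finset M2) (h : ∀ η ∈ T, η.det = (n * m : ℕ) ∧ (∀ j, (fun i => η i j) ∈ L) ∧
      ∀ i j, |(η i j : ℝ)| ≤ H * Real.sqrt (n * m : ℕ)) :
    (#T : ℝ) ≤ 100 * H ^ 2 * m * #m.divisors := by
  obtain ⟨η₀, hd₀, rfl⟩ := hL.exists_mat hn
  have hda : η₀.adjugate.det = n := by
    rw [Matrix.det_adjugate, hd₀]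
    simp
  obtain ⟨γ, hr1, hr2⟩ := exists_reduced hn hda
  have hn' : (n : ℤ) ≠ 0 := by exact_mod_cast hn.ne'
  have hn0 : (0 : ℝ) < n := by exact_mod_cast hn
  have hm0 : (0 : ℝ) ≤ m := Nat.cast_nonneg _
  have hfac : ∀ η ∈ T, ∃ ζ : M2, η = η₀.adjugate * γ * ζ := by
    intro η hη
    choose w hw using fun j => (mem_Ker_adj hn hd₀).1 ((h η hη).2.1 j)
    refine ⟨((γ⁻¹ : SL(2, ℤ)) : M2) * Matrix.of fun i j => w j i, ?_⟩
    rw [Matrix.mul_assoc, ← Matrix.mul_assoc (γ : M2), ← Matrix.SpecialLinearGroup.coe_mul,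
      mul_inv_cancel, Matrix.SpecialLinearGroup.coe_one, Matrix.one_mul]
    ext i j
    exact congrFun (hw j) i
  have hdω : (η₀.adjugate * γ).det = n := by rw [det_mul, hda, γ.det_coe, mul_one]
  generalize η₀.adjugate * (γ : M2) = ω at hr1 hr2 hfac hdω
  choose! φ hφ using hfac
  have hinj : Set.InjOn φ T := fun η hη η' hη' e => by rw [hφ η hη, hφ η' hη', e]
  have hdet : ∀ η ∈ T, (φ η).det = m := by
    intro η hη
    have e := (h η hη).1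
    rw [hφ η hη, det_mul, hdω, Nat.cast_mul] at e
    exact mul_left_cancel₀ hn' e
  have hc0 : 0 ≤ 2 * H ^ 2 * m / n := by positivity
  have hr1' : (ω 0 0 : ℝ) ^ 2 + (ω 1 0 : ℝ) ^ 2 ≤ (ω 0 1 : ℝ) ^ 2 + (ω 1 1 : ℝ) ^ 2 := by
    exact_mod_cast hr1
  have hr2' : ((ω 0 0 : ℝ) ^ 2 + (ω 1 0 : ℝ) ^ 2) * ((ω 0 1 : ℝ) ^ 2 + (ω 1 1 : ℝ) ^ 2) ≤
      2 * (n : ℝ) ^ 2 := by exact_mod_cast hr2
  rw [det_fin_two] at hdω
  have hb := box_count hm (A := √(((ω 0 1 : ℝ) ^ 2 + (ω 1 1 : ℝ) ^ 2) * (2 * H ^ 2 * m / n)))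
    (A' := √(((ω 0 0 : ℝ) ^ 2 + (ω 1 0 : ℝ) ^ 2) * (2 * H ^ 2 * m / n)))
    (Real.sqrt_le_sqrt (mul_le_mul_of_nonneg_right hr1' hc0)) (T.image φ) (by
      intro ζ hζ
      obtain ⟨η, hη, rfl⟩ := mem_image.1 hζ
      have hbd := (h η hη).2.2
      rw [Nat.cast_mul] at hbd
      have e : ∀ i j, η i j = ω i 0 * φ η 0 j + ω i 1 * φ η 1 j := fun i j => by
        conv_lhs => rw [hφ η hη]
        rw [Matrix.mul_apply, Fin.sum_univ_two]
      refine ⟨hdet η hη, fun j => xgc_row hn0 hm0 ?_ (hbd 0 j) (hbd 1 j), fun j =>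
        xgc_row (p := -ω 1 0) (q := -ω 0 0) hn0 hm0 ?_ (hbd 0 j) (hbd 1 j) |>.trans (by
          rw [neg_sq, neg_sq])⟩
      · have : (n : ℤ) * φ η 0 j = ω 1 1 * η 0 j - ω 0 1 * η 1 j := by
          rw [e 0 j, e 1 j, ← hdω]
          ring
        exact_mod_cast this
      · have : (n : ℤ) * φ η 1 j = -ω 1 0 * η 0 j - -ω 0 0 * η 1 j := by
          rw [e 0 j, e 1 j, ← hdω]
          ring
        exact_mod_cast this) (Real.sqrt_nonneg _) (by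
      intro ζ hζ
      obtain ⟨η, hη, rfl⟩ := mem_image.1 hζ
      by_contra hh
      push Not at hh
      have e := hdet η hη
      rw [det_fin_two, hh 0, hh 1, mul_zero, mul_zero, sub_zero] at e
      exact hm.ne (by exact_mod_cast e))
  rw [card_image_of_injOn hinj] at hb
  refine hb.trans (mul_le_mul_of_nonneg_right ?_ (Nat.cast_nonneg _))
  rw [← Real.sqrt_mul (by positivity)]
  have e : √(((ω 0 1 : ℝ) ^ 2 + (ω 1 1 : ℝ) ^ 2) * (2 * H ^ 2 * m / n) *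
      (((ω 0 0 : ℝ) ^ 2 + (ω 1 0 : ℝ) ^ 2) * (2 * H ^ 2 * m / n))) ≤ 4 * H ^ 2 * m := by
    refine Real.sqrt_le_iff.2 ⟨by positivity, ?_⟩
    calc _ = (((ω 0 0 : ℝ) ^ 2 + (ω 1 0 : ℝ) ^ 2) * ((ω 0 1 : ℝ) ^ 2 + (ω 1 1 : ℝ) ^ 2)) *
          (2 * H ^ 2 * m / n) ^ 2 := by ring
      _ ≤ (4 * (n : ℝ) ^ 2) * (2 * H ^ 2 * m / n) ^ 2 :=
          mul_le_mul_of_nonneg_right (by linarith [sq_nonneg (n : ℝ)]) (sq_nonneg _)
      _ = _ := by
          field_simp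
          ring
  linarith

theorem xgc_sub (T : Finset ℕ) {Y W : ℕ} (hW : 1 ≤ W) (hT : ∀ q ∈ T, q ≤ Y)
    (h : W < ∏ q ∈ T, q) : ∃ T' ⊆ T, W < ∏ q ∈ T', q ∧ ∏ q ∈ T', q ≤ Y * W := by
  induction T using Finset.induction_on with
  | empty =>
    rw [prod_empty] at h
    omega
  | insert q T hq ih =>
    by_cases h1 : W < ∏ q ∈ T, q
    · obtain ⟨T', a, b⟩ := ih (fun q' hq' => hT q' (mem_insert_of_mem hq')) h1
      exact ⟨T', a.trans (subset_insert _ _), b⟩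
    · refine ⟨_, Subset.rfl, h, ?_⟩
      rw [prod_insert hq]
      exact Nat.mul_le_mul (hT q (mem_insert_self _ _)) (not_lt.1 h1)

theorem xgc_cop {q q' : ℕ} (hq : q.Prime) (hq' : q'.Prime) (h : q ≠ q') :
    IsCoprime (q : ℤ) (q' : ℤ) :=
  Nat.isCoprime_iff_coprime.2 ((Nat.coprime_primes hq hq').2 h)

theorem xgc_crt (B : Finset ℕ) (hB : ∀ q ∈ B, q.Prime) (x : ℕ → ℤ) :
    ∃ z : ℤ, ∀ q ∈ B, (q : ℤ) ∣ z - x q := by
  induction B using Finset.induction_on with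
  | empty => exact ⟨0, by simp⟩
  | insert q B hq ih =>
    obtain ⟨z, hz⟩ := ih fun q' hq' => hB q' (mem_insert_of_mem hq')
    have hc : IsCoprime (∏ q' ∈ B, (q' : ℤ)) (q : ℤ) :=
      IsCoprime.prod_left fun q' hq' => xgc_cop (hB q' (mem_insert_of_mem hq'))
        (hB q (mem_insert_self _ _)) (fun e => hq (e ▸ hq'))
    obtain ⟨u, v, e⟩ := hc
    refine ⟨z + (x q - z) * u * ∏ q' ∈ B, (q' : ℤ), fun q' hq' => ?_⟩
    rcases mem_insert.1 hq' with rfl | hq'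
    · exact ⟨(z - x q') * v, by linear_combination (x q' - z) * e⟩
    · rw [add_sub_right_comm]
      exact (hz q' hq').add ((dvd_prod_of_mem (fun q' : ℕ => (q' : ℤ)) hq').mul_left _)

theorem xgc_prod_dvd {B : Finset ℕ} (hB : ∀ q ∈ B, q.Prime) {z : ℤ} (h : ∀ q ∈ B, (q : ℤ) ∣ z) :
    ((∏ q ∈ B, q : ℕ) : ℤ) ∣ z := by
  rw [Nat.cast_prod]
  exact Finset.prod_dvd_of_coprime (fun q hq q' hq' e => xgc_cop (hB q hq) (hB q' hq') e) h

theorem xgc_dir {ι : Type} [Fintype ι] (z : ι → ℤ) {m w : ℕ} (hw : 0 < w)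
    (h : w ^ Fintype.card ι < m) : ∃ t : ℤ, t ≠ 0 ∧ |t| < m ∧
      ∃ D : ι → ℤ, ∀ k, (m : ℤ) ∣ D k - t * z k ∧ |D k| * w < m := by
  have hm : (0 : ℤ) < m := by exact_mod_cast (Nat.zero_le _).trans_lt h
  have hw' : (0 : ℤ) < w := by exact_mod_cast hw
  obtain ⟨t, ht, t', ht', hne, he⟩ := Finset.exists_ne_map_eq_of_card_lt_of_maps_to
    (s := Ico (0 : ℤ) m) (t := Fintype.piFinset fun _ : ι => Ico (0 : ℤ) w)
    (f := fun t k => t * z k % m * w / m) (by simpa using h) (by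
      intro t _
      refine mem_coe.2 (Fintype.mem_piFinset.2 fun k => mem_Ico.2 ⟨?_, ?_⟩)
      · exact Int.ediv_nonneg (mul_nonneg (Int.emod_nonneg _ hm.ne') hw'.le) hm.le
      · rw [Int.ediv_lt_iff_lt_mul hm, mul_comm (w : ℤ)]
        exact mul_lt_mul_of_pos_right (Int.emod_lt_of_pos _ hm) hw')
  rw [mem_Ico] at ht ht'
  refine ⟨t - t', sub_ne_zero.2 hne, abs_lt.2 ⟨by linarith, by linarith⟩,
    fun k => t * z k % m - t' * z k % m, fun k => ⟨?_, ?_⟩⟩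
  · exact ⟨t' * z k / m - t * z k / m, by
      linear_combination Int.emod_add_mul_ediv (t * z k) m - Int.emod_add_mul_ediv (t' * z k) m⟩
  · have e : t * z k % m * w / m = t' * z k % m * w / m := congrFun he k
    have e1 := Int.emod_add_mul_ediv (t * z k % m * w) m
    have e2 := Int.emod_add_mul_ediv (t' * z k % m * w) m
    have a1 := Int.emod_nonneg (t * z k % m * w) hm.ne'
    have a2 := Int.emod_nonneg (t' * z k % m * w) hm.ne'
    have b1 := Int.emod_lt_of_pos (t * z k % m * w) hm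
    have b2 := Int.emod_lt_of_pos (t' * z k % m * w) hm
    rw [e] at e1
    rw [← abs_of_pos hw', ← abs_mul, abs_lt]
    constructor <;> linarith

theorem xgc_small {a b H m w : ℤ} (hw : 0 ≤ w) (ha : |a| ≤ H) (hb : |b| * w < m) :
    |a * b| * w ≤ H * m := by
  rw [abs_mul, mul_assoc]
  exact mul_le_mul ha hb.le (mul_nonneg (abs_nonneg _) hw) ((abs_nonneg _).trans ha)

theorem tv {r : ℕ} (η η' : Fin r → M2) {H Y : ℕ} (T : Finset ℕ) (X X' : ℕ → M2)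
    (hT : ∀ q ∈ T, q.Prime ∧ q ≤ Y ∧ ¬ (q : ℤ) ∣ (X q).det ∧
      ∀ s i j, (q : ℤ) ∣ (η' s * X q - X' q * η s) i j)
    (hH : ∀ s i j, |η s i j| ≤ H ∧ |η' s i j| ≤ H) (hbig : (8 * H + 1) ^ 8 < ∏ q ∈ T, q) :
    ∃ Z Z' : M2, Z.det ≠ 0 ∧ (∀ i j, |Z i j| ≤ Y * (8 * H + 1) ^ 7) ∧
      ∀ s, η' s * Z = Z' * η s := by
  obtain ⟨T', hsub, hlo, hhi⟩ := xgc_sub T (Y := Y) (Nat.one_le_pow _ _ (by omega))
    (fun q hq => (hT q hq).2.1) hbig
  have hp : ∀ q ∈ T', q.Prime := fun q hq => (hT q (hsub hq)).1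
  choose z hz using fun k : Bool × Fin 2 × Fin 2 =>
    xgc_crt T' hp fun q => if k.1 then X q k.2.1 k.2.2 else X' q k.2.1 k.2.2
  obtain ⟨t, ht0, htm, D, hD⟩ := xgc_dir z (m := ∏ q ∈ T', q) (w := 8 * H + 1) (by omega)
    (by simpa using hlo)
  have hq : ∀ q ∈ T', ∀ k : Bool × Fin 2 × Fin 2,
      (q : ℤ) ∣ D k - t * (if k.1 then X q k.2.1 k.2.2 else X' q k.2.1 k.2.2) := by
    intro q hq k
    have h1 : (q : ℤ) ∣ D k - t * z k :=
      (Int.natCast_dvd_natCast.2 (dvd_prod_of_mem (fun q => q) hq)).trans (hD k).1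
    have h2 := h1.add ((hz k q hq).mul_left t)
    rwa [show ∀ a b c e : ℤ, a - b * c + b * (c - e) = a - b * e from fun a b c e => by ring] at h2
  have hq1 : ∀ q ∈ T', ∀ i j, ∃ a, D (true, i, j) = t * X q i j + q * a := fun q hq' i j => by
    obtain ⟨a, ha⟩ := hq q hq' (true, i, j)
    exact ⟨a, by simpa [sub_eq_iff_eq_add'] using ha⟩
  have hq2 : ∀ q ∈ T', ∀ i j, ∃ a, D (false, i, j) = t * X' q i j + q * a := fun q hq' i j => by
    obtain ⟨a, ha⟩ := hq q hq' (false, i, j)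
    exact ⟨a, by simpa [sub_eq_iff_eq_add'] using ha⟩
  have hw : (0 : ℤ) < ((8 * H + 1 : ℕ) : ℤ) := by exact_mod_cast Nat.succ_pos _
  refine ⟨Matrix.of fun i j => D (true, i, j), Matrix.of fun i j => D (false, i, j), ?_, ?_, ?_⟩
  · intro hdet
    have hex : ∃ q ∈ T', ¬ (q : ℤ) ∣ t := by
      by_contra hh
      push Not at hh
      exact ht0 (Int.eq_zero_of_abs_lt_dvd (xgc_prod_dvd hp hh) htm)
    obtain ⟨q, hq', hqt⟩ := hex
    have hpq : Prime (q : ℤ) := Nat.prime_iff_prime_int.1 (hp q hq')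
    choose a ha using hq1 q hq'
    rw [det_fin_two] at hdet
    simp only [Matrix.of_apply, ha] at hdet
    have h1 : (q : ℤ) ∣ t * (t * (X q).det) := by
      rw [det_fin_two]
      exact ⟨-(t * X q 0 0 * a 1 1 + a 0 0 * (t * X q 1 1 + q * a 1 1) -
        (t * X q 0 1 * a 1 0 + a 0 1 * (t * X q 1 0 + q * a 1 0))), by linear_combination hdet⟩
    rcases hpq.dvd_or_dvd h1 with h2 | h2
    · exact hqt h2
    · rcases hpq.dvd_or_dvd h2 with h3 | h3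
      · exact hqt h3
      · exact (hT q (hsub hq')).2.2.1 h3
  · intro i j
    have h1 := (hD (true, i, j)).2
    have h2 : ((∏ q ∈ T', q : ℕ) : ℤ) ≤ Y * (8 * H + 1) ^ 7 * ((8 * H + 1 : ℕ) : ℤ) := by
      have : ((∏ q ∈ T', q : ℕ) : ℤ) ≤ ((Y * (8 * H + 1) ^ 8 : ℕ) : ℤ) := by exact_mod_cast hhi
      refine this.trans (le_of_eq ?_)
      push_cast
      ring
    exact le_of_mul_le_mul_right (h1.le.trans h2) hw
  · intro s
    ext i j
    rw [← sub_eq_zero]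
    simp only [Matrix.mul_apply, Fin.sum_univ_two, Matrix.of_apply]
    refine Int.eq_zero_of_abs_lt_dvd (xgc_prod_dvd hp fun q hq' => ?_) ?_
    · choose a ha using hq1 q hq'
      choose b hb using hq2 q hq'
      obtain ⟨c, hc⟩ := (hT q (hsub hq')).2.2.2 s i j
      simp only [Matrix.sub_apply, Matrix.mul_apply, Fin.sum_univ_two] at hc
      simp only [ha, hb]
      exact ⟨t * c + (η' s i 0 * a 0 j + η' s i 1 * a 1 j - (b i 0 * η s 0 j + b i 1 * η s 1 j)),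
        by linear_combination t * hc⟩
    · have e1 := xgc_small hw.le (hH s i 0).2 (hD (true, 0, j)).2
      have e2 := xgc_small hw.le (hH s i 1).2 (hD (true, 1, j)).2
      have e3 := xgc_small hw.le (hH s 0 j).1 (hD (false, i, 0)).2
      have e4 := xgc_small hw.le (hH s 1 j).1 (hD (false, i, 1)).2
      have hm : (0 : ℤ) < ((∏ q ∈ T', q : ℕ) : ℤ) := (abs_nonneg t).trans_lt htm
      rw [mul_comm (η s 0 j)] at e3
      rw [mul_comm (η s 1 j)] at e4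
      generalize η' s i 0 * D (true, 0, j) = x1 at *
      generalize η' s i 1 * D (true, 1, j) = x2 at *
      generalize D (false, i, 0) * η s 0 j = x3 at *
      generalize D (false, i, 1) * η s 1 j = x4 at *
      have e5 : |x1 + x2 - (x3 + x4)| ≤ |x1| + |x2| + (|x3| + |x4|) :=
        (abs_sub _ _).trans (add_le_add (abs_add_le _ _) (abs_add_le _ _))
      refine lt_of_mul_lt_mul_right ?_ hw.le
      have e6 := mul_le_mul_of_nonneg_right e5 hw.le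
      have e7 : (0 : ℤ) ≤ H * ((∏ q ∈ T', q : ℕ) : ℤ) := mul_nonneg (Nat.cast_nonneg _) hm.le
      have e8 : ((∏ q ∈ T', q : ℕ) : ℤ) * ((8 * H + 1 : ℕ) : ℤ) =
          8 * (H * ((∏ q ∈ T', q : ℕ) : ℤ)) + ((∏ q ∈ T', q : ℕ) : ℤ) := by
        push_cast
        ring
      linarith

theorem xgc_blocks {b : ℕ} (hb : 0 < b) (k : ℕ) : ∀ B : Finset ℕ, #B = k * b →
    ∃ F : Finset (Finset ℕ), #F ≤ k ∧ (∀ E ∈ F, E ⊆ B ∧ #E = b) ∧
      ∀ D ⊆ B, #D ≤ ∑ E ∈ F, #(E ∩ D) := by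
  induction k with
  | zero =>
    intro B hB
    refine ⟨∅, le_rfl, by simp, fun D hD => ?_⟩
    have := card_le_card hD
    omega
  | succ k ih =>
    intro B hB
    obtain ⟨E, hE, hEb⟩ := exists_subset_card_eq (s := B) (n := b) (by rw [hB, add_mul]; omega)
    obtain ⟨F, h1, h2, h3⟩ := ih (B \ E) (by rw [card_sdiff_of_subset hE, hB, hEb, add_mul]; omega)
    have hEF : E ∉ F := by
      intro hh
      obtain ⟨x, hx⟩ := card_pos.1 (hEb ▸ hb)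
      exact (mem_sdiff.1 ((h2 E hh).1 hx)).2 hx
    refine ⟨insert E F, (card_insert_le _ _).trans (by omega), ?_, fun D hD => ?_⟩
    · intro E' hE'
      rcases mem_insert.1 hE' with rfl | hE'
      · exact ⟨hE, hEb⟩
      · exact ⟨(h2 E' hE').1.trans sdiff_subset, (h2 E' hE').2⟩
    · rw [sum_insert hEF, ← card_inter_add_card_sdiff D E, inter_comm]
      refine Nat.add_le_add_left ((h3 _ (sdiff_subset_sdiff hD Subset.rfl)).trans ?_) _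
      exact sum_le_sum fun E' _ => card_le_card (inter_subset_inter Subset.rfl sdiff_subset)

theorem exists_blocks (B : Finset ℕ) (hB : B.Nonempty) {b : ℕ} (hb : 0 < b) (h : b ∣ #B) :
    ∃ F : Finset (Finset ℕ), #F ≤ #B ∧ (∀ E ∈ F, E ⊆ B ∧ #E = b) ∧
      ∀ D ⊆ B, ∃ E ∈ F, #D * b ≤ #(E ∩ D) * #B := by
  obtain ⟨k, hk⟩ := h
  rw [mul_comm] at hk
  obtain ⟨F, h1, h2, h3⟩ := xgc_blocks hb k B hk
  have hF : F.Nonempty := by
    rcases F.eq_empty_or_nonempty with rfl | hF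
    · have := h3 B Subset.rfl
      have := hB.card_pos
      rw [sum_empty] at *
      omega
    · exact hF
  refine ⟨F, h1.trans (hk ▸ Nat.le_mul_of_pos_right _ hb), h2, fun D hD => ?_⟩
  refine exists_le_of_sum_le hF ?_
  rw [sum_const, smul_eq_mul, ← sum_mul]
  calc #F * (#D * b) ≤ k * (#D * b) := Nat.mul_le_mul_right _ h1
    _ = #D * #B := by rw [hk]; ring
    _ ≤ _ := Nat.mul_le_mul_right _ (h3 D hD)

end Pool.Agent.EQ
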