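import Pool.Agent.P.MP_ad7a55_nt.XGa
import Pool.Agent.P.MP_ad7a55_nt.XGc
import Pool.Agent.P.MP_ad7a55_nt.CtA
import Pool.Agent.P.MP_ad7a55_nt.TLv

/-! Pairs of matrices that are proportional modulo many primes. -/

set_option autoImplicit false

noncomputable section

open Finset Matrix
open scoped MatrixGroups Classical

namespace Pool.Agent.EQ

theorem xgd_fib {α β : Type} [DecidableEq β] (s : Finset α) (f : α → β) {x : ℝ}
    (h : ∀ a₀ ∈ s, (#{a ∈ s | f a = f a₀} : ℝ) ≤ x) : (#s : ℝ) ≤ #(s.image f) * x := by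
  rw [card_eq_sum_card_image f s, Nat.cast_sum, ← nsmul_eq_mul]
  refine sum_le_card_nsmul _ _ _ fun b hb => ?_
  obtain ⟨a, ha, rfl⟩ := mem_image.1 hb
  exact h a ha

theorem xgd_fin {α : Type} (S : Set α) {x : ℝ} (h : ∀ T : Finset α, (∀ a ∈ T, a ∈ S) → (#T : ℝ) ≤ x) :
    ∃ T : Finset α, (#T : ℝ) ≤ x ∧ ∀ a ∈ S, a ∈ T := by
  have hS : S.Finite := by
    by_contra hi
    obtain ⟨T, h1, h2⟩ := Set.Infinite.exists_subset_card_eq hi (⌈x⌉₊ + 1)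
    have h3 := h T fun a ha => h1 (mem_coe.2 ha)
    rw [h2] at h3
    push_cast at h3
    linarith [Nat.le_ceil x]
  exact ⟨hS.toFinset, h _ fun a ha => hS.mem_toFinset.1 ha, fun a ha => hS.mem_toFinset.2 ha⟩

theorem xgd_div {ε : ℝ} (hε : 0 < ε) : ∃ C : ℝ, 0 < C ∧ ∀ (H : ℝ) (k : ℤ) (S : Finset ℤ),
    0 ≤ H → k ≠ 0 → |(k : ℝ)| ≤ H ^ 2 → (∀ a ∈ S, a ∣ k) → (#S : ℝ) ≤ C * H ^ ε := by
  obtain ⟨C, hC, h⟩ := div_bound (half_pos hε)
  refine ⟨2 * C, by positivity, fun H k S hH hk hb hS => ?_⟩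
  have h1 : S ⊆ k.natAbs.divisors.image (fun d : ℕ => (d : ℤ)) ∪
      k.natAbs.divisors.image fun d : ℕ => -(d : ℤ) := by
    intro a ha
    have h2 : a.natAbs ∈ k.natAbs.divisors :=
      Nat.mem_divisors.2 ⟨Int.natAbs_dvd_natAbs.2 (hS a ha), Int.natAbs_ne_zero.2 hk⟩
    rcases Int.natAbs_eq a with e | e
    · exact mem_union_left _ (mem_image.2 ⟨_, h2, e.symm⟩)
    · exact mem_union_right _ (mem_image.2 ⟨_, h2, e.symm⟩)
  have h2 : #S ≤ #k.natAbs.divisors + #k.natAbs.divisors :=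
    (card_le_card h1).trans ((card_union_le _ _).trans (add_le_add card_image_le card_image_le))
  have h3 : (#S : ℝ) ≤ #k.natAbs.divisors + #k.natAbs.divisors := by exact_mod_cast h2
  have h4 := h k.natAbs (Int.natAbs_pos.2 hk)
  have h5 : (k.natAbs : ℝ) ^ (ε / 2) ≤ H ^ ε := by
    have e : H ^ ε = (H ^ 2) ^ (ε / 2) := by
      rw [← Real.rpow_natCast, ← Real.rpow_mul hH]
      congr 1
      push_cast
      ring
    rw [e]
    refine Real.rpow_le_rpow (Nat.cast_nonneg _) ?_ (half_pos hε).le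
    rw [Nat.cast_natAbs, Int.cast_abs]
    exact hb
  have h6 := mul_le_mul_of_nonneg_left h5 hC.le
  linarith

theorem xgd_cnt {q : ℕ} {A : ℤ → Prop} (t : Finset ℕ) (h : ∀ r < q, A r → r ∈ t) :
    cnt q A ≤ #t := by
  unfold cnt
  refine card_le_card fun r hr => ?_
  simp only [mem_filter, mem_range] at hr
  exact h r hr.1 hr.2

theorem xgd_root {q n : ℕ} (hq : q.Prime) (h2 : q ≠ 2) (hn : ¬ q ∣ n) :
    cnt (q ^ 2) (fun x => (q : ℤ) ^ 2 ∣ x ^ 2 - 4 * n) ≤ 2 := by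
  have hp : Prime (q : ℤ) := Nat.prime_iff_prime_int.1 hq
  have h3 : ¬ (q : ℤ) ∣ 2 := fun h =>
    h2 ((Nat.prime_dvd_prime_iff_eq hq Nat.prime_two).1 (by exact_mod_cast h))
  by_cases hex : ∃ r₀ < q ^ 2, (q : ℤ) ^ 2 ∣ (r₀ : ℤ) ^ 2 - 4 * n
  swap
  · exact (xgd_cnt ∅ fun r a b => absurd ⟨r, a, b⟩ hex).trans (by simp)
  obtain ⟨r₀, a0, b0⟩ := hex
  have h4 : ¬ (q : ℤ) ∣ r₀ := fun h => by
    have h5 : (q : ℤ) ∣ 2 * (2 * n) := by
      have := (h.mul_left r₀).sub ((dvd_pow_self _ two_ne_zero).trans b0)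
      exact this.trans (dvd_of_eq (by ring))
    have h6 := (hp.dvd_or_dvd ((hp.dvd_or_dvd h5).resolve_left h3)).resolve_left h3
    exact hn (by exact_mod_cast h6)
  refine le_trans (xgd_cnt {r₀, q ^ 2 - r₀} fun r a1 b1 => ?_) card_le_two
  have h5 : (q : ℤ) ^ 2 ∣ ((r : ℤ) - r₀) * (r + r₀) := (b1.sub b0).trans (dvd_of_eq (by ring))
  have a0' : (r₀ : ℤ) < (q : ℤ) ^ 2 := by exact_mod_cast a0
  have a1' : (r : ℤ) < (q : ℤ) ^ 2 := by exact_mod_cast a1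
  rw [mem_insert, mem_singleton]
  by_cases h6 : (q : ℤ) ∣ (r : ℤ) - r₀
  · have h7 : ¬ (q : ℤ) ∣ (r : ℤ) + r₀ := fun h =>
      h4 ((hp.dvd_or_dvd ((h.sub h6).trans (dvd_of_eq (by ring : _ = 2 * (r₀ : ℤ))))).resolve_left h3)
    have h8 := Int.eq_zero_of_abs_lt_dvd (hp.pow_dvd_of_dvd_mul_right 2 h7 h5)
      (abs_lt.2 ⟨by omega, by omega⟩)
    omega
  · have h7 := (hp.pow_dvd_of_dvd_mul_left 2 h6 h5).sub (dvd_refl _)
    have h9 : r₀ ≠ 0 := fun h => h4 (by rw [h]; simp)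
    have h8 := Int.eq_zero_of_abs_lt_dvd h7 (abs_lt.2 ⟨by omega, by omega⟩)
    have h10 : ((r + r₀ : ℕ) : ℤ) = (q ^ 2 : ℕ) := by
      push_cast
      linarith
    have h11 : r + r₀ = q ^ 2 := by exact_mod_cast h10
    omega

theorem xgd_int {q : ℕ} (hq : 0 < q) {A : ℤ → Prop} (hA : ∀ x y, (q : ℤ) ∣ x - y → A x → A y)
    {H : ℝ} (hH : (q : ℝ) ≤ H) (S : Finset ℤ) (hS : ∀ x ∈ S, |(x : ℝ)| ≤ 2 * H ∧ A x) :
    (#S : ℝ) ≤ cnt q A * (6 * H / q) := by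
  have hq' : (1 : ℝ) ≤ q := by exact_mod_cast hq
  have h1 := card_le_cnt hq hA (-(⌊2 * H⌋₊ : ℤ)) (2 * ⌊2 * H⌋₊ + 1) S fun x hx => by
    have h2 : x.natAbs ≤ ⌊2 * H⌋₊ := Nat.le_floor (by
      rw [Nat.cast_natAbs, Int.cast_abs]
      exact (hS x hx).1)
    refine ⟨by omega, ?_, (hS x hx).2⟩
    push_cast
    omega
  refine h1.trans (mul_le_mul_of_nonneg_left ?_ (Nat.cast_nonneg _))
  have h2 := Nat.floor_le (by linarith : 0 ≤ 2 * H)
  rw [div_add_one (by linarith)]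
  refine div_le_div_of_nonneg_right ?_ (by linarith)
  push_cast
  linarith

theorem xgd_mult {q : ℕ} (hq : 0 < q) {H : ℝ} (hH : (q : ℝ) ≤ H) (S : Finset ℤ)
    (hS : ∀ x ∈ S, |(x : ℝ)| ≤ 2 * H ∧ (q : ℤ) ∣ x) : (#S : ℝ) ≤ 6 * H / q := by
  have h1 := xgd_int hq (A := fun x => (q : ℤ) ∣ x)
    (fun x y h h' => (h'.sub h).trans (dvd_of_eq (by ring))) hH S hS
  have h2 : cnt q (fun x => (q : ℤ) ∣ x) ≤ 1 := by
    exact le_trans (xgd_cnt {0} fun r h3 h4 => mem_singleton.2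
      (Nat.eq_zero_of_dvd_of_lt (by exact_mod_cast h4) h3)) (card_singleton _).le
  have h3 : (cnt q (fun x => (q : ℤ) ∣ x) : ℝ) ≤ 1 := by exact_mod_cast h2
  have h4 : (0 : ℝ) ≤ 6 * H / q := div_nonneg (by linarith [Nat.cast_nonneg (α := ℝ) q])
    (Nat.cast_nonneg _)
  nlinarith

theorem xgd_dvd {B : Finset ℕ} (hB : ∀ q ∈ B, q.Prime) {x : ℤ} (h : ∀ q ∈ B, (q : ℤ) ∣ x) :
    ((∏ q ∈ B, q : ℕ) : ℤ) ∣ x := by
  rw [Nat.cast_prod]
  exact Finset.prod_dvd_of_coprime (fun a ha b hb hab => Nat.isCoprime_iff_coprime.2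
    ((Nat.coprime_primes (hB a ha) (hB b hb)).2 hab)) h

theorem xgd_abs {a b : ℤ} {H : ℝ} (ha : |(a : ℝ)| ≤ H) (hb : |(b : ℝ)| ≤ H) :
    |((a * b : ℤ) : ℝ)| ≤ H ^ 2 ∧ |((a + b : ℤ) : ℝ)| ≤ 2 * H ∧ |((a - b : ℤ) : ℝ)| ≤ 2 * H := by
  push_cast
  refine ⟨?_, (abs_add_le _ _).trans (by linarith), (abs_sub _ _).trans (by linarith)⟩
  rw [abs_mul, sq]
  exact mul_le_mul ha hb (abs_nonneg _) ((abs_nonneg _).trans ha)

theorem xgd_ext {η ζ : M2} (h0 : η 0 0 = ζ 0 0) (h1 : η 0 1 = ζ 0 1) (h2 : η 1 0 = ζ 1 0)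
    (h3 : η 1 1 = ζ 1 1) : η = ζ := by
  rw [Matrix.eta_fin_two η, Matrix.eta_fin_two ζ, h0, h1, h2, h3]

theorem scal_count {ε : ℝ} (hε : 0 < ε) : ∃ C : ℝ, 0 < C ∧ ∀ (B : Finset ℕ) (n : ℕ) (H : ℝ)
    (T : Finset M2), (∀ q ∈ B, q.Prime ∧ q ≠ 2 ∧ ¬ q ∣ n) → 0 < n →
    ((∏ q ∈ B, q : ℕ) : ℝ) ^ 2 ≤ H →
    (∀ η ∈ T, η.det = n ∧ (∀ i j, |(η i j : ℝ)| ≤ H) ∧
      ∀ q ∈ B, (q : ℤ) ∣ η 0 1 ∧ (q : ℤ) ∣ η 1 0 ∧ (q : ℤ) ∣ η 0 0 - η 1 1) →
    (#T : ℝ) ≤ C * 2 ^ #B * H ^ (2 + ε) / ((∏ q ∈ B, q : ℕ) : ℝ) ^ 3 := by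
  obtain ⟨C, hC, hdiv⟩ := xgd_div hε
  refine ⟨48 * C, by positivity, fun B n H T hB hn hH hT => ?_⟩
  have hP : ∀ q ∈ B, q.Prime := fun q hq => (hB q hq).1
  have hQ0 : 0 < ∏ q ∈ B, q := prod_pos fun q hq => (hP q hq).pos
  have hc : (cnt ((∏ q ∈ B, q) ^ 2) (fun x => ∀ q ∈ B, (q : ℤ) ^ 2 ∣ x ^ 2 - 4 * n) : ℝ) ≤
      2 ^ #B := by
    rw [← prod_pow, cnt_prod B hP (fun _ => 2) (fun q x => (q : ℤ) ^ 2 ∣ x ^ 2 - 4 * n)
      fun l _ x y h h' => (h'.sub (h.mul_right (x + y))).trans (dvd_of_eq (by ring))]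
    exact_mod_cast prod_le_pow_card _ _ 2 fun q hq => xgd_root (hP q hq) (hB q hq).2.1 (hB q hq).2.2
  have hA : ∀ x y : ℤ, (((∏ q ∈ B, q) ^ 2 : ℕ) : ℤ) ∣ x - y →
      (∀ q ∈ B, (q : ℤ) ^ 2 ∣ x ^ 2 - 4 * n) → ∀ q ∈ B, (q : ℤ) ^ 2 ∣ y ^ 2 - 4 * n := by
    intro x y h h' q hq
    have h1 : (q : ℤ) ^ 2 ∣ x - y := dvd_trans (by
      exact_mod_cast pow_dvd_pow_of_dvd (dvd_prod_of_mem (fun q : ℕ => q) hq) 2) h
    exact ((h' q hq).sub (h1.mul_right (x + y))).trans (dvd_of_eq (by ring))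
  have hd : ∀ η ∈ T, ((∏ q ∈ B, q : ℕ) : ℤ) ∣ η 0 1 ∧ ((∏ q ∈ B, q : ℕ) : ℤ) ∣ η 1 0 ∧
      ((∏ q ∈ B, q : ℕ) : ℤ) ∣ η 0 0 - η 1 1 := fun η hη =>
    ⟨xgd_dvd hP fun q hq => ((hT η hη).2.2 q hq).1, xgd_dvd hP fun q hq => ((hT η hη).2.2 q hq).2.1,
      xgd_dvd hP fun q hq => ((hT η hη).2.2 q hq).2.2⟩
  have hdet : ∀ η ∈ T, η 0 0 * η 1 1 - η 0 1 * η 1 0 = n := fun η hη => by
    rw [← Matrix.det_fin_two, (hT η hη).1]
  generalize (∏ q ∈ B, q) = Q at hQ0 hc hA hd hH ⊢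
  have hQ1 : (1 : ℝ) ≤ Q := by exact_mod_cast hQ0
  have hQH : (Q : ℝ) ≤ H := by nlinarith
  have hH0 : 0 < H := by linarith
  have hx : 0 ≤ C * H ^ ε := by positivity
  have hn' : (n : ℤ) ≠ 0 := by exact_mod_cast hn.ne'
  have h1 : (#{η ∈ T | η 0 1 * η 1 0 ≠ 0} : ℝ) ≤
      2 ^ #B * (6 * H / Q ^ 2) * (6 * H / Q) * (C * H ^ ε) := by
    generalize hU : T.filter (fun η => η 0 1 * η 1 0 ≠ 0) = U
    have hm : ∀ η ∈ U, η ∈ T ∧ η 0 1 * η 1 0 ≠ 0 := fun η hη => by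
      rw [← hU] at hη
      exact mem_filter.1 hη
    refine (xgd_fib U (fun η => (η 0 0 + η 1 1, η 0 0 - η 1 1)) (x := C * H ^ ε)
      fun ζ hζ => ?_).trans (mul_le_mul_of_nonneg_right ?_ hx)
    · obtain ⟨z1, z2⟩ := hm ζ hζ
      have key : ∀ η ∈ U.filter fun η => (η 0 0 + η 1 1, η 0 0 - η 1 1) =
          (ζ 0 0 + ζ 1 1, ζ 0 0 - ζ 1 1),
          η 0 0 = ζ 0 0 ∧ η 1 1 = ζ 1 1 ∧ η 0 1 * η 1 0 = ζ 0 1 * ζ 1 0 := fun η hη => by
        obtain ⟨h2, h3⟩ := mem_filter.1 hη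
        obtain ⟨h4, h5⟩ := Prod.mk.inj h3
        have e0 : η 0 0 = ζ 0 0 := by omega
        have e1 : η 1 1 = ζ 1 1 := by omega
        have h6 := hdet η (hm η h2).1
        rw [e0, e1] at h6
        exact ⟨e0, e1, by linear_combination hdet ζ z1 - h6⟩
      rw [← card_image_of_injOn (f := fun η : M2 => η 0 1) fun η hη η' hη' e => ?_]
      · refine hdiv H _ _ hH0.le z2 (xgd_abs ((hT ζ z1).2.1 0 1) ((hT ζ z1).2.1 1 0)).1
          fun a ha => ?_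
        obtain ⟨η, hη, rfl⟩ := mem_image.1 ha
        exact Dvd.intro _ (key η hη).2.2
      · obtain ⟨a0, a1, a2⟩ := key η (mem_coe.1 hη)
        obtain ⟨b0, b1, b2⟩ := key η' (mem_coe.1 hη')
        have e' : η 0 1 = η' 0 1 := e
        refine xgd_ext (a0.trans b0.symm) e' ?_ (a1.trans b1.symm)
        refine mul_left_cancel₀ (left_ne_zero_of_mul (a2 ▸ z2)) ?_
        rw [a2, e', b2]
    · have h2 : U.image (fun η => (η 0 0 + η 1 1, η 0 0 - η 1 1)) ⊆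
          U.image (fun η => η 0 0 + η 1 1) ×ˢ U.image fun η => η 0 0 - η 1 1 := by
        intro z hz
        obtain ⟨η, hη, rfl⟩ := mem_image.1 hz
        exact mem_product.2 ⟨mem_image_of_mem _ hη, mem_image_of_mem _ hη⟩
      have h3 := xgd_int (pow_pos hQ0 2) hA (H := H) (by exact_mod_cast hH)
        (U.image fun η => η 0 0 + η 1 1) fun x hx => by
          obtain ⟨η, hη, rfl⟩ := mem_image.1 hx
          have h4 := (hm η hη).1
          refine ⟨(xgd_abs ((hT η h4).2.1 0 0) ((hT η h4).2.1 1 1)).2.1, fun q hq => ?_⟩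
          obtain ⟨⟨u, hu⟩, ⟨v, hv⟩, w, hw⟩ := (hT η h4).2.2 q hq
          refine ⟨w ^ 2 + 4 * u * v, ?_⟩
          have h5 := hdet η h4
          rw [hu, hv] at h5
          linear_combination (η 0 0 - η 1 1 + q * w) * hw + 4 * h5
      have h4 := xgd_mult hQ0 hQH (U.image fun η => η 0 0 - η 1 1) fun x hx => by
        obtain ⟨η, hη, rfl⟩ := mem_image.1 hx
        have h4 := (hm η hη).1
        exact ⟨(xgd_abs ((hT η h4).2.1 0 0) ((hT η h4).2.1 1 1)).2.2, (hd η h4).2.2⟩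
      have h5 := card_le_card h2
      rw [card_product] at h5
      refine le_trans (by exact_mod_cast h5) (mul_le_mul (h3.trans ?_) h4 (Nat.cast_nonneg _)
        (by positivity))
      push_cast
      exact mul_le_mul_of_nonneg_right hc (by positivity)
  have h2 : (#{η ∈ T | ¬ η 0 1 * η 1 0 ≠ 0} : ℝ) ≤ C * H ^ ε * (12 * H / Q) := by
    generalize hU : T.filter (fun η => ¬ η 0 1 * η 1 0 ≠ 0) = U
    have hm : ∀ η ∈ U, η ∈ T ∧ η 0 1 * η 1 0 = 0 ∧ η 0 0 * η 1 1 = n := fun η hη => by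
      rw [← hU] at hη
      obtain ⟨h2, h3⟩ := mem_filter.1 hη
      exact ⟨h2, not_not.1 h3, by linear_combination hdet η h2 + not_not.1 h3⟩
    refine (xgd_fib U (fun η => η 0 0) (x := 12 * H / Q) fun ζ hζ => ?_).trans ?_
    · obtain ⟨z1, -, z3⟩ := hm ζ hζ
      generalize hW : U.filter (fun η => η 0 0 = ζ 0 0) = W
      have key : ∀ η ∈ W, η ∈ U ∧ η 0 0 = ζ 0 0 ∧ η 1 1 = ζ 1 1 := fun η hη => by
        rw [← hW] at hη
        obtain ⟨h2, h3⟩ := mem_filter.1 hη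
        refine ⟨h2, h3, mul_left_cancel₀ (left_ne_zero_of_mul (z3 ▸ hn')) ?_⟩
        rw [z3, ← h3, (hm η h2).2.2]
      have hb : ∀ η ∈ W, ∀ i j, |(η i j : ℝ)| ≤ 2 * H := fun η hη i j =>
        ((hT η (hm η (key η hη).1).1).2.1 i j).trans (by linarith)
      have a1 : (#{η ∈ W | η 0 1 = 0} : ℝ) ≤ 6 * H / Q := by
        rw [← card_image_of_injOn (f := fun η : M2 => η 1 0) fun η hη η' hη' e => ?_]
        · refine xgd_mult hQ0 hQH _ fun x hx => ?_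
          obtain ⟨η, hη, rfl⟩ := mem_image.1 hx
          have h2 := (mem_filter.1 hη).1
          exact ⟨hb η h2 1 0, (hd η (hm η (key η h2).1).1).2.1⟩
        · obtain ⟨h2, h3⟩ := mem_filter.1 (mem_coe.1 hη)
          obtain ⟨h4, h5⟩ := mem_filter.1 (mem_coe.1 hη')
          exact xgd_ext ((key η h2).2.1.trans (key η' h4).2.1.symm) (h3.trans h5.symm) e
            ((key η h2).2.2.trans (key η' h4).2.2.symm)
      have a2 : (#{η ∈ W | ¬ η 0 1 = 0} : ℝ) ≤ 6 * H / Q := by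
        rw [← card_image_of_injOn (f := fun η : M2 => η 0 1) fun η hη η' hη' e => ?_]
        · refine xgd_mult hQ0 hQH _ fun x hx => ?_
          obtain ⟨η, hη, rfl⟩ := mem_image.1 hx
          have h2 := (mem_filter.1 hη).1
          exact ⟨hb η h2 0 1, (hd η (hm η (key η h2).1).1).1⟩
        · obtain ⟨h2, h3⟩ := mem_filter.1 (mem_coe.1 hη)
          obtain ⟨h4, h5⟩ := mem_filter.1 (mem_coe.1 hη')
          exact xgd_ext ((key η h2).2.1.trans (key η' h4).2.1.symm) e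
            (((mul_eq_zero.1 (hm η (key η h2).1).2.1).resolve_left h3).trans
              ((mul_eq_zero.1 (hm η' (key η' h4).1).2.1).resolve_left h5).symm)
            ((key η h2).2.2.trans (key η' h4).2.2.symm)
      have a3 := card_filter_add_card_filter_not (s := W) fun η => η 0 1 = 0
      rw [← a3, Nat.cast_add]
      exact (add_le_add a1 a2).trans (le_of_eq (by ring))
    · refine mul_le_mul_of_nonneg_right ?_ (by positivity)
      rcases U.eq_empty_or_nonempty with rfl | ⟨ζ, hζ⟩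
      · simpa using hx
      obtain ⟨z1, -, z3⟩ := hm ζ hζ
      refine hdiv H n _ hH0.le hn' (z3 ▸ (xgd_abs ((hT ζ z1).2.1 0 0) ((hT ζ z1).2.1 1 1)).1)
        fun a ha => ?_
      obtain ⟨η, hη, rfl⟩ := mem_image.1 ha
      exact Dvd.intro _ (hm η hη).2.2
  have h3 := card_filter_add_card_filter_not (s := T) fun η => η 0 1 * η 1 0 ≠ 0
  rw [← h3, Nat.cast_add, Real.rpow_add hH0, Real.rpow_two]
  have h4 : (1 : ℝ) ≤ 2 ^ #B := one_le_pow₀ one_le_two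
  have h5 : 12 * H / Q ≤ 2 ^ #B * (12 * H ^ 2 / Q ^ 3) := by
    refine le_trans ?_ (le_mul_of_one_le_left (by positivity) h4)
    rw [div_le_div_iff₀ (by positivity) (by positivity)]
    have := mul_le_mul_of_nonneg_left hH (by positivity : 0 ≤ 12 * H * Q)
    linarith
  refine (add_le_add h1 (h2.trans (mul_le_mul_of_nonneg_left h5 hx))).trans (le_of_eq ?_)
  field_simp
  ring

/-- The bound for the number of colliding patterns. -/
def CTP (H ε C : ℝ) : Prop :=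
  ∀ β β' B : Finset ℕ, (∀ l ∈ β ∪ β', l.Prime) → (∀ q ∈ B, q.Prime ∧ q ≠ 2 ∧ q ∉ β ∪ β') →
    (∏ q ∈ B, q) ^ 4 ≤ (∏ l ∈ β \ β', l) * ∏ l ∈ β' \ β, l →
    ∃ T : Finset (ℕ → Set V2), (#T : ℝ) ≤ C * 2 ^ #B * 2 ^ #β *
      ((∏ l ∈ β ∪ β', l : ℕ) : ℝ) ^ (1 + ε) / ((∏ q ∈ B, q : ℕ) : ℝ) ^ 3 ∧
      ∀ K : ℕ → Set V2, Coll H K β β' B → ∃ w ∈ T, ∀ l ∈ β ∪ β', K l = w l

theorem xgd_sq {s : Finset ℕ} (h : ∀ l ∈ s, l.Prime) : Squarefree (∏ l ∈ s, l) :=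
  Finset.squarefree_prod_of_pairwise_isCoprime (fun a ha b hb hab => Nat.coprime_iff_isRelPrime.1
    ((Nat.coprime_primes (h a ha) (h b hb)).2 hab)) fun l hl => (h l hl).squarefree

theorem xgd_cop {a : ℕ} {s : Finset ℕ} (ha : a ∉ s) (h : ∀ l ∈ insert a s, l.Prime) :
    a.Coprime (∏ l ∈ s, l) :=
  Nat.Coprime.prod_right fun l hl => (Nat.coprime_primes (h a (mem_insert_self _ _))
    (h l (mem_insert_of_mem hl))).2 fun e => ha (e ▸ hl)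

theorem xgd_tau {s : Finset ℕ} (h : ∀ l ∈ s, l.Prime) : #(∏ l ∈ s, l).divisors ≤ 2 ^ #s := by
  induction s using Finset.induction_on with
  | empty => simp
  | insert a s ha ih =>
    rw [prod_insert ha, card_insert_of_notMem ha, (xgd_cop ha h).card_divisors_mul,
      (h a (mem_insert_self _ _)).divisors, pow_succ']
    exact Nat.mul_le_mul card_le_two (ih fun l hl => h l (mem_insert_of_mem hl))

theorem xgd_line (δ : M2) (s : Finset ℕ) (h : ∀ l ∈ s, l.Prime)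
    (h' : ∀ l ∈ s, IsLn l (Ker l δ)) : IsLn (∏ l ∈ s, l) (Ker (∏ l ∈ s, l) δ) := by
  induction s using Finset.induction_on with
  | empty =>
    refine ⟨![1, 0], isCoprime_one_left, ?_⟩
    ext v
    simp [Ker, Ln]
  | insert a s ha ih =>
    rw [prod_insert ha, Ker_inter (xgd_cop ha h)]
    exact IsLn.inter (xgd_cop ha h) (h a (mem_insert_self _ _)).pos
      (prod_pos fun l hl => (h l (mem_insert_of_mem hl)).pos) (h' a (mem_insert_self _ _))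
      (ih (fun l hl => h l (mem_insert_of_mem hl)) fun l hl => h' l (mem_insert_of_mem hl))

theorem xgd_pair {n₁ n₂ m : ℕ} (hm : 0 < m) {B : Finset ℕ} (hB : ∀ q ∈ B, q.Prime ∧ ¬ q ∣ m)
    {H : ℝ} {η η' : M2} (d : η.det = (n₁ * m : ℕ)) (d' : η'.det = (n₂ * m : ℕ))
    (b : ∀ i j, |(η i j : ℝ)| ≤ H * Real.sqrt (n₁ * m : ℕ))
    (b' : ∀ i j, |(η' i j : ℝ)| ≤ H * Real.sqrt (n₂ * m : ℕ))
    (hk : ∀ v, η.adjugate *ᵥ v ∈ Ker m η') (hp : ∀ q ∈ B, Pj q η = Pj q η') :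
    ∃ δ : M2, δ.det = (n₁ * n₂ : ℕ) ∧
      (∀ i j, |(δ i j : ℝ)| ≤ 2 * H ^ 2 * Real.sqrt (n₁ * n₂ : ℕ)) ∧
      (∀ q ∈ B, (q : ℤ) ∣ δ 0 1 ∧ (q : ℤ) ∣ δ 1 0 ∧ (q : ℤ) ∣ δ 0 0 - δ 1 1) ∧
      δ * η = (n₁ : ℤ) • η' := by
  have hm' : (m : ℤ) ≠ 0 := by exact_mod_cast hm.ne'
  have h1 : ∀ i j, (m : ℤ) ∣ (η' * η.adjugate) i j := fun i j => by
    have h2 := hk (Pi.single j 1) i
    rwa [Matrix.mulVec_mulVec, Matrix.mulVec_single_one] at h2
  obtain ⟨δ, hδ⟩ := xla_ex.1 h1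
  have he : ∀ i, (m : ℤ) * δ i 0 = η' i 0 * η 1 1 - η' i 1 * η 1 0 ∧
      (m : ℤ) * δ i 1 = η' i 1 * η 0 0 - η' i 0 * η 0 1 := fun i => by
    have a0 := congrFun (congrFun hδ i) 0
    have a1 := congrFun (congrFun hδ i) 1
    simp only [Matrix.adjugate_fin_two, Matrix.mul_apply, Fin.sum_univ_two, Matrix.smul_apply,
      smul_eq_mul, Matrix.of_apply, Matrix.cons_val', Matrix.cons_val_zero, Matrix.cons_val_one,
      Matrix.cons_val_fin_one] at a0 a1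
    exact ⟨by linarith, by linarith⟩
  refine ⟨δ, ?_, ?_, fun q hq => ?_, xla_cancel hm' ?_⟩
  · have h2 := congrArg Matrix.det hδ
    rw [Matrix.det_mul, xla_det_adj, d, d', Matrix.det_smul, Fintype.card_fin] at h2
    refine mul_left_cancel₀ (pow_ne_zero 2 hm') ?_
    rw [← h2]
    push_cast
    ring
  · have hm0 : (0 : ℝ) < m := by exact_mod_cast hm
    have e : Real.sqrt (n₂ * m : ℕ) * Real.sqrt (n₁ * m : ℕ) = m * Real.sqrt (n₁ * n₂ : ℕ) := by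
      rw [← Real.sqrt_mul (Nat.cast_nonneg _), ← Real.sqrt_sq hm0.le,
        ← Real.sqrt_mul (sq_nonneg _)]
      congr 1
      push_cast
      ring
    have key : ∀ (x : ℤ) (i j k l i' j' k' l' : Fin 2),
        (m : ℤ) * x = η' i j * η k l - η' i' j' * η k' l' →
        |(x : ℝ)| ≤ 2 * H ^ 2 * Real.sqrt (n₁ * n₂ : ℕ) := by
      intro x i j k l i' j' k' l' h
      have h2 : (m : ℝ) * x = η' i j * η k l - η' i' j' * η k' l' := by exact_mod_cast h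
      have h3 := mul_le_mul (b' i j) (b k l) (abs_nonneg _) ((abs_nonneg _).trans (b' i j))
      have h4 := mul_le_mul (b' i' j') (b k' l') (abs_nonneg _) ((abs_nonneg _).trans (b' i j))
      have h5 := abs_sub ((η' i j : ℝ) * η k l) (η' i' j' * η k' l')
      rw [← h2, abs_mul, abs_mul, abs_mul, abs_of_pos hm0] at h5
      rw [mul_mul_mul_comm, e] at h3 h4
      refine le_of_mul_le_mul_left ?_ hm0
      linarith
    intro i j
    fin_cases j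
    · exact key _ _ _ _ _ _ _ _ _ (he i).1
    · exact key _ _ _ _ _ _ _ _ _ (he i).2
  · have h2 : η' ∈ Pj q η := by
      rw [hp q hq]
      exact ⟨1, fun i j => by simp⟩
    obtain ⟨t, ht⟩ := h2
    simp only [Matrix.sub_apply, Matrix.smul_apply, smul_eq_mul] at ht
    have hP : Prime (q : ℤ) := Nat.prime_iff_prime_int.1 (hB q hq).1
    have h3 : ¬ (q : ℤ) ∣ m := fun h => (hB q hq).2 (by exact_mod_cast h)
    refine ⟨(hP.dvd_or_dvd ?_).resolve_left h3, (hP.dvd_or_dvd ?_).resolve_left h3,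
      (hP.dvd_or_dvd ?_).resolve_left h3⟩
    · rw [(he 0).2]
      exact (((ht 0 1).mul_right (η 0 0)).sub ((ht 0 0).mul_right (η 0 1))).trans
        (dvd_of_eq (by ring))
    · rw [(he 1).1]
      exact (((ht 1 0).mul_right (η 1 1)).sub ((ht 1 1).mul_right (η 1 0))).trans
        (dvd_of_eq (by ring))
    · rw [mul_sub, (he 0).1, (he 1).2]
      exact ((((ht 0 0).mul_right (η 1 1)).sub ((ht 0 1).mul_right (η 1 0))).sub
        (((ht 1 1).mul_right (η 0 0)).sub ((ht 1 0).mul_right (η 0 1)))).trans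
        (dvd_of_eq (by ring))
  · rw [← smul_mul_assoc, ← hδ, mul_assoc, Matrix.adjugate_mul, d, mul_smul_comm, mul_one,
      smul_smul, Nat.cast_mul, mul_comm]

theorem ct_count {H ε : ℝ} (hH : 1 ≤ H) (hε : 0 < ε) : ∃ C : ℝ, 0 < C ∧ CTP H ε C := by
  obtain ⟨C, hC, hs⟩ := scal_count (ε := 2 * ε) (by linarith)
  refine ⟨C * (2 * H ^ 2) ^ (2 + 2 * ε) * (100 * H ^ 2), by positivity, fun β β' B hβ hB hQ => ?_⟩
  have hp1 : ∀ l ∈ β \ β', l.Prime := fun l hl => hβ l (mem_union_left _ (mem_sdiff.1 hl).1)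
  have hp2 : ∀ l ∈ β' \ β, l.Prime := fun l hl => hβ l (mem_union_right _ (mem_sdiff.1 hl).1)
  have hp3 : ∀ l ∈ β ∩ β', l.Prime := fun l hl => hβ l (mem_union_left _ (mem_inter.1 hl).1)
  have e1 : ∏ l ∈ β, l = (∏ l ∈ β \ β', l) * ∏ l ∈ β ∩ β', l := by
    rw [mul_comm, prod_inter_mul_prod_sdiff]
  have e2 : ∏ l ∈ β', l = (∏ l ∈ β' \ β, l) * ∏ l ∈ β ∩ β', l := by
    rw [mul_comm, inter_comm, prod_inter_mul_prod_sdiff]
  have e3 : ∏ l ∈ β ∪ β', l = (∏ l ∈ β \ β', l) * (∏ l ∈ β' \ β, l) * ∏ l ∈ β ∩ β', l := by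
    rw [mul_right_comm, ← e1, ← prod_union disjoint_sdiff, union_sdiff_self_eq_union]
  have hsq : Squarefree (∏ l ∈ β ∪ β', l) := xgd_sq hβ
  have hq : ∀ q ∈ B, ¬ q ∣ ∏ l ∈ β ∪ β', l := fun q hq h => by
    obtain ⟨l, hl, h1⟩ := ((hB q hq).1.prime.dvd_finsetProd_iff _).1 h
    exact (hB q hq).2.2 (((Nat.prime_dvd_prime_iff_eq (hB q hq).1 (hβ l hl)).1 h1) ▸ hl)
  have hτ : (#(∏ l ∈ β ∩ β', l).divisors : ℝ) ≤ 2 ^ #β := by
    have := (xgd_tau hp3).trans (Nat.pow_le_pow_right two_pos (card_le_card inter_subset_left))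
    exact_mod_cast this
  have hl : ∀ δ : M2, δ.det = ((∏ l ∈ β \ β', l) * ∏ l ∈ β' \ β, l : ℕ) →
      IsLn (∏ l ∈ β \ β', l) (Ker (∏ l ∈ β \ β', l) δ) := fun δ hδ =>
    xgd_line δ _ hp1 fun l hl => isLn_Ker_prime (hp1 l hl)
      (by
        rw [hδ]
        exact_mod_cast (dvd_prod_of_mem (fun l : ℕ => l) hl).mul_right _)
      fun h => by
        rw [hδ] at h
        have h1 : l * l ∣ (∏ l ∈ β \ β', l) * ∏ l ∈ β' \ β, l := by
          rw [← sq]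
          exact_mod_cast h
        exact (hp1 l hl).one_lt.ne' (Nat.isUnit_iff.1 (hsq l (e3 ▸ h1.mul_right _)))
  have hk : ∀ K η η', Adm H K β η → Adm H K β' η' → ∀ v, η.adjugate *ᵥ v ∈
      Ker (∏ l ∈ β ∩ β', l) η' := fun K η η' a a' v => (mem_Ker_prod hp3).2 fun l hl => by
    obtain ⟨h1, h2⟩ := mem_inter.1 hl
    rw [a'.2.1 l h2, ← a.2.1 l h1]
    intro i
    rw [Matrix.mulVec_mulVec, Matrix.mul_adjugate, a.1, Matrix.smul_mulVec, Pi.smul_apply,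
      smul_eq_mul]
    exact Dvd.dvd.mul_right (by exact_mod_cast dvd_prod_of_mem (fun l : ℕ => l) h1) _
  have p1 : 0 < ∏ l ∈ β \ β', l := prod_pos fun l hl => (hp1 l hl).pos
  have p2 : 0 < ∏ l ∈ β' \ β, l := prod_pos fun l hl => (hp2 l hl).pos
  have p3 : 0 < ∏ l ∈ β ∩ β', l := prod_pos fun l hl => (hp3 l hl).pos
  obtain ⟨T, hT, hT'⟩ := xgd_fin {z : M2 × M2 | ∃ K, Adm H K β z.1 ∧ Adm H K β' z.2 ∧
      ∀ q ∈ B, Pj q z.1 = Pj q z.2} (x := C * (2 * H ^ 2) ^ (2 + 2 * ε) * (100 * H ^ 2) * 2 ^ #B *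
      2 ^ #β * ((∏ l ∈ β ∪ β', l : ℕ) : ℝ) ^ (1 + ε) / ((∏ q ∈ B, q : ℕ) : ℝ) ^ 3) fun U hU => by
    have hz : ∀ z ∈ U, z.1.det = (∏ l ∈ β, l : ℕ) ∧ z.2.det = (∏ l ∈ β', l : ℕ) ∧
        (∀ i j, |(z.1 i j : ℝ)| ≤ H * Real.sqrt (∏ l ∈ β, l : ℕ)) ∧
        (∀ i j, |(z.2 i j : ℝ)| ≤ H * Real.sqrt (∏ l ∈ β', l : ℕ)) ∧
        (∀ v, z.1.adjugate *ᵥ v ∈ Ker (∏ l ∈ β ∩ β', l) z.2) ∧ ∀ q ∈ B, Pj q z.1 = Pj q z.2 :=
      fun z hz => by
        obtain ⟨K, a, a', h⟩ := hU z hz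
        exact ⟨a.1, a'.1, a.2.2, a'.2.2, hk K _ _ a a', h⟩
    rw [e1, e2] at hz
    rw [e3] at hq ⊢
    generalize (∏ l ∈ β \ β', l) = n₁ at *
    generalize (∏ l ∈ β' \ β, l) = n₂ at *
    generalize (∏ l ∈ β ∩ β', l) = m at *
    choose! δ hδ using fun z (hz' : z ∈ U) => xgd_pair p3 (B := B)
      (fun q h => ⟨(hB q h).1, fun h' => hq q h (h'.mul_left _)⟩) (hz z hz').1 (hz z hz').2.1
      (hz z hz').2.2.1 (hz z hz').2.2.2.1 (hz z hz').2.2.2.2.1 (hz z hz').2.2.2.2.2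
    have hm1 : (1 : ℝ) ≤ m := by exact_mod_cast p3
    have hN : (0 : ℝ) < (n₁ * n₂ : ℕ) := by exact_mod_cast Nat.mul_pos p1 p2
    have h1 := xgd_fib U δ (x := 100 * H ^ 2 * m * 2 ^ #β) fun ζ hζ => by
      rw [← card_image_of_injOn (f := Prod.fst) fun z hz1 z' hz2 e => ?_]
      · refine (lat_count p1 p3 (hl _ (hδ ζ hζ).1) (by linarith) _ fun η hη => ?_).trans
          (mul_le_mul_of_nonneg_left hτ (by positivity))
        obtain ⟨z, hz1, rfl⟩ := mem_image.1 hη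
        obtain ⟨h2, h3⟩ := mem_filter.1 hz1
        refine ⟨(hz z h2).1, fun j i => ?_, (hz z h2).2.2.1⟩
        have h4 := congrFun (congrFun (hδ z h2).2.2.2 i) j
        rw [h3] at h4
        exact ⟨z.2 i j, h4⟩
      · obtain ⟨h2, h3⟩ := mem_filter.1 (mem_coe.1 hz1)
        obtain ⟨h4, h5⟩ := mem_filter.1 (mem_coe.1 hz2)
        refine Prod.ext e (xla_cancel (m := n₁) (by exact_mod_cast p1.ne') ?_)
        rw [← (hδ z h2).2.2.2, ← (hδ z' h4).2.2.2, h3, h5, e]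
    have h2 := hs B (n₁ * n₂) (2 * H ^ 2 * Real.sqrt (n₁ * n₂ : ℕ)) (U.image δ)
      (fun q h => ⟨(hB q h).1, (hB q h).2.1, fun h' => hq q h (h'.mul_right _)⟩)
      (Nat.mul_pos p1 p2)
      (by
        have h3 : ((∏ q ∈ B, q : ℕ) : ℝ) ^ 2 ≤ Real.sqrt (n₁ * n₂ : ℕ) := by
          refine Real.le_sqrt_of_sq_le ?_
          rw [← pow_mul]
          exact_mod_cast hQ
        refine h3.trans (le_mul_of_one_le_left (Real.sqrt_nonneg _) ?_)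
        nlinarith)
      fun η hη => by
        obtain ⟨z, hz1, rfl⟩ := mem_image.1 hη
        exact ⟨(hδ z hz1).1, (hδ z hz1).2.1, (hδ z hz1).2.2.1⟩
    have e4 : (2 * H ^ 2 * Real.sqrt (n₁ * n₂ : ℕ)) ^ (2 + 2 * ε) =
        (2 * H ^ 2) ^ (2 + 2 * ε) * ((n₁ * n₂ : ℕ) : ℝ) ^ (1 + ε) := by
      rw [Real.mul_rpow (by positivity) (Real.sqrt_nonneg _), Real.sqrt_eq_rpow,
        ← Real.rpow_mul hN.le]
      congr 2
      ring
    have h3 : (m : ℝ) ≤ (m : ℝ) ^ (1 + ε) := by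
      simpa using Real.rpow_le_rpow_of_exponent_le hm1 (by linarith : (1 : ℝ) ≤ 1 + ε)
    rw [e4] at h2
    rw [Nat.cast_mul (n₁ * n₂), Real.mul_rpow hN.le (by linarith)]
    refine (h1.trans (mul_le_mul h2 (mul_le_mul_of_nonneg_right (mul_le_mul_of_nonneg_left h3
      (by positivity)) (by positivity)) (by positivity) (by positivity))).trans (le_of_eq ?_)
    ring
  refine ⟨T.image fun z l => if l ∈ β then Ker l z.1 else Ker l z.2,
    le_trans (by exact_mod_cast card_image_le) hT, ?_⟩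
  rintro K ⟨η, η', a, a', h⟩
  refine ⟨_, mem_image_of_mem _ (hT' (η, η') ⟨K, a, a', h⟩), fun l hl => ?_⟩
  by_cases h1 : l ∈ β
  · simp only [if_pos h1]
    exact (a.2.1 l h1).symm
  · simp only [if_neg h1]
    exact (a'.2.1 l ((mem_union.1 hl).resolve_left h1)).symm

end Pool.Agent.EQ
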