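import Pool.Agent.P.MP_ad7a55_nt.XGb
import Pool.Agent.P.MP_ad7a55_nt.XGc

/-! Inside one atom: marginals and tuples. -/

set_option autoImplicit false

noncomputable section

open Finset Matrix
open scoped MatrixGroups Classical

namespace Pool.Agent.EQ

variable {W 𝔅 : Type} [Fintype 𝔅] {V : Finset W} {b : W → 𝔅} {bs : 𝔅 → Finset ℕ} {A₀ H : ℝ}
  {y : ℕ}

theorem xgf_fib {γ δ : Type} [DecidableEq δ] (S : Finset γ) (T : Finset δ) (f : γ → δ) {A : ℝ}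
    (h : ∀ z ∈ S, f z ∈ T) (hA : ∀ d ∈ T, (#{z ∈ S | f z = d} : ℝ) ≤ A) : (#S : ℝ) ≤ A * #T := by
  rw [card_eq_sum_card_fiberwise (f := f) (s := S) (t := T) h, Nat.cast_sum]
  refine (sum_le_card_nsmul T _ A hA).trans_eq ?_
  rw [nsmul_eq_mul, mul_comm]

theorem xgf_ker {l : ℕ} {η η' Z Z' : M2} (h : η' * Z = Z' * η) {v : V2} (hv : v ∈ Ker l η) :
    Z *ᵥ v ∈ Ker l η' := by
  rw [← mem_Ker_mul, h]
  intro i
  rw [← mulVec_mulVec]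
  exact dvd_sum (s := univ) (f := fun j => Z' i j * (η *ᵥ v) j) fun j _ => (hv j).mul_left _

theorem xgf_light {F : W → ℝ} {p p' : W → Prop} {d : ∀ w, Decidable (p w)} {a t : ℝ}
    (hF : ∀ w ∈ V, F w ≤ 1) (h : ∀ w, ¬ p w → p' w) (h1 : prb V p' ≤ t) (h2 : a + t ≤ mn V F) :
    a ≤ mn V fun w => @ite _ (p w) (d w) (F w) 0 := by
  rw [pb_eq] at h1
  have h3 := mn_add V (fun w => @ite _ (p w) (d w) (F w) 0) fun w => if p' w then 1 else 0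
  have h4 : mn V F ≤ mn V fun w => @ite _ (p w) (d w) (F w) 0 + if p' w then 1 else 0 := by
    refine mn_mono fun w hw => ?_
    have e2 := hF w hw
    by_cases a1 : p w
    · rw [if_pos a1]
      split_ifs <;> linarith
    · rw [if_neg a1, if_pos (h w a1)]
      linarith
  linarith

theorem xgf_abs {K : ℕ → Set V2} {β : Finset ℕ} {η : M2} (ha : Adm H K β η) (hH : 0 ≤ H) {N : ℕ}
    (hN : ∏ l ∈ β, l ≤ N) (i j : Fin 2) : |η i j| ≤ (⌈H * Real.sqrt N⌉₊ : ℤ) := by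
  have h1 := ha.2.2 i j
  have h2 : Real.sqrt ((∏ l ∈ β, l : ℕ) : ℝ) ≤ Real.sqrt N :=
    Real.sqrt_le_sqrt (by exact_mod_cast hN)
  have h3 : |(η i j : ℝ)| ≤ (⌈H * Real.sqrt N⌉₊ : ℝ) :=
    (h1.trans (mul_le_mul_of_nonneg_left h2 hH)).trans (Nat.le_ceil _)
  have h4 : ((|η i j| : ℤ) : ℝ) ≤ ((⌈H * Real.sqrt N⌉₊ : ℤ) : ℝ) := by
    rw [Int.cast_abs, Int.cast_natCast]; exact h3
  exact Int.cast_le.1 h4

theorem margX (hV : V.Nonempty) (hm : ∀ β, (#{w ∈ V | b w = β} : ℝ) ≤ A₀) {η : W → M2}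
    {K : ℕ → Set V2} (ha : ∀ w ∈ V, Adm H K (bs (b w)) (η w)) (hy : 1 ≤ y) {B D : Finset ℕ}
    (hB : ∀ q ∈ B, q.Prime ∧ y < q ∧ ∀ w ∈ V, ¬ (q : ℤ) ∣ (η w).det) (hD : D ⊆ B) {φ c : ℝ}
    (hφ : 0 ≤ φ) (hc : 0 ≤ c) (h : ∀ q ∈ D, φ ≤ prb V fun w =>
      (q : ℝ) ^ (c - 3) < prb V fun w' => Pj q (η w') = Pj q (η w)) :
    Real.exp (φ * #D * (c * Real.log y) - #B) * (#V : ℝ) ^ 2 ≤
      A₀ ^ 2 * ((∏ q ∈ B, q : ℕ) : ℝ) ^ 3 * #{z : 𝔅 × 𝔅 | Coll H K (bs z.1) (bs z.2) B} := by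
  have hq1 : ∀ q ∈ B, (1 : ℝ) ≤ q := fun q hq => by exact_mod_cast (hB q hq).1.one_le
  have hqc : ∀ q ∈ B, (q : ℝ) ^ 3 * (q : ℝ) ^ (c - 3) = (q : ℝ) ^ c := fun q hq => by
    have h0 : (0 : ℝ) < q := lt_of_lt_of_le one_pos (hq1 q hq)
    rw [← Real.rpow_natCast, ← Real.rpow_add h0]
    congr 1
    push_cast
    ring
  have key := collide (Λ := fun _ => Set M2) hV B (fun q w => Pj q (η w)) (fun q => (q : ℝ) ^ 3)
    (fun q => (q : ℝ) ^ (c - 3)) (fun q => if q ∈ D then φ else 0)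
    (fun q hq => by
      have h1 := card_Pj (hB q hq).1 (V.image η) fun ξ hξ => by
        obtain ⟨w, hw, rfl⟩ := mem_image.1 hξ
        exact (hB q hq).2.2 w hw
      rw [image_image] at h1
      exact_mod_cast h1)
    (fun q hq => ⟨Real.rpow_pos_of_pos (lt_of_lt_of_le one_pos (hq1 q hq)) _, by
      rw [hqc q hq]; exact Real.one_le_rpow (hq1 q hq) hc⟩)
    (fun q hq => by
      by_cases hd : q ∈ D
      · simp only [if_pos hd]; exact h q hd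
      · simp only [if_neg hd]; exact pb_nonneg _ _)
  have hQ : (0 : ℝ) < ((∏ q ∈ B, q : ℕ) : ℝ) ^ 3 := by
    have : 0 < ∏ q ∈ B, q := prod_pos fun q hq => (hB q hq).1.pos
    positivity
  have hlog : Real.log (((∏ q ∈ B, q : ℕ) : ℝ) ^ 3) = ∑ q ∈ B, Real.log ((q : ℝ) ^ 3) := by
    rw [Nat.cast_prod, ← prod_pow, Real.log_prod]
    intro q hq
    exact (pow_pos (lt_of_lt_of_le one_pos (hq1 q hq)) 3).ne'
  have hs1 : φ * #D * (c * Real.log y) ≤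
      ∑ q ∈ B, (if q ∈ D then φ else 0) * Real.log ((q : ℝ) ^ 3 * (q : ℝ) ^ (c - 3)) := by
    have e1 : φ * #D * (c * Real.log y) =
        ∑ q ∈ B, (if q ∈ D then φ else 0) * (c * Real.log y) := by
      rw [← sum_mul, sum_ite_mem, inter_eq_right.2 hD, sum_const, nsmul_eq_mul]
      ring
    rw [e1]
    refine sum_le_sum fun q hq => mul_le_mul_of_nonneg_left ?_ (by split_ifs; exacts [hφ, le_rfl])
    rw [hqc q hq, Real.log_rpow (lt_of_lt_of_le one_pos (hq1 q hq))]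
    refine mul_le_mul_of_nonneg_left (Real.log_le_log (by exact_mod_cast hy) ?_) hc
    exact_mod_cast (hB q hq).2.1.le
  have hexp : Real.exp (φ * #D * (c * Real.log y) - #B) ≤
      ((∏ q ∈ B, q : ℕ) : ℝ) ^ 3 * Real.exp (∑ q ∈ B, ((if q ∈ D then φ else 0) *
        Real.log ((q : ℝ) ^ 3 * (q : ℝ) ^ (c - 3)) - Real.log ((q : ℝ) ^ 3) - 1)) := by
    rw [← Real.exp_log hQ, ← Real.exp_add, hlog, sum_sub_distrib, sum_sub_distrib, sum_const,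
      nsmul_eq_mul, mul_one]
    exact Real.exp_le_exp.2 (by linarith)
  have hfib := xgf_fib {z ∈ V ×ˢ V | ∀ q ∈ B, Pj q (η z.1) = Pj q (η z.2)}
    {z : 𝔅 × 𝔅 | Coll H K (bs z.1) (bs z.2) B} (fun z => (b z.1, b z.2)) (A := A₀ ^ 2)
    (fun z hz => by
      obtain ⟨h1, h2⟩ := mem_filter.1 hz
      obtain ⟨h3, h4⟩ := mem_product.1 h1
      exact mem_filter.2 ⟨mem_univ _, η z.1, η z.2, ha _ h3, ha _ h4, h2⟩)
    (fun d _ => by
      have h1 : #{z ∈ {z ∈ V ×ˢ V | ∀ q ∈ B, Pj q (η z.1) = Pj q (η z.2)} |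
          (b z.1, b z.2) = d} ≤ #({w ∈ V | b w = d.1} ×ˢ {w ∈ V | b w = d.2}) := by
        refine card_le_card fun z hz => ?_
        obtain ⟨h1, h2⟩ := mem_filter.1 hz
        obtain ⟨h3, h4⟩ := mem_product.1 (mem_filter.1 h1).1
        exact mem_product.2 ⟨mem_filter.2 ⟨h3, congrArg Prod.fst h2⟩,
          mem_filter.2 ⟨h4, congrArg Prod.snd h2⟩⟩
      rw [card_product] at h1
      have h2 : (#{w ∈ V | b w = d.1} : ℝ) * #{w ∈ V | b w = d.2} ≤ A₀ * A₀ :=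
        mul_le_mul (hm _) (hm _) (Nat.cast_nonneg _) ((Nat.cast_nonneg _).trans (hm d.1))
      rw [sq]
      exact le_trans (by exact_mod_cast h1) h2)
  calc _ ≤ _ := mul_le_mul_of_nonneg_right hexp (sq_nonneg _)
    _ = _ := mul_assoc _ _ _
    _ ≤ _ := mul_le_mul_of_nonneg_left (key.trans hfib) hQ.le
    _ = _ := by ring

theorem local_xc (hm : ∀ β, (#{w ∈ V | b w = β} : ℝ) ≤ A₀) {η η' : W → M2} {K K' : ℕ → Set V2}
    (ha : ∀ w ∈ V, Adm H K (bs (b w)) (η w) ∧ Adm H K' (bs (b w)) (η' w)) {L : ℕ} (hy : 1 ≤ y)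
    (hL : ∀ β, ∏ l ∈ bs β, l ≤ (2 * y) ^ L) (hH : 0 ≤ H)
    (h1 : 8 * (H * Real.sqrt ((2 * y) ^ L)) + 9 ≤ (y : ℝ) ^ L) {B : Finset ℕ} {e : ℝ} (he : 0 ≤ e)
    (hB : ∀ q ∈ B, q.Prime ∧ y < q ∧ q ≤ 2 * y ∧ ∃ X X' : M2, ¬ (q : ℤ) ∣ X.det ∧
      e * #V ≤ #{w ∈ V | ∀ i j, (q : ℤ) ∣ (η' w * X - X' * η w) i j}) (r : ℕ)
    (h2 : (8 * L + 1 : ℝ) ≤ e ^ r / 2 * #B) :
    e ^ r / 2 * (#V : ℝ) ^ r ≤ A₀ ^ r * #{t : Fin r → 𝔅 |
      Xc (2 * y * ((y : ℝ) ^ L) ^ 7) K K' (univ.biUnion fun i => bs (t i))} := by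
  have hB' : ∀ q, ∃ X X' : M2, q ∈ B → ¬ (q : ℤ) ∣ X.det ∧
      e * #V ≤ #{w ∈ V | ∀ i j, (q : ℤ) ∣ (η' w * X - X' * η w) i j} := fun q => by
    by_cases hq : q ∈ B
    · obtain ⟨X, X', h⟩ := (hB q hq).2.2.2
      exact ⟨X, X', fun _ => h⟩
    · exact ⟨0, 0, fun h => absurd h hq⟩
  choose X X' hX using hB'
  have hBne : B.Nonempty := by
    rw [nonempty_iff_ne_empty]
    rintro rfl
    rw [card_empty, Nat.cast_zero, mul_zero] at h2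
    have : (0 : ℝ) ≤ L := Nat.cast_nonneg _
    linarith
  have key := tuples V B (fun q => {w ∈ V | ∀ i j, (q : ℤ) ∣ (η' w * X q - X' q * η w) i j}) he
    (fun q hq => ⟨filter_subset _ _, (hX q hq).2⟩) hBne r
  refine key.trans (xgf_fib _ _ (fun t i => b (t i)) ?_ ?_)
  · intro t ht
    obtain ⟨ht1, ht2⟩ := mem_filter.1 ht
    have htV : ∀ i, t i ∈ V := Fintype.mem_piFinset.1 ht1
    obtain ⟨T, hT, mT⟩ : ∃ T : Finset ℕ, 8 * L + 1 ≤ #T ∧ ∀ q ∈ T, q ∈ B ∧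
        ∀ s i j, (q : ℤ) ∣ (η' (t s) * X q - X' q * η (t s)) i j := by
      refine ⟨_, by exact_mod_cast h2.trans ht2, fun q hq => ?_⟩
      obtain ⟨h3, h4⟩ := mem_filter.1 hq
      exact ⟨h3, fun s => (mem_filter.1 (h4 s)).2⟩
    have hN : 8 * ⌈H * Real.sqrt (((2 * y) ^ L : ℕ) : ℝ)⌉₊ + 1 ≤ y ^ L := by
      have h3 := Nat.ceil_lt_add_one (mul_nonneg hH (Real.sqrt_nonneg (((2 * y) ^ L : ℕ) : ℝ)))
      have h4 : (((2 * y) ^ L : ℕ) : ℝ) = (2 * y) ^ L := by push_cast; rfl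
      have h5 : ((8 * ⌈H * Real.sqrt (((2 * y) ^ L : ℕ) : ℝ)⌉₊ + 1 : ℕ) : ℝ) ≤
          ((y ^ L : ℕ) : ℝ) := by
        rw [Nat.cast_add, Nat.cast_mul, Nat.cast_pow y, Nat.cast_one, Nat.cast_ofNat]
        rw [← h4] at h1
        linarith
      exact_mod_cast h5
    have hbig : (8 * ⌈H * Real.sqrt (((2 * y) ^ L : ℕ) : ℝ)⌉₊ + 1) ^ 8 < ∏ q ∈ T, q := by
      have h3 : (y + 1) ^ #T ≤ ∏ q ∈ T, q :=
        pow_card_le_prod T _ _ fun q hq => (hB q (mT q hq).1).2.1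
      have h4 : (y + 1) ^ (8 * L + 1) ≤ (y + 1) ^ #T := Nat.pow_le_pow_right (by omega) hT
      have h5 : (y ^ L) ^ 8 ≤ (y + 1) ^ (8 * L) := by
        rw [← pow_mul, mul_comm]; exact Nat.pow_le_pow_left (by omega) _
      have h6 : (y + 1) ^ (8 * L) < (y + 1) ^ (8 * L + 1) :=
        Nat.pow_lt_pow_right (by omega) (by omega)
      exact (((Nat.pow_le_pow_left hN 8).trans h5).trans_lt h6).trans_le (h4.trans h3)
    obtain ⟨Z, Z', z1, z2, z3⟩ := tv (fun s => η (t s)) (fun s => η' (t s)) (Y := 2 * y) T X X'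
      (fun q hq => ⟨(hB q (mT q hq).1).1, (hB q (mT q hq).1).2.2.1, (hX q (mT q hq).1).1,
        (mT q hq).2⟩)
      (fun s i j => ⟨xgf_abs (ha _ (htV s)).1 hH (hL _) i j,
        xgf_abs (ha _ (htV s)).2 hH (hL _) i j⟩) hbig
    refine mem_filter.2 ⟨mem_univ _, Z, z1, fun i j => ?_, fun l hl v hv => ?_⟩
    · have h3 : ((8 * ⌈H * Real.sqrt (((2 * y) ^ L : ℕ) : ℝ)⌉₊ + 1 : ℕ) : ℤ) ≤ ((y ^ L : ℕ) : ℤ) :=
        Int.ofNat_le.2 hN
      have h4 : |Z i j| ≤ 2 * (y : ℤ) * ((y : ℤ) ^ L) ^ 7 := by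
        refine (z2 i j).trans ?_
        push_cast at h3 ⊢
        exact mul_le_mul_of_nonneg_left (pow_le_pow_left₀ (by positivity) h3 7) (by positivity)
      exact_mod_cast h4
    · obtain ⟨s, _, hs⟩ := mem_biUnion.1 hl
      rw [← (ha _ (htV s)).1.2.1 l hs] at hv
      rw [← (ha _ (htV s)).2.2.1 l hs]
      exact xgf_ker (z3 s) hv
  · intro d _
    refine le_trans (Nat.cast_le.2 (card_le_card
      (t := Fintype.piFinset fun i => {w ∈ V | b w = d i}) fun t ht => ?_)) ?_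
    · obtain ⟨h3, h4⟩ := mem_filter.1 ht
      exact Fintype.mem_piFinset.2 fun i =>
        mem_filter.2 ⟨Fintype.mem_piFinset.1 (mem_filter.1 h3).1 i, congrFun h4 i⟩
    · rw [Fintype.card_piFinset, Nat.cast_prod]
      refine (prod_le_prod (fun i _ => Nat.cast_nonneg _) fun i _ => hm (d i)).trans_eq ?_
      rw [prod_const, card_univ, Fintype.card_fin]

theorem local_gl {ι : Type} [Fintype ι] [Nonempty ι] {c e : ℝ} {q₀ : ℕ} (hG : GLP ι c e q₀)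
    (hc : 0 ≤ c) (he : 0 ≤ e) (hq₀ : q₀ ≤ y) (hy : 1 ≤ y) (hV : V.Nonempty) {η : W → ι → M2}
    {n : W → ℤ} {B : Finset ℕ} (μ μ' : ℕ → (ι → Set V2) → ℝ) (Y : ℕ → W → Finset (ι → Set V2))
    (s₀ : ℕ → ℝ) {θ : ℝ} (hθ : 0 < θ) (hd : ∀ w ∈ V, ∀ k, (η w k).det = n w)
    (hB : ∀ q ∈ B, q.Prime ∧ y < q ∧ q ≤ 2 * y ∧ (∀ w ∈ V, ¬ (q : ℤ) ∣ n w) ∧
      (∀ z, 0 ≤ μ q z ∧ 0 ≤ μ' q z) ∧ ∑ z ∈ Fintype.piFinset fun _ : ι => Xn q, μ q z ≤ 1 ∧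
      ∑ z ∈ Fintype.piFinset fun _ : ι => Xn q, μ' q z ≤ 1 ∧ 0 < s₀ q ∧
      Real.sqrt q ≤ s₀ q * (q : ℝ) ^ Fintype.card ι ∧
      ∀ w ∈ V, ∀ z ∈ Y q w, (z ∈ Fintype.piFinset fun _ : ι => Xn q) ∧ s₀ q ≤ μ q z ∧
        (q : ℝ) ^ (-c) * μ q z ≤ μ' q fun k => {v | (η w k).adjugate *ᵥ v ∈ z k})
    (h1 : θ ≤ mn V fun w => mn B fun q => ∑ z ∈ Y q w, μ q z) (h2 : (y : ℝ) ^ (-(c / 4)) ≤ θ / 4)
    (h3 : ∀ k, (#(B.filter fun q : ℕ => θ / (4 * Fintype.card ι) ≤ prb V fun w => (q : ℝ) ^ (c - 3) <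
      prb V fun w' => Pj q (η w' k) = Pj q (η w k)) : ℝ) ≤ θ / (4 * Fintype.card ι) * #B) :
    ∃ k l, k ≠ l ∧ ∃ B' ⊆ B, θ / (4 * (Fintype.card ι : ℝ) ^ 2) * #B ≤ #B' ∧ ∀ q ∈ B',
      ∃ X X' : M2, ¬ (q : ℤ) ∣ X.det ∧ (2 * y : ℝ) ^ (-e) * #V ≤
        #{w ∈ V | ∀ i j, (q : ℤ) ∣ (η w l * X - X' * η w k) i j} := by
  have hm0 : (0 : ℝ) < Fintype.card ι := by exact_mod_cast Fintype.card_pos
  have hy0 : (0 : ℝ) < y := by exact_mod_cast hy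
  have hS : ∀ q ∈ B, ∀ w ∈ V, ∑ z ∈ Y q w, μ q z ≤ 1 := fun q hq w hw => by
    obtain ⟨-, -, -, -, g1, g2, -, -, -, g3⟩ := hB q hq
    exact (sum_le_sum_of_subset_of_nonneg (fun z hz => (g3 w hw z hz).1)
      fun z _ _ => (g1 z).1).trans g2
  rw [mn_swap V B fun w q => ∑ z ∈ Y q w, μ q z] at h1
  have hBne : B.Nonempty := by
    rw [nonempty_iff_ne_empty]
    rintro rfl
    rw [mn, sum_empty, zero_div] at h1
    linarith
  have hB0 : (0 : ℝ) < #B := by exact_mod_cast hBne.card_pos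
  have hrev := pb_rev (O := B) (G := fun q => mn V fun w => ∑ z ∈ Y q w, μ q z) (B := 1)
    (t := θ / 2) one_pos (fun q hq => (mn_mono (hS q hq)).trans_eq (mn_const hV 1)) (by linarith)
  obtain ⟨G, hG1, hG2⟩ : ∃ G : Finset ℕ, θ / 2 * #B ≤ #G ∧
      ∀ q ∈ G, q ∈ B ∧ θ / 2 ≤ mn V fun w => ∑ z ∈ Y q w, μ q z := by
    unfold prb at hrev
    rw [div_one, le_div_iff₀ hB0] at hrev
    exact ⟨_, le_trans (mul_le_mul_of_nonneg_right (by linarith) hB0.le) hrev,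
      fun q hq => mem_filter.1 hq⟩
  obtain ⟨Bad, hb1, hb2⟩ : ∃ Bad : ι → Finset ℕ,
      (∀ k, (#(Bad k) : ℝ) ≤ θ / (4 * Fintype.card ι) * #B) ∧ ∀ k, ∀ q ∈ B, q ∉ Bad k →
        (prb V fun w => (q : ℝ) ^ (c - 3) < prb V fun w' => Pj q (η w' k) = Pj q (η w k)) <
          θ / (4 * Fintype.card ι) :=
    ⟨_, h3, fun k q hq hn => not_le.1 fun hh => hn (mem_filter.2 ⟨hq, hh⟩)⟩
  have hsum : ∀ t : ℝ, ∑ _k : ι, θ / (4 * Fintype.card ι) * t = θ / 4 * t := fun t => by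
    rw [sum_const, card_univ, nsmul_eq_mul]
    field_simp
  have hGood : θ / 4 * #B ≤ #(G \ univ.biUnion Bad) := by
    have e1 : (#G : ℝ) ≤ #(G \ univ.biUnion Bad) + #(univ.biUnion Bad) := by
      exact_mod_cast card_le_card_sdiff_add_card
    have e2 : (#(univ.biUnion Bad) : ℝ) ≤ ∑ k, (#(Bad k) : ℝ) := by
      exact_mod_cast card_biUnion_le
    have e3 : ∑ k, (#(Bad k) : ℝ) ≤ θ / 4 * #B :=
      (sum_le_sum fun k _ => hb1 k).trans_eq (hsum _)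
    linarith
  have hall : ∀ q, ∃ p : ι × ι, q ∈ G \ univ.biUnion Bad → p.1 ≠ p.2 ∧ ∃ X X' : M2,
      ¬ (q : ℤ) ∣ X.det ∧ (2 * y : ℝ) ^ (-e) * #V ≤
        #{w ∈ V | ∀ i j, (q : ℤ) ∣ (η w p.2 * X - X' * η w p.1) i j} := fun q => by
    by_cases hq : q ∈ G \ univ.biUnion Bad
    swap
    · exact ⟨Classical.arbitrary _, fun h => absurd h hq⟩
    obtain ⟨hq1, hq2⟩ := mem_sdiff.1 hq
    obtain ⟨hqB, hq3⟩ := hG2 q hq1
    obtain ⟨g1, g2, g3, g4, g5, g6, g7, g8, g9, g10⟩ := hB q hqB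
    have hq0 : (0 : ℝ) < q := by exact_mod_cast g1.pos
    have hyq : (y : ℝ) ≤ q := by exact_mod_cast g2.le
    have hheavy : (prb V fun w => ∃ k ∈ (univ : Finset ι),
        (q : ℝ) ^ (c - 3) < prb V fun w' => Pj q (η w' k) = Pj q (η w k)) ≤ θ / 4 := by
      refine (pb_exists V univ fun k w =>
        (q : ℝ) ^ (c - 3) < prb V fun w' => Pj q (η w' k) = Pj q (η w k)).trans ?_
      have e := hsum 1
      simp only [mul_one] at e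
      rw [← e]
      exact sum_le_sum fun k _ =>
        (hb2 k q hqB fun hk => hq2 (mem_biUnion.2 ⟨k, mem_univ k, hk⟩)).le
    obtain ⟨k, l, hkl, X, X', x1, x2⟩ := hG q g1 (hq₀.trans g2.le) W V η n (μ q) (μ' q) (Y q)
      (s₀ q) hV (fun w hw => ⟨g4 w hw, hd w hw⟩) g5 g6 g7 g8 g9 g10 (by
        have e1 : (q : ℝ) ^ (-(c / 4)) ≤ (y : ℝ) ^ (-(c / 4)) :=
          Real.rpow_le_rpow_of_nonpos hy0 hyq (by linarith)
        refine xgf_light (hS q hqB) (fun w hn => ?_) hheavy (le_trans (by linarith) hq3)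
        obtain ⟨k, hk⟩ := not_forall.1 hn
        exact ⟨k, mem_univ k, not_le.1 hk⟩)
    refine ⟨(k, l), fun _ => ⟨hkl, X, X', x1, le_trans ?_ (x2.trans (Nat.cast_le.2
      (card_le_card fun w hw => by simp only [mem_filter] at hw ⊢; exact hw)))⟩⟩
    refine mul_le_mul_of_nonneg_right ?_ (Nat.cast_nonneg _)
    exact Real.rpow_le_rpow_of_nonpos hq0 (by exact_mod_cast g3) (by linarith)
  choose f hf using hall
  obtain ⟨p, -, hp⟩ := exists_le_card_fiber_of_nsmul_le_card_of_maps_to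
    (s := G \ univ.biUnion Bad) (t := (univ : Finset (ι × ι))) (f := f)
    (b := θ / (4 * (Fintype.card ι : ℝ) ^ 2) * #B) (fun _ _ => mem_univ _) univ_nonempty (by
      refine le_trans (le_of_eq ?_) hGood
      rw [card_univ, Fintype.card_prod, nsmul_eq_mul, Nat.cast_mul]
      field_simp)
  have hpos : 0 < #{q ∈ G \ univ.biUnion Bad | f q = p} := by
    have : (0 : ℝ) < θ / (4 * (Fintype.card ι : ℝ) ^ 2) * #B := by positivity
    exact_mod_cast this.trans_le hp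
  obtain ⟨q₁, hq₁⟩ := card_pos.1 hpos
  refine ⟨p.1, p.2, ?_, _, fun q hq => (hG2 q (mem_sdiff.1 (mem_filter.1 hq).1).1).1, hp, ?_⟩
  · rw [← (mem_filter.1 hq₁).2]
    exact (hf q₁ (mem_filter.1 hq₁).1).1
  · intro q hq
    rw [← (mem_filter.1 hq).2]
    exact (hf q (mem_filter.1 hq).1).2

end Pool.Agent.EQ
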