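import Pool.Agent.P.MP_ad7a55_nt.XGd
import Pool.Agent.P.MP_ad7a55_nt.XGf

/-! The choice of a good atom. -/

set_option autoImplicit false

noncomputable section

open Finset Matrix
open scoped MatrixGroups Classical

namespace Pool.Agent.EQ

/-- One prime from each group. -/
def bs {L u : ℕ} (pr : Fin L → Fin u → ℕ) (β : Fin L → Fin u) : Finset ℕ :=
  univ.image fun g => pr g (β g)

section aux

variable {α β Y : Type}

theorem xgg_mk (O : Finset α) (U : Finset β) (p : α → Prop) (R : α → β → Prop)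
    [∀ x, DecidablePred (R x)] {a m s : ℝ} (ha : 0 ≤ a) (hm : 0 < m) (hs : 0 < s)
    (h : ∑ z ∈ U, a * prb O (fun x => p x ∧ R x z) ≤ m) :
    prb O (fun x => p x ∧ s * m < a * #{z ∈ U | R x z}) ≤ 1 / s := by
  have e1 : mn O (fun x => ∑ z ∈ U, a * (if p x ∧ R x z then (1 : ℝ) else 0)) ≤ m := by
    rw [mn_sum]
    refine le_trans (le_of_eq (sum_congr rfl fun z _ => ?_)) h
    rw [mn_mul, xeb_pb]
  have e2 := pb_markov (O := O)
    (G := fun x => ∑ z ∈ U, a * (if p x ∧ R x z then (1 : ℝ) else 0))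
    (fun x _ => sum_nonneg fun z _ => mul_nonneg ha (by split_ifs <;> norm_num)) (mul_pos hs hm)
  refine le_trans (pb_mono fun x _ hx => ?_) (e2.trans ?_)
  · refine hx.2.le.trans (le_of_eq ?_)
    rw [← mul_sum, card_filter, Nat.cast_sum]
    refine congrArg _ (sum_congr rfl fun z _ => ?_)
    by_cases hz : R x z <;> simp [hz, hx.1]
  · rw [div_le_div_iff₀ (mul_pos hs hm) hs]
    nlinarith

theorem xgg_pig (W : Finset α) (I : Finset β) (a : α → β) (f : α → ℝ) (ha : ∀ w ∈ W, a w ∈ I)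
    (hf : ∀ w, f w ≤ 1) {c c' : ℝ} (h1 : 0 ≤ c) (h2 : 0 ≤ c')
    (h : c * #I + c' * #W < ∑ w ∈ W, f w) :
    ∃ b, ∃ V : Finset α, (∀ w ∈ V, w ∈ W ∧ a w = b) ∧ c ≤ #V ∧ c' ≤ mn V f := by
  suffices k : ∃ b, c ≤ #{w ∈ W | a w = b} ∧ c' ≤ mn {w ∈ W | a w = b} f from
    k.imp fun b hb => ⟨_, fun w hw => mem_filter.1 hw, hb⟩
  by_contra hn
  refine absurd h (not_lt.2 ?_)
  rw [← sum_fiberwise_of_maps_to ha, card_eq_sum_card_fiberwise (fun w hw => ha w hw),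
    Nat.cast_sum, mul_sum, mul_comm c, ← nsmul_eq_mul, ← sum_const, ← sum_add_distrib]
  refine sum_le_sum fun b _ => ?_
  have h0 : (0 : ℝ) ≤ #{w ∈ W | a w = b} := Nat.cast_nonneg _
  rcases not_and_or.1 (not_exists.1 hn b) with k | k
  · have := sum_le_card_nsmul {w ∈ W | a w = b} f 1 fun w _ => hf w
    rw [nsmul_eq_mul, mul_one] at this
    nlinarith [not_le.1 k]
  · rcases h0.eq_or_lt with e | e
    · rw [card_eq_zero.1 (Nat.cast_eq_zero.1 e.symm)]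
      simpa using h1
    · have := (div_lt_iff₀ e).1 (not_le.1 k)
      linarith

theorem xgg_cp (O : Finset α) (F : α → β) (ξ : α → Y) (b : β) (T : Finset Y) (p : α → Prop)
    (At : Finset α) (hA : ∀ x, x ∈ At ↔ x ∈ O ∧ F x = b) (h : ∀ x ∈ At, p x → ξ x ∈ T) :
    prb At p ≤ ∑ z ∈ T, cp O F ξ b z := by
  have e : At = {x ∈ O | F x = b} := by
    ext x
    rw [hA, mem_filter]
  refine (pb_mono (p' := fun x => ∃ z ∈ T, ξ x = z) fun x hx hp => ⟨_, h x hx hp, rfl⟩).trans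
    ((pb_exists _ _ _).trans (le_of_eq (sum_congr rfl fun z _ => ?_)))
  rw [e, prb, cp, filter_filter]

theorem xgg_mn_le {O : Finset α} {G : α → ℝ} (h : ∀ x ∈ O, G x ≤ 1) : mn O G ≤ 1 := by
  refine div_le_one_of_le₀ ?_ (Nat.cast_nonneg _)
  simpa using sum_le_card_nsmul O G 1 h

theorem xgg_low {y : ℕ} {S : Finset ℕ} (h : ∀ l ∈ S, y < l) : y ^ #S ≤ ∏ l ∈ S, l := by
  rw [← prod_const]
  exact prod_le_prod' fun l hl => (h l hl).le

variable {L u : ℕ} {pr : Fin L → Fin u → ℕ}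

theorem xgg_bs (b : Fin L → Fin u) : #(bs pr b) ≤ L := by
  exact card_image_le.trans (by rw [card_univ, Fintype.card_fin])

theorem xgg_sub {M : Finset ℕ} (hp : ∀ g i, pr g i ∈ M) (b : Fin L → Fin u) : bs pr b ⊆ M := by
  intro l hl
  obtain ⟨g, -, rfl⟩ := mem_image.1 hl
  exact hp _ _

theorem xgg_diff (hi : Function.Injective fun z : Fin L × Fin u => pr z.1 z.2)
    (b b' : Fin L → Fin u) : #{g | ¬ b g = b' g} ≤ #(bs pr b \ bs pr b') := by
  refine card_le_card_of_injOn (fun g => pr g (b g)) (fun g hg => ?_) fun g _ g' _ e => ?_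
  · refine mem_coe.2 (mem_sdiff.2 ⟨mem_image_of_mem _ (mem_univ g), fun k => ?_⟩)
    obtain ⟨g', -, e⟩ := mem_image.1 k
    have e1 : (g', b' g') = (g, b g) := hi e
    obtain rfl : g' = g := congrArg Prod.fst e1
    exact (mem_filter.1 (mem_coe.1 hg)).2 (congrArg Prod.snd e1).symm
  · exact congrArg Prod.fst (hi (a₁ := (g, b g)) (a₂ := (g', b g')) e)

theorem xgg_over {r : ℕ} (hu : 0 < u) (hr : r ^ 2 ≤ u) :
    (#{t : Fin r → Fin L → Fin u |
      L ≤ 2 * #{g : Fin L | ¬ Function.Injective fun i => t i g}} : ℝ) ≤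
      2 ^ L * ((r : ℝ) ^ 2 / u) ^ ((L : ℝ) / 2) * ((u : ℝ) ^ L) ^ r := by
  have k := overlap (L := L) hu hr
  have e : (#(univ : Finset (Fin r → Fin L → Fin u)) : ℝ) = ((u : ℝ) ^ L) ^ r := by simp
  rw [xec_pb, sum_boole, e, div_le_iff₀ (by positivity)] at k
  exact k

theorem xgg_pair (hu : 4 ≤ u) :
    (#{z : (Fin L → Fin u) × (Fin L → Fin u) | L ≤ 2 * #{g | z.1 g = z.2 g}} : ℝ) ≤
      2 ^ L * (4 / (u : ℝ)) ^ ((L : ℝ) / 2) * ((u : ℝ) ^ L) ^ 2 := by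
  have k := xgg_over (L := L) (u := u) (r := 2) (by omega) (by omega)
  have e : ((2 : ℕ) : ℝ) ^ 2 = 4 := by norm_num
  rw [e] at k
  refine le_trans (Nat.cast_le.2 ?_) k
  refine card_le_card_of_injOn (fun z => ![z.1, z.2]) (fun z hz => ?_) fun z _ z' _ e => ?_
  · refine mem_coe.2 (mem_filter.2 ⟨mem_univ _, (mem_filter.1 (mem_coe.1 hz)).2.trans ?_⟩)
    refine Nat.mul_le_mul_left _ (card_le_card fun g hg => mem_filter.2 ⟨mem_univ _, fun k => ?_⟩)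
    exact absurd (k (a₁ := 0) (a₂ := 1) (mem_filter.1 hg).2) (by decide)
  · exact Prod.ext (congrFun e 0) (congrFun e 1)

theorem xgg_un (hi : Function.Injective fun z : Fin L × Fin u => pr z.1 z.2) {r : ℕ}
    (t : Fin r → Fin L → Fin u)
    (h : ¬ L ≤ 2 * #{g : Fin L | ¬ Function.Injective fun i => t i g}) :
    r * L ≤ 2 * #(univ.biUnion fun i => bs pr (t i)) := by
  have e := card_filter_add_card_filter_not (s := (univ : Finset (Fin L)))
    fun g => Function.Injective fun i => t i g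
  rw [card_univ, Fintype.card_fin] at e
  have k : #((univ : Finset (Fin r)) ×ˢ
      ({g : Fin L | Function.Injective fun i => t i g} : Finset (Fin L))) ≤
      #(univ.biUnion fun i => bs pr (t i)) := by
    refine card_le_card_of_injOn (fun z => pr z.2 (t z.1 z.2)) (fun z _ => ?_)
      fun z hz z' _ e => ?_
    · exact mem_coe.2 (mem_biUnion.2 ⟨z.1, mem_univ _, mem_image_of_mem _ (mem_univ z.2)⟩)
    · have e1 : (z.2, t z.1 z.2) = (z'.2, t z'.1 z'.2) := hi e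
      have e2 : z.2 = z'.2 := congrArg Prod.fst e1
      have e3 : t z.1 z.2 = t z'.1 z'.2 := congrArg Prod.snd e1
      rw [← e2] at e3
      exact Prod.ext ((mem_filter.1 (mem_product.1 (mem_coe.1 hz)).2).2 e3) e2
  rw [card_product, card_univ, Fintype.card_fin] at k
  have : L ≤ 2 * #{g : Fin L | Function.Injective fun i => t i g} := by omega
  nlinarith

end aux

namespace RD

variable {α ι γ δ : Type} [Fintype ι] {d : RD α ι γ δ} {y C₁ : ℕ} {H A₁ S Λ θ C δ₀ : ℝ}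
  {L u : ℕ} {pr : Fin L → Fin u → ℕ} {M' : Finset ℕ}

theorem Ok.ct_bad (h : d.Ok y H A₁ S Λ θ C δ₀ C₁) (hM' : M' ⊆ d.P)
    (hi : Function.Injective fun z : Fin L × Fin u => pr z.1 z.2) (hp : ∀ g i, pr g i ∈ M')
    {ε Cc t : ℝ} (hε : 0 ≤ ε) (hCc : 0 ≤ Cc) (hCT : CTP H ε Cc) (ht : 0 ≤ t) (hy : 2 ≤ y)
    {E : Finset ℕ} (hE : E ⊆ d.P) (hd : Disjoint E M') (hu : 4 ≤ u)
    (h1 : (2 * y) ^ (4 * #E) ≤ y ^ L)
    (h2 : 2 ^ L * (4 / (u : ℝ)) ^ ((L : ℝ) / 2) * (2 * y) ^ (3 * #E) ≤ 1) (c : ι) {s : ℝ}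
    (hs : 0 < s) :
    prb d.O (fun x => d.In x ∧ d.Ty M' t c x ∧
      s * (3 * t * Cc * 2 ^ #E * 2 ^ L * (2 * y : ℝ) ^ (2 * L * ε) + 1) * ((u : ℝ) ^ L) ^ 2 <
        ((∏ q ∈ E, q : ℕ) : ℝ) ^ 3 * #{z : (Fin L → Fin u) × (Fin L → Fin u) |
          Coll H (d.K x c) (bs pr z.1) (bs pr z.2) E}) ≤ 1 / s := by
  have hQ : 0 < ∏ q ∈ E, q := prod_pos fun q hq => (h.prime q (hE hq)).1.pos
  have hQ0 : (0 : ℝ) < (∏ q ∈ E, q : ℕ) := Nat.cast_pos.2 hQ
  have hQ1 : ∏ q ∈ E, q ≤ (2 * y) ^ #E :=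
    prod_le_pow_card _ _ _ fun q hq => (h.prime q (hE hq)).2.2
  have hu0 : (0 : ℝ) < u := by exact_mod_cast (by omega : 0 < u)
  set m : ℝ := 3 * t * Cc * 2 ^ #E * 2 ^ L * (2 * y : ℝ) ^ (2 * L * ε) with hm
  have m0 : 0 ≤ m := by positivity
  have key := xgg_mk d.O (univ : Finset ((Fin L → Fin u) × (Fin L → Fin u)))
    (fun x => d.In x ∧ d.Ty M' t c x) (fun x z => Coll H (d.K x c) (bs pr z.1) (bs pr z.2) E)
    (a := ((∏ q ∈ E, q : ℕ) : ℝ) ^ 3) (m := (m + 1) * ((u : ℝ) ^ L) ^ 2) (by positivity)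
    (by positivity) hs ?_
  · refine le_trans (pb_mono fun x _ hx => ⟨⟨hx.1, hx.2.1⟩, ?_⟩) key
    rw [← mul_assoc]
    exact hx.2.2
  have k1 : ∀ z : (Fin L → Fin u) × (Fin L → Fin u), ((∏ q ∈ E, q : ℕ) : ℝ) ^ 3 *
      prb d.O (fun x => (d.In x ∧ d.Ty M' t c x) ∧ Coll H (d.K x c) (bs pr z.1) (bs pr z.2) E) ≤
      m + if L ≤ 2 * #{g | z.1 g = z.2 g} then (2 * y : ℝ) ^ (3 * #E) else 0 := by
    intro z
    split_ifs with hz
    · refine le_trans ?_ (le_add_of_nonneg_left m0)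
      refine (mul_le_of_le_one_right (by positivity) (pb_le_one _ _)).trans ?_
      rw [mul_comm 3, pow_mul]
      refine pow_le_pow_left₀ hQ0.le ?_ 3
      exact_mod_cast hQ1
    have hU : bs pr z.1 ∪ bs pr z.2 ⊆ M' := union_subset (xgg_sub hp _) (xgg_sub hp _)
    have hy1 : ∀ l ∈ bs pr z.1 ∪ bs pr z.2, l.Prime ∧ y < l ∧ l ≤ 2 * y :=
      fun l hl => h.prime l (hM' (hU hl))
    obtain ⟨T, hT, hT'⟩ := hCT (bs pr z.1) (bs pr z.2) E (fun l hl => (hy1 l hl).1)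
      (fun q hq => ⟨(h.prime q (hE hq)).1, by have := (h.prime q (hE hq)).2.1; omega,
        fun k => disjoint_left.1 hd hq (hU k)⟩) (by
      have e := card_filter_add_card_filter_not (s := (univ : Finset (Fin L)))
        fun g => z.1 g = z.2 g
      rw [card_univ, Fintype.card_fin] at e
      have a1 := xgg_diff hi z.1 z.2
      have a2 := xgg_diff hi z.2 z.1
      simp only [eq_comm (a := z.2 _)] at a2
      refine (Nat.pow_le_pow_left hQ1 4).trans ?_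
      rw [← pow_mul, mul_comm #E]
      refine h1.trans (le_trans ?_ (Nat.mul_le_mul
        (xgg_low (y := y) fun l hl => (hy1 l (mem_union_left _ (mem_sdiff.1 hl).1)).2.1)
        (xgg_low (y := y) fun l hl => (hy1 l (mem_union_right _ (mem_sdiff.1 hl).1)).2.1)))
      rw [← pow_add]
      exact Nat.pow_le_pow_right (by omega) (by omega))
    have k2 := h.ty_pattern hM' hU ht c T
    have hP : 0 < ∏ l ∈ bs pr z.1 ∪ bs pr z.2, l := prod_pos fun l hl => (hy1 l hl).1.pos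
    have hP1 : ∏ l ∈ bs pr z.1 ∪ bs pr z.2, l ≤ (2 * y) ^ (2 * L) :=
      (prod_le_pow_card _ _ _ fun l hl => (hy1 l hl).2.2).trans
        (Nat.pow_le_pow_right (by omega) ((card_union_le _ _).trans (by
          have := xgg_bs (pr := pr) z.1
          have := xgg_bs (pr := pr) z.2
          omega)))
    generalize ∏ l ∈ bs pr z.1 ∪ bs pr z.2, l = n at hT k2 hP hP1
    have n0 : (0 : ℝ) < n := Nat.cast_pos.2 hP
    have k3 : (n : ℝ) ^ ε ≤ (2 * y : ℝ) ^ (2 * L * ε) := by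
      rw [Real.rpow_mul (by positivity)]
      refine Real.rpow_le_rpow n0.le ?_ hε
      rw [show (2 * L : ℝ) = ((2 * L : ℕ) : ℝ) by push_cast; ring, Real.rpow_natCast]
      exact_mod_cast hP1
    have k4 : (2 : ℝ) ^ #(bs pr z.1) ≤ 2 ^ L := pow_le_pow_right₀ one_le_two (xgg_bs _)
    rw [Real.rpow_add n0, Real.rpow_one, le_div_iff₀ (by positivity)] at hT
    rw [add_zero]
    refine (mul_le_mul_of_nonneg_left ((pb_mono fun x _ hx =>
      ⟨hx.1.1, hx.1.2, hT' _ hx.2⟩).trans k2) (by positivity)).trans ?_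
    rw [← mul_div_assoc, div_le_iff₀ n0]
    calc _ = 3 * t * (#T * ((∏ q ∈ E, q : ℕ) : ℝ) ^ 3) := by ring
      _ ≤ 3 * t * (Cc * 2 ^ #E * 2 ^ #(bs pr z.1) * (n * (n : ℝ) ^ ε)) := by gcongr
      _ ≤ 3 * t * (Cc * 2 ^ #E * 2 ^ L * (n * (2 * y : ℝ) ^ (2 * L * ε))) := by gcongr
      _ = m * n := by rw [hm]; ring
  refine (sum_le_sum fun z _ => k1 z).trans ?_
  have e : (#(univ : Finset ((Fin L → Fin u) × (Fin L → Fin u))) : ℝ) = ((u : ℝ) ^ L) ^ 2 := by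
    simp [sq]
  rw [sum_add_distrib, sum_const, nsmul_eq_mul, e, ← sum_filter, sum_const, nsmul_eq_mul]
  have k5 := mul_le_mul_of_nonneg_right (xgg_pair (L := L) hu)
    (show (0 : ℝ) ≤ (2 * y : ℝ) ^ (3 * #E) by positivity)
  have k6 := mul_le_mul_of_nonneg_right h2 (show (0 : ℝ) ≤ ((u : ℝ) ^ L) ^ 2 by positivity)
  nlinarith

theorem Ok.xc_bad (h : d.Ok y H A₁ S Λ θ C δ₀ C₁) (hM' : M' ⊆ d.P)
    (hi : Function.Injective fun z : Fin L × Fin u => pr z.1 z.2) (hp : ∀ g i, pr g i ∈ M')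
    (hy : 1 ≤ y) (hΛ : 0 < Λ) {r : ℕ} (hu : 0 < u) (hr : r ^ 2 ≤ u) {Z : ℝ} (h1 : 1 ≤ Z)
    (h2 : Z ≤ (y : ℝ) ^ #d.P) {k l : ι} (hkl : k ≠ l) {s : ℝ} (hs : 0 < s) :
    prb d.O (fun x => d.In x ∧
      (2 ^ L * ((r : ℝ) ^ 2 / u) ^ ((L : ℝ) / 2) + s * (Λ * Z ^ C₁ / (y : ℝ) ^ ((r : ℝ) * L / 2))) *
        ((u : ℝ) ^ L) ^ r < #{t : Fin r → Fin L → Fin u |
          Xc Z (d.K x k) (d.K x l) (univ.biUnion fun i => bs pr (t i))}) ≤ 1 / s := by
  have hu0 : (0 : ℝ) < u := Nat.cast_pos.2 hu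
  have hy1 : (1 : ℝ) ≤ y := Nat.one_le_cast.2 hy
  set m : ℝ := Λ * Z ^ C₁ / (y : ℝ) ^ ((r : ℝ) * L / 2) with hm
  have m0 : 0 < m := by positivity
  have key := xgg_mk d.O {t ∈ (univ : Finset (Fin r → Fin L → Fin u)) |
      ¬ L ≤ 2 * #{g : Fin L | ¬ Function.Injective fun i => t i g}} d.In
    (fun x t => Xc Z (d.K x k) (d.K x l) (univ.biUnion fun i => bs pr (t i)))
    (a := 1) (m := m * ((u : ℝ) ^ L) ^ r) zero_le_one (by positivity) hs ?_
  · refine le_trans (pb_mono fun x _ hx => ⟨hx.1, ?_⟩) key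
    have k1 := xgg_over (L := L) hu hr
    have k2 := hx.2
    have k3 : #{t : Fin r → Fin L → Fin u |
        Xc Z (d.K x k) (d.K x l) (univ.biUnion fun i => bs pr (t i))} ≤
        #{t : Fin r → Fin L → Fin u |
          L ≤ 2 * #{g : Fin L | ¬ Function.Injective fun i => t i g}} +
        #{t ∈ {t ∈ (univ : Finset (Fin r → Fin L → Fin u)) |
          ¬ L ≤ 2 * #{g : Fin L | ¬ Function.Injective fun i => t i g}} |
          Xc Z (d.K x k) (d.K x l) (univ.biUnion fun i => bs pr (t i))} := by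
      refine le_trans (card_le_card fun t ht => ?_) (card_union_le _ _)
      by_cases e : L ≤ 2 * #{g : Fin L | ¬ Function.Injective fun i => t i g}
      · exact mem_union_left _ (mem_filter.2 ⟨mem_univ _, e⟩)
      · exact mem_union_right _ (mem_filter.2 ⟨mem_filter.2 ⟨mem_univ _, e⟩, (mem_filter.1 ht).2⟩)
    have k4 := (Nat.cast_le (α := ℝ)).2 k3
    rw [Nat.cast_add] at k4
    rw [one_mul]
    linarith
  refine (sum_le_card_nsmul _ _ m fun t ht => ?_).trans ?_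
  · have hU : (univ.biUnion fun i => bs pr (t i)) ⊆ d.P :=
      biUnion_subset.2 fun i _ => (xgg_sub hp _).trans hM'
    rw [one_mul]
    refine (h.xc k l hkl _ hU Z h1 h2).trans ?_
    refine div_le_div_of_nonneg_left (by positivity) (by positivity) ?_
    have k1 := (Nat.cast_le (α := ℝ)).2 (xgg_un hi t (mem_filter.1 ht).2)
    have k2 := (Nat.cast_le (α := ℝ)).2 (xgg_low (y := y) fun l hl => (h.prime l (hU hl)).2.1)
    refine le_trans ?_ k2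
    rw [Nat.cast_pow, ← Real.rpow_natCast]
    refine Real.rpow_le_rpow_of_exponent_le hy1 ?_
    push_cast at k1
    linarith
  · rw [nsmul_eq_mul, mul_comm]
    refine mul_le_mul_of_nonneg_left ?_ m0.le
    have := card_le_univ {t ∈ (univ : Finset (Fin r → Fin L → Fin u)) |
      ¬ L ≤ 2 * #{g : Fin L | ¬ Function.Injective fun i => t i g}}
    simp only [Fintype.card_fun, Fintype.card_fin] at this
    exact_mod_cast this

theorem Ok.atom (h : d.Ok y H A₁ S Λ θ C δ₀ C₁) {M B : Finset ℕ} (hM : M ⊆ M') (hM' : M' ⊆ d.P)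
    (hp : ∀ g i, pr g i ∈ M' ∧ pr g i ∉ M) (hB : B ⊆ d.P) (hd : Disjoint B M') (hu : 0 < u)
    {c s θ₁ : ℝ} (s₀ : ℕ → ℝ) (hθ₁ : 0 < θ₁) (hA : 1 ≤ A₁)
    (hs : (#(d.O.image (d.FF M)) : ℝ) ≤ Real.exp s) {x : α} (hx : x ∈ d.O)
    (hG : θ₁ / 2 ≤ mn univ fun β : Fin L → Fin u => mn B fun q =>
      prb {x' ∈ d.O | d.FF M' x' = d.FF M' x} (d.TT M M' (bs pr β) q c (s₀ q))) :
    d.In x ∧ ∃ (V : Finset ((Fin L → Fin u) × (ι → M2) × δ)) (a' : γ × (ℕ → ι → Set V2))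
      (Y : ℕ → (Fin L → Fin u) × (ι → M2) × δ → Finset (ι → Set V2)),
      θ₁ / 8 * Real.exp (-s) * (u : ℝ) ^ L ≤ #V ∧
      (∀ β, (#{w ∈ V | w.1 = β} : ℝ) ≤ ((4 * H ^ 2 + 1) ^ 4) ^ Fintype.card ι * A₁) ∧
      (∀ w ∈ V, ∀ k, Adm H (d.K x k) (bs pr w.1) (w.2.1 k)) ∧
      (∀ q ∈ B, ∀ w ∈ V, ∀ z ∈ Y q w, (z ∈ Fintype.piFinset fun _ : ι => Xn q) ∧
        s₀ q ≤ cp d.O (d.FF M') (d.dir q) (d.FF M' x) z ∧
        (q : ℝ) ^ (-c) * cp d.O (d.FF M') (d.dir q) (d.FF M' x) z ≤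
          cp d.O (d.FF M) (d.dir q) a' fun k => {v | (w.2.1 k).adjugate *ᵥ v ∈ z k}) ∧
      θ₁ / (8 * (((4 * H ^ 2 + 1) ^ 4) ^ Fintype.card ι * A₁)) ≤
        mn V fun w => mn B fun q => ∑ z ∈ Y q w, cp d.O (d.FF M') (d.dir q) (d.FF M' x) z := by
  set A₀ : ℝ := ((4 * H ^ 2 + 1) ^ 4) ^ Fintype.card ι * A₁ with hA₀
  have A0 : 0 < A₀ := by positivity
  have hu0 : (0 : ℝ) < (u : ℝ) ^ L := pow_pos (Nat.cast_pos.2 hu) L
  have hb : ∀ β : Fin L → Fin u, bs pr β ⊆ M' := xgg_sub fun g i => (hp g i).1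
  have hb' : ∀ β : Fin L → Fin u, Disjoint (bs pr β) M := fun β => disjoint_left.2 fun l hl => by
    obtain ⟨g, -, rfl⟩ := mem_image.1 hl
    exact (hp _ _).2
  generalize hAt : {x' ∈ d.O | d.FF M' x' = d.FF M' x} = At at hG
  have hA' : ∀ x', x' ∈ At ↔ x' ∈ d.O ∧ d.FF M' x' = d.FF M' x := fun x' => by
    rw [← hAt, mem_filter]
  have e0 : (#(univ : Finset (Fin L → Fin u)) : ℝ) = (u : ℝ) ^ L := by simp
  rw [mn, e0, le_div_iff₀ hu0] at hG
  refine ⟨?_, ?_⟩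
  · by_contra hn
    refine absurd hG (not_le.2 (lt_of_le_of_lt (sum_nonpos fun β _ => ?_) (by positivity)))
    refine div_nonpos_of_nonpos_of_nonneg (sum_nonpos fun q _ => ?_) (Nat.cast_nonneg _)
    simpa using xgg_cp d.O (d.FF M') (d.dir q) (d.FF M' x) ∅ _ At hA' fun x' hx' k =>
      absurd (h.inC x' ((hA' x').1 hx').1 x hx (congrArg Prod.fst ((hA' x').1 hx').2) k.1.1) hn
  obtain ⟨ix, hix⟩ : ∃ ix : (Fin L → Fin u) → α → (ι → M2) × δ,
      ∀ β x', ix β x' = (d.η (bs pr β) x', d.cl (d.π (bs pr β) x')) := ⟨_, fun _ _ => rfl⟩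
  obtain ⟨I, hI, hI'⟩ : ∃ I : (Fin L → Fin u) → Finset ((ι → M2) × δ), (∀ β, (#(I β) : ℝ) ≤ A₀) ∧
      ∀ β i, i ∈ I β ↔ ∃ x' ∈ At, d.Gd (bs pr β) x' ∧ ix β x' = i := by
    refine ⟨_, fun β => h.card_ix hM' (hb β) (d.FF M' x), fun β i => ?_⟩
    simp only [mem_image, mem_filter, hA', hix]
    exact exists_congr fun x' => by tauto
  obtain ⟨W, hW⟩ : ∃ W : Finset ((Fin L → Fin u) × (ι → M2) × δ),
      ∀ w, w ∈ W ↔ w.1 ∈ (univ : Finset (Fin L → Fin u)) ∧ w.2 ∈ I w.1 :=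
    ⟨{w ∈ (univ : Finset (Fin L → Fin u)) ×ˢ univ.biUnion I | w.2 ∈ I w.1}, fun w => by
      rw [mem_filter, mem_product, mem_biUnion]
      exact ⟨fun k => ⟨k.1.1, k.2⟩, fun k => ⟨⟨k.1, _, k.1, k.2⟩, k.2⟩⟩⟩
  obtain ⟨a, ha⟩ : ∃ a : (Fin L → Fin u) × (ι → M2) × δ → γ × (ℕ → ι → Set V2),
      ∀ β, ∀ x' ∈ At, d.Gd (bs pr β) x' → a (β, ix β x') = d.FF M (d.π (bs pr β) x') := by
    refine ⟨fun w => if k : ∃ x' ∈ At, d.Gd (bs pr w.1) x' ∧ ix w.1 x' = w.2 then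
      d.FF M (d.π (bs pr w.1) k.choose) else d.FF M x, fun β x' hx' g => ?_⟩
    have k : ∃ x'' ∈ At, d.Gd (bs pr β) x'' ∧ ix β x'' = ix β x' := ⟨x', hx', g, rfl⟩
    obtain ⟨k1, k2, k3⟩ := k.choose_spec
    replace k3 := (hix _ _).symm.trans (k3.trans (hix _ _))
    refine (dif_pos k).trans (h.FF_move hM hM' (hb β) (hb' β) ((hA' _).1 k1).1 ((hA' _).1 hx').1
      k2 g (((hA' _).1 k1).2.trans ((hA' _).1 hx').2.symm) (congrArg Prod.fst k3)
      (congrArg Prod.snd k3))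
  obtain ⟨Y, hY⟩ : ∃ Y : ℕ → (Fin L → Fin u) × (ι → M2) × δ → Finset (ι → Set V2), ∀ q w z,
      z ∈ Y q w ↔ ∃ x' ∈ At, (d.TT M M' (bs pr w.1) q c (s₀ q) x' ∧ ix w.1 x' = w.2) ∧
        d.dir q x' = z :=
    ⟨fun q w => ({x' ∈ At | d.TT M M' (bs pr w.1) q c (s₀ q) x' ∧ ix w.1 x' = w.2}).image
      (d.dir q), fun q w z => by simp only [mem_image, mem_filter, and_assoc]⟩
  have hWc : (#W : ℝ) ≤ (u : ℝ) ^ L * A₀ := by
    rw [card_eq_sum_ones, Nat.cast_sum, sum_finset_product W univ I hW, ← e0, ← nsmul_eq_mul]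
    exact sum_le_card_nsmul _ _ _ fun β _ => by simpa using hI β
  obtain ⟨a', V, hV, k1, k2⟩ := xgg_pig W (d.O.image (d.FF M)) a
    (fun w => mn B fun q => ∑ z ∈ Y q w, cp d.O (d.FF M') (d.dir q) (d.FF M' x) z)
    (fun w hw => by
      obtain ⟨x', hx', g, e⟩ := (hI' _ _).1 ((hW w).1 hw).2
      rw [show w = (w.1, ix w.1 x') from Prod.ext rfl e.symm, ha _ _ hx' g]
      exact mem_image_of_mem _ (h.maps _ ((hb _).trans hM') _ ((hA' _).1 hx').1))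
    (fun w => xgg_mn_le fun q _ => sum_cp_le _ _ _ _ _)
    (c := θ₁ / 8 * Real.exp (-s) * (u : ℝ) ^ L) (c' := θ₁ / (8 * A₀)) (by positivity)
    (by positivity) (by
      have b1 : θ₁ / 8 * Real.exp (-s) * (u : ℝ) ^ L * #(d.O.image (d.FF M)) ≤
          θ₁ / 8 * (u : ℝ) ^ L := by
        refine (mul_le_mul_of_nonneg_left hs (by positivity)).trans (le_of_eq ?_)
        rw [Real.exp_neg]
        field_simp
      have b2 : θ₁ / (8 * A₀) * #W ≤ θ₁ / 8 * (u : ℝ) ^ L := by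
        refine (mul_le_mul_of_nonneg_left hWc (by positivity)).trans (le_of_eq ?_)
        field_simp
      have b3 := mul_pos hθ₁ hu0
      refine lt_of_lt_of_le (by linarith) (hG.trans ?_)
      rw [sum_finset_product W univ I hW]
      refine sum_le_sum fun β _ => ?_
      rw [← mn_sum]
      refine mn_mono fun q _ => ?_
      refine (pb_mono (p' := fun x' => ∃ i ∈ I β, d.TT M M' (bs pr β) q c (s₀ q) x' ∧ ix β x' = i)
        fun x' hx' k => ⟨_, (hI' _ _).2 ⟨x', hx', k.1, rfl⟩, k, rfl⟩).trans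
        ((pb_exists _ _ _).trans (sum_le_sum fun i _ => ?_))
      exact xgg_cp _ _ _ _ _ _ At hA' fun x' hx' k => (hY q (β, i) _).2 ⟨x', hx', k, rfl⟩)
  refine ⟨V, a', Y, k1, fun β => le_trans (Nat.cast_le.2 ?_) (hI β),
    fun w hw k => ?_, fun q hq w hw z hz => ?_, k2⟩
  · refine card_le_card_of_injOn Prod.snd (fun w hw => ?_) fun w hw w' hw' e => ?_
    · obtain ⟨k, rfl⟩ := mem_filter.1 (mem_coe.1 hw)
      exact mem_coe.2 ((hW w).1 (hV w k).1).2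
    · exact Prod.ext ((mem_filter.1 (mem_coe.1 hw)).2.trans (mem_filter.1 (mem_coe.1 hw')).2.symm) e
  · obtain ⟨x', hx', g, e⟩ := (hI' _ _).1 ((hW w).1 (hV w hw).1).2
    obtain ⟨b1, b2, b3⟩ := h.adm _ ((hb w.1).trans hM') x' ((hA' _).1 hx').1 g k
    rw [← e, hix]
    refine ⟨b1, fun l hl => (b2 l hl).trans ?_, b3⟩
    have := congrFun (congrFun (congrArg Prod.snd ((hA' _).1 hx').2) l) k
    simpa only [FF, if_pos (hb _ hl)] using this
  · obtain ⟨x', hx', ⟨⟨g, b1, b2⟩, e⟩, rfl⟩ := (hY _ _ _).1 hz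
    obtain ⟨o, e'⟩ := (hA' _).1 hx'
    have b3 : d.FF M (d.π (bs pr w.1) x') = a' := by
      rw [← ha _ _ hx' g, e]
      exact (hV w hw).2
    have b4 : d.dir q (d.π (bs pr w.1) x') =
        fun k => {v | (w.2.1 k).adjugate *ᵥ v ∈ d.dir q x' k} := funext fun k => by
      rw [← e, hix]
      exact h.K_move ((hb _).trans hM') o (hB hq) (fun n => disjoint_left.1 hd hq (hb _ n)) k
    rw [e'] at b1 b2
    rw [b3, b4] at b2
    exact ⟨h.dir_mem (hB hq) o, b1, b2⟩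

end RD

end Pool.Agent.EQ
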