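import Pool.Agent.P.MP_ad7a55_nt.XGg

/-! The rigidity theorem with explicit numerical conditions. -/

set_option autoImplicit false

noncomputable section

open Finset Matrix
open scoped MatrixGroups Classical

namespace Pool.Agent.EQ

/-- The numerical conditions; `A₀` is the number of indices, `n` the number of test primes. -/
structure Num (m y L u r b n p q₀ C₁ : ℕ) (H A₀ Λ θ C δ₀ c e ε Cc s Δ : ℝ) : Prop where
  y₁ : q₀ ≤ y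
  y₂ : 2 ≤ y
  u₁ : 4 ≤ u
  u₂ : r ^ 2 ≤ u
  n₁ : 2 * δ₀ + (Δ + 2 * δ₀ * (m * Real.log (2 * y + 1)) + Real.log A₀ + 2) / (c * Real.log y) ≤
    5 * θ / 8
  n₂ : 8 * C ≤ θ * Real.sqrt y
  n₃ : (y : ℝ) ^ (-(c / 4)) ≤ θ / (128 * A₀)
  n₄ : A₀ ^ 2 * (32 * m * n / θ *
      (3 * (32 * m * Λ / θ) * Cc * 2 ^ b * 2 ^ L * (2 * y : ℝ) ^ (2 * L * ε) + 1)) <
    Real.exp ((θ / (128 * A₀ * m)) ^ 2 * b * (c * Real.log y) - b) * (θ / 32 * Real.exp (-s)) ^ 2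
  n₅ : (2 * y) ^ (4 * b) ≤ y ^ L
  n₆ : 2 ^ L * (4 / (u : ℝ)) ^ ((L : ℝ) / 2) * (2 * y) ^ (3 * b) ≤ 1
  n₇ : 8 * (H * Real.sqrt ((2 * y) ^ L)) + 9 ≤ (y : ℝ) ^ L
  n₈ : (8 * L + 1 : ℝ) ≤ ((2 * y : ℝ) ^ (-e)) ^ r / 2 * (θ / (128 * A₀ * (m : ℝ) ^ 2) * n)
  n₉ : 2 * y * ((y : ℝ) ^ L) ^ 7 ≤ (y : ℝ) ^ p
  n₁₀ : A₀ ^ r * (2 ^ L * ((r : ℝ) ^ 2 / u) ^ ((L : ℝ) / 2) + 32 * (m : ℝ) ^ 2 / θ *
      (Λ * (2 * y * ((y : ℝ) ^ L) ^ 7) ^ C₁ / (y : ℝ) ^ ((r : ℝ) * L / 2))) <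
    ((2 * y : ℝ) ^ (-e)) ^ r / 2 * (θ / 32 * Real.exp (-s)) ^ r

theorem xgh_atom {α β : Type} [DecidableEq β] (O : Finset α) (F : α → β) (p : α → Prop) :
    mn O (fun x => prb {x' ∈ O | F x' = F x} p) = prb O p := by
  unfold mn prb
  congr 1
  have e1 : ∀ x ∈ O, (#{z ∈ {x' ∈ O | F x' = F x} | p z} : ℝ) / #{x' ∈ O | F x' = F x} =
      ∑ z ∈ O, if F x = F z then (if p z then (1 : ℝ) else 0) / #{x' ∈ O | F x' = F z}
        else 0 := by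
    intro x _
    rw [Finset.filter_filter, ← Finset.sum_boole, Finset.sum_div]
    refine Finset.sum_congr rfl fun z _ => ?_
    by_cases e : F x = F z
    · simp [e]
    · simp [e, Ne.symm e]
  rw [Finset.sum_congr rfl e1, Finset.sum_comm, ← Finset.sum_boole]
  refine Finset.sum_congr rfl fun z hz => ?_
  have : (0 : ℝ) < #{x' ∈ O | F x' = F z} := by
    exact_mod_cast Finset.card_pos.2 ⟨z, by simp [hz]⟩
  rw [← Finset.sum_filter, Finset.sum_const, nsmul_eq_mul]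
  field_simp

theorem xgh_pick {α : Type} (O : Finset α) (p p₁ p₂ p₃ : α → Prop) {t : ℝ} (ht : 0 < t)
    (h : 4 * t ≤ prb O p) (h₁ : prb O p₁ ≤ t) (h₂ : prb O p₂ ≤ t) (h₃ : prb O p₃ ≤ t) :
    ∃ x ∈ O, p x ∧ ¬ p₁ x ∧ ¬ p₂ x ∧ ¬ p₃ x := by
  by_contra hn
  have a : prb O p ≤ prb O fun x => p₁ x ∨ (p₂ x ∨ p₃ x) := by
    refine pb_mono fun x hx hp => ?_
    by_contra h'
    exact hn ⟨x, hx, hp, fun e => h' (Or.inl e), fun e => h' (Or.inr (Or.inl e)),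
      fun e => h' (Or.inr (Or.inr e))⟩
  have a1 := pb_or O p₁ fun x => p₂ x ∨ p₃ x
  have a2 := pb_or O p₂ p₃
  linarith

theorem xgh_union {α κ : Type} (O : Finset α) (I : Finset κ) (p : κ → α → Prop) {a N θ : ℝ}
    (hθ : 0 < θ) (hN : 0 < N) (hI : (#I : ℝ) ≤ N) (ha : 0 < a)
    (h : ∀ i ∈ I, prb O (p i) ≤ a / (32 * N * a / θ)) :
    prb O (fun x => ∃ i ∈ I, p i x) ≤ θ / 32 := by
  refine (pb_exists O I p).trans ((Finset.sum_le_sum h).trans ?_)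
  rw [Finset.sum_const, nsmul_eq_mul]
  have e : a / (32 * N * a / θ) = θ / 32 / N := by field_simp
  rw [e, ← mul_div_assoc, div_le_iff₀ hN]
  nlinarith

theorem xgh_sub {L u : ℕ} {pr : Fin L → Fin u → ℕ} {M M' : Finset ℕ}
    (hp : ∀ g i, pr g i ∈ M' ∧ pr g i ∉ M) (β : Fin L → Fin u) :
    bs pr β ⊆ M' ∧ Disjoint (bs pr β) M := by
  constructor
  · intro l hl
    obtain ⟨g, -, rfl⟩ := Finset.mem_image.1 hl
    exact (hp _ _).1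
  · refine Finset.disjoint_left.2 fun l hl => ?_
    obtain ⟨g, -, rfl⟩ := Finset.mem_image.1 hl
    exact (hp _ _).2

theorem xgh_prod {L u y : ℕ} {pr : Fin L → Fin u → ℕ} (hy : 1 ≤ y) (hp : ∀ g i, pr g i ≤ 2 * y)
    (β : Fin L → Fin u) : ∏ l ∈ bs pr β, l ≤ (2 * y) ^ L := by
  refine (Finset.prod_le_pow_card _ _ (2 * y) fun l hl => ?_).trans
    (Nat.pow_le_pow_right (by omega) ?_)
  · obtain ⟨g, -, rfl⟩ := Finset.mem_image.1 hl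
    exact hp _ _
  · exact Finset.card_image_le.trans (by simp)

theorem xgh_ndvd {q : ℕ} (hq : q.Prime) {β : Finset ℕ} (h : ∀ l ∈ β, l.Prime) (hb : q ∉ β) :
    ¬ (q : ℤ) ∣ ((∏ l ∈ β, l : ℕ) : ℤ) := by
  rw [Int.natCast_dvd_natCast, hq.prime.dvd_finsetProd_iff]
  rintro ⟨l, hl, e⟩
  exact hb (((Nat.prime_dvd_prime_iff_eq hq (h l hl)).1 e) ▸ hl)

theorem xgh_num {U v N a X : ℝ} {r : ℕ} (hU : 0 < U) (hv : 0 < v) (h : v * U ≤ N)
    (h1 : X < a * v ^ r) (h2 : a * N ^ r ≤ X * U ^ r) (ha : 0 ≤ a) : False := by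
  have e1 : (v * U) ^ r ≤ N ^ r := pow_le_pow_left₀ (by positivity) h r
  have e2 := mul_lt_mul_of_pos_right h1 (pow_pos hU r)
  have e3 := mul_le_mul_of_nonneg_left e1 ha
  rw [mul_pow] at e3
  linarith

theorem xgh_sqrt {θ C : ℝ} {y q : ℕ} (hθ : 0 < θ) (hC : 0 < C) (hq : y < q)
    (h : 8 * C ≤ θ * Real.sqrt y) (m : ℕ) :
    Real.sqrt q ≤ θ * q / (8 * C * (q : ℝ) ^ m) * (q : ℝ) ^ m := by
  have q0 : (0 : ℝ) < q := by exact_mod_cast (by omega : 0 < q)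
  have e1 : θ * q / (8 * C * (q : ℝ) ^ m) * (q : ℝ) ^ m = θ * q / (8 * C) := by field_simp
  rw [e1, le_div_iff₀ (by positivity)]
  have e2 : Real.sqrt y ≤ Real.sqrt q := Real.sqrt_le_sqrt (by exact_mod_cast hq.le)
  have e3 : 8 * C ≤ θ * Real.sqrt q := h.trans (mul_le_mul_of_nonneg_left e2 hθ.le)
  calc Real.sqrt q * (8 * C) ≤ Real.sqrt q * (θ * Real.sqrt q) :=
        mul_le_mul_of_nonneg_left e3 (Real.sqrt_nonneg _)
    _ = θ * (Real.sqrt q * Real.sqrt q) := by ring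
    _ = θ * q := by rw [Real.mul_self_sqrt q0.le]

theorem xgh_block {φ : ℝ} {n b D I : ℕ} (hn : 0 < n) (hb : 0 < b) (h : φ * n < D)
    (h' : D * b ≤ I * n) : φ * b ≤ I := by
  have e1 : (0 : ℝ) < n := by exact_mod_cast hn
  have e2 : (0 : ℝ) < b := by exact_mod_cast hb
  have e3 : (D : ℝ) * b ≤ I * n := by exact_mod_cast h'
  have e4 := mul_lt_mul_of_pos_right h e2
  exact le_of_mul_le_mul_right (by linarith) e1

theorem xgh_loc {ι W 𝔅 : Type} [Fintype ι] [Nonempty ι] [Fintype 𝔅] {c e : ℝ} {q₀ y : ℕ}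
    (hG : GLP ι c e q₀) (hc : 0 < c) (he : 0 ≤ e) (hq₀ : q₀ ≤ y) (hy : 1 ≤ y) {H U v A₀ : ℝ}
    (hH : 0 ≤ H) (hU : 0 < U) (hv : 0 < v) {V : Finset W} {bb : W → 𝔅} {bs : 𝔅 → Finset ℕ}
    (v1 : v * U ≤ #V) (hA : 0 < A₀) (v2 : ∀ β, (#{w ∈ V | bb w = β} : ℝ) ≤ A₀)
    {η : W → ι → M2} {K : ι → ℕ → Set V2} (v3 : ∀ w ∈ V, ∀ k, Adm H (K k) (bs (bb w)) (η w k))
    {B : Finset ℕ} (μ μ' : ℕ → (ι → Set V2) → ℝ) (Y : ℕ → W → Finset (ι → Set V2))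
    (s₀ : ℕ → ℝ) {θ : ℝ} (hθ : 0 < θ)
    (hB : ∀ q ∈ B, q.Prime ∧ y < q ∧ q ≤ 2 * y ∧
      (∀ w ∈ V, ¬ (q : ℤ) ∣ ((∏ l ∈ bs (bb w), l : ℕ) : ℤ)) ∧
      (∀ z, 0 ≤ μ q z ∧ 0 ≤ μ' q z) ∧ ∑ z ∈ Fintype.piFinset fun _ : ι => Xn q, μ q z ≤ 1 ∧
      ∑ z ∈ Fintype.piFinset fun _ : ι => Xn q, μ' q z ≤ 1 ∧ 0 < s₀ q ∧
      Real.sqrt q ≤ s₀ q * (q : ℝ) ^ Fintype.card ι ∧
      ∀ w ∈ V, ∀ z ∈ Y q w, (z ∈ Fintype.piFinset fun _ : ι => Xn q) ∧ s₀ q ≤ μ q z ∧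
        (q : ℝ) ^ (-c) * μ q z ≤ μ' q fun k => {v | (η w k).adjugate *ᵥ v ∈ z k})
    (h1 : θ ≤ mn V fun w => mn B fun q => ∑ z ∈ Y q w, μ q z) (h2 : (y : ℝ) ^ (-(c / 4)) ≤ θ / 4)
    {L b r : ℕ} (hL : ∀ β, ∏ l ∈ bs β, l ≤ (2 * y) ^ L)
    (n7 : 8 * (H * Real.sqrt ((2 * y) ^ L)) + 9 ≤ (y : ℝ) ^ L) (hb : 0 < b) (hB0 : B.Nonempty)
    {F : Finset (Finset ℕ)} (hF1 : ∀ E ∈ F, E ⊆ B ∧ #E = b)
    (hF2 : ∀ D ⊆ B, ∃ E ∈ F, #D * b ≤ #(E ∩ D) * #B) {X₁ X₂ : ℝ}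
    (t2 : ∀ k, ∀ E ∈ F, ((∏ q ∈ E, q : ℕ) : ℝ) ^ 3 *
      #{z : 𝔅 × 𝔅 | Coll H (K k) (bs z.1) (bs z.2) E} ≤ X₁ * U ^ 2)
    (n4 : A₀ ^ 2 * X₁ <
      Real.exp ((θ / (4 * Fintype.card ι)) ^ 2 * b * (c * Real.log y) - b) * v ^ 2)
    (n8 : (8 * L + 1 : ℝ) ≤
      ((2 * y : ℝ) ^ (-e)) ^ r / 2 * (θ / (4 * (Fintype.card ι : ℝ) ^ 2) * #B))
    (t3 : ∀ k l, k ≠ l → (#{t : Fin r → 𝔅 | Xc (2 * y * ((y : ℝ) ^ L) ^ 7) (K k) (K l)
      (univ.biUnion fun i => bs (t i))} : ℝ) ≤ X₂ * U ^ r)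
    (n10 : A₀ ^ r * X₂ < ((2 * y : ℝ) ^ (-e)) ^ r / 2 * v ^ r) : False := by
  have hm : (0 : ℝ) < Fintype.card ι := by exact_mod_cast Fintype.card_pos
  have hyR : (1 : ℝ) ≤ y := by exact_mod_cast hy
  have hV : V.Nonempty := by
    rw [← Finset.card_pos]
    exact_mod_cast (mul_pos hv hU).trans_le v1
  have hlog : 0 ≤ c * Real.log y := mul_nonneg hc.le (Real.log_nonneg hyR)
  have hφ : 0 < θ / (4 * (Fintype.card ι : ℝ)) := by positivity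
  obtain ⟨k, l, hkl, B', hB', c1, c2⟩ := local_gl hG hc.le he hq₀ hy hV μ μ' Y s₀ hθ
    (fun w hw k => (v3 w hw k).1) hB h1 h2 fun k => by
      by_contra hlt
      rw [not_le] at hlt
      obtain ⟨D, hD⟩ : ∃ D, (B.filter fun q : ℕ => θ / (4 * Fintype.card ι) ≤ prb V fun w =>
        (q : ℝ) ^ (c - 3) < prb V fun w' => Pj q (η w' k) = Pj q (η w k)) = D := ⟨_, rfl⟩
      rw [hD] at hlt
      have hD1 : D ⊆ B := hD ▸ Finset.filter_subset _ _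
      obtain ⟨E, hE, hE'⟩ := hF2 D hD1
      obtain ⟨hEB, hEb⟩ := hF1 E hE
      have mg := margX hV v2 (fun w hw => v3 w hw k) hy (B := E) (D := E ∩ D)
        (fun q hq => ⟨(hB q (hEB hq)).1, (hB q (hEB hq)).2.1, fun w hw => by
          rw [(v3 w hw k).1]; exact (hB q (hEB hq)).2.2.2.1 w hw⟩) Finset.inter_subset_left
        hφ.le hc.le fun q hq => by
          have := (Finset.mem_inter.1 hq).2
          rw [← hD] at this
          exact (Finset.mem_filter.1 this).2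
      rw [hEb] at mg
      have a1 := xgh_block hB0.card_pos hb hlt hE'
      refine xgh_num hU hv v1 n4 (le_trans (mul_le_mul_of_nonneg_right
        (Real.exp_le_exp.2 ?_) (by positivity)) (mg.trans ?_)) (Real.exp_pos _).le
      · have := mul_le_mul_of_nonneg_right (mul_le_mul_of_nonneg_left a1 hφ.le) hlog
        linarith
      · rw [mul_assoc (A₀ ^ 2), mul_assoc (A₀ ^ 2)]
        exact mul_le_mul_of_nonneg_left (t2 k E hE) (by positivity)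
  have he0 : (0 : ℝ) < (2 * y : ℝ) ^ (-e) := by positivity
  have xc := local_xc v2 (fun w hw => ⟨v3 w hw k, v3 w hw l⟩) hy hL hH n7 (B := B') he0.le
    (fun q hq => ⟨(hB q (hB' hq)).1, (hB q (hB' hq)).2.1, (hB q (hB' hq)).2.2.1, c2 q hq⟩) r
    (n8.trans (mul_le_mul_of_nonneg_left c1 (by positivity)))
  refine xgh_num hU hv v1 n10 (xc.trans ?_) (by positivity)
  rw [mul_assoc (A₀ ^ r)]
  exact mul_le_mul_of_nonneg_left (t3 k l hkl) (by positivity)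

theorem xgh_good {α ι γ δ : Type} [Fintype ι] {d : RD α ι γ δ} {y C₁ : ℕ}
    {H A₁ S Λ θ C δ₀ : ℝ} (h : d.Ok y H A₁ S Λ θ C δ₀ C₁) (hA : 1 ≤ A₁) (hθ : 0 < θ)
    (hC : 0 < C) {c Δ : ℝ} (hc : 0 < c) (hy : 2 ≤ y) {L u : ℕ} (hu : 0 < u)
    {pr : Fin L → Fin u → ℕ} {M M' B : Finset ℕ} (hM : M ⊆ M') (hM' : M' ⊆ d.P)
    (hp : ∀ g i, pr g i ∈ M' ∧ pr g i ∉ M) (hB : B ⊆ d.P) (hd : Disjoint B M') (hB0 : B.Nonempty)
    (hΔ : mn B (fun q => ent d.O (d.FF M) (d.dir q) - ent d.O (d.FF M') (d.dir q)) ≤ Δ)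
    (hn : 2 * δ₀ + (Δ + 2 * δ₀ * (Fintype.card ι * Real.log (2 * y + 1)) +
      Real.log (((4 * H ^ 2 + 1) ^ 4) ^ Fintype.card ι * A₁) + 2) / (c * Real.log y) ≤ 5 * θ / 8) :
    4 * (θ / 32) ≤ prb d.O fun x => θ / 4 / 2 ≤ mn univ fun β : Fin L → Fin u => mn B fun q =>
      prb {x' ∈ d.O | d.FF M' x' = d.FF M' x} (d.TT M M' (bs pr β) q c
        (θ * q / (8 * C * (q : ℝ) ^ Fintype.card ι))) := by
  have hne : (univ : Finset (Fin L → Fin u)).Nonempty := ⟨fun _ => ⟨0, hu⟩, Finset.mem_univ _⟩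
  have hl : 0 < c * Real.log y :=
    mul_pos hc (Real.log_pos (by exact_mod_cast (by omega : 1 < y)))
  refine le_trans ?_ (pb_rev (B := 1) one_pos (fun x _ => ?_) (by positivity))
  · rw [mn_swap]
    have : θ / 4 ≤ mn univ fun β : Fin L → Fin u => mn d.O fun x => mn B fun q =>
        prb {x' ∈ d.O | d.FF M' x' = d.FF M' x} (d.TT M M' (bs pr β) q c
          (θ * q / (8 * C * (q : ℝ) ^ Fintype.card ι))) := by
      rw [← mn_const hne (θ / 4)]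
      refine mn_mono fun β _ => ?_
      rw [mn_swap]
      set K := 2 * δ₀ * (Fintype.card ι * Real.log (2 * y + 1)) +
        Real.log (((4 * H ^ 2 + 1) ^ 4) ^ Fintype.card ι * A₁) + 2 with hK
      refine le_trans ?_ (mn_mono (G := fun q => (θ - θ / 8 - 2 * δ₀ - K / (c * Real.log y)) +
        (-(c * Real.log y)⁻¹) * (ent d.O (d.FF M) (d.dir q) - ent d.O (d.FF M') (d.dir q)))
        fun q hq => ?_)
      · rw [mn_add, mn_const hB0, mn_mul]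
        have e : (Δ + 2 * δ₀ * (Fintype.card ι * Real.log (2 * y + 1)) +
            Real.log (((4 * H ^ 2 + 1) ^ 4) ^ Fintype.card ι * A₁) + 2) / (c * Real.log y) =
            K / (c * Real.log y) + (c * Real.log y)⁻¹ * Δ := by
          rw [hK]; ring
        have := mul_le_mul_of_nonneg_left hΔ (inv_pos.2 hl).le
        linarith
      · rw [xgh_atom]
        refine le_trans (le_of_eq ?_) (h.pb_TT hy hA hC hθ hM hM' (xgh_sub hp β).1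
          (xgh_sub hp β).2 (hB hq) (Finset.disjoint_left.1 hd hq) hc)
        rw [hK]; ring
    linarith
  · rw [← mn_const hne 1]
    refine mn_mono fun β _ => ?_
    rw [← mn_const hB0 1]
    exact mn_mono fun q _ => pb_le_one _ _

theorem rig_core {α ι γ δ : Type} [Fintype ι] [Nonempty ι] {d : RD α ι γ δ} {y C₁ : ℕ}
    {H A₁ S Λ θ C δ₀ : ℝ} (h : d.Ok y H A₁ S Λ θ C δ₀ C₁) (hA : 1 ≤ A₁) (hH : 0 ≤ H) (hθ : 0 < θ)
    (hC : 0 < C) (hΛ : 0 < Λ) {c e ε Cc s Δ : ℝ} {q₀ : ℕ} (hc : 0 < c) (he : 0 ≤ e) (hε : 0 ≤ ε)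
    (hCc : 0 ≤ Cc) (hG : GLP ι c e q₀) (hCT : CTP H ε Cc) {L u r b : ℕ}
    {pr : Fin L → Fin u → ℕ} {M M' B : Finset ℕ} (hM : M ⊆ M') (hM' : M' ⊆ d.P)
    (hi : Function.Injective fun z : Fin L × Fin u => pr z.1 z.2)
    (hp : ∀ g i, pr g i ∈ M' ∧ pr g i ∉ M) (hB : B ⊆ d.P) (hd : Disjoint B M') (hb : 0 < b)
    (hbB : b ∣ #B) (hB0 : B.Nonempty) (hs : (#(d.O.image (d.FF M)) : ℝ) ≤ Real.exp s)
    (hΔ : mn B (fun q => ent d.O (d.FF M) (d.dir q) - ent d.O (d.FF M') (d.dir q)) ≤ Δ)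
    (hN : Num (Fintype.card ι) y L u r b (#B) (#d.P) q₀ C₁ H
      (((4 * H ^ 2 + 1) ^ 4) ^ Fintype.card ι * A₁) Λ θ C δ₀ c e ε Cc s Δ) : False := by
  have hy := hN.y₂
  have hy1 : 1 ≤ y := by omega
  have hu := hN.u₁
  have hu0 : 0 < u := by omega
  have hm : (0 : ℝ) < Fintype.card ι := by exact_mod_cast Fintype.card_pos
  have hn : (0 : ℝ) < #B := by exact_mod_cast hB0.card_pos
  have hyR : (1 : ℝ) ≤ y := by exact_mod_cast hy1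
  have hU : (0 : ℝ) < (u : ℝ) ^ L := by positivity
  have hA0 : (0 : ℝ) < ((4 * H ^ 2 + 1) ^ 4) ^ Fintype.card ι * A₁ := by positivity
  have hp1 : ∀ g i, pr g i ∈ M' := fun g i => (hp g i).1
  obtain ⟨F, hF, hF1, hF2⟩ := exists_blocks B hB0 hb hbB
  have hZ : (1 : ℝ) ≤ 2 * y * ((y : ℝ) ^ L) ^ 7 :=
    one_le_mul_of_one_le_of_one_le (by linarith) (one_le_pow₀ (one_le_pow₀ hyR))
  have b1 := xgh_union d.O univ _ hθ hm (by simp) hΛ fun k _ =>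
    h.not_Ty hM' (t := 32 * (Fintype.card ι : ℝ) * Λ / θ) (by positivity) k
  have b2 := xgh_union d.O ((univ : Finset ι) ×ˢ F) _ hθ (mul_pos hm hn)
    (by
      rw [Finset.card_product, Finset.card_univ, Nat.cast_mul]
      exact mul_le_mul_of_nonneg_left (by exact_mod_cast hF) hm.le) one_pos fun z hz =>
    h.ct_bad hM' hi hp1 hε hCc hCT (t := 32 * (Fintype.card ι : ℝ) * Λ / θ) (by positivity) hy
      ((hF1 _ (Finset.mem_product.1 hz).2).1.trans hB)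
      (Finset.disjoint_of_subset_left (hF1 _ (Finset.mem_product.1 hz).2).1 hd) hu
      (by rw [(hF1 _ (Finset.mem_product.1 hz).2).2]; exact hN.n₅)
      (by rw [(hF1 _ (Finset.mem_product.1 hz).2).2]; exact hN.n₆) z.1 (by positivity)
  have b3 := xgh_union d.O (univ : Finset ι).offDiag _ hθ (pow_pos hm 2)
    (by
      rw [Finset.offDiag_card, Finset.card_univ, sq]
      exact_mod_cast Nat.sub_le _ _) one_pos fun z hz =>
    h.xc_bad hM' hi hp1 hy1 hΛ hu0 hN.u₂ hZ hN.n₉ (Finset.mem_offDiag.1 hz).2.2 (by positivity)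
  obtain ⟨x, hx, g, g1, g2, g3⟩ := xgh_pick _ _ _ _ _ (by positivity)
    (xgh_good h hA hθ hC hc hy hu0 hM hM' hp hB hd hB0 hΔ hN.n₁) b1 b2 b3
  obtain ⟨hIn, V, a', Y, v1, v2, v3, v4, v5⟩ := h.atom hM hM' hp hB hd hu0
    (fun q => θ * q / (8 * C * (q : ℝ) ^ Fintype.card ι)) (by positivity) hA hs hx g
  refine xgh_loc hG hc he hN.y₁ hy1 hH hU (v := θ / 32 * Real.exp (-s)) (by positivity)
    (bb := fun w => w.1) (bs := bs pr) (le_trans (le_of_eq (by ring)) v1) hA0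
    (fun β => by rw [Finset.filter_congr_decidable]; exact v2 β) v3 _
    (fun q => cp d.O (d.FF M) (d.dir q) a') Y
    (fun q => θ * q / (8 * C * (q : ℝ) ^ Fintype.card ι)) (by positivity) (fun q hq => ?_) v5
    (hN.n₃.trans (le_of_eq (by ring))) (xgh_prod hy1 fun g i => (h.prime _ (hM' (hp1 g i))).2.2)
    hN.n₇ hb hB0 (fun E hE => hF1 E hE) hF2 (fun k E hE => ?_)
    (hN.n₄.trans_le (le_of_eq (by ring_nf))) (hN.n₈.trans (le_of_eq (by ring)))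
    (fun k l hkl => ?_) hN.n₁₀
  · obtain ⟨p1, p2, p3⟩ := h.prime q (hB hq)
    have q0 : (0 : ℝ) < q := by exact_mod_cast p1.pos
    exact ⟨p1, p2, p3, fun w _ => xgh_ndvd p1
      (fun l hl => (h.prime l (hM' ((xgh_sub hp w.1).1 hl))).1)
      fun e => Finset.disjoint_left.1 hd hq ((xgh_sub hp w.1).1 e),
      fun z => ⟨cp_nonneg .., cp_nonneg ..⟩, sum_cp_le .., sum_cp_le .., by positivity,
      xgh_sqrt hθ hC p2 hN.n₂ _, v4 q hq⟩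
  · have t1 : d.Ty M' (32 * (Fintype.card ι : ℝ) * Λ / θ) k x := by
      by_contra h'
      exact g1 ⟨k, Finset.mem_univ _, hIn, h'⟩
    have t2 := not_lt.1 fun h' => g2 ⟨(k, E), Finset.mem_product.2 ⟨Finset.mem_univ _, hE⟩,
      hIn, t1, h'⟩
    simp only [(hF1 E hE).2] at t2
    exact t2.trans (le_of_eq (by ring))
  · have t3 := not_lt.1 fun h' => g3 ⟨(k, l), Finset.mem_offDiag.2
      ⟨Finset.mem_univ _, Finset.mem_univ _, hkl⟩, hIn, h'⟩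
    exact t3.trans (le_of_eq (by ring))

end Pool.Agent.EQ
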