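import Pool.Agent.P.MP_ad7a55_nt.TLow
import Pool.Agent.Lib.Sieve.Mertens

/-! Many small split primes: definitions and the range t at least m. -/

set_option autoImplicit false

noncomputable section

open Finset
open scoped Classical ArithmeticFunction.vonMangoldt

namespace Pool.Agent.EQ

/-- The number of primes up to `z` with `(-m/p) = 1`. -/
def nSp (m z : ℕ) : ℕ := #((Nat.primesLE z).filter fun p : ℕ => jacobiSym (-(m : ℤ)) p = 1)

/-- Many small primes split. -/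
def Many (A m : ℕ) : Prop := ∀ t : ℕ, Real.log m ≤ t → t ≤ nSp m (t ^ A)

/-- The exceptional set. -/
def EX (A : ℕ) (c : ℝ) : Set ℕ := {m | Squarefree m ∧ ¬ (NoZero c (-(m : ℤ)) ∧ Many A m)}

/-- No zero in a disc. -/
def ZF (ε : ℝ) (m : ℕ) : Prop :=
  ∀ (q : ℕ) [NeZero q] (χ : DirichletCharacter ℂ q), q = 4 * m →
    (∀ n : ℕ, Odd n → χ n = jacobiSym (-(m : ℤ)) n) → ∀ s : ℂ, ‖s - 2‖ < 1 + ε → χ.LFunction s ≠ 0

theorem nSp_mono (m : ℕ) {z z' : ℕ} (h : z ≤ z') : nSp m z ≤ nSp m z' := by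
  unfold nSp
  refine Finset.card_le_card fun p hp => ?_
  rw [Finset.mem_filter, Nat.mem_primesLE] at hp ⊢
  exact ⟨⟨hp.1.1.trans h, hp.1.2⟩, hp.2⟩

theorem xha_class {z d : ℕ} (hd : 0 < d) (a : ℤ) :
    (#((Icc 1 z).filter fun x : ℕ => (d : ℤ) ∣ (x : ℤ) - a) : ℝ) ≤ z / d + 1 := by
  have h1 : #((Icc 1 z).filter fun x : ℕ => (d : ℤ) ∣ (x : ℤ) - a) ≤ #(range (z / d + 1)) := by
    refine Finset.card_le_card_of_injOn (fun x => x / d) (fun x hx => ?_) fun x hx y hy e => ?_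
    · have h2 := (Finset.mem_Icc.1 (Finset.mem_filter.1 hx).1).2
      exact Finset.mem_coe.2 (Finset.mem_range.2 (Nat.lt_succ_of_le (Nat.div_le_div_right h2)))
    · have h2 := (Finset.mem_filter.1 hx).2
      have h3 := (Finset.mem_filter.1 hy).2
      have h4 : (d : ℤ) ∣ (y : ℤ) - x := by
        have := dvd_sub h3 h2
        rwa [sub_sub_sub_cancel_right] at this
      have h5 : x % d = y % d := (Nat.modEq_iff_dvd).2 h4
      have e' : x / d = y / d := e
      rw [← Nat.div_add_mod x d, ← Nat.div_add_mod y d, e', h5]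
  rw [Finset.card_range] at h1
  have h2 : ((z / d : ℕ) : ℝ) ≤ z / d := Nat.cast_div_le
  have h3 : (#((Icc 1 z).filter fun x : ℕ => (d : ℤ) ∣ (x : ℤ) - a) : ℝ) ≤ (z / d + 1 : ℕ) := by exact_mod_cast h1
  push_cast at h3
  linarith

theorem xha_two {z d : ℕ} (hd : 0 < d) (a b : ℤ) (T : Finset ℕ) (hT : T ⊆ Icc 1 z)
    (h : ∀ x ∈ T, (d : ℤ) ∣ (x : ℤ) - a ∨ (d : ℤ) ∣ (x : ℤ) - b) : (#T : ℝ) ≤ 2 * (z / d + 1) := by
  have h1 : T ⊆ ((Icc 1 z).filter fun x : ℕ => (d : ℤ) ∣ (x : ℤ) - a) ∪ ((Icc 1 z).filter fun x : ℕ => (d : ℤ) ∣ (x : ℤ) - b) := by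
    intro x hx
    rcases h x hx with h2 | h2
    · exact Finset.mem_union_left _ (Finset.mem_filter.2 ⟨hT hx, h2⟩)
    · exact Finset.mem_union_right _ (Finset.mem_filter.2 ⟨hT hx, h2⟩)
  have h2 := (Finset.card_le_card h1).trans (Finset.card_union_le _ _)
  have h3 : (#T : ℝ) ≤ #((Icc 1 z).filter fun x : ℕ => (d : ℤ) ∣ (x : ℤ) - a) +
      #((Icc 1 z).filter fun x : ℕ => (d : ℤ) ∣ (x : ℤ) - b) := by exact_mod_cast h2
  have h4 := xha_class (z := z) hd a
  have h5 := xha_class (z := z) hd b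
  linarith

theorem xha_dvd_two {m p x : ℕ} (hp : p.Prime) (hm : p ∣ m) (h : p ∣ 4 * x ^ 2 + m) :
    p ∣ 2 * x := by
  have h1 : p ∣ 4 * x ^ 2 := (Nat.dvd_add_left hm).1 h
  have h2 : 4 * x ^ 2 = (2 * x) ^ 2 := by ring
  rw [h2] at h1
  exact hp.dvd_of_dvd_pow h1

theorem xha_not_dvd {m p x : ℕ} (hm : ¬ p ∣ m) (h : p ∣ 4 * x ^ 2 + m) : ¬ p ∣ 2 * x := by
  intro h1
  apply hm
  have h2 : p ∣ 4 * x ^ 2 := by
    have h3 : 4 * x ^ 2 = (2 * x) * (2 * x) := by ring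
    rw [h3]
    exact h1.mul_right _
  exact (Nat.dvd_add_right h2).1 h

theorem xha_roots {m p j : ℕ} (hm : Squarefree m) (hp : p.Prime) (hj : 1 ≤ j) (z : ℕ) :
    (#{x ∈ Icc 1 z | p ^ j ∣ 4 * x ^ 2 + m} : ℝ) ≤ 2 * (z / (p ^ j : ℕ) + 1) := by
  have hd : 0 < p ^ j := pow_pos hp.pos j
  have hpj : p ∣ p ^ j := dvd_pow_self p (by omega)
  by_cases hpm : p ∣ m
  · rcases Nat.lt_or_ge 1 j with h2 | h2
    · have : {x ∈ Icc 1 z | p ^ j ∣ 4 * x ^ 2 + m} = ∅ := by
        refine Finset.filter_eq_empty_iff.2 fun x _ hx => ?_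
        have h3 := xha_dvd_two hp hpm (hpj.trans hx)
        have h4 : p * p ∣ 4 * x ^ 2 := by
          have h5 : 4 * x ^ 2 = (2 * x) * (2 * x) := by ring
          rw [h5]
          exact mul_dvd_mul h3 h3
        have h5 : p * p ∣ 4 * x ^ 2 + m := by
          rw [← pow_two]
          exact (pow_dvd_pow p h2).trans hx
        exact hp.one_lt.ne' (Nat.isUnit_iff.1 (hm p ((Nat.dvd_add_right h4).1 h5)))
      rw [this, Finset.card_empty, Nat.cast_zero]
      positivity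
    · obtain rfl : j = 1 := by omega
      refine xha_two hd 0 1 _ (Finset.filter_subset _ _) fun x hx => ?_
      have h3 := xha_dvd_two hp hpm (hpj.trans (Finset.mem_filter.1 hx).2)
      rw [pow_one]
      rcases (Nat.Prime.dvd_mul hp).1 h3 with h4 | h4
      · obtain rfl : p = 2 := (Nat.prime_dvd_prime_iff_eq hp Nat.prime_two).1 h4
        push_cast
        omega
      · left
        rw [sub_zero]
        exact_mod_cast h4
  · rcases ({x ∈ Icc 1 z | p ^ j ∣ 4 * x ^ 2 + m} : Finset ℕ).eq_empty_or_nonempty with h | ⟨y, hy⟩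
    · rw [h, Finset.card_empty, Nat.cast_zero]
      positivity
    refine xha_two hd y (-y) _ (Finset.filter_subset _ _) fun x hx => ?_
    have hx' := (Finset.mem_filter.1 hx).2
    have hy' := (Finset.mem_filter.1 hy).2
    have hx2 := xha_not_dvd hpm (hpj.trans hx')
    have hpz : Prime (p : ℤ) := Nat.prime_iff_prime_int.1 hp
    have h1 : (p : ℤ) ^ j ∣ 4 * (x : ℤ) ^ 2 + m := by exact_mod_cast hx'
    have h2 : (p : ℤ) ^ j ∣ 4 * (y : ℤ) ^ 2 + m := by exact_mod_cast hy'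
    have h3 : (p : ℤ) ^ j ∣ 2 * (2 * (((x : ℤ) - y) * ((x : ℤ) - -y))) := by
      have h4 := dvd_sub h1 h2
      have h5 : 4 * (x : ℤ) ^ 2 + m - (4 * (y : ℤ) ^ 2 + m) =
          2 * (2 * (((x : ℤ) - y) * ((x : ℤ) - -y))) := by ring
      rwa [h5] at h4
    have hp2 : ¬ (p : ℤ) ∣ 2 := by
      intro h4
      apply hx2
      have h5 : p ∣ 2 := by exact_mod_cast h4
      exact h5.mul_right _
    have h4 := hpz.pow_dvd_of_dvd_mul_left j hp2 (hpz.pow_dvd_of_dvd_mul_left j hp2 h3)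
    push_cast
    by_cases h5 : (p : ℤ) ∣ (x : ℤ) - y
    · left
      refine hpz.pow_dvd_of_dvd_mul_right j (fun h6 => hx2 ?_) h4
      have h7 := dvd_add h5 h6
      have h8 : (x : ℤ) - y + ((x : ℤ) - -y) = 2 * x := by ring
      rw [h8] at h7
      exact_mod_cast h7
    · right
      exact hpz.pow_dvd_of_dvd_mul_left j h5 h4

theorem xha_split {m p x : ℕ} (hp : p.Prime) (hm : ¬ p ∣ m) (h : p ∣ 4 * x ^ 2 + m) :
    jacobiSym (-(m : ℤ)) p = 1 := by
  have h1 : (-(m : ℤ)) % p = (2 * (x : ℤ)) ^ 2 % p := by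
    refine Int.modEq_iff_dvd.2 ?_
    have h2 : (p : ℤ) ∣ 4 * (x : ℤ) ^ 2 + m := by exact_mod_cast h
    have h3 : (2 * (x : ℤ)) ^ 2 - -(m : ℤ) = 4 * (x : ℤ) ^ 2 + m := by ring
    rwa [h3]
  rw [jacobiSym.mod_left' h1]
  refine jacobiSym.sq_one' ?_
  have h2 : Nat.Coprime (2 * x) p := ((Nat.Prime.coprime_iff_not_dvd hp).2 (xha_not_dvd hm h)).symm
  have h3 : (2 * (x : ℤ)) = ((2 * x : ℕ) : ℤ) := by push_cast; ring
  rw [h3, Int.gcd_natCast_natCast]
  exact h2

theorem xha_log_le {n W : ℕ} (hn : 0 < n) (hW : n ≤ W) {S : Finset ℕ} (hS : n.primeFactors ⊆ S) :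
    Real.log n ≤ ∑ p ∈ S, Real.log p *
      ∑ j ∈ Icc 1 (Nat.log p W), if p ^ j ∣ n then (1 : ℝ) else 0 := by
  rw [Real.log_nat_eq_sum_factorization, Finsupp.sum, Nat.support_factorization]
  refine le_trans (Finset.sum_le_sum fun p hp => ?_) (Finset.sum_le_sum_of_subset_of_nonneg hS
    fun p _ _ => mul_nonneg (Real.log_natCast_nonneg p)
      (Finset.sum_nonneg fun j _ => by split_ifs <;> norm_num))
  have hpp := Nat.prime_of_mem_primeFactors hp
  rw [mul_comm]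
  refine mul_le_mul_of_nonneg_left ?_ (Real.log_natCast_nonneg p)
  rw [Finset.sum_boole]
  have h1 : Icc 1 (n.factorization p) ⊆ {j ∈ Icc 1 (Nat.log p W) | p ^ j ∣ n} := by
    intro j hj
    have h2 := Finset.mem_Icc.1 hj
    have h3 : p ^ j ∣ n := (hpp.pow_dvd_iff_le_factorization hn.ne').2 h2.2
    refine Finset.mem_filter.2 ⟨Finset.mem_Icc.2 ⟨h2.1, ?_⟩, h3⟩
    exact Nat.le_log_of_pow_le hpp.one_lt ((Nat.le_of_dvd hn h3).trans hW)
  have h2 := Finset.card_le_card h1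
  rw [Nat.card_Icc, Nat.add_sub_cancel] at h2
  exact_mod_cast h2

theorem xha_geom {p : ℝ} (hp : 2 ≤ p) (L : ℕ) : ∑ j ∈ Icc 1 L, 1 / p ^ j ≤ 2 / p - 2 / p ^ (L + 1) := by
  have hp0 : 0 < p := by linarith
  induction L with
  | zero => simp
  | succ L ih =>
    rw [Finset.sum_Icc_succ_top (by omega)]
    have h1 : 2 / p ^ (L + 1 + 1) ≤ 1 / p ^ (L + 1) := by
      rw [div_le_div_iff₀ (by positivity) (by positivity), pow_succ p (L + 1)]
      have : 0 < p ^ (L + 1) := by positivity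
      nlinarith
    have h2 : 2 / p ^ (L + 1) = 1 / p ^ (L + 1) + 1 / p ^ (L + 1) := by ring
    linarith

theorem xha_upper {m z W : ℕ} (hm : Squarefree m) (hW : 4 * z ^ 2 + m ≤ W) {S : Finset ℕ}
    (hS : ∀ p ∈ S, p.Prime) (hS' : ∀ x ∈ Icc 1 z, (4 * x ^ 2 + m).primeFactors ⊆ S) :
    ∑ x ∈ Icc 1 z, Real.log (4 * x ^ 2 + m : ℕ) ≤
      4 * z * ∑ p ∈ S, Real.log p / p + #S * (2 * Real.log W) := by
  have hm0 : 0 < m := Nat.pos_of_ne_zero hm.ne_zero
  have hW0 : W ≠ 0 := by omega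
  have h1 : ∀ x ∈ Icc 1 z, Real.log (4 * x ^ 2 + m : ℕ) ≤ ∑ p ∈ S, Real.log p *
      ∑ j ∈ Icc 1 (Nat.log p W), if p ^ j ∣ 4 * x ^ 2 + m then (1 : ℝ) else 0 := by
    intro x hx
    refine xha_log_le (by omega) (le_trans ?_ hW) (hS' x hx)
    have := Nat.pow_le_pow_left (Finset.mem_Icc.1 hx).2 2
    omega
  refine (Finset.sum_le_sum h1).trans ?_
  rw [Finset.sum_comm, Finset.mul_sum, ← nsmul_eq_mul, ← Finset.sum_const, ← Finset.sum_add_distrib]
  refine Finset.sum_le_sum fun p hp => ?_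
  have hpp := hS p hp
  have hp2 : (2 : ℝ) ≤ p := by exact_mod_cast hpp.two_le
  have hl := Real.log_natCast_nonneg p
  rw [← Finset.mul_sum, Finset.sum_comm]
  have h2 : ∑ j ∈ Icc 1 (Nat.log p W), ∑ x ∈ Icc 1 z,
      (if p ^ j ∣ 4 * x ^ 2 + m then (1 : ℝ) else 0) ≤
      ∑ j ∈ Icc 1 (Nat.log p W), (2 * z * (1 / (p : ℝ) ^ j) + 2) := by
    refine Finset.sum_le_sum fun j hj => ?_
    rw [Finset.sum_boole]
    refine (xha_roots hm hpp (Finset.mem_Icc.1 hj).1 z).trans (le_of_eq ?_)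
    push_cast
    ring
  rw [Finset.sum_add_distrib, ← Finset.mul_sum, Finset.sum_const, Nat.card_Icc, Nat.add_sub_cancel,
    nsmul_eq_mul] at h2
  have h3 := xha_geom hp2 (Nat.log p W)
  have h4 : (0 : ℝ) ≤ 2 / (p : ℝ) ^ (Nat.log p W + 1) := by positivity
  have h5 : 2 * (z : ℝ) * ∑ j ∈ Icc 1 (Nat.log p W), 1 / (p : ℝ) ^ j ≤ 2 * z * (2 / p) :=
    mul_le_mul_of_nonneg_left (by linarith) (by positivity)
  have h6 : (Nat.log p W : ℝ) * Real.log p ≤ Real.log W := by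
    rw [← Real.log_pow]
    refine Real.log_le_log (by positivity) ?_
    exact_mod_cast Nat.pow_log_le_self p hW0
  have h7 := mul_le_mul_of_nonneg_left (h2.trans (add_le_add_left h5 _)) hl
  refine h7.trans ?_
  have h8 : Real.log p * (2 * z * (2 / p) + (Nat.log p W : ℝ) * 2) =
      4 * z * (Real.log p / p) + 2 * ((Nat.log p W : ℝ) * Real.log p) := by ring
  rw [h8]
  linarith

theorem xha_lower (m z : ℕ) :
    2 * (z * Real.log z - z) ≤ ∑ x ∈ Icc 1 z, Real.log (4 * x ^ 2 + m : ℕ) := by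
  have h1 : ∑ x ∈ Icc 1 z, Real.log x = Real.log (z.factorial : ℕ) := by
    induction z with
    | zero => simp
    | succ z ih =>
      rw [Finset.sum_Icc_succ_top (by omega), ih, Nat.factorial_succ, Nat.cast_mul,
        Real.log_mul (by positivity) (by positivity), add_comm]
  have h2 : z * Real.log z - z ≤ Real.log (z.factorial : ℕ) := by
    rcases Nat.eq_zero_or_pos z with rfl | hz
    · simp
    have h3 := Real.pow_div_factorial_le_exp (z : ℝ) (Nat.cast_nonneg z) z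
    have h4 := Real.log_le_log (by positivity) h3
    rw [Real.log_exp, Real.log_div (by positivity) (by positivity), Real.log_pow] at h4
    linarith
  refine le_trans (mul_le_mul_of_nonneg_left (h2.trans h1.ge) (by norm_num)) ?_
  rw [Finset.mul_sum]
  refine Finset.sum_le_sum fun x hx => ?_
  have hx0 : (0 : ℝ) < x := by exact_mod_cast (Finset.mem_Icc.1 hx).1
  have h3 : 2 * Real.log x = Real.log ((x : ℝ) ^ 2) := by
    rw [Real.log_pow]
    norm_num
  rw [h3]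
  refine Real.log_le_log (by positivity) ?_
  push_cast
  have : (0 : ℝ) ≤ m := Nat.cast_nonneg m
  nlinarith

theorem xha_mert {t : ℕ} (ht : 1 ≤ t) {S : Finset ℕ} (hS : ∀ p ∈ S, p.Prime) (hc : #S ≤ 2 * t) :
    ∑ p ∈ S, Real.log p / p ≤ 2 * Real.log t + 6 := by
  have ht0 : (0 : ℝ) < t := by exact_mod_cast ht
  rw [← Finset.sum_filter_add_sum_filter_not S fun p => p ≤ t ^ 2]
  have h1 : ∑ p ∈ S with p ≤ t ^ 2, Real.log p / p ≤
      ∑ p ∈ Nat.primesLE (t ^ 2), Real.log p / p := by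
    refine Finset.sum_le_sum_of_subset_of_nonneg (fun p hp => ?_) fun p _ _ => ?_
    · exact Nat.mem_primesLE.2 ⟨(Finset.mem_filter.1 hp).2, hS p (Finset.mem_filter.1 hp).1⟩
    · exact div_nonneg (Real.log_natCast_nonneg p) (Nat.cast_nonneg p)
  have h2 := Lib.Sieve.sum_log_div_le (N := t ^ 2) (Nat.one_le_pow _ _ ht)
  have h3 : Real.log 4 ≤ 2 := by
    have h4 : Real.log 4 = 2 * Real.log 2 := by
      rw [show (4 : ℝ) = 2 ^ 2 by norm_num, Real.log_pow]
      norm_num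
    have := Real.log_two_lt_d9
    linarith
  have h4 : Real.log (t ^ 2 : ℕ) = 2 * Real.log t := by
    rw [Nat.cast_pow, Real.log_pow]
    norm_num
  have h5 : ∑ p ∈ S with ¬ p ≤ t ^ 2, Real.log p / p ≤ ∑ p ∈ S with ¬ p ≤ t ^ 2, 2 / (t : ℝ) := by
    refine Finset.sum_le_sum fun p hp => ?_
    have h6 : t ^ 2 ≤ p := (not_le.1 (Finset.mem_filter.1 hp).2).le
    have h7 : (t : ℝ) ^ 2 ≤ p := by exact_mod_cast h6
    have hp0 : (0 : ℝ) < p := lt_of_lt_of_le (by positivity) h7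
    have h8 : (t : ℝ) ≤ Real.sqrt p := Real.le_sqrt_of_sq_le h7
    have h9 : Real.log p ≤ 2 * Real.sqrt p := by
      have h10 := Real.log_le_sub_one_of_pos (Real.sqrt_pos.2 hp0)
      rw [Real.log_sqrt hp0.le] at h10
      linarith
    have h10 : Real.sqrt p * Real.sqrt p = p := Real.mul_self_sqrt hp0.le
    have h11 := Real.sqrt_nonneg (p : ℝ)
    rw [div_le_div_iff₀ hp0 ht0]
    nlinarith
  rw [Finset.sum_const, nsmul_eq_mul] at h5
  have h6 : (#({p ∈ S | ¬ p ≤ t ^ 2}) : ℝ) ≤ 2 * t := by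
    exact_mod_cast (Finset.card_filter_le _ _).trans hc
  have h7 : (#({p ∈ S | ¬ p ≤ t ^ 2}) : ℝ) * (2 / t) ≤ 2 * t * (2 / t) :=
    mul_le_mul_of_nonneg_right h6 (by positivity)
  have h8 : 2 * (t : ℝ) * (2 / t) = 4 := by field_simp; norm_num
  linarith

theorem many_large : ∃ A₀ t₀ : ℕ, ∀ m : ℕ, Squarefree m → ∀ t : ℕ, t₀ ≤ t → m ≤ t →
    t ≤ nSp m (t ^ A₀) := by
  refine ⟨21, 128, fun m hm t ht hmt => ?_⟩
  by_contra hc
  have hm0 : 0 < m := Nat.pos_of_ne_zero hm.ne_zero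
  have ht1 : 1 ≤ t := by omega
  have hW : 4 * (t ^ 10) ^ 2 + m ≤ t ^ 21 := by
    have h1 : t ≤ t ^ 20 := Nat.le_self_pow (by norm_num) t
    have h2 : t ^ 21 = t * t ^ 20 := by ring
    have h3 : (t ^ 10) ^ 2 = t ^ 20 := by ring
    rw [h2, h3]
    nlinarith
  set S : Finset ℕ := ((Nat.primesLE (t ^ 21)).filter fun p : ℕ => jacobiSym (-(m : ℤ)) p = 1) ∪
    m.primeFactors with hSdef
  have hS : ∀ p ∈ S, p.Prime := by
    intro p hp
    rcases Finset.mem_union.1 hp with h | h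
    · exact (Nat.mem_primesLE.1 (Finset.mem_filter.1 h).1).2
    · exact Nat.prime_of_mem_primeFactors h
  have hSc : #S ≤ 2 * t := by
    refine (Finset.card_union_le _ _).trans ?_
    have h1 : #m.primeFactors ≤ m := by
      have h2 : m.primeFactors ⊆ Icc 1 m := fun p hp => Finset.mem_Icc.2
        ⟨(Nat.prime_of_mem_primeFactors hp).one_le, Nat.le_of_mem_primeFactors hp⟩
      simpa using Finset.card_le_card h2
    unfold nSp at hc
    omega
  have hS' : ∀ x ∈ Icc 1 (t ^ 10), (4 * x ^ 2 + m).primeFactors ⊆ S := by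
    intro x hx p hp
    have hpp := Nat.prime_of_mem_primeFactors hp
    by_cases h : p ∣ m
    · exact Finset.mem_union_right _ (Nat.mem_primeFactors.2 ⟨hpp, h, hm0.ne'⟩)
    · refine Finset.mem_union_left _ (Finset.mem_filter.2 ⟨Nat.mem_primesLE.2 ⟨?_, hpp⟩,
        xha_split hpp h (Nat.dvd_of_mem_primeFactors hp)⟩)
      refine (Nat.le_of_mem_primeFactors hp).trans (le_trans ?_ hW)
      have := Nat.pow_le_pow_left (Finset.mem_Icc.1 hx).2 2
      omega
  have h1 := (xha_lower m (t ^ 10)).trans (xha_upper hm hW hS hS')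
  have h2 := xha_mert ht1 hS hSc
  have hl : 4 ≤ Real.log t := by
    have h3 : Real.log ((2 : ℝ) ^ 7) ≤ Real.log t := by
      refine Real.log_le_log (by norm_num) ?_
      exact_mod_cast ht
    rw [Real.log_pow] at h3
    have := Real.log_two_gt_d9
    push_cast at h3
    linarith
  have htr : (128 : ℝ) ≤ t := by exact_mod_cast ht
  have h3 : Real.log (t ^ 10 : ℕ) = 10 * Real.log t := by
    rw [Nat.cast_pow, Real.log_pow]
    norm_num
  have h4 : Real.log (t ^ 21 : ℕ) = 21 * Real.log t := by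
    rw [Nat.cast_pow, Real.log_pow]
    norm_num
  rw [h3, h4] at h1
  have h5 : (128 * t : ℝ) ≤ (t ^ 10 : ℕ) := by
    have h6 : t * t ≤ t ^ 10 := by
      rw [← pow_two]
      exact Nat.pow_le_pow_right ht1 (by norm_num)
    have h7 : 128 * t ≤ t ^ 10 := (Nat.mul_le_mul_right t ht).trans h6
    exact_mod_cast h7
  generalize ((t ^ 10 : ℕ) : ℝ) = z at h1 h5
  have h6 : (#S : ℝ) ≤ 2 * t := by exact_mod_cast hSc
  have hz : 0 < z := by linarith
  have h7 : 4 * z * ∑ p ∈ S, Real.log p / p ≤ 4 * z * (2 * Real.log t + 6) :=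
    mul_le_mul_of_nonneg_left h2 (by positivity)
  have h8 : (#S : ℝ) * (2 * (21 * Real.log t)) ≤ 2 * t * (2 * (21 * Real.log t)) :=
    mul_le_mul_of_nonneg_right h6 (by positivity)
  have h9 : 128 * t * Real.log t ≤ z * Real.log t :=
    mul_le_mul_of_nonneg_right h5 (by linarith)
  have h10 : z * 4 ≤ z * Real.log t := mul_le_mul_of_nonneg_left hl hz.le
  have h11 : 0 ≤ t * Real.log t := by positivity
  nlinarith

end Pool.Agent.EQ
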