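import Pool.Agent.P.MP_ad7a55_nt.XHa

/-! Few fields have few small split primes. -/

set_option autoImplicit false

noncomputable section

open Finset
open scoped Classical ArithmeticFunction.vonMangoldt

namespace Pool.Agent.EQ

theorem xhb_nsq {m m' : ℕ} (h : Squarefree m) (h' : Squarefree m') (hne : m ≠ m') :
    ¬ IsSquare ((m : ℤ) * m') := by
  intro hs
  have hs' : IsSquare (m * m') := by
    rw [← Nat.cast_mul] at hs
    exact Int.isSquare_natCast_iff.1 hs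
  obtain ⟨s, hs'⟩ := hs'
  have h1 : m ∣ s := (h.dvd_pow_iff_dvd (n := 2) (by norm_num)).1 ⟨m', by rw [sq, ← hs']⟩
  obtain ⟨a, rfl⟩ := h1
  have h2 : m' = m * (a * a) :=
    Nat.eq_of_mul_eq_mul_left (Nat.pos_of_ne_zero h.ne_zero) (by rw [hs']; ring)
  have h3 : a = 1 := Nat.isUnit_iff.1 (h' a ⟨m, by rw [h2]; ring⟩)
  rw [h3, mul_one, mul_one] at h2
  exact hne h2.symm

theorem xhb_neg {m : ℕ} (h : m ≠ 0) : ¬ IsSquare (-(m : ℤ)) := by
  rintro ⟨s, hs⟩
  have h1 := mul_self_nonneg s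
  omega

theorem xhb_jc_mul (a b : ℤ) (n : ℕ) : jc (-a) n * jc (-b) n = jc (a * b) n := by
  unfold jc
  split_ifs
  · rw [← Int.cast_mul, ← jacobiSym.mul_left, neg_mul_neg]
  · rw [mul_zero]

theorem xhb_fib {k : ℕ} {P : Finset ℕ} (hP : ∀ p ∈ P, p.Prime) (n : ℕ) :
    #{t ∈ Fintype.piFinset fun _ : Fin k => P | ∏ i, t i = n} ≤ k ^ k := by
  rcases eq_empty_or_nonempty {t ∈ Fintype.piFinset fun _ : Fin k => P | ∏ i, t i = n} with h | h
  · rw [h, card_empty]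
    exact Nat.zero_le _
  obtain ⟨u, hu⟩ := h
  obtain ⟨h1, h2⟩ := mem_filter.1 hu
  refine (card_le_card (t := Fintype.piFinset fun _ : Fin k => univ.image u) fun t ht => ?_).trans ?_
  · obtain ⟨h3, h4⟩ := mem_filter.1 ht
    refine Fintype.mem_piFinset.2 fun i => ?_
    have h5 := hP _ (Fintype.mem_piFinset.1 h3 i)
    have h6 : t i ∣ ∏ j, u j := by
      rw [h2, ← h4]
      exact dvd_prod_of_mem _ (mem_univ i)
    obtain ⟨j, -, hj⟩ := (Prime.dvd_finsetProd_iff h5.prime _).1 h6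
    exact mem_image.2 ⟨j, mem_univ j,
      ((Nat.prime_dvd_prime_iff_eq h5 (hP _ (Fintype.mem_piFinset.1 h1 j))).1 hj).symm⟩
  · rw [Fintype.card_piFinset, prod_const, card_univ, Fintype.card_fin]
    refine Nat.pow_le_pow_left (card_image_le.trans ?_) k
    rw [card_univ, Fintype.card_fin]

theorem xhb_sq (X Z : ℕ) (M : Finset ℕ) (hM : ∀ m ∈ M, Squarefree m ∧ m ≤ X) :
    ∑ n ∈ Icc 1 Z, (∑ m ∈ M, jc (-(m : ℤ)) n) ^ 2 ≤ #M * (Z + #M * (4 * (X : ℝ) ^ 2)) := by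
  simp_rw [sq (∑ m ∈ M, _), sum_mul_sum]
  rw [sum_comm, ← nsmul_eq_mul]
  refine sum_le_card_nsmul _ _ _ fun m hm => ?_
  rw [sum_comm]
  have hX : (0 : ℝ) ≤ 4 * (X : ℝ) ^ 2 := by positivity
  calc _ ≤ ∑ m' ∈ M, ((if m = m' then (Z : ℝ) else 0) + 4 * (X : ℝ) ^ 2) := by
        refine sum_le_sum fun m' hm' => ?_
        by_cases e : m = m'
        · subst e
          rw [if_pos rfl]
          refine le_add_of_le_of_nonneg ((sum_le_card_nsmul _ _ 1 fun n _ => ?_).trans_eq ?_) hX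
          · rcases (rc_jc (xhb_neg (hM m hm).1.ne_zero)).val n with e | e | e <;> rw [e] <;> norm_num
          · simp
        · rw [if_neg e, zero_add]
          simp_rw [xhb_jc_mul]
          refine (le_abs_self _).trans
            (((rc_jc (xhb_nsq (hM m hm).1 (hM m' hm').1 e)).bd Z).trans ?_)
          rw [Int.natAbs_mul, Int.natAbs_natCast, Int.natAbs_natCast]
          have := Nat.mul_le_mul (hM m hm).2 (hM m' hm').2
          have h2 : 4 * (m * m') ≤ 4 * X ^ 2 := by rw [sq]; omega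
          exact_mod_cast h2
    _ = _ := by rw [sum_add_distrib, sum_ite_eq, if_pos hm, sum_const, nsmul_eq_mul]

theorem sieve_pow (X z k : ℕ) (hk : 0 < k) (P M : Finset ℕ) (hP : ∀ p ∈ P, p.Prime ∧ p ≤ z)
    (hM : ∀ m ∈ M, Squarefree m ∧ m ≤ X ∧ ∑ p ∈ P, jc (-(m : ℤ)) p ≤ -(#P : ℝ) / 2)
    (h : 8 * (X : ℝ) ^ 2 ≤ (#P / (4 * k : ℝ)) ^ k) (h0 : P.Nonempty) :
    (#M : ℝ) ≤ 2 * (4 * k * z / #P) ^ k := by
  have hN : (0 : ℝ) < #P := by exact_mod_cast h0.card_pos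
  have hk0 : (0 : ℝ) < k := by exact_mod_cast hk
  rcases M.eq_empty_or_nonempty with rfl | hMne
  · rw [card_empty, Nat.cast_zero]
    positivity
  have hR : (0 : ℝ) < #M := by exact_mod_cast hMne.card_pos
  obtain ⟨T, hT⟩ : ∃ T, T = Fintype.piFinset fun _ : Fin k => P := ⟨_, rfl⟩
  obtain ⟨F, hF⟩ : ∃ F : ℕ → ℝ, F = fun n => ∑ m ∈ M, jc (-(m : ℤ)) n := ⟨_, rfl⟩
  have e1 : ∑ m ∈ M, (∑ p ∈ P, jc (-(m : ℤ)) p) ^ k = ∑ t ∈ T, F (∏ i, t i) := by
    rw [hF]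
    beta_reduce
    rw [sum_comm]
    refine sum_congr rfl fun m hm => ?_
    have hr := rc_jc (xhb_neg (hM m hm).1.ne_zero)
    rw [← Fin.prod_const, prod_univ_sum, ← hT]
    refine sum_congr rfl fun t _ => ?_
    exact (map_prod (⟨⟨jc (-(m : ℤ)), hr.one⟩, hr.mul⟩ : ℕ →* ℝ) t univ).symm
  have e2 : (#M : ℝ) * (#P / 2) ^ k ≤ (-1) ^ k * ∑ t ∈ T, F (∏ i, t i) := by
    rw [← e1, mul_sum, ← nsmul_eq_mul]
    refine card_nsmul_le_sum _ _ _ fun m hm => ?_
    rw [← mul_pow]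
    refine pow_le_pow_left₀ (by positivity) ?_ k
    have := (hM m hm).2.2
    linarith
  have e3 : ((#M : ℝ) * (#P / 2) ^ k) ^ 2 ≤ (∑ t ∈ T, F (∏ i, t i)) ^ 2 := by
    refine (pow_le_pow_left₀ (by positivity) e2 2).trans_eq ?_
    rw [mul_pow, ← pow_mul, mul_comm k 2, pow_mul, neg_one_sq, one_pow, one_mul]
  have e4 : ∑ t ∈ T, F (∏ i, t i) ^ 2 ≤ (k : ℝ) ^ k * ∑ n ∈ Icc 1 (z ^ k), F n ^ 2 := by
    rw [← sum_fiberwise_of_maps_to (s := T) (t := Icc 1 (z ^ k)) (g := fun t => ∏ i, t i), mul_sum]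
    · refine sum_le_sum fun n _ => ?_
      rw [sum_congr rfl (g := fun _ => F n ^ 2) fun t ht => by rw [(mem_filter.1 ht).2], sum_const,
        nsmul_eq_mul]
      refine mul_le_mul_of_nonneg_right ?_ (sq_nonneg _)
      rw [hT]
      exact_mod_cast xhb_fib (k := k) (fun p hp => (hP p hp).1) n
    · intro t ht
      rw [hT, Fintype.mem_piFinset] at ht
      refine mem_Icc.2 ⟨prod_pos fun i _ => (hP _ (ht i)).1.pos, ?_⟩
      refine (prod_le_pow_card _ _ z fun i _ => (hP _ (ht i)).2).trans_eq ?_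
      rw [card_univ, Fintype.card_fin]
  have e5 : (#T : ℝ) = (#P : ℝ) ^ k := by
    rw [hT, Fintype.card_piFinset, prod_const, card_univ, Fintype.card_fin, Nat.cast_pow]
  have e6 := xhb_sq X (z ^ k) M fun m hm => ⟨(hM m hm).1, (hM m hm).2.1⟩
  have e7 : ((#M : ℝ) * (#P / 2) ^ k) ^ 2 ≤
      (#P : ℝ) ^ k * ((k : ℝ) ^ k * (#M * ((z : ℝ) ^ k + #M * (4 * (X : ℝ) ^ 2)))) := by
    refine e3.trans (sq_sum_le_card_mul_sum_sq.trans ?_)
    rw [e5]
    refine mul_le_mul_of_nonneg_left (e4.trans (mul_le_mul_of_nonneg_left ?_ (by positivity)))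
      (by positivity)
    rw [hF, ← Nat.cast_pow z]
    exact e6
  obtain ⟨a, ha⟩ : ∃ a : ℝ, a = (#P / (4 * k : ℝ)) ^ k := ⟨_, rfl⟩
  have ha0 : 0 < a := by rw [ha]; positivity
  have e8 : ((#M : ℝ) * (#P / 2) ^ k) ^ 2 = (#P : ℝ) ^ k * ((k : ℝ) ^ k * (#M * (#M * a))) := by
    have : (((#P : ℝ) / 2) ^ k) ^ 2 = (#P : ℝ) ^ k * ((k : ℝ) ^ k * a) := by
      rw [ha, ← mul_pow, ← mul_pow, ← pow_mul, mul_comm k 2, pow_mul]
      congr 1
      field_simp
      ring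
    rw [mul_pow, this]
    ring
  rw [e8] at e7
  have e9 := le_of_mul_le_mul_left (le_of_mul_le_mul_left (le_of_mul_le_mul_left e7 (by positivity))
    (by positivity)) hR
  have e10 : (4 * k * z / #P : ℝ) ^ k = (z : ℝ) ^ k / a := by
    rw [ha, ← div_pow]
    congr 1
    field_simp
  rw [← ha] at h
  rw [e10, ← mul_div_assoc, le_div_iff₀ ha0]
  nlinarith [mul_le_mul_of_nonneg_left h hR.le]

theorem cheb_low : ∃ z₀ : ℕ, ∀ z : ℕ, z₀ ≤ z →
    (z : ℝ) ≤ 4 * Real.log z * #((Nat.primesLE z).filter fun p => p ≠ 2) := by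
  refine ⟨64, fun z hz => ?_⟩
  have hz' : (64 : ℝ) ≤ z := by exact_mod_cast hz
  have h1 := (Chebyshev.psi_ge z).trans (Chebyshev.psi_le_primeCounting_mul_log z)
  have h2 : (Nat.primeCounting z : ℝ) ≤ #((Nat.primesLE z).filter fun p => p ≠ 2) + 1 := by
    rw [← Nat.primesLE_card_eq_primeCounting, filter_ne']
    exact_mod_cast (by have := pred_card_le_card_erase (s := Nat.primesLE z) (a := 2); omega)
  have h3 : 0 ≤ Real.log z := Real.log_nonneg (by linarith)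
  have h4 : Real.log z ≤ Real.log (z + 1) := Real.log_le_log (by linarith) (by linarith)
  have h5 : Real.log (z + 1) ≤ (z + 1) / 64 - 1 + 6 * Real.log 2 := by
    have e : Real.log (z + 1) = Real.log ((z + 1) / 64) + 6 * Real.log 2 := by
      rw [Real.log_div (by linarith) (by norm_num), show (64 : ℝ) = 2 ^ 6 by norm_num, Real.log_pow]
      push_cast
      ring
    rw [e]
    have := Real.log_le_sub_one_of_pos (x := ((z : ℝ) + 1) / 64) (by linarith)
    linarith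
  have h6 := Real.log_two_gt_d9
  have h7 := Real.log_two_lt_d9
  have h8 := mul_le_mul_of_nonneg_right h2 h3
  have h9 : (z : ℝ) * (1 / 2) ≤ z * Real.log 2 := mul_le_mul_of_nonneg_left (by linarith) (by linarith)
  nlinarith

theorem xhb_sum {m z : ℕ} (hm : m ≠ 0) :
    ∑ p ∈ (Nat.primesLE z).filter fun p => p ≠ 2, jc (-(m : ℤ)) p ≤
      2 * nSp m z + 2 * Real.log m - #((Nat.primesLE z).filter fun p => p ≠ 2) := by
  obtain ⟨P, hP⟩ : ∃ P, P = (Nat.primesLE z).filter fun p => p ≠ 2 := ⟨_, rfl⟩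
  rw [← hP]
  have h1 : (#{p ∈ P | jacobiSym (-(m : ℤ)) p = 1} : ℝ) ≤ nSp m z := by
    rw [hP]
    exact_mod_cast card_le_card (filter_subset_filter _ (filter_subset _ _))
  have h2 : (#{p ∈ P | p ∣ m} : ℝ) ≤ 2 * Real.log m := by
    have a1 : #{p ∈ P | p ∣ m} ≤ #m.primeFactors := card_le_card fun p hp => by
      obtain ⟨b1, b2⟩ := mem_filter.1 hp
      rw [hP] at b1
      exact Nat.mem_primeFactors.2 ⟨Nat.prime_of_mem_primesLE (mem_filter.1 b1).1, b2, hm⟩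
    have a2 : 2 ^ #m.primeFactors ≤ m :=
      (pow_card_le_prod _ _ _ fun p hp => (Nat.prime_of_mem_primeFactors hp).two_le).trans
        (Nat.le_of_dvd (Nat.pos_of_ne_zero hm) (Nat.prod_primeFactors_dvd m))
    have a3 : Real.log ((2 : ℝ) ^ #m.primeFactors) ≤ Real.log m :=
      Real.log_le_log (by positivity) (by exact_mod_cast a2)
    rw [Real.log_pow] at a3
    have a4 : (#{p ∈ P | p ∣ m} : ℝ) ≤ #m.primeFactors := by exact_mod_cast a1
    have a5 := Real.log_two_gt_d9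
    have a6 : (0 : ℝ) ≤ #m.primeFactors := Nat.cast_nonneg _
    nlinarith
  calc _ ≤ ∑ p ∈ P, (2 * (if jacobiSym (-(m : ℤ)) p = 1 then (1 : ℝ) else 0) +
        (if p ∣ m then (1 : ℝ) else 0) - 1) := by
        refine sum_le_sum fun p hp => ?_
        rw [hP, mem_filter] at hp
        have hp1 := Nat.prime_of_mem_primesLE hp.1
        rw [jc, if_pos (hp1.odd_of_ne_two hp.2)]
        rcases jacobiSym.trichotomy (-(m : ℤ)) p with e | e | e
        · have b1 := (jacobiSym.eq_zero_iff.1 e).2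
          rw [Int.neg_gcd, Int.gcd_natCast_natCast] at b1
          have b2 : p ∣ m := by
            by_contra b3
            exact b1 ((Nat.Prime.coprime_iff_not_dvd hp1).2 b3).symm
          rw [e, if_pos b2]
          norm_num
        · rw [e]
          split_ifs <;> norm_num at *
        · rw [e]
          split_ifs <;> norm_num at *
    _ ≤ _ := by
        rw [sum_sub_distrib, sum_add_distrib, ← mul_sum, sum_boole, sum_boole, sum_const,
          nsmul_eq_mul, mul_one]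
        linarith

theorem xhb_block {z₀ : ℕ} (hz : ∀ z : ℕ, z₀ ≤ z →
      (z : ℝ) ≤ 4 * Real.log z * #((Nat.primesLE z).filter fun p => p ≠ 2)) {X T D r : ℕ}
    (hr : 0 < r) (hD : 4 * r ≤ D) (h1 : z₀ ≤ T) (h2 : 4 * (D + 4) ≤ T) (h3 : T ≤ X)
    (h4 : 24 * Real.log X ≤ (T : ℝ) ^ 2) {M : Finset ℕ}
    (hM : ∀ m ∈ M, Squarefree m ∧ m ≤ X ∧ Real.log m ≤ 2 * T ∧ nSp m (T ^ (D + 4)) ≤ 2 * T) :
    (#M : ℝ) ≤ 192 * (D + 4) * Real.log X ^ 2 * (X : ℝ) ^ (3 / r : ℝ) := by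
  have hT : (16 : ℝ) ≤ T := by exact_mod_cast (by omega : 16 ≤ T)
  have hX : (T : ℝ) ≤ X := by exact_mod_cast h3
  have hD' : 4 * ((D : ℝ) + 4) ≤ T := by exact_mod_cast h2
  have hD0 : (0 : ℝ) ≤ D := Nat.cast_nonneg _
  have hl2 := Real.log_two_gt_d9
  have hL : 1 ≤ Real.log X := by
    have : Real.log ((2 : ℝ) ^ 2) ≤ Real.log X := Real.log_le_log (by norm_num) (by linarith)
    rw [Real.log_pow] at this
    push_cast at this
    linarith
  have hlT : Real.log T ≤ Real.log X := Real.log_le_log (by linarith) hX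
  have hlT' : Real.log T ≤ T := (Real.log_le_sub_one_of_pos (by linarith)).trans (by linarith)
  have hlT0 : 0 ≤ Real.log T := Real.log_nonneg (by linarith)
  have hc := hz (T ^ (D + 4)) (h1.trans (Nat.le_self_pow (by omega) T))
  have hs := fun m (hm : m ∈ M) => xhb_sum (z := T ^ (D + 4)) (hM m hm).1.ne_zero
  obtain ⟨P, hP⟩ : ∃ P, P = (Nat.primesLE (T ^ (D + 4))).filter fun p => p ≠ 2 := ⟨_, rfl⟩
  rw [← hP] at hc hs
  rw [Nat.cast_pow, Real.log_pow, Nat.cast_add, Nat.cast_ofNat] at hc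
  have hP0 : (0 : ℝ) ≤ #P := Nat.cast_nonneg _
  have hb : 4 * (((D : ℝ) + 4) * Real.log T) ≤ (T : ℝ) ^ 2 := by nlinarith
  have hN : (T : ℝ) ^ (D + 2) ≤ #P := by
    refine le_of_mul_le_mul_left (a := (T : ℝ) ^ 2) ?_ (by positivity)
    refine le_trans (le_of_eq (by ring)) (hc.trans (mul_le_mul_of_nonneg_right hb hP0))
  have hTD : (1 : ℝ) ≤ (T : ℝ) ^ D := one_le_pow₀ (by linarith)
  have hN' : 16 * (T : ℝ) ≤ #P := by
    refine le_trans ?_ hN
    rw [pow_add]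
    nlinarith
  have hPpos : (0 : ℝ) < #P := by linarith
  have hex : ∃ k : ℕ, 8 * X ^ 2 ≤ (T ^ D) ^ k :=
    ⟨8 * X ^ 2, (Nat.lt_pow_self (Nat.one_lt_pow (by omega) (by omega))).le⟩
  obtain ⟨k, hk1, hk2⟩ : ∃ k : ℕ, 8 * X ^ 2 ≤ (T ^ D) ^ (k + 1) ∧ (T ^ D) ^ k ≤ X ^ 3 := by
    have a1 := Nat.find_spec hex
    have a0 : 0 < X ^ 2 := Nat.pow_pos (by omega)
    have a2 : Nat.find hex ≠ 0 := fun e => by
      rw [e, pow_zero] at a1
      omega
    obtain ⟨k, hk⟩ := Nat.exists_eq_succ_of_ne_zero a2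
    refine ⟨k, by rw [hk] at a1; exact a1, ?_⟩
    have a3 := not_le.1 (Nat.find_min hex (m := k) (by omega))
    refine a3.le.trans ?_
    rw [pow_succ' X 2]
    exact Nat.mul_le_mul_right _ (by omega)
  have hkL : 4 * ((k + 1 : ℕ) : ℝ) ≤ 24 * Real.log X := by
    have a1 : 2 ^ k ≤ X ^ 3 := le_trans (Nat.pow_le_pow_left
      (le_trans (by omega) (Nat.le_self_pow (by omega : D ≠ 0) T)) k) hk2
    have a2 : Real.log ((2 : ℝ) ^ k) ≤ Real.log ((X : ℝ) ^ 3) :=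
      Real.log_le_log (by positivity) (by exact_mod_cast a1)
    rw [Real.log_pow, Real.log_pow] at a2
    have a3 : (0 : ℝ) ≤ k := Nat.cast_nonneg _
    push_cast at a2 ⊢
    nlinarith
  have hk0 : (0 : ℝ) < 4 * ((k + 1 : ℕ) : ℝ) := by positivity
  have key := sieve_pow X (T ^ (D + 4)) (k + 1) (Nat.succ_pos k) P M
    (fun p hp => by
      rw [hP] at hp
      exact (Nat.mem_primesLE.1 (mem_filter.1 hp).1).symm)
    (fun m hm => ⟨(hM m hm).1, (hM m hm).2.1, by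
      have a1 := hs m hm
      have a2 := (hM m hm).2.2.1
      have a3 : (nSp m (T ^ (D + 4)) : ℝ) ≤ 2 * T := by exact_mod_cast (hM m hm).2.2.2
      linarith⟩)
    (by
      have a1 : 8 * (X : ℝ) ^ 2 ≤ ((T : ℝ) ^ D) ^ (k + 1) := by exact_mod_cast hk1
      refine a1.trans (pow_le_pow_left₀ (by positivity) ?_ _)
      rw [le_div_iff₀ hk0]
      refine le_trans ?_ hN
      rw [pow_add]
      exact mul_le_mul_of_nonneg_left (hkL.trans h4) (by positivity))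
    (card_pos.1 (by exact_mod_cast hPpos))
  obtain ⟨B, hB⟩ : ∃ B : ℝ, B = 4 * ((k + 1 : ℕ) : ℝ) * ((T ^ (D + 4) : ℕ) : ℝ) / #P := ⟨_, rfl⟩
  rw [← hB] at key
  have hB0 : 0 ≤ B := by rw [hB]; positivity
  have hB1 : B ≤ 24 * Real.log X * (4 * (((D : ℝ) + 4) * Real.log T)) := by
    rw [hB, mul_div_assoc]
    refine mul_le_mul hkL ?_ (by positivity) (by positivity)
    rw [div_le_iff₀ hPpos, Nat.cast_pow]
    exact hc
  have hB2 : B ≤ (T : ℝ) ^ 4 := by
    refine hB1.trans ((mul_le_mul h4 hb (by positivity) (by positivity)).trans_eq (by ring))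
  have hB3 : B ≤ 96 * (D + 4) * Real.log X ^ 2 := by
    refine hB1.trans ?_
    have : 24 * Real.log X * (4 * (((D : ℝ) + 4) * Real.log T)) ≤
        24 * Real.log X * (4 * (((D : ℝ) + 4) * Real.log X)) := by gcongr
    linarith
  have hB4 : B ^ k ≤ (X : ℝ) ^ (3 / r : ℝ) := by
    refine (pow_le_pow_left₀ hB0 hB2 k).trans ?_
    have a1 : ((T ^ 4) ^ k) ^ r ≤ X ^ 3 := by
      refine le_trans ?_ hk2
      rw [← pow_mul, ← pow_mul, ← pow_mul]
      exact Nat.pow_le_pow_right (by omega) (by nlinarith)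
    have a2 : (((T : ℝ) ^ 4) ^ k) ^ r ≤ ((X : ℝ) ^ (3 / r : ℝ)) ^ r := by
      rw [← Real.rpow_natCast ((X : ℝ) ^ (3 / r : ℝ)), ← Real.rpow_mul (by positivity),
        div_mul_cancel₀ _ (by positivity), show (3 : ℝ) = (3 : ℕ) by norm_num, Real.rpow_natCast]
      exact_mod_cast a1
    exact le_of_pow_le_pow_left₀ hr.ne' (by positivity) a2
  rw [pow_succ] at key
  have := mul_le_mul hB4 hB3 hB0 (by positivity)
  linarith

theorem few_medium {ε : ℝ} (hε : 0 < ε) : ∃ A₀ : ℕ, ∀ A : ℕ, A₀ ≤ A → ∃ C : ℝ, ∀ X : ℕ,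
    (({m : ℕ | Squarefree m ∧ ∃ t : ℕ, Real.log m ≤ t ∧ t < m ∧ nSp m (t ^ A) < t} ∩
      Set.Iic X).ncard : ℝ) ≤ C * (X : ℝ) ^ ε := by
  obtain ⟨z₀, hz⟩ := cheb_low
  obtain ⟨r, hr⟩ := exists_nat_gt (6 / ε)
  have hr0 : (0 : ℝ) < r := lt_trans (by positivity) hr
  have hr1 : (3 / r : ℝ) ≤ ε / 2 := by
    rw [div_lt_iff₀ hε] at hr
    rw [div_le_iff₀ hr0]
    linarith
  refine ⟨4 * r + 4, fun A hA => ?_⟩
  obtain ⟨D, rfl⟩ : ∃ D, A = D + 4 := ⟨A - 4, by omega⟩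
  obtain ⟨W, hW⟩ : ∃ W : ℝ, W = (z₀ + 4 * (D + 4)) / (ε / 2) + 24 / (ε / 2) ^ 2 + 1 := ⟨_, rfl⟩
  obtain ⟨X₀, hX₀⟩ := exists_nat_gt (Real.exp W)
  obtain ⟨C₁, hC₁⟩ : ∃ C₁ : ℝ, C₁ = 576 * (D + 4) / (ε / 6) ^ 3 := ⟨_, rfl⟩
  have hC0 : 0 ≤ C₁ := by rw [hC₁]; positivity
  refine ⟨X₀ + 2 + C₁, fun X => ?_⟩
  rcases Nat.eq_zero_or_pos X with rfl | hX
  · rw [Set.eq_empty_of_forall_notMem (s := _ ∩ _), Set.ncard_empty, Nat.cast_zero]
    · positivity
    · rintro m ⟨h1, h2⟩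
      exact h1.1.ne_zero (Nat.le_zero.1 h2)
  have hX1 : (1 : ℝ) ≤ X := by exact_mod_cast hX
  have hXe : 1 ≤ (X : ℝ) ^ ε := Real.one_le_rpow hX1 hε.le
  have hX0 : (0 : ℝ) ≤ X₀ := Nat.cast_nonneg _
  rcases lt_or_ge X X₀ with hlt | hge
  · have a1 := Set.ncard_le_ncard (s := {m : ℕ | Squarefree m ∧ ∃ t : ℕ, Real.log m ≤ t ∧ t < m ∧
      nSp m (t ^ (D + 4)) < t} ∩ Set.Iic X) (t := (range X₀ : Finset ℕ))
      (fun m hm => mem_coe.2 (mem_range.2 (lt_of_le_of_lt hm.2 hlt))) (finite_toSet _)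
    rw [Set.ncard_coe_finset, card_range] at a1
    refine (Nat.cast_le.2 a1).trans ?_
    nlinarith
  have hL : W ≤ Real.log X := by
    rw [Real.le_log_iff_exp_le (by linarith)]
    exact hX₀.le.trans (by exact_mod_cast hge)
  have b1 : (0 : ℝ) ≤ (z₀ + 4 * (D + 4)) / (ε / 2) := by positivity
  have b2 : (0 : ℝ) ≤ 24 / (ε / 2) ^ 2 := by positivity
  have hL1 : 1 ≤ Real.log X := by linarith
  have hL2 : (z₀ : ℝ) + 4 * (D + 4) ≤ ε / 2 * Real.log X := by
    rw [mul_comm (ε / 2), ← div_le_iff₀ (by positivity)]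
    linarith
  have hL3 : 24 * Real.log X ≤ (ε / 2 * Real.log X) ^ 2 := by
    have : 24 ≤ Real.log X * (ε / 2) ^ 2 := by
      rw [← div_le_iff₀ (by positivity)]
      linarith
    nlinarith
  obtain ⟨M, hM⟩ : ∃ M : ℕ → Finset ℕ, M = fun j => (range (X + 1)).filter fun m : ℕ =>
      Squarefree m ∧
      Real.log m ≤ 2 * (2 ^ j : ℕ) ∧ nSp m ((2 ^ j) ^ (D + 4)) ≤ 2 * 2 ^ j ∧
        ε / 2 * Real.log X ≤ (2 ^ j : ℕ) := ⟨_, rfl⟩
  have a1 := Set.ncard_le_ncard (s := {m : ℕ | Squarefree m ∧ ∃ t : ℕ, Real.log m ≤ t ∧ t < m ∧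
      nSp m (t ^ (D + 4)) < t} ∩ Set.Iic X)
      (t := (range (⌊(X : ℝ) ^ ε⌋₊ + 1) ∪ (range (Nat.log 2 X + 1)).biUnion M : Finset ℕ))
      (by
        rintro m ⟨⟨h1, t, h2, h3, h4⟩, h5⟩
        have h5' : m ≤ X := h5
        rw [mem_coe, mem_union]
        by_cases hm : (m : ℝ) ≤ (X : ℝ) ^ ε
        · exact Or.inl (mem_range.2 (Nat.lt_succ_of_le (Nat.le_floor hm)))
        have h6 : ε * Real.log X ≤ Real.log m := by
          rw [← Real.log_rpow (by linarith)]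
          exact Real.log_le_log (by linarith) (not_le.1 hm).le
        have h7 : t ≠ 0 := by omega
        have h8 := Nat.pow_log_le_self 2 h7
        have h9 := Nat.lt_pow_succ_log_self (b := 2) (by norm_num) t
        rw [pow_succ] at h9
        have h10 : (t : ℝ) ≤ 2 * (2 ^ Nat.log 2 t : ℕ) := by exact_mod_cast (by omega)
        refine Or.inr (mem_biUnion.2 ⟨Nat.log 2 t, mem_range.2
          (Nat.lt_succ_of_le (Nat.log_mono_right (by omega))), ?_⟩)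
        rw [hM]
        refine mem_filter.2 ⟨mem_range.2 (by omega), h1, h2.trans h10, ?_, by linarith⟩
        have := nSp_mono m (Nat.pow_le_pow_left h8 (D + 4))
        omega) (finite_toSet _)
  rw [Set.ncard_coe_finset] at a1
  have a2 : ∀ j ∈ range (Nat.log 2 X + 1),
      (#(M j) : ℝ) ≤ 192 * (D + 4) * Real.log X ^ 2 * (X : ℝ) ^ (3 / r : ℝ) := fun j hj => by
    rcases (M j).eq_empty_or_nonempty with e | ⟨m₀, e⟩
    · rw [e, card_empty, Nat.cast_zero]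
      positivity
    rw [hM] at e
    have c1 := (mem_filter.1 e).2.2.2.2
    have c2 : z₀ + 4 * (D + 4) ≤ 2 ^ j := by exact_mod_cast hL2.trans c1
    refine xhb_block hz (T := 2 ^ j) (by exact_mod_cast hr0) (by omega) (by omega) (by omega)
      (Nat.pow_le_of_le_log (by omega) (Nat.lt_succ_iff.1 (mem_range.1 hj)))
      (hL3.trans (pow_le_pow_left₀ (by positivity) c1 2)) fun m hm => ?_
    rw [hM] at hm
    obtain ⟨d1, d2, d3, d4, -⟩ := mem_filter.1 hm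
    exact ⟨d2, Nat.lt_succ_iff.1 (mem_range.1 d1), d3, d4⟩
  have a3 : ((Nat.log 2 X + 1 : ℕ) : ℝ) ≤ 3 * Real.log X := by
    have c1 : Real.log ((2 : ℝ) ^ Nat.log 2 X) ≤ Real.log X :=
      Real.log_le_log (by positivity) (by exact_mod_cast Nat.pow_log_le_self 2 hX.ne')
    rw [Real.log_pow] at c1
    have c2 := Real.log_two_gt_d9
    have c3 : (0 : ℝ) ≤ Nat.log 2 X := Nat.cast_nonneg _
    push_cast
    nlinarith
  have a4 : (#((range (Nat.log 2 X + 1)).biUnion M) : ℝ) ≤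
      3 * Real.log X * (192 * (D + 4) * Real.log X ^ 2 * (X : ℝ) ^ (3 / r : ℝ)) := by
    refine (Nat.cast_le.2 card_biUnion_le).trans ?_
    rw [Nat.cast_sum]
    refine (sum_le_card_nsmul _ _ _ a2).trans ?_
    rw [card_range, nsmul_eq_mul]
    exact mul_le_mul_of_nonneg_right a3 (by positivity)
  have a5 : Real.log X ^ 3 * (X : ℝ) ^ (3 / r : ℝ) ≤ (X : ℝ) ^ ε / (ε / 6) ^ 3 := by
    have c1 := Real.log_le_rpow_div (x := X) (ε := ε / 6) (by linarith) (by positivity)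
    refine (mul_le_mul (pow_le_pow_left₀ (by linarith) c1 3)
      (Real.rpow_le_rpow_of_exponent_le hX1 hr1) (by positivity) (by positivity)).trans_eq ?_
    rw [div_pow, div_mul_eq_mul_div, ← Real.rpow_natCast ((X : ℝ) ^ (ε / 6)),
      ← Real.rpow_mul (by linarith), ← Real.rpow_add (by linarith)]
    congr 2
    push_cast
    ring
  have a6 : (#((range (Nat.log 2 X + 1)).biUnion M) : ℝ) ≤ C₁ * (X : ℝ) ^ ε := by
    refine a4.trans ?_
    have := mul_le_mul_of_nonneg_left a5 (by positivity : (0 : ℝ) ≤ 576 * (D + 4))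
    rw [hC₁]
    refine le_trans (le_of_eq (by ring)) (this.trans_eq (by ring))
  have a7 : ((⌊(X : ℝ) ^ ε⌋₊ + 1 : ℕ) : ℝ) ≤ 2 * (X : ℝ) ^ ε := by
    have := Nat.floor_le (a := (X : ℝ) ^ ε) (by linarith)
    push_cast
    linarith
  refine (Nat.cast_le.2 (a1.trans (card_union_le _ _))).trans ?_
  rw [card_range, Nat.cast_add]
  nlinarith

end Pool.Agent.EQ
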