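import Pool.Agent.P.MP_ad7a55_nt.XHb
import Pool.Agent.P.MP_ad7a55_nt.WLz

/-! The exceptional set is thin. -/

set_option autoImplicit false

noncomputable section

open Finset
open scoped Classical ArithmeticFunction.vonMangoldt

namespace Pool.Agent.EQ

theorem thin {ε : ℝ} (hε : 0 < ε) : ∃ (c : ℝ) (A₀ : ℕ), 0 < c ∧ ∀ A : ℕ, A₀ ≤ A → ∃ C : ℝ,
    ∀ X : ℕ, ((EX A c ∩ Set.Iic X).ncard : ℝ) ≤ C * (X : ℝ) ^ ε := by
  obtain ⟨c, hc, H⟩ := two_exc
  obtain ⟨A₁, t₀, h1⟩ := many_large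
  obtain ⟨A₂, h2⟩ := few_medium hε
  refine ⟨c, max A₁ A₂, hc, fun A hA => ?_⟩
  obtain ⟨C, hC⟩ := h2 A (le_of_max_le_right hA)
  refine ⟨1 / (ε * Real.log 2) + 2 + C + t₀, fun X => ?_⟩
  rcases Nat.eq_zero_or_pos X with rfl | hX
  · have : EX A c ∩ Set.Iic 0 = ∅ := Set.eq_empty_of_forall_notMem fun m hm =>
      hm.1.1.ne_zero (Nat.le_zero.1 hm.2)
    rw [this, Nat.cast_zero, Real.zero_rpow hε.ne']
    simp
  have hfin : ∀ Z : Set ℕ, (Z ∩ Set.Iic X).Finite := fun Z =>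
    (Set.finite_Iic X).subset Set.inter_subset_right
  have hsub : EX A c ∩ Set.Iic X ⊆
      ({m : ℕ | Squarefree m ∧ ¬ NoZero c (-(m : ℤ))} ∩ Set.Iic X ∪
        {m : ℕ | Squarefree m ∧ ∃ t : ℕ, Real.log m ≤ t ∧ t < m ∧ nSp m (t ^ A) < t} ∩
          Set.Iic X) ∪ (range t₀ : Finset ℕ) := by
    rintro m ⟨⟨hm, hn⟩, hmX⟩
    by_cases hz : NoZero c (-(m : ℤ))
    · have h3 : ¬ Many A m := fun h => hn ⟨hz, h⟩
      unfold Many at h3
      push Not at h3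
      obtain ⟨t, t1, t2⟩ := h3
      rcases Nat.lt_or_ge t m with h4 | h4
      · exact Or.inl (Or.inr ⟨⟨hm, t, t1, h4, t2⟩, hmX⟩)
      · refine Or.inr (mem_coe.2 (mem_range.2 ?_))
        by_contra h5
        have h0 : 0 < m := Nat.pos_of_ne_zero hm.ne_zero
        have h6 := h1 m hm t (by omega) h4
        have h7 := nSp_mono m
          (Nat.pow_le_pow_right (by omega : 0 < t) (le_of_max_le_left hA))
        omega
    · exact Or.inl (Or.inl ⟨⟨hm, hz⟩, hmX⟩)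
  have a1 := Set.ncard_le_ncard hsub (((hfin _).union (hfin _)).union (finite_toSet _))
  have a2 := a1.trans ((Set.ncard_union_le _ _).trans
    (Nat.add_le_add_right (Set.ncard_union_le _ _) _))
  rw [Set.ncard_coe_finset, card_range] at a2
  have a3 := card_lac (Z := {m : ℕ | Squarefree m ∧ ¬ NoZero c (-(m : ℤ))})
    (fun m hm m' hm' hlt => not_le.1 fun hle => (H m m' hm.1 hm'.1 hlt hle).elim hm.2 hm'.2) X
  have a4 := a2.trans (Nat.add_le_add_right (Nat.add_le_add_right a3 _) _)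
  have a5 : ((_ : ℕ) : ℝ) ≤ ((_ : ℕ) : ℝ) := Nat.cast_le.2 a4
  rw [Nat.cast_add, Nat.cast_add, Nat.cast_add, Nat.cast_ofNat] at a5
  have b1 : (1 : ℝ) ≤ (X : ℝ) ^ ε := Real.one_le_rpow (by exact_mod_cast hX) hε.le
  have b2 : (Nat.log 2 X : ℝ) ≤ 1 / (ε * Real.log 2) * (X : ℝ) ^ ε := by
    refine (Real.natLog_le_logb X 2).trans ?_
    have h3 : 0 < Real.log 2 := Real.log_pos one_lt_two
    rw [Real.logb, Nat.cast_ofNat, div_le_iff₀ h3]
    refine (Real.log_le_rpow_div (Nat.cast_nonneg X) hε).trans (le_of_eq ?_)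
    field_simp
  have b3 := mul_le_mul_of_nonneg_left b1 (Nat.cast_nonneg (α := ℝ) t₀)
  have b4 := hC X
  linarith

end Pool.Agent.EQ
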