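import Pool.Agent.P.MP_ad7a55_nt.SgB

/-! Derivatives of logarithmic derivatives at the point two. -/

set_option autoImplicit false

noncomputable section

open Finset
open scoped Classical ArithmeticFunction.vonMangoldt

namespace Pool.Agent.EQ

theorem xhd_prim {R : ℝ} {f : ℂ → ℂ} {c : ℂ} {M : ℝ} (hR : 0 < R)
    (hf : DifferentiableOn ℂ f (Metric.ball c R)) (h0 : ∀ z ∈ Metric.ball c R, f z ≠ 0)
    (hM : 1 ≤ M) (hb : ∀ z ∈ Metric.ball c R, ‖f z‖ ≤ M * ‖f c‖) :
    ∃ h : ℂ → ℂ, (∀ z ∈ Metric.ball c R, HasDerivAt h (deriv f z / f z) z) ∧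
      ∀ z ∈ Metric.ball c R, ‖h z‖ ≤ 2 * (Real.log M + 1) * ‖z - c‖ / (R - ‖z - c‖) := by
  have hg : DifferentiableOn ℂ (fun z => deriv f z / f z) (Metric.ball c R) :=
    (hf.deriv Metric.isOpen_ball).div hf h0
  obtain ⟨h, hc, hh⟩ := hg.isExactOn_ball.with_val_at c 0
  have hcm : c ∈ Metric.ball c R := Metric.mem_ball_self hR
  have hd : ∀ z ∈ Metric.ball c R,
      HasDerivAt (fun z => f z * Complex.exp (-h z)) 0 z := by
    intro z hz
    have h1 : HasDerivAt f (deriv f z) z :=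
      (hf.differentiableAt (Metric.isOpen_ball.mem_nhds hz)).hasDerivAt
    have h2 := h1.mul (hh z hz).neg.cexp
    have h3 : deriv f z * Complex.exp (-h z) +
        f z * (Complex.exp (-h z) * -(deriv f z / f z)) = 0 := by
      have := h0 z hz
      field_simp
      ring
    have h4 : HasDerivAt (fun z => f z * Complex.exp (-h z))
        (deriv f z * Complex.exp (-h z) + f z * (Complex.exp (-h z) * -(deriv f z / f z))) z := h2
    rwa [h3] at h4
  have hre : ∀ z ∈ Metric.ball c R, (h z).re ≤ Real.log M + 1 := by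
    intro z hz
    have h1 : f z * Complex.exp (-h z) = f c * Complex.exp (-h c) :=
      Metric.isOpen_ball.is_const_of_deriv_eq_zero (convex_ball c R).isPreconnected
        (fun w hw => (hd w hw).differentiableAt.differentiableWithinAt)
        (fun w hw => (hd w hw).deriv) hz hcm
    rw [hc, neg_zero, Complex.exp_zero, mul_one] at h1
    have h2 : f z = f c * Complex.exp (h z) := by
      rw [← h1, mul_assoc, ← Complex.exp_add, neg_add_cancel, Complex.exp_zero, mul_one]
    have h3 := hb z hz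
    rw [h2, norm_mul, Complex.norm_exp, mul_comm] at h3
    have h4 : Real.exp (h z).re ≤ M :=
      le_of_mul_le_mul_right h3 (norm_pos_iff.2 (h0 c hcm))
    have h5 := (Real.le_log_iff_exp_le (by linarith)).2 h4
    linarith
  refine ⟨h, hh, fun z hz => ?_⟩
  have hmem : ∀ w ∈ Metric.ball (0 : ℂ) R, w + c ∈ Metric.ball c R := by
    intro w hw
    rw [mem_ball_iff_norm, add_sub_cancel_right]
    exact mem_ball_zero_iff.1 hw
  have hlog : 0 ≤ Real.log M := Real.log_nonneg hM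
  have h6 := Complex.borelCaratheodory_zero (f := fun w => h (w + c)) (M := Real.log M + 1)
    (R := R) (z := z - c) (by linarith)
    (fun w hw => ((hh _ (hmem w hw)).differentiableAt.comp w
      (differentiableAt_id.add_const c)).differentiableWithinAt)
    (fun w hw => hre _ (hmem w hw)) hR (mem_ball_zero_iff.2 (mem_ball_iff_norm.1 hz))
    (by simpa using hc)
  simpa using h6

theorem xhd_mono {A t R S : ℝ} (hA : 0 ≤ A) (ht : 0 ≤ t) (hS : t ≤ S) (hR : S < R) :
    A * t / (R - t) ≤ A * S / (R - S) :=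
  div_le_div₀ (mul_nonneg hA (ht.trans hS)) (mul_le_mul_of_nonneg_left hS hA) (by linarith)
    (by linarith)

theorem logderiv_bound {r R : ℝ} (hr : 0 < r) (hR : r < R) : ∃ C : ℝ, 0 < C ∧
    ∀ (f : ℂ → ℂ) (c : ℂ) (M : ℝ), DifferentiableOn ℂ f (Metric.ball c R) →
      (∀ z ∈ Metric.ball c R, f z ≠ 0) → 1 ≤ M → (∀ z ∈ Metric.ball c R, ‖f z‖ ≤ M * ‖f c‖) →
      ∀ k : ℕ, ‖iteratedDeriv k (fun z => deriv f z / f z) c‖ ≤
        C * (Real.log M + 1) * k.factorial / r ^ k := by
  refine ⟨2 * ((r + R) / 2) / (R - (r + R) / 2) / ((R - r) / 2),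
    div_pos (div_pos (by linarith) (by linarith)) (by linarith), ?_⟩
  intro f c M hf h0 hM hb k
  obtain ⟨h, hh, hn⟩ := xhd_prim (hr.trans hR) hf h0 hM hb
  have hlog : 0 ≤ Real.log M := Real.log_nonneg hM
  have hδ : 0 < (R - r) / 2 := by linarith
  have hg : DifferentiableOn ℂ (fun z => deriv f z / f z) (Metric.ball c R) :=
    (hf.deriv Metric.isOpen_ball).div hf h0
  have hhd : DifferentiableOn ℂ h (Metric.ball c R) :=
    fun z hz => (hh z hz).differentiableAt.differentiableWithinAt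
  have hs : ∀ z ∈ Metric.sphere c r, ‖deriv f z / f z‖ ≤
      2 * (Real.log M + 1) * ((r + R) / 2) / (R - (r + R) / 2) / ((R - r) / 2) := by
    intro z hz
    have hz1 : dist z c = r := Metric.mem_sphere.1 hz
    have hsub : Metric.closedBall z ((R - r) / 2) ⊆ Metric.ball c R :=
      Metric.closedBall_subset_ball' (by linarith)
    rw [← (hh z (by rw [Metric.mem_ball]; linarith)).deriv]
    refine Complex.norm_deriv_le_of_forall_mem_sphere_norm_le hδ
      (hhd.diffContOnCl_ball hsub) fun w hw => ?_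
    refine (hn w (hsub (Metric.sphere_subset_closedBall hw))).trans
      (xhd_mono (by linarith) (norm_nonneg _) ?_ (by linarith))
    have h1 := dist_triangle w z c
    rw [Metric.mem_sphere.1 hw, hz1, dist_eq_norm] at h1
    linarith
  refine (Complex.norm_iteratedDeriv_le_of_forall_mem_sphere_norm_le k hr
    (hg.diffContOnCl_ball (Metric.closedBall_subset_ball hR)) hs).trans (le_of_eq ?_)
  ring

theorem xhd_iter (a : ℕ → ℂ) (k n : ℕ) :
    LSeries.logMul^[k] a n = Complex.log n ^ k * a n := by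
  induction k with
  | zero => simp
  | succ k ih =>
    rw [Function.iterate_succ_apply', pow_succ']
    show Complex.log n * LSeries.logMul^[k] a n = _
    rw [ih, mul_assoc]

theorem xhd_deriv (b : ℕ → ℂ)
    (hb : ∀ s : ℂ, 1 < s.re → LSeriesSummable (fun n => b n * (Λ n : ℂ)) s) (k : ℕ) :
    iteratedDeriv k (LSeries fun n => b n * (Λ n : ℂ)) 2 =
      (-1) ^ k * ∑' n : ℕ, b n * ((Λ n * Real.log n ^ k / (n : ℝ) ^ 2 : ℝ) : ℂ) := by
  have h1 : LSeries.abscissaOfAbsConv (fun n => b n * (Λ n : ℂ)) ≤ (1 : ℝ) :=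
    LSeries.abscissaOfAbsConv_le_of_forall_lt_LSeriesSummable fun y hy => hb y (by simpa using hy)
  have h2 : LSeries.abscissaOfAbsConv (fun n => b n * (Λ n : ℂ)) < (2 : ℂ).re :=
    h1.trans_lt (EReal.coe_lt_coe_iff.2 (by norm_num))
  rw [LSeries_iteratedDeriv k h2, LSeries]
  congr 1
  refine tsum_congr fun n => ?_
  rcases Nat.eq_zero_or_pos n with rfl | hn
  · simp
  · rw [LSeries.term_of_ne_zero hn.ne', xhd_iter, ← Complex.natCast_log]
    have h3 : (n : ℂ) ^ (2 : ℂ) = (n : ℂ) ^ 2 := Complex.cpow_two _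
    rw [h3]
    push_cast
    ring

theorem xhd_two {q : ℕ} [NeZero q] (χ : DirichletCharacter ℂ q) : 1 ≤ 2 * ‖χ.LFunction 2‖ := by
  have h2 : 1 < (2 : ℂ).re := by norm_num
  have h1 := DirichletCharacter.LSeries.mul_mu_eq_one χ h2
  have h3 : ‖LSeries ((fun n : ℕ => χ n) * fun n : ℕ => (ArithmeticFunction.moebius n : ℂ)) 2‖ ≤
      Real.pi ^ 2 / 6 := by
    refine tsum_of_norm_bounded hasSum_zeta_two fun n => ?_
    rcases Nat.eq_zero_or_pos n with rfl | hn
    · simp
    · rw [LSeries.term_of_ne_zero hn.ne', Complex.cpow_two, norm_div, norm_pow,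
        Complex.norm_natCast, Pi.mul_apply, norm_mul]
      refine div_le_div_of_nonneg_right ?_ (by positivity)
      have h4 : ‖((ArithmeticFunction.moebius n : ℤ) : ℂ)‖ ≤ 1 := by
        rw [Complex.norm_intCast]
        exact_mod_cast ArithmeticFunction.abs_moebius_le_one
      exact mul_le_one₀ (χ.norm_le_one _) (norm_nonneg _) h4
  have h5 : Real.pi ^ 2 / 6 ≤ 2 := by
    have h6 := Real.pi_lt_d2
    have h7 := Real.pi_pos
    nlinarith
  have h8 := congrArg norm h1
  rw [norm_mul, norm_one] at h8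
  rw [χ.LFunction_eq_LSeries h2, ← h8, mul_comm]
  exact mul_le_mul_of_nonneg_right (h3.trans h5) (norm_nonneg _)

theorem xhd_nhds : {s : ℂ | 1 < s.re} ∈ nhds (2 : ℂ) :=
  (isOpen_lt continuous_const Complex.continuous_re).mem_nhds (by simp)

theorem sum_chi {ε : ℝ} (hε : 0 < ε) : ∃ C ρ : ℝ, 0 < C ∧ 1 < ρ ∧ ∀ (q : ℕ) [NeZero q]
    (χ : DirichletCharacter ℂ q), χ ≠ 1 → (∀ s : ℂ, ‖s - 2‖ < 1 + ε → χ.LFunction s ≠ 0) → ∀ k : ℕ,
      ‖∑' n : ℕ, χ n * ((Λ n * Real.log n ^ k / (n : ℝ) ^ 2 : ℝ) : ℂ)‖ ≤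
        C * (Real.log q + 1) * k.factorial / ρ ^ k := by
  have he : 0 < min ε (1 / 3) := lt_min hε (by norm_num)
  have he1 : min ε (1 / 3) ≤ ε := min_le_left _ _
  have he2 : min ε (1 / 3) ≤ 1 / 3 := min_le_right _ _
  obtain ⟨C, hC, H⟩ := logderiv_bound (r := 1 + min ε (1 / 3) / 2) (R := 1 + min ε (1 / 3))
    (by linarith) (by linarith)
  refine ⟨C * 10, 1 + min ε (1 / 3) / 2, by linarith, by linarith, ?_⟩
  intro q _ χ hχ hz k
  have hq : (1 : ℝ) ≤ q := by exact_mod_cast Nat.pos_of_ne_zero (NeZero.ne q)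
  have h1 := H χ.LFunction 2 (10 * q) (χ.differentiable_LFunction hχ).differentiableOn
    (fun s hs => hz s (by linarith [mem_ball_iff_norm.1 hs])) (by linarith)
    (fun s hs => by
      have h2 := L_ball hχ (s := s) (Metric.ball_subset_closedBall
        (Metric.ball_subset_ball (by linarith) hs))
      have h3 := mul_le_mul_of_nonneg_left (xhd_two χ) (show (0 : ℝ) ≤ 5 * q by linarith)
      linarith) k
  have h2 : (fun z => deriv χ.LFunction z / χ.LFunction z) =ᶠ[nhds 2]
      fun z => -LSeries (fun n : ℕ => χ n * (Λ n : ℂ)) z := by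
    filter_upwards [xhd_nhds] with s hs
    have h3 : χ.LFunction =ᶠ[nhds s] LSeries fun n : ℕ => χ n := by
      filter_upwards [(isOpen_lt continuous_const Complex.continuous_re).mem_nhds hs] with w hw
      exact χ.LFunction_eq_LSeries hw
    have h4 : LSeries (fun n : ℕ => χ n * (Λ n : ℂ)) s = _ :=
      χ.LSeries_twist_vonMangoldt_eq hs
    rw [h4, h3.deriv_eq, χ.LFunction_eq_LSeries hs, neg_div, neg_neg]
  rw [h2.iteratedDeriv_eq, iteratedDeriv_fun_neg, norm_neg,
    xhd_deriv (fun n : ℕ => χ n) (fun s hs => χ.LSeriesSummable_twist_vonMangoldt hs) k,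
    norm_mul, norm_pow, norm_neg, norm_one, one_pow, one_mul] at h1
  refine h1.trans (div_le_div_of_nonneg_right
    (mul_le_mul_of_nonneg_right ?_ (Nat.cast_nonneg _)) (by positivity))
  rw [mul_assoc]
  refine mul_le_mul_of_nonneg_left ?_ hC.le
  have h5 : Real.log 10 ≤ 10 - 1 := Real.log_le_sub_one_of_pos (by norm_num)
  have h6 := Real.log_nonneg hq
  rw [Real.log_mul (by norm_num) (by linarith)]
  linarith

theorem xhd_ball : ∃ δ : ℝ, 0 < δ ∧ ∀ z ∈ Metric.ball (2 : ℂ) (δ + 1), riemannZeta₁ z ≠ 0 := by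
  have h1 : IsOpen {z : ℂ | riemannZeta₁ z ≠ 0} :=
    isOpen_ne_fun differentiable_riemannZeta₁.continuous continuous_const
  have h2 : Metric.closedBall (2 : ℂ) 1 ⊆ {z : ℂ | riemannZeta₁ z ≠ 0} := by
    intro s hs
    have h3 := abs_le.1 ((Complex.abs_re_le_norm (s - 2)).trans (mem_closedBall_iff_norm.1 hs))
    have h4 : (s - 2).re = s.re - 2 := by simp
    rcases eq_or_ne s 1 with rfl | h5
    · simp
    · intro h6
      refine riemannZeta_ne_zero_of_one_le_re (s := s) (by linarith [h3.1]) ?_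
      rw [riemannZeta_eq_inv_sub_mul h5, h6, mul_zero]
  obtain ⟨δ, hδ, h7⟩ := (isCompact_closedBall (2 : ℂ) 1).exists_thickening_subset_open h1 h2
  rw [thickening_closedBall hδ zero_le_one] at h7
  exact ⟨δ, hδ, fun z hz => h7 hz⟩

theorem xhd_split {s : ℂ} (hs : 1 < s.re) :
    LSeries (fun n : ℕ => (1 : ℂ) * (Λ n : ℂ)) s =
      (1 * s - 1)⁻¹ - deriv riemannZeta₁ s / riemannZeta₁ s := by
  have h1 : s ≠ 1 := by
    rintro rfl
    simp at hs
  have h2 : s - 1 ≠ 0 := sub_ne_zero.2 h1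
  have h3 := riemannZeta_ne_zero_of_one_le_re hs.le
  have h4 : ∀ w : ℂ, w ≠ 1 → riemannZeta₁ w = (w - 1) * riemannZeta w := by
    intro w hw
    rw [riemannZeta_eq_inv_sub_mul hw, ← mul_assoc, mul_inv_cancel₀ (sub_ne_zero.2 hw), one_mul]
  have h5 : riemannZeta₁ =ᶠ[nhds s] fun w => (w - 1) * riemannZeta w := by
    filter_upwards [isOpen_ne.mem_nhds h1] with w hw
    exact h4 w hw
  have h6 : HasDerivAt (fun w => (w - 1) * riemannZeta w)
      (1 * riemannZeta s + (s - 1) * deriv riemannZeta s) s :=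
    ((hasDerivAt_id s).sub_const 1).mul (differentiableAt_riemannZeta h1).hasDerivAt
  have h7 : LSeries (fun n : ℕ => (Λ n : ℂ)) s = _ :=
    ArithmeticFunction.LSeries_vonMangoldt_eq_deriv_riemannZeta_div hs
  simp only [one_mul]
  rw [h7, h5.deriv_eq, h6.deriv, h4 s h1]
  field_simp
  ring

theorem sum_zeta : ∃ C ρ : ℝ, 0 < C ∧ 1 < ρ ∧ ∀ k : ℕ,
    |∑' n : ℕ, Λ n * Real.log n ^ k / (n : ℝ) ^ 2 - k.factorial| ≤ C * k.factorial / ρ ^ k := by
  obtain ⟨δ, hδ, h0⟩ := xhd_ball
  obtain ⟨C, hC, H⟩ := logderiv_bound (r := δ / 2 + 1) (R := δ + 1) (by linarith) (by linarith)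
  obtain ⟨B, hB⟩ := (isCompact_closedBall (2 : ℂ) (δ + 1)).exists_bound_of_continuousOn
    differentiable_riemannZeta₁.continuous.continuousOn
  have h2 : 0 < ‖riemannZeta₁ 2‖ := norm_pos_iff.2 (h0 2 (Metric.mem_ball_self (by linarith)))
  have hM : 1 ≤ max 1 (B / ‖riemannZeta₁ 2‖) := le_max_left _ _
  have hlog := Real.log_nonneg hM
  refine ⟨C * (Real.log (max 1 (B / ‖riemannZeta₁ 2‖)) + 1), δ / 2 + 1,
    mul_pos hC (by linarith), by linarith, fun k => ?_⟩
  have h1 := H riemannZeta₁ 2 _ differentiable_riemannZeta₁.differentiableOn h0 hM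
    (fun z hz => (hB z (Metric.ball_subset_closedBall hz)).trans
      ((div_le_iff₀ h2).1 (le_max_right _ _))) k
  have h3 : (LSeries fun n : ℕ => (1 : ℂ) * (Λ n : ℂ)) =ᶠ[nhds 2]
      fun s => (1 * s - 1)⁻¹ - deriv riemannZeta₁ s / riemannZeta₁ s := by
    filter_upwards [xhd_nhds] with s hs
    exact xhd_split hs
  have h4 := xhd_deriv (fun _ => 1)
    (fun s hs => by simpa using ArithmeticFunction.LSeriesSummable_vonMangoldt hs) k
  have h5 : ContDiffAt ℂ k (fun s : ℂ => (1 * s - 1)⁻¹) 2 :=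
    ((contDiffAt_const.mul contDiffAt_id).sub contDiffAt_const).inv (by norm_num)
  have h6 : ContDiffAt ℂ k (fun s : ℂ => deriv riemannZeta₁ s / riemannZeta₁ s) 2 :=
    (differentiable_riemannZeta₁.deriv.contDiff.contDiffAt).div
      differentiable_riemannZeta₁.contDiff.contDiffAt (norm_pos_iff.1 h2)
  have h7 : iteratedDeriv k (fun s : ℂ => (1 * s - 1)⁻¹) 2 = (-1) ^ k * k.factorial := by
    rw [iteratedDeriv_eq_iterate, iter_deriv_inv_linear_sub]
    norm_num
  rw [h3.iteratedDeriv_eq, iteratedDeriv_fun_sub h5 h6, h7] at h4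
  simp only [one_mul] at h4
  rw [← Complex.ofReal_tsum] at h4
  have h8 : iteratedDeriv k (fun s : ℂ => deriv riemannZeta₁ s / riemannZeta₁ s) 2 =
      -((-1) ^ k * ((∑' n : ℕ, Λ n * Real.log n ^ k / (n : ℝ) ^ 2 - k.factorial : ℝ) : ℂ)) := by
    rw [Complex.ofReal_sub, mul_sub, ← h4, Complex.ofReal_natCast]
    ring
  rw [h8, norm_neg, norm_mul, norm_pow, norm_neg, norm_one, one_pow, one_mul, Complex.norm_real,
    Real.norm_eq_abs] at h1
  exact h1

end Pool.Agent.EQ
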