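import Pool.Agent.P.MP_ad7a55_nt.XHa
import Pool.Agent.P.MP_ad7a55_nt.XHd

/-! A zero-free disc gives many small split primes. -/

set_option autoImplicit false

noncomputable section

open Finset
open scoped Classical ArithmeticFunction.vonMangoldt

namespace Pool.Agent.EQ

theorem xhe_log {x l : ℝ} (hx : 1 ≤ x) (hl : 0 < l) (k : ℕ) :
    Real.log x ^ k ≤ k.factorial * (1 / l) ^ k * x ^ l := by
  have h0 := Real.log_nonneg hx
  have h1 := Real.pow_div_factorial_le_exp (Real.log x * l) (by positivity) k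
  rw [← Real.rpow_def_of_pos (by linarith), div_le_iff₀ (by positivity), mul_pow] at h1
  rw [one_div, inv_pow, mul_assoc, mul_comm _ (x ^ l), ← mul_assoc, ← div_eq_mul_inv,
    le_div_iff₀ (by positivity), mul_comm (k.factorial : ℝ)]
  exact h1

theorem xhe_term {n : ℕ} (hn : 1 ≤ n) {l : ℝ} (hl : 0 < l) (k : ℕ) :
    Λ n * Real.log n ^ k / (n : ℝ) ^ 2 ≤ k.factorial * (1 / l) ^ k * (Λ n * (n : ℝ) ^ (l - 2)) := by
  have h1 : (1 : ℝ) ≤ n := by exact_mod_cast hn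
  have h2 : (n : ℝ) ^ (l - 2) = (n : ℝ) ^ l / (n : ℝ) ^ 2 := by
    rw [Real.rpow_sub (by linarith), Real.rpow_two]
  rw [h2, mul_div_assoc, mul_left_comm, ← mul_div_assoc (_ * _)]
  exact mul_le_mul_of_nonneg_left (div_le_div_of_nonneg_right (xhe_log h1 hl k) (by positivity))
    ArithmeticFunction.vonMangoldt_nonneg

theorem xhe_s1 : Summable fun n : ℕ => Λ n * (n : ℝ) ^ (-(5 / 4) : ℝ) := by
  refine Summable.of_nonneg_of_le
    (fun n => mul_nonneg ArithmeticFunction.vonMangoldt_nonneg (by positivity)) (fun n => ?_)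
    ((Real.summable_nat_rpow.2 (show (-(9 / 8) : ℝ) < -1 by norm_num)).mul_left 8)
  have h1 := ArithmeticFunction.vonMangoldt_le_log.trans
    (Real.log_le_rpow_div (Nat.cast_nonneg n) (show (0 : ℝ) < 1 / 8 by norm_num))
  refine (mul_le_mul_of_nonneg_right h1 (by positivity)).trans (le_of_eq ?_)
  rw [show (-(9 / 8) : ℝ) = 1 / 8 + -(5 / 4) by norm_num,
    Real.rpow_add' (Nat.cast_nonneg n) (by norm_num)]
  ring

/-- The weight of the proper prime powers. -/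
def xheG (n : ℕ) : ℝ := if n.Prime then 0 else Λ n * (n : ℝ) ^ (-(3 / 4) : ℝ)

theorem xhe_G0 (n : ℕ) : 0 ≤ xheG n := by
  unfold xheG
  split_ifs
  · exact le_rfl
  · exact mul_nonneg ArithmeticFunction.vonMangoldt_nonneg (by positivity)

theorem xhe_s2 : Summable xheG := by
  have hr : (2 : ℝ) ^ (-(3 / 4) : ℝ) < 1 :=
    Real.rpow_lt_one_of_one_lt_of_neg one_lt_two (by norm_num)
  have h1 : Summable fun x : ℕ × ℕ => xheG (x.1 ^ (x.2 + 2)) := by
    refine Summable.of_nonneg_of_le (fun x => xhe_G0 _) (fun x => ?_)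
      (xhe_s1.mul_of_nonneg (summable_geometric_of_lt_one (by positivity) hr)
        (fun n => mul_nonneg ArithmeticFunction.vonMangoldt_nonneg (by positivity))
        fun n => by positivity)
    obtain ⟨a, j⟩ := x
    have b0 : 0 ≤ Λ a := ArithmeticFunction.vonMangoldt_nonneg
    unfold xheG
    split_ifs
    · positivity
    rw [ArithmeticFunction.vonMangoldt_apply_pow (by omega), mul_assoc]
    by_cases ha : Λ a = 0
    · simp [ha]
    have ha2 : (2 : ℝ) ≤ a := by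
      exact_mod_cast (ArithmeticFunction.vonMangoldt_ne_zero_iff.1 ha).two_le
    refine mul_le_mul_of_nonneg_left ?_ b0
    have e : (((a ^ (j + 2) : ℕ) : ℝ)) ^ (-(3 / 4) : ℝ)
        = (a : ℝ) ^ (-(3 / 2) : ℝ) * ((a : ℝ) ^ (-(3 / 4) : ℝ)) ^ j := by
      rw [Nat.cast_pow, ← Real.rpow_natCast, ← Real.rpow_natCast, ← Real.rpow_mul (by linarith),
        ← Real.rpow_mul (by linarith), ← Real.rpow_add (by linarith)]
      congr 1
      push_cast
      ring
    rw [e]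
    exact mul_le_mul (Real.rpow_le_rpow_of_exponent_le (by linarith) (by norm_num))
      (pow_le_pow_left₀ (by positivity)
        (Real.rpow_le_rpow_of_nonpos two_pos ha2 (by norm_num)) j) (by positivity) (by positivity)
  have h2 : ∀ n : Function.support xheG, ∃ x : ℕ × ℕ, x.1 ^ (x.2 + 2) = n := by
    rintro ⟨n, hn⟩
    have hn' : xheG n ≠ 0 := hn
    unfold xheG at hn'
    split_ifs at hn' with hp
    · exact absurd rfl hn'
    obtain ⟨p, k, h1, h2, rfl⟩ := (isPrimePow_nat_iff n).1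
      (ArithmeticFunction.vonMangoldt_ne_zero_iff.1 (left_ne_zero_of_mul hn'))
    have : k ≠ 1 := by
      rintro rfl
      exact hp (by simpa using h1)
    exact ⟨(p, k - 2), by simp only; rw [show k - 2 + 2 = k by omega]⟩
  choose σ hσ using h2
  have h3 : Function.Injective σ := fun a b h => Subtype.ext (by rw [← hσ a, h, hσ b])
  have h4 : Summable (xheG ∘ ((↑) : Function.support xheG → ℕ)) :=
    (h1.comp_injective h3).congr fun n => by simp only [Function.comp_apply, hσ]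
  obtain ⟨s, hs⟩ := h4
  exact ⟨s, (hasSum_subtype_iff_of_support_subset subset_rfl).1 hs⟩

theorem xhe_jc (D : ℤ) (n : ℕ) : jc D n = 0 ∨ jc D n = 1 ∨ jc D n = -1 := by
  unfold jc
  split_ifs
  · rcases jacobiSym.trichotomy D n with h | h | h <;> simp [h]
  · exact Or.inl rfl

theorem xhe_a0 (n k : ℕ) : 0 ≤ Λ n * Real.log n ^ k / (n : ℝ) ^ 2 :=
  div_nonneg (mul_nonneg ArithmeticFunction.vonMangoldt_nonneg
    (pow_nonneg (Real.log_natCast_nonneg n) k)) (by positivity)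

theorem xhe_sa (k : ℕ) : Summable fun n : ℕ => Λ n * Real.log n ^ k / (n : ℝ) ^ 2 := by
  refine Summable.of_nonneg_of_le (fun n => xhe_a0 n k) (fun n => ?_)
    (xhe_s1.mul_left ((k.factorial : ℝ) * (1 / (3 / 4)) ^ k))
  rcases Nat.eq_zero_or_pos n with rfl | hn
  · simp
  · have := xhe_term hn (show (0 : ℝ) < 3 / 4 by norm_num) k
    rwa [show (3 / 4 - 2 : ℝ) = -(5 / 4) by norm_num] at this

theorem xhe_big {n k : ℕ} (h : Real.exp (4 * k) ≤ n) : Λ n * Real.log n ^ k / (n : ℝ) ^ 2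
    ≤ k.factorial * ((4 / 5) ^ k * (Λ n * (n : ℝ) ^ (-(5 / 4) : ℝ))) := by
  have h0 : (0 : ℝ) < n := (Real.exp_pos _).trans_le h
  have b0 : 0 ≤ Λ n := ArithmeticFunction.vonMangoldt_nonneg
  refine (xhe_term (by exact_mod_cast h0) (show (0 : ℝ) < 1 / 2 by norm_num) k).trans ?_
  have h1 : (n : ℝ) ^ (-(1 / 4) : ℝ) ≤ Real.exp (-1) ^ k := by
    refine (Real.rpow_le_rpow_of_nonpos (Real.exp_pos _) h (by norm_num)).trans (le_of_eq ?_)
    rw [← Real.exp_mul, ← Real.exp_nat_mul]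
    congr 1
    ring
  have h2 : 1 / (1 / 2) * Real.exp (-1) ≤ 4 / 5 := by
    rw [Real.exp_neg, ← div_eq_mul_inv, div_le_iff₀ (Real.exp_pos _)]
    linarith [Real.exp_one_gt_d9]
  have h3 : (1 / (1 / 2)) ^ k * (n : ℝ) ^ (-(1 / 4) : ℝ) ≤ (4 / 5) ^ k := by
    refine (mul_le_mul_of_nonneg_left h1 (by positivity)).trans ?_
    rw [← mul_pow]
    exact pow_le_pow_left₀ (by positivity) h2 k
  rw [show (1 / 2 - 2 : ℝ) = -(1 / 4) + -(5 / 4) by norm_num, Real.rpow_add h0, mul_assoc]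
  refine mul_le_mul_of_nonneg_left (le_trans (le_of_eq ?_)
    (mul_le_mul_of_nonneg_right h3 (by positivity))) (by positivity)
  ring

theorem xhe_prime {p k : ℕ} (hp : p.Prime) (hk : 0 < k) :
    2 * (Λ p * Real.log p ^ k / (p : ℝ) ^ 2) ≤ k.factorial * (8 * k / 2 ^ k) := by
  have h1 : (1 : ℝ) ≤ p := by exact_mod_cast hp.one_le
  have h2 := xhe_log h1 two_pos (k + 1)
  have h3 : (1 : ℝ) ≤ k := by exact_mod_cast hk
  rw [ArithmeticFunction.vonMangoldt_apply_prime hp, ← pow_succ']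
  rw [Real.rpow_two, ← div_le_iff₀ (by positivity)] at h2
  refine (mul_le_mul_of_nonneg_left h2 zero_le_two).trans ?_
  have e : 2 * (((k + 1).factorial : ℝ) * (1 / 2) ^ (k + 1)) = k.factorial * ((k + 1) / 2 ^ k) := by
    rw [Nat.factorial_succ, one_div, inv_pow, pow_succ]
    push_cast
    field_simp
  rw [e]
  gcongr
  linarith

theorem xhe_omega {m : ℕ} (hm : 0 < m) : (m.primeFactors.card : ℝ) ≤ 2 * Real.log m := by
  have h1 : 2 ^ m.primeFactors.card ≤ m :=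
    (pow_card_le_prod _ (fun p => p) 2 fun p hp => (Nat.prime_of_mem_primeFactors hp).two_le).trans
      (Nat.le_of_dvd hm (Nat.prod_primeFactors_dvd m))
  have h2 : (2 : ℝ) ^ m.primeFactors.card ≤ m := by exact_mod_cast h1
  have h3 := Real.log_le_log (by positivity) h2
  rw [Real.log_pow] at h3
  nlinarith [Real.log_two_gt_d9, (Nat.cast_nonneg _ : (0 : ℝ) ≤ m.primeFactors.card)]

theorem sum_split : ∃ C : ℝ, 0 < C ∧ ∀ m k z : ℕ, 0 < m → 0 < k → Real.exp (4 * k) ≤ z →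
    ∑' n : ℕ, (1 + jc (-(m : ℤ)) n) * (Λ n * Real.log n ^ k / (n : ℝ) ^ 2) ≤
      k.factorial * (C * (4 / 5) ^ k + (nSp m z + 2 * Real.log m + 1) * (8 * k / 2 ^ k)) := by
  have hs := (xhe_s1.add xhe_s2).hasSum
  have p1 : ∀ n : ℕ, 0 ≤ Λ n * (n : ℝ) ^ (-(5 / 4) : ℝ) := fun n =>
    mul_nonneg ArithmeticFunction.vonMangoldt_nonneg (by positivity)
  have p2 : 0 ≤ ∑' n : ℕ, (Λ n * (n : ℝ) ^ (-(5 / 4) : ℝ) + xheG n) :=
    tsum_nonneg fun n => add_nonneg (p1 n) (xhe_G0 n)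
  generalize ∑' n : ℕ, (Λ n * (n : ℝ) ^ (-(5 / 4) : ℝ) + xheG n) = S at hs p2
  refine ⟨2 * S + 1, by positivity, fun m k z hm hk hz => ?_⟩
  obtain ⟨T, hT⟩ : ∃ T : Finset ℕ, T = insert 2 (((Nat.primesLE z).filter
    fun p : ℕ => jacobiSym (-(m : ℤ)) p = 1) ∪ m.primeFactors) := ⟨_, rfl⟩
  have hc : (#T : ℝ) ≤ nSp m z + 2 * Real.log m + 1 := by
    have : #T ≤ nSp m z + m.primeFactors.card + 1 := by
      rw [hT]
      exact (card_insert_le _ _).trans (Nat.add_le_add_right (card_union_le _ _) 1)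
    have h' : (#T : ℝ) ≤ nSp m z + m.primeFactors.card + 1 := by exact_mod_cast this
    linarith [xhe_omega hm]
  have h1 : HasSum (fun n : ℕ => if n ∈ T then (8 * k / 2 ^ k : ℝ) else 0)
      (#T * (8 * k / 2 ^ k)) := by
    have := hasSum_sum_of_ne_finset_zero (L := SummationFilter.unconditional ℕ)
      (f := fun n : ℕ => if n ∈ T then (8 * k / 2 ^ k : ℝ) else 0) (s := T)
      fun n hn => if_neg hn
    rwa [sum_congr rfl fun n hn => if_pos hn, sum_const, nsmul_eq_mul] at this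
  have h2 := ((hs.mul_left (2 * (4 / 5 : ℝ) ^ k)).add h1).mul_left (k.factorial : ℝ)
  have j0 : ∀ n, 0 ≤ 1 + jc (-(m : ℤ)) n ∧ 1 + jc (-(m : ℤ)) n ≤ 2 := fun n => by
    rcases xhe_jc (-(m : ℤ)) n with h | h | h <;> rw [h] <;> norm_num
  have key : ∀ n : ℕ, (1 + jc (-(m : ℤ)) n) * (Λ n * Real.log n ^ k / (n : ℝ) ^ 2)
      ≤ k.factorial * (2 * (4 / 5 : ℝ) ^ k * (Λ n * (n : ℝ) ^ (-(5 / 4) : ℝ) + xheG n)
        + if n ∈ T then (8 * k / 2 ^ k : ℝ) else 0) := fun n => by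
    have a0 := mul_le_mul_of_nonneg_right (j0 n).2 (xhe_a0 n k)
    have a1 : (0 : ℝ) ≤ if n ∈ T then (8 * k / 2 ^ k : ℝ) else 0 := by
      split_ifs <;> positivity
    have a2 := p1 n
    have a3 := xhe_G0 n
    have a4 : (0 : ℝ) ≤ (4 / 5) ^ k := by positivity
    have a5 : (0 : ℝ) ≤ k.factorial := Nat.cast_nonneg _
    by_cases hp : n.Prime
    · by_cases hn : n ≤ z
      · by_cases hnT : n ∈ T
        · rw [if_pos hnT]
          exact a0.trans ((xhe_prime hp hk).trans (mul_le_mul_of_nonneg_left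
            (le_add_of_nonneg_left (by positivity)) a5))
        · have b1 : jc (-(m : ℤ)) n = -1 := by
            rw [hT, mem_insert, mem_union, not_or, not_or] at hnT
            have hodd : Odd n := hp.odd_of_ne_two hnT.1
            have : NeZero n := ⟨hp.ne_zero⟩
            rw [jc, if_pos hodd]
            rcases jacobiSym.trichotomy (-(m : ℤ)) n with h | h | h
            · refine absurd (Nat.mem_primeFactors.2 ⟨hp, ?_, hm.ne'⟩) hnT.2.2
              have := jacobiSym.eq_zero_iff_not_coprime.1 h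
              rw [Int.neg_gcd, Int.gcd_natCast_natCast, Nat.gcd_comm] at this
              exact (Nat.Prime.dvd_iff_not_coprime hp).2 this
            · exact absurd (mem_filter.2 ⟨Nat.mem_primesLE.2 ⟨hn, hp⟩, h⟩) hnT.2.1
            · simp [h]
          rw [b1, add_neg_cancel, zero_mul]
          positivity
      · have b1 := xhe_big (n := n) (k := k) (hz.trans (by exact_mod_cast (not_le.1 hn).le))
        nlinarith [mul_nonneg a5 a1, mul_nonneg a5 (mul_nonneg a4 a3)]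
    · rcases Nat.eq_zero_or_pos n with rfl | hn
      · simp only [Nat.cast_zero, ne_eq, OfNat.ofNat_ne_zero, not_false_eq_true, zero_pow, div_zero,
          mul_zero] at a2 ⊢
        positivity
      have b1 := xhe_term hn (show (0 : ℝ) < 5 / 4 by norm_num) k
      have b2 : xheG n = Λ n * (n : ℝ) ^ (5 / 4 - 2 : ℝ) := by
        rw [xheG, if_neg hp]
        norm_num
      rw [← b2, show (1 / (5 / 4) : ℝ) = 4 / 5 by norm_num] at b1
      nlinarith [mul_nonneg a5 a1, mul_nonneg a5 (mul_nonneg a4 a2)]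
  refine (Summable.tsum_le_tsum key (Summable.of_nonneg_of_le
    (fun n => mul_nonneg (j0 n).1 (xhe_a0 n k)) key h2.summable) h2.summable).trans ?_
  rw [h2.tsum_eq]
  refine mul_le_mul_of_nonneg_left (add_le_add ?_ (mul_le_mul_of_nonneg_right hc (by positivity)))
    (Nat.cast_nonneg _)
  nlinarith [show (0 : ℝ) ≤ (4 / 5) ^ k by positivity]

theorem xhe_low {m k : ℕ} {ε C₁ C₂ ρ₁ ρ₂ : ℝ} (hm : 0 < m) (hZ : ZF ε m)
    (h1 : ∀ (q : ℕ) [NeZero q] (χ : DirichletCharacter ℂ q), χ ≠ 1 →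
      (∀ s : ℂ, ‖s - 2‖ < 1 + ε → χ.LFunction s ≠ 0) → ∀ k : ℕ,
      ‖∑' n : ℕ, χ n * ((Λ n * Real.log n ^ k / (n : ℝ) ^ 2 : ℝ) : ℂ)‖ ≤
        C₁ * (Real.log q + 1) * k.factorial / ρ₁ ^ k)
    (h2 : |∑' n : ℕ, Λ n * Real.log n ^ k / (n : ℝ) ^ 2 - k.factorial|
      ≤ C₂ * k.factorial / ρ₂ ^ k) :
    k.factorial * (1 - C₂ * (1 / ρ₂ ^ k) - C₁ * (Real.log m + 3) * (1 / ρ₁ ^ k))
      - k.factorial * (C₁ * (Real.log 4 - 2) * (1 / ρ₁ ^ k))
      ≤ ∑' n : ℕ, (1 + jc (-(m : ℤ)) n) * (Λ n * Real.log n ^ k / (n : ℝ) ^ 2) := by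
  have e0 : (-(m : ℤ)).natAbs = m := by simp
  have : NeZero (4 * (-(m : ℤ)).natAbs) := ⟨by omega⟩
  have a1 := h1 _ (sgeChi (-(m : ℤ))) (tlow_ne (by omega))
    (hZ _ _ (by rw [e0]) fun n hn => by rw [sgeChi_nat, if_pos hn]) k
  have a2 : Summable fun n : ℕ => jc (-(m : ℤ)) n * (Λ n * Real.log n ^ k / (n : ℝ) ^ 2) := by
    refine Summable.of_norm_bounded (xhe_sa k) fun n => ?_
    rw [norm_mul, Real.norm_of_nonneg (xhe_a0 n k)]
    refine mul_le_of_le_one_left (xhe_a0 n k) ?_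
    rcases xhe_jc (-(m : ℤ)) n with h | h | h <;> simp [h]
  simp only [tlow_jc, ← Complex.ofReal_mul, ← Complex.ofReal_tsum, Complex.norm_real,
    Real.norm_eq_abs] at a1
  rw [e0, Nat.cast_mul, Real.log_mul (by norm_num) (by exact_mod_cast hm.ne'), Nat.cast_ofNat] at a1
  simp only [add_mul, one_mul]
  rw [(xhe_sa k).tsum_add a2]
  refine le_trans (le_of_eq ?_) (add_le_add (le_sub_iff_add_le.1 (abs_le.1 h2).1 :
    -(C₂ * k.factorial / ρ₂ ^ k) + k.factorial ≤ _) (abs_le.1 a1).1)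
  ring

theorem xhe_k (k : ℕ) : (8 * k / 2 ^ k : ℝ) ≤ 16 * (4 / 5) ^ k := by
  have h1 := one_add_mul_le_pow (show (-2 : ℝ) ≤ 3 / 5 by norm_num) k
  have h0 : (0 : ℝ) ≤ k := Nat.cast_nonneg k
  rw [div_le_iff₀ (by positivity), mul_assoc, ← mul_pow]
  norm_num at h1 ⊢
  linarith

theorem many_of_ZF {ε : ℝ} (hε : 0 < ε) : ∃ A₀ : ℕ, ∀ A : ℕ, A₀ ≤ A → ∀ c : ℝ, 0 < c →
    {m | m ∈ EX A c ∧ ZF ε m}.Finite := by
  obtain ⟨C₁, ρ₁, hC₁, hρ₁, h1⟩ := sum_chi hε
  obtain ⟨C₂, ρ₂, hC₂, hρ₂, h2⟩ := sum_zeta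
  obtain ⟨C₃, hC₃, h3⟩ := sum_split
  obtain ⟨ρ, r0, r1, r2, r3⟩ : ∃ ρ : ℝ, 1 < ρ ∧ ρ ≤ ρ₁ ∧ ρ ≤ ρ₂ ∧ ρ ≤ 5 / 4 :=
    ⟨min ρ₁ (min ρ₂ (5 / 4)), lt_min hρ₁ (lt_min hρ₂ (by norm_num)), min_le_left _ _,
      (min_le_right _ _).trans (min_le_left _ _), (min_le_right _ _).trans (min_le_right _ _)⟩
  have l0 := Real.log_pos r0
  obtain ⟨A₀, hA₀⟩ := exists_nat_ge (4 * (2 / Real.log ρ + 1))
  refine ⟨A₀, fun A hA c hc => ?_⟩
  obtain ⟨N, hN⟩ := exists_nat_ge (Real.exp (c / ε + (C₂ + C₃ + 2 * C₁ + 67)))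
  refine (Set.finite_le_nat N).subset fun m hm => ?_
  by_contra hmN
  have m1 : N < m := not_le.1 hmN
  have m0 : 0 < m := by omega
  have m2 : c / ε + (C₂ + C₃ + 2 * C₁ + 67) < Real.log m := by
    rw [Real.lt_log_iff_exp_lt (by exact_mod_cast m0)]
    exact hN.trans_lt (by exact_mod_cast m1)
  have ce : 0 < c / ε := by positivity
  have hNZ : NoZero c (-(m : ℤ)) := fun q _ χ hq hχ β hβ hβ1 => by
    have e0 : (-(m : ℤ)).natAbs = m := by simp
    rw [e0] at hq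
    refine hm.2 q χ hq hχ β ?_
    have a1 : Real.log m ≤ Real.log q :=
      Real.log_le_log (by exact_mod_cast m0) (by exact_mod_cast (show m ≤ q by omega))
    have a2 : c / Real.log q < ε := by
      rw [div_lt_iff₀ (by linarith), ← div_lt_iff₀' hε]
      linarith
    rw [show (β : ℂ) - 2 = ((β - 2 : ℝ) : ℂ) by push_cast; ring, Complex.norm_real, Real.norm_eq_abs,
      abs_of_neg (by linarith)]
    linarith
  have hM : ¬ Many A m := fun h => hm.1.2 ⟨hNZ, h⟩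
  unfold Many at hM
  push Not at hM
  obtain ⟨t, t1, t2⟩ := hM
  have t3 : (3 : ℝ) ≤ t := by linarith
  have t4 : 1 ≤ Real.log t := by
    rw [Real.le_log_iff_exp_le (by linarith)]
    linarith [Real.exp_one_lt_d9]
  obtain ⟨k, hk⟩ : ∃ k : ℕ, k = ⌈2 / Real.log ρ * Real.log t⌉₊ := ⟨_, rfl⟩
  have k0 : 0 < k := by
    rw [hk]
    exact Nat.ceil_pos.2 (by positivity)
  have k1 : 2 / Real.log ρ * Real.log t ≤ k := by
    rw [hk]
    exact Nat.le_ceil _
  have k2 : (k : ℝ) ≤ (2 / Real.log ρ + 1) * Real.log t := by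
    have := Nat.ceil_lt_add_one (show 0 ≤ 2 / Real.log ρ * Real.log t by positivity)
    rw [← hk] at this
    linarith
  have k3 : (t : ℝ) ^ 2 ≤ ρ ^ k := by
    rw [← Real.log_le_log_iff (by positivity) (by positivity), Real.log_pow, Real.log_pow]
    rw [div_mul_eq_mul_div, div_le_iff₀ l0] at k1
    exact_mod_cast k1
  have k4 : Real.exp (4 * k) ≤ ((t ^ A : ℕ) : ℝ) := by
    rw [Nat.cast_pow, ← Real.le_log_iff_exp_le (by positivity), Real.log_pow]
    have : (A₀ : ℝ) ≤ A := by exact_mod_cast hA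
    nlinarith
  have w : ∀ σ : ℝ, ρ ≤ σ → 1 / σ ^ k ≤ 1 / (t : ℝ) ^ 2 := fun σ h =>
    one_div_le_one_div_of_le (by positivity) (k3.trans (pow_le_pow_left₀ (by linarith) h k))
  have w1 := w _ r1
  have w2 := w _ r2
  have w3 : (4 / 5 : ℝ) ^ k ≤ 1 / (t : ℝ) ^ 2 := by
    have := w _ r3
    rwa [← one_div_pow, show (1 / (5 / 4) : ℝ) = 4 / 5 by norm_num] at this
  have b1 := (xhe_low m0 hm.2 h1 (h2 k)).trans (h3 m k (t ^ A) m0 k0 k4)
  have f0 : (0 : ℝ) < k.factorial := by exact_mod_cast k.factorial_pos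
  have l4 : Real.log 4 ≤ 2 := by
    rw [show (4 : ℝ) = 2 ^ 2 by norm_num, Real.log_pow]
    push_cast
    linarith [Real.log_two_lt_d9]
  have b2 : k.factorial * (C₁ * (Real.log 4 - 2) * (1 / ρ₁ ^ k)) ≤ 0 :=
    mul_nonpos_of_nonneg_of_nonpos f0.le (mul_nonpos_of_nonpos_of_nonneg
      (mul_nonpos_of_nonneg_of_nonpos hC₁.le (by linarith)) (by positivity))
  have b3 := le_of_mul_le_mul_left ((le_sub_self_iff _).2 b2 |>.trans b1) f0
  have t5 : (nSp m (t ^ A) : ℝ) ≤ t := by exact_mod_cast t2.le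
  have c1 : C₂ * (1 / ρ₂ ^ k) ≤ C₂ * (1 / (t : ℝ) ^ 2) := mul_le_mul_of_nonneg_left w2 hC₂.le
  have c2 : C₁ * (Real.log m + 3) * (1 / ρ₁ ^ k) ≤ C₁ * (2 * t) * (1 / (t : ℝ) ^ 2) :=
    mul_le_mul (mul_le_mul_of_nonneg_left (by linarith) hC₁.le) w1 (by positivity) (by positivity)
  have c3 : C₃ * (4 / 5) ^ k ≤ C₃ * (1 / (t : ℝ) ^ 2) := mul_le_mul_of_nonneg_left w3 hC₃.le
  have c4 : (nSp m (t ^ A) + 2 * Real.log m + 1) * (8 * k / 2 ^ k : ℝ)
      ≤ 4 * t * (16 * (1 / (t : ℝ) ^ 2)) :=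
    mul_le_mul (by linarith) ((xhe_k k).trans (by linarith)) (by positivity) (by positivity)
  have c5 : 1 ≤ (C₂ + C₃ + (2 * C₁ + 64) * t) * (1 / (t : ℝ) ^ 2) := by linarith
  rw [mul_one_div, one_le_div (by positivity)] at c5
  have c6 : C₂ + C₃ + 2 * C₁ + 67 < t := by linarith
  nlinarith [mul_le_mul_of_nonneg_left t3 (add_pos hC₂ hC₃).le]

end Pool.Agent.EQ
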