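import Pool.Agent.P.MP_ad7a55_nt.XKl
import Pool.Agent.P.MP_ad7a55_nt.CtA

/-! Integral matrices of given determinant in a residue class. -/

set_option autoImplicit false

noncomputable section

open Finset
open scoped Classical

namespace Pool.Agent.EQ

theorem xkm_split (M c : ℕ) (hc : 0 < c) : ∃ c₁ c₂ : ℕ, c = c₁ * c₂ ∧ c₁.Coprime M ∧
    ∀ p : ℕ, p.Prime → p ∣ c₂ → p ∣ M := by
  induction c using Nat.recOnMul with
  | zero => exact absurd hc (lt_irrefl 0)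
  | one => exact ⟨1, 1, rfl, Nat.coprime_one_left _, fun p _ h => (h.trans (one_dvd _))⟩
  | prime p hp =>
    by_cases h : p ∣ M
    · exact ⟨1, p, (one_mul p).symm, Nat.coprime_one_left _,
        fun q hq e => ((Nat.prime_dvd_prime_iff_eq hq hp).1 e) ▸ h⟩
    · exact ⟨p, 1, (mul_one p).symm, (Nat.Prime.coprime_iff_not_dvd hp).2 h,
        fun p _ h => (h.trans (one_dvd _))⟩
  | mul a b ha hb =>
    obtain ⟨a₁, a₂, e, h1, h2⟩ := ha (Nat.pos_of_mul_pos_right hc)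
    obtain ⟨b₁, b₂, e', h1', h2'⟩ := hb (Nat.pos_of_mul_pos_left hc)
    refine ⟨a₁ * b₁, a₂ * b₂, by rw [e, e']; ring, Nat.Coprime.mul_left h1 h1', fun p hp h => ?_⟩
    exact ((Nat.Prime.dvd_mul hp).1 h).elim (h2 p hp) (h2' p hp)

theorem xkm_sq {M c : ℕ} (Z : ℕ) (hM : 0 < M) (h : ∀ p : ℕ, p.Prime → p ∣ c → p ∣ M) :
    c ≤ Z ^ 2 * M ∨ ∃ s, Z < s ∧ s ^ 2 ∣ c := by
  obtain ⟨t, s, e, ht⟩ := Nat.sq_mul_squarefree c
  rcases le_or_gt s Z with h1 | h1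
  · left
    rw [← e]
    refine Nat.mul_le_mul (Nat.pow_le_pow_left h1 2) (Nat.le_of_dvd hM ?_)
    rw [← Nat.prod_primeFactors_of_squarefree ht]
    refine Finset.prod_primes_dvd _ (fun p hp => (Nat.prime_of_mem_primeFactors hp).prime)
      fun p hp => h p (Nat.prime_of_mem_primeFactors hp) ?_
    rw [← e]
    exact (Nat.dvd_of_mem_primeFactors hp).mul_left _
  · exact Or.inr ⟨s, h1, e ▸ Dvd.intro _ rfl⟩

theorem xkm_rare (X : ℕ) {Z : ℕ} (hZ : 0 < Z) :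
    (#{c ∈ Icc (-(X : ℤ)) X | c ≠ 0 ∧ ∃ s : ℕ, Z < s ∧ s ^ 2 ∣ c.natAbs} : ℝ) ≤ 2 * X / Z := by
  have h1 : ({c ∈ Icc (-(X : ℤ)) X | c ≠ 0 ∧ ∃ s : ℕ, Z < s ∧ s ^ 2 ∣ c.natAbs} : Finset ℤ) ⊆
      (Ioc Z (max Z X)).biUnion fun s => (Icc 1 (X / s ^ 2) ×ˢ ({1, -1} : Finset ℤ)).image
        fun p => p.2 * ((s ^ 2 * p.1 : ℕ) : ℤ) := fun c hc => by
    obtain ⟨c1, c2, s, c3, k, c4⟩ := mem_filter.1 hc
    have c5 := mem_Icc.1 c1
    have c6 : c.natAbs ≤ X := by omega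
    have c7 : 0 < c.natAbs := Int.natAbs_pos.2 c2
    have hk : 0 < k := Nat.pos_of_mul_pos_left (c4 ▸ c7)
    have hs : 0 < s := by omega
    have c8 : s ≤ X := by
      refine le_trans ?_ c6
      rw [c4]
      exact (Nat.le_self_pow two_ne_zero s).trans (Nat.le_mul_of_pos_right _ hk)
    have c9 : k ∈ Icc 1 (X / s ^ 2) :=
      mem_Icc.2 ⟨hk, (Nat.le_div_iff_mul_le (pow_pos hs 2)).2 (by rw [mul_comm, ← c4]; exact c6)⟩
    refine mem_biUnion.2 ⟨s, mem_Ioc.2 ⟨c3, c8.trans (le_max_right _ _)⟩, mem_image.2 ?_⟩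
    rcases Int.natAbs_eq c with e | e
    · exact ⟨(k, 1), mem_product.2 ⟨c9, by simp⟩, by rw [← c4]; simp only; omega⟩
    · exact ⟨(k, -1), mem_product.2 ⟨c9, by simp⟩, by rw [← c4]; simp only; omega⟩
  have h2 := (Nat.cast_le (α := ℝ)).2 ((card_le_card h1).trans card_biUnion_le)
  rw [Nat.cast_sum] at h2
  refine h2.trans ((sum_le_sum (g := fun s : ℕ => 2 * (X : ℝ) * ((s : ℝ) ^ 2)⁻¹)
    fun s _ => ?_).trans ?_)
  · have h3 : #((Icc 1 (X / s ^ 2) ×ˢ ({1, -1} : Finset ℤ)).image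
        fun p => p.2 * ((s ^ 2 * p.1 : ℕ) : ℤ)) ≤ X / s ^ 2 * 2 := by
      refine card_image_le.trans ?_
      rw [card_product, Nat.card_Icc, Nat.add_sub_cancel]
      exact Nat.mul_le_mul_left _ card_le_two
    refine ((Nat.cast_le (α := ℝ)).2 h3).trans ?_
    have h4 := @Nat.cast_div_le ℝ _ _ _ X (s ^ 2)
    push_cast at h4 ⊢
    rw [div_eq_mul_inv] at h4
    linarith
  · rw [← mul_sum, div_eq_mul_inv]
    refine mul_le_mul_of_nonneg_left ((sum_Ioc_inv_sq_le_sub hZ.ne' (le_max_left _ _)).trans ?_)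
      (by positivity)
    exact sub_le_self _ (by positivity)

theorem xkm_cls (X : ℕ) (b : ℤ) {d : ℕ} (hd : 0 < d) :
    (#{x ∈ Icc (-(X : ℤ)) X | (d : ℤ) ∣ x - b} : ℝ) ≤ (2 * X + 1) / d + 1 := by
  have hd' : (0 : ℝ) < d := by exact_mod_cast hd
  have h := xkl_int (-(X : ℤ)) b (2 * X + 1) hd
  rw [show Ico (-(X : ℤ)) (-(X : ℤ) + (2 * X + 1 : ℕ)) = Icc (-(X : ℤ)) X by
    ext x; simp only [mem_Ico, mem_Icc]; push_cast; omega] at h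
  rw [div_add_one hd'.ne', le_div_iff₀ hd']
  exact_mod_cast h

theorem xkm_ap {c : ℕ} (hc : 0 < c) {W : ℕ} (hW : 0 < W) (hcW : W.Coprime c) {n : ℤ}
    (hn : IsCoprime n c) {κ : ℝ} (h0 : 0 ≤ κ)
    (hκ : 2 * (#c.divisors : ℝ) ^ 3 * (c : ℝ) ^ 3 ≤ κ ^ 4) (X : ℕ) (ρ ρ' : ℤ) :
    (#{p ∈ Icc (-(X : ℤ)) X ×ˢ Icc (-(X : ℤ)) X | (W : ℤ) ∣ p.1 - ρ ∧ (W : ℤ) ∣ p.2 - ρ' ∧
      (c : ℤ) ∣ p.1 * p.2 - n} : ℝ) ≤ 4 * ((2 * X / W + 1 : ℕ) : ℝ) ^ 2 / c +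
        #c.divisors * κ * (6 * ((2 * X / W + 1 : ℕ) : ℝ) + 3 * c) / c := by
  have : NeZero c := ⟨hc.ne'⟩
  have hW' : (0 : ℤ) < W := by exact_mod_cast hW
  obtain ⟨u, hu⟩ : IsUnit (W : ZMod c) := (ZMod.isUnit_iff_coprime W c).2 hcW
  obtain ⟨v, hv⟩ : IsUnit (n : ZMod c) := (ZMod.coe_int_isUnit_iff_isCoprime n c).2 hn.symm
  let α : ℤ → ℤ := fun r => ((((r + X) % W - X : ℤ) : ZMod c) * (u⁻¹ : (ZMod c)ˣ)).val
  have key : ∀ r a : ℤ, a ∈ Icc (-(X : ℤ)) X → (W : ℤ) ∣ a - r →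
      (a + X) / W + α r ∈ Ico (α r) (α r + (2 * X / W + 1 : ℕ)) ∧
      (((a + X) / W + α r : ℤ) : ZMod c) = (a : ZMod c) * (u⁻¹ : (ZMod c)ˣ) ∧
      a = W * ((a + X) / W) + (r + X) % W - X := fun r a ha hr => by
    have h1 := mem_Icc.1 ha
    have h2 : (a + X) % W = (r + X) % W :=
      Int.emod_eq_emod_iff_emod_sub_eq_zero.2 (Int.emod_eq_zero_of_dvd (by
        rwa [show a + X - (r + X) = a - r by ring]))
    have h3 := Int.mul_ediv_add_emod (a + X) W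
    have h4 : 0 ≤ (a + X) / W := Int.ediv_nonneg (by omega) hW'.le
    have h5 : (a + X) / W ≤ (2 * X : ℤ) / W := Int.ediv_le_ediv hW' (by omega)
    have h6 : a = W * ((a + X) / W) + (r + X) % W - X := by omega
    refine ⟨mem_Ico.2 ⟨by omega, by push_cast; omega⟩, ?_, h6⟩
    have h7 := congrArg (Int.cast : ℤ → ZMod c) h6
    simp only [α, Int.cast_add, Int.cast_natCast, ZMod.natCast_zmod_val, Int.cast_sub,
      Int.cast_mul] at h7 ⊢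
    rw [← hu] at h7
    linear_combination (-((u⁻¹ : (ZMod c)ˣ) : ZMod c)) * h7 -
      (((a + X) / W : ℤ) : ZMod c) * u.mul_inv
  refine le_trans (Nat.cast_le.2 (card_le_card_of_injOn
    (fun p => ((p.1 + X) / W + α ρ, (p.2 + X) / W + α ρ')) (fun p hp => ?_)
    fun p hp p' hp' e => ?_)) (xkl_box (v * u⁻¹ * u⁻¹) h0 hκ (α ρ) (α ρ') (2 * X / W + 1))
  · obtain ⟨p1, p2, p3, p4⟩ := mem_filter.1 (mem_coe.1 hp)
    obtain ⟨a1, a2, -⟩ := key ρ _ (mem_product.1 p1).1 p2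
    obtain ⟨b1, b2, -⟩ := key ρ' _ (mem_product.1 p1).2 p3
    refine mem_coe.2 (mem_filter.2 ⟨mem_product.2 ⟨a1, b1⟩, ?_⟩)
    have p5 := (ZMod.intCast_zmod_eq_zero_iff_dvd _ _).2 p4
    push_cast at p5
    simp only [a2, b2, Units.val_mul, hv]
    linear_combination ((u⁻¹ : (ZMod c)ˣ) : ZMod c) ^ 2 * p5
  · obtain ⟨p1, p2, p3, -⟩ := mem_filter.1 (mem_coe.1 hp)
    obtain ⟨q1, q2, q3, -⟩ := mem_filter.1 (mem_coe.1 hp')
    obtain ⟨e1, e2⟩ := Prod.mk.inj e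
    refine Prod.ext ?_ ?_
    · rw [(key ρ _ (mem_product.1 p1).1 p2).2.2, (key ρ _ (mem_product.1 q1).1 q2).2.2,
        add_right_cancel e1]
    · rw [(key ρ' _ (mem_product.1 p1).2 p3).2.2, (key ρ' _ (mem_product.1 q1).2 q3).2.2,
        add_right_cancel e2]

theorem xkm_fib {α β : Type} (S : Finset α) (T : Finset β) (f : α → β) (h : ∀ x ∈ S, f x ∈ T)
    {B : ℝ} (h0 : 0 ≤ B)
    (hB : ∀ x ∈ S, ∀ U : Finset α, (∀ y ∈ U, y ∈ S ∧ f y = f x) → (#U : ℝ) ≤ B) :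
    (#S : ℝ) ≤ #T * B := by
  rw [card_eq_sum_card_fiberwise (f := f) (t := T) fun x hx => h x hx, Nat.cast_sum,
    ← nsmul_eq_mul]
  refine sum_le_card_nsmul _ _ _ fun t _ => ?_
  rcases ({y ∈ S | f y = t} : Finset α).eq_empty_or_nonempty with e | ⟨x, hx⟩
  · rw [e, card_empty, Nat.cast_zero]; exact h0
  · exact hB x (mem_filter.1 hx).1 _ fun y hy =>
      ⟨(mem_filter.1 hy).1, (mem_filter.1 hy).2.trans (mem_filter.1 hx).2.symm⟩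

theorem xkm_good {M c₁ c₂ : ℕ} {c n : ℤ} (hM : 0 < M) (h₁ : 0 < c₁) (h₂ : 0 < c₂)
    (hc : c.natAbs = c₁ * c₂) (hcop : c₁.Coprime M) (hp : ∀ p : ℕ, p.Prime → p ∣ c₂ → p ∣ M)
    (hn : IsCoprime c n) {κ : ℝ} (h0 : 0 ≤ κ)
    (hκ : 2 * (#c₁.divisors : ℝ) ^ 3 * (c₁ : ℝ) ^ 3 ≤ κ ^ 4) (X : ℕ) (a₀ b₀ d₀ : ℤ)
    (S : Finset (ℤ × ℤ)) (hS : ∀ p ∈ S, |p.1| ≤ X ∧ |p.2| ≤ X ∧ (M : ℤ) ∣ p.1 - a₀ ∧
      (M : ℤ) ∣ p.2 - d₀ ∧ ∃ b, (M : ℤ) ∣ b - b₀ ∧ p.1 * p.2 - b * c = n) :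
    (#S : ℝ) ≤ 2 * c₂ * (4 * ((2 * X / (M * c₂) + 1 : ℕ) : ℝ) ^ 2 / c₁ +
        #c₁.divisors * κ * (6 * ((2 * X / (M * c₂) + 1 : ℕ) : ℝ) + 3 * c₁) / c₁) := by
  have hW : 0 < M * c₂ := Nat.mul_pos hM h₂
  have hW' : (0 : ℤ) < (M * c₂ : ℕ) := by exact_mod_cast hW
  have d₁ : (c₁ : ℤ) ∣ c := Int.natCast_dvd.2 (hc ▸ Dvd.intro _ rfl)
  have d₂ : (c₂ : ℤ) ∣ c := Int.natCast_dvd.2 (hc ▸ Dvd.intro_left _ rfl)
  have hcW : (M * c₂).Coprime c₁ := Nat.Coprime.mul_left hcop.symm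
    (Nat.coprime_of_dvd fun p hq e e' => hq.one_lt.ne'
      (Nat.dvd_one.1 (hcop ▸ Nat.dvd_gcd e' (hp p hq e))))
  refine (xkm_fib S ((Ico (0 : ℤ) (0 + (M * c₂ : ℕ))).filter fun r => (M : ℤ) ∣ r - a₀)
    (fun p => p.1 % (M * c₂ : ℕ)) (fun p hp => ?_) (by positivity) fun p hp U hU => ?_).trans
    (mul_le_mul_of_nonneg_right ?_ (by positivity))
  · refine mem_filter.2 ⟨mem_Ico.2 ⟨Int.emod_nonneg _ hW'.ne', ?_⟩, ?_⟩
    · rw [zero_add]; exact Int.emod_lt_of_pos _ hW'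
    · have e : (M : ℤ) ∣ p.1 - p.1 % (M * c₂ : ℕ) :=
        (Int.natCast_dvd_natCast.2 (Dvd.intro _ rfl)).trans Int.dvd_self_sub_emod
      have := dvd_sub (hS p hp).2.2.1 e
      rwa [show p.1 - a₀ - (p.1 - p.1 % (M * c₂ : ℕ)) = p.1 % (M * c₂ : ℕ) - a₀ by ring] at this
  · refine le_trans (Nat.cast_le.2 (card_le_card fun y hy => ?_))
      (xkm_ap h₁ hW hcW (hn.symm.of_isCoprime_of_dvd_right d₁) h0 hκ X p.1 p.2)
    obtain ⟨y0, y1⟩ := hU y hy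
    obtain ⟨a1, a2, -, a4, b, a5, a6⟩ := hS y y0
    obtain ⟨-, -, -, b4, b', b5, b6⟩ := hS p hp
    have e1 : ((M * c₂ : ℕ) : ℤ) ∣ y.1 - p.1 :=
      Int.dvd_of_emod_eq_zero (Int.emod_eq_emod_iff_emod_sub_eq_zero.1 y1)
    refine mem_filter.2 ⟨mem_product.2 ⟨mem_Icc.2 (abs_le.1 a1), mem_Icc.2 (abs_le.1 a2)⟩, e1, ?_,
      ⟨b * (c / c₁), by rw [mul_left_comm, Int.mul_ediv_cancel' d₁]; linear_combination a6⟩⟩
    obtain ⟨e, he⟩ := dvd_sub a4 b4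
    obtain ⟨f, hf⟩ := dvd_sub a5 b5
    obtain ⟨g, hg⟩ := e1
    obtain ⟨k, hk⟩ := d₂
    push_cast at hg ⊢
    have hM' : (M : ℤ) ≠ 0 := by exact_mod_cast hM.ne'
    have e2 : p.1 * e = c₂ * (f * k - g * y.2) := mul_left_cancel₀ hM' (by
      rw [hk] at a6 b6
      linear_combination a6 - b6 + (c₂ * k) * hf - p.1 * he - y.2 * hg)
    have e3 : IsCoprime (c₂ : ℤ) p.1 := by
      obtain ⟨u, v, huv⟩ := hn
      exact ⟨(u - v * b') * k, v * p.2, by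
        rw [← huv, ← b6, hk]; ring⟩
    obtain ⟨t, ht⟩ := e3.dvd_of_dvd_mul_left ⟨_, e2⟩
    exact ⟨t, by linear_combination he + M * ht⟩
  · have h3 := xkl_int 0 a₀ (M * c₂) hM
    have hM' : (0 : ℝ) < M := by exact_mod_cast hM
    have h4 : (1 : ℝ) ≤ c₂ := by exact_mod_cast h₂
    refine le_of_mul_le_mul_right (h3.trans ?_) hM'
    push_cast
    nlinarith

theorem xkm_row {c n a : ℤ} {X g : ℕ} {Λ : ℝ} (hΛ : 1 ≤ Λ) (hc : c ≠ 0) (hX : X ≤ Λ * |(c : ℝ)|)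
    (hg : Int.gcd a c = g) (S : Finset ℤ) (hS : ∀ d ∈ S, |d| ≤ X ∧ c ∣ a * d - n) :
    (#S : ℝ) ≤ 4 * Λ * g := by
  have hg0 : 0 < g := hg ▸ Int.gcd_pos_of_ne_zero_right a hc
  have hg1 : (1 : ℝ) ≤ g := by exact_mod_cast hg0
  rcases S.eq_empty_or_nonempty with e | ⟨d₀, hd₀⟩
  · rw [e, card_empty, Nat.cast_zero]; positivity
  obtain ⟨a', c', hco, ha, hc'⟩ := Int.exists_gcd_one (hg ▸ hg0 : 0 < Int.gcd a c)
  rw [hg] at ha hc'
  have hc0 : c' ≠ 0 := fun e => hc (by rw [hc', e, zero_mul])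
  have h1 : (1 : ℝ) ≤ c'.natAbs := by exact_mod_cast Int.natAbs_pos.2 hc0
  have h2 : |(c : ℝ)| = c'.natAbs * g := by
    rw [hc', Int.cast_mul, abs_mul, Nat.cast_natAbs, Int.cast_abs, Int.cast_natCast, Nat.abs_cast]
  refine le_trans (Nat.cast_le.2 (card_le_card fun d hd => ?_))
    ((xkm_cls X d₀ (Int.natAbs_pos.2 hc0)).trans ?_)
  · refine mem_filter.2 ⟨mem_Icc.2 (abs_le.1 (hS d hd).1), Int.natAbs_dvd.2 ?_⟩
    have e1 := dvd_sub (hS d hd).2 (hS d₀ hd₀).2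
    rw [show a * d - n - (a * d₀ - n) = a' * (d - d₀) * g by rw [ha]; ring] at e1
    nth_rewrite 1 [hc'] at e1
    exact (Int.isCoprime_iff_gcd_eq_one.2 hco).symm.dvd_of_dvd_mul_left
      ((mul_dvd_mul_iff_right (by exact_mod_cast hg0.ne')).1 e1)
  · rw [div_add_one (by linarith), div_le_iff₀ (by linarith)]
    rw [h2] at hX
    have h3 : 1 ≤ Λ * g := one_le_mul_of_one_le_of_one_le hΛ hg1
    nlinarith

theorem xkm_num {M X c₁ c₂ D Λ h τ : ℝ} (hM : 1 ≤ M) (h₁ : 1 ≤ c₁) (h₂ : 1 ≤ c₂) (hΛ : 1 ≤ Λ)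
    (hD : 0 < D) (hτ0 : 0 ≤ τ) (hτ : τ ≤ D) (hc : c₂ ≤ M ^ 7) (hX : M ^ 8 ≤ X) (hl : X ≤ Λ * (c₁ * c₂))
    (h0 : 0 ≤ h) (hh : h ≤ 2 * X / (M * c₂) + 1) :
    2 * c₂ * (4 * h ^ 2 / c₁ + τ * (X / (M ^ 9 * D)) * (6 * h + 3 * c₁) / c₁) ≤
      114 * Λ * X / M ^ 2 := by
  have hX0 : 0 < X := lt_of_lt_of_le (by positivity) hX
  have a1 : h ≤ 3 * X / (M * c₂) := by
    refine hh.trans ?_
    have : 1 ≤ X / (M * c₂) := by
      rw [le_div_iff₀ (by positivity), one_mul]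
      calc M * c₂ ≤ M * M ^ 7 := by gcongr
        _ = M ^ 8 := by ring
        _ ≤ X := hX
    rw [mul_div_assoc, mul_div_assoc]
    linarith
  have a2 : X / (c₁ * c₂) ≤ Λ := (div_le_iff₀ (by positivity)).2 hl
  have a3 : 2 * c₂ * (4 * h ^ 2 / c₁) ≤ 72 * Λ * X / M ^ 2 :=
    calc _ ≤ 2 * c₂ * (4 * (3 * X / (M * c₂)) ^ 2 / c₁) := by gcongr
      _ = 72 * (X / (c₁ * c₂)) * X / M ^ 2 := by field_simp; ring
      _ ≤ _ := by gcongr
  have a4 : (6 * h + 3 * c₁) / c₁ ≤ 21 * Λ :=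
    calc _ ≤ (6 * (3 * X / (1 * c₂)) + 3 * c₁) / c₁ := by
          gcongr
          exact a1.trans (by gcongr)
      _ = 18 * (X / (c₁ * c₂)) + 3 := by field_simp; ring
      _ ≤ _ := by linarith
  have a5 : 2 * c₂ * (τ * (X / (M ^ 9 * D)) * (6 * h + 3 * c₁) / c₁) ≤ 42 * Λ * X / M ^ 2 :=
    calc _ = 2 * c₂ * (τ * (X / (M ^ 9 * D)) * ((6 * h + 3 * c₁) / c₁)) := by ring
      _ ≤ 2 * M ^ 7 * (D * (X / (M ^ 9 * D)) * (21 * Λ)) := by gcongr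
      _ = _ := by field_simp; ring
  rw [mul_add]
  calc _ ≤ 72 * Λ * X / M ^ 2 + 42 * Λ * X / M ^ 2 := add_le_add a3 a5
    _ = _ := by ring

theorem xkm_quad {ι : Type} {M X : ℕ} {D Λ : ℝ} (hM : 0 < M) (hΛ : 1 ≤ Λ) (hD : 1 ≤ D)
    (hτ : ∀ c : ℕ, 0 < c → c ≤ X → (#c.divisors : ℝ) ≤ D) (hX : 2 * (M : ℝ) ^ 36 * D ^ 7 ≤ X)
    (T : Finset ι) (a b c d : ι → ℤ) (n a₀ b₀ c₀ d₀ : ℤ)
    (inj : ∀ i ∈ T, ∀ j ∈ T, a i = a j → b i = b j → c i = c j → d i = d j → i = j)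
    (h : ∀ i ∈ T, a i * d i - b i * c i = n ∧ |a i| ≤ X ∧ |c i| ≤ X ∧ |d i| ≤ X ∧
      (M : ℤ) ∣ a i - a₀ ∧ (M : ℤ) ∣ b i - b₀ ∧ (M : ℤ) ∣ c i - c₀ ∧ (M : ℤ) ∣ d i - d₀ ∧
      X ≤ Λ * |(c i : ℝ)| ∧ IsCoprime (c i) n) : (#T : ℝ) ≤ 480 * Λ * (X : ℝ) ^ 2 / (M : ℝ) ^ 3 := by
  have hM1 : (1 : ℝ) ≤ M := by exact_mod_cast hM
  have hX8 : (M : ℝ) ^ 8 ≤ X := by
    refine le_trans ?_ hX
    have h1 : (M : ℝ) ^ 8 ≤ (M : ℝ) ^ 36 := pow_le_pow_right₀ hM1 (by norm_num)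
    have h2 : (1 : ℝ) ≤ D ^ 7 := one_le_pow₀ hD
    have h3 : (0 : ℝ) ≤ (M : ℝ) ^ 36 := by positivity
    nlinarith
  have hX1 : (M : ℝ) ≤ X := (le_self_pow₀ hM1 (by norm_num)).trans hX8
  have hc0 : ∀ i ∈ T, c i ≠ 0 := fun i hi e => by
    have := (h i hi).2.2.2.2.2.2.2.2.1
    rw [e, Int.cast_zero, abs_zero, mul_zero] at this
    linarith
  have hin : ∀ (i : ι) (S : Finset ι), (∀ j ∈ S, j ∈ T ∧ c j = c i) →
      #(S.image fun j => (a j, d j)) = #S := fun i S hS =>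
    card_image_of_injOn fun j hj k hk e => by
      obtain ⟨e1, e2⟩ := Prod.mk.inj e
      obtain ⟨j1, j2⟩ := hS j hj
      obtain ⟨k1, k2⟩ := hS k hk
      have e3 : c j = c k := j2.trans k2.symm
      refine inj j j1 k k1 e1 (mul_right_cancel₀ (hc0 k k1) ?_) e3 e2
      have e4 := (h j j1).1
      rw [e1, e2, e3] at e4
      linear_combination (h k k1).1 - e4
  rw [← card_filter_add_card_filter_not (s := T)
    (fun i => ∃ s : ℕ, M ^ 3 < s ∧ s ^ 2 ∣ (c i).natAbs), Nat.cast_add]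
  have P1 := xkm_fib (T.filter fun i => ∃ s : ℕ, M ^ 3 < s ∧ s ^ 2 ∣ (c i).natAbs)
    {c ∈ Icc (-(X : ℤ)) X | c ≠ 0 ∧ ∃ s : ℕ, M ^ 3 < s ∧ s ^ 2 ∣ c.natAbs} c
    (fun i hi => mem_filter.2 ⟨mem_Icc.2 (abs_le.1 (h i (mem_filter.1 hi).1).2.2.1),
      hc0 i (mem_filter.1 hi).1, (mem_filter.1 hi).2⟩) (B := 3 * X * (4 * Λ)) (by positivity)
    fun i hi U hU => by
      have hi' := (mem_filter.1 hi).1
      have hU' : ∀ j ∈ U, j ∈ T ∧ c j = c i := fun j hj =>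
        ⟨(mem_filter.1 (hU j hj).1).1, (hU j hj).2⟩
      rw [← hin i U hU']
      refine (xkm_fib _ (Icc (-(X : ℤ)) X) Prod.fst (fun p hp => ?_) (B := 4 * Λ) (by positivity)
        fun p hp V hV => ?_).trans (mul_le_mul_of_nonneg_right ?_ (by positivity))
      · obtain ⟨j, hj, rfl⟩ := mem_image.1 hp
        exact mem_Icc.2 (abs_le.1 (h j (hU' j hj).1).2.1)
      · obtain ⟨j, hj, rfl⟩ := mem_image.1 hp
        have j1 := h j (hU' j hj).1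
        have j2 := (hU' j hj).2
        rw [← card_image_of_injOn (f := Prod.snd) fun y hy z hz e =>
          Prod.ext ((hV y hy).2.trans (hV z hz).2.symm) e]
        refine (xkm_row (n := n) (a := a j) (g := 1) hΛ (hc0 i hi') (h i hi').2.2.2.2.2.2.2.2.1
          (Int.isCoprime_iff_gcd_eq_one.1 ?_) _ fun y hy => ?_).trans (by simp)
        · obtain ⟨u, v, huv⟩ := j1.2.2.2.2.2.2.2.2.2
          exact ⟨v * d j, u - v * b j, by rw [← huv, ← j1.1, ← j2]; ring⟩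
        · obtain ⟨z, hz, rfl⟩ := mem_image.1 hy
          obtain ⟨k, hk, rfl⟩ := mem_image.1 (hV z hz).1
          have k1 := h k (hU' k hk).1
          have k3 : a k = a j := (hV _ hz).2
          exact ⟨k1.2.2.2.1, b k, by rw [← k3, ← (hU' k hk).2]; linear_combination k1.1⟩
      · rw [Int.card_Icc, show ((X : ℤ) + 1 - -(X : ℤ)).toNat = 2 * X + 1 by omega]
        push_cast
        linarith
  have P2 := xkm_fib (T.filter fun i => ¬ ∃ s : ℕ, M ^ 3 < s ∧ s ^ 2 ∣ (c i).natAbs)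
    {c ∈ Icc (-(X : ℤ)) X | (M : ℤ) ∣ c - c₀} c
    (fun i hi => mem_filter.2 ⟨mem_Icc.2 (abs_le.1 (h i (mem_filter.1 hi).1).2.2.1),
      (h i (mem_filter.1 hi).1).2.2.2.2.2.2.1⟩) (B := 114 * Λ * X / (M : ℝ) ^ 2) (by positivity)
    fun i hi U hU => by
      obtain ⟨hi', hr⟩ := mem_filter.1 hi
      have hU' : ∀ j ∈ U, j ∈ T ∧ c j = c i := fun j hj =>
        ⟨(mem_filter.1 (hU j hj).1).1, (hU j hj).2⟩
      rw [← hin i U hU']
      have c1 := Int.natAbs_pos.2 (hc0 i hi')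
      obtain ⟨c₁, c₂, e, hcop, hp⟩ := xkm_split M _ c1
      have h₁ : 0 < c₁ := Nat.pos_of_mul_pos_right (e ▸ c1)
      have h₂ : 0 < c₂ := Nat.pos_of_mul_pos_left (e ▸ c1)
      have c2 : c₂ ≤ (M ^ 3) ^ 2 * M := (xkm_sq (M ^ 3) hM hp).resolve_right
        fun ⟨s, s1, s2⟩ => hr ⟨s, s1, e ▸ s2.mul_left _⟩
      have c3 : c₁ ≤ X := by
        have := abs_le.1 (h i hi').2.2.1
        have : c₁ ≤ (c i).natAbs := e ▸ Nat.le_mul_of_pos_right _ h₂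
        omega
      have c4 : (c₁ : ℝ) ≤ X := by exact_mod_cast c3
      have c5 := hτ c₁ h₁ c3
      refine (xkm_good hM h₁ h₂ e hcop hp (h i hi').2.2.2.2.2.2.2.2.2
        (κ := X / ((M : ℝ) ^ 9 * D)) (by positivity) ?_ X a₀ b₀ d₀ _ fun p hp => ?_).trans
        (xkm_num hM1 (by exact_mod_cast h₁) (by exact_mod_cast h₂) hΛ (by linarith)
          (by positivity) c5 ?_ hX8 ?_ (by positivity) ?_)
      · rw [div_pow, le_div_iff₀ (by positivity)]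
        calc _ ≤ 2 * D ^ 3 * (X : ℝ) ^ 3 * ((M : ℝ) ^ 9 * D) ^ 4 := by gcongr
          _ = (2 * (M : ℝ) ^ 36 * D ^ 7) * (X : ℝ) ^ 3 := by ring
          _ ≤ X * (X : ℝ) ^ 3 := by gcongr
          _ = _ := by ring
      · obtain ⟨j, hj, rfl⟩ := mem_image.1 hp
        obtain ⟨j1, j2, -, j4, j5, j6, -, j8, -⟩ := h j (hU' j hj).1
        exact ⟨j2, j4, j5, j8, b j, j6, (hU' j hj).2 ▸ j1⟩
      · exact_mod_cast c2.trans (le_of_eq (by ring))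
      · have := (h i hi').2.2.2.2.2.2.2.2.1
        rwa [← Int.cast_abs, ← Nat.cast_natAbs, e, Nat.cast_mul] at this
      · have := @Nat.cast_div_le ℝ _ _ _ (2 * X) (M * c₂)
        push_cast at this ⊢
        linarith
  have Q1 := xkm_rare X (pow_pos hM 3)
  have Q2 : (2 * X + 1 : ℝ) / M + 1 ≤ 4 * X / M := by
    rw [div_add_one (by linarith)]
    gcongr
    linarith
  push_cast at Q1
  calc _ ≤ 2 * X / (M : ℝ) ^ 3 * (3 * X * (4 * Λ)) + 4 * X / M * (114 * Λ * X / (M : ℝ) ^ 2) :=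
        add_le_add (P1.trans (mul_le_mul_of_nonneg_right Q1 (by positivity)))
          (P2.trans (mul_le_mul_of_nonneg_right ((xkm_cls X c₀ hM).trans Q2) (by positivity)))
    _ = _ := by field_simp; ring

theorem xkm_bad {ι : Type} {l k X : ℕ} {Λ : ℝ} (hl : l.Prime) (hΛ : 1 ≤ Λ)
    (T : Finset ι) (a b c d : ι → ℤ) (n : ℤ) (hn : n.natAbs = l ^ k)
    (inj : ∀ i ∈ T, ∀ j ∈ T, a i = a j → b i = b j → c i = c j → d i = d j → i = j)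
    (h : ∀ i ∈ T, a i * d i - b i * c i = n ∧ |a i| ≤ X ∧ |c i| ≤ X ∧ |d i| ≤ X ∧ c i ≠ 0 ∧
      X ≤ Λ * |(c i : ℝ)| ∧ ¬ IsCoprime (c i) n) :
    (#T : ℝ) ≤ 128 * k * Λ * (X : ℝ) ^ 2 / l := by
  rcases T.eq_empty_or_nonempty with e | ⟨i₀, hi₀⟩
  · rw [e, card_empty, Nat.cast_zero]; positivity
  have hlc : ∀ i ∈ T, (l : ℤ) ∣ c i ∧ 0 < k := fun i hi => by
    have h1 := (h i hi).2.2.2.2.2.2
    rw [Int.isCoprime_iff_gcd_eq_one, Int.gcd, hn] at h1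
    refine ⟨Int.natCast_dvd.2 ?_, Nat.pos_of_ne_zero fun e => h1 (by simp [e])⟩
    by_contra h2
    exact h1 (((Nat.Prime.coprime_iff_not_dvd hl).2 h2).symm.pow_right k)
  have hle : ∀ i ∈ T, ∀ g : ℕ, (g : ℤ) ∣ c i → (g : ℝ) ≤ X := fun i hi g hg => by
    have h1 := Int.le_of_dvd (abs_pos.2 (h i hi).2.2.2.2.1) ((dvd_abs _ _).2 hg)
    exact_mod_cast h1.trans (h i hi).2.2.1
  have hl0 : (1 : ℝ) ≤ l := by exact_mod_cast hl.one_le
  have hk : (1 : ℝ) ≤ k := by exact_mod_cast (hlc i₀ hi₀).2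
  have hlX := hle i₀ hi₀ l (hlc i₀ hi₀).1
  have cls : ∀ g : ℕ, 0 < g → (g : ℝ) ≤ X →
      (#{x ∈ Icc (-(X : ℤ)) X | (g : ℤ) ∣ x - 0} : ℝ) ≤ 4 * X / g := fun g g0 g1 => by
    have g2 : (1 : ℝ) ≤ g := by exact_mod_cast g0
    refine (xkm_cls X 0 g0).trans ?_
    rw [div_add_one (by linarith)]
    gcongr
    linarith
  have P := xkm_fib T {x ∈ Icc (-(X : ℤ)) X | (l : ℤ) ∣ x - 0} c
    (fun i hi => mem_filter.2 ⟨mem_Icc.2 (abs_le.1 (h i hi).2.2.1), by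
      rw [sub_zero]; exact (hlc i hi).1⟩) (B := (k + 1) * (16 * Λ * X)) (by positivity)
    fun i hi U hU => by
      refine (xkm_fib U (l ^ k).divisors (fun j => Int.gcd (a j) (c i)) (fun j hj => ?_)
        (B := 16 * Λ * X) (by positivity) fun j hj V hV => ?_).trans (le_of_eq ?_)
      · refine Nat.mem_divisors.2 ⟨?_, (pow_pos hl.pos k).ne'⟩
        rw [← hn, ← Int.natCast_dvd, ← (h j (hU j hj).1).1, (hU j hj).2]
        exact dvd_sub ((Int.gcd_dvd_left _ _).mul_right _) ((Int.gcd_dvd_right _ _).mul_left _)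
      · obtain ⟨g, hg⟩ : ∃ g, Int.gcd (a j) (c i) = g := ⟨_, rfl⟩
        have g0 : 0 < g := hg ▸ Int.gcd_pos_of_ne_zero_right _ (h i hi).2.2.2.2.1
        have g1 := hle i hi g (hg ▸ Int.gcd_dvd_right _ _)
        have g2 : (0 : ℝ) < g := by exact_mod_cast g0
        refine (xkm_fib V {x ∈ Icc (-(X : ℤ)) X | (g : ℤ) ∣ x - 0} a (fun t ht => ?_)
          (B := 4 * Λ * g) (by positivity) fun t ht V' hV' => ?_).trans
          ((mul_le_mul_of_nonneg_right (cls g g0 g1) (by positivity)).trans (le_of_eq ?_))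
        · refine mem_filter.2 ⟨mem_Icc.2 (abs_le.1 (h t (hU t (hV t ht).1).1).2.1), ?_⟩
          rw [sub_zero, ← hg, ← (hV t ht).2]
          exact Int.gcd_dvd_left _ _
        · have m : ∀ y ∈ V', y ∈ T ∧ c y = c i ∧ a y = a t := fun y hy =>
            ⟨(hU y (hV y (hV' y hy).1).1).1, (hU y (hV y (hV' y hy).1).1).2, (hV' y hy).2⟩
          rw [← card_image_of_injOn (f := d) fun y hy z hz e => ?_]
          · refine xkm_row (n := n) (a := a t) hΛ (h i hi).2.2.2.2.1 (h i hi).2.2.2.2.2.1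
              ((hV t ht).2.trans hg) _ fun y hy => ?_
            obtain ⟨z, hz, rfl⟩ := mem_image.1 hy
            obtain ⟨z1, z2, z3⟩ := m z hz
            exact ⟨(h z z1).2.2.2.1, b z, by rw [← z3, ← z2]; linear_combination (h z z1).1⟩
          · obtain ⟨y1, y2, y3⟩ := m y hy
            obtain ⟨z1, z2, z3⟩ := m z hz
            refine inj y y1 z z1 (y3.trans z3.symm) (mul_right_cancel₀ (h i hi).2.2.2.2.1 ?_)
              (y2.trans z2.symm) e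
            have e1 := (h y y1).1
            have e2 := (h z z1).1
            rw [y3, y2, e] at e1
            rw [z3, z2] at e2
            linear_combination e2 - e1
        · field_simp
          ring
      · rw [Nat.divisors_prime_pow hl, card_map, card_range]
        push_cast
        ring
  calc _ ≤ 4 * X / l * ((k + 1) * (16 * Λ * X)) :=
        P.trans (mul_le_mul_of_nonneg_right (cls l hl.pos hlX) (by positivity))
    _ ≤ 4 * X / l * ((k + k) * (16 * Λ * X)) := by gcongr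
    _ = _ := by ring

end Pool.Agent.EQ
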