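import Pool.Agent.P.MP_ad7a55_nt.TLg

/-! Kernels of integral matrices modulo an integer. -/

set_option autoImplicit false

noncomputable section

open Finset Matrix
open scoped MatrixGroups Classical

namespace Pool.Agent.EQ

/-- Integral vectors. -/
abbrev V2 : Type := Fin 2 → ℤ

/-- The kernel modulo `n`. -/
def Ker (n : ℕ) (η : M2) : Set V2 := {v | ∀ i, (n : ℤ) ∣ (η *ᵥ v) i}

/-- `η` is congruent to the scalar `s`. -/
def Cg (M : ℕ) (η : M2) (s : ℤ) : Prop := ∀ i j, (M : ℤ) ∣ (η - s • (1 : M2)) i j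

/-- The matrices in Hermite normal form of determinant `d`. -/
def Hn (d : ℕ) : Finset M2 :=
  ((d.divisorsAntidiagonal ×ˢ range d).filter fun t => t.2 < t.1.2).image
    fun t => !![(t.1.1 : ℤ), (t.2 : ℤ); 0, (t.1.2 : ℤ)]

variable {n M : ℕ} {η η' ζ A A' : M2}

theorem xla_dvd_mulVec {m : ℤ} (X : M2) {v : V2} (h : ∀ i, m ∣ v i) (i : Fin 2) :
    m ∣ (X *ᵥ v) i := by
  simp only [Matrix.mulVec, dotProduct]
  exact Finset.dvd_sum fun j _ => (h j).mul_left _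

theorem xla_ex {m : ℤ} {X : M2} : (∀ i j, m ∣ X i j) ↔ ∃ Y : M2, X = m • Y := by
  constructor
  · intro h
    choose Y hY using h
    exact ⟨Matrix.of Y, by ext i j; simpa using hY i j⟩
  · rintro ⟨Y, rfl⟩ i j
    exact ⟨Y i j, rfl⟩

theorem xla_cg {s : ℤ} : Cg M η s ↔ ∃ Y : M2, η = s • (1 : M2) + (M : ℤ) • Y := by
  unfold Cg
  rw [xla_ex]
  exact exists_congr fun Y => sub_eq_iff_eq_add'

theorem xla_smul {s : ℤ} (hs : IsCoprime s n) (X : M2) (v : V2) :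
    s • v ∈ Ker n X ↔ v ∈ Ker n X := by
  unfold Ker
  simp only [Set.mem_ofPred_eq, Matrix.mulVec_smul, Pi.smul_apply, smul_eq_mul]
  exact forall_congr' fun i => ⟨fun h => hs.symm.dvd_of_dvd_mul_left h, fun h => h.mul_left _⟩

theorem xla_cancel {m : ℤ} (hm : m ≠ 0) {X Y : M2} (h : m • X = m • Y) : X = Y := by
  ext i j
  exact mul_left_cancel₀ hm (congrFun (congrFun h i) j)

theorem xla_det_adj (X : M2) : X.adjugate.det = X.det := by
  rw [Matrix.det_adjugate]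
  simp

theorem Ker_cop (h : IsCoprime ζ.det n) (η : M2) : Ker n (ζ * η) = Ker n η := by
  ext v
  constructor
  · intro hv i
    have h1 := xla_dvd_mulVec ζ.adjugate hv i
    rw [Matrix.mulVec_mulVec, ← mul_assoc, Matrix.adjugate_mul, smul_mul_assoc, one_mul,
      Matrix.smul_mulVec, Pi.smul_apply, smul_eq_mul] at h1
    exact h.symm.dvd_of_dvd_mul_left h1
  · intro hv i
    rw [← Matrix.mulVec_mulVec]
    exact xla_dvd_mulVec ζ hv i

theorem Ker_SL (n : ℕ) (γ : SL(2, ℤ)) (η : M2) : Ker n ((γ : M2) * η) = Ker n η := by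
  refine Ker_cop ?_ η
  rw [γ.det_coe]
  exact isCoprime_one_left

theorem mem_Ker_mul {v : V2} : v ∈ Ker n (η * ζ) ↔ ζ *ᵥ v ∈ Ker n η := by
  unfold Ker
  simp only [Set.mem_ofPred_eq, Matrix.mulVec_mulVec]

theorem Ker_anti {m : ℕ} (h : m ∣ n) (η : M2) : Ker n η ⊆ Ker m η := by
  intro v hv i
  exact (Int.natCast_dvd_natCast.2 h).trans (hv i)

theorem Ker_inter {a b : ℕ} (h : a.Coprime b) (η : M2) : Ker (a * b) η = Ker a η ∩ Ker b η := by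
  ext v
  constructor
  · intro hv
    exact ⟨Ker_anti (Dvd.intro _ rfl) η hv, Ker_anti (Dvd.intro_left _ rfl) η hv⟩
  · rintro ⟨h1, h2⟩ i
    rw [Nat.cast_mul]
    exact (Nat.isCoprime_iff_coprime.2 h).mul_dvd (h1 i) (h2 i)

theorem mem_Ker_prod {B : Finset ℕ} (hB : ∀ l ∈ B, l.Prime) {v : V2} :
    v ∈ Ker (∏ l ∈ B, l) η ↔ ∀ l ∈ B, v ∈ Ker l η := by
  constructor
  · intro hv l hl
    exact Ker_anti (Finset.dvd_prod_of_mem _ hl) η hv
  · intro hv i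
    rw [Nat.cast_prod]
    refine Finset.prod_dvd_of_coprime (fun a ha b hb hab => ?_) fun l hl => hv l hl i
    exact Nat.isCoprime_iff_coprime.2
      ((Nat.coprime_primes (hB a (Finset.mem_coe.1 ha)) (hB b (Finset.mem_coe.1 hb))).2 hab)

theorem mem_Ker_adj (hn : 0 < n) (h : η.det = n) {v : V2} :
    v ∈ Ker n η ↔ ∃ w, v = η.adjugate *ᵥ w := by
  have hn' : (n : ℤ) ≠ 0 := by exact_mod_cast hn.ne'
  constructor
  · intro hv
    choose w hw using hv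
    refine ⟨w, ?_⟩
    have h1 : η *ᵥ v = (n : ℤ) • w := funext fun i => hw i
    have h2 : η.adjugate *ᵥ (η *ᵥ v) = (n : ℤ) • v := by
      rw [Matrix.mulVec_mulVec, Matrix.adjugate_mul, Matrix.smul_mulVec, Matrix.one_mulVec, h]
    rw [h1, Matrix.mulVec_smul] at h2
    funext i
    exact (mul_left_cancel₀ hn' (congrFun h2 i)).symm
  · rintro ⟨w, rfl⟩ i
    rw [Matrix.mulVec_mulVec, Matrix.mul_adjugate, Matrix.smul_mulVec, Matrix.one_mulVec, h]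
    exact ⟨w i, rfl⟩

theorem exists_SL_of_Ker (hn : 0 < n) (h : η.det = n) (h' : η'.det = n)
    (hk : Ker n η ⊆ Ker n η') : ∃ γ : SL(2, ℤ), η' = (γ : M2) * η := by
  have hn' : (n : ℤ) ≠ 0 := by exact_mod_cast hn.ne'
  have h1 : ∀ i j, (n : ℤ) ∣ (η' * η.adjugate) i j := fun i j => by
    have h2 := hk ((mem_Ker_adj hn h).2 ⟨Pi.single j 1, rfl⟩) i
    rwa [Matrix.mulVec_mulVec, Matrix.mulVec_single_one] at h2
  obtain ⟨g, hg⟩ := xla_ex.1 h1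
  have h2 : g.det = 1 := by
    have h3 := congrArg Matrix.det hg
    rw [Matrix.det_mul, xla_det_adj, h, h', Matrix.det_smul, Fintype.card_fin] at h3
    apply mul_left_cancel₀ (pow_ne_zero 2 hn')
    rw [← h3]
    ring
  refine ⟨⟨g, h2⟩, xla_cancel hn' ?_⟩
  change _ = (n : ℤ) • (g * η)
  rw [← smul_mul_assoc, ← hg, mul_assoc, Matrix.adjugate_mul, h, mul_smul_comm, mul_one]

theorem Ker_com (h : η * A = A' * η) (hc : IsCoprime η.det n) (v : V2) :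
    (η *ᵥ v ∈ Ker n A' ↔ v ∈ Ker n A) ∧ (v ∈ Ker n A' ↔ η.adjugate *ᵥ v ∈ Ker n A) := by
  have h1 : ∀ v : V2, η *ᵥ v ∈ Ker n A' ↔ v ∈ Ker n A := fun v => by
    rw [← mem_Ker_mul, ← h, Ker_cop hc]
  refine ⟨h1 v, ?_⟩
  rw [← h1, Matrix.mulVec_mulVec, Matrix.mul_adjugate, Matrix.smul_mulVec, Matrix.one_mulVec,
    xla_smul hc]

theorem Ker_Cg {s : ℤ} (h : Cg n η s) (hs : IsCoprime s n) (ζ : M2) :
    Ker n (ζ * η) = Ker n ζ := by
  obtain ⟨Y, rfl⟩ := xla_cg.1 h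
  ext v
  rw [← xla_smul hs ζ v]
  unfold Ker
  simp only [Set.mem_ofPred_eq]
  refine forall_congr' fun i => ?_
  rw [mul_add, Matrix.add_mulVec, mul_smul_comm, mul_one, mul_smul_comm, Matrix.smul_mulVec,
    Matrix.smul_mulVec, Matrix.mulVec_smul, Pi.add_apply]
  exact dvd_add_left ⟨_, rfl⟩

theorem Cg.mono {M' : ℕ} {s : ℤ} (h : Cg M η s) (hM : M' ∣ M) : Cg M' η s := by
  intro i j
  exact (Int.natCast_dvd_natCast.2 hM).trans (h i j)

theorem Cg.mul {s s' : ℤ} (h : Cg M η s) (h' : Cg M η' s') : Cg M (η * η') (s * s') := by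
  obtain ⟨Y, rfl⟩ := xla_cg.1 h
  obtain ⟨Y', rfl⟩ := xla_cg.1 h'
  refine xla_cg.2 ⟨s • Y' + s' • Y + (M : ℤ) • (Y * Y'), ?_⟩
  simp only [add_mul, mul_add, smul_mul_assoc, mul_smul_comm, one_mul, mul_one]
  module

theorem Cg.conj {s : ℤ} (h : Cg M η s) (γ : SL(2, ℤ)) :
    Cg M ((γ : M2) * η * ((γ⁻¹ : SL(2, ℤ)) : M2)) s := by
  obtain ⟨Y, rfl⟩ := xla_cg.1 h
  refine xla_cg.2 ⟨(γ : M2) * Y * ((γ⁻¹ : SL(2, ℤ)) : M2), ?_⟩
  have h1 : (γ : M2) * ((γ⁻¹ : SL(2, ℤ)) : M2) = 1 := by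
    rw [← Matrix.SpecialLinearGroup.coe_mul, mul_inv_cancel, Matrix.SpecialLinearGroup.coe_one]
  simp only [add_mul, mul_add, smul_mul_assoc, mul_smul_comm, mul_one, h1]

theorem xla_cop (hM : 0 < M) {c d x y z : ℤ} (h : x * c + y * d + z * M = 1) :
    ∃ c' d' : ℤ, (M : ℤ) ∣ c' - c ∧ (M : ℤ) ∣ d' - d ∧ IsCoprime c' d' := by
  have key : ∀ c : ℤ, c ≠ 0 → ∀ z : ℤ, x * c + y * d + z * M = 1 →
      ∃ d' : ℤ, (M : ℤ) ∣ d' - d ∧ IsCoprime c d' := by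
    intro c hc z h
    let t : ℕ := ∏ p ∈ c.natAbs.primeFactors.filter (fun p : ℕ => ¬ (p : ℤ) ∣ d), p
    refine ⟨d + t * M, ⟨t, by ring⟩, isCoprime_of_prime_dvd (fun h0 => hc h0.1) ?_⟩
    intro p hp hpc hpd
    have hq : p.natAbs.Prime := Int.prime_iff_natAbs_prime.1 hp
    by_cases hd : p ∣ d
    · rcases hp.dvd_or_dvd ((dvd_add_right hd).1 hpd) with h1 | h1
      · have h2 : p.natAbs ∣ t := Int.natCast_dvd_natCast.1 (Int.natAbs_dvd.2 h1)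
        obtain ⟨q, hq1, hq2⟩ := (Prime.dvd_finsetProd_iff hq.prime _).1 h2
        rw [Finset.mem_filter] at hq1
        have h3 := (Nat.prime_dvd_prime_iff_eq hq (Nat.prime_of_mem_primeFactors hq1.1)).1 hq2
        exact hq1.2 (h3 ▸ Int.natAbs_dvd.2 hd)
      · refine hp.not_dvd_one ?_
        rw [← h]
        exact ((hpc.mul_left _).add (hd.mul_left _)).add (h1.mul_left _)
    · have h2 : p.natAbs ∣ t := Finset.dvd_prod_of_mem _ (Finset.mem_filter.2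
        ⟨Nat.mem_primeFactors.2 ⟨hq, Int.natAbs_dvd_natAbs.2 hpc, Int.natAbs_ne_zero.2 hc⟩,
          fun h3 => hd (Int.natAbs_dvd.1 h3)⟩)
      have h3 : p ∣ (t : ℤ) := Int.natAbs_dvd.1 (Int.natCast_dvd_natCast.2 h2)
      exact hd ((dvd_add_left (h3.mul_right _)).1 hpd)
  by_cases hc : c = 0
  · obtain ⟨d', h1, h2⟩ := key M (by exact_mod_cast hM.ne') (z - x) (by
      rw [hc] at h
      linear_combination h)
    exact ⟨M, d', by rw [hc, sub_zero], h1, h2⟩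
  · obtain ⟨d', h1, h2⟩ := key c hc z h
    exact ⟨c, d', by rw [sub_self]; exact dvd_zero _, h1, h2⟩

theorem exists_lift_SL (hM : 0 < M) {W : M2} (h : (M : ℤ) ∣ W.det - 1) :
    ∃ γ : SL(2, ℤ), ∀ i j, (M : ℤ) ∣ γ i j - W i j := by
  rw [Matrix.det_fin_two] at h
  obtain ⟨e, he⟩ := h
  obtain ⟨c, d, ⟨k, hk⟩, ⟨l, hl⟩, u, v, huv⟩ :=
    xla_cop hM (c := W 1 0) (d := W 1 1) (x := -W 0 1) (y := W 0 0) (z := -e)
      (by linear_combination he)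
  have hE : (M : ℤ) ∣ W 0 0 * d - W 0 1 * c - 1 :=
    ⟨e + W 0 0 * l - W 0 1 * k, by linear_combination he + W 0 0 * hl - W 0 1 * hk⟩
  refine ⟨⟨!![v + (u * (W 0 0 - v) + v * (W 0 1 + u)) * c,
    -u + (u * (W 0 0 - v) + v * (W 0 1 + u)) * d; c, d], ?_⟩, fun i j => ?_⟩
  · rw [Matrix.det_fin_two_of]
    linear_combination huv
  · fin_cases i <;> fin_cases j
    · change (M : ℤ) ∣ v + (u * (W 0 0 - v) + v * (W 0 1 + u)) * c - W 0 0
      have e1 : v + (u * (W 0 0 - v) + v * (W 0 1 + u)) * c - W 0 0 =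
          -v * (W 0 0 * d - W 0 1 * c - 1) := by linear_combination (W 0 0) * huv
      rw [e1]
      exact hE.mul_left _
    · change (M : ℤ) ∣ -u + (u * (W 0 0 - v) + v * (W 0 1 + u)) * d - W 0 1
      have e1 : -u + (u * (W 0 0 - v) + v * (W 0 1 + u)) * d - W 0 1 =
          u * (W 0 0 * d - W 0 1 * c - 1) := by linear_combination (W 0 1) * huv
      rw [e1]
      exact hE.mul_left _
    · exact ⟨k, hk⟩
    · exact ⟨l, hl⟩

theorem exists_Cg (hM : 0 < M) {s : ℤ} (hs : IsCoprime s M) (h : (M : ℤ) ∣ η.det - s ^ 2) :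
    ∃ γ : SL(2, ℤ), Cg M ((γ : M2) * η) s := by
  obtain ⟨s', z, hz⟩ := hs
  obtain ⟨e, he⟩ := h
  obtain ⟨γ, hγ⟩ := exists_lift_SL hM (W := s' • η.adjugate) (by
    rw [Matrix.det_smul, xla_det_adj, Fintype.card_fin]
    exact ⟨s' ^ 2 * e - z * (s' * s + 1), by
      linear_combination s' ^ 2 * he + (s' * s + 1) * hz⟩)
  obtain ⟨Y, hY⟩ := (xla_ex (X := (γ : M2) - s' • η.adjugate)).1 hγ
  refine ⟨γ, xla_cg.2 ⟨Y * η + (s' * e - s * z) • (1 : M2), ?_⟩⟩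
  have e1 : s' * η.det = s + M * (s' * e - s * z) := by linear_combination s' * he + s * hz
  rw [sub_eq_iff_eq_add'] at hY
  rw [hY, add_mul, smul_mul_assoc, smul_mul_assoc, Matrix.adjugate_mul, smul_smul, e1]
  module

theorem Cg.gamma {s : ℤ} (hs : IsCoprime s M) {γ : SL(2, ℤ)} (h : Cg M η s)
    (h' : Cg M ((γ : M2) * η) s) : γ ∈ CongruenceSubgroup.Gamma M := by
  obtain ⟨Y, rfl⟩ := xla_cg.1 h
  obtain ⟨Y', hY⟩ := xla_cg.1 h'
  have h1 : s • ((γ : M2) - 1) = (M : ℤ) • (Y' - (γ : M2) * Y) := by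
    rw [mul_add, mul_smul_comm, mul_smul_comm, mul_one] at hY
    rw [smul_sub, smul_sub, sub_eq_sub_iff_add_eq_add, hY, add_comm]
  have h2 : ∀ i j, (M : ℤ) ∣ ((γ : M2) - 1) i j := fun i j =>
    hs.symm.dvd_of_dvd_mul_left (xla_ex.2 ⟨_, h1⟩ i j)
  have h3 : ∀ i j, ((γ i j : ℤ) : ZMod M) = (((1 : M2) i j : ℤ) : ZMod M) := fun i j => by
    rw [← sub_eq_zero, ← Int.cast_sub, ZMod.intCast_zmod_eq_zero_iff_dvd]
    exact h2 i j
  rw [CongruenceSubgroup.Gamma_mem]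
  exact ⟨by simpa using h3 0 0, by simpa using h3 0 1, by simpa using h3 1 0,
    by simpa using h3 1 1⟩

theorem xla_mem {d : ℕ} {h : M2} : h ∈ Hn d ↔ ∃ a b e : ℕ, a * e = d ∧ d ≠ 0 ∧ b < e ∧
    h = !![(a : ℤ), (b : ℤ); 0, (e : ℤ)] := by
  unfold Hn
  simp only [Finset.mem_image, Finset.mem_filter, Finset.mem_product,
    Nat.mem_divisorsAntidiagonal, Finset.mem_range]
  constructor
  · rintro ⟨⟨⟨a, e⟩, b⟩, ⟨⟨⟨h1, h2⟩, -⟩, h3⟩, rfl⟩
    exact ⟨a, b, e, h1, h2, h3, rfl⟩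
  · rintro ⟨a, b, e, h1, h2, h3, rfl⟩
    exact ⟨((a, e), b), ⟨⟨⟨h1, h2⟩, h3.trans_le
      (Nat.le_of_dvd (Nat.pos_of_ne_zero h2) (Dvd.intro_left a h1))⟩, h3⟩, rfl⟩

theorem mem_Hn {d : ℕ} {h : M2} (hh : h ∈ Hn d) : 0 < d ∧ h.det = d := by
  obtain ⟨a, b, e, h1, h2, -, rfl⟩ := xla_mem.1 hh
  refine ⟨Nat.pos_of_ne_zero h2, ?_⟩
  rw [Matrix.det_fin_two_of, ← h1]
  push_cast
  ring

theorem card_Hn (d : ℕ) : #(Hn d) ≤ d ^ 2 := by
  unfold Hn
  refine Finset.card_image_le.trans ((Finset.card_filter_le _ _).trans ?_)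
  rw [Finset.card_product, Finset.card_range, ← Nat.map_div_right_divisors, Finset.card_map, sq]
  exact Nat.mul_le_mul_right d (Nat.card_divisors_le_self d)

theorem xla_hnf {ξ : M2} (h : 0 < ξ.det) : ∃ (γ : SL(2, ℤ)) (a d : ℕ) (b : ℤ), 0 < a ∧ 0 < d ∧
    (a * d : ℤ) = ξ.det ∧ ξ = (γ : M2) * !![(a : ℤ), b; 0, (d : ℤ)] := by
  have hdet := Matrix.det_fin_two ξ
  have hg : 0 < Int.gcd (ξ 0 0) (ξ 1 0) := by
    rw [Int.gcd_pos_iff]
    by_contra hc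
    rw [not_or, not_not, not_not] at hc
    rw [hdet, hc.1, hc.2] at h
    simp at h
  have hb := Int.gcd_eq_gcd_ab (ξ 0 0) (ξ 1 0)
  obtain ⟨p, hp⟩ := Int.gcd_dvd_left (ξ 0 0) (ξ 1 0)
  obtain ⟨r, hr⟩ := Int.gcd_dvd_right (ξ 0 0) (ξ 1 0)
  generalize Int.gcdA (ξ 0 0) (ξ 1 0) = x at hb
  generalize Int.gcdB (ξ 0 0) (ξ 1 0) = y at hb
  generalize Int.gcd (ξ 0 0) (ξ 1 0) = a at hg hb hp hr
  have ha : (0 : ℤ) < a := by exact_mod_cast hg
  have h1 : p * x + r * y = 1 := by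
    apply mul_left_cancel₀ ha.ne'
    rw [hp, hr] at hb
    linear_combination -hb
  have h2 : (a : ℤ) * (p * ξ 1 1 - r * ξ 0 1) = ξ.det := by
    rw [hdet, hp, hr]; ring
  have h3 : 0 < p * ξ 1 1 - r * ξ 0 1 := (mul_pos_iff_of_pos_left ha).1 (h2 ▸ h)
  obtain ⟨d, hd⟩ := Int.eq_ofNat_of_zero_le h3.le
  refine ⟨⟨!![p, -y; r, x], by rw [Matrix.det_fin_two_of]; linear_combination h1⟩, a, d,
    x * ξ 0 1 + y * ξ 1 1, hg, by omega, by rw [← hd, h2], ?_⟩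
  ext i j
  fin_cases i <;> fin_cases j <;> simp [Matrix.mul_apply, Fin.sum_univ_two, ← hd]
  · rw [hp]; ring
  · linear_combination (-ξ 0 1) * h1
  · rw [hr]; ring
  · linear_combination (-ξ 1 1) * h1

theorem exists_Hn (hn : 0 < n) (h : η.det = n) :
    ∃ (γ : SL(2, ℤ)), ∃ h ∈ Hn n, η = (γ : M2) * h := by
  obtain ⟨γ, a, d, b, -, hd, had, hξ⟩ := xla_hnf (ξ := η) (by rw [h]; exact_mod_cast hn)
  have hd' : (0 : ℤ) < d := by exact_mod_cast hd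
  have h3 := Int.emod_nonneg b hd'.ne'
  have h4 := Int.emod_lt_of_pos b hd'
  obtain ⟨r, hr⟩ := Int.eq_ofNat_of_zero_le h3
  let T : SL(2, ℤ) := ⟨!![1, b / d; 0, 1], by rw [Matrix.det_fin_two_of]; ring⟩
  have hT : (!![(a : ℤ), b; 0, (d : ℤ)] : M2) = (T : M2) * !![(a : ℤ), b % d; 0, (d : ℤ)] := by
    change _ = (!![1, b / d; 0, 1] : M2) * _
    have := Int.emod_add_ediv_mul b d
    ext i j
    fin_cases i <;> fin_cases j <;> simp [Matrix.mul_apply, Fin.sum_univ_two, this]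
  refine ⟨γ * T, !![(a : ℤ), (r : ℤ); 0, (d : ℤ)], xla_mem.2 ⟨a, r, d, ?_, hn.ne', ?_, rfl⟩, ?_⟩
  · rw [h] at had
    exact_mod_cast had
  · rw [hr] at h4
    exact_mod_cast h4
  · rw [Matrix.SpecialLinearGroup.coe_mul, mul_assoc, ← hr, ← hT, ← hξ]

theorem Hn_unique {h h' : M2} (hh : h ∈ Hn n) (hh' : h' ∈ Hn n) {γ : SL(2, ℤ)}
    (e : h' = (γ : M2) * h) : h' = h := by
  obtain ⟨a, b, d, h1, h2, h3, rfl⟩ := xla_mem.1 hh
  obtain ⟨a', b', d', h1', -, h3', rfl⟩ := xla_mem.1 hh'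
  have ha : (0 : ℤ) < a := by
    exact_mod_cast Nat.pos_of_ne_zero fun h0 => h2 (by rw [← h1, h0, zero_mul])
  have ha' : (0 : ℤ) < a' := by
    exact_mod_cast Nat.pos_of_ne_zero fun h0 => h2 (by rw [← h1', h0, zero_mul])
  have hdet := γ.det_coe
  rw [Matrix.det_fin_two] at hdet
  have e00 := congrFun (congrFun e 0) 0
  have e01 := congrFun (congrFun e 0) 1
  have e10 := congrFun (congrFun e 1) 0
  have e11 := congrFun (congrFun e 1) 1
  simp only [Matrix.mul_apply, Fin.sum_univ_two, Matrix.of_apply, Matrix.cons_val',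
    Matrix.cons_val_zero, Matrix.cons_val_one, Matrix.cons_val_fin_one, mul_zero,
    add_zero] at e00 e01 e10 e11
  generalize (γ : M2) 0 0 = p at *
  generalize (γ : M2) 0 1 = q at *
  generalize (γ : M2) 1 0 = r at *
  generalize (γ : M2) 1 1 = t at *
  have hr : r = 0 := (mul_eq_zero.1 e10.symm).resolve_right ha.ne'
  rw [hr, mul_zero, sub_zero] at hdet
  have hp0 : 0 < p := (mul_pos_iff_of_pos_right ha).1 (e00 ▸ ha')
  have hp : p = 1 := Int.eq_one_of_mul_eq_one_right hp0.le hdet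
  have ht : t = 1 := by rwa [hp, one_mul] at hdet
  rw [hp, one_mul] at e00 e01
  rw [hr, ht, zero_mul, zero_add, one_mul] at e11
  have k3 : (b : ℤ) < d := by exact_mod_cast h3
  have k4 : (b' : ℤ) < d' := by exact_mod_cast h3'
  have k5 : (0 : ℤ) ≤ b := Int.natCast_nonneg b
  have k6 : (0 : ℤ) ≤ b' := Int.natCast_nonneg b'
  have hq : q = 0 := by
    rcases lt_trichotomy q 0 with h0 | h0 | h0
    · nlinarith
    · exact h0
    · nlinarith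
  rw [hq, zero_mul, add_zero] at e01
  rw [e00, e01, e11]

theorem exists_fact {n₁ n₂ : ℕ} (h₁ : 0 < n₁) (h₂ : 0 < n₂) (hc : n₁.Coprime n₂)
    (h : η.det = n₁ * n₂) : ∃ ζ₁ ζ₂ : M2, ζ₁.det = n₁ ∧ ζ₂.det = n₂ ∧ η = ζ₂ * ζ₁ := by
  obtain ⟨γ, a, d, b, ha, -, had, hξ⟩ := xla_hnf (ξ := η) (by rw [h]; positivity)
  have had' : a * d = n₁ * n₂ := by
    rw [h] at had
    exact_mod_cast had
  obtain ⟨a₁, a₂, ⟨d₁, h1⟩, ⟨d₂, h2⟩, h3⟩ :=
    exists_dvd_and_dvd_of_dvd_mul (Dvd.intro d had' : a ∣ n₁ * n₂)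
  have h4 : d = d₁ * d₂ := by
    apply Nat.eq_of_mul_eq_mul_left ha
    rw [had', h1, h2, h3]
    ring
  have h5 : IsCoprime (a₂ : ℤ) (d₁ : ℤ) := Nat.isCoprime_iff_coprime.2
    (Nat.Coprime.coprime_dvd_left (Dvd.intro _ h2.symm)
      (Nat.Coprime.coprime_dvd_right (Dvd.intro_left _ h1.symm) hc.symm))
  obtain ⟨u, v, huv⟩ := h5
  refine ⟨!![(a₁ : ℤ), u * b; 0, (d₁ : ℤ)], (γ : M2) * !![(a₂ : ℤ), v * b; 0, (d₂ : ℤ)], ?_, ?_, ?_⟩
  · rw [Matrix.det_fin_two_of, h1]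
    push_cast
    ring
  · rw [Matrix.det_mul, γ.det_coe, Matrix.det_fin_two_of, h2]
    push_cast
    ring
  · rw [mul_assoc, hξ, Matrix.mul_fin_two, h3, h4]
    have e1 : ((a₁ * a₂ : ℕ) : ℤ) = a₂ * a₁ + v * b * 0 := by push_cast; ring
    have e2 : ((d₁ * d₂ : ℕ) : ℤ) = 0 * (u * b) + d₂ * d₁ := by push_cast; ring
    have e3 : (a₂ : ℤ) * (u * b) + v * b * d₁ = b := by linear_combination b * huv
    have e4 : (0 : ℤ) * a₁ + d₂ * 0 = 0 := by ring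
    rw [e1, e2, e3, e4]

theorem card_bdd (hn : 0 < n) (K : Set V2) {H : ℝ} (T : Finset M2)
    (h : ∀ η ∈ T, η.det = n ∧ Ker n η = K ∧ ∀ i j, |(η i j : ℝ)| ≤ H * Real.sqrt n) :
    (#T : ℝ) ≤ (4 * H ^ 2 + 1) ^ 4 := by
  rcases T.eq_empty_or_nonempty with rfl | ⟨η₀, h0⟩
  · rw [Finset.card_empty, Nat.cast_zero]
    positivity
  obtain ⟨d0, k0, b0⟩ := h η₀ h0
  have hn' : (0 : ℝ) < n := by exact_mod_cast hn
  have hsq : H * Real.sqrt n * (H * Real.sqrt n) = H ^ 2 * n := by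
    have := Real.mul_self_sqrt hn'.le
    linear_combination H ^ 2 * this
  let B : ℕ := ⌊2 * H ^ 2⌋₊
  have hB : (B : ℝ) ≤ 2 * H ^ 2 := Nat.floor_le (by positivity)
  let box : Finset (Fin 2 → Fin 2 → ℤ) :=
    Fintype.piFinset fun _ => Fintype.piFinset fun _ => Finset.Icc (-(B : ℤ)) B
  have hsub : T ⊆ box.image fun g => Matrix.of g * η₀ := by
    intro η hη
    obtain ⟨d1, k1, b1⟩ := h η hη
    obtain ⟨γ, hγ⟩ := exists_SL_of_Ker hn d0 d1 (by rw [k0, k1])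
    refine Finset.mem_image.2 ⟨fun i j => γ i j, ?_, hγ.symm⟩
    have h1 : η * η₀.adjugate = (n : ℤ) • (γ : M2) := by
      rw [hγ, mul_assoc, Matrix.mul_adjugate, d0, mul_smul_comm, mul_one]
    have h2 : ∀ i j, |((η₀.adjugate i j : ℤ) : ℝ)| ≤ H * Real.sqrt n := fun i j => by
      rw [Matrix.adjugate_fin_two]
      fin_cases i <;> fin_cases j
      · exact b0 1 1
      · simpa using b0 0 1
      · simpa using b0 1 0
      · exact b0 0 0
    have h3 : ∀ i k j, |(η i k : ℝ) * (η₀.adjugate k j : ℤ)| ≤ H ^ 2 * n := fun i k j => by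
      rw [abs_mul, ← hsq]
      exact mul_le_mul (b1 i k) (h2 k j) (abs_nonneg _) ((abs_nonneg _).trans (b1 i k))
    refine Fintype.mem_piFinset.2 fun i => Fintype.mem_piFinset.2 fun j => ?_
    have h4 := congrFun (congrFun h1 i) j
    rw [Matrix.mul_apply, Fin.sum_univ_two, Matrix.smul_apply, smul_eq_mul] at h4
    have h5 : (η i 0 : ℝ) * (η₀.adjugate 0 j : ℤ) + (η i 1 : ℝ) * (η₀.adjugate 1 j : ℤ) =
        n * (γ i j : ℤ) := by exact_mod_cast h4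
    have h6 : (n : ℝ) * |((γ i j : ℤ) : ℝ)| ≤ n * (2 * H ^ 2) := by
      rw [← abs_of_pos hn', ← abs_mul, ← h5, abs_of_pos hn']
      refine (abs_add_le _ _).trans ?_
      linarith [h3 i 0 j, h3 i 1 j]
    have h7 : (((γ i j).natAbs : ℕ) : ℝ) ≤ 2 * H ^ 2 := by
      rw [Nat.cast_natAbs, Int.cast_abs]
      exact le_of_mul_le_mul_left h6 hn'
    have h8 : (γ i j).natAbs ≤ B := Nat.le_floor h7
    rw [Finset.mem_Icc]
    omega
  have hc : box.card = (2 * B + 1) ^ 4 := by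
    have e : ((B : ℤ) + 1 - -(B : ℤ)).toNat = 2 * B + 1 := by omega
    simp only [box, Fintype.card_piFinset, Int.card_Icc, e, Finset.prod_const, Finset.card_univ,
      Fintype.card_fin]
    ring
  have h9 : T.card ≤ (2 * B + 1) ^ 4 :=
    hc ▸ (Finset.card_le_card hsub).trans Finset.card_image_le
  have h10 : (T.card : ℝ) ≤ (2 * B + 1) ^ 4 := by exact_mod_cast h9
  refine h10.trans (pow_le_pow_left₀ (by positivity) ?_ 4)
  linarith

theorem swap_Cg {N d : ℕ} {s : ℤ} {ρ η₁ : M2} (hn : 0 < n) (hd : 0 < d) (hζ : ζ.det = d)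
    (hρ : ρ.det = n) (h₁ : η₁.det = n) (hc : n.Coprime d) (hs : IsCoprime s (N * d : ℕ))
    (c : Cg (N * d) ρ s) (c₁ : Cg N η₁ s) (hk : ∀ v ∈ Ker n ρ, ζ *ᵥ v ∈ Ker n η₁) :
    ∃ γ ∈ CongruenceSubgroup.Gamma N, η₁ * ζ = (γ : M2) * (ζ * ρ) := by
  have hd' : (d : ℤ) ≠ 0 := by exact_mod_cast hd.ne'
  have hcz : IsCoprime (n : ℤ) (d : ℤ) := Nat.isCoprime_iff_coprime.2 hc
  rw [Nat.cast_mul] at hs
  obtain ⟨γ, hγ⟩ := exists_SL_of_Ker (n := n * d) (η := ζ * ρ) (η' := η₁ * ζ) (Nat.mul_pos hn hd)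
    (by rw [Matrix.det_mul, hζ, hρ, Nat.cast_mul, mul_comm])
    (by rw [Matrix.det_mul, hζ, h₁, Nat.cast_mul]) (by
      rw [Ker_inter hc, Ker_inter hc, Ker_cop (n := n) (by rw [hζ]; exact hcz.symm),
        Ker_Cg (c.mono (Dvd.intro_left N rfl)) hs.of_mul_right_right,
        Ker_cop (n := d) (by rw [h₁]; exact hcz)]
      exact fun v hv => ⟨mem_Ker_mul.2 (hk v hv.1), hv.2⟩)
  refine ⟨γ, ?_, hγ⟩
  obtain ⟨Y, hY⟩ := xla_cg.1 c
  have h1 : ζ * ρ = (s • (1 : M2) + (N : ℤ) • (ζ * Y * ζ.adjugate)) * ζ := by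
    rw [hY, mul_add, add_mul, smul_mul_assoc, smul_mul_assoc, mul_assoc _ ζ.adjugate,
      Matrix.adjugate_mul, hζ, Nat.cast_mul]
    simp only [mul_smul_comm, mul_one, one_mul, smul_smul]
  have h2 : η₁ = (γ : M2) * (s • (1 : M2) + (N : ℤ) • (ζ * Y * ζ.adjugate)) := by
    have h3 := congrArg (· * ζ.adjugate) hγ
    simp only [h1] at h3
    rw [mul_assoc, mul_assoc, mul_assoc, Matrix.mul_adjugate, hζ, mul_smul_comm, mul_smul_comm,
      mul_smul_comm, mul_one, mul_one] at h3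
    exact xla_cancel hd' h3
  exact Cg.gamma hs.of_mul_right_left (xla_cg.2 ⟨_, rfl⟩) (h2 ▸ c₁)

end Pool.Agent.EQ
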