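import Pool.Agent.P.MP_ad7a55_nt.XTa
import Pool.Agent.P.MP_ad7a55_nt.XDe
import Pool.Agent.P.MP_ad7a55_nt.VTc
import Pool.Agent.P.MP_ad7a55_nt.UMu

/-! Equidistribution outside the exceptional set. -/

set_option autoImplicit false

noncomputable section

open MeasureTheory Topology Filter UpperHalfPlane Finset
open scoped MatrixGroups BoundedContinuousFunction Matrix Classical

namespace Pool.Agent.EQ

variable {n N : ℕ}

theorem fin_top (hN : 0 < N) (F : IntermediateField ℚ ℂ) [FiniteDimensional ℚ F]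
    (φ : Fin n → (ℍ →ᵇ ℝ)) (hφ : ∀ k, Tc N F (φ k)) (hb : ∀ k, ‖φ k‖ ≤ 1 / 2) (A : ℕ) (L : ℝ)
    {θ : ℝ} (hθ : 0 < θ) : ∃ (m₀ : ℕ) (X₀ : ℝ), ∀ (τ : Fin n → ℍ) (D : Fin n → ℤ)
      (I : Finset (Fin n)) (d : ℤ) (ψ : (Fin n × Fn → ℂ) → ℝ),
      (∀ k, HasDisc (τ k) (D k)) → (∀ k, D k < -576) → (∀ k ∈ I, ∃ f : ℤ, D k = f ^ 2 * d) →
      Many A d.natAbs → (∀ k ∈ I, Low L (D k)) → (∃ k ∈ I, X₀ ≤ -(D k : ℝ)) →
      (∀ k ∈ I, ∀ l ∈ I, k ≠ l → ∀ g : ℕ, 0 < g → g ≤ m₀ → ¬ Ig g (jInv (τ k)) (jInv (τ l))) →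
      Oth I D ψ → (∀ z, |ψ z| ≤ 1) → ∃ J ⊆ I, J.Nonempty ∧ |avg (ON N F τ) fun z => ψ z *
        (PT N F φ I z - (∏ k ∈ J, IN N (φ k)) * PT N F φ (I \ J) z)| ≤ θ := by
  obtain ⟨e, he, hm⟩ := fin_main hN F n
  obtain ⟨a, ha⟩ := exists_setup n N e A hN he
  have key : ∀ r : Fin n, ∀ᶠ m : ℕ in atTop,
      ∀ s ∈ {s : Shp n (Fin (r + 1)) | s.N = N ∧ s.e = e}, ∀ (v : VD n) (T : ℝ) (y : ℕ)
        (ψ : (Fin n × Fn → ℂ) → ℝ), (m : ℝ) ≤ T → s.Ok v L T a m y → Oth s.I v.D ψ →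
        (∀ z, |ψ z| ≤ 1) → |avg (ON N F v.τ) fun z => ψ z *
          (PT N F φ s.I z - (∏ k ∈ s.J, IN N (φ k)) * PT N F φ (s.I \ s.J) z)| ≤ θ := by
    intro r
    have hf : {s : Shp n (Fin (r + 1)) | s.N = N ∧ s.e = e}.Finite := by
      refine Set.Finite.of_injOn (f := fun s => (s.I, s.J, s.cr, s.bs)) (Set.mapsTo_univ _ _) ?_
        Set.finite_univ
      rintro ⟨N1, e1, I1, J1, c1, b1, _, _, _⟩ ⟨rfl, rfl⟩ ⟨N2, e2, I2, J2, c2, b2, _, _, _⟩ ⟨h1, h2⟩ h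
      simp only [Prod.mk.injEq] at h h1 h2
      obtain ⟨rfl, rfl, rfl, rfl⟩ := h
      subst h1 h2
      rfl
    refine (eventually_all_finite hf).2 fun s hs => ?_
    obtain ⟨m₀, T₀, h⟩ := hm φ hφ hb _ s hs.1 hs.2 L θ a hθ
    filter_upwards [eventually_ge_atTop m₀,
      tendsto_natCast_atTop_atTop.eventually (eventually_ge_atTop T₀)] with m h1 h2 v T y ψ h3 h4
    exact h v T y ψ (h2.trans h3)
      { h4 with noi := fun k hk l hl hkl d hd hd' => h4.noi k hk l hl hkl d hd (hd'.trans h1) }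
  obtain ⟨m, hm'⟩ := (eventually_all.2 key).exists
  obtain ⟨X₀, hX⟩ := ha m
  refine ⟨m, X₀, fun τ D I d ψ h1 h2 h3 h4 h5 h6 h7 h8 h9 => ?_⟩
  obtain ⟨r, s, v, T, y, hr, g1, g2, rfl, rfl, rfl, g3, g4⟩ := hX τ D I d L m h1 h2 h3 h4 h5 h6 h7
  exact ⟨s.J, s.sub, ⟨_, s.mem 0⟩, hm' ⟨r, hr⟩ s ⟨g1, g2⟩ v T y ψ g3 g4 h8 h9⟩

variable {F : IntermediateField ℚ ℂ} {τ : ℕ → Fin n → ℍ} {D : ℕ → Fin n → ℤ}
  {φ : Fin n → (ℍ →ᵇ ℝ)} {I : Finset (Fin n)} {ψ : ℕ → (Fin n × Fn → ℂ) → ℝ}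

theorem stepX (hN : 0 < N) [FiniteDimensional ℚ F] {𝒰 : Ultrafilter ℕ} (hC : Cls 𝒰 τ D I)
    (hI : I.Nonempty) (hφ : ∀ k, Tc N F (φ k)) (hb : ∀ k, ‖φ k‖ ≤ 1 / 2)
    (ho : ∀ᶠ i in 𝒰, Oth I (D i) (ψ i)) (hψ : ∀ i z, |ψ i z| ≤ 1) {A : ℕ} {c : ℝ} (hc : 0 < c)
    (h : ∀ᶠ i in 𝒰, ∀ k ∈ I, ∃ d f : ℤ, Squarefree d ∧ D i k = f ^ 2 * d ∧ d.natAbs ∉ EX A c) :
    StepN 𝒰 N F τ φ I ψ := by
  obtain ⟨L, -, hL⟩ := low_of_noZero hc
  obtain ⟨k₀, hk₀⟩ := hI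
  have key : ∀ j : ℕ, ∃ J : Finset (Fin n), ∀ᶠ i in 𝒰, J ⊆ I ∧ J.Nonempty ∧
      |avg (ON N F (τ i)) fun z => ψ i z *
        (PT N F φ I z - (∏ k ∈ J, IN N (φ k)) * PT N F φ (I \ J) z)| ≤ 1 / ((j : ℝ) + 1) := by
    intro j
    obtain ⟨m₀, X₀, hf⟩ := fin_top hN F φ hφ hb A L (θ := 1 / ((j : ℝ) + 1)) (by positivity)
    have noi : ∀ᶠ i in 𝒰, ∀ k ∈ I, ∀ l ∈ I, ∀ g ∈ Icc 1 m₀, k ≠ l →
        ¬ Ig g (jInv (τ i k)) (jInv (τ i l)) := by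
      refine (eventually_all_finset I).2 fun k hk => (eventually_all_finset I).2 fun l hl =>
        (eventually_all_finset _).2 fun g hg => ?_
      by_cases hkl : k = l
      · exact Eventually.of_forall fun i h' => (h' hkl).elim
      · have hg' : 0 < g := (mem_Icc.1 hg).1
        filter_upwards [hC.noi k hk l hl hkl g hg'] with i hi _ h'
        exact hi (RingEquiv.refl ℂ) (h'.isog hg')
    refine Ultrafilter.eventually_exists_iff.1 ?_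
    filter_upwards [h, hC.big, hC.sq, hC.inf X₀, noi, ho] with i h1 h2 h3 h4 h5 h6
    obtain ⟨d, f, hd, e, hE⟩ := h1 k₀ hk₀
    have hneg : f ^ 2 * d < 0 := by rw [← e]; linarith [h2 k₀]
    have hf0 : f ≠ 0 := by
      rintro rfl
      simp at hneg
    have hd0 : d < 0 := by
      by_contra hn
      exact absurd hneg (not_lt.2 (mul_nonneg (sq_nonneg f) (not_lt.1 hn)))
    have hE' : NoZero c (-(d.natAbs : ℤ)) ∧ Many A d.natAbs := by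
      by_contra hn
      exact hE ⟨Int.squarefree_natAbs.2 hd, hn⟩
    rw [Int.ofNat_natAbs_of_nonpos hd0.le, neg_neg] at hE'
    have sh : ∀ k ∈ I, ∃ g : ℤ, D i k = g ^ 2 * d := fun k hk =>
      tlow_shape hd hf0 (by rw [← e]; exact h3 k₀ hk₀ k hk)
    refine hf (τ i) (D i) I d (ψ i) (hC.disc i) h2 sh hE'.2 (fun k hk => ?_) ⟨k₀, hk₀, h4 k₀ hk₀⟩
      (fun k hk l hl hkl g g1 g2 => h5 k hk l hl g (mem_Icc.2 ⟨g1, g2⟩) hkl) h6 (hψ i)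
    obtain ⟨g, hg⟩ := sh k hk
    rw [hg]
    exact hL d g hd (by rw [← hg]; linarith [h2 k]) hE'.1
  choose Jf hJ using key
  obtain ⟨J, hinf⟩ := Finite.exists_infinite_fiber Jf
  have hinf' : (Jf ⁻¹' {J}).Infinite := Set.infinite_coe_iff.1 hinf
  obtain ⟨j₀, hj₀⟩ := hinf'.nonempty
  obtain ⟨i₀, hi₀⟩ := (hJ j₀).exists
  rw [show Jf j₀ = J from hj₀] at hi₀
  refine ⟨J, hi₀.1, hi₀.2.1, Metric.tendsto_nhds.2 fun ε hε => ?_⟩
  obtain ⟨j₁, hj₁⟩ := exists_nat_one_div_lt hε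
  obtain ⟨j, hj, hlt⟩ := hinf'.exists_gt j₁
  filter_upwards [hJ j] with i hi
  rw [show Jf j = J from hj] at hi
  rw [Real.dist_eq, sub_zero]
  refine hi.2.2.trans_lt (lt_of_le_of_lt ?_ hj₁)
  have : (j₁ : ℝ) ≤ j := by exact_mod_cast hlt.le
  exact one_div_le_one_div_of_le (by positivity) (by linarith)

theorem Eqd.scale {𝓕 : Filter ℕ} {u w : ℝ} (hu : u ≠ 0) (hw : w ≠ 0)
    (h : Eqd 𝓕 N F τ (fun k => u • φ k) I fun i z => w * ψ i z) : Eqd 𝓕 N F τ φ I ψ := by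
  have h1 := h.const_mul (w * u ^ #I)⁻¹
  rw [mul_zero] at h1
  refine h1.congr fun i => ?_
  have e1 : ∀ z, PT N F (fun k => u • φ k) I z = u ^ #I * PT N F φ I z := fun z => by
    simp only [PT, BoundedContinuousFunction.coe_smul, smul_eq_mul,
      Finset.prod_mul_distrib, Finset.prod_const]
  have e2 : ∏ k ∈ I, IN N (u • φ k) = u ^ #I * ∏ k ∈ I, IN N (φ k) := by
    simp only [IN, BoundedContinuousFunction.coe_smul, smul_eq_mul, integral_const_mul,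
      Finset.prod_mul_distrib, Finset.prod_const]
  have h0 : w * u ^ #I ≠ 0 := mul_ne_zero hw (pow_ne_zero _ hu)
  simp only [avg, e1, e2]
  rw [← mul_div_assoc, Finset.mul_sum]
  congr 1
  refine Finset.sum_congr rfl fun z _ => ?_
  field_simp

theorem goodE_EX (A : ℕ) {c : ℝ} (hc : 0 < c) : GoodE (EX A c) := by
  intro n N hN F _ 𝒰 _ τ D I φ ψ hC hφ hW h
  obtain ⟨B, hB⟩ := hW.bd
  have hS : 0 ≤ ∑ k, ‖φ k‖ := Finset.sum_nonneg fun _ _ => norm_nonneg _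
  have hu : 0 < 1 / (2 * (∑ k, ‖φ k‖ + 1)) := by positivity
  have hw : 0 < 1 / (|B| + 1) := by positivity
  refine Eqd.scale hu.ne' hw.ne' (eqd_of_step fun J hJ hne => stepX hN (hC.mono hJ) hne
    (fun k => ⟨fun γ hγ t => ?_, ?_⟩) (fun k => ?_) ?_ (fun i z => ?_) (A := A) hc
    (h.mono fun i hi k hk => hi k (hJ hk)))
  · simp only [BoundedContinuousFunction.coe_smul, (hφ k).1 γ hγ t]
  · obtain ⟨K, hK, hK'⟩ := (hφ k).2
    refine ⟨K, hK, fun t ht => hK' t fun h0 => ht ?_⟩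
    simp only [BoundedContinuousFunction.coe_smul, h0, smul_zero]
  · have h1 : ‖φ k‖ ≤ ∑ k, ‖φ k‖ :=
      Finset.single_le_sum (f := fun k => ‖φ k‖) (fun _ _ => norm_nonneg _) (mem_univ k)
    rw [norm_smul, Real.norm_of_nonneg hu.le, one_div, inv_mul_le_iff₀ (by positivity)]
    linarith
  · filter_upwards [hW.oth] with i hi z z' hz
    exact congrArg (fun t => 1 / (|B| + 1) * t) (hi.mono hJ z z' hz)
  · rw [abs_mul, abs_of_pos hw, one_div, inv_mul_le_iff₀ (by positivity)]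
    linarith [hB i z, le_abs_self B]

end Pool.Agent.EQ
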