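import Pool.Agent.P.MP_ad7a55_nt.VF
import Pool.Agent.P.MP_ad7a55_nt.XTb
import Pool.Agent.P.MP_ad7a55_nt.XHc
import Pool.Agent.P.MP_ad7a55_nt.XHe

/-! Monotonicity of the exceptional set and the merged hypothesis. -/

set_option autoImplicit false

noncomputable section

open Finset
open scoped Classical

namespace Pool.Agent.EQ

theorem NoZero.anti {c c' : ℝ} {d : ℤ} (h : NoZero c d) (hc : c' ≤ c) : NoZero c' d := by
  intro q _ χ hq hχ β h1 h2
  refine h q χ hq hχ β (le_trans ?_ h1) h2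
  have h0 : 0 ≤ Real.log q := Real.log_natCast_nonneg q
  have := div_le_div_of_nonneg_right hc h0
  linarith

theorem Many.mono {A A' m : ℕ} (h : Many A m) (hA : A ≤ A') : Many A' m := by
  intro t ht
  rcases Nat.eq_zero_or_pos t with rfl | h0
  · exact Nat.zero_le _
  · exact (h t ht).trans (nSp_mono m (Nat.pow_le_pow_right h0 hA))

theorem EX_anti {A A' : ℕ} {c c' : ℝ} (hA : A ≤ A') (hc : c' ≤ c) : EX A' c' ⊆ EX A c :=
  fun _ hm => ⟨hm.1, fun h => hm.2 ⟨h.1.anti hc, h.2.mono hA⟩⟩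

theorem xz_neg {t : UpperHalfPlane} {D d f : ℤ} (hD : HasDisc t D) (e : D = f ^ 2 * d) :
    -(d.natAbs : ℤ) = d := by
  have h1 : D < 0 := hD.isD.1
  have h2 : d ≤ 0 := by
    by_contra h
    have : 0 ≤ f ^ 2 * d := mul_nonneg (sq_nonneg f) (le_of_lt (not_le.1 h))
    omega
  omega

/-- All the sufficient conditions on the field reduce to avoiding one good set. -/
theorem merge (A₀ A : ℕ) {c₀ c η : ℝ} (hc₀ : 0 < c₀) (hc : 0 < c) (hη : 0 < η) (T : Finset ℤ) :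
    ∃ (E : Set ℕ) (T' : Finset ℤ), GoodE E ∧ ∀ d : ℤ, -(d.natAbs : ℤ) = d → ∀ P : Prop,
      (d ∈ T ∨ d.natAbs ∉ EX A₀ c₀ ∨
        (∀ (N : ℕ) [NeZero N] (χ : DirichletCharacter ℂ N), N = 4 * d.natAbs →
          (∀ m : ℕ, Odd m → χ m = jacobiSym d m) →
          ∀ s : ℂ, ‖s - 2‖ < 1 + η → χ.LFunction s ≠ 0) ∨
        (NoZero c d ∧ (P ∨ ∀ t : ℕ, Real.log |(d : ℝ)| ≤ t → ∃ Q : Finset ℕ, t ≤ Q.card ∧
          ∀ p ∈ Q, p.Prime ∧ p ≤ t ^ A ∧ jacobiSym d p = 1))) →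
      d ∈ T' ∨ d.natAbs ∉ E ∨ (NoZero c d ∧ P) := by
  obtain ⟨A₁, hA₁⟩ := many_of_ZF hη
  have hm : 0 < min c₀ c := lt_min hc₀ hc
  have hfin := hA₁ (max A₁ (max A₀ A)) (le_max_left _ _) _ hm
  refine ⟨EX (max A₁ (max A₀ A)) (min c₀ c), T ∪ hfin.toFinset.image fun m : ℕ => -(m : ℤ),
    goodE_EX _ hm, fun d hd P h => ?_⟩
  rcases h with h | h | h | ⟨h, h' | h'⟩
  · exact Or.inl (mem_union_left _ h)
  · exact Or.inr (Or.inl fun hE => h (EX_anti ((le_max_left _ _).trans (le_max_right _ _))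
      (min_le_left _ _) hE))
  · by_cases hE : d.natAbs ∈ EX (max A₁ (max A₀ A)) (min c₀ c)
    · refine Or.inl (mem_union_right _ (mem_image.2 ⟨d.natAbs, ?_, hd⟩))
      refine hfin.mem_toFinset.2 ⟨hE, fun q _ χ hq hχ => h q χ hq ?_⟩
      rwa [hd] at hχ
    · exact Or.inr (Or.inl hE)
  · exact Or.inr (Or.inr ⟨h, h'⟩)
  · refine Or.inr (Or.inl fun hE => hE.2 ⟨?_, Many.mono (A := A) (fun t ht => ?_)
      ((le_max_right _ _).trans (le_max_right _ _))⟩)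
    · rw [hd]
      exact h.anti (min_le_right _ _)
    · obtain ⟨Q, hQ, hp⟩ := h' t (by rwa [← Int.cast_abs, ← Nat.cast_natAbs])
      refine hQ.trans (card_le_card fun p h => ?_)
      rw [mem_filter, Nat.mem_primesLE, hd]
      exact ⟨⟨(hp p h).2.1, (hp p h).1⟩, (hp p h).2.2⟩

end Pool.Agent.EQ
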