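import Pool.Agent.P.MP_ad7a55_nt.YUd
import Pool.Agent.P.MP_ad7a55_nt.XKe
import Pool.Agent.P.MP_ad7a55_nt.XDa

/-! Families of test functions. -/

set_option autoImplicit false

noncomputable section

open MeasureTheory Topology Filter UpperHalfPlane Finset
open scoped MatrixGroups BoundedContinuousFunction Matrix Classical

namespace Pool.Agent.EQ

/-- A matrix of determinant `q` with kernel `L` in a fixed class modulo `N`. -/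
def nu (N q : ℕ) (L : Set V2) : M2 :=
  if h : ∃ ν : M2, ν.det = q ∧ Ker q ν = L ∧ Dv N (ν - !![1, 0; 0, (q : ℤ)]) then h.choose else 1

/-- Positive determinant prime to `q₀`. -/
def Ad (q₀ : ℕ) (η : M2) : Prop := 0 < η.det ∧ IsCoprime η.det q₀

variable {κ : Type}

structure Fam (N q₀ : ℕ) (K : ℝ) (G : (κ → M2) → (ℍ →ᵇ ℝ)) : Prop where
  mul : ∀ (ζ : κ → M2) (η : M2), (∀ k, Ad q₀ (ζ k)) → Ad q₀ η → ∀ z,
    G (fun k => ζ k * η) z = G ζ (act η z)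
  inv : ∀ (ζ : κ → M2) (δ : κ → SL(2, ℤ)), (∀ k, Ad q₀ (ζ k)) →
    (∀ k, δ k ∈ CongruenceSubgroup.Gamma N) → G (fun k => (δ k : M2) * ζ k) = G ζ
  bd : ∀ ζ z, |G ζ z| ≤ 1 / 2
  lip : ∀ ζ, Lip K (G ζ)

/-- One step in the direction `ξ`. -/
def up (N q : ℕ) (ζ : κ → M2) (ξ : Set V2) : κ → M2 := fun k => nu N q (img (ζ k) ξ) * ζ k

/-- The mean over the directions at `q`. -/
def Tq (N q : ℕ) (G : (κ → M2) → (ℍ →ᵇ ℝ)) (ζ : κ → M2) : ℍ →ᵇ ℝ :=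
  mnB (Xn q) fun ξ => G (up N q ζ ξ)

/-- Half the square of the distance from `I`. -/
def sqF (G : (κ → M2) → (ℍ →ᵇ ℝ)) (I : ℝ) (ζ : κ → M2) : ℍ →ᵇ ℝ :=
  (1 / 2 : ℝ) • ((G ζ - BoundedContinuousFunction.const ℍ I) *
    (G ζ - BoundedContinuousFunction.const ℍ I))

/-- The product family. -/
def prF [Fintype κ] (φ : κ → (ℍ →ᵇ ℝ)) (ζ : κ → M2) : ℍ →ᵇ ℝ := ∏ k, cact (φ k) (ζ k)

/-- No relation of degree at most `m`. -/
def NRel (m : ℕ) (ζ : κ → M2) : Prop := ∀ k l, k ≠ l → ¬ Rel m (ζ k) (ζ l)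

variable {N q q₀ M : ℕ} {K : ℝ} {G : (κ → M2) → (ℍ →ᵇ ℝ)} {ζ : κ → M2} {ξ : Set V2}

theorem yaa_gamma {γ : SL(2, ℤ)} : γ ∈ CongruenceSubgroup.Gamma N ↔ Dv N ((γ : M2) - 1) := by
  constructor
  · intro h i j
    rw [CongruenceSubgroup.Gamma_mem] at h
    obtain ⟨h0, h1, h2, h3⟩ := h
    rw [← ZMod.intCast_zmod_eq_zero_iff_dvd, Matrix.sub_apply, Int.cast_sub, sub_eq_zero]
    fin_cases i <;> fin_cases j
    · simpa using h0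
    · simpa using h1
    · simpa using h2
    · simpa using h3
  · intro h2
    have h3 : ∀ i j, ((γ i j : ℤ) : ZMod N) = (((1 : M2) i j : ℤ) : ZMod N) := fun i j => by
      rw [← sub_eq_zero, ← Int.cast_sub, ZMod.intCast_zmod_eq_zero_iff_dvd]
      exact h2 i j
    rw [CongruenceSubgroup.Gamma_mem]
    exact ⟨by simpa using h3 0 0, by simpa using h3 0 1, by simpa using h3 1 0,
      by simpa using h3 1 1⟩

theorem yaa_mono {γ : SL(2, ℤ)} (h : N ∣ M) (hγ : γ ∈ CongruenceSubgroup.Gamma M) :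
    γ ∈ CongruenceSubgroup.Gamma N :=
  yaa_gamma.2 fun i j => (Int.natCast_dvd_natCast.2 h).trans (yaa_gamma.1 hγ i j)

theorem yaa_dv_right {X D : M2} {γ : SL(2, ℤ)} (h : Dv N (X - D))
    (hγ : γ ∈ CongruenceSubgroup.Gamma N) : Dv N (X * (γ : M2) - D) := by
  obtain ⟨Y, hY⟩ := xla_ex.1 h
  obtain ⟨Z, hZ⟩ := xla_ex.1 (yaa_gamma.1 hγ)
  refine xla_ex.2 ⟨X * Z + Y, ?_⟩
  rw [smul_add, ← hY, ← mul_smul_comm, ← hZ, mul_sub, mul_one]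
  abel

theorem yaa_cop (hq : q.Prime) (hc : ¬ q ∣ N) : IsCoprime (q : ℤ) (N : ℤ) :=
  Nat.isCoprime_iff_coprime.2 ((Nat.Prime.coprime_iff_not_dvd hq).2 hc)

theorem yaa_SL (γ : SL(2, ℤ)) (n : ℕ) : IsCoprime (γ : M2).det (n : ℤ) := by
  rw [γ.det_coe]
  exact isCoprime_one_left

theorem yaa_Ad_SL (γ : SL(2, ℤ)) (n : ℕ) : Ad n (γ : M2) :=
  ⟨by rw [γ.det_coe]; exact one_pos, yaa_SL γ n⟩

theorem yaa_Ad_left {η : M2} (h : Ad (q₀ * q) η) : Ad q₀ η :=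
  ⟨h.1, by have := h.2; rw [Nat.cast_mul] at this; exact this.of_mul_right_left⟩

theorem yaa_Ad_right {η : M2} (h : Ad (q₀ * q) η) : Ad q η :=
  ⟨h.1, by have := h.2; rw [Nat.cast_mul] at this; exact this.of_mul_right_right⟩

theorem yaa_detD : (!![1, 0; 0, (q : ℤ)] : M2).det = q := by
  rw [Matrix.det_fin_two_of]
  ring

theorem yaa_lift (hN : 0 < N) (hq : q.Prime) (hc : ¬ q ∣ N) {A B : M2} (h : (A * B).det = q * q) :
    ∃ (γ : SL(2, ℤ)) (u v : ℤ) (Y : M2), u * q + v * N = 1 ∧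
      (γ : M2) = u • (A * B) + (N : ℤ) • Y := by
  obtain ⟨u, v, e⟩ := yaa_cop hq hc
  obtain ⟨γ, hγ⟩ := exists_lift_SL hN (W := u • (A * B)) (by
    rw [Matrix.det_smul, h, Fintype.card_fin]
    exact ⟨-v * (u * q + 1), by linear_combination (u * q + 1) * e⟩)
  obtain ⟨Y, hY⟩ := (xla_ex (m := (N : ℤ)) (X := (γ : M2) - u • (A * B))).1 hγ
  exact ⟨γ, u, v, Y, e, by rw [← hY]; abel⟩

theorem nu_spec (hN : 0 < N) (hq : q.Prime) (hc : ¬ q ∣ N) (hξ : IsLn q ξ) :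
    (nu N q ξ).det = q ∧ Ker q (nu N q ξ) = ξ ∧ Dv N (nu N q ξ - !![1, 0; 0, (q : ℤ)]) := by
  have hex : ∃ ν : M2, ν.det = q ∧ Ker q ν = ξ ∧ Dv N (ν - !![1, 0; 0, (q : ℤ)]) := by
    obtain ⟨η, h1, h2⟩ := hξ.exists_mat hq.pos
    obtain ⟨γ, u, v, Y, e, hγ⟩ := yaa_lift hN hq hc (A := !![1, 0; 0, (q : ℤ)])
      (B := η.adjugate) (by rw [Matrix.det_mul, yaa_detD, xla_det_adj, h1])
    refine ⟨(γ : M2) * η, by rw [Matrix.det_mul, γ.det_coe, h1, one_mul],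
      by rw [Ker_SL, h2], xla_ex.2 ⟨Y * η - v • !![1, 0; 0, (q : ℤ)], ?_⟩⟩
    have e1 : u * q = 1 - N * v := by linear_combination e
    rw [hγ, add_mul, smul_mul_assoc, smul_mul_assoc, mul_assoc, Matrix.adjugate_mul, h1,
      mul_smul_comm, mul_one, smul_smul, e1]
    module
  unfold nu
  rw [dif_pos hex]
  exact hex.choose_spec

theorem yaa_eq (hN : 0 < N) (hq : q.Prime) (hc : ¬ q ∣ N) (hξ : IsLn q ξ) {ν : M2}
    (h1 : ν.det = q) (h2 : Ker q ν = ξ) (h3 : Dv N (ν - !![1, 0; 0, (q : ℤ)])) :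
    ∃ γ ∈ CongruenceSubgroup.Gamma N, ν = (γ : M2) * nu N q ξ := by
  obtain ⟨a1, a2, a3⟩ := nu_spec hN hq hc hξ
  refine gamma_of_Ker hq.pos a1 h1 ((Nat.Prime.coprime_iff_not_dvd hq).2 hc)
    (by rw [a2, h2]) fun i j => ?_
  have := dvd_sub (h3 i j) (a3 i j)
  simp only [Matrix.sub_apply] at this ⊢
  rwa [sub_sub_sub_cancel_right] at this

theorem yaa_step (hN : 0 < N) (hq : q.Prime) (hc : ¬ q ∣ N) (hξ : IsLn q ξ) {δ : SL(2, ℤ)}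
    (hδ : δ ∈ CongruenceSubgroup.Gamma N) :
    ∃ γ ∈ CongruenceSubgroup.Gamma N, nu N q (img (δ : M2) ξ) * δ = (γ : M2) * nu N q ξ := by
  obtain ⟨a1, a2, a3⟩ := nu_spec hN hq hc (hξ.img hq.pos (yaa_SL δ q))
  exact yaa_eq hN hq hc hξ (by rw [Matrix.det_mul, a1, δ.det_coe, mul_one])
    (by rw [Ker_mul_pl, a2, (pl_img hξ (yaa_SL δ q)).1]) (yaa_dv_right a3 hδ)

theorem up_spec (hN : 0 < N) (hq : q.Prime) (hc : ¬ q ∣ N) (hξ : IsLn q ξ) {k : κ}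
    (hζ : Ad q (ζ k)) : (up N q ζ ξ k).det = q * (ζ k).det ∧ Ker q (up N q ζ ξ k) = ξ := by
  obtain ⟨a1, a2, -⟩ := nu_spec hN hq hc (hξ.img hq.pos hζ.2)
  unfold up
  exact ⟨by rw [Matrix.det_mul, a1], by rw [Ker_mul_pl, a2, (pl_img hξ hζ.2).1]⟩

theorem yaa_Ad_up (hN : 0 < N) (hq : q.Prime) (hc : ¬ q ∣ N) (hq₀ : q.Coprime q₀)
    (hξ : IsLn q ξ) {k : κ} (hζ : Ad (q₀ * q) (ζ k)) : Ad q₀ (up N q ζ ξ k) := by
  have h := (up_spec hN hq hc hξ (yaa_Ad_right hζ)).1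
  unfold Ad
  rw [h]
  exact ⟨mul_pos (by exact_mod_cast hq.pos) hζ.1,
    (Nat.isCoprime_iff_coprime.2 hq₀).mul_left (yaa_Ad_left hζ).2⟩

theorem Fam.of_one (h : Fam N 1 K G) (q : ℕ) : Fam N q K G := by
  have a : ∀ η : M2, Ad q η → Ad 1 η := fun η h => ⟨h.1, by
    rw [Nat.cast_one]
    exact isCoprime_one_right⟩
  exact ⟨fun ζ η h1 h2 => h.mul ζ η (fun k => a _ (h1 k)) (a _ h2),
    fun ζ δ h1 h2 => h.inv ζ δ (fun k => a _ (h1 k)) h2, h.bd, h.lip⟩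

theorem Fam.ginv (h : Fam N q₀ K G) (hζ : ∀ k, Ad q₀ (ζ k) ∧ N * (ζ k).det.natAbs ∣ M) :
    GInv M (G ζ) := by
  intro γ hγ τ
  choose γ' h1 h2 using fun k => act_conj (hζ k).1.1 N (yaa_mono (hζ k).2 hγ)
  rw [← act_SL, ← h.mul ζ γ (fun k => (hζ k).1) (yaa_Ad_SL γ q₀) τ,
    ← h.inv ζ γ' (fun k => (hζ k).1) h1]
  simp only [h2]

theorem Fam.up_inv (h : Fam N q₀ K G) (hN : 0 < N) (hq : q.Prime) (hc : ¬ q ∣ N)
    (hq₀ : q.Coprime q₀) (hζ : ∀ k, Ad (q₀ * q) (ζ k)) (hξ : IsLn q ξ) (δ : κ → SL(2, ℤ))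
    (hδ : ∀ k, δ k ∈ CongruenceSubgroup.Gamma N) :
    G (up N q (fun k => (δ k : M2) * ζ k) ξ) = G (up N q ζ ξ) := by
  choose γ h1 h2 using fun k =>
    yaa_step hN hq hc (hξ.img hq.pos (yaa_Ad_right (hζ k)).2) (hδ k)
  rw [← h.inv (up N q ζ ξ) γ (fun k => yaa_Ad_up hN hq hc hq₀ hξ (hζ k)) h1]
  congr 1
  funext k
  unfold up
  rw [img_mul, ← mul_assoc, h2, mul_assoc]

theorem Fam.up_mul (h : Fam N q₀ K G) (hN : 0 < N) (hq : q.Prime) (hc : ¬ q ∣ N)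
    (hq₀ : q.Coprime q₀) (hζ : ∀ k, Ad (q₀ * q) (ζ k)) (hξ : IsLn q ξ) {η : M2}
    (hη : Ad (q₀ * q) η) (z : ℍ) :
    G (up N q (fun k => ζ k * η) ξ) z = G (up N q ζ (img η ξ)) (act η z) := by
  rw [← h.mul (up N q ζ (img η ξ)) η
    (fun k => yaa_Ad_up hN hq hc hq₀ (hξ.img hq.pos (yaa_Ad_right hη).2) (hζ k))
    (yaa_Ad_left hη) z]
  have e : up N q (fun k => ζ k * η) ξ = fun k => up N q ζ (img η ξ) k * η := by
    funext k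
    unfold up
    rw [img_mul, mul_assoc]
  rw [e]

theorem Fam.up_smul (h : Fam N q₀ K G) (hN : 0 < N) (hq : q.Prime) (hc : ¬ q ∣ N)
    (hq₀ : q.Coprime q₀) (hζ : ∀ k, Ad (q₀ * q) (ζ k) ∧ N * (ζ k).det.natAbs ∣ M)
    (hξ : IsLn q ξ) {δ : SL(2, ℤ)} (hδ : δ ∈ CongruenceSubgroup.Gamma M) (z : ℍ) :
    G (up N q ζ ξ) (δ • z) = G (up N q ζ (pl (δ : M2) ξ)) z := by
  have hξ' := hξ.pl hq.pos (yaa_SL δ q)
  choose γ' h1 h2 using fun k => act_conj (hζ k).1.1 N (yaa_mono (hζ k).2 hδ)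
  have a := h.up_mul hN hq hc hq₀ (fun k => (hζ k).1) hξ' (yaa_Ad_SL δ _) z
  rw [(pl_img hξ (yaa_SL δ q)).2, act_SL] at a
  rw [← a, ← h.up_inv hN hq hc hq₀ (fun k => (hζ k).1) hξ' γ' h1]
  simp only [h2]

theorem Fam.tq (h : Fam N q₀ K G) (hK : 0 ≤ K) (hN : 0 < N) (hq : q.Prime) (hc : ¬ q ∣ N)
    (hq₀ : q.Coprime q₀) : Fam N (q₀ * q) K (Tq N q G) := by
  refine ⟨fun ζ η h1 h2 z => ?_, fun ζ δ h1 h2 => ?_,
    fun ζ z => abs_mnB_le (by norm_num) fun ξ _ => h.bd _ _,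
    fun ζ => Lip.mnB hK fun ξ _ => h.lip _⟩
  · unfold Tq
    rw [mnB_apply, mnB_apply, ← mn_Xn_img hq.pos (yaa_Ad_right h2).2
      fun ξ => G (up N q ζ ξ) (act η z)]
    unfold mn
    rw [Finset.sum_congr rfl fun ξ hξ =>
      h.up_mul hN hq hc hq₀ h1 ((mem_Xn hq.pos).1 hξ) h2 z]
  · unfold Tq mnB
    rw [Finset.sum_congr rfl fun ξ hξ =>
      h.up_inv hN hq hc hq₀ h1 ((mem_Xn hq.pos).1 hξ) δ h2]

theorem Fam.sq (h : Fam N q₀ K G) {I : ℝ} (hI : |I| ≤ 1 / 2) : Fam N q₀ K (sqF G I) := by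
  have e : ∀ ζ z, sqF G I ζ z = 1 / 2 * ((G ζ z - I) * (G ζ z - I)) := fun ζ z => by
    simp [sqF]
  have b : ∀ ζ z, |G ζ z - I| ≤ 1 := fun ζ z => by
    have h1 := abs_le.1 (h.bd ζ z)
    have h2 := abs_le.1 hI
    rw [abs_le]
    constructor <;> linarith [h1.1, h1.2, h2.1, h2.2]
  refine ⟨fun ζ η h1 h2 z => by rw [e, e, h.mul ζ η h1 h2], fun ζ δ h1 h2 => ?_,
    fun ζ z => ?_, fun ζ z w => ?_⟩
  · unfold sqF
    rw [h.inv ζ δ h1 h2]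
  · rw [e, abs_mul, abs_mul, abs_of_pos (by norm_num : (0 : ℝ) < 1 / 2)]
    have := mul_le_one₀ (b ζ z) (abs_nonneg _) (b ζ z)
    linarith
  · rw [e, e]
    have e2 : 1 / 2 * ((G ζ z - I) * (G ζ z - I)) - 1 / 2 * ((G ζ w - I) * (G ζ w - I)) =
        (G ζ z - G ζ w) * (((G ζ z - I) + (G ζ w - I)) / 2) := by ring
    have h3 : |((G ζ z - I) + (G ζ w - I)) / 2| ≤ 1 := by
      have h1 := abs_le.1 (b ζ z)
      have h2 := abs_le.1 (b ζ w)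
      rw [abs_le]
      constructor <;> linarith [h1.1, h1.2, h2.1, h2.2]
    rw [e2, abs_mul]
    exact (mul_le_of_le_one_right (abs_nonneg _) h3).trans (h.lip ζ z w)

theorem fam_const (N q₀ : ℕ) (hK : 0 ≤ K) :
    Fam N q₀ K fun _ : κ → M2 => BoundedContinuousFunction.const ℍ (1 / 2 : ℝ) := by
  refine ⟨fun _ _ _ _ _ => rfl, fun _ _ _ _ => rfl, fun _ z => ?_, fun _ z w => ?_⟩
  · rw [BoundedContinuousFunction.const_apply, abs_of_pos (by norm_num)]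
  · show |(1 / 2 : ℝ) - 1 / 2| ≤ _
    rw [sub_self, abs_zero]
    exact mul_nonneg hK dist_nonneg

theorem fam_pr [Fintype κ] [Nonempty κ] {φ : κ → (ℍ →ᵇ ℝ)} (h : ∀ k, GInv N (φ k))
    (hb : ∀ k, ‖φ k‖ ≤ 1 / 2) {K₀ : ℝ} (hK₀ : 0 ≤ K₀) (hl : ∀ k, Lip K₀ (φ k))
    (hK : Fintype.card κ * K₀ ≤ K) : Fam N 1 K (prF φ) := by
  have e : ∀ ζ z, prF φ ζ z = ∏ k, φ k (act (ζ k) z) := fun ζ z => by
    unfold prF
    rw [BoundedContinuousFunction.prod_apply]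
    rfl
  have b : ∀ k z, |φ k z| ≤ 1 / 2 := fun k z =>
    ((φ k).norm_coe_le_norm z).trans (hb k)
  refine ⟨fun ζ η h1 h2 z => ?_, fun ζ δ h1 h2 => ?_, fun ζ z => ?_, fun ζ z w => ?_⟩
  · rw [e, e]
    exact Finset.prod_congr rfl fun k _ => by rw [act_mul (h1 k).1 h2.1]
  · ext z
    rw [e, e]
    exact Finset.prod_congr rfl fun k _ => by
      rw [act_mul (yaa_Ad_SL (δ k) 1).1 (h1 k).1, act_SL, h k _ (h2 k)]
  · obtain ⟨k0⟩ := ‹Nonempty κ›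
    rw [e, Finset.abs_prod, ← Finset.mul_prod_erase _ _ (Finset.mem_univ k0)]
    exact (mul_le_of_le_one_right (abs_nonneg _) (Finset.prod_le_one (fun _ _ => abs_nonneg _)
      fun k _ => (b k _).trans (by norm_num))).trans (b k0 _)
  · have := Lip.prod hK₀ (O := (Finset.univ : Finset κ)) (F := fun k => cact (φ k) (ζ k))
      (fun k _ => ⟨(hl k).cact _, fun z => (b k _).trans (by norm_num)⟩) z w
    rw [Finset.card_univ] at this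
    exact this.trans (mul_le_mul_of_nonneg_right hK dist_nonneg)

theorem exists_up (hN : 0 < N) (hq : q.Prime) (hc : ¬ q ∣ N) {d : ℕ} (hd : 0 < d) (hc' : ¬ q ∣ d)
    {η h : M2} (h1 : η.det = (d * q : ℕ)) (h2 : h.det = d) (h3 : Ker d h ⊆ Ker d η)
    (h4 : Ker q η = ξ) : ∃ c : vcjQ N, ∃ δ ∈ CongruenceSubgroup.Gamma N,
      η = (δ : M2) * (nu N q (img ((c.out : SL(2, ℤ)) * h) ξ) * ((c.out : SL(2, ℤ)) * h)) := by
  have hdq : q.Coprime d := (Nat.Prime.coprime_iff_not_dvd hq).2 hc'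
  have hq0 : (q : ℤ) ≠ 0 := by exact_mod_cast hq.ne_zero
  obtain ⟨ζ₁, ζ₂, a1, a2, a3⟩ := exists_fact hd hq.pos hdq.symm (η := η) (by rw [h1, Nat.cast_mul])
  rw [a3, Ker_cop (by rw [a2]; exact Nat.isCoprime_iff_coprime.2 hdq)] at h3
  obtain ⟨γ0, a4⟩ := exists_SL_of_Ker hd h2 a1 h3
  have b1 : (ζ₂ * (γ0 : M2)).det = q := by rw [Matrix.det_mul, a2, γ0.det_coe, mul_one]
  obtain ⟨g, u, v, Y, e, hg⟩ := yaa_lift hN hq hc (A := (ζ₂ * (γ0 : M2)).adjugate)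
    (B := !![1, 0; 0, (q : ℤ)]) (by rw [Matrix.det_mul, yaa_detD, xla_det_adj, b1])
  have b2 : Dv N (ζ₂ * (γ0 : M2) * (g : M2) - !![1, 0; 0, (q : ℤ)]) := by
    refine xla_ex.2 ⟨ζ₂ * (γ0 : M2) * Y - v • !![1, 0; 0, (q : ℤ)], ?_⟩
    have e1 : u * q = 1 - N * v := by linear_combination e
    rw [hg, mul_add, mul_smul_comm, mul_smul_comm, ← mul_assoc _ (Matrix.adjugate _),
      Matrix.mul_adjugate, b1, smul_mul_assoc, one_mul, smul_smul, e1]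
    module
  obtain ⟨δ0, hδ0⟩ := QuotientGroup.mk_out_eq_mul (CongruenceSubgroup.Gamma N) g⁻¹
  refine ⟨(g⁻¹ : SL(2, ℤ)), ?_⟩
  set c : SL(2, ℤ) := (QuotientGroup.mk (s := CongruenceSubgroup.Gamma N) g⁻¹).out with hcdef
  have hδ2 : g⁻¹ * (δ0 : SL(2, ℤ))⁻¹ * g ∈ CongruenceSubgroup.Gamma N := by
    have := (CongruenceSubgroup.Gamma_normal N).conj_mem _ (inv_mem δ0.2) g⁻¹
    rwa [inv_inv] at this
  have e2 : c⁻¹ = g * (g⁻¹ * (δ0 : SL(2, ℤ))⁻¹ * g) := by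
    rw [hδ0]
    group
  have b3 : Dv N (ζ₂ * (γ0 : M2) * ((c⁻¹ : SL(2, ℤ)) : M2) - !![1, 0; 0, (q : ℤ)]) := by
    rw [e2, Matrix.SpecialLinearGroup.coe_mul, ← mul_assoc]
    exact yaa_dv_right b2 hδ2
  have b4 : (ζ₂ * (γ0 : M2) * ((c⁻¹ : SL(2, ℤ)) : M2)).det = q := by
    rw [Matrix.det_mul, b1, Matrix.SpecialLinearGroup.det_coe, mul_one]
  have b5 : η = ζ₂ * (γ0 : M2) * ((c⁻¹ : SL(2, ℤ)) : M2) * ((c : M2) * h) := by
    rw [mul_assoc _ _ ((c : M2) * h), ← mul_assoc _ (c : M2), ← Matrix.SpecialLinearGroup.coe_mul,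
      inv_mul_cancel, Matrix.SpecialLinearGroup.coe_one, one_mul, a3, a4, mul_assoc]
  have b6 : IsLn q (Ker q (ζ₂ * (γ0 : M2) * ((c⁻¹ : SL(2, ℤ)) : M2))) := by
    refine isLn_Ker_prime hq (by rw [b4]) ?_
    rw [b4, pow_two]
    intro hh
    have h6 := (mul_dvd_mul_iff_left hq0).1 (hh.trans (dvd_of_eq (mul_one (q : ℤ)).symm))
    exact hq.one_lt.ne' (by exact_mod_cast Int.eq_one_of_dvd_one (by positivity) h6)
  have b7 : IsCoprime ((c : M2) * h).det (q : ℤ) := by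
    rw [Matrix.det_mul, c.det_coe, one_mul, h2]
    exact (Nat.isCoprime_iff_coprime.2 hdq).symm
  have b8 : img ((c : M2) * h) ξ = Ker q (ζ₂ * (γ0 : M2) * ((c⁻¹ : SL(2, ℤ)) : M2)) := by
    rw [← h4]
    conv_lhs => rw [b5, Ker_mul_pl]
    exact (pl_img b6 b7).2
  obtain ⟨δ, hδ, e3⟩ := yaa_eq hN hq hc b6 b4 rfl b3
  refine ⟨δ, hδ, ?_⟩
  rw [b8, ← mul_assoc, ← e3]
  exact b5

theorem exists_twist (hN : 0 < N) (hM : 0 < M) (hq : q.Prime) (hc : ¬ q ∣ M)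
    (hζ : ∀ k, 0 < (ζ k).det ∧ N * (ζ k).det.natAbs ∣ M) : ∃ ζ' : κ → M2,
      (∀ k, (ζ' k).det = (ζ k).det) ∧ ∀ ξ ∈ Xn q, ∀ k, ∃ δ ∈ CongruenceSubgroup.Gamma N,
        up N q ζ ξ k = (δ : M2) * (ζ' k * nu M q ξ) := by
  have hcN : ∀ k : κ, ¬ q ∣ N := fun k hh => hc ((hh.mul_right _).trans (hζ k).2)
  have hcd : ∀ k : κ, ¬ q ∣ (ζ k).det.natAbs := fun k hh => hc ((hh.mul_left _).trans (hζ k).2)
  have hdd : ∀ k : κ, (((ζ k).det.natAbs : ℕ) : ℤ) = (ζ k).det := fun k =>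
    Int.natAbs_of_nonneg (hζ k).1.le
  have hAd : ∀ k : κ, Ad q (ζ k) := fun k => ⟨(hζ k).1, by
    rw [← hdd k]
    exact (yaa_cop hq (hcd k)).symm⟩
  have hne : (Xn q).Nonempty := by
    have := (card_Xn hq one_pos).1
    rw [pow_one] at this
    exact Finset.card_pos.1 (hq.pos.trans_le this)
  obtain ⟨ξ0, hξ0⟩ := hne
  rw [mem_Xn hq.pos] at hξ0
  obtain ⟨m1, m2, m3⟩ := nu_spec hM hq hc hξ0
  have key : ∀ k : κ, ∃ ζ' : M2, ζ'.det = (ζ k).det ∧ up N q ζ ξ0 k = ζ' * nu M q ξ0 := by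
    intro k
    obtain ⟨a1, a2⟩ := up_spec hN hq (hcN k) hξ0 (hAd k)
    obtain ⟨ζ₁, ζ₂, b1, b2, b3⟩ := exists_fact hq.pos (Int.natAbs_pos.2 (hζ k).1.ne')
      ((Nat.Prime.coprime_iff_not_dvd hq).2 (hcd k)) (η := up N q ζ ξ0 k) (by rw [a1, hdd])
    rw [b3, Ker_cop (by rw [b2]; exact (yaa_cop hq (hcd k)).symm)] at a2
    obtain ⟨γ, hγ⟩ := exists_SL_of_Ker hq.pos m1 b1 (by rw [m2, a2])
    exact ⟨ζ₂ * (γ : M2), by rw [Matrix.det_mul, γ.det_coe, mul_one, b2, hdd],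
      by rw [b3, hγ, mul_assoc]⟩
  choose ζ' h1 h2 using key
  refine ⟨ζ', h1, fun ξ hξ k => ?_⟩
  rw [mem_Xn hq.pos] at hξ
  obtain ⟨γ1, g1, e1⟩ := line_trans_Gamma hq.pos hM ((Nat.Prime.coprime_iff_not_dvd hq).2 hc)
    hξ0 hξ
  have e0 : img (γ1 : M2) ξ = ξ0 := by rw [← e1, (pl_img hξ0 (yaa_SL γ1 q)).2]
  obtain ⟨γ2, g2, e2⟩ := yaa_step hM hq hc hξ g1
  rw [e0] at e2
  obtain ⟨γ1', g1', e1'⟩ := act_conj (hζ k).1 N (yaa_mono (hζ k).2 g1)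
  obtain ⟨γ2', g2', e2'⟩ := act_conj (ξ := ζ' k) (by rw [h1]; exact (hζ k).1) N
    (yaa_mono (by rw [h1]; exact (hζ k).2) g2)
  obtain ⟨γ3, g3, e3⟩ := yaa_step hN hq (hcN k) (hξ.img hq.pos (hAd k).2) g1'
  rw [← img_mul, ← e1', img_mul, e0] at e3
  refine ⟨γ3⁻¹ * γ2', mul_mem (inv_mem g3) g2', ?_⟩
  have e4 : (γ3 : M2) * up N q ζ ξ k = (γ2' : M2) * (ζ' k * nu M q ξ) := by
    have e5 : up N q ζ ξ0 k * (γ1 : M2) = (γ3 : M2) * up N q ζ ξ k := by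
      unfold up
      rw [mul_assoc, e1', ← mul_assoc, e3, mul_assoc]
    rw [← e5, h2, mul_assoc, e2, ← mul_assoc, e2', mul_assoc]
  rw [Matrix.SpecialLinearGroup.coe_mul, mul_assoc, ← e4, ← mul_assoc,
    ← Matrix.SpecialLinearGroup.coe_mul, inv_mul_cancel, Matrix.SpecialLinearGroup.coe_one,
    one_mul]

end Pool.Agent.EQ
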