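import Pool.Agent.P.MP_ad7a55_nt.YAa
import Pool.Agent.P.MP_ad7a55_nt.XKg

/-! The second family has small Hecke averages. -/

set_option autoImplicit false

noncomputable section

open MeasureTheory Topology Filter UpperHalfPlane Finset
open scoped MatrixGroups BoundedContinuousFunction Matrix Classical

namespace Pool.Agent.EQ

theorem yab_cong {M : ℕ} {V ρ : M2} (h : Dv M (ρ - V)) (γ : SL(2, ℤ)) {δ : SL(2, ℤ)}
    (hδ : δ ∈ CongruenceSubgroup.Gamma M) (i j : Fin 2) :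
    (M : ℤ) ∣ ((γ : M2) * ρ) i j - (((γ * δ : SL(2, ℤ)) : M2) * V) i j := by
  obtain ⟨Y, hY⟩ := xla_ex.1 h
  obtain ⟨Z, hZ⟩ := xla_cg.1 (xkg_gamma hδ)
  have e : (γ : M2) * ρ - ((γ * δ : SL(2, ℤ)) : M2) * V =
      (M : ℤ) • ((γ : M2) * Y - (γ : M2) * Z * V) := by
    rw [Matrix.SpecialLinearGroup.coe_mul, hZ, sub_eq_iff_eq_add.1 hY]
    simp only [mul_add, add_mul, mul_smul_comm, smul_mul_assoc, mul_one, one_smul]
    module
  exact xla_ex.2 ⟨_, e⟩ i j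

theorem yab_point (U : ℝ) {ω : ℝ → ℝ} (hω : ∀ ε, 0 < ε → 0 < ω ε) {ε : ℝ} (hε : 0 < ε) :
    ∃ (ε' : ℝ) (a l₀ : ℕ), 0 < ε' ∧ ∀ (M : ℕ) (g : ℍ →ᵇ ℝ), 0 < M → GInv M g → (∀ z, |g z| ≤ 1) →
      EqC ω g → IN M (g * g) ≤ ε' → ∀ (l k : ℕ) (V : M2), l.Prime → l₀ * k ≤ l → 0 < k →
      ¬ l ∣ M → M ^ a ≤ l ^ k → ∀ τ ∈ KU U, ∀ ρ : Set V2 → M2,
      (∀ L ∈ Xn (l ^ k), (ρ L).det = (l ^ k : ℕ) ∧ Ker (l ^ k) (ρ L) = L ∧ Dv M (ρ L - V)) →
      |mn (Xn (l ^ k)) fun L => g (act (ρ L) τ)| ≤ ε := by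
  obtain ⟨U1, hU1, hU1'⟩ : ∃ U1 : ℝ, U ≤ U1 ∧ 1 ≤ U1 := ⟨max U 1, le_max_left _ _, le_max_right _ _⟩
  obtain ⟨Y, hY, hYe⟩ : ∃ Y : ℝ, 0 < Y ∧ Y = 384 * U1 / ε := ⟨_, by positivity, rfl⟩
  obtain ⟨W, hW1, hW2⟩ : ∃ W : ℝ, U1 ≤ W ∧ Y ≤ W := ⟨max U1 Y, le_max_left _ _, le_max_right _ _⟩
  have hW : 1 ≤ W := hU1'.trans hW1
  obtain ⟨C, a, hC, hcls⟩ := cls_total (H := 4 * W ^ 2) (by nlinarith)
  obtain ⟨C', hC', hbad⟩ := bad_classes Y hω (ε := ε / 4) (by positivity)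
  refine ⟨ε / (4 * C * C'), a, ⌈4 * C / ε⌉₊, by positivity,
    fun M g hM hg hg1 he hI l k V hl hlk hk hlM hMa τ hτ ρ hρ => ?_⟩
  have hfin := vcj_fin hM
  have := Fintype.ofFinite (vcjQ M)
  have hn : 0 < l ^ k := pow_pos hl.pos k
  have hn' : (0 : ℝ) < (l ^ k : ℕ) := by exact_mod_cast hn
  have hX : ((l ^ k : ℕ) : ℝ) ≤ (Xn (l ^ k)).card := by exact_mod_cast (card_Xn hl hk).1
  choose γ hγ using fun L : Set V2 => ModularGroup.exists_smul_mem_fd (act (ρ L) τ)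
  have hdρ : ∀ L ∈ Xn (l ^ k), 0 < (ρ L).det := fun L hL => by
    rw [(hρ L hL).1]; exact_mod_cast hn
  have hdη : ∀ L ∈ Xn (l ^ k), ((γ L : M2) * ρ L).det = (l ^ k : ℕ) := fun L hL => by
    rw [Matrix.det_mul, (γ L).det_coe, one_mul, (hρ L hL).1]
  have hkη : ∀ L ∈ Xn (l ^ k), Ker (l ^ k) ((γ L : M2) * ρ L) = L := fun L hL => by
    rw [Ker_SL, (hρ L hL).2.1]
  have haη : ∀ L ∈ Xn (l ^ k), act ((γ L : M2) * ρ L) τ = γ L • act (ρ L) τ := fun L hL => by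
    rw [act_mul (vact_SL_det _) (hdρ L hL), act_SL]
  have hA := cusp_count hY hτ hl hk
  obtain ⟨A, hAe⟩ : ∃ A, A = (Xn (l ^ k)).filter fun L => ∃ η : M2, η.det = (l ^ k : ℕ) ∧
      Ker (l ^ k) η = L ∧ Y ≤ (act η τ).im := ⟨_, rfl⟩
  rw [← hAe] at hA
  have hA' : (A.card : ℝ) ≤ ε / 4 * (l ^ k : ℕ) := by
    refine hA.trans ?_
    rw [div_le_iff₀ hY, hYe]
    have e : ε / 4 * ((l ^ k : ℕ) : ℝ) * (384 * U1 / ε) = 96 * U1 * (l ^ k : ℕ) := by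
      field_simp
      ring
    rw [e]
    exact mul_le_mul_of_nonneg_right (by linarith) hn'.le
  obtain ⟨B, hBe⟩ : ∃ B, B = (Xn (l ^ k)).filter fun L =>
      γ L • act (ρ L) τ ∈ KU Y ∧ ε / 4 < |g (act (ρ L) τ)| := ⟨_, rfl⟩
  have hBm : ∀ L ∈ B, L ∈ Xn (l ^ k) ∧ γ L • act (ρ L) τ ∈ KU Y ∧ ε / 4 < |g (act (ρ L) τ)| :=
    fun L hL => by
      rw [hBe] at hL
      exact Finset.mem_filter.1 hL
  have hS := hbad M g hM hg he
  obtain ⟨S, hSe⟩ : ∃ S, S = {c : vcjQ M | ∃ w ∈ KU Y, ε / 4 < |g (c.out⁻¹ • w)|} := ⟨_, rfl⟩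
  rw [← hSe] at hS
  have hB : (B.card : ℝ) ≤ ε / 2 * (l ^ k : ℕ) := by
    have h1 := hcls l k M (S.toFinset.image fun c => (c.out : M2) * V)
      (B.image fun L => (γ L : M2) * ρ L) hl hM hlM hMa (fun η hη => by
        obtain ⟨L, hL, rfl⟩ := Finset.mem_image.1 hη
        obtain ⟨h1, h2, h3⟩ := hBm L hL
        refine ⟨hdη L h1, ht_le_KU hW hn (hdη L h1) ⟨hτ.1, hτ.2.trans (hU1.trans hW1)⟩ ?_, ?_⟩
        · rw [haη L h1]
          exact ⟨h2.1, h2.2.trans hW2⟩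
        · obtain ⟨δ, e⟩ := QuotientGroup.mk_out_eq_mul (CongruenceSubgroup.Gamma M) (γ L)
          refine ⟨_, Finset.mem_image.2 ⟨(QuotientGroup.mk (γ L) : vcjQ M), ?_, rfl⟩, ?_⟩
          · rw [Set.mem_toFinset, hSe]
            refine ⟨_, h2, ?_⟩
            rw [e, mul_inv_rev, mul_smul, inv_smul_smul, hg _ (inv_mem δ.2)]
            exact h3
          · rw [e]
            exact yab_cong (hρ L h1).2.2 (γ L) δ.2)
    rw [Finset.card_image_of_injOn (fun L hL L' hL' e => by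
      rw [← hkη L (hBm L hL).1, ← hkη L' (hBm L' hL').1]
      exact congrArg (Ker (l ^ k)) e)] at h1
    have hM' : (0 : ℝ) < (M : ℝ) ^ 3 := by positivity
    have h2 : ((S.toFinset.image fun c => (c.out : M2) * V).card : ℝ) ≤ ε / (4 * C) * (M : ℝ) ^ 3 := by
      have h3 : ((S.toFinset.image fun c => (c.out : M2) * V).card : ℝ) ≤ S.ncard := by
        rw [Set.ncard_eq_toFinset_card']
        exact_mod_cast Finset.card_image_le
      have h4 : ((CongruenceSubgroup.Gamma M).index : ℝ) ≤ (M : ℝ) ^ 3 := by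
        exact_mod_cast index_Gamma_le hM
      have h5 : C' * IN M (g * g) ≤ ε / (4 * C) := by
        refine (mul_le_mul_of_nonneg_left hI hC'.le).trans (le_of_eq ?_)
        field_simp
      refine h3.trans (hS.trans ((mul_le_mul_of_nonneg_right h5 (Nat.cast_nonneg _)).trans ?_))
      exact mul_le_mul_of_nonneg_left h4 (by positivity)
    have h6 : (k : ℝ) / l ≤ ε / (4 * C) := by
      have hl' : (0 : ℝ) < l := by exact_mod_cast hl.pos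
      have h7 : ((⌈4 * C / ε⌉₊ : ℕ) : ℝ) * k ≤ l := by exact_mod_cast hlk
      have h8 : 4 * C / ε * k ≤ l :=
        (mul_le_mul_of_nonneg_right (Nat.le_ceil _) (Nat.cast_nonneg k)).trans h7
      rw [div_mul_eq_mul_div, div_le_iff₀ hε] at h8
      rw [div_le_div_iff₀ hl' (by positivity)]
      linarith
    have h9 := (div_le_iff₀ hM').2 h2
    refine h1.trans ((mul_le_mul_of_nonneg_left (add_le_add h9 h6) (by positivity)).trans
      (le_of_eq ?_))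
    field_simp
    ring
  have hpt : ∀ L ∈ Xn (l ^ k), |g (act (ρ L) τ)| ≤
      ε / 4 + ((if L ∈ A then 1 else 0) + if L ∈ B then 1 else 0) := fun L hL => by
    have h1 := hg1 (act (ρ L) τ)
    by_cases hLA : L ∈ A
    · rw [if_pos hLA]
      split_ifs <;> linarith
    · by_cases hLB : L ∈ B
      · rw [if_neg hLA, if_pos hLB]
        linarith
      · rw [if_neg hLA, if_neg hLB, add_zero, add_zero]
        by_contra hc
        refine hLB ?_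
        rw [hBe]
        refine Finset.mem_filter.2 ⟨hL, ⟨hγ L, ?_⟩, not_le.1 hc⟩
        by_contra hc'
        refine hLA ?_
        rw [hAe]
        exact Finset.mem_filter.2 ⟨hL, _, hdη L hL, hkη L hL, by
          rw [haη L hL]; exact (not_le.1 hc').le⟩
  have hcard : ∀ D : Finset (Set V2),
      ∑ L ∈ Xn (l ^ k), (if L ∈ D then (1 : ℝ) else 0) ≤ D.card := fun D => by
    rw [Finset.sum_boole]
    exact_mod_cast Finset.card_le_card fun L hL => (Finset.mem_filter.1 hL).2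
  refine (abs_mn_le _ _).trans ?_
  unfold mn
  rw [div_le_iff₀ (hn'.trans_le hX)]
  refine (Finset.sum_le_sum hpt).trans ?_
  rw [Finset.sum_add_distrib, Finset.sum_add_distrib, Finset.sum_const, nsmul_eq_mul]
  have h1 := hcard A
  have h2 := hcard B
  have h3 := mul_le_mul_of_nonneg_left hX hε.le
  linarith

theorem he_point6 (U : ℝ) {ω : ℝ → ℝ} (hω : ∀ ε, 0 < ε → 0 < ω ε) {ε : ℝ} (hε : 0 < ε) :
    ∃ (ε' : ℝ) (a l₀ : ℕ), 0 < ε' ∧ ∀ (M : ℕ) (g : ℍ →ᵇ ℝ), 0 < M → GInv M g → (∀ z, |g z| ≤ 1) →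
      EqC ω g → IN M (g * g) ≤ ε' → ∀ (l : ℕ) (W : M2), l.Prime → l₀ ≤ l → ¬ l ∣ M → M ^ a ≤ l →
      ∀ τ ∈ KU U, ∀ ρ : Set V2 → M2,
      (∀ L ∈ Xn l, (ρ L).det = l ∧ Ker l (ρ L) = L ∧ Dv M (ρ L - W)) →
      |mn (Xn l) fun L => g (act (ρ L) τ)| ≤ ε := by
  obtain ⟨ε', a, l₀, h0, h⟩ := yab_point U hω hε
  refine ⟨ε', a, l₀, h0, fun M g hM hg hg1 he hI l W hl hl₀ hlM hMa τ hτ ρ hρ => ?_⟩
  have h1 := h M g hM hg hg1 he hI l 1 W hl (by rwa [mul_one]) one_pos hlM (by rwa [pow_one]) τ hτ ρ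
  rw [pow_one] at h1
  exact h1 hρ

theorem yab_card {q : ℕ} (hq : q.Prime) : q ≤ (Xn q).card := by
  have h := (card_Xn hq one_pos).1
  rwa [pow_one] at h

theorem yab_ne {q : ℕ} (hq : q.Prime) : (Xn q).Nonempty :=
  Finset.card_pos.1 (hq.pos.trans_le (yab_card hq))

theorem yab_step {α : Type} {X : Finset α} (hX : X.Nonempty) (S : Finset α) {G : α → ℝ} {c : ℝ}
    (hc : 0 ≤ c) (h1 : ∀ x ∈ X, x ∉ S → G x ≤ c) (h2 : ∀ x ∈ X, G x ≤ 1) :
    mn X G ≤ c + S.card / X.card := by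
  have h3 : mn X G ≤ mn X fun x => c + if x ∈ S then 1 else 0 := mn_mono fun x hx => by
    by_cases hS : x ∈ S
    · rw [if_pos hS]
      linarith [h2 x hx]
    · rw [if_neg hS, add_zero]
      exact h1 x hx hS
  rw [mn_add, mn_const hX] at h3
  refine h3.trans (add_le_add le_rfl ?_)
  unfold mn
  refine div_le_div_of_nonneg_right ?_ (Nat.cast_nonneg _)
  rw [Finset.sum_boole]
  exact_mod_cast Finset.card_le_card fun x hx => (Finset.mem_filter.1 hx).2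

theorem yab_one {α : Type} {X : Finset α} (hX : X.Nonempty) {G : α → ℝ} (h : ∀ x ∈ X, G x ≤ 1) :
    mn X G ≤ 1 := (mn_mono h).trans (mn_const hX 1).le

theorem yab_nest {α : Type} {X : Finset α} (hX : X.Nonempty) {G : α → α → α → α → ℝ} {c : ℝ}
    (hc : 0 ≤ c) (h1 : ∀ a ∈ X, ∀ b ∈ X, ∀ d ∈ X, ∀ e ∈ X, b ≠ a → d ≠ a → d ≠ b → e ≠ a → e ≠ b →
      e ≠ d → G a b d e ≤ c) (h2 : ∀ a ∈ X, ∀ b ∈ X, ∀ d ∈ X, ∀ e ∈ X, G a b d e ≤ 1) :
    (mn X fun a => mn X fun b => mn X fun d => mn X fun e => G a b d e) ≤ c + 6 / X.card := by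
  have hp : (0 : ℝ) < X.card := by exact_mod_cast hX.card_pos
  have k3 : ∀ a ∈ X, ∀ b ∈ X, ∀ d ∈ X, b ≠ a → d ≠ a → d ≠ b →
      (mn X fun e => G a b d e) ≤ c + 3 / X.card := fun a ha b hb d hd n1 n2 n3 => by
    refine (yab_step hX {a, b, d} hc (fun e he hS => ?_) (h2 a ha b hb d hd)).trans
      (add_le_add le_rfl (div_le_div_of_nonneg_right ?_ hp.le))
    · simp only [Finset.mem_insert, Finset.mem_singleton, not_or] at hS
      exact h1 a ha b hb d hd e he n1 n2 n3 hS.1 hS.2.1 hS.2.2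
    · exact_mod_cast Finset.card_le_three
  have k2 : ∀ a ∈ X, ∀ b ∈ X, b ≠ a →
      (mn X fun d => mn X fun e => G a b d e) ≤ c + 3 / X.card + 2 / X.card :=
    fun a ha b hb n1 => by
    refine (yab_step hX {a, b} (by positivity) (fun d hd hS => ?_)
      (fun d hd => yab_one hX (h2 a ha b hb d hd))).trans
      (add_le_add le_rfl (div_le_div_of_nonneg_right ?_ hp.le))
    · simp only [Finset.mem_insert, Finset.mem_singleton, not_or] at hS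
      exact k3 a ha b hb d hd n1 hS.1 hS.2
    · exact_mod_cast Finset.card_le_two
  have k1 : ∀ a ∈ X, (mn X fun b => mn X fun d => mn X fun e => G a b d e) ≤
      c + 3 / X.card + 2 / X.card + 1 / X.card := fun a ha => by
    refine (yab_step hX {a} (c := c + 3 / X.card + 2 / X.card) (by positivity) (fun b hb hS => ?_)
      (fun b hb => yab_one hX fun d hd => yab_one hX (h2 a ha b hb d hd))).trans (le_of_eq ?_)
    · exact k2 a ha b hb fun e => hS (Finset.mem_singleton.2 e)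
    · rw [Finset.card_singleton, Nat.cast_one]
  refine (mn_mono k1).trans (le_of_eq ?_)
  rw [mn_const hX]
  ring

theorem yab_four {α : Type} (X : Finset α) (Y : α → ℝ) :
    (mn X fun a => mn X fun b => mn X fun d => mn X fun e => Y a * Y b * Y d * Y e) =
      mn X Y ^ 4 := by
  have e1 : ∀ u v : ℝ, (mn X fun x => u * Y x * v) = u * (mn X Y * v) := fun u v => by
    have e2 : (fun x => u * Y x * v) = fun x => (u * v) * Y x := funext fun x => by ring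
    rw [e2, mn_mul]
    ring
  have e3 : ∀ v : ℝ, (mn X fun x => Y x * v) = v * mn X Y := fun v => by
    have e2 : (fun x => Y x * v) = fun x => v * Y x := funext fun x => by ring
    rw [e2, mn_mul]
  simp only [mn_mul, e1, e3]
  ring

theorem yab_inj {α : Type} {a b d e : α} (n1 : b ≠ a) (n2 : d ≠ a) (n3 : d ≠ b) (n4 : e ≠ a)
    (n5 : e ≠ b) (n6 : e ≠ d) : Function.Injective ![a, b, d, e] := by
  intro i j hij
  fin_cases i <;> fin_cases j <;> simp_all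

theorem yab_mem {α : Type} {X : Finset α} {a b d e : α} (ha : a ∈ X) (hb : b ∈ X) (hd : d ∈ X)
    (he : e ∈ X) (i : Fin 4) : ![a, b, d, e] i ∈ X := by
  fin_cases i <;> assumption

theorem yab_nu {M q : ℕ} (hM : 0 < M) (hq : q.Prime) (hc : ¬ q ∣ M) {g : ℍ → ℝ} (hg : GInv M g) :
    GInv M fun z => mn (Xn q) fun ξ => g (act (nu M q ξ) z) := by
  intro γ hγ z
  have hγ1 : IsCoprime (γ : M2).det q := by
    rw [γ.det_coe]
    exact isCoprime_one_left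
  have h1 : ∀ ξ ∈ Xn q, g (act (nu M q ξ) (γ • z)) = g (act (nu M q (pl (γ : M2) ξ)) z) :=
    fun ξ hξ => by
    have hl := (mem_Xn hq.pos).1 hξ
    obtain ⟨a1, a2, a3⟩ := nu_spec hM hq hc hl
    obtain ⟨b1, b2, b3⟩ := nu_spec hM hq hc (hl.pl hq.pos hγ1)
    have a0 : 0 < (nu M q ξ).det := by rw [a1]; exact_mod_cast hq.pos
    have b0 : 0 < (nu M q (pl (γ : M2) ξ)).det := by rw [b1]; exact_mod_cast hq.pos
    obtain ⟨δ, hδ, e⟩ := gamma_of_Ker (η := nu M q (pl (γ : M2) ξ)) (η' := nu M q ξ * (γ : M2))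
      hq.pos b1 (by rw [Matrix.det_mul, a1, γ.det_coe, mul_one])
      ((Nat.Prime.coprime_iff_not_dvd hq).2 hc) (by rw [Ker_mul_pl, a2, b2]) (by
        obtain ⟨Y, hY⟩ := xla_ex.1 a3
        obtain ⟨Y', hY'⟩ := xla_ex.1 b3
        obtain ⟨Z, hZ⟩ := xla_cg.1 (xkg_gamma hγ)
        rw [sub_eq_iff_eq_add.1 hY, sub_eq_iff_eq_add.1 hY']
        generalize (!![1, 0; 0, (q : ℤ)] : M2) = D
        refine xla_ex.2 ⟨Y * (γ : M2) + D * Z - Y', ?_⟩
        have e1 : D * (γ : M2) = D + (M : ℤ) • (D * Z) := by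
          rw [hZ, one_smul, mul_add, mul_one, mul_smul_comm]
        rw [add_mul, e1, smul_mul_assoc]
        module)
    rw [← act_SL, ← act_mul a0 (vact_SL_det γ), e, act_mul (vact_SL_det δ) b0, act_SL, hg δ hδ]
  show (mn (Xn q) fun ξ => g (act (nu M q ξ) (γ • z))) = mn (Xn q) fun ξ => g (act (nu M q ξ) z)
  unfold mn
  rw [Finset.sum_congr rfl h1]
  exact congrArg (· / ((Xn q).card : ℝ))
    (sum_Xn_pull hq.pos hγ1 fun ξ => g (act (nu M q ξ) z))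

theorem yab_ndvd {N M q : ℕ} {d : ℤ} (hc : ¬ q ∣ M) (h : N * d.natAbs ∣ M) :
    ¬ q ∣ N ∧ ¬ (q : ℤ) ∣ d :=
  ⟨fun h1 => hc ((h1.mul_right _).trans h),
    fun h1 => hc (((Int.natCast_dvd.1 h1).mul_left _).trans h)⟩

theorem yab_ad {q : ℕ} (hq : q.Prime) {η : M2} (h0 : 0 < η.det) (h : ¬ (q : ℤ) ∣ η.det) :
    Ad q η :=
  ⟨h0, ((Nat.prime_iff_prime_int.1 hq).irreducible.coprime_iff_not_dvd.2 h).symm⟩

variable {κ : Type} [Fintype κ] [Nonempty κ] {N : ℕ}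

omit [Nonempty κ] in
theorem yab_pr (φ : κ → (ℍ →ᵇ ℝ)) (ζ : κ → M2) (z : ℍ) :
    prF φ ζ z = ∏ k, φ k (act (ζ k) z) := by
  simp only [prF, BoundedContinuousFunction.prod_apply, cact_apply]

omit [Fintype κ] [Nonempty κ] in
theorem yab_sqF (G : (κ → M2) → (ℍ →ᵇ ℝ)) (I : ℝ) (ζ : κ → M2) (z : ℍ) :
    sqF G I ζ z = 1 / 2 * ((G ζ z - I) * (G ζ z - I)) := rfl

omit [Nonempty κ] in
theorem yab_ginv {M q : ℕ} (hN : 0 < N) (hM : 0 < M) (hq : q.Prime) (hc : ¬ q ∣ M)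
    {φ : κ → (ℍ →ᵇ ℝ)} (hφ : ∀ k, GInv N (φ k)) {ζ : κ → M2}
    (hζ : ∀ k, 0 < (ζ k).det ∧ N * (ζ k).det.natAbs ∣ M) : GInv M (Tq N q (prF φ) ζ) := by
  obtain ⟨ζ', h1, h2⟩ := exists_twist hN hM hq hc hζ
  have hζ' : ∀ k, 0 < (ζ' k).det ∧ N * (ζ' k).det.natAbs ∣ M := fun k => by
    rw [h1 k]
    exact hζ k
  have hg : GInv M (prF φ ζ') := fun γ hγ τ => by
    rw [yab_pr, yab_pr]
    exact Finset.prod_congr rfl fun k _ => (((hφ k).act (hζ' k).1).mono (hζ' k).2) γ hγ τ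
  have e : ∀ z, Tq N q (prF φ) ζ z = mn (Xn q) fun ξ => prF φ ζ' (act (nu M q ξ) z) := fun z => by
    rw [Tq, mnB_apply]
    unfold mn
    refine congrArg (· / ((Xn q).card : ℝ)) (Finset.sum_congr rfl fun ξ hξ => ?_)
    have a1 := (nu_spec hM hq hc ((mem_Xn hq.pos).1 hξ)).1
    have a0 : 0 < (nu M q ξ).det := by rw [a1]; exact_mod_cast hq.pos
    beta_reduce
    rw [yab_pr, yab_pr]
    refine Finset.prod_congr rfl fun k _ => ?_
    obtain ⟨δ, hδ, e⟩ := h2 ξ hξ k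
    rw [e, act_mul (vact_SL_det δ) (by rw [Matrix.det_mul]; exact mul_pos (hζ' k).1 a0), act_SL,
      hφ k δ hδ, act_mul (hζ' k).1 a0]
  intro γ hγ z
  rw [e, e]
  exact yab_nu hM hq hc hg γ hγ z

omit [Fintype κ] [Nonempty κ] in
theorem yab_tuple {m M q : ℕ} {ζ : κ → M2} (hN : 0 < N) (hq : q.Prime) (hm : m < q) (hc : ¬ q ∣ M)
    (hζ : ∀ k, 0 < (ζ k).det ∧ N * (ζ k).det.natAbs ∣ M) (hr : NRel m ζ) (hc' : ¬ q ∣ N)
    {t : Fin 4 → Set V2} (ht : ∀ i, t i ∈ Xn q) (hi : Function.Injective t) :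
    (∀ i k, 0 < (up N q ζ (t i) k).det ∧ N * (up N q ζ (t i) k).det.natAbs ∣ M * q) ∧
      ∀ i k j l, (i, k) ≠ (j, l) → ¬ Rel m (up N q ζ (t i) k) (up N q ζ (t j) l) := by
  have hd : ∀ k, ¬ (q : ℤ) ∣ (ζ k).det := fun k => (yab_ndvd hc (hζ k).2).2
  have hA : ∀ k, Ad q (ζ k) := fun k => yab_ad hq (hζ k).1 (hd k)
  have hl : ∀ i, IsLn q (t i) := fun i => (mem_Xn hq.pos).1 (ht i)
  have hu := fun i k => up_spec (ζ := ζ) hN hq hc' (hl i) (hA k)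
  refine ⟨fun i k => ?_, fun i k j l hne hrel => ?_⟩
  · rw [(hu i k).1]
    refine ⟨mul_pos (by exact_mod_cast hq.pos) (hζ k).1, ?_⟩
    rw [Int.natAbs_mul, Int.natAbs_natCast, mul_comm q, ← mul_assoc]
    exact mul_dvd_mul_right (hζ k).2 q
  · by_cases hij : i = j
    · subst hij
      have hkl : k ≠ l := fun e => hne (by rw [e])
      exact hr k l hkl (Rel.strip hrel hq hm
        (nu_spec hN hq hc' ((hl i).img hq.pos (hA k).2)).1
        (nu_spec hN hq hc' ((hl i).img hq.pos (hA l).2)).1 (hd k) (hd l))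
    · have h1 := hrel.ker (e := 1) hq hm (by rw [pow_one]; exact (hu i k).1)
        (by rw [pow_one]; exact (hu j l).1) (hd k) (hd l)
      rw [pow_one, (hu i k).2, (hu j l).2] at h1
      exact hij (hi h1)

theorem sq_small (hN : 0 < N) (φ : κ → (ℍ →ᵇ ℝ)) (hφ : ∀ k, GInv N (φ k))
    (hb : ∀ k, ‖φ k‖ ≤ 1 / 2) {ε : ℝ} (hε : 0 < ε) : ∃ m : ℕ, ∀ (M q : ℕ) (ζ : κ → M2), 0 < M →
      q.Prime → m < q → ¬ q ∣ M → (∀ k, 0 < (ζ k).det ∧ N * (ζ k).det.natAbs ∣ M) → NRel m ζ →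
      IN M (sqF (Tq N q (prF φ)) (∏ k, IN N (φ k)) ζ *
        sqF (Tq N q (prF φ)) (∏ k, IN N (φ k)) ζ) ≤ ε := by
  obtain ⟨m₀, h₀⟩ := four_fold hN φ hφ hε
  refine ⟨max m₀ ⌈6 / ε⌉₊, fun M q ζ hM hq hm hc hζ hr => ?_⟩
  have hX := yab_ne hq
  have hMq : 0 < M * q := Nat.mul_pos hM hq.pos
  have hc' : ¬ q ∣ N := (yab_ndvd hc (hζ (Classical.arbitrary κ)).2).1
  have hG := yab_ginv hN hM hq hc hφ hζ
  obtain ⟨F, hF⟩ : ∃ F : Set V2 → (ℍ →ᵇ ℝ), ∀ ξ, F ξ = Fz N φ (up N q ζ ξ) := ⟨_, fun _ => rfl⟩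
  have e1 : ∀ z, Tq N q (prF φ) ζ z - ∏ k, IN N (φ k) = mn (Xn q) fun ξ => F ξ z := fun z => by
    have e2 : (fun ξ => F ξ z) = fun ξ => prF φ (up N q ζ ξ) z + -∏ k, IN N (φ k) :=
      funext fun ξ => by rw [hF, xke_apply, yab_pr, sub_eq_add_neg]
    rw [e2, mn_add, mn_const hX, Tq, mnB_apply, sub_eq_add_neg]
  have e3 : sqF (Tq N q (prF φ)) (∏ k, IN N (φ k)) ζ * sqF (Tq N q (prF φ)) (∏ k, IN N (φ k)) ζ =
      (1 / 4 : ℝ) • mnB (Xn q) fun a => mnB (Xn q) fun b => mnB (Xn q) fun d =>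
        mnB (Xn q) fun e => F a * F b * F d * F e := by
    ext z
    rw [BoundedContinuousFunction.mul_apply, yab_sqF, e1, BoundedContinuousFunction.smul_apply,
      smul_eq_mul]
    simp only [mnB_apply, BoundedContinuousFunction.mul_apply]
    rw [yab_four (Xn q) fun ξ => F ξ z]
    ring
  have hI : GInv M (sqF (Tq N q (prF φ)) (∏ k, IN N (φ k)) ζ *
      sqF (Tq N q (prF φ)) (∏ k, IN N (φ k)) ζ : ℍ →ᵇ ℝ) := fun γ hγ z => by
    rw [BoundedContinuousFunction.mul_apply, BoundedContinuousFunction.mul_apply, yab_sqF, yab_sqF,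
      hG γ hγ z]
  rw [← IN_level hM hMq (dvd_mul_right M q) hI, e3, IN_smul]
  simp only [IN_mnB hMq]
  have h1 := yab_nest hX (G := fun a b d e => IN (M * q) (F a * F b * F d * F e)) hε.le
    (fun a ha b hb' d hd e he n1 n2 n3 n4 n5 n6 => by
      obtain ⟨t1, t2⟩ := yab_tuple hN hq ((le_max_left _ _).trans_lt hm) hc hζ
        (fun k l hkl h => hr k l hkl (h.mono (le_max_left _ _))) hc' (yab_mem ha hb' hd he)
        (yab_inj n1 n2 n3 n4 n5 n6)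
      have h2 := h₀ (M * q) (fun i => up N q ζ (![a, b, d, e] i)) hMq t1 t2
      rw [Fin.prod_univ_four] at h2
      rw [hF, hF, hF, hF]
      exact (le_abs_self _).trans h2)
    (fun a _ b _ d _ e _ => by
      refine (IN_mono hMq (g := BoundedContinuousFunction.const ℍ 1) fun z => ?_).trans
        (IN_const hMq 1).le
      have h3 : ∀ ξ, |F ξ z| ≤ 1 := fun ξ => by
        rw [hF]
        exact abs_Fz_le hN hb _ z
      simp only [BoundedContinuousFunction.mul_apply, BoundedContinuousFunction.const_apply]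
      refine (le_abs_self _).trans ?_
      rw [abs_mul, abs_mul, abs_mul]
      exact mul_le_one₀ (mul_le_one₀ (mul_le_one₀ (h3 a) (abs_nonneg _) (h3 b)) (abs_nonneg _)
        (h3 d)) (abs_nonneg _) (h3 e))
  have h4 : (6 : ℝ) / (Xn q).card ≤ ε := by
    have h5 : (0 : ℝ) < (Xn q).card := by exact_mod_cast hX.card_pos
    have h6 : ((⌈6 / ε⌉₊ : ℕ) : ℝ) ≤ (Xn q).card := by
      exact_mod_cast ((le_max_right _ _).trans hm.le).trans (yab_card hq)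
    have h7 := (div_le_iff₀ hε).1 ((Nat.le_ceil _).trans h6)
    rw [div_le_iff₀ h5]
    linarith
  linarith

theorem tq_small (hN : 0 < N) (φ : κ → (ℍ →ᵇ ℝ)) (hφ : ∀ k, GInv N (φ k))
    (hb : ∀ k, ‖φ k‖ ≤ 1 / 2) {K : ℝ} (hK : 0 < K) (hl : ∀ k, Lip K (φ k)) (U : ℝ) {ε : ℝ}
    (hε : 0 < ε) : ∃ m a : ℕ, ∀ (M q₀ q : ℕ) (ζ : κ → M2), 0 < M → q₀.Prime → q.Prime → q₀ ≠ q →
      m < q₀ → m < q → ¬ q₀ ∣ M → ¬ q ∣ M → M ^ a ≤ q →
      (∀ k, 0 < (ζ k).det ∧ N * (ζ k).det.natAbs ∣ M) → NRel m ζ → ∀ (γ : SL(2, ℤ)) (z : ℍ),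
      γ • z ∈ KU U → Tq N q (sqF (Tq N q₀ (prF φ)) (∏ k, IN N (φ k))) ζ z ≤ ε := by
  have hκ : (0 : ℝ) < Fintype.card κ := by exact_mod_cast Fintype.card_pos
  have hK' : 0 < Fintype.card κ * K := mul_pos hκ hK
  obtain ⟨ε', a, l₀, h0, hp⟩ := he_point6 U (ω := fun ε => ε / (Fintype.card κ * K))
    (fun ε hε => div_pos hε hK') hε
  obtain ⟨m₁, h₁⟩ := sq_small hN φ hφ hb h0
  refine ⟨max m₁ l₀, a, fun M q₀ q ζ hM hq₀ hq hne hm₀ hm hc₀ hc hMa hζ hr γ z hz => ?_⟩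
  have hN₀ : ¬ q₀ ∣ N := (yab_ndvd hc₀ (hζ (Classical.arbitrary κ)).2).1
  have hNq : ¬ q ∣ N := (yab_ndvd hc (hζ (Classical.arbitrary κ)).2).1
  have hF : Fam N q₀ (Fintype.card κ * K) (sqF (Tq N q₀ (prF φ)) (∏ k, IN N (φ k))) := by
    have h2 := (fam_pr hφ hb hK.le hl le_rfl).tq hK'.le hN hq₀ hN₀ (Nat.coprime_one_right q₀)
    rw [one_mul] at h2
    exact h2.sq (xke_half fun k => (abs_IN_le hN _).trans (hb k))
  obtain ⟨ζ', t1, t2⟩ := exists_twist hN hM hq hc hζ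
  have hζ' : ∀ k, 0 < (ζ' k).det ∧ N * (ζ' k).det.natAbs ∣ M := fun k => by
    rw [t1 k]
    exact hζ k
  have hA : ∀ k, Ad q₀ (ζ' k) := fun k => yab_ad hq₀ (hζ' k).1 (yab_ndvd hc₀ (hζ' k).2).2
  have hr' : NRel m₁ ζ' := fun k l hkl hrel => by
    obtain ⟨ξ, hξ⟩ := yab_ne hq
    have hL := (mem_Xn hq.pos).1 hξ
    obtain ⟨δ, -, e⟩ := t2 ξ hξ k
    obtain ⟨δ', -, e'⟩ := t2 ξ hξ l
    have hd : ∀ k, ¬ (q : ℤ) ∣ (ζ k).det := fun k => (yab_ndvd hc (hζ k).2).2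
    have h2 : Rel m₁ (up N q ζ ξ k) (up N q ζ ξ l) := by
      obtain ⟨s, t, X, hs, ht, x1, x2, x3⟩ := hrel
      have x4 : ((δ : M2) * X * ((δ'⁻¹ : SL(2, ℤ)) : M2)).det = X.det := by
        rw [Matrix.det_mul, Matrix.det_mul, δ.det_coe, (δ'⁻¹).det_coe, one_mul, mul_one]
      have x5 : ((δ'⁻¹ : SL(2, ℤ)) : M2) * (δ' : M2) = 1 := by
        rw [← Matrix.SpecialLinearGroup.coe_mul, inv_mul_cancel, Matrix.SpecialLinearGroup.coe_one]
      refine ⟨s, t, _, hs, ht, x4 ▸ x1, x4 ▸ x2, ?_⟩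
      rw [e, e', mul_assoc ((δ : M2) * X), ← mul_assoc ((δ'⁻¹ : SL(2, ℤ)) : M2), x5, one_mul,
        ← mul_smul_comm, ← smul_mul_assoc, x3, smul_mul_assoc, mul_smul_comm, mul_assoc, mul_assoc]
    exact hr k l hkl ((Rel.strip h2 hq ((le_max_left _ _).trans_lt hm)
      (nu_spec hN hq hNq (hL.img hq.pos (yab_ad hq (hζ k).1 (hd k)).2)).1
      (nu_spec hN hq hNq (hL.img hq.pos (yab_ad hq (hζ l).1 (hd l)).2)).1 (hd k) (hd l)).mono
        (le_max_left _ _))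
  have hI := h₁ M q₀ ζ' hM hq₀ ((le_max_left _ _).trans_lt hm₀) hc₀ hζ' hr'
  have hb' := hF.bd ζ'
  have hlip := (hF.lip ζ').eqC hK'
  have hg := hF.ginv (M := M) fun k => ⟨hA k, (hζ' k).2⟩
  have e1 : ∀ ξ ∈ Xn q, sqF (Tq N q₀ (prF φ)) (∏ k, IN N (φ k)) (up N q ζ ξ) z =
      sqF (Tq N q₀ (prF φ)) (∏ k, IN N (φ k)) ζ' (act (nu M q ξ) z) := fun ξ hξ => by
    choose δ hδ e using t2 ξ hξ
    have a1 := (nu_spec hM hq hc ((mem_Xn hq.pos).1 hξ)).1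
    have a2 : Ad q₀ (nu M q ξ) := by
      refine yab_ad hq₀ (by rw [a1]; exact_mod_cast hq.pos) ?_
      rw [a1, Int.natCast_dvd_natCast]
      exact fun h => hne ((Nat.prime_dvd_prime_iff_eq hq₀ hq).1 h)
    rw [funext e, hF.inv (fun k => ζ' k * nu M q ξ) δ (fun k => ?_) hδ, hF.mul ζ' _ hA a2]
    refine ⟨?_, ?_⟩
    · rw [Matrix.det_mul]
      exact mul_pos (hA k).1 a2.1
    · rw [Matrix.det_mul]
      exact (hA k).2.mul_left a2.2
  rw [Tq, mnB_apply]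
  generalize sqF (Tq N q₀ (prF φ)) (∏ k, IN N (φ k)) = G at hI hb' hlip hg e1 ⊢
  have hγ1 : IsCoprime (γ : M2).det q := by
    rw [γ.det_coe]
    exact isCoprime_one_left
  have x5 : (γ : M2) * ((γ⁻¹ : SL(2, ℤ)) : M2) = 1 := by
    rw [← Matrix.SpecialLinearGroup.coe_mul, mul_inv_cancel, Matrix.SpecialLinearGroup.coe_one]
  have hs := fun L (hL : L ∈ Xn q) => nu_spec hM hq hc (((mem_Xn hq.pos).1 hL).pl hq.pos hγ1)
  have h3 := hp M (G ζ') hM hg (fun w => (hb' w).trans (by norm_num)) hlip hI q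
    (!![1, 0; 0, (q : ℤ)] * ((γ⁻¹ : SL(2, ℤ)) : M2)) hq ((le_max_right _ _).trans hm.le) hc hMa
    (γ • z) hz (fun L => nu M q (pl (γ : M2) L) * ((γ⁻¹ : SL(2, ℤ)) : M2)) fun L hL => by
      obtain ⟨a1, a2, a3⟩ := hs L hL
      refine ⟨by rw [Matrix.det_mul, a1, (γ⁻¹).det_coe, mul_one], ?_, ?_⟩
      · rw [Ker_mul_pl, a2, ← pl_mul, x5]
        ext v
        show (1 : M2) *ᵥ v ∈ L ↔ v ∈ L
        rw [Matrix.one_mulVec]
      · obtain ⟨Y, hY⟩ := xla_ex.1 a3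
        refine xla_ex.2 ⟨Y * ((γ⁻¹ : SL(2, ℤ)) : M2), ?_⟩
        rw [← sub_mul, hY, smul_mul_assoc]
  refine le_trans (le_of_eq ?_) ((le_abs_self _).trans h3)
  unfold mn
  refine congrArg (· / ((Xn q).card : ℝ)) ?_
  rw [Finset.sum_congr rfl e1, ← sum_Xn_pull hq.pos hγ1 fun ξ => G ζ' (act (nu M q ξ) z)]
  refine Finset.sum_congr rfl fun L hL => ?_
  beta_reduce
  rw [act_mul (by rw [(hs L hL).1]; exact_mod_cast hq.pos) (vact_SL_det _), act_SL, inv_smul_smul]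
  rfl

end Pool.Agent.EQ
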