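import Pool.Agent.P.MP_ad7a55_nt.XBc

/-! Equal directions with an explicit class number constant. -/

set_option autoImplicit false

noncomputable section

open MeasureTheory Topology Filter UpperHalfPlane
open scoped MatrixGroups BoundedContinuousFunction Matrix Classical

namespace Pool.Agent.EQ

theorem lin_orb6 (U : ℝ) : ∃ (K Y : ℝ) (A : ℕ), 0 < K ∧ ∀ (L : ℝ) (n : ℕ) (τ : Fin n → ℍ)
    (D : Fin n → ℤ), (∀ k, HasDisc (τ k) (D k)) → ∀ (c : Fin n) (E b : ℤ) (S : Finset ℕ)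
    (k : ℕ → ℕ), Y ≤ -(D c : ℝ) → Low L (D c) → Fit E (D c) →
    (∀ l ∈ S, l.Prime ∧ ¬ (l : ℤ) ∣ 2 * E ∧ 0 < k l ∧ (l : ℤ) ^ k l ∣ b ^ 2 - E) →
    ∑ l ∈ S, (l : ℝ) ^ (-(1 / 4 : ℝ)) ≤ 1 → ((∏ l ∈ S, l ^ k l : ℕ) : ℤ) ^ 400 ≤ -D c →
    (((Orb τ ×ˢ Orb τ).filter fun z => fr (z.1 c) ∈ KU U ∧ fr (z.2 c) ∈ KU U ∧
      ∀ l ∈ S, Ker (l ^ k l) (AA E b (fr (z.1 c))) = Ker (l ^ k l) (AA E b (fr (z.2 c)))).card : ℝ) ≤
      K * (L ^ 2 + 1) * Real.log (-(D c : ℝ)) ^ A / (∏ l ∈ S, l ^ k l : ℕ) *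
        ((Orb τ).card : ℝ) ^ 2 := by
  obtain ⟨K, Y, A, hK, H⟩ := levP_le (4 * U ^ 2)
  refine ⟨225 * K, max Y 577, A, by positivity,
    fun L n τ D hτ c E b S k hY hL hF hS hsum hQ => ?_⟩
  obtain ⟨f, hf, rfl⟩ := hF
  have hD := (hτ c).isD
  have h576 : D c < -576 := by
    have : (577 : ℝ) ≤ -(D c : ℝ) := (le_max_right _ _).trans hY
    have : (577 : ℤ) ≤ -D c := by exact_mod_cast this
    omega
  have hcl : ∀ l ∈ S, IsCoprime (l : ℤ) (2 * (f ^ 2 * D c)) := fun l hl =>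
    ((Nat.prime_iff_prime_int.1 (hS l hl).1).irreducible.coprime_iff_not_dvd).2 (hS l hl).2.1
  have hQ0 : 0 < ∏ l ∈ S, l ^ k l := Finset.prod_pos fun l hl => pow_pos (hS l hl).1.pos _
  have hc : IsCoprime ((∏ l ∈ S, l ^ k l : ℕ) : ℤ) (2 * (f ^ 2 * D c)) := by
    push_cast
    exact IsCoprime.prod_left fun l hl => (hcl l hl).pow_left
  have hcop : ∀ a ∈ S, ∀ a' ∈ S, a ≠ a' → IsCoprime ((a : ℤ) ^ k a) ((a' : ℤ) ^ k a') :=
    fun a ha a' ha' hne => (Nat.isCoprime_iff_coprime.2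
      ((Nat.coprime_primes (hS a ha).1 (hS a' ha').1).2 hne)).pow
  have hb : ((∏ l ∈ S, l ^ k l : ℕ) : ℤ) ∣ b ^ 2 - f ^ 2 * D c := by
    push_cast
    exact Finset.prod_dvd_of_coprime (fun a ha a' ha' hne => hcop a ha a' ha' hne)
      fun l hl => (hS l hl).2.2.2
  have hker : ∀ (η : M2) (v : V2), v ∈ Ker (∏ l ∈ S, l ^ k l) η ↔ ∀ l ∈ S, v ∈ Ker (l ^ k l) η := by
    intro η v
    refine ⟨fun hv l hl => Ker_anti (Finset.dvd_prod_of_mem _ hl) η hv, fun hv i => ?_⟩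
    push_cast
    exact Finset.prod_dvd_of_coprime (fun a ha a' ha' hne => hcop a ha a' ha' hne)
      fun l hl => by exact_mod_cast hv l hl i
  have hJ : ∀ l ∈ S, l.Prime ∧ l ≠ 2 ∧ jacobiSym (D c) l = 1 ∧ 0 < k l := fun l hl => by
    obtain ⟨u1, u2, u3, u4⟩ := hS l hl
    refine ⟨u1, ?_, ?_, u3⟩
    · rintro rfl
      exact u2 (Dvd.intro _ rfl)
    have u5 : (l : ℤ) ∣ b ^ 2 - f ^ 2 * D c := (dvd_pow_self _ u3.ne').trans u4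
    have u6 : IsCoprime (l : ℤ) (f ^ 2 * D c) := (hcl l hl).of_mul_right_right
    have u7 : IsCoprime (l : ℤ) (b ^ 2) := by
      obtain ⟨w, hw⟩ := u5
      rw [show b ^ 2 = f ^ 2 * D c + l * w by linear_combination hw]
      exact u6.add_mul_left_right w
    have e1 : jacobiSym ((f : ℤ) ^ 2 * D c) l = jacobiSym (b ^ 2) l :=
      jacobiSym.mod_left' (Int.modEq_iff_dvd.2 u5)
    rw [jacobiSym.mul_left, jacobiSym.sq_one' (Int.isCoprime_iff_gcd_eq_one.1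
      ((IsCoprime.pow_right_iff two_pos).1 u6.of_mul_right_left).symm),
      jacobiSym.sq_one' (Int.isCoprime_iff_gcd_eq_one.1
      ((IsCoprime.pow_right_iff two_pos).1 u7).symm), one_mul] at e1
    exact e1
  obtain ⟨b₀, h₀, h₁⟩ : ∃ b₀ : ℤ, 2 ∣ b₀ - D c ∧ ((∏ l ∈ S, l ^ k l : ℕ) : ℤ) ∣ f * b₀ + b := by
    generalize ((∏ l ∈ S, l ^ k l : ℕ) : ℤ) = q at hc
    obtain ⟨x, y, e⟩ := hc
    refine ⟨-(y * 2 * f * D c * b) + x * q * D c, ⟨-(y * f * D c * b) - y * f ^ 2 * D c ^ 2, ?_⟩,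
      ⟨x * b + f * x * D c, ?_⟩⟩
    · linear_combination D c * e
    · linear_combination -b * e
  have a1 := H (D c) b₀ S k hD ((le_max_left _ _).trans hY) hJ hsum hQ
  have a2 := orbit_two ⊥ hτ c h576 (LevP_finite (∏ l ∈ S, l ^ k l) b₀ (4 * U ^ 2) (D c))
  rw [IntermediateField.finrank_bot, ← galO_eq, ← card_fO (galO _ _)] at a2
  have a3 := hL _ hD ⟨_, rfl⟩
  have a4 := tfc_HH hD
  have hO := orbit_finite ⊥ hτ
  refine (fun (H : ∀ T : Finset ((Fin n → ℂ) × (Fin n → ℂ)), (∀ z ∈ T,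
    (z.1 ∈ Orb τ ∧ z.2 ∈ Orb τ) ∧ fr (z.1 c) ∈ KU U ∧ fr (z.2 c) ∈ KU U ∧ ∀ l ∈ S,
      Ker (l ^ k l) (AA (f ^ 2 * D c) b (fr (z.1 c))) =
        Ker (l ^ k l) (AA (f ^ 2 * D c) b (fr (z.2 c)))) → (T.card : ℝ) ≤ _) =>
    H _ fun z hz => by simpa only [Finset.mem_filter, Finset.mem_product] using hz) fun T hT => ?_
  have a5 : T.card ≤ {w : (Fin n → ℂ) × (Fin n → ℂ) | w.1 ∈ (galO ⊥ fun k => jInv (τ k)) ∧
      w.2 ∈ (galO ⊥ fun k => jInv (τ k)) ∧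
      (w.1 c, w.2 c) ∈ LevP (∏ l ∈ S, l ^ k l) b₀ (4 * U ^ 2) (D c)}.ncard := by
    rw [← Set.ncard_coe_finset]
    refine Set.ncard_le_ncard (fun z hz => ?_)
      ((hO.prod hO).subset fun z hz => ⟨hz.1, hz.2.1⟩)
    obtain ⟨⟨z1, z2⟩, z3, z4, z5⟩ := hT z hz
    refine ⟨(mem_fO hO).1 z1, (mem_fO hO).1 z2, ?_⟩
    have := lev_of_dir (Orb_disc hτ z1 h576) (Orb_disc hτ z2 h576) hf z3 z4 hQ0 hc hb h₀ h₁
      (Set.ext fun v => by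
        rw [hker, hker]
        exact forall₂_congr fun l hl => by rw [z5 l hl])
    rwa [(fr_spec _).2, (fr_spec _).2] at this
  have a6 : (T.card : ℝ) * (Cl (D c)).ncard ^ 2 ≤ _ :=
    le_trans (mul_le_mul_of_nonneg_right (by exact_mod_cast a5) (by positivity)) a2
  have a7 : HH (D c) ^ 2 ≤ (L ^ 2 + 1) * (Cl (D c)).ncard ^ 2 := by
    have := pow_le_pow_left₀ a4.le a3 2
    rw [mul_pow] at this
    nlinarith [sq_nonneg ((Cl (D c)).ncard : ℝ)]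
  refine le_of_mul_le_mul_right ?_ (pow_pos a4 2)
  calc (T.card : ℝ) * HH (D c) ^ 2 ≤ T.card * ((L ^ 2 + 1) * (Cl (D c)).ncard ^ 2) := by gcongr
    _ = (L ^ 2 + 1) * (T.card * (Cl (D c)).ncard ^ 2) := by ring
    _ ≤ (L ^ 2 + 1) * ((15 * (1 : ℕ)) ^ 2 * (K * Real.log (-(D c : ℝ)) ^ A /
        (∏ l ∈ S, l ^ k l : ℕ) * HH (D c) ^ 2) * ((Orb τ).card : ℝ) ^ 2) := by
        refine mul_le_mul_of_nonneg_left (a6.trans ?_) (by positivity)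
        unfold Orb
        gcongr
    _ = _ := by push_cast; ring

theorem ybc_adj {τ : ℍ} {D E : ℤ} (h : HasDisc τ D) (hf : Fit E D) (b : ℤ) :
    (AA E b τ).adjugate = -(AA E (-b) τ) := by
  have h2 := (AA_det h hf 0).2
  rw [AA, Matrix.trace_fin_two] at h2
  simp only [zero_smul, add_zero, mul_zero] at h2
  rw [Matrix.adjugate_fin_two]
  ext i j
  fin_cases i <;> fin_cases j <;> simp [AA, Matrix.intCast_apply] <;> linarith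

theorem ybc_neg (l : ℕ) (η : M2) : Ker l (-η) = Ker l η := by
  ext v
  simp only [Ker, Set.mem_ofPred_eq, Matrix.neg_mulVec, Pi.neg_apply, dvd_neg]

theorem ybc_mod {l : ℕ} {E b b' : ℤ} (τ : ℍ) (h : (l : ℤ) ∣ b' - b) :
    Ker l (AA E b' τ) = Ker l (AA E b τ) := by
  ext v
  have e : ∀ i, (AA E b' τ *ᵥ v) i = (AA E b τ *ᵥ v) i + (b' - b) * v i := fun i => by
    simp only [AA, Matrix.add_mulVec, Matrix.smul_mulVec, Matrix.one_mulVec, Pi.add_apply,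
      Pi.smul_apply, smul_eq_mul]
    ring
  simp only [Ker, Set.mem_ofPred_eq, e]
  exact forall_congr' fun i => dvd_add_left (h.mul_right _)

theorem lin_mix (U : ℝ) : ∃ (K Y : ℝ) (A : ℕ), 0 < K ∧ ∀ (L : ℝ) (n : ℕ) (τ : Fin n → ℍ)
    (D : Fin n → ℤ), (∀ k, HasDisc (τ k) (D k)) → ∀ (c : Fin n) (E b : ℤ) (β β' : Finset ℕ),
    Y ≤ -(D c : ℝ) → Low L (D c) → Fit E (D c) → Disjoint β β' →
    (∀ l ∈ β ∪ β', l.Prime ∧ ¬ (l : ℤ) ∣ 2 * E ∧ (l : ℤ) ∣ b ^ 2 - E) →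
    ∑ l ∈ β ∪ β', (l : ℝ) ^ (-(1 / 4 : ℝ)) ≤ 1 → ((∏ l ∈ β ∪ β', l : ℕ) : ℤ) ^ 400 ≤ -D c →
    (((Orb τ ×ˢ Orb τ).filter fun z => fr (z.1 c) ∈ KU U ∧ fr (z.2 c) ∈ KU U ∧
      (∀ l ∈ β, Ker l (AA E b (fr (z.1 c))).adjugate = Ker l (AA E b (fr (z.2 c))).adjugate) ∧
      ∀ l ∈ β', Ker l (AA E b (fr (z.1 c))) = Ker l (AA E b (fr (z.2 c)))).card : ℝ) ≤
      K * (L ^ 2 + 1) * Real.log (-(D c : ℝ)) ^ A / ((∏ l ∈ β, l : ℕ) * (∏ l ∈ β', l : ℕ)) *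
        ((Orb τ).card : ℝ) ^ 2 := by
  obtain ⟨K, Y, A, hK, H⟩ := lin_orb6 U
  refine ⟨K, max Y 577, A, hK, fun L n τ D hτ c E b β β' hY hL hF hd hS hsum hQ => ?_⟩
  have h576 : D c < -576 := by
    have : (577 : ℝ) ≤ -(D c : ℝ) := (le_max_right _ _).trans hY
    have : (577 : ℤ) ≤ -D c := by exact_mod_cast this
    omega
  have hcop : IsCoprime (∏ l ∈ β, (l : ℤ)) (∏ l ∈ β', (l : ℤ)) :=
    IsCoprime.prod_left fun a ha => IsCoprime.prod_right fun a' ha' =>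
      Nat.isCoprime_iff_coprime.2 ((Nat.coprime_primes (hS a (Finset.mem_union_left _ ha)).1
        (hS a' (Finset.mem_union_right _ ha')).1).2 fun e =>
          Finset.disjoint_left.1 hd ha (e ▸ ha'))
  obtain ⟨b', h1, h2⟩ : ∃ b' : ℤ, (∀ l ∈ β, (l : ℤ) ∣ b' - -b) ∧ ∀ l ∈ β', (l : ℤ) ∣ b' - b := by
    obtain ⟨x, y, e⟩ := hcop
    refine ⟨b * x * (∏ l ∈ β, (l : ℤ)) - b * y * ∏ l ∈ β', (l : ℤ), fun l hl => ?_, fun l hl => ?_⟩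
    · refine (Finset.dvd_prod_of_mem (fun l : ℕ => (l : ℤ)) hl).trans ⟨2 * b * x, ?_⟩
      linear_combination -b * e
    · refine (Finset.dvd_prod_of_mem (fun l : ℕ => (l : ℤ)) hl).trans ⟨-2 * b * y, ?_⟩
      linear_combination b * e
  have a1 := H L n τ D hτ c E b' (β ∪ β') (fun _ => 1) ((le_max_left _ _).trans hY) hL hF
    (fun l hl => by
      obtain ⟨u1, u2, u3⟩ := hS l hl
      refine ⟨u1, u2, one_pos, ?_⟩
      rw [pow_one]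
      rcases Finset.mem_union.1 hl with hl | hl
      · have := dvd_add u3 ((h1 l hl).mul_right (b' - b))
        rwa [show b ^ 2 - E + (b' - -b) * (b' - b) = b' ^ 2 - E by ring] at this
      · have := dvd_add u3 ((h2 l hl).mul_right (b' + b))
        rwa [show b ^ 2 - E + (b' - b) * (b' + b) = b' ^ 2 - E by ring] at this)
    hsum (by simpa only [pow_one] using hQ)
  simp only [pow_one] at a1
  rw [Finset.prod_union hd, Nat.cast_mul] at a1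
  refine le_trans ?_ a1
  rw [Nat.cast_le]
  refine Finset.card_le_card fun z hz => ?_
  simp only [Finset.mem_filter, Finset.mem_product] at hz ⊢
  obtain ⟨⟨z1, z2⟩, z3, z4, z5, z6⟩ := hz
  refine ⟨⟨z1, z2⟩, z3, z4, fun l hl => ?_⟩
  rcases Finset.mem_union.1 hl with hl | hl
  · have := z5 l hl
    rw [ybc_adj (Orb_disc hτ z1 h576) hF, ybc_adj (Orb_disc hτ z2 h576) hF, ybc_neg,
      ybc_neg] at this
    rw [ybc_mod _ (h1 l hl), ybc_mod _ (h1 l hl), this]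
  · rw [ybc_mod _ (h2 l hl), ybc_mod _ (h2 l hl), z6 l hl]

theorem AA_line_adj {τ : ℍ} {D E b : ℤ} {l : ℕ} (h : HasDisc τ D) (hf : Fit E D) (hl : 0 < l)
    (hc : IsCoprime (l : ℤ) (2 * E)) (hb : (l : ℤ) ∣ b ^ 2 - E) :
    IsLn l (Ker l (AA E b τ).adjugate) := by
  rw [ybc_adj h hf, ybc_neg]
  exact AA_line h hf hl hc (by rwa [neg_sq])

/-- Little mass in the cusp for the discriminant `D`. -/
def Tg (Uf Yf : ℝ → ℝ) (D : ℤ) : Prop :=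
  ∀ δ : ℝ, 0 < δ → Yf δ ≤ -(D : ℝ) → ∀ (n : ℕ) (τ : Fin n → ℍ) (D' : Fin n → ℤ),
    (∀ k, HasDisc (τ k) (D' k)) → ∀ c : Fin n, D' c = D →
      prb (Orb τ) (fun x => fr (x c) ∉ KU (Uf δ)) ≤ δ

theorem Tg.mono {Uf Yf Uf' Yf' : ℝ → ℝ} {D : ℤ} (h : Tg Uf Yf D) (hU : ∀ δ, Uf δ ≤ Uf' δ)
    (hY : ∀ δ, Yf δ ≤ Yf' δ) : Tg Uf' Yf' D := by
  intro δ hδ hD n τ D' hτ c hc
  refine le_trans ?_ (h δ hδ ((hY δ).trans hD) n τ D' hτ c hc)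
  unfold prb
  refine div_le_div_of_nonneg_right ?_ (Nat.cast_nonneg _)
  rw [Nat.cast_le]
  refine Finset.card_le_card fun z hz => ?_
  simp only [Finset.mem_filter] at hz ⊢
  exact ⟨hz.1, fun hm => hz.2 ⟨hm.1, hm.2.trans (hU δ)⟩⟩

theorem tg_of_low (L : ℝ) : ∃ Uf Yf : ℝ → ℝ, (∀ δ, 1 ≤ Uf δ) ∧ ∀ D : ℤ, Low L D → Tg Uf Yf D := by
  have H : ∀ δ : ℝ, ∃ U Y : ℝ, 1 ≤ U ∧ (0 < δ → ∀ (n : ℕ) (τ : Fin n → ℍ)
      (D : Fin n → ℤ), (∀ k, HasDisc (τ k) (D k)) → ∀ c : Fin n, Y ≤ -(D c : ℝ) → Low L (D c) →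
      prb (Orb τ) (fun x => fr (x c) ∉ KU U) ≤ δ) := fun δ => by
    by_cases hδ : 0 < δ
    · obtain ⟨U, Y, h1, h2⟩ := tight_orb L hδ
      exact ⟨U, Y, h1, fun _ => h2⟩
    · exact ⟨1, 0, le_rfl, fun h => absurd h hδ⟩
  choose Uf Yf h1 h2 using H
  refine ⟨Uf, Yf, h1, fun D hL δ hδ hY n τ D' hτ c hc => ?_⟩
  subst hc
  exact h2 δ hδ n τ D' hτ c hY hL

end Pool.Agent.EQ
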