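import Pool.Agent.P.MP_ad7a55_nt.XBe

/-! Relations between two coordinates with an explicit class number constant. -/

set_option autoImplicit false

noncomputable section

open MeasureTheory Topology Filter UpperHalfPlane
open scoped MatrixGroups BoundedContinuousFunction Matrix Classical

namespace Pool.Agent.EQ

theorem xc_one6 (U : ℝ) (hU : 1 ≤ U) : ∃ (K : ℝ) (A R₀ : ℕ), 0 < K ∧ ∀ (L : ℝ) (n : ℕ)
    (τ : Fin n → ℍ) (D : Fin n → ℤ), (∀ k, HasDisc (τ k) (D k)) → ∀ (k l : Fin n) (E b : ℤ)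
    (β : Finset ℕ) (δ R : ℕ) (Z Λ : ℝ), Low L (D k) → Fit E (D k) → Fit E (D l) → β.Nonempty →
    (∀ p ∈ β, p.Prime ∧ ¬ (p : ℤ) ∣ 2 * E * δ ∧ (p : ℤ) ∣ b ^ 2 - E) →
    ∑ p ∈ β, (p : ℝ) ^ (-(1 / 4 : ℝ)) ≤ 1 → 1 ≤ Z → 0 < δ → δ ≤ R → R₀ * Z ^ 2 ≤ R →
    (∏ p ∈ β, p) ^ 200 ≤ R → (R : ℤ) ^ 3 ≤ -D k → (R : ℤ) ^ 3 ≤ -D l → 1 ≤ Λ →
    Real.log (-(D k : ℝ)) ≤ Λ → Real.log (-(D l : ℝ)) ≤ Λ →
    (∀ d, 0 < d → d ≤ R ^ 3 → ¬ Ig d (jInv (τ k)) (jInv (τ l))) →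
    prb (Orb τ) (fun x => fr (x k) ∈ KU U ∧ fr (x l) ∈ KU U ∧ ∃ X : M2, X.det.natAbs = δ ∧
      (∀ i j, |(X i j : ℝ)| ≤ Z) ∧ ∀ p ∈ β, ∀ v ∈ Ker p (AA E b (fr (x k))),
        X *ᵥ v ∈ Ker p (AA E b (fr (x l)))) ≤
      K * (|L| + 1) * Λ ^ A * Z ^ 2 * (δ : ℝ) ^ 4 / (∏ p ∈ β, p : ℕ) := by
  obtain ⟨K, A, R₁, hK, hxs⟩ := xs_le
  refine ⟨60 * (K * (100 * U ^ 5) * 3 ^ A), A, max (max R₁ 577) ⌈100 * U ^ 5⌉₊,
    by positivity, fun L n τ D hτ k l E b β δ R Z Λ hL ⟨f, hf, hE⟩ ⟨f', hf', hE'⟩ hβ hp hs hZ hδ hδR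
      hR hq bk bl hΛ lk ll hI => ?_⟩
  have Z1 : 1 ≤ Z ^ 2 := one_le_pow₀ hZ
  have U1 : 1 ≤ U ^ 5 := one_le_pow₀ hU
  have C1 : 1 ≤ 100 * U ^ 5 * Z ^ 2 := one_le_mul_of_one_le_of_one_le (by linarith) Z1
  have hR0 : max (max R₁ 577) ⌈100 * U ^ 5⌉₊ ≤ R :=
    (Nat.cast_le (α := ℝ)).1 ((le_mul_of_one_le_right (Nat.cast_nonneg _) Z1).trans hR)
  have R1 : R₁ ≤ R := by omega
  have R2 : (577 : ℤ) ≤ R := by omega
  have R3 : 100 * U ^ 5 * Z ^ 2 ≤ R := le_trans (mul_le_mul_of_nonneg_right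
    ((Nat.le_ceil _).trans (Nat.cast_le.2 (le_max_right _ _))) (by positivity)) hR
  have R4 : (R : ℤ) ≤ R ^ 3 := le_self_pow₀ (by omega) (by norm_num)
  have R5 : (R : ℤ) ^ 2 ≤ R ^ 3 := pow_le_pow_right₀ (by omega) (by norm_num)
  have d2 : (δ : ℤ) ^ 2 ≤ R ^ 2 := pow_le_pow_left₀ (by positivity) (by exact_mod_cast hδR) 2
  have ck : D k < -576 := by omega
  have cl : D l < -576 := by omega
  have q0 : 0 < ∏ p ∈ β, p := Finset.prod_pos fun p h => (hp p h).1.pos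
  have hqc : IsCoprime ((∏ p ∈ β, p : ℕ) : ℤ) (2 * E * δ) := by
    rw [Nat.cast_prod]
    exact IsCoprime.prod_left fun p h =>
      (Nat.prime_iff_prime_int.1 (hp p h).1).coprime_iff_not_dvd.2 (hp p h).2.1
  have hqb : ((∏ p ∈ β, p : ℕ) : ℤ) ∣ b ^ 2 - E := by
    rw [Nat.cast_prod]
    exact Finset.prod_dvd_of_coprime (fun a ha c hc hac => Nat.isCoprime_iff_coprime.2
      ((Nat.coprime_primes (hp a ha).1 (hp c hc).1).2 hac)) fun p h => (hp p h).2.2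
  obtain ⟨m, hm⟩ : ∃ m : ℝ, m = K * (100 * U ^ 5 * Z ^ 2) * (3 * Λ) ^ A / (∏ p ∈ β, p : ℕ) :=
    ⟨_, rfl⟩
  have m0 : 0 < m := by rw [hm]; positivity
  have key : ∀ h ∈ Hn δ, prb (Orb τ) (fun x => ∃ σ : ℂ ≃+* ℂ, (x = fun i => σ (jInv (τ i))) ∧
      ∃ g ∈ Hn δ, σ (jInv (act h (τ l))) = jInv (act g (fr (x l))) ∧ ∃ s : ℤ, (s = 1 ∨ s = -1) ∧
      ∀ (E' b₀ : ℤ) (g₁ g₂ : ℕ), IsD E' → g₁.Coprime g₂ → D k = g₁ ^ 2 * E' →
        HasDisc (act g (fr (x l))) (g₂ ^ 2 * E') → 2 ∣ b₀ - E' →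
        ((∏ p ∈ β, p : ℕ) : ℤ) ∣ f * g₁ * b₀ + b →
        (x k, jInv (act g (fr (x l)))) ∈ XS s (100 * U ^ 5 * Z ^ 2) (∏ p ∈ β, p) b₀ E' g₁ g₂
          (jL (sp 1 (act g (fr (x l))) * cj (sp 1 (fr (x k)))))) ≤
      60 * (|L| + 1) * m * (δ : ℝ) ^ 2 := by
    intro h hh
    have hd := (mem_Hn hh).2
    obtain ⟨D', a', ⟨f₁, hf₁, e₁⟩, a₂⟩ := act_disc (hτ l) hδ hd
    have c' : D' < -576 := by
      by_contra hn
      have s1 := mul_le_mul_of_nonneg_left (show -D' ≤ 576 by omega) (sq_nonneg (δ : ℤ))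
      have s2 := mul_le_mul_of_nonneg_left R2 (sq_nonneg (R : ℤ))
      have s3 : (0 : ℤ) < R ^ 2 := pow_pos (by omega) 2
      linarith
    obtain ⟨E', g₁, g₂, iE, p₁, p₂, hg, ek, rfl, hr⟩ := split_disc (hτ k).isD a'.isD
      (ρ₁ := δ * f) (ρ₂ := f' * f₁) (by positivity) (by positivity) (by
        have : ((δ : ℤ) * f) ^ 2 * D k = (f' * f₁) ^ 2 * D' := by
          linear_combination (δ : ℤ) ^ 2 * (hE' - hE) + (f' : ℤ) ^ 2 * e₁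
        exact_mod_cast this)
    have hr' : (δ : ℤ) * f * g₁ = f' * f₁ * g₂ := by exact_mod_cast hr
    have hEE : E = (f * g₁) ^ 2 * E' := by rw [hE, ek]; ring
    obtain ⟨b₀, u1, u2⟩ : ∃ b₀ : ℤ, 2 ∣ b₀ - E' ∧ ((∏ p ∈ β, p : ℕ) : ℤ) ∣ f * g₁ * b₀ + b := by
      obtain ⟨x, y, e⟩ := hqc.of_isCoprime_of_dvd_right (x := 2 * ((f : ℤ) * g₁))
        ⟨f * g₁ * E' * δ, by rw [hEE]; ring⟩
      exact ⟨E' - 2 * (y * (f * g₁ * E' + b)), ⟨-(y * (f * g₁ * E' + b)), by ring⟩,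
        x * (f * g₁ * E' + b), by linear_combination -(f * g₁ * E' + b) * e⟩
    obtain ⟨w, w', hw⟩ := orbit_classes iE hg (ek ▸ discL_one (hτ k)) (discL_one a') (ek ▸ ck) c'
    have iG := cm_isD_sq iE (Nat.mul_pos p₁ p₂)
    have lg : Real.log (-(((g₁ * g₂ : ℕ) ^ 2 * E' : ℤ) : ℝ)) ≤ 3 * Λ := by
      have t1 : -((g₁ * g₂ : ℕ) ^ 2 * E' : ℤ) ≤ -D k * (-D l * -D l) := by
        have s1 : (1 : ℤ) ≤ f₁ ^ 2 := one_le_pow₀ (by exact_mod_cast hf₁)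
        have s2 : -(g₂ ^ 2 * E') ≤ -D l * -D l := by
          have s4 := mul_le_mul_of_nonneg_right s1 (show 0 ≤ -(g₂ ^ 2 * E') by omega)
          have s5 := mul_le_mul_of_nonneg_right (d2.trans (R5.trans bl)) (show 0 ≤ -D l by omega)
          linarith
        have s3 : (g₁ : ℤ) ^ 2 ≤ -D k := by
          have s4 := mul_le_mul_of_nonneg_left (show 1 ≤ -E' by linarith [iE.1])
            (sq_nonneg (g₁ : ℤ))
          linarith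
        refine le_trans (le_of_eq ?_) (mul_le_mul s3 s2 (by omega) (by omega))
        push_cast
        ring
      have t2 : (0 : ℝ) < -(D k : ℝ) := by linarith [tti_three (hτ k).isD]
      have t3 : (0 : ℝ) < -(D l : ℝ) := by linarith [tti_three (hτ l).isD]
      refine (Real.log_le_log (by linarith [tti_three iG])
        (show _ ≤ -(D k : ℝ) * (-(D l : ℝ) * -(D l : ℝ)) by exact_mod_cast t1)).trans ?_
      rw [Real.log_mul t2.ne' (by positivity), Real.log_mul t3.ne' t3.ne']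
      linarith
    obtain ⟨T, hT⟩ : ∃ T : ℤ → ℂ → Set (ℂ × ℂ), T = fun s w =>
        {z | z ∈ XS s (100 * U ^ 5 * Z ^ 2) (∏ p ∈ β, p) b₀ E' g₁ g₂ w ∧
          ∀ M : ℕ, 0 < M → M ≤ R → ¬ Isog M z.1 z.2} := ⟨_, rfl⟩
    have T1 : ∀ s w, (T s w).Finite := fun s w => by
      rw [hT]
      exact (XS_finite _ _ _ _ _ _ _ _).subset fun z hz => hz.1
    have H0 := tfc_HH iG
    have T2 : ∀ s w, s.natAbs = 1 → ((T s w).ncard : ℝ) ≤ m * HH ((g₁ * g₂ : ℕ) ^ 2 * E') := by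
      intro s w e
      rw [hT, hm]
      refine (hxs s b₀ E' _ g₁ g₂ R β w e C1 iE p₁ p₂ hg hβ (fun p h => ?_) hs R1 R3
        hq).trans ?_
      · obtain ⟨v1, v2, v3⟩ := hp p h
        have v4 := Nat.prime_iff_prime_int.1 v1
        have v5 : ¬ (p : ℤ) ∣ δ * f * g₁ := fun e => v2 (v4.dvd_of_dvd_pow (n := 2)
          ((e.mul_right (4 * δ * (f * g₁) ^ 3 * E' ^ 2)).trans (dvd_of_eq (by rw [hEE]; ring))))
        refine ⟨v1, ?_, xbe_jac v1 (fun e => v2 ?_) (hEE ▸ v3), fun e => v5 ?_⟩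
        · rintro rfl
          exact v2 ⟨E * δ, by push_cast; ring⟩
        · exact ((hEE ▸ e).mul_left 2).mul_right _
        · rcases (Nat.Prime.dvd_mul v1).1 e with e | e
          · exact (Int.natCast_dvd_natCast.2 e).mul_left _
          · exact hr' ▸ (Int.natCast_dvd_natCast.2 e).mul_left _
      · have := Real.log_nonneg (show 1 ≤ -(((g₁ * g₂ : ℕ) ^ 2 * E' : ℤ) : ℝ) by
          linarith [tti_three iG])
        gcongr
    have k1 := xbe_cnt hτ k l hδ hd iE hg ek a' ck c'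
      (((T1 1 w).union (T1 1 w')).union ((T1 (-1) w).union (T1 (-1) w')))
    have k2 : ((T 1 w ∪ T 1 w' ∪ (T (-1) w ∪ T (-1) w')).ncard : ℝ) ≤
        4 * m * HH ((g₁ * g₂ : ℕ) ^ 2 * E') := by
      have := (Nat.cast_le (α := ℝ)).2 ((Set.ncard_union_le _ _).trans (Nat.add_le_add
        (Set.ncard_union_le (T 1 w) (T 1 w')) (Set.ncard_union_le (T (-1) w) (T (-1) w'))))
      push_cast at this
      linarith [T2 1 w rfl, T2 1 w' rfl, T2 (-1) w rfl, T2 (-1) w' rfl]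
    refine le_trans (pb_mono fun x hx hx' => ?_)
      ((tfc_fin (K := 15) (L := L) (δ := 60 * (|L| + 1) * m) k1 (k2.trans (le_of_eq ?_))
        (hL _ iG ⟨g₁ * (g₁ * g₂ : ℕ) * E', by rw [ek]; ring⟩) H0 (Nat.cast_nonneg _) (by norm_num)
        (by positivity) (by positivity)))
    · obtain ⟨σ, e, g, -, j, s, hs, hX⟩ := hx'
      refine ⟨σ, e, ?_⟩
      have xk : x k = σ (jInv (τ k)) := congrFun e k
      have y1 := hX E' b₀ g₁ g₂ iE hg ek (disc_of_gal a' c' j.symm) u1 u2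
      have y2 := hw σ _ _ (isLat_one (fr (x k))) (isLat_one (act g (fr (x l))))
        (by rw [jL_one, jL_one, (fr_spec _).2, xk]) (by rw [jL_one, jL_one, j])
      have y3 : ∀ M : ℕ, 0 < M → M ≤ R → ¬ Isog M (x k) (σ (jInv (act h (τ l)))) := by
        intro M M0 MR i
        obtain ⟨d, d0, dM, i1⟩ := i.ig M0
        have i2 := (i1.trans d0 hδ (Ig.gal hδ ⟨τ l, h, hd, rfl, rfl⟩ σ)).gal
          (Nat.mul_pos d0 hδ) σ.symm
        rw [xk, σ.symm_apply_apply, σ.symm_apply_apply] at i2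
        exact hI _ (Nat.mul_pos d0 hδ)
          (Nat.mul_le_mul (dM.trans (Nat.pow_le_pow_left MR 2)) hδR) i2
      rw [← j] at y1
      rw [hT]
      rcases hs with rfl | rfl <;> rcases y2 with y2 | y2 <;> rw [y2] at y1
      · exact Or.inl (Or.inl ⟨y1, y3⟩)
      · exact Or.inl (Or.inr ⟨y1, y3⟩)
      · exact Or.inr (Or.inl ⟨y1, y3⟩)
      · exact Or.inr (Or.inr ⟨y1, y3⟩)
    · field_simp
      ring
  refine le_trans (pb_mono fun x hx hx' => ?_) ((pb_exists _ _ _).trans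
    ((Finset.sum_le_card_nsmul _ _ _ key).trans ?_))
  · obtain ⟨u1, u2, X, hX, hXZ, hK⟩ := hx'
    obtain ⟨σ, e⟩ := (mem_Orb hτ).1 hx
    have X0 : X.det ≠ 0 := Int.natAbs_pos.1 (hX ▸ hδ)
    obtain ⟨g, hg, hxs⟩ := xs_of_mat hU u1 u2 X0 hXZ
    rw [hX] at hg
    have i1 := Ig.gal hδ ⟨fr (x l), g, (mem_Hn hg).2, rfl, (fr_spec _).2⟩ σ.symm
    rw [show σ.symm (x l) = jInv (τ l) by rw [e, σ.symm_apply_apply]] at i1
    obtain ⟨h, hh, j⟩ := i1.exists_Hn hδ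
    refine ⟨h, hh, σ, e, g, hg, by rw [j, σ.apply_symm_apply], X.det.sign, ?_,
      fun E' b₀ g₁ g₂ iE hc ek a u1 u2 => ?_⟩
    · exact X0.lt_or_gt.symm.imp Int.sign_eq_one_of_pos Int.sign_eq_neg_one_of_neg
    · have := hxs E E' (D l) b b₀ f g₁ g₂ _ iE hc (ek ▸ Orb_disc hτ hx ck) (Orb_disc hτ hx cl) a
        (ek ▸ hE) ⟨f', hf', hE'⟩ hf q0 (hqc.of_isCoprime_of_dvd_right
          (mul_dvd_mul_left _ (hX ▸ Int.dvd_natAbs.2 dvd_rfl))) hqb u1 u2 fun v hv =>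
        (mem_Ker_prod fun p h => (hp p h).1).2 fun p h =>
          hK p h v ((mem_Ker_prod fun p h => (hp p h).1).1 hv p h)
      rwa [(fr_spec _).2] at this
  · rw [nsmul_eq_mul]
    refine (mul_le_mul_of_nonneg_right (show _ ≤ (δ : ℝ) ^ 2 by exact_mod_cast card_Hn δ)
      (by positivity)).trans (le_of_eq ?_)
    rw [hm, mul_pow 3]
    ring

theorem xc_orb6 (U : ℝ) (hU : 1 ≤ U) : ∃ (K : ℝ) (A R₀ : ℕ), 0 < K ∧ ∀ (L : ℝ) (n : ℕ)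
    (τ : Fin n → ℍ) (D : Fin n → ℤ), (∀ k, HasDisc (τ k) (D k)) → ∀ (k l : Fin n) (E b : ℤ)
    (β : Finset ℕ) (R : ℕ) (Z Λ : ℝ), Low L (D k) → Fit E (D k) → Fit E (D l) →
    (∀ p ∈ β, p.Prime ∧ ¬ (p : ℤ) ∣ 2 * E ∧ (p : ℤ) ∣ b ^ 2 - E) →
    ∑ p ∈ β, (p : ℝ) ^ (-(1 / 4 : ℝ)) ≤ 1 → 1 ≤ Z → R₀ * Z ^ 2 ≤ R →
    (∏ p ∈ β, p) ^ 200 ≤ R → (R : ℤ) ^ 3 ≤ -D k → (R : ℤ) ^ 3 ≤ -D l → 1 ≤ Λ →
    Real.log (-(D k : ℝ)) ≤ Λ → Real.log (-(D l : ℝ)) ≤ Λ →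
    (∀ d, 0 < d → d ≤ R ^ 3 → ¬ Ig d (jInv (τ k)) (jInv (τ l))) →
    prb (Orb τ) (fun x => fr (x k) ∈ KU U ∧ fr (x l) ∈ KU U ∧
      Xc Z (fun p => Ker p (AA E b (fr (x k)))) (fun p => Ker p (AA E b (fr (x l)))) β) ≤
      K * (|L| + 1) * Λ ^ A * Z ^ 14 / (∏ p ∈ β, p : ℕ) := by
  obtain ⟨K, A, R₀, hK, h1⟩ := xc_one6 U hU
  refine ⟨64 * (K + 1), A, max R₀ 2, by positivity,
    fun L n τ D hτ k l E b β R Z Λ hL fk fl hp hs hZ hR hq bk bl hΛ lk ll hI => ?_⟩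
  have Z0 : 0 ≤ Z ^ 2 := sq_nonneg Z
  have R1 : R₀ * Z ^ 2 ≤ R :=
    (mul_le_mul_of_nonneg_right (Nat.cast_le.2 (le_max_left _ _)) Z0).trans hR
  have R2 : 2 * Z ^ 2 ≤ R :=
    (mul_le_mul_of_nonneg_right (by exact_mod_cast le_max_right R₀ 2) Z0).trans hR
  have q0 : (0 : ℝ) < (∏ p ∈ β, p : ℕ) := Nat.cast_pos.2 (Finset.prod_pos fun p h => (hp p h).1.pos)
  have key : ∀ δ ∈ Finset.Icc 1 ⌊2 * Z ^ 2⌋₊, prb (Orb τ) (fun x => fr (x k) ∈ KU U ∧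
      fr (x l) ∈ KU U ∧ ∃ X : M2, X.det.natAbs = δ ∧ (∀ i j, |(X i j : ℝ)| ≤ Z) ∧
      ∀ p ∈ β.filter fun p => ¬ p ∣ δ, ∀ v ∈ Ker p (AA E b (fr (x k))),
        X *ᵥ v ∈ Ker p (AA E b (fr (x l)))) ≤
      (K + 1) * (|L| + 1) * Λ ^ A * Z ^ 2 * (2 * Z ^ 2) ^ 5 / (∏ p ∈ β, p : ℕ) := by
    intro δ hδ
    obtain ⟨d0, d1⟩ := Finset.mem_Icc.1 hδ
    have d2 : (δ : ℝ) ≤ 2 * Z ^ 2 := (Nat.le_floor_iff (by positivity)).1 d1
    have d3 : (1 : ℝ) ≤ δ := Nat.one_le_cast.2 d0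
    have e := Finset.prod_filter_mul_prod_filter_not β (fun p => p ∣ δ) fun p => p
    have a1 : ∏ p ∈ β.filter fun p => p ∣ δ, p ≤ δ :=
      Nat.le_of_dvd d0 (Finset.prod_primes_dvd δ
        (fun p h => (hp p (Finset.mem_filter.1 h).1).1.prime) fun p h => (Finset.mem_filter.1 h).2)
    have a0 : 0 < ∏ p ∈ β.filter fun p => p ∣ δ, p :=
      Finset.prod_pos fun p h => (hp p (Finset.mem_filter.1 h).1).1.pos
    have a2 : 0 < ∏ p ∈ β.filter fun p => ¬ p ∣ δ, p :=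
      Finset.prod_pos fun p h => (hp p (Finset.mem_filter.1 h).1).1.pos
    have a3 : ((∏ p ∈ β, p : ℕ) : ℝ) ≤ δ * (∏ p ∈ β.filter fun p => ¬ p ∣ δ, p : ℕ) := by
      rw [← e]
      exact_mod_cast Nat.mul_le_mul_right _ a1
    have a4 : (0 : ℝ) < (∏ p ∈ β.filter fun p => ¬ p ∣ δ, p : ℕ) := Nat.cast_pos.2 a2
    have L1 : 1 ≤ Λ ^ A := one_le_pow₀ hΛ
    refine le_trans (b := (K + 1) * (|L| + 1) * Λ ^ A * Z ^ 2 * (δ : ℝ) ^ 4 /
      (∏ p ∈ β.filter fun p => ¬ p ∣ δ, p : ℕ)) ?_ ?_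
    · rcases (β.filter fun p => ¬ p ∣ δ).eq_empty_or_nonempty with h0 | h0
      · refine (pb_le_one _ _).trans ?_
        rw [h0, Finset.prod_empty, Nat.cast_one, div_one]
        exact one_le_mul_of_one_le_of_one_le (one_le_mul_of_one_le_of_one_le
          (one_le_mul_of_one_le_of_one_le (one_le_mul_of_one_le_of_one_le (by linarith)
            (by linarith [abs_nonneg L])) L1) (one_le_pow₀ hZ)) (one_le_pow₀ d3)
      · refine (h1 L n τ D hτ k l E b _ δ R Z Λ hL fk fl h0 (fun p h => ?_)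
          ((Finset.sum_le_sum_of_subset_of_nonneg (Finset.filter_subset _ _)
            fun p _ _ => by positivity).trans hs) hZ d0 (Nat.cast_le.1 (d2.trans R2)) R1
          ((Nat.pow_le_pow_left ((Nat.le_mul_of_pos_left _ a0).trans e.le) _).trans hq)
          bk bl hΛ lk ll hI).trans (by gcongr; linarith)
        obtain ⟨v0, v1⟩ := Finset.mem_filter.1 h
        obtain ⟨v2, v3, v4⟩ := hp p v0
        exact ⟨v2, fun e => ((Nat.prime_iff_prime_int.1 v2).dvd_or_dvd e).elim v3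
          fun e => v1 (Int.natCast_dvd_natCast.1 e), v4⟩
    · rw [div_le_div_iff₀ a4 q0]
      calc _ ≤ (K + 1) * (|L| + 1) * Λ ^ A * Z ^ 2 * (δ : ℝ) ^ 4 *
            (δ * (∏ p ∈ β.filter fun p => ¬ p ∣ δ, p : ℕ)) := by gcongr
        _ = (K + 1) * (|L| + 1) * Λ ^ A * Z ^ 2 * (δ : ℝ) ^ 5 *
            (∏ p ∈ β.filter fun p => ¬ p ∣ δ, p : ℕ) := by ring
        _ ≤ _ := by gcongr
  refine le_trans (pb_mono fun x hx hx' => ?_) ((pb_exists _ _ _).trans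
    ((Finset.sum_le_card_nsmul _ _ _ key).trans ?_))
  · obtain ⟨u1, u2, X, X0, hX, hK⟩ := hx'
    refine ⟨_, Finset.mem_Icc.2 ⟨Int.natAbs_pos.2 X0, Nat.le_floor ?_⟩, u1, u2, X, rfl, hX,
      fun p h => hK p (Finset.mem_filter.1 h).1⟩
    have Z1 : 0 ≤ Z := by linarith
    have t1 := mul_le_mul (hX 0 0) (hX 1 1) (abs_nonneg _) Z1
    have t2 := mul_le_mul (hX 0 1) (hX 1 0) (abs_nonneg _) Z1
    rw [Nat.cast_natAbs, Matrix.det_fin_two]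
    push_cast
    refine (abs_sub _ _).trans ?_
    rw [abs_mul, abs_mul]
    linarith
  · rw [nsmul_eq_mul, Nat.card_Icc, Nat.add_sub_cancel]
    refine (mul_le_mul_of_nonneg_right (Nat.floor_le (by positivity)) (by positivity)).trans
      (le_of_eq ?_)
    ring

end Pool.Agent.EQ
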