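import Pool.Agent.P.MP_ad7a55_nt.YUh

/-! Products over the vertices of a cube. -/

set_option autoImplicit false

noncomputable section

open MeasureTheory Topology Filter UpperHalfPlane Finset
open scoped MatrixGroups BoundedContinuousFunction Matrix Classical

namespace Pool.Agent.EQ

/-- The directions at the primes `l j`. -/
def LB {k : ℕ} (e : ℕ) (l : Fin k → ℕ) : Finset (Fin k → Set V2) :=
  Fintype.piFinset fun j => Xn (l j ^ (2 * e))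

/-- Matrices for the moves along subsets of the primes `l j`. -/
def IsRS {k : ℕ} (e M : ℕ) (l : Fin k → ℕ) (ρ : Finset (Fin k) → (Fin k → Set V2) → M2) : Prop :=
  ∀ S, ∀ Ls ∈ LB e l, (ρ S Ls).det = ((∏ j ∈ S, l j) ^ (2 * e) : ℕ) ∧
    (∀ j ∈ S, Ker (l j ^ (2 * e)) (ρ S Ls) = Ls j) ∧
    Cg M (ρ S Ls) (((∏ j ∈ S, l j : ℕ) : ℤ) ^ e)

/-- Different primes of size `y`, prime to the level. -/
structure CuP (y M₀ q : ℕ) {k : ℕ} (l : Fin k → ℕ) : Prop where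
  pos : 0 < M₀
  hq : q.Prime ∧ y < q ∧ q ≤ 2 * y ∧ ¬ q ∣ M₀
  hl : ∀ j, (l j).Prime ∧ y < l j ∧ l j ≤ 2 * y ∧ ¬ l j ∣ M₀ ∧ l j ≠ q
  inj : Function.Injective l

variable {y M₀ q k e : ℕ} {l : Fin k → ℕ} {ρ : Finset (Fin k) → (Fin k → Set V2) → M2}

theorem ycb_cg {M : ℕ} {γ : SL(2, ℤ)} (h : γ ∈ CongruenceSubgroup.Gamma M) :
    Cg M (γ : M2) 1 := by
  obtain ⟨h0, h1, h2, h3⟩ := CongruenceSubgroup.Gamma_mem.1 h
  intro i j
  rw [← ZMod.intCast_zmod_eq_zero_iff_dvd]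
  fin_cases i <;> fin_cases j <;> simp [h0, h1, h2, h3]

theorem ycb_congr {α : Type} {O : Finset α} {G G' : α → ℝ} (h : ∀ x ∈ O, G x = G' x) :
    mn O G = mn O G' :=
  le_antisymm (mn_mono fun x hx => (h x hx).le) (mn_mono fun x hx => (h x hx).ge)

theorem ycb_le {α : Type} {O : Finset α} {G : α → ℝ} {B : ℝ} (hB : 0 ≤ B)
    (h : ∀ x ∈ O, G x ≤ B) : mn O G ≤ B := by
  rcases O.eq_empty_or_nonempty with rfl | hO
  · simpa [mn] using hB
  · exact (mn_mono h).trans (mn_const hO B).le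

theorem ycb_update {α κ : Type} [Fintype κ] [d : DecidableEq κ] (X : κ → Finset α) (j : κ)
    (hX : (X j).Nonempty) (G : (κ → α) → ℝ) : mn (Fintype.piFinset X) G =
      mn (Fintype.piFinset X) fun t => mn (X j) fun a => G (Function.update t j a) := by
  obtain rfl : d = fun a b => Classical.propDecidable (a = b) := Subsingleton.elim _ _
  exact mn_update X j hX G

theorem ycb_ne {n : ℕ} (hn : 0 < n) : (Xn n).Nonempty :=
  ⟨_, (mem_Xn hn).2 ⟨![1, 0], by simpa using isCoprime_one_left, rfl⟩⟩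

theorem ycb_det (γ : SL(2, ℤ)) (n : ℕ) : IsCoprime (γ : M2).det n := by
  rw [γ.det_coe]
  exact isCoprime_one_left

theorem ycb_lp (h : CuP y M₀ q l) (j : Fin k) (a : ℕ) : 0 < l j ^ a := pow_pos (h.hl j).1.pos a

theorem ycb_ll (h : CuP y M₀ q l) {i j : Fin k} (hij : i ≠ j) : (l i).Coprime (l j) :=
  (Nat.coprime_primes (h.hl i).1 (h.hl j).1).2 fun e => hij (h.inj e)

theorem ycb_lq (h : CuP y M₀ q l) (j : Fin k) : (l j).Coprime q :=
  (Nat.coprime_primes (h.hl j).1 h.hq.1).2 (h.hl j).2.2.2.2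

theorem ycb_lM (h : CuP y M₀ q l) (j : Fin k) : (l j).Coprime M₀ :=
  (Nat.Prime.coprime_iff_not_dvd (h.hl j).1).2 (h.hl j).2.2.2.1

theorem ycb_pp (h : CuP y M₀ q l) (S : Finset (Fin k)) (a : ℕ) : 0 < (∏ j ∈ S, l j) ^ a :=
  pow_pos (prod_pos fun j _ => (h.hl j).1.pos) a

theorem ycb_LB (h : CuP y M₀ q l) {Ls : Fin k → Set V2} :
    Ls ∈ LB e l ↔ ∀ j, IsLn (l j ^ (2 * e)) (Ls j) := by
  rw [LB, Fintype.mem_piFinset]
  exact forall_congr' fun j => mem_Xn (ycb_lp h j _)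

theorem ycb_plLB (h : CuP y M₀ q l) {Ls : Fin k → Set V2} (hL : Ls ∈ LB e l) (γ : SL(2, ℤ)) :
    (fun j => pl (γ : M2) (Ls j)) ∈ LB e l :=
  (ycb_LB h).2 fun j => ((ycb_LB h).1 hL j).pl (ycb_lp h j _) (ycb_det γ _)

theorem ycb_gam (h : CuP y M₀ q l) (S : Finset (Fin k)) {η η' : M2}
    (d : η.det = ((∏ j ∈ S, l j) ^ (2 * e) : ℕ)) (d' : η'.det = ((∏ j ∈ S, l j) ^ (2 * e) : ℕ))
    (hk : ∀ j ∈ S, Ker (l j ^ (2 * e)) η = Ker (l j ^ (2 * e)) η')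
    (c : Cg (M₀ * q) η (((∏ j ∈ S, l j : ℕ) : ℤ) ^ e))
    (c' : Cg (M₀ * q) η' (((∏ j ∈ S, l j : ℕ) : ℤ) ^ e)) :
    ∃ δ ∈ CongruenceSubgroup.Gamma (M₀ * q), η' = (δ : M2) * η := by
  have h1 : Ker ((∏ j ∈ S, l j) ^ (2 * e)) η ⊆ Ker ((∏ j ∈ S, l j) ^ (2 * e)) η' := by
    intro v hv i
    have h2 : ∀ j ∈ S, v ∈ Ker (l j ^ (2 * e)) η' := fun j hj =>
      hk j hj ▸ Ker_anti (pow_dvd_pow_of_dvd (dvd_prod_of_mem l hj) _) η hv
    rw [← prod_pow, Nat.cast_prod]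
    exact Finset.prod_dvd_of_coprime (fun a _ b _ hab => Nat.isCoprime_iff_coprime.2
      (Nat.Coprime.pow _ _ (ycb_ll h hab))) fun j hj => h2 j hj i
  obtain ⟨δ, rfl⟩ := exists_SL_of_Ker (ycb_pp h S _) d d' h1
  refine ⟨δ, Cg.gamma (IsCoprime.pow_left (Nat.isCoprime_iff_coprime.2 ?_)) c c', rfl⟩
  exact Nat.Coprime.prod_left fun j _ => Nat.Coprime.mul_right (ycb_lM h j) (ycb_lq h j)

theorem CuP.trans (h : CuP y M₀ q l) (e : ℕ) {x x' : (Fin k → Set V2) × Set V2 × Set V2}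
    (hx : x ∈ LB e l ×ˢ (Xn q).offDiag) (hx' : x' ∈ LB e l ×ˢ (Xn q).offDiag) :
    ∃ γ ∈ CongruenceSubgroup.Gamma M₀,
      ((fun j => pl (γ : M2) (x.1 j)), pl (γ : M2) x.2.1, pl (γ : M2) x.2.2) = x' := by
  obtain ⟨a1, a2⟩ := mem_product.1 hx
  obtain ⟨b1, b2⟩ := mem_product.1 hx'
  choose g hg using fun j => line_trans ((ycb_LB h).1 a1 j) ((ycb_LB h).1 b1 j)
  obtain ⟨g₀, c1, c2⟩ := pair_trans h.hq.1 a2 b2
  obtain ⟨γ, hγ, hd⟩ := crt_SL (univ : Finset (Option (Fin k)))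
    (fun o => o.elim q fun j => l j ^ (2 * e)) h.pos
    (fun o _ => by
      cases o with
      | none => exact ⟨h.hq.1.pos, (Nat.Prime.coprime_iff_not_dvd h.hq.1).2 h.hq.2.2.2⟩
      | some j => exact ⟨ycb_lp h j _, Nat.Coprime.pow_left _ (ycb_lM h j)⟩)
    (fun o _ o' _ hne => by
      cases o with
      | none =>
        cases o' with
        | none => exact absurd rfl hne
        | some j => exact (Nat.Coprime.pow_left _ (ycb_lq h j)).symm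
      | some i =>
        cases o' with
        | none => exact Nat.Coprime.pow_left _ (ycb_lq h i)
        | some j => exact Nat.Coprime.pow _ _ (ycb_ll h fun e => hne (congrArg some e)))
    (fun o => o.elim g₀ g)
  obtain ⟨d1, d2, -⟩ := mem_offDiag.1 a2
  refine ⟨γ, hγ, Prod.ext (funext fun j => ?_) (Prod.ext ?_ ?_)⟩
  · exact (pl_congr ((ycb_LB h).1 a1 j) (hd (some j) (mem_univ _))).trans (hg j)
  · exact (pl_congr ((mem_Xn h.hq.1.pos).1 d1) (hd none (mem_univ _))).trans c1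
  · exact (pl_congr ((mem_Xn h.hq.1.pos).1 d2) (hd none (mem_univ _))).trans c2

theorem IsRS.smul (h : CuP y M₀ q l) (hρ : IsRS e (M₀ * q) l ρ) (S : Finset (Fin k))
    {Ls : Fin k → Set V2} (hL : Ls ∈ LB e l) (γ : SL(2, ℤ)) :
    ∃ δ ∈ CongruenceSubgroup.Gamma (M₀ * q),
      ρ S Ls * (γ : M2) = (γ : M2) * (δ : M2) * ρ S fun j => pl (γ : M2) (Ls j) := by
  obtain ⟨a1, a2, a3⟩ := hρ S Ls hL
  obtain ⟨b1, b2, b3⟩ := hρ S _ (ycb_plLB h hL γ)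
  have c := a3.conj γ⁻¹
  rw [inv_inv, mul_assoc] at c
  obtain ⟨δ, hδ, hd⟩ := ycb_gam h S b1
    (η' := ((γ⁻¹ : SL(2, ℤ)) : M2) * (ρ S Ls * (γ : M2)))
    (by rw [Matrix.det_mul, Matrix.det_mul, γ.det_coe, γ⁻¹.det_coe, a1, one_mul, mul_one])
    (fun j hj => by rw [b2 j hj, Ker_SL, Ker_mul_pl, a2 j hj]) b3 c
  refine ⟨δ, hδ, ?_⟩
  rw [mul_assoc, ← hd, ← mul_assoc, ← Matrix.SpecialLinearGroup.coe_mul, mul_inv_cancel,
    Matrix.SpecialLinearGroup.coe_one, one_mul]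

theorem IsRS.split (h : CuP y M₀ q l) (hρ : IsRS e (M₀ * q) l ρ) {S : Finset (Fin k)} {j : Fin k}
    (hj : j ∈ S) {Ls Ls' : Fin k → Set V2} (hL : Ls ∈ LB e l) (hL' : Ls' ∈ LB e l)
    (hLL : ∀ i ∈ S.erase j, Ls' i = Ls i) {η : M2} (h1 : η.det = (l j ^ (2 * e) : ℕ))
    (h2 : Ker (l j ^ (2 * e)) η = Ls j)
    (h3 : Cg (M₀ * q * ∏ i ∈ S.erase j, l i ^ (2 * e)) η ((l j : ℤ) ^ e)) :
    ∃ δ ∈ CongruenceSubgroup.Gamma (M₀ * q), ρ S Ls = (δ : M2) * (ρ (S.erase j) Ls' * η) := by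
  obtain ⟨a1, a2, a3⟩ := hρ S Ls hL
  obtain ⟨b1, b2, b3⟩ := hρ (S.erase j) Ls' hL'
  refine ycb_gam h S ?_ a1 (fun i hi => ?_) ?_ a3
  · rw [Matrix.det_mul, b1, h1, ← Nat.cast_mul, ← mul_pow, prod_erase_mul S l hj]
  · rw [a2 i hi]
    by_cases hij : i = j
    · subst hij
      rw [Ker_cop, h2]
      rw [b1]
      exact Nat.isCoprime_iff_coprime.2 (Nat.Coprime.pow _ _
        (Nat.Coprime.prod_left fun i' hi' => ycb_ll h (ne_of_mem_erase hi')))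
    · have hi' : i ∈ S.erase j := mem_erase.2 ⟨hij, hi⟩
      rw [Ker_Cg (h3.mono (Dvd.dvd.mul_left (dvd_prod_of_mem (fun i => l i ^ (2 * e)) hi') _)),
        b2 i hi', hLL i hi']
      exact IsCoprime.pow_left (Nat.isCoprime_iff_coprime.2
        (Nat.Coprime.pow_right _ (ycb_ll h fun e => hij e.symm)))
  · have c := b3.mul (h3.mono (Dvd.intro _ rfl))
    rwa [← mul_pow, ← Nat.cast_mul, prod_erase_mul S l hj] at c

/-- The action on the index set. -/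
def ycbA (g : SL(2, ℤ)) (x : (Fin k → Set V2) × Set V2 × Set V2) :
    (Fin k → Set V2) × Set V2 × Set V2 :=
  ((fun j => pl (g : M2) (x.1 j)), pl (g : M2) x.2.1, pl (g : M2) x.2.2)

/-- The product over the tests. -/
def ycbF {κ : Type} (ρ : Finset (Fin k) → (Fin k → Set V2) → M2)
    (f : κ → Set V2 × Set V2 → (ℍ →ᵇ ℝ)) (I : Finset κ) (S : κ → Finset (Fin k))
    (x : (Fin k → Set V2) × Set V2 × Set V2) : ℍ →ᵇ ℝ :=
  ∏ i ∈ I, cact (f i x.2) (ρ (S i) x.1)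

/-- Equivariant families. -/
def ycbE {κ : Type} (M₀ q : ℕ) (f : κ → Set V2 × Set V2 → (ℍ →ᵇ ℝ)) : Prop :=
  ∀ i, ∀ δ ∈ CongruenceSubgroup.Gamma M₀, ∀ ω ∈ (Xn q).offDiag, ∀ z,
    f i ω (δ • z) = f i (pl (δ : M2) ω.1, pl (δ : M2) ω.2) z

variable {κ : Type} {f : κ → Set V2 × Set V2 → (ℍ →ᵇ ℝ)}
  {x : (Fin k → Set V2) × Set V2 × Set V2}

theorem ycb_sub {N N' : ℕ} (h : N ∣ N') {γ : SL(2, ℤ)} (hγ : γ ∈ CongruenceSubgroup.Gamma N') :
    γ ∈ CongruenceSubgroup.Gamma N := by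
  rw [CongruenceSubgroup.Gamma_mem] at hγ ⊢
  have e : ∀ x : ℤ, ZMod.castHom h (ZMod N) (x : ZMod N') = x := fun x => map_intCast _ x
  obtain ⟨h0, h1, h2, h3⟩ := hγ
  exact ⟨by rw [← e, h0, map_one], by rw [← e, h1, map_zero], by rw [← e, h2, map_zero],
    by rw [← e, h3, map_one]⟩

theorem ycb_fix {M n : ℕ} {g : SL(2, ℤ)} (hg : g ∈ CongruenceSubgroup.Gamma M) (hn : n ∣ M)
    {L : Set V2} (hL : IsLn n L) : pl (g : M2) L = L :=
  pl_Cg hL ((ycb_cg hg).mono hn) isCoprime_one_left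

theorem ycb_back (g : SL(2, ℤ)) (L : Set V2) :
    pl ((g⁻¹ : SL(2, ℤ)) : M2) (pl (g : M2) L) = L := by
  rw [← pl_mul, ← Matrix.SpecialLinearGroup.coe_mul, mul_inv_cancel,
    Matrix.SpecialLinearGroup.coe_one]
  ext v
  simp [pl]

theorem ycb_inj (g : SL(2, ℤ)) {L L' : Set V2} (h : pl (g : M2) L = pl (g : M2) L') : L = L' := by
  rw [← ycb_back g L, h, ycb_back]

theorem ycb_off (hq : 0 < q) (g : SL(2, ℤ)) {ω : Set V2 × Set V2} (h : ω ∈ (Xn q).offDiag) :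
    (pl (g : M2) ω.1, pl (g : M2) ω.2) ∈ (Xn q).offDiag := by
  obtain ⟨a1, a2, a3⟩ := mem_offDiag.1 h
  exact mem_offDiag.2 ⟨(mem_Xn hq).2 (((mem_Xn hq).1 a1).pl hq (ycb_det g _)),
    (mem_Xn hq).2 (((mem_Xn hq).1 a2).pl hq (ycb_det g _)), fun e => a3 (ycb_inj g e)⟩

theorem ycb_mem (h : CuP y M₀ q l) (g : SL(2, ℤ)) (hx : x ∈ LB e l ×ˢ (Xn q).offDiag) :
    ycbA g x ∈ LB e l ×ˢ (Xn q).offDiag :=
  mem_product.2 ⟨ycb_plLB h (mem_product.1 hx).1 g, ycb_off h.hq.1.pos g (mem_product.1 hx).2⟩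

theorem ycb_Ainj (g : SL(2, ℤ)) : Function.Injective (ycbA (k := k) g) := fun x x' hx => by
  have a1 := congrArg Prod.fst hx
  have a2 := congrArg (fun z => z.2.1) hx
  have a3 := congrArg (fun z => z.2.2) hx
  exact Prod.ext (funext fun j => ycb_inj g (congrFun a1 j))
    (Prod.ext (ycb_inj g a2) (ycb_inj g a3))

theorem ycb_ginv (h : CuP y M₀ q l) (hf : ycbE M₀ q f) (i : κ) {ω : Set V2 × Set V2}
    (hω : ω ∈ (Xn q).offDiag) : GInv (M₀ * q) (f i ω) := fun δ hδ z => by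
  obtain ⟨a1, a2, -⟩ := mem_offDiag.1 hω
  rw [hf i δ (ycb_sub (Dvd.intro _ rfl) hδ) ω hω,
    ycb_fix hδ (Dvd.intro_left _ rfl) ((mem_Xn h.hq.1.pos).1 a1),
    ycb_fix hδ (Dvd.intro_left _ rfl) ((mem_Xn h.hq.1.pos).1 a2)]

theorem ycb_apply (I : Finset κ) (S : κ → Finset (Fin k)) (z : ℍ) :
    ycbF ρ f I S x z = ∏ i ∈ I, f i x.2 (act (ρ (S i) x.1) z) := by
  rw [ycbF, BoundedContinuousFunction.prod_apply]
  rfl

theorem ycb_pos (h : CuP y M₀ q l) (hρ : IsRS e (M₀ * q) l ρ) (S : Finset (Fin k))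
    {Ls : Fin k → Set V2} (hL : Ls ∈ LB e l) : 0 < (ρ S Ls).det := by
  rw [(hρ S Ls hL).1]
  exact_mod_cast ycb_pp h S _

theorem ycb_eqv (h : CuP y M₀ q l) (hρ : IsRS e (M₀ * q) l ρ) (hf : ycbE M₀ q f) (I : Finset κ)
    (S : κ → Finset (Fin k)) (hx : x ∈ LB e l ×ˢ (Xn q).offDiag) {γ : SL(2, ℤ)}
    (hγ : γ ∈ CongruenceSubgroup.Gamma M₀) (z : ℍ) :
    ycbF ρ f I S x (γ • z) = ycbF ρ f I S (ycbA γ x) z := by
  obtain ⟨a1, a2⟩ := mem_product.1 hx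
  rw [ycb_apply, ycb_apply]
  refine prod_congr rfl fun i _ => ?_
  obtain ⟨δ, hδ, hd⟩ := hρ.smul h (S i) a1 γ
  have p := ycb_pos h hρ (S i) (ycb_plLB h a1 γ)
  rw [← act_SL, ← act_mul (ycb_pos h hρ _ a1) (vact_SL_det γ), hd,
    ← Matrix.SpecialLinearGroup.coe_mul, act_mul (vact_SL_det _) p, act_SL, mul_smul,
    hf i γ hγ _ a2, ycb_ginv h hf i (ycb_off h.hq.1.pos γ a2) δ hδ]
  rfl

theorem ycb_minv (h : CuP y M₀ q l) (hρ : IsRS e (M₀ * q) l ρ) (hf : ycbE M₀ q f) (I : Finset κ)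
    (S : κ → Finset (Fin k)) : GInv M₀ (mnB (LB e l ×ˢ (Xn q).offDiag) (ycbF ρ f I S)) :=
  fun γ hγ z => by
  rw [mnB_apply, mnB_apply, ycb_congr fun x hx => ycb_eqv h hρ hf I S hx hγ z]
  exact mn_perm (fun x hx => ycb_mem h γ hx) (ycb_Ainj γ).injOn fun x => ycbF ρ f I S x z

theorem ycb_abs (hb : ∀ i ω z, |f i ω z| ≤ 1) (I : Finset κ) (S : κ → Finset (Fin k)) (z : ℍ) :
    |ycbF ρ f I S x z| ≤ 1 := by
  rw [ycb_apply, Finset.abs_prod]
  exact Finset.prod_le_one (fun j _ => abs_nonneg _) fun j _ => hb _ _ _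

theorem ycb_lev (h : CuP y M₀ q l) (hρ : IsRS e (M₀ * q) l ρ) (hf : ycbE M₀ q f) (I : Finset κ)
    (S : κ → Finset (Fin k)) (hx : x ∈ LB e l ×ˢ (Xn q).offDiag) {M : ℕ}
    (hM : ∀ i ∈ I, M₀ * q * (∏ j ∈ S i, l j) ^ (2 * e) ∣ M) : GInv M (ycbF ρ f I S x) :=
  fun γ hγ z => by
  obtain ⟨a1, a2⟩ := mem_product.1 hx
  rw [ycb_apply, ycb_apply]
  refine prod_congr rfl fun i hi => ?_
  refine ginv_cact (ycb_ginv h hf i a2) (ycb_pos h hρ (S i) a1) ?_ γ hγ z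
  rw [(hρ (S i) _ a1).1, Int.natAbs_natCast]
  exact hM i hi

theorem ycb_zm (h : CuP y M₀ q l) (hρ : IsRS e (M₀ * q) l ρ) (hf : ycbE M₀ q f) (I : Finset κ)
    (S : κ → Finset (Fin k)) (hx : x ∈ LB e l ×ˢ (Xn q).offDiag) {M : ℕ} (hM : 0 < M)
    (h0 : M₀ ∣ M) (hg : GInv M (ycbF ρ f I S x)) :
    ZM M₀ M (ycbF ρ f I S x - mnB (LB e l ×ˢ (Xn q).offDiag) (ycbF ρ f I S) : ℍ →ᵇ ℝ) := by
  intro z
  have hT : 0 < M * (q * (∏ j, l j) ^ (2 * e)) :=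
    Nat.mul_pos hM (Nat.mul_pos h.hq.1.pos (ycb_pp h _ _))
  have d0 : M₀ ∣ M * (q * (∏ j, l j) ^ (2 * e)) := h0.mul_right _
  have a1 := cs_level (M' := M) (R' := M₀) (u := 1) hT (Dvd.intro _ rfl) (by rwa [mul_one]) h0
    (Nat.coprime_one_left _) (F := fun g => ycbF ρ f I S x (g • z))
    fun g δ hδ => by rw [mul_smul, hg δ hδ]
  rw [mul_one] at a1
  have a2 := avg_trans hT d0 (LB e l ×ˢ (Xn q).offDiag) ycbA (fun g _ b hb => ycb_mem h g hb)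
    (fun g _ g' _ b _ => by
      simp only [ycbA, Matrix.SpecialLinearGroup.coe_mul, pl_mul])
    (fun g hg b hb => by
      obtain ⟨b1, b2⟩ := mem_product.1 hb
      obtain ⟨c1, c2, -⟩ := mem_offDiag.1 b2
      have dq : q ∣ M * (q * (∏ j, l j) ^ (2 * e)) := (Dvd.intro _ rfl : q ∣ _).mul_left _
      refine Prod.ext (funext fun j => ycb_fix hg ?_ ((ycb_LB h).1 b1 j)) (Prod.ext
        (ycb_fix hg dq ((mem_Xn h.hq.1.pos).1 c1)) (ycb_fix hg dq ((mem_Xn h.hq.1.pos).1 c2)))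
      exact ((pow_dvd_pow_of_dvd (dvd_prod_of_mem l (mem_univ j)) _).mul_left _).mul_left _)
    (fun b hb b' hb' => h.trans e hb hb') (fun x => ycbF ρ f I S x z) hx
  rw [← ycb_congr fun c hc => ycb_eqv h hρ hf I S hx (out_mem_cs hc) z, a1, ← mnB_apply] at a2
  have a3 : ∀ c ∈ cs M₀ M, (ycbF ρ f I S x - mnB (LB e l ×ˢ (Xn q).offDiag) (ycbF ρ f I S) :
      ℍ →ᵇ ℝ) (c.out • z) = ycbF ρ f I S x (c.out • z) +
        -mnB (LB e l ×ˢ (Xn q).offDiag) (ycbF ρ f I S) z := fun c hc => by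
    rw [BoundedContinuousFunction.sub_apply, ycb_minv h hρ hf I S _ (out_mem_cs hc),
      sub_eq_add_neg]
  rw [ycb_congr a3, mn_add, a2, mn_const (cs_ne hM h0), add_neg_cancel]

theorem ycb_HK (n : ℕ) (η : Set V2 → M2) (g : ℍ →ᵇ ℝ) (z : ℍ) :
    HK n η g z = mn (Xn n) fun L => g (act (η L) z) := by
  rw [HK, mnB_apply]
  rfl

theorem ycb_move (h : CuP y M₀ q l) (hρ : IsRS e (M₀ * q) l ρ) (hf : ycbE M₀ q f) (I : Finset κ)
    (S : κ → Finset (Fin k)) (j : Fin k) {M : ℕ} {η : Set V2 → M2}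
    (hη : IsR (l j ^ (2 * e)) M ((l j : ℤ) ^ e) η)
    (hM : M₀ * q * ∏ i ∈ univ.erase j, l i ^ (2 * e) ∣ M) (z : ℍ) :
    mnB (LB e l ×ˢ (Xn q).offDiag) (ycbF ρ f I S) z = mn (LB e l ×ˢ (Xn q).offDiag) fun x =>
      ycbF ρ f {i ∈ I | ¬ j ∈ S i} S x z *
        HK (l j ^ (2 * e)) η (ycbF ρ f {i ∈ I | j ∈ S i} (fun i => (S i).erase j) x) z := by
  have a1 : ∀ G : (Fin k → Set V2) × Set V2 × Set V2 → ℝ, mn (LB e l ×ˢ (Xn q).offDiag) G =
      mn (LB e l ×ˢ (Xn q).offDiag) fun x => mn (Xn (l j ^ (2 * e))) fun L =>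
        G (Function.update x.1 j L, x.2) := fun G => by
    rw [mn_prod, mn_prod, LB, ycb_update (fun j => Xn (l j ^ (2 * e))) j (ycb_ne (ycb_lp h j _))]
    exact congrArg _ (funext fun t => mn_swap _ _ fun L ω => G (Function.update t j L, ω))
  rw [mnB_apply, a1]
  refine ycb_congr fun x hx => ?_
  rw [ycb_HK, ← mn_mul]
  refine ycb_congr fun L hL => ?_
  obtain ⟨b1, b2⟩ := mem_product.1 hx
  have b3 : Function.update x.1 j L ∈ LB e l := (ycb_LB h).2 fun i => by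
    by_cases hi : i = j
    · subst hi
      rw [Function.update_self]
      exact (mem_Xn (ycb_lp h i _)).1 hL
    · rw [Function.update_of_ne hi]
      exact (ycb_LB h).1 b1 i
  obtain ⟨c1, c2, c3⟩ := hη L hL
  have c4 : 0 < (η L).det := by
    rw [c1]
    exact_mod_cast ycb_lp h j _
  rw [ycb_apply, ycb_apply, ycb_apply, ← prod_filter_not_mul_prod_filter I fun i => j ∈ S i]
  congr 1
  · refine prod_congr rfl fun i hi => ?_
    have hj := (mem_filter.1 hi).2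
    obtain ⟨d1, d2, d3⟩ := hρ (S i) _ b1
    obtain ⟨d4, d5, d6⟩ := hρ (S i) _ b3
    obtain ⟨δ, hδ, hd⟩ := ycb_gam h (S i) d1 d4 (fun i' hi' => by
      rw [d2 i' hi', d5 i' hi', Function.update_of_ne fun e : i' = j => hj (e ▸ hi')]) d3 d6
    change f i x.2 (act (ρ (S i) (Function.update x.1 j L)) z) = _
    rw [hd, act_mul (vact_SL_det δ) (ycb_pos h hρ _ b1), act_SL, ycb_ginv h hf i b2 δ hδ]
  · refine prod_congr rfl fun i hi => ?_
    have hj := (mem_filter.1 hi).2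
    obtain ⟨δ, hδ, hd⟩ := hρ.split h hj b3 b1
      (fun i' hi' => (Function.update_of_ne (ne_of_mem_erase hi') _ _).symm) c1
      (by rw [c2, Function.update_self]) (c3.mono (dvd_trans (mul_dvd_mul_left _
        (prod_dvd_prod_of_subset _ _ _ (erase_subset_erase j (subset_univ _)))) hM))
    have p := ycb_pos h hρ ((S i).erase j) b1
    change f i x.2 (act (ρ (S i) (Function.update x.1 j L)) z) = _
    rw [hd, act_mul (vact_SL_det δ) (by rw [Matrix.det_mul]; exact mul_pos p c4), act_SL,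
      ycb_ginv h hf i b2 δ hδ, act_mul p c4]

theorem ycb_gabs {N : ℕ} {g : ℍ →ᵇ ℝ} (h : GInv N g) : GInv N (|g| : ℍ →ᵇ ℝ) :=
  fun γ hγ z => congrArg abs (h γ hγ z)

theorem ycb_step (he : 0 < e) (h : CuP y M₀ q l) (hρ : IsRS e (M₀ * q) l ρ) (hf : ycbE M₀ q f)
    (hb : ∀ i ω z, |f i ω z| ≤ 1) {K D : ℝ} (hK : 0 ≤ K) (hD : 0 ≤ D) (hL : ∀ i ω, Lip K (f i ω))
    (I : Finset κ) (S : κ → Finset (Fin k)) (j : Fin k) {n₀ : ℕ} (hI : #I ≤ n₀)
    (hu : ∀ (A : Finset ℕ) (η : Set V2 → M2) (g : ℍ →ᵇ ℝ), #A ≤ k →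
      (∀ p ∈ A, p.Prime ∧ y < p ∧ p ≤ 2 * y ∧ ¬ p ∣ M₀ ∧ p ≠ l j) →
      IsR (l j ^ (2 * e)) (M₀ * ∏ p ∈ A, p ^ (2 * e)) ((l j : ℤ) ^ e) η →
      GInv (M₀ * ∏ p ∈ A, p ^ (2 * e)) g → (∀ z, |g z| ≤ 2) → Lip (2 * (n₀ * K)) g →
      ZM M₀ (M₀ * ∏ p ∈ A, p ^ (2 * e)) g →
      IN (M₀ * ∏ p ∈ A, p ^ (2 * e)) |HK (l j ^ (2 * e)) η g| ≤ D) :
    IN M₀ |mnB (LB e l ×ˢ (Xn q).offDiag) (ycbF ρ f I S)| ≤
      min (IN M₀ |mnB (LB e l ×ˢ (Xn q).offDiag) (ycbF ρ f {i ∈ I | ¬ j ∈ S i} S)|)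
        (IN M₀ |mnB (LB e l ×ˢ (Xn q).offDiag)
          (ycbF ρ f {i ∈ I | j ∈ S i} fun i => (S i).erase j)|) + D := by
  set O := LB e l ×ˢ (Xn q).offDiag
  set A : Finset ℕ := insert q ((univ.erase j).image l) with hA
  have hq : q ∉ (univ.erase j).image l := fun hh => by
    obtain ⟨i, -, hi⟩ := mem_image.1 hh
    exact (h.hl i).2.2.2.2 hi
  have hc : #A ≤ k := by
    have h1 := card_image_le (s := univ.erase j) (f := l)
    rw [card_erase_of_mem (mem_univ j), card_univ, Fintype.card_fin] at h1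
    have h2 := j.pos
    rw [hA, card_insert_of_notMem hq]
    omega
  have hp : ∀ p ∈ A, p.Prime ∧ y < p ∧ p ≤ 2 * y ∧ ¬ p ∣ M₀ ∧ p ≠ l j := fun p hp => by
    rcases mem_insert.1 hp with rfl | hp
    · exact ⟨h.hq.1, h.hq.2.1, h.hq.2.2.1, h.hq.2.2.2, (h.hl j).2.2.2.2.symm⟩
    · obtain ⟨i, hi, rfl⟩ := mem_image.1 hp
      exact ⟨(h.hl i).1, (h.hl i).2.1, (h.hl i).2.2.1, (h.hl i).2.2.2.1,
        fun e => ne_of_mem_erase hi (h.inj e)⟩
  set M := M₀ * ∏ p ∈ A, p ^ (2 * e) with hM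
  have hM0 : 0 < M := Nat.mul_pos h.pos (prod_pos fun p h' => pow_pos (hp p h').1.pos _)
  have d0 : M₀ ∣ M := Dvd.intro _ rfl
  have d1 : M₀ * q * ∏ i ∈ univ.erase j, l i ^ (2 * e) ∣ M := by
    rw [hM, hA, prod_insert hq, prod_image fun a _ b _ e => h.inj e, mul_assoc]
    exact mul_dvd_mul_left _ (mul_dvd_mul_right (dvd_pow_self q (by omega)) _)
  have c0 : (l j).Coprime M := Nat.Coprime.mul_right (ycb_lM h j)
    (Nat.Coprime.prod_right fun p h' => Nat.Coprime.pow_right _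
      ((Nat.coprime_primes (h.hl j).1 (hp p h').1).2 (hp p h').2.2.2.2.symm))
  have hn := ycb_lp h j (2 * e)
  have hex : ∀ L : Set V2, ∃ η : M2, L ∈ Xn (l j ^ (2 * e)) → η.det = (l j ^ (2 * e) : ℕ) ∧
      Ker (l j ^ (2 * e)) η = L ∧ Cg M η ((l j : ℤ) ^ e) := fun L => by
    by_cases hL : L ∈ Xn (l j ^ (2 * e))
    · obtain ⟨η, hη⟩ := ((mem_Xn hn).1 hL).exists_Cg hn hM0 (s := (l j : ℤ) ^ e)
        (IsCoprime.pow_left (Nat.isCoprime_iff_coprime.2 c0))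
        ⟨0, by push_cast; ring⟩
      exact ⟨η, fun _ => hη⟩
    · exact ⟨1, fun h' => absurd h' hL⟩
  choose η hη using hex
  have hR : IsR (l j ^ (2 * e)) M ((l j : ℤ) ^ e) η := hη
  set P0 := ycbF ρ f {i ∈ I | ¬ j ∈ S i} S
  set P1 := ycbF ρ f {i ∈ I | j ∈ S i} fun i => (S i).erase j
  have i0 : GInv M₀ (mnB O P0) := ycb_minv h hρ hf _ _
  have i1 : GInv M₀ (mnB O P1) := ycb_minv h hρ hf _ _
  have b0 : ∀ z, |mnB O P0 z| ≤ 1 := fun z => abs_mnB_le zero_le_one fun x _ => ycb_abs hb _ _ z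
  have b1 : ∀ z, |mnB O P1 z| ≤ 1 := fun z => abs_mnB_le zero_le_one fun x _ => ycb_abs hb _ _ z
  have l1 : ∀ x, Lip (n₀ * K) (P1 x) := fun x z w => by
    have h1 := Lip.prod hK (O := {i ∈ I | j ∈ S i})
      (F := fun i => cact (f i x.2) (ρ ((S i).erase j) x.1))
      (fun i _ => ⟨(hL i _).cact _, fun z => hb i _ _⟩) z w
    refine h1.trans (mul_le_mul_of_nonneg_right (mul_le_mul_of_nonneg_right ?_ hK) dist_nonneg)
    exact_mod_cast (card_filter_le _ _).trans hI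
  have l2 : Lip (n₀ * K) (mnB O P1) := Lip.mnB (by positivity) fun x _ => l1 x
  have e1 : ∀ x ∈ O, IN M |HK (l j ^ (2 * e)) η (P1 x - mnB O P1)| ≤ D := fun x hx => by
    have g1 : GInv M (P1 x) := ycb_lev h hρ hf _ _ hx fun i _ => by
      refine dvd_trans (mul_dvd_mul_left _ ?_) d1
      rw [← prod_pow]
      exact prod_dvd_prod_of_subset _ _ _ (erase_subset_erase j (subset_univ _))
    refine hu A η _ hc hp hR (fun γ hγ z => ?_) (fun z => ?_) (fun z w => ?_)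
      (ycb_zm h hρ hf _ _ hx hM0 d0 g1)
    · rw [BoundedContinuousFunction.sub_apply, BoundedContinuousFunction.sub_apply, g1 γ hγ,
        i1.mono d0 γ hγ]
    · rw [BoundedContinuousFunction.sub_apply]
      have := abs_sub (P1 x z) (mnB O P1 z)
      have t : |P1 x z| ≤ 1 := ycb_abs hb _ _ z
      linarith [b1 z]
    · rw [BoundedContinuousFunction.sub_apply, BoundedContinuousFunction.sub_apply, sub_sub_sub_comm]
      have := abs_sub (P1 x z - P1 x w) (mnB O P1 z - mnB O P1 w)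
      linarith [l1 x z w, l2 z w]
  have e2 : ∀ z, |mnB O (ycbF ρ f I S) z| ≤ |mnB O P0 z| * |HK (l j ^ (2 * e)) η (mnB O P1) z| +
      mnB O (fun x => |HK (l j ^ (2 * e)) η (P1 x - mnB O P1)|) z := fun z => by
    have s1 : ∀ x, P0 x z * HK (l j ^ (2 * e)) η (P1 x) z =
        HK (l j ^ (2 * e)) η (mnB O P1) z * P0 x z +
          P0 x z * HK (l j ^ (2 * e)) η (P1 x - mnB O P1) z := fun x => by
      have s2 : HK (l j ^ (2 * e)) η (P1 x) z = HK (l j ^ (2 * e)) η (mnB O P1) z +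
          HK (l j ^ (2 * e)) η (P1 x - mnB O P1) z := by
        rw [ycb_HK, ycb_HK, ycb_HK, ← mn_add]
        exact ycb_congr fun L _ => by rw [BoundedContinuousFunction.sub_apply, add_sub_cancel]
      rw [s2]
      ring
    rw [ycb_move h hρ hf I S j hR d1, ycb_congr fun x _ => s1 x, mn_add, mn_mul, ← mnB_apply,
      mnB_apply O fun x => |HK (l j ^ (2 * e)) η (P1 x - mnB O P1)|]
    refine (abs_add_le _ _).trans (add_le_add (le_of_eq ?_) ((abs_mn_le _ _).trans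
      (mn_mono fun x _ => ?_)))
    · rw [abs_mul, mul_comm]
    · rw [abs_mul]
      exact mul_le_of_le_one_left (abs_nonneg _) (ycb_abs hb _ _ z)
  have e3 : IN M (mnB O fun x => |HK (l j ^ (2 * e)) η (P1 x - mnB O P1)|) ≤ D := by
    rw [IN_mnB hM0]
    exact ycb_le hD e1
  have e4 : ∀ z, |HK (l j ^ (2 * e)) η (mnB O P1) z| ≤ HK (l j ^ (2 * e)) η |mnB O P1| z :=
    fun z => by
      rw [ycb_HK, ycb_HK]
      exact abs_mn_le _ _
  have e5 : ∀ z, |HK (l j ^ (2 * e)) η (mnB O P1) z| ≤ 1 := fun z => by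
    rw [ycb_HK]
    exact (abs_mn_le _ _).trans (ycb_le zero_le_one fun L _ => b1 _)
  rw [← IN_level h.pos hM0 d0 (ycb_gabs (ycb_minv h hρ hf I S)), ← min_add_add_right, le_min_iff]
  constructor
  · rw [← IN_level h.pos hM0 d0 (ycb_gabs i0)]
    refine le_trans (IN_mono hM0 fun z => ?_) ((IN_add hM0 _ _).le.trans (add_le_add le_rfl e3))
    exact (e2 z).trans (add_le_add (mul_le_of_le_one_right (abs_nonneg _) (e5 z)) le_rfl)
  · rw [← IN_level h.pos hM0 d0 (ycb_gabs i1),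
      ← IN_HK hn hM0 (Nat.Coprime.pow_left _ c0) hR ((ycb_gabs i1).mono d0)]
    refine le_trans (IN_mono hM0 fun z => ?_) ((IN_add hM0 _ _).le.trans (add_le_add le_rfl e3))
    exact (e2 z).trans (add_le_add
      ((mul_le_of_le_one_left (abs_nonneg _) (b0 z)).trans (e4 z)) le_rfl)

theorem ycb_base (h : CuP y M₀ q l) (hρ : IsRS e (M₀ * q) l ρ) (hf : ycbE M₀ q f) (i₀ : κ)
    {S : κ → Finset (Fin k)} (hS : S i₀ = ∅) {b : ℝ}
    (hb : ∀ z, |mn (Xn q).offDiag fun ω => f i₀ ω z| ≤ b) :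
    IN M₀ |mnB (LB e l ×ˢ (Xn q).offDiag) (ycbF ρ f {i₀} S)| ≤ b := by
  refine (IN_mono h.pos fun z => ?_).trans (IN_const h.pos b).le
  have a1 : ∀ x ∈ LB e l ×ˢ (Xn q).offDiag, ycbF ρ f {i₀} S x z = f i₀ x.2 z := fun x hx => by
    obtain ⟨b1, b2⟩ := mem_product.1 hx
    obtain ⟨d1, -, d3⟩ := hρ ∅ _ b1
    obtain ⟨δ, hδ, hd⟩ := ycb_gam (e := e) h ∅ (η := 1) (by simp) d1
      (fun j hj => absurd hj (notMem_empty j)) (fun i j => by simp) d3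
    rw [ycb_apply, prod_singleton, hS, hd, mul_one, act_SL, ycb_ginv h hf i₀ b2 δ hδ]
  change |mnB (LB e l ×ˢ (Xn q).offDiag) (ycbF ρ f {i₀} S) z| ≤ b
  rw [mnB_apply, ycb_congr a1, mn_prod]
  exact (abs_mn_le _ _).trans (ycb_le ((abs_nonneg _).trans (hb z)) fun t _ => hb z)

theorem cube {e : ℕ} (he : 0 < e) : ∃ (C : ℝ) (y₀ : ℕ), 0 < C ∧ ∀ (y M₀ q k : ℕ) (l : Fin k → ℕ)
    (ρ : Finset (Fin k) → (Fin k → Set V2) → M2) (κ : Type) (I : Finset κ)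
    (f : κ → Set V2 × Set V2 → (ℍ →ᵇ ℝ)) (S : κ → Finset (Fin k)) (i₀ : κ) (K b : ℝ), y₀ ≤ y →
    M₀ ^ 30 ≤ y → CuP y M₀ q l → IsRS e (M₀ * q) l ρ → (∀ i ω z, |f i ω z| ≤ 1) → 0 ≤ K →
    (∀ i ω, Lip K (f i ω)) →
    (∀ i, ∀ δ ∈ CongruenceSubgroup.Gamma M₀, ∀ ω ∈ (Xn q).offDiag, ∀ z,
      f i ω (δ • z) = f i (pl (δ : M2) ω.1, pl (δ : M2) ω.2) z) →
    i₀ ∈ I → (∀ i ∈ I, i ≠ i₀ → S i ≠ S i₀) →
    (∀ z, |mn (Xn q).offDiag fun ω => f i₀ ω z| ≤ b) →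
    IN M₀ |mnB (LB e l ×ˢ (Xn q).offDiag) fun x => ∏ i ∈ I, cact (f i x.2) (ρ (S i) x.1)| ≤
      b + k * (C * 3 ^ k * (1 + #I * K) * (y : ℝ) ^ (-(1 / 1000 : ℝ))) := by
  obtain ⟨C, y₀, hC, hug⟩ := ug (2 * e)
  refine ⟨2 * C, y₀, by positivity, ?_⟩
  intro y M₀ q k l ρ κ I f S i₀ K b hy hM h hρ hb hK hL hf hi hS h0
  set D : ℝ := 2 * C * 3 ^ k * (1 + #I * K) * (y : ℝ) ^ (-(1 / 1000 : ℝ)) with hD
  have hD0 : 0 ≤ D := by positivity
  have key : ∀ (J : Finset (Fin k)) (I' : Finset κ) (S' : κ → Finset (Fin k)), #I' ≤ #I →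
      i₀ ∈ I' → (∀ i ∈ I', i ≠ i₀ → S' i ≠ S' i₀) → (∀ i ∈ I', S' i ⊆ J) →
      IN M₀ |mnB (LB e l ×ˢ (Xn q).offDiag) (ycbF ρ f I' S')| ≤ b + #J * D := by
    intro J
    induction J using Finset.induction_on with
    | empty =>
      intro I' S' _ h1 h2 h3
      have h4 : I' = {i₀} := eq_singleton_iff_unique_mem.2 ⟨h1, fun i hi' => by
        by_contra hne
        exact h2 i hi' hne ((subset_empty.1 (h3 i hi')).trans (subset_empty.1 (h3 i₀ h1)).symm)⟩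
      rw [card_empty, Nat.cast_zero, zero_mul, add_zero, h4]
      exact ycb_base h hρ hf i₀ (subset_empty.1 (h3 i₀ h1)) h0
    | insert j J hj ih =>
      intro I' S' h1 h2 h3 h4
      have h5 := ycb_step he h hρ hf hb hK hD0 hL I' S' j h1 fun A η g a1 a2 a3 a4 a5 a6 a7 => by
        refine (hug y M₀ _ (l j) A _ η g (2 * (#I * K)) 2 hy h.pos hM rfl a2 (h.hl j).1
          (h.hl j).2.1 (h.hl j).2.2.1 (h.hl j).2.2.2.1 a3 a4 two_pos a5 (by positivity) a6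
          a7).trans ?_
        have a8 : (3 : ℝ) ^ #A ≤ 3 ^ k := pow_le_pow_right₀ (by norm_num) a1
        rw [hD]
        refine mul_le_mul_of_nonneg_right ?_ (by positivity)
        have a9 := mul_le_mul_of_nonneg_left a8
          (show 0 ≤ 2 * C * (1 + #I * K) by positivity)
        linarith
      rw [card_insert_of_notMem hj]
      push_cast
      by_cases hj0 : j ∈ S' i₀
      · have h6 := ih {i ∈ I' | j ∈ S' i} (fun i => (S' i).erase j)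
          ((card_filter_le _ _).trans h1) (mem_filter.2 ⟨h2, hj0⟩)
          (fun i hi' hne e' => h3 i (mem_filter.1 hi').1 hne (by
            rw [← insert_erase (mem_filter.1 hi').2, ← insert_erase hj0]
            exact congrArg (insert j) e'))
          fun i hi' => subset_insert_iff.1 (h4 i (mem_filter.1 hi').1)
        linarith [min_le_right
          (IN M₀ |mnB (LB e l ×ˢ (Xn q).offDiag) (ycbF ρ f {i ∈ I' | ¬ j ∈ S' i} S')|)
          (IN M₀ |mnB (LB e l ×ˢ (Xn q).offDiag)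
            (ycbF ρ f {i ∈ I' | j ∈ S' i} fun i => (S' i).erase j)|)]
      · have h6 := ih {i ∈ I' | ¬ j ∈ S' i} S' ((card_filter_le _ _).trans h1)
          (mem_filter.2 ⟨h2, hj0⟩) (fun i hi' => h3 i (mem_filter.1 hi').1)
          fun i hi' => (subset_insert_iff_of_notMem (mem_filter.1 hi').2).1
            (h4 i (mem_filter.1 hi').1)
        linarith [min_le_left
          (IN M₀ |mnB (LB e l ×ˢ (Xn q).offDiag) (ycbF ρ f {i ∈ I' | ¬ j ∈ S' i} S')|)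
          (IN M₀ |mnB (LB e l ×ˢ (Xn q).offDiag)
            (ycbF ρ f {i ∈ I' | j ∈ S' i} fun i => (S' i).erase j)|)]
  have h1 := key univ I S le_rfl hi hS fun i _ => subset_univ _
  rw [card_univ, Fintype.card_fin] at h1
  exact h1

end Pool.Agent.EQ
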