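import Pool.Agent.P.MP_ad7a55_nt.YCb

/-! Large deviations for the cube. -/

set_option autoImplicit false

noncomputable section

open MeasureTheory Topology Filter UpperHalfPlane Finset
open scoped MatrixGroups BoundedContinuousFunction Matrix Classical

namespace Pool.Agent.EQ

theorem ycc_ev (A : ℝ) {b : ℝ} (hb : 0 < b) (n : ℕ) :
    ∀ᶠ L : ℝ in atTop, A * L ^ n ≤ Real.exp (b * L) := by
  have h := (isLittleO_pow_exp_pos_mul_atTop n hb).bound (c := 1 / (|A| + 1)) (by positivity)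
  filter_upwards [h, eventually_ge_atTop (0 : ℝ)] with L hL h0
  rw [Real.norm_of_nonneg (by positivity), Real.norm_of_nonneg (Real.exp_pos _).le] at hL
  have h1 : A * L ^ n ≤ (|A| + 1) * L ^ n :=
    mul_le_mul_of_nonneg_right (by linarith [le_abs_self A]) (by positivity)
  have h2 : (|A| + 1) * L ^ n ≤ (|A| + 1) * (1 / (|A| + 1) * Real.exp (b * L)) :=
    mul_le_mul_of_nonneg_left hL (by positivity)
  have h3 : (|A| + 1) * (1 / (|A| + 1) * Real.exp (b * L)) = Real.exp (b * L) := by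
    field_simp
  linarith

theorem ycc_one {T L R N u : ℝ} (hT : 1 ≤ T) (hL : 12 * T ^ 2 ≤ L) (hR : 0 ≤ R) (hRL : R ≤ 2 * L)
    (hN : L ^ 3 ≤ N) (hu : 0 ≤ u) (huT : u ≤ T) : u ^ 2 * (R ^ 2 / N) ≤ Real.exp (-1) := by
  have hT2 : 1 ≤ T ^ 2 := one_le_pow₀ hT
  have hL0 : 0 < L := by linarith
  have h1 : R ^ 2 / N ≤ (2 * L) ^ 2 / L ^ 3 :=
    div_le_div₀ (by positivity) (pow_le_pow_left₀ hR hRL 2) (by positivity) hN
  have h2 : (2 * L) ^ 2 / L ^ 3 = 4 / L := by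
    field_simp
    ring
  have h3 : u ^ 2 * (R ^ 2 / N) ≤ T ^ 2 * (4 / L) := by
    rw [← h2]
    refine mul_le_mul (pow_le_pow_left₀ hu huT 2) h1 ?_ (by positivity)
    exact div_nonneg (by positivity) (le_trans (by positivity) hN)
  have h4 : T ^ 2 * (4 / L) ≤ 1 / 3 := by
    rw [← mul_div_assoc, div_le_div_iff₀ hL0 (by norm_num)]
    linarith
  have h5 : (1 / 3 : ℝ) ≤ Real.exp (-1) := by
    rw [Real.exp_neg, one_div]
    exact inv_anti₀ (Real.exp_pos 1) (by linarith [Real.exp_one_lt_d9])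
  linarith

theorem ycc_two {C K L : ℝ} {k r : ℕ} (hL : 1 ≤ L) (hk : (2 : ℝ) ^ k ≤ 2 * L ^ 3)
    (hr : (r : ℝ) ≤ 2 * L) {E : ℝ} (hE : 0 ≤ E) :
    E + k * (C * 3 ^ k * (1 + (2 * r : ℕ) * K) * E) ≤
      (1 + 8 * |C| * (1 + 4 * |K|)) * L ^ 10 * E := by
  have h1 : (k : ℝ) ≤ 2 * L ^ 3 := le_trans (by exact_mod_cast Nat.lt_two_pow_self.le) hk
  have h2 : (3 : ℝ) ^ k ≤ (2 * L ^ 3) ^ 2 := by
    refine le_trans ?_ (pow_le_pow_left₀ (by positivity) hk 2)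
    rw [← pow_mul, mul_comm, pow_mul]
    exact pow_le_pow_left₀ (by norm_num) (by norm_num) k
  have hK := abs_nonneg K
  have h3 : |1 + ((2 * r : ℕ) : ℝ) * K| ≤ (1 + 4 * |K|) * L := by
    refine le_trans (abs_add_le _ _) ?_
    rw [abs_one, abs_mul, Nat.abs_cast]
    push_cast
    nlinarith [mul_le_mul_of_nonneg_right hr hK]
  have h4 : C * 3 ^ k * (1 + ((2 * r : ℕ) : ℝ) * K) ≤
      |C| * (2 * L ^ 3) ^ 2 * ((1 + 4 * |K|) * L) := by
    refine le_trans (le_abs_self _) ?_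
    rw [abs_mul, abs_mul, abs_of_nonneg (by positivity : (0 : ℝ) ≤ 3 ^ k)]
    exact mul_le_mul (mul_le_mul_of_nonneg_left h2 (abs_nonneg C)) h3 (abs_nonneg _)
      (by positivity)
  have h5 : (k : ℝ) * (C * 3 ^ k * (1 + ((2 * r : ℕ) : ℝ) * K) * E) ≤
      2 * L ^ 3 * (|C| * (2 * L ^ 3) ^ 2 * ((1 + 4 * |K|) * L) * E) := by
    refine le_trans (mul_le_mul_of_nonneg_left (mul_le_mul_of_nonneg_right h4 hE)
      (Nat.cast_nonneg k)) (mul_le_mul_of_nonneg_right h1 (by positivity))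
  have h6 : E ≤ L ^ 10 * E := le_mul_of_one_le_left hE (one_le_pow₀ hL)
  nlinarith

theorem cube_num {t : ℝ} (ht : 0 < t) : ∃ c : ℝ, 0 < c ∧ c ≤ 1 / 30 ∧ ∀ C K c₀ : ℝ, 0 < c₀ →
    ∃ y₀ : ℕ, ∀ y k : ℕ, y₀ ≤ y → Real.log y ^ 3 ≤ 2 ^ k → 2 ^ k ≤ 2 * Real.log y ^ 3 →
    ∃ r : ℕ, ((y : ℝ) ^ c) ^ 3 / c₀ * (2 / t) ^ (2 * r) * (((r : ℝ) ^ 2 / 2 ^ k) ^ r +
      (1 / y + k * (C * 3 ^ k * (1 + (2 * r : ℕ) * K) * (y : ℝ) ^ (-(1 / 1000 : ℝ))))) ≤
      (y : ℝ) ^ (-c) * (y : ℝ) ^ (-c) := by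
  obtain ⟨T, hT, htT⟩ : ∃ T : ℝ, 1 ≤ T ∧ 2 / t ≤ T := ⟨max 1 (2 / t), le_max_left _ _, le_max_right _ _⟩
  have ha : 0 ≤ Real.log T := Real.log_nonneg hT
  obtain ⟨c, hc, hc1, hc2⟩ : ∃ c : ℝ, 0 < c ∧ c ≤ 1 / 48000 ∧ 12 * c * Real.log T ≤ 1 / 4000 := by
    refine ⟨1 / (48000 * (Real.log T + 1)), by positivity, ?_, ?_⟩
    · exact one_div_le_one_div_of_le (by norm_num) (by linarith)
    · rw [mul_one_div, div_mul_eq_mul_div, div_le_div_iff₀ (by positivity) (by norm_num)]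
      linarith
  refine ⟨c, hc, by linarith, fun C K c₀ hc₀ => ?_⟩
  set D : ℝ := 1 + 8 * |C| * (1 + 4 * |K|) with hD
  have hD0 : 0 ≤ D := by positivity
  have hev : ∀ᶠ L : ℝ in atTop, 12 * T ^ 2 ≤ L ∧ 2 / c₀ * L ^ 0 ≤ Real.exp (c * L) ∧
      2 * T ^ 2 * D / c₀ * L ^ 10 ≤ Real.exp (1 / 2000 * L) :=
    (eventually_ge_atTop _).and ((ycc_ev _ hc 0).and (ycc_ev _ (by norm_num) 10))
  have hev2 := ((Real.tendsto_log_atTop.comp tendsto_natCast_atTop_atTop).eventually hev).and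
    (eventually_ge_atTop 1)
  obtain ⟨y₀, hy₀⟩ := eventually_atTop.1 hev2
  refine ⟨y₀, fun y k hy hk1 hk2 => ?_⟩
  obtain ⟨⟨e1, e2, e3⟩, hy1⟩ := hy₀ y hy
  simp only [Function.comp_apply] at e1 e2 e3
  have hy0 : (0 : ℝ) < y := by exact_mod_cast hy1
  have hpw : ∀ s : ℝ, (y : ℝ) ^ s = Real.exp (s * Real.log y) := fun s => by
    rw [Real.rpow_def_of_pos hy0, mul_comm]
  have hyi : 1 / (y : ℝ) = Real.exp (-Real.log y) := by
    rw [Real.exp_neg, Real.exp_log hy0, one_div]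
  rw [hyi]
  simp only [hpw]
  generalize Real.log y = L at *
  have hT2 : 1 ≤ T ^ 2 := one_le_pow₀ hT
  have hL : 1 ≤ L := by linarith
  have hcL : 0 ≤ 6 * c * L := by positivity
  refine ⟨⌈6 * c * L⌉₊, ?_⟩
  have r1 : 6 * c * L ≤ (⌈6 * c * L⌉₊ : ℝ) := Nat.le_ceil _
  have r2 : (⌈6 * c * L⌉₊ : ℝ) ≤ 6 * c * L + 1 := (Nat.ceil_lt_add_one hcL).le
  generalize ⌈6 * c * L⌉₊ = r at *
  have r3 : (r : ℝ) ≤ 2 * L := by nlinarith
  have ht2 : (0 : ℝ) ≤ 2 / t := by positivity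
  have a1 : (2 / t) ^ (2 * r) * ((r : ℝ) ^ 2 / 2 ^ k) ^ r ≤ Real.exp (-(6 * c * L)) := by
    rw [pow_mul, ← mul_pow]
    refine le_trans (pow_le_pow_left₀ (by positivity)
      (ycc_one hT e1 (Nat.cast_nonneg r) r3 hk1 ht2 htT) r) ?_
    rw [← Real.exp_nat_mul]
    exact Real.exp_le_exp.2 (by linarith)
  have a2 : (2 / t) ^ (2 * r) ≤ T ^ 2 * Real.exp (1 / 4000 * L) := by
    refine le_trans (pow_le_pow_left₀ ht2 htT _) ?_
    have hT0 : 0 < T := by linarith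
    have : T ^ (2 * r) = Real.exp (((2 * r : ℕ) : ℝ) * Real.log T) := by
      rw [Real.exp_nat_mul, Real.exp_log hT0]
    have h2 : T ^ 2 = Real.exp (((2 : ℕ) : ℝ) * Real.log T) := by
      rw [Real.exp_nat_mul, Real.exp_log hT0]
    rw [this, h2, ← Real.exp_add]
    refine Real.exp_le_exp.2 ?_
    push_cast
    nlinarith [mul_le_mul_of_nonneg_right r2 ha, mul_le_mul_of_nonneg_right hc2 (by linarith : 0 ≤ L)]
  have a3 : Real.exp (-L) + k * (C * 3 ^ k * (1 + (2 * r : ℕ) * K) * Real.exp (-(1 / 1000) * L)) ≤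
      D * L ^ 10 * Real.exp (-(1 / 1000) * L) := by
    refine le_trans ?_ (ycc_two hL hk2 r3 (Real.exp_pos _).le)
    have : Real.exp (-L) ≤ Real.exp (-(1 / 1000) * L) := Real.exp_le_exp.2 (by linarith)
    linarith
  have b0 : 0 < Real.exp (c * L) ^ 3 / c₀ := by positivity
  have b1 : Real.exp (c * L) ^ 3 / c₀ * Real.exp (-(6 * c * L)) ≤
      Real.exp (-c * L) * Real.exp (-c * L) / 2 := by
    have h1 : Real.exp (c * L) ^ 3 * Real.exp (-(6 * c * L)) * Real.exp (c * L) =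
        Real.exp (-c * L) * Real.exp (-c * L) := by
      rw [← Real.exp_nat_mul, ← Real.exp_add, ← Real.exp_add, ← Real.exp_add]
      congr 1
      push_cast
      ring
    rw [← h1]
    have h2 := mul_le_mul_of_nonneg_left e2
      (by positivity : 0 ≤ Real.exp (c * L) ^ 3 * Real.exp (-(6 * c * L)))
    refine le_trans (le_of_eq ?_) (div_le_div_of_nonneg_right h2 (by norm_num))
    field_simp
  have b2 : Real.exp (c * L) ^ 3 / c₀ * (T ^ 2 * Real.exp (1 / 4000 * L) *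
      (D * L ^ 10 * Real.exp (-(1 / 1000) * L))) ≤ Real.exp (-c * L) * Real.exp (-c * L) / 2 := by
    have h1 : Real.exp (c * L) ^ 3 * Real.exp (1 / 4000 * L) * Real.exp (-(1 / 1000) * L) *
        Real.exp (1 / 2000 * L) ≤ Real.exp (-c * L) * Real.exp (-c * L) := by
      rw [← Real.exp_nat_mul, ← Real.exp_add, ← Real.exp_add, ← Real.exp_add, ← Real.exp_add]
      refine Real.exp_le_exp.2 ?_
      push_cast
      nlinarith
    have h2 := mul_le_mul_of_nonneg_left e3 (by positivity :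
      0 ≤ Real.exp (c * L) ^ 3 * Real.exp (1 / 4000 * L) * Real.exp (-(1 / 1000) * L))
    refine le_trans (le_of_eq ?_) (div_le_div_of_nonneg_right (h2.trans h1) (by norm_num))
    field_simp
  have b3 : (2 / t) ^ (2 * r) * (Real.exp (-L) +
      k * (C * 3 ^ k * (1 + (2 * r : ℕ) * K) * Real.exp (-(1 / 1000) * L))) ≤
      T ^ 2 * Real.exp (1 / 4000 * L) * (D * L ^ 10 * Real.exp (-(1 / 1000) * L)) :=
    le_trans (mul_le_mul_of_nonneg_left a3 (by positivity))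
      (mul_le_mul_of_nonneg_right a2 (by positivity))
  rw [mul_assoc, mul_add, mul_add]
  have b4 := mul_le_mul_of_nonneg_left a1 b0.le
  have b5 := mul_le_mul_of_nonneg_left b3 b0.le
  linarith

theorem ycc_cg {N : ℕ} {γ : SL(2, ℤ)} (h : γ ∈ CongruenceSubgroup.Gamma N) : Cg N (γ : M2) 1 := by
  obtain ⟨h0, h1, h2, h3⟩ := CongruenceSubgroup.Gamma_mem.1 h
  intro i j
  rw [← ZMod.intCast_zmod_eq_zero_iff_dvd]
  fin_cases i <;> fin_cases j <;> simp [h0, h1, h2, h3]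

theorem ycc_le {N M : ℕ} (hd : N ∣ M) {γ : SL(2, ℤ)} (h : γ ∈ CongruenceSubgroup.Gamma M) :
    γ ∈ CongruenceSubgroup.Gamma N :=
  Cg.gamma (η := 1) (s := 1) isCoprime_one_left (fun i j => by simp)
    (by rw [mul_one]; exact (ycc_cg h).mono hd)

theorem ycc_pl_inj (γ : SL(2, ℤ)) : Function.Injective (pl (γ : M2)) := by
  intro L L' h
  have h1 : ∀ X : Set V2, pl ((γ⁻¹ : SL(2, ℤ)) : M2) (pl (γ : M2) X) = X := fun X => by
    rw [← pl_mul, ← Matrix.SpecialLinearGroup.coe_mul, mul_inv_cancel]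
    ext v
    simp [pl]
  rw [← h1 L, h, h1]

theorem ycc_pl_mem {n : ℕ} (hn : 0 < n) (γ : SL(2, ℤ)) {L : Set V2} (h : L ∈ Xn n) :
    pl (γ : M2) L ∈ Xn n :=
  (mem_Xn hn).2 (((mem_Xn hn).1 h).pl hn (by rw [γ.det_coe]; exact isCoprime_one_left))

theorem ycc_off {α : Type} (X : Finset α) (a : α → ℝ) (ha : ∀ x, |a x| ≤ 1)
    (h0 : ∑ x ∈ X, a x = 0) {y : ℕ} (hy : 0 < y) (hX : y + 1 ≤ #X) :
    |mn X.offDiag fun ω => a ω.1 * a ω.2| ≤ 1 / y := by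
  have h1 : ∑ ω ∈ X ×ˢ X, a ω.1 * a ω.2 = 0 := by
    rw [Finset.sum_product' (f := fun x x' => a x * a x'), ← Finset.sum_mul_sum, h0, mul_zero]
  rw [← Finset.diag_union_offDiag, Finset.sum_union (Finset.disjoint_diag_offDiag X),
    Finset.sum_diag] at h1
  have h2 : |∑ x ∈ X, a x * a x| ≤ #X := by
    refine le_trans (Finset.abs_sum_le_sum_abs _ _) ?_
    refine le_trans (Finset.sum_le_sum (g := fun _ => (1 : ℝ)) fun x _ => ?_) (by simp)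
    rw [abs_mul]
    exact mul_le_one₀ (ha x) (abs_nonneg _) (ha x)
  have h3 : ((#X.offDiag : ℕ) : ℝ) = #X * #X - #X := by
    rw [Finset.offDiag_card, Nat.cast_sub (Nat.le_mul_self _), Nat.cast_mul]
  have h4 : (y : ℝ) + 1 ≤ #X := by exact_mod_cast hX
  have h5 : (0 : ℝ) < y := by exact_mod_cast hy
  have h6 : ∑ ω ∈ X.offDiag, a ω.1 * a ω.2 = -∑ x ∈ X, a x * a x := by linarith
  unfold mn
  rw [abs_div, Nat.abs_cast, h6, abs_neg, h3, div_le_div_iff₀ (by nlinarith) h5]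
  nlinarith [mul_le_mul_of_nonneg_right h2 h5.le]

theorem ycc_lip {K : ℝ} (hK : 0 ≤ K) {f g : ℍ →ᵇ ℝ} (hf : ∀ z, |f z| ≤ 1) (hg : ∀ z, |g z| ≤ 1)
    (h1 : Lip K f) (h2 : Lip K g) : Lip (2 * K) (f * g : ℍ →ᵇ ℝ) := by
  intro z w
  have e : (f * g) z - (f * g) w = (f z - f w) * g z + f w * (g z - g w) := by
    simp only [BoundedContinuousFunction.mul_apply]
    ring
  rw [e]
  refine le_trans (abs_add_le _ _) ?_
  rw [abs_mul, abs_mul]
  have a1 := mul_le_mul (h1 z w) (hg z) (abs_nonneg _) (by positivity)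
  have a2 := mul_le_mul (hf w) (h2 z w) (abs_nonneg _) zero_le_one
  linarith

theorem ycc_mn_nonneg {α : Type} {O : Finset α} {G : α → ℝ} (h : ∀ x ∈ O, 0 ≤ G x) :
    0 ≤ mn O G := div_nonneg (Finset.sum_nonneg h) (Nat.cast_nonneg _)

theorem ycc_mn_congr {α : Type} {O : Finset α} {G G' : α → ℝ} (h : ∀ x ∈ O, G x = G' x) :
    mn O G = mn O G' := by
  unfold mn
  rw [Finset.sum_congr rfl h]

theorem ycc_low {α : Type} (R : Finset α) (m : α → ℝ) (h : ∀ w ∈ R, 0 < m w) :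
    ∃ c : ℝ, 0 < c ∧ ∀ w ∈ R, c ≤ m w := by
  rcases R.eq_empty_or_nonempty with rfl | hR
  · exact ⟨1, one_pos, fun w hw => absurd hw (Finset.notMem_empty w)⟩
  · obtain ⟨w, hw, hm⟩ := R.exists_min_image m hR
    exact ⟨m w, h w hw, hm⟩

theorem ycc_ginv {y M₀ q k e : ℕ} {l : Fin k → ℕ} {ρ : Finset (Fin k) → (Fin k → Set V2) → M2}
    (h : CuP y M₀ q l) (hρ : IsRS e (M₀ * q) l ρ) {Y : Set V2 × Set V2 → (ℍ →ᵇ ℝ)}
    (hY : ∀ δ ∈ CongruenceSubgroup.Gamma M₀, ∀ ω ∈ (Xn q).offDiag, ∀ z,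
      Y ω (δ • z) = Y (pl (δ : M2) ω.1, pl (δ : M2) ω.2) z) (m : ℕ) :
    GInv M₀ (mnB (LB e l ×ˢ (Xn q).offDiag) fun x =>
      (mnB univ fun S => cact (Y x.2) (ρ S x.1)) ^ m) := by
  intro δ hδ z
  have hq := h.hq.1.pos
  have hdet : ∀ S, ∀ Ls ∈ LB e l, 0 < (ρ S Ls).det := fun S Ls hL => by
    rw [(hρ S Ls hL).1]
    exact_mod_cast pow_pos (Finset.prod_pos fun j _ => (h.hl j).1.pos) _
  have hoff : ∀ ω ∈ (Xn q).offDiag, (pl (δ : M2) ω.1, pl (δ : M2) ω.2) ∈ (Xn q).offDiag := by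
    intro ω hω
    obtain ⟨h1, h2, h3⟩ := Finset.mem_offDiag.1 hω
    exact Finset.mem_offDiag.2 ⟨ycc_pl_mem hq δ h1, ycc_pl_mem hq δ h2,
      fun h4 => h3 (ycc_pl_inj δ h4)⟩
  have hLB : ∀ Ls ∈ LB e l, (fun j => pl (δ : M2) (Ls j)) ∈ LB e l := fun Ls hL =>
    Fintype.mem_piFinset.2 fun j =>
      ycc_pl_mem (pow_pos (h.hl j).1.pos _) δ (Fintype.mem_piFinset.1 hL j)
  rw [mnB_apply, mnB_apply]
  rw [← mn_perm (O := LB e l ×ˢ (Xn q).offDiag)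
    (π := fun x => ((fun j => pl (δ : M2) (x.1 j)), pl (δ : M2) x.2.1, pl (δ : M2) x.2.2))
    (fun x hx => Finset.mem_product.2
      ⟨hLB _ (Finset.mem_product.1 hx).1, hoff _ (Finset.mem_product.1 hx).2⟩)
    (fun x _ x' _ hxx => by
      simp only [Prod.mk.injEq] at hxx
      exact Prod.ext (funext fun j => ycc_pl_inj δ (congrFun hxx.1 j))
        (Prod.ext (ycc_pl_inj δ hxx.2.1) (ycc_pl_inj δ hxx.2.2)))
    (fun x => ((mnB univ fun S => cact (Y x.2) (ρ S x.1)) ^ m) z)]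
  refine ycc_mn_congr fun x hx => ?_
  obtain ⟨hx1, hx2⟩ := Finset.mem_product.1 hx
  simp only [BoundedContinuousFunction.pow_apply, mnB_apply, cact_apply]
  refine congrArg (· ^ m) (ycc_mn_congr fun S _ => ?_)
  obtain ⟨δ', hδ', e1⟩ := hρ.smul h S hx1 δ
  have hc : Cg q (δ' : M2) 1 := (ycc_cg hδ').mono (Dvd.intro_left _ rfl)
  obtain ⟨h1, h2, -⟩ := Finset.mem_offDiag.1 (hoff _ hx2)
  rw [← act_SL δ z, ← act_mul (hdet S _ hx1) (vact_SL_det δ), e1,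
    ← Matrix.SpecialLinearGroup.coe_mul, act_mul (vact_SL_det _) (hdet S _ (hLB _ hx1)), act_SL,
    mul_smul, hY δ hδ _ hx2, hY δ' (ycc_le (Dvd.intro _ rfl) hδ') _ (hoff _ hx2),
    pl_Cg ((mem_Xn hq).1 h1) hc isCoprime_one_left, pl_Cg ((mem_Xn hq).1 h2) hc isCoprime_one_left]

theorem ycc_up {σ β : Type} [Fintype σ] [Nonempty σ] {M : ℕ} (hM : 0 < M) (O : Finset β)
    (G : β → σ → (ℍ →ᵇ ℝ)) (hG : ∀ x S z, |G x S z| ≤ 1) (r : ℕ) {B : ℝ} (hB : 0 ≤ B)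
    (h : ∀ (T : Fin (2 * r) → σ) (i₀ : Fin (2 * r)), (∀ i, i ≠ i₀ → T i ≠ T i₀) →
      IN M |mnB O fun x => ∏ i, G x (T i)| ≤ B) :
    IN M (mnB O fun x => (mnB univ (G x)) ^ (2 * r)) ≤ ((r : ℝ) ^ 2 / Fintype.card σ) ^ r + B := by
  have h1 : IN M (mnB O fun x => (mnB univ (G x)) ^ (2 * r)) ≤
      IN M (mnB (univ : Finset (Fin (2 * r) → σ)) fun T => |mnB O fun x => ∏ i, G x (T i)|) := by
    refine IN_mono hM fun z => ?_
    simp only [mnB_apply, BoundedContinuousFunction.pow_apply, mn_pow,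
      BoundedContinuousFunction.coe_abs, Pi.abs_apply, BoundedContinuousFunction.coe_prod,
      Finset.prod_apply]
    rw [mn_swap]
    exact mn_mono fun T _ => le_abs_self _
  rw [IN_mnB hM univ] at h1
  refine h1.trans (le_trans ?_ (add_le_add_left (few_single σ r) B))
  rw [pb_eq, ← mn_const (O := (univ : Finset (Fin (2 * r) → σ))) Finset.univ_nonempty B, ← mn_add]
  refine mn_mono fun T _ => ?_
  split_ifs with hT
  · obtain ⟨i₀, hi⟩ := hT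
    simpa using h T i₀ hi
  · have : IN M |mnB O fun x => ∏ i, G x (T i)| ≤ IN M (BoundedContinuousFunction.const ℍ 1) := by
      refine IN_mono hM fun z => ?_
      refine abs_mnB_le zero_le_one fun x _ => ?_
      rw [BoundedContinuousFunction.coe_prod, Finset.prod_apply, Finset.abs_prod]
      exact Finset.prod_le_one (fun i _ => abs_nonneg _) fun i _ => hG _ _ _
    rw [IN_const hM] at this
    linarith

theorem cube_bad {t : ℝ} (ht : 0 < t) : ∃ c : ℝ, 0 < c ∧ c ≤ 1 ∧ ∀ (e : ℕ) (K : ℝ) (Rn : Finset ℍ),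
    0 < e → 0 < K → (∀ w ∈ Rn, w ∈ ModularGroup.fd) → ∃ y₀ : ℕ, ∀ (y M₀ q k : ℕ)
    (l : Fin k → ℕ) (ρ : Finset (Fin k) → (Fin k → Set V2) → M2) (F : Set V2 → (ℍ →ᵇ ℝ)),
    y₀ ≤ y → (M₀ : ℝ) ≤ (y : ℝ) ^ c → Real.log y ^ 3 ≤ 2 ^ k → 2 ^ k ≤ 2 * Real.log y ^ 3 →
    CuP y M₀ q l → IsRS e (M₀ * q) l ρ → (∀ ξ z, |F ξ z| ≤ 1) → (∀ ξ, Lip K (F ξ)) →
    (∀ δ ∈ CongruenceSubgroup.Gamma M₀, ∀ ξ ∈ Xn q, ∀ z, F ξ (δ • z) = F (pl (δ : M2) ξ) z) →
    (∀ z, ∑ ξ ∈ Xn q, F ξ z = 0) → ∀ w ∈ Rn,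
    prb (LB e l) (fun Ls => (y : ℝ) ^ (-c) < prb (Xn q).offDiag fun ω =>
      t < |mn univ fun S => F ω.1 (act (ρ S Ls) w) * F ω.2 (act (ρ S Ls) w)|) ≤
      (y : ℝ) ^ (-c) := by
  obtain ⟨c, hc, hc30, hnum⟩ := cube_num ht
  refine ⟨c, hc, by linarith, fun e K Rn he hK hR => ?_⟩
  obtain ⟨C, y₁, hC, hcube⟩ := cube he
  have hr : 0 < t / (4 * K) := by positivity
  choose! cw hcw hball using fun w (hw : w ∈ Rn) => ball_lower (hR w hw) hr
  obtain ⟨c₀, hc₀, hlow⟩ := ycc_low Rn cw hcw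
  obtain ⟨y₂, hnum⟩ := hnum C (2 * K) c₀ hc₀
  refine ⟨max 1 (max y₁ y₂), ?_⟩
  intro y M₀ q k l ρ F hy hM hk1 hk2 hP hρ hF hLip hinv hsum w hw
  have hy1 : 1 ≤ y := le_trans (le_max_left _ _) hy
  have hy2 : y₁ ≤ y := le_trans (le_max_left _ _) (le_trans (le_max_right _ _) hy)
  have hy3 : y₂ ≤ y := le_trans (le_max_right _ _) (le_trans (le_max_right _ _) hy)
  have hy0 : (0 : ℝ) < y := by exact_mod_cast hy1
  obtain ⟨r, hnr⟩ := hnum y k hy3 hk1 hk2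
  have hM30 : M₀ ^ 30 ≤ y := by
    have h1 : (M₀ : ℝ) ^ 30 ≤ ((y : ℝ) ^ c) ^ 30 := pow_le_pow_left₀ (Nat.cast_nonneg _) hM 30
    rw [← Real.rpow_mul_natCast hy0.le] at h1
    have h2 : (y : ℝ) ^ (c * (30 : ℕ)) ≤ (y : ℝ) ^ (1 : ℝ) :=
      Real.rpow_le_rpow_of_exponent_le (by exact_mod_cast hy1) (by push_cast; linarith)
    rw [Real.rpow_one] at h2
    exact_mod_cast h1.trans h2
  obtain ⟨Y, hYd⟩ : ∃ Y : Set V2 × Set V2 → (ℍ →ᵇ ℝ), Y = fun ω => F ω.1 * F ω.2 := ⟨_, rfl⟩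
  have hY1 : ∀ ω z, |Y ω z| ≤ 1 := fun ω z => by
    simp only [hYd, BoundedContinuousFunction.mul_apply, abs_mul]
    exact mul_le_one₀ (hF _ _) (abs_nonneg _) (hF _ _)
  have hY2 : ∀ ω, Lip (2 * K) (Y ω) := fun ω => by
    rw [hYd]
    exact ycc_lip hK.le (hF _) (hF _) (hLip _) (hLip _)
  have hY3 : ∀ δ ∈ CongruenceSubgroup.Gamma M₀, ∀ ω ∈ (Xn q).offDiag, ∀ z,
      Y ω (δ • z) = Y (pl (δ : M2) ω.1, pl (δ : M2) ω.2) z := fun δ hδ ω hω z => by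
    obtain ⟨h1, h2, -⟩ := Finset.mem_offDiag.1 hω
    simp only [hYd, BoundedContinuousFunction.mul_apply, hinv δ hδ _ h1, hinv δ hδ _ h2]
  have hY4 : ∀ z, |mn (Xn q).offDiag fun ω => Y ω z| ≤ 1 / y := fun z => by
    have h1 := (card_Xn hP.hq.1 one_pos).1
    rw [pow_one] at h1
    rw [hYd]
    exact ycc_off (Xn q) (fun ξ => F ξ z) (fun ξ => hF ξ z) (hsum z) hy1
      (le_trans hP.hq.2.1 h1)
  obtain ⟨g, hg⟩ : ∃ g : ℍ →ᵇ ℝ, g = mnB (LB e l ×ˢ (Xn q).offDiag) fun x =>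
    (mnB univ fun S => cact (Y x.2) (ρ S x.1)) ^ (2 * r) := ⟨_, rfl⟩
  have hup : IN M₀ g ≤ ((r : ℝ) ^ 2 / Fintype.card (Finset (Fin k))) ^ r + (1 / y +
      k * (C * 3 ^ k * (1 + (2 * r : ℕ) * (2 * K)) * (y : ℝ) ^ (-(1 / 1000 : ℝ)))) := by
    rw [hg]
    refine ycc_up hP.pos (LB e l ×ˢ (Xn q).offDiag) (fun x S => cact (Y x.2) (ρ S x.1))
      (fun x S z => hY1 _ _) r (by positivity) fun T i₀ hT => ?_
    have := hcube y M₀ q k l ρ (Fin (2 * r)) univ (fun _ => Y) T i₀ (2 * K) (1 / y) hy2 hM30 hP hρ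
      (fun _ => hY1) (by positivity) (fun _ => hY2) (fun _ => hY3) (Finset.mem_univ _)
      (fun i _ => hT i) hY4
    rwa [Finset.card_univ, Fintype.card_fin] at this
  rw [Fintype.card_finset, Fintype.card_fin, Nat.cast_pow, Nat.cast_ofNat] at hup
  obtain ⟨P, hPd⟩ : ∃ P : ℝ, P = prb (LB e l ×ˢ (Xn q).offDiag) fun x =>
    t < |mn univ fun S => F x.2.1 (act (ρ S x.1) w) * F x.2.2 (act (ρ S x.1) w)| := ⟨_, rfl⟩
  have hP0 : 0 ≤ P := hPd ▸ pb_nonneg _ _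
  have hg0 : ∀ z, 0 ≤ g z := fun z => by
    rw [hg, mnB_apply]
    refine ycc_mn_nonneg fun x _ => ?_
    rw [BoundedContinuousFunction.pow_apply]
    exact (even_two_mul r).pow_nonneg _
  have hlo : ∀ z, dist z w ≤ t / (4 * K) → (t / 2) ^ (2 * r) * P ≤ g z := fun z hz => by
    rw [hg, mnB_apply, hPd, pb_eq, ← mn_mul]
    refine mn_mono fun x _ => ?_
    rw [BoundedContinuousFunction.pow_apply]
    split_ifs with hx
    · have h1 : Lip (2 * K) (mnB univ fun S => cact (Y x.2) (ρ S x.1)) :=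
        Lip.mnB (by positivity) fun S _ => (hY2 _).cact _
      have h2 := h1 z w
      have h3 : 2 * K * dist z w ≤ t / 2 := by
        refine le_trans (mul_le_mul_of_nonneg_left hz (by positivity)) (le_of_eq ?_)
        field_simp
        norm_num
      have h4 : (mnB univ fun S => cact (Y x.2) (ρ S x.1)) w =
          mn univ fun S => F x.2.1 (act (ρ S x.1) w) * F x.2.2 (act (ρ S x.1) w) := by
        rw [mnB_apply, hYd]
        rfl
      rw [← h4] at hx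
      have h5 := abs_sub_abs_le_abs_sub ((mnB univ fun S => cact (Y x.2) (ρ S x.1)) w)
        ((mnB univ fun S => cact (Y x.2) (ρ S x.1)) z)
      rw [abs_sub_comm] at h5
      rw [mul_one, ← (even_two_mul r).pow_abs ((mnB univ fun S => cact (Y x.2) (ρ S x.1)) z)]
      exact pow_le_pow_left₀ (by positivity) (by linarith) _
    · rw [mul_zero]
      exact (even_two_mul r).pow_nonneg _
  have hb := hball w hw M₀ g _ hP.pos (by rw [hg]; exact ycc_ginv hP hρ hY3 _) hg0 hlo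
  have hIN : 0 ≤ IN M₀ g := by
    have := IN_mono (g := g) (f := BoundedContinuousFunction.const ℍ 0) hP.pos hg0
    rwa [IN_const hP.pos] at this
  have h1 : c₀ * ((t / 2) ^ (2 * r) * P) ≤ ((y : ℝ) ^ c) ^ 3 * IN M₀ g :=
    le_trans (mul_le_mul_of_nonneg_right (hlow w hw) (by positivity))
      (hb.trans (mul_le_mul_of_nonneg_right (pow_le_pow_left₀ (Nat.cast_nonneg _) hM 3) hIN))
  have h2 : P ≤ ((y : ℝ) ^ c) ^ 3 / c₀ * (2 / t) ^ (2 * r) * IN M₀ g := by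
    have h3 : (2 / t) ^ (2 * r) * (t / 2) ^ (2 * r) = 1 := by
      rw [← mul_pow]
      field_simp
      simp
    have h4 := mul_le_mul_of_nonneg_left h1 (by positivity : 0 ≤ (2 / t) ^ (2 * r) / c₀)
    have h5 : (2 / t) ^ (2 * r) / c₀ * (c₀ * ((t / 2) ^ (2 * r) * P)) =
        ((2 / t) ^ (2 * r) * (t / 2) ^ (2 * r)) * P := by
      field_simp
    rw [h5, h3, one_mul] at h4
    refine h4.trans (le_of_eq ?_)
    ring
  have h3 : P ≤ (y : ℝ) ^ (-c) * (y : ℝ) ^ (-c) :=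
    h2.trans (le_trans (mul_le_mul_of_nonneg_left hup (by positivity)) hnr)
  have hyc : 0 < (y : ℝ) ^ (-c) := Real.rpow_pos_of_pos hy0 _
  refine le_trans (pb_mono fun Ls _ h => le_of_lt h)
    (le_trans (pb_markov (fun Ls _ => pb_nonneg _ _) hyc) ?_)
  rw [div_le_iff₀ hyc]
  rw [hPd, prb_prod] at h3
  exact h3

end Pool.Agent.EQ
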