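import Pool.Agent.P.MP_ad7a55_nt.XDa
import Pool.Agent.P.MP_ad7a55_nt.YCb
import Pool.Agent.P.MP_ad7a55_nt.YAa
import Pool.Agent.P.MP_ad7a55_nt.YBc

/-! The data of a class of coordinates at large primes. -/

set_option autoImplicit false

noncomputable section

open MeasureTheory Topology Filter UpperHalfPlane Finset
open scoped MatrixGroups BoundedContinuousFunction Matrix Classical

namespace Pool.Agent.EQ

/-- The type of the coarse data. -/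
abbrev Cty6 (n : ℕ) (ι : Type) (M : ℕ) : Type :=
  (Fin n → ℂ) × (Fin n → M2) × (ι → Option ℍ) × (ι → Fin M → Set V2)

namespace Shp

variable {n : ℕ} {ι : Type} (s : Shp n ι) (v : VD n)

/-- The matrix of the move along the primes in `S`. -/
def rho6 (S : Finset (Fin v.M)) (Ls : Fin v.M → Set V2) : M2 :=
  if h : ∃ ρ : M2, ρ.det = ((∏ j ∈ S, v.l j) ^ (2 * s.e) : ℕ) ∧
    (∀ j ∈ S, Ker (v.l j ^ (2 * s.e)) ρ = Ls j) ∧
    Cg (s.MM v) ρ (((∏ j ∈ S, v.l j : ℕ) : ℤ) ^ s.e) then h.choose else 1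

/-- The directions at the test primes. -/
def lab6 (x : Fin n → ℂ) (c : ι) : Fin v.M → Set V2 :=
  fun j => Ker (v.l j ^ (2 * s.e)) (s.A v x c)

/-- The point after the test move. -/
def pt6 (x : Fin n → ℂ) (c : ι) (S : Finset (Fin v.M)) : ℍ :=
  act (s.rho6 v S (s.lab6 v x c)) (s.ct x c)

/-- The coarse data. -/
def C6 (U : ℝ) (cl : ℍ → ℍ) (x : Fin n → ℂ) : Cty6 n ι v.M :=
  (s.sm x, fun k => if k ∈ s.J then s.hk v x k else 0, fun c => cel U cl (s.ct x c), s.lab6 v x)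

/-- The matrices of a cluster. -/
def zt6 (γ : Fin n → vcjQ s.N) (h : Fin n → M2) (c : ι) : s.Cu c → M2 :=
  fun k => ((γ k).out : SL(2, ℤ)) * h k

/-- The rigidity data. -/
def rd6 (P : Finset ℕ) (U : ℝ) (cl : ℍ → ℍ) : RD (Fin n → ℂ) ι (Cty6 n ι v.M) Unit where
  O := Orb v.τ
  P := P
  A := s.A v
  π := v.mv
  η := s.et v
  In := fun x => ∀ c, s.ct x c ∈ KU U
  C0 := s.C6 v U cl
  cl := fun _ => ()

/-- Families for all clusters. -/
abbrev Fm : Type := ∀ c : ι, (s.Cu c → M2) → (ℍ →ᵇ ℝ)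

/-- Sets of weights. -/
abbrev Wt (v : VD n) : Type := (Fin n → ℂ) → Finset (Finset (Fin v.M) → ℝ)

/-- At most `B` weights, bounded by one. -/
def WB {v : VD n} (B : ℕ) (Ws : Wt v) : Prop := ∀ u, #(Ws u) ≤ B ∧ ∀ W ∈ Ws u, ∀ S, |W S| ≤ 1

variable [Fintype ι]

/-- The tests see a bias. -/
def Ev6 (G : s.Fm) (Ws : Wt v) (a t : ℝ) (x : Fin n → ℂ) : Prop :=
  ∃ W ∈ Ws (s.sm x), ∃ γ : Fin n → vcjQ s.N,
    t ≤ |mn univ fun S => W S * (∏ c, G c (s.zt6 γ (s.hk v x) c) (s.pt6 v x c S) - a)|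

/-- The directions at `q` correlate with the tests. -/
def EA (G : s.Fm) (Ws : Wt v) (t : ℝ) (q : ℕ) (x : Fin n → ℂ) : Prop :=
  ∃ W ∈ Ws (s.sm x), ∃ γ : Fin n → vcjQ s.N,
    t ≤ |mn univ fun S => W S *
      (∏ c, G c (up s.N q (s.zt6 γ (s.hk v x) c) (Ker q (s.A v x c))) (s.pt6 v x c S) -
        ∏ c, Tq s.N q (G c) (s.zt6 γ (s.hk v x) c) (s.pt6 v x c S))|

omit [Fintype ι] in
structure Ok6 (L G T W : ℝ) (a m₀ y : ℕ) : Prop where
  N_pos : 0 < s.N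
  e_pos : 0 < s.e
  hG : 100 ≤ G
  GT : G ≤ T
  Ty : G * T ≤ Real.log y
  yW : G * v.M * Real.log y ≤ W
  Mlo : Real.log y ^ 3 ≤ 2 ^ v.M
  Mhi : 2 ^ v.M ≤ 2 * Real.log y ^ 3
  disc : ∀ k, HasDisc (v.τ k) (v.D k)
  big : ∀ k, v.D k < -576
  Ebig : v.E < -576
  fit : ∀ k ∈ s.J, Fit v.E (s.N ^ 2 * v.D k)
  low : ∀ k ∈ s.J, Low L (v.D k)
  hL : |L| ≤ Real.exp T
  small : ∀ k ∈ s.I \ s.J, -(v.D k : ℝ) ≤ Real.exp T
  large : ∀ k ∈ s.J, Real.exp W ≤ -(v.D k : ℝ) ∧ Real.log (-(v.D k : ℝ)) ≤ Real.exp T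
  deg : ∀ k ∈ s.J, 0 < v.dg k ∧ (v.dg k : ℝ) ≤ Real.exp T ∧
    Ig (v.dg k) (jInv (v.τ k)) (jInv (v.τ (s.cr (s.bs k))))
  sep : ∀ c c', c ≠ c' → ∀ d : ℕ, 0 < d → (d : ℝ) ≤ Real.exp W →
    ¬ Ig d (jInv (v.τ (s.cr c))) (jInv (v.τ (s.cr c')))
  noi : ∀ k ∈ s.J, ∀ l ∈ s.J, k ≠ l → ∀ d : ℕ, 0 < d → d ≤ m₀ →
    ¬ Ig d (jInv (v.τ k)) (jInv (v.τ l))
  pP : ∀ q ∈ v.P, s.Pm v y q
  pl : ∀ i, s.Pm v y (v.l i) ∧ v.l i ∉ v.P
  inj : Function.Injective v.l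
  bP : (4 * (∏ q ∈ v.P, q : ℕ) : ℤ) ∣ v.b ^ 2 - v.E
  bl : (4 * (∏ i, v.l i : ℕ) ^ (2 * s.e) : ℤ) ∣ v.b ^ 2 - v.E
  cP : y ≤ #v.P ^ a

variable {s v} {L G T W : ℝ} {a m₀ y : ℕ} {x : Fin n → ℂ} {β : Finset ℕ}

omit [Fintype ι]

theorem yda_ln {κ : Type} {b : κ → ℕ} {K : κ → Set V2} (h0 : ∀ j, 0 < b j)
    (hc : ∀ i j, i ≠ j → (b i).Coprime (b j)) (hK : ∀ j, IsLn (b j) (K j)) (S : Finset κ) :
    IsLn (∏ j ∈ S, b j) {w | ∀ j ∈ S, w ∈ K j} := by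
  induction S using Finset.induction_on with
  | empty =>
    refine ⟨![1, 0], by simpa using isCoprime_one_left, ?_⟩
    ext w
    simp [xlb_mem]
  | insert i S hi ih =>
    have e : {w | ∀ j ∈ insert i S, w ∈ K j} = K i ∩ {w | ∀ j ∈ S, w ∈ K j} := by
      ext w
      simp
    rw [prod_insert hi, e]
    exact IsLn.inter (Nat.Coprime.prod_right fun j hj => hc i j fun e => hi (e ▸ hj)) (h0 i)
      (prod_pos fun j _ => h0 j) (hK i) ih

theorem yda_ker {κ : Type} {b : κ → ℕ} (hc : ∀ i j, i ≠ j → (b i).Coprime (b j)) (S : Finset κ)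
    (η : M2) : Ker (∏ j ∈ S, b j) η = {w | ∀ j ∈ S, w ∈ Ker (b j) η} := by
  induction S using Finset.induction_on with
  | empty =>
    ext w
    simp [Ker]
  | insert i S hi ih =>
    rw [prod_insert hi,
      Ker_inter (Nat.Coprime.prod_right fun j hj => hc i j fun e => hi (e ▸ hj)), ih]
    ext w
    simp

theorem Ok6.yda_n (h : s.Ok6 v L G T W a m₀ y) (hβ : β ⊆ v.P) :
    0 < ∏ l ∈ β, l ∧ IsCoprime ((∏ l ∈ β, l : ℕ) : ℤ) (2 * v.E) ∧
      (4 * (∏ l ∈ β, l : ℕ) : ℤ) ∣ v.b ^ 2 - v.E ∧ (∏ l ∈ β, l).Coprime (s.dd v) := by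
  refine ⟨prod_pos fun l hl => (h.pP l (hβ hl)).1.pos, ?_, ?_,
    Nat.Coprime.prod_left fun l hl => (xda_pm (h.pP l (hβ hl))).2.2⟩
  · rw [Nat.cast_prod]
    exact IsCoprime.prod_left fun l hl => (xda_pm (h.pP l (hβ hl))).1
  · exact (mul_dvd_mul_left 4 (Int.natCast_dvd_natCast.2
      (prod_dvd_prod_of_subset _ _ _ hβ))).trans h.bP

theorem Ok6.yda_l (h : s.Ok6 v L G T W a m₀ y) (S : Finset (Fin v.M)) :
    0 < (∏ j ∈ S, v.l j) ^ (2 * s.e) ∧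
      IsCoprime (((∏ j ∈ S, v.l j) ^ (2 * s.e) : ℕ) : ℤ) (2 * v.E) ∧
      (4 * ((∏ j ∈ S, v.l j) ^ (2 * s.e) : ℕ) : ℤ) ∣ v.b ^ 2 - v.E := by
  refine ⟨pow_pos (prod_pos fun j _ => (h.pl j).1.1.pos) _, ?_, ?_⟩
  · rw [Nat.cast_pow, Nat.cast_prod]
    exact (IsCoprime.prod_left fun j _ => (xda_pm (h.pl j).1).1).pow_left
  · refine (mul_dvd_mul_left 4 ?_).trans h.bl
    rw [Nat.cast_pow]
    exact pow_dvd_pow_of_dvd (Int.natCast_dvd_natCast.2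
      (prod_dvd_prod_of_subset _ _ _ (subset_univ S))) _

theorem Ok6.yda_cop (h : s.Ok6 v L G T W a m₀ y) (i j : Fin v.M) (hij : i ≠ j) :
    (v.l i ^ (2 * s.e)).Coprime (v.l j ^ (2 * s.e)) :=
  Nat.Coprime.pow _ _ ((Nat.coprime_primes (h.pl i).1.1 (h.pl j).1.1).2 fun e => hij (h.inj e))

theorem Ok6.num (h : s.Ok6 v L G T W a m₀ y) : 1 ≤ v.M ∧ G ^ 2 ≤ Real.log y ∧
    G * G * T ≤ W ∧ (v.M : ℝ) ≤ 5 * Real.log (Real.log y) ∧
    ∀ q, s.Pm v y q → Real.log q ≤ 2 * Real.log y := by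
  have hG := h.hG
  have hGT := h.GT
  have hTy := h.Ty
  have hY : G ^ 2 ≤ Real.log y := by nlinarith
  have hY4 : (10000 : ℝ) ≤ Real.log y := by nlinarith
  have hM : 1 ≤ v.M := by
    by_contra hc
    have h0 : v.M = 0 := by omega
    have h1 := h.Mlo
    rw [h0, pow_zero] at h1
    have h2 : Real.log y ≤ Real.log y ^ 3 := le_self_pow₀ (by linarith) (by norm_num)
    linarith
  have hM' : (1 : ℝ) ≤ v.M := by exact_mod_cast hM
  have hl2 := Real.log_two_gt_d9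
  have hl2' := Real.log_two_lt_d9
  refine ⟨hM, hY, ?_, ?_, fun q hq => ?_⟩
  · have h1 : G * (G * T) ≤ G * Real.log y := mul_le_mul_of_nonneg_left hTy (by linarith)
    have h2 : G * Real.log y * 1 ≤ G * Real.log y * v.M :=
      mul_le_mul_of_nonneg_left hM' (by positivity)
    have h3 := h.yW
    linarith
  · have h1 := Real.log_le_log (by positivity) h.Mhi
    rw [Real.log_pow, Real.log_mul (by norm_num) (by positivity), Real.log_pow] at h1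
    have h2 : Real.log (2 ^ 13) ≤ Real.log (Real.log y) :=
      Real.log_le_log (by positivity) (by linarith)
    rw [Real.log_pow] at h2
    push_cast at h1 h2
    nlinarith
  · have h1 : (q : ℝ) ≤ 2 * y := by exact_mod_cast hq.2.2.1
    have h2 : (0 : ℝ) < q := by exact_mod_cast hq.1.pos
    have h3 : (0 : ℝ) < y := by linarith
    have h4 := Real.log_le_log h2 h1
    rw [Real.log_mul (by norm_num) h3.ne'] at h4
    linarith

theorem Ok6.yda_y (h : s.Ok6 v L G T W a m₀ y) : (0 : ℝ) < y ∧ (v.M : ℝ) ≤ y := by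
  obtain ⟨-, hY, -, hM, -⟩ := h.num
  have hG := h.hG
  have hY4 : (10000 : ℝ) ≤ Real.log y := by nlinarith
  have hy0 : (0 : ℝ) < y := by
    rcases (Nat.cast_nonneg y : (0 : ℝ) ≤ y).eq_or_lt with e | e
    · rw [← e, Real.log_zero] at hY4
      norm_num at hY4
    · exact e
  refine ⟨hy0, ?_⟩
  have h1 := Real.quadratic_le_exp_of_nonneg (x := Real.log y) (by linarith)
  rw [Real.exp_log hy0] at h1
  have h2 : Real.log (Real.log y) ≤ Real.log y :=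
    (Real.log_le_sub_one_of_pos (by linarith)).trans (by linarith)
  nlinarith

theorem Ok6.ct_disc (h : s.Ok6 v L G T W a m₀ y) (hx : x ∈ Orb v.τ) (c : ι) :
    HasDisc (s.ct x c) (v.D (s.cr c)) ∧ Fit v.E (v.D (s.cr c)) := by
  exact ⟨Orb_disc h.disc hx (h.big _), (h.fit _ (s.mem c)).trans (fit_sq h.N_pos _)⟩

theorem Ok6.dd_le (h : s.Ok6 v L G T W a m₀ y) :
    0 < s.dd v ∧ (s.dd v : ℝ) ≤ Real.exp (n * T) := by
  refine ⟨prod_pos fun k hk => (h.deg k hk).1, ?_⟩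
  have hT : 0 ≤ T := by linarith [h.hG, h.GT]
  have hJ : (#s.J : ℝ) ≤ n := by exact_mod_cast (card_le_univ s.J).trans_eq (Fintype.card_fin n)
  rw [dd, Nat.cast_prod]
  calc ∏ k ∈ s.J, (v.dg k : ℝ) ≤ ∏ k ∈ s.J, Real.exp T :=
        prod_le_prod (fun k _ => Nat.cast_nonneg _) fun k hk => (h.deg k hk).2.1
    _ = Real.exp (#s.J * T) := by rw [prod_const, Real.exp_nat_mul]
    _ ≤ _ := Real.exp_le_exp.2 (mul_le_mul_of_nonneg_right hJ hT)

theorem Ok6.prod_le (h : s.Ok6 v L G T W a m₀ y) (hβ : ∀ q ∈ β, s.Pm v y q)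
    (hc : (#β : ℝ) ≤ G * v.M / 2000) : ((∏ q ∈ β, q : ℕ) : ℝ) ≤ Real.exp (W / 1000) ∧
      ∑ q ∈ β, (q : ℝ) ^ (-(1 / 4 : ℝ)) ≤ 1 := by
  obtain ⟨hM, hY, -, hM5, hq⟩ := h.num
  have hG := h.hG
  have hY4 : (10000 : ℝ) ≤ Real.log y := by nlinarith
  have hy0 : (0 : ℝ) < y := h.yda_y.1
  constructor
  · rw [Nat.cast_prod]
    calc ∏ q ∈ β, (q : ℝ) ≤ ∏ q ∈ β, Real.exp (2 * Real.log y) := by
          refine prod_le_prod (fun q _ => Nat.cast_nonneg q) fun q hq' => ?_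
          have h2 : (0 : ℝ) < q := by exact_mod_cast (hβ q hq').1.pos
          rw [← Real.log_le_iff_le_exp h2]
          exact hq q (hβ q hq')
      _ = Real.exp (#β * (2 * Real.log y)) := by rw [prod_const, Real.exp_nat_mul]
      _ ≤ Real.exp (W / 1000) := by
          refine Real.exp_le_exp.2 ?_
          have h1 := mul_le_mul_of_nonneg_right hc (by linarith : 0 ≤ 2 * Real.log y)
          have h2 := h.yW
          linarith
  · have h0 := Real.exp_pos (Real.log y / 4)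
    calc ∑ q ∈ β, (q : ℝ) ^ (-(1 / 4 : ℝ)) ≤ ∑ q ∈ β, (Real.exp (Real.log y / 4))⁻¹ := by
          refine sum_le_sum fun q hq' => ?_
          have h1 : (y : ℝ) ≤ q := by exact_mod_cast (hβ q hq').2.1.le
          have h3 := Real.rpow_le_rpow_of_nonpos hy0 h1 (by norm_num : (-(1 / 4 : ℝ)) ≤ 0)
          refine h3.trans_eq ?_
          rw [Real.rpow_def_of_pos hy0, ← Real.exp_neg]
          congr 1
          ring
      _ = #β * (Real.exp (Real.log y / 4))⁻¹ := by rw [sum_const, nsmul_eq_mul]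
      _ ≤ 1 := by
          rw [← div_eq_mul_inv, div_le_one h0]
          have h1 := Real.quadratic_le_exp_of_nonneg (x := Real.log y / 4) (by linarith)
          have h2 : Real.log (Real.log y) ≤ Real.log y :=
            (Real.log_le_sub_one_of_pos (by linarith)).trans (by linarith)
          have h3 : G ≤ Real.log y := by nlinarith
          have h4 : G * v.M ≤ Real.log y * (5 * Real.log y) :=
            mul_le_mul h3 (by linarith) (Nat.cast_nonneg _) (by linarith)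
          nlinarith

theorem Ok6.sg_spec (h : s.Ok6 v L G T W a m₀ y) (hβ : β ⊆ v.P) (τ : ℍ) (D : ℤ) (η : M2)
    (h₁ : HasDisc τ D) (h₂ : D < -576) (h₃ : Fit v.E D) (h₄ : η.det = (∏ l ∈ β, l : ℕ))
    (h₅ : Ker (∏ l ∈ β, l) (AA v.E v.b τ) ⊆ Ker (∏ l ∈ β, l) η) :
    v.sg β (jInv τ) = jInv (act η τ) := by
  obtain ⟨n0, nc, nb, -⟩ := h.yda_n hβ
  have e := cm_one h.Ebig n0 nc nb
  rw [VD.sg, dif_pos e]
  exact e.choose_spec τ D η h₁ h₂ h₃ h₄ h₅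

theorem Ok6.et_spec (h : s.Ok6 v L G T W a m₀ y) (hβ : β ⊆ v.P) (hx : x ∈ Orb v.τ) (c : ι) :
    (s.et v β x c).det = (∏ l ∈ β, l : ℕ) ∧
      (∀ l ∈ β, Ker l (s.et v β x c) = Ker l (s.A v x c)) ∧
      act (s.et v β x c) (s.ct x c) = s.ct (v.mv β x) c ∧
      s.et v β x c * s.A v x c = s.A v (v.mv β x) c * s.et v β x c := by
  obtain ⟨n0, nc, nb, -⟩ := h.yda_n hβ
  obtain ⟨hd, hf⟩ := h.ct_disc hx c
  have nb' := (dvd_mul_left _ 4).trans nb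
  have hex : ∃ η : M2, η.det = (∏ l ∈ β, l : ℕ) ∧
      Ker (∏ l ∈ β, l) (s.A v x c) ⊆ Ker (∏ l ∈ β, l) η ∧
      act η (s.ct x c) = s.ct (v.mv β x) c := by
    obtain ⟨η, hη, hk⟩ := (AA_line hd hf n0 nc nb').exists_mat n0
    have e1 := h.sg_spec hβ _ _ η hd (h.big _) hf hη hk.ge
    have e2 : jInv (act η (s.ct x c)) = jInv (s.ct (v.mv β x) c) := by
      rw [← e1, ct, ct, (fr_spec _).2, (fr_spec _).2]
      rfl
    obtain ⟨γ, hγ⟩ := jInv_inj e2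
    refine ⟨(γ : M2) * η, by rw [Matrix.det_mul, γ.det_coe, one_mul, hη], ?_, ?_⟩
    · rw [Ker_SL, hk]
      exact subset_rfl
    · rw [act_mul (by rw [γ.det_coe]; exact one_pos) (by rw [hη]; exact_mod_cast n0), act_SL, hγ]
  have hs := hex.choose_spec
  have he : s.et v β x c = hex.choose := by rw [et, dif_pos hex]
  rw [← he] at hs
  obtain ⟨h1, h2, h3⟩ := hs
  refine ⟨h1, fun l hl => ?_, h3, ?_⟩
  · have hp := (h.pP l (hβ hl)).1
    have hm := mul_prod_erase β (fun l => l) hl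
    have hcop : l.Coprime (∏ q ∈ β.erase l, q) :=
      Nat.Coprime.prod_right fun q hq => (Nat.coprime_primes hp
        (h.pP q (hβ (mem_of_mem_erase hq))).1).2 (ne_of_mem_erase hq).symm
    generalize ∏ q ∈ β.erase l, q = m at hm hcop
    have hln : l ∣ ∏ q ∈ β, q := ⟨m, hm.symm⟩
    have hl1 : IsLn l (Ker l (s.A v x c)) := AA_line hd hf hp.pos (xda_pm (h.pP l (hβ hl))).1
      ((Int.natCast_dvd_natCast.2 hln).trans nb')
    have hl2 : IsLn l (Ker l (s.et v β x c)) := by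
      refine isLn_Ker_prime hp (by rw [h1]; exact Int.natCast_dvd_natCast.2 hln) fun hh => ?_
      rw [h1, ← hm, ← Nat.cast_pow, Int.natCast_dvd_natCast, sq] at hh
      exact hp.one_lt.ne' (hcop.eq_one_of_dvd (Nat.dvd_of_mul_dvd_mul_left hp.pos hh))
    refine (hl1.eq_of_le hl2 fun w hw => ?_).symm
    rw [← xla_smul (Nat.isCoprime_iff_coprime.2 hcop.symm)]
    refine Ker_anti hln _ (h2 fun i => ?_)
    rw [← hm, Matrix.mulVec_smul, Pi.smul_apply, smul_eq_mul, Nat.cast_mul, mul_comm]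
    exact mul_dvd_mul_left _ (hw i)
  · obtain ⟨hd', hf'⟩ := h.ct_disc (Orb_map h.disc hx (v.sg β)) c
    have := AA_com hd hf (η := s.et v β x c) (by rw [h1]; exact_mod_cast n0)
      (by rw [h3]; exact hd') hf' v.b
    rw [h3] at this
    exact this

theorem Ok6.hk_spec (h : s.Ok6 v L G T W a m₀ y) (hx : x ∈ Orb v.τ) {k : Fin n} (hk : k ∈ s.J) :
    s.hk v x k ∈ Hn (v.dg k) ∧ jInv (act (s.hk v x k) (s.ct x (s.bs k))) = x k := by
  have hex : ∃ g ∈ Hn (v.dg k), jInv (act g (s.ct x (s.bs k))) = x k := by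
    obtain ⟨σ, rfl⟩ := (mem_Orb h.disc).1 hx
    obtain ⟨d0, -, hi⟩ := h.deg k hk
    refine Ig.exists_Hn d0 ?_
    rw [ct, (fr_spec _).2]
    exact hi.gal d0 σ
  rw [Shp.hk, dif_pos hex]
  exact hex.choose_spec

theorem Ok6.hk_move (h : s.Ok6 v L G T W a m₀ y) {q : ℕ} (hq : q ∈ v.P) (hx : x ∈ Orb v.τ)
    {k : Fin n} (hk : k ∈ s.J) :
    Ker (v.dg k) (s.hk v (v.mv {q} x) k * s.et v {q} x (s.bs k)) = Ker (v.dg k) (s.hk v x k) := by
  have hβ : ({q} : Finset ℕ) ⊆ v.P := singleton_subset_iff.2 hq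
  generalize hβq : ({q} : Finset ℕ) = β at hβ
  obtain ⟨n0, nc, nb, nd⟩ := h.yda_n hβ
  obtain ⟨hd, hf⟩ := h.ct_disc hx (s.bs k)
  obtain ⟨g1, g2⟩ := h.hk_spec hx hk
  obtain ⟨g1', g2'⟩ := h.hk_spec (x := v.mv β x) (Orb_map h.disc hx (v.sg β)) hk
  obtain ⟨e1, -, e3, -⟩ := h.et_spec hβ hx (s.bs k)
  obtain ⟨d0, gd⟩ := mem_Hn g1
  have gd' := (mem_Hn g1').2
  have n0' : (0 : ℤ) < (∏ l ∈ β, l : ℕ) := by exact_mod_cast n0
  have d0' : (0 : ℤ) < v.dg k := by exact_mod_cast d0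
  have ht1 : HasDisc (act (s.hk v x k) (s.ct x (s.bs k))) (v.D k) := by
    obtain ⟨σ, hσ⟩ := (mem_Orb h.disc).1 hx
    exact disc_of_gal (h.disc k) (h.big k) (g2.trans (congrFun hσ k))
  have hf1 : Fit v.E (v.D k) := (h.fit k hk).trans (fit_sq h.N_pos _)
  obtain ⟨η, hη, hke⟩ := (AA_line ht1 hf1 n0 nc ((dvd_mul_left _ 4).trans nb)).exists_mat n0
  have e4 := h.sg_spec hβ _ _ η ht1 (h.big _) hf1 hη hke.ge
  have e5 : jInv (act (η * s.hk v x k) (s.ct x (s.bs k))) =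
      jInv (act (s.hk v (v.mv β x) k * s.et v β x (s.bs k)) (s.ct x (s.bs k))) := by
    rw [act_mul (by rwa [hη]) (by rwa [gd]), act_mul (by rwa [gd']) (by rwa [e1]), e3, g2', ← e4,
      g2]
    rfl
  have hb : 4 * ((v.dg k * ∏ l ∈ β, l : ℕ) : ℤ) ^ 2 < -v.D (s.cr (s.bs k)) := by
    have hG := h.hG
    have hGT := h.GT
    have hTy := h.Ty
    obtain ⟨hM, hY, -, -, hlq⟩ := h.num
    have hM' : (1 : ℝ) ≤ v.M := by exact_mod_cast hM
    have hY4 : (10000 : ℝ) ≤ Real.log y := by nlinarith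
    have b1 : ((∏ l ∈ β, l : ℕ) : ℝ) ≤ Real.exp (2 * Real.log y) := by
      rw [← hβq, prod_singleton, ← Real.log_le_iff_le_exp (by exact_mod_cast (h.pP q hq).1.pos)]
      exact hlq q (h.pP q hq)
    have b2 := (h.deg k hk).2.1
    have b3 := (h.large _ (s.mem (s.bs k))).1
    have b4 : ((v.dg k * ∏ l ∈ β, l : ℕ) : ℝ) ≤ Real.exp (T + 2 * Real.log y) := by
      rw [Nat.cast_mul, Real.exp_add]
      exact mul_le_mul b2 b1 (Nat.cast_nonneg _) (Real.exp_pos _).le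
    have b5 : (4 : ℝ) ≤ Real.exp 3 := by linarith [Real.add_one_le_exp 3]
    have b6 : 3 + 2 * (T + 2 * Real.log y) < W := by
      have c1 : 100 * T ≤ G * T := mul_le_mul_of_nonneg_right hG (by linarith)
      have c2 : 100 * 1 ≤ G * v.M := mul_le_mul hG hM' (by norm_num) (by linarith)
      have c3 := mul_le_mul_of_nonneg_right c2 (by linarith : 0 ≤ Real.log y)
      have c4 := h.yW
      linarith
    have b7 : 4 * ((v.dg k * ∏ l ∈ β, l : ℕ) : ℝ) ^ 2 < -(v.D (s.cr (s.bs k)) : ℝ) :=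
      calc 4 * ((v.dg k * ∏ l ∈ β, l : ℕ) : ℝ) ^ 2
          ≤ Real.exp 3 * Real.exp (T + 2 * Real.log y) ^ 2 := by gcongr
        _ = Real.exp (3 + 2 * (T + 2 * Real.log y)) := by
            rw [Real.exp_add 3, ← Real.exp_nat_mul, Nat.cast_ofNat]
        _ < Real.exp W := Real.exp_lt_exp.2 b6
        _ ≤ _ := b3
    exact_mod_cast b7
  obtain ⟨γ, hγ⟩ := iso_unique hd (Nat.mul_pos d0 n0)
    (by rw [Matrix.det_mul, hη, gd, Nat.cast_mul, mul_comm])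
    (by rw [Matrix.det_mul, gd', e1, Nat.cast_mul]) hb e5
  rw [hγ, Ker_SL, Ker_cop]
  rw [hη]
  exact Nat.isCoprime_iff_coprime.2 (nd.coprime_dvd_right (dvd_prod_of_mem _ hk))

theorem Ok6.lab_mem (h : s.Ok6 v L G T W a m₀ y) (hx : x ∈ Orb v.τ) (c : ι) :
    s.lab6 v x c ∈ LB s.e v.l := by
  obtain ⟨hd, hf⟩ := h.ct_disc hx c
  refine Fintype.mem_piFinset.2 fun j => ?_
  have p1 := (h.pl j).1
  have a1 : 0 < v.l j ^ (2 * s.e) := pow_pos p1.1.pos _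
  refine (mem_Xn a1).2 (AA_line hd hf a1 ?_ ?_)
  · rw [Nat.cast_pow]
    exact (xda_pm p1).1.pow_left
  · have := (h.yda_l {j}).2.2
    rw [prod_singleton] at this
    exact (dvd_mul_left _ 4).trans this

theorem Ok6.rho_spec (h : s.Ok6 v L G T W a m₀ y) : IsRS s.e (s.MM v) v.l (s.rho6 v) := by
  intro S Ls hL
  have a1 : ∀ j, 0 < v.l j ^ (2 * s.e) := fun j => pow_pos (h.pl j).1.1.pos _
  have k1 : ∀ j, IsLn (v.l j ^ (2 * s.e)) (Ls j) := fun j =>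
    (mem_Xn (a1 j)).1 (Fintype.mem_piFinset.1 hL j)
  have hM : 0 < s.MM v := Nat.mul_pos (Nat.mul_pos h.N_pos h.dd_le.1) (h.yda_n subset_rfl).1
  have hc : ∀ j, (v.l j).Coprime (s.MM v) := fun j =>
    ((xda_pm (h.pl j).1).2.1.mul_right (xda_pm (h.pl j).1).2.2).mul_right
      (Nat.Coprime.prod_right fun l hl => (Nat.coprime_primes (h.pl j).1.1 (h.pP l hl).1).2
        fun e => (h.pl j).2 (e ▸ hl))
  have hex : ∃ ρ : M2, ρ.det = ((∏ j ∈ S, v.l j) ^ (2 * s.e) : ℕ) ∧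
      (∀ j ∈ S, Ker (v.l j ^ (2 * s.e)) ρ = Ls j) ∧
      Cg (s.MM v) ρ (((∏ j ∈ S, v.l j : ℕ) : ℤ) ^ s.e) := by
    have k2 := yda_ln a1 h.yda_cop k1 S
    obtain ⟨η, e1, e2, e3⟩ := k2.exists_Cg (prod_pos fun j _ => a1 j) hM
      (s := ((∏ j ∈ S, v.l j : ℕ) : ℤ) ^ s.e)
      (Nat.isCoprime_iff_coprime.2 (Nat.Coprime.prod_left fun j _ => hc j)).pow_left
      ⟨0, by rw [prod_pow]; push_cast; ring⟩
    refine ⟨η, by rw [e1, prod_pow], fun j hj => ?_, e3⟩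
    have hj' : (v.l j ^ (2 * s.e)).Coprime (∏ i ∈ S.erase j, v.l i ^ (2 * s.e)) :=
      Nat.Coprime.prod_right fun i hi => h.yda_cop j i (ne_of_mem_erase hi).symm
    rw [← mul_prod_erase S _ hj, Ker_inter hj'] at e2
    refine xda_split hj' (k1 j) (yda_ln a1 h.yda_cop k1 (S.erase j)) (e2.trans ?_)
    ext w
    refine ⟨fun hw => ⟨hw j hj, fun i hi => hw i (mem_of_mem_erase hi)⟩, fun hw i hi => ?_⟩
    by_cases e : i = j
    · rw [e]
      exact hw.1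
    · exact hw.2 i (mem_erase.2 ⟨e, hi⟩)
  rw [rho6, dif_pos hex]
  exact hex.choose_spec

theorem Ok6.rho_ker (h : s.Ok6 v L G T W a m₀ y) (hx : x ∈ Orb v.τ) (c : ι)
    (S : Finset (Fin v.M)) : Ker ((∏ j ∈ S, v.l j) ^ (2 * s.e)) (s.rho6 v S (s.lab6 v x c)) =
      Ker ((∏ j ∈ S, v.l j) ^ (2 * s.e)) (s.A v x c) := by
  have h1 := (h.rho_spec S _ (h.lab_mem hx c)).2.1
  rw [← prod_pow, yda_ker h.yda_cop, yda_ker h.yda_cop]
  ext w
  exact forall₂_congr fun j hj => by rw [h1 j hj]; rfl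

theorem Ok6.cup (h : s.Ok6 v L G T W a m₀ y) {q : ℕ} (hq : q ∈ v.P) :
    CuP y (s.N * s.dd v) q v.l ∧ IsRS s.e (s.N * s.dd v * q) v.l (s.rho6 v) := by
  have hc : ∀ p, s.Pm v y p → ¬ p ∣ s.N * s.dd v := fun p hp =>
    (Nat.Prime.coprime_iff_not_dvd hp.1).1 ((xda_pm hp).2.1.mul_right (xda_pm hp).2.2)
  have p0 := h.pP q hq
  refine ⟨⟨Nat.mul_pos h.N_pos h.dd_le.1, ⟨p0.1, p0.2.1, p0.2.2.1, hc q p0⟩, fun j => ?_, h.inj⟩,
    fun S Ls hL => ?_⟩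
  · obtain ⟨p1, p2⟩ := h.pl j
    exact ⟨p1.1, p1.2.1, p1.2.2.1, hc _ p1, fun e => p2 (e ▸ hq)⟩
  · obtain ⟨a1, a2, a3⟩ := h.rho_spec S Ls hL
    exact ⟨a1, a2, a3.mono (Nat.mul_dvd_mul_left _ (dvd_prod_of_mem (fun q => q) hq))⟩

theorem Ok6.card_LB (h : s.Ok6 v L G T W a m₀ y) :
    (#(LB s.e v.l) : ℝ) ≤ 3 * (∏ j, v.l j ^ (2 * s.e) : ℕ) := by
  obtain ⟨hy0, hMy⟩ := h.yda_y
  rw [LB, Fintype.card_piFinset, Nat.cast_prod, Nat.cast_prod]
  calc ∏ j, (#(Xn (v.l j ^ (2 * s.e))) : ℝ) ≤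
        ∏ j, Real.exp (1 / y) * ((v.l j ^ (2 * s.e) : ℕ) : ℝ) := by
        refine prod_le_prod (fun j _ => Nat.cast_nonneg _) fun j _ => ?_
        have p1 := (h.pl j).1
        have h1 : (#(Xn (v.l j ^ (2 * s.e))) : ℝ) * v.l j ≤
            ((v.l j ^ (2 * s.e) : ℕ) : ℝ) * (v.l j + 1) := by
          exact_mod_cast (card_Xn p1.1 (k := 2 * s.e) (by have := h.e_pos; omega)).2
        have h2 : (y : ℝ) ≤ v.l j := by exact_mod_cast p1.2.1.le
        have h3 : (0 : ℝ) < v.l j := by linarith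
        have h4 : (v.l j : ℝ) + 1 ≤ Real.exp (1 / y) * v.l j := by
          have e1 := Real.add_one_le_exp (1 / (y : ℝ))
          have e2 : 1 ≤ 1 / (y : ℝ) * v.l j := by
            rw [one_div, inv_mul_eq_div, le_div_iff₀ hy0]
            linarith
          nlinarith
        refine le_of_mul_le_mul_right (h1.trans ?_) h3
        calc _ ≤ ((v.l j ^ (2 * s.e) : ℕ) : ℝ) * (Real.exp (1 / y) * v.l j) := by gcongr
          _ = _ := by ring
    _ = Real.exp (v.M * (1 / y)) * ∏ j, ((v.l j ^ (2 * s.e) : ℕ) : ℝ) := by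
        rw [prod_mul_distrib, prod_const, card_univ, Fintype.card_fin, Real.exp_nat_mul]
    _ ≤ _ := by
        refine mul_le_mul_of_nonneg_right ?_ (prod_nonneg fun j _ => Nat.cast_nonneg _)
        have e1 : (v.M : ℝ) * (1 / y) ≤ 1 := by rwa [mul_one_div, div_le_one hy0]
        linarith [Real.exp_le_exp.2 e1, Real.exp_one_lt_d9]

theorem Ok6.zt_det (h : s.Ok6 v L G T W a m₀ y) (hx : x ∈ Orb v.τ) (γ : Fin n → vcjQ s.N) (c : ι)
    (k : s.Cu c) : (s.zt6 γ (s.hk v x) c k).det = v.dg k ∧ v.dg k ∣ s.dd v := by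
  refine ⟨?_, dvd_prod_of_mem _ k.2.1⟩
  rw [zt6, Matrix.det_mul, Matrix.SpecialLinearGroup.det_coe, one_mul,
    (mem_Hn (h.hk_spec hx k.2.1).1).2]

theorem Ok6.nrel (h : s.Ok6 v L G T W a m₀ y) (hx : x ∈ Orb v.τ) (γ : Fin n → vcjQ s.N) (c : ι)
    {m : ℕ} (hm : m.factorial ^ 2 ≤ m₀) : NRel m (s.zt6 γ (s.hk v x) c) := by
  intro k l hkl hr
  have hp : ∀ k : s.Cu c, 0 < (s.zt6 γ (s.hk v x) c k).det := fun k => by
    rw [(h.zt_det hx γ c k).1]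
    exact_mod_cast (h.deg k k.2.1).1
  have hj : ∀ k : s.Cu c, jInv (act (s.zt6 γ (s.hk v x) c k) (s.ct x c)) = x k := fun k => by
    obtain ⟨g1, g2⟩ := h.hk_spec hx k.2.1
    rw [k.2.2] at g2
    rw [zt6, act_mul (by rw [Matrix.SpecialLinearGroup.det_coe]; exact one_pos)
      (by rw [(mem_Hn g1).2]; exact_mod_cast (mem_Hn g1).1), act_SL, jInv_smul, g2]
  have h1 := hr.isog (hp k) (hp l) (s.ct x c)
  rw [hj, hj] at h1
  obtain ⟨d, d0, d1, d2⟩ := h1.ig (Nat.factorial_pos m)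
  obtain ⟨σ, hσ⟩ := (mem_Orb h.disc).1 hx
  have h2 := d2.gal d0 σ.symm
  rw [congrFun hσ k, congrFun hσ l, σ.symm_apply_apply, σ.symm_apply_apply] at h2
  exact h.noi k k.2.1 l l.2.1 (fun e => hkl (Subtype.ext e)) d d0 (d1.trans hm) h2

theorem Ok6.test_tight (h : s.Ok6 v L G T W a m₀ y) (c : ι) (S : Finset (Fin v.M)) (U : ℝ) :
    prb (Orb v.τ) (fun x => ¬ ∃ γ : SL(2, ℤ), γ • s.pt6 v x c S ∈ KU U) ≤
      prb (Orb v.τ) fun x => s.ct x c ∉ KU U := by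
  obtain ⟨n0, nc, nb⟩ := h.yda_l S
  obtain ⟨σ, hσ⟩ := cm_one h.Ebig n0 nc nb
  rw [← pb_perm (π := fun x k => σ (x k)) (fun x hx => Orb_map h.disc hx σ)
    (fun x _ x' _ e => funext fun k => σ.injective (congrFun e k)) fun x => s.ct x c ∉ KU U]
  refine pb_mono fun x hx hn hU => hn ?_
  obtain ⟨hd, hf⟩ := h.ct_disc hx c
  have e1 := hσ _ _ _ hd (h.big _) hf (h.rho_spec S _ (h.lab_mem hx c)).1 (h.rho_ker hx c S).ge
  have e2 : jInv (s.pt6 v x c S) = jInv (s.ct (fun k => σ (x k)) c) := by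
    rw [pt6, ← e1, ct, ct, (fr_spec _).2, (fr_spec _).2]
  obtain ⟨γ, hγ⟩ := jInv_inj e2
  exact ⟨γ, hγ ▸ hU⟩

theorem Ok6.mono (h : s.Ok6 v L G T W a m₀ y) {m : ℕ} (hm : m ≤ m₀) :
    s.Ok6 v L G T W a m y := by
  exact { h with noi := fun k hk l hl hkl d d0 d1 => h.noi k hk l hl hkl d d0 (d1.trans hm) }

theorem prb_mv (h : ∀ k, HasDisc (v.τ k) (v.D k)) (β : Finset ℕ) (p : (Fin n → ℂ) → Prop) :
    prb (Orb v.τ) (fun x => p (v.mv β x)) = prb (Orb v.τ) p := by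
  exact pb_perm (π := v.mv β) (fun x hx => Orb_map h hx (v.sg β))
    (fun x _ x' _ e => funext fun k => (v.sg β).injective (congrFun e k)) p

end Shp

end Pool.Agent.EQ
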