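import Pool.Agent.P.MP_ad7a55_nt.YDa
import Pool.Agent.P.MP_ad7a55_nt.XDb

/-! Reduction to the tests along the cube. -/

set_option autoImplicit false

noncomputable section

open MeasureTheory Topology Filter UpperHalfPlane Finset
open scoped MatrixGroups BoundedContinuousFunction Matrix Classical

namespace Pool.Agent.EQ

theorem ydb_tel {κ : Type} (J : Finset κ) {f g : κ → ℝ} {ε : ℝ} (hf : ∀ k, |f k| ≤ 1)
    (hg : ∀ k, |g k| ≤ 1) (hd : ∀ k, |f k - g k| ≤ ε) :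
    |∏ k ∈ J, f k - ∏ k ∈ J, g k| ≤ #J * ε := by
  induction J using Finset.induction_on with
  | empty => simp
  | insert a J ha ih =>
    rw [prod_insert ha, prod_insert ha, card_insert_of_notMem ha]
    have h1 : |∏ k ∈ J, g k| ≤ 1 := by
      rw [Finset.abs_prod]
      exact Finset.prod_le_one (fun _ _ => abs_nonneg _) fun k _ => hg k
    have e : f a * ∏ k ∈ J, f k - g a * ∏ k ∈ J, g k =
        f a * (∏ k ∈ J, f k - ∏ k ∈ J, g k) + (f a - g a) * ∏ k ∈ J, g k := by ring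
    rw [e]
    refine (abs_add_le _ _).trans ?_
    rw [abs_mul, abs_mul]
    have h2 := mul_le_mul (hf a) ih (abs_nonneg _) zero_le_one
    have h3 := mul_le_mul (hd a) h1 (abs_nonneg _) ((abs_nonneg _).trans (hd a))
    push_cast
    linarith

theorem ydb_IN {N : ℕ} (hN : 0 < N) (f g : ℍ →ᵇ ℝ) : |IN N f - IN N g| ≤ ‖f - g‖ := by
  have : NeZero N := ⟨hN.ne'⟩
  have := mH_prob (Γ := CongruenceSubgroup.Gamma N)
  have e : IN N f - IN N g = IN N (f - g) := (integral_sub (f.integrable _) (g.integrable _)).symm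
  rw [e]
  exact abs_IN_le hN _

namespace Shp

variable {n : ℕ} {ι : Type}

theorem ydb_cop {s : Shp n ι} {v : VD n} {L G T W : ℝ} {a m₀ y : ℕ}
    (h : s.Ok6 v L G T W a m₀ y) (S : Finset (Fin v.M)) : 0 < ∏ j ∈ S, v.l j ∧
      IsCoprime ((∏ j ∈ S, v.l j : ℕ) : ℤ) (2 * s.N * v.E * s.dd v) := by
  refine ⟨Finset.prod_pos fun j _ => (h.pl j).1.1.pos, ?_⟩
  rw [Nat.cast_prod]
  exact IsCoprime.prod_left fun j _ => xdb_pm (h.pl j).1

theorem ydb_bl {s : Shp n ι} {v : VD n} {L G T W : ℝ} {a m₀ y : ℕ}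
    (h : s.Ok6 v L G T W a m₀ y) (S : Finset (Fin v.M)) :
    (4 * (∏ j ∈ S, v.l j : ℕ) ^ (2 * s.e) : ℤ) ∣ v.b ^ 2 - v.E := by
  refine Dvd.dvd.trans (mul_dvd_mul_left _ (pow_dvd_pow_of_dvd ?_ _)) h.bl
  exact Int.natCast_dvd_natCast.2 (Finset.prod_dvd_prod_of_subset _ _ _ (subset_univ S))

theorem ydb_disc {s : Shp n ι} {v : VD n} {L G T W : ℝ} {a m₀ y : ℕ}
    (h : s.Ok6 v L G T W a m₀ y) {x : Fin n → ℂ} (hx : x ∈ Orb v.τ) {k : Fin n} {t : ℍ}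
    (ht : jInv t = x k) : HasDisc t (v.D k) := by
  obtain ⟨σ, rfl⟩ := (mem_Orb h.disc).1 hx
  exact disc_of_gal (h.disc k) (h.big k) ht

theorem move_pt6 {s : Shp n ι} {v : VD n} {L G T W : ℝ} {a m₀ y : ℕ}
    (h : s.Ok6 v L G T W a m₀ y) {x : Fin n → ℂ} (hx : x ∈ Orb v.τ) {k : Fin n} (hk : k ∈ s.J)
    {t : ℍ} (ht : jInv t = x k) : ∃ c : vcjQ s.N, ∀ S : Finset (Fin v.M), ∃ η : M2,
      η.det = ((∏ j ∈ S, v.l j) ^ (2 * s.e) : ℕ) ∧
      Ker ((∏ j ∈ S, v.l j) ^ (2 * s.e)) (AA v.E v.b t) ⊆ Ker ((∏ j ∈ S, v.l j) ^ (2 * s.e)) η ∧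
      Cg s.N η (((∏ j ∈ S, v.l j : ℕ) : ℤ) ^ s.e) ∧ ∀ φ : ℍ → ℝ, GInv s.N φ →
        φ (act η t) = φ (act ((c.out : SL(2, ℤ)) * s.hk v x k) (s.pt6 v x (s.bs k) S)) := by
  obtain ⟨k1, k2⟩ := h.hk_spec hx hk
  obtain ⟨hd, k3⟩ := mem_Hn k1
  have hd' : 0 < (s.hk v x k).det := by rw [k3]; exact_mod_cast hd
  obtain ⟨g, hg⟩ := jInv_inj (k2.trans ht.symm)
  have hD := ydb_disc h hx ht
  have hF : Fit v.E (v.D k) := (h.fit k hk).trans (fit_sq h.N_pos _)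
  obtain ⟨c1, c2⟩ := h.ct_disc hx (s.bs k)
  have z1 : ((g : M2) * s.hk v x k).det = v.dg k := by
    rw [Matrix.det_mul, g.det_coe, one_mul, k3]
  have z2 : 0 < ((g : M2) * s.hk v x k).det := by rw [z1]; exact_mod_cast hd
  have z3 : act ((g : M2) * s.hk v x k) (s.ct x (s.bs k)) = t := by
    rw [act_mul (vact_SL_det g) hd', act_SL, hg]
  have z4 := AA_com c1 c2 z2 (z3 ▸ hD) hF v.b
  rw [z3] at z4
  refine ⟨QuotientGroup.mk g, fun S => ?_⟩
  obtain ⟨p0, p1⟩ := ydb_cop h S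
  have hn : 0 < (∏ j ∈ S, v.l j) ^ (2 * s.e) := pow_pos p0 _
  have dv : v.dg k ∣ s.dd v := Finset.dvd_prod_of_mem _ hk
  have dv' : (v.dg k : ℤ) ∣ s.dd v := by exact_mod_cast dv
  have q1 : IsCoprime ((∏ j ∈ S, v.l j : ℕ) : ℤ) (2 * v.E) :=
    p1.of_isCoprime_of_dvd_right ⟨s.N * s.dd v, by ring⟩
  have q2 : IsCoprime ((∏ j ∈ S, v.l j : ℕ) : ℤ) ((s.N * v.dg k : ℕ) : ℤ) := by
    refine p1.of_isCoprime_of_dvd_right ?_
    rw [Nat.cast_mul]
    exact (mul_dvd_mul_left _ dv').trans ⟨2 * v.E, by ring⟩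
  have q3 : IsCoprime ((∏ j ∈ S, v.l j : ℕ) : ℤ) (s.N : ℤ) :=
    p1.of_isCoprime_of_dvd_right ⟨2 * v.E * s.dd v, by ring⟩
  have q4 : IsCoprime ((∏ j ∈ S, v.l j : ℕ) : ℤ) (v.dg k : ℤ) :=
    p1.of_isCoprime_of_dvd_right (dv'.mul_left _)
  have hl := AA_line (b := v.b) hD hF hn (by rw [Nat.cast_pow]; exact q1.pow_left)
    (by rw [Nat.cast_pow]; exact (Dvd.intro_left _ rfl).trans (ydb_bl h S))
  obtain ⟨η, e1, e2, e3⟩ := hl.exists_Cg hn h.N_pos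
    (s := ((∏ j ∈ S, v.l j : ℕ) : ℤ) ^ s.e) q3.pow_left
    (by rw [Nat.cast_pow, ← pow_mul, mul_comm s.e, sub_self]; exact dvd_zero _)
  obtain ⟨r1, -, r4⟩ := h.rho_spec S _ (h.lab_mem hx (s.bs k))
  have r5 := h.rho_ker hx (s.bs k) S
  have r6 : Cg (s.N * v.dg k) (s.rho6 v S (s.lab6 v x (s.bs k)))
      (((∏ j ∈ S, v.l j : ℕ) : ℤ) ^ s.e) := r4.mono ((Nat.mul_dvd_mul_left _ dv).mul_right _)
  have r7 : 0 < (s.rho6 v S (s.lab6 v x (s.bs k))).det := by rw [r1]; exact_mod_cast hn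
  obtain ⟨γ, hγ, e4⟩ := swap_Cg hn hd z1 r1 e1
    (Nat.Coprime.pow_left _ (Nat.isCoprime_iff_coprime.1 q4)) q2.pow_left r6 e3 fun w hw => by
      rw [e2]
      rw [r5] at hw
      refine (Ker_com z4 ?_ w).1.2 hw
      rw [z1, Nat.cast_pow]
      exact q4.symm.pow_right
  refine ⟨η, e1, e2.ge, e3, fun φ hφ => ?_⟩
  obtain ⟨δ, hδ⟩ := QuotientGroup.mk_out_eq_mul (CongruenceSubgroup.Gamma s.N) g
  have r9 : 0 < ((g : M2) * s.hk v x k * s.rho6 v S (s.lab6 v x (s.bs k))).det := by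
    rw [Matrix.det_mul]
    exact mul_pos z2 r7
  rw [← z3, ← act_mul (by rw [e1]; exact_mod_cast hn) z2, e4, act_mul (vact_SL_det γ) r9, act_SL,
    hφ γ hγ, act_mul z2 r7, act_mul (vact_SL_det _) hd', act_mul (vact_SL_det _) hd', act_SL,
    act_SL, hδ, mul_smul]
  exact (hφ.smul g δ δ.2 _).symm

theorem prod_Cu [Fintype ι] (s : Shp n ι) (f : Fin n → ℝ) :
    ∏ c, ∏ k : s.Cu c, f k = ∏ k ∈ s.J, f k := by
  rw [← Finset.prod_fiberwise_of_maps_to (s := s.J) (t := univ) (g := s.bs)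
    (fun _ _ => mem_univ _) f]
  refine prod_congr rfl fun c _ => ?_
  exact (Finset.prod_subtype (s.J.filter fun k => s.bs k = c)
    (p := fun k => k ∈ s.J ∧ s.bs k = c) (fun k => mem_filter) f).symm

theorem ydb_val [Fintype ι] (s : Shp n ι) (φ : Fin n → (ℍ →ᵇ ℝ)) (γ : Fin n → vcjQ s.N)
    (h : Fin n → M2) (p : ι → ℍ) :
    ∏ c, (prF fun k : s.Cu c => φ k) (s.zt6 γ h c) (p c) =
      ∏ k ∈ s.J, φ k (act (((γ k).out : SL(2, ℤ)) * h k) (p (s.bs k))) := by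
  rw [← prod_Cu]
  refine prod_congr rfl fun c _ => ?_
  rw [prF, BoundedContinuousFunction.prod_apply]
  refine prod_congr rfl fun k _ => ?_
  rw [cact_apply, k.2.2]
  rfl

theorem ydb_size {s : Shp n ι} {v : VD n} {L G T W : ℝ} {a m₀ y : ℕ}
    (h : s.Ok6 v L G T W a m₀ y) (he : (8 * s.e : ℝ) ≤ G) (S : Finset (Fin v.M)) {k : Fin n}
    (hk : k ∈ s.J) : 4 * ((∏ j ∈ S, v.l j : ℕ) : ℤ) ^ (2 * s.e) < -v.D k := by
  obtain ⟨-, n1, n2, -, n3⟩ := h.num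
  have hG := h.hG
  have hT := h.GT
  have hy : 0 ≤ Real.log y := le_trans (by positivity) n1
  have h1 : ((∏ j ∈ S, v.l j : ℕ) : ℝ) ≤ Real.exp (v.M * (2 * Real.log y)) := by
    rw [Nat.cast_prod]
    calc _ ≤ ∏ _j ∈ S, Real.exp (2 * Real.log y) :=
          Finset.prod_le_prod (fun _ _ => Nat.cast_nonneg _) fun j _ => by
            have hp : (0 : ℝ) < v.l j := by exact_mod_cast (h.pl j).1.1.pos
            rw [← Real.log_le_iff_le_exp hp]
            exact n3 _ (h.pl j).1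
      _ = Real.exp (#S * (2 * Real.log y)) := by rw [prod_const, Real.exp_nat_mul]
      _ ≤ _ := by
          refine Real.exp_le_exp.2 (mul_le_mul_of_nonneg_right ?_ (by positivity))
          exact_mod_cast (card_le_univ S).trans (by simp)
  have h2 : ((∏ j ∈ S, v.l j : ℕ) : ℝ) ^ (2 * s.e) ≤
      Real.exp ((2 * s.e : ℕ) * (v.M * (2 * Real.log y))) := by
    rw [Real.exp_nat_mul]
    exact pow_le_pow_left₀ (Nat.cast_nonneg _) h1 _
  have h3 : ((2 * s.e : ℕ) : ℝ) * (v.M * (2 * Real.log y)) ≤ W / 2 := by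
    have a1 : 0 ≤ (v.M : ℝ) * Real.log y := by positivity
    have a2 := mul_le_mul_of_nonneg_right he a1
    have a3 := h.yW
    push_cast
    nlinarith
  have h4 : 8 ≤ W := by
    have a1 : 100 * 100 ≤ G * G := by nlinarith
    nlinarith
  have h5 : (4 : ℝ) < Real.exp 4 := by linarith [Real.add_one_le_exp 4]
  have h6 : 4 * ((∏ j ∈ S, v.l j : ℕ) : ℝ) ^ (2 * s.e) < -(v.D k : ℝ) :=
    calc _ ≤ 4 * Real.exp (W / 2) :=
          mul_le_mul_of_nonneg_left (h2.trans (Real.exp_le_exp.2 h3)) (by norm_num)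
      _ < Real.exp 4 * Real.exp (W / 2) := mul_lt_mul_of_pos_right h5 (Real.exp_pos _)
      _ ≤ Real.exp W := by rw [← Real.exp_add]; exact Real.exp_le_exp.2 (by linarith)
      _ ≤ _ := (h.large k hk).1
  exact_mod_cast h6

theorem ydb_big {s : Shp n ι} {v : VD n} {L G T W : ℝ} {a m₀ y : ℕ}
    (h : s.Ok6 v L G T W a m₀ y) {k : Fin n} (hk : k ∈ s.J) : G ≤ -(v.D k : ℝ) := by
  obtain ⟨-, -, n2, -, -⟩ := h.num
  have hG := h.hG
  have hT := h.GT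
  have a1 : 1 ≤ G * T := by nlinarith
  have a2 : G ≤ W := by nlinarith
  linarith [Real.add_one_le_exp W, (h.large k hk).1]

theorem red6 {N : ℕ} (hN : 0 < N) (F : IntermediateField ℚ ℂ) [FiniteDimensional ℚ F] (n : ℕ) :
    ∃ (e : ℕ) (G₀ : ℝ), 0 < e ∧ ∀ (ι : Type) [Fintype ι] [Nonempty ι] (s : Shp n ι)
      (φ : Fin n → (ℍ →ᵇ ℝ)), s.N = N → s.e = e → (∀ k, Tst N F (φ k)) → (∀ k, ‖φ k‖ ≤ 1) →
      ∀ (v : VD n) (L G T W : ℝ) (a m₀ y : ℕ) (ψ : (Fin n × Fn → ℂ) → ℝ) (θ : ℝ), G₀ ≤ G →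
      s.Ok6 v L G T W a m₀ y → Oth s.I v.D ψ → (∀ z, |ψ z| ≤ 1) → 0 < θ →
      θ ≤ |avg (ON N F v.τ) fun z => ψ z *
        (PT N F φ s.I z - (∏ k ∈ s.J, IN N (φ k)) * PT N F φ (s.I \ s.J) z)| →
      ∃ Ws : Wt v, WB (N ^ (3 * n)) Ws ∧ θ / (4 * Module.finrank ℚ F) ≤ prb (Orb v.τ)
        (s.Ev6 v (fun c => prF fun k : s.Cu c => φ k) Ws (∏ k ∈ s.J, IN N (φ k)) (θ / 2)) := by
  obtain ⟨e, he, hmv⟩ := move hN F n
  obtain ⟨B, hB⟩ := tst_rp hN F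
  refine ⟨e, max (max (8 * e) B) (577 * N ^ 2), he, ?_⟩
  intro ι _ _ s φ hsN hse hφ hφ1 v L G T W a m₀ y ψ θ hT h hψ hψ1 hθ hav
  subst hsN hse
  have T1 : (8 * s.e : ℝ) ≤ G := ((le_max_left _ _).trans (le_max_left _ _)).trans hT
  have T2 : B ≤ G := ((le_max_right _ _).trans (le_max_left _ _)).trans hT
  have T3 : (577 * s.N ^ 2 : ℝ) ≤ G := (le_max_right _ _).trans hT
  have hex := fun i : Finset (Fin v.M) => hmv v.E v.b (∏ j ∈ i, v.l j)
    ((univ.filter fun k => ¬ IsSquare (v.D k * v.E)).image v.D) h.Ebig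
    (card_image_le.trans ((card_filter_le _ _).trans (by simp)))
    (fun D hD => by
      obtain ⟨k, hk, rfl⟩ := mem_image.1 hD
      exact ⟨h.big k, (h.disc k).isD, (mem_filter.1 hk).2⟩)
    (ydb_cop h i).1 (ydb_cop h i).2.of_mul_right_left (ydb_bl h i)
  choose σ s1 s2 s3 using hex
  haveI := vcj_fin hN
  letI := Fintype.ofFinite (vcjQ s.N)
  have hMne : (univ : Finset (Finset (Fin v.M))).Nonempty := ⟨∅, mem_univ _⟩
  have hsplit : ∀ z, PT s.N F φ s.I z - (∏ k ∈ s.J, IN s.N (φ k)) * PT s.N F φ (s.I \ s.J) z =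
      PT s.N F φ (s.I \ s.J) z * (PT s.N F φ s.J z - ∏ k ∈ s.J, IN s.N (φ k)) := fun z => by
    rw [PT, ← prod_sdiff s.sub, mul_sub, mul_comm (∏ k ∈ s.J, IN s.N (φ k))]
    rfl
  simp only [hsplit] at hav
  set Φ : (Fin n × Fn → ℂ) → ℝ := fun z =>
    PT s.N F φ (s.I \ s.J) z * (PT s.N F φ s.J z - ∏ k ∈ s.J, IN s.N (φ k)) with hΦ
  have hΦ2 : ∀ z, |Φ z| ≤ 2 := fun z => by
    have a1 := xdb_abs (N := s.N) (F := F) hφ1 (s.I \ s.J) z
    have a2 := xdb_abs (N := s.N) (F := F) hφ1 s.J z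
    have a3 : |∏ k ∈ s.J, IN s.N (φ k)| ≤ 1 := by
      rw [Finset.abs_prod]
      exact Finset.prod_le_one (fun _ _ => abs_nonneg _) fun k _ =>
        (abs_IN_le hN _).trans (hφ1 k)
    rw [hΦ, abs_mul]
    calc _ ≤ 1 * (1 + 1) := mul_le_mul a1 ((abs_sub _ _).trans (add_le_add a2 a3))
          (abs_nonneg _) zero_le_one
      _ = 2 := by norm_num
  have hfix : ∀ z ∈ ON s.N F v.τ, ∀ i, ψ (fun b => σ i (z b)) = ψ z := fun z hz i => by
    have hz' := (mem_ON hN h.disc).1 hz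
    refine hψ _ _ fun k hk f => ?_
    by_cases hf : f ∈ MF s.N F
    · rw [← rp_val hN hz' k hf]
      refine s2 i (v.D k) (mem_image_of_mem _ (mem_filter.2 ⟨mem_univ _, fun hs => ?_⟩)) _
        (rp_disc hN h.disc hz' (h.big k)) f hf
      obtain ⟨c⟩ := ‹Nonempty ι›
      obtain ⟨m, hm, hE⟩ := (h.fit _ (s.mem c)).trans (fit_sq hN _)
      refine hk _ (s.sub (s.mem c)) (xdb_sq (m := m) (by exact_mod_cast hm.ne') ?_)
      rwa [hE, mul_comm ((m : ℤ) ^ 2), ← mul_assoc] at hs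
    · rw [← congrFun (vev_rp hN hz' k) f, ev_of_not hf, map_zero]
  have e1 : avg (ON s.N F v.τ) (fun z => ψ z * Φ z) =
      mn (ON s.N F v.τ) fun z => ψ z * mn univ fun i => Φ fun b => σ i (z b) := by
    have a1 : ∀ i, mn (ON s.N F v.τ) (fun z => ψ z * Φ fun b => σ i (z b)) =
        avg (ON s.N F v.τ) fun z => ψ z * Φ z := fun i => by
      rw [mn, avg, ON, ← sum_galO (s1 i) fun z => ψ z * Φ z]
      congr 1
      exact sum_congr rfl fun z hz => by rw [hfix z hz i]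
    simp only [← mn_mul]
    rw [mn_swap]
    simp only [a1]
    rw [mn_const hMne]
  have e2 : θ ≤ mn (ON s.N F v.τ) fun z => |mn univ fun i => Φ fun b => σ i (z b)| := by
    refine hav.trans ?_
    rw [e1]
    refine (abs_mn_le _ _).trans (mn_mono fun z _ => ?_)
    rw [abs_mul]
    exact mul_le_of_le_one_left (abs_nonneg _) (hψ1 z)
  have e3 := pb_rev (O := ON s.N F v.τ) (G := fun z => |mn univ fun i => Φ fun b => σ i (z b)|)
    two_pos (fun z _ => (abs_mn_le _ _).trans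
      ((mn_mono fun i _ => hΦ2 _).trans (mn_const hMne 2).le)) (half_pos hθ).le
  refine ⟨fun u => (univ : Finset (Fin n → vcjQ s.N)).image fun c i => PT s.N F φ (s.I \ s.J)
    fun b => σ i (evs (MF s.N F) (fun k => (c k).out⁻¹ • fr (u k)) b), fun u => ⟨?_, ?_⟩, ?_⟩
  · refine card_image_le.trans ?_
    rw [card_univ, Fintype.card_fun, Fintype.card_fin, pow_mul, ← Nat.card_eq_fintype_card]
    exact Nat.pow_le_pow_left (index_Gamma_le hN) n
  · intro W hW i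
    obtain ⟨c, -, rfl⟩ := mem_image.1 hW
    exact xdb_abs hφ1 _ _
  have hfr : (0 : ℝ) < Module.finrank ℚ F := by exact_mod_cast Module.finrank_pos
  rw [← div_div, div_le_iff₀' hfr]
  refine le_trans ?_ (prb_pj hN F h.disc _)
  refine le_trans (by linarith) (e3.trans (pb_mono fun z hz hG => ?_))
  have hz' := (mem_ON hN h.disc).1 hz
  have hx : pj z ∈ Orb v.τ := by
    obtain ⟨σ', -, e⟩ := pj_mem hN hz'
    exact (mem_Orb h.disc).2 ⟨σ', e⟩
  choose c hc using xdb_cell hN hz'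
  have hγ : ∀ k, ∃ γ : vcjQ s.N, k ∈ s.J → ∀ i,
      φ k (rp (MF s.N F) (fun b => σ i (z b)) k) =
        φ k (act ((γ.out : SL(2, ℤ)) * s.hk v (pj z) k) (s.pt6 v (pj z) (s.bs k) i)) :=
    fun k => by
    by_cases hk : k ∈ s.J
    · obtain ⟨γ, hγ⟩ := move_pt6 h hx hk (vev_j hN hz' k)
      refine ⟨γ, fun _ i => ?_⟩
      obtain ⟨η, a1, a2, a3, a4⟩ := hγ i
      rw [← a4 _ (hφ k).ginv]
      refine (hB n v.τ v.D h.disc _ (galO_map hz' (s1 i)) k (T2.trans (ydb_big h hk)) _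
        (fun f hf => ?_) _ (hφ k)).symm
      rw [← rp_val hN hz' k hf]
      refine (s3 i _ (v.D k) η (rp_disc hN h.disc hz' (h.big k)) (h.fit k hk) ?_
        (ydb_size h T1 i hk) a1 a2 a3 f hf).symm
      exact_mod_cast T3.trans (ydb_big h hk)
    · exact ⟨QuotientGroup.mk 1, fun hk' => absurd hk' hk⟩
  choose γ hγ using hγ
  refine ⟨_, mem_image_of_mem _ (mem_univ c), γ, hG.trans (le_of_eq ?_)⟩
  refine congrArg (fun u => |mn univ u|) (funext fun i => ?_)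
  rw [hΦ, ydb_val s φ γ _ fun c => s.pt6 v (pj z) c i]
  refine congrArg₂ (· * ·) ?_ (congrArg (· - _) ?_)
  · refine prod_congr rfl fun k hk => congrArg (φ k) (rp_congr fun f => congrArg (σ i) ?_)
    rw [← hc k f, evs, sm, if_pos hk]
  · exact prod_congr rfl fun k hk => hγ k hk i

theorem Ev6.approx [Fintype ι] {s : Shp n ι} (hN : 0 < s.N) {v : VD n}
    {φ φ' : Fin n → (ℍ →ᵇ ℝ)} (hb : ∀ k, ‖φ k‖ ≤ 1) (hb' : ∀ k, ‖φ' k‖ ≤ 1) {ε t : ℝ}
    (hε : 0 ≤ ε) (hd : ∀ k, ‖φ k - φ' k‖ ≤ ε) {B : ℕ} {Ws : Wt v} (hW : WB B Ws) {x : Fin n → ℂ}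
    (h : s.Ev6 v (fun c => prF fun k : s.Cu c => φ k) Ws (∏ k ∈ s.J, IN s.N (φ k)) t x) :
    s.Ev6 v (fun c => prF fun k : s.Cu c => φ' k) Ws (∏ k ∈ s.J, IN s.N (φ' k))
      (t - 2 * n * ε) x := by
  obtain ⟨w, hw, γ, h⟩ := h
  refine ⟨w, hw, γ, ?_⟩
  have hne : (univ : Finset (Finset (Fin v.M))).Nonempty := ⟨∅, mem_univ _⟩
  have hJ : (#s.J : ℝ) * ε ≤ n * ε := by
    refine mul_le_mul_of_nonneg_right ?_ hε
    exact_mod_cast (card_le_univ s.J).trans (by simp)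
  have b1 : |∏ k ∈ s.J, IN s.N (φ k) - ∏ k ∈ s.J, IN s.N (φ' k)| ≤ n * ε :=
    (ydb_tel s.J (fun k => (abs_IN_le hN _).trans (hb k)) (fun k => (abs_IN_le hN _).trans (hb' k))
      fun k => (ydb_IN hN _ _).trans (hd k)).trans hJ
  have b2 : ∀ p : Fin n → ℍ, |∏ k ∈ s.J, φ k (p k) - ∏ k ∈ s.J, φ' k (p k)| ≤ n * ε := fun p =>
    (ydb_tel s.J (fun k => ((φ k).norm_coe_le_norm _).trans (hb k))
      (fun k => ((φ' k).norm_coe_le_norm _).trans (hb' k))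
      fun k => ((φ k - φ' k).norm_coe_le_norm (p k)).trans (hd k)).trans hJ
  have key : ∀ f g : Finset (Fin v.M) → ℝ, (∀ S, |f S - g S| ≤ 2 * n * ε) →
      t ≤ |mn univ f| → t - 2 * n * ε ≤ |mn univ g| := fun f g hfg ht => by
    have e : mn univ f = mn univ g + mn univ fun S => f S - g S := by
      rw [← mn_add]
      exact congrArg _ (funext fun S => by ring)
    have a1 : |mn univ fun S => f S - g S| ≤ 2 * n * ε :=
      (abs_mn_le _ _).trans ((mn_mono fun S _ => hfg S).trans (mn_const hne _).le)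
    have a2 := abs_add_le (mn univ g) (mn univ fun S => f S - g S)
    rw [← e] at a2
    linarith
  refine key _ _ (fun S => ?_) h
  rw [ydb_val s φ γ _ fun c => s.pt6 v x c S, ydb_val s φ' γ _ fun c => s.pt6 v x c S,
    ← mul_sub, abs_mul]
  refine (mul_le_of_le_one_left (abs_nonneg _) ((hW _).2 w hw S)).trans ?_
  have a1 := b2 fun k => act (((γ k).out : SL(2, ℤ)) * s.hk v x k) (s.pt6 v x (s.bs k) S)
  rw [sub_sub_sub_comm]
  refine (abs_sub _ _).trans ?_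
  linarith

end Shp

end Pool.Agent.EQ
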