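import Pool.Agent.P.MP_ad7a55_nt.YDa

/-! Moving the tests by one prime. -/

set_option autoImplicit false

noncomputable section

open MeasureTheory Topology Filter UpperHalfPlane Finset
open scoped MatrixGroups BoundedContinuousFunction Matrix Classical

namespace Pool.Agent.EQ

namespace Shp

variable {n : ℕ} {ι : Type} {s : Shp n ι} {v : VD n} {L G T W K t : ℝ} {a m₀ y q q₀ : ℕ}
  {x : Fin n → ℂ} {𝒢 : s.Fm} {Ws : Wt v}

theorem ydc_et (h : s.Ok6 v L G T W a m₀ y) (hx : x ∈ Orb v.τ) (hq : q ∈ v.P) (c : ι) :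
    (s.et v {q} x c).det = q ∧ Ker q (s.et v {q} x c) = Ker q (s.A v x c) ∧
      act (s.et v {q} x c) (s.ct x c) = s.ct (v.mv {q} x) c ∧
      s.et v {q} x c * s.A v x c = s.A v (v.mv {q} x) c * s.et v {q} x c := by
  obtain ⟨h1, h2, h3⟩ := h.et_spec (singleton_subset_iff.2 hq) hx c
  rw [prod_singleton] at h1
  exact ⟨h1, h2 q (mem_singleton_self q), h3⟩

theorem ydc_rho (h : s.Ok6 v L G T W a m₀ y) (hx : x ∈ Orb v.τ) (c : ι)
    (S : Finset (Fin v.M)) : 0 < (s.rho6 v S (s.lab6 v x c)).det := by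
  rw [(h.rho_spec S _ (h.lab_mem hx c)).1]
  exact_mod_cast pow_pos (prod_pos fun j _ => (h.pl j).1.1.pos) _

theorem ydc_swap (h : s.Ok6 v L G T W a m₀ y) (hx : x ∈ Orb v.τ) (hq : q ∈ v.P) (c : ι)
    (S : Finset (Fin v.M)) : ∃ δ ∈ CongruenceSubgroup.Gamma (s.N * s.dd v),
      s.rho6 v S (s.lab6 v (v.mv {q} x) c) * s.et v {q} x c =
        (δ : M2) * (s.et v {q} x c * s.rho6 v S (s.lab6 v x c)) := by
  obtain ⟨e1, -, -, e4⟩ := ydc_et h hx hq c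
  have hy : v.mv {q} x ∈ Orb v.τ := Orb_map h.disc hx _
  obtain ⟨cu, rs⟩ := h.cup hq
  obtain ⟨r1, -, r3⟩ := rs S _ (h.lab_mem hx c)
  obtain ⟨s1, -, s3⟩ := rs S _ (h.lab_mem hy c)
  have c1 : (∏ j ∈ S, v.l j).Coprime q := Nat.Coprime.prod_left fun j _ => ycb_lq cu j
  have c2 : (∏ j ∈ S, v.l j).Coprime (s.N * s.dd v) :=
    Nat.Coprime.prod_left fun j _ => ycb_lM cu j
  have c3 : ((∏ j ∈ S, v.l j) ^ (2 * s.e)).Coprime q := c1.pow_left _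
  refine swap_Cg (ycb_pp cu S _) cu.hq.1.pos e1 r1 s1 c3
    (Nat.isCoprime_iff_coprime.2 (c2.mul_right c1)).pow_left r3 (s3.mono (Dvd.intro _ rfl))
    fun w hw => ?_
  rw [h.rho_ker hx] at hw
  rw [h.rho_ker hy]
  exact (Ker_com e4 (by rw [e1]; exact Nat.isCoprime_iff_coprime.2 c3.symm) w).1.2 hw

theorem ydc_key (h : s.Ok6 v L G T W a m₀ y) (hx : x ∈ Orb v.τ) (hq : q ∈ v.P)
    (γ' : Fin n → vcjQ s.N) (k : Fin n) : ∃ γ : vcjQ s.N, k ∈ s.J →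
      ∃ δ ∈ CongruenceSubgroup.Gamma s.N,
        ((γ' k).out : SL(2, ℤ)) * s.hk v (v.mv {q} x) k * s.et v {q} x (s.bs k) =
          (δ : M2) * (nu s.N q (img ((γ.out : SL(2, ℤ)) * s.hk v x k)
            (Ker q (s.A v x (s.bs k)))) * ((γ.out : SL(2, ℤ)) * s.hk v x k)) := by
  by_cases hk : k ∈ s.J
  swap
  · exact ⟨γ' k, fun h1 => absurd h1 hk⟩
  obtain ⟨e1, e2, -, -⟩ := ydc_et h hx hq (s.bs k)
  have hy : v.mv {q} x ∈ Orb v.τ := Orb_map h.disc hx _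
  have hp := (h.pP q hq).1
  obtain ⟨-, cN, cd⟩ := xda_pm (h.pP q hq)
  obtain ⟨d0, d1⟩ := mem_Hn (h.hk_spec hx hk).1
  have cg : q.Coprime (v.dg k) := cd.coprime_dvd_right (Finset.dvd_prod_of_mem _ hk)
  have d2 : ((((γ' k).out : SL(2, ℤ)) : M2) * s.hk v (v.mv {q} x) k).det = v.dg k := by
    rw [Matrix.det_mul, Matrix.SpecialLinearGroup.det_coe, one_mul,
      (mem_Hn (h.hk_spec hy hk).1).2]
  obtain ⟨γ, hγ⟩ := exists_up (ξ := Ker q (s.A v x (s.bs k))) h.N_pos hp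
    ((Nat.Prime.coprime_iff_not_dvd hp).1 cN) d0 ((Nat.Prime.coprime_iff_not_dvd hp).1 cg)
    (η := (((γ' k).out : SL(2, ℤ)) : M2) * s.hk v (v.mv {q} x) k * s.et v {q} x (s.bs k))
    (h := s.hk v x k) (by rw [Matrix.det_mul, d2, e1, Nat.cast_mul]) d1
    (by rw [Matrix.mul_assoc, Ker_SL, h.hk_move hq hx hk])
    (by rw [Ker_cop (by rw [d2]; exact Nat.isCoprime_iff_coprime.2 cg.symm), e2])
  exact ⟨γ, fun _ => hγ⟩

theorem ydc_sm (β : Finset ℕ) (x : Fin n → ℂ) : s.sm (v.mv β x) = v.mv β (s.sm x) := by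
  funext k
  unfold sm VD.mv
  beta_reduce
  split_ifs
  · rfl
  · rw [map_zero]

theorem ydc_prod {κ : Type} (J : Finset κ) (f g : κ → ℝ)
    (h : ∀ k ∈ J, |f k| ≤ 1 ∧ |g k| ≤ 1) :
    |∏ k ∈ J, f k - ∏ k ∈ J, g k| ≤ ∑ k ∈ J, |f k - g k| := by
  induction J using Finset.induction_on with
  | empty => simp
  | insert k J hk ih =>
    obtain ⟨h1, -⟩ := h k (mem_insert_self _ _)
    have h4 := ih fun l hl => h l (mem_insert_of_mem hl)
    have h5 : |∏ l ∈ J, g l| ≤ 1 := by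
      rw [Finset.abs_prod]
      exact Finset.prod_le_one (fun _ _ => abs_nonneg _) fun l hl =>
        (h l (mem_insert_of_mem hl)).2
    rw [prod_insert hk, prod_insert hk, sum_insert hk,
      show f k * ∏ l ∈ J, f l - g k * ∏ l ∈ J, g l =
        f k * (∏ l ∈ J, f l - ∏ l ∈ J, g l) + (f k - g k) * ∏ l ∈ J, g l by ring]
    refine (abs_add_le _ _).trans ?_
    rw [abs_mul, abs_mul]
    have h6 := mul_le_mul h1 h4 (abs_nonneg _) zero_le_one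
    have h7 := mul_le_of_le_one_right (abs_nonneg (f k - g k)) h5
    linarith

theorem ydc_half {α : Type} {O : Finset α} (hO : O.Nonempty) (p : α → Prop) {F : α → ℝ} {t : ℝ}
    (ht : 0 ≤ t) (h : ∀ z ∈ O, F z ≤ 1 / 2 ∧ (¬ p z → F z ≤ t / 2)) :
    mn O F ≤ 1 / 2 * prb O p + t / 2 := by
  rw [pb_eq, ← mn_mul, ← mn_const hO (t / 2), ← mn_add]
  refine mn_mono fun z hz => ?_
  obtain ⟨h1, h2⟩ := h z hz
  split_ifs with h3
  · linarith
  · linarith [h2 h3]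

theorem ydc_sq {κ : Type} (F : (κ → M2) → (ℍ →ᵇ ℝ)) (I : ℝ) (ζ : κ → M2) (z : ℍ) :
    sqF F I ζ z = 1 / 2 * (F ζ z - I) ^ 2 := by
  simp [sqF, sq]

theorem Ok6.val_move (h : s.Ok6 v L G T W a m₀ y) (hF : ∀ c, Fam s.N q₀ K (𝒢 c))
    (h₀ : q₀.Coprime (s.dd v * ∏ j, v.l j)) (hq : q ∈ v.P) (hq₀ : q.Coprime q₀)
    (hx : x ∈ Orb v.τ) (γ' : Fin n → vcjQ s.N) : ∃ γ : Fin n → vcjQ s.N, ∀ c S,
      𝒢 c (s.zt6 γ' (s.hk v (v.mv {q} x)) c) (s.pt6 v (v.mv {q} x) c S) =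
        𝒢 c (up s.N q (s.zt6 γ (s.hk v x) c) (Ker q (s.A v x c))) (s.pt6 v x c S) := by
  choose γ hγ using ydc_key h hx hq γ'
  refine ⟨γ, fun c S => ?_⟩
  have hy : v.mv {q} x ∈ Orb v.τ := Orb_map h.disc hx _
  have hp := (h.pP q hq).1
  obtain ⟨e1, -, e3, -⟩ := ydc_et h hx hq c
  obtain ⟨δ₀, hδ₀, e5⟩ := ydc_swap h hx hq c S
  have r1 := ydc_rho h hx c S
  have r2 := ydc_rho h hy c S
  have d4 : 0 < (s.et v {q} x c).det := by rw [e1]; exact_mod_cast hp.pos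
  have cd : q₀.Coprime (s.dd v) := h₀.coprime_mul_right_right
  have a1 : ∀ k : s.Cu c, Ad q₀ (s.zt6 γ' (s.hk v (v.mv {q} x)) c k) ∧
      s.N * (s.zt6 γ' (s.hk v (v.mv {q} x)) c k).det.natAbs ∣ s.N * s.dd v := fun k => by
    obtain ⟨z1, z2⟩ := h.zt_det hy γ' c k
    unfold Ad
    rw [z1, Int.natAbs_natCast]
    exact ⟨⟨by exact_mod_cast (h.deg k k.2.1).1,
      Nat.isCoprime_iff_coprime.2 (cd.coprime_dvd_right z2).symm⟩, Nat.mul_dvd_mul_left _ z2⟩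
  have a2 : Ad q₀ (s.et v {q} x c) := ⟨d4, by rw [e1]; exact Nat.isCoprime_iff_coprime.2 hq₀⟩
  choose δ hδ e6 using fun k : s.Cu c => hγ k k.2.1
  have e7 : ∀ k : s.Cu c, s.zt6 γ' (s.hk v (v.mv {q} x)) c k * s.et v {q} x c =
      (δ k : M2) * up s.N q (s.zt6 γ (s.hk v x) c) (Ker q (s.A v x c)) k := fun k => by
    have := e6 k
    rw [k.2.2] at this
    exact this
  have a3 : ∀ k : s.Cu c, Ad q₀ (up s.N q (s.zt6 γ (s.hk v x) c) (Ker q (s.A v x c)) k) :=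
    fun k => by
      have e8 := congrArg Matrix.det (e7 k)
      rw [Matrix.det_mul, Matrix.det_mul, Matrix.SpecialLinearGroup.det_coe, one_mul] at e8
      unfold Ad
      rw [← e8]
      exact ⟨mul_pos (a1 k).1.1 d4, (a1 k).1.2.mul_left a2.2⟩
  unfold pt6
  rw [← e3, ← act_mul r2 d4, e5, act_mul (yaa_Ad_SL δ₀ 1).1
    (by rw [Matrix.det_mul]; exact mul_pos d4 r1), act_SL, (hF c).ginv a1 δ₀ hδ₀, act_mul d4 r1,
    ← (hF c).mul _ _ (fun k => (a1 k).1) a2, ← (hF c).inv _ δ a3 hδ]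
  simp only [e7]

variable [Fintype ι]

theorem Ok6.ev_move (h : s.Ok6 v L G T W a m₀ y) (hF : ∀ c, Fam s.N q₀ K (𝒢 c))
    (h₀ : q₀.Coprime (s.dd v * ∏ j, v.l j)) (hq : q ∈ v.P) (hq₀ : q.Coprime q₀) {b θ : ℝ}
    (hE : θ ≤ prb (Orb v.τ) (s.Ev6 v 𝒢 Ws b t)) :
    θ / 2 ≤ prb (Orb v.τ) (s.EA v 𝒢 (fun u => Ws (v.mv {q} u)) (t / 2) q) ∨
      θ / 2 ≤ prb (Orb v.τ)
        (s.Ev6 v (fun c => Tq s.N q (𝒢 c)) (fun u => Ws (v.mv {q} u)) b (t / 2)) := by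
  rw [← prb_mv h.disc {q}] at hE
  have h1 := hE.trans ((pb_mono (p' := fun x =>
      s.EA v 𝒢 (fun u => Ws (v.mv {q} u)) (t / 2) q x ∨
      s.Ev6 v (fun c => Tq s.N q (𝒢 c)) (fun u => Ws (v.mv {q} u)) b (t / 2) x)
      fun x hx h2 => ?_).trans (pb_or _ _ _))
  · by_contra hc
    push Not at hc
    linarith [hc.1, hc.2]
  obtain ⟨W', hW', γ', h3⟩ := h2
  rw [ydc_sm] at hW'
  obtain ⟨γ, hγ⟩ := h.val_move hF h₀ hq hq₀ hx γ'
  simp only [hγ] at h3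
  by_contra hc
  rw [not_or] at hc
  have h4 := not_le.1 fun h5 => hc.1 ⟨W', hW', γ, h5⟩
  have h5 := not_le.1 fun h5 => hc.2 ⟨W', hW', γ, h5⟩
  have h6 := (abs_add_le _ _).trans_lt (add_lt_add h4 h5)
  rw [← mn_add, add_halves] at h6
  refine absurd (h3.trans_eq (congrArg _ (congrArg _ (funext fun S => ?_)))) (not_le.2 h6)
  ring

/-- The second family. -/
def fam2 (𝒢 : s.Fm) (I : ι → ℝ) (c : ι) : s.Fm := fun c' =>
  if c' = c then sqF (𝒢 c') (I c') else fun _ => BoundedContinuousFunction.const ℍ (1 / 2 : ℝ)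

theorem fam2_fam (hK : 0 ≤ K) (hF : ∀ c, Fam s.N q₀ K (𝒢 c)) {I : ι → ℝ}
    (hI : ∀ c, |I c| ≤ 1 / 2) (c c' : ι) : Fam s.N q₀ K (fam2 𝒢 I c c') := by
  unfold fam2
  split_ifs
  · exact (hF c').sq (hI c')
  · exact fam_const _ _ hK

theorem ev_sq [Nonempty ι] (hb : ∀ c ζ z, |𝒢 c ζ z| ≤ 1) {I : ι → ℝ} (hI : ∀ c, |I c| ≤ 1)
    {B : ℕ} (hW : WB B Ws) (ht : 0 ≤ t) {θ : ℝ}
    (hE : θ ≤ prb (Orb v.τ) (s.Ev6 v 𝒢 Ws (∏ c, I c) t)) :
    ∃ c, θ / Fintype.card ι ≤ prb (Orb v.τ) (s.Ev6 v (fam2 𝒢 I c) (fun _ => {fun _ => 1}) 0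
      ((1 / 2) ^ Fintype.card ι * (t / Fintype.card ι) ^ 2)) := by
  have hm : (0 : ℝ) < Fintype.card ι := by exact_mod_cast Fintype.card_pos
  have h1 := hE.trans ((pb_mono (p' := fun x => ∃ c ∈ (univ : Finset ι),
      s.Ev6 v (fam2 𝒢 I c) (fun _ => {fun _ => 1}) 0
        ((1 / 2) ^ Fintype.card ι * (t / Fintype.card ι) ^ 2) x)
      fun x _ h2 => ?_).trans (pb_exists _ _ _))
  · obtain ⟨c, -, hc⟩ := exists_le_of_sum_le (s := (univ : Finset ι)) univ_nonempty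
      (f := fun _ => θ / Fintype.card ι) (le_trans (le_of_eq (by
        rw [sum_const, card_univ, nsmul_eq_mul, mul_div_cancel₀ _ hm.ne'])) h1)
    exact ⟨c, hc⟩
  obtain ⟨W', hW', γ, h3⟩ := h2
  set g : ι → Finset (Fin v.M) → ℝ :=
    fun c S => 𝒢 c (s.zt6 γ (s.hk v x) c) (s.pt6 v x c S) with hg
  have h4 : t ≤ ∑ c, mn univ fun S => |g c S - I c| := by
    rw [← mn_sum]
    refine h3.trans ((abs_mn_le _ _).trans (mn_mono fun S _ => ?_))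
    rw [abs_mul]
    exact (mul_le_of_le_one_left (abs_nonneg _) ((hW _).2 W' hW' S)).trans
      (ydc_prod univ (fun c => g c S) I fun c _ => ⟨hb c _ _, hI c⟩)
  obtain ⟨c, -, hc⟩ := exists_le_of_sum_le (s := (univ : Finset ι)) univ_nonempty
    (f := fun _ => t / Fintype.card ι) (le_trans (le_of_eq (by
      rw [sum_const, card_univ, nsmul_eq_mul, mul_div_cancel₀ _ hm.ne'])) h4)
  refine ⟨c, mem_univ c, fun _ => 1, mem_singleton_self _, γ, le_trans ?_ (le_abs_self _)⟩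
  have h5 : (t / Fintype.card ι) ^ 2 ≤ mn univ fun S => |g c S - I c| ^ 2 :=
    (pow_le_pow_left₀ (by positivity) hc 2).trans (sq_mn_le _ _)
  refine (mul_le_mul_of_nonneg_left h5 (by positivity)).trans ?_
  rw [← mn_mul]
  refine mn_mono fun S _ => le_of_eq ?_
  have h6 : ∏ c' ∈ univ.erase c, fam2 𝒢 I c c' (s.zt6 γ (s.hk v x) c') (s.pt6 v x c' S) =
      (1 / 2) ^ (Fintype.card ι - 1) := by
    rw [← card_univ, ← card_erase_of_mem (mem_univ c), ← prod_const]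
    refine prod_congr rfl fun c' hc' => ?_
    unfold fam2
    rw [if_neg (ne_of_mem_erase hc')]
    rfl
  have h7 : fam2 𝒢 I c c (s.zt6 γ (s.hk v x) c) (s.pt6 v x c S) = 1 / 2 * (g c S - I c) ^ 2 := by
    unfold fam2
    rw [if_pos rfl, ydc_sq]
  obtain ⟨m, e⟩ : ∃ m, Fintype.card ι = m + 1 :=
    Nat.exists_eq_succ_of_ne_zero Fintype.card_ne_zero
  rw [← mul_prod_erase _ _ (mem_univ c), h6, h7, sq_abs, e, Nat.add_sub_cancel]
  ring

theorem Ok6.ev_rare (h : s.Ok6 v L G T W a m₀ y) {I : ι → ℝ} {c : ι} (hq : q ∈ v.P)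
    (hb : ∀ ζ z, |𝒢 c ζ z - I c| ≤ 1) (ht : 0 < t) {U δ : ℝ}
    (hs : ∀ x ∈ Orb v.τ, ∀ (γ : Fin n → vcjQ s.N) (g : SL(2, ℤ)) (z : ℍ), g • z ∈ KU U →
      Tq s.N q (sqF (𝒢 c) (I c)) (s.zt6 γ (s.hk v x) c) z ≤ t / 2)
    (hU : prb (Orb v.τ) (fun x => s.ct x c ∉ KU U) ≤ δ) :
    prb (Orb v.τ) (s.Ev6 v (fun c' => Tq s.N q (fam2 𝒢 I c c')) (fun _ => {fun _ => 1}) 0 t) ≤
      δ / t := by
  have hX : (Xn q).Nonempty := ycb_ne (h.pP q hq).1.pos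
  have hδ : 0 ≤ δ := (pb_nonneg _ _).trans hU
  refine (pb_mono (p' := fun x => t ≤ prb (univ : Finset (Finset (Fin v.M)))
    fun S => ¬ ∃ g : SL(2, ℤ), g • s.pt6 v x c S ∈ KU U) fun x hx h2 => ?_).trans
    ((pb_markov (fun x _ => pb_nonneg _ _) ht).trans (div_le_div_of_nonneg_right ?_ ht.le))
  swap
  · simp only [pb_eq univ]
    rw [mn_swap]
    refine ycb_le hδ fun S _ => le_trans (le_of_eq ?_) ((h.test_tight c S U).trans hU)
    rw [pb_eq]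
  obtain ⟨W', hW', γ, h3⟩ := h2
  rw [mem_singleton] at hW'
  subst hW'
  have h4 := h3.trans ((abs_mn_le _ _).trans (ydc_half univ_nonempty
    (fun S => ¬ ∃ g : SL(2, ℤ), g • s.pt6 v x c S ∈ KU U) ht.le fun S _ => ?_))
  · linarith
  have h5 : ∏ c' ∈ univ.erase c,
      |Tq s.N q (fam2 𝒢 I c c') (s.zt6 γ (s.hk v x) c') (s.pt6 v x c' S)| ≤ 1 := by
    refine prod_le_one (fun _ _ => abs_nonneg _) fun c' hc' => ?_
    unfold fam2 Tq
    rw [if_neg (ne_of_mem_erase hc')]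
    refine abs_mnB_le zero_le_one fun ξ _ => ?_
    rw [BoundedContinuousFunction.const_apply, abs_of_pos (by norm_num)]
    norm_num
  have h6 : fam2 𝒢 I c c = sqF (𝒢 c) (I c) := by
    unfold fam2
    rw [if_pos rfl]
  have h7 : 0 ≤ Tq s.N q (sqF (𝒢 c) (I c)) (s.zt6 γ (s.hk v x) c) (s.pt6 v x c S) := by
    unfold Tq
    rw [mnB_apply, ← mn_const hX 0]
    refine mn_mono fun ξ _ => ?_
    rw [ydc_sq]
    positivity
  have h8 : Tq s.N q (sqF (𝒢 c) (I c)) (s.zt6 γ (s.hk v x) c) (s.pt6 v x c S) ≤ 1 / 2 := by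
    unfold Tq
    rw [mnB_apply]
    refine ycb_le (by norm_num) fun ξ _ => ?_
    rw [ydc_sq, ← sq_abs]
    have := pow_le_one₀ (n := 2) (abs_nonneg _)
      (hb (up s.N q (s.zt6 γ (s.hk v x) c) ξ) (s.pt6 v x c S))
    linarith
  beta_reduce
  rw [one_mul, sub_zero, Finset.abs_prod, ← mul_prod_erase _ _ (mem_univ c)]
  have h9 := mul_le_of_le_one_right (abs_nonneg (Tq s.N q (fam2 𝒢 I c c)
    (s.zt6 γ (s.hk v x) c) (s.pt6 v x c S))) h5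
  refine ⟨h9.trans ?_, fun h10 => h9.trans ?_⟩
  · rw [h6, abs_of_nonneg h7]
    exact h8
  · rw [h6, abs_of_nonneg h7]
    obtain ⟨g, hg⟩ := not_not.1 h10
    exact hs x hx γ g _ hg

end Shp

end Pool.Agent.EQ
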