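import Pool.Agent.P.MP_ad7a55_nt.YDa
import Pool.Agent.P.MP_ad7a55_nt.YCc
import Pool.Agent.P.MP_ad7a55_nt.XEc
import Pool.Agent.P.MP_ad7a55_nt.XDc

/-! Few labels of the test primes are bad. -/

set_option autoImplicit false

noncomputable section

open MeasureTheory Topology Filter UpperHalfPlane Finset
open scoped MatrixGroups BoundedContinuousFunction Matrix Classical

namespace Pool.Agent.EQ

namespace Shp

variable {n : ℕ} {ι : Type} (s : Shp n ι)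

/-- Directions at the test primes along which many pairs of directions at `q` correlate. -/
def Bad6 (v : VD n) (c : ι) (𝒢 : (s.Cu c → M2) → (ℍ →ᵇ ℝ)) (q : ℕ) (ε σ : ℝ) (Rn : Finset ℍ)
    (Ls : Fin v.M → Set V2) : Prop :=
  ∃ w ∈ Rn, ∃ ζ : s.Cu c → M2, (∀ k : s.Cu c, RPm s.N (v.dg k) (ζ k)) ∧
    σ < prb (Xn q).offDiag fun ω => ε < |mn univ fun S =>
      (𝒢 (up s.N q ζ ω.1) - Tq s.N q 𝒢 ζ) (act (s.rho6 v S Ls) w) *
        (𝒢 (up s.N q ζ ω.2) - Tq s.N q 𝒢 ζ) (act (s.rho6 v S Ls) w)|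

theorem ydd_card {α : Type} (O : Finset α) (B : α → Prop) {c : ℝ} (h : prb O B ≤ c) :
    (#(O.filter B) : ℝ) ≤ c * #O := by
  rcases O.eq_empty_or_nonempty with rfl | hO
  · simp
  · have p0 : (0 : ℝ) < #O := by exact_mod_cast hO.card_pos
    rwa [prb, div_le_iff₀ p0] at h

section
variable {s} {v : VD n} {L G T W : ℝ} {a m₀ y : ℕ}

theorem ydd_y (h : s.Ok6 v L G T W a m₀ y) : (0 : ℝ) < y ∧ G ≤ Real.log y ∧ G ≤ y := by
  have h1 := h.hG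
  have h2 := h.GT
  have h3 := h.Ty
  have h4 : G ≤ Real.log y := by nlinarith
  have h5 : (0 : ℝ) < y := by
    rcases (Nat.cast_nonneg (α := ℝ) y).eq_or_lt with e | e
    · rw [← e, Real.log_zero] at h4
      linarith
    · exact e
  exact ⟨h5, h4, h4.trans (Real.log_le_self h5.le)⟩

theorem ydd_pow (h : s.Ok6 v L G T W a m₀ y) {b c : ℝ} (hc : 0 < c) (hb : b ≤ c * G) :
    Real.exp (b * T) ≤ (y : ℝ) ^ c := by
  have h1 := h.hG
  have h2 := h.GT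
  rw [Real.rpow_def_of_pos (ydd_y h).1]
  refine Real.exp_le_exp.2 ?_
  have h3 : b * T ≤ c * G * T := mul_le_mul_of_nonneg_right hb (by linarith)
  have h4 : c * (G * T) ≤ c * Real.log y := mul_le_mul_of_nonneg_left h.Ty hc.le
  nlinarith

theorem ydd_Z (h : s.Ok6 v L G T W a m₀ y) (hN : (s.N : ℝ) ≤ T) (c : ι) :
    ∃ Z : Finset (s.Cu c → M2), (#Z : ℝ) ≤ Real.exp (n * (5 * T)) ∧
      ∀ ζ : s.Cu c → M2, (∀ k : s.Cu c, RPm s.N (v.dg k) (ζ k)) → ζ ∈ Z := by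
  choose Z hZ hZ' using fun d => xdc_rp h.N_pos d
  refine ⟨Fintype.piFinset fun k : s.Cu c => Z (v.dg k), ?_,
    fun ζ hζ => Fintype.mem_piFinset.2 fun k => hZ' _ _ (hζ k)⟩
  have h1 : ∀ k : s.Cu c, (#(Z (v.dg k)) : ℝ) ≤ Real.exp (5 * T) := fun k => by
    have b1 := xdc_pow_exp (Nat.cast_nonneg _) (hN.trans (xdc_le_exp T)) 3
    have b2 := xdc_pow_exp (Nat.cast_nonneg _) (h.deg k k.2.1).2.1 2
    have b3 := xdc_mul_exp (by positivity) b1 b2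
    have b4 : (#(Z (v.dg k)) : ℝ) ≤ (s.N : ℝ) ^ 3 * (v.dg k : ℝ) ^ 2 := by
      exact_mod_cast hZ _
    refine b4.trans (b3.trans (le_of_eq ?_))
    have e : ((3 : ℕ) : ℝ) * T + ((2 : ℕ) : ℝ) * T = 5 * T := by
      push_cast
      ring
    rw [e]
  have h2 := Finset.prod_le_prod (s := univ) (fun k _ => Nat.cast_nonneg _) fun k _ => h1 k
  rw [prod_const, ← Nat.cast_prod, ← Fintype.card_piFinset] at h2
  refine h2.trans ?_
  rw [Real.exp_nat_mul]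
  refine pow_le_pow_right₀ (Real.one_le_exp (by linarith [h.hG, h.GT])) ?_
  simpa using Fintype.card_subtype_le fun k : Fin n => k ∈ s.J ∧ s.bs k = c

theorem ydd_ad (h : s.Ok6 v L G T W a m₀ y) {q q₀ : ℕ} (h₀ : q₀.Coprime (s.dd v)) (hq : q ∈ v.P)
    {c : ι} {ζ : s.Cu c → M2} (hζ : ∀ k : s.Cu c, RPm s.N (v.dg k) (ζ k)) (k : s.Cu c) :
    Ad (q₀ * q) (ζ k) ∧ s.N * (ζ k).det.natAbs ∣ s.N * s.dd v := by
  obtain ⟨γ, η, hη, e⟩ := hζ k
  obtain ⟨d0, d1⟩ := mem_Hn hη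
  have hd : (ζ k).det = v.dg k := by
    rw [e, Matrix.det_mul, Matrix.SpecialLinearGroup.det_coe, one_mul, d1]
  have hdv : v.dg k ∣ s.dd v := dvd_prod_of_mem _ k.2.1
  have hp := h.pP q hq
  have hqd : q.Coprime (s.dd v) := (Nat.Prime.coprime_iff_not_dvd hp.1).2 fun hh =>
    hp.2.2.2 ((Int.natCast_dvd_natCast.2 hh).trans ⟨2 * s.N * v.E, by ring⟩)
  refine ⟨⟨by rw [hd]; exact_mod_cast d0, ?_⟩, ?_⟩
  · rw [hd]
    exact Nat.isCoprime_iff_coprime.2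
      (Nat.Coprime.coprime_dvd_left hdv (Nat.Coprime.mul_left h₀ hqd).symm)
  · rw [hd, Int.natAbs_natCast]
    exact Nat.mul_dvd_mul_left _ hdv

theorem ydd_prod (h : s.Ok6 v L G T W a m₀ y) (he : (1600 * s.e : ℝ) ≤ G) :
    ((∏ j, v.l j ^ (2 * s.e) : ℕ) : ℝ) ^ 400 ≤ Real.exp W := by
  obtain ⟨-, -, -, -, n5⟩ := h.num
  have hG := h.hG
  have l0 : 0 ≤ Real.log y := by linarith [(ydd_y h).2.1]
  have b1 : ∀ j, ((v.l j ^ (2 * s.e) : ℕ) : ℝ) ≤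
      Real.exp ((2 * s.e : ℕ) * (2 * Real.log y)) := fun j => by
    have p0 : (0 : ℝ) < v.l j := by exact_mod_cast (h.pl j).1.1.pos
    rw [Nat.cast_pow]
    refine xdc_pow_exp p0.le ?_ _
    rw [← Real.log_le_iff_le_exp p0]
    exact n5 _ (h.pl j).1
  have b2 := Finset.prod_le_prod (s := univ) (fun j _ => Nat.cast_nonneg _) fun j _ => b1 j
  rw [prod_const, ← Nat.cast_prod, ← Real.exp_nat_mul, card_univ, Fintype.card_fin] at b2
  refine (xdc_pow_exp (Nat.cast_nonneg _) b2 400).trans (Real.exp_le_exp.2 (le_trans ?_ h.yW))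
  have b3 : (1600 * s.e : ℝ) * (v.M * Real.log y) ≤ G * (v.M * Real.log y) :=
    mul_le_mul_of_nonneg_right he (by positivity)
  push_cast
  nlinarith

end

theorem bad6_prob {ε : ℝ} (hε : 0 < ε) : ∃ c₁ : ℝ, 0 < c₁ ∧ c₁ ≤ 1 ∧ ∀ (n : ℕ) (ι : Type)
    (s : Shp n ι) (K : ℝ) (Rn : Finset ℍ), 0 < K → (∀ w ∈ Rn, w ∈ ModularGroup.fd) → ∃ G₀ : ℝ,
    ∀ (v : VD n) (L G T W : ℝ) (a m₀ y q q₀ : ℕ) (c : ι) (𝒢 : (s.Cu c → M2) → (ℍ →ᵇ ℝ)),
    G₀ ≤ G → s.Ok6 v L G T W a m₀ y → Fam s.N q₀ K 𝒢 → q₀.Coprime (s.dd v) → q ∈ v.P →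
    q.Coprime q₀ → prb (LB s.e v.l) (s.Bad6 v c 𝒢 q ε ((y : ℝ) ^ (-c₁)) Rn) ≤
      (y : ℝ) ^ (-(c₁ / 2)) := by
  obtain ⟨c₁, hc, hc1, H⟩ := cube_bad hε
  refine ⟨c₁, hc, hc1, fun n ι s K Rn hK hR => ?_⟩
  rcases Nat.eq_zero_or_pos s.e with e0 | e0
  · exact ⟨0, fun v L G T W a m₀ y q q₀ c 𝒢 _ h => absurd h.e_pos (by omega)⟩
  obtain ⟨y₀, H⟩ := H s.e (2 * K) Rn e0 (by positivity) hR
  refine ⟨y₀ + s.N + #Rn + (10 * n + 2) / c₁,
    fun v L G T W a m₀ y q q₀ c 𝒢 hG h hF h₀ hq hq₀ => ?_⟩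
  have n1 : (0 : ℝ) ≤ s.N := Nat.cast_nonneg _
  have n2 : (0 : ℝ) ≤ y₀ := Nat.cast_nonneg _
  have n3 : (0 : ℝ) ≤ #Rn := Nat.cast_nonneg _
  have n4 : (0 : ℝ) ≤ (10 * n + 2) / c₁ := by positivity
  have n5 : (0 : ℝ) ≤ n := Nat.cast_nonneg _
  have n6 : (10 * n + 2 : ℝ) ≤ G * c₁ := (div_le_iff₀ hc).1 (by linarith)
  have GT := h.GT
  obtain ⟨y0, -, yG⟩ := ydd_y h
  have hy : y₀ ≤ y := by
    have : (y₀ : ℝ) ≤ y := by linarith
    exact_mod_cast this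
  have hp := h.pP q hq
  have hqN : ¬ q ∣ s.N := fun hh =>
    hp.2.2.2 ((Int.natCast_dvd_natCast.2 hh).trans ⟨2 * v.E * s.dd v, by ring⟩)
  have hM : ((s.N * s.dd v : ℕ) : ℝ) ≤ (y : ℝ) ^ c₁ := by
    refine le_trans ?_ (ydd_pow h hc (b := 1 + n) (by linarith))
    rw [Nat.cast_mul, add_mul, one_mul]
    exact xdc_mul_exp (Nat.cast_nonneg _) (le_trans (by linarith) (xdc_le_exp T)) h.dd_le.2
  have hT := hF.tq hK.le h.N_pos hp.1 hqN hq₀
  have key : ∀ w ∈ Rn, ∀ ζ : s.Cu c → M2, (∀ k : s.Cu c, RPm s.N (v.dg k) (ζ k)) →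
      prb (LB s.e v.l) (fun Ls => (y : ℝ) ^ (-c₁) < prb (Xn q).offDiag fun ω =>
        ε < |mn univ fun S =>
          (𝒢 (up s.N q ζ ω.1) - Tq s.N q 𝒢 ζ) (act (s.rho6 v S Ls) w) *
            (𝒢 (up s.N q ζ ω.2) - Tq s.N q 𝒢 ζ) (act (s.rho6 v S Ls) w)|) ≤
        (y : ℝ) ^ (-c₁) := by
    intro w hw ζ hζ
    have hA := ydd_ad h h₀ hq hζ
    refine H y (s.N * s.dd v) q v.M v.l (s.rho6 v)
      (fun ξ => 𝒢 (up s.N q ζ ξ) - Tq s.N q 𝒢 ζ) hy hM h.Mlo h.Mhi (h.cup hq).1 (h.cup hq).2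
      (fun ξ z => ?_) (fun ξ z z' => ?_) (fun δ hδ ξ hξ z => ?_) (fun z => ?_) w hw
    · have a1 := abs_le.1 (hF.bd (up s.N q ζ ξ) z)
      have a2 := abs_le.1 (hT.bd ζ z)
      rw [BoundedContinuousFunction.sub_apply, abs_le]
      constructor <;> linarith [a1.1, a1.2, a2.1, a2.2]
    · have a1 := abs_le.1 (hF.lip (up s.N q ζ ξ) z z')
      have a2 := abs_le.1 (hT.lip ζ z z')
      rw [BoundedContinuousFunction.sub_apply, BoundedContinuousFunction.sub_apply, abs_le]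
      constructor <;> linarith [a1.1, a1.2, a2.1, a2.2]
    · rw [BoundedContinuousFunction.sub_apply, BoundedContinuousFunction.sub_apply,
        hF.up_smul h.N_pos hp.1 hqN hq₀ hA ((mem_Xn hp.1.pos).1 hξ) hδ z, hT.ginv hA δ hδ z]
    · simp only [BoundedContinuousFunction.sub_apply]
      rw [sum_sub_distrib, sum_const, nsmul_eq_mul, Tq, mnB_apply, mn]
      rcases (Xn q).eq_empty_or_nonempty with e | hne
      · rw [e]
        simp
      · have p0 : (#(Xn q) : ℝ) ≠ 0 := by exact_mod_cast hne.card_pos.ne'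
        rw [mul_div_cancel₀ _ p0, sub_self]
  obtain ⟨Z, hZ, hZ'⟩ := ydd_Z h (by linarith) c
  have main := xdc_union (LB s.e v.l) Rn _ (by positivity)
    (le_trans (by linarith) (xdc_le_exp T)) fun w hw =>
    xdc_union _ Z _ (by positivity) hZ fun ζ _ =>
    xdc_and _ _ _ (by positivity) (key w hw ζ)
  refine le_trans (pb_mono fun Ls _ hL => ?_) (main.trans ?_)
  · obtain ⟨w, hw, ζ, h1, h2⟩ := hL
    exact ⟨w, hw, ζ, hZ' ζ h1, h1, h2⟩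
  · have b1 : Real.exp T * Real.exp (n * (5 * T)) ≤ (y : ℝ) ^ (c₁ / 2) := by
      refine le_trans (le_of_eq ?_) (ydd_pow h (half_pos hc) (b := 1 + 5 * n) (by linarith))
      rw [← Real.exp_add]
      exact congrArg Real.exp (by ring)
    rw [← mul_assoc]
    refine (mul_le_mul_of_nonneg_right b1 (by positivity)).trans (le_of_eq ?_)
    rw [← Real.rpow_add y0]
    exact congrArg _ (by ring)

theorem bad6_orb (U : ℝ) (a : ℕ) {c₁ δ : ℝ} (hc : 0 < c₁) (hδ : 0 < δ) : ∃ G₀ : ℝ,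
    ∀ (v : VD n) (L G T W : ℝ) (m₀ y : ℕ), G₀ ≤ G → s.Ok6 v L G T W a m₀ y →
    ∀ (c : ι) (B : (Fin v.M → Set V2) → Prop), prb (LB s.e v.l) B ≤ (y : ℝ) ^ (-c₁) →
      prb (Orb v.τ) (fun x => s.ct x c ∈ KU U ∧ B (s.lab6 v x c)) ≤ δ := by
  obtain ⟨K, Y, A, hK, H⟩ := lin_orb6 U
  obtain ⟨T₁, hT₁⟩ := eventually_atTop.1
    (Real.tendsto_exp_neg_atTop_nhds_zero.eventually
      (ge_mem_nhds (show 0 < δ ^ 2 / (6 * K) by positivity)))
  refine ⟨max (2 * T₁ / c₁) (max Y (max (1600 * s.e) (max 2000 ((4 + 2 * A) / c₁)))),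
    fun v L G T W m₀ y hG h c B hB => ?_⟩
  obtain ⟨t1, t2⟩ := max_le_iff.1 hG
  obtain ⟨t2, t3⟩ := max_le_iff.1 t2
  obtain ⟨t3, t4⟩ := max_le_iff.1 t3
  obtain ⟨t4, t5⟩ := max_le_iff.1 t4
  have GT := h.GT
  obtain ⟨y0, yG, -⟩ := ydd_y h
  obtain ⟨-, -, n3, -, -⟩ := h.num
  obtain ⟨l1, l2⟩ := h.large _ (s.mem c)
  have GW : G ≤ W := by
    have b1 : 1 * 1 ≤ G * T := mul_le_mul (by linarith) (by linarith) (by norm_num) (by linarith)
    have b2 : G * (1 * 1) ≤ G * (G * T) := mul_le_mul_of_nonneg_left b1 (by linarith)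
    linarith
  have l0 : 0 ≤ Real.log (-(v.D (s.cr c) : ℝ)) :=
    Real.log_nonneg ((Real.one_le_exp (by linarith)).trans l1)
  have hF : Fit v.E (v.D (s.cr c)) := by
    obtain ⟨f, hf, e⟩ := h.fit _ (s.mem c)
    exact ⟨f * s.N, Nat.mul_pos hf h.N_pos, by rw [e]; push_cast; ring⟩
  have e0 : 0 < 2 * s.e := by linarith [h.e_pos]
  have s4 : ∏ l ∈ univ.image v.l, l ^ (2 * s.e) = ∏ j, v.l j ^ (2 * s.e) :=
    prod_image h.inj.injOn
  have hQ : (0 : ℝ) < (∏ j, v.l j ^ (2 * s.e) : ℕ) := by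
    exact_mod_cast prod_pos fun j _ => pow_pos (h.pl j).1.1.pos _
  have hpm : ∀ l ∈ univ.image v.l, s.Pm v y l := fun l hl => by
    obtain ⟨j, -, rfl⟩ := mem_image.1 hl
    exact (h.pl j).1
  have hcS : (#(univ.image v.l) : ℝ) ≤ G * v.M / 2000 := by
    have b1 : #(univ.image v.l) ≤ v.M := card_image_le.trans (by simp)
    have b2 : (#(univ.image v.l) : ℝ) ≤ v.M := by exact_mod_cast b1
    have b3 : (2000 : ℝ) * v.M ≤ G * v.M := mul_le_mul_of_nonneg_right t4 (Nat.cast_nonneg _)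
    linarith
  have h1 := H L n v.τ v.D h.disc (s.cr c) v.E v.b (univ.image v.l) (fun _ => 2 * s.e)
    (t2.trans (GW.trans ((xdc_le_exp _).trans l1))) (h.low _ (s.mem c)) hF
    (fun l hl => ⟨(hpm l hl).1,
      fun hd => (hpm l hl).2.2.2 (hd.trans ⟨s.N * s.dd v, by ring⟩), e0, by
        obtain ⟨j, -, rfl⟩ := mem_image.1 hl
        exact ((pow_dvd_pow_of_dvd (Int.natCast_dvd_natCast.2
          (dvd_prod_of_mem _ (mem_univ j))) _).mul_left 4).trans h.bl⟩)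
    (h.prod_le hpm hcS).2 (by
      rw [s4]
      exact_mod_cast (ydd_prod h t3).trans l1)
  rw [s4] at h1
  have h2 := transfer (Orb v.τ) (fun x => s.ct x c ∈ KU U) (fun x => s.lab6 v x c)
    ((LB s.e v.l).filter B) (le_trans (Nat.cast_le.2 (card_le_card fun z hz => by
      simp only [mem_filter] at hz
      obtain ⟨z1, z2, z3, z4⟩ := hz
      refine mem_filter.2 ⟨z1, z2, z3, fun l hl => ?_⟩
      obtain ⟨j, -, rfl⟩ := mem_image.1 hl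
      exact congrFun z4 j)) h1) (by positivity)
  have h3 : (#((LB s.e v.l).filter B) : ℝ) ≤
      (y : ℝ) ^ (-c₁) * (3 * (∏ j, v.l j ^ (2 * s.e) : ℕ)) :=
    (ydd_card _ _ hB).trans (mul_le_mul_of_nonneg_left h.card_LB (by positivity))
  have h4 := xdc_pow_exp l0 l2 A
  have h5 := (le_div_iff₀ (by positivity)).1 (hT₁ (c₁ / 2 * Real.log y) (by
    have b1 : 2 * T₁ ≤ G * c₁ := (div_le_iff₀ hc).1 t1
    have b2 : c₁ * G ≤ c₁ * Real.log y := mul_le_mul_of_nonneg_left yG hc.le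
    show T₁ ≤ _
    linarith))
  have h6 : (L ^ 2 + 1) * Real.log (-(v.D (s.cr c) : ℝ)) ^ A ≤ 2 * (y : ℝ) ^ (c₁ / 2) := by
    have b1 : 4 + 2 * A ≤ G * c₁ := (div_le_iff₀ hc).1 t5
    have b2 := ydd_pow h (half_pos hc) (b := 2 + A) (by linarith)
    have b3 := xdc_pow_exp (abs_nonneg L) h.hL 2
    have b4 : 1 ≤ Real.exp (2 * T) := Real.one_le_exp (by linarith)
    rw [sq_abs] at b3
    push_cast at b3
    rw [add_mul, Real.exp_add] at b2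
    refine (mul_le_mul (show _ ≤ 2 * Real.exp (2 * T) by linarith) h4 (by positivity)
      (by positivity)).trans ?_
    linarith
  have h7 : (y : ℝ) ^ (-c₁) * (y : ℝ) ^ (c₁ / 2) = Real.exp (-(c₁ / 2 * Real.log y)) := by
    rw [← Real.rpow_add y0, Real.rpow_def_of_pos y0]
    exact congrArg Real.exp (by ring)
  refine le_trans (pb_mono fun x hx h0 => ?_) (le_of_sq_le_sq (h2.trans ?_) hδ.le)
  · exact ⟨h0.1, mem_filter.2 ⟨h.lab_mem hx c, h0.2⟩⟩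
  · refine (mul_le_mul_of_nonneg_right h3 (by positivity)).trans (le_trans ?_ h5)
    have e : (y : ℝ) ^ (-c₁) * (3 * (∏ j, v.l j ^ (2 * s.e) : ℕ)) *
        (K * (L ^ 2 + 1) * Real.log (-(v.D (s.cr c) : ℝ)) ^ A / (∏ j, v.l j ^ (2 * s.e) : ℕ)) =
        (3 * K * (y : ℝ) ^ (-c₁)) * ((L ^ 2 + 1) * Real.log (-(v.D (s.cr c) : ℝ)) ^ A) := by
      field_simp
    rw [e, ← h7]
    refine (mul_le_mul_of_nonneg_left h6 (by positivity)).trans (le_of_eq ?_)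
    ring

end Shp

end Pool.Agent.EQ
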