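import Pool.Agent.P.MP_ad7a55_nt.XLb
import Pool.Agent.P.MP_ad7a55_nt.XEa
import Pool.Agent.P.MP_ad7a55_nt.VCj

/-! Lines under congruence subgroups. -/

set_option autoImplicit false

noncomputable section

open Finset Matrix
open scoped MatrixGroups Classical

namespace Pool.Agent.EQ

instance ylaNormal (N : ℕ) : (CongruenceSubgroup.Gamma N).Normal :=
  CongruenceSubgroup.Gamma_normal N

/-- The image of a line. -/
def img (η : M2) (L : Set V2) : Set V2 := {v | η.adjugate *ᵥ v ∈ L}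

/-- The preimage of a line. -/
def pl (η : M2) (L : Set V2) : Set V2 := {v | η *ᵥ v ∈ L}

/-- Tuples of lines. -/
def YQ (ι : Type) [Fintype ι] (q : ℕ) : Finset (ι → Set V2) := Fintype.piFinset fun _ : ι => Xn q

/-- All entries are divisible by `m`. -/
def Dv (m : ℕ) (η : M2) : Prop := ∀ i j, (m : ℤ) ∣ η i j

/-- The classes of `Γ(R)` modulo `Γ(M)`. -/
def cs (R M : ℕ) : Finset (vcjQ M) :=
  if h : 0 < M then
    (@Set.toFinite _ {c : vcjQ M | c.out ∈ CongruenceSubgroup.Gamma R}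
      (@Subtype.finite _ (vcj_fin h) _)).toFinset
  else ∅

variable {n M N R : ℕ} {η η' ζ : M2} {L L' : Set V2}

theorem yla_gam {γ : SL(2, ℤ)} : γ ∈ CongruenceSubgroup.Gamma N ↔ Dv N ((γ : M2) - 1) := by
  have h3 : ∀ i j, (N : ℤ) ∣ ((γ : M2) - 1) i j ↔
      ((γ i j : ℤ) : ZMod N) = (((1 : M2) i j : ℤ) : ZMod N) := fun i j => by
    rw [← sub_eq_zero, ← Int.cast_sub, ZMod.intCast_zmod_eq_zero_iff_dvd]
    rfl
  rw [CongruenceSubgroup.Gamma_mem]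
  unfold Dv
  simp only [h3, Fin.forall_fin_two]
  simp [and_assoc]

theorem yla_mono (h : R ∣ M) (hd : Dv M η) : Dv R η :=
  fun i j => (Int.natCast_dvd_natCast.2 h).trans (hd i j)

theorem yla_le (h : R ∣ M) {γ : SL(2, ℤ)} (hγ : γ ∈ CongruenceSubgroup.Gamma M) :
    γ ∈ CongruenceSubgroup.Gamma R := yla_gam.2 (yla_mono h (yla_gam.1 hγ))

theorem yla_mul_left (ζ : M2) (hd : Dv M η) : Dv M (ζ * η) := by
  obtain ⟨Y, rfl⟩ := xla_ex.1 hd
  exact xla_ex.2 ⟨ζ * Y, by rw [mul_smul_comm]⟩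

theorem yla_mul_right (ζ : M2) (hd : Dv M η) : Dv M (η * ζ) := by
  obtain ⟨Y, rfl⟩ := xla_ex.1 hd
  exact xla_ex.2 ⟨Y * ζ, by rw [smul_mul_assoc]⟩

theorem yla_trans (h : Dv M (η - η')) (h' : Dv M (η' - ζ)) : Dv M (η - ζ) := fun i j => by
  have := dvd_add (h i j) (h' i j)
  simpa using this

theorem yla_out (M : ℕ) (x : SL(2, ℤ)) :
    ∃ δ ∈ CongruenceSubgroup.Gamma M, (x : vcjQ M).out = x * δ := by
  obtain ⟨δ, e⟩ := QuotientGroup.mk_out_eq_mul (CongruenceSubgroup.Gamma M) x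
  exact ⟨δ, δ.2, e⟩

theorem yla_mk_eq {g x : SL(2, ℤ)} (h : Dv N ((x : M2) - g)) : (g : vcjQ N) = x := by
  rw [QuotientGroup.eq, yla_gam]
  have h1 : ((g⁻¹ : SL(2, ℤ)) : M2) * (g : M2) = 1 := by
    rw [← Matrix.SpecialLinearGroup.coe_mul, inv_mul_cancel, Matrix.SpecialLinearGroup.coe_one]
  have e : ((g⁻¹ * x : SL(2, ℤ)) : M2) - 1 = ((g⁻¹ : SL(2, ℤ)) : M2) * ((x : M2) - g) := by
    rw [mul_sub, h1, Matrix.SpecialLinearGroup.coe_mul]
  rw [e]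
  exact yla_mul_left _ h

theorem yla_mem (hM : 0 < M) {c : vcjQ M} : c ∈ cs R M ↔ c.out ∈ CongruenceSubgroup.Gamma R := by
  rw [cs, dif_pos hM, Set.Finite.mem_toFinset]
  rfl

theorem mem_cs (hM : 0 < M) (h : R ∣ M) (g : SL(2, ℤ)) :
    (g : vcjQ M) ∈ cs R M ↔ g ∈ CongruenceSubgroup.Gamma R := by
  obtain ⟨δ, hδ, e⟩ := yla_out M g
  rw [yla_mem hM, e]
  exact Subgroup.mul_mem_cancel_right _ (yla_le h hδ)

theorem out_mem_cs {c : vcjQ M} (h : c ∈ cs R M) : c.out ∈ CongruenceSubgroup.Gamma R := by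
  by_cases hM : 0 < M
  · exact (yla_mem hM).1 h
  · rw [cs, dif_neg hM] at h
    simp at h

theorem cs_ne (hM : 0 < M) (h : R ∣ M) : (cs R M).Nonempty := by
  exact ⟨((1 : SL(2, ℤ)) : vcjQ M), (mem_cs hM h 1).2 (one_mem _)⟩

theorem img_mul (ζ η : M2) (L : Set V2) : img (ζ * η) L = img ζ (img η L) := by
  ext v
  simp only [img, Set.mem_ofPred_eq, Matrix.adjugate_mul_distrib, Matrix.mulVec_mulVec]

theorem pl_mul (ζ η : M2) (L : Set V2) : pl (ζ * η) L = pl η (pl ζ L) := by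
  ext v
  simp only [pl, Set.mem_ofPred_eq, Matrix.mulVec_mulVec]

theorem Ker_mul_pl (n : ℕ) (η ζ : M2) : Ker n (η * ζ) = pl ζ (Ker n η) := by
  ext v
  exact mem_Ker_mul

theorem IsLn.img (h : IsLn n L) (hn : 0 < n) (hc : IsCoprime η.det n) : IsLn n (img η L) := by
  exact h.pull hn (η := η.adjugate) (by rw [xla_det_adj]; exact hc)

theorem IsLn.pl (h : IsLn n L) (hn : 0 < n) (hc : IsCoprime η.det n) : IsLn n (pl η L) := by
  exact h.pull hn hc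

theorem yla_smul (h : IsLn n L) {s : ℤ} (hs : IsCoprime s n) (v : V2) : s • v ∈ L ↔ v ∈ L := by
  obtain ⟨w, -, rfl⟩ := h
  rw [xlb_mem, xlb_mem]
  have e : w 0 * (s • v) 1 - w 1 * (s • v) 0 = s * (w 0 * v 1 - w 1 * v 0) := by
    simp only [Pi.smul_apply, smul_eq_mul]
    ring
  rw [e]
  exact ⟨hs.symm.dvd_of_dvd_mul_left, fun h => h.mul_left _⟩

theorem pl_img (h : IsLn n L) (hc : IsCoprime η.det n) :
    pl η (img η L) = L ∧ img η (pl η L) = L := by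
  constructor
  · ext v
    show η.adjugate *ᵥ (η *ᵥ v) ∈ L ↔ v ∈ L
    rw [Matrix.mulVec_mulVec, Matrix.adjugate_mul, Matrix.smul_mulVec, Matrix.one_mulVec]
    exact yla_smul h hc v
  · ext v
    show η *ᵥ (η.adjugate *ᵥ v) ∈ L ↔ v ∈ L
    rw [Matrix.mulVec_mulVec, Matrix.mul_adjugate, Matrix.smul_mulVec, Matrix.one_mulVec]
    exact yla_smul h hc v

theorem pl_congr (h : IsLn n L) (hd : Dv n (η - η')) : pl η L = pl η' L := by
  obtain ⟨w, -, rfl⟩ := h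
  ext v
  show η *ᵥ v ∈ Ln n w ↔ η' *ᵥ v ∈ Ln n w
  rw [xlb_mem, xlb_mem, xlb_mv, xlb_mv, xlb_mv, xlb_mv]
  refine dvd_iff_dvd_of_dvd_sub ?_
  have e : w 0 * (η 1 0 * v 0 + η 1 1 * v 1) - w 1 * (η 0 0 * v 0 + η 0 1 * v 1) -
      (w 0 * (η' 1 0 * v 0 + η' 1 1 * v 1) - w 1 * (η' 0 0 * v 0 + η' 0 1 * v 1)) =
      w 0 * ((η - η') 1 0 * v 0 + (η - η') 1 1 * v 1) -
        w 1 * ((η - η') 0 0 * v 0 + (η - η') 0 1 * v 1) := by
    simp only [Matrix.sub_apply]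
    ring
  rw [e]
  exact dvd_sub ((dvd_add ((hd 1 0).mul_right _) ((hd 1 1).mul_right _)).mul_left _)
    ((dvd_add ((hd 0 0).mul_right _) ((hd 0 1).mul_right _)).mul_left _)

theorem pl_Cg {s : ℤ} (h : IsLn n L) (hc : Cg n η s) (hs : IsCoprime s n) : pl η L = L := by
  rw [pl_congr h (η' := s • (1 : M2)) hc]
  ext v
  show (s • (1 : M2)) *ᵥ v ∈ L ↔ v ∈ L
  rw [Matrix.smul_mulVec, Matrix.one_mulVec]
  exact yla_smul h hs v

theorem mn_Xn_img (hn : 0 < n) (hc : IsCoprime η.det n) (G : Set V2 → ℝ) :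
    mn (Xn n) (fun L => G (img η L)) = mn (Xn n) G := by
  unfold mn
  congr 1
  exact sum_Xn_pull hn (η := η.adjugate) (by rw [xla_det_adj]; exact hc) G

theorem isLn_Ker_prim (hn : 0 < n) (hd : η.det = n)
    (h : ∀ l : ℕ, l.Prime → l ∣ n → ¬ Dv l η) : IsLn n (Ker n η) := by
  refine xlb_isLn_Ker hn (by rw [hd]) fun l hl hln => ?_
  by_contra hh
  push Not at hh
  exact h l hl hln hh

theorem isLn_Ker_adj (hn : 0 < n) (hd : η.det = n) (h : IsLn n (Ker n η)) :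
    IsLn n (Ker n η.adjugate) := by
  refine xlb_isLn_Ker hn (by rw [xla_det_adj, hd]) fun l hl hln => ?_
  obtain ⟨i, j, hij⟩ := h.prim hn hl hln
  rw [Matrix.adjugate_fin_two]
  fin_cases i <;> fin_cases j
  · exact ⟨1, 1, by simpa using hij⟩
  · exact ⟨0, 1, by simpa using hij⟩
  · exact ⟨1, 0, by simpa using hij⟩
  · exact ⟨0, 0, by simpa using hij⟩

theorem gamma_of_Ker (hn : 0 < n) (h : η.det = n) (h' : η'.det = n) (hc : n.Coprime N)
    (hk : Ker n η ⊆ Ker n η') (hd : Dv N (η' - η)) :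
    ∃ γ ∈ CongruenceSubgroup.Gamma N, η' = (γ : M2) * η := by
  obtain ⟨γ, hγ⟩ := exists_SL_of_Ker hn h h' hk
  refine ⟨γ, yla_gam.2 fun i j => ?_, hγ⟩
  have h1 := yla_mul_right η.adjugate hd
  have e : (η' - η) * η.adjugate = (n : ℤ) • ((γ : M2) - 1) := by
    rw [hγ, sub_mul, mul_assoc, Matrix.mul_adjugate, h, mul_smul_comm, mul_one, smul_sub]
  rw [e] at h1
  exact (Nat.isCoprime_iff_coprime.2 hc).symm.dvd_of_dvd_mul_left (h1 i j)

theorem yla_det (h : Dv M (η - η')) : (M : ℤ) ∣ η.det - η'.det := by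
  have e : η.det - η'.det = (η - η') 0 0 * η 1 1 + η' 0 0 * (η - η') 1 1 -
      (η - η') 0 1 * η 1 0 - η' 0 1 * (η - η') 1 0 := by
    simp only [Matrix.det_fin_two, Matrix.sub_apply]
    ring
  rw [e]
  exact dvd_sub (dvd_sub (dvd_add ((h 0 0).mul_right _) ((h 1 1).mul_left _))
    ((h 0 1).mul_right _)) ((h 1 0).mul_left _)

theorem yla_crt2 {a b : ℕ} (ha : 0 < a) (hb : 0 < b) (hab : a.Coprime b) (g h : SL(2, ℤ)) :
    ∃ γ : SL(2, ℤ), Dv a ((γ : M2) - g) ∧ Dv b ((γ : M2) - h) := by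
  have hc : IsCoprime (a : ℤ) b := Nat.isCoprime_iff_coprime.2 hab
  obtain ⟨s, t, e⟩ := id hc
  let W : M2 := (t * b) • (g : M2) + (s * a) • (h : M2)
  have h1 : Dv a (W - g) := fun i j => ⟨s * ((h : M2) i j - (g : M2) i j), by
    simp only [W, Matrix.sub_apply, Matrix.add_apply, Matrix.smul_apply, smul_eq_mul]
    linear_combination ((g : M2) i j) * e⟩
  have h2 : Dv b (W - h) := fun i j => ⟨t * ((g : M2) i j - (h : M2) i j), by
    simp only [W, Matrix.sub_apply, Matrix.add_apply, Matrix.smul_apply, smul_eq_mul]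
    linear_combination ((h : M2) i j) * e⟩
  have h3 := yla_det h1
  have h4 := yla_det h2
  rw [g.det_coe] at h3
  rw [h.det_coe] at h4
  obtain ⟨γ, hγ⟩ := exists_lift_SL (Nat.mul_pos ha hb) (W := W) (by
    rw [Nat.cast_mul]
    exact hc.mul_dvd h3 h4)
  have h5 : Dv (a * b) ((γ : M2) - W) := hγ
  exact ⟨γ, yla_trans (yla_mono (dvd_mul_right a b) h5) h1,
    yla_trans (yla_mono (dvd_mul_left b a) h5) h2⟩

theorem crt_SL {κ : Type} (J : Finset κ) (m : κ → ℕ) {M₀ : ℕ} (hM : 0 < M₀)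
    (h0 : ∀ j ∈ J, 0 < m j ∧ (m j).Coprime M₀)
    (h : ∀ j ∈ J, ∀ j' ∈ J, j ≠ j' → (m j).Coprime (m j')) (g : κ → SL(2, ℤ)) :
    ∃ γ ∈ CongruenceSubgroup.Gamma M₀, ∀ j ∈ J, Dv (m j) ((γ : M2) - g j) := by
  induction J using Finset.induction_on with
  | empty => exact ⟨1, one_mem _, fun j hj => absurd hj (notMem_empty j)⟩
  | insert j₀ J hj₀ ih =>
    obtain ⟨γ', hγ1, hγ2⟩ := ih (fun j hj => h0 j (mem_insert_of_mem hj))
      fun j hj j' hj' => h j (mem_insert_of_mem hj) j' (mem_insert_of_mem hj')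
    have hP : 0 < M₀ * ∏ j ∈ J, m j :=
      Nat.mul_pos hM (prod_pos fun j hj => (h0 j (mem_insert_of_mem hj)).1)
    have hc : (M₀ * ∏ j ∈ J, m j).Coprime (m j₀) :=
      Nat.Coprime.mul_left (h0 j₀ (mem_insert_self _ _)).2.symm
        (Nat.Coprime.prod_left fun j hj => h j (mem_insert_of_mem hj) j₀ (mem_insert_self _ _)
          fun e => hj₀ (e ▸ hj))
    obtain ⟨γ, h1, h2⟩ := yla_crt2 hP (h0 j₀ (mem_insert_self _ _)).1 hc γ' (g j₀)
    refine ⟨γ, yla_gam.2 (yla_trans (yla_mono (dvd_mul_right _ _) h1) (yla_gam.1 hγ1)),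
      fun j hj => ?_⟩
    rcases mem_insert.1 hj with rfl | hj
    · exact h2
    · exact yla_trans (yla_mono ((dvd_prod_of_mem m hj).mul_left _) h1) (hγ2 j hj)

theorem yla_back {g g' : SL(2, ℤ)} (h : pl g L = pl g' L') : pl (g * g'⁻¹ : SL(2, ℤ)) L = L' := by
  rw [Matrix.SpecialLinearGroup.coe_mul, pl_mul, h, ← pl_mul, ← Matrix.SpecialLinearGroup.coe_mul,
    mul_inv_cancel, Matrix.SpecialLinearGroup.coe_one]
  ext v
  simp [pl]

theorem yla_std (h : IsLn n L) : ∃ γ : SL(2, ℤ), pl γ L = {u : V2 | (n : ℤ) ∣ u 1} := by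
  obtain ⟨v, ⟨a, b, e⟩, rfl⟩ := h
  refine ⟨⟨!![v 0, -b; v 1, a], by rw [Matrix.det_fin_two_of]; linear_combination e⟩, ?_⟩
  ext u
  show (!![v 0, -b; v 1, a] : M2) *ᵥ u ∈ Ln n v ↔ (n : ℤ) ∣ u 1
  rw [xlb_mem, xlb_mv, xlb_mv]
  simp only [Matrix.of_apply, Matrix.cons_val', Matrix.cons_val_zero, Matrix.cons_val_one,
    Matrix.cons_val_fin_one]
  refine iff_of_eq (congrArg _ ?_)
  linear_combination (u 1) * e

theorem line_trans (h : IsLn n L) (h' : IsLn n L') : ∃ γ : SL(2, ℤ), pl γ L = L' := by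
  obtain ⟨g, hg⟩ := yla_std h
  obtain ⟨g', hg'⟩ := yla_std h'
  exact ⟨g * g'⁻¹, yla_back (hg.trans hg'.symm)⟩

theorem line_trans_Gamma (hn : 0 < n) (hM : 0 < M) (hc : n.Coprime M) (h : IsLn n L)
    (h' : IsLn n L') : ∃ γ ∈ CongruenceSubgroup.Gamma M, pl (γ : M2) L = L' := by
  obtain ⟨g, hg⟩ := line_trans h h'
  obtain ⟨γ, h1, h2⟩ := yla_crt2 hn hM hc g 1
  exact ⟨γ, yla_gam.2 h2, (pl_congr h h1).trans hg⟩

theorem yla_pair {q : ℕ} (hq : q.Prime) {ω : Set V2 × Set V2} (h : ω ∈ (Xn q).offDiag) :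
    ∃ γ : SL(2, ℤ), pl γ ω.1 = {u : V2 | (q : ℤ) ∣ u 1} ∧ pl γ ω.2 = {u : V2 | (q : ℤ) ∣ u 0} := by
  obtain ⟨h1, h2, h3⟩ := mem_offDiag.1 h
  have l1 := (mem_Xn hq.pos).1 h1
  have l2 := (mem_Xn hq.pos).1 h2
  obtain ⟨v, hv, e1⟩ := id l1
  obtain ⟨w, hw, e2⟩ := id l2
  have hp : Prime (q : ℤ) := Nat.prime_iff_prime_int.1 hq
  have hn : ¬ (q : ℤ) ∣ v 0 * w 1 - v 1 * w 0 := fun hd =>
    h3 (by rw [e1, e2]; exact (xlb_of_cop q hv).eq (xlb_of_cop q hw) (xlb_mem.2 hd))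
  have hc : IsCoprime (q : ℤ) (v 0 * w 1 - v 1 * w 0) :=
    (hp.irreducible.coprime_iff_not_dvd).2 hn
  obtain ⟨s, t, e⟩ := id hc
  obtain ⟨γ, hγ⟩ := exists_lift_SL hq.pos (W := !![v 0, t * w 0; v 1, t * w 1])
    ⟨-s, by rw [Matrix.det_fin_two_of]; linear_combination e⟩
  have h5 : Dv q ((γ : M2) - !![v 0, t * w 0; v 1, t * w 1]) := hγ
  refine ⟨γ, ?_, ?_⟩
  · rw [pl_congr l1 h5, e1]
    ext u
    show (!![v 0, t * w 0; v 1, t * w 1] : M2) *ᵥ u ∈ Ln q v ↔ (q : ℤ) ∣ u 1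
    rw [xlb_mem, xlb_mv, xlb_mv]
    simp only [Matrix.of_apply, Matrix.cons_val', Matrix.cons_val_zero, Matrix.cons_val_one,
      Matrix.cons_val_fin_one]
    refine dvd_iff_dvd_of_dvd_sub ⟨-s * u 1, ?_⟩
    linear_combination (u 1) * e
  · rw [pl_congr l2 h5, e2]
    ext u
    show (!![v 0, t * w 0; v 1, t * w 1] : M2) *ᵥ u ∈ Ln q w ↔ (q : ℤ) ∣ u 0
    rw [xlb_mem, xlb_mv, xlb_mv]
    simp only [Matrix.of_apply, Matrix.cons_val', Matrix.cons_val_zero, Matrix.cons_val_one,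
      Matrix.cons_val_fin_one]
    have e3 : w 0 * (v 1 * u 0 + t * w 1 * u 1) - w 1 * (v 0 * u 0 + t * w 0 * u 1) =
        -((v 0 * w 1 - v 1 * w 0) * u 0) := by ring
    rw [e3, dvd_neg]
    exact ⟨hc.dvd_of_dvd_mul_left, fun h => h.mul_left _⟩

theorem pair_trans {q : ℕ} (hq : q.Prime) {ω ω' : Set V2 × Set V2} (h : ω ∈ (Xn q).offDiag)
    (h' : ω' ∈ (Xn q).offDiag) : ∃ γ : SL(2, ℤ), pl γ ω.1 = ω'.1 ∧ pl γ ω.2 = ω'.2 := by
  obtain ⟨g, h1, h2⟩ := yla_pair hq h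
  obtain ⟨g', h1', h2'⟩ := yla_pair hq h'
  exact ⟨g * g'⁻¹, yla_back (h1.trans h1'.symm), yla_back (h2.trans h2'.symm)⟩

theorem yla_right {F : SL(2, ℤ) → ℝ}
    (hF : ∀ g, ∀ δ ∈ CongruenceSubgroup.Gamma M, F (δ * g) = F g) (x : SL(2, ℤ)) :
    F (x : vcjQ M).out = F x := by
  obtain ⟨δ, hδ, e⟩ := yla_out M x
  have e2 : x * δ = (x * δ * x⁻¹) * x := by group
  rw [e, e2]
  exact hF _ _ ((ylaNormal M).conj_mem δ hδ x)

theorem yla_mulr (c : vcjQ M) (g : SL(2, ℤ)) :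
    c * (g : vcjQ M) = ((c.out * g : SL(2, ℤ)) : vcjQ M) := by
  rw [QuotientGroup.mk_mul, QuotientGroup.out_eq']

theorem yla_mull (c : vcjQ M) (g : SL(2, ℤ)) :
    (g : vcjQ M) * c = ((g * c.out : SL(2, ℤ)) : vcjQ M) := by
  rw [QuotientGroup.mk_mul, QuotientGroup.out_eq']

theorem yla_inv (c : vcjQ M) : c⁻¹ = ((c.out⁻¹ : SL(2, ℤ)) : vcjQ M) := by
  rw [QuotientGroup.mk_inv, QuotientGroup.out_eq']

theorem yla_mn_congr {α : Type} {O : Finset α} {G G' : α → ℝ} (h : ∀ x ∈ O, G x = G' x) :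
    mn O G = mn O G' := by
  unfold mn
  rw [sum_congr rfl h]

theorem avg_trans {β : Type} (hM : 0 < M) (h : R ∣ M) (B : Finset β) (a : SL(2, ℤ) → β → β)
    (h1 : ∀ g ∈ CongruenceSubgroup.Gamma R, ∀ b ∈ B, a g b ∈ B)
    (h2 : ∀ g ∈ CongruenceSubgroup.Gamma R, ∀ g' ∈ CongruenceSubgroup.Gamma R, ∀ b ∈ B,
      a (g * g') b = a g' (a g b))
    (h3 : ∀ g ∈ CongruenceSubgroup.Gamma M, ∀ b ∈ B, a g b = b)
    (h4 : ∀ b ∈ B, ∀ b' ∈ B, ∃ g ∈ CongruenceSubgroup.Gamma R, a g b = b') (F : β → ℝ) {b : β}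
    (hb : b ∈ B) : mn (cs R M) (fun c => F (a c.out b)) = mn B F := by
  have hT : ∀ b' ∈ B, mn (cs R M) (fun c => F (a c.out b')) =
      mn (cs R M) (fun c => F (a c.out b)) := by
    intro b' hb'
    obtain ⟨g, hg, rfl⟩ := h4 b hb b' hb'
    rw [← mn_perm (O := cs R M) (π := fun c => (g : vcjQ M) * c) (fun c hc => by
      rw [yla_mull]
      exact (mem_cs hM h _).2 (mul_mem hg (out_mem_cs hc)))
      (fun c _ c' _ e => mul_left_cancel e) (fun c => F (a c.out b))]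
    refine yla_mn_congr fun c hc => ?_
    obtain ⟨δ, hδ, e⟩ := yla_out M (g * c.out)
    have hgc := mul_mem hg (out_mem_cs hc)
    rw [yla_mull, e, h2 _ hgc _ (yla_le h hδ) b hb, h3 δ hδ _ (h1 _ hgc b hb),
      h2 g hg _ (out_mem_cs hc) b hb]
  have hB : B.Nonempty := ⟨b, hb⟩
  rw [← mn_const hB (mn (cs R M) (fun c => F (a c.out b))), ← yla_mn_congr hT,
    mn_swap B (cs R M) (fun b' c => F (a c.out b')), ← mn_const (cs_ne hM h) (mn B F)]
  refine yla_mn_congr fun c hc => ?_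
  have hc' := out_mem_cs hc
  refine mn_perm (π := a c.out) (fun x hx => h1 _ hc' x hx) (fun x hx y hy e => ?_) F
  have k : ∀ z ∈ B, a c.out⁻¹ (a c.out z) = z := fun z hz => by
    rw [← h2 _ hc' _ (inv_mem hc') z hz, mul_inv_cancel, h3 1 (one_mem _) z hz]
  rw [← k x hx, e, k y hy]

theorem cs_level {M' R' u : ℕ} (hM : 0 < M) (h1 : M' ∣ M) (h2 : R' * u ∣ M) (h3 : R' ∣ M')
    (hu : u.Coprime M') {F : SL(2, ℤ) → ℝ}
    (hF : ∀ g, ∀ δ ∈ CongruenceSubgroup.Gamma M', F (δ * g) = F g) :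
    mn (cs (R' * u) M) (fun c => F c.out) = mn (cs R' M') fun c => F c.out := by
  have hM' : 0 < M' := Nat.pos_of_dvd_of_pos h1 hM
  have hu0 : 0 < u := Nat.pos_of_mul_pos_left (Nat.pos_of_dvd_of_pos h2 hM)
  have key := avg_trans hM h2 (cs R' M') (fun g c => c * (g : vcjQ M'))
    (fun g hg c hc => by
      rw [yla_mulr]
      exact (mem_cs hM' h3 _).2 (mul_mem (out_mem_cs hc) (yla_le (dvd_mul_right _ _) hg)))
    (fun g _ g' _ c _ => by rw [QuotientGroup.mk_mul, mul_assoc])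
    (fun g hg c _ => by rw [(QuotientGroup.eq_one_iff g).2 (yla_le h1 hg), mul_one])
    (fun c hc c' hc' => by
      obtain ⟨γ, k1, k2⟩ := yla_crt2 hM' hu0 hu.symm (c.out⁻¹ * c'.out) 1
      have hx := yla_gam.1 (mul_mem (inv_mem (out_mem_cs hc)) (out_mem_cs hc'))
      have k3 := yla_trans (yla_mono h3 k1) hx
      refine ⟨γ, yla_gam.2 fun i j => ?_, ?_⟩
      · rw [Nat.cast_mul]
        exact (Nat.isCoprime_iff_coprime.2 (Nat.Coprime.coprime_dvd_right h3 hu).symm).mul_dvd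
          (k3 i j) (k2 i j)
      · rw [← yla_mk_eq k1, QuotientGroup.mk_mul, QuotientGroup.mk_inv, QuotientGroup.out_eq',
          QuotientGroup.out_eq', mul_inv_cancel_left])
    (fun c => F c.out) ((mem_cs hM' h3 1).2 (one_mem _))
  rw [← key]
  refine yla_mn_congr fun c _ => ?_
  rw [QuotientGroup.mk_one, one_mul, yla_right hF]

theorem cs_shift (hM : 0 < M) (h : R ∣ M) {F : SL(2, ℤ) → ℝ}
    (hF : ∀ g, ∀ δ ∈ CongruenceSubgroup.Gamma M, F (δ * g) = F g) {γ : SL(2, ℤ)}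
    (hγ : γ ∈ CongruenceSubgroup.Gamma R) :
    mn (cs R M) (fun c => F (c.out * γ)) = mn (cs R M) (fun c => F c.out) ∧
      mn (cs R M) (fun c => F (γ * c.out)) = mn (cs R M) (fun c => F c.out) ∧
      mn (cs R M) (fun c => F c.out⁻¹) = mn (cs R M) (fun c => F c.out) := by
  refine ⟨?_, ?_, ?_⟩
  · rw [← mn_perm (O := cs R M) (π := fun c => c * (γ : vcjQ M)) (fun c hc => by
      rw [yla_mulr]
      exact (mem_cs hM h _).2 (mul_mem (out_mem_cs hc) hγ))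
      (fun c _ c' _ e => mul_right_cancel e) (fun c => F c.out)]
    refine yla_mn_congr fun c _ => ?_
    rw [yla_mulr, yla_right hF]
  · rw [← mn_perm (O := cs R M) (π := fun c => (γ : vcjQ M) * c) (fun c hc => by
      rw [yla_mull]
      exact (mem_cs hM h _).2 (mul_mem hγ (out_mem_cs hc)))
      (fun c _ c' _ e => mul_left_cancel e) (fun c => F c.out)]
    refine yla_mn_congr fun c _ => ?_
    rw [yla_mull, yla_right hF]
  · rw [← mn_perm (O := cs R M) (π := fun c => c⁻¹) (fun c hc => by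
      rw [yla_inv]
      exact (mem_cs hM h _).2 (inv_mem (out_mem_cs hc)))
      (fun c _ c' _ e => inv_injective e) (fun c => F c.out)]
    refine yla_mn_congr fun c _ => ?_
    rw [yla_inv, yla_right hF]

end Pool.Agent.EQ
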