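import Pool.Agent.P.MP_ad7a55_nt.XGd
import Pool.Agent.P.MP_ad7a55_nt.YLa

/-! Matrices that are scalar modulo a number. -/

set_option autoImplicit false

noncomputable section

open Finset Matrix
open scoped MatrixGroups Classical

namespace Pool.Agent.EQ

theorem ygc_root {q n k : ℕ} (hq : q.Prime) (h2 : q ≠ 2) (hn : ¬ q ∣ n) (hk : k ≠ 0) :
    cnt (q ^ k) (fun x => (q : ℤ) ^ k ∣ x ^ 2 - 4 * n) ≤ 2 := by
  have hp : Prime (q : ℤ) := Nat.prime_iff_prime_int.1 hq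
  have h3 : ¬ (q : ℤ) ∣ 2 := fun h =>
    h2 ((Nat.prime_dvd_prime_iff_eq hq Nat.prime_two).1 (by exact_mod_cast h))
  by_cases hex : ∃ r₀ < q ^ k, (q : ℤ) ^ k ∣ (r₀ : ℤ) ^ 2 - 4 * n
  swap
  · exact (xgd_cnt ∅ fun r a b => absurd ⟨r, a, b⟩ hex).trans (by simp)
  obtain ⟨r₀, a0, b0⟩ := hex
  have h4 : ¬ (q : ℤ) ∣ r₀ := fun h => by
    have h5 : (q : ℤ) ∣ 2 * (2 * n) := by
      have := (h.mul_left r₀).sub ((dvd_pow_self _ hk).trans b0)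
      exact this.trans (dvd_of_eq (by ring))
    have h6 := (hp.dvd_or_dvd ((hp.dvd_or_dvd h5).resolve_left h3)).resolve_left h3
    exact hn (by exact_mod_cast h6)
  refine le_trans (xgd_cnt {r₀, q ^ k - r₀} fun r a1 b1 => ?_) card_le_two
  have h5 : (q : ℤ) ^ k ∣ ((r : ℤ) - r₀) * (r + r₀) := (b1.sub b0).trans (dvd_of_eq (by ring))
  have h0 : ((q ^ k : ℕ) : ℤ) = (q : ℤ) ^ k := Nat.cast_pow _ _
  rw [mem_insert, mem_singleton]
  by_cases h6 : (q : ℤ) ∣ (r : ℤ) - r₀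
  · have h7 : ¬ (q : ℤ) ∣ (r : ℤ) + r₀ := fun h =>
      h4 ((hp.dvd_or_dvd ((h.sub h6).trans (dvd_of_eq (by ring : _ = 2 * (r₀ : ℤ))))).resolve_left h3)
    have h8 := hp.pow_dvd_of_dvd_mul_right k h7 h5
    rw [← h0] at h8
    have h9 := Int.eq_zero_of_abs_lt_dvd h8 (abs_lt.2 ⟨by omega, by omega⟩)
    omega
  · have h7 := (hp.pow_dvd_of_dvd_mul_left k h6 h5).sub (dvd_refl _)
    have h9 : r₀ ≠ 0 := fun h => h4 (by rw [h]; simp)
    rw [← h0] at h7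
    have h8 := Int.eq_zero_of_abs_lt_dvd h7 (abs_lt.2 ⟨by omega, by omega⟩)
    omega

theorem ygc_int {q : ℕ} (hq : 0 < q) {A : ℤ → Prop} (hA : ∀ x y, (q : ℤ) ∣ x - y → A x → A y)
    {H : ℝ} (hH : 0 ≤ H) (S : Finset ℤ) (hS : ∀ x ∈ S, |(x : ℝ)| ≤ 2 * H ∧ A x) :
    (#S : ℝ) ≤ cnt q A * (4 * (H / q + 1)) := by
  have hq' : (1 : ℝ) ≤ q := by exact_mod_cast hq
  have h1 := card_le_cnt hq hA (-(⌊2 * H⌋₊ : ℤ)) (2 * ⌊2 * H⌋₊ + 1) S fun x hx => by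
    have h2 : x.natAbs ≤ ⌊2 * H⌋₊ := Nat.le_floor (by
      rw [Nat.cast_natAbs, Int.cast_abs]
      exact (hS x hx).1)
    refine ⟨by omega, ?_, (hS x hx).2⟩
    push_cast
    omega
  refine h1.trans (mul_le_mul_of_nonneg_left ?_ (Nat.cast_nonneg _))
  have h2 := Nat.floor_le (by linarith : 0 ≤ 2 * H)
  have h3 : ((2 * ⌊2 * H⌋₊ + 1 : ℕ) : ℝ) / q ≤ (4 * H + q) / q := by
    refine div_le_div_of_nonneg_right ?_ (by linarith)
    push_cast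
    linarith
  rw [add_div, div_self (by linarith), mul_div_assoc] at h3
  linarith

theorem ygc_mult {q : ℕ} (hq : 0 < q) {H : ℝ} (hH : 0 ≤ H) (S : Finset ℤ)
    (hS : ∀ x ∈ S, |(x : ℝ)| ≤ 2 * H ∧ (q : ℤ) ∣ x) : (#S : ℝ) ≤ 4 * (H / q + 1) := by
  have h1 := ygc_int hq (A := fun x => (q : ℤ) ∣ x)
    (fun x y h h' => (h'.sub h).trans (dvd_of_eq (by ring))) hH S hS
  have h2 : cnt q (fun x => (q : ℤ) ∣ x) ≤ 1 := by
    exact le_trans (xgd_cnt {0} fun r h3 h4 => mem_singleton.2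
      (Nat.eq_zero_of_dvd_of_lt (by exact_mod_cast h4) h3)) (card_singleton _).le
  have h3 : (cnt q (fun x => (q : ℤ) ∣ x) : ℝ) ≤ 1 := by exact_mod_cast h2
  exact h1.trans (mul_le_of_le_one_left (by positivity) h3)

theorem scal_gen {ε : ℝ} (hε : 0 < ε) : ∃ C : ℝ, 0 < C ∧ ∀ (Q n : ℕ) (H : ℝ) (T : Finset M2),
    Odd Q → Q.Coprime n → 0 < n → 1 ≤ H →
    (∀ η ∈ T, η.det = n ∧ (∀ i j, |(η i j : ℝ)| ≤ H) ∧
      (Q : ℤ) ∣ η 0 1 ∧ (Q : ℤ) ∣ η 1 0 ∧ (Q : ℤ) ∣ η 0 0 - η 1 1) →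
    (#T : ℝ) ≤ C * 2 ^ #Q.primeFactors * H ^ ε * (H / (Q : ℝ) ^ 2 + 1) * (H / Q + 1) := by
  obtain ⟨C, hC, hdiv⟩ := xgd_div hε
  refine ⟨24 * C, by positivity, fun Q n H T hodd hcop hn hH hT => ?_⟩
  have hQ0 : 0 < Q := hodd.pos
  have hP : ∀ q ∈ Q.primeFactors, q.Prime := fun q hq => Nat.prime_of_mem_primeFactors hq
  have hQe : Q ^ 2 = ∏ l ∈ Q.primeFactors, l ^ (Q.factorization l * 2) := by
    conv_lhs => rw [← Nat.prod_factorization_pow_eq_self hQ0.ne']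
    rw [Finsupp.prod, ← prod_pow, Nat.support_factorization]
    exact prod_congr rfl fun l _ => (pow_mul _ _ _).symm
  have hdv : ∀ q ∈ Q.primeFactors, (q : ℤ) ^ (Q.factorization q * 2) ∣ (Q : ℤ) ^ 2 := by
    intro q hq
    have h1 : q ^ (Q.factorization q * 2) ∣ Q ^ 2 := by
      rw [hQe]
      exact dvd_prod_of_mem (fun l : ℕ => l ^ (Q.factorization l * 2)) hq
    exact_mod_cast h1
  have hc : (cnt (Q ^ 2) (fun x => ∀ q ∈ Q.primeFactors,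
      (q : ℤ) ^ (Q.factorization q * 2) ∣ x ^ 2 - 4 * n) : ℝ) ≤ 2 ^ #Q.primeFactors := by
    rw [hQe, cnt_prod _ hP (fun q => Q.factorization q * 2)
      (fun q x => (q : ℤ) ^ (Q.factorization q * 2) ∣ x ^ 2 - 4 * n)
      fun l _ x y h h' => (h'.sub (h.mul_right (x + y))).trans (dvd_of_eq (by ring))]
    exact_mod_cast prod_le_pow_card _ _ 2 fun q hq => ygc_root (hP q hq)
      (fun h => (Nat.not_even_iff_odd.2 hodd) (even_iff_two_dvd.2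
        (h ▸ Nat.dvd_of_mem_primeFactors hq)))
      (fun h => (hP q hq).one_lt.ne' (Nat.eq_one_of_dvd_coprimes hcop
        (Nat.dvd_of_mem_primeFactors hq) h))
      (mul_ne_zero ((hP q hq).factorization_pos_of_dvd hQ0.ne'
        (Nat.dvd_of_mem_primeFactors hq)).ne' two_ne_zero)
  have hA : ∀ x y : ℤ, ((Q ^ 2 : ℕ) : ℤ) ∣ x - y →
      (∀ q ∈ Q.primeFactors, (q : ℤ) ^ (Q.factorization q * 2) ∣ x ^ 2 - 4 * n) →
      ∀ q ∈ Q.primeFactors, (q : ℤ) ^ (Q.factorization q * 2) ∣ y ^ 2 - 4 * n := by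
    intro x y h h' q hq
    have h1 : (q : ℤ) ^ (Q.factorization q * 2) ∣ x - y :=
      (hdv q hq).trans (by exact_mod_cast h)
    exact ((h' q hq).sub (h1.mul_right (x + y))).trans (dvd_of_eq (by ring))
  have hd : ∀ η ∈ T, (Q : ℤ) ∣ η 0 1 ∧ (Q : ℤ) ∣ η 1 0 ∧ (Q : ℤ) ∣ η 0 0 - η 1 1 :=
    fun η hη => (hT η hη).2.2
  have hdet : ∀ η ∈ T, η 0 0 * η 1 1 - η 0 1 * η 1 0 = n := fun η hη => by
    rw [← Matrix.det_fin_two, (hT η hη).1]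
  have hQ1 : (1 : ℝ) ≤ Q := by exact_mod_cast hQ0
  have hH0 : 0 < H := by linarith
  have hx : 0 ≤ C * H ^ ε := by positivity
  have hn' : (n : ℤ) ≠ 0 := by exact_mod_cast hn.ne'
  have h1 : (#{η ∈ T | η 0 1 * η 1 0 ≠ 0} : ℝ) ≤
      2 ^ #Q.primeFactors * (4 * (H / Q ^ 2 + 1)) * (4 * (H / Q + 1)) * (C * H ^ ε) := by
    generalize hU : T.filter (fun η => η 0 1 * η 1 0 ≠ 0) = U
    have hm : ∀ η ∈ U, η ∈ T ∧ η 0 1 * η 1 0 ≠ 0 := fun η hη => by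
      rw [← hU] at hη
      exact mem_filter.1 hη
    refine (xgd_fib U (fun η => (η 0 0 + η 1 1, η 0 0 - η 1 1)) (x := C * H ^ ε)
      fun ζ hζ => ?_).trans (mul_le_mul_of_nonneg_right ?_ hx)
    · obtain ⟨z1, z2⟩ := hm ζ hζ
      have key : ∀ η ∈ U.filter fun η => (η 0 0 + η 1 1, η 0 0 - η 1 1) =
          (ζ 0 0 + ζ 1 1, ζ 0 0 - ζ 1 1),
          η 0 0 = ζ 0 0 ∧ η 1 1 = ζ 1 1 ∧ η 0 1 * η 1 0 = ζ 0 1 * ζ 1 0 := fun η hη => by
        obtain ⟨h2, h3⟩ := mem_filter.1 hη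
        obtain ⟨h4, h5⟩ := Prod.mk.inj h3
        have e0 : η 0 0 = ζ 0 0 := by omega
        have e1 : η 1 1 = ζ 1 1 := by omega
        have h6 := hdet η (hm η h2).1
        rw [e0, e1] at h6
        exact ⟨e0, e1, by linear_combination hdet ζ z1 - h6⟩
      rw [← card_image_of_injOn (f := fun η : M2 => η 0 1) fun η hη η' hη' e => ?_]
      · refine hdiv H _ _ hH0.le z2 (xgd_abs ((hT ζ z1).2.1 0 1) ((hT ζ z1).2.1 1 0)).1
          fun a ha => ?_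
        obtain ⟨η, hη, rfl⟩ := mem_image.1 ha
        exact Dvd.intro _ (key η hη).2.2
      · obtain ⟨a0, a1, a2⟩ := key η (mem_coe.1 hη)
        obtain ⟨b0, b1, b2⟩ := key η' (mem_coe.1 hη')
        have e' : η 0 1 = η' 0 1 := e
        refine xgd_ext (a0.trans b0.symm) e' ?_ (a1.trans b1.symm)
        refine mul_left_cancel₀ (left_ne_zero_of_mul (a2 ▸ z2)) ?_
        rw [a2, e', b2]
    · have h2 : U.image (fun η => (η 0 0 + η 1 1, η 0 0 - η 1 1)) ⊆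
          U.image (fun η => η 0 0 + η 1 1) ×ˢ U.image fun η => η 0 0 - η 1 1 := by
        intro z hz
        obtain ⟨η, hη, rfl⟩ := mem_image.1 hz
        exact mem_product.2 ⟨mem_image_of_mem _ hη, mem_image_of_mem _ hη⟩
      have h3 := ygc_int (pow_pos hQ0 2) hA hH0.le
        (U.image fun η => η 0 0 + η 1 1) fun x hx => by
          obtain ⟨η, hη, rfl⟩ := mem_image.1 hx
          have h4 := (hm η hη).1
          refine ⟨(xgd_abs ((hT η h4).2.1 0 0) ((hT η h4).2.1 1 1)).2.1, fun q hq =>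
            (hdv q hq).trans ?_⟩
          obtain ⟨⟨u, hu⟩, ⟨v, hv⟩, w, hw⟩ := hd η h4
          refine ⟨w ^ 2 + 4 * u * v, ?_⟩
          have h5 := hdet η h4
          rw [hu, hv] at h5
          linear_combination (η 0 0 - η 1 1 + Q * w) * hw + 4 * h5
      have h4 := ygc_mult hQ0 hH0.le (U.image fun η => η 0 0 - η 1 1) fun x hx => by
        obtain ⟨η, hη, rfl⟩ := mem_image.1 hx
        have h4 := (hm η hη).1
        exact ⟨(xgd_abs ((hT η h4).2.1 0 0) ((hT η h4).2.1 1 1)).2.2, (hd η h4).2.2⟩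
      have h5 := card_le_card h2
      rw [card_product] at h5
      refine le_trans (by exact_mod_cast h5) (mul_le_mul (h3.trans ?_) h4 (Nat.cast_nonneg _)
        (by positivity))
      push_cast
      exact mul_le_mul_of_nonneg_right hc (by positivity)
  have h2 : (#{η ∈ T | ¬ η 0 1 * η 1 0 ≠ 0} : ℝ) ≤ C * H ^ ε * (8 * (H / Q + 1)) := by
    generalize hU : T.filter (fun η => ¬ η 0 1 * η 1 0 ≠ 0) = U
    have hm : ∀ η ∈ U, η ∈ T ∧ η 0 1 * η 1 0 = 0 ∧ η 0 0 * η 1 1 = n := fun η hη => by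
      rw [← hU] at hη
      obtain ⟨h2, h3⟩ := mem_filter.1 hη
      exact ⟨h2, not_not.1 h3, by linear_combination hdet η h2 + not_not.1 h3⟩
    refine (xgd_fib U (fun η => η 0 0) (x := 8 * (H / Q + 1)) fun ζ hζ => ?_).trans ?_
    · obtain ⟨z1, -, z3⟩ := hm ζ hζ
      generalize hW : U.filter (fun η => η 0 0 = ζ 0 0) = W
      have key : ∀ η ∈ W, η ∈ U ∧ η 0 0 = ζ 0 0 ∧ η 1 1 = ζ 1 1 := fun η hη => by
        rw [← hW] at hη
        obtain ⟨h2, h3⟩ := mem_filter.1 hη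
        refine ⟨h2, h3, mul_left_cancel₀ (left_ne_zero_of_mul (z3 ▸ hn')) ?_⟩
        rw [z3, ← h3, (hm η h2).2.2]
      have hb : ∀ η ∈ W, ∀ i j, |(η i j : ℝ)| ≤ 2 * H := fun η hη i j =>
        ((hT η (hm η (key η hη).1).1).2.1 i j).trans (by linarith)
      have a1 : (#{η ∈ W | η 0 1 = 0} : ℝ) ≤ 4 * (H / Q + 1) := by
        rw [← card_image_of_injOn (f := fun η : M2 => η 1 0) fun η hη η' hη' e => ?_]
        · refine ygc_mult hQ0 hH0.le _ fun x hx => ?_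
          obtain ⟨η, hη, rfl⟩ := mem_image.1 hx
          have h2 := (mem_filter.1 hη).1
          exact ⟨hb η h2 1 0, (hd η (hm η (key η h2).1).1).2.1⟩
        · obtain ⟨h2, h3⟩ := mem_filter.1 (mem_coe.1 hη)
          obtain ⟨h4, h5⟩ := mem_filter.1 (mem_coe.1 hη')
          exact xgd_ext ((key η h2).2.1.trans (key η' h4).2.1.symm) (h3.trans h5.symm) e
            ((key η h2).2.2.trans (key η' h4).2.2.symm)
      have a2 : (#{η ∈ W | ¬ η 0 1 = 0} : ℝ) ≤ 4 * (H / Q + 1) := by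
        rw [← card_image_of_injOn (f := fun η : M2 => η 0 1) fun η hη η' hη' e => ?_]
        · refine ygc_mult hQ0 hH0.le _ fun x hx => ?_
          obtain ⟨η, hη, rfl⟩ := mem_image.1 hx
          have h2 := (mem_filter.1 hη).1
          exact ⟨hb η h2 0 1, (hd η (hm η (key η h2).1).1).1⟩
        · obtain ⟨h2, h3⟩ := mem_filter.1 (mem_coe.1 hη)
          obtain ⟨h4, h5⟩ := mem_filter.1 (mem_coe.1 hη')
          exact xgd_ext ((key η h2).2.1.trans (key η' h4).2.1.symm) e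
            (((mul_eq_zero.1 (hm η (key η h2).1).2.1).resolve_left h3).trans
              ((mul_eq_zero.1 (hm η' (key η' h4).1).2.1).resolve_left h5).symm)
            ((key η h2).2.2.trans (key η' h4).2.2.symm)
      have a3 := card_filter_add_card_filter_not (s := W) fun η => η 0 1 = 0
      rw [← a3, Nat.cast_add]
      exact (add_le_add a1 a2).trans (le_of_eq (by ring))
    · refine mul_le_mul_of_nonneg_right ?_ (by positivity)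
      rcases U.eq_empty_or_nonempty with rfl | ⟨ζ, hζ⟩
      · simpa using hx
      obtain ⟨z1, -, z3⟩ := hm ζ hζ
      refine hdiv H n _ hH0.le hn' (z3 ▸ (xgd_abs ((hT ζ z1).2.1 0 0) ((hT ζ z1).2.1 1 1)).1)
        fun a ha => ?_
      obtain ⟨η, hη, rfl⟩ := mem_image.1 ha
      exact Dvd.intro _ (hm η hη).2.2
  have h3 := card_filter_add_card_filter_not (s := T) fun η => η 0 1 * η 1 0 ≠ 0
  rw [← h3, Nat.cast_add]
  have h4 : (1 : ℝ) ≤ 2 ^ #Q.primeFactors := one_le_pow₀ one_le_two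
  have h6 : (1 : ℝ) ≤ H / Q ^ 2 + 1 := le_add_of_nonneg_left (by positivity)
  have h5 : 8 * (H / Q + 1) ≤ 2 ^ #Q.primeFactors * (H / Q ^ 2 + 1) * (8 * (H / Q + 1)) :=
    le_mul_of_one_le_left (by positivity) (one_le_mul_of_one_le_of_one_le h4 h6)
  refine (add_le_add h1 (h2.trans (mul_le_mul_of_nonneg_left h5 hx))).trans (le_of_eq ?_)
  ring

/-- The count of pairs of matrices with the same classes modulo the primes of `E`. -/
def CT6 (H ε C : ℝ) : Prop :=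
  ∀ (Δ Δ' E : Finset ℕ) (T : Finset (M2 × M2)), (∀ l ∈ Δ ∪ Δ', l.Prime) →
    (∀ q ∈ E, q.Prime ∧ q ≠ 2 ∧ q ∉ Δ ∪ Δ') →
    (∏ q ∈ E, q) ^ 4 ≤ (∏ l ∈ Δ \ Δ', l) * ∏ l ∈ Δ' \ Δ, l →
    (∀ z ∈ T, z.1.det = (∏ l ∈ Δ, l : ℕ) ∧ z.2.det = (∏ l ∈ Δ', l : ℕ) ∧
      (∀ i j, |(z.1 i j : ℝ)| ≤ H * Real.sqrt (∏ l ∈ Δ, l : ℕ)) ∧
      (∀ i j, |(z.2 i j : ℝ)| ≤ H * Real.sqrt (∏ l ∈ Δ', l : ℕ)) ∧
      ∀ q ∈ E, Pj q z.1 = Pj q z.2) →
    (#T : ℝ) ≤ C * 2 ^ #E * 4 ^ #Δ *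
      (((∏ l ∈ Δ, l : ℕ) : ℝ) * (∏ l ∈ Δ', l : ℕ)) ^ (1 + ε) / ((∏ q ∈ E, q : ℕ) : ℝ) ^ 3

theorem ygc_fix {H ε C : ℝ} (hH : 1 ≤ H) (hε : 0 < ε) (hC : 0 < C)
    (hs : ∀ (B : Finset ℕ) (n : ℕ) (H : ℝ) (T : Finset M2),
      (∀ q ∈ B, q.Prime ∧ q ≠ 2 ∧ ¬ q ∣ n) → 0 < n → ((∏ q ∈ B, q : ℕ) : ℝ) ^ 2 ≤ H →
      (∀ η ∈ T, η.det = n ∧ (∀ i j, |(η i j : ℝ)| ≤ H) ∧
        ∀ q ∈ B, (q : ℤ) ∣ η 0 1 ∧ (q : ℤ) ∣ η 1 0 ∧ (q : ℤ) ∣ η 0 0 - η 1 1) →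
      (#T : ℝ) ≤ C * 2 ^ #B * H ^ (2 + 2 * ε) / ((∏ q ∈ B, q : ℕ) : ℝ) ^ 3)
    {n₁ n₂ m : ℕ} (p1 : 0 < n₁) (p2 : 0 < n₂) (p3 : 0 < m) {B : Finset ℕ}
    (hB : ∀ q ∈ B, q.Prime ∧ q ≠ 2 ∧ ¬ q ∣ n₁ * n₂ * m) (hQ : (∏ q ∈ B, q) ^ 4 ≤ n₁ * n₂)
    {t : ℝ} (hτ : (#m.divisors : ℝ) ≤ t) (U : Finset (M2 × M2))
    (hz : ∀ z ∈ U, z.1.det = (n₁ * m : ℕ) ∧ z.2.det = (n₂ * m : ℕ) ∧
      (∀ i j, |(z.1 i j : ℝ)| ≤ H * Real.sqrt (n₁ * m : ℕ)) ∧
      (∀ i j, |(z.2 i j : ℝ)| ≤ H * Real.sqrt (n₂ * m : ℕ)) ∧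
      Dv m (z.2 * z.1.adjugate) ∧ ∀ q ∈ B, Pj q z.1 = Pj q z.2)
    (hl : ∀ z ∈ U, ∀ l : ℕ, l.Prime → l ∣ n₁ → l * l ∣ n₁ * n₂ → ¬ Dv l (z.2 * z.1.adjugate)) :
    (#U : ℝ) ≤ C * (2 * H ^ 2) ^ (2 + 2 * ε) * (100 * H ^ 2) * 2 ^ #B * t *
      (((n₁ * m : ℕ) : ℝ) * (n₂ * m : ℕ)) ^ (1 + ε) / ((∏ q ∈ B, q : ℕ) : ℝ) ^ 3 := by
  have ht : 0 ≤ t := (Nat.cast_nonneg _).trans hτ
  have hn1 : (n₁ : ℤ) ≠ 0 := by exact_mod_cast p1.ne'
  choose! δ hδ using fun z (hz' : z ∈ U) => xgd_pair p3 (B := B)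
    (fun q h => ⟨(hB q h).1, fun h' => (hB q h).2.2 (h'.mul_left _)⟩) (hz z hz').1 (hz z hz').2.1
    (hz z hz').2.2.1 (hz z hz').2.2.2.1 (fun v i => by
      rw [Matrix.mulVec_mulVec, xlb_mv]
      exact dvd_add (((hz z hz').2.2.2.2.1 i 0).mul_right _)
        (((hz z hz').2.2.2.2.1 i 1).mul_right _)) (hz z hz').2.2.2.2.2
  have hL : ∀ z ∈ U, IsLn n₁ (Ker n₁ (δ z)) := fun z hz' => by
    refine xlb_isLn_Ker p1 (by rw [(hδ z hz').1]; exact_mod_cast Dvd.intro _ rfl)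
      fun l hlp hln => ?_
    by_contra hh
    push Not at hh
    refine hl z hz' l hlp hln ?_ fun i j => ?_
    · have h1 : (l : ℤ) * l ∣ (δ z).det := by
        rw [Matrix.det_fin_two]
        exact dvd_sub (mul_dvd_mul (hh 0 0) (hh 1 1)) (mul_dvd_mul (hh 0 1) (hh 1 0))
      rw [(hδ z hz').1] at h1
      exact_mod_cast h1
    · have h1 : z.2 * z.1.adjugate = (m : ℤ) • δ z := by
        refine xla_cancel hn1 ?_
        rw [← smul_mul_assoc, ← (hδ z hz').2.2.2, mul_assoc, Matrix.mul_adjugate, (hz z hz').1,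
          mul_smul_comm, mul_one, smul_smul, Nat.cast_mul]
      rw [h1, Matrix.smul_apply, smul_eq_mul]
      exact (hh i j).mul_left _
  have hm1 : (1 : ℝ) ≤ m := by exact_mod_cast p3
  have hN : (0 : ℝ) < (n₁ * n₂ : ℕ) := by exact_mod_cast Nat.mul_pos p1 p2
  have h1 := xgd_fib U δ (x := 100 * H ^ 2 * m * t) fun ζ hζ => by
    rw [← card_image_of_injOn (f := Prod.fst) fun z hz1 z' hz2 e => ?_]
    · refine (lat_count p1 p3 (hL ζ hζ) (by linarith) _ fun η hη => ?_).trans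
        (mul_le_mul_of_nonneg_left hτ (by positivity))
      obtain ⟨z, hz1, rfl⟩ := mem_image.1 hη
      obtain ⟨h2, h3⟩ := mem_filter.1 hz1
      refine ⟨(hz z h2).1, fun j i => ?_, (hz z h2).2.2.1⟩
      have h4 := congrFun (congrFun (hδ z h2).2.2.2 i) j
      rw [h3] at h4
      exact ⟨z.2 i j, h4⟩
    · obtain ⟨h2, h3⟩ := mem_filter.1 (mem_coe.1 hz1)
      obtain ⟨h4, h5⟩ := mem_filter.1 (mem_coe.1 hz2)
      refine Prod.ext e (xla_cancel hn1 ?_)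
      rw [← (hδ z h2).2.2.2, ← (hδ z' h4).2.2.2, h3, h5, e]
  have h2 := hs B (n₁ * n₂) (2 * H ^ 2 * Real.sqrt (n₁ * n₂ : ℕ)) (U.image δ)
    (fun q h => ⟨(hB q h).1, (hB q h).2.1, fun h' => (hB q h).2.2 (h'.mul_right _)⟩)
    (Nat.mul_pos p1 p2)
    (by
      have h3 : ((∏ q ∈ B, q : ℕ) : ℝ) ^ 2 ≤ Real.sqrt (n₁ * n₂ : ℕ) := by
        refine Real.le_sqrt_of_sq_le ?_
        rw [← pow_mul]
        exact_mod_cast hQ
      refine h3.trans (le_mul_of_one_le_left (Real.sqrt_nonneg _) ?_)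
      nlinarith)
    fun η hη => by
      obtain ⟨z, hz1, rfl⟩ := mem_image.1 hη
      exact ⟨(hδ z hz1).1, (hδ z hz1).2.1, (hδ z hz1).2.2.1⟩
  have e4 : (2 * H ^ 2 * Real.sqrt (n₁ * n₂ : ℕ)) ^ (2 + 2 * ε) =
      (2 * H ^ 2) ^ (2 + 2 * ε) * ((n₁ * n₂ : ℕ) : ℝ) ^ (1 + ε) := by
    rw [Real.mul_rpow (by positivity) (Real.sqrt_nonneg _), Real.sqrt_eq_rpow,
      ← Real.rpow_mul hN.le]
    congr 2
    ring
  have h3 : (m : ℝ) ≤ ((m : ℝ) * m) ^ (1 + ε) := by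
    have h4 : (1 : ℝ) ≤ m * m := one_le_mul_of_one_le_of_one_le hm1 hm1
    have h5 := Real.rpow_le_rpow_of_exponent_le h4 (by linarith : (1 : ℝ) ≤ 1 + ε)
    rw [Real.rpow_one] at h5
    nlinarith
  have e5 : ((n₁ * m : ℕ) : ℝ) * (n₂ * m : ℕ) = ((n₁ * n₂ : ℕ) : ℝ) * ((m : ℝ) * m) := by
    push_cast
    ring
  rw [e4] at h2
  rw [e5, Real.mul_rpow hN.le (by positivity)]
  refine (h1.trans (mul_le_mul h2 (mul_le_mul_of_nonneg_right (mul_le_mul_of_nonneg_left h3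
    (by positivity)) ht) (by positivity) (by positivity))).trans (le_of_eq ?_)
  ring

theorem ct_pair {H ε : ℝ} (hH : 1 ≤ H) (hε : 0 < ε) : ∃ C : ℝ, 0 < C ∧ CT6 H ε C := by
  obtain ⟨C, hC, hs⟩ := scal_count (ε := 2 * ε) (by linarith)
  refine ⟨C * (2 * H ^ 2) ^ (2 + 2 * ε) * (100 * H ^ 2), by positivity,
    fun Δ Δ' E T hΔ hE hQ hT => ?_⟩
  have hp1 : ∀ l ∈ Δ, l.Prime := fun l hl => hΔ l (mem_union_left _ hl)
  have hp2 : ∀ l ∈ Δ', l.Prime := fun l hl => hΔ l (mem_union_right _ hl)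
  have hdv : ∀ (s : Finset ℕ) (q : ℕ), (∀ l ∈ s, l.Prime) → q.Prime → q ∣ ∏ l ∈ s, l → q ∈ s :=
    fun s q hs hq h => by
      obtain ⟨l, hl, h1⟩ := (hq.prime.dvd_finsetProd_iff _).1 h
      exact ((Nat.prime_dvd_prime_iff_eq hq (hs l hl)).1 h1) ▸ hl
  have h1 := xgd_fib T (fun z => {l ∈ Δ ∩ Δ' | Dv l (z.2 * z.1.adjugate)})
    (x := C * (2 * H ^ 2) ^ (2 + 2 * ε) * (100 * H ^ 2) * 2 ^ #E * 2 ^ #Δ *
      (((∏ l ∈ Δ, l : ℕ) : ℝ) * (∏ l ∈ Δ', l : ℕ)) ^ (1 + ε) / ((∏ q ∈ E, q : ℕ) : ℝ) ^ 3)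
    fun ζ _ => by
      have hF : {l ∈ Δ ∩ Δ' | Dv l (ζ.2 * ζ.1.adjugate)} ⊆ Δ ∩ Δ' := filter_subset _ _
      generalize {l ∈ Δ ∩ Δ' | Dv l (ζ.2 * ζ.1.adjugate)} = F at hF ⊢
      have f1 : F ⊆ Δ := hF.trans inter_subset_left
      have f2 : F ⊆ Δ' := hF.trans inter_subset_right
      have e1 : ∏ l ∈ Δ, l = (∏ l ∈ Δ \ F, l) * ∏ l ∈ F, l := (prod_sdiff f1).symm
      have e2 : ∏ l ∈ Δ', l = (∏ l ∈ Δ' \ F, l) * ∏ l ∈ F, l := (prod_sdiff f2).symm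
      have q1 : ∀ l ∈ Δ \ F, l.Prime := fun l hl => hp1 l (mem_sdiff.1 hl).1
      have q2 : ∀ l ∈ Δ' \ F, l.Prime := fun l hl => hp2 l (mem_sdiff.1 hl).1
      have q3 : ∀ l ∈ F, l.Prime := fun l hl => hp1 l (f1 hl)
      have hτ : (#(∏ l ∈ F, l).divisors : ℝ) ≤ 2 ^ #Δ := by
        have := (xgd_tau q3).trans (Nat.pow_le_pow_right two_pos (card_le_card f1))
        exact_mod_cast this
      rw [e1, e2]
      refine ygc_fix hH hε hC hs (prod_pos fun l hl => (q1 l hl).pos)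
        (prod_pos fun l hl => (q2 l hl).pos) (prod_pos fun l hl => (q3 l hl).pos)
        (fun q hq => ⟨(hE q hq).1, (hE q hq).2.1, fun h => (hE q hq).2.2 ?_⟩) (hQ.trans ?_) hτ _
        (fun z hz => ?_) fun z hz l hl h2 h3 h4 => ?_
      · rcases ((hE q hq).1.dvd_mul).1 h with h | h
        · rcases ((hE q hq).1.dvd_mul).1 h with h | h
          · exact mem_union_left _ (mem_sdiff.1 (hdv _ q q1 (hE q hq).1 h)).1
          · exact mem_union_right _ (mem_sdiff.1 (hdv _ q q2 (hE q hq).1 h)).1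
        · exact mem_union_left _ (f1 (hdv _ q q3 (hE q hq).1 h))
      · exact Nat.mul_le_mul
          (prod_le_prod_of_subset_of_one_le' (sdiff_subset_sdiff le_rfl f2)
            fun l hl _ => (q1 l hl).pos)
          (prod_le_prod_of_subset_of_one_le' (sdiff_subset_sdiff le_rfl f1)
            fun l hl _ => (q2 l hl).pos)
      · obtain ⟨h2, h3⟩ := mem_filter.1 hz
        obtain ⟨a1, a2, a3, a4, a5⟩ := hT z h2
        rw [e1] at a1 a3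
        rw [e2] at a2 a4
        refine ⟨a1, a2, a3, a4, fun i j => xgd_dvd q3 fun l hl => ?_, a5⟩
        rw [← h3] at hl
        exact (mem_filter.1 hl).2 i j
      · have h5 := mem_sdiff.1 (hdv _ l q1 hl h2)
        refine h5.2 ?_
        rw [← (mem_filter.1 hz).2]
        refine mem_filter.2 ⟨mem_inter.2 ⟨h5.1, ?_⟩, h4⟩
        by_contra h6
        have h7 : l.Coprime (∏ l ∈ Δ' \ F, l) := (Nat.Prime.coprime_iff_not_dvd hl).2
          fun h => h6 (mem_sdiff.1 (hdv _ l q2 hl h)).1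
        exact hl.one_lt.ne' (Nat.isUnit_iff.1 (xgd_sq q1 l
          ((Nat.Coprime.mul_left h7 h7).dvd_of_dvd_mul_right h3)))
  have h2 : #(T.image fun z => {l ∈ Δ ∩ Δ' | Dv l (z.2 * z.1.adjugate)}) ≤ 2 ^ #Δ := by
    rw [← card_powerset]
    refine card_le_card fun F hF => ?_
    obtain ⟨z, -, rfl⟩ := mem_image.1 hF
    exact mem_powerset.2 ((filter_subset _ _).trans inter_subset_left)
  have h3 : (#(T.image fun z => {l ∈ Δ ∩ Δ' | Dv l (z.2 * z.1.adjugate)}) : ℝ) ≤ 2 ^ #Δ := by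
    exact_mod_cast h2
  refine (h1.trans (mul_le_mul_of_nonneg_right h3 (by positivity))).trans (le_of_eq ?_)
  rw [show (4 : ℝ) = 2 * 2 by norm_num, mul_pow]
  ring

end Pool.Agent.EQ
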