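import Pool.Agent.P.MP_ad7a55_nt.YGa
import Pool.Agent.P.MP_ad7a55_nt.YGc
import Pool.Agent.P.MP_ad7a55_nt.XEb
import Pool.Agent.P.MP_ad7a55_nt.XGb

/-! The marginals are light. -/

set_option autoImplicit false

noncomputable section

open Finset Matrix
open scoped MatrixGroups Classical

namespace Pool.Agent.EQ

theorem ygf_ndvd {q : ℕ} (hq : q.Prime) {S : Finset ℕ} (hS : ∀ l ∈ S, l.Prime) (h : q ∉ S) :
    ¬ q ∣ ∏ l ∈ S, l := by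
  intro k
  obtain ⟨l, hl, e⟩ := (hq.prime.dvd_finsetProd_iff _).1 k
  exact h (((Nat.prime_dvd_prime_iff_eq hq (hS l hl)).1 e) ▸ hl)

theorem ygf_Pj {q : ℕ} (hq : q.Prime) {m : ℕ} (hm : ¬ q ∣ m) (g : M2) :
    Pj q ((m : ℤ) • g) = Pj q g := by
  have := Fact.mk hq
  have h1 : ((m : ℕ) : ZMod q) ≠ 0 := by rwa [Ne, ZMod.natCast_eq_zero_iff]
  have h2 : xgbM q ((m : ℤ) • g) = ((m : ℕ) : ZMod q) • xgbM q g := by
    ext i j
    rw [Matrix.smul_apply, xgb_Mapp, xgb_Mapp, Matrix.smul_apply, smul_eq_mul, smul_eq_mul,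
      Int.cast_mul, Int.cast_natCast]
  rw [xgb_Pjeq h1 h2, xgb_Pjeq (q := q) one_ne_zero (M := xgbM q g) (one_smul _ _).symm]

theorem ygf_mem {L u : ℕ} {pr : Fin L → Fin u → ℕ}
    (hi : Function.Injective fun z : Fin L × Fin u => pr z.1 z.2) (b : Fin L → Fin u)
    (g : Fin L) (i : Fin u) : pr g i ∈ bs pr b ↔ b g = i := by
  constructor
  · intro k
    obtain ⟨g', -, e⟩ := mem_image.1 k
    have e1 : (g', b g') = (g, i) := hi e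
    obtain rfl : g' = g := congrArg Prod.fst e1
    exact congrArg Prod.snd e1
  · rintro rfl
    exact mem_image_of_mem _ (mem_univ g)

theorem ygf_two {L u : ℕ} {pr : Fin L → Fin u → ℕ}
    (hi : Function.Injective fun z : Fin L × Fin u => pr z.1 z.2) (a b c e : Fin L → Fin u)
    (I : Finset (Fin L))
    (hI : ∀ g ∈ I, a g ≠ b g ∧ c g ≠ a g ∧ e g ≠ a g ∧ c g ≠ b g ∧ e g ≠ b g) :
    2 * #I ≤ #(symmDiff (bs pr a) (bs pr b) \ symmDiff (bs pr c) (bs pr e)) := by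
  have k : #((univ : Finset Bool) ×ˢ I) ≤
      #(symmDiff (bs pr a) (bs pr b) \ symmDiff (bs pr c) (bs pr e)) := by
    refine card_le_card_of_injOn (fun z => pr z.2 (cond z.1 (a z.2) (b z.2))) (fun z hz => ?_)
      fun z hz z' _ hh => ?_
    · obtain ⟨s, g⟩ := z
      obtain ⟨h1, h2, h3, h4, h5⟩ := hI g (mem_product.1 (mem_coe.1 hz)).2
      have h6 := h1.symm
      cases s <;>
        simp only [mem_coe, mem_sdiff, Finset.mem_symmDiff, ygf_mem hi, cond_true, cond_false] <;>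
        tauto
    · obtain ⟨s, g⟩ := z
      obtain ⟨s', g'⟩ := z'
      have e1 : (g, cond s (a g) (b g)) = (g', cond s' (a g') (b g')) := hi hh
      obtain rfl : g = g' := congrArg Prod.fst e1
      have e2 : cond s (a g) (b g) = cond s' (a g) (b g) := congrArg Prod.snd e1
      have h1 := (hI g (mem_product.1 (mem_coe.1 hz)).2).1
      cases s <;> cases s'
      · rfl
      · exact absurd e2.symm h1
      · exact absurd e2 h1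
      · rfl
  rwa [card_product, card_univ, Fintype.card_bool] at k

theorem ygf_sd {β β' : Finset ℕ} : symmDiff β β' ⊆ β ∪ β' := by
  intro l hl
  rw [Finset.mem_symmDiff] at hl
  rw [mem_union]
  tauto

theorem ygf_side {α ι γ δ : Type} [Fintype ι] {d : RD α ι γ δ} {y p C₁ : ℕ}
    {H Λ δ₀ : ℝ} (h : d.Ok6 y p H Λ δ₀ C₁) {β β' : Finset ℕ} (hβ : β ⊆ d.P) (hp : #β ≤ p)
    (hβ' : β' ⊆ d.P) (hp' : #β' ≤ p) (k : ι) {t : ℝ} (ht : 0 ≤ t) :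
    ∃ g : α → M2, (∀ x ∈ d.O, d.G2 β β' x → (g x).det = (∏ l ∈ symmDiff β β', l : ℕ) ∧
      (∀ i j, |(g x i j : ℝ)| ≤ 2 * H ^ 2 * Real.sqrt (∏ l ∈ symmDiff β β', l : ℕ)) ∧
      ∀ q : ℕ, q.Prime → q ∉ β → Pj q (d.gm β β' x k) = Pj q (g x)) ∧
      ∀ (g₀ : M2) (A : Finset α), (∀ x ∈ A, x ∈ d.O ∧ d.G2 β β' x ∧ g x = g₀ ∧
        prb d.O (fun x' => d.G2 β β' x' ∧ d.gm β β' x' k = d.gm β β' x k) ≤
          t / (∏ l ∈ symmDiff β β', l : ℕ)) →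
        (#A : ℝ) ≤ t / (∏ l ∈ symmDiff β β', l : ℕ) * #d.O := by
  have h0 : ∀ x, ∃ g : M2, x ∈ d.O → d.G2 β β' x →
      d.gm β β' x k = ((∏ l ∈ β ∩ β', l : ℕ) : ℤ) • g ∧
      g.det = (∏ l ∈ symmDiff β β', l : ℕ) ∧
      ∀ i j, |(g i j : ℝ)| ≤ 2 * H ^ 2 * Real.sqrt (∏ l ∈ symmDiff β β', l : ℕ) := by
    intro x
    by_cases hx : x ∈ d.O ∧ d.G2 β β' x
    · obtain ⟨g, hg⟩ := (h.gm_div hβ hp hβ' hp' hx.1 hx.2 k).2
      exact ⟨g, fun _ _ => hg⟩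
    · exact ⟨0, fun a b => absurd ⟨a, b⟩ hx⟩
  choose g hg using h0
  refine ⟨g, fun x hx hG => ⟨(hg x hx hG).2.1, (hg x hx hG).2.2, fun q hq hq' => ?_⟩,
    fun g₀ A hA => ?_⟩
  · rw [(hg x hx hG).1]
    exact ygf_Pj hq (ygf_ndvd hq (fun l hl => (h.prime l (hβ (mem_inter.1 hl).1)).1)
      fun hl => hq' (mem_inter.1 hl).1) _
  · rcases A.eq_empty_or_nonempty with rfl | ⟨x₀, hx₀⟩
    · rw [card_empty, Nat.cast_zero]
      positivity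
    obtain ⟨a1, a2, a3, a4⟩ := hA x₀ hx₀
    have hO : (0 : ℝ) < #d.O := by exact_mod_cast h.ne.card_pos
    unfold prb at a4
    rw [div_le_iff₀ hO] at a4
    refine le_trans (Nat.cast_le.2 (card_le_card fun x hx => ?_)) a4
    obtain ⟨b1, b2, b3, -⟩ := hA x hx
    simp only [mem_filter]
    refine ⟨b1, b2, ?_⟩
    rw [(hg x b1 b2).1, (hg x₀ a1 a2).1, a3, b3]

theorem ygf_good {α ι γ δ : Type} [Fintype ι] {d : RD α ι γ δ} {y p C₁ : ℕ}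
    {H Λ δ₀ : ℝ} (h : d.Ok6 y p H Λ δ₀ C₁) (hy : 2 ≤ y) {L : ℕ} {β₁ β₁' β₂ β₂' E : Finset ℕ}
    (a1 : β₁ ⊆ d.P ∧ #β₁ = L ∧ #β₁ ≤ p) (a2 : β₁' ⊆ d.P ∧ #β₁' = L ∧ #β₁' ≤ p)
    (a3 : β₂ ⊆ d.P ∧ #β₂ = L ∧ #β₂ ≤ p) (a4 : β₂' ⊆ d.P ∧ #β₂' = L ∧ #β₂' ≤ p)
    (hE : ∀ q ∈ E, q ∈ d.P ∧ q ∉ β₁ ∧ q ∉ β₁' ∧ q ∉ β₂ ∧ q ∉ β₂')
    (hQ : (∏ q ∈ E, q) ^ 4 ≤ (∏ l ∈ symmDiff β₁ β₁' \ symmDiff β₂ β₂', l) *
      ∏ l ∈ symmDiff β₂ β₂' \ symmDiff β₁ β₁', l)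
    {t ε C : ℝ} (ht : 0 ≤ t) (hε : 0 ≤ ε) (hC : 0 ≤ C) (hCT : CT6 (2 * H ^ 2) ε C) (k : ι)
    (S : Finset (α × α))
    (hS : ∀ z ∈ S, (z.1 ∈ d.O ∧ d.G2 β₁ β₁' z.1 ∧
        prb d.O (fun x' => d.G2 β₁ β₁' x' ∧ d.gm β₁ β₁' x' k = d.gm β₁ β₁' z.1 k) ≤
          t / (∏ l ∈ symmDiff β₁ β₁', l : ℕ)) ∧ (z.2 ∈ d.O ∧ d.G2 β₂ β₂' z.2 ∧
        prb d.O (fun x' => d.G2 β₂ β₂' x' ∧ d.gm β₂ β₂' x' k = d.gm β₂ β₂' z.2 k) ≤
          t / (∏ l ∈ symmDiff β₂ β₂', l : ℕ)) ∧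
        ∀ q ∈ E, Pj q (d.gm β₁ β₁' z.1 k) = Pj q (d.gm β₂ β₂' z.2 k)) :
    ((∏ q ∈ E, q : ℕ) : ℝ) ^ 3 * #S ≤
      t ^ 2 * C * 2 ^ #E * 4 ^ (2 * L) * (2 * y : ℝ) ^ (4 * L * ε) * (#d.O : ℝ) ^ 2 := by
  obtain ⟨g, hg, hg'⟩ := ygf_side h a1.1 a1.2.2 a2.1 a2.2.2 k ht
  obtain ⟨f, hf, hf'⟩ := ygf_side h a3.1 a3.2.2 a4.1 a4.2.2 k ht
  have s1 : symmDiff β₁ β₁' ⊆ d.P := ygf_sd.trans (union_subset a1.1 a2.1)
  have s2 : symmDiff β₂ β₂' ⊆ d.P := ygf_sd.trans (union_subset a3.1 a4.1)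
  have c1 : #(symmDiff β₁ β₁') ≤ 2 * L :=
    (card_le_card ygf_sd).trans ((card_union_le _ _).trans (by omega))
  have c2 : #(symmDiff β₂ β₂') ≤ 2 * L :=
    (card_le_card ygf_sd).trans ((card_union_le _ _).trans (by omega))
  have n1 : ∀ q ∈ E, q ∉ symmDiff β₁ β₁' ∪ symmDiff β₂ β₂' := fun q hq hh => by
    obtain ⟨-, b1, b2, b3, b4⟩ := hE q hq
    rcases mem_union.1 hh with hh | hh <;> rcases mem_union.1 (ygf_sd hh) with hh | hh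
    exacts [b1 hh, b2 hh, b3 hh, b4 hh]
  generalize symmDiff β₁ β₁' = Δ at *
  generalize symmDiff β₂ β₂' = Δ' at *
  have bd : ∀ D : Finset ℕ, D ⊆ d.P → #D ≤ 2 * L → (0 : ℝ) < (∏ l ∈ D, l : ℕ) ∧
      ((∏ l ∈ D, l : ℕ) : ℝ) ≤ (2 * y : ℝ) ^ (2 * L) := fun D hD hc => by
    refine ⟨Nat.cast_pos.2 (prod_pos fun l hl => (h.prime l (hD hl)).1.pos), ?_⟩
    have e1 : ∏ l ∈ D, l ≤ (2 * y) ^ #D :=
      prod_le_pow_card _ _ _ fun l hl => (h.prime l (hD hl)).2.2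
    have e2 : (2 * y) ^ #D ≤ (2 * y) ^ (2 * L) := Nat.pow_le_pow_right (by omega) hc
    exact_mod_cast e1.trans e2
  obtain ⟨p1, q1⟩ := bd Δ s1 c1
  obtain ⟨p2, q2⟩ := bd Δ' s2 c2
  have hQ0 : (0 : ℝ) < (∏ q ∈ E, q : ℕ) :=
    Nat.cast_pos.2 (prod_pos fun q hq => (h.prime q (hE q hq).1).1.pos)
  have hT := hCT Δ Δ' E (S.image fun z => (g z.1, f z.2))
    (fun l hl => (h.prime l (union_subset s1 s2 hl)).1)
    (fun q hq => ⟨(h.prime q (hE q hq).1).1, by have := (h.prime q (hE q hq).1).2.1; omega,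
      n1 q hq⟩) hQ (by
      intro w hw
      obtain ⟨z, hz, rfl⟩ := mem_image.1 hw
      obtain ⟨⟨b1, b2, -⟩, ⟨b3, b4, -⟩, b5⟩ := hS z hz
      obtain ⟨e1, e2, e3⟩ := hg z.1 b1 b2
      obtain ⟨e4, e5, e6⟩ := hf z.2 b3 b4
      refine ⟨e1, e4, e2, e5, fun q hq => ?_⟩
      have hq' := (h.prime q (hE q hq).1).1
      rw [← e3 q hq' (hE q hq).2.1, ← e6 q hq' (hE q hq).2.2.2.1]
      exact b5 q hq)
  have hF := xgf_fib S (S.image fun z => (g z.1, f z.2)) (fun z => (g z.1, f z.2))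
    (A := (t / (∏ l ∈ Δ, l : ℕ) * #d.O) * (t / (∏ l ∈ Δ', l : ℕ) * #d.O))
    (fun z hz => mem_image_of_mem _ hz) (fun w _ => by
      set F := {z ∈ S | (g z.1, f z.2) = w} with hFd
      have e1 : #F ≤ #(F.image Prod.fst ×ˢ F.image Prod.snd) :=
        card_le_card fun z hz => mem_product.2 ⟨mem_image_of_mem _ hz, mem_image_of_mem _ hz⟩
      rw [card_product] at e1
      have e2 := hg' w.1 (F.image Prod.fst) fun x hx => by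
        obtain ⟨z, hz, rfl⟩ := mem_image.1 hx
        obtain ⟨m1, m2⟩ := mem_filter.1 hz
        obtain ⟨⟨b1, b2, b3⟩, -, -⟩ := hS z m1
        exact ⟨b1, b2, congrArg Prod.fst m2, b3⟩
      have e3 := hf' w.2 (F.image Prod.snd) fun x hx => by
        obtain ⟨z, hz, rfl⟩ := mem_image.1 hx
        obtain ⟨m1, m2⟩ := mem_filter.1 hz
        obtain ⟨-, ⟨b1, b2, b3⟩, -⟩ := hS z m1
        exact ⟨b1, b2, congrArg Prod.snd m2, b3⟩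
      refine le_trans ?_ (mul_le_mul e2 e3 (Nat.cast_nonneg _) ((Nat.cast_nonneg _).trans e2))
      exact_mod_cast e1)
  generalize ((∏ l ∈ Δ, l : ℕ) : ℝ) = a at *
  generalize ((∏ l ∈ Δ', l : ℕ) : ℝ) = b at *
  generalize ((∏ q ∈ E, q : ℕ) : ℝ) = Q at *
  have hy0 : (0 : ℝ) < 2 * y := by
    have : (2 : ℝ) ≤ y := by exact_mod_cast hy
    linarith
  have r1 : (a * b) ^ (1 + ε) = a * b * (a * b) ^ ε := by
    rw [Real.rpow_add (mul_pos p1 p2), Real.rpow_one]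
  have r2 : (a * b) ^ ε ≤ (2 * y : ℝ) ^ (4 * L * ε) := by
    have e1 : a * b ≤ (2 * y : ℝ) ^ (4 * L : ℝ) := by
      have e2 : (2 * y : ℝ) ^ (4 * L : ℝ) = (2 * y : ℝ) ^ (2 * L) * (2 * y : ℝ) ^ (2 * L) := by
        rw [← pow_add, ← Real.rpow_natCast]
        congr 1
        push_cast
        ring
      rw [e2]
      exact mul_le_mul q1 q2 p2.le (p1.le.trans q1)
    rw [Real.rpow_mul hy0.le]
    exact Real.rpow_le_rpow (mul_pos p1 p2).le e1 hε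
  have r3 : (4 : ℝ) ^ #Δ ≤ 4 ^ (2 * L) := pow_le_pow_right₀ (by norm_num) c1
  have r4 : (#S : ℝ) ≤ (t / a * #d.O) * (t / b * #d.O) *
      (C * 2 ^ #E * 4 ^ #Δ * (a * b) ^ (1 + ε) / Q ^ 3) :=
    hF.trans (mul_le_mul_of_nonneg_left hT (by positivity))
  have r5 : Q ^ 3 * ((t / a * #d.O) * (t / b * #d.O) *
      (C * 2 ^ #E * 4 ^ #Δ * (a * b) ^ (1 + ε) / Q ^ 3)) =
      t ^ 2 * C * 2 ^ #E * 4 ^ #Δ * (a * b) ^ ε * (#d.O : ℝ) ^ 2 := by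
    rw [r1]
    field_simp
  refine (mul_le_mul_of_nonneg_left r4 (by positivity)).trans (r5.le.trans ?_)
  have r6 : 0 ≤ (a * b) ^ ε := by positivity
  gcongr

theorem RD.Big.marg {α ι γ δ : Type} [Fintype ι] {d : RD α ι γ δ} {y p C₁ : ℕ}
    {H Λ δ₀ : ℝ} (h : d.Ok6 y p H Λ δ₀ C₁) (hy : 2 ≤ y) {L u : ℕ} {pr : Fin L → Fin u → ℕ}
    {B : Finset ℕ} (hG : d.Grp p pr B) {σ c' s v t : ℝ}
    {V : Finset (α × (Fin L → Fin u) × (Fin L → Fin u))} {R R' : ℕ → Finset (ι → Set V2)}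
    (hV : d.Big pr B σ c' s v t V R R') (hv : 0 < v) (ht : 0 ≤ t) {ε C φ c : ℝ} (hε : 0 ≤ ε)
    (hC : 0 ≤ C) (hCT : CT6 (2 * H ^ 2) ε C) (hφ : 0 ≤ φ) (hc : 0 ≤ c) (k : ι) {E : Finset ℕ}
    (hE : E ⊆ B) (hu : 16 ≤ u) (h1 : (2 * y) ^ (4 * #E) ≤ y ^ (2 * L))
    (h2 : 2 ^ L * (16 / (u : ℝ)) ^ ((L : ℝ) / 2) * (2 * y) ^ (3 * #E) ≤ 1)
    (h3 : ∀ q ∈ E, φ ≤ prb V fun w => (q : ℝ) ^ (c - 3) < prb V fun w' =>
      Pj q (d.gm (bs pr w'.2.1) (bs pr w'.2.2) w'.1 k) =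
        Pj q (d.gm (bs pr w.2.1) (bs pr w.2.2) w.1 k)) :
    Real.exp (φ * #E * (c * Real.log y) - #E) * v ^ 2 ≤
      t ^ 2 * C * 2 ^ #E * 4 ^ (2 * L) * (2 * y : ℝ) ^ (4 * L * ε) + 1 := by
  have hO : (0 : ℝ) < #d.O := by exact_mod_cast h.ne.card_pos
  have hu0 : (0 : ℝ) < u := by exact_mod_cast hG.pos
  have hw0 : 0 < v * #d.O * (u : ℝ) ^ L * (u : ℝ) ^ L := by positivity
  have hne : V.Nonempty := card_pos.1 (Nat.cast_pos.1 (hw0.trans_le hV.card))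
  have hP : ∀ q ∈ E, q.Prime ∧ y < q ∧ q ≤ 2 * y := fun q hq => h.prime q (hG.sub (hE hq))
  have hnb : ∀ q ∈ E, ∀ b, q ∉ bs pr b := fun q hq b hb =>
    disjoint_left.1 (hG.bs b).2.2.2 hb (hE hq)
  have hq1 : ∀ q ∈ E, (1 : ℝ) ≤ q := fun q hq => by exact_mod_cast (hP q hq).1.one_le
  have hqc : ∀ q ∈ E, (q : ℝ) ^ 3 * (q : ℝ) ^ (c - 3) = (q : ℝ) ^ c := fun q hq => by
    have h0 : (0 : ℝ) < q := lt_of_lt_of_le one_pos (hq1 q hq)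
    rw [← Real.rpow_natCast, ← Real.rpow_add h0]
    congr 1
    push_cast
    ring
  have key := collide (Λ := fun _ => Set M2) hne E
    (fun q w => Pj q (d.gm (bs pr w.2.1) (bs pr w.2.2) w.1 k)) (fun q => (q : ℝ) ^ 3)
    (fun q => (q : ℝ) ^ (c - 3)) (fun _ => φ)
    (fun q hq => by
      have e1 := card_Pj (hP q hq).1
        (V.image fun w => d.gm (bs pr w.2.1) (bs pr w.2.2) w.1 k) fun ξ hξ => by
        obtain ⟨w, hw, rfl⟩ := mem_image.1 hξ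
        obtain ⟨b1, -, b2, -⟩ := hG.bs w.2.1
        obtain ⟨b3, -, b4, -⟩ := hG.bs w.2.2
        rw [h.gm_det b1 b2 b3 b4 (hV.mem w hw).1 k, Int.natCast_dvd_natCast,
          (hP q hq).1.dvd_mul, not_or]
        exact ⟨ygf_ndvd (hP q hq).1 (fun l hl => (h.prime l (b1 hl)).1) (hnb q hq _),
          ygf_ndvd (hP q hq).1 (fun l hl => (h.prime l (b3 hl)).1) (hnb q hq _)⟩
      rw [image_image] at e1
      exact_mod_cast e1)
    (fun q hq => ⟨Real.rpow_pos_of_pos (lt_of_lt_of_le one_pos (hq1 q hq)) _, by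
      rw [hqc q hq]; exact Real.one_le_rpow (hq1 q hq) hc⟩) h3
  have hQ1 : ∏ q ∈ E, q ≤ (2 * y) ^ #E := prod_le_pow_card _ _ _ fun q hq => (hP q hq).2.2
  have hQ : (0 : ℝ) < ((∏ q ∈ E, q : ℕ) : ℝ) ^ 3 := by
    have : 0 < ∏ q ∈ E, q := prod_pos fun q hq => (hP q hq).1.pos
    positivity
  have hQ2 : ((∏ q ∈ E, q : ℕ) : ℝ) ^ 3 ≤ (2 * y : ℝ) ^ (3 * #E) := by
    rw [mul_comm 3, pow_mul]
    refine pow_le_pow_left₀ (Nat.cast_nonneg _) ?_ 3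
    exact_mod_cast hQ1
  have hlog : Real.log (((∏ q ∈ E, q : ℕ) : ℝ) ^ 3) = ∑ q ∈ E, Real.log ((q : ℝ) ^ 3) := by
    rw [Nat.cast_prod, ← prod_pow, Real.log_prod]
    intro q hq
    exact (pow_pos (lt_of_lt_of_le one_pos (hq1 q hq)) 3).ne'
  have hs1 : φ * #E * (c * Real.log y) ≤
      ∑ q ∈ E, φ * Real.log ((q : ℝ) ^ 3 * (q : ℝ) ^ (c - 3)) := by
    have e1 : φ * #E * (c * Real.log y) = ∑ q ∈ E, φ * (c * Real.log y) := by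
      rw [sum_const, nsmul_eq_mul]
      ring
    rw [e1]
    refine sum_le_sum fun q hq => mul_le_mul_of_nonneg_left ?_ hφ
    rw [hqc q hq, Real.log_rpow (lt_of_lt_of_le one_pos (hq1 q hq))]
    refine mul_le_mul_of_nonneg_left (Real.log_le_log ?_ ?_) hc
    · exact_mod_cast (by omega : 0 < y)
    · exact_mod_cast (hP q hq).2.1.le
  have hexp : Real.exp (φ * #E * (c * Real.log y) - #E) ≤
      ((∏ q ∈ E, q : ℕ) : ℝ) ^ 3 * Real.exp (∑ q ∈ E, (φ *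
        Real.log ((q : ℝ) ^ 3 * (q : ℝ) ^ (c - 3)) - Real.log ((q : ℝ) ^ 3) - 1)) := by
    rw [← Real.exp_log hQ, ← Real.exp_add, hlog, sum_sub_distrib, sum_sub_distrib, sum_const,
      nsmul_eq_mul, mul_one]
    exact Real.exp_le_exp.2 (by linarith)
  set m : ℝ := t ^ 2 * C * 2 ^ #E * 4 ^ (2 * L) * (2 * y : ℝ) ^ (4 * L * ε) with hm
  have m0 : 0 ≤ m := by positivity
  obtain ⟨W, hW, hW'⟩ : ∃ W : Finset ((α × (Fin L → Fin u) × (Fin L → Fin u)) ×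
      (α × (Fin L → Fin u) × (Fin L → Fin u))), (∀ z ∈ W, z.1 ∈ V ∧ z.2 ∈ V ∧ ∀ q ∈ E,
        Pj q (d.gm (bs pr z.1.2.1) (bs pr z.1.2.2) z.1.1 k) =
          Pj q (d.gm (bs pr z.2.2.1) (bs pr z.2.2.2) z.2.1 k)) ∧
      Real.exp (∑ q ∈ E, (φ * Real.log ((q : ℝ) ^ 3 * (q : ℝ) ^ (c - 3)) -
        Real.log ((q : ℝ) ^ 3) - 1)) * (#V : ℝ) ^ 2 ≤ #W :=
    ⟨_, fun z hz => ⟨(mem_product.1 (mem_filter.1 hz).1).1, (mem_product.1 (mem_filter.1 hz).1).2,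
      (mem_filter.1 hz).2⟩, key⟩
  clear key
  let F : (α × (Fin L → Fin u) × (Fin L → Fin u)) × (α × (Fin L → Fin u) × (Fin L → Fin u)) →
      Fin 4 → Fin L → Fin u := fun z => ![z.1.2.1, z.1.2.2, z.2.2.1, z.2.2.2]
  have k1 : ∀ τ : Fin 4 → Fin L → Fin u,
      ((∏ q ∈ E, q : ℕ) : ℝ) ^ 3 * #{z ∈ W | F z = τ} ≤
      (m + if L ≤ 2 * #{g : Fin L | ¬ Function.Injective fun i => τ i g} then
        (2 * y : ℝ) ^ (3 * #E) else 0) * (#d.O : ℝ) ^ 2 := by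
    intro τ
    have f0 : ∀ z ∈ {z ∈ W | F z = τ}, z ∈ W ∧ z.1.2.1 = τ 0 ∧ z.1.2.2 = τ 1 ∧ z.2.2.1 = τ 2 ∧
        z.2.2.2 = τ 3 := fun z hz => by
      obtain ⟨e1, e2⟩ := mem_filter.1 hz
      exact ⟨e1, congrFun e2 0, congrFun e2 1, congrFun e2 2, congrFun e2 3⟩
    generalize ({z ∈ W | F z = τ} : Finset _) = Z at f0
    have f1 : #Z = #(Z.image fun z => (z.1.1, z.2.1)) := by
      refine (card_image_of_injOn fun z hz z' hz' e => ?_).symm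
      obtain ⟨-, b1, b2, b3, b4⟩ := f0 z hz
      obtain ⟨-, c1, c2, c3, c4⟩ := f0 z' hz'
      have e1 : z.1.1 = z'.1.1 := (Prod.mk.inj e).1
      have e2 : z.2.1 = z'.2.1 := (Prod.mk.inj e).2
      exact Prod.ext (Prod.ext e1 (Prod.ext (b1.trans c1.symm) (b2.trans c2.symm)))
        (Prod.ext e2 (Prod.ext (b3.trans c3.symm) (b4.trans c4.symm)))
    rw [f1]
    split_ifs with hz
    · have f2 : #(Z.image fun z => (z.1.1, z.2.1)) ≤ #(d.O ×ˢ d.O) := by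
        refine card_le_card fun w hw => ?_
        obtain ⟨z, hz, rfl⟩ := mem_image.1 hw
        obtain ⟨b1, b2, -⟩ := hW z (f0 z hz).1
        exact mem_product.2 ⟨(hV.mem _ b1).1, (hV.mem _ b2).1⟩
      rw [card_product, ← sq] at f2
      refine mul_le_mul (hQ2.trans (le_add_of_nonneg_left m0)) ?_ (Nat.cast_nonneg _)
        (by positivity)
      exact_mod_cast f2
    rw [add_zero]
    have e := card_filter_add_card_filter_not (s := (univ : Finset (Fin L)))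
      fun g => Function.Injective fun i => τ i g
    rw [card_univ, Fintype.card_fin] at e
    have ne : ∀ g ∈ ({g : Fin L | Function.Injective fun i => τ i g} : Finset (Fin L)),
        ∀ i j, i ≠ j → τ i g ≠ τ j g := fun g hg i j hij hh => hij ((mem_filter.1 hg).2 hh)
    have a1 := ygf_two hG.inj (τ 0) (τ 1) (τ 2) (τ 3) _ fun g hg =>
      ⟨ne g hg 0 1 (by decide), ne g hg 2 0 (by decide), ne g hg 3 0 (by decide),
        ne g hg 2 1 (by decide), ne g hg 3 1 (by decide)⟩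
    have a2 := ygf_two hG.inj (τ 2) (τ 3) (τ 0) (τ 1) _ fun g hg =>
      ⟨ne g hg 2 3 (by decide), ne g hg 0 2 (by decide), ne g hg 1 2 (by decide),
        ne g hg 0 3 (by decide), ne g hg 1 3 (by decide)⟩
    have gb : ∀ b, bs pr b ⊆ d.P ∧ #(bs pr b) = L ∧ #(bs pr b) ≤ p := fun b =>
      ⟨(hG.bs b).1, (hG.bs b).2.1, (hG.bs b).2.2.1⟩
    have lo : ∀ a b e f : Fin L → Fin u,
        L ≤ #(symmDiff (bs pr a) (bs pr b) \ symmDiff (bs pr e) (bs pr f)) →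
        y ^ L ≤ ∏ l ∈ symmDiff (bs pr a) (bs pr b) \ symmDiff (bs pr e) (bs pr f), l :=
      fun a b e f hh => (Nat.pow_le_pow_right (by omega) hh).trans (xgg_low fun l hl =>
        (h.prime l (union_subset (gb a).1 (gb b).1 (ygf_sd (mem_sdiff.1 hl).1))).2.1)
    refine ygf_good h hy (gb (τ 0)) (gb (τ 1)) (gb (τ 2)) (gb (τ 3))
      (fun q hq => ⟨hG.sub (hE hq), hnb q hq _, hnb q hq _, hnb q hq _, hnb q hq _⟩) ?_
      ht hε hC hCT k _ fun w hw => ?_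
    · refine (Nat.pow_le_pow_left hQ1 4).trans ?_
      rw [← pow_mul, mul_comm _ 4]
      refine h1.trans ?_
      rw [two_mul, pow_add]
      exact Nat.mul_le_mul (lo _ _ _ _ (by omega)) (lo _ _ _ _ (by omega))
    · obtain ⟨z, hz, rfl⟩ := mem_image.1 hw
      obtain ⟨b0, b1, b2, b3, b4⟩ := f0 z hz
      obtain ⟨c1, c2, c3⟩ := hW z b0
      rw [← b1, ← b2, ← b3, ← b4]
      exact ⟨⟨(hV.mem _ c1).1, (hV.mem _ c1).2, hV.typ _ c1 k⟩,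
        ⟨(hV.mem _ c2).1, (hV.mem _ c2).2, hV.typ _ c2 k⟩, c3⟩
  have k2 : ((∏ q ∈ E, q : ℕ) : ℝ) ^ 3 * #W ≤
      (m + 1) * ((u : ℝ) ^ L) ^ 4 * (#d.O : ℝ) ^ 2 := by
    rw [card_eq_sum_card_fiberwise (f := F) (s := W) (t := univ) fun z _ => mem_univ _,
      Nat.cast_sum, mul_sum]
    refine (sum_le_sum fun τ _ => k1 τ).trans ?_
    rw [← sum_mul, sum_add_distrib, sum_const, ← sum_filter, sum_const, nsmul_eq_mul,
      nsmul_eq_mul]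
    refine mul_le_mul_of_nonneg_right ?_ (by positivity)
    have e : (#(univ : Finset (Fin 4 → Fin L → Fin u)) : ℝ) = ((u : ℝ) ^ L) ^ 4 := by simp
    have e2 := xgg_over (L := L) (u := u) (r := 4) hG.pos (by omega)
    have e3 : ((4 : ℕ) : ℝ) ^ 2 = 16 := by norm_num
    rw [e3] at e2
    have e4 := mul_le_mul_of_nonneg_right e2 (show (0 : ℝ) ≤ (2 * y : ℝ) ^ (3 * #E) by positivity)
    have e5 := mul_le_mul_of_nonneg_right h2 (show (0 : ℝ) ≤ ((u : ℝ) ^ L) ^ 4 by positivity)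
    rw [e]
    nlinarith
  have k3 : (v * #d.O * (u : ℝ) ^ L * (u : ℝ) ^ L) ^ 2 ≤ (#V : ℝ) ^ 2 :=
    pow_le_pow_left₀ hw0.le hV.card 2
  have k4 : Real.exp (φ * #E * (c * Real.log y) - #E) *
      (v * #d.O * (u : ℝ) ^ L * (u : ℝ) ^ L) ^ 2 ≤
      (m + 1) * ((u : ℝ) ^ L) ^ 4 * (#d.O : ℝ) ^ 2 :=
    calc _ ≤ _ := mul_le_mul hexp k3 (sq_nonneg _) (by positivity)
      _ = _ := mul_assoc _ _ _
      _ ≤ _ := mul_le_mul_of_nonneg_left hW' hQ.le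
      _ ≤ _ := k2
  refine le_of_mul_le_mul_right (a := ((u : ℝ) ^ L) ^ 4 * (#d.O : ℝ) ^ 2) ?_ (by positivity)
  calc _ = Real.exp (φ * #E * (c * Real.log y) - #E) *
      (v * #d.O * (u : ℝ) ^ L * (u : ℝ) ^ L) ^ 2 := by ring
    _ ≤ _ := k4
    _ = _ := mul_assoc _ _ _

end Pool.Agent.EQ
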