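import Pool.Agent.P.MP_ad7a55_nt.YGa
import Pool.Agent.P.MP_ad7a55_nt.XGc

/-! Graphs give integral correspondences. -/

set_option autoImplicit false

noncomputable section

open Finset Matrix
open scoped MatrixGroups Classical

namespace Pool.Agent.EQ

theorem ygg_mf {α : Type} {p : α → Prop} {inst : DecidablePred p} {s : Finset α} {a : α}
    (h : a ∈ @Finset.filter α p inst s) : a ∈ s ∧ p a := mem_filter.1 h

theorem ygg_sum {α 𝔅 : Type} [Fintype 𝔅] (O : Finset α) (V : Finset (α × 𝔅 × 𝔅))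
    (hV : ∀ w ∈ V, w.1 ∈ O) :
    ∑ a ∈ O ×ˢ (univ : Finset 𝔅), (#{b' : 𝔅 | (a.1, a.2, b') ∈ V} : ℝ) = #V := by
  rw [card_eq_sum_card_fiberwise (s := V) (t := O ×ˢ (univ : Finset 𝔅))
    (f := fun w => (w.1, w.2.1)) (fun w hw => mem_coe.2 (mem_product.2
      ⟨hV w (mem_coe.1 hw), mem_univ _⟩)), Nat.cast_sum]
  refine sum_congr rfl fun a _ => congrArg _ ?_
  refine card_bij (fun b' _ => (a.1, a.2, b')) (fun b' hb => ?_) (fun b₁ _ b₂ _ e => ?_)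
    fun w hw => ?_
  · exact mem_filter.2 ⟨(mem_filter.1 hb).2, rfl⟩
  · exact congrArg (fun z => z.2.2) e
  · obtain ⟨h1, rfl⟩ := mem_filter.1 hw
    exact ⟨w.2.2, mem_filter.2 ⟨mem_univ _, h1⟩, rfl⟩

theorem ygg_un {L u : ℕ} {pr : Fin L → Fin u → ℕ}
    (hi : Function.Injective fun z : Fin L × Fin u => pr z.1 z.2) {r : ℕ}
    (s : Fin (r + 1) → Fin L → Fin u)
    (h : ¬ L ≤ 2 * #{g : Fin L | ¬ Function.Injective fun i => s i g}) :
    r * L ≤ 2 * #((univ.biUnion fun i : Fin r => bs pr (s i.succ)) \ bs pr (s 0)) := by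
  have e := card_filter_add_card_filter_not (s := (univ : Finset (Fin L)))
    fun g => Function.Injective fun i => s i g
  rw [card_univ, Fintype.card_fin] at e
  have k : #((univ : Finset (Fin r)) ×ˢ
      ({g : Fin L | Function.Injective fun i => s i g} : Finset (Fin L))) ≤
      #((univ.biUnion fun i : Fin r => bs pr (s i.succ)) \ bs pr (s 0)) := by
    refine card_le_card_of_injOn (fun z => pr z.2 (s z.1.succ z.2)) (fun z hz => ?_)
      fun z hz z' _ e => ?_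
    · refine mem_coe.2 (mem_sdiff.2 ⟨mem_biUnion.2 ⟨z.1, mem_univ _,
        mem_image_of_mem _ (mem_univ z.2)⟩, fun k => ?_⟩)
      obtain ⟨g', -, e⟩ := mem_image.1 k
      have e1 : (g', s 0 g') = (z.2, s z.1.succ z.2) := hi e
      have e2 : g' = z.2 := congrArg Prod.fst e1
      have e3 : s 0 g' = s z.1.succ z.2 := congrArg Prod.snd e1
      rw [e2] at e3
      exact Fin.succ_ne_zero _ ((mem_filter.1 (mem_product.1 (mem_coe.1 hz)).2).2 e3).symm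
    · have e1 : (z.2, s z.1.succ z.2) = (z'.2, s z'.1.succ z'.2) := hi e
      have e2 : z.2 = z'.2 := congrArg Prod.fst e1
      have e3 : s z.1.succ z.2 = s z'.1.succ z'.2 := congrArg Prod.snd e1
      rw [← e2] at e3
      exact Prod.ext (Fin.succ_injective _
        ((mem_filter.1 (mem_product.1 (mem_coe.1 hz)).2).2 e3)) e2
  rw [card_product, card_univ, Fintype.card_fin] at k
  have : L ≤ 2 * #{g : Fin L | Function.Injective fun i => s i g} := by omega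
  nlinarith

theorem ygg_count {α σ : Type} [Fintype σ] (O : Finset α) (bad : σ → Prop) [DecidablePred bad]
    (P : σ → α → Prop) {m : ℝ} (hm : 0 ≤ m) (h : ∀ s, ¬ bad s → prb O (P s) ≤ m)
    (T : Finset (σ × α)) (hT : ∀ z ∈ T, z.2 ∈ O ∧ P z.1 z.2) :
    (#T : ℝ) ≤ (#{s | bad s} + m * Fintype.card σ) * #O := by
  rw [card_eq_sum_card_fiberwise (s := T) (t := (univ : Finset σ)) (f := Prod.fst)
    (fun _ _ => mem_coe.2 (mem_univ _)), Nat.cast_sum]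
  have k : ∀ s : σ, (#{z ∈ T | z.1 = s} : ℝ) ≤ ((if bad s then 1 else 0) + m) * #O := by
    intro s
    have k1 : #{z ∈ T | z.1 = s} ≤ #{x ∈ O | P s x} := by
      refine card_le_card_of_injOn Prod.snd (fun z hz => ?_) fun z hz z' hz' e => ?_
      · obtain ⟨a, rfl⟩ := mem_filter.1 (mem_coe.1 hz)
        exact mem_coe.2 (mem_filter.2 (hT z a))
      · exact Prod.ext ((mem_filter.1 (mem_coe.1 hz)).2.trans
          (mem_filter.1 (mem_coe.1 hz')).2.symm) e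
    refine (Nat.cast_le.2 k1).trans ?_
    have h0 : (0 : ℝ) ≤ #O := Nat.cast_nonneg _
    split_ifs with hs
    · have : (#{x ∈ O | P s x} : ℝ) ≤ #O := Nat.cast_le.2 (card_filter_le _ _)
      nlinarith
    · have k2 := h s hs
      rw [zero_add]
      rcases h0.eq_or_lt with e | e
      · rw [card_eq_zero.1 (Nat.cast_eq_zero.1 e.symm)]
        simp
      · unfold prb at k2
        exact (div_le_iff₀ e).1 k2
  refine (sum_le_sum fun s _ => k s).trans (le_of_eq ?_)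
  rw [← sum_mul, sum_add_distrib, sum_boole, sum_const, card_univ, nsmul_eq_mul, mul_comm m]

theorem RD.Ok6.ygg_abs {α ι γ δ : Type} [Fintype ι] {d : RD α ι γ δ} {y p C₁ : ℕ}
    {H Λ δ₀ : ℝ} (h : d.Ok6 y p H Λ δ₀ C₁) {L u : ℕ}
    {pr : Fin L → Fin u → ℕ} {B : Finset ℕ} (hG : d.Grp p pr B) {b b' : Fin L → Fin u} {x : α}
    (hx : x ∈ d.O) (hg : d.G2 (bs pr b) (bs pr b') x) (c : ι) (i j : Fin 2) :
    |d.gm (bs pr b) (bs pr b') x c i j| ≤ (⌈2 * H ^ 2 * (2 * (y : ℝ)) ^ L⌉₊ : ℕ) := by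
  obtain ⟨a1, a2, a3, -⟩ := hG.bs b
  obtain ⟨b1, b2, b3, -⟩ := hG.bs b'
  have k := (h.gm_div a1 a3 b1 b3 hx hg c).1 i j
  have p1 : ∏ l ∈ bs pr b, l ≤ (2 * y) ^ L := by
    have := prod_le_pow_card (bs pr b) (fun l => l) (2 * y) fun l hl => (h.prime l (a1 hl)).2.2
    rwa [a2] at this
  have p2 : ∏ l ∈ bs pr b', l ≤ (2 * y) ^ L := by
    have := prod_le_pow_card (bs pr b') (fun l => l) (2 * y) fun l hl => (h.prime l (b1 hl)).2.2
    rwa [b2] at this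
  have p3 : Real.sqrt ((∏ l ∈ bs pr b, l) * ∏ l ∈ bs pr b', l : ℕ) ≤ (2 * (y : ℝ)) ^ L := by
    rw [Real.sqrt_le_left (by positivity), sq]
    exact_mod_cast Nat.mul_le_mul p1 p2
  have k2 : |(d.gm (bs pr b) (bs pr b') x c i j : ℝ)| ≤
      (⌈2 * H ^ 2 * (2 * (y : ℝ)) ^ L⌉₊ : ℕ) :=
    k.trans ((mul_le_mul_of_nonneg_left p3 (by positivity)).trans (Nat.le_ceil _))
  exact_mod_cast k2

theorem RD.Ok6.ygg_xc {α ι γ δ : Type} [Fintype ι] {d : RD α ι γ δ} {y p C₁ : ℕ}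
    {H Λ δ₀ : ℝ} (h : d.Ok6 y p H Λ δ₀ C₁) {L u : ℕ}
    {pr : Fin L → Fin u → ℕ} {B : Finset ℕ} (hG : d.Grp p pr B) {k l : ι} {r : ℕ}
    {b : Fin L → Fin u} {t : Fin r → Fin L → Fin u} {x : α} (hx : x ∈ d.O)
    (hg : ∀ i, d.G2 (bs pr b) (bs pr (t i)) x) (T : Finset ℕ) (X X' : ℕ → M2)
    (hT : ∀ q ∈ T, q ∈ B ∧ ¬ (q : ℤ) ∣ (X q).det ∧ ∀ s i j, (q : ℤ) ∣
      (d.gm (bs pr b) (bs pr (t s)) x l * X q - X' q * d.gm (bs pr b) (bs pr (t s)) x k) i j)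
    (hc : 16 * L + 1 ≤ #T)
    (h2 : 8 * (2 * H ^ 2 * (2 * y) ^ L) + 9 ≤ (y : ℝ) ^ (2 * L)) :
    Xc (2 * y * ((y : ℝ) ^ (2 * L)) ^ 7) (d.K (d.π (bs pr b) x) k) (d.K (d.π (bs pr b) x) l)
      ((univ.biUnion fun i => bs pr (t i)) \ bs pr b) := by
  obtain ⟨N, hNd⟩ : ∃ N : ℕ, N = ⌈2 * H ^ 2 * (2 * (y : ℝ)) ^ L⌉₊ := ⟨_, rfl⟩
  have hN : 8 * N + 1 ≤ y ^ (2 * L) := by
    have h3 := Nat.ceil_lt_add_one (show 0 ≤ 2 * H ^ 2 * (2 * (y : ℝ)) ^ L by positivity)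
    rw [← hNd] at h3
    have h5 : ((8 * N + 1 : ℕ) : ℝ) ≤ ((y ^ (2 * L) : ℕ) : ℝ) := by
      push_cast
      linarith
    exact_mod_cast h5
  have hP : ∀ q ∈ T, q.Prime ∧ y < q ∧ q ≤ 2 * y := fun q hq => h.prime q (hG.sub (hT q hq).1)
  have hbig : (8 * N + 1) ^ 8 < ∏ q ∈ T, q := by
    have h3 : (y + 1) ^ #T ≤ ∏ q ∈ T, q := pow_card_le_prod T _ _ fun q hq => (hP q hq).2.1
    have h4 : (y + 1) ^ (16 * L + 1) ≤ (y + 1) ^ #T := Nat.pow_le_pow_right (by omega) hc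
    have h5 : (y ^ (2 * L)) ^ 8 ≤ (y + 1) ^ (16 * L) := by
      rw [← pow_mul, show 2 * L * 8 = 16 * L by ring]
      exact Nat.pow_le_pow_left (by omega) _
    have hy : 0 < y := by
      obtain ⟨q, hq⟩ := card_pos.1 (show 0 < #T by omega)
      have := hP q hq
      omega
    have h6 : (y + 1) ^ (16 * L) < (y + 1) ^ (16 * L + 1) :=
      Nat.pow_lt_pow_right (by omega) (by omega)
    exact (((Nat.pow_le_pow_left hN 8).trans h5).trans_lt h6).trans_le (h4.trans h3)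
  obtain ⟨Z, Z', z1, z2, z3⟩ := tv (fun s => d.gm (bs pr b) (bs pr (t s)) x k)
    (fun s => d.gm (bs pr b) (bs pr (t s)) x l) (H := N) (Y := 2 * y) T X X'
    (fun q hq => ⟨(hP q hq).1, (hP q hq).2.2, (hT q hq).2.1, (hT q hq).2.2⟩)
    (fun s i j => by
      rw [hNd]
      exact ⟨h.ygg_abs hG hx (hg s) k i j, h.ygg_abs hG hx (hg s) l i j⟩) hbig
  refine ⟨Z, z1, fun i j => ?_, fun q hq v hv => ?_⟩
  · have h3 : ((8 * N + 1 : ℕ) : ℤ) ≤ ((y ^ (2 * L) : ℕ) : ℤ) := Int.ofNat_le.2 hN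
    have h4 : |Z i j| ≤ 2 * (y : ℤ) * ((y : ℤ) ^ (2 * L)) ^ 7 := by
      refine (z2 i j).trans ?_
      push_cast at h3 ⊢
      exact mul_le_mul_of_nonneg_left (pow_le_pow_left₀ (by positivity) h3 7) (by positivity)
    exact_mod_cast h4
  · obtain ⟨hq1, hq2⟩ := mem_sdiff.1 hq
    obtain ⟨s, _, hs⟩ := mem_biUnion.1 hq1
    obtain ⟨a1, -, a3, -⟩ := hG.bs b
    obtain ⟨b1, -, b3, -⟩ := hG.bs (t s)
    rw [← (h.gm_ker a1 a3 b1 b3 hx (hg s) k).1 q (mem_sdiff.2 ⟨hs, hq2⟩)] at hv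
    rw [← (h.gm_ker a1 a3 b1 b3 hx (hg s) l).1 q (mem_sdiff.2 ⟨hs, hq2⟩)]
    exact xgf_ker (z3 s) hv

theorem RD.Big.xc {α ι γ δ : Type} [Fintype ι] {d : RD α ι γ δ} {y p C₁ : ℕ}
    {H Λ δ₀ : ℝ} (h : d.Ok6 y p H Λ δ₀ C₁) (hy : 2 ≤ y) (hΛ : 0 ≤ Λ) {L u : ℕ}
    {pr : Fin L → Fin u → ℕ} {B : Finset ℕ} (hG : d.Grp p pr B) {σ c s v t : ℝ}
    {V : Finset (α × (Fin L → Fin u) × (Fin L → Fin u))} {R R' : ℕ → Finset (ι → Set V2)}
    (hV : d.Big pr B σ c s v t V R R') (hv : 0 ≤ v) {k l : ι} (hkl : k ≠ l) {B' : Finset ℕ}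
    (hB' : B' ⊆ B) {e : ℝ} (he : 0 < e)
    (h1 : ∀ q ∈ B', ∃ X X' : M2, ¬ (q : ℤ) ∣ X.det ∧ e * #V ≤ #{w ∈ V | ∀ i j, (q : ℤ) ∣
      (d.gm (bs pr w.2.1) (bs pr w.2.2) w.1 l * X -
        X' * d.gm (bs pr w.2.1) (bs pr w.2.2) w.1 k) i j})
    {r : ℕ} (hr : 0 < r) (hu : (r + 1) ^ 2 ≤ u) (hp : r * L ≤ p)
    (h2 : 8 * (2 * H ^ 2 * (2 * y) ^ L) + 9 ≤ (y : ℝ) ^ (2 * L))
    (h3 : (16 * L + 1 : ℝ) ≤ (e / 8) ^ (r + 1) / 2 * #B')
    (h4 : 2 * y * ((y : ℝ) ^ (2 * L)) ^ 7 ≤ (y : ℝ) ^ p) :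
    ((e / 8) ^ 2 * v) ^ r ≤ 2 ^ L * (((r : ℝ) + 1) ^ 2 / u) ^ ((L : ℝ) / 2) +
      Λ * (2 * y * ((y : ℝ) ^ (2 * L)) ^ 7) ^ C₁ / (y : ℝ) ^ ((r : ℝ) * L / 2) := by
  have hX0 : ∀ q : ℕ, ∃ (X X' : M2) (Vq : Finset (α × (Fin L → Fin u) × (Fin L → Fin u))),
      Vq ⊆ V ∧ (q ∈ B' → ¬ (q : ℤ) ∣ X.det ∧ e * #V ≤ #Vq) ∧ ∀ x b b', (x, b, b') ∈ Vq → ∀ i j,
        (q : ℤ) ∣ (d.gm (bs pr b) (bs pr b') x l * X - X' * d.gm (bs pr b) (bs pr b') x k) i j :=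
    fun q => by
    by_cases hq : q ∈ B'
    · obtain ⟨X, X', a1, a2⟩ := h1 q hq
      exact ⟨X, X', _, fun w hw => (ygg_mf hw).1, fun _ => ⟨a1, a2⟩,
        fun x b b' hw => (ygg_mf hw).2⟩
    · exact ⟨0, 0, ∅, empty_subset _, fun h => absurd h hq, fun x b b' hw => absurd hw
        (notMem_empty _)⟩
  choose X X' Vq hsub hX hVq using hX0
  have hBne : B'.Nonempty := by
    rw [nonempty_iff_ne_empty]
    rintro rfl
    rw [card_empty, Nat.cast_zero, mul_zero] at h3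
    have : (0 : ℝ) ≤ L := Nat.cast_nonneg _
    linarith
  have hu0 : (0 : ℝ) < u := Nat.cast_pos.2 hG.pos
  have hO : (0 : ℝ) < #d.O := Nat.cast_pos.2 h.ne.card_pos
  have hy1 : (1 : ℝ) ≤ y := by exact_mod_cast (by omega : 1 ≤ y)
  have hc : (Fintype.card (Fin L → Fin u) : ℝ) = (u : ℝ) ^ L := by simp
  have hA : (#(d.O ×ˢ (univ : Finset (Fin L → Fin u))) : ℝ) = #d.O * (u : ℝ) ^ L := by
    rw [card_product, card_univ, Nat.cast_mul, hc]
  have key := fib_tuples (d.O ×ˢ (univ : Finset (Fin L → Fin u)))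
    (fun a => ({b' : Fin L → Fin u | (a.1, a.2, b') ∈ V} : Finset _))
    (fun q a => ({b' : Fin L → Fin u | (a.1, a.2, b') ∈ Vq q} : Finset _)) he hv hBne hr
    (fun q _ a _ b' hb => mem_filter.2 ⟨mem_univ _, hsub q (mem_filter.1 hb).2⟩)
    (fun q hq => by
      have e1 := ygg_sum d.O V fun w hw => (hV.mem w hw).1
      have e2 := ygg_sum d.O (Vq q) fun w hw => (hV.mem w (hsub q hw)).1
      refine le_trans (le_of_eq (congrArg _ ?_)) ((hX q hq).2.trans (le_of_eq ?_))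
      · refine Eq.trans (sum_congr rfl fun a _ => congrArg _ (congrArg _ ?_)) e1
        ext b'
        simp only [mem_filter]
      · refine Eq.trans e2.symm (sum_congr rfl fun a _ => congrArg _ (congrArg _ ?_))
        ext b'
        simp only [mem_filter])
    (by
      have e1 := ygg_sum d.O V fun w hw => (hV.mem w hw).1
      rw [hA, hc, ← mul_assoc]
      refine hV.card.trans (le_of_eq ?_)
      refine Eq.trans e1.symm (sum_congr rfl fun a _ => congrArg _ (congrArg _ ?_))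
      ext b'
      simp only [mem_filter])
  obtain ⟨Z₀, hZ⟩ : ∃ Z₀ : ℝ, Z₀ = 2 * y * ((y : ℝ) ^ (2 * L)) ^ 7 := ⟨_, rfl⟩
  have hZ1 : 1 ≤ Z₀ := by
    have : (1 : ℝ) ≤ ((y : ℝ) ^ (2 * L)) ^ 7 := one_le_pow₀ (one_le_pow₀ hy1)
    rw [hZ]
    nlinarith
  obtain ⟨m, hm⟩ : ∃ m : ℝ, m = Λ * Z₀ ^ C₁ / (y : ℝ) ^ ((r : ℝ) * L / 2) := ⟨_, rfl⟩
  have m0 : 0 ≤ m := by
    rw [hm]
    positivity
  rw [← hZ, ← hm]
  have hgood : ∀ s : Fin (r + 1) → Fin L → Fin u,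
      ¬ L ≤ 2 * #{g : Fin L | ¬ Function.Injective fun i => s i g} →
      prb d.O (fun x => d.In (d.π (bs pr (s 0)) x) ∧
        Xc Z₀ (d.K (d.π (bs pr (s 0)) x) k) (d.K (d.π (bs pr (s 0)) x) l)
          ((univ.biUnion fun i : Fin r => bs pr (s i.succ)) \ bs pr (s 0))) ≤ m := by
    intro s hs
    obtain ⟨a1, -, a3, -⟩ := hG.bs (s 0)
    have hU : (univ.biUnion fun i : Fin r => bs pr (s i.succ)) \ bs pr (s 0) ⊆ d.P :=
      sdiff_subset.trans (biUnion_subset.2 fun i _ => (hG.bs _).1)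
    have hUp : #((univ.biUnion fun i : Fin r => bs pr (s i.succ)) \ bs pr (s 0)) ≤ p := by
      refine (card_le_card sdiff_subset).trans (card_biUnion_le.trans (le_trans ?_ hp))
      refine (sum_le_card_nsmul _ _ L fun i _ => xgg_bs _).trans (le_of_eq ?_)
      rw [card_univ, Fintype.card_fin, smul_eq_mul]
    refine (pb_perm (h.maps _ a1 a3) (h.inj _ a1 a3) fun x => d.In x ∧ Xc Z₀ (d.K x k) (d.K x l)
      ((univ.biUnion fun i : Fin r => bs pr (s i.succ)) \ bs pr (s 0))).trans_le ?_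
    refine (h.xc k l hkl _ hU hUp Z₀ hZ1 (hZ ▸ h4)).trans ?_
    rw [hm]
    refine div_le_div_of_nonneg_left (by positivity) (by positivity) ?_
    have k1 := (Nat.cast_le (α := ℝ)).2 (ygg_un hG.inj s hs)
    have k2 := (Nat.cast_le (α := ℝ)).2 (xgg_low (y := y) fun l hl => (h.prime l (hU hl)).2.1)
    refine le_trans ?_ k2
    rw [Nat.cast_pow, ← Real.rpow_natCast]
    refine Real.rpow_le_rpow_of_exponent_le hy1 ?_
    push_cast at k1
    linarith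
  have hov := xgg_over (L := L) (r := r + 1) hG.pos hu
  push_cast at hov
  have hcard : (Fintype.card (Fin (r + 1) → Fin L → Fin u) : ℝ) = ((u : ℝ) ^ L) ^ (r + 1) := by
    simp
  rw [hA, hc] at key
  have hfin : ∀ S : Finset ((α × (Fin L → Fin u)) × (Fin r → Fin L → Fin u)),
      (∀ z ∈ S, z.1.1 ∈ d.O ∧ (∀ i, (z.1.1, z.1.2, z.2 i) ∈ V) ∧ ∃ T : Finset ℕ,
        16 * L + 1 ≤ #T ∧ ∀ q ∈ T, q ∈ B' ∧ ∀ i, (z.1.1, z.1.2, z.2 i) ∈ Vq q) →
      (#S : ℝ) ≤ (2 ^ L * (((r : ℝ) + 1) ^ 2 / u) ^ ((L : ℝ) / 2) + m) *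
        (((u : ℝ) ^ L) ^ (r + 1) * #d.O) := by
    intro S hS
    have e1 : #S = #(S.image fun z =>
        ((Fin.cons z.1.2 z.2 : Fin (r + 1) → Fin L → Fin u), z.1.1)) := by
      refine (card_image_of_injective _ fun z z' e => ?_).symm
      have e1 : (Fin.cons z.1.2 z.2 : Fin (r + 1) → Fin L → Fin u) = Fin.cons z'.1.2 z'.2 :=
        congrArg Prod.fst e
      have e2 : z.1.1 = z'.1.1 := congrArg Prod.snd e
      obtain ⟨e3, e4⟩ := Fin.cons_inj.1 e1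
      exact Prod.ext (Prod.ext e2 e3) e4
    rw [e1]
    refine (ygg_count d.O _ _ m0 hgood _ fun w hw => ?_).trans ?_
    · obtain ⟨z, hz, rfl⟩ := mem_image.1 hw
      obtain ⟨s1, s2, T, s3, s4⟩ := hS z hz
      simp only [Fin.cons_zero, Fin.cons_succ]
      refine ⟨s1, (hV.mem _ (s2 ⟨0, hr⟩)).2.2.1, ?_⟩
      rw [hZ]
      refine h.ygg_xc hG s1 (fun i => (hV.mem _ (s2 i)).2) T X X' (fun q hq => ?_) s3 h2
      exact ⟨hB' (s4 q hq).1, (hX q (s4 q hq).1).1, fun i => hVq q _ _ _ ((s4 q hq).2 i)⟩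
    · rw [hcard, ← mul_assoc]
      refine mul_le_mul_of_nonneg_right ?_ hO.le
      rw [add_mul]
      exact add_le_add hov le_rfl
  have hle := key.trans (hfin _ fun z hz => by
    obtain ⟨z1, z2, z3⟩ := ygg_mf hz
    refine ⟨(mem_product.1 (mem_product.1 z1).1).1, fun i => (ygg_mf (z2 i)).2, _,
      by exact_mod_cast h3.trans z3, fun q hq => ?_⟩
    obtain ⟨q1, q2⟩ := ygg_mf hq
    exact ⟨q1, fun i => (ygg_mf (q2 i)).2⟩)
  refine le_of_mul_le_mul_right (le_trans (le_of_eq ?_) hle)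
    (show (0 : ℝ) < ((u : ℝ) ^ L) ^ (r + 1) * #d.O by positivity)
  ring

end Pool.Agent.EQ
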