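import Pool.Agent.P.MP_ad7a55_nt.YGb
import Pool.Agent.P.MP_ad7a55_nt.YGf
import Pool.Agent.P.MP_ad7a55_nt.YGg
import Pool.Agent.P.MP_ad7a55_nt.YGi

/-! Large intersections are impossible. -/

set_option autoImplicit false

noncomputable section

open Finset Matrix
open scoped MatrixGroups Classical

namespace Pool.Agent.EQ

theorem ygh_lrg {W : Type} {V : Finset W} {B : Finset ℕ} (hV : V.Nonempty) (hB : B.Nonempty)
    (g : W → ℕ → Prop) {s : ℝ} (hs : 0 ≤ s) (h : ∀ w ∈ V, 2 * s ≤ prb B (g w)) :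
    s * #B ≤ #{q ∈ B | s ≤ prb V fun w => g w q} := by
  have hn : (0 : ℝ) < #B := by exact_mod_cast hB.card_pos
  have h1 : 2 * s ≤ mn B fun q => prb V fun w => g w q := by
    have h2 : mn V (fun _ => 2 * s) ≤ mn V fun w => mn B fun q => if g w q then (1 : ℝ) else 0 :=
      mn_mono fun w hw => (h w hw).trans_eq (pb_eq B (g w))
    rw [mn_const hV, mn_swap] at h2
    refine h2.trans_eq (congrArg _ (funext fun q => ?_))
    rw [pb_eq]
  have h3 := pb_rev (O := B) (G := fun q => prb V fun w => g w q) (B := 1) (t := s) one_pos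
    (fun q _ => pb_le_one _ _) hs
  have h4 : s ≤ prb B fun q => s ≤ prb V fun w => g w q := by linarith
  unfold prb at h4
  rw [le_div_iff₀ hn] at h4
  refine h4.trans_eq ?_
  rw [Nat.cast_inj]
  exact congrArg _ (Finset.filter_congr_decidable ..)

theorem ygh_pig {κ : Type} [Fintype κ] [Nonempty κ] (S : Finset ℕ) (T : κ → Finset ℕ)
    (h : ∀ q ∈ S, ∃ z, q ∈ T z) : ∃ z, (#S : ℝ) ≤ Fintype.card κ * #(T z) := by
  obtain ⟨z, -, hz⟩ := Finset.exists_max_image (univ : Finset κ) (fun z => #(T z)) univ_nonempty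
  refine ⟨z, ?_⟩
  have h1 : #S ≤ ∑ z : κ, #(T z) :=
    (Finset.card_le_card fun q hq => by
      obtain ⟨z, hz⟩ := h q hq
      exact Finset.mem_biUnion.2 ⟨z, Finset.mem_univ _, hz⟩).trans Finset.card_biUnion_le
  have h2 : ∑ z : κ, #(T z) ≤ Fintype.card κ * #(T z) := by
    refine (Finset.sum_le_card_nsmul _ _ _ hz).trans_eq ?_
    rw [Finset.card_univ, smul_eq_mul]
  exact_mod_cast h1.trans h2

theorem ygh_sub {ι : Type} [Fintype ι] (S : Finset ℕ) (D : ι → Finset ℕ) {b : ℕ}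
    (h : ∀ k, #(D k) ≤ b) :
    (#S : ℝ) ≤ #{q ∈ S | ∀ k, q ∉ D k} + Fintype.card ι * b := by
  have h1 : S ⊆ {q ∈ S | ∀ k, q ∉ D k} ∪ univ.biUnion D := fun q hq => by
    by_cases h2 : ∀ k, q ∉ D k
    · exact Finset.mem_union_left _ (Finset.mem_filter.2 ⟨hq, h2⟩)
    · push Not at h2
      obtain ⟨k, hk⟩ := h2
      exact Finset.mem_union_right _ (Finset.mem_biUnion.2 ⟨k, Finset.mem_univ _, hk⟩)
  have h2 : #(univ.biUnion D) ≤ Fintype.card ι * b := by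
    refine Finset.card_biUnion_le.trans ((Finset.sum_le_card_nsmul _ _ b fun k _ => h k).trans_eq ?_)
    rw [Finset.card_univ, smul_eq_mul]
  have h3 := (Finset.card_le_card h1).trans (Finset.card_union_le _ _)
  exact_mod_cast h3.trans (Nat.add_le_add_left h2 _)

theorem ygh_light {W ι : Type} [Fintype ι] (V : Finset W) (g : W → Prop) (F : ι → W → ℝ)
    {s φ a : ℝ} (h1 : s ≤ prb V g) (h2 : ∀ k, prb V (fun w => a < F k w) ≤ φ) :
    s - Fintype.card ι * φ ≤ prb V fun w => (∀ k, F k w ≤ a) ∧ g w := by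
  have h3 := pb_exists V (univ : Finset ι) fun k w => a < F k w
  have h4 : ∑ k : ι, prb V (fun w => a < F k w) ≤ Fintype.card ι * φ := by
    refine (Finset.sum_le_card_nsmul _ _ φ fun k _ => h2 k).trans_eq ?_
    rw [Finset.card_univ, nsmul_eq_mul]
  have h5 := pb_sub V g fun w => ∃ k ∈ (univ : Finset ι), a < F k w
  have h6 : prb V (fun w => g w ∧ ¬ ∃ k ∈ (univ : Finset ι), a < F k w) ≤
      prb V fun w => (∀ k, F k w ≤ a) ∧ g w :=
    pb_mono fun w _ hw => ⟨fun k => not_lt.1 fun hk => hw.2 ⟨k, Finset.mem_univ _, hk⟩, hw.1⟩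
  linarith

theorem ygh_ndvd {q : ℕ} (hq : q.Prime) {β β' : Finset ℕ} (h : ∀ l ∈ β, l.Prime)
    (h' : ∀ l ∈ β', l.Prime) (hb : q ∉ β) (hb' : q ∉ β') :
    ¬ (q : ℤ) ∣ (((∏ l ∈ β, l) * ∏ l ∈ β', l : ℕ) : ℤ) := by
  rw [Int.natCast_dvd_natCast, hq.dvd_mul, hq.prime.dvd_finsetProd_iff,
    hq.prime.dvd_finsetProd_iff]
  rintro (⟨l, hl, e⟩ | ⟨l, hl, e⟩)
  · exact hb (((Nat.prime_dvd_prime_iff_eq hq (h l hl)).1 e) ▸ hl)
  · exact hb' (((Nat.prime_dvd_prime_iff_eq hq (h' l hl)).1 e) ▸ hl)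

theorem RD.Big.false {α ι γ δ : Type} [Fintype ι] [Nonempty ι] {d : RD α ι γ δ} {y p C₁ : ℕ}
    {H Λ δ₀ : ℝ} (h : d.Ok6 y p H Λ δ₀ C₁) (hΛ : 0 < Λ) {L u : ℕ} {pr : Fin L → Fin u → ℕ}
    {B : Finset ℕ} (hG : d.Grp p pr B) {σ c₀ c e ε C I θ : ℝ} {q₀ r b : ℕ} (hθ : 0 < θ)
    (hc : 0 ≤ c) (he : 0 ≤ e) (hε : 0 ≤ ε) (hC : 0 ≤ C) (hGL : GLQ ι c₀ c e q₀)
    (hCT : CT6 (2 * H ^ 2) ε C) (hσ : σ ≤ Fintype.card ι - c₀)
    {V : Finset (α × (Fin L → Fin u) × (Fin L → Fin u))} {R R' : ℕ → Finset (ι → Set V2)}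
    (hV : d.Big pr B σ c (θ ^ 4 / 16) (θ ^ 4 / 32 * Real.exp (-(2 * I)))
      (32 * Fintype.card ι * Λ / θ ^ 4) V R R')
    (hN : Num6 (Fintype.card ι) y L u r b (#B) p q₀ C₁ H Λ θ c e ε C I) : False := by
  have hy := hN.y₂
  have hm : (0 : ℝ) < Fintype.card ι := by exact_mod_cast Fintype.card_pos
  have hyR : (0 : ℝ) < y := by exact_mod_cast (by omega : 0 < y)
  have hu : (0 : ℝ) < u := by exact_mod_cast hG.pos
  have hO : (0 : ℝ) < #d.O := by exact_mod_cast h.ne.card_pos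
  have hv : 0 < θ ^ 4 / 32 * Real.exp (-(2 * I)) := by positivity
  have hVne : V.Nonempty := by
    have h1 : (0 : ℝ) < #V := lt_of_lt_of_le (by positivity) hV.card
    exact Finset.card_pos.1 (by exact_mod_cast h1)
  have hBne : B.Nonempty := by
    obtain ⟨w, hw⟩ := hVne
    rcases B.eq_empty_or_nonempty with e0 | e0
    · have h1 := hV.lrg w hw
      rw [e0] at h1
      simp only [prb, Finset.filter_empty, Finset.card_empty, Nat.cast_zero, div_zero] at h1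
      have : 0 < θ ^ 4 / 16 := by positivity
      linarith
    · exact e0
  have hn : (0 : ℝ) < #B := by exact_mod_cast hBne.card_pos
  have b1 := ygh_lrg hVne hBne (fun w q => (q : ℝ) ^ (σ - c) ≤
    #{ξ ∈ R q | (fun k => img (d.gm (bs pr w.2.1) (bs pr w.2.2) w.1 k) (ξ k)) ∈ R' q})
    (s := θ ^ 4 / 32) (by positivity) fun w hw => le_trans (le_of_eq (by ring)) (hV.lrg w hw)
  obtain ⟨D, hD⟩ : ∃ D : ι → Finset ℕ, ∀ k q, q ∈ D k ↔ q ∈ B ∧
      θ ^ 4 / (64 * (Fintype.card ι : ℝ)) ≤ prb V fun w => (q : ℝ) ^ (c - 3) < prb V fun w' =>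
        Pj q (d.gm (bs pr w'.2.1) (bs pr w'.2.2) w'.1 k) =
          Pj q (d.gm (bs pr w.2.1) (bs pr w.2.2) w.1 k) :=
    ⟨fun k => B.filter _, fun k q => Finset.mem_filter⟩
  have hDb : ∀ k, #(D k) ≤ b := fun k => by
    by_contra hlt
    obtain ⟨E, hE, hEb⟩ := Finset.exists_subset_card_eq (not_le.1 hlt).le
    have mg := hV.marg h hy hG hv (by positivity) hε hC hCT
      (φ := θ ^ 4 / (64 * (Fintype.card ι : ℝ))) (by positivity) hc k (E := E)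
      (fun q hq => ((hD k q).1 (hE hq)).1) hN.u₁ (by rw [hEb]; exact hN.n₃)
      (by rw [hEb]; exact hN.n₄) fun q hq => ((hD k q).1 (hE hq)).2
    rw [hEb] at mg
    exact absurd hN.n₂ (not_lt.2 mg)
  obtain ⟨T, hT⟩ : ∃ T : ι × ι → Finset ℕ, ∀ z q, q ∈ T z ↔ q ∈ B ∧ z.1 ≠ z.2 ∧
      ∃ X X' : M2, ¬ (q : ℤ) ∣ X.det ∧ (2 * y : ℝ) ^ (-e) * #V ≤ #{w ∈ V | ∀ i j, (q : ℤ) ∣
        (d.gm (bs pr w.2.1) (bs pr w.2.2) w.1 z.2 * X -
          X' * d.gm (bs pr w.2.1) (bs pr w.2.2) w.1 z.1) i j} :=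
    ⟨fun z => B.filter _, fun z q => Finset.mem_filter⟩
  obtain ⟨S, b2, hS⟩ : ∃ S : Finset ℕ, θ ^ 4 / 32 * #B ≤ #S + (Fintype.card ι : ℝ) * b ∧
      ∀ q ∈ S, (q ∈ B ∧ θ ^ 4 / 32 ≤ prb V fun w => (q : ℝ) ^ (σ - c) ≤
        #{ξ ∈ R q | (fun k => img (d.gm (bs pr w.2.1) (bs pr w.2.2) w.1 k) (ξ k)) ∈ R' q}) ∧
        ∀ k, q ∉ D k :=
    ⟨_, b1.trans (ygh_sub _ D hDb), fun q hq =>
      ⟨Finset.mem_filter.1 (Finset.mem_filter.1 hq).1, (Finset.mem_filter.1 hq).2⟩⟩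
  obtain ⟨z, hz⟩ := ygh_pig S T fun q hq => by
    obtain ⟨⟨hq1, hq2⟩, hq3⟩ := hS q hq
    obtain ⟨p1, p2, p3⟩ := h.prime q (hG.sub hq1)
    have q0 : (0 : ℝ) < q := by exact_mod_cast p1.pos
    have a1 := ygh_light V _ (fun k w => prb V fun w' =>
      Pj q (d.gm (bs pr w'.2.1) (bs pr w'.2.2) w'.1 k) =
        Pj q (d.gm (bs pr w.2.1) (bs pr w.2.2) w.1 k)) (a := (q : ℝ) ^ (c - 3))
      (φ := θ ^ 4 / (64 * (Fintype.card ι : ℝ))) hq2
      fun k => (not_le.1 fun hk => hq3 k ((hD k q).2 ⟨hq1, hk⟩)).le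
    have a2 : (q : ℝ) ^ (-c) ≤
        θ ^ 4 / 32 - Fintype.card ι * (θ ^ 4 / (64 * (Fintype.card ι : ℝ))) := by
      have e1 : θ ^ 4 / 32 - Fintype.card ι * (θ ^ 4 / (64 * (Fintype.card ι : ℝ))) =
          θ ^ 4 / 64 := by
        field_simp
        ring
      rw [e1]
      exact (Real.rpow_le_rpow_of_nonpos hyR (by exact_mod_cast p2.le) (by linarith)).trans hN.n₁
    obtain ⟨s1, s2, s3, s4⟩ := hV.sz q hq1
    obtain ⟨k, l, hkl, X, X', x1, x2⟩ := hGL q p1 (hN.y₁.trans p2.le) _ V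
      (fun w k => d.gm (bs pr w.2.1) (bs pr w.2.2) w.1 k)
      (fun w => (((∏ l ∈ bs pr w.2.1, l) * ∏ l ∈ bs pr w.2.2, l : ℕ) : ℤ)) (R q) (R' q) σ hVne
      (fun w hw => by
        obtain ⟨c1, -, c2, c3⟩ := hG.bs w.2.1
        obtain ⟨c4, -, c5, c6⟩ := hG.bs w.2.2
        exact ⟨ygh_ndvd p1 (fun l hl => (h.prime l (c1 hl)).1) (fun l hl => (h.prime l (c4 hl)).1)
          (fun e0 => Finset.disjoint_left.1 c3 e0 hq1) fun e0 => Finset.disjoint_left.1 c6 e0 hq1,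
          fun k => h.gm_det c1 c2 c4 c5 (hV.mem w hw).1 k⟩) s1 s2 s3 s4 hσ (a2.trans a1)
    refine ⟨(k, l), (hT _ _).2 ⟨hq1, hkl, X, X', x1, le_trans ?_ x2⟩⟩
    refine mul_le_mul_of_nonneg_right ?_ (by positivity)
    exact Real.rpow_le_rpow_of_nonpos q0 (by exact_mod_cast p3) (by linarith)
  have b3 : θ ^ 4 / (64 * (Fintype.card ι : ℝ) ^ 2) * #B ≤ #(T z) := by
    rw [Fintype.card_prod, Nat.cast_mul] at hz
    have e1 : θ ^ 4 / (64 * (Fintype.card ι : ℝ) ^ 2) * #B =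
        θ ^ 4 / 64 * #B / (Fintype.card ι * Fintype.card ι) := by
      field_simp
    rw [e1, div_le_iff₀ (by positivity)]
    have := hN.n₅
    linarith
  have hTne : (T z).Nonempty := by
    have h1 : (0 : ℝ) < #(T z) := lt_of_lt_of_le (by positivity) b3
    exact Finset.card_pos.1 (by exact_mod_cast h1)
  obtain ⟨q1, hq1⟩ := hTne
  have he0 : (0 : ℝ) < (2 * y : ℝ) ^ (-e) := by positivity
  have xc := hV.xc h hy hΛ.le hG hv.le ((hT z q1).1 hq1).2.1 (B' := T z)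
    (fun q hq => ((hT z q).1 hq).1) he0 (fun q hq => ((hT z q).1 hq).2.2) hN.r₀ hN.u₂ hN.p₁ hN.n₆
    (hN.n₇.trans (mul_le_mul_of_nonneg_left b3 (by positivity))) hN.n₈
  exact absurd hN.n₉ (not_lt.2 xc)

end Pool.Agent.EQ
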