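import Pool.Agent.P.MP_ad7a55_nt.YGe
import Pool.Agent.P.MP_ad7a55_nt.YGh

/-! The adaptive rigidity theorem. -/

set_option autoImplicit false

noncomputable section

open Finset Matrix
open scoped MatrixGroups Classical

namespace Pool.Agent.EQ

theorem rig_step (ι : Type) [Fintype ι] [Nonempty ι] {c₀ θ₀ : ℝ} (hc₀ : 0 < c₀) (hθ₀ : 0 < θ₀)
    (hθ₀' : θ₀ ≤ 1) (C₁ : ℕ) : ∃ c : ℝ, 0 < c ∧ ∀ θ : ℝ, 0 < θ → θ ≤ 1 → ∃ K : ℝ, 1 ≤ K ∧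
    ∀ H : ℝ, 1 ≤ H → ∃ y₀ : ℕ, ∀ (α γ δ : Type) (d : RD α ι γ δ) (y p : ℕ) (Λ δ₀ σ I : ℝ)
      (B : Finset ℕ), y₀ ≤ y → d.Ok6 y p H Λ δ₀ C₁ → 2 * δ₀ ≤ θ → B ⊆ d.P →
      (y : ℝ) ^ θ₀ / 4 ≤ #B → (y : ℝ) ^ θ₀ / 4 ≤ #(d.P \ B) → Real.log y ≤ I → 0 < Λ →
      Λ ≤ Real.exp I → I ≤ (y : ℝ) ^ (θ₀ / 4) → K * I ≤ p * Real.log y →
      σ ≤ Fintype.card ι - c₀ → d.Lab B σ I θ → d.Lab B (σ - c) (K * I) (θ ^ 4 / 16) := by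
  have hm : 0 < Fintype.card ι := Fintype.card_pos
  have he : 0 < θ₀ / (8 * (32 * (C₁ : ℝ) + 5)) := by positivity
  obtain ⟨c, q₀, hc, hc1, hGL⟩ := gl_apply6 ι he hc₀
  refine ⟨c, hc, fun θ hθ hθ1 => ?_⟩
  obtain ⟨ε, K, hε, hK, hnum⟩ := num6 C₁ q₀ hm hθ₀ hθ₀' hθ hθ1 hc hc1
  refine ⟨K, hK, fun H hH => ?_⟩
  have hH0 : 0 ≤ H := by linarith
  have hH2 : 1 ≤ 2 * H ^ 2 := by nlinarith
  obtain ⟨C, hC, hCT⟩ := ct_pair hH2 hε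
  obtain ⟨y₀, hy₀⟩ := hnum H C hH0 hC.le
  refine ⟨y₀, fun α γ δ d y p Λ δ₀ σ I B hy h hδ hB hB1 hB2 hI hΛ hΛI hI2 hKI hσ hL => ?_⟩
  obtain ⟨L, u, b, hLu, hexp, hN⟩ := hy₀ y p (#B) Λ I hy hI hΛ hΛI hI2 hKI hB1
  have hLu' : L * u ≤ #(d.P \ B) := by exact_mod_cast hLu.trans hB2
  have hcard : Fintype.card (Fin L × Fin u) ≤ Fintype.card (d.P \ B : Finset ℕ) := by
    rw [Fintype.card_prod, Fintype.card_fin, Fintype.card_fin, Fintype.card_coe]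
    exact hLu'
  obtain ⟨f⟩ := Function.Embedding.nonempty_of_card_le hcard
  have hG : d.Grp p (fun g i => (f (g, i) : ℕ)) B :=
    { sub := hB
      inj := fun z z' e => f.injective (Subtype.ext e)
      mem := fun g i => mem_sdiff.1 (f (g, i)).2
      le := le_trans (Nat.le_mul_of_pos_left L hN.r₀) hN.p₁
      pos := lt_of_lt_of_le (by norm_num) hN.u₁ }
  have hy0 : (0 : ℝ) < y := by
    have := hN.y₂
    exact_mod_cast (by omega : 0 < y)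
  have hBne : B.Nonempty := by
    have h1 : (0 : ℝ) < (y : ℝ) ^ θ₀ / 4 := by positivity
    exact card_pos.1 (Nat.cast_pos.1 (h1.trans_le hB1))
  rcases h.dich hH0 hΛ hG hBne c hθ hδ hL hexp with h1 | ⟨V, R, R', hV⟩
  · exact h1
  · exact (RD.Big.false h hΛ hG hθ hc.le he.le hε.le hC.le hGL hCT hσ hV hN).elim

theorem ygj_iter (ι : Type) [Fintype ι] [Nonempty ι] {c₀ θ₀ θ : ℝ} (hc₀ : 0 < c₀) (hθ₀ : 0 < θ₀)
    (hθ₀' : θ₀ ≤ 1) (hθ : 0 < θ) (hθ' : θ ≤ 1) (C₁ : ℕ) : ∃ c : ℝ, 0 < c ∧ ∀ J : ℕ,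
    ∃ θ' K : ℝ, 0 < θ' ∧ θ' ≤ 1 ∧ 1 ≤ K ∧
    ∀ H : ℝ, 1 ≤ H → ∃ y₀ : ℕ, ∀ (α γ δ : Type) (d : RD α ι γ δ) (y p : ℕ) (Λ δ₀ σ I : ℝ)
      (B : Finset ℕ), y₀ ≤ y → d.Ok6 y p H Λ δ₀ C₁ → 2 * δ₀ ≤ θ' → B ⊆ d.P →
      (y : ℝ) ^ θ₀ / 4 ≤ #B → (y : ℝ) ^ θ₀ / 4 ≤ #(d.P \ B) → Real.log y ≤ I → 0 < Λ →
      Λ ≤ Real.exp I → K * I ≤ (y : ℝ) ^ (θ₀ / 4) → K * I ≤ p * Real.log y →
      σ ≤ Fintype.card ι - c₀ → d.Lab B σ I θ → d.Lab B (σ - J * c) (K * I) θ' := by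
  obtain ⟨c, hc, hstep⟩ := rig_step ι hc₀ hθ₀ hθ₀' C₁
  refine ⟨c, hc, fun J => ?_⟩
  induction J with
  | zero =>
    refine ⟨θ, 1, hθ, hθ', le_rfl, fun H _ => ⟨0, ?_⟩⟩
    intro α γ δ d y p Λ δ₀ σ I B _ _ _ _ _ _ _ _ _ _ _ _ hL
    simpa using hL
  | succ J ih =>
    obtain ⟨θ', K, h0, h1, hK, ih⟩ := ih
    obtain ⟨K', hK', hs⟩ := hstep θ' h0 h1
    have h4 : θ' ^ 4 ≤ θ' := by
      calc θ' ^ 4 ≤ θ' ^ 1 := pow_le_pow_of_le_one h0.le h1 (by norm_num)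
        _ = θ' := pow_one _
    have h5 : θ' ^ 4 / 16 ≤ θ' := by
      have : 0 ≤ θ' ^ 4 := by positivity
      linarith
    refine ⟨θ' ^ 4 / 16, K' * K, by positivity, h5.trans h1,
      one_le_mul_of_one_le_of_one_le hK' hK, fun H hH => ?_⟩
    obtain ⟨y₁, hy₁⟩ := ih H hH
    obtain ⟨y₂, hy₂⟩ := hs H hH
    refine ⟨max y₁ y₂, ?_⟩
    intro α γ δ d y p Λ δ₀ σ I B hy h hδ hB hB1 hB2 hI hΛ hΛI hI2 hKI hσ hL
    have hI0 : 0 ≤ I := (Real.log_natCast_nonneg y).trans hI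
    have hKI0 : I ≤ K * I := le_mul_of_one_le_left hI0 hK
    have hKK : K * I ≤ K' * K * I := by
      rw [mul_assoc]
      exact le_mul_of_one_le_left (hI0.trans hKI0) hK'
    have hL1 := hy₁ α γ δ d y p Λ δ₀ σ I B ((le_max_left _ _).trans hy) h (hδ.trans h5) hB hB1 hB2
      hI hΛ hΛI (hKK.trans hI2) (hKK.trans hKI) hσ hL
    have hJc : (0 : ℝ) ≤ J * c := by positivity
    have hL2 := hy₂ α γ δ d y p Λ δ₀ (σ - J * c) (K * I) B ((le_max_right _ _).trans hy) h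
      (hδ.trans h5) hB hB1 hB2 (hI.trans hKI0) hΛ (hΛI.trans (Real.exp_le_exp.2 hKI0))
      (hKK.trans hI2) (by rw [← mul_assoc]; exact hKI) (by linarith) hL1
    have e1 : σ - ((J + 1 : ℕ) : ℝ) * c = σ - J * c - c := by push_cast; ring
    rw [e1, mul_assoc]
    exact hL2

theorem rig6 (ι : Type) [Fintype ι] [Nonempty ι] {c₀ θ₀ θ : ℝ} (hc₀ : 0 < c₀) (hθ₀ : 0 < θ₀)
    (hθ₀' : θ₀ ≤ 1) (hθ : 0 < θ) (C₁ : ℕ) : ∃ δ₀ K : ℝ, 0 < δ₀ ∧ 1 ≤ K ∧ ∀ C H : ℝ, 1 ≤ H →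
    ∃ y₀ : ℕ, ∀ (α γ δ : Type) (d : RD α ι γ δ) (y p : ℕ) (Λ I : ℝ), y₀ ≤ y →
      d.Ok6 y p H Λ δ₀ C₁ → (y : ℝ) ^ θ₀ ≤ #d.P → Real.log y ≤ I → 0 < Λ → Λ ≤ Real.exp I →
      K * I ≤ (y : ℝ) ^ (θ₀ / 4) → K * I ≤ p * Real.log y →
      (#(d.O.image d.C0) : ℝ) ≤ Real.exp I →
      (∀ q ∈ d.P, ∃ R : γ → Finset (ι → Set V2),
        (∀ a, (#(R a) : ℝ) ≤ C * (q : ℝ) ^ (Fintype.card ι - c₀ : ℝ)) ∧
        θ ≤ prb d.O fun x => d.In x ∧ d.dir q x ∈ R (d.C0 x)) → False := by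
  have hm0 : 0 < min θ 1 := lt_min hθ one_pos
  have hm1 : min θ 1 ≤ 1 := min_le_right _ _
  obtain ⟨c, hc, hit⟩ := ygj_iter ι (half_pos hc₀) hθ₀ hθ₀' (half_pos hm0) (by linarith) C₁
  obtain ⟨J, hJ⟩ := exists_nat_gt ((Fintype.card ι : ℝ) / c)
  rw [div_lt_iff₀ hc] at hJ
  obtain ⟨θ', K, h0, _, hK, hit⟩ := hit J
  refine ⟨θ' / 2, K, half_pos h0, hK, fun C H hH => ?_⟩
  obtain ⟨y₁, hy₁⟩ := hit H hH
  have hev := ((tendsto_rpow_atTop (half_pos hc₀)).comp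
    tendsto_natCast_atTop_atTop).eventually_ge_atTop C
  obtain ⟨y₂, hy₂⟩ := Filter.eventually_atTop.1 hev
  refine ⟨max y₁ (max y₂ 2), ?_⟩
  intro α γ δ d y p Λ I hy h hP hI hΛ hΛI hI2 hKI hC0 hA
  have hya : y₁ ≤ y := (le_max_left _ _).trans hy
  have hyb : y₂ ≤ y := ((le_max_left _ _).trans (le_max_right _ _)).trans hy
  have hyc : 2 ≤ y := ((le_max_right _ _).trans (le_max_right _ _)).trans hy
  have hy1 : (1 : ℝ) < y := by exact_mod_cast (by omega : 1 < y)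
  have hP2 : 1 < #d.P := by
    have h1 : (1 : ℝ) < (y : ℝ) ^ θ₀ := Real.one_lt_rpow hy1 hθ₀
    exact_mod_cast h1.trans_le hP
  obtain ⟨B, hB, hBc⟩ := exists_subset_card_eq (s := d.P) (n := #d.P / 2) (Nat.div_le_self _ _)
  have hB1 : (y : ℝ) ^ θ₀ / 4 ≤ #B := by
    have h1 : #d.P ≤ 4 * #B := by omega
    have h2 : (#d.P : ℝ) ≤ 4 * #B := by exact_mod_cast h1
    linarith
  have hB2 : (y : ℝ) ^ θ₀ / 4 ≤ #(d.P \ B) := by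
    have h1 : #d.P ≤ 4 * #(d.P \ B) := by
      rw [card_sdiff_of_subset hB]
      omega
    have h2 : (#d.P : ℝ) ≤ 4 * #(d.P \ B) := by exact_mod_cast h1
    linarith
  have hBne : B.Nonempty := card_pos.1 (by omega)
  have hL : d.Lab B (Fintype.card ι - c₀ / 2) I (min θ 1 / 2) := by
    refine h.lab hB hBne hm0.le hC0 fun q hq => ?_
    obtain ⟨R, h1, h2⟩ := hA q (hB hq)
    refine ⟨R, fun a => (h1 a).trans ?_, (min_le_left _ _).trans h2⟩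
    have hq1 := (h.prime q (hB hq)).2.1
    have hq0 : (0 : ℝ) < q := by exact_mod_cast (by omega : 0 < q)
    have h3 : C ≤ (q : ℝ) ^ (c₀ / 2) := hy₂ q (by omega)
    have e1 : (Fintype.card ι - c₀ / 2 : ℝ) = c₀ / 2 + (Fintype.card ι - c₀) := by ring
    rw [e1, Real.rpow_add hq0]
    exact mul_le_mul_of_nonneg_right h3 (by positivity)
  have hL2 := hy₁ α γ δ d y p Λ (θ' / 2) (Fintype.card ι - c₀ / 2) I B hya h (by linarith) hB hB1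
    hB2 hI hΛ hΛI hI2 hKI le_rfl hL
  exact hL2.false h.ne (fun q hq => (h.prime q (hB hq)).1.one_lt) (by linarith) h0

end Pool.Agent.EQ
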