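import Pool.Agent.P.MP_ad7a55_nt.YDe
import Pool.Agent.P.MP_ad7a55_nt.YBe
import Pool.Agent.P.MP_ad7a55_nt.YGj
import Pool.Agent.P.MP_ad7a55_nt.XDe

/-! The rigidity theorem excludes correlated directions. -/

set_option autoImplicit false

noncomputable section

open MeasureTheory Topology Filter UpperHalfPlane Finset
open scoped MatrixGroups BoundedContinuousFunction Matrix Classical

namespace Pool.Agent.EQ

theorem ydf_grow (K : ℝ) (m : ℕ) {ε : ℝ} (hε : 0 < ε) : ∃ X₀ : ℝ, ∀ X : ℝ, X₀ ≤ X → 0 ≤ X →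
    K * X ^ m ≤ Real.exp (ε * X) := by
  refine ⟨K * (m + 1).factorial / ε ^ (m + 1), fun X h1 h2 => ?_⟩
  have h3 := Real.pow_div_factorial_le_exp (ε * X) (by positivity) (m + 1)
  have h4 : (0 : ℝ) < (m + 1).factorial := by positivity
  rw [div_le_iff₀ (by positivity)] at h1
  refine le_trans ?_ h3
  rw [le_div_iff₀ h4, mul_pow, pow_succ X]
  have h6 : (0 : ℝ) ≤ X ^ m := by positivity
  nlinarith [mul_le_mul_of_nonneg_left h1 h6]

namespace Shp

variable {n : ℕ} {ι : Type} [Fintype ι]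

omit [Fintype ι] in
theorem Ok6.ydf_num {s : Shp n ι} {v : VD n} {L G T W : ℝ} {a m₀ y : ℕ}
    (h : s.Ok6 v L G T W a m₀ y) : G ≤ Real.log y ∧ 100 * T ≤ Real.log y ∧ 10000 * G ≤ W ∧
      Real.exp (Real.log y) = y ∧ ∀ k ∈ s.J, G ≤ -(v.D k : ℝ) := by
  obtain ⟨-, h2, h3, -⟩ := h.num
  have hG := h.hG
  have hT := h.GT
  have h4 : G ≤ Real.log y := by nlinarith
  have h5 : 100 * T ≤ Real.log y := by nlinarith [h.Ty]
  have h6 : 10000 * G ≤ W := by
    have h7 : (10000 : ℝ) ≤ G * T := by nlinarith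
    nlinarith
  refine ⟨h4, h5, h6, Real.exp_log ?_, fun k hk => ?_⟩
  · rcases Nat.eq_zero_or_pos y with h0 | h0
    · rw [h0, Nat.cast_zero, Real.log_zero] at h4
      linarith
    · exact_mod_cast h0
  · linarith [(h.large k hk).1, Real.add_one_le_exp W]

omit [Fintype ι] in
theorem Ok6.ydf_pr {s : Shp n ι} {v : VD n} {L G T W : ℝ} {a m₀ y : ℕ}
    (h : s.Ok6 v L G T W a m₀ y) {q : ℕ} (hq : q ∈ v.P) :
    q.Prime ∧ ¬ (q : ℤ) ∣ 2 * v.E ∧ (q : ℤ) ∣ v.b ^ 2 - v.E := by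
  refine ⟨(h.pP q hq).1, fun hd => (h.pP q hq).2.2.2 (hd.trans ⟨s.N * s.dd v, by ring⟩), ?_⟩
  exact ((Int.natCast_dvd_natCast.2 (dvd_prod_of_mem (fun q => q) hq)).mul_left 4).trans h.bP

omit [Fintype ι] in
theorem Ok6.ydf_fit {s : Shp n ι} {v : VD n} {L G T W : ℝ} {a m₀ y : ℕ}
    (h : s.Ok6 v L G T W a m₀ y) (c : ι) : Fit v.E (v.D (s.cr c)) :=
  (h.fit _ (s.mem c)).trans (fit_sq h.N_pos _)

omit [Fintype ι] in
theorem Ok6.ydf_const {s : Shp n ι} {v : VD n} {L G T W K X : ℝ} {a m₀ y m : ℕ}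
    (h : s.Ok6 v L G T W a m₀ y) (hK : 0 ≤ K) (hX : X ≤ 2 * Real.exp (2 * T))
    (hg : 2 * K + m + 2 ≤ G) : K * X * Real.exp T ^ m ≤ y := by
  obtain ⟨n1, n2, -, n4, -⟩ := h.ydf_num
  have hG := h.hG
  have hT := h.GT
  have h2 : 2 * K ≤ Real.exp (2 * K * T) := by
    have h3 : 2 * K * 1 ≤ 2 * K * T := mul_le_mul_of_nonneg_left (by linarith) (by linarith)
    linarith [Real.add_one_le_exp (2 * K * T)]
  calc K * X * Real.exp T ^ m ≤ K * (2 * Real.exp (2 * T)) * Real.exp T ^ m :=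
        mul_le_mul_of_nonneg_right (mul_le_mul_of_nonneg_left hX hK) (by positivity)
    _ = 2 * K * (Real.exp (2 * T) * Real.exp T ^ m) := by ring
    _ ≤ Real.exp (2 * K * T) * (Real.exp (2 * T) * Real.exp T ^ m) :=
        mul_le_mul_of_nonneg_right h2 (by positivity)
    _ ≤ y := by
        rw [← Real.exp_nat_mul, ← Real.exp_add, ← Real.exp_add, ← n4, Real.exp_le_exp]
        have h3 := mul_le_mul_of_nonneg_right hg (show 0 ≤ T by linarith)
        linarith [h.Ty]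

theorem card_C6 (s : Shp n ι) (Rn : Finset ℍ) : ∃ C : ℝ, 1 ≤ C ∧ ∀ (v : VD n) (L G T W U : ℝ)
    (a m₀ y : ℕ) (cl : ℍ → ℍ), s.Ok6 v L G T W a m₀ y → (∀ τ ∈ KU U, cl τ ∈ Rn) →
    (#((Orb v.τ).image (s.C6 v U cl)) : ℝ) ≤ Real.exp (C * v.M * Real.log y) := by
  refine ⟨1 + (6 * n + Fintype.card ι * #Rn + Fintype.card ι * (1 + 4 * s.e)),
    le_add_of_nonneg_right (by positivity), fun v L G T W U a m₀ y cl h hcl => ?_⟩
  have hG := h.hG
  have hT : 100 ≤ T := hG.trans h.GT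
  have he := h.e_pos
  obtain ⟨n1, n2, -, n4, -⟩ := h.ydf_num
  obtain ⟨m1, -, -, -, m5⟩ := h.num
  have hsub : (Orb v.τ).image (s.C6 v U cl) ⊆
      (Fintype.piFinset fun k => if k ∈ s.I \ s.J then (Cl_finite (v.D k)).toFinset else {0}) ×ˢ
      (Fintype.piFinset fun k => if k ∈ s.J then Hn (v.dg k) else {0}) ×ˢ
      (Fintype.piFinset fun _ : ι => insert none (Rn.image some)) ×ˢ
      (Fintype.piFinset fun _ : ι => LB s.e v.l) := by
    refine image_subset_iff.2 fun x hx => mem_product.2 ⟨?_, mem_product.2 ⟨?_,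
      mem_product.2 ⟨?_, ?_⟩⟩⟩
    · refine Fintype.mem_piFinset.2 fun k => ?_
      simp only [C6, sm]
      split_ifs with hk
      · rw [Set.Finite.mem_toFinset]
        exact ⟨_, discL_one (Orb_disc h.disc hx (h.big k)), by rw [jL_one, (fr_spec _).2]⟩
      · exact mem_singleton_self _
    · refine Fintype.mem_piFinset.2 fun k => ?_
      simp only [C6]
      split_ifs with hk
      · exact (h.hk_spec hx hk).1
      · exact mem_singleton_self _
    · refine Fintype.mem_piFinset.2 fun c => ?_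
      simp only [C6, cel]
      split_ifs with hk
      · exact mem_insert_of_mem (mem_image_of_mem _ (hcl _ hk))
      · exact mem_insert_self _ _
    · exact Fintype.mem_piFinset.2 fun c => h.lab_mem hx c
  have e1 : (1 : ℝ) ≤ Real.exp (3 * T) := Real.one_le_exp (by linarith)
  have e2 : Real.exp (3 * T) = Real.exp T * Real.exp T ^ 2 := by
    rw [← pow_succ', ← Real.exp_nat_mul]
    norm_num
  have e3 : (3 : ℝ) ≤ Real.exp T := by linarith [Real.add_one_le_exp T]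
  have h1 := xde_pi (fun k => if k ∈ s.I \ s.J then (Cl_finite (v.D k)).toFinset else {0})
    (B := Real.exp (3 * T)) fun k => by
      split_ifs with hk
      · refine (Nat.cast_le.2 (xde_Cl _)).trans ?_
        have h2 : ((v.D k).natAbs : ℝ) ≤ Real.exp T := by
          have h3 : ((v.D k).natAbs : ℤ) = -v.D k := by have := h.big k; omega
          rw [← Int.cast_natCast, h3, Int.cast_neg]
          exact h.small k hk
        rw [e2]
        push_cast
        exact mul_le_mul e3 (pow_le_pow_left₀ (by positivity) h2 2) (by positivity) (by positivity)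
      · rwa [card_singleton, Nat.cast_one]
  have h2 := xde_pi (fun k => if k ∈ s.J then Hn (v.dg k) else {0})
    (B := Real.exp (3 * T)) fun k => by
      split_ifs with hk
      · refine (Nat.cast_le.2 (card_Hn _)).trans ?_
        rw [e2]
        push_cast
        exact (pow_le_pow_left₀ (by positivity) (h.deg k hk).2.1 2).trans
          (le_mul_of_one_le_left (by positivity) (by linarith))
      · rwa [card_singleton, Nat.cast_one]
  have h3 := xde_pi (fun _ : ι => insert none (Rn.image some)) (B := Real.exp #Rn) fun _ => by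
    refine le_trans ?_ (Real.add_one_le_exp _)
    exact_mod_cast (card_insert_le _ _).trans (Nat.succ_le_succ card_image_le)
  have h4 := xde_pi (fun _ : ι => LB s.e v.l)
    (B := Real.exp (1 + (2 * s.e : ℕ) * (2 * Real.log y)) ^ Fintype.card (Fin v.M)) fun _ =>
      xde_pi (fun j => Xn (v.l j ^ (2 * s.e))) fun j => by
        have p1 := (h.pl j).1
        refine xde_Xn p1.1 (by positivity) ?_
        have p2 : (0 : ℝ) < v.l j := by exact_mod_cast p1.1.pos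
        rw [← Real.exp_log p2]
        exact Real.exp_le_exp.2 (m5 _ p1)
  refine (Nat.cast_le.2 (card_le_card hsub)).trans ?_
  rw [card_product, card_product, card_product, Nat.cast_mul, Nat.cast_mul, Nat.cast_mul]
  refine (mul_le_mul h1 (mul_le_mul h2 (mul_le_mul h3 h4 (by positivity) (by positivity))
    (by positivity) (by positivity)) (by positivity) (by positivity)).trans ?_
  simp only [← Real.exp_nat_mul, ← Real.exp_add, Fintype.card_fin]
  rw [Real.exp_le_exp]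
  push_cast
  have k0 : (1 : ℝ) ≤ v.M := by exact_mod_cast m1
  have k1 : Real.log y ≤ v.M * Real.log y := le_mul_of_one_le_left (by linarith) k0
  have k2 : (v.M : ℝ) ≤ v.M * Real.log y := le_mul_of_one_le_right (by linarith) (by linarith)
  have k3 : (v.M : ℝ) * (1 + 2 * s.e * (2 * Real.log y)) ≤ (1 + 4 * s.e) * (v.M * Real.log y) := by
    linarith
  have k4 := mul_le_mul_of_nonneg_left k3 (Nat.cast_nonneg (α := ℝ) (Fintype.card ι))
  have k5 := mul_le_mul_of_nonneg_left (by linarith : T ≤ v.M * Real.log y)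
    (by positivity : (0 : ℝ) ≤ 6 * n)
  have k6 := mul_le_mul_of_nonneg_left (by linarith : 1 ≤ v.M * Real.log y)
    (by positivity : (0 : ℝ) ≤ Fintype.card ι * #Rn)
  linarith

theorem rd_ok6 (s : Shp n ι) {U : ℝ} (hU : 1 ≤ U) (a : ℕ) : ∃ G₀ : ℝ, ∀ (v : VD n)
    (L G T W δ₀ : ℝ) (m₀ y : ℕ) (cl : ℍ → ℍ) (P : Finset ℕ), G₀ ≤ G → s.Ok6 v L G T W a m₀ y →
    P ⊆ v.P → prb (Orb v.τ) (fun x => ¬ ∀ c, s.ct x c ∈ KU U) ≤ δ₀ →
    (s.rd6 v P U cl).Ok6 y ⌊G * v.M / 4000⌋₊ (4 * U ^ 2) y δ₀ 14 := by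
  obtain ⟨K, Y, A, hK, h₂⟩ := lin_mix U
  obtain ⟨K', A', R₀, hK', h₃⟩ := xc_orb6 U hU
  refine ⟨max Y (max (max (2 * K + A + 2) (2 * K' + A' + 2)) R₀),
    fun v L G T W δ₀ m₀ y cl P hG₀ h hP ht => ?_⟩
  simp only [max_le_iff] at hG₀
  obtain ⟨t2, ⟨t3, t4⟩, t5⟩ := hG₀
  have hG := h.hG
  have hT : 100 ≤ T := hG.trans h.GT
  obtain ⟨n1, n2, n3, n4, n5⟩ := h.ydf_num
  have hl1 : (1 : ℝ) ≤ Real.log y := by linarith
  have hp : (⌊G * v.M / 4000⌋₊ : ℝ) ≤ G * v.M / 4000 := Nat.floor_le (by positivity)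
  have hp0 : 0 ≤ G * v.M / 4000 := by positivity
  have hpos : ∀ β ⊆ v.P, 0 < ∏ l ∈ β, l := fun β hβ => prod_pos fun l hl => (h.pP l (hβ hl)).1.pos
  have eL : Real.exp T ^ 2 = Real.exp (2 * T) := by
    rw [← Real.exp_nat_mul]
    norm_num
  have eT : (1 : ℝ) ≤ Real.exp T := Real.one_le_exp (by linarith)
  have hL := h.hL
  refine ⟨Orb_ne h.disc,
    fun l hl => ⟨(h.pP l (hP hl)).1, (h.pP l (hP hl)).2.1, (h.pP l (hP hl)).2.2.1⟩,
    fun x hx c l hl => ?_, fun β _ _ x hx => Orb_map h.disc hx (v.sg β),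
    fun β _ _ x _ x' _ e => funext fun k => (v.sg β).injective (congrFun e k),
    fun β hβ _ x hx c => (h.et_spec (hβ.trans hP) hx c).1,
    fun β hβ _ x hx c => (h.et_spec (hβ.trans hP) hx c).2.2.2,
    fun β hβ _ x hx g c => ?_, ht, fun c β hβ β' hβ' hd c1 c2 => ?_,
    fun k l hkl β hβ c1 Z hZ hZ' => ?_⟩
  · obtain ⟨q1, q2, q3⟩ := h.ydf_pr (hP hl)
    have q4 := (Nat.prime_iff_prime_int.1 q1).coprime_iff_not_dvd.2 q2
    exact ⟨AA_line (h.ct_disc hx c).1 (h.ct_disc hx c).2 q1.pos q4 q3,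
      AA_line_adj (h.ct_disc hx c).1 (h.ct_disc hx c).2 q1.pos q4 q3⟩
  · obtain ⟨q1, q2, q3, -⟩ := h.et_spec (hβ.trans hP) hx c
    have q4 : act (s.et v β x c) (s.ct x c) ∈ KU U := by
      rw [q3]
      exact g.2 c
    exact ⟨q1, q2, ht_le_KU hU (hpos β (hβ.trans hP)) q1 (g.1 c) q4⟩
  · have hc := s.mem c
    have hu : β ∪ β' ⊆ v.P := (union_subset hβ hβ').trans hP
    have hpl := h.prod_le (β := β ∪ β') (fun q hq => h.pP q (hu hq)) (by
      have c3 : (#(β ∪ β') : ℝ) ≤ #β + #β' := by exact_mod_cast card_union_le β β'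
      have c4 : (#β : ℝ) ≤ ⌊G * v.M / 4000⌋₊ := by exact_mod_cast c1
      have c5 : (#β' : ℝ) ≤ ⌊G * v.M / 4000⌋₊ := by exact_mod_cast c2
      linarith)
    have h4 := h₂ L n v.τ v.D h.disc (s.cr c) v.E v.b β β' (t2.trans (n5 _ hc))
      (h.low _ hc) (h.ydf_fit c) hd (fun l hl => h.ydf_pr (hu hl)) hpl.2 (by
        have h5 : (((∏ l ∈ β ∪ β', l : ℕ) : ℝ)) ^ 400 ≤ -(v.D (s.cr c) : ℝ) := by
          refine (pow_le_pow_left₀ (by positivity) hpl.1 400).trans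
            (le_trans ?_ (h.large _ hc).1)
          rw [← Real.exp_nat_mul, Real.exp_le_exp]
          push_cast
          linarith
        exact_mod_cast h5)
    refine le_trans (Nat.cast_le.2 (card_le_card fun z hz => ?_)) (h4.trans ?_)
    · rw [mem_filter] at hz ⊢
      exact ⟨hz.1, hz.2.1 c, hz.2.2.1 c, hz.2.2.2⟩
    · refine mul_le_mul_of_nonneg_right (div_le_div_of_nonneg_right ?_ (by positivity))
        (by positivity)
      refine le_trans (mul_le_mul_of_nonneg_left ?_ (by positivity))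
        (h.ydf_const hK.le ?_ t3)
      · exact pow_le_pow_left₀ (Real.log_nonneg (by linarith [n5 _ hc])) (h.large _ hc).2 _
      · have h6 : L ^ 2 ≤ Real.exp T ^ 2 := by
          rw [← sq_abs]
          exact pow_le_pow_left₀ (abs_nonneg _) hL 2
        rw [← eL]
        nlinarith
  · obtain ⟨R, hR⟩ : ∃ R : ℕ, R = ⌊Real.exp (W / 3)⌋₊ := ⟨_, rfl⟩
    have hu : β ⊆ v.P := hβ.trans hP
    have hpl := h.prod_le (β := β) (fun q hq => h.pP q (hu hq)) (by
      have c4 : (#β : ℝ) ≤ ⌊G * v.M / 4000⌋₊ := by exact_mod_cast c1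
      linarith)
    have r1 : (R : ℝ) ^ 3 ≤ Real.exp W := by
      refine (pow_le_pow_left₀ (by positivity) (hR ▸ Nat.floor_le (by positivity)) 3).trans
        (le_of_eq ?_)
      rw [← Real.exp_nat_mul]
      congr 1
      push_cast
      ring
    have r2 : Real.exp (W / 4) ≤ R := by
      have h4 := Nat.lt_floor_add_one (Real.exp (W / 3))
      rw [← hR] at h4
      have h5 : Real.exp (W / 4 + 1) ≤ Real.exp (W / 3) := Real.exp_le_exp.2 (by linarith)
      rw [Real.exp_add] at h5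
      have h6 : (1 : ℝ) ≤ Real.exp (W / 4) := Real.one_le_exp (by linarith)
      have h7 := Real.add_one_le_exp (1 : ℝ)
      nlinarith
    have r3 : ∀ c, (R : ℤ) ^ 3 ≤ -v.D (s.cr c) := fun c => by
      exact_mod_cast r1.trans (h.large _ (s.mem c)).1
    have z1 : Z ≤ Real.exp (W / 4000) := by
      refine hZ'.trans ?_
      rw [← n4, ← Real.exp_nat_mul, Real.exp_le_exp]
      refine (mul_le_mul_of_nonneg_right hp (by linarith)).trans ?_
      linarith [h.yW]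
    have h4 := h₃ L n v.τ v.D h.disc (s.cr k) (s.cr l) v.E v.b β R Z (Real.exp T)
      (h.low _ (s.mem k)) (h.ydf_fit k) (h.ydf_fit l) (fun p hp => h.ydf_pr (hu hp)) hpl.2 hZ (by
        refine le_trans ?_ r2
        have h5 : (R₀ : ℝ) ≤ Real.exp (W / 10000) := by
          linarith [Real.add_one_le_exp (W / 10000)]
        refine (mul_le_mul h5 (pow_le_pow_left₀ (by linarith) z1 2) (by positivity)
          (by positivity)).trans ?_
        rw [← Real.exp_nat_mul, ← Real.exp_add, Real.exp_le_exp]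
        push_cast
        linarith) (by
        have h5 : (((∏ l ∈ β, l : ℕ) : ℝ)) ^ 200 ≤ R := by
          refine (pow_le_pow_left₀ (by positivity) hpl.1 200).trans (le_trans ?_ r2)
          rw [← Real.exp_nat_mul, Real.exp_le_exp]
          push_cast
          linarith
        exact_mod_cast h5) (r3 k) (r3 l) eT (h.large _ (s.mem k)).2
      (h.large _ (s.mem l)).2 fun d hd hd' => h.sep k l hkl d hd
        (le_trans (by exact_mod_cast hd') r1)
    refine le_trans (pb_mono fun x _ hx => ⟨hx.1 k, hx.1 l, hx.2⟩) (h4.trans ?_)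
    refine div_le_div_of_nonneg_right (mul_le_mul_of_nonneg_right ?_ (by positivity))
      (by positivity)
    refine h.ydf_const hK'.le ?_ t4
    rw [← eL]
    nlinarith

theorem Ok6.tight {s : Shp n ι} {v : VD n} {L G T W δ : ℝ} {a m₀ y : ℕ} {Uf Yf : ℝ → ℝ}
    (h : s.Ok6 v L G T W a m₀ y) (ht : ∀ k ∈ s.J, Tg Uf Yf (v.D k)) (hδ : 0 < δ)
    (hG : Yf δ ≤ G) : (∀ c, prb (Orb v.τ) (fun x => s.ct x c ∉ KU (Uf δ)) ≤ δ) ∧
      prb (Orb v.τ) (fun x => ¬ ∀ c, s.ct x c ∈ KU (Uf δ)) ≤ Fintype.card ι * δ := by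
  have h1 : ∀ c, prb (Orb v.τ) (fun x => s.ct x c ∉ KU (Uf δ)) ≤ δ := fun c =>
    ht _ (s.mem c) δ hδ (hG.trans (h.ydf_num.2.2.2.2 _ (s.mem c))) n v.τ v.D h.disc (s.cr c) rfl
  refine ⟨h1, le_trans (pb_mono fun x _ hx => ?_)
    ((pb_exists (Orb v.τ) univ fun c x => s.ct x c ∉ KU (Uf δ)).trans ?_)⟩
  · obtain ⟨c, hc⟩ := not_forall.1 hx
    exact ⟨c, mem_univ c, hc⟩
  · refine (sum_le_card_nsmul _ _ _ fun c _ => h1 c).trans (le_of_eq ?_)
    rw [card_univ, nsmul_eq_mul]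

theorem ydf_root {y a m k : ℕ} (h1 : 2 ^ a < y) (h2 : y ≤ k ^ a) (h3 : k ≤ 2 * m) :
    (y : ℝ) ^ (1 / (2 * a + 2) : ℝ) ≤ m := by
  have h4 : y ≤ (2 * m) ^ a := h2.trans (Nat.pow_le_pow_left h3 a)
  have h5 : 2 ≤ m := by
    by_contra hn
    have h6 : (2 * m) ^ a ≤ 2 ^ a := Nat.pow_le_pow_left (by omega) a
    omega
  have h6 : y ≤ m ^ (2 * a + 2) := by
    refine h4.trans ((Nat.pow_le_pow_left (Nat.mul_le_mul_right m h5) a).trans ?_)
    rw [← sq, ← pow_mul]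
    exact Nat.pow_le_pow_right (by omega) (by omega)
  have h7 : (y : ℝ) ≤ (m : ℝ) ^ (2 * a + 2) := by exact_mod_cast h6
  refine (Real.rpow_le_rpow (by positivity) h7 (by positivity)).trans (le_of_eq ?_)
  rw [← Real.rpow_natCast, ← Real.rpow_mul (by positivity)]
  push_cast
  rw [mul_one_div_cancel (by positivity), Real.rpow_one]

theorem noA [Nonempty ι] (s : Shp n ι) {K t θ : ℝ} (hK : 0 < K) (ht : 0 < t) (hθ : 0 < θ)
    (Uf Yf : ℝ → ℝ) (hU : ∀ δ, 1 ≤ Uf δ) (a B : ℕ) : ∃ G₀ : ℝ, ∀ (v : VD n) (L G T W : ℝ)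
    (m₀ y q₀ : ℕ) (𝒢 : s.Fm) (Ws : ℕ → Wt v) (P : Finset ℕ), G₀ ≤ G →
    s.Ok6 v L G T W a m₀ y → (∀ k ∈ s.J, Tg Uf Yf (v.D k)) → (∀ c, Fam s.N q₀ K (𝒢 c)) →
    q₀.Coprime (s.dd v) → P ⊆ v.P → #v.P ≤ 2 * #P → (∀ q ∈ P, q.Coprime q₀ ∧ WB B (Ws q)) →
    ∃ q ∈ P, prb (Orb v.τ) (s.EA v 𝒢 (Ws q) t q) < θ := by
  have hc : (0 : ℝ) < Fintype.card ι := by exact_mod_cast Fintype.card_pos
  obtain ⟨c₀, hc₀, h₁⟩ := stepA6 ι ht
  have hθ₀ : (0 : ℝ) < 1 / (2 * a + 2) := by positivity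
  have hθ₁ : (1 / (2 * a + 2) : ℝ) ≤ 1 := by
    rw [div_le_one (by positivity)]
    linarith [Nat.cast_nonneg (α := ℝ) a]
  obtain ⟨δ₀, K₁, hδ₀, hK₁, h₂⟩ := rig6 ι hc₀ hθ₀ hθ₁ (half_pos hθ) 14
  obtain ⟨δ, hδ, eδ⟩ : ∃ δ : ℝ, 0 < δ ∧ Fintype.card ι * δ = min δ₀ (θ / 4) :=
    ⟨min δ₀ (θ / 4) / Fintype.card ι, div_pos (lt_min hδ₀ (by positivity)) hc,
      mul_div_cancel₀ _ hc.ne'⟩
  obtain ⟨cl, Rn, C, G₁, hcl, h₃⟩ := h₁ n s K (Uf δ) θ a B hK hθ
  obtain ⟨C₂, hC₂, h₄⟩ := s.card_C6 Rn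
  obtain ⟨G₂, h₅⟩ := s.rd_ok6 (hU δ) a
  obtain ⟨y₀, h₆⟩ := h₂ C (4 * Uf δ ^ 2) (by nlinarith [hU δ])
  obtain ⟨X₀, h₇⟩ := ydf_grow (5 * K₁ * C₂) 2 (ε := 1 / (2 * a + 2) / 4) (by positivity)
  refine ⟨max (max (max G₁ G₂) (max (Yf δ) (4000 * (K₁ * C₂ + 1))))
    (max (max y₀ X₀) (2 ^ a + 1)), fun v L G T W m₀ y q₀ 𝒢 Ws P hG₀ h hg hF hq₀ hP hP' hW => ?_⟩
  simp only [max_le_iff] at hG₀
  obtain ⟨⟨⟨t1, t2⟩, t3, t4⟩, ⟨t5, t6⟩, t7⟩ := hG₀
  by_contra hn
  have hE : ∀ q ∈ P, θ ≤ prb (Orb v.τ) (s.EA v 𝒢 (Ws q) t q) := fun q hq =>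
    not_lt.1 fun h' => hn ⟨q, hq, h'⟩
  have hti := (h.tight hg hδ t3).2
  rw [eδ] at hti
  have hG := h.hG
  obtain ⟨n1, -, -, n4, -⟩ := h.ydf_num
  obtain ⟨m1, -, -, m4, -⟩ := h.num
  have k0 : (1 : ℝ) ≤ v.M := by exact_mod_cast m1
  have k1 : Real.log y ≤ y := by linarith [Real.add_one_le_exp (Real.log y)]
  have k2 : (0 : ℝ) < y := by linarith
  have k3 : Real.log y ≤ C₂ * v.M * Real.log y :=
    le_mul_of_one_le_left (by linarith) (one_le_mul_of_one_le_of_one_le hC₂ k0)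
  have k4 : 0 ≤ K₁ * C₂ := by positivity
  refine h₆ _ _ _ (s.rd6 v P (Uf δ) cl) y ⌊G * v.M / 4000⌋₊ y (C₂ * v.M * Real.log y)
    (by exact_mod_cast t5.trans (n1.trans k1))
    (h₅ v L G T W δ₀ m₀ y cl P t2 h hP (hti.trans (min_le_left _ _)))
    (ydf_root ?_ h.cP hP') k3 k2 (n4.symm.le.trans (Real.exp_le_exp.2 k3)) ?_ ?_
    (le_trans (Nat.cast_le.2 (card_le_card fun z hz => ?_))
      (h₄ v L G T W (Uf δ) a m₀ y cl h hcl)) fun q hq => ?_
  · have k5 : (2 : ℝ) ^ a < y := by linarith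
    exact_mod_cast k5
  · rw [Real.rpow_def_of_pos k2, mul_comm (Real.log y)]
    refine le_trans ?_ (h₇ _ (t6.trans n1) (by linarith))
    have k5 : (v.M : ℝ) ≤ 5 * Real.log y := by
      linarith [Real.log_le_sub_one_of_pos (by linarith : 0 < Real.log y)]
    have k6 := mul_le_mul_of_nonneg_left k5 (mul_nonneg k4 (by linarith : 0 ≤ Real.log y))
    nlinarith
  · rw [← mul_assoc]
    refine mul_le_mul_of_nonneg_right ?_ (by linarith)
    have k5 := Nat.lt_floor_add_one (G * v.M / 4000)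
    have k6 := mul_le_mul_of_nonneg_right t4 (by linarith : (0 : ℝ) ≤ v.M)
    nlinarith
  · simp only [mem_image] at hz ⊢
    exact hz
  · exact h₃ v L G T W m₀ y q q₀ 𝒢 (Ws q) t1 h hF hq₀ (hP hq) (hW q hq).1 (hW q hq).2 (hE q hq)
      (hti.trans (min_le_right _ _))

end Shp

end Pool.Agent.EQ
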