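import Pool.Agent.P.MP_ad7a55_nt.YUd
import Pool.Agent.P.MP_ad7a55_nt.XKg

/-! Nets, the cusp, balls and Lipschitz approximation. -/

set_option autoImplicit false

noncomputable section

open MeasureTheory Topology Filter UpperHalfPlane Finset
open scoped MatrixGroups BoundedContinuousFunction Matrix Classical

namespace Pool.Agent.EQ

theorem yue_im {τ : ℍ} (h : τ ∈ ModularGroup.fd) : 1 / 2 < τ.im := by
  have := ModularGroup.three_le_four_mul_im_sq_of_mem_fd h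
  have := τ.im_pos
  nlinarith

theorem yue_floor {x y m : ℝ} (hm : 0 < m) (h : ⌊x / m⌋ = ⌊y / m⌋) : |x - y| ≤ m := by
  have h1 := Int.abs_sub_lt_one_of_floor_eq_floor h
  rw [← sub_div, abs_div, abs_of_pos hm, div_lt_one hm] at h1
  exact h1.le

theorem net_card : ∃ C : ℝ, 0 < C ∧ ∀ U δ : ℝ, 1 ≤ U → 0 < δ → δ ≤ 1 →
    ∃ (R : Finset ℍ) (cl : ℍ → ℍ), (#R : ℝ) ≤ C * U / δ ^ 2 ∧
      ∀ τ ∈ KU U, cl τ ∈ R ∧ dist τ (cl τ) ≤ δ := by
  refine ⟨42, by norm_num, fun U δ hU h0 h1 => ?_⟩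
  have hm : 0 < δ / 4 := by positivity
  let ι : ℍ → ℤ × ℤ := fun τ => (⌊τ.re / (δ / 4)⌋, ⌊τ.im / (δ / 4)⌋)
  have hex : ∀ p : ℤ × ℤ, ∃ w : ℍ, (∃ τ ∈ KU U, ι τ = p) → w ∈ KU U ∧ ι w = p := by
    intro p
    by_cases h : ∃ τ ∈ KU U, ι τ = p
    · obtain ⟨τ, h⟩ := h
      exact ⟨τ, fun _ => h⟩
    · exact ⟨I, fun h' => absurd h' h⟩
  choose rep hrep using hex
  obtain ⟨a, ha1, ha2⟩ : ∃ a : ℕ, 2 / δ ≤ a ∧ (a : ℝ) < 2 / δ + 1 :=
    ⟨_, Nat.le_ceil _, Nat.ceil_lt_add_one (by positivity)⟩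
  obtain ⟨b, hb1, hb2⟩ : ∃ b : ℕ, 4 * U / δ ≤ b ∧ (b : ℝ) < 4 * U / δ + 1 :=
    ⟨_, Nat.le_ceil _, Nat.ceil_lt_add_one (by positivity)⟩
  refine ⟨(Icc (-(a : ℤ)) a ×ˢ Icc (0 : ℤ) b).image rep, fun τ => rep (ι τ), ?_,
    fun τ hτ => ⟨mem_image_of_mem _ ?_, ?_⟩⟩
  · have hc : #((Icc (-(a : ℤ)) a ×ˢ Icc (0 : ℤ) b).image rep) ≤ (2 * a + 1) * (b + 1) := by
      refine card_image_le.trans (le_of_eq ?_)
      rw [card_product, Int.card_Icc, Int.card_Icc]
      congr 1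
      omega
    have hc' : (#((Icc (-(a : ℤ)) a ×ˢ Icc (0 : ℤ) b).image rep) : ℝ) ≤ (2 * a + 1) * (b + 1) := by
      exact_mod_cast hc
    have h2 : 1 ≤ 1 / δ := by rw [le_div_iff₀ h0]; linarith
    have h3 : 1 ≤ U / δ := by rw [le_div_iff₀ h0]; linarith
    have e1 : 2 / δ = 2 * (1 / δ) := by ring
    have e2 : 4 * U / δ = 4 * (U / δ) := by ring
    have h4 : 2 * (a : ℝ) + 1 ≤ 7 * (1 / δ) := by linarith
    have h5 : (b : ℝ) + 1 ≤ 6 * (U / δ) := by linarith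
    refine hc'.trans ((mul_le_mul h4 h5 (by positivity) (by positivity)).trans (le_of_eq ?_))
    field_simp
    norm_num
  · have h2 := abs_le.1 hτ.1.2
    have h3 := hτ.2
    have h4 := τ.im_pos
    have e1 : τ.re / (δ / 4) = 4 * τ.re / δ := by field_simp
    have e2 : τ.im / (δ / 4) = 4 * τ.im / δ := by field_simp
    have h5 : 4 * τ.re / δ ≤ 2 / δ := div_le_div_of_nonneg_right (by linarith) h0.le
    have h6 : -(2 / δ) ≤ 4 * τ.re / δ := by
      rw [← neg_div]; exact div_le_div_of_nonneg_right (by linarith) h0.le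
    have h7 : 4 * τ.im / δ ≤ 4 * U / δ := div_le_div_of_nonneg_right (by linarith) h0.le
    refine mem_product.2 ⟨mem_Icc.2 ⟨?_, ?_⟩, mem_Icc.2 ⟨?_, ?_⟩⟩
    · refine Int.le_floor.2 ?_
      push_cast
      linarith
    · have h8 := Int.floor_le (τ.re / (δ / 4))
      have h9 : ((⌊τ.re / (δ / 4)⌋ : ℤ) : ℝ) ≤ ((a : ℤ) : ℝ) := by push_cast; linarith
      exact_mod_cast h9
    · exact Int.floor_nonneg.2 (by positivity)
    · have h8 := Int.floor_le (τ.im / (δ / 4))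
      have h9 : ((⌊τ.im / (δ / 4)⌋ : ℤ) : ℝ) ≤ ((b : ℤ) : ℝ) := by push_cast; linarith
      exact_mod_cast h9
  · obtain ⟨hw, he⟩ := hrep (ι τ) ⟨τ, hτ, rfl⟩
    beta_reduce
    generalize rep (ι τ) = w at hw he ⊢
    have h2 : |w.re - τ.re| ≤ δ / 4 := yue_floor hm (congrArg Prod.fst he)
    have h3 : |w.im - τ.im| ≤ δ / 4 := yue_floor hm (congrArg Prod.snd he)
    have h4 : dist (w : ℂ) τ ≤ δ / 2 := by
      rw [Complex.dist_eq]
      refine (Complex.norm_le_abs_re_add_abs_im _).trans ?_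
      rw [Complex.sub_re, Complex.sub_im]
      change |w.re - τ.re| + |w.im - τ.im| ≤ δ / 2
      linarith
    have h5 : 1 / 2 ≤ √(w.im * τ.im) := by
      refine Real.le_sqrt_of_sq_le ?_
      have := yue_im hw.1
      have := yue_im hτ.1
      nlinarith
    rw [dist_comm]
    refine (dist_le_dist_coe_div_sqrt w τ).trans ?_
    rw [div_le_iff₀ (by linarith)]
    nlinarith

theorem yue_max {z : ℍ} (hz : z ∈ ModularGroup.fd) (γ : SL(2, ℤ)) : (γ • z).im ≤ z.im := by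
  rw [ModularGroup.im_smul_eq_div_normSq, ModularGroup.denom_apply]
  refine div_le_self z.im_pos.le ?_
  have hd : γ 0 0 * γ 1 1 - γ 0 1 * γ 1 0 = 1 := by
    have := γ.det_coe
    rwa [Matrix.det_fin_two] at this
  generalize γ 1 0 = c at hd ⊢
  generalize γ 1 1 = d at hd ⊢
  have h1 : 1 ≤ c ^ 2 - |c * d| + d ^ 2 := by
    have h2 : c ≠ 0 ∨ d ≠ 0 := by
      by_contra h
      push Not at h
      simp [h.1, h.2] at hd
    rw [abs_mul, ← sq_abs c, ← sq_abs d]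
    have h3 := abs_nonneg c
    have h4 := abs_nonneg d
    rcases h2 with h | h
    · have := Int.one_le_abs h
      nlinarith [sq_nonneg (|c| - 2 * |d|)]
    · have := Int.one_le_abs h
      nlinarith [sq_nonneg (|d| - 2 * |c|)]
  have h2 : (1 : ℝ) ≤ (c : ℝ) ^ 2 - |(c : ℝ) * d| + (d : ℝ) ^ 2 := by exact_mod_cast h1
  have h3 : 1 ≤ z.re * z.re + z.im * z.im := hz.1
  have h4 : |2 * z.re * ((c : ℝ) * d)| ≤ |(c : ℝ) * d| := by
    rw [abs_mul, abs_mul, abs_two]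
    refine mul_le_of_le_one_left (abs_nonneg _) ?_
    have := hz.2
    linarith
  have h5 := (abs_le.1 h4).1
  have e : Complex.normSq ((c : ℂ) * z + d) =
      (c : ℝ) ^ 2 * (z.re * z.re + z.im * z.im) + 2 * z.re * ((c : ℝ) * d) + (d : ℝ) ^ 2 := by
    rw [Complex.normSq_apply]
    simp
    ring
  rw [e]
  nlinarith [mul_le_mul_of_nonneg_left h3 (sq_nonneg (c : ℝ))]

theorem yue_vol {t : ℝ} (ht : 0 < t) :
    volume (ModularGroup.fd ∩ {z : ℍ | t < z.im}) ≤ ENNReal.ofReal t⁻¹ := by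
  rw [volume_eq_lintegral]
  have hs : UpperHalfPlane.coe '' (ModularGroup.fd ∩ {z : ℍ | t < z.im}) ⊆
      Complex.measurableEquivRealProd ⁻¹' (Set.Icc (-(1 / 2) : ℝ) (1 / 2) ×ˢ Set.Ioi t) := by
    rintro _ ⟨τ, hτ, rfl⟩
    exact ⟨abs_le.1 hτ.1.2, hτ.2⟩
  refine (lintegral_mono_set hs).trans (le_of_eq ?_)
  have h1 := Complex.volume_preserving_equiv_real_prod.setLIntegral_comp_preimage_emb
    Complex.measurableEquivRealProd.measurableEmbedding
    (fun q : ℝ × ℝ => (1 : ENNReal) * (((1 / ‖q.2‖₊) ^ 2 : NNReal) : ENNReal))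
    (Set.Icc (-(1 / 2) : ℝ) (1 / 2) ×ˢ Set.Ioi t)
  rw [Measure.volume_eq_prod, ← Measure.prod_restrict,
    lintegral_prod_mul (f := fun _ => 1)
      (g := fun y : ℝ => (((1 / ‖y‖₊) ^ 2 : NNReal) : ENNReal)) (by fun_prop) (by fun_prop)] at h1
  have h2 : ∫⁻ y in Set.Ioi t, (((1 / ‖y‖₊) ^ 2 : NNReal) : ENNReal) = ENNReal.ofReal t⁻¹ := by
    have h3 : ∫ y in Set.Ioi t, y ^ (-2 : ℝ) = t⁻¹ := by
      rw [integral_Ioi_rpow_of_lt (by norm_num) ht]
      norm_num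
      exact Real.rpow_neg_one t
    rw [← h3, ofReal_integral_eq_lintegral_ofReal (integrableOn_Ioi_rpow_of_lt (by norm_num) ht)
      ((ae_restrict_iff' measurableSet_Ioi).2 (Eventually.of_forall fun y hy =>
        Real.rpow_nonneg (ht.trans hy).le _))]
    refine setLIntegral_congr_fun measurableSet_Ioi fun y hy => ?_
    have hy' : 0 < y := ht.trans hy
    rw [ENNReal.ofReal, ENNReal.coe_inj]
    ext
    rw [Real.coe_toNNReal _ (by positivity), Real.rpow_neg hy'.le]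
    simp [abs_of_pos hy']
  rw [h2] at h1
  simp only [one_mul] at h1
  refine h1.trans ?_
  simp
  norm_num

theorem exists_cut : ∃ C : ℝ, 0 < C ∧ ∀ U : ℝ, 1 ≤ U → ∃ χ : ℍ →ᵇ ℝ,
    (∀ (γ : SL(2, ℤ)) z, χ (γ • z) = χ z) ∧ (∀ z, 0 ≤ χ z ∧ χ z ≤ 1) ∧
      (∀ z ∈ ModularGroup.fd, z ∉ KU U → χ z = 1) ∧ IN 1 χ ≤ C / U := by
  choose g hg using ModularGroup.exists_max_im
  let lh : ℍ → ℝ := fun z => Real.log (g z • z).im
  have h1 : ∀ (γ : SL(2, ℤ)) z, Real.log (γ • z).im ≤ lh z := fun γ z =>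
    Real.log_le_log (γ • z).im_pos (hg z γ)
  have h2 : ∀ (γ : SL(2, ℤ)) z, lh (γ • z) ≤ lh z := fun γ z => by
    have := h1 (g (γ • z) * γ) z
    rwa [mul_smul] at this
  have h3 : ∀ (γ : SL(2, ℤ)) z, lh (γ • z) = lh z := fun γ z => le_antisymm (h2 γ z) (by
    have := h2 γ⁻¹ (γ • z)
    rwa [inv_smul_smul] at this)
  have h4 : LipschitzWith 1 lh := LipschitzWith.of_le_add fun z w => by
    have h5 := dist_log_im_le (g z • z) (g z • w)
    rw [xkg_dist, Real.dist_eq] at h5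
    have h6 := h1 (g z) w
    have h7 := (abs_le.1 h5).2
    change Real.log (g z • z).im ≤ _
    linarith
  refine ⟨(volume (ModularGroup.fd : Set ℍ))⁻¹.toReal * Real.exp 1 + 1, by positivity,
    fun U hU => ?_⟩
  have hU0 : 0 < U := by linarith
  have hb : ∀ z, 0 ≤ max 0 (min 1 (lh z - Real.log U + 1)) ∧
      max 0 (min 1 (lh z - Real.log U + 1)) ≤ 1 := fun z =>
    ⟨le_max_left _ _, max_le zero_le_one (min_le_left _ _)⟩
  have hcont := h4.continuous
  let χ : ℍ →ᵇ ℝ := BoundedContinuousFunction.ofNormedAddCommGroup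
    (fun z => max 0 (min 1 (lh z - Real.log U + 1))) (by fun_prop) 1 fun z => by
      rw [Real.norm_of_nonneg (hb z).1]; exact (hb z).2
  have hχ : ∀ z, χ z = max 0 (min 1 (lh z - Real.log U + 1)) := fun z => rfl
  have hinv : ∀ (γ : SL(2, ℤ)) z, χ (γ • z) = χ z := fun γ z => by rw [hχ, hχ, h3]
  refine ⟨χ, hinv, hb, fun z hz hn => ?_, ?_⟩
  · have h5 : U < z.im := not_le.1 fun h => hn ⟨hz, h⟩
    have h6 := h1 1 z
    rw [one_smul] at h6
    have h7 := Real.log_le_log hU0 h5.le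
    rw [hχ, min_eq_left (by linarith), max_eq_right zero_le_one]
  · have hprob := vmh_prob
    have ht : 0 < U * Real.exp (-1) := by positivity
    have hA : MeasurableSet {z : ℍ | U * Real.exp (-1) < z.im} :=
      (isOpen_lt continuous_const continuous_im).measurableSet
    rw [IN_fd one_pos hinv]
    have h5 : ∫ z, χ z ∂ProbabilityTheory.cond volume ModularGroup.fd ≤
        (ProbabilityTheory.cond (volume : Measure ℍ) ModularGroup.fd).real
          {z : ℍ | U * Real.exp (-1) < z.im} := by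
      rw [← integral_indicator_one hA]
      refine integral_mono_ae (χ.integrable _) ((integrable_const (1 : ℝ)).indicator hA) ?_
      filter_upwards [ProbabilityTheory.ae_cond_mem (μ := volume)
        ModularGroup.isClosed_fd.measurableSet] with z hz
      by_cases h : U * Real.exp (-1) < z.im
      · rw [Set.indicator_of_mem (by exact h)]
        exact (hb z).2
      · rw [Set.indicator_of_notMem (by exact h), hχ]
        refine max_le le_rfl (min_le_of_right_le ?_)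
        have h6 : lh z ≤ Real.log (U * Real.exp (-1)) :=
          Real.log_le_log (g z • z).im_pos ((yue_max hz _).trans (not_lt.1 h))
        rw [Real.log_mul hU0.ne' (Real.exp_pos _).ne', Real.log_exp] at h6
        linarith
    refine h5.trans ?_
    rw [measureReal_def, ProbabilityTheory.cond_apply' hA, ENNReal.toReal_mul]
    have h6 := ENNReal.toReal_le_of_le_ofReal (by positivity) (yue_vol ht)
    refine (mul_le_mul_of_nonneg_left h6 ENNReal.toReal_nonneg).trans ?_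
    rw [mul_inv, Real.exp_neg, inv_inv, le_div_iff₀ hU0]
    have e : (volume (ModularGroup.fd : Set ℍ))⁻¹.toReal * (U⁻¹ * Real.exp 1) * U =
        (volume (ModularGroup.fd : Set ℍ))⁻¹.toReal * Real.exp 1 := by field_simp
    rw [e]
    linarith

theorem ball_lower {w : ℍ} (hw : w ∈ ModularGroup.fd) {r : ℝ} (hr : 0 < r) : ∃ c : ℝ, 0 < c ∧
    ∀ (M : ℕ) (g : ℍ →ᵇ ℝ) (s : ℝ), 0 < M → GInv M g → (∀ z, 0 ≤ g z) →
      (∀ z, dist z w ≤ r → s ≤ g z) → c * s ≤ (M : ℝ) ^ 3 * IN M g := by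
  have hprob := vmh_prob
  have hc := xkg_ball hw hr
  refine ⟨_, hc, fun M g s hM hg h0 hs => ?_⟩
  have : NeZero M := ⟨hM.ne'⟩
  have hfin := vcj_fin hM
  have := Fintype.ofFinite (vcjQ M)
  have hidx : (0 : ℝ) < (CongruenceSubgroup.Gamma M).index := by
    exact_mod_cast Nat.pos_of_ne_zero Subgroup.FiniteIndex.index_ne_zero
  have hI0 : 0 ≤ IN M g := integral_nonneg h0
  rcases le_total s 0 with hs0 | hs0
  · exact (mul_nonpos_of_nonneg_of_nonpos hc.le hs0).trans (by positivity)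
  have hI : ((CongruenceSubgroup.Gamma M).index : ℝ) * IN M g = ∑ c : vcjQ M,
      ∫ τ, g (c.out⁻¹ • τ) ∂ProbabilityTheory.cond volume ModularGroup.fd := by
    rw [IN, integral_mH, finsum_eq_sum_of_fintype, ← mul_assoc,
      mul_inv_cancel₀ hidx.ne', one_mul]
  have h4 : ((CongruenceSubgroup.Gamma M).index : ℝ) ≤ (M : ℝ) ^ 3 := by
    exact_mod_cast index_Gamma_le hM
  refine le_trans ?_ (mul_le_mul_of_nonneg_right h4 hI0)
  rw [hI]
  refine le_trans ?_ (single_le_sum (f := fun c : vcjQ M =>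
    ∫ τ, g (c.out⁻¹ • τ) ∂ProbabilityTheory.cond volume ModularGroup.fd)
    (fun c _ => integral_nonneg fun τ => h0 _) (mem_univ (QuotientGroup.mk 1)))
  obtain ⟨δ, e⟩ := QuotientGroup.mk_out_eq_mul (CongruenceSubgroup.Gamma M) 1
  have e2 : ∀ τ : ℍ, g ((QuotientGroup.mk 1 : vcjQ M).out⁻¹ • τ) = g τ := fun τ => by
    rw [e, one_mul, hg _ (inv_mem δ.2)]
  simp only [e2]
  refine le_trans ?_ (mul_meas_ge_le_integral_of_nonneg (Eventually.of_forall h0)
    (g.integrable _) s)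
  rw [mul_comm]
  exact mul_le_mul_of_nonneg_left (measureReal_mono fun τ hτ => hs τ (Metric.mem_ball.1 hτ).le) hs0

theorem exists_lip {N : ℕ} {φ : ℍ →ᵇ ℝ} (h : GInv N φ) (hb : ‖φ‖ ≤ 1 / 2) {ω : ℝ → ℝ}
    (hω : ∀ ε, 0 < ε → 0 < ω ε) (hc : EqC ω φ) {ε : ℝ} (hε : 0 < ε) : ∃ K : ℝ, 0 < K ∧
      ∃ φ' : ℍ →ᵇ ℝ, GInv N φ' ∧ ‖φ'‖ ≤ 1 / 2 ∧ Lip K φ' ∧ ‖φ - φ'‖ ≤ ε := by
  have hω0 := hω ε hε
  obtain ⟨K, hK, hK1⟩ : ∃ K : ℝ, 0 < K ∧ K * ω ε = 1 :=
    ⟨(ω ε)⁻¹, inv_pos.2 hω0, inv_mul_cancel₀ hω0.ne'⟩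
  have hφ : ∀ z, -(1 / 2) ≤ φ z ∧ φ z ≤ 1 / 2 := fun z =>
    abs_le.1 ((φ.norm_coe_le_norm z).trans hb)
  let F : ℍ → ℝ := fun z => ⨅ w, (φ w + K * dist z w)
  have hlo : ∀ z w, -(1 / 2) ≤ φ w + K * dist z w := fun z w => by
    have := (hφ w).1
    have : 0 ≤ K * dist z w := by positivity
    linarith
  have hle : ∀ z w, F z ≤ φ w + K * dist z w := fun z w =>
    ciInf_le ⟨-(1 / 2), by rintro _ ⟨w, rfl⟩; exact hlo z w⟩ w
  have h1 : ∀ z, F z ≤ φ z := fun z => by simpa using hle z z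
  have h2 : ∀ z, -(1 / 2) ≤ F z := fun z => le_ciInf (hlo z)
  have h3 : ∀ z, φ z - ε ≤ F z := fun z => le_ciInf fun w => by
    rcases le_total (dist z w) (ω ε) with hd | hd
    · have := (abs_le.1 (hc ε hε z w hd)).2
      have : 0 ≤ K * dist z w := by positivity
      linarith
    · have := mul_le_mul_of_nonneg_left hd hK.le
      have := (hφ w).1
      have := (hφ z).2
      linarith
  have h4 : ∀ z z', F z - K * dist z z' ≤ F z' := fun z z' => le_ciInf fun w => by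
    have := hle z w
    have := mul_le_mul_of_nonneg_left (dist_triangle z z' w) hK.le
    linarith
  have h5 : Lip K F := fun z z' => by
    have h6 := h4 z z'
    have h7 := h4 z' z
    rw [dist_comm] at h7
    exact abs_le.2 ⟨by linarith, by linarith⟩
  have h6 : ∀ γ ∈ CongruenceSubgroup.Gamma N, ∀ z, F (γ • z) ≤ F z := fun γ hγ z =>
    le_ciInf fun w => by
      have := hle (γ • z) (γ • w)
      rwa [h γ hγ, xkg_dist] at this
  have hcont : Continuous F :=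
    (LipschitzWith.of_dist_le' (K := K) fun z z' => by rw [Real.dist_eq]; exact h5 z z').continuous
  have hn : ∀ z, ‖F z‖ ≤ 1 / 2 := fun z => abs_le.2 ⟨h2 z, (h1 z).trans (hφ z).2⟩
  refine ⟨K, hK, BoundedContinuousFunction.ofNormedAddCommGroup F hcont (1 / 2) hn,
    fun γ hγ z => le_antisymm (h6 γ hγ z) ?_, (BoundedContinuousFunction.norm_le (by norm_num)).2 hn,
    h5, (BoundedContinuousFunction.norm_le hε.le).2 fun z => ?_⟩
  · have := h6 γ⁻¹ (inv_mem hγ) (γ • z)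
    rwa [inv_smul_smul] at this
  · change |φ z - F z| ≤ ε
    have := h1 z
    have := h3 z
    exact abs_le.2 ⟨by linarith, by linarith⟩

end Pool.Agent.EQ
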