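import Pool.Agent.P.MP_ad7a55_nt.YDf
import Pool.Agent.P.MP_ad7a55_nt.YDb
import Pool.Agent.P.MP_ad7a55_nt.YDc
import Pool.Agent.P.MP_ad7a55_nt.YAb
import Pool.Agent.P.MP_ad7a55_nt.YUe

/-! The finite main theorem at large primes. -/

set_option autoImplicit false

noncomputable section

open MeasureTheory Topology Filter UpperHalfPlane Finset
open scoped MatrixGroups BoundedContinuousFunction Matrix Classical

namespace Pool.Agent.EQ

theorem ydg_prod {κ : Type} [Fintype κ] [Nonempty κ] (f : κ → ℝ) (h : ∀ k, |f k| ≤ 1 / 2) :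
    |∏ k, f k| ≤ 1 / 2 := by
  obtain ⟨k₀⟩ := ‹Nonempty κ›
  rw [← Finset.mul_prod_erase univ f (Finset.mem_univ k₀), abs_mul, Finset.abs_prod]
  have h1 : ∏ k ∈ univ.erase k₀, |f k| ≤ 1 :=
    Finset.prod_le_one (fun k _ => abs_nonneg _) fun k _ => (h k).trans (by norm_num)
  have h2 := mul_le_mul (h k₀) h1 (Finset.prod_nonneg fun k _ => abs_nonneg _) (by norm_num)
  rwa [mul_one] at h2

theorem ydg_pm {n : ℕ} {ι : Type} {s : Shp n ι} {v : VD n} {y q : ℕ} (h : s.Pm v y q) :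
    ¬ q ∣ s.N * s.dd v := by
  intro h1
  refine h.2.2.2 ((Int.natCast_dvd_natCast.2 h1).trans ⟨2 * v.E, ?_⟩)
  push_cast
  ring

theorem ydg_pow {N d b y n : ℕ} {G T : ℝ} (hd : (d : ℝ) ≤ Real.exp (n * T))
    (hT : 1 ≤ T) (hG : (b : ℝ) * (N + n) ≤ G) (hy : G * T ≤ Real.log y) (hy0 : 0 < y) :
    (N * d) ^ b ≤ y := by
  have h1 : (N : ℝ) ≤ Real.exp (N * T) := by
    have h2 := Real.add_one_le_exp (N * T)
    have h3 : (N : ℝ) ≤ N * T := le_mul_of_one_le_right (Nat.cast_nonneg _) hT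
    linarith
  have h2 : ((N * d : ℕ) : ℝ) ≤ Real.exp ((N + n) * T) := by
    rw [add_mul, Real.exp_add, Nat.cast_mul]
    exact mul_le_mul h1 hd (Nat.cast_nonneg _) (Real.exp_pos _).le
  have h3 := pow_le_pow_left₀ (Nat.cast_nonneg _) h2 b
  rw [← Real.exp_nat_mul] at h3
  have h4 : Real.exp (b * ((N + n) * T)) ≤ y := by
    rw [← Real.exp_log (Nat.cast_pos.2 hy0 : (0 : ℝ) < y)]
    refine Real.exp_le_exp.2 (le_trans ?_ hy)
    rw [← mul_assoc]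
    exact mul_le_mul_of_nonneg_right hG (by linarith)
  exact_mod_cast h3.trans h4

theorem Shp.no_ev {n : ℕ} {ι : Type} [Fintype ι] [Nonempty ι] (s : Shp n ι) (hN : 0 < s.N)
    (φ : Fin n → (ℍ →ᵇ ℝ)) (hφ : ∀ k, GInv s.N (φ k)) (hb : ∀ k, ‖φ k‖ ≤ 1 / 2) {K t θ : ℝ}
    (hK : 0 < K) (hl : ∀ k, Lip K (φ k)) (ht : 0 < t) (hθ : 0 < θ) (Uf Yf : ℝ → ℝ)
    (hU : ∀ δ, 1 ≤ Uf δ) (a B : ℕ) : ∃ (m₀ : ℕ) (G₀ : ℝ), ∀ (v : VD n) (L G T W : ℝ) (y : ℕ)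
    (Ws : Shp.Wt v), G₀ ≤ G → s.Ok6 v L G T W a m₀ y → (∀ k ∈ s.J, Tg Uf Yf (v.D k)) →
    Shp.WB B Ws → prb (Orb v.τ)
      (s.Ev6 v (fun c => prF fun k : s.Cu c => φ k) Ws (∏ k ∈ s.J, IN s.N (φ k)) t) < θ := by
  have hne : ∀ c, Nonempty (s.Cu c) := fun c => ⟨⟨s.cr c, s.mem c, s.bs_cr c⟩⟩
  have hm : (0 : ℝ) < Fintype.card ι := by exact_mod_cast Fintype.card_pos
  obtain ⟨K1, hK1, hK1'⟩ : ∃ K1 : ℝ, 0 < K1 ∧ ∀ c, Fintype.card (s.Cu c) * K ≤ K1 := by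
    refine ⟨(n + 1) * K, by positivity, fun c => mul_le_mul_of_nonneg_right ?_ hK.le⟩
    have h1 : Fintype.card (s.Cu c) ≤ n := (Fintype.card_subtype_le _).trans (Fintype.card_fin n).le
    exact_mod_cast h1.trans (Nat.le_succ n)
  have hF1 : ∀ c, Fam s.N 1 K1 (prF fun k : s.Cu c => φ k) := fun c =>
    fam_pr (fun k => hφ k) (fun k => hb k) hK.le (fun k => hl k) (hK1' c)
  have hI : ∀ c, |∏ k : s.Cu c, IN s.N (φ k)| ≤ 1 / 2 := fun c =>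
    ydg_prod _ fun k => (abs_IN_le hN _).trans (hb k)
  obtain ⟨t2, ht2, ht2e⟩ : ∃ t2 : ℝ, 0 < t2 ∧
      t2 = (1 / 2) ^ Fintype.card ι * (t / 2 / Fintype.card ι) ^ 2 := ⟨_, by positivity, rfl⟩
  obtain ⟨θ2, hθ2, hθ2e⟩ : ∃ θ2 : ℝ, 0 < θ2 ∧ θ2 = θ / 2 / Fintype.card ι :=
    ⟨_, by positivity, rfl⟩
  obtain ⟨G1, hA1⟩ := Shp.noA s hK1 (half_pos ht) (half_pos hθ) Uf Yf hU a B
  obtain ⟨G2, hA2⟩ := Shp.noA s hK1 (half_pos ht2) (half_pos hθ2) Uf Yf hU a 1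
  have hδ : 0 < t2 * θ2 / 8 := by positivity
  choose mc ac hq using fun c => tq_small hN (fun k : s.Cu c => φ k) (fun k => hφ k)
    (fun k => hb k) hK (fun k => hl k) (Uf (t2 * θ2 / 8)) (half_pos (half_pos ht2))
  have hmc : ∀ c, mc c ≤ univ.sup mc := fun c => Finset.le_sup (Finset.mem_univ c)
  have hac : ∀ c, ac c ≤ univ.sup ac := fun c => Finset.le_sup (Finset.mem_univ c)
  generalize univ.sup mc = mm at hmc
  generalize univ.sup ac = aa at hac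
  refine ⟨mm.factorial ^ 2, max (max G1 G2) (max (Yf (t2 * θ2 / 8)) (max mm (aa * (s.N + n)))),
    fun v L G T W y Ws hG h hT hW => ?_⟩
  simp only [max_le_iff] at hG
  obtain ⟨⟨g1, g2⟩, g3, g4, g5⟩ := hG
  have hG := h.hG
  have hGy := h.num.2.1
  have hy1 : (1 : ℝ) < y := by
    by_contra h1
    have := Real.log_nonpos (Nat.cast_nonneg y) (not_lt.1 h1)
    nlinarith
  have hy1' : 1 < y := by exact_mod_cast hy1
  have hmy : mm ≤ y := by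
    have h1 := Real.log_le_sub_one_of_pos (by linarith : (0 : ℝ) < y)
    have h2 : (mm : ℝ) ≤ y := by nlinarith
    exact_mod_cast h2
  have hP2 : 2 ≤ v.P.card := by
    by_contra h1
    have h2 : v.P.card ^ a ≤ 1 := pow_le_one₀ (Nat.zero_le _) (by omega)
    have := h.cP
    omega
  by_contra hE
  rw [not_lt] at hE
  obtain ⟨q₀, hq₀, h1⟩ := hA1 v L G T W _ y 1 (fun c => prF fun k : s.Cu c => φ k)
    (fun q u => Ws (v.mv {q} u)) v.P g1 h hT hF1 (Nat.coprime_one_left _) Finset.Subset.rfl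
    (by omega) fun q _ => ⟨Nat.coprime_one_right _, fun u => hW _⟩
  have p₀ := h.pP q₀ hq₀
  have h2 := (h.ev_move hF1 (Nat.coprime_one_left _) hq₀ (Nat.coprime_one_right _) hE).resolve_left
    (not_le.2 h1)
  have hF2 : ∀ c, Fam s.N q₀ K1 (Tq s.N q₀ (prF fun k : s.Cu c => φ k)) := fun c => by
    have := (hF1 c).tq hK1.le hN p₀.1 (fun h3 => ydg_pm p₀ (h3.mul_right _))
      (Nat.coprime_one_right _)
    rwa [one_mul] at this
  rw [← s.prod_Cu fun k => IN s.N (φ k)] at h2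
  obtain ⟨c, h3⟩ := Shp.ev_sq (I := fun c => ∏ k : s.Cu c, IN s.N (φ k)) (B := B)
    (fun c ζ z => ((hF2 c).bd ζ z).trans (by norm_num)) (fun c => (hI c).trans (by norm_num))
    (fun u => hW _) (half_pos ht).le h2
  rw [← ht2e, ← hθ2e] at h3
  have hF3 := Shp.fam2_fam (𝒢 := fun c => Tq s.N q₀ (prF fun k : s.Cu c => φ k)) hK1.le hF2 hI c
  have hd : q₀.Coprime (s.dd v) :=
    (Nat.Prime.coprime_iff_not_dvd p₀.1).2 fun h4 => ydg_pm p₀ (h4.mul_left _)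
  obtain ⟨q, hq', h4⟩ := hA2 v L G T W _ y q₀ _ (fun _ _ => {fun _ => 1}) (v.P.erase q₀) g2 h hT
    hF3 hd (Finset.erase_subset _ _) (by rw [Finset.card_erase_of_mem hq₀]; omega)
    fun q hq' => ⟨(Nat.coprime_primes (h.pP q (Finset.mem_of_mem_erase hq')).1 p₀.1).2
      (Finset.ne_of_mem_erase hq'), fun u => ⟨(Finset.card_singleton _).le, fun W' hW' S => by
        rw [Finset.mem_singleton.1 hW', abs_one]⟩⟩
  have hqP := Finset.mem_of_mem_erase hq'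
  have hqq := Finset.ne_of_mem_erase hq'
  have p₁ := h.pP q hqP
  have hd' : q₀.Coprime (s.dd v * ∏ j, v.l j) :=
    hd.mul_right (Nat.Coprime.prod_right fun j _ =>
      (Nat.coprime_primes p₀.1 (h.pl j).1.1).2 fun e => (h.pl j).2 (e ▸ hq₀))
  have h5 := (h.ev_move hF3 hd' hqP ((Nat.coprime_primes p₁.1 p₀.1).2 hqq) h3).resolve_left
    (not_le.2 h4)
  have hT1 : 1 ≤ T := by linarith [h.GT]
  have h6 := h.ev_rare (𝒢 := fun c => Tq s.N q₀ (prF fun k : s.Cu c => φ k))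
    (I := fun c => ∏ k : s.Cu c, IN s.N (φ k)) (c := c) hqP (fun ζ z => by
      have b1 := abs_le.1 ((hF2 c).bd ζ z)
      have b2 := abs_le.1 (hI c)
      rw [abs_le]
      constructor <;> linarith [b1.1, b1.2, b2.1, b2.2]) (half_pos ht2)
    (fun x hx γ g z hz => hq c (s.N * s.dd v) q₀ q _ (Nat.mul_pos hN h.dd_le.1) p₀.1 p₁.1 hqq.symm
      (lt_of_le_of_lt ((hmc c).trans hmy) p₀.2.1) (lt_of_le_of_lt ((hmc c).trans hmy) p₁.2.1)
      (ydg_pm p₀) (ydg_pm p₁)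
      ((ydg_pow h.dd_le.2 hT1 (le_trans (mul_le_mul_of_nonneg_right
        (by exact_mod_cast hac c) (by positivity)) g5) h.Ty (by omega)).trans p₁.2.1.le)
      (fun k => by
        obtain ⟨e1, e2⟩ := h.zt_det hx γ c k
        rw [e1, Int.natAbs_natCast]
        exact ⟨by exact_mod_cast (h.deg k k.2.1).1, Nat.mul_dvd_mul_left _ e2⟩)
      (h.nrel hx γ c (Nat.pow_le_pow_left (Nat.factorial_le (hmc c)) 2)) g z hz)
    ((h.tight hT hδ g3).1 c)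
  have h7 : t2 * θ2 / 8 / (t2 / 2) = θ2 / 4 := by
    field_simp
    norm_num
  have h8 := h5.trans h6
  rw [h7] at h8
  linarith

theorem fin_main6 {N : ℕ} (hN : 0 < N) (F : IntermediateField ℚ ℂ) [FiniteDimensional ℚ F]
    (n : ℕ) : ∃ e : ℕ, 0 < e ∧ ∀ (φ : Fin n → (ℍ →ᵇ ℝ)), (∀ k, Tc N F (φ k)) →
      (∀ k, ‖φ k‖ ≤ 1 / 2) → ∀ (ι : Type) [Fintype ι] [Nonempty ι] (s : Shp n ι), s.N = N →
      s.e = e → ∀ (Uf Yf : ℝ → ℝ), (∀ δ, 1 ≤ Uf δ) → ∀ (θ : ℝ) (a : ℕ), 0 < θ →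
      ∃ (m₀ : ℕ) (G₀ : ℝ), ∀ (v : VD n) (L G T W : ℝ) (y : ℕ) (ψ : (Fin n × Fn → ℂ) → ℝ),
        G₀ ≤ G → s.Ok6 v L G T W a m₀ y → (∀ k ∈ s.J, Tg Uf Yf (v.D k)) → Oth s.I v.D ψ →
        (∀ z, |ψ z| ≤ 1) → |avg (ON N F v.τ) fun z => ψ z *
          (PT N F φ s.I z - (∏ k ∈ s.J, IN N (φ k)) * PT N F φ (s.I \ s.J) z)| ≤ θ := by
  obtain ⟨e, G1, he, hred⟩ := Shp.red6 hN F n
  refine ⟨e, he, fun φ hφ hb ι _ _ s hsN hse Uf Yf hU θ a hθ => ?_⟩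
  subst hsN
  obtain ⟨ω, hω, hc⟩ := Tc.eqC hN hφ
  have hε : 0 < θ / (8 * (n + 1)) := by positivity
  choose Kf hKf φ' h1 h2 h3 h4 using fun k => exists_lip (hφ k).1.ginv (hb k) hω (hc k) hε
  have hK : 0 < ∑ k, Kf k + 1 := by
    have := Finset.sum_nonneg fun k (_ : k ∈ univ) => (hKf k).le
    linarith
  have hl : ∀ k, Lip (∑ k, Kf k + 1) (φ' k) := fun k z w => by
    refine (h3 k z w).trans (mul_le_mul_of_nonneg_right ?_ dist_nonneg)
    have := Finset.single_le_sum (fun k (_ : k ∈ univ) => (hKf k).le) (Finset.mem_univ k)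
    linarith
  have ht : 0 < θ / 2 - 2 * n * (θ / (8 * (n + 1))) := by
    have e1 : θ / 2 - 2 * n * (θ / (8 * (n + 1))) = θ * (n + 2) / (4 * (n + 1)) := by
      field_simp
      ring
    rw [e1]
    positivity
  have hr : (0 : ℝ) < Module.finrank ℚ F := by exact_mod_cast Module.finrank_pos
  have hθ' : 0 < θ / (4 * Module.finrank ℚ F) := by positivity
  obtain ⟨m₀, G2, hno⟩ := s.no_ev hN φ' h1 h2 hK hl ht hθ' Uf Yf hU a (s.N ^ (3 * n))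
  refine ⟨m₀, max G1 G2, fun v L G T W y ψ hG h hT hO hψ => ?_⟩
  by_contra hE
  have hb1 : ∀ k, ‖φ k‖ ≤ 1 := fun k => (hb k).trans (by norm_num)
  obtain ⟨Ws, hW, h5⟩ := hred ι s φ rfl hse (fun k => (hφ k).1) hb1 v L G T W a m₀ y ψ θ
    ((le_max_left _ _).trans hG) h hO hψ hθ (not_le.1 hE).le
  have h6 := hno v L G T W y Ws ((le_max_right _ _).trans hG) h hT hW
  exact absurd (h5.trans (pb_mono fun x _ hx => Shp.Ev6.approx hN hb1
    (fun k => (h2 k).trans (by norm_num)) hε.le h4 hW hx)) (not_le.2 h6)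

end Pool.Agent.EQ
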