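import Pool.Agent.P.MP_ad7a55_nt.XFj

/-! The group lemma with a small power saving. -/

set_option autoImplicit false

noncomputable section

open Finset
open scoped Pointwise MatrixGroups Classical

namespace Pool.Agent.EQ

theorem yfj_par (m r : ℕ) {e d : ℝ} (he : 0 < e) (hd : 0 < d) :
    ∃ (κ c : ℝ) (I q₀ : ℕ), 0 < c ∧
    κ * (103 * r + 52 : ℕ) ≤ d / 4 ∧ κ * (63 : ℕ) ≤ d / 4 ∧ κ * (63 : ℕ) ≤ e / 2 ∧
    (3 * m : ℕ) + 1 ≤ κ / 2 * I ∧ c * (2 ^ (I + 1) : ℕ) = d / 8 ∧ ∀ q : ℕ, q₀ ≤ q → 5 < q ∧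
      64 ≤ (q : ℝ) ^ (κ / 2) ∧ 3 ≤ (q : ℝ) ^ (e / 2) ∧ 4 ≤ (q : ℝ) ^ (1 / 2 : ℝ) := by
  have hr : (0 : ℝ) ≤ r := Nat.cast_nonneg r
  obtain ⟨κ, k0, k1, k2⟩ : ∃ κ : ℝ, 0 < κ ∧ κ * (103 * r + 63) ≤ d / 4 ∧ κ * 63 ≤ e / 2 := by
    refine ⟨min (d / 4 / (103 * r + 63)) (e / 126), by positivity, ?_, ?_⟩
    · exact (le_div_iff₀ (by positivity)).1 (min_le_left _ _)
    · linarith [min_le_right (d / 4 / (103 * r + 63) : ℝ) (e / 126)]
  have t : ∀ y : ℝ, 0 < y → ∀ b : ℝ, ∀ᶠ q : ℕ in Filter.atTop, b ≤ (q : ℝ) ^ y := fun y hy b =>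
    ((tendsto_rpow_atTop hy).comp tendsto_natCast_atTop_atTop).eventually_ge_atTop b
  obtain ⟨q₀, hq⟩ := Filter.eventually_atTop.1 ((Filter.eventually_gt_atTop 5).and
    ((t _ (half_pos k0) 64).and ((t _ (half_pos he) 3).and (t (1 / 2) (by norm_num) 4))))
  obtain ⟨I, hI⟩ := exists_nat_ge ((((3 * m : ℕ) : ℝ) + 1) / (κ / 2))
  refine ⟨κ, d / 8 / (2 ^ (I + 1) : ℕ), I, q₀, by positivity, ?_, ?_, ?_, ?_,
    div_mul_cancel₀ _ (by positivity), hq⟩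
  · push_cast
    nlinarith
  · push_cast
    nlinarith
  · exact_mod_cast k2
  · rw [div_le_iff₀ (half_pos k0)] at hI
    linarith

theorem group_lemma6 (ι : Type) [Fintype ι] {e c₀ : ℝ} (he : 0 < e) (hc₀ : 0 < c₀) :
    ∃ (c : ℝ) (q₀ : ℕ), 0 < c ∧
    ∀ (q : ℕ) [Fact q.Prime], q₀ ≤ q → ∀ (Y : Type) [Fintype Y] [Nonempty Y]
      [MulAction (ι → GQ q) Y] [MulAction.IsPretransitive (ι → GQ q) Y] (ρ : (ι → GQ q) → ℝ)
      (f f' : Y → ℝ), (∀ g, 0 ≤ ρ g) → ∑ g, ρ g ≤ 1 →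
      (∀ k w, ∑ g with g k = w, ρ g ≤ (q : ℝ) ^ (c - 3)) → (∀ y, 0 ≤ f y) → n2 f ≤ 1 → n2 f' ≤ 1 →
      (∑ y, f y) ^ 2 ≤ (q : ℝ) ^ (-c₀) * Fintype.card Y → (q : ℝ) ^ (-c) ≤ cor ρ f f' →
      ∃ k l, k ≠ l ∧ ∃ X X' : MQ q, X.det ≠ 0 ∧
        (q : ℝ) ^ (-e) ≤ ∑ g with (g l : MQ q) * X = X' * (g k : MQ q), ρ g := by
  obtain ⟨r, hr⟩ := agour ι
  obtain ⟨d, d0, d1, d2⟩ : ∃ d : ℝ, 0 < d ∧ d ≤ c₀ ∧ d ≤ 1 / 2 :=
    ⟨min c₀ (1 / 2), lt_min hc₀ (by norm_num), min_le_left _ _, min_le_right _ _⟩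
  obtain ⟨κ, c, I, q₀, c0, k1, k2, k3, k4, hc, hq⟩ := yfj_par (Fintype.card ι) r he d0
  refine ⟨c, q₀, c0, ?_⟩
  intro q _ hq0 Y _ _ _ _ ρ f f' h0 h1 hk hf0 hf hf' hs hcor
  obtain ⟨q5, q1, q2, q3⟩ := hq q hq0
  have Q1 : (1 : ℝ) < q := by exact_mod_cast (by omega : 1 < q)
  have Q0 : (0 : ℝ) < q := by linarith
  have pw : ∀ y : ℝ, 0 < (q : ℝ) ^ y := fun y => Real.rpow_pos_of_pos Q0 y
  have mono : ∀ {y z : ℝ}, y ≤ z → (q : ℝ) ^ y ≤ (q : ℝ) ^ z := fun h =>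
    Real.rpow_le_rpow_of_exponent_le Q1.le h
  have c16 : ∀ j, j ≤ I + 1 → c * (2 ^ j : ℕ) ≤ d / 8 := fun j hj => by
    rw [← hc]
    exact mul_le_mul_of_nonneg_left
      (by exact_mod_cast Nat.pow_le_pow_right (by norm_num) hj) c0.le
  have hlow : ∀ i, i ≤ I → (q : ℝ) ^ (-(d / 8) : ℝ) ≤ cor (cit ρ i) f f := fun i hi => by
    refine le_trans ?_ ((pow_le_pow_left₀ (pw _).le hcor _).trans (cor_cit hf hf' ρ i))
    rw [← Real.rpow_mul_natCast Q0.le]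
    exact mono (by linarith [c16 (i + 1) (by omega)])
  set K : ℝ := (q : ℝ) ^ κ / 64 with hK
  have K1 : (q : ℝ) ^ (κ / 2) ≤ K := by
    have e1 : (q : ℝ) ^ κ = (q : ℝ) ^ (κ / 2) * (q : ℝ) ^ (κ / 2) := by
      rw [← Real.rpow_add Q0, add_halves]
    rw [hK, e1, le_div_iff₀ (by norm_num)]
    exact mul_le_mul_of_nonneg_left q1 (pw _).le
  have K2 : ∀ n : ℕ, (64 * K) ^ n = (q : ℝ) ^ (κ * n) := fun n => by
    rw [Real.rpow_mul_natCast Q0.le, hK, mul_div_cancel₀ _ (by norm_num)]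
  have hG : (Fintype.card (ι → GQ q) : ℝ) ≤ (q : ℝ) ^ ((3 * Fintype.card ι : ℕ) : ℝ) := by
    rw [Real.rpow_natCast, Fintype.card_fun, pow_mul]
    exact_mod_cast Nat.pow_le_pow_left card_GQ _
  obtain ⟨i, hi, n0, hn⟩ := flat h0 h1 (K := K) (by linarith) (pw (-(d / 8))) I
    ((hlow I le_rfl).trans (cor_le_sum (cit_nonneg h0 I) hf)) (by
      refine hG.trans_lt (lt_of_lt_of_le ?_ (mul_le_mul_of_nonneg_right
        (pow_le_pow_left₀ (pw _).le K1 I) (sq_nonneg _)))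
      rw [← Real.rpow_mul_natCast Q0.le, ← Real.rpow_mul_natCast Q0.le, ← Real.rpow_add Q0]
      refine Real.rpow_lt_rpow_of_exponent_lt Q1 ?_
      push_cast at k4 ⊢
      linarith)
  obtain ⟨S, b, s1, s2, s3, s4⟩ := xfj_struct (cit_nonneg h0 i) (cit_sum h0 h1 i) (cit_symm ρ i)
    (K := K) (by linarith) n0 hn
  rw [K2] at s3
  have hT : ∀ k w, ∃ s ∈ S ^ 3, s k = w := by
    intro k w
    have a1 := xfj_fib (cit_nonneg h0 i) (A := fun x => x * b⁻¹ ∈ S) (fun x => (x * b⁻¹) k)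
      (S.image fun x => x k) (fun g hg => mem_image_of_mem _ hg) (s := (q : ℝ) ^ (c - 3)) fun t =>
        (xfj_mono (cit_nonneg h0 i) fun _ h => h).trans
          (cit_set h0 h1 (fun x => (x * b⁻¹) k = t) (fun w =>
            (xfj_mono h0 (B := fun g => g k = (w k)⁻¹ * t * b k) fun g hg => by
              rw [← hg, Pi.mul_apply, Pi.mul_apply, Pi.inv_apply]
              group).trans (hk k _)) i)
    have a2 : (q : ℝ) ^ (17 / 6 : ℝ) ≤ #(S.image fun x => x k) := by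
      have a3 := s3.trans (mul_le_mul_of_nonneg_left a1 (pw _).le)
      have a4 : (q : ℝ) ^ (κ * (63 : ℕ)) * (q : ℝ) ^ (c - 3) * (q : ℝ) ^ (17 / 6 : ℝ) ≤ 1 := by
        rw [← Real.rpow_add Q0, ← Real.rpow_add Q0, ← Real.rpow_zero q]
        have := c16 1 (by omega)
        push_cast at this
        exact mono (by linarith)
      have a5 := mul_le_mul_of_nonneg_right a3 (pw (17 / 6)).le
      have a6 := mul_le_mul_of_nonneg_left a4
        (Nat.cast_nonneg (α := ℝ) #(S.image fun x => x k))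
      linarith
    obtain ⟨_, ha, _, hb, _, hc', rfl⟩ := gowers q5 (S.image fun x => x k) (by
      refine lt_of_lt_of_le ?_ (pow_le_pow_left₀ (pw _).le a2 3)
      rw [← Real.rpow_mul_natCast Q0.le,
        show (17 / 6 : ℝ) * (3 : ℕ) = 1 / 2 + (8 : ℕ) by norm_num, Real.rpow_add Q0,
        Real.rpow_natCast]
      exact mul_lt_mul_of_pos_right (by linarith) (pow_pos Q0 _)) w
    obtain ⟨x, hx, rfl⟩ := mem_image.1 ha
    obtain ⟨y, hy, rfl⟩ := mem_image.1 hb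
    obtain ⟨z, hz, rfl⟩ := mem_image.1 hc'
    exact ⟨x * y * z, by rw [pow_three']; exact mul_mem_mul (mul_mem_mul hx hy) hz, rfl⟩
  rcases hr q q5 S s1 s2 hT with hu | ⟨k, l, hkl, X, hX, hS⟩
  · exfalso
    have a1 := s4 r
    rw [hu, card_univ, K2] at a1
    have a2 := cor_le_sup (Y := Y) hf0 (cit_le ρ i) (cit_nonneg h0 (i + 1))
    have a3 : (∑ y, f y) ^ 2 / Fintype.card Y ≤ (q : ℝ) ^ (-d) :=
      ((div_le_iff₀ (by exact_mod_cast Fintype.card_pos)).2 hs).trans (mono (by linarith))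
    have a4 := (hlow (i + 1) hi).trans (a2.trans (mul_le_mul ((mul_comm _ _).trans_le
      (a1.trans (mono k1))) a3 (by positivity) (pw _).le))
    rw [← Real.rpow_add Q0] at a4
    exact absurd a4 (Real.rpow_lt_rpow_of_exponent_lt Q1 (by linarith)).not_ge
  · by_contra hcon
    push Not at hcon
    have hd : ((((b l)⁻¹ : GQ q) : MQ q) * X * (b k : MQ q)).det ≠ 0 := by
      rw [Matrix.det_mul, Matrix.det_mul, Matrix.SpecialLinearGroup.det_coe,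
        Matrix.SpecialLinearGroup.det_coe, one_mul, mul_one]
      exact hX
    have a1 := cit_set h0 h1 (fun g => Cj X ((g * b⁻¹) k) ((g * b⁻¹) l))
      (s := (q : ℝ) ^ (-e) + (q : ℝ) ^ (-e)) (fun w =>
        (xfj_two h0 fun g hg => hg.imp (fun h => xfj_alg h)
          fun h => xfj_alg (h.trans (neg_mul _ _).symm)).trans
          (add_le_add (hcon k l hkl _ _ hd).le (hcon k l hkl _ _ hd).le)) i
    have a2 := s3.trans (mul_le_mul (mono k3)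
      ((xfj_mono (cit_nonneg h0 i) fun g hg => hS _ hg).trans a1)
      (sum_nonneg fun g _ => cit_nonneg h0 i g) (pw _).le)
    have a3 : (q : ℝ) ^ (e / 2) * ((q : ℝ) ^ (e / 2) * (q : ℝ) ^ (-e)) = 1 := by
      rw [← Real.rpow_add Q0, ← Real.rpow_add Q0, show e / 2 + (e / 2 + -e) = 0 by ring,
        Real.rpow_zero]
    have a4 := mul_le_mul_of_nonneg_right q2 (mul_pos (pw (e / 2)) (pw (-e))).le
    linarith

end Pool.Agent.EQ
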