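import Pool.Agent.P.MP_ad7a55_nt.XEc

/-! More finite probability. -/

set_option autoImplicit false

noncomputable section

open Finset
open scoped Classical

namespace Pool.Agent.EQ

variable {α β Λ : Type}

theorem ygd_pb (O : Finset α) (p : α → Prop) [DecidablePred p] :
    prb O p = (#{z ∈ O | p z} : ℝ) / #O := by
  unfold prb
  congr

theorem mn_prod (O : Finset α) (U : Finset β) (G : α × β → ℝ) :
    mn (O ×ˢ U) G = mn O fun x => mn U fun u => G (x, u) := by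
  unfold mn
  rw [sum_product, card_product, ← sum_div, div_div, Nat.cast_mul, mul_comm]

theorem prb_prod (O : Finset α) (U : Finset β) (p : α × β → Prop) :
    prb (O ×ˢ U) p = mn O fun x => prb U fun u => p (x, u) := by
  rw [pb_eq, mn_prod]
  exact congrArg _ (funext fun x => (pb_eq U fun u => p (x, u)).symm)

theorem sq_mn_le (O : Finset α) (G : α → ℝ) : mn O G ^ 2 ≤ mn O fun x => G x ^ 2 := by
  unfold mn
  rcases (Nat.cast_nonneg (α := ℝ) #O).eq_or_lt with h0 | h0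
  · rw [← h0]
    simp
  · rw [div_pow, div_le_div_iff₀ (by positivity) h0]
    have h := sq_sum_le_card_mul_sum_sq (s := O) (f := G)
    nlinarith [mul_le_mul_of_nonneg_right h h0.le]

theorem sq_prb (U : Finset β) (p : β → Prop) :
    prb U p ^ 2 = prb (U ×ˢ U) fun z => p z.1 ∧ p z.2 := by
  have e : ({z ∈ U ×ˢ U | p z.1 ∧ p z.2} : Finset (β × β)) = {x ∈ U | p x} ×ˢ {x ∈ U | p x} := by
    ext z
    simp only [mem_filter, mem_product]
    tauto
  rw [ygd_pb, ygd_pb, e, card_product, card_product, div_pow, sq, sq]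
  push_cast
  rfl

theorem exists_mn_le {O : Finset α} (hO : O.Nonempty) (G : α → ℝ) : ∃ x ∈ O, mn O G ≤ G x := by
  by_contra hc
  push Not at hc
  have h1 : mn O G < mn O fun _ => mn O G := by
    have h0 : (0 : ℝ) < #O := by exact_mod_cast hO.card_pos
    exact div_lt_div_of_pos_right (sum_lt_sum_of_nonempty hO hc) h0
  rw [mn_const hO] at h1
  exact lt_irrefl _ h1

theorem big_fibre {V : Finset α} (hV : V.Nonempty) (lab : α → Λ) (T : Finset Λ)
    (h : ∀ w ∈ V, lab w ∈ T) : ∃ a ∈ T, #V ≤ #T * #{w ∈ V | lab w = a} := by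
  obtain ⟨w, hw⟩ := hV
  obtain ⟨a, ha, hm⟩ := exists_max_image T (fun a => #{w ∈ V | lab w = a}) ⟨_, h w hw⟩
  refine ⟨a, ha, ?_⟩
  rw [card_eq_sum_card_fiberwise (f := lab) (t := T) fun w hw => h w hw]
  exact sum_le_card_nsmul _ _ _ hm

theorem mn_update {κ : Type} [Fintype κ] (X : κ → Finset α) (j : κ) (hX : (X j).Nonempty)
    (G : (κ → α) → ℝ) : mn (Fintype.piFinset X) G =
      mn (Fintype.piFinset X) fun t => mn (X j) fun a => G (Function.update t j a) := by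
  have h1 := mn_prod (Fintype.piFinset X) (X j) fun z => G (Function.update z.1 j z.2)
  have h2 := mn_perm (O := Fintype.piFinset X ×ˢ X j)
    (π := fun z => (Function.update z.1 j z.2, z.1 j)) (fun z hz => by
      obtain ⟨a1, a2⟩ := mem_product.1 hz
      have a3 := Fintype.mem_piFinset.1 a1
      refine mem_product.2 ⟨Fintype.mem_piFinset.2 fun i => ?_, a3 j⟩
      by_cases hi : i = j
      · subst hi
        simpa using a2
      · simpa [Function.update_of_ne hi] using a3 i)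
    (fun z _ z' _ hz => by
      have a1 := congrArg Prod.fst hz
      have a2 := congrArg Prod.snd hz
      simp only at a1 a2
      refine Prod.ext (funext fun i => ?_) ?_
      · by_cases hi : i = j
        · rw [hi]
          exact a2
        · have := congrFun a1 i
          rwa [Function.update_of_ne hi, Function.update_of_ne hi] at this
      · have := congrFun a1 j
        rwa [Function.update_self, Function.update_self] at this)
    fun z => G z.1
  have h3 := mn_prod (Fintype.piFinset X) (X j) fun z => G z.1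
  simp only [mn_const hX] at h3
  exact h3.symm.trans (h2.symm.trans h1)

theorem mn_pow {σ : Type} [Fintype σ] (Y : σ → ℝ) (m : ℕ) :
    mn univ Y ^ m = mn (univ : Finset (Fin m → σ)) fun t => ∏ i, Y (t i) := by
  have h := xec_prod (fun _ : Fin m => (univ : Finset σ)) fun _ => Y
  rw [Fintype.piFinset_univ, prod_const, card_univ, Fintype.card_fin] at h
  exact h.symm

theorem few_single (σ : Type) [Fintype σ] [Nonempty σ] (r : ℕ) :
    prb (univ : Finset (Fin (2 * r) → σ)) (fun S => ¬ ∃ i₀, ∀ i, i ≠ i₀ → S i ≠ S i₀) ≤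
      ((r : ℝ) ^ 2 / Fintype.card σ) ^ r := by
  have hσ : (0 : ℝ) < Fintype.card σ := by exact_mod_cast Fintype.card_pos
  have h1 : ({S ∈ (univ : Finset (Fin (2 * r) → σ)) | ¬ ∃ i₀, ∀ i, i ≠ i₀ → S i ≠ S i₀} :
      Finset (Fin (2 * r) → σ)) ⊆
      (univ : Finset ((Fin r → σ) × (Fin (2 * r) → Fin r))).image fun z => z.1 ∘ z.2 := by
    intro S hS
    have h2 := (mem_filter.1 hS).2
    push Not at h2
    have h3 : 2 * #(univ.image S) ≤ #(univ : Finset (Fin (2 * r))) := by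
      refine mul_card_image_le_card _ _ fun b hb => ?_
      obtain ⟨i₀, -, rfl⟩ := mem_image.1 hb
      obtain ⟨i, hi, hs⟩ := h2 i₀
      exact one_lt_card.2 ⟨i, mem_filter.2 ⟨mem_univ _, hs⟩, i₀,
        mem_filter.2 ⟨mem_univ _, rfl⟩, hi⟩
    rw [card_univ, Fintype.card_fin] at h3
    have h4 : Fintype.card (univ.image S) ≤ Fintype.card (Fin r) := by
      rw [Fintype.card_coe, Fintype.card_fin]
      omega
    obtain ⟨f⟩ := Function.Embedding.nonempty_of_card_le h4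
    refine mem_image.2 ⟨(Function.extend f Subtype.val fun _ => Classical.arbitrary σ,
      fun i => f ⟨S i, mem_image_of_mem S (mem_univ i)⟩), mem_univ _, funext fun i => ?_⟩
    exact f.injective.extend_apply Subtype.val (fun _ => Classical.arbitrary σ)
      ⟨S i, mem_image_of_mem S (mem_univ i)⟩
  have h5 := (card_le_card h1).trans card_image_le
  rw [card_univ, Fintype.card_prod, Fintype.card_fun, Fintype.card_fun, Fintype.card_fin,
    Fintype.card_fin] at h5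
  have h6 : (#{S ∈ (univ : Finset (Fin (2 * r) → σ)) | ¬ ∃ i₀, ∀ i, i ≠ i₀ → S i ≠ S i₀} : ℝ) ≤
      (Fintype.card σ : ℝ) ^ r * (r : ℝ) ^ (2 * r) := by exact_mod_cast h5
  rw [ygd_pb, card_univ, Fintype.card_fun, Fintype.card_fin]
  push_cast
  rw [div_le_iff₀ (by positivity)]
  refine h6.trans (le_of_eq ?_)
  rw [div_pow, ← pow_mul, two_mul, pow_add (Fintype.card σ : ℝ)]
  field_simp

theorem fib_tuples {𝔅 : Type} [Fintype 𝔅] (A : Finset α) (V : α → Finset 𝔅) {B : Finset ℕ}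
    (W : ℕ → α → Finset 𝔅) {e v : ℝ} (he : 0 < e) (hv : 0 ≤ v) (hB : B.Nonempty) {r : ℕ}
    (hr : 0 < r) (h1 : ∀ q ∈ B, ∀ a ∈ A, W q a ⊆ V a)
    (h2 : ∀ q ∈ B, e * ∑ a ∈ A, (#(V a) : ℝ) ≤ ∑ a ∈ A, (#(W q a) : ℝ))
    (h3 : v * #A * Fintype.card 𝔅 ≤ ∑ a ∈ A, (#(V a) : ℝ)) :
    ((e / 8) ^ 2 * v) ^ r * #A * (Fintype.card 𝔅 : ℝ) ^ r ≤
      #{z ∈ A ×ˢ (univ : Finset (Fin r → 𝔅)) | (∀ i, z.2 i ∈ V z.1) ∧
        (e / 8) ^ (r + 1) / 2 * #B ≤ #{q ∈ B | ∀ i, z.2 i ∈ W q z.1}} := by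
  have hB0 : (0 : ℝ) < #B := by exact_mod_cast hB.card_pos
  obtain ⟨k, rfl⟩ : ∃ k, r = k + 1 := ⟨r - 1, by omega⟩
  set N : ℝ := (Fintype.card 𝔅 : ℝ) with hN
  have hN0 : 0 ≤ N := Nat.cast_nonneg _
  set c : ℝ := e / 4 * v * N with hc
  have hc0 : 0 ≤ c := by positivity
  let Gd : α → Prop := fun a => c ≤ #(V a) ∧ e / 4 * #B * #(V a) ≤ ∑ q ∈ B, (#(W q a) : ℝ)
  have g1 : ∀ a ∈ A, ∑ q ∈ B, (#(W q a) : ℝ) ≤
      #B * ((if Gd a then (#(V a) : ℝ) else 0) + c + e / 4 * #(V a)) := fun a ha => by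
    have b1 : ∑ q ∈ B, (#(W q a) : ℝ) ≤ #B * #(V a) := by
      rw [← nsmul_eq_mul]
      exact sum_le_card_nsmul _ _ _ fun q hq => by exact_mod_cast card_le_card (h1 q hq a ha)
    have b2 : (0 : ℝ) ≤ #(V a) := Nat.cast_nonneg _
    have b3 : 0 ≤ (#B : ℝ) * c := by positivity
    have b4 : 0 ≤ (#B : ℝ) * (e / 4 * #(V a)) := by positivity
    by_cases hg : Gd a
    · rw [if_pos hg]
      nlinarith
    · rw [if_neg hg]
      rcases not_and_or.1 hg with b5 | b5
      · nlinarith [mul_le_mul_of_nonneg_left (not_le.1 b5).le hB0.le]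
      · nlinarith [not_le.1 b5]
  have g2 : #B * (e * ∑ a ∈ A, (#(V a) : ℝ)) ≤ ∑ a ∈ A, ∑ q ∈ B, (#(W q a) : ℝ) := by
    rw [sum_comm, ← nsmul_eq_mul]
    exact card_nsmul_le_sum _ _ _ h2
  have g3 := g2.trans (sum_le_sum g1)
  rw [← mul_sum, sum_add_distrib, sum_add_distrib, sum_const, nsmul_eq_mul, ← mul_sum] at g3
  have g4 := le_of_mul_le_mul_left g3 hB0
  have g5 : 2 * (c * #A) ≤ ∑ a ∈ A, if Gd a then (#(V a) : ℝ) else 0 := by
    have b1 : c * #A ≤ e / 4 * ∑ a ∈ A, (#(V a) : ℝ) := by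
      have := mul_le_mul_of_nonneg_left h3 (show 0 ≤ e / 4 by positivity)
      rw [hc]
      linarith
    linarith
  have g6 : ∀ a ∈ A, (e / 8) ^ (k + 1) / 2 * c ^ k * (if Gd a then (#(V a) : ℝ) else 0) ≤
      #{t ∈ (univ : Finset (Fin (k + 1) → 𝔅)) | (∀ i, t i ∈ V a) ∧
        (e / 8) ^ (k + 1 + 1) / 2 * #B ≤ #{q ∈ B | ∀ i, t i ∈ W q a}} := fun a ha => by
    by_cases hg : Gd a
    swap
    · rw [if_neg hg, mul_zero]
      positivity
    rw [if_pos hg]
    rcases (Nat.cast_nonneg (α := ℝ) #(V a)).eq_or_lt with h0 | h0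
    · rw [← h0, mul_zero]
      positivity
    let Ba : Finset ℕ := {q ∈ B | e / 8 * #(V a) ≤ (#(W q a) : ℝ)}
    have b1 : e / 8 * #B ≤ #Ba := by
      have c1 : ∑ q ∈ B, (#(W q a) : ℝ) ≤
          ∑ q ∈ B, ((if e / 8 * #(V a) ≤ (#(W q a) : ℝ) then (1 : ℝ) else 0) * #(V a) +
            e / 8 * #(V a)) := sum_le_sum fun q hq => by
        have d1 : (#(W q a) : ℝ) ≤ #(V a) := by exact_mod_cast card_le_card (h1 q hq a ha)
        have d2 : 0 ≤ e / 8 * #(V a) := by positivity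
        split_ifs with hh
        · linarith
        · linarith [not_le.1 hh]
      rw [sum_add_distrib, ← sum_mul, sum_boole, sum_const, nsmul_eq_mul] at c1
      refine le_of_mul_le_mul_right ?_ h0
      have c2 := hg.2
      change e / 8 * #B * #(V a) ≤ (#{q ∈ B | e / 8 * #(V a) ≤ (#(W q a) : ℝ)} : ℝ) * #(V a)
      linarith
    have b2 : Ba.Nonempty := by
      have : (0 : ℝ) < #Ba := lt_of_lt_of_le (by positivity) b1
      exact card_pos.1 (by exact_mod_cast this)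
    have b3 := tuples (V a) Ba (fun q => W q a) (e := e / 8) (by positivity)
      (fun q hq => ⟨h1 q (mem_filter.1 hq).1 a ha, (mem_filter.1 hq).2⟩) b2 (k + 1)
    have b4 : (e / 8) ^ (k + 1) / 2 * c ^ k * #(V a) ≤
        (e / 8) ^ (k + 1) / 2 * (#(V a) : ℝ) ^ (k + 1) := by
      rw [mul_assoc, pow_succ (#(V a) : ℝ)]
      exact mul_le_mul_of_nonneg_left (mul_le_mul_of_nonneg_right
        (pow_le_pow_left₀ hc0 hg.1 k) h0.le) (by positivity)
    refine b4.trans (b3.trans (Nat.cast_le.2 (card_le_card fun t ht => ?_)))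
    obtain ⟨d1, d2⟩ := mem_filter.1 ht
    refine mem_filter.2 ⟨mem_univ _, Fintype.mem_piFinset.1 d1, le_trans ?_ (d2.trans ?_)⟩
    · have := mul_le_mul_of_nonneg_left b1 (show 0 ≤ (e / 8) ^ (k + 1) / 2 by positivity)
      rw [pow_succ (e / 8) (k + 1)]
      linarith
    · refine Nat.cast_le.2 (card_le_card fun q hq => ?_)
      obtain ⟨d3, d4⟩ := mem_filter.1 hq
      exact mem_filter.2 ⟨(mem_filter.1 d3).1, d4⟩
  have g7 := sum_le_sum g6
  rw [← mul_sum] at g7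
  have g8 : (#{z ∈ A ×ˢ (univ : Finset (Fin (k + 1) → 𝔅)) | (∀ i, z.2 i ∈ V z.1) ∧
        (e / 8) ^ (k + 1 + 1) / 2 * #B ≤ #{q ∈ B | ∀ i, z.2 i ∈ W q z.1}} : ℝ) =
      ∑ a ∈ A, (#{t ∈ (univ : Finset (Fin (k + 1) → 𝔅)) | (∀ i, t i ∈ V a) ∧
        (e / 8) ^ (k + 1 + 1) / 2 * #B ≤ #{q ∈ B | ∀ i, t i ∈ W q a}} : ℝ) := by
    rw [card_filter, sum_product, Nat.cast_sum]
    exact sum_congr rfl fun a _ => by rw [card_filter]
  rw [g8]
  refine le_trans ?_ ((mul_le_mul_of_nonneg_left g5 (by positivity)).trans g7)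
  have g9 : (e / 8 * v * N) ^ (k + 1) ≤ c ^ (k + 1) :=
    pow_le_pow_left₀ (by positivity) (by
      rw [hc]
      have : 0 ≤ e * v * N := by positivity
      linarith) _
  have g10 := mul_le_mul_of_nonneg_left g9
    (show 0 ≤ (e / 8) ^ (k + 1) * (#A : ℝ) by positivity)
  calc ((e / 8) ^ 2 * v) ^ (k + 1) * #A * N ^ (k + 1)
      = (e / 8) ^ (k + 1) * #A * (e / 8 * v * N) ^ (k + 1) := by
        rw [sq, mul_assoc (e / 8), mul_pow, mul_pow _ N]
        ring
    _ ≤ (e / 8) ^ (k + 1) * #A * c ^ (k + 1) := g10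
    _ = _ := by ring

theorem few_corr6 {S : Finset β} (X T : Finset α) (hT : T ⊆ X) (w : β → ℝ) (f : α → β → ℝ)
    {t e s : ℝ} (ht : 0 < t) (hs : 0 ≤ s) (hw : ∀ i, |w i| ≤ 1) (hf : ∀ a ∈ T, ∀ i, |f a i| ≤ 1)
    (h1 : ∀ a ∈ T, t ≤ |mn S fun i => w i * f a i|)
    (h2 : prb X.offDiag (fun z => e < |mn S fun i => f z.1 i * f z.2 i|) ≤ s)
    (he : 2 * e ≤ t ^ 2) : (#T : ℝ) ≤ 4 / t ^ 2 + 2 * Real.sqrt s * #X / t := by
  have hs' : ∀ x : ℝ, ∃ s : ℝ, |s| ≤ 1 ∧ s * x = |x| := fun x => by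
    rcases le_total 0 x with h | h
    · exact ⟨1, by simp, by rw [one_mul, abs_of_nonneg h]⟩
    · exact ⟨-1, by simp, by rw [neg_one_mul, abs_of_nonpos h]⟩
  choose g hs1 hs2 using fun a => hs' (mn S fun i => w i * f a i)
  have a1 : #T * t ≤ mn S fun i => w i * ∑ a ∈ T, g a * f a i := by
    have e1 : (mn S fun i => w i * ∑ a ∈ T, g a * f a i) =
        ∑ a ∈ T, g a * mn S fun i => w i * f a i := by
      simp only [← mn_mul]
      rw [← mn_sum]
      refine congrArg _ (funext fun i => ?_)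
      rw [mul_sum]
      exact sum_congr rfl fun a _ => by ring
    rw [e1, ← nsmul_eq_mul]
    exact card_nsmul_le_sum _ _ _ fun a ha => (h1 a ha).trans (hs2 a).ge
  have a2 : (mn S fun i => (w i * ∑ a ∈ T, g a * f a i) ^ 2) ≤
      mn S fun i => (∑ a ∈ T, g a * f a i) ^ 2 := mn_mono fun i _ => by
    rw [mul_pow]
    exact mul_le_of_le_one_left (sq_nonneg _) ((sq_le_one_iff_abs_le_one _).2 (hw i))
  have a3 : (mn S fun i => (∑ a ∈ T, g a * f a i) ^ 2) =
      ∑ z ∈ T ×ˢ T, g z.1 * g z.2 * mn S fun i => f z.1 i * f z.2 i := by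
    simp only [← mn_mul]
    rw [← mn_sum]
    refine congrArg _ (funext fun i => ?_)
    rw [sq, sum_mul_sum, sum_product]
    exact sum_congr rfl fun a _ => sum_congr rfl fun a' _ => by ring
  let Bd : Finset (α × α) := {z ∈ X.offDiag | e < |mn S fun i => f z.1 i * f z.2 i|}
  have a4 : ∀ z ∈ T ×ˢ T, g z.1 * g z.2 * (mn S fun i => f z.1 i * f z.2 i) ≤
      (if z.1 = z.2 then (1 : ℝ) else 0) + t ^ 2 / 2 + if z ∈ Bd then 1 else 0 := fun z hz => by
    obtain ⟨ha, ha'⟩ := mem_product.1 hz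
    have c1 : g z.1 * g z.2 * (mn S fun i => f z.1 i * f z.2 i) ≤
        |mn S fun i => f z.1 i * f z.2 i| := by
      refine (le_abs_self _).trans ?_
      rw [abs_mul, abs_mul]
      exact mul_le_of_le_one_left (abs_nonneg _) (mul_le_one₀ (hs1 _) (abs_nonneg _) (hs1 _))
    have c2 : |mn S fun i => f z.1 i * f z.2 i| ≤ 1 := by
      refine (abs_mn_le _ _).trans ?_
      rcases S.eq_empty_or_nonempty with rfl | hS
      · simp [mn]
      · refine le_trans (mn_mono fun i _ => ?_) (mn_const hS 1).le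
        rw [abs_mul]
        exact mul_le_one₀ (hf _ ha i) (abs_nonneg _) (hf _ ha' i)
    have c3 : 0 ≤ t ^ 2 / 2 := by positivity
    refine c1.trans ?_
    by_cases h5 : z.1 = z.2
    · rw [if_pos h5]
      split_ifs <;> linarith
    · rw [if_neg h5]
      by_cases h6 : z ∈ Bd
      · rw [if_pos h6]
        linarith
      · rw [if_neg h6]
        have c4 : |mn S fun i => f z.1 i * f z.2 i| ≤ e := not_lt.1 fun hh =>
          h6 (mem_filter.2 ⟨mem_offDiag.2 ⟨hT ha, hT ha', h5⟩, hh⟩)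
        linarith
  have a5 : ∑ z ∈ T ×ˢ T, (if z.1 = z.2 then (1 : ℝ) else 0) = #T := by
    rw [sum_product]
    rw [sum_congr rfl fun a ha => (sum_ite_eq T a fun _ => (1 : ℝ)).trans (if_pos ha)]
    simp
  have a6 : ∑ z ∈ T ×ˢ T, (if z ∈ Bd then (1 : ℝ) else 0) ≤ s * (#X : ℝ) ^ 2 := by
    rw [sum_boole]
    have c1 : (#{z ∈ T ×ˢ T | z ∈ Bd} : ℝ) ≤ #Bd :=
      Nat.cast_le.2 (card_le_card fun z hz => (mem_filter.1 hz).2)
    have c2 : (#X.offDiag : ℝ) ≤ (#X : ℝ) ^ 2 := by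
      rw [sq, ← Nat.cast_mul, Nat.cast_le, offDiag_card]
      exact Nat.sub_le _ _
    have c3 : (#Bd : ℝ) ≤ s * #X.offDiag := by
      rcases (Nat.cast_nonneg (α := ℝ) #X.offDiag).eq_or_lt with h0 | h0
      · rw [← h0, mul_zero, h0]
        exact Nat.cast_le.2 (card_filter_le _ _)
      · rw [ygd_pb, div_le_iff₀ h0] at h2
        exact h2
    exact c1.trans (c3.trans (mul_le_mul_of_nonneg_left c2 hs))
  have a7 := sum_le_sum a4
  rw [sum_add_distrib, sum_add_distrib, a5, sum_const, card_product, nsmul_eq_mul,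
    Nat.cast_mul, ← a3] at a7
  have a8 : (#T * t) ^ 2 ≤ #T + #T * #T * (t ^ 2 / 2) + s * (#X : ℝ) ^ 2 :=
    (pow_le_pow_left₀ (by positivity) a1 2).trans ((sq_mn_le _ _).trans (a2.trans (by linarith)))
  by_contra hc
  have hc' := not_le.1 hc
  have b1 : 0 ≤ 2 * Real.sqrt s * #X / t := by positivity
  have b2 : 0 < 4 / t ^ 2 := by positivity
  have b3 : 4 < #T * t ^ 2 := (div_lt_iff₀ (by positivity)).1 (by linarith)
  have b4 : 2 * Real.sqrt s * #X < #T * t := (div_lt_iff₀ ht).1 (by linarith)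
  have b5 : (2 * Real.sqrt s * #X) ^ 2 ≤ (#T * t) ^ 2 :=
    pow_le_pow_left₀ (by positivity) b4.le 2
  rw [mul_pow, mul_pow, Real.sq_sqrt hs] at b5
  have b6 : (0 : ℝ) < #T := by linarith
  nlinarith [mul_lt_mul_of_pos_left b3 b6]

theorem ygd_tel (ι : Type) [Fintype ι] : ∃ A B : ι → Finset ι, (∀ c, c ∉ A c) ∧
    ∀ a b : ι → ℝ, ∏ c, a c - ∏ c, b c =
      ∑ c, ((∏ j ∈ A c, a j) * ∏ j ∈ B c, b j) * (a c - b c) := by
  let _ : LinearOrder ι := LinearOrder.lift' (Fintype.equivFin ι) (Fintype.equivFin ι).injective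
  refine ⟨fun c => {j | j < c}, fun c => {j | c < j}, fun c => by simp, fun a b => ?_⟩
  have h := Finset.prod_add_ordered (univ : Finset ι) b (fun c => a c - b c)
  simp only [add_sub_cancel] at h
  rw [h, add_sub_cancel_left]
  exact sum_congr rfl fun c _ => by ring

theorem ygd_prod_le {ι : Type} (A : Finset ι) {a : ι → ℝ} (h : ∀ j, |a j| ≤ 1) :
    |∏ j ∈ A, a j| ≤ 1 := by
  rw [Finset.abs_prod]
  exact Finset.prod_le_one (fun j _ => abs_nonneg _) fun j _ => h j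

theorem ygd_fib {ι Y : Type} [Fintype ι] (X : Finset Y) (c : ι) (S : Finset (ι → Y))
    (hS : S ⊆ Fintype.piFinset fun _ : ι => X) {B : ℝ}
    (h : ∀ T ⊆ S, (∀ ξ ∈ T, ∀ ξ' ∈ T, ∀ j, j ≠ c → ξ j = ξ' j) → (#T : ℝ) ≤ B) :
    (#S : ℝ) ≤ B * (#X : ℝ) ^ (Fintype.card ι - 1) := by
  have h1 := card_eq_sum_card_fiberwise (s := S)
    (t := Fintype.piFinset fun _ : {j : ι // ¬ j = c} => X) (f := fun ξ j => ξ j.1)
    (fun ξ hξ => by
      have := Fintype.mem_piFinset.1 (hS hξ)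
      exact Fintype.mem_piFinset.2 fun j => this j.1)
  rw [h1]
  push_cast
  refine (sum_le_card_nsmul _ _ B fun b _ => h _ (filter_subset _ _) fun ξ hξ ξ' hξ' j hj => ?_).trans
    (le_of_eq ?_)
  · exact (congrFun (mem_filter.1 hξ).2 ⟨j, hj⟩).trans (congrFun (mem_filter.1 hξ').2 ⟨j, hj⟩).symm
  · rw [Fintype.card_piFinset, prod_const, card_univ, Fintype.card_subtype_compl,
      Fintype.card_subtype_eq, nsmul_eq_mul, mul_comm]
    push_cast
    rfl

theorem cor_count6 {ι : Type} [Fintype ι] [Nonempty ι] (S : Finset β) (X : Finset α)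
    (G : ι → α → β → ℝ) (I : ι → β → ℝ) (W : β → ℝ) {t e s : ℝ} (ht : 0 < t) (hs : 0 ≤ s)
    (hG : ∀ c, ∀ ξ ∈ X, ∀ i, |G c ξ i| ≤ 1 ∧ |G c ξ i - I c i| ≤ 1) (hI : ∀ c i, |I c i| ≤ 1)
    (hW : ∀ i, |W i| ≤ 1)
    (h : ∀ c, prb X.offDiag
      (fun z => e < |mn S fun i => (G c z.1 i - I c i) * (G c z.2 i - I c i)|) ≤ s)
    (he : 2 * e ≤ (t / Fintype.card ι) ^ 2) :
    (#{ξ ∈ Fintype.piFinset fun _ : ι => X |
      t ≤ |mn S fun i => W i * (∏ c, G c (ξ c) i - ∏ c, I c i)|} : ℝ) ≤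
      Fintype.card ι * (4 / (t / Fintype.card ι) ^ 2 +
        2 * Real.sqrt s * #X / (t / Fintype.card ι)) * (#X : ℝ) ^ (Fintype.card ι - 1) := by
  obtain ⟨A, B, hA, hAB⟩ := ygd_tel ι
  have hr : (0 : ℝ) < Fintype.card ι := by exact_mod_cast Fintype.card_pos
  have ht' : 0 < t / Fintype.card ι := div_pos ht hr
  let w : ι → (ι → α) → β → ℝ := fun c ξ i =>
    W i * ((∏ j ∈ A c, G j (ξ j) i) * ∏ j ∈ B c, I j i)
  let R : ι → Finset (ι → α) := fun c => {ξ ∈ Fintype.piFinset fun _ : ι => X |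
    t / Fintype.card ι ≤ |mn S fun i => w c ξ i * (G c (ξ c) i - I c i)|}
  have h1 : ∀ c, (#(R c) : ℝ) ≤ (4 / (t / Fintype.card ι) ^ 2 +
      2 * Real.sqrt s * #X / (t / Fintype.card ι)) * (#X : ℝ) ^ (Fintype.card ι - 1) := fun c => by
    refine ygd_fib X c (R c) (filter_subset _ _) fun T hT hc => ?_
    rcases T.eq_empty_or_nonempty with rfl | ⟨ξ₀, h0⟩
    · rw [card_empty, Nat.cast_zero]
      positivity
    have hX : ∀ ξ ∈ T, ∀ j, ξ j ∈ X := fun ξ hξ =>
      Fintype.mem_piFinset.1 (mem_filter.1 (hT hξ)).1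
    have hi : Set.InjOn (fun ξ : ι → α => ξ c) T := fun ξ hξ ξ' hξ' e => funext fun j => by
      by_cases hj : j = c
      · rw [hj]
        exact e
      · exact hc ξ hξ ξ' hξ' j hj
    rw [← card_image_of_injOn hi]
    have hm : ∀ a ∈ T.image fun ξ : ι → α => ξ c, a ∈ X := fun a ha => by
      obtain ⟨ξ, hξ, rfl⟩ := mem_image.1 ha
      exact hX ξ hξ c
    refine few_corr6 (S := S) X _ hm (w c ξ₀) (fun a i => G c a i - I c i) ht' hs (fun i => ?_)
      (fun a ha i => (hG c _ (hm a ha) i).2) (fun a ha => ?_) (h c) he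
    · simp only [w, abs_mul]
      exact mul_le_one₀ (hW i) (by positivity) (mul_le_one₀
        (ygd_prod_le _ fun j => (hG j _ (hX ξ₀ h0 j) i).1) (abs_nonneg _)
        (ygd_prod_le _ fun j => hI j i))
    · obtain ⟨ξ, hξ, rfl⟩ := mem_image.1 ha
      have e1 : w c ξ₀ = w c ξ := funext fun i => by
        simp only [w]
        rw [prod_congr rfl fun j hj => by rw [hc ξ₀ h0 ξ hξ j fun e => hA c (e ▸ hj)]]
      rw [e1]
      exact (mem_filter.1 (hT hξ)).2
  have h2 : ({ξ ∈ Fintype.piFinset fun _ : ι => X |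
      t ≤ |mn S fun i => W i * (∏ c, G c (ξ c) i - ∏ c, I c i)|} : Finset (ι → α)) ⊆
        univ.biUnion R := by
    intro ξ hξ
    obtain ⟨a1, a2⟩ := mem_filter.1 hξ
    by_contra hn
    have a3 : ∀ c, |mn S fun i => w c ξ i * (G c (ξ c) i - I c i)| < t / Fintype.card ι :=
      fun c => not_le.1 fun a => hn (mem_biUnion.2 ⟨c, mem_univ _, mem_filter.2 ⟨a1, a⟩⟩)
    have a4 : (mn S fun i => W i * (∏ c, G c (ξ c) i - ∏ c, I c i)) =
        ∑ c, mn S fun i => w c ξ i * (G c (ξ c) i - I c i) := by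
      rw [← mn_sum]
      refine congrArg _ (funext fun i => ?_)
      rw [hAB (fun c => G c (ξ c) i) (fun c => I c i), mul_sum]
      exact sum_congr rfl fun c _ => by simp only [w]; ring
    have a5 := (abs_sum_le_sum_abs _ _).trans_lt (sum_lt_sum_of_nonempty univ_nonempty
      fun c _ => a3 c)
    rw [← a4, sum_const, card_univ, nsmul_eq_mul, mul_div_cancel₀ _ hr.ne'] at a5
    exact absurd a2 (not_le.2 a5)
  have h3 := (card_le_card h2).trans card_biUnion_le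
  have h4 := sum_le_sum fun c (_ : c ∈ (univ : Finset ι)) => h1 c
  rw [sum_const, card_univ, nsmul_eq_mul, ← Nat.cast_sum] at h4
  exact ((Nat.cast_le.2 h3).trans h4).trans (le_of_eq (mul_assoc _ _ _).symm)

end Pool.Agent.EQ
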