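import Pool.Agent.P.MP_ad7a55_nt.XGg
import Pool.Agent.P.MP_ad7a55_nt.YLa
import Pool.Agent.P.MP_ad7a55_nt.YGd

/-! The setting of the adaptive rigidity theorem. -/

set_option autoImplicit false

noncomputable section

open Finset Matrix
open scoped MatrixGroups Classical

namespace Pool.Agent.EQ

theorem yga_sd (β β' : Finset ℕ) :
    (∏ l ∈ β, l) * ∏ l ∈ β', l = (∏ l ∈ β ∩ β', l) ^ 2 * ∏ l ∈ symmDiff β β', l := by
  have h1 : symmDiff β β' ∪ β ∩ β' = β ∪ β' := symmDiff_sup_inf β β'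
  have h2 : Disjoint (symmDiff β β') (β ∩ β') := disjoint_symmDiff_inf β β'
  rw [← prod_union_inter, ← h1, prod_union h2]
  ring

theorem yga_sd2 (β β' : Finset ℕ) :
    ∏ l ∈ symmDiff β β', l = (∏ l ∈ β \ β', l) * ∏ l ∈ β' \ β, l := by
  have h1 : symmDiff β β' = β \ β' ∪ β' \ β := rfl
  rw [h1, prod_union disjoint_sdiff_sdiff]

theorem yga_col {l : ℕ} {η : M2} (h : (l : ℤ) ∣ η.det) (w : V2) :
    η.adjugate *ᵥ w ∈ Ker l η ∧ η *ᵥ w ∈ Ker l η.adjugate := by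
  constructor
  · intro i
    rw [Matrix.mulVec_mulVec, Matrix.mul_adjugate, Matrix.smul_mulVec, Matrix.one_mulVec]
    exact h.mul_right _
  · intro i
    rw [Matrix.mulVec_mulVec, Matrix.adjugate_mul, Matrix.smul_mulVec, Matrix.one_mulVec]
    exact h.mul_right _

theorem yga_det {l : ℕ} {A : M2} (h : IsLn l (Ker l A)) : (l : ℤ) ∣ A.det := by
  obtain ⟨v, ⟨a, b, e⟩, hv⟩ := h
  have h1 : v ∈ Ker l A := by
    rw [hv]
    exact xlb_self l v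
  have h2 : ∀ i, (l : ℤ) ∣ A.det * v i := fun i => by
    have h3 := xla_dvd_mulVec A.adjugate h1 i
    rwa [Matrix.mulVec_mulVec, Matrix.adjugate_mul, Matrix.smul_mulVec, Matrix.one_mulVec] at h3
  have h4 : A.det = a * (A.det * v 0) + b * (A.det * v 1) := by linear_combination (-A.det) * e
  rw [h4]
  exact ((h2 0).mul_left _).add ((h2 1).mul_left _)

theorem yga_line {l : ℕ} (hl : l.Prime) {L L' : Set V2} (h : IsLn l L) (h' : IsLn l L') {u : V2}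
    (hu : u ∈ L) (hu' : u ∈ L') {i : Fin 2} (hi : ¬ (l : ℤ) ∣ u i) : L = L' := by
  obtain ⟨v, hv, rfl⟩ := h
  obtain ⟨v', hv', rfl⟩ := h'
  have hp : xlb_Pm l u := xlb_of_primes fun l' hl' hll => by
    obtain rfl := (Nat.prime_dvd_prime_iff_eq hl' hl).1 hll
    exact ⟨i, hi⟩
  rw [(xlb_of_cop l hv).eq hp hu, (xlb_of_cop l hv').eq hp hu']

theorem yga_sq {β : Finset ℕ} (hβ : ∀ l ∈ β, l.Prime) {l : ℕ} (hl : l ∈ β) :
    ¬ (l : ℤ) ^ 2 ∣ ((∏ l ∈ β, l : ℕ) : ℤ) := by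
  intro h
  have h1 : l ^ 2 ∣ ∏ l ∈ β, l := by exact_mod_cast h
  rw [← mul_prod_erase β _ hl, sq] at h1
  have h2 := Nat.dvd_of_mul_dvd_mul_left (hβ l hl).pos h1
  obtain ⟨q, hq1, hq2⟩ := (Prime.dvd_finsetProd_iff (hβ l hl).prime _).1 h2
  have h3 := (Nat.prime_dvd_prime_iff_eq (hβ l hl) (hβ q (mem_of_mem_erase hq1))).1 hq2
  exact (mem_erase.1 hq1).1 h3.symm

theorem yga_adj {η A A' : M2} (h : η * A = A' * η) (hd : η.det ≠ 0) :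
    A'.adjugate * η = η * A.adjugate := by
  have h1 : A.adjugate * η.adjugate = η.adjugate * A'.adjugate := by
    rw [← Matrix.adjugate_mul_distrib, ← Matrix.adjugate_mul_distrib, h]
  refine xla_cancel hd ?_
  calc η.det • (A'.adjugate * η) = η * η.adjugate * A'.adjugate * η := by
        rw [Matrix.mul_adjugate, smul_mul_assoc, one_mul, smul_mul_assoc]
    _ = η * A.adjugate * (η.adjugate * η) := by
        rw [mul_assoc η, ← h1]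
        simp only [mul_assoc]
    _ = η.det • (η * A.adjugate) := by rw [Matrix.adjugate_mul, mul_smul_comm, mul_one]

theorem yga_kc {l : ℕ} (hl : l.Prime) {η A A' : M2} (h : η * A = A' * η) (h1 : (l : ℤ) ∣ η.det)
    (h2 : ¬ (l : ℤ) ^ 2 ∣ η.det) (hA : IsLn l (Ker l A)) (hA' : IsLn l (Ker l A'.adjugate))
    (hk : Ker l η = Ker l A) : Ker l η.adjugate = Ker l A'.adjugate := by
  have hd : η.det ≠ 0 := fun e => h2 (e ▸ dvd_zero _)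
  obtain ⟨i, j, hij⟩ := (isLn_Ker_prime hl h1 h2).prim hl.pos hl dvd_rfl
  refine yga_line hl (isLn_Ker_prime hl (by rwa [xla_det_adj]) (by rwa [xla_det_adj])) hA'
    (u := η *ᵥ Pi.single j 1) (yga_col h1 _).2 (fun k => ?_) (i := i) ?_
  · rw [Matrix.mulVec_mulVec, yga_adj h hd, ← Matrix.mulVec_mulVec]
    have h3 := (yga_col (yga_det hA) (Pi.single j 1)).1
    rw [← hk] at h3
    exact h3 k
  · rwa [Matrix.mulVec_single_one]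

theorem yga_bd {η η' : M2} {a b : ℝ} (h : ∀ i j, |(η i j : ℝ)| ≤ a)
    (h' : ∀ i j, |(η' i j : ℝ)| ≤ b) (i j : Fin 2) :
    |((η' * η.adjugate) i j : ℝ)| ≤ 2 * (a * b) := by
  have h2 : ∀ i j, |((η.adjugate i j : ℤ) : ℝ)| ≤ a := fun i j => by
    rw [Matrix.adjugate_fin_two]
    fin_cases i <;> fin_cases j
    · exact h 1 1
    · simpa using h 0 1
    · simpa using h 1 0
    · exact h 0 0
  have h3 : ∀ k, |(η' i k : ℝ) * (η.adjugate k j : ℤ)| ≤ a * b := fun k => by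
    rw [abs_mul, mul_comm a]
    exact mul_le_mul (h' i k) (h2 k j) (abs_nonneg _) ((abs_nonneg _).trans (h' i k))
  rw [Matrix.mul_apply, Fin.sum_univ_two, Int.cast_add, Int.cast_mul, Int.cast_mul]
  refine (abs_add_le _ _).trans ?_
  linarith [h3 0, h3 1]

theorem yga_box {Z : ℝ} (hZ : 0 ≤ Z) : ∃ T : Finset M2, (#T : ℝ) ≤ (2 * Z + 1) ^ 4 ∧
    ∀ η : M2, (∀ i j, |(η i j : ℝ)| ≤ Z) → η ∈ T := by
  let B : ℕ := ⌊Z⌋₊
  have hB : (B : ℝ) ≤ Z := Nat.floor_le hZ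
  let box : Finset (Fin 2 → Fin 2 → ℤ) :=
    Fintype.piFinset fun _ => Fintype.piFinset fun _ => Finset.Icc (-(B : ℤ)) B
  have hc : box.card = (2 * B + 1) ^ 4 := by
    have e : ((B : ℤ) + 1 - -(B : ℤ)).toNat = 2 * B + 1 := by omega
    simp only [box, Fintype.card_piFinset, Int.card_Icc, e, Finset.prod_const, Finset.card_univ,
      Fintype.card_fin]
    ring
  refine ⟨box.image fun g => Matrix.of g, ?_, fun η hη => ?_⟩
  · have h9 : #(box.image fun g => (Matrix.of g : M2)) ≤ (2 * B + 1) ^ 4 :=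
      hc ▸ Finset.card_image_le
    have h10 : (#(box.image fun g => (Matrix.of g : M2)) : ℝ) ≤ (2 * B + 1) ^ 4 := by
      exact_mod_cast h9
    refine h10.trans (pow_le_pow_left₀ (by positivity) ?_ 4)
    linarith
  · refine Finset.mem_image.2 ⟨fun i j => η i j, ?_, rfl⟩
    refine Fintype.mem_piFinset.2 fun i => Fintype.mem_piFinset.2 fun j => ?_
    have h7 : (((η i j).natAbs : ℕ) : ℝ) ≤ Z := by
      rw [Nat.cast_natAbs, Int.cast_abs]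
      exact hη i j
    have h8 : (η i j).natAbs ≤ B := Nat.le_floor h7
    rw [Finset.mem_Icc]
    omega

theorem yga_pos {κ : Type} {B : Finset κ} {p : κ → Prop} (h : 0 < prb B p) : ∃ q ∈ B, p q := by
  by_contra hc
  push Not at hc
  rw [prb, filter_eq_empty_iff.2 hc, card_empty, Nat.cast_zero, zero_div] at h
  exact lt_irrefl _ h

namespace RD

variable {α ι γ δ : Type} (d : RD α ι γ δ)

/-- The conjugate direction. -/
def Kc (x : α) (c : ι) (l : ℕ) : Set V2 := Ker l (d.A x c).adjugate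

/-- The matrix from `π β x` to `π β' x`. -/
def gm (β β' : Finset ℕ) (x : α) (c : ι) : M2 := d.η β' x c * (d.η β x c).adjugate

/-- Three points in the compact part. -/
def G2 (β β' : Finset ℕ) (x : α) : Prop := d.In x ∧ d.In (d.π β x) ∧ d.In (d.π β' x)

variable [Fintype ι]

structure Ok6 (y p : ℕ) (H Λ δ₀ : ℝ) (C₁ : ℕ) : Prop where
  ne : d.O.Nonempty
  prime : ∀ l ∈ d.P, l.Prime ∧ y < l ∧ l ≤ 2 * y
  line : ∀ x ∈ d.O, ∀ c, ∀ l ∈ d.P, IsLn l (d.K x c l) ∧ IsLn l (d.Kc x c l)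
  maps : ∀ β ⊆ d.P, #β ≤ p → ∀ x ∈ d.O, d.π β x ∈ d.O
  inj : ∀ β ⊆ d.P, #β ≤ p → Set.InjOn (d.π β) d.O
  det : ∀ β ⊆ d.P, #β ≤ p → ∀ x ∈ d.O, ∀ c, (d.η β x c).det = (∏ l ∈ β, l : ℕ)
  com : ∀ β ⊆ d.P, #β ≤ p → ∀ x ∈ d.O, ∀ c, d.η β x c * d.A x c = d.A (d.π β x) c * d.η β x c
  adm : ∀ β ⊆ d.P, #β ≤ p → ∀ x ∈ d.O, d.Gd β x → ∀ c, Adm H (d.K x c) β (d.η β x c)
  tight : prb d.O (fun x => ¬ d.In x) ≤ δ₀
  lin : ∀ c, ∀ β ⊆ d.P, ∀ β' ⊆ d.P, Disjoint β β' → #β ≤ p → #β' ≤ p →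
    (#{z ∈ d.O ×ˢ d.O | d.In z.1 ∧ d.In z.2 ∧ (∀ l ∈ β, d.Kc z.1 c l = d.Kc z.2 c l) ∧
      ∀ l ∈ β', d.K z.1 c l = d.K z.2 c l} : ℝ) ≤
      Λ / ((∏ l ∈ β, l : ℕ) * (∏ l ∈ β', l : ℕ)) * (#d.O : ℝ) ^ 2
  xc : ∀ k l, k ≠ l → ∀ β ⊆ d.P, #β ≤ p → ∀ Z : ℝ, 1 ≤ Z → Z ≤ (y : ℝ) ^ p →
    prb d.O (fun x => d.In x ∧ Xc Z (d.K x k) (d.K x l) β) ≤ Λ * Z ^ C₁ / (∏ l ∈ β, l : ℕ)

/-- A labelling that predicts the directions at the primes of `B`. -/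
def Lab (B : Finset ℕ) (σ I θ : ℝ) : Prop :=
  ∃ (Λ : Type) (Ω : Finset α) (lb : α → Λ) (R : Λ → ℕ → Finset (ι → Set V2)),
    (∀ x ∈ Ω, x ∈ d.O ∧ d.In x ∧ θ ≤ prb B fun q => d.dir q x ∈ R (lb x) q) ∧
      θ * #d.O ≤ #Ω ∧ (#(Ω.image lb) : ℝ) ≤ Real.exp I ∧
      ∀ a, ∀ q ∈ B, R a q ⊆ YQ ι q ∧ (#(R a q) : ℝ) ≤ (q : ℝ) ^ σ

/-- A set of triples with large intersections. -/
structure Big {L u : ℕ} (pr : Fin L → Fin u → ℕ) (B : Finset ℕ) (σ c s v t : ℝ)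
    (V : Finset (α × (Fin L → Fin u) × (Fin L → Fin u)))
    (R R' : ℕ → Finset (ι → Set V2)) : Prop where
  mem : ∀ w ∈ V, w.1 ∈ d.O ∧ d.G2 (bs pr w.2.1) (bs pr w.2.2) w.1
  card : v * #d.O * (u : ℝ) ^ L * (u : ℝ) ^ L ≤ #V
  typ : ∀ w ∈ V, ∀ k, prb d.O (fun x => d.G2 (bs pr w.2.1) (bs pr w.2.2) x ∧
    d.gm (bs pr w.2.1) (bs pr w.2.2) x k = d.gm (bs pr w.2.1) (bs pr w.2.2) w.1 k) ≤
    t / (∏ l ∈ symmDiff (bs pr w.2.1) (bs pr w.2.2), l : ℕ)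
  sz : ∀ q ∈ B, R q ⊆ YQ ι q ∧ R' q ⊆ YQ ι q ∧ (#(R q) : ℝ) ≤ (q : ℝ) ^ σ ∧
    (#(R' q) : ℝ) ≤ (q : ℝ) ^ σ
  lrg : ∀ w ∈ V, s ≤ prb B fun q => (q : ℝ) ^ (σ - c) ≤
    #{ξ ∈ R q | (fun k => img (d.gm (bs pr w.2.1) (bs pr w.2.2) w.1 k) (ξ k)) ∈ R' q}

/-- Groups of primes outside `B`. -/
structure Grp (p : ℕ) {L u : ℕ} (pr : Fin L → Fin u → ℕ) (B : Finset ℕ) : Prop where
  sub : B ⊆ d.P
  inj : Function.Injective fun z : Fin L × Fin u => pr z.1 z.2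
  mem : ∀ g i, pr g i ∈ d.P ∧ pr g i ∉ B
  le : L ≤ p
  pos : 0 < u

variable {d} {y p C₁ : ℕ} {H Λ δ₀ : ℝ} {β β' : Finset ℕ} {x : α}

theorem Grp.bs {L u : ℕ} {pr : Fin L → Fin u → ℕ} {B : Finset ℕ} (h : d.Grp p pr B)
    (b : Fin L → Fin u) : bs pr b ⊆ d.P ∧ #(bs pr b) = L ∧ #(bs pr b) ≤ p ∧ Disjoint (bs pr b) B := by
  have h1 : #(Pool.Agent.EQ.bs pr b) = L := by
    rw [Pool.Agent.EQ.bs, card_image_of_injective, card_univ, Fintype.card_fin]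
    intro g g' e
    exact congrArg Prod.fst (h.inj (a₁ := (g, b g)) (a₂ := (g', b g')) e)
  refine ⟨xgg_sub (fun g i => (h.mem g i).1) b, h1, h1.trans_le h.le, disjoint_left.2 fun l hl => ?_⟩
  obtain ⟨g, -, rfl⟩ := mem_image.1 hl
  exact (h.mem g _).2

theorem Ok6.card_le (h : d.Ok6 y p H Λ δ₀ C₁) : #d.P ≤ y := by
  have h1 : d.P ⊆ Ioc y (2 * y) := fun l hl => mem_Ioc.2 (h.prime l hl).2
  have h2 := card_le_card h1
  rw [Nat.card_Ioc] at h2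
  omega

theorem Ok6.dir_mem (h : d.Ok6 y p H Λ δ₀ C₁) {q : ℕ} (hq : q ∈ d.P) (hx : x ∈ d.O) :
    d.dir q x ∈ YQ ι q := by
  exact Fintype.mem_piFinset.2 fun c => (mem_Xn (h.prime q hq).1.pos).2 (h.line x hx c q hq).1

theorem Ok6.yga_cop (h : d.Ok6 y p H Λ δ₀ C₁) (hβ : β ⊆ d.P) (hp : #β ≤ p) (hx : x ∈ d.O)
    {q : ℕ} (hq : q ∈ d.P) (hq' : q ∉ β) (c : ι) : IsCoprime (d.η β x c).det (q : ℤ) := by
  rw [h.det β hβ hp x hx c]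
  refine Nat.isCoprime_iff_coprime.2 (Nat.Coprime.prod_left fun l hl => ?_)
  exact (Nat.coprime_primes (h.prime l (hβ hl)).1 (h.prime q hq).1).2 fun e => hq' (e ▸ hl)

theorem Ok6.yga_pos (h : d.Ok6 y p H Λ δ₀ C₁) (hβ : β ⊆ d.P) : 0 < ∏ l ∈ β, l :=
  prod_pos fun l hl => (h.prime l (hβ hl)).1.pos

theorem Ok6.dir_move (h : d.Ok6 y p H Λ δ₀ C₁) (hβ : β ⊆ d.P) (hp : #β ≤ p) (hx : x ∈ d.O)
    {q : ℕ} (hq : q ∈ d.P) (hq' : q ∉ β) :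
    d.dir q (d.π β x) = fun c => img (d.η β x c) (d.dir q x c) := by
  funext c
  exact Set.ext fun v => (Ker_com (h.com β hβ hp x hx c) (h.yga_cop hβ hp hx hq hq' c) v).2

theorem Ok6.gm_det (h : d.Ok6 y p H Λ δ₀ C₁) (hβ : β ⊆ d.P) (hp : #β ≤ p) (hβ' : β' ⊆ d.P)
    (hp' : #β' ≤ p) (hx : x ∈ d.O) (c : ι) :
    (d.gm β β' x c).det = ((∏ l ∈ β, l) * ∏ l ∈ β', l : ℕ) := by
  rw [gm, Matrix.det_mul, xla_det_adj, h.det β hβ hp x hx c, h.det β' hβ' hp' x hx c, Nat.cast_mul,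
    mul_comm]

theorem Ok6.gm_div (h : d.Ok6 y p H Λ δ₀ C₁) (hβ : β ⊆ d.P) (hp : #β ≤ p) (hβ' : β' ⊆ d.P)
    (hp' : #β' ≤ p) (hx : x ∈ d.O) (hg : d.G2 β β' x) (c : ι) :
    (∀ i j, |(d.gm β β' x c i j : ℝ)| ≤
      2 * H ^ 2 * Real.sqrt ((∏ l ∈ β, l) * ∏ l ∈ β', l : ℕ)) ∧
    ∃ g : M2, d.gm β β' x c = ((∏ l ∈ β ∩ β', l : ℕ) : ℤ) • g ∧
      g.det = (∏ l ∈ symmDiff β β', l : ℕ) ∧
      ∀ i j, |(g i j : ℝ)| ≤ 2 * H ^ 2 * Real.sqrt (∏ l ∈ symmDiff β β', l : ℕ) := by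
  obtain ⟨a1, a2, a3⟩ := h.adm β hβ hp x hx ⟨hg.1, hg.2.1⟩ c
  obtain ⟨b1, b2, b3⟩ := h.adm β' hβ' hp' x hx ⟨hg.1, hg.2.2⟩ c
  have h1 : ∀ i j, |(d.gm β β' x c i j : ℝ)| ≤
      2 * H ^ 2 * Real.sqrt ((∏ l ∈ β, l) * ∏ l ∈ β', l : ℕ) := fun i j => by
    refine (yga_bd a3 b3 i j).trans (le_of_eq ?_)
    rw [Nat.cast_mul, Real.sqrt_mul (Nat.cast_nonneg _)]
    ring
  refine ⟨h1, ?_⟩
  have hI : β ∩ β' ⊆ d.P := inter_subset_left.trans hβ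
  have h2 : ∀ i j, ((∏ l ∈ β ∩ β', l : ℕ) : ℤ) ∣ d.gm β β' x c i j := fun i j => by
    have h3 : (d.η β x c).adjugate *ᵥ Pi.single j 1 ∈ Ker (∏ l ∈ β ∩ β', l) (d.η β' x c) := by
      refine (mem_Ker_prod fun l hl => (h.prime l (hI hl)).1).2 fun l hl => ?_
      rw [b2 l (mem_inter.1 hl).2, ← a2 l (mem_inter.1 hl).1]
      refine (yga_col ?_ _).1
      rw [a1]
      exact Int.natCast_dvd_natCast.2 (dvd_prod_of_mem _ (mem_inter.1 hl).1)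
    have h4 := h3 i
    rwa [Matrix.mulVec_mulVec, Matrix.mulVec_single_one] at h4
  obtain ⟨g, hg⟩ := xla_ex.1 h2
  have hm := h.yga_pos hI
  have hm' : ((∏ l ∈ β ∩ β', l : ℕ) : ℤ) ≠ 0 := by exact_mod_cast hm.ne'
  refine ⟨g, hg, ?_, fun i j => ?_⟩
  · have h5 := h.gm_det hβ hp hβ' hp' hx c
    rw [hg, Matrix.det_smul, Fintype.card_fin, yga_sd, Nat.cast_mul, Nat.cast_pow] at h5
    exact mul_left_cancel₀ (pow_ne_zero 2 hm') h5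
  · have h5 := h1 i j
    have hr : (0 : ℝ) < ((∏ l ∈ β ∩ β', l : ℕ) : ℝ) := by exact_mod_cast hm
    rw [hg, yga_sd, Nat.cast_mul, Nat.cast_pow, Real.sqrt_mul (by positivity),
      Real.sqrt_sq hr.le, Matrix.smul_apply, smul_eq_mul, Int.cast_mul, Int.cast_natCast, abs_mul,
      abs_of_pos hr] at h5
    refine le_of_mul_le_mul_left (h5.trans (le_of_eq ?_)) hr
    ring

theorem Ok6.gm_ker (h : d.Ok6 y p H Λ δ₀ C₁) (hβ : β ⊆ d.P) (hp : #β ≤ p) (hβ' : β' ⊆ d.P)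
    (hp' : #β' ≤ p) (hx : x ∈ d.O) (hg : d.G2 β β' x) (c : ι) :
    (∀ l ∈ β' \ β, Ker l (d.gm β β' x c) = d.K (d.π β x) c l) ∧
      ∀ l ∈ β \ β', Ker l (d.gm β β' x c) = d.Kc (d.π β x) c l := by
  obtain ⟨a1, a2, -⟩ := h.adm β hβ hp x hx ⟨hg.1, hg.2.1⟩ c
  obtain ⟨-, b2, -⟩ := h.adm β' hβ' hp' x hx ⟨hg.1, hg.2.2⟩ c
  refine ⟨fun l hl => Set.ext fun v => ?_, fun l hl => ?_⟩
  · obtain ⟨h1, h2⟩ := mem_sdiff.1 hl
    rw [gm, mem_Ker_mul, b2 l h1]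
    exact (Ker_com (h.com β hβ hp x hx c) (h.yga_cop hβ hp hx (hβ' h1) h2 c) v).2.symm
  · obtain ⟨h1, h2⟩ := mem_sdiff.1 hl
    rw [gm, Ker_cop (h.yga_cop hβ' hp' hx (hβ h1) h2 c)]
    refine yga_kc (h.prime l (hβ h1)).1 (h.com β hβ hp x hx c) ?_ ?_ (h.line x hx c l (hβ h1)).1
      (h.line _ (h.maps β hβ hp x hx) c l (hβ h1)).2 (a2 l h1)
    · rw [a1]
      exact Int.natCast_dvd_natCast.2 (dvd_prod_of_mem _ h1)
    · rw [a1]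
      exact yga_sq (fun l hl => (h.prime l (hβ hl)).1) h1

theorem Ok6.not_typ (h : d.Ok6 y p H Λ δ₀ C₁) (hβ : β ⊆ d.P) (hp : #β ≤ p) (hβ' : β' ⊆ d.P)
    (hp' : #β' ≤ p) (c : ι) {t : ℝ} (ht : 0 < t) :
    prb d.O (fun x => d.G2 β β' x ∧ t / (∏ l ∈ symmDiff β β', l : ℕ) <
      prb d.O fun x' => d.G2 β β' x' ∧ d.gm β β' x' c = d.gm β β' x c) ≤ Λ / t := by
  have s1 : β \ β' ⊆ d.P := sdiff_subset.trans hβ
  have s2 : β' \ β ⊆ d.P := sdiff_subset.trans hβ'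
  have hP : (0 : ℝ) < (∏ l ∈ symmDiff β β', l : ℕ) := by
    rw [yga_sd2]
    exact_mod_cast Nat.mul_pos (h.yga_pos s1) (h.yga_pos s2)
  have hO : (0 : ℝ) < (#d.O : ℝ) ^ 2 := by
    have := h.ne.card_pos
    positivity
  have h0 := h.lin c _ s1 _ s2 disjoint_sdiff_sdiff ((card_le_card sdiff_subset).trans hp)
    ((card_le_card sdiff_subset).trans hp')
  rw [← Nat.cast_mul, ← yga_sd2] at h0
  have hs : 0 ≤ Λ / (∏ l ∈ symmDiff β β', l : ℕ) :=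
    nonneg_of_mul_nonneg_left (le_trans (Nat.cast_nonneg _) h0) hO
  have h1 := atypical d.O (d.G2 β β') (fun x => d.gm β β' x c)
    (s := Λ / (∏ l ∈ symmDiff β β', l : ℕ)) (t := t / (∏ l ∈ symmDiff β β', l : ℕ))
    (le_trans (Nat.cast_le.2 (card_le_card_of_injOn
      (fun z : α × α => (d.π β z.1, d.π β z.2)) (fun z hz => ?_) fun z hz w hw e => ?_)) h0)
    hs (by positivity)
  · rwa [div_div_div_cancel_right₀ hP.ne'] at h1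
  · obtain ⟨z1, z2, z3, z4⟩ := (@mem_filter _ _ (_) _ _).1 (mem_coe.1 hz)
    obtain ⟨m1, m2⟩ := mem_product.1 z1
    have k1 := h.gm_ker hβ hp hβ' hp' m1 z2 c
    have k2 := h.gm_ker hβ hp hβ' hp' m2 z3 c
    refine mem_coe.2 (mem_filter.2 ⟨mem_product.2 ⟨h.maps β hβ hp _ m1, h.maps β hβ hp _ m2⟩,
      z2.2.1, z3.2.1, fun l hl => ?_, fun l hl => ?_⟩)
    · rw [← k1.2 l hl, ← k2.2 l hl, z4]
    · rw [← k1.1 l hl, ← k2.1 l hl, z4]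
  · obtain ⟨m1, m2⟩ := mem_product.1 ((@mem_filter _ _ (_) _ _).1 (mem_coe.1 hz)).1
    obtain ⟨n1, n2⟩ := mem_product.1 ((@mem_filter _ _ (_) _ _).1 (mem_coe.1 hw)).1
    exact Prod.ext (h.inj β hβ hp m1 n1 (congrArg Prod.fst e))
      (h.inj β hβ hp m2 n2 (congrArg Prod.snd e))

theorem Ok6.card_eta (h : d.Ok6 y p H Λ δ₀ C₁) (hH : 0 ≤ H) (hβ : β ⊆ d.P) (hp : #β ≤ p) :
    (#(({x ∈ d.O | d.Gd β x}).image (d.η β)) : ℝ) ≤
      ((2 * H * Real.sqrt ((2 * y) ^ #β) + 1) ^ 4) ^ Fintype.card ι := by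
  obtain ⟨T, hT, hT'⟩ := yga_box (Z := H * Real.sqrt ((2 * y) ^ #β)) (by positivity)
  have h1 : (({x ∈ d.O | d.Gd β x}).image (d.η β)) ⊆ Fintype.piFinset fun _ : ι => T := by
    refine image_subset_iff.2 fun x hx => Fintype.mem_piFinset.2 fun c => hT' _ fun i j => ?_
    obtain ⟨x1, x2⟩ := mem_filter.1 hx
    refine ((h.adm β hβ hp x x1 x2 c).2.2 i j).trans
      (mul_le_mul_of_nonneg_left (Real.sqrt_le_sqrt ?_) hH)
    exact_mod_cast prod_le_pow_card β (fun l => l) (2 * y) fun l hl => (h.prime l (hβ hl)).2.2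
  have h2 := card_le_card h1
  rw [Fintype.card_piFinset, prod_const, card_univ] at h2
  refine le_trans (Nat.cast_le.2 h2) ?_
  rw [Nat.cast_pow, mul_assoc]
  exact pow_le_pow_left₀ (by positivity) hT _

theorem Lab.mono {B : Finset ℕ} {σ σ' I I' θ θ' : ℝ} (h : d.Lab B σ I θ) (hB : ∀ q ∈ B, 0 < q)
    (h1 : σ ≤ σ') (h2 : I ≤ I') (h3 : θ' ≤ θ) : d.Lab B σ' I' θ' := by
  obtain ⟨Λ, Ω, lb, R, a1, a2, a3, a4⟩ := h
  refine ⟨Λ, Ω, lb, R, fun x hx => ⟨(a1 x hx).1, (a1 x hx).2.1, h3.trans (a1 x hx).2.2⟩,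
    (mul_le_mul_of_nonneg_right h3 (Nat.cast_nonneg _)).trans a2,
    a3.trans (Real.exp_le_exp.2 h2), fun a q hq => ⟨(a4 a q hq).1, (a4 a q hq).2.trans ?_⟩⟩
  exact Real.rpow_le_rpow_of_exponent_le (by exact_mod_cast hB q hq) h1

theorem Lab.false {B : Finset ℕ} {σ I θ : ℝ} (h : d.Lab B σ I θ) (hO : d.O.Nonempty)
    (hB : ∀ q ∈ B, 1 < q) (hσ : σ < 0) (hθ : 0 < θ) : False := by
  obtain ⟨Λ, Ω, lb, R, a1, a2, -, a4⟩ := h
  have h1 : (0 : ℝ) < #Ω := lt_of_lt_of_le (mul_pos hθ (by exact_mod_cast hO.card_pos)) a2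
  obtain ⟨x, hx⟩ := card_pos.1 (Nat.cast_pos.1 h1)
  obtain ⟨q, hq, h2⟩ := Pool.Agent.EQ.yga_pos (hθ.trans_le (a1 x hx).2.2)
  have h3 : (1 : ℝ) ≤ #(R (lb x) q) := by exact_mod_cast card_pos.2 ⟨_, h2⟩
  have h4 : (q : ℝ) ^ σ < 1 := Real.rpow_lt_one_of_one_lt_of_neg (by exact_mod_cast hB q hq) hσ
  linarith [(a4 (lb x) q hq).2]

theorem Ok6.lab (h : d.Ok6 y p H Λ δ₀ C₁) {B : Finset ℕ} (hB : B ⊆ d.P) (hne : B.Nonempty)
    {σ I θ : ℝ} (hθ : 0 ≤ θ) (hI : (#(d.O.image d.C0) : ℝ) ≤ Real.exp I)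
    (hA : ∀ q ∈ B, ∃ R : γ → Finset (ι → Set V2), (∀ a, (#(R a) : ℝ) ≤ (q : ℝ) ^ σ) ∧
      θ ≤ prb d.O fun x => d.In x ∧ d.dir q x ∈ R (d.C0 x)) : d.Lab B σ I (θ / 2) := by
  choose! R hR hE using hA
  refine ⟨γ, {x ∈ d.O | d.In x ∧ θ / 2 ≤ prb B fun q => d.dir q x ∈ R q (d.C0 x) ∩ YQ ι q}, d.C0,
    fun a q => R q a ∩ YQ ι q, fun x hx => mem_filter.1 hx, ?_, le_trans ?_ hI, fun a q hq =>
      ⟨inter_subset_right, le_trans (Nat.cast_le.2 (card_le_card inter_subset_left)) (hR q hq a)⟩⟩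
  · rcases hθ.eq_or_lt with h0 | h0
    · rw [← h0, zero_div, zero_mul]
      exact Nat.cast_nonneg _
    have h1 := pb_rev (O := d.O) (G := fun x => prb B fun q => d.In x ∧ d.dir q x ∈ R q (d.C0 x))
      one_pos (fun x _ => pb_le_one _ _) (half_pos h0).le
    have h2 : θ ≤ mn d.O fun x => prb B fun q => d.In x ∧ d.dir q x ∈ R q (d.C0 x) := by
      simp only [pb_eq]
      rw [mn_swap]
      refine le_trans (mn_const hne θ).ge (mn_mono fun q hq => ?_)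
      rw [← pb_eq]
      exact hE q hq
    have h3 : prb d.O (fun x => θ / 2 ≤ prb B fun q => d.In x ∧ d.dir q x ∈ R q (d.C0 x)) ≤
        prb d.O fun x => d.In x ∧ θ / 2 ≤ prb B fun q => d.dir q x ∈ R q (d.C0 x) ∩ YQ ι q := by
      refine pb_mono fun x hx k => ?_
      obtain ⟨q, -, k1, -⟩ := Pool.Agent.EQ.yga_pos ((half_pos h0).trans_le k)
      exact ⟨k1, k.trans (pb_mono fun q hq k2 => mem_inter.2 ⟨k2.2, h.dir_mem (hB hq) hx⟩)⟩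
    have h4 : θ / 2 ≤ prb d.O
        fun x => d.In x ∧ θ / 2 ≤ prb B fun q => d.dir q x ∈ R q (d.C0 x) ∩ YQ ι q := by
      rw [div_one] at h1
      linarith
    rw [prb, le_div_iff₀ (by exact_mod_cast h.ne.card_pos)] at h4
    refine h4.trans (le_of_eq ?_)
    exact congrArg _ (congrArg _ (Finset.ext fun x => by simp only [mem_filter]))
  · exact_mod_cast card_le_card (image_subset_image (filter_subset _ _))

end RD

end Pool.Agent.EQ
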