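import Pool.Agent.P.MP_ad7a55_nt.XGb
import Pool.Agent.P.MP_ad7a55_nt.YFj
import Pool.Agent.P.MP_ad7a55_nt.YLa

/-! The group lemma for sets of lines. -/

set_option autoImplicit false

noncomputable section

open Finset Matrix
open scoped MatrixGroups Classical

namespace Pool.Agent.EQ

/-- The group lemma for sets of density `q ^ (-c₀)`. -/
def GLQ (ι : Type) [Fintype ι] (c₀ c e : ℝ) (q₀ : ℕ) : Prop :=
  ∀ q : ℕ, q.Prime → q₀ ≤ q → ∀ (W : Type) (V : Finset W) (η : W → ι → M2) (n : W → ℤ)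
    (R R' : Finset (ι → Set V2)) (σ : ℝ), V.Nonempty →
    (∀ w ∈ V, ¬ (q : ℤ) ∣ n w ∧ ∀ k, (η w k).det = n w) → R ⊆ YQ ι q → R' ⊆ YQ ι q →
    (#R : ℝ) ≤ (q : ℝ) ^ σ → (#R' : ℝ) ≤ (q : ℝ) ^ σ → σ ≤ Fintype.card ι - c₀ →
    (q : ℝ) ^ (-c) ≤ prb V (fun w =>
      (∀ k, (prb V fun w' => Pj q (η w' k) = Pj q (η w k)) ≤ (q : ℝ) ^ (c - 3)) ∧
        (q : ℝ) ^ (σ - c) ≤ #{ξ ∈ R | (fun k => img (η w k) (ξ k)) ∈ R'}) →
    ∃ k l, k ≠ l ∧ ∃ X X' : M2, ¬ (q : ℤ) ∣ X.det ∧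
      (q : ℝ) ^ (-e) * #V ≤ #{w ∈ V | ∀ i j, (q : ℤ) ∣ (η w l * X - X' * η w k) i j}

theorem gl_apply6 (ι : Type) [Fintype ι] {e c₀ : ℝ} (he : 0 < e) (hc₀ : 0 < c₀) :
    ∃ (c : ℝ) (q₀ : ℕ), 0 < c ∧ c ≤ 1 ∧ GLQ ι c₀ c e q₀ := by
  obtain ⟨c0, q0, hc0, H⟩ := group_lemma6 ι he hc₀
  have hc : 0 < min c0 1 := lt_min hc0 one_pos
  obtain ⟨q1, hq1⟩ := exists_nat_ge ((2 : ℝ) ^ (4 / min c0 1))
  refine ⟨min c0 1 / 4, max (max q0 q1) 3, by positivity,
    by have := min_le_right c0 1; linarith, ?_⟩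
  have hcc : min c0 1 ≤ c0 := min_le_left _ _
  generalize min c0 1 = c at hc hq1 hcc
  intro q hq hqq W V η n R R' sg hV hn hR hR' cR cR' hsg hsum
  have := Fact.mk hq
  have Q0 : q0 ≤ q := (le_max_left _ _).trans ((le_max_left _ _).trans hqq)
  have Q1 : q1 ≤ q := (le_max_right _ _).trans ((le_max_left _ _).trans hqq)
  have Q3 : 3 ≤ q := (le_max_right _ _).trans hqq
  have R1 : (1 : ℝ) ≤ q := by exact_mod_cast hq.one_le
  have R0 : (0 : ℝ) < q := by linarith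
  have N0 : (0 : ℝ) < #V := by exact_mod_cast hV.card_pos
  have isl : ∀ L : Xn q, IsLn q L.1 := fun L => (mem_Xn hq.pos).1 L.2
  have cX : q ≤ #(Xn q) := by simpa using (card_Xn hq one_pos).1
  let _ := xgbAct q
  have : Nonempty (Xn q) := (card_pos.1 (hq.pos.trans_le cX)).to_subtype
  have : MulAction.IsPretransitive (ι → GQ q) (ι → Xn q) := ⟨fun x y => by
    choose g hg using fun k => xgb_trans (x k)
    choose g' hg' using fun k => xgb_trans (y k)
    refine ⟨fun k => g' k * (g k)⁻¹, funext fun k => ?_⟩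
    change (g' k * (g k)⁻¹) • x k = y k
    rw [mul_smul, smul_eq_iff_eq_inv_smul]
    refine Subtype.ext ?_
    change xgbP (((g k)⁻¹⁻¹ : GQ q) : MQ q) _ = xgbP (((g' k)⁻¹⁻¹ : GQ q) : MQ q) _
    rw [inv_inv, inv_inv, hg, hg']⟩
  obtain ⟨E, E', hE, hT⟩ := xgb_types (q := q) (by omega)
  have dE : ∀ b, (E b).det * (E' b).det = 1 := fun b => by
    rw [← Matrix.det_mul, (hE b).1, Matrix.det_one]
  have n0 : ∀ w ∈ V, (n w : ZMod q) ≠ 0 := fun w hw => by
    rw [Ne, ZMod.intCast_zmod_eq_zero_iff_dvd]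
    exact (hn w hw).1
  have ex : ∀ w, ∃ (b : Bool) (s : ZMod q) (g : ι → GQ q), w ∈ V → s ≠ 0 ∧
      ∀ k, xgbM q (η w k) = s • ((g k : MQ q) * E b) := fun w => by
    by_cases hw : w ∈ V
    · obtain ⟨b, s, s0, hs⟩ := hT _ (n0 w hw)
      refine ⟨b, s, fun k => ⟨s⁻¹ • (xgbM q (η w k) * E' b), ?_⟩, fun _ => ⟨s0, fun k => ?_⟩⟩
      · rw [Matrix.det_smul, Matrix.det_mul, xgb_det, (hn w hw).2 k, hs, Fintype.card_fin,
          mul_assoc, dE]
        field_simp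
      · change _ = s • (s⁻¹ • (xgbM q (η w k) * E' b) * E b)
        rw [smul_mul_assoc, smul_smul, mul_inv_cancel₀ s0, one_smul, mul_assoc, (hE b).2, mul_one]
    · exact ⟨true, 1, 1, fun h => absurd h hw⟩
  choose b s g hg using ex
  obtain ⟨Lt, hLt⟩ : ∃ Lt : W → Prop, ∀ w, Lt w ↔
      ((∀ k, (prb V fun w' => Pj q (η w' k) = Pj q (η w k)) ≤ (q : ℝ) ^ (c / 4 - 3)) ∧
        (q : ℝ) ^ (sg - c / 4) ≤ #{ξ ∈ R | (fun k => img (η w k) (ξ k)) ∈ R'}) :=
    ⟨_, fun _ => Iff.rfl⟩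
  obtain ⟨b0, hb0⟩ : ∃ b0, (q : ℝ) ^ (-(c / 4)) / 2 ≤
      (∑ w ∈ V with b w = b0 ∧ Lt w, (1 : ℝ)) / #V := by
    by_contra hh
    push Not at hh
    have e1 := hh true
    have e2 := hh false
    refine absurd hsum (not_le.2 (lt_of_eq_of_lt ?_ ((add_lt_add e1 e2).trans_eq (add_halves _))))
    rw [← add_div, sum_filter, sum_filter, ← sum_add_distrib, prb, card_filter, Nat.cast_sum]
    refine congrArg (· / _) (sum_congr rfl fun w _ => ?_)
    simp only [← hLt]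
    by_cases h1 : Lt w <;> cases b w <;> simp [h1]
  obtain ⟨V', hV'⟩ : ∃ V', V' = {w ∈ V | b w = b0 ∧ Lt w} := ⟨_, rfl⟩
  rw [← hV'] at hb0
  have mV : ∀ w ∈ V', w ∈ V ∧ b w = b0 ∧ Lt w := fun w hw => by
    rw [hV'] at hw
    exact mem_filter.1 hw
  have dE1 : (E b0).det ≠ 0 := left_ne_zero_of_mul_eq_one (dE b0)
  have dE2 : (E' b0).det ≠ 0 := right_ne_zero_of_mul_eq_one (dE b0)
  let σ : (ι → Xn q) ≃ (ι → Xn q) :=
    { toFun := fun r k => ⟨xgbP (E b0) (r k).1, xgb_isLn dE1 (r k).2⟩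
      invFun := fun r k => ⟨xgbP (E' b0) (r k).1, xgb_isLn dE2 (r k).2⟩
      left_inv := fun r => funext fun k => Subtype.ext (by
        simp only [xgb_PP, (hE b0).1, xgb_Pone (isl _)])
      right_inv := fun r => funext fun k => Subtype.ext (by
        simp only [xgb_PP, (hE b0).2, xgb_Pone (isl _)]) }
  obtain ⟨t, ht⟩ : ∃ t : ℝ, t = (q : ℝ) ^ (-(sg / 2)) := ⟨_, rfl⟩
  have t0 : 0 < t := by rw [ht]; positivity
  have tt : t * t = (q : ℝ) ^ (-sg) := by
    rw [ht, ← Real.rpow_add R0]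
    congr 1
    ring
  have t1 : (q : ℝ) ^ sg * (t * t) = 1 := by
    rw [tt, ← Real.rpow_add R0, add_neg_cancel, Real.rpow_zero]
  let F : Finset (ι → Set V2) → (ι → Set V2) → ℝ := fun S y => if y ∈ S then t else 0
  have F0 : ∀ S y, 0 ≤ F S y := fun S y => by
    simp only [F]
    split_ifs <;> positivity
  have sI : ∀ (S : Finset (ι → Set V2)) (a : ℝ), 0 ≤ a →
      ∑ y ∈ Fintype.piFinset fun _ : ι => Xn q, (if y ∈ S then a else 0) ≤ #S * a :=
    fun S a ha => by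
      rw [← sum_filter, sum_const, nsmul_eq_mul]
      refine mul_le_mul_of_nonneg_right (Nat.cast_le.2 (card_le_card fun y hy => ?_)) ha
      exact (mem_filter.1 hy).2
  have F2 : ∀ S : Finset (ι → Set V2), (#S : ℝ) ≤ (q : ℝ) ^ sg →
      ∑ y ∈ Fintype.piFinset fun _ : ι => Xn q, F S y ^ 2 ≤ 1 := fun S hS => by
    refine le_trans (le_of_eq (sum_congr rfl fun y _ => ?_))
      ((sI S (t * t) (by positivity)).trans
        ((mul_le_mul_of_nonneg_right hS (by positivity)).trans t1.le))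
    simp only [F]
    split_ifs <;> ring
  have sF : ∀ G : (ι → Set V2) → ℝ, ∑ r, G (fun k => (σ r k).1) =
      ∑ y ∈ Fintype.piFinset fun _ : ι => Xn q, G y := fun G =>
    (Equiv.sum_comp σ fun r => G fun k => (r k).1).trans (xgb_sumY _ G)
  obtain ⟨ρ, ρ0, ρ1, ρ2⟩ := xgb_fib V' g N0.le
  have main := H q Q0 (ι → Xn q) ρ (fun r => F R fun k => (σ r k).1)
    (fun r => F R' fun k => (r k).1) ρ0 ?_ ?_ (fun r => F0 _ _) ?_ ?_ ?_ ?_
  · obtain ⟨k, l, hkl, X, X', hX, hfin⟩ := main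
    obtain ⟨Z, hZ⟩ := xgb_Msurj (E' b0 * X * E b0)
    obtain ⟨Z', rfl⟩ := xgb_Msurj X'
    refine ⟨k, l, hkl, Z, Z', ?_, ?_⟩
    · rw [← ZMod.intCast_zmod_eq_zero_iff_dvd, ← xgb_det, hZ, Matrix.det_mul, Matrix.det_mul]
      exact mul_ne_zero (mul_ne_zero dE2 hX) dE1
    · rw [ρ2, le_div_iff₀ N0] at hfin
      refine hfin.trans (Nat.cast_le.2 (card_le_card fun w hw => ?_))
      simp only [mem_filter, mem_univ, true_and] at hw
      obtain ⟨m1, m2⟩ := hw
      obtain ⟨m3, m4, -⟩ := mV w m1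
      simp only [mem_filter]
      refine ⟨m3, fun i j => ?_⟩
      have e1 : xgbM q (η w l * Z - Z' * η w k) = 0 := by
        have e2 : xgbM q (η w l * Z - Z' * η w k) =
            xgbM q (η w l) * xgbM q Z - xgbM q Z' * xgbM q (η w k) := by
          simp only [xgbM, map_sub, map_mul]
        rw [e2, hZ, (hg w m3).2 l, (hg w m3).2 k, m4, smul_mul_assoc, mul_smul_comm, ← mul_assoc,
          ← mul_assoc, mul_assoc _ (E b0), (hE b0).1, mul_one, m2, mul_assoc, sub_self]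
      rw [← ZMod.intCast_zmod_eq_zero_iff_dvd, ← xgb_Mapp, e1]
      rfl
  · rw [ρ2, div_le_one N0]
    refine Nat.cast_le.2 (card_le_card fun w hw => ?_)
    simp only [mem_filter] at hw
    exact (mV w hw.1).1
  · intro k h
    rw [ρ2]
    by_cases h0 : ∀ w ∈ V', g w k ≠ h
    · refine le_trans (le_of_eq ?_) (Real.rpow_nonneg R0.le _)
      rw [div_eq_zero_iff, Nat.cast_eq_zero, card_eq_zero, eq_empty_iff_forall_notMem]
      refine Or.inl fun w hw => ?_
      simp only [mem_filter, mem_univ, true_and] at hw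
      exact h0 w hw.1 hw.2
    push Not at h0
    obtain ⟨w, m1, m2⟩ := h0
    obtain ⟨m3, m4, m5⟩ := mV w m1
    refine le_trans ?_ ((((hLt w).1 m5).1 k).trans
      (Real.rpow_le_rpow_of_exponent_le R1 (by linarith)))
    refine div_le_div_of_nonneg_right (Nat.cast_le.2 (card_le_card fun w' hw' => ?_)) N0.le
    simp only [mem_filter, mem_univ, true_and] at hw'
    obtain ⟨p1, p2⟩ := hw'
    obtain ⟨p3, p4, -⟩ := mV w' p1
    simp only [mem_filter]
    refine ⟨p3, ?_⟩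
    rw [xgb_Pjeq (hg w m3).1 ((hg w m3).2 k), xgb_Pjeq (hg w' p3).1 ((hg w' p3).2 k), m2, p2,
      m4, p4]
  · exact (sF fun y => F R y ^ 2).trans_le (F2 R cR)
  · exact (xgb_sumY _ fun y => F R' y ^ 2).trans_le (F2 R' cR')
  · have e1 : ∑ r, F R (fun k => (σ r k).1) ≤ (q : ℝ) ^ sg * t := by
      rw [sF (F R)]
      exact (sI R t t0.le).trans (mul_le_mul_of_nonneg_right cR t0.le)
    refine (pow_le_pow_left₀ (sum_nonneg fun r _ => F0 _ _) e1 2).trans ?_
    have e2 : (q : ℝ) ^ Fintype.card ι ≤ Fintype.card (ι → Xn q) := by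
      rw [Fintype.card_fun, Fintype.card_coe]
      exact_mod_cast Nat.pow_le_pow_left cX _
    have e3 : ((q : ℝ) ^ sg * t) ^ 2 = (q : ℝ) ^ sg := by
      linear_combination (q : ℝ) ^ sg * t1
    rw [e3]
    refine le_trans ?_ (mul_le_mul_of_nonneg_left e2 (by positivity))
    rw [← Real.rpow_natCast, ← Real.rpow_add R0]
    exact Real.rpow_le_rpow_of_exponent_le R1 (by linarith)
  · rw [cor, ρ1 fun x => ∑ r : ι → Xn q, F R (fun k => (σ r k).1) *
      F R' fun k => ((x • r) k).1]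
    have e1 : (2 : ℝ) ≤ (q : ℝ) ^ (c / 4) := by
      have e2 : (2 : ℝ) ^ (4 / c) ≤ q := hq1.trans (by exact_mod_cast Q1)
      have e3 := Real.rpow_le_rpow (by positivity) e2 (show 0 ≤ c / 4 by positivity)
      rwa [← Real.rpow_mul (by norm_num), show 4 / c * (c / 4) = 1 by field_simp,
        Real.rpow_one] at e3
    have e2 : (q : ℝ) ^ (-c0) ≤ (q : ℝ) ^ (-(c / 4)) * ((q : ℝ) ^ (-(c / 4)) / 2) := by
      rw [← mul_div_assoc, ← Real.rpow_add R0, le_div_iff₀ two_pos]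
      refine (mul_le_mul_of_nonneg_left e1 (by positivity)).trans ?_
      rw [← Real.rpow_add R0]
      exact Real.rpow_le_rpow_of_exponent_le R1 (by linarith)
    refine e2.trans ((mul_le_mul_of_nonneg_left hb0 (by positivity)).trans ?_)
    rw [← mul_div_assoc, mul_sum]
    refine div_le_div_of_nonneg_right (sum_le_sum fun w hw => ?_) N0.le
    obtain ⟨m3, m4, m5⟩ := mV w hw
    have e3 : ∀ r : ι → Xn q, (fun k => ((g w • r) k).1) =
        fun k => {v | (η w k).adjugate *ᵥ v ∈ (σ r k).1} := fun r => funext fun k => by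
      have e4 : xgbM q (η w k).adjugate * xgbM q (η w k) = (n w : ZMod q) • 1 := by
        rw [xgbM, xgbM, RingHom.map_adjugate, Matrix.adjugate_mul, ← (hn w m3).2 k, ← xgb_det]
        rfl
      have e5 : xgbM q (η w k) * ((s w)⁻¹ • (E' b0 * (((g w k)⁻¹ : GQ q) : MQ q))) = 1 := by
        rw [(hg w m3).2 k, m4, smul_mul_smul_comm, mul_inv_cancel₀ (hg w m3).1, one_smul,
          ← mul_assoc, mul_assoc _ (E b0), (hE b0).1, mul_one,
          ← Matrix.SpecialLinearGroup.coe_mul, mul_inv_cancel, Matrix.SpecialLinearGroup.coe_one]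
      have e6 : xgbM q (η w k).adjugate =
          ((n w : ZMod q) * (s w)⁻¹) • (E' b0 * (((g w k)⁻¹ : GQ q) : MQ q)) := by
        rw [← mul_one (xgbM q (η w k).adjugate), ← e5, ← mul_assoc, e4, smul_mul_assoc, one_mul,
          smul_smul]
      rw [← xgb_Pint _ (isl _), e6, xgb_Psmul (mul_ne_zero (n0 w m3) (inv_ne_zero (hg w m3).1)) _
        (isl _)]
      change xgbP (((g w k)⁻¹ : GQ q) : MQ q) (r k).1 = xgbP _ (xgbP (E b0) (r k).1)
      rw [xgb_PP, ← mul_assoc, (hE b0).1, one_mul]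
    simp only [e3]
    rw [sF fun y => F R y * F R' fun k => {v | (η w k).adjugate *ᵥ v ∈ y k}, mul_one]
    have e7 := mul_le_mul_of_nonneg_right ((hLt w).1 m5).2 (show 0 ≤ t * t by positivity)
    rw [tt, ← Real.rpow_add R0, show sg - c / 4 + -sg = -(c / 4) by ring, ← tt, ← nsmul_eq_mul,
      ← sum_const] at e7
    refine e7.trans (le_trans (le_of_eq (sum_congr rfl fun y hy => ?_))
      (sum_le_sum_of_subset_of_nonneg ((filter_subset _ _).trans hR)
        fun y _ _ => mul_nonneg (F0 _ y) (F0 _ _)))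
    obtain ⟨a1, a2⟩ := mem_filter.1 hy
    simp only [F]
    rw [if_pos a1, if_pos (show (fun k => {v | (η w k).adjugate *ᵥ v ∈ y k}) ∈ R' from a2)]

end Pool.Agent.EQ
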