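import Pool.Agent.P.MP_ad7a55_nt.XHb
import Pool.Agent.P.MP_ad7a55_nt.WLz

/-! Fields without many split primes at large scales are very rare. -/

set_option autoImplicit false

noncomputable section

open Finset
open scoped Classical

namespace Pool.Agent.EQ

/-- The threshold scale. -/
def thr (B : ℕ) (X : ℝ) : ℝ := X / Real.log X ^ B

/-- Many split primes at all scales above `Z`. -/
def ManyT (A m : ℕ) (Z : ℝ) : Prop := ∀ t : ℕ, Z ≤ Real.log t → t ≤ nSp m (t ^ A)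

/-- The exceptional set. -/
def EY (B A : ℕ) (c : ℝ) : Set ℕ :=
  {m | Squarefree m ∧ ¬ (NoZero c (-(m : ℤ)) ∧ ManyT A m (thr B (Real.log m)))}

theorem ManyT.mono {A A' m : ℕ} {Z Z' : ℝ} (h : ManyT A m Z) (hA : A ≤ A') (hZ : Z ≤ Z') :
    ManyT A' m Z' := by
  intro t ht
  rcases Nat.eq_zero_or_pos t with rfl | h0
  · exact Nat.zero_le _
  · exact (h t (hZ.trans ht)).trans (nSp_mono m (Nat.pow_le_pow_right h0 hA))

theorem thr_mono (B : ℕ) {X X' : ℝ} (h : Real.exp B ≤ X) (h' : X ≤ X') : thr B X ≤ thr B X' := by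
  unfold thr
  rcases Nat.eq_zero_or_pos B with rfl | hB
  · rw [pow_zero, pow_zero, div_one, div_one]
    exact h'
  have hB' : (0 : ℝ) < B := by exact_mod_cast hB
  have hX : 0 < X := (Real.exp_pos _).trans_le h
  have hX' : 0 < X' := hX.trans_le h'
  have h1 : (B : ℝ) ≤ Real.log X := (Real.le_log_iff_exp_le hX).2 h
  have h2 : Real.log X ≤ Real.log X' := Real.log_le_log hX h'
  obtain ⟨u, hu⟩ : ∃ u, u = Real.log X := ⟨_, rfl⟩
  obtain ⟨d, hd⟩ : ∃ d, d = Real.log X' - Real.log X := ⟨_, rfl⟩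
  have hd0 : 0 ≤ d := by rw [hd]; linarith
  have e1 : Real.log X' = u + d := by rw [hu, hd]; ring
  have e2 : X' = X * Real.exp d := by
    rw [hd, Real.exp_sub, Real.exp_log hX, Real.exp_log hX']
    field_simp
  rw [← hu] at h1
  have hu0 : 0 < u := by linarith
  rw [e1, ← hu, div_le_div_iff₀ (by positivity) (by positivity)]
  have a1 : u + d ≤ u * Real.exp (d / u) := by
    have := Real.add_one_le_exp (d / u)
    calc u + d = u * (d / u + 1) := by field_simp; ring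
      _ ≤ _ := mul_le_mul_of_nonneg_left this hu0.le
  have a2 : (u + d) ^ B ≤ u ^ B * Real.exp d := by
    refine (pow_le_pow_left₀ (by positivity) a1 B).trans ?_
    rw [mul_pow, ← Real.exp_nat_mul]
    refine mul_le_mul_of_nonneg_left (Real.exp_le_exp.2 ?_) (by positivity)
    rw [← mul_div_assoc, div_le_iff₀ hu0]
    nlinarith
  calc X * (u + d) ^ B ≤ X * (u ^ B * Real.exp d) := mul_le_mul_of_nonneg_left a2 hX.le
    _ = X' * u ^ B := by rw [e2]; ring

theorem thr_anti {B B' : ℕ} (h : B ≤ B') {X : ℝ} (hX : Real.exp 1 ≤ X) : thr B' X ≤ thr B X := by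
  have h0 : 0 < X := (Real.exp_pos _).trans_le hX
  have h1 : 1 ≤ Real.log X := (Real.le_log_iff_exp_le h0).2 hX
  exact div_le_div_of_nonneg_left h0.le (by positivity) (pow_le_pow_right₀ h1 h)

theorem thr_tendsto (B : ℕ) : Filter.Tendsto (thr B) Filter.atTop Filter.atTop := by
  refine ((Real.tendsto_exp_div_pow_atTop B).comp Real.tendsto_log_atTop).congr' ?_
  filter_upwards [Filter.eventually_gt_atTop (0 : ℝ)] with X hX
  simp only [Function.comp, thr, Real.exp_log hX]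

theorem yha_ev (B : ℕ) (K : ℝ) : ∃ X₀ : ℕ, ∀ X : ℕ, X₀ ≤ X →
    K ≤ Real.log (Real.log X) ∧ K ≤ thr B (Real.log X) ∧ K ≤ Real.log X ∧ K ≤ X := by
  have h0 : Filter.Tendsto (fun X : ℕ => (X : ℝ)) Filter.atTop Filter.atTop :=
    tendsto_natCast_atTop_atTop
  have h1 := Real.tendsto_log_atTop.comp h0
  have h2 := Real.tendsto_log_atTop.comp h1
  have h3 := (thr_tendsto B).comp h1
  exact Filter.eventually_atTop.1 ((h2.eventually_ge_atTop K).and ((h3.eventually_ge_atTop K).and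
    ((h1.eventually_ge_atTop K).and (h0.eventually_ge_atTop K))))

theorem yha_log2 {X : ℕ} (hX : X ≠ 0) : (Nat.log 2 X : ℝ) ≤ 2 * Real.log X := by
  have c1 : Real.log ((2 : ℝ) ^ Nat.log 2 X) ≤ Real.log X :=
    Real.log_le_log (by positivity) (by exact_mod_cast Nat.pow_log_le_self 2 hX)
  rw [Real.log_pow] at c1
  have c2 := Real.log_two_gt_d9
  have c3 : (0 : ℝ) ≤ Nat.log 2 X := Nat.cast_nonneg _
  nlinarith

theorem yha_four {L : ℝ} (B : ℕ) (hL : 0 < L) (hl : 1 ≤ Real.log L) :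
    4 * L ≤ Real.exp (4 * Real.log L ^ (B + 1)) := by
  have a1 : Real.log L ≤ Real.log L ^ (B + 1) := le_self_pow₀ hl (by omega)
  have a2 : (4 : ℝ) ≤ Real.exp 3 := by
    have := Real.add_one_le_exp 3
    linarith
  calc 4 * L ≤ Real.exp 3 * Real.exp (Real.log L) := by
        rw [Real.exp_log hL]
        exact mul_le_mul_of_nonneg_right a2 hL.le
    _ ≤ _ := by
        rw [← Real.exp_add]
        exact Real.exp_le_exp.2 (by linarith)

theorem yha_block {z₀ : ℕ} (hz : ∀ z : ℕ, z₀ ≤ z →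
      (z : ℝ) ≤ 4 * Real.log z * #((Nat.primesLE z).filter fun p => p ≠ 2)) {X T : ℕ}
    (h1 : z₀ ≤ T) (h2 : 32 ≤ T) (h3 : T ≤ X)
    (h4 : 24 * Real.log X ≤ (T : ℝ) ^ 2) {M : Finset ℕ}
    (hM : ∀ m ∈ M, Squarefree m ∧ m ≤ X ∧ Real.log m ≤ 2 * T ∧ nSp m (T ^ 8) ≤ 2 * T) :
    ∃ k : ℕ, (T ^ 4) ^ k ≤ X ^ 3 ∧ (#M : ℝ) ≤ 2 * (768 * Real.log X ^ 2) ^ (k + 1) := by
  have hT : (32 : ℝ) ≤ T := by exact_mod_cast h2
  have hX : (T : ℝ) ≤ X := by exact_mod_cast h3
  have hl2 := Real.log_two_gt_d9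
  have hL : 1 ≤ Real.log X := by
    have : Real.log ((2 : ℝ) ^ 2) ≤ Real.log X := Real.log_le_log (by norm_num) (by linarith)
    rw [Real.log_pow] at this
    push_cast at this
    linarith
  have hlT : Real.log T ≤ Real.log X := Real.log_le_log (by linarith) hX
  have hlT' : Real.log T ≤ T := (Real.log_le_sub_one_of_pos (by linarith)).trans (by linarith)
  have hlT0 : 0 ≤ Real.log T := Real.log_nonneg (by linarith)
  have hc := hz (T ^ 8) (h1.trans (Nat.le_self_pow (by omega) T))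
  have hs := fun m (hm : m ∈ M) => xhb_sum (z := T ^ 8) (hM m hm).1.ne_zero
  obtain ⟨P, hP⟩ : ∃ P, P = (Nat.primesLE (T ^ 8)).filter fun p => p ≠ 2 := ⟨_, rfl⟩
  rw [← hP] at hc hs
  rw [Nat.cast_pow, Real.log_pow, Nat.cast_ofNat] at hc
  have hP0 : (0 : ℝ) ≤ #P := Nat.cast_nonneg _
  have hb : 4 * (8 * Real.log T) ≤ (T : ℝ) ^ 2 := by nlinarith
  have hN : (T : ℝ) ^ 6 ≤ #P := by
    refine le_of_mul_le_mul_left (a := (T : ℝ) ^ 2) ?_ (by positivity)
    refine le_trans (le_of_eq (by ring)) (hc.trans (mul_le_mul_of_nonneg_right hb hP0))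
  have hTD : (1 : ℝ) ≤ (T : ℝ) ^ 4 := one_le_pow₀ (by linarith)
  have hN' : 16 * (T : ℝ) ≤ #P := by
    refine le_trans ?_ hN
    rw [show 6 = 4 + 2 from rfl, pow_add]
    nlinarith
  have hPpos : (0 : ℝ) < #P := by linarith
  have hex : ∃ k : ℕ, 8 * X ^ 2 ≤ (T ^ 4) ^ k :=
    ⟨8 * X ^ 2, (Nat.lt_pow_self (Nat.one_lt_pow (by omega) (by omega))).le⟩
  obtain ⟨k, hk1, hk2⟩ : ∃ k : ℕ, 8 * X ^ 2 ≤ (T ^ 4) ^ (k + 1) ∧ (T ^ 4) ^ k ≤ X ^ 3 := by
    have a1 := Nat.find_spec hex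
    have a0 : 0 < X ^ 2 := Nat.pow_pos (by omega)
    have a2 : Nat.find hex ≠ 0 := fun e => by
      rw [e, pow_zero] at a1
      omega
    obtain ⟨k, hk⟩ := Nat.exists_eq_succ_of_ne_zero a2
    refine ⟨k, by rw [hk] at a1; exact a1, ?_⟩
    have a3 := not_le.1 (Nat.find_min hex (m := k) (by omega))
    refine a3.le.trans ?_
    rw [pow_succ' X 2]
    exact Nat.mul_le_mul_right _ (by omega)
  have hkL : 4 * ((k + 1 : ℕ) : ℝ) ≤ 24 * Real.log X := by
    have a1 : 2 ^ k ≤ X ^ 3 := le_trans (Nat.pow_le_pow_left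
      (le_trans (by omega) (Nat.le_self_pow (by omega : 4 ≠ 0) T)) k) hk2
    have a2 : Real.log ((2 : ℝ) ^ k) ≤ Real.log ((X : ℝ) ^ 3) :=
      Real.log_le_log (by positivity) (by exact_mod_cast a1)
    rw [Real.log_pow, Real.log_pow] at a2
    have a3 : (0 : ℝ) ≤ k := Nat.cast_nonneg _
    push_cast at a2 ⊢
    nlinarith
  have hk0 : (0 : ℝ) < 4 * ((k + 1 : ℕ) : ℝ) := by positivity
  have key := sieve_pow X (T ^ 8) (k + 1) (Nat.succ_pos k) P M
    (fun p hp => by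
      rw [hP] at hp
      exact (Nat.mem_primesLE.1 (mem_filter.1 hp).1).symm)
    (fun m hm => ⟨(hM m hm).1, (hM m hm).2.1, by
      have a1 := hs m hm
      have a2 := (hM m hm).2.2.1
      have a3 : (nSp m (T ^ 8) : ℝ) ≤ 2 * T := by exact_mod_cast (hM m hm).2.2.2
      linarith⟩)
    (by
      have a1 : 8 * (X : ℝ) ^ 2 ≤ ((T : ℝ) ^ 4) ^ (k + 1) := by exact_mod_cast hk1
      refine a1.trans (pow_le_pow_left₀ (by positivity) ?_ _)
      rw [le_div_iff₀ hk0]
      refine le_trans ?_ hN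
      rw [show 6 = 4 + 2 from rfl, pow_add]
      exact mul_le_mul_of_nonneg_left (hkL.trans h4) (by positivity))
    (card_pos.1 (by exact_mod_cast hPpos))
  refine ⟨k, hk2, key.trans (mul_le_mul_of_nonneg_left
    (pow_le_pow_left₀ (by positivity) ?_ _) (by norm_num))⟩
  have hB1 : 4 * ((k + 1 : ℕ) : ℝ) * ((T ^ 8 : ℕ) : ℝ) / #P ≤
      24 * Real.log X * (4 * (8 * Real.log T)) := by
    rw [mul_div_assoc]
    refine mul_le_mul hkL ?_ (by positivity) (by positivity)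
    rw [div_le_iff₀ hPpos, Nat.cast_pow]
    exact hc
  refine hB1.trans ?_
  have : 24 * Real.log X * (4 * (8 * Real.log T)) ≤ 24 * Real.log X * (4 * (8 * Real.log X)) := by
    gcongr
  linarith

theorem block6 (B : ℕ) : ∃ (C : ℝ) (X₀ : ℕ), ∀ (X T : ℕ) (M : Finset ℕ), X₀ ≤ X →
    thr B (Real.log X) / 4 ≤ Real.log T → T ≤ X →
    (∀ m ∈ M, Squarefree m ∧ m ≤ X ∧ nSp m (T ^ 8) ≤ 2 * T) →
    (#M : ℝ) ≤ Real.exp (C * Real.log (Real.log X) ^ (B + 1)) := by
  obtain ⟨z₀, hz⟩ := cheb_low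
  obtain ⟨c, hc⟩ : ∃ c : ℝ, c = Real.log (z₀ + 32) := ⟨_, rfl⟩
  have hz0 : (0 : ℝ) ≤ z₀ := Nat.cast_nonneg _
  have hc0 : 0 ≤ c := by rw [hc]; exact Real.log_nonneg (by linarith)
  obtain ⟨X₀, hX₀⟩ := yha_ev (B + 1) (4 * (1 + c))
  refine ⟨37, X₀, fun X T M hX hT hTX hM => ?_⟩
  obtain ⟨b1, b2, b3, b4⟩ := hX₀ X hX
  unfold thr at hT b2
  obtain ⟨L, hL⟩ : ∃ L, L = Real.log X := ⟨_, rfl⟩
  obtain ⟨l, hl⟩ : ∃ l, l = Real.log L := ⟨_, rfl⟩
  rw [← hL, ← hl] at hT b1 b2 ⊢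
  rw [← hL] at b3
  have hl1 : 1 ≤ l := by linarith
  have hL1 : 1 ≤ L := by linarith
  have hlB : 0 < l ^ B := by positivity
  have a1 : l + c ≤ Real.log T := by
    refine le_trans ?_ hT
    rw [le_div_iff₀ (by positivity), pow_succ] at b2
    rw [le_div_iff₀ (by norm_num), le_div_iff₀ hlB]
    refine le_trans ?_ b2
    have : (l + c) * 4 ≤ 4 * (1 + c) * l := by nlinarith
    nlinarith
  have hT0 : (0 : ℝ) < T := by
    rcases Nat.eq_zero_or_pos T with rfl | h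
    · rw [Nat.cast_zero, Real.log_zero] at a1
      linarith
    · exact_mod_cast h
  have a2 : L * (z₀ + 32) ≤ T := by
    have := (Real.le_log_iff_exp_le hT0).1 a1
    rwa [Real.exp_add, hl, hc, Real.exp_log (by linarith), Real.exp_log (by linarith)] at this
  have a3 : (z₀ : ℝ) + 32 ≤ T := by nlinarith
  have a4 : 32 * L ≤ T := by nlinarith
  have a5 : z₀ + 32 ≤ T := by exact_mod_cast a3
  obtain ⟨k, hk, hM'⟩ := yha_block hz (X := X) (T := T) (M := M) (by omega) (by omega) hTX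
    (by rw [← hL]; nlinarith) fun m hm => ⟨(hM m hm).1, (hM m hm).2.1, by
      have e1 : Real.log m ≤ Real.log X := Real.log_le_log
        (by exact_mod_cast Nat.pos_of_ne_zero (hM m hm).1.ne_zero) (by exact_mod_cast (hM m hm).2.1)
      linarith, (hM m hm).2.2⟩
  rw [← hL] at hM'
  have a6 : (k : ℝ) ≤ 3 * l ^ B := by
    have e1 : Real.log (((T : ℝ) ^ 4) ^ k) ≤ Real.log ((X : ℝ) ^ 3) :=
      Real.log_le_log (by positivity) (by exact_mod_cast hk)
    rw [Real.log_pow, Real.log_pow, Real.log_pow, ← hL] at e1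
    push_cast at e1
    have e2 : (k : ℝ) * (L / l ^ B) ≤ 3 * L :=
      (mul_le_mul_of_nonneg_left (by linarith) (Nat.cast_nonneg k)).trans e1
    rw [← mul_div_assoc, div_le_iff₀ hlB] at e2
    refine le_of_mul_le_mul_right (a := L) ?_ (by linarith)
    linarith
  have a7 : 768 * L ^ 2 ≤ Real.exp (9 * l) := by
    have e1 : (768 : ℝ) ≤ Real.exp 7 := by
      have f1 := Real.exp_one_gt_d9
      have f2 : Real.exp 7 = Real.exp 1 ^ 7 := by rw [← Real.exp_nat_mul]; norm_num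
      rw [f2]
      exact le_trans (by norm_num) (pow_le_pow_left₀ (by norm_num : (0 : ℝ) ≤ 2.7) (by linarith) 7)
    have e2 : L ^ 2 = Real.exp (2 * l) := by
      rw [show (2 : ℝ) * l = l + l by ring, Real.exp_add, hl, Real.exp_log (by linarith), sq]
    rw [e2]
    refine (mul_le_mul_of_nonneg_right e1 (Real.exp_pos _).le).trans ?_
    rw [← Real.exp_add]
    exact Real.exp_le_exp.2 (by linarith)
  have a8 : (1 : ℝ) ≤ l ^ B := one_le_pow₀ hl1
  have a9 : (2 : ℝ) ≤ Real.exp 1 := by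
    have := Real.add_one_le_exp 1
    linarith
  refine hM'.trans ((mul_le_mul a9 (pow_le_pow_left₀ (by positivity) a7 _) (by positivity)
    (Real.exp_pos _).le).trans ?_)
  rw [← Real.exp_nat_mul, ← Real.exp_add]
  refine Real.exp_le_exp.2 ?_
  push_cast
  rw [pow_succ]
  have e3 : ((k : ℝ) + 1) * (9 * l) ≤ 4 * l ^ B * (9 * l) :=
    mul_le_mul_of_nonneg_right (by linarith) (by linarith)
  nlinarith

theorem range_bad (B : ℕ) : ∃ (C : ℝ) (X₀ : ℕ), ∀ X : ℕ, X₀ ≤ X →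
    (#{m ∈ range (X + 1) | X < m ^ 2 ∧ Squarefree m ∧ ∃ t : ℕ,
      thr B (Real.log m) ≤ Real.log t ∧ t < m ∧ nSp m (t ^ 8) < t} : ℝ) ≤
      Real.exp (C * Real.log (Real.log X) ^ (B + 1)) := by
  obtain ⟨C, X₁, hC⟩ := block6 B
  obtain ⟨X₂, hX₂⟩ := yha_ev B (2 * Real.exp B + 4)
  refine ⟨C + 4, max X₁ X₂, fun X hX => ?_⟩
  obtain ⟨b1, b2, b3, b4⟩ := hX₂ X (le_of_max_le_right hX)
  have hB := Real.exp_pos B
  have hX0 : X ≠ 0 := by
    rintro rfl
    rw [Nat.cast_zero] at b4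
    linarith
  have hl2 := Real.log_two_lt_d9
  obtain ⟨M, hM⟩ : ∃ M : ℕ → Finset ℕ, M = fun j => (range (X + 1)).filter fun m : ℕ =>
      Squarefree m ∧ nSp m ((2 ^ j) ^ 8) ≤ 2 * 2 ^ j ∧
        thr B (Real.log X) / 4 ≤ Real.log (2 ^ j : ℕ) := ⟨_, rfl⟩
  have a1 : #{m ∈ range (X + 1) | X < m ^ 2 ∧ Squarefree m ∧ ∃ t : ℕ,
      thr B (Real.log m) ≤ Real.log t ∧ t < m ∧ nSp m (t ^ 8) < t} ≤
      #((range (Nat.log 2 X + 1)).biUnion M) := by
    refine card_le_card fun m hm => ?_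
    obtain ⟨h5, h6, h1, t, h2, h3, h4⟩ := mem_filter.1 hm
    have h5' : m ≤ X := Nat.lt_succ_iff.1 (mem_range.1 h5)
    have h7 : t ≠ 0 := by omega
    have h8 := Nat.pow_log_le_self 2 h7
    have h9 := Nat.lt_pow_succ_log_self (b := 2) (by norm_num) t
    rw [pow_succ] at h9
    refine mem_biUnion.2 ⟨Nat.log 2 t, mem_range.2
      (Nat.lt_succ_of_le (Nat.log_mono_right (by omega))), ?_⟩
    rw [hM]
    refine mem_filter.2 ⟨h5, h1, ?_, ?_⟩
    · have := nSp_mono m (Nat.pow_le_pow_left h8 8)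
      omega
    have c1 : Real.log X / 2 ≤ Real.log m := by
      have d1 : Real.log X ≤ Real.log ((m : ℝ) ^ 2) :=
        Real.log_le_log (by linarith) (by exact_mod_cast h6.le)
      rw [Real.log_pow] at d1
      push_cast at d1
      linarith
    have c2 := thr_mono B (by linarith : Real.exp B ≤ Real.log X / 2) c1
    have c3 : thr B (Real.log X) / 2 ≤ thr B (Real.log X / 2) := by
      unfold thr
      rw [div_right_comm]
      have d1 : 0 < Real.log (Real.log X / 2) := Real.log_pos (by linarith)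
      exact div_le_div_of_nonneg_left (by linarith) (by positivity)
        (pow_le_pow_left₀ d1.le (Real.log_le_log (by linarith) (by linarith)) B)
    have c4 : Real.log t ≤ Real.log (2 ^ Nat.log 2 t : ℕ) + Real.log 2 := by
      rw [← Real.log_mul (by positivity) (by norm_num)]
      exact Real.log_le_log (by exact_mod_cast Nat.pos_of_ne_zero h7) (by exact_mod_cast h9.le)
    linarith
  have a2 : ∀ j ∈ range (Nat.log 2 X + 1),
      (#(M j) : ℝ) ≤ Real.exp (C * Real.log (Real.log X) ^ (B + 1)) := fun j hj => by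
    rcases (M j).eq_empty_or_nonempty with e | ⟨m₀, e⟩
    · rw [e, card_empty, Nat.cast_zero]
      positivity
    rw [hM] at e
    refine hC X (2 ^ j) _ (le_of_max_le_left hX) (mem_filter.1 e).2.2.2
      (Nat.pow_le_of_le_log hX0 (Nat.lt_succ_iff.1 (mem_range.1 hj))) fun m hm => ?_
    rw [hM] at hm
    obtain ⟨d1, d2, d3, -⟩ := mem_filter.1 hm
    exact ⟨d2, Nat.lt_succ_iff.1 (mem_range.1 d1), d3⟩
  have a3 : ((Nat.log 2 X + 1 : ℕ) : ℝ) ≤ Real.exp (4 * Real.log (Real.log X) ^ (B + 1)) := by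
    refine le_trans ?_ (yha_four B (by linarith) (by linarith))
    have := yha_log2 hX0
    push_cast
    linarith
  refine (Nat.cast_le.2 (a1.trans card_biUnion_le)).trans ?_
  rw [Nat.cast_sum]
  refine (sum_le_card_nsmul _ _ _ a2).trans ?_
  rw [card_range, nsmul_eq_mul, add_mul, add_comm (C * _), Real.exp_add]
  exact mul_le_mul_of_nonneg_right a3 (Real.exp_pos _).le

theorem sqrt_rec (p : ℕ → Prop) (B : ℕ) {C : ℝ} {X₀ : ℕ} (h : ∀ X : ℕ, X₀ ≤ X →
    (#{m ∈ range (X + 1) | X < m ^ 2 ∧ p m} : ℝ) ≤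
      Real.exp (C * Real.log (Real.log X) ^ (B + 1))) : ∃ C' : ℝ, ∀ X : ℕ,
    (#{m ∈ range (X + 1) | p m} : ℝ) ≤ C' * Real.exp (Real.log (Real.log X) ^ (B + 2)) := by
  obtain ⟨X₂, hX₂⟩ := yha_ev B (|C| + 9)
  obtain ⟨f, hf⟩ : ∃ f : ℕ → ℝ, f = fun X => (#{m ∈ range (X + 1) | p m} : ℝ) := ⟨_, rfl⟩
  obtain ⟨g, hg⟩ : ∃ g : ℕ → ℝ, g = fun X : ℕ => Real.exp (Real.log (Real.log X) ^ (B + 2)) :=
    ⟨_, rfl⟩
  have hf0 : ∀ X, 0 ≤ f X := fun X => by rw [hf]; exact Nat.cast_nonneg _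
  have hg0 : ∀ X, 0 < g X := fun X => by rw [hg]; exact Real.exp_pos _
  obtain ⟨C', hC'⟩ : ∃ C', C' = 1 + ∑ X ∈ range (max X₀ X₂), f X / g X := ⟨_, rfl⟩
  have hs : ∀ X ∈ range (max X₀ X₂), 0 ≤ f X / g X := fun X _ => div_nonneg (hf0 X) (hg0 X).le
  have hC1 : 1 ≤ C' := by
    rw [hC']
    exact le_add_of_nonneg_right (sum_nonneg hs)
  suffices H : ∀ X, f X ≤ C' * g X by
    refine ⟨C', fun X => ?_⟩
    have := H X
    rw [hf, hg] at this
    exact this
  intro X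
  induction X using Nat.strong_induction_on with
  | _ X ih =>
  rcases lt_or_ge X (max X₀ X₂) with hlt | hge
  · rw [← div_le_iff₀ (hg0 X), hC']
    have := single_le_sum hs (mem_range.2 hlt)
    linarith
  obtain ⟨b1, -, b3, b4⟩ := hX₂ X (le_of_max_le_right hge)
  have hC0 := abs_nonneg C
  have hX9 : 9 ≤ X := by exact_mod_cast (by linarith : (9 : ℝ) ≤ X)
  have hY3 : 3 ≤ Nat.sqrt X := Nat.le_sqrt.2 hX9
  have hYX : Nat.sqrt X < X := Nat.sqrt_lt_self (by omega)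
  have a1 : f X ≤ f (Nat.sqrt X) + Real.exp (C * Real.log (Real.log X) ^ (B + 1)) := by
    refine le_trans ?_ (add_le_add le_rfl (h X (le_of_max_le_left hge)))
    rw [hf]
    beta_reduce
    rw [← Nat.cast_add]
    refine Nat.cast_le.2 (le_trans (card_le_card fun m hm => ?_) (card_union_le _ _))
    obtain ⟨d1, d2⟩ := mem_filter.1 hm
    rw [mem_union]
    by_cases e : X < m ^ 2
    · exact Or.inr (mem_filter.2 ⟨d1, e, d2⟩)
    · exact Or.inl (mem_filter.2 ⟨mem_range.2 (Nat.lt_succ_of_le (Nat.le_sqrt'.2 (not_lt.1 e))), d2⟩)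
  have hl2 := Real.log_two_lt_d9
  have hl2' := Real.log_two_gt_d9
  have hY : (3 : ℝ) ≤ Nat.sqrt X := by exact_mod_cast hY3
  have c1 : 1 ≤ Real.log (Nat.sqrt X) := by
    rw [Real.le_log_iff_exp_le (by linarith)]
    have := Real.exp_one_lt_d9
    linarith
  have c2 : Real.log (Nat.sqrt X) ≤ Real.log X / 2 := by
    have d1 : Real.log ((Nat.sqrt X : ℝ) ^ 2) ≤ Real.log X :=
      Real.log_le_log (by positivity) (by exact_mod_cast Nat.sqrt_le' X)
    rw [Real.log_pow] at d1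
    push_cast at d1
    linarith
  have c3 : Real.log (Real.log (Nat.sqrt X)) ≤ Real.log (Real.log X) - Real.log 2 := by
    rw [← Real.log_div (by linarith) (by norm_num)]
    exact Real.log_le_log (by linarith) c2
  have c4 : 0 ≤ Real.log (Real.log (Nat.sqrt X)) := Real.log_nonneg c1
  have ih' := ih _ hYX
  rw [hg] at ih' ⊢
  beta_reduce at ih' ⊢
  obtain ⟨l, hl⟩ : ∃ l, l = Real.log (Real.log X) := ⟨_, rfl⟩
  obtain ⟨l', hl'⟩ : ∃ l', l' = Real.log (Real.log (Nat.sqrt X)) := ⟨_, rfl⟩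
  rw [← hl'] at ih' c3 c4
  rw [← hl] at a1 b1 c3 ⊢
  have e1 : (1 : ℝ) ≤ l ^ (B + 1) := one_le_pow₀ (by linarith)
  have e2 : l' ^ (B + 1) ≤ l ^ (B + 1) := pow_le_pow_left₀ c4 (by linarith) _
  have e3 : l' ^ (B + 2) ≤ l ^ (B + 2) - Real.log 2 := by
    rw [pow_succ l', pow_succ l]
    have := mul_le_mul e2 c3 c4 (by linarith)
    nlinarith
  have e4 : C * l ^ (B + 1) ≤ l ^ (B + 2) - Real.log 2 := by
    rw [pow_succ l (B + 1)]
    have := le_abs_self C
    nlinarith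
  have e5 : Real.exp (l ^ (B + 2) - Real.log 2) = Real.exp (l ^ (B + 2)) / 2 := by
    rw [Real.exp_sub, Real.exp_log (by norm_num)]
  have e6 := (Real.exp_le_exp.2 e3).trans_eq e5
  have e7 := (Real.exp_le_exp.2 e4).trans_eq e5
  have e8 := mul_le_mul_of_nonneg_left e6 (by linarith : 0 ≤ C')
  have e9 := mul_le_mul_of_nonneg_right hC1 (Real.exp_pos (l ^ (B + 2))).le
  linarith

theorem thin6 (B : ℕ) : ∃ (c : ℝ) (A : ℕ) (C : ℝ), 0 < c ∧ ∀ X : ℕ,
    ((EY B A c ∩ Set.Iic X).ncard : ℝ) ≤ C * Real.exp (Real.log (Real.log X) ^ (B + 2)) := by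
  obtain ⟨c, hc, H⟩ := two_exc
  obtain ⟨A₁, t₀, h1⟩ := many_large
  obtain ⟨C, X₁, h2⟩ := range_bad B
  obtain ⟨X₂, hX₂⟩ := yha_ev B (t₀ ^ 2 + 1)
  obtain ⟨C', hC'⟩ := sqrt_rec (fun m => m ∈ EY B (max 8 A₁) c) B (C := |C| + 5)
    (X₀ := max X₁ X₂) fun X hX => by
      obtain ⟨b1, -, b3, b4⟩ := hX₂ X (le_of_max_le_right hX)
      have ht0 : (0 : ℝ) ≤ (t₀ : ℝ) ^ 2 := by positivity
      have hX0 : X ≠ 0 := by
        rintro rfl
        rw [Nat.cast_zero] at b4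
        linarith
      have hXt : t₀ ^ 2 ≤ X := by exact_mod_cast (by linarith : (t₀ : ℝ) ^ 2 ≤ X)
      have a3 := card_lac (Z := {m : ℕ | Squarefree m ∧ ¬ NoZero c (-(m : ℤ))})
        (fun m hm m' hm' hlt => not_le.1 fun hle => (H m m' hm.1 hm'.1 hlt hle).elim hm.2 hm'.2) X
      have a4 : #((range (X + 1)).filter fun m : ℕ => Squarefree m ∧ ¬ NoZero c (-(m : ℤ))) ≤ Nat.log 2 X + 2 := by
        refine le_trans ?_ a3
        rw [← Set.ncard_coe_finset]
        refine Set.ncard_le_ncard (fun m hm => ?_) ((Set.finite_Iic X).subset Set.inter_subset_right)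
        obtain ⟨d1, d2⟩ := mem_filter.1 (mem_coe.1 hm)
        exact ⟨d2, Nat.lt_succ_iff.1 (mem_range.1 d1)⟩
      have a1 : #{m ∈ range (X + 1) | X < m ^ 2 ∧ m ∈ EY B (max 8 A₁) c} ≤
          #((range (X + 1)).filter fun m : ℕ => Squarefree m ∧ ¬ NoZero c (-(m : ℤ))) +
          #{m ∈ range (X + 1) | X < m ^ 2 ∧ Squarefree m ∧ ∃ t : ℕ,
            thr B (Real.log m) ≤ Real.log t ∧ t < m ∧ nSp m (t ^ 8) < t} := by
        refine le_trans (card_le_card fun m hm => ?_) (card_union_le _ _)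
        obtain ⟨d1, d2, hm, hn⟩ := mem_filter.1 hm
        rw [mem_union]
        by_cases hz : NoZero c (-(m : ℤ))
        · have h3 : ¬ ManyT (max 8 A₁) m (thr B (Real.log m)) := fun h => hn ⟨hz, h⟩
          unfold ManyT at h3
          push Not at h3
          obtain ⟨t, t1, t2⟩ := h3
          have t0 : 0 < t := by omega
          rcases Nat.lt_or_ge t m with h4 | h4
          · exact Or.inr (mem_filter.2 ⟨d1, d2, hm, t, t1, h4,
              (nSp_mono m (Nat.pow_le_pow_right t0 (le_max_left 8 A₁))).trans_lt t2⟩)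
          · have h5 : t₀ < m := lt_of_pow_lt_pow_left₀ 2 (Nat.zero_le _) (hXt.trans_lt d2)
            have h6 := h1 m hm t (by omega) h4
            have h7 := nSp_mono m (Nat.pow_le_pow_right t0 (le_max_right 8 A₁))
            omega
        · exact Or.inl (mem_filter.2 ⟨d1, hm, hz⟩)
      have a5 : ((Nat.log 2 X + 2 : ℕ) : ℝ) ≤ Real.exp (4 * Real.log (Real.log X) ^ (B + 1)) := by
        refine le_trans ?_ (yha_four B (by linarith) (by linarith))
        have := yha_log2 hX0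
        push_cast
        linarith
      have a6 := h2 X (le_of_max_le_left hX)
      have a7 : ((_ : ℕ) : ℝ) ≤ ((_ : ℕ) : ℝ) := Nat.cast_le.2 (a1.trans (Nat.add_le_add_right a4 _))
      rw [Nat.cast_add] at a7
      refine (a7.trans (add_le_add a5 a6)).trans ?_
      have e1 : (1 : ℝ) ≤ Real.log (Real.log X) ^ (B + 1) := one_le_pow₀ (by linarith)
      obtain ⟨w, hw⟩ : ∃ w, w = Real.log (Real.log X) ^ (B + 1) := ⟨_, rfl⟩
      rw [← hw] at e1 ⊢
      have e2 := abs_nonneg C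
      have e3 := le_abs_self C
      have e4 : Real.exp (4 * w) ≤ Real.exp ((|C| + 4) * w) := Real.exp_le_exp.2 (by nlinarith)
      have e5 : Real.exp (C * w) ≤ Real.exp ((|C| + 4) * w) := Real.exp_le_exp.2 (by nlinarith)
      have e6 : 2 ≤ Real.exp w := by
        have := Real.add_one_le_exp w
        linarith
      rw [show (|C| + 5) * w = w + (|C| + 4) * w by ring, Real.exp_add]
      have e7 := mul_le_mul_of_nonneg_right e6 (Real.exp_pos ((|C| + 4) * w)).le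
      linarith
  refine ⟨c, max 8 A₁, C', hc, fun X => le_trans (Nat.cast_le.2 ?_) (hC' X)⟩
  rw [← Set.ncard_coe_finset]
  refine Set.ncard_le_ncard (fun m hm => ?_) (finite_toSet _)
  exact mem_coe.2 (mem_filter.2 ⟨mem_range.2 (Nat.lt_succ_of_le hm.2), hm.1⟩)

end Pool.Agent.EQ
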