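import Pool.Agent.P.MP_ad7a55_nt.XHe
import Pool.Agent.P.MP_ad7a55_nt.YHa

/-! A small zero-free disc gives many split primes at large scales. -/

set_option autoImplicit false

noncomputable section

open Finset
open scoped Classical ArithmeticFunction.vonMangoldt

namespace Pool.Agent.EQ

theorem logderiv6 {η : ℝ} (hη : 0 < η) (hη' : η ≤ 1 / 3) (f : ℂ → ℂ) (c : ℂ) (M : ℝ)
    (hf : DifferentiableOn ℂ f (Metric.ball c (1 + η)))
    (h0 : ∀ z ∈ Metric.ball c (1 + η), f z ≠ 0) (hM : 1 ≤ M)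
    (hb : ∀ z ∈ Metric.ball c (1 + η), ‖f z‖ ≤ M * ‖f c‖) (k : ℕ) :
    ‖iteratedDeriv k (fun z => deriv f z / f z) c‖ ≤
      50 / η ^ 2 * (Real.log M + 1) * k.factorial / (1 + η / 2) ^ k := by
  obtain ⟨h, hh, hn⟩ := xhd_prim (show 0 < 1 + η by linarith) hf h0 hM hb
  have hlog : 0 ≤ Real.log M := Real.log_nonneg hM
  have hδ : 0 < η / 4 := by linarith
  have hg : DifferentiableOn ℂ (fun z => deriv f z / f z) (Metric.ball c (1 + η)) :=
    (hf.deriv Metric.isOpen_ball).div hf h0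
  have hhd : DifferentiableOn ℂ h (Metric.ball c (1 + η)) :=
    fun z hz => (hh z hz).differentiableAt.differentiableWithinAt
  have hs : ∀ z ∈ Metric.sphere c (1 + η / 2), ‖deriv f z / f z‖ ≤
      50 / η ^ 2 * (Real.log M + 1) := by
    intro z hz
    have hz1 : dist z c = 1 + η / 2 := Metric.mem_sphere.1 hz
    have hsub : Metric.closedBall z (η / 4) ⊆ Metric.ball c (1 + η) :=
      Metric.closedBall_subset_ball' (by linarith)
    rw [← (hh z (by rw [Metric.mem_ball]; linarith)).deriv]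
    refine (Complex.norm_deriv_le_of_forall_mem_sphere_norm_le
      (C := 2 * (Real.log M + 1) * (1 + 3 * η / 4) / (1 + η - (1 + 3 * η / 4))) hδ
      (hhd.diffContOnCl_ball hsub) fun w hw => ?_).trans ?_
    · refine (hn w (hsub (Metric.sphere_subset_closedBall hw))).trans
        (xhd_mono (by linarith) (norm_nonneg _) ?_ (by linarith))
      have h1 := dist_triangle w z c
      rw [Metric.mem_sphere.1 hw, hz1, dist_eq_norm] at h1
      linarith
    · have e : 2 * (Real.log M + 1) * (1 + 3 * η / 4) / (1 + η - (1 + 3 * η / 4)) / (η / 4) =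
          32 * (1 + 3 * η / 4) / η ^ 2 * (Real.log M + 1) := by
        rw [show 1 + η - (1 + 3 * η / 4) = η / 4 by ring]
        field_simp
        ring
      rw [e]
      exact mul_le_mul_of_nonneg_right
        (div_le_div_of_nonneg_right (by linarith) (by positivity)) (by linarith)
  refine (Complex.norm_iteratedDeriv_le_of_forall_mem_sphere_norm_le k
    (show 0 < 1 + η / 2 by linarith)
    (hg.diffContOnCl_ball (Metric.closedBall_subset_ball (by linarith))) hs).trans (le_of_eq ?_)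
  ring

theorem sum_chi6 : ∃ C : ℝ, 0 < C ∧ ∀ η : ℝ, 0 < η → η ≤ 1 / 3 → ∀ (q : ℕ) [NeZero q]
    (χ : DirichletCharacter ℂ q), χ ≠ 1 → (∀ s : ℂ, ‖s - 2‖ < 1 + η → χ.LFunction s ≠ 0) →
    ∀ k : ℕ, ‖∑' n : ℕ, χ n * ((Λ n * Real.log n ^ k / (n : ℝ) ^ 2 : ℝ) : ℂ)‖ ≤
      C / η ^ 2 * (Real.log q + 1) * k.factorial / (1 + η / 2) ^ k := by
  refine ⟨500, by norm_num, ?_⟩
  intro η he he2 q _ χ hχ hz k
  have hq : (1 : ℝ) ≤ q := by exact_mod_cast Nat.pos_of_ne_zero (NeZero.ne q)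
  have h1 := logderiv6 he he2 χ.LFunction 2 (10 * q)
    (χ.differentiable_LFunction hχ).differentiableOn
    (fun s hs => hz s (mem_ball_iff_norm.1 hs)) (by linarith)
    (fun s hs => by
      have h2 := L_ball hχ (s := s) (Metric.ball_subset_closedBall
        (Metric.ball_subset_ball (by linarith) hs))
      have h3 := mul_le_mul_of_nonneg_left (xhd_two χ) (show (0 : ℝ) ≤ 5 * q by linarith)
      linarith) k
  have h2 : (fun z => deriv χ.LFunction z / χ.LFunction z) =ᶠ[nhds 2]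
      fun z => -LSeries (fun n : ℕ => χ n * (Λ n : ℂ)) z := by
    filter_upwards [xhd_nhds] with s hs
    have h3 : χ.LFunction =ᶠ[nhds s] LSeries fun n : ℕ => χ n := by
      filter_upwards [(isOpen_lt continuous_const Complex.continuous_re).mem_nhds hs] with w hw
      exact χ.LFunction_eq_LSeries hw
    have h4 : LSeries (fun n : ℕ => χ n * (Λ n : ℂ)) s = _ :=
      χ.LSeries_twist_vonMangoldt_eq hs
    rw [h4, h3.deriv_eq, χ.LFunction_eq_LSeries hs, neg_div, neg_neg]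
  rw [h2.iteratedDeriv_eq, iteratedDeriv_fun_neg, norm_neg,
    xhd_deriv (fun n : ℕ => χ n) (fun s hs => χ.LSeriesSummable_twist_vonMangoldt hs) k,
    norm_mul, norm_pow, norm_neg, norm_one, one_pow, one_mul] at h1
  refine h1.trans (div_le_div_of_nonneg_right
    (mul_le_mul_of_nonneg_right ?_ (Nat.cast_nonneg _)) (by positivity))
  rw [show (500 : ℝ) / η ^ 2 = 50 / η ^ 2 * 10 by ring, mul_assoc]
  refine mul_le_mul_of_nonneg_left ?_ (by positivity)
  have h5 : Real.log 10 ≤ 10 - 1 := Real.log_le_sub_one_of_pos (by norm_num)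
  have h6 := Real.log_nonneg hq
  rw [Real.log_mul (by norm_num) (by linarith)]
  linarith

theorem yhd_ev (B : ℕ) (a b : ℝ) : ∃ X₀ : ℝ, ∀ X : ℝ, X₀ ≤ X →
    Real.log X ^ B ≤ X / 3 ∧ a ≤ X ∧ b ≤ Real.log X := by
  have h1 := (Real.isLittleO_pow_log_id_atTop (n := B)).bound (show (0 : ℝ) < 1 / 3 by norm_num)
  have h2 := Real.tendsto_log_atTop.eventually_ge_atTop b
  obtain ⟨X₀, h⟩ := Filter.eventually_atTop.1
    (h1.and ((Filter.eventually_ge_atTop a).and (h2.and (Filter.eventually_ge_atTop 0))))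
  refine ⟨X₀, fun X hX => ?_⟩
  obtain ⟨a1, a2, a3, a4⟩ := h X hX
  refine ⟨?_, a2, a3⟩
  rw [id, Real.norm_of_nonneg a4] at a1
  exact ((le_abs_self _).trans a1).trans (le_of_eq (by ring))

theorem yhd_exp {η : ℝ} (h0 : 0 ≤ η) (h1 : η ≤ 1 / 3) : Real.exp (η / 3) ≤ 1 + η / 2 := by
  have h2 := Real.abs_exp_sub_one_sub_id_le (x := η / 3) (by rw [abs_of_nonneg] <;> linarith)
  have h3 := (abs_le.1 h2).2
  nlinarith

theorem yhd_exp5 : Real.exp (1 / 5) ≤ 5 / 4 := by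
  have h2 := Real.abs_exp_sub_one_sub_id_le (x := 1 / 5) (by rw [abs_of_nonneg] <;> norm_num)
  have h3 := (abs_le.1 h2).2
  linarith

theorem many_of_ZF6 (B : ℕ) : ∃ (A : ℕ) (X₀ : ℝ), ∀ (m : ℕ) (X : ℝ), X₀ ≤ X → 0 < m →
    Real.log m ≤ X → ZF (Real.log X ^ (B + 2) / X) m → ManyT A m (thr B X) := by
  obtain ⟨C₁, hC₁, h1⟩ := sum_chi6
  obtain ⟨C₂, ρ₂, hC₂, hρ₂, h2⟩ := sum_zeta
  obtain ⟨C₃, hC₃, h3⟩ := sum_split
  obtain ⟨X₀, hX₀⟩ := yhd_ev (B + 2) (8 * C₁ + 4 * (C₃ + 64)) (2 + 4 * C₂ / (ρ₂ - 1))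
  refine ⟨45, X₀, fun m X hX m0 hm hZ t ht => ?_⟩
  obtain ⟨x1, x2, x3⟩ := hX₀ X hX
  have r0 : 0 < ρ₂ - 1 := by linarith
  have x4 : 0 < 4 * C₂ / (ρ₂ - 1) := by positivity
  have xp : 3 ≤ X := by linarith
  have x0 : 0 < X := by linarith
  obtain ⟨l, hl⟩ : ∃ l, l = Real.log X := ⟨_, rfl⟩
  unfold thr at ht
  rw [← hl] at x1 x3 hZ ht
  have l2 : 2 ≤ l := by linarith
  have lB : 0 < l ^ B := by positivity
  obtain ⟨η, hη⟩ : ∃ η, η = l ^ (B + 2) / X := ⟨_, rfl⟩
  rw [← hη] at hZ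
  have e0 : 0 < η := by rw [hη]; positivity
  have e1 : η ≤ 1 / 3 := by rw [hη, div_le_iff₀ x0]; linarith
  have e2 : 1 ≤ η * X := by
    rw [hη, div_mul_cancel₀ _ x0.ne']
    exact one_le_pow₀ (by linarith)
  have e3 : l ^ 2 ≤ η * Real.log t := by
    refine le_trans (le_of_eq ?_) (mul_le_mul_of_nonneg_left ht e0.le)
    rw [hη]
    field_simp
    ring
  have t4 : l ≤ Real.log t := by nlinarith
  have t0 : (0 : ℝ) < t := by
    rcases Nat.eq_zero_or_pos t with rfl | h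
    · simp only [Nat.cast_zero, Real.log_zero] at t4
      linarith
    · exact_mod_cast h
  have t1 : X ≤ t := by
    rw [hl] at t4
    exact (Real.log_le_log_iff x0 t0).1 t4
  by_contra t2
  obtain ⟨k, hk⟩ : ∃ k : ℕ, k = ⌈10 * Real.log t⌉₊ := ⟨_, rfl⟩
  have k0 : 0 < k := by
    rw [hk]
    exact Nat.ceil_pos.2 (by linarith)
  have k1 : 10 * Real.log t ≤ k := by
    rw [hk]
    exact Nat.le_ceil _
  have k2 : (k : ℝ) ≤ 10 * Real.log t + 1 := by
    have := Nat.ceil_lt_add_one (show 0 ≤ 10 * Real.log t by linarith)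
    rw [← hk] at this
    linarith
  have k4 : Real.exp (4 * k) ≤ ((t ^ 45 : ℕ) : ℝ) := by
    rw [Nat.cast_pow, ← Real.le_log_iff_exp_le (by positivity), Real.log_pow]
    push_cast
    linarith
  have w1 : 1 / (1 + η / 2) ^ k ≤ 1 / X ^ 4 := by
    refine one_div_le_one_div_of_le (by positivity)
      (le_trans ?_ (pow_le_pow_left₀ (Real.exp_pos _).le (yhd_exp e0.le e1) k))
    rw [← Real.exp_nat_mul, ← Real.log_le_iff_le_exp (by positivity), Real.log_pow, ← hl]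
    have := mul_le_mul_of_nonneg_left k1 e0.le
    push_cast
    nlinarith
  have w2 : C₂ * (1 / ρ₂ ^ k) ≤ 1 / 4 := by
    have a1 := one_add_mul_le_pow (show (-2 : ℝ) ≤ ρ₂ - 1 by linarith) k
    rw [add_sub_cancel] at a1
    have a2 : 4 * C₂ / (ρ₂ - 1) ≤ k := by linarith
    rw [div_le_iff₀ r0] at a2
    rw [mul_one_div, div_le_iff₀ (by positivity)]
    linarith
  have w3 : (4 / 5 : ℝ) ^ k ≤ 1 / (t : ℝ) ^ 2 := by
    rw [show (4 / 5 : ℝ) = 1 / (5 / 4) by norm_num, one_div_pow]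
    refine one_div_le_one_div_of_le (by positivity)
      (le_trans ?_ (pow_le_pow_left₀ (Real.exp_pos _).le yhd_exp5 k))
    rw [← Real.exp_nat_mul, ← Real.log_le_iff_le_exp (by positivity), Real.log_pow]
    push_cast
    linarith
  have b1 := (xhe_low m0 hZ (h1 η e0 e1) (h2 k)).trans (h3 m k (t ^ 45) m0 k0 k4)
  have f0 : (0 : ℝ) < k.factorial := by exact_mod_cast k.factorial_pos
  have l4 : Real.log 4 ≤ 2 := by
    rw [show (4 : ℝ) = 2 ^ 2 by norm_num, Real.log_pow]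
    push_cast
    linarith [Real.log_two_lt_d9]
  have b2 : k.factorial * (C₁ / η ^ 2 * (Real.log 4 - 2) * (1 / (1 + η / 2) ^ k)) ≤ 0 :=
    mul_nonpos_of_nonneg_of_nonpos f0.le (mul_nonpos_of_nonpos_of_nonneg
      (mul_nonpos_of_nonneg_of_nonpos (by positivity) (by linarith)) (by positivity))
  have b3 := le_of_mul_le_mul_left ((le_sub_self_iff _).2 b2 |>.trans b1) f0
  have t5 : (nSp m (t ^ 45) : ℝ) ≤ t := by exact_mod_cast (not_le.1 t2).le
  have lm : 0 ≤ Real.log m := Real.log_natCast_nonneg m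
  have c0 : C₁ / η ^ 2 ≤ C₁ * X ^ 2 := by
    rw [div_le_iff₀ (by positivity), mul_assoc, ← mul_pow]
    exact le_mul_of_one_le_right hC₁.le (one_le_pow₀ (by linarith))
  have c2 : C₁ / η ^ 2 * (Real.log m + 3) * (1 / (1 + η / 2) ^ k) ≤ 1 / 4 := by
    refine (mul_le_mul (mul_le_mul c0 (show Real.log m + 3 ≤ 2 * X by linarith) (by linarith)
      (by positivity)) w1 (by positivity) (by positivity)).trans ?_
    rw [show C₁ * X ^ 2 * (2 * X) * (1 / X ^ 4) = 2 * C₁ / X by field_simp, div_le_iff₀ x0]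
    linarith
  have c3 : C₃ * (4 / 5) ^ k ≤ C₃ * (1 / (t : ℝ) ^ 2) := mul_le_mul_of_nonneg_left w3 hC₃.le
  have c4 : (nSp m (t ^ 45) + 2 * Real.log m + 1) * (8 * k / 2 ^ k : ℝ)
      ≤ 4 * t * (16 * (1 / (t : ℝ) ^ 2)) :=
    mul_le_mul (by linarith) ((xhe_k k).trans (by linarith)) (by positivity) (by positivity)
  have c5 : 1 / 2 ≤ (C₃ + 64 * t) * (1 / (t : ℝ) ^ 2) := by linarith
  rw [mul_one_div, le_div_iff₀ (by positivity)] at c5
  have c6 : 4 * (C₃ + 64) ≤ t := by linarith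
  nlinarith

theorem noZero_of_ZF6 (B : ℕ) (c : ℝ) : ∃ X₀ : ℝ, ∀ (m : ℕ) (X : ℝ), X₀ ≤ X →
    thr B X ≤ Real.log m → ZF (Real.log X ^ (B + 2) / X) m → NoZero c (-(m : ℤ)) := by
  obtain ⟨X₀, hX₀⟩ := yhd_ev 0 1 (|c| + 1)
  refine ⟨X₀, fun m X hX hm hZ q _ χ hq hχ β hβ hβ1 => ?_⟩
  obtain ⟨-, x2, x3⟩ := hX₀ X hX
  have x0 : 0 < X := by linarith
  have e0 : (-(m : ℤ)).natAbs = m := by simp
  rw [e0] at hq
  refine hZ q χ hq hχ β ?_
  unfold thr at hm
  obtain ⟨l, hl⟩ : ∃ l, l = Real.log X := ⟨_, rfl⟩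
  rw [← hl] at x3 hm ⊢
  have c0 := abs_nonneg c
  have c1 := le_abs_self c
  have l1 : 0 < l := by linarith
  have m0 : 0 < m := Nat.pos_of_ne_zero fun e => NeZero.ne q (by omega)
  have a1 : Real.log m ≤ Real.log q :=
    Real.log_le_log (by exact_mod_cast m0) (by exact_mod_cast (show m ≤ q by omega))
  have a3 : 0 < X / l ^ B := by positivity
  have a4 : 0 < l ^ (B + 2) / X := by positivity
  have a2 : c / Real.log q < l ^ (B + 2) / X := by
    rw [div_lt_iff₀ (by linarith)]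
    refine lt_of_lt_of_le ?_ (mul_le_mul_of_nonneg_left (hm.trans a1) a4.le)
    rw [show l ^ (B + 2) / X * (X / l ^ B) = l ^ 2 by field_simp; ring]
    nlinarith
  rw [show (β : ℂ) - 2 = ((β - 2 : ℝ) : ℂ) by push_cast; ring, Complex.norm_real, Real.norm_eq_abs,
    abs_of_neg (by linarith)]
  linarith

end Pool.Agent.EQ
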