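import Pool.Agent.P.MP_ad7a55_nt.TLow
import Pool.Agent.P.MP_ad7a55_nt.TTi

/-! Sums of divisor type prime to a modulus, and class numbers in small fields. -/

set_option autoImplicit false

noncomputable section

open Finset
open scoped Classical

namespace Pool.Agent.EQ

/-- A convolution with the indicator of the numbers prime to `P`. -/
def vv (P : ℕ) (ψ : ℕ → ℝ) (n : ℕ) : ℝ :=
  ∑ x ∈ n.divisorsAntidiagonal, if x.1.Coprime P then ψ x.2 else 0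

theorem ysa_ind (Q : ℕ) {a : ℕ} (ha : a ≠ 0) :
    ∑ e ∈ a.divisors, (if e ∣ Q then ((ArithmeticFunction.moebius e : ℤ) : ℝ) else 0) =
      if a.Coprime Q then 1 else 0 := by
  rw [← sum_filter]
  have h1 : a.divisors.filter (fun e => e ∣ Q) = (a.gcd Q).divisors := by
    ext e
    simp only [mem_filter, Nat.mem_divisors, Nat.dvd_gcd_iff]
    exact ⟨fun h => ⟨⟨h.1.1, h.2⟩, (Nat.gcd_pos_of_pos_left _ (Nat.pos_of_ne_zero ha)).ne'⟩,
      fun h => ⟨⟨h.1.1, ha⟩, h.1.2⟩⟩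
  have h2 := congrArg (fun f : ArithmeticFunction ℝ => f (a.gcd Q))
    (ArithmeticFunction.coe_moebius_mul_coe_zeta (R := ℝ))
  simp only [ArithmeticFunction.coe_mul_zeta_apply, ArithmeticFunction.intCoe_apply] at h2
  rw [h1, h2]
  by_cases h : a.Coprime Q
  · rw [if_pos h, show a.gcd Q = 1 from h, ArithmeticFunction.one_one]
  · rw [if_neg h, ArithmeticFunction.one_apply_ne h]

theorem ysa_sum {Q : ℕ} (hQ : Q ≠ 0) (ψ : ℕ → ℝ) (M : ℕ) :
    ∑ n ∈ Icc 1 M, vv Q ψ n = ∑ e ∈ Q.divisors,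
      ((ArithmeticFunction.moebius e : ℤ) : ℝ) * ∑ k ∈ Icc 1 (M / e), rr ψ k := by
  let f : ArithmeticFunction ℝ := ⟨fun k => if k = 0 then 0 else ψ k, by simp⟩
  let m : ArithmeticFunction ℝ :=
    ⟨fun e => if e ∣ Q then ((ArithmeticFunction.moebius e : ℤ) : ℝ) else 0, by simp⟩
  have he : ∀ k, ((ArithmeticFunction.zeta : ArithmeticFunction ℝ) * f) k = rr ψ k := by
    intro k
    rw [ArithmeticFunction.coe_zeta_mul_apply, rr]
    refine sum_congr rfl fun d hd => ?_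
    show (if d = 0 then (0 : ℝ) else ψ d) = ψ d
    rw [if_neg (Nat.pos_of_mem_divisors hd).ne']
  have hv : ∀ n, vv Q ψ n = (m * ((ArithmeticFunction.zeta : ArithmeticFunction ℝ) * f)) n := by
    intro n
    rw [← mul_assoc, ArithmeticFunction.mul_apply, vv]
    refine sum_congr rfl fun x hx => ?_
    have hx1 := Nat.left_ne_zero_of_mem_divisorsAntidiagonal hx
    have hx2 := Nat.right_ne_zero_of_mem_divisorsAntidiagonal hx
    rw [ArithmeticFunction.coe_mul_zeta_apply]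
    show _ = (∑ e ∈ x.1.divisors, if e ∣ Q then ((ArithmeticFunction.moebius e : ℤ) : ℝ) else 0) *
      (if x.2 = 0 then (0 : ℝ) else ψ x.2)
    rw [ysa_ind Q hx1, if_neg hx2]
    split_ifs <;> simp
  simp only [hv, ttl_Icc]
  rw [ArithmeticFunction.sum_Ioc_mul_eq_sum_sum]
  simp only [he]
  have h1 : ∀ n ∈ Ioc 0 M, m n * ∑ k ∈ Ioc 0 (M / n), rr ψ k = if n ∣ Q then
      ((ArithmeticFunction.moebius n : ℤ) : ℝ) * ∑ k ∈ Ioc 0 (M / n), rr ψ k else 0 := by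
    intro n _
    show (if n ∣ Q then ((ArithmeticFunction.moebius n : ℤ) : ℝ) else 0) * _ = _
    split_ifs <;> simp
  rw [sum_congr rfl h1, ← sum_filter]
  refine sum_subset (fun e he => Nat.mem_divisors.2 ⟨(mem_filter.1 he).2, hQ⟩) fun e h2 h3 => ?_
  have h4 : M < e := by
    by_contra h5
    exact h3 (mem_filter.2 ⟨mem_Ioc.2 ⟨Nat.pos_of_mem_divisors h2, not_lt.1 h5⟩,
      Nat.dvd_of_mem_divisors h2⟩)
  rw [Nat.div_eq_of_lt h4]
  simp

theorem ysa_term {q : ℕ} {ψ : ℕ → ℝ} (h : RC q ψ) {L : ℝ}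
    (hL : ∀ N : ℕ, 0 < N → |∑ n ∈ Icc 1 N, ψ n / n - L| ≤ 2 * q / N) (M : ℕ) {e : ℕ}
    (he : 0 < e) :
    |∑ k ∈ Icc 1 (M / e), rr ψ k - L * M * (1 / e)| ≤ |L| + 20 * Real.sqrt (q * M) := by
  have h1 := h.hyper hL (M / e)
  have h2 : Real.sqrt (q * (M / e : ℕ)) ≤ Real.sqrt (q * M) :=
    Real.sqrt_le_sqrt (mul_le_mul_of_nonneg_left (by exact_mod_cast Nat.div_le_self M e)
      (Nat.cast_nonneg q))
  have he0 : (0 : ℝ) < e := by exact_mod_cast he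
  have b1 : ((M / e : ℕ) : ℝ) ≤ M / e := Nat.cast_div_le
  have b2 : (M : ℝ) / e ≤ ((M / e : ℕ) : ℝ) + 1 := by
    rw [div_le_iff₀ he0]
    have h6 := Nat.lt_div_mul_add (a := M) he
    have h7 : (M : ℝ) < ((M / e : ℕ) : ℝ) * e + e := by exact_mod_cast h6
    linarith
  have b3 : |((M / e : ℕ) : ℝ) - M / e| ≤ 1 := abs_le.2 ⟨by linarith, by linarith⟩
  have b4 : |L * (((M / e : ℕ) : ℝ) - M / e)| ≤ |L| := by
    rw [abs_mul]
    exact mul_le_of_le_one_right (abs_nonneg _) b3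
  have e1 : ∑ k ∈ Icc 1 (M / e), rr ψ k - L * M * (1 / e) =
      L * (((M / e : ℕ) : ℝ) - M / e) + (∑ k ∈ Icc 1 (M / e), rr ψ k - L * (M / e : ℕ)) := by
    ring
  rw [e1]
  refine (abs_add_le _ _).trans ?_
  linarith

theorem ysa_sqf {q Q : ℕ} {ψ : ℕ → ℝ} (h : RC q ψ) {L : ℝ}
    (hL : ∀ N : ℕ, 0 < N → |∑ n ∈ Icc 1 N, ψ n / n - L| ≤ 2 * q / N) (hQ : Squarefree Q) (M : ℕ) :
    ∑ n ∈ Icc 1 M, vv Q ψ n ≤
      L * (∏ l ∈ Q.primeFactors, (1 - 1 / (l : ℝ))) * M + Q * (|L| + 20 * Real.sqrt (q * M)) := by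
  let g : ArithmeticFunction ℝ := ⟨fun n => 1 / (n : ℝ), by simp⟩
  have hg : g.IsMultiplicative := by
    refine ⟨?_, fun {m n} _ => ?_⟩
    · show 1 / ((1 : ℕ) : ℝ) = 1
      simp
    · show 1 / ((m * n : ℕ) : ℝ) = 1 / (m : ℝ) * (1 / (n : ℝ))
      rw [Nat.cast_mul, one_div_mul_one_div]
  have h1 : ∏ l ∈ Q.primeFactors, (1 - 1 / (l : ℝ)) =
      ∑ e ∈ Q.divisors, ((ArithmeticFunction.moebius e : ℤ) : ℝ) * (1 / (e : ℝ)) :=
    hg.prodPrimeFactors_one_sub_of_squarefree g hQ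
  have hB : 0 ≤ |L| + 20 * Real.sqrt (q * M) := by positivity
  rw [ysa_sum hQ.ne_zero, h1]
  calc ∑ e ∈ Q.divisors, ((ArithmeticFunction.moebius e : ℤ) : ℝ) * ∑ k ∈ Icc 1 (M / e), rr ψ k
      ≤ ∑ e ∈ Q.divisors, (L * M * (((ArithmeticFunction.moebius e : ℤ) : ℝ) * (1 / (e : ℝ))) +
          (|L| + 20 * Real.sqrt (q * M))) := by
        refine sum_le_sum fun e he => ?_
        have h2 := ysa_term h hL M (Nat.pos_of_mem_divisors he)
        have h3 : |((ArithmeticFunction.moebius e : ℤ) : ℝ)| ≤ 1 := by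
          exact_mod_cast ArithmeticFunction.abs_moebius_le_one (n := e)
        have h4 := (le_abs_self _).trans ((abs_mul _ _).trans_le
          (mul_le_mul h3 h2 (abs_nonneg _) zero_le_one))
        linarith
    _ = L * M * ∑ e ∈ Q.divisors, ((ArithmeticFunction.moebius e : ℤ) : ℝ) * (1 / (e : ℝ)) +
          Q.divisors.card * (|L| + 20 * Real.sqrt (q * M)) := by
        rw [sum_add_distrib, ← mul_sum, sum_const, nsmul_eq_mul]
    _ ≤ _ := by
        have h5 : (Q.divisors.card : ℝ) ≤ Q := by exact_mod_cast Nat.card_divisors_le_self Q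
        have h6 := mul_le_mul_of_nonneg_right h5 hB
        linarith

theorem cop_sum {q P : ℕ} {ψ : ℕ → ℝ} (h : RC q ψ) {L : ℝ}
    (hL : ∀ N : ℕ, 0 < N → |∑ n ∈ Icc 1 N, ψ n / n - L| ≤ 2 * q / N) (hP : 0 < P) (M : ℕ) :
    ∑ n ∈ Icc 1 M, vv P ψ n ≤
      L * (∏ l ∈ P.primeFactors, (1 - 1 / (l : ℝ))) * M + P * (|L| + 20 * Real.sqrt (q * M)) := by
  have hp : ∀ l ∈ P.primeFactors, l.Prime := fun l hl => Nat.prime_of_mem_primeFactors hl
  have h1 : Squarefree (∏ l ∈ P.primeFactors, l) := by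
    refine Finset.squarefree_prod_of_pairwise_isCoprime (fun a ha b hb hab => ?_)
      fun l hl => (hp l hl).squarefree
    exact Nat.coprime_iff_isRelPrime.1 ((Nat.coprime_primes (hp a ha) (hp b hb)).2 hab)
  have h2 := ysa_sqf h hL h1 M
  rw [Nat.primeFactors_prod hp] at h2
  have h3 : ∀ a : ℕ, a.Coprime (∏ l ∈ P.primeFactors, l) ↔ a.Coprime P := fun a => by
    refine ⟨fun h4 => Nat.coprime_of_dvd fun k hk h5 h6 => ?_,
      fun h4 => h4.coprime_dvd_right (Nat.prod_primeFactors_dvd P)⟩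
    exact hk.one_lt.ne' (Nat.eq_one_of_dvd_coprimes h4 h5
      (dvd_prod_of_mem _ (Nat.mem_primeFactors.2 ⟨hk, h6, hP.ne'⟩)))
  have h4 : ∀ n, vv (∏ l ∈ P.primeFactors, l) ψ n = vv P ψ n := fun n => by
    refine sum_congr rfl fun x _ => ?_
    by_cases h5 : x.1.Coprime P
    · rw [if_pos h5, if_pos ((h3 _).2 h5)]
    · rw [if_neg h5, if_neg (mt (h3 _).1 h5)]
  simp only [h4] at h2
  have h5 : ((∏ l ∈ P.primeFactors, l : ℕ) : ℝ) ≤ P := by
    exact_mod_cast Nat.le_of_dvd hP (Nat.prod_primeFactors_dvd P)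
  have h6 := mul_le_mul_of_nonneg_right h5
    (show 0 ≤ |L| + 20 * Real.sqrt (q * M) by positivity)
  linarith

theorem vv_jc {P : ℕ} (h2 : 2 ∣ P) (d : ℤ) (n : ℕ) :
    vv P (jc ((P : ℤ) ^ 2 * d)) n = if n.Coprime P then rr (jc ((P : ℤ) ^ 2 * d)) n else 0 := by
  have _ := h2
  rw [vv]
  by_cases h : n.Coprime P
  · rw [if_pos h, rr, ← Nat.sum_divisorsAntidiagonal' (fun _ b => jc ((P : ℤ) ^ 2 * d) b)]
    refine sum_congr rfl fun x hx => if_pos ?_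
    exact h.coprime_dvd_left ⟨x.2, (Nat.mem_divisorsAntidiagonal.1 hx).1.symm⟩
  · rw [if_neg h]
    refine sum_eq_zero fun x hx => ?_
    by_cases h1 : x.1.Coprime P
    · rw [if_pos h1, jc]
      have h3 : ¬ x.2.Coprime P := fun h3 =>
        h ((Nat.mem_divisorsAntidiagonal.1 hx).1 ▸ Nat.Coprime.mul_left h1 h3)
      have h4 : jacobiSym ((P : ℤ) ^ 2 * d) x.2 = 0 := by
        refine jacobiSym.eq_zero_iff.2
          ⟨Nat.right_ne_zero_of_mem_divisorsAntidiagonal hx, fun h5 => h3 ?_⟩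
        have h6 : ((P : ℤ) ^ 2 * d).natAbs.Coprime x.2 := h5
        refine (h6.coprime_dvd_left ⟨P * d.natAbs, ?_⟩).symm
        rw [Int.natAbs_mul, Int.natAbs_pow, Int.natAbs_natCast]
        ring
      rw [h4]
      simp
    · rw [if_neg h1]

theorem exists_L_jc {D : ℤ} (hD : D < 0) [NeZero (4 * D.natAbs)] :
    ∀ N : ℕ, 0 < N → |∑ n ∈ Icc 1 N, jc D n / n - ‖(sgeChi D).LFunction 1‖| ≤
      2 * (4 * D.natAbs : ℕ) / N := by
  intro N hN
  have hχ := tlow_ne hD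
  have h1 := tnz_trunc hχ (tlow_jc D) one_pos hN
  have hd := DirichletCharacter.differentiable_LFunction hχ
  have h2 : 0 < ((sgeChi D).LFunction (1 : ℝ)).re := by
    refine (posSer_one (tlow_sq D)).re_pos hd (fun x hx hx1 => ?_) le_rfl
    obtain rfl : x = 1 := le_antisymm hx1 hx
    exact DirichletCharacter.LFunction_apply_one_ne_zero hχ
  have h3 := (posSer_one (tlow_sq D)).im_eq_zero hd 1
  rw [Complex.ofReal_one] at h1 h2 h3
  have h4 : ‖(sgeChi D).LFunction 1‖ = ((sgeChi D).LFunction 1).re := by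
    rw [← Complex.abs_re_eq_norm.2 h3, abs_of_pos h2]
  rw [h4, abs_sub_comm]
  simp only [Real.rpow_neg_one] at h1
  simpa only [div_eq_mul_inv] using h1

theorem L_compare : ∃ C : ℝ, 0 < C ∧ ∀ (d g : ℤ) (P : ℕ) [NeZero (4 * (g ^ 2 * d).natAbs)]
    [NeZero (4 * ((P : ℤ) ^ 2 * d).natAbs)], d < 0 → (∀ l : ℕ, l.Prime → l ∣ P → (l : ℤ) ∣ 2 * (g ^ 2 * d)) →
    ∑ l ∈ (4 * (g ^ 2 * d).natAbs).primeFactors with ¬ l ∣ P, 1 / (l : ℝ) ≤ 1000 →
    ‖(sgeChi ((P : ℤ) ^ 2 * d)).LFunction 1‖ ≤ C * ‖(sgeChi (g ^ 2 * d)).LFunction 1‖ := by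
  refine ⟨Real.exp 1002, Real.exp_pos _, fun d g P _ _ hd0 hP hs => ?_⟩
  have hdp : 0 < d.natAbs := Int.natAbs_pos.2 hd0.ne
  have : NeZero (4 * d.natAbs) := ⟨by omega⟩
  have hg : d.natAbs ∣ (g ^ 2 * d).natAbs := Int.natAbs_dvd_natAbs.2 (dvd_mul_left _ _)
  have hp : d.natAbs ∣ ((P : ℤ) ^ 2 * d).natAbs := Int.natAbs_dvd_natAbs.2 (dvd_mul_left _ _)
  have hsub : (4 * ((P : ℤ) ^ 2 * d).natAbs).primeFactors ⊆
      (4 * (g ^ 2 * d).natAbs).primeFactors := by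
    intro l hl
    obtain ⟨h1, h2, -⟩ := Nat.mem_primeFactors.1 hl
    refine Nat.mem_primeFactors.2 ⟨h1, ?_, NeZero.ne _⟩
    rcases (Nat.Prime.dvd_mul h1).1 h2 with h3 | h3
    · exact h3.mul_right _
    · rw [Int.natAbs_mul, Int.natAbs_pow, Int.natAbs_natCast] at h3
      rcases (Nat.Prime.dvd_mul h1).1 h3 with h4 | h4
      · have h5 := Int.natCast_dvd.1 (hP l h1 (h1.dvd_of_dvd_pow h4))
        rw [Int.natAbs_mul] at h5
        exact h5.trans (Nat.mul_dvd_mul_right (by norm_num) _)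
      · exact (h4.trans hg).mul_left _
  have h6 := tlow_prod d ((4 * (g ^ 2 * d).natAbs).primeFactors \
    (4 * ((P : ℤ) ^ 2 * d).natAbs).primeFactors)
    fun l hl => Nat.prime_of_mem_primeFactors (mem_sdiff.1 hl).1
  have h7 : ∑ l ∈ (4 * (g ^ 2 * d).natAbs).primeFactors \
      (4 * ((P : ℤ) ^ 2 * d).natAbs).primeFactors, jc d l / l ≤ 1000 := by
    refine (le_abs_self _).trans ((tnz_abs (tlow_abs d) _).trans (le_trans ?_ hs))
    refine sum_le_sum_of_subset_of_nonneg (fun l hl => ?_) fun l _ _ => by positivity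
    obtain ⟨h1, h2⟩ := mem_sdiff.1 hl
    refine mem_filter.2 ⟨h1, fun h3 => h2 (Nat.mem_primeFactors.2
      ⟨Nat.prime_of_mem_primeFactors h1, ?_, NeZero.ne _⟩)⟩
    rw [Int.natAbs_mul, Int.natAbs_pow, Int.natAbs_natCast]
    exact ((h3.pow two_ne_zero).mul_right _).mul_left _
  rw [tlow_level (Nat.mul_dvd_mul_left 4 hg), tlow_level (Nat.mul_dvd_mul_left 4 hp),
    DirichletCharacter.LFunction_changeLevel _ _ (Or.inl (tlow_ne hd0)),
    DirichletCharacter.LFunction_changeLevel _ _ (Or.inl (tlow_ne hd0)), norm_mul, norm_mul]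
  simp only [tlow_jc]
  rw [← prod_sdiff hsub, norm_mul]
  have h8 : 1 ≤ Real.exp 1002 * ‖∏ l ∈ (4 * (g ^ 2 * d).natAbs).primeFactors \
      (4 * ((P : ℤ) ^ 2 * d).natAbs).primeFactors,
        (1 - ((jc d l : ℝ) : ℂ) * (l : ℂ) ^ (-(1 : ℂ)))‖ := by
    refine le_trans ?_ (mul_le_mul_of_nonneg_left h6 (Real.exp_pos _).le)
    rw [← Real.exp_add]
    exact Real.one_le_exp (by linarith)
  refine (le_mul_of_one_le_left (mul_nonneg (norm_nonneg _) (norm_nonneg _)) h8).trans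
    (le_of_eq ?_)
  ring

theorem ysa_euler : ∃ C : ℝ, 0 < C ∧ ∀ (q : ℕ) [NeZero q]
    (χ : DirichletCharacter ℂ q) (ψ : ℕ → ℝ), χ ≠ 1 → χ ^ 2 = 1 → (∀ n : ℕ, χ n = ψ n) →
    ∀ X : ℕ, q ≤ X ^ 3 →
    Real.exp (∑ l ∈ Nat.primesLE X, ψ l / l) ≤ C * q * ‖χ.LFunction 1‖ := by
  obtain ⟨c, hc, h1⟩ := siegel (ε := 1 / 2) (by norm_num)
  obtain ⟨C2, hC2, h2⟩ := exp_primes_le 1
  obtain ⟨C3, h3⟩ := tnz_move
  refine ⟨Real.exp C3 * C2 * 2 / c, by positivity, fun q _ χ ψ hχ hχ2 h X hX => ?_⟩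
  have hq : 2 ≤ q := by
    have h0 := NeZero.pos q
    by_contra hq
    obtain rfl : q = 1 := by omega
    exact hχ χ.level_one
  have hq0 : (0 : ℝ) < q := by exact_mod_cast NeZero.pos q
  have hrc := tnz_rc hχ hχ2 h
  have e1 := h1 q χ hχ hχ2
  have e2 := h2 q hq
  rw [Nat.cast_one, one_mul, pow_one] at e2
  have e3 := h3 q ψ hrc hq X hX
  have e4 := (le_abs_self _).trans (tnz_abs (ttl_abs hrc) (Nat.primesLE q))
  have e5 := Real.log_le_rpow_div hq0.le (show (0 : ℝ) < 1 / 2 by norm_num)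
  have e6 : (q : ℝ) ^ (1 / 2 : ℝ) = q * (q : ℝ) ^ (-(1 / 2) : ℝ) := by
    rw [mul_comm, ← Real.rpow_add_one hq0.ne']
    norm_num
  have e7 : (q : ℝ) ^ (-(1 / 2) : ℝ) ≤ ‖χ.LFunction 1‖ / c := by
    rw [le_div_iff₀ hc]
    linarith
  have e8 : Real.log q ≤ 2 * (q * (‖χ.LFunction 1‖ / c)) := by
    have e9 := mul_le_mul_of_nonneg_left e7 hq0.le
    rw [e6] at e5
    linarith
  calc Real.exp (∑ l ∈ Nat.primesLE X, ψ l / l)
      ≤ Real.exp C3 * Real.exp (∑ l ∈ Nat.primesLE q, 1 / (l : ℝ)) := by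
        rw [← Real.exp_add]
        exact Real.exp_le_exp.2 (by linarith)
    _ ≤ Real.exp C3 * (C2 * (2 * (q * (‖χ.LFunction 1‖ / c)))) :=
        mul_le_mul_of_nonneg_left (e2.trans (mul_le_mul_of_nonneg_left e8 hC2.le))
          (Real.exp_pos _).le
    _ = _ := by ring

theorem low_small : ∃ C : ℝ, 0 < C ∧ ∀ d f : ℤ, Squarefree d → f ^ 2 * d < 0 →
    Low (C * d.natAbs) (f ^ 2 * d) := by
  obtain ⟨C, hC, hE⟩ := ysa_euler
  refine ⟨4800 * Real.exp 3 * C, by positivity, fun d f hd hf D' hD' hsq => ?_⟩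
  have hf0 : f ≠ 0 := by
    rintro rfl
    simp at hf
  have hd0 : d < 0 := by
    by_contra hn
    exact absurd hf (not_lt.2 (mul_nonneg (sq_nonneg f) (not_lt.1 hn)))
  obtain ⟨g, rfl⟩ := tlow_shape hd hf0 hsq
  have h3 : 3 ≤ (g ^ 2 * d).natAbs := by
    obtain ⟨h1, h2⟩ := hD'
    omega
  have hdp : 0 < d.natAbs := Int.natAbs_pos.2 hd0.ne
  have : NeZero (4 * d.natAbs) := ⟨by omega⟩
  have : NeZero (4 * (g ^ 2 * d).natAbs) := ⟨by omega⟩
  have hdv : d.natAbs ∣ (g ^ 2 * d).natAbs := Int.natAbs_dvd_natAbs.2 (dvd_mul_left _ _)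
  have hX : 4 * d.natAbs ≤ (g ^ 2 * d).natAbs ^ 3 := by
    have h1 := Nat.le_of_dvd (by omega) hdv
    generalize (g ^ 2 * d).natAbs = X at *
    have h2 : 3 * 3 * X ≤ X * X * X := by gcongr
    calc 4 * d.natAbs ≤ 3 * 3 * X := by omega
      _ ≤ X * X * X := h2
      _ = X ^ 3 := by ring
  have h4 := hE (4 * d.natAbs) (sgeChi d) (jc d) (tlow_ne hd0) (tlow_sq d) (tlow_jc d) _ hX
  rw [Nat.cast_mul, Nat.cast_ofNat] at h4
  have h5 := class_ge hD'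
  rw [tlow_level (Nat.mul_dvd_mul_left 4 hdv),
    DirichletCharacter.LFunction_changeLevel _ _ (Or.inl (tlow_ne hd0)), norm_mul] at h5
  simp only [tlow_jc] at h5
  have h6 := tlow_prod d (4 * (g ^ 2 * d).natAbs).primeFactors
    fun l hl => Nat.prime_of_mem_primeFactors hl
  have h7 := tlow_sum h3
  have h8 : EE (g ^ 2 * d) (g ^ 2 * d).natAbs ≤ Real.exp 3 *
      (Real.exp (∑ l ∈ Nat.primesLE (g ^ 2 * d).natAbs, jc d l / l) *
        Real.exp (-(∑ l ∈ (4 * (g ^ 2 * d).natAbs).primeFactors, jc d l / l) - 2)) := by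
    rw [EE, ← Real.exp_add, ← Real.exp_add]
    exact Real.exp_le_exp.2 (by linarith)
  rw [HH]
  generalize EE (g ^ 2 * d) (g ^ 2 * d).natAbs = E at *
  generalize ‖∏ l ∈ (4 * (g ^ 2 * d).natAbs).primeFactors,
    (1 - ((jc d l : ℝ) : ℂ) * (l : ℂ) ^ (-(1 : ℂ)))‖ = P at *
  have hA := norm_nonneg ((sgeChi d).LFunction 1)
  generalize ‖(sgeChi d).LFunction 1‖ = A at *
  have hS := Real.sqrt_nonneg (-((g ^ 2 * d : ℤ) : ℝ))
  generalize Real.sqrt (-((g ^ 2 * d : ℤ) : ℝ)) = S at *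
  calc S * E ≤ S * (Real.exp 3 * (C * (4 * (d.natAbs : ℝ)) * A * P)) := by
        refine mul_le_mul_of_nonneg_left (h8.trans ?_) hS
        gcongr
    _ = Real.exp 3 * (C * (4 * (d.natAbs : ℝ))) * (S * (A * P)) := by ring
    _ ≤ Real.exp 3 * (C * (4 * (d.natAbs : ℝ))) * (1200 * ((Cl (g ^ 2 * d)).ncard : ℝ)) := by
        gcongr
    _ = _ := by ring

end Pool.Agent.EQ
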