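import Pool.Agent.P.MP_ad7a55_nt.YSa

/-! A majorant for the number of ideals in orders of large conductor. -/

set_option autoImplicit false

noncomputable section

open Finset
open scoped Classical

namespace Pool.Agent.EQ

theorem ysb_r_le (D : ℤ) {l : ℕ} (hl : l.Prime) (h2 : l ≠ 2) (hD : ¬ (l : ℤ) ∣ D) {k : ℕ}
    (hk : 0 < k) : tid_r D l k ≤ 1 + jacobiSym D l := by
  have hp' : Prime (l : ℤ) := Nat.prime_iff_prime_int.1 hl
  have h5 : ¬ (l : ℤ) ∣ 2 := fun h => h2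
    ((Nat.prime_dvd_prime_iff_eq hl Nat.prime_two).1 (by exact_mod_cast h))
  have hd : ¬ (l : ℤ) ∣ (0 : ℤ) ^ 2 - 4 * 1 * (-D) := fun h => by
    have e : (0 : ℤ) ^ 2 - 4 * 1 * (-D) = 2 * (2 * D) := by ring
    rw [e] at h
    exact (hp'.dvd_or_dvd h).elim h5 fun h => (hp'.dvd_or_dvd h).elim h5 hD
  have hJ : jacobiSym ((0 : ℤ) ^ 2 - 4 * 1 * (-D)) l = jacobiSym D l := by
    have e : (0 : ℤ) ^ 2 - 4 * 1 * (-D) = 2 ^ 2 * D := by ring
    rw [e, jacobiSym.mul_left, jacobiSym.sq_one', one_mul]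
    exact Int.isCoprime_iff_gcd_eq_one.1 (hp'.coprime_iff_not_dvd.2 h5).symm
  have h1 := cnt_hensel hl h2 hp'.not_dvd_one hd hk
  rw [hJ] at h1
  have h3 := tid_cnt_mono (l ^ k) (A := tid_A D l k)
    (A' := fun y => (l : ℤ) ^ k ∣ 1 * y ^ 2 + 0 * y + -D) fun x hx => by
      have e : 1 * x ^ 2 + 0 * x + -D = x ^ 2 - D := by ring
      rw [e]
      exact hx.1
  have h4 : (cnt (l ^ k) (tid_A D l k) : ℤ) ≤ 1 + jacobiSym D l := by
    rw [← h1]
    exact_mod_cast h3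
  rw [tid_r, if_neg hk.ne', if_neg h2]
  exact_mod_cast h4

theorem ysb_two_step {r : ℕ → ℝ} {x : ℝ} (hx : x ^ 2 = 1) (h0 : r 0 = 1)
    (hr : ∀ k, 0 < k → r k ≤ 1 + x) (l k : ℕ) :
    ∑ i ∈ range (k + 1), tid_s l i * r (k - i) ≤ ∑ i ∈ range (k + 1), x ^ i := by
  have hs0 : tid_s l 0 = 1 := if_pos Even.zero
  have hs1 : tid_s l 1 = 0 := if_neg Nat.not_even_one
  have hs2 : ∀ i, tid_s l (i + 1 + 1) = tid_s l i := fun i => by
    unfold tid_s
    have : Even (i + 1 + 1) ↔ Even i := by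
      rw [Nat.even_add_one, Nat.even_add_one, not_not]
    simp only [this]
  induction k using Nat.twoStepInduction with
  | zero => simp [hs0, h0]
  | one =>
    have := hr 1 one_pos
    simp only [sum_range_succ, range_one, sum_singleton, hs0, hs1, pow_zero, pow_one, one_mul,
      zero_mul, add_zero, Nat.sub_zero]
    exact this
  | more k ih _ =>
    rw [sum_range_succ' _ (k + 2), sum_range_succ' _ (k + 1), sum_range_succ' _ (k + 2),
      sum_range_succ' _ (k + 1)]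
    have e1 : ∑ i ∈ range (k + 1), tid_s l (i + 1 + 1) * r (k + 2 - (i + 1 + 1)) =
        ∑ i ∈ range (k + 1), tid_s l i * r (k - i) := by
      refine sum_congr rfl fun i _ => ?_
      rw [hs2, show k + 2 - (i + 1 + 1) = k - i by omega]
    have e2 : ∑ i ∈ range (k + 1), x ^ (i + 1 + 1) = ∑ i ∈ range (k + 1), x ^ i := by
      refine sum_congr rfl fun i _ => ?_
      rw [add_assoc, pow_add, show 1 + 1 = 2 from rfl, hx, mul_one]
    have h3 := hr (k + 2) (by omega)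
    rw [e1, e2, zero_add, hs0, hs1, Nat.sub_zero]
    simp only [pow_zero, pow_one]
    linarith

theorem ysb_f_nonneg (D : ℤ) (n : ℕ) : 0 ≤ (tid_pf tid_s * tid_pf (tid_r D)) n := by
  rw [ArithmeticFunction.mul_apply]
  exact Finset.sum_nonneg fun p _ => mul_nonneg (tid_pf_nonneg tid_s_nonneg _)
    (tid_pf_nonneg (tid_r_nonneg D) _)

theorem ysb_nsq {D : ℤ} (hD : D < 0) : ¬ IsSquare D := by
  rintro ⟨r, rfl⟩
  nlinarith [mul_self_nonneg r]

theorem f_le_rr {D : ℤ} (hD : D < 0) {n : ℕ} (hn : 0 < n) (hc : n.Coprime (2 * D.natAbs)) :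
    (tid_pf tid_s * tid_pf (tid_r D)) n ≤ rr (jc D) n := by
  have hM := (tid_pf_mul tid_s).mul (tid_pf_mul (tid_r D))
  have hR := rc_jc (ysb_nsq hD)
  induction n using Nat.recOnPosPrimePosCoprime with
  | prime_pow p k hp hk =>
    have h1 : p.Coprime (2 * D.natAbs) := (Nat.coprime_pow_left_iff hk _ _).1 hc
    have h2 : ¬ p ∣ 2 * D.natAbs := (Nat.Prime.coprime_iff_not_dvd hp).1 h1
    have h3 : p ≠ 2 := fun h => h2 (h ▸ Dvd.intro _ rfl)
    have h4 : ¬ (p : ℤ) ∣ D := fun h => h2 (Dvd.dvd.mul_left (Int.natCast_dvd.1 h) 2)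
    have h5 : jc D p = jacobiSym D p := if_pos (hp.odd_of_ne_two h3)
    have h6 : Int.gcd D p = 1 := by
      have hp' : Prime (p : ℤ) := Nat.prime_iff_prime_int.1 hp
      exact Int.isCoprime_iff_gcd_eq_one.1 (hp'.coprime_iff_not_dvd.2 h4).symm
    have h7 : (jacobiSym D p : ℝ) ^ 2 = 1 := by exact_mod_cast jacobiSym.sq_one h6
    rw [tid_conv_pow hp (tid_r_zero D p) (if_pos Even.zero) k, rr, Nat.sum_divisors_prime_pow hp]
    simp only [ttl_pow hR, h5]
    exact ysb_two_step h7 (tid_r_zero D p) (fun j hj => ysb_r_le D hp h3 h4 hj) p k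
  | zero => exact absurd hn (lt_irrefl 0)
  | one => rw [hM.map_one, ttl_one hR]
  | coprime a b ha1 hb1 hab ha hb =>
    rw [hM.map_mul_of_coprime hab, hR.rr_mul hab]
    exact mul_le_mul (ha (by omega) (Nat.Coprime.coprime_mul_right hc))
      (hb (by omega) (Nat.Coprime.coprime_mul_left hc)) (ysb_f_nonneg D _) (hR.rr_nonneg _)

theorem ysb_loc1 {K c : ℝ} {a f : ℕ → ℝ} (h : HT K a f)
    (hc : ∀ I : ℕ, ∑ k ∈ range I, ((k : ℝ) + 4) ^ 2 * (7 / 8 : ℝ) ^ k ≤ c) {l : ℕ} (hlp : l.Prime)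
    (I : ℕ) : ∑ k ∈ range I, f (l ^ k) / ((l ^ k : ℕ) : ℝ) ≤
      Real.exp (1 / l + a l / l + K * (1 / l) ^ 2 + K * c * (Real.sqrt l)⁻¹ ^ 3) := by
  have hK := tht_K h
  have h0 : (0 : ℝ) < l := by exact_mod_cast hlp.pos
  refine (tht_three (fun k => f (l ^ k) / ((l ^ k : ℕ) : ℝ))
    (fun k => div_nonneg (h.nonneg _) (by positivity)) I).trans ?_
  refine le_trans ?_ (Real.add_one_le_exp _)
  have h2 : ∑ j ∈ range I, f (l ^ (j + 3)) / ((l ^ (j + 3) : ℕ) : ℝ) ≤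
      K * c * (Real.sqrt l)⁻¹ ^ 3 := by
    calc _ ≤ ∑ j ∈ range I, K * (Real.sqrt l)⁻¹ ^ 3 * (((j : ℝ) + 4) ^ 2 * (7 / 8 : ℝ) ^ j) := by
          refine sum_le_sum fun j _ => ?_
          have h3 := tht_pow h hlp (j + 3)
          have h4 := tht_rpow' hlp j
          have h5 : (0 : ℝ) ≤ j := by positivity
          push_cast at h3 ⊢
          rw [div_le_iff₀ (by positivity)]
          refine h3.trans ?_
          have h6 : ((j : ℝ) + 3 + 1) * (Real.sqrt l)⁻¹ ^ j ≤ ((j : ℝ) + 4) ^ 2 * (7 / 8 : ℝ) ^ j :=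
            mul_le_mul (by nlinarith) h4 (by positivity) (by positivity)
          calc K * ((j : ℝ) + 3 + 1) * ((l : ℝ) ^ (j + 3) * (Real.sqrt l)⁻¹ ^ (j + 3))
              = K * (Real.sqrt l)⁻¹ ^ 3 * (((j : ℝ) + 3 + 1) * (Real.sqrt l)⁻¹ ^ j) *
                (l : ℝ) ^ (j + 3) := by ring
            _ ≤ _ := by gcongr
      _ = K * (Real.sqrt l)⁻¹ ^ 3 * ∑ j ∈ range I, (((j : ℝ) + 4) ^ 2 * (7 / 8 : ℝ) ^ j) := by
          rw [mul_sum]
      _ ≤ K * (Real.sqrt l)⁻¹ ^ 3 * c := mul_le_mul_of_nonneg_left (hc I) (by positivity)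
      _ = _ := by ring
  have h3 := h.sq l hlp
  have h4 : f l / l + f (l ^ 2) / (l : ℝ) ^ 2 ≤ 1 / l + a l / l + K * (1 / l) ^ 2 := by
    calc f l / l + f (l ^ 2) / (l : ℝ) ^ 2 = (f l + f (l ^ 2) / l) / l := by field_simp
      _ ≤ (1 + a l + K / l) / l := div_le_div_of_nonneg_right h3 h0.le
      _ = _ := by field_simp
  have h5 := h.one
  simp only [pow_zero, pow_one, Nat.cast_one, div_one, Nat.cast_pow] at h2 ⊢
  linarith

theorem ysb_quarter {l : ℕ} (hl : l.Prime) :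
    Real.sqrt l ≤ 7 / 8 * (l : ℝ) ^ (3 / 4 : ℝ) := by
  have h2 : (2 : ℝ) ≤ l := by exact_mod_cast hl.two_le
  have h0 : (0 : ℝ) < l := by linarith
  have e1 : Real.sqrt l ^ 4 = (l : ℝ) ^ 2 := by
    rw [show 4 = 2 * 2 from rfl, pow_mul, Real.sq_sqrt h0.le]
  have e2 : ((l : ℝ) ^ (3 / 4 : ℝ)) ^ 4 = (l : ℝ) ^ 3 := by
    rw [← Real.rpow_natCast, ← Real.rpow_mul h0.le, ← Real.rpow_natCast]
    norm_num
  refine le_of_pow_le_pow_left₀ (n := 4) (by norm_num) (by positivity) ?_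
  rw [mul_pow, e1, e2]
  have h3 : (0 : ℝ) < (l : ℝ) ^ 2 := by positivity
  nlinarith

theorem ysb_loc2 {K c : ℝ} {a f : ℕ → ℝ} (h : HT K a f)
    (hc : ∀ I : ℕ, ∑ k ∈ range I, ((k : ℝ) + 4) ^ 2 * (7 / 8 : ℝ) ^ k ≤ c) {l : ℕ} (hlp : l.Prime)
    (I : ℕ) : ∑ k ∈ range I, f (l ^ k) / ((l ^ k : ℕ) : ℝ) ^ (3 / 4 : ℝ) ≤ K * c := by
  have hK := tht_K h
  have h0 : (0 : ℝ) < l := by exact_mod_cast hlp.pos
  calc _ ≤ ∑ k ∈ range I, K * (((k : ℝ) + 4) ^ 2 * (7 / 8 : ℝ) ^ k) := by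
        refine sum_le_sum fun k _ => ?_
        have h3 := h.pow l k hlp
        have h4 : Real.sqrt ((l : ℝ) ^ k) = Real.sqrt l ^ k := by
          rw [Real.sqrt_eq_iff_mul_self_eq (by positivity) (by positivity), ← mul_pow,
            Real.mul_self_sqrt h0.le]
        have h5 : ((l : ℝ) ^ k) ^ (3 / 4 : ℝ) = ((l : ℝ) ^ (3 / 4 : ℝ)) ^ k := by
          rw [← Real.rpow_natCast, ← Real.rpow_natCast, ← Real.rpow_mul h0.le,
            ← Real.rpow_mul h0.le, mul_comm]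
        have h6 : Real.sqrt l ^ k ≤ (7 / 8 * (l : ℝ) ^ (3 / 4 : ℝ)) ^ k :=
          pow_le_pow_left₀ (Real.sqrt_nonneg _) (ysb_quarter hlp) k
        have h7 : (0 : ℝ) ≤ k := by positivity
        have h8 : (k : ℝ) + 1 ≤ ((k : ℝ) + 4) ^ 2 := by nlinarith
        rw [Nat.cast_pow, h5, div_le_iff₀ (by positivity)]
        rw [h4] at h3
        rw [mul_pow] at h6
        calc f (l ^ k) ≤ K * (k + 1) * Real.sqrt l ^ k := h3
          _ ≤ K * ((k : ℝ) + 4) ^ 2 * ((7 / 8 : ℝ) ^ k * ((l : ℝ) ^ (3 / 4 : ℝ)) ^ k) := by gcongr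
          _ = _ := by ring
    _ = K * ∑ k ∈ range I, (((k : ℝ) + 4) ^ 2 * (7 / 8 : ℝ) ^ k) := by rw [mul_sum]
    _ ≤ K * c := mul_le_mul_of_nonneg_left (hc I) hK

theorem smooth_sums (K : ℝ) : ∃ C : ℝ, 1 ≤ C ∧ ∀ a f : ℕ → ℝ, HT K a f → ∀ S T : Finset ℕ,
    (∀ l ∈ S, l.Prime ∧ a l ≤ 1 ∧ (l ≠ 2 → a l ≤ 0)) → (∀ n ∈ T, n ≠ 0 ∧ n.primeFactors ⊆ S) →
    ∑ n ∈ T, f n / n ≤ C * Real.exp (∑ l ∈ S, 1 / (l : ℝ)) ∧
      ∑ n ∈ T, f n / (n : ℝ) ^ (3 / 4 : ℝ) ≤ C ^ #S := by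
  obtain ⟨c, hc0, hc⟩ := tht_geo
  have hE := Real.exp_pos (1 + K + K * c * 40)
  have hA : 0 ≤ |K| * c := by positivity
  refine ⟨Real.exp (1 + K + K * c * 40) + |K| * c + 1, by linarith, fun a f h S T hS hT => ?_⟩
  have hK := tht_K h
  have hP : ∀ p ∈ S, p.Prime := fun p hp => (hS p hp).1
  rw [abs_of_nonneg hK] at hA ⊢
  constructor
  · have h1 := tht_euler (fun n => f n / n) (fun n => div_nonneg (h.nonneg n) (by positivity))
      (by simpa using h.one)
      (fun m n hmn => by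
        have := h.mul m n hmn
        push_cast
        rw [div_mul_div_comm]
        exact div_le_div_of_nonneg_right this (by positivity))
      (fun l => Real.exp (1 / l + a l / l + K * (1 / l) ^ 2 + K * c * (Real.sqrt l)⁻¹ ^ 3))
      S hP (fun l hl I => ysb_loc1 h hc (hP l hl) I) T hT
    refine h1.trans ?_
    rw [← Real.exp_sum, sum_add_distrib, sum_add_distrib, sum_add_distrib, ← mul_sum, ← mul_sum]
    have h2 : ∑ l ∈ S, a l / l ≤ 1 := by
      calc ∑ l ∈ S, a l / l ≤ ∑ l ∈ S, if l = 2 then (1 : ℝ) else 0 := by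
            refine sum_le_sum fun l hl => ?_
            obtain ⟨h3, h4, h5⟩ := hS l hl
            have h0 : (0 : ℝ) < l := by exact_mod_cast h3.pos
            have h6 : (1 : ℝ) ≤ l := by exact_mod_cast h3.one_le
            split_ifs with h7
            · rw [div_le_one h0]
              linarith
            · exact div_nonpos_of_nonpos_of_nonneg (h5 h7) h0.le
        _ ≤ 1 := by
            rw [sum_ite_eq']
            split_ifs <;> norm_num
    have h3 := Pool.Agent.Lib.Sieve.sum_inv_sq_primes_le _ hP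
    have h4 : ∑ l ∈ S, (Real.sqrt l)⁻¹ ^ 3 ≤ 40 := by
      refine le_trans (sum_le_sum_of_subset_of_nonneg (fun l hl => ?_) fun _ _ _ => by positivity)
        (tht_w' (S.sup id))
      exact Nat.mem_primesLE.2 ⟨le_sup (f := id) hl, hP l hl⟩
    have h6 := mul_le_mul_of_nonneg_left h3 hK
    have h7 := mul_le_mul_of_nonneg_left h4 hA
    have h8 := Real.exp_pos (∑ l ∈ S, 1 / (l : ℝ))
    calc _ ≤ Real.exp ((1 + K + K * c * 40) + ∑ l ∈ S, 1 / (l : ℝ)) :=
          Real.exp_le_exp.2 (by linarith)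
      _ = Real.exp (1 + K + K * c * 40) * Real.exp (∑ l ∈ S, 1 / (l : ℝ)) := Real.exp_add _ _
      _ ≤ _ := mul_le_mul_of_nonneg_right (by linarith) h8.le
  · have h1 := tht_euler (fun n => f n / (n : ℝ) ^ (3 / 4 : ℝ))
      (fun n => div_nonneg (h.nonneg n) (by positivity))
      (by simpa using h.one)
      (fun m n hmn => by
        have := h.mul m n hmn
        push_cast
        rw [div_mul_div_comm, Real.mul_rpow (by positivity) (by positivity)]
        exact div_le_div_of_nonneg_right this (by positivity))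
      (fun _ => K * c) S hP (fun l hl I => ysb_loc2 h hc (hP l hl) I) T hT
    refine h1.trans ?_
    rw [prod_const]
    exact pow_le_pow_left₀ hA (by linarith) _

theorem ysb_HT (D : ℤ) :
    HT 8 (fun l => jacobiSym D l) (fun n => (tid_pf tid_s * tid_pf (tid_r D)) n) := by
  have hM := (tid_pf_mul tid_s).mul (tid_pf_mul (tid_r D))
  have hs0 : ∀ l, tid_s l 0 = 1 := fun l => if_pos Even.zero
  have hs1 : ∀ l, tid_s l 1 = 0 := fun l => if_neg Nat.not_even_one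
  have hs2 : ∀ l, tid_s l 2 = 1 := fun l => if_pos even_two
  have f1 : ∀ l : ℕ, l.Prime → (tid_pf tid_s * tid_pf (tid_r D)) l = tid_r D l 1 := fun l hl => by
    have := tid_conv_pow hl (tid_r_zero D l) (hs0 l) 1
    rw [pow_one] at this
    rw [this]
    simp [Finset.sum_range_succ, hs0, hs1]
  have f2 : ∀ l : ℕ, l.Prime → (tid_pf tid_s * tid_pf (tid_r D)) (l ^ 2) = tid_r D l 2 + 1 :=
    fun l hl => by
      rw [tid_conv_pow hl (tid_r_zero D l) (hs0 l) 2]
      simp [Finset.sum_range_succ, hs0, hs1, hs2, tid_r_zero]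
  have r1 : tid_r D 2 1 = 1 := by simp [tid_r]
  have r2 : tid_r D 2 2 = 2 := by simp [tid_r]
  refine ⟨fun n => ?_, hM.map_one.le, fun m n h => (hM.map_mul_of_coprime h).le, fun l hl => ?_,
    fun l hl => ?_, fun l k hl => ?_⟩
  · rw [ArithmeticFunction.mul_apply]
    exact Finset.sum_nonneg fun p _ => mul_nonneg (tid_pf_nonneg tid_s_nonneg _)
      (tid_pf_nonneg (tid_r_nonneg D) _)
  · rw [f1 l hl]
    by_cases h : l = 2
    · rw [h, r1]
      norm_num
    · exact (tid_odd D hl h).1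
  · rw [f1 l hl, f2 l hl]
    by_cases h : l = 2
    · subst h
      have hJ : (-1 : ℝ) ≤ jacobiSym D 2 := by
        rcases jacobiSym.trichotomy D 2 with h | h | h <;> rw [h] <;> norm_num
      rw [r1, r2]
      push_cast
      linarith
    · have h1 := (tid_odd D hl h).2
      have hl0 : (0 : ℝ) < l := by exact_mod_cast hl.pos
      have h2 : (2 : ℝ) / l + 1 / l ≤ 8 / l := by
        rw [← add_div]
        exact div_le_div_of_nonneg_right (by norm_num) hl0.le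
      rw [add_div]
      linarith
  · rw [tid_conv_pow hl (tid_r_zero D l) (hs0 l) k]
    have hl1 : (1 : ℝ) ≤ l := by exact_mod_cast hl.one_le
    have h1 : (l : ℝ) ^ (k / 2) ≤ Real.sqrt (l ^ k) := by
      refine Real.le_sqrt_of_sq_le ?_
      rw [← pow_mul]
      exact pow_le_pow_right₀ hl1 (by omega)
    have h2 := Finset.sum_le_card_nsmul (range (k + 1)) (fun i => tid_s l i * tid_r D l (k - i))
      (8 * Real.sqrt (l ^ k)) fun i _ => by
        have h3 := tid_r_le D hl (k - i)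
        have h4 : (l : ℝ) ^ ((k - i) / 2) ≤ l ^ (k / 2) := pow_le_pow_right₀ hl1 (by omega)
        have h5 := mul_le_of_le_one_left (tid_r_nonneg D l (k - i)) (tid_s_le l i)
        have h6 := Real.sqrt_nonneg ((l : ℝ) ^ k)
        linarith
    rw [Finset.card_range, nsmul_eq_mul] at h2
    push_cast at h2
    linarith

theorem ysb_split (S : Finset ℕ) {n : ℕ} (hn : 0 < n) : ∃ n1 n2 : ℕ, n = n1 * n2 ∧
    (∀ l : ℕ, l.Prime → l ∣ n1 → l ∈ S) ∧ ∀ l : ℕ, l.Prime → l ∣ n2 → l ∉ S := by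
  induction n using induction_on_primes with
  | zero => exact absurd hn (lt_irrefl 0)
  | one =>
    exact ⟨1, 1, rfl, fun l hl h => absurd h hl.not_dvd_one, fun l hl h => absurd h hl.not_dvd_one⟩
  | prime_mul p a hp ih =>
    obtain ⟨n1, n2, e, h1, h2⟩ := ih (Nat.pos_of_mul_pos_left hn)
    by_cases h : p ∈ S
    · refine ⟨p * n1, n2, by rw [e, mul_assoc], fun l hl h3 => ?_, h2⟩
      rcases (Nat.Prime.dvd_mul hl).1 h3 with h4 | h4
      · rwa [(Nat.prime_dvd_prime_iff_eq hl hp).1 h4]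
      · exact h1 l hl h4
    · refine ⟨n1, p * n2, by rw [e, mul_left_comm], h1, fun l hl h3 => ?_⟩
      rcases (Nat.Prime.dvd_mul hl).1 h3 with h4 | h4
      · rwa [(Nat.prime_dvd_prime_iff_eq hl hp).1 h4]
      · exact h2 l hl h4

theorem ysb_jc_sq {g d : ℤ} {e : ℕ} (h : e.Coprime g.natAbs) : jc (g ^ 2 * d) e = jc d e := by
  unfold jc
  have h1 : Int.gcd g e = 1 := by
    rw [Int.gcd, Int.natAbs_natCast]
    exact h.symm
  rw [jacobiSym.mul_left, jacobiSym.sq_one' h1, one_mul]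

theorem ysb_rr_sq {g d : ℤ} {n : ℕ} (h : n.Coprime g.natAbs) :
    rr (jc (g ^ 2 * d)) n = rr (jc d) n :=
  sum_congr rfl fun _ he => ysb_jc_sq (Nat.Coprime.coprime_dvd_left (Nat.dvd_of_mem_divisors he) h)

theorem idl_major : ∃ K : ℝ, 1 ≤ K ∧ ∀ D : ℤ, IsD D → ∃ u : ℕ → ℝ, (∀ n, 0 ≤ u n) ∧
    (∀ N : ℕ, ∑ n ∈ Icc 1 N, u n / n ≤
      K * Real.exp (∑ l ∈ (4 * D.natAbs).primeFactors, 1 / (l : ℝ)) ∧
      ∑ n ∈ Icc 1 N, u n / (n : ℝ) ^ (3 / 4 : ℝ) ≤ K ^ #(4 * D.natAbs).primeFactors) ∧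
    ∀ (d g : ℤ) (P : ℕ), D = g ^ 2 * d → 0 < P → 2 ∣ P →
      (∀ l : ℕ, l.Prime → l ∣ P → (l : ℤ) ∣ 2 * D) → ∀ n : ℕ, 0 < n → ((Idl D n).ncard : ℝ) ≤
        K * ∑ x ∈ n.divisorsAntidiagonal, u x.1 * vv P (jc ((P : ℤ) ^ 2 * d)) x.2 := by
  obtain ⟨C, hC, HC⟩ := smooth_sums 8
  refine ⟨C + 8, by linarith, fun D hD => ?_⟩
  have hD0 : D < 0 := hD.1
  have hDa : 0 < D.natAbs := Int.natAbs_pos.2 hD0.ne
  have h40 : 4 * D.natAbs ≠ 0 := by omega
  have hmem : ∀ l : ℕ, l.Prime → (l ∈ (4 * D.natAbs).primeFactors ↔ l ∣ 2 * D.natAbs) := by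
    intro l hl
    rw [Nat.mem_primeFactors]
    constructor
    · rintro ⟨-, h, -⟩
      rw [show 4 * D.natAbs = 2 * (2 * D.natAbs) by ring] at h
      rcases (Nat.Prime.dvd_mul hl).1 h with h | h
      · exact h.mul_right _
      · exact h
    · intro h
      refine ⟨hl, ?_, h40⟩
      rw [show 4 * D.natAbs = 2 * (2 * D.natAbs) by ring]
      exact h.mul_left 2
  have hu0 : ∀ n : ℕ, 0 ≤ (if n.primeFactors ⊆ (4 * D.natAbs).primeFactors then
      (tid_pf tid_s * tid_pf (tid_r D)) n else 0) := fun n => by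
    split_ifs
    · exact ysb_f_nonneg D n
    · exact le_rfl
  refine ⟨fun n => if n.primeFactors ⊆ (4 * D.natAbs).primeFactors then
    (tid_pf tid_s * tid_pf (tid_r D)) n else 0, hu0, fun N => ?_, ?_⟩
  · obtain ⟨h1, h2⟩ := HC _ _ (ysb_HT D) (4 * D.natAbs).primeFactors
      ((Icc 1 N).filter fun n => n.primeFactors ⊆ (4 * D.natAbs).primeFactors)
      (fun l hl => by
        have hp := Nat.prime_of_mem_primeFactors hl
        refine ⟨hp, ?_, fun h2 => ?_⟩
        · show (jacobiSym D l : ℝ) ≤ 1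
          rcases jacobiSym.trichotomy D l with h | h | h <;> rw [h] <;> norm_num
        · have h3 : l ∣ D.natAbs := ((Nat.Prime.dvd_mul hp).1 ((hmem l hp).1 hl)).resolve_left
            fun h => h2 ((Nat.prime_dvd_prime_iff_eq hp Nat.prime_two).1 h)
          have hJ : jacobiSym D l = 0 := by
            have : NeZero l := ⟨hp.ne_zero⟩
            refine jacobiSym.eq_zero_iff_not_coprime.2 fun h => hp.not_dvd_one ?_
            rw [← h, Int.gcd, Int.natAbs_natCast]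
            exact Nat.dvd_gcd h3 dvd_rfl
          show (jacobiSym D l : ℝ) ≤ 0
          rw [hJ]
          norm_num)
      (fun n hn => by
        obtain ⟨h3, h4⟩ := mem_filter.1 hn
        have := (mem_Icc.1 h3).1
        exact ⟨by omega, h4⟩)
    rw [sum_filter] at h1 h2
    simp only [ite_div, zero_div]
    constructor
    · exact h1.trans (mul_le_mul_of_nonneg_right (by linarith) (Real.exp_pos _).le)
    · exact h2.trans (pow_le_pow_left₀ (by linarith) (by linarith) _)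
  · intro d g P e hP h2 hPD n hn
    have hd : d < 0 := by
      by_contra h
      have : 0 ≤ g ^ 2 * d := mul_nonneg (sq_nonneg g) (not_lt.1 h)
      omega
    have hP0 : (0 : ℤ) < (P : ℤ) ^ 2 := by positivity
    have hR := rc_jc (ysb_nsq (mul_neg_of_pos_of_neg hP0 hd))
    have hv0 : ∀ m, 0 ≤ vv P (jc ((P : ℤ) ^ 2 * d)) m := fun m => by
      rw [vv_jc h2]
      split_ifs
      · exact hR.rr_nonneg m
      · exact le_rfl
    obtain ⟨n1, n2, en, h1, h3⟩ := ysb_split (4 * D.natAbs).primeFactors hn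
    have hn2 : 0 < n2 := Nat.pos_of_mul_pos_left (en ▸ hn)
    have hc2 : n2.Coprime (2 * D.natAbs) :=
      Nat.coprime_of_dvd fun l hl h4 h5 => h3 l hl h4 ((hmem l hl).2 h5)
    have hc12 : n1.Coprime n2 := Nat.coprime_of_dvd fun l hl h4 h5 => h3 l hl h5 (h1 l hl h4)
    have hcP : n2.Coprime P := Nat.coprime_of_dvd fun l hl h4 h5 => by
      have h6 := Int.natCast_dvd.1 (hPD l hl h5)
      rw [Int.natAbs_mul] at h6
      exact h3 l hl h4 ((hmem l hl).2 h6)
    have hcg : n2.Coprime g.natAbs := by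
      refine Nat.Coprime.coprime_dvd_right ?_ hc2
      rw [e, Int.natAbs_mul, Int.natAbs_pow]
      exact Dvd.dvd.mul_left (Dvd.dvd.mul_right (dvd_pow_self _ two_ne_zero) _) 2
    have hsub : n1.primeFactors ⊆ (4 * D.natAbs).primeFactors := fun l hl =>
      h1 l (Nat.prime_of_mem_primeFactors hl) (Nat.dvd_of_mem_primeFactors hl)
    have h4 : (tid_pf tid_s * tid_pf (tid_r D)) n2 ≤ vv P (jc ((P : ℤ) ^ 2 * d)) n2 := by
      rw [vv_jc h2, if_pos hcP, ysb_rr_sq (by rwa [Int.natAbs_natCast]), ← ysb_rr_sq hcg, ← e]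
      exact f_le_rr hD0 hn2 hc2
    have hM := (tid_pf_mul tid_s).mul (tid_pf_mul (tid_r D))
    have h5 : (tid_pf tid_s * tid_pf (tid_r D)) n ≤ ∑ x ∈ n.divisorsAntidiagonal,
        (if x.1.primeFactors ⊆ (4 * D.natAbs).primeFactors then
          (tid_pf tid_s * tid_pf (tid_r D)) x.1 else 0) * vv P (jc ((P : ℤ) ^ 2 * d)) x.2 := by
      refine le_trans ?_ (single_le_sum (f := fun x : ℕ × ℕ =>
        (if x.1.primeFactors ⊆ (4 * D.natAbs).primeFactors then
          (tid_pf tid_s * tid_pf (tid_r D)) x.1 else 0) * vv P (jc ((P : ℤ) ^ 2 * d)) x.2)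
        (fun x _ => mul_nonneg (hu0 _) (hv0 _)) (a := (n1, n2))
        (Nat.mem_divisorsAntidiagonal.2 ⟨en.symm, hn.ne'⟩))
      show _ ≤ (if n1.primeFactors ⊆ (4 * D.natAbs).primeFactors then
          (tid_pf tid_s * tid_pf (tid_r D)) n1 else 0) * vv P (jc ((P : ℤ) ^ 2 * d)) n2
      rw [if_pos hsub, en, hM.map_mul_of_coprime hc12]
      exact mul_le_mul_of_nonneg_left h4 (ysb_f_nonneg D _)
    refine (tid_ncard D hn).trans ?_
    exact mul_le_mul (by linarith) h5 (ysb_f_nonneg D _) (by linarith)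

end Pool.Agent.EQ
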