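import Pool.Agent.P.MP_ad7a55_nt.YSb
import Pool.Agent.P.MP_ad7a55_nt.YBc

/-! Tightness for orders of large conductor. -/

set_option autoImplicit false

noncomputable section

open MeasureTheory Topology Filter UpperHalfPlane Finset
open scoped MatrixGroups BoundedContinuousFunction Matrix Classical

namespace Pool.Agent.EQ

theorem exists_P : ∃ Y : ℝ, ∀ D : ℤ, Y ≤ -(D : ℝ) → ∃ P : ℕ, 0 < P ∧ 2 ∣ P ∧
    (∀ l : ℕ, l.Prime → l ∣ P → (l : ℤ) ∣ 2 * D) ∧ (P : ℝ) ^ 50 ≤ -(D : ℝ) ∧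
    ∑ l ∈ (4 * D.natAbs).primeFactors with ¬ l ∣ P, 1 / (l : ℝ) ≤ 1000 := by
  refine ⟨Real.exp 200, fun D hD => ?_⟩
  have hx : 0 < -(D : ℝ) := (Real.exp_pos _).trans_le hD
  have hD0 : D < 0 := by
    have : (D : ℝ) < 0 := by linarith
    exact_mod_cast this
  have hlog : 200 ≤ Real.log (-(D : ℝ)) := (Real.le_log_iff_exp_le hx).2 hD
  obtain ⟨z, hz⟩ : ∃ z : ℝ, z = Real.log (-(D : ℝ)) / 100 := ⟨_, rfl⟩
  have hz2 : 2 ≤ z := by rw [hz]; linarith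
  have hn : 4 * D.natAbs ≠ 0 := by have := Int.natAbs_pos.2 hD0.ne; omega
  obtain ⟨S, hS⟩ : ∃ S : Finset ℕ,
      S = (4 * D.natAbs).primeFactors.filter (fun l : ℕ => (l : ℝ) ≤ z) := ⟨_, rfl⟩
  have hSm : ∀ l, l ∈ S ↔ l ∈ (4 * D.natAbs).primeFactors ∧ (l : ℝ) ≤ z := fun l => by
    rw [hS, mem_filter]
  have hSp : ∀ l ∈ S, l.Prime := fun l hl => Nat.prime_of_mem_primeFactors ((hSm l).1 hl).1
  refine ⟨∏ l ∈ S, l, prod_pos fun l hl => (hSp l hl).pos, ?_, fun l hl h => ?_, ?_, ?_⟩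
  · refine dvd_prod_of_mem _ ((hSm 2).2 ⟨?_, by exact_mod_cast hz2⟩)
    exact Nat.mem_primeFactors.2 ⟨Nat.prime_two, Dvd.dvd.mul_right (by norm_num) _, hn⟩
  · obtain ⟨l', hl', h'⟩ := (Prime.dvd_finsetProd_iff hl.prime _).1 h
    have e := (Nat.prime_dvd_prime_iff_eq hl (hSp l' hl')).1 h'
    subst e
    have h1 := Nat.dvd_of_mem_primeFactors ((hSm l).1 hl').1
    rcases (Nat.Prime.dvd_mul hl).1 h1 with h2 | h2
    · have h3 : l ∣ 2 := hl.dvd_of_dvd_pow (n := 2) (by simpa using h2)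
      exact Dvd.dvd.mul_right (by exact_mod_cast h3) _
    · exact Dvd.dvd.mul_left (Int.natCast_dvd.2 h2) _
  · have h1 : ∏ l ∈ S, l ≤ primorial ⌊z⌋₊ := by
      refine prod_le_prod_of_subset_of_one_le' (fun l hl => ?_) fun l hl _ => ?_
      · exact mem_filter.2 ⟨mem_range.2 (Nat.lt_succ_of_le (Nat.le_floor ((hSm l).1 hl).2)),
          hSp l hl⟩
      · exact (mem_filter.1 hl).2.one_le
    have h2 : ((∏ l ∈ S, l : ℕ) : ℝ) ≤ 4 ^ ⌊z⌋₊ := by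
      exact_mod_cast h1.trans (primorial_le_four_pow _)
    have h4 : (4 : ℝ) ≤ Real.exp 2 := by
      have := Real.add_one_le_exp (1 : ℝ)
      rw [show (2 : ℝ) = 1 + 1 by norm_num, Real.exp_add]
      nlinarith
    have h3 : (4 : ℝ) ^ ⌊z⌋₊ ≤ Real.exp (2 * z) := by
      refine (pow_le_pow_left₀ (by norm_num) h4 _).trans ?_
      rw [← Real.exp_nat_mul]
      refine Real.exp_le_exp.2 ?_
      have := Nat.floor_le (a := z) (by linarith)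
      linarith
    refine (pow_le_pow_left₀ (Nat.cast_nonneg _) (h2.trans h3) 50).trans (le_of_eq ?_)
    rw [← Real.exp_nat_mul, ← Real.exp_log hx]
    congr 1
    rw [hz]
    push_cast
    ring
  · have h1 := sum_big_primeFactors (z := z) (by linarith) hn
    refine le_trans (sum_le_sum_of_subset_of_nonneg (fun l hl => ?_) fun l _ _ => by positivity)
      (h1.trans ?_)
    · rw [mem_filter] at hl ⊢
      exact ⟨hl.1, not_le.1 fun h => hl.2 (dvd_prod_of_mem _ ((hSm l).2 ⟨hl.1, h⟩))⟩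
    · rw [div_le_iff₀ (by linarith), Nat.cast_mul, tti_abs hD0,
        Real.log_mul (by norm_num) hx.ne', hz]
      have := Real.log_le_sub_one_of_pos (x := ((4 : ℕ) : ℝ)) (by norm_num)
      push_cast at this ⊢
      linarith

theorem ysc_swap (u v : ℕ → ℝ) (N : ℕ) :
    ∑ n ∈ Icc 1 N, ∑ x ∈ n.divisorsAntidiagonal, u x.1 * v x.2 =
      ∑ a ∈ Icc 1 N, u a * ∑ b ∈ Icc 1 (N / a), v b := by
  have h := ArithmeticFunction.sum_Ioc_mul_eq_sum_sum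
    (⟨fun n => if n = 0 then 0 else u n, by simp⟩ : ArithmeticFunction ℝ)
    (⟨fun n => if n = 0 then 0 else v n, by simp⟩ : ArithmeticFunction ℝ) N
  have e : ∀ M : ℕ, Ioc 0 M = Icc 1 M := fun M => by
    ext a
    simp only [mem_Ioc, mem_Icc]
    omega
  simp only [e, ArithmeticFunction.mul_apply, ArithmeticFunction.coe_mk] at h
  refine Eq.trans (sum_congr rfl fun n _ => sum_congr rfl fun x hx => ?_)
    (h.trans (sum_congr rfl fun a ha => ?_))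
  · obtain ⟨h1, h2⟩ := Nat.ne_zero_of_mem_divisorsAntidiagonal hx
    rw [if_neg h1, if_neg h2]
  · rw [if_neg (by have := (mem_Icc.1 ha).1; omega)]
    congr 1
    exact sum_congr rfl fun b hb => if_neg (by have := (mem_Icc.1 hb).1; omega)

theorem ysc_rho {n P : ℕ} (hP : 0 < P) {B : ℝ}
    (h : ∑ l ∈ n.primeFactors with ¬ l ∣ P, 1 / (l : ℝ) ≤ B) :
    (∏ l ∈ P.primeFactors, (1 - 1 / (l : ℝ))) * Real.exp (∑ l ∈ n.primeFactors, 1 / (l : ℝ)) ≤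
      Real.exp B := by
  have h1 : ∏ l ∈ P.primeFactors, (1 - 1 / (l : ℝ)) ≤
      Real.exp (-∑ l ∈ P.primeFactors, 1 / (l : ℝ)) := by
    rw [← sum_neg_distrib, Real.exp_sum]
    refine prod_le_prod (fun l hl => ?_) fun l _ => ?_
    · have : (1 : ℝ) ≤ l := by exact_mod_cast (Nat.prime_of_mem_primeFactors hl).one_le
      have := (div_le_one (by linarith : (0 : ℝ) < l)).2 this
      linarith
    · have := Real.add_one_le_exp (-(1 / (l : ℝ)))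
      linarith
  have h2 : ∑ l ∈ n.primeFactors with l ∣ P, 1 / (l : ℝ) ≤ ∑ l ∈ P.primeFactors, 1 / (l : ℝ) := by
    refine sum_le_sum_of_subset_of_nonneg (fun l hl => ?_) fun l _ _ => by positivity
    rw [mem_filter] at hl
    exact Nat.mem_primeFactors.2 ⟨Nat.prime_of_mem_primeFactors hl.1, hl.2, hP.ne'⟩
  have h3 := sum_filter_add_sum_filter_not n.primeFactors (fun l => l ∣ P) fun l => 1 / (l : ℝ)
  refine (mul_le_mul_of_nonneg_right h1 (Real.exp_pos _).le).trans ?_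
  rw [← Real.exp_add]
  exact Real.exp_le_exp.2 (by linarith)

theorem ysc_one {q P L ρ : ℝ} {N a : ℕ} (hq : 1 ≤ q) (hP : 0 ≤ P) (hL0 : 0 ≤ L) (hL : L ≤ 3 * q)
    (hρ : 0 ≤ ρ) (ha : 1 ≤ a) (haN : a ≤ N) :
    L * ρ * ((N / a : ℕ) : ℝ) + P * (|L| + 20 * Real.sqrt (q * ((N / a : ℕ) : ℝ))) ≤
      L * ρ * N * (1 / a) + 23 * P * q * (N : ℝ) ^ (3 / 4 : ℝ) * (1 / (a : ℝ) ^ (3 / 4 : ℝ)) := by
  have ha0 : (0 : ℝ) < a := by exact_mod_cast ha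
  have h1 : ((N / a : ℕ) : ℝ) ≤ (N : ℝ) / a := Nat.cast_div_le
  have h2 : (1 : ℝ) ≤ (N : ℝ) / a := by
    rw [le_div_iff₀ ha0, one_mul]
    exact_mod_cast haN
  obtain ⟨w, hw⟩ : ∃ w : ℝ, w = ((N : ℝ) / a) ^ (3 / 4 : ℝ) := ⟨_, rfl⟩
  have hw1 : 1 ≤ w := by rw [hw]; exact Real.one_le_rpow h2 (by norm_num)
  have h3 : Real.sqrt ((N : ℝ) / a) ≤ w := by
    rw [hw, Real.sqrt_eq_rpow]
    exact Real.rpow_le_rpow_of_exponent_le h2 (by norm_num)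
  have h4 : Real.sqrt q ≤ q := by
    rw [Real.sqrt_le_left (by linarith)]
    nlinarith
  have h5 : Real.sqrt (q * ((N / a : ℕ) : ℝ)) ≤ q * w := by
    rw [Real.sqrt_mul (by linarith)]
    exact mul_le_mul h4 ((Real.sqrt_le_sqrt h1).trans h3) (Real.sqrt_nonneg _) (by linarith)
  have h6 : (N : ℝ) ^ (3 / 4 : ℝ) * (1 / (a : ℝ) ^ (3 / 4 : ℝ)) = w := by
    rw [hw, Real.div_rpow (Nat.cast_nonneg _) ha0.le, mul_one_div]
  rw [mul_assoc (23 * P * q), h6, abs_of_nonneg hL0, mul_assoc (L * ρ), mul_one_div]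
  have h7 : L + 20 * Real.sqrt (q * ((N / a : ℕ) : ℝ)) ≤ 23 * q * w := by nlinarith
  have h8 := mul_le_mul_of_nonneg_left h7 hP
  have h9 := mul_le_mul_of_nonneg_left h1 (mul_nonneg hL0 hρ)
  nlinarith

theorem ysc_err {A c t : ℝ} (hA : 0 < A) (hc : 0 < c) (ht : 0 < t) : ∃ Y : ℝ, ∀ x P e N W : ℝ,
    Y ≤ x → 0 ≤ P → 0 ≤ e → 0 ≤ N → P ^ 50 ≤ x → e ^ 50 ≤ x → N ≤ t * Real.sqrt x →
    W ≤ A * (4 * x) ^ (1 / 100 : ℝ) →
    23 * P * (4 * (P ^ 2 * e)) * N ^ (3 / 4 : ℝ) * W ≤ t * (c * x ^ (1 / 2 - 1 / 100 : ℝ)) := by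
  obtain ⟨B, hB⟩ : ∃ B : ℝ, B = max 1 (368 * A * t ^ (3 / 4 : ℝ) / (t * c)) := ⟨_, rfl⟩
  have hB1 : 1 ≤ B := by rw [hB]; exact le_max_left _ _
  have hB2 : 368 * A * t ^ (3 / 4 : ℝ) ≤ B * (t * c) := by
    rw [← div_le_iff₀ (by positivity), hB]
    exact le_max_right _ _
  refine ⟨B ^ 200, fun x P e N W hx hP he hN hPx hex hNx hW => ?_⟩
  have hx1 : 1 ≤ x := (one_le_pow₀ hB1).trans hx
  obtain ⟨y, hy⟩ : ∃ y : ℝ, y = x ^ (1 / 200 : ℝ) := ⟨_, rfl⟩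
  have hy0 : 0 ≤ y := by rw [hy]; positivity
  have hp : ∀ k : ℕ, y ^ k = x ^ ((k : ℝ) / 200) := fun k => by
    rw [hy, ← Real.rpow_natCast, ← Real.rpow_mul (by linarith)]
    congr 1
    ring
  have h200 : y ^ 200 = x := by
    rw [hp]
    norm_num
  have hBy : B ≤ y := by
    refine le_of_pow_le_pow_left₀ (n := 200) (by norm_num) hy0 ?_
    rw [h200]
    exact hx
  have hy1 : 1 ≤ y := hB1.trans hBy
  have h4 : ∀ s : ℝ, s ^ 50 ≤ x → s ≤ y ^ 4 := fun s hs => by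
    refine le_of_pow_le_pow_left₀ (n := 50) (by norm_num) (by positivity) ?_
    rw [← pow_mul]
    exact hs.trans_eq h200.symm
  have hP4 := h4 P hPx
  have he4 := h4 e hex
  have h75 : N ^ (3 / 4 : ℝ) ≤ t ^ (3 / 4 : ℝ) * y ^ 75 := by
    refine (Real.rpow_le_rpow hN hNx (by norm_num)).trans (le_of_eq ?_)
    rw [Real.mul_rpow ht.le (Real.sqrt_nonneg _), Real.sqrt_eq_rpow,
      ← Real.rpow_mul (by linarith), hp]
    norm_num
  have h2 : W ≤ 4 * A * y ^ 2 := by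
    refine hW.trans ?_
    rw [Real.mul_rpow (by norm_num) (by linarith), hp]
    have h5 : (4 : ℝ) ^ (1 / 100 : ℝ) ≤ 4 := by
      have := Real.rpow_le_rpow_of_exponent_le (x := (4 : ℝ)) (by norm_num)
        (show (1 / 100 : ℝ) ≤ 1 by norm_num)
      rwa [Real.rpow_one] at this
    have h6 : (((2 : ℕ) : ℝ) / 200) = 1 / 100 := by norm_num
    rw [h6]
    have h7 : 0 ≤ A * x ^ (1 / 100 : ℝ) := by positivity
    nlinarith
  have h98 : x ^ (1 / 2 - 1 / 100 : ℝ) = y ^ 98 := by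
    rw [hp]
    norm_num
  rw [h98]
  have hN0 : 0 ≤ N ^ (3 / 4 : ℝ) := by positivity
  have h5 : y ≤ y ^ 5 := le_self_pow₀ hy1 (by norm_num)
  calc 23 * P * (4 * (P ^ 2 * e)) * N ^ (3 / 4 : ℝ) * W
      ≤ 23 * P * (4 * (P ^ 2 * e)) * N ^ (3 / 4 : ℝ) * (4 * A * y ^ 2) :=
        mul_le_mul_of_nonneg_left h2 (by positivity)
    _ ≤ 23 * y ^ 4 * (4 * ((y ^ 4) ^ 2 * y ^ 4)) * (t ^ (3 / 4 : ℝ) * y ^ 75) *
        (4 * A * y ^ 2) := by gcongr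
    _ = 368 * A * t ^ (3 / 4 : ℝ) * y ^ 93 := by ring
    _ ≤ y ^ 5 * (t * c) * y ^ 93 := by
        refine mul_le_mul_of_nonneg_right (hB2.trans ?_) (by positivity)
        exact mul_le_mul_of_nonneg_right (hBy.trans h5) (by positivity)
    _ = _ := by ring

theorem ysc_pow {K : ℝ} (hK : 1 ≤ K) (n : ℕ) :
    K ^ #n.primeFactors ≤ ∏ l ∈ n.primeFactors, (K * (n.factorization l + 1) ^ 3) := by
  rw [← prod_const]
  refine prod_le_prod (fun _ _ => by linarith) fun l _ => ?_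
  refine le_mul_of_one_le_right (by linarith) (one_le_pow₀ ?_)
  have : (0 : ℝ) ≤ n.factorization l := Nat.cast_nonneg _
  linarith

theorem sh_large : ∃ K : ℝ, 0 < K ∧ ∀ t : ℝ, 0 < t → ∃ Y : ℝ, ∀ d g : ℤ, IsD (g ^ 2 * d) →
    Y ≤ -((g ^ 2 * d : ℤ) : ℝ) → (d.natAbs : ℝ) ^ 50 ≤ -((g ^ 2 * d : ℤ) : ℝ) →
    ((Sh (g ^ 2 * d) t 1).ncard : ℝ) ≤ K * t * (Cl (g ^ 2 * d)).ncard := by
  obtain ⟨K, hK, HK⟩ := idl_major
  obtain ⟨C, hC, HC⟩ := L_compare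
  obtain ⟨Y₀, HP⟩ := exists_P
  obtain ⟨A, hA, HA⟩ := omega_bound K (ε := 1 / 100) (by norm_num)
  obtain ⟨c, hc, Hc⟩ := class_lower (ε := 1 / 100) (by norm_num)
  have hK0 : 0 < K := by linarith
  refine ⟨K * (K * C * Real.exp 1000 * 1200 + 1), by positivity, fun t ht => ?_⟩
  obtain ⟨Y₁, HY⟩ := ysc_err hA hc ht
  refine ⟨max Y₀ Y₁, fun d g hD hY hd => ?_⟩
  obtain ⟨P, hP, h2, hPl, hPx, hPs⟩ := HP _ ((le_max_left _ _).trans hY)
  obtain ⟨u, hu, Hu, HI⟩ := HK _ hD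
  have hd0 : d < 0 := by
    by_contra h
    exact absurd hD.1 (not_lt.2 (mul_nonneg (sq_nonneg g) (not_lt.1 h)))
  have hE : (P : ℤ) ^ 2 * d < 0 := mul_neg_of_pos_of_neg (by positivity) hd0
  have hn : 4 * (g ^ 2 * d).natAbs ≠ 0 := by have := Int.natAbs_pos.2 hD.1.ne; omega
  have hq : 4 * ((P : ℤ) ^ 2 * d).natAbs ≠ 0 := by have := Int.natAbs_pos.2 hE.ne; omega
  have i1 : NeZero (4 * (g ^ 2 * d).natAbs) := ⟨hn⟩
  have i2 : NeZero (4 * ((P : ℤ) ^ 2 * d).natAbs) := ⟨hq⟩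
  have hrc := rc_jc (Δ := (P : ℤ) ^ 2 * d) fun h => absurd hE (not_lt.2 h.nonneg)
  have hL := exists_L_jc hE
  have hLC := HC d g P hd0 hPl hPs
  have hcl := class_ge hD
  obtain ⟨L, hLd⟩ : ∃ L : ℝ, L = ‖(sgeChi ((P : ℤ) ^ 2 * d)).LFunction 1‖ := ⟨_, rfl⟩
  obtain ⟨L', hL'⟩ : ∃ L : ℝ, L = ‖(sgeChi (g ^ 2 * d)).LFunction 1‖ := ⟨_, rfl⟩
  rw [← hLd] at hL hLC
  rw [← hL'] at hLC hcl
  have hL0 : 0 ≤ L := by rw [hLd]; exact norm_nonneg _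
  have hcop := cop_sum hrc hL hP
  have hrho := ysc_rho hP hPs
  have hρ0 : 0 ≤ ∏ l ∈ P.primeFactors, (1 - 1 / (l : ℝ)) := prod_nonneg fun l hl => by
    have : (1 : ℝ) ≤ l := by exact_mod_cast (Nat.prime_of_mem_primeFactors hl).one_le
    have := (div_le_one (by linarith : (0 : ℝ) < l)).2 this
    linarith
  have hqe : ((4 * ((P : ℤ) ^ 2 * d).natAbs : ℕ) : ℝ) = 4 * ((P : ℝ) ^ 2 * d.natAbs) := by
    rw [Int.natAbs_mul, Int.natAbs_pow, Int.natAbs_natCast]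
    push_cast
    ring
  have hq1 : (1 : ℝ) ≤ (4 * ((P : ℤ) ^ 2 * d).natAbs : ℕ) := by
    exact_mod_cast Nat.pos_of_ne_zero hq
  have hL3 : L ≤ 3 * (4 * ((P : ℤ) ^ 2 * d).natAbs : ℕ) := by
    have h1 := hL 1 one_pos
    rw [Icc_self, sum_singleton, hrc.one, Nat.cast_one, div_one, div_one] at h1
    have := (abs_le.1 h1).1
    linarith
  obtain ⟨ρ, hρ⟩ : ∃ ρ : ℝ, ρ = ∏ l ∈ P.primeFactors, (1 - 1 / (l : ℝ)) := ⟨_, rfl⟩
  rw [← hρ] at hcop hrho hρ0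
  obtain ⟨q, hqd⟩ : ∃ q : ℝ, q = (4 * ((P : ℤ) ^ 2 * d).natAbs : ℕ) := ⟨_, rfl⟩
  rw [← hqd] at hcop hqe hq1 hL3
  have hsum := tti_sum (g ^ 2 * d) t 1
  obtain ⟨N, hN⟩ : ∃ N : ℕ, N = ⌊t * Real.sqrt (-((g ^ 2 * d : ℤ) : ℝ))⌋₊ := ⟨_, rfl⟩
  have hNx : (N : ℝ) ≤ t * Real.sqrt (-((g ^ 2 * d : ℤ) : ℝ)) := by
    rw [hN]
    exact Nat.floor_le (by positivity)
  rw [← hN, filter_true_of_mem fun n _ => one_dvd n] at hsum
  obtain ⟨hu1, hu2⟩ := Hu N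
  have hW : K ^ #(4 * (g ^ 2 * d).natAbs).primeFactors ≤
      A * (4 * -((g ^ 2 * d : ℤ) : ℝ)) ^ (1 / 100 : ℝ) := by
    refine (ysc_pow hK _).trans ((HA _ hn).trans_eq ?_)
    rw [Nat.cast_mul, tti_abs hD.1, Nat.cast_ofNat]
  have herr := (HY _ P d.natAbs N _ ((le_max_right _ _).trans hY) (Nat.cast_nonneg _)
    (Nat.cast_nonneg _) (Nat.cast_nonneg _) hPx hd hNx hW).trans
    (mul_le_mul_of_nonneg_left (Hc _ hD) ht.le)
  rw [← hqe] at herr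
  have a1 : ∑ n ∈ Icc 1 N, ((Idl (g ^ 2 * d) n).ncard : ℝ) ≤
      K * ∑ a ∈ Icc 1 N, u a * ∑ b ∈ Icc 1 (N / a), vv P (jc ((P : ℤ) ^ 2 * d)) b := by
    rw [← ysc_swap, mul_sum]
    exact sum_le_sum fun n hn => HI d g P rfl hP h2 hPl n (mem_Icc.1 hn).1
  have a2 : ∑ a ∈ Icc 1 N, u a * ∑ b ∈ Icc 1 (N / a), vv P (jc ((P : ℤ) ^ 2 * d)) b ≤
      L * ρ * N * ∑ a ∈ Icc 1 N, u a / a +
        23 * P * q * (N : ℝ) ^ (3 / 4 : ℝ) * ∑ a ∈ Icc 1 N, u a / (a : ℝ) ^ (3 / 4 : ℝ) := by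
    rw [mul_sum, mul_sum, ← sum_add_distrib]
    refine sum_le_sum fun a ha => ?_
    have h1 := (hcop (N / a)).trans (ysc_one hq1 (Nat.cast_nonneg P) hL0 hL3 hρ0
      (mem_Icc.1 ha).1 (mem_Icc.1 ha).2)
    refine (mul_le_mul_of_nonneg_left h1 (hu a)).trans (le_of_eq ?_)
    ring
  have a3 : L * ρ * N * ∑ a ∈ Icc 1 N, u a / a ≤
      K * C * Real.exp 1000 * 1200 * t * (Cl (g ^ 2 * d)).ncard := by
    have hL'0 : 0 ≤ L' := by rw [hL']; exact norm_nonneg _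
    calc L * ρ * N * ∑ a ∈ Icc 1 N, u a / a
        ≤ L * ρ * N * (K * Real.exp (∑ l ∈ (4 * (g ^ 2 * d).natAbs).primeFactors, 1 / (l : ℝ))) :=
          mul_le_mul_of_nonneg_left hu1 (by positivity)
      _ = K * L * N * (ρ * Real.exp (∑ l ∈ (4 * (g ^ 2 * d).natAbs).primeFactors, 1 / (l : ℝ))) := by
          ring
      _ ≤ K * (C * L') * (t * Real.sqrt (-((g ^ 2 * d : ℤ) : ℝ))) * Real.exp 1000 := by gcongr
      _ = K * C * Real.exp 1000 * t * (Real.sqrt (-((g ^ 2 * d : ℤ) : ℝ)) * L') := by ring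
      _ ≤ K * C * Real.exp 1000 * t * (1200 * (Cl (g ^ 2 * d)).ncard) := by gcongr
      _ = _ := by ring
  have a4 : 23 * P * q * (N : ℝ) ^ (3 / 4 : ℝ) * ∑ a ∈ Icc 1 N, u a / (a : ℝ) ^ (3 / 4 : ℝ) ≤
      t * (Cl (g ^ 2 * d)).ncard :=
    (mul_le_mul_of_nonneg_left hu2 (by positivity)).trans herr
  refine hsum.trans (a1.trans ((mul_le_mul_of_nonneg_left (a2.trans (add_le_add a3 a4))
    hK0.le).trans (le_of_eq ?_)))
  ring

theorem tg_large : ∃ Uf Yf : ℝ → ℝ, (∀ δ, 1 ≤ Uf δ) ∧ ∀ d g : ℤ,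
    (d.natAbs : ℝ) ^ 50 ≤ -((g ^ 2 * d : ℤ) : ℝ) → Tg Uf Yf (g ^ 2 * d) := by
  obtain ⟨K, hK, H⟩ := sh_large
  choose! Y HY using H
  have hF := tfc_rank ⊥
  obtain ⟨T, hT⟩ : ∃ T : ℝ → ℝ, ∀ δ, T δ =
      δ / (15 * Module.finrank ℚ (⊥ : IntermediateField ℚ ℂ) * (|(1 : ℝ)| + 1)) / K :=
    ⟨_, fun _ => rfl⟩
  refine ⟨fun δ => max 1 (1 / T δ), fun δ => max (Y (T δ)) 577, fun δ => le_max_left _ _,
    fun d g hd δ hδ hY n τ D hτ c hc => ?_⟩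
  have ht : 0 < T δ := by rw [hT]; positivity
  have hD := (hτ c).isD
  have h577 : (577 : ℝ) ≤ -(D c : ℝ) := by
    rw [hc]
    exact (le_max_right _ _).trans hY
  have h576 : D c < -576 := by
    have : (577 : ℤ) ≤ -D c := by exact_mod_cast h577
    omega
  have hS := HY _ ht d g (hc ▸ hD) ((le_max_left _ _).trans hY) hd
  rw [← hc] at hS
  have hcl : (0 : ℝ) < (Cl (D c)).ncard := by
    obtain ⟨c', hc', Hc⟩ := class_lower (ε := 1 / 100) (by norm_num)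
    exact lt_of_lt_of_le (mul_pos hc' (Real.rpow_pos_of_pos (by linarith) _)) (Hc _ hD)
  have a1 := tfc_fin (L := 1) (H := (Cl (D c)).ncard)
    (orbit_one ⊥ hτ c h576 (tti_finite (D c) (T δ) 1)) (hS.trans_eq (by
      rw [hT, mul_div_cancel₀ _ hK.ne'])) (one_mul _).ge hcl hcl.le hF (Nat.cast_nonneg _) hδ
  have hO := orbit_finite ⊥ hτ
  rw [← galO_eq, ← card_fO (galO _ _)] at a1
  unfold prb
  rw [div_le_iff₀ (by exact_mod_cast (Orb_ne hτ).card_pos)]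
  refine le_trans ?_ a1
  rw [← Set.ncard_coe_finset, Nat.cast_le]
  refine Set.ncard_le_ncard (fun z hz => ?_) (hO.subset fun z hz => hz.1)
  simp only [Finset.mem_coe, Finset.mem_filter] at hz
  refine ⟨(mem_fO hO).1 hz.1, ?_⟩
  have a2 : max 1 (1 / T δ) < (fr (z c)).im := not_le.1 fun h => hz.2 ⟨(fr_spec _).1, h⟩
  have a3 := (le_max_right _ _).trans a2.le
  rw [div_le_iff₀' ht] at a3
  have := mem_Sh_of_fd (Orb_disc hτ hz.1 h576) a3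
  rwa [(fr_spec _).2] at this

end Pool.Agent.EQ
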