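import Pool.Agent.P.MP_ad7a55_nt.YDa
import Pool.Agent.P.MP_ad7a55_nt.XTa
import Pool.Agent.P.MP_ad7a55_nt.YHa

/-! Choice of the scales and primes. -/

set_option autoImplicit false

noncomputable section

open MeasureTheory Topology Filter UpperHalfPlane Finset
open scoped MatrixGroups BoundedContinuousFunction Matrix Classical

namespace Pool.Agent.EQ

/-- The exponent of the threshold. -/
def BB (n : ℕ) : ℕ := 3 * (n + n ^ 2 + 2)

theorem pool6 (A : ℕ) : ∃ Z₀ : ℝ, ∀ (Z : ℝ) (m : ℕ), Z₀ ≤ Z → ManyT A m Z → ∃ y : ℕ,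
    Z ≤ Real.log y ∧ Real.log y ≤ (3 * A + 3) * Z ∧
      Real.exp Z ≤ #{p ∈ Ioc y (2 * y) | p.Prime ∧ jacobiSym (-(m : ℤ)) p = 1} := by
  have hA0 : (0 : ℝ) ≤ A := Nat.cast_nonneg A
  refine ⟨10 * A + 4, fun Z m hZ hM => ?_⟩
  have hZ4 : 4 ≤ Z := by linarith
  have hq := Real.quadratic_le_exp_of_nonneg (x := Z) (by linarith)
  have hE2 : Real.exp (2 * Z) = Real.exp Z * Real.exp Z := by rw [← Real.exp_add]; ring_nf
  have hE3 : Real.exp (3 * Z) = Real.exp Z * (Real.exp Z * Real.exp Z) := by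
    rw [← Real.exp_add, ← Real.exp_add]; ring_nf
  have hE5 : 5 ≤ Real.exp Z := by nlinarith
  obtain ⟨t, ht1, ht2⟩ : ∃ t : ℕ, Real.exp (2 * Z) ≤ t ∧ (t : ℝ) ≤ Real.exp (3 * Z) :=
    ⟨⌈Real.exp (2 * Z)⌉₊, Nat.le_ceil _, (Nat.ceil_lt_add_one (Real.exp_pos _).le).le.trans (by
      rw [hE2, hE3]; nlinarith)⟩
  obtain ⟨y, hy1, hy2⟩ : ∃ y : ℕ, Real.exp Z ≤ y ∧ (y : ℝ) ≤ Real.exp Z + 1 :=
    ⟨⌈Real.exp Z⌉₊, Nat.le_ceil _, (Nat.ceil_lt_add_one (Real.exp_pos _).le).le⟩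
  have hy0 : 0 < y := by
    have : (0 : ℝ) < y := by linarith
    exact_mod_cast this
  have ht0' : (0 : ℝ) < t := (Real.exp_pos _).trans_le ht1
  have htA : ((t ^ A : ℕ) : ℝ) ≤ Real.exp (3 * A * Z) := by
    rw [show 3 * (A : ℝ) * Z = A * (3 * Z) by ring, Real.exp_nat_mul]
    push_cast
    exact pow_le_pow_left₀ (Nat.cast_nonneg _) ht2 A
  by_contra hc
  push Not at hc
  have h1 := hM t (le_trans (by linarith) ((Real.le_log_iff_exp_le ht0').2 ht1))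
  let S := (range (Nat.log 2 (t ^ A) + 1)).filter fun j => y * 2 ^ j ≤ t ^ A
  have h2 : ((Nat.primesLE (t ^ A)).filter fun p : ℕ => jacobiSym (-(m : ℤ)) p = 1) ⊆
      range (y + 1) ∪ S.biUnion fun j =>
        {p ∈ Ioc (y * 2 ^ j) (2 * (y * 2 ^ j)) | p.Prime ∧ jacobiSym (-(m : ℤ)) p = 1} := by
    intro p hp
    obtain ⟨h3, h4⟩ := mem_filter.1 hp
    obtain ⟨h5, h6⟩ := Nat.mem_primesLE.1 h3
    rcases le_or_gt p y with h7 | h7
    · exact mem_union_left _ (mem_range.2 (by omega))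
    · have h8 : (p - 1) / y ≠ 0 := (Nat.div_pos (by omega) hy0).ne'
      have h9 := Nat.pow_log_le_self 2 h8
      have h10 := Nat.lt_pow_succ_log_self (b := 2) (by norm_num) ((p - 1) / y)
      generalize Nat.log 2 ((p - 1) / y) = j at h9 h10
      rw [Nat.le_div_iff_mul_le hy0, mul_comm] at h9
      rw [Nat.div_lt_iff_lt_mul hy0, Nat.succ_eq_add_one, pow_succ] at h10
      have h11 : 2 ^ j ≤ y * 2 ^ j := Nat.le_mul_of_pos_left _ hy0
      have h12 : 2 ^ j * 2 * y = 2 * (y * 2 ^ j) := by ring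
      refine mem_union_right _ (mem_biUnion.2 ⟨j, mem_filter.2 ⟨mem_range.2 ?_, by omega⟩,
        mem_filter.2 ⟨mem_Ioc.2 ⟨by omega, by omega⟩, h6, h4⟩⟩)
      exact Nat.lt_succ_of_le (Nat.le_log_of_pow_le (by norm_num) (by omega))
  have h3 := (card_le_card h2).trans ((card_union_le _ _).trans
    (Nat.add_le_add_left card_biUnion_le _))
  rw [card_range] at h3
  have h4 : (t : ℝ) ≤ y + 1 + ∑ j ∈ S, (#{p ∈ Ioc (y * 2 ^ j) (2 * (y * 2 ^ j)) |
      p.Prime ∧ jacobiSym (-(m : ℤ)) p = 1} : ℝ) := by exact_mod_cast h1.trans h3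
  have h5 : ∑ j ∈ S, (#{p ∈ Ioc (y * 2 ^ j) (2 * (y * 2 ^ j)) |
      p.Prime ∧ jacobiSym (-(m : ℤ)) p = 1} : ℝ) ≤ #S * Real.exp Z := by
    rw [← nsmul_eq_mul]
    refine sum_le_card_nsmul _ _ _ fun j hj => ?_
    have h6 : (y : ℝ) ≤ (y * 2 ^ j : ℕ) := by
      exact_mod_cast Nat.le_mul_of_pos_right y (by positivity : 0 < 2 ^ j)
    have h7 : ((y * 2 ^ j : ℕ) : ℝ) ≤ (t ^ A : ℕ) := by exact_mod_cast (mem_filter.1 hj).2
    have h8 : (0 : ℝ) < (y * 2 ^ j : ℕ) := by linarith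
    refine (hc _ ((Real.le_log_iff_exp_le h8).2 (hy1.trans h6)) ?_).le
    refine ((Real.log_le_iff_le_exp h8).2 (h7.trans htA)).trans ?_
    nlinarith
  have h6 : (#S : ℝ) ≤ 5 * A * Z + 1 := by
    have h7 : #S ≤ Nat.log 2 (t ^ A) + 1 := (card_filter_le _ _).trans (card_range _).le
    have ht0 : t ^ A ≠ 0 := pow_ne_zero _ (Nat.cast_pos.1 ht0').ne'
    have h8 := Nat.pow_log_le_self 2 ht0
    generalize Nat.log 2 (t ^ A) = K at h7 h8
    have h9 : (2 : ℝ) ^ K ≤ Real.exp (3 * A * Z) := le_trans (by exact_mod_cast h8) htA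
    have h10 := (Real.log_le_iff_le_exp (by positivity)).2 h9
    rw [Real.log_pow] at h10
    have h12 := Real.log_two_gt_d9
    have h13 : (#S : ℝ) ≤ K + 1 := by exact_mod_cast h7
    have h14 : (0 : ℝ) ≤ K := Nat.cast_nonneg K
    have h15 : 0 ≤ A * Z := mul_nonneg hA0 (by linarith)
    nlinarith
  have h7 := mul_le_mul_of_nonneg_right h6 (Real.exp_pos Z).le
  have h8 : 5 * A * Z + 4 < Real.exp Z := by nlinarith
  have h9 := mul_lt_mul_of_pos_right h8 (Real.exp_pos Z)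
  rw [hE2] at ht1
  nlinarith

theorem window6 (r : ℕ) {X u : ℝ} (hX : 0 ≤ X) (hu : 1 ≤ u) (V : Finset ℝ) (hV : #V ≤ r) :
    ∃ T : ℝ, X / u ^ (r + 1) ≤ T ∧ T * u ≤ X ∧ ∀ w ∈ V, w ≤ T ∨ T * u ≤ w := by
  have hu0 : 0 < u := by linarith
  have hm : ∀ i j, i ≤ j → X / u ^ j ≤ X / u ^ i := fun i j h =>
    div_le_div_of_nonneg_left hX (by positivity) (pow_le_pow_right₀ hu h)
  have hs : ∀ i, X / u ^ (i + 1) * u = X / u ^ i := fun i => by
    rw [pow_succ]; field_simp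
  obtain ⟨i, hi, h4⟩ : ∃ i ∈ range (r + 1), ∀ w ∈ V,
      w ≤ X / u ^ (i + 1) ∨ X / u ^ (i + 1) * u ≤ w := by
    by_contra hc
    push Not at hc
    choose! f hf1 hf2 hf3 using hc
    have h5 := card_le_card_of_injOn (s := range (r + 1)) (t := V) f (fun i hi => hf1 i hi)
      fun i hi j hj e => by
        by_contra hne
        rcases lt_or_gt_of_ne hne with h | h
        · have := hm (i + 1) j h
          linarith [hf2 i hi, hf3 j hj, hs j]
        · have := hm (j + 1) i h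
          linarith [hf2 j hj, hf3 i hi, hs i]
    rw [card_range] at h5
    omega
  refine ⟨X / u ^ (i + 1), hm _ _ (by have := mem_range.1 hi; omega), ?_, h4⟩
  rw [hs]
  simpa using hm 0 i (Nat.zero_le i)

theorem exists_two_pow {z : ℝ} (hz : 1 ≤ z) : ∃ M : ℕ, z ≤ 2 ^ M ∧ 2 ^ M ≤ 2 * z := by
  obtain ⟨k, h1, h2⟩ := exists_nat_pow_near hz (by norm_num : (1 : ℝ) < 2)
  exact ⟨k + 1, h2.le, by rw [pow_succ]; linarith⟩

theorem yta_large (K : ℕ) (l₀ C : ℝ) : ∃ X₀ : ℝ, ∀ X : ℝ, X₀ ≤ X →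
    l₀ ≤ Real.log X ∧ Real.log X ^ K ≤ X ∧ C ≤ X := by
  have h1 := Real.tendsto_log_atTop.eventually_ge_atTop l₀
  have h2 := (Real.isLittleO_pow_log_id_atTop (n := K)).bound one_pos
  obtain ⟨X₀, h⟩ := eventually_atTop.1 (h1.and (h2.and ((eventually_ge_atTop C).and
    (eventually_ge_atTop 0))))
  refine ⟨X₀, fun X hX => ⟨(h X hX).1, ?_, (h X hX).2.2.1⟩⟩
  have h3 := (h X hX).2.1
  rw [one_mul, id, Real.norm_of_nonneg (h X hX).2.2.2] at h3
  exact (le_abs_self _).trans h3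

theorem yta_exp {n X T l : ℝ} (hn : 0 ≤ n) (hX : 0 ≤ X) (hXT : X ≤ T ^ 2) (hT : 1 ≤ T)
    (hl : 16 * n + 56 ≤ l) :
    Real.exp (T * l / 2) + (2 * n + 7) * X ≤ Real.exp (T * l) := by
  have h0 : 56 ≤ T * l := by nlinarith
  have h1 := Real.quadratic_le_exp_of_nonneg (x := T * l / 2) (by linarith)
  have h2 : Real.exp (T * l) = Real.exp (T * l / 2) * Real.exp (T * l / 2) := by
    rw [← Real.exp_add]; ring_nf
  have h3 : 8 * (2 * n + 7) ≤ l ^ 2 := by nlinarith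
  have h4 : 8 * (2 * n + 7) * X ≤ l ^ 2 * T ^ 2 := mul_le_mul h3 hXT hX (by positivity)
  have h5 : (2 * n + 7) * X ≤ Real.exp (T * l / 2) := by nlinarith
  have h6 : 2 ≤ Real.exp (T * l / 2) := by nlinarith
  rw [h2]
  nlinarith

theorem exists_setup6 (n N e A : ℕ) (hN : 0 < N) (he : 0 < e) : ∃ a : ℕ, ∀ G₀ : ℝ, ∃ X₀ : ℝ,
    ∀ (τ : Fin n → ℍ) (D : Fin n → ℤ) (I : Finset (Fin n)) (k₀ : Fin n) (d : ℤ) (L X : ℝ)
      (m₀ : ℕ), (∀ k, HasDisc (τ k) (D k)) → (∀ k, D k < -576) →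
      (∀ k ∈ I, ∃ f : ℤ, D k = f ^ 2 * d) → k₀ ∈ I → (∀ k ∈ I, D k₀ ≤ D k) →
      X = Real.log (-(D k₀ : ℝ)) → X₀ ≤ X → ManyT A d.natAbs (thr (BB n) X) →
      (∀ k ∈ I, Low L (D k)) → |L| ≤ Real.exp (2 * thr (BB n) X) →
      (∀ k ∈ I, ∀ l ∈ I, k ≠ l → ∀ g : ℕ, 0 < g → g ≤ m₀ → ¬ Ig g (jInv (τ k)) (jInv (τ l))) →
      ∃ (r : ℕ) (s : Shp n (Fin (r + 1))) (v : VD n) (G T W : ℝ) (y : ℕ), r < n ∧ s.N = N ∧
        s.e = e ∧ s.I = I ∧ v.τ = τ ∧ v.D = D ∧ G₀ ≤ G ∧ thr (BB n) X * Real.log X ≤ W ∧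
        s.Ok6 v L G T W a m₀ y := by
  refine ⟨6 * A + 6, fun G₀ => ?_⟩
  obtain ⟨Z₀, hP⟩ := pool6 A
  obtain ⟨X₀, hX₀⟩ := yta_large (2 * (3 * (n + n ^ 2 + 1)))
    (30 * (A + 1) * (|G₀| + 100) + |Z₀| + 16 * n + 56) (2 * N ^ 3)
  refine ⟨X₀, fun τ D I k₀ d L X m₀ hD hbig hf hk₀ hmin hXd hX hM hlow hL hno => ?_⟩
  obtain ⟨hl0, hlK, hXN⟩ := hX₀ X hX
  have hpos : ∀ k, (0 : ℝ) < -(D k : ℝ) := fun k => by
    have : (D k : ℝ) < -576 := by exact_mod_cast hbig k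
    linarith
  have hmax : ∀ k ∈ I, Real.log (-(D k : ℝ)) ≤ X := fun k hk => by
    rw [hXd]
    refine Real.log_le_log (hpos k) ?_
    have : (D k₀ : ℝ) ≤ D k := by exact_mod_cast hmin k hk
    linarith
  have hA0 : (0 : ℝ) ≤ A := Nat.cast_nonneg A
  have hn0 : (0 : ℝ) ≤ n := Nat.cast_nonneg n
  have hX0 : 0 ≤ X := le_trans (by positivity) hXN
  have hthr : thr (BB n) X = X / (Real.log X ^ 3) ^ (n + n ^ 2 + 1) / Real.log X ^ 3 := by
    unfold thr BB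
    rw [div_div, ← pow_succ, ← pow_mul]
  generalize thr (BB n) X = θ at hM hL hthr ⊢
  generalize hl : Real.log X = l at hl0 hlK hthr ⊢
  have hG0 := abs_nonneg G₀
  have hZ0' := abs_nonneg Z₀
  have hl1 : 30 * (A + 1) * (|G₀| + 100) ≤ l := by linarith
  have hl2 : 3000 * (A + 1) ≤ l := by nlinarith
  have hl3 : 3000 ≤ l := by linarith
  have hl4 : 16 * n + 56 ≤ l := by nlinarith
  have hl5 : Z₀ ≤ l := by nlinarith [le_abs_self Z₀]
  have hl6 : l ≤ l ^ 2 := by nlinarith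
  have hl7 : l ^ 2 ≤ l ^ 3 := pow_le_pow_right₀ (by linarith) (by norm_num)
  have hDX : ∀ k ∈ I, -(D k : ℝ) ≤ Real.exp X := fun k hk =>
    (Real.log_le_iff_le_exp (hpos k)).1 (hmax k hk)
  let dgm : Fin n × Fin n → ℕ := fun p => sInf {g | 0 < g ∧ Ig g (jInv (τ p.1)) (jInv (τ p.2))}
  obtain ⟨T, hT1, hT2, hT3⟩ := window6 (n + n ^ 2) hX0 (u := l ^ 3) (by linarith)
    (I.image (fun k => Real.log (-(D k : ℝ))) ∪ univ.image fun p => Real.log (dgm p)) (by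
    refine (card_union_le _ _).trans (Nat.add_le_add (card_image_le.trans ?_) (card_image_le.trans ?_))
    · simpa using card_le_univ I
    · simp [sq])
  obtain ⟨hTl, hXT⟩ : l ≤ T ∧ X ≤ T ^ 2 := by
    have h1 : l ^ 3 ≤ (l ^ 3) ^ (n + n ^ 2 + 1) :=
      le_self_pow₀ (by linarith) (Nat.succ_ne_zero _)
    rw [mul_comm 2, pow_mul, pow_mul] at hlK
    generalize (l ^ 3) ^ (n + n ^ 2 + 1) = K at h1 hlK hT1
    have h2 : 0 < K := by linarith
    have h3 : K ≤ T := le_trans (by rw [le_div_iff₀ h2]; nlinarith) hT1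
    rw [div_le_iff₀ h2] at hT1
    exact ⟨by linarith, by nlinarith⟩
  have hT0 : 0 < T := by linarith
  have hθ : θ * l ^ 3 ≤ T := by
    rw [hthr, div_mul_cancel₀ _ (by positivity)]
    exact hT1
  have hθ0 : 0 ≤ θ := by rw [hthr]; positivity
  have hθ1 : θ * l ≤ T := le_trans (mul_le_mul_of_nonneg_left (by linarith) hθ0) hθ
  have hθ2 : 2 * θ ≤ T := by nlinarith
  have hT4 : 4 * T ≤ T * l ^ 3 := by nlinarith
  let J := I.filter fun k => T < Real.log (-(D k : ℝ))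
  have hk₀J : k₀ ∈ J := mem_filter.2 ⟨hk₀, by rw [← hXd]; linarith⟩
  have hJI : J ⊆ I := filter_subset _ _
  obtain ⟨r, cr, bs, dg, hr, c1, c2, c3, c4⟩ := clusters (fun k => jInv (τ k)) J ⟨k₀, hk₀J⟩
    (u := Real.exp T) (w := Real.exp (T * l ^ 3 / 2)) (Real.one_le_exp (by linarith))
    (by
      rw [← Real.exp_nat_mul, Real.exp_le_exp]
      push_cast
      linarith)
    (fun k _ k' _ g hg hw hI => by
      have h1 : dgm (k, k') ∈ {g | 0 < g ∧ Ig g (jInv (τ k)) (jInv (τ k'))} :=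
        Nat.sInf_mem ⟨g, hg, hI⟩
      have h2 : dgm (k, k') ≤ g := Nat.sInf_le ⟨hg, hI⟩
      have h3 : (0 : ℝ) < dgm (k, k') := by exact_mod_cast h1.1
      refine ⟨_, h1.1, (Real.log_le_iff_le_exp h3).1 ?_, h1.2⟩
      refine (hT3 _ (mem_union_right _ (mem_image_of_mem _ (mem_univ (k, k'))))).resolve_right ?_
      have h4 := (Real.log_le_iff_le_exp h3).2 (le_trans (by exact_mod_cast h2) hw)
      exact not_le.2 (by linarith))
  choose! f hf using hf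
  have hf0 : ∀ k ∈ I, 0 < (f k).natAbs := fun k hk => Int.natAbs_pos.2 fun e => by
    have := hbig k
    rw [hf k hk, e] at this
    simp at this
  have hd0 : d < 0 := by
    have := hbig k₀
    rw [hf k₀ hk₀] at this
    by_contra hc
    have := mul_nonneg (sq_nonneg (f k₀)) (not_lt.1 hc)
    omega
  have hdc : -(d.natAbs : ℤ) = d := by omega
  have habs : ∀ k ∈ I, ((f k).natAbs : ℝ) ^ 2 * d.natAbs ≤ Real.exp X := fun k hk => by
    have h1 : (((f k).natAbs : ℤ) ^ 2 * d.natAbs : ℤ) = -D k := by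
      rw [hf k hk, Int.natAbs_sq]
      linear_combination -(f k ^ 2) * hdc
    have h2 : ((f k).natAbs : ℝ) ^ 2 * d.natAbs = -(D k : ℝ) := by
      have h3 := congrArg (Int.cast : ℤ → ℝ) h1
      simpa only [Int.cast_mul, Int.cast_pow, Int.cast_natCast, Int.cast_neg] using h3
    exact h2 ▸ hDX k hk
  have hd1 : (1 : ℝ) ≤ d.natAbs := by exact_mod_cast Int.natAbs_pos.2 hd0.ne
  have hdX : (d.natAbs : ℝ) ≤ Real.exp X := by
    have h1 : (1 : ℝ) ≤ (f k₀).natAbs := by exact_mod_cast hf0 k₀ hk₀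
    exact le_trans (le_mul_of_one_le_left (by linarith) (one_le_pow₀ h1)) (habs k₀ hk₀)
  have hZT : T ≤ T * l := le_mul_of_one_le_right hT0.le (by linarith)
  obtain ⟨y, y1, y2, y3⟩ := hP (T * l) d.natAbs (by linarith)
    (fun t ht => hM t (by linarith))
  obtain ⟨F, hF⟩ : ∃ F : ℕ, F = ∏ k ∈ I, (f k).natAbs := ⟨_, rfl⟩
  obtain ⟨E, hE⟩ : ∃ E : ℤ, E = ((N * F : ℕ) : ℤ) ^ 2 * d := ⟨_, rfl⟩
  have hfit : ∀ k ∈ I, Fit E (N ^ 2 * D k) := fun k hk => by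
    refine ⟨∏ l ∈ I.erase k, (f l).natAbs, prod_pos fun l hl => hf0 l (mem_of_mem_erase hl), ?_⟩
    rw [hE, hF, ← mul_prod_erase I _ hk, hf k hk, ← Int.natAbs_sq (f k)]
    generalize ∏ l ∈ I.erase k, (f l).natAbs = G
    push_cast
    ring
  obtain ⟨hEI, hEb⟩ : IsD E ∧ E < -576 := by
    obtain ⟨g, hg, e⟩ := (hfit k₀ hk₀).trans (fit_sq hN _)
    rw [e]
    refine ⟨galA2_isD (hD k₀).isD hg, ?_⟩
    have h1 : (1 : ℤ) ≤ (g : ℤ) ^ 2 := one_le_pow₀ (by exact_mod_cast hg)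
    have h2 := mul_le_mul_of_nonpos_right h1 (by linarith [hbig k₀] : D k₀ ≤ 0)
    linarith [hbig k₀]
  obtain ⟨dd, hdd⟩ : ∃ dd : ℕ, dd = ∏ k ∈ J, dg k := ⟨_, rfl⟩
  have hdd0 : 0 < dd := hdd ▸ prod_pos fun k hk => (c3 k hk).1
  have he1 : 1 ≤ Real.exp X := Real.one_le_exp hX0
  have hprod : ∀ (S : Finset (Fin n)) (g : Fin n → ℝ), (∀ k ∈ S, 0 ≤ g k ∧ g k ≤ Real.exp X) →
      ∏ k ∈ S, g k ≤ Real.exp X ^ n := fun S g hg => by
    refine (prod_le_prod (fun k hk => (hg k hk).1) fun k hk => (hg k hk).2).trans ?_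
    rw [prod_const]
    exact pow_le_pow_right₀ he1 (by simpa using card_le_univ S)
  have hZ : (((2 * N * E * dd : ℤ).natAbs : ℕ) : ℝ) ≤ Real.exp ((2 * n + 2) * X) := by
    have h1 : (F : ℝ) ^ 2 ≤ Real.exp X ^ n := by
      rw [hF]
      push_cast
      rw [← prod_pow]
      refine hprod _ _ fun k hk => ⟨sq_nonneg _, le_trans ?_ (habs k hk)⟩
      exact le_mul_of_one_le_right (sq_nonneg _) hd1
    have h2 : (dd : ℝ) ≤ Real.exp X ^ n := by
      rw [hdd]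
      push_cast
      exact hprod _ _ fun k hk => ⟨Nat.cast_nonneg _,
        (c3 k hk).2.1.trans (Real.exp_le_exp.2 (by linarith))⟩
    have h3 : 2 * (N : ℝ) ^ 3 ≤ Real.exp X := hXN.trans (by linarith [Real.add_one_le_exp X])
    have h4 : (2 * N * E * dd : ℤ).natAbs = 2 * N ^ 3 * (F ^ 2 * (d.natAbs * dd)) := by
      rw [hE]
      simp only [Int.natAbs_mul, Int.natAbs_pow, Int.natAbs_natCast, Int.reduceAbs]
      ring
    have h5 : Real.exp ((2 * n + 2) * X) =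
        Real.exp X * (Real.exp X ^ n * (Real.exp X * Real.exp X ^ n)) := by
      rw [show (2 * n + 2 : ℝ) = ((2 * n + 2 : ℕ) : ℝ) by push_cast; ring, Real.exp_nat_mul]
      ring
    rw [h4, h5]
    simp only [Nat.cast_mul, Nat.cast_pow, Nat.cast_ofNat]
    gcongr
  have hZ0 : (2 * N * E * dd : ℤ) ≠ 0 := by
    have h1 : E ≠ 0 := by omega
    positivity
  have hy0 : (0 : ℝ) < y := by
    rcases Nat.eq_zero_or_pos y with h | h
    · rw [h, Nat.cast_zero, Real.log_zero] at y1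
      linarith
    · exact_mod_cast h
  have hy3 : 3 ≤ y := by
    have h1 := Real.log_le_sub_one_of_pos hy0
    have : (3 : ℝ) ≤ y := by linarith
    exact_mod_cast this
  have hyX : Real.log y ≤ X := by
    have h1 : (3 * A + 3) * (T * l) ≤ l ^ 2 * (T * l) :=
      mul_le_mul_of_nonneg_right (by linarith) (by linarith)
    have h2 : l ^ 2 * (T * l) = T * l ^ 3 := by ring
    linarith
  have hy1 : 1 ≤ Real.log y := by linarith
  obtain ⟨M, m3, m4⟩ := exists_two_pow (one_le_pow₀ (n := 3) hy1)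
  have hM5 : (M : ℝ) ≤ 5 * l := by
    have h1 : (2 : ℝ) ^ M ≤ 2 * X ^ 3 :=
      m4.trans (mul_le_mul_of_nonneg_left (pow_le_pow_left₀ (by linarith) hyX 3) (by norm_num))
    have h2 := Real.log_le_log (by positivity) h1
    have hXp : 0 < X := by linarith
    rw [Real.log_pow, Real.log_mul (by norm_num) (by positivity), Real.log_pow, hl] at h2
    have h3 := Real.log_two_gt_d9
    have h4 := Real.log_two_lt_d9
    have h5 : (M : ℝ) * 0.69 ≤ M * Real.log 2 :=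
      mul_le_mul_of_nonneg_left (by linarith) (Nat.cast_nonneg M)
    push_cast at h2
    linarith
  generalize hQ : ({p ∈ Ioc y (2 * y) | p.Prime ∧ jacobiSym (-(d.natAbs : ℤ)) p = 1} : Finset ℕ) = Q
    at y3
  have hQ' : ∀ p ∈ Q, p.Prime ∧ y < p ∧ p ≤ 2 * y ∧ jacobiSym d p = 1 := fun p hp => by
    rw [← hQ, mem_filter, mem_Ioc, hdc] at hp
    exact ⟨hp.2.1, hp.1.1, hp.1.2, hp.2.2⟩
  have hbad := xta_bad hZ0 hZ (Q.filter fun p => (p : ℤ) ∣ 2 * N * E * dd) fun p hp => by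
    obtain ⟨h1, h2⟩ := mem_filter.1 hp
    exact ⟨(hQ' p h1).1, by have := (hQ' p h1).2.1; omega, h2⟩
  have hsum := card_filter_add_card_filter_not (s := Q) fun p : ℕ => (p : ℤ) ∣ 2 * N * E * dd
  generalize hG : (Q.filter fun p : ℕ => ¬ (p : ℤ) ∣ 2 * N * E * dd) = G at hsum
  have hG' : ∀ p ∈ G, p ∈ Q ∧ ¬ (p : ℤ) ∣ 2 * N * E * dd := fun p hp => by
    rw [← hG] at hp
    exact mem_filter.1 hp
  have hGX : Real.exp (T * l / 2) + M ≤ #G := by
    have h1 : (#(Q.filter fun p : ℕ => (p : ℤ) ∣ 2 * N * E * dd) : ℝ) + #G = #Q := by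
      exact_mod_cast hsum
    have h2 := yta_exp (n := n) hn0 hX0 hXT (by linarith) hl4
    have h3 : l ≤ X := by linarith
    linarith
  have hcard : M ≤ #G := by
    have : (M : ℝ) ≤ #G := by linarith [Real.exp_pos (T * l / 2)]
    exact_mod_cast this
  obtain ⟨j⟩ := Function.Embedding.nonempty_of_card_le (α := Fin M) (β := ↥G) (by
    rw [Fintype.card_fin, Fintype.card_coe]
    exact hcard)
  obtain ⟨lp, hlG, hli⟩ : ∃ lp : Fin M → ℕ, (∀ i, lp i ∈ G) ∧ Function.Injective lp :=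
    ⟨fun i => (j i).1, fun i => (j i).2, fun i i' e => j.injective (Subtype.ext e)⟩
  have hsub : univ.image lp ⊆ G := fun p hp => by
    obtain ⟨i, -, rfl⟩ := mem_image.1 hp
    exact hlG i
  have hPc : Real.exp (T * l / 2) ≤ #(G \ univ.image lp) := by
    have h1 := card_sdiff_add_card_eq_card hsub
    rw [card_image_of_injective _ hli, card_univ, Fintype.card_fin] at h1
    have h2 : (#(G \ univ.image lp) : ℝ) + M = #G := by exact_mod_cast h1
    linarith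
  obtain ⟨b, hb⟩ := exists_root hEI G (fun p hp => by
    obtain ⟨h1, h2⟩ := hG' p hp
    obtain ⟨h3, h4, -, h5⟩ := hQ' p h1
    refine ⟨h3, by omega, ?_⟩
    rw [hE, jacobiSym.mul_left, h5, mul_one]
    refine jacobiSym.sq_one' ?_
    rw [Int.gcd_natCast_natCast]
    refine ((Nat.Prime.coprime_iff_not_dvd h3).2 fun h6 => h2 ?_).symm
    refine Dvd.dvd.mul_right (Dvd.dvd.mul_left ?_ _) _
    rw [hE, sq]
    exact ((Int.natCast_dvd_natCast.2 h6).mul_right _).mul_right _) (2 * e)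
  rw [prod_pow] at hb
  have hdv : ∀ W : ℕ, W ∣ (∏ p ∈ G, p) ^ (2 * e) → (4 * W : ℤ) ∣ b ^ 2 - E :=
    fun W h => (mul_dvd_mul_left 4 (Int.natCast_dvd_natCast.2 h)).trans hb
  have hPm : ∀ p ∈ G, p.Prime ∧ y < p ∧ p ≤ 2 * y ∧ ¬ (p : ℤ) ∣ 2 * N * E * (∏ k ∈ J, dg k : ℕ) :=
    fun p hp => by
      obtain ⟨h1, h2⟩ := hG' p hp
      obtain ⟨h3, h4, h5, -⟩ := hQ' p h1
      exact ⟨h3, h4, h5, hdd ▸ h2⟩
  have hA1 : (0 : ℝ) < 30 * (A + 1) := by positivity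
  have hg1 : |G₀| + 100 ≤ l / (30 * (A + 1)) := by
    rw [le_div_iff₀ hA1]; linarith
  have hg2 : l / (30 * (A + 1)) ≤ l := div_le_self (by linarith) (by linarith)
  refine ⟨r, ⟨N, e, I, J, cr, bs, hJI, c1, c2⟩,
    ⟨τ, D, dg, E, b, G \ univ.image lp, M, lp, lp, 0⟩, l / (30 * (A + 1)), T, T * l ^ 3 / 2, y,
    hr, rfl, rfl, rfl, rfl, rfl, by linarith [le_abs_self G₀], by linarith, hN, he, by linarith,
    by linarith, ?_, ?_, m3, m4, hD, hbig, hEb, fun k hk => hfit k (hJI hk),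
    fun k hk => hlow k (hJI hk), hL.trans (Real.exp_le_exp.2 hθ2), fun k hk => ?_,
    fun k hk => ⟨?_, ?_⟩, c3, c4, fun k hk k' hk' => hno k (hJI hk) k' (hJI hk'),
    fun q hq => hPm q (mem_sdiff.1 hq).1,
    fun i => ⟨hPm _ (hlG i), fun h => (mem_sdiff.1 h).2 (mem_image_of_mem _ (mem_univ i))⟩, hli,
    hdv _ ?_, ?_, ?_⟩
  · have h1 := mul_le_mul_of_nonneg_right hg2 hT0.le
    linarith
  · have h1 : l / (30 * (A + 1)) * M * Real.log y ≤
        l / (30 * (A + 1)) * (5 * l) * ((3 * A + 3) * (T * l)) := by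
      have h2 : 0 ≤ l / (30 * (A + 1)) := by linarith
      exact mul_le_mul (mul_le_mul_of_nonneg_left hM5 h2) y2 (by linarith) (by positivity)
    refine h1.trans (le_of_eq ?_)
    field_simp
    ring
  · obtain ⟨h1, h2⟩ := mem_sdiff.1 hk
    exact (Real.log_le_iff_le_exp (hpos k)).1 (not_lt.1 fun h => h2 (mem_filter.2 ⟨h1, h⟩))
  · refine (Real.le_log_iff_exp_le (hpos k)).1 ?_
    have h1 := (hT3 _ (mem_union_left _ (mem_image_of_mem _ (hJI hk)))).resolve_left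
      (not_le.2 (mem_filter.1 hk).2)
    exact le_trans (by linarith) h1
  · refine (hmax k (hJI hk)).trans ?_
    rw [← Real.log_le_iff_le_exp (by linarith), hl]
    exact hTl
  · exact (prod_dvd_prod_of_subset _ _ _ sdiff_subset).trans (dvd_pow_self _ (by omega))
  · have h1 := hdv ((∏ i, lp i) ^ (2 * e)) (pow_dvd_pow_of_dvd (by
      have h2 : ∏ p ∈ univ.image lp, p = ∏ i, lp i := prod_image fun i _ i' _ h => hli h
      rw [← h2]
      exact prod_dvd_prod_of_subset _ _ _ hsub) _)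
    rwa [Nat.cast_pow] at h1
  · have h1 : (y : ℝ) ≤ (#(G \ univ.image lp) : ℝ) ^ (6 * A + 6) := by
      refine ((Real.log_le_iff_le_exp hy0).1 y2).trans (le_trans (le_of_eq ?_)
        (pow_le_pow_left₀ (Real.exp_pos _).le hPc _))
      rw [← Real.exp_nat_mul]
      congr 1
      push_cast
      ring
    exact_mod_cast h1

end Pool.Agent.EQ
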