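import Pool.Agent.P.MP_ad7a55_nt.YTa
import Pool.Agent.P.MP_ad7a55_nt.YDg
import Pool.Agent.P.MP_ad7a55_nt.XTb
import Pool.Agent.P.MP_ad7a55_nt.VI3

/-! One step of the induction at large primes. -/

set_option autoImplicit false

noncomputable section

open MeasureTheory Topology Filter UpperHalfPlane Finset
open scoped MatrixGroups BoundedContinuousFunction Matrix Classical

namespace Pool.Agent.EQ

/-- The conditions on the largest discriminant. -/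
def Sc (B A : ℕ) (Uf Yf : ℝ → ℝ) (D : ℤ) : Prop :=
  ∃ (d f : ℤ) (L : ℝ), Squarefree d ∧ D = f ^ 2 * d ∧
    ManyT A d.natAbs (thr B (Real.log (-(D : ℝ)))) ∧ Low L D ∧
    |L| ≤ Real.exp (2 * thr B (Real.log (-(D : ℝ)))) ∧ ∀ g : ℤ,
      Real.exp (thr B (Real.log (-(D : ℝ))) * Real.log (Real.log (-(D : ℝ)))) ≤
        -((g ^ 2 * d : ℤ) : ℝ) → Tg Uf Yf (g ^ 2 * d)

/-- One step is possible when the largest discriminant satisfies `Q`. -/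
def GoodQ (n : ℕ) (Q : ℤ → Prop) : Prop :=
  ∀ N : ℕ, 0 < N → ∀ (F : IntermediateField ℚ ℂ) [FiniteDimensional ℚ F] (𝒰 : Ultrafilter ℕ)
    (τ : ℕ → Fin n → ℍ) (D : ℕ → Fin n → ℤ) (I : Finset (Fin n)) (φ : Fin n → (ℍ →ᵇ ℝ))
    (ψ : ℕ → (Fin n × Fn → ℂ) → ℝ), Cls 𝒰 τ D I → (∀ k, Tc N F (φ k)) → (∀ k, ‖φ k‖ ≤ 1 / 2) →
    (∀ᶠ i in 𝒰, Oth I (D i) (ψ i)) → (∀ i z, |ψ i z| ≤ 1) → ∀ k₀ ∈ I,
    (∀ᶠ i in 𝒰, (∀ k ∈ I, D i k₀ ≤ D i k) ∧ Q (D i k₀)) → StepN 𝒰 N F τ φ I ψ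

variable {n N : ℕ}

theorem fin_top6 (hN : 0 < N) (F : IntermediateField ℚ ℂ) [FiniteDimensional ℚ F]
    (φ : Fin n → (ℍ →ᵇ ℝ)) (hφ : ∀ k, Tc N F (φ k)) (hb : ∀ k, ‖φ k‖ ≤ 1 / 2) (A : ℕ)
    (Uf Yf : ℝ → ℝ) (hU : ∀ δ, 1 ≤ Uf δ) {θ : ℝ} (hθ : 0 < θ) : ∃ (m₀ : ℕ) (X₀ : ℝ),
    ∀ (τ : Fin n → ℍ) (D : Fin n → ℤ) (I : Finset (Fin n)) (k₀ : Fin n)
      (ψ : (Fin n × Fn → ℂ) → ℝ), (∀ k, HasDisc (τ k) (D k)) → (∀ k, D k < -576) → k₀ ∈ I →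
      (∀ k ∈ I, D k₀ ≤ D k ∧ IsSquare (D k₀ * D k)) → X₀ ≤ -(D k₀ : ℝ) →
      Sc (BB n) A Uf Yf (D k₀) →
      (∀ k ∈ I, ∀ l ∈ I, k ≠ l → ∀ g : ℕ, 0 < g → g ≤ m₀ → ¬ Ig g (jInv (τ k)) (jInv (τ l))) →
      Oth I D ψ → (∀ z, |ψ z| ≤ 1) → ∃ J ⊆ I, J.Nonempty ∧ |avg (ON N F τ) fun z => ψ z *
        (PT N F φ I z - (∏ k ∈ J, IN N (φ k)) * PT N F φ (I \ J) z)| ≤ θ := by
  obtain ⟨e, he, hm⟩ := fin_main6 hN F n
  obtain ⟨a, ha⟩ := exists_setup6 n N e A hN he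
  have key : ∀ r : Fin n, ∀ᶠ m : ℕ in atTop,
      ∀ s ∈ {s : Shp n (Fin (r + 1)) | s.N = N ∧ s.e = e}, ∀ (v : VD n) (L G T W : ℝ) (y : ℕ)
        (ψ : (Fin n × Fn → ℂ) → ℝ), (m : ℝ) ≤ G → s.Ok6 v L G T W a m y →
        (∀ k ∈ s.J, Tg Uf Yf (v.D k)) → Oth s.I v.D ψ →
        (∀ z, |ψ z| ≤ 1) → |avg (ON N F v.τ) fun z => ψ z *
          (PT N F φ s.I z - (∏ k ∈ s.J, IN N (φ k)) * PT N F φ (s.I \ s.J) z)| ≤ θ := by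
    intro r
    have hf : {s : Shp n (Fin (r + 1)) | s.N = N ∧ s.e = e}.Finite := by
      refine Set.Finite.of_injOn (f := fun s => (s.I, s.J, s.cr, s.bs)) (Set.mapsTo_univ _ _) ?_
        Set.finite_univ
      rintro ⟨N1, e1, I1, J1, c1, b1, _, _, _⟩ ⟨rfl, rfl⟩ ⟨N2, e2, I2, J2, c2, b2, _, _, _⟩ ⟨h1, h2⟩ h
      simp only [Prod.mk.injEq] at h h1 h2
      obtain ⟨rfl, rfl, rfl, rfl⟩ := h
      subst h1 h2
      rfl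
    refine (eventually_all_finite hf).2 fun s hs => ?_
    obtain ⟨m₀, G₀, h⟩ := hm φ hφ hb _ s hs.1 hs.2 Uf Yf hU θ a hθ
    filter_upwards [eventually_ge_atTop m₀,
      tendsto_natCast_atTop_atTop.eventually (eventually_ge_atTop G₀)]
      with m h1 h2 v L G T W y ψ h3 h4
    exact h v L G T W y ψ (h2.trans h3)
      { h4 with noi := fun k hk l hl hkl d hd hd' => h4.noi k hk l hl hkl d hd (hd'.trans h1) }
  obtain ⟨m, hm'⟩ := (eventually_all.2 key).exists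
  obtain ⟨X₀, hX⟩ := ha m
  refine ⟨m, Real.exp X₀, fun τ D I k₀ ψ h1 h2 h3 h4 h5 h6 h7 h8 h9 => ?_⟩
  obtain ⟨d, f, L, hd, e', hM, hL, hLe, hT⟩ := h6
  have hne : ∀ k, D k ≠ 0 := fun k => by linarith [h2 k] |> ne_of_lt
  have hf0 : f ≠ 0 := by
    rintro rfl
    exact hne k₀ (by rw [e']; simp)
  have sh : ∀ k ∈ I, ∃ g : ℤ, D k = g ^ 2 * d := fun k hk =>
    tlow_shape hd hf0 (by rw [← e']; exact (h4 k hk).2)
  have lw : ∀ k ∈ I, Low L (D k) := fun k hk =>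
    hL.of_sq (hne k₀) (by rw [mul_comm]; exact (h4 k hk).2) (hne k)
  have hX0 : X₀ ≤ Real.log (-(D k₀ : ℝ)) :=
    (Real.le_log_iff_exp_le ((Real.exp_pos _).trans_le h5)).2 h5
  obtain ⟨r, s, v, G, T, W, y, hr, g1, g2, rfl, rfl, rfl, g3, g4, g5⟩ :=
    hX τ D I k₀ d L _ m h1 h2 sh h3 (fun k hk => (h4 k hk).1) rfl hX0 hM lw hLe h7
  refine ⟨s.J, s.sub, ⟨_, s.mem 0⟩,
    hm' ⟨r, hr⟩ s ⟨g1, g2⟩ v L G T W y ψ g3 g5 (fun k hk => ?_) h8 h9⟩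
  obtain ⟨g, hg⟩ := sh k (s.sub hk)
  rw [hg]
  refine hT g ?_
  rw [← hg]
  exact (Real.exp_le_exp.2 g4).trans (g5.large k hk).1

theorem goodQ_Sc (n A : ℕ) {Uf Yf : ℝ → ℝ} (hU : ∀ δ, 1 ≤ Uf δ) :
    GoodQ n (Sc (BB n) A Uf Yf) := by
  intro N hN F _ 𝒰 τ D I φ ψ hC hφ hb ho hψ k₀ hk₀ h
  have key : ∀ j : ℕ, ∃ J : Finset (Fin n), ∀ᶠ i in 𝒰, J ⊆ I ∧ J.Nonempty ∧
      |avg (ON N F (τ i)) fun z => ψ i z *
        (PT N F φ I z - (∏ k ∈ J, IN N (φ k)) * PT N F φ (I \ J) z)| ≤ 1 / ((j : ℝ) + 1) := by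
    intro j
    obtain ⟨m₀, X₀, hf⟩ := fin_top6 hN F φ hφ hb A Uf Yf hU (θ := 1 / ((j : ℝ) + 1))
      (by positivity)
    have noi : ∀ᶠ i in 𝒰, ∀ k ∈ I, ∀ l ∈ I, ∀ g ∈ Icc 1 m₀, k ≠ l →
        ¬ Ig g (jInv (τ i k)) (jInv (τ i l)) := by
      refine (eventually_all_finset I).2 fun k hk => (eventually_all_finset I).2 fun l hl =>
        (eventually_all_finset _).2 fun g hg => ?_
      by_cases hkl : k = l
      · exact Eventually.of_forall fun i h' => (h' hkl).elim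
      · have hg' : 0 < g := (mem_Icc.1 hg).1
        filter_upwards [hC.noi k hk l hl hkl g hg'] with i hi _ h'
        exact hi (RingEquiv.refl ℂ) (h'.isog hg')
    refine Ultrafilter.eventually_exists_iff.1 ?_
    filter_upwards [h, hC.big, hC.sq, hC.inf X₀, noi, ho] with i h1 h2 h3 h4 h5 h6
    exact hf (τ i) (D i) I k₀ (ψ i) (hC.disc i) h2 hk₀
      (fun k hk => ⟨h1.1 k hk, h3 k₀ hk₀ k hk⟩) (h4 k₀ hk₀) h1.2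
      (fun k hk l hl hkl g g1 g2 => h5 k hk l hl g (mem_Icc.2 ⟨g1, g2⟩) hkl) h6 (hψ i)
  choose Jf hJ using key
  obtain ⟨J, hinf⟩ := Finite.exists_infinite_fiber Jf
  have hinf' : (Jf ⁻¹' {J}).Infinite := Set.infinite_coe_iff.1 hinf
  obtain ⟨j₀, hj₀⟩ := hinf'.nonempty
  obtain ⟨i₀, hi₀⟩ := (hJ j₀).exists
  rw [show Jf j₀ = J from hj₀] at hi₀
  refine ⟨J, hi₀.1, hi₀.2.1, Metric.tendsto_nhds.2 fun ε hε => ?_⟩
  obtain ⟨j₁, hj₁⟩ := exists_nat_one_div_lt hε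
  obtain ⟨j, hj, hlt⟩ := hinf'.exists_gt j₁
  filter_upwards [hJ j] with i hi
  rw [show Jf j = J from hj] at hi
  rw [Real.dist_eq, sub_zero]
  refine hi.2.2.trans_lt (lt_of_le_of_lt ?_ hj₁)
  have : (j₁ : ℝ) ≤ j := by exact_mod_cast hlt.le
  exact one_div_le_one_div_of_le (by positivity) (by linarith)

theorem GoodQ.mono {Q Q' : ℤ → Prop} (h : GoodQ n Q) {Y : ℝ}
    (hQ : ∀ D : ℤ, Y ≤ -(D : ℝ) → Q' D → Q D) : GoodQ n Q' := by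
  intro N hN F _ 𝒰 τ D I φ ψ hC hφ hb ho hψ k₀ hk₀ h'
  refine h N hN F 𝒰 τ D I φ ψ hC hφ hb ho hψ k₀ hk₀ ?_
  filter_upwards [h', hC.inf Y] with i h1 h2
  exact ⟨h1.1, hQ _ (h2 k₀ hk₀) h1.2⟩

theorem ytb_clsA (hN : 0 < N) {F : IntermediateField ℚ ℂ} [FiniteDimensional ℚ F]
    {𝒰 : Ultrafilter ℕ} (h𝒰 : (𝒰 : Filter ℕ) ≤ atTop) {τ : ℕ → Fin n → ℍ} {D : ℕ → Fin n → ℤ}
    {φ : Fin n → (ℍ →ᵇ ℝ)} {J : Finset (Fin n)} {ψ : ℕ → (Fin n × Fn → ℂ) → ℝ}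
    (hC : Cls 𝒰 τ D J) (hφ : ∀ k, Tst N F (φ k)) (hψ : WtN 𝒰 D J ψ) (S : Finset ℕ)
    (hS : ∀ p ∈ S, p.Prime) {η : ℝ} (hη : 0 < η) {j₀ : Fin n} (hj₀ : j₀ ∈ J)
    (h0 : ∀ᶠ i in 𝒰, ∀ k ∈ J, -(D i k : ℝ) ≤ -(D i j₀ : ℝ))
    (hA : ∀ᶠ i in 𝒰, |(D i j₀ : ℝ)| ^ η ≤ ∏ p ∈ S, (p : ℝ) ^ padicValInt p (D i j₀)) :
    StepN 𝒰 N F τ φ J ψ := by
  have hneg : ∀ i k, D i k < 0 := fun i k => (hC.disc i k).isD.1
  have hJ : J.Nonempty := ⟨j₀, hj₀⟩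
  have hSne : S.Nonempty := by
    rcases S.eq_empty_or_nonempty with rfl | h
    · obtain ⟨i, h1, h2⟩ := (hA.and (hC.inf 2)).exists
      rw [Finset.prod_empty] at h1
      have h3 : 1 < |(D i j₀ : ℝ)| := by linarith [h2 j₀ hj₀, neg_le_abs (D i j₀ : ℝ)]
      exact absurd (Real.one_lt_rpow h3 hη) (not_lt.2 h1)
    · exact h
  have hSc : (0 : ℝ) < S.card := by exact_mod_cast hSne.card_pos
  obtain ⟨p, hp, h1⟩ := ultra_max 𝒰 hSne fun i p => (p : ℝ) ^ padicValInt p (D i j₀)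
  obtain ⟨j, hj, h2⟩ := ultra_max 𝒰 hJ fun i k => padicValInt p (D i k)
  have : Fact p.Prime := ⟨hS p hp⟩
  have hp1 : (1 : ℝ) < p := by exact_mod_cast (hS p hp).one_lt
  refine stepU_a hN h𝒰 hC hφ hψ p hj h2 (div_pos hη hSc) ?_
  filter_upwards [h0, h1, h2, hA] with i h0 h1 h2 h3 k hk
  have h4 : (D i j₀ : ℝ) < 0 := by exact_mod_cast hneg i j₀
  have h5 : (D i k : ℝ) < 0 := by exact_mod_cast hneg i k
  have h6 : (-(D i k : ℝ)) ^ η ≤ ((p : ℝ) ^ padicValInt p (D i j)) ^ S.card := by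
    refine (Real.rpow_le_rpow (by linarith) (h0 k hk) hη.le).trans ?_
    rw [← abs_of_neg h4]
    refine h3.trans ?_
    rw [← Finset.prod_const]
    exact Finset.prod_le_prod (fun _ _ => by positivity) fun q hq =>
      (h1 q hq).trans (pow_le_pow_right₀ hp1.le (h2 j₀ hj₀))
  have h7 : (-(D i k : ℝ)) ^ (η / S.card) ≤ (p : ℝ) ^ padicValInt p (D i j) := by
    rw [div_eq_mul_inv, Real.rpow_mul (by linarith)]
    refine (Real.rpow_le_rpow (Real.rpow_nonneg (by linarith) _) h6 (by positivity)).trans ?_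
    rw [Real.pow_rpow_inv_natCast (by positivity) hSne.card_pos.ne']
  rw [norm_int_eq p (hneg i j).ne, zpow_neg, zpow_natCast, Real.rpow_neg (by linarith)]
  exact inv_anti₀ (Real.rpow_pos_of_pos (by linarith) _) h7

theorem clsQ {Q : ℤ → Prop} (hQ : GoodQ n Q) (hN : 0 < N) {F : IntermediateField ℚ ℂ}
    [FiniteDimensional ℚ F] {𝒰 : Ultrafilter ℕ} (h𝒰 : (𝒰 : Filter ℕ) ≤ atTop)
    {τ : ℕ → Fin n → ℍ} {D : ℕ → Fin n → ℤ} {φ : Fin n → (ℍ →ᵇ ℝ)} {I : Finset (Fin n)}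
    {ψ : ℕ → (Fin n × Fn → ℂ) → ℝ} (hC : Cls 𝒰 τ D I) (hφ : ∀ k, Tc N F (φ k))
    (hψ : WtN 𝒰 D I ψ) (S : Finset ℕ) (hS : ∀ p ∈ S, p.Prime) {η : ℝ} (hη : 0 < η)
    (hdom : ∀ k ∈ I, ∀ᶠ i in 𝒰,
      |(D i k : ℝ)| ^ η ≤ ∏ p ∈ S, (p : ℝ) ^ padicValInt p (D i k) ∨ Q (D i k)) :
    Eqd 𝒰 N F τ φ I ψ := by
  obtain ⟨B, hB⟩ := hψ.bd
  have hS0 : 0 ≤ ∑ k, ‖φ k‖ := Finset.sum_nonneg fun _ _ => norm_nonneg _
  have hu : 0 < 1 / (2 * (∑ k, ‖φ k‖ + 1)) := by positivity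
  have hw : 0 < 1 / (|B| + 1) := by positivity
  have a1 : ∀ k, Tc N F ((1 / (2 * (∑ k, ‖φ k‖ + 1))) • φ k) := fun k => by
    refine ⟨fun γ hγ t => ?_, ?_⟩
    · simp only [BoundedContinuousFunction.coe_smul, (hφ k).1 γ hγ t]
    · obtain ⟨K, hK, hK'⟩ := (hφ k).2
      refine ⟨K, hK, fun t ht => hK' t fun h0 => ht ?_⟩
      simp only [BoundedContinuousFunction.coe_smul, h0, smul_zero]
  have a2 : ∀ k, ‖(1 / (2 * (∑ k, ‖φ k‖ + 1))) • φ k‖ ≤ 1 / 2 := fun k => by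
    have h1 : ‖φ k‖ ≤ ∑ k, ‖φ k‖ :=
      Finset.single_le_sum (f := fun k => ‖φ k‖) (fun _ _ => norm_nonneg _) (mem_univ k)
    rw [norm_smul, Real.norm_of_nonneg hu.le, one_div, inv_mul_le_iff₀ (by positivity)]
    linarith
  have a3 : ∀ᶠ i in 𝒰, Oth I (D i) fun z => 1 / (|B| + 1) * ψ i z := by
    filter_upwards [hψ.oth] with i hi z z' hz
    exact congrArg (fun t => 1 / (|B| + 1) * t) (hi z z' hz)
  have a4 : ∀ i z, |1 / (|B| + 1) * ψ i z| ≤ 1 := fun i z => by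
    rw [abs_mul, abs_of_pos hw, one_div, inv_mul_le_iff₀ (by positivity)]
    linarith [hB i z, le_abs_self B]
  refine Eqd.scale hu.ne' hw.ne' (eqd_of_step fun J hJ hne => ?_)
  obtain ⟨j₀, hj₀, h0⟩ := ultra_max 𝒰 hne fun i k => -(D i k : ℝ)
  rcases Ultrafilter.eventually_or.1 (hdom j₀ (hJ hj₀)) with hA | hq
  · exact ytb_clsA hN h𝒰 (hC.mono hJ) (fun k => (a1 k).1)
      ⟨a3.mono fun _ a => a.mono hJ, 1, a4⟩ S hS hη hj₀ h0 hA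
  · refine hQ N hN F 𝒰 τ D J _ _ (hC.mono hJ) a1 a2 (a3.mono fun _ a => a.mono hJ) a4 j₀ hj₀ ?_
    filter_upwards [h0, hq] with i b1 b2
    refine ⟨fun k hk => ?_, b2⟩
    have := neg_le_neg_iff.1 (b1 k hk)
    exact_mod_cast this

end Pool.Agent.EQ
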