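import Pool.Agent.P.MP_ad7a55_nt.YGc

/-! Counting walks in the tree. -/

set_option autoImplicit false

noncomputable section

open Finset Matrix
open scoped MatrixGroups Classical

namespace Pool.Agent.EQ

/-- The matrix of a walk. -/
def wk (ρ : Set V2 → M2) : (i : ℕ) → (Fin i → Set V2) → M2
  | 0, _ => 1
  | i + 1, t => wk ρ i (Fin.tail t) * ρ (t 0)

/-- The walks of length `i`. -/
def WK (n i : ℕ) : Finset (Fin i → Set V2) := Fintype.piFinset fun _ => Xn n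

/-- The bound for pairs of walks. -/
def PB (a i w : ℕ) (H n Q ε : ℝ) : ℝ :=
  (2 * (a + 1)) ^ (2 * i) * (a * i + 1) ^ 3 * (4 * H ^ 2 + 1) ^ 4 * 2 ^ w *
    (2 * H ^ 2 * n ^ i) ^ ε * ((2 * H ^ 2 * n ^ i) ^ 2 / Q ^ 3 + 3 * (2 * H ^ 2 * n ^ i))

variable {l a n : ℕ} {ρ : Set V2 → M2}

theorem yua_mem {i : ℕ} {t : Fin (i + 1) → Set V2} (ht : t ∈ WK n (i + 1)) :
    t 0 ∈ Xn n ∧ Fin.tail t ∈ WK n i :=
  ⟨Fintype.mem_piFinset.1 ht 0, Fintype.mem_piFinset.2 fun j => Fintype.mem_piFinset.1 ht j.succ⟩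

theorem wk_det (h : ∀ L ∈ Xn n, (ρ L).det = n) (i : ℕ) {t : Fin i → Set V2} (ht : t ∈ WK n i) :
    (wk ρ i t).det = (n : ℤ) ^ i := by
  induction i with
  | zero => simp [wk]
  | succ i ih => rw [wk, Matrix.det_mul, ih (yua_mem ht).2, h _ (yua_mem ht).1, pow_succ]

theorem wk_Cg {M : ℕ} {s : ℤ} (h : ∀ L ∈ Xn n, Cg M (ρ L) s) (i : ℕ) {t : Fin i → Set V2}
    (ht : t ∈ WK n i) : Cg M (wk ρ i t) (s ^ i) := by
  induction i with
  | zero => exact xla_cg.2 ⟨0, by simp [wk]⟩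
  | succ i ih =>
    rw [wk, pow_succ]
    exact (ih (yua_mem ht).2).mul (h _ (yua_mem ht).1)

theorem mn_WK (n i : ℕ) (G : (Fin (i + 1) → Set V2) → ℝ) :
    mn (WK n (i + 1)) G = mn (Xn n) fun L => mn (WK n i) fun t => G (Fin.cons L t) := by
  have h1 : ∑ z ∈ WK n (i + 1), G z = ∑ z ∈ Xn n ×ˢ WK n i, G (Fin.cons z.1 z.2) := by
    refine Finset.sum_bij' (fun t _ => (t 0, Fin.tail t)) (fun z _ => Fin.cons z.1 z.2)
      (fun t ht => mem_product.2 (yua_mem ht)) (fun z hz => ?_) (fun t _ => Fin.cons_self_tail t)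
      (fun z _ => by simp) fun t _ => by rw [Fin.cons_self_tail]
    refine Fintype.mem_piFinset.2 fun j => ?_
    refine Fin.cases ?_ (fun j => ?_) j
    · exact (mem_product.1 hz).1
    · exact Fintype.mem_piFinset.1 (mem_product.1 hz).2 j
  have h2 : ∀ k, #(WK n k) = #(Xn n) ^ k := fun k => by simp [WK]
  unfold mn
  rw [h1, Finset.sum_product, ← Finset.sum_div, div_div, h2, h2, pow_succ, Nat.cast_mul]

theorem yua_res (hl : l.Prime) {b s : ℕ} (hs : s ≤ b) {α β : ℤ}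
    (h : ¬ (l : ℤ) ∣ α ∨ ¬ (l : ℤ) ∣ β) :
    #((range (l ^ b)).filter fun t : ℕ => ((l ^ s : ℕ) : ℤ) ∣ α + β * t) ≤ l ^ (b - s) := by
  have hp : Prime (l : ℤ) := Nat.prime_iff_prime_int.1 hl
  have hpos : 0 < l ^ s := pow_pos hl.pos s
  rw [← card_range (l ^ (b - s))]
  refine card_le_card_of_injOn (fun t => t / l ^ s) (fun t ht => ?_) fun t ht t' ht' e => ?_
  · have h1 := mem_range.1 (mem_filter.1 ht).1
    refine mem_coe.2 (mem_range.2 ((Nat.div_lt_iff_lt_mul hpos).2 ?_))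
    rwa [← pow_add, Nat.sub_add_cancel hs]
  · have h1 := (mem_filter.1 ht).2
    have h2 := (mem_filter.1 ht').2
    have h3 : ((l ^ s : ℕ) : ℤ) ∣ (t' : ℤ) - t := by
      rcases Nat.eq_zero_or_pos s with rfl | h0
      · simp
      · have h4 : ¬ (l : ℤ) ∣ β := fun h4 => by
          have h5 : (l : ℤ) ∣ α + β * t :=
            (Int.natCast_dvd_natCast.2 (dvd_pow_self l h0.ne')).trans h1
          exact h.elim (fun h6 => h6 ((dvd_add_left (h4.mul_right _)).1 h5)) fun h6 => h6 h4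
        have h5 : IsCoprime ((l ^ s : ℕ) : ℤ) β := by
          push_cast
          exact ((hp.irreducible.coprime_iff_not_dvd).2 h4).pow_left
        refine h5.dvd_of_dvd_mul_left ?_
        have h6 := h2.sub h1
        rwa [add_sub_add_left_eq_sub, ← mul_sub] at h6
    have h4 : t % l ^ s = t' % l ^ s := (Nat.modEq_iff_dvd).2 h3
    have e' : t / l ^ s = t' / l ^ s := e
    rw [← Nat.div_add_mod t (l ^ s), e', h4, Nat.div_add_mod]

theorem line_count (hl : l.Prime) {b s : ℕ} (hs : s ≤ b) {Γ : M2} (hΓ : ¬ Dv l Γ) :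
    #{L ∈ Xn (l ^ b) | L ⊆ Ker (l ^ s) Γ} ≤ 2 * l ^ (b - s) := by
  have hn : 0 < l ^ b := pow_pos hl.pos b
  have hp : Prime (l : ℤ) := Nat.prime_iff_prime_int.1 hl
  obtain ⟨i, hi⟩ : ∃ i, ¬ (l : ℤ) ∣ Γ i 0 ∨ ¬ (l : ℤ) ∣ Γ i 1 := by
    by_contra hc
    push Not at hc
    exact hΓ fun i => Fin.forall_fin_two.2 (hc i)
  have hsub : {L ∈ Xn (l ^ b) | L ⊆ Ker (l ^ s) Γ} ⊆
      (((range (l ^ b)).filter fun t : ℕ => ((l ^ s : ℕ) : ℤ) ∣ Γ i 0 + Γ i 1 * t).image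
        fun t : ℕ => Ln (l ^ b) ![1, (t : ℤ)]) ∪
      ((range (l ^ b)).filter fun t : ℕ => ((l ^ s : ℕ) : ℤ) ∣ Γ i 1 + Γ i 0 * t).image
        fun t : ℕ => Ln (l ^ b) ![(t : ℤ), 1] := by
    intro L hL
    obtain ⟨hL, hK⟩ := mem_filter.1 hL
    obtain ⟨v, hv, rfl⟩ := (mem_Xn hn).1 hL
    by_cases h0 : (l : ℤ) ∣ v 0
    · have h1 : ¬ (l : ℤ) ∣ v 1 := fun h1 => hp.not_isUnit (hv.isUnit_of_dvd' h0 h1)
      obtain ⟨t, ht, x, hx⟩ := xlb_solve hn (a := v 1) (by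
        push_cast
        exact ((hp.irreducible.coprime_iff_not_dvd).2 h1).symm.pow_right) (v 0)
      have hm : (![(t : ℤ), 1] : V2) ∈ Ln (l ^ b) v := xlb_mem.2 ⟨-x, by
        simp only [Matrix.cons_val_zero, Matrix.cons_val_one]
        linear_combination -hx⟩
      refine mem_union_right _ (mem_image.2 ⟨t, mem_filter.2 ⟨mem_range.2 ht, ?_⟩,
        ((xlb_of_cop _ hv).eq (xlb_of_cop _ (by simpa using isCoprime_one_right)) hm).symm⟩)
      have h2 := hK hm i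
      rw [xlb_mv] at h2
      simpa [add_comm] using h2
    · obtain ⟨t, ht, x, hx⟩ := xlb_solve hn (a := v 0) (by
        push_cast
        exact ((hp.irreducible.coprime_iff_not_dvd).2 h0).symm.pow_right) (v 1)
      have hm : (![1, (t : ℤ)] : V2) ∈ Ln (l ^ b) v := xlb_mem.2 ⟨x, by
        simp only [Matrix.cons_val_zero, Matrix.cons_val_one]
        linear_combination hx⟩
      refine mem_union_left _ (mem_image.2 ⟨t, mem_filter.2 ⟨mem_range.2 ht, ?_⟩,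
        ((xlb_of_cop _ hv).eq (xlb_of_cop _ (by simpa using isCoprime_one_left)) hm).symm⟩)
      have h2 := hK hm i
      rw [xlb_mv] at h2
      simpa using h2
  refine (card_le_card hsub).trans ((card_union_le _ _).trans ?_)
  rw [two_mul]
  exact add_le_add (card_image_le.trans (yua_res hl hs hi))
    (card_image_le.trans (yua_res hl hs hi.symm))

/-- Entrywise quotient. -/
def yua_dv (m : ℕ) (g : M2) : M2 := Matrix.of fun i j => g i j / m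

theorem yua_smul {m : ℕ} {g : M2} (h : Dv m g) : (m : ℤ) • yua_dv m g = g := by
  ext i j
  exact Int.mul_ediv_cancel' (h i j)

theorem yua_cont {j : ℕ} {γ : M2} (h : ¬ Dv (l ^ (j + 1)) γ) :
    ∃ k ≤ j, Dv (l ^ k) γ ∧ ¬ Dv (l ^ (k + 1)) γ := by
  induction j with
  | zero => exact ⟨0, le_rfl, fun i j => by simp, h⟩
  | succ j ih =>
    by_cases h1 : Dv (l ^ (j + 1)) γ
    · exact ⟨j + 1, le_rfl, h1, h⟩
    · obtain ⟨k, hk, h2⟩ := ih h1
      exact ⟨k, hk.trans (Nat.le_succ j), h2⟩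

theorem yua_mulr {m : ℕ} {g : M2} (h : Dv m g) (g' : M2) : Dv m (g * g') := by
  obtain ⟨Y, rfl⟩ := xla_ex.1 h
  exact xla_ex.2 ⟨Y * g', smul_mul_assoc _ _ _⟩

theorem yua_mull {m : ℕ} {g : M2} (h : Dv m g) (g' : M2) : Dv m (g' * g) := by
  obtain ⟨Y, rfl⟩ := xla_ex.1 h
  exact xla_ex.2 ⟨g' * Y, mul_smul_comm _ _ _⟩

theorem yua_canc (hl : l.Prime) {u k : ℕ} {g : M2}
    (h : Dv (l ^ (u + k)) (((l ^ u : ℕ) : ℤ) • g)) : Dv (l ^ k) g := fun i j => by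
  have h1 := h i j
  rw [pow_add, Nat.cast_mul, Matrix.smul_apply, smul_eq_mul] at h1
  exact (mul_dvd_mul_iff_left (by exact_mod_cast (pow_pos hl.pos u).ne')).1 h1

theorem yua_up {u k : ℕ} {g : M2} (h : Dv (l ^ k) g) :
    Dv (l ^ (u + k)) (((l ^ u : ℕ) : ℤ) • g) := fun i j => by
  rw [pow_add, Nat.cast_mul, Matrix.smul_apply, smul_eq_mul]
  exact mul_dvd_mul_left _ (h i j)

theorem yua_mono {u k : ℕ} (hk : u ≤ k) {g : M2} (h : Dv (l ^ k) g) : Dv (l ^ u) g := fun i j =>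
  (Int.natCast_dvd_natCast.2 (pow_dvd_pow l hk)).trans (h i j)

theorem yua_prim {k : ℕ} {g : M2} (h : Dv (l ^ k) g) (h' : ¬ Dv (l ^ (k + 1)) g) :
    ¬ Dv l (yua_dv (l ^ k) g) := fun h1 => h' (by
  rw [← yua_smul h]
  exact yua_up (by rwa [pow_one]))

theorem yua_sub {m : ℕ} {g r : M2} (hn : 0 < n) (hr : r.det = n) (h : Dv m (g * r.adjugate)) :
    Ker n r ⊆ Ker m g := by
  intro v hv i
  obtain ⟨w, rfl⟩ := (mem_Ker_adj hn hr).1 hv
  rw [Matrix.mulVec_mulVec, xlb_mv]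
  exact ((h i 0).mul_right _).add ((h i 1).mul_right _)

theorem yua_inv (δ : SL(2, ℤ)) (g : M2) : ((δ⁻¹ : SL(2, ℤ)) : M2) * ((δ : M2) * g) = g := by
  rw [← mul_assoc, ← Matrix.SpecialLinearGroup.coe_mul, inv_mul_cancel,
    Matrix.SpecialLinearGroup.coe_one, one_mul]

theorem walk_count (hl : l.Prime)
    (h : ∀ L ∈ Xn (l ^ a), (ρ L).det = (l ^ a : ℕ) ∧ Ker (l ^ a) (ρ L) = L) (i j : ℕ) {γ : M2}
    (hγ : ¬ Dv (l ^ (j + 1)) γ) :
    #{t ∈ WK (l ^ a) i | ∃ δ : SL(2, ℤ), wk ρ i t = (δ : M2) * γ} ≤ (2 * (a + 1)) ^ i * l ^ j := by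
  have hn : 0 < l ^ a := pow_pos hl.pos a
  have hn' : ((l ^ a : ℕ) : ℤ) ≠ 0 := by exact_mod_cast hn.ne'
  induction i generalizing j γ with
  | zero =>
    refine (card_filter_le _ _).trans ?_
    rw [pow_zero, one_mul]
    simpa [WK] using Nat.one_le_pow j l hl.pos
  | succ i ih =>
    obtain ⟨k, hk, h1, h2⟩ := yua_cont hγ
    let g : Set V2 → M2 := fun L => yua_dv (l ^ a) (γ * (ρ L).adjugate)
    let A : ℕ → Finset (Set V2) := fun d => {L ∈ Xn (l ^ a) |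
      L ⊆ Ker (l ^ (a - d)) (yua_dv (l ^ k) γ) ∧ d ≤ k ∧ ¬ Dv (l ^ (k - d + 1)) (g L)}
    let B : Set V2 → Finset (Fin (i + 1) → Set V2) := fun L =>
      {t ∈ WK (l ^ a) i | ∃ δ : SL(2, ℤ), wk ρ i t = (δ : M2) * g L}.image fun t => Fin.cons L t
    have hsub : {t ∈ WK (l ^ a) (i + 1) | ∃ δ : SL(2, ℤ), wk ρ (i + 1) t = (δ : M2) * γ} ⊆
        (range (a + 1)).biUnion fun d => (A d).biUnion B := by
      intro t ht
      obtain ⟨ht, δ, e⟩ := mem_filter.1 ht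
      obtain ⟨hL, ht'⟩ := yua_mem ht
      obtain ⟨hd, hK⟩ := h _ hL
      rw [wk] at e
      have e1 : γ = ((δ⁻¹ : SL(2, ℤ)) : M2) * wk ρ i (Fin.tail t) * ρ (t 0) := by
        rw [mul_assoc, e, yua_inv]
      have e2 : γ * (ρ (t 0)).adjugate =
          ((l ^ a : ℕ) : ℤ) • (((δ⁻¹ : SL(2, ℤ)) : M2) * wk ρ i (Fin.tail t)) := by
        rw [e1, mul_assoc, Matrix.mul_adjugate, hd, mul_smul_comm, mul_one]
      have e3 : g (t 0) = ((δ⁻¹ : SL(2, ℤ)) : M2) * wk ρ i (Fin.tail t) :=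
        xla_cancel hn' ((yua_smul (xla_ex.2 ⟨_, e2⟩)).trans e2)
      rw [← e3] at e1 e2
      obtain ⟨c, hc, h3, h4⟩ := yua_cont (l := l) (j := k) (γ := g (t 0)) fun h5 =>
        h2 (e1 ▸ yua_mulr h5 _)
      have h5 : k ≤ a + c := by
        by_contra h6
        refine h4 (yua_canc hl (u := a) ?_)
        rw [← e2]
        exact yua_mono (by omega) (yua_mulr h1 _)
      refine mem_biUnion.2 ⟨k - c, mem_range.2 (by omega), mem_biUnion.2 ⟨t 0,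
        mem_filter.2 ⟨hL, ?_, Nat.sub_le _ _, by rwa [Nat.sub_sub_self hc]⟩, mem_image.2
          ⟨Fin.tail t, mem_filter.2 ⟨ht', δ, ?_⟩, Fin.cons_self_tail t⟩⟩⟩
      · rw [← hK]
        refine yua_sub hn hd (yua_canc hl (u := k) ?_)
        rw [← smul_mul_assoc, yua_smul h1, e2, show k + (a - (k - c)) = a + c by omega]
        exact yua_up h3
      · rw [e3]
        simpa using (yua_inv δ⁻¹ (wk ρ i (Fin.tail t))).symm
    have hd : ∀ d ∈ range (a + 1), #((A d).biUnion B) ≤ 2 * ((2 * (a + 1)) ^ i * l ^ j) := by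
      intro d hd
      have hd' : d ≤ a := Nat.lt_succ_iff.1 (mem_range.1 hd)
      by_cases hdk : d ≤ k
      · have h3 : #(A d) ≤ 2 * l ^ d := by
          have h4 := line_count hl (Nat.sub_le a d) (yua_prim h1 h2)
          rw [Nat.sub_sub_self hd'] at h4
          exact (card_le_card fun L hL =>
            mem_filter.2 ⟨(mem_filter.1 hL).1, (mem_filter.1 hL).2.1⟩).trans h4
        have h4 := card_biUnion_le_card_mul (A d) B _ fun L hL =>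
          card_image_le.trans (ih (k - d) (mem_filter.1 hL).2.2.2)
        refine h4.trans ((Nat.mul_le_mul_right _ h3).trans ?_)
        have h5 : l ^ d * l ^ (k - d) ≤ l ^ j := by
          rw [← pow_add]
          exact Nat.pow_le_pow_right hl.pos (by omega)
        calc 2 * l ^ d * ((2 * (a + 1)) ^ i * l ^ (k - d))
            = 2 * ((2 * (a + 1)) ^ i * (l ^ d * l ^ (k - d))) := by ring
          _ ≤ _ := by gcongr
      · have h3 : A d = ∅ := filter_eq_empty_iff.2 fun L _ hL => hdk hL.2.1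
        simp [h3]
    refine (card_le_card hsub).trans ((card_biUnion_le_card_mul _ _ _ hd).trans (le_of_eq ?_))
    rw [card_range]
    ring

theorem yua_fib {α β : Type} [DecidableEq β] (s : Finset α) (f : α → β) {c d : ℝ} (hc : 0 ≤ c)
    (h1 : ∀ x₀ ∈ s, (#{x ∈ s | f x = f x₀} : ℝ) ≤ c) (h2 : (#(s.image f) : ℝ) ≤ d) :
    (#s : ℝ) ≤ c * d := by
  rw [card_eq_sum_card_image f s, Nat.cast_sum]
  refine (sum_le_card_nsmul _ _ c fun y hy => ?_).trans ?_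
  · obtain ⟨x, hx, rfl⟩ := mem_image.1 hy
    exact h1 x hx
  · rw [nsmul_eq_mul, mul_comm]
    exact mul_le_mul_of_nonneg_left h2 hc

theorem yua_adj (g : M2) : g.adjugate.adjugate = g := by
  rw [Matrix.adjugate_adjugate' g]
  simp

theorem yua_ent (g : M2) (i j : Fin 2) : ∃ i' j', g.adjugate i j = g i' j' ∨
    g.adjugate i j = -g i' j' := by
  rw [Matrix.adjugate_fin_two]
  fin_cases i <;> fin_cases j
  · exact ⟨1, 1, Or.inl rfl⟩
  · exact ⟨0, 1, Or.inr rfl⟩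
  · exact ⟨1, 0, Or.inr rfl⟩
  · exact ⟨0, 0, Or.inl rfl⟩

theorem yua_dadj {m : ℕ} {g : M2} (h : Dv m g) : Dv m g.adjugate := fun i j => by
  obtain ⟨i', j', e | e⟩ := yua_ent g i j
  · exact e ▸ h i' j'
  · exact e ▸ (h i' j').neg_right

theorem yua_badj {c : ℝ} {g : M2} (h : ∀ i j, |(g i j : ℝ)| ≤ c) (i j : Fin 2) :
    |(g.adjugate i j : ℝ)| ≤ c := by
  obtain ⟨i', j', e | e⟩ := yua_ent g i j
  · exact e ▸ h i' j'
  · rw [e, Int.cast_neg, abs_neg]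
    exact h i' j'

theorem yua_eta (hl : l.Prime) {b e : ℕ} {H : ℝ} {X : M2} (hX : ¬ Dv l X) (E : Finset M2)
    (h : ∀ g ∈ E, g.det = (l ^ b : ℕ) ∧ ¬ Dv l g ∧ Dv (l ^ (b - e)) (X * g) ∧
      ∀ i j, |(g i j : ℝ)| ≤ H * Real.sqrt (l ^ b : ℕ)) :
    (#E : ℝ) ≤ (4 * H ^ 2 + 1) ^ 4 * (2 * l ^ e) := by
  have hn : 0 < l ^ b := pow_pos hl.pos b
  refine yua_fib E (fun g => Ker (l ^ b) g.adjugate) (by positivity) (fun g₀ _ => ?_) ?_
  · rw [← card_image_of_injective _ (Function.LeftInverse.injective yua_adj)]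
    refine card_bdd hn (Ker (l ^ b) g₀.adjugate) _ fun g' hg' => ?_
    obtain ⟨g, hg, rfl⟩ := mem_image.1 hg'
    obtain ⟨hg, e⟩ := mem_filter.1 hg
    exact ⟨(xla_det_adj g).trans (h g hg).1, e, yua_badj (h g hg).2.2.2⟩
  · have h1 : E.image (fun g => Ker (l ^ b) g.adjugate) ⊆
        {L ∈ Xn (l ^ b) | L ⊆ Ker (l ^ (b - e)) X} := by
      intro L hL
      obtain ⟨g, hg, rfl⟩ := mem_image.1 hL
      obtain ⟨h1, h2, h3, -⟩ := h g hg
      have h4 := (xla_det_adj g).trans h1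
      refine mem_filter.2 ⟨(mem_Xn hn).2 (isLn_Ker_prim hn h4 fun l' hl' hd h5 => h2 ?_),
        yua_sub hn h4 (by rwa [yua_adj])⟩
      rw [← (Nat.prime_dvd_prime_iff_eq hl' hl).1 (hl'.dvd_of_dvd_pow hd), ← yua_adj g]
      exact yua_dadj h5
    have h2 := (card_le_card h1).trans (line_count hl (Nat.sub_le b e) hX)
    have h3 : l ^ (b - (b - e)) ≤ l ^ e := Nat.pow_le_pow_right hl.pos (by omega)
    exact_mod_cast h2.trans (Nat.mul_le_mul_left 2 h3)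

theorem yua_det {k A : ℕ} (hl : l.Prime) {g : M2} (hd : g.det = (l ^ A : ℕ)) (h : Dv (l ^ k) g) :
    2 * k ≤ A ∧ (yua_dv (l ^ k) g).det = (l ^ (A - 2 * k) : ℕ) := by
  have h1 : ((l ^ (2 * k) : ℕ) : ℤ) * (yua_dv (l ^ k) g).det = (l ^ A : ℕ) := by
    rw [← hd]
    conv_rhs => rw [← yua_smul h, Matrix.det_smul, Fintype.card_fin]
    rw [pow_mul', Nat.cast_pow]
  have h2 : 2 * k ≤ A :=
    (Nat.pow_dvd_pow_iff_le_right hl.one_lt).1 (Int.natCast_dvd_natCast.1 ⟨_, h1.symm⟩)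
  refine ⟨h2, mul_left_cancel₀ (a := ((l ^ (2 * k) : ℕ) : ℤ))
    (by exact_mod_cast (pow_pos hl.pos _).ne') ?_⟩
  rw [h1, ← Nat.cast_mul, ← pow_add, Nat.add_sub_cancel' h2]

theorem yua_bdv {m : ℕ} (hm : 0 < m) {c : ℝ} {g : M2} (h : Dv m g)
    (hb : ∀ i j, |(g i j : ℝ)| ≤ m * c) (i j : Fin 2) : |(yua_dv m g i j : ℝ)| ≤ c := by
  have h1 := hb i j
  have hm' : (0 : ℝ) < m := by exact_mod_cast hm
  rw [← yua_smul h, Matrix.smul_apply, smul_eq_mul, Int.cast_mul, Int.cast_natCast, abs_mul,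
    abs_of_pos hm'] at h1
  exact le_of_mul_le_mul_left h1 hm'

theorem yua_img {α : Type} {m : ℕ} (s : Finset α) (f : α → M2) (h : ∀ x ∈ s, Dv m (f x)) :
    #(s.image f) ≤ #(s.image fun x => yua_dv m (f x)) := by
  refine (card_le_card fun g hg => ?_).trans (card_image_le (f := fun g : M2 => (m : ℤ) • g))
  obtain ⟨x, hx, rfl⟩ := mem_image.1 hg
  exact mem_image.2 ⟨_, mem_image_of_mem _ hx, yua_smul (h x hx)⟩

theorem yua_fix (hl : l.Prime)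
    (h : ∀ L ∈ Xn (l ^ a), (ρ L).det = (l ^ a : ℕ) ∧ Ker (l ^ a) (ρ L) = L) {i J j j' : ℕ} {H : ℝ}
    {η : (Fin i → Set V2) → M2} {X : M2} (hX : Dv (l ^ J) X) (hX' : ¬ Dv (l ^ (J + 1)) X)
    {T : Finset (Fin i → Set V2)} (hT : T ⊆ WK (l ^ a) i)
    (hη : ∀ t ∈ T, (∃ δ : SL(2, ℤ), η t = (δ : M2) * wk ρ i t) ∧ (η t).det = (l ^ (a * i) : ℕ) ∧
      ∀ j j', |(η t j j' : ℝ)| ≤ H * Real.sqrt (l ^ (a * i) : ℕ))
    (Z : Finset ((Fin i → Set V2) × (Fin i → Set V2)))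
    (hZ : ∀ z ∈ Z, z.1 ∈ T ∧ z.2 ∈ T ∧ η z.2 * (η z.1).adjugate = X ∧ Dv (l ^ j) (η z.1) ∧
      ¬ Dv (l ^ (j + 1)) (η z.1) ∧ Dv (l ^ j') (η z.2) ∧ ¬ Dv (l ^ (j' + 1)) (η z.2)) :
    (#Z : ℝ) ≤ (2 * (a + 1)) ^ (2 * i) * (4 * H ^ 2 + 1) ^ 4 * (2 * l ^ J) := by
  rcases Z.eq_empty_or_nonempty with rfl | ⟨z₁, hz₁⟩
  · rw [card_empty, Nat.cast_zero]
    positivity
  have hN : ((l ^ (a * i) : ℕ) : ℤ) ≠ 0 := by exact_mod_cast (pow_pos hl.pos _).ne'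
  have hXη : ∀ z ∈ Z, X * η z.1 = ((l ^ (a * i) : ℕ) : ℤ) • η z.2 := fun z hz => by
    rw [← (hZ z hz).2.2.1, mul_assoc, Matrix.adjugate_mul, (hη _ (hZ z hz).1).2.1, mul_smul_comm,
      mul_one]
  have hJ : j + j' ≤ J := by
    by_contra hc
    obtain ⟨-, -, e, h1, -, h2, -⟩ := hZ z₁ hz₁
    refine hX' (yua_mono (k := j' + j) (by omega) ?_)
    rw [← e, ← yua_smul h2, smul_mul_assoc]
    exact yua_up (yua_mull (yua_dadj h1) _)
  have hw : ∀ t ∈ T, ∀ g, η t = g →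
      t ∈ {t ∈ WK (l ^ a) i | ∃ δ : SL(2, ℤ), wk ρ i t = (δ : M2) * g} := fun t ht g e => by
    obtain ⟨δ, e1⟩ := (hη t ht).1
    exact mem_filter.2 ⟨hT ht, δ⁻¹, by rw [← e, e1, yua_inv]⟩
  have key := yua_fib Z (fun z => η z.1)
    (c := (((2 * (a + 1)) ^ i * l ^ j * ((2 * (a + 1)) ^ i * l ^ j') : ℕ) : ℝ))
    (d := (4 * H ^ 2 + 1) ^ 4 * (2 * l ^ (J - j - j'))) (Nat.cast_nonneg _) (fun z₀ hz₀ => ?_) ?_
  · refine key.trans (le_of_eq ?_)
    obtain ⟨e, rfl⟩ := Nat.exists_eq_add_of_le hJ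
    rw [show j + j' + e - j - j' = e by omega]
    push_cast
    ring
  · refine Nat.cast_le.2 ((card_le_card fun z hz => ?_).trans ((card_product _ _).le.trans
      (Nat.mul_le_mul (walk_count hl h i j (hZ z₀ hz₀).2.2.2.2.1)
        (walk_count hl h i j' (hZ z₀ hz₀).2.2.2.2.2.2))))
    obtain ⟨hz, e⟩ := mem_filter.1 hz
    refine mem_product.2 ⟨hw _ (hZ z hz).1 _ e, hw _ (hZ z hz).2.1 _ (xla_cancel hN ?_)⟩
    rw [← hXη z hz, ← hXη z₀ hz₀, e]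
  · refine (Nat.cast_le.2 (yua_img (m := l ^ j) Z _ fun z hz => (hZ z hz).2.2.2.1)).trans
      (yua_eta hl (b := a * i - 2 * j) (yua_prim hX hX') _ fun g hg => ?_)
    obtain ⟨z, hz, rfl⟩ := mem_image.1 hg
    obtain ⟨h1, -, -, h2, h3, h4, -⟩ := hZ z hz
    obtain ⟨h5, h6⟩ := yua_det hl (hη _ h1).2.1 h2
    refine ⟨h6, yua_prim h2 h3, ?_, yua_bdv (pow_pos hl.pos j) h2 fun u v => ?_⟩
    · by_cases hc : a * i - 2 * j - (J - j - j') = 0
      · rw [hc]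
        exact fun _ _ => by simp
      · refine yua_canc hl (u := j) (yua_canc hl (u := J) ?_)
        rw [← mul_smul_comm, yua_smul h2, ← smul_mul_assoc, yua_smul hX, hXη z hz,
          show J + (j + (a * i - 2 * j - (J - j - j'))) = a * i + j' by omega]
        exact yua_up h4
    · refine ((hη _ h1).2.2 u v).trans (le_of_eq ?_)
      obtain ⟨b, hb⟩ := Nat.exists_eq_add_of_le h5
      rw [hb, Nat.add_sub_cancel_left, pow_add, pow_mul', Nat.cast_mul, Nat.cast_pow _ 2,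
        Real.sqrt_mul (sq_nonneg _), Real.sqrt_sq (Nat.cast_nonneg _)]
      ring

theorem yua_num {u h Q : ℝ} (hu : 1 ≤ u) (hh : u ≤ h) (hQ : 1 ≤ Q) :
    u * ((h / u / Q ^ 2 + 1) * (h / u / Q + 1)) ≤ h ^ 2 / Q ^ 3 + 3 * h := by
  have h0 : 0 ≤ h := by linarith
  have e : u * ((h / u / Q ^ 2 + 1) * (h / u / Q + 1)) =
      h ^ 2 / Q ^ 3 / u + h / Q ^ 2 + h / Q + u := by
    field_simp
    ring
  have h1 : h ^ 2 / Q ^ 3 / u ≤ h ^ 2 / Q ^ 3 := div_le_self (by positivity) hu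
  have h2 : h / Q ^ 2 ≤ h := div_le_self h0 (one_le_pow₀ hQ)
  have h3 : h / Q ≤ h := div_le_self h0 hQ
  linarith

theorem pair_count {ε : ℝ} (hε : 0 < ε) : ∃ C : ℝ, 0 < C ∧ ∀ (l a i Q : ℕ) (H : ℝ)
    (ρ : Set V2 → M2) (T : Finset (Fin i → Set V2)) (η : (Fin i → Set V2) → M2), l.Prime →
    Odd Q → ¬ l ∣ Q → 1 ≤ H →
    (∀ L ∈ Xn (l ^ a), (ρ L).det = (l ^ a : ℕ) ∧ Ker (l ^ a) (ρ L) = L) → T ⊆ WK (l ^ a) i →
    (∀ t ∈ T, (∃ δ : SL(2, ℤ), η t = (δ : M2) * wk ρ i t) ∧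
      ∀ j j', |(η t j j' : ℝ)| ≤ H * Real.sqrt ((l ^ a) ^ i : ℕ)) →
    (#{z ∈ T ×ˢ T | ∃ s : ℤ, Cg Q (η z.2 * (η z.1).adjugate) s} : ℝ) ≤
      C * PB a i #Q.primeFactors H (l ^ a : ℕ) Q ε := by
  obtain ⟨C, hC, hs⟩ := scal_gen hε
  refine ⟨2 * C, by positivity, fun l a i Q H ρ T η hl hQ hlQ hH h hT hη₀ => ?_⟩
  have hη : ∀ t ∈ T, (∃ δ : SL(2, ℤ), η t = (δ : M2) * wk ρ i t) ∧
      (η t).det = (l ^ (a * i) : ℕ) ∧
      ∀ j j', |(η t j j' : ℝ)| ≤ H * Real.sqrt (l ^ (a * i) : ℕ) := fun t ht => by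
    obtain ⟨⟨δ, e⟩, h1⟩ := hη₀ t ht
    refine ⟨⟨δ, e⟩, ?_, by rwa [pow_mul]⟩
    rw [e, Matrix.det_mul, δ.det_coe, one_mul, wk_det (fun L hL => (h L hL).1) i (hT ht), pow_mul,
      Nat.cast_pow (l ^ a)]
  set Z := {z ∈ T ×ˢ T | ∃ s : ℤ, Cg Q (η z.2 * (η z.1).adjugate) s} with hZ
  set Hh : ℝ := 2 * H ^ 2 * ((l ^ a : ℕ) : ℝ) ^ i with hHh
  have hHh' : Hh = 2 * H ^ 2 * (l ^ (a * i) : ℕ) := by rw [hHh, pow_mul, Nat.cast_pow (l ^ a)]
  have hQ1 : (1 : ℝ) ≤ Q := by exact_mod_cast hQ.pos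
  have hl1 : (1 : ℝ) ≤ l := by exact_mod_cast hl.pos
  have hdX : ∀ z ∈ Z, (η z.2 * (η z.1).adjugate).det = (l ^ (2 * (a * i)) : ℕ) := fun z hz => by
    obtain ⟨h1, h2⟩ := mem_product.1 (mem_filter.1 hz).1
    rw [Matrix.det_mul, xla_det_adj, (hη _ h1).2.1, (hη _ h2).2.1, two_mul, pow_add, Nat.cast_mul]
  let Y : ℕ × ℕ × ℕ → Finset ((Fin i → Set V2) × (Fin i → Set V2)) := fun κ => {z ∈ Z |
    (Dv (l ^ κ.1) (η z.2 * (η z.1).adjugate) ∧ ¬ Dv (l ^ (κ.1 + 1)) (η z.2 * (η z.1).adjugate)) ∧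
    Dv (l ^ κ.2.1) (η z.1) ∧ ¬ Dv (l ^ (κ.2.1 + 1)) (η z.1) ∧
    Dv (l ^ κ.2.2) (η z.2) ∧ ¬ Dv (l ^ (κ.2.2 + 1)) (η z.2)}
  let R := range (a * i + 1) ×ˢ range (a * i + 1) ×ˢ range (a * i + 1)
  have hsub : Z ⊆ R.biUnion Y := by
    intro z hz
    obtain ⟨h1, h2⟩ := mem_product.1 (mem_filter.1 hz).1
    obtain ⟨J, hJ, k1⟩ := yua_cont (l := l) (j := a * i) (γ := η z.2 * (η z.1).adjugate)
      fun hc => by have := (yua_det hl (hdX z hz) hc).1; omega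
    obtain ⟨j, hj, k2⟩ := yua_cont (l := l) (j := a * i) (γ := η z.1)
      fun hc => by have := (yua_det hl (hη _ h1).2.1 hc).1; omega
    obtain ⟨j', hj', k3⟩ := yua_cont (l := l) (j := a * i) (γ := η z.2)
      fun hc => by have := (yua_det hl (hη _ h2).2.1 hc).1; omega
    exact mem_biUnion.2 ⟨(J, j, j'), mem_product.2 ⟨mem_range.2 (Nat.lt_succ_of_le hJ),
      mem_product.2 ⟨mem_range.2 (Nat.lt_succ_of_le hj), mem_range.2 (Nat.lt_succ_of_le hj')⟩⟩,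
      mem_filter.2 ⟨hz, k1, k2.1, k2.2, k3⟩⟩
  have hY : ∀ κ ∈ R, (#(Y κ) : ℝ) ≤ 2 * C * ((2 * (a + 1)) ^ (2 * i) * (4 * H ^ 2 + 1) ^ 4 *
      2 ^ #Q.primeFactors * Hh ^ ε * (Hh ^ 2 / Q ^ 3 + 3 * Hh)) := by
    rintro ⟨J, j, j'⟩ hκ
    have hJ : J ≤ a * i := Nat.lt_succ_iff.1 (mem_range.1 (mem_product.1 hκ).1)
    have hu1 : (1 : ℝ) ≤ (l : ℝ) ^ J := one_le_pow₀ hl1
    have hu0 : (0 : ℝ) < (l : ℝ) ^ J := by positivity
    have hu2 : (l : ℝ) ^ J ≤ Hh := by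
      have h1 : (l : ℝ) ^ J ≤ l ^ (a * i) := pow_le_pow_right₀ hl1 hJ
      have h2 : (1 : ℝ) ≤ 2 * H ^ 2 := by nlinarith
      rw [hHh', Nat.cast_pow]
      exact h1.trans (le_mul_of_one_le_left (by positivity) h2)
    have hu3 : 1 ≤ Hh / (l : ℝ) ^ J := (one_le_div hu0).2 hu2
    have key := yua_fib (Y (J, j, j')) (fun z => η z.2 * (η z.1).adjugate)
      (c := (2 * (a + 1)) ^ (2 * i) * (4 * H ^ 2 + 1) ^ 4 * (2 * l ^ J))
      (d := C * 2 ^ #Q.primeFactors * (Hh / l ^ J) ^ ε * (Hh / l ^ J / (Q : ℝ) ^ 2 + 1) *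
        (Hh / l ^ J / Q + 1)) (by positivity) (fun z₀ hz₀ => ?_) ?_
    · refine key.trans ?_
      have h1 : (Hh / l ^ J) ^ ε ≤ Hh ^ ε :=
        Real.rpow_le_rpow (by positivity) (div_le_self (by linarith) hu1) hε.le
      have h2 := yua_num hu1 hu2 hQ1
      have h3 : (0 : ℝ) ≤ Hh := by linarith
      calc _ = 2 * C * ((2 * (a + 1)) ^ (2 * i) * (4 * H ^ 2 + 1) ^ 4 * 2 ^ #Q.primeFactors *
            (Hh / l ^ J) ^ ε *
            (l ^ J * ((Hh / l ^ J / (Q : ℝ) ^ 2 + 1) * (Hh / l ^ J / Q + 1)))) := by ring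
        _ ≤ _ := by gcongr
    · obtain ⟨k1, k2⟩ := (mem_filter.1 hz₀).2.1
      refine yua_fix hl h (j := j) (j' := j') k1 k2 hT hη _ fun z hz => ?_
      obtain ⟨hz, e⟩ := mem_filter.1 hz
      obtain ⟨hz, -, k3⟩ := mem_filter.1 hz
      obtain ⟨h1, h2⟩ := mem_product.1 (mem_filter.1 hz).1
      exact ⟨h1, h2, e, k3⟩
    · refine (Nat.cast_le.2 (yua_img (m := l ^ J) _ _ fun z hz => (mem_filter.1 hz).2.1.1)).trans
        (hs Q (l ^ (2 * (a * i) - 2 * J)) _ _ hQ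
          ((hl.coprime_iff_not_dvd.2 hlQ).symm.pow_right _) (pow_pos hl.pos _) hu3 fun g hg => ?_)
      obtain ⟨z, hz, rfl⟩ := mem_image.1 hg
      obtain ⟨hz, ⟨k1, -⟩, -⟩ := mem_filter.1 hz
      obtain ⟨hp, s, k2⟩ := mem_filter.1 hz
      obtain ⟨h1, h2⟩ := mem_product.1 hp
      have hc : IsCoprime (Q : ℤ) ((l ^ J : ℕ) : ℤ) :=
        Nat.isCoprime_iff_coprime.2 ((hl.coprime_iff_not_dvd.2 hlQ).symm.pow_right _)
      have k3 : ∀ u v, (η z.2 * (η z.1).adjugate) u v =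
          ((l ^ J : ℕ) : ℤ) * yua_dv (l ^ J) (η z.2 * (η z.1).adjugate) u v := fun u v =>
        (congrFun (congrFun (yua_smul k1) u) v).symm
      refine ⟨(yua_det hl (hdX z hz) k1).2, yua_bdv (pow_pos hl.pos J) k1 fun u v => ?_,
        hc.dvd_of_dvd_mul_left ?_, hc.dvd_of_dvd_mul_left ?_, hc.dvd_of_dvd_mul_left ?_⟩
      · have h3 : ∀ w, |(η z.2 u w : ℝ) * ((η z.1).adjugate w v : ℤ)| ≤
            H ^ 2 * (l ^ (a * i) : ℕ) := fun w => by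
          have h4 := Real.mul_self_sqrt (Nat.cast_nonneg (α := ℝ) (l ^ (a * i)))
          rw [abs_mul]
          refine (mul_le_mul ((hη _ h2).2.2 u w) (yua_badj (hη _ h1).2.2 w v) (abs_nonneg _)
            (by positivity)).trans (le_of_eq ?_)
          linear_combination H ^ 2 * h4
        rw [Nat.cast_pow l J, mul_div_cancel₀ _ hu0.ne', hHh', Matrix.mul_apply, Fin.sum_univ_two,
          Int.cast_add, Int.cast_mul, Int.cast_mul]
        refine (abs_add_le _ _).trans ?_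
        linarith [h3 0, h3 1]
      · rw [← k3]
        simpa [Matrix.intCast_apply] using k2 0 1
      · rw [← k3]
        simpa [Matrix.intCast_apply] using k2 1 0
      · rw [mul_sub, ← k3, ← k3]
        simpa [Matrix.intCast_apply] using (k2 0 0).sub (k2 1 1)
  have h1 : (#Z : ℝ) ≤ ∑ κ ∈ R, (#(Y κ) : ℝ) := by
    exact_mod_cast (card_le_card hsub).trans card_biUnion_le
  refine h1.trans ((sum_le_card_nsmul _ _ _ hY).trans (le_of_eq ?_))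
  rw [nsmul_eq_mul, PB, ← hHh]
  simp only [R, card_product, card_range]
  push_cast
  ring

end Pool.Agent.EQ
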