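import Pool.Agent.P.MP_ad7a55_nt.XFe

/-! Convolution on a group with large representations. -/

set_option autoImplicit false
set_option linter.unusedSectionVars false

noncomputable section

open Finset
open scoped Classical

namespace Pool.Agent.EQ

section aux
variable {G : Type} [Group G] [Fintype G]

/-- convolution with a real kernel -/
def yubT (k : G → ℝ) : (G → ℂ) →ₗ[ℂ] (G → ℂ) where
  toFun F := fun g => ∑ h, (k h : ℂ) * F (h * g)
  map_add' F F' := by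
    funext g
    simp only [Pi.add_apply, mul_add, sum_add_distrib]
  map_smul' c F := by
    funext g
    simp only [Pi.smul_apply, smul_eq_mul, RingHom.id_apply, mul_sum]
    exact sum_congr rfl fun h _ => by ring

theorem yub_T (k : G → ℝ) (F : G → ℂ) (g : G) : yubT k F g = ∑ h, (k h : ℂ) * F (h * g) := rfl

theorem yub_Tr (k : G → ℝ) (F : G → ℂ) (x : G) :
    yubT k (fun g => F (g * x)) = fun g => yubT k F (g * x) := by
  funext g
  simp only [yub_T, mul_assoc]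

theorem yub_smul (c : ℂ) (F : G → ℂ) : xfeN (c • F) = ‖c‖ ^ 2 * xfeN F := by
  simp [xfeN, mul_sum, mul_pow]

theorem yub_par (F F' : G → ℂ) : xfeN (F + F') + xfeN (F - F') = 2 * xfeN F + 2 * xfeN F' := by
  simp only [xfeN, mul_sum, ← sum_add_distrib]
  refine sum_congr rfl fun x _ => ?_
  have := parallelogram_law_with_norm ℂ (F x) (F' x)
  simp only [Pi.add_apply, Pi.sub_apply]
  nlinarith

theorem yub_pos {F : G → ℂ} (h : F ≠ 0) : 0 < xfeN F :=
  lt_of_not_ge fun k => h (funext (xfe_Nz k))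

theorem yub_max (V : Submodule ℂ (G → ℂ)) (T : (G → ℂ) →ₗ[ℂ] (G → ℂ)) {f : G → ℂ} (hf : f ∈ V)
    (hf0 : f ≠ 0) : ∃ (lam : ℝ) (F0 : G → ℂ), F0 ∈ V ∧ F0 ≠ 0 ∧ xfeN (T F0) = lam * xfeN F0 ∧
      ∀ F ∈ V, xfeN (T F) ≤ lam * xfeN F := by
  have hN : Continuous (xfeN : (G → ℂ) → ℝ) := by unfold xfeN; fun_prop
  have hΦ : Continuous fun g : G → ℂ => xfeN (T g) :=
    hN.comp T.continuous_of_finiteDimensional
  have hK : IsCompact ((V : Set (G → ℂ)) ∩ {g | xfeN g = 1}) := by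
    refine Metric.isCompact_of_isClosed_isBounded
      (V.closed_of_finiteDimensional.inter (isClosed_eq hN continuous_const))
      (isBounded_iff_forall_norm_le.2 ⟨1, fun g hg => ?_⟩)
    refine (pi_norm_le_iff_of_nonneg zero_le_one).2 fun x => ?_
    have := (single_le_sum (fun x _ => sq_nonneg ‖g x‖) (mem_univ x)).trans_eq hg.2
    exact (sq_le_one_iff₀ (norm_nonneg _)).1 this
  have sc : ∀ g ∈ V, g ≠ 0 → ∃ g' ∈ (V : Set (G → ℂ)) ∩ {g | xfeN g = 1},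
      xfeN (T g') * xfeN g = xfeN (T g) := by
    intro g hg h0
    have hp := yub_pos h0
    have e : ‖(((√(xfeN g))⁻¹ : ℝ) : ℂ)‖ ^ 2 * xfeN g = 1 := by
      rw [Complex.norm_real, Real.norm_eq_abs, sq_abs, inv_pow, Real.sq_sqrt hp.le,
        inv_mul_cancel₀ hp.ne']
    refine ⟨(((√(xfeN g))⁻¹ : ℝ) : ℂ) • g, ⟨V.smul_mem _ hg, (yub_smul _ g).trans e⟩, ?_⟩
    rw [map_smul, yub_smul]
    linear_combination xfeN (T g) * e
  obtain ⟨f', hf', -⟩ := sc f hf hf0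
  obtain ⟨f0, h0, hm⟩ := hK.exists_isMaxOn ⟨f', hf'⟩ hΦ.continuousOn
  have h1 : xfeN f0 = 1 := h0.2
  refine ⟨xfeN (T f0), f0, h0.1, fun e => ?_, by rw [h1, mul_one], fun g hg => ?_⟩
  · rw [e] at h1
    simp [xfeN] at h1
  · by_cases k : g = 0
    · simp [k, xfeN]
    · obtain ⟨g', hg', e⟩ := sc g hg k
      rw [← e]
      exact mul_le_mul_of_nonneg_right (hm hg') (xfe_N0 g)

/-- the maximisers form a subspace -/
def yubE (V : Submodule ℂ (G → ℂ)) (T : (G → ℂ) →ₗ[ℂ] (G → ℂ)) (lam : ℝ)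
    (h : ∀ F ∈ V, xfeN (T F) ≤ lam * xfeN F) : Submodule ℂ (G → ℂ) where
  carrier := {F | F ∈ V ∧ xfeN (T F) = lam * xfeN F}
  zero_mem' := ⟨V.zero_mem, by simp [xfeN]⟩
  add_mem' := by
    rintro F F' ⟨h1, h2⟩ ⟨h3, h4⟩
    refine ⟨V.add_mem h1 h3, ?_⟩
    have a1 := h _ (V.add_mem h1 h3)
    have a2 := h _ (V.sub_mem h1 h3)
    have a3 := yub_par F F'
    have a4 := yub_par (T F) (T F')
    rw [← map_add, ← map_sub, h2, h4] at a4
    have a5 : lam * xfeN (F + F') + lam * xfeN (F - F') =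
        2 * (lam * xfeN F) + 2 * (lam * xfeN F') := by linear_combination lam * a3
    linarith
  smul_mem' := by
    rintro c F ⟨h1, h2⟩
    refine ⟨V.smul_mem c h1, ?_⟩
    rw [map_smul, yub_smul, yub_smul, h2]
    ring

omit [Fintype G] in
theorem yub_pow {F : G → ℂ} {x : G} {z : ℂ} (h : ∀ g, F (g * x) = z * F g) (n : ℕ) (g : G) :
    F (g * x ^ n) = z ^ n * F g := by
  induction n with
  | zero => simp
  | succ n ih => rw [pow_succ, ← mul_assoc, h, ih]; ring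

theorem yub_eig (W : Submodule ℂ (G → ℂ)) (x : G) (hW : ∀ F ∈ W, (fun g => F (g * x)) ∈ W)
    {F : G → ℂ} (hF : F ∈ W) (h0 : F ≠ 0) :
    ∃ F' ∈ W, F' ≠ 0 ∧ ∃ z : ℂ, ∀ g, F' (g * x) = z * F' g := by
  have : Nontrivial W := ⟨⟨⟨F, hF⟩, 0, fun e => h0 (congrArg Subtype.val e)⟩⟩
  let S : Module.End ℂ W := (LinearMap.funLeft ℂ ℂ fun g : G => g * x).restrict hW
  obtain ⟨z, hz⟩ := Module.End.exists_eigenvalue S
  obtain ⟨v, hv⟩ := hz.exists_hasEigenvector
  refine ⟨v.1, v.2, fun e => hv.2 (Subtype.ext e), z, fun g => ?_⟩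
  exact congrFun (congrArg Subtype.val hv.apply_eq_smul) g

/-- eigenvector with eigenvalue different from one -/
theorem yub_eig1 (W : Submodule ℂ (G → ℂ)) (x : G) (hW : ∀ F ∈ W, (fun g => F (g * x)) ∈ W)
    {n : ℕ} (hn : n ≠ 0) (hx : x ^ n = 1) {F : G → ℂ} (hF : F ∈ W) {g0 : G}
    (h0 : F (g0 * x) ≠ F g0) :
    ∃ F' ∈ W, F' ≠ 0 ∧ ∃ z : ℂ, z ≠ 1 ∧ ∀ g, F' (g * x) = z * F' g := by
  let W1 : Submodule ℂ (G → ℂ) :=
    { carrier := {F | F ∈ W ∧ ∀ g, ∑ i ∈ range n, F (g * x ^ i) = 0}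
      zero_mem' := ⟨W.zero_mem, by simp⟩
      add_mem' := by
        rintro F F' ⟨h1, h2⟩ ⟨h3, h4⟩
        refine ⟨W.add_mem h1 h3, fun g => ?_⟩
        simp only [Pi.add_apply, sum_add_distrib, h2, h4, add_zero]
      smul_mem' := by
        rintro c F ⟨h1, h2⟩
        refine ⟨W.smul_mem c h1, fun g => ?_⟩
        simp only [Pi.smul_apply, smul_eq_mul, ← mul_sum, h2, mul_zero] }
  have h1 : ∀ F ∈ W1, (fun g => F (g * x)) ∈ W1 := by
    rintro F ⟨h1, h2⟩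
    refine ⟨hW F h1, fun g => ?_⟩
    rw [← h2 (g * x)]
    refine sum_congr rfl fun i _ => ?_
    show F (g * x ^ i * x) = F (g * x * x ^ i)
    rw [mul_assoc, mul_assoc, ← pow_succ, ← pow_succ']
  have h2 : ((fun g => F (g * x)) - F) ∈ W1 := by
    refine ⟨W.sub_mem (hW F hF) hF, fun g => ?_⟩
    have := sum_range_sub (fun i => F (g * x ^ i)) n
    rw [hx, pow_zero, sub_self] at this
    rw [← this]
    exact sum_congr rfl fun i _ => by simp only [Pi.sub_apply, pow_succ, mul_assoc]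
  obtain ⟨F', hF', hne, z, hz⟩ := yub_eig W1 x h1 h2 fun e =>
    h0 (sub_eq_zero.1 (congrFun e g0))
  refine ⟨F', hF'.1, hne, z, fun e => hne (funext fun g => ?_), hz⟩
  have := hF'.2 g
  simp only [yub_pow hz, e, one_pow, one_mul, sum_const, card_range, nsmul_eq_mul] at this
  exact (mul_eq_zero.1 this).resolve_left (Nat.cast_ne_zero.2 hn)

/-- a simultaneous eigenvector with nontrivial eigenvalues -/
theorem yub_sim (A : Finset ℕ) (a : ℕ) (N : ℕ → Subgroup G) (u w : ℕ → G)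
    (hp : ∀ p ∈ A, p ≠ 0)
    (hu : ∀ p ∈ A, u p ^ p ^ a = 1 ∧ u p ∈ N p ∧ w p ∈ N p ∧
      N p ≤ Subgroup.closure {u p, w p * u p * (w p)⁻¹})
    (hc : ∀ p ∈ A, ∀ p' ∈ A, p ≠ p' → ∀ x ∈ N p, ∀ x' ∈ N p', x * x' = x' * x)
    (E : Submodule ℂ (G → ℂ)) (hE : ∀ F ∈ E, ∀ x, (fun g => F (g * x)) ∈ E)
    (hV : ∀ F ∈ E, ∀ p ∈ A, ∀ g, ∑ h with h ∈ N p, F (g * h) = 0)
    {F0 : G → ℂ} (hF0 : F0 ∈ E) (h0 : F0 ≠ 0) (B : Finset ℕ) (hB : B ⊆ A) :
    ∃ F ∈ E, F ≠ 0 ∧ ∃ z : ℕ → ℂ, ∀ p ∈ B, z p ≠ 1 ∧ ∀ g, F (g * u p) = z p * F g := by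
  induction B using Finset.induction_on with
  | empty => exact ⟨F0, hF0, h0, fun _ => 0, by simp⟩
  | insert p B hpB ih =>
    obtain ⟨F, hF, hne, z, hz⟩ := ih ((subset_insert _ _).trans hB)
    have hpA : p ∈ A := hB (mem_insert_self _ _)
    obtain ⟨u1, u2, u3, u4⟩ := hu p hpA
    let W : Submodule ℂ (G → ℂ) :=
      { carrier := {F | F ∈ E ∧ ∀ q ∈ B, ∀ g, F (g * u q) = z q * F g}
        zero_mem' := ⟨E.zero_mem, by simp⟩
        add_mem' := by
          rintro F F' ⟨h1, h2⟩ ⟨h3, h4⟩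
          refine ⟨E.add_mem h1 h3, fun q hq g => ?_⟩
          simp only [Pi.add_apply, h2 q hq, h4 q hq, mul_add]
        smul_mem' := by
          rintro c F ⟨h1, h2⟩
          refine ⟨E.smul_mem c h1, fun q hq g => ?_⟩
          simp only [Pi.smul_apply, smul_eq_mul, h2 q hq]
          ring }
    have hW : ∀ x ∈ N p, ∀ F ∈ W, (fun g => F (g * x)) ∈ W := by
      rintro x hx F ⟨h1, h2⟩
      refine ⟨hE F h1 x, fun q hq g => ?_⟩
      have hqA : q ∈ A := hB (mem_insert_of_mem hq)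
      show F (g * u q * x) = z q * F (g * x)
      rw [← h2 q hq, mul_assoc, mul_assoc,
        hc p hpA q hqA (fun e => hpB (e ▸ hq)) x hx (u q) (hu q hqA).2.1]
    have hFW : F ∈ W := ⟨hF, fun q hq => (hz q hq).2⟩
    have hex : ∃ F' ∈ W, ∃ g0, F' (g0 * u p) ≠ F' g0 := by
      by_contra hcon
      push Not at hcon
      have hfix : ∀ x ∈ Subgroup.closure {u p, w p * u p * (w p)⁻¹}, ∀ g, F (g * x) = F g := by
        intro x hx
        induction hx using Subgroup.closure_induction with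
        | mem x hx =>
          rcases hx with rfl | rfl
          · exact hcon F hFW
          · intro g
            have := hcon _ (hW _ ((N p).inv_mem u3) F hFW) (g * w p)
            simpa only [mul_assoc, mul_inv_cancel, mul_one] using this
        | one => simp
        | mul x y _ _ hx hy => intro g; rw [← mul_assoc, hy, hx]
        | inv x _ hx => intro g; rw [← hx (g * x⁻¹), inv_mul_cancel_right]
      refine hne (funext fun g => ?_)
      have h1 := hV F hF p hpA g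
      rw [sum_congr rfl fun h hh => hfix h (u4 (mem_filter.1 hh).2) g, sum_const,
        nsmul_eq_mul] at h1
      refine (mul_eq_zero.1 h1).resolve_left (Nat.cast_ne_zero.2 (card_ne_zero.2 ⟨1, ?_⟩))
      simp
    obtain ⟨F', hF', g0, hg0⟩ := hex
    obtain ⟨F2, hF2, hne2, z0, hz0, hz1⟩ :=
      yub_eig1 W (u p) (hW _ u2) (pow_ne_zero a (hp p hpA)) u1 hF' hg0
    refine ⟨F2, hF2.1, hne2, Function.update z p z0, fun q hq => ?_⟩
    rcases mem_insert.1 hq with rfl | hq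
    · rw [Function.update_self]
      exact ⟨hz0, hz1⟩
    · rw [Function.update_of_ne fun e : q = p => hpB (e ▸ hq)]
      exact ⟨(hz q hq).1, hF2.2 q hq⟩

theorem yub_orth {F F' : G → ℂ} {x : G} {z z' : ℂ} (h : ∀ g, F (g * x) = z * F g)
    (h' : ∀ g, F' (g * x) = z' * F' g) (hz : ‖z‖ = 1) (hne : z ≠ z') :
    inner ℂ (WithLp.toLp 2 F : EuclideanSpace ℂ G) (WithLp.toLp 2 F') = 0 := by
  rw [PiLp.inner_apply]
  have e := Equiv.sum_comp (Equiv.mulRight x) fun g => inner ℂ (F g) (F' g)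
  have e2 : ∀ g, inner ℂ (F (g * x)) (F' (g * x)) =
      (z' * (starRingEnd ℂ) z) * inner ℂ (F g) (F' g) := fun g => by
    rw [h, h', RCLike.inner_apply, RCLike.inner_apply, map_mul]
    ring
  simp only [Equiv.coe_mulRight, e2, ← mul_sum] at e
  by_contra hn
  have h1 := (mul_eq_right₀ hn).1 e
  have h2 : z * (starRingEnd ℂ) z = 1 := by
    rw [Complex.mul_conj', hz]; simp
  exact hne (by linear_combination z' * h2 - z * h1)

end aux

theorem yub_dist {p a s s' : ℕ} (hp : p.Prime) {z : ℂ} (h1 : z ≠ 1) (ha : z ^ p ^ a = 1)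
    (hs : s ∈ Icc 1 ((p - 1) / 2)) (hs' : s' ∈ Icc 1 ((p - 1) / 2)) (e : z ^ s ^ 2 = z ^ s' ^ 2) :
    s = s' := by
  wlog hle : s ≤ s' generalizing s s'
  · exact (this hs' hs e.symm (by omega)).symm
  have hz0 : z ≠ 0 := fun e0 => by
    rw [e0, zero_pow (pow_ne_zero a hp.ne_zero)] at ha
    exact zero_ne_one ha
  obtain ⟨d, rfl⟩ := Nat.exists_eq_add_of_le hle
  have h2 : z ^ (d * (2 * s + d)) = 1 := by
    rw [show (s + d) ^ 2 = s ^ 2 + d * (2 * s + d) by ring, pow_add] at e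
    exact (mul_eq_left₀ (pow_ne_zero _ hz0)).1 e.symm
  by_contra hne
  rw [mem_Icc] at hs hs'
  have hcop : (p ^ a).Coprime (d * (2 * s + d)) := by
    refine Nat.Coprime.pow_left a ((Nat.Prime.coprime_iff_not_dvd hp).2 fun hd => ?_)
    rcases (Nat.Prime.dvd_mul hp).1 hd with h | h
    · have := Nat.le_of_dvd (by omega) h
      omega
    · have := Nat.le_of_dvd (by omega) h
      omega
  have h3 : z ^ (p ^ a).gcd (d * (2 * s + d)) = 1 := pow_gcd_eq_one.2 ⟨ha, h2⟩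
  rw [hcop, pow_one] at h3
  exact h1 h3

theorem bnp_abs {G : Type} [Group G] [Fintype G] (A : Finset ℕ) (a : ℕ) (N : ℕ → Subgroup G)
    (u w : ℕ → G) (hp : ∀ p ∈ A, p.Prime ∧ p ≠ 2) (hN : ∀ p ∈ A, (N p).Normal)
    (hu : ∀ p ∈ A, u p ^ p ^ a = 1 ∧ u p ∈ N p ∧ w p ∈ N p ∧
      N p ≤ Subgroup.closure {u p, w p * u p * (w p)⁻¹})
    (hc : ∀ p ∈ A, ∀ p' ∈ A, p ≠ p' → ∀ x ∈ N p, ∀ x' ∈ N p', x * x' = x' * x)
    (ht : ∀ s : ℕ → ℕ, (∀ p ∈ A, ¬ p ∣ s p) → ∃ t : G, ∀ p ∈ A, t⁻¹ * u p * t = u p ^ s p ^ 2)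
    (k f : G → ℝ) (hf : ∀ p ∈ A, ∀ g, ∑ h with h ∈ N p, f (g * h) = 0) :
    (∏ p ∈ A, ((p : ℝ) - 1) / 2) * ∑ g, (∑ h, k h * f (h * g)) ^ 2 ≤
      Fintype.card G * (∑ h, k h ^ 2) * ∑ g, f g ^ 2 := by
  let V : Submodule ℂ (G → ℂ) :=
    { carrier := {F | ∀ p ∈ A, ∀ g, ∑ h with h ∈ N p, F (g * h) = 0}
      zero_mem' := by simp
      add_mem' := by
        intro F F' h1 h2 p hp g
        simp only [Pi.add_apply, sum_add_distrib, h1 p hp g, h2 p hp g, add_zero]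
      smul_mem' := by
        intro c F h1 p hp g
        simp only [Pi.smul_apply, smul_eq_mul, ← mul_sum, h1 p hp g, mul_zero] }
  have hVr : ∀ F ∈ V, ∀ x, (fun g => F (g * x)) ∈ V := by
    intro F hF x p hpA g
    rw [← hF p hpA (g * x)]
    refine sum_equiv (MulAut.conj x⁻¹).toEquiv (fun h => ?_) fun h _ => ?_
    · simp only [mem_filter, mem_univ, true_and, MulEquiv.toEquiv_eq_coe, EquivLike.coe_coe,
        MulAut.conj_apply]
      exact ((hN p hpA).mem_comm_iff.trans (by simp)).symm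
    · simp [mul_assoc]
  have hfV : (fun g => (f g : ℂ)) ∈ V := fun p hpA g => by
    show ∑ h with h ∈ N p, (f (g * h) : ℂ) = 0
    exact_mod_cast hf p hpA g
  have e1 : xfeN (fun g => (f g : ℂ)) = ∑ g, f g ^ 2 := by simp [xfeN]
  have e2 : xfeN (yubT k fun g => (f g : ℂ)) = ∑ g, (∑ h, k h * f (h * g)) ^ 2 := by
    simp only [xfeN, yub_T, ← Complex.ofReal_mul, ← Complex.ofReal_sum, Complex.norm_real,
      Real.norm_eq_abs, sq_abs]
  rw [← e1, ← e2]
  by_cases hf0 : (fun g => (f g : ℂ)) = 0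
  · rw [hf0]
    simp [xfeN]
  obtain ⟨lam, F0, hF0, h0, hl, hmax⟩ := yub_max V (yubT k) hfV hf0
  obtain ⟨F, hF, hne, z, hz⟩ := yub_sim A a N u w (fun p h => (hp p h).1.ne_zero) hu hc
    (yubE V (yubT k) lam hmax) (fun F hF x => ⟨hVr F hF.1 x, by
      rw [yub_Tr, xfe_Nr, xfe_Nr]; exact hF.2⟩) (fun F hF => hF.1) (F0 := F0) ⟨hF0, hl⟩ h0 A
    (Subset.refl _)
  have hza : ∀ p ∈ A, z p ^ p ^ a = 1 := by
    intro p hpA
    obtain ⟨g, hg⟩ := Function.ne_iff.1 hne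
    have := yub_pow (hz p hpA).2 (p ^ a) g
    rw [(hu p hpA).1, mul_one] at this
    exact (mul_eq_right₀ hg).1 this.symm
  set S : Finset (A → ℕ) := Fintype.piFinset fun p : A => Icc 1 ((p.1 - 1) / 2) with hS
  have hcard : (S.card : ℝ) = ∏ p ∈ A, ((p : ℝ) - 1) / 2 := by
    rw [hS, Fintype.card_piFinset, Nat.cast_prod, ← prod_coe_sort A]
    refine prod_congr rfl fun p _ => ?_
    obtain ⟨m, hm⟩ := (hp p.1 p.2).1.odd_of_ne_two (hp p.1 p.2).2
    rw [Nat.card_Icc, hm, show (2 * m + 1 - 1) / 2 + 1 - 1 = m by omega]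
    push_cast
    ring
  have hex : ∀ s : A → ℕ, ∃ t : G, s ∈ S → ∀ p : A, t⁻¹ * u p * t = u p ^ s p ^ 2 := by
    intro s
    by_cases hs : s ∈ S
    · obtain ⟨t, h⟩ := ht (fun p => if h : p ∈ A then s ⟨p, h⟩ else 0) fun p hpA hd => by
        rw [dif_pos hpA] at hd
        have h1 := mem_Icc.1 (Fintype.mem_piFinset.1 hs ⟨p, hpA⟩)
        have h2 := Nat.le_of_dvd (by omega) hd
        simp only at h1
        omega
      exact ⟨t, fun _ p => by rw [h p.1 p.2, dif_pos p.2]⟩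
    · exact ⟨1, fun h => absurd h hs⟩
  choose t htt using hex
  have hev : ∀ s ∈ S, ∀ p : A, ∀ g, F (g * u p * t s) = z p ^ s p ^ 2 * F (g * t s) := by
    intro s hs p g
    rw [← yub_pow (hz p.1 p.2).2, ← htt s hs p]
    simp [mul_assoc]
  have hb : ∀ x, ∑ s ∈ S, ‖yubT k F (x * t s)‖ ^ 2 ≤ xfeN F * ∑ h, k h ^ 2 := fun x => by
    have := xfe_bessel S (fun s => (WithLp.toLp 2 fun y => F (y * t s) : EuclideanSpace ℂ G))
      (fun s h s' h' hne' => by
        obtain ⟨p, hp'⟩ := Function.ne_iff.1 hne'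
        refine yub_orth (hev s h p) (hev s' h' p) ?_ fun e => hp' ?_
        · rw [norm_pow, Complex.norm_eq_one_of_pow_eq_one (hza p.1 p.2)
            (pow_ne_zero a (hp p.1 p.2).1.ne_zero), one_pow]
        · exact yub_dist (hp p.1 p.2).1 (hz p.1 p.2).1 (hza p.1 p.2)
            (Fintype.mem_piFinset.1 h p) (Fintype.mem_piFinset.1 h' p) e)
      (xfe_N0 F) (fun c _ => by rw [xfe_N, xfe_Nr])
      (WithLp.toLp 2 fun y => (k (y * x⁻¹) : ℂ))
    have e : xfeN (fun y => (k (y * x⁻¹) : ℂ)) = ∑ h, k h ^ 2 := by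
      rw [xfe_Nr (fun y => (k y : ℂ)) x⁻¹]
      simp [xfeN]
    rw [xfe_N, e] at this
    refine le_trans (le_of_eq (sum_congr rfl fun s _ => ?_)) this
    congr 2
    rw [PiLp.inner_apply, yub_T, ← Equiv.sum_comp (Equiv.mulRight x⁻¹)]
    refine sum_congr rfl fun y _ => ?_
    simp [mul_assoc, mul_comm]
  have h2 := sum_le_sum fun x (_ : x ∈ univ) => hb x
  have e3 : ∀ s, ∑ x, ‖yubT k F (x * t s)‖ ^ 2 = xfeN (yubT k F) := fun s => xfe_Nr _ (t s)
  rw [sum_comm] at h2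
  simp only [e3, sum_const, nsmul_eq_mul, card_univ] at h2
  rw [hF.2] at h2
  have h3 : (S.card : ℝ) * lam ≤ Fintype.card G * ∑ h, k h ^ 2 :=
    le_of_mul_le_mul_right (by linarith) (yub_pos hne)
  rw [← hcard]
  calc _ ≤ (S.card : ℝ) * (lam * xfeN fun g => (f g : ℂ)) :=
        mul_le_mul_of_nonneg_left (hmax _ hfV) (Nat.cast_nonneg _)
    _ = (S.card : ℝ) * lam * xfeN fun g => (f g : ℂ) := (mul_assoc _ _ _).symm
    _ ≤ _ := mul_le_mul_of_nonneg_right h3 (xfe_N0 _)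

end Pool.Agent.EQ
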