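import Pool.Agent.P.MP_ad7a55_nt.YUb
import Pool.Agent.P.MP_ad7a55_nt.YLa

/-! Convolution on the modular group modulo a level. -/

set_option autoImplicit false

noncomputable section

open Finset Matrix
open scoped MatrixGroups Classical

namespace Pool.Agent.EQ

/-- Reduction modulo `n`. -/
def yucP (n : ℕ) : SL(2, ℤ) →* SL(2, ZMod n) :=
  Matrix.SpecialLinearGroup.map (Int.castRingHom (ZMod n))

theorem yuc_P_apply (n : ℕ) (g : SL(2, ℤ)) (i j : Fin 2) :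
    (yucP n g) i j = ((g i j : ℤ) : ZMod n) := rfl

theorem yuc_mem (n : ℕ) (g : SL(2, ℤ)) : g ∈ CongruenceSubgroup.Gamma n ↔ yucP n g = 1 :=
  CongruenceSubgroup.Gamma_mem'

theorem yuc_P_of_Dv {n : ℕ} {g : SL(2, ℤ)} {W : M2} (h : Dv n ((g : M2) - W)) (i j : Fin 2) :
    (yucP n g) i j = ((W i j : ℤ) : ZMod n) := by
  rw [yuc_P_apply]
  have := (ZMod.intCast_zmod_eq_zero_iff_dvd _ n).2 (h i j)
  rw [Matrix.sub_apply] at this
  push_cast at this
  exact sub_eq_zero.1 this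

theorem yuc_mem_iff (n : ℕ) (g : SL(2, ℤ)) :
    g ∈ CongruenceSubgroup.Gamma n ↔ Dv n ((g : M2) - 1) := by
  constructor
  · intro h i j
    rw [yuc_mem] at h
    have e : (yucP n g) i j = (1 : SL(2, ZMod n)) i j := by rw [h]
    rw [yuc_P_apply] at e
    rw [← ZMod.intCast_zmod_eq_zero_iff_dvd, Matrix.sub_apply]
    push_cast
    rw [sub_eq_zero]
    refine e.trans ?_
    fin_cases i <;> fin_cases j <;> simp
  · intro h
    rw [yuc_mem]
    ext i j
    rw [yuc_P_of_Dv h]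
    fin_cases i <;> fin_cases j <;> simp

theorem yuc_le {m n : ℕ} (h : m ∣ n) :
    CongruenceSubgroup.Gamma n ≤ CongruenceSubgroup.Gamma m := fun g hg =>
  (yuc_mem_iff m g).2 fun i j =>
    (Int.natCast_dvd_natCast.2 h).trans ((yuc_mem_iff n g).1 hg i j)

theorem yuc_inf {m n : ℕ} (h : m.Coprime n) {g : SL(2, ℤ)}
    (h1 : g ∈ CongruenceSubgroup.Gamma m) (h2 : g ∈ CongruenceSubgroup.Gamma n) :
    g ∈ CongruenceSubgroup.Gamma (m * n) := by
  refine (yuc_mem_iff _ g).2 fun i j => ?_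
  push_cast
  exact (Nat.isCoprime_iff_coprime.2 h).mul_dvd ((yuc_mem_iff m g).1 h1 i j)
    ((yuc_mem_iff n g).1 h2 i j)

/-- Upper unipotent matrices. -/
def yucU {R : Type} [CommRing R] (x : R) : SL(2, R) :=
  ⟨!![1, x; 0, 1], by simp [Matrix.det_fin_two]⟩

/-- Lower unipotent matrices. -/
def yucL {R : Type} [CommRing R] (x : R) : SL(2, R) :=
  ⟨!![1, 0; x, 1], by simp [Matrix.det_fin_two]⟩

theorem yuc_gen {R : Type} [CommRing R] (H : Subgroup SL(2, R)) (hU : ∀ x, yucU x ∈ H)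
    (hL : ∀ x, yucL x ∈ H) (g : SL(2, R)) (h : IsUnit (g 1 0)) : g ∈ H := by
  obtain ⟨e, he⟩ := h.exists_right_inv
  have hd : g 0 0 * g 1 1 - g 0 1 * g 1 0 = 1 := by
    have := g.det_coe
    rwa [Matrix.det_fin_two] at this
  have : g = yucU ((g 0 0 - 1) * e) * yucL (g 1 0) * yucU ((g 1 1 - 1) * e) := by
    ext i j
    fin_cases i <;> fin_cases j <;>
      simp [yucU, yucL, Matrix.mul_apply, Fin.sum_univ_two]
    · linear_combination (1 - g 0 0) * he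
    · linear_combination (-e) * hd + (-(g 0 1) - (g 0 0 - 1) * (g 1 1 - 1) * e) * he
    · linear_combination (1 - g 1 1) * he
  rw [this]
  exact H.mul_mem (H.mul_mem (hU _) (hL _)) (hU _)

theorem yuc_P_T (n k : ℕ) : yucP n (ModularGroup.T ^ k) = yucU (k : ZMod n) := by
  ext i j
  rw [yuc_P_apply, ← zpow_natCast]
  have e : (ModularGroup.T ^ (k : ℤ)) i j = (!![1, (k : ℤ); 0, 1] : M2) i j := by
    rw [← ModularGroup.coe_T_zpow]
  rw [e]
  fin_cases i <;> fin_cases j <;> simp [yucU]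

theorem yuc_T_mem (n : ℕ) : ModularGroup.T ^ n ∈ CongruenceSubgroup.Gamma n := by
  rw [yuc_mem, yuc_P_T]
  ext i j
  fin_cases i <;> fin_cases j <;> simp [yucU]

theorem yuc_conj_S {R : Type} [CommRing R] {w : SL(2, R)} (h00 : w 0 0 = 0) (h01 : w 0 1 = -1)
    (h10 : w 1 0 = 1) (h11 : w 1 1 = 0) (x : R) : w * yucU x * w⁻¹ = yucL (-x) := by
  rw [mul_inv_eq_iff_eq_mul]
  ext i j
  fin_cases i <;> fin_cases j <;>
    simp [yucU, yucL, Matrix.mul_apply, Fin.sum_univ_two, h00, h01, h10, h11]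

theorem yuc_conj_D {R : Type} [CommRing R] {t : SL(2, R)} {s s' : R} (hs : s * s' = 1)
    (h00 : t 0 0 = s') (h01 : t 0 1 = 0) (h10 : t 1 0 = 0) (h11 : t 1 1 = s) (x : R) :
    t⁻¹ * yucU x * t = yucU (x * s ^ 2) := by
  rw [mul_assoc, inv_mul_eq_iff_eq_mul]
  ext i j
  fin_cases i <;> fin_cases j <;>
    simp [yucU, Matrix.mul_apply, Fin.sum_univ_two, h00, h01, h10, h11]
  linear_combination (-(x * s)) * hs

theorem yuc_unit {p : ℕ} (hp : p.Prime) (a : ℕ) {c : ℤ} (h : ¬ (p : ℤ) ∣ c) :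
    IsUnit ((c : ℤ) : ZMod (p ^ a)) := by
  rw [ZMod.coe_int_isUnit_iff_isCoprime]
  push_cast
  exact IsCoprime.pow_left
    ((Prime.coprime_iff_not_dvd (Nat.prime_iff_prime_int.1 hp)).2 h)

theorem gamma_gen {M₁ p a : ℕ} (hp : p.Prime) (hM : 0 < M₁) (hc : ¬ p ∣ M₁) {w : SL(2, ℤ)}
    (hw : w ∈ CongruenceSubgroup.Gamma M₁) (hw' : Dv (p ^ a) ((w : M2) - !![0, -1; 1, 0])) :
    CongruenceSubgroup.Gamma M₁ ≤
      Subgroup.closure {ModularGroup.T ^ M₁, w * ModularGroup.T ^ M₁ * w⁻¹} ⊔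
        CongruenceSubgroup.Gamma (M₁ * p ^ a) := by
  have hq : 0 < p ^ a := pow_pos hp.pos a
  have : NeZero (p ^ a) := ⟨hq.ne'⟩
  set H : Subgroup SL(2, ℤ) :=
    Subgroup.closure {ModularGroup.T ^ M₁, w * ModularGroup.T ^ M₁ * w⁻¹} with hH
  have hu : ModularGroup.T ^ M₁ ∈ H := Subgroup.subset_closure (by simp)
  have hl : w * ModularGroup.T ^ M₁ * w⁻¹ ∈ H := Subgroup.subset_closure (by simp)
  have hHle : H ≤ CongruenceSubgroup.Gamma M₁ := by
    rw [hH, Subgroup.closure_le]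
    intro x hx
    rcases hx with rfl | rfl
    · exact yuc_T_mem _
    · exact (ylaNormal M₁).conj_mem _ (yuc_T_mem _) w
  have hunit : IsUnit ((M₁ : ℕ) : ZMod (p ^ a)) := by
    have := yuc_unit hp a (c := (M₁ : ℤ)) (fun h => hc (Int.natCast_dvd_natCast.1 h))
    simpa using this
  obtain ⟨e, he⟩ := hunit.exists_right_inv
  have hk : ∀ x : ZMod (p ^ a), ∃ k : ℕ, ((M₁ * k : ℕ) : ZMod (p ^ a)) = x := fun x =>
    ⟨(e * x).val, by push_cast; rw [ZMod.natCast_zmod_val, ← mul_assoc, he, one_mul]⟩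
  have hU : ∀ x, yucU x ∈ H.map (yucP (p ^ a)) := fun x => by
    obtain ⟨k, rfl⟩ := hk x
    exact ⟨_, H.pow_mem hu k, by rw [← pow_mul, yuc_P_T]⟩
  have hL : ∀ x, yucL x ∈ H.map (yucP (p ^ a)) := fun x => by
    obtain ⟨k, hk'⟩ := hk (-x)
    refine ⟨_, H.pow_mem hl k, ?_⟩
    rw [conj_pow, ← pow_mul, map_mul, map_mul, map_inv, yuc_P_T, hk', yuc_conj_S, neg_neg]
    all_goals rw [yuc_P_of_Dv hw']; simp
  have hall : ∀ g : SL(2, ℤ), yucP (p ^ a) g ∈ H.map (yucP (p ^ a)) := fun g => by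
    by_cases h10 : (p : ℤ) ∣ g 1 0
    · have hd : g 0 0 * g 1 1 - g 0 1 * g 1 0 = 1 := by
        have := g.det_coe
        rwa [Matrix.det_fin_two] at this
      have h00 : ¬ (p : ℤ) ∣ g 0 0 + g 1 0 := fun h => by
        have h1 : (p : ℤ) ∣ g 0 0 := (dvd_add_left h10).1 h
        have h2 : (p : ℤ) ∣ 1 := by
          rw [← hd]; exact dvd_sub (h1.mul_right _) (h10.mul_left _)
        exact (Nat.prime_iff_prime_int.1 hp).not_dvd_one h2
      have h3 : yucL 1 * yucP (p ^ a) g ∈ H.map (yucP (p ^ a)) := by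
        refine yuc_gen _ hU hL _ ?_
        have e1 : (yucL 1 * yucP (p ^ a) g : SL(2, ZMod (p ^ a))) 1 0 =
            ((g 0 0 + g 1 0 : ℤ) : ZMod (p ^ a)) := by
          simp [yucL, Matrix.mul_apply, Fin.sum_univ_two, yuc_P_apply]
        rw [e1]; exact yuc_unit hp a h00
      exact (Subgroup.mul_mem_cancel_left _ (hL 1)).1 h3
    · exact yuc_gen _ hU hL _ (by rw [yuc_P_apply]; exact yuc_unit hp a h10)
  intro g hg
  obtain ⟨h, hh, e1⟩ := hall g
  have h2 : h⁻¹ * g ∈ CongruenceSubgroup.Gamma (M₁ * p ^ a) := by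
    refine yuc_inf (Nat.Coprime.pow_right a ((Nat.Prime.coprime_iff_not_dvd hp).2 hc).symm)
      (Subgroup.mul_mem _ (Subgroup.inv_mem _ (hHle hh)) hg) ?_
    rw [yuc_mem, map_mul, map_inv, e1, inv_mul_cancel]
  have e2 : g = h * (h⁻¹ * g) := by rw [mul_inv_cancel_left]
  rw [e2]
  exact Subgroup.mul_mem _ (Subgroup.mem_sup_left hh) (Subgroup.mem_sup_right h2)

theorem bnp {a M₀ M : ℕ} (hM₀ : 0 < M₀) (A : Finset ℕ)
    (hp : ∀ p ∈ A, p.Prime ∧ p ≠ 2 ∧ ¬ p ∣ M₀) (hM : M = M₀ * ∏ p ∈ A, p ^ a)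
    [Fintype (vcjQ M)] (k f : vcjQ M → ℝ)
    (hf : ∀ p ∈ A, ∀ g, ∑ h ∈ cs (M / p ^ a) M, f (g * h) = 0) :
    (∏ p ∈ A, ((p : ℝ) - 1) / 2) * ∑ g, (∑ h, k h * f (h * g)) ^ 2 ≤
      Fintype.card (vcjQ M) * (∑ h, k h ^ 2) * ∑ g, f g ^ 2 := by
  have hMpos : 0 < M := by
    rw [hM]; exact Nat.mul_pos hM₀ (prod_pos fun p h => pow_pos (hp p h).1.pos a)
  have hdiv : ∀ p ∈ A, M / p ^ a = M₀ * ∏ p' ∈ A.erase p, p' ^ a := fun p h => by
    rw [hM, ← mul_prod_erase A _ h, mul_left_comm,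
      Nat.mul_div_cancel_left _ (pow_pos (hp p h).1.pos a)]
  have hmul : ∀ p ∈ A, M / p ^ a * p ^ a = M := fun p h => by
    rw [hdiv p h, hM, ← mul_prod_erase A _ h]; ring
  have hpos : ∀ p ∈ A, 0 < M / p ^ a := fun p h =>
    Nat.pos_of_ne_zero fun h0 => by
      have := hmul p h
      rw [h0, zero_mul] at this
      exact hMpos.ne this
  have hcc : ∀ p ∈ A, ∀ p' ∈ A, p ≠ p' → (p ^ a).Coprime (p' ^ a) := fun p h p' h' hne =>
    Nat.Coprime.pow a a ((Nat.coprime_primes (hp p h).1 (hp p' h').1).2 hne)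
  have hnd : ∀ p ∈ A, ¬ p ∣ M / p ^ a := fun p h hd => by
    rw [hdiv p h] at hd
    rcases ((hp p h).1.dvd_mul).1 hd with h1 | h1
    · exact (hp p h).2.2 h1
    · obtain ⟨p', h', h2⟩ := (Prime.dvd_finsetProd_iff (hp p h).1.prime _).1 h1
      have h3 := (Nat.prime_dvd_prime_iff_eq (hp p h).1 (hp p' (mem_of_mem_erase h')).1).1
        ((hp p h).1.dvd_of_dvd_pow h2)
      exact (ne_of_mem_erase h') h3.symm
  have hcop : ∀ p ∈ A, (M / p ^ a).Coprime (p ^ a) := fun p h =>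
    Nat.Coprime.pow_right a (((hp p h).1.coprime_iff_not_dvd).2 (hnd p h)).symm
  have hdd : ∀ p ∈ A, ∀ p' ∈ A, p ≠ p' → p ^ a ∣ M / p' ^ a := fun p h p' h' hne => by
    rw [hdiv p' h']
    exact Dvd.dvd.mul_left (dvd_prod_of_mem (fun x => x ^ a) (mem_erase.2 ⟨hne, h⟩)) _
  have hone : ∀ p ∈ A, ∀ g : SL(2, ℤ), g ∈ CongruenceSubgroup.Gamma (M / p ^ a) →
      g ∈ CongruenceSubgroup.Gamma (p ^ a) → g ∈ CongruenceSubgroup.Gamma M :=
    fun p h g h1 h2 => by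
      have := yuc_inf (hcop p h) h1 h2
      rwa [hmul p h] at this
  have hw : ∀ p, ∃ w : SL(2, ℤ), p ∈ A → w ∈ CongruenceSubgroup.Gamma (M / p ^ a) ∧
      Dv (p ^ a) ((w : M2) - !![0, -1; 1, 0]) := fun p => by
    by_cases h : p ∈ A
    · obtain ⟨γ, h1, h2⟩ := crt_SL ({()} : Finset Unit) (fun _ => p ^ a) (hpos p h)
        (fun _ _ => ⟨pow_pos (hp p h).1.pos a, (hcop p h).symm⟩)
        (fun _ _ _ _ hne => (hne rfl).elim) (fun _ => ModularGroup.S)
      exact ⟨γ, fun _ => ⟨h1, h2 () (mem_singleton_self _)⟩⟩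
    · exact ⟨1, fun h' => (h h').elim⟩
  choose w hw using hw
  let π : SL(2, ℤ) →* vcjQ M := QuotientGroup.mk' (CongruenceSubgroup.Gamma M)
  have hπ : Function.Surjective π := QuotientGroup.mk'_surjective _
  have hπ1 : ∀ g, π g = 1 ↔ g ∈ CongruenceSubgroup.Gamma M := fun g => QuotientGroup.eq_one_iff g
  have hπe : ∀ g g', g⁻¹ * g' ∈ CongruenceSubgroup.Gamma M → π g = π g' := fun g g' h => by
    have := (hπ1 _).2 h
    rwa [map_mul, map_inv, inv_mul_eq_one] at this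
  refine bnp_abs A a (fun p => (CongruenceSubgroup.Gamma (M / p ^ a)).map π)
    (fun p => π (ModularGroup.T ^ (M / p ^ a))) (fun p => π (w p))
    (fun p h => ⟨(hp p h).1, (hp p h).2.1⟩) (fun p _ => (ylaNormal _).map π hπ)
    (fun p h => ⟨?_, Subgroup.mem_map_of_mem π (yuc_T_mem _),
      Subgroup.mem_map_of_mem π (hw p h).1, ?_⟩) ?_ ?_ k f ?_
  · rw [← map_pow, ← pow_mul, hmul p h, hπ1]; exact yuc_T_mem _
  · rintro x ⟨g, hg, rfl⟩
    have h1 := gamma_gen (hp p h).1 (hpos p h) (hnd p h) (hw p h).1 (hw p h).2 hg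
    rw [hmul p h] at h1
    have h2 := Subgroup.mem_map_of_mem π h1
    rw [Subgroup.map_sup, MonoidHom.map_closure, Set.image_pair, map_mul, map_mul, map_inv] at h2
    have h3 : (CongruenceSubgroup.Gamma M).map π = ⊥ := QuotientGroup.map_mk'_self _
    rwa [h3, sup_bot_eq] at h2
  · rintro p h p' h' hne x ⟨g, hg, rfl⟩ x' ⟨g', hg', rfl⟩
    rw [← map_mul, ← map_mul]
    refine hπe _ _ (hone p h _ ?_ ?_)
    · have e : (g * g')⁻¹ * (g' * g) = (g'⁻¹ * g⁻¹ * g'⁻¹⁻¹) * g := by group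
      rw [e]
      exact Subgroup.mul_mem _ ((ylaNormal _).conj_mem _ (Subgroup.inv_mem _ hg) _) hg
    · have hg'' : g' ∈ CongruenceSubgroup.Gamma (p ^ a) := yuc_le (hdd p h p' h' hne) hg'
      have e : (g * g')⁻¹ * (g' * g) = g'⁻¹ * (g⁻¹ * g' * g⁻¹⁻¹) := by group
      rw [e]
      exact Subgroup.mul_mem _ (Subgroup.inv_mem _ hg'') ((ylaNormal _).conj_mem _ hg'' _)
  · intro s hs
    have hD : ∀ p, ∃ D : SL(2, ℤ), ∃ s' : ℤ, p ∈ A →
        ((s p : ℕ) : ZMod (p ^ a)) * (s' : ZMod (p ^ a)) = 1 ∧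
        Dv (p ^ a) ((D : M2) - !![s', 0; 0, (s p : ℤ)]) := fun p => by
      by_cases h : p ∈ A
      · have hc : IsCoprime ((p ^ a : ℕ) : ℤ) (s p : ℤ) :=
          Nat.isCoprime_iff_coprime.2
            (Nat.Coprime.pow_left a (((hp p h).1.coprime_iff_not_dvd).2 (hs p h)))
        obtain ⟨x, y, hxy⟩ := hc
        obtain ⟨D, hD⟩ := exists_lift_SL (pow_pos (hp p h).1.pos a)
          (W := !![y, 0; 0, (s p : ℤ)])
          ⟨-x, by rw [Matrix.det_fin_two_of]; linear_combination hxy⟩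
        refine ⟨D, y, fun _ => ⟨?_, fun i j => hD i j⟩⟩
        have := congrArg (fun z : ℤ => (z : ZMod (p ^ a))) hxy
        simp only [Int.cast_add, Int.cast_mul, Int.cast_natCast, ZMod.natCast_self, mul_zero,
          zero_add, Int.cast_one] at this
        rw [mul_comm]; exact this
      · exact ⟨1, 0, fun h' => (h h').elim⟩
    choose D s' hD using hD
    obtain ⟨t, -, ht⟩ := crt_SL A (fun p => p ^ a) Nat.one_pos
      (fun p h => ⟨pow_pos (hp p h).1.pos a, Nat.coprime_one_right _⟩) hcc D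
    refine ⟨π t, fun p h => ?_⟩
    rw [← map_inv, ← map_mul, ← map_mul, ← map_pow]
    have hT := yuc_T_mem (M / p ^ a)
    refine hπe _ _ (hone p h _ ?_ ?_)
    · refine Subgroup.mul_mem _ (Subgroup.inv_mem _ ?_) (Subgroup.pow_mem _ hT _)
      have := (ylaNormal (M / p ^ a)).conj_mem _ hT t⁻¹
      rwa [inv_inv] at this
    · have hent : ∀ i j, (yucP (p ^ a) t) i j =
          (((!![s' p, 0; 0, (s p : ℤ)] : M2) i j : ℤ) : ZMod (p ^ a)) := fun i j => by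
        rw [yuc_P_of_Dv (ht p h), ← yuc_P_of_Dv (hD p h).2, yuc_P_apply]
      rw [yuc_mem, map_mul, map_inv, inv_mul_eq_one, map_mul, map_mul, map_inv, ← pow_mul,
        yuc_P_T, yuc_P_T, yuc_conj_D (hD p h).1]
      · push_cast; rfl
      all_goals rw [hent]; simp
  · intro p h g
    rw [← hf p h g]
    refine sum_congr ?_ fun _ _ => rfl
    ext c
    obtain ⟨γ, rfl⟩ := hπ c
    have hdv : M / p ^ a ∣ M := Dvd.intro _ (hmul p h)
    rw [mem_filter]
    refine Iff.trans ?_ (mem_cs hMpos hdv γ).symm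
    constructor
    · rintro ⟨-, g', hg', e⟩
      have h1 : g'⁻¹ * γ ∈ CongruenceSubgroup.Gamma M := by
        rw [← hπ1, map_mul, map_inv, e, inv_mul_cancel]
      have h2 := Subgroup.mul_mem _ hg' (yuc_le hdv h1)
      rwa [mul_inv_cancel_left] at h2
    · exact fun hγ => ⟨mem_univ _, Subgroup.mem_map_of_mem π hγ⟩

end Pool.Agent.EQ
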