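import Pool.Agent.P.MP_ad7a55_nt.YUa
import Pool.Agent.P.MP_ad7a55_nt.XKd
import Pool.Agent.P.MP_ad7a55_nt.XKf
import Pool.Agent.P.MP_ad7a55_nt.WHk
import Pool.Agent.P.MP_ad7a55_nt.YGd

/-! Hecke averages of bounded functions. -/

set_option autoImplicit false

noncomputable section

open MeasureTheory Topology Filter UpperHalfPlane Finset
open scoped MatrixGroups BoundedContinuousFunction Matrix Classical

namespace Pool.Agent.EQ

/-- Lipschitz functions. -/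
def Lip (K : ℝ) (f : ℍ → ℝ) : Prop := ∀ z w, |f z - f w| ≤ K * dist z w

/-- The mean of finitely many functions. -/
def mnB {α : Type} (O : Finset α) (F : α → (ℍ →ᵇ ℝ)) : ℍ →ᵇ ℝ := (#O : ℝ)⁻¹ • ∑ x ∈ O, F x

/-- Matrices with all kernels, scalar modulo the level. -/
def IsR (n M : ℕ) (s : ℤ) (ρ : Set V2 → M2) : Prop :=
  ∀ L ∈ Xn n, (ρ L).det = n ∧ Ker n (ρ L) = L ∧ Cg M (ρ L) s

/-- The Hecke average. -/
def HK (n : ℕ) (ρ : Set V2 → M2) (f : ℍ →ᵇ ℝ) : ℍ →ᵇ ℝ := mnB (Xn n) fun L => cact f (ρ L)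

/-- Mean zero over `Γ(R)`. -/
def ZM (R M : ℕ) (f : ℍ → ℝ) : Prop := ∀ z, mn (cs R M) (fun c => f (c.out • z)) = 0

variable {α : Type} {n M N : ℕ} {s : ℤ} {ρ : Set V2 → M2} {f g : ℍ →ᵇ ℝ} {K B : ℝ}

theorem mnB_apply (O : Finset α) (F : α → (ℍ →ᵇ ℝ)) (z : ℍ) :
    mnB O F z = mn O fun x => F x z := by
  unfold mnB mn
  rw [BoundedContinuousFunction.coe_smul, div_eq_inv_mul]
  simp only [BoundedContinuousFunction.sum_apply, smul_eq_mul]

theorem IN_mnB (hM : 0 < M) (O : Finset α) (F : α → (ℍ →ᵇ ℝ)) :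
    IN M (mnB O F) = mn O fun x => IN M (F x) := by
  unfold mnB mn
  rw [xkf_IN_smul, xkf_IN_sum hM, div_eq_inv_mul]

theorem IN_mono (hM : 0 < M) (h : ∀ z, f z ≤ g z) : IN M f ≤ IN M g := by
  have : NeZero M := ⟨hM.ne'⟩
  have := mH_prob (Γ := CongruenceSubgroup.Gamma M)
  exact integral_mono (f.integrable _) (g.integrable _) h

theorem IN_add (hM : 0 < M) (f g : ℍ →ᵇ ℝ) : IN M (f + g) = IN M f + IN M g := by
  have : NeZero M := ⟨hM.ne'⟩
  have := mH_prob (Γ := CongruenceSubgroup.Gamma M)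
  exact integral_add (f.integrable _) (g.integrable _)

theorem IN_smul (M : ℕ) (c : ℝ) (f : ℍ →ᵇ ℝ) : IN M (c • f) = c * IN M f := by
  exact xkf_IN_smul M c f

theorem IN_const (hM : 0 < M) (c : ℝ) : IN M (BoundedContinuousFunction.const ℍ c) = c := by
  have : NeZero M := ⟨hM.ne'⟩
  have := mH_prob (Γ := CongruenceSubgroup.Gamma M)
  unfold IN
  simp

theorem yud_sq (hM : 0 < M) (f : ℍ →ᵇ ℝ) : 0 ≤ IN M (f * f) := by
  rw [← IN_const hM 0]
  exact IN_mono hM fun z => mul_self_nonneg (f z)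

theorem IN_cs (hM : 0 < M) (f g : ℍ →ᵇ ℝ) : IN M (f * g) ^ 2 ≤ IN M (f * f) * IN M (g * g) := by
  have h : ∀ x : ℝ, 0 ≤ IN M (f * f) * (x * x) + 2 * IN M (f * g) * x + IN M (g * g) := by
    intro x
    have e : (x • f + g) * (x • f + g) = (x * x) • (f * f) + (2 * x) • (f * g) + g * g := by
      ext z
      simp only [BoundedContinuousFunction.mul_apply, BoundedContinuousFunction.add_apply,
        BoundedContinuousFunction.smul_apply, smul_eq_mul]
      ring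
    have h1 := yud_sq hM (x • f + g)
    rw [e, IN_add hM, IN_add hM, IN_smul, IN_smul] at h1
    linarith
  have h2 := discrim_le_zero h
  unfold discrim at h2
  linarith

theorem IN_abs_sq (hM : 0 < M) (f : ℍ →ᵇ ℝ) : IN M |f| ^ 2 ≤ IN M (f * f) := by
  have h := IN_cs hM |f| (BoundedContinuousFunction.const ℍ 1)
  have e1 : |f| * BoundedContinuousFunction.const ℍ (1 : ℝ) = |f| := by
    ext z
    simp
  have e2 : BoundedContinuousFunction.const ℍ (1 : ℝ) * BoundedContinuousFunction.const ℍ 1 =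
      BoundedContinuousFunction.const ℍ 1 := by
    ext z
    simp
  have e3 : |f| * |f| = f * f := by
    ext z
    exact abs_mul_abs_self (f z)
  rwa [e1, e2, e3, IN_const hM, mul_one] at h

theorem IN_fd (hM : 0 < M) (h : ∀ (γ : SL(2, ℤ)) z, f (γ • z) = f z) :
    IN M f = ∫ z, f z ∂ProbabilityTheory.cond volume ModularGroup.fd := by
  have : NeZero M := ⟨hM.ne'⟩
  have := (CongruenceSubgroup.Gamma M).fintypeQuotientOfFiniteIndex
  have h0 : ((CongruenceSubgroup.Gamma M).index : ℝ) ≠ 0 := by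
    exact_mod_cast Subgroup.FiniteIndex.index_ne_zero
  unfold IN
  rw [integral_mH]
  simp only [h]
  rw [finsum_eq_sum_of_fintype, Finset.sum_const, Finset.card_univ, nsmul_eq_mul,
    ← Nat.card_eq_fintype_card, ← Subgroup.index_eq_card, ← mul_assoc, inv_mul_cancel₀ h0, one_mul]

theorem ginv_cact (h : GInv N f) {ξ : M2} (hξ : 0 < ξ.det) (hM : N * ξ.det.natAbs ∣ M) :
    GInv M (cact f ξ) := by
  exact GInv.mono hM (h.act hξ)

theorem IN_cact (hN : 0 < N) (hM : 0 < M) (h : GInv N f) {ξ : M2} (hξ : 0 < ξ.det)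
    (hd : N * ξ.det.natAbs ∣ M) : IN M (cact f ξ) = IN N f := by
  have key : ∀ ε : ℝ, 0 < ε → |IN M (cact f ξ) - IN N f| ≤ ε := by
    intro ε hε
    obtain ⟨m, -, hm⟩ := heck (ι := Unit) hN (fun _ => f) (fun _ => h) {()} hε
    have h1 := hm id (fun _ => ξ) M hM (fun _ => ⟨hξ, hd⟩) fun k _ l _ hkl =>
      absurd (Subsingleton.elim k l) hkl
    simpa [Finset.filter_singleton] using h1
  exact sub_eq_zero.1 (abs_nonpos_iff.1 (le_of_forall_pos_le_add fun ε hε => by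
    simpa using key ε hε))

theorem Lip.cact (h : Lip K f) (ξ : M2) : Lip K (cact f ξ) := by
  intro z w
  rw [cact_apply, cact_apply]
  by_cases hξ : 0 < ξ.det
  · rw [← dist_act hξ z w]
    exact h _ _
  · simp only [act, dif_neg hξ]
    exact h _ _

theorem yud_sub (O : Finset α) (G G' : α → ℝ) :
    mn O G - mn O G' = mn O fun x => G x - G' x := by
  unfold mn
  rw [Finset.sum_sub_distrib, sub_div]

theorem yud_congr {O : Finset α} {G G' : α → ℝ} (h : ∀ x ∈ O, G x = G' x) : mn O G = mn O G' := by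
  unfold mn
  rw [Finset.sum_congr rfl h]

theorem Lip.mnB (hK : 0 ≤ K) {O : Finset α} {F : α → (ℍ →ᵇ ℝ)} (h : ∀ x ∈ O, Lip K (F x)) :
    Lip K (mnB O F) := by
  intro z w
  rw [mnB_apply, mnB_apply, yud_sub]
  exact xkf_mn_le (mul_nonneg hK dist_nonneg) fun x hx => h x hx z w

theorem Lip.prod (hK : 0 ≤ K) {O : Finset α} {F : α → (ℍ →ᵇ ℝ)}
    (h : ∀ x ∈ O, Lip K (F x) ∧ ∀ z, |F x z| ≤ 1) : Lip (#O * K) (∏ x ∈ O, F x : ℍ →ᵇ ℝ) := by
  intro z w
  rw [BoundedContinuousFunction.prod_apply, BoundedContinuousFunction.prod_apply]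
  induction O using Finset.induction_on with
  | empty => simp
  | insert i S hi ih =>
    have ih' := ih fun x hx => h x (Finset.mem_insert_of_mem hx)
    obtain ⟨a1, a2⟩ := h i (Finset.mem_insert_self i S)
    rw [Finset.prod_insert hi, Finset.prod_insert hi, Finset.card_insert_of_notMem hi]
    have h1 : |∏ j ∈ S, F j w| ≤ 1 := by
      rw [Finset.abs_prod]
      exact Finset.prod_le_one (fun j _ => abs_nonneg _) fun j hj =>
        (h j (Finset.mem_insert_of_mem hj)).2 w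
    have e : F i z * ∏ j ∈ S, F j z - F i w * ∏ j ∈ S, F j w =
        F i z * (∏ j ∈ S, F j z - ∏ j ∈ S, F j w) + (F i z - F i w) * ∏ j ∈ S, F j w := by ring
    have h2 := mul_le_mul (a2 z) ih' (abs_nonneg _) zero_le_one
    have h3 := mul_le_mul (a1 z w) h1 (abs_nonneg _) (mul_nonneg hK dist_nonneg)
    rw [e]
    refine (abs_add_le _ _).trans ?_
    rw [abs_mul, abs_mul]
    push_cast
    linarith

theorem Lip.eqC {f : ℍ → ℝ} (h : Lip K f) (hK : 0 < K) : EqC (fun ε => ε / K) f := by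
  intro ε _ z w hd
  refine (h z w).trans ?_
  rwa [le_div_iff₀ hK, mul_comm] at hd

theorem abs_mnB_le (hB : 0 ≤ B) {O : Finset α} {F : α → (ℍ →ᵇ ℝ)} {z : ℍ}
    (h : ∀ x ∈ O, |F x z| ≤ B) : |mnB O F z| ≤ B := by
  rw [mnB_apply]
  exact xkf_mn_le hB h

theorem yud_ent {η : M2} : Cg M η s ↔ (M : ℤ) ∣ η 0 0 - s ∧ (M : ℤ) ∣ η 0 1 ∧
    (M : ℤ) ∣ η 1 0 ∧ (M : ℤ) ∣ η 1 1 - s := by
  unfold Cg
  simp only [Fin.forall_fin_two, Matrix.sub_apply, Matrix.smul_apply, Matrix.one_apply_eq,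
    Matrix.one_apply_ne (show (0 : Fin 2) ≠ 1 by decide),
    Matrix.one_apply_ne (show (1 : Fin 2) ≠ 0 by decide), smul_eq_mul, mul_one, mul_zero,
    sub_zero, and_assoc]

theorem yud_det {η : M2} (h : Cg M η s) : (M : ℤ) ∣ η.det - s ^ 2 := by
  obtain ⟨⟨a, ha⟩, ⟨b, hb⟩, -, ⟨d, hd⟩⟩ := yud_ent.1 h
  refine ⟨a * η 1 1 + s * d - b * η 1 0, ?_⟩
  rw [Matrix.det_fin_two]
  linear_combination η 1 1 * ha + s * hd - η 1 0 * hb

theorem yud_adj {η : M2} (h : Cg M η s) : Cg M η.adjugate s := by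
  obtain ⟨a, b, c, d⟩ := yud_ent.1 h
  rw [yud_ent, Matrix.adjugate_fin_two]
  exact ⟨d, b.neg_right, c.neg_right, a⟩

theorem yud_pos (hn : 0 < n) {η : M2} (h : η.det = n) : 0 < η.det := by
  rw [h]
  exact_mod_cast hn

theorem act_eq_of_Ker {β : Type} {F : ℍ → β} (h : GInv M F) (hn : 0 < n) (hc : n.Coprime M)
    {η η' : M2} (h1 : η.det = n) (h2 : η'.det = n) (h3 : Ker n η ⊆ Ker n η') (h4 : Cg M η s)
    (h5 : Cg M η' s) (z : ℍ) : F (act η z) = F (act η' z) := by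
  have hs : IsCoprime s M := xkf_cop hc (h1 ▸ yud_det h4)
  obtain ⟨γ, rfl⟩ := exists_SL_of_Ker hn h1 h2 h3
  rw [act_mul (vact_SL_det γ) (yud_pos hn h1), act_SL]
  exact (h γ (Cg.gamma hs h4 h5) _).symm

theorem IsR.mono {M' : ℕ} (h : IsR n M s ρ) (hM : M' ∣ M) : IsR n M' s ρ := by
  intro L hL
  obtain ⟨a, b, c⟩ := h L hL
  exact ⟨a, b, c.mono hM⟩

theorem yud_apply (n : ℕ) (ρ : Set V2 → M2) (f : ℍ →ᵇ ℝ) (z : ℍ) :
    HK n ρ f z = mn (Xn n) fun L => f (act (ρ L) z) := mnB_apply _ _ z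

theorem yud_cop (γ : SL(2, ℤ)) (n : ℕ) : IsCoprime (γ : M2).det n := by
  rw [γ.det_coe]
  exact isCoprime_one_left

theorem yud_ne (hn : 0 < n) : (Xn n).Nonempty :=
  ⟨Ln n ![1, 0], (mem_Xn hn).2 ⟨![1, 0], isCoprime_one_left, rfl⟩⟩

theorem HK_smul (hn : 0 < n) (hc : n.Coprime M) (h : IsR n M s ρ) (hf : GInv M f)
    (γ : SL(2, ℤ)) (z : ℍ) : HK n ρ f (γ • z) = HK n ρ (cact f γ) z := by
  rw [yud_apply, yud_apply]
  unfold mn
  rw [← sum_Xn_pull hn (yud_cop γ n) fun L => cact f γ (act (ρ L) z)]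
  congr 1
  refine Finset.sum_congr rfl fun L hL => ?_
  obtain ⟨a1, a2, a3⟩ := h L hL
  obtain ⟨b1, b2, b3⟩ := h _ ((mem_Xn hn).2 (((mem_Xn hn).1 hL).pull hn (yud_cop γ n)))
  have c := a3.conj γ⁻¹
  rw [inv_inv] at c
  have d : (((γ⁻¹ : SL(2, ℤ)) : M2) * ρ L * (γ : M2)).det = n := by
    rw [Matrix.det_mul, Matrix.det_mul, γ.det_coe, γ⁻¹.det_coe, a1, one_mul, mul_one]
  have e := act_eq_of_Ker (hf.smul γ) hn hc d b1 (by
    rw [b2, mul_assoc, Ker_SL]
    intro v hv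
    rwa [mem_Ker_mul, a2] at hv) c b3 z
  beta_reduce at e ⊢
  rw [cact_apply, act_SL, ← e, mul_assoc, act_mul (vact_SL_det _) (by
    rw [Matrix.det_mul, γ.det_coe, mul_one]
    exact yud_pos hn a1), act_SL, smul_inv_smul, act_mul (yud_pos hn a1) (vact_SL_det γ), act_SL]

theorem HK_ginv (hn : 0 < n) (hc : n.Coprime M) (h : IsR n M s ρ) (hf : GInv M f) :
    GInv M (HK n ρ f) := by
  intro γ hγ z
  have e : cact f γ = f := by
    ext w
    rw [cact_apply, act_SL]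
    exact hf γ hγ w
  rw [HK_smul hn hc h hf, e]

theorem yud_dvd {η : M2} (h : η.det = n) (M : ℕ) : M * η.det.natAbs ∣ M * n := by
  rw [h, Int.natAbs_natCast]

theorem IN_HK (hn : 0 < n) (hM : 0 < M) (hc : n.Coprime M) (h : IsR n M s ρ) (hf : GInv M f) :
    IN M (HK n ρ f) = IN M f := by
  have hMn : 0 < M * n := Nat.mul_pos hM hn
  rw [← IN_level hM hMn (dvd_mul_right M n) (HK_ginv hn hc h hf), HK, IN_mnB hMn,
    ← mn_const (yud_ne hn) (IN M f)]
  exact yud_congr fun L hL =>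
    IN_cact hM hMn hf (yud_pos hn (h L hL).1) (yud_dvd (h L hL).1 M)

theorem yud_mul (hf : GInv M f) (hg : GInv M g) : GInv M (f * g : ℍ →ᵇ ℝ) := by
  intro γ hγ z
  rw [BoundedContinuousFunction.mul_apply, BoundedContinuousFunction.mul_apply, hf γ hγ, hg γ hγ]

theorem yud_HK_mul (n : ℕ) (ρ : Set V2 → M2) (f g : ℍ →ᵇ ℝ) :
    HK n ρ f * g = mnB (Xn n) fun L => cact f (ρ L) * g := by
  ext z
  rw [BoundedContinuousFunction.mul_apply, yud_apply, mnB_apply, mul_comm, ← mn_mul]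
  exact yud_congr fun L _ => mul_comm _ _

theorem yud_ind (hn : 0 < n) (hM : 0 < M) (hc : n.Coprime M) (h : IsR n M s ρ) (hf : GInv M f)
    (hg : GInv M g) {L L' : Set V2} (hL : L ∈ Xn n) (hL' : L' ∈ Xn n) :
    IN (M * n) (cact g (ρ L) * f) = IN (M * n) (cact g (ρ L') * f) := by
  have hMn : 0 < M * n := Nat.mul_pos hM hn
  obtain ⟨γ, hγ, e⟩ := line_trans_Gamma hn hM hc ((mem_Xn hn).1 hL) ((mem_Xn hn).1 hL')
  obtain ⟨a1, a2, a3⟩ := h L hL
  obtain ⟨b1, b2, b3⟩ := h L' hL'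
  have h1 : GInv (M * n) (cact g (ρ L) * f : ℍ →ᵇ ℝ) :=
    yud_mul (ginv_cact hg (yud_pos hn a1) (yud_dvd a1 M)) (hf.mono (dvd_mul_right M n))
  rw [← IN_cact hMn hMn h1 (vact_SL_det γ) (by rw [γ.det_coe]; simp)]
  congr 1
  ext z
  have c := a3.mul (xkf_cg hγ)
  rw [mul_one] at c
  rw [cact_apply, BoundedContinuousFunction.mul_apply, BoundedContinuousFunction.mul_apply,
    cact_apply, cact_apply, ← act_mul (yud_pos hn a1) (vact_SL_det γ), act_SL, hf γ hγ,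
    act_eq_of_Ker hg hn hc (by rw [Matrix.det_mul, γ.det_coe, mul_one, a1]) b1
      (by rw [Ker_mul_pl, a2, b2, e]) c b3]

theorem yud_flip (hn : 0 < n) (hM : 0 < M) (hc : n.Coprime M) (h : IsR n M s ρ) (hf : GInv M f)
    (hg : GInv M g) {L : Set V2} (hL : L ∈ Xn n) :
    IN (M * n) (cact f (ρ L) * g) = IN (M * n) (cact g (ρ L) * f) := by
  have hMn : 0 < M * n := Nat.mul_pos hM hn
  obtain ⟨a1, a2, a3⟩ := h L hL
  have d : (ρ L).adjugate.det = n := by rw [xla_det_adj, a1]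
  have hL' : Ker n (ρ L).adjugate ∈ Xn n :=
    (mem_Xn hn).2 (isLn_Ker_adj hn a1 (a2.symm ▸ (mem_Xn hn).1 hL))
  obtain ⟨b1, b2, b3⟩ := h _ hL'
  have h1 : GInv (M * n) (cact g (ρ L).adjugate * f : ℍ →ᵇ ℝ) :=
    yud_mul (ginv_cact hg (yud_pos hn d) (yud_dvd d M)) (hf.mono (dvd_mul_right M n))
  have h2 : GInv (M * n) (cact f (ρ L) * g : ℍ →ᵇ ℝ) :=
    yud_mul (ginv_cact hf (yud_pos hn a1) (yud_dvd a1 M)) (hg.mono (dvd_mul_right M n))
  have e1 : cact g (ρ (Ker n (ρ L).adjugate)) = cact g (ρ L).adjugate := by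
    ext z
    exact act_eq_of_Ker hg hn hc b1 d b2.le b3 (yud_adj a3) z
  rw [yud_ind hn hM hc h hf hg hL hL', e1,
    ← IN_cact hMn (Nat.mul_pos hMn hn) h1 (yud_pos hn a1) (yud_dvd a1 _),
    ← IN_level hMn (Nat.mul_pos hMn hn) (dvd_mul_right _ n) h2]
  congr 1
  ext z
  rw [cact_apply, BoundedContinuousFunction.mul_apply, BoundedContinuousFunction.mul_apply,
    cact_apply, cact_apply, ← act_mul (yud_pos hn d) (yud_pos hn a1), Matrix.adjugate_mul,
    act_smul (by simp) (yud_pos hn a1).ne', act_one, mul_comm]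

theorem HK_sym (hn : 0 < n) (hM : 0 < M) (hc : n.Coprime M) (h : IsR n M s ρ) (hf : GInv M f)
    (hg : GInv M g) : IN M (HK n ρ f * g) = IN M (f * HK n ρ g) := by
  have hMn : 0 < M * n := Nat.mul_pos hM hn
  rw [mul_comm f, ← IN_level hM hMn (dvd_mul_right M n) (yud_mul (HK_ginv hn hc h hf) hg),
    ← IN_level hM hMn (dvd_mul_right M n) (yud_mul (HK_ginv hn hc h hg) hf), yud_HK_mul,
    yud_HK_mul, IN_mnB hMn, IN_mnB hMn]
  exact yud_congr fun L hL => yud_flip hn hM hc h hf hg hL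

theorem yud_seq {b : ℕ → ℝ} (h0 : ∀ j, 0 ≤ b j) (h1 : b 0 ≤ 1)
    (h2 : ∀ j, b (j + 1) ^ 2 ≤ b j * b (j + 2)) (i : ℕ) : b 1 ^ (i + 1) ≤ b (i + 1) := by
  have key : ∀ j, b 1 * b j ≤ b (j + 1) := by
    intro j
    induction j with
    | zero => exact mul_le_of_le_one_right (h0 1) h1
    | succ j ih =>
      rcases (h0 (j + 1)).eq_or_lt with e | e
      · rw [← e, mul_zero]
        exact h0 _
      · refine le_of_mul_le_mul_left ?_ e
        have h3 := mul_le_mul_of_nonneg_left (h2 j) (h0 1)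
        have h4 := mul_le_mul_of_nonneg_right ih (h0 (j + 2))
        nlinarith
  induction i with
  | zero => simp
  | succ i ih =>
    rw [pow_succ']
    exact (mul_le_mul_of_nonneg_left ih (h0 1)).trans (key _)

theorem HK_pow (hn : 0 < n) (hM : 0 < M) (hc : n.Coprime M) (h : IsR n M s ρ) (hf : GInv M f)
    (hb : ∀ z, |f z| ≤ 1) {i : ℕ} (hi : 0 < i) :
    IN M (HK n ρ f * HK n ρ f) ^ i ≤ IN M ((HK n ρ)^[i] f * (HK n ρ)^[i] f) := by
  have hG : ∀ j, GInv M ((HK n ρ)^[j] f) := by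
    intro j
    induction j with
    | zero => exact hf
    | succ j ih =>
      rw [Function.iterate_succ_apply']
      exact HK_ginv hn hc h ih
  obtain ⟨k, rfl⟩ : ∃ k, i = k + 1 := ⟨i - 1, by omega⟩
  refine yud_seq (b := fun j => IN M ((HK n ρ)^[j] f * (HK n ρ)^[j] f)) (fun j => yud_sq hM _) ?_
    (fun j => ?_) k
  · refine le_trans (IN_mono hM fun z => ?_) (IN_const hM 1).le
    exact (abs_mul_abs_self (f z)).symm.le.trans (mul_le_one₀ (hb z) (abs_nonneg _) (hb z))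
  · have e := HK_sym hn hM hc h (hG j) (hG (j + 1))
    rw [← Function.iterate_succ_apply' (HK n ρ) j, ← Function.iterate_succ_apply' (HK n ρ)] at e
    rw [e]
    exact IN_cs hM _ _

theorem HK_iter (hn : 0 < n) (h : ∀ L ∈ Xn n, (ρ L).det = n) (f : ℍ →ᵇ ℝ) (i : ℕ) (z : ℍ) :
    (HK n ρ)^[i] f z = mn (WK n i) fun t => f (act (wk ρ i t) z) := by
  induction i generalizing z with
  | zero =>
    have hne : (WK n 0).Nonempty := ⟨Fin.elim0, Fintype.mem_piFinset.2 fun j => j.elim0⟩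
    rw [Function.iterate_zero_apply, ← mn_const hne (f z)]
    exact yud_congr fun t _ => by rw [wk, act_one]
  | succ i ih =>
    rw [Function.iterate_succ_apply', yud_apply, mn_WK]
    refine yud_congr fun L hL => ?_
    rw [ih]
    refine yud_congr fun t ht => ?_
    have d : 0 < (wk ρ i t).det := by
      rw [wk_det h i ht]
      positivity
    rw [wk, Fin.tail_cons, Fin.cons_zero, act_mul d (yud_pos hn (h L hL))]

end Pool.Agent.EQ
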