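import Pool.Agent.P.MP_ad7a55_nt.YUc
import Pool.Agent.P.MP_ad7a55_nt.YUe
import Pool.Agent.P.MP_ad7a55_nt.XKc

/-! A high power of the Hecke average on new functions. -/

set_option autoImplicit false

noncomputable section

open MeasureTheory Topology Filter UpperHalfPlane Finset
open scoped MatrixGroups BoundedContinuousFunction Matrix Classical

namespace Pool.Agent.EQ

theorem yuf_abs {τ G κ : Type} [Group G] [Fintype G] [DecidableEq G] (T : Finset τ)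
    (R : Finset κ) (cl : τ → κ) (d : τ → G) (hcl : ∀ t ∈ T, cl t ∈ R) (F : κ → G → ℝ) (hF : ∀ c g, |F c g| ≤ 1) {P : ℝ}
    (hP : 0 ≤ P) (hb : ∀ c (k : G → ℝ), P * ∑ g, (∑ h, k h * F c (h * g)) ^ 2 ≤
      Fintype.card G * (∑ h, k h ^ 2) * ∑ g, F c g ^ 2) :
    P * ∑ g, (∑ t ∈ T, F (cl t) (d t * g)) ^ 2 ≤
      #R * (Fintype.card G : ℝ) ^ 2 * #{z ∈ T ×ˢ T | d z.1 = d z.2} := by
  set k : κ → G → ℝ := fun c h => (#{t ∈ T | cl t = c ∧ d t = h} : ℝ) with hk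
  have h1 : ∀ g, ∑ t ∈ T, F (cl t) (d t * g) = ∑ c ∈ R, ∑ h, k c h * F c (h * g) := by
    intro g
    rw [← Finset.sum_product' R univ (fun c h => k c h * F c (h * g)),
      ← Finset.sum_fiberwise_of_maps_to (s := T) (t := R ×ˢ (univ : Finset G))
        (g := fun t => (cl t, d t)) (fun t ht => mem_product.2 ⟨hcl t ht, mem_univ _⟩)]
    refine sum_congr rfl fun x _ => ?_
    rw [sum_congr rfl (g := fun _ => F x.1 (x.2 * g)) fun t ht => by
      have := (mem_filter.1 ht).2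
      rw [← this], sum_const, nsmul_eq_mul]
    simp only [hk, Prod.ext_iff]
  have h2 : ∑ c ∈ R, ∑ h, k c h ^ 2 ≤ (#{z ∈ T ×ˢ T | d z.1 = d z.2} : ℝ) := by
    rw [← Finset.sum_product' R univ (fun c h => k c h ^ 2),
      card_eq_sum_card_fiberwise (t := R ×ˢ (univ : Finset G)) (f := fun z => (cl z.1, d z.1))
        (fun z hz => mem_coe.2 (mem_product.2
          ⟨hcl _ (mem_product.1 (mem_filter.1 (mem_coe.1 hz)).1).1, mem_univ _⟩))]
    push_cast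
    refine sum_le_sum fun x _ => ?_
    simp only [hk]
    rw [sq, ← Nat.cast_mul, ← card_product]
    refine Nat.cast_le.2 (card_le_card fun z hz => ?_)
    simp only [mem_product, mem_filter] at hz ⊢
    obtain ⟨⟨a1, a2, a3⟩, b1, b2, b3⟩ := hz
    exact ⟨⟨⟨a1, b1⟩, a3.trans b3.symm⟩, Prod.ext a2 a3⟩
  have h3 : ∀ c, ∑ g, F c g ^ 2 ≤ (Fintype.card G : ℝ) := by
    intro c
    calc ∑ g, F c g ^ 2 ≤ ∑ _g : G, (1 : ℝ) := sum_le_sum fun g _ => by
          have := hF c g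
          rw [← sq_abs]
          nlinarith [abs_nonneg (F c g)]
      _ = _ := by simp
  calc P * ∑ g, (∑ t ∈ T, F (cl t) (d t * g)) ^ 2
      ≤ P * ∑ g, #R * ∑ c ∈ R, (∑ h, k c h * F c (h * g)) ^ 2 := by
        refine mul_le_mul_of_nonneg_left (sum_le_sum fun g _ => ?_) hP
        rw [h1]
        exact sq_sum_le_card_mul_sum_sq
    _ = #R * ∑ c ∈ R, P * ∑ g, (∑ h, k c h * F c (h * g)) ^ 2 := by
        rw [← mul_sum, sum_comm, ← mul_sum]; ring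
    _ ≤ #R * ∑ c ∈ R, (Fintype.card G : ℝ) ^ 2 * ∑ h, k c h ^ 2 := by
        refine mul_le_mul_of_nonneg_left (sum_le_sum fun c _ => (hb c (k c)).trans ?_)
          (Nat.cast_nonneg _)
        have h4 : 0 ≤ (Fintype.card G : ℝ) * ∑ h, k c h ^ 2 :=
          mul_nonneg (Nat.cast_nonneg _) (sum_nonneg fun _ _ => sq_nonneg _)
        have h5 := mul_le_mul_of_nonneg_left (h3 c) h4
        linarith
    _ ≤ _ := by
        rw [← mul_sum, mul_assoc]
        exact mul_le_mul_of_nonneg_left (mul_le_mul_of_nonneg_left h2 (sq_nonneg _))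
          (Nat.cast_nonneg _)

variable {n M : ℕ} {s : ℤ} {ρ : Set V2 → M2} {f : ℍ →ᵇ ℝ}

theorem yuf_ginv (hn : 0 < n) (hc : n.Coprime M) (h : IsR n M s ρ) (hf : GInv M f) (i : ℕ) :
    GInv M ((HK n ρ)^[i] f) := by
  induction i with
  | zero => exact hf
  | succ i ih => rw [Function.iterate_succ_apply']; exact HK_ginv hn hc h ih

theorem yuf_smul (hn : 0 < n) (hc : n.Coprime M) (h : IsR n M s ρ) (hf : GInv M f) (i : ℕ)
    (γ : SL(2, ℤ)) (z : ℍ) : (HK n ρ)^[i] f (γ • z) = (HK n ρ)^[i] (cact f γ) z := by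
  induction i generalizing z with
  | zero => simp only [Function.iterate_zero, id_eq, cact_apply, act_SL]
  | succ i ih =>
    rw [Function.iterate_succ_apply', Function.iterate_succ_apply',
      HK_smul hn hc h (yuf_ginv hn hc h hf i)]
    have e : cact ((HK n ρ)^[i] f) γ = (HK n ρ)^[i] (cact f γ) := by
      ext w
      rw [cact_apply, act_SL, ih]
    rw [e]

theorem yuf_IN (hn : 0 < n) (hM : 0 < M) (hc : n.Coprime M) (h : IsR n M s ρ) (hf : GInv M f)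
    (i : ℕ) : IN M ((HK n ρ)^[i] f) = IN M f := by
  induction i with
  | zero => rfl
  | succ i ih =>
    rw [Function.iterate_succ_apply', IN_HK hn hM hc h (yuf_ginv hn hc h hf i), ih]

theorem yuf_mk (hf : GInv M f) (γ : SL(2, ℤ)) (w : ℍ) :
    f ((γ : vcjQ M).out⁻¹ • w) = f (γ⁻¹ • w) := by
  obtain ⟨h, e⟩ := QuotientGroup.mk_out_eq_mul (CongruenceSubgroup.Gamma M) γ
  rw [e, mul_inv_rev, mul_smul, hf _ (inv_mem h.2)]

theorem yuf_mul (hf : GInv M f) (g h : vcjQ M) (w : ℍ) :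
    f ((g * h).out⁻¹ • w) = f (h.out⁻¹ • g.out⁻¹ • w) := by
  have e : g * h = ((g.out * h.out : SL(2, ℤ)) : vcjQ M) := by
    rw [QuotientGroup.mk_mul, QuotientGroup.out_eq', QuotientGroup.out_eq']
  rw [e, yuf_mk hf, mul_inv_rev, mul_smul]

theorem yuf_zero {R : ℕ} (hM : 0 < M) (hR : R ∣ M) (hf : GInv M f) (hz : ZM R M f) (g : vcjQ M)
    (w : ℍ) : ∑ h ∈ cs R M, f ((g * h).out⁻¹ • w) = 0 := by
  have h1 := (cs_shift hM hR (F := fun γ => f (γ • g.out⁻¹ • w))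
    (fun γ δ hδ => by rw [mul_smul, hf δ hδ]) (one_mem _)).2.2
  rw [hz] at h1
  simp only [yuf_mul hf]
  have h2 : (#(cs R M) : ℝ) ≠ 0 := by exact_mod_cast (cs_ne hM hR).card_pos.ne'
  exact (div_eq_zero_iff.1 h1).resolve_right h2

theorem yuf_adj {η : M2} (h : Cg M η s) : Cg M η.adjugate s := by
  have e : ∀ (X : M2) i j, (X - s • (1 : M2)) i j = X i j - if i = j then s else 0 := by
    intro X i j
    simp only [Matrix.sub_apply, Matrix.smul_apply, Matrix.one_apply, smul_eq_mul, mul_ite,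
      mul_one, mul_zero]
  have h1 := h 0 0
  have h2 := h 0 1
  have h3 := h 1 0
  have h4 := h 1 1
  rw [e] at h1 h2 h3 h4
  intro i j
  rw [e, Matrix.adjugate_fin_two]
  fin_cases i <;> fin_cases j
  · simpa using h4
  · simpa using h2
  · simpa using h3
  · simpa using h1

theorem yuf_gam {γ : SL(2, ℤ)} (h : γ ∈ CongruenceSubgroup.Gamma M) : Cg M (γ : M2) 1 := by
  obtain ⟨h1, h2, h3, h4⟩ := CongruenceSubgroup.Gamma_mem.1 h
  intro i j
  rw [← ZMod.intCast_zmod_eq_zero_iff_dvd]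
  fin_cases i <;> fin_cases j <;> simp [h1, h2, h3, h4]

theorem yuf_pair {W W' : M2} (h : Cg M W s) (h' : Cg M W' s) {δ δ' : SL(2, ℤ)}
    (e : (δ : vcjQ M) = (δ' : vcjQ M)) :
    Cg M ((δ' : M2) * W' * ((δ : M2) * W).adjugate) (1 * (s * s)) := by
  have h1 := ((yuf_gam (QuotientGroup.eq.1 e)).mul (h'.mul (yuf_adj h))).conj δ
  have h2 : ((δ⁻¹ : SL(2, ℤ)) : M2) = (δ : M2).adjugate := Matrix.SpecialLinearGroup.coe_inv δ
  have h3 : (δ : M2) * ((δ⁻¹ * δ' : SL(2, ℤ)) : M2) = δ' := by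
    rw [← Matrix.SpecialLinearGroup.coe_mul, mul_inv_cancel_left]
  rw [← mul_assoc (δ : M2), h3, h2] at h1
  rw [Matrix.adjugate_mul_distrib]
  simpa only [mul_assoc] using h1

theorem yuf_card {l : ℕ} (hl : l.Prime) (a i : ℕ) : (l ^ a) ^ i ≤ #(WK (l ^ a) i) := by
  have h1 : l ^ a ≤ #(Xn (l ^ a)) := by
    rcases Nat.eq_zero_or_pos a with rfl | ha
    · rw [pow_zero]
      exact card_pos.2 ⟨Ln 1 ![1, 0], (mem_Xn one_pos).2 ⟨_, by simpa using isCoprime_one_left, rfl⟩⟩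
    · exact (card_Xn hl ha).1
  rw [WK, Fintype.card_piFinset, prod_const, card_univ, Fintype.card_fin]
  exact Nat.pow_le_pow_left h1 i

theorem yuf_PB (a i : ℕ) {w w' : ℕ} (h : w ≤ w') (H : ℝ) (n Q : ℕ) (ε : ℝ) :
    0 ≤ PB a i w' H n Q ε ∧ PB a i w H n Q ε ≤ PB a i w' H n Q ε := by
  unfold PB
  refine ⟨by positivity, ?_⟩
  gcongr
  norm_num

theorem yuf_point [Fintype (vcjQ M)] {l a i : ℕ} (hl : l.Prime) (hc : (l ^ a).Coprime M)
    (h : IsR (l ^ a) M s ρ) (hf : GInv M f) (hb : ∀ z, |f z| ≤ 1) {K U P B : ℝ} (hK : 0 ≤ K)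
    (hL : Lip K f) (hU : 1 ≤ U) (hP : 0 < P)
    (hbn : ∀ (w : ℍ) (k : vcjQ M → ℝ), P * ∑ g, (∑ h, k h * f ((h * g).out⁻¹ • w)) ^ 2 ≤
      Fintype.card (vcjQ M) * (∑ h, k h ^ 2) * ∑ g : vcjQ M, f (g.out⁻¹ • w) ^ 2)
    (hpc : ∀ (T : Finset (Fin i → Set V2)) (η : (Fin i → Set V2) → M2), T ⊆ WK (l ^ a) i →
      (∀ t ∈ T, (∃ δ : SL(2, ℤ), η t = (δ : M2) * wk ρ i t) ∧
        ∀ j j', |(η t j j' : ℝ)| ≤ 4 * U ^ 2 * Real.sqrt ((l ^ a) ^ i : ℕ)) →
      (#{z ∈ T ×ˢ T | ∃ s : ℤ, Cg M (η z.2 * (η z.1).adjugate) s} : ℝ) ≤ B)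
    {R : Finset ℍ} {cl : ℍ → ℍ} (hR : ∀ τ ∈ KU U, cl τ ∈ R ∧ dist τ (cl τ) ≤ 1 / U)
    {χ : ℍ →ᵇ ℝ} (h1 : ∀ (γ : SL(2, ℤ)) z, χ (γ • z) = χ z) (h2 : ∀ z, 0 ≤ χ z ∧ χ z ≤ 1)
    (h3 : ∀ z ∈ ModularGroup.fd, z ∉ KU U → χ z = 1) {z : ℍ} (hz : z ∈ KU U) :
    ∑ g : vcjQ M, (HK (l ^ a) ρ)^[i] f (g.out⁻¹ • z) ^ 2 ≤ Fintype.card (vcjQ M) *
      (4 * (HK (l ^ a) ρ)^[i] χ z + (4 * (K / U) ^ 2 +
        2 * (#R * Fintype.card (vcjQ M) * B / P / ((l ^ a : ℕ) : ℝ) ^ (2 * i)))) := by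
  have hn : 0 < l ^ a := pow_pos hl.pos a
  have hdet : ∀ L ∈ Xn (l ^ a), (ρ L).det = (l ^ a : ℕ) := fun L hL => (h L hL).1
  choose δ hδ using fun t : Fin i → Set V2 => ModularGroup.exists_smul_mem_fd (act (wk ρ i t) z)
  set W := WK (l ^ a) i with hW
  set w : (Fin i → Set V2) → ℍ := fun t => δ t • act (wk ρ i t) z with hw
  set T := W.filter fun t => w t ∈ KU U with hT
  have hcard : (((l ^ a : ℕ) : ℝ)) ^ i ≤ #W := by exact_mod_cast yuf_card hl a i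
  have hn' : (0 : ℝ) < ((l ^ a : ℕ) : ℝ) ^ i := by positivity
  have hW0 : (0 : ℝ) < #W := hn'.trans_le hcard
  have hWne : W.Nonempty := card_pos.1 (by exact_mod_cast hW0)
  have hwd : ∀ t ∈ W, (wk ρ i t).det = (((l ^ a) ^ i : ℕ) : ℤ) := fun t ht => by
    rw [wk_det hdet i ht]; push_cast; rfl
  have hB := hpc T (fun t => (δ t : M2) * wk ρ i t) (filter_subset _ _) fun t ht => by
    obtain ⟨t1, t2⟩ := mem_filter.1 ht
    refine ⟨⟨δ t, rfl⟩, ht_le_KU hU (pow_pos hn i) ?_ hz ?_⟩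
    · rw [Matrix.det_mul, (δ t).det_coe, one_mul, hwd t t1]
    · rw [act_mul (vact_SL_det _) (by rw [hwd t t1]; exact_mod_cast pow_pos hn i), act_SL]
      exact t2
  have hA := yuf_abs T R (fun t => cl (w t)) (fun t => (δ t : vcjQ M))
    (fun t ht => (hR _ (mem_filter.1 ht).2).1) (fun c g => f (g.out⁻¹ • c)) (fun c g => hb _)
    hP.le hbn
  have hS : P * ∑ g : vcjQ M, (∑ t ∈ T, f (((δ t : vcjQ M) * g).out⁻¹ • cl (w t))) ^ 2 ≤
      #R * (Fintype.card (vcjQ M) : ℝ) ^ 2 * B := by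
    refine hA.trans (mul_le_mul_of_nonneg_left ?_ (mul_nonneg (Nat.cast_nonneg _) (sq_nonneg _)))
    refine le_trans (Nat.cast_le.2 (card_le_card fun y hy => ?_)) hB
    obtain ⟨y1, y2⟩ := mem_filter.1 hy
    obtain ⟨y3, y4⟩ := mem_product.1 y1
    exact mem_filter.2 ⟨y1, _, yuf_pair (wk_Cg (fun L hL => (h L hL).2.2) i (mem_filter.1 y3).1)
      (wk_Cg (fun L hL => (h L hL).2.2) i (mem_filter.1 y4).1) y2⟩
  have hB0 : 0 ≤ B := le_trans (Nat.cast_nonneg _) hB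
  set X := (HK (l ^ a) ρ)^[i] χ z with hX
  have hXe : X = mn W fun t => χ (w t) := by
    rw [hX, HK_iter hn hdet]
    simp only [hw, h1, hW]
  have hX0 : 0 ≤ X := by
    rw [hXe, ← mn_const hWne 0]
    exact mn_mono fun t _ => (h2 _).1
  have hX1 : X ≤ 1 := by
    rw [hXe, ← mn_const hWne 1]
    exact mn_mono fun t _ => (h2 _).2
  set m : vcjQ M → ℝ := fun g => ∑ t ∈ T, f (((δ t : vcjQ M) * g).out⁻¹ • cl (w t)) with hm
  have hKU : 0 ≤ K / U := div_nonneg hK (by linarith)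
  have hg : ∀ g : vcjQ M, |(HK (l ^ a) ρ)^[i] f (g.out⁻¹ • z) - m g / #W| ≤ K / U + X := by
    intro g
    have e1 : (HK (l ^ a) ρ)^[i] f (g.out⁻¹ • z) =
        mn W fun t => f (((δ t : vcjQ M) * g).out⁻¹ • w t) := by
      rw [yuf_smul hn hc h hf, HK_iter hn hdet]
      refine congrArg (mn W) (funext fun t => ?_)
      have e2 : (δ t : vcjQ M) * g = ((δ t * g.out : SL(2, ℤ)) : vcjQ M) := by
        rw [QuotientGroup.mk_mul, QuotientGroup.out_eq']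
      rw [cact_apply, act_SL, e2, yuf_mk hf, mul_inv_rev, mul_smul, hw, inv_smul_smul]
    have e3 : m g / #W = mn W fun t =>
        if w t ∈ KU U then f (((δ t : vcjQ M) * g).out⁻¹ • cl (w t)) else 0 := by
      simp only [hm, hT, mn, sum_filter]
    have e4 : ∀ G G' : (Fin i → Set V2) → ℝ, mn W G - mn W G' = mn W fun t => G t - G' t := by
      intro G G'
      simp only [mn, sum_sub_distrib, sub_div]
    rw [e1, e3, e4, hXe, ← mn_const hWne (K / U), ← mn_add]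
    refine (abs_mn_le _ _).trans (mn_mono fun t _ => ?_)
    by_cases ht : w t ∈ KU U
    · rw [if_pos ht]
      refine (hL _ _).trans ?_
      rw [← act_SL, ← act_SL, dist_act (vact_SL_det _)]
      have e5 := mul_le_mul_of_nonneg_left (hR _ ht).2 hK
      rw [mul_one_div] at e5
      linarith [(h2 (w t)).1]
    · rw [if_neg ht, sub_zero, h3 (w t) (hδ t) ht]
      linarith [hb (((δ t : vcjQ M) * g).out⁻¹ • w t)]
  have hsq : ∀ g : vcjQ M, (HK (l ^ a) ρ)^[i] f (g.out⁻¹ • z) ^ 2 ≤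
      (4 * X + 4 * (K / U) ^ 2) + 2 / (#W : ℝ) ^ 2 * m g ^ 2 := by
    intro g
    have e1 := hg g
    have e2 : 2 / (#W : ℝ) ^ 2 * m g ^ 2 = 2 * (m g / #W) ^ 2 := by ring
    rw [e2]
    generalize (HK (l ^ a) ρ)^[i] f (g.out⁻¹ • z) = x at e1
    generalize m g / #W = y at e1
    generalize K / U = c at e1 hKU
    have e3 : (x - y) ^ 2 ≤ (c + X) ^ 2 := by
      rw [← sq_abs]
      exact pow_le_pow_left₀ (abs_nonneg _) e1 2
    nlinarith [sq_nonneg (x - 2 * y), sq_nonneg (c - X), mul_nonneg hX0 (sub_nonneg.2 hX1)]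
  have hm2 : ∑ g, m g ^ 2 ≤ #R * (Fintype.card (vcjQ M) : ℝ) ^ 2 * B / P := by
    rw [le_div_iff₀ hP, mul_comm]
    exact hS
  have hW2 : 2 / (#W : ℝ) ^ 2 ≤ 2 / ((l ^ a : ℕ) : ℝ) ^ (2 * i) := by
    rw [mul_comm 2 i, pow_mul]
    gcongr
  calc _ ≤ ∑ g : vcjQ M, ((4 * X + 4 * (K / U) ^ 2) + 2 / (#W : ℝ) ^ 2 * m g ^ 2) :=
        sum_le_sum fun g _ => hsq g
    _ = Fintype.card (vcjQ M) * (4 * X + 4 * (K / U) ^ 2) + 2 / (#W : ℝ) ^ 2 * ∑ g, m g ^ 2 := by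
        rw [sum_add_distrib, sum_const, card_univ, nsmul_eq_mul, mul_sum]
    _ ≤ Fintype.card (vcjQ M) * (4 * X + 4 * (K / U) ^ 2) +
          2 / ((l ^ a : ℕ) : ℝ) ^ (2 * i) * (#R * (Fintype.card (vcjQ M) : ℝ) ^ 2 * B / P) := by
        gcongr
    _ = _ := by ring

theorem yuf_int [Fintype (vcjQ M)] (hM : 0 < M) {φ ψ : ℍ →ᵇ ℝ}
    (hψ : ∀ (γ : SL(2, ℤ)) z, ψ (γ • z) = ψ z)
    (h : ∀ z ∈ ModularGroup.fd, ∑ g : vcjQ M, φ (g.out⁻¹ • z) ≤ Fintype.card (vcjQ M) * ψ z) :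
    IN M φ ≤ IN 1 ψ := by
  have : NeZero M := ⟨hM.ne'⟩
  have := vmh_prob
  have hi : ∀ g : vcjQ M, Integrable (fun τ => φ (g.out⁻¹ • τ))
      (ProbabilityTheory.cond (volume : Measure ℍ) ModularGroup.fd) := fun g => by
    have := (cact φ ((g.out⁻¹ : SL(2, ℤ)) : M2)).integrable
      (ProbabilityTheory.cond (volume : Measure ℍ) ModularGroup.fd)
    simpa only [funext_iff.2 (cact_apply φ _), act_SL] using this
  have hc : (0 : ℝ) < Fintype.card (vcjQ M) := by exact_mod_cast Fintype.card_pos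
  rw [IN_fd one_pos hψ, IN, integral_mH, finsum_eq_sum_of_fintype,
    ← integral_finsetSum _ fun g _ => hi g, Subgroup.index, Nat.card_eq_fintype_card,
    inv_mul_le_iff₀ hc, ← integral_const_mul]
  refine integral_mono_ae (integrable_finsetSum _ fun g _ => hi g)
    ((ψ.integrable _).const_mul _) ?_
  exact (ProbabilityTheory.ae_cond_mem ModularGroup.isClosed_fd.measurableSet).mono h

theorem ug_pow {ε : ℝ} (hε : 0 < ε) : ∃ C : ℝ, 0 < C ∧ ∀ (a M₀ M l i : ℕ) (A : Finset ℕ) (s : ℤ)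
    (ρ : Set V2 → M2) (f : ℍ →ᵇ ℝ) (K U : ℝ), 0 < M₀ → M = M₀ * ∏ p ∈ A, p ^ a →
    (∀ p ∈ A, p.Prime ∧ p ≠ 2 ∧ ¬ p ∣ M₀ ∧ p ≠ l) → l.Prime → ¬ l ∣ M₀ → IsR (l ^ a) M s ρ →
    GInv M f → (∀ z, |f z| ≤ 1) → 0 ≤ K → Lip K f → (∀ p ∈ A, ZM (M / p ^ a) M f) → 1 ≤ U →
    IN M ((HK (l ^ a) ρ)^[i] f * (HK (l ^ a) ρ)^[i] f) ≤ C * (1 + K) ^ 2 / U +
      C * U ^ 3 * (M : ℝ) ^ 3 / (∏ p ∈ A, ((p : ℝ) - 1) / 2) *
        PB a i #A (4 * U ^ 2) (l ^ a : ℕ) (∏ p ∈ A, p ^ a : ℕ) ε / ((l ^ a : ℕ) : ℝ) ^ (2 * i) := by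
  obtain ⟨C1, hC1, H1⟩ := net_card
  obtain ⟨C2, hC2, H2⟩ := exists_cut
  obtain ⟨C3, hC3, H3⟩ := pair_count hε
  refine ⟨5 * C2 + 4 + 2 * C1 * C3, by positivity, ?_⟩
  intro a M₀ M l i A s ρ f K U hM₀ hM hp hl hlM h hf hb hK hL hz hU
  have hU0 : 0 < U := by linarith
  set Q := ∏ p ∈ A, p ^ a with hQ
  have hQ0 : 0 < Q := prod_pos fun p hp' => pow_pos (hp p hp').1.pos a
  have hM0 : 0 < M := hM ▸ mul_pos hM₀ hQ0
  have hQM : Q ∣ M := hM ▸ dvd_mul_left _ _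
  have hfac : ∀ q : ℕ, q.Prime → q ∣ Q → q ∈ A := fun q hq hd => by
    obtain ⟨p, hpA, hd'⟩ := (Prime.dvd_finsetProd_iff hq.prime _).1 hd
    rwa [(Nat.prime_dvd_prime_iff_eq hq (hp p hpA).1).1 (hq.dvd_of_dvd_pow hd')]
  have hlQ : ¬ l ∣ Q := fun hd => (hp l (hfac l hl hd)).2.2.2 rfl
  have hodd : Odd Q := Nat.not_even_iff_odd.1 fun he =>
    (hp 2 (hfac 2 Nat.prime_two he.two_dvd)).2.1 rfl
  have hw : #Q.primeFactors ≤ #A := card_le_card fun q hq =>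
    hfac q (Nat.prime_of_mem_primeFactors hq) (Nat.dvd_of_mem_primeFactors hq)
  have hn : 0 < l ^ a := pow_pos hl.pos a
  have hc : (l ^ a).Coprime M := by
    refine Nat.Coprime.pow_left a ((Nat.Prime.coprime_iff_not_dvd hl).2 fun hd => ?_)
    rw [hM] at hd
    exact ((Nat.Prime.dvd_mul hl).1 hd).elim hlM hlQ
  have := vcj_fin hM0
  have : Fintype (vcjQ M) := Fintype.ofFinite _
  set P := ∏ p ∈ A, ((p : ℝ) - 1) / 2 with hPe
  have hP : 0 < P := prod_pos fun p hp' => by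
    have : (2 : ℝ) ≤ p := by exact_mod_cast (hp p hp').1.two_le
    linarith
  obtain ⟨R, cl, hR1, hR2⟩ := H1 U (1 / U) hU (by positivity) ((div_le_one hU0).2 hU)
  obtain ⟨χ, c1, c2, c3, c4⟩ := H2 U hU
  obtain ⟨hPB0, hPB⟩ := yuf_PB a i hw (4 * U ^ 2) (l ^ a) Q ε
  set B := PB a i #A (4 * U ^ 2) (l ^ a : ℕ) (Q : ℕ) ε with hB
  have hχ : GInv 1 χ := fun γ _ z => c1 γ z
  have h' := h.mono (one_dvd M)
  have hc' := Nat.coprime_one_right (l ^ a)
  have hXi := yuf_ginv hn hc' h' hχ i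
  have hX0 : ∀ z, 0 ≤ (HK (l ^ a) ρ)^[i] χ z := fun z => by
    rw [HK_iter hn fun L hL => (h L hL).1]
    exact div_nonneg (sum_nonneg fun t _ => (c2 _).1) (by positivity)
  set D := 4 * (K / U) ^ 2 + 2 * (#R * Fintype.card (vcjQ M) * (C3 * B) / P /
    ((l ^ a : ℕ) : ℝ) ^ (2 * i)) with hD
  have hD0 : 0 ≤ D := by positivity
  have hG0 : (0 : ℝ) ≤ Fintype.card (vcjQ M) := by positivity
  have key : IN M ((HK (l ^ a) ρ)^[i] f * (HK (l ^ a) ρ)^[i] f) ≤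
      IN 1 (χ + (4 : ℝ) • (HK (l ^ a) ρ)^[i] χ + BoundedContinuousFunction.const ℍ D) := by
    refine yuf_int hM0 (fun γ z => ?_) fun z hz' => ?_
    · have e := hXi γ (by rw [CongruenceSubgroup.Gamma_one_top]; trivial) z
      simp only [BoundedContinuousFunction.add_apply, BoundedContinuousFunction.smul_apply,
        BoundedContinuousFunction.const_apply', c1, e]
    · simp only [BoundedContinuousFunction.add_apply, BoundedContinuousFunction.smul_apply,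
        BoundedContinuousFunction.const_apply', ← sq, smul_eq_mul]
      by_cases hzU : z ∈ KU U
      · refine (yuf_point hl hc h hf hb hK hL hU hP (B := C3 * B) (fun w k => ?_)
          (fun T η t1 t2 => ?_) hR2 c1 c2 c3 hzU).trans ?_
        · exact bnp hM₀ A (fun p hp' => ⟨(hp p hp').1, (hp p hp').2.1, (hp p hp').2.2.1⟩) hM k
            (fun g => f (g.out⁻¹ • w)) fun p hp' g =>
              yuf_zero hM0 (Nat.div_dvd_of_dvd ((dvd_prod_of_mem _ hp').trans hQM)) hf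
                (hz p hp') g w
        · refine le_trans (Nat.cast_le.2 (card_le_card fun y hy => ?_))
            ((H3 l a i Q (4 * U ^ 2) ρ T η hl hodd hlQ (by nlinarith)
              (fun L hL => ⟨(h L hL).1, (h L hL).2.1⟩) t1 t2).trans
                (mul_le_mul_of_nonneg_left hPB hC3.le))
          obtain ⟨y1, s', y2⟩ := mem_filter.1 hy
          exact mem_filter.2 ⟨y1, s', y2.mono hQM⟩
        · refine mul_le_mul_of_nonneg_left ?_ hG0
          linarith [(c2 z).1]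
      · have e1 : ∀ y, (HK (l ^ a) ρ)^[i] f y ^ 2 ≤ 1 := fun y => by
          rw [sq_le_one_iff_abs_le_one, HK_iter hn fun L hL => (h L hL).1]
          have hWne : (WK (l ^ a) i).Nonempty :=
            card_pos.1 ((pow_pos hn i).trans_le (yuf_card hl a i))
          refine (abs_mn_le _ _).trans ?_
          rw [← mn_const hWne 1]
          exact mn_mono fun t _ => hb _
        calc _ ≤ ∑ _g : vcjQ M, (1 : ℝ) := sum_le_sum fun g _ => e1 _
          _ = Fintype.card (vcjQ M) * 1 := by simp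
          _ ≤ _ := by
            refine mul_le_mul_of_nonneg_left ?_ hG0
            rw [c3 z hz' hzU]
            linarith [hX0 z]
  rw [IN_add one_pos, IN_add one_pos, IN_smul, IN_const one_pos,
    yuf_IN hn one_pos hc' h' hχ] at key
  have hG : (Fintype.card (vcjQ M) : ℝ) ≤ (M : ℝ) ^ 3 := by
    have e := index_Gamma_le hM0
    rw [Subgroup.index, Nat.card_eq_fintype_card] at e
    exact_mod_cast e
  have hR3 : (#R : ℝ) ≤ C1 * U ^ 3 := hR1.trans (le_of_eq (by field_simp))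
  have b1 : 5 * (C2 / U) + 4 * (K / U) ^ 2 ≤ (5 * C2 + 4 + 2 * C1 * C3) * (1 + K) ^ 2 / U := by
    have e1 : (K / U) ^ 2 ≤ (1 + K) ^ 2 / U := by
      rw [div_pow]
      gcongr
      · linarith
      · nlinarith
    have e2 : C2 / U ≤ C2 * (1 + K) ^ 2 / U := by
      gcongr
      nlinarith [mul_nonneg hC2.le hK, mul_nonneg hC2.le (sq_nonneg K)]
    have e3 : 0 ≤ 2 * C1 * C3 * (1 + K) ^ 2 / U := by positivity
    have e4 : (5 * C2 + 4 + 2 * C1 * C3) * (1 + K) ^ 2 / U = 5 * (C2 * (1 + K) ^ 2 / U) +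
        4 * ((1 + K) ^ 2 / U) + 2 * C1 * C3 * (1 + K) ^ 2 / U := by ring
    linarith
  have b2 : 2 * (#R * Fintype.card (vcjQ M) * (C3 * B) / P / ((l ^ a : ℕ) : ℝ) ^ (2 * i)) ≤
      (5 * C2 + 4 + 2 * C1 * C3) * U ^ 3 * (M : ℝ) ^ 3 / P * B / ((l ^ a : ℕ) : ℝ) ^ (2 * i) := by
    calc _ ≤ 2 * (C1 * U ^ 3 * (M : ℝ) ^ 3 * (C3 * B) / P / ((l ^ a : ℕ) : ℝ) ^ (2 * i)) := by
          gcongr
      _ = (2 * C1 * C3) * U ^ 3 * (M : ℝ) ^ 3 / P * B / ((l ^ a : ℕ) : ℝ) ^ (2 * i) := by ring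
      _ ≤ _ := by
          gcongr
          linarith
  linarith

end Pool.Agent.EQ
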