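import Pool.Agent.P.MP_ad7a55_nt.YUf

/-! The Hecke average on new functions. -/

set_option autoImplicit false

noncomputable section

open MeasureTheory Topology Filter UpperHalfPlane Finset
open scoped MatrixGroups BoundedContinuousFunction Matrix Classical

namespace Pool.Agent.EQ

theorem yug_eps (a α : ℕ) {x n : ℝ} (hx : 1 ≤ x) (hn : 0 ≤ n)
    (h : n ^ (3 * α) ≤ 2 ^ (3 * a * α) * x ^ (1500 * a)) :
    (2 * (4 * (x ^ 3) ^ 2) ^ 2 * n ^ (3 * α)) ^ (1 / (100 * ((a : ℝ) + 1))) ≤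
      32 * 2 ^ α * x ^ 18 := by
  have hx0 : 0 ≤ x := by linarith
  have hZ : (0 : ℝ) ≤ 32 * 2 ^ α * x ^ 18 := by positivity
  have h1 : 2 * (4 * (x ^ 3) ^ 2) ^ 2 * n ^ (3 * α) ≤ (32 * 2 ^ α * x ^ 18) ^ (100 * (a + 1)) := by
    have e1 : (32 : ℝ) ≤ 32 ^ (100 * (a + 1)) := le_self_pow₀ (by norm_num) (by omega)
    have e2 : (2 : ℝ) ^ (3 * a * α) ≤ (2 ^ α) ^ (100 * (a + 1)) := by
      rw [← pow_mul]; exact pow_le_pow_right₀ (by norm_num) (by nlinarith)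
    have e3 : x ^ 12 * x ^ (1500 * a) ≤ (x ^ 18) ^ (100 * (a + 1)) := by
      rw [← pow_mul, ← pow_add]; exact pow_le_pow_right₀ hx (by omega)
    calc _ = 32 * x ^ 12 * n ^ (3 * α) := by ring
      _ ≤ 32 * x ^ 12 * (2 ^ (3 * a * α) * x ^ (1500 * a)) := by gcongr
      _ = 32 * 2 ^ (3 * a * α) * (x ^ 12 * x ^ (1500 * a)) := by ring
      _ ≤ 32 ^ (100 * (a + 1)) * (2 ^ α) ^ (100 * (a + 1)) * (x ^ 18) ^ (100 * (a + 1)) := by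
          gcongr
      _ = _ := by rw [mul_pow, mul_pow]
  have h2 : ((32 * 2 ^ α * x ^ 18) ^ (100 * (a + 1)) : ℝ) ^ (1 / (100 * ((a : ℝ) + 1))) =
      32 * 2 ^ α * x ^ 18 := by
    have := Real.pow_rpow_inv_natCast hZ (n := 100 * (a + 1)) (by omega)
    rw [one_div]
    simpa using this
  rw [← h2]
  exact Real.rpow_le_rpow (by positivity) h1 (by positivity)

/-- The constant of the numerical bound. -/
def yug_c (a : ℕ) (C : ℝ) : ℝ :=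
  (|C| + 1) * (65 ^ 4 * 32 * 1120 * (3 * a + 1) ^ 3) * (64 * (2 * (a + 1)) ^ 6 * 2 ^ (3 * a))

theorem yug_const (a α : ℕ) (C : ℝ) (hα : 1 ≤ α) :
    |C| * 2 ^ α * ((2 * ((a : ℝ) + 1)) ^ (2 * (3 * α)) * (a * (3 * α : ℕ) + 1) ^ 3) * 65 ^ 4 *
      2 ^ α * (32 * 2 ^ α) * (1120 * 2 ^ (3 * a * α)) ≤ yug_c a C ^ α := by
  have ha : (0 : ℝ) ≤ a := Nat.cast_nonneg a
  have h1 : (α : ℝ) ≤ 2 ^ α := by exact_mod_cast (Nat.lt_two_pow_self (n := α)).le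
  have hα' : (1 : ℝ) ≤ α := by exact_mod_cast hα
  have h2 : (a : ℝ) * (3 * α : ℕ) + 1 ≤ (3 * a + 1) * 2 ^ α := by
    push_cast
    calc _ ≤ (3 * (a : ℝ) + 1) * α := by nlinarith
      _ ≤ _ := by gcongr
  have h3 : |C| ≤ (|C| + 1) ^ α :=
    (by linarith : |C| ≤ |C| + 1).trans (le_self_pow₀ (by linarith [abs_nonneg C]) (by omega))
  have h4 : (65 ^ 4 * 32 * 1120 * (3 * (a : ℝ) + 1) ^ 3) ≤
      (65 ^ 4 * 32 * 1120 * (3 * (a : ℝ) + 1) ^ 3) ^ α := by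
    refine le_self_pow₀ ?_ (by omega)
    have : (1 : ℝ) ≤ (3 * (a : ℝ) + 1) ^ 3 := one_le_pow₀ (by linarith)
    nlinarith
  have h5 : ((64 : ℝ) * (2 * (a + 1)) ^ 6 * 2 ^ (3 * a)) ^ α =
      (2 ^ α) ^ 6 * (2 * ((a : ℝ) + 1)) ^ (2 * (3 * α)) * 2 ^ (3 * a * α) := by
    rw [mul_pow, mul_pow, ← pow_mul, ← pow_mul, ← pow_mul, mul_comm α 6, pow_mul 2 6 α]
    congr 2
    · norm_num
    · congr 1; ring
  unfold yug_c
  rw [mul_pow ((|C| + 1) * _), mul_pow (|C| + 1), h5]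
  calc _ ≤ |C| * 2 ^ α * ((2 * ((a : ℝ) + 1)) ^ (2 * (3 * α)) * ((3 * a + 1) * 2 ^ α) ^ 3) *
        65 ^ 4 * 2 ^ α * (32 * 2 ^ α) * (1120 * 2 ^ (3 * a * α)) := by gcongr
    _ = |C| * (65 ^ 4 * 32 * 1120 * (3 * (a : ℝ) + 1) ^ 3) *
        ((2 ^ α) ^ 6 * (2 * ((a : ℝ) + 1)) ^ (2 * (3 * α)) * 2 ^ (3 * a * α)) := by ring
    _ ≤ _ := by gcongr

theorem yug_core (a α : ℕ) (C : ℝ) (hα : 1 ≤ α) {x m Q D n : ℝ} (hx : 1 ≤ x) (hm0 : 0 ≤ m)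
    (hm : m ^ 3 ≤ x ^ 50) (hQ : 0 < Q) (hn : 0 < n) (hD : x ^ 500 / 2 ^ α ≤ D)
    (h1 : n ^ (3 * α) ≤ 2 ^ (3 * a * α) * x ^ (1500 * a))
    (h2 : Q ^ 3 ≤ 2 ^ (3 * a * α) * n ^ (3 * α)) (hc : yug_c a C ^ α ≤ x ^ 250) :
    C * (x ^ 3) ^ 3 * (m * Q) ^ 3 / D *
      PB a (3 * α) α (4 * (x ^ 3) ^ 2) n Q (1 / (100 * (a + 1))) / n ^ (2 * (3 * α)) ≤
      (x ^ 3)⁻¹ := by
  have hx0 : 0 < x := by linarith
  have hD0 : 0 < D := lt_of_lt_of_le (by positivity) hD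
  have he := yug_eps a α hx hn.le h1
  have hk := yug_const a α C hα
  set E := (2 * (4 * (x ^ 3) ^ 2) ^ 2 * n ^ (3 * α)) ^ (1 / (100 * ((a : ℝ) + 1))) with hE
  have hE0 : 0 ≤ E := by positivity
  have hN : 0 < n ^ (3 * α) := by positivity
  have hT : (1 : ℝ) ≤ 2 ^ (3 * a * α) := one_le_pow₀ (by norm_num)
  have hx12 : 1 ≤ x ^ 12 := one_le_pow₀ hx
  have hR : Q ^ 3 / n ^ (3 * α) ≤ 2 ^ (3 * a * α) := by rwa [div_le_iff₀ hN]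
  have hR0 : 0 ≤ Q ^ 3 / n ^ (3 * α) := by positivity
  have h3 : 1024 * x ^ 24 + 96 * x ^ 12 * (Q ^ 3 / n ^ (3 * α)) ≤
      1120 * 2 ^ (3 * a * α) * x ^ 24 := by
    have e1 : x ^ 12 ≤ x ^ 24 := pow_le_pow_right₀ hx (by norm_num)
    have e2 : x ^ 12 * (Q ^ 3 / n ^ (3 * α)) ≤ x ^ 24 * 2 ^ (3 * a * α) := by gcongr
    have e3 : x ^ 24 ≤ x ^ 24 * 2 ^ (3 * a * α) := le_mul_of_one_le_right (by positivity) hT
    nlinarith
  have h4 : (4 * (4 * (x ^ 3) ^ 2) ^ 2 + 1) ^ 4 ≤ 65 ^ 4 * x ^ 48 := by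
    have : 4 * (4 * (x ^ 3) ^ 2) ^ 2 + 1 ≤ 65 * x ^ 12 := by nlinarith
    calc _ ≤ (65 * x ^ 12) ^ 4 := by gcongr
      _ = _ := by ring
  have h5 : D⁻¹ ≤ 2 ^ α / x ^ 500 := by
    rw [← inv_div]; exact inv_anti₀ (by positivity) hD
  have hC : C ≤ |C| := le_abs_self C
  have hC0 : 0 ≤ |C| := abs_nonneg C
  have e0 : C * (x ^ 3) ^ 3 * (m * Q) ^ 3 / D *
      PB a (3 * α) α (4 * (x ^ 3) ^ 2) n Q (1 / (100 * (a + 1))) / n ^ (2 * (3 * α)) =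
      C * (x ^ 9 * m ^ 3 * D⁻¹ *
        ((2 * ((a : ℝ) + 1)) ^ (2 * (3 * α)) * (a * (3 * α : ℕ) + 1) ^ 3) *
        (4 * (4 * (x ^ 3) ^ 2) ^ 2 + 1) ^ 4 * 2 ^ α * E *
        (1024 * x ^ 24 + 96 * x ^ 12 * (Q ^ 3 / n ^ (3 * α)))) := by
    unfold PB
    rw [← hE, mul_comm 2 (3 * α), pow_mul n (3 * α) 2]
    generalize n ^ (3 * α) = N at hN
    generalize (2 * ((a : ℝ) + 1)) ^ (3 * α * 2) = c1
    field_simp
    ring
  rw [e0]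
  calc _ ≤ |C| * (x ^ 9 * x ^ 50 * (2 ^ α / x ^ 500) *
        ((2 * ((a : ℝ) + 1)) ^ (2 * (3 * α)) * (a * (3 * α : ℕ) + 1) ^ 3) *
        (65 ^ 4 * x ^ 48) * 2 ^ α * (32 * 2 ^ α * x ^ 18) *
        (1120 * 2 ^ (3 * a * α) * x ^ 24)) := by gcongr
    _ = (|C| * 2 ^ α * ((2 * ((a : ℝ) + 1)) ^ (2 * (3 * α)) * (a * (3 * α : ℕ) + 1) ^ 3) *
        65 ^ 4 * 2 ^ α * (32 * 2 ^ α) * (1120 * 2 ^ (3 * a * α))) * (x ^ 149 / x ^ 500) := by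
          ring
    _ ≤ x ^ 250 * (x ^ 149 / x ^ 500) := by gcongr; exact hk.trans hc
    _ ≤ _ := by
      rw [← mul_div_assoc, ← pow_add, inv_eq_one_div, div_le_div_iff₀ (by positivity)
        (by positivity), ← pow_add, one_mul]
      exact pow_le_pow_right₀ hx (by norm_num)

theorem ug_num (a : ℕ) (C : ℝ) : ∃ y₀ : ℕ, ∀ (y M₀ l : ℕ) (A : Finset ℕ), y₀ ≤ y →
    M₀ ^ 30 ≤ y → A.Nonempty → (∀ p ∈ A, y < p ∧ p ≤ 2 * y) → y < l → l ≤ 2 * y →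
    C * ((y : ℝ) ^ (3 * #A / 500 : ℝ)) ^ 3 * ((M₀ * ∏ p ∈ A, p ^ a : ℕ) : ℝ) ^ 3 /
        (∏ p ∈ A, ((p : ℝ) - 1) / 2) *
        PB a (3 * #A) #A (4 * ((y : ℝ) ^ (3 * #A / 500 : ℝ)) ^ 2) (l ^ a : ℕ) (∏ p ∈ A, p ^ a : ℕ)
          (1 / (100 * (a + 1))) / ((l ^ a : ℕ) : ℝ) ^ (2 * (3 * #A)) ≤
      (y : ℝ) ^ (-(3 * #A / 500 : ℝ)) := by
  refine ⟨⌈yug_c a C ^ 2⌉₊ + 1, fun y M₀ l A hy hM hA hp hl1 hl2 => ?_⟩
  have hα : 1 ≤ #A := hA.card_pos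
  have hy1 : (1 : ℝ) ≤ y := by exact_mod_cast (by omega : 1 ≤ y)
  have hy0 : (0 : ℝ) < y := by linarith
  set x : ℝ := (y : ℝ) ^ (#A / 500 : ℝ) with hxd
  have hx : 1 ≤ x := Real.one_le_rpow hy1 (by positivity)
  have hx500 : x ^ 500 = (y : ℝ) ^ #A := by
    rw [hxd, ← Real.rpow_natCast, ← Real.rpow_mul hy0.le, ← Real.rpow_natCast]
    congr 1; push_cast; ring
  have hx3 : (y : ℝ) ^ (3 * #A / 500 : ℝ) = x ^ 3 := by
    rw [hxd, ← Real.rpow_natCast, ← Real.rpow_mul hy0.le]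
    congr 1; push_cast; ring
  have hyA : (y : ℝ) ≤ (y : ℝ) ^ #A := le_self_pow₀ hy1 (by omega)
  have hl1' : (y : ℝ) ≤ l := by exact_mod_cast hl1.le
  have hl2' : (l : ℝ) ≤ 2 * y := by exact_mod_cast hl2
  have hl0 : (0 : ℝ) < l := by linarith
  rw [Real.rpow_neg hy0.le, hx3, Nat.cast_mul]
  refine yug_core a #A C hα hx (Nat.cast_nonneg _) ?_ ?_ ?_ ?_ ?_ ?_ ?_
  · refine le_of_pow_le_pow_left₀ (n := 10) (by norm_num) (by positivity) ?_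
    rw [← pow_mul, ← pow_mul]
    have : (M₀ : ℝ) ^ 30 ≤ y := by exact_mod_cast hM
    norm_num only
    rw [hx500]; linarith
  · have : 0 < ∏ p ∈ A, p ^ a := prod_pos fun p h => pow_pos (by have := (hp p h).1; omega) _
    exact_mod_cast this
  · push_cast; positivity
  · rw [hx500, ← div_pow, ← prod_const]
    refine prod_le_prod (fun p _ => by positivity) fun p h => ?_
    have : (y : ℝ) + 1 ≤ p := by exact_mod_cast (hp p h).1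
    linarith
  · push_cast
    calc ((l : ℝ) ^ a) ^ (3 * #A) ≤ ((2 * (y : ℝ)) ^ a) ^ (3 * #A) := by gcongr
      _ = 2 ^ (3 * a * #A) * ((y : ℝ) ^ #A) ^ (3 * a) := by
          rw [← pow_mul, ← pow_mul, mul_pow]; congr 2 <;> ring
      _ = _ := by rw [← hx500, ← pow_mul]; congr 2; ring
  · push_cast
    have : (∏ p ∈ A, (p : ℝ) ^ a) ≤ ((2 * (y : ℝ)) ^ a) ^ #A := by
      rw [← prod_const]
      refine prod_le_prod (fun p _ => by positivity) fun p h => ?_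
      have : (p : ℝ) ≤ 2 * y := by exact_mod_cast (hp p h).2
      gcongr
    calc (∏ p ∈ A, (p : ℝ) ^ a) ^ 3 ≤ (((2 * (y : ℝ)) ^ a) ^ #A) ^ 3 := by gcongr
      _ = 2 ^ (3 * a * #A) * ((y : ℝ) ^ a) ^ (3 * #A) := by
          rw [← pow_mul, ← pow_mul, ← pow_mul, mul_pow]; congr 2 <;> ring
      _ ≤ _ := by gcongr
  · refine le_of_pow_le_pow_left₀ (n := 2) (by norm_num) (by positivity) ?_
    rw [← pow_mul, ← pow_mul, mul_comm (#A) 2, pow_mul]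
    norm_num only
    rw [hx500]
    have h1 : yug_c a C ^ 2 ≤ y := by
      have h2 : ((⌈yug_c a C ^ 2⌉₊ + 1 : ℕ) : ℝ) ≤ y := by exact_mod_cast hy
      have h3 := Nat.le_ceil (yug_c a C ^ 2)
      push_cast at h2; linarith
    gcongr

theorem ug_new (a : ℕ) : ∃ (C : ℝ) (y₀ : ℕ), 0 < C ∧ ∀ (y M₀ M l : ℕ) (A : Finset ℕ) (s : ℤ)
    (ρ : Set V2 → M2) (f : ℍ →ᵇ ℝ) (K B : ℝ), y₀ ≤ y → 0 < M₀ → M₀ ^ 30 ≤ y →
    M = M₀ * ∏ p ∈ A, p ^ a → A.Nonempty →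
    (∀ p ∈ A, p.Prime ∧ y < p ∧ p ≤ 2 * y ∧ ¬ p ∣ M₀ ∧ p ≠ l) → l.Prime → y < l → l ≤ 2 * y →
    ¬ l ∣ M₀ → IsR (l ^ a) M s ρ → GInv M f → 0 < B → (∀ z, |f z| ≤ B) → 0 ≤ K → Lip K f →
    (∀ p ∈ A, ZM (M / p ^ a) M f) →
    IN M |HK (l ^ a) ρ f| ≤ C * (B + K) * (y : ℝ) ^ (-(1 / 1000 : ℝ)) := by
  obtain ⟨C, hC, hpow⟩ := ug_pow (ε := 1 / (100 * ((a : ℝ) + 1))) (by positivity)
  obtain ⟨y₀, hnum⟩ := ug_num a C
  refine ⟨C + 1, max y₀ 2, by linarith, ?_⟩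
  intro y M₀ M l A s ρ f K B hy hM0 hM30 hM hA hp hl hl1 hl2 hlM hR hf hB hfB hK hL hZ
  have hy2 : 2 ≤ y := (le_max_right _ _).trans hy
  have hy1 : (1 : ℝ) ≤ y := by exact_mod_cast (by omega : 1 ≤ y)
  have hy0 : (0 : ℝ) < y := by linarith
  have hα : 1 ≤ #A := hA.card_pos
  have hMpos : 0 < M := by
    rw [hM]; exact Nat.mul_pos hM0 (prod_pos fun p h => pow_pos (hp p h).1.pos _)
  have hn : 0 < l ^ a := pow_pos hl.pos _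
  have hcop : (l ^ a).Coprime M := by
    rw [hM]
    refine Nat.Coprime.pow_left _ (Nat.Coprime.mul_right ((Nat.Prime.coprime_iff_not_dvd hl).2 hlM)
      (Nat.Coprime.prod_right fun p h => Nat.Coprime.pow_right _ ?_))
    exact (Nat.coprime_primes hl (hp p h).1).2 (hp p h).2.2.2.2.symm
  set g : ℍ →ᵇ ℝ := B⁻¹ • f with hg
  have hgz : ∀ z, g z = B⁻¹ * f z := fun z => by simp [hg]
  have hBi : 0 < B⁻¹ := inv_pos.2 hB
  have g1 : GInv M g := fun γ hγ τ => by rw [hgz, hgz, hf γ hγ τ]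
  have g2 : ∀ z, |g z| ≤ 1 := fun z => by
    rw [hgz, abs_mul, abs_of_pos hBi, inv_mul_le_iff₀ hB, mul_one]; exact hfB z
  have g3 : Lip (K / B) g := fun z w => by
    rw [hgz, hgz, ← mul_sub, abs_mul, abs_of_pos hBi]
    calc _ ≤ B⁻¹ * (K * dist z w) := mul_le_mul_of_nonneg_left (hL z w) hBi.le
      _ = _ := by ring
  have g4 : ∀ p ∈ A, ZM (M / p ^ a) M g := fun p h z => by
    have := hZ p h z
    unfold mn at this ⊢
    simp only [hgz]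
    rw [← mul_sum, mul_div_assoc, this, mul_zero]
  have hHK : |HK (l ^ a) ρ f| = B • |HK (l ^ a) ρ g| := by
    ext z
    have : HK (l ^ a) ρ f z = B * HK (l ^ a) ρ g z := by
      unfold HK
      rw [mnB_apply, mnB_apply]
      unfold mn
      simp only [cact_apply, hgz]
      rw [← mul_sum, mul_div_assoc, ← mul_assoc, mul_inv_cancel₀ hB.ne', one_mul]
    simp only [BoundedContinuousFunction.coe_abs, Pi.abs_apply,
      BoundedContinuousFunction.coe_smul, smul_eq_mul]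
    rw [this, abs_mul, abs_of_pos hB]
  have hK' : 0 ≤ K / B := div_nonneg hK hB.le
  have hU : 1 ≤ (y : ℝ) ^ (3 * #A / 500 : ℝ) := Real.one_le_rpow hy1 (by positivity)
  have k1 := hpow a M₀ M l (3 * #A) A s ρ g (K / B) _ hM0 hM
    (fun p h => ⟨(hp p h).1, by have := (hp p h).2.1; omega, (hp p h).2.2.2.1, (hp p h).2.2.2.2⟩)
    hl hlM hR g1 g2 hK' g3 g4 hU
  have k2 := hnum y M₀ l A ((le_max_left _ _).trans hy) hM30 hA
    (fun p h => ⟨(hp p h).2.1, (hp p h).2.2.1⟩) hl1 hl2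
  rw [← hM] at k2
  have k3 := HK_pow hn hMpos hcop hR g1 g2 (i := 3 * #A) (by omega)
  have k4 := IN_abs_sq hMpos (HK (l ^ a) ρ g)
  set t := IN M |HK (l ^ a) ρ g| with ht
  set v : ℝ := (y : ℝ) ^ (-(1 / 1000 : ℝ)) with hv
  have hv0 : 0 < v := Real.rpow_pos_of_pos hy0 _
  have hvi : v ^ (2 * (3 * #A)) = (y : ℝ) ^ (-(3 * #A / 500 : ℝ)) := by
    rw [hv, ← Real.rpow_natCast, ← Real.rpow_mul hy0.le]
    congr 1; push_cast; ring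
  have k5 : t ^ (2 * (3 * #A)) ≤ (C * (1 + K / B) ^ 2 + 1) * v ^ (2 * (3 * #A)) := by
    rw [pow_mul t, hvi]
    have e1 : (t ^ 2) ^ (3 * #A) ≤
        IN M (HK (l ^ a) ρ g * HK (l ^ a) ρ g) ^ (3 * #A) := by gcongr
    have e2 : C * (1 + K / B) ^ 2 / (y : ℝ) ^ (3 * #A / 500 : ℝ) =
        C * (1 + K / B) ^ 2 * (y : ℝ) ^ (-(3 * #A / 500 : ℝ)) := by
      rw [Real.rpow_neg hy0.le, div_eq_mul_inv]
    rw [e2] at k1
    linarith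
  have k6 : C * (1 + K / B) ^ 2 + 1 ≤ ((C + 1) * (1 + K / B)) ^ (2 * (3 * #A)) := by
    have e1 : 1 ≤ (1 + K / B) ^ 2 := one_le_pow₀ (by linarith)
    have e2 : C + 1 ≤ (C + 1) ^ 2 := le_self_pow₀ (by linarith) (by norm_num)
    have e3 : 1 ≤ (C + 1) * (1 + K / B) := one_le_mul_of_one_le_of_one_le (by linarith) (by linarith)
    calc _ ≤ (C + 1) * (1 + K / B) ^ 2 := by nlinarith
      _ ≤ (C + 1) ^ 2 * (1 + K / B) ^ 2 := by gcongr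
      _ = ((C + 1) * (1 + K / B)) ^ 2 := by ring
      _ ≤ _ := pow_le_pow_right₀ e3 (by omega)
  have k7 : t ≤ (C + 1) * (1 + K / B) * v := by
    refine le_of_pow_le_pow_left₀ (n := 2 * (3 * #A)) (by omega) (by positivity) ?_
    rw [mul_pow _ v]
    exact k5.trans (by gcongr)
  rw [hHK, IN_smul, ← ht]
  calc B * t ≤ B * ((C + 1) * (1 + K / B) * v) := by gcongr
    _ = _ := by field_simp

end Pool.Agent.EQ
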