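import Pool.Agent.P.MP_ad7a55_nt.YUg

/-! The uniform gap. -/

set_option autoImplicit false

noncomputable section

open MeasureTheory Topology Filter UpperHalfPlane Finset
open scoped MatrixGroups BoundedContinuousFunction Matrix Classical

namespace Pool.Agent.EQ

theorem yuh_out {M : ℕ} {F : SL(2, ℤ) → ℝ}
    (hF : ∀ g, ∀ δ ∈ CongruenceSubgroup.Gamma M, F (δ * g) = F g) (g : SL(2, ℤ)) :
    F (g : vcjQ M).out = F g := by
  obtain ⟨h, e⟩ := QuotientGroup.mk_out_eq_mul (CongruenceSubgroup.Gamma M) g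
  have e2 : g * (h : SL(2, ℤ)) = g * h * g⁻¹ * g := by group
  rw [e, e2]
  exact hF g _ ((ylaNormal M).conj_mem _ h.2 g)

theorem yuh_conj {M R : ℕ} (hM : 0 < M) (h : R ∣ M) {F : SL(2, ℤ) → ℝ}
    (hF : ∀ g, ∀ δ ∈ CongruenceSubgroup.Gamma M, F (δ * g) = F g) (γ : SL(2, ℤ)) :
    mn (cs R M) (fun c => F (γ * c.out * γ⁻¹)) = mn (cs R M) fun c => F c.out := by
  have e : ∀ c : vcjQ M, ((γ * c.out * γ⁻¹ : SL(2, ℤ)) : vcjQ M) =
      (γ : vcjQ M) * c * (γ : vcjQ M)⁻¹ := fun c => by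
    rw [QuotientGroup.mk_mul, QuotientGroup.mk_mul, QuotientGroup.mk_inv, QuotientGroup.out_eq']
  have h1 : ∀ c ∈ cs R M, (γ : vcjQ M) * c * (γ : vcjQ M)⁻¹ ∈ cs R M := fun c hc => by
    rw [← e, mem_cs hM h]
    exact (ylaNormal R).conj_mem _ (out_mem_cs hc) γ
  have h2 : Set.InjOn (fun c : vcjQ M => (γ : vcjQ M) * c * (γ : vcjQ M)⁻¹) (cs R M) :=
    fun c _ c' _ e' => mul_left_cancel (mul_right_cancel e')
  rw [← mn_perm h1 h2 fun c => F c.out]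
  congr 1
  funext c
  rw [← e, yuh_out hF]

/-- The mean over the classes of a level. -/
def yuhAv (R M : ℕ) (f : ℍ →ᵇ ℝ) : ℍ →ᵇ ℝ :=
  mnB (cs R M) fun c => cact f ((c.out : SL(2, ℤ)) : M2)

theorem yuh_av (R M : ℕ) (f : ℍ →ᵇ ℝ) (z : ℍ) :
    yuhAv R M f z = mn (cs R M) fun c => f (c.out • z) := by
  rw [yuhAv, mnB_apply]
  congr 1
  funext c
  rw [cact_apply, act_SL]

theorem yuh_left {M : ℕ} {f : ℍ → ℝ} (hf : GInv M f) (z : ℍ) (g : SL(2, ℤ)) :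
    ∀ δ ∈ CongruenceSubgroup.Gamma M, f ((δ * g) • z) = f (g • z) := fun δ hδ => by
  rw [mul_smul, hf δ hδ]

theorem yuh_av_inv {R M : ℕ} (hM : 0 < M) (h : R ∣ M) {f : ℍ →ᵇ ℝ} (hf : GInv M f) :
    GInv R (yuhAv R M f) := fun γ hγ z => by
  rw [yuh_av, yuh_av, ← (cs_shift hM h (F := fun g => f (g • z)) (yuh_left hf z) hγ).1]
  congr 1
  funext c
  rw [mul_smul]

theorem yuh_av_zm {R R' M : ℕ} (hM : 0 < M) (h : R' ∣ M) {f : ℍ →ᵇ ℝ} (hf : GInv M f)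
    (hz : ZM R' M f) : ZM R' M (yuhAv R M f) := fun z => by
  have e : (fun c' : vcjQ M => yuhAv R M f (c'.out • z)) =
      fun c' => mn (cs R M) fun c => f (c.out • c'.out • z) := funext fun c' => yuh_av _ _ _ _
  have e2 : (fun c : vcjQ M => mn (cs R' M) fun c' => f (c.out • c'.out • z)) = fun _ => 0 := by
    funext c
    rw [← hz (c.out • z),
      ← yuh_conj hM h (F := fun g => f (g • c.out • z)) (yuh_left hf _) c.out]
    congr 1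
    funext c'
    rw [mul_smul, mul_smul, inv_smul_smul]
  rw [e, mn_swap, e2]
  simp [mn]

theorem yuh_zm_sub {R M : ℕ} {f g : ℍ →ᵇ ℝ} (hf : ZM R M f) (hg : ZM R M g) :
    ZM R M (f - g : ℍ →ᵇ ℝ) := fun z => by
  have h1 := hf z
  have h2 := hg z
  simp only [mn, BoundedContinuousFunction.sub_apply, sum_sub_distrib, sub_div] at h1 h2 ⊢
  rw [h1, h2, sub_zero]

theorem yuh_new {R M : ℕ} (hM : 0 < M) (h : R ∣ M) {f : ℍ →ᵇ ℝ} (hf : GInv M f) :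
    ZM R M (f - yuhAv R M f : ℍ →ᵇ ℝ) := fun z => by
  have h1 : mn (cs R M) (fun c => yuhAv R M f (c.out • z)) = yuhAv R M f z := by
    rw [← mn_const (cs_ne hM h) (yuhAv R M f z)]
    simp only [mn]
    rw [sum_congr rfl fun c hc => yuh_av_inv hM h hf _ (out_mem_cs hc) z]
  have h2 := yuh_av R M f z
  simp only [mn, BoundedContinuousFunction.sub_apply, sum_sub_distrib, sub_div] at h1 h2 ⊢
  rw [h1, h2, sub_self]

theorem yuh_down {M M' R' u : ℕ} (hM : 0 < M) (h1 : M' ∣ M) (h2 : R' * u ∣ M) (h3 : R' ∣ M')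
    (hu : u.Coprime M') {g : ℍ → ℝ} (hg : GInv M' g) (hz : ZM (R' * u) M g) : ZM R' M' g :=
  fun z => by
  rw [← cs_level hM h1 h2 h3 hu (F := fun h => g (h • z)) (yuh_left hg z)]
  exact hz z

theorem yuh_zero {M n : ℕ} (hM : 0 < M) (ρ : Set V2 → M2) {f : ℍ →ᵇ ℝ} (hf : GInv M f)
    (hz : ZM M M f) : IN M |HK n ρ f| = 0 := by
  have h0 : ∀ z, f z = 0 := fun z => by
    rw [← hz z, ← mn_const (cs_ne hM dvd_rfl) (f z)]
    simp only [mn]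
    rw [sum_congr rfl fun c hc => hf _ (out_mem_cs hc) z]
  have h1 : |HK n ρ f| = BoundedContinuousFunction.const ℍ (0 : ℝ) := by
    ext z
    rw [BoundedContinuousFunction.coe_abs, Pi.abs_apply, HK, mnB_apply]
    simp [mn, cact_apply, h0]
  rw [h1, IN_const hM]

theorem yuh_split {M n : ℕ} (hM : 0 < M) (ρ : Set V2 → M2) (f g : ℍ →ᵇ ℝ) :
    IN M |HK n ρ f| ≤ IN M |HK n ρ g| + IN M |HK n ρ (f - g)| := by
  rw [← IN_add hM]
  refine IN_mono hM fun z => ?_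
  have e : HK n ρ f z = HK n ρ g z + HK n ρ (f - g) z := by
    simp only [HK, mnB_apply, ← mn_add, cact_apply, BoundedContinuousFunction.sub_apply,
      add_sub_cancel]
  simp only [BoundedContinuousFunction.add_apply, BoundedContinuousFunction.coe_abs, Pi.abs_apply]
  rw [e]
  exact abs_add_le _ _

theorem yuh_div {a M₀ p : ℕ} {A : Finset ℕ} (hp : p ∈ A) (h0 : 0 < p) :
    (M₀ * ∏ q ∈ A, q ^ a) / p ^ a = M₀ * ∏ q ∈ A.erase p, q ^ a := by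
  rw [← Finset.mul_prod_erase A (fun q => q ^ a) hp, mul_left_comm,
    Nat.mul_div_cancel_left _ (pow_pos h0 a)]

theorem yuh_cop {a M₀ p : ℕ} {A : Finset ℕ} (hp : p.Prime) (h0 : ¬ p ∣ M₀)
    (h : ∀ q ∈ A, q.Prime ∧ q ≠ p) : (p ^ a).Coprime (M₀ * ∏ q ∈ A, q ^ a) := by
  refine Nat.Coprime.pow_left _ (Nat.Coprime.mul_right (hp.coprime_iff_not_dvd.2 h0) ?_)
  refine Nat.Coprime.prod_right fun q hq => Nat.Coprime.pow_right _ ?_
  exact (Nat.coprime_primes hp (h q hq).1).2 (h q hq).2.symm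

theorem yuh_ind {a M₀ l : ℕ} {s : ℤ} {ρ : Set V2 → M2} {c : ℝ} {P : ℕ → Prop} (hc : 0 ≤ c)
    (hM₀ : 0 < M₀) (hl : l.Prime) (hl0 : ¬ l ∣ M₀)
    (hP : ∀ p, P p → p.Prime ∧ ¬ p ∣ M₀ ∧ p ≠ l)
    (H : ∀ (A : Finset ℕ) (f : ℍ →ᵇ ℝ) (K B : ℝ), A.Nonempty → (∀ p ∈ A, P p) →
      IsR (l ^ a) (M₀ * ∏ p ∈ A, p ^ a) s ρ → GInv (M₀ * ∏ p ∈ A, p ^ a) f → 0 < B →
      (∀ z, |f z| ≤ B) → 0 ≤ K → Lip K f →
      (∀ p ∈ A, ZM ((M₀ * ∏ p ∈ A, p ^ a) / p ^ a) (M₀ * ∏ p ∈ A, p ^ a) f) →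
      IN (M₀ * ∏ p ∈ A, p ^ a) |HK (l ^ a) ρ f| ≤ c * (B + K)) (A₂ : Finset ℕ) :
    ∀ (A : Finset ℕ) (f : ℍ →ᵇ ℝ) (K B : ℝ), A₂ ⊆ A → (∀ p ∈ A, P p) →
      IsR (l ^ a) (M₀ * ∏ p ∈ A, p ^ a) s ρ → GInv (M₀ * ∏ p ∈ A, p ^ a) f → 0 < B →
      (∀ z, |f z| ≤ B) → 0 ≤ K → Lip K f → ZM M₀ (M₀ * ∏ p ∈ A, p ^ a) f →
      (∀ p ∈ A, p ∉ A₂ → ZM ((M₀ * ∏ p ∈ A, p ^ a) / p ^ a) (M₀ * ∏ p ∈ A, p ^ a) f) →
      IN (M₀ * ∏ p ∈ A, p ^ a) |HK (l ^ a) ρ f| ≤ 3 ^ #A₂ * (c * (B + K)) := by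
  induction A₂ using Finset.induction_on with
  | empty =>
    intro A f K B _ hA hR hf hB hb hK hL hz hn
    rw [card_empty, pow_zero, one_mul]
    rcases A.eq_empty_or_nonempty with rfl | hne
    · rw [prod_empty, mul_one] at hf hz ⊢
      rw [yuh_zero hM₀ ρ hf hz]
      positivity
    · exact H A f K B hne hA hR hf hB hb hK hL fun p hp => hn p hp (notMem_empty p)
  | insert p A₂ hp ih =>
    intro A f K B hs hA hR hf hB hb hK hL hz hn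
    have hpA : p ∈ A := hs (mem_insert_self _ _)
    have pos : ∀ A' : Finset ℕ, A' ⊆ A → 0 < M₀ * ∏ q ∈ A', q ^ a := fun A' h' =>
      mul_pos hM₀ (prod_pos fun q hq => pow_pos (hP q (hA q (h' hq))).1.pos a)
    have dv : ∀ A' A'' : Finset ℕ, A' ⊆ A'' →
        M₀ * ∏ q ∈ A', q ^ a ∣ M₀ * ∏ q ∈ A'', q ^ a := fun A' A'' h' =>
      mul_dvd_mul_left _ (prod_dvd_prod_of_subset _ _ _ h')
    have hM := pos A Subset.rfl
    have hR0 := pos (A.erase p) (erase_subset _ _)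
    have hd := dv (A.erase p) A (erase_subset _ _)
    have hq0 : ∀ q ∈ A, 0 < q := fun q hq => (hP q (hA q hq)).1.pos
    obtain ⟨g, hg⟩ : ∃ g, g = yuhAv (M₀ * ∏ q ∈ A.erase p, q ^ a) (M₀ * ∏ q ∈ A, q ^ a) f :=
      ⟨_, rfl⟩
    have g1 : GInv (M₀ * ∏ q ∈ A.erase p, q ^ a) g := hg ▸ yuh_av_inv hM hd hf
    have g2 : ∀ z, |g z| ≤ B := fun z => hg ▸ abs_mnB_le hB.le fun c _ => hb _
    have g3 : Lip K g := hg ▸ Lip.mnB hK fun c _ => hL.cact _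
    have g4 : ZM M₀ (M₀ * ∏ q ∈ A, q ^ a) g := hg ▸ yuh_av_zm hM (dvd_mul_right _ _) hf hz
    have g5 : ∀ q ∈ A, q ∉ insert p A₂ →
        ZM ((M₀ * ∏ q ∈ A, q ^ a) / q ^ a) (M₀ * ∏ q ∈ A, q ^ a) g := fun q hq hq' => by
      rw [hg]
      refine yuh_av_zm hM ?_ hf (hn q hq hq')
      rw [yuh_div hq (hq0 q hq)]
      exact dv _ _ (erase_subset _ _)
    have cl : (l ^ a).Coprime (M₀ * ∏ q ∈ A.erase p, q ^ a) :=
      yuh_cop hl hl0 fun q hq => ⟨(hP q (hA q (mem_of_mem_erase hq))).1,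
        (hP q (hA q (mem_of_mem_erase hq))).2.2⟩
    have cp : (p ^ a).Coprime (M₀ * ∏ q ∈ A.erase p, q ^ a) :=
      yuh_cop (hP p (hA p hpA)).1 (hP p (hA p hpA)).2.1 fun q hq =>
        ⟨(hP q (hA q (mem_of_mem_erase hq))).1, ne_of_mem_erase hq⟩
    have b1 : IN (M₀ * ∏ q ∈ A.erase p, q ^ a) |HK (l ^ a) ρ g| ≤ 3 ^ #A₂ * (c * (B + K)) := by
      refine ih (A.erase p) g K B (fun q hq => mem_erase.2 ⟨fun e => hp (e ▸ hq),
        hs (mem_insert_of_mem hq)⟩) (fun q hq => hA q (mem_of_mem_erase hq)) (hR.mono hd) g1 hB g2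
        hK g3 ?_ fun q hq hq' => ?_
      · refine yuh_down (u := 1) hM hd ?_ (dvd_mul_right _ _) (Nat.coprime_one_left _) g1 ?_
        · rw [mul_one]
          exact dvd_mul_right _ _
        · rw [mul_one]
          exact g4
      · have hqA := mem_of_mem_erase hq
        have hqp := ne_of_mem_erase hq
        have e : (M₀ * ∏ q ∈ (A.erase p).erase q, q ^ a) * p ^ a =
            M₀ * ∏ q ∈ A.erase q, q ^ a := by
          rw [erase_right_comm, mul_assoc,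
            Finset.prod_erase_mul _ (fun q => q ^ a) (mem_erase.2 ⟨hqp.symm, hpA⟩)]
        rw [yuh_div hq (hq0 q hqA)]
        refine yuh_down hM hd ?_ (dv _ _ (erase_subset _ _)) cp g1 ?_
        · rw [e]
          exact dv _ _ (erase_subset _ _)
        · rw [e, ← yuh_div hqA (hq0 q hqA)]
          exact g5 q hqA fun h' => (mem_insert.1 h').elim hqp hq'
    have b2 : IN (M₀ * ∏ q ∈ A, q ^ a) |HK (l ^ a) ρ (f - g)| ≤
        3 ^ #A₂ * (c * (2 * B + 2 * K)) := by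
      refine ih A (f - g) (2 * K) (2 * B) (fun q hq => hs (mem_insert_of_mem hq)) hA hR
        (fun γ hγ z => ?_) (by positivity) (fun z => ?_) (by positivity) (fun z w => ?_)
        (yuh_zm_sub hz g4) fun q hq hq' => ?_
      · simp only [BoundedContinuousFunction.sub_apply]
        rw [hf γ hγ, GInv.mono hd g1 γ hγ]
      · have h1 := abs_le.1 (hb z)
        have h2 := abs_le.1 (g2 z)
        rw [BoundedContinuousFunction.sub_apply, abs_le]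
        constructor <;> linarith [h1.1, h1.2, h2.1, h2.2]
      · have h1 := abs_le.1 (hL z w)
        have h2 := abs_le.1 (g3 z w)
        simp only [BoundedContinuousFunction.sub_apply]
        rw [abs_le]
        constructor <;> linarith [h1.1, h1.2, h2.1, h2.2]
      · by_cases e : q = p
        · rw [e, yuh_div hpA (hq0 p hpA), hg]
          exact yuh_new hM hd hf
        · have h' : q ∉ insert p A₂ := fun h' => (mem_insert.1 h').elim e hq'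
          exact yuh_zm_sub (hn q hq h') (g5 q hq h')
    have b3 : IN (M₀ * ∏ q ∈ A, q ^ a) |HK (l ^ a) ρ g| =
        IN (M₀ * ∏ q ∈ A.erase p, q ^ a) |HK (l ^ a) ρ g| := by
      refine IN_level hR0 hM hd fun γ hγ z => ?_
      simp only [BoundedContinuousFunction.coe_abs, Pi.abs_apply]
      rw [HK_ginv (pow_pos hl.pos a) cl (hR.mono hd) g1 γ hγ]
    have b4 := yuh_split (n := l ^ a) hM ρ f g
    rw [card_insert_of_notMem hp, pow_succ]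
    linarith

theorem ug (a : ℕ) : ∃ (C : ℝ) (y₀ : ℕ), 0 < C ∧ ∀ (y M₀ M l : ℕ) (A : Finset ℕ) (s : ℤ)
    (ρ : Set V2 → M2) (f : ℍ →ᵇ ℝ) (K B : ℝ), y₀ ≤ y → 0 < M₀ → M₀ ^ 30 ≤ y →
    M = M₀ * ∏ p ∈ A, p ^ a →
    (∀ p ∈ A, p.Prime ∧ y < p ∧ p ≤ 2 * y ∧ ¬ p ∣ M₀ ∧ p ≠ l) → l.Prime → y < l → l ≤ 2 * y →
    ¬ l ∣ M₀ → IsR (l ^ a) M s ρ → GInv M f → 0 < B → (∀ z, |f z| ≤ B) → 0 ≤ K → Lip K f →
    ZM M₀ M f →
    IN M |HK (l ^ a) ρ f| ≤ C * 3 ^ #A * (B + K) * (y : ℝ) ^ (-(1 / 1000 : ℝ)) := by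
  obtain ⟨C, y₀, hC, H⟩ := ug_new a
  refine ⟨C, y₀, hC, ?_⟩
  intro y M₀ M l A s ρ f K B hy hM₀ h30 hM hA hl hl1 hl2 hl0 hR hf hB hb hK hL hz
  subst hM
  have key := yuh_ind (a := a) (s := s) (ρ := ρ) (c := C * (y : ℝ) ^ (-(1 / 1000 : ℝ)))
    (P := fun p => p.Prime ∧ y < p ∧ p ≤ 2 * y ∧ ¬ p ∣ M₀ ∧ p ≠ l) (by positivity) hM₀ hl hl0
    (fun p hp => ⟨hp.1, hp.2.2.2⟩)
    (fun A f K B hne hA hR hf hB hb hK hL hn => by
      have := H y M₀ _ l A s ρ f K B hy hM₀ h30 rfl hne hA hl hl1 hl2 hl0 hR hf hB hb hK hL hn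
      linarith)
    A A f K B Subset.rfl hA hR hf hB hb hK hL hz fun p hp hp' => absurd hp hp'
  linarith

end Pool.Agent.EQ
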