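import Pool.Agent.P.MP_ad7a55_nt.YTb
import Pool.Agent.P.MP_ad7a55_nt.VF

/-! The induction over the classes with a condition on the discriminants. -/

set_option autoImplicit false

noncomputable section

open MeasureTheory Topology Filter UpperHalfPlane
open scoped MatrixGroups ENNReal BoundedContinuousFunction

namespace Pool.Agent.EQ

variable {n N : ℕ} {Q : ℤ → Prop}

theorem yva_cls (hQ : GoodQ n Q) (hN : 0 < N) {F : IntermediateField ℚ ℂ} [FiniteDimensional ℚ F]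
    {τ : ℕ → Fin n → ℍ} {D : ℕ → Fin n → ℤ} {φ : Fin n → (ℍ →ᵇ ℝ)} {𝒰 : Ultrafilter ℕ}
    (h𝒰 : (𝒰 : Filter ℕ) ≤ atTop) {I : Finset (Fin n)} {ψ : ℕ → (Fin n × Fn → ℂ) → ℝ}
    (hC : Cls 𝒰 τ D I) (hφ : ∀ k, Tc N F (φ k)) (hψ : WtN 𝒰 D I ψ) (S : Finset ℕ)
    (hS : ∀ p ∈ S, p.Prime) {η L : ℝ} (hη : 0 < η)
    (hdom : ∀ k ∈ I, ∀ᶠ i in 𝒰,
      (|(D i k : ℝ)| ^ η ≤ ∏ p ∈ S, (p : ℝ) ^ padicValInt p (D i k) ∨ Q (D i k)) ∨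
        (Low L (D i k) ∧ ∃ p ∈ S, ∃ q ∈ S, p ≠ q ∧ p ≠ 2 ∧ q ≠ 2 ∧ (∃ κ, Spl p κ (D i k)) ∧
          ∃ κ, Spl q κ (D i k))) : Eqd 𝒰 N F τ φ I ψ := by
  have hneg : ∀ i k, D i k < 0 := fun i k => (hC.disc i k).isD.1
  by_cases hA : ∀ k ∈ I, ∀ᶠ i in 𝒰,
      |(D i k : ℝ)| ^ η ≤ ∏ p ∈ S, (p : ℝ) ^ padicValInt p (D i k) ∨ Q (D i k)
  · exact clsQ hQ hN h𝒰 hC hφ hψ S hS hη hA
  obtain ⟨j, hj⟩ := not_forall.1 hA
  obtain ⟨hj, h0⟩ := Classical.not_imp.1 hj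
  have h1 := (Ultrafilter.eventually_or.1 (hdom j hj)).resolve_left h0
  obtain ⟨p, hp, h2⟩ := ultra_fin 𝒰 S (h1.mono fun i hi => hi.2)
  obtain ⟨q, hq, h3⟩ := ultra_fin 𝒰 S h2
  obtain ⟨-, hpq, hp2, hq2, -⟩ := h3.exists
  have : Fact p.Prime := ⟨hS p hp⟩
  have : Fact q.Prime := ⟨hS q hq⟩
  refine clsC hN h𝒰 hC (fun k => (hφ k).1) hψ p q hpq hp2 hq2 (L := L) ?_
  filter_upwards [h1, h3, hC.sq] with i a1 ⟨_, _, _, ⟨κ, a2⟩, κ', a3⟩ a4 k hk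
  exact ⟨a1.1.of_sq (hneg i j).ne (a4 k hk j hj) (hneg i k).ne,
    a2.of_sq p (hneg i k).ne (a4 k hk j hj), a3.of_sq q (hneg i k).ne (a4 k hk j hj)⟩

theorem mainV6 (hQ : GoodQ n Q) (hN : 0 < N) {F : IntermediateField ℚ ℂ} [FiniteDimensional ℚ F]
    {τ : ℕ → Fin n → ℍ} {D : ℕ → Fin n → ℤ} {φ : Fin n → (ℍ →ᵇ ℝ)} {𝒰 : Ultrafilter ℕ}
    (h𝒰 : (𝒰 : Filter ℕ) ≤ atTop) (hD : ∀ i k, HasDisc (τ i k) (D i k))
    (hinf : ∀ Y : ℝ, ∀ᶠ i in 𝒰, ∀ k, Y ≤ -(D i k : ℝ)) (hgen : NoIs 𝒰 τ Finset.univ)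
    (hφ : ∀ k, Tc N F (φ k)) (S : Finset ℕ) (hS : ∀ p ∈ S, p.Prime) {η L : ℝ} (hη : 0 < η)
    (hdom : ∀ k, ∀ᶠ i in 𝒰,
      (|(D i k : ℝ)| ^ η ≤ ∏ p ∈ S, (p : ℝ) ^ padicValInt p (D i k) ∨ Q (D i k)) ∨
        (Low L (D i k) ∧ ∃ p ∈ S, ∃ q ∈ S, p ≠ q ∧ p ≠ 2 ∧ q ≠ 2 ∧ (∃ κ, Spl p κ (D i k)) ∧
          ∃ κ, Spl q κ (D i k))) (I : Finset (Fin n)) :
    Tendsto (fun i => avg (ON N F (τ i)) (PT N F φ I)) 𝒰 (𝓝 (∏ k ∈ I, IN N (φ k))) := by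
  classical
  have hneg : ∀ i k, D i k < 0 := fun i k => (hD i k).isD.1
  induction I using Finset.strongInduction with
  | H I ih =>
    rcases I.eq_empty_or_nonempty with rfl | ⟨j, hj⟩
    · have : ∀ i, avg (ON N F (τ i)) (PT N F φ ∅) = 1 := fun i => by
        have h2 : ((ON N F (τ i)).card : ℝ) ≠ 0 := by
          exact_mod_cast (ON_ne hN F (hD i)).card_pos.ne'
        simp only [avg, PT, Finset.prod_empty, Finset.sum_const, nsmul_eq_mul, mul_one]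
        exact div_self h2
      rw [funext this, Finset.prod_empty]
      exact tendsto_const_nhds
    set C := I.filter fun k => ∀ᶠ i in 𝒰, IsSquare (D i k * D i j) with hCd
    have hCI : C ⊆ I := Finset.filter_subset _ _
    have hjC : j ∈ C := Finset.mem_filter.2 ⟨hj, Eventually.of_forall fun i => ⟨_, rfl⟩⟩
    have h1 : ∀ᶠ i in 𝒰, ∀ k ∈ C, IsSquare (D i k * D i j) :=
      (eventually_all_finset C).2 fun k hk => (Finset.mem_filter.1 hk).2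
    have h2 : ∀ᶠ i in 𝒰, ∀ k ∈ I \ C, ¬ IsSquare (D i k * D i j) :=
      (eventually_all_finset _).2 fun k hk => Ultrafilter.eventually_not.2 fun h =>
        (Finset.mem_sdiff.1 hk).2 (Finset.mem_filter.2 ⟨(Finset.mem_sdiff.1 hk).1, h⟩)
    have hC : Cls 𝒰 τ D C :=
      ⟨hD, (hinf 577).mono fun i hi k => by
          have : (D i k : ℝ) < -576 := by linarith [hi k]
          exact_mod_cast this,
        h1.mono fun i hi k hk l hl => ums_sq (hneg i j).ne (hi k hk) (mul_comm (D i l) _ ▸ hi l hl),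
        fun Y => (hinf Y).mono fun i hi k _ => hi k,
        fun k _ l _ => hgen k (Finset.mem_univ k) l (Finset.mem_univ l)⟩
    have hψ : WtN 𝒰 D C fun _ => PT N F φ (I \ C) :=
      ⟨(h1.and h2).mono fun i hi => oth_PT fun k hk l hl h =>
        hi.2 k hk (ums_sq (hneg i l).ne h (hi.1 l hl)), _, fun _ z => abs_PT_le N F φ _ z⟩
    have h3 := (yva_cls hQ hN h𝒰 hC hφ hψ S hS hη fun k _ => hdom k).add
      ((ih (I \ C) (Finset.sdiff_ssubset hCI ⟨j, hjC⟩)).mul_const (∏ k ∈ C, IN N (φ k)))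
    rw [zero_add, Finset.prod_sdiff hCI] at h3
    refine h3.congr fun i => ?_
    simp only [avg, mul_sub, Finset.sum_sub_distrib, ← Finset.sum_mul, PT, Finset.prod_sdiff hCI]
    ring

theorem yva_mainW (hQ : GoodQ n Q) (hN : 0 < N) {F : IntermediateField ℚ ℂ}
    [FiniteDimensional ℚ F] {τ : ℕ → Fin n → ℍ} {D : ℕ → Fin n → ℤ} {φ : Fin n → (ℍ →ᵇ ℝ)}
    (S : Finset ℕ) (hS : ∀ p ∈ S, p.Prime) {η c Y : ℝ} (hη : 0 < η) (hc : 0 < c)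
    (hD : ∀ i k, HasDisc (τ i k) (D i k))
    (hdom : ∀ k, ∀ᶠ i in atTop, Y ≤ -(D i k : ℝ) →
      (|(D i k : ℝ)| ^ η ≤ ∏ p ∈ S, (p : ℝ) ^ padicValInt p (D i k) ∨ Q (D i k)) ∨
        ∃ d f : ℤ, Squarefree d ∧ D i k = f ^ 2 * d ∧ NoZero c d ∧ ∃ p ∈ S, ∃ q ∈ S,
          p ≠ q ∧ p ≠ 2 ∧ q ≠ 2 ∧ jacobiSym d p = 1 ∧ jacobiSym d q = 1)
    (hinf : ∀ Y : ℝ, ∀ᶠ i in atTop, ∀ k, Y ≤ -(D i k : ℝ)) (hgen : NoIsog τ)
    (hφ : ∀ k, Tc N F (φ k)) :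
    Tendsto (fun i => avg (ON N F (τ i)) (PT N F φ Finset.univ)) atTop
      (𝓝 (∏ k, IN N (φ k))) := by
  classical
  obtain ⟨L, -, hL⟩ := low_of_noZero hc
  refine (tendsto_iff_ultrafilter _ _ _).2 fun 𝒰 h𝒰 => mainV6 hQ hN h𝒰 hD (fun Y => h𝒰 (hinf Y))
    (fun k _ l _ hkl M hM => h𝒰 (hgen k l hkl M hM)) hφ S hS
    (L := L) hη (fun k => h𝒰 ?_) Finset.univ
  filter_upwards [hdom k, hinf Y] with i hi hY
  refine (hi (hY k)).imp_right ?_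
  rintro ⟨d, e, h6, h7, h8, p, hp, q, hq, a1, a2, a3, a4, a5⟩
  have h9 : e ^ 2 * d < 0 := h7 ▸ (hD i k).isD.1
  have he : e ≠ 0 := by
    rintro rfl
    simp at h9
  have : Fact p.Prime := ⟨hS p hp⟩
  have : Fact q.Prime := ⟨hS q hq⟩
  rw [h7]
  exact ⟨hL d e h6 h9 h8, p, hp, q, hq, a1, a2, a3, spl_of_jac p a4 he, spl_of_jac q a5 he⟩

theorem final6 (hQ : GoodQ n Q) (hN : 0 < N) {F L : IntermediateField ℚ ℂ}
    {Γ : Fin n → Subgroup SL(2, ℤ)} {B : Fin n → Set (ℍ → ℂ)}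
    (hΓ : ∀ k, CongruenceSubgroup.Gamma N ≤ Γ k) [FiniteDimensional ℚ F] [FiniteDimensional ℚ L]
    (hj : ∀ k, jInv ∈ B k) (hB : ∀ k, ∀ f ∈ B k, IsMF (Γ k) N L f) (S : Finset ℕ)
    (hS : ∀ p ∈ S, p.Prime) {η c Y : ℝ} (hη : 0 < η) (hc : 0 < c)
    (τ : ℕ → Fin n → ℍ) (D : ℕ → Fin n → ℤ) (hD : ∀ i k, HasDisc (τ i k) (D i k))
    (hdom : ∀ k, ∀ᶠ i in atTop, Y ≤ -(D i k : ℝ) →
      (|(D i k : ℝ)| ^ η ≤ ∏ p ∈ S, (p : ℝ) ^ padicValInt p (D i k) ∨ Q (D i k)) ∨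
        ∃ d f : ℤ, Squarefree d ∧ D i k = f ^ 2 * d ∧ NoZero c d ∧ ∃ p ∈ S, ∃ q ∈ S,
          p ≠ q ∧ p ≠ 2 ∧ q ≠ 2 ∧ jacobiSym d p = 1 ∧ jacobiSym d q = 1)
    (hpt : ∀ k, ∀ z : ℂ, {i | jInv (τ i k) = z}.Finite)
    (hgen : ∀ k l, k ≠ l → ∀ a b c d : ℤ, 0 < a * d - b * c →
      {i | ∃ z w : ℍ, (w : ℂ) = (a * z + b) / (c * z + d) ∧ jInv (τ i k) = jInv z ∧
        jInv (τ i l) = jInv w}.Finite)
    (f : (∀ k, YG (Γ k)) → ℝ) (hf : Continuous f) (hs : HasCompactSupport f) :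
    (∀ i, (orbG F Γ B (τ i)).Finite) ∧
      Tendsto (fun i => (∑ᶠ y ∈ orbG F Γ B (τ i), f y) / (orbG F Γ B (τ i)).ncard) atTop
        (𝓝 (∫ w, f (fun k => Quotient.mk _ (w k)) ∂(Measure.pi fun k => mH (Γ k)))) := by
  obtain ⟨F', hF', hF, hL, -⟩ := exists_field F L hN
  have : NeZero N := ⟨hN.ne'⟩
  have : ∀ k, (Γ k).FiniteIndex := fun k => Subgroup.finiteIndex_of_le (hΓ k)
  have hfin := fun i => (orbG_fin (F := F) hN hΓ hj (hD i)).2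
  refine ⟨hfin, final_prod Γ _ hfin (fun a ha => ?_) f hf hs⟩
  obtain ⟨φ, Y', hφ, hw⟩ := orb_worst hN hΓ hj hB hF hL a ha
  choose w σ h1 h2 h3 using fun i => hw (τ i) (D i) (hD i) (∏ k, IN N (φ k))
  have hinf : ∀ Y : ℝ, ∀ᶠ i in atTop, ∀ k, Y ≤ -(D i k : ℝ) := fun Y =>
    eventually_all.2 fun k => disc_tendsto (fun i => hD i k) (hpt k) Y
  have hno : NoIsog w := fun k l hkl M hM => by
    filter_upwards [noIsog_of_finite τ hgen k l hkl M hM] with i hi σ'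
    rw [h2, h2]
    exact hi ((σ i).trans σ')
  have key := yva_mainW hQ hN S hS hη hc h1 hdom hinf hno fun k => (hφ k).1
  simp only [← fun k => (hφ k).2]
  rw [tendsto_iff_norm_sub_tendsto_zero] at key ⊢
  exact squeeze_zero' (Eventually.of_forall fun _ => norm_nonneg _)
    ((hinf Y').mono fun i hi => h3 i hi) key

end Pool.Agent.EQ
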