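import Pool.Agent.P.MP_ad7a55_nt.YVa
import Pool.Agent.P.MP_ad7a55_nt.YHd
import Pool.Agent.P.MP_ad7a55_nt.YSc
import Pool.Agent.P.MP_ad7a55_nt.XZ

/-! The conditions on the discriminants reduce to one scale condition. -/

set_option autoImplicit false

noncomputable section

open Finset
open scoped Classical

namespace Pool.Agent.EQ

/-- Large conductor, or no exceptional zero and many split primes. -/
def Qs (B A : ℕ) (c : ℝ) (D : ℤ) : Prop :=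
  ∃ d f : ℤ, Squarefree d ∧ D = f ^ 2 * d ∧
    (Real.log d.natAbs ≤ thr B (Real.log (-(D : ℝ))) ∨
      (NoZero c d ∧ ManyT A d.natAbs (thr B (Real.log (-(D : ℝ))))))

theorem yz_ev (B : ℕ) (Z₀ X₀ : ℝ) : ∃ Y : ℝ, ∀ y : ℝ, Y ≤ y → 0 < y ∧ X₀ ≤ Real.log y ∧
    Z₀ ≤ thr B (Real.log y) := by
  have h1 := (Real.tendsto_log_atTop).eventually_ge_atTop X₀
  have h2 := ((thr_tendsto B).comp Real.tendsto_log_atTop).eventually_ge_atTop Z₀
  obtain ⟨Y, hY⟩ := Filter.eventually_atTop.1 ((Filter.eventually_gt_atTop (0 : ℝ)).and (h1.and h2))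
  exact ⟨Y, fun y hy => ⟨(hY y hy).1, (hY y hy).2.1, (hY y hy).2.2⟩⟩

theorem yz_le_exp {m : ℕ} {Z : ℝ} (h : Real.log m ≤ Z) : (m : ℝ) ≤ Real.exp Z := by
  rcases Nat.eq_zero_or_pos m with rfl | h0
  · simpa using (Real.exp_pos Z).le
  · have h1 : (0 : ℝ) < m := by exact_mod_cast h0
    calc (m : ℝ) = Real.exp (Real.log m) := (Real.exp_log h1).symm
      _ ≤ Real.exp Z := Real.exp_le_exp.2 h

theorem yz_le_of_log {m t : ℕ} {Z : ℝ} (hZ : 0 < Z) (h : Real.log m ≤ Z) (ht : Z ≤ Real.log t) :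
    m ≤ t := by
  rcases Nat.eq_zero_or_pos t with rfl | h0
  · simp at ht
    linarith
  · have h1 : (0 : ℝ) < t := by exact_mod_cast h0
    have h2 : (m : ℝ) ≤ t := by
      calc (m : ℝ) ≤ Real.exp Z := yz_le_exp h
        _ ≤ Real.exp (Real.log t) := Real.exp_le_exp.2 ht
        _ = t := Real.exp_log h1
    exact_mod_cast h2

theorem yz_neg {D d f : ℤ} (h1 : D < 0) (e : D = f ^ 2 * d) : -(d.natAbs : ℤ) = d := by
  have h2 : d ≤ 0 := by
    by_contra h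
    have : 0 ≤ f ^ 2 * d := mul_nonneg (sq_nonneg f) (le_of_lt (not_le.1 h))
    omega
  omega

theorem yz_log_le {D d f : ℤ} (h1 : D < 0) (e : D = f ^ 2 * d) :
    0 < d.natAbs ∧ Real.log d.natAbs ≤ Real.log (-(D : ℝ)) := by
  have h2 := yz_neg h1 e
  have hf : f ≠ 0 := by
    rintro rfl
    simp at e
    omega
  have hd : d ≠ 0 := by
    rintro rfl
    simp at e
    omega
  have h0 : 0 < d.natAbs := Int.natAbs_pos.2 hd
  have h3 : 1 ≤ f ^ 2 := by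
    have := sq_pos_of_ne_zero hf
    omega
  have h4 : (d.natAbs : ℤ) ≤ -D := by
    have h5 : (0 : ℤ) ≤ d.natAbs := Int.natCast_nonneg _
    have h6 : -D = f ^ 2 * (d.natAbs : ℤ) := by
      rw [e]
      conv_lhs => rw [← h2]
      ring
    nlinarith
  refine ⟨h0, Real.log_le_log (by exact_mod_cast h0) ?_⟩
  have h7 := (Int.cast_le (R := ℝ)).2 h4
  rwa [Int.cast_natCast, Int.cast_neg] at h7

theorem sc_of_qs (B A : ℕ) {c : ℝ} (hc : 0 < c) : ∃ (A' : ℕ) (Uf Yf : ℝ → ℝ) (Y : ℝ),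
    (∀ δ, 1 ≤ Uf δ) ∧ ∀ D : ℤ, Y ≤ -(D : ℝ) → Qs B A c D → Sc B A' Uf Yf D := by
  obtain ⟨C, hC, hlow⟩ := low_small
  obtain ⟨A₀, t₀, hmany⟩ := many_large
  obtain ⟨U₁, Y₁, hU₁, htg₁⟩ := tg_large
  obtain ⟨L₀, hL₀, hlow₀⟩ := low_of_noZero hc
  obtain ⟨U₂, Y₂, -, htg₂⟩ := tg_of_low L₀
  obtain ⟨Y, hY⟩ := yz_ev B (max (max 1 (Real.log t₀)) (max C L₀)) (Real.exp 50)
  refine ⟨max A A₀, fun δ => max (U₁ δ) (U₂ δ), fun δ => max (Y₁ δ) (Y₂ δ), Y,
    fun δ => (hU₁ δ).trans (le_max_left _ _), fun D hD hQ => ?_⟩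
  obtain ⟨hD0, hX, hZ⟩ := hY _ hD
  obtain ⟨d, f, hd, e, h⟩ := hQ
  obtain ⟨Z, hZe⟩ : ∃ Z, Z = thr B (Real.log (-(D : ℝ))) := ⟨_, rfl⟩
  rw [← hZe] at hZ h
  have z1 : 1 ≤ Z := ((le_max_left _ _).trans (le_max_left _ _)).trans hZ
  have z2 : Real.log t₀ ≤ Z := ((le_max_right _ _).trans (le_max_left _ _)).trans hZ
  have z3 : C ≤ Z := ((le_max_left _ _).trans (le_max_right _ _)).trans hZ
  have z4 : L₀ ≤ Z := ((le_max_right _ _).trans (le_max_right _ _)).trans hZ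
  have hneg : D < 0 := by
    have : (D : ℝ) < 0 := by linarith
    exact_mod_cast this
  have h50 : 50 ≤ Real.log (Real.log (-(D : ℝ))) := by
    have := Real.log_le_log (Real.exp_pos 50) hX
    rwa [Real.log_exp] at this
  have hexp : Z ≤ Real.exp Z := by linarith [Real.add_one_le_exp Z]
  unfold Sc
  rw [← hZe]
  rcases h with h | ⟨hz, hm⟩
  · have hdZ := yz_le_exp h
    refine ⟨d, f, C * d.natAbs, hd, e, ?_, ?_, ?_, fun g hg => ?_⟩
    · refine ManyT.mono (A := A₀) (Z := Z) (fun t ht => ?_) (le_max_right _ _) le_rfl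
      exact hmany _ (Int.squarefree_natAbs.2 hd) t (yz_le_of_log (by linarith) z2 ht)
        (yz_le_of_log (by linarith) h ht)
    · rw [e]
      exact hlow d f hd (e ▸ hneg)
    · rw [abs_of_nonneg (by positivity), two_mul, Real.exp_add]
      exact mul_le_mul (z3.trans hexp) hdZ (Nat.cast_nonneg _) (Real.exp_pos _).le
    · refine (htg₁ d g (le_trans ?_ hg)).mono (fun δ => le_max_left _ _) fun δ => le_max_left _ _
      calc (d.natAbs : ℝ) ^ 50 ≤ Real.exp Z ^ 50 := pow_le_pow_left₀ (Nat.cast_nonneg _) hdZ 50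
        _ = Real.exp (Z * 50) := by rw [← Real.exp_nat_mul, mul_comm]; norm_num
        _ ≤ _ := Real.exp_le_exp.2 (mul_le_mul_of_nonneg_left h50 (by linarith))
  · refine ⟨d, f, L₀, hd, e, hm.mono (le_max_left _ _) le_rfl, ?_, ?_, fun g hg => ?_⟩
    · rw [e]
      exact hlow₀ d f hd (e ▸ hneg) hz
    · rw [abs_of_pos hL₀]
      exact (z4.trans hexp).trans (Real.exp_le_exp.2 (by linarith))
    · have h1 : g ^ 2 * d < 0 := by
        have h2 : ((g ^ 2 * d : ℤ) : ℝ) < 0 := by linarith [(Real.exp_pos _).trans_le hg]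
        exact_mod_cast h2
      exact (htg₂ _ (hlow₀ d g hd h1 hz)).mono (fun δ => le_max_right _ _)
        fun δ => le_max_right _ _

theorem goodQ_Qs (n A : ℕ) {c : ℝ} (hc : 0 < c) : GoodQ n (Qs (BB n) A c) := by
  obtain ⟨A', Uf, Yf, Y, hU, h⟩ := sc_of_qs (BB n) A hc
  exact (goodQ_Sc n A' hU).mono h

theorem merge6 (B A₀ A : ℕ) {c₀ c : ℝ} (hc₀ : 0 < c₀) (hc : 0 < c) :
    ∃ (A' : ℕ) (c' Y : ℝ), 0 < c' ∧ ∀ D d f : ℤ, Y ≤ -(D : ℝ) → Squarefree d → D = f ^ 2 * d →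
      ∀ X w : ℝ, X = Real.log |(D : ℝ)| → w = Real.log X ^ (B + 2) → ∀ P : Prop,
      (d.natAbs ∉ EY B A₀ c₀ ∨ Real.log |(d : ℝ)| ≤ X / w ∨
        (∀ (N : ℕ) [NeZero N] (χ : DirichletCharacter ℂ N), N = 4 * d.natAbs →
          (∀ m : ℕ, Odd m → χ m = jacobiSym d m) →
          ∀ s : ℂ, ‖s - 2‖ < 1 + w / X → χ.LFunction s ≠ 0) ∨
        (NoZero c d ∧ (P ∨ ∀ t : ℕ, X / w ≤ Real.log t → ∃ Q : Finset ℕ, t ≤ Q.card ∧
          ∀ p ∈ Q, p.Prime ∧ p ≤ t ^ A ∧ jacobiSym d p = 1))) →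
      Qs B A' c' D ∨ (NoZero c d ∧ P) := by
  obtain ⟨A₁, X₁, hA₁⟩ := many_of_ZF6 B
  obtain ⟨X₂, hX₂⟩ := noZero_of_ZF6 B (min c₀ c)
  obtain ⟨Y, hY⟩ := yz_ev B (Real.exp B) (max (Real.exp 1) (max X₁ X₂))
  refine ⟨max A₁ (max A₀ A), min c₀ c, Y, lt_min hc₀ hc,
    fun D d f hD hd e X w hX hw P h => ?_⟩
  obtain ⟨hD0, hX0, hZ⟩ := hY _ hD
  have hneg : D < 0 := by
    have : (D : ℝ) < 0 := by linarith
    exact_mod_cast this
  have hXe : X = Real.log (-(D : ℝ)) := by rw [hX, abs_of_neg (by linarith)]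
  have hdd := yz_neg hneg e
  obtain ⟨hm0, hml⟩ := yz_log_le hneg e
  have habs : |(d : ℝ)| = (d.natAbs : ℝ) := by rw [← Int.cast_abs, ← Nat.cast_natAbs]
  rw [← hXe] at hX0 hZ hml
  have x1 : Real.exp 1 ≤ X := (le_max_left _ _).trans hX0
  have x2 : X₁ ≤ X := ((le_max_left _ _).trans (le_max_right _ _)).trans hX0
  have x3 : X₂ ≤ X := ((le_max_right _ _).trans (le_max_right _ _)).trans hX0
  have hw' : X / w ≤ thr B X := by
    rw [hw]
    exact thr_anti (Nat.le_add_right B 2) x1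
  by_cases hs : Real.log d.natAbs ≤ thr B X
  · exact Or.inl ⟨d, f, hd, e, Or.inl (hXe ▸ hs)⟩
  have hs' : thr B X ≤ Real.log d.natAbs := (not_le.1 hs).le
  rcases h with h | h | h | ⟨h, h' | h'⟩
  · have h1 : NoZero c₀ (-(d.natAbs : ℤ)) ∧ ManyT A₀ d.natAbs (thr B (Real.log d.natAbs)) := by
      by_contra h2
      exact h ⟨Int.squarefree_natAbs.2 hd, h2⟩
    rw [hdd] at h1
    refine Or.inl ⟨d, f, hd, e, Or.inr ⟨h1.1.anti (min_le_left _ _), ?_⟩⟩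
    rw [← hXe]
    exact h1.2.mono ((le_max_left _ _).trans (le_max_right _ _)) (thr_mono B (hZ.trans hs') hml)
  · rw [habs] at h
    exact absurd (h.trans hw') hs
  · have hzf : ZF (Real.log X ^ (B + 2) / X) d.natAbs := by
      intro q _ χ hq hχ s hs
      rw [hdd] at hχ
      exact h q χ hq hχ s (by rwa [hw])
    have h1 := hX₂ _ X x3 hs' hzf
    rw [hdd] at h1
    refine Or.inl ⟨d, f, hd, e, Or.inr ⟨h1, ?_⟩⟩
    rw [← hXe]
    exact (hA₁ _ X x2 hm0 hml hzf).mono (le_max_left _ _) le_rfl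
  · exact Or.inr ⟨h, h'⟩
  · refine Or.inl ⟨d, f, hd, e, Or.inr ⟨h.anti (min_le_right _ _), ?_⟩⟩
    rw [← hXe]
    refine ManyT.mono (A := A) (Z := thr B X) (fun t ht => ?_)
      ((le_max_right _ _).trans (le_max_right _ _)) le_rfl
    obtain ⟨Q, hQ, hp⟩ := h' t (hw'.trans ht)
    refine hQ.trans (card_le_card fun p h => ?_)
    rw [mem_filter, Nat.mem_primesLE, hdd]
    exact ⟨⟨(hp p h).2.1, (hp p h).1⟩, (hp p h).2.2⟩

end Pool.Agent.EQ
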