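import Pool.Agent.P.MP_ad7a55_nt.ZCa
import Pool.Agent.P.MP_ad7a55_nt.YSc

/-! Class numbers and the value at one. -/

set_option autoImplicit false

noncomputable section

open Finset
open scoped Classical

namespace Pool.Agent.EQ

theorem zcb_lim {a b c : ℝ} {N₀ : ℕ}
    (H : ∀ N : ℕ, N₀ ≤ N → a * N ≤ b * N + c * (N : ℝ) ^ (3 / 4 : ℝ)) : a ≤ b := by
  by_contra hab
  have hδ : 0 < a - b := by linarith
  obtain ⟨M₁, hM₁⟩ := exists_nat_gt (c / (a - b))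
  obtain ⟨M, hM⟩ : ∃ M : ℕ, M = M₁ + N₀ + 1 := ⟨_, rfl⟩
  have h1 : N₀ ≤ M ^ 4 := le_trans (by omega) (Nat.le_self_pow (by norm_num) M)
  have hM0 : (0 : ℝ) < M := by exact_mod_cast (by omega : 0 < M)
  have hM1 : (M₁ : ℝ) ≤ M := by exact_mod_cast (by omega : M₁ ≤ M)
  have h2 := H _ h1
  have h3 : ((M ^ 4 : ℕ) : ℝ) ^ (3 / 4 : ℝ) = (M : ℝ) ^ 3 := by
    rw [Nat.cast_pow, ← Real.rpow_natCast, ← Real.rpow_mul hM0.le, ← Real.rpow_natCast]
    norm_num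
  rw [h3, Nat.cast_pow] at h2
  have h4 : c < M * (a - b) := by
    rw [div_lt_iff₀ hδ] at hM₁
    nlinarith
  have h5 := mul_lt_mul_of_pos_right h4 (pow_pos hM0 3)
  nlinarith

theorem zcb_jc (d : ℤ) : jc (((2 : ℕ) : ℤ) ^ 2 * d) = jc d := by
  funext n
  unfold jc
  split_ifs with h
  · rw [jacobiSym.mul_left, jacobiSym.sq_one', one_mul]
    exact (Nat.coprime_two_left.2 h : Nat.Coprime 2 n)
  · rfl

theorem zcb_log {x : ℝ} (hx : 3 ≤ x) : Real.log (4 * x) ≤ 3 * Real.log x := by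
  have h : (3 : ℝ) * Real.log x = Real.log (x ^ 3) := by
    rw [Real.log_pow]
    norm_num
  rw [h]
  refine Real.log_le_log (by linarith) ?_
  nlinarith [mul_nonneg (show 0 ≤ x by linarith) (show 0 ≤ x ^ 2 - 4 by nlinarith)]

theorem zcb_neg {d f : ℤ} (h : f ^ 2 * d < 0) : d < 0 := by
  by_contra hn
  exact absurd h (not_lt.2 (mul_nonneg (sq_nonneg f) (not_lt.1 hn)))

theorem zcb_euler : ∃ C : ℝ, 0 < C ∧ ∀ (q : ℕ) (ψ : ℕ → ℝ), RC q ψ → 2 ≤ q →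
    ∀ X : ℕ, q ≤ X ^ 3 → Real.exp (∑ l ∈ Nat.primesLE X, ψ l / l) ≤ C * Real.log q := by
  obtain ⟨C2, hC2, h2⟩ := exp_primes_le 1
  obtain ⟨C3, h3⟩ := tnz_move
  refine ⟨Real.exp C3 * C2, by positivity, fun q ψ hrc hq X hX => ?_⟩
  have e2 := h2 q hq
  rw [Nat.cast_one, one_mul, pow_one] at e2
  have e3 := h3 q ψ hrc hq X hX
  have e4 := (le_abs_self _).trans (tnz_abs (ttl_abs hrc) (Nat.primesLE q))
  calc Real.exp (∑ l ∈ Nat.primesLE X, ψ l / l)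
      ≤ Real.exp C3 * Real.exp (∑ l ∈ Nat.primesLE q, 1 / (l : ℝ)) := by
        rw [← Real.exp_add]
        exact Real.exp_le_exp.2 (by linarith)
    _ ≤ Real.exp C3 * (C2 * Real.log q) := mul_le_mul_of_nonneg_left e2 (Real.exp_pos _).le
    _ = _ := by ring

theorem zcb_mono {L L' : ℝ} {D : ℤ} (h : Low L D) (hL : L ≤ L') : Low L' D :=
  fun D' h1 h2 => (h D' h1 h2).trans (mul_le_mul_of_nonneg_right hL (Nat.cast_nonneg _))

theorem class_le : ∃ C : ℝ, 0 < C ∧ ∀ (d f : ℤ) [NeZero (4 * d.natAbs)], IsD (f ^ 2 * d) →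
    ((Cl (f ^ 2 * d)).ncard : ℝ) ≤ C * Real.sqrt (-((f ^ 2 * d : ℤ) : ℝ)) *
      Real.log (-((f ^ 2 * d : ℤ) : ℝ)) * ‖(sgeChi d).LFunction 1‖ := by
  obtain ⟨K, hK, HK⟩ := idl_major
  obtain ⟨C2, hC2, h2⟩ := exp_primes_le 1
  have hK0 : 0 < K := by linarith
  refine ⟨90 * K ^ 2 * C2, by positivity, fun d f _ hD => ?_⟩
  obtain ⟨u, hu, Hu, HI⟩ := HK _ hD
  obtain ⟨N₀, HN⟩ := idl_lower (f ^ 2 * d)
  have hd0 : d < 0 := zcb_neg hD.1
  have hI := HI d f 2 rfl two_pos dvd_rfl fun l _ h =>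
    Dvd.dvd.mul_right (by exact_mod_cast h) _
  rw [zcb_jc] at hI
  have hrc := rc_jc (Δ := d) fun h => absurd hd0 (not_lt.2 h.nonneg)
  have hL := exists_L_jc hd0
  obtain ⟨L, hLd⟩ : ∃ L : ℝ, L = ‖(sgeChi d).LFunction 1‖ := ⟨_, rfl⟩
  rw [← hLd] at hL ⊢
  have hL0 : 0 ≤ L := by rw [hLd]; exact norm_nonneg _
  have hcop := cop_sum hrc hL two_pos
  have hρ : ∏ l ∈ (2 : ℕ).primeFactors, (1 - 1 / (l : ℝ)) = 1 / 2 := by
    rw [Nat.prime_two.primeFactors, prod_singleton]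
    norm_num
  rw [hρ] at hcop
  have hq1 : (1 : ℝ) ≤ (4 * d.natAbs : ℕ) := by
    exact_mod_cast Nat.pos_of_ne_zero (NeZero.ne (4 * d.natAbs))
  have hL3 : L ≤ 3 * (4 * d.natAbs : ℕ) := by
    have h1 := hL 1 one_pos
    rw [Icc_self, sum_singleton, hrc.one, Nat.cast_one, div_one, div_one] at h1
    have := (abs_le.1 h1).1
    linarith
  obtain ⟨q, hqd⟩ : ∃ q : ℝ, q = (4 * d.natAbs : ℕ) := ⟨_, rfl⟩
  rw [← hqd] at hcop hq1 hL3
  have h3 := tti_three hD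
  have hn : 3 ≤ (f ^ 2 * d).natAbs := by
    have := tti_abs hD.1
    have h4 : ((3 : ℕ) : ℝ) ≤ (f ^ 2 * d).natAbs := by
      rw [this]
      exact_mod_cast h3
    exact_mod_cast h4
  have hS : Real.exp (∑ l ∈ (4 * (f ^ 2 * d).natAbs).primeFactors, 1 / (l : ℝ)) ≤
      C2 * (3 * Real.log (-((f ^ 2 * d : ℤ) : ℝ))) := by
    have e2 := h2 (4 * (f ^ 2 * d).natAbs) (by omega)
    rw [Nat.cast_one, one_mul, pow_one, Nat.cast_mul, tti_abs hD.1, Nat.cast_ofNat] at e2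
    refine le_trans (Real.exp_le_exp.2 ?_) (e2.trans
      (mul_le_mul_of_nonneg_left (zcb_log h3) hC2.le))
    refine sum_le_sum_of_subset_of_nonneg (fun l hl => ?_) fun l _ _ => by positivity
    exact Nat.mem_primesLE.2 ⟨Nat.le_of_mem_primeFactors hl, Nat.prime_of_mem_primeFactors hl⟩
  have hs := ctB_sqrt_pos hD.1
  generalize Real.sqrt (-((f ^ 2 * d : ℤ) : ℝ)) = s at *
  generalize Real.log (-((f ^ 2 * d : ℤ) : ℝ)) = x at *
  generalize K ^ #(4 * (f ^ 2 * d).natAbs).primeFactors = W at *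
  have key : ((Cl (f ^ 2 * d)).ncard : ℝ) / s ≤ 90 * K ^ 2 * C2 * x * L := by
    refine zcb_lim (c := 30 * K * (23 * (2 : ℕ) * q * W)) (N₀ := N₀) fun N hN => ?_
    obtain ⟨hu1, hu2⟩ := Hu N
    have a1 : ∑ n ∈ Icc 1 N, ((Idl (f ^ 2 * d) n).ncard : ℝ) ≤
        K * ∑ a ∈ Icc 1 N, u a * ∑ b ∈ Icc 1 (N / a), vv 2 (jc d) b := by
      rw [← ysc_swap, mul_sum]
      exact sum_le_sum fun n hn => hI n (mem_Icc.1 hn).1
    have a2 : ∑ a ∈ Icc 1 N, u a * ∑ b ∈ Icc 1 (N / a), vv 2 (jc d) b ≤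
        L * (1 / 2) * N * ∑ a ∈ Icc 1 N, u a / a +
          23 * (2 : ℕ) * q * (N : ℝ) ^ (3 / 4 : ℝ) *
            ∑ a ∈ Icc 1 N, u a / (a : ℝ) ^ (3 / 4 : ℝ) := by
      rw [mul_sum, mul_sum, ← sum_add_distrib]
      refine sum_le_sum fun a ha => ?_
      have h1 := (hcop (N / a)).trans (ysc_one hq1 (Nat.cast_nonneg 2) hL0 hL3 (by norm_num)
        (mem_Icc.1 ha).1 (mem_Icc.1 ha).2)
      refine (mul_le_mul_of_nonneg_left h1 (hu a)).trans (le_of_eq ?_)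
      ring
    have hx0 : 0 ≤ C2 * (3 * x) := (Real.exp_pos _).le.trans hS
    have a3 : L * (1 / 2) * N * ∑ a ∈ Icc 1 N, u a / a ≤ L * 1 * N * (K * (C2 * (3 * x))) := by
      refine mul_le_mul (by gcongr; norm_num) (hu1.trans (mul_le_mul_of_nonneg_left hS hK0.le))
        (sum_nonneg fun a _ => div_nonneg (hu a) (Nat.cast_nonneg _)) (by positivity)
    have a4 : 23 * (2 : ℕ) * q * (N : ℝ) ^ (3 / 4 : ℝ) *
        ∑ a ∈ Icc 1 N, u a / (a : ℝ) ^ (3 / 4 : ℝ) ≤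
        23 * (2 : ℕ) * q * (N : ℝ) ^ (3 / 4 : ℝ) * W :=
      mul_le_mul_of_nonneg_left hu2 (by positivity)
    refine (HN N hN).trans ((mul_le_mul_of_nonneg_left (a1.trans (mul_le_mul_of_nonneg_left
      (a2.trans (add_le_add a3 a4)) hK0.le)) (by norm_num)).trans (le_of_eq ?_))
    ring
  rw [div_le_iff₀ hs] at key
  refine key.trans (le_of_eq ?_)
  ring

theorem low_of_L : ∃ C : ℝ, 0 < C ∧ ∀ (d f : ℤ) [NeZero (4 * d.natAbs)] (t : ℝ), Squarefree d →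
    f ^ 2 * d < 0 → 0 < t → t ≤ ‖(sgeChi d).LFunction 1‖ →
    Low (C * Real.log (4 * d.natAbs) / t) (f ^ 2 * d) := by
  obtain ⟨C, hC, hE⟩ := zcb_euler
  refine ⟨1200 * Real.exp 3 * C, by positivity, fun d f _ t hd hf ht htL D' hD' hsq => ?_⟩
  have hf0 : f ≠ 0 := by
    rintro rfl
    simp at hf
  have hd0 : d < 0 := zcb_neg hf
  obtain ⟨g, rfl⟩ := tlow_shape hd hf0 hsq
  have h3 : 3 ≤ (g ^ 2 * d).natAbs := by
    obtain ⟨h1, h2⟩ := hD'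
    omega
  have hdp : 0 < d.natAbs := Int.natAbs_pos.2 hd0.ne
  have : NeZero (4 * (g ^ 2 * d).natAbs) := ⟨by omega⟩
  have hdv : d.natAbs ∣ (g ^ 2 * d).natAbs := Int.natAbs_dvd_natAbs.2 (dvd_mul_left _ _)
  have hX : 4 * d.natAbs ≤ (g ^ 2 * d).natAbs ^ 3 := by
    have h1 := Nat.le_of_dvd (by omega) hdv
    generalize (g ^ 2 * d).natAbs = X at *
    have h2 : 3 * 3 * X ≤ X * X * X := by gcongr
    calc 4 * d.natAbs ≤ 3 * 3 * X := by omega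
      _ ≤ X * X * X := h2
      _ = X ^ 3 := by ring
  have hrc := rc_jc (Δ := d) fun h => absurd hd0 (not_lt.2 h.nonneg)
  have h4' := hE (4 * d.natAbs) (jc d) hrc (by omega) _ hX
  rw [Nat.cast_mul, Nat.cast_ofNat] at h4'
  have hB : 0 ≤ C * Real.log (4 * (d.natAbs : ℝ)) := (Real.exp_pos _).le.trans h4'
  have h4 : Real.exp (∑ l ∈ Nat.primesLE (g ^ 2 * d).natAbs, jc d l / l) ≤
      C * Real.log (4 * (d.natAbs : ℝ)) / t * ‖(sgeChi d).LFunction 1‖ := by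
    refine h4'.trans ?_
    rw [div_mul_eq_mul_div, le_div_iff₀ ht]
    exact mul_le_mul_of_nonneg_left htL hB
  have h5 := class_ge hD'
  rw [tlow_level (Nat.mul_dvd_mul_left 4 hdv),
    DirichletCharacter.LFunction_changeLevel _ _ (Or.inl (tlow_ne hd0)), norm_mul] at h5
  simp only [tlow_jc] at h5
  have h6 := tlow_prod d (4 * (g ^ 2 * d).natAbs).primeFactors
    fun l hl => Nat.prime_of_mem_primeFactors hl
  have h7 := tlow_sum h3
  have h8 : EE (g ^ 2 * d) (g ^ 2 * d).natAbs ≤ Real.exp 3 *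
      (Real.exp (∑ l ∈ Nat.primesLE (g ^ 2 * d).natAbs, jc d l / l) *
        Real.exp (-(∑ l ∈ (4 * (g ^ 2 * d).natAbs).primeFactors, jc d l / l) - 2)) := by
    rw [EE, ← Real.exp_add, ← Real.exp_add]
    exact Real.exp_le_exp.2 (by linarith)
  rw [HH]
  generalize EE (g ^ 2 * d) (g ^ 2 * d).natAbs = E at *
  generalize ‖∏ l ∈ (4 * (g ^ 2 * d).natAbs).primeFactors,
    (1 - ((jc d l : ℝ) : ℂ) * (l : ℂ) ^ (-(1 : ℂ)))‖ = P at *
  have hA := norm_nonneg ((sgeChi d).LFunction 1)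
  generalize ‖(sgeChi d).LFunction 1‖ = A at *
  have hS := Real.sqrt_nonneg (-((g ^ 2 * d : ℤ) : ℝ))
  generalize Real.sqrt (-((g ^ 2 * d : ℤ) : ℝ)) = S at *
  have hB' : 0 ≤ C * Real.log (4 * (d.natAbs : ℝ)) / t := div_nonneg hB ht.le
  have e : 1200 * Real.exp 3 * C * Real.log (4 * (d.natAbs : ℝ)) / t =
      1200 * Real.exp 3 * (C * Real.log (4 * (d.natAbs : ℝ)) / t) := by ring
  rw [e]
  generalize C * Real.log (4 * (d.natAbs : ℝ)) / t = B at *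
  calc S * E ≤ S * (Real.exp 3 * (B * A * P)) := by
        refine mul_le_mul_of_nonneg_left (h8.trans ?_) hS
        gcongr
    _ = Real.exp 3 * B * (S * (A * P)) := by ring
    _ ≤ Real.exp 3 * B * (1200 * ((Cl (g ^ 2 * d)).ncard : ℝ)) := by gcongr
    _ = _ := by ring

theorem low_of_class : ∃ Y : ℝ, ∀ D : ℤ, Y ≤ -(D : ℝ) →
    Real.sqrt (-(D : ℝ)) / Real.log (-(D : ℝ)) ≤ (Cl D).ncard →
    IsD D ∧ (∃ d f : ℤ, Squarefree d ∧ D = f ^ 2 * d) ∧ Low (Real.log (-(D : ℝ)) ^ 4) D := by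
  obtain ⟨C1, hC1, H1⟩ := class_le
  obtain ⟨C2, hC2, H2⟩ := low_of_L
  refine ⟨Real.exp (3 * C1 * C2 + 1), fun D hY hh => ?_⟩
  have hx : 0 < -(D : ℝ) := (Real.exp_pos _).trans_le hY
  have hlog : 3 * C1 * C2 + 1 ≤ Real.log (-(D : ℝ)) := (Real.le_log_iff_exp_le hx).2 hY
  have hC : 0 < 3 * C1 * C2 := by positivity
  have hl0 : 0 < Real.log (-(D : ℝ)) := by linarith
  have hs : 0 < Real.sqrt (-(D : ℝ)) := Real.sqrt_pos.2 hx
  have hD : IsD D := by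
    have h1 : (0 : ℝ) < (Cl D).ncard := (div_pos hs hl0).trans_le hh
    have h2 : (Cl D).ncard ≠ 0 := by
      intro h
      rw [h, Nat.cast_zero] at h1
      exact lt_irrefl _ h1
    obtain ⟨z, Λ, hΛ, -⟩ := Set.nonempty_of_ncard_ne_zero h2
    exact hΛ.isD
  obtain ⟨a, b, hab, ha⟩ := Nat.sq_mul_squarefree D.natAbs
  have hsq : Squarefree (-(a : ℤ)) := Int.squarefree_natAbs.1 (by simpa using ha)
  have hDe : D = (b : ℤ) ^ 2 * -(a : ℤ) := by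
    have h1 : ((b ^ 2 * a : ℕ) : ℤ) = D.natAbs := by rw [hab]
    have h2 := hD.1
    push_cast at h1
    rw [abs_of_neg h2] at h1
    linarith
  refine ⟨hD, ⟨_, _, hsq, hDe⟩, ?_⟩
  generalize -(a : ℤ) = d at hsq hDe
  generalize (b : ℤ) = f at hDe
  subst hDe
  have hd0 : d < 0 := zcb_neg hD.1
  have hdp : 0 < d.natAbs := Int.natAbs_pos.2 hd0.ne
  have : NeZero (4 * d.natAbs) := ⟨by omega⟩
  have h1 := hh.trans (H1 d f hD)
  have h3 := tti_three hD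
  have h4 : Real.log (4 * (d.natAbs : ℝ)) ≤ 3 * Real.log (-((f ^ 2 * d : ℤ) : ℝ)) := by
    refine le_trans (Real.log_le_log (by positivity) ?_) (zcb_log h3)
    rw [← tti_abs hD.1]
    have hdv : d.natAbs ∣ (f ^ 2 * d).natAbs := Int.natAbs_dvd_natAbs.2 (dvd_mul_left _ _)
    have h5 : (d.natAbs : ℝ) ≤ (f ^ 2 * d).natAbs := by
      exact_mod_cast Nat.le_of_dvd (Int.natAbs_pos.2 hD.1.ne) hdv
    linarith
  generalize Real.sqrt (-((f ^ 2 * d : ℤ) : ℝ)) = s at *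
  generalize Real.log (-((f ^ 2 * d : ℤ) : ℝ)) = x at *
  have ht : 1 / (C1 * x ^ 2) ≤ ‖(sgeChi d).LFunction 1‖ := by
    rw [div_le_iff₀ hl0] at h1
    rw [div_le_iff₀ (by positivity)]
    refine le_of_mul_le_mul_left ?_ hs
    nlinarith
  refine zcb_mono (H2 d f _ hsq hD.1 (by positivity) ht) ?_
  rw [div_div_eq_mul_div, div_one]
  calc C2 * Real.log (4 * (d.natAbs : ℝ)) * (C1 * x ^ 2) ≤ C2 * (3 * x) * (C1 * x ^ 2) := by
        gcongr
    _ = 3 * C1 * C2 * x ^ 3 := by ring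
    _ ≤ x * x ^ 3 := mul_le_mul_of_nonneg_right (by linarith) (by positivity)
    _ = x ^ 4 := by ring

end Pool.Agent.EQ
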