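import Pool.Agent.P.MP_ad7a55_nt.ZWa

/-! Scales with many split primes. -/

set_option autoImplicit false

noncomputable section

open Finset
open scoped Classical

namespace Pool.Agent.EQ

/-- Many primes near `y` split. -/
def Ply (D : ℤ) (y : ℕ) : Prop := y ≤ #{p ∈ Ioc y (2 * y) | p.Prime ∧ jacobiSym D p = 1} ^ 2

/-- A scale with many split primes. -/
def Wn (D : ℤ) (X : ℝ) (j : ℕ) : Prop :=
  3 ≤ j ∧ Real.log X ^ (j + 4) ≤ X ∧
    ∃ y : ℕ, Real.log X ^ j ≤ Real.log y ∧ Real.log y ≤ Real.log X ^ (j + 1) ∧ Ply D y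

theorem zwb_near {p : ℕ} (hp : p.Prime) :
    2 ^ Nat.log 2 (p - 1) < p ∧ p ≤ 2 * 2 ^ Nat.log 2 (p - 1) := by
  have h0 := hp.two_le
  have h1 := Nat.pow_log_le_self 2 (show p - 1 ≠ 0 by omega)
  have h2 := Nat.lt_pow_succ_log_self (show 1 < 2 by norm_num) (p - 1)
  rw [pow_succ] at h2
  omega

theorem zwb_log {p : ℕ} (hp : p.Prime) :
    Real.log ((2 ^ Nat.log 2 (p - 1) : ℕ) : ℝ) ≤ Real.log p ∧
      Real.log p ≤ Real.log ((2 ^ Nat.log 2 (p - 1) : ℕ) : ℝ) + 1 := by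
  obtain ⟨h1, h2⟩ := zwb_near hp
  have h3 : 0 < 2 ^ Nat.log 2 (p - 1) := by positivity
  generalize 2 ^ Nat.log 2 (p - 1) = y at *
  have hy : (0 : ℝ) < y := by exact_mod_cast h3
  have hp0 : (0 : ℝ) < p := by exact_mod_cast hp.pos
  refine ⟨Real.log_le_log hy (by exact_mod_cast h1.le), ?_⟩
  have h4 : Real.log p ≤ Real.log (2 * y) := Real.log_le_log hp0 (by exact_mod_cast h2)
  rw [Real.log_mul two_ne_zero hy.ne'] at h4
  linarith [Real.log_le_sub_one_of_pos (show (0 : ℝ) < 2 by norm_num)]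

theorem no_pool (D : ℤ) (S : Finset ℕ)
    (hS : ∀ p ∈ S, p.Prime ∧ jacobiSym D p = 1 ∧ ¬ Ply D (2 ^ Nat.log 2 (p - 1))) :
    ∑ p ∈ S, 1 / (p : ℝ) ≤ 4 := by
  rw [← sum_fiberwise_of_maps_to (g := fun p => Nat.log 2 (p - 1))
    (t := S.image fun p => Nat.log 2 (p - 1)) fun p hp => mem_image_of_mem _ hp]
  have hg := hasSum_geometric_of_lt_one (r := (3 / 4 : ℝ)) (by norm_num) (by norm_num)
  refine le_trans (sum_le_sum fun i hi => ?_)
    ((sum_le_hasSum _ (fun i _ => by positivity) hg).trans (by norm_num))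
  obtain ⟨q, hq, rfl⟩ := mem_image.1 hi
  have h1 := (hS q hq).2.2
  generalize Nat.log 2 (q - 1) = i at *
  have h2 : S.filter (fun p => Nat.log 2 (p - 1) = i) ⊆
      (Ioc (2 ^ i) (2 * 2 ^ i)).filter (fun p => p.Prime ∧ jacobiSym D p = 1) := by
    intro p hp
    obtain ⟨h3, rfl⟩ := mem_filter.1 hp
    exact mem_filter.2 ⟨mem_Ioc.2 (zwb_near (hS p h3).1), (hS p h3).1, (hS p h3).2.1⟩
  have h3 : (S.filter (fun p => Nat.log 2 (p - 1) = i)).card ^ 2 ≤ 2 ^ i :=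
    (Nat.pow_le_pow_left (card_le_card h2) 2).trans (not_le.1 h1).le
  have h4 : ∑ p ∈ S.filter (fun p => Nat.log 2 (p - 1) = i), 1 / (p : ℝ) ≤
      (S.filter (fun p => Nat.log 2 (p - 1) = i)).card • (1 / (2 : ℝ) ^ i) := by
    refine sum_le_card_nsmul _ _ _ fun p hp => ?_
    have h5 := (mem_Ioc.1 (mem_filter.1 (h2 hp)).1).1.le
    exact one_div_le_one_div_of_le (by positivity) (by exact_mod_cast h5)
  refine h4.trans ?_
  generalize (S.filter (fun p => Nat.log 2 (p - 1) = i)).card = c at h3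
  have h5 : (c : ℝ) ^ 2 ≤ ((3 / 2 : ℝ) ^ i) ^ 2 := by
    have h6 : (c : ℝ) ^ 2 ≤ 2 ^ i := by exact_mod_cast h3
    rw [← pow_mul, mul_comm, pow_mul]
    exact h6.trans (pow_le_pow_left₀ (by norm_num) (by norm_num) i)
  have h6 : (c : ℝ) ≤ (3 / 2 : ℝ) ^ i := le_of_sq_le_sq h5 (by positivity)
  rw [nsmul_eq_mul, mul_one_div, div_le_iff₀ (by positivity), ← mul_pow]
  exact h6.trans (le_of_eq (by norm_num))

theorem zwb_large (l₀ : ℝ) : ∃ X₀ : ℝ, ∀ X : ℝ, X₀ ≤ X →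
    l₀ ≤ Real.log X ∧ Real.log X ^ 4 ≤ X := by
  have h1 := Real.tendsto_log_atTop.eventually_ge_atTop l₀
  have h2 := (Real.isLittleO_pow_log_id_atTop (n := 4)).bound one_pos
  obtain ⟨X₀, h⟩ := Filter.eventually_atTop.1 (h1.and (h2.and (Filter.eventually_ge_atTop 0)))
  refine ⟨X₀, fun X hX => ⟨(h X hX).1, ?_⟩⟩
  have h3 := (h X hX).2.1
  rw [one_mul, id, Real.norm_of_nonneg (h X hX).2.2] at h3
  exact (le_abs_self _).trans h3

theorem zwb_cover (S Js : Finset ℕ) (A B C : ℕ → Prop) (E : ℕ → ℕ → Prop)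
    [DecidablePred A] [DecidablePred B] [DecidablePred C] [∀ j, DecidablePred (E j)]
    (h : ∀ p ∈ S, A p ∨ B p ∨ C p ∨ ∃ j ∈ Js, E j p) :
    ∑ p ∈ S, 1 / (p : ℝ) ≤ ∑ p ∈ S.filter A, 1 / (p : ℝ) + ∑ p ∈ S.filter B, 1 / (p : ℝ) +
      ∑ p ∈ S.filter C, 1 / (p : ℝ) + ∑ j ∈ Js, ∑ p ∈ S.filter (E j), 1 / (p : ℝ) := by
  simp only [sum_filter]
  rw [sum_comm (s := Js), ← sum_add_distrib, ← sum_add_distrib, ← sum_add_distrib]
  refine sum_le_sum fun p hp => ?_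
  have h0 : (0 : ℝ) ≤ 1 / (p : ℝ) := by positivity
  have hi : ∀ (q : Prop) [Decidable q], (0 : ℝ) ≤ if q then 1 / (p : ℝ) else 0 := fun q _ => by
    split_ifs
    exacts [h0, le_rfl]
  have h1 := hi (A p)
  have h2 := hi (B p)
  have h3 := hi (C p)
  have h4 : (0 : ℝ) ≤ ∑ j ∈ Js, if E j p then 1 / (p : ℝ) else 0 := sum_nonneg fun j _ => hi _
  rcases h p hp with h5 | h5 | h5 | ⟨j, hj, h5⟩
  · rw [if_pos h5]
    linarith
  · rw [if_pos h5]
    linarith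
  · rw [if_pos h5]
    linarith
  · have h6 := single_le_sum (f := fun j => if E j p then 1 / (p : ℝ) else 0)
      (fun j _ => hi _) hj
    simp only [if_pos h5] at h6
    linarith

theorem zwb_case (D : ℤ) {X : ℝ} (hl : 2 ≤ Real.log X) {p : ℕ} (hp : p.Prime) :
    Real.log p ≤ 2 * Real.log X ^ 3 ∨ X / Real.log X ^ 4 ≤ Real.log p ∨
      ¬ Ply D (2 ^ Nat.log 2 (p - 1)) ∨ ∃ j ∈ (range ⌈X⌉₊).filter (Wn D X),
        Real.log X ^ j ≤ Real.log p ∧ Real.log p ≤ 2 * Real.log X ^ (j + 1) := by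
  obtain ⟨h1, h2⟩ := zwb_log hp
  generalize 2 ^ Nat.log 2 (p - 1) = y at *
  have hl1 : 1 < Real.log X := by linarith
  have h3 : 1 ≤ Real.log X ^ 3 := one_le_pow₀ hl1.le
  by_cases ha : Real.log y < Real.log X ^ 3
  · exact Or.inl (by linarith)
  by_cases hb : X / Real.log X ^ 4 ≤ Real.log p
  · exact Or.inr (Or.inl hb)
  by_cases hc : Ply D y
  swap
  · exact Or.inr (Or.inr (Or.inl hc))
  rw [not_lt] at ha
  rw [not_le, lt_div_iff₀ (by positivity)] at hb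
  obtain ⟨j, h4, h5⟩ := exists_nat_pow_near (h3.trans ha) hl1
  have h6 : 3 < j + 1 := (pow_lt_pow_iff_right₀ hl1).1 (ha.trans_lt h5)
  have h7 : Real.log X ^ (j + 4) ≤ X := by
    rw [pow_add]
    exact (mul_le_mul_of_nonneg_right (h4.trans h1) (by positivity)).trans hb.le
  have h8 : 1 ≤ Real.log X ^ (j + 1) := one_le_pow₀ hl1.le
  refine Or.inr (Or.inr (Or.inr ⟨j, mem_filter.2 ⟨mem_range.2 (Nat.lt_ceil.2 ?_),
    by omega, h7, y, h4, h5.le, hc⟩, h4.trans h1, by linarith⟩))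
  have h9 : (j : ℝ) < 2 ^ j := by exact_mod_cast Nat.lt_two_pow_self
  exact h9.trans_le ((pow_le_pow_left₀ (by norm_num) hl j).trans
    ((pow_le_pow_right₀ hl1.le (by omega)).trans h7))

theorem many_win (r : ℕ) : ∃ X₀ : ℝ, ∀ (D : ℤ) (X : ℝ), X = Real.log (-(D : ℝ)) → X₀ ≤ X →
    D < 0 → (r + 10) * Real.log (Real.log X) ≤ spl D →
    ∃ Js : Finset ℕ, r < #Js ∧ ∀ j ∈ Js, Wn D X j := by
  obtain ⟨C1, h1⟩ := sum_primes_le
  obtain ⟨C2, h2⟩ := sum_range_le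
  obtain ⟨X₀, hX₀⟩ := zwb_large (Real.exp (6 + |C1| + |C2| + r * (1 + |C2|)))
  refine ⟨X₀, fun D X hX hX0 hD hs => ⟨(range ⌈X⌉₊).filter (Wn D X), ?_,
    fun j hj => (mem_filter.1 hj).2⟩⟩
  by_contra hc
  rw [not_lt] at hc
  obtain ⟨hl, hl4⟩ := hX₀ X hX0
  have a1 := abs_nonneg C1
  have a2 := abs_nonneg C2
  have a3 := le_abs_self C1
  have a4 := le_abs_self C2
  have hr : (0 : ℝ) ≤ r * (1 + |C2|) := by positivity
  have hK := Real.add_one_le_exp (6 + |C1| + |C2| + r * (1 + |C2|))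
  have hl2 : 2 ≤ Real.log X := by linarith
  have hl1 : 1 ≤ Real.log X := by linarith
  have hl0 : 0 < Real.log X := by linarith
  have hll : 6 + |C1| + |C2| + r * (1 + |C2|) ≤ Real.log (Real.log X) :=
    (Real.le_log_iff_exp_le hl0).2 hl
  have hlog2 : Real.log 2 ≤ 1 := by
    linarith [Real.log_le_sub_one_of_pos (show (0 : ℝ) < 2 by norm_num)]
  have h14 : 1 ≤ Real.log X ^ 4 := one_le_pow₀ hl1
  have hX1 : 0 < X := by linarith
  rw [spl] at hs
  generalize hS : (Nat.primesLE D.natAbs).filter (fun p => jacobiSym D p = 1) = S at hs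
  have hm : ∀ p ∈ S, p.Prime ∧ jacobiSym D p = 1 ∧ Real.log p ≤ X := fun p hp => by
    rw [← hS, mem_filter, Nat.mem_primesLE] at hp
    refine ⟨hp.1.2, hp.2, ?_⟩
    rw [hX, ← tti_abs hD]
    exact Real.log_le_log (by exact_mod_cast hp.1.2.pos) (by exact_mod_cast hp.1.1)
  have hcov := zwb_cover S ((range ⌈X⌉₊).filter (Wn D X))
    (fun p => Real.log p ≤ 2 * Real.log X ^ 3) (fun p => X / Real.log X ^ 4 ≤ Real.log p)
    (fun p => ¬ Ply D (2 ^ Nat.log 2 (p - 1)))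
    (fun j p => Real.log X ^ j ≤ Real.log p ∧ Real.log p ≤ 2 * Real.log X ^ (j + 1))
    fun p hp => zwb_case D hl2 (hm p hp).1
  refine absurd (hs.trans (hcov.trans (add_le_add (add_le_add (add_le_add
    (h1 (2 * Real.log X ^ 3) _ (by linarith [one_le_pow₀ (n := 3) hl1]) fun p hp => ?_)
    (h2 (X / Real.log X ^ 4) X _ ((one_le_div (by positivity)).2 hl4) (div_le_self hX1.le h14)
      fun p hp => ?_)) (no_pool D _ fun p hp => ?_))
    (sum_le_card_nsmul _ _ (1 + Real.log (Real.log X) + |C2|) fun j _ => ?_)))) (not_le.2 ?_)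
  · exact ⟨(hm p (mem_filter.1 hp).1).1, (mem_filter.1 hp).2⟩
  · exact ⟨(hm p (mem_filter.1 hp).1).1, (mem_filter.1 hp).2, (hm p (mem_filter.1 hp).1).2.2⟩
  · exact ⟨(hm p (mem_filter.1 hp).1).1, (hm p (mem_filter.1 hp).1).2.1, (mem_filter.1 hp).2⟩
  · have b1 : Real.log X ^ j ≤ Real.log X ^ (j + 1) := pow_le_pow_right₀ hl1 (by omega)
    have b2 : 1 ≤ Real.log X ^ j := one_le_pow₀ hl1
    refine (h2 (Real.log X ^ j) (2 * Real.log X ^ (j + 1)) _ b2 (by linarith)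
      fun p hp => ⟨(hm p (mem_filter.1 hp).1).1, (mem_filter.1 hp).2⟩).trans ?_
    have b3 : 2 * Real.log X ^ (j + 1) / Real.log X ^ j = 2 * Real.log X := by
      field_simp
      ring
    rw [b3, Real.log_mul two_ne_zero hl0.ne']
    linarith
  · have b1 : X / (X / Real.log X ^ 4) = Real.log X ^ 4 := by field_simp
    have b2 : ((((range ⌈X⌉₊).filter (Wn D X)).card : ℕ) : ℝ) ≤ r := by exact_mod_cast hc
    have b3 := mul_le_mul_of_nonneg_right b2
      (show 0 ≤ 1 + Real.log (Real.log X) + |C2| by linarith)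
    rw [b1, Real.log_mul two_ne_zero (by positivity), Real.log_pow, Real.log_pow, nsmul_eq_mul]
    push_cast
    linarith

theorem window7 {l : ℝ} (hl : 1 ≤ l) (V : Finset ℝ) (Js : Finset ℕ) (h : 4 * #V < #Js) :
    ∃ j ∈ Js, ∀ w ∈ V, w * l ≤ l ^ j ∨ l ^ (j + 3) ≤ w := by
  by_contra hc
  push Not at hc
  choose! f hf1 hf2 hf3 using hc
  refine absurd (card_le_mul_card_image_of_maps_to hf1 4 fun w _ => ?_) (not_le.2 h)
  rcases (Js.filter fun j => f j = w).eq_empty_or_nonempty with h0 | h0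
  · rw [h0]
    simp
  · obtain ⟨m, hm, hmin⟩ := exists_min_image _ id h0
    refine (card_le_card (t := Ico m (m + 4)) fun j hj => ?_).trans (by simp)
    refine mem_Ico.2 ⟨hmin j hj, ?_⟩
    obtain ⟨h1, h2⟩ := mem_filter.1 hj
    obtain ⟨h3, h4⟩ := mem_filter.1 hm
    have h5 := hf2 j h1
    have h6 := hf3 m h3
    rw [h2] at h5
    rw [h4] at h6
    have h7 : l ^ j < l ^ (m + 3 + 1) := by
      rw [pow_succ]
      exact h5.trans (mul_lt_mul_of_pos_right h6 (by linarith))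
    exact lt_of_not_ge fun h8 => absurd (pow_le_pow_right₀ hl h8) (not_le.2 h7)

end Pool.Agent.EQ
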