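import Pool.Agent.P.MP_ad7a55_nt.YTa
import Pool.Agent.P.MP_ad7a55_nt.ZWb

/-! Choice of the scales and primes from good windows. -/

set_option autoImplicit false

noncomputable section

open MeasureTheory Topology Filter UpperHalfPlane Finset
open scoped MatrixGroups BoundedContinuousFunction Matrix Classical

namespace Pool.Agent.EQ

theorem zsa_scale {l X z : ℝ} {j : ℕ} (hl : 3000 ≤ l) (hj : 3 ≤ j) (h1 : l ^ (j + 4) ≤ X)
    (h2 : l ^ j ≤ z) (h3 : z ≤ l ^ (j + 1)) : ∃ T : ℝ, l ^ j = T * l ∧ l ^ (j + 3) = T * l ^ 4 ∧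
      l ^ 2 ≤ T ∧ T * l ≤ z ∧ z ≤ T * l ^ 2 ∧ T * l ^ 4 ≤ X := by
  obtain ⟨i, rfl⟩ : ∃ i, j = i + 1 := ⟨j - 1, by omega⟩
  refine ⟨l ^ i, by ring, by ring, pow_le_pow_right₀ (by linarith) (by omega),
    le_trans (le_of_eq (by ring)) h2, h3.trans (le_of_eq (by ring)), le_trans ?_ h1⟩
  rw [← pow_add]
  exact pow_le_pow_right₀ (by linarith) (by omega)

theorem zsa_ar {l T z X : ℝ} (hl : 3000 ≤ l) (h1 : l ^ 2 ≤ T) (h2 : T * l ≤ z)
    (h3 : z ≤ T * l ^ 2) (h4 : T * l ^ 4 ≤ X) : 5 * l ≤ T ∧ 4 * T ≤ T * l ^ 4 ∧ T ≤ z ∧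
      z ≤ X ∧ 6 * l ≤ z ∧ l ^ 2 * z ≤ T * l ^ 4 := by
  have a1 : 6 * l ≤ l ^ 2 := by nlinarith
  have a2 : 0 ≤ T := by linarith
  have a3 : l ^ 2 ≤ l ^ 4 := pow_le_pow_right₀ (by linarith) (by norm_num)
  have a4 : T * l ^ 2 ≤ T * l ^ 4 := mul_le_mul_of_nonneg_left a3 a2
  have a5 : T * 4 ≤ T * l ^ 4 := mul_le_mul_of_nonneg_left (by linarith) a2
  have a6 : T ≤ T * l := le_mul_of_one_le_right a2 (by linarith)
  have a7 : l ^ 2 * z ≤ l ^ 2 * (T * l ^ 2) := mul_le_mul_of_nonneg_left h3 (by positivity)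
  refine ⟨by linarith, by linarith, by linarith, by linarith, by linarith,
    a7.trans (le_of_eq (by ring))⟩

theorem zsa_exp {n l z c : ℝ} (hn : 0 ≤ n) (hl : 16 * n + 56 ≤ l) (hz : 6 * l ≤ z) (hc : 0 ≤ c)
    (h : Real.exp z ≤ c ^ 2) :
    Real.exp (z / 3) + (2 * n + 7) * Real.exp l ≤ c ∧ l ^ 2 ≤ Real.exp (z / 3) := by
  have h1 := Real.add_one_le_exp l
  have h2 : Real.exp l * Real.exp l ≤ Real.exp (z / 3) := by
    rw [← Real.exp_add, Real.exp_le_exp]; linarith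
  have h3 : (2 * n + 7) * Real.exp l ≤ Real.exp l * Real.exp l :=
    mul_le_mul_of_nonneg_right (by linarith) (Real.exp_pos l).le
  have h4 := Real.add_one_le_exp (z / 6)
  have h5 : Real.exp (z / 2) = Real.exp (z / 6) * Real.exp (z / 3) := by
    rw [← Real.exp_add]; ring_nf
  have h6 : 2 * Real.exp (z / 3) ≤ Real.exp (z / 2) := by
    rw [h5]
    exact mul_le_mul_of_nonneg_right (by linarith) (Real.exp_pos _).le
  have h7 : Real.exp (z / 2) ≤ c := by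
    refine le_of_sq_le_sq ?_ hc
    rw [← Real.exp_nat_mul]
    refine le_trans (le_of_eq ?_) h
    congr 1
    push_cast
    ring
  refine ⟨by linarith, le_trans ?_ h2⟩
  rw [sq]
  exact mul_le_mul (by linarith) (by linarith) (by linarith) (Real.exp_pos l).le

theorem zsa_M {M : ℕ} {z X : ℝ} (hz : 1 ≤ z) (hzX : z ≤ X) (hl : 3000 ≤ Real.log X)
    (m4 : (2 : ℝ) ^ M ≤ 2 * z ^ 3) : (M : ℝ) ≤ 5 * Real.log X := by
  have h1 : (2 : ℝ) ^ M ≤ 2 * X ^ 3 :=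
    m4.trans (mul_le_mul_of_nonneg_left (pow_le_pow_left₀ (by linarith) hzX 3) (by norm_num))
  have h2 := Real.log_le_log (by positivity) h1
  have hXp : 0 < X := by linarith
  rw [Real.log_pow, Real.log_mul (by norm_num) (by positivity), Real.log_pow] at h2
  have h3 := Real.log_two_gt_d9
  have h4 := Real.log_two_lt_d9
  have h5 : (M : ℝ) * 0.69 ≤ M * Real.log 2 :=
    mul_le_mul_of_nonneg_left (by linarith) (Nat.cast_nonneg M)
  push_cast at h2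
  linarith

theorem zsa_GM {l T z M : ℝ} (hl : 3000 ≤ l) (hT : 0 ≤ T) (hz : 0 ≤ z) (hM : M ≤ 5 * l)
    (h3 : z ≤ T * l ^ 2) : l / 30 * M * z ≤ T * l ^ 4 / 2 := by
  have h1 : l / 30 * M * z ≤ l / 30 * (5 * l) * (T * l ^ 2) :=
    mul_le_mul (mul_le_mul_of_nonneg_left hM (by linarith)) h3 hz (by nlinarith)
  have h2 : l / 30 * (5 * l) * (T * l ^ 2) = T * l ^ 4 / 6 := by ring
  have h4 : 0 ≤ T * l ^ 4 := mul_nonneg hT (by positivity)
  linarith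

theorem zsa_jac {f d : ℤ} {p : ℕ} (h : jacobiSym (f ^ 2 * d) p = 1) : jacobiSym d p = 1 := by
  rw [jacobiSym.mul_left, jacobiSym.pow_left] at h
  rcases jacobiSym.trichotomy f p with e | e | e <;> rw [e] at h <;> simpa using h

theorem zsa_Z {n N : ℕ} {X : ℝ} (hX0 : 0 ≤ X) (hXN : 2 * (N : ℝ) ^ 3 ≤ X) (I J : Finset (Fin n))
    (f dg : Fin n → ℕ) (d : ℤ) (h1 : ∀ k ∈ I, (f k : ℝ) ^ 2 ≤ Real.exp X)
    (h2 : ∀ k ∈ J, (dg k : ℝ) ≤ Real.exp X) (hdX : (d.natAbs : ℝ) ≤ Real.exp X) :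
    (((2 * N * (((N * ∏ k ∈ I, f k : ℕ) : ℤ) ^ 2 * d) * (∏ k ∈ J, dg k : ℕ) : ℤ).natAbs : ℕ) : ℝ) ≤
      Real.exp ((2 * n + 2) * X) := by
  have he1 : 1 ≤ Real.exp X := Real.one_le_exp hX0
  have hprod : ∀ (S : Finset (Fin n)) (g : Fin n → ℝ), (∀ k ∈ S, 0 ≤ g k ∧ g k ≤ Real.exp X) →
      ∏ k ∈ S, g k ≤ Real.exp X ^ n := fun S g hg => by
    refine (prod_le_prod (fun k hk => (hg k hk).1) fun k hk => (hg k hk).2).trans ?_
    rw [prod_const]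
    exact pow_le_pow_right₀ he1 (by simpa using card_le_univ S)
  have a1 : ((∏ k ∈ I, f k : ℕ) : ℝ) ^ 2 ≤ Real.exp X ^ n := by
    push_cast
    rw [← prod_pow]
    exact hprod _ _ fun k hk => ⟨sq_nonneg _, h1 k hk⟩
  have a2 : ((∏ k ∈ J, dg k : ℕ) : ℝ) ≤ Real.exp X ^ n := by
    push_cast
    exact hprod _ _ fun k hk => ⟨Nat.cast_nonneg _, h2 k hk⟩
  generalize ∏ k ∈ I, f k = F at a1 ⊢
  generalize ∏ k ∈ J, dg k = dd at a2 ⊢
  have h3 : 2 * (N : ℝ) ^ 3 ≤ Real.exp X := hXN.trans (by linarith [Real.add_one_le_exp X])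
  have h4 : (2 * N * (((N * F : ℕ) : ℤ) ^ 2 * d) * dd : ℤ).natAbs =
      2 * N ^ 3 * (F ^ 2 * (d.natAbs * dd)) := by
    simp only [Int.natAbs_mul, Int.natAbs_pow, Int.natAbs_natCast, Int.reduceAbs]
    ring
  have h5 : Real.exp ((2 * n + 2) * X) =
      Real.exp X * (Real.exp X ^ n * (Real.exp X * Real.exp X ^ n)) := by
    rw [show (2 * n + 2 : ℝ) = ((2 * n + 2 : ℕ) : ℝ) by push_cast; ring, Real.exp_nat_mul]
    ring
  rw [h4, h5]
  simp only [Nat.cast_mul, Nat.cast_pow, Nat.cast_ofNat]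
  gcongr

theorem zsa_pool {Z : ℤ} (hZ0 : Z ≠ 0) {B c : ℝ} (hZ : (Z.natAbs : ℝ) ≤ Real.exp B) (M : ℕ)
    (Q : Finset ℕ) (hQ : ∀ p ∈ Q, p.Prime ∧ 3 ≤ p) (hc : 0 ≤ c) (h : c + B + M ≤ #Q) :
    ∃ (G : Finset ℕ) (lp : Fin M → ℕ), (∀ p ∈ G, p ∈ Q ∧ ¬ (p : ℤ) ∣ Z) ∧ (∀ i, lp i ∈ G) ∧
      Function.Injective lp ∧ c ≤ #(G \ univ.image lp) := by
  have hbad := xta_bad hZ0 hZ (Q.filter fun p => (p : ℤ) ∣ Z) fun p hp => by
    obtain ⟨h1, h2⟩ := mem_filter.1 hp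
    exact ⟨(hQ p h1).1, (hQ p h1).2, h2⟩
  have hsum := card_filter_add_card_filter_not (s := Q) fun p : ℕ => (p : ℤ) ∣ Z
  generalize hG : (Q.filter fun p : ℕ => ¬ (p : ℤ) ∣ Z) = G at hsum
  have hG' : ∀ p ∈ G, p ∈ Q ∧ ¬ (p : ℤ) ∣ Z := fun p hp => by
    rw [← hG] at hp
    exact mem_filter.1 hp
  have hGX : c + M ≤ #G := by
    have h1 : (#(Q.filter fun p : ℕ => (p : ℤ) ∣ Z) : ℝ) + #G = #Q := by
      exact_mod_cast hsum
    linarith
  have hcard : M ≤ #G := by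
    have : (M : ℝ) ≤ #G := by linarith
    exact_mod_cast this
  obtain ⟨j⟩ := Function.Embedding.nonempty_of_card_le (α := Fin M) (β := ↥G) (by
    rw [Fintype.card_fin, Fintype.card_coe]
    exact hcard)
  obtain ⟨lp, hlG, hli⟩ : ∃ lp : Fin M → ℕ, (∀ i, lp i ∈ G) ∧ Function.Injective lp :=
    ⟨fun i => (j i).1, fun i => (j i).2, fun i i' e => j.injective (Subtype.ext e)⟩
  have hsub : univ.image lp ⊆ G := fun p hp => by
    obtain ⟨i, -, rfl⟩ := mem_image.1 hp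
    exact hlG i
  refine ⟨G, lp, hG', hlG, hli, ?_⟩
  have h1 := card_sdiff_add_card_eq_card hsub
  rw [card_image_of_injective _ hli, card_univ, Fintype.card_fin] at h1
  have h2 : (#(G \ univ.image lp) : ℝ) + M = #G := by exact_mod_cast h1
  linarith

theorem exists_setup7 (n N e : ℕ) (hN : 0 < N) (he : 0 < e) (G₀ : ℝ) : ∃ X₀ : ℝ,
    ∀ (τ : Fin n → ℍ) (D : Fin n → ℤ) (I : Finset (Fin n)) (k₀ : Fin n) (d : ℤ) (L X : ℝ)
      (m₀ : ℕ) (Js : Finset ℕ), (∀ k, HasDisc (τ k) (D k)) → (∀ k, D k < -576) →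
      (∀ k ∈ I, ∃ f : ℤ, D k = f ^ 2 * d) → k₀ ∈ I → (∀ k ∈ I, D k₀ ≤ D k) →
      X = Real.log (-(D k₀ : ℝ)) → X₀ ≤ X → 4 * (n + n ^ 2) < #Js → (∀ j ∈ Js, Wn (D k₀) X j) →
      (∀ k ∈ I, Low L (D k)) → |L| ≤ X ^ 5 →
      (∀ k ∈ I, ∀ l ∈ I, k ≠ l → ∀ g : ℕ, 0 < g → g ≤ m₀ → ¬ Ig g (jInv (τ k)) (jInv (τ l))) →
      ∃ (r : ℕ) (s : Shp n (Fin (r + 1))) (v : VD n) (G T W : ℝ) (y : ℕ), r < n ∧ s.N = N ∧
        s.e = e ∧ s.I = I ∧ v.τ = τ ∧ v.D = D ∧ G₀ ≤ G ∧ Real.log X ^ 2 ≤ Real.log y ∧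
        Real.log X ^ 2 * Real.log y ≤ 2 * W ∧ Real.log X ^ 2 ≤ #v.P ∧
        s.Ok6 v L G T W 3 m₀ y := by
  obtain ⟨X₀, hX₀⟩ := yta_large 1 (30 * (|G₀| + 100) + 16 * n + 56) (2 * N ^ 3)
  refine ⟨X₀, fun τ D I k₀ d L X m₀ Js hD hbig hf hk₀ hmin hXd hX hJs hW hlow hL hno => ?_⟩
  obtain ⟨hl0, hlK, hXN⟩ := hX₀ X hX
  have hpos : ∀ k, (0 : ℝ) < -(D k : ℝ) := fun k => by
    have : (D k : ℝ) < -576 := by exact_mod_cast hbig k
    linarith
  have hmax : ∀ k ∈ I, Real.log (-(D k : ℝ)) ≤ X := fun k hk => by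
    rw [hXd]
    refine Real.log_le_log (hpos k) ?_
    have : (D k₀ : ℝ) ≤ D k := by exact_mod_cast hmin k hk
    linarith
  have hn0 : (0 : ℝ) ≤ n := Nat.cast_nonneg n
  have hX0 : 0 ≤ X := le_trans (by positivity) hXN
  have hG0 := abs_nonneg G₀
  have hl3 : 3000 ≤ Real.log X := by linarith
  have hl4 : 16 * n + 56 ≤ Real.log X := by linarith
  have hg1 : |G₀| + 100 ≤ Real.log X / 30 := by linarith
  rw [pow_one] at hlK
  have hXp : 0 < X := by linarith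
  have hDX : ∀ k ∈ I, -(D k : ℝ) ≤ Real.exp X := fun k hk =>
    (Real.log_le_iff_le_exp (hpos k)).1 (hmax k hk)
  let dgm : Fin n × Fin n → ℕ := fun p => sInf {g | 0 < g ∧ Ig g (jInv (τ p.1)) (jInv (τ p.2))}
  obtain ⟨j, hjJ, hT3⟩ := window7 (l := Real.log X) (by linarith)
    (I.image (fun k => Real.log (-(D k : ℝ))) ∪ univ.image fun p => Real.log (dgm p)) Js (by
    refine lt_of_le_of_lt (Nat.mul_le_mul_left 4 ?_) hJs
    refine (card_union_le _ _).trans (Nat.add_le_add (card_image_le.trans ?_) (card_image_le.trans ?_))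
    · simpa using card_le_univ I
    · simp [sq])
  obtain ⟨hj3, hj4, y, y0, y0', y3⟩ := hW j hjJ
  obtain ⟨T, eT1, eT2, hT1, y1, y2, hT2⟩ := zsa_scale hl3 hj3 hj4 y0 y0'
  obtain ⟨hTl, hT4, hTy, hyX, hy6, hyW⟩ := zsa_ar hl3 hT1 y1 y2 hT2
  rw [eT1, eT2] at hT3
  replace hT3 := fun w hw => (hT3 w hw).imp_left fun h =>
    le_of_mul_le_mul_right h (by linarith : 0 < Real.log X)
  clear y0 y0' eT1 eT2 hj4 hJs hW
  have hy1 : 1 ≤ Real.log y := by linarith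
  obtain ⟨M, m3, m4⟩ := exists_two_pow (one_le_pow₀ (n := 3) hy1)
  have hM5 := zsa_M hy1 hyX hl3 m4
  have hXl : X = Real.exp (Real.log X) := (Real.exp_log hXp).symm
  generalize Real.log X = l at *
  have hT0 : 0 < T := by linarith
  let J := I.filter fun k => T < Real.log (-(D k : ℝ))
  have hk₀J : k₀ ∈ J := mem_filter.2 ⟨hk₀, by rw [← hXd]; linarith⟩
  have hJI : J ⊆ I := filter_subset _ _
  obtain ⟨r, cr, bs, dg, hr, c1, c2, c3, c4⟩ := clusters (fun k => jInv (τ k)) J ⟨k₀, hk₀J⟩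
    (u := Real.exp T) (w := Real.exp (T * l ^ 4 / 2)) (Real.one_le_exp (by linarith))
    (by
      rw [← Real.exp_nat_mul, Real.exp_le_exp]
      push_cast
      linarith)
    (fun k _ k' _ g hg hw hI => by
      have h1 : dgm (k, k') ∈ {g | 0 < g ∧ Ig g (jInv (τ k)) (jInv (τ k'))} :=
        Nat.sInf_mem ⟨g, hg, hI⟩
      have h2 : dgm (k, k') ≤ g := Nat.sInf_le ⟨hg, hI⟩
      have h3 : (0 : ℝ) < dgm (k, k') := by exact_mod_cast h1.1
      refine ⟨_, h1.1, (Real.log_le_iff_le_exp h3).1 ?_, h1.2⟩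
      refine (hT3 _ (mem_union_right _ (mem_image_of_mem _ (mem_univ (k, k'))))).resolve_right ?_
      have h4 := (Real.log_le_iff_le_exp h3).2 (le_trans (by exact_mod_cast h2) hw)
      exact not_le.2 (by linarith))
  choose! f hf using hf
  have hf0 : ∀ k ∈ I, 0 < (f k).natAbs := fun k hk => Int.natAbs_pos.2 fun e => by
    have := hbig k
    rw [hf k hk, e] at this
    simp at this
  have hd0 : d < 0 := by
    have := hbig k₀
    rw [hf k₀ hk₀] at this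
    by_contra hc
    have := mul_nonneg (sq_nonneg (f k₀)) (not_lt.1 hc)
    omega
  have hdc : -(d.natAbs : ℤ) = d := by omega
  have habs : ∀ k ∈ I, ((f k).natAbs : ℝ) ^ 2 * d.natAbs ≤ Real.exp X := fun k hk => by
    have h1 : (((f k).natAbs : ℤ) ^ 2 * d.natAbs : ℤ) = -D k := by
      rw [hf k hk, Int.natAbs_sq]
      linear_combination -(f k ^ 2) * hdc
    have h2 : ((f k).natAbs : ℝ) ^ 2 * d.natAbs = -(D k : ℝ) := by
      have h3 := congrArg (Int.cast : ℤ → ℝ) h1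
      simpa only [Int.cast_mul, Int.cast_pow, Int.cast_natCast, Int.cast_neg] using h3
    exact h2 ▸ hDX k hk
  have hd1 : (1 : ℝ) ≤ d.natAbs := by exact_mod_cast Int.natAbs_pos.2 hd0.ne
  have hdX : (d.natAbs : ℝ) ≤ Real.exp X := by
    have h1 : (1 : ℝ) ≤ (f k₀).natAbs := by exact_mod_cast hf0 k₀ hk₀
    exact le_trans (le_mul_of_one_le_left (by linarith) (one_le_pow₀ h1)) (habs k₀ hk₀)
  have hZ := zsa_Z hX0 hXN I J (fun k => (f k).natAbs) dg d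
    (fun k hk => le_trans (le_mul_of_one_le_right (sq_nonneg _) hd1) (habs k hk))
    (fun k hk => (c3 k hk).2.1.trans (Real.exp_le_exp.2 (by linarith))) hdX
  obtain ⟨F, hF⟩ : ∃ F : ℕ, F = ∏ k ∈ I, (f k).natAbs := ⟨_, rfl⟩
  obtain ⟨E, hE⟩ : ∃ E : ℤ, E = ((N * F : ℕ) : ℤ) ^ 2 * d := ⟨_, rfl⟩
  obtain ⟨dd, hdd⟩ : ∃ dd : ℕ, dd = ∏ k ∈ J, dg k := ⟨_, rfl⟩
  rw [← hF, ← hE, ← hdd] at hZ
  have hfit : ∀ k ∈ I, Fit E (N ^ 2 * D k) := fun k hk => by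
    refine ⟨∏ l ∈ I.erase k, (f l).natAbs, prod_pos fun l hl => hf0 l (mem_of_mem_erase hl), ?_⟩
    rw [hE, hF, ← mul_prod_erase I _ hk, hf k hk, ← Int.natAbs_sq (f k)]
    generalize ∏ l ∈ I.erase k, (f l).natAbs = G
    push_cast
    ring
  obtain ⟨hEI, hEb⟩ : IsD E ∧ E < -576 := by
    obtain ⟨g, hg, e⟩ := (hfit k₀ hk₀).trans (fit_sq hN _)
    rw [e]
    refine ⟨galA2_isD (hD k₀).isD hg, ?_⟩
    have h1 : (1 : ℤ) ≤ (g : ℤ) ^ 2 := one_le_pow₀ (by exact_mod_cast hg)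
    have h2 := mul_le_mul_of_nonpos_right h1 (by linarith [hbig k₀] : D k₀ ≤ 0)
    linarith [hbig k₀]
  have hdd0 : 0 < dd := hdd ▸ prod_pos fun k hk => (c3 k hk).1
  have hZ0 : (2 * N * E * dd : ℤ) ≠ 0 := by
    have h1 : E ≠ 0 := by omega
    positivity
  have hy0 : (0 : ℝ) < y := by
    rcases Nat.eq_zero_or_pos y with h | h
    · rw [h, Nat.cast_zero, Real.log_zero] at hy1
      linarith
    · exact_mod_cast h
  have hy3 : 3 ≤ y := by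
    have h1 := Real.log_le_sub_one_of_pos hy0
    have : (3 : ℝ) ≤ y := by linarith
    exact_mod_cast this
  unfold Ply at y3
  generalize hQ : ({p ∈ Ioc y (2 * y) | p.Prime ∧ jacobiSym (D k₀) p = 1} : Finset ℕ) = Q at y3
  have hQ' : ∀ p ∈ Q, p.Prime ∧ y < p ∧ p ≤ 2 * y ∧ jacobiSym d p = 1 := fun p hp => by
    rw [← hQ, mem_filter, mem_Ioc, hf k₀ hk₀] at hp
    exact ⟨hp.2.1, hp.1.1, hp.1.2, zsa_jac hp.2.2⟩
  obtain ⟨hQc, hl2⟩ := zsa_exp hn0 hl4 hy6 (Nat.cast_nonneg #Q) (by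
    rw [Real.exp_log hy0]
    exact_mod_cast y3)
  rw [← hXl] at hQc
  obtain ⟨G, lp, hG', hlG, hli, hPc⟩ := zsa_pool hZ0 hZ M Q
    (fun p hp => ⟨(hQ' p hp).1, by have := (hQ' p hp).2.1; omega⟩)
    (Real.exp_pos (Real.log y / 3)).le (by linarith)
  have hsub : univ.image lp ⊆ G := fun p hp => by
    obtain ⟨i, -, rfl⟩ := mem_image.1 hp
    exact hlG i
  obtain ⟨b, hb⟩ := exists_root hEI G (fun p hp => by
    obtain ⟨h1, h2⟩ := hG' p hp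
    obtain ⟨h3, h4, -, h5⟩ := hQ' p h1
    refine ⟨h3, by omega, ?_⟩
    rw [hE, jacobiSym.mul_left, h5, mul_one]
    refine jacobiSym.sq_one' ?_
    rw [Int.gcd_natCast_natCast]
    refine ((Nat.Prime.coprime_iff_not_dvd h3).2 fun h6 => h2 ?_).symm
    refine Dvd.dvd.mul_right (Dvd.dvd.mul_left ?_ _) _
    rw [hE, sq]
    exact ((Int.natCast_dvd_natCast.2 h6).mul_right _).mul_right _) (2 * e)
  rw [prod_pow] at hb
  have hdv : ∀ W : ℕ, W ∣ (∏ p ∈ G, p) ^ (2 * e) → (4 * W : ℤ) ∣ b ^ 2 - E :=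
    fun W h => (mul_dvd_mul_left 4 (Int.natCast_dvd_natCast.2 h)).trans hb
  have hPm : ∀ p ∈ G, p.Prime ∧ y < p ∧ p ≤ 2 * y ∧ ¬ (p : ℤ) ∣ 2 * N * E * (∏ k ∈ J, dg k : ℕ) :=
    fun p hp => by
      obtain ⟨h1, h2⟩ := hG' p hp
      obtain ⟨h3, h4, h5, -⟩ := hQ' p h1
      exact ⟨h3, h4, h5, hdd ▸ h2⟩
  have hL' : |L| ≤ Real.exp T := by
    refine hL.trans ?_
    rw [hXl, ← Real.exp_nat_mul, Real.exp_le_exp]
    push_cast
    exact hTl
  have hXT : X ≤ Real.exp T := by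
    rw [hXl, Real.exp_le_exp]
    linarith
  have hGT : l / 30 * T ≤ Real.log y :=
    le_trans (mul_le_mul_of_nonneg_right (by linarith : l / 30 ≤ l) hT0.le) (by linarith)
  refine ⟨r, ⟨N, e, I, J, cr, bs, hJI, c1, c2⟩,
    ⟨τ, D, dg, E, b, G \ univ.image lp, M, lp, lp, 0⟩, l / 30, T, T * l ^ 4 / 2, y,
    hr, rfl, rfl, rfl, rfl, rfl, by linarith [le_abs_self G₀], hT1.trans hTy, by linarith,
    hl2.trans hPc, hN, he, by linarith, by linarith, hGT,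
    zsa_GM hl3 hT0.le (by linarith) hM5 y2, m3, m4, hD, hbig, hEb,
    fun k hk => hfit k (hJI hk),
    fun k hk => hlow k (hJI hk), hL', fun k hk => ?_,
    fun k hk => ⟨?_, (hmax k (hJI hk)).trans hXT⟩, c3, c4,
    fun k hk k' hk' => hno k (hJI hk) k' (hJI hk'),
    fun q hq => hPm q (mem_sdiff.1 hq).1,
    fun i => ⟨hPm _ (hlG i), fun h => (mem_sdiff.1 h).2 (mem_image_of_mem _ (mem_univ i))⟩, hli,
    hdv _ ?_, ?_, ?_⟩
  · obtain ⟨h1, h2⟩ := mem_sdiff.1 hk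
    exact (Real.log_le_iff_le_exp (hpos k)).1 (not_lt.1 fun h => h2 (mem_filter.2 ⟨h1, h⟩))
  · refine (Real.le_log_iff_exp_le (hpos k)).1 ?_
    have h1 := (hT3 _ (mem_union_left _ (mem_image_of_mem _ (hJI hk)))).resolve_left
      (not_le.2 (mem_filter.1 hk).2)
    exact le_trans (by linarith) h1
  · exact (prod_dvd_prod_of_subset _ _ _ sdiff_subset).trans (dvd_pow_self _ (by omega))
  · have h1 := hdv ((∏ i, lp i) ^ (2 * e)) (pow_dvd_pow_of_dvd (by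
      have h2 : ∏ p ∈ univ.image lp, p = ∏ i, lp i := prod_image fun i _ i' _ h => hli h
      rw [← h2]
      exact prod_dvd_prod_of_subset _ _ _ hsub) _)
    rwa [Nat.cast_pow] at h1
  · have h1 : (y : ℝ) ≤ (#(G \ univ.image lp) : ℝ) ^ 3 := by
      refine le_trans (le_of_eq ?_) (pow_le_pow_left₀ (Real.exp_pos _).le hPc _)
      rw [← Real.exp_nat_mul, ← Real.exp_log hy0, Real.log_exp]
      congr 1
      push_cast
      ring
    exact_mod_cast h1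

end Pool.Agent.EQ
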