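import Pool.Agent.P.MP_ad7a55_nt.YBc
import Pool.Agent.P.MP_ad7a55_nt.XBp

/-! Equal directions and mass in the cusp, with explicit heights. -/

set_option autoImplicit false

noncomputable section

open MeasureTheory Topology Filter UpperHalfPlane Finset
open scoped MatrixGroups BoundedContinuousFunction Matrix Classical

namespace Pool.Agent.EQ

theorem ztb_lin : ∃ (K Y : ℝ) (A : ℕ), 0 < K ∧ ∀ (U L : ℝ) (n : ℕ) (τ : Fin n → ℍ)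
    (D : Fin n → ℤ), (∀ k, HasDisc (τ k) (D k)) → ∀ (c : Fin n) (E b : ℤ) (S : Finset ℕ)
    (k : ℕ → ℕ), 1 ≤ U → 4 * U ^ 2 ≤ -(D c : ℝ) → Y ≤ -(D c : ℝ) → Low L (D c) → Fit E (D c) →
    S.Nonempty →
    (∀ l ∈ S, l.Prime ∧ ¬ (l : ℤ) ∣ 2 * E ∧ 0 < k l ∧ (l : ℤ) ^ k l ∣ b ^ 2 - E) →
    ∑ l ∈ S, (l : ℝ) ^ (-(1 / 4 : ℝ)) ≤ 1 → ((∏ l ∈ S, l ^ k l : ℕ) : ℝ) ^ 400 ≤ -(D c : ℝ) →
    (((Orb τ ×ˢ Orb τ).filter fun z => fr (z.1 c) ∈ KU U ∧ fr (z.2 c) ∈ KU U ∧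
      ∀ l ∈ S, Ker (l ^ k l) (AA E b (fr (z.1 c))) = Ker (l ^ k l) (AA E b (fr (z.2 c)))).card : ℝ) ≤
      K * U ^ 2 * (L ^ 2 + 1) * Real.log (-(D c : ℝ)) ^ A / (∏ l ∈ S, l ^ k l : ℕ) *
        ((Orb τ).card : ℝ) ^ 2 := by
  obtain ⟨K, Y, A, hK, H⟩ := pair_many
  refine ⟨900 * K, max Y 577, A, by positivity,
    fun U L n τ D hτ c E b S k hU hUD hY hL hF hne hS hsum hQ => ?_⟩
  obtain ⟨f, hf, rfl⟩ := hF
  have hD := (hτ c).isD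
  have h576 : D c < -576 := by
    have : (577 : ℝ) ≤ -(D c : ℝ) := (le_max_right _ _).trans hY
    have : (577 : ℤ) ≤ -D c := by exact_mod_cast this
    omega
  have hcl : ∀ l ∈ S, IsCoprime (l : ℤ) (2 * (f ^ 2 * D c)) := fun l hl =>
    ((Nat.prime_iff_prime_int.1 (hS l hl).1).irreducible.coprime_iff_not_dvd).2 (hS l hl).2.1
  have hQ0 : 0 < ∏ l ∈ S, l ^ k l := Finset.prod_pos fun l hl => pow_pos (hS l hl).1.pos _
  have hc : IsCoprime ((∏ l ∈ S, l ^ k l : ℕ) : ℤ) (2 * (f ^ 2 * D c)) := by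
    push_cast
    exact IsCoprime.prod_left fun l hl => (hcl l hl).pow_left
  have hcop : ∀ a ∈ S, ∀ a' ∈ S, a ≠ a' → IsCoprime ((a : ℤ) ^ k a) ((a' : ℤ) ^ k a') :=
    fun a ha a' ha' hne => (Nat.isCoprime_iff_coprime.2
      ((Nat.coprime_primes (hS a ha).1 (hS a' ha').1).2 hne)).pow
  have hb : ((∏ l ∈ S, l ^ k l : ℕ) : ℤ) ∣ b ^ 2 - f ^ 2 * D c := by
    push_cast
    exact Finset.prod_dvd_of_coprime (fun a ha a' ha' hne => hcop a ha a' ha' hne)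
      fun l hl => (hS l hl).2.2.2
  have hker : ∀ (η : M2) (v : V2), v ∈ Ker (∏ l ∈ S, l ^ k l) η ↔ ∀ l ∈ S, v ∈ Ker (l ^ k l) η := by
    intro η v
    refine ⟨fun hv l hl => Ker_anti (Finset.dvd_prod_of_mem _ hl) η hv, fun hv i => ?_⟩
    push_cast
    exact Finset.prod_dvd_of_coprime (fun a ha a' ha' hne => hcop a ha a' ha' hne)
      fun l hl => by exact_mod_cast hv l hl i
  have hJ : ∀ l ∈ S, l.Prime ∧ l ≠ 2 ∧ jacobiSym (D c) l = 1 ∧ 0 < k l := fun l hl => by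
    obtain ⟨u1, u2, u3, u4⟩ := hS l hl
    refine ⟨u1, ?_, ?_, u3⟩
    · rintro rfl
      exact u2 (Dvd.intro _ rfl)
    have u5 : (l : ℤ) ∣ b ^ 2 - f ^ 2 * D c := (dvd_pow_self _ u3.ne').trans u4
    have u6 : IsCoprime (l : ℤ) (f ^ 2 * D c) := (hcl l hl).of_mul_right_right
    have u7 : IsCoprime (l : ℤ) (b ^ 2) := by
      obtain ⟨w, hw⟩ := u5
      rw [show b ^ 2 = f ^ 2 * D c + l * w by linear_combination hw]
      exact u6.add_mul_left_right w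
    have e1 : jacobiSym ((f : ℤ) ^ 2 * D c) l = jacobiSym (b ^ 2) l :=
      jacobiSym.mod_left' (Int.modEq_iff_dvd.2 u5)
    rw [jacobiSym.mul_left, jacobiSym.sq_one' (Int.isCoprime_iff_gcd_eq_one.1
      ((IsCoprime.pow_right_iff two_pos).1 u6.of_mul_right_left).symm),
      jacobiSym.sq_one' (Int.isCoprime_iff_gcd_eq_one.1
      ((IsCoprime.pow_right_iff two_pos).1 u7).symm), one_mul] at e1
    exact e1
  obtain ⟨b₀, h₀, h₁⟩ : ∃ b₀ : ℤ, 2 ∣ b₀ - D c ∧ ((∏ l ∈ S, l ^ k l : ℕ) : ℤ) ∣ f * b₀ + b := by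
    generalize ((∏ l ∈ S, l ^ k l : ℕ) : ℤ) = q at hc
    obtain ⟨x, y, e⟩ := hc
    refine ⟨-(y * 2 * f * D c * b) + x * q * D c, ⟨-(y * f * D c * b) - y * f ^ 2 * D c ^ 2, ?_⟩,
      ⟨x * b + f * x * D c, ?_⟩⟩
    · linear_combination D c * e
    · linear_combination -b * e
  have a1 := H (D c) b₀ S k (4 * U ^ 2) hD ((le_max_left _ _).trans hY) (by nlinarith) hUD hne hJ
    hsum hQ
  have a2 := orbit_two ⊥ hτ c h576 (LevP_finite (∏ l ∈ S, l ^ k l) b₀ (4 * U ^ 2) (D c))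
  rw [IntermediateField.finrank_bot, ← galO_eq, ← card_fO (galO _ _)] at a2
  have a3 := hL _ hD ⟨_, rfl⟩
  have a4 := tfc_HH hD
  have hO := orbit_finite ⊥ hτ
  refine (fun (H : ∀ T : Finset ((Fin n → ℂ) × (Fin n → ℂ)), (∀ z ∈ T,
    (z.1 ∈ Orb τ ∧ z.2 ∈ Orb τ) ∧ fr (z.1 c) ∈ KU U ∧ fr (z.2 c) ∈ KU U ∧ ∀ l ∈ S,
      Ker (l ^ k l) (AA (f ^ 2 * D c) b (fr (z.1 c))) =
        Ker (l ^ k l) (AA (f ^ 2 * D c) b (fr (z.2 c)))) → (T.card : ℝ) ≤ _) =>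
    H _ fun z hz => by simpa only [Finset.mem_filter, Finset.mem_product] using hz) fun T hT => ?_
  have a5 : T.card ≤ {w : (Fin n → ℂ) × (Fin n → ℂ) | w.1 ∈ (galO ⊥ fun k => jInv (τ k)) ∧
      w.2 ∈ (galO ⊥ fun k => jInv (τ k)) ∧
      (w.1 c, w.2 c) ∈ LevP (∏ l ∈ S, l ^ k l) b₀ (4 * U ^ 2) (D c)}.ncard := by
    rw [← Set.ncard_coe_finset]
    refine Set.ncard_le_ncard (fun z hz => ?_)
      ((hO.prod hO).subset fun z hz => ⟨hz.1, hz.2.1⟩)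
    obtain ⟨⟨z1, z2⟩, z3, z4, z5⟩ := hT z hz
    refine ⟨(mem_fO hO).1 z1, (mem_fO hO).1 z2, ?_⟩
    have := lev_of_dir (Orb_disc hτ z1 h576) (Orb_disc hτ z2 h576) hf z3 z4 hQ0 hc hb h₀ h₁
      (Set.ext fun v => by
        rw [hker, hker]
        exact forall₂_congr fun l hl => by rw [z5 l hl])
    rwa [(fr_spec _).2, (fr_spec _).2] at this
  have a6 : (T.card : ℝ) * (Cl (D c)).ncard ^ 2 ≤ _ :=
    le_trans (mul_le_mul_of_nonneg_right (by exact_mod_cast a5) (by positivity)) a2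
  have a7 : HH (D c) ^ 2 ≤ (L ^ 2 + 1) * (Cl (D c)).ncard ^ 2 := by
    have := pow_le_pow_left₀ a4.le a3 2
    rw [mul_pow] at this
    nlinarith [sq_nonneg ((Cl (D c)).ncard : ℝ)]
  refine le_of_mul_le_mul_right ?_ (pow_pos a4 2)
  calc (T.card : ℝ) * HH (D c) ^ 2 ≤ T.card * ((L ^ 2 + 1) * (Cl (D c)).ncard ^ 2) := by gcongr
    _ = (L ^ 2 + 1) * (T.card * (Cl (D c)).ncard ^ 2) := by ring
    _ ≤ (L ^ 2 + 1) * ((15 * (1 : ℕ)) ^ 2 * (K * (4 * U ^ 2) * Real.log (-(D c : ℝ)) ^ A /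
        (∏ l ∈ S, l ^ k l : ℕ) * HH (D c) ^ 2) * ((Orb τ).card : ℝ) ^ 2) := by
        refine mul_le_mul_of_nonneg_left (a6.trans ?_) (by positivity)
        unfold Orb
        gcongr
    _ = _ := by push_cast; ring

theorem lin7 : ∃ (K Y : ℝ) (A : ℕ), 0 < K ∧ ∀ (U L : ℝ) (n : ℕ) (τ : Fin n → ℍ)
    (D : Fin n → ℤ), (∀ k, HasDisc (τ k) (D k)) → ∀ (c : Fin n) (E b : ℤ) (S : Finset ℕ),
    1 ≤ U → 4 * U ^ 2 ≤ -(D c : ℝ) → Y ≤ -(D c : ℝ) → Low L (D c) → Fit E (D c) → S.Nonempty →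
    (∀ l ∈ S, l.Prime ∧ ¬ (l : ℤ) ∣ 2 * E ∧ (l : ℤ) ∣ b ^ 2 - E) →
    ∑ l ∈ S, (l : ℝ) ^ (-(1 / 4 : ℝ)) ≤ 1 → ((∏ l ∈ S, l : ℕ) : ℝ) ^ 400 ≤ -(D c : ℝ) →
    (#{z ∈ Orb τ ×ˢ Orb τ | fr (z.1 c) ∈ KU U ∧ fr (z.2 c) ∈ KU U ∧
      ∀ l ∈ S, Ker l (AA E b (fr (z.1 c))) = Ker l (AA E b (fr (z.2 c)))} : ℝ) ≤
      K * U ^ 2 * (L ^ 2 + 1) * Real.log (-(D c : ℝ)) ^ A / (∏ l ∈ S, l : ℕ) *
        (#(Orb τ) : ℝ) ^ 2 := by
  obtain ⟨K, Y, A, hK, H⟩ := ztb_lin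
  refine ⟨K, Y, A, hK, fun U L n τ D hτ c E b S hU hUD hY hL hF hne hS hsum hQ => ?_⟩
  have a1 := H U L n τ D hτ c E b S (fun _ => 1) hU hUD hY hL hF hne
    (fun l hl => ⟨(hS l hl).1, (hS l hl).2.1, one_pos, by rw [pow_one]; exact (hS l hl).2.2⟩)
    hsum (by simpa only [pow_one] using hQ)
  simpa only [pow_one] using a1

theorem weak7 : ∃ K : ℝ, 0 < K ∧ ∀ (U L : ℝ) (n : ℕ) (τ : Fin n → ℍ) (D : Fin n → ℤ),
    (∀ k, HasDisc (τ k) (D k)) → ∀ c : Fin n, D c < -576 → 1 ≤ U → U ^ 4 ≤ -(D c : ℝ) →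
    Low L (D c) → prb (Orb τ) (fun x => fr (x c) ∉ KU U) ≤ K * (|L| + 1) / U := by
  obtain ⟨K, hK0, hS⟩ := Sh_le
  refine ⟨15 * K, by positivity, fun U L n τ D hτ c h576 hU hUD hL => ?_⟩
  have hU0 : 0 < U := by linarith
  have hK := tfc_rank (⊥ : IntermediateField ℚ ℂ)
  have hδ : 0 < 15 * K * (|L| + 1) / U := by positivity
  have hU4 : 1 ≤ U ^ 4 := one_le_pow₀ hU
  have ht1 : 1 / U ≤ 1 := by rw [div_le_one hU0]; exact hU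
  have a1 : ({z | z ∈ (galOrbit ⊥ fun k => jInv (τ k)) ∧ z c ∈ Sh (D c) (1 / U) 1}.ncard : ℝ) ≤
      15 * K * (|L| + 1) / U * (galOrbit ⊥ fun k => jInv (τ k)).ncard := by
    refine tfc_fin (orbit_one ⊥ hτ c h576 (tti_finite (D c) (1 / U) 1)) ?_
      (hL _ (hτ c).isD ⟨_, rfl⟩) (tfc_HH (hτ c).isD) (Nat.cast_nonneg _) hK (Nat.cast_nonneg _) hδ
    refine (hS _ (1 / U) (hτ c).isD ?_ (by positivity) (by linarith)).trans_eq ?_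
    · rw [one_div, inv_pow, ← div_eq_inv_mul, one_le_div (by positivity)]
      exact hUD
    · rw [IntermediateField.finrank_bot]
      have : (|L| + 1) ≠ 0 := by positivity
      push_cast
      field_simp
  have hO := orbit_finite ⊥ hτ
  rw [← galO_eq, ← card_fO (galO _ _)] at a1
  unfold prb
  rw [div_le_iff₀ (by exact_mod_cast (Orb_ne hτ).card_pos)]
  refine le_trans ?_ a1
  rw [← Set.ncard_coe_finset, Nat.cast_le]
  refine Set.ncard_le_ncard (fun z hz => ?_) (hO.subset fun z hz => hz.1)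
  simp only [Finset.mem_coe, Finset.mem_filter] at hz
  refine ⟨(mem_fO hO).1 hz.1, ?_⟩
  have a2 : U < (fr (z c)).im := not_le.1 fun h => hz.2 ⟨(fr_spec _).1, h⟩
  have a3 : 1 ≤ 1 / U * (fr (z c)).im := by
    rw [one_div, ← div_eq_inv_mul, one_le_div hU0]
    exact a2.le
  have := mem_Sh_of_fd (Orb_disc hτ hz.1 h576) a3
  rwa [(fr_spec _).2] at this

theorem up_move {n : ℕ} {τ : Fin n → ℍ} {D : Fin n → ℤ} (hτ : ∀ k, HasDisc (τ k) (D k))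
    {c : Fin n} (hc : D c < -576) {E b : ℤ} (hE : E < -576) (hF : Fit E (D c)) {l : ℕ}
    (hl : l.Prime) (h1 : ¬ (l : ℤ) ∣ 2 * E) (h2 : (4 * l : ℤ) ∣ b ^ 2 - E) (H : ℝ) :
    (∀ x ∈ Orb τ, Ker l (AA E b (fr (x c))) ∈ Xn l) ∧
      prb (Orb τ) (fun x => fr (x c) ∉ KU H) ≤ prb (Orb τ) fun x => ∃ η : M2, η.det = l ∧
        Ker l η = Ker l (AA E b (fr (x c))) ∧ H ≤ (act η (fr (x c))).im := by
  have hcl : IsCoprime (l : ℤ) (2 * E) :=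
    ((Nat.prime_iff_prime_int.1 hl).irreducible.coprime_iff_not_dvd).2 h1
  have hb : (l : ℤ) ∣ b ^ 2 - E := (Dvd.intro_left 4 rfl).trans h2
  have hln : ∀ x ∈ Orb τ, IsLn l (Ker l (AA E b (fr (x c)))) := fun x hx =>
    AA_line (Orb_disc hτ hx hc) hF hl.pos hcl hb
  refine ⟨fun x hx => (mem_Xn hl.pos).2 (hln x hx), ?_⟩
  obtain ⟨σ, hσ⟩ := cm_one hE hl.pos hcl h2
  rw [← pb_perm (π := fun (x : Fin n → ℂ) k => σ (x k)) (fun x hx => Orb_map hτ hx σ)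
    (fun x _ x' _ e => funext fun k => σ.injective (congrFun e k)) (fun x => fr (x c) ∉ KU H)]
  refine pb_mono fun x hx hp => ?_
  obtain ⟨η, hη, hk⟩ := (hln x hx).exists_mat hl.pos
  have e1 := hσ (fr (x c)) (D c) η (Orb_disc hτ hx hc) hc hF hη hk.symm.subset
  rw [(fr_spec _).2] at e1
  have e2 : jInv (act η (fr (x c))) = jInv (fr (σ (x c))) := by rw [(fr_spec _).2, e1]
  obtain ⟨γ, hγ⟩ := jInv_inj e2
  have hη0 : 0 < η.det := by rw [hη]; exact_mod_cast hl.pos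
  refine ⟨(γ : M2) * η, ?_, ?_, ?_⟩
  · rw [Matrix.det_mul, γ.det_coe, one_mul, hη]
  · rw [Ker_SL, hk]
  · rw [act_mul (vact_SL_det γ) hη0, act_SL, ← hγ]
    exact (not_le.1 fun h => hp ⟨(fr_spec _).1, h⟩).le

end Pool.Agent.EQ
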