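import Pool.Agent.P.MP_ad7a55_nt.ZTa
import Pool.Agent.P.MP_ad7a55_nt.ZTb
import Pool.Agent.P.MP_ad7a55_nt.XEc

/-! Split primes keep the mass out of the cusp. -/

set_option autoImplicit false

noncomputable section

open MeasureTheory Topology Filter UpperHalfPlane Finset
open scoped MatrixGroups BoundedContinuousFunction Matrix Classical

namespace Pool.Agent.EQ

theorem hits_prb {α κ : Type} (O : Finset α) (P : Finset κ) (hP : P.Nonempty) (B : κ → α → Prop)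
    {δ : ℝ} (h : ∀ l ∈ P, δ ≤ prb O (B l)) :
    δ / 2 ≤ prb O fun x => δ / 2 * #P ≤ #{l : P | B l x} := by
  rcases le_or_gt δ 0 with hδ | hδ
  · exact le_trans (by linarith) (pb_nonneg _ _)
  have hP' : (0 : ℝ) < #P := by exact_mod_cast hP.card_pos
  have h1 := pb_rev (O := O) (G := fun x => (#{l : P | B l x} : ℝ)) (B := #P) (t := δ / 2 * #P) hP'
    (fun x _ => by
      have := card_filter_le (univ : Finset P) fun l : P => B l x
      rw [card_univ, Fintype.card_coe] at this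
      exact_mod_cast this) (by positivity)
  refine le_trans ?_ h1
  have h2 : mn O (fun x => (#{l : P | B l x} : ℝ)) = ∑ l : P, prb O (B l) := by
    simp only [pb_eq]
    rw [← mn_sum]
    congr 1
    funext x
    rw [Finset.sum_boole]
  have h3 : δ * #P ≤ ∑ l : P, prb O (B l) := by
    have := card_nsmul_le_sum (univ : Finset P) (fun l : P => prb O (B l)) δ fun l _ => h l l.2
    rwa [card_univ, Fintype.card_coe, nsmul_eq_mul, mul_comm] at this
  rw [h2, le_div_iff₀ hP']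
  linarith

theorem ztc_sum {l : ℝ} {y : ℕ} (S : Finset ℕ) (hy : l ^ 2 ≤ Real.log y) (hy0 : 0 < y)
    (hS : ∀ p ∈ S, y < p) (hK : 1600 * (#S : ℝ) ≤ l ^ 2) :
    ∑ p ∈ S, (p : ℝ) ^ (-(1 / 4 : ℝ)) ≤ 1 := by
  have h1 : ∀ p ∈ S, (p : ℝ) ^ (-(1 / 4 : ℝ)) ≤ Real.exp (-(l ^ 2 / 4)) := by
    intro p hp
    have a : (y : ℝ) ≤ p := by exact_mod_cast (hS p hp).le
    have a0 : (0 : ℝ) < y := by exact_mod_cast hy0
    rw [Real.rpow_def_of_pos (a0.trans_le a), Real.exp_le_exp]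
    have := Real.log_le_log a0 a
    linarith
  refine (sum_le_card_nsmul _ _ _ h1).trans ?_
  rw [nsmul_eq_mul, Real.exp_neg, ← div_eq_mul_inv, div_le_one (Real.exp_pos _)]
  have := Real.add_one_le_exp (l ^ 2 / 4)
  have h0 : (0 : ℝ) ≤ #S := Nat.cast_nonneg _
  linarith

theorem ztc_prod {l X : ℝ} {y : ℕ} (S : Finset ℕ) (hy2 : 2 ≤ y) (hX : 0 < X)
    (hyX : l ^ 2 * Real.log y ≤ 2 * Real.log X)
    (hS : ∀ p ∈ S, p ≤ 2 * y) (hK : 1600 * (#S : ℝ) ≤ l ^ 2) :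
    ((∏ p ∈ S, p : ℕ) : ℝ) ^ 400 ≤ X := by
  have a2 : (2 : ℝ) ≤ y := by exact_mod_cast hy2
  have a0 : (0 : ℝ) < y := by linarith
  have h1 : ∏ p ∈ S, p ≤ (y * y) ^ #S :=
    prod_le_pow_card _ _ _ fun p hp => (hS p hp).trans (Nat.mul_le_mul_right _ hy2)
  have h2 : ((∏ p ∈ S, p : ℕ) : ℝ) ≤ ((y : ℝ) * y) ^ #S := by exact_mod_cast h1
  refine (pow_le_pow_left₀ (Nat.cast_nonneg _) h2 400).trans ?_
  rw [← Real.log_le_log_iff (by positivity) hX, Real.log_pow, Real.log_pow,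
    Real.log_mul a0.ne' a0.ne']
  have h3 : 0 ≤ Real.log y := Real.log_nonneg (by linarith)
  have h4 := mul_le_mul_of_nonneg_right hK h3
  push_cast
  nlinarith

theorem ztc_fin {C K1 U L x l k Q δ b : ℝ} {A : ℕ} (hC : 0 < C) (hK1 : 0 < K1) (hδ : 0 < δ)
    (hU0 : 0 ≤ U) (hU : U ≤ Real.exp (6 * l)) (hL : |L| ≤ Real.exp (5 * l)) (hx0 : 0 ≤ x)
    (hx : x ≤ Real.exp l) (hk : (A + 40) * l ≤ k) (hQ : 0 < Q) (hl0 : 0 ≤ l)
    (hl : 32 * C * K1 / δ ^ 2 ≤ l) (hb : b ≤ C * U * Real.exp (-k) * Q)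
    (h : (δ / 4) ^ 2 ≤ b * (K1 * U ^ 2 * (L ^ 2 + 1) * x ^ A / Q)) : False := by
  have e1 : U ^ 3 ≤ Real.exp (18 * l) := by
    refine (pow_le_pow_left₀ hU0 hU 3).trans (le_of_eq ?_)
    rw [← Real.exp_nat_mul]; congr 1; push_cast; ring
  have e2 : L ^ 2 + 1 ≤ 2 * Real.exp (10 * l) := by
    have a : |L| ^ 2 ≤ Real.exp (10 * l) := by
      refine (pow_le_pow_left₀ (abs_nonneg _) hL 2).trans (le_of_eq ?_)
      rw [← Real.exp_nat_mul]; congr 1; push_cast; ring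
    rw [sq_abs] at a
    have := Real.one_le_exp (show 0 ≤ 10 * l by positivity)
    linarith
  have e3 : x ^ A ≤ Real.exp (A * l) := by
    refine (pow_le_pow_left₀ hx0 hx A).trans (le_of_eq ?_)
    rw [← Real.exp_nat_mul]
  have e4 : Real.exp (-k) ≤ Real.exp (-((A + 40) * l)) := Real.exp_le_exp.2 (by linarith)
  have e5 : b * (K1 * U ^ 2 * (L ^ 2 + 1) * x ^ A / Q) ≤
      C * K1 * (U ^ 3 * (L ^ 2 + 1) * x ^ A * Real.exp (-k)) := by
    refine (mul_le_mul_of_nonneg_right hb (by positivity)).trans (le_of_eq ?_)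
    field_simp
  have e6 : U ^ 3 * (L ^ 2 + 1) * x ^ A * Real.exp (-k) ≤
      Real.exp (18 * l) * (2 * Real.exp (10 * l)) * Real.exp (A * l) *
        Real.exp (-((A + 40) * l)) := by gcongr
  have e7 : Real.exp (18 * l) * (2 * Real.exp (10 * l)) * Real.exp (A * l) *
      Real.exp (-((A + 40) * l)) = 2 / Real.exp (12 * l) := by
    rw [eq_div_iff (Real.exp_pos _).ne']
    have : Real.exp (18 * l) * Real.exp (10 * l) * Real.exp (A * l) *
        Real.exp (-((A + 40) * l)) * Real.exp (12 * l) = 1 := by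
      simp only [← Real.exp_add]
      rw [← Real.exp_zero]; congr 1; ring
    linear_combination 2 * this
  have e8 := h.trans (e5.trans (mul_le_mul_of_nonneg_left (e6.trans e7.le) (by positivity)))
  rw [← mul_div_assoc, le_div_iff₀ (Real.exp_pos _)] at e8
  have e9 : l < Real.exp (12 * l) := by
    have := Real.add_one_le_exp (12 * l)
    linarith
  rw [div_le_iff₀ (by positivity)] at hl
  have e10 := mul_lt_mul_of_pos_right e9 (show 0 < δ ^ 2 by positivity)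
  nlinarith

theorem ztc_U {K0 δ L l X Y : ℝ} (hK0 : 0 < K0) (hδ : 0 < δ) (hL : |L| ≤ Real.exp (5 * l))
    (l2 : 8 * K0 / δ ≤ l) (l5 : 1000 ≤ l) (X0 : 0 < X) (hy : l ^ 2 ≤ Y)
    (hyD : l ^ 2 * Y ≤ 2 * Real.log X) : ∃ U : ℝ, 1 ≤ U ∧ U ≤ Real.exp (6 * l) ∧ U ^ 4 ≤ X ∧
      4 * U ^ 2 ≤ X ∧ K0 * (|L| + 1) / U ≤ δ / 4 := by
  have t1 : 0 ≤ 8 * K0 / δ := by positivity
  have ly : 6 * l ≤ Y := by nlinarith
  have e6 := Real.add_one_le_exp (6 * l)
  obtain ⟨U, hU⟩ : ∃ U : ℝ, U = 4 * K0 * (|L| + 1) / δ + 1 := ⟨_, rfl⟩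
  have U0 : 0 ≤ 4 * K0 * (|L| + 1) / δ := by positivity
  have U1 : 1 ≤ U := by linarith
  have U6 : U ≤ Real.exp (6 * l) := by
    have a := Real.one_le_exp (show 0 ≤ 5 * l by linarith)
    have a1 := Real.add_one_le_exp l
    have a2 : Real.exp (6 * l) = Real.exp l * Real.exp (5 * l) := by
      rw [← Real.exp_add]; congr 1; ring
    have a3 : 4 * K0 * (|L| + 1) / δ ≤ 8 * K0 / δ * Real.exp (5 * l) := by
      have : 4 * K0 * (|L| + 1) / δ = 8 * K0 / δ * ((|L| + 1) / 2) := by ring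
      rw [this]
      exact mul_le_mul_of_nonneg_left (by linarith) t1
    have a4 : (8 * K0 / δ + 1) * Real.exp (5 * l) ≤ Real.exp l * Real.exp (5 * l) :=
      mul_le_mul_of_nonneg_right (by linarith) (by linarith)
    rw [add_mul, one_mul] at a4
    linarith
  have X24 : Real.exp (24 * l) ≤ X := by
    rw [← Real.le_log_iff_exp_le X0]
    have a : l ^ 2 * (6 * l) ≤ l ^ 2 * Y := mul_le_mul_of_nonneg_left ly (sq_nonneg _)
    have a1 : 8 ≤ l ^ 2 := by nlinarith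
    have a2 : 8 * (6 * l) ≤ l ^ 2 * (6 * l) := mul_le_mul_of_nonneg_right a1 (by linarith)
    linarith
  have E4 : Real.exp (6 * l) ^ 4 = Real.exp (24 * l) := by
    rw [← Real.exp_nat_mul]; congr 1; push_cast; ring
  refine ⟨U, U1, U6, (pow_le_pow_left₀ (by linarith) U6 4).trans (E4.le.trans X24), ?_, ?_⟩
  · refine le_trans ?_ (E4.le.trans X24)
    have a := pow_le_pow_left₀ (by linarith) U6 2
    have a1 : (2 : ℝ) ^ 2 ≤ Real.exp (6 * l) ^ 2 := pow_le_pow_left₀ (by norm_num) (by linarith) 2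
    have a2 : Real.exp (6 * l) ^ 4 = Real.exp (6 * l) ^ 2 * Real.exp (6 * l) ^ 2 := by ring
    rw [a2]
    exact mul_le_mul (by linarith) a (sq_nonneg _) (sq_nonneg _)
  · rw [div_le_iff₀ (by linarith)]
    have : δ / 4 * U = K0 * (|L| + 1) + δ / 4 := by rw [hU]; field_simp
    linarith

theorem ztc_k {A l : ℝ} (t3 : 0 ≤ A) (l1 : 1600 * (A + 41) ≤ l) :
    ∃ k : ℕ, (A + 40) * l ≤ k ∧ 1600 * (k : ℝ) ≤ l ^ 2 ∧ (0 : ℝ) < k := by
  have l0 : 1 ≤ l := by linarith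
  have a : 0 < (A + 40) * l := by positivity
  refine ⟨⌈(A + 40) * l⌉₊, Nat.le_ceil _, ?_, a.trans_le (Nat.le_ceil _)⟩
  have := Nat.ceil_lt_add_one a.le
  nlinarith

theorem ztc_y {l : ℝ} {y : ℕ} (l5 : 1000 ≤ l) (hy : l ^ 2 ≤ Real.log y) :
    2 ≤ y ∧ Real.exp (6 * l) ≤ y ∧ l ≤ y := by
  have ly : 6 * l ≤ Real.log y := by nlinarith
  have y0 : 0 < y := by
    rcases Nat.eq_zero_or_pos y with rfl | h
    · simp at ly; linarith
    · exact h
  have y0' : (0 : ℝ) < y := by exact_mod_cast y0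
  have ye : Real.exp (6 * l) ≤ y := (Real.le_log_iff_exp_le y0').1 ly
  have e6 := Real.add_one_le_exp (6 * l)
  refine ⟨?_, ye, by linarith⟩
  have : (2 : ℝ) ≤ y := by linarith
  exact_mod_cast this

theorem tg_pool : ∃ Uf Yf : ℝ → ℝ, (∀ δ, 1 ≤ Uf δ) ∧ ∀ (D E b : ℤ) (L l : ℝ) (y : ℕ)
    (P : Finset ℕ), E < -576 → Fit E D → Low L D → Real.log (Real.log (-(D : ℝ))) ≤ l →
    |L| ≤ Real.exp (5 * l) → l ^ 2 ≤ Real.log y → l ^ 2 * Real.log y ≤ 2 * Real.log (-(D : ℝ)) →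
    l ^ 2 ≤ #P → (∀ p ∈ P, p.Prime ∧ y < p ∧ p ≤ 2 * y ∧ ¬ (p : ℤ) ∣ 2 * E ∧
      (4 * p : ℤ) ∣ b ^ 2 - E) → Tg Uf Yf D := by
  obtain ⟨K1, Y1, A, hK1, hlin⟩ := lin7
  obtain ⟨K0, hK0, hweak⟩ := weak7
  obtain ⟨C, hC, hbad⟩ := bad7
  refine ⟨fun δ => max 1 (100 * Real.exp (6 / δ)), fun δ => max Y1 (Real.exp (Real.exp
    (1600 * (A + 41) + 8 * K0 / δ + 100 * Real.exp (6 / δ) + 32 * C * K1 / δ ^ 2))),
    fun δ => le_max_left _ _, ?_⟩
  intro D E b L l y P hE hF hLow hl hL hy hyD hP hPp δ hδ hY n τ D' hτ c hc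
  subst hc
  set H := 100 * Real.exp (6 / δ) with hH
  have H100 : 100 ≤ H := by
    have := Real.one_le_exp (show 0 ≤ 6 / δ by positivity)
    linarith
  have hmax : max 1 H = H := max_eq_right (by linarith)
  change prb (Orb τ) (fun x => fr (x c) ∉ KU (max 1 H)) ≤ δ
  rw [hmax]
  set X : ℝ := -(D' c : ℝ) with hX
  set l0 : ℝ := 1600 * (A + 41) + 8 * K0 / δ + H + 32 * C * K1 / δ ^ 2 with hl0
  have hY1 : Y1 ≤ X := (le_max_left _ _).trans hY
  have hY2 : Real.exp (Real.exp l0) ≤ X := (le_max_right _ _).trans hY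
  have X0 : 0 < X := (Real.exp_pos _).trans_le hY2
  have hx1 : Real.exp l0 ≤ Real.log X := (Real.le_log_iff_exp_le X0).2 hY2
  have hx0 : 0 < Real.log X := (Real.exp_pos _).trans_le hx1
  have hll : l0 ≤ l := ((Real.le_log_iff_exp_le hx0).2 hx1).trans hl
  have hx2 : Real.log X ≤ Real.exp l := (Real.log_le_iff_le_exp hx0).1 hl
  have t1 : 0 ≤ 8 * K0 / δ := by positivity
  have t2 : 0 ≤ 32 * C * K1 / δ ^ 2 := by positivity
  have t3 : (0 : ℝ) ≤ A := Nat.cast_nonneg _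
  have l1 : 1600 * (A + 41) ≤ l := by linarith
  have l2 : 8 * K0 / δ ≤ l := by linarith
  have l3 : H ≤ l := by linarith
  have l4 : 32 * C * K1 / δ ^ 2 ≤ l := by linarith
  have l5 : 1000 ≤ l := by linarith
  have hD : D' c < -576 := by
    have a := Real.add_one_le_exp (Real.exp l0)
    have a' := Real.add_one_le_exp l0
    have : (D' c : ℝ) < -576 := by linarith
    exact_mod_cast this
  -- the number of primes
  obtain ⟨k, hk1, hk2, k0⟩ := ztc_k t3 l1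
  obtain ⟨S, hSP, hS⟩ := exists_subset_card_eq (s := P) (n := k) (by
    have : (k : ℝ) ≤ #P := by linarith
    exact_mod_cast this)
  have Sne : S.Nonempty := by
    rw [← card_pos, hS]; exact_mod_cast k0
  obtain ⟨y2, ye, yl⟩ := ztc_y l5 hy
  have y0 : 0 < y := by omega
  obtain ⟨U, U1, U6, U4, U2, U7⟩ := ztc_U hK0 hδ hL l2 l5 X0 hy hyD
  have hp := fun p (h : p ∈ S) => hPp p (hSP h)
  have hmove := fun p (h : p ∈ S) =>
    up_move hτ hD hE hF (hp p h).1 (hp p h).2.2.2.1 (hp p h).2.2.2.2 H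
  by_contra hcon
  have hcon := (not_le.1 hcon).le
  have h1 := hits_prb (Orb τ) S Sne
    (fun p x => Up p H (fr (x c)) (Ker p (AA E b (fr (x c))))) (δ := δ)
    fun p h => hcon.trans (hmove p h).2
  have h2 : prb (Orb τ) (fun x => fr (x c) ∉ KU U) ≤ δ / 4 :=
    (hweak U L n τ D' hτ c hD U1 U4 hLow).trans U7
  obtain ⟨B, hB1, hB2⟩ : ∃ B : Finset (S → Set V2),
      (#B : ℝ) ≤ C * U * Real.exp (-(#S : ℝ)) * (∏ p ∈ S, p : ℕ) ∧ ∀ Ls : S → Set V2,
        (∀ p : S, Ls p ∈ Xn p) → (∃ t ∈ KU U, δ / 2 * #S ≤ #{p : S | Up p H t (Ls p)}) →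
          Ls ∈ B := by
    refine ⟨_, hbad U H (δ / 2) S U1 H100 ?_ fun p h => ⟨(hp p h).1, ?_, ?_⟩,
      fun Ls a1 a2 => mem_filter.2 ⟨Fintype.mem_piFinset.2 a1, a2⟩⟩
    · rw [hH, mul_div_cancel_left₀ _ (by norm_num), Real.log_exp]
      exact le_of_eq (by field_simp; norm_num)
    · exact U6.trans (ye.trans (by exact_mod_cast (hp p h).2.1.le))
    · exact l3.trans (yl.trans (by exact_mod_cast (hp p h).2.1.le))
  have h3 := hlin U L n τ D' hτ c E b S U1 U2 hY1 hLow hF Sne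
    (fun p h => ⟨(hp p h).1, (hp p h).2.2.2.1, (Dvd.intro_left 4 rfl).trans (hp p h).2.2.2.2⟩)
    (ztc_sum S hy y0 (fun p h => (hp p h).2.1) (by rw [hS]; exact hk2))
    (ztc_prod S y2 X0 hyD (fun p h => (hp p h).2.2.1) (by rw [hS]; exact hk2))
  have Q0 : (0 : ℝ) < (∏ p ∈ S, p : ℕ) := by
    exact_mod_cast prod_pos fun p h => (hp p h).1.pos
  have h4 := transfer (Orb τ) (fun x => fr (x c) ∈ KU U)
    (fun x => fun p : S => Ker p (AA E b (fr (x c)))) B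
    (s := K1 * U ^ 2 * (L ^ 2 + 1) * Real.log X ^ A / (∏ p ∈ S, p : ℕ))
    (le_trans (by
      refine Nat.cast_le.2 (card_le_card fun z hz => ?_)
      have hz' := (@mem_filter _ _ (_) _ _).1 hz
      exact (@mem_filter _ _ (_) _ _).2
        ⟨hz'.1, hz'.2.1, hz'.2.2.1, fun p h => congrFun hz'.2.2.2 ⟨p, h⟩⟩) h3) (by positivity)
  have h5 : δ / 4 ≤ prb (Orb τ) (fun x => fr (x c) ∈ KU U ∧
      (fun p : S => Ker p (AA E b (fr (x c)))) ∈ B) := by
    refine le_trans (le_trans (by linarith) ((sub_le_sub h1 h2).trans (pb_sub _ _ _)))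
      (pb_mono fun x hx hh => ?_)
    have a := not_not.1 hh.2
    exact ⟨a, hB2 _ (fun p => (hmove p p.2).1 x hx) ⟨_, a, hh.1⟩⟩
  rw [hS] at hB1
  exact ztc_fin hC hK1 hδ (by linarith) U6 hL hx0.le hx2 hk1 Q0 (by linarith) l4 hB1
    ((pow_le_pow_left₀ (by positivity) h5 2).trans h4)

end Pool.Agent.EQ
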