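import Pool.Agent.P.MP_ad7a55_nt.YTb
import Pool.Agent.P.MP_ad7a55_nt.ZSa
import Pool.Agent.P.MP_ad7a55_nt.ZTc

/-! One step of the induction from good windows. -/

set_option autoImplicit false

noncomputable section

open MeasureTheory Topology Filter UpperHalfPlane Finset
open scoped MatrixGroups BoundedContinuousFunction Matrix Classical

namespace Pool.Agent.EQ

/-- Many good windows and a class number that is not small. -/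
def Sc7 (r : ℕ) (D : ℤ) : Prop :=
  (∃ d f : ℤ, Squarefree d ∧ D = f ^ 2 * d) ∧ Low (Real.log (-(D : ℝ)) ^ 4) D ∧
    ∃ Js : Finset ℕ, r < #Js ∧ ∀ j ∈ Js, Wn D (Real.log (-(D : ℝ))) j

variable {n N : ℕ}

theorem fin_top7 (hN : 0 < N) (F : IntermediateField ℚ ℂ) [FiniteDimensional ℚ F]
    (φ : Fin n → (ℍ →ᵇ ℝ)) (hφ : ∀ k, Tc N F (φ k)) (hb : ∀ k, ‖φ k‖ ≤ 1 / 2) {θ : ℝ}
    (hθ : 0 < θ) : ∃ (m₀ : ℕ) (X₀ : ℝ),
    ∀ (τ : Fin n → ℍ) (D : Fin n → ℤ) (I : Finset (Fin n)) (k₀ : Fin n)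
      (ψ : (Fin n × Fn → ℂ) → ℝ), (∀ k, HasDisc (τ k) (D k)) → (∀ k, D k < -576) → k₀ ∈ I →
      (∀ k ∈ I, D k₀ ≤ D k ∧ IsSquare (D k₀ * D k)) → X₀ ≤ -(D k₀ : ℝ) →
      Sc7 (4 * (n + n ^ 2)) (D k₀) →
      (∀ k ∈ I, ∀ l ∈ I, k ≠ l → ∀ g : ℕ, 0 < g → g ≤ m₀ → ¬ Ig g (jInv (τ k)) (jInv (τ l))) →
      Oth I D ψ → (∀ z, |ψ z| ≤ 1) → ∃ J ⊆ I, J.Nonempty ∧ |avg (ON N F τ) fun z => ψ z *
        (PT N F φ I z - (∏ k ∈ J, IN N (φ k)) * PT N F φ (I \ J) z)| ≤ θ := by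
  obtain ⟨e, he, hm⟩ := fin_main6 hN F n
  obtain ⟨Uf, Yf, hU, hT⟩ := tg_pool
  have key : ∀ r : Fin n, ∀ᶠ m : ℕ in atTop,
      ∀ s ∈ {s : Shp n (Fin (r + 1)) | s.N = N ∧ s.e = e}, ∀ (v : VD n) (L G T W : ℝ) (y : ℕ)
        (ψ : (Fin n × Fn → ℂ) → ℝ), (m : ℝ) ≤ G → s.Ok6 v L G T W 3 m y →
        (∀ k ∈ s.J, Tg Uf Yf (v.D k)) → Oth s.I v.D ψ →
        (∀ z, |ψ z| ≤ 1) → |avg (ON N F v.τ) fun z => ψ z *
          (PT N F φ s.I z - (∏ k ∈ s.J, IN N (φ k)) * PT N F φ (s.I \ s.J) z)| ≤ θ := by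
    intro r
    have hf : {s : Shp n (Fin (r + 1)) | s.N = N ∧ s.e = e}.Finite := by
      refine Set.Finite.of_injOn (f := fun s => (s.I, s.J, s.cr, s.bs)) (Set.mapsTo_univ _ _) ?_
        Set.finite_univ
      rintro ⟨N1, e1, I1, J1, c1, b1, _, _, _⟩ ⟨rfl, rfl⟩ ⟨N2, e2, I2, J2, c2, b2, _, _, _⟩ ⟨h1, h2⟩ h
      simp only [Prod.mk.injEq] at h h1 h2
      obtain ⟨rfl, rfl, rfl, rfl⟩ := h
      subst h1 h2
      rfl
    refine (eventually_all_finite hf).2 fun s hs => ?_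
    obtain ⟨m₀, G₀, h⟩ := hm φ hφ hb _ s hs.1 hs.2 Uf Yf hU θ 3 hθ
    filter_upwards [eventually_ge_atTop m₀,
      tendsto_natCast_atTop_atTop.eventually (eventually_ge_atTop G₀)]
      with m h1 h2 v L G T W y ψ h3 h4
    exact h v L G T W y ψ (h2.trans h3)
      { h4 with noi := fun k hk l hl hkl d hd hd' => h4.noi k hk l hl hkl d hd (hd'.trans h1) }
  obtain ⟨m, hm'⟩ := (eventually_all.2 key).exists
  obtain ⟨X₀, hX⟩ := exists_setup7 n N e hN he m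
  refine ⟨m, Real.exp X₀, fun τ D I k₀ ψ h1 h2 h3 h4 h5 h6 h7 h8 h9 => ?_⟩
  obtain ⟨⟨d, f, hd, e'⟩, hL, Js, hJs, hW⟩ := h6
  have hne : ∀ k, D k ≠ 0 := fun k => by linarith [h2 k] |> ne_of_lt
  have hf0 : f ≠ 0 := by
    rintro rfl
    exact hne k₀ (by rw [e']; simp)
  have sh : ∀ k ∈ I, ∃ g : ℤ, D k = g ^ 2 * d := fun k hk =>
    tlow_shape hd hf0 (by rw [← e']; exact (h4 k hk).2)
  have lw : ∀ k ∈ I, Low (Real.log (-(D k₀ : ℝ)) ^ 4) (D k) := fun k hk =>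
    hL.of_sq (hne k₀) (by rw [mul_comm]; exact (h4 k hk).2) (hne k)
  have hX0 : X₀ ≤ Real.log (-(D k₀ : ℝ)) :=
    (Real.le_log_iff_exp_le ((Real.exp_pos _).trans_le h5)).2 h5
  have hbig : ∀ k, (576 : ℝ) < -(D k : ℝ) := fun k => by
    have : ((D k : ℤ) : ℝ) < ((-576 : ℤ) : ℝ) := by exact_mod_cast h2 k
    push_cast at this
    linarith
  have hlog : ∀ k, 1 ≤ Real.log (-(D k : ℝ)) := fun k => by
    rw [Real.le_log_iff_exp_le (by linarith [hbig k])]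
    linarith [hbig k, Real.exp_one_lt_d9]
  have hX1 := hlog k₀
  have hL5 : |Real.log (-(D k₀ : ℝ)) ^ 4| ≤ Real.log (-(D k₀ : ℝ)) ^ 5 := by
    rw [abs_of_nonneg (by positivity)]
    exact pow_le_pow_right₀ hX1 (by norm_num)
  obtain ⟨r, s, v, G, T, W, y, hr, g1, g2, rfl, rfl, rfl, g3, g4, g5, g6, g7⟩ :=
    hX τ D I k₀ d _ _ m Js h1 h2 sh h3 (fun k hk => (h4 k hk).1) rfl hX0 hJs hW lw hL5 h7
  refine ⟨s.J, s.sub, ⟨_, s.mem 0⟩,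
    hm' ⟨r, hr⟩ s ⟨g1, g2⟩ v _ G T W y ψ g3 g7 (fun k hk => ?_) h8 h9⟩
  refine hT (v.D k) v.E v.b _ (Real.log (Real.log (-(v.D k₀ : ℝ)))) y v.P g7.Ebig
    ((g7.fit k hk).trans (fit_sq g7.N_pos _)) (g7.low k hk) ?_ ?_ g4 ?_ g6 fun p hp => ?_
  · refine Real.log_le_log (by linarith [hlog k]) (Real.log_le_log (by linarith [hbig k]) ?_)
    have : ((v.D k₀ : ℤ) : ℝ) ≤ v.D k := by exact_mod_cast (h4 k (s.sub hk)).1
    linarith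
  · refine hL5.trans (le_of_eq ?_)
    rw [show (5 : ℝ) = ((5 : ℕ) : ℝ) by norm_num, Real.exp_nat_mul, Real.exp_log (by linarith)]
  · have : W ≤ Real.log (-(v.D k : ℝ)) :=
      (Real.le_log_iff_exp_le (by linarith [hbig k])).2 (g7.large k hk).1
    linarith
  · obtain ⟨q1, q2, q3, q4⟩ := g7.pP p hp
    refine ⟨q1, q2, q3, fun h => q4 (h.trans ⟨s.N * s.dd v, by ring⟩), Dvd.dvd.trans ?_ g7.bP⟩
    exact mul_dvd_mul_left 4 (Int.natCast_dvd_natCast.2 (Finset.dvd_prod_of_mem (fun q => q) hp))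

theorem goodQ_Sc7 (n : ℕ) : GoodQ n (Sc7 (4 * (n + n ^ 2))) := by
  intro N hN F _ 𝒰 τ D I φ ψ hC hφ hb ho hψ k₀ hk₀ h
  have key : ∀ j : ℕ, ∃ J : Finset (Fin n), ∀ᶠ i in 𝒰, J ⊆ I ∧ J.Nonempty ∧
      |avg (ON N F (τ i)) fun z => ψ i z *
        (PT N F φ I z - (∏ k ∈ J, IN N (φ k)) * PT N F φ (I \ J) z)| ≤ 1 / ((j : ℝ) + 1) := by
    intro j
    obtain ⟨m₀, X₀, hf⟩ := fin_top7 hN F φ hφ hb (θ := 1 / ((j : ℝ) + 1))
      (by positivity)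
    have noi : ∀ᶠ i in 𝒰, ∀ k ∈ I, ∀ l ∈ I, ∀ g ∈ Icc 1 m₀, k ≠ l →
        ¬ Ig g (jInv (τ i k)) (jInv (τ i l)) := by
      refine (eventually_all_finset I).2 fun k hk => (eventually_all_finset I).2 fun l hl =>
        (eventually_all_finset _).2 fun g hg => ?_
      by_cases hkl : k = l
      · exact Eventually.of_forall fun i h' => (h' hkl).elim
      · have hg' : 0 < g := (mem_Icc.1 hg).1
        filter_upwards [hC.noi k hk l hl hkl g hg'] with i hi _ h'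
        exact hi (RingEquiv.refl ℂ) (h'.isog hg')
    refine Ultrafilter.eventually_exists_iff.1 ?_
    filter_upwards [h, hC.big, hC.sq, hC.inf X₀, noi, ho] with i h1 h2 h3 h4 h5 h6
    exact hf (τ i) (D i) I k₀ (ψ i) (hC.disc i) h2 hk₀
      (fun k hk => ⟨h1.1 k hk, h3 k₀ hk₀ k hk⟩) (h4 k₀ hk₀) h1.2
      (fun k hk l hl hkl g g1 g2 => h5 k hk l hl g (mem_Icc.2 ⟨g1, g2⟩) hkl) h6 (hψ i)
  choose Jf hJ using key
  obtain ⟨J, hinf⟩ := Finite.exists_infinite_fiber Jf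
  have hinf' : (Jf ⁻¹' {J}).Infinite := Set.infinite_coe_iff.1 hinf
  obtain ⟨j₀, hj₀⟩ := hinf'.nonempty
  obtain ⟨i₀, hi₀⟩ := (hJ j₀).exists
  rw [show Jf j₀ = J from hj₀] at hi₀
  refine ⟨J, hi₀.1, hi₀.2.1, Metric.tendsto_nhds.2 fun ε hε => ?_⟩
  obtain ⟨j₁, hj₁⟩ := exists_nat_one_div_lt hε
  obtain ⟨j, hj, hlt⟩ := hinf'.exists_gt j₁
  filter_upwards [hJ j] with i hi
  rw [show Jf j = J from hj] at hi
  rw [Real.dist_eq, sub_zero]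
  refine hi.2.2.trans_lt (lt_of_le_of_lt ?_ hj₁)
  have : (j₁ : ℝ) ≤ j := by exact_mod_cast hlt.le
  exact one_div_le_one_div_of_le (by positivity) (by linarith)

theorem GoodQ.or {Q Q' : ℤ → Prop} (h : GoodQ n Q) (h' : GoodQ n Q') :
    GoodQ n fun D => Q D ∨ Q' D := by
  intro N hN F _ 𝒰 τ D I φ ψ hC hφ hb ho hψ k₀ hk₀ h''
  have h1 : ∀ᶠ i in 𝒰, Q (D i k₀) ∨ Q' (D i k₀) := h''.mono fun _ hi => hi.2
  rcases Ultrafilter.eventually_or.1 h1 with h2 | h2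
  · refine h N hN F 𝒰 τ D I φ ψ hC hφ hb ho hψ k₀ hk₀ ?_
    filter_upwards [h'', h2] with i a b using ⟨a.1, b⟩
  · refine h' N hN F 𝒰 τ D I φ ψ hC hφ hb ho hψ k₀ hk₀ ?_
    filter_upwards [h'', h2] with i a b using ⟨a.1, b⟩

end Pool.Agent.EQ
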