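import Pool.Agent.P.MP_ad7a55_nt.TTi

/-! A large class number forces split primes. -/

set_option autoImplicit false

noncomputable section

open Finset
open scoped Classical

namespace Pool.Agent.EQ

/-- The sum of the reciprocals of the split primes. -/
def spl (D : ℤ) : ℝ := ∑ p ∈ Nat.primesLE D.natAbs with jacobiSym D p = 1, 1 / (p : ℝ)

theorem zwa_floor {z : ℝ} (hz : 1 ≤ z) :
    2 ≤ ⌊Real.exp z⌋₊ ∧ Real.log (⌊Real.exp z⌋₊ : ℕ) ≤ z := by
  have h1 : (2 : ℝ) ≤ Real.exp z := by linarith [Real.add_one_le_exp z]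
  have h2 : 2 ≤ ⌊Real.exp z⌋₊ := Nat.le_floor (by exact_mod_cast h1)
  refine ⟨h2, ?_⟩
  have h3 : (0 : ℝ) < (⌊Real.exp z⌋₊ : ℕ) := by exact_mod_cast (by omega : 0 < ⌊Real.exp z⌋₊)
  exact (Real.log_le_iff_le_exp h3).2 (Nat.floor_le (by linarith))

theorem zwa_mem {z : ℝ} {p : ℕ} (hp : p.Prime) (h : Real.log p ≤ z) :
    p ∈ Nat.primesLE ⌊Real.exp z⌋₊ := by
  have h3 : (0 : ℝ) < p := by exact_mod_cast hp.pos
  exact Nat.mem_primesLE.2 ⟨Nat.le_floor ((Real.log_le_iff_le_exp h3).1 h), hp⟩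

theorem zwa_ll {x : ℝ} (hx : 16 ≤ x) : 1 ≤ Real.log (Real.log x) ∧ 0 < Real.log x := by
  have h1 : Real.log 16 ≤ Real.log x := Real.log_le_log (by norm_num) hx
  have h2 : Real.log 16 = 4 * Real.log 2 := by
    rw [show (16 : ℝ) = 2 ^ 4 by norm_num, Real.log_pow]; norm_num
  have h3 := Real.log_two_gt_d9
  have h4 := Real.exp_one_lt_d9
  have h5 : 0 < Real.log x := by linarith
  exact ⟨(Real.le_log_iff_exp_le h5).2 (by linarith), h5⟩

theorem zwa_jac (D : ℤ) {l : ℕ} (hl : l.Prime) : (jacobiSym D l : ℝ) / l ≤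
    2 * (if jacobiSym D l = 1 then 1 / (l : ℝ) else 0) - 1 / (l : ℝ) +
      (if l ∣ D.natAbs then 1 / (l : ℝ) else 0) := by
  have h0 : (0 : ℝ) ≤ 1 / (l : ℝ) := by positivity
  have h1 : (0 : ℝ) ≤ if l ∣ D.natAbs then 1 / (l : ℝ) else 0 := by split_ifs <;> simp
  rcases jacobiSym.trichotomy D l with h | h | h
  · have h2 : l ∣ D.natAbs := by
      have h3 := (jacobiSym.eq_zero_iff.1 h).2
      rw [Int.gcd_eq_natAbs, Int.natAbs_natCast, Nat.gcd_comm] at h3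
      by_contra h4
      exact h3 ((Nat.Prime.coprime_iff_not_dvd hl).2 h4)
    rw [if_pos h2, h]
    simp
  · rw [if_pos h, h]
    push_cast
    linarith
  · rw [h, if_neg (by norm_num)]
    push_cast
    rw [neg_div]
    linarith

theorem sum_primes_le : ∃ C : ℝ, ∀ (z : ℝ) (S : Finset ℕ), 1 ≤ z →
    (∀ p ∈ S, p.Prime ∧ Real.log p ≤ z) → ∑ p ∈ S, 1 / (p : ℝ) ≤ Real.log z + C := by
  refine ⟨7, fun z S hz hS => ?_⟩
  obtain ⟨h2, h3⟩ := zwa_floor hz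
  have h4 := Lib.Sieve.sum_inv_primes_le h2
  have h5 := Lib.Sieve.one_half_le_log h2
  have h6 := Real.log_le_log (by linarith) h3
  have h7 : ∑ p ∈ S, 1 / (p : ℝ) ≤ ∑ p ∈ Nat.primesLE ⌊Real.exp z⌋₊, 1 / (p : ℝ) :=
    sum_le_sum_of_subset_of_nonneg (fun p hp => zwa_mem (hS p hp).1 (hS p hp).2)
      fun p _ _ => by positivity
  linarith

theorem sum_range_le : ∃ C : ℝ, ∀ (z z' : ℝ) (S : Finset ℕ), 1 ≤ z → z ≤ z' →
    (∀ p ∈ S, p.Prime ∧ z ≤ Real.log p ∧ Real.log p ≤ z') →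
    ∑ p ∈ S, 1 / (p : ℝ) ≤ Real.log (z' / z) + C := by
  refine ⟨9 + Real.log 2, fun z z' S hz hzz hS => ?_⟩
  obtain ⟨h2, h3⟩ := zwa_floor (hz.trans hzz)
  have e1 : (2 : ℝ) < Real.exp z := by
    have := Real.exp_le_exp.2 hz
    linarith [Real.exp_one_gt_d9]
  have e2 : 2 < ⌈Real.exp z⌉₊ := Nat.lt_ceil.2 (by exact_mod_cast e1)
  obtain ⟨m, hm⟩ : ∃ m, ⌈Real.exp z⌉₊ = m + 1 := ⟨⌈Real.exp z⌉₊ - 1, by omega⟩
  have m2 : 2 ≤ m := by omega
  have m2' : (2 : ℝ) ≤ m := by exact_mod_cast m2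
  have m3 : (m : ℝ) < Real.exp z := Nat.lt_ceil.1 (by omega)
  have m4 : Real.exp z ≤ (m : ℝ) + 1 := by
    have := Nat.le_ceil (Real.exp z)
    rw [hm] at this
    exact_mod_cast this
  have m5 : m ≤ ⌊Real.exp z'⌋₊ := Nat.le_floor (m3.le.trans (Real.exp_le_exp.2 hzz))
  have m6 : z ≤ 2 * Real.log m := by
    have h : z ≤ Real.log ((m : ℝ) ^ 2) :=
      (Real.le_log_iff_exp_le (by positivity)).2 (by nlinarith)
    rw [Real.log_pow] at h
    exact_mod_cast h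
  have h4 := range_le m2 m5
  have h5 := Lib.Sieve.one_half_le_log h2
  have h6 := Lib.Sieve.one_half_le_log m2
  have h7 : ∑ p ∈ S, 1 / (p : ℝ) ≤
      ∑ p ∈ (Nat.primesLE ⌊Real.exp z'⌋₊).filter (fun l => m < l), 1 / (p : ℝ) := by
    refine sum_le_sum_of_subset_of_nonneg (fun p hp => ?_) fun p _ _ => by positivity
    obtain ⟨p1, p2, p3⟩ := hS p hp
    refine mem_filter.2 ⟨zwa_mem p1 p3, ?_⟩
    have p4 : (0 : ℝ) < p := by exact_mod_cast p1.pos
    have p5 := (Real.le_log_iff_exp_le p4).1 p2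
    exact_mod_cast m3.trans_le p5
  have h8 : Real.log (Real.log (⌊Real.exp z'⌋₊ : ℕ)) ≤ Real.log z' :=
    Real.log_le_log (by linarith) h3
  have h9 : Real.log z ≤ Real.log 2 + Real.log (Real.log m) := by
    rw [← Real.log_mul (by norm_num) (by linarith)]
    exact Real.log_le_log (by linarith) m6
  rw [tpr_logdiv m2 m5] at h4
  rw [Real.log_div (by linarith) (by linarith)]
  linarith

theorem sum_factors_le : ∃ C : ℝ, ∀ n : ℕ, 16 ≤ n →
    ∑ p ∈ n.primeFactors, 1 / (p : ℝ) ≤ Real.log (Real.log (Real.log n)) + C := by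
  obtain ⟨C, H⟩ := sum_primes_le
  refine ⟨C + 2, fun n hn => ?_⟩
  obtain ⟨h1, h2⟩ := zwa_ll (x := (n : ℝ)) (by exact_mod_cast hn)
  have h3 := sum_big_primeFactors (n := n) h2 (by omega)
  have h4 := H _ (n.primeFactors.filter (fun l : ℕ => ¬ Real.log n < l)) h1 fun p hp => by
    obtain ⟨p1, p2⟩ := mem_filter.1 hp
    have p3 := Nat.prime_of_mem_primeFactors p1
    exact ⟨p3, Real.log_le_log (by exact_mod_cast p3.pos) (not_lt.1 p2)⟩
  rw [mul_div_assoc, div_self h2.ne'] at h3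
  rw [← sum_filter_add_sum_filter_not n.primeFactors (fun l : ℕ => Real.log n < l)]
  linarith

theorem mass_ge : ∃ C : ℝ, ∀ (D : ℤ) (w : ℝ), IsD D → 16 ≤ -D → 0 < w →
    Real.sqrt (-(D : ℝ)) * (w / Real.log (-(D : ℝ))) ≤ (Cl D).ncard →
    Real.log w ≤ 2 * spl D + Real.log (Real.log (Real.log (-(D : ℝ)))) + C := by
  obtain ⟨C, H⟩ := sum_factors_le
  obtain ⟨K, hK, HK⟩ := Cl_le
  refine ⟨C + 2 + Real.log K, fun D w hD h16 hw h => ?_⟩
  have ha := tti_abs hD.1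
  have hn : 16 ≤ D.natAbs := by omega
  have hx : (16 : ℝ) ≤ -(D : ℝ) := by rw [← ha]; exact_mod_cast hn
  obtain ⟨h1, h2⟩ := zwa_ll hx
  have h3 := H _ hn
  have h4 := Lib.Sieve.le_sum_inv_primes (y := D.natAbs) (by omega)
  rw [ha] at h3 h4
  have hs : 0 < Real.sqrt (-(D : ℝ)) := Real.sqrt_pos.2 (by linarith)
  have h5 : w / Real.log (-(D : ℝ)) ≤ K * EE D D.natAbs := by
    have := h.trans (HK D hD)
    rw [HH, mul_left_comm] at this
    exact le_of_mul_le_mul_left this hs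
  have h6 := Real.log_le_log (div_pos hw h2) h5
  rw [Real.log_div hw.ne' h2.ne', Real.log_mul hK.ne' (EE_pos _ _).ne', EE, Real.log_exp] at h6
  have h7 := sum_le_sum fun l (hl : l ∈ Nat.primesLE D.natAbs) =>
    zwa_jac D (Nat.prime_of_mem_primesLE hl)
  rw [sum_add_distrib, sum_sub_distrib, ← mul_sum, ← sum_filter, ← sum_filter] at h7
  have h8 : ∑ l ∈ (Nat.primesLE D.natAbs).filter (fun l => l ∣ D.natAbs), 1 / (l : ℝ) ≤
      ∑ p ∈ D.natAbs.primeFactors, 1 / (p : ℝ) := by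
    refine sum_le_sum_of_subset_of_nonneg (fun p hp => ?_) fun p _ _ => by positivity
    obtain ⟨p1, p2⟩ := mem_filter.1 hp
    exact Nat.mem_primeFactors.2 ⟨Nat.prime_of_mem_primesLE p1, p2, by omega⟩
  rw [spl]
  linarith

end Pool.Agent.EQ
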