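import Pool.Agent.P.MP_ad7a55_nt.YZ
import Pool.Agent.P.MP_ad7a55_nt.ZSb
import Pool.Agent.P.MP_ad7a55_nt.ZCb

/-! The class number condition. -/

set_option autoImplicit false

noncomputable section

open Finset
open scoped Classical

namespace Pool.Agent.EQ

/-- The class number is larger than the classical lower bound by a power of `log log`. -/
def Big (b : ℕ) (D : ℤ) : Prop :=
  Real.sqrt (-(D : ℝ)) * (Real.log (Real.log (-(D : ℝ))) ^ b / Real.log (-(D : ℝ))) ≤ (Cl D).ncard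

/-- The exponent of the threshold. -/
def B7 (n : ℕ) : ℕ := 8 * (n + n ^ 2) + 30

theorem sc7_of_big (r : ℕ) : ∃ Y : ℝ, ∀ (b : ℕ) (D : ℤ), Y ≤ -(D : ℝ) → 2 * r + 22 ≤ b →
    Big b D → Sc7 r D := by
  obtain ⟨Y₁, h₁⟩ := low_of_class
  obtain ⟨C, hC⟩ := mass_ge
  obtain ⟨X₀, hX₀⟩ := many_win r
  have t1 := Real.tendsto_log_atTop
  have t2 := t1.comp t1
  have t3 := t1.comp t2
  obtain ⟨Y, hY⟩ := Filter.eventually_atTop.1 ((Filter.eventually_ge_atTop Y₁).and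
    ((Filter.eventually_ge_atTop (16 : ℝ)).and ((t1.eventually_ge_atTop X₀).and
    ((t1.eventually_gt_atTop 0).and ((t2.eventually_ge_atTop 1).and
    ((t3.eventually_ge_atTop C).and (t3.eventually_ge_atTop 0)))))))
  refine ⟨Y, fun b D hD hb hB => ?_⟩
  obtain ⟨a1, a2, a3, a4, a5, a6, a7⟩ := hY _ hD
  simp only [Function.comp] at a5 a6 a7
  have hw : 1 ≤ Real.log (Real.log (-(D : ℝ))) ^ b := one_le_pow₀ a5
  have hs := Real.sqrt_nonneg (-(D : ℝ))
  have hcl : Real.sqrt (-(D : ℝ)) / Real.log (-(D : ℝ)) ≤ (Cl D).ncard := by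
    refine le_trans ?_ hB
    rw [div_eq_mul_one_div]
    exact mul_le_mul_of_nonneg_left (div_le_div_of_nonneg_right hw a4.le) hs
  obtain ⟨hI, hd, hL⟩ := h₁ D a1 hcl
  have h16 : 16 ≤ -D := by exact_mod_cast a2
  have hm := hC D _ hI h16 (lt_of_lt_of_le one_pos hw) hB
  rw [Real.log_pow] at hm
  have hb' : (2 * r + 22 : ℝ) ≤ b := by exact_mod_cast hb
  have h2 := mul_le_mul_of_nonneg_right hb' a7
  exact ⟨hd, hL, hX₀ D _ rfl a3 hI.1 (by linarith)⟩

theorem Qs.anti {B B' A : ℕ} {c : ℝ} {D : ℤ} (hB : B ≤ B') (hD : 16 ≤ -(D : ℝ))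
    (h : Qs B' A c D) : Qs B A c D := by
  have he : Real.exp 1 ≤ Real.log (-(D : ℝ)) := by
    have h1 : Real.log 16 ≤ Real.log (-(D : ℝ)) := Real.log_le_log (by norm_num) hD
    have h2 : Real.log 16 = 4 * Real.log 2 := by
      rw [show (16 : ℝ) = 2 ^ 4 by norm_num, Real.log_pow]
      norm_num
    have h3 := Real.log_two_gt_d9
    have h4 := Real.exp_one_lt_d9
    linarith
  have ht := thr_anti hB he
  obtain ⟨d, f, hd, e, h | ⟨hz, hm⟩⟩ := h
  · exact ⟨d, f, hd, e, Or.inl (h.trans ht)⟩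
  · exact ⟨d, f, hd, e, Or.inr ⟨hz, hm.mono le_rfl ht⟩⟩

theorem goodQ7 (n A : ℕ) {c : ℝ} (hc : 0 < c) :
    GoodQ n fun D => Big (B7 n + 2) D ∨ Qs (B7 n) A c D := by
  obtain ⟨Y, hY⟩ := sc7_of_big (4 * (n + n ^ 2))
  refine ((goodQ_Sc7 n).or (goodQ_Qs n A hc)).mono (Y := max Y 16) fun D hD h => ?_
  rcases h with h | h
  · exact Or.inl (hY _ D ((le_max_left _ _).trans hD) (by unfold B7; omega) h)
  · exact Or.inr (h.anti (by unfold BB B7; omega) ((le_max_right _ _).trans hD))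

theorem big_of {b : ℕ} {D : ℤ} (hD : D < 0) {x w : ℝ} (hx : x = Real.log |(D : ℝ)|)
    (hw : w = Real.log x ^ b) (h : Real.sqrt |(D : ℝ)| * w / x ≤
      {z : ℂ | ∃ t : UpperHalfPlane, HasDisc t D ∧ jInv t = z}.ncard) : Big b D := by
  have h0 : (D : ℝ) < 0 := by exact_mod_cast hD
  rw [Cl_eq, hw, hx, abs_of_neg h0, mul_div_assoc] at h
  exact h

end Pool.Agent.EQ
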